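import Pool.Agent.MalP.P7.ChkDef

/-! # Data for the certificate of zC2Ex -/

set_option autoImplicit false
set_option maxRecDepth 100000

namespace Pool.Agent.MalP.Chk7

noncomputable def dC2d_i0 : IL := (.e false (nat_lit 2) (nat_lit 114) (nat_lit 2) (nat_lit 12) (.e true (nat_lit 3) (nat_lit 115) (nat_lit 2) (nat_lit 12) (.e true (nat_lit 2) (nat_lit 116) (nat_lit 2) (nat_lit 12) (.e true (nat_lit 2) (nat_lit 118) (nat_lit 2) (nat_lit 12) (.e true (nat_lit 3) (nat_lit 131) (nat_lit 2) (nat_lit 12) (.e false (nat_lit 1) (nat_lit 80) (nat_lit 4) (nat_lit 10) (.e false (nat_lit 3) (nat_lit 81) (nat_lit 4) (nat_lit 10) (.e true (nat_lit 3) (nat_lit 82) (nat_lit 4) (nat_lit 10) (.e false (nat_lit 3) (nat_lit 83) (nat_lit 4) (nat_lit 10) (.e false (nat_lit 3) (nat_lit 84) (nat_lit 4) (nat_lit 10) (.e false (nat_lit 3) (nat_lit 85) (nat_lit 4) (nat_lit 10) (.e false (nat_lit 1) (nat_lit 152) (nat_lit 1) (nat_lit 13)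 (.e true (nat_lit 1) (nat_lit 157) (nat_lit 1) (nat_lit 13) (.e false (nat_lit 1) (nat_lit 39) (nat_lit 12) (nat_lit 4) (.e false (nat_lit 1) (nat_lit 106) (nat_lit 2) (nat_lit 12) (.e true (nat_lit 1) (nat_lit 117) (nat_lit 2) (nat_lit 12) (.e true (nat_lit 1) (nat_lit 119) (nat_lit 2) (nat_lit 12) (.e true (nat_lit 1) (nat_lit 120) (nat_lit 2) (nat_lit 12) (.e false (nat_lit 1) (nat_lit 122) (nat_lit 2) (nat_lit 12) (.e false (nat_lit 1) (nat_lit 123) (nat_lit 2) (nat_lit 12) (.e false (nat_lit 1) (nat_lit 127) (nat_lit 2) (nat_lit 12) (.e false (nat_lit 1) (nat_lit 128) (nat_lit 2) (nat_lit 12) (.e true (nat_lit 1) (nat_lit 129) (nat_lit 2) (nat_lit 12) (.e true (nat_lit 1) (nat_lit 130) (nat_lit 2) (nat_lit 12) (.u (nat_lit 2) (.n (nat_lit 0) (nat_lit 5) (.n (nat_lit 2) (nat_lit 3) (.n (nat_lit 3) (nat_lit 2) (.n (nat_lit 4) (nat_lit 3) (.n (nat_lit 5) (nat_lit 4) (.n (nat_lit 6) (nat_lit 4) (.n (nat_lit 8)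 (nat_lit 5) (.p (nat_lit 10) (nat_lit 2) (.p (nat_lit 11) (nat_lit 5) (.n (nat_lit 12) (nat_lit 6) (.n (nat_lit 13) (nat_lit 5) (.p (nat_lit 14) (nat_lit 6) (.p (nat_lit 15) (nat_lit 4) (.n (nat_lit 17) (nat_lit 1) (.p (nat_lit 19) (nat_lit 1) (.n (nat_lit 20) (nat_lit 2) (.p (nat_lit 22) (nat_lit 4) (.p (nat_lit 23) (nat_lit 1) (.p (nat_lit 24) (nat_lit 2) (.n (nat_lit 25) (nat_lit 2) (.p (nat_lit 26) (nat_lit 5) (.n (nat_lit 27) (nat_lit 1) (.p (nat_lit 28) (nat_lit 2) (.p (nat_lit 29) (nat_lit 1) (.n (nat_lit 35) (nat_lit 1) (.n (nat_lit 38) (nat_lit 2) (.n (nat_lit 39) (nat_lit 1) (.p (nat_lit 40) (nat_lit 4) (.p (nat_lit 41) (nat_lit 1) (.p (nat_lit 42) (nat_lit 1) (.p (nat_lit 43) (nat_lit 2) (.n (nat_lit 44) (nat_lit 1) (.n (nat_lit 45) (nat_lit 3) (.n (nat_lit 46) (nat_lit 3) (.n (nat_lit 57) (nat_lit 1) (.n (nat_lit 58) (nat_lit 1) (.p (nat_lit 59) (nat_lit 1) (.n (nat_lit 61) (nat_lit 1) (.p (nat_lit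 123) (nat_lit 1) (.p (nat_lit 124) (nat_lit 1) (.n (nat_lit 125) (nat_lit 1) (.p (nat_lit 126) (nat_lit 1) (.p (nat_lit 127) (nat_lit 1) (.p (nat_lit 128) (nat_lit 1) (.n (nat_lit 129) (nat_lit 1) (.p (nat_lit 147) (nat_lit 1) (.p (nat_lit 181) (nat_lit 1) (.p (nat_lit 187) (nat_lit 1) (.n (nat_lit 199) (nat_lit 1) (.p (nat_lit 201) (nat_lit 1) (.p (nat_lit 204) (nat_lit 1) (.n (nat_lit 205) (nat_lit 1) (.p (nat_lit 206) (nat_lit 1) .z))))))))))))))))))))))))))))))))))))))))))))))))))))) .nil)))))))))))))))))))))))))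

noncomputable def dC2d_i1 : IL := (.e true (nat_lit 1) (nat_lit 144) (nat_lit 1) (nat_lit 13) (.e false (nat_lit 2) (nat_lit 145) (nat_lit 1) (nat_lit 13) (.e true (nat_lit 2) (nat_lit 147) (nat_lit 1) (nat_lit 13) (.e true (nat_lit 2) (nat_lit 149) (nat_lit 1) (nat_lit 13) (.e false (nat_lit 1) (nat_lit 151) (nat_lit 1) (nat_lit 13) (.e false (nat_lit 1) (nat_lit 153) (nat_lit 1) (nat_lit 13) (.e false (nat_lit 1) (nat_lit 155) (nat_lit 1) (nat_lit 13) (.e false (nat_lit 1) (nat_lit 156) (nat_lit 1) (nat_lit 13) (.e true (nat_lit 1) (nat_lit 74) (nat_lit 5) (nat_lit 9) (.e true (nat_lit 1) (nat_lit 75) (nat_lit 5) (nat_lit 9) (.e true (nat_lit 2) (nat_lit 76) (nat_lit 5) (nat_lit 9) (.e false (nat_lit 2) (nat_lit 77) (nat_lit 5) (nat_lit 9) (.e false (nat_lit 2) (nat_lit 78) (nat_lit 5) (nat_lit 9) (.e false (nat_lit 2) (nat_lit 79) (nat_lit 5) (nat_lit 9) (.e true (nat_lit 1) (nat_lit 164) (nat_lit 0) (nat_lit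 14) (.e false (nat_lit 1) (nat_lit 165) (nat_lit 0) (nat_lit 14) (.e true (nat_lit 3) (nat_lit 167) (nat_lit 0) (nat_lit 14) (.e true (nat_lit 3) (nat_lit 24) (nat_lit 19) (nat_lit 1) (.e false (nat_lit 3) (nat_lit 28) (nat_lit 19) (nat_lit 1) (.e true (nat_lit 2) (nat_lit 107) (nat_lit 2) (nat_lit 12) (.e false (nat_lit 2) (nat_lit 108) (nat_lit 2) (nat_lit 12) (.e false (nat_lit 3) (nat_lit 109) (nat_lit 2) (nat_lit 12) (.e false (nat_lit 2) (nat_lit 110) (nat_lit 2) (nat_lit 12) (.e true (nat_lit 2) (nat_lit 112) (nat_lit 2) (nat_lit 12) (.e false (nat_lit 3) (nat_lit 113) (nat_lit 2) (nat_lit 12) dC2d_i0)))))))))))))))))))))))))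

noncomputable def dC2d_i2 : IL := (.e false (nat_lit 1) (nat_lit 34) (nat_lit 15) (nat_lit 3) (.e true (nat_lit 1) (nat_lit 35) (nat_lit 15) (nat_lit 3) (.e false (nat_lit 1) (nat_lit 36) (nat_lit 15) (nat_lit 3) (.e false (nat_lit 1) (nat_lit 37) (nat_lit 15) (nat_lit 3) (.e false (nat_lit 1) (nat_lit 38) (nat_lit 15) (nat_lit 3) (.e false (nat_lit 1) (nat_lit 61) (nat_lit 6) (nat_lit 8) (.e true (nat_lit 1) (nat_lit 63) (nat_lit 6) (nat_lit 8) (.e false (nat_lit 1) (nat_lit 64) (nat_lit 6) (nat_lit 8) (.e false (nat_lit 1) (nat_lit 66) (nat_lit 6) (nat_lit 8) (.e true (nat_lit 1) (nat_lit 72) (nat_lit 6) (nat_lit 8) (.e true (nat_lit 1) (nat_lit 73) (nat_lit 6) (nat_lit 8) (.e false (nat_lit 3) (nat_lit 25) (nat_lit 19) (nat_lit 1) (.e false (nat_lit 3) (nat_lit 26) (nat_lit 19) (nat_lit 1) (.e false (nat_lit 3) (nat_lit 29) (nat_lit 19) (nat_lit 1) (.e true (nat_lit 2) (nat_lit 132) (nat_lit 1) (nat_lit 13)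 (.e true (nat_lit 1) (nat_lit 133) (nat_lit 1) (nat_lit 13) (.e false (nat_lit 2) (nat_lit 134) (nat_lit 1) (nat_lit 13) (.e false (nat_lit 1) (nat_lit 135) (nat_lit 1) (nat_lit 13) (.e true (nat_lit 1) (nat_lit 137) (nat_lit 1) (nat_lit 13) (.e true (nat_lit 1) (nat_lit 138) (nat_lit 1) (nat_lit 13) (.e false (nat_lit 2) (nat_lit 139) (nat_lit 1) (nat_lit 13) (.e true (nat_lit 2) (nat_lit 140) (nat_lit 1) (nat_lit 13) (.e true (nat_lit 1) (nat_lit 141) (nat_lit 1) (nat_lit 13) (.e false (nat_lit 1) (nat_lit 142) (nat_lit 1) (nat_lit 13) (.e false (nat_lit 2) (nat_lit 143) (nat_lit 1) (nat_lit 13) dC2d_i1)))))))))))))))))))))))))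

noncomputable def dC2d_c307 : Cm := .mk (nat_lit 399) (nat_lit 307) (nat_lit 205) (nat_lit 47) (.c (nat_lit 21) (nat_lit 3) (nat_lit 20) (nat_lit 1) (nat_lit 47) (.c (nat_lit 24) (nat_lit 6) (nat_lit 18) (nat_lit 2) (nat_lit 50) (.c (nat_lit 30) (nat_lit 3) (nat_lit 16) (nat_lit 2) (nat_lit 62) (.c (nat_lit 33) (nat_lit 6) (nat_lit 14) (nat_lit 2) (nat_lit 68) (.c (nat_lit 39) (nat_lit 3) (nat_lit 11) (nat_lit 3) (nat_lit 80) (.c (nat_lit 42) (nat_lit 3) (nat_lit 10) (nat_lit 1) (nat_lit 89) (.c (nat_lit 45) (nat_lit 3) (nat_lit 8) (nat_lit 2) (nat_lit 92) (.c (nat_lit 49) (nat_lit 11) (nat_lit 7) (nat_lit 1) (nat_lit 98) (.c (nat_lit 60) (nat_lit 14) (nat_lit 6) (nat_lit 1) (nat_lit 109) (.c (nat_lit 74) (nat_lit 6) (nat_lit 5) (nat_lit 1) (nat_lit 123) (.c (nat_lit 80) (nat_lit 11) (nat_lit 4) (nat_lit 1) (nat_lit 129) (.c (nat_lit 91) (nat_lit 6) (nat_lit 3) (nat_lit 1) (nat_lit 140) (.c (nat_lit 106) (nat_lit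 26) (nat_lit 2) (nat_lit 1) (nat_lit 146) (.c (nat_lit 132) (nat_lit 26) (nat_lit 1) (nat_lit 1) (nat_lit 172) (.c (nat_lit 158) (nat_lit 11) (nat_lit 0) (nat_lit 1) (nat_lit 198) .nil)))))))))))))))

noncomputable def dC2d_i3 : IL := (.e false (nat_lit 1) (nat_lit 295) (nat_lit 0) (nat_lit 18) (.e false (nat_lit 2) (nat_lit 297) (nat_lit 0) (nat_lit 18) (.e true (nat_lit 3) (nat_lit 298) (nat_lit 0) (nat_lit 18) (.e false (nat_lit 3) (nat_lit 303) (nat_lit 0) (nat_lit 18) (.e true (nat_lit 2) (nat_lit 304) (nat_lit 0) (nat_lit 18) (.e true (nat_lit 1) (nat_lit 205) (nat_lit 2) (nat_lit 16) (.e true (nat_lit 2) (nat_lit 206) (nat_lit 2) (nat_lit 16) (.e true (nat_lit 1) (nat_lit 207) (nat_lit 2) (nat_lit 16) (.e true (nat_lit 1) (nat_lit 210) (nat_lit 2) (nat_lit 16) (.e false (nat_lit 1) (nat_lit 216) (nat_lit 2) (nat_lit 16) (.e true (nat_lit 2) (nat_lit 228) (nat_lit 2) (nat_lit 16) (.e false (nat_lit 3) (nat_lit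 231) (nat_lit 2) (nat_lit 16) (.e true (nat_lit 3) (nat_lit 232) (nat_lit 2) (nat_lit 16) (.e true (nat_lit 1) (nat_lit 234) (nat_lit 2) (nat_lit 16) (.e false (nat_lit 2) (nat_lit 235) (nat_lit 2) (nat_lit 16) (.e true (nat_lit 2) (nat_lit 237) (nat_lit 2) (nat_lit 16) (.e true (nat_lit 2) (nat_lit 239) (nat_lit 2) (nat_lit 16) (.e true (nat_lit 2) (nat_lit 241) (nat_lit 2) (nat_lit 16) (.e true (nat_lit 3) (nat_lit 242) (nat_lit 2) (nat_lit 16) (.e true (nat_lit 3) (nat_lit 244) (nat_lit 2) (nat_lit 16) (.e false (nat_lit 3) (nat_lit 246) (nat_lit 2) (nat_lit 16) (.e true (nat_lit 1) (nat_lit 248) (nat_lit 2) (nat_lit 16) (.e false (nat_lit 3) (nat_lit 249) (nat_lit 2) (nat_lit 16) (.e true (nat_lit 2) (nat_lit 251) (nat_lit 2) (nat_lit 16) (.u (nat_lit 2) (.n (nat_lit 0) (nat_lit 1) (.p (nat_lit 1) (nat_lit 1) (.p (nat_lit 2) (nat_lit 1) (.n (nat_lit 3) (nat_lit 3) (.p (nat_lit 4) (nat_lit 6) (.n (nat_lit 5)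 (nat_lit 2) (.p (nat_lit 7) (nat_lit 4) (.p (nat_lit 8) (nat_lit 1) (.n (nat_lit 9) (nat_lit 1) (.p (nat_lit 10) (nat_lit 1) (.p (nat_lit 11) (nat_lit 1) (.p (nat_lit 12) (nat_lit 3) (.p (nat_lit 14) (nat_lit 3) (.p (nat_lit 15) (nat_lit 1) (.n (nat_lit 16) (nat_lit 3) (.n (nat_lit 17) (nat_lit 1) (.n (nat_lit 19) (nat_lit 2) (.p (nat_lit 21) (nat_lit 2) (.n (nat_lit 22) (nat_lit 1) (.n (nat_lit 23) (nat_lit 2) (.p (nat_lit 25) (nat_lit 3) (.p (nat_lit 26) (nat_lit 2) (.n (nat_lit 27) (nat_lit 3) (.n (nat_lit 28) (nat_lit 2) (.p (nat_lit 29) (nat_lit 3) (.p (nat_lit 31) (nat_lit 1) (.p (nat_lit 32) (nat_lit 5) (.p (nat_lit 33) (nat_lit 2) (.n (nat_lit 35) (nat_lit 1) (.p (nat_lit 36) (nat_lit 1) (.p (nat_lit 37) (nat_lit 3) (.n (nat_lit 38) (nat_lit 1) (.n (nat_lit 39) (nat_lit 5) (.p (nat_lit 40) (nat_lit 3) (.p (nat_lit 41) (nat_lit 1) (.n (nat_lit 42) (nat_lit 1) (.p (nat_lit 44) (nat_lit 2) (.p (nat_lit 46)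 (nat_lit 2) (.p (nat_lit 49) (nat_lit 1) (.p (nat_lit 50) (nat_lit 1) (.n (nat_lit 51) (nat_lit 1) (.n (nat_lit 52) (nat_lit 1) (.p (nat_lit 54) (nat_lit 1) (.n (nat_lit 55) (nat_lit 2) (.n (nat_lit 56) (nat_lit 1) (.n (nat_lit 57) (nat_lit 1) (.p (nat_lit 58) (nat_lit 1) (.n (nat_lit 61) (nat_lit 1) (.p (nat_lit 318) (nat_lit 1) (.n (nat_lit 321) (nat_lit 1) (.p (nat_lit 326) (nat_lit 1) (.p (nat_lit 327) (nat_lit 1) .z)))))))))))))))))))))))))))))))))))))))))))))))))))) .nil)))))))))))))))))))))))))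

noncomputable def dC2d_c308 : Cm := .mk (nat_lit 850) (nat_lit 308) (nat_lit 335) (nat_lit 62) (.c (nat_lit 39) (nat_lit 3) (nat_lit 33) (nat_lit 6) (nat_lit 62) (.c (nat_lit 42) (nat_lit 3) (nat_lit 30) (nat_lit 3) (nat_lit 80) (.c (nat_lit 45) (nat_lit 3) (nat_lit 24) (nat_lit 6) (nat_lit 89) (.c (nat_lit 48) (nat_lit 1) (nat_lit 21) (nat_lit 3) (nat_lit 107) (.c (nat_lit 49) (nat_lit 11) (nat_lit 20) (nat_lit 1) (nat_lit 110) (.c (nat_lit 60) (nat_lit 14) (nat_lit 18) (nat_lit 2) (nat_lit 121) (.c (nat_lit 74) (nat_lit 6) (nat_lit 16) (nat_lit 2) (nat_lit 149) (.c (nat_lit 80) (nat_lit 11) (nat_lit 14) (nat_lit 2) (nat_lit 161) (.c (nat_lit 91) (nat_lit 6) (nat_lit 11) (nat_lit 3) (nat_lit 183) (.c (nat_lit 97) (nat_lit 4) (nat_lit 10) (nat_lit 1) (nat_lit 201) (.c (nat_lit 101) (nat_lit 4) (nat_lit 8) (nat_lit 2) (nat_lit 205) (.c (nat_lit 106) (nat_lit 26) (nat_lit 7) (nat_lit 1) (nat_lit 213) (.c (nat_lit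 132) (nat_lit 26) (nat_lit 6) (nat_lit 1) (nat_lit 239) (.c (nat_lit 158) (nat_lit 11) (nat_lit 5) (nat_lit 1) (nat_lit 265) (.c (nat_lit 169) (nat_lit 16) (nat_lit 4) (nat_lit 1) (nat_lit 276) (.c (nat_lit 185) (nat_lit 10) (nat_lit 3) (nat_lit 1) (nat_lit 292) (.c (nat_lit 205) (nat_lit 47) (nat_lit 2) (nat_lit 1) (nat_lit 302) (.c (nat_lit 252) (nat_lit 37) (nat_lit 1) (nat_lit 1) (nat_lit 349) (.c (nat_lit 289) (nat_lit 16) (nat_lit 0) (nat_lit 1) (nat_lit 386) .nil)))))))))))))))))))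

noncomputable def dC2d_i4 : IL := (.e false (nat_lit 3) (nat_lit 297) (nat_lit 2) (nat_lit 9) (.e true (nat_lit 3) (nat_lit 298) (nat_lit 2) (nat_lit 9) (.e false (nat_lit 2) (nat_lit 300) (nat_lit 2) (nat_lit 9) (.e true (nat_lit 2) (nat_lit 301) (nat_lit 2) (nat_lit 9) (.e false (nat_lit 1) (nat_lit 303) (nat_lit 2) (nat_lit 9) (.e false (nat_lit 3) (nat_lit 304) (nat_lit 2) (nat_lit 9) (.e true (nat_lit 1) (nat_lit 189) (nat_lit 6) (nat_lit 7) (.e true (nat_lit 3) (nat_lit 324) (nat_lit 1) (nat_lit 10) (.e false (nat_lit 1) (nat_lit 325) (nat_lit 1) (nat_lit 10) (.e false (nat_lit 3) (nat_lit 326) (nat_lit 1) (nat_lit 10) (.e true (nat_lit 3) (nat_lit 327) (nat_lit 1) (nat_lit 10) (.e false (nat_lit 2) (nat_lit 328) (nat_lit 1) (nat_lit 10) (.e false (nat_lit 3) (nat_lit 329) (nat_lit 1) (nat_lit 10) (.e true (nat_lit 2) (nat_lit 330) (nat_lit 1) (nat_lit 10) (.e false (nat_lit 1) (nat_lit 299) (nat_lit 2)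 (nat_lit 9) (.e true (nat_lit 2) (nat_lit 302) (nat_lit 2) (nat_lit 9) (.e false (nat_lit 2) (nat_lit 296) (nat_lit 2) (nat_lit 9) (.e true (nat_lit 1) (nat_lit 163) (nat_lit 7) (nat_lit 6) (.e true (nat_lit 2) (nat_lit 164) (nat_lit 7) (nat_lit 6) (.e false (nat_lit 2) (nat_lit 165) (nat_lit 7) (nat_lit 6) (.e true (nat_lit 1) (nat_lit 166) (nat_lit 7) (nat_lit 6) (.e false (nat_lit 1) (nat_lit 167) (nat_lit 7) (nat_lit 6) (.e false (nat_lit 3) (nat_lit 331) (nat_lit 1) (nat_lit 10) (.e true (nat_lit 1) (nat_lit 104) (nat_lit 15) (nat_lit 4) (.u (nat_lit 2) (.n (nat_lit 0) (nat_lit 2) (.p (nat_lit 1) (nat_lit 1) (.n (nat_lit 3) (nat_lit 6) (.p (nat_lit 4) (nat_lit 3) (.n (nat_lit 5) (nat_lit 1) (.p (nat_lit 6) (nat_lit 1) (.p (nat_lit 7) (nat_lit 1) (.p (nat_lit 8) (nat_lit 2) (.p (nat_lit 9) (nat_lit 1) (.p (nat_lit 11) (nat_lit 1) (.p (nat_lit 80) (nat_lit 2) (.n (nat_lit 83) (nat_lit 1) (.n (nat_lit 84) (nat_lit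 2) (.p (nat_lit 85) (nat_lit 2) (.n (nat_lit 86) (nat_lit 2) (.p (nat_lit 87) (nat_lit 1) (.p (nat_lit 88) (nat_lit 1) (.p (nat_lit 89) (nat_lit 1) (.n (nat_lit 90) (nat_lit 1) (.n (nat_lit 91) (nat_lit 1) (.p (nat_lit 92) (nat_lit 3) (.n (nat_lit 93) (nat_lit 1) (.p (nat_lit 94) (nat_lit 2) (.n (nat_lit 95) (nat_lit 3) (.p (nat_lit 96) (nat_lit 1) (.p (nat_lit 97) (nat_lit 1) (.p (nat_lit 98) (nat_lit 1) (.n (nat_lit 99) (nat_lit 1) (.p (nat_lit 100) (nat_lit 1) (.p (nat_lit 102) (nat_lit 1) (.n (nat_lit 103) (nat_lit 1) .z))))))))))))))))))))))))))))))) .nil)))))))))))))))))))))))))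

noncomputable def dC2d_c53 : Cm := .mk (nat_lit 1382) (nat_lit 53) (nat_lit 436) (nat_lit 15) (.c (nat_lit 45) (nat_lit 3) (nat_lit 39) (nat_lit 3) (nat_lit 15) (.c (nat_lit 48) (nat_lit 1) (nat_lit 30) (nat_lit 3) (nat_lit 24) (.c (nat_lit 74) (nat_lit 6) (nat_lit 20) (nat_lit 1) (nat_lit 27) (.c (nat_lit 91) (nat_lit 6) (nat_lit 18) (nat_lit 2) (nat_lit 33) (.c (nat_lit 101) (nat_lit 4) (nat_lit 14) (nat_lit 2) (nat_lit 45) (.c (nat_lit 105) (nat_lit 1) (nat_lit 10) (nat_lit 1) (nat_lit 53) (.c (nat_lit 158) (nat_lit 11) (nat_lit 7) (nat_lit 1) (nat_lit 54) (.c (nat_lit 185) (nat_lit 10) (nat_lit 6) (nat_lit 1) (nat_lit 65) (.c (nat_lit 200) (nat_lit 5) (nat_lit 4) (nat_lit 1) (nat_lit 75) (.c (nat_lit 289) (nat_lit 16) (nat_lit 2) (nat_lit 1) (nat_lit 80) (.c (nat_lit 324) (nat_lit 11) (nat_lit 1) (nat_lit 1) (nat_lit 96) .nil)))))))))))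

noncomputable def dC2d_i5 : IL := (.e true (nat_lit 2) (nat_lit 220) (nat_lit 2) (nat_lit 16) (.e true (nat_lit 1) (nat_lit 222) (nat_lit 2) (nat_lit 16) (.e true (nat_lit 2) (nat_lit 225) (nat_lit 2) (nat_lit 16) (.e false (nat_lit 1) (nat_lit 226) (nat_lit 2) (nat_lit 16) (.e true (nat_lit 3) (nat_lit 227) (nat_lit 2) (nat_lit 16) (.e true (nat_lit 2) (nat_lit 231) (nat_lit 2) (nat_lit 16) (.e false (nat_lit 3) (nat_lit 232) (nat_lit 2) (nat_lit 16) (.e false (nat_lit 1) (nat_lit 234) (nat_lit 2) (nat_lit 16) (.e true (nat_lit 1) (nat_lit 235) (nat_lit 2) (nat_lit 16) (.e false (nat_lit 1) (nat_lit 237) (nat_lit 2) (nat_lit 16) (.e false (nat_lit 1) (nat_lit 239) (nat_lit 2) (nat_lit 16) (.e false (nat_lit 1) (nat_lit 241) (nat_lit 2) (nat_lit 16) (.e false (nat_lit 3) (nat_lit 242) (nat_lit 2) (nat_lit 16) (.e false (nat_lit 3) (nat_lit 243) (nat_lit 2) (nat_lit 16) (.e false (nat_lit 3) (nat_lit 244) (nat_lit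 2) (nat_lit 16) (.e false (nat_lit 3) (nat_lit 245) (nat_lit 2) (nat_lit 16) (.e true (nat_lit 2) (nat_lit 247) (nat_lit 2) (nat_lit 16) (.e false (nat_lit 3) (nat_lit 248) (nat_lit 2) (nat_lit 16) (.e true (nat_lit 2) (nat_lit 249) (nat_lit 2) (nat_lit 16) (.e false (nat_lit 2) (nat_lit 250) (nat_lit 2) (nat_lit 16) (.e false (nat_lit 1) (nat_lit 251) (nat_lit 2) (nat_lit 16) (.e false (nat_lit 3) (nat_lit 205) (nat_lit 2) (nat_lit 16) (.e false (nat_lit 2) (nat_lit 221) (nat_lit 2) (nat_lit 16) (.e true (nat_lit 1) (nat_lit 224) (nat_lit 2) (nat_lit 16) (.u (nat_lit 2) (.p (nat_lit 0) (nat_lit 1) (.n (nat_lit 1) (nat_lit 6) (.p (nat_lit 2) (nat_lit 3) (.p (nat_lit 3) (nat_lit 1) (.p (nat_lit 4) (nat_lit 4) (.n (nat_lit 5) (nat_lit 3) (.n (nat_lit 6) (nat_lit 5) (.p (nat_lit 7) (nat_lit 2) (.n (nat_lit 8) (nat_lit 4) (.p (nat_lit 9) (nat_lit 3) (.n (nat_lit 10) (nat_lit 2) (.n (nat_lit 12) (nat_lit 1) (.n (nat_lit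 14) (nat_lit 4) (.n (nat_lit 17) (nat_lit 1) (.p (nat_lit 18) (nat_lit 3) (.n (nat_lit 19) (nat_lit 3) (.p (nat_lit 20) (nat_lit 1) (.p (nat_lit 21) (nat_lit 2) (.n (nat_lit 22) (nat_lit 3) (.n (nat_lit 23) (nat_lit 2) (.n (nat_lit 24) (nat_lit 1) (.n (nat_lit 25) (nat_lit 1) (.n (nat_lit 26) (nat_lit 4) (.p (nat_lit 27) (nat_lit 1) (.n (nat_lit 28) (nat_lit 1) (.n (nat_lit 29) (nat_lit 1) (.n (nat_lit 31) (nat_lit 2) (.n (nat_lit 32) (nat_lit 4) (.p (nat_lit 33) (nat_lit 1) (.n (nat_lit 34) (nat_lit 1) (.p (nat_lit 35) (nat_lit 2) (.n (nat_lit 36) (nat_lit 5) (.p (nat_lit 37) (nat_lit 2) (.n (nat_lit 38) (nat_lit 1) (.p (nat_lit 39) (nat_lit 1) (.n (nat_lit 40) (nat_lit 2) (.n (nat_lit 42) (nat_lit 1) (.n (nat_lit 44) (nat_lit 2) (.p (nat_lit 45) (nat_lit 3) (.n (nat_lit 46) (nat_lit 3) (.p (nat_lit 47) (nat_lit 1) (.p (nat_lit 48) (nat_lit 1) (.p (nat_lit 57) (nat_lit 1) (.p (nat_lit 303) (nat_lit 1) (.p (nat_lit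 308) (nat_lit 1) (.p (nat_lit 311) (nat_lit 1) (.p (nat_lit 322) (nat_lit 1) .z))))))))))))))))))))))))))))))))))))))))))))))) .nil)))))))))))))))))))))))))

noncomputable def dC2d_i6 : IL := (.s false (nat_lit 2) (nat_lit 103) (nat_lit 1) (nat_lit 1) (nat_lit 2) true (nat_lit 7) true (nat_lit 9) false (nat_lit 4) true (nat_lit 10) true (nat_lit 10) (.s false (nat_lit 2) (nat_lit 103) (nat_lit 1) (nat_lit 2) (nat_lit 1) true (nat_lit 8) true (nat_lit 10) false (nat_lit 4) true (nat_lit 10) true (nat_lit 9) (.s true (nat_lit 2) (nat_lit 103) (nat_lit 2) (nat_lit 1) (nat_lit 1) true (nat_lit 7) true (nat_lit 10) false (nat_lit 4) true (nat_lit 9) true (nat_lit 10) (.e false (nat_lit 2) (nat_lit 190) (nat_lit 6) (nat_lit 7) (.e true (nat_lit 2) (nat_lit 329) (nat_lit 1) (nat_lit 10) (.e true (nat_lit 1) (nat_lit 289) (nat_lit 2) (nat_lit 9) (.e true (nat_lit 2) (nat_lit 291) (nat_lit 2) (nat_lit 9) (.e false (nat_lit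 1) (nat_lit 292) (nat_lit 2) (nat_lit 9) (.e true (nat_lit 3) (nat_lit 293) (nat_lit 2) (nat_lit 9) (.e false (nat_lit 2) (nat_lit 294) (nat_lit 2) (nat_lit 9) (.e true (nat_lit 2) (nat_lit 295) (nat_lit 2) (nat_lit 9) (.e true (nat_lit 1) (nat_lit 296) (nat_lit 2) (nat_lit 9) (.e true (nat_lit 1) (nat_lit 298) (nat_lit 2) (nat_lit 9) (.e false (nat_lit 3) (nat_lit 304) (nat_lit 2) (nat_lit 9) (.e false (nat_lit 1) (nat_lit 325) (nat_lit 1) (nat_lit 10) (.e true (nat_lit 3) (nat_lit 300) (nat_lit 2) (nat_lit 9) (.e false (nat_lit 3) (nat_lit 301) (nat_lit 2) (nat_lit 9) (.e false (nat_lit 1) (nat_lit 92) (nat_lit 18) (nat_lit 3) (.e false (nat_lit 3) (nat_lit 303) (nat_lit 2) (nat_lit 9) (.e true (nat_lit 2) (nat_lit 163) (nat_lit 7) (nat_lit 6) (.e false (nat_lit 3) (nat_lit 164) (nat_lit 7) (nat_lit 6) (.e true (nat_lit 3) (nat_lit 165) (nat_lit 7) (nat_lit 6) (.e true (nat_lit 2) (nat_lit 166) (nat_lit 7) (nat_lit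 6) (.e false (nat_lit 2) (nat_lit 167) (nat_lit 7) (nat_lit 6) (.u (nat_lit 2) (.n (nat_lit 0) (nat_lit 1) (.p (nat_lit 1) (nat_lit 1) (.n (nat_lit 2) (nat_lit 1) (.n (nat_lit 3) (nat_lit 1) (.n (nat_lit 5) (nat_lit 2) (.n (nat_lit 6) (nat_lit 4) (.p (nat_lit 8) (nat_lit 3) (.n (nat_lit 9) (nat_lit 2) (.n (nat_lit 14) (nat_lit 1) (.n (nat_lit 60) (nat_lit 1) (.p (nat_lit 61) (nat_lit 1) (.n (nat_lit 80) (nat_lit 1) (.p (nat_lit 81) (nat_lit 1) (.n (nat_lit 84) (nat_lit 1) (.n (nat_lit 85) (nat_lit 1) (.p (nat_lit 86) (nat_lit 1) (.p (nat_lit 87) (nat_lit 2) (.p (nat_lit 89) (nat_lit 1) (.p (nat_lit 91) (nat_lit 2) (.n (nat_lit 92) (nat_lit 1) (.n (nat_lit 94) (nat_lit 2) (.n (nat_lit 96) (nat_lit 1) (.p (nat_lit 97) (nat_lit 2) (.n (nat_lit 98) (nat_lit 1) (.n (nat_lit 99) (nat_lit 1) (.n (nat_lit 100) (nat_lit 1) (.n (nat_lit 101) (nat_lit 2) (.p (nat_lit 102) (nat_lit 1) (.p (nat_lit 103) (nat_lit 2) (.n (nat_lit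 105) (nat_lit 1) (.n (nat_lit 106) (nat_lit 1) .z))))))))))))))))))))))))))))))) .nil)))))))))))))))))))))))))

noncomputable def dC2d_i7 : IL := (.e true (nat_lit 3) (nat_lit 219) (nat_lit 2) (nat_lit 16) (.e false (nat_lit 3) (nat_lit 221) (nat_lit 2) (nat_lit 16) (.e false (nat_lit 2) (nat_lit 225) (nat_lit 2) (nat_lit 16) (.e false (nat_lit 1) (nat_lit 228) (nat_lit 2) (nat_lit 16) (.e true (nat_lit 2) (nat_lit 229) (nat_lit 2) (nat_lit 16) (.e true (nat_lit 1) (nat_lit 230) (nat_lit 2) (nat_lit 16) (.e true (nat_lit 2) (nat_lit 245) (nat_lit 2) (nat_lit 16) (.e false (nat_lit 1) (nat_lit 246) (nat_lit 2) (nat_lit 16) (.e false (nat_lit 3) (nat_lit 247) (nat_lit 2) (nat_lit 16) (.e false (nat_lit 2) (nat_lit 248) (nat_lit 2) (nat_lit 16) (.e true (nat_lit 2) (nat_lit 249) (nat_lit 2) (nat_lit 16) (.e true (nat_lit 2) (nat_lit 251) (nat_lit 2) (nat_lit 16) (.e false (nat_lit 1) (nat_lit 209) (nat_lit 2) (nat_lit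 16) (.e false (nat_lit 3) (nat_lit 217) (nat_lit 2) (nat_lit 16) (.e true (nat_lit 3) (nat_lit 167) (nat_lit 5) (nat_lit 13) (.e true (nat_lit 3) (nat_lit 205) (nat_lit 2) (nat_lit 16) (.e true (nat_lit 2) (nat_lit 206) (nat_lit 2) (nat_lit 16) (.e false (nat_lit 2) (nat_lit 207) (nat_lit 2) (nat_lit 16) (.e true (nat_lit 2) (nat_lit 227) (nat_lit 2) (nat_lit 16) (.e false (nat_lit 3) (nat_lit 51) (nat_lit 20) (nat_lit 4) (.e false (nat_lit 3) (nat_lit 298) (nat_lit 0) (nat_lit 18) (.e true (nat_lit 3) (nat_lit 303) (nat_lit 0) (nat_lit 18) (.e true (nat_lit 3) (nat_lit 98) (nat_lit 10) (nat_lit 9) (.u (nat_lit 2) (.n (nat_lit 0) (nat_lit 5) (.n (nat_lit 2) (nat_lit 4) (.n (nat_lit 3) (nat_lit 1) (.p (nat_lit 4) (nat_lit 5) (.n (nat_lit 5) (nat_lit 6) (.p (nat_lit 6) (nat_lit 8) (.n (nat_lit 7) (nat_lit 3) (.p (nat_lit 8) (nat_lit 3) (.p (nat_lit 9) (nat_lit 2) (.n (nat_lit 14) (nat_lit 1) (.n (nat_lit 15) (nat_lit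 5) (.n (nat_lit 16) (nat_lit 3) (.n (nat_lit 17) (nat_lit 5) (.p (nat_lit 18) (nat_lit 2) (.n (nat_lit 19) (nat_lit 2) (.n (nat_lit 20) (nat_lit 9) (.n (nat_lit 21) (nat_lit 9) (.p (nat_lit 22) (nat_lit 9) (.p (nat_lit 23) (nat_lit 1) (.n (nat_lit 24) (nat_lit 5) (.n (nat_lit 25) (nat_lit 2) (.n (nat_lit 26) (nat_lit 4) (.n (nat_lit 27) (nat_lit 7) (.p (nat_lit 28) (nat_lit 10) (.n (nat_lit 29) (nat_lit 1) (.n (nat_lit 31) (nat_lit 3) (.n (nat_lit 32) (nat_lit 2) (.n (nat_lit 33) (nat_lit 7) (.n (nat_lit 35) (nat_lit 8) (.p (nat_lit 36) (nat_lit 4) (.p (nat_lit 38) (nat_lit 7) (.p (nat_lit 39) (nat_lit 5) (.n (nat_lit 40) (nat_lit 2) (.n (nat_lit 42) (nat_lit 1) (.n (nat_lit 44) (nat_lit 2) (.n (nat_lit 45) (nat_lit 2) (.n (nat_lit 46) (nat_lit 1) (.p (nat_lit 47) (nat_lit 3) (.p (nat_lit 48) (nat_lit 4) (.n (nat_lit 113) (nat_lit 1) (.n (nat_lit 219) (nat_lit 1) (.p (nat_lit 221) (nat_lit 1) (.n (nat_lit 224)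 (nat_lit 1) (.n (nat_lit 225) (nat_lit 1) (.n (nat_lit 227) (nat_lit 1) (.p (nat_lit 229) (nat_lit 1) (.p (nat_lit 270) (nat_lit 1) (.n (nat_lit 303) (nat_lit 1) (.p (nat_lit 304) (nat_lit 1) (.p (nat_lit 305) (nat_lit 2) (.n (nat_lit 306) (nat_lit 1) (.p (nat_lit 309) (nat_lit 2) (.n (nat_lit 311) (nat_lit 2) (.n (nat_lit 312) (nat_lit 2) (.n (nat_lit 313) (nat_lit 2) (.n (nat_lit 314) (nat_lit 3) (.n (nat_lit 322) (nat_lit 2) (.n (nat_lit 324) (nat_lit 1) (.p (nat_lit 325) (nat_lit 2) (.n (nat_lit 326) (nat_lit 1) .z)))))))))))))))))))))))))))))))))))))))))))))))))))))))))))) (.u (nat_lit 2) (.n (nat_lit 327) (nat_lit 2) (.p (nat_lit 342) (nat_lit 2) (.p (nat_lit 343) (nat_lit 2) (.p (nat_lit 344) (nat_lit 3) (.n (nat_lit 345) (nat_lit 2) (.p (nat_lit 346) (nat_lit 2) (.p (nat_lit 348) (nat_lit 2) .z))))))) .nil)))))))))))))))))))))))))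

noncomputable def dC2d_i8 : IL := (.s true (nat_lit 3) (nat_lit 20) (nat_lit 0) (nat_lit 10) (nat_lit 2) true (nat_lit 13) true (nat_lit 16) true (nat_lit 4) true (nat_lit 18) true (nat_lit 9) (.e false (nat_lit 3) (nat_lit 49) (nat_lit 20) (nat_lit 4) (.e true (nat_lit 3) (nat_lit 50) (nat_lit 20) (nat_lit 4) (.e false (nat_lit 1) (nat_lit 52) (nat_lit 20) (nat_lit 4) (.e false (nat_lit 3) (nat_lit 55) (nat_lit 20) (nat_lit 4) (.e true (nat_lit 3) (nat_lit 57) (nat_lit 20) (nat_lit 4) (.e false (nat_lit 3) (nat_lit 59) (nat_lit 20) (nat_lit 4) (.e false (nat_lit 3) (nat_lit 107) (nat_lit 7) (nat_lit 11) (.e false (nat_lit 3) (nat_lit 108) (nat_lit 7) (nat_lit 11) (.e false (nat_lit 1) (nat_lit 112) (nat_lit 7) (nat_lit 11) (.e true (nat_lit 1) (nat_lit 114) (nat_lit 7) (nat_lit 11) (.e false (nat_lit 1) (nat_lit 117) (nat_lit 7) (nat_lit 11) (.e false (nat_lit 1) (nat_lit 118) (nat_lit 7) (nat_lit 11) (.e true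 (nat_lit 2) (nat_lit 120) (nat_lit 7) (nat_lit 11) (.e false (nat_lit 2) (nat_lit 122) (nat_lit 7) (nat_lit 11) (.e true (nat_lit 3) (nat_lit 128) (nat_lit 7) (nat_lit 11) (.e false (nat_lit 3) (nat_lit 130) (nat_lit 7) (nat_lit 11) (.e false (nat_lit 3) (nat_lit 131) (nat_lit 7) (nat_lit 11) (.e false (nat_lit 1) (nat_lit 208) (nat_lit 2) (nat_lit 16) (.e false (nat_lit 3) (nat_lit 211) (nat_lit 2) (nat_lit 16) (.e true (nat_lit 2) (nat_lit 212) (nat_lit 2) (nat_lit 16) (.e true (nat_lit 3) (nat_lit 213) (nat_lit 2) (nat_lit 16) (.e false (nat_lit 2) (nat_lit 214) (nat_lit 2) (nat_lit 16) (.e true (nat_lit 1) (nat_lit 215) (nat_lit 2) (nat_lit 16) (.e false (nat_lit 2) (nat_lit 216) (nat_lit 2) (nat_lit 16) dC2d_i7)))))))))))))))))))))))))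

noncomputable def dC2d_i9 : IL := (.e true (nat_lit 1) (nat_lit 262) (nat_lit 1) (nat_lit 17) (.e false (nat_lit 2) (nat_lit 263) (nat_lit 1) (nat_lit 17) (.e false (nat_lit 3) (nat_lit 264) (nat_lit 1) (nat_lit 17) (.e true (nat_lit 1) (nat_lit 265) (nat_lit 1) (nat_lit 17) (.e false (nat_lit 1) (nat_lit 266) (nat_lit 1) (nat_lit 17) (.e true (nat_lit 1) (nat_lit 267) (nat_lit 1) (nat_lit 17) (.e true (nat_lit 2) (nat_lit 269) (nat_lit 1) (nat_lit 17) (.e true (nat_lit 3) (nat_lit 270) (nat_lit 1) (nat_lit 17) (.e true (nat_lit 1) (nat_lit 271) (nat_lit 1) (nat_lit 17) (.e true (nat_lit 3) (nat_lit 272) (nat_lit 1) (nat_lit 17) (.e true (nat_lit 1) (nat_lit 273) (nat_lit 1) (nat_lit 17) (.e true (nat_lit 3) (nat_lit 274) (nat_lit 1) (nat_lit 17) (.e true (nat_lit 2) (nat_lit 275) (nat_lit 1) (nat_lit 17) (.e false (nat_lit 2) (nat_lit 276) (nat_lit 1) (nat_lit 17) (.e true (nat_lit 1) (nat_lit 277) (nat_lit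 1) (nat_lit 17) (.e false (nat_lit 1) (nat_lit 279) (nat_lit 1) (nat_lit 17) (.e false (nat_lit 1) (nat_lit 283) (nat_lit 1) (nat_lit 17) (.e true (nat_lit 1) (nat_lit 284) (nat_lit 1) (nat_lit 17) (.e true (nat_lit 2) (nat_lit 285) (nat_lit 1) (nat_lit 17) (.e false (nat_lit 1) (nat_lit 287) (nat_lit 1) (nat_lit 17) (.e true (nat_lit 1) (nat_lit 226) (nat_lit 2) (nat_lit 16) (.e true (nat_lit 1) (nat_lit 236) (nat_lit 2) (nat_lit 16) (.e true (nat_lit 1) (nat_lit 300) (nat_lit 0) (nat_lit 18) (.u (nat_lit 2) (.n (nat_lit 0) (nat_lit 3) (.n (nat_lit 1) (nat_lit 4) (.p (nat_lit 2) (nat_lit 5) (.n (nat_lit 3) (nat_lit 2) (.p (nat_lit 4) (nat_lit 1) (.n (nat_lit 5) (nat_lit 3) (.n (nat_lit 7) (nat_lit 2) (.n (nat_lit 8) (nat_lit 1) (.p (nat_lit 9) (nat_lit 3) (.n (nat_lit 11) (nat_lit 2) (.n (nat_lit 12) (nat_lit 3) (.p (nat_lit 14) (nat_lit 5) (.n (nat_lit 15) (nat_lit 4) (.n (nat_lit 16) (nat_lit 2) (.n (nat_lit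 17) (nat_lit 3) (.p (nat_lit 18) (nat_lit 1) (.p (nat_lit 19) (nat_lit 3) (.p (nat_lit 20) (nat_lit 1) (.n (nat_lit 21) (nat_lit 4) (.p (nat_lit 22) (nat_lit 5) (.n (nat_lit 23) (nat_lit 1) (.n (nat_lit 24) (nat_lit 1) (.n (nat_lit 25) (nat_lit 4) (.n (nat_lit 26) (nat_lit 1) (.p (nat_lit 27) (nat_lit 4) (.n (nat_lit 28) (nat_lit 2) (.p (nat_lit 29) (nat_lit 3) (.p (nat_lit 31) (nat_lit 1) (.n (nat_lit 32) (nat_lit 3) (.p (nat_lit 33) (nat_lit 4) (.n (nat_lit 34) (nat_lit 5) (.n (nat_lit 35) (nat_lit 3) (.p (nat_lit 36) (nat_lit 3) (.n (nat_lit 37) (nat_lit 1) (.n (nat_lit 38) (nat_lit 4) (.n (nat_lit 39) (nat_lit 1) (.p (nat_lit 40) (nat_lit 2) (.n (nat_lit 42) (nat_lit 1) (.p (nat_lit 44) (nat_lit 2) (.n (nat_lit 45) (nat_lit 1) (.p (nat_lit 46) (nat_lit 3) (.n (nat_lit 47) (nat_lit 8) (.p (nat_lit 48) (nat_lit 1) (.p (nat_lit 49) (nat_lit 1) (.p (nat_lit 50) (nat_lit 1) (.n (nat_lit 51) (nat_lit 1) (.n (nat_lit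 52) (nat_lit 1) (.n (nat_lit 55) (nat_lit 1) (.n (nat_lit 302) (nat_lit 3) (.p (nat_lit 303) (nat_lit 2) (.n (nat_lit 304) (nat_lit 1) (.n (nat_lit 305) (nat_lit 1) (.n (nat_lit 306) (nat_lit 2) (.p (nat_lit 308) (nat_lit 2) (.n (nat_lit 309) (nat_lit 1) (.n (nat_lit 310) (nat_lit 1) (.n (nat_lit 312) (nat_lit 3) (.p (nat_lit 313) (nat_lit 1) (.n (nat_lit 315) (nat_lit 2) (.p (nat_lit 316) (nat_lit 1) .z)))))))))))))))))))))))))))))))))))))))))))))))))))))))))))) (.u (nat_lit 2) (.n (nat_lit 317) (nat_lit 1) (.n (nat_lit 319) (nat_lit 3) (.p (nat_lit 322) (nat_lit 1) (.p (nat_lit 323) (nat_lit 3) (.p (nat_lit 324) (nat_lit 5) (.p (nat_lit 325) (nat_lit 5) (.p (nat_lit 326) (nat_lit 1) (.p (nat_lit 327) (nat_lit 2) (.p (nat_lit 328) (nat_lit 3) (.n (nat_lit 329) (nat_lit 1) (.n (nat_lit 330) (nat_lit 1) (.p (nat_lit 336) (nat_lit 1) (.n (nat_lit 339) (nat_lit 1) (.n (nat_lit 341) (nat_lit 1) (.p (nat_lit 342) (nat_lit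 1) (.n (nat_lit 343) (nat_lit 3) (.n (nat_lit 344) (nat_lit 4) (.p (nat_lit 345) (nat_lit 2) (.n (nat_lit 346) (nat_lit 2) (.n (nat_lit 347) (nat_lit 1) (.p (nat_lit 348) (nat_lit 2) .z))))))))))))))))))))) .nil)))))))))))))))))))))))))

noncomputable def dC2d_i10 : IL := (.e false (nat_lit 1) (nat_lit 243) (nat_lit 2) (nat_lit 16) (.e true (nat_lit 1) (nat_lit 244) (nat_lit 2) (nat_lit 16) (.e true (nat_lit 3) (nat_lit 245) (nat_lit 2) (nat_lit 16) (.e false (nat_lit 2) (nat_lit 246) (nat_lit 2) (nat_lit 16) (.e true (nat_lit 3) (nat_lit 248) (nat_lit 2) (nat_lit 16) (.e false (nat_lit 3) (nat_lit 249) (nat_lit 2) (nat_lit 16) (.e false (nat_lit 3) (nat_lit 205) (nat_lit 2) (nat_lit 16) (.e true (nat_lit 2) (nat_lit 206) (nat_lit 2) (nat_lit 16) (.e false (nat_lit 1) (nat_lit 207) (nat_lit 2) (nat_lit 16) (.e false (nat_lit 3) (nat_lit 211) (nat_lit 2) (nat_lit 16) (.e true (nat_lit 3) (nat_lit 218) (nat_lit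 2) (nat_lit 16) (.e true (nat_lit 3) (nat_lit 220) (nat_lit 2) (nat_lit 16) (.e false (nat_lit 1) (nat_lit 222) (nat_lit 2) (nat_lit 16) (.e false (nat_lit 1) (nat_lit 223) (nat_lit 2) (nat_lit 16) (.e true (nat_lit 1) (nat_lit 251) (nat_lit 2) (nat_lit 16) (.e false (nat_lit 1) (nat_lit 140) (nat_lit 6) (nat_lit 12) (.e true (nat_lit 3) (nat_lit 252) (nat_lit 1) (nat_lit 17) (.e true (nat_lit 3) (nat_lit 253) (nat_lit 1) (nat_lit 17) (.e true (nat_lit 2) (nat_lit 254) (nat_lit 1) (nat_lit 17) (.e false (nat_lit 1) (nat_lit 255) (nat_lit 1) (nat_lit 17) (.e false (nat_lit 1) (nat_lit 256) (nat_lit 1) (nat_lit 17) (.e false (nat_lit 2) (nat_lit 257) (nat_lit 1) (nat_lit 17) (.e false (nat_lit 3) (nat_lit 259) (nat_lit 1) (nat_lit 17) (.e false (nat_lit 3) (nat_lit 260) (nat_lit 1) (nat_lit 17) (.e false (nat_lit 2) (nat_lit 261) (nat_lit 1) (nat_lit 17) dC2d_i9)))))))))))))))))))))))))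

noncomputable def dC2d_i11 : IL := (.e true (nat_lit 2) (nat_lit 123) (nat_lit 7) (nat_lit 11) (.e true (nat_lit 1) (nat_lit 124) (nat_lit 7) (nat_lit 11) (.e false (nat_lit 1) (nat_lit 126) (nat_lit 7) (nat_lit 11) (.e false (nat_lit 1) (nat_lit 127) (nat_lit 7) (nat_lit 11) (.e true (nat_lit 2) (nat_lit 130) (nat_lit 7) (nat_lit 11) (.e true (nat_lit 3) (nat_lit 131) (nat_lit 7) (nat_lit 11) (.e true (nat_lit 3) (nat_lit 208) (nat_lit 2) (nat_lit 16) (.e false (nat_lit 3) (nat_lit 209) (nat_lit 2) (nat_lit 16) (.e false (nat_lit 1) (nat_lit 210) (nat_lit 2) (nat_lit 16) (.e false (nat_lit 2) (nat_lit 212) (nat_lit 2) (nat_lit 16) (.e true (nat_lit 1) (nat_lit 213) (nat_lit 2) (nat_lit 16) (.e false (nat_lit 2) (nat_lit 214) (nat_lit 2) (nat_lit 16) (.e false (nat_lit 3) (nat_lit 217) (nat_lit 2) (nat_lit 16) (.e true (nat_lit 2) (nat_lit 219) (nat_lit 2) (nat_lit 16) (.e true (nat_lit 2) (nat_lit 221) (nat_lit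 2) (nat_lit 16) (.e true (nat_lit 1) (nat_lit 225) (nat_lit 2) (nat_lit 16) (.e true (nat_lit 1) (nat_lit 227) (nat_lit 2) (nat_lit 16) (.e true (nat_lit 2) (nat_lit 228) (nat_lit 2) (nat_lit 16) (.e false (nat_lit 2) (nat_lit 229) (nat_lit 2) (nat_lit 16) (.e true (nat_lit 3) (nat_lit 230) (nat_lit 2) (nat_lit 16) (.e true (nat_lit 2) (nat_lit 231) (nat_lit 2) (nat_lit 16) (.e false (nat_lit 1) (nat_lit 232) (nat_lit 2) (nat_lit 16) (.e false (nat_lit 2) (nat_lit 234) (nat_lit 2) (nat_lit 16) (.e true (nat_lit 1) (nat_lit 239) (nat_lit 2) (nat_lit 16) (.e true (nat_lit 2) (nat_lit 242) (nat_lit 2) (nat_lit 16) dC2d_i10)))))))))))))))))))))))))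

noncomputable def dC2d_i12 : IL := (.e true (nat_lit 1) (nat_lit 117) (nat_lit 2) (nat_lit 12) (.e false (nat_lit 3) (nat_lit 119) (nat_lit 2) (nat_lit 12) (.e false (nat_lit 3) (nat_lit 123) (nat_lit 2) (nat_lit 12) (.e true (nat_lit 2) (nat_lit 126) (nat_lit 2) (nat_lit 12) (.e true (nat_lit 3) (nat_lit 127) (nat_lit 2) (nat_lit 12) (.e false (nat_lit 1) (nat_lit 129) (nat_lit 2) (nat_lit 12) (.e false (nat_lit 2) (nat_lit 107) (nat_lit 2) (nat_lit 12) (.e false (nat_lit 2) (nat_lit 108) (nat_lit 2) (nat_lit 12) (.e true (nat_lit 1) (nat_lit 125) (nat_lit 2) (nat_lit 12) (.e false (nat_lit 1) (nat_lit 41) (nat_lit 11) (nat_lit 4) (.e false (nat_lit 3) (nat_lit 133) (nat_lit 1) (nat_lit 13) (.e true (nat_lit 1) (nat_lit 134) (nat_lit 1) (nat_lit 13) (.e false (nat_lit 3) (nat_lit 135) (nat_lit 1) (nat_lit 13) (.e true (nat_lit 3) (nat_lit 138) (nat_lit 1) (nat_lit 13) (.e false (nat_lit 3) (nat_lit 139) (nat_lit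 1) (nat_lit 13) (.e true (nat_lit 3) (nat_lit 140) (nat_lit 1) (nat_lit 13) (.e true (nat_lit 2) (nat_lit 141) (nat_lit 1) (nat_lit 13) (.e true (nat_lit 2) (nat_lit 143) (nat_lit 1) (nat_lit 13) (.e false (nat_lit 3) (nat_lit 144) (nat_lit 1) (nat_lit 13) (.e false (nat_lit 1) (nat_lit 145) (nat_lit 1) (nat_lit 13) (.e true (nat_lit 2) (nat_lit 147) (nat_lit 1) (nat_lit 13) (.e false (nat_lit 1) (nat_lit 150) (nat_lit 1) (nat_lit 13) (.e false (nat_lit 2) (nat_lit 155) (nat_lit 1) (nat_lit 13) (.e true (nat_lit 1) (nat_lit 156) (nat_lit 1) (nat_lit 13) (.u (nat_lit 2) (.p (nat_lit 0) (nat_lit 2) (.n (nat_lit 2) (nat_lit 1) (.n (nat_lit 3) (nat_lit 1) (.p (nat_lit 4) (nat_lit 1) (.n (nat_lit 5) (nat_lit 1) (.n (nat_lit 8) (nat_lit 1) (.p (nat_lit 10) (nat_lit 2) (.p (nat_lit 11) (nat_lit 3) (.n (nat_lit 12) (nat_lit 2) (.p (nat_lit 13) (nat_lit 2) (.p (nat_lit 14) (nat_lit 1) (.p (nat_lit 15) (nat_lit 2) (.n (nat_lit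 22) (nat_lit 1) (.n (nat_lit 25) (nat_lit 1) (.p (nat_lit 26) (nat_lit 1) (.p (nat_lit 27) (nat_lit 1) (.p (nat_lit 29) (nat_lit 2) (.n (nat_lit 30) (nat_lit 1) (.p (nat_lit 37) (nat_lit 1) (.n (nat_lit 38) (nat_lit 1) (.p (nat_lit 39) (nat_lit 1) (.n (nat_lit 41) (nat_lit 1) (.p (nat_lit 42) (nat_lit 1) (.n (nat_lit 43) (nat_lit 1) (.p (nat_lit 44) (nat_lit 1) (.n (nat_lit 45) (nat_lit 2) (.p (nat_lit 46) (nat_lit 2) (.n (nat_lit 146) (nat_lit 1) (.n (nat_lit 147) (nat_lit 1) (.n (nat_lit 148) (nat_lit 1) (.p (nat_lit 149) (nat_lit 2) (.p (nat_lit 150) (nat_lit 2) (.n (nat_lit 152) (nat_lit 1) (.p (nat_lit 153) (nat_lit 1) (.p (nat_lit 154) (nat_lit 1) (.n (nat_lit 155) (nat_lit 1) (.n (nat_lit 156) (nat_lit 1) (.p (nat_lit 158) (nat_lit 1) (.n (nat_lit 160) (nat_lit 1) (.p (nat_lit 162) (nat_lit 1) (.p (nat_lit 163) (nat_lit 2) (.n (nat_lit 166) (nat_lit 3) (.n (nat_lit 167) (nat_lit 3) (.p (nat_lit 170) (nat_lit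 1) (.n (nat_lit 171) (nat_lit 2) .z))))))))))))))))))))))))))))))))))))))))))))) .nil)))))))))))))))))))))))))

noncomputable def dC2d_i13 : IL := (.e true (nat_lit 3) (nat_lit 262) (nat_lit 1) (nat_lit 17) (.e false (nat_lit 3) (nat_lit 264) (nat_lit 1) (nat_lit 17) (.e false (nat_lit 2) (nat_lit 269) (nat_lit 1) (nat_lit 17) (.e false (nat_lit 3) (nat_lit 270) (nat_lit 1) (nat_lit 17) (.e true (nat_lit 3) (nat_lit 272) (nat_lit 1) (nat_lit 17) (.e true (nat_lit 1) (nat_lit 274) (nat_lit 1) (nat_lit 17) (.e false (nat_lit 1) (nat_lit 275) (nat_lit 1) (nat_lit 17) (.e true (nat_lit 3) (nat_lit 286) (nat_lit 1) (nat_lit 17) (.e true (nat_lit 2) (nat_lit 271) (nat_lit 1) (nat_lit 17) (.e false (nat_lit 2) (nat_lit 273) (nat_lit 1) (nat_lit 17) (.e false (nat_lit 2) (nat_lit 276) (nat_lit 1) (nat_lit 17) (.e false (nat_lit 2) (nat_lit 277) (nat_lit 1) (nat_lit 17) (.e true (nat_lit 2) (nat_lit 257) (nat_lit 1) (nat_lit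 17) (.e false (nat_lit 3) (nat_lit 255) (nat_lit 1) (nat_lit 17) (.e true (nat_lit 2) (nat_lit 265) (nat_lit 1) (nat_lit 17) (.e true (nat_lit 3) (nat_lit 254) (nat_lit 1) (nat_lit 17) (.e false (nat_lit 2) (nat_lit 263) (nat_lit 1) (nat_lit 17) (.e false (nat_lit 3) (nat_lit 47) (nat_lit 27) (nat_lit 2) (.e true (nat_lit 3) (nat_lit 163) (nat_lit 5) (nat_lit 13) (.e false (nat_lit 1) (nat_lit 164) (nat_lit 5) (nat_lit 13) (.e true (nat_lit 3) (nat_lit 166) (nat_lit 5) (nat_lit 13) (.e false (nat_lit 3) (nat_lit 167) (nat_lit 5) (nat_lit 13) (.e false (nat_lit 1) (nat_lit 267) (nat_lit 1) (nat_lit 17) (.u (nat_lit 2) (.p (nat_lit 0) (nat_lit 3) (.n (nat_lit 1) (nat_lit 5) (.p (nat_lit 2) (nat_lit 1) (.n (nat_lit 3) (nat_lit 1) (.n (nat_lit 5) (nat_lit 2) (.n (nat_lit 6) (nat_lit 3) (.p (nat_lit 8) (nat_lit 3) (.n (nat_lit 9) (nat_lit 3) (.n (nat_lit 11) (nat_lit 3) (.p (nat_lit 12) (nat_lit 2) (.n (nat_lit 14)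 (nat_lit 1) (.p (nat_lit 15) (nat_lit 2) (.n (nat_lit 16) (nat_lit 5) (.n (nat_lit 17) (nat_lit 1) (.p (nat_lit 20) (nat_lit 4) (.p (nat_lit 21) (nat_lit 1) (.n (nat_lit 24) (nat_lit 1) (.p (nat_lit 25) (nat_lit 2) (.p (nat_lit 26) (nat_lit 8) (.n (nat_lit 27) (nat_lit 3) (.n (nat_lit 28) (nat_lit 6) (.p (nat_lit 29) (nat_lit 3) (.n (nat_lit 31) (nat_lit 1) (.p (nat_lit 32) (nat_lit 3) (.n (nat_lit 33) (nat_lit 1) (.n (nat_lit 34) (nat_lit 1) (.p (nat_lit 35) (nat_lit 1) (.n (nat_lit 36) (nat_lit 1) (.p (nat_lit 37) (nat_lit 2) (.p (nat_lit 38) (nat_lit 3) (.n (nat_lit 41) (nat_lit 1) (.n (nat_lit 44) (nat_lit 1) (.p (nat_lit 45) (nat_lit 2) (.p (nat_lit 46) (nat_lit 4) (.n (nat_lit 47) (nat_lit 1) (.n (nat_lit 48) (nat_lit 2) (.n (nat_lit 50) (nat_lit 1) (.n (nat_lit 52) (nat_lit 1) (.p (nat_lit 57) (nat_lit 1) (.p (nat_lit 189) (nat_lit 1) (.p (nat_lit 190) (nat_lit 1) (.p (nat_lit 192) (nat_lit 1) (.n (nat_lit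 194) (nat_lit 1) (.n (nat_lit 271) (nat_lit 1) (.p (nat_lit 272) (nat_lit 1) (.n (nat_lit 349) (nat_lit 12) (.p (nat_lit 350) (nat_lit 6) (.p (nat_lit 351) (nat_lit 12) (.p (nat_lit 353) (nat_lit 3) (.n (nat_lit 354) (nat_lit 10) (.p (nat_lit 355) (nat_lit 3) (.p (nat_lit 356) (nat_lit 3) (.n (nat_lit 357) (nat_lit 9) (.n (nat_lit 358) (nat_lit 8) (.n (nat_lit 359) (nat_lit 6) (.n (nat_lit 360) (nat_lit 5) (.p (nat_lit 362) (nat_lit 8) (.p (nat_lit 364) (nat_lit 5) (.p (nat_lit 366) (nat_lit 4) (.p (nat_lit 367) (nat_lit 6) .z)))))))))))))))))))))))))))))))))))))))))))))))))))))))))))) (.u (nat_lit 2) (.n (nat_lit 368) (nat_lit 4) (.n (nat_lit 369) (nat_lit 9) (.n (nat_lit 370) (nat_lit 2) (.p (nat_lit 371) (nat_lit 1) (.n (nat_lit 372) (nat_lit 1) (.p (nat_lit 373) (nat_lit 7) (.p (nat_lit 374) (nat_lit 4) (.n (nat_lit 376) (nat_lit 9) (.n (nat_lit 379) (nat_lit 3) (.p (nat_lit 380) (nat_lit 6) (.n (nat_lit 382)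 (nat_lit 6) (.p (nat_lit 383) (nat_lit 6) (.n (nat_lit 384) (nat_lit 3) .z))))))))))))) .nil)))))))))))))))))))))))))

noncomputable def dC2d_i14 : IL := (.s false (nat_lit 1) (nat_lit 96) (nat_lit 2) (nat_lit 2) (nat_lit 1) true (nat_lit 7) true (nat_lit 10) false (nat_lit 3) true (nat_lit 9) true (nat_lit 9) (.s false (nat_lit 2) (nat_lit 102) (nat_lit 1) (nat_lit 2) (nat_lit 1) true (nat_lit 8) true (nat_lit 10) false (nat_lit 4) true (nat_lit 10) true (nat_lit 9) (.s false (nat_lit 2) (nat_lit 103) (nat_lit 1) (nat_lit 2) (nat_lit 1) true (nat_lit 8) true (nat_lit 10) false (nat_lit 4) true (nat_lit 10) true (nat_lit 9) (.s true (nat_lit 2) (nat_lit 102) (nat_lit 2) (nat_lit 1) (nat_lit 1) true (nat_lit 7) true (nat_lit 10) false (nat_lit 4) true (nat_lit 9) true (nat_lit 10) (.s true (nat_lit 2) (nat_lit 103) (nat_lit 2) (nat_lit 1) (nat_lit 1) true (nat_lit 7) true (nat_lit 10) false (nat_lit 4) true (nat_lit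 9) true (nat_lit 10) (.s false (nat_lit 3) (nat_lit 105) (nat_lit 1) (nat_lit 1) (nat_lit 1) true (nat_lit 8) true (nat_lit 10) false (nat_lit 5) true (nat_lit 10) true (nat_lit 10) (.e false (nat_lit 3) (nat_lit 190) (nat_lit 6) (nat_lit 7) (.e true (nat_lit 2) (nat_lit 163) (nat_lit 7) (nat_lit 6) (.e false (nat_lit 1) (nat_lit 303) (nat_lit 2) (nat_lit 9) (.e true (nat_lit 3) (nat_lit 290) (nat_lit 2) (nat_lit 9) (.e true (nat_lit 3) (nat_lit 292) (nat_lit 2) (nat_lit 9) (.e false (nat_lit 3) (nat_lit 293) (nat_lit 2) (nat_lit 9) (.e false (nat_lit 1) (nat_lit 295) (nat_lit 2) (nat_lit 9) (.e true (nat_lit 2) (nat_lit 296) (nat_lit 2) (nat_lit 9) (.e true (nat_lit 3) (nat_lit 298) (nat_lit 2) (nat_lit 9) (.e false (nat_lit 3) (nat_lit 294) (nat_lit 2) (nat_lit 9) (.e false (nat_lit 3) (nat_lit 167) (nat_lit 7) (nat_lit 6) (.e true (nat_lit 1) (nat_lit 297) (nat_lit 2) (nat_lit 9) (.e false (nat_lit 3) (nat_lit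 301) (nat_lit 2) (nat_lit 9) (.e false (nat_lit 1) (nat_lit 79) (nat_lit 20) (nat_lit 2) (.e true (nat_lit 2) (nat_lit 325) (nat_lit 1) (nat_lit 10) (.e false (nat_lit 1) (nat_lit 327) (nat_lit 1) (nat_lit 10) (.e false (nat_lit 3) (nat_lit 330) (nat_lit 1) (nat_lit 10) (.e true (nat_lit 1) (nat_lit 324) (nat_lit 1) (nat_lit 10) (.u (nat_lit 2) (.p (nat_lit 1) (nat_lit 1) (.p (nat_lit 4) (nat_lit 2) (.p (nat_lit 5) (nat_lit 1) (.n (nat_lit 6) (nat_lit 2) (.n (nat_lit 7) (nat_lit 1) (.p (nat_lit 8) (nat_lit 1) (.p (nat_lit 11) (nat_lit 1) (.p (nat_lit 12) (nat_lit 1) (.p (nat_lit 13) (nat_lit 1) (.n (nat_lit 14) (nat_lit 1) (.n (nat_lit 17) (nat_lit 1) (.p (nat_lit 24) (nat_lit 1) (.n (nat_lit 25) (nat_lit 1) (.n (nat_lit 27) (nat_lit 1) (.p (nat_lit 30) (nat_lit 1) (.n (nat_lit 32) (nat_lit 1) (.n (nat_lit 34) (nat_lit 1) (.p (nat_lit 35) (nat_lit 1) (.n (nat_lit 46) (nat_lit 1) (.p (nat_lit 47) (nat_lit 1) (.n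 (nat_lit 48) (nat_lit 1) (.p (nat_lit 54) (nat_lit 1) (.n (nat_lit 55) (nat_lit 1) (.p (nat_lit 57) (nat_lit 1) (.p (nat_lit 59) (nat_lit 1) (.p (nat_lit 62) (nat_lit 1) (.p (nat_lit 65) (nat_lit 1) (.p (nat_lit 66) (nat_lit 2) (.n (nat_lit 67) (nat_lit 1) (.p (nat_lit 68) (nat_lit 3) (.n (nat_lit 69) (nat_lit 1) (.n (nat_lit 70) (nat_lit 2) (.n (nat_lit 72) (nat_lit 1) (.n (nat_lit 74) (nat_lit 1) (.p (nat_lit 76) (nat_lit 1) (.p (nat_lit 80) (nat_lit 4) (.n (nat_lit 81) (nat_lit 3) (.p (nat_lit 82) (nat_lit 1) (.p (nat_lit 83) (nat_lit 15) (.n (nat_lit 84) (nat_lit 6) (.n (nat_lit 85) (nat_lit 3) (.n (nat_lit 86) (nat_lit 7) (.n (nat_lit 89) (nat_lit 4) (.p (nat_lit 91) (nat_lit 2) (.n (nat_lit 92) (nat_lit 1) (.n (nat_lit 93) (nat_lit 1) (.p (nat_lit 94) (nat_lit 15) (.n (nat_lit 95) (nat_lit 8) (.p (nat_lit 96) (nat_lit 1) (.n (nat_lit 97) (nat_lit 2) (.n (nat_lit 98) (nat_lit 3) (.p (nat_lit 99) (nat_lit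 1) (.n (nat_lit 100) (nat_lit 3) (.n (nat_lit 102) (nat_lit 3) (.p (nat_lit 103) (nat_lit 7) (.n (nat_lit 105) (nat_lit 1) .z)))))))))))))))))))))))))))))))))))))))))))))))))))))))) .nil)))))))))))))))))))))))))

noncomputable def dC2d_i15 : IL := (.s true (nat_lit 3) (nat_lit 20) (nat_lit 6) (nat_lit 2) (nat_lit 4) true (nat_lit 1) true (nat_lit 8) true (nat_lit 2) true (nat_lit 7) true (nat_lit 9) (.s true (nat_lit 2) (nat_lit 20) (nat_lit 6) (nat_lit 4) (nat_lit 2) true (nat_lit 3) true (nat_lit 9) true (nat_lit 2) true (nat_lit 7) true (nat_lit 8) (.s true (nat_lit 1) (nat_lit 20) (nat_lit 10) (nat_lit 2) (nat_lit 2) true (nat_lit 1) true (nat_lit 9) true (nat_lit 2) true (nat_lit 5) true (nat_lit 9) (.s true (nat_lit 3) (nat_lit 20) (nat_lit 14) (nat_lit 1) (nat_lit 2) true (nat_lit 0) true (nat_lit 9) true (nat_lit 2) true (nat_lit 4) true (nat_lit 10) (.s false (nat_lit 1) (nat_lit 20) (nat_lit 14) (nat_lit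 2) (nat_lit 1) true (nat_lit 1) true (nat_lit 10) true (nat_lit 2) true (nat_lit 4) true (nat_lit 9) (.s false (nat_lit 2) (nat_lit 30) (nat_lit 2) (nat_lit 2) (nat_lit 7) true (nat_lit 2) true (nat_lit 6) true (nat_lit 1) true (nat_lit 9) true (nat_lit 9) (.s false (nat_lit 3) (nat_lit 31) (nat_lit 2) (nat_lit 2) (nat_lit 7) true (nat_lit 2) true (nat_lit 6) true (nat_lit 1) true (nat_lit 9) true (nat_lit 9) (.s true (nat_lit 3) (nat_lit 39) (nat_lit 1) (nat_lit 2) (nat_lit 7) true (nat_lit 3) true (nat_lit 6) true (nat_lit 0) true (nat_lit 10) true (nat_lit 9) (.s true (nat_lit 2) (nat_lit 39) (nat_lit 2) (nat_lit 2) (nat_lit 6) true (nat_lit 3) true (nat_lit 7) true (nat_lit 0) true (nat_lit 9) true (nat_lit 9) (.s false (nat_lit 3) (nat_lit 41) (nat_lit 2) (nat_lit 6) (nat_lit 2) true (nat_lit 6) true (nat_lit 9) true (nat_lit 0) true (nat_lit 9) true (nat_lit 7) (.s false (nat_lit 2) (nat_lit 39) (nat_lit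 2) (nat_lit 7) (nat_lit 1) true (nat_lit 7) true (nat_lit 10) true (nat_lit 0) true (nat_lit 9) true (nat_lit 6) (.s true (nat_lit 2) (nat_lit 39) (nat_lit 6) (nat_lit 2) (nat_lit 2) true (nat_lit 3) true (nat_lit 9) true (nat_lit 0) true (nat_lit 7) true (nat_lit 9) (.s false (nat_lit 3) (nat_lit 45) (nat_lit 2) (nat_lit 1) (nat_lit 6) true (nat_lit 3) true (nat_lit 7) false (nat_lit 0) true (nat_lit 9) true (nat_lit 10) (.s true (nat_lit 2) (nat_lit 46) (nat_lit 2) (nat_lit 1) (nat_lit 6) true (nat_lit 3) true (nat_lit 7) false (nat_lit 0) true (nat_lit 9) true (nat_lit 10) (.s false (nat_lit 3) (nat_lit 46) (nat_lit 2) (nat_lit 4) (nat_lit 2) true (nat_lit 6) true (nat_lit 9) false (nat_lit 0) true (nat_lit 9) true (nat_lit 8) (.s false (nat_lit 3) (nat_lit 47) (nat_lit 4) (nat_lit 2) (nat_lit 2) true (nat_lit 4) true (nat_lit 9) false (nat_lit 0) true (nat_lit 8) true (nat_lit 9) (.s true (nat_lit 3) (nat_lit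 45) (nat_lit 6) (nat_lit 2) (nat_lit 1) true (nat_lit 4) true (nat_lit 10) false (nat_lit 0) true (nat_lit 7) true (nat_lit 9) (.s true (nat_lit 3) (nat_lit 48) (nat_lit 1) (nat_lit 2) (nat_lit 4) true (nat_lit 5) true (nat_lit 8) false (nat_lit 1) true (nat_lit 10) true (nat_lit 9) (.s false (nat_lit 2) (nat_lit 48) (nat_lit 4) (nat_lit 2) (nat_lit 1) true (nat_lit 5) true (nat_lit 10) false (nat_lit 1) true (nat_lit 8) true (nat_lit 9) (.s false (nat_lit 3) (nat_lit 77) (nat_lit 2) (nat_lit 2) (nat_lit 2) true (nat_lit 6) true (nat_lit 9) false (nat_lit 2) true (nat_lit 9) true (nat_lit 9) (.s true (nat_lit 1) (nat_lit 93) (nat_lit 1) (nat_lit 2) (nat_lit 2) true (nat_lit 7) true (nat_lit 9) false (nat_lit 3) true (nat_lit 10) true (nat_lit 9) (.s false (nat_lit 2) (nat_lit 96) (nat_lit 1) (nat_lit 2) (nat_lit 2) true (nat_lit 7) true (nat_lit 9) false (nat_lit 3) true (nat_lit 10) true (nat_lit 9) (.s false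 (nat_lit 2) (nat_lit 92) (nat_lit 2) (nat_lit 1) (nat_lit 2) true (nat_lit 6) true (nat_lit 9) false (nat_lit 3) true (nat_lit 9) true (nat_lit 10) (.s true (nat_lit 3) (nat_lit 94) (nat_lit 2) (nat_lit 1) (nat_lit 2) true (nat_lit 6) true (nat_lit 9) false (nat_lit 3) true (nat_lit 9) true (nat_lit 10) (.s false (nat_lit 3) (nat_lit 91) (nat_lit 2) (nat_lit 2) (nat_lit 1) true (nat_lit 7) true (nat_lit 10) false (nat_lit 3) true (nat_lit 9) true (nat_lit 9) dC2d_i14)))))))))))))))))))))))))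

noncomputable def dC2d_i16 : IL := (.e false (nat_lit 2) (nat_lit 161) (nat_lit 0) (nat_lit 14) (.e true (nat_lit 3) (nat_lit 162) (nat_lit 0) (nat_lit 14) (.e true (nat_lit 3) (nat_lit 163) (nat_lit 0) (nat_lit 14) (.e true (nat_lit 2) (nat_lit 164) (nat_lit 0) (nat_lit 14) (.e false (nat_lit 2) (nat_lit 165) (nat_lit 0) (nat_lit 14) (.e false (nat_lit 1) (nat_lit 167) (nat_lit 0) (nat_lit 14) (.e true (nat_lit 2) (nat_lit 110) (nat_lit 2) (nat_lit 12) (.e false (nat_lit 2) (nat_lit 112) (nat_lit 2) (nat_lit 12) (.e false (nat_lit 3) (nat_lit 113) (nat_lit 2) (nat_lit 12) (.e false (nat_lit 3) (nat_lit 117) (nat_lit 2) (nat_lit 12) (.e true (nat_lit 2) (nat_lit 118) (nat_lit 2) (nat_lit 12) (.e false (nat_lit 3) (nat_lit 119) (nat_lit 2) (nat_lit 12) (.e true (nat_lit 1) (nat_lit 120) (nat_lit 2) (nat_lit 12) (.e false (nat_lit 1) (nat_lit 121) (nat_lit 2) (nat_lit 12) (.e false (nat_lit 2) (nat_lit 122) (nat_lit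 2) (nat_lit 12) (.e false (nat_lit 2) (nat_lit 123) (nat_lit 2) (nat_lit 12) (.e true (nat_lit 2) (nat_lit 124) (nat_lit 2) (nat_lit 12) (.e false (nat_lit 2) (nat_lit 125) (nat_lit 2) (nat_lit 12) (.e false (nat_lit 2) (nat_lit 126) (nat_lit 2) (nat_lit 12) (.e false (nat_lit 3) (nat_lit 127) (nat_lit 2) (nat_lit 12) (.e false (nat_lit 1) (nat_lit 128) (nat_lit 2) (nat_lit 12) (.e true (nat_lit 1) (nat_lit 129) (nat_lit 2) (nat_lit 12) (.e false (nat_lit 1) (nat_lit 130) (nat_lit 2) (nat_lit 12) (.e false (nat_lit 3) (nat_lit 131) (nat_lit 2) (nat_lit 12) (.u (nat_lit 2) (.n (nat_lit 0) (nat_lit 1) (.n (nat_lit 1) (nat_lit 5) (.n (nat_lit 2) (nat_lit 1) (.p (nat_lit 3) (nat_lit 1) (.n (nat_lit 5) (nat_lit 1) (.p (nat_lit 7) (nat_lit 2) (.n (nat_lit 8) (nat_lit 2) (.n (nat_lit 9) (nat_lit 1) (.n (nat_lit 10) (nat_lit 4) (.n (nat_lit 11) (nat_lit 1) (.p (nat_lit 12) (nat_lit 1) (.n (nat_lit 13) (nat_lit 1) (.n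 (nat_lit 14) (nat_lit 1) (.n (nat_lit 15) (nat_lit 2) (.p (nat_lit 17) (nat_lit 2) (.p (nat_lit 19) (nat_lit 1) (.n (nat_lit 20) (nat_lit 3) (.n (nat_lit 21) (nat_lit 1) (.n (nat_lit 23) (nat_lit 1) (.p (nat_lit 24) (nat_lit 1) (.n (nat_lit 25) (nat_lit 3) (.p (nat_lit 26) (nat_lit 1) (.p (nat_lit 27) (nat_lit 2) (.n (nat_lit 29) (nat_lit 1) (.n (nat_lit 30) (nat_lit 1) (.p (nat_lit 32) (nat_lit 1) (.p (nat_lit 33) (nat_lit 1) (.p (nat_lit 34) (nat_lit 1) (.n (nat_lit 35) (nat_lit 1) (.p (nat_lit 36) (nat_lit 1) (.p (nat_lit 37) (nat_lit 3) (.p (nat_lit 38) (nat_lit 2) (.p (nat_lit 39) (nat_lit 1) (.p (nat_lit 40) (nat_lit 2) (.p (nat_lit 41) (nat_lit 1) (.n (nat_lit 42) (nat_lit 4) (.p (nat_lit 43) (nat_lit 1) (.p (nat_lit 45) (nat_lit 1) (.p (nat_lit 46) (nat_lit 2) (.n (nat_lit 149) (nat_lit 1) .z)))))))))))))))))))))))))))))))))))))))) .nil)))))))))))))))))))))))))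

noncomputable def dC2d_i17 : IL := (.e false (nat_lit 2) (nat_lit 209) (nat_lit 2) (nat_lit 16) (.e true (nat_lit 3) (nat_lit 211) (nat_lit 2) (nat_lit 16) (.e true (nat_lit 2) (nat_lit 242) (nat_lit 2) (nat_lit 16) (.e false (nat_lit 2) (nat_lit 248) (nat_lit 2) (nat_lit 16) (.e false (nat_lit 2) (nat_lit 252) (nat_lit 1) (nat_lit 17) (.e true (nat_lit 2) (nat_lit 253) (nat_lit 1) (nat_lit 17) (.e true (nat_lit 3) (nat_lit 254) (nat_lit 1) (nat_lit 17) (.e false (nat_lit 1) (nat_lit 256) (nat_lit 1) (nat_lit 17) (.e true (nat_lit 1) (nat_lit 257) (nat_lit 1) (nat_lit 17) (.e false (nat_lit 1) (nat_lit 258) (nat_lit 1) (nat_lit 17) (.e false (nat_lit 3) (nat_lit 259) (nat_lit 1) (nat_lit 17) (.e true (nat_lit 3) (nat_lit 260) (nat_lit 1) (nat_lit 17) (.e false (nat_lit 3) (nat_lit 261) (nat_lit 1) (nat_lit 17) (.e false (nat_lit 2) (nat_lit 262) (nat_lit 1) (nat_lit 17) (.e true (nat_lit 3) (nat_lit 264) (nat_lit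 1) (nat_lit 17) (.e true (nat_lit 3) (nat_lit 267) (nat_lit 1) (nat_lit 17) (.e true (nat_lit 3) (nat_lit 269) (nat_lit 1) (nat_lit 17) (.e true (nat_lit 2) (nat_lit 270) (nat_lit 1) (nat_lit 17) (.e false (nat_lit 3) (nat_lit 271) (nat_lit 1) (nat_lit 17) (.e false (nat_lit 2) (nat_lit 272) (nat_lit 1) (nat_lit 17) (.e false (nat_lit 3) (nat_lit 273) (nat_lit 1) (nat_lit 17) (.e true (nat_lit 3) (nat_lit 274) (nat_lit 1) (nat_lit 17) (.e true (nat_lit 3) (nat_lit 277) (nat_lit 1) (nat_lit 17) (.u (nat_lit 2) (.n (nat_lit 0) (nat_lit 7) (.n (nat_lit 1) (nat_lit 1) (.p (nat_lit 2) (nat_lit 5) (.p (nat_lit 3) (nat_lit 3) (.p (nat_lit 4) (nat_lit 1) (.p (nat_lit 7) (nat_lit 3) (.n (nat_lit 8) (nat_lit 8) (.n (nat_lit 10) (nat_lit 2) (.n (nat_lit 12) (nat_lit 1) (.p (nat_lit 15) (nat_lit 2) (.p (nat_lit 16) (nat_lit 4) (.n (nat_lit 17) (nat_lit 6) (.n (nat_lit 18) (nat_lit 3) (.n (nat_lit 19) (nat_lit 1) (.p (nat_lit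 20) (nat_lit 2) (.p (nat_lit 21) (nat_lit 1) (.n (nat_lit 22) (nat_lit 1) (.p (nat_lit 23) (nat_lit 5) (.p (nat_lit 24) (nat_lit 1) (.p (nat_lit 25) (nat_lit 4) (.p (nat_lit 26) (nat_lit 3) (.p (nat_lit 27) (nat_lit 7) (.n (nat_lit 28) (nat_lit 5) (.p (nat_lit 29) (nat_lit 4) (.n (nat_lit 31) (nat_lit 8) (.p (nat_lit 32) (nat_lit 3) (.p (nat_lit 33) (nat_lit 1) (.p (nat_lit 34) (nat_lit 2) (.p (nat_lit 35) (nat_lit 1) (.n (nat_lit 36) (nat_lit 4) (.p (nat_lit 37) (nat_lit 4) (.n (nat_lit 39) (nat_lit 6) (.n (nat_lit 40) (nat_lit 2) (.p (nat_lit 42) (nat_lit 3) (.p (nat_lit 44) (nat_lit 2) (.n (nat_lit 45) (nat_lit 1) (.p (nat_lit 48) (nat_lit 2) (.n (nat_lit 50) (nat_lit 2) (.n (nat_lit 52) (nat_lit 1) (.p (nat_lit 53) (nat_lit 1) (.p (nat_lit 310) (nat_lit 1) (.p (nat_lit 311) (nat_lit 2) (.n (nat_lit 312) (nat_lit 1) (.p (nat_lit 313) (nat_lit 1) (.p (nat_lit 314) (nat_lit 1) (.n (nat_lit 315) (nat_lit 1) (.p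 (nat_lit 316) (nat_lit 1) (.p (nat_lit 317) (nat_lit 1) (.n (nat_lit 318) (nat_lit 1) (.n (nat_lit 322) (nat_lit 1) (.n (nat_lit 323) (nat_lit 1) (.p (nat_lit 324) (nat_lit 1) (.p (nat_lit 325) (nat_lit 1) (.n (nat_lit 327) (nat_lit 1) (.p (nat_lit 329) (nat_lit 1) (.p (nat_lit 335) (nat_lit 1) (.p (nat_lit 336) (nat_lit 1) (.n (nat_lit 340) (nat_lit 1) (.n (nat_lit 341) (nat_lit 1) (.n (nat_lit 342) (nat_lit 1) .z)))))))))))))))))))))))))))))))))))))))))))))))))))))))))))) (.u (nat_lit 2) (.n (nat_lit 343) (nat_lit 1) (.p (nat_lit 344) (nat_lit 1) (.p (nat_lit 347) (nat_lit 1) .z))) .nil)))))))))))))))))))))))))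

noncomputable def dC2d_i18 : IL := (.e false (nat_lit 1) (nat_lit 247) (nat_lit 2) (nat_lit 16) (.e false (nat_lit 2) (nat_lit 249) (nat_lit 2) (nat_lit 16) (.e true (nat_lit 3) (nat_lit 250) (nat_lit 2) (nat_lit 16) (.e false (nat_lit 3) (nat_lit 205) (nat_lit 2) (nat_lit 16) (.e false (nat_lit 3) (nat_lit 206) (nat_lit 2) (nat_lit 16) (.e false (nat_lit 2) (nat_lit 218) (nat_lit 2) (nat_lit 16) (.e true (nat_lit 3) (nat_lit 220) (nat_lit 2) (nat_lit 16) (.e false (nat_lit 3) (nat_lit 222) (nat_lit 2) (nat_lit 16) (.e false (nat_lit 1) (nat_lit 226) (nat_lit 2) (nat_lit 16) (.e true (nat_lit 2) (nat_lit 251) (nat_lit 2) (nat_lit 16) (.e true (nat_lit 1) (nat_lit 179) (nat_lit 4) (nat_lit 14) (.e true (nat_lit 3) (nat_lit 289) (nat_lit 0) (nat_lit 18) (.e false (nat_lit 2) (nat_lit 290) (nat_lit 0) (nat_lit 18) (.e false (nat_lit 1) (nat_lit 291) (nat_lit 0) (nat_lit 18) (.e false (nat_lit 1) (nat_lit 292) (nat_lit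 0) (nat_lit 18) (.e false (nat_lit 2) (nat_lit 293) (nat_lit 0) (nat_lit 18) (.e true (nat_lit 1) (nat_lit 294) (nat_lit 0) (nat_lit 18) (.e false (nat_lit 2) (nat_lit 295) (nat_lit 0) (nat_lit 18) (.e false (nat_lit 2) (nat_lit 296) (nat_lit 0) (nat_lit 18) (.e true (nat_lit 3) (nat_lit 298) (nat_lit 0) (nat_lit 18) (.e false (nat_lit 2) (nat_lit 300) (nat_lit 0) (nat_lit 18) (.e true (nat_lit 2) (nat_lit 301) (nat_lit 0) (nat_lit 18) (.e true (nat_lit 1) (nat_lit 303) (nat_lit 0) (nat_lit 18) (.e false (nat_lit 1) (nat_lit 304) (nat_lit 0) (nat_lit 18) (.e true (nat_lit 2) (nat_lit 207) (nat_lit 2) (nat_lit 16) dC2d_i17)))))))))))))))))))))))))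

noncomputable def dC2d_i19 : IL := (.e true (nat_lit 2) (nat_lit 126) (nat_lit 7) (nat_lit 11) (.e true (nat_lit 3) (nat_lit 127) (nat_lit 7) (nat_lit 11) (.e false (nat_lit 1) (nat_lit 130) (nat_lit 7) (nat_lit 11) (.e false (nat_lit 2) (nat_lit 131) (nat_lit 7) (nat_lit 11) (.e true (nat_lit 1) (nat_lit 208) (nat_lit 2) (nat_lit 16) (.e false (nat_lit 2) (nat_lit 212) (nat_lit 2) (nat_lit 16) (.e true (nat_lit 2) (nat_lit 213) (nat_lit 2) (nat_lit 16) (.e true (nat_lit 2) (nat_lit 214) (nat_lit 2) (nat_lit 16) (.e true (nat_lit 3) (nat_lit 215) (nat_lit 2) (nat_lit 16) (.e true (nat_lit 2) (nat_lit 216) (nat_lit 2) (nat_lit 16) (.e false (nat_lit 2) (nat_lit 217) (nat_lit 2) (nat_lit 16) (.e true (nat_lit 2) (nat_lit 219) (nat_lit 2) (nat_lit 16) (.e true (nat_lit 2) (nat_lit 221) (nat_lit 2) (nat_lit 16) (.e true (nat_lit 3) (nat_lit 225) (nat_lit 2) (nat_lit 16) (.e true (nat_lit 3) (nat_lit 227) (nat_lit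 2) (nat_lit 16) (.e true (nat_lit 1) (nat_lit 229) (nat_lit 2) (nat_lit 16) (.e false (nat_lit 1) (nat_lit 230) (nat_lit 2) (nat_lit 16) (.e false (nat_lit 1) (nat_lit 231) (nat_lit 2) (nat_lit 16) (.e true (nat_lit 3) (nat_lit 232) (nat_lit 2) (nat_lit 16) (.e false (nat_lit 2) (nat_lit 234) (nat_lit 2) (nat_lit 16) (.e true (nat_lit 3) (nat_lit 239) (nat_lit 2) (nat_lit 16) (.e true (nat_lit 3) (nat_lit 243) (nat_lit 2) (nat_lit 16) (.e true (nat_lit 1) (nat_lit 244) (nat_lit 2) (nat_lit 16) (.e false (nat_lit 1) (nat_lit 245) (nat_lit 2) (nat_lit 16) (.e true (nat_lit 1) (nat_lit 246) (nat_lit 2) (nat_lit 16) dC2d_i18)))))))))))))))))))))))))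

noncomputable def dC2d_i20 : IL := (.s true (nat_lit 1) (nat_lit 96) (nat_lit 2) (nat_lit 1) (nat_lit 0) true (nat_lit 13) true (nat_lit 18) false (nat_lit 8) true (nat_lit 16) true (nat_lit 17) (.e false (nat_lit 1) (nat_lit 53) (nat_lit 20) (nat_lit 4) (.e false (nat_lit 1) (nat_lit 54) (nat_lit 20) (nat_lit 4) (.e true (nat_lit 1) (nat_lit 55) (nat_lit 20) (nat_lit 4) (.e false (nat_lit 2) (nat_lit 57) (nat_lit 20) (nat_lit 4) (.e false (nat_lit 1) (nat_lit 58) (nat_lit 20) (nat_lit 4) (.e false (nat_lit 1) (nat_lit 59) (nat_lit 20) (nat_lit 4) (.e false (nat_lit 3) (nat_lit 106) (nat_lit 7) (nat_lit 11) (.e true (nat_lit 3) (nat_lit 107) (nat_lit 7) (nat_lit 11) (.e false (nat_lit 2) (nat_lit 108) (nat_lit 7) (nat_lit 11) (.e true (nat_lit 2) (nat_lit 109) (nat_lit 7) (nat_lit 11) (.e true (nat_lit 2) (nat_lit 110) (nat_lit 7) (nat_lit 11) (.e true (nat_lit 1) (nat_lit 112) (nat_lit 7) (nat_lit 11) (.e false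 (nat_lit 1) (nat_lit 113) (nat_lit 7) (nat_lit 11) (.e false (nat_lit 1) (nat_lit 114) (nat_lit 7) (nat_lit 11) (.e true (nat_lit 1) (nat_lit 115) (nat_lit 7) (nat_lit 11) (.e false (nat_lit 2) (nat_lit 116) (nat_lit 7) (nat_lit 11) (.e false (nat_lit 3) (nat_lit 117) (nat_lit 7) (nat_lit 11) (.e true (nat_lit 3) (nat_lit 118) (nat_lit 7) (nat_lit 11) (.e false (nat_lit 2) (nat_lit 119) (nat_lit 7) (nat_lit 11) (.e false (nat_lit 2) (nat_lit 120) (nat_lit 7) (nat_lit 11) (.e false (nat_lit 1) (nat_lit 121) (nat_lit 7) (nat_lit 11) (.e true (nat_lit 3) (nat_lit 122) (nat_lit 7) (nat_lit 11) (.e true (nat_lit 2) (nat_lit 123) (nat_lit 7) (nat_lit 11) (.e false (nat_lit 2) (nat_lit 124) (nat_lit 7) (nat_lit 11) dC2d_i19)))))))))))))))))))))))))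

noncomputable def dC2d_i21 : IL := (.e false (nat_lit 3) (nat_lit 221) (nat_lit 2) (nat_lit 16) (.e false (nat_lit 2) (nat_lit 225) (nat_lit 2) (nat_lit 16) (.e true (nat_lit 1) (nat_lit 227) (nat_lit 2) (nat_lit 16) (.e false (nat_lit 1) (nat_lit 228) (nat_lit 2) (nat_lit 16) (.e true (nat_lit 2) (nat_lit 245) (nat_lit 2) (nat_lit 16) (.e false (nat_lit 1) (nat_lit 246) (nat_lit 2) (nat_lit 16) (.e true (nat_lit 1) (nat_lit 247) (nat_lit 2) (nat_lit 16) (.e false (nat_lit 2) (nat_lit 248) (nat_lit 2) (nat_lit 16) (.e true (nat_lit 2) (nat_lit 249) (nat_lit 2) (nat_lit 16) (.e true (nat_lit 2) (nat_lit 251) (nat_lit 2) (nat_lit 16) (.e false (nat_lit 1) (nat_lit 98) (nat_lit 10) (nat_lit 9) (.e false (nat_lit 1) (nat_lit 99) (nat_lit 10) (nat_lit 9) (.e true (nat_lit 1) (nat_lit 106) (nat_lit 7) (nat_lit 11) (.e false (nat_lit 2) (nat_lit 107) (nat_lit 7) (nat_lit 11) (.e false (nat_lit 1) (nat_lit 108) (nat_lit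 7) (nat_lit 11) (.e false (nat_lit 2) (nat_lit 109) (nat_lit 7) (nat_lit 11) (.e false (nat_lit 1) (nat_lit 110) (nat_lit 7) (nat_lit 11) (.e true (nat_lit 3) (nat_lit 112) (nat_lit 7) (nat_lit 11) (.e false (nat_lit 3) (nat_lit 114) (nat_lit 7) (nat_lit 11) (.e true (nat_lit 1) (nat_lit 116) (nat_lit 7) (nat_lit 11) (.e true (nat_lit 1) (nat_lit 118) (nat_lit 7) (nat_lit 11) (.e false (nat_lit 2) (nat_lit 120) (nat_lit 7) (nat_lit 11) (.e true (nat_lit 2) (nat_lit 122) (nat_lit 7) (nat_lit 11) (.e true (nat_lit 1) (nat_lit 128) (nat_lit 7) (nat_lit 11) (.u (nat_lit 2) (.p (nat_lit 0) (nat_lit 2) (.p (nat_lit 1) (nat_lit 1) (.n (nat_lit 2) (nat_lit 2) (.p (nat_lit 3) (nat_lit 5) (.n (nat_lit 4) (nat_lit 5) (.p (nat_lit 5) (nat_lit 1) (.p (nat_lit 6) (nat_lit 5) (.n (nat_lit 7) (nat_lit 5) (.p (nat_lit 8) (nat_lit 2) (.n (nat_lit 9) (nat_lit 1) (.n (nat_lit 10) (nat_lit 2) (.n (nat_lit 11) (nat_lit 6) (.p (nat_lit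 14) (nat_lit 2) (.p (nat_lit 16) (nat_lit 3) (.n (nat_lit 17) (nat_lit 3) (.n (nat_lit 18) (nat_lit 5) (.p (nat_lit 19) (nat_lit 1) (.n (nat_lit 20) (nat_lit 3) (.n (nat_lit 21) (nat_lit 7) (.p (nat_lit 22) (nat_lit 7) (.n (nat_lit 23) (nat_lit 1) (.n (nat_lit 24) (nat_lit 1) (.p (nat_lit 25) (nat_lit 1) (.n (nat_lit 26) (nat_lit 2) (.n (nat_lit 27) (nat_lit 1) (.n (nat_lit 29) (nat_lit 1) (.p (nat_lit 31) (nat_lit 6) (.n (nat_lit 32) (nat_lit 4) (.n (nat_lit 33) (nat_lit 2) (.n (nat_lit 34) (nat_lit 3) (.p (nat_lit 35) (nat_lit 1) (.n (nat_lit 36) (nat_lit 1) (.p (nat_lit 37) (nat_lit 1) (.p (nat_lit 38) (nat_lit 2) (.p (nat_lit 39) (nat_lit 5) (.n (nat_lit 40) (nat_lit 2) (.p (nat_lit 42) (nat_lit 2) (.n (nat_lit 44) (nat_lit 2) (.p (nat_lit 45) (nat_lit 4) (.n (nat_lit 46) (nat_lit 1) (.p (nat_lit 47) (nat_lit 2) (.p (nat_lit 48) (nat_lit 4) .z)))))))))))))))))))))))))))))))))))))))))) .nil)))))))))))))))))))))))))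

noncomputable def dC2d_i22 : IL := (.e true (nat_lit 1) (nat_lit 143) (nat_lit 1) (nat_lit 13) (.e true (nat_lit 1) (nat_lit 144) (nat_lit 1) (nat_lit 13) (.e true (nat_lit 1) (nat_lit 145) (nat_lit 1) (nat_lit 13) (.e false (nat_lit 1) (nat_lit 41) (nat_lit 12) (nat_lit 4) (.e false (nat_lit 1) (nat_lit 106) (nat_lit 2) (nat_lit 12) (.e false (nat_lit 3) (nat_lit 109) (nat_lit 2) (nat_lit 12) (.e true (nat_lit 3) (nat_lit 110) (nat_lit 2) (nat_lit 12) (.e false (nat_lit 2) (nat_lit 112) (nat_lit 2) (nat_lit 12) (.e false (nat_lit 1) (nat_lit 113) (nat_lit 2) (nat_lit 12) (.e true (nat_lit 2) (nat_lit 114) (nat_lit 2) (nat_lit 12) (.e true (nat_lit 1) (nat_lit 115) (nat_lit 2) (nat_lit 12) (.e false (nat_lit 2) (nat_lit 118) (nat_lit 2) (nat_lit 12) (.e true (nat_lit 1) (nat_lit 120) (nat_lit 2) (nat_lit 12) (.e false (nat_lit 1) (nat_lit 122) (nat_lit 2) (nat_lit 12) (.e true (nat_lit 1) (nat_lit 128) (nat_lit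 2) (nat_lit 12) (.e false (nat_lit 1) (nat_lit 117) (nat_lit 2) (nat_lit 12) (.e true (nat_lit 3) (nat_lit 119) (nat_lit 2) (nat_lit 12) (.e true (nat_lit 3) (nat_lit 123) (nat_lit 2) (nat_lit 12) (.e false (nat_lit 2) (nat_lit 126) (nat_lit 2) (nat_lit 12) (.e false (nat_lit 3) (nat_lit 127) (nat_lit 2) (nat_lit 12) (.e true (nat_lit 1) (nat_lit 129) (nat_lit 2) (nat_lit 12) (.e true (nat_lit 2) (nat_lit 107) (nat_lit 2) (nat_lit 12) (.e true (nat_lit 2) (nat_lit 108) (nat_lit 2) (nat_lit 12) (.e false (nat_lit 1) (nat_lit 125) (nat_lit 2) (nat_lit 12) (.u (nat_lit 2) (.n (nat_lit 2) (nat_lit 1) (.n (nat_lit 6) (nat_lit 1) (.n (nat_lit 7) (nat_lit 1) (.p (nat_lit 9) (nat_lit 1) (.n (nat_lit 10) (nat_lit 1) (.n (nat_lit 11) (nat_lit 1) (.n (nat_lit 13) (nat_lit 1) (.n (nat_lit 15) (nat_lit 1) (.n (nat_lit 17) (nat_lit 1) (.p (nat_lit 20) (nat_lit 1) (.p (nat_lit 21) (nat_lit 1) (.p (nat_lit 24) (nat_lit 1) (.p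 (nat_lit 25) (nat_lit 1) (.p (nat_lit 27) (nat_lit 1) (.p (nat_lit 29) (nat_lit 1) (.p (nat_lit 39) (nat_lit 1) (.p (nat_lit 40) (nat_lit 1) (.n (nat_lit 41) (nat_lit 1) (.n (nat_lit 43) (nat_lit 2) (.p (nat_lit 44) (nat_lit 1) (.p (nat_lit 45) (nat_lit 1) (.n (nat_lit 46) (nat_lit 1) (.p (nat_lit 146) (nat_lit 1) (.p (nat_lit 147) (nat_lit 1) (.p (nat_lit 148) (nat_lit 1) (.n (nat_lit 149) (nat_lit 2) (.n (nat_lit 150) (nat_lit 2) (.p (nat_lit 152) (nat_lit 1) (.n (nat_lit 153) (nat_lit 1) (.n (nat_lit 154) (nat_lit 1) (.p (nat_lit 155) (nat_lit 1) (.p (nat_lit 156) (nat_lit 1) (.n (nat_lit 158) (nat_lit 1) (.p (nat_lit 160) (nat_lit 1) (.n (nat_lit 162) (nat_lit 1) (.n (nat_lit 163) (nat_lit 2) (.p (nat_lit 166) (nat_lit 3) (.p (nat_lit 167) (nat_lit 3) (.n (nat_lit 170) (nat_lit 1) (.p (nat_lit 171) (nat_lit 2) .z)))))))))))))))))))))))))))))))))))))))) .nil)))))))))))))))))))))))))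

noncomputable def dC2d_c52 : Cm := .mk (nat_lit 693) (nat_lit 52) (nat_lit 289) (nat_lit 16) (.c (nat_lit 30) (nat_lit 3) (nat_lit 20) (nat_lit 1) (nat_lit 16) (.c (nat_lit 39) (nat_lit 3) (nat_lit 18) (nat_lit 2) (nat_lit 19) (.c (nat_lit 45) (nat_lit 3) (nat_lit 14) (nat_lit 2) (nat_lit 25) (.c (nat_lit 48) (nat_lit 1) (nat_lit 10) (nat_lit 1) (nat_lit 31) (.c (nat_lit 74) (nat_lit 6) (nat_lit 7) (nat_lit 1) (nat_lit 32) (.c (nat_lit 91) (nat_lit 6) (nat_lit 6) (nat_lit 1) (nat_lit 38) (.c (nat_lit 101) (nat_lit 4) (nat_lit 4) (nat_lit 1) (nat_lit 44) (.c (nat_lit 158) (nat_lit 11) (nat_lit 2) (nat_lit 1) (nat_lit 48) (.c (nat_lit 185) (nat_lit 10) (nat_lit 1) (nat_lit 1) (nat_lit 59) .nil)))))))))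

noncomputable def dC2d_i23 : IL := (.e false (nat_lit 3) (nat_lit 259) (nat_lit 1) (nat_lit 17) (.e true (nat_lit 1) (nat_lit 261) (nat_lit 1) (nat_lit 17) (.e true (nat_lit 2) (nat_lit 262) (nat_lit 1) (nat_lit 17) (.e true (nat_lit 3) (nat_lit 263) (nat_lit 1) (nat_lit 17) (.e false (nat_lit 1) (nat_lit 264) (nat_lit 1) (nat_lit 17) (.e true (nat_lit 1) (nat_lit 265) (nat_lit 1) (nat_lit 17) (.e true (nat_lit 3) (nat_lit 267) (nat_lit 1) (nat_lit 17) (.e true (nat_lit 3) (nat_lit 269) (nat_lit 1) (nat_lit 17) (.e false (nat_lit 1) (nat_lit 270) (nat_lit 1) (nat_lit 17) (.e true (nat_lit 2) (nat_lit 271) (nat_lit 1) (nat_lit 17) (.e true (nat_lit 2) (nat_lit 273) (nat_lit 1) (nat_lit 17) (.e false (nat_lit 2) (nat_lit 276) (nat_lit 1) (nat_lit 17) (.e false (nat_lit 2) (nat_lit 277) (nat_lit 1) (nat_lit 17) (.e false (nat_lit 1) (nat_lit 279) (nat_lit 1) (nat_lit 17) (.e false (nat_lit 2) (nat_lit 286) (nat_lit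 1) (nat_lit 17) (.e true (nat_lit 1) (nat_lit 288) (nat_lit 1) (nat_lit 17) (.e false (nat_lit 2) (nat_lit 280) (nat_lit 1) (nat_lit 17) (.e false (nat_lit 3) (nat_lit 266) (nat_lit 1) (nat_lit 17) (.e false (nat_lit 1) (nat_lit 272) (nat_lit 1) (nat_lit 17) (.e true (nat_lit 3) (nat_lit 283) (nat_lit 1) (nat_lit 17) (.e true (nat_lit 2) (nat_lit 281) (nat_lit 1) (nat_lit 17) (.e false (nat_lit 3) (nat_lit 285) (nat_lit 1) (nat_lit 17) (.e true (nat_lit 1) (nat_lit 260) (nat_lit 1) (nat_lit 17) (.e true (nat_lit 2) (nat_lit 282) (nat_lit 1) (nat_lit 17) (.u (nat_lit 2) (.n (nat_lit 0) (nat_lit 4) (.n (nat_lit 2) (nat_lit 1) (.p (nat_lit 4) (nat_lit 2) (.p (nat_lit 5) (nat_lit 2) (.p (nat_lit 6) (nat_lit 4) (.n (nat_lit 7) (nat_lit 1) (.n (nat_lit 9) (nat_lit 2) (.n (nat_lit 10) (nat_lit 1) (.p (nat_lit 12) (nat_lit 3) (.p (nat_lit 14) (nat_lit 1) (.p (nat_lit 17) (nat_lit 2) (.n (nat_lit 18) (nat_lit 1) (.p (nat_lit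 21) (nat_lit 1) (.n (nat_lit 22) (nat_lit 1) (.p (nat_lit 23) (nat_lit 3) (.p (nat_lit 25) (nat_lit 4) (.n (nat_lit 26) (nat_lit 3) (.p (nat_lit 27) (nat_lit 1) (.p (nat_lit 28) (nat_lit 1) (.n (nat_lit 31) (nat_lit 1) (.n (nat_lit 32) (nat_lit 2) (.p (nat_lit 33) (nat_lit 3) (.n (nat_lit 34) (nat_lit 4) (.p (nat_lit 35) (nat_lit 3) (.p (nat_lit 36) (nat_lit 1) (.n (nat_lit 38) (nat_lit 3) (.p (nat_lit 39) (nat_lit 2) (.n (nat_lit 44) (nat_lit 3) (.p (nat_lit 45) (nat_lit 2) (.n (nat_lit 46) (nat_lit 2) (.n (nat_lit 47) (nat_lit 1) (.n (nat_lit 48) (nat_lit 2) (.n (nat_lit 349) (nat_lit 3) (.n (nat_lit 351) (nat_lit 1) (.p (nat_lit 352) (nat_lit 2) (.p (nat_lit 353) (nat_lit 1) (.n (nat_lit 355) (nat_lit 2) (.n (nat_lit 358) (nat_lit 1) (.p (nat_lit 362) (nat_lit 3) (.p (nat_lit 364) (nat_lit 2) (.p (nat_lit 366) (nat_lit 1) (.p (nat_lit 367) (nat_lit 2) (.p (nat_lit 372) (nat_lit 3) (.n (nat_lit 377) (nat_lit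 1) (.n (nat_lit 380) (nat_lit 1) (.p (nat_lit 382) (nat_lit 1) (.p (nat_lit 383) (nat_lit 1) (.n (nat_lit 385) (nat_lit 1) .z)))))))))))))))))))))))))))))))))))))))))))))))) .nil)))))))))))))))))))))))))

noncomputable def dC2d_i24 : IL := (.e true (nat_lit 3) (nat_lit 164) (nat_lit 7) (nat_lit 6) (.e false (nat_lit 1) (nat_lit 289) (nat_lit 2) (nat_lit 9) (.e false (nat_lit 3) (nat_lit 290) (nat_lit 2) (nat_lit 9) (.e false (nat_lit 2) (nat_lit 291) (nat_lit 2) (nat_lit 9) (.e true (nat_lit 2) (nat_lit 292) (nat_lit 2) (nat_lit 9) (.e false (nat_lit 1) (nat_lit 293) (nat_lit 2) (nat_lit 9) (.e true (nat_lit 3) (nat_lit 294) (nat_lit 2) (nat_lit 9) (.e true (nat_lit 2) (nat_lit 296) (nat_lit 2) (nat_lit 9) (.e true (nat_lit 2) (nat_lit 297) (nat_lit 2) (nat_lit 9) (.e true (nat_lit 2) (nat_lit 298) (nat_lit 2) (nat_lit 9) (.e true (nat_lit 2) (nat_lit 299) (nat_lit 2) (nat_lit 9) (.e false (nat_lit 1) (nat_lit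 300) (nat_lit 2) (nat_lit 9) (.e false (nat_lit 2) (nat_lit 301) (nat_lit 2) (nat_lit 9) (.e false (nat_lit 2) (nat_lit 303) (nat_lit 2) (nat_lit 9) (.e true (nat_lit 1) (nat_lit 304) (nat_lit 2) (nat_lit 9) (.e false (nat_lit 2) (nat_lit 324) (nat_lit 1) (nat_lit 10) (.e true (nat_lit 3) (nat_lit 330) (nat_lit 1) (nat_lit 10) (.e false (nat_lit 2) (nat_lit 331) (nat_lit 1) (nat_lit 10) (.e true (nat_lit 1) (nat_lit 92) (nat_lit 18) (nat_lit 3) (.e false (nat_lit 3) (nat_lit 295) (nat_lit 2) (nat_lit 9) (.e false (nat_lit 1) (nat_lit 93) (nat_lit 18) (nat_lit 3) (.e true (nat_lit 1) (nat_lit 194) (nat_lit 6) (nat_lit 7) (.e true (nat_lit 1) (nat_lit 326) (nat_lit 1) (nat_lit 10) (.e true (nat_lit 1) (nat_lit 334) (nat_lit 1) (nat_lit 10) (.u (nat_lit 2) (.n (nat_lit 0) (nat_lit 2) (.p (nat_lit 1) (nat_lit 1) (.n (nat_lit 2) (nat_lit 1) (.n (nat_lit 3) (nat_lit 4) (.p (nat_lit 4) (nat_lit 1) (.p (nat_lit 5) (nat_lit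 4) (.p (nat_lit 7) (nat_lit 1) (.n (nat_lit 8) (nat_lit 1) (.n (nat_lit 9) (nat_lit 2) (.n (nat_lit 12) (nat_lit 1) (.p (nat_lit 14) (nat_lit 2) (.p (nat_lit 34) (nat_lit 1) (.n (nat_lit 66) (nat_lit 1) (.n (nat_lit 80) (nat_lit 1) (.n (nat_lit 81) (nat_lit 1) (.p (nat_lit 82) (nat_lit 4) (.p (nat_lit 83) (nat_lit 2) (.n (nat_lit 84) (nat_lit 2) (.p (nat_lit 86) (nat_lit 2) (.p (nat_lit 87) (nat_lit 2) (.p (nat_lit 88) (nat_lit 3) (.n (nat_lit 90) (nat_lit 1) (.p (nat_lit 91) (nat_lit 1) (.p (nat_lit 92) (nat_lit 2) (.n (nat_lit 94) (nat_lit 3) (.p (nat_lit 95) (nat_lit 4) (.n (nat_lit 96) (nat_lit 1) (.n (nat_lit 97) (nat_lit 1) (.n (nat_lit 98) (nat_lit 2) (.p (nat_lit 99) (nat_lit 2) (.n (nat_lit 100) (nat_lit 1) (.n (nat_lit 101) (nat_lit 1) (.p (nat_lit 102) (nat_lit 2) (.n (nat_lit 103) (nat_lit 1) (.p (nat_lit 105) (nat_lit 1) (.p (nat_lit 106) (nat_lit 1) .z)))))))))))))))))))))))))))))))))))) .nil)))))))))))))))))))))))))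

noncomputable def dC2d_i25 : IL := (.e true (nat_lit 3) (nat_lit 215) (nat_lit 2) (nat_lit 16) (.e true (nat_lit 2) (nat_lit 216) (nat_lit 2) (nat_lit 16) (.e true (nat_lit 1) (nat_lit 217) (nat_lit 2) (nat_lit 16) (.e false (nat_lit 3) (nat_lit 218) (nat_lit 2) (nat_lit 16) (.e true (nat_lit 2) (nat_lit 219) (nat_lit 2) (nat_lit 16) (.e false (nat_lit 3) (nat_lit 221) (nat_lit 2) (nat_lit 16) (.e false (nat_lit 2) (nat_lit 222) (nat_lit 2) (nat_lit 16) (.e true (nat_lit 2) (nat_lit 225) (nat_lit 2) (nat_lit 16) (.e true (nat_lit 2) (nat_lit 226) (nat_lit 2) (nat_lit 16) (.e true (nat_lit 3) (nat_lit 227) (nat_lit 2) (nat_lit 16) (.e true (nat_lit 3) (nat_lit 228) (nat_lit 2) (nat_lit 16) (.e false (nat_lit 2) (nat_lit 229) (nat_lit 2) (nat_lit 16) (.e false (nat_lit 2) (nat_lit 230) (nat_lit 2) (nat_lit 16) (.e false (nat_lit 2) (nat_lit 245) (nat_lit 2) (nat_lit 16) (.e false (nat_lit 3) (nat_lit 246) (nat_lit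 2) (nat_lit 16) (.e false (nat_lit 3) (nat_lit 247) (nat_lit 2) (nat_lit 16) (.e true (nat_lit 2) (nat_lit 248) (nat_lit 2) (nat_lit 16) (.e false (nat_lit 3) (nat_lit 251) (nat_lit 2) (nat_lit 16) (.e true (nat_lit 1) (nat_lit 210) (nat_lit 2) (nat_lit 16) (.e false (nat_lit 1) (nat_lit 214) (nat_lit 2) (nat_lit 16) (.e true (nat_lit 1) (nat_lit 220) (nat_lit 2) (nat_lit 16) (.e false (nat_lit 2) (nat_lit 231) (nat_lit 2) (nat_lit 16) (.e true (nat_lit 1) (nat_lit 242) (nat_lit 2) (nat_lit 16) (.e false (nat_lit 1) (nat_lit 287) (nat_lit 1) (nat_lit 17) (.u (nat_lit 2) (.n (nat_lit 0) (nat_lit 4) (.n (nat_lit 1) (nat_lit 2) (.p (nat_lit 3) (nat_lit 4) (.n (nat_lit 4) (nat_lit 3) (.n (nat_lit 5) (nat_lit 6) (.n (nat_lit 6) (nat_lit 4) (.p (nat_lit 7) (nat_lit 1) (.n (nat_lit 9) (nat_lit 1) (.p (nat_lit 10) (nat_lit 2) (.n (nat_lit 12) (nat_lit 2) (.n (nat_lit 14) (nat_lit 5) (.p (nat_lit 16) (nat_lit 2) (.n (nat_lit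 17) (nat_lit 1) (.n (nat_lit 18) (nat_lit 1) (.n (nat_lit 19) (nat_lit 1) (.n (nat_lit 20) (nat_lit 3) (.p (nat_lit 21) (nat_lit 4) (.n (nat_lit 22) (nat_lit 4) (.p (nat_lit 23) (nat_lit 4) (.n (nat_lit 25) (nat_lit 3) (.p (nat_lit 26) (nat_lit 4) (.n (nat_lit 27) (nat_lit 3) (.p (nat_lit 28) (nat_lit 1) (.p (nat_lit 29) (nat_lit 5) (.n (nat_lit 31) (nat_lit 6) (.p (nat_lit 32) (nat_lit 3) (.p (nat_lit 33) (nat_lit 4) (.n (nat_lit 34) (nat_lit 2) (.p (nat_lit 35) (nat_lit 4) (.p (nat_lit 36) (nat_lit 3) (.n (nat_lit 37) (nat_lit 1) (.n (nat_lit 38) (nat_lit 4) (.n (nat_lit 40) (nat_lit 2) (.n (nat_lit 42) (nat_lit 1) (.n (nat_lit 44) (nat_lit 2) (.n (nat_lit 45) (nat_lit 2) (.n (nat_lit 46) (nat_lit 2) (.p (nat_lit 47) (nat_lit 4) (.n (nat_lit 305) (nat_lit 1) (.p (nat_lit 308) (nat_lit 1) (.n (nat_lit 310) (nat_lit 1) (.p (nat_lit 313) (nat_lit 1) (.p (nat_lit 316) (nat_lit 1) (.p (nat_lit 324) (nat_lit 1) (.p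 (nat_lit 325) (nat_lit 1) (.n (nat_lit 326) (nat_lit 1) (.n (nat_lit 327) (nat_lit 1) (.n (nat_lit 342) (nat_lit 1) (.n (nat_lit 343) (nat_lit 1) (.n (nat_lit 344) (nat_lit 1) (.p (nat_lit 345) (nat_lit 1) .z))))))))))))))))))))))))))))))))))))))))))))))))))) .nil)))))))))))))))))))))))))

noncomputable def dC2d_c293 : Cm := .mk (nat_lit 1160) (nat_lit 293) (nat_lit 397) (nat_lit 39) (.c (nat_lit 42) (nat_lit 3) (nat_lit 39) (nat_lit 3) (nat_lit 39) (.c (nat_lit 45) (nat_lit 3) (nat_lit 33) (nat_lit 6) (nat_lit 48) (.c (nat_lit 48) (nat_lit 1) (nat_lit 24) (nat_lit 6) (nat_lit 66) (.c (nat_lit 60) (nat_lit 14) (nat_lit 20) (nat_lit 1) (nat_lit 72) (.c (nat_lit 80) (nat_lit 11) (nat_lit 18) (nat_lit 2) (nat_lit 86) (.c (nat_lit 91) (nat_lit 6) (nat_lit 16) (nat_lit 2) (nat_lit 108) (.c (nat_lit 97) (nat_lit 4) (nat_lit 14) (nat_lit 2) (nat_lit 120) (.c (nat_lit 101) (nat_lit 4) (nat_lit 11) (nat_lit 3) (nat_lit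 128) (.c (nat_lit 105) (nat_lit 1) (nat_lit 8) (nat_lit 2) (nat_lit 140) (.c (nat_lit 132) (nat_lit 26) (nat_lit 7) (nat_lit 1) (nat_lit 142) (.c (nat_lit 169) (nat_lit 16) (nat_lit 6) (nat_lit 1) (nat_lit 168) (.c (nat_lit 185) (nat_lit 10) (nat_lit 5) (nat_lit 1) (nat_lit 184) (.c (nat_lit 195) (nat_lit 5) (nat_lit 4) (nat_lit 1) (nat_lit 194) (.c (nat_lit 200) (nat_lit 5) (nat_lit 3) (nat_lit 1) (nat_lit 199) (.c (nat_lit 252) (nat_lit 37) (nat_lit 2) (nat_lit 1) (nat_lit 204) (.c (nat_lit 305) (nat_lit 19) (nat_lit 1) (nat_lit 1) (nat_lit 241) (.c (nat_lit 324) (nat_lit 11) (nat_lit 0) (nat_lit 1) (nat_lit 260) .nil)))))))))))))))))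

noncomputable def dC2d_i26 : IL := (.e true (nat_lit 1) (nat_lit 274) (nat_lit 1) (nat_lit 17) (.e true (nat_lit 1) (nat_lit 256) (nat_lit 1) (nat_lit 17) (.e false (nat_lit 1) (nat_lit 257) (nat_lit 1) (nat_lit 17) (.e true (nat_lit 2) (nat_lit 259) (nat_lit 1) (nat_lit 17) (.e false (nat_lit 2) (nat_lit 260) (nat_lit 1) (nat_lit 17) (.e true (nat_lit 2) (nat_lit 261) (nat_lit 1) (nat_lit 17) (.e true (nat_lit 1) (nat_lit 275) (nat_lit 1) (nat_lit 17) (.e false (nat_lit 2) (nat_lit 279) (nat_lit 1) (nat_lit 17) (.e false (nat_lit 3) (nat_lit 300) (nat_lit 0) (nat_lit 18) (.e true (nat_lit 1) (nat_lit 301) (nat_lit 0) (nat_lit 18) (.e true (nat_lit 2) (nat_lit 289) (nat_lit 0) (nat_lit 18) (.e true (nat_lit 2) (nat_lit 291) (nat_lit 0) (nat_lit 18) (.e true (nat_lit 3) (nat_lit 293) (nat_lit 0) (nat_lit 18) (.e false (nat_lit 1) (nat_lit 296) (nat_lit 0) (nat_lit 18) (.e false (nat_lit 2) (nat_lit 297) (nat_lit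 0) (nat_lit 18) (.e true (nat_lit 1) (nat_lit 290) (nat_lit 0) (nat_lit 18) (.e true (nat_lit 2) (nat_lit 294) (nat_lit 0) (nat_lit 18) (.e false (nat_lit 2) (nat_lit 295) (nat_lit 0) (nat_lit 18) (.e false (nat_lit 1) (nat_lit 155) (nat_lit 6) (nat_lit 12) (.e false (nat_lit 2) (nat_lit 292) (nat_lit 0) (nat_lit 18) (.e false (nat_lit 2) (nat_lit 299) (nat_lit 0) (nat_lit 18) (.u (nat_lit 2) (.n (nat_lit 4) (nat_lit 1) (.n (nat_lit 5) (nat_lit 1) (.p (nat_lit 19) (nat_lit 1) (.n (nat_lit 23) (nat_lit 1) (.p (nat_lit 29) (nat_lit 1) (.n (nat_lit 31) (nat_lit 1) (.p (nat_lit 33) (nat_lit 1) (.p (nat_lit 35) (nat_lit 1) (.n (nat_lit 36) (nat_lit 1) (.n (nat_lit 38) (nat_lit 1) (.n (nat_lit 39) (nat_lit 1) (.p (nat_lit 47) (nat_lit 1) (.n (nat_lit 64) (nat_lit 1) (.p (nat_lit 66) (nat_lit 2) (.n (nat_lit 67) (nat_lit 2) (.n (nat_lit 69) (nat_lit 1) (.p (nat_lit 70) (nat_lit 1) (.n (nat_lit 72) (nat_lit 1) (.p (nat_lit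 73) (nat_lit 1) (.n (nat_lit 78) (nat_lit 1) (.p (nat_lit 79) (nat_lit 2) (.n (nat_lit 89) (nat_lit 1) (.p (nat_lit 92) (nat_lit 1) (.p (nat_lit 94) (nat_lit 1) (.n (nat_lit 95) (nat_lit 1) (.n (nat_lit 100) (nat_lit 1) (.p (nat_lit 106) (nat_lit 1) (.p (nat_lit 111) (nat_lit 1) (.p (nat_lit 113) (nat_lit 2) (.n (nat_lit 114) (nat_lit 1) (.n (nat_lit 115) (nat_lit 2) (.p (nat_lit 116) (nat_lit 1) (.n (nat_lit 117) (nat_lit 1) (.n (nat_lit 118) (nat_lit 1) (.n (nat_lit 120) (nat_lit 1) (.p (nat_lit 127) (nat_lit 2) (.n (nat_lit 132) (nat_lit 1) (.n (nat_lit 133) (nat_lit 1) (.p (nat_lit 136) (nat_lit 2) (.p (nat_lit 141) (nat_lit 1) (.n (nat_lit 147) (nat_lit 1) (.p (nat_lit 149) (nat_lit 1) (.p (nat_lit 173) (nat_lit 1) (.n (nat_lit 184) (nat_lit 1) (.p (nat_lit 186) (nat_lit 1) (.n (nat_lit 188) (nat_lit 1) (.p (nat_lit 196) (nat_lit 1) (.p (nat_lit 202) (nat_lit 1) (.n (nat_lit 207) (nat_lit 1) (.n (nat_lit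 210) (nat_lit 1) (.p (nat_lit 211) (nat_lit 1) (.n (nat_lit 213) (nat_lit 2) (.p (nat_lit 214) (nat_lit 2) (.n (nat_lit 215) (nat_lit 1) (.n (nat_lit 216) (nat_lit 3) (.p (nat_lit 217) (nat_lit 3) (.n (nat_lit 220) (nat_lit 1) (.n (nat_lit 221) (nat_lit 1) (.p (nat_lit 222) (nat_lit 1) (.n (nat_lit 224) (nat_lit 4) .z)))))))))))))))))))))))))))))))))))))))))))))))))))))))))))) (.u (nat_lit 2) (.n (nat_lit 226) (nat_lit 5) (.n (nat_lit 227) (nat_lit 2) (.n (nat_lit 228) (nat_lit 1) (.p (nat_lit 229) (nat_lit 8) (.p (nat_lit 230) (nat_lit 6) (.n (nat_lit 231) (nat_lit 2) (.n (nat_lit 232) (nat_lit 2) (.p (nat_lit 233) (nat_lit 1) (.p (nat_lit 234) (nat_lit 8) (.n (nat_lit 235) (nat_lit 3) (.p (nat_lit 236) (nat_lit 2) (.p (nat_lit 237) (nat_lit 2) (.n (nat_lit 238) (nat_lit 1) (.n (nat_lit 239) (nat_lit 3) (.n (nat_lit 240) (nat_lit 3) (.p (nat_lit 241) (nat_lit 2) (.n (nat_lit 242) (nat_lit 1) (.n (nat_lit 243)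 (nat_lit 2) (.n (nat_lit 244) (nat_lit 1) (.n (nat_lit 245) (nat_lit 1) (.n (nat_lit 246) (nat_lit 2) (.p (nat_lit 247) (nat_lit 2) (.n (nat_lit 248) (nat_lit 2) (.p (nat_lit 250) (nat_lit 1) (.p (nat_lit 251) (nat_lit 2) (.p (nat_lit 252) (nat_lit 2) (.p (nat_lit 253) (nat_lit 1) (.p (nat_lit 256) (nat_lit 1) (.n (nat_lit 257) (nat_lit 2) (.n (nat_lit 258) (nat_lit 2) (.n (nat_lit 259) (nat_lit 2) (.n (nat_lit 260) (nat_lit 2) (.n (nat_lit 261) (nat_lit 2) (.p (nat_lit 263) (nat_lit 2) (.p (nat_lit 264) (nat_lit 1) (.p (nat_lit 265) (nat_lit 1) (.n (nat_lit 271) (nat_lit 1) (.p (nat_lit 272) (nat_lit 1) (.n (nat_lit 273) (nat_lit 1) (.p (nat_lit 276) (nat_lit 1) (.n (nat_lit 277) (nat_lit 3) (.n (nat_lit 278) (nat_lit 1) (.p (nat_lit 279) (nat_lit 2) (.p (nat_lit 280) (nat_lit 2) (.n (nat_lit 281) (nat_lit 1) (.p (nat_lit 284) (nat_lit 2) (.n (nat_lit 285) (nat_lit 1) (.n (nat_lit 288) (nat_lit 1) (.n (nat_lit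 292) (nat_lit 1) (.n (nat_lit 293) (nat_lit 7) (.n (nat_lit 294) (nat_lit 2) (.n (nat_lit 295) (nat_lit 1) (.p (nat_lit 296) (nat_lit 2) (.p (nat_lit 297) (nat_lit 5) (.p (nat_lit 299) (nat_lit 1) (.n (nat_lit 300) (nat_lit 2) (.p (nat_lit 302) (nat_lit 19) (.n (nat_lit 303) (nat_lit 12) (.n (nat_lit 304) (nat_lit 7) (.p (nat_lit 305) (nat_lit 9) .z)))))))))))))))))))))))))))))))))))))))))))))))))))))))))))) (.u (nat_lit 2) (.p (nat_lit 306) (nat_lit 1) (.p (nat_lit 307) (nat_lit 4) (.n (nat_lit 308) (nat_lit 7) (.n (nat_lit 309) (nat_lit 6) (.p (nat_lit 310) (nat_lit 6) (.p (nat_lit 311) (nat_lit 4) (.p (nat_lit 312) (nat_lit 5) (.n (nat_lit 313) (nat_lit 7) (.n (nat_lit 314) (nat_lit 4) (.n (nat_lit 315) (nat_lit 17) (.n (nat_lit 316) (nat_lit 27) (.p (nat_lit 317) (nat_lit 9) (.p (nat_lit 318) (nat_lit 15) (.p (nat_lit 319) (nat_lit 1) (.p (nat_lit 320) (nat_lit 3) (.p (nat_lit 321) (nat_lit 3) (.p (nat_lit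 322) (nat_lit 18) (.p (nat_lit 323) (nat_lit 4) (.n (nat_lit 324) (nat_lit 16) (.p (nat_lit 325) (nat_lit 15) (.p (nat_lit 326) (nat_lit 7) (.p (nat_lit 327) (nat_lit 3) (.n (nat_lit 328) (nat_lit 4) (.p (nat_lit 329) (nat_lit 4) (.p (nat_lit 330) (nat_lit 13) (.n (nat_lit 331) (nat_lit 7) (.n (nat_lit 332) (nat_lit 4) (.n (nat_lit 334) (nat_lit 2) (.p (nat_lit 335) (nat_lit 5) (.p (nat_lit 336) (nat_lit 2) (.n (nat_lit 337) (nat_lit 3) (.n (nat_lit 338) (nat_lit 1) (.p (nat_lit 339) (nat_lit 4) (.n (nat_lit 340) (nat_lit 1) (.p (nat_lit 341) (nat_lit 3) (.p (nat_lit 342) (nat_lit 10) (.n (nat_lit 343) (nat_lit 4) (.p (nat_lit 344) (nat_lit 9) (.n (nat_lit 345) (nat_lit 8) (.p (nat_lit 346) (nat_lit 9) (.n (nat_lit 347) (nat_lit 1) (.p (nat_lit 348) (nat_lit 8) (.n (nat_lit 349) (nat_lit 3) (.p (nat_lit 350) (nat_lit 9) (.p (nat_lit 351) (nat_lit 2) (.n (nat_lit 352) (nat_lit 3) (.n (nat_lit 353) (nat_lit 12)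 (.p (nat_lit 354) (nat_lit 3) (.n (nat_lit 356) (nat_lit 4) (.p (nat_lit 357) (nat_lit 7) (.n (nat_lit 358) (nat_lit 16) (.p (nat_lit 359) (nat_lit 2) (.n (nat_lit 360) (nat_lit 15) (.n (nat_lit 361) (nat_lit 8) (.p (nat_lit 362) (nat_lit 3) (.n (nat_lit 363) (nat_lit 10) (.n (nat_lit 364) (nat_lit 13) (.n (nat_lit 366) (nat_lit 8) (.n (nat_lit 367) (nat_lit 16) (.p (nat_lit 368) (nat_lit 20) .z)))))))))))))))))))))))))))))))))))))))))))))))))))))))))))) (.u (nat_lit 2) (.n (nat_lit 369) (nat_lit 11) (.p (nat_lit 370) (nat_lit 19) (.n (nat_lit 371) (nat_lit 10) (.p (nat_lit 372) (nat_lit 19) (.n (nat_lit 373) (nat_lit 22) (.n (nat_lit 374) (nat_lit 14) (.n (nat_lit 375) (nat_lit 7) (.n (nat_lit 376) (nat_lit 3) (.p (nat_lit 377) (nat_lit 7) (.p (nat_lit 379) (nat_lit 5) (.n (nat_lit 380) (nat_lit 11) (.n (nat_lit 381) (nat_lit 1) (.p (nat_lit 382) (nat_lit 10) (.n (nat_lit 383) (nat_lit 3) (.n (nat_lit 384) (nat_lit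 3) (.p (nat_lit 385) (nat_lit 3) (.p (nat_lit 386) (nat_lit 3) (.p (nat_lit 387) (nat_lit 4) (.p (nat_lit 388) (nat_lit 1) (.n (nat_lit 389) (nat_lit 1) (.n (nat_lit 392) (nat_lit 2) (.p (nat_lit 393) (nat_lit 1) (.p (nat_lit 394) (nat_lit 3) (.n (nat_lit 395) (nat_lit 5) (.n (nat_lit 396) (nat_lit 2) (.n (nat_lit 397) (nat_lit 3) (.p (nat_lit 398) (nat_lit 3) (.p (nat_lit 399) (nat_lit 2) (.p (nat_lit 400) (nat_lit 3) (.n (nat_lit 401) (nat_lit 5) .z)))))))))))))))))))))))))))))) .nil)))))))))))))))))))))))))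

noncomputable def dC2d_i27 : IL := (.s false (nat_lit 2) (nat_lit 102) (nat_lit 1) (nat_lit 0) (nat_lit 1) true (nat_lit 14) true (nat_lit 17) false (nat_lit 10) true (nat_lit 17) true (nat_lit 18) (.s true (nat_lit 3) (nat_lit 103) (nat_lit 1) (nat_lit 0) (nat_lit 1) true (nat_lit 14) true (nat_lit 17) false (nat_lit 10) true (nat_lit 17) true (nat_lit 18) (.s true (nat_lit 1) (nat_lit 101) (nat_lit 1) (nat_lit 1) (nat_lit 0) true (nat_lit 15) true (nat_lit 18) false (nat_lit 10) true (nat_lit 17) true (nat_lit 17) (.s true (nat_lit 3) (nat_lit 102) (nat_lit 1) (nat_lit 1) (nat_lit 0) true (nat_lit 15) true (nat_lit 18) false (nat_lit 10) true (nat_lit 17) true (nat_lit 17) (.s false (nat_lit 3) (nat_lit 103) (nat_lit 1) (nat_lit 1) (nat_lit 0) true (nat_lit 15) true (nat_lit 18) false (nat_lit 10) true (nat_lit 17) true (nat_lit 17) (.s true (nat_lit 2) (nat_lit 104) (nat_lit 1) (nat_lit 1) (nat_lit 0) true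 (nat_lit 15) true (nat_lit 18) false (nat_lit 10) true (nat_lit 17) true (nat_lit 17) (.e false (nat_lit 2) (nat_lit 208) (nat_lit 2) (nat_lit 16) (.e true (nat_lit 1) (nat_lit 209) (nat_lit 2) (nat_lit 16) (.e true (nat_lit 2) (nat_lit 234) (nat_lit 2) (nat_lit 16) (.e false (nat_lit 2) (nat_lit 252) (nat_lit 1) (nat_lit 17) (.e true (nat_lit 1) (nat_lit 254) (nat_lit 1) (nat_lit 17) (.e false (nat_lit 2) (nat_lit 258) (nat_lit 1) (nat_lit 17) (.e false (nat_lit 1) (nat_lit 265) (nat_lit 1) (nat_lit 17) (.e false (nat_lit 2) (nat_lit 267) (nat_lit 1) (nat_lit 17) (.e true (nat_lit 3) (nat_lit 269) (nat_lit 1) (nat_lit 17) (.e true (nat_lit 1) (nat_lit 270) (nat_lit 1) (nat_lit 17) (.e false (nat_lit 2) (nat_lit 271) (nat_lit 1) (nat_lit 17) (.e false (nat_lit 1) (nat_lit 272) (nat_lit 1) (nat_lit 17) (.e false (nat_lit 2) (nat_lit 273) (nat_lit 1) (nat_lit 17) (.e true (nat_lit 2) (nat_lit 276) (nat_lit 1) (nat_lit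 17) (.e true (nat_lit 2) (nat_lit 277) (nat_lit 1) (nat_lit 17) (.e false (nat_lit 2) (nat_lit 262) (nat_lit 1) (nat_lit 17) (.e true (nat_lit 1) (nat_lit 264) (nat_lit 1) (nat_lit 17) (.e false (nat_lit 2) (nat_lit 266) (nat_lit 1) (nat_lit 17) (.e false (nat_lit 2) (nat_lit 298) (nat_lit 0) (nat_lit 18) dC2d_i26)))))))))))))))))))))))))

noncomputable def dC2d_i28 : IL := (.s false (nat_lit 3) (nat_lit 79) (nat_lit 2) (nat_lit 0) (nat_lit 2) true (nat_lit 11) true (nat_lit 16) false (nat_lit 6) true (nat_lit 16) true (nat_lit 18) (.s true (nat_lit 1) (nat_lit 83) (nat_lit 1) (nat_lit 1) (nat_lit 2) true (nat_lit 12) true (nat_lit 16) false (nat_lit 7) true (nat_lit 17) true (nat_lit 17) (.s false (nat_lit 2) (nat_lit 88) (nat_lit 1) (nat_lit 1) (nat_lit 2) true (nat_lit 12) true (nat_lit 16) false (nat_lit 7) true (nat_lit 17) true (nat_lit 17) (.s true (nat_lit 3) (nat_lit 81) (nat_lit 1) (nat_lit 2) (nat_lit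 1) true (nat_lit 14) true (nat_lit 17) false (nat_lit 7) true (nat_lit 17) true (nat_lit 16) (.s false (nat_lit 1) (nat_lit 82) (nat_lit 1) (nat_lit 2) (nat_lit 1) true (nat_lit 14) true (nat_lit 17) false (nat_lit 7) true (nat_lit 17) true (nat_lit 16) (.s true (nat_lit 3) (nat_lit 83) (nat_lit 1) (nat_lit 2) (nat_lit 1) true (nat_lit 14) true (nat_lit 17) false (nat_lit 7) true (nat_lit 17) true (nat_lit 16) (.s true (nat_lit 2) (nat_lit 84) (nat_lit 1) (nat_lit 2) (nat_lit 1) true (nat_lit 14) true (nat_lit 17) false (nat_lit 7) true (nat_lit 17) true (nat_lit 16) (.s false (nat_lit 3) (nat_lit 88) (nat_lit 1) (nat_lit 2) (nat_lit 1) true (nat_lit 14) true (nat_lit 17) false (nat_lit 7) true (nat_lit 17) true (nat_lit 16) (.s true (nat_lit 2) (nat_lit 89) (nat_lit 1) (nat_lit 2) (nat_lit 1) true (nat_lit 14) true (nat_lit 17) false (nat_lit 7) true (nat_lit 17) true (nat_lit 16) (.s true (nat_lit 1) (nat_lit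 90) (nat_lit 1) (nat_lit 2) (nat_lit 1) true (nat_lit 14) true (nat_lit 17) false (nat_lit 7) true (nat_lit 17) true (nat_lit 16) (.s false (nat_lit 1) (nat_lit 83) (nat_lit 2) (nat_lit 1) (nat_lit 1) true (nat_lit 12) true (nat_lit 17) false (nat_lit 7) true (nat_lit 16) true (nat_lit 17) (.s true (nat_lit 3) (nat_lit 88) (nat_lit 2) (nat_lit 1) (nat_lit 1) true (nat_lit 12) true (nat_lit 17) false (nat_lit 7) true (nat_lit 16) true (nat_lit 17) (.s false (nat_lit 2) (nat_lit 89) (nat_lit 2) (nat_lit 1) (nat_lit 1) true (nat_lit 12) true (nat_lit 17) false (nat_lit 7) true (nat_lit 16) true (nat_lit 17) (.s true (nat_lit 3) (nat_lit 92) (nat_lit 0) (nat_lit 1) (nat_lit 2) true (nat_lit 13) true (nat_lit 16) false (nat_lit 8) true (nat_lit 18) true (nat_lit 17) (.s true (nat_lit 1) (nat_lit 93) (nat_lit 0) (nat_lit 1) (nat_lit 2) true (nat_lit 13) true (nat_lit 16) false (nat_lit 8) true (nat_lit 18) true (nat_lit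 17) (.s true (nat_lit 3) (nat_lit 96) (nat_lit 0) (nat_lit 1) (nat_lit 2) true (nat_lit 13) true (nat_lit 16) false (nat_lit 8) true (nat_lit 18) true (nat_lit 17) (.s true (nat_lit 3) (nat_lit 92) (nat_lit 1) (nat_lit 2) (nat_lit 0) true (nat_lit 15) true (nat_lit 18) false (nat_lit 8) true (nat_lit 17) true (nat_lit 16) (.s true (nat_lit 2) (nat_lit 93) (nat_lit 1) (nat_lit 2) (nat_lit 0) true (nat_lit 15) true (nat_lit 18) false (nat_lit 8) true (nat_lit 17) true (nat_lit 16) (.s false (nat_lit 1) (nat_lit 92) (nat_lit 2) (nat_lit 1) (nat_lit 0) true (nat_lit 13) true (nat_lit 18) false (nat_lit 8) true (nat_lit 16) true (nat_lit 17) (.s false (nat_lit 3) (nat_lit 99) (nat_lit 1) (nat_lit 1) (nat_lit 1) true (nat_lit 14) true (nat_lit 17) false (nat_lit 9) true (nat_lit 17) true (nat_lit 17) (.s true (nat_lit 1) (nat_lit 100) (nat_lit 1) (nat_lit 1) (nat_lit 1) true (nat_lit 14) true (nat_lit 17) false (nat_lit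 9) true (nat_lit 17) true (nat_lit 17) (.s true (nat_lit 2) (nat_lit 101) (nat_lit 0) (nat_lit 1) (nat_lit 1) true (nat_lit 15) true (nat_lit 17) false (nat_lit 10) true (nat_lit 18) true (nat_lit 17) (.s true (nat_lit 3) (nat_lit 102) (nat_lit 0) (nat_lit 1) (nat_lit 1) true (nat_lit 15) true (nat_lit 17) false (nat_lit 10) true (nat_lit 18) true (nat_lit 17) (.s true (nat_lit 2) (nat_lit 103) (nat_lit 0) (nat_lit 1) (nat_lit 1) true (nat_lit 15) true (nat_lit 17) false (nat_lit 10) true (nat_lit 18) true (nat_lit 17) (.s true (nat_lit 3) (nat_lit 104) (nat_lit 0) (nat_lit 1) (nat_lit 1) true (nat_lit 15) true (nat_lit 17) false (nat_lit 10) true (nat_lit 18) true (nat_lit 17) dC2d_i27)))))))))))))))))))))))))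

noncomputable def dC2d_i29 : IL := (.s true (nat_lit 1) (nat_lit 55) (nat_lit 2) (nat_lit 2) (nat_lit 2) true (nat_lit 11) true (nat_lit 16) false (nat_lit 4) true (nat_lit 16) true (nat_lit 16) (.s false (nat_lit 1) (nat_lit 56) (nat_lit 2) (nat_lit 2) (nat_lit 2) true (nat_lit 11) true (nat_lit 16) false (nat_lit 4) true (nat_lit 16) true (nat_lit 16) (.s true (nat_lit 3) (nat_lit 57) (nat_lit 2) (nat_lit 2) (nat_lit 2) true (nat_lit 11) true (nat_lit 16) false (nat_lit 4) true (nat_lit 16) true (nat_lit 16) (.s true (nat_lit 1) (nat_lit 59) (nat_lit 2) (nat_lit 2) (nat_lit 2) true (nat_lit 11) true (nat_lit 16) false (nat_lit 4) true (nat_lit 16) true (nat_lit 16) (.s true (nat_lit 3) (nat_lit 60) (nat_lit 1) (nat_lit 2) (nat_lit 2) true (nat_lit 12) true (nat_lit 16) false (nat_lit 5) true (nat_lit 17) true (nat_lit 16) (.s true (nat_lit 3) (nat_lit 61) (nat_lit 1) (nat_lit 2) (nat_lit 2) true (nat_lit 12)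 true (nat_lit 16) false (nat_lit 5) true (nat_lit 17) true (nat_lit 16) (.s false (nat_lit 1) (nat_lit 63) (nat_lit 1) (nat_lit 2) (nat_lit 2) true (nat_lit 12) true (nat_lit 16) false (nat_lit 5) true (nat_lit 17) true (nat_lit 16) (.s false (nat_lit 3) (nat_lit 64) (nat_lit 1) (nat_lit 2) (nat_lit 2) true (nat_lit 12) true (nat_lit 16) false (nat_lit 5) true (nat_lit 17) true (nat_lit 16) (.s true (nat_lit 2) (nat_lit 65) (nat_lit 1) (nat_lit 2) (nat_lit 2) true (nat_lit 12) true (nat_lit 16) false (nat_lit 5) true (nat_lit 17) true (nat_lit 16) (.s false (nat_lit 1) (nat_lit 66) (nat_lit 1) (nat_lit 2) (nat_lit 2) true (nat_lit 12) true (nat_lit 16) false (nat_lit 5) true (nat_lit 17) true (nat_lit 16) (.s false (nat_lit 2) (nat_lit 67) (nat_lit 1) (nat_lit 2) (nat_lit 2) true (nat_lit 12) true (nat_lit 16) false (nat_lit 5) true (nat_lit 17) true (nat_lit 16) (.s false (nat_lit 1) (nat_lit 71) (nat_lit 1)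 (nat_lit 2) (nat_lit 2) true (nat_lit 12) true (nat_lit 16) false (nat_lit 5) true (nat_lit 17) true (nat_lit 16) (.s false (nat_lit 1) (nat_lit 73) (nat_lit 1) (nat_lit 2) (nat_lit 2) true (nat_lit 12) true (nat_lit 16) false (nat_lit 5) true (nat_lit 17) true (nat_lit 16) (.s true (nat_lit 2) (nat_lit 62) (nat_lit 2) (nat_lit 1) (nat_lit 2) true (nat_lit 11) true (nat_lit 16) false (nat_lit 5) true (nat_lit 16) true (nat_lit 17) (.s true (nat_lit 1) (nat_lit 64) (nat_lit 2) (nat_lit 1) (nat_lit 2) true (nat_lit 11) true (nat_lit 16) false (nat_lit 5) true (nat_lit 16) true (nat_lit 17) (.s false (nat_lit 2) (nat_lit 65) (nat_lit 2) (nat_lit 1) (nat_lit 2) true (nat_lit 11) true (nat_lit 16) false (nat_lit 5) true (nat_lit 16) true (nat_lit 17) (.s true (nat_lit 3) (nat_lit 67) (nat_lit 2) (nat_lit 1) (nat_lit 2) true (nat_lit 11) true (nat_lit 16) false (nat_lit 5) true (nat_lit 16) true (nat_lit 17) (.s false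 (nat_lit 1) (nat_lit 60) (nat_lit 2) (nat_lit 2) (nat_lit 1) true (nat_lit 12) true (nat_lit 17) false (nat_lit 5) true (nat_lit 16) true (nat_lit 16) (.s true (nat_lit 3) (nat_lit 61) (nat_lit 2) (nat_lit 2) (nat_lit 1) true (nat_lit 12) true (nat_lit 17) false (nat_lit 5) true (nat_lit 16) true (nat_lit 16) (.s true (nat_lit 1) (nat_lit 63) (nat_lit 2) (nat_lit 2) (nat_lit 1) true (nat_lit 12) true (nat_lit 17) false (nat_lit 5) true (nat_lit 16) true (nat_lit 16) (.s false (nat_lit 3) (nat_lit 65) (nat_lit 2) (nat_lit 2) (nat_lit 1) true (nat_lit 12) true (nat_lit 17) false (nat_lit 5) true (nat_lit 16) true (nat_lit 16) (.s true (nat_lit 3) (nat_lit 68) (nat_lit 2) (nat_lit 2) (nat_lit 1) true (nat_lit 12) true (nat_lit 17) false (nat_lit 5) true (nat_lit 16) true (nat_lit 16) (.s true (nat_lit 2) (nat_lit 73) (nat_lit 2) (nat_lit 2) (nat_lit 1) true (nat_lit 12) true (nat_lit 17) false (nat_lit 5) true (nat_lit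 16) true (nat_lit 16) (.s false (nat_lit 3) (nat_lit 74) (nat_lit 0) (nat_lit 2) (nat_lit 2) true (nat_lit 13) true (nat_lit 16) false (nat_lit 6) true (nat_lit 18) true (nat_lit 16) (.s false (nat_lit 1) (nat_lit 79) (nat_lit 0) (nat_lit 2) (nat_lit 2) true (nat_lit 13) true (nat_lit 16) false (nat_lit 6) true (nat_lit 18) true (nat_lit 16) dC2d_i28)))))))))))))))))))))))))

noncomputable def dC2d_i30 : IL := (.s false (nat_lit 1) (nat_lit 37) (nat_lit 2) (nat_lit 4) (nat_lit 2) true (nat_lit 11) true (nat_lit 16) true (nat_lit 0) true (nat_lit 16) true (nat_lit 14) (.s false (nat_lit 1) (nat_lit 34) (nat_lit 2) (nat_lit 6) (nat_lit 1) true (nat_lit 12) true (nat_lit 17) true (nat_lit 0) true (nat_lit 16) true (nat_lit 12) (.s false (nat_lit 3) (nat_lit 35) (nat_lit 4) (nat_lit 2) (nat_lit 2) true (nat_lit 7) true (nat_lit 16) true (nat_lit 0) true (nat_lit 14) true (nat_lit 16) (.s false (nat_lit 3) (nat_lit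 38) (nat_lit 4) (nat_lit 2) (nat_lit 2) true (nat_lit 7) true (nat_lit 16) true (nat_lit 0) true (nat_lit 14) true (nat_lit 16) (.s true (nat_lit 2) (nat_lit 34) (nat_lit 6) (nat_lit 2) (nat_lit 1) true (nat_lit 7) true (nat_lit 17) true (nat_lit 0) true (nat_lit 12) true (nat_lit 16) (.s false (nat_lit 2) (nat_lit 33) (nat_lit 7) (nat_lit 1) (nat_lit 1) true (nat_lit 5) true (nat_lit 17) true (nat_lit 0) true (nat_lit 11) true (nat_lit 17) (.s false (nat_lit 2) (nat_lit 34) (nat_lit 7) (nat_lit 1) (nat_lit 1) true (nat_lit 5) true (nat_lit 17) true (nat_lit 0) true (nat_lit 11) true (nat_lit 17) (.s false (nat_lit 1) (nat_lit 39) (nat_lit 0) (nat_lit 7) (nat_lit 1) true (nat_lit 15) true (nat_lit 17) false (nat_lit 0) true (nat_lit 18) true (nat_lit 11) (.s true (nat_lit 3) (nat_lit 40) (nat_lit 1) (nat_lit 5) (nat_lit 2) true (nat_lit 12) true (nat_lit 16) false (nat_lit 0) true (nat_lit 17) true (nat_lit 13)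 (.s false (nat_lit 2) (nat_lit 41) (nat_lit 2) (nat_lit 2) (nat_lit 3) true (nat_lit 8) true (nat_lit 15) false (nat_lit 0) true (nat_lit 16) true (nat_lit 16) (.s true (nat_lit 3) (nat_lit 39) (nat_lit 2) (nat_lit 3) (nat_lit 2) true (nat_lit 11) true (nat_lit 16) false (nat_lit 0) true (nat_lit 16) true (nat_lit 15) (.s true (nat_lit 3) (nat_lit 40) (nat_lit 6) (nat_lit 2) (nat_lit 0) true (nat_lit 8) true (nat_lit 18) false (nat_lit 0) true (nat_lit 12) true (nat_lit 16) (.s false (nat_lit 2) (nat_lit 44) (nat_lit 1) (nat_lit 6) (nat_lit 1) true (nat_lit 14) true (nat_lit 17) false (nat_lit 1) true (nat_lit 17) true (nat_lit 12) (.s false (nat_lit 3) (nat_lit 47) (nat_lit 0) (nat_lit 4) (nat_lit 2) true (nat_lit 13) true (nat_lit 16) false (nat_lit 2) true (nat_lit 18) true (nat_lit 14) (.s false (nat_lit 3) (nat_lit 47) (nat_lit 1) (nat_lit 2) (nat_lit 3) true (nat_lit 10) true (nat_lit 15) false (nat_lit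 2) true (nat_lit 17) true (nat_lit 16) (.s true (nat_lit 1) (nat_lit 46) (nat_lit 1) (nat_lit 3) (nat_lit 2) true (nat_lit 12) true (nat_lit 16) false (nat_lit 2) true (nat_lit 17) true (nat_lit 15) (.s false (nat_lit 3) (nat_lit 45) (nat_lit 3) (nat_lit 1) (nat_lit 2) true (nat_lit 8) true (nat_lit 16) false (nat_lit 2) true (nat_lit 15) true (nat_lit 17) (.s true (nat_lit 1) (nat_lit 47) (nat_lit 5) (nat_lit 1) (nat_lit 1) true (nat_lit 8) true (nat_lit 17) false (nat_lit 2) true (nat_lit 13) true (nat_lit 17) (.s false (nat_lit 2) (nat_lit 48) (nat_lit 1) (nat_lit 0) (nat_lit 4) true (nat_lit 9) true (nat_lit 14) false (nat_lit 3) true (nat_lit 17) true (nat_lit 18) (.s true (nat_lit 2) (nat_lit 48) (nat_lit 1) (nat_lit 1) (nat_lit 3) true (nat_lit 10) true (nat_lit 15) false (nat_lit 3) true (nat_lit 17) true (nat_lit 17) (.s false (nat_lit 1) (nat_lit 48) (nat_lit 1) (nat_lit 3) (nat_lit 1) true (nat_lit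 14) true (nat_lit 17) false (nat_lit 3) true (nat_lit 17) true (nat_lit 15) (.s false (nat_lit 1) (nat_lit 48) (nat_lit 3) (nat_lit 1) (nat_lit 1) true (nat_lit 10) true (nat_lit 17) false (nat_lit 3) true (nat_lit 15) true (nat_lit 17) (.s true (nat_lit 2) (nat_lit 48) (nat_lit 4) (nat_lit 0) (nat_lit 1) true (nat_lit 9) true (nat_lit 17) false (nat_lit 3) true (nat_lit 14) true (nat_lit 18) (.s true (nat_lit 2) (nat_lit 53) (nat_lit 2) (nat_lit 2) (nat_lit 2) true (nat_lit 11) true (nat_lit 16) false (nat_lit 4) true (nat_lit 16) true (nat_lit 16) (.s false (nat_lit 3) (nat_lit 54) (nat_lit 2) (nat_lit 2) (nat_lit 2) true (nat_lit 11) true (nat_lit 16) false (nat_lit 4) true (nat_lit 16) true (nat_lit 16) dC2d_i29)))))))))))))))))))))))))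

noncomputable def dC2d_i31 : IL := (.s true (nat_lit 3) (nat_lit 27) (nat_lit 2) (nat_lit 2) (nat_lit 6) true (nat_lit 5) true (nat_lit 12) true (nat_lit 2) true (nat_lit 16) true (nat_lit 16) (.s false (nat_lit 3) (nat_lit 24) (nat_lit 2) (nat_lit 6) (nat_lit 2) true (nat_lit 11) true (nat_lit 16) true (nat_lit 2) true (nat_lit 16) true (nat_lit 12) (.s false (nat_lit 3) (nat_lit 26) (nat_lit 2) (nat_lit 6) (nat_lit 2) true (nat_lit 11) true (nat_lit 16) true (nat_lit 2) true (nat_lit 16) true (nat_lit 12) (.s false (nat_lit 3) (nat_lit 26) (nat_lit 2) (nat_lit 7) (nat_lit 1) true (nat_lit 12) true (nat_lit 17) true (nat_lit 2) true (nat_lit 16) true (nat_lit 11) (.s false (nat_lit 3) (nat_lit 25) (nat_lit 6) (nat_lit 2) (nat_lit 2) true (nat_lit 5) true (nat_lit 16) true (nat_lit 2) true (nat_lit 12) true (nat_lit 16) (.s false (nat_lit 1) (nat_lit 27) (nat_lit 6) (nat_lit 2) (nat_lit 2) true (nat_lit 5) true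 (nat_lit 16) true (nat_lit 2) true (nat_lit 12) true (nat_lit 16) (.s true (nat_lit 1) (nat_lit 29) (nat_lit 6) (nat_lit 2) (nat_lit 2) true (nat_lit 5) true (nat_lit 16) true (nat_lit 2) true (nat_lit 12) true (nat_lit 16) (.s false (nat_lit 3) (nat_lit 26) (nat_lit 7) (nat_lit 1) (nat_lit 2) true (nat_lit 4) true (nat_lit 16) true (nat_lit 2) true (nat_lit 11) true (nat_lit 17) (.s true (nat_lit 2) (nat_lit 25) (nat_lit 7) (nat_lit 2) (nat_lit 1) true (nat_lit 5) true (nat_lit 17) true (nat_lit 2) true (nat_lit 11) true (nat_lit 16) (.s false (nat_lit 3) (nat_lit 30) (nat_lit 2) (nat_lit 2) (nat_lit 5) true (nat_lit 6) true (nat_lit 13) true (nat_lit 1) true (nat_lit 16) true (nat_lit 16) (.s true (nat_lit 1) (nat_lit 30) (nat_lit 2) (nat_lit 5) (nat_lit 2) true (nat_lit 11) true (nat_lit 16) true (nat_lit 1) true (nat_lit 16) true (nat_lit 13) (.s false (nat_lit 2) (nat_lit 30) (nat_lit 5) (nat_lit 2) (nat_lit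 2) true (nat_lit 6) true (nat_lit 16) true (nat_lit 1) true (nat_lit 13) true (nat_lit 16) (.s true (nat_lit 1) (nat_lit 33) (nat_lit 1) (nat_lit 1) (nat_lit 7) true (nat_lit 5) true (nat_lit 11) true (nat_lit 0) true (nat_lit 17) true (nat_lit 17) (.s true (nat_lit 2) (nat_lit 34) (nat_lit 1) (nat_lit 1) (nat_lit 7) true (nat_lit 5) true (nat_lit 11) true (nat_lit 0) true (nat_lit 17) true (nat_lit 17) (.s true (nat_lit 1) (nat_lit 35) (nat_lit 1) (nat_lit 2) (nat_lit 6) true (nat_lit 7) true (nat_lit 12) true (nat_lit 0) true (nat_lit 17) true (nat_lit 16) (.s false (nat_lit 3) (nat_lit 37) (nat_lit 1) (nat_lit 2) (nat_lit 6) true (nat_lit 7) true (nat_lit 12) true (nat_lit 0) true (nat_lit 17) true (nat_lit 16) (.s false (nat_lit 3) (nat_lit 33) (nat_lit 1) (nat_lit 6) (nat_lit 2) true (nat_lit 12) true (nat_lit 16) true (nat_lit 0) true (nat_lit 17) true (nat_lit 12) (.s false (nat_lit 3) (nat_lit 33) (nat_lit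 1) (nat_lit 7) (nat_lit 1) true (nat_lit 14) true (nat_lit 17) true (nat_lit 0) true (nat_lit 17) true (nat_lit 11) (.s true (nat_lit 1) (nat_lit 34) (nat_lit 1) (nat_lit 7) (nat_lit 1) true (nat_lit 14) true (nat_lit 17) true (nat_lit 0) true (nat_lit 17) true (nat_lit 11) (.s true (nat_lit 3) (nat_lit 38) (nat_lit 1) (nat_lit 7) (nat_lit 1) true (nat_lit 14) true (nat_lit 17) true (nat_lit 0) true (nat_lit 17) true (nat_lit 11) (.s false (nat_lit 1) (nat_lit 34) (nat_lit 2) (nat_lit 1) (nat_lit 6) true (nat_lit 5) true (nat_lit 12) true (nat_lit 0) true (nat_lit 16) true (nat_lit 17) (.s false (nat_lit 1) (nat_lit 33) (nat_lit 2) (nat_lit 2) (nat_lit 4) true (nat_lit 7) true (nat_lit 14) true (nat_lit 0) true (nat_lit 16) true (nat_lit 16) (.s false (nat_lit 1) (nat_lit 36) (nat_lit 2) (nat_lit 2) (nat_lit 4) true (nat_lit 7) true (nat_lit 14) true (nat_lit 0) true (nat_lit 16) true (nat_lit 16) (.s true (nat_lit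 3) (nat_lit 38) (nat_lit 2) (nat_lit 2) (nat_lit 4) true (nat_lit 7) true (nat_lit 14) true (nat_lit 0) true (nat_lit 16) true (nat_lit 16) (.s false (nat_lit 3) (nat_lit 33) (nat_lit 2) (nat_lit 4) (nat_lit 2) true (nat_lit 11) true (nat_lit 16) true (nat_lit 0) true (nat_lit 16) true (nat_lit 14) dC2d_i30)))))))))))))))))))))))))

noncomputable def dC2d_i32 : IL := (.s true (nat_lit 3) (nat_lit 20) (nat_lit 9) (nat_lit 1) (nat_lit 2) true (nat_lit 2) true (nat_lit 16) true (nat_lit 4) true (nat_lit 10) true (nat_lit 17) (.s false (nat_lit 1) (nat_lit 20) (nat_lit 8) (nat_lit 2) (nat_lit 1) true (nat_lit 3) true (nat_lit 17) true (nat_lit 4) true (nat_lit 10) true (nat_lit 16) (.s false (nat_lit 3) (nat_lit 20) (nat_lit 12) (nat_lit 1) (nat_lit 1) true (nat_lit 2) true (nat_lit 17) true (nat_lit 4) true (nat_lit 8) true (nat_lit 17) (.s true (nat_lit 3) (nat_lit 20) (nat_lit 14) (nat_lit 0) (nat_lit 1) true (nat_lit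 1) true (nat_lit 17) true (nat_lit 4) true (nat_lit 7) true (nat_lit 18) (.s false (nat_lit 2) (nat_lit 20) (nat_lit 15) (nat_lit 0) (nat_lit 1) true (nat_lit 1) true (nat_lit 17) true (nat_lit 4) true (nat_lit 7) true (nat_lit 18) (.s false (nat_lit 2) (nat_lit 20) (nat_lit 15) (nat_lit 1) (nat_lit 0) true (nat_lit 2) true (nat_lit 18) true (nat_lit 4) true (nat_lit 7) true (nat_lit 17) (.s true (nat_lit 3) (nat_lit 21) (nat_lit 2) (nat_lit 2) (nat_lit 7) true (nat_lit 4) true (nat_lit 11) true (nat_lit 3) true (nat_lit 16) true (nat_lit 16) (.s true (nat_lit 2) (nat_lit 22) (nat_lit 2) (nat_lit 2) (nat_lit 7) true (nat_lit 4) true (nat_lit 11) true (nat_lit 3) true (nat_lit 16) true (nat_lit 16) (.s false (nat_lit 1) (nat_lit 21) (nat_lit 2) (nat_lit 7) (nat_lit 2) true (nat_lit 11) true (nat_lit 16) true (nat_lit 3) true (nat_lit 16) true (nat_lit 11) (.s true (nat_lit 1) (nat_lit 22) (nat_lit 2) (nat_lit 7)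 (nat_lit 2) true (nat_lit 11) true (nat_lit 16) true (nat_lit 3) true (nat_lit 16) true (nat_lit 11) (.s true (nat_lit 2) (nat_lit 23) (nat_lit 2) (nat_lit 7) (nat_lit 2) true (nat_lit 11) true (nat_lit 16) true (nat_lit 3) true (nat_lit 16) true (nat_lit 11) (.s false (nat_lit 1) (nat_lit 21) (nat_lit 7) (nat_lit 2) (nat_lit 2) true (nat_lit 4) true (nat_lit 16) true (nat_lit 3) true (nat_lit 11) true (nat_lit 16) (.s false (nat_lit 1) (nat_lit 22) (nat_lit 7) (nat_lit 2) (nat_lit 2) true (nat_lit 4) true (nat_lit 16) true (nat_lit 3) true (nat_lit 11) true (nat_lit 16) (.s false (nat_lit 2) (nat_lit 23) (nat_lit 7) (nat_lit 2) (nat_lit 2) true (nat_lit 4) true (nat_lit 16) true (nat_lit 3) true (nat_lit 11) true (nat_lit 16) (.s true (nat_lit 1) (nat_lit 24) (nat_lit 1) (nat_lit 2) (nat_lit 7) true (nat_lit 5) true (nat_lit 11) true (nat_lit 2) true (nat_lit 17) true (nat_lit 16) (.s true (nat_lit 2) (nat_lit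 25) (nat_lit 1) (nat_lit 2) (nat_lit 7) true (nat_lit 5) true (nat_lit 11) true (nat_lit 2) true (nat_lit 17) true (nat_lit 16) (.s true (nat_lit 2) (nat_lit 27) (nat_lit 1) (nat_lit 2) (nat_lit 7) true (nat_lit 5) true (nat_lit 11) true (nat_lit 2) true (nat_lit 17) true (nat_lit 16) (.s false (nat_lit 2) (nat_lit 24) (nat_lit 1) (nat_lit 7) (nat_lit 2) true (nat_lit 12) true (nat_lit 16) true (nat_lit 2) true (nat_lit 17) true (nat_lit 11) (.s true (nat_lit 1) (nat_lit 25) (nat_lit 1) (nat_lit 7) (nat_lit 2) true (nat_lit 12) true (nat_lit 16) true (nat_lit 2) true (nat_lit 17) true (nat_lit 11) (.s false (nat_lit 1) (nat_lit 26) (nat_lit 1) (nat_lit 7) (nat_lit 2) true (nat_lit 12) true (nat_lit 16) true (nat_lit 2) true (nat_lit 17) true (nat_lit 11) (.s true (nat_lit 1) (nat_lit 27) (nat_lit 1) (nat_lit 7) (nat_lit 2) true (nat_lit 12) true (nat_lit 16) true (nat_lit 2) true (nat_lit 17) true (nat_lit 11)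 (.s true (nat_lit 3) (nat_lit 24) (nat_lit 2) (nat_lit 1) (nat_lit 7) true (nat_lit 4) true (nat_lit 11) true (nat_lit 2) true (nat_lit 16) true (nat_lit 17) (.s false (nat_lit 1) (nat_lit 25) (nat_lit 2) (nat_lit 1) (nat_lit 7) true (nat_lit 4) true (nat_lit 11) true (nat_lit 2) true (nat_lit 16) true (nat_lit 17) (.s true (nat_lit 2) (nat_lit 24) (nat_lit 2) (nat_lit 2) (nat_lit 6) true (nat_lit 5) true (nat_lit 12) true (nat_lit 2) true (nat_lit 16) true (nat_lit 16) (.s true (nat_lit 1) (nat_lit 25) (nat_lit 2) (nat_lit 2) (nat_lit 6) true (nat_lit 5) true (nat_lit 12) true (nat_lit 2) true (nat_lit 16) true (nat_lit 16) dC2d_i31)))))))))))))))))))))))))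

noncomputable def dC2d_i33 : IL := (.s false (nat_lit 3) (nat_lit 19) (nat_lit 2) (nat_lit 6) (nat_lit 3) true (nat_lit 8) true (nat_lit 15) true (nat_lit 5) true (nat_lit 16) true (nat_lit 12) (.s true (nat_lit 1) (nat_lit 18) (nat_lit 2) (nat_lit 9) (nat_lit 2) true (nat_lit 11) true (nat_lit 16) true (nat_lit 5) true (nat_lit 16) true (nat_lit 10) (.s true (nat_lit 3) (nat_lit 18) (nat_lit 2) (nat_lit 11) (nat_lit 1) true (nat_lit 12) true (nat_lit 17) true (nat_lit 5) true (nat_lit 16) true (nat_lit 8) (.s false (nat_lit 2) (nat_lit 18) (nat_lit 4) (nat_lit 7) (nat_lit 0) true (nat_lit 10) true (nat_lit 18) true (nat_lit 5) true (nat_lit 14) true (nat_lit 11) (.s false (nat_lit 1) (nat_lit 18) (nat_lit 6) (nat_lit 2) (nat_lit 3) true (nat_lit 2) true (nat_lit 15) true (nat_lit 5) true (nat_lit 12) true (nat_lit 16) (.s true (nat_lit 1) (nat_lit 18) (nat_lit 7) (nat_lit 1) (nat_lit 3) true (nat_lit 0) true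 (nat_lit 15) true (nat_lit 5) true (nat_lit 11) true (nat_lit 17) (.s true (nat_lit 1) (nat_lit 18) (nat_lit 8) (nat_lit 2) (nat_lit 2) true (nat_lit 2) true (nat_lit 16) true (nat_lit 5) true (nat_lit 10) true (nat_lit 16) (.s true (nat_lit 3) (nat_lit 18) (nat_lit 9) (nat_lit 2) (nat_lit 2) true (nat_lit 2) true (nat_lit 16) true (nat_lit 5) true (nat_lit 10) true (nat_lit 16) (.s false (nat_lit 1) (nat_lit 19) (nat_lit 9) (nat_lit 2) (nat_lit 2) true (nat_lit 2) true (nat_lit 16) true (nat_lit 5) true (nat_lit 10) true (nat_lit 16) (.s false (nat_lit 2) (nat_lit 18) (nat_lit 11) (nat_lit 1) (nat_lit 2) true (nat_lit 0) true (nat_lit 16) true (nat_lit 5) true (nat_lit 8) true (nat_lit 17) (.s false (nat_lit 3) (nat_lit 18) (nat_lit 11) (nat_lit 2) (nat_lit 1) true (nat_lit 2) true (nat_lit 17) true (nat_lit 5) true (nat_lit 8) true (nat_lit 16) (.s false (nat_lit 2) (nat_lit 19) (nat_lit 11) (nat_lit 2) (nat_lit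 1) true (nat_lit 2) true (nat_lit 17) true (nat_lit 5) true (nat_lit 8) true (nat_lit 16) (.s false (nat_lit 2) (nat_lit 20) (nat_lit 0) (nat_lit 1) (nat_lit 15) true (nat_lit 2) true (nat_lit 7) true (nat_lit 4) true (nat_lit 18) true (nat_lit 17) (.s true (nat_lit 3) (nat_lit 20) (nat_lit 0) (nat_lit 14) (nat_lit 1) true (nat_lit 15) true (nat_lit 17) true (nat_lit 4) true (nat_lit 18) true (nat_lit 7) (.s false (nat_lit 1) (nat_lit 20) (nat_lit 0) (nat_lit 15) (nat_lit 1) true (nat_lit 15) true (nat_lit 17) true (nat_lit 4) true (nat_lit 18) true (nat_lit 7) (.s false (nat_lit 3) (nat_lit 20) (nat_lit 1) (nat_lit 0) (nat_lit 14) true (nat_lit 1) true (nat_lit 7) true (nat_lit 4) true (nat_lit 17) true (nat_lit 18) (.s false (nat_lit 3) (nat_lit 20) (nat_lit 1) (nat_lit 1) (nat_lit 12) true (nat_lit 2) true (nat_lit 8) true (nat_lit 4) true (nat_lit 17) true (nat_lit 17) (.s true (nat_lit 3) (nat_lit 20) (nat_lit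 1) (nat_lit 2) (nat_lit 8) true (nat_lit 3) true (nat_lit 10) true (nat_lit 4) true (nat_lit 17) true (nat_lit 16) (.s true (nat_lit 3) (nat_lit 20) (nat_lit 1) (nat_lit 3) (nat_lit 6) true (nat_lit 7) true (nat_lit 12) true (nat_lit 4) true (nat_lit 17) true (nat_lit 15) (.s true (nat_lit 1) (nat_lit 20) (nat_lit 1) (nat_lit 8) (nat_lit 2) true (nat_lit 12) true (nat_lit 16) true (nat_lit 4) true (nat_lit 17) true (nat_lit 10) (.s true (nat_lit 2) (nat_lit 20) (nat_lit 1) (nat_lit 12) (nat_lit 1) true (nat_lit 14) true (nat_lit 17) true (nat_lit 4) true (nat_lit 17) true (nat_lit 8) (.s false (nat_lit 2) (nat_lit 20) (nat_lit 1) (nat_lit 15) (nat_lit 0) true (nat_lit 15) true (nat_lit 18) true (nat_lit 4) true (nat_lit 17) true (nat_lit 7) (.s true (nat_lit 3) (nat_lit 20) (nat_lit 2) (nat_lit 0) (nat_lit 10) true (nat_lit 1) true (nat_lit 9) true (nat_lit 4) true (nat_lit 16) true (nat_lit 18) (.s true (nat_lit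 1) (nat_lit 20) (nat_lit 2) (nat_lit 1) (nat_lit 8) true (nat_lit 2) true (nat_lit 10) true (nat_lit 4) true (nat_lit 16) true (nat_lit 17) (.s true (nat_lit 3) (nat_lit 20) (nat_lit 5) (nat_lit 4) (nat_lit 1) true (nat_lit 8) true (nat_lit 17) true (nat_lit 4) true (nat_lit 13) true (nat_lit 14) dC2d_i32)))))))))))))))))))))))))

noncomputable def dC2d_i34 : IL := (.s true (nat_lit 2) (nat_lit 8) (nat_lit 7) (nat_lit 7) (nat_lit 1) true (nat_lit 5) true (nat_lit 17) true (nat_lit 10) true (nat_lit 11) true (nat_lit 11) (.s false (nat_lit 2) (nat_lit 10) (nat_lit 7) (nat_lit 0) (nat_lit 7) false (nat_lit 3) true (nat_lit 11) true (nat_lit 9) true (nat_lit 11) true (nat_lit 18) (.s false (nat_lit 1) (nat_lit 10) (nat_lit 7) (nat_lit 5) (nat_lit 2) true (nat_lit 4) true (nat_lit 16) true (nat_lit 9) true (nat_lit 11) true (nat_lit 13) (.s true (nat_lit 3) (nat_lit 10) (nat_lit 7) (nat_lit 7) (nat_lit 0) true (nat_lit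 6) true (nat_lit 18) true (nat_lit 9) true (nat_lit 11) true (nat_lit 11) (.s true (nat_lit 1) (nat_lit 11) (nat_lit 1) (nat_lit 7) (nat_lit 6) true (nat_lit 7) true (nat_lit 12) true (nat_lit 8) true (nat_lit 17) true (nat_lit 11) (.s true (nat_lit 3) (nat_lit 13) (nat_lit 2) (nat_lit 4) (nat_lit 7) true (nat_lit 4) true (nat_lit 11) true (nat_lit 8) true (nat_lit 16) true (nat_lit 14) (.s true (nat_lit 1) (nat_lit 11) (nat_lit 2) (nat_lit 6) (nat_lit 6) true (nat_lit 5) true (nat_lit 12) true (nat_lit 8) true (nat_lit 16) true (nat_lit 12) (.s false (nat_lit 1) (nat_lit 13) (nat_lit 7) (nat_lit 4) (nat_lit 2) true (nat_lit 4) true (nat_lit 16) true (nat_lit 8) true (nat_lit 11) true (nat_lit 14) (.s true (nat_lit 1) (nat_lit 14) (nat_lit 2) (nat_lit 3) (nat_lit 7) true (nat_lit 4) true (nat_lit 11) true (nat_lit 7) true (nat_lit 16) true (nat_lit 15) (.s false (nat_lit 3) (nat_lit 14) (nat_lit 3) (nat_lit 7)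 (nat_lit 2) true (nat_lit 8) true (nat_lit 16) true (nat_lit 7) true (nat_lit 15) true (nat_lit 11) (.s true (nat_lit 1) (nat_lit 15) (nat_lit 7) (nat_lit 2) (nat_lit 3) true (nat_lit 0) true (nat_lit 15) true (nat_lit 7) true (nat_lit 11) true (nat_lit 16) (.s false (nat_lit 1) (nat_lit 14) (nat_lit 11) (nat_lit 2) (nat_lit 2) true (nat_lit 0) true (nat_lit 16) true (nat_lit 7) true (nat_lit 8) true (nat_lit 16) (.s false (nat_lit 3) (nat_lit 14) (nat_lit 13) (nat_lit 2) (nat_lit 2) true (nat_lit 0) true (nat_lit 16) true (nat_lit 7) true (nat_lit 8) true (nat_lit 16) (.s true (nat_lit 1) (nat_lit 16) (nat_lit 2) (nat_lit 2) (nat_lit 10) true (nat_lit 1) true (nat_lit 9) true (nat_lit 6) true (nat_lit 16) true (nat_lit 16) (.s false (nat_lit 3) (nat_lit 17) (nat_lit 2) (nat_lit 2) (nat_lit 10) true (nat_lit 1) true (nat_lit 9) true (nat_lit 6) true (nat_lit 16) true (nat_lit 16) (.s true (nat_lit 1) (nat_lit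 16) (nat_lit 2) (nat_lit 10) (nat_lit 2) true (nat_lit 11) true (nat_lit 16) true (nat_lit 6) true (nat_lit 16) true (nat_lit 9) (.s false (nat_lit 1) (nat_lit 16) (nat_lit 4) (nat_lit 1) (nat_lit 7) false (nat_lit 0) true (nat_lit 11) true (nat_lit 6) true (nat_lit 14) true (nat_lit 17) (.s true (nat_lit 2) (nat_lit 18) (nat_lit 1) (nat_lit 0) (nat_lit 18) false (nat_lit 0) true (nat_lit 5) true (nat_lit 5) true (nat_lit 17) true (nat_lit 18) (.s false (nat_lit 2) (nat_lit 18) (nat_lit 1) (nat_lit 2) (nat_lit 11) true (nat_lit 2) true (nat_lit 8) true (nat_lit 5) true (nat_lit 17) true (nat_lit 16) (.s true (nat_lit 3) (nat_lit 18) (nat_lit 1) (nat_lit 7) (nat_lit 3) true (nat_lit 10) true (nat_lit 15) true (nat_lit 5) true (nat_lit 17) true (nat_lit 11) (.s true (nat_lit 3) (nat_lit 19) (nat_lit 1) (nat_lit 12) (nat_lit 2) true (nat_lit 12) true (nat_lit 16) true (nat_lit 5) true (nat_lit 17) true (nat_lit 8)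 (.s false (nat_lit 3) (nat_lit 19) (nat_lit 2) (nat_lit 1) (nat_lit 12) true (nat_lit 0) true (nat_lit 8) true (nat_lit 5) true (nat_lit 16) true (nat_lit 17) (.s false (nat_lit 2) (nat_lit 18) (nat_lit 2) (nat_lit 2) (nat_lit 8) true (nat_lit 2) true (nat_lit 10) true (nat_lit 5) true (nat_lit 16) true (nat_lit 16) (.s false (nat_lit 2) (nat_lit 18) (nat_lit 2) (nat_lit 3) (nat_lit 6) true (nat_lit 5) true (nat_lit 12) true (nat_lit 5) true (nat_lit 16) true (nat_lit 15) (.s true (nat_lit 2) (nat_lit 19) (nat_lit 2) (nat_lit 3) (nat_lit 6) true (nat_lit 5) true (nat_lit 12) true (nat_lit 5) true (nat_lit 16) true (nat_lit 15) dC2d_i33)))))))))))))))))))))))))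

noncomputable def dC2d_c292 : Cm := .mk (nat_lit 561) (nat_lit 292) (nat_lit 252) (nat_lit 37) (.c (nat_lit 24) (nat_lit 6) (nat_lit 20) (nat_lit 1) (nat_lit 37) (.c (nat_lit 33) (nat_lit 6) (nat_lit 18) (nat_lit 2) (nat_lit 43) (.c (nat_lit 39) (nat_lit 3) (nat_lit 16) (nat_lit 2) (nat_lit 55) (.c (nat_lit 42) (nat_lit 3) (nat_lit 14) (nat_lit 2) (nat_lit 61) (.c (nat_lit 45) (nat_lit 3) (nat_lit 11) (nat_lit 3) (nat_lit 67) (.c (nat_lit 48) (nat_lit 1) (nat_lit 8) (nat_lit 2) (nat_lit 76) (.c (nat_lit 60) (nat_lit 14) (nat_lit 7) (nat_lit 1) (nat_lit 78) (.c (nat_lit 80) (nat_lit 11) (nat_lit 6) (nat_lit 1) (nat_lit 92) (.c (nat_lit 91) (nat_lit 6) (nat_lit 5) (nat_lit 1) (nat_lit 103) (.c (nat_lit 97) (nat_lit 4) (nat_lit 4) (nat_lit 1) (nat_lit 109) (.c (nat_lit 101) (nat_lit 4) (nat_lit 3) (nat_lit 1) (nat_lit 113) (.c (nat_lit 132) (nat_lit 26) (nat_lit 2) (nat_lit 1) (nat_lit 117) (.c (nat_lit 169) (nat_lit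 16) (nat_lit 1) (nat_lit 1) (nat_lit 143) (.c (nat_lit 185) (nat_lit 10) (nat_lit 0) (nat_lit 1) (nat_lit 159) .nil))))))))))))))

noncomputable def dC2d_i35 : IL := (.e false (nat_lit 2) (nat_lit 229) (nat_lit 2) (nat_lit 16) (.e false (nat_lit 1) (nat_lit 230) (nat_lit 2) (nat_lit 16) (.e true (nat_lit 2) (nat_lit 242) (nat_lit 2) (nat_lit 16) (.e false (nat_lit 1) (nat_lit 245) (nat_lit 2) (nat_lit 16) (.e false (nat_lit 3) (nat_lit 246) (nat_lit 2) (nat_lit 16) (.e true (nat_lit 2) (nat_lit 247) (nat_lit 2) (nat_lit 16) (.e true (nat_lit 1) (nat_lit 210) (nat_lit 2) (nat_lit 16) (.e true (nat_lit 1) (nat_lit 236) (nat_lit 2) (nat_lit 16) (.e true (nat_lit 3) (nat_lit 243) (nat_lit 2) (nat_lit 16) (.e false (nat_lit 2) (nat_lit 249) (nat_lit 2) (nat_lit 16) (.e true (nat_lit 1) (nat_lit 250) (nat_lit 2) (nat_lit 16) (.e true (nat_lit 1) (nat_lit 206) (nat_lit 2) (nat_lit 16) (.e false (nat_lit 2) (nat_lit 217)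 (nat_lit 2) (nat_lit 16) (.e false (nat_lit 2) (nat_lit 205) (nat_lit 2) (nat_lit 16) (.e false (nat_lit 1) (nat_lit 220) (nat_lit 2) (nat_lit 16) (.e true (nat_lit 3) (nat_lit 208) (nat_lit 2) (nat_lit 16) (.e false (nat_lit 3) (nat_lit 214) (nat_lit 2) (nat_lit 16) (.e true (nat_lit 1) (nat_lit 251) (nat_lit 2) (nat_lit 16) (.e false (nat_lit 1) (nat_lit 258) (nat_lit 1) (nat_lit 17) (.e false (nat_lit 1) (nat_lit 278) (nat_lit 1) (nat_lit 17) (.e true (nat_lit 1) (nat_lit 286) (nat_lit 1) (nat_lit 17) (.e false (nat_lit 1) (nat_lit 288) (nat_lit 1) (nat_lit 17) (.e true (nat_lit 3) (nat_lit 221) (nat_lit 2) (nat_lit 16) (.u (nat_lit 2) (.n (nat_lit 0) (nat_lit 3) (.n (nat_lit 1) (nat_lit 3) (.p (nat_lit 2) (nat_lit 5) (.p (nat_lit 4) (nat_lit 2) (.p (nat_lit 5) (nat_lit 1) (.p (nat_lit 6) (nat_lit 5) (.p (nat_lit 7) (nat_lit 3) (.n (nat_lit 8) (nat_lit 2) (.n (nat_lit 9) (nat_lit 2) (.p (nat_lit 10) (nat_lit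 3) (.p (nat_lit 11) (nat_lit 3) (.p (nat_lit 12) (nat_lit 2) (.p (nat_lit 14) (nat_lit 1) (.n (nat_lit 15) (nat_lit 4) (.p (nat_lit 16) (nat_lit 1) (.n (nat_lit 17) (nat_lit 6) (.p (nat_lit 18) (nat_lit 2) (.n (nat_lit 19) (nat_lit 3) (.p (nat_lit 20) (nat_lit 2) (.n (nat_lit 21) (nat_lit 2) (.p (nat_lit 22) (nat_lit 2) (.p (nat_lit 23) (nat_lit 3) (.n (nat_lit 24) (nat_lit 3) (.p (nat_lit 25) (nat_lit 3) (.n (nat_lit 27) (nat_lit 5) (.p (nat_lit 28) (nat_lit 1) (.p (nat_lit 29) (nat_lit 1) (.p (nat_lit 31) (nat_lit 1) (.p (nat_lit 32) (nat_lit 1) (.p (nat_lit 33) (nat_lit 7) (.n (nat_lit 34) (nat_lit 6) (.p (nat_lit 35) (nat_lit 4) (.p (nat_lit 36) (nat_lit 2) (.n (nat_lit 37) (nat_lit 2) (.n (nat_lit 38) (nat_lit 7) (.n (nat_lit 39) (nat_lit 2) (.p (nat_lit 42) (nat_lit 1) (.p (nat_lit 45) (nat_lit 1) (.n (nat_lit 46) (nat_lit 4) (.n (nat_lit 47) (nat_lit 3) (.n (nat_lit 48) (nat_lit 4) (.p (nat_lit 55) (nat_lit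 1) (.n (nat_lit 302) (nat_lit 3) (.p (nat_lit 303) (nat_lit 3) (.n (nat_lit 304) (nat_lit 1) (.n (nat_lit 305) (nat_lit 3) (.n (nat_lit 307) (nat_lit 1) (.p (nat_lit 308) (nat_lit 3) (.p (nat_lit 309) (nat_lit 1) (.n (nat_lit 312) (nat_lit 4) (.p (nat_lit 313) (nat_lit 1) (.p (nat_lit 314) (nat_lit 1) (.n (nat_lit 315) (nat_lit 2) (.n (nat_lit 316) (nat_lit 1) (.n (nat_lit 319) (nat_lit 4) (.p (nat_lit 323) (nat_lit 4) (.p (nat_lit 324) (nat_lit 4) (.p (nat_lit 325) (nat_lit 5) (.p (nat_lit 326) (nat_lit 6) (.p (nat_lit 327) (nat_lit 6) .z)))))))))))))))))))))))))))))))))))))))))))))))))))))))))))) (.u (nat_lit 2) (.p (nat_lit 328) (nat_lit 5) (.n (nat_lit 329) (nat_lit 1) (.n (nat_lit 330) (nat_lit 1) (.p (nat_lit 336) (nat_lit 1) (.n (nat_lit 339) (nat_lit 3) (.p (nat_lit 340) (nat_lit 1) (.p (nat_lit 342) (nat_lit 6) (.n (nat_lit 343) (nat_lit 3) (.n (nat_lit 344) (nat_lit 5) (.n (nat_lit 345) (nat_lit 2) (.n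 (nat_lit 346) (nat_lit 3) (.n (nat_lit 347) (nat_lit 3) (.n (nat_lit 349) (nat_lit 1) (.p (nat_lit 357) (nat_lit 1) (.p (nat_lit 360) (nat_lit 1) (.p (nat_lit 363) (nat_lit 1) (.p (nat_lit 364) (nat_lit 1) (.n (nat_lit 367) (nat_lit 1) (.n (nat_lit 368) (nat_lit 1) (.n (nat_lit 371) (nat_lit 1) (.n (nat_lit 372) (nat_lit 1) (.p (nat_lit 373) (nat_lit 1) (.p (nat_lit 380) (nat_lit 1) (.n (nat_lit 382) (nat_lit 1) .z)))))))))))))))))))))))) .nil)))))))))))))))))))))))))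

noncomputable def dC2d_i36 : IL := (.e false (nat_lit 1) (nat_lit 270) (nat_lit 1) (nat_lit 17) (.e false (nat_lit 3) (nat_lit 271) (nat_lit 1) (nat_lit 17) (.e true (nat_lit 2) (nat_lit 272) (nat_lit 1) (nat_lit 17) (.e true (nat_lit 3) (nat_lit 273) (nat_lit 1) (nat_lit 17) (.e false (nat_lit 2) (nat_lit 274) (nat_lit 1) (nat_lit 17) (.e false (nat_lit 1) (nat_lit 275) (nat_lit 1) (nat_lit 17) (.e true (nat_lit 3) (nat_lit 276) (nat_lit 1) (nat_lit 17) (.e false (nat_lit 3) (nat_lit 277) (nat_lit 1) (nat_lit 17) (.e false (nat_lit 1) (nat_lit 279) (nat_lit 1) (nat_lit 17) (.e true (nat_lit 3) (nat_lit 283) (nat_lit 1) (nat_lit 17) (.e false (nat_lit 2) (nat_lit 285) (nat_lit 1) (nat_lit 17) (.e false (nat_lit 1) (nat_lit 287) (nat_lit 1) (nat_lit 17) (.e false (nat_lit 1) (nat_lit 232) (nat_lit 2) (nat_lit 16) (.e false (nat_lit 3) (nat_lit 207) (nat_lit 2) (nat_lit 16) (.e true (nat_lit 1) (nat_lit 209) (nat_lit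 2) (nat_lit 16) (.e true (nat_lit 2) (nat_lit 212) (nat_lit 2) (nat_lit 16) (.e false (nat_lit 1) (nat_lit 213) (nat_lit 2) (nat_lit 16) (.e false (nat_lit 1) (nat_lit 215) (nat_lit 2) (nat_lit 16) (.e true (nat_lit 2) (nat_lit 216) (nat_lit 2) (nat_lit 16) (.e true (nat_lit 3) (nat_lit 218) (nat_lit 2) (nat_lit 16) (.e false (nat_lit 2) (nat_lit 219) (nat_lit 2) (nat_lit 16) (.e true (nat_lit 2) (nat_lit 222) (nat_lit 2) (nat_lit 16) (.e false (nat_lit 2) (nat_lit 226) (nat_lit 2) (nat_lit 16) (.e true (nat_lit 1) (nat_lit 227) (nat_lit 2) (nat_lit 16) (.e true (nat_lit 2) (nat_lit 228) (nat_lit 2) (nat_lit 16) dC2d_i35)))))))))))))))))))))))))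

noncomputable def dC2d_i37 : IL := (.e false (nat_lit 2) (nat_lit 252) (nat_lit 2) (nat_lit 14) (.e false (nat_lit 2) (nat_lit 253) (nat_lit 2) (nat_lit 14) (.e true (nat_lit 1) (nat_lit 254) (nat_lit 2) (nat_lit 14) (.e true (nat_lit 3) (nat_lit 256) (nat_lit 2) (nat_lit 14) (.e true (nat_lit 2) (nat_lit 259) (nat_lit 2) (nat_lit 14) (.e true (nat_lit 3) (nat_lit 260) (nat_lit 2) (nat_lit 14) (.e false (nat_lit 2) (nat_lit 263) (nat_lit 2) (nat_lit 14) (.e false (nat_lit 3) (nat_lit 264) (nat_lit 2) (nat_lit 14) (.e false (nat_lit 3) (nat_lit 265) (nat_lit 2) (nat_lit 14) (.e false (nat_lit 1) (nat_lit 267) (nat_lit 2) (nat_lit 14) (.e true (nat_lit 3) (nat_lit 269) (nat_lit 2) (nat_lit 14) (.e true (nat_lit 2) (nat_lit 271) (nat_lit 2) (nat_lit 14) (.e false (nat_lit 1) (nat_lit 272) (nat_lit 2) (nat_lit 14) (.e true (nat_lit 2) (nat_lit 273) (nat_lit 2) (nat_lit 14) (.e true (nat_lit 1) (nat_lit 274) (nat_lit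 2) (nat_lit 14) (.e true (nat_lit 2) (nat_lit 275) (nat_lit 2) (nat_lit 14) (.e false (nat_lit 2) (nat_lit 276) (nat_lit 2) (nat_lit 14) (.e false (nat_lit 3) (nat_lit 277) (nat_lit 2) (nat_lit 14) (.e true (nat_lit 1) (nat_lit 279) (nat_lit 2) (nat_lit 14) (.e true (nat_lit 1) (nat_lit 283) (nat_lit 2) (nat_lit 14) (.e false (nat_lit 1) (nat_lit 284) (nat_lit 2) (nat_lit 14) (.e false (nat_lit 2) (nat_lit 285) (nat_lit 2) (nat_lit 14) (.e true (nat_lit 1) (nat_lit 287) (nat_lit 2) (nat_lit 14) (.e false (nat_lit 1) (nat_lit 258) (nat_lit 2) (nat_lit 14) (.u (nat_lit 2) (.n (nat_lit 0) (nat_lit 1) (.p (nat_lit 1) (nat_lit 6) (.n (nat_lit 3) (nat_lit 3) (.p (nat_lit 4) (nat_lit 2) (.n (nat_lit 5) (nat_lit 2) (.p (nat_lit 6) (nat_lit 6) (.n (nat_lit 7) (nat_lit 2) (.p (nat_lit 8) (nat_lit 1) (.n (nat_lit 10) (nat_lit 3) (.n (nat_lit 11) (nat_lit 2) (.p (nat_lit 12) (nat_lit 2) (.p (nat_lit 13) (nat_lit 2) (.p (nat_lit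 14) (nat_lit 3) (.n (nat_lit 15) (nat_lit 6) (.n (nat_lit 16) (nat_lit 5) (.p (nat_lit 17) (nat_lit 3) (.p (nat_lit 18) (nat_lit 1) (.n (nat_lit 21) (nat_lit 3) (.p (nat_lit 23) (nat_lit 2) (.n (nat_lit 24) (nat_lit 1) (.p (nat_lit 25) (nat_lit 1) (.n (nat_lit 26) (nat_lit 1) (.n (nat_lit 27) (nat_lit 1) (.n (nat_lit 28) (nat_lit 1) (.n (nat_lit 30) (nat_lit 2) (.p (nat_lit 34) (nat_lit 2) (.n (nat_lit 35) (nat_lit 2) (.n (nat_lit 38) (nat_lit 1) (.n (nat_lit 215) (nat_lit 1) (.n (nat_lit 216) (nat_lit 1) (.p (nat_lit 221) (nat_lit 1) (.p (nat_lit 223) (nat_lit 1) (.p (nat_lit 226) (nat_lit 1) (.p (nat_lit 227) (nat_lit 1) (.n (nat_lit 228) (nat_lit 1) .z))))))))))))))))))))))))))))))))))) .nil)))))))))))))))))))))))))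

noncomputable def dC2d_i38 : IL := (.e true (nat_lit 1) (nat_lit 257) (nat_lit 1) (nat_lit 17) (.e true (nat_lit 3) (nat_lit 258) (nat_lit 1) (nat_lit 17) (.e false (nat_lit 2) (nat_lit 259) (nat_lit 1) (nat_lit 17) (.e true (nat_lit 2) (nat_lit 260) (nat_lit 1) (nat_lit 17) (.e true (nat_lit 1) (nat_lit 261) (nat_lit 1) (nat_lit 17) (.e true (nat_lit 1) (nat_lit 262) (nat_lit 1) (nat_lit 17) (.e false (nat_lit 1) (nat_lit 263) (nat_lit 1) (nat_lit 17) (.e false (nat_lit 2) (nat_lit 264) (nat_lit 1) (nat_lit 17) (.e true (nat_lit 2) (nat_lit 266) (nat_lit 1) (nat_lit 17) (.e true (nat_lit 2) (nat_lit 269) (nat_lit 1) (nat_lit 17) (.e false (nat_lit 3) (nat_lit 270) (nat_lit 1) (nat_lit 17) (.e false (nat_lit 3) (nat_lit 271) (nat_lit 1) (nat_lit 17) (.e true (nat_lit 1) (nat_lit 272) (nat_lit 1) (nat_lit 17) (.e false (nat_lit 3) (nat_lit 273) (nat_lit 1) (nat_lit 17) (.e true (nat_lit 3) (nat_lit 274) (nat_lit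 1) (nat_lit 17) (.e false (nat_lit 1) (nat_lit 275) (nat_lit 1) (nat_lit 17) (.e true (nat_lit 3) (nat_lit 276) (nat_lit 1) (nat_lit 17) (.e true (nat_lit 3) (nat_lit 277) (nat_lit 1) (nat_lit 17) (.e true (nat_lit 1) (nat_lit 279) (nat_lit 1) (nat_lit 17) (.e false (nat_lit 1) (nat_lit 280) (nat_lit 1) (nat_lit 17) (.e false (nat_lit 1) (nat_lit 283) (nat_lit 1) (nat_lit 17) (.e true (nat_lit 1) (nat_lit 285) (nat_lit 1) (nat_lit 17) (.e false (nat_lit 1) (nat_lit 288) (nat_lit 1) (nat_lit 17) (.e false (nat_lit 1) (nat_lit 240) (nat_lit 2) (nat_lit 16) (.u (nat_lit 2) (.p (nat_lit 1) (nat_lit 1) (.n (nat_lit 2) (nat_lit 1) (.n (nat_lit 6) (nat_lit 1) (.p (nat_lit 10) (nat_lit 1) (.p (nat_lit 11) (nat_lit 1) (.n (nat_lit 12) (nat_lit 1) (.p (nat_lit 15) (nat_lit 1) (.n (nat_lit 16) (nat_lit 1) (.p (nat_lit 18) (nat_lit 1) (.n (nat_lit 22) (nat_lit 1) (.n (nat_lit 23) (nat_lit 1) (.p (nat_lit 24) (nat_lit 2) (.n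 (nat_lit 29) (nat_lit 1) (.p (nat_lit 31) (nat_lit 1) (.n (nat_lit 33) (nat_lit 1) (.n (nat_lit 35) (nat_lit 1) (.p (nat_lit 37) (nat_lit 1) (.n (nat_lit 45) (nat_lit 1) .z)))))))))))))))))) .nil)))))))))))))))))))))))))

noncomputable def dC2d_i39 : IL := (.e true (nat_lit 1) (nat_lit 147) (nat_lit 2) (nat_lit 11) (.e true (nat_lit 3) (nat_lit 153) (nat_lit 2) (nat_lit 11) (.e true (nat_lit 3) (nat_lit 136) (nat_lit 2) (nat_lit 11) (.e false (nat_lit 3) (nat_lit 149) (nat_lit 2) (nat_lit 11) (.e true (nat_lit 3) (nat_lit 151) (nat_lit 2) (nat_lit 11) (.e true (nat_lit 1) (nat_lit 152) (nat_lit 2) (nat_lit 11) (.e false (nat_lit 2) (nat_lit 154) (nat_lit 2) (nat_lit 11) (.e false (nat_lit 3) (nat_lit 157) (nat_lit 2) (nat_lit 11) (.e false (nat_lit 1) (nat_lit 66) (nat_lit 7) (nat_lit 6) (.e true (nat_lit 1) (nat_lit 72) (nat_lit 7) (nat_lit 6) (.e false (nat_lit 1) (nat_lit 155) (nat_lit 2) (nat_lit 11) (.e false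 (nat_lit 1) (nat_lit 81) (nat_lit 6) (nat_lit 7) (.e true (nat_lit 1) (nat_lit 34) (nat_lit 18) (nat_lit 1) (.e false (nat_lit 3) (nat_lit 156) (nat_lit 2) (nat_lit 11) (.e false (nat_lit 1) (nat_lit 169) (nat_lit 1) (nat_lit 12) (.e true (nat_lit 1) (nat_lit 170) (nat_lit 1) (nat_lit 12) (.e false (nat_lit 1) (nat_lit 174) (nat_lit 1) (nat_lit 12) (.e false (nat_lit 2) (nat_lit 175) (nat_lit 1) (nat_lit 12) (.e true (nat_lit 2) (nat_lit 172) (nat_lit 1) (nat_lit 12) (.e false (nat_lit 2) (nat_lit 176) (nat_lit 1) (nat_lit 12) (.e false (nat_lit 1) (nat_lit 177) (nat_lit 1) (nat_lit 12) (.e true (nat_lit 2) (nat_lit 178) (nat_lit 1) (nat_lit 12) (.e true (nat_lit 3) (nat_lit 179) (nat_lit 1) (nat_lit 12) (.e false (nat_lit 1) (nat_lit 27) (nat_lit 20) (nat_lit 0) (.u (nat_lit 2) (.n (nat_lit 0) (nat_lit 2) (.p (nat_lit 1) (nat_lit 1) (.n (nat_lit 2) (nat_lit 1) (.p (nat_lit 3) (nat_lit 1) (.n (nat_lit 4) (nat_lit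 1) (.p (nat_lit 6) (nat_lit 1) (.p (nat_lit 7) (nat_lit 1) (.n (nat_lit 8) (nat_lit 1) (.n (nat_lit 9) (nat_lit 2) (.n (nat_lit 10) (nat_lit 2) (.n (nat_lit 12) (nat_lit 2) (.p (nat_lit 13) (nat_lit 2) (.p (nat_lit 14) (nat_lit 2) (.p (nat_lit 17) (nat_lit 2) (.p (nat_lit 18) (nat_lit 2) (.n (nat_lit 19) (nat_lit 1) (.p (nat_lit 20) (nat_lit 1) (.n (nat_lit 21) (nat_lit 2) (.n (nat_lit 22) (nat_lit 1) (.p (nat_lit 23) (nat_lit 2) (.p (nat_lit 24) (nat_lit 1) (.p (nat_lit 25) (nat_lit 2) (.n (nat_lit 28) (nat_lit 1) (.p (nat_lit 34) (nat_lit 1) (.n (nat_lit 36) (nat_lit 1) (.p (nat_lit 117) (nat_lit 1) (.p (nat_lit 119) (nat_lit 1) (.n (nat_lit 121) (nat_lit 1) (.n (nat_lit 123) (nat_lit 1) (.p (nat_lit 124) (nat_lit 2) (.n (nat_lit 125) (nat_lit 1) (.n (nat_lit 126) (nat_lit 1) (.p (nat_lit 130) (nat_lit 1) (.n (nat_lit 132) (nat_lit 1) (.n (nat_lit 135) (nat_lit 1) (.p (nat_lit 147) (nat_lit 1) (.n (nat_lit 148)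 (nat_lit 1) (.p (nat_lit 152) (nat_lit 1) (.p (nat_lit 153) (nat_lit 1) .z))))))))))))))))))))))))))))))))))))))) .nil)))))))))))))))))))))))))

noncomputable def dC2d_i40 : IL := (.s true (nat_lit 1) (nat_lit 14) (nat_lit 5) (nat_lit 2) (nat_lit 2) true (nat_lit 2) true (nat_lit 11) true (nat_lit 3) true (nat_lit 8) true (nat_lit 11) (.s false (nat_lit 1) (nat_lit 16) (nat_lit 4) (nat_lit 2) (nat_lit 2) true (nat_lit 3) true (nat_lit 11) true (nat_lit 2) true (nat_lit 9) true (nat_lit 11) (.s true (nat_lit 1) (nat_lit 20) (nat_lit 5) (nat_lit 1) (nat_lit 1) true (nat_lit 4) true (nat_lit 12) true (nat_lit 0) true (nat_lit 8) true (nat_lit 12) (.e false (nat_lit 1) (nat_lit 24) (nat_lit 20) (nat_lit 0) (.e true (nat_lit 1) (nat_lit 26) (nat_lit 20) (nat_lit 0) (.e false (nat_lit 1) (nat_lit 28) (nat_lit 20) (nat_lit 0) (.e false (nat_lit 1) (nat_lit 29) (nat_lit 20) (nat_lit 0) (.e true (nat_lit 1) (nat_lit 60)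 (nat_lit 7) (nat_lit 6) (.e false (nat_lit 1) (nat_lit 64) (nat_lit 7) (nat_lit 6) (.e true (nat_lit 1) (nat_lit 65) (nat_lit 7) (nat_lit 6) (.e true (nat_lit 1) (nat_lit 67) (nat_lit 7) (nat_lit 6) (.e true (nat_lit 2) (nat_lit 71) (nat_lit 7) (nat_lit 6) (.e true (nat_lit 1) (nat_lit 73) (nat_lit 7) (nat_lit 6) (.e true (nat_lit 1) (nat_lit 132) (nat_lit 2) (nat_lit 11) (.e true (nat_lit 3) (nat_lit 133) (nat_lit 2) (nat_lit 11) (.e false (nat_lit 3) (nat_lit 134) (nat_lit 2) (nat_lit 11) (.e true (nat_lit 1) (nat_lit 135) (nat_lit 2) (nat_lit 11) (.e false (nat_lit 2) (nat_lit 137) (nat_lit 2) (nat_lit 11) (.e false (nat_lit 2) (nat_lit 138) (nat_lit 2) (nat_lit 11) (.e true (nat_lit 2) (nat_lit 139) (nat_lit 2) (nat_lit 11) (.e true (nat_lit 2) (nat_lit 140) (nat_lit 2) (nat_lit 11) (.e false (nat_lit 2) (nat_lit 141) (nat_lit 2) (nat_lit 11) (.e false (nat_lit 2) (nat_lit 143) (nat_lit 2) (nat_lit 11) (.e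 false (nat_lit 1) (nat_lit 144) (nat_lit 2) (nat_lit 11) (.e true (nat_lit 3) (nat_lit 145) (nat_lit 2) (nat_lit 11) dC2d_i39)))))))))))))))))))))))))

noncomputable def dC2d_i41 : IL := (.e false (nat_lit 1) (nat_lit 257) (nat_lit 1) (nat_lit 17) (.e false (nat_lit 2) (nat_lit 259) (nat_lit 1) (nat_lit 17) (.e true (nat_lit 2) (nat_lit 260) (nat_lit 1) (nat_lit 17) (.e false (nat_lit 3) (nat_lit 262) (nat_lit 1) (nat_lit 17) (.e true (nat_lit 1) (nat_lit 266) (nat_lit 1) (nat_lit 17) (.e false (nat_lit 3) (nat_lit 267) (nat_lit 1) (nat_lit 17) (.e true (nat_lit 2) (nat_lit 269) (nat_lit 1) (nat_lit 17) (.e false (nat_lit 2) (nat_lit 270) (nat_lit 1) (nat_lit 17) (.e true (nat_lit 3) (nat_lit 274) (nat_lit 1) (nat_lit 17) (.e true (nat_lit 2) (nat_lit 285) (nat_lit 1) (nat_lit 17) (.e false (nat_lit 3) (nat_lit 263) (nat_lit 1) (nat_lit 17) (.e true (nat_lit 1) (nat_lit 271) (nat_lit 1) (nat_lit 17) (.e true (nat_lit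 3) (nat_lit 273) (nat_lit 1) (nat_lit 17) (.e false (nat_lit 1) (nat_lit 276) (nat_lit 1) (nat_lit 17) (.e false (nat_lit 1) (nat_lit 277) (nat_lit 1) (nat_lit 17) (.e false (nat_lit 3) (nat_lit 261) (nat_lit 1) (nat_lit 17) (.e true (nat_lit 3) (nat_lit 265) (nat_lit 1) (nat_lit 17) (.e false (nat_lit 2) (nat_lit 283) (nat_lit 1) (nat_lit 17) (.e true (nat_lit 3) (nat_lit 272) (nat_lit 1) (nat_lit 17) (.e true (nat_lit 2) (nat_lit 99) (nat_lit 10) (nat_lit 9) (.e true (nat_lit 3) (nat_lit 258) (nat_lit 1) (nat_lit 17) (.e true (nat_lit 2) (nat_lit 264) (nat_lit 1) (nat_lit 17) (.e false (nat_lit 2) (nat_lit 275) (nat_lit 1) (nat_lit 17) (.e false (nat_lit 2) (nat_lit 284) (nat_lit 1) (nat_lit 17) (.u (nat_lit 2) (.p (nat_lit 0) (nat_lit 1) (.p (nat_lit 1) (nat_lit 5) (.n (nat_lit 2) (nat_lit 6) (.n (nat_lit 4) (nat_lit 1) (.n (nat_lit 6) (nat_lit 5) (.n (nat_lit 8) (nat_lit 2) (.p (nat_lit 9) (nat_lit 1) (.n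 (nat_lit 11) (nat_lit 2) (.p (nat_lit 12) (nat_lit 1) (.p (nat_lit 14) (nat_lit 2) (.p (nat_lit 15) (nat_lit 2) (.n (nat_lit 16) (nat_lit 3) (.p (nat_lit 17) (nat_lit 1) (.p (nat_lit 19) (nat_lit 2) (.p (nat_lit 20) (nat_lit 2) (.n (nat_lit 21) (nat_lit 2) (.p (nat_lit 22) (nat_lit 2) (.n (nat_lit 23) (nat_lit 5) (.p (nat_lit 24) (nat_lit 3) (.n (nat_lit 25) (nat_lit 3) (.p (nat_lit 26) (nat_lit 1) (.n (nat_lit 27) (nat_lit 5) (.n (nat_lit 29) (nat_lit 4) (.p (nat_lit 31) (nat_lit 6) (.n (nat_lit 32) (nat_lit 2) (.n (nat_lit 33) (nat_lit 2) (.p (nat_lit 34) (nat_lit 3) (.n (nat_lit 35) (nat_lit 1) (.p (nat_lit 36) (nat_lit 1) (.n (nat_lit 37) (nat_lit 1) (.p (nat_lit 38) (nat_lit 2) (.n (nat_lit 39) (nat_lit 5) (.p (nat_lit 40) (nat_lit 3) (.n (nat_lit 41) (nat_lit 1) (.n (nat_lit 42) (nat_lit 1) (.n (nat_lit 45) (nat_lit 1) (.p (nat_lit 47) (nat_lit 1) (.p (nat_lit 276) (nat_lit 1) (.n (nat_lit 277) (nat_lit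 1) (.p (nat_lit 280) (nat_lit 1) (.n (nat_lit 281) (nat_lit 1) (.p (nat_lit 284) (nat_lit 1) (.n (nat_lit 285) (nat_lit 1) (.n (nat_lit 351) (nat_lit 1) (.n (nat_lit 352) (nat_lit 1) (.n (nat_lit 353) (nat_lit 1) (.n (nat_lit 354) (nat_lit 1) (.p (nat_lit 355) (nat_lit 1) (.n (nat_lit 358) (nat_lit 1) (.n (nat_lit 359) (nat_lit 1) (.n (nat_lit 360) (nat_lit 1) (.p (nat_lit 362) (nat_lit 1) (.p (nat_lit 363) (nat_lit 1) (.n (nat_lit 364) (nat_lit 1) (.p (nat_lit 368) (nat_lit 1) (.p (nat_lit 369) (nat_lit 1) (.p (nat_lit 370) (nat_lit 1) (.p (nat_lit 371) (nat_lit 1) (.n (nat_lit 373) (nat_lit 1) (.n (nat_lit 374) (nat_lit 1) .z)))))))))))))))))))))))))))))))))))))))))))))))))))))))))))) .nil)))))))))))))))))))))))))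

noncomputable def dC2d_i42 : IL := (.e false (nat_lit 2) (nat_lit 150) (nat_lit 2) (nat_lit 11) (.e true (nat_lit 1) (nat_lit 151) (nat_lit 2) (nat_lit 11) (.e true (nat_lit 3) (nat_lit 154) (nat_lit 2) (nat_lit 11) (.e true (nat_lit 2) (nat_lit 155) (nat_lit 2) (nat_lit 11) (.e false (nat_lit 1) (nat_lit 156) (nat_lit 2) (nat_lit 11) (.e false (nat_lit 3) (nat_lit 179) (nat_lit 1) (nat_lit 12) (.e false (nat_lit 1) (nat_lit 146) (nat_lit 2) (nat_lit 11) (.e true (nat_lit 3) (nat_lit 152) (nat_lit 2) (nat_lit 11) (.e false (nat_lit 2) (nat_lit 157) (nat_lit 2) (nat_lit 11) (.e false (nat_lit 1) (nat_lit 34) (nat_lit 19) (nat_lit 1) (.e true (nat_lit 1) (nat_lit 178) (nat_lit 1) (nat_lit 12) (.e false (nat_lit 3) (nat_lit 24) (nat_lit 20) (nat_lit 0) (.e false (nat_lit 2) (nat_lit 26) (nat_lit 20) (nat_lit 0) (.e false (nat_lit 2) (nat_lit 29) (nat_lit 20) (nat_lit 0) (.e true (nat_lit 1) (nat_lit 102) (nat_lit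 3) (nat_lit 10) (.e true (nat_lit 1) (nat_lit 104) (nat_lit 3) (nat_lit 10) (.e true (nat_lit 3) (nat_lit 81) (nat_lit 6) (nat_lit 7) (.e false (nat_lit 2) (nat_lit 47) (nat_lit 11) (nat_lit 4) (.e true (nat_lit 2) (nat_lit 27) (nat_lit 20) (nat_lit 0) (.e true (nat_lit 3) (nat_lit 170) (nat_lit 1) (nat_lit 12) (.e true (nat_lit 1) (nat_lit 172) (nat_lit 1) (nat_lit 12) (.e true (nat_lit 3) (nat_lit 177) (nat_lit 1) (nat_lit 12) (.e false (nat_lit 1) (nat_lit 169) (nat_lit 1) (nat_lit 12) (.u (nat_lit 2) (.p (nat_lit 0) (nat_lit 2) (.n (nat_lit 1) (nat_lit 1) (.n (nat_lit 2) (nat_lit 1) (.n (nat_lit 3) (nat_lit 2) (.n (nat_lit 4) (nat_lit 2) (.n (nat_lit 6) (nat_lit 1) (.n (nat_lit 7) (nat_lit 2) (.p (nat_lit 8) (nat_lit 2) (.p (nat_lit 9) (nat_lit 2) (.n (nat_lit 14) (nat_lit 1) (.p (nat_lit 15) (nat_lit 1) (.n (nat_lit 17) (nat_lit 3) (.p (nat_lit 18) (nat_lit 1) (.p (nat_lit 20) (nat_lit 2) (.n (nat_lit 21)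 (nat_lit 1) (.p (nat_lit 22) (nat_lit 1) (.p (nat_lit 23) (nat_lit 2) (.n (nat_lit 31) (nat_lit 1) (.n (nat_lit 32) (nat_lit 1) (.p (nat_lit 33) (nat_lit 2) (.p (nat_lit 77) (nat_lit 1) (.n (nat_lit 78) (nat_lit 2) (.n (nat_lit 79) (nat_lit 1) (.p (nat_lit 81) (nat_lit 1) (.p (nat_lit 82) (nat_lit 1) (.n (nat_lit 83) (nat_lit 2) (.p (nat_lit 84) (nat_lit 1) (.p (nat_lit 86) (nat_lit 1) (.n (nat_lit 89) (nat_lit 3) (.n (nat_lit 90) (nat_lit 1) (.n (nat_lit 91) (nat_lit 2) (.p (nat_lit 110) (nat_lit 1) (.p (nat_lit 111) (nat_lit 1) (.p (nat_lit 115) (nat_lit 1) (.p (nat_lit 117) (nat_lit 2) (.n (nat_lit 118) (nat_lit 1) (.n (nat_lit 119) (nat_lit 7) (.n (nat_lit 120) (nat_lit 4) (.p (nat_lit 121) (nat_lit 2) (.p (nat_lit 123) (nat_lit 2) (.p (nat_lit 124) (nat_lit 1) (.n (nat_lit 125) (nat_lit 3) (.p (nat_lit 126) (nat_lit 3) (.p (nat_lit 127) (nat_lit 2) (.n (nat_lit 128) (nat_lit 1) (.p (nat_lit 129) (nat_lit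 1) (.n (nat_lit 130) (nat_lit 2) (.n (nat_lit 131) (nat_lit 1) (.p (nat_lit 132) (nat_lit 1) (.n (nat_lit 134) (nat_lit 6) (.p (nat_lit 135) (nat_lit 2) (.p (nat_lit 136) (nat_lit 9) (.p (nat_lit 137) (nat_lit 3) (.p (nat_lit 138) (nat_lit 4) (.n (nat_lit 139) (nat_lit 2) (.n (nat_lit 141) (nat_lit 2) (.n (nat_lit 142) (nat_lit 4) (.n (nat_lit 143) (nat_lit 1) (.p (nat_lit 144) (nat_lit 1) (.p (nat_lit 145) (nat_lit 1) .z)))))))))))))))))))))))))))))))))))))))))))))))))))))))))))) (.u (nat_lit 2) (.n (nat_lit 147) (nat_lit 2) (.p (nat_lit 148) (nat_lit 5) (.n (nat_lit 153) (nat_lit 1) (.n (nat_lit 159) (nat_lit 2) (.n (nat_lit 160) (nat_lit 2) (.p (nat_lit 161) (nat_lit 1) (.n (nat_lit 162) (nat_lit 2) (.n (nat_lit 163) (nat_lit 1) (.p (nat_lit 164) (nat_lit 2) (.n (nat_lit 167) (nat_lit 1) (.n (nat_lit 168) (nat_lit 1) .z))))))))))) .nil)))))))))))))))))))))))))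

noncomputable def dC2d_i43 : IL := (.s false (nat_lit 3) (nat_lit 39) (nat_lit 0) (nat_lit 2) (nat_lit 2) true (nat_lit 8) true (nat_lit 11) false (nat_lit 2) true (nat_lit 13) true (nat_lit 11) (.s false (nat_lit 3) (nat_lit 39) (nat_lit 2) (nat_lit 0) (nat_lit 2) true (nat_lit 6) true (nat_lit 11) false (nat_lit 2) true (nat_lit 11) true (nat_lit 13) (.s true (nat_lit 3) (nat_lit 39) (nat_lit 2) (nat_lit 2) (nat_lit 0) true (nat_lit 8) true (nat_lit 13) false (nat_lit 2) true (nat_lit 11) true (nat_lit 11) (.s true (nat_lit 3) (nat_lit 44) (nat_lit 2) (nat_lit 1) (nat_lit 1) true (nat_lit 7) true (nat_lit 12) false (nat_lit 3) true (nat_lit 11) true (nat_lit 12) (.s false (nat_lit 1) (nat_lit 47) (nat_lit 0) (nat_lit 2) (nat_lit 1) true (nat_lit 10) true (nat_lit 12) false (nat_lit 4) true (nat_lit 13) true (nat_lit 11) (.e true (nat_lit 1) (nat_lit 61) (nat_lit 7) (nat_lit 6) (.e false (nat_lit 3) (nat_lit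 62) (nat_lit 7) (nat_lit 6) (.e true (nat_lit 1) (nat_lit 71) (nat_lit 7) (nat_lit 6) (.e false (nat_lit 3) (nat_lit 73) (nat_lit 7) (nat_lit 6) (.e false (nat_lit 1) (nat_lit 64) (nat_lit 7) (nat_lit 6) (.e true (nat_lit 3) (nat_lit 153) (nat_lit 2) (nat_lit 11) (.e true (nat_lit 3) (nat_lit 134) (nat_lit 2) (nat_lit 11) (.e true (nat_lit 2) (nat_lit 136) (nat_lit 2) (nat_lit 11) (.e false (nat_lit 2) (nat_lit 138) (nat_lit 2) (nat_lit 11) (.e false (nat_lit 2) (nat_lit 140) (nat_lit 2) (nat_lit 11) (.e true (nat_lit 3) (nat_lit 142) (nat_lit 2) (nat_lit 11) (.e true (nat_lit 2) (nat_lit 143) (nat_lit 2) (nat_lit 11) (.e false (nat_lit 2) (nat_lit 144) (nat_lit 2) (nat_lit 11) (.e true (nat_lit 1) (nat_lit 25) (nat_lit 20) (nat_lit 0) (.e true (nat_lit 3) (nat_lit 28) (nat_lit 20) (nat_lit 0) (.e true (nat_lit 3) (nat_lit 133) (nat_lit 2) (nat_lit 11) (.e true (nat_lit 3) (nat_lit 135) (nat_lit 2) (nat_lit 11)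 (.e false (nat_lit 1) (nat_lit 141) (nat_lit 2) (nat_lit 11) (.e true (nat_lit 1) (nat_lit 147) (nat_lit 2) (nat_lit 11) (.e true (nat_lit 2) (nat_lit 149) (nat_lit 2) (nat_lit 11) dC2d_i42)))))))))))))))))))))))))

noncomputable def dC2d_i44 : IL := (.e true (nat_lit 1) (nat_lit 267) (nat_lit 1) (nat_lit 17) (.e false (nat_lit 2) (nat_lit 269) (nat_lit 1) (nat_lit 17) (.e true (nat_lit 3) (nat_lit 270) (nat_lit 1) (nat_lit 17) (.e true (nat_lit 3) (nat_lit 272) (nat_lit 1) (nat_lit 17) (.e false (nat_lit 2) (nat_lit 285) (nat_lit 1) (nat_lit 17) (.e false (nat_lit 1) (nat_lit 257) (nat_lit 1) (nat_lit 17) (.e false (nat_lit 2) (nat_lit 271) (nat_lit 1) (nat_lit 17) (.e true (nat_lit 2) (nat_lit 276) (nat_lit 1) (nat_lit 17) (.e true (nat_lit 2) (nat_lit 283) (nat_lit 1) (nat_lit 17) (.e true (nat_lit 3) (nat_lit 277) (nat_lit 1) (nat_lit 17) (.e true (nat_lit 1) (nat_lit 48) (nat_lit 22) (nat_lit 3) (.e false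 (nat_lit 1) (nat_lit 170) (nat_lit 4) (nat_lit 14) (.e true (nat_lit 1) (nat_lit 171) (nat_lit 4) (nat_lit 14) (.e true (nat_lit 1) (nat_lit 172) (nat_lit 4) (nat_lit 14) (.e false (nat_lit 1) (nat_lit 181) (nat_lit 4) (nat_lit 14) (.e false (nat_lit 3) (nat_lit 289) (nat_lit 0) (nat_lit 18) (.e true (nat_lit 1) (nat_lit 291) (nat_lit 0) (nat_lit 18) (.e false (nat_lit 1) (nat_lit 294) (nat_lit 0) (nat_lit 18) (.e true (nat_lit 3) (nat_lit 295) (nat_lit 0) (nat_lit 18) (.e true (nat_lit 3) (nat_lit 298) (nat_lit 0) (nat_lit 18) (.e false (nat_lit 3) (nat_lit 303) (nat_lit 0) (nat_lit 18) (.e false (nat_lit 3) (nat_lit 304) (nat_lit 0) (nat_lit 18) (.e true (nat_lit 3) (nat_lit 290) (nat_lit 0) (nat_lit 18) (.e true (nat_lit 3) (nat_lit 296) (nat_lit 0) (nat_lit 18) (.u (nat_lit 2) (.p (nat_lit 0) (nat_lit 2) (.p (nat_lit 2) (nat_lit 1) (.n (nat_lit 3) (nat_lit 3) (.p (nat_lit 4) (nat_lit 5) (.n (nat_lit 6) (nat_lit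 1) (.n (nat_lit 7) (nat_lit 1) (.p (nat_lit 8) (nat_lit 1) (.p (nat_lit 11) (nat_lit 3) (.n (nat_lit 16) (nat_lit 1) (.n (nat_lit 17) (nat_lit 1) (.n (nat_lit 19) (nat_lit 1) (.p (nat_lit 20) (nat_lit 1) (.p (nat_lit 23) (nat_lit 2) (.n (nat_lit 24) (nat_lit 1) (.p (nat_lit 25) (nat_lit 2) (.p (nat_lit 26) (nat_lit 1) (.n (nat_lit 27) (nat_lit 1) (.p (nat_lit 28) (nat_lit 2) (.n (nat_lit 32) (nat_lit 2) (.p (nat_lit 33) (nat_lit 2) (.n (nat_lit 34) (nat_lit 1) (.p (nat_lit 35) (nat_lit 2) (.p (nat_lit 36) (nat_lit 1) (.n (nat_lit 38) (nat_lit 2) (.n (nat_lit 40) (nat_lit 1) (.n (nat_lit 45) (nat_lit 1) (.n (nat_lit 46) (nat_lit 1) (.n (nat_lit 349) (nat_lit 1) (.n (nat_lit 350) (nat_lit 1) (.p (nat_lit 353) (nat_lit 1) (.n (nat_lit 354) (nat_lit 1) (.p (nat_lit 355) (nat_lit 1) (.n (nat_lit 356) (nat_lit 2) (.p (nat_lit 357) (nat_lit 2) (.n (nat_lit 359) (nat_lit 1) (.p (nat_lit 364) (nat_lit 1) (.p (nat_lit 366)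 (nat_lit 1) (.p (nat_lit 367) (nat_lit 1) (.p (nat_lit 369) (nat_lit 1) (.p (nat_lit 371) (nat_lit 2) (.n (nat_lit 379) (nat_lit 1) (.p (nat_lit 380) (nat_lit 1) (.n (nat_lit 382) (nat_lit 1) (.n (nat_lit 386) (nat_lit 1) (.p (nat_lit 392) (nat_lit 1) (.p (nat_lit 395) (nat_lit 1) (.n (nat_lit 400) (nat_lit 1) .z))))))))))))))))))))))))))))))))))))))))))))))) .nil)))))))))))))))))))))))))

noncomputable def dC2d_i45 : IL := (.e false (nat_lit 3) (nat_lit 183) (nat_lit 4) (nat_lit 14) (.e false (nat_lit 1) (nat_lit 178) (nat_lit 4) (nat_lit 14) (.e false (nat_lit 3) (nat_lit 48) (nat_lit 22) (nat_lit 3) (.e false (nat_lit 3) (nat_lit 48) (nat_lit 23) (nat_lit 3) (.e true (nat_lit 1) (nat_lit 252) (nat_lit 1) (nat_lit 17) (.e false (nat_lit 3) (nat_lit 254) (nat_lit 1) (nat_lit 17) (.e false (nat_lit 1) (nat_lit 256) (nat_lit 1) (nat_lit 17) (.e true (nat_lit 1) (nat_lit 257) (nat_lit 1) (nat_lit 17) (.e false (nat_lit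 1) (nat_lit 258) (nat_lit 1) (nat_lit 17) (.e true (nat_lit 3) (nat_lit 259) (nat_lit 1) (nat_lit 17) (.e false (nat_lit 3) (nat_lit 260) (nat_lit 1) (nat_lit 17) (.e false (nat_lit 3) (nat_lit 262) (nat_lit 1) (nat_lit 17) (.e true (nat_lit 1) (nat_lit 263) (nat_lit 1) (nat_lit 17) (.e true (nat_lit 1) (nat_lit 264) (nat_lit 1) (nat_lit 17) (.e false (nat_lit 3) (nat_lit 265) (nat_lit 1) (nat_lit 17) (.e true (nat_lit 3) (nat_lit 284) (nat_lit 1) (nat_lit 17) (.e true (nat_lit 2) (nat_lit 289) (nat_lit 0) (nat_lit 18) (.e false (nat_lit 2) (nat_lit 290) (nat_lit 0) (nat_lit 18) (.e false (nat_lit 3) (nat_lit 291) (nat_lit 0) (nat_lit 18) (.e false (nat_lit 2) (nat_lit 295) (nat_lit 0) (nat_lit 18) (.e false (nat_lit 2) (nat_lit 296) (nat_lit 0) (nat_lit 18) (.e false (nat_lit 2) (nat_lit 298) (nat_lit 0) (nat_lit 18) (.e false (nat_lit 2) (nat_lit 303) (nat_lit 0) (nat_lit 18) (.e true (nat_lit 2) (nat_lit 304)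 (nat_lit 0) (nat_lit 18) (.u (nat_lit 2) (.n (nat_lit 0) (nat_lit 1) (.n (nat_lit 1) (nat_lit 2) (.p (nat_lit 2) (nat_lit 2) (.p (nat_lit 4) (nat_lit 1) (.p (nat_lit 6) (nat_lit 3) (.p (nat_lit 7) (nat_lit 1) (.p (nat_lit 9) (nat_lit 5) (.n (nat_lit 10) (nat_lit 1) (.p (nat_lit 11) (nat_lit 4) (.p (nat_lit 12) (nat_lit 1) (.p (nat_lit 14) (nat_lit 2) (.p (nat_lit 15) (nat_lit 4) (.n (nat_lit 17) (nat_lit 4) (.n (nat_lit 18) (nat_lit 5) (.p (nat_lit 19) (nat_lit 3) (.p (nat_lit 20) (nat_lit 2) (.n (nat_lit 21) (nat_lit 3) (.p (nat_lit 22) (nat_lit 3) (.p (nat_lit 24) (nat_lit 2) (.n (nat_lit 25) (nat_lit 3) (.n (nat_lit 26) (nat_lit 5) (.p (nat_lit 27) (nat_lit 1) (.p (nat_lit 28) (nat_lit 1) (.n (nat_lit 29) (nat_lit 2) (.p (nat_lit 31) (nat_lit 1) (.n (nat_lit 32) (nat_lit 1) (.p (nat_lit 33) (nat_lit 4) (.p (nat_lit 34) (nat_lit 2) (.n (nat_lit 35) (nat_lit 2) (.p (nat_lit 36) (nat_lit 1) (.n (nat_lit 37) (nat_lit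 4) (.n (nat_lit 38) (nat_lit 4) (.p (nat_lit 39) (nat_lit 6) (.n (nat_lit 40) (nat_lit 1) (.n (nat_lit 41) (nat_lit 2) (.n (nat_lit 45) (nat_lit 5) (.n (nat_lit 46) (nat_lit 3) (.p (nat_lit 47) (nat_lit 2) (.n (nat_lit 279) (nat_lit 1) (.p (nat_lit 281) (nat_lit 1) (.p (nat_lit 282) (nat_lit 1) (.p (nat_lit 283) (nat_lit 1) (.n (nat_lit 285) (nat_lit 1) (.n (nat_lit 286) (nat_lit 2) (.p (nat_lit 349) (nat_lit 1) (.n (nat_lit 353) (nat_lit 1) (.p (nat_lit 354) (nat_lit 1) (.n (nat_lit 355) (nat_lit 1) (.p (nat_lit 360) (nat_lit 1) (.p (nat_lit 361) (nat_lit 1) (.n (nat_lit 386) (nat_lit 1) (.p (nat_lit 387) (nat_lit 1) (.p (nat_lit 392) (nat_lit 1) (.p (nat_lit 393) (nat_lit 1) (.p (nat_lit 395) (nat_lit 1) (.p (nat_lit 400) (nat_lit 1) (.n (nat_lit 401) (nat_lit 1) .z))))))))))))))))))))))))))))))))))))))))))))))))))))))))) .nil)))))))))))))))))))))))))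

noncomputable def dC2d_i46 : IL := (.e true (nat_lit 2) (nat_lit 265) (nat_lit 2) (nat_lit 14) (.e false (nat_lit 1) (nat_lit 267) (nat_lit 2) (nat_lit 14) (.e true (nat_lit 3) (nat_lit 269) (nat_lit 2) (nat_lit 14) (.e false (nat_lit 3) (nat_lit 270) (nat_lit 2) (nat_lit 14) (.e false (nat_lit 3) (nat_lit 271) (nat_lit 2) (nat_lit 14) (.e true (nat_lit 3) (nat_lit 272) (nat_lit 2) (nat_lit 14) (.e false (nat_lit 3) (nat_lit 273) (nat_lit 2) (nat_lit 14) (.e false (nat_lit 2) (nat_lit 274) (nat_lit 2) (nat_lit 14) (.e false (nat_lit 2) (nat_lit 275) (nat_lit 2) (nat_lit 14) (.e true (nat_lit 2) (nat_lit 276) (nat_lit 2) (nat_lit 14) (.e true (nat_lit 3) (nat_lit 277) (nat_lit 2) (nat_lit 14) (.e false (nat_lit 1) (nat_lit 86) (nat_lit 18) (nat_lit 4) (.e true (nat_lit 2) (nat_lit 305) (nat_lit 1) (nat_lit 15) (.e true (nat_lit 3) (nat_lit 307) (nat_lit 1) (nat_lit 15) (.e false (nat_lit 3) (nat_lit 308) (nat_lit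 1) (nat_lit 15) (.e false (nat_lit 2) (nat_lit 309) (nat_lit 1) (nat_lit 15) (.e false (nat_lit 3) (nat_lit 310) (nat_lit 1) (nat_lit 15) (.e true (nat_lit 1) (nat_lit 311) (nat_lit 1) (nat_lit 15) (.e true (nat_lit 3) (nat_lit 312) (nat_lit 1) (nat_lit 15) (.e false (nat_lit 2) (nat_lit 313) (nat_lit 1) (nat_lit 15) (.e true (nat_lit 2) (nat_lit 314) (nat_lit 1) (nat_lit 15) (.e true (nat_lit 3) (nat_lit 315) (nat_lit 1) (nat_lit 15) (.e false (nat_lit 1) (nat_lit 322) (nat_lit 1) (nat_lit 15) (.e false (nat_lit 1) (nat_lit 281) (nat_lit 2) (nat_lit 14) (.u (nat_lit 2) (.n (nat_lit 0) (nat_lit 1) (.n (nat_lit 2) (nat_lit 4) (.n (nat_lit 4) (nat_lit 2) (.p (nat_lit 5) (nat_lit 1) (.n (nat_lit 6) (nat_lit 4) (.n (nat_lit 8) (nat_lit 1) (.n (nat_lit 9) (nat_lit 3) (.p (nat_lit 10) (nat_lit 3) (.p (nat_lit 11) (nat_lit 1) (.n (nat_lit 12) (nat_lit 1) (.n (nat_lit 13) (nat_lit 1) (.n (nat_lit 14) (nat_lit 1) (.p (nat_lit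 15) (nat_lit 2) (.p (nat_lit 16) (nat_lit 2) (.p (nat_lit 17) (nat_lit 1) (.n (nat_lit 18) (nat_lit 1) (.n (nat_lit 21) (nat_lit 1) (.p (nat_lit 23) (nat_lit 1) (.p (nat_lit 24) (nat_lit 1) (.n (nat_lit 25) (nat_lit 1) (.p (nat_lit 27) (nat_lit 1) (.p (nat_lit 31) (nat_lit 1) (.p (nat_lit 34) (nat_lit 2) (.n (nat_lit 35) (nat_lit 1) (.p (nat_lit 38) (nat_lit 1) .z))))))))))))))))))))))))) .nil)))))))))))))))))))))))))

noncomputable def dC2d_i47 : IL := (.e true (nat_lit 3) (nat_lit 140) (nat_lit 2) (nat_lit 11) (.e true (nat_lit 2) (nat_lit 142) (nat_lit 2) (nat_lit 11) (.e true (nat_lit 1) (nat_lit 143) (nat_lit 2) (nat_lit 11) (.e false (nat_lit 3) (nat_lit 144) (nat_lit 2) (nat_lit 11) (.e false (nat_lit 2) (nat_lit 25) (nat_lit 20) (nat_lit 0) (.e true (nat_lit 2) (nat_lit 35) (nat_lit 19) (nat_lit 1) (.e false (nat_lit 2) (nat_lit 179) (nat_lit 1) (nat_lit 12) (.e false (nat_lit 3) (nat_lit 141) (nat_lit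 2) (nat_lit 11) (.e true (nat_lit 1) (nat_lit 147) (nat_lit 2) (nat_lit 11) (.e true (nat_lit 1) (nat_lit 150) (nat_lit 2) (nat_lit 11) (.e false (nat_lit 2) (nat_lit 154) (nat_lit 2) (nat_lit 11) (.e false (nat_lit 3) (nat_lit 28) (nat_lit 20) (nat_lit 0) (.e true (nat_lit 2) (nat_lit 34) (nat_lit 19) (nat_lit 1) (.e true (nat_lit 2) (nat_lit 178) (nat_lit 1) (nat_lit 12) (.e false (nat_lit 2) (nat_lit 170) (nat_lit 1) (nat_lit 12) (.e true (nat_lit 2) (nat_lit 88) (nat_lit 6) (nat_lit 7) (.e true (nat_lit 2) (nat_lit 169) (nat_lit 1) (nat_lit 12) (.e true (nat_lit 3) (nat_lit 172) (nat_lit 1) (nat_lit 12) (.e true (nat_lit 2) (nat_lit 174) (nat_lit 1) (nat_lit 12) (.e true (nat_lit 1) (nat_lit 175) (nat_lit 1) (nat_lit 12) (.e true (nat_lit 3) (nat_lit 171) (nat_lit 1) (nat_lit 12) (.e true (nat_lit 3) (nat_lit 177) (nat_lit 1) (nat_lit 12) (.e true (nat_lit 2) (nat_lit 181) (nat_lit 1) (nat_lit 12) (.e false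 (nat_lit 1) (nat_lit 48) (nat_lit 8) (nat_lit 5) (.u (nat_lit 2) (.n (nat_lit 0) (nat_lit 1) (.n (nat_lit 1) (nat_lit 2) (.n (nat_lit 2) (nat_lit 2) (.p (nat_lit 4) (nat_lit 1) (.p (nat_lit 5) (nat_lit 2) (.p (nat_lit 7) (nat_lit 3) (.n (nat_lit 8) (nat_lit 2) (.p (nat_lit 11) (nat_lit 1) (.p (nat_lit 12) (nat_lit 1) (.p (nat_lit 13) (nat_lit 2) (.n (nat_lit 14) (nat_lit 4) (.n (nat_lit 15) (nat_lit 1) (.p (nat_lit 17) (nat_lit 2) (.n (nat_lit 18) (nat_lit 2) (.p (nat_lit 19) (nat_lit 1) (.n (nat_lit 20) (nat_lit 1) (.n (nat_lit 21) (nat_lit 2) (.p (nat_lit 22) (nat_lit 2) (.n (nat_lit 23) (nat_lit 5) (.n (nat_lit 24) (nat_lit 1) (.n (nat_lit 25) (nat_lit 1) (.n (nat_lit 26) (nat_lit 1) (.n (nat_lit 27) (nat_lit 1) (.p (nat_lit 31) (nat_lit 4) (.p (nat_lit 32) (nat_lit 1) (.n (nat_lit 33) (nat_lit 2) (.n (nat_lit 35) (nat_lit 1) (.n (nat_lit 58) (nat_lit 1) (.p (nat_lit 83) (nat_lit 1) (.n (nat_lit 85) (nat_lit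 1) (.p (nat_lit 88) (nat_lit 1) (.p (nat_lit 110) (nat_lit 1) (.p (nat_lit 111) (nat_lit 1) (.p (nat_lit 117) (nat_lit 2) (.n (nat_lit 118) (nat_lit 2) (.p (nat_lit 119) (nat_lit 1) (.p (nat_lit 120) (nat_lit 7) (.n (nat_lit 121) (nat_lit 1) (.p (nat_lit 122) (nat_lit 3) (.n (nat_lit 123) (nat_lit 1) (.p (nat_lit 124) (nat_lit 5) (.n (nat_lit 125) (nat_lit 4) (.p (nat_lit 126) (nat_lit 5) (.p (nat_lit 127) (nat_lit 1) (.n (nat_lit 129) (nat_lit 5) (.n (nat_lit 132) (nat_lit 1) (.n (nat_lit 134) (nat_lit 1) (.p (nat_lit 135) (nat_lit 1) (.p (nat_lit 136) (nat_lit 1) (.n (nat_lit 137) (nat_lit 1) (.n (nat_lit 138) (nat_lit 1) (.n (nat_lit 139) (nat_lit 5) (.p (nat_lit 140) (nat_lit 1) (.n (nat_lit 141) (nat_lit 1) (.p (nat_lit 143) (nat_lit 2) (.n (nat_lit 148) (nat_lit 1) (.n (nat_lit 149) (nat_lit 1) (.n (nat_lit 150) (nat_lit 1) (.p (nat_lit 151) (nat_lit 1) (.n (nat_lit 157) (nat_lit 1) .z))))))))))))))))))))))))))))))))))))))))))))))))))))))))))))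 .nil)))))))))))))))))))))))))

noncomputable def dC2d_i48 : IL := (.e false (nat_lit 2) (nat_lit 80) (nat_lit 6) (nat_lit 7) (.e false (nat_lit 1) (nat_lit 81) (nat_lit 6) (nat_lit 7) (.e false (nat_lit 2) (nat_lit 82) (nat_lit 6) (nat_lit 7) (.e false (nat_lit 3) (nat_lit 62) (nat_lit 7) (nat_lit 6) (.e true (nat_lit 2) (nat_lit 65) (nat_lit 7) (nat_lit 6) (.e false (nat_lit 3) (nat_lit 60) (nat_lit 7) (nat_lit 6) (.e false (nat_lit 2) (nat_lit 61) (nat_lit 7) (nat_lit 6) (.e true (nat_lit 2) (nat_lit 64) (nat_lit 7) (nat_lit 6) (.e true (nat_lit 2) (nat_lit 46) (nat_lit 11) (nat_lit 4) (.e false (nat_lit 2) (nat_lit 47) (nat_lit 11) (nat_lit 4) (.e true (nat_lit 1) (nat_lit 102) (nat_lit 3) (nat_lit 10) (.e false (nat_lit 2) (nat_lit 103) (nat_lit 3) (nat_lit 10) (.e true (nat_lit 1) (nat_lit 104) (nat_lit 3) (nat_lit 10) (.e true (nat_lit 1) (nat_lit 132) (nat_lit 2) (nat_lit 11) (.e false (nat_lit 3) (nat_lit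 134) (nat_lit 2) (nat_lit 11) (.e false (nat_lit 3) (nat_lit 135) (nat_lit 2) (nat_lit 11) (.e true (nat_lit 3) (nat_lit 137) (nat_lit 2) (nat_lit 11) (.e true (nat_lit 2) (nat_lit 138) (nat_lit 2) (nat_lit 11) (.e true (nat_lit 2) (nat_lit 145) (nat_lit 2) (nat_lit 11) (.e false (nat_lit 3) (nat_lit 149) (nat_lit 2) (nat_lit 11) (.e false (nat_lit 3) (nat_lit 152) (nat_lit 2) (nat_lit 11) (.e true (nat_lit 2) (nat_lit 157) (nat_lit 2) (nat_lit 11) (.e true (nat_lit 1) (nat_lit 153) (nat_lit 2) (nat_lit 11) (.e false (nat_lit 1) (nat_lit 136) (nat_lit 2) (nat_lit 11) (.e false (nat_lit 2) (nat_lit 139) (nat_lit 2) (nat_lit 11) dC2d_i47)))))))))))))))))))))))))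

noncomputable def dC2d_i49 : IL := (.s false (nat_lit 1) (nat_lit 7) (nat_lit 0) (nat_lit 6) (nat_lit 6) true (nat_lit 4) true (nat_lit 7) true (nat_lit 6) true (nat_lit 13) true (nat_lit 7) (.s false (nat_lit 1) (nat_lit 7) (nat_lit 0) (nat_lit 7) (nat_lit 4) true (nat_lit 5) true (nat_lit 9) true (nat_lit 6) true (nat_lit 13) true (nat_lit 6) (.s false (nat_lit 2) (nat_lit 7) (nat_lit 2) (nat_lit 6) (nat_lit 3) true (nat_lit 4) true (nat_lit 10) true (nat_lit 6) true (nat_lit 11) true (nat_lit 7) (.s true (nat_lit 1) (nat_lit 9) (nat_lit 2) (nat_lit 7) (nat_lit 2) true (nat_lit 6) true (nat_lit 11) true (nat_lit 5) true (nat_lit 11) true (nat_lit 6) (.s true (nat_lit 2) (nat_lit 9) (nat_lit 7) (nat_lit 2) (nat_lit 2) true (nat_lit 0) true (nat_lit 11) true (nat_lit 5) true (nat_lit 6) true (nat_lit 11) (.s false (nat_lit 2) (nat_lit 13) (nat_lit 1) (nat_lit 2) (nat_lit 7) true (nat_lit 1) true (nat_lit 6) true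 (nat_lit 4) true (nat_lit 12) true (nat_lit 11) (.s true (nat_lit 2) (nat_lit 13) (nat_lit 2) (nat_lit 1) (nat_lit 7) true (nat_lit 0) true (nat_lit 6) true (nat_lit 4) true (nat_lit 11) true (nat_lit 12) (.s false (nat_lit 2) (nat_lit 12) (nat_lit 2) (nat_lit 7) (nat_lit 1) true (nat_lit 7) true (nat_lit 12) true (nat_lit 4) true (nat_lit 11) true (nat_lit 6) (.s true (nat_lit 1) (nat_lit 13) (nat_lit 2) (nat_lit 7) (nat_lit 1) true (nat_lit 7) true (nat_lit 12) true (nat_lit 4) true (nat_lit 11) true (nat_lit 6) (.s true (nat_lit 1) (nat_lit 13) (nat_lit 7) (nat_lit 1) (nat_lit 2) true (nat_lit 0) true (nat_lit 11) true (nat_lit 4) true (nat_lit 6) true (nat_lit 12) (.s false (nat_lit 2) (nat_lit 12) (nat_lit 7) (nat_lit 2) (nat_lit 1) true (nat_lit 1) true (nat_lit 12) true (nat_lit 4) true (nat_lit 6) true (nat_lit 11) (.s true (nat_lit 2) (nat_lit 14) (nat_lit 0) (nat_lit 2) (nat_lit 7) true (nat_lit 2) true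 (nat_lit 6) true (nat_lit 3) true (nat_lit 13) true (nat_lit 11) (.s true (nat_lit 1) (nat_lit 14) (nat_lit 2) (nat_lit 7) (nat_lit 0) true (nat_lit 8) true (nat_lit 13) true (nat_lit 3) true (nat_lit 11) true (nat_lit 6) (.s false (nat_lit 1) (nat_lit 14) (nat_lit 5) (nat_lit 2) (nat_lit 2) true (nat_lit 2) true (nat_lit 11) true (nat_lit 3) true (nat_lit 8) true (nat_lit 11) (.s true (nat_lit 1) (nat_lit 16) (nat_lit 4) (nat_lit 2) (nat_lit 2) true (nat_lit 3) true (nat_lit 11) true (nat_lit 2) true (nat_lit 9) true (nat_lit 11) (.s true (nat_lit 2) (nat_lit 17) (nat_lit 4) (nat_lit 2) (nat_lit 2) true (nat_lit 3) true (nat_lit 11) true (nat_lit 2) true (nat_lit 9) true (nat_lit 11) (.s false (nat_lit 1) (nat_lit 20) (nat_lit 0) (nat_lit 2) (nat_lit 4) true (nat_lit 5) true (nat_lit 9) true (nat_lit 0) true (nat_lit 13) true (nat_lit 11) (.s false (nat_lit 1) (nat_lit 20) (nat_lit 2) (nat_lit 0) (nat_lit 4)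 true (nat_lit 3) true (nat_lit 9) true (nat_lit 0) true (nat_lit 11) true (nat_lit 13) (.s false (nat_lit 3) (nat_lit 34) (nat_lit 1) (nat_lit 2) (nat_lit 2) true (nat_lit 7) true (nat_lit 11) false (nat_lit 1) true (nat_lit 12) true (nat_lit 11) (.s true (nat_lit 3) (nat_lit 34) (nat_lit 2) (nat_lit 1) (nat_lit 2) true (nat_lit 6) true (nat_lit 11) false (nat_lit 1) true (nat_lit 11) true (nat_lit 12) (.s true (nat_lit 3) (nat_lit 39) (nat_lit 0) (nat_lit 2) (nat_lit 2) true (nat_lit 8) true (nat_lit 11) false (nat_lit 2) true (nat_lit 13) true (nat_lit 11) (.s true (nat_lit 3) (nat_lit 39) (nat_lit 2) (nat_lit 0) (nat_lit 2) true (nat_lit 6) true (nat_lit 11) false (nat_lit 2) true (nat_lit 11) true (nat_lit 13) (.s false (nat_lit 3) (nat_lit 39) (nat_lit 2) (nat_lit 2) (nat_lit 0) true (nat_lit 8) true (nat_lit 13) false (nat_lit 2) true (nat_lit 11) true (nat_lit 11) (.s true (nat_lit 2) (nat_lit 44) (nat_lit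 1) (nat_lit 1) (nat_lit 2) true (nat_lit 7) true (nat_lit 11) false (nat_lit 3) true (nat_lit 12) true (nat_lit 12) (.s false (nat_lit 1) (nat_lit 48) (nat_lit 0) (nat_lit 1) (nat_lit 1) true (nat_lit 10) true (nat_lit 12) false (nat_lit 5) true (nat_lit 13) true (nat_lit 12) dC2d_i48)))))))))))))))))))))))))

noncomputable def dC2d_i50 : IL := (.e false (nat_lit 1) (nat_lit 45) (nat_lit 26) (nat_lit 2) (.e true (nat_lit 2) (nat_lit 45) (nat_lit 27) (nat_lit 2) (.e true (nat_lit 1) (nat_lit 45) (nat_lit 28) (nat_lit 2) (.e false (nat_lit 1) (nat_lit 45) (nat_lit 29) (nat_lit 2) (.e true (nat_lit 2) (nat_lit 205) (nat_lit 2) (nat_lit 16) (.e false (nat_lit 2) (nat_lit 206) (nat_lit 2) (nat_lit 16) (.e false (nat_lit 1) (nat_lit 207) (nat_lit 2) (nat_lit 16) (.e true (nat_lit 1) (nat_lit 208) (nat_lit 2) (nat_lit 16) (.e false (nat_lit 2) (nat_lit 209) (nat_lit 2) (nat_lit 16) (.e true (nat_lit 1) (nat_lit 211)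 (nat_lit 2) (nat_lit 16) (.e false (nat_lit 1) (nat_lit 212) (nat_lit 2) (nat_lit 16) (.e false (nat_lit 1) (nat_lit 213) (nat_lit 2) (nat_lit 16) (.e true (nat_lit 1) (nat_lit 214) (nat_lit 2) (nat_lit 16) (.e true (nat_lit 1) (nat_lit 215) (nat_lit 2) (nat_lit 16) (.e true (nat_lit 3) (nat_lit 216) (nat_lit 2) (nat_lit 16) (.e true (nat_lit 3) (nat_lit 217) (nat_lit 2) (nat_lit 16) (.e true (nat_lit 1) (nat_lit 227) (nat_lit 2) (nat_lit 16) (.e false (nat_lit 3) (nat_lit 228) (nat_lit 2) (nat_lit 16) (.e false (nat_lit 1) (nat_lit 232) (nat_lit 2) (nat_lit 16) (.e true (nat_lit 3) (nat_lit 242) (nat_lit 2) (nat_lit 16) (.e true (nat_lit 3) (nat_lit 243) (nat_lit 2) (nat_lit 16) (.e true (nat_lit 1) (nat_lit 249) (nat_lit 2) (nat_lit 16) (.e false (nat_lit 2) (nat_lit 251) (nat_lit 2) (nat_lit 16) (.e true (nat_lit 1) (nat_lit 46) (nat_lit 27) (nat_lit 2) (.u (nat_lit 2) (.p (nat_lit 0) (nat_lit 4) (.n (nat_lit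 2) (nat_lit 3) (.n (nat_lit 3) (nat_lit 3) (.p (nat_lit 4) (nat_lit 1) (.p (nat_lit 5) (nat_lit 1) (.n (nat_lit 6) (nat_lit 3) (.n (nat_lit 7) (nat_lit 1) (.n (nat_lit 8) (nat_lit 3) (.p (nat_lit 9) (nat_lit 3) (.p (nat_lit 10) (nat_lit 4) (.p (nat_lit 11) (nat_lit 4) (.p (nat_lit 12) (nat_lit 1) (.n (nat_lit 14) (nat_lit 3) (.p (nat_lit 15) (nat_lit 1) (.n (nat_lit 16) (nat_lit 2) (.n (nat_lit 17) (nat_lit 3) (.p (nat_lit 18) (nat_lit 4) (.p (nat_lit 19) (nat_lit 2) (.p (nat_lit 20) (nat_lit 2) (.n (nat_lit 21) (nat_lit 4) (.p (nat_lit 22) (nat_lit 4) (.p (nat_lit 23) (nat_lit 3) (.n (nat_lit 24) (nat_lit 6) (.n (nat_lit 25) (nat_lit 2) (.p (nat_lit 26) (nat_lit 2) (.p (nat_lit 27) (nat_lit 2) (.n (nat_lit 28) (nat_lit 1) (.p (nat_lit 29) (nat_lit 3) (.n (nat_lit 31) (nat_lit 4) (.p (nat_lit 32) (nat_lit 2) (.p (nat_lit 33) (nat_lit 3) (.n (nat_lit 34) (nat_lit 5) (.p (nat_lit 35) (nat_lit 2) (.n (nat_lit 37)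 (nat_lit 2) (.n (nat_lit 38) (nat_lit 3) (.n (nat_lit 39) (nat_lit 6) (.n (nat_lit 40) (nat_lit 1) (.n (nat_lit 42) (nat_lit 1) (.n (nat_lit 46) (nat_lit 4) (.p (nat_lit 47) (nat_lit 7) (.p (nat_lit 48) (nat_lit 4) (.p (nat_lit 50) (nat_lit 1) (.n (nat_lit 53) (nat_lit 1) (.p (nat_lit 55) (nat_lit 1) (.n (nat_lit 61) (nat_lit 1) (.n (nat_lit 349) (nat_lit 1) (.p (nat_lit 351) (nat_lit 1) (.n (nat_lit 354) (nat_lit 1) (.n (nat_lit 358) (nat_lit 1) (.p (nat_lit 366) (nat_lit 1) (.n (nat_lit 368) (nat_lit 1) (.p (nat_lit 371) (nat_lit 1) (.p (nat_lit 373) (nat_lit 1) (.p (nat_lit 376) (nat_lit 1) .z)))))))))))))))))))))))))))))))))))))))))))))))))))))) .nil)))))))))))))))))))))))))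

noncomputable def dC2d_i51 : IL := (.e true (nat_lit 3) (nat_lit 279) (nat_lit 1) (nat_lit 17) (.e true (nat_lit 2) (nat_lit 286) (nat_lit 1) (nat_lit 17) (.e false (nat_lit 2) (nat_lit 288) (nat_lit 1) (nat_lit 17) (.e false (nat_lit 2) (nat_lit 280) (nat_lit 1) (nat_lit 17) (.e true (nat_lit 1) (nat_lit 266) (nat_lit 1) (nat_lit 17) (.e false (nat_lit 2) (nat_lit 272) (nat_lit 1) (nat_lit 17) (.e true (nat_lit 2) (nat_lit 283) (nat_lit 1) (nat_lit 17) (.e true (nat_lit 2) (nat_lit 281) (nat_lit 1) (nat_lit 17) (.e false (nat_lit 2) (nat_lit 285) (nat_lit 1) (nat_lit 17) (.e true (nat_lit 1) (nat_lit 260) (nat_lit 1) (nat_lit 17) (.e true (nat_lit 2) (nat_lit 282) (nat_lit 1) (nat_lit 17) (.e false (nat_lit 1) (nat_lit 166) (nat_lit 5) (nat_lit 13) (.e false (nat_lit 1) (nat_lit 289) (nat_lit 0) (nat_lit 18) (.e true (nat_lit 3) (nat_lit 290) (nat_lit 0) (nat_lit 18) (.e true (nat_lit 3) (nat_lit 291) (nat_lit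 0) (nat_lit 18) (.e false (nat_lit 3) (nat_lit 292) (nat_lit 0) (nat_lit 18) (.e false (nat_lit 2) (nat_lit 293) (nat_lit 0) (nat_lit 18) (.e true (nat_lit 3) (nat_lit 295) (nat_lit 0) (nat_lit 18) (.e true (nat_lit 3) (nat_lit 296) (nat_lit 0) (nat_lit 18) (.e true (nat_lit 3) (nat_lit 298) (nat_lit 0) (nat_lit 18) (.e true (nat_lit 1) (nat_lit 299) (nat_lit 0) (nat_lit 18) (.e false (nat_lit 2) (nat_lit 303) (nat_lit 0) (nat_lit 18) (.e true (nat_lit 1) (nat_lit 304) (nat_lit 0) (nat_lit 18) (.e false (nat_lit 1) (nat_lit 45) (nat_lit 24) (nat_lit 2) (.e false (nat_lit 1) (nat_lit 45) (nat_lit 25) (nat_lit 2) dC2d_i50)))))))))))))))))))))))))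

noncomputable def dC2d_i52 : IL := (.e true (nat_lit 1) (nat_lit 165) (nat_lit 5) (nat_lit 13) (.e true (nat_lit 2) (nat_lit 167) (nat_lit 5) (nat_lit 13) (.e false (nat_lit 1) (nat_lit 46) (nat_lit 24) (nat_lit 2) (.e true (nat_lit 1) (nat_lit 46) (nat_lit 26) (nat_lit 2) (.e false (nat_lit 1) (nat_lit 46) (nat_lit 28) (nat_lit 2) (.e false (nat_lit 1) (nat_lit 46) (nat_lit 29) (nat_lit 2) (.e false (nat_lit 3) (nat_lit 252) (nat_lit 1) (nat_lit 17) (.e false (nat_lit 1) (nat_lit 253) (nat_lit 1) (nat_lit 17) (.e true (nat_lit 1) (nat_lit 254) (nat_lit 1) (nat_lit 17) (.e true (nat_lit 2) (nat_lit 256) (nat_lit 1) (nat_lit 17) (.e false (nat_lit 2) (nat_lit 257) (nat_lit 1) (nat_lit 17) (.e false (nat_lit 1) (nat_lit 258) (nat_lit 1) (nat_lit 17) (.e true (nat_lit 3) (nat_lit 259) (nat_lit 1) (nat_lit 17) (.e false (nat_lit 1) (nat_lit 261) (nat_lit 1) (nat_lit 17) (.e false (nat_lit 1) (nat_lit 262) (nat_lit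 1) (nat_lit 17) (.e true (nat_lit 3) (nat_lit 264) (nat_lit 1) (nat_lit 17) (.e false (nat_lit 1) (nat_lit 265) (nat_lit 1) (nat_lit 17) (.e true (nat_lit 1) (nat_lit 267) (nat_lit 1) (nat_lit 17) (.e true (nat_lit 2) (nat_lit 269) (nat_lit 1) (nat_lit 17) (.e true (nat_lit 2) (nat_lit 270) (nat_lit 1) (nat_lit 17) (.e false (nat_lit 3) (nat_lit 271) (nat_lit 1) (nat_lit 17) (.e true (nat_lit 3) (nat_lit 273) (nat_lit 1) (nat_lit 17) (.e true (nat_lit 2) (nat_lit 274) (nat_lit 1) (nat_lit 17) (.e true (nat_lit 3) (nat_lit 276) (nat_lit 1) (nat_lit 17) (.e false (nat_lit 1) (nat_lit 277) (nat_lit 1) (nat_lit 17) dC2d_i51)))))))))))))))))))))))))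

noncomputable def dC2d_i53 : IL := (.e true (nat_lit 1) (nat_lit 218) (nat_lit 2) (nat_lit 16) (.e true (nat_lit 1) (nat_lit 219) (nat_lit 2) (nat_lit 16) (.e false (nat_lit 3) (nat_lit 220) (nat_lit 2) (nat_lit 16) (.e true (nat_lit 2) (nat_lit 221) (nat_lit 2) (nat_lit 16) (.e false (nat_lit 2) (nat_lit 222) (nat_lit 2) (nat_lit 16) (.e false (nat_lit 2) (nat_lit 225) (nat_lit 2) (nat_lit 16) (.e true (nat_lit 2) (nat_lit 226) (nat_lit 2) (nat_lit 16) (.e true (nat_lit 1) (nat_lit 227) (nat_lit 2) (nat_lit 16) (.e false (nat_lit 3) (nat_lit 228) (nat_lit 2) (nat_lit 16) (.e true (nat_lit 1) (nat_lit 230) (nat_lit 2) (nat_lit 16) (.e true (nat_lit 1) (nat_lit 231) (nat_lit 2) (nat_lit 16) (.e false (nat_lit 3) (nat_lit 232) (nat_lit 2) (nat_lit 16) (.e true (nat_lit 2) (nat_lit 234) (nat_lit 2) (nat_lit 16) (.e false (nat_lit 3) (nat_lit 239) (nat_lit 2) (nat_lit 16) (.e false (nat_lit 2) (nat_lit 242) (nat_lit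 2) (nat_lit 16) (.e false (nat_lit 3) (nat_lit 243) (nat_lit 2) (nat_lit 16) (.e false (nat_lit 1) (nat_lit 244) (nat_lit 2) (nat_lit 16) (.e false (nat_lit 2) (nat_lit 245) (nat_lit 2) (nat_lit 16) (.e true (nat_lit 1) (nat_lit 246) (nat_lit 2) (nat_lit 16) (.e false (nat_lit 2) (nat_lit 247) (nat_lit 2) (nat_lit 16) (.e false (nat_lit 2) (nat_lit 248) (nat_lit 2) (nat_lit 16) (.e false (nat_lit 3) (nat_lit 249) (nat_lit 2) (nat_lit 16) (.e false (nat_lit 3) (nat_lit 250) (nat_lit 2) (nat_lit 16) (.e false (nat_lit 1) (nat_lit 251) (nat_lit 2) (nat_lit 16) (.u (nat_lit 2) (.n (nat_lit 0) (nat_lit 1) (.n (nat_lit 2) (nat_lit 5) (.n (nat_lit 3) (nat_lit 3) (.p (nat_lit 4) (nat_lit 2) (.p (nat_lit 5) (nat_lit 4) (.n (nat_lit 6) (nat_lit 3) (.n (nat_lit 7) (nat_lit 4) (.p (nat_lit 8) (nat_lit 7) (.n (nat_lit 9) (nat_lit 2) (.n (nat_lit 10) (nat_lit 2) (.p (nat_lit 11) (nat_lit 4) (.n (nat_lit 12) (nat_lit 2) (.n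 (nat_lit 14) (nat_lit 2) (.p (nat_lit 15) (nat_lit 3) (.n (nat_lit 16) (nat_lit 11) (.p (nat_lit 17) (nat_lit 3) (.p (nat_lit 18) (nat_lit 1) (.n (nat_lit 19) (nat_lit 1) (.p (nat_lit 20) (nat_lit 2) (.p (nat_lit 21) (nat_lit 9) (.n (nat_lit 22) (nat_lit 9) (.n (nat_lit 23) (nat_lit 1) (.p (nat_lit 25) (nat_lit 2) (.n (nat_lit 26) (nat_lit 4) (.p (nat_lit 27) (nat_lit 1) (.n (nat_lit 28) (nat_lit 3) (.p (nat_lit 29) (nat_lit 1) (.p (nat_lit 31) (nat_lit 1) (.n (nat_lit 32) (nat_lit 3) (.p (nat_lit 33) (nat_lit 2) (.n (nat_lit 34) (nat_lit 2) (.p (nat_lit 37) (nat_lit 2) (.n (nat_lit 38) (nat_lit 2) (.n (nat_lit 39) (nat_lit 2) (.p (nat_lit 40) (nat_lit 1) (.p (nat_lit 41) (nat_lit 1) (.p (nat_lit 44) (nat_lit 1) (.n (nat_lit 46) (nat_lit 3) (.p (nat_lit 47) (nat_lit 4) (.p (nat_lit 48) (nat_lit 2) (.p (nat_lit 50) (nat_lit 1) (.n (nat_lit 53) (nat_lit 1) .z)))))))))))))))))))))))))))))))))))))))))) .nil)))))))))))))))))))))))))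

noncomputable def dC2d_i54 : IL := (.e false (nat_lit 1) (nat_lit 143) (nat_lit 2) (nat_lit 11) (.e true (nat_lit 3) (nat_lit 144) (nat_lit 2) (nat_lit 11) (.e false (nat_lit 1) (nat_lit 60) (nat_lit 7) (nat_lit 6) (.e true (nat_lit 3) (nat_lit 73) (nat_lit 7) (nat_lit 6) (.e true (nat_lit 1) (nat_lit 141) (nat_lit 2) (nat_lit 11) (.e false (nat_lit 3) (nat_lit 147) (nat_lit 2) (nat_lit 11) (.e true (nat_lit 2) (nat_lit 150) (nat_lit 2) (nat_lit 11) (.e true (nat_lit 1) (nat_lit 151) (nat_lit 2) (nat_lit 11) (.e true (nat_lit 1) (nat_lit 154) (nat_lit 2) (nat_lit 11) (.e true (nat_lit 2) (nat_lit 155) (nat_lit 2) (nat_lit 11) (.e false (nat_lit 1) (nat_lit 156) (nat_lit 2) (nat_lit 11) (.e true (nat_lit 1) (nat_lit 146) (nat_lit 2) (nat_lit 11) (.e false (nat_lit 3) (nat_lit 34) (nat_lit 19) (nat_lit 1) (.e true (nat_lit 3) (nat_lit 178) (nat_lit 1) (nat_lit 12) (.e true (nat_lit 3) (nat_lit 29) (nat_lit 20)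 (nat_lit 0) (.e true (nat_lit 3) (nat_lit 169) (nat_lit 1) (nat_lit 12) (.e false (nat_lit 1) (nat_lit 170) (nat_lit 1) (nat_lit 12) (.e false (nat_lit 2) (nat_lit 177) (nat_lit 1) (nat_lit 12) (.e false (nat_lit 2) (nat_lit 181) (nat_lit 1) (nat_lit 12) (.e true (nat_lit 1) (nat_lit 24) (nat_lit 20) (nat_lit 0) (.e false (nat_lit 3) (nat_lit 26) (nat_lit 20) (nat_lit 0) (.e true (nat_lit 2) (nat_lit 27) (nat_lit 20) (nat_lit 0) (.e false (nat_lit 3) (nat_lit 88) (nat_lit 6) (nat_lit 7) (.u (nat_lit 2) (.n (nat_lit 0) (nat_lit 4) (.p (nat_lit 1) (nat_lit 1) (.p (nat_lit 2) (nat_lit 6) (.n (nat_lit 3) (nat_lit 1) (.n (nat_lit 4) (nat_lit 1) (.n (nat_lit 5) (nat_lit 4) (.p (nat_lit 6) (nat_lit 1) (.n (nat_lit 7) (nat_lit 2) (.p (nat_lit 8) (nat_lit 1) (.n (nat_lit 9) (nat_lit 1) (.n (nat_lit 10) (nat_lit 2) (.n (nat_lit 12) (nat_lit 1) (.n (nat_lit 13) (nat_lit 3) (.p (nat_lit 14) (nat_lit 3) (.n (nat_lit 17) (nat_lit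 4) (.p (nat_lit 19) (nat_lit 1) (.p (nat_lit 20) (nat_lit 3) (.p (nat_lit 21) (nat_lit 4) (.n (nat_lit 22) (nat_lit 4) (.p (nat_lit 23) (nat_lit 2) (.n (nat_lit 24) (nat_lit 1) (.n (nat_lit 25) (nat_lit 2) (.n (nat_lit 31) (nat_lit 1) (.p (nat_lit 32) (nat_lit 1) (.p (nat_lit 33) (nat_lit 3) (.n (nat_lit 38) (nat_lit 1) (.n (nat_lit 39) (nat_lit 1) (.p (nat_lit 40) (nat_lit 1) (.p (nat_lit 41) (nat_lit 1) (.p (nat_lit 55) (nat_lit 1) (.n (nat_lit 56) (nat_lit 1) (.p (nat_lit 57) (nat_lit 1) (.n (nat_lit 58) (nat_lit 1) (.p (nat_lit 59) (nat_lit 1) (.n (nat_lit 61) (nat_lit 1) (.n (nat_lit 78) (nat_lit 3) (.n (nat_lit 79) (nat_lit 4) (.p (nat_lit 81) (nat_lit 4) (.p (nat_lit 82) (nat_lit 1) (.n (nat_lit 83) (nat_lit 3) (.n (nat_lit 84) (nat_lit 1) (.n (nat_lit 85) (nat_lit 1) (.p (nat_lit 86) (nat_lit 2) (.p (nat_lit 88) (nat_lit 1) (.n (nat_lit 89) (nat_lit 3) (.p (nat_lit 90) (nat_lit 1) (.n (nat_lit 91) (nat_lit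 1) (.n (nat_lit 92) (nat_lit 1) (.p (nat_lit 93) (nat_lit 1) (.p (nat_lit 96) (nat_lit 1) (.p (nat_lit 97) (nat_lit 2) (.n (nat_lit 104) (nat_lit 1) (.p (nat_lit 105) (nat_lit 1) (.n (nat_lit 108) (nat_lit 1) (.p (nat_lit 114) (nat_lit 1) (.p (nat_lit 116) (nat_lit 1) (.p (nat_lit 117) (nat_lit 8) (.n (nat_lit 118) (nat_lit 2) (.p (nat_lit 119) (nat_lit 19) (.n (nat_lit 120) (nat_lit 4) .z)))))))))))))))))))))))))))))))))))))))))))))))))))))))))))) (.u (nat_lit 2) (.p (nat_lit 121) (nat_lit 1) (.n (nat_lit 122) (nat_lit 9) (.n (nat_lit 123) (nat_lit 13) (.p (nat_lit 124) (nat_lit 2) (.n (nat_lit 125) (nat_lit 3) (.n (nat_lit 126) (nat_lit 1) (.p (nat_lit 128) (nat_lit 5) (.p (nat_lit 129) (nat_lit 1) (.p (nat_lit 130) (nat_lit 2) (.n (nat_lit 131) (nat_lit 1) (.p (nat_lit 132) (nat_lit 10) (.n (nat_lit 134) (nat_lit 13) (.n (nat_lit 135) (nat_lit 6) (.n (nat_lit 136) (nat_lit 5) (.p (nat_lit 137) (nat_lit 7) (.p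 (nat_lit 138) (nat_lit 12) (.p (nat_lit 139) (nat_lit 2) (.n (nat_lit 140) (nat_lit 15) (.p (nat_lit 141) (nat_lit 13) (.n (nat_lit 142) (nat_lit 11) (.p (nat_lit 143) (nat_lit 11) (.n (nat_lit 144) (nat_lit 10) (.n (nat_lit 146) (nat_lit 1) (.n (nat_lit 147) (nat_lit 2) (.n (nat_lit 148) (nat_lit 10) (.n (nat_lit 149) (nat_lit 1) (.n (nat_lit 151) (nat_lit 1) (.p (nat_lit 154) (nat_lit 1) (.n (nat_lit 156) (nat_lit 2) (.p (nat_lit 158) (nat_lit 1) (.n (nat_lit 160) (nat_lit 5) (.p (nat_lit 161) (nat_lit 2) (.n (nat_lit 164) (nat_lit 1) .z))))))))))))))))))))))))))))))))) .nil)))))))))))))))))))))))))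

noncomputable def dC2d_i55 : IL := (.s false (nat_lit 3) (nat_lit 44) (nat_lit 2) (nat_lit 1) (nat_lit 1) true (nat_lit 7) true (nat_lit 12) false (nat_lit 3) true (nat_lit 11) true (nat_lit 12) (.e true (nat_lit 3) (nat_lit 80) (nat_lit 6) (nat_lit 7) (.e false (nat_lit 1) (nat_lit 81) (nat_lit 6) (nat_lit 7) (.e false (nat_lit 3) (nat_lit 62) (nat_lit 7) (nat_lit 6) (.e false (nat_lit 1) (nat_lit 65) (nat_lit 7) (nat_lit 6) (.e false (nat_lit 2) (nat_lit 66) (nat_lit 7) (nat_lit 6) (.e true (nat_lit 1) (nat_lit 72) (nat_lit 7) (nat_lit 6) (.e false (nat_lit 3) (nat_lit 46) (nat_lit 11) (nat_lit 4) (.e true (nat_lit 2) (nat_lit 47) (nat_lit 11) (nat_lit 4) (.e true (nat_lit 3) (nat_lit 102) (nat_lit 3) (nat_lit 10) (.e true (nat_lit 3) (nat_lit 103) (nat_lit 3) (nat_lit 10) (.e true (nat_lit 3) (nat_lit 104) (nat_lit 3) (nat_lit 10) (.e false (nat_lit 3) (nat_lit 61) (nat_lit 7) (nat_lit 6) (.e false (nat_lit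 3) (nat_lit 132) (nat_lit 2) (nat_lit 11) (.e true (nat_lit 1) (nat_lit 134) (nat_lit 2) (nat_lit 11) (.e false (nat_lit 1) (nat_lit 135) (nat_lit 2) (nat_lit 11) (.e false (nat_lit 1) (nat_lit 137) (nat_lit 2) (nat_lit 11) (.e true (nat_lit 1) (nat_lit 138) (nat_lit 2) (nat_lit 11) (.e true (nat_lit 3) (nat_lit 145) (nat_lit 2) (nat_lit 11) (.e false (nat_lit 2) (nat_lit 149) (nat_lit 2) (nat_lit 11) (.e false (nat_lit 1) (nat_lit 152) (nat_lit 2) (nat_lit 11) (.e false (nat_lit 2) (nat_lit 25) (nat_lit 20) (nat_lit 0) (.e true (nat_lit 2) (nat_lit 139) (nat_lit 2) (nat_lit 11) (.e false (nat_lit 1) (nat_lit 140) (nat_lit 2) (nat_lit 11) (.e true (nat_lit 3) (nat_lit 142) (nat_lit 2) (nat_lit 11) dC2d_i54)))))))))))))))))))))))))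

noncomputable def dC2d_i56 : IL := (.s false (nat_lit 1) (nat_lit 17) (nat_lit 1) (nat_lit 7) (nat_lit 1) true (nat_lit 9) true (nat_lit 12) true (nat_lit 2) true (nat_lit 12) true (nat_lit 6) (.s true (nat_lit 2) (nat_lit 16) (nat_lit 2) (nat_lit 2) (nat_lit 4) true (nat_lit 3) true (nat_lit 9) true (nat_lit 2) true (nat_lit 11) true (nat_lit 11) (.s false (nat_lit 3) (nat_lit 17) (nat_lit 2) (nat_lit 4) (nat_lit 2) true (nat_lit 6) true (nat_lit 11) true (nat_lit 2) true (nat_lit 11) true (nat_lit 9) (.s false (nat_lit 1) (nat_lit 16) (nat_lit 4) (nat_lit 2) (nat_lit 2) true (nat_lit 3) true (nat_lit 11) true (nat_lit 2) true (nat_lit 9) true (nat_lit 11) (.s false (nat_lit 3) (nat_lit 17) (nat_lit 7) (nat_lit 1) (nat_lit 1) true (nat_lit 1) true (nat_lit 12) true (nat_lit 2) true (nat_lit 6) true (nat_lit 12) (.s true (nat_lit 1) (nat_lit 20) (nat_lit 0) (nat_lit 2) (nat_lit 4) true (nat_lit 5) true (nat_lit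 9) true (nat_lit 0) true (nat_lit 13) true (nat_lit 11) (.s true (nat_lit 2) (nat_lit 20) (nat_lit 0) (nat_lit 4) (nat_lit 2) true (nat_lit 8) true (nat_lit 11) true (nat_lit 0) true (nat_lit 13) true (nat_lit 9) (.s true (nat_lit 3) (nat_lit 20) (nat_lit 2) (nat_lit 0) (nat_lit 4) true (nat_lit 3) true (nat_lit 9) true (nat_lit 0) true (nat_lit 11) true (nat_lit 13) (.s false (nat_lit 1) (nat_lit 20) (nat_lit 2) (nat_lit 1) (nat_lit 3) true (nat_lit 4) true (nat_lit 10) true (nat_lit 0) true (nat_lit 11) true (nat_lit 12) (.s true (nat_lit 3) (nat_lit 20) (nat_lit 2) (nat_lit 4) (nat_lit 0) true (nat_lit 8) true (nat_lit 13) true (nat_lit 0) true (nat_lit 11) true (nat_lit 9) (.s true (nat_lit 2) (nat_lit 28) (nat_lit 2) (nat_lit 2) (nat_lit 2) true (nat_lit 6) true (nat_lit 11) false (nat_lit 0) true (nat_lit 11) true (nat_lit 11) (.s true (nat_lit 2) (nat_lit 34) (nat_lit 1) (nat_lit 2) (nat_lit 2) true (nat_lit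 7) true (nat_lit 11) false (nat_lit 1) true (nat_lit 12) true (nat_lit 11) (.s false (nat_lit 2) (nat_lit 34) (nat_lit 2) (nat_lit 1) (nat_lit 2) true (nat_lit 6) true (nat_lit 11) false (nat_lit 1) true (nat_lit 11) true (nat_lit 12) (.s false (nat_lit 2) (nat_lit 35) (nat_lit 2) (nat_lit 1) (nat_lit 2) true (nat_lit 6) true (nat_lit 11) false (nat_lit 1) true (nat_lit 11) true (nat_lit 12) (.s true (nat_lit 2) (nat_lit 35) (nat_lit 2) (nat_lit 2) (nat_lit 1) true (nat_lit 7) true (nat_lit 12) false (nat_lit 1) true (nat_lit 11) true (nat_lit 11) (.s true (nat_lit 3) (nat_lit 37) (nat_lit 2) (nat_lit 2) (nat_lit 1) true (nat_lit 7) true (nat_lit 12) false (nat_lit 1) true (nat_lit 11) true (nat_lit 11) (.s false (nat_lit 1) (nat_lit 39) (nat_lit 0) (nat_lit 2) (nat_lit 2) true (nat_lit 8) true (nat_lit 11) false (nat_lit 2) true (nat_lit 13) true (nat_lit 11) (.s false (nat_lit 3) (nat_lit 41) (nat_lit 0) (nat_lit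 2) (nat_lit 2) true (nat_lit 8) true (nat_lit 11) false (nat_lit 2) true (nat_lit 13) true (nat_lit 11) (.s true (nat_lit 2) (nat_lit 39) (nat_lit 2) (nat_lit 0) (nat_lit 2) true (nat_lit 6) true (nat_lit 11) false (nat_lit 2) true (nat_lit 11) true (nat_lit 13) (.s false (nat_lit 2) (nat_lit 39) (nat_lit 2) (nat_lit 2) (nat_lit 0) true (nat_lit 8) true (nat_lit 13) false (nat_lit 2) true (nat_lit 11) true (nat_lit 11) (.s true (nat_lit 2) (nat_lit 40) (nat_lit 2) (nat_lit 2) (nat_lit 0) true (nat_lit 8) true (nat_lit 13) false (nat_lit 2) true (nat_lit 11) true (nat_lit 11) (.s false (nat_lit 2) (nat_lit 41) (nat_lit 2) (nat_lit 2) (nat_lit 0) true (nat_lit 8) true (nat_lit 13) false (nat_lit 2) true (nat_lit 11) true (nat_lit 11) (.s false (nat_lit 2) (nat_lit 42) (nat_lit 1) (nat_lit 1) (nat_lit 2) true (nat_lit 7) true (nat_lit 11) false (nat_lit 3) true (nat_lit 12) true (nat_lit 12) (.s false (nat_lit 2)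 (nat_lit 42) (nat_lit 1) (nat_lit 2) (nat_lit 1) true (nat_lit 9) true (nat_lit 12) false (nat_lit 3) true (nat_lit 12) true (nat_lit 11) (.s true (nat_lit 2) (nat_lit 42) (nat_lit 2) (nat_lit 1) (nat_lit 1) true (nat_lit 7) true (nat_lit 12) false (nat_lit 3) true (nat_lit 11) true (nat_lit 12) dC2d_i55)))))))))))))))))))))))))

noncomputable def dC2d_i57 : IL := (.e true (nat_lit 1) (nat_lit 260) (nat_lit 1) (nat_lit 17) (.e false (nat_lit 3) (nat_lit 261) (nat_lit 1) (nat_lit 17) (.e true (nat_lit 1) (nat_lit 262) (nat_lit 1) (nat_lit 17) (.e false (nat_lit 1) (nat_lit 264) (nat_lit 1) (nat_lit 17) (.e true (nat_lit 2) (nat_lit 265) (nat_lit 1) (nat_lit 17) (.e true (nat_lit 2) (nat_lit 266) (nat_lit 1) (nat_lit 17) (.e false (nat_lit 3) (nat_lit 267) (nat_lit 1) (nat_lit 17) (.e true (nat_lit 2) (nat_lit 270) (nat_lit 1) (nat_lit 17) (.e false (nat_lit 1) (nat_lit 271) (nat_lit 1) (nat_lit 17) (.e true (nat_lit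 3) (nat_lit 272) (nat_lit 1) (nat_lit 17) (.e true (nat_lit 3) (nat_lit 273) (nat_lit 1) (nat_lit 17) (.e false (nat_lit 1) (nat_lit 274) (nat_lit 1) (nat_lit 17) (.e true (nat_lit 1) (nat_lit 276) (nat_lit 1) (nat_lit 17) (.e false (nat_lit 2) (nat_lit 279) (nat_lit 1) (nat_lit 17) (.e true (nat_lit 1) (nat_lit 283) (nat_lit 1) (nat_lit 17) (.e true (nat_lit 1) (nat_lit 284) (nat_lit 1) (nat_lit 17) (.e true (nat_lit 1) (nat_lit 285) (nat_lit 1) (nat_lit 17) (.e false (nat_lit 2) (nat_lit 287) (nat_lit 1) (nat_lit 17) (.e true (nat_lit 1) (nat_lit 236) (nat_lit 2) (nat_lit 16) (.e true (nat_lit 1) (nat_lit 258) (nat_lit 1) (nat_lit 17) (.e false (nat_lit 1) (nat_lit 278) (nat_lit 1) (nat_lit 17) (.e true (nat_lit 1) (nat_lit 286) (nat_lit 1) (nat_lit 17) (.e false (nat_lit 1) (nat_lit 288) (nat_lit 1) (nat_lit 17) (.u (nat_lit 2) (.p (nat_lit 0) (nat_lit 4) (.n (nat_lit 2) (nat_lit 6) (.n (nat_lit 3) (nat_lit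 2) (.n (nat_lit 4) (nat_lit 2) (.n (nat_lit 5) (nat_lit 1) (.p (nat_lit 6) (nat_lit 3) (.n (nat_lit 7) (nat_lit 2) (.p (nat_lit 8) (nat_lit 5) (.n (nat_lit 9) (nat_lit 1) (.p (nat_lit 10) (nat_lit 5) (.n (nat_lit 11) (nat_lit 2) (.n (nat_lit 15) (nat_lit 3) (.n (nat_lit 16) (nat_lit 8) (.n (nat_lit 17) (nat_lit 3) (.n (nat_lit 18) (nat_lit 2) (.p (nat_lit 19) (nat_lit 4) (.n (nat_lit 20) (nat_lit 1) (.n (nat_lit 21) (nat_lit 4) (.p (nat_lit 22) (nat_lit 4) (.n (nat_lit 23) (nat_lit 1) (.n (nat_lit 24) (nat_lit 4) (.p (nat_lit 25) (nat_lit 2) (.n (nat_lit 26) (nat_lit 11) (.n (nat_lit 27) (nat_lit 1) (.p (nat_lit 28) (nat_lit 1) (.n (nat_lit 29) (nat_lit 2) (.p (nat_lit 31) (nat_lit 10) (.n (nat_lit 32) (nat_lit 4) (.p (nat_lit 33) (nat_lit 4) (.n (nat_lit 34) (nat_lit 7) (.p (nat_lit 35) (nat_lit 2) (.p (nat_lit 36) (nat_lit 6) (.p (nat_lit 37) (nat_lit 4) (.n (nat_lit 38) (nat_lit 4) (.p (nat_lit 39) (nat_lit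 1) (.p (nat_lit 40) (nat_lit 3) (.p (nat_lit 41) (nat_lit 1) (.n (nat_lit 42) (nat_lit 1) (.n (nat_lit 44) (nat_lit 1) (.p (nat_lit 45) (nat_lit 3) (.n (nat_lit 46) (nat_lit 4) (.n (nat_lit 47) (nat_lit 2) (.p (nat_lit 48) (nat_lit 3) (.n (nat_lit 302) (nat_lit 3) (.p (nat_lit 303) (nat_lit 1) (.n (nat_lit 304) (nat_lit 4) (.n (nat_lit 305) (nat_lit 3) (.n (nat_lit 306) (nat_lit 2) (.p (nat_lit 307) (nat_lit 3) (.p (nat_lit 308) (nat_lit 5) (.n (nat_lit 309) (nat_lit 3) (.n (nat_lit 312) (nat_lit 6) (.p (nat_lit 313) (nat_lit 1) (.p (nat_lit 314) (nat_lit 1) (.n (nat_lit 315) (nat_lit 4) (.n (nat_lit 316) (nat_lit 2) (.n (nat_lit 317) (nat_lit 4) (.p (nat_lit 318) (nat_lit 5) (.n (nat_lit 319) (nat_lit 3) (.p (nat_lit 322) (nat_lit 3) .z)))))))))))))))))))))))))))))))))))))))))))))))))))))))))))) (.u (nat_lit 2) (.p (nat_lit 323) (nat_lit 4) (.p (nat_lit 324) (nat_lit 7) (.p (nat_lit 325) (nat_lit 4) (.p (nat_lit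 326) (nat_lit 6) (.p (nat_lit 327) (nat_lit 7) (.p (nat_lit 328) (nat_lit 3) (.n (nat_lit 329) (nat_lit 2) (.n (nat_lit 330) (nat_lit 1) (.n (nat_lit 331) (nat_lit 1) (.p (nat_lit 332) (nat_lit 1) (.p (nat_lit 336) (nat_lit 1) (.n (nat_lit 339) (nat_lit 1) (.p (nat_lit 340) (nat_lit 3) (.n (nat_lit 341) (nat_lit 2) (.p (nat_lit 342) (nat_lit 2) (.n (nat_lit 343) (nat_lit 4) (.n (nat_lit 344) (nat_lit 6) (.n (nat_lit 345) (nat_lit 1) (.n (nat_lit 346) (nat_lit 2) (.p (nat_lit 348) (nat_lit 1) (.n (nat_lit 350) (nat_lit 1) (.n (nat_lit 351) (nat_lit 1) (.p (nat_lit 356) (nat_lit 1) (.p (nat_lit 360) (nat_lit 1) (.p (nat_lit 361) (nat_lit 1) (.n (nat_lit 368) (nat_lit 1) (.n (nat_lit 371) (nat_lit 1) (.p (nat_lit 373) (nat_lit 1) .z)))))))))))))))))))))))))))) .nil)))))))))))))))))))))))))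

noncomputable def dC2d_i58 : IL := (.e true (nat_lit 1) (nat_lit 110) (nat_lit 7) (nat_lit 11) (.e true (nat_lit 3) (nat_lit 112) (nat_lit 7) (nat_lit 11) (.e true (nat_lit 1) (nat_lit 113) (nat_lit 7) (nat_lit 11) (.e false (nat_lit 3) (nat_lit 114) (nat_lit 7) (nat_lit 11) (.e false (nat_lit 2) (nat_lit 115) (nat_lit 7) (nat_lit 11) (.e true (nat_lit 1) (nat_lit 116) (nat_lit 7) (nat_lit 11) (.e true (nat_lit 2) (nat_lit 117) (nat_lit 7) (nat_lit 11) (.e false (nat_lit 1) (nat_lit 118) (nat_lit 7) (nat_lit 11) (.e true (nat_lit 2) (nat_lit 120) (nat_lit 7) (nat_lit 11) (.e true (nat_lit 1) (nat_lit 121) (nat_lit 7) (nat_lit 11) (.e false (nat_lit 3) (nat_lit 122) (nat_lit 7) (nat_lit 11) (.e true (nat_lit 2) (nat_lit 123) (nat_lit 7) (nat_lit 11) (.e true (nat_lit 1) (nat_lit 124) (nat_lit 7) (nat_lit 11) (.e false (nat_lit 1) (nat_lit 126) (nat_lit 7) (nat_lit 11) (.e false (nat_lit 1) (nat_lit 127) (nat_lit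 7) (nat_lit 11) (.e true (nat_lit 2) (nat_lit 130) (nat_lit 7) (nat_lit 11) (.e true (nat_lit 3) (nat_lit 131) (nat_lit 7) (nat_lit 11) (.e true (nat_lit 3) (nat_lit 208) (nat_lit 2) (nat_lit 16) (.e false (nat_lit 2) (nat_lit 228) (nat_lit 2) (nat_lit 16) (.e false (nat_lit 1) (nat_lit 140) (nat_lit 6) (nat_lit 12) (.e false (nat_lit 1) (nat_lit 252) (nat_lit 1) (nat_lit 17) (.e false (nat_lit 3) (nat_lit 253) (nat_lit 1) (nat_lit 17) (.e false (nat_lit 3) (nat_lit 254) (nat_lit 1) (nat_lit 17) (.e true (nat_lit 1) (nat_lit 256) (nat_lit 1) (nat_lit 17) (.e false (nat_lit 3) (nat_lit 257) (nat_lit 1) (nat_lit 17) dC2d_i57)))))))))))))))))))))))))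

noncomputable def dC2d_i59 : IL := (.e false (nat_lit 1) (nat_lit 213) (nat_lit 2) (nat_lit 16) (.e false (nat_lit 2) (nat_lit 214) (nat_lit 2) (nat_lit 16) (.e true (nat_lit 3) (nat_lit 216) (nat_lit 2) (nat_lit 16) (.e true (nat_lit 2) (nat_lit 218) (nat_lit 2) (nat_lit 16) (.e false (nat_lit 3) (nat_lit 220) (nat_lit 2) (nat_lit 16) (.e true (nat_lit 3) (nat_lit 221) (nat_lit 2) (nat_lit 16) (.e true (nat_lit 3) (nat_lit 222) (nat_lit 2) (nat_lit 16) (.e false (nat_lit 3) (nat_lit 223) (nat_lit 2) (nat_lit 16) (.e false (nat_lit 3) (nat_lit 225) (nat_lit 2) (nat_lit 16) (.e true (nat_lit 1) (nat_lit 229) (nat_lit 2) (nat_lit 16) (.e true (nat_lit 3) (nat_lit 230) (nat_lit 2) (nat_lit 16) (.e true (nat_lit 2) (nat_lit 231) (nat_lit 2) (nat_lit 16) (.e false (nat_lit 1) (nat_lit 232) (nat_lit 2) (nat_lit 16) (.e false (nat_lit 2) (nat_lit 234) (nat_lit 2) (nat_lit 16) (.e true (nat_lit 1) (nat_lit 244) (nat_lit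 2) (nat_lit 16) (.e false (nat_lit 2) (nat_lit 245) (nat_lit 2) (nat_lit 16) (.e false (nat_lit 1) (nat_lit 246) (nat_lit 2) (nat_lit 16) (.e false (nat_lit 2) (nat_lit 247) (nat_lit 2) (nat_lit 16) (.e true (nat_lit 2) (nat_lit 248) (nat_lit 2) (nat_lit 16) (.e true (nat_lit 2) (nat_lit 249) (nat_lit 2) (nat_lit 16) (.e true (nat_lit 3) (nat_lit 251) (nat_lit 2) (nat_lit 16) (.e true (nat_lit 3) (nat_lit 212) (nat_lit 2) (nat_lit 16) (.e true (nat_lit 1) (nat_lit 226) (nat_lit 2) (nat_lit 16) (.e false (nat_lit 3) (nat_lit 106) (nat_lit 7) (nat_lit 11) (.e false (nat_lit 1) (nat_lit 108) (nat_lit 7) (nat_lit 11) dC2d_i58)))))))))))))))))))))))))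

noncomputable def dC2d_c277 : Cm := .mk (nat_lit 746) (nat_lit 277) (nat_lit 305) (nat_lit 19) (.c (nat_lit 33) (nat_lit 6) (nat_lit 20) (nat_lit 1) (nat_lit 19) (.c (nat_lit 42) (nat_lit 3) (nat_lit 18) (nat_lit 2) (nat_lit 25) (.c (nat_lit 45) (nat_lit 3) (nat_lit 16) (nat_lit 2) (nat_lit 31) (.c (nat_lit 48) (nat_lit 1) (nat_lit 11) (nat_lit 3) (nat_lit 37) (.c (nat_lit 80) (nat_lit 11) (nat_lit 7) (nat_lit 1) (nat_lit 40) (.c (nat_lit 97) (nat_lit 4) (nat_lit 6) (nat_lit 1) (nat_lit 51) (.c (nat_lit 101) (nat_lit 4) (nat_lit 5) (nat_lit 1) (nat_lit 55) (.c (nat_lit 105) (nat_lit 1) (nat_lit 3) (nat_lit 1) (nat_lit 59) (.c (nat_lit 169) (nat_lit 16) (nat_lit 2) (nat_lit 1) (nat_lit 60) (.c (nat_lit 195) (nat_lit 5) (nat_lit 1) (nat_lit 1) (nat_lit 76) (.c (nat_lit 200) (nat_lit 5) (nat_lit 0) (nat_lit 1) (nat_lit 81) .nil)))))))))))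

noncomputable def dC2d_i60 : IL := (.e false (nat_lit 1) (nat_lit 135) (nat_lit 2) (nat_lit 11) (.e false (nat_lit 1) (nat_lit 141) (nat_lit 2) (nat_lit 11) (.e true (nat_lit 1) (nat_lit 147) (nat_lit 2) (nat_lit 11) (.e true (nat_lit 2) (nat_lit 149) (nat_lit 2) (nat_lit 11) (.e false (nat_lit 2) (nat_lit 150) (nat_lit 2) (nat_lit 11) (.e true (nat_lit 2) (nat_lit 151) (nat_lit 2) (nat_lit 11) (.e false (nat_lit 1) (nat_lit 152) (nat_lit 2) (nat_lit 11) (.e false (nat_lit 2) (nat_lit 154) (nat_lit 2) (nat_lit 11) (.e true (nat_lit 1) (nat_lit 155) (nat_lit 2) (nat_lit 11) (.e false (nat_lit 2) (nat_lit 156) (nat_lit 2) (nat_lit 11) (.e true (nat_lit 2) (nat_lit 157) (nat_lit 2) (nat_lit 11) (.e false (nat_lit 3) (nat_lit 28) (nat_lit 20) (nat_lit 0) (.e false (nat_lit 3) (nat_lit 133) (nat_lit 2) (nat_lit 11) (.e true (nat_lit 3) (nat_lit 81) (nat_lit 6) (nat_lit 7) (.e true (nat_lit 3) (nat_lit 102) (nat_lit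 3) (nat_lit 10) (.e true (nat_lit 3) (nat_lit 104) (nat_lit 3) (nat_lit 10) (.e false (nat_lit 1) (nat_lit 174) (nat_lit 1) (nat_lit 12) (.e true (nat_lit 2) (nat_lit 175) (nat_lit 1) (nat_lit 12) (.e true (nat_lit 2) (nat_lit 176) (nat_lit 1) (nat_lit 12) (.e false (nat_lit 3) (nat_lit 178) (nat_lit 1) (nat_lit 12) (.e true (nat_lit 1) (nat_lit 172) (nat_lit 1) (nat_lit 12) (.e true (nat_lit 3) (nat_lit 48) (nat_lit 8) (nat_lit 5) (.e false (nat_lit 3) (nat_lit 171) (nat_lit 1) (nat_lit 12) (.u (nat_lit 2) (.n (nat_lit 0) (nat_lit 1) (.n (nat_lit 1) (nat_lit 2) (.p (nat_lit 2) (nat_lit 5) (.p (nat_lit 3) (nat_lit 3) (.n (nat_lit 4) (nat_lit 3) (.n (nat_lit 5) (nat_lit 3) (.n (nat_lit 7) (nat_lit 3) (.p (nat_lit 8) (nat_lit 4) (.n (nat_lit 9) (nat_lit 1) (.n (nat_lit 10) (nat_lit 2) (.p (nat_lit 11) (nat_lit 2) (.p (nat_lit 12) (nat_lit 2) (.n (nat_lit 13) (nat_lit 1) (.p (nat_lit 14) (nat_lit 1) (.n (nat_lit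 15) (nat_lit 3) (.p (nat_lit 17) (nat_lit 1) (.n (nat_lit 18) (nat_lit 1) (.p (nat_lit 19) (nat_lit 2) (.p (nat_lit 20) (nat_lit 1) (.n (nat_lit 22) (nat_lit 4) (.n (nat_lit 23) (nat_lit 2) (.n (nat_lit 24) (nat_lit 2) (.n (nat_lit 25) (nat_lit 1) (.p (nat_lit 31) (nat_lit 3) (.n (nat_lit 33) (nat_lit 3) (.n (nat_lit 34) (nat_lit 1) (.n (nat_lit 77) (nat_lit 1) (.n (nat_lit 78) (nat_lit 1) (.n (nat_lit 80) (nat_lit 1) (.p (nat_lit 81) (nat_lit 2) (.p (nat_lit 82) (nat_lit 1) (.n (nat_lit 83) (nat_lit 1) (.p (nat_lit 85) (nat_lit 1) (.n (nat_lit 86) (nat_lit 1) (.n (nat_lit 88) (nat_lit 1) (.p (nat_lit 89) (nat_lit 1) (.p (nat_lit 91) (nat_lit 1) (.n (nat_lit 110) (nat_lit 1) (.n (nat_lit 111) (nat_lit 1) (.p (nat_lit 117) (nat_lit 4) (.p (nat_lit 119) (nat_lit 2) (.n (nat_lit 120) (nat_lit 4) (.p (nat_lit 121) (nat_lit 2) (.n (nat_lit 122) (nat_lit 1) (.n (nat_lit 123) (nat_lit 1) (.p (nat_lit 124) (nat_lit 1)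 (.n (nat_lit 125) (nat_lit 2) (.n (nat_lit 126) (nat_lit 4) (.n (nat_lit 127) (nat_lit 1) (.p (nat_lit 129) (nat_lit 2) (.p (nat_lit 130) (nat_lit 1) (.p (nat_lit 132) (nat_lit 1) (.n (nat_lit 134) (nat_lit 4) (.n (nat_lit 135) (nat_lit 5) (.n (nat_lit 136) (nat_lit 1) (.p (nat_lit 137) (nat_lit 5) (.p (nat_lit 138) (nat_lit 6) (.p (nat_lit 139) (nat_lit 4) (.n (nat_lit 140) (nat_lit 5) (.p (nat_lit 141) (nat_lit 4) .z)))))))))))))))))))))))))))))))))))))))))))))))))))))))))))) (.u (nat_lit 2) (.n (nat_lit 142) (nat_lit 4) (.n (nat_lit 146) (nat_lit 2) (.p (nat_lit 148) (nat_lit 2) (.p (nat_lit 149) (nat_lit 2) (.p (nat_lit 150) (nat_lit 2) (.n (nat_lit 152) (nat_lit 3) (.n (nat_lit 153) (nat_lit 2) (.p (nat_lit 156) (nat_lit 1) (.p (nat_lit 164) (nat_lit 1) .z))))))))) .nil)))))))))))))))))))))))))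

noncomputable def dC2d_i61 : IL := (.s true (nat_lit 3) (nat_lit 20) (nat_lit 0) (nat_lit 2) (nat_lit 4) true (nat_lit 5) true (nat_lit 9) true (nat_lit 0) true (nat_lit 13) true (nat_lit 11) (.s true (nat_lit 3) (nat_lit 20) (nat_lit 2) (nat_lit 0) (nat_lit 4) true (nat_lit 3) true (nat_lit 9) true (nat_lit 0) true (nat_lit 11) true (nat_lit 13) (.s true (nat_lit 3) (nat_lit 34) (nat_lit 1) (nat_lit 2) (nat_lit 2) true (nat_lit 7) true (nat_lit 11) false (nat_lit 1) true (nat_lit 12) true (nat_lit 11) (.s false (nat_lit 3) (nat_lit 34) (nat_lit 2) (nat_lit 1) (nat_lit 2) true (nat_lit 6) true (nat_lit 11) false (nat_lit 1) true (nat_lit 11) true (nat_lit 12) (.s false (nat_lit 3) (nat_lit 39) (nat_lit 2) (nat_lit 0) (nat_lit 2) true (nat_lit 6) true (nat_lit 11) false (nat_lit 2) true (nat_lit 11) true (nat_lit 13) (.s true (nat_lit 3) (nat_lit 39) (nat_lit 2) (nat_lit 2) (nat_lit 0) true (nat_lit 8) true (nat_lit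 13) false (nat_lit 2) true (nat_lit 11) true (nat_lit 11) (.s true (nat_lit 3) (nat_lit 48) (nat_lit 0) (nat_lit 1) (nat_lit 1) true (nat_lit 10) true (nat_lit 12) false (nat_lit 5) true (nat_lit 13) true (nat_lit 12) (.e false (nat_lit 1) (nat_lit 60) (nat_lit 7) (nat_lit 6) (.e true (nat_lit 3) (nat_lit 61) (nat_lit 7) (nat_lit 6) (.e true (nat_lit 3) (nat_lit 62) (nat_lit 7) (nat_lit 6) (.e true (nat_lit 2) (nat_lit 63) (nat_lit 7) (nat_lit 6) (.e false (nat_lit 1) (nat_lit 65) (nat_lit 7) (nat_lit 6) (.e false (nat_lit 1) (nat_lit 71) (nat_lit 7) (nat_lit 6) (.e true (nat_lit 3) (nat_lit 73) (nat_lit 7) (nat_lit 6) (.e false (nat_lit 2) (nat_lit 64) (nat_lit 7) (nat_lit 6) (.e false (nat_lit 2) (nat_lit 153) (nat_lit 2) (nat_lit 11) (.e false (nat_lit 3) (nat_lit 132) (nat_lit 2) (nat_lit 11) (.e true (nat_lit 1) (nat_lit 137) (nat_lit 2) (nat_lit 11) (.e false (nat_lit 1) (nat_lit 140) (nat_lit 2) (nat_lit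 11) (.e false (nat_lit 1) (nat_lit 143) (nat_lit 2) (nat_lit 11) (.e false (nat_lit 2) (nat_lit 144) (nat_lit 2) (nat_lit 11) (.e false (nat_lit 1) (nat_lit 145) (nat_lit 2) (nat_lit 11) (.e false (nat_lit 1) (nat_lit 25) (nat_lit 20) (nat_lit 0) (.e true (nat_lit 3) (nat_lit 35) (nat_lit 19) (nat_lit 1) (.e false (nat_lit 2) (nat_lit 179) (nat_lit 1) (nat_lit 12) dC2d_i60)))))))))))))))))))))))))

noncomputable def dC2d_i62 : IL := (.e true (nat_lit 1) (nat_lit 63) (nat_lit 19) (nat_lit 5) (.e false (nat_lit 1) (nat_lit 66) (nat_lit 19) (nat_lit 5) (.e true (nat_lit 1) (nat_lit 72) (nat_lit 19) (nat_lit 5) (.e false (nat_lit 1) (nat_lit 255) (nat_lit 1) (nat_lit 17) (.e true (nat_lit 1) (nat_lit 258) (nat_lit 1) (nat_lit 17) (.e false (nat_lit 2) (nat_lit 259) (nat_lit 1) (nat_lit 17) (.e false (nat_lit 1) (nat_lit 264) (nat_lit 1) (nat_lit 17) (.e false (nat_lit 2) (nat_lit 267) (nat_lit 1) (nat_lit 17) (.e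 false (nat_lit 1) (nat_lit 270) (nat_lit 1) (nat_lit 17) (.e false (nat_lit 2) (nat_lit 275) (nat_lit 1) (nat_lit 17) (.e false (nat_lit 3) (nat_lit 279) (nat_lit 1) (nat_lit 17) (.e false (nat_lit 2) (nat_lit 288) (nat_lit 1) (nat_lit 17) (.e false (nat_lit 1) (nat_lit 135) (nat_lit 6) (nat_lit 12) (.e true (nat_lit 1) (nat_lit 138) (nat_lit 6) (nat_lit 12) (.e true (nat_lit 1) (nat_lit 139) (nat_lit 6) (nat_lit 12) (.e false (nat_lit 1) (nat_lit 144) (nat_lit 6) (nat_lit 12) (.e false (nat_lit 1) (nat_lit 147) (nat_lit 6) (nat_lit 12) (.e true (nat_lit 1) (nat_lit 155) (nat_lit 6) (nat_lit 12) (.e false (nat_lit 1) (nat_lit 67) (nat_lit 18) (nat_lit 5) (.e true (nat_lit 2) (nat_lit 286) (nat_lit 1) (nat_lit 17) (.e true (nat_lit 1) (nat_lit 41) (nat_lit 34) (nat_lit 0) (.e false (nat_lit 1) (nat_lit 124) (nat_lit 7) (nat_lit 11) (.e false (nat_lit 1) (nat_lit 236) (nat_lit 2) (nat_lit 16) (.u (nat_lit 2) (.n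 (nat_lit 0) (nat_lit 4) (.n (nat_lit 1) (nat_lit 5) (.p (nat_lit 2) (nat_lit 3) (.p (nat_lit 3) (nat_lit 4) (.n (nat_lit 4) (nat_lit 3) (.n (nat_lit 5) (nat_lit 4) (.n (nat_lit 6) (nat_lit 1) (.p (nat_lit 7) (nat_lit 3) (.n (nat_lit 8) (nat_lit 4) (.n (nat_lit 9) (nat_lit 1) (.p (nat_lit 10) (nat_lit 4) (.p (nat_lit 12) (nat_lit 1) (.n (nat_lit 14) (nat_lit 6) (.n (nat_lit 15) (nat_lit 3) (.p (nat_lit 16) (nat_lit 3) (.p (nat_lit 17) (nat_lit 3) (.p (nat_lit 19) (nat_lit 7) (.n (nat_lit 20) (nat_lit 3) (.n (nat_lit 21) (nat_lit 5) (.p (nat_lit 22) (nat_lit 5) (.p (nat_lit 23) (nat_lit 3) (.n (nat_lit 24) (nat_lit 2) (.n (nat_lit 25) (nat_lit 1) (.n (nat_lit 26) (nat_lit 3) (.p (nat_lit 27) (nat_lit 1) (.n (nat_lit 28) (nat_lit 1) (.p (nat_lit 29) (nat_lit 4) (.p (nat_lit 31) (nat_lit 1) (.p (nat_lit 32) (nat_lit 2) (.n (nat_lit 33) (nat_lit 5) (.n (nat_lit 35) (nat_lit 2) (.p (nat_lit 37) (nat_lit 3) (.p (nat_lit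 38) (nat_lit 5) (.p (nat_lit 39) (nat_lit 5) (.n (nat_lit 40) (nat_lit 3) (.p (nat_lit 41) (nat_lit 1) (.p (nat_lit 42) (nat_lit 2) (.n (nat_lit 44) (nat_lit 1) (.p (nat_lit 45) (nat_lit 6) (.p (nat_lit 46) (nat_lit 1) (.p (nat_lit 47) (nat_lit 2) (.p (nat_lit 53) (nat_lit 1) (.n (nat_lit 302) (nat_lit 1) (.n (nat_lit 303) (nat_lit 2) (.n (nat_lit 304) (nat_lit 1) (.n (nat_lit 305) (nat_lit 1) (.p (nat_lit 306) (nat_lit 2) (.n (nat_lit 307) (nat_lit 1) (.p (nat_lit 309) (nat_lit 1) (.n (nat_lit 310) (nat_lit 2) (.n (nat_lit 313) (nat_lit 1) (.n (nat_lit 314) (nat_lit 1) (.p (nat_lit 317) (nat_lit 2) (.n (nat_lit 320) (nat_lit 1) (.p (nat_lit 325) (nat_lit 1) (.n (nat_lit 327) (nat_lit 1) (.p (nat_lit 329) (nat_lit 2) (.p (nat_lit 331) (nat_lit 1) (.p (nat_lit 336) (nat_lit 1) (.p (nat_lit 342) (nat_lit 2) .z)))))))))))))))))))))))))))))))))))))))))))))))))))))))))))) (.u (nat_lit 2) (.p (nat_lit 344) (nat_lit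 1) (.p (nat_lit 346) (nat_lit 1) (.n (nat_lit 347) (nat_lit 2) (.p (nat_lit 351) (nat_lit 1) (.n (nat_lit 355) (nat_lit 1) (.p (nat_lit 360) (nat_lit 1) (.n (nat_lit 362) (nat_lit 1) (.p (nat_lit 371) (nat_lit 1) (.n (nat_lit 372) (nat_lit 1) .z))))))))) .nil)))))))))))))))))))))))))

noncomputable def dC2d_i63 : IL := (.e false (nat_lit 1) (nat_lit 219) (nat_lit 2) (nat_lit 16) (.e true (nat_lit 2) (nat_lit 220) (nat_lit 2) (nat_lit 16) (.e false (nat_lit 1) (nat_lit 221) (nat_lit 2) (nat_lit 16) (.e false (nat_lit 2) (nat_lit 222) (nat_lit 2) (nat_lit 16) (.e false (nat_lit 3) (nat_lit 223) (nat_lit 2) (nat_lit 16) (.e true (nat_lit 3) (nat_lit 227) (nat_lit 2) (nat_lit 16) (.e true (nat_lit 1) (nat_lit 228) (nat_lit 2) (nat_lit 16) (.e true (nat_lit 3) (nat_lit 229) (nat_lit 2) (nat_lit 16) (.e false (nat_lit 3) (nat_lit 230) (nat_lit 2) (nat_lit 16) (.e true (nat_lit 1) (nat_lit 231) (nat_lit 2) (nat_lit 16)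 (.e false (nat_lit 3) (nat_lit 232) (nat_lit 2) (nat_lit 16) (.e true (nat_lit 3) (nat_lit 234) (nat_lit 2) (nat_lit 16) (.e true (nat_lit 1) (nat_lit 239) (nat_lit 2) (nat_lit 16) (.e false (nat_lit 1) (nat_lit 242) (nat_lit 2) (nat_lit 16) (.e false (nat_lit 3) (nat_lit 243) (nat_lit 2) (nat_lit 16) (.e false (nat_lit 1) (nat_lit 244) (nat_lit 2) (nat_lit 16) (.e false (nat_lit 2) (nat_lit 246) (nat_lit 2) (nat_lit 16) (.e true (nat_lit 1) (nat_lit 247) (nat_lit 2) (nat_lit 16) (.e true (nat_lit 3) (nat_lit 248) (nat_lit 2) (nat_lit 16) (.e true (nat_lit 3) (nat_lit 249) (nat_lit 2) (nat_lit 16) (.e false (nat_lit 2) (nat_lit 250) (nat_lit 2) (nat_lit 16) (.e true (nat_lit 2) (nat_lit 251) (nat_lit 2) (nat_lit 16) (.e true (nat_lit 2) (nat_lit 205) (nat_lit 2) (nat_lit 16) (.e false (nat_lit 3) (nat_lit 225) (nat_lit 2) (nat_lit 16) (.e true (nat_lit 1) (nat_lit 46) (nat_lit 27) (nat_lit 2) dC2d_i62)))))))))))))))))))))))))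

noncomputable def dC2d_i64 : IL := (.e false (nat_lit 1) (nat_lit 82) (nat_lit 6) (nat_lit 7) (.e false (nat_lit 1) (nat_lit 84) (nat_lit 6) (nat_lit 7) (.e false (nat_lit 2) (nat_lit 85) (nat_lit 6) (nat_lit 7) (.e false (nat_lit 1) (nat_lit 133) (nat_lit 2) (nat_lit 11) (.e false (nat_lit 3) (nat_lit 134) (nat_lit 2) (nat_lit 11) (.e true (nat_lit 3) (nat_lit 137) (nat_lit 2) (nat_lit 11) (.e false (nat_lit 2) (nat_lit 138) (nat_lit 2) (nat_lit 11) (.e false (nat_lit 3) (nat_lit 139) (nat_lit 2) (nat_lit 11) (.e true (nat_lit 3) (nat_lit 140) (nat_lit 2) (nat_lit 11) (.e false (nat_lit 2) (nat_lit 141) (nat_lit 2) (nat_lit 11) (.e true (nat_lit 3) (nat_lit 142) (nat_lit 2) (nat_lit 11) (.e true (nat_lit 1) (nat_lit 143) (nat_lit 2) (nat_lit 11) (.e false (nat_lit 2) (nat_lit 144) (nat_lit 2) (nat_lit 11) (.e false (nat_lit 1) (nat_lit 145) (nat_lit 2) (nat_lit 11) (.e true (nat_lit 1) (nat_lit 147) (nat_lit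 2) (nat_lit 11) (.e false (nat_lit 3) (nat_lit 150) (nat_lit 2) (nat_lit 11) (.e true (nat_lit 3) (nat_lit 151) (nat_lit 2) (nat_lit 11) (.e false (nat_lit 1) (nat_lit 155) (nat_lit 2) (nat_lit 11) (.e false (nat_lit 3) (nat_lit 156) (nat_lit 2) (nat_lit 11) (.e false (nat_lit 3) (nat_lit 64) (nat_lit 7) (nat_lit 6) (.e true (nat_lit 3) (nat_lit 28) (nat_lit 20) (nat_lit 0) (.e false (nat_lit 2) (nat_lit 136) (nat_lit 2) (nat_lit 11) (.e true (nat_lit 1) (nat_lit 152) (nat_lit 2) (nat_lit 11) (.e false (nat_lit 1) (nat_lit 157) (nat_lit 2) (nat_lit 11) (.u (nat_lit 2) (.p (nat_lit 0) (nat_lit 1) (.p (nat_lit 1) (nat_lit 2) (.p (nat_lit 2) (nat_lit 2) (.n (nat_lit 3) (nat_lit 2) (.p (nat_lit 4) (nat_lit 1) (.n (nat_lit 6) (nat_lit 1) (.p (nat_lit 7) (nat_lit 1) (.n (nat_lit 8) (nat_lit 1) (.p (nat_lit 9) (nat_lit 1) (.n (nat_lit 10) (nat_lit 1) (.p (nat_lit 11) (nat_lit 2) (.n (nat_lit 12) (nat_lit 2) (.p (nat_lit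 15) (nat_lit 4) (.p (nat_lit 17) (nat_lit 2) (.p (nat_lit 18) (nat_lit 2) (.n (nat_lit 19) (nat_lit 2) (.p (nat_lit 20) (nat_lit 3) (.p (nat_lit 22) (nat_lit 1) (.p (nat_lit 24) (nat_lit 2) (.p (nat_lit 31) (nat_lit 1) (.n (nat_lit 33) (nat_lit 1) (.p (nat_lit 92) (nat_lit 1) (.n (nat_lit 93) (nat_lit 1) (.n (nat_lit 94) (nat_lit 1) (.n (nat_lit 96) (nat_lit 1) (.n (nat_lit 97) (nat_lit 2) (.n (nat_lit 118) (nat_lit 1) (.p (nat_lit 121) (nat_lit 1) (.p (nat_lit 123) (nat_lit 1) (.n (nat_lit 124) (nat_lit 3) (.p (nat_lit 125) (nat_lit 3) (.n (nat_lit 126) (nat_lit 2) (.n (nat_lit 128) (nat_lit 2) (.n (nat_lit 129) (nat_lit 2) (.n (nat_lit 130) (nat_lit 1) (.n (nat_lit 132) (nat_lit 2) (.p (nat_lit 137) (nat_lit 1) (.n (nat_lit 140) (nat_lit 1) (.n (nat_lit 142) (nat_lit 1) (.p (nat_lit 157) (nat_lit 1) .z)))))))))))))))))))))))))))))))))))))))) .nil)))))))))))))))))))))))))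

noncomputable def dC2d_i65 : IL := (.e false (nat_lit 2) (nat_lit 279) (nat_lit 1) (nat_lit 17) (.e false (nat_lit 1) (nat_lit 283) (nat_lit 1) (nat_lit 17) (.e false (nat_lit 2) (nat_lit 287) (nat_lit 1) (nat_lit 17) (.e false (nat_lit 2) (nat_lit 288) (nat_lit 1) (nat_lit 17) (.e true (nat_lit 2) (nat_lit 106) (nat_lit 7) (nat_lit 11) (.e false (nat_lit 2) (nat_lit 107) (nat_lit 7) (nat_lit 11) (.e false (nat_lit 3) (nat_lit 108) (nat_lit 7) (nat_lit 11) (.e true (nat_lit 2) (nat_lit 110) (nat_lit 7) (nat_lit 11) (.e false (nat_lit 3) (nat_lit 113) (nat_lit 7) (nat_lit 11) (.e true (nat_lit 3) (nat_lit 115) (nat_lit 7) (nat_lit 11) (.e false (nat_lit 2) (nat_lit 116) (nat_lit 7) (nat_lit 11) (.e false (nat_lit 3) (nat_lit 117) (nat_lit 7) (nat_lit 11) (.e true (nat_lit 1) (nat_lit 119) (nat_lit 7) (nat_lit 11) (.e false (nat_lit 1) (nat_lit 120) (nat_lit 7) (nat_lit 11) (.e true (nat_lit 1) (nat_lit 122) (nat_lit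 7) (nat_lit 11) (.e true (nat_lit 2) (nat_lit 123) (nat_lit 7) (nat_lit 11) (.e true (nat_lit 1) (nat_lit 124) (nat_lit 7) (nat_lit 11) (.e false (nat_lit 1) (nat_lit 127) (nat_lit 7) (nat_lit 11) (.e false (nat_lit 3) (nat_lit 130) (nat_lit 7) (nat_lit 11) (.e false (nat_lit 2) (nat_lit 131) (nat_lit 7) (nat_lit 11) (.e true (nat_lit 1) (nat_lit 68) (nat_lit 19) (nat_lit 5) (.e false (nat_lit 2) (nat_lit 109) (nat_lit 7) (nat_lit 11) (.e false (nat_lit 3) (nat_lit 118) (nat_lit 7) (nat_lit 11) (.u (nat_lit 2) (.n (nat_lit 0) (nat_lit 2) (.p (nat_lit 1) (nat_lit 1) (.n (nat_lit 2) (nat_lit 2) (.n (nat_lit 3) (nat_lit 1) (.p (nat_lit 4) (nat_lit 3) (.n (nat_lit 5) (nat_lit 2) (.n (nat_lit 6) (nat_lit 3) (.p (nat_lit 7) (nat_lit 1) (.n (nat_lit 8) (nat_lit 2) (.p (nat_lit 9) (nat_lit 3) (.p (nat_lit 10) (nat_lit 2) (.n (nat_lit 12) (nat_lit 2) (.n (nat_lit 14) (nat_lit 2) (.p (nat_lit 15) (nat_lit 7) (.p (nat_lit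 16) (nat_lit 1) (.n (nat_lit 17) (nat_lit 3) (.n (nat_lit 18) (nat_lit 3) (.n (nat_lit 19) (nat_lit 1) (.n (nat_lit 21) (nat_lit 2) (.p (nat_lit 22) (nat_lit 1) (.p (nat_lit 23) (nat_lit 3) (.p (nat_lit 24) (nat_lit 2) (.p (nat_lit 26) (nat_lit 2) (.p (nat_lit 28) (nat_lit 3) (.n (nat_lit 29) (nat_lit 2) (.p (nat_lit 31) (nat_lit 3) (.n (nat_lit 32) (nat_lit 5) (.n (nat_lit 33) (nat_lit 5) (.p (nat_lit 34) (nat_lit 4) (.n (nat_lit 35) (nat_lit 4) (.n (nat_lit 36) (nat_lit 5) (.n (nat_lit 37) (nat_lit 1) (.p (nat_lit 38) (nat_lit 5) (.p (nat_lit 39) (nat_lit 1) (.n (nat_lit 40) (nat_lit 1) (.p (nat_lit 41) (nat_lit 1) (.n (nat_lit 42) (nat_lit 1) (.n (nat_lit 44) (nat_lit 2) (.p (nat_lit 46) (nat_lit 1) (.p (nat_lit 47) (nat_lit 1) (.p (nat_lit 48) (nat_lit 3) (.n (nat_lit 215) (nat_lit 1) (.p (nat_lit 217) (nat_lit 1) (.n (nat_lit 220) (nat_lit 1) (.p (nat_lit 222) (nat_lit 1) (.n (nat_lit 223) (nat_lit 1) (.n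 (nat_lit 224) (nat_lit 1) (.p (nat_lit 229) (nat_lit 1) (.p (nat_lit 230) (nat_lit 1) (.n (nat_lit 237) (nat_lit 1) (.n (nat_lit 238) (nat_lit 1) (.n (nat_lit 351) (nat_lit 2) (.p (nat_lit 352) (nat_lit 1) (.p (nat_lit 355) (nat_lit 1) (.p (nat_lit 357) (nat_lit 1) (.n (nat_lit 358) (nat_lit 1) (.p (nat_lit 359) (nat_lit 1) (.n (nat_lit 361) (nat_lit 1) (.p (nat_lit 363) (nat_lit 1) (.p (nat_lit 364) (nat_lit 1) .z)))))))))))))))))))))))))))))))))))))))))))))))))))))))))))) (.u (nat_lit 2) (.n (nat_lit 366) (nat_lit 1) (.p (nat_lit 367) (nat_lit 1) (.p (nat_lit 368) (nat_lit 1) (.p (nat_lit 370) (nat_lit 1) (.p (nat_lit 371) (nat_lit 1) (.n (nat_lit 373) (nat_lit 1) (.n (nat_lit 380) (nat_lit 1) (.p (nat_lit 382) (nat_lit 1) (.n (nat_lit 383) (nat_lit 1) .z))))))))) .nil)))))))))))))))))))))))))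

noncomputable def dC2d_i66 : IL := (.e false (nat_lit 1) (nat_lit 253) (nat_lit 1) (nat_lit 17) (.e false (nat_lit 3) (nat_lit 254) (nat_lit 1) (nat_lit 17) (.e true (nat_lit 2) (nat_lit 255) (nat_lit 1) (nat_lit 17) (.e true (nat_lit 2) (nat_lit 256) (nat_lit 1) (nat_lit 17) (.e false (nat_lit 3) (nat_lit 257) (nat_lit 1) (nat_lit 17) (.e true (nat_lit 2) (nat_lit 259) (nat_lit 1) (nat_lit 17) (.e true (nat_lit 3) (nat_lit 260) (nat_lit 1) (nat_lit 17) (.e true (nat_lit 3) (nat_lit 262) (nat_lit 1) (nat_lit 17) (.e true (nat_lit 2) (nat_lit 263) (nat_lit 1) (nat_lit 17) (.e false (nat_lit 1) (nat_lit 264) (nat_lit 1) (nat_lit 17) (.e true (nat_lit 1) (nat_lit 266) (nat_lit 1) (nat_lit 17) (.e true (nat_lit 3) (nat_lit 267) (nat_lit 1) (nat_lit 17) (.e true (nat_lit 3) (nat_lit 270) (nat_lit 1) (nat_lit 17) (.e true (nat_lit 1) (nat_lit 271) (nat_lit 1) (nat_lit 17) (.e true (nat_lit 1) (nat_lit 273) (nat_lit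 1) (nat_lit 17) (.e false (nat_lit 2) (nat_lit 275) (nat_lit 1) (nat_lit 17) (.e false (nat_lit 1) (nat_lit 276) (nat_lit 1) (nat_lit 17) (.e true (nat_lit 1) (nat_lit 277) (nat_lit 1) (nat_lit 17) (.e false (nat_lit 3) (nat_lit 284) (nat_lit 1) (nat_lit 17) (.e false (nat_lit 2) (nat_lit 286) (nat_lit 1) (nat_lit 17) (.e false (nat_lit 1) (nat_lit 252) (nat_lit 1) (nat_lit 17) (.e false (nat_lit 3) (nat_lit 261) (nat_lit 1) (nat_lit 17) (.e false (nat_lit 2) (nat_lit 269) (nat_lit 1) (nat_lit 17) (.e true (nat_lit 3) (nat_lit 274) (nat_lit 1) (nat_lit 17) (.e false (nat_lit 2) (nat_lit 278) (nat_lit 1) (nat_lit 17) dC2d_i65)))))))))))))))))))))))))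

noncomputable def dC2d_i67 : IL := (.e false (nat_lit 3) (nat_lit 175) (nat_lit 1) (nat_lit 12) (.e false (nat_lit 3) (nat_lit 176) (nat_lit 1) (nat_lit 12) (.e false (nat_lit 3) (nat_lit 178) (nat_lit 1) (nat_lit 12) (.e false (nat_lit 3) (nat_lit 179) (nat_lit 1) (nat_lit 12) (.e true (nat_lit 3) (nat_lit 132) (nat_lit 2) (nat_lit 11) (.e true (nat_lit 3) (nat_lit 133) (nat_lit 2) (nat_lit 11) (.e false (nat_lit 2) (nat_lit 134) (nat_lit 2) (nat_lit 11) (.e true (nat_lit 3) (nat_lit 135) (nat_lit 2) (nat_lit 11) (.e true (nat_lit 2) (nat_lit 136) (nat_lit 2) (nat_lit 11) (.e true (nat_lit 2) (nat_lit 137) (nat_lit 2) (nat_lit 11) (.e true (nat_lit 1) (nat_lit 138) (nat_lit 2) (nat_lit 11) (.e true (nat_lit 2) (nat_lit 141) (nat_lit 2) (nat_lit 11) (.e true (nat_lit 3) (nat_lit 144) (nat_lit 2) (nat_lit 11) (.e true (nat_lit 2) (nat_lit 145) (nat_lit 2) (nat_lit 11) (.e true (nat_lit 1) (nat_lit 146) (nat_lit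 2) (nat_lit 11) (.e true (nat_lit 1) (nat_lit 148) (nat_lit 2) (nat_lit 11) (.e false (nat_lit 2) (nat_lit 149) (nat_lit 2) (nat_lit 11) (.e true (nat_lit 3) (nat_lit 150) (nat_lit 2) (nat_lit 11) (.e true (nat_lit 2) (nat_lit 151) (nat_lit 2) (nat_lit 11) (.e true (nat_lit 2) (nat_lit 152) (nat_lit 2) (nat_lit 11) (.e true (nat_lit 2) (nat_lit 153) (nat_lit 2) (nat_lit 11) (.e false (nat_lit 3) (nat_lit 155) (nat_lit 2) (nat_lit 11) (.e false (nat_lit 3) (nat_lit 156) (nat_lit 2) (nat_lit 11) (.e false (nat_lit 1) (nat_lit 157) (nat_lit 2) (nat_lit 11) (.u (nat_lit 2) (.n (nat_lit 0) (nat_lit 1) (.n (nat_lit 1) (nat_lit 2) (.p (nat_lit 2) (nat_lit 1) (.p (nat_lit 3) (nat_lit 2) (.p (nat_lit 4) (nat_lit 1) (.n (nat_lit 5) (nat_lit 1) (.n (nat_lit 6) (nat_lit 4) (.n (nat_lit 7) (nat_lit 2) (.p (nat_lit 8) (nat_lit 1) (.p (nat_lit 9) (nat_lit 1) (.p (nat_lit 10) (nat_lit 2) (.p (nat_lit 11) (nat_lit 2) (.n (nat_lit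 12) (nat_lit 1) (.p (nat_lit 13) (nat_lit 1) (.p (nat_lit 15) (nat_lit 2) (.p (nat_lit 18) (nat_lit 2) (.p (nat_lit 20) (nat_lit 2) (.p (nat_lit 23) (nat_lit 1) (.p (nat_lit 25) (nat_lit 1) (.p (nat_lit 26) (nat_lit 1) (.p (nat_lit 27) (nat_lit 2) (.n (nat_lit 28) (nat_lit 1) (.n (nat_lit 31) (nat_lit 2) (.p (nat_lit 35) (nat_lit 1) .z)))))))))))))))))))))))) .nil)))))))))))))))))))))))))

noncomputable def dC2d_i68 : IL := (.s false (nat_lit 2) (nat_lit 48) (nat_lit 2) (nat_lit 1) (nat_lit 0) true (nat_lit 6) true (nat_lit 10) false (nat_lit 3) true (nat_lit 8) true (nat_lit 9) (.e false (nat_lit 2) (nat_lit 34) (nat_lit 20) (nat_lit 0) (.e true (nat_lit 2) (nat_lit 81) (nat_lit 7) (nat_lit 4) (.e false (nat_lit 2) (nat_lit 90) (nat_lit 7) (nat_lit 4) (.e false (nat_lit 3) (nat_lit 169) (nat_lit 2) (nat_lit 8) (.e false (nat_lit 2) (nat_lit 170) (nat_lit 2) (nat_lit 8) (.e true (nat_lit 2) (nat_lit 172) (nat_lit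 2) (nat_lit 8) (.e true (nat_lit 3) (nat_lit 173) (nat_lit 2) (nat_lit 8) (.e false (nat_lit 3) (nat_lit 175) (nat_lit 2) (nat_lit 8) (.e false (nat_lit 2) (nat_lit 176) (nat_lit 2) (nat_lit 8) (.e true (nat_lit 3) (nat_lit 177) (nat_lit 2) (nat_lit 8) (.e true (nat_lit 3) (nat_lit 178) (nat_lit 2) (nat_lit 8) (.e false (nat_lit 2) (nat_lit 179) (nat_lit 2) (nat_lit 8) (.e false (nat_lit 1) (nat_lit 180) (nat_lit 2) (nat_lit 8) (.e false (nat_lit 2) (nat_lit 182) (nat_lit 2) (nat_lit 8) (.e true (nat_lit 2) (nat_lit 171) (nat_lit 2) (nat_lit 8) (.e false (nat_lit 3) (nat_lit 181) (nat_lit 2) (nat_lit 8) (.e true (nat_lit 3) (nat_lit 174) (nat_lit 2) (nat_lit 8) (.e false (nat_lit 1) (nat_lit 183) (nat_lit 2) (nat_lit 8) (.e false (nat_lit 3) (nat_lit 89) (nat_lit 7) (nat_lit 4) (.e true (nat_lit 2) (nat_lit 35) (nat_lit 20) (nat_lit 0) (.e true (nat_lit 1) (nat_lit 48) (nat_lit 13) (nat_lit 3) (.e false (nat_lit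 3) (nat_lit 82) (nat_lit 7) (nat_lit 4) (.e false (nat_lit 2) (nat_lit 88) (nat_lit 7) (nat_lit 4) (.u (nat_lit 2) (.p (nat_lit 8) (nat_lit 1) (.p (nat_lit 12) (nat_lit 1) (.p (nat_lit 13) (nat_lit 1) (.p (nat_lit 19) (nat_lit 1) (.n (nat_lit 20) (nat_lit 1) (.p (nat_lit 21) (nat_lit 1) (.n (nat_lit 23) (nat_lit 1) (.n (nat_lit 24) (nat_lit 1) (.p (nat_lit 26) (nat_lit 1) (.p (nat_lit 27) (nat_lit 1) (.p (nat_lit 40) (nat_lit 1) (.n (nat_lit 41) (nat_lit 1) (.n (nat_lit 42) (nat_lit 1) (.n (nat_lit 44) (nat_lit 1) (.n (nat_lit 45) (nat_lit 1) (.p (nat_lit 52) (nat_lit 1) (.p (nat_lit 53) (nat_lit 2) (.p (nat_lit 57) (nat_lit 1) (.n (nat_lit 60) (nat_lit 3) (.n (nat_lit 61) (nat_lit 1) (.n (nat_lit 62) (nat_lit 3) (.p (nat_lit 63) (nat_lit 8) (.p (nat_lit 64) (nat_lit 4) (.n (nat_lit 65) (nat_lit 3) (.n (nat_lit 66) (nat_lit 7) (.n (nat_lit 67) (nat_lit 5) (.p (nat_lit 68) (nat_lit 3) (.n (nat_lit 70) (nat_lit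 4) (.n (nat_lit 71) (nat_lit 2) (.n (nat_lit 72) (nat_lit 1) (.p (nat_lit 73) (nat_lit 2) (.n (nat_lit 74) (nat_lit 1) (.p (nat_lit 78) (nat_lit 1) (.p (nat_lit 83) (nat_lit 1) .z)))))))))))))))))))))))))))))))))) .nil)))))))))))))))))))))))))

noncomputable def dC2d_i69 : IL := (.e true (nat_lit 3) (nat_lit 215) (nat_lit 2) (nat_lit 16) (.e false (nat_lit 1) (nat_lit 217) (nat_lit 2) (nat_lit 16) (.e true (nat_lit 3) (nat_lit 218) (nat_lit 2) (nat_lit 16) (.e false (nat_lit 2) (nat_lit 221) (nat_lit 2) (nat_lit 16) (.e true (nat_lit 2) (nat_lit 226) (nat_lit 2) (nat_lit 16) (.e true (nat_lit 3) (nat_lit 227) (nat_lit 2) (nat_lit 16) (.e false (nat_lit 2) (nat_lit 228) (nat_lit 2) (nat_lit 16) (.e false (nat_lit 1) (nat_lit 245) (nat_lit 2) (nat_lit 16) (.e false (nat_lit 3) (nat_lit 246) (nat_lit 2) (nat_lit 16) (.e false (nat_lit 3) (nat_lit 247) (nat_lit 2) (nat_lit 16) (.e true (nat_lit 3) (nat_lit 248) (nat_lit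 2) (nat_lit 16) (.e false (nat_lit 3) (nat_lit 251) (nat_lit 2) (nat_lit 16) (.e true (nat_lit 1) (nat_lit 39) (nat_lit 33) (nat_lit 0) (.e false (nat_lit 2) (nat_lit 206) (nat_lit 2) (nat_lit 16) (.e false (nat_lit 3) (nat_lit 207) (nat_lit 2) (nat_lit 16) (.e false (nat_lit 2) (nat_lit 208) (nat_lit 2) (nat_lit 16) (.e false (nat_lit 3) (nat_lit 209) (nat_lit 2) (nat_lit 16) (.e false (nat_lit 2) (nat_lit 214) (nat_lit 2) (nat_lit 16) (.e true (nat_lit 2) (nat_lit 220) (nat_lit 2) (nat_lit 16) (.e false (nat_lit 1) (nat_lit 225) (nat_lit 2) (nat_lit 16) (.e true (nat_lit 2) (nat_lit 229) (nat_lit 2) (nat_lit 16) (.e true (nat_lit 1) (nat_lit 230) (nat_lit 2) (nat_lit 16) (.e true (nat_lit 3) (nat_lit 231) (nat_lit 2) (nat_lit 16) (.e true (nat_lit 2) (nat_lit 242) (nat_lit 2) (nat_lit 16) (.u (nat_lit 2) (.n (nat_lit 0) (nat_lit 2) (.n (nat_lit 1) (nat_lit 2) (.n (nat_lit 3) (nat_lit 3) (.n (nat_lit 4) (nat_lit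 3) (.n (nat_lit 5) (nat_lit 4) (.p (nat_lit 6) (nat_lit 3) (.n (nat_lit 7) (nat_lit 2) (.p (nat_lit 10) (nat_lit 3) (.p (nat_lit 11) (nat_lit 2) (.p (nat_lit 12) (nat_lit 5) (.n (nat_lit 14) (nat_lit 1) (.n (nat_lit 15) (nat_lit 2) (.n (nat_lit 16) (nat_lit 1) (.p (nat_lit 18) (nat_lit 2) (.n (nat_lit 19) (nat_lit 7) (.n (nat_lit 20) (nat_lit 1) (.n (nat_lit 21) (nat_lit 2) (.p (nat_lit 22) (nat_lit 2) (.p (nat_lit 23) (nat_lit 5) (.n (nat_lit 24) (nat_lit 2) (.n (nat_lit 25) (nat_lit 7) (.n (nat_lit 26) (nat_lit 1) (.n (nat_lit 27) (nat_lit 2) (.n (nat_lit 28) (nat_lit 1) (.p (nat_lit 29) (nat_lit 7) (.n (nat_lit 31) (nat_lit 5) (.p (nat_lit 32) (nat_lit 4) (.p (nat_lit 33) (nat_lit 3) (.n (nat_lit 34) (nat_lit 9) (.p (nat_lit 35) (nat_lit 5) (.p (nat_lit 36) (nat_lit 7) (.p (nat_lit 37) (nat_lit 3) (.n (nat_lit 38) (nat_lit 3) (.n (nat_lit 39) (nat_lit 3) (.n (nat_lit 42) (nat_lit 1) (.n (nat_lit 44) (nat_lit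 2) (.p (nat_lit 45) (nat_lit 2) (.n (nat_lit 46) (nat_lit 6) (.p (nat_lit 47) (nat_lit 2) (.n (nat_lit 48) (nat_lit 2) (.n (nat_lit 51) (nat_lit 1) (.n (nat_lit 55) (nat_lit 1) (.p (nat_lit 308) (nat_lit 1) (.p (nat_lit 312) (nat_lit 1) (.p (nat_lit 315) (nat_lit 1) (.n (nat_lit 325) (nat_lit 1) .z)))))))))))))))))))))))))))))))))))))))))))))) .nil)))))))))))))))))))))))))

noncomputable def dC2d_i70 : IL := (.e true (nat_lit 1) (nat_lit 256) (nat_lit 2) (nat_lit 14) (.e false (nat_lit 3) (nat_lit 257) (nat_lit 2) (nat_lit 14) (.e false (nat_lit 1) (nat_lit 258) (nat_lit 2) (nat_lit 14) (.e true (nat_lit 3) (nat_lit 259) (nat_lit 2) (nat_lit 14) (.e false (nat_lit 3) (nat_lit 260) (nat_lit 2) (nat_lit 14) (.e false (nat_lit 2) (nat_lit 261) (nat_lit 2) (nat_lit 14) (.e false (nat_lit 3) (nat_lit 262) (nat_lit 2) (nat_lit 14) (.e true (nat_lit 2) (nat_lit 263) (nat_lit 2) (nat_lit 14) (.e false (nat_lit 1) (nat_lit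 264) (nat_lit 2) (nat_lit 14) (.e false (nat_lit 2) (nat_lit 265) (nat_lit 2) (nat_lit 14) (.e false (nat_lit 2) (nat_lit 266) (nat_lit 2) (nat_lit 14) (.e true (nat_lit 1) (nat_lit 267) (nat_lit 2) (nat_lit 14) (.e false (nat_lit 3) (nat_lit 269) (nat_lit 2) (nat_lit 14) (.e true (nat_lit 3) (nat_lit 270) (nat_lit 2) (nat_lit 14) (.e false (nat_lit 3) (nat_lit 271) (nat_lit 2) (nat_lit 14) (.e true (nat_lit 3) (nat_lit 272) (nat_lit 2) (nat_lit 14) (.e false (nat_lit 3) (nat_lit 273) (nat_lit 2) (nat_lit 14) (.e false (nat_lit 2) (nat_lit 274) (nat_lit 2) (nat_lit 14) (.e true (nat_lit 1) (nat_lit 275) (nat_lit 2) (nat_lit 14) (.e true (nat_lit 3) (nat_lit 277) (nat_lit 2) (nat_lit 14) (.e true (nat_lit 2) (nat_lit 282) (nat_lit 2) (nat_lit 14) (.e false (nat_lit 3) (nat_lit 283) (nat_lit 2) (nat_lit 14) (.e true (nat_lit 3) (nat_lit 285) (nat_lit 2) (nat_lit 14) (.e false (nat_lit 1) (nat_lit 286) (nat_lit 2)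 (nat_lit 14) (.u (nat_lit 2) (.p (nat_lit 0) (nat_lit 3) (.n (nat_lit 1) (nat_lit 4) (.n (nat_lit 2) (nat_lit 3) (.n (nat_lit 6) (nat_lit 1) (.n (nat_lit 8) (nat_lit 3) (.n (nat_lit 9) (nat_lit 1) (.n (nat_lit 10) (nat_lit 2) (.p (nat_lit 11) (nat_lit 1) (.n (nat_lit 12) (nat_lit 2) (.n (nat_lit 13) (nat_lit 2) (.n (nat_lit 14) (nat_lit 1) (.p (nat_lit 15) (nat_lit 3) (.p (nat_lit 16) (nat_lit 3) (.n (nat_lit 17) (nat_lit 2) (.n (nat_lit 18) (nat_lit 4) (.n (nat_lit 19) (nat_lit 1) (.p (nat_lit 21) (nat_lit 7) (.p (nat_lit 23) (nat_lit 1) (.n (nat_lit 24) (nat_lit 2) (.n (nat_lit 25) (nat_lit 1) (.p (nat_lit 27) (nat_lit 1) (.p (nat_lit 29) (nat_lit 1) (.p (nat_lit 30) (nat_lit 2) (.n (nat_lit 31) (nat_lit 1) (.n (nat_lit 33) (nat_lit 1) (.p (nat_lit 35) (nat_lit 3) (.n (nat_lit 38) (nat_lit 4) (.p (nat_lit 205) (nat_lit 1) (.n (nat_lit 209) (nat_lit 1) (.p (nat_lit 211) (nat_lit 1) (.n (nat_lit 212) (nat_lit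 1) (.n (nat_lit 213) (nat_lit 1) (.p (nat_lit 222) (nat_lit 1) (.p (nat_lit 229) (nat_lit 1) .z)))))))))))))))))))))))))))))))))) .nil)))))))))))))))))))))))))

noncomputable def dC2d_i71 : IL := (.e false (nat_lit 1) (nat_lit 214) (nat_lit 2) (nat_lit 16) (.e true (nat_lit 3) (nat_lit 215) (nat_lit 2) (nat_lit 16) (.e false (nat_lit 2) (nat_lit 216) (nat_lit 2) (nat_lit 16) (.e true (nat_lit 1) (nat_lit 217) (nat_lit 2) (nat_lit 16) (.e true (nat_lit 3) (nat_lit 218) (nat_lit 2) (nat_lit 16) (.e true (nat_lit 3) (nat_lit 219) (nat_lit 2) (nat_lit 16) (.e true (nat_lit 1) (nat_lit 220) (nat_lit 2) (nat_lit 16) (.e true (nat_lit 3) (nat_lit 221) (nat_lit 2) (nat_lit 16) (.e true (nat_lit 3) (nat_lit 222) (nat_lit 2) (nat_lit 16) (.e true (nat_lit 3) (nat_lit 226) (nat_lit 2) (nat_lit 16) (.e true (nat_lit 3) (nat_lit 227) (nat_lit 2) (nat_lit 16) (.e false (nat_lit 1) (nat_lit 228) (nat_lit 2) (nat_lit 16) (.e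 false (nat_lit 2) (nat_lit 229) (nat_lit 2) (nat_lit 16) (.e false (nat_lit 2) (nat_lit 230) (nat_lit 2) (nat_lit 16) (.e false (nat_lit 2) (nat_lit 231) (nat_lit 2) (nat_lit 16) (.e true (nat_lit 1) (nat_lit 242) (nat_lit 2) (nat_lit 16) (.e true (nat_lit 3) (nat_lit 245) (nat_lit 2) (nat_lit 16) (.e true (nat_lit 2) (nat_lit 246) (nat_lit 2) (nat_lit 16) (.e true (nat_lit 2) (nat_lit 247) (nat_lit 2) (nat_lit 16) (.e false (nat_lit 1) (nat_lit 248) (nat_lit 2) (nat_lit 16) (.e true (nat_lit 3) (nat_lit 251) (nat_lit 2) (nat_lit 16) (.e true (nat_lit 1) (nat_lit 40) (nat_lit 33) (nat_lit 0) (.e true (nat_lit 1) (nat_lit 208) (nat_lit 2) (nat_lit 16) (.e true (nat_lit 1) (nat_lit 210) (nat_lit 2) (nat_lit 16) (.u (nat_lit 2) (.n (nat_lit 0) (nat_lit 4) (.n (nat_lit 1) (nat_lit 6) (.p (nat_lit 2) (nat_lit 4) (.n (nat_lit 3) (nat_lit 3) (.p (nat_lit 4) (nat_lit 3) (.n (nat_lit 5) (nat_lit 2) (.n (nat_lit 6) (nat_lit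 1) (.n (nat_lit 8) (nat_lit 5) (.n (nat_lit 9) (nat_lit 5) (.n (nat_lit 10) (nat_lit 8) (.p (nat_lit 11) (nat_lit 1) (.n (nat_lit 12) (nat_lit 6) (.p (nat_lit 14) (nat_lit 2) (.n (nat_lit 15) (nat_lit 1) (.n (nat_lit 16) (nat_lit 4) (.p (nat_lit 17) (nat_lit 6) (.n (nat_lit 18) (nat_lit 3) (.p (nat_lit 19) (nat_lit 5) (.p (nat_lit 20) (nat_lit 2) (.n (nat_lit 21) (nat_lit 2) (.p (nat_lit 22) (nat_lit 2) (.n (nat_lit 23) (nat_lit 8) (.n (nat_lit 24) (nat_lit 9) (.p (nat_lit 25) (nat_lit 5) (.p (nat_lit 26) (nat_lit 5) (.p (nat_lit 27) (nat_lit 1) (.p (nat_lit 28) (nat_lit 2) (.p (nat_lit 31) (nat_lit 1) (.p (nat_lit 32) (nat_lit 1) (.n (nat_lit 33) (nat_lit 4) (.n (nat_lit 34) (nat_lit 1) (.n (nat_lit 35) (nat_lit 6) (.n (nat_lit 36) (nat_lit 8) (.n (nat_lit 37) (nat_lit 6) (.p (nat_lit 38) (nat_lit 4) (.p (nat_lit 39) (nat_lit 6) (.p (nat_lit 40) (nat_lit 6) (.p (nat_lit 42) (nat_lit 2) (.n (nat_lit 44) (nat_lit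 1) (.p (nat_lit 45) (nat_lit 6) (.p (nat_lit 46) (nat_lit 2) (.n (nat_lit 47) (nat_lit 1) (.n (nat_lit 51) (nat_lit 1) (.n (nat_lit 52) (nat_lit 1) (.n (nat_lit 303) (nat_lit 1) (.p (nat_lit 308) (nat_lit 1) (.p (nat_lit 314) (nat_lit 1) (.p (nat_lit 315) (nat_lit 1) (.p (nat_lit 316) (nat_lit 1) (.p (nat_lit 319) (nat_lit 1) (.p (nat_lit 342) (nat_lit 1) .z))))))))))))))))))))))))))))))))))))))))))))))))))) .nil)))))))))))))))))))))))))

noncomputable def dC2d_i72 : IL := (.e false (nat_lit 1) (nat_lit 252) (nat_lit 2) (nat_lit 14) (.e false (nat_lit 2) (nat_lit 253) (nat_lit 2) (nat_lit 14) (.e false (nat_lit 1) (nat_lit 254) (nat_lit 2) (nat_lit 14) (.e false (nat_lit 2) (nat_lit 255) (nat_lit 2) (nat_lit 14) (.e true (nat_lit 1) (nat_lit 256) (nat_lit 2) (nat_lit 14) (.e true (nat_lit 3) (nat_lit 258) (nat_lit 2) (nat_lit 14) (.e false (nat_lit 2) (nat_lit 259) (nat_lit 2) (nat_lit 14) (.e true (nat_lit 2)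 (nat_lit 260) (nat_lit 2) (nat_lit 14) (.e true (nat_lit 3) (nat_lit 261) (nat_lit 2) (nat_lit 14) (.e false (nat_lit 3) (nat_lit 262) (nat_lit 2) (nat_lit 14) (.e false (nat_lit 1) (nat_lit 263) (nat_lit 2) (nat_lit 14) (.e true (nat_lit 2) (nat_lit 264) (nat_lit 2) (nat_lit 14) (.e false (nat_lit 1) (nat_lit 265) (nat_lit 2) (nat_lit 14) (.e true (nat_lit 1) (nat_lit 266) (nat_lit 2) (nat_lit 14) (.e true (nat_lit 3) (nat_lit 267) (nat_lit 2) (nat_lit 14) (.e true (nat_lit 3) (nat_lit 269) (nat_lit 2) (nat_lit 14) (.e true (nat_lit 2) (nat_lit 270) (nat_lit 2) (nat_lit 14) (.e true (nat_lit 2) (nat_lit 272) (nat_lit 2) (nat_lit 14) (.e true (nat_lit 1) (nat_lit 273) (nat_lit 2) (nat_lit 14) (.e true (nat_lit 3) (nat_lit 274) (nat_lit 2) (nat_lit 14) (.e false (nat_lit 3) (nat_lit 275) (nat_lit 2) (nat_lit 14) (.e false (nat_lit 1) (nat_lit 282) (nat_lit 2) (nat_lit 14) (.e true (nat_lit 1) (nat_lit 284) (nat_lit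 2) (nat_lit 14) (.e true (nat_lit 1) (nat_lit 285) (nat_lit 2) (nat_lit 14) (.u (nat_lit 2) (.n (nat_lit 0) (nat_lit 3) (.n (nat_lit 1) (nat_lit 4) (.n (nat_lit 2) (nat_lit 3) (.p (nat_lit 3) (nat_lit 1) (.n (nat_lit 4) (nat_lit 1) (.p (nat_lit 5) (nat_lit 3) (.n (nat_lit 7) (nat_lit 2) (.p (nat_lit 8) (nat_lit 1) (.p (nat_lit 10) (nat_lit 1) (.p (nat_lit 12) (nat_lit 1) (.p (nat_lit 15) (nat_lit 1) (.p (nat_lit 16) (nat_lit 1) (.n (nat_lit 17) (nat_lit 3) (.p (nat_lit 18) (nat_lit 4) (.n (nat_lit 23) (nat_lit 2) (.n (nat_lit 24) (nat_lit 2) (.n (nat_lit 25) (nat_lit 1) (.p (nat_lit 26) (nat_lit 1) (.n (nat_lit 27) (nat_lit 1) (.n (nat_lit 30) (nat_lit 1) (.n (nat_lit 31) (nat_lit 1) (.n (nat_lit 34) (nat_lit 1) (.n (nat_lit 35) (nat_lit 4) (.p (nat_lit 38) (nat_lit 1) .z)))))))))))))))))))))))) .nil)))))))))))))))))))))))))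

noncomputable def dC2d_i73 : IL := (.e true (nat_lit 1) (nat_lit 132) (nat_lit 2) (nat_lit 11) (.e false (nat_lit 1) (nat_lit 133) (nat_lit 2) (nat_lit 11) (.e false (nat_lit 3) (nat_lit 134) (nat_lit 2) (nat_lit 11) (.e true (nat_lit 1) (nat_lit 135) (nat_lit 2) (nat_lit 11) (.e true (nat_lit 2) (nat_lit 136) (nat_lit 2) (nat_lit 11) (.e false (nat_lit 2) (nat_lit 137) (nat_lit 2) (nat_lit 11) (.e true (nat_lit 2) (nat_lit 138) (nat_lit 2) (nat_lit 11) (.e false (nat_lit 2) (nat_lit 139) (nat_lit 2) (nat_lit 11) (.e true (nat_lit 2) (nat_lit 140) (nat_lit 2) (nat_lit 11) (.e true (nat_lit 1) (nat_lit 142) (nat_lit 2) (nat_lit 11) (.e false (nat_lit 3) (nat_lit 143) (nat_lit 2) (nat_lit 11) (.e true (nat_lit 1) (nat_lit 147) (nat_lit 2) (nat_lit 11) (.e false (nat_lit 2) (nat_lit 149) (nat_lit 2) (nat_lit 11) (.e true (nat_lit 3) (nat_lit 150) (nat_lit 2) (nat_lit 11) (.e false (nat_lit 3) (nat_lit 151) (nat_lit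 2) (nat_lit 11) (.e true (nat_lit 2) (nat_lit 152) (nat_lit 2) (nat_lit 11) (.e true (nat_lit 3) (nat_lit 153) (nat_lit 2) (nat_lit 11) (.e true (nat_lit 3) (nat_lit 154) (nat_lit 2) (nat_lit 11) (.e true (nat_lit 3) (nat_lit 155) (nat_lit 2) (nat_lit 11) (.e true (nat_lit 3) (nat_lit 156) (nat_lit 2) (nat_lit 11) (.e false (nat_lit 2) (nat_lit 157) (nat_lit 2) (nat_lit 11) (.e false (nat_lit 1) (nat_lit 41) (nat_lit 16) (nat_lit 2) (.e false (nat_lit 3) (nat_lit 144) (nat_lit 2) (nat_lit 11) (.e false (nat_lit 1) (nat_lit 145) (nat_lit 2) (nat_lit 11) (.u (nat_lit 2) (.n (nat_lit 0) (nat_lit 1) (.p (nat_lit 1) (nat_lit 1) (.p (nat_lit 2) (nat_lit 1) (.n (nat_lit 3) (nat_lit 1) (.n (nat_lit 7) (nat_lit 1) (.p (nat_lit 8) (nat_lit 1) (.n (nat_lit 9) (nat_lit 1) (.n (nat_lit 10) (nat_lit 1) (.p (nat_lit 11) (nat_lit 1) (.n (nat_lit 12) (nat_lit 1) (.p (nat_lit 13) (nat_lit 1) (.p (nat_lit 14) (nat_lit 1) (.p (nat_lit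 17) (nat_lit 1) (.n (nat_lit 21) (nat_lit 1) (.n (nat_lit 22) (nat_lit 1) (.p (nat_lit 25) (nat_lit 1) (.p (nat_lit 31) (nat_lit 1) (.n (nat_lit 33) (nat_lit 1) (.n (nat_lit 119) (nat_lit 1) (.p (nat_lit 120) (nat_lit 1) (.n (nat_lit 128) (nat_lit 1) (.p (nat_lit 135) (nat_lit 1) (.p (nat_lit 140) (nat_lit 1) .z))))))))))))))))))))))) .nil)))))))))))))))))))))))))

noncomputable def dC2d_i74 : IL := (.e false (nat_lit 3) (nat_lit 301) (nat_lit 0) (nat_lit 18) (.e true (nat_lit 1) (nat_lit 303) (nat_lit 0) (nat_lit 18) (.e false (nat_lit 2) (nat_lit 304) (nat_lit 0) (nat_lit 18) (.e true (nat_lit 1) (nat_lit 252) (nat_lit 1) (nat_lit 17) (.e true (nat_lit 3) (nat_lit 255) (nat_lit 1) (nat_lit 17) (.e true (nat_lit 2) (nat_lit 256) (nat_lit 1) (nat_lit 17) (.e false (nat_lit 3) (nat_lit 259) (nat_lit 1) (nat_lit 17) (.e true (nat_lit 3) (nat_lit 260) (nat_lit 1) (nat_lit 17) (.e false (nat_lit 3) (nat_lit 261) (nat_lit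 1) (nat_lit 17) (.e false (nat_lit 3) (nat_lit 262) (nat_lit 1) (nat_lit 17) (.e true (nat_lit 2) (nat_lit 267) (nat_lit 1) (nat_lit 17) (.e true (nat_lit 3) (nat_lit 271) (nat_lit 1) (nat_lit 17) (.e true (nat_lit 3) (nat_lit 275) (nat_lit 1) (nat_lit 17) (.e false (nat_lit 3) (nat_lit 276) (nat_lit 1) (nat_lit 17) (.e false (nat_lit 1) (nat_lit 279) (nat_lit 1) (nat_lit 17) (.e true (nat_lit 2) (nat_lit 282) (nat_lit 1) (nat_lit 17) (.e false (nat_lit 2) (nat_lit 283) (nat_lit 1) (nat_lit 17) (.e true (nat_lit 1) (nat_lit 284) (nat_lit 1) (nat_lit 17) (.e false (nat_lit 2) (nat_lit 286) (nat_lit 1) (nat_lit 17) (.e true (nat_lit 1) (nat_lit 288) (nat_lit 1) (nat_lit 17) (.e false (nat_lit 2) (nat_lit 263) (nat_lit 1) (nat_lit 17) (.e true (nat_lit 2) (nat_lit 270) (nat_lit 1) (nat_lit 17) (.e true (nat_lit 2) (nat_lit 273) (nat_lit 1) (nat_lit 17) (.u (nat_lit 2) (.p (nat_lit 0) (nat_lit 2) (.n (nat_lit 1) (nat_lit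 3) (.n (nat_lit 2) (nat_lit 1) (.n (nat_lit 4) (nat_lit 2) (.n (nat_lit 5) (nat_lit 5) (.p (nat_lit 6) (nat_lit 4) (.p (nat_lit 7) (nat_lit 1) (.p (nat_lit 8) (nat_lit 4) (.n (nat_lit 9) (nat_lit 3) (.n (nat_lit 10) (nat_lit 2) (.n (nat_lit 11) (nat_lit 1) (.p (nat_lit 12) (nat_lit 1) (.n (nat_lit 15) (nat_lit 3) (.p (nat_lit 16) (nat_lit 1) (.n (nat_lit 17) (nat_lit 2) (.p (nat_lit 18) (nat_lit 1) (.n (nat_lit 20) (nat_lit 5) (.n (nat_lit 21) (nat_lit 3) (.p (nat_lit 22) (nat_lit 3) (.p (nat_lit 23) (nat_lit 4) (.p (nat_lit 24) (nat_lit 2) (.n (nat_lit 25) (nat_lit 3) (.n (nat_lit 26) (nat_lit 1) (.p (nat_lit 27) (nat_lit 5) (.p (nat_lit 28) (nat_lit 4) (.p (nat_lit 29) (nat_lit 1) (.p (nat_lit 31) (nat_lit 2) (.p (nat_lit 32) (nat_lit 1) (.n (nat_lit 33) (nat_lit 1) (.p (nat_lit 34) (nat_lit 2) (.n (nat_lit 35) (nat_lit 1) (.p (nat_lit 36) (nat_lit 1) (.n (nat_lit 37) (nat_lit 1) (.p (nat_lit 38) (nat_lit 1)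 (.p (nat_lit 39) (nat_lit 1) (.p (nat_lit 42) (nat_lit 1) (.n (nat_lit 44) (nat_lit 2) (.p (nat_lit 45) (nat_lit 2) (.p (nat_lit 46) (nat_lit 1) (.n (nat_lit 47) (nat_lit 2) (.p (nat_lit 48) (nat_lit 1) (.n (nat_lit 308) (nat_lit 1) (.p (nat_lit 310) (nat_lit 1) (.n (nat_lit 313) (nat_lit 1) (.n (nat_lit 318) (nat_lit 1) (.n (nat_lit 324) (nat_lit 1) (.p (nat_lit 326) (nat_lit 1) (.p (nat_lit 342) (nat_lit 1) (.n (nat_lit 345) (nat_lit 1) (.p (nat_lit 352) (nat_lit 1) (.p (nat_lit 355) (nat_lit 1) (.n (nat_lit 356) (nat_lit 1) (.p (nat_lit 357) (nat_lit 1) (.n (nat_lit 359) (nat_lit 1) (.n (nat_lit 360) (nat_lit 1) (.n (nat_lit 362) (nat_lit 1) (.p (nat_lit 364) (nat_lit 1) (.p (nat_lit 367) (nat_lit 1) (.p (nat_lit 368) (nat_lit 1) (.n (nat_lit 369) (nat_lit 1) .z)))))))))))))))))))))))))))))))))))))))))))))))))))))))))))) (.u (nat_lit 2) (.p (nat_lit 372) (nat_lit 1) (.n (nat_lit 373) (nat_lit 1) (.n (nat_lit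 382) (nat_lit 1) .z))) .nil)))))))))))))))))))))))))

noncomputable def dC2d_i75 : IL := (.e false (nat_lit 2) (nat_lit 227) (nat_lit 2) (nat_lit 16) (.e true (nat_lit 1) (nat_lit 228) (nat_lit 2) (nat_lit 16) (.e true (nat_lit 3) (nat_lit 229) (nat_lit 2) (nat_lit 16) (.e false (nat_lit 3) (nat_lit 230) (nat_lit 2) (nat_lit 16) (.e false (nat_lit 1) (nat_lit 233) (nat_lit 2) (nat_lit 16) (.e false (nat_lit 1) (nat_lit 246) (nat_lit 2) (nat_lit 16) (.e false (nat_lit 1) (nat_lit 247) (nat_lit 2) (nat_lit 16) (.e true (nat_lit 1) (nat_lit 248) (nat_lit 2) (nat_lit 16) (.e true (nat_lit 2) (nat_lit 251) (nat_lit 2) (nat_lit 16) (.e true (nat_lit 2) (nat_lit 215) (nat_lit 2) (nat_lit 16) (.e true (nat_lit 1) (nat_lit 210) (nat_lit 2) (nat_lit 16) (.e false (nat_lit 3) (nat_lit 225) (nat_lit 2) (nat_lit 16) (.e false (nat_lit 3) (nat_lit 205) (nat_lit 2) (nat_lit 16) (.e false (nat_lit 1) (nat_lit 289) (nat_lit 0)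 (nat_lit 18) (.e true (nat_lit 3) (nat_lit 290) (nat_lit 0) (nat_lit 18) (.e false (nat_lit 2) (nat_lit 291) (nat_lit 0) (nat_lit 18) (.e false (nat_lit 3) (nat_lit 292) (nat_lit 0) (nat_lit 18) (.e true (nat_lit 1) (nat_lit 293) (nat_lit 0) (nat_lit 18) (.e false (nat_lit 1) (nat_lit 294) (nat_lit 0) (nat_lit 18) (.e true (nat_lit 1) (nat_lit 295) (nat_lit 0) (nat_lit 18) (.e true (nat_lit 2) (nat_lit 296) (nat_lit 0) (nat_lit 18) (.e false (nat_lit 2) (nat_lit 297) (nat_lit 0) (nat_lit 18) (.e false (nat_lit 2) (nat_lit 298) (nat_lit 0) (nat_lit 18) (.e true (nat_lit 1) (nat_lit 299) (nat_lit 0) (nat_lit 18) (.e true (nat_lit 1) (nat_lit 300) (nat_lit 0) (nat_lit 18) dC2d_i74)))))))))))))))))))))))))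

noncomputable def dC2d_i76 : IL := (.s true (nat_lit 1) (nat_lit 93) (nat_lit 1) (nat_lit 2) (nat_lit 0) true (nat_lit 15) true (nat_lit 18) false (nat_lit 8) true (nat_lit 17) true (nat_lit 16) (.s false (nat_lit 1) (nat_lit 93) (nat_lit 2) (nat_lit 1) (nat_lit 0) true (nat_lit 13) true (nat_lit 18) false (nat_lit 8) true (nat_lit 16) true (nat_lit 17) (.e true (nat_lit 1) (nat_lit 45) (nat_lit 26) (nat_lit 2) (.e true (nat_lit 1) (nat_lit 73) (nat_lit 18) (nat_lit 5) (.e false (nat_lit 3) (nat_lit 254) (nat_lit 1) (nat_lit 17) (.e true (nat_lit 3) (nat_lit 258) (nat_lit 1) (nat_lit 17) (.e true (nat_lit 1) (nat_lit 264) (nat_lit 1) (nat_lit 17) (.e false (nat_lit 2) (nat_lit 265) (nat_lit 1) (nat_lit 17) (.e false (nat_lit 3) (nat_lit 266) (nat_lit 1) (nat_lit 17) (.e false (nat_lit 2) (nat_lit 269) (nat_lit 1) (nat_lit 17) (.e false (nat_lit 1) (nat_lit 272) (nat_lit 1) (nat_lit 17) (.e true (nat_lit 1) (nat_lit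 274) (nat_lit 1) (nat_lit 17) (.e false (nat_lit 1) (nat_lit 278) (nat_lit 1) (nat_lit 17) (.e false (nat_lit 3) (nat_lit 285) (nat_lit 1) (nat_lit 17) (.e false (nat_lit 2) (nat_lit 208) (nat_lit 2) (nat_lit 16) (.e false (nat_lit 3) (nat_lit 209) (nat_lit 2) (nat_lit 16) (.e false (nat_lit 1) (nat_lit 211) (nat_lit 2) (nat_lit 16) (.e true (nat_lit 1) (nat_lit 213) (nat_lit 2) (nat_lit 16) (.e false (nat_lit 1) (nat_lit 216) (nat_lit 2) (nat_lit 16) (.e true (nat_lit 2) (nat_lit 217) (nat_lit 2) (nat_lit 16) (.e true (nat_lit 2) (nat_lit 218) (nat_lit 2) (nat_lit 16) (.e true (nat_lit 2) (nat_lit 219) (nat_lit 2) (nat_lit 16) (.e false (nat_lit 2) (nat_lit 221) (nat_lit 2) (nat_lit 16) (.e true (nat_lit 3) (nat_lit 222) (nat_lit 2) (nat_lit 16) (.e false (nat_lit 2) (nat_lit 226) (nat_lit 2) (nat_lit 16) dC2d_i75)))))))))))))))))))))))))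

noncomputable def dC2d_i77 : IL := (.e false (nat_lit 3) (nat_lit 169) (nat_lit 1) (nat_lit 12) (.e false (nat_lit 2) (nat_lit 170) (nat_lit 1) (nat_lit 12) (.e true (nat_lit 2) (nat_lit 171) (nat_lit 1) (nat_lit 12) (.e true (nat_lit 2) (nat_lit 172) (nat_lit 1) (nat_lit 12) (.e true (nat_lit 3) (nat_lit 173) (nat_lit 1) (nat_lit 12) (.e true (nat_lit 1) (nat_lit 174) (nat_lit 1) (nat_lit 12) (.e true (nat_lit 2) (nat_lit 175) (nat_lit 1) (nat_lit 12) (.e true (nat_lit 2) (nat_lit 176) (nat_lit 1) (nat_lit 12) (.e false (nat_lit 3) (nat_lit 178) (nat_lit 1) (nat_lit 12) (.e false (nat_lit 3) (nat_lit 179) (nat_lit 1) (nat_lit 12) (.e true (nat_lit 1) (nat_lit 180) (nat_lit 1) (nat_lit 12) (.e false (nat_lit 1) (nat_lit 182) (nat_lit 1) (nat_lit 12) (.e false (nat_lit 1) (nat_lit 183) (nat_lit 1) (nat_lit 12) (.e false (nat_lit 1) (nat_lit 45) (nat_lit 12) (nat_lit 4) (.e true (nat_lit 1) (nat_lit 132) (nat_lit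 2) (nat_lit 11) (.e true (nat_lit 2) (nat_lit 133) (nat_lit 2) (nat_lit 11) (.e false (nat_lit 2) (nat_lit 135) (nat_lit 2) (nat_lit 11) (.e true (nat_lit 2) (nat_lit 137) (nat_lit 2) (nat_lit 11) (.e false (nat_lit 1) (nat_lit 144) (nat_lit 2) (nat_lit 11) (.e true (nat_lit 1) (nat_lit 145) (nat_lit 2) (nat_lit 11) (.e true (nat_lit 1) (nat_lit 146) (nat_lit 2) (nat_lit 11) (.e false (nat_lit 1) (nat_lit 152) (nat_lit 2) (nat_lit 11) (.e false (nat_lit 1) (nat_lit 154) (nat_lit 2) (nat_lit 11) (.e true (nat_lit 1) (nat_lit 157) (nat_lit 2) (nat_lit 11) (.u (nat_lit 2) (.n (nat_lit 0) (nat_lit 1) (.n (nat_lit 1) (nat_lit 3) (.p (nat_lit 3) (nat_lit 1) (.n (nat_lit 5) (nat_lit 1) (.n (nat_lit 6) (nat_lit 3) (.n (nat_lit 7) (nat_lit 2) (.p (nat_lit 8) (nat_lit 1) (.n (nat_lit 9) (nat_lit 1) (.n (nat_lit 10) (nat_lit 1) (.n (nat_lit 12) (nat_lit 1) (.p (nat_lit 13) (nat_lit 2) (.n (nat_lit 14) (nat_lit 2) (.p (nat_lit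 15) (nat_lit 1) (.n (nat_lit 17) (nat_lit 2) (.n (nat_lit 19) (nat_lit 1) (.n (nat_lit 20) (nat_lit 3) (.n (nat_lit 21) (nat_lit 2) (.p (nat_lit 24) (nat_lit 1) (.p (nat_lit 25) (nat_lit 2) (.p (nat_lit 26) (nat_lit 1) (.p (nat_lit 27) (nat_lit 1) (.n (nat_lit 28) (nat_lit 1) (.n (nat_lit 31) (nat_lit 1) (.p (nat_lit 36) (nat_lit 1) .z)))))))))))))))))))))))) .nil)))))))))))))))))))))))))

noncomputable def dC2d_i78 : IL := (.e true (nat_lit 1) (nat_lit 252) (nat_lit 2) (nat_lit 14) (.e false (nat_lit 3) (nat_lit 253) (nat_lit 2) (nat_lit 14) (.e false (nat_lit 1) (nat_lit 254) (nat_lit 2) (nat_lit 14) (.e false (nat_lit 2) (nat_lit 256) (nat_lit 2) (nat_lit 14) (.e true (nat_lit 1) (nat_lit 258) (nat_lit 2) (nat_lit 14) (.e false (nat_lit 1) (nat_lit 259) (nat_lit 2) (nat_lit 14) (.e true (nat_lit 2) (nat_lit 261) (nat_lit 2) (nat_lit 14) (.e true (nat_lit 2) (nat_lit 262) (nat_lit 2) (nat_lit 14) (.e true (nat_lit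 1) (nat_lit 263) (nat_lit 2) (nat_lit 14) (.e false (nat_lit 3) (nat_lit 264) (nat_lit 2) (nat_lit 14) (.e false (nat_lit 2) (nat_lit 266) (nat_lit 2) (nat_lit 14) (.e true (nat_lit 2) (nat_lit 269) (nat_lit 2) (nat_lit 14) (.e false (nat_lit 2) (nat_lit 271) (nat_lit 2) (nat_lit 14) (.e false (nat_lit 3) (nat_lit 272) (nat_lit 2) (nat_lit 14) (.e true (nat_lit 1) (nat_lit 276) (nat_lit 2) (nat_lit 14) (.e true (nat_lit 2) (nat_lit 279) (nat_lit 2) (nat_lit 14) (.e true (nat_lit 1) (nat_lit 280) (nat_lit 2) (nat_lit 14) (.e false (nat_lit 1) (nat_lit 281) (nat_lit 2) (nat_lit 14) (.e false (nat_lit 1) (nat_lit 282) (nat_lit 2) (nat_lit 14) (.e false (nat_lit 1) (nat_lit 286) (nat_lit 2) (nat_lit 14) (.e false (nat_lit 3) (nat_lit 257) (nat_lit 2) (nat_lit 14) (.e true (nat_lit 1) (nat_lit 268) (nat_lit 2) (nat_lit 14) (.e false (nat_lit 2) (nat_lit 273) (nat_lit 2) (nat_lit 14) (.e true (nat_lit 2) (nat_lit 277)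 (nat_lit 2) (nat_lit 14) (.u (nat_lit 2) (.p (nat_lit 0) (nat_lit 1) (.n (nat_lit 1) (nat_lit 1) (.n (nat_lit 2) (nat_lit 1) (.p (nat_lit 3) (nat_lit 4) (.p (nat_lit 7) (nat_lit 2) (.p (nat_lit 9) (nat_lit 2) (.p (nat_lit 10) (nat_lit 1) (.p (nat_lit 11) (nat_lit 1) (.p (nat_lit 12) (nat_lit 2) (.p (nat_lit 13) (nat_lit 3) (.n (nat_lit 14) (nat_lit 3) (.p (nat_lit 15) (nat_lit 2) (.p (nat_lit 16) (nat_lit 2) (.n (nat_lit 18) (nat_lit 1) (.p (nat_lit 19) (nat_lit 1) (.n (nat_lit 21) (nat_lit 1) (.p (nat_lit 23) (nat_lit 5) (.p (nat_lit 24) (nat_lit 3) (.p (nat_lit 26) (nat_lit 1) (.p (nat_lit 27) (nat_lit 1) (.n (nat_lit 29) (nat_lit 1) (.p (nat_lit 34) (nat_lit 1) (.p (nat_lit 35) (nat_lit 1) (.p (nat_lit 38) (nat_lit 2) (.n (nat_lit 211) (nat_lit 1) (.p (nat_lit 213) (nat_lit 1) .z)))))))))))))))))))))))))) .nil)))))))))))))))))))))))))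

noncomputable def dC2d_i79 : IL := (.s false (nat_lit 2) (nat_lit 47) (nat_lit 2) (nat_lit 1) (nat_lit 1) true (nat_lit 5) true (nat_lit 8) false (nat_lit 2) true (nat_lit 7) true (nat_lit 8) (.s false (nat_lit 3) (nat_lit 48) (nat_lit 1) (nat_lit 1) (nat_lit 1) true (nat_lit 6) true (nat_lit 8) false (nat_lit 3) true (nat_lit 8) true (nat_lit 8) (.e false (nat_lit 2) (nat_lit 74) (nat_lit 7) (nat_lit 4) (.e true (nat_lit 3) (nat_lit 79) (nat_lit 7) (nat_lit 4) (.e true (nat_lit 1) (nat_lit 158) (nat_lit 2) (nat_lit 7) (.e true (nat_lit 1) (nat_lit 160) (nat_lit 2) (nat_lit 7) (.e true (nat_lit 3) (nat_lit 161) (nat_lit 2) (nat_lit 7) (.e false (nat_lit 1) (nat_lit 162) (nat_lit 2) (nat_lit 7) (.e true (nat_lit 1) (nat_lit 163) (nat_lit 2) (nat_lit 7) (.e false (nat_lit 1) (nat_lit 165) (nat_lit 2) (nat_lit 7) (.e false (nat_lit 3) (nat_lit 166) (nat_lit 2) (nat_lit 7) (.e false (nat_lit 3) (nat_lit 159) (nat_lit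 2) (nat_lit 7) (.e false (nat_lit 2) (nat_lit 75) (nat_lit 7) (nat_lit 4) (.e false (nat_lit 2) (nat_lit 31) (nat_lit 20) (nat_lit 0) (.e true (nat_lit 1) (nat_lit 167) (nat_lit 2) (nat_lit 7) (.e false (nat_lit 1) (nat_lit 94) (nat_lit 6) (nat_lit 5) (.e false (nat_lit 1) (nat_lit 185) (nat_lit 1) (nat_lit 8) (.e true (nat_lit 3) (nat_lit 186) (nat_lit 1) (nat_lit 8) (.e true (nat_lit 2) (nat_lit 187) (nat_lit 1) (nat_lit 8) (.e true (nat_lit 3) (nat_lit 188) (nat_lit 1) (nat_lit 8) (.e true (nat_lit 2) (nat_lit 48) (nat_lit 10) (nat_lit 3) (.e false (nat_lit 2) (nat_lit 30) (nat_lit 20) (nat_lit 0) (.e true (nat_lit 1) (nat_lit 193) (nat_lit 1) (nat_lit 8) (.e false (nat_lit 2) (nat_lit 192) (nat_lit 1) (nat_lit 8) (.u (nat_lit 2) (.p (nat_lit 0) (nat_lit 2) (.n (nat_lit 2) (nat_lit 2) (.n (nat_lit 3) (nat_lit 1) (.p (nat_lit 4) (nat_lit 1) (.p (nat_lit 5) (nat_lit 1) (.n (nat_lit 9) (nat_lit 1) (.n (nat_lit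 11) (nat_lit 1) (.p (nat_lit 15) (nat_lit 1) (.n (nat_lit 16) (nat_lit 1) (.p (nat_lit 23) (nat_lit 1) (.n (nat_lit 24) (nat_lit 1) (.n (nat_lit 26) (nat_lit 1) (.p (nat_lit 27) (nat_lit 1) (.n (nat_lit 30) (nat_lit 1) (.n (nat_lit 32) (nat_lit 1) (.p (nat_lit 35) (nat_lit 1) (.n (nat_lit 38) (nat_lit 1) (.p (nat_lit 39) (nat_lit 1) (.n (nat_lit 40) (nat_lit 1) (.n (nat_lit 41) (nat_lit 1) (.p (nat_lit 43) (nat_lit 1) (.p (nat_lit 45) (nat_lit 1) (.p (nat_lit 47) (nat_lit 1) (.p (nat_lit 48) (nat_lit 1) (.p (nat_lit 49) (nat_lit 2) (.p (nat_lit 50) (nat_lit 10) (.n (nat_lit 51) (nat_lit 4) (.n (nat_lit 52) (nat_lit 12) (.p (nat_lit 53) (nat_lit 2) (.p (nat_lit 55) (nat_lit 4) (.n (nat_lit 56) (nat_lit 2) (.p (nat_lit 57) (nat_lit 1) (.n (nat_lit 58) (nat_lit 2) (.n (nat_lit 59) (nat_lit 2) (.n (nat_lit 60) (nat_lit 2) (.p (nat_lit 61) (nat_lit 3) (.n (nat_lit 62) (nat_lit 1) (.n (nat_lit 63) (nat_lit 1) (.p (nat_lit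 64) (nat_lit 1) .z))))))))))))))))))))))))))))))))))))))) .nil)))))))))))))))))))))))))

noncomputable def dC2d_i80 : IL := (.e true (nat_lit 1) (nat_lit 293) (nat_lit 2) (nat_lit 9) (.e false (nat_lit 2) (nat_lit 294) (nat_lit 2) (nat_lit 9) (.e true (nat_lit 2) (nat_lit 295) (nat_lit 2) (nat_lit 9) (.e false (nat_lit 2) (nat_lit 297) (nat_lit 2) (nat_lit 9) (.e false (nat_lit 2) (nat_lit 299) (nat_lit 2) (nat_lit 9) (.e true (nat_lit 1) (nat_lit 301) (nat_lit 2) (nat_lit 9) (.e true (nat_lit 1) (nat_lit 304) (nat_lit 2) (nat_lit 9) (.e false (nat_lit 2) (nat_lit 324) (nat_lit 1) (nat_lit 10) (.e true (nat_lit 2) (nat_lit 325) (nat_lit 1) (nat_lit 10) (.e true (nat_lit 3) (nat_lit 326) (nat_lit 1) (nat_lit 10) (.e false (nat_lit 3) (nat_lit 327) (nat_lit 1) (nat_lit 10) (.e false (nat_lit 3) (nat_lit 329) (nat_lit 1) (nat_lit 10) (.e true (nat_lit 2) (nat_lit 330) (nat_lit 1) (nat_lit 10) (.e false (nat_lit 2)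 (nat_lit 331) (nat_lit 1) (nat_lit 10) (.e true (nat_lit 2) (nat_lit 190) (nat_lit 6) (nat_lit 7) (.e false (nat_lit 1) (nat_lit 194) (nat_lit 6) (nat_lit 7) (.e false (nat_lit 1) (nat_lit 334) (nat_lit 1) (nat_lit 10) (.e true (nat_lit 2) (nat_lit 78) (nat_lit 20) (nat_lit 2) (.e true (nat_lit 3) (nat_lit 296) (nat_lit 2) (nat_lit 9) (.e false (nat_lit 1) (nat_lit 164) (nat_lit 7) (nat_lit 6) (.e false (nat_lit 1) (nat_lit 298) (nat_lit 2) (nat_lit 9) (.e false (nat_lit 1) (nat_lit 300) (nat_lit 2) (nat_lit 9) (.e false (nat_lit 1) (nat_lit 168) (nat_lit 7) (nat_lit 6) (.e true (nat_lit 2) (nat_lit 302) (nat_lit 2) (nat_lit 9) (.u (nat_lit 2) (.p (nat_lit 0) (nat_lit 2) (.p (nat_lit 1) (nat_lit 2) (.n (nat_lit 3) (nat_lit 1) (.n (nat_lit 4) (nat_lit 4) (.n (nat_lit 5) (nat_lit 2) (.p (nat_lit 6) (nat_lit 3) (.p (nat_lit 7) (nat_lit 5) (.n (nat_lit 11) (nat_lit 1) (.p (nat_lit 13) (nat_lit 1) (.n (nat_lit 14)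 (nat_lit 1) (.p (nat_lit 80) (nat_lit 1) (.p (nat_lit 81) (nat_lit 1) (.n (nat_lit 82) (nat_lit 1) (.n (nat_lit 84) (nat_lit 2) (.n (nat_lit 86) (nat_lit 2) (.p (nat_lit 87) (nat_lit 2) (.n (nat_lit 90) (nat_lit 1) (.n (nat_lit 91) (nat_lit 1) (.p (nat_lit 92) (nat_lit 3) (.n (nat_lit 93) (nat_lit 1) (.p (nat_lit 94) (nat_lit 2) (.n (nat_lit 95) (nat_lit 3) (.n (nat_lit 96) (nat_lit 1) (.p (nat_lit 97) (nat_lit 1) (.p (nat_lit 98) (nat_lit 2) (.n (nat_lit 99) (nat_lit 1) (.p (nat_lit 100) (nat_lit 1) (.p (nat_lit 101) (nat_lit 1) (.n (nat_lit 102) (nat_lit 1) .z))))))))))))))))))))))))))))) .nil)))))))))))))))))))))))))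

noncomputable def dC2d_i81 : IL := (.s true (nat_lit 1) (nat_lit 20) (nat_lit 2) (nat_lit 1) (nat_lit 4) true (nat_lit 2) true (nat_lit 6) true (nat_lit 0) true (nat_lit 7) true (nat_lit 8) (.s false (nat_lit 1) (nat_lit 20) (nat_lit 6) (nat_lit 1) (nat_lit 1) true (nat_lit 2) true (nat_lit 8) true (nat_lit 0) true (nat_lit 5) true (nat_lit 8) (.s false (nat_lit 1) (nat_lit 32) (nat_lit 2) (nat_lit 2) (nat_lit 2) true (nat_lit 4) true (nat_lit 7) false (nat_lit 0) true (nat_lit 7) true (nat_lit 7) (.s true (nat_lit 1) (nat_lit 47) (nat_lit 1) (nat_lit 2) (nat_lit 1) true (nat_lit 6) true (nat_lit 8) false (nat_lit 2) true (nat_lit 8) true (nat_lit 7) (.s false (nat_lit 1) (nat_lit 48) (nat_lit 1) (nat_lit 1) (nat_lit 1) true (nat_lit 6) true (nat_lit 8) false (nat_lit 3) true (nat_lit 8) true (nat_lit 8) (.e true (nat_lit 3) (nat_lit 30) (nat_lit 20) (nat_lit 0) (.e true (nat_lit 3) (nat_lit 74) (nat_lit 7) (nat_lit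 4) (.e false (nat_lit 1) (nat_lit 76) (nat_lit 7) (nat_lit 4) (.e true (nat_lit 2) (nat_lit 159) (nat_lit 2) (nat_lit 7) (.e true (nat_lit 3) (nat_lit 161) (nat_lit 2) (nat_lit 7) (.e false (nat_lit 3) (nat_lit 166) (nat_lit 2) (nat_lit 7) (.e false (nat_lit 3) (nat_lit 163) (nat_lit 2) (nat_lit 7) (.e true (nat_lit 3) (nat_lit 158) (nat_lit 2) (nat_lit 7) (.e false (nat_lit 1) (nat_lit 160) (nat_lit 2) (nat_lit 7) (.e false (nat_lit 1) (nat_lit 162) (nat_lit 2) (nat_lit 7) (.e true (nat_lit 1) (nat_lit 164) (nat_lit 2) (nat_lit 7) (.e false (nat_lit 1) (nat_lit 165) (nat_lit 2) (nat_lit 7) (.e true (nat_lit 3) (nat_lit 167) (nat_lit 2) (nat_lit 7) (.e true (nat_lit 2) (nat_lit 48) (nat_lit 10) (nat_lit 3) (.e false (nat_lit 1) (nat_lit 186) (nat_lit 1) (nat_lit 8) (.e true (nat_lit 2) (nat_lit 187) (nat_lit 1) (nat_lit 8) (.e false (nat_lit 1) (nat_lit 188) (nat_lit 1) (nat_lit 8) (.e true (nat_lit 3) (nat_lit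 189) (nat_lit 1) (nat_lit 8) (.e false (nat_lit 2) (nat_lit 193) (nat_lit 1) (nat_lit 8) (.u (nat_lit 2) (.n (nat_lit 0) (nat_lit 2) (.n (nat_lit 1) (nat_lit 1) (.p (nat_lit 4) (nat_lit 2) (.p (nat_lit 6) (nat_lit 2) (.n (nat_lit 8) (nat_lit 1) (.p (nat_lit 9) (nat_lit 1) (.n (nat_lit 12) (nat_lit 1) (.p (nat_lit 13) (nat_lit 1) (.n (nat_lit 14) (nat_lit 3) (.p (nat_lit 15) (nat_lit 2) (.p (nat_lit 27) (nat_lit 1) (.p (nat_lit 39) (nat_lit 2) (.n (nat_lit 40) (nat_lit 2) (.p (nat_lit 43) (nat_lit 1) (.p (nat_lit 50) (nat_lit 2) (.p (nat_lit 51) (nat_lit 1) (.n (nat_lit 52) (nat_lit 2) (.n (nat_lit 53) (nat_lit 2) (.n (nat_lit 55) (nat_lit 1) (.p (nat_lit 59) (nat_lit 1) (.p (nat_lit 62) (nat_lit 1) (.p (nat_lit 63) (nat_lit 1) (.n (nat_lit 64) (nat_lit 1) .z))))))))))))))))))))))) .nil)))))))))))))))))))))))))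

noncomputable def dC2d_i82 : IL := (.e false (nat_lit 3) (nat_lit 134) (nat_lit 6) (nat_lit 12) (.e false (nat_lit 3) (nat_lit 135) (nat_lit 6) (nat_lit 12) (.e true (nat_lit 3) (nat_lit 137) (nat_lit 6) (nat_lit 12) (.e true (nat_lit 3) (nat_lit 138) (nat_lit 6) (nat_lit 12) (.e false (nat_lit 3) (nat_lit 145) (nat_lit 6) (nat_lit 12) (.e false (nat_lit 3) (nat_lit 152) (nat_lit 6) (nat_lit 12) (.e true (nat_lit 3) (nat_lit 154) (nat_lit 6) (nat_lit 12) (.e false (nat_lit 3) (nat_lit 59) (nat_lit 20) (nat_lit 4) (.e true (nat_lit 3) (nat_lit 185) (nat_lit 3) (nat_lit 15) (.e true (nat_lit 1) (nat_lit 186) (nat_lit 3) (nat_lit 15) (.e true (nat_lit 3) (nat_lit 193) (nat_lit 3) (nat_lit 15) (.e true (nat_lit 3) (nat_lit 194) (nat_lit 3) (nat_lit 15) (.e false (nat_lit 3) (nat_lit 252) (nat_lit 1) (nat_lit 17) (.e false (nat_lit 3) (nat_lit 253) (nat_lit 1) (nat_lit 17) (.e true (nat_lit 3) (nat_lit 255) (nat_lit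 1) (nat_lit 17) (.e false (nat_lit 3) (nat_lit 257) (nat_lit 1) (nat_lit 17) (.e true (nat_lit 2) (nat_lit 265) (nat_lit 1) (nat_lit 17) (.e false (nat_lit 1) (nat_lit 266) (nat_lit 1) (nat_lit 17) (.e true (nat_lit 1) (nat_lit 269) (nat_lit 1) (nat_lit 17) (.e false (nat_lit 1) (nat_lit 272) (nat_lit 1) (nat_lit 17) (.e true (nat_lit 1) (nat_lit 274) (nat_lit 1) (nat_lit 17) (.e false (nat_lit 3) (nat_lit 277) (nat_lit 1) (nat_lit 17) (.e true (nat_lit 2) (nat_lit 254) (nat_lit 1) (nat_lit 17) (.e false (nat_lit 1) (nat_lit 258) (nat_lit 1) (nat_lit 17) (.u (nat_lit 2) (.n (nat_lit 2) (nat_lit 9) (.p (nat_lit 3) (nat_lit 5) (.n (nat_lit 4) (nat_lit 5) (.n (nat_lit 5) (nat_lit 3) (.n (nat_lit 6) (nat_lit 4) (.n (nat_lit 7) (nat_lit 2) (.p (nat_lit 9) (nat_lit 2) (.p (nat_lit 10) (nat_lit 1) (.p (nat_lit 11) (nat_lit 2) (.n (nat_lit 12) (nat_lit 5) (.n (nat_lit 14) (nat_lit 4) (.n (nat_lit 15) (nat_lit 2) (.n (nat_lit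 16) (nat_lit 4) (.p (nat_lit 17) (nat_lit 2) (.n (nat_lit 18) (nat_lit 1) (.n (nat_lit 19) (nat_lit 2) (.p (nat_lit 20) (nat_lit 1) (.n (nat_lit 21) (nat_lit 2) (.p (nat_lit 22) (nat_lit 2) (.n (nat_lit 23) (nat_lit 1) (.p (nat_lit 24) (nat_lit 1) (.n (nat_lit 25) (nat_lit 2) (.p (nat_lit 26) (nat_lit 3) (.p (nat_lit 27) (nat_lit 2) (.p (nat_lit 28) (nat_lit 7) (.p (nat_lit 29) (nat_lit 2) (.p (nat_lit 31) (nat_lit 1) (.p (nat_lit 32) (nat_lit 2) (.p (nat_lit 33) (nat_lit 1) (.p (nat_lit 34) (nat_lit 2) (.p (nat_lit 35) (nat_lit 3) (.n (nat_lit 36) (nat_lit 1) (.n (nat_lit 38) (nat_lit 1) (.p (nat_lit 39) (nat_lit 2) (.n (nat_lit 44) (nat_lit 1) (.p (nat_lit 45) (nat_lit 1) (.p (nat_lit 46) (nat_lit 2) (.p (nat_lit 47) (nat_lit 3) (.p (nat_lit 254) (nat_lit 3) (.p (nat_lit 293) (nat_lit 1) (.p (nat_lit 297) (nat_lit 1) (.n (nat_lit 351) (nat_lit 1) (.n (nat_lit 355) (nat_lit 1) (.p (nat_lit 362) (nat_lit 2) (.n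 (nat_lit 363) (nat_lit 1) (.p (nat_lit 366) (nat_lit 1) (.n (nat_lit 369) (nat_lit 1) (.p (nat_lit 371) (nat_lit 1) (.p (nat_lit 374) (nat_lit 3) .z))))))))))))))))))))))))))))))))))))))))))))))))) .nil)))))))))))))))))))))))))

noncomputable def dC2d_i83 : IL := (.e false (nat_lit 1) (nat_lit 334) (nat_lit 0) (nat_lit 16) (.e false (nat_lit 1) (nat_lit 70) (nat_lit 20) (nat_lit 3) (.e false (nat_lit 2) (nat_lit 283) (nat_lit 2) (nat_lit 14) (.e false (nat_lit 3) (nat_lit 273) (nat_lit 2) (nat_lit 14) (.e true (nat_lit 2) (nat_lit 285) (nat_lit 2) (nat_lit 14) (.e true (nat_lit 1) (nat_lit 252) (nat_lit 2) (nat_lit 14) (.e false (nat_lit 2) (nat_lit 253) (nat_lit 2) (nat_lit 14) (.e true (nat_lit 1) (nat_lit 254) (nat_lit 2) (nat_lit 14) (.e true (nat_lit 2) (nat_lit 255) (nat_lit 2) (nat_lit 14) (.e true (nat_lit 1) (nat_lit 256) (nat_lit 2) (nat_lit 14) (.e false (nat_lit 2) (nat_lit 261) (nat_lit 2) (nat_lit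 14) (.e true (nat_lit 1) (nat_lit 262) (nat_lit 2) (nat_lit 14) (.e true (nat_lit 1) (nat_lit 263) (nat_lit 2) (nat_lit 14) (.e false (nat_lit 2) (nat_lit 265) (nat_lit 2) (nat_lit 14) (.e false (nat_lit 1) (nat_lit 267) (nat_lit 2) (nat_lit 14) (.e true (nat_lit 3) (nat_lit 269) (nat_lit 2) (nat_lit 14) (.e false (nat_lit 3) (nat_lit 270) (nat_lit 2) (nat_lit 14) (.e false (nat_lit 1) (nat_lit 271) (nat_lit 2) (nat_lit 14) (.e true (nat_lit 1) (nat_lit 276) (nat_lit 2) (nat_lit 14) (.e false (nat_lit 2) (nat_lit 277) (nat_lit 2) (nat_lit 14) (.e false (nat_lit 3) (nat_lit 257) (nat_lit 2) (nat_lit 14) (.e false (nat_lit 3) (nat_lit 266) (nat_lit 2) (nat_lit 14) (.e true (nat_lit 1) (nat_lit 284) (nat_lit 2) (nat_lit 14) (.e true (nat_lit 1) (nat_lit 99) (nat_lit 14) (nat_lit 6) (.u (nat_lit 2) (.n (nat_lit 0) (nat_lit 1) (.p (nat_lit 1) (nat_lit 1) (.n (nat_lit 2) (nat_lit 5) (.p (nat_lit 4) (nat_lit 1) (.n (nat_lit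 5) (nat_lit 1) (.p (nat_lit 7) (nat_lit 1) (.n (nat_lit 9) (nat_lit 1) (.p (nat_lit 10) (nat_lit 1) (.p (nat_lit 12) (nat_lit 2) (.p (nat_lit 13) (nat_lit 3) (.p (nat_lit 14) (nat_lit 1) (.n (nat_lit 15) (nat_lit 2) (.n (nat_lit 16) (nat_lit 2) (.p (nat_lit 17) (nat_lit 4) (.p (nat_lit 19) (nat_lit 1) (.n (nat_lit 21) (nat_lit 2) (.p (nat_lit 23) (nat_lit 3) (.p (nat_lit 24) (nat_lit 3) (.n (nat_lit 30) (nat_lit 1) (.p (nat_lit 31) (nat_lit 1) (.p (nat_lit 34) (nat_lit 4) (.p (nat_lit 38) (nat_lit 2) (.p (nat_lit 204) (nat_lit 1) (.n (nat_lit 217) (nat_lit 1) (.n (nat_lit 225) (nat_lit 1) (.p (nat_lit 227) (nat_lit 1) (.n (nat_lit 235) (nat_lit 1) (.p (nat_lit 237) (nat_lit 1) .z)))))))))))))))))))))))))))) .nil)))))))))))))))))))))))))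

noncomputable def dC2d_i84 : IL := (.s false (nat_lit 2) (nat_lit 101) (nat_lit 1) (nat_lit 1) (nat_lit 2) true (nat_lit 7) true (nat_lit 9) false (nat_lit 4) true (nat_lit 10) true (nat_lit 10) (.s true (nat_lit 1) (nat_lit 102) (nat_lit 1) (nat_lit 1) (nat_lit 2) true (nat_lit 7) true (nat_lit 9) false (nat_lit 4) true (nat_lit 10) true (nat_lit 10) (.s true (nat_lit 3) (nat_lit 103) (nat_lit 1) (nat_lit 1) (nat_lit 2) true (nat_lit 7) true (nat_lit 9) false (nat_lit 4) true (nat_lit 10) true (nat_lit 10) (.s true (nat_lit 1) (nat_lit 102) (nat_lit 1) (nat_lit 2) (nat_lit 1) true (nat_lit 8) true (nat_lit 10) false (nat_lit 4) true (nat_lit 10) true (nat_lit 9) (.s true (nat_lit 1) (nat_lit 103) (nat_lit 1) (nat_lit 2) (nat_lit 1) true (nat_lit 8) true (nat_lit 10) false (nat_lit 4) true (nat_lit 10) true (nat_lit 9) (.s false (nat_lit 1) (nat_lit 102) (nat_lit 2) (nat_lit 1) (nat_lit 1) true (nat_lit 7) true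 (nat_lit 10) false (nat_lit 4) true (nat_lit 9) true (nat_lit 10) (.s false (nat_lit 1) (nat_lit 103) (nat_lit 2) (nat_lit 1) (nat_lit 1) true (nat_lit 7) true (nat_lit 10) false (nat_lit 4) true (nat_lit 9) true (nat_lit 10) (.s true (nat_lit 3) (nat_lit 105) (nat_lit 1) (nat_lit 1) (nat_lit 1) true (nat_lit 8) true (nat_lit 10) false (nat_lit 5) true (nat_lit 10) true (nat_lit 10) (.e true (nat_lit 3) (nat_lit 163) (nat_lit 7) (nat_lit 6) (.e true (nat_lit 1) (nat_lit 289) (nat_lit 2) (nat_lit 9) (.e true (nat_lit 1) (nat_lit 290) (nat_lit 2) (nat_lit 9) (.e true (nat_lit 2) (nat_lit 291) (nat_lit 2) (nat_lit 9) (.e true (nat_lit 3) (nat_lit 292) (nat_lit 2) (nat_lit 9) (.e false (nat_lit 1) (nat_lit 293) (nat_lit 2) (nat_lit 9) (.e false (nat_lit 2) (nat_lit 294) (nat_lit 2) (nat_lit 9) (.e true (nat_lit 3) (nat_lit 295) (nat_lit 2) (nat_lit 9) (.e true (nat_lit 3) (nat_lit 296) (nat_lit 2) (nat_lit 9) (.e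 true (nat_lit 1) (nat_lit 299) (nat_lit 2) (nat_lit 9) (.e true (nat_lit 3) (nat_lit 303) (nat_lit 2) (nat_lit 9) (.e true (nat_lit 1) (nat_lit 298) (nat_lit 2) (nat_lit 9) (.e true (nat_lit 1) (nat_lit 301) (nat_lit 2) (nat_lit 9) (.e false (nat_lit 1) (nat_lit 79) (nat_lit 20) (nat_lit 2) (.e true (nat_lit 1) (nat_lit 324) (nat_lit 1) (nat_lit 10) (.e false (nat_lit 1) (nat_lit 325) (nat_lit 1) (nat_lit 10) (.u (nat_lit 2) (.n (nat_lit 1) (nat_lit 1) (.n (nat_lit 5) (nat_lit 1) (.n (nat_lit 8) (nat_lit 1) (.n (nat_lit 14) (nat_lit 1) (.p (nat_lit 19) (nat_lit 1) (.p (nat_lit 25) (nat_lit 1) (.p (nat_lit 27) (nat_lit 1) (.n (nat_lit 30) (nat_lit 1) (.p (nat_lit 32) (nat_lit 1) (.n (nat_lit 33) (nat_lit 1) (.n (nat_lit 39) (nat_lit 1) (.n (nat_lit 45) (nat_lit 1) (.p (nat_lit 47) (nat_lit 1) (.n (nat_lit 48) (nat_lit 1) (.p (nat_lit 53) (nat_lit 1) (.p (nat_lit 55) (nat_lit 1) (.p (nat_lit 56) (nat_lit 2) (.n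 (nat_lit 57) (nat_lit 1) (.n (nat_lit 58) (nat_lit 3) (.p (nat_lit 60) (nat_lit 1) (.n (nat_lit 62) (nat_lit 2) (.p (nat_lit 64) (nat_lit 1) (.p (nat_lit 65) (nat_lit 1) (.n (nat_lit 66) (nat_lit 1) (.n (nat_lit 70) (nat_lit 1) (.p (nat_lit 74) (nat_lit 1) (.n (nat_lit 78) (nat_lit 1) (.p (nat_lit 79) (nat_lit 1) (.n (nat_lit 80) (nat_lit 8) (.p (nat_lit 81) (nat_lit 11) (.p (nat_lit 82) (nat_lit 3) (.n (nat_lit 83) (nat_lit 8) (.p (nat_lit 84) (nat_lit 6) (.n (nat_lit 85) (nat_lit 4) (.n (nat_lit 86) (nat_lit 3) (.p (nat_lit 87) (nat_lit 10) (.p (nat_lit 88) (nat_lit 3) (.n (nat_lit 89) (nat_lit 3) (.p (nat_lit 91) (nat_lit 3) (.p (nat_lit 92) (nat_lit 1) (.n (nat_lit 93) (nat_lit 2) (.n (nat_lit 94) (nat_lit 8) (.p (nat_lit 95) (nat_lit 4) (.n (nat_lit 96) (nat_lit 3) (.n (nat_lit 97) (nat_lit 1) (.p (nat_lit 98) (nat_lit 2) (.n (nat_lit 99) (nat_lit 2) (.p (nat_lit 100) (nat_lit 6) (.p (nat_lit 101) (nat_lit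 6) (.p (nat_lit 102) (nat_lit 5) (.n (nat_lit 103) (nat_lit 7) (.p (nat_lit 105) (nat_lit 2) (.p (nat_lit 106) (nat_lit 2) .z))))))))))))))))))))))))))))))))))))))))))))))))))))) .nil)))))))))))))))))))))))))

noncomputable def dC2d_i85 : IL := (.s false (nat_lit 1) (nat_lit 39) (nat_lit 1) (nat_lit 2) (nat_lit 7) true (nat_lit 3) true (nat_lit 6) true (nat_lit 0) true (nat_lit 10) true (nat_lit 9) (.s true (nat_lit 2) (nat_lit 40) (nat_lit 1) (nat_lit 2) (nat_lit 7) true (nat_lit 3) true (nat_lit 6) true (nat_lit 0) true (nat_lit 10) true (nat_lit 9) (.s true (nat_lit 1) (nat_lit 39) (nat_lit 6) (nat_lit 2) (nat_lit 2) true (nat_lit 3) true (nat_lit 9) true (nat_lit 0) true (nat_lit 7) true (nat_lit 9) (.s false (nat_lit 2) (nat_lit 41) (nat_lit 7) (nat_lit 2) (nat_lit 1) true (nat_lit 3) true (nat_lit 10) true (nat_lit 0) true (nat_lit 6) true (nat_lit 9) (.s true (nat_lit 2) (nat_lit 46) (nat_lit 1) (nat_lit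 2) (nat_lit 6) true (nat_lit 4) true (nat_lit 7) false (nat_lit 0) true (nat_lit 10) true (nat_lit 9) (.s true (nat_lit 2) (nat_lit 45) (nat_lit 2) (nat_lit 1) (nat_lit 6) true (nat_lit 3) true (nat_lit 7) false (nat_lit 0) true (nat_lit 9) true (nat_lit 10) (.s true (nat_lit 1) (nat_lit 46) (nat_lit 2) (nat_lit 2) (nat_lit 4) true (nat_lit 4) true (nat_lit 8) false (nat_lit 0) true (nat_lit 9) true (nat_lit 9) (.s true (nat_lit 2) (nat_lit 47) (nat_lit 2) (nat_lit 2) (nat_lit 4) true (nat_lit 4) true (nat_lit 8) false (nat_lit 0) true (nat_lit 9) true (nat_lit 9) (.s true (nat_lit 1) (nat_lit 46) (nat_lit 4) (nat_lit 2) (nat_lit 2) true (nat_lit 4) true (nat_lit 9) false (nat_lit 0) true (nat_lit 8) true (nat_lit 9) (.s true (nat_lit 2) (nat_lit 47) (nat_lit 4) (nat_lit 2) (nat_lit 2) true (nat_lit 4) true (nat_lit 9) false (nat_lit 0) true (nat_lit 8) true (nat_lit 9) (.s true (nat_lit 2) (nat_lit 46) (nat_lit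 7) (nat_lit 1) (nat_lit 1) true (nat_lit 3) true (nat_lit 10) false (nat_lit 0) true (nat_lit 6) true (nat_lit 10) (.s false (nat_lit 1) (nat_lit 48) (nat_lit 1) (nat_lit 2) (nat_lit 4) true (nat_lit 5) true (nat_lit 8) false (nat_lit 1) true (nat_lit 10) true (nat_lit 9) (.s true (nat_lit 2) (nat_lit 48) (nat_lit 4) (nat_lit 2) (nat_lit 1) true (nat_lit 5) true (nat_lit 10) false (nat_lit 1) true (nat_lit 8) true (nat_lit 9) (.s false (nat_lit 1) (nat_lit 77) (nat_lit 2) (nat_lit 2) (nat_lit 2) true (nat_lit 6) true (nat_lit 9) false (nat_lit 2) true (nat_lit 9) true (nat_lit 9) (.s false (nat_lit 1) (nat_lit 78) (nat_lit 2) (nat_lit 2) (nat_lit 2) true (nat_lit 6) true (nat_lit 9) false (nat_lit 2) true (nat_lit 9) true (nat_lit 9) (.s false (nat_lit 2) (nat_lit 91) (nat_lit 1) (nat_lit 2) (nat_lit 2) true (nat_lit 7) true (nat_lit 9) false (nat_lit 3) true (nat_lit 10) true (nat_lit 9) (.s true (nat_lit 2)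 (nat_lit 92) (nat_lit 1) (nat_lit 2) (nat_lit 2) true (nat_lit 7) true (nat_lit 9) false (nat_lit 3) true (nat_lit 10) true (nat_lit 9) (.s false (nat_lit 1) (nat_lit 96) (nat_lit 1) (nat_lit 2) (nat_lit 2) true (nat_lit 7) true (nat_lit 9) false (nat_lit 3) true (nat_lit 10) true (nat_lit 9) (.s false (nat_lit 2) (nat_lit 92) (nat_lit 2) (nat_lit 1) (nat_lit 2) true (nat_lit 6) true (nat_lit 9) false (nat_lit 3) true (nat_lit 9) true (nat_lit 10) (.s false (nat_lit 2) (nat_lit 94) (nat_lit 2) (nat_lit 1) (nat_lit 2) true (nat_lit 6) true (nat_lit 9) false (nat_lit 3) true (nat_lit 9) true (nat_lit 10) (.s true (nat_lit 3) (nat_lit 96) (nat_lit 2) (nat_lit 1) (nat_lit 2) true (nat_lit 6) true (nat_lit 9) false (nat_lit 3) true (nat_lit 9) true (nat_lit 10) (.s false (nat_lit 3) (nat_lit 91) (nat_lit 2) (nat_lit 2) (nat_lit 1) true (nat_lit 7) true (nat_lit 10) false (nat_lit 3) true (nat_lit 9) true (nat_lit 9)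 (.s true (nat_lit 1) (nat_lit 92) (nat_lit 2) (nat_lit 2) (nat_lit 1) true (nat_lit 7) true (nat_lit 10) false (nat_lit 3) true (nat_lit 9) true (nat_lit 9) (.s false (nat_lit 2) (nat_lit 95) (nat_lit 2) (nat_lit 2) (nat_lit 1) true (nat_lit 7) true (nat_lit 10) false (nat_lit 3) true (nat_lit 9) true (nat_lit 9) (.s true (nat_lit 1) (nat_lit 96) (nat_lit 2) (nat_lit 2) (nat_lit 1) true (nat_lit 7) true (nat_lit 10) false (nat_lit 3) true (nat_lit 9) true (nat_lit 9) dC2d_i84)))))))))))))))))))))))))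

noncomputable def dC2d_i86 : IL := (.e true (nat_lit 1) (nat_lit 271) (nat_lit 1) (nat_lit 17) (.e true (nat_lit 1) (nat_lit 273) (nat_lit 1) (nat_lit 17) (.e false (nat_lit 1) (nat_lit 276) (nat_lit 1) (nat_lit 17) (.e true (nat_lit 1) (nat_lit 277) (nat_lit 1) (nat_lit 17) (.e true (nat_lit 1) (nat_lit 259) (nat_lit 1) (nat_lit 17) (.e false (nat_lit 1) (nat_lit 260) (nat_lit 1) (nat_lit 17) (.e true (nat_lit 2) (nat_lit 282) (nat_lit 1) (nat_lit 17) (.e true (nat_lit 1) (nat_lit 255) (nat_lit 1) (nat_lit 17) (.e false (nat_lit 2) (nat_lit 256) (nat_lit 1) (nat_lit 17) (.e true (nat_lit 1) (nat_lit 286) (nat_lit 1) (nat_lit 17) (.e true (nat_lit 1) (nat_lit 101) (nat_lit 8) (nat_lit 10) (.e false (nat_lit 1) (nat_lit 289) (nat_lit 0) (nat_lit 18) (.e true (nat_lit 3) (nat_lit 290) (nat_lit 0) (nat_lit 18) (.e true (nat_lit 3) (nat_lit 291) (nat_lit 0) (nat_lit 18) (.e false (nat_lit 3) (nat_lit 292) (nat_lit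 0) (nat_lit 18) (.e false (nat_lit 2) (nat_lit 293) (nat_lit 0) (nat_lit 18) (.e true (nat_lit 3) (nat_lit 295) (nat_lit 0) (nat_lit 18) (.e true (nat_lit 3) (nat_lit 296) (nat_lit 0) (nat_lit 18) (.e true (nat_lit 3) (nat_lit 298) (nat_lit 0) (nat_lit 18) (.e true (nat_lit 1) (nat_lit 299) (nat_lit 0) (nat_lit 18) (.e false (nat_lit 2) (nat_lit 303) (nat_lit 0) (nat_lit 18) (.e true (nat_lit 1) (nat_lit 304) (nat_lit 0) (nat_lit 18) (.e true (nat_lit 1) (nat_lit 284) (nat_lit 1) (nat_lit 17) (.e true (nat_lit 1) (nat_lit 287) (nat_lit 1) (nat_lit 17) (.u (nat_lit 2) (.n (nat_lit 1) (nat_lit 1) (.n (nat_lit 5) (nat_lit 1) (.p (nat_lit 7) (nat_lit 1) (.n (nat_lit 8) (nat_lit 1) (.p (nat_lit 10) (nat_lit 3) (.p (nat_lit 11) (nat_lit 1) (.p (nat_lit 12) (nat_lit 2) (.n (nat_lit 14) (nat_lit 1) (.p (nat_lit 16) (nat_lit 1) (.p (nat_lit 17) (nat_lit 2) (.n (nat_lit 23) (nat_lit 1) (.p (nat_lit 26) (nat_lit 2) (.n (nat_lit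 27) (nat_lit 2) (.n (nat_lit 28) (nat_lit 1) (.n (nat_lit 31) (nat_lit 1) (.p (nat_lit 32) (nat_lit 1) (.p (nat_lit 36) (nat_lit 2) (.p (nat_lit 37) (nat_lit 1) (.p (nat_lit 39) (nat_lit 2) (.n (nat_lit 42) (nat_lit 1) (.n (nat_lit 349) (nat_lit 1) (.n (nat_lit 350) (nat_lit 3) (.p (nat_lit 351) (nat_lit 1) (.p (nat_lit 352) (nat_lit 1) (.p (nat_lit 354) (nat_lit 1) (.n (nat_lit 355) (nat_lit 2) (.n (nat_lit 356) (nat_lit 1) (.p (nat_lit 357) (nat_lit 1) (.n (nat_lit 358) (nat_lit 1) (.n (nat_lit 361) (nat_lit 1) (.p (nat_lit 362) (nat_lit 2) (.n (nat_lit 363) (nat_lit 2) (.n (nat_lit 366) (nat_lit 2) (.n (nat_lit 368) (nat_lit 1) (.n (nat_lit 369) (nat_lit 3) (.n (nat_lit 370) (nat_lit 2) (.p (nat_lit 373) (nat_lit 1) (.p (nat_lit 374) (nat_lit 2) (.p (nat_lit 375) (nat_lit 1) (.p (nat_lit 376) (nat_lit 1) (.p (nat_lit 385) (nat_lit 1) .z))))))))))))))))))))))))))))))))))))))))) .nil)))))))))))))))))))))))))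

noncomputable def dC2d_i87 : IL := (.e true (nat_lit 2) (nat_lit 255) (nat_lit 2) (nat_lit 14) (.e true (nat_lit 1) (nat_lit 256) (nat_lit 2) (nat_lit 14) (.e false (nat_lit 1) (nat_lit 258) (nat_lit 2) (nat_lit 14) (.e false (nat_lit 3) (nat_lit 259) (nat_lit 2) (nat_lit 14) (.e false (nat_lit 3) (nat_lit 260) (nat_lit 2) (nat_lit 14) (.e true (nat_lit 2) (nat_lit 261) (nat_lit 2) (nat_lit 14) (.e false (nat_lit 3) (nat_lit 262) (nat_lit 2) (nat_lit 14) (.e false (nat_lit 3) (nat_lit 263) (nat_lit 2) (nat_lit 14) (.e true (nat_lit 3) (nat_lit 264) (nat_lit 2) (nat_lit 14) (.e true (nat_lit 2) (nat_lit 265) (nat_lit 2) (nat_lit 14) (.e true (nat_lit 2) (nat_lit 266) (nat_lit 2) (nat_lit 14) (.e true (nat_lit 3) (nat_lit 267) (nat_lit 2) (nat_lit 14) (.e false (nat_lit 1) (nat_lit 269) (nat_lit 2) (nat_lit 14) (.e false (nat_lit 2) (nat_lit 270) (nat_lit 2) (nat_lit 14) (.e false (nat_lit 1) (nat_lit 271) (nat_lit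 2) (nat_lit 14) (.e true (nat_lit 2) (nat_lit 272) (nat_lit 2) (nat_lit 14) (.e false (nat_lit 3) (nat_lit 274) (nat_lit 2) (nat_lit 14) (.e false (nat_lit 2) (nat_lit 275) (nat_lit 2) (nat_lit 14) (.e true (nat_lit 1) (nat_lit 276) (nat_lit 2) (nat_lit 14) (.e false (nat_lit 2) (nat_lit 279) (nat_lit 2) (nat_lit 14) (.e false (nat_lit 1) (nat_lit 280) (nat_lit 2) (nat_lit 14) (.e true (nat_lit 1) (nat_lit 281) (nat_lit 2) (nat_lit 14) (.e true (nat_lit 1) (nat_lit 282) (nat_lit 2) (nat_lit 14) (.e true (nat_lit 1) (nat_lit 286) (nat_lit 2) (nat_lit 14) (.u (nat_lit 2) (.n (nat_lit 0) (nat_lit 3) (.n (nat_lit 1) (nat_lit 1) (.n (nat_lit 2) (nat_lit 2) (.n (nat_lit 3) (nat_lit 2) (.n (nat_lit 4) (nat_lit 7) (.p (nat_lit 5) (nat_lit 1) (.n (nat_lit 6) (nat_lit 3) (.n (nat_lit 7) (nat_lit 3) (.n (nat_lit 8) (nat_lit 1) (.n (nat_lit 9) (nat_lit 5) (.p (nat_lit 10) (nat_lit 2) (.p (nat_lit 11) (nat_lit 4) (.n (nat_lit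 12) (nat_lit 4) (.n (nat_lit 13) (nat_lit 1) (.n (nat_lit 15) (nat_lit 1) (.n (nat_lit 16) (nat_lit 2) (.n (nat_lit 18) (nat_lit 6) (.p (nat_lit 21) (nat_lit 2) (.n (nat_lit 22) (nat_lit 1) (.n (nat_lit 23) (nat_lit 6) (.n (nat_lit 24) (nat_lit 2) (.p (nat_lit 25) (nat_lit 1) (.p (nat_lit 26) (nat_lit 2) (.n (nat_lit 27) (nat_lit 2) (.p (nat_lit 28) (nat_lit 1) (.p (nat_lit 29) (nat_lit 2) (.p (nat_lit 30) (nat_lit 2) (.n (nat_lit 31) (nat_lit 2) (.p (nat_lit 33) (nat_lit 2) (.p (nat_lit 35) (nat_lit 1) (.n (nat_lit 36) (nat_lit 1) (.n (nat_lit 38) (nat_lit 2) (.p (nat_lit 244) (nat_lit 1) (.p (nat_lit 246) (nat_lit 1) (.p (nat_lit 250) (nat_lit 1) .z))))))))))))))))))))))))))))))))))) .nil)))))))))))))))))))))))))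

noncomputable def dC2d_i88 : IL := (.e true (nat_lit 1) (nat_lit 101) (nat_lit 12) (nat_lit 7) (.e true (nat_lit 1) (nat_lit 305) (nat_lit 1) (nat_lit 15) (.e true (nat_lit 3) (nat_lit 306) (nat_lit 1) (nat_lit 15) (.e false (nat_lit 3) (nat_lit 307) (nat_lit 1) (nat_lit 15) (.e true (nat_lit 2) (nat_lit 308) (nat_lit 1) (nat_lit 15) (.e false (nat_lit 1) (nat_lit 309) (nat_lit 1) (nat_lit 15) (.e true (nat_lit 2) (nat_lit 310) (nat_lit 1) (nat_lit 15) (.e false (nat_lit 1) (nat_lit 312) (nat_lit 1) (nat_lit 15) (.e true (nat_lit 1) (nat_lit 314) (nat_lit 1) (nat_lit 15) (.e false (nat_lit 3) (nat_lit 313) (nat_lit 1) (nat_lit 15) (.e true (nat_lit 1) (nat_lit 316) (nat_lit 1) (nat_lit 15) (.e false (nat_lit 1) (nat_lit 317) (nat_lit 1) (nat_lit 15) (.e false (nat_lit 1) (nat_lit 45) (nat_lit 36) (nat_lit 1) (.e false (nat_lit 2) (nat_lit 185) (nat_lit 5) (nat_lit 11) (.e false (nat_lit 2) (nat_lit 186) (nat_lit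 5) (nat_lit 11) (.e true (nat_lit 1) (nat_lit 187) (nat_lit 5) (nat_lit 11) (.e false (nat_lit 3) (nat_lit 188) (nat_lit 5) (nat_lit 11) (.e false (nat_lit 1) (nat_lit 189) (nat_lit 5) (nat_lit 11) (.e true (nat_lit 3) (nat_lit 190) (nat_lit 5) (nat_lit 11) (.e true (nat_lit 1) (nat_lit 192) (nat_lit 5) (nat_lit 11) (.e false (nat_lit 2) (nat_lit 193) (nat_lit 5) (nat_lit 11) (.e false (nat_lit 1) (nat_lit 194) (nat_lit 5) (nat_lit 11) (.e true (nat_lit 2) (nat_lit 252) (nat_lit 2) (nat_lit 14) (.e true (nat_lit 2) (nat_lit 253) (nat_lit 2) (nat_lit 14) (.e true (nat_lit 3) (nat_lit 254) (nat_lit 2) (nat_lit 14) dC2d_i87)))))))))))))))))))))))))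

noncomputable def dC2d_i89 : IL := (.s false (nat_lit 3) (nat_lit 18) (nat_lit 4) (nat_lit 2) (nat_lit 2) true (nat_lit 2) true (nat_lit 7) true (nat_lit 1) true (nat_lit 6) true (nat_lit 7) (.s true (nat_lit 1) (nat_lit 20) (nat_lit 1) (nat_lit 2) (nat_lit 4) true (nat_lit 3) true (nat_lit 6) true (nat_lit 0) true (nat_lit 8) true (nat_lit 7) (.s true (nat_lit 3) (nat_lit 20) (nat_lit 1) (nat_lit 4) (nat_lit 2) true (nat_lit 5) true (nat_lit 7) true (nat_lit 0) true (nat_lit 8) true (nat_lit 6) (.s false (nat_lit 1) (nat_lit 20) (nat_lit 2) (nat_lit 1) (nat_lit 4) true (nat_lit 2) true (nat_lit 6) true (nat_lit 0) true (nat_lit 7) true (nat_lit 8) (.s false (nat_lit 3) (nat_lit 39) (nat_lit 2) (nat_lit 1) (nat_lit 2) true (nat_lit 4) true (nat_lit 7) false (nat_lit 1) true (nat_lit 7) true (nat_lit 8) (.s false (nat_lit 3) (nat_lit 40) (nat_lit 2) (nat_lit 2) (nat_lit 1) true (nat_lit 5) true (nat_lit 8) false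 (nat_lit 1) true (nat_lit 7) true (nat_lit 7) (.s true (nat_lit 3) (nat_lit 41) (nat_lit 2) (nat_lit 2) (nat_lit 1) true (nat_lit 5) true (nat_lit 8) false (nat_lit 1) true (nat_lit 7) true (nat_lit 7) (.s true (nat_lit 3) (nat_lit 46) (nat_lit 1) (nat_lit 1) (nat_lit 2) true (nat_lit 5) true (nat_lit 7) false (nat_lit 2) true (nat_lit 8) true (nat_lit 8) (.s true (nat_lit 2) (nat_lit 48) (nat_lit 1) (nat_lit 1) (nat_lit 1) true (nat_lit 6) true (nat_lit 8) false (nat_lit 3) true (nat_lit 8) true (nat_lit 8) (.e true (nat_lit 3) (nat_lit 74) (nat_lit 7) (nat_lit 4) (.e false (nat_lit 3) (nat_lit 79) (nat_lit 7) (nat_lit 4) (.e false (nat_lit 1) (nat_lit 160) (nat_lit 2) (nat_lit 7) (.e true (nat_lit 3) (nat_lit 161) (nat_lit 2) (nat_lit 7) (.e true (nat_lit 1) (nat_lit 162) (nat_lit 2) (nat_lit 7) (.e false (nat_lit 1) (nat_lit 165) (nat_lit 2) (nat_lit 7) (.e false (nat_lit 3) (nat_lit 166) (nat_lit 2) (nat_lit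 7) (.e false (nat_lit 2) (nat_lit 159) (nat_lit 2) (nat_lit 7) (.e false (nat_lit 3) (nat_lit 75) (nat_lit 7) (nat_lit 4) (.e false (nat_lit 1) (nat_lit 167) (nat_lit 2) (nat_lit 7) (.e false (nat_lit 1) (nat_lit 94) (nat_lit 6) (nat_lit 5) (.e false (nat_lit 2) (nat_lit 187) (nat_lit 1) (nat_lit 8) (.e true (nat_lit 1) (nat_lit 188) (nat_lit 1) (nat_lit 8) (.e false (nat_lit 3) (nat_lit 48) (nat_lit 10) (nat_lit 3) (.e false (nat_lit 3) (nat_lit 30) (nat_lit 20) (nat_lit 0) (.u (nat_lit 2) (.p (nat_lit 8) (nat_lit 1) (.p (nat_lit 14) (nat_lit 1) (.n (nat_lit 20) (nat_lit 1) (.n (nat_lit 23) (nat_lit 1) (.p (nat_lit 24) (nat_lit 1) (.p (nat_lit 26) (nat_lit 1) (.p (nat_lit 32) (nat_lit 1) (.n (nat_lit 33) (nat_lit 1) (.n (nat_lit 39) (nat_lit 1) (.p (nat_lit 40) (nat_lit 1) (.n (nat_lit 45) (nat_lit 1) (.n (nat_lit 47) (nat_lit 1) (.n (nat_lit 49) (nat_lit 1) (.n (nat_lit 50) (nat_lit 1) (.p (nat_lit 51) (nat_lit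 4) (.p (nat_lit 52) (nat_lit 1) (.p (nat_lit 53) (nat_lit 1) (.p (nat_lit 54) (nat_lit 1) (.n (nat_lit 55) (nat_lit 2) (.p (nat_lit 56) (nat_lit 1) (.n (nat_lit 58) (nat_lit 1) (.n (nat_lit 59) (nat_lit 2) (.p (nat_lit 60) (nat_lit 1) (.n (nat_lit 62) (nat_lit 1) (.p (nat_lit 63) (nat_lit 1) (.p (nat_lit 64) (nat_lit 2) (.p (nat_lit 66) (nat_lit 1) .z))))))))))))))))))))))))))) .nil)))))))))))))))))))))))))

noncomputable def dC2d_i90 : IL := (.e false (nat_lit 1) (nat_lit 262) (nat_lit 1) (nat_lit 17) (.e false (nat_lit 3) (nat_lit 267) (nat_lit 1) (nat_lit 17) (.e false (nat_lit 1) (nat_lit 271) (nat_lit 1) (nat_lit 17) (.e false (nat_lit 1) (nat_lit 273) (nat_lit 1) (nat_lit 17) (.e true (nat_lit 1) (nat_lit 276) (nat_lit 1) (nat_lit 17) (.e false (nat_lit 3) (nat_lit 278) (nat_lit 1) (nat_lit 17) (.e false (nat_lit 3) (nat_lit 287) (nat_lit 1) (nat_lit 17) (.e false (nat_lit 1) (nat_lit 263) (nat_lit 1) (nat_lit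 17) (.e true (nat_lit 2) (nat_lit 269) (nat_lit 1) (nat_lit 17) (.e true (nat_lit 1) (nat_lit 102) (nat_lit 8) (nat_lit 10) (.e false (nat_lit 3) (nat_lit 289) (nat_lit 0) (nat_lit 18) (.e true (nat_lit 1) (nat_lit 291) (nat_lit 0) (nat_lit 18) (.e true (nat_lit 3) (nat_lit 292) (nat_lit 0) (nat_lit 18) (.e false (nat_lit 2) (nat_lit 293) (nat_lit 0) (nat_lit 18) (.e false (nat_lit 1) (nat_lit 294) (nat_lit 0) (nat_lit 18) (.e true (nat_lit 1) (nat_lit 295) (nat_lit 0) (nat_lit 18) (.e true (nat_lit 2) (nat_lit 297) (nat_lit 0) (nat_lit 18) (.e true (nat_lit 3) (nat_lit 298) (nat_lit 0) (nat_lit 18) (.e true (nat_lit 2) (nat_lit 300) (nat_lit 0) (nat_lit 18) (.e false (nat_lit 2) (nat_lit 301) (nat_lit 0) (nat_lit 18) (.e false (nat_lit 3) (nat_lit 303) (nat_lit 0) (nat_lit 18) (.e true (nat_lit 2) (nat_lit 304) (nat_lit 0) (nat_lit 18) (.e true (nat_lit 1) (nat_lit 284) (nat_lit 1) (nat_lit 17) (.e false (nat_lit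 2) (nat_lit 286) (nat_lit 1) (nat_lit 17) (.u (nat_lit 2) (.p (nat_lit 0) (nat_lit 3) (.n (nat_lit 2) (nat_lit 2) (.p (nat_lit 3) (nat_lit 2) (.n (nat_lit 5) (nat_lit 3) (.p (nat_lit 7) (nat_lit 2) (.n (nat_lit 9) (nat_lit 2) (.n (nat_lit 10) (nat_lit 4) (.n (nat_lit 11) (nat_lit 2) (.p (nat_lit 12) (nat_lit 1) (.p (nat_lit 14) (nat_lit 2) (.p (nat_lit 15) (nat_lit 1) (.n (nat_lit 17) (nat_lit 2) (.n (nat_lit 18) (nat_lit 1) (.p (nat_lit 24) (nat_lit 1) (.n (nat_lit 25) (nat_lit 1) (.n (nat_lit 26) (nat_lit 1) (.p (nat_lit 27) (nat_lit 3) (.n (nat_lit 28) (nat_lit 1) (.p (nat_lit 33) (nat_lit 1) (.p (nat_lit 34) (nat_lit 3) (.n (nat_lit 36) (nat_lit 3) (.n (nat_lit 38) (nat_lit 1) (.p (nat_lit 40) (nat_lit 1) (.n (nat_lit 42) (nat_lit 1) (.n (nat_lit 44) (nat_lit 1) (.p (nat_lit 350) (nat_lit 1) (.p (nat_lit 352) (nat_lit 2) (.p (nat_lit 353) (nat_lit 1) (.n (nat_lit 354) (nat_lit 1) (.p (nat_lit 355) (nat_lit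 2) (.p (nat_lit 356) (nat_lit 1) (.n (nat_lit 357) (nat_lit 1) (.n (nat_lit 360) (nat_lit 1) (.p (nat_lit 361) (nat_lit 1) (.n (nat_lit 362) (nat_lit 1) (.n (nat_lit 364) (nat_lit 1) (.p (nat_lit 366) (nat_lit 1) (.n (nat_lit 370) (nat_lit 1) (.p (nat_lit 374) (nat_lit 1) (.p (nat_lit 379) (nat_lit 1) (.n (nat_lit 380) (nat_lit 1) (.p (nat_lit 382) (nat_lit 1) .z)))))))))))))))))))))))))))))))))))))))))) .nil)))))))))))))))))))))))))

noncomputable def dC2d_i91 : IL := (.e false (nat_lit 1) (nat_lit 84) (nat_lit 19) (nat_lit 4) (.e true (nat_lit 2) (nat_lit 85) (nat_lit 19) (nat_lit 4) (.e false (nat_lit 3) (nat_lit 86) (nat_lit 19) (nat_lit 4) (.e true (nat_lit 3) (nat_lit 87) (nat_lit 19) (nat_lit 4) (.e false (nat_lit 3) (nat_lit 90) (nat_lit 19) (nat_lit 4) (.e true (nat_lit 1) (nat_lit 133) (nat_lit 7) (nat_lit 9) (.e false (nat_lit 2) (nat_lit 135) (nat_lit 7) (nat_lit 9) (.e true (nat_lit 1) (nat_lit 138)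 (nat_lit 7) (nat_lit 9) (.e true (nat_lit 1) (nat_lit 139) (nat_lit 7) (nat_lit 9) (.e false (nat_lit 1) (nat_lit 140) (nat_lit 7) (nat_lit 9) (.e false (nat_lit 1) (nat_lit 144) (nat_lit 7) (nat_lit 9) (.e false (nat_lit 3) (nat_lit 150) (nat_lit 7) (nat_lit 9) (.e false (nat_lit 3) (nat_lit 155) (nat_lit 7) (nat_lit 9) (.e true (nat_lit 2) (nat_lit 306) (nat_lit 1) (nat_lit 15) (.e false (nat_lit 2) (nat_lit 307) (nat_lit 1) (nat_lit 15) (.e false (nat_lit 1) (nat_lit 308) (nat_lit 1) (nat_lit 15) (.e true (nat_lit 2) (nat_lit 310) (nat_lit 1) (nat_lit 15) (.e false (nat_lit 1) (nat_lit 311) (nat_lit 1) (nat_lit 15) (.e false (nat_lit 3) (nat_lit 312) (nat_lit 1) (nat_lit 15) (.e false (nat_lit 1) (nat_lit 314) (nat_lit 1) (nat_lit 15) (.e false (nat_lit 1) (nat_lit 317) (nat_lit 1) (nat_lit 15) (.e false (nat_lit 1) (nat_lit 313) (nat_lit 1) (nat_lit 15) (.e true (nat_lit 3) (nat_lit 315) (nat_lit 1) (nat_lit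 15) (.e true (nat_lit 3) (nat_lit 318) (nat_lit 1) (nat_lit 15) (.u (nat_lit 2) (.n (nat_lit 0) (nat_lit 4) (.n (nat_lit 1) (nat_lit 1) (.p (nat_lit 2) (nat_lit 4) (.n (nat_lit 3) (nat_lit 5) (.n (nat_lit 4) (nat_lit 3) (.p (nat_lit 5) (nat_lit 1) (.p (nat_lit 6) (nat_lit 3) (.p (nat_lit 7) (nat_lit 1) (.n (nat_lit 8) (nat_lit 1) (.p (nat_lit 9) (nat_lit 5) (.n (nat_lit 10) (nat_lit 4) (.p (nat_lit 11) (nat_lit 2) (.n (nat_lit 12) (nat_lit 5) (.n (nat_lit 13) (nat_lit 3) (.n (nat_lit 15) (nat_lit 5) (.n (nat_lit 16) (nat_lit 7) (.n (nat_lit 21) (nat_lit 4) (.p (nat_lit 22) (nat_lit 1) (.p (nat_lit 23) (nat_lit 3) (.n (nat_lit 24) (nat_lit 6) (.n (nat_lit 26) (nat_lit 4) (.n (nat_lit 27) (nat_lit 3) (.p (nat_lit 29) (nat_lit 3) (.p (nat_lit 30) (nat_lit 3) (.p (nat_lit 31) (nat_lit 1) (.n (nat_lit 32) (nat_lit 1) (.p (nat_lit 33) (nat_lit 3) (.n (nat_lit 34) (nat_lit 5) (.n (nat_lit 35) (nat_lit 5) (.n (nat_lit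 38) (nat_lit 2) (.p (nat_lit 97) (nat_lit 1) (.n (nat_lit 98) (nat_lit 1) (.n (nat_lit 101) (nat_lit 1) (.n (nat_lit 102) (nat_lit 1) (.p (nat_lit 143) (nat_lit 1) (.p (nat_lit 145) (nat_lit 1) (.p (nat_lit 148) (nat_lit 1) (.p (nat_lit 149) (nat_lit 1) (.n (nat_lit 150) (nat_lit 1) (.n (nat_lit 154) (nat_lit 1) (.p (nat_lit 191) (nat_lit 1) (.n (nat_lit 192) (nat_lit 1) (.n (nat_lit 241) (nat_lit 6) (.n (nat_lit 242) (nat_lit 1) (.n (nat_lit 243) (nat_lit 2) (.n (nat_lit 244) (nat_lit 4) (.p (nat_lit 245) (nat_lit 6) (.n (nat_lit 246) (nat_lit 1) (.n (nat_lit 247) (nat_lit 1) (.n (nat_lit 248) (nat_lit 3) (.p (nat_lit 249) (nat_lit 2) (.p (nat_lit 250) (nat_lit 2) (.p (nat_lit 251) (nat_lit 3) (.n (nat_lit 253) (nat_lit 1) .z)))))))))))))))))))))))))))))))))))))))))))))))))))))) .nil)))))))))))))))))))))))))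

noncomputable def dC2d_i92 : IL := (.s true (nat_lit 2) (nat_lit 20) (nat_lit 1) (nat_lit 4) (nat_lit 2) true (nat_lit 5) true (nat_lit 7) true (nat_lit 0) true (nat_lit 8) true (nat_lit 6) (.s true (nat_lit 1) (nat_lit 20) (nat_lit 2) (nat_lit 1) (nat_lit 4) true (nat_lit 2) true (nat_lit 6) true (nat_lit 0) true (nat_lit 7) true (nat_lit 8) (.s false (nat_lit 2) (nat_lit 39) (nat_lit 2) (nat_lit 1) (nat_lit 2) true (nat_lit 4) true (nat_lit 7) false (nat_lit 1) true (nat_lit 7) true (nat_lit 8) (.s true (nat_lit 2) (nat_lit 40) (nat_lit 2) (nat_lit 1) (nat_lit 2) true (nat_lit 4) true (nat_lit 7) false (nat_lit 1) true (nat_lit 7) true (nat_lit 8) (.s false (nat_lit 1) (nat_lit 46) (nat_lit 1) (nat_lit 1) (nat_lit 2) true (nat_lit 5) true (nat_lit 7) false (nat_lit 2) true (nat_lit 8) true (nat_lit 8) (.s false (nat_lit 1) (nat_lit 46) (nat_lit 1) (nat_lit 2) (nat_lit 1) true (nat_lit 6) true (nat_lit 8) false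 (nat_lit 2) true (nat_lit 8) true (nat_lit 7) (.s true (nat_lit 1) (nat_lit 46) (nat_lit 2) (nat_lit 1) (nat_lit 1) true (nat_lit 5) true (nat_lit 8) false (nat_lit 2) true (nat_lit 7) true (nat_lit 8) (.s false (nat_lit 3) (nat_lit 48) (nat_lit 1) (nat_lit 1) (nat_lit 1) true (nat_lit 6) true (nat_lit 8) false (nat_lit 3) true (nat_lit 8) true (nat_lit 8) (.e true (nat_lit 2) (nat_lit 74) (nat_lit 7) (nat_lit 4) (.e false (nat_lit 1) (nat_lit 158) (nat_lit 2) (nat_lit 7) (.e false (nat_lit 1) (nat_lit 161) (nat_lit 2) (nat_lit 7) (.e false (nat_lit 3) (nat_lit 162) (nat_lit 2) (nat_lit 7) (.e false (nat_lit 3) (nat_lit 163) (nat_lit 2) (nat_lit 7) (.e false (nat_lit 2) (nat_lit 165) (nat_lit 2) (nat_lit 7) (.e false (nat_lit 3) (nat_lit 75) (nat_lit 7) (nat_lit 4) (.e false (nat_lit 3) (nat_lit 31) (nat_lit 20) (nat_lit 0) (.e true (nat_lit 2) (nat_lit 167) (nat_lit 2) (nat_lit 7) (.e true (nat_lit 2) (nat_lit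 185) (nat_lit 1) (nat_lit 8) (.e true (nat_lit 1) (nat_lit 186) (nat_lit 1) (nat_lit 8) (.e false (nat_lit 1) (nat_lit 187) (nat_lit 1) (nat_lit 8) (.e false (nat_lit 2) (nat_lit 188) (nat_lit 1) (nat_lit 8) (.e false (nat_lit 1) (nat_lit 192) (nat_lit 1) (nat_lit 8) (.e true (nat_lit 2) (nat_lit 94) (nat_lit 6) (nat_lit 5) (.e true (nat_lit 2) (nat_lit 48) (nat_lit 10) (nat_lit 3) (.u (nat_lit 2) (.p (nat_lit 0) (nat_lit 1) (.p (nat_lit 1) (nat_lit 1) (.n (nat_lit 2) (nat_lit 1) (.n (nat_lit 3) (nat_lit 1) (.p (nat_lit 4) (nat_lit 1) (.p (nat_lit 5) (nat_lit 1) (.p (nat_lit 6) (nat_lit 1) (.n (nat_lit 7) (nat_lit 1) (.n (nat_lit 14) (nat_lit 1) (.p (nat_lit 15) (nat_lit 1) (.n (nat_lit 34) (nat_lit 1) (.p (nat_lit 36) (nat_lit 1) (.p (nat_lit 48) (nat_lit 3) (.p (nat_lit 49) (nat_lit 2) (.p (nat_lit 50) (nat_lit 2) (.n (nat_lit 51) (nat_lit 5) (.n (nat_lit 52) (nat_lit 3) (.p (nat_lit 53) (nat_lit 4) (.n (nat_lit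 54) (nat_lit 2) (.p (nat_lit 55) (nat_lit 2) (.n (nat_lit 56) (nat_lit 1) (.p (nat_lit 57) (nat_lit 1) (.p (nat_lit 59) (nat_lit 2) (.p (nat_lit 60) (nat_lit 1) (.n (nat_lit 61) (nat_lit 1) (.n (nat_lit 66) (nat_lit 1) (.p (nat_lit 67) (nat_lit 1) .z))))))))))))))))))))))))))) .nil)))))))))))))))))))))))))

noncomputable def dC2d_c37 : Cm := .mk (nat_lit 813) (nat_lit 37) (nat_lit 324) (nat_lit 11) (.c (nat_lit 39) (nat_lit 3) (nat_lit 20) (nat_lit 1) (nat_lit 11) (.c (nat_lit 45) (nat_lit 3) (nat_lit 18) (nat_lit 2) (nat_lit 14) (.c (nat_lit 48) (nat_lit 1) (nat_lit 14) (nat_lit 2) (nat_lit 20) (.c (nat_lit 91) (nat_lit 6) (nat_lit 7) (nat_lit 1) (nat_lit 22) (.c (nat_lit 101) (nat_lit 4) (nat_lit 6) (nat_lit 1) (nat_lit 28) (.c (nat_lit 105) (nat_lit 1) (nat_lit 4) (nat_lit 1) (nat_lit 32) (.c (nat_lit 185) (nat_lit 10) (nat_lit 2) (nat_lit 1) (nat_lit 33) (.c (nat_lit 200) (nat_lit 5) (nat_lit 1) (nat_lit 1)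 (nat_lit 43) .nil))))))))

noncomputable def dC2d_i93 : IL := (.e false (nat_lit 3) (nat_lit 270) (nat_lit 1) (nat_lit 17) (.e false (nat_lit 3) (nat_lit 272) (nat_lit 1) (nat_lit 17) (.e true (nat_lit 2) (nat_lit 285) (nat_lit 1) (nat_lit 17) (.e true (nat_lit 1) (nat_lit 271) (nat_lit 1) (nat_lit 17) (.e true (nat_lit 1) (nat_lit 273) (nat_lit 1) (nat_lit 17) (.e false (nat_lit 1) (nat_lit 276) (nat_lit 1) (nat_lit 17) (.e true (nat_lit 2) (nat_lit 277) (nat_lit 1) (nat_lit 17) (.e false (nat_lit 2) (nat_lit 257) (nat_lit 1) (nat_lit 17) (.e false (nat_lit 2) (nat_lit 265) (nat_lit 1) (nat_lit 17) (.e false (nat_lit 1) (nat_lit 275) (nat_lit 1) (nat_lit 17) (.e false (nat_lit 2) (nat_lit 254) (nat_lit 1) (nat_lit 17) (.e false (nat_lit 1) (nat_lit 283) (nat_lit 1) (nat_lit 17) (.e true (nat_lit 1) (nat_lit 103) (nat_lit 8) (nat_lit 10) (.e false (nat_lit 3) (nat_lit 289) (nat_lit 0) (nat_lit 18) (.e true (nat_lit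 2) (nat_lit 290) (nat_lit 0) (nat_lit 18) (.e true (nat_lit 1) (nat_lit 291) (nat_lit 0) (nat_lit 18) (.e true (nat_lit 1) (nat_lit 292) (nat_lit 0) (nat_lit 18) (.e true (nat_lit 2) (nat_lit 293) (nat_lit 0) (nat_lit 18) (.e false (nat_lit 1) (nat_lit 294) (nat_lit 0) (nat_lit 18) (.e true (nat_lit 2) (nat_lit 295) (nat_lit 0) (nat_lit 18) (.e true (nat_lit 2) (nat_lit 296) (nat_lit 0) (nat_lit 18) (.e false (nat_lit 2) (nat_lit 303) (nat_lit 0) (nat_lit 18) (.e true (nat_lit 1) (nat_lit 304) (nat_lit 0) (nat_lit 18) (.e true (nat_lit 1) (nat_lit 284) (nat_lit 1) (nat_lit 17) (.u (nat_lit 2) (.p (nat_lit 0) (nat_lit 1) (.n (nat_lit 2) (nat_lit 1) (.p (nat_lit 3) (nat_lit 1) (.n (nat_lit 4) (nat_lit 1) (.n (nat_lit 5) (nat_lit 1) (.n (nat_lit 6) (nat_lit 2) (.p (nat_lit 7) (nat_lit 1) (.n (nat_lit 9) (nat_lit 1) (.n (nat_lit 11) (nat_lit 1) (.p (nat_lit 15) (nat_lit 1) (.n (nat_lit 20) (nat_lit 1) (.n (nat_lit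 23) (nat_lit 1) (.p (nat_lit 24) (nat_lit 1) (.n (nat_lit 25) (nat_lit 1) (.n (nat_lit 28) (nat_lit 1) (.n (nat_lit 29) (nat_lit 1) (.p (nat_lit 32) (nat_lit 1) (.n (nat_lit 33) (nat_lit 1) (.p (nat_lit 34) (nat_lit 2) (.n (nat_lit 35) (nat_lit 2) (.p (nat_lit 37) (nat_lit 1) (.p (nat_lit 38) (nat_lit 1) (.p (nat_lit 349) (nat_lit 1) (.n (nat_lit 351) (nat_lit 1) (.n (nat_lit 352) (nat_lit 1) (.n (nat_lit 353) (nat_lit 1) (.p (nat_lit 354) (nat_lit 1) (.p (nat_lit 355) (nat_lit 2) (.p (nat_lit 358) (nat_lit 1) (.n (nat_lit 360) (nat_lit 1) (.p (nat_lit 361) (nat_lit 2) (.n (nat_lit 362) (nat_lit 1) (.n (nat_lit 364) (nat_lit 2) (.p (nat_lit 366) (nat_lit 1) (.n (nat_lit 367) (nat_lit 3) (.p (nat_lit 368) (nat_lit 2) (.n (nat_lit 369) (nat_lit 1) (.p (nat_lit 370) (nat_lit 1) (.p (nat_lit 372) (nat_lit 1) (.n (nat_lit 373) (nat_lit 2) (.n (nat_lit 374) (nat_lit 1) (.n (nat_lit 375) (nat_lit 1) (.p (nat_lit 377)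 (nat_lit 1) (.n (nat_lit 380) (nat_lit 1) (.p (nat_lit 382) (nat_lit 2) (.n (nat_lit 383) (nat_lit 1) .z)))))))))))))))))))))))))))))))))))))))))))))) .nil)))))))))))))))))))))))))

noncomputable def dC2d_i94 : IL := (.e true (nat_lit 2) (nat_lit 267) (nat_lit 2) (nat_lit 14) (.e true (nat_lit 3) (nat_lit 269) (nat_lit 2) (nat_lit 14) (.e false (nat_lit 1) (nat_lit 270) (nat_lit 2) (nat_lit 14) (.e false (nat_lit 2) (nat_lit 271) (nat_lit 2) (nat_lit 14) (.e false (nat_lit 3) (nat_lit 272) (nat_lit 2) (nat_lit 14) (.e false (nat_lit 3) (nat_lit 273) (nat_lit 2) (nat_lit 14) (.e false (nat_lit 2) (nat_lit 274) (nat_lit 2) (nat_lit 14) (.e false (nat_lit 3) (nat_lit 275) (nat_lit 2) (nat_lit 14) (.e true (nat_lit 2) (nat_lit 276) (nat_lit 2) (nat_lit 14) (.e false (nat_lit 3) (nat_lit 277) (nat_lit 2) (nat_lit 14) (.e true (nat_lit 2) (nat_lit 283) (nat_lit 2) (nat_lit 14) (.e false (nat_lit 3) (nat_lit 285) (nat_lit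 2) (nat_lit 14) (.e false (nat_lit 2) (nat_lit 305) (nat_lit 1) (nat_lit 15) (.e true (nat_lit 2) (nat_lit 306) (nat_lit 1) (nat_lit 15) (.e true (nat_lit 1) (nat_lit 307) (nat_lit 1) (nat_lit 15) (.e false (nat_lit 1) (nat_lit 308) (nat_lit 1) (nat_lit 15) (.e true (nat_lit 3) (nat_lit 309) (nat_lit 1) (nat_lit 15) (.e false (nat_lit 3) (nat_lit 310) (nat_lit 1) (nat_lit 15) (.e true (nat_lit 1) (nat_lit 311) (nat_lit 1) (nat_lit 15) (.e true (nat_lit 1) (nat_lit 312) (nat_lit 1) (nat_lit 15) (.e false (nat_lit 1) (nat_lit 313) (nat_lit 1) (nat_lit 15) (.e false (nat_lit 1) (nat_lit 314) (nat_lit 1) (nat_lit 15) (.e false (nat_lit 2) (nat_lit 315) (nat_lit 1) (nat_lit 15) (.e true (nat_lit 1) (nat_lit 318) (nat_lit 1) (nat_lit 15) (.u (nat_lit 2) (.n (nat_lit 0) (nat_lit 3) (.p (nat_lit 1) (nat_lit 4) (.n (nat_lit 2) (nat_lit 1) (.n (nat_lit 3) (nat_lit 2) (.n (nat_lit 5) (nat_lit 5) (.p (nat_lit 7) (nat_lit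 2) (.p (nat_lit 8) (nat_lit 2) (.n (nat_lit 9) (nat_lit 2) (.p (nat_lit 10) (nat_lit 2) (.p (nat_lit 11) (nat_lit 1) (.p (nat_lit 12) (nat_lit 3) (.p (nat_lit 13) (nat_lit 5) (.p (nat_lit 14) (nat_lit 2) (.n (nat_lit 15) (nat_lit 2) (.n (nat_lit 16) (nat_lit 2) (.p (nat_lit 17) (nat_lit 3) (.n (nat_lit 19) (nat_lit 2) (.n (nat_lit 21) (nat_lit 3) (.p (nat_lit 23) (nat_lit 1) (.p (nat_lit 25) (nat_lit 2) (.n (nat_lit 29) (nat_lit 1) (.n (nat_lit 30) (nat_lit 2) (.p (nat_lit 34) (nat_lit 2) (.p (nat_lit 35) (nat_lit 1) (.p (nat_lit 38) (nat_lit 3) .z))))))))))))))))))))))))) .nil)))))))))))))))))))))))))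

noncomputable def dC2d_i95 : IL := (.e true (nat_lit 3) (nat_lit 266) (nat_lit 1) (nat_lit 17) (.e true (nat_lit 1) (nat_lit 272) (nat_lit 1) (nat_lit 17) (.e false (nat_lit 1) (nat_lit 274) (nat_lit 1) (nat_lit 17) (.e true (nat_lit 3) (nat_lit 283) (nat_lit 1) (nat_lit 17) (.e true (nat_lit 3) (nat_lit 285) (nat_lit 1) (nat_lit 17) (.e true (nat_lit 2) (nat_lit 254) (nat_lit 1) (nat_lit 17) (.e false (nat_lit 1) (nat_lit 264) (nat_lit 1) (nat_lit 17) (.e true (nat_lit 1) (nat_lit 48) (nat_lit 21) (nat_lit 3) (.e true (nat_lit 2) (nat_lit 186) (nat_lit 3) (nat_lit 15) (.e false (nat_lit 2) (nat_lit 187) (nat_lit 3) (nat_lit 15) (.e true (nat_lit 2) (nat_lit 256) (nat_lit 1) (nat_lit 17) (.e true (nat_lit 1) (nat_lit 258) (nat_lit 1) (nat_lit 17) (.e true (nat_lit 2) (nat_lit 259) (nat_lit 1) (nat_lit 17) (.e false (nat_lit 2) (nat_lit 260) (nat_lit 1) (nat_lit 17) (.e true (nat_lit 1) (nat_lit 261) (nat_lit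 1) (nat_lit 17) (.e true (nat_lit 2) (nat_lit 262) (nat_lit 1) (nat_lit 17) (.e true (nat_lit 3) (nat_lit 265) (nat_lit 1) (nat_lit 17) (.e true (nat_lit 2) (nat_lit 267) (nat_lit 1) (nat_lit 17) (.e false (nat_lit 1) (nat_lit 270) (nat_lit 1) (nat_lit 17) (.e false (nat_lit 2) (nat_lit 271) (nat_lit 1) (nat_lit 17) (.e false (nat_lit 3) (nat_lit 273) (nat_lit 1) (nat_lit 17) (.e false (nat_lit 3) (nat_lit 275) (nat_lit 1) (nat_lit 17) (.e true (nat_lit 2) (nat_lit 276) (nat_lit 1) (nat_lit 17) (.e false (nat_lit 2) (nat_lit 277) (nat_lit 1) (nat_lit 17) (.u (nat_lit 2) (.p (nat_lit 0) (nat_lit 2) (.p (nat_lit 1) (nat_lit 1) (.n (nat_lit 2) (nat_lit 1) (.n (nat_lit 3) (nat_lit 1) (.p (nat_lit 4) (nat_lit 1) (.n (nat_lit 5) (nat_lit 1) (.p (nat_lit 7) (nat_lit 2) (.n (nat_lit 8) (nat_lit 1) (.p (nat_lit 9) (nat_lit 1) (.p (nat_lit 10) (nat_lit 3) (.n (nat_lit 14) (nat_lit 1) (.p (nat_lit 16) (nat_lit 2) (.p (nat_lit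 17) (nat_lit 2) (.n (nat_lit 18) (nat_lit 1) (.p (nat_lit 19) (nat_lit 3) (.p (nat_lit 20) (nat_lit 2) (.n (nat_lit 21) (nat_lit 2) (.p (nat_lit 22) (nat_lit 2) (.n (nat_lit 24) (nat_lit 1) (.p (nat_lit 25) (nat_lit 2) (.p (nat_lit 26) (nat_lit 3) (.n (nat_lit 27) (nat_lit 4) (.p (nat_lit 28) (nat_lit 1) (.p (nat_lit 29) (nat_lit 1) (.n (nat_lit 31) (nat_lit 1) (.p (nat_lit 32) (nat_lit 1) (.n (nat_lit 33) (nat_lit 2) (.n (nat_lit 34) (nat_lit 1) (.p (nat_lit 35) (nat_lit 1) (.p (nat_lit 36) (nat_lit 1) (.p (nat_lit 37) (nat_lit 1) (.p (nat_lit 38) (nat_lit 2) (.p (nat_lit 39) (nat_lit 1) (.n (nat_lit 44) (nat_lit 1) (.n (nat_lit 45) (nat_lit 1) (.p (nat_lit 47) (nat_lit 1) (.n (nat_lit 349) (nat_lit 1) (.p (nat_lit 351) (nat_lit 1) (.n (nat_lit 352) (nat_lit 1) (.n (nat_lit 366) (nat_lit 1) (.n (nat_lit 374) (nat_lit 1) (.p (nat_lit 382) (nat_lit 1) .z)))))))))))))))))))))))))))))))))))))))))) .nil)))))))))))))))))))))))))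

noncomputable def dC2d_i96 : IL := (.e false (nat_lit 2) (nat_lit 260) (nat_lit 2) (nat_lit 14) (.e false (nat_lit 2) (nat_lit 261) (nat_lit 2) (nat_lit 14) (.e true (nat_lit 1) (nat_lit 262) (nat_lit 2) (nat_lit 14) (.e false (nat_lit 1) (nat_lit 263) (nat_lit 2) (nat_lit 14) (.e false (nat_lit 3) (nat_lit 264) (nat_lit 2) (nat_lit 14) (.e true (nat_lit 1) (nat_lit 265) (nat_lit 2) (nat_lit 14) (.e true (nat_lit 3) (nat_lit 266) (nat_lit 2) (nat_lit 14) (.e true (nat_lit 1) (nat_lit 267) (nat_lit 2) (nat_lit 14) (.e true (nat_lit 2) (nat_lit 270) (nat_lit 2) (nat_lit 14) (.e false (nat_lit 3) (nat_lit 271) (nat_lit 2) (nat_lit 14) (.e true (nat_lit 3) (nat_lit 272) (nat_lit 2) (nat_lit 14) (.e false (nat_lit 3) (nat_lit 273) (nat_lit 2) (nat_lit 14) (.e true (nat_lit 3) (nat_lit 274) (nat_lit 2) (nat_lit 14) (.e false (nat_lit 2) (nat_lit 275) (nat_lit 2) (nat_lit 14) (.e true (nat_lit 3) (nat_lit 276) (nat_lit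 2) (nat_lit 14) (.e false (nat_lit 2) (nat_lit 277) (nat_lit 2) (nat_lit 14) (.e false (nat_lit 2) (nat_lit 279) (nat_lit 2) (nat_lit 14) (.e false (nat_lit 3) (nat_lit 282) (nat_lit 2) (nat_lit 14) (.e true (nat_lit 1) (nat_lit 283) (nat_lit 2) (nat_lit 14) (.e true (nat_lit 1) (nat_lit 284) (nat_lit 2) (nat_lit 14) (.e false (nat_lit 1) (nat_lit 285) (nat_lit 2) (nat_lit 14) (.e false (nat_lit 2) (nat_lit 286) (nat_lit 2) (nat_lit 14) (.e true (nat_lit 2) (nat_lit 288) (nat_lit 2) (nat_lit 14) (.e true (nat_lit 1) (nat_lit 142) (nat_lit 7) (nat_lit 9) (.u (nat_lit 2) (.n (nat_lit 0) (nat_lit 1) (.n (nat_lit 2) (nat_lit 1) (.p (nat_lit 3) (nat_lit 2) (.n (nat_lit 5) (nat_lit 3) (.p (nat_lit 6) (nat_lit 5) (.p (nat_lit 7) (nat_lit 2) (.n (nat_lit 8) (nat_lit 1) (.n (nat_lit 9) (nat_lit 1) (.p (nat_lit 10) (nat_lit 1) (.p (nat_lit 11) (nat_lit 1) (.p (nat_lit 12) (nat_lit 3) (.p (nat_lit 13) (nat_lit 3) (.n (nat_lit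 14) (nat_lit 2) (.n (nat_lit 15) (nat_lit 1) (.n (nat_lit 16) (nat_lit 1) (.n (nat_lit 17) (nat_lit 1) (.n (nat_lit 18) (nat_lit 2) (.p (nat_lit 19) (nat_lit 4) (.p (nat_lit 21) (nat_lit 3) (.n (nat_lit 23) (nat_lit 1) (.p (nat_lit 26) (nat_lit 1) (.n (nat_lit 30) (nat_lit 1) (.n (nat_lit 31) (nat_lit 1) (.p (nat_lit 33) (nat_lit 1) (.n (nat_lit 34) (nat_lit 3) (.p (nat_lit 35) (nat_lit 2) (.p (nat_lit 38) (nat_lit 2) .z))))))))))))))))))))))))))) .nil)))))))))))))))))))))))))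

noncomputable def dC2d_i97 : IL := (.e true (nat_lit 1) (nat_lit 289) (nat_lit 2) (nat_lit 9) (.e false (nat_lit 1) (nat_lit 290) (nat_lit 2) (nat_lit 9) (.e true (nat_lit 2) (nat_lit 291) (nat_lit 2) (nat_lit 9) (.e false (nat_lit 2) (nat_lit 292) (nat_lit 2) (nat_lit 9) (.e true (nat_lit 3) (nat_lit 293) (nat_lit 2) (nat_lit 9) (.e true (nat_lit 2) (nat_lit 296) (nat_lit 2) (nat_lit 9) (.e false (nat_lit 3) (nat_lit 294) (nat_lit 2) (nat_lit 9) (.e true (nat_lit 1) (nat_lit 297) (nat_lit 2) (nat_lit 9) (.e true (nat_lit 2) (nat_lit 204) (nat_lit 4) (nat_lit 8) (.e false (nat_lit 3) (nat_lit 166) (nat_lit 7) (nat_lit 6) (.e false (nat_lit 1) (nat_lit 298) (nat_lit 2) (nat_lit 9) (.e true (nat_lit 2) (nat_lit 299) (nat_lit 2) (nat_lit 9) (.e false (nat_lit 1) (nat_lit 300) (nat_lit 2) (nat_lit 9) (.e true (nat_lit 1) (nat_lit 301) (nat_lit 2) (nat_lit 9) (.e true (nat_lit 3) (nat_lit 96) (nat_lit 19) (nat_lit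 3) (.e true (nat_lit 3) (nat_lit 163) (nat_lit 7) (nat_lit 6) (.e false (nat_lit 3) (nat_lit 79) (nat_lit 20) (nat_lit 2) (.e true (nat_lit 2) (nat_lit 324) (nat_lit 1) (nat_lit 10) (.e false (nat_lit 1) (nat_lit 325) (nat_lit 1) (nat_lit 10) (.e false (nat_lit 2) (nat_lit 329) (nat_lit 1) (nat_lit 10) (.e false (nat_lit 3) (nat_lit 330) (nat_lit 1) (nat_lit 10) (.e true (nat_lit 2) (nat_lit 331) (nat_lit 1) (nat_lit 10) (.e true (nat_lit 1) (nat_lit 190) (nat_lit 6) (nat_lit 7) (.e false (nat_lit 2) (nat_lit 334) (nat_lit 1) (nat_lit 10) (.u (nat_lit 2) (.p (nat_lit 0) (nat_lit 2) (.n (nat_lit 1) (nat_lit 2) (.p (nat_lit 2) (nat_lit 1) (.p (nat_lit 3) (nat_lit 6) (.n (nat_lit 4) (nat_lit 2) (.p (nat_lit 6) (nat_lit 1) (.n (nat_lit 8) (nat_lit 3) (.p (nat_lit 9) (nat_lit 1) (.p (nat_lit 11) (nat_lit 1) (.n (nat_lit 14) (nat_lit 2) (.n (nat_lit 46) (nat_lit 1) (.p (nat_lit 47) (nat_lit 1) (.n (nat_lit 55) (nat_lit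 1) (.p (nat_lit 57) (nat_lit 1) (.n (nat_lit 80) (nat_lit 1) (.p (nat_lit 81) (nat_lit 7) (.n (nat_lit 82) (nat_lit 2) (.n (nat_lit 83) (nat_lit 6) (.p (nat_lit 84) (nat_lit 3) (.p (nat_lit 85) (nat_lit 2) (.p (nat_lit 86) (nat_lit 2) (.n (nat_lit 87) (nat_lit 1) (.p (nat_lit 88) (nat_lit 5) (.n (nat_lit 89) (nat_lit 1) (.n (nat_lit 91) (nat_lit 1) (.p (nat_lit 92) (nat_lit 1) (.n (nat_lit 94) (nat_lit 2) (.n (nat_lit 95) (nat_lit 3) (.p (nat_lit 96) (nat_lit 2) (.n (nat_lit 97) (nat_lit 1) (.n (nat_lit 101) (nat_lit 3) (.n (nat_lit 102) (nat_lit 3) (.n (nat_lit 103) (nat_lit 4) .z))))))))))))))))))))))))))))))))) .nil)))))))))))))))))))))))))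

noncomputable def dC2d_i98 : IL := (.e false (nat_lit 1) (nat_lit 259) (nat_lit 2) (nat_lit 14) (.e true (nat_lit 1) (nat_lit 260) (nat_lit 2) (nat_lit 14) (.e false (nat_lit 1) (nat_lit 261) (nat_lit 2) (nat_lit 14) (.e true (nat_lit 3) (nat_lit 262) (nat_lit 2) (nat_lit 14) (.e false (nat_lit 1) (nat_lit 263) (nat_lit 2) (nat_lit 14) (.e false (nat_lit 3) (nat_lit 264) (nat_lit 2) (nat_lit 14) (.e false (nat_lit 3) (nat_lit 265) (nat_lit 2) (nat_lit 14) (.e true (nat_lit 2) (nat_lit 266) (nat_lit 2) (nat_lit 14) (.e false (nat_lit 2) (nat_lit 267) (nat_lit 2) (nat_lit 14) (.e false (nat_lit 2) (nat_lit 269) (nat_lit 2) (nat_lit 14) (.e false (nat_lit 1) (nat_lit 271) (nat_lit 2) (nat_lit 14) (.e true (nat_lit 1) (nat_lit 272) (nat_lit 2) (nat_lit 14) (.e true (nat_lit 1) (nat_lit 274) (nat_lit 2) (nat_lit 14) (.e true (nat_lit 2) (nat_lit 276) (nat_lit 2) (nat_lit 14) (.e false (nat_lit 1) (nat_lit 277) (nat_lit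 2) (nat_lit 14) (.e false (nat_lit 2) (nat_lit 279) (nat_lit 2) (nat_lit 14) (.e false (nat_lit 3) (nat_lit 282) (nat_lit 2) (nat_lit 14) (.e false (nat_lit 2) (nat_lit 283) (nat_lit 2) (nat_lit 14) (.e false (nat_lit 1) (nat_lit 284) (nat_lit 2) (nat_lit 14) (.e true (nat_lit 2) (nat_lit 285) (nat_lit 2) (nat_lit 14) (.e false (nat_lit 2) (nat_lit 286) (nat_lit 2) (nat_lit 14) (.e true (nat_lit 2) (nat_lit 288) (nat_lit 2) (nat_lit 14) (.e true (nat_lit 1) (nat_lit 258) (nat_lit 2) (nat_lit 14) (.e false (nat_lit 1) (nat_lit 273) (nat_lit 2) (nat_lit 14) (.u (nat_lit 2) (.p (nat_lit 0) (nat_lit 1) (.n (nat_lit 2) (nat_lit 1) (.n (nat_lit 3) (nat_lit 1) (.p (nat_lit 4) (nat_lit 3) (.n (nat_lit 5) (nat_lit 1) (.p (nat_lit 6) (nat_lit 4) (.p (nat_lit 7) (nat_lit 2) (.p (nat_lit 9) (nat_lit 4) (.n (nat_lit 10) (nat_lit 2) (.n (nat_lit 11) (nat_lit 1) (.p (nat_lit 12) (nat_lit 2) (.p (nat_lit 13) (nat_lit 2) (.n (nat_lit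 15) (nat_lit 4) (.n (nat_lit 16) (nat_lit 4) (.p (nat_lit 17) (nat_lit 4) (.p (nat_lit 18) (nat_lit 2) (.p (nat_lit 19) (nat_lit 5) (.p (nat_lit 21) (nat_lit 1) (.p (nat_lit 22) (nat_lit 2) (.p (nat_lit 23) (nat_lit 1) (.p (nat_lit 24) (nat_lit 1) (.p (nat_lit 33) (nat_lit 2) (.n (nat_lit 34) (nat_lit 2) (.p (nat_lit 35) (nat_lit 1) (.p (nat_lit 38) (nat_lit 2) (.n (nat_lit 207) (nat_lit 1) (.n (nat_lit 209) (nat_lit 1) (.n (nat_lit 211) (nat_lit 1) (.p (nat_lit 212) (nat_lit 1) (.p (nat_lit 228) (nat_lit 1) .z)))))))))))))))))))))))))))))) .nil)))))))))))))))))))))))))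

noncomputable def dC2d_i99 : IL := (.e false (nat_lit 1) (nat_lit 318) (nat_lit 1) (nat_lit 15) (.e true (nat_lit 1) (nat_lit 323) (nat_lit 1) (nat_lit 15) (.e true (nat_lit 3) (nat_lit 252) (nat_lit 2) (nat_lit 14) (.e true (nat_lit 1) (nat_lit 253) (nat_lit 2) (nat_lit 14) (.e true (nat_lit 2) (nat_lit 254) (nat_lit 2) (nat_lit 14) (.e false (nat_lit 3) (nat_lit 256) (nat_lit 2) (nat_lit 14) (.e false (nat_lit 2) (nat_lit 257) (nat_lit 2) (nat_lit 14) (.e false (nat_lit 2) (nat_lit 259) (nat_lit 2) (nat_lit 14) (.e true (nat_lit 2) (nat_lit 260) (nat_lit 2) (nat_lit 14) (.e true (nat_lit 3) (nat_lit 262) (nat_lit 2) (nat_lit 14) (.e false (nat_lit 3) (nat_lit 267) (nat_lit 2) (nat_lit 14) (.e true (nat_lit 2) (nat_lit 269) (nat_lit 2) (nat_lit 14) (.e false (nat_lit 2) (nat_lit 270) (nat_lit 2) (nat_lit 14) (.e false (nat_lit 2) (nat_lit 274) (nat_lit 2) (nat_lit 14) (.e false (nat_lit 1) (nat_lit 286) (nat_lit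 2) (nat_lit 14) (.e true (nat_lit 2) (nat_lit 263) (nat_lit 2) (nat_lit 14) (.e false (nat_lit 2) (nat_lit 271) (nat_lit 2) (nat_lit 14) (.e false (nat_lit 2) (nat_lit 273) (nat_lit 2) (nat_lit 14) (.e true (nat_lit 2) (nat_lit 276) (nat_lit 2) (nat_lit 14) (.e true (nat_lit 2) (nat_lit 277) (nat_lit 2) (nat_lit 14) (.e true (nat_lit 1) (nat_lit 261) (nat_lit 2) (nat_lit 14) (.e true (nat_lit 1) (nat_lit 265) (nat_lit 2) (nat_lit 14) (.e true (nat_lit 1) (nat_lit 283) (nat_lit 2) (nat_lit 14) (.e false (nat_lit 2) (nat_lit 272) (nat_lit 2) (nat_lit 14) (.u (nat_lit 2) (.p (nat_lit 0) (nat_lit 2) (.n (nat_lit 1) (nat_lit 2) (.n (nat_lit 2) (nat_lit 2) (.p (nat_lit 3) (nat_lit 4) (.p (nat_lit 5) (nat_lit 1) (.n (nat_lit 6) (nat_lit 3) (.p (nat_lit 7) (nat_lit 2) (.p (nat_lit 8) (nat_lit 1) (.p (nat_lit 9) (nat_lit 1) (.p (nat_lit 10) (nat_lit 2) (.p (nat_lit 11) (nat_lit 1) (.p (nat_lit 12) (nat_lit 1) (.p (nat_lit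 13) (nat_lit 1) (.n (nat_lit 14) (nat_lit 1) (.p (nat_lit 15) (nat_lit 3) (.p (nat_lit 16) (nat_lit 3) (.p (nat_lit 17) (nat_lit 1) (.p (nat_lit 18) (nat_lit 2) (.p (nat_lit 19) (nat_lit 1) (.n (nat_lit 21) (nat_lit 3) (.p (nat_lit 23) (nat_lit 3) (.p (nat_lit 24) (nat_lit 5) (.p (nat_lit 26) (nat_lit 1) (.p (nat_lit 27) (nat_lit 1) (.n (nat_lit 29) (nat_lit 1) (.p (nat_lit 31) (nat_lit 1) (.p (nat_lit 34) (nat_lit 1) (.p (nat_lit 35) (nat_lit 2) (.p (nat_lit 38) (nat_lit 3) (.p (nat_lit 204) (nat_lit 1) (.p (nat_lit 205) (nat_lit 1) (.n (nat_lit 206) (nat_lit 1) (.n (nat_lit 207) (nat_lit 3) (.n (nat_lit 208) (nat_lit 2) (.p (nat_lit 209) (nat_lit 2) (.n (nat_lit 211) (nat_lit 1) (.p (nat_lit 212) (nat_lit 1) (.p (nat_lit 213) (nat_lit 1) (.p (nat_lit 214) (nat_lit 1) (.n (nat_lit 215) (nat_lit 1) (.p (nat_lit 217) (nat_lit 1) (.n (nat_lit 218) (nat_lit 1) (.n (nat_lit 219) (nat_lit 1) (.p (nat_lit 221) (nat_lit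 1) (.n (nat_lit 222) (nat_lit 2) (.p (nat_lit 223) (nat_lit 1) (.p (nat_lit 225) (nat_lit 1) (.p (nat_lit 226) (nat_lit 1) (.n (nat_lit 228) (nat_lit 1) (.n (nat_lit 229) (nat_lit 1) (.n (nat_lit 231) (nat_lit 1) (.p (nat_lit 232) (nat_lit 1) (.p (nat_lit 237) (nat_lit 1) (.n (nat_lit 238) (nat_lit 1) (.n (nat_lit 241) (nat_lit 1) (.p (nat_lit 250) (nat_lit 1) .z)))))))))))))))))))))))))))))))))))))))))))))))))))))))) .nil)))))))))))))))))))))))))

noncomputable def dC2d_i100 : IL := (.s false (nat_lit 1) (nat_lit 105) (nat_lit 1) (nat_lit 0) (nat_lit 1) true (nat_lit 12) true (nat_lit 15) false (nat_lit 8) true (nat_lit 15) true (nat_lit 16) (.e false (nat_lit 2) (nat_lit 305) (nat_lit 1) (nat_lit 15) (.e true (nat_lit 3) (nat_lit 306) (nat_lit 1) (nat_lit 15) (.e false (nat_lit 2) (nat_lit 308) (nat_lit 1) (nat_lit 15) (.e true (nat_lit 3) (nat_lit 309) (nat_lit 1) (nat_lit 15) (.e true (nat_lit 3) (nat_lit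 313) (nat_lit 1) (nat_lit 15) (.e false (nat_lit 3) (nat_lit 314) (nat_lit 1) (nat_lit 15) (.e false (nat_lit 1) (nat_lit 315) (nat_lit 1) (nat_lit 15) (.e false (nat_lit 2) (nat_lit 318) (nat_lit 1) (nat_lit 15) (.e true (nat_lit 2) (nat_lit 321) (nat_lit 1) (nat_lit 15) (.e false (nat_lit 2) (nat_lit 322) (nat_lit 1) (nat_lit 15) (.e false (nat_lit 1) (nat_lit 323) (nat_lit 1) (nat_lit 15) (.e true (nat_lit 1) (nat_lit 105) (nat_lit 8) (nat_lit 8) (.e true (nat_lit 3) (nat_lit 310) (nat_lit 1) (nat_lit 15) (.e true (nat_lit 1) (nat_lit 311) (nat_lit 1) (nat_lit 15) (.e true (nat_lit 1) (nat_lit 312) (nat_lit 1) (nat_lit 15) (.e true (nat_lit 3) (nat_lit 325) (nat_lit 0) (nat_lit 16) (.e false (nat_lit 2) (nat_lit 326) (nat_lit 0) (nat_lit 16) (.e false (nat_lit 3) (nat_lit 327) (nat_lit 0) (nat_lit 16) (.e true (nat_lit 3) (nat_lit 328) (nat_lit 0) (nat_lit 16) (.e true (nat_lit 1) (nat_lit 329) (nat_lit 0)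 (nat_lit 16) (.e true (nat_lit 2) (nat_lit 330) (nat_lit 0) (nat_lit 16) (.e false (nat_lit 3) (nat_lit 331) (nat_lit 0) (nat_lit 16) (.e false (nat_lit 1) (nat_lit 333) (nat_lit 0) (nat_lit 16) (.u (nat_lit 2) (.n (nat_lit 0) (nat_lit 1) (.p (nat_lit 1) (nat_lit 1) (.n (nat_lit 2) (nat_lit 1) (.p (nat_lit 3) (nat_lit 1) (.n (nat_lit 4) (nat_lit 1) (.p (nat_lit 5) (nat_lit 1) (.p (nat_lit 6) (nat_lit 1) (.p (nat_lit 7) (nat_lit 1) (.n (nat_lit 8) (nat_lit 1) (.p (nat_lit 9) (nat_lit 1) (.p (nat_lit 10) (nat_lit 1) (.n (nat_lit 12) (nat_lit 2) (.n (nat_lit 13) (nat_lit 1) (.p (nat_lit 15) (nat_lit 1) (.p (nat_lit 16) (nat_lit 1) (.n (nat_lit 17) (nat_lit 2) (.p (nat_lit 18) (nat_lit 1) (.p (nat_lit 19) (nat_lit 1) (.n (nat_lit 241) (nat_lit 1) (.p (nat_lit 245) (nat_lit 1) (.p (nat_lit 249) (nat_lit 1) (.n (nat_lit 250) (nat_lit 1) (.n (nat_lit 251) (nat_lit 1) .z))))))))))))))))))))))) .nil)))))))))))))))))))))))))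

noncomputable def dC2d_i101 : IL := (.e false (nat_lit 1) (nat_lit 253) (nat_lit 2) (nat_lit 14) (.e true (nat_lit 3) (nat_lit 254) (nat_lit 2) (nat_lit 14) (.e true (nat_lit 2) (nat_lit 255) (nat_lit 2) (nat_lit 14) (.e false (nat_lit 1) (nat_lit 258) (nat_lit 2) (nat_lit 14) (.e false (nat_lit 2) (nat_lit 259) (nat_lit 2) (nat_lit 14) (.e true (nat_lit 2) (nat_lit 260) (nat_lit 2) (nat_lit 14) (.e false (nat_lit 1) (nat_lit 262) (nat_lit 2) (nat_lit 14) (.e false (nat_lit 1) (nat_lit 263) (nat_lit 2) (nat_lit 14) (.e true (nat_lit 1) (nat_lit 264) (nat_lit 2) (nat_lit 14) (.e true (nat_lit 3) (nat_lit 266) (nat_lit 2) (nat_lit 14) (.e true (nat_lit 2) (nat_lit 267) (nat_lit 2) (nat_lit 14) (.e true (nat_lit 3) (nat_lit 269) (nat_lit 2) (nat_lit 14) (.e false (nat_lit 1) (nat_lit 270) (nat_lit 2) (nat_lit 14) (.e false (nat_lit 1) (nat_lit 271) (nat_lit 2) (nat_lit 14) (.e false (nat_lit 2) (nat_lit 272) (nat_lit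 2) (nat_lit 14) (.e false (nat_lit 1) (nat_lit 273) (nat_lit 2) (nat_lit 14) (.e false (nat_lit 2) (nat_lit 274) (nat_lit 2) (nat_lit 14) (.e false (nat_lit 1) (nat_lit 275) (nat_lit 2) (nat_lit 14) (.e true (nat_lit 1) (nat_lit 276) (nat_lit 2) (nat_lit 14) (.e true (nat_lit 1) (nat_lit 277) (nat_lit 2) (nat_lit 14) (.e true (nat_lit 1) (nat_lit 283) (nat_lit 2) (nat_lit 14) (.e true (nat_lit 1) (nat_lit 284) (nat_lit 2) (nat_lit 14) (.e false (nat_lit 1) (nat_lit 285) (nat_lit 2) (nat_lit 14) (.e true (nat_lit 1) (nat_lit 265) (nat_lit 2) (nat_lit 14) (.u (nat_lit 2) (.n (nat_lit 1) (nat_lit 1) (.n (nat_lit 2) (nat_lit 2) (.n (nat_lit 4) (nat_lit 3) (.p (nat_lit 5) (nat_lit 2) (.n (nat_lit 6) (nat_lit 3) (.n (nat_lit 7) (nat_lit 1) (.p (nat_lit 8) (nat_lit 1) (.n (nat_lit 9) (nat_lit 1) (.p (nat_lit 10) (nat_lit 2) (.p (nat_lit 11) (nat_lit 3) (.n (nat_lit 14) (nat_lit 1) (.p (nat_lit 15) (nat_lit 1) (.p (nat_lit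 16) (nat_lit 1) (.p (nat_lit 17) (nat_lit 1) (.n (nat_lit 19) (nat_lit 1) (.n (nat_lit 21) (nat_lit 2) (.p (nat_lit 23) (nat_lit 1) (.p (nat_lit 24) (nat_lit 2) (.n (nat_lit 30) (nat_lit 1) (.n (nat_lit 35) (nat_lit 1) (.p (nat_lit 38) (nat_lit 1) (.p (nat_lit 206) (nat_lit 1) (.p (nat_lit 207) (nat_lit 1) (.n (nat_lit 214) (nat_lit 1) (.p (nat_lit 216) (nat_lit 1) (.p (nat_lit 219) (nat_lit 1) (.p (nat_lit 221) (nat_lit 1) (.p (nat_lit 235) (nat_lit 1) (.n (nat_lit 237) (nat_lit 1) .z))))))))))))))))))))))))))))) .nil)))))))))))))))))))))))))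

noncomputable def dC2d_i102 : IL := (.e false (nat_lit 1) (nat_lit 132) (nat_lit 7) (nat_lit 9) (.e true (nat_lit 2) (nat_lit 133) (nat_lit 7) (nat_lit 9) (.e false (nat_lit 2) (nat_lit 134) (nat_lit 7) (nat_lit 9) (.e false (nat_lit 1) (nat_lit 135) (nat_lit 7) (nat_lit 9) (.e false (nat_lit 2) (nat_lit 136) (nat_lit 7) (nat_lit 9) (.e false (nat_lit 2) (nat_lit 137) (nat_lit 7) (nat_lit 9) (.e true (nat_lit 1) (nat_lit 138) (nat_lit 7) (nat_lit 9) (.e true (nat_lit 2) (nat_lit 139) (nat_lit 7) (nat_lit 9) (.e false (nat_lit 2) (nat_lit 140) (nat_lit 7) (nat_lit 9) (.e false (nat_lit 2) (nat_lit 141) (nat_lit 7) (nat_lit 9) (.e false (nat_lit 1) (nat_lit 142) (nat_lit 7) (nat_lit 9) (.e true (nat_lit 3) (nat_lit 143) (nat_lit 7) (nat_lit 9) (.e false (nat_lit 1) (nat_lit 144) (nat_lit 7) (nat_lit 9) (.e true (nat_lit 2) (nat_lit 145) (nat_lit 7) (nat_lit 9) (.e true (nat_lit 2) (nat_lit 147) (nat_lit 7) (nat_lit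 9) (.e false (nat_lit 1) (nat_lit 148) (nat_lit 7) (nat_lit 9) (.e true (nat_lit 3) (nat_lit 150) (nat_lit 7) (nat_lit 9) (.e false (nat_lit 3) (nat_lit 152) (nat_lit 7) (nat_lit 9) (.e false (nat_lit 3) (nat_lit 153) (nat_lit 7) (nat_lit 9) (.e false (nat_lit 2) (nat_lit 154) (nat_lit 7) (nat_lit 9) (.e true (nat_lit 2) (nat_lit 155) (nat_lit 7) (nat_lit 9) (.e true (nat_lit 1) (nat_lit 156) (nat_lit 7) (nat_lit 9) (.e false (nat_lit 1) (nat_lit 157) (nat_lit 7) (nat_lit 9) (.u (nat_lit 2) (.n (nat_lit 0) (nat_lit 1) (.n (nat_lit 2) (nat_lit 1) (.n (nat_lit 3) (nat_lit 1) (.n (nat_lit 4) (nat_lit 4) (.p (nat_lit 5) (nat_lit 3) (.p (nat_lit 6) (nat_lit 2) (.p (nat_lit 7) (nat_lit 1) (.n (nat_lit 8) (nat_lit 3) (.p (nat_lit 9) (nat_lit 1) (.n (nat_lit 10) (nat_lit 2) (.n (nat_lit 11) (nat_lit 2) (.n (nat_lit 12) (nat_lit 4) (.p (nat_lit 13) (nat_lit 1) (.n (nat_lit 15) (nat_lit 1) (.n (nat_lit 16) (nat_lit 4) (.n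 (nat_lit 17) (nat_lit 1) (.p (nat_lit 18) (nat_lit 5) (.p (nat_lit 19) (nat_lit 1) (.p (nat_lit 20) (nat_lit 1) (.p (nat_lit 21) (nat_lit 5) (.p (nat_lit 22) (nat_lit 1) (.p (nat_lit 23) (nat_lit 3) (.p (nat_lit 24) (nat_lit 3) (.n (nat_lit 25) (nat_lit 2) (.p (nat_lit 26) (nat_lit 1) (.p (nat_lit 29) (nat_lit 2) (.p (nat_lit 31) (nat_lit 2) (.n (nat_lit 32) (nat_lit 1) (.p (nat_lit 33) (nat_lit 1) (.n (nat_lit 34) (nat_lit 1) (.p (nat_lit 35) (nat_lit 7) (.p (nat_lit 38) (nat_lit 2) (.n (nat_lit 142) (nat_lit 1) (.n (nat_lit 143) (nat_lit 1) (.p (nat_lit 144) (nat_lit 1) (.n (nat_lit 145) (nat_lit 1) (.p (nat_lit 146) (nat_lit 1) (.p (nat_lit 147) (nat_lit 1) (.p (nat_lit 148) (nat_lit 1) (.n (nat_lit 149) (nat_lit 1) (.p (nat_lit 150) (nat_lit 1) (.p (nat_lit 151) (nat_lit 1) (.n (nat_lit 152) (nat_lit 1) (.n (nat_lit 154) (nat_lit 1) (.n (nat_lit 155) (nat_lit 1) (.n (nat_lit 157) (nat_lit 1) (.n (nat_lit 158)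 (nat_lit 1) (.p (nat_lit 164) (nat_lit 1) (.n (nat_lit 165) (nat_lit 1) (.p (nat_lit 166) (nat_lit 1) (.n (nat_lit 167) (nat_lit 1) (.p (nat_lit 200) (nat_lit 1) (.n (nat_lit 201) (nat_lit 1) (.p (nat_lit 241) (nat_lit 1) (.n (nat_lit 243) (nat_lit 2) (.p (nat_lit 244) (nat_lit 1) (.n (nat_lit 245) (nat_lit 2) (.p (nat_lit 246) (nat_lit 2) (.p (nat_lit 247) (nat_lit 1) (.p (nat_lit 249) (nat_lit 2) .z)))))))))))))))))))))))))))))))))))))))))))))))))))))))))))) (.u (nat_lit 2) (.n (nat_lit 250) (nat_lit 1) (.n (nat_lit 262) (nat_lit 1) (.p (nat_lit 263) (nat_lit 1) (.n (nat_lit 265) (nat_lit 1) (.p (nat_lit 266) (nat_lit 1) (.n (nat_lit 269) (nat_lit 1) .z)))))) .nil)))))))))))))))))))))))))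

noncomputable def dC2d_i103 : IL := (.e false (nat_lit 1) (nat_lit 202) (nat_lit 3) (nat_lit 13) (.e false (nat_lit 3) (nat_lit 204) (nat_lit 3) (nat_lit 13) (.e false (nat_lit 3) (nat_lit 323) (nat_lit 1) (nat_lit 15) (.e false (nat_lit 2) (nat_lit 305) (nat_lit 1) (nat_lit 15) (.e true (nat_lit 3) (nat_lit 306) (nat_lit 1) (nat_lit 15) (.e true (nat_lit 1) (nat_lit 307) (nat_lit 1) (nat_lit 15) (.e true (nat_lit 1) (nat_lit 308) (nat_lit 1) (nat_lit 15) (.e false (nat_lit 2) (nat_lit 309) (nat_lit 1) (nat_lit 15) (.e false (nat_lit 1) (nat_lit 310) (nat_lit 1) (nat_lit 15) (.e true (nat_lit 2) (nat_lit 313) (nat_lit 1) (nat_lit 15) (.e true (nat_lit 2) (nat_lit 314) (nat_lit 1) (nat_lit 15) (.e false (nat_lit 3) (nat_lit 317) (nat_lit 1) (nat_lit 15) (.e true (nat_lit 3) (nat_lit 312) (nat_lit 1) (nat_lit 15) (.e true (nat_lit 3) (nat_lit 321) (nat_lit 1) (nat_lit 15) (.e true (nat_lit 3) (nat_lit 315) (nat_lit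 1) (nat_lit 15) (.e false (nat_lit 2) (nat_lit 311) (nat_lit 1) (nat_lit 15) (.e false (nat_lit 3) (nat_lit 46) (nat_lit 37) (nat_lit 1) (.e true (nat_lit 3) (nat_lit 324) (nat_lit 0) (nat_lit 16) (.e true (nat_lit 2) (nat_lit 326) (nat_lit 0) (nat_lit 16) (.e false (nat_lit 2) (nat_lit 327) (nat_lit 0) (nat_lit 16) (.e true (nat_lit 2) (nat_lit 329) (nat_lit 0) (nat_lit 16) (.e true (nat_lit 1) (nat_lit 330) (nat_lit 0) (nat_lit 16) (.e false (nat_lit 3) (nat_lit 331) (nat_lit 0) (nat_lit 16) (.e false (nat_lit 1) (nat_lit 333) (nat_lit 0) (nat_lit 16) (.e true (nat_lit 3) (nat_lit 334) (nat_lit 0) (nat_lit 16) dC2d_i102)))))))))))))))))))))))))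

noncomputable def dC2d_i104 : IL := (.e true (nat_lit 2) (nat_lit 269) (nat_lit 2) (nat_lit 14) (.e false (nat_lit 1) (nat_lit 272) (nat_lit 2) (nat_lit 14) (.e false (nat_lit 1) (nat_lit 274) (nat_lit 2) (nat_lit 14) (.e true (nat_lit 1) (nat_lit 283) (nat_lit 2) (nat_lit 14) (.e false (nat_lit 1) (nat_lit 285) (nat_lit 2) (nat_lit 14) (.e false (nat_lit 3) (nat_lit 254) (nat_lit 2) (nat_lit 14) (.e false (nat_lit 1) (nat_lit 264) (nat_lit 2) (nat_lit 14) (.e true (nat_lit 1) (nat_lit 48) (nat_lit 24) (nat_lit 2) (.e false (nat_lit 1) (nat_lit 203) (nat_lit 3) (nat_lit 13) (.e true (nat_lit 1) (nat_lit 204) (nat_lit 3) (nat_lit 13) (.e true (nat_lit 3) (nat_lit 305) (nat_lit 1) (nat_lit 15) (.e true (nat_lit 2) (nat_lit 306) (nat_lit 1) (nat_lit 15) (.e false (nat_lit 2) (nat_lit 307) (nat_lit 1) (nat_lit 15) (.e true (nat_lit 1) (nat_lit 308) (nat_lit 1) (nat_lit 15) (.e false (nat_lit 2) (nat_lit 309) (nat_lit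 1) (nat_lit 15) (.e true (nat_lit 3) (nat_lit 310) (nat_lit 1) (nat_lit 15) (.e true (nat_lit 1) (nat_lit 311) (nat_lit 1) (nat_lit 15) (.e true (nat_lit 1) (nat_lit 312) (nat_lit 1) (nat_lit 15) (.e false (nat_lit 1) (nat_lit 313) (nat_lit 1) (nat_lit 15) (.e true (nat_lit 2) (nat_lit 314) (nat_lit 1) (nat_lit 15) (.e true (nat_lit 3) (nat_lit 315) (nat_lit 1) (nat_lit 15) (.e false (nat_lit 1) (nat_lit 318) (nat_lit 1) (nat_lit 15) (.e true (nat_lit 1) (nat_lit 321) (nat_lit 1) (nat_lit 15) (.e false (nat_lit 1) (nat_lit 322) (nat_lit 1) (nat_lit 15) (.u (nat_lit 2) (.n (nat_lit 0) (nat_lit 1) (.p (nat_lit 1) (nat_lit 1) (.p (nat_lit 2) (nat_lit 1) (.n (nat_lit 3) (nat_lit 1) (.n (nat_lit 4) (nat_lit 1) (.n (nat_lit 5) (nat_lit 1) (.p (nat_lit 6) (nat_lit 1) (.p (nat_lit 7) (nat_lit 1) (.n (nat_lit 9) (nat_lit 1) (.p (nat_lit 10) (nat_lit 1) (.p (nat_lit 13) (nat_lit 2) (.n (nat_lit 14) (nat_lit 1) (.p (nat_lit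 15) (nat_lit 1) (.p (nat_lit 16) (nat_lit 1) (.n (nat_lit 18) (nat_lit 1) (.n (nat_lit 19) (nat_lit 1) (.n (nat_lit 21) (nat_lit 1) (.p (nat_lit 23) (nat_lit 1) (.p (nat_lit 25) (nat_lit 1) (.n (nat_lit 30) (nat_lit 1) (.p (nat_lit 34) (nat_lit 1) (.p (nat_lit 38) (nat_lit 1) (.n (nat_lit 207) (nat_lit 1) (.p (nat_lit 209) (nat_lit 1) (.n (nat_lit 224) (nat_lit 1) .z))))))))))))))))))))))))) .nil)))))))))))))))))))))))))

noncomputable def dC2d_i105 : IL := (.e false (nat_lit 1) (nat_lit 99) (nat_lit 6) (nat_lit 5) (.e true (nat_lit 1) (nat_lit 33) (nat_lit 20) (nat_lit 0) (.e false (nat_lit 1) (nat_lit 34) (nat_lit 20) (nat_lit 0) (.e false (nat_lit 1) (nat_lit 38) (nat_lit 20) (nat_lit 0) (.e false (nat_lit 3) (nat_lit 169) (nat_lit 2) (nat_lit 8) (.e true (nat_lit 2) (nat_lit 172) (nat_lit 2) (nat_lit 8) (.e true (nat_lit 1) (nat_lit 179) (nat_lit 2) (nat_lit 8) (.e false (nat_lit 2) (nat_lit 170) (nat_lit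 2) (nat_lit 8) (.e false (nat_lit 3) (nat_lit 173) (nat_lit 2) (nat_lit 8) (.e true (nat_lit 3) (nat_lit 175) (nat_lit 2) (nat_lit 8) (.e false (nat_lit 3) (nat_lit 178) (nat_lit 2) (nat_lit 8) (.e true (nat_lit 3) (nat_lit 176) (nat_lit 2) (nat_lit 8) (.e true (nat_lit 1) (nat_lit 44) (nat_lit 19) (nat_lit 1) (.e false (nat_lit 1) (nat_lit 81) (nat_lit 7) (nat_lit 4) (.e true (nat_lit 1) (nat_lit 82) (nat_lit 7) (nat_lit 4) (.e true (nat_lit 1) (nat_lit 83) (nat_lit 7) (nat_lit 4) (.e true (nat_lit 1) (nat_lit 85) (nat_lit 7) (nat_lit 4) (.e false (nat_lit 1) (nat_lit 88) (nat_lit 7) (nat_lit 4) (.e false (nat_lit 1) (nat_lit 105) (nat_lit 3) (nat_lit 7) (.e true (nat_lit 1) (nat_lit 197) (nat_lit 1) (nat_lit 9) (.e false (nat_lit 1) (nat_lit 48) (nat_lit 12) (nat_lit 3) (.e true (nat_lit 1) (nat_lit 171) (nat_lit 2) (nat_lit 8) (.e true (nat_lit 1) (nat_lit 181) (nat_lit 2) (nat_lit 8) (.e true (nat_lit 1) (nat_lit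 183) (nat_lit 2) (nat_lit 8) (.u (nat_lit 2) (.p (nat_lit 0) (nat_lit 2) (.p (nat_lit 1) (nat_lit 1) (.n (nat_lit 2) (nat_lit 1) (.n (nat_lit 3) (nat_lit 1) (.n (nat_lit 4) (nat_lit 1) (.p (nat_lit 5) (nat_lit 1) (.n (nat_lit 60) (nat_lit 1) (.p (nat_lit 63) (nat_lit 1) (.n (nat_lit 65) (nat_lit 1) (.p (nat_lit 70) (nat_lit 1) .z)))))))))) .nil)))))))))))))))))))))))))

noncomputable def dC2d_i106 : IL := (.e true (nat_lit 1) (nat_lit 264) (nat_lit 2) (nat_lit 14) (.e true (nat_lit 2) (nat_lit 269) (nat_lit 2) (nat_lit 14) (.e true (nat_lit 3) (nat_lit 277) (nat_lit 2) (nat_lit 14) (.e true (nat_lit 1) (nat_lit 47) (nat_lit 33) (nat_lit 1) (.e true (nat_lit 3) (nat_lit 252) (nat_lit 2) (nat_lit 14) (.e true (nat_lit 1) (nat_lit 255) (nat_lit 2) (nat_lit 14) (.e true (nat_lit 2) (nat_lit 256) (nat_lit 2) (nat_lit 14) (.e true (nat_lit 3) (nat_lit 257) (nat_lit 2) (nat_lit 14) (.e true (nat_lit 2) (nat_lit 259)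 (nat_lit 2) (nat_lit 14) (.e false (nat_lit 2) (nat_lit 260) (nat_lit 2) (nat_lit 14) (.e true (nat_lit 1) (nat_lit 261) (nat_lit 2) (nat_lit 14) (.e true (nat_lit 2) (nat_lit 262) (nat_lit 2) (nat_lit 14) (.e false (nat_lit 1) (nat_lit 265) (nat_lit 2) (nat_lit 14) (.e true (nat_lit 2) (nat_lit 266) (nat_lit 2) (nat_lit 14) (.e true (nat_lit 2) (nat_lit 267) (nat_lit 2) (nat_lit 14) (.e false (nat_lit 1) (nat_lit 270) (nat_lit 2) (nat_lit 14) (.e false (nat_lit 2) (nat_lit 271) (nat_lit 2) (nat_lit 14) (.e false (nat_lit 3) (nat_lit 272) (nat_lit 2) (nat_lit 14) (.e false (nat_lit 3) (nat_lit 273) (nat_lit 2) (nat_lit 14) (.e false (nat_lit 2) (nat_lit 274) (nat_lit 2) (nat_lit 14) (.e false (nat_lit 3) (nat_lit 275) (nat_lit 2) (nat_lit 14) (.e true (nat_lit 2) (nat_lit 276) (nat_lit 2) (nat_lit 14) (.e true (nat_lit 2) (nat_lit 283) (nat_lit 2) (nat_lit 14) (.e false (nat_lit 3) (nat_lit 285) (nat_lit 2) (nat_lit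 14) (.u (nat_lit 2) (.n (nat_lit 0) (nat_lit 2) (.p (nat_lit 1) (nat_lit 1) (.n (nat_lit 2) (nat_lit 1) (.n (nat_lit 5) (nat_lit 4) (.n (nat_lit 6) (nat_lit 2) (.n (nat_lit 9) (nat_lit 1) (.p (nat_lit 10) (nat_lit 3) (.p (nat_lit 11) (nat_lit 1) (.p (nat_lit 12) (nat_lit 1) (.p (nat_lit 13) (nat_lit 2) (.n (nat_lit 14) (nat_lit 1) (.n (nat_lit 15) (nat_lit 1) (.n (nat_lit 16) (nat_lit 1) (.p (nat_lit 17) (nat_lit 1) (.n (nat_lit 19) (nat_lit 2) (.p (nat_lit 23) (nat_lit 3) (.n (nat_lit 24) (nat_lit 3) (.p (nat_lit 27) (nat_lit 2) (.n (nat_lit 29) (nat_lit 1) (.p (nat_lit 34) (nat_lit 2) (.p (nat_lit 35) (nat_lit 1) (.p (nat_lit 38) (nat_lit 1) (.p (nat_lit 229) (nat_lit 1) .z))))))))))))))))))))))) .nil)))))))))))))))))))))))))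

noncomputable def dC2d_i107 : IL := (.e false (nat_lit 1) (nat_lit 235) (nat_lit 2) (nat_lit 16) (.e true (nat_lit 2) (nat_lit 256) (nat_lit 1) (nat_lit 17) (.e true (nat_lit 1) (nat_lit 257) (nat_lit 1) (nat_lit 17) (.e false (nat_lit 3) (nat_lit 259) (nat_lit 1) (nat_lit 17) (.e true (nat_lit 3) (nat_lit 260) (nat_lit 1) (nat_lit 17) (.e true (nat_lit 2) (nat_lit 261) (nat_lit 1) (nat_lit 17) (.e true (nat_lit 1) (nat_lit 275) (nat_lit 1) (nat_lit 17) (.e true (nat_lit 2) (nat_lit 279) (nat_lit 1) (nat_lit 17) (.e true (nat_lit 1) (nat_lit 282) (nat_lit 1) (nat_lit 17) (.e false (nat_lit 1) (nat_lit 289) (nat_lit 0) (nat_lit 18) (.e false (nat_lit 1) (nat_lit 292) (nat_lit 0) (nat_lit 18) (.e false (nat_lit 2) (nat_lit 294) (nat_lit 0) (nat_lit 18) (.e false (nat_lit 2) (nat_lit 295) (nat_lit 0) (nat_lit 18) (.e false (nat_lit 3) (nat_lit 297) (nat_lit 0) (nat_lit 18) (.e true (nat_lit 2) (nat_lit 299) (nat_lit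 0) (nat_lit 18) (.e false (nat_lit 2) (nat_lit 301) (nat_lit 0) (nat_lit 18) (.e false (nat_lit 2) (nat_lit 280) (nat_lit 1) (nat_lit 17) (.e true (nat_lit 3) (nat_lit 296) (nat_lit 0) (nat_lit 18) (.e true (nat_lit 1) (nat_lit 300) (nat_lit 0) (nat_lit 18) (.e false (nat_lit 1) (nat_lit 170) (nat_lit 4) (nat_lit 14) (.u (nat_lit 2) (.p (nat_lit 1) (nat_lit 1) (.n (nat_lit 3) (nat_lit 1) (.n (nat_lit 5) (nat_lit 1) (.n (nat_lit 6) (nat_lit 1) (.n (nat_lit 7) (nat_lit 1) (.n (nat_lit 8) (nat_lit 1) (.n (nat_lit 10) (nat_lit 2) (.p (nat_lit 12) (nat_lit 1) (.n (nat_lit 14) (nat_lit 2) (.p (nat_lit 15) (nat_lit 1) (.n (nat_lit 16) (nat_lit 2) (.n (nat_lit 17) (nat_lit 1) (.n (nat_lit 18) (nat_lit 2) (.p (nat_lit 20) (nat_lit 2) (.p (nat_lit 21) (nat_lit 1) (.n (nat_lit 22) (nat_lit 1) (.n (nat_lit 23) (nat_lit 1) (.n (nat_lit 24) (nat_lit 1) (.n (nat_lit 25) (nat_lit 1) (.n (nat_lit 27) (nat_lit 2) (.n (nat_lit 28)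 (nat_lit 1) (.p (nat_lit 29) (nat_lit 1) (.p (nat_lit 32) (nat_lit 1) (.p (nat_lit 33) (nat_lit 1) (.p (nat_lit 34) (nat_lit 1) (.p (nat_lit 35) (nat_lit 1) (.n (nat_lit 36) (nat_lit 1) (.p (nat_lit 37) (nat_lit 1) (.n (nat_lit 38) (nat_lit 1) (.n (nat_lit 46) (nat_lit 2) (.p (nat_lit 47) (nat_lit 1) (.n (nat_lit 48) (nat_lit 1) (.p (nat_lit 57) (nat_lit 1) (.n (nat_lit 63) (nat_lit 1) (.n (nat_lit 66) (nat_lit 1) (.p (nat_lit 67) (nat_lit 1) (.p (nat_lit 75) (nat_lit 1) (.n (nat_lit 76) (nat_lit 1) (.p (nat_lit 90) (nat_lit 1) (.n (nat_lit 93) (nat_lit 1) (.n (nat_lit 97) (nat_lit 1) (.p (nat_lit 100) (nat_lit 1) (.p (nat_lit 103) (nat_lit 1) (.n (nat_lit 107) (nat_lit 1) (.n (nat_lit 109) (nat_lit 1) (.p (nat_lit 110) (nat_lit 2) (.n (nat_lit 111) (nat_lit 2) (.n (nat_lit 113) (nat_lit 2) (.n (nat_lit 114) (nat_lit 1) (.n (nat_lit 115) (nat_lit 1) (.p (nat_lit 116) (nat_lit 1) (.p (nat_lit 117) (nat_lit 1) (.p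 (nat_lit 119) (nat_lit 1) (.p (nat_lit 120) (nat_lit 1) (.p (nat_lit 121) (nat_lit 1) (.p (nat_lit 123) (nat_lit 1) (.n (nat_lit 124) (nat_lit 1) (.p (nat_lit 128) (nat_lit 1) (.n (nat_lit 132) (nat_lit 1) (.n (nat_lit 133) (nat_lit 1) .z)))))))))))))))))))))))))))))))))))))))))))))))))))))))))))) (.u (nat_lit 2) (.p (nat_lit 136) (nat_lit 1) (.p (nat_lit 137) (nat_lit 1) (.n (nat_lit 138) (nat_lit 2) (.p (nat_lit 139) (nat_lit 1) (.p (nat_lit 140) (nat_lit 1) (.p (nat_lit 141) (nat_lit 1) (.n (nat_lit 147) (nat_lit 1) (.p (nat_lit 155) (nat_lit 1) (.n (nat_lit 157) (nat_lit 1) (.n (nat_lit 158) (nat_lit 1) (.p (nat_lit 159) (nat_lit 1) (.p (nat_lit 160) (nat_lit 2) (.p (nat_lit 173) (nat_lit 1) (.n (nat_lit 174) (nat_lit 1) (.n (nat_lit 175) (nat_lit 1) (.n (nat_lit 177) (nat_lit 1) (.p (nat_lit 180) (nat_lit 1) (.n (nat_lit 184) (nat_lit 1) (.n (nat_lit 186) (nat_lit 1) (.n (nat_lit 187) (nat_lit 1) (.p (nat_lit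 188) (nat_lit 1) (.n (nat_lit 189) (nat_lit 1) (.p (nat_lit 190) (nat_lit 2) (.n (nat_lit 191) (nat_lit 2) (.p (nat_lit 194) (nat_lit 1) (.p (nat_lit 195) (nat_lit 1) (.p (nat_lit 196) (nat_lit 2) (.n (nat_lit 197) (nat_lit 1) (.p (nat_lit 198) (nat_lit 1) (.n (nat_lit 200) (nat_lit 1) (.n (nat_lit 202) (nat_lit 1) (.n (nat_lit 203) (nat_lit 1) (.n (nat_lit 206) (nat_lit 1) (.p (nat_lit 207) (nat_lit 1) (.p (nat_lit 208) (nat_lit 1) (.n (nat_lit 210) (nat_lit 2) (.p (nat_lit 211) (nat_lit 1) (.n (nat_lit 212) (nat_lit 1) (.p (nat_lit 213) (nat_lit 1) (.p (nat_lit 214) (nat_lit 5) (.p (nat_lit 215) (nat_lit 5) (.n (nat_lit 217) (nat_lit 1) (.p (nat_lit 219) (nat_lit 2) (.n (nat_lit 221) (nat_lit 1) (.p (nat_lit 223) (nat_lit 2) (.n (nat_lit 224) (nat_lit 1) (.p (nat_lit 226) (nat_lit 4) (.n (nat_lit 227) (nat_lit 1) (.p (nat_lit 228) (nat_lit 1) (.n (nat_lit 229) (nat_lit 6) (.n (nat_lit 230) (nat_lit 2) (.p (nat_lit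 232) (nat_lit 1) (.n (nat_lit 233) (nat_lit 1) (.n (nat_lit 234) (nat_lit 3) (.p (nat_lit 236) (nat_lit 1) (.p (nat_lit 237) (nat_lit 1) (.p (nat_lit 238) (nat_lit 1) (.n (nat_lit 239) (nat_lit 1) (.p (nat_lit 240) (nat_lit 3) (.p (nat_lit 241) (nat_lit 3) .z)))))))))))))))))))))))))))))))))))))))))))))))))))))))))))) (.u (nat_lit 2) (.p (nat_lit 243) (nat_lit 1) (.n (nat_lit 245) (nat_lit 3) (.p (nat_lit 246) (nat_lit 2) (.n (nat_lit 247) (nat_lit 2) (.n (nat_lit 248) (nat_lit 1) (.p (nat_lit 252) (nat_lit 2) (.p (nat_lit 253) (nat_lit 2) (.n (nat_lit 255) (nat_lit 1) (.n (nat_lit 256) (nat_lit 1) (.n (nat_lit 258) (nat_lit 2) (.p (nat_lit 259) (nat_lit 1) (.n (nat_lit 260) (nat_lit 1) (.n (nat_lit 261) (nat_lit 3) (.n (nat_lit 262) (nat_lit 1) (.p (nat_lit 263) (nat_lit 2) (.p (nat_lit 264) (nat_lit 1) (.n (nat_lit 265) (nat_lit 1) (.p (nat_lit 268) (nat_lit 1) (.n (nat_lit 270) (nat_lit 2) (.n (nat_lit 271)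 (nat_lit 3) (.p (nat_lit 272) (nat_lit 1) (.p (nat_lit 274) (nat_lit 1) (.n (nat_lit 284) (nat_lit 1) (.n (nat_lit 285) (nat_lit 1) (.p (nat_lit 288) (nat_lit 1) (.p (nat_lit 289) (nat_lit 1) (.p (nat_lit 293) (nat_lit 3) (.n (nat_lit 295) (nat_lit 1) (.p (nat_lit 296) (nat_lit 3) (.n (nat_lit 297) (nat_lit 3) (.p (nat_lit 298) (nat_lit 1) (.p (nat_lit 299) (nat_lit 1) (.p (nat_lit 300) (nat_lit 2) (.p (nat_lit 301) (nat_lit 1) (.p (nat_lit 302) (nat_lit 22) (.p (nat_lit 303) (nat_lit 10) (.p (nat_lit 304) (nat_lit 12) (.p (nat_lit 305) (nat_lit 12) (.n (nat_lit 306) (nat_lit 2) (.n (nat_lit 307) (nat_lit 10) (.n (nat_lit 308) (nat_lit 12) (.p (nat_lit 309) (nat_lit 1) (.p (nat_lit 310) (nat_lit 7) (.p (nat_lit 311) (nat_lit 8) (.p (nat_lit 312) (nat_lit 10) (.p (nat_lit 313) (nat_lit 8) (.n (nat_lit 314) (nat_lit 9) (.n (nat_lit 316) (nat_lit 3) (.p (nat_lit 317) (nat_lit 4) (.n (nat_lit 318) (nat_lit 21) (.n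 (nat_lit 320) (nat_lit 2) (.n (nat_lit 321) (nat_lit 1) (.n (nat_lit 322) (nat_lit 14) (.n (nat_lit 323) (nat_lit 2) (.n (nat_lit 324) (nat_lit 7) (.n (nat_lit 325) (nat_lit 4) (.n (nat_lit 326) (nat_lit 2) (.p (nat_lit 327) (nat_lit 5) (.p (nat_lit 328) (nat_lit 1) (.n (nat_lit 329) (nat_lit 23) .z)))))))))))))))))))))))))))))))))))))))))))))))))))))))))))) (.u (nat_lit 2) (.p (nat_lit 330) (nat_lit 8) (.n (nat_lit 331) (nat_lit 7) (.n (nat_lit 334) (nat_lit 3) (.p (nat_lit 335) (nat_lit 5) (.n (nat_lit 336) (nat_lit 5) (.n (nat_lit 338) (nat_lit 5) (.n (nat_lit 339) (nat_lit 6) (.p (nat_lit 340) (nat_lit 1) (.n (nat_lit 341) (nat_lit 11) (.n (nat_lit 342) (nat_lit 3) (.p (nat_lit 343) (nat_lit 3) (.p (nat_lit 344) (nat_lit 5) (.n (nat_lit 345) (nat_lit 7) (.n (nat_lit 346) (nat_lit 7) (.n (nat_lit 347) (nat_lit 8) (.n (nat_lit 348) (nat_lit 13) (.n (nat_lit 350) (nat_lit 8) (.n (nat_lit 351) (nat_lit 11) (.p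 (nat_lit 352) (nat_lit 3) (.n (nat_lit 353) (nat_lit 3) (.p (nat_lit 354) (nat_lit 5) (.p (nat_lit 355) (nat_lit 42) (.n (nat_lit 356) (nat_lit 1) (.p (nat_lit 357) (nat_lit 2) (.p (nat_lit 358) (nat_lit 15) (.n (nat_lit 359) (nat_lit 16) (.n (nat_lit 360) (nat_lit 15) (.p (nat_lit 361) (nat_lit 17) (.n (nat_lit 362) (nat_lit 8) (.n (nat_lit 364) (nat_lit 1) (.p (nat_lit 365) (nat_lit 3) (.p (nat_lit 366) (nat_lit 13) (.p (nat_lit 367) (nat_lit 1) (.p (nat_lit 368) (nat_lit 22) (.p (nat_lit 369) (nat_lit 3) (.p (nat_lit 370) (nat_lit 16) (.p (nat_lit 371) (nat_lit 5) (.n (nat_lit 372) (nat_lit 13) (.n (nat_lit 373) (nat_lit 29) (.n (nat_lit 374) (nat_lit 22) (.n (nat_lit 375) (nat_lit 4) (.n (nat_lit 376) (nat_lit 10) (.p (nat_lit 377) (nat_lit 1) (.p (nat_lit 378) (nat_lit 3) (.p (nat_lit 379) (nat_lit 5) (.p (nat_lit 380) (nat_lit 4) (.p (nat_lit 381) (nat_lit 2) (.p (nat_lit 382) (nat_lit 9) (.p (nat_lit 383)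 (nat_lit 1) (.n (nat_lit 384) (nat_lit 1) (.n (nat_lit 385) (nat_lit 3) (.n (nat_lit 386) (nat_lit 15) (.n (nat_lit 387) (nat_lit 3) (.p (nat_lit 388) (nat_lit 2) (.p (nat_lit 389) (nat_lit 1) (.p (nat_lit 390) (nat_lit 3) (.n (nat_lit 391) (nat_lit 4) (.p (nat_lit 392) (nat_lit 9) (.p (nat_lit 393) (nat_lit 7) (.n (nat_lit 394) (nat_lit 5) .z)))))))))))))))))))))))))))))))))))))))))))))))))))))))))))) (.u (nat_lit 2) (.p (nat_lit 395) (nat_lit 8) (.p (nat_lit 397) (nat_lit 2) (.p (nat_lit 398) (nat_lit 2) (.p (nat_lit 399) (nat_lit 1) (.n (nat_lit 400) (nat_lit 1) (.p (nat_lit 401) (nat_lit 5) .z)))))) .nil)))))))))))))))))))))))))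

noncomputable def dC2d_i108 : IL := (.e false (nat_lit 2) (nat_lit 206) (nat_lit 2) (nat_lit 16) (.e true (nat_lit 2) (nat_lit 209) (nat_lit 2) (nat_lit 16) (.e true (nat_lit 1) (nat_lit 230) (nat_lit 2) (nat_lit 16) (.e false (nat_lit 3) (nat_lit 234) (nat_lit 2) (nat_lit 16) (.e true (nat_lit 3) (nat_lit 252) (nat_lit 1) (nat_lit 17) (.e false (nat_lit 1) (nat_lit 253) (nat_lit 1) (nat_lit 17) (.e true (nat_lit 3) (nat_lit 254) (nat_lit 1) (nat_lit 17) (.e true (nat_lit 1) (nat_lit 258) (nat_lit 1) (nat_lit 17) (.e false (nat_lit 1) (nat_lit 263) (nat_lit 1) (nat_lit 17) (.e false (nat_lit 1) (nat_lit 265) (nat_lit 1) (nat_lit 17) (.e false (nat_lit 2) (nat_lit 267) (nat_lit 1) (nat_lit 17) (.e false (nat_lit 2) (nat_lit 269) (nat_lit 1) (nat_lit 17) (.e true (nat_lit 1) (nat_lit 270) (nat_lit 1) (nat_lit 17) (.e true (nat_lit 2) (nat_lit 271) (nat_lit 1) (nat_lit 17) (.e true (nat_lit 1) (nat_lit 272) (nat_lit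 1) (nat_lit 17) (.e true (nat_lit 1) (nat_lit 273) (nat_lit 1) (nat_lit 17) (.e false (nat_lit 2) (nat_lit 276) (nat_lit 1) (nat_lit 17) (.e true (nat_lit 3) (nat_lit 277) (nat_lit 1) (nat_lit 17) (.e false (nat_lit 1) (nat_lit 255) (nat_lit 1) (nat_lit 17) (.e true (nat_lit 3) (nat_lit 262) (nat_lit 1) (nat_lit 17) (.e false (nat_lit 2) (nat_lit 264) (nat_lit 1) (nat_lit 17) (.e true (nat_lit 3) (nat_lit 266) (nat_lit 1) (nat_lit 17) (.e false (nat_lit 3) (nat_lit 298) (nat_lit 0) (nat_lit 18) (.e true (nat_lit 2) (nat_lit 274) (nat_lit 1) (nat_lit 17) (.e true (nat_lit 1) (nat_lit 278) (nat_lit 1) (nat_lit 17) dC2d_i107)))))))))))))))))))))))))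

noncomputable def dC2d_i109 : IL := (.s true (nat_lit 1) (nat_lit 81) (nat_lit 2) (nat_lit 1) (nat_lit 1) true (nat_lit 12) true (nat_lit 17) false (nat_lit 7) true (nat_lit 16) true (nat_lit 17) (.s true (nat_lit 2) (nat_lit 88) (nat_lit 2) (nat_lit 1) (nat_lit 1) true (nat_lit 12) true (nat_lit 17) false (nat_lit 7) true (nat_lit 16) true (nat_lit 17) (.s false (nat_lit 3) (nat_lit 91) (nat_lit 0) (nat_lit 1) (nat_lit 2) true (nat_lit 13) true (nat_lit 16) false (nat_lit 8) true (nat_lit 18) true (nat_lit 17) (.s false (nat_lit 2) (nat_lit 92) (nat_lit 0) (nat_lit 1) (nat_lit 2) true (nat_lit 13) true (nat_lit 16) false (nat_lit 8) true (nat_lit 18) true (nat_lit 17) (.s true (nat_lit 3) (nat_lit 91) (nat_lit 0) (nat_lit 2) (nat_lit 1) true (nat_lit 15) true (nat_lit 17) false (nat_lit 8) true (nat_lit 18) true (nat_lit 16) (.s false (nat_lit 1) (nat_lit 91) (nat_lit 1) (nat_lit 0) (nat_lit 2) true (nat_lit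 12) true (nat_lit 16) false (nat_lit 8) true (nat_lit 17) true (nat_lit 18) (.s false (nat_lit 3) (nat_lit 92) (nat_lit 1) (nat_lit 0) (nat_lit 2) true (nat_lit 12) true (nat_lit 16) false (nat_lit 8) true (nat_lit 17) true (nat_lit 18) (.s true (nat_lit 2) (nat_lit 92) (nat_lit 1) (nat_lit 2) (nat_lit 0) true (nat_lit 15) true (nat_lit 18) false (nat_lit 8) true (nat_lit 17) true (nat_lit 16) (.s false (nat_lit 3) (nat_lit 95) (nat_lit 1) (nat_lit 2) (nat_lit 0) true (nat_lit 15) true (nat_lit 18) false (nat_lit 8) true (nat_lit 17) true (nat_lit 16) (.s false (nat_lit 2) (nat_lit 93) (nat_lit 2) (nat_lit 1) (nat_lit 0) true (nat_lit 13) true (nat_lit 18) false (nat_lit 8) true (nat_lit 16) true (nat_lit 17) (.s true (nat_lit 1) (nat_lit 94) (nat_lit 2) (nat_lit 1) (nat_lit 0) true (nat_lit 13) true (nat_lit 18) false (nat_lit 8) true (nat_lit 16) true (nat_lit 17) (.s false (nat_lit 1) (nat_lit 96) (nat_lit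 2) (nat_lit 1) (nat_lit 0) true (nat_lit 13) true (nat_lit 18) false (nat_lit 8) true (nat_lit 16) true (nat_lit 17) (.s false (nat_lit 3) (nat_lit 101) (nat_lit 0) (nat_lit 1) (nat_lit 1) true (nat_lit 15) true (nat_lit 17) false (nat_lit 10) true (nat_lit 18) true (nat_lit 17) (.s true (nat_lit 3) (nat_lit 102) (nat_lit 0) (nat_lit 1) (nat_lit 1) true (nat_lit 15) true (nat_lit 17) false (nat_lit 10) true (nat_lit 18) true (nat_lit 17) (.s true (nat_lit 1) (nat_lit 103) (nat_lit 0) (nat_lit 1) (nat_lit 1) true (nat_lit 15) true (nat_lit 17) false (nat_lit 10) true (nat_lit 18) true (nat_lit 17) (.s false (nat_lit 1) (nat_lit 104) (nat_lit 0) (nat_lit 1) (nat_lit 1) true (nat_lit 15) true (nat_lit 17) false (nat_lit 10) true (nat_lit 18) true (nat_lit 17) (.s false (nat_lit 3) (nat_lit 101) (nat_lit 1) (nat_lit 1) (nat_lit 0) true (nat_lit 15) true (nat_lit 18) false (nat_lit 10) true (nat_lit 17) true (nat_lit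 17) (.s false (nat_lit 2) (nat_lit 102) (nat_lit 1) (nat_lit 1) (nat_lit 0) true (nat_lit 15) true (nat_lit 18) false (nat_lit 10) true (nat_lit 17) true (nat_lit 17) (.s false (nat_lit 3) (nat_lit 103) (nat_lit 1) (nat_lit 1) (nat_lit 0) true (nat_lit 15) true (nat_lit 18) false (nat_lit 10) true (nat_lit 17) true (nat_lit 17) (.s false (nat_lit 2) (nat_lit 104) (nat_lit 1) (nat_lit 1) (nat_lit 0) true (nat_lit 15) true (nat_lit 18) false (nat_lit 10) true (nat_lit 17) true (nat_lit 17) (.e false (nat_lit 2) (nat_lit 155) (nat_lit 6) (nat_lit 12) (.e true (nat_lit 1) (nat_lit 138) (nat_lit 6) (nat_lit 12) (.e false (nat_lit 3) (nat_lit 205) (nat_lit 2) (nat_lit 16) (.e true (nat_lit 1) (nat_lit 208) (nat_lit 2) (nat_lit 16) (.e true (nat_lit 3) (nat_lit 227) (nat_lit 2) (nat_lit 16) dC2d_i108)))))))))))))))))))))))))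

noncomputable def dC2d_i110 : IL := (.s false (nat_lit 1) (nat_lit 60) (nat_lit 2) (nat_lit 2) (nat_lit 1) true (nat_lit 12) true (nat_lit 17) false (nat_lit 5) true (nat_lit 16) true (nat_lit 16) (.s false (nat_lit 3) (nat_lit 61) (nat_lit 2) (nat_lit 2) (nat_lit 1) true (nat_lit 12) true (nat_lit 17) false (nat_lit 5) true (nat_lit 16) true (nat_lit 16) (.s false (nat_lit 3) (nat_lit 63) (nat_lit 2) (nat_lit 2) (nat_lit 1) true (nat_lit 12) true (nat_lit 17) false (nat_lit 5) true (nat_lit 16) true (nat_lit 16) (.s true (nat_lit 3) (nat_lit 64) (nat_lit 2) (nat_lit 2) (nat_lit 1) true (nat_lit 12) true (nat_lit 17) false (nat_lit 5) true (nat_lit 16) true (nat_lit 16) (.s true (nat_lit 2) (nat_lit 65) (nat_lit 2) (nat_lit 2) (nat_lit 1) true (nat_lit 12) true (nat_lit 17) false (nat_lit 5) true (nat_lit 16) true (nat_lit 16) (.s true (nat_lit 3) (nat_lit 67) (nat_lit 2) (nat_lit 2) (nat_lit 1) true (nat_lit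 12) true (nat_lit 17) false (nat_lit 5) true (nat_lit 16) true (nat_lit 16) (.s false (nat_lit 3) (nat_lit 68) (nat_lit 2) (nat_lit 2) (nat_lit 1) true (nat_lit 12) true (nat_lit 17) false (nat_lit 5) true (nat_lit 16) true (nat_lit 16) (.s false (nat_lit 1) (nat_lit 69) (nat_lit 2) (nat_lit 2) (nat_lit 1) true (nat_lit 12) true (nat_lit 17) false (nat_lit 5) true (nat_lit 16) true (nat_lit 16) (.s true (nat_lit 3) (nat_lit 70) (nat_lit 2) (nat_lit 2) (nat_lit 1) true (nat_lit 12) true (nat_lit 17) false (nat_lit 5) true (nat_lit 16) true (nat_lit 16) (.s true (nat_lit 3) (nat_lit 71) (nat_lit 2) (nat_lit 2) (nat_lit 1) true (nat_lit 12) true (nat_lit 17) false (nat_lit 5) true (nat_lit 16) true (nat_lit 16) (.s true (nat_lit 1) (nat_lit 73) (nat_lit 2) (nat_lit 2) (nat_lit 1) true (nat_lit 12) true (nat_lit 17) false (nat_lit 5) true (nat_lit 16) true (nat_lit 16) (.s true (nat_lit 1) (nat_lit 79) (nat_lit 0)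 (nat_lit 2) (nat_lit 2) true (nat_lit 13) true (nat_lit 16) false (nat_lit 6) true (nat_lit 18) true (nat_lit 16) (.s true (nat_lit 1) (nat_lit 79) (nat_lit 2) (nat_lit 0) (nat_lit 2) true (nat_lit 11) true (nat_lit 16) false (nat_lit 6) true (nat_lit 16) true (nat_lit 18) (.s true (nat_lit 1) (nat_lit 74) (nat_lit 2) (nat_lit 2) (nat_lit 0) true (nat_lit 13) true (nat_lit 18) false (nat_lit 6) true (nat_lit 16) true (nat_lit 16) (.s false (nat_lit 3) (nat_lit 75) (nat_lit 2) (nat_lit 2) (nat_lit 0) true (nat_lit 13) true (nat_lit 18) false (nat_lit 6) true (nat_lit 16) true (nat_lit 16) (.s true (nat_lit 2) (nat_lit 76) (nat_lit 2) (nat_lit 2) (nat_lit 0) true (nat_lit 13) true (nat_lit 18) false (nat_lit 6) true (nat_lit 16) true (nat_lit 16) (.s true (nat_lit 2) (nat_lit 77) (nat_lit 2) (nat_lit 2) (nat_lit 0) true (nat_lit 13) true (nat_lit 18) false (nat_lit 6) true (nat_lit 16) true (nat_lit 16) (.s false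 (nat_lit 2) (nat_lit 78) (nat_lit 2) (nat_lit 2) (nat_lit 0) true (nat_lit 13) true (nat_lit 18) false (nat_lit 6) true (nat_lit 16) true (nat_lit 16) (.s true (nat_lit 3) (nat_lit 79) (nat_lit 2) (nat_lit 2) (nat_lit 0) true (nat_lit 13) true (nat_lit 18) false (nat_lit 6) true (nat_lit 16) true (nat_lit 16) (.s false (nat_lit 2) (nat_lit 80) (nat_lit 1) (nat_lit 1) (nat_lit 2) true (nat_lit 12) true (nat_lit 16) false (nat_lit 7) true (nat_lit 17) true (nat_lit 17) (.s false (nat_lit 2) (nat_lit 81) (nat_lit 1) (nat_lit 1) (nat_lit 2) true (nat_lit 12) true (nat_lit 16) false (nat_lit 7) true (nat_lit 17) true (nat_lit 17) (.s true (nat_lit 3) (nat_lit 88) (nat_lit 1) (nat_lit 1) (nat_lit 2) true (nat_lit 12) true (nat_lit 16) false (nat_lit 7) true (nat_lit 17) true (nat_lit 17) (.s false (nat_lit 2) (nat_lit 89) (nat_lit 1) (nat_lit 1) (nat_lit 2) true (nat_lit 12) true (nat_lit 16) false (nat_lit 7) true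 (nat_lit 17) true (nat_lit 17) (.s false (nat_lit 1) (nat_lit 81) (nat_lit 1) (nat_lit 2) (nat_lit 1) true (nat_lit 14) true (nat_lit 17) false (nat_lit 7) true (nat_lit 17) true (nat_lit 16) (.s true (nat_lit 3) (nat_lit 84) (nat_lit 1) (nat_lit 2) (nat_lit 1) true (nat_lit 14) true (nat_lit 17) false (nat_lit 7) true (nat_lit 17) true (nat_lit 16) dC2d_i109)))))))))))))))))))))))))

noncomputable def dC2d_i111 : IL := (.s false (nat_lit 1) (nat_lit 48) (nat_lit 4) (nat_lit 1) (nat_lit 0) true (nat_lit 10) true (nat_lit 18) false (nat_lit 3) true (nat_lit 14) true (nat_lit 17) (.s true (nat_lit 2) (nat_lit 52) (nat_lit 2) (nat_lit 2) (nat_lit 2) true (nat_lit 11) true (nat_lit 16) false (nat_lit 4) true (nat_lit 16) true (nat_lit 16) (.s false (nat_lit 3) (nat_lit 53) (nat_lit 2) (nat_lit 2) (nat_lit 2) true (nat_lit 11) true (nat_lit 16) false (nat_lit 4) true (nat_lit 16) true (nat_lit 16) (.s true (nat_lit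 2) (nat_lit 54) (nat_lit 2) (nat_lit 2) (nat_lit 2) true (nat_lit 11) true (nat_lit 16) false (nat_lit 4) true (nat_lit 16) true (nat_lit 16) (.s false (nat_lit 2) (nat_lit 55) (nat_lit 2) (nat_lit 2) (nat_lit 2) true (nat_lit 11) true (nat_lit 16) false (nat_lit 4) true (nat_lit 16) true (nat_lit 16) (.s true (nat_lit 2) (nat_lit 56) (nat_lit 2) (nat_lit 2) (nat_lit 2) true (nat_lit 11) true (nat_lit 16) false (nat_lit 4) true (nat_lit 16) true (nat_lit 16) (.s false (nat_lit 1) (nat_lit 57) (nat_lit 2) (nat_lit 2) (nat_lit 2) true (nat_lit 11) true (nat_lit 16) false (nat_lit 4) true (nat_lit 16) true (nat_lit 16) (.s false (nat_lit 3) (nat_lit 59) (nat_lit 2) (nat_lit 2) (nat_lit 2) true (nat_lit 11) true (nat_lit 16) false (nat_lit 4) true (nat_lit 16) true (nat_lit 16) (.s true (nat_lit 1) (nat_lit 60) (nat_lit 1) (nat_lit 2) (nat_lit 2) true (nat_lit 12) true (nat_lit 16) false (nat_lit 5) true (nat_lit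 17) true (nat_lit 16) (.s false (nat_lit 1) (nat_lit 61) (nat_lit 1) (nat_lit 2) (nat_lit 2) true (nat_lit 12) true (nat_lit 16) false (nat_lit 5) true (nat_lit 17) true (nat_lit 16) (.s true (nat_lit 3) (nat_lit 62) (nat_lit 1) (nat_lit 2) (nat_lit 2) true (nat_lit 12) true (nat_lit 16) false (nat_lit 5) true (nat_lit 17) true (nat_lit 16) (.s false (nat_lit 3) (nat_lit 63) (nat_lit 1) (nat_lit 2) (nat_lit 2) true (nat_lit 12) true (nat_lit 16) false (nat_lit 5) true (nat_lit 17) true (nat_lit 16) (.s false (nat_lit 3) (nat_lit 64) (nat_lit 1) (nat_lit 2) (nat_lit 2) true (nat_lit 12) true (nat_lit 16) false (nat_lit 5) true (nat_lit 17) true (nat_lit 16) (.s true (nat_lit 3) (nat_lit 65) (nat_lit 1) (nat_lit 2) (nat_lit 2) true (nat_lit 12) true (nat_lit 16) false (nat_lit 5) true (nat_lit 17) true (nat_lit 16) (.s false (nat_lit 1) (nat_lit 66) (nat_lit 1) (nat_lit 2) (nat_lit 2) true (nat_lit 12) true (nat_lit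 16) false (nat_lit 5) true (nat_lit 17) true (nat_lit 16) (.s false (nat_lit 1) (nat_lit 67) (nat_lit 1) (nat_lit 2) (nat_lit 2) true (nat_lit 12) true (nat_lit 16) false (nat_lit 5) true (nat_lit 17) true (nat_lit 16) (.s true (nat_lit 2) (nat_lit 68) (nat_lit 1) (nat_lit 2) (nat_lit 2) true (nat_lit 12) true (nat_lit 16) false (nat_lit 5) true (nat_lit 17) true (nat_lit 16) (.s true (nat_lit 3) (nat_lit 69) (nat_lit 1) (nat_lit 2) (nat_lit 2) true (nat_lit 12) true (nat_lit 16) false (nat_lit 5) true (nat_lit 17) true (nat_lit 16) (.s false (nat_lit 1) (nat_lit 72) (nat_lit 1) (nat_lit 2) (nat_lit 2) true (nat_lit 12) true (nat_lit 16) false (nat_lit 5) true (nat_lit 17) true (nat_lit 16) (.s true (nat_lit 1) (nat_lit 73) (nat_lit 1) (nat_lit 2) (nat_lit 2) true (nat_lit 12) true (nat_lit 16) false (nat_lit 5) true (nat_lit 17) true (nat_lit 16) (.s true (nat_lit 2) (nat_lit 62) (nat_lit 2) (nat_lit 1) (nat_lit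 2) true (nat_lit 11) true (nat_lit 16) false (nat_lit 5) true (nat_lit 16) true (nat_lit 17) (.s true (nat_lit 1) (nat_lit 66) (nat_lit 2) (nat_lit 1) (nat_lit 2) true (nat_lit 11) true (nat_lit 16) false (nat_lit 5) true (nat_lit 16) true (nat_lit 17) (.s false (nat_lit 1) (nat_lit 69) (nat_lit 2) (nat_lit 1) (nat_lit 2) true (nat_lit 11) true (nat_lit 16) false (nat_lit 5) true (nat_lit 16) true (nat_lit 17) (.s true (nat_lit 2) (nat_lit 72) (nat_lit 2) (nat_lit 1) (nat_lit 2) true (nat_lit 11) true (nat_lit 16) false (nat_lit 5) true (nat_lit 16) true (nat_lit 17) (.s true (nat_lit 2) (nat_lit 73) (nat_lit 2) (nat_lit 1) (nat_lit 2) true (nat_lit 11) true (nat_lit 16) false (nat_lit 5) true (nat_lit 16) true (nat_lit 17) dC2d_i110)))))))))))))))))))))))))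

noncomputable def dC2d_i112 : IL := (.s false (nat_lit 3) (nat_lit 33) (nat_lit 2) (nat_lit 1) (nat_lit 6) true (nat_lit 5) true (nat_lit 12) true (nat_lit 0) true (nat_lit 16) true (nat_lit 17) (.s true (nat_lit 2) (nat_lit 34) (nat_lit 2) (nat_lit 1) (nat_lit 6) true (nat_lit 5) true (nat_lit 12) true (nat_lit 0) true (nat_lit 16) true (nat_lit 17) (.s true (nat_lit 1) (nat_lit 36) (nat_lit 2) (nat_lit 1) (nat_lit 6) true (nat_lit 5) true (nat_lit 12) true (nat_lit 0) true (nat_lit 16) true (nat_lit 17) (.s false (nat_lit 3) (nat_lit 37) (nat_lit 2) (nat_lit 2) (nat_lit 4) true (nat_lit 7) true (nat_lit 14) true (nat_lit 0) true (nat_lit 16) true (nat_lit 16) (.s true (nat_lit 2) (nat_lit 34) (nat_lit 2) (nat_lit 6) (nat_lit 1) true (nat_lit 12) true (nat_lit 17) true (nat_lit 0) true (nat_lit 16) true (nat_lit 12) (.s true (nat_lit 2) (nat_lit 33) (nat_lit 4) (nat_lit 2) (nat_lit 2) true (nat_lit 7) true (nat_lit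 16) true (nat_lit 0) true (nat_lit 14) true (nat_lit 16) (.s false (nat_lit 3) (nat_lit 37) (nat_lit 6) (nat_lit 1) (nat_lit 2) true (nat_lit 5) true (nat_lit 16) true (nat_lit 0) true (nat_lit 12) true (nat_lit 17) (.s true (nat_lit 3) (nat_lit 40) (nat_lit 0) (nat_lit 2) (nat_lit 6) true (nat_lit 8) true (nat_lit 12) false (nat_lit 0) true (nat_lit 18) true (nat_lit 16) (.s false (nat_lit 2) (nat_lit 41) (nat_lit 1) (nat_lit 5) (nat_lit 2) true (nat_lit 12) true (nat_lit 16) false (nat_lit 0) true (nat_lit 17) true (nat_lit 13) (.s false (nat_lit 1) (nat_lit 41) (nat_lit 2) (nat_lit 3) (nat_lit 2) true (nat_lit 11) true (nat_lit 16) false (nat_lit 0) true (nat_lit 16) true (nat_lit 15) (.s true (nat_lit 1) (nat_lit 41) (nat_lit 2) (nat_lit 6) (nat_lit 0) true (nat_lit 13) true (nat_lit 18) false (nat_lit 0) true (nat_lit 16) true (nat_lit 12) (.s false (nat_lit 1) (nat_lit 41) (nat_lit 5) (nat_lit 2) (nat_lit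 1) true (nat_lit 8) true (nat_lit 17) false (nat_lit 0) true (nat_lit 13) true (nat_lit 16) (.s true (nat_lit 3) (nat_lit 40) (nat_lit 6) (nat_lit 2) (nat_lit 0) true (nat_lit 8) true (nat_lit 18) false (nat_lit 0) true (nat_lit 12) true (nat_lit 16) (.s true (nat_lit 1) (nat_lit 40) (nat_lit 7) (nat_lit 0) (nat_lit 1) true (nat_lit 5) true (nat_lit 17) false (nat_lit 0) true (nat_lit 11) true (nat_lit 18) (.s false (nat_lit 2) (nat_lit 41) (nat_lit 7) (nat_lit 0) (nat_lit 1) true (nat_lit 5) true (nat_lit 17) false (nat_lit 0) true (nat_lit 11) true (nat_lit 18) (.s true (nat_lit 3) (nat_lit 45) (nat_lit 1) (nat_lit 3) (nat_lit 2) true (nat_lit 12) true (nat_lit 16) false (nat_lit 2) true (nat_lit 17) true (nat_lit 15) (.s true (nat_lit 3) (nat_lit 46) (nat_lit 1) (nat_lit 3) (nat_lit 2) true (nat_lit 12) true (nat_lit 16) false (nat_lit 2) true (nat_lit 17) true (nat_lit 15) (.s true (nat_lit 3) (nat_lit 47)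 (nat_lit 1) (nat_lit 5) (nat_lit 1) true (nat_lit 14) true (nat_lit 17) false (nat_lit 2) true (nat_lit 17) true (nat_lit 13) (.s false (nat_lit 3) (nat_lit 46) (nat_lit 2) (nat_lit 3) (nat_lit 1) true (nat_lit 12) true (nat_lit 17) false (nat_lit 2) true (nat_lit 16) true (nat_lit 15) (.s true (nat_lit 3) (nat_lit 46) (nat_lit 3) (nat_lit 1) (nat_lit 2) true (nat_lit 8) true (nat_lit 16) false (nat_lit 2) true (nat_lit 15) true (nat_lit 17) (.s true (nat_lit 1) (nat_lit 47) (nat_lit 5) (nat_lit 1) (nat_lit 1) true (nat_lit 8) true (nat_lit 17) false (nat_lit 2) true (nat_lit 13) true (nat_lit 17) (.s false (nat_lit 1) (nat_lit 45) (nat_lit 6) (nat_lit 1) (nat_lit 0) true (nat_lit 8) true (nat_lit 18) false (nat_lit 2) true (nat_lit 12) true (nat_lit 17) (.s false (nat_lit 1) (nat_lit 47) (nat_lit 6) (nat_lit 1) (nat_lit 0) true (nat_lit 8) true (nat_lit 18) false (nat_lit 2) true (nat_lit 12) true (nat_lit 17)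 (.s false (nat_lit 3) (nat_lit 48) (nat_lit 3) (nat_lit 1) (nat_lit 1) true (nat_lit 10) true (nat_lit 17) false (nat_lit 3) true (nat_lit 15) true (nat_lit 17) (.s false (nat_lit 1) (nat_lit 48) (nat_lit 4) (nat_lit 0) (nat_lit 1) true (nat_lit 9) true (nat_lit 17) false (nat_lit 3) true (nat_lit 14) true (nat_lit 18) dC2d_i111)))))))))))))))))))))))))

noncomputable def dC2d_i113 : IL := (.s false (nat_lit 3) (nat_lit 27) (nat_lit 1) (nat_lit 2) (nat_lit 7) true (nat_lit 5) true (nat_lit 11) true (nat_lit 2) true (nat_lit 17) true (nat_lit 16) (.s true (nat_lit 1) (nat_lit 29) (nat_lit 1) (nat_lit 2) (nat_lit 7) true (nat_lit 5) true (nat_lit 11) true (nat_lit 2) true (nat_lit 17) true (nat_lit 16) (.s true (nat_lit 3) (nat_lit 24) (nat_lit 1) (nat_lit 7) (nat_lit 2) true (nat_lit 12) true (nat_lit 16) true (nat_lit 2) true (nat_lit 17) true (nat_lit 11) (.s false (nat_lit 3) (nat_lit 25) (nat_lit 1) (nat_lit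 7) (nat_lit 2) true (nat_lit 12) true (nat_lit 16) true (nat_lit 2) true (nat_lit 17) true (nat_lit 11) (.s false (nat_lit 1) (nat_lit 26) (nat_lit 1) (nat_lit 7) (nat_lit 2) true (nat_lit 12) true (nat_lit 16) true (nat_lit 2) true (nat_lit 17) true (nat_lit 11) (.s false (nat_lit 2) (nat_lit 27) (nat_lit 1) (nat_lit 7) (nat_lit 2) true (nat_lit 12) true (nat_lit 16) true (nat_lit 2) true (nat_lit 17) true (nat_lit 11) (.s false (nat_lit 3) (nat_lit 24) (nat_lit 2) (nat_lit 1) (nat_lit 7) true (nat_lit 4) true (nat_lit 11) true (nat_lit 2) true (nat_lit 16) true (nat_lit 17) (.s false (nat_lit 3) (nat_lit 25) (nat_lit 2) (nat_lit 1) (nat_lit 7) true (nat_lit 4) true (nat_lit 11) true (nat_lit 2) true (nat_lit 16) true (nat_lit 17) (.s true (nat_lit 2) (nat_lit 27) (nat_lit 2) (nat_lit 1) (nat_lit 7) true (nat_lit 4) true (nat_lit 11) true (nat_lit 2) true (nat_lit 16) true (nat_lit 17) (.s false (nat_lit 1) (nat_lit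 29) (nat_lit 2) (nat_lit 1) (nat_lit 7) true (nat_lit 4) true (nat_lit 11) true (nat_lit 2) true (nat_lit 16) true (nat_lit 17) (.s true (nat_lit 1) (nat_lit 24) (nat_lit 2) (nat_lit 2) (nat_lit 6) true (nat_lit 5) true (nat_lit 12) true (nat_lit 2) true (nat_lit 16) true (nat_lit 16) (.s false (nat_lit 2) (nat_lit 25) (nat_lit 2) (nat_lit 2) (nat_lit 6) true (nat_lit 5) true (nat_lit 12) true (nat_lit 2) true (nat_lit 16) true (nat_lit 16) (.s false (nat_lit 2) (nat_lit 26) (nat_lit 2) (nat_lit 2) (nat_lit 6) true (nat_lit 5) true (nat_lit 12) true (nat_lit 2) true (nat_lit 16) true (nat_lit 16) (.s false (nat_lit 3) (nat_lit 29) (nat_lit 2) (nat_lit 2) (nat_lit 6) true (nat_lit 5) true (nat_lit 12) true (nat_lit 2) true (nat_lit 16) true (nat_lit 16) (.s true (nat_lit 3) (nat_lit 25) (nat_lit 2) (nat_lit 6) (nat_lit 2) true (nat_lit 11) true (nat_lit 16) true (nat_lit 2) true (nat_lit 16) true (nat_lit 12) (.s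 true (nat_lit 3) (nat_lit 24) (nat_lit 6) (nat_lit 2) (nat_lit 2) true (nat_lit 5) true (nat_lit 16) true (nat_lit 2) true (nat_lit 12) true (nat_lit 16) (.s true (nat_lit 1) (nat_lit 26) (nat_lit 6) (nat_lit 2) (nat_lit 2) true (nat_lit 5) true (nat_lit 16) true (nat_lit 2) true (nat_lit 12) true (nat_lit 16) (.s false (nat_lit 1) (nat_lit 27) (nat_lit 6) (nat_lit 2) (nat_lit 2) true (nat_lit 5) true (nat_lit 16) true (nat_lit 2) true (nat_lit 12) true (nat_lit 16) (.s false (nat_lit 1) (nat_lit 29) (nat_lit 6) (nat_lit 2) (nat_lit 2) true (nat_lit 5) true (nat_lit 16) true (nat_lit 2) true (nat_lit 12) true (nat_lit 16) (.s false (nat_lit 1) (nat_lit 25) (nat_lit 7) (nat_lit 2) (nat_lit 1) true (nat_lit 5) true (nat_lit 17) true (nat_lit 2) true (nat_lit 11) true (nat_lit 16) (.s false (nat_lit 3) (nat_lit 31) (nat_lit 0) (nat_lit 7) (nat_lit 2) true (nat_lit 13) true (nat_lit 16) true (nat_lit 1) true (nat_lit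 18) true (nat_lit 11) (.s false (nat_lit 3) (nat_lit 33) (nat_lit 1) (nat_lit 1) (nat_lit 7) true (nat_lit 5) true (nat_lit 11) true (nat_lit 0) true (nat_lit 17) true (nat_lit 17) (.s false (nat_lit 3) (nat_lit 37) (nat_lit 1) (nat_lit 2) (nat_lit 6) true (nat_lit 7) true (nat_lit 12) true (nat_lit 0) true (nat_lit 17) true (nat_lit 16) (.s false (nat_lit 2) (nat_lit 34) (nat_lit 1) (nat_lit 6) (nat_lit 2) true (nat_lit 12) true (nat_lit 16) true (nat_lit 0) true (nat_lit 17) true (nat_lit 12) (.s true (nat_lit 2) (nat_lit 34) (nat_lit 1) (nat_lit 7) (nat_lit 1) true (nat_lit 14) true (nat_lit 17) true (nat_lit 0) true (nat_lit 17) true (nat_lit 11) dC2d_i112)))))))))))))))))))))))))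

noncomputable def dC2d_i114 : IL := (.s false (nat_lit 2) (nat_lit 20) (nat_lit 1) (nat_lit 12) (nat_lit 1) true (nat_lit 14) true (nat_lit 17) true (nat_lit 4) true (nat_lit 17) true (nat_lit 8) (.s true (nat_lit 1) (nat_lit 20) (nat_lit 1) (nat_lit 15) (nat_lit 0) true (nat_lit 15) true (nat_lit 18) true (nat_lit 4) true (nat_lit 17) true (nat_lit 7) (.s false (nat_lit 3) (nat_lit 20) (nat_lit 2) (nat_lit 1) (nat_lit 8) true (nat_lit 2) true (nat_lit 10) true (nat_lit 4) true (nat_lit 16) true (nat_lit 17) (.s false (nat_lit 3) (nat_lit 20) (nat_lit 4) (nat_lit 1) (nat_lit 5) true (nat_lit 2) true (nat_lit 13) true (nat_lit 4) true (nat_lit 14) true (nat_lit 17) (.s false (nat_lit 3) (nat_lit 20) (nat_lit 4) (nat_lit 3) (nat_lit 2) true (nat_lit 7) true (nat_lit 16) true (nat_lit 4) true (nat_lit 14) true (nat_lit 15) (.s false (nat_lit 3) (nat_lit 20) (nat_lit 5) (nat_lit 4) (nat_lit 1) true (nat_lit 8) true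 (nat_lit 17) true (nat_lit 4) true (nat_lit 13) true (nat_lit 14) (.s true (nat_lit 1) (nat_lit 20) (nat_lit 9) (nat_lit 2) (nat_lit 1) true (nat_lit 3) true (nat_lit 17) true (nat_lit 4) true (nat_lit 10) true (nat_lit 16) (.s true (nat_lit 1) (nat_lit 20) (nat_lit 11) (nat_lit 1) (nat_lit 1) true (nat_lit 2) true (nat_lit 17) true (nat_lit 4) true (nat_lit 8) true (nat_lit 17) (.s false (nat_lit 2) (nat_lit 20) (nat_lit 12) (nat_lit 1) (nat_lit 1) true (nat_lit 2) true (nat_lit 17) true (nat_lit 4) true (nat_lit 8) true (nat_lit 17) (.s false (nat_lit 1) (nat_lit 20) (nat_lit 13) (nat_lit 1) (nat_lit 1) true (nat_lit 2) true (nat_lit 17) true (nat_lit 4) true (nat_lit 8) true (nat_lit 17) (.s true (nat_lit 3) (nat_lit 20) (nat_lit 14) (nat_lit 0) (nat_lit 1) true (nat_lit 1) true (nat_lit 17) true (nat_lit 4) true (nat_lit 7) true (nat_lit 18) (.s true (nat_lit 2) (nat_lit 20) (nat_lit 14) (nat_lit 1) (nat_lit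 0) true (nat_lit 2) true (nat_lit 18) true (nat_lit 4) true (nat_lit 7) true (nat_lit 17) (.s false (nat_lit 3) (nat_lit 20) (nat_lit 15) (nat_lit 1) (nat_lit 0) true (nat_lit 2) true (nat_lit 18) true (nat_lit 4) true (nat_lit 7) true (nat_lit 17) (.s false (nat_lit 3) (nat_lit 21) (nat_lit 2) (nat_lit 2) (nat_lit 7) true (nat_lit 4) true (nat_lit 11) true (nat_lit 3) true (nat_lit 16) true (nat_lit 16) (.s false (nat_lit 2) (nat_lit 22) (nat_lit 2) (nat_lit 2) (nat_lit 7) true (nat_lit 4) true (nat_lit 11) true (nat_lit 3) true (nat_lit 16) true (nat_lit 16) (.s true (nat_lit 2) (nat_lit 23) (nat_lit 2) (nat_lit 2) (nat_lit 7) true (nat_lit 4) true (nat_lit 11) true (nat_lit 3) true (nat_lit 16) true (nat_lit 16) (.s false (nat_lit 1) (nat_lit 21) (nat_lit 2) (nat_lit 7) (nat_lit 2) true (nat_lit 11) true (nat_lit 16) true (nat_lit 3) true (nat_lit 16) true (nat_lit 11) (.s true (nat_lit 1) (nat_lit 22) (nat_lit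 2) (nat_lit 7) (nat_lit 2) true (nat_lit 11) true (nat_lit 16) true (nat_lit 3) true (nat_lit 16) true (nat_lit 11) (.s false (nat_lit 3) (nat_lit 23) (nat_lit 2) (nat_lit 7) (nat_lit 2) true (nat_lit 11) true (nat_lit 16) true (nat_lit 3) true (nat_lit 16) true (nat_lit 11) (.s true (nat_lit 3) (nat_lit 21) (nat_lit 7) (nat_lit 2) (nat_lit 2) true (nat_lit 4) true (nat_lit 16) true (nat_lit 3) true (nat_lit 11) true (nat_lit 16) (.s true (nat_lit 1) (nat_lit 22) (nat_lit 7) (nat_lit 2) (nat_lit 2) true (nat_lit 4) true (nat_lit 16) true (nat_lit 3) true (nat_lit 11) true (nat_lit 16) (.s true (nat_lit 1) (nat_lit 23) (nat_lit 7) (nat_lit 2) (nat_lit 2) true (nat_lit 4) true (nat_lit 16) true (nat_lit 3) true (nat_lit 11) true (nat_lit 16) (.s true (nat_lit 2) (nat_lit 24) (nat_lit 1) (nat_lit 2) (nat_lit 7) true (nat_lit 5) true (nat_lit 11) true (nat_lit 2) true (nat_lit 17) true (nat_lit 16) (.s true (nat_lit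 1) (nat_lit 25) (nat_lit 1) (nat_lit 2) (nat_lit 7) true (nat_lit 5) true (nat_lit 11) true (nat_lit 2) true (nat_lit 17) true (nat_lit 16) (.s true (nat_lit 2) (nat_lit 26) (nat_lit 1) (nat_lit 2) (nat_lit 7) true (nat_lit 5) true (nat_lit 11) true (nat_lit 2) true (nat_lit 17) true (nat_lit 16) dC2d_i113)))))))))))))))))))))))))

noncomputable def dC2d_i115 : IL := (.s true (nat_lit 3) (nat_lit 19) (nat_lit 1) (nat_lit 2) (nat_lit 11) true (nat_lit 2) true (nat_lit 8) true (nat_lit 5) true (nat_lit 17) true (nat_lit 16) (.s false (nat_lit 2) (nat_lit 19) (nat_lit 1) (nat_lit 7) (nat_lit 3) true (nat_lit 10) true (nat_lit 15) true (nat_lit 5) true (nat_lit 17) true (nat_lit 11) (.s true (nat_lit 3) (nat_lit 18) (nat_lit 1) (nat_lit 11) (nat_lit 2) true (nat_lit 12) true (nat_lit 16) true (nat_lit 5) true (nat_lit 17) true (nat_lit 8) (.s true (nat_lit 3) (nat_lit 18) (nat_lit 2) (nat_lit 8) (nat_lit 2) true (nat_lit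 11) true (nat_lit 16) true (nat_lit 5) true (nat_lit 16) true (nat_lit 10) (.s false (nat_lit 3) (nat_lit 18) (nat_lit 2) (nat_lit 9) (nat_lit 2) true (nat_lit 11) true (nat_lit 16) true (nat_lit 5) true (nat_lit 16) true (nat_lit 10) (.s true (nat_lit 1) (nat_lit 19) (nat_lit 2) (nat_lit 9) (nat_lit 2) true (nat_lit 11) true (nat_lit 16) true (nat_lit 5) true (nat_lit 16) true (nat_lit 10) (.s true (nat_lit 2) (nat_lit 18) (nat_lit 2) (nat_lit 11) (nat_lit 1) true (nat_lit 12) true (nat_lit 17) true (nat_lit 5) true (nat_lit 16) true (nat_lit 8) (.s true (nat_lit 2) (nat_lit 18) (nat_lit 2) (nat_lit 12) (nat_lit 1) true (nat_lit 12) true (nat_lit 17) true (nat_lit 5) true (nat_lit 16) true (nat_lit 8) (.s true (nat_lit 2) (nat_lit 19) (nat_lit 6) (nat_lit 2) (nat_lit 3) true (nat_lit 2) true (nat_lit 15) true (nat_lit 5) true (nat_lit 12) true (nat_lit 16) (.s false (nat_lit 3) (nat_lit 18) (nat_lit 7) (nat_lit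 3) (nat_lit 1) true (nat_lit 5) true (nat_lit 17) true (nat_lit 5) true (nat_lit 11) true (nat_lit 15) (.s false (nat_lit 3) (nat_lit 18) (nat_lit 9) (nat_lit 2) (nat_lit 2) true (nat_lit 2) true (nat_lit 16) true (nat_lit 5) true (nat_lit 10) true (nat_lit 16) (.s false (nat_lit 1) (nat_lit 19) (nat_lit 9) (nat_lit 2) (nat_lit 2) true (nat_lit 2) true (nat_lit 16) true (nat_lit 5) true (nat_lit 10) true (nat_lit 16) (.s true (nat_lit 1) (nat_lit 18) (nat_lit 13) (nat_lit 1) (nat_lit 2) true (nat_lit 0) true (nat_lit 16) true (nat_lit 5) true (nat_lit 8) true (nat_lit 17) (.s false (nat_lit 3) (nat_lit 19) (nat_lit 11) (nat_lit 1) (nat_lit 2) true (nat_lit 0) true (nat_lit 16) true (nat_lit 5) true (nat_lit 8) true (nat_lit 17) (.s true (nat_lit 1) (nat_lit 20) (nat_lit 0) (nat_lit 1) (nat_lit 15) true (nat_lit 2) true (nat_lit 7) true (nat_lit 4) true (nat_lit 18) true (nat_lit 17) (.s true (nat_lit 2) (nat_lit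 20) (nat_lit 0) (nat_lit 2) (nat_lit 10) true (nat_lit 3) true (nat_lit 9) true (nat_lit 4) true (nat_lit 18) true (nat_lit 16) (.s true (nat_lit 1) (nat_lit 20) (nat_lit 0) (nat_lit 10) (nat_lit 2) true (nat_lit 13) true (nat_lit 16) true (nat_lit 4) true (nat_lit 18) true (nat_lit 9) (.s true (nat_lit 3) (nat_lit 20) (nat_lit 0) (nat_lit 14) (nat_lit 1) true (nat_lit 15) true (nat_lit 17) true (nat_lit 4) true (nat_lit 18) true (nat_lit 7) (.s false (nat_lit 3) (nat_lit 20) (nat_lit 1) (nat_lit 0) (nat_lit 14) true (nat_lit 1) true (nat_lit 7) true (nat_lit 4) true (nat_lit 17) true (nat_lit 18) (.s true (nat_lit 1) (nat_lit 20) (nat_lit 1) (nat_lit 1) (nat_lit 12) true (nat_lit 2) true (nat_lit 8) true (nat_lit 4) true (nat_lit 17) true (nat_lit 17) (.s true (nat_lit 3) (nat_lit 20) (nat_lit 1) (nat_lit 1) (nat_lit 13) true (nat_lit 2) true (nat_lit 8) true (nat_lit 4) true (nat_lit 17) true (nat_lit 17) (.s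 true (nat_lit 2) (nat_lit 20) (nat_lit 1) (nat_lit 3) (nat_lit 6) true (nat_lit 7) true (nat_lit 12) true (nat_lit 4) true (nat_lit 17) true (nat_lit 15) (.s false (nat_lit 2) (nat_lit 20) (nat_lit 1) (nat_lit 6) (nat_lit 3) true (nat_lit 10) true (nat_lit 15) true (nat_lit 4) true (nat_lit 17) true (nat_lit 12) (.s true (nat_lit 2) (nat_lit 20) (nat_lit 1) (nat_lit 8) (nat_lit 2) true (nat_lit 12) true (nat_lit 16) true (nat_lit 4) true (nat_lit 17) true (nat_lit 10) (.s false (nat_lit 2) (nat_lit 20) (nat_lit 1) (nat_lit 11) (nat_lit 1) true (nat_lit 14) true (nat_lit 17) true (nat_lit 4) true (nat_lit 17) true (nat_lit 8) dC2d_i114)))))))))))))))))))))))))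

noncomputable def dC2d_i116 : IL := (.s true (nat_lit 3) (nat_lit 9) (nat_lit 7) (nat_lit 1) (nat_lit 7) false (nat_lit 3) true (nat_lit 11) true (nat_lit 10) true (nat_lit 11) true (nat_lit 17) (.s false (nat_lit 1) (nat_lit 9) (nat_lit 7) (nat_lit 2) (nat_lit 6) false (nat_lit 2) true (nat_lit 12) true (nat_lit 10) true (nat_lit 11) true (nat_lit 16) (.s false (nat_lit 1) (nat_lit 8) (nat_lit 7) (nat_lit 6) (nat_lit 2) true (nat_lit 4) true (nat_lit 16) true (nat_lit 10) true (nat_lit 11) true (nat_lit 12) (.s true (nat_lit 2) (nat_lit 10) (nat_lit 2) (nat_lit 5) (nat_lit 7) true (nat_lit 4) true (nat_lit 11) true (nat_lit 9) true (nat_lit 16) true (nat_lit 13) (.s true (nat_lit 2) (nat_lit 10) (nat_lit 7) (nat_lit 0) (nat_lit 7) false (nat_lit 3) true (nat_lit 11) true (nat_lit 9) true (nat_lit 11) true (nat_lit 18) (.s false (nat_lit 1) (nat_lit 10) (nat_lit 7) (nat_lit 5) (nat_lit 2) true (nat_lit 4) true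 (nat_lit 16) true (nat_lit 9) true (nat_lit 11) true (nat_lit 13) (.s true (nat_lit 2) (nat_lit 10) (nat_lit 7) (nat_lit 7) (nat_lit 0) true (nat_lit 6) true (nat_lit 18) true (nat_lit 9) true (nat_lit 11) true (nat_lit 11) (.s false (nat_lit 2) (nat_lit 11) (nat_lit 1) (nat_lit 6) (nat_lit 7) true (nat_lit 5) true (nat_lit 11) true (nat_lit 8) true (nat_lit 17) true (nat_lit 12) (.s true (nat_lit 1) (nat_lit 11) (nat_lit 1) (nat_lit 7) (nat_lit 6) true (nat_lit 7) true (nat_lit 12) true (nat_lit 8) true (nat_lit 17) true (nat_lit 11) (.s true (nat_lit 3) (nat_lit 12) (nat_lit 6) (nat_lit 6) (nat_lit 2) true (nat_lit 5) true (nat_lit 16) true (nat_lit 8) true (nat_lit 12) true (nat_lit 12) (.s true (nat_lit 2) (nat_lit 12) (nat_lit 7) (nat_lit 2) (nat_lit 4) false (nat_lit 0) true (nat_lit 14) true (nat_lit 8) true (nat_lit 11) true (nat_lit 16) (.s false (nat_lit 1) (nat_lit 14) (nat_lit 2) (nat_lit 2) (nat_lit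 11) true (nat_lit 0) true (nat_lit 8) true (nat_lit 7) true (nat_lit 16) true (nat_lit 16) (.s true (nat_lit 2) (nat_lit 14) (nat_lit 2) (nat_lit 2) (nat_lit 12) true (nat_lit 0) true (nat_lit 8) true (nat_lit 7) true (nat_lit 16) true (nat_lit 16) (.s false (nat_lit 1) (nat_lit 15) (nat_lit 2) (nat_lit 2) (nat_lit 11) true (nat_lit 0) true (nat_lit 8) true (nat_lit 7) true (nat_lit 16) true (nat_lit 16) (.s true (nat_lit 2) (nat_lit 15) (nat_lit 2) (nat_lit 7) (nat_lit 3) true (nat_lit 8) true (nat_lit 15) true (nat_lit 7) true (nat_lit 16) true (nat_lit 11) (.s true (nat_lit 2) (nat_lit 14) (nat_lit 2) (nat_lit 12) (nat_lit 2) true (nat_lit 11) true (nat_lit 16) true (nat_lit 7) true (nat_lit 16) true (nat_lit 8) (.s true (nat_lit 2) (nat_lit 14) (nat_lit 3) (nat_lit 7) (nat_lit 2) true (nat_lit 8) true (nat_lit 16) true (nat_lit 7) true (nat_lit 15) true (nat_lit 11) (.s false (nat_lit 3) (nat_lit 17) (nat_lit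 1) (nat_lit 2) (nat_lit 14) true (nat_lit 1) true (nat_lit 7) true (nat_lit 6) true (nat_lit 17) true (nat_lit 16) (.s false (nat_lit 1) (nat_lit 18) (nat_lit 0) (nat_lit 1) (nat_lit 18) true (nat_lit 0) true (nat_lit 5) true (nat_lit 5) true (nat_lit 18) true (nat_lit 17) (.s false (nat_lit 1) (nat_lit 18) (nat_lit 0) (nat_lit 1) (nat_lit 19) true (nat_lit 0) true (nat_lit 5) true (nat_lit 5) true (nat_lit 18) true (nat_lit 17) (.s false (nat_lit 2) (nat_lit 18) (nat_lit 0) (nat_lit 18) (nat_lit 1) true (nat_lit 15) true (nat_lit 17) true (nat_lit 5) true (nat_lit 18) true (nat_lit 5) (.s false (nat_lit 3) (nat_lit 19) (nat_lit 0) (nat_lit 19) (nat_lit 1) true (nat_lit 15) true (nat_lit 17) true (nat_lit 5) true (nat_lit 18) true (nat_lit 5) (.s true (nat_lit 1) (nat_lit 18) (nat_lit 1) (nat_lit 0) (nat_lit 18) false (nat_lit 0) true (nat_lit 5) true (nat_lit 5) true (nat_lit 17) true (nat_lit 18) (.s true (nat_lit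 1) (nat_lit 18) (nat_lit 1) (nat_lit 2) (nat_lit 11) true (nat_lit 2) true (nat_lit 8) true (nat_lit 5) true (nat_lit 17) true (nat_lit 16) (.s false (nat_lit 1) (nat_lit 18) (nat_lit 1) (nat_lit 2) (nat_lit 12) true (nat_lit 2) true (nat_lit 8) true (nat_lit 5) true (nat_lit 17) true (nat_lit 16) dC2d_i115)))))))))))))))))))))))))

noncomputable def dC2d_i117 : IL := (.e false (nat_lit 2) (nat_lit 256) (nat_lit 1) (nat_lit 17) (.e true (nat_lit 2) (nat_lit 257) (nat_lit 1) (nat_lit 17) (.e true (nat_lit 3) (nat_lit 259) (nat_lit 1) (nat_lit 17) (.e false (nat_lit 3) (nat_lit 260) (nat_lit 1) (nat_lit 17) (.e true (nat_lit 1) (nat_lit 282) (nat_lit 1) (nat_lit 17) (.e false (nat_lit 2) (nat_lit 280) (nat_lit 1) (nat_lit 17) (.e true (nat_lit 1) (nat_lit 300) (nat_lit 0) (nat_lit 18) (.e false (nat_lit 1) (nat_lit 301) (nat_lit 0) (nat_lit 18) (.e false (nat_lit 2) (nat_lit 289) (nat_lit 0) (nat_lit 18) (.e false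 (nat_lit 2) (nat_lit 293) (nat_lit 0) (nat_lit 18) (.e true (nat_lit 3) (nat_lit 296) (nat_lit 0) (nat_lit 18) (.e false (nat_lit 3) (nat_lit 297) (nat_lit 0) (nat_lit 18) (.e false (nat_lit 1) (nat_lit 294) (nat_lit 0) (nat_lit 18) (.e false (nat_lit 2) (nat_lit 295) (nat_lit 0) (nat_lit 18) (.e false (nat_lit 2) (nat_lit 275) (nat_lit 1) (nat_lit 17) (.e false (nat_lit 1) (nat_lit 279) (nat_lit 1) (nat_lit 17) (.e false (nat_lit 2) (nat_lit 292) (nat_lit 0) (nat_lit 18) (.e false (nat_lit 2) (nat_lit 303) (nat_lit 0) (nat_lit 18) (.e false (nat_lit 2) (nat_lit 299) (nat_lit 0) (nat_lit 18) (.e false (nat_lit 3) (nat_lit 170) (nat_lit 4) (nat_lit 14) (.u (nat_lit 2) (.p (nat_lit 0) (nat_lit 3) (.p (nat_lit 1) (nat_lit 1) (.n (nat_lit 2) (nat_lit 4) (.p (nat_lit 3) (nat_lit 3) (.p (nat_lit 4) (nat_lit 2) (.p (nat_lit 5) (nat_lit 1) (.p (nat_lit 6) (nat_lit 1) (.n (nat_lit 7) (nat_lit 1) (.p (nat_lit 8) (nat_lit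 2) (.p (nat_lit 9) (nat_lit 3) (.p (nat_lit 10) (nat_lit 2) (.p (nat_lit 11) (nat_lit 2) (.p (nat_lit 12) (nat_lit 2) (.p (nat_lit 14) (nat_lit 2) (.n (nat_lit 15) (nat_lit 1) (.n (nat_lit 19) (nat_lit 3) (.p (nat_lit 20) (nat_lit 1) (.n (nat_lit 21) (nat_lit 4) (.p (nat_lit 22) (nat_lit 4) (.p (nat_lit 23) (nat_lit 2) (.p (nat_lit 24) (nat_lit 2) (.p (nat_lit 25) (nat_lit 2) (.p (nat_lit 27) (nat_lit 1) (.n (nat_lit 28) (nat_lit 1) (.n (nat_lit 29) (nat_lit 3) (.p (nat_lit 31) (nat_lit 5) (.n (nat_lit 32) (nat_lit 3) (.n (nat_lit 33) (nat_lit 4) (.p (nat_lit 34) (nat_lit 1) (.n (nat_lit 35) (nat_lit 4) (.p (nat_lit 36) (nat_lit 3) (.p (nat_lit 37) (nat_lit 1) (.p (nat_lit 38) (nat_lit 4) (.p (nat_lit 39) (nat_lit 2) (.p (nat_lit 41) (nat_lit 1) (.n (nat_lit 45) (nat_lit 2) (.p (nat_lit 46) (nat_lit 1) (.n (nat_lit 47) (nat_lit 2) (.p (nat_lit 48) (nat_lit 1) (.n (nat_lit 57) (nat_lit 1) (.p (nat_lit 64) (nat_lit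 1) (.p (nat_lit 66) (nat_lit 1) (.n (nat_lit 67) (nat_lit 1) (.n (nat_lit 72) (nat_lit 1) (.p (nat_lit 73) (nat_lit 1) (.p (nat_lit 79) (nat_lit 1) (.n (nat_lit 82) (nat_lit 1) (.n (nat_lit 89) (nat_lit 2) (.p (nat_lit 91) (nat_lit 1) (.p (nat_lit 93) (nat_lit 1) (.n (nat_lit 94) (nat_lit 1) (.n (nat_lit 96) (nat_lit 1) (.p (nat_lit 97) (nat_lit 1) (.n (nat_lit 104) (nat_lit 1) (.p (nat_lit 108) (nat_lit 1) (.n (nat_lit 111) (nat_lit 1) (.n (nat_lit 112) (nat_lit 1) (.n (nat_lit 113) (nat_lit 1) (.p (nat_lit 114) (nat_lit 1) (.p (nat_lit 115) (nat_lit 2) .z)))))))))))))))))))))))))))))))))))))))))))))))))))))))))))) (.u (nat_lit 2) (.n (nat_lit 116) (nat_lit 1) (.p (nat_lit 118) (nat_lit 1) (.n (nat_lit 120) (nat_lit 1) (.p (nat_lit 123) (nat_lit 1) (.p (nat_lit 126) (nat_lit 1) (.p (nat_lit 129) (nat_lit 1) (.p (nat_lit 130) (nat_lit 1) (.p (nat_lit 132) (nat_lit 1) (.p (nat_lit 133) (nat_lit 1) (.n (nat_lit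 135) (nat_lit 1) (.p (nat_lit 136) (nat_lit 1) (.n (nat_lit 137) (nat_lit 1) (.p (nat_lit 142) (nat_lit 1) (.p (nat_lit 151) (nat_lit 1) (.n (nat_lit 153) (nat_lit 1) (.p (nat_lit 155) (nat_lit 1) (.p (nat_lit 160) (nat_lit 1) (.p (nat_lit 164) (nat_lit 1) (.n (nat_lit 169) (nat_lit 1) (.p (nat_lit 173) (nat_lit 1) (.n (nat_lit 175) (nat_lit 1) (.p (nat_lit 183) (nat_lit 1) (.n (nat_lit 185) (nat_lit 1) (.p (nat_lit 186) (nat_lit 1) (.p (nat_lit 187) (nat_lit 1) (.n (nat_lit 188) (nat_lit 1) (.p (nat_lit 191) (nat_lit 1) (.p (nat_lit 196) (nat_lit 1) (.p (nat_lit 202) (nat_lit 1) (.n (nat_lit 204) (nat_lit 1) (.n (nat_lit 210) (nat_lit 1) (.p (nat_lit 211) (nat_lit 1) (.p (nat_lit 213) (nat_lit 3) (.p (nat_lit 214) (nat_lit 1) (.p (nat_lit 215) (nat_lit 2) (.p (nat_lit 216) (nat_lit 2) (.n (nat_lit 217) (nat_lit 4) (.p (nat_lit 218) (nat_lit 1) (.p (nat_lit 219) (nat_lit 2) (.n (nat_lit 220) (nat_lit 2) (.n (nat_lit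 221) (nat_lit 3) (.p (nat_lit 222) (nat_lit 2) (.p (nat_lit 223) (nat_lit 6) (.n (nat_lit 224) (nat_lit 2) (.p (nat_lit 226) (nat_lit 4) (.n (nat_lit 229) (nat_lit 5) (.n (nat_lit 230) (nat_lit 6) (.p (nat_lit 233) (nat_lit 2) (.n (nat_lit 234) (nat_lit 4) (.n (nat_lit 235) (nat_lit 3) (.p (nat_lit 236) (nat_lit 1) (.p (nat_lit 238) (nat_lit 1) (.n (nat_lit 239) (nat_lit 2) (.n (nat_lit 241) (nat_lit 3) (.p (nat_lit 242) (nat_lit 4) (.n (nat_lit 243) (nat_lit 1) (.n (nat_lit 244) (nat_lit 2) (.p (nat_lit 245) (nat_lit 1) (.p (nat_lit 246) (nat_lit 3) (.n (nat_lit 247) (nat_lit 3) .z)))))))))))))))))))))))))))))))))))))))))))))))))))))))))))) (.u (nat_lit 2) (.n (nat_lit 249) (nat_lit 1) (.n (nat_lit 250) (nat_lit 1) (.p (nat_lit 251) (nat_lit 1) (.p (nat_lit 252) (nat_lit 2) (.n (nat_lit 254) (nat_lit 3) (.p (nat_lit 256) (nat_lit 5) (.n (nat_lit 259) (nat_lit 1) (.n (nat_lit 260) (nat_lit 2) (.p (nat_lit 261)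 (nat_lit 2) (.p (nat_lit 262) (nat_lit 7) (.n (nat_lit 263) (nat_lit 1) (.p (nat_lit 264) (nat_lit 1) (.n (nat_lit 265) (nat_lit 1) (.n (nat_lit 266) (nat_lit 1) (.n (nat_lit 267) (nat_lit 2) (.p (nat_lit 268) (nat_lit 1) (.p (nat_lit 269) (nat_lit 3) (.n (nat_lit 270) (nat_lit 2) (.n (nat_lit 272) (nat_lit 1) (.n (nat_lit 274) (nat_lit 1) (.n (nat_lit 278) (nat_lit 1) (.n (nat_lit 279) (nat_lit 1) (.n (nat_lit 281) (nat_lit 1) (.p (nat_lit 284) (nat_lit 1) (.p (nat_lit 293) (nat_lit 2) (.n (nat_lit 294) (nat_lit 1) (.n (nat_lit 298) (nat_lit 1) (.p (nat_lit 300) (nat_lit 1) (.p (nat_lit 301) (nat_lit 1) (.p (nat_lit 302) (nat_lit 3) (.p (nat_lit 303) (nat_lit 5) (.p (nat_lit 304) (nat_lit 15) (.n (nat_lit 305) (nat_lit 1) (.n (nat_lit 306) (nat_lit 11) (.n (nat_lit 307) (nat_lit 12) (.n (nat_lit 308) (nat_lit 13) (.n (nat_lit 309) (nat_lit 6) (.p (nat_lit 310) (nat_lit 8) (.p (nat_lit 311) (nat_lit 20) (.n (nat_lit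 312) (nat_lit 9) (.n (nat_lit 313) (nat_lit 6) (.p (nat_lit 314) (nat_lit 4) (.p (nat_lit 315) (nat_lit 4) (.p (nat_lit 316) (nat_lit 10) (.p (nat_lit 317) (nat_lit 6) (.n (nat_lit 318) (nat_lit 23) (.n (nat_lit 319) (nat_lit 5) (.n (nat_lit 320) (nat_lit 2) (.n (nat_lit 321) (nat_lit 2) (.p (nat_lit 322) (nat_lit 11) (.p (nat_lit 323) (nat_lit 3) (.n (nat_lit 324) (nat_lit 1) (.p (nat_lit 325) (nat_lit 17) (.n (nat_lit 326) (nat_lit 19) (.n (nat_lit 327) (nat_lit 29) (.n (nat_lit 328) (nat_lit 18) (.n (nat_lit 329) (nat_lit 1) (.p (nat_lit 330) (nat_lit 3) (.n (nat_lit 331) (nat_lit 6) (.n (nat_lit 332) (nat_lit 7) .z)))))))))))))))))))))))))))))))))))))))))))))))))))))))))))) (.u (nat_lit 2) (.p (nat_lit 334) (nat_lit 2) (.p (nat_lit 335) (nat_lit 3) (.n (nat_lit 336) (nat_lit 14) (.n (nat_lit 337) (nat_lit 4) (.p (nat_lit 338) (nat_lit 2) (.p (nat_lit 339) (nat_lit 9) (.n (nat_lit 340) (nat_lit 23) (.p (nat_lit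 341) (nat_lit 4) (.p (nat_lit 342) (nat_lit 1) (.p (nat_lit 343) (nat_lit 6) (.p (nat_lit 344) (nat_lit 4) (.p (nat_lit 345) (nat_lit 11) (.n (nat_lit 346) (nat_lit 1) (.p (nat_lit 347) (nat_lit 4) (.p (nat_lit 348) (nat_lit 24) (.p (nat_lit 350) (nat_lit 4) (.n (nat_lit 351) (nat_lit 22) (.n (nat_lit 352) (nat_lit 11) (.n (nat_lit 353) (nat_lit 8) (.p (nat_lit 354) (nat_lit 9) (.p (nat_lit 355) (nat_lit 17) (.p (nat_lit 356) (nat_lit 9) (.n (nat_lit 357) (nat_lit 19) (.p (nat_lit 358) (nat_lit 22) (.p (nat_lit 359) (nat_lit 15) (.n (nat_lit 360) (nat_lit 18) (.p (nat_lit 361) (nat_lit 4) (.n (nat_lit 362) (nat_lit 16) (.p (nat_lit 363) (nat_lit 6) (.n (nat_lit 364) (nat_lit 8) (.p (nat_lit 366) (nat_lit 8) (.n (nat_lit 367) (nat_lit 25) (.p (nat_lit 368) (nat_lit 7) (.n (nat_lit 369) (nat_lit 23) (.p (nat_lit 370) (nat_lit 8) (.n (nat_lit 371) (nat_lit 21) (.n (nat_lit 372) (nat_lit 8) (.n (nat_lit 373) (nat_lit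 7) (.n (nat_lit 374) (nat_lit 14) (.n (nat_lit 375) (nat_lit 9) (.n (nat_lit 376) (nat_lit 12) (.p (nat_lit 377) (nat_lit 8) (.p (nat_lit 378) (nat_lit 1) (.p (nat_lit 379) (nat_lit 2) (.n (nat_lit 380) (nat_lit 7) (.p (nat_lit 382) (nat_lit 9) (.n (nat_lit 383) (nat_lit 5) (.n (nat_lit 384) (nat_lit 8) (.p (nat_lit 385) (nat_lit 3) (.n (nat_lit 386) (nat_lit 5) (.n (nat_lit 387) (nat_lit 3) (.n (nat_lit 388) (nat_lit 2) (.n (nat_lit 389) (nat_lit 5) (.p (nat_lit 390) (nat_lit 6) (.p (nat_lit 391) (nat_lit 1) (.n (nat_lit 392) (nat_lit 2) (.n (nat_lit 393) (nat_lit 1) (.n (nat_lit 394) (nat_lit 3) (.p (nat_lit 395) (nat_lit 2) (.n (nat_lit 396) (nat_lit 1) .z)))))))))))))))))))))))))))))))))))))))))))))))))))))))))))) (.u (nat_lit 2) (.n (nat_lit 397) (nat_lit 1) (.p (nat_lit 398) (nat_lit 2) (.p (nat_lit 399) (nat_lit 1) (.n (nat_lit 400) (nat_lit 6) (.p (nat_lit 401) (nat_lit 5) .z))))) .nil)))))))))))))))))))))))))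

noncomputable def dC2d_i118 : IL := (.e true (nat_lit 1) (nat_lit 270) (nat_lit 1) (nat_lit 17) (.e true (nat_lit 1) (nat_lit 271) (nat_lit 1) (nat_lit 17) (.e true (nat_lit 3) (nat_lit 272) (nat_lit 1) (nat_lit 17) (.e true (nat_lit 1) (nat_lit 273) (nat_lit 1) (nat_lit 17) (.e false (nat_lit 1) (nat_lit 276) (nat_lit 1) (nat_lit 17) (.e true (nat_lit 2) (nat_lit 277) (nat_lit 1) (nat_lit 17) (.e false (nat_lit 2) (nat_lit 255) (nat_lit 1) (nat_lit 17) (.e true (nat_lit 2) (nat_lit 262) (nat_lit 1) (nat_lit 17) (.e false (nat_lit 2) (nat_lit 264) (nat_lit 1) (nat_lit 17) (.e true (nat_lit 2) (nat_lit 266) (nat_lit 1) (nat_lit 17) (.e false (nat_lit 1) (nat_lit 208) (nat_lit 2) (nat_lit 16) (.e false (nat_lit 3) (nat_lit 227) (nat_lit 2) (nat_lit 16) (.e false (nat_lit 1) (nat_lit 298) (nat_lit 0) (nat_lit 18) (.e false (nat_lit 3) (nat_lit 274) (nat_lit 1) (nat_lit 17) (.e true (nat_lit 1) (nat_lit 278) (nat_lit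 1) (nat_lit 17) (.e true (nat_lit 3) (nat_lit 138) (nat_lit 6) (nat_lit 12) (.e false (nat_lit 1) (nat_lit 206) (nat_lit 2) (nat_lit 16) (.e true (nat_lit 1) (nat_lit 234) (nat_lit 2) (nat_lit 16) (.e true (nat_lit 1) (nat_lit 229) (nat_lit 2) (nat_lit 16) (.e true (nat_lit 1) (nat_lit 230) (nat_lit 2) (nat_lit 16) (.e true (nat_lit 3) (nat_lit 209) (nat_lit 2) (nat_lit 16) (.e false (nat_lit 1) (nat_lit 210) (nat_lit 2) (nat_lit 16) (.e false (nat_lit 1) (nat_lit 211) (nat_lit 2) (nat_lit 16) (.e false (nat_lit 3) (nat_lit 235) (nat_lit 2) (nat_lit 16) (.e true (nat_lit 3) (nat_lit 155) (nat_lit 6) (nat_lit 12) dC2d_i117)))))))))))))))))))))))))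

noncomputable def dC2d_i119 : IL := (.s false (nat_lit 3) (nat_lit 88) (nat_lit 1) (nat_lit 2) (nat_lit 1) true (nat_lit 14) true (nat_lit 17) false (nat_lit 7) true (nat_lit 17) true (nat_lit 16) (.s true (nat_lit 2) (nat_lit 80) (nat_lit 2) (nat_lit 1) (nat_lit 1) true (nat_lit 12) true (nat_lit 17) false (nat_lit 7) true (nat_lit 16) true (nat_lit 17) (.s false (nat_lit 2) (nat_lit 81) (nat_lit 2) (nat_lit 1) (nat_lit 1) true (nat_lit 12) true (nat_lit 17) false (nat_lit 7) true (nat_lit 16) true (nat_lit 17) (.s true (nat_lit 3) (nat_lit 83) (nat_lit 2) (nat_lit 1) (nat_lit 1) true (nat_lit 12) true (nat_lit 17) false (nat_lit 7) true (nat_lit 16) true (nat_lit 17) (.s true (nat_lit 1) (nat_lit 88) (nat_lit 2) (nat_lit 1) (nat_lit 1) true (nat_lit 12) true (nat_lit 17) false (nat_lit 7) true (nat_lit 16) true (nat_lit 17) (.s true (nat_lit 3) (nat_lit 89) (nat_lit 2) (nat_lit 1) (nat_lit 1) true (nat_lit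 12) true (nat_lit 17) false (nat_lit 7) true (nat_lit 16) true (nat_lit 17) (.s false (nat_lit 2) (nat_lit 92) (nat_lit 0) (nat_lit 1) (nat_lit 2) true (nat_lit 13) true (nat_lit 16) false (nat_lit 8) true (nat_lit 18) true (nat_lit 17) (.s true (nat_lit 3) (nat_lit 92) (nat_lit 1) (nat_lit 0) (nat_lit 2) true (nat_lit 12) true (nat_lit 16) false (nat_lit 8) true (nat_lit 17) true (nat_lit 18) (.s true (nat_lit 3) (nat_lit 92) (nat_lit 1) (nat_lit 2) (nat_lit 0) true (nat_lit 15) true (nat_lit 18) false (nat_lit 8) true (nat_lit 17) true (nat_lit 16) (.s true (nat_lit 2) (nat_lit 92) (nat_lit 2) (nat_lit 1) (nat_lit 0) true (nat_lit 13) true (nat_lit 18) false (nat_lit 8) true (nat_lit 16) true (nat_lit 17) (.s false (nat_lit 3) (nat_lit 93) (nat_lit 2) (nat_lit 1) (nat_lit 0) true (nat_lit 13) true (nat_lit 18) false (nat_lit 8) true (nat_lit 16) true (nat_lit 17) (.s true (nat_lit 1) (nat_lit 94) (nat_lit 2)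 (nat_lit 1) (nat_lit 0) true (nat_lit 13) true (nat_lit 18) false (nat_lit 8) true (nat_lit 16) true (nat_lit 17) (.s true (nat_lit 1) (nat_lit 101) (nat_lit 0) (nat_lit 1) (nat_lit 1) true (nat_lit 15) true (nat_lit 17) false (nat_lit 10) true (nat_lit 18) true (nat_lit 17) (.s false (nat_lit 3) (nat_lit 102) (nat_lit 0) (nat_lit 1) (nat_lit 1) true (nat_lit 15) true (nat_lit 17) false (nat_lit 10) true (nat_lit 18) true (nat_lit 17) (.s true (nat_lit 1) (nat_lit 103) (nat_lit 0) (nat_lit 1) (nat_lit 1) true (nat_lit 15) true (nat_lit 17) false (nat_lit 10) true (nat_lit 18) true (nat_lit 17) (.s false (nat_lit 3) (nat_lit 104) (nat_lit 0) (nat_lit 1) (nat_lit 1) true (nat_lit 15) true (nat_lit 17) false (nat_lit 10) true (nat_lit 18) true (nat_lit 17) (.s true (nat_lit 1) (nat_lit 101) (nat_lit 1) (nat_lit 1) (nat_lit 0) true (nat_lit 15) true (nat_lit 18) false (nat_lit 10) true (nat_lit 17) true (nat_lit 17)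 (.s false (nat_lit 3) (nat_lit 102) (nat_lit 1) (nat_lit 1) (nat_lit 0) true (nat_lit 15) true (nat_lit 18) false (nat_lit 10) true (nat_lit 17) true (nat_lit 17) (.s false (nat_lit 1) (nat_lit 103) (nat_lit 1) (nat_lit 1) (nat_lit 0) true (nat_lit 15) true (nat_lit 18) false (nat_lit 10) true (nat_lit 17) true (nat_lit 17) (.s false (nat_lit 2) (nat_lit 104) (nat_lit 1) (nat_lit 1) (nat_lit 0) true (nat_lit 15) true (nat_lit 18) false (nat_lit 10) true (nat_lit 17) true (nat_lit 17) (.e false (nat_lit 2) (nat_lit 252) (nat_lit 1) (nat_lit 17) (.e true (nat_lit 3) (nat_lit 263) (nat_lit 1) (nat_lit 17) (.e false (nat_lit 3) (nat_lit 265) (nat_lit 1) (nat_lit 17) (.e false (nat_lit 2) (nat_lit 267) (nat_lit 1) (nat_lit 17) (.e true (nat_lit 1) (nat_lit 269) (nat_lit 1) (nat_lit 17) dC2d_i118)))))))))))))))))))))))))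

noncomputable def dC2d_i120 : IL := (.s false (nat_lit 2) (nat_lit 63) (nat_lit 2) (nat_lit 2) (nat_lit 1) true (nat_lit 12) true (nat_lit 17) false (nat_lit 5) true (nat_lit 16) true (nat_lit 16) (.s false (nat_lit 2) (nat_lit 64) (nat_lit 2) (nat_lit 2) (nat_lit 1) true (nat_lit 12) true (nat_lit 17) false (nat_lit 5) true (nat_lit 16) true (nat_lit 16) (.s true (nat_lit 3) (nat_lit 65) (nat_lit 2) (nat_lit 2) (nat_lit 1) true (nat_lit 12) true (nat_lit 17) false (nat_lit 5) true (nat_lit 16) true (nat_lit 16) (.s true (nat_lit 3) (nat_lit 67) (nat_lit 2) (nat_lit 2) (nat_lit 1) true (nat_lit 12) true (nat_lit 17) false (nat_lit 5) true (nat_lit 16) true (nat_lit 16) (.s true (nat_lit 1) (nat_lit 68) (nat_lit 2) (nat_lit 2) (nat_lit 1) true (nat_lit 12) true (nat_lit 17) false (nat_lit 5) true (nat_lit 16) true (nat_lit 16) (.s true (nat_lit 1) (nat_lit 70) (nat_lit 2) (nat_lit 2) (nat_lit 1) true (nat_lit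 12) true (nat_lit 17) false (nat_lit 5) true (nat_lit 16) true (nat_lit 16) (.s true (nat_lit 2) (nat_lit 73) (nat_lit 2) (nat_lit 2) (nat_lit 1) true (nat_lit 12) true (nat_lit 17) false (nat_lit 5) true (nat_lit 16) true (nat_lit 16) (.s true (nat_lit 1) (nat_lit 75) (nat_lit 0) (nat_lit 2) (nat_lit 2) true (nat_lit 13) true (nat_lit 16) false (nat_lit 6) true (nat_lit 18) true (nat_lit 16) (.s false (nat_lit 2) (nat_lit 76) (nat_lit 0) (nat_lit 2) (nat_lit 2) true (nat_lit 13) true (nat_lit 16) false (nat_lit 6) true (nat_lit 18) true (nat_lit 16) (.s false (nat_lit 1) (nat_lit 77) (nat_lit 0) (nat_lit 2) (nat_lit 2) true (nat_lit 13) true (nat_lit 16) false (nat_lit 6) true (nat_lit 18) true (nat_lit 16) (.s true (nat_lit 2) (nat_lit 78) (nat_lit 0) (nat_lit 2) (nat_lit 2) true (nat_lit 13) true (nat_lit 16) false (nat_lit 6) true (nat_lit 18) true (nat_lit 16) (.s false (nat_lit 1) (nat_lit 79) (nat_lit 0)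 (nat_lit 2) (nat_lit 2) true (nat_lit 13) true (nat_lit 16) false (nat_lit 6) true (nat_lit 18) true (nat_lit 16) (.s false (nat_lit 2) (nat_lit 79) (nat_lit 2) (nat_lit 0) (nat_lit 2) true (nat_lit 11) true (nat_lit 16) false (nat_lit 6) true (nat_lit 16) true (nat_lit 18) (.s true (nat_lit 1) (nat_lit 74) (nat_lit 2) (nat_lit 2) (nat_lit 0) true (nat_lit 13) true (nat_lit 18) false (nat_lit 6) true (nat_lit 16) true (nat_lit 16) (.s true (nat_lit 3) (nat_lit 77) (nat_lit 2) (nat_lit 2) (nat_lit 0) true (nat_lit 13) true (nat_lit 18) false (nat_lit 6) true (nat_lit 16) true (nat_lit 16) (.s true (nat_lit 1) (nat_lit 79) (nat_lit 2) (nat_lit 2) (nat_lit 0) true (nat_lit 13) true (nat_lit 18) false (nat_lit 6) true (nat_lit 16) true (nat_lit 16) (.s true (nat_lit 2) (nat_lit 81) (nat_lit 1) (nat_lit 1) (nat_lit 2) true (nat_lit 12) true (nat_lit 16) false (nat_lit 7) true (nat_lit 17) true (nat_lit 17) (.s true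 (nat_lit 3) (nat_lit 83) (nat_lit 1) (nat_lit 1) (nat_lit 2) true (nat_lit 12) true (nat_lit 16) false (nat_lit 7) true (nat_lit 17) true (nat_lit 17) (.s false (nat_lit 2) (nat_lit 88) (nat_lit 1) (nat_lit 1) (nat_lit 2) true (nat_lit 12) true (nat_lit 16) false (nat_lit 7) true (nat_lit 17) true (nat_lit 17) (.s false (nat_lit 3) (nat_lit 89) (nat_lit 1) (nat_lit 1) (nat_lit 2) true (nat_lit 12) true (nat_lit 16) false (nat_lit 7) true (nat_lit 17) true (nat_lit 17) (.s true (nat_lit 3) (nat_lit 81) (nat_lit 1) (nat_lit 2) (nat_lit 1) true (nat_lit 14) true (nat_lit 17) false (nat_lit 7) true (nat_lit 17) true (nat_lit 16) (.s true (nat_lit 3) (nat_lit 82) (nat_lit 1) (nat_lit 2) (nat_lit 1) true (nat_lit 14) true (nat_lit 17) false (nat_lit 7) true (nat_lit 17) true (nat_lit 16) (.s false (nat_lit 1) (nat_lit 83) (nat_lit 1) (nat_lit 2) (nat_lit 1) true (nat_lit 14) true (nat_lit 17) false (nat_lit 7) true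 (nat_lit 17) true (nat_lit 16) (.s true (nat_lit 3) (nat_lit 85) (nat_lit 1) (nat_lit 2) (nat_lit 1) true (nat_lit 14) true (nat_lit 17) false (nat_lit 7) true (nat_lit 17) true (nat_lit 16) (.s true (nat_lit 3) (nat_lit 87) (nat_lit 1) (nat_lit 2) (nat_lit 1) true (nat_lit 14) true (nat_lit 17) false (nat_lit 7) true (nat_lit 17) true (nat_lit 16) dC2d_i119)))))))))))))))))))))))))

noncomputable def dC2d_i121 : IL := (.s true (nat_lit 1) (nat_lit 48) (nat_lit 4) (nat_lit 1) (nat_lit 0) true (nat_lit 10) true (nat_lit 18) false (nat_lit 3) true (nat_lit 14) true (nat_lit 17) (.s true (nat_lit 2) (nat_lit 52) (nat_lit 2) (nat_lit 2) (nat_lit 2) true (nat_lit 11) true (nat_lit 16) false (nat_lit 4) true (nat_lit 16) true (nat_lit 16) (.s true (nat_lit 2) (nat_lit 53) (nat_lit 2) (nat_lit 2) (nat_lit 2) true (nat_lit 11) true (nat_lit 16) false (nat_lit 4) true (nat_lit 16) true (nat_lit 16) (.s true (nat_lit 3)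 (nat_lit 57) (nat_lit 2) (nat_lit 2) (nat_lit 2) true (nat_lit 11) true (nat_lit 16) false (nat_lit 4) true (nat_lit 16) true (nat_lit 16) (.s false (nat_lit 3) (nat_lit 59) (nat_lit 2) (nat_lit 2) (nat_lit 2) true (nat_lit 11) true (nat_lit 16) false (nat_lit 4) true (nat_lit 16) true (nat_lit 16) (.s false (nat_lit 3) (nat_lit 60) (nat_lit 1) (nat_lit 2) (nat_lit 2) true (nat_lit 12) true (nat_lit 16) false (nat_lit 5) true (nat_lit 17) true (nat_lit 16) (.s true (nat_lit 2) (nat_lit 61) (nat_lit 1) (nat_lit 2) (nat_lit 2) true (nat_lit 12) true (nat_lit 16) false (nat_lit 5) true (nat_lit 17) true (nat_lit 16) (.s false (nat_lit 1) (nat_lit 62) (nat_lit 1) (nat_lit 2) (nat_lit 2) true (nat_lit 12) true (nat_lit 16) false (nat_lit 5) true (nat_lit 17) true (nat_lit 16) (.s false (nat_lit 3) (nat_lit 63) (nat_lit 1) (nat_lit 2) (nat_lit 2) true (nat_lit 12) true (nat_lit 16) false (nat_lit 5) true (nat_lit 17)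 true (nat_lit 16) (.s false (nat_lit 2) (nat_lit 64) (nat_lit 1) (nat_lit 2) (nat_lit 2) true (nat_lit 12) true (nat_lit 16) false (nat_lit 5) true (nat_lit 17) true (nat_lit 16) (.s true (nat_lit 1) (nat_lit 65) (nat_lit 1) (nat_lit 2) (nat_lit 2) true (nat_lit 12) true (nat_lit 16) false (nat_lit 5) true (nat_lit 17) true (nat_lit 16) (.s true (nat_lit 2) (nat_lit 66) (nat_lit 1) (nat_lit 2) (nat_lit 2) true (nat_lit 12) true (nat_lit 16) false (nat_lit 5) true (nat_lit 17) true (nat_lit 16) (.s true (nat_lit 1) (nat_lit 67) (nat_lit 1) (nat_lit 2) (nat_lit 2) true (nat_lit 12) true (nat_lit 16) false (nat_lit 5) true (nat_lit 17) true (nat_lit 16) (.s true (nat_lit 2) (nat_lit 68) (nat_lit 1) (nat_lit 2) (nat_lit 2) true (nat_lit 12) true (nat_lit 16) false (nat_lit 5) true (nat_lit 17) true (nat_lit 16) (.s true (nat_lit 3) (nat_lit 71) (nat_lit 1) (nat_lit 2) (nat_lit 2) true (nat_lit 12) true (nat_lit 16)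 false (nat_lit 5) true (nat_lit 17) true (nat_lit 16) (.s true (nat_lit 1) (nat_lit 72) (nat_lit 1) (nat_lit 2) (nat_lit 2) true (nat_lit 12) true (nat_lit 16) false (nat_lit 5) true (nat_lit 17) true (nat_lit 16) (.s true (nat_lit 2) (nat_lit 73) (nat_lit 1) (nat_lit 2) (nat_lit 2) true (nat_lit 12) true (nat_lit 16) false (nat_lit 5) true (nat_lit 17) true (nat_lit 16) (.s true (nat_lit 2) (nat_lit 62) (nat_lit 2) (nat_lit 1) (nat_lit 2) true (nat_lit 11) true (nat_lit 16) false (nat_lit 5) true (nat_lit 16) true (nat_lit 17) (.s false (nat_lit 1) (nat_lit 65) (nat_lit 2) (nat_lit 1) (nat_lit 2) true (nat_lit 11) true (nat_lit 16) false (nat_lit 5) true (nat_lit 16) true (nat_lit 17) (.s false (nat_lit 1) (nat_lit 66) (nat_lit 2) (nat_lit 1) (nat_lit 2) true (nat_lit 11) true (nat_lit 16) false (nat_lit 5) true (nat_lit 16) true (nat_lit 17) (.s true (nat_lit 3) (nat_lit 72) (nat_lit 2) (nat_lit 1) (nat_lit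 2) true (nat_lit 11) true (nat_lit 16) false (nat_lit 5) true (nat_lit 16) true (nat_lit 17) (.s false (nat_lit 1) (nat_lit 73) (nat_lit 2) (nat_lit 1) (nat_lit 2) true (nat_lit 11) true (nat_lit 16) false (nat_lit 5) true (nat_lit 16) true (nat_lit 17) (.s false (nat_lit 3) (nat_lit 60) (nat_lit 2) (nat_lit 2) (nat_lit 1) true (nat_lit 12) true (nat_lit 17) false (nat_lit 5) true (nat_lit 16) true (nat_lit 16) (.s true (nat_lit 3) (nat_lit 61) (nat_lit 2) (nat_lit 2) (nat_lit 1) true (nat_lit 12) true (nat_lit 17) false (nat_lit 5) true (nat_lit 16) true (nat_lit 16) (.s false (nat_lit 3) (nat_lit 62) (nat_lit 2) (nat_lit 2) (nat_lit 1) true (nat_lit 12) true (nat_lit 17) false (nat_lit 5) true (nat_lit 16) true (nat_lit 16) dC2d_i120)))))))))))))))))))))))))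

noncomputable def dC2d_i122 : IL := (.s false (nat_lit 3) (nat_lit 41) (nat_lit 1) (nat_lit 2) (nat_lit 5) true (nat_lit 8) true (nat_lit 13) false (nat_lit 0) true (nat_lit 17) true (nat_lit 16) (.s false (nat_lit 3) (nat_lit 39) (nat_lit 1) (nat_lit 5) (nat_lit 2) true (nat_lit 12) true (nat_lit 16) false (nat_lit 0) true (nat_lit 17) true (nat_lit 13) (.s false (nat_lit 1) (nat_lit 40) (nat_lit 1) (nat_lit 5) (nat_lit 2) true (nat_lit 12) true (nat_lit 16) false (nat_lit 0) true (nat_lit 17) true (nat_lit 13) (.s true (nat_lit 2) (nat_lit 40) (nat_lit 2) (nat_lit 1) (nat_lit 5) true (nat_lit 6) true (nat_lit 13) false (nat_lit 0) true (nat_lit 16) true (nat_lit 17) (.s true (nat_lit 3) (nat_lit 40) (nat_lit 2) (nat_lit 3) (nat_lit 2) true (nat_lit 11) true (nat_lit 16) false (nat_lit 0) true (nat_lit 16) true (nat_lit 15) (.s true (nat_lit 1) (nat_lit 40) (nat_lit 2) (nat_lit 5) (nat_lit 1) true (nat_lit 12)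 true (nat_lit 17) false (nat_lit 0) true (nat_lit 16) true (nat_lit 13) (.s false (nat_lit 2) (nat_lit 41) (nat_lit 2) (nat_lit 6) (nat_lit 0) true (nat_lit 13) true (nat_lit 18) false (nat_lit 0) true (nat_lit 16) true (nat_lit 12) (.s true (nat_lit 3) (nat_lit 39) (nat_lit 3) (nat_lit 2) (nat_lit 2) true (nat_lit 8) true (nat_lit 16) false (nat_lit 0) true (nat_lit 15) true (nat_lit 16) (.s true (nat_lit 1) (nat_lit 40) (nat_lit 3) (nat_lit 2) (nat_lit 2) true (nat_lit 8) true (nat_lit 16) false (nat_lit 0) true (nat_lit 15) true (nat_lit 16) (.s true (nat_lit 1) (nat_lit 41) (nat_lit 5) (nat_lit 1) (nat_lit 2) true (nat_lit 6) true (nat_lit 16) false (nat_lit 0) true (nat_lit 13) true (nat_lit 17) (.s false (nat_lit 2) (nat_lit 41) (nat_lit 5) (nat_lit 2) (nat_lit 1) true (nat_lit 8) true (nat_lit 17) false (nat_lit 0) true (nat_lit 13) true (nat_lit 16) (.s true (nat_lit 2) (nat_lit 40) (nat_lit 6) (nat_lit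 2) (nat_lit 0) true (nat_lit 8) true (nat_lit 18) false (nat_lit 0) true (nat_lit 12) true (nat_lit 16) (.s true (nat_lit 3) (nat_lit 41) (nat_lit 6) (nat_lit 2) (nat_lit 0) true (nat_lit 8) true (nat_lit 18) false (nat_lit 0) true (nat_lit 12) true (nat_lit 16) (.s true (nat_lit 2) (nat_lit 40) (nat_lit 7) (nat_lit 0) (nat_lit 1) true (nat_lit 5) true (nat_lit 17) false (nat_lit 0) true (nat_lit 11) true (nat_lit 18) (.s true (nat_lit 3) (nat_lit 45) (nat_lit 1) (nat_lit 1) (nat_lit 5) true (nat_lit 8) true (nat_lit 13) false (nat_lit 2) true (nat_lit 17) true (nat_lit 17) (.s false (nat_lit 3) (nat_lit 45) (nat_lit 1) (nat_lit 3) (nat_lit 2) true (nat_lit 12) true (nat_lit 16) false (nat_lit 2) true (nat_lit 17) true (nat_lit 15) (.s true (nat_lit 3) (nat_lit 46) (nat_lit 1) (nat_lit 3) (nat_lit 2) true (nat_lit 12) true (nat_lit 16) false (nat_lit 2) true (nat_lit 17) true (nat_lit 15) (.s true (nat_lit 1)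 (nat_lit 47) (nat_lit 1) (nat_lit 3) (nat_lit 2) true (nat_lit 12) true (nat_lit 16) false (nat_lit 2) true (nat_lit 17) true (nat_lit 15) (.s true (nat_lit 2) (nat_lit 45) (nat_lit 2) (nat_lit 1) (nat_lit 3) true (nat_lit 8) true (nat_lit 15) false (nat_lit 2) true (nat_lit 16) true (nat_lit 17) (.s true (nat_lit 3) (nat_lit 45) (nat_lit 2) (nat_lit 4) (nat_lit 0) true (nat_lit 13) true (nat_lit 18) false (nat_lit 2) true (nat_lit 16) true (nat_lit 14) (.s false (nat_lit 3) (nat_lit 45) (nat_lit 5) (nat_lit 1) (nat_lit 1) true (nat_lit 8) true (nat_lit 17) false (nat_lit 2) true (nat_lit 13) true (nat_lit 17) (.s false (nat_lit 1) (nat_lit 45) (nat_lit 6) (nat_lit 1) (nat_lit 0) true (nat_lit 8) true (nat_lit 18) false (nat_lit 2) true (nat_lit 12) true (nat_lit 17) (.s false (nat_lit 3) (nat_lit 48) (nat_lit 1) (nat_lit 3) (nat_lit 1) true (nat_lit 14) true (nat_lit 17) false (nat_lit 3) true (nat_lit 17) true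 (nat_lit 15) (.s true (nat_lit 1) (nat_lit 48) (nat_lit 3) (nat_lit 1) (nat_lit 1) true (nat_lit 10) true (nat_lit 17) false (nat_lit 3) true (nat_lit 15) true (nat_lit 17) (.s true (nat_lit 3) (nat_lit 48) (nat_lit 4) (nat_lit 0) (nat_lit 1) true (nat_lit 9) true (nat_lit 17) false (nat_lit 3) true (nat_lit 14) true (nat_lit 18) dC2d_i121)))))))))))))))))))))))))

noncomputable def dC2d_i123 : IL := (.s true (nat_lit 3) (nat_lit 27) (nat_lit 6) (nat_lit 2) (nat_lit 2) true (nat_lit 5) true (nat_lit 16) true (nat_lit 2) true (nat_lit 12) true (nat_lit 16) (.s true (nat_lit 1) (nat_lit 29) (nat_lit 6) (nat_lit 2) (nat_lit 2) true (nat_lit 5) true (nat_lit 16) true (nat_lit 2) true (nat_lit 12) true (nat_lit 16) (.s true (nat_lit 2) (nat_lit 25) (nat_lit 7) (nat_lit 2) (nat_lit 1) true (nat_lit 5) true (nat_lit 17) true (nat_lit 2) true (nat_lit 11) true (nat_lit 16) (.s false (nat_lit 3) (nat_lit 30) (nat_lit 0)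 (nat_lit 2) (nat_lit 7) true (nat_lit 6) true (nat_lit 11) true (nat_lit 1) true (nat_lit 18) true (nat_lit 16) (.s true (nat_lit 2) (nat_lit 30) (nat_lit 0) (nat_lit 7) (nat_lit 2) true (nat_lit 13) true (nat_lit 16) true (nat_lit 1) true (nat_lit 18) true (nat_lit 11) (.s true (nat_lit 1) (nat_lit 30) (nat_lit 2) (nat_lit 2) (nat_lit 5) true (nat_lit 6) true (nat_lit 13) true (nat_lit 1) true (nat_lit 16) true (nat_lit 16) (.s true (nat_lit 1) (nat_lit 30) (nat_lit 2) (nat_lit 5) (nat_lit 2) true (nat_lit 11) true (nat_lit 16) true (nat_lit 1) true (nat_lit 16) true (nat_lit 13) (.s false (nat_lit 3) (nat_lit 30) (nat_lit 2) (nat_lit 7) (nat_lit 0) true (nat_lit 13) true (nat_lit 18) true (nat_lit 1) true (nat_lit 16) true (nat_lit 11) (.s false (nat_lit 1) (nat_lit 30) (nat_lit 5) (nat_lit 2) (nat_lit 2) true (nat_lit 6) true (nat_lit 16) true (nat_lit 1) true (nat_lit 13) true (nat_lit 16) (.s false (nat_lit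 2) (nat_lit 33) (nat_lit 1) (nat_lit 1) (nat_lit 7) true (nat_lit 5) true (nat_lit 11) true (nat_lit 0) true (nat_lit 17) true (nat_lit 17) (.s true (nat_lit 3) (nat_lit 34) (nat_lit 1) (nat_lit 1) (nat_lit 7) true (nat_lit 5) true (nat_lit 11) true (nat_lit 0) true (nat_lit 17) true (nat_lit 17) (.s true (nat_lit 1) (nat_lit 35) (nat_lit 1) (nat_lit 2) (nat_lit 6) true (nat_lit 7) true (nat_lit 12) true (nat_lit 0) true (nat_lit 17) true (nat_lit 16) (.s false (nat_lit 2) (nat_lit 36) (nat_lit 1) (nat_lit 2) (nat_lit 6) true (nat_lit 7) true (nat_lit 12) true (nat_lit 0) true (nat_lit 17) true (nat_lit 16) (.s false (nat_lit 3) (nat_lit 37) (nat_lit 1) (nat_lit 2) (nat_lit 6) true (nat_lit 7) true (nat_lit 12) true (nat_lit 0) true (nat_lit 17) true (nat_lit 16) (.s false (nat_lit 2) (nat_lit 38) (nat_lit 1) (nat_lit 2) (nat_lit 6) true (nat_lit 7) true (nat_lit 12) true (nat_lit 0) true (nat_lit 17) true (nat_lit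 16) (.s true (nat_lit 3) (nat_lit 34) (nat_lit 1) (nat_lit 6) (nat_lit 2) true (nat_lit 12) true (nat_lit 16) true (nat_lit 0) true (nat_lit 17) true (nat_lit 12) (.s true (nat_lit 2) (nat_lit 33) (nat_lit 1) (nat_lit 7) (nat_lit 1) true (nat_lit 14) true (nat_lit 17) true (nat_lit 0) true (nat_lit 17) true (nat_lit 11) (.s false (nat_lit 3) (nat_lit 34) (nat_lit 1) (nat_lit 7) (nat_lit 1) true (nat_lit 14) true (nat_lit 17) true (nat_lit 0) true (nat_lit 17) true (nat_lit 11) (.s false (nat_lit 3) (nat_lit 37) (nat_lit 2) (nat_lit 1) (nat_lit 6) true (nat_lit 5) true (nat_lit 12) true (nat_lit 0) true (nat_lit 16) true (nat_lit 17) (.s false (nat_lit 2) (nat_lit 35) (nat_lit 2) (nat_lit 2) (nat_lit 4) true (nat_lit 7) true (nat_lit 14) true (nat_lit 0) true (nat_lit 16) true (nat_lit 16) (.s true (nat_lit 2) (nat_lit 36) (nat_lit 2) (nat_lit 2) (nat_lit 4) true (nat_lit 7) true (nat_lit 14) true (nat_lit 0) true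 (nat_lit 16) true (nat_lit 16) (.s false (nat_lit 2) (nat_lit 38) (nat_lit 2) (nat_lit 2) (nat_lit 4) true (nat_lit 7) true (nat_lit 14) true (nat_lit 0) true (nat_lit 16) true (nat_lit 16) (.s true (nat_lit 2) (nat_lit 33) (nat_lit 2) (nat_lit 6) (nat_lit 1) true (nat_lit 12) true (nat_lit 17) true (nat_lit 0) true (nat_lit 16) true (nat_lit 12) (.s true (nat_lit 1) (nat_lit 34) (nat_lit 2) (nat_lit 6) (nat_lit 1) true (nat_lit 12) true (nat_lit 17) true (nat_lit 0) true (nat_lit 16) true (nat_lit 12) (.s false (nat_lit 1) (nat_lit 34) (nat_lit 6) (nat_lit 2) (nat_lit 1) true (nat_lit 7) true (nat_lit 17) true (nat_lit 0) true (nat_lit 12) true (nat_lit 16) dC2d_i122)))))))))))))))))))))))))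

noncomputable def dC2d_i124 : IL := (.s false (nat_lit 1) (nat_lit 20) (nat_lit 15) (nat_lit 1) (nat_lit 0) true (nat_lit 2) true (nat_lit 18) true (nat_lit 4) true (nat_lit 7) true (nat_lit 17) (.s true (nat_lit 1) (nat_lit 21) (nat_lit 2) (nat_lit 2) (nat_lit 7) true (nat_lit 4) true (nat_lit 11) true (nat_lit 3) true (nat_lit 16) true (nat_lit 16) (.s false (nat_lit 2) (nat_lit 22) (nat_lit 2) (nat_lit 2) (nat_lit 7) true (nat_lit 4) true (nat_lit 11) true (nat_lit 3) true (nat_lit 16) true (nat_lit 16) (.s false (nat_lit 2) (nat_lit 23) (nat_lit 2) (nat_lit 2) (nat_lit 7) true (nat_lit 4) true (nat_lit 11) true (nat_lit 3) true (nat_lit 16) true (nat_lit 16) (.s true (nat_lit 1) (nat_lit 22) (nat_lit 2) (nat_lit 7) (nat_lit 2) true (nat_lit 11) true (nat_lit 16) true (nat_lit 3) true (nat_lit 16) true (nat_lit 11) (.s false (nat_lit 3) (nat_lit 23) (nat_lit 2) (nat_lit 7) (nat_lit 2) true (nat_lit 11) true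 (nat_lit 16) true (nat_lit 3) true (nat_lit 16) true (nat_lit 11) (.s false (nat_lit 2) (nat_lit 21) (nat_lit 7) (nat_lit 2) (nat_lit 2) true (nat_lit 4) true (nat_lit 16) true (nat_lit 3) true (nat_lit 11) true (nat_lit 16) (.s false (nat_lit 3) (nat_lit 24) (nat_lit 1) (nat_lit 2) (nat_lit 7) true (nat_lit 5) true (nat_lit 11) true (nat_lit 2) true (nat_lit 17) true (nat_lit 16) (.s true (nat_lit 3) (nat_lit 25) (nat_lit 1) (nat_lit 2) (nat_lit 7) true (nat_lit 5) true (nat_lit 11) true (nat_lit 2) true (nat_lit 17) true (nat_lit 16) (.s false (nat_lit 3) (nat_lit 26) (nat_lit 1) (nat_lit 2) (nat_lit 7) true (nat_lit 5) true (nat_lit 11) true (nat_lit 2) true (nat_lit 17) true (nat_lit 16) (.s true (nat_lit 1) (nat_lit 27) (nat_lit 1) (nat_lit 2) (nat_lit 7) true (nat_lit 5) true (nat_lit 11) true (nat_lit 2) true (nat_lit 17) true (nat_lit 16) (.s true (nat_lit 3) (nat_lit 24) (nat_lit 1) (nat_lit 7) (nat_lit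 2) true (nat_lit 12) true (nat_lit 16) true (nat_lit 2) true (nat_lit 17) true (nat_lit 11) (.s true (nat_lit 2) (nat_lit 25) (nat_lit 1) (nat_lit 7) (nat_lit 2) true (nat_lit 12) true (nat_lit 16) true (nat_lit 2) true (nat_lit 17) true (nat_lit 11) (.s true (nat_lit 1) (nat_lit 26) (nat_lit 1) (nat_lit 7) (nat_lit 2) true (nat_lit 12) true (nat_lit 16) true (nat_lit 2) true (nat_lit 17) true (nat_lit 11) (.s false (nat_lit 3) (nat_lit 27) (nat_lit 1) (nat_lit 7) (nat_lit 2) true (nat_lit 12) true (nat_lit 16) true (nat_lit 2) true (nat_lit 17) true (nat_lit 11) (.s true (nat_lit 3) (nat_lit 25) (nat_lit 2) (nat_lit 1) (nat_lit 7) true (nat_lit 4) true (nat_lit 11) true (nat_lit 2) true (nat_lit 16) true (nat_lit 17) (.s true (nat_lit 3) (nat_lit 24) (nat_lit 2) (nat_lit 2) (nat_lit 6) true (nat_lit 5) true (nat_lit 12) true (nat_lit 2) true (nat_lit 16) true (nat_lit 16) (.s true (nat_lit 1) (nat_lit 25) (nat_lit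 2) (nat_lit 2) (nat_lit 6) true (nat_lit 5) true (nat_lit 12) true (nat_lit 2) true (nat_lit 16) true (nat_lit 16) (.s true (nat_lit 2) (nat_lit 26) (nat_lit 2) (nat_lit 2) (nat_lit 6) true (nat_lit 5) true (nat_lit 12) true (nat_lit 2) true (nat_lit 16) true (nat_lit 16) (.s false (nat_lit 2) (nat_lit 27) (nat_lit 2) (nat_lit 2) (nat_lit 6) true (nat_lit 5) true (nat_lit 12) true (nat_lit 2) true (nat_lit 16) true (nat_lit 16) (.s false (nat_lit 3) (nat_lit 24) (nat_lit 2) (nat_lit 6) (nat_lit 2) true (nat_lit 11) true (nat_lit 16) true (nat_lit 2) true (nat_lit 16) true (nat_lit 12) (.s true (nat_lit 3) (nat_lit 25) (nat_lit 2) (nat_lit 6) (nat_lit 2) true (nat_lit 11) true (nat_lit 16) true (nat_lit 2) true (nat_lit 16) true (nat_lit 12) (.s true (nat_lit 3) (nat_lit 29) (nat_lit 2) (nat_lit 6) (nat_lit 2) true (nat_lit 11) true (nat_lit 16) true (nat_lit 2) true (nat_lit 16) true (nat_lit 12) (.s true (nat_lit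 2) (nat_lit 24) (nat_lit 6) (nat_lit 2) (nat_lit 2) true (nat_lit 5) true (nat_lit 16) true (nat_lit 2) true (nat_lit 12) true (nat_lit 16) (.s false (nat_lit 3) (nat_lit 26) (nat_lit 6) (nat_lit 2) (nat_lit 2) true (nat_lit 5) true (nat_lit 16) true (nat_lit 2) true (nat_lit 12) true (nat_lit 16) dC2d_i123)))))))))))))))))))))))))

noncomputable def dC2d_i125 : IL := (.s true (nat_lit 2) (nat_lit 18) (nat_lit 9) (nat_lit 2) (nat_lit 2) true (nat_lit 2) true (nat_lit 16) true (nat_lit 5) true (nat_lit 10) true (nat_lit 16) (.s true (nat_lit 1) (nat_lit 19) (nat_lit 9) (nat_lit 2) (nat_lit 2) true (nat_lit 2) true (nat_lit 16) true (nat_lit 5) true (nat_lit 10) true (nat_lit 16) (.s false (nat_lit 3) (nat_lit 18) (nat_lit 11) (nat_lit 1) (nat_lit 2) true (nat_lit 0) true (nat_lit 16) true (nat_lit 5) true (nat_lit 8) true (nat_lit 17) (.s true (nat_lit 1) (nat_lit 19) (nat_lit 11) (nat_lit 1) (nat_lit 2) true (nat_lit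 0) true (nat_lit 16) true (nat_lit 5) true (nat_lit 8) true (nat_lit 17) (.s false (nat_lit 1) (nat_lit 18) (nat_lit 11) (nat_lit 2) (nat_lit 1) true (nat_lit 2) true (nat_lit 17) true (nat_lit 5) true (nat_lit 8) true (nat_lit 16) (.s false (nat_lit 3) (nat_lit 19) (nat_lit 11) (nat_lit 2) (nat_lit 1) true (nat_lit 2) true (nat_lit 17) true (nat_lit 5) true (nat_lit 8) true (nat_lit 16) (.s false (nat_lit 3) (nat_lit 18) (nat_lit 15) (nat_lit 0) (nat_lit 2) false (nat_lit 0) true (nat_lit 16) true (nat_lit 5) true (nat_lit 7) true (nat_lit 18) (.s true (nat_lit 1) (nat_lit 18) (nat_lit 16) (nat_lit 1) (nat_lit 1) true (nat_lit 0) true (nat_lit 17) true (nat_lit 5) true (nat_lit 6) true (nat_lit 17) (.s false (nat_lit 3) (nat_lit 18) (nat_lit 17) (nat_lit 1) (nat_lit 1) true (nat_lit 0) true (nat_lit 17) true (nat_lit 5) true (nat_lit 6) true (nat_lit 17) (.s true (nat_lit 1) (nat_lit 20) (nat_lit 0) (nat_lit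 1) (nat_lit 15) true (nat_lit 2) true (nat_lit 7) true (nat_lit 4) true (nat_lit 18) true (nat_lit 17) (.s false (nat_lit 2) (nat_lit 20) (nat_lit 0) (nat_lit 10) (nat_lit 2) true (nat_lit 13) true (nat_lit 16) true (nat_lit 4) true (nat_lit 18) true (nat_lit 9) (.s false (nat_lit 2) (nat_lit 20) (nat_lit 0) (nat_lit 14) (nat_lit 1) true (nat_lit 15) true (nat_lit 17) true (nat_lit 4) true (nat_lit 18) true (nat_lit 7) (.s true (nat_lit 2) (nat_lit 20) (nat_lit 1) (nat_lit 0) (nat_lit 14) true (nat_lit 1) true (nat_lit 7) true (nat_lit 4) true (nat_lit 17) true (nat_lit 18) (.s true (nat_lit 3) (nat_lit 20) (nat_lit 1) (nat_lit 3) (nat_lit 6) true (nat_lit 7) true (nat_lit 12) true (nat_lit 4) true (nat_lit 17) true (nat_lit 15) (.s true (nat_lit 1) (nat_lit 20) (nat_lit 1) (nat_lit 8) (nat_lit 2) true (nat_lit 12) true (nat_lit 16) true (nat_lit 4) true (nat_lit 17) true (nat_lit 10) (.s true (nat_lit 3) (nat_lit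 20) (nat_lit 1) (nat_lit 11) (nat_lit 1) true (nat_lit 14) true (nat_lit 17) true (nat_lit 4) true (nat_lit 17) true (nat_lit 8) (.s true (nat_lit 1) (nat_lit 20) (nat_lit 1) (nat_lit 15) (nat_lit 0) true (nat_lit 15) true (nat_lit 18) true (nat_lit 4) true (nat_lit 17) true (nat_lit 7) (.s false (nat_lit 2) (nat_lit 20) (nat_lit 2) (nat_lit 0) (nat_lit 10) true (nat_lit 1) true (nat_lit 9) true (nat_lit 4) true (nat_lit 16) true (nat_lit 18) (.s false (nat_lit 3) (nat_lit 20) (nat_lit 2) (nat_lit 4) (nat_lit 3) true (nat_lit 8) true (nat_lit 15) true (nat_lit 4) true (nat_lit 16) true (nat_lit 14) (.s false (nat_lit 3) (nat_lit 20) (nat_lit 2) (nat_lit 9) (nat_lit 1) true (nat_lit 12) true (nat_lit 17) true (nat_lit 4) true (nat_lit 16) true (nat_lit 10) (.s false (nat_lit 2) (nat_lit 20) (nat_lit 3) (nat_lit 2) (nat_lit 4) true (nat_lit 3) true (nat_lit 14) true (nat_lit 4) true (nat_lit 15) true (nat_lit 16)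 (.s true (nat_lit 1) (nat_lit 20) (nat_lit 9) (nat_lit 2) (nat_lit 1) true (nat_lit 3) true (nat_lit 17) true (nat_lit 4) true (nat_lit 10) true (nat_lit 16) (.s true (nat_lit 2) (nat_lit 20) (nat_lit 11) (nat_lit 1) (nat_lit 1) true (nat_lit 2) true (nat_lit 17) true (nat_lit 4) true (nat_lit 8) true (nat_lit 17) (.s true (nat_lit 3) (nat_lit 20) (nat_lit 12) (nat_lit 1) (nat_lit 1) true (nat_lit 2) true (nat_lit 17) true (nat_lit 4) true (nat_lit 8) true (nat_lit 17) (.s false (nat_lit 2) (nat_lit 20) (nat_lit 14) (nat_lit 0) (nat_lit 1) true (nat_lit 1) true (nat_lit 17) true (nat_lit 4) true (nat_lit 7) true (nat_lit 18) dC2d_i124)))))))))))))))))))))))))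

noncomputable def dC2d_i126 : IL := (.s false (nat_lit 2) (nat_lit 8) (nat_lit 7) (nat_lit 7) (nat_lit 1) true (nat_lit 5) true (nat_lit 17) true (nat_lit 10) true (nat_lit 11) true (nat_lit 11) (.s true (nat_lit 3) (nat_lit 10) (nat_lit 7) (nat_lit 7) (nat_lit 0) true (nat_lit 6) true (nat_lit 18) true (nat_lit 9) true (nat_lit 11) true (nat_lit 11) (.s true (nat_lit 2) (nat_lit 11) (nat_lit 1) (nat_lit 7) (nat_lit 6) true (nat_lit 7) true (nat_lit 12) true (nat_lit 8) true (nat_lit 17) true (nat_lit 11) (.s false (nat_lit 1) (nat_lit 11) (nat_lit 2) (nat_lit 6) (nat_lit 6) true (nat_lit 5) true (nat_lit 12) true (nat_lit 8) true (nat_lit 16) true (nat_lit 12) (.s false (nat_lit 3) (nat_lit 12) (nat_lit 2) (nat_lit 7) (nat_lit 4) true (nat_lit 7) true (nat_lit 14) true (nat_lit 8) true (nat_lit 16) true (nat_lit 11) (.s false (nat_lit 2) (nat_lit 11) (nat_lit 4) (nat_lit 2) (nat_lit 7) false (nat_lit 0) true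 (nat_lit 11) true (nat_lit 8) true (nat_lit 14) true (nat_lit 16) (.s false (nat_lit 2) (nat_lit 11) (nat_lit 4) (nat_lit 7) (nat_lit 2) true (nat_lit 7) true (nat_lit 16) true (nat_lit 8) true (nat_lit 14) true (nat_lit 11) (.s true (nat_lit 1) (nat_lit 11) (nat_lit 6) (nat_lit 6) (nat_lit 2) true (nat_lit 5) true (nat_lit 16) true (nat_lit 8) true (nat_lit 12) true (nat_lit 12) (.s true (nat_lit 3) (nat_lit 12) (nat_lit 6) (nat_lit 6) (nat_lit 2) true (nat_lit 5) true (nat_lit 16) true (nat_lit 8) true (nat_lit 12) true (nat_lit 12) (.s true (nat_lit 3) (nat_lit 13) (nat_lit 6) (nat_lit 6) (nat_lit 2) true (nat_lit 5) true (nat_lit 16) true (nat_lit 8) true (nat_lit 12) true (nat_lit 12) (.s true (nat_lit 1) (nat_lit 14) (nat_lit 2) (nat_lit 3) (nat_lit 7) true (nat_lit 4) true (nat_lit 11) true (nat_lit 7) true (nat_lit 16) true (nat_lit 15) (.s false (nat_lit 1) (nat_lit 15) (nat_lit 11) (nat_lit 2) (nat_lit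 2) true (nat_lit 0) true (nat_lit 16) true (nat_lit 7) true (nat_lit 8) true (nat_lit 16) (.s false (nat_lit 3) (nat_lit 16) (nat_lit 1) (nat_lit 15) (nat_lit 2) true (nat_lit 12) true (nat_lit 16) true (nat_lit 6) true (nat_lit 17) true (nat_lit 7) (.s true (nat_lit 1) (nat_lit 18) (nat_lit 1) (nat_lit 0) (nat_lit 18) false (nat_lit 0) true (nat_lit 5) true (nat_lit 5) true (nat_lit 17) true (nat_lit 18) (.s false (nat_lit 2) (nat_lit 18) (nat_lit 1) (nat_lit 2) (nat_lit 12) true (nat_lit 2) true (nat_lit 8) true (nat_lit 5) true (nat_lit 17) true (nat_lit 16) (.s true (nat_lit 2) (nat_lit 18) (nat_lit 1) (nat_lit 3) (nat_lit 7) true (nat_lit 5) true (nat_lit 11) true (nat_lit 5) true (nat_lit 17) true (nat_lit 15) (.s false (nat_lit 1) (nat_lit 19) (nat_lit 1) (nat_lit 3) (nat_lit 7) true (nat_lit 5) true (nat_lit 11) true (nat_lit 5) true (nat_lit 17) true (nat_lit 15) (.s true (nat_lit 3) (nat_lit 18) (nat_lit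 2) (nat_lit 0) (nat_lit 15) false (nat_lit 0) true (nat_lit 7) true (nat_lit 5) true (nat_lit 16) true (nat_lit 18) (.s true (nat_lit 1) (nat_lit 18) (nat_lit 2) (nat_lit 2) (nat_lit 8) true (nat_lit 2) true (nat_lit 10) true (nat_lit 5) true (nat_lit 16) true (nat_lit 16) (.s false (nat_lit 1) (nat_lit 19) (nat_lit 2) (nat_lit 2) (nat_lit 9) true (nat_lit 2) true (nat_lit 10) true (nat_lit 5) true (nat_lit 16) true (nat_lit 16) (.s false (nat_lit 2) (nat_lit 18) (nat_lit 2) (nat_lit 8) (nat_lit 2) true (nat_lit 11) true (nat_lit 16) true (nat_lit 5) true (nat_lit 16) true (nat_lit 10) (.s true (nat_lit 1) (nat_lit 18) (nat_lit 2) (nat_lit 9) (nat_lit 2) true (nat_lit 11) true (nat_lit 16) true (nat_lit 5) true (nat_lit 16) true (nat_lit 10) (.s true (nat_lit 1) (nat_lit 19) (nat_lit 2) (nat_lit 9) (nat_lit 2) true (nat_lit 11) true (nat_lit 16) true (nat_lit 5) true (nat_lit 16) true (nat_lit 10) (.s true (nat_lit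 3) (nat_lit 18) (nat_lit 2) (nat_lit 11) (nat_lit 1) true (nat_lit 12) true (nat_lit 17) true (nat_lit 5) true (nat_lit 16) true (nat_lit 8) (.s false (nat_lit 1) (nat_lit 18) (nat_lit 8) (nat_lit 2) (nat_lit 2) true (nat_lit 2) true (nat_lit 16) true (nat_lit 5) true (nat_lit 10) true (nat_lit 16) dC2d_i125)))))))))))))))))))))))))

noncomputable def dC2d_i127 : IL := (.e true (nat_lit 3) (nat_lit 261) (nat_lit 1) (nat_lit 17) (.e true (nat_lit 3) (nat_lit 262) (nat_lit 1) (nat_lit 17) (.e false (nat_lit 1) (nat_lit 263) (nat_lit 1) (nat_lit 17) (.e false (nat_lit 1) (nat_lit 270) (nat_lit 1) (nat_lit 17) (.e true (nat_lit 3) (nat_lit 271) (nat_lit 1) (nat_lit 17) (.e false (nat_lit 2) (nat_lit 273) (nat_lit 1) (nat_lit 17) (.e false (nat_lit 2) (nat_lit 275) (nat_lit 1) (nat_lit 17) (.e false (nat_lit 3) (nat_lit 276) (nat_lit 1) (nat_lit 17) (.e false (nat_lit 3) (nat_lit 282) (nat_lit 1) (nat_lit 17) (.e false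 (nat_lit 1) (nat_lit 280) (nat_lit 1) (nat_lit 17) (.e false (nat_lit 3) (nat_lit 290) (nat_lit 0) (nat_lit 18) (.e true (nat_lit 3) (nat_lit 293) (nat_lit 0) (nat_lit 18) (.e false (nat_lit 2) (nat_lit 294) (nat_lit 0) (nat_lit 18) (.e false (nat_lit 2) (nat_lit 300) (nat_lit 0) (nat_lit 18) (.e true (nat_lit 3) (nat_lit 301) (nat_lit 0) (nat_lit 18) (.e true (nat_lit 1) (nat_lit 303) (nat_lit 0) (nat_lit 18) (.e true (nat_lit 3) (nat_lit 299) (nat_lit 0) (nat_lit 18) (.e true (nat_lit 3) (nat_lit 289) (nat_lit 0) (nat_lit 18) (.e true (nat_lit 1) (nat_lit 291) (nat_lit 0) (nat_lit 18) (.e true (nat_lit 2) (nat_lit 267) (nat_lit 1) (nat_lit 17) (.e true (nat_lit 1) (nat_lit 292) (nat_lit 0) (nat_lit 18) (.u (nat_lit 2) (.n (nat_lit 0) (nat_lit 4) (.p (nat_lit 2) (nat_lit 1) (.p (nat_lit 3) (nat_lit 1) (.n (nat_lit 4) (nat_lit 2) (.p (nat_lit 5) (nat_lit 1) (.p (nat_lit 7) (nat_lit 1) (.n (nat_lit 9) (nat_lit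 2) (.n (nat_lit 10) (nat_lit 1) (.n (nat_lit 12) (nat_lit 4) (.p (nat_lit 16) (nat_lit 1) (.p (nat_lit 17) (nat_lit 2) (.p (nat_lit 19) (nat_lit 2) (.n (nat_lit 20) (nat_lit 1) (.p (nat_lit 21) (nat_lit 3) (.n (nat_lit 22) (nat_lit 3) (.p (nat_lit 23) (nat_lit 1) (.n (nat_lit 24) (nat_lit 1) (.n (nat_lit 25) (nat_lit 1) (.p (nat_lit 26) (nat_lit 1) (.p (nat_lit 27) (nat_lit 1) (.p (nat_lit 28) (nat_lit 2) (.n (nat_lit 31) (nat_lit 2) (.p (nat_lit 32) (nat_lit 2) (.n (nat_lit 33) (nat_lit 1) (.p (nat_lit 34) (nat_lit 1) (.p (nat_lit 36) (nat_lit 1) (.n (nat_lit 37) (nat_lit 2) (.p (nat_lit 38) (nat_lit 1) (.p (nat_lit 39) (nat_lit 1) (.p (nat_lit 42) (nat_lit 1) (.n (nat_lit 46) (nat_lit 1) (.n (nat_lit 47) (nat_lit 1) (.n (nat_lit 64) (nat_lit 1) (.p (nat_lit 66) (nat_lit 1) (.n (nat_lit 67) (nat_lit 1) (.p (nat_lit 82) (nat_lit 1) (.p (nat_lit 97) (nat_lit 1) (.n (nat_lit 98) (nat_lit 1) (.p (nat_lit 99) (nat_lit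 1) (.n (nat_lit 107) (nat_lit 1) (.n (nat_lit 110) (nat_lit 1) (.n (nat_lit 112) (nat_lit 1) (.p (nat_lit 114) (nat_lit 1) (.p (nat_lit 115) (nat_lit 1) (.n (nat_lit 116) (nat_lit 1) (.p (nat_lit 118) (nat_lit 1) (.n (nat_lit 125) (nat_lit 1) (.p (nat_lit 127) (nat_lit 1) (.n (nat_lit 128) (nat_lit 1) (.n (nat_lit 130) (nat_lit 1) (.n (nat_lit 133) (nat_lit 1) (.n (nat_lit 136) (nat_lit 1) (.p (nat_lit 138) (nat_lit 1) (.p (nat_lit 143) (nat_lit 1) (.p (nat_lit 147) (nat_lit 1) (.n (nat_lit 149) (nat_lit 1) (.p (nat_lit 177) (nat_lit 1) (.n (nat_lit 181) (nat_lit 1) (.n (nat_lit 184) (nat_lit 2) (.p (nat_lit 185) (nat_lit 1) .z)))))))))))))))))))))))))))))))))))))))))))))))))))))))))))) (.u (nat_lit 2) (.p (nat_lit 189) (nat_lit 1) (.n (nat_lit 190) (nat_lit 1) (.p (nat_lit 192) (nat_lit 1) (.p (nat_lit 193) (nat_lit 1) (.n (nat_lit 194) (nat_lit 1) (.p (nat_lit 202) (nat_lit 1) (.p (nat_lit 203) (nat_lit 1) (.p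 (nat_lit 207) (nat_lit 1) (.p (nat_lit 208) (nat_lit 1) (.n (nat_lit 212) (nat_lit 1) (.p (nat_lit 213) (nat_lit 3) (.n (nat_lit 214) (nat_lit 1) (.n (nat_lit 215) (nat_lit 2) (.n (nat_lit 216) (nat_lit 3) (.p (nat_lit 217) (nat_lit 2) (.p (nat_lit 219) (nat_lit 4) (.n (nat_lit 220) (nat_lit 1) (.n (nat_lit 221) (nat_lit 5) (.p (nat_lit 222) (nat_lit 1) (.p (nat_lit 223) (nat_lit 1) (.n (nat_lit 225) (nat_lit 2) (.n (nat_lit 226) (nat_lit 6) (.n (nat_lit 227) (nat_lit 1) (.n (nat_lit 228) (nat_lit 1) (.p (nat_lit 229) (nat_lit 2) (.p (nat_lit 230) (nat_lit 5) (.n (nat_lit 231) (nat_lit 1) (.n (nat_lit 232) (nat_lit 1) (.p (nat_lit 234) (nat_lit 3) (.n (nat_lit 235) (nat_lit 1) (.n (nat_lit 237) (nat_lit 1) (.p (nat_lit 238) (nat_lit 1) (.n (nat_lit 239) (nat_lit 1) (.p (nat_lit 240) (nat_lit 3) (.n (nat_lit 242) (nat_lit 4) (.p (nat_lit 243) (nat_lit 2) (.p (nat_lit 246) (nat_lit 2) (.n (nat_lit 247) (nat_lit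 2) (.p (nat_lit 248) (nat_lit 1) (.n (nat_lit 251) (nat_lit 2) (.p (nat_lit 252) (nat_lit 2) (.p (nat_lit 253) (nat_lit 1) (.n (nat_lit 254) (nat_lit 2) (.n (nat_lit 256) (nat_lit 1) (.p (nat_lit 257) (nat_lit 2) (.n (nat_lit 258) (nat_lit 1) (.n (nat_lit 260) (nat_lit 1) (.n (nat_lit 261) (nat_lit 2) (.p (nat_lit 262) (nat_lit 3) (.n (nat_lit 263) (nat_lit 1) (.p (nat_lit 264) (nat_lit 1) (.n (nat_lit 265) (nat_lit 1) (.p (nat_lit 267) (nat_lit 1) (.n (nat_lit 269) (nat_lit 2) (.p (nat_lit 270) (nat_lit 1) (.p (nat_lit 271) (nat_lit 1) (.p (nat_lit 273) (nat_lit 1) (.n (nat_lit 277) (nat_lit 1) (.p (nat_lit 278) (nat_lit 1) (.p (nat_lit 279) (nat_lit 1) .z)))))))))))))))))))))))))))))))))))))))))))))))))))))))))))) (.u (nat_lit 2) (.p (nat_lit 284) (nat_lit 1) (.p (nat_lit 285) (nat_lit 1) (.n (nat_lit 288) (nat_lit 1) (.n (nat_lit 292) (nat_lit 1) (.n (nat_lit 293) (nat_lit 2) (.p (nat_lit 294) (nat_lit 3) (.n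 (nat_lit 295) (nat_lit 1) (.n (nat_lit 296) (nat_lit 3) (.n (nat_lit 297) (nat_lit 1) (.n (nat_lit 299) (nat_lit 1) (.n (nat_lit 301) (nat_lit 1) (.n (nat_lit 302) (nat_lit 7) (.n (nat_lit 303) (nat_lit 7) (.n (nat_lit 304) (nat_lit 12) (.n (nat_lit 305) (nat_lit 8) (.n (nat_lit 306) (nat_lit 11) (.p (nat_lit 307) (nat_lit 9) (.p (nat_lit 308) (nat_lit 7) (.n (nat_lit 309) (nat_lit 10) (.n (nat_lit 310) (nat_lit 9) (.n (nat_lit 311) (nat_lit 19) (.p (nat_lit 312) (nat_lit 2) (.p (nat_lit 313) (nat_lit 7) (.n (nat_lit 314) (nat_lit 3) (.p (nat_lit 315) (nat_lit 5) (.p (nat_lit 316) (nat_lit 27) (.p (nat_lit 317) (nat_lit 4) (.p (nat_lit 318) (nat_lit 23) (.n (nat_lit 319) (nat_lit 1) (.p (nat_lit 320) (nat_lit 2) (.p (nat_lit 321) (nat_lit 6) (.p (nat_lit 322) (nat_lit 20) (.p (nat_lit 323) (nat_lit 4) (.p (nat_lit 324) (nat_lit 13) (.n (nat_lit 325) (nat_lit 8) (.n (nat_lit 326) (nat_lit 13) (.n (nat_lit 327)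 (nat_lit 5) (.p (nat_lit 328) (nat_lit 9) (.n (nat_lit 329) (nat_lit 10) (.n (nat_lit 330) (nat_lit 12) (.n (nat_lit 331) (nat_lit 4) (.p (nat_lit 332) (nat_lit 9) (.p (nat_lit 334) (nat_lit 2) (.n (nat_lit 335) (nat_lit 11) (.p (nat_lit 336) (nat_lit 3) (.n (nat_lit 337) (nat_lit 1) (.p (nat_lit 338) (nat_lit 5) (.p (nat_lit 339) (nat_lit 4) (.p (nat_lit 340) (nat_lit 8) (.n (nat_lit 341) (nat_lit 15) (.n (nat_lit 342) (nat_lit 27) (.n (nat_lit 343) (nat_lit 7) (.n (nat_lit 344) (nat_lit 7) (.p (nat_lit 345) (nat_lit 7) (.n (nat_lit 346) (nat_lit 6) (.n (nat_lit 347) (nat_lit 3) (.p (nat_lit 348) (nat_lit 4) (.n (nat_lit 349) (nat_lit 25) (.p (nat_lit 350) (nat_lit 18) (.n (nat_lit 351) (nat_lit 5) .z)))))))))))))))))))))))))))))))))))))))))))))))))))))))))))) (.u (nat_lit 2) (.n (nat_lit 353) (nat_lit 2) (.n (nat_lit 354) (nat_lit 6) (.p (nat_lit 355) (nat_lit 5) (.p (nat_lit 356) (nat_lit 17) (.n (nat_lit 357)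 (nat_lit 22) (.n (nat_lit 358) (nat_lit 23) (.n (nat_lit 359) (nat_lit 15) (.n (nat_lit 360) (nat_lit 16) (.n (nat_lit 361) (nat_lit 4) (.p (nat_lit 362) (nat_lit 2) (.p (nat_lit 363) (nat_lit 5) (.p (nat_lit 364) (nat_lit 6) (.p (nat_lit 367) (nat_lit 6) (.n (nat_lit 368) (nat_lit 8) (.n (nat_lit 369) (nat_lit 5) (.n (nat_lit 370) (nat_lit 3) (.n (nat_lit 371) (nat_lit 15) (.p (nat_lit 372) (nat_lit 15) (.p (nat_lit 373) (nat_lit 17) (.n (nat_lit 374) (nat_lit 2) (.n (nat_lit 375) (nat_lit 2) (.n (nat_lit 376) (nat_lit 15) (.n (nat_lit 377) (nat_lit 4) (.n (nat_lit 378) (nat_lit 1) (.n (nat_lit 379) (nat_lit 2) (.p (nat_lit 380) (nat_lit 3) (.n (nat_lit 382) (nat_lit 2) (.p (nat_lit 383) (nat_lit 12) (.n (nat_lit 384) (nat_lit 5) (.n (nat_lit 385) (nat_lit 3) (.p (nat_lit 387) (nat_lit 1) (.n (nat_lit 388) (nat_lit 3) (.p (nat_lit 389) (nat_lit 4) (.n (nat_lit 390) (nat_lit 4) (.p (nat_lit 392) (nat_lit 2) (.p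 (nat_lit 393) (nat_lit 1) (.p (nat_lit 394) (nat_lit 1) (.p (nat_lit 395) (nat_lit 5) (.p (nat_lit 397) (nat_lit 2) (.p (nat_lit 400) (nat_lit 3) (.n (nat_lit 401) (nat_lit 5) .z))))))))))))))))))))))))))))))))))))))))) .nil)))))))))))))))))))))))))

noncomputable def dC2d_i128 : IL := (.e true (nat_lit 2) (nat_lit 208) (nat_lit 2) (nat_lit 16) (.e true (nat_lit 1) (nat_lit 227) (nat_lit 2) (nat_lit 16) (.e false (nat_lit 1) (nat_lit 272) (nat_lit 1) (nat_lit 17) (.e true (nat_lit 3) (nat_lit 206) (nat_lit 2) (nat_lit 16) (.e true (nat_lit 3) (nat_lit 207) (nat_lit 2) (nat_lit 16) (.e false (nat_lit 1) (nat_lit 211) (nat_lit 2) (nat_lit 16) (.e false (nat_lit 3) (nat_lit 230) (nat_lit 2) (nat_lit 16) (.e true (nat_lit 3) (nat_lit 298) (nat_lit 0) (nat_lit 18) (.e false (nat_lit 1) (nat_lit 254) (nat_lit 1) (nat_lit 17) (.e false (nat_lit 3) (nat_lit 266) (nat_lit 1) (nat_lit 17) (.e false (nat_lit 1) (nat_lit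 269) (nat_lit 1) (nat_lit 17) (.e false (nat_lit 3) (nat_lit 278) (nat_lit 1) (nat_lit 17) (.e false (nat_lit 2) (nat_lit 234) (nat_lit 2) (nat_lit 16) (.e false (nat_lit 1) (nat_lit 229) (nat_lit 2) (nat_lit 16) (.e true (nat_lit 1) (nat_lit 155) (nat_lit 6) (nat_lit 12) (.e false (nat_lit 3) (nat_lit 252) (nat_lit 1) (nat_lit 17) (.e false (nat_lit 1) (nat_lit 255) (nat_lit 1) (nat_lit 17) (.e false (nat_lit 3) (nat_lit 257) (nat_lit 1) (nat_lit 17) (.e true (nat_lit 2) (nat_lit 258) (nat_lit 1) (nat_lit 17) (.e true (nat_lit 1) (nat_lit 277) (nat_lit 1) (nat_lit 17) (.e false (nat_lit 1) (nat_lit 209) (nat_lit 2) (nat_lit 16) (.e true (nat_lit 2) (nat_lit 235) (nat_lit 2) (nat_lit 16) (.e false (nat_lit 1) (nat_lit 256) (nat_lit 1) (nat_lit 17) (.e true (nat_lit 1) (nat_lit 259) (nat_lit 1) (nat_lit 17) (.e false (nat_lit 1) (nat_lit 260) (nat_lit 1) (nat_lit 17) dC2d_i127)))))))))))))))))))))))))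

noncomputable def dC2d_i129 : IL := (.s false (nat_lit 3) (nat_lit 84) (nat_lit 1) (nat_lit 2) (nat_lit 1) true (nat_lit 14) true (nat_lit 17) false (nat_lit 7) true (nat_lit 17) true (nat_lit 16) (.s true (nat_lit 1) (nat_lit 85) (nat_lit 1) (nat_lit 2) (nat_lit 1) true (nat_lit 14) true (nat_lit 17) false (nat_lit 7) true (nat_lit 17) true (nat_lit 16) (.s false (nat_lit 3) (nat_lit 86) (nat_lit 1) (nat_lit 2) (nat_lit 1) true (nat_lit 14) true (nat_lit 17) false (nat_lit 7) true (nat_lit 17) true (nat_lit 16) (.s false (nat_lit 3) (nat_lit 89) (nat_lit 1) (nat_lit 2) (nat_lit 1) true (nat_lit 14) true (nat_lit 17) false (nat_lit 7) true (nat_lit 17) true (nat_lit 16) (.s false (nat_lit 1) (nat_lit 83) (nat_lit 2) (nat_lit 1) (nat_lit 1) true (nat_lit 12) true (nat_lit 17) false (nat_lit 7) true (nat_lit 16) true (nat_lit 17) (.s true (nat_lit 3) (nat_lit 88) (nat_lit 2) (nat_lit 1) (nat_lit 1) true (nat_lit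 12) true (nat_lit 17) false (nat_lit 7) true (nat_lit 16) true (nat_lit 17) (.s false (nat_lit 1) (nat_lit 89) (nat_lit 2) (nat_lit 1) (nat_lit 1) true (nat_lit 12) true (nat_lit 17) false (nat_lit 7) true (nat_lit 16) true (nat_lit 17) (.s false (nat_lit 1) (nat_lit 92) (nat_lit 0) (nat_lit 1) (nat_lit 2) true (nat_lit 13) true (nat_lit 16) false (nat_lit 8) true (nat_lit 18) true (nat_lit 17) (.s false (nat_lit 3) (nat_lit 96) (nat_lit 0) (nat_lit 1) (nat_lit 2) true (nat_lit 13) true (nat_lit 16) false (nat_lit 8) true (nat_lit 18) true (nat_lit 17) (.s true (nat_lit 2) (nat_lit 91) (nat_lit 0) (nat_lit 2) (nat_lit 1) true (nat_lit 15) true (nat_lit 17) false (nat_lit 8) true (nat_lit 18) true (nat_lit 16) (.s false (nat_lit 1) (nat_lit 92) (nat_lit 0) (nat_lit 2) (nat_lit 1) true (nat_lit 15) true (nat_lit 17) false (nat_lit 8) true (nat_lit 18) true (nat_lit 16) (.s true (nat_lit 2) (nat_lit 93) (nat_lit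 0) (nat_lit 2) (nat_lit 1) true (nat_lit 15) true (nat_lit 17) false (nat_lit 8) true (nat_lit 18) true (nat_lit 16) (.s false (nat_lit 3) (nat_lit 96) (nat_lit 0) (nat_lit 2) (nat_lit 1) true (nat_lit 15) true (nat_lit 17) false (nat_lit 8) true (nat_lit 18) true (nat_lit 16) (.s true (nat_lit 3) (nat_lit 92) (nat_lit 1) (nat_lit 2) (nat_lit 0) true (nat_lit 15) true (nat_lit 18) false (nat_lit 8) true (nat_lit 17) true (nat_lit 16) (.s true (nat_lit 1) (nat_lit 93) (nat_lit 1) (nat_lit 2) (nat_lit 0) true (nat_lit 15) true (nat_lit 18) false (nat_lit 8) true (nat_lit 17) true (nat_lit 16) (.s false (nat_lit 3) (nat_lit 92) (nat_lit 2) (nat_lit 1) (nat_lit 0) true (nat_lit 13) true (nat_lit 18) false (nat_lit 8) true (nat_lit 16) true (nat_lit 17) (.s false (nat_lit 1) (nat_lit 93) (nat_lit 2) (nat_lit 1) (nat_lit 0) true (nat_lit 13) true (nat_lit 18) false (nat_lit 8) true (nat_lit 16) true (nat_lit 17) (.s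 true (nat_lit 2) (nat_lit 97) (nat_lit 1) (nat_lit 1) (nat_lit 1) true (nat_lit 14) true (nat_lit 17) false (nat_lit 9) true (nat_lit 17) true (nat_lit 17) (.s false (nat_lit 3) (nat_lit 101) (nat_lit 0) (nat_lit 1) (nat_lit 1) true (nat_lit 15) true (nat_lit 17) false (nat_lit 10) true (nat_lit 18) true (nat_lit 17) (.s false (nat_lit 2) (nat_lit 103) (nat_lit 0) (nat_lit 1) (nat_lit 1) true (nat_lit 15) true (nat_lit 17) false (nat_lit 10) true (nat_lit 18) true (nat_lit 17) (.s false (nat_lit 1) (nat_lit 101) (nat_lit 1) (nat_lit 1) (nat_lit 0) true (nat_lit 15) true (nat_lit 18) false (nat_lit 10) true (nat_lit 17) true (nat_lit 17) (.s true (nat_lit 3) (nat_lit 103) (nat_lit 1) (nat_lit 1) (nat_lit 0) true (nat_lit 15) true (nat_lit 18) false (nat_lit 10) true (nat_lit 17) true (nat_lit 17) (.s false (nat_lit 2) (nat_lit 104) (nat_lit 1) (nat_lit 1) (nat_lit 0) true (nat_lit 15) true (nat_lit 18) false (nat_lit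 10) true (nat_lit 17) true (nat_lit 17) (.e false (nat_lit 2) (nat_lit 138) (nat_lit 6) (nat_lit 12) (.e true (nat_lit 2) (nat_lit 205) (nat_lit 2) (nat_lit 16) dC2d_i128)))))))))))))))))))))))))

noncomputable def dC2d_i130 : IL := (.s true (nat_lit 1) (nat_lit 60) (nat_lit 2) (nat_lit 2) (nat_lit 1) true (nat_lit 12) true (nat_lit 17) false (nat_lit 5) true (nat_lit 16) true (nat_lit 16) (.s false (nat_lit 2) (nat_lit 61) (nat_lit 2) (nat_lit 2) (nat_lit 1) true (nat_lit 12) true (nat_lit 17) false (nat_lit 5) true (nat_lit 16) true (nat_lit 16) (.s true (nat_lit 2) (nat_lit 62) (nat_lit 2) (nat_lit 2) (nat_lit 1) true (nat_lit 12) true (nat_lit 17) false (nat_lit 5) true (nat_lit 16) true (nat_lit 16) (.s true (nat_lit 3) (nat_lit 63) (nat_lit 2) (nat_lit 2) (nat_lit 1) true (nat_lit 12) true (nat_lit 17) false (nat_lit 5) true (nat_lit 16) true (nat_lit 16) (.s false (nat_lit 1) (nat_lit 66) (nat_lit 2) (nat_lit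 2) (nat_lit 1) true (nat_lit 12) true (nat_lit 17) false (nat_lit 5) true (nat_lit 16) true (nat_lit 16) (.s true (nat_lit 1) (nat_lit 67) (nat_lit 2) (nat_lit 2) (nat_lit 1) true (nat_lit 12) true (nat_lit 17) false (nat_lit 5) true (nat_lit 16) true (nat_lit 16) (.s true (nat_lit 3) (nat_lit 68) (nat_lit 2) (nat_lit 2) (nat_lit 1) true (nat_lit 12) true (nat_lit 17) false (nat_lit 5) true (nat_lit 16) true (nat_lit 16) (.s false (nat_lit 1) (nat_lit 73) (nat_lit 2) (nat_lit 2) (nat_lit 1) true (nat_lit 12) true (nat_lit 17) false (nat_lit 5) true (nat_lit 16) true (nat_lit 16) (.s true (nat_lit 3) (nat_lit 74) (nat_lit 0) (nat_lit 2) (nat_lit 2) true (nat_lit 13) true (nat_lit 16) false (nat_lit 6) true (nat_lit 18) true (nat_lit 16) (.s false (nat_lit 3) (nat_lit 77) (nat_lit 0) (nat_lit 2) (nat_lit 2) true (nat_lit 13) true (nat_lit 16) false (nat_lit 6) true (nat_lit 18) true (nat_lit 16) (.s true (nat_lit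 3) (nat_lit 78) (nat_lit 0) (nat_lit 2) (nat_lit 2) true (nat_lit 13) true (nat_lit 16) false (nat_lit 6) true (nat_lit 18) true (nat_lit 16) (.s true (nat_lit 2) (nat_lit 79) (nat_lit 0) (nat_lit 2) (nat_lit 2) true (nat_lit 13) true (nat_lit 16) false (nat_lit 6) true (nat_lit 18) true (nat_lit 16) (.s false (nat_lit 3) (nat_lit 77) (nat_lit 2) (nat_lit 0) (nat_lit 2) true (nat_lit 11) true (nat_lit 16) false (nat_lit 6) true (nat_lit 16) true (nat_lit 18) (.s true (nat_lit 3) (nat_lit 78) (nat_lit 2) (nat_lit 0) (nat_lit 2) true (nat_lit 11) true (nat_lit 16) false (nat_lit 6) true (nat_lit 16) true (nat_lit 18) (.s false (nat_lit 3) (nat_lit 79) (nat_lit 2) (nat_lit 0) (nat_lit 2) true (nat_lit 11) true (nat_lit 16) false (nat_lit 6) true (nat_lit 16) true (nat_lit 18) (.s true (nat_lit 3) (nat_lit 74) (nat_lit 2) (nat_lit 2) (nat_lit 0) true (nat_lit 13) true (nat_lit 18) false (nat_lit 6) true (nat_lit 16)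 true (nat_lit 16) (.s false (nat_lit 3) (nat_lit 78) (nat_lit 2) (nat_lit 2) (nat_lit 0) true (nat_lit 13) true (nat_lit 18) false (nat_lit 6) true (nat_lit 16) true (nat_lit 16) (.s false (nat_lit 2) (nat_lit 80) (nat_lit 1) (nat_lit 1) (nat_lit 2) true (nat_lit 12) true (nat_lit 16) false (nat_lit 7) true (nat_lit 17) true (nat_lit 17) (.s false (nat_lit 1) (nat_lit 81) (nat_lit 1) (nat_lit 1) (nat_lit 2) true (nat_lit 12) true (nat_lit 16) false (nat_lit 7) true (nat_lit 17) true (nat_lit 17) (.s true (nat_lit 1) (nat_lit 83) (nat_lit 1) (nat_lit 1) (nat_lit 2) true (nat_lit 12) true (nat_lit 16) false (nat_lit 7) true (nat_lit 17) true (nat_lit 17) (.s false (nat_lit 2) (nat_lit 88) (nat_lit 1) (nat_lit 1) (nat_lit 2) true (nat_lit 12) true (nat_lit 16) false (nat_lit 7) true (nat_lit 17) true (nat_lit 17) (.s false (nat_lit 1) (nat_lit 89) (nat_lit 1) (nat_lit 1) (nat_lit 2) true (nat_lit 12) true (nat_lit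 16) false (nat_lit 7) true (nat_lit 17) true (nat_lit 17) (.s true (nat_lit 3) (nat_lit 80) (nat_lit 1) (nat_lit 2) (nat_lit 1) true (nat_lit 14) true (nat_lit 17) false (nat_lit 7) true (nat_lit 17) true (nat_lit 16) (.s false (nat_lit 3) (nat_lit 82) (nat_lit 1) (nat_lit 2) (nat_lit 1) true (nat_lit 14) true (nat_lit 17) false (nat_lit 7) true (nat_lit 17) true (nat_lit 16) (.s true (nat_lit 1) (nat_lit 83) (nat_lit 1) (nat_lit 2) (nat_lit 1) true (nat_lit 14) true (nat_lit 17) false (nat_lit 7) true (nat_lit 17) true (nat_lit 16) dC2d_i129)))))))))))))))))))))))))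

noncomputable def dC2d_i131 : IL := (.s false (nat_lit 3) (nat_lit 52) (nat_lit 2) (nat_lit 2) (nat_lit 2) true (nat_lit 11) true (nat_lit 16) false (nat_lit 4) true (nat_lit 16) true (nat_lit 16) (.s true (nat_lit 2) (nat_lit 53) (nat_lit 2) (nat_lit 2) (nat_lit 2) true (nat_lit 11) true (nat_lit 16) false (nat_lit 4) true (nat_lit 16) true (nat_lit 16) (.s true (nat_lit 1) (nat_lit 54) (nat_lit 2) (nat_lit 2) (nat_lit 2) true (nat_lit 11) true (nat_lit 16) false (nat_lit 4) true (nat_lit 16) true (nat_lit 16) (.s true (nat_lit 3) (nat_lit 55) (nat_lit 2) (nat_lit 2) (nat_lit 2) true (nat_lit 11) true (nat_lit 16) false (nat_lit 4) true (nat_lit 16) true (nat_lit 16) (.s true (nat_lit 1) (nat_lit 57) (nat_lit 2) (nat_lit 2) (nat_lit 2) true (nat_lit 11) true (nat_lit 16) false (nat_lit 4) true (nat_lit 16) true (nat_lit 16) (.s false (nat_lit 3) (nat_lit 59) (nat_lit 2) (nat_lit 2) (nat_lit 2) true (nat_lit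 11) true (nat_lit 16) false (nat_lit 4) true (nat_lit 16) true (nat_lit 16) (.s true (nat_lit 2) (nat_lit 60) (nat_lit 1) (nat_lit 2) (nat_lit 2) true (nat_lit 12) true (nat_lit 16) false (nat_lit 5) true (nat_lit 17) true (nat_lit 16) (.s false (nat_lit 3) (nat_lit 61) (nat_lit 1) (nat_lit 2) (nat_lit 2) true (nat_lit 12) true (nat_lit 16) false (nat_lit 5) true (nat_lit 17) true (nat_lit 16) (.s true (nat_lit 3) (nat_lit 62) (nat_lit 1) (nat_lit 2) (nat_lit 2) true (nat_lit 12) true (nat_lit 16) false (nat_lit 5) true (nat_lit 17) true (nat_lit 16) (.s true (nat_lit 2) (nat_lit 63) (nat_lit 1) (nat_lit 2) (nat_lit 2) true (nat_lit 12) true (nat_lit 16) false (nat_lit 5) true (nat_lit 17) true (nat_lit 16) (.s false (nat_lit 2) (nat_lit 64) (nat_lit 1) (nat_lit 2) (nat_lit 2) true (nat_lit 12) true (nat_lit 16) false (nat_lit 5) true (nat_lit 17) true (nat_lit 16) (.s false (nat_lit 3) (nat_lit 65) (nat_lit 1)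 (nat_lit 2) (nat_lit 2) true (nat_lit 12) true (nat_lit 16) false (nat_lit 5) true (nat_lit 17) true (nat_lit 16) (.s false (nat_lit 3) (nat_lit 66) (nat_lit 1) (nat_lit 2) (nat_lit 2) true (nat_lit 12) true (nat_lit 16) false (nat_lit 5) true (nat_lit 17) true (nat_lit 16) (.s false (nat_lit 3) (nat_lit 67) (nat_lit 1) (nat_lit 2) (nat_lit 2) true (nat_lit 12) true (nat_lit 16) false (nat_lit 5) true (nat_lit 17) true (nat_lit 16) (.s true (nat_lit 1) (nat_lit 68) (nat_lit 1) (nat_lit 2) (nat_lit 2) true (nat_lit 12) true (nat_lit 16) false (nat_lit 5) true (nat_lit 17) true (nat_lit 16) (.s false (nat_lit 2) (nat_lit 69) (nat_lit 1) (nat_lit 2) (nat_lit 2) true (nat_lit 12) true (nat_lit 16) false (nat_lit 5) true (nat_lit 17) true (nat_lit 16) (.s false (nat_lit 1) (nat_lit 72) (nat_lit 1) (nat_lit 2) (nat_lit 2) true (nat_lit 12) true (nat_lit 16) false (nat_lit 5) true (nat_lit 17) true (nat_lit 16) (.s false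 (nat_lit 1) (nat_lit 73) (nat_lit 1) (nat_lit 2) (nat_lit 2) true (nat_lit 12) true (nat_lit 16) false (nat_lit 5) true (nat_lit 17) true (nat_lit 16) (.s false (nat_lit 1) (nat_lit 62) (nat_lit 2) (nat_lit 1) (nat_lit 2) true (nat_lit 11) true (nat_lit 16) false (nat_lit 5) true (nat_lit 16) true (nat_lit 17) (.s false (nat_lit 3) (nat_lit 63) (nat_lit 2) (nat_lit 1) (nat_lit 2) true (nat_lit 11) true (nat_lit 16) false (nat_lit 5) true (nat_lit 16) true (nat_lit 17) (.s false (nat_lit 2) (nat_lit 64) (nat_lit 2) (nat_lit 1) (nat_lit 2) true (nat_lit 11) true (nat_lit 16) false (nat_lit 5) true (nat_lit 16) true (nat_lit 17) (.s true (nat_lit 2) (nat_lit 65) (nat_lit 2) (nat_lit 1) (nat_lit 2) true (nat_lit 11) true (nat_lit 16) false (nat_lit 5) true (nat_lit 16) true (nat_lit 17) (.s true (nat_lit 2) (nat_lit 66) (nat_lit 2) (nat_lit 1) (nat_lit 2) true (nat_lit 11) true (nat_lit 16) false (nat_lit 5) true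 (nat_lit 16) true (nat_lit 17) (.s false (nat_lit 2) (nat_lit 69) (nat_lit 2) (nat_lit 1) (nat_lit 2) true (nat_lit 11) true (nat_lit 16) false (nat_lit 5) true (nat_lit 16) true (nat_lit 17) (.s false (nat_lit 2) (nat_lit 72) (nat_lit 2) (nat_lit 1) (nat_lit 2) true (nat_lit 11) true (nat_lit 16) false (nat_lit 5) true (nat_lit 16) true (nat_lit 17) dC2d_i130)))))))))))))))))))))))))

noncomputable def dC2d_i132 : IL := (.s true (nat_lit 3) (nat_lit 37) (nat_lit 1) (nat_lit 2) (nat_lit 6) true (nat_lit 7) true (nat_lit 12) true (nat_lit 0) true (nat_lit 17) true (nat_lit 16) (.s true (nat_lit 3) (nat_lit 34) (nat_lit 1) (nat_lit 6) (nat_lit 2) true (nat_lit 12) true (nat_lit 16) true (nat_lit 0) true (nat_lit 17) true (nat_lit 12) (.s false (nat_lit 2) (nat_lit 33) (nat_lit 1) (nat_lit 7) (nat_lit 1) true (nat_lit 14) true (nat_lit 17) true (nat_lit 0) true (nat_lit 17) true (nat_lit 11) (.s false (nat_lit 2)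 (nat_lit 34) (nat_lit 1) (nat_lit 7) (nat_lit 1) true (nat_lit 14) true (nat_lit 17) true (nat_lit 0) true (nat_lit 17) true (nat_lit 11) (.s true (nat_lit 2) (nat_lit 34) (nat_lit 2) (nat_lit 1) (nat_lit 6) true (nat_lit 5) true (nat_lit 12) true (nat_lit 0) true (nat_lit 16) true (nat_lit 17) (.s false (nat_lit 1) (nat_lit 36) (nat_lit 2) (nat_lit 2) (nat_lit 4) true (nat_lit 7) true (nat_lit 14) true (nat_lit 0) true (nat_lit 16) true (nat_lit 16) (.s true (nat_lit 2) (nat_lit 34) (nat_lit 2) (nat_lit 6) (nat_lit 1) true (nat_lit 12) true (nat_lit 17) true (nat_lit 0) true (nat_lit 16) true (nat_lit 12) (.s true (nat_lit 2) (nat_lit 33) (nat_lit 4) (nat_lit 2) (nat_lit 2) true (nat_lit 7) true (nat_lit 16) true (nat_lit 0) true (nat_lit 14) true (nat_lit 16) (.s false (nat_lit 2) (nat_lit 40) (nat_lit 2) (nat_lit 5) (nat_lit 1) true (nat_lit 12) true (nat_lit 17) false (nat_lit 0) true (nat_lit 16) true (nat_lit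 13) (.s true (nat_lit 2) (nat_lit 41) (nat_lit 5) (nat_lit 2) (nat_lit 1) true (nat_lit 8) true (nat_lit 17) false (nat_lit 0) true (nat_lit 13) true (nat_lit 16) (.s false (nat_lit 2) (nat_lit 42) (nat_lit 1) (nat_lit 4) (nat_lit 2) true (nat_lit 12) true (nat_lit 16) false (nat_lit 1) true (nat_lit 17) true (nat_lit 14) (.s true (nat_lit 3) (nat_lit 45) (nat_lit 1) (nat_lit 1) (nat_lit 5) true (nat_lit 8) true (nat_lit 13) false (nat_lit 2) true (nat_lit 17) true (nat_lit 17) (.s false (nat_lit 2) (nat_lit 45) (nat_lit 1) (nat_lit 3) (nat_lit 2) true (nat_lit 12) true (nat_lit 16) false (nat_lit 2) true (nat_lit 17) true (nat_lit 15) (.s false (nat_lit 3) (nat_lit 47) (nat_lit 1) (nat_lit 3) (nat_lit 2) true (nat_lit 12) true (nat_lit 16) false (nat_lit 2) true (nat_lit 17) true (nat_lit 15) (.s true (nat_lit 3) (nat_lit 47) (nat_lit 2) (nat_lit 3) (nat_lit 1) true (nat_lit 12) true (nat_lit 17) false (nat_lit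 2) true (nat_lit 16) true (nat_lit 15) (.s false (nat_lit 1) (nat_lit 46) (nat_lit 3) (nat_lit 2) (nat_lit 1) true (nat_lit 10) true (nat_lit 17) false (nat_lit 2) true (nat_lit 15) true (nat_lit 16) (.s false (nat_lit 2) (nat_lit 45) (nat_lit 5) (nat_lit 1) (nat_lit 1) true (nat_lit 8) true (nat_lit 17) false (nat_lit 2) true (nat_lit 13) true (nat_lit 17) (.s false (nat_lit 2) (nat_lit 46) (nat_lit 5) (nat_lit 1) (nat_lit 1) true (nat_lit 8) true (nat_lit 17) false (nat_lit 2) true (nat_lit 13) true (nat_lit 17) (.s true (nat_lit 1) (nat_lit 47) (nat_lit 5) (nat_lit 1) (nat_lit 1) true (nat_lit 8) true (nat_lit 17) false (nat_lit 2) true (nat_lit 13) true (nat_lit 17) (.s true (nat_lit 1) (nat_lit 48) (nat_lit 0) (nat_lit 4) (nat_lit 1) true (nat_lit 15) true (nat_lit 17) false (nat_lit 3) true (nat_lit 18) true (nat_lit 14) (.s true (nat_lit 1) (nat_lit 48) (nat_lit 1) (nat_lit 0) (nat_lit 4) true (nat_lit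 9) true (nat_lit 14) false (nat_lit 3) true (nat_lit 17) true (nat_lit 18) (.s false (nat_lit 1) (nat_lit 48) (nat_lit 1) (nat_lit 3) (nat_lit 1) true (nat_lit 14) true (nat_lit 17) false (nat_lit 3) true (nat_lit 17) true (nat_lit 15) (.s false (nat_lit 3) (nat_lit 48) (nat_lit 3) (nat_lit 1) (nat_lit 1) true (nat_lit 10) true (nat_lit 17) false (nat_lit 3) true (nat_lit 15) true (nat_lit 17) (.s true (nat_lit 3) (nat_lit 48) (nat_lit 4) (nat_lit 0) (nat_lit 1) true (nat_lit 9) true (nat_lit 17) false (nat_lit 3) true (nat_lit 14) true (nat_lit 18) (.s false (nat_lit 3) (nat_lit 48) (nat_lit 4) (nat_lit 1) (nat_lit 0) true (nat_lit 10) true (nat_lit 18) false (nat_lit 3) true (nat_lit 14) true (nat_lit 17) dC2d_i131)))))))))))))))))))))))))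

noncomputable def dC2d_i133 : IL := (.s false (nat_lit 3) (nat_lit 23) (nat_lit 7) (nat_lit 2) (nat_lit 2) true (nat_lit 4) true (nat_lit 16) true (nat_lit 3) true (nat_lit 11) true (nat_lit 16) (.s false (nat_lit 1) (nat_lit 24) (nat_lit 1) (nat_lit 2) (nat_lit 7) true (nat_lit 5) true (nat_lit 11) true (nat_lit 2) true (nat_lit 17) true (nat_lit 16) (.s false (nat_lit 2) (nat_lit 25) (nat_lit 1) (nat_lit 2) (nat_lit 7) true (nat_lit 5) true (nat_lit 11) true (nat_lit 2) true (nat_lit 17) true (nat_lit 16) (.s false (nat_lit 2) (nat_lit 26) (nat_lit 1) (nat_lit 2) (nat_lit 7) true (nat_lit 5) true (nat_lit 11) true (nat_lit 2) true (nat_lit 17) true (nat_lit 16) (.s true (nat_lit 3) (nat_lit 27) (nat_lit 1) (nat_lit 2) (nat_lit 7) true (nat_lit 5) true (nat_lit 11) true (nat_lit 2) true (nat_lit 17) true (nat_lit 16) (.s true (nat_lit 2) (nat_lit 24) (nat_lit 1) (nat_lit 7) (nat_lit 2) true (nat_lit 12) true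 (nat_lit 16) true (nat_lit 2) true (nat_lit 17) true (nat_lit 11) (.s false (nat_lit 3) (nat_lit 25) (nat_lit 1) (nat_lit 7) (nat_lit 2) true (nat_lit 12) true (nat_lit 16) true (nat_lit 2) true (nat_lit 17) true (nat_lit 11) (.s true (nat_lit 3) (nat_lit 27) (nat_lit 1) (nat_lit 7) (nat_lit 2) true (nat_lit 12) true (nat_lit 16) true (nat_lit 2) true (nat_lit 17) true (nat_lit 11) (.s true (nat_lit 1) (nat_lit 25) (nat_lit 2) (nat_lit 1) (nat_lit 7) true (nat_lit 4) true (nat_lit 11) true (nat_lit 2) true (nat_lit 16) true (nat_lit 17) (.s true (nat_lit 1) (nat_lit 24) (nat_lit 2) (nat_lit 2) (nat_lit 6) true (nat_lit 5) true (nat_lit 12) true (nat_lit 2) true (nat_lit 16) true (nat_lit 16) (.s false (nat_lit 1) (nat_lit 25) (nat_lit 2) (nat_lit 2) (nat_lit 6) true (nat_lit 5) true (nat_lit 12) true (nat_lit 2) true (nat_lit 16) true (nat_lit 16) (.s false (nat_lit 1) (nat_lit 26) (nat_lit 2) (nat_lit 2) (nat_lit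 6) true (nat_lit 5) true (nat_lit 12) true (nat_lit 2) true (nat_lit 16) true (nat_lit 16) (.s false (nat_lit 3) (nat_lit 27) (nat_lit 2) (nat_lit 2) (nat_lit 6) true (nat_lit 5) true (nat_lit 12) true (nat_lit 2) true (nat_lit 16) true (nat_lit 16) (.s false (nat_lit 3) (nat_lit 24) (nat_lit 2) (nat_lit 6) (nat_lit 2) true (nat_lit 11) true (nat_lit 16) true (nat_lit 2) true (nat_lit 16) true (nat_lit 12) (.s true (nat_lit 3) (nat_lit 25) (nat_lit 2) (nat_lit 6) (nat_lit 2) true (nat_lit 11) true (nat_lit 16) true (nat_lit 2) true (nat_lit 16) true (nat_lit 12) (.s true (nat_lit 1) (nat_lit 24) (nat_lit 6) (nat_lit 2) (nat_lit 2) true (nat_lit 5) true (nat_lit 16) true (nat_lit 2) true (nat_lit 12) true (nat_lit 16) (.s false (nat_lit 3) (nat_lit 26) (nat_lit 6) (nat_lit 2) (nat_lit 2) true (nat_lit 5) true (nat_lit 16) true (nat_lit 2) true (nat_lit 12) true (nat_lit 16) (.s true (nat_lit 2) (nat_lit 27) (nat_lit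 6) (nat_lit 2) (nat_lit 2) true (nat_lit 5) true (nat_lit 16) true (nat_lit 2) true (nat_lit 12) true (nat_lit 16) (.s true (nat_lit 1) (nat_lit 30) (nat_lit 0) (nat_lit 7) (nat_lit 2) true (nat_lit 13) true (nat_lit 16) true (nat_lit 1) true (nat_lit 18) true (nat_lit 11) (.s true (nat_lit 2) (nat_lit 30) (nat_lit 2) (nat_lit 2) (nat_lit 5) true (nat_lit 6) true (nat_lit 13) true (nat_lit 1) true (nat_lit 16) true (nat_lit 16) (.s false (nat_lit 2) (nat_lit 30) (nat_lit 2) (nat_lit 5) (nat_lit 2) true (nat_lit 11) true (nat_lit 16) true (nat_lit 1) true (nat_lit 16) true (nat_lit 13) (.s true (nat_lit 2) (nat_lit 30) (nat_lit 2) (nat_lit 7) (nat_lit 0) true (nat_lit 13) true (nat_lit 18) true (nat_lit 1) true (nat_lit 16) true (nat_lit 11) (.s true (nat_lit 2) (nat_lit 30) (nat_lit 5) (nat_lit 2) (nat_lit 2) true (nat_lit 6) true (nat_lit 16) true (nat_lit 1) true (nat_lit 13) true (nat_lit 16) (.s true (nat_lit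 1) (nat_lit 33) (nat_lit 1) (nat_lit 1) (nat_lit 7) true (nat_lit 5) true (nat_lit 11) true (nat_lit 0) true (nat_lit 17) true (nat_lit 17) (.s true (nat_lit 3) (nat_lit 34) (nat_lit 1) (nat_lit 1) (nat_lit 7) true (nat_lit 5) true (nat_lit 11) true (nat_lit 0) true (nat_lit 17) true (nat_lit 17) dC2d_i132)))))))))))))))))))))))))

noncomputable def dC2d_i134 : IL := (.s false (nat_lit 3) (nat_lit 18) (nat_lit 9) (nat_lit 2) (nat_lit 2) true (nat_lit 2) true (nat_lit 16) true (nat_lit 5) true (nat_lit 10) true (nat_lit 16) (.s true (nat_lit 1) (nat_lit 19) (nat_lit 9) (nat_lit 2) (nat_lit 2) true (nat_lit 2) true (nat_lit 16) true (nat_lit 5) true (nat_lit 10) true (nat_lit 16) (.s false (nat_lit 3) (nat_lit 18) (nat_lit 11) (nat_lit 1) (nat_lit 2) true (nat_lit 0) true (nat_lit 16) true (nat_lit 5) true (nat_lit 8) true (nat_lit 17) (.s false (nat_lit 1) (nat_lit 18) (nat_lit 12) (nat_lit 1) (nat_lit 2) true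 (nat_lit 0) true (nat_lit 16) true (nat_lit 5) true (nat_lit 8) true (nat_lit 17) (.s false (nat_lit 3) (nat_lit 18) (nat_lit 11) (nat_lit 2) (nat_lit 1) true (nat_lit 2) true (nat_lit 17) true (nat_lit 5) true (nat_lit 8) true (nat_lit 16) (.s true (nat_lit 2) (nat_lit 19) (nat_lit 11) (nat_lit 2) (nat_lit 1) true (nat_lit 2) true (nat_lit 17) true (nat_lit 5) true (nat_lit 8) true (nat_lit 16) (.s false (nat_lit 1) (nat_lit 20) (nat_lit 0) (nat_lit 10) (nat_lit 2) true (nat_lit 13) true (nat_lit 16) true (nat_lit 4) true (nat_lit 18) true (nat_lit 9) (.s true (nat_lit 2) (nat_lit 20) (nat_lit 1) (nat_lit 1) (nat_lit 12) true (nat_lit 2) true (nat_lit 8) true (nat_lit 4) true (nat_lit 17) true (nat_lit 17) (.s false (nat_lit 2) (nat_lit 20) (nat_lit 1) (nat_lit 3) (nat_lit 6) true (nat_lit 7) true (nat_lit 12) true (nat_lit 4) true (nat_lit 17) true (nat_lit 15) (.s false (nat_lit 2) (nat_lit 20) (nat_lit 1)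 (nat_lit 8) (nat_lit 2) true (nat_lit 12) true (nat_lit 16) true (nat_lit 4) true (nat_lit 17) true (nat_lit 10) (.s true (nat_lit 2) (nat_lit 20) (nat_lit 1) (nat_lit 11) (nat_lit 1) true (nat_lit 14) true (nat_lit 17) true (nat_lit 4) true (nat_lit 17) true (nat_lit 8) (.s false (nat_lit 1) (nat_lit 20) (nat_lit 1) (nat_lit 12) (nat_lit 1) true (nat_lit 14) true (nat_lit 17) true (nat_lit 4) true (nat_lit 17) true (nat_lit 8) (.s true (nat_lit 3) (nat_lit 20) (nat_lit 2) (nat_lit 0) (nat_lit 10) true (nat_lit 1) true (nat_lit 9) true (nat_lit 4) true (nat_lit 16) true (nat_lit 18) (.s true (nat_lit 1) (nat_lit 20) (nat_lit 2) (nat_lit 1) (nat_lit 8) true (nat_lit 2) true (nat_lit 10) true (nat_lit 4) true (nat_lit 16) true (nat_lit 17) (.s false (nat_lit 1) (nat_lit 20) (nat_lit 3) (nat_lit 2) (nat_lit 4) true (nat_lit 3) true (nat_lit 14) true (nat_lit 4) true (nat_lit 15) true (nat_lit 16) (.s false (nat_lit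 1) (nat_lit 20) (nat_lit 9) (nat_lit 2) (nat_lit 1) true (nat_lit 3) true (nat_lit 17) true (nat_lit 4) true (nat_lit 10) true (nat_lit 16) (.s true (nat_lit 3) (nat_lit 20) (nat_lit 11) (nat_lit 1) (nat_lit 1) true (nat_lit 2) true (nat_lit 17) true (nat_lit 4) true (nat_lit 8) true (nat_lit 17) (.s true (nat_lit 3) (nat_lit 20) (nat_lit 12) (nat_lit 1) (nat_lit 1) true (nat_lit 2) true (nat_lit 17) true (nat_lit 4) true (nat_lit 8) true (nat_lit 17) (.s false (nat_lit 1) (nat_lit 21) (nat_lit 2) (nat_lit 2) (nat_lit 7) true (nat_lit 4) true (nat_lit 11) true (nat_lit 3) true (nat_lit 16) true (nat_lit 16) (.s false (nat_lit 2) (nat_lit 22) (nat_lit 2) (nat_lit 2) (nat_lit 7) true (nat_lit 4) true (nat_lit 11) true (nat_lit 3) true (nat_lit 16) true (nat_lit 16) (.s false (nat_lit 1) (nat_lit 23) (nat_lit 2) (nat_lit 2) (nat_lit 7) true (nat_lit 4) true (nat_lit 11) true (nat_lit 3) true (nat_lit 16) true (nat_lit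 16) (.s false (nat_lit 3) (nat_lit 21) (nat_lit 2) (nat_lit 7) (nat_lit 2) true (nat_lit 11) true (nat_lit 16) true (nat_lit 3) true (nat_lit 16) true (nat_lit 11) (.s false (nat_lit 2) (nat_lit 22) (nat_lit 2) (nat_lit 7) (nat_lit 2) true (nat_lit 11) true (nat_lit 16) true (nat_lit 3) true (nat_lit 16) true (nat_lit 11) (.s false (nat_lit 2) (nat_lit 23) (nat_lit 2) (nat_lit 7) (nat_lit 2) true (nat_lit 11) true (nat_lit 16) true (nat_lit 3) true (nat_lit 16) true (nat_lit 11) (.s true (nat_lit 1) (nat_lit 22) (nat_lit 7) (nat_lit 2) (nat_lit 2) true (nat_lit 4) true (nat_lit 16) true (nat_lit 3) true (nat_lit 11) true (nat_lit 16) dC2d_i133)))))))))))))))))))))))))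

noncomputable def dC2d_i135 : IL := (.s false (nat_lit 2) (nat_lit 14) (nat_lit 2) (nat_lit 3) (nat_lit 7) true (nat_lit 4) true (nat_lit 11) true (nat_lit 7) true (nat_lit 16) true (nat_lit 15) (.s false (nat_lit 1) (nat_lit 14) (nat_lit 2) (nat_lit 12) (nat_lit 2) true (nat_lit 11) true (nat_lit 16) true (nat_lit 7) true (nat_lit 16) true (nat_lit 8) (.s true (nat_lit 1) (nat_lit 15) (nat_lit 7) (nat_lit 3) (nat_lit 2) true (nat_lit 4) true (nat_lit 16) true (nat_lit 7) true (nat_lit 11) true (nat_lit 15) (.s false (nat_lit 2) (nat_lit 14) (nat_lit 12) (nat_lit 2) (nat_lit 2) true (nat_lit 0) true (nat_lit 16) true (nat_lit 7) true (nat_lit 8) true (nat_lit 16) (.s true (nat_lit 2) (nat_lit 16) (nat_lit 2) (nat_lit 2) (nat_lit 10) true (nat_lit 1) true (nat_lit 9) true (nat_lit 6) true (nat_lit 16) true (nat_lit 16) (.s false (nat_lit 3) (nat_lit 17) (nat_lit 2) (nat_lit 15) (nat_lit 1) true (nat_lit 12) true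 (nat_lit 17) true (nat_lit 6) true (nat_lit 16) true (nat_lit 7) (.s true (nat_lit 3) (nat_lit 17) (nat_lit 10) (nat_lit 2) (nat_lit 2) true (nat_lit 1) true (nat_lit 16) true (nat_lit 6) true (nat_lit 9) true (nat_lit 16) (.s false (nat_lit 2) (nat_lit 19) (nat_lit 0) (nat_lit 19) (nat_lit 1) true (nat_lit 15) true (nat_lit 17) true (nat_lit 5) true (nat_lit 18) true (nat_lit 5) (.s false (nat_lit 3) (nat_lit 18) (nat_lit 1) (nat_lit 2) (nat_lit 12) true (nat_lit 2) true (nat_lit 8) true (nat_lit 5) true (nat_lit 17) true (nat_lit 16) (.s true (nat_lit 2) (nat_lit 18) (nat_lit 1) (nat_lit 3) (nat_lit 7) true (nat_lit 5) true (nat_lit 11) true (nat_lit 5) true (nat_lit 17) true (nat_lit 15) (.s true (nat_lit 2) (nat_lit 19) (nat_lit 1) (nat_lit 7) (nat_lit 3) true (nat_lit 10) true (nat_lit 15) true (nat_lit 5) true (nat_lit 17) true (nat_lit 11) (.s false (nat_lit 2) (nat_lit 19) (nat_lit 1) (nat_lit 11) (nat_lit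 2) true (nat_lit 12) true (nat_lit 16) true (nat_lit 5) true (nat_lit 17) true (nat_lit 8) (.s true (nat_lit 1) (nat_lit 19) (nat_lit 1) (nat_lit 12) (nat_lit 2) true (nat_lit 12) true (nat_lit 16) true (nat_lit 5) true (nat_lit 17) true (nat_lit 8) (.s true (nat_lit 3) (nat_lit 18) (nat_lit 2) (nat_lit 2) (nat_lit 8) true (nat_lit 2) true (nat_lit 10) true (nat_lit 5) true (nat_lit 16) true (nat_lit 16) (.s true (nat_lit 2) (nat_lit 19) (nat_lit 2) (nat_lit 2) (nat_lit 9) true (nat_lit 2) true (nat_lit 10) true (nat_lit 5) true (nat_lit 16) true (nat_lit 16) (.s false (nat_lit 1) (nat_lit 19) (nat_lit 2) (nat_lit 3) (nat_lit 6) true (nat_lit 5) true (nat_lit 12) true (nat_lit 5) true (nat_lit 16) true (nat_lit 15) (.s false (nat_lit 2) (nat_lit 18) (nat_lit 2) (nat_lit 6) (nat_lit 3) true (nat_lit 8) true (nat_lit 15) true (nat_lit 5) true (nat_lit 16) true (nat_lit 12) (.s false (nat_lit 1) (nat_lit 18) (nat_lit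 2) (nat_lit 9) (nat_lit 2) true (nat_lit 11) true (nat_lit 16) true (nat_lit 5) true (nat_lit 16) true (nat_lit 10) (.s false (nat_lit 2) (nat_lit 19) (nat_lit 2) (nat_lit 9) (nat_lit 2) true (nat_lit 11) true (nat_lit 16) true (nat_lit 5) true (nat_lit 16) true (nat_lit 10) (.s true (nat_lit 1) (nat_lit 18) (nat_lit 2) (nat_lit 11) (nat_lit 1) true (nat_lit 12) true (nat_lit 17) true (nat_lit 5) true (nat_lit 16) true (nat_lit 8) (.s false (nat_lit 3) (nat_lit 18) (nat_lit 2) (nat_lit 12) (nat_lit 1) true (nat_lit 12) true (nat_lit 17) true (nat_lit 5) true (nat_lit 16) true (nat_lit 8) (.s false (nat_lit 3) (nat_lit 18) (nat_lit 5) (nat_lit 2) (nat_lit 4) true (nat_lit 2) true (nat_lit 14) true (nat_lit 5) true (nat_lit 13) true (nat_lit 16) (.s true (nat_lit 2) (nat_lit 19) (nat_lit 6) (nat_lit 3) (nat_lit 2) true (nat_lit 5) true (nat_lit 16) true (nat_lit 5) true (nat_lit 12) true (nat_lit 15) (.s false (nat_lit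 3) (nat_lit 18) (nat_lit 6) (nat_lit 5) (nat_lit 1) true (nat_lit 7) true (nat_lit 17) true (nat_lit 5) true (nat_lit 12) true (nat_lit 13) (.s true (nat_lit 3) (nat_lit 18) (nat_lit 8) (nat_lit 2) (nat_lit 2) true (nat_lit 2) true (nat_lit 16) true (nat_lit 5) true (nat_lit 10) true (nat_lit 16) dC2d_i134)))))))))))))))))))))))))

noncomputable def dC2d_i136 : IL := (.e true (nat_lit 2) (nat_lit 284) (nat_lit 1) (nat_lit 17) (.e true (nat_lit 2) (nat_lit 275) (nat_lit 1) (nat_lit 17) (.e true (nat_lit 3) (nat_lit 259) (nat_lit 1) (nat_lit 17) (.e false (nat_lit 3) (nat_lit 260) (nat_lit 1) (nat_lit 17) (.e true (nat_lit 1) (nat_lit 279) (nat_lit 1) (nat_lit 17) (.e false (nat_lit 1) (nat_lit 288) (nat_lit 1) (nat_lit 17) (.e false (nat_lit 1) (nat_lit 256) (nat_lit 1) (nat_lit 17) (.e true (nat_lit 3) (nat_lit 261) (nat_lit 1) (nat_lit 17) (.e false (nat_lit 2) (nat_lit 286) (nat_lit 1) (nat_lit 17) (.e false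 (nat_lit 1) (nat_lit 280) (nat_lit 1) (nat_lit 17) (.e false (nat_lit 3) (nat_lit 282) (nat_lit 1) (nat_lit 17) (.e false (nat_lit 1) (nat_lit 289) (nat_lit 0) (nat_lit 18) (.e false (nat_lit 2) (nat_lit 291) (nat_lit 0) (nat_lit 18) (.e false (nat_lit 1) (nat_lit 292) (nat_lit 0) (nat_lit 18) (.e false (nat_lit 1) (nat_lit 293) (nat_lit 0) (nat_lit 18) (.e true (nat_lit 1) (nat_lit 295) (nat_lit 0) (nat_lit 18) (.e false (nat_lit 2) (nat_lit 297) (nat_lit 0) (nat_lit 18) (.e false (nat_lit 2) (nat_lit 300) (nat_lit 0) (nat_lit 18) (.e true (nat_lit 2) (nat_lit 301) (nat_lit 0) (nat_lit 18) (.e true (nat_lit 2) (nat_lit 304) (nat_lit 0) (nat_lit 18) (.e true (nat_lit 2) (nat_lit 290) (nat_lit 0) (nat_lit 18) (.e true (nat_lit 2) (nat_lit 296) (nat_lit 0) (nat_lit 18) (.u (nat_lit 2) (.p (nat_lit 0) (nat_lit 1) (.n (nat_lit 1) (nat_lit 2) (.p (nat_lit 2) (nat_lit 3) (.p (nat_lit 3) (nat_lit 4) (.n (nat_lit 4) (nat_lit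 3) (.p (nat_lit 6) (nat_lit 8) (.p (nat_lit 7) (nat_lit 6) (.p (nat_lit 8) (nat_lit 1) (.n (nat_lit 9) (nat_lit 1) (.p (nat_lit 10) (nat_lit 2) (.n (nat_lit 11) (nat_lit 2) (.p (nat_lit 12) (nat_lit 1) (.p (nat_lit 14) (nat_lit 2) (.n (nat_lit 15) (nat_lit 6) (.p (nat_lit 16) (nat_lit 7) (.p (nat_lit 17) (nat_lit 3) (.p (nat_lit 18) (nat_lit 2) (.n (nat_lit 19) (nat_lit 4) (.n (nat_lit 20) (nat_lit 7) (.n (nat_lit 21) (nat_lit 3) (.p (nat_lit 22) (nat_lit 3) (.p (nat_lit 23) (nat_lit 1) (.p (nat_lit 24) (nat_lit 3) (.n (nat_lit 25) (nat_lit 2) (.n (nat_lit 26) (nat_lit 2) (.p (nat_lit 27) (nat_lit 1) (.p (nat_lit 28) (nat_lit 2) (.n (nat_lit 31) (nat_lit 3) (.n (nat_lit 32) (nat_lit 4) (.n (nat_lit 33) (nat_lit 2) (.n (nat_lit 34) (nat_lit 2) (.n (nat_lit 35) (nat_lit 1) (.p (nat_lit 36) (nat_lit 3) (.p (nat_lit 37) (nat_lit 3) (.p (nat_lit 38) (nat_lit 2) (.p (nat_lit 39) (nat_lit 3) (.p (nat_lit 42) (nat_lit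 1) (.p (nat_lit 45) (nat_lit 2) (.p (nat_lit 46) (nat_lit 5) (.n (nat_lit 47) (nat_lit 3) (.n (nat_lit 48) (nat_lit 1) (.n (nat_lit 50) (nat_lit 1) (.p (nat_lit 66) (nat_lit 1) (.n (nat_lit 67) (nat_lit 1) (.n (nat_lit 80) (nat_lit 1) (.n (nat_lit 90) (nat_lit 1) (.p (nat_lit 110) (nat_lit 1) (.n (nat_lit 111) (nat_lit 1) (.n (nat_lit 117) (nat_lit 1) (.p (nat_lit 119) (nat_lit 1) (.p (nat_lit 120) (nat_lit 1) (.n (nat_lit 124) (nat_lit 1) (.n (nat_lit 133) (nat_lit 1) (.p (nat_lit 134) (nat_lit 1) (.n (nat_lit 149) (nat_lit 1) (.p (nat_lit 204) (nat_lit 1) (.p (nat_lit 210) (nat_lit 1) (.n (nat_lit 211) (nat_lit 1) (.n (nat_lit 213) (nat_lit 1) (.n (nat_lit 214) (nat_lit 2) .z)))))))))))))))))))))))))))))))))))))))))))))))))))))))))))) (.u (nat_lit 2) (.n (nat_lit 215) (nat_lit 3) (.n (nat_lit 216) (nat_lit 2) (.p (nat_lit 217) (nat_lit 1) (.n (nat_lit 219) (nat_lit 3) (.p (nat_lit 220) (nat_lit 1) (.p (nat_lit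 221) (nat_lit 3) (.n (nat_lit 222) (nat_lit 1) (.n (nat_lit 223) (nat_lit 4) (.p (nat_lit 224) (nat_lit 3) (.n (nat_lit 225) (nat_lit 1) (.n (nat_lit 227) (nat_lit 2) (.p (nat_lit 229) (nat_lit 8) (.p (nat_lit 235) (nat_lit 1) (.n (nat_lit 236) (nat_lit 1) (.p (nat_lit 238) (nat_lit 1) (.p (nat_lit 242) (nat_lit 1) (.p (nat_lit 251) (nat_lit 1) (.n (nat_lit 252) (nat_lit 1) (.n (nat_lit 259) (nat_lit 1) (.p (nat_lit 261) (nat_lit 1) (.n (nat_lit 299) (nat_lit 1) (.p (nat_lit 300) (nat_lit 1) (.n (nat_lit 302) (nat_lit 10) (.n (nat_lit 303) (nat_lit 6) (.n (nat_lit 305) (nat_lit 1) (.p (nat_lit 306) (nat_lit 12) (.n (nat_lit 307) (nat_lit 1) (.n (nat_lit 308) (nat_lit 6) (.p (nat_lit 309) (nat_lit 6) (.p (nat_lit 310) (nat_lit 7) (.n (nat_lit 312) (nat_lit 5) (.p (nat_lit 313) (nat_lit 10) (.n (nat_lit 314) (nat_lit 5) (.p (nat_lit 315) (nat_lit 1) (.n (nat_lit 316) (nat_lit 5) (.n (nat_lit 317) (nat_lit 3) (.p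 (nat_lit 318) (nat_lit 2) (.n (nat_lit 319) (nat_lit 3) (.n (nat_lit 320) (nat_lit 2) (.p (nat_lit 322) (nat_lit 6) (.n (nat_lit 323) (nat_lit 1) (.n (nat_lit 325) (nat_lit 1) (.p (nat_lit 326) (nat_lit 3) (.p (nat_lit 327) (nat_lit 6) (.n (nat_lit 328) (nat_lit 4) (.p (nat_lit 329) (nat_lit 8) (.n (nat_lit 330) (nat_lit 1) (.n (nat_lit 331) (nat_lit 3) (.p (nat_lit 332) (nat_lit 1) (.p (nat_lit 335) (nat_lit 3) (.n (nat_lit 339) (nat_lit 8) (.n (nat_lit 340) (nat_lit 2) (.p (nat_lit 342) (nat_lit 3) (.p (nat_lit 343) (nat_lit 11) (.p (nat_lit 344) (nat_lit 8) (.p (nat_lit 345) (nat_lit 6) (.n (nat_lit 346) (nat_lit 2) (.n (nat_lit 347) (nat_lit 3) (.n (nat_lit 348) (nat_lit 5) (.p (nat_lit 349) (nat_lit 3) .z)))))))))))))))))))))))))))))))))))))))))))))))))))))))))))) (.u (nat_lit 2) (.p (nat_lit 350) (nat_lit 6) (.p (nat_lit 351) (nat_lit 4) (.p (nat_lit 353) (nat_lit 3) (.n (nat_lit 354) (nat_lit 3) (.n (nat_lit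 355) (nat_lit 11) (.p (nat_lit 356) (nat_lit 2) (.n (nat_lit 358) (nat_lit 3) (.n (nat_lit 359) (nat_lit 1) (.p (nat_lit 360) (nat_lit 1) (.n (nat_lit 361) (nat_lit 6) (.p (nat_lit 362) (nat_lit 13) (.n (nat_lit 363) (nat_lit 2) (.p (nat_lit 364) (nat_lit 10) (.p (nat_lit 366) (nat_lit 6) (.p (nat_lit 367) (nat_lit 9) (.n (nat_lit 368) (nat_lit 10) (.p (nat_lit 369) (nat_lit 5) (.n (nat_lit 370) (nat_lit 12) (.p (nat_lit 371) (nat_lit 4) (.n (nat_lit 372) (nat_lit 4) (.p (nat_lit 373) (nat_lit 10) (.p (nat_lit 374) (nat_lit 12) (.p (nat_lit 375) (nat_lit 3) (.p (nat_lit 376) (nat_lit 2) (.n (nat_lit 377) (nat_lit 2) (.p (nat_lit 379) (nat_lit 1) (.p (nat_lit 380) (nat_lit 9) (.p (nat_lit 381) (nat_lit 1) (.n (nat_lit 382) (nat_lit 8) (.p (nat_lit 383) (nat_lit 1) (.p (nat_lit 384) (nat_lit 2) (.n (nat_lit 386) (nat_lit 1) (.p (nat_lit 387) (nat_lit 1) (.n (nat_lit 389) (nat_lit 1) (.p (nat_lit 390) (nat_lit 2)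 (.p (nat_lit 392) (nat_lit 1) (.p (nat_lit 393) (nat_lit 1) (.n (nat_lit 394) (nat_lit 1) (.n (nat_lit 395) (nat_lit 1) (.n (nat_lit 397) (nat_lit 1) (.p (nat_lit 398) (nat_lit 1) .z))))))))))))))))))))))))))))))))))))))))) .nil)))))))))))))))))))))))))

noncomputable def dC2d_i137 : IL := (.e true (nat_lit 3) (nat_lit 209) (nat_lit 2) (nat_lit 16) (.e true (nat_lit 2) (nat_lit 212) (nat_lit 2) (nat_lit 16) (.e false (nat_lit 2) (nat_lit 246) (nat_lit 2) (nat_lit 16) (.e false (nat_lit 2) (nat_lit 247) (nat_lit 2) (nat_lit 16) (.e true (nat_lit 2) (nat_lit 249) (nat_lit 2) (nat_lit 16) (.e false (nat_lit 3) (nat_lit 221) (nat_lit 2) (nat_lit 16) (.e false (nat_lit 2) (nat_lit 243) (nat_lit 2) (nat_lit 16) (.e false (nat_lit 3) (nat_lit 217) (nat_lit 2) (nat_lit 16) (.e true (nat_lit 1) (nat_lit 130) (nat_lit 7) (nat_lit 11) (.e true (nat_lit 1) (nat_lit 298) (nat_lit 0) (nat_lit 18) (.e false (nat_lit 2) (nat_lit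 207) (nat_lit 2) (nat_lit 16) (.e false (nat_lit 3) (nat_lit 218) (nat_lit 2) (nat_lit 16) (.e true (nat_lit 3) (nat_lit 229) (nat_lit 2) (nat_lit 16) (.e false (nat_lit 3) (nat_lit 233) (nat_lit 2) (nat_lit 16) (.e true (nat_lit 3) (nat_lit 235) (nat_lit 2) (nat_lit 16) (.e true (nat_lit 2) (nat_lit 248) (nat_lit 2) (nat_lit 16) (.e false (nat_lit 3) (nat_lit 138) (nat_lit 6) (nat_lit 12) (.e true (nat_lit 3) (nat_lit 134) (nat_lit 6) (nat_lit 12) (.e false (nat_lit 2) (nat_lit 244) (nat_lit 2) (nat_lit 16) (.e true (nat_lit 1) (nat_lit 250) (nat_lit 2) (nat_lit 16) (.e true (nat_lit 2) (nat_lit 155) (nat_lit 6) (nat_lit 12) (.e false (nat_lit 2) (nat_lit 274) (nat_lit 1) (nat_lit 17) (.e false (nat_lit 3) (nat_lit 278) (nat_lit 1) (nat_lit 17) (.e true (nat_lit 3) (nat_lit 257) (nat_lit 1) (nat_lit 17) (.e false (nat_lit 1) (nat_lit 294) (nat_lit 0) (nat_lit 18) dC2d_i136)))))))))))))))))))))))))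

noncomputable def dC2d_i138 : IL := (.e true (nat_lit 3) (nat_lit 251) (nat_lit 2) (nat_lit 16) (.e false (nat_lit 2) (nat_lit 129) (nat_lit 7) (nat_lit 11) (.e true (nat_lit 1) (nat_lit 285) (nat_lit 1) (nat_lit 17) (.e false (nat_lit 3) (nat_lit 252) (nat_lit 1) (nat_lit 17) (.e true (nat_lit 1) (nat_lit 253) (nat_lit 1) (nat_lit 17) (.e false (nat_lit 2) (nat_lit 254) (nat_lit 1) (nat_lit 17) (.e false (nat_lit 1) (nat_lit 258) (nat_lit 1) (nat_lit 17) (.e false (nat_lit 3) (nat_lit 263) (nat_lit 1) (nat_lit 17) (.e true (nat_lit 3) (nat_lit 265) (nat_lit 1) (nat_lit 17) (.e true (nat_lit 2) (nat_lit 267) (nat_lit 1) (nat_lit 17) (.e true (nat_lit 3) (nat_lit 270) (nat_lit 1) (nat_lit 17) (.e false (nat_lit 2) (nat_lit 271) (nat_lit 1) (nat_lit 17) (.e false (nat_lit 2) (nat_lit 273) (nat_lit 1) (nat_lit 17) (.e true (nat_lit 2) (nat_lit 276) (nat_lit 1) (nat_lit 17) (.e true (nat_lit 3) (nat_lit 277) (nat_lit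 1) (nat_lit 17) (.e true (nat_lit 1) (nat_lit 255) (nat_lit 1) (nat_lit 17) (.e true (nat_lit 3) (nat_lit 262) (nat_lit 1) (nat_lit 17) (.e true (nat_lit 2) (nat_lit 264) (nat_lit 1) (nat_lit 17) (.e false (nat_lit 1) (nat_lit 266) (nat_lit 1) (nat_lit 17) (.e false (nat_lit 2) (nat_lit 231) (nat_lit 2) (nat_lit 16) (.e false (nat_lit 3) (nat_lit 206) (nat_lit 2) (nat_lit 16) (.e false (nat_lit 3) (nat_lit 210) (nat_lit 2) (nat_lit 16) (.e true (nat_lit 1) (nat_lit 211) (nat_lit 2) (nat_lit 16) (.e true (nat_lit 1) (nat_lit 213) (nat_lit 2) (nat_lit 16) (.e true (nat_lit 3) (nat_lit 220) (nat_lit 2) (nat_lit 16) dC2d_i137)))))))))))))))))))))))))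

noncomputable def dC2d_i139 : IL := (.s false (nat_lit 3) (nat_lit 72) (nat_lit 1) (nat_lit 2) (nat_lit 2) true (nat_lit 12) true (nat_lit 16) false (nat_lit 5) true (nat_lit 17) true (nat_lit 16) (.s true (nat_lit 3) (nat_lit 73) (nat_lit 1) (nat_lit 2) (nat_lit 2) true (nat_lit 12) true (nat_lit 16) false (nat_lit 5) true (nat_lit 17) true (nat_lit 16) (.s false (nat_lit 1) (nat_lit 61) (nat_lit 2) (nat_lit 1) (nat_lit 2) true (nat_lit 11) true (nat_lit 16) false (nat_lit 5) true (nat_lit 16) true (nat_lit 17) (.s false (nat_lit 3) (nat_lit 62) (nat_lit 2) (nat_lit 1) (nat_lit 2) true (nat_lit 11) true (nat_lit 16) false (nat_lit 5) true (nat_lit 16) true (nat_lit 17) (.s true (nat_lit 3) (nat_lit 66) (nat_lit 2) (nat_lit 1) (nat_lit 2) true (nat_lit 11) true (nat_lit 16) false (nat_lit 5) true (nat_lit 16) true (nat_lit 17) (.s false (nat_lit 2) (nat_lit 67) (nat_lit 2) (nat_lit 1) (nat_lit 2) true (nat_lit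 11) true (nat_lit 16) false (nat_lit 5) true (nat_lit 16) true (nat_lit 17) (.s true (nat_lit 3) (nat_lit 73) (nat_lit 2) (nat_lit 1) (nat_lit 2) true (nat_lit 11) true (nat_lit 16) false (nat_lit 5) true (nat_lit 16) true (nat_lit 17) (.s false (nat_lit 1) (nat_lit 61) (nat_lit 2) (nat_lit 2) (nat_lit 1) true (nat_lit 12) true (nat_lit 17) false (nat_lit 5) true (nat_lit 16) true (nat_lit 16) (.s true (nat_lit 3) (nat_lit 62) (nat_lit 2) (nat_lit 2) (nat_lit 1) true (nat_lit 12) true (nat_lit 17) false (nat_lit 5) true (nat_lit 16) true (nat_lit 16) (.s false (nat_lit 3) (nat_lit 66) (nat_lit 2) (nat_lit 2) (nat_lit 1) true (nat_lit 12) true (nat_lit 17) false (nat_lit 5) true (nat_lit 16) true (nat_lit 16) (.s false (nat_lit 3) (nat_lit 67) (nat_lit 2) (nat_lit 2) (nat_lit 1) true (nat_lit 12) true (nat_lit 17) false (nat_lit 5) true (nat_lit 16) true (nat_lit 16) (.s true (nat_lit 2) (nat_lit 72) (nat_lit 2)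 (nat_lit 2) (nat_lit 1) true (nat_lit 12) true (nat_lit 17) false (nat_lit 5) true (nat_lit 16) true (nat_lit 16) (.s false (nat_lit 3) (nat_lit 73) (nat_lit 2) (nat_lit 2) (nat_lit 1) true (nat_lit 12) true (nat_lit 17) false (nat_lit 5) true (nat_lit 16) true (nat_lit 16) (.s true (nat_lit 2) (nat_lit 74) (nat_lit 0) (nat_lit 2) (nat_lit 2) true (nat_lit 13) true (nat_lit 16) false (nat_lit 6) true (nat_lit 18) true (nat_lit 16) (.s true (nat_lit 2) (nat_lit 79) (nat_lit 2) (nat_lit 2) (nat_lit 0) true (nat_lit 13) true (nat_lit 18) false (nat_lit 6) true (nat_lit 16) true (nat_lit 16) (.s false (nat_lit 1) (nat_lit 81) (nat_lit 1) (nat_lit 1) (nat_lit 2) true (nat_lit 12) true (nat_lit 16) false (nat_lit 7) true (nat_lit 17) true (nat_lit 17) (.s true (nat_lit 3) (nat_lit 102) (nat_lit 0) (nat_lit 1) (nat_lit 1) true (nat_lit 15) true (nat_lit 17) false (nat_lit 10) true (nat_lit 18) true (nat_lit 17) (.s false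 (nat_lit 3) (nat_lit 103) (nat_lit 0) (nat_lit 1) (nat_lit 1) true (nat_lit 15) true (nat_lit 17) false (nat_lit 10) true (nat_lit 18) true (nat_lit 17) (.s true (nat_lit 1) (nat_lit 102) (nat_lit 1) (nat_lit 1) (nat_lit 0) true (nat_lit 15) true (nat_lit 18) false (nat_lit 10) true (nat_lit 17) true (nat_lit 17) (.s false (nat_lit 1) (nat_lit 103) (nat_lit 1) (nat_lit 1) (nat_lit 0) true (nat_lit 15) true (nat_lit 18) false (nat_lit 10) true (nat_lit 17) true (nat_lit 17) (.e false (nat_lit 2) (nat_lit 227) (nat_lit 2) (nat_lit 16) (.e false (nat_lit 2) (nat_lit 242) (nat_lit 2) (nat_lit 16) (.e false (nat_lit 1) (nat_lit 208) (nat_lit 2) (nat_lit 16) (.e false (nat_lit 3) (nat_lit 216) (nat_lit 2) (nat_lit 16) (.e false (nat_lit 3) (nat_lit 205) (nat_lit 2) (nat_lit 16) dC2d_i138)))))))))))))))))))))))))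

noncomputable def dC2d_i140 : IL := (.s true (nat_lit 3) (nat_lit 34) (nat_lit 1) (nat_lit 1) (nat_lit 7) true (nat_lit 5) true (nat_lit 11) true (nat_lit 0) true (nat_lit 17) true (nat_lit 17) (.s true (nat_lit 1) (nat_lit 33) (nat_lit 1) (nat_lit 6) (nat_lit 2) true (nat_lit 12) true (nat_lit 16) true (nat_lit 0) true (nat_lit 17) true (nat_lit 12) (.s true (nat_lit 2) (nat_lit 34) (nat_lit 1) (nat_lit 6) (nat_lit 2) true (nat_lit 12) true (nat_lit 16) true (nat_lit 0) true (nat_lit 17) true (nat_lit 12) (.s false (nat_lit 1) (nat_lit 34) (nat_lit 1) (nat_lit 7) (nat_lit 1) true (nat_lit 14) true (nat_lit 17) true (nat_lit 0) true (nat_lit 17) true (nat_lit 11) (.s false (nat_lit 2) (nat_lit 33) (nat_lit 2) (nat_lit 1) (nat_lit 6) true (nat_lit 5) true (nat_lit 12) true (nat_lit 0) true (nat_lit 16) true (nat_lit 17) (.s true (nat_lit 1) (nat_lit 34) (nat_lit 2) (nat_lit 1) (nat_lit 6) true (nat_lit 5) true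 (nat_lit 12) true (nat_lit 0) true (nat_lit 16) true (nat_lit 17) (.s true (nat_lit 1) (nat_lit 34) (nat_lit 4) (nat_lit 2) (nat_lit 2) true (nat_lit 7) true (nat_lit 16) true (nat_lit 0) true (nat_lit 14) true (nat_lit 16) (.s true (nat_lit 1) (nat_lit 33) (nat_lit 6) (nat_lit 1) (nat_lit 2) true (nat_lit 5) true (nat_lit 16) true (nat_lit 0) true (nat_lit 12) true (nat_lit 17) (.s true (nat_lit 3) (nat_lit 33) (nat_lit 7) (nat_lit 1) (nat_lit 1) true (nat_lit 5) true (nat_lit 17) true (nat_lit 0) true (nat_lit 11) true (nat_lit 17) (.s false (nat_lit 3) (nat_lit 46) (nat_lit 1) (nat_lit 3) (nat_lit 2) true (nat_lit 12) true (nat_lit 16) false (nat_lit 2) true (nat_lit 17) true (nat_lit 15) (.s true (nat_lit 3) (nat_lit 47) (nat_lit 1) (nat_lit 3) (nat_lit 2) true (nat_lit 12) true (nat_lit 16) false (nat_lit 2) true (nat_lit 17) true (nat_lit 15) (.s true (nat_lit 3) (nat_lit 52) (nat_lit 2) (nat_lit 2) (nat_lit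 2) true (nat_lit 11) true (nat_lit 16) false (nat_lit 4) true (nat_lit 16) true (nat_lit 16) (.s true (nat_lit 2) (nat_lit 53) (nat_lit 2) (nat_lit 2) (nat_lit 2) true (nat_lit 11) true (nat_lit 16) false (nat_lit 4) true (nat_lit 16) true (nat_lit 16) (.s true (nat_lit 1) (nat_lit 55) (nat_lit 2) (nat_lit 2) (nat_lit 2) true (nat_lit 11) true (nat_lit 16) false (nat_lit 4) true (nat_lit 16) true (nat_lit 16) (.s false (nat_lit 3) (nat_lit 56) (nat_lit 2) (nat_lit 2) (nat_lit 2) true (nat_lit 11) true (nat_lit 16) false (nat_lit 4) true (nat_lit 16) true (nat_lit 16) (.s false (nat_lit 1) (nat_lit 57) (nat_lit 2) (nat_lit 2) (nat_lit 2) true (nat_lit 11) true (nat_lit 16) false (nat_lit 4) true (nat_lit 16) true (nat_lit 16) (.s true (nat_lit 3) (nat_lit 58) (nat_lit 2) (nat_lit 2) (nat_lit 2) true (nat_lit 11) true (nat_lit 16) false (nat_lit 4) true (nat_lit 16) true (nat_lit 16) (.s true (nat_lit 1) (nat_lit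 59) (nat_lit 2) (nat_lit 2) (nat_lit 2) true (nat_lit 11) true (nat_lit 16) false (nat_lit 4) true (nat_lit 16) true (nat_lit 16) (.s true (nat_lit 2) (nat_lit 60) (nat_lit 1) (nat_lit 2) (nat_lit 2) true (nat_lit 12) true (nat_lit 16) false (nat_lit 5) true (nat_lit 17) true (nat_lit 16) (.s true (nat_lit 1) (nat_lit 61) (nat_lit 1) (nat_lit 2) (nat_lit 2) true (nat_lit 12) true (nat_lit 16) false (nat_lit 5) true (nat_lit 17) true (nat_lit 16) (.s false (nat_lit 2) (nat_lit 63) (nat_lit 1) (nat_lit 2) (nat_lit 2) true (nat_lit 12) true (nat_lit 16) false (nat_lit 5) true (nat_lit 17) true (nat_lit 16) (.s false (nat_lit 3) (nat_lit 65) (nat_lit 1) (nat_lit 2) (nat_lit 2) true (nat_lit 12) true (nat_lit 16) false (nat_lit 5) true (nat_lit 17) true (nat_lit 16) (.s false (nat_lit 1) (nat_lit 66) (nat_lit 1) (nat_lit 2) (nat_lit 2) true (nat_lit 12) true (nat_lit 16) false (nat_lit 5) true (nat_lit 17) true (nat_lit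 16) (.s true (nat_lit 1) (nat_lit 67) (nat_lit 1) (nat_lit 2) (nat_lit 2) true (nat_lit 12) true (nat_lit 16) false (nat_lit 5) true (nat_lit 17) true (nat_lit 16) (.s true (nat_lit 2) (nat_lit 68) (nat_lit 1) (nat_lit 2) (nat_lit 2) true (nat_lit 12) true (nat_lit 16) false (nat_lit 5) true (nat_lit 17) true (nat_lit 16) dC2d_i139)))))))))))))))))))))))))

noncomputable def dC2d_i141 : IL := (.s true (nat_lit 2) (nat_lit 20) (nat_lit 0) (nat_lit 10) (nat_lit 2) true (nat_lit 13) true (nat_lit 16) true (nat_lit 4) true (nat_lit 18) true (nat_lit 9) (.s true (nat_lit 2) (nat_lit 20) (nat_lit 2) (nat_lit 8) (nat_lit 1) true (nat_lit 12) true (nat_lit 17) true (nat_lit 4) true (nat_lit 16) true (nat_lit 10) (.s false (nat_lit 3) (nat_lit 20) (nat_lit 8) (nat_lit 1) (nat_lit 2) true (nat_lit 2) true (nat_lit 16) true (nat_lit 4) true (nat_lit 10) true (nat_lit 17) (.s true (nat_lit 2) (nat_lit 20) (nat_lit 10) (nat_lit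 0) (nat_lit 2) true (nat_lit 1) true (nat_lit 16) true (nat_lit 4) true (nat_lit 9) true (nat_lit 18) (.s false (nat_lit 3) (nat_lit 22) (nat_lit 2) (nat_lit 2) (nat_lit 7) true (nat_lit 4) true (nat_lit 11) true (nat_lit 3) true (nat_lit 16) true (nat_lit 16) (.s true (nat_lit 2) (nat_lit 23) (nat_lit 2) (nat_lit 2) (nat_lit 7) true (nat_lit 4) true (nat_lit 11) true (nat_lit 3) true (nat_lit 16) true (nat_lit 16) (.s true (nat_lit 2) (nat_lit 21) (nat_lit 2) (nat_lit 7) (nat_lit 2) true (nat_lit 11) true (nat_lit 16) true (nat_lit 3) true (nat_lit 16) true (nat_lit 11) (.s true (nat_lit 2) (nat_lit 21) (nat_lit 7) (nat_lit 2) (nat_lit 2) true (nat_lit 4) true (nat_lit 16) true (nat_lit 3) true (nat_lit 11) true (nat_lit 16) (.s false (nat_lit 2) (nat_lit 24) (nat_lit 1) (nat_lit 7) (nat_lit 2) true (nat_lit 12) true (nat_lit 16) true (nat_lit 2) true (nat_lit 17) true (nat_lit 11) (.s false (nat_lit 2) (nat_lit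 25) (nat_lit 1) (nat_lit 7) (nat_lit 2) true (nat_lit 12) true (nat_lit 16) true (nat_lit 2) true (nat_lit 17) true (nat_lit 11) (.s false (nat_lit 1) (nat_lit 24) (nat_lit 2) (nat_lit 1) (nat_lit 7) true (nat_lit 4) true (nat_lit 11) true (nat_lit 2) true (nat_lit 16) true (nat_lit 17) (.s false (nat_lit 3) (nat_lit 27) (nat_lit 2) (nat_lit 1) (nat_lit 7) true (nat_lit 4) true (nat_lit 11) true (nat_lit 2) true (nat_lit 16) true (nat_lit 17) (.s true (nat_lit 3) (nat_lit 29) (nat_lit 2) (nat_lit 1) (nat_lit 7) true (nat_lit 4) true (nat_lit 11) true (nat_lit 2) true (nat_lit 16) true (nat_lit 17) (.s false (nat_lit 2) (nat_lit 24) (nat_lit 2) (nat_lit 2) (nat_lit 6) true (nat_lit 5) true (nat_lit 12) true (nat_lit 2) true (nat_lit 16) true (nat_lit 16) (.s false (nat_lit 3) (nat_lit 25) (nat_lit 2) (nat_lit 2) (nat_lit 6) true (nat_lit 5) true (nat_lit 12) true (nat_lit 2) true (nat_lit 16) true (nat_lit 16)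 (.s false (nat_lit 3) (nat_lit 27) (nat_lit 2) (nat_lit 2) (nat_lit 6) true (nat_lit 5) true (nat_lit 12) true (nat_lit 2) true (nat_lit 16) true (nat_lit 16) (.s true (nat_lit 3) (nat_lit 29) (nat_lit 2) (nat_lit 2) (nat_lit 6) true (nat_lit 5) true (nat_lit 12) true (nat_lit 2) true (nat_lit 16) true (nat_lit 16) (.s true (nat_lit 1) (nat_lit 25) (nat_lit 2) (nat_lit 6) (nat_lit 2) true (nat_lit 11) true (nat_lit 16) true (nat_lit 2) true (nat_lit 16) true (nat_lit 12) (.s true (nat_lit 3) (nat_lit 25) (nat_lit 2) (nat_lit 7) (nat_lit 1) true (nat_lit 12) true (nat_lit 17) true (nat_lit 2) true (nat_lit 16) true (nat_lit 11) (.s false (nat_lit 2) (nat_lit 24) (nat_lit 6) (nat_lit 2) (nat_lit 2) true (nat_lit 5) true (nat_lit 16) true (nat_lit 2) true (nat_lit 12) true (nat_lit 16) (.s true (nat_lit 1) (nat_lit 25) (nat_lit 6) (nat_lit 2) (nat_lit 2) true (nat_lit 5) true (nat_lit 16) true (nat_lit 2) true (nat_lit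 12) true (nat_lit 16) (.s true (nat_lit 3) (nat_lit 26) (nat_lit 6) (nat_lit 2) (nat_lit 2) true (nat_lit 5) true (nat_lit 16) true (nat_lit 2) true (nat_lit 12) true (nat_lit 16) (.s true (nat_lit 2) (nat_lit 30) (nat_lit 2) (nat_lit 0) (nat_lit 7) true (nat_lit 4) true (nat_lit 11) true (nat_lit 1) true (nat_lit 16) true (nat_lit 18) (.s true (nat_lit 2) (nat_lit 30) (nat_lit 2) (nat_lit 5) (nat_lit 2) true (nat_lit 11) true (nat_lit 16) true (nat_lit 1) true (nat_lit 16) true (nat_lit 13) (.s true (nat_lit 2) (nat_lit 30) (nat_lit 5) (nat_lit 2) (nat_lit 2) true (nat_lit 6) true (nat_lit 16) true (nat_lit 1) true (nat_lit 13) true (nat_lit 16) dC2d_i140)))))))))))))))))))))))))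

noncomputable def dC2d_i142 : IL := (.e false (nat_lit 1) (nat_lit 134) (nat_lit 6) (nat_lit 12) (.e true (nat_lit 2) (nat_lit 155) (nat_lit 6) (nat_lit 12) (.e true (nat_lit 2) (nat_lit 289) (nat_lit 0) (nat_lit 18) (.e true (nat_lit 3) (nat_lit 290) (nat_lit 0) (nat_lit 18) (.e false (nat_lit 1) (nat_lit 291) (nat_lit 0) (nat_lit 18) (.e true (nat_lit 1) (nat_lit 292) (nat_lit 0) (nat_lit 18) (.e true (nat_lit 1) (nat_lit 293) (nat_lit 0) (nat_lit 18) (.e false (nat_lit 2) (nat_lit 294) (nat_lit 0) (nat_lit 18) (.e false (nat_lit 2) (nat_lit 299) (nat_lit 0) (nat_lit 18) (.e true (nat_lit 3) (nat_lit 301) (nat_lit 0) (nat_lit 18) (.e true (nat_lit 2) (nat_lit 303) (nat_lit 0) (nat_lit 18) (.e false (nat_lit 1) (nat_lit 256) (nat_lit 1) (nat_lit 17) (.e false (nat_lit 1) (nat_lit 279) (nat_lit 1) (nat_lit 17) (.e false (nat_lit 2) (nat_lit 282) (nat_lit 1) (nat_lit 17) (.e false (nat_lit 2) (nat_lit 275) (nat_lit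 1) (nat_lit 17) (.e true (nat_lit 1) (nat_lit 280) (nat_lit 1) (nat_lit 17) (.e true (nat_lit 1) (nat_lit 278) (nat_lit 1) (nat_lit 17) (.e false (nat_lit 2) (nat_lit 300) (nat_lit 0) (nat_lit 18) (.e false (nat_lit 2) (nat_lit 261) (nat_lit 1) (nat_lit 17) (.e false (nat_lit 1) (nat_lit 62) (nat_lit 18) (nat_lit 5) (.e false (nat_lit 3) (nat_lit 170) (nat_lit 4) (nat_lit 14) (.u (nat_lit 2) (.n (nat_lit 0) (nat_lit 3) (.n (nat_lit 1) (nat_lit 3) (.p (nat_lit 2) (nat_lit 3) (.n (nat_lit 3) (nat_lit 2) (.p (nat_lit 4) (nat_lit 5) (.n (nat_lit 6) (nat_lit 1) (.p (nat_lit 7) (nat_lit 3) (.p (nat_lit 9) (nat_lit 1) (.n (nat_lit 10) (nat_lit 2) (.p (nat_lit 11) (nat_lit 2) (.p (nat_lit 12) (nat_lit 3) (.n (nat_lit 14) (nat_lit 5) (.n (nat_lit 15) (nat_lit 5) (.n (nat_lit 16) (nat_lit 4) (.n (nat_lit 17) (nat_lit 3) (.n (nat_lit 19) (nat_lit 3) (.p (nat_lit 20) (nat_lit 5) (.n (nat_lit 21) (nat_lit 7) (.p (nat_lit 22)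 (nat_lit 7) (.p (nat_lit 23) (nat_lit 3) (.n (nat_lit 24) (nat_lit 3) (.n (nat_lit 25) (nat_lit 5) (.n (nat_lit 26) (nat_lit 4) (.n (nat_lit 27) (nat_lit 2) (.p (nat_lit 28) (nat_lit 6) (.n (nat_lit 29) (nat_lit 3) (.n (nat_lit 32) (nat_lit 2) (.p (nat_lit 34) (nat_lit 1) (.p (nat_lit 36) (nat_lit 3) (.n (nat_lit 37) (nat_lit 1) (.p (nat_lit 39) (nat_lit 1) (.p (nat_lit 41) (nat_lit 1) (.n (nat_lit 42) (nat_lit 1) (.p (nat_lit 44) (nat_lit 3) (.p (nat_lit 45) (nat_lit 4) (.p (nat_lit 46) (nat_lit 1) (.n (nat_lit 47) (nat_lit 7) (.n (nat_lit 48) (nat_lit 6) (.p (nat_lit 50) (nat_lit 1) (.p (nat_lit 51) (nat_lit 1) (.p (nat_lit 52) (nat_lit 1) (.n (nat_lit 64) (nat_lit 1) (.p (nat_lit 66) (nat_lit 1) (.n (nat_lit 67) (nat_lit 1) (.p (nat_lit 72) (nat_lit 1) (.n (nat_lit 73) (nat_lit 1) (.p (nat_lit 78) (nat_lit 1) (.n (nat_lit 79) (nat_lit 1) (.n (nat_lit 80) (nat_lit 1) (.n (nat_lit 90) (nat_lit 1) (.p (nat_lit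 91) (nat_lit 1) (.n (nat_lit 96) (nat_lit 1) (.p (nat_lit 110) (nat_lit 1) (.n (nat_lit 111) (nat_lit 1) (.n (nat_lit 113) (nat_lit 1) (.n (nat_lit 125) (nat_lit 1) (.p (nat_lit 126) (nat_lit 1) (.p (nat_lit 134) (nat_lit 1) (.p (nat_lit 142) (nat_lit 1) (.n (nat_lit 147) (nat_lit 1) .z)))))))))))))))))))))))))))))))))))))))))))))))))))))))))))) (.u (nat_lit 2) (.n (nat_lit 149) (nat_lit 1) (.p (nat_lit 154) (nat_lit 1) (.n (nat_lit 161) (nat_lit 1) (.n (nat_lit 173) (nat_lit 1) (.n (nat_lit 174) (nat_lit 1) (.n (nat_lit 177) (nat_lit 1) (.n (nat_lit 191) (nat_lit 1) (.p (nat_lit 206) (nat_lit 1) (.n (nat_lit 210) (nat_lit 1) (.p (nat_lit 211) (nat_lit 1) (.n (nat_lit 212) (nat_lit 1) (.n (nat_lit 213) (nat_lit 1) (.p (nat_lit 214) (nat_lit 5) (.p (nat_lit 215) (nat_lit 2) (.p (nat_lit 216) (nat_lit 3) (.p (nat_lit 217) (nat_lit 1) (.p (nat_lit 218) (nat_lit 1) (.n (nat_lit 219) (nat_lit 2) (.p (nat_lit 221) (nat_lit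 1) (.n (nat_lit 222) (nat_lit 1) (.p (nat_lit 224) (nat_lit 3) (.n (nat_lit 225) (nat_lit 1) (.p (nat_lit 226) (nat_lit 3) (.n (nat_lit 227) (nat_lit 1) (.n (nat_lit 229) (nat_lit 2) (.n (nat_lit 230) (nat_lit 5) (.n (nat_lit 234) (nat_lit 5) (.n (nat_lit 235) (nat_lit 1) (.n (nat_lit 236) (nat_lit 1) (.n (nat_lit 237) (nat_lit 1) (.p (nat_lit 239) (nat_lit 1) (.n (nat_lit 241) (nat_lit 2) (.p (nat_lit 243) (nat_lit 1) (.n (nat_lit 244) (nat_lit 1) (.p (nat_lit 245) (nat_lit 2) (.p (nat_lit 251) (nat_lit 1) (.n (nat_lit 252) (nat_lit 1) (.p (nat_lit 257) (nat_lit 2) (.p (nat_lit 258) (nat_lit 1) (.p (nat_lit 259) (nat_lit 1) (.p (nat_lit 260) (nat_lit 1) (.p (nat_lit 261) (nat_lit 1) (.n (nat_lit 262) (nat_lit 1) (.n (nat_lit 263) (nat_lit 1) (.n (nat_lit 264) (nat_lit 1) (.n (nat_lit 271) (nat_lit 1) (.p (nat_lit 274) (nat_lit 1) (.p (nat_lit 278) (nat_lit 1) (.p (nat_lit 281) (nat_lit 1) (.n (nat_lit 284) (nat_lit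 1) (.p (nat_lit 292) (nat_lit 1) (.p (nat_lit 295) (nat_lit 1) (.n (nat_lit 296) (nat_lit 2) (.n (nat_lit 297) (nat_lit 2) (.n (nat_lit 301) (nat_lit 1) (.p (nat_lit 302) (nat_lit 12) (.p (nat_lit 303) (nat_lit 11) (.p (nat_lit 304) (nat_lit 28) (.p (nat_lit 305) (nat_lit 16) (.p (nat_lit 306) (nat_lit 4) .z)))))))))))))))))))))))))))))))))))))))))))))))))))))))))))) (.u (nat_lit 2) (.n (nat_lit 307) (nat_lit 8) (.n (nat_lit 308) (nat_lit 12) (.p (nat_lit 309) (nat_lit 22) (.p (nat_lit 310) (nat_lit 4) (.n (nat_lit 311) (nat_lit 21) (.p (nat_lit 312) (nat_lit 34) (.p (nat_lit 313) (nat_lit 26) (.n (nat_lit 314) (nat_lit 24) (.p (nat_lit 315) (nat_lit 17) (.p (nat_lit 316) (nat_lit 16) (.p (nat_lit 317) (nat_lit 31) (.n (nat_lit 318) (nat_lit 38) (.p (nat_lit 320) (nat_lit 1) (.n (nat_lit 321) (nat_lit 1) (.n (nat_lit 322) (nat_lit 22) (.p (nat_lit 323) (nat_lit 3) (.n (nat_lit 324) (nat_lit 9) (.n (nat_lit 325)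 (nat_lit 6) (.n (nat_lit 326) (nat_lit 27) (.n (nat_lit 327) (nat_lit 20) (.p (nat_lit 328) (nat_lit 5) (.n (nat_lit 329) (nat_lit 7) (.n (nat_lit 330) (nat_lit 1) (.p (nat_lit 331) (nat_lit 23) (.n (nat_lit 332) (nat_lit 10) (.p (nat_lit 334) (nat_lit 1) (.n (nat_lit 335) (nat_lit 8) (.n (nat_lit 336) (nat_lit 1) (.p (nat_lit 337) (nat_lit 2) (.p (nat_lit 338) (nat_lit 5) (.p (nat_lit 339) (nat_lit 1) (.n (nat_lit 340) (nat_lit 20) (.p (nat_lit 341) (nat_lit 12) (.n (nat_lit 342) (nat_lit 19) (.p (nat_lit 343) (nat_lit 6) (.p (nat_lit 344) (nat_lit 19) (.p (nat_lit 345) (nat_lit 34) (.n (nat_lit 346) (nat_lit 2) (.n (nat_lit 347) (nat_lit 20) (.p (nat_lit 348) (nat_lit 15) (.n (nat_lit 349) (nat_lit 13) (.p (nat_lit 350) (nat_lit 6) (.n (nat_lit 351) (nat_lit 2) (.p (nat_lit 352) (nat_lit 19) (.n (nat_lit 353) (nat_lit 2) (.n (nat_lit 354) (nat_lit 9) (.p (nat_lit 355) (nat_lit 13) (.p (nat_lit 356) (nat_lit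 2) (.p (nat_lit 357) (nat_lit 19) (.n (nat_lit 358) (nat_lit 17) (.n (nat_lit 359) (nat_lit 17) (.n (nat_lit 360) (nat_lit 2) (.p (nat_lit 361) (nat_lit 12) (.p (nat_lit 362) (nat_lit 2) (.n (nat_lit 363) (nat_lit 7) (.p (nat_lit 364) (nat_lit 2) (.n (nat_lit 365) (nat_lit 2) (.p (nat_lit 366) (nat_lit 1) (.p (nat_lit 367) (nat_lit 15) (.p (nat_lit 368) (nat_lit 2) .z)))))))))))))))))))))))))))))))))))))))))))))))))))))))))))) (.u (nat_lit 2) (.p (nat_lit 369) (nat_lit 18) (.p (nat_lit 370) (nat_lit 7) (.p (nat_lit 371) (nat_lit 13) (.p (nat_lit 372) (nat_lit 12) (.n (nat_lit 374) (nat_lit 4) (.p (nat_lit 376) (nat_lit 3) (.n (nat_lit 377) (nat_lit 2) (.n (nat_lit 378) (nat_lit 3) (.n (nat_lit 379) (nat_lit 4) (.n (nat_lit 380) (nat_lit 1) (.p (nat_lit 381) (nat_lit 3) (.p (nat_lit 382) (nat_lit 7) (.p (nat_lit 383) (nat_lit 3) (.n (nat_lit 384) (nat_lit 1) (.n (nat_lit 385) (nat_lit 3) (.p (nat_lit 386) (nat_lit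 7) (.n (nat_lit 387) (nat_lit 7) (.p (nat_lit 388) (nat_lit 2) (.n (nat_lit 389) (nat_lit 6) (.n (nat_lit 390) (nat_lit 3) (.p (nat_lit 391) (nat_lit 7) (.n (nat_lit 392) (nat_lit 5) (.p (nat_lit 393) (nat_lit 1) (.p (nat_lit 394) (nat_lit 1) (.p (nat_lit 395) (nat_lit 6) (.n (nat_lit 396) (nat_lit 6) (.n (nat_lit 397) (nat_lit 5) (.p (nat_lit 398) (nat_lit 12) (.n (nat_lit 399) (nat_lit 2) (.p (nat_lit 400) (nat_lit 8) (.n (nat_lit 401) (nat_lit 4) .z))))))))))))))))))))))))))))))) .nil)))))))))))))))))))))))))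

noncomputable def dC2d_i143 : IL := (.e true (nat_lit 3) (nat_lit 277) (nat_lit 1) (nat_lit 17) (.e true (nat_lit 1) (nat_lit 255) (nat_lit 1) (nat_lit 17) (.e false (nat_lit 2) (nat_lit 262) (nat_lit 1) (nat_lit 17) (.e false (nat_lit 1) (nat_lit 264) (nat_lit 1) (nat_lit 17) (.e false (nat_lit 2) (nat_lit 266) (nat_lit 1) (nat_lit 17) (.e true (nat_lit 2) (nat_lit 231) (nat_lit 2) (nat_lit 16) (.e true (nat_lit 1) (nat_lit 206) (nat_lit 2) (nat_lit 16) (.e true (nat_lit 2) (nat_lit 210) (nat_lit 2) (nat_lit 16) (.e false (nat_lit 1) (nat_lit 211) (nat_lit 2) (nat_lit 16) (.e false (nat_lit 1) (nat_lit 220) (nat_lit 2) (nat_lit 16) (.e true (nat_lit 1) (nat_lit 209) (nat_lit 2) (nat_lit 16) (.e false (nat_lit 2) (nat_lit 212) (nat_lit 2) (nat_lit 16) (.e true (nat_lit 1) (nat_lit 230) (nat_lit 2) (nat_lit 16) (.e false (nat_lit 2) (nat_lit 234) (nat_lit 2) (nat_lit 16) (.e false (nat_lit 3) (nat_lit 246) (nat_lit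 2) (nat_lit 16) (.e false (nat_lit 2) (nat_lit 247) (nat_lit 2) (nat_lit 16) (.e true (nat_lit 3) (nat_lit 249) (nat_lit 2) (nat_lit 16) (.e false (nat_lit 3) (nat_lit 226) (nat_lit 2) (nat_lit 16) (.e false (nat_lit 2) (nat_lit 207) (nat_lit 2) (nat_lit 16) (.e true (nat_lit 2) (nat_lit 298) (nat_lit 0) (nat_lit 18) (.e false (nat_lit 1) (nat_lit 244) (nat_lit 2) (nat_lit 16) (.e false (nat_lit 2) (nat_lit 229) (nat_lit 2) (nat_lit 16) (.e false (nat_lit 2) (nat_lit 250) (nat_lit 2) (nat_lit 16) (.e false (nat_lit 2) (nat_lit 218) (nat_lit 2) (nat_lit 16) (.e true (nat_lit 1) (nat_lit 233) (nat_lit 2) (nat_lit 16) dC2d_i142)))))))))))))))))))))))))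

noncomputable def dC2d_i144 : IL := (.s true (nat_lit 3) (nat_lit 95) (nat_lit 1) (nat_lit 2) (nat_lit 0) true (nat_lit 15) true (nat_lit 18) false (nat_lit 8) true (nat_lit 17) true (nat_lit 16) (.s true (nat_lit 1) (nat_lit 96) (nat_lit 1) (nat_lit 2) (nat_lit 0) true (nat_lit 15) true (nat_lit 18) false (nat_lit 8) true (nat_lit 17) true (nat_lit 16) (.s false (nat_lit 2) (nat_lit 92) (nat_lit 2) (nat_lit 0) (nat_lit 1) true (nat_lit 12) true (nat_lit 17) false (nat_lit 8) true (nat_lit 16) true (nat_lit 18) (.s true (nat_lit 2) (nat_lit 104) (nat_lit 0) (nat_lit 1) (nat_lit 1) true (nat_lit 15) true (nat_lit 17) false (nat_lit 10) true (nat_lit 18) true (nat_lit 17) (.s false (nat_lit 1) (nat_lit 102) (nat_lit 1) (nat_lit 1) (nat_lit 0) true (nat_lit 15) true (nat_lit 18) false (nat_lit 10) true (nat_lit 17) true (nat_lit 17) (.s true (nat_lit 1) (nat_lit 103) (nat_lit 1) (nat_lit 1) (nat_lit 0) true (nat_lit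 15) true (nat_lit 18) false (nat_lit 10) true (nat_lit 17) true (nat_lit 17) (.e false (nat_lit 3) (nat_lit 122) (nat_lit 7) (nat_lit 11) (.e true (nat_lit 3) (nat_lit 227) (nat_lit 2) (nat_lit 16) (.e false (nat_lit 1) (nat_lit 242) (nat_lit 2) (nat_lit 16) (.e false (nat_lit 2) (nat_lit 216) (nat_lit 2) (nat_lit 16) (.e true (nat_lit 1) (nat_lit 205) (nat_lit 2) (nat_lit 16) (.e true (nat_lit 2) (nat_lit 251) (nat_lit 2) (nat_lit 16) (.e false (nat_lit 1) (nat_lit 285) (nat_lit 1) (nat_lit 17) (.e true (nat_lit 2) (nat_lit 252) (nat_lit 1) (nat_lit 17) (.e false (nat_lit 1) (nat_lit 254) (nat_lit 1) (nat_lit 17) (.e true (nat_lit 3) (nat_lit 258) (nat_lit 1) (nat_lit 17) (.e true (nat_lit 1) (nat_lit 263) (nat_lit 1) (nat_lit 17) (.e false (nat_lit 2) (nat_lit 265) (nat_lit 1) (nat_lit 17) (.e false (nat_lit 1) (nat_lit 267) (nat_lit 1) (nat_lit 17) (.e false (nat_lit 3) (nat_lit 269) (nat_lit 1) (nat_lit 17)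 (.e false (nat_lit 3) (nat_lit 270) (nat_lit 1) (nat_lit 17) (.e true (nat_lit 3) (nat_lit 271) (nat_lit 1) (nat_lit 17) (.e false (nat_lit 2) (nat_lit 272) (nat_lit 1) (nat_lit 17) (.e true (nat_lit 3) (nat_lit 273) (nat_lit 1) (nat_lit 17) (.e false (nat_lit 3) (nat_lit 276) (nat_lit 1) (nat_lit 17) dC2d_i143)))))))))))))))))))))))))

noncomputable def dC2d_i145 : IL := (.s false (nat_lit 1) (nat_lit 72) (nat_lit 2) (nat_lit 2) (nat_lit 1) true (nat_lit 12) true (nat_lit 17) false (nat_lit 5) true (nat_lit 16) true (nat_lit 16) (.s true (nat_lit 3) (nat_lit 74) (nat_lit 0) (nat_lit 2) (nat_lit 2) true (nat_lit 13) true (nat_lit 16) false (nat_lit 6) true (nat_lit 18) true (nat_lit 16) (.s false (nat_lit 1) (nat_lit 78) (nat_lit 0) (nat_lit 2) (nat_lit 2) true (nat_lit 13) true (nat_lit 16) false (nat_lit 6) true (nat_lit 18) true (nat_lit 16) (.s false (nat_lit 1) (nat_lit 79) (nat_lit 0) (nat_lit 2) (nat_lit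 2) true (nat_lit 13) true (nat_lit 16) false (nat_lit 6) true (nat_lit 18) true (nat_lit 16) (.s true (nat_lit 3) (nat_lit 79) (nat_lit 2) (nat_lit 0) (nat_lit 2) true (nat_lit 11) true (nat_lit 16) false (nat_lit 6) true (nat_lit 16) true (nat_lit 18) (.s false (nat_lit 3) (nat_lit 80) (nat_lit 1) (nat_lit 1) (nat_lit 2) true (nat_lit 12) true (nat_lit 16) false (nat_lit 7) true (nat_lit 17) true (nat_lit 17) (.s true (nat_lit 3) (nat_lit 83) (nat_lit 1) (nat_lit 1) (nat_lit 2) true (nat_lit 12) true (nat_lit 16) false (nat_lit 7) true (nat_lit 17) true (nat_lit 17) (.s false (nat_lit 2) (nat_lit 88) (nat_lit 1) (nat_lit 1) (nat_lit 2) true (nat_lit 12) true (nat_lit 16) false (nat_lit 7) true (nat_lit 17) true (nat_lit 17) (.s false (nat_lit 3) (nat_lit 89) (nat_lit 1) (nat_lit 1) (nat_lit 2) true (nat_lit 12) true (nat_lit 16) false (nat_lit 7) true (nat_lit 17) true (nat_lit 17) (.s true (nat_lit 3) (nat_lit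 80) (nat_lit 1) (nat_lit 2) (nat_lit 1) true (nat_lit 14) true (nat_lit 17) false (nat_lit 7) true (nat_lit 17) true (nat_lit 16) (.s false (nat_lit 3) (nat_lit 81) (nat_lit 1) (nat_lit 2) (nat_lit 1) true (nat_lit 14) true (nat_lit 17) false (nat_lit 7) true (nat_lit 17) true (nat_lit 16) (.s false (nat_lit 1) (nat_lit 82) (nat_lit 1) (nat_lit 2) (nat_lit 1) true (nat_lit 14) true (nat_lit 17) false (nat_lit 7) true (nat_lit 17) true (nat_lit 16) (.s true (nat_lit 3) (nat_lit 83) (nat_lit 1) (nat_lit 2) (nat_lit 1) true (nat_lit 14) true (nat_lit 17) false (nat_lit 7) true (nat_lit 17) true (nat_lit 16) (.s true (nat_lit 3) (nat_lit 84) (nat_lit 1) (nat_lit 2) (nat_lit 1) true (nat_lit 14) true (nat_lit 17) false (nat_lit 7) true (nat_lit 17) true (nat_lit 16) (.s false (nat_lit 2) (nat_lit 85) (nat_lit 1) (nat_lit 2) (nat_lit 1) true (nat_lit 14) true (nat_lit 17) false (nat_lit 7) true (nat_lit 17) true (nat_lit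 16) (.s true (nat_lit 3) (nat_lit 89) (nat_lit 1) (nat_lit 2) (nat_lit 1) true (nat_lit 14) true (nat_lit 17) false (nat_lit 7) true (nat_lit 17) true (nat_lit 16) (.s false (nat_lit 3) (nat_lit 90) (nat_lit 1) (nat_lit 2) (nat_lit 1) true (nat_lit 14) true (nat_lit 17) false (nat_lit 7) true (nat_lit 17) true (nat_lit 16) (.s false (nat_lit 3) (nat_lit 83) (nat_lit 2) (nat_lit 1) (nat_lit 1) true (nat_lit 12) true (nat_lit 17) false (nat_lit 7) true (nat_lit 16) true (nat_lit 17) (.s false (nat_lit 1) (nat_lit 88) (nat_lit 2) (nat_lit 1) (nat_lit 1) true (nat_lit 12) true (nat_lit 17) false (nat_lit 7) true (nat_lit 16) true (nat_lit 17) (.s false (nat_lit 3) (nat_lit 89) (nat_lit 2) (nat_lit 1) (nat_lit 1) true (nat_lit 12) true (nat_lit 17) false (nat_lit 7) true (nat_lit 16) true (nat_lit 17) (.s true (nat_lit 3) (nat_lit 92) (nat_lit 0) (nat_lit 1) (nat_lit 2) true (nat_lit 13) true (nat_lit 16) false (nat_lit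 8) true (nat_lit 18) true (nat_lit 17) (.s true (nat_lit 1) (nat_lit 91) (nat_lit 0) (nat_lit 2) (nat_lit 1) true (nat_lit 15) true (nat_lit 17) false (nat_lit 8) true (nat_lit 18) true (nat_lit 16) (.s true (nat_lit 1) (nat_lit 92) (nat_lit 0) (nat_lit 2) (nat_lit 1) true (nat_lit 15) true (nat_lit 17) false (nat_lit 8) true (nat_lit 18) true (nat_lit 16) (.s false (nat_lit 1) (nat_lit 92) (nat_lit 1) (nat_lit 2) (nat_lit 0) true (nat_lit 15) true (nat_lit 18) false (nat_lit 8) true (nat_lit 17) true (nat_lit 16) (.s false (nat_lit 2) (nat_lit 93) (nat_lit 1) (nat_lit 2) (nat_lit 0) true (nat_lit 15) true (nat_lit 18) false (nat_lit 8) true (nat_lit 17) true (nat_lit 16) dC2d_i144)))))))))))))))))))))))))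

noncomputable def dC2d_i146 : IL := (.s false (nat_lit 1) (nat_lit 61) (nat_lit 1) (nat_lit 2) (nat_lit 2) true (nat_lit 12) true (nat_lit 16) false (nat_lit 5) true (nat_lit 17) true (nat_lit 16) (.s false (nat_lit 1) (nat_lit 63) (nat_lit 1) (nat_lit 2) (nat_lit 2) true (nat_lit 12) true (nat_lit 16) false (nat_lit 5) true (nat_lit 17) true (nat_lit 16) (.s false (nat_lit 3) (nat_lit 64) (nat_lit 1) (nat_lit 2) (nat_lit 2) true (nat_lit 12) true (nat_lit 16) false (nat_lit 5) true (nat_lit 17) true (nat_lit 16) (.s true (nat_lit 3) (nat_lit 65) (nat_lit 1) (nat_lit 2) (nat_lit 2) true (nat_lit 12) true (nat_lit 16) false (nat_lit 5) true (nat_lit 17) true (nat_lit 16) (.s false (nat_lit 1) (nat_lit 67) (nat_lit 1) (nat_lit 2) (nat_lit 2) true (nat_lit 12) true (nat_lit 16) false (nat_lit 5) true (nat_lit 17) true (nat_lit 16) (.s true (nat_lit 3) (nat_lit 69) (nat_lit 1) (nat_lit 2) (nat_lit 2) true (nat_lit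 12) true (nat_lit 16) false (nat_lit 5) true (nat_lit 17) true (nat_lit 16) (.s true (nat_lit 3) (nat_lit 70) (nat_lit 1) (nat_lit 2) (nat_lit 2) true (nat_lit 12) true (nat_lit 16) false (nat_lit 5) true (nat_lit 17) true (nat_lit 16) (.s true (nat_lit 3) (nat_lit 72) (nat_lit 1) (nat_lit 2) (nat_lit 2) true (nat_lit 12) true (nat_lit 16) false (nat_lit 5) true (nat_lit 17) true (nat_lit 16) (.s true (nat_lit 1) (nat_lit 73) (nat_lit 1) (nat_lit 2) (nat_lit 2) true (nat_lit 12) true (nat_lit 16) false (nat_lit 5) true (nat_lit 17) true (nat_lit 16) (.s true (nat_lit 2) (nat_lit 61) (nat_lit 2) (nat_lit 1) (nat_lit 2) true (nat_lit 11) true (nat_lit 16) false (nat_lit 5) true (nat_lit 16) true (nat_lit 17) (.s false (nat_lit 3) (nat_lit 62) (nat_lit 2) (nat_lit 1) (nat_lit 2) true (nat_lit 11) true (nat_lit 16) false (nat_lit 5) true (nat_lit 16) true (nat_lit 17) (.s true (nat_lit 2) (nat_lit 63) (nat_lit 2)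 (nat_lit 1) (nat_lit 2) true (nat_lit 11) true (nat_lit 16) false (nat_lit 5) true (nat_lit 16) true (nat_lit 17) (.s true (nat_lit 3) (nat_lit 64) (nat_lit 2) (nat_lit 1) (nat_lit 2) true (nat_lit 11) true (nat_lit 16) false (nat_lit 5) true (nat_lit 16) true (nat_lit 17) (.s true (nat_lit 3) (nat_lit 65) (nat_lit 2) (nat_lit 1) (nat_lit 2) true (nat_lit 11) true (nat_lit 16) false (nat_lit 5) true (nat_lit 16) true (nat_lit 17) (.s true (nat_lit 1) (nat_lit 66) (nat_lit 2) (nat_lit 1) (nat_lit 2) true (nat_lit 11) true (nat_lit 16) false (nat_lit 5) true (nat_lit 16) true (nat_lit 17) (.s false (nat_lit 2) (nat_lit 67) (nat_lit 2) (nat_lit 1) (nat_lit 2) true (nat_lit 11) true (nat_lit 16) false (nat_lit 5) true (nat_lit 16) true (nat_lit 17) (.s true (nat_lit 2) (nat_lit 69) (nat_lit 2) (nat_lit 1) (nat_lit 2) true (nat_lit 11) true (nat_lit 16) false (nat_lit 5) true (nat_lit 16) true (nat_lit 17) (.s false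 (nat_lit 3) (nat_lit 70) (nat_lit 2) (nat_lit 1) (nat_lit 2) true (nat_lit 11) true (nat_lit 16) false (nat_lit 5) true (nat_lit 16) true (nat_lit 17) (.s false (nat_lit 2) (nat_lit 72) (nat_lit 2) (nat_lit 1) (nat_lit 2) true (nat_lit 11) true (nat_lit 16) false (nat_lit 5) true (nat_lit 16) true (nat_lit 17) (.s true (nat_lit 2) (nat_lit 73) (nat_lit 2) (nat_lit 1) (nat_lit 2) true (nat_lit 11) true (nat_lit 16) false (nat_lit 5) true (nat_lit 16) true (nat_lit 17) (.s true (nat_lit 2) (nat_lit 60) (nat_lit 2) (nat_lit 2) (nat_lit 1) true (nat_lit 12) true (nat_lit 17) false (nat_lit 5) true (nat_lit 16) true (nat_lit 16) (.s false (nat_lit 1) (nat_lit 62) (nat_lit 2) (nat_lit 2) (nat_lit 1) true (nat_lit 12) true (nat_lit 17) false (nat_lit 5) true (nat_lit 16) true (nat_lit 16) (.s true (nat_lit 2) (nat_lit 67) (nat_lit 2) (nat_lit 2) (nat_lit 1) true (nat_lit 12) true (nat_lit 17) false (nat_lit 5) true (nat_lit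 16) true (nat_lit 16) (.s true (nat_lit 2) (nat_lit 68) (nat_lit 2) (nat_lit 2) (nat_lit 1) true (nat_lit 12) true (nat_lit 17) false (nat_lit 5) true (nat_lit 16) true (nat_lit 16) (.s false (nat_lit 3) (nat_lit 69) (nat_lit 2) (nat_lit 2) (nat_lit 1) true (nat_lit 12) true (nat_lit 17) false (nat_lit 5) true (nat_lit 16) true (nat_lit 16) dC2d_i145)))))))))))))))))))))))))

noncomputable def dC2d_i147 : IL := (.s false (nat_lit 3) (nat_lit 40) (nat_lit 0) (nat_lit 2) (nat_lit 6) true (nat_lit 8) true (nat_lit 12) false (nat_lit 0) true (nat_lit 18) true (nat_lit 16) (.s true (nat_lit 2) (nat_lit 40) (nat_lit 1) (nat_lit 2) (nat_lit 5) true (nat_lit 8) true (nat_lit 13) false (nat_lit 0) true (nat_lit 17) true (nat_lit 16) (.s false (nat_lit 3) (nat_lit 40) (nat_lit 1) (nat_lit 5) (nat_lit 2) true (nat_lit 12) true (nat_lit 16) false (nat_lit 0) true (nat_lit 17) true (nat_lit 13) (.s true (nat_lit 1) (nat_lit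 40) (nat_lit 2) (nat_lit 1) (nat_lit 5) true (nat_lit 6) true (nat_lit 13) false (nat_lit 0) true (nat_lit 16) true (nat_lit 17) (.s true (nat_lit 1) (nat_lit 40) (nat_lit 2) (nat_lit 5) (nat_lit 1) true (nat_lit 12) true (nat_lit 17) false (nat_lit 0) true (nat_lit 16) true (nat_lit 13) (.s false (nat_lit 2) (nat_lit 39) (nat_lit 3) (nat_lit 2) (nat_lit 2) true (nat_lit 8) true (nat_lit 16) false (nat_lit 0) true (nat_lit 15) true (nat_lit 16) (.s false (nat_lit 1) (nat_lit 41) (nat_lit 5) (nat_lit 2) (nat_lit 1) true (nat_lit 8) true (nat_lit 17) false (nat_lit 0) true (nat_lit 13) true (nat_lit 16) (.s false (nat_lit 3) (nat_lit 47) (nat_lit 0) (nat_lit 2) (nat_lit 4) true (nat_lit 10) true (nat_lit 14) false (nat_lit 2) true (nat_lit 18) true (nat_lit 16) (.s false (nat_lit 1) (nat_lit 46) (nat_lit 2) (nat_lit 3) (nat_lit 1) true (nat_lit 12) true (nat_lit 17) false (nat_lit 2) true (nat_lit 16) true (nat_lit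 15) (.s false (nat_lit 3) (nat_lit 45) (nat_lit 6) (nat_lit 0) (nat_lit 1) true (nat_lit 7) true (nat_lit 17) false (nat_lit 2) true (nat_lit 12) true (nat_lit 18) (.s false (nat_lit 1) (nat_lit 46) (nat_lit 6) (nat_lit 0) (nat_lit 1) true (nat_lit 7) true (nat_lit 17) false (nat_lit 2) true (nat_lit 12) true (nat_lit 18) (.s false (nat_lit 3) (nat_lit 47) (nat_lit 6) (nat_lit 0) (nat_lit 1) true (nat_lit 7) true (nat_lit 17) false (nat_lit 2) true (nat_lit 12) true (nat_lit 18) (.s false (nat_lit 3) (nat_lit 46) (nat_lit 6) (nat_lit 1) (nat_lit 0) true (nat_lit 8) true (nat_lit 18) false (nat_lit 2) true (nat_lit 12) true (nat_lit 17) (.s false (nat_lit 2) (nat_lit 48) (nat_lit 1) (nat_lit 1) (nat_lit 3) true (nat_lit 10) true (nat_lit 15) false (nat_lit 3) true (nat_lit 17) true (nat_lit 17) (.s true (nat_lit 1) (nat_lit 48) (nat_lit 1) (nat_lit 3) (nat_lit 1) true (nat_lit 14) true (nat_lit 17) false (nat_lit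 3) true (nat_lit 17) true (nat_lit 15) (.s false (nat_lit 2) (nat_lit 48) (nat_lit 3) (nat_lit 1) (nat_lit 1) true (nat_lit 10) true (nat_lit 17) false (nat_lit 3) true (nat_lit 15) true (nat_lit 17) (.s false (nat_lit 3) (nat_lit 48) (nat_lit 4) (nat_lit 0) (nat_lit 1) true (nat_lit 9) true (nat_lit 17) false (nat_lit 3) true (nat_lit 14) true (nat_lit 18) (.s false (nat_lit 2) (nat_lit 48) (nat_lit 4) (nat_lit 1) (nat_lit 0) true (nat_lit 10) true (nat_lit 18) false (nat_lit 3) true (nat_lit 14) true (nat_lit 17) (.s false (nat_lit 1) (nat_lit 52) (nat_lit 2) (nat_lit 2) (nat_lit 2) true (nat_lit 11) true (nat_lit 16) false (nat_lit 4) true (nat_lit 16) true (nat_lit 16) (.s false (nat_lit 1) (nat_lit 53) (nat_lit 2) (nat_lit 2) (nat_lit 2) true (nat_lit 11) true (nat_lit 16) false (nat_lit 4) true (nat_lit 16) true (nat_lit 16) (.s false (nat_lit 3) (nat_lit 55) (nat_lit 2) (nat_lit 2) (nat_lit 2) true (nat_lit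 11) true (nat_lit 16) false (nat_lit 4) true (nat_lit 16) true (nat_lit 16) (.s true (nat_lit 1) (nat_lit 56) (nat_lit 2) (nat_lit 2) (nat_lit 2) true (nat_lit 11) true (nat_lit 16) false (nat_lit 4) true (nat_lit 16) true (nat_lit 16) (.s true (nat_lit 2) (nat_lit 57) (nat_lit 2) (nat_lit 2) (nat_lit 2) true (nat_lit 11) true (nat_lit 16) false (nat_lit 4) true (nat_lit 16) true (nat_lit 16) (.s false (nat_lit 3) (nat_lit 59) (nat_lit 2) (nat_lit 2) (nat_lit 2) true (nat_lit 11) true (nat_lit 16) false (nat_lit 4) true (nat_lit 16) true (nat_lit 16) (.s true (nat_lit 1) (nat_lit 60) (nat_lit 1) (nat_lit 2) (nat_lit 2) true (nat_lit 12) true (nat_lit 16) false (nat_lit 5) true (nat_lit 17) true (nat_lit 16) dC2d_i146)))))))))))))))))))))))))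

noncomputable def dC2d_i148 : IL := (.s false (nat_lit 3) (nat_lit 24) (nat_lit 6) (nat_lit 2) (nat_lit 2) true (nat_lit 5) true (nat_lit 16) true (nat_lit 2) true (nat_lit 12) true (nat_lit 16) (.s false (nat_lit 1) (nat_lit 25) (nat_lit 6) (nat_lit 2) (nat_lit 2) true (nat_lit 5) true (nat_lit 16) true (nat_lit 2) true (nat_lit 12) true (nat_lit 16) (.s false (nat_lit 2) (nat_lit 27) (nat_lit 6) (nat_lit 2) (nat_lit 2) true (nat_lit 5) true (nat_lit 16) true (nat_lit 2) true (nat_lit 12) true (nat_lit 16) (.s false (nat_lit 3) (nat_lit 28) (nat_lit 6) (nat_lit 2) (nat_lit 2) true (nat_lit 5) true (nat_lit 16) true (nat_lit 2) true (nat_lit 12) true (nat_lit 16) (.s true (nat_lit 3) (nat_lit 25) (nat_lit 7) (nat_lit 1) (nat_lit 2) true (nat_lit 4) true (nat_lit 16) true (nat_lit 2) true (nat_lit 11) true (nat_lit 17) (.s true (nat_lit 1) (nat_lit 25) (nat_lit 7) (nat_lit 2) (nat_lit 1) true (nat_lit 5) true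 (nat_lit 17) true (nat_lit 2) true (nat_lit 11) true (nat_lit 16) (.s false (nat_lit 3) (nat_lit 30) (nat_lit 2) (nat_lit 2) (nat_lit 5) true (nat_lit 6) true (nat_lit 13) true (nat_lit 1) true (nat_lit 16) true (nat_lit 16) (.s true (nat_lit 3) (nat_lit 30) (nat_lit 2) (nat_lit 7) (nat_lit 0) true (nat_lit 13) true (nat_lit 18) true (nat_lit 1) true (nat_lit 16) true (nat_lit 11) (.s true (nat_lit 3) (nat_lit 30) (nat_lit 5) (nat_lit 2) (nat_lit 2) true (nat_lit 6) true (nat_lit 16) true (nat_lit 1) true (nat_lit 13) true (nat_lit 16) (.s true (nat_lit 2) (nat_lit 34) (nat_lit 1) (nat_lit 1) (nat_lit 7) true (nat_lit 5) true (nat_lit 11) true (nat_lit 0) true (nat_lit 17) true (nat_lit 17) (.s true (nat_lit 3) (nat_lit 38) (nat_lit 1) (nat_lit 1) (nat_lit 7) true (nat_lit 5) true (nat_lit 11) true (nat_lit 0) true (nat_lit 17) true (nat_lit 17) (.s false (nat_lit 2) (nat_lit 33) (nat_lit 1) (nat_lit 2) (nat_lit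 6) true (nat_lit 7) true (nat_lit 12) true (nat_lit 0) true (nat_lit 17) true (nat_lit 16) (.s false (nat_lit 3) (nat_lit 34) (nat_lit 1) (nat_lit 2) (nat_lit 6) true (nat_lit 7) true (nat_lit 12) true (nat_lit 0) true (nat_lit 17) true (nat_lit 16) (.s true (nat_lit 1) (nat_lit 35) (nat_lit 1) (nat_lit 2) (nat_lit 6) true (nat_lit 7) true (nat_lit 12) true (nat_lit 0) true (nat_lit 17) true (nat_lit 16) (.s true (nat_lit 3) (nat_lit 33) (nat_lit 1) (nat_lit 7) (nat_lit 1) true (nat_lit 14) true (nat_lit 17) true (nat_lit 0) true (nat_lit 17) true (nat_lit 11) (.s true (nat_lit 1) (nat_lit 38) (nat_lit 1) (nat_lit 7) (nat_lit 1) true (nat_lit 14) true (nat_lit 17) true (nat_lit 0) true (nat_lit 17) true (nat_lit 11) (.s false (nat_lit 1) (nat_lit 33) (nat_lit 2) (nat_lit 2) (nat_lit 4) true (nat_lit 7) true (nat_lit 14) true (nat_lit 0) true (nat_lit 16) true (nat_lit 16) (.s false (nat_lit 3) (nat_lit 36) (nat_lit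 2) (nat_lit 2) (nat_lit 4) true (nat_lit 7) true (nat_lit 14) true (nat_lit 0) true (nat_lit 16) true (nat_lit 16) (.s true (nat_lit 1) (nat_lit 38) (nat_lit 2) (nat_lit 2) (nat_lit 4) true (nat_lit 7) true (nat_lit 14) true (nat_lit 0) true (nat_lit 16) true (nat_lit 16) (.s false (nat_lit 2) (nat_lit 33) (nat_lit 2) (nat_lit 4) (nat_lit 2) true (nat_lit 11) true (nat_lit 16) true (nat_lit 0) true (nat_lit 16) true (nat_lit 14) (.s false (nat_lit 3) (nat_lit 33) (nat_lit 2) (nat_lit 6) (nat_lit 1) true (nat_lit 12) true (nat_lit 17) true (nat_lit 0) true (nat_lit 16) true (nat_lit 12) (.s true (nat_lit 1) (nat_lit 34) (nat_lit 2) (nat_lit 6) (nat_lit 1) true (nat_lit 12) true (nat_lit 17) true (nat_lit 0) true (nat_lit 16) true (nat_lit 12) (.s false (nat_lit 3) (nat_lit 33) (nat_lit 4) (nat_lit 2) (nat_lit 2) true (nat_lit 7) true (nat_lit 16) true (nat_lit 0) true (nat_lit 14) true (nat_lit 16) (.s false (nat_lit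 1) (nat_lit 38) (nat_lit 4) (nat_lit 2) (nat_lit 2) true (nat_lit 7) true (nat_lit 16) true (nat_lit 0) true (nat_lit 14) true (nat_lit 16) (.s false (nat_lit 2) (nat_lit 34) (nat_lit 6) (nat_lit 2) (nat_lit 1) true (nat_lit 7) true (nat_lit 17) true (nat_lit 0) true (nat_lit 12) true (nat_lit 16) dC2d_i147)))))))))))))))))))))))))

noncomputable def dC2d_i149 : IL := (.s false (nat_lit 1) (nat_lit 19) (nat_lit 11) (nat_lit 2) (nat_lit 1) true (nat_lit 2) true (nat_lit 17) true (nat_lit 5) true (nat_lit 8) true (nat_lit 16) (.s true (nat_lit 1) (nat_lit 20) (nat_lit 1) (nat_lit 2) (nat_lit 9) true (nat_lit 3) true (nat_lit 10) true (nat_lit 4) true (nat_lit 17) true (nat_lit 16) (.s false (nat_lit 3) (nat_lit 20) (nat_lit 2) (nat_lit 0) (nat_lit 10) true (nat_lit 1) true (nat_lit 9) true (nat_lit 4) true (nat_lit 16) true (nat_lit 18) (.s true (nat_lit 1) (nat_lit 20) (nat_lit 9) (nat_lit 1) (nat_lit 2) true (nat_lit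 2) true (nat_lit 16) true (nat_lit 4) true (nat_lit 10) true (nat_lit 17) (.s true (nat_lit 2) (nat_lit 20) (nat_lit 9) (nat_lit 2) (nat_lit 1) true (nat_lit 3) true (nat_lit 17) true (nat_lit 4) true (nat_lit 10) true (nat_lit 16) (.s true (nat_lit 1) (nat_lit 20) (nat_lit 13) (nat_lit 1) (nat_lit 1) true (nat_lit 2) true (nat_lit 17) true (nat_lit 4) true (nat_lit 8) true (nat_lit 17) (.s true (nat_lit 2) (nat_lit 21) (nat_lit 2) (nat_lit 2) (nat_lit 7) true (nat_lit 4) true (nat_lit 11) true (nat_lit 3) true (nat_lit 16) true (nat_lit 16) (.s false (nat_lit 3) (nat_lit 22) (nat_lit 2) (nat_lit 2) (nat_lit 7) true (nat_lit 4) true (nat_lit 11) true (nat_lit 3) true (nat_lit 16) true (nat_lit 16) (.s true (nat_lit 3) (nat_lit 21) (nat_lit 2) (nat_lit 7) (nat_lit 2) true (nat_lit 11) true (nat_lit 16) true (nat_lit 3) true (nat_lit 16) true (nat_lit 11) (.s false (nat_lit 2) (nat_lit 22) (nat_lit 2) (nat_lit 7)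 (nat_lit 2) true (nat_lit 11) true (nat_lit 16) true (nat_lit 3) true (nat_lit 16) true (nat_lit 11) (.s true (nat_lit 2) (nat_lit 21) (nat_lit 7) (nat_lit 2) (nat_lit 2) true (nat_lit 4) true (nat_lit 16) true (nat_lit 3) true (nat_lit 11) true (nat_lit 16) (.s false (nat_lit 2) (nat_lit 24) (nat_lit 1) (nat_lit 2) (nat_lit 7) true (nat_lit 5) true (nat_lit 11) true (nat_lit 2) true (nat_lit 17) true (nat_lit 16) (.s false (nat_lit 1) (nat_lit 26) (nat_lit 1) (nat_lit 2) (nat_lit 7) true (nat_lit 5) true (nat_lit 11) true (nat_lit 2) true (nat_lit 17) true (nat_lit 16) (.s false (nat_lit 1) (nat_lit 27) (nat_lit 1) (nat_lit 2) (nat_lit 7) true (nat_lit 5) true (nat_lit 11) true (nat_lit 2) true (nat_lit 17) true (nat_lit 16) (.s true (nat_lit 3) (nat_lit 29) (nat_lit 1) (nat_lit 2) (nat_lit 7) true (nat_lit 5) true (nat_lit 11) true (nat_lit 2) true (nat_lit 17) true (nat_lit 16) (.s true (nat_lit 3) (nat_lit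 25) (nat_lit 1) (nat_lit 7) (nat_lit 2) true (nat_lit 12) true (nat_lit 16) true (nat_lit 2) true (nat_lit 17) true (nat_lit 11) (.s false (nat_lit 2) (nat_lit 26) (nat_lit 1) (nat_lit 7) (nat_lit 2) true (nat_lit 12) true (nat_lit 16) true (nat_lit 2) true (nat_lit 17) true (nat_lit 11) (.s true (nat_lit 2) (nat_lit 27) (nat_lit 1) (nat_lit 7) (nat_lit 2) true (nat_lit 12) true (nat_lit 16) true (nat_lit 2) true (nat_lit 17) true (nat_lit 11) (.s true (nat_lit 1) (nat_lit 29) (nat_lit 2) (nat_lit 1) (nat_lit 7) true (nat_lit 4) true (nat_lit 11) true (nat_lit 2) true (nat_lit 16) true (nat_lit 17) (.s false (nat_lit 1) (nat_lit 24) (nat_lit 2) (nat_lit 2) (nat_lit 6) true (nat_lit 5) true (nat_lit 12) true (nat_lit 2) true (nat_lit 16) true (nat_lit 16) (.s true (nat_lit 2) (nat_lit 26) (nat_lit 2) (nat_lit 2) (nat_lit 6) true (nat_lit 5) true (nat_lit 12) true (nat_lit 2) true (nat_lit 16) true (nat_lit 16)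 (.s false (nat_lit 1) (nat_lit 27) (nat_lit 2) (nat_lit 2) (nat_lit 6) true (nat_lit 5) true (nat_lit 12) true (nat_lit 2) true (nat_lit 16) true (nat_lit 16) (.s false (nat_lit 1) (nat_lit 28) (nat_lit 2) (nat_lit 2) (nat_lit 6) true (nat_lit 5) true (nat_lit 12) true (nat_lit 2) true (nat_lit 16) true (nat_lit 16) (.s true (nat_lit 1) (nat_lit 29) (nat_lit 2) (nat_lit 2) (nat_lit 6) true (nat_lit 5) true (nat_lit 12) true (nat_lit 2) true (nat_lit 16) true (nat_lit 16) (.s true (nat_lit 1) (nat_lit 25) (nat_lit 2) (nat_lit 6) (nat_lit 2) true (nat_lit 11) true (nat_lit 16) true (nat_lit 2) true (nat_lit 16) true (nat_lit 12) dC2d_i148)))))))))))))))))))))))))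

noncomputable def dC2d_i150 : IL := (.s false (nat_lit 1) (nat_lit 10) (nat_lit 7) (nat_lit 0) (nat_lit 7) false (nat_lit 3) true (nat_lit 11) true (nat_lit 9) true (nat_lit 11) true (nat_lit 18) (.s false (nat_lit 3) (nat_lit 12) (nat_lit 2) (nat_lit 7) (nat_lit 4) true (nat_lit 7) true (nat_lit 14) true (nat_lit 8) true (nat_lit 16) true (nat_lit 11) (.s true (nat_lit 3) (nat_lit 12) (nat_lit 4) (nat_lit 2) (nat_lit 7) false (nat_lit 0) true (nat_lit 11) true (nat_lit 8) true (nat_lit 14) true (nat_lit 16) (.s true (nat_lit 3) (nat_lit 11) (nat_lit 6) (nat_lit 6) (nat_lit 2) true (nat_lit 5) true (nat_lit 16) true (nat_lit 8) true (nat_lit 12) true (nat_lit 12) (.s true (nat_lit 3) (nat_lit 12) (nat_lit 6) (nat_lit 6) (nat_lit 2) true (nat_lit 5) true (nat_lit 16) true (nat_lit 8) true (nat_lit 12) true (nat_lit 12) (.s true (nat_lit 2) (nat_lit 14) (nat_lit 2) (nat_lit 2) (nat_lit 11) true (nat_lit 0) true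 (nat_lit 8) true (nat_lit 7) true (nat_lit 16) true (nat_lit 16) (.s false (nat_lit 3) (nat_lit 15) (nat_lit 2) (nat_lit 2) (nat_lit 11) true (nat_lit 0) true (nat_lit 8) true (nat_lit 7) true (nat_lit 16) true (nat_lit 16) (.s true (nat_lit 1) (nat_lit 16) (nat_lit 2) (nat_lit 2) (nat_lit 10) true (nat_lit 1) true (nat_lit 9) true (nat_lit 6) true (nat_lit 16) true (nat_lit 16) (.s true (nat_lit 1) (nat_lit 16) (nat_lit 2) (nat_lit 10) (nat_lit 2) true (nat_lit 11) true (nat_lit 16) true (nat_lit 6) true (nat_lit 16) true (nat_lit 9) (.s true (nat_lit 3) (nat_lit 16) (nat_lit 10) (nat_lit 2) (nat_lit 2) true (nat_lit 1) true (nat_lit 16) true (nat_lit 6) true (nat_lit 9) true (nat_lit 16) (.s true (nat_lit 2) (nat_lit 18) (nat_lit 0) (nat_lit 1) (nat_lit 18) true (nat_lit 0) true (nat_lit 5) true (nat_lit 5) true (nat_lit 18) true (nat_lit 17) (.s true (nat_lit 2) (nat_lit 18) (nat_lit 1) (nat_lit 0) (nat_lit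 18) false (nat_lit 0) true (nat_lit 5) true (nat_lit 5) true (nat_lit 17) true (nat_lit 18) (.s false (nat_lit 2) (nat_lit 18) (nat_lit 1) (nat_lit 2) (nat_lit 12) true (nat_lit 2) true (nat_lit 8) true (nat_lit 5) true (nat_lit 17) true (nat_lit 16) (.s false (nat_lit 2) (nat_lit 19) (nat_lit 1) (nat_lit 2) (nat_lit 12) true (nat_lit 2) true (nat_lit 8) true (nat_lit 5) true (nat_lit 17) true (nat_lit 16) (.s true (nat_lit 3) (nat_lit 18) (nat_lit 1) (nat_lit 11) (nat_lit 2) true (nat_lit 12) true (nat_lit 16) true (nat_lit 5) true (nat_lit 17) true (nat_lit 8) (.s false (nat_lit 2) (nat_lit 18) (nat_lit 2) (nat_lit 0) (nat_lit 15) false (nat_lit 0) true (nat_lit 7) true (nat_lit 5) true (nat_lit 16) true (nat_lit 18) (.s false (nat_lit 3) (nat_lit 18) (nat_lit 2) (nat_lit 1) (nat_lit 11) true (nat_lit 0) true (nat_lit 8) true (nat_lit 5) true (nat_lit 16) true (nat_lit 17) (.s false (nat_lit 3) (nat_lit 19)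 (nat_lit 2) (nat_lit 2) (nat_lit 8) true (nat_lit 2) true (nat_lit 10) true (nat_lit 5) true (nat_lit 16) true (nat_lit 16) (.s true (nat_lit 3) (nat_lit 19) (nat_lit 2) (nat_lit 6) (nat_lit 3) true (nat_lit 8) true (nat_lit 15) true (nat_lit 5) true (nat_lit 16) true (nat_lit 12) (.s true (nat_lit 3) (nat_lit 18) (nat_lit 2) (nat_lit 12) (nat_lit 1) true (nat_lit 12) true (nat_lit 17) true (nat_lit 5) true (nat_lit 16) true (nat_lit 8) (.s true (nat_lit 3) (nat_lit 19) (nat_lit 2) (nat_lit 12) (nat_lit 1) true (nat_lit 12) true (nat_lit 17) true (nat_lit 5) true (nat_lit 16) true (nat_lit 8) (.s false (nat_lit 1) (nat_lit 18) (nat_lit 6) (nat_lit 5) (nat_lit 1) true (nat_lit 7) true (nat_lit 17) true (nat_lit 5) true (nat_lit 12) true (nat_lit 13) (.s false (nat_lit 3) (nat_lit 18) (nat_lit 8) (nat_lit 2) (nat_lit 2) true (nat_lit 2) true (nat_lit 16) true (nat_lit 5) true (nat_lit 10) true (nat_lit 16) (.s false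 (nat_lit 2) (nat_lit 18) (nat_lit 9) (nat_lit 2) (nat_lit 2) true (nat_lit 2) true (nat_lit 16) true (nat_lit 5) true (nat_lit 10) true (nat_lit 16) (.s false (nat_lit 2) (nat_lit 19) (nat_lit 11) (nat_lit 1) (nat_lit 2) true (nat_lit 0) true (nat_lit 16) true (nat_lit 5) true (nat_lit 8) true (nat_lit 17) dC2d_i149)))))))))))))))))))))))))

noncomputable def dC2d_i151 : IL := (.e true (nat_lit 2) (nat_lit 235) (nat_lit 2) (nat_lit 16) (.e true (nat_lit 1) (nat_lit 134) (nat_lit 6) (nat_lit 12) (.e true (nat_lit 3) (nat_lit 257) (nat_lit 1) (nat_lit 17) (.e false (nat_lit 1) (nat_lit 256) (nat_lit 1) (nat_lit 17) (.e false (nat_lit 3) (nat_lit 259) (nat_lit 1) (nat_lit 17) (.e true (nat_lit 3) (nat_lit 260) (nat_lit 1) (nat_lit 17) (.e true (nat_lit 1) (nat_lit 261) (nat_lit 1) (nat_lit 17) (.e false (nat_lit 2) (nat_lit 275) (nat_lit 1) (nat_lit 17) (.e false (nat_lit 3) (nat_lit 279) (nat_lit 1) (nat_lit 17)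 (.e true (nat_lit 3) (nat_lit 290) (nat_lit 0) (nat_lit 18) (.e false (nat_lit 1) (nat_lit 291) (nat_lit 0) (nat_lit 18) (.e false (nat_lit 3) (nat_lit 292) (nat_lit 0) (nat_lit 18) (.e true (nat_lit 1) (nat_lit 293) (nat_lit 0) (nat_lit 18) (.e false (nat_lit 2) (nat_lit 294) (nat_lit 0) (nat_lit 18) (.e false (nat_lit 2) (nat_lit 295) (nat_lit 0) (nat_lit 18) (.e true (nat_lit 2) (nat_lit 297) (nat_lit 0) (nat_lit 18) (.e false (nat_lit 2) (nat_lit 299) (nat_lit 0) (nat_lit 18) (.e true (nat_lit 2) (nat_lit 303) (nat_lit 0) (nat_lit 18) (.e true (nat_lit 3) (nat_lit 300) (nat_lit 0) (nat_lit 18) (.e false (nat_lit 2) (nat_lit 170) (nat_lit 4) (nat_lit 14) (.e false (nat_lit 3) (nat_lit 296) (nat_lit 0) (nat_lit 18) (.u (nat_lit 2) (.n (nat_lit 0) (nat_lit 4) (.p (nat_lit 1) (nat_lit 1) (.p (nat_lit 2) (nat_lit 1) (.p (nat_lit 3) (nat_lit 2) (.p (nat_lit 4) (nat_lit 1) (.p (nat_lit 5) (nat_lit 4) (.p (nat_lit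 6) (nat_lit 2) (.p (nat_lit 7) (nat_lit 1) (.p (nat_lit 8) (nat_lit 1) (.n (nat_lit 9) (nat_lit 1) (.p (nat_lit 10) (nat_lit 2) (.n (nat_lit 11) (nat_lit 3) (.p (nat_lit 14) (nat_lit 3) (.n (nat_lit 15) (nat_lit 1) (.n (nat_lit 16) (nat_lit 1) (.n (nat_lit 17) (nat_lit 4) (.p (nat_lit 18) (nat_lit 3) (.n (nat_lit 19) (nat_lit 5) (.p (nat_lit 21) (nat_lit 2) (.n (nat_lit 22) (nat_lit 2) (.p (nat_lit 25) (nat_lit 2) (.n (nat_lit 27) (nat_lit 1) (.p (nat_lit 28) (nat_lit 1) (.n (nat_lit 29) (nat_lit 2) (.n (nat_lit 32) (nat_lit 1) (.p (nat_lit 33) (nat_lit 2) (.n (nat_lit 34) (nat_lit 3) (.p (nat_lit 36) (nat_lit 2) (.p (nat_lit 37) (nat_lit 1) (.n (nat_lit 38) (nat_lit 2) (.p (nat_lit 39) (nat_lit 2) (.p (nat_lit 41) (nat_lit 1) (.n (nat_lit 42) (nat_lit 1) (.n (nat_lit 47) (nat_lit 1) (.n (nat_lit 50) (nat_lit 1) (.n (nat_lit 57) (nat_lit 1) (.p (nat_lit 62) (nat_lit 1) (.n (nat_lit 63) (nat_lit 1) (.n (nat_lit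 66) (nat_lit 2) (.p (nat_lit 67) (nat_lit 2) (.p (nat_lit 69) (nat_lit 2) (.n (nat_lit 70) (nat_lit 2) (.p (nat_lit 78) (nat_lit 1) (.n (nat_lit 79) (nat_lit 2) (.p (nat_lit 91) (nat_lit 1) (.p (nat_lit 94) (nat_lit 1) (.n (nat_lit 96) (nat_lit 1) (.p (nat_lit 99) (nat_lit 1) (.n (nat_lit 100) (nat_lit 1) (.p (nat_lit 113) (nat_lit 1) (.p (nat_lit 115) (nat_lit 1) (.n (nat_lit 123) (nat_lit 1) (.n (nat_lit 124) (nat_lit 1) (.n (nat_lit 125) (nat_lit 1) (.p (nat_lit 134) (nat_lit 1) (.p (nat_lit 164) (nat_lit 1) (.p (nat_lit 166) (nat_lit 1) (.n (nat_lit 169) (nat_lit 1) (.n (nat_lit 175) (nat_lit 1) (.n (nat_lit 177) (nat_lit 1) .z)))))))))))))))))))))))))))))))))))))))))))))))))))))))))))) (.u (nat_lit 2) (.n (nat_lit 183) (nat_lit 1) (.n (nat_lit 185) (nat_lit 1) (.p (nat_lit 186) (nat_lit 1) (.n (nat_lit 187) (nat_lit 1) (.p (nat_lit 188) (nat_lit 1) (.n (nat_lit 190) (nat_lit 2) (.n (nat_lit 191) (nat_lit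 1) (.p (nat_lit 194) (nat_lit 1) (.n (nat_lit 202) (nat_lit 1) (.n (nat_lit 203) (nat_lit 1) (.n (nat_lit 214) (nat_lit 2) (.n (nat_lit 215) (nat_lit 3) (.p (nat_lit 216) (nat_lit 1) (.n (nat_lit 217) (nat_lit 2) (.n (nat_lit 218) (nat_lit 1) (.n (nat_lit 219) (nat_lit 1) (.n (nat_lit 220) (nat_lit 1) (.p (nat_lit 222) (nat_lit 1) (.n (nat_lit 223) (nat_lit 1) (.n (nat_lit 224) (nat_lit 1) (.n (nat_lit 225) (nat_lit 2) (.n (nat_lit 226) (nat_lit 2) (.p (nat_lit 227) (nat_lit 3) (.n (nat_lit 229) (nat_lit 3) (.p (nat_lit 230) (nat_lit 4) (.p (nat_lit 231) (nat_lit 1) (.p (nat_lit 233) (nat_lit 1) (.p (nat_lit 234) (nat_lit 1) (.n (nat_lit 236) (nat_lit 1) (.n (nat_lit 239) (nat_lit 1) (.n (nat_lit 240) (nat_lit 1) (.n (nat_lit 241) (nat_lit 1) (.p (nat_lit 242) (nat_lit 1) (.p (nat_lit 243) (nat_lit 1) (.n (nat_lit 245) (nat_lit 1) (.n (nat_lit 246) (nat_lit 2) (.p (nat_lit 247) (nat_lit 2) (.p (nat_lit 248) (nat_lit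 1) (.n (nat_lit 250) (nat_lit 1) (.p (nat_lit 254) (nat_lit 1) (.p (nat_lit 258) (nat_lit 2) (.p (nat_lit 259) (nat_lit 1) (.p (nat_lit 260) (nat_lit 1) (.p (nat_lit 262) (nat_lit 2) (.n (nat_lit 263) (nat_lit 2) (.n (nat_lit 264) (nat_lit 2) (.p (nat_lit 267) (nat_lit 1) (.n (nat_lit 269) (nat_lit 1) (.p (nat_lit 272) (nat_lit 1) (.n (nat_lit 276) (nat_lit 2) (.p (nat_lit 277) (nat_lit 1) (.p (nat_lit 279) (nat_lit 1) (.p (nat_lit 281) (nat_lit 1) (.n (nat_lit 282) (nat_lit 1) (.n (nat_lit 283) (nat_lit 2) (.p (nat_lit 285) (nat_lit 1) (.p (nat_lit 286) (nat_lit 1) (.n (nat_lit 289) (nat_lit 1) (.p (nat_lit 292) (nat_lit 1) (.p (nat_lit 293) (nat_lit 3) .z)))))))))))))))))))))))))))))))))))))))))))))))))))))))))))) (.u (nat_lit 2) (.n (nat_lit 294) (nat_lit 2) (.p (nat_lit 295) (nat_lit 1) (.p (nat_lit 296) (nat_lit 1) (.n (nat_lit 297) (nat_lit 1) (.p (nat_lit 301) (nat_lit 1) (.n (nat_lit 302) (nat_lit 6) (.p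 (nat_lit 303) (nat_lit 7) (.n (nat_lit 304) (nat_lit 8) (.n (nat_lit 305) (nat_lit 15) (.n (nat_lit 307) (nat_lit 9) (.n (nat_lit 308) (nat_lit 8) (.p (nat_lit 309) (nat_lit 9) (.p (nat_lit 310) (nat_lit 12) (.p (nat_lit 311) (nat_lit 6) (.n (nat_lit 312) (nat_lit 5) (.n (nat_lit 313) (nat_lit 19) (.p (nat_lit 314) (nat_lit 11) (.p (nat_lit 315) (nat_lit 12) (.n (nat_lit 316) (nat_lit 4) (.n (nat_lit 317) (nat_lit 1) (.n (nat_lit 318) (nat_lit 5) (.n (nat_lit 319) (nat_lit 4) (.n (nat_lit 320) (nat_lit 2) (.n (nat_lit 321) (nat_lit 3) (.p (nat_lit 322) (nat_lit 10) (.p (nat_lit 323) (nat_lit 4) (.p (nat_lit 324) (nat_lit 8) (.n (nat_lit 325) (nat_lit 14) (.p (nat_lit 326) (nat_lit 22) (.p (nat_lit 327) (nat_lit 29) (.p (nat_lit 328) (nat_lit 2) (.n (nat_lit 329) (nat_lit 9) (.n (nat_lit 330) (nat_lit 4) (.n (nat_lit 331) (nat_lit 1) (.p (nat_lit 332) (nat_lit 3) (.p (nat_lit 334) (nat_lit 1) (.p (nat_lit 335)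 (nat_lit 5) (.p (nat_lit 336) (nat_lit 1) (.p (nat_lit 337) (nat_lit 1) (.n (nat_lit 339) (nat_lit 8) (.p (nat_lit 340) (nat_lit 17) (.p (nat_lit 341) (nat_lit 7) (.p (nat_lit 342) (nat_lit 18) (.p (nat_lit 344) (nat_lit 3) (.n (nat_lit 345) (nat_lit 33) (.p (nat_lit 346) (nat_lit 5) (.n (nat_lit 347) (nat_lit 10) (.n (nat_lit 348) (nat_lit 11) (.p (nat_lit 349) (nat_lit 12) (.n (nat_lit 350) (nat_lit 2) (.p (nat_lit 351) (nat_lit 12) (.p (nat_lit 352) (nat_lit 34) (.n (nat_lit 353) (nat_lit 3) (.n (nat_lit 354) (nat_lit 4) (.n (nat_lit 355) (nat_lit 8) (.p (nat_lit 356) (nat_lit 4) (.p (nat_lit 357) (nat_lit 13) (.p (nat_lit 358) (nat_lit 9) (.p (nat_lit 359) (nat_lit 9) (.p (nat_lit 360) (nat_lit 19) .z)))))))))))))))))))))))))))))))))))))))))))))))))))))))))))) (.u (nat_lit 2) (.p (nat_lit 361) (nat_lit 15) (.p (nat_lit 362) (nat_lit 12) (.n (nat_lit 363) (nat_lit 7) (.p (nat_lit 364) (nat_lit 8) (.n (nat_lit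 365) (nat_lit 1) (.p (nat_lit 366) (nat_lit 4) (.p (nat_lit 367) (nat_lit 18) (.n (nat_lit 368) (nat_lit 17) (.p (nat_lit 369) (nat_lit 16) (.n (nat_lit 370) (nat_lit 14) (.p (nat_lit 371) (nat_lit 15) (.n (nat_lit 372) (nat_lit 2) (.p (nat_lit 373) (nat_lit 9) (.p (nat_lit 374) (nat_lit 21) (.p (nat_lit 375) (nat_lit 7) (.p (nat_lit 376) (nat_lit 21) (.n (nat_lit 377) (nat_lit 8) (.n (nat_lit 378) (nat_lit 4) (.p (nat_lit 379) (nat_lit 2) (.n (nat_lit 380) (nat_lit 1) (.p (nat_lit 381) (nat_lit 2) (.p (nat_lit 382) (nat_lit 5) (.p (nat_lit 383) (nat_lit 3) (.p (nat_lit 384) (nat_lit 7) (.n (nat_lit 385) (nat_lit 1) (.p (nat_lit 386) (nat_lit 7) (.p (nat_lit 387) (nat_lit 1) (.n (nat_lit 389) (nat_lit 3) (.n (nat_lit 390) (nat_lit 7) (.p (nat_lit 391) (nat_lit 1) (.n (nat_lit 392) (nat_lit 9) (.n (nat_lit 393) (nat_lit 1) (.n (nat_lit 394) (nat_lit 1) (.p (nat_lit 395) (nat_lit 6) (.n (nat_lit 396) (nat_lit 1)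 (.n (nat_lit 397) (nat_lit 3) (.p (nat_lit 398) (nat_lit 6) (.n (nat_lit 399) (nat_lit 3) (.p (nat_lit 400) (nat_lit 5) (.n (nat_lit 401) (nat_lit 6) .z)))))))))))))))))))))))))))))))))))))))) .nil)))))))))))))))))))))))))

noncomputable def dC2d_i152 : IL := (.e true (nat_lit 1) (nat_lit 271) (nat_lit 1) (nat_lit 17) (.e true (nat_lit 2) (nat_lit 272) (nat_lit 1) (nat_lit 17) (.e true (nat_lit 1) (nat_lit 273) (nat_lit 1) (nat_lit 17) (.e false (nat_lit 1) (nat_lit 276) (nat_lit 1) (nat_lit 17) (.e true (nat_lit 3) (nat_lit 277) (nat_lit 1) (nat_lit 17) (.e false (nat_lit 2) (nat_lit 255) (nat_lit 1) (nat_lit 17) (.e true (nat_lit 1) (nat_lit 264) (nat_lit 1) (nat_lit 17) (.e false (nat_lit 2) (nat_lit 266) (nat_lit 1) (nat_lit 17) (.e true (nat_lit 3) (nat_lit 209) (nat_lit 2) (nat_lit 16) (.e false (nat_lit 1) (nat_lit 211) (nat_lit 2) (nat_lit 16) (.e true (nat_lit 3) (nat_lit 212) (nat_lit 2) (nat_lit 16)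 (.e true (nat_lit 1) (nat_lit 213) (nat_lit 2) (nat_lit 16) (.e false (nat_lit 2) (nat_lit 246) (nat_lit 2) (nat_lit 16) (.e false (nat_lit 3) (nat_lit 206) (nat_lit 2) (nat_lit 16) (.e false (nat_lit 1) (nat_lit 207) (nat_lit 2) (nat_lit 16) (.e true (nat_lit 3) (nat_lit 230) (nat_lit 2) (nat_lit 16) (.e true (nat_lit 2) (nat_lit 298) (nat_lit 0) (nat_lit 18) (.e false (nat_lit 3) (nat_lit 274) (nat_lit 1) (nat_lit 17) (.e false (nat_lit 2) (nat_lit 138) (nat_lit 6) (nat_lit 12) (.e true (nat_lit 2) (nat_lit 155) (nat_lit 6) (nat_lit 12) (.e false (nat_lit 3) (nat_lit 210) (nat_lit 2) (nat_lit 16) (.e true (nat_lit 3) (nat_lit 234) (nat_lit 2) (nat_lit 16) (.e true (nat_lit 2) (nat_lit 250) (nat_lit 2) (nat_lit 16) (.e false (nat_lit 3) (nat_lit 229) (nat_lit 2) (nat_lit 16) (.e false (nat_lit 1) (nat_lit 233) (nat_lit 2) (nat_lit 16) dC2d_i151)))))))))))))))))))))))))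

noncomputable def dC2d_i153 : IL := (.s true (nat_lit 1) (nat_lit 84) (nat_lit 2) (nat_lit 1) (nat_lit 1) true (nat_lit 12) true (nat_lit 17) false (nat_lit 7) true (nat_lit 16) true (nat_lit 17) (.s true (nat_lit 1) (nat_lit 89) (nat_lit 2) (nat_lit 1) (nat_lit 1) true (nat_lit 12) true (nat_lit 17) false (nat_lit 7) true (nat_lit 16) true (nat_lit 17) (.s true (nat_lit 1) (nat_lit 93) (nat_lit 0) (nat_lit 1) (nat_lit 2) true (nat_lit 13) true (nat_lit 16) false (nat_lit 8) true (nat_lit 18) true (nat_lit 17) (.s false (nat_lit 3) (nat_lit 94) (nat_lit 0) (nat_lit 1) (nat_lit 2) true (nat_lit 13) true (nat_lit 16) false (nat_lit 8) true (nat_lit 18) true (nat_lit 17) (.s false (nat_lit 1) (nat_lit 96) (nat_lit 0) (nat_lit 1) (nat_lit 2) true (nat_lit 13) true (nat_lit 16) false (nat_lit 8) true (nat_lit 18) true (nat_lit 17) (.s false (nat_lit 2) (nat_lit 91) (nat_lit 0) (nat_lit 2) (nat_lit 1) true (nat_lit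 15) true (nat_lit 17) false (nat_lit 8) true (nat_lit 18) true (nat_lit 16) (.s false (nat_lit 3) (nat_lit 95) (nat_lit 0) (nat_lit 2) (nat_lit 1) true (nat_lit 15) true (nat_lit 17) false (nat_lit 8) true (nat_lit 18) true (nat_lit 16) (.s true (nat_lit 1) (nat_lit 96) (nat_lit 0) (nat_lit 2) (nat_lit 1) true (nat_lit 15) true (nat_lit 17) false (nat_lit 8) true (nat_lit 18) true (nat_lit 16) (.s true (nat_lit 3) (nat_lit 92) (nat_lit 1) (nat_lit 2) (nat_lit 0) true (nat_lit 15) true (nat_lit 18) false (nat_lit 8) true (nat_lit 17) true (nat_lit 16) (.s false (nat_lit 3) (nat_lit 92) (nat_lit 2) (nat_lit 1) (nat_lit 0) true (nat_lit 13) true (nat_lit 18) false (nat_lit 8) true (nat_lit 16) true (nat_lit 17) (.s false (nat_lit 1) (nat_lit 94) (nat_lit 2) (nat_lit 1) (nat_lit 0) true (nat_lit 13) true (nat_lit 18) false (nat_lit 8) true (nat_lit 16) true (nat_lit 17) (.s true (nat_lit 3) (nat_lit 95) (nat_lit 2)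 (nat_lit 1) (nat_lit 0) true (nat_lit 13) true (nat_lit 18) false (nat_lit 8) true (nat_lit 16) true (nat_lit 17) (.s true (nat_lit 2) (nat_lit 100) (nat_lit 1) (nat_lit 1) (nat_lit 1) true (nat_lit 14) true (nat_lit 17) false (nat_lit 9) true (nat_lit 17) true (nat_lit 17) (.s true (nat_lit 1) (nat_lit 101) (nat_lit 0) (nat_lit 1) (nat_lit 1) true (nat_lit 15) true (nat_lit 17) false (nat_lit 10) true (nat_lit 18) true (nat_lit 17) (.s true (nat_lit 2) (nat_lit 102) (nat_lit 0) (nat_lit 1) (nat_lit 1) true (nat_lit 15) true (nat_lit 17) false (nat_lit 10) true (nat_lit 18) true (nat_lit 17) (.s false (nat_lit 1) (nat_lit 102) (nat_lit 1) (nat_lit 1) (nat_lit 0) true (nat_lit 15) true (nat_lit 18) false (nat_lit 10) true (nat_lit 17) true (nat_lit 17) (.s true (nat_lit 1) (nat_lit 103) (nat_lit 1) (nat_lit 1) (nat_lit 0) true (nat_lit 15) true (nat_lit 18) false (nat_lit 10) true (nat_lit 17) true (nat_lit 17)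 (.e false (nat_lit 2) (nat_lit 129) (nat_lit 7) (nat_lit 11) (.e true (nat_lit 1) (nat_lit 227) (nat_lit 2) (nat_lit 16) (.e true (nat_lit 3) (nat_lit 208) (nat_lit 2) (nat_lit 16) (.e true (nat_lit 3) (nat_lit 252) (nat_lit 1) (nat_lit 17) (.e true (nat_lit 3) (nat_lit 253) (nat_lit 1) (nat_lit 17) (.e true (nat_lit 3) (nat_lit 254) (nat_lit 1) (nat_lit 17) (.e false (nat_lit 3) (nat_lit 265) (nat_lit 1) (nat_lit 17) (.e false (nat_lit 3) (nat_lit 269) (nat_lit 1) (nat_lit 17) dC2d_i152)))))))))))))))))))))))))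

noncomputable def dC2d_i154 : IL := (.s false (nat_lit 2) (nat_lit 63) (nat_lit 2) (nat_lit 2) (nat_lit 1) true (nat_lit 12) true (nat_lit 17) false (nat_lit 5) true (nat_lit 16) true (nat_lit 16) (.s false (nat_lit 2) (nat_lit 65) (nat_lit 2) (nat_lit 2) (nat_lit 1) true (nat_lit 12) true (nat_lit 17) false (nat_lit 5) true (nat_lit 16) true (nat_lit 16) (.s true (nat_lit 2) (nat_lit 67) (nat_lit 2) (nat_lit 2) (nat_lit 1) true (nat_lit 12) true (nat_lit 17) false (nat_lit 5) true (nat_lit 16) true (nat_lit 16) (.s false (nat_lit 2) (nat_lit 68) (nat_lit 2) (nat_lit 2) (nat_lit 1) true (nat_lit 12) true (nat_lit 17) false (nat_lit 5) true (nat_lit 16) true (nat_lit 16) (.s false (nat_lit 3) (nat_lit 69) (nat_lit 2) (nat_lit 2) (nat_lit 1) true (nat_lit 12) true (nat_lit 17) false (nat_lit 5) true (nat_lit 16) true (nat_lit 16) (.s true (nat_lit 3) (nat_lit 74) (nat_lit 0) (nat_lit 2) (nat_lit 2) true (nat_lit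 13) true (nat_lit 16) false (nat_lit 6) true (nat_lit 18) true (nat_lit 16) (.s true (nat_lit 1) (nat_lit 79) (nat_lit 0) (nat_lit 2) (nat_lit 2) true (nat_lit 13) true (nat_lit 16) false (nat_lit 6) true (nat_lit 18) true (nat_lit 16) (.s true (nat_lit 2) (nat_lit 74) (nat_lit 2) (nat_lit 0) (nat_lit 2) true (nat_lit 11) true (nat_lit 16) false (nat_lit 6) true (nat_lit 16) true (nat_lit 18) (.s false (nat_lit 1) (nat_lit 74) (nat_lit 2) (nat_lit 2) (nat_lit 0) true (nat_lit 13) true (nat_lit 18) false (nat_lit 6) true (nat_lit 16) true (nat_lit 16) (.s false (nat_lit 2) (nat_lit 79) (nat_lit 2) (nat_lit 2) (nat_lit 0) true (nat_lit 13) true (nat_lit 18) false (nat_lit 6) true (nat_lit 16) true (nat_lit 16) (.s true (nat_lit 3) (nat_lit 81) (nat_lit 1) (nat_lit 1) (nat_lit 2) true (nat_lit 12) true (nat_lit 16) false (nat_lit 7) true (nat_lit 17) true (nat_lit 17) (.s true (nat_lit 1) (nat_lit 83) (nat_lit 1)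 (nat_lit 1) (nat_lit 2) true (nat_lit 12) true (nat_lit 16) false (nat_lit 7) true (nat_lit 17) true (nat_lit 17) (.s false (nat_lit 3) (nat_lit 88) (nat_lit 1) (nat_lit 1) (nat_lit 2) true (nat_lit 12) true (nat_lit 16) false (nat_lit 7) true (nat_lit 17) true (nat_lit 17) (.s true (nat_lit 3) (nat_lit 89) (nat_lit 1) (nat_lit 1) (nat_lit 2) true (nat_lit 12) true (nat_lit 16) false (nat_lit 7) true (nat_lit 17) true (nat_lit 17) (.s true (nat_lit 3) (nat_lit 80) (nat_lit 1) (nat_lit 2) (nat_lit 1) true (nat_lit 14) true (nat_lit 17) false (nat_lit 7) true (nat_lit 17) true (nat_lit 16) (.s true (nat_lit 2) (nat_lit 81) (nat_lit 1) (nat_lit 2) (nat_lit 1) true (nat_lit 14) true (nat_lit 17) false (nat_lit 7) true (nat_lit 17) true (nat_lit 16) (.s true (nat_lit 2) (nat_lit 82) (nat_lit 1) (nat_lit 2) (nat_lit 1) true (nat_lit 14) true (nat_lit 17) false (nat_lit 7) true (nat_lit 17) true (nat_lit 16) (.s false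 (nat_lit 3) (nat_lit 83) (nat_lit 1) (nat_lit 2) (nat_lit 1) true (nat_lit 14) true (nat_lit 17) false (nat_lit 7) true (nat_lit 17) true (nat_lit 16) (.s false (nat_lit 1) (nat_lit 84) (nat_lit 1) (nat_lit 2) (nat_lit 1) true (nat_lit 14) true (nat_lit 17) false (nat_lit 7) true (nat_lit 17) true (nat_lit 16) (.s false (nat_lit 2) (nat_lit 85) (nat_lit 1) (nat_lit 2) (nat_lit 1) true (nat_lit 14) true (nat_lit 17) false (nat_lit 7) true (nat_lit 17) true (nat_lit 16) (.s true (nat_lit 3) (nat_lit 87) (nat_lit 1) (nat_lit 2) (nat_lit 1) true (nat_lit 14) true (nat_lit 17) false (nat_lit 7) true (nat_lit 17) true (nat_lit 16) (.s false (nat_lit 1) (nat_lit 88) (nat_lit 1) (nat_lit 2) (nat_lit 1) true (nat_lit 14) true (nat_lit 17) false (nat_lit 7) true (nat_lit 17) true (nat_lit 16) (.s false (nat_lit 1) (nat_lit 89) (nat_lit 1) (nat_lit 2) (nat_lit 1) true (nat_lit 14) true (nat_lit 17) false (nat_lit 7) true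 (nat_lit 17) true (nat_lit 16) (.s false (nat_lit 3) (nat_lit 80) (nat_lit 2) (nat_lit 1) (nat_lit 1) true (nat_lit 12) true (nat_lit 17) false (nat_lit 7) true (nat_lit 16) true (nat_lit 17) (.s false (nat_lit 3) (nat_lit 83) (nat_lit 2) (nat_lit 1) (nat_lit 1) true (nat_lit 12) true (nat_lit 17) false (nat_lit 7) true (nat_lit 16) true (nat_lit 17) dC2d_i153)))))))))))))))))))))))))

noncomputable def dC2d_i155 : IL := (.s false (nat_lit 2) (nat_lit 48) (nat_lit 0) (nat_lit 4) (nat_lit 1) true (nat_lit 15) true (nat_lit 17) false (nat_lit 3) true (nat_lit 18) true (nat_lit 14) (.s false (nat_lit 2) (nat_lit 48) (nat_lit 1) (nat_lit 0) (nat_lit 4) true (nat_lit 9) true (nat_lit 14) false (nat_lit 3) true (nat_lit 17) true (nat_lit 18) (.s true (nat_lit 2) (nat_lit 52) (nat_lit 2) (nat_lit 2) (nat_lit 2) true (nat_lit 11) true (nat_lit 16) false (nat_lit 4) true (nat_lit 16) true (nat_lit 16) (.s true (nat_lit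 3) (nat_lit 53) (nat_lit 2) (nat_lit 2) (nat_lit 2) true (nat_lit 11) true (nat_lit 16) false (nat_lit 4) true (nat_lit 16) true (nat_lit 16) (.s true (nat_lit 3) (nat_lit 54) (nat_lit 2) (nat_lit 2) (nat_lit 2) true (nat_lit 11) true (nat_lit 16) false (nat_lit 4) true (nat_lit 16) true (nat_lit 16) (.s true (nat_lit 1) (nat_lit 56) (nat_lit 2) (nat_lit 2) (nat_lit 2) true (nat_lit 11) true (nat_lit 16) false (nat_lit 4) true (nat_lit 16) true (nat_lit 16) (.s true (nat_lit 2) (nat_lit 57) (nat_lit 2) (nat_lit 2) (nat_lit 2) true (nat_lit 11) true (nat_lit 16) false (nat_lit 4) true (nat_lit 16) true (nat_lit 16) (.s true (nat_lit 1) (nat_lit 60) (nat_lit 1) (nat_lit 2) (nat_lit 2) true (nat_lit 12) true (nat_lit 16) false (nat_lit 5) true (nat_lit 17) true (nat_lit 16) (.s true (nat_lit 1) (nat_lit 61) (nat_lit 1) (nat_lit 2) (nat_lit 2) true (nat_lit 12) true (nat_lit 16) false (nat_lit 5) true (nat_lit 17)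 true (nat_lit 16) (.s false (nat_lit 1) (nat_lit 63) (nat_lit 1) (nat_lit 2) (nat_lit 2) true (nat_lit 12) true (nat_lit 16) false (nat_lit 5) true (nat_lit 17) true (nat_lit 16) (.s false (nat_lit 3) (nat_lit 64) (nat_lit 1) (nat_lit 2) (nat_lit 2) true (nat_lit 12) true (nat_lit 16) false (nat_lit 5) true (nat_lit 17) true (nat_lit 16) (.s true (nat_lit 1) (nat_lit 65) (nat_lit 1) (nat_lit 2) (nat_lit 2) true (nat_lit 12) true (nat_lit 16) false (nat_lit 5) true (nat_lit 17) true (nat_lit 16) (.s true (nat_lit 2) (nat_lit 66) (nat_lit 1) (nat_lit 2) (nat_lit 2) true (nat_lit 12) true (nat_lit 16) false (nat_lit 5) true (nat_lit 17) true (nat_lit 16) (.s false (nat_lit 2) (nat_lit 67) (nat_lit 1) (nat_lit 2) (nat_lit 2) true (nat_lit 12) true (nat_lit 16) false (nat_lit 5) true (nat_lit 17) true (nat_lit 16) (.s false (nat_lit 2) (nat_lit 68) (nat_lit 1) (nat_lit 2) (nat_lit 2) true (nat_lit 12) true (nat_lit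 16) false (nat_lit 5) true (nat_lit 17) true (nat_lit 16) (.s true (nat_lit 3) (nat_lit 69) (nat_lit 1) (nat_lit 2) (nat_lit 2) true (nat_lit 12) true (nat_lit 16) false (nat_lit 5) true (nat_lit 17) true (nat_lit 16) (.s false (nat_lit 1) (nat_lit 71) (nat_lit 1) (nat_lit 2) (nat_lit 2) true (nat_lit 12) true (nat_lit 16) false (nat_lit 5) true (nat_lit 17) true (nat_lit 16) (.s false (nat_lit 3) (nat_lit 62) (nat_lit 2) (nat_lit 1) (nat_lit 2) true (nat_lit 11) true (nat_lit 16) false (nat_lit 5) true (nat_lit 16) true (nat_lit 17) (.s false (nat_lit 3) (nat_lit 63) (nat_lit 2) (nat_lit 1) (nat_lit 2) true (nat_lit 11) true (nat_lit 16) false (nat_lit 5) true (nat_lit 16) true (nat_lit 17) (.s false (nat_lit 1) (nat_lit 64) (nat_lit 2) (nat_lit 1) (nat_lit 2) true (nat_lit 11) true (nat_lit 16) false (nat_lit 5) true (nat_lit 16) true (nat_lit 17) (.s true (nat_lit 2) (nat_lit 65) (nat_lit 2) (nat_lit 1) (nat_lit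 2) true (nat_lit 11) true (nat_lit 16) false (nat_lit 5) true (nat_lit 16) true (nat_lit 17) (.s true (nat_lit 3) (nat_lit 66) (nat_lit 2) (nat_lit 1) (nat_lit 2) true (nat_lit 11) true (nat_lit 16) false (nat_lit 5) true (nat_lit 16) true (nat_lit 17) (.s true (nat_lit 2) (nat_lit 73) (nat_lit 2) (nat_lit 1) (nat_lit 2) true (nat_lit 11) true (nat_lit 16) false (nat_lit 5) true (nat_lit 16) true (nat_lit 17) (.s true (nat_lit 1) (nat_lit 60) (nat_lit 2) (nat_lit 2) (nat_lit 1) true (nat_lit 12) true (nat_lit 17) false (nat_lit 5) true (nat_lit 16) true (nat_lit 16) (.s true (nat_lit 1) (nat_lit 62) (nat_lit 2) (nat_lit 2) (nat_lit 1) true (nat_lit 12) true (nat_lit 17) false (nat_lit 5) true (nat_lit 16) true (nat_lit 16) dC2d_i154)))))))))))))))))))))))))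

noncomputable def dC2d_i156 : IL := (.s false (nat_lit 3) (nat_lit 38) (nat_lit 1) (nat_lit 7) (nat_lit 1) true (nat_lit 14) true (nat_lit 17) true (nat_lit 0) true (nat_lit 17) true (nat_lit 11) (.s false (nat_lit 3) (nat_lit 35) (nat_lit 2) (nat_lit 2) (nat_lit 4) true (nat_lit 7) true (nat_lit 14) true (nat_lit 0) true (nat_lit 16) true (nat_lit 16) (.s true (nat_lit 3) (nat_lit 36) (nat_lit 2) (nat_lit 2) (nat_lit 4) true (nat_lit 7) true (nat_lit 14) true (nat_lit 0) true (nat_lit 16) true (nat_lit 16) (.s true (nat_lit 1) (nat_lit 38) (nat_lit 2) (nat_lit 2) (nat_lit 4) true (nat_lit 7) true (nat_lit 14) true (nat_lit 0) true (nat_lit 16) true (nat_lit 16) (.s true (nat_lit 3) (nat_lit 38) (nat_lit 4) (nat_lit 2) (nat_lit 2) true (nat_lit 7) true (nat_lit 16) true (nat_lit 0) true (nat_lit 14) true (nat_lit 16) (.s false (nat_lit 2) (nat_lit 33) (nat_lit 6) (nat_lit 1) (nat_lit 2) true (nat_lit 5) true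 (nat_lit 16) true (nat_lit 0) true (nat_lit 12) true (nat_lit 17) (.s false (nat_lit 2) (nat_lit 34) (nat_lit 6) (nat_lit 2) (nat_lit 1) true (nat_lit 7) true (nat_lit 17) true (nat_lit 0) true (nat_lit 12) true (nat_lit 16) (.s true (nat_lit 2) (nat_lit 33) (nat_lit 7) (nat_lit 1) (nat_lit 1) true (nat_lit 5) true (nat_lit 17) true (nat_lit 0) true (nat_lit 11) true (nat_lit 17) (.s true (nat_lit 3) (nat_lit 39) (nat_lit 3) (nat_lit 2) (nat_lit 2) true (nat_lit 8) true (nat_lit 16) false (nat_lit 0) true (nat_lit 15) true (nat_lit 16) (.s true (nat_lit 2) (nat_lit 44) (nat_lit 1) (nat_lit 4) (nat_lit 2) true (nat_lit 12) true (nat_lit 16) false (nat_lit 1) true (nat_lit 17) true (nat_lit 14) (.s false (nat_lit 3) (nat_lit 45) (nat_lit 1) (nat_lit 1) (nat_lit 5) true (nat_lit 8) true (nat_lit 13) false (nat_lit 2) true (nat_lit 17) true (nat_lit 17) (.s true (nat_lit 2) (nat_lit 45) (nat_lit 1) (nat_lit 2) (nat_lit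 3) true (nat_lit 10) true (nat_lit 15) false (nat_lit 2) true (nat_lit 17) true (nat_lit 16) (.s false (nat_lit 3) (nat_lit 46) (nat_lit 1) (nat_lit 2) (nat_lit 3) true (nat_lit 10) true (nat_lit 15) false (nat_lit 2) true (nat_lit 17) true (nat_lit 16) (.s true (nat_lit 3) (nat_lit 46) (nat_lit 1) (nat_lit 3) (nat_lit 2) true (nat_lit 12) true (nat_lit 16) false (nat_lit 2) true (nat_lit 17) true (nat_lit 15) (.s true (nat_lit 2) (nat_lit 46) (nat_lit 1) (nat_lit 5) (nat_lit 1) true (nat_lit 14) true (nat_lit 17) false (nat_lit 2) true (nat_lit 17) true (nat_lit 13) (.s false (nat_lit 1) (nat_lit 45) (nat_lit 2) (nat_lit 1) (nat_lit 3) true (nat_lit 8) true (nat_lit 15) false (nat_lit 2) true (nat_lit 16) true (nat_lit 17) (.s true (nat_lit 2) (nat_lit 46) (nat_lit 2) (nat_lit 1) (nat_lit 3) true (nat_lit 8) true (nat_lit 15) false (nat_lit 2) true (nat_lit 16) true (nat_lit 17) (.s true (nat_lit 1) (nat_lit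 45) (nat_lit 2) (nat_lit 3) (nat_lit 1) true (nat_lit 12) true (nat_lit 17) false (nat_lit 2) true (nat_lit 16) true (nat_lit 15) (.s false (nat_lit 3) (nat_lit 46) (nat_lit 2) (nat_lit 3) (nat_lit 1) true (nat_lit 12) true (nat_lit 17) false (nat_lit 2) true (nat_lit 16) true (nat_lit 15) (.s true (nat_lit 1) (nat_lit 45) (nat_lit 5) (nat_lit 1) (nat_lit 1) true (nat_lit 8) true (nat_lit 17) false (nat_lit 2) true (nat_lit 13) true (nat_lit 17) (.s true (nat_lit 1) (nat_lit 46) (nat_lit 5) (nat_lit 1) (nat_lit 1) true (nat_lit 8) true (nat_lit 17) false (nat_lit 2) true (nat_lit 13) true (nat_lit 17) (.s false (nat_lit 2) (nat_lit 47) (nat_lit 5) (nat_lit 1) (nat_lit 1) true (nat_lit 8) true (nat_lit 17) false (nat_lit 2) true (nat_lit 13) true (nat_lit 17) (.s false (nat_lit 3) (nat_lit 45) (nat_lit 6) (nat_lit 0) (nat_lit 1) true (nat_lit 7) true (nat_lit 17) false (nat_lit 2) true (nat_lit 12) true (nat_lit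 18) (.s true (nat_lit 1) (nat_lit 45) (nat_lit 6) (nat_lit 1) (nat_lit 0) true (nat_lit 8) true (nat_lit 18) false (nat_lit 2) true (nat_lit 12) true (nat_lit 17) (.s false (nat_lit 3) (nat_lit 46) (nat_lit 6) (nat_lit 1) (nat_lit 0) true (nat_lit 8) true (nat_lit 18) false (nat_lit 2) true (nat_lit 12) true (nat_lit 17) dC2d_i155)))))))))))))))))))))))))

noncomputable def dC2d_i157 : IL := (.s true (nat_lit 1) (nat_lit 26) (nat_lit 1) (nat_lit 7) (nat_lit 2) true (nat_lit 12) true (nat_lit 16) true (nat_lit 2) true (nat_lit 17) true (nat_lit 11) (.s true (nat_lit 3) (nat_lit 27) (nat_lit 1) (nat_lit 7) (nat_lit 2) true (nat_lit 12) true (nat_lit 16) true (nat_lit 2) true (nat_lit 17) true (nat_lit 11) (.s true (nat_lit 2) (nat_lit 29) (nat_lit 1) (nat_lit 7) (nat_lit 2) true (nat_lit 12) true (nat_lit 16) true (nat_lit 2) true (nat_lit 17) true (nat_lit 11) (.s false (nat_lit 3) (nat_lit 25) (nat_lit 2) (nat_lit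 1) (nat_lit 7) true (nat_lit 4) true (nat_lit 11) true (nat_lit 2) true (nat_lit 16) true (nat_lit 17) (.s false (nat_lit 3) (nat_lit 29) (nat_lit 2) (nat_lit 1) (nat_lit 7) true (nat_lit 4) true (nat_lit 11) true (nat_lit 2) true (nat_lit 16) true (nat_lit 17) (.s false (nat_lit 1) (nat_lit 24) (nat_lit 2) (nat_lit 2) (nat_lit 6) true (nat_lit 5) true (nat_lit 12) true (nat_lit 2) true (nat_lit 16) true (nat_lit 16) (.s true (nat_lit 2) (nat_lit 25) (nat_lit 2) (nat_lit 2) (nat_lit 6) true (nat_lit 5) true (nat_lit 12) true (nat_lit 2) true (nat_lit 16) true (nat_lit 16) (.s false (nat_lit 3) (nat_lit 29) (nat_lit 2) (nat_lit 2) (nat_lit 6) true (nat_lit 5) true (nat_lit 12) true (nat_lit 2) true (nat_lit 16) true (nat_lit 16) (.s false (nat_lit 3) (nat_lit 24) (nat_lit 6) (nat_lit 2) (nat_lit 2) true (nat_lit 5) true (nat_lit 16) true (nat_lit 2) true (nat_lit 12) true (nat_lit 16) (.s false (nat_lit 3) (nat_lit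 26) (nat_lit 6) (nat_lit 2) (nat_lit 2) true (nat_lit 5) true (nat_lit 16) true (nat_lit 2) true (nat_lit 12) true (nat_lit 16) (.s false (nat_lit 2) (nat_lit 27) (nat_lit 6) (nat_lit 2) (nat_lit 2) true (nat_lit 5) true (nat_lit 16) true (nat_lit 2) true (nat_lit 12) true (nat_lit 16) (.s false (nat_lit 3) (nat_lit 25) (nat_lit 7) (nat_lit 2) (nat_lit 1) true (nat_lit 5) true (nat_lit 17) true (nat_lit 2) true (nat_lit 11) true (nat_lit 16) (.s false (nat_lit 1) (nat_lit 30) (nat_lit 0) (nat_lit 2) (nat_lit 7) true (nat_lit 6) true (nat_lit 11) true (nat_lit 1) true (nat_lit 18) true (nat_lit 16) (.s false (nat_lit 1) (nat_lit 30) (nat_lit 2) (nat_lit 2) (nat_lit 5) true (nat_lit 6) true (nat_lit 13) true (nat_lit 1) true (nat_lit 16) true (nat_lit 16) (.s false (nat_lit 2) (nat_lit 30) (nat_lit 5) (nat_lit 2) (nat_lit 2) true (nat_lit 6) true (nat_lit 16) true (nat_lit 1) true (nat_lit 13) true (nat_lit 16)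 (.s false (nat_lit 2) (nat_lit 33) (nat_lit 1) (nat_lit 1) (nat_lit 7) true (nat_lit 5) true (nat_lit 11) true (nat_lit 0) true (nat_lit 17) true (nat_lit 17) (.s false (nat_lit 2) (nat_lit 34) (nat_lit 1) (nat_lit 1) (nat_lit 7) true (nat_lit 5) true (nat_lit 11) true (nat_lit 0) true (nat_lit 17) true (nat_lit 17) (.s true (nat_lit 1) (nat_lit 35) (nat_lit 1) (nat_lit 1) (nat_lit 7) true (nat_lit 5) true (nat_lit 11) true (nat_lit 0) true (nat_lit 17) true (nat_lit 17) (.s true (nat_lit 3) (nat_lit 38) (nat_lit 1) (nat_lit 1) (nat_lit 7) true (nat_lit 5) true (nat_lit 11) true (nat_lit 0) true (nat_lit 17) true (nat_lit 17) (.s true (nat_lit 1) (nat_lit 35) (nat_lit 1) (nat_lit 2) (nat_lit 6) true (nat_lit 7) true (nat_lit 12) true (nat_lit 0) true (nat_lit 17) true (nat_lit 16) (.s true (nat_lit 2) (nat_lit 36) (nat_lit 1) (nat_lit 2) (nat_lit 6) true (nat_lit 7) true (nat_lit 12) true (nat_lit 0) true (nat_lit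 17) true (nat_lit 16) (.s true (nat_lit 1) (nat_lit 38) (nat_lit 1) (nat_lit 2) (nat_lit 6) true (nat_lit 7) true (nat_lit 12) true (nat_lit 0) true (nat_lit 17) true (nat_lit 16) (.s false (nat_lit 2) (nat_lit 34) (nat_lit 1) (nat_lit 6) (nat_lit 2) true (nat_lit 12) true (nat_lit 16) true (nat_lit 0) true (nat_lit 17) true (nat_lit 12) (.s false (nat_lit 3) (nat_lit 33) (nat_lit 1) (nat_lit 7) (nat_lit 1) true (nat_lit 14) true (nat_lit 17) true (nat_lit 0) true (nat_lit 17) true (nat_lit 11) (.s false (nat_lit 3) (nat_lit 34) (nat_lit 1) (nat_lit 7) (nat_lit 1) true (nat_lit 14) true (nat_lit 17) true (nat_lit 0) true (nat_lit 17) true (nat_lit 11) dC2d_i156)))))))))))))))))))))))))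

noncomputable def dC2d_i158 : IL := (.s true (nat_lit 1) (nat_lit 18) (nat_lit 9) (nat_lit 2) (nat_lit 2) true (nat_lit 2) true (nat_lit 16) true (nat_lit 5) true (nat_lit 10) true (nat_lit 16) (.s true (nat_lit 3) (nat_lit 18) (nat_lit 12) (nat_lit 1) (nat_lit 2) true (nat_lit 0) true (nat_lit 16) true (nat_lit 5) true (nat_lit 8) true (nat_lit 17) (.s false (nat_lit 3) (nat_lit 18) (nat_lit 12) (nat_lit 2) (nat_lit 1) true (nat_lit 2) true (nat_lit 17) true (nat_lit 5) true (nat_lit 8) true (nat_lit 16) (.s false (nat_lit 3) (nat_lit 19) (nat_lit 11) (nat_lit 2) (nat_lit 1) true (nat_lit 2) true (nat_lit 17) true (nat_lit 5) true (nat_lit 8) true (nat_lit 16) (.s true (nat_lit 1) (nat_lit 19) (nat_lit 12) (nat_lit 2) (nat_lit 1) true (nat_lit 2) true (nat_lit 17) true (nat_lit 5) true (nat_lit 8) true (nat_lit 16) (.s true (nat_lit 2) (nat_lit 20) (nat_lit 1) (nat_lit 5) (nat_lit 4) true (nat_lit 9) true (nat_lit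 14) true (nat_lit 4) true (nat_lit 17) true (nat_lit 13) (.s false (nat_lit 1) (nat_lit 20) (nat_lit 1) (nat_lit 8) (nat_lit 2) true (nat_lit 12) true (nat_lit 16) true (nat_lit 4) true (nat_lit 17) true (nat_lit 10) (.s true (nat_lit 3) (nat_lit 20) (nat_lit 2) (nat_lit 1) (nat_lit 8) true (nat_lit 2) true (nat_lit 10) true (nat_lit 4) true (nat_lit 16) true (nat_lit 17) (.s false (nat_lit 1) (nat_lit 20) (nat_lit 4) (nat_lit 3) (nat_lit 2) true (nat_lit 7) true (nat_lit 16) true (nat_lit 4) true (nat_lit 14) true (nat_lit 15) (.s false (nat_lit 1) (nat_lit 20) (nat_lit 5) (nat_lit 4) (nat_lit 1) true (nat_lit 8) true (nat_lit 17) true (nat_lit 4) true (nat_lit 13) true (nat_lit 14) (.s true (nat_lit 1) (nat_lit 20) (nat_lit 9) (nat_lit 1) (nat_lit 2) true (nat_lit 2) true (nat_lit 16) true (nat_lit 4) true (nat_lit 10) true (nat_lit 17) (.s false (nat_lit 2) (nat_lit 20) (nat_lit 8) (nat_lit 2) (nat_lit 1) true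 (nat_lit 3) true (nat_lit 17) true (nat_lit 4) true (nat_lit 10) true (nat_lit 16) (.s false (nat_lit 3) (nat_lit 20) (nat_lit 11) (nat_lit 1) (nat_lit 1) true (nat_lit 2) true (nat_lit 17) true (nat_lit 4) true (nat_lit 8) true (nat_lit 17) (.s false (nat_lit 2) (nat_lit 20) (nat_lit 12) (nat_lit 1) (nat_lit 1) true (nat_lit 2) true (nat_lit 17) true (nat_lit 4) true (nat_lit 8) true (nat_lit 17) (.s true (nat_lit 2) (nat_lit 21) (nat_lit 2) (nat_lit 2) (nat_lit 7) true (nat_lit 4) true (nat_lit 11) true (nat_lit 3) true (nat_lit 16) true (nat_lit 16) (.s true (nat_lit 3) (nat_lit 21) (nat_lit 2) (nat_lit 7) (nat_lit 2) true (nat_lit 11) true (nat_lit 16) true (nat_lit 3) true (nat_lit 16) true (nat_lit 11) (.s true (nat_lit 3) (nat_lit 23) (nat_lit 2) (nat_lit 7) (nat_lit 2) true (nat_lit 11) true (nat_lit 16) true (nat_lit 3) true (nat_lit 16) true (nat_lit 11) (.s true (nat_lit 1) (nat_lit 21) (nat_lit 7)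 (nat_lit 2) (nat_lit 2) true (nat_lit 4) true (nat_lit 16) true (nat_lit 3) true (nat_lit 11) true (nat_lit 16) (.s true (nat_lit 1) (nat_lit 23) (nat_lit 7) (nat_lit 2) (nat_lit 2) true (nat_lit 4) true (nat_lit 16) true (nat_lit 3) true (nat_lit 11) true (nat_lit 16) (.s false (nat_lit 3) (nat_lit 24) (nat_lit 1) (nat_lit 2) (nat_lit 7) true (nat_lit 5) true (nat_lit 11) true (nat_lit 2) true (nat_lit 17) true (nat_lit 16) (.s true (nat_lit 2) (nat_lit 25) (nat_lit 1) (nat_lit 2) (nat_lit 7) true (nat_lit 5) true (nat_lit 11) true (nat_lit 2) true (nat_lit 17) true (nat_lit 16) (.s false (nat_lit 3) (nat_lit 26) (nat_lit 1) (nat_lit 2) (nat_lit 7) true (nat_lit 5) true (nat_lit 11) true (nat_lit 2) true (nat_lit 17) true (nat_lit 16) (.s true (nat_lit 3) (nat_lit 27) (nat_lit 1) (nat_lit 2) (nat_lit 7) true (nat_lit 5) true (nat_lit 11) true (nat_lit 2) true (nat_lit 17) true (nat_lit 16) (.s true (nat_lit 2)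 (nat_lit 24) (nat_lit 1) (nat_lit 7) (nat_lit 2) true (nat_lit 12) true (nat_lit 16) true (nat_lit 2) true (nat_lit 17) true (nat_lit 11) (.s true (nat_lit 2) (nat_lit 25) (nat_lit 1) (nat_lit 7) (nat_lit 2) true (nat_lit 12) true (nat_lit 16) true (nat_lit 2) true (nat_lit 17) true (nat_lit 11) dC2d_i157)))))))))))))))))))))))))

noncomputable def dC2d_i159 : IL := (.s false (nat_lit 2) (nat_lit 12) (nat_lit 2) (nat_lit 6) (nat_lit 6) true (nat_lit 5) true (nat_lit 12) true (nat_lit 8) true (nat_lit 16) true (nat_lit 12) (.s false (nat_lit 1) (nat_lit 12) (nat_lit 4) (nat_lit 2) (nat_lit 7) false (nat_lit 0) true (nat_lit 11) true (nat_lit 8) true (nat_lit 14) true (nat_lit 16) (.s true (nat_lit 1) (nat_lit 11) (nat_lit 6) (nat_lit 6) (nat_lit 2) true (nat_lit 5) true (nat_lit 16) true (nat_lit 8) true (nat_lit 12) true (nat_lit 12) (.s true (nat_lit 1) (nat_lit 13) (nat_lit 6) (nat_lit 6) (nat_lit 2) true (nat_lit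 5) true (nat_lit 16) true (nat_lit 8) true (nat_lit 12) true (nat_lit 12) (.s true (nat_lit 2) (nat_lit 11) (nat_lit 7) (nat_lit 6) (nat_lit 1) true (nat_lit 5) true (nat_lit 17) true (nat_lit 8) true (nat_lit 11) true (nat_lit 12) (.s true (nat_lit 3) (nat_lit 12) (nat_lit 7) (nat_lit 6) (nat_lit 1) true (nat_lit 5) true (nat_lit 17) true (nat_lit 8) true (nat_lit 11) true (nat_lit 12) (.s false (nat_lit 1) (nat_lit 14) (nat_lit 2) (nat_lit 2) (nat_lit 11) true (nat_lit 0) true (nat_lit 8) true (nat_lit 7) true (nat_lit 16) true (nat_lit 16) (.s false (nat_lit 3) (nat_lit 14) (nat_lit 2) (nat_lit 2) (nat_lit 12) true (nat_lit 0) true (nat_lit 8) true (nat_lit 7) true (nat_lit 16) true (nat_lit 16) (.s false (nat_lit 2) (nat_lit 14) (nat_lit 2) (nat_lit 7) (nat_lit 3) true (nat_lit 8) true (nat_lit 15) true (nat_lit 7) true (nat_lit 16) true (nat_lit 11) (.s true (nat_lit 3) (nat_lit 15) (nat_lit 3) (nat_lit 7)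 (nat_lit 2) true (nat_lit 8) true (nat_lit 16) true (nat_lit 7) true (nat_lit 15) true (nat_lit 11) (.s true (nat_lit 3) (nat_lit 15) (nat_lit 12) (nat_lit 2) (nat_lit 2) true (nat_lit 0) true (nat_lit 16) true (nat_lit 7) true (nat_lit 8) true (nat_lit 16) (.s true (nat_lit 2) (nat_lit 17) (nat_lit 2) (nat_lit 2) (nat_lit 10) true (nat_lit 1) true (nat_lit 9) true (nat_lit 6) true (nat_lit 16) true (nat_lit 16) (.s true (nat_lit 2) (nat_lit 16) (nat_lit 10) (nat_lit 2) (nat_lit 2) true (nat_lit 1) true (nat_lit 16) true (nat_lit 6) true (nat_lit 9) true (nat_lit 16) (.s true (nat_lit 1) (nat_lit 18) (nat_lit 0) (nat_lit 1) (nat_lit 18) true (nat_lit 0) true (nat_lit 5) true (nat_lit 5) true (nat_lit 18) true (nat_lit 17) (.s true (nat_lit 3) (nat_lit 18) (nat_lit 0) (nat_lit 2) (nat_lit 15) true (nat_lit 2) true (nat_lit 7) true (nat_lit 5) true (nat_lit 18) true (nat_lit 16) (.s false (nat_lit 1) (nat_lit 18)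 (nat_lit 1) (nat_lit 2) (nat_lit 12) true (nat_lit 2) true (nat_lit 8) true (nat_lit 5) true (nat_lit 17) true (nat_lit 16) (.s false (nat_lit 2) (nat_lit 19) (nat_lit 1) (nat_lit 2) (nat_lit 12) true (nat_lit 2) true (nat_lit 8) true (nat_lit 5) true (nat_lit 17) true (nat_lit 16) (.s false (nat_lit 2) (nat_lit 19) (nat_lit 1) (nat_lit 7) (nat_lit 3) true (nat_lit 10) true (nat_lit 15) true (nat_lit 5) true (nat_lit 17) true (nat_lit 11) (.s false (nat_lit 2) (nat_lit 18) (nat_lit 1) (nat_lit 11) (nat_lit 2) true (nat_lit 12) true (nat_lit 16) true (nat_lit 5) true (nat_lit 17) true (nat_lit 8) (.s true (nat_lit 1) (nat_lit 18) (nat_lit 2) (nat_lit 1) (nat_lit 11) true (nat_lit 0) true (nat_lit 8) true (nat_lit 5) true (nat_lit 16) true (nat_lit 17) (.s false (nat_lit 3) (nat_lit 18) (nat_lit 2) (nat_lit 2) (nat_lit 8) true (nat_lit 2) true (nat_lit 10) true (nat_lit 5) true (nat_lit 16) true (nat_lit 16) (.s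 false (nat_lit 1) (nat_lit 19) (nat_lit 2) (nat_lit 2) (nat_lit 8) true (nat_lit 2) true (nat_lit 10) true (nat_lit 5) true (nat_lit 16) true (nat_lit 16) (.s false (nat_lit 1) (nat_lit 18) (nat_lit 2) (nat_lit 12) (nat_lit 1) true (nat_lit 12) true (nat_lit 17) true (nat_lit 5) true (nat_lit 16) true (nat_lit 8) (.s true (nat_lit 1) (nat_lit 19) (nat_lit 2) (nat_lit 12) (nat_lit 1) true (nat_lit 12) true (nat_lit 17) true (nat_lit 5) true (nat_lit 16) true (nat_lit 8) (.s false (nat_lit 3) (nat_lit 18) (nat_lit 8) (nat_lit 2) (nat_lit 2) true (nat_lit 2) true (nat_lit 16) true (nat_lit 5) true (nat_lit 10) true (nat_lit 16) dC2d_i158)))))))))))))))))))))))))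

noncomputable def dC2d_i160 : IL := (.e false (nat_lit 2) (nat_lit 259) (nat_lit 1) (nat_lit 17) (.e true (nat_lit 2) (nat_lit 260) (nat_lit 1) (nat_lit 17) (.e true (nat_lit 3) (nat_lit 261) (nat_lit 1) (nat_lit 17) (.e true (nat_lit 2) (nat_lit 279) (nat_lit 1) (nat_lit 17) (.e false (nat_lit 2) (nat_lit 286) (nat_lit 1) (nat_lit 17) (.e false (nat_lit 1) (nat_lit 144) (nat_lit 6) (nat_lit 12) (.e true (nat_lit 2) (nat_lit 155) (nat_lit 6) (nat_lit 12) (.e true (nat_lit 1) (nat_lit 257) (nat_lit 1) (nat_lit 17) (.e true (nat_lit 2) (nat_lit 288) (nat_lit 1) (nat_lit 17) (.e false (nat_lit 2) (nat_lit 298) (nat_lit 0) (nat_lit 18) (.e false (nat_lit 1) (nat_lit 303) (nat_lit 0) (nat_lit 18) (.e false (nat_lit 3) (nat_lit 294) (nat_lit 0) (nat_lit 18) (.e true (nat_lit 2) (nat_lit 62) (nat_lit 18) (nat_lit 5) (.e true (nat_lit 3) (nat_lit 81) (nat_lit 15) (nat_lit 7) (.e false (nat_lit 2) (nat_lit 290) (nat_lit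 0) (nat_lit 18) (.e true (nat_lit 2) (nat_lit 292) (nat_lit 0) (nat_lit 18) (.e false (nat_lit 3) (nat_lit 293) (nat_lit 0) (nat_lit 18) (.e true (nat_lit 3) (nat_lit 295) (nat_lit 0) (nat_lit 18) (.e true (nat_lit 1) (nat_lit 304) (nat_lit 0) (nat_lit 18) (.e false (nat_lit 1) (nat_lit 297) (nat_lit 0) (nat_lit 18) (.e true (nat_lit 3) (nat_lit 299) (nat_lit 0) (nat_lit 18) (.e true (nat_lit 1) (nat_lit 301) (nat_lit 0) (nat_lit 18) (.u (nat_lit 2) (.n (nat_lit 0) (nat_lit 2) (.p (nat_lit 2) (nat_lit 5) (.p (nat_lit 3) (nat_lit 1) (.p (nat_lit 4) (nat_lit 2) (.n (nat_lit 5) (nat_lit 5) (.p (nat_lit 6) (nat_lit 2) (.p (nat_lit 7) (nat_lit 4) (.n (nat_lit 8) (nat_lit 4) (.p (nat_lit 9) (nat_lit 3) (.p (nat_lit 10) (nat_lit 1) (.n (nat_lit 11) (nat_lit 1) (.p (nat_lit 12) (nat_lit 4) (.n (nat_lit 15) (nat_lit 2) (.p (nat_lit 16) (nat_lit 2) (.p (nat_lit 17) (nat_lit 6) (.p (nat_lit 18) (nat_lit 6) (.n (nat_lit 19)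 (nat_lit 1) (.n (nat_lit 20) (nat_lit 3) (.n (nat_lit 23) (nat_lit 3) (.n (nat_lit 25) (nat_lit 5) (.p (nat_lit 27) (nat_lit 1) (.p (nat_lit 28) (nat_lit 1) (.n (nat_lit 29) (nat_lit 1) (.n (nat_lit 31) (nat_lit 1) (.n (nat_lit 32) (nat_lit 1) (.n (nat_lit 33) (nat_lit 2) (.p (nat_lit 34) (nat_lit 7) (.n (nat_lit 35) (nat_lit 4) (.n (nat_lit 36) (nat_lit 1) (.n (nat_lit 37) (nat_lit 1) (.p (nat_lit 38) (nat_lit 2) (.p (nat_lit 39) (nat_lit 6) (.p (nat_lit 40) (nat_lit 2) (.n (nat_lit 41) (nat_lit 1) (.n (nat_lit 42) (nat_lit 1) (.p (nat_lit 44) (nat_lit 2) (.p (nat_lit 45) (nat_lit 1) (.p (nat_lit 46) (nat_lit 3) (.p (nat_lit 47) (nat_lit 1) (.n (nat_lit 50) (nat_lit 1) (.n (nat_lit 51) (nat_lit 1) (.n (nat_lit 55) (nat_lit 1) (.p (nat_lit 67) (nat_lit 1) (.n (nat_lit 91) (nat_lit 1) (.n (nat_lit 94) (nat_lit 1) (.p (nat_lit 110) (nat_lit 1) (.n (nat_lit 113) (nat_lit 1) (.n (nat_lit 122) (nat_lit 1) (.n (nat_lit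 127) (nat_lit 1) (.n (nat_lit 128) (nat_lit 1) (.p (nat_lit 129) (nat_lit 1) (.p (nat_lit 133) (nat_lit 1) (.n (nat_lit 134) (nat_lit 1) (.n (nat_lit 162) (nat_lit 1) (.p (nat_lit 173) (nat_lit 1) (.n (nat_lit 204) (nat_lit 1) (.p (nat_lit 206) (nat_lit 1) (.n (nat_lit 207) (nat_lit 1) (.p (nat_lit 208) (nat_lit 1) (.p (nat_lit 210) (nat_lit 1) .z)))))))))))))))))))))))))))))))))))))))))))))))))))))))))))) (.u (nat_lit 2) (.n (nat_lit 211) (nat_lit 1) (.n (nat_lit 213) (nat_lit 1) (.n (nat_lit 214) (nat_lit 1) (.n (nat_lit 215) (nat_lit 1) (.n (nat_lit 216) (nat_lit 1) (.p (nat_lit 217) (nat_lit 1) (.n (nat_lit 219) (nat_lit 4) (.p (nat_lit 221) (nat_lit 4) (.n (nat_lit 223) (nat_lit 3) (.n (nat_lit 224) (nat_lit 1) (.n (nat_lit 225) (nat_lit 4) (.n (nat_lit 227) (nat_lit 2) (.p (nat_lit 229) (nat_lit 6) (.n (nat_lit 235) (nat_lit 1) (.p (nat_lit 237) (nat_lit 1) (.p (nat_lit 238) (nat_lit 3) (.p (nat_lit 240)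 (nat_lit 1) (.p (nat_lit 241) (nat_lit 1) (.n (nat_lit 245) (nat_lit 2) (.p (nat_lit 246) (nat_lit 1) (.n (nat_lit 247) (nat_lit 1) (.n (nat_lit 251) (nat_lit 1) (.p (nat_lit 252) (nat_lit 2) (.p (nat_lit 253) (nat_lit 2) (.n (nat_lit 256) (nat_lit 1) (.n (nat_lit 261) (nat_lit 2) (.p (nat_lit 262) (nat_lit 1) (.p (nat_lit 302) (nat_lit 8) (.n (nat_lit 303) (nat_lit 7) (.n (nat_lit 304) (nat_lit 3) (.p (nat_lit 305) (nat_lit 8) (.n (nat_lit 306) (nat_lit 3) (.p (nat_lit 307) (nat_lit 5) (.p (nat_lit 308) (nat_lit 8) (.n (nat_lit 309) (nat_lit 5) (.n (nat_lit 310) (nat_lit 4) (.n (nat_lit 311) (nat_lit 1) (.n (nat_lit 313) (nat_lit 3) (.p (nat_lit 314) (nat_lit 2) (.n (nat_lit 315) (nat_lit 4) (.p (nat_lit 316) (nat_lit 1) (.n (nat_lit 317) (nat_lit 3) (.p (nat_lit 318) (nat_lit 7) (.p (nat_lit 319) (nat_lit 3) (.p (nat_lit 320) (nat_lit 1) (.p (nat_lit 322) (nat_lit 6) (.n (nat_lit 323) (nat_lit 2) (.p (nat_lit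 324) (nat_lit 6) (.n (nat_lit 325) (nat_lit 3) (.p (nat_lit 326) (nat_lit 7) (.p (nat_lit 327) (nat_lit 2) (.p (nat_lit 328) (nat_lit 4) (.n (nat_lit 329) (nat_lit 5) (.p (nat_lit 330) (nat_lit 1) (.p (nat_lit 331) (nat_lit 5) (.p (nat_lit 332) (nat_lit 1) (.p (nat_lit 336) (nat_lit 2) (.p (nat_lit 339) (nat_lit 1) (.p (nat_lit 340) (nat_lit 2) (.n (nat_lit 342) (nat_lit 3) .z)))))))))))))))))))))))))))))))))))))))))))))))))))))))))))) (.u (nat_lit 2) (.p (nat_lit 343) (nat_lit 2) (.n (nat_lit 345) (nat_lit 5) (.n (nat_lit 346) (nat_lit 1) (.p (nat_lit 347) (nat_lit 3) (.p (nat_lit 348) (nat_lit 7) (.p (nat_lit 349) (nat_lit 8) (.p (nat_lit 350) (nat_lit 3) (.p (nat_lit 351) (nat_lit 2) (.n (nat_lit 352) (nat_lit 9) (.n (nat_lit 353) (nat_lit 8) (.p (nat_lit 354) (nat_lit 10) (.p (nat_lit 355) (nat_lit 19) (.n (nat_lit 356) (nat_lit 2) (.n (nat_lit 357) (nat_lit 3) (.p (nat_lit 358) (nat_lit 9) (.p (nat_lit 359)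 (nat_lit 2) (.n (nat_lit 360) (nat_lit 6) (.p (nat_lit 361) (nat_lit 7) (.n (nat_lit 362) (nat_lit 3) (.p (nat_lit 363) (nat_lit 3) (.n (nat_lit 364) (nat_lit 8) (.p (nat_lit 366) (nat_lit 12) (.n (nat_lit 367) (nat_lit 13) (.p (nat_lit 368) (nat_lit 6) (.n (nat_lit 370) (nat_lit 2) (.p (nat_lit 372) (nat_lit 2) (.n (nat_lit 373) (nat_lit 6) (.n (nat_lit 374) (nat_lit 3) (.n (nat_lit 375) (nat_lit 6) (.n (nat_lit 376) (nat_lit 2) (.p (nat_lit 377) (nat_lit 6) (.p (nat_lit 380) (nat_lit 3) (.p (nat_lit 382) (nat_lit 4) (.n (nat_lit 383) (nat_lit 7) (.n (nat_lit 385) (nat_lit 1) (.n (nat_lit 387) (nat_lit 2) (.n (nat_lit 389) (nat_lit 1) (.n (nat_lit 394) (nat_lit 1) (.p (nat_lit 395) (nat_lit 1) (.p (nat_lit 398) (nat_lit 1) (.p (nat_lit 401) (nat_lit 1) .z))))))))))))))))))))))))))))))))))))))))) .nil)))))))))))))))))))))))))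

noncomputable def dC2d_i161 : IL := (.e false (nat_lit 2) (nat_lit 213) (nat_lit 2) (nat_lit 16) (.e true (nat_lit 3) (nat_lit 219) (nat_lit 2) (nat_lit 16) (.e true (nat_lit 3) (nat_lit 220) (nat_lit 2) (nat_lit 16) (.e true (nat_lit 2) (nat_lit 251) (nat_lit 2) (nat_lit 16) (.e false (nat_lit 3) (nat_lit 209) (nat_lit 2) (nat_lit 16) (.e true (nat_lit 1) (nat_lit 212) (nat_lit 2) (nat_lit 16) (.e true (nat_lit 1) (nat_lit 230) (nat_lit 2) (nat_lit 16) (.e true (nat_lit 2) (nat_lit 234) (nat_lit 2) (nat_lit 16) (.e true (nat_lit 1) (nat_lit 246) (nat_lit 2) (nat_lit 16) (.e false (nat_lit 1) (nat_lit 247) (nat_lit 2) (nat_lit 16) (.e true (nat_lit 1) (nat_lit 249) (nat_lit 2) (nat_lit 16) (.e false (nat_lit 3) (nat_lit 243) (nat_lit 2) (nat_lit 16) (.e false (nat_lit 1) (nat_lit 130) (nat_lit 7) (nat_lit 11) (.e true (nat_lit 1) (nat_lit 215) (nat_lit 2) (nat_lit 16) (.e false (nat_lit 1) (nat_lit 229) (nat_lit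 2) (nat_lit 16) (.e true (nat_lit 2) (nat_lit 248) (nat_lit 2) (nat_lit 16) (.e false (nat_lit 1) (nat_lit 207) (nat_lit 2) (nat_lit 16) (.e true (nat_lit 2) (nat_lit 218) (nat_lit 2) (nat_lit 16) (.e true (nat_lit 2) (nat_lit 235) (nat_lit 2) (nat_lit 16) (.e false (nat_lit 2) (nat_lit 138) (nat_lit 6) (nat_lit 12) (.e true (nat_lit 3) (nat_lit 239) (nat_lit 2) (nat_lit 16) (.e false (nat_lit 3) (nat_lit 244) (nat_lit 2) (nat_lit 16) (.e true (nat_lit 3) (nat_lit 250) (nat_lit 2) (nat_lit 16) (.e false (nat_lit 3) (nat_lit 274) (nat_lit 1) (nat_lit 17) (.e false (nat_lit 3) (nat_lit 256) (nat_lit 1) (nat_lit 17) dC2d_i160)))))))))))))))))))))))))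

noncomputable def dC2d_i162 : IL := (.s true (nat_lit 3) (nat_lit 103) (nat_lit 0) (nat_lit 1) (nat_lit 1) true (nat_lit 15) true (nat_lit 17) false (nat_lit 10) true (nat_lit 18) true (nat_lit 17) (.s false (nat_lit 3) (nat_lit 103) (nat_lit 1) (nat_lit 1) (nat_lit 0) true (nat_lit 15) true (nat_lit 18) false (nat_lit 10) true (nat_lit 17) true (nat_lit 17) (.e false (nat_lit 1) (nat_lit 227) (nat_lit 2) (nat_lit 16) (.e false (nat_lit 1) (nat_lit 242) (nat_lit 2) (nat_lit 16) (.e true (nat_lit 3) (nat_lit 208) (nat_lit 2) (nat_lit 16) (.e false (nat_lit 3) (nat_lit 216) (nat_lit 2) (nat_lit 16) (.e false (nat_lit 3) (nat_lit 122) (nat_lit 7) (nat_lit 11) (.e true (nat_lit 2) (nat_lit 285) (nat_lit 1) (nat_lit 17) (.e true (nat_lit 1) (nat_lit 252) (nat_lit 1) (nat_lit 17) (.e true (nat_lit 1) (nat_lit 253) (nat_lit 1) (nat_lit 17) (.e false (nat_lit 3) (nat_lit 258) (nat_lit 1) (nat_lit 17) (.e true (nat_lit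 2) (nat_lit 263) (nat_lit 1) (nat_lit 17) (.e true (nat_lit 3) (nat_lit 267) (nat_lit 1) (nat_lit 17) (.e true (nat_lit 1) (nat_lit 270) (nat_lit 1) (nat_lit 17) (.e true (nat_lit 1) (nat_lit 271) (nat_lit 1) (nat_lit 17) (.e false (nat_lit 2) (nat_lit 272) (nat_lit 1) (nat_lit 17) (.e false (nat_lit 3) (nat_lit 273) (nat_lit 1) (nat_lit 17) (.e false (nat_lit 1) (nat_lit 276) (nat_lit 1) (nat_lit 17) (.e true (nat_lit 2) (nat_lit 255) (nat_lit 1) (nat_lit 17) (.e false (nat_lit 1) (nat_lit 264) (nat_lit 1) (nat_lit 17) (.e true (nat_lit 3) (nat_lit 205) (nat_lit 2) (nat_lit 16) (.e true (nat_lit 2) (nat_lit 231) (nat_lit 2) (nat_lit 16) (.e true (nat_lit 2) (nat_lit 206) (nat_lit 2) (nat_lit 16) (.e false (nat_lit 1) (nat_lit 210) (nat_lit 2) (nat_lit 16) (.e true (nat_lit 2) (nat_lit 211) (nat_lit 2) (nat_lit 16) dC2d_i161)))))))))))))))))))))))))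

noncomputable def dC2d_i163 : IL := (.s false (nat_lit 3) (nat_lit 34) (nat_lit 4) (nat_lit 2) (nat_lit 2) true (nat_lit 7) true (nat_lit 16) true (nat_lit 0) true (nat_lit 14) true (nat_lit 16) (.s false (nat_lit 2) (nat_lit 33) (nat_lit 6) (nat_lit 1) (nat_lit 2) true (nat_lit 5) true (nat_lit 16) true (nat_lit 0) true (nat_lit 12) true (nat_lit 17) (.s true (nat_lit 1) (nat_lit 34) (nat_lit 6) (nat_lit 2) (nat_lit 1) true (nat_lit 7) true (nat_lit 17) true (nat_lit 0) true (nat_lit 12) true (nat_lit 16) (.s false (nat_lit 2) (nat_lit 52) (nat_lit 2) (nat_lit 2) (nat_lit 2) true (nat_lit 11) true (nat_lit 16) false (nat_lit 4) true (nat_lit 16) true (nat_lit 16) (.s true (nat_lit 1) (nat_lit 53) (nat_lit 2) (nat_lit 2) (nat_lit 2) true (nat_lit 11) true (nat_lit 16) false (nat_lit 4) true (nat_lit 16) true (nat_lit 16) (.s true (nat_lit 1) (nat_lit 56) (nat_lit 2) (nat_lit 2) (nat_lit 2) true (nat_lit 11) true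 (nat_lit 16) false (nat_lit 4) true (nat_lit 16) true (nat_lit 16) (.s false (nat_lit 1) (nat_lit 58) (nat_lit 2) (nat_lit 2) (nat_lit 2) true (nat_lit 11) true (nat_lit 16) false (nat_lit 4) true (nat_lit 16) true (nat_lit 16) (.s true (nat_lit 1) (nat_lit 60) (nat_lit 1) (nat_lit 2) (nat_lit 2) true (nat_lit 12) true (nat_lit 16) false (nat_lit 5) true (nat_lit 17) true (nat_lit 16) (.s false (nat_lit 2) (nat_lit 61) (nat_lit 1) (nat_lit 2) (nat_lit 2) true (nat_lit 12) true (nat_lit 16) false (nat_lit 5) true (nat_lit 17) true (nat_lit 16) (.s true (nat_lit 2) (nat_lit 63) (nat_lit 1) (nat_lit 2) (nat_lit 2) true (nat_lit 12) true (nat_lit 16) false (nat_lit 5) true (nat_lit 17) true (nat_lit 16) (.s false (nat_lit 3) (nat_lit 65) (nat_lit 1) (nat_lit 2) (nat_lit 2) true (nat_lit 12) true (nat_lit 16) false (nat_lit 5) true (nat_lit 17) true (nat_lit 16) (.s false (nat_lit 2) (nat_lit 66) (nat_lit 1) (nat_lit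 2) (nat_lit 2) true (nat_lit 12) true (nat_lit 16) false (nat_lit 5) true (nat_lit 17) true (nat_lit 16) (.s false (nat_lit 3) (nat_lit 67) (nat_lit 1) (nat_lit 2) (nat_lit 2) true (nat_lit 12) true (nat_lit 16) false (nat_lit 5) true (nat_lit 17) true (nat_lit 16) (.s true (nat_lit 2) (nat_lit 68) (nat_lit 1) (nat_lit 2) (nat_lit 2) true (nat_lit 12) true (nat_lit 16) false (nat_lit 5) true (nat_lit 17) true (nat_lit 16) (.s true (nat_lit 1) (nat_lit 72) (nat_lit 1) (nat_lit 2) (nat_lit 2) true (nat_lit 12) true (nat_lit 16) false (nat_lit 5) true (nat_lit 17) true (nat_lit 16) (.s false (nat_lit 2) (nat_lit 73) (nat_lit 1) (nat_lit 2) (nat_lit 2) true (nat_lit 12) true (nat_lit 16) false (nat_lit 5) true (nat_lit 17) true (nat_lit 16) (.s false (nat_lit 3) (nat_lit 63) (nat_lit 2) (nat_lit 1) (nat_lit 2) true (nat_lit 11) true (nat_lit 16) false (nat_lit 5) true (nat_lit 16) true (nat_lit 17) (.s false (nat_lit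 2) (nat_lit 67) (nat_lit 2) (nat_lit 1) (nat_lit 2) true (nat_lit 11) true (nat_lit 16) false (nat_lit 5) true (nat_lit 16) true (nat_lit 17) (.s true (nat_lit 2) (nat_lit 67) (nat_lit 2) (nat_lit 2) (nat_lit 1) true (nat_lit 12) true (nat_lit 17) false (nat_lit 5) true (nat_lit 16) true (nat_lit 16) (.s true (nat_lit 3) (nat_lit 79) (nat_lit 0) (nat_lit 2) (nat_lit 2) true (nat_lit 13) true (nat_lit 16) false (nat_lit 6) true (nat_lit 18) true (nat_lit 16) (.s true (nat_lit 1) (nat_lit 79) (nat_lit 2) (nat_lit 2) (nat_lit 0) true (nat_lit 13) true (nat_lit 18) false (nat_lit 6) true (nat_lit 16) true (nat_lit 16) (.s false (nat_lit 3) (nat_lit 81) (nat_lit 1) (nat_lit 1) (nat_lit 2) true (nat_lit 12) true (nat_lit 16) false (nat_lit 7) true (nat_lit 17) true (nat_lit 17) (.s true (nat_lit 1) (nat_lit 89) (nat_lit 1) (nat_lit 1) (nat_lit 2) true (nat_lit 12) true (nat_lit 16) false (nat_lit 7) true (nat_lit 17)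 true (nat_lit 17) (.s true (nat_lit 3) (nat_lit 81) (nat_lit 2) (nat_lit 1) (nat_lit 1) true (nat_lit 12) true (nat_lit 17) false (nat_lit 7) true (nat_lit 16) true (nat_lit 17) (.s true (nat_lit 1) (nat_lit 89) (nat_lit 2) (nat_lit 1) (nat_lit 1) true (nat_lit 12) true (nat_lit 17) false (nat_lit 7) true (nat_lit 16) true (nat_lit 17) dC2d_i162)))))))))))))))))))))))))

noncomputable def dC2d_i164 : IL := (.s false (nat_lit 3) (nat_lit 20) (nat_lit 8) (nat_lit 1) (nat_lit 2) true (nat_lit 2) true (nat_lit 16) true (nat_lit 4) true (nat_lit 10) true (nat_lit 17) (.s false (nat_lit 2) (nat_lit 20) (nat_lit 10) (nat_lit 0) (nat_lit 2) true (nat_lit 1) true (nat_lit 16) true (nat_lit 4) true (nat_lit 9) true (nat_lit 18) (.s true (nat_lit 1) (nat_lit 20) (nat_lit 12) (nat_lit 1) (nat_lit 1) true (nat_lit 2) true (nat_lit 17) true (nat_lit 4) true (nat_lit 8) true (nat_lit 17) (.s true (nat_lit 2) (nat_lit 21) (nat_lit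 2) (nat_lit 2) (nat_lit 7) true (nat_lit 4) true (nat_lit 11) true (nat_lit 3) true (nat_lit 16) true (nat_lit 16) (.s true (nat_lit 3) (nat_lit 22) (nat_lit 2) (nat_lit 2) (nat_lit 7) true (nat_lit 4) true (nat_lit 11) true (nat_lit 3) true (nat_lit 16) true (nat_lit 16) (.s true (nat_lit 1) (nat_lit 23) (nat_lit 2) (nat_lit 2) (nat_lit 7) true (nat_lit 4) true (nat_lit 11) true (nat_lit 3) true (nat_lit 16) true (nat_lit 16) (.s false (nat_lit 2) (nat_lit 25) (nat_lit 1) (nat_lit 2) (nat_lit 7) true (nat_lit 5) true (nat_lit 11) true (nat_lit 2) true (nat_lit 17) true (nat_lit 16) (.s false (nat_lit 1) (nat_lit 24) (nat_lit 1) (nat_lit 7) (nat_lit 2) true (nat_lit 12) true (nat_lit 16) true (nat_lit 2) true (nat_lit 17) true (nat_lit 11) (.s false (nat_lit 2) (nat_lit 25) (nat_lit 1) (nat_lit 7) (nat_lit 2) true (nat_lit 12) true (nat_lit 16) true (nat_lit 2) true (nat_lit 17) true (nat_lit 11) (.s false (nat_lit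 1) (nat_lit 27) (nat_lit 1) (nat_lit 7) (nat_lit 2) true (nat_lit 12) true (nat_lit 16) true (nat_lit 2) true (nat_lit 17) true (nat_lit 11) (.s false (nat_lit 2) (nat_lit 27) (nat_lit 2) (nat_lit 1) (nat_lit 7) true (nat_lit 4) true (nat_lit 11) true (nat_lit 2) true (nat_lit 16) true (nat_lit 17) (.s true (nat_lit 3) (nat_lit 29) (nat_lit 2) (nat_lit 1) (nat_lit 7) true (nat_lit 4) true (nat_lit 11) true (nat_lit 2) true (nat_lit 16) true (nat_lit 17) (.s false (nat_lit 1) (nat_lit 24) (nat_lit 2) (nat_lit 2) (nat_lit 6) true (nat_lit 5) true (nat_lit 12) true (nat_lit 2) true (nat_lit 16) true (nat_lit 16) (.s false (nat_lit 3) (nat_lit 25) (nat_lit 2) (nat_lit 2) (nat_lit 6) true (nat_lit 5) true (nat_lit 12) true (nat_lit 2) true (nat_lit 16) true (nat_lit 16) (.s false (nat_lit 3) (nat_lit 27) (nat_lit 2) (nat_lit 2) (nat_lit 6) true (nat_lit 5) true (nat_lit 12) true (nat_lit 2) true (nat_lit 16) true (nat_lit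 16) (.s true (nat_lit 3) (nat_lit 29) (nat_lit 2) (nat_lit 2) (nat_lit 6) true (nat_lit 5) true (nat_lit 12) true (nat_lit 2) true (nat_lit 16) true (nat_lit 16) (.s true (nat_lit 3) (nat_lit 25) (nat_lit 2) (nat_lit 6) (nat_lit 2) true (nat_lit 11) true (nat_lit 16) true (nat_lit 2) true (nat_lit 16) true (nat_lit 12) (.s false (nat_lit 2) (nat_lit 26) (nat_lit 6) (nat_lit 2) (nat_lit 2) true (nat_lit 5) true (nat_lit 16) true (nat_lit 2) true (nat_lit 12) true (nat_lit 16) (.s true (nat_lit 2) (nat_lit 27) (nat_lit 6) (nat_lit 2) (nat_lit 2) true (nat_lit 5) true (nat_lit 16) true (nat_lit 2) true (nat_lit 12) true (nat_lit 16) (.s true (nat_lit 3) (nat_lit 25) (nat_lit 7) (nat_lit 2) (nat_lit 1) true (nat_lit 5) true (nat_lit 17) true (nat_lit 2) true (nat_lit 11) true (nat_lit 16) (.s false (nat_lit 2) (nat_lit 30) (nat_lit 7) (nat_lit 2) (nat_lit 0) true (nat_lit 6) true (nat_lit 18) true (nat_lit 1) true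 (nat_lit 11) true (nat_lit 16) (.s false (nat_lit 1) (nat_lit 34) (nat_lit 1) (nat_lit 1) (nat_lit 7) true (nat_lit 5) true (nat_lit 11) true (nat_lit 0) true (nat_lit 17) true (nat_lit 17) (.s false (nat_lit 2) (nat_lit 33) (nat_lit 1) (nat_lit 6) (nat_lit 2) true (nat_lit 12) true (nat_lit 16) true (nat_lit 0) true (nat_lit 17) true (nat_lit 12) (.s true (nat_lit 3) (nat_lit 34) (nat_lit 1) (nat_lit 7) (nat_lit 1) true (nat_lit 14) true (nat_lit 17) true (nat_lit 0) true (nat_lit 17) true (nat_lit 11) (.s false (nat_lit 3) (nat_lit 34) (nat_lit 2) (nat_lit 1) (nat_lit 6) true (nat_lit 5) true (nat_lit 12) true (nat_lit 0) true (nat_lit 16) true (nat_lit 17) dC2d_i163)))))))))))))))))))))))))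

noncomputable def dC2d_i165 : IL := (.s false (nat_lit 1) (nat_lit 8) (nat_lit 2) (nat_lit 7) (nat_lit 6) true (nat_lit 5) true (nat_lit 12) true (nat_lit 10) true (nat_lit 16) true (nat_lit 11) (.s false (nat_lit 2) (nat_lit 9) (nat_lit 7) (nat_lit 1) (nat_lit 7) false (nat_lit 3) true (nat_lit 11) true (nat_lit 10) true (nat_lit 11) true (nat_lit 17) (.s true (nat_lit 2) (nat_lit 9) (nat_lit 7) (nat_lit 6) (nat_lit 2) true (nat_lit 4) true (nat_lit 16) true (nat_lit 10) true (nat_lit 11) true (nat_lit 12) (.s true (nat_lit 3) (nat_lit 10) (nat_lit 2) (nat_lit 5) (nat_lit 7) true (nat_lit 4) true (nat_lit 11) true (nat_lit 9) true (nat_lit 16) true (nat_lit 13) (.s true (nat_lit 3) (nat_lit 10) (nat_lit 5) (nat_lit 7) (nat_lit 2) true (nat_lit 6) true (nat_lit 16) true (nat_lit 9) true (nat_lit 13) true (nat_lit 11) (.s false (nat_lit 1) (nat_lit 10) (nat_lit 7) (nat_lit 5) (nat_lit 2) true (nat_lit 4) true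 (nat_lit 16) true (nat_lit 9) true (nat_lit 11) true (nat_lit 13) (.s false (nat_lit 3) (nat_lit 11) (nat_lit 6) (nat_lit 6) (nat_lit 2) true (nat_lit 5) true (nat_lit 16) true (nat_lit 8) true (nat_lit 12) true (nat_lit 12) (.s false (nat_lit 1) (nat_lit 14) (nat_lit 2) (nat_lit 2) (nat_lit 12) true (nat_lit 0) true (nat_lit 8) true (nat_lit 7) true (nat_lit 16) true (nat_lit 16) (.s false (nat_lit 1) (nat_lit 15) (nat_lit 2) (nat_lit 2) (nat_lit 12) true (nat_lit 0) true (nat_lit 8) true (nat_lit 7) true (nat_lit 16) true (nat_lit 16) (.s true (nat_lit 1) (nat_lit 14) (nat_lit 12) (nat_lit 2) (nat_lit 2) true (nat_lit 0) true (nat_lit 16) true (nat_lit 7) true (nat_lit 8) true (nat_lit 16) (.s false (nat_lit 1) (nat_lit 17) (nat_lit 2) (nat_lit 2) (nat_lit 10) true (nat_lit 1) true (nat_lit 9) true (nat_lit 6) true (nat_lit 16) true (nat_lit 16) (.s false (nat_lit 3) (nat_lit 17) (nat_lit 2) (nat_lit 10) (nat_lit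 2) true (nat_lit 11) true (nat_lit 16) true (nat_lit 6) true (nat_lit 16) true (nat_lit 9) (.s true (nat_lit 1) (nat_lit 17) (nat_lit 10) (nat_lit 2) (nat_lit 2) true (nat_lit 1) true (nat_lit 16) true (nat_lit 6) true (nat_lit 9) true (nat_lit 16) (.s false (nat_lit 2) (nat_lit 18) (nat_lit 1) (nat_lit 2) (nat_lit 11) true (nat_lit 2) true (nat_lit 8) true (nat_lit 5) true (nat_lit 17) true (nat_lit 16) (.s true (nat_lit 2) (nat_lit 18) (nat_lit 1) (nat_lit 2) (nat_lit 12) true (nat_lit 2) true (nat_lit 8) true (nat_lit 5) true (nat_lit 17) true (nat_lit 16) (.s false (nat_lit 3) (nat_lit 18) (nat_lit 1) (nat_lit 12) (nat_lit 2) true (nat_lit 12) true (nat_lit 16) true (nat_lit 5) true (nat_lit 17) true (nat_lit 8) (.s true (nat_lit 3) (nat_lit 18) (nat_lit 2) (nat_lit 1) (nat_lit 12) true (nat_lit 0) true (nat_lit 8) true (nat_lit 5) true (nat_lit 16) true (nat_lit 17) (.s true (nat_lit 2) (nat_lit 18) (nat_lit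 2) (nat_lit 11) (nat_lit 1) true (nat_lit 12) true (nat_lit 17) true (nat_lit 5) true (nat_lit 16) true (nat_lit 8) (.s true (nat_lit 1) (nat_lit 18) (nat_lit 2) (nat_lit 12) (nat_lit 1) true (nat_lit 12) true (nat_lit 17) true (nat_lit 5) true (nat_lit 16) true (nat_lit 8) (.s false (nat_lit 1) (nat_lit 19) (nat_lit 2) (nat_lit 12) (nat_lit 1) true (nat_lit 12) true (nat_lit 17) true (nat_lit 5) true (nat_lit 16) true (nat_lit 8) (.s false (nat_lit 3) (nat_lit 18) (nat_lit 9) (nat_lit 2) (nat_lit 2) true (nat_lit 2) true (nat_lit 16) true (nat_lit 5) true (nat_lit 10) true (nat_lit 16) (.s true (nat_lit 1) (nat_lit 19) (nat_lit 9) (nat_lit 2) (nat_lit 2) true (nat_lit 2) true (nat_lit 16) true (nat_lit 5) true (nat_lit 10) true (nat_lit 16) (.s false (nat_lit 2) (nat_lit 20) (nat_lit 0) (nat_lit 10) (nat_lit 2) true (nat_lit 13) true (nat_lit 16) true (nat_lit 4) true (nat_lit 18) true (nat_lit 9) (.s false (nat_lit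 3) (nat_lit 20) (nat_lit 2) (nat_lit 1) (nat_lit 8) true (nat_lit 2) true (nat_lit 10) true (nat_lit 4) true (nat_lit 16) true (nat_lit 17) (.s false (nat_lit 3) (nat_lit 20) (nat_lit 2) (nat_lit 1) (nat_lit 9) true (nat_lit 2) true (nat_lit 10) true (nat_lit 4) true (nat_lit 16) true (nat_lit 17) dC2d_i164)))))))))))))))))))))))))

noncomputable def dC2d_i166 : IL := (.e false (nat_lit 1) (nat_lit 138) (nat_lit 6) (nat_lit 12) (.e true (nat_lit 3) (nat_lit 134) (nat_lit 6) (nat_lit 12) (.e true (nat_lit 2) (nat_lit 155) (nat_lit 6) (nat_lit 12) (.e true (nat_lit 3) (nat_lit 257) (nat_lit 1) (nat_lit 17) (.e false (nat_lit 2) (nat_lit 289) (nat_lit 0) (nat_lit 18) (.e true (nat_lit 3) (nat_lit 290) (nat_lit 0) (nat_lit 18) (.e false (nat_lit 1) (nat_lit 291) (nat_lit 0) (nat_lit 18) (.e true (nat_lit 2) (nat_lit 294) (nat_lit 0) (nat_lit 18) (.e true (nat_lit 2) (nat_lit 295) (nat_lit 0) (nat_lit 18) (.e true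 (nat_lit 1) (nat_lit 297) (nat_lit 0) (nat_lit 18) (.e false (nat_lit 3) (nat_lit 299) (nat_lit 0) (nat_lit 18) (.e false (nat_lit 2) (nat_lit 301) (nat_lit 0) (nat_lit 18) (.e false (nat_lit 2) (nat_lit 303) (nat_lit 0) (nat_lit 18) (.e true (nat_lit 3) (nat_lit 256) (nat_lit 1) (nat_lit 17) (.e true (nat_lit 3) (nat_lit 259) (nat_lit 1) (nat_lit 17) (.e false (nat_lit 3) (nat_lit 260) (nat_lit 1) (nat_lit 17) (.e true (nat_lit 1) (nat_lit 275) (nat_lit 1) (nat_lit 17) (.e false (nat_lit 1) (nat_lit 300) (nat_lit 0) (nat_lit 18) (.e false (nat_lit 2) (nat_lit 296) (nat_lit 0) (nat_lit 18) (.e false (nat_lit 2) (nat_lit 261) (nat_lit 1) (nat_lit 17) (.e false (nat_lit 3) (nat_lit 62) (nat_lit 18) (nat_lit 5) (.u (nat_lit 2) (.n (nat_lit 0) (nat_lit 2) (.n (nat_lit 1) (nat_lit 2) (.p (nat_lit 2) (nat_lit 3) (.n (nat_lit 3) (nat_lit 7) (.p (nat_lit 4) (nat_lit 6) (.p (nat_lit 5) (nat_lit 10) (.n (nat_lit 6) (nat_lit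 3) (.n (nat_lit 8) (nat_lit 2) (.n (nat_lit 9) (nat_lit 5) (.n (nat_lit 10) (nat_lit 5) (.p (nat_lit 11) (nat_lit 3) (.n (nat_lit 12) (nat_lit 3) (.p (nat_lit 14) (nat_lit 4) (.p (nat_lit 15) (nat_lit 4) (.p (nat_lit 16) (nat_lit 1) (.n (nat_lit 17) (nat_lit 5) (.n (nat_lit 18) (nat_lit 4) (.n (nat_lit 19) (nat_lit 2) (.p (nat_lit 21) (nat_lit 8) (.n (nat_lit 22) (nat_lit 8) (.p (nat_lit 23) (nat_lit 2) (.p (nat_lit 24) (nat_lit 1) (.p (nat_lit 25) (nat_lit 3) (.p (nat_lit 26) (nat_lit 1) (.p (nat_lit 27) (nat_lit 4) (.p (nat_lit 28) (nat_lit 2) (.n (nat_lit 29) (nat_lit 2) (.n (nat_lit 31) (nat_lit 3) (.n (nat_lit 32) (nat_lit 7) (.p (nat_lit 33) (nat_lit 7) (.n (nat_lit 34) (nat_lit 2) (.n (nat_lit 35) (nat_lit 1) (.n (nat_lit 36) (nat_lit 1) (.p (nat_lit 37) (nat_lit 3) (.n (nat_lit 38) (nat_lit 7) (.p (nat_lit 39) (nat_lit 1) (.n (nat_lit 40) (nat_lit 1) (.n (nat_lit 42) (nat_lit 1) (.n (nat_lit 44) (nat_lit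 1) (.n (nat_lit 45) (nat_lit 2) (.p (nat_lit 46) (nat_lit 2) (.p (nat_lit 48) (nat_lit 4) (.n (nat_lit 50) (nat_lit 1) (.p (nat_lit 55) (nat_lit 2) (.n (nat_lit 57) (nat_lit 1) (.p (nat_lit 63) (nat_lit 1) (.n (nat_lit 67) (nat_lit 1) (.p (nat_lit 79) (nat_lit 1) (.p (nat_lit 81) (nat_lit 1) (.p (nat_lit 82) (nat_lit 1) (.p (nat_lit 90) (nat_lit 1) (.n (nat_lit 93) (nat_lit 1) (.p (nat_lit 99) (nat_lit 1) (.n (nat_lit 100) (nat_lit 1) (.p (nat_lit 116) (nat_lit 2) (.n (nat_lit 118) (nat_lit 1) (.p (nat_lit 120) (nat_lit 1) (.p (nat_lit 125) (nat_lit 1) (.n (nat_lit 126) (nat_lit 1) (.p (nat_lit 133) (nat_lit 1) .z)))))))))))))))))))))))))))))))))))))))))))))))))))))))))))) (.u (nat_lit 2) (.p (nat_lit 136) (nat_lit 1) (.n (nat_lit 137) (nat_lit 1) (.p (nat_lit 140) (nat_lit 1) (.n (nat_lit 170) (nat_lit 1) (.p (nat_lit 183) (nat_lit 1) (.n (nat_lit 184) (nat_lit 1) (.n (nat_lit 185) (nat_lit 1) (.p (nat_lit 187)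 (nat_lit 1) (.n (nat_lit 188) (nat_lit 1) (.p (nat_lit 190) (nat_lit 1) (.p (nat_lit 192) (nat_lit 1) (.n (nat_lit 194) (nat_lit 1) (.n (nat_lit 202) (nat_lit 1) (.n (nat_lit 203) (nat_lit 1) (.n (nat_lit 207) (nat_lit 1) (.n (nat_lit 210) (nat_lit 2) (.p (nat_lit 211) (nat_lit 1) (.n (nat_lit 213) (nat_lit 1) (.p (nat_lit 214) (nat_lit 6) (.p (nat_lit 215) (nat_lit 6) (.p (nat_lit 216) (nat_lit 2) (.n (nat_lit 219) (nat_lit 1) (.p (nat_lit 223) (nat_lit 2) (.n (nat_lit 224) (nat_lit 7) (.p (nat_lit 225) (nat_lit 2) (.n (nat_lit 226) (nat_lit 2) (.n (nat_lit 227) (nat_lit 1) (.n (nat_lit 229) (nat_lit 3) (.p (nat_lit 230) (nat_lit 2) (.p (nat_lit 231) (nat_lit 1) (.n (nat_lit 233) (nat_lit 2) (.p (nat_lit 234) (nat_lit 3) (.p (nat_lit 237) (nat_lit 1) (.n (nat_lit 238) (nat_lit 1) (.n (nat_lit 239) (nat_lit 1) (.p (nat_lit 240) (nat_lit 3) (.n (nat_lit 242) (nat_lit 2) (.p (nat_lit 243) (nat_lit 1) (.p (nat_lit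 246) (nat_lit 1) (.p (nat_lit 250) (nat_lit 1) (.n (nat_lit 251) (nat_lit 3) (.p (nat_lit 253) (nat_lit 1) (.n (nat_lit 254) (nat_lit 1) (.p (nat_lit 257) (nat_lit 3) (.n (nat_lit 258) (nat_lit 1) (.n (nat_lit 259) (nat_lit 1) (.n (nat_lit 260) (nat_lit 2) (.n (nat_lit 261) (nat_lit 2) (.p (nat_lit 262) (nat_lit 3) (.n (nat_lit 263) (nat_lit 1) (.p (nat_lit 264) (nat_lit 1) (.p (nat_lit 271) (nat_lit 1) (.n (nat_lit 272) (nat_lit 1) (.p (nat_lit 284) (nat_lit 1) (.n (nat_lit 289) (nat_lit 1) (.n (nat_lit 293) (nat_lit 1) (.p (nat_lit 294) (nat_lit 1) (.p (nat_lit 302) (nat_lit 9) (.p (nat_lit 303) (nat_lit 5) (.n (nat_lit 304) (nat_lit 9) .z)))))))))))))))))))))))))))))))))))))))))))))))))))))))))))) (.u (nat_lit 2) (.p (nat_lit 305) (nat_lit 16) (.p (nat_lit 306) (nat_lit 26) (.p (nat_lit 307) (nat_lit 8) (.p (nat_lit 308) (nat_lit 11) (.p (nat_lit 309) (nat_lit 11) (.p (nat_lit 310) (nat_lit 14) (.n (nat_lit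 311) (nat_lit 10) (.p (nat_lit 312) (nat_lit 15) (.n (nat_lit 313) (nat_lit 6) (.n (nat_lit 314) (nat_lit 6) (.p (nat_lit 315) (nat_lit 9) (.n (nat_lit 316) (nat_lit 7) (.n (nat_lit 317) (nat_lit 8) (.n (nat_lit 318) (nat_lit 12) (.p (nat_lit 319) (nat_lit 8) (.n (nat_lit 320) (nat_lit 2) (.p (nat_lit 321) (nat_lit 1) (.n (nat_lit 323) (nat_lit 8) (.p (nat_lit 324) (nat_lit 2) (.n (nat_lit 325) (nat_lit 7) (.p (nat_lit 326) (nat_lit 14) (.p (nat_lit 327) (nat_lit 21) (.p (nat_lit 328) (nat_lit 11) (.n (nat_lit 329) (nat_lit 16) (.n (nat_lit 331) (nat_lit 3) (.p (nat_lit 332) (nat_lit 4) (.n (nat_lit 333) (nat_lit 1) (.n (nat_lit 334) (nat_lit 3) (.n (nat_lit 335) (nat_lit 2) (.p (nat_lit 336) (nat_lit 13) (.n (nat_lit 338) (nat_lit 2) (.p (nat_lit 339) (nat_lit 4) (.p (nat_lit 340) (nat_lit 19) (.n (nat_lit 341) (nat_lit 13) (.p (nat_lit 342) (nat_lit 5) (.p (nat_lit 343) (nat_lit 2) (.n (nat_lit 344) (nat_lit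 5) (.n (nat_lit 345) (nat_lit 1) (.n (nat_lit 346) (nat_lit 2) (.n (nat_lit 347) (nat_lit 12) (.n (nat_lit 348) (nat_lit 19) (.p (nat_lit 349) (nat_lit 12) (.p (nat_lit 350) (nat_lit 2) (.n (nat_lit 351) (nat_lit 16) (.p (nat_lit 352) (nat_lit 9) (.n (nat_lit 353) (nat_lit 6) (.p (nat_lit 354) (nat_lit 2) (.p (nat_lit 355) (nat_lit 19) (.n (nat_lit 356) (nat_lit 1) (.p (nat_lit 357) (nat_lit 4) (.p (nat_lit 358) (nat_lit 5) (.p (nat_lit 359) (nat_lit 2) (.n (nat_lit 360) (nat_lit 12) (.p (nat_lit 361) (nat_lit 13) (.n (nat_lit 362) (nat_lit 14) (.n (nat_lit 364) (nat_lit 16) (.p (nat_lit 365) (nat_lit 1) (.n (nat_lit 367) (nat_lit 16) (.p (nat_lit 368) (nat_lit 14) (.p (nat_lit 369) (nat_lit 7) .z)))))))))))))))))))))))))))))))))))))))))))))))))))))))))))) (.u (nat_lit 2) (.p (nat_lit 370) (nat_lit 5) (.p (nat_lit 372) (nat_lit 6) (.n (nat_lit 373) (nat_lit 24) (.n (nat_lit 375) (nat_lit 3) (.p (nat_lit 376) (nat_lit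 5) (.p (nat_lit 377) (nat_lit 1) (.p (nat_lit 378) (nat_lit 1) (.p (nat_lit 379) (nat_lit 9) (.n (nat_lit 380) (nat_lit 19) (.p (nat_lit 381) (nat_lit 1) (.p (nat_lit 382) (nat_lit 25) (.n (nat_lit 383) (nat_lit 6) (.p (nat_lit 384) (nat_lit 4) (.n (nat_lit 385) (nat_lit 4) (.p (nat_lit 387) (nat_lit 1) (.p (nat_lit 388) (nat_lit 2) (.n (nat_lit 389) (nat_lit 5) (.p (nat_lit 390) (nat_lit 2) (.p (nat_lit 392) (nat_lit 1) (.p (nat_lit 393) (nat_lit 6) (.n (nat_lit 394) (nat_lit 2) (.n (nat_lit 395) (nat_lit 3) (.n (nat_lit 396) (nat_lit 1) (.n (nat_lit 397) (nat_lit 1) (.p (nat_lit 398) (nat_lit 4) (.n (nat_lit 399) (nat_lit 2) (.n (nat_lit 400) (nat_lit 3) (.p (nat_lit 401) (nat_lit 3) .z)))))))))))))))))))))))))))) .nil)))))))))))))))))))))))))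

noncomputable def dC2d_i167 : IL := (.e true (nat_lit 2) (nat_lit 255) (nat_lit 1) (nat_lit 17) (.e false (nat_lit 1) (nat_lit 262) (nat_lit 1) (nat_lit 17) (.e false (nat_lit 2) (nat_lit 264) (nat_lit 1) (nat_lit 17) (.e false (nat_lit 2) (nat_lit 266) (nat_lit 1) (nat_lit 17) (.e false (nat_lit 2) (nat_lit 231) (nat_lit 2) (nat_lit 16) (.e true (nat_lit 2) (nat_lit 206) (nat_lit 2) (nat_lit 16) (.e true (nat_lit 2) (nat_lit 210) (nat_lit 2) (nat_lit 16) (.e true (nat_lit 2) (nat_lit 211) (nat_lit 2) (nat_lit 16) (.e true (nat_lit 3) (nat_lit 213) (nat_lit 2) (nat_lit 16) (.e false (nat_lit 3) (nat_lit 219) (nat_lit 2) (nat_lit 16) (.e false (nat_lit 2) (nat_lit 209) (nat_lit 2) (nat_lit 16) (.e false (nat_lit 2) (nat_lit 212) (nat_lit 2) (nat_lit 16) (.e true (nat_lit 3) (nat_lit 230) (nat_lit 2) (nat_lit 16) (.e false (nat_lit 3) (nat_lit 234) (nat_lit 2) (nat_lit 16) (.e true (nat_lit 3) (nat_lit 246) (nat_lit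 2) (nat_lit 16) (.e false (nat_lit 3) (nat_lit 249) (nat_lit 2) (nat_lit 16) (.e true (nat_lit 1) (nat_lit 207) (nat_lit 2) (nat_lit 16) (.e true (nat_lit 3) (nat_lit 298) (nat_lit 0) (nat_lit 18) (.e true (nat_lit 1) (nat_lit 274) (nat_lit 1) (nat_lit 17) (.e true (nat_lit 3) (nat_lit 244) (nat_lit 2) (nat_lit 16) (.e false (nat_lit 3) (nat_lit 229) (nat_lit 2) (nat_lit 16) (.e true (nat_lit 2) (nat_lit 250) (nat_lit 2) (nat_lit 16) (.e true (nat_lit 2) (nat_lit 218) (nat_lit 2) (nat_lit 16) (.e false (nat_lit 3) (nat_lit 233) (nat_lit 2) (nat_lit 16) (.e true (nat_lit 1) (nat_lit 235) (nat_lit 2) (nat_lit 16) dC2d_i166)))))))))))))))))))))))))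

noncomputable def dC2d_i168 : IL := (.s false (nat_lit 3) (nat_lit 102) (nat_lit 1) (nat_lit 1) (nat_lit 0) true (nat_lit 15) true (nat_lit 18) false (nat_lit 10) true (nat_lit 17) true (nat_lit 17) (.s false (nat_lit 2) (nat_lit 103) (nat_lit 1) (nat_lit 1) (nat_lit 0) true (nat_lit 15) true (nat_lit 18) false (nat_lit 10) true (nat_lit 17) true (nat_lit 17) (.s false (nat_lit 1) (nat_lit 104) (nat_lit 1) (nat_lit 1) (nat_lit 0) true (nat_lit 15) true (nat_lit 18) false (nat_lit 10) true (nat_lit 17) true (nat_lit 17) (.e true (nat_lit 1) (nat_lit 122) (nat_lit 7) (nat_lit 11) (.e false (nat_lit 3) (nat_lit 129) (nat_lit 7) (nat_lit 11) (.e false (nat_lit 3) (nat_lit 144) (nat_lit 6) (nat_lit 12) (.e false (nat_lit 3) (nat_lit 205) (nat_lit 2) (nat_lit 16) (.e false (nat_lit 1) (nat_lit 208) (nat_lit 2) (nat_lit 16) (.e true (nat_lit 3) (nat_lit 216) (nat_lit 2) (nat_lit 16) (.e true (nat_lit 2) (nat_lit 227)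 (nat_lit 2) (nat_lit 16) (.e false (nat_lit 3) (nat_lit 242) (nat_lit 2) (nat_lit 16) (.e false (nat_lit 3) (nat_lit 285) (nat_lit 1) (nat_lit 17) (.e true (nat_lit 3) (nat_lit 253) (nat_lit 1) (nat_lit 17) (.e false (nat_lit 3) (nat_lit 254) (nat_lit 1) (nat_lit 17) (.e true (nat_lit 2) (nat_lit 258) (nat_lit 1) (nat_lit 17) (.e false (nat_lit 3) (nat_lit 263) (nat_lit 1) (nat_lit 17) (.e true (nat_lit 1) (nat_lit 265) (nat_lit 1) (nat_lit 17) (.e true (nat_lit 3) (nat_lit 267) (nat_lit 1) (nat_lit 17) (.e true (nat_lit 3) (nat_lit 269) (nat_lit 1) (nat_lit 17) (.e true (nat_lit 2) (nat_lit 270) (nat_lit 1) (nat_lit 17) (.e false (nat_lit 1) (nat_lit 271) (nat_lit 1) (nat_lit 17) (.e true (nat_lit 2) (nat_lit 272) (nat_lit 1) (nat_lit 17) (.e true (nat_lit 1) (nat_lit 273) (nat_lit 1) (nat_lit 17) (.e true (nat_lit 1) (nat_lit 276) (nat_lit 1) (nat_lit 17) (.e true (nat_lit 2) (nat_lit 277) (nat_lit 1) (nat_lit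 17) dC2d_i167)))))))))))))))))))))))))

noncomputable def dC2d_i169 : IL := (.s false (nat_lit 1) (nat_lit 74) (nat_lit 0) (nat_lit 2) (nat_lit 2) true (nat_lit 13) true (nat_lit 16) false (nat_lit 6) true (nat_lit 18) true (nat_lit 16) (.s true (nat_lit 2) (nat_lit 79) (nat_lit 0) (nat_lit 2) (nat_lit 2) true (nat_lit 13) true (nat_lit 16) false (nat_lit 6) true (nat_lit 18) true (nat_lit 16) (.s false (nat_lit 2) (nat_lit 79) (nat_lit 2) (nat_lit 2) (nat_lit 0) true (nat_lit 13) true (nat_lit 18) false (nat_lit 6) true (nat_lit 16) true (nat_lit 16) (.s true (nat_lit 3) (nat_lit 80) (nat_lit 1) (nat_lit 1) (nat_lit 2) true (nat_lit 12) true (nat_lit 16) false (nat_lit 7) true (nat_lit 17) true (nat_lit 17) (.s false (nat_lit 3) (nat_lit 81) (nat_lit 1) (nat_lit 1) (nat_lit 2) true (nat_lit 12) true (nat_lit 16) false (nat_lit 7) true (nat_lit 17) true (nat_lit 17) (.s true (nat_lit 2) (nat_lit 88) (nat_lit 1)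 (nat_lit 1) (nat_lit 2) true (nat_lit 12) true (nat_lit 16) false (nat_lit 7) true (nat_lit 17) true (nat_lit 17) (.s false (nat_lit 3) (nat_lit 89) (nat_lit 1) (nat_lit 1) (nat_lit 2) true (nat_lit 12) true (nat_lit 16) false (nat_lit 7) true (nat_lit 17) true (nat_lit 17) (.s false (nat_lit 2) (nat_lit 85) (nat_lit 1) (nat_lit 2) (nat_lit 1) true (nat_lit 14) true (nat_lit 17) false (nat_lit 7) true (nat_lit 17) true (nat_lit 16) (.s false (nat_lit 3) (nat_lit 88) (nat_lit 1) (nat_lit 2) (nat_lit 1) true (nat_lit 14) true (nat_lit 17) false (nat_lit 7) true (nat_lit 17) true (nat_lit 16) (.s true (nat_lit 3) (nat_lit 89) (nat_lit 1) (nat_lit 2) (nat_lit 1) true (nat_lit 14) true (nat_lit 17) false (nat_lit 7) true (nat_lit 17) true (nat_lit 16) (.s true (nat_lit 2) (nat_lit 88) (nat_lit 2) (nat_lit 1) (nat_lit 1) true (nat_lit 12) true (nat_lit 17) false (nat_lit 7) true (nat_lit 16) true (nat_lit 17) (.s false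 (nat_lit 3) (nat_lit 89) (nat_lit 2) (nat_lit 1) (nat_lit 1) true (nat_lit 12) true (nat_lit 17) false (nat_lit 7) true (nat_lit 16) true (nat_lit 17) (.s false (nat_lit 2) (nat_lit 92) (nat_lit 0) (nat_lit 1) (nat_lit 2) true (nat_lit 13) true (nat_lit 16) false (nat_lit 8) true (nat_lit 18) true (nat_lit 17) (.s true (nat_lit 3) (nat_lit 96) (nat_lit 0) (nat_lit 1) (nat_lit 2) true (nat_lit 13) true (nat_lit 16) false (nat_lit 8) true (nat_lit 18) true (nat_lit 17) (.s true (nat_lit 3) (nat_lit 96) (nat_lit 0) (nat_lit 2) (nat_lit 1) true (nat_lit 15) true (nat_lit 17) false (nat_lit 8) true (nat_lit 18) true (nat_lit 16) (.s false (nat_lit 1) (nat_lit 92) (nat_lit 1) (nat_lit 0) (nat_lit 2) true (nat_lit 12) true (nat_lit 16) false (nat_lit 8) true (nat_lit 17) true (nat_lit 18) (.s true (nat_lit 3) (nat_lit 92) (nat_lit 1) (nat_lit 2) (nat_lit 0) true (nat_lit 15) true (nat_lit 18) false (nat_lit 8) true (nat_lit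 17) true (nat_lit 16) (.s false (nat_lit 3) (nat_lit 93) (nat_lit 1) (nat_lit 2) (nat_lit 0) true (nat_lit 15) true (nat_lit 18) false (nat_lit 8) true (nat_lit 17) true (nat_lit 16) (.s true (nat_lit 1) (nat_lit 96) (nat_lit 1) (nat_lit 2) (nat_lit 0) true (nat_lit 15) true (nat_lit 18) false (nat_lit 8) true (nat_lit 17) true (nat_lit 16) (.s false (nat_lit 3) (nat_lit 92) (nat_lit 2) (nat_lit 1) (nat_lit 0) true (nat_lit 13) true (nat_lit 18) false (nat_lit 8) true (nat_lit 16) true (nat_lit 17) (.s true (nat_lit 3) (nat_lit 93) (nat_lit 2) (nat_lit 1) (nat_lit 0) true (nat_lit 13) true (nat_lit 18) false (nat_lit 8) true (nat_lit 16) true (nat_lit 17) (.s false (nat_lit 1) (nat_lit 96) (nat_lit 2) (nat_lit 1) (nat_lit 0) true (nat_lit 13) true (nat_lit 18) false (nat_lit 8) true (nat_lit 16) true (nat_lit 17) (.s true (nat_lit 3) (nat_lit 97) (nat_lit 1) (nat_lit 1) (nat_lit 1) true (nat_lit 14) true (nat_lit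 17) false (nat_lit 9) true (nat_lit 17) true (nat_lit 17) (.s true (nat_lit 3) (nat_lit 102) (nat_lit 0) (nat_lit 1) (nat_lit 1) true (nat_lit 15) true (nat_lit 17) false (nat_lit 10) true (nat_lit 18) true (nat_lit 17) (.s true (nat_lit 3) (nat_lit 103) (nat_lit 0) (nat_lit 1) (nat_lit 1) true (nat_lit 15) true (nat_lit 17) false (nat_lit 10) true (nat_lit 18) true (nat_lit 17) dC2d_i168)))))))))))))))))))))))))

noncomputable def dC2d_i170 : IL := (.s true (nat_lit 2) (nat_lit 64) (nat_lit 1) (nat_lit 2) (nat_lit 2) true (nat_lit 12) true (nat_lit 16) false (nat_lit 5) true (nat_lit 17) true (nat_lit 16) (.s false (nat_lit 3) (nat_lit 65) (nat_lit 1) (nat_lit 2) (nat_lit 2) true (nat_lit 12) true (nat_lit 16) false (nat_lit 5) true (nat_lit 17) true (nat_lit 16) (.s true (nat_lit 2) (nat_lit 66) (nat_lit 1) (nat_lit 2) (nat_lit 2) true (nat_lit 12) true (nat_lit 16) false (nat_lit 5) true (nat_lit 17) true (nat_lit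 16) (.s false (nat_lit 3) (nat_lit 67) (nat_lit 1) (nat_lit 2) (nat_lit 2) true (nat_lit 12) true (nat_lit 16) false (nat_lit 5) true (nat_lit 17) true (nat_lit 16) (.s false (nat_lit 1) (nat_lit 68) (nat_lit 1) (nat_lit 2) (nat_lit 2) true (nat_lit 12) true (nat_lit 16) false (nat_lit 5) true (nat_lit 17) true (nat_lit 16) (.s true (nat_lit 2) (nat_lit 69) (nat_lit 1) (nat_lit 2) (nat_lit 2) true (nat_lit 12) true (nat_lit 16) false (nat_lit 5) true (nat_lit 17) true (nat_lit 16) (.s true (nat_lit 2) (nat_lit 71) (nat_lit 1) (nat_lit 2) (nat_lit 2) true (nat_lit 12) true (nat_lit 16) false (nat_lit 5) true (nat_lit 17) true (nat_lit 16) (.s true (nat_lit 3) (nat_lit 72) (nat_lit 1) (nat_lit 2) (nat_lit 2) true (nat_lit 12) true (nat_lit 16) false (nat_lit 5) true (nat_lit 17) true (nat_lit 16) (.s true (nat_lit 3) (nat_lit 73) (nat_lit 1) (nat_lit 2) (nat_lit 2) true (nat_lit 12) true (nat_lit 16) false (nat_lit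 5) true (nat_lit 17) true (nat_lit 16) (.s true (nat_lit 2) (nat_lit 62) (nat_lit 2) (nat_lit 1) (nat_lit 2) true (nat_lit 11) true (nat_lit 16) false (nat_lit 5) true (nat_lit 16) true (nat_lit 17) (.s false (nat_lit 2) (nat_lit 63) (nat_lit 2) (nat_lit 1) (nat_lit 2) true (nat_lit 11) true (nat_lit 16) false (nat_lit 5) true (nat_lit 16) true (nat_lit 17) (.s true (nat_lit 3) (nat_lit 64) (nat_lit 2) (nat_lit 1) (nat_lit 2) true (nat_lit 11) true (nat_lit 16) false (nat_lit 5) true (nat_lit 16) true (nat_lit 17) (.s false (nat_lit 3) (nat_lit 65) (nat_lit 2) (nat_lit 1) (nat_lit 2) true (nat_lit 11) true (nat_lit 16) false (nat_lit 5) true (nat_lit 16) true (nat_lit 17) (.s false (nat_lit 3) (nat_lit 66) (nat_lit 2) (nat_lit 1) (nat_lit 2) true (nat_lit 11) true (nat_lit 16) false (nat_lit 5) true (nat_lit 16) true (nat_lit 17) (.s false (nat_lit 3) (nat_lit 69) (nat_lit 2) (nat_lit 1) (nat_lit 2) true (nat_lit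 11) true (nat_lit 16) false (nat_lit 5) true (nat_lit 16) true (nat_lit 17) (.s true (nat_lit 1) (nat_lit 72) (nat_lit 2) (nat_lit 1) (nat_lit 2) true (nat_lit 11) true (nat_lit 16) false (nat_lit 5) true (nat_lit 16) true (nat_lit 17) (.s true (nat_lit 2) (nat_lit 73) (nat_lit 2) (nat_lit 1) (nat_lit 2) true (nat_lit 11) true (nat_lit 16) false (nat_lit 5) true (nat_lit 16) true (nat_lit 17) (.s false (nat_lit 2) (nat_lit 60) (nat_lit 2) (nat_lit 2) (nat_lit 1) true (nat_lit 12) true (nat_lit 17) false (nat_lit 5) true (nat_lit 16) true (nat_lit 16) (.s false (nat_lit 2) (nat_lit 61) (nat_lit 2) (nat_lit 2) (nat_lit 1) true (nat_lit 12) true (nat_lit 17) false (nat_lit 5) true (nat_lit 16) true (nat_lit 16) (.s false (nat_lit 2) (nat_lit 62) (nat_lit 2) (nat_lit 2) (nat_lit 1) true (nat_lit 12) true (nat_lit 17) false (nat_lit 5) true (nat_lit 16) true (nat_lit 16) (.s false (nat_lit 3) (nat_lit 66) (nat_lit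 2) (nat_lit 2) (nat_lit 1) true (nat_lit 12) true (nat_lit 17) false (nat_lit 5) true (nat_lit 16) true (nat_lit 16) (.s true (nat_lit 2) (nat_lit 67) (nat_lit 2) (nat_lit 2) (nat_lit 1) true (nat_lit 12) true (nat_lit 17) false (nat_lit 5) true (nat_lit 16) true (nat_lit 16) (.s false (nat_lit 1) (nat_lit 69) (nat_lit 2) (nat_lit 2) (nat_lit 1) true (nat_lit 12) true (nat_lit 17) false (nat_lit 5) true (nat_lit 16) true (nat_lit 16) (.s true (nat_lit 2) (nat_lit 72) (nat_lit 2) (nat_lit 2) (nat_lit 1) true (nat_lit 12) true (nat_lit 17) false (nat_lit 5) true (nat_lit 16) true (nat_lit 16) (.s true (nat_lit 1) (nat_lit 73) (nat_lit 2) (nat_lit 2) (nat_lit 1) true (nat_lit 12) true (nat_lit 17) false (nat_lit 5) true (nat_lit 16) true (nat_lit 16) dC2d_i169)))))))))))))))))))))))))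

noncomputable def dC2d_i171 : IL := (.s true (nat_lit 2) (nat_lit 38) (nat_lit 1) (nat_lit 2) (nat_lit 6) true (nat_lit 7) true (nat_lit 12) true (nat_lit 0) true (nat_lit 17) true (nat_lit 16) (.s true (nat_lit 2) (nat_lit 34) (nat_lit 1) (nat_lit 6) (nat_lit 2) true (nat_lit 12) true (nat_lit 16) true (nat_lit 0) true (nat_lit 17) true (nat_lit 12) (.s false (nat_lit 2) (nat_lit 34) (nat_lit 1) (nat_lit 7) (nat_lit 1) true (nat_lit 14) true (nat_lit 17) true (nat_lit 0) true (nat_lit 17) true (nat_lit 11) (.s true (nat_lit 2) (nat_lit 38) (nat_lit 1) (nat_lit 7) (nat_lit 1) true (nat_lit 14) true (nat_lit 17) true (nat_lit 0) true (nat_lit 17) true (nat_lit 11) (.s true (nat_lit 3) (nat_lit 34) (nat_lit 2) (nat_lit 1) (nat_lit 6) true (nat_lit 5) true (nat_lit 12) true (nat_lit 0) true (nat_lit 16) true (nat_lit 17) (.s true (nat_lit 2) (nat_lit 38) (nat_lit 2) (nat_lit 2) (nat_lit 4) true (nat_lit 7) true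 (nat_lit 14) true (nat_lit 0) true (nat_lit 16) true (nat_lit 16) (.s false (nat_lit 1) (nat_lit 33) (nat_lit 2) (nat_lit 6) (nat_lit 1) true (nat_lit 12) true (nat_lit 17) true (nat_lit 0) true (nat_lit 16) true (nat_lit 12) (.s false (nat_lit 2) (nat_lit 38) (nat_lit 4) (nat_lit 2) (nat_lit 2) true (nat_lit 7) true (nat_lit 16) true (nat_lit 0) true (nat_lit 14) true (nat_lit 16) (.s false (nat_lit 3) (nat_lit 33) (nat_lit 6) (nat_lit 2) (nat_lit 1) true (nat_lit 7) true (nat_lit 17) true (nat_lit 0) true (nat_lit 12) true (nat_lit 16) (.s false (nat_lit 2) (nat_lit 40) (nat_lit 1) (nat_lit 5) (nat_lit 2) true (nat_lit 12) true (nat_lit 16) false (nat_lit 0) true (nat_lit 17) true (nat_lit 13) (.s true (nat_lit 2) (nat_lit 39) (nat_lit 3) (nat_lit 2) (nat_lit 2) true (nat_lit 8) true (nat_lit 16) false (nat_lit 0) true (nat_lit 15) true (nat_lit 16) (.s false (nat_lit 3) (nat_lit 42) (nat_lit 1) (nat_lit 4)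 (nat_lit 2) true (nat_lit 12) true (nat_lit 16) false (nat_lit 1) true (nat_lit 17) true (nat_lit 14) (.s false (nat_lit 1) (nat_lit 47) (nat_lit 1) (nat_lit 3) (nat_lit 2) true (nat_lit 12) true (nat_lit 16) false (nat_lit 2) true (nat_lit 17) true (nat_lit 15) (.s false (nat_lit 2) (nat_lit 47) (nat_lit 5) (nat_lit 1) (nat_lit 1) true (nat_lit 8) true (nat_lit 17) false (nat_lit 2) true (nat_lit 13) true (nat_lit 17) (.s false (nat_lit 2) (nat_lit 48) (nat_lit 1) (nat_lit 1) (nat_lit 3) true (nat_lit 10) true (nat_lit 15) false (nat_lit 3) true (nat_lit 17) true (nat_lit 17) (.s false (nat_lit 2) (nat_lit 48) (nat_lit 3) (nat_lit 1) (nat_lit 1) true (nat_lit 10) true (nat_lit 17) false (nat_lit 3) true (nat_lit 15) true (nat_lit 17) (.s true (nat_lit 2) (nat_lit 52) (nat_lit 2) (nat_lit 2) (nat_lit 2) true (nat_lit 11) true (nat_lit 16) false (nat_lit 4) true (nat_lit 16) true (nat_lit 16) (.s true (nat_lit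 1) (nat_lit 54) (nat_lit 2) (nat_lit 2) (nat_lit 2) true (nat_lit 11) true (nat_lit 16) false (nat_lit 4) true (nat_lit 16) true (nat_lit 16) (.s true (nat_lit 3) (nat_lit 55) (nat_lit 2) (nat_lit 2) (nat_lit 2) true (nat_lit 11) true (nat_lit 16) false (nat_lit 4) true (nat_lit 16) true (nat_lit 16) (.s true (nat_lit 1) (nat_lit 56) (nat_lit 2) (nat_lit 2) (nat_lit 2) true (nat_lit 11) true (nat_lit 16) false (nat_lit 4) true (nat_lit 16) true (nat_lit 16) (.s false (nat_lit 2) (nat_lit 57) (nat_lit 2) (nat_lit 2) (nat_lit 2) true (nat_lit 11) true (nat_lit 16) false (nat_lit 4) true (nat_lit 16) true (nat_lit 16) (.s false (nat_lit 2) (nat_lit 58) (nat_lit 2) (nat_lit 2) (nat_lit 2) true (nat_lit 11) true (nat_lit 16) false (nat_lit 4) true (nat_lit 16) true (nat_lit 16) (.s true (nat_lit 1) (nat_lit 59) (nat_lit 2) (nat_lit 2) (nat_lit 2) true (nat_lit 11) true (nat_lit 16) false (nat_lit 4) true (nat_lit 16)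 true (nat_lit 16) (.s true (nat_lit 2) (nat_lit 60) (nat_lit 1) (nat_lit 2) (nat_lit 2) true (nat_lit 12) true (nat_lit 16) false (nat_lit 5) true (nat_lit 17) true (nat_lit 16) (.s true (nat_lit 3) (nat_lit 61) (nat_lit 1) (nat_lit 2) (nat_lit 2) true (nat_lit 12) true (nat_lit 16) false (nat_lit 5) true (nat_lit 17) true (nat_lit 16) dC2d_i170)))))))))))))))))))))))))

noncomputable def dC2d_i172 : IL := (.s true (nat_lit 3) (nat_lit 29) (nat_lit 1) (nat_lit 2) (nat_lit 7) true (nat_lit 5) true (nat_lit 11) true (nat_lit 2) true (nat_lit 17) true (nat_lit 16) (.s true (nat_lit 3) (nat_lit 24) (nat_lit 1) (nat_lit 7) (nat_lit 2) true (nat_lit 12) true (nat_lit 16) true (nat_lit 2) true (nat_lit 17) true (nat_lit 11) (.s false (nat_lit 3) (nat_lit 25) (nat_lit 1) (nat_lit 7) (nat_lit 2) true (nat_lit 12) true (nat_lit 16) true (nat_lit 2) true (nat_lit 17) true (nat_lit 11) (.s false (nat_lit 1) (nat_lit 26) (nat_lit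 1) (nat_lit 7) (nat_lit 2) true (nat_lit 12) true (nat_lit 16) true (nat_lit 2) true (nat_lit 17) true (nat_lit 11) (.s true (nat_lit 3) (nat_lit 27) (nat_lit 1) (nat_lit 7) (nat_lit 2) true (nat_lit 12) true (nat_lit 16) true (nat_lit 2) true (nat_lit 17) true (nat_lit 11) (.s true (nat_lit 1) (nat_lit 24) (nat_lit 2) (nat_lit 1) (nat_lit 7) true (nat_lit 4) true (nat_lit 11) true (nat_lit 2) true (nat_lit 16) true (nat_lit 17) (.s true (nat_lit 3) (nat_lit 27) (nat_lit 2) (nat_lit 1) (nat_lit 7) true (nat_lit 4) true (nat_lit 11) true (nat_lit 2) true (nat_lit 16) true (nat_lit 17) (.s false (nat_lit 3) (nat_lit 29) (nat_lit 2) (nat_lit 1) (nat_lit 7) true (nat_lit 4) true (nat_lit 11) true (nat_lit 2) true (nat_lit 16) true (nat_lit 17) (.s false (nat_lit 2) (nat_lit 24) (nat_lit 2) (nat_lit 2) (nat_lit 6) true (nat_lit 5) true (nat_lit 12) true (nat_lit 2) true (nat_lit 16) true (nat_lit 16) (.s true (nat_lit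 1) (nat_lit 27) (nat_lit 2) (nat_lit 2) (nat_lit 6) true (nat_lit 5) true (nat_lit 12) true (nat_lit 2) true (nat_lit 16) true (nat_lit 16) (.s false (nat_lit 3) (nat_lit 25) (nat_lit 2) (nat_lit 6) (nat_lit 2) true (nat_lit 11) true (nat_lit 16) true (nat_lit 2) true (nat_lit 16) true (nat_lit 12) (.s false (nat_lit 3) (nat_lit 24) (nat_lit 6) (nat_lit 2) (nat_lit 2) true (nat_lit 5) true (nat_lit 16) true (nat_lit 2) true (nat_lit 12) true (nat_lit 16) (.s false (nat_lit 3) (nat_lit 25) (nat_lit 6) (nat_lit 2) (nat_lit 2) true (nat_lit 5) true (nat_lit 16) true (nat_lit 2) true (nat_lit 12) true (nat_lit 16) (.s false (nat_lit 1) (nat_lit 26) (nat_lit 6) (nat_lit 2) (nat_lit 2) true (nat_lit 5) true (nat_lit 16) true (nat_lit 2) true (nat_lit 12) true (nat_lit 16) (.s true (nat_lit 1) (nat_lit 27) (nat_lit 6) (nat_lit 2) (nat_lit 2) true (nat_lit 5) true (nat_lit 16) true (nat_lit 2) true (nat_lit 12) true (nat_lit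 16) (.s true (nat_lit 1) (nat_lit 25) (nat_lit 7) (nat_lit 1) (nat_lit 2) true (nat_lit 4) true (nat_lit 16) true (nat_lit 2) true (nat_lit 11) true (nat_lit 17) (.s true (nat_lit 1) (nat_lit 30) (nat_lit 0) (nat_lit 2) (nat_lit 7) true (nat_lit 6) true (nat_lit 11) true (nat_lit 1) true (nat_lit 18) true (nat_lit 16) (.s true (nat_lit 1) (nat_lit 30) (nat_lit 0) (nat_lit 7) (nat_lit 2) true (nat_lit 13) true (nat_lit 16) true (nat_lit 1) true (nat_lit 18) true (nat_lit 11) (.s true (nat_lit 1) (nat_lit 30) (nat_lit 2) (nat_lit 2) (nat_lit 5) true (nat_lit 6) true (nat_lit 13) true (nat_lit 1) true (nat_lit 16) true (nat_lit 16) (.s true (nat_lit 2) (nat_lit 30) (nat_lit 2) (nat_lit 7) (nat_lit 0) true (nat_lit 13) true (nat_lit 18) true (nat_lit 1) true (nat_lit 16) true (nat_lit 11) (.s false (nat_lit 1) (nat_lit 30) (nat_lit 5) (nat_lit 2) (nat_lit 2) true (nat_lit 6) true (nat_lit 16) true (nat_lit 1) true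 (nat_lit 13) true (nat_lit 16) (.s true (nat_lit 2) (nat_lit 33) (nat_lit 1) (nat_lit 1) (nat_lit 7) true (nat_lit 5) true (nat_lit 11) true (nat_lit 0) true (nat_lit 17) true (nat_lit 17) (.s true (nat_lit 1) (nat_lit 34) (nat_lit 1) (nat_lit 1) (nat_lit 7) true (nat_lit 5) true (nat_lit 11) true (nat_lit 0) true (nat_lit 17) true (nat_lit 17) (.s true (nat_lit 1) (nat_lit 38) (nat_lit 1) (nat_lit 1) (nat_lit 7) true (nat_lit 5) true (nat_lit 11) true (nat_lit 0) true (nat_lit 17) true (nat_lit 17) (.s true (nat_lit 3) (nat_lit 33) (nat_lit 1) (nat_lit 2) (nat_lit 6) true (nat_lit 7) true (nat_lit 12) true (nat_lit 0) true (nat_lit 17) true (nat_lit 16) dC2d_i171)))))))))))))))))))))))))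

noncomputable def dC2d_i173 : IL := (.s true (nat_lit 2) (nat_lit 19) (nat_lit 1) (nat_lit 12) (nat_lit 2) true (nat_lit 12) true (nat_lit 16) true (nat_lit 5) true (nat_lit 17) true (nat_lit 8) (.s false (nat_lit 1) (nat_lit 18) (nat_lit 2) (nat_lit 1) (nat_lit 11) true (nat_lit 0) true (nat_lit 8) true (nat_lit 5) true (nat_lit 16) true (nat_lit 17) (.s false (nat_lit 3) (nat_lit 18) (nat_lit 2) (nat_lit 1) (nat_lit 12) true (nat_lit 0) true (nat_lit 8) true (nat_lit 5) true (nat_lit 16) true (nat_lit 17) (.s true (nat_lit 2) (nat_lit 19) (nat_lit 2) (nat_lit 2) (nat_lit 8) true (nat_lit 2) true (nat_lit 10) true (nat_lit 5) true (nat_lit 16) true (nat_lit 16) (.s true (nat_lit 2) (nat_lit 19) (nat_lit 2) (nat_lit 9) (nat_lit 2) true (nat_lit 11) true (nat_lit 16) true (nat_lit 5) true (nat_lit 16) true (nat_lit 10) (.s false (nat_lit 3) (nat_lit 19) (nat_lit 2) (nat_lit 12) (nat_lit 1) true (nat_lit 12) true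 (nat_lit 17) true (nat_lit 5) true (nat_lit 16) true (nat_lit 8) (.s false (nat_lit 3) (nat_lit 18) (nat_lit 8) (nat_lit 2) (nat_lit 2) true (nat_lit 2) true (nat_lit 16) true (nat_lit 5) true (nat_lit 10) true (nat_lit 16) (.s false (nat_lit 3) (nat_lit 19) (nat_lit 9) (nat_lit 2) (nat_lit 2) true (nat_lit 2) true (nat_lit 16) true (nat_lit 5) true (nat_lit 10) true (nat_lit 16) (.s true (nat_lit 3) (nat_lit 19) (nat_lit 11) (nat_lit 1) (nat_lit 2) true (nat_lit 0) true (nat_lit 16) true (nat_lit 5) true (nat_lit 8) true (nat_lit 17) (.s false (nat_lit 1) (nat_lit 18) (nat_lit 11) (nat_lit 2) (nat_lit 1) true (nat_lit 2) true (nat_lit 17) true (nat_lit 5) true (nat_lit 8) true (nat_lit 16) (.s true (nat_lit 1) (nat_lit 19) (nat_lit 11) (nat_lit 2) (nat_lit 1) true (nat_lit 2) true (nat_lit 17) true (nat_lit 5) true (nat_lit 8) true (nat_lit 16) (.s true (nat_lit 1) (nat_lit 20) (nat_lit 1) (nat_lit 1) (nat_lit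 12) true (nat_lit 2) true (nat_lit 8) true (nat_lit 4) true (nat_lit 17) true (nat_lit 17) (.s true (nat_lit 3) (nat_lit 20) (nat_lit 1) (nat_lit 12) (nat_lit 1) true (nat_lit 14) true (nat_lit 17) true (nat_lit 4) true (nat_lit 17) true (nat_lit 8) (.s true (nat_lit 3) (nat_lit 20) (nat_lit 2) (nat_lit 1) (nat_lit 8) true (nat_lit 2) true (nat_lit 10) true (nat_lit 4) true (nat_lit 16) true (nat_lit 17) (.s false (nat_lit 1) (nat_lit 20) (nat_lit 9) (nat_lit 2) (nat_lit 1) true (nat_lit 3) true (nat_lit 17) true (nat_lit 4) true (nat_lit 10) true (nat_lit 16) (.s false (nat_lit 2) (nat_lit 20) (nat_lit 12) (nat_lit 1) (nat_lit 1) true (nat_lit 2) true (nat_lit 17) true (nat_lit 4) true (nat_lit 8) true (nat_lit 17) (.s true (nat_lit 1) (nat_lit 21) (nat_lit 2) (nat_lit 2) (nat_lit 7) true (nat_lit 4) true (nat_lit 11) true (nat_lit 3) true (nat_lit 16) true (nat_lit 16) (.s true (nat_lit 3) (nat_lit 22) (nat_lit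 2) (nat_lit 2) (nat_lit 7) true (nat_lit 4) true (nat_lit 11) true (nat_lit 3) true (nat_lit 16) true (nat_lit 16) (.s true (nat_lit 2) (nat_lit 23) (nat_lit 2) (nat_lit 2) (nat_lit 7) true (nat_lit 4) true (nat_lit 11) true (nat_lit 3) true (nat_lit 16) true (nat_lit 16) (.s false (nat_lit 1) (nat_lit 22) (nat_lit 2) (nat_lit 7) (nat_lit 2) true (nat_lit 11) true (nat_lit 16) true (nat_lit 3) true (nat_lit 16) true (nat_lit 11) (.s false (nat_lit 2) (nat_lit 23) (nat_lit 2) (nat_lit 7) (nat_lit 2) true (nat_lit 11) true (nat_lit 16) true (nat_lit 3) true (nat_lit 16) true (nat_lit 11) (.s false (nat_lit 2) (nat_lit 21) (nat_lit 7) (nat_lit 2) (nat_lit 2) true (nat_lit 4) true (nat_lit 16) true (nat_lit 3) true (nat_lit 11) true (nat_lit 16) (.s true (nat_lit 1) (nat_lit 24) (nat_lit 1) (nat_lit 2) (nat_lit 7) true (nat_lit 5) true (nat_lit 11) true (nat_lit 2) true (nat_lit 17) true (nat_lit 16) (.s false (nat_lit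 3) (nat_lit 26) (nat_lit 1) (nat_lit 2) (nat_lit 7) true (nat_lit 5) true (nat_lit 11) true (nat_lit 2) true (nat_lit 17) true (nat_lit 16) (.s true (nat_lit 2) (nat_lit 27) (nat_lit 1) (nat_lit 2) (nat_lit 7) true (nat_lit 5) true (nat_lit 11) true (nat_lit 2) true (nat_lit 17) true (nat_lit 16) dC2d_i172)))))))))))))))))))))))))

noncomputable def dC2d_i174 : IL := (.s true (nat_lit 3) (nat_lit 9) (nat_lit 7) (nat_lit 1) (nat_lit 7) false (nat_lit 3) true (nat_lit 11) true (nat_lit 10) true (nat_lit 11) true (nat_lit 17) (.s false (nat_lit 2) (nat_lit 9) (nat_lit 7) (nat_lit 6) (nat_lit 2) true (nat_lit 4) true (nat_lit 16) true (nat_lit 10) true (nat_lit 11) true (nat_lit 12) (.s true (nat_lit 3) (nat_lit 10) (nat_lit 5) (nat_lit 2) (nat_lit 7) false (nat_lit 1) true (nat_lit 11) true (nat_lit 9) true (nat_lit 13) true (nat_lit 16) (.s true (nat_lit 1) (nat_lit 10) (nat_lit 5) (nat_lit 7) (nat_lit 2) true (nat_lit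 6) true (nat_lit 16) true (nat_lit 9) true (nat_lit 13) true (nat_lit 11) (.s true (nat_lit 2) (nat_lit 10) (nat_lit 7) (nat_lit 0) (nat_lit 7) false (nat_lit 3) true (nat_lit 11) true (nat_lit 9) true (nat_lit 11) true (nat_lit 18) (.s true (nat_lit 2) (nat_lit 10) (nat_lit 7) (nat_lit 7) (nat_lit 0) true (nat_lit 6) true (nat_lit 18) true (nat_lit 9) true (nat_lit 11) true (nat_lit 11) (.s false (nat_lit 1) (nat_lit 11) (nat_lit 1) (nat_lit 7) (nat_lit 6) true (nat_lit 7) true (nat_lit 12) true (nat_lit 8) true (nat_lit 17) true (nat_lit 11) (.s true (nat_lit 2) (nat_lit 12) (nat_lit 2) (nat_lit 7) (nat_lit 4) true (nat_lit 7) true (nat_lit 14) true (nat_lit 8) true (nat_lit 16) true (nat_lit 11) (.s false (nat_lit 2) (nat_lit 11) (nat_lit 6) (nat_lit 6) (nat_lit 2) true (nat_lit 5) true (nat_lit 16) true (nat_lit 8) true (nat_lit 12) true (nat_lit 12) (.s true (nat_lit 3) (nat_lit 12) (nat_lit 6) (nat_lit 6)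 (nat_lit 2) true (nat_lit 5) true (nat_lit 16) true (nat_lit 8) true (nat_lit 12) true (nat_lit 12) (.s false (nat_lit 3) (nat_lit 11) (nat_lit 7) (nat_lit 1) (nat_lit 6) false (nat_lit 2) true (nat_lit 12) true (nat_lit 8) true (nat_lit 11) true (nat_lit 17) (.s false (nat_lit 2) (nat_lit 14) (nat_lit 2) (nat_lit 2) (nat_lit 11) true (nat_lit 0) true (nat_lit 8) true (nat_lit 7) true (nat_lit 16) true (nat_lit 16) (.s false (nat_lit 2) (nat_lit 14) (nat_lit 2) (nat_lit 2) (nat_lit 12) true (nat_lit 0) true (nat_lit 8) true (nat_lit 7) true (nat_lit 16) true (nat_lit 16) (.s true (nat_lit 3) (nat_lit 14) (nat_lit 2) (nat_lit 12) (nat_lit 2) true (nat_lit 11) true (nat_lit 16) true (nat_lit 7) true (nat_lit 16) true (nat_lit 8) (.s true (nat_lit 3) (nat_lit 14) (nat_lit 11) (nat_lit 2) (nat_lit 2) true (nat_lit 0) true (nat_lit 16) true (nat_lit 7) true (nat_lit 8) true (nat_lit 16) (.s true (nat_lit 1) (nat_lit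 16) (nat_lit 2) (nat_lit 2) (nat_lit 10) true (nat_lit 1) true (nat_lit 9) true (nat_lit 6) true (nat_lit 16) true (nat_lit 16) (.s false (nat_lit 2) (nat_lit 16) (nat_lit 2) (nat_lit 10) (nat_lit 2) true (nat_lit 11) true (nat_lit 16) true (nat_lit 6) true (nat_lit 16) true (nat_lit 9) (.s true (nat_lit 3) (nat_lit 16) (nat_lit 10) (nat_lit 2) (nat_lit 2) true (nat_lit 1) true (nat_lit 16) true (nat_lit 6) true (nat_lit 9) true (nat_lit 16) (.s false (nat_lit 1) (nat_lit 17) (nat_lit 10) (nat_lit 2) (nat_lit 2) true (nat_lit 1) true (nat_lit 16) true (nat_lit 6) true (nat_lit 9) true (nat_lit 16) (.s false (nat_lit 1) (nat_lit 18) (nat_lit 0) (nat_lit 1) (nat_lit 18) true (nat_lit 0) true (nat_lit 5) true (nat_lit 5) true (nat_lit 18) true (nat_lit 17) (.s false (nat_lit 2) (nat_lit 18) (nat_lit 1) (nat_lit 0) (nat_lit 18) false (nat_lit 0) true (nat_lit 5) true (nat_lit 5) true (nat_lit 17) true (nat_lit 18)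 (.s true (nat_lit 1) (nat_lit 18) (nat_lit 1) (nat_lit 2) (nat_lit 12) true (nat_lit 2) true (nat_lit 8) true (nat_lit 5) true (nat_lit 17) true (nat_lit 16) (.s false (nat_lit 3) (nat_lit 18) (nat_lit 1) (nat_lit 3) (nat_lit 7) true (nat_lit 5) true (nat_lit 11) true (nat_lit 5) true (nat_lit 17) true (nat_lit 15) (.s false (nat_lit 1) (nat_lit 19) (nat_lit 1) (nat_lit 3) (nat_lit 7) true (nat_lit 5) true (nat_lit 11) true (nat_lit 5) true (nat_lit 17) true (nat_lit 15) (.s true (nat_lit 2) (nat_lit 18) (nat_lit 1) (nat_lit 11) (nat_lit 2) true (nat_lit 12) true (nat_lit 16) true (nat_lit 5) true (nat_lit 17) true (nat_lit 8) dC2d_i173)))))))))))))))))))))))))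

noncomputable def dC2d_i175 : IL := (.e true (nat_lit 1) (nat_lit 235) (nat_lit 2) (nat_lit 16) (.e true (nat_lit 2) (nat_lit 256) (nat_lit 1) (nat_lit 17) (.e true (nat_lit 1) (nat_lit 261) (nat_lit 1) (nat_lit 17) (.e true (nat_lit 1) (nat_lit 275) (nat_lit 1) (nat_lit 17) (.e true (nat_lit 3) (nat_lit 279) (nat_lit 1) (nat_lit 17) (.e false (nat_lit 1) (nat_lit 62) (nat_lit 18) (nat_lit 5) (.e true (nat_lit 2) (nat_lit 170) (nat_lit 4) (nat_lit 14) (.e false (nat_lit 2) (nat_lit 155) (nat_lit 6) (nat_lit 12) (.e true (nat_lit 2) (nat_lit 303) (nat_lit 0) (nat_lit 18) (.e true (nat_lit 1) (nat_lit 282) (nat_lit 1) (nat_lit 17) (.e false (nat_lit 2) (nat_lit 289) (nat_lit 0) (nat_lit 18) (.e true (nat_lit 3) (nat_lit 291) (nat_lit 0) (nat_lit 18) (.e false (nat_lit 2) (nat_lit 292) (nat_lit 0) (nat_lit 18) (.e true (nat_lit 3) (nat_lit 293) (nat_lit 0) (nat_lit 18) (.e true (nat_lit 1) (nat_lit 294) (nat_lit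 0) (nat_lit 18) (.e false (nat_lit 3) (nat_lit 296) (nat_lit 0) (nat_lit 18) (.e false (nat_lit 1) (nat_lit 297) (nat_lit 0) (nat_lit 18) (.e false (nat_lit 3) (nat_lit 299) (nat_lit 0) (nat_lit 18) (.e true (nat_lit 3) (nat_lit 300) (nat_lit 0) (nat_lit 18) (.e true (nat_lit 1) (nat_lit 301) (nat_lit 0) (nat_lit 18) (.e false (nat_lit 1) (nat_lit 304) (nat_lit 0) (nat_lit 18) (.u (nat_lit 2) (.n (nat_lit 0) (nat_lit 2) (.p (nat_lit 2) (nat_lit 5) (.p (nat_lit 3) (nat_lit 1) (.n (nat_lit 4) (nat_lit 1) (.p (nat_lit 5) (nat_lit 1) (.p (nat_lit 6) (nat_lit 1) (.n (nat_lit 7) (nat_lit 1) (.p (nat_lit 8) (nat_lit 2) (.p (nat_lit 10) (nat_lit 1) (.n (nat_lit 11) (nat_lit 2) (.n (nat_lit 12) (nat_lit 2) (.p (nat_lit 14) (nat_lit 4) (.p (nat_lit 15) (nat_lit 2) (.p (nat_lit 16) (nat_lit 2) (.n (nat_lit 17) (nat_lit 3) (.p (nat_lit 18) (nat_lit 2) (.n (nat_lit 23) (nat_lit 2) (.p (nat_lit 24) (nat_lit 1) (.p (nat_lit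 25) (nat_lit 3) (.p (nat_lit 26) (nat_lit 3) (.n (nat_lit 27) (nat_lit 2) (.n (nat_lit 28) (nat_lit 2) (.p (nat_lit 29) (nat_lit 2) (.n (nat_lit 31) (nat_lit 2) (.p (nat_lit 33) (nat_lit 3) (.n (nat_lit 34) (nat_lit 2) (.p (nat_lit 35) (nat_lit 3) (.n (nat_lit 36) (nat_lit 4) (.n (nat_lit 37) (nat_lit 2) (.n (nat_lit 38) (nat_lit 3) (.n (nat_lit 39) (nat_lit 4) (.p (nat_lit 40) (nat_lit 2) (.n (nat_lit 41) (nat_lit 1) (.p (nat_lit 45) (nat_lit 1) (.p (nat_lit 46) (nat_lit 4) (.p (nat_lit 48) (nat_lit 2) (.n (nat_lit 50) (nat_lit 1) (.n (nat_lit 55) (nat_lit 1) (.p (nat_lit 57) (nat_lit 1) (.n (nat_lit 66) (nat_lit 1) (.p (nat_lit 67) (nat_lit 1) (.p (nat_lit 81) (nat_lit 1) (.p (nat_lit 82) (nat_lit 1) (.n (nat_lit 90) (nat_lit 1) (.p (nat_lit 91) (nat_lit 1) (.p (nat_lit 93) (nat_lit 1) (.n (nat_lit 96) (nat_lit 1) (.p (nat_lit 107) (nat_lit 1) (.n (nat_lit 108) (nat_lit 1) (.p (nat_lit 111) (nat_lit 1) (.p (nat_lit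 112) (nat_lit 1) (.p (nat_lit 113) (nat_lit 1) (.n (nat_lit 114) (nat_lit 1) (.n (nat_lit 115) (nat_lit 2) (.p (nat_lit 116) (nat_lit 1) (.n (nat_lit 122) (nat_lit 1) (.n (nat_lit 123) (nat_lit 1) (.p (nat_lit 124) (nat_lit 1) (.n (nat_lit 126) (nat_lit 1) (.p (nat_lit 133) (nat_lit 1) .z)))))))))))))))))))))))))))))))))))))))))))))))))))))))))))) (.u (nat_lit 2) (.n (nat_lit 136) (nat_lit 1) (.p (nat_lit 137) (nat_lit 1) (.p (nat_lit 147) (nat_lit 1) (.n (nat_lit 148) (nat_lit 1) (.n (nat_lit 184) (nat_lit 1) (.p (nat_lit 185) (nat_lit 1) (.p (nat_lit 186) (nat_lit 1) (.n (nat_lit 190) (nat_lit 1) (.n (nat_lit 213) (nat_lit 1) (.p (nat_lit 214) (nat_lit 5) (.p (nat_lit 215) (nat_lit 4) (.p (nat_lit 216) (nat_lit 1) (.p (nat_lit 217) (nat_lit 1) (.p (nat_lit 219) (nat_lit 1) (.n (nat_lit 221) (nat_lit 1) (.p (nat_lit 223) (nat_lit 3) (.p (nat_lit 224) (nat_lit 1) (.p (nat_lit 225) (nat_lit 2) (.p (nat_lit 226)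 (nat_lit 5) (.n (nat_lit 227) (nat_lit 1) (.n (nat_lit 229) (nat_lit 8) (.n (nat_lit 230) (nat_lit 5) (.n (nat_lit 233) (nat_lit 2) (.n (nat_lit 234) (nat_lit 7) (.n (nat_lit 238) (nat_lit 2) (.p (nat_lit 242) (nat_lit 1) (.n (nat_lit 245) (nat_lit 1) (.n (nat_lit 246) (nat_lit 1) (.p (nat_lit 247) (nat_lit 1) (.n (nat_lit 252) (nat_lit 1) (.n (nat_lit 253) (nat_lit 1) (.p (nat_lit 254) (nat_lit 1) (.p (nat_lit 259) (nat_lit 1) (.n (nat_lit 262) (nat_lit 1) (.p (nat_lit 271) (nat_lit 1) (.n (nat_lit 272) (nat_lit 1) (.p (nat_lit 273) (nat_lit 1) (.n (nat_lit 277) (nat_lit 1) (.p (nat_lit 278) (nat_lit 1) (.p (nat_lit 279) (nat_lit 1) (.p (nat_lit 281) (nat_lit 1) (.n (nat_lit 284) (nat_lit 2) (.n (nat_lit 293) (nat_lit 1) (.n (nat_lit 297) (nat_lit 2) (.n (nat_lit 299) (nat_lit 1) (.p (nat_lit 300) (nat_lit 1) (.p (nat_lit 302) (nat_lit 15) (.p (nat_lit 303) (nat_lit 13) (.n (nat_lit 304) (nat_lit 11) (.n (nat_lit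 305) (nat_lit 10) (.p (nat_lit 306) (nat_lit 5) (.p (nat_lit 307) (nat_lit 4) (.p (nat_lit 308) (nat_lit 18) (.n (nat_lit 309) (nat_lit 3) (.n (nat_lit 310) (nat_lit 1) (.p (nat_lit 311) (nat_lit 2) (.p (nat_lit 313) (nat_lit 9) (.n (nat_lit 314) (nat_lit 1) (.p (nat_lit 315) (nat_lit 24) (.p (nat_lit 316) (nat_lit 19) .z)))))))))))))))))))))))))))))))))))))))))))))))))))))))))))) (.u (nat_lit 2) (.p (nat_lit 317) (nat_lit 8) (.p (nat_lit 318) (nat_lit 12) (.p (nat_lit 319) (nat_lit 16) (.p (nat_lit 322) (nat_lit 22) (.n (nat_lit 323) (nat_lit 20) (.p (nat_lit 324) (nat_lit 7) (.p (nat_lit 325) (nat_lit 6) (.p (nat_lit 326) (nat_lit 2) (.n (nat_lit 327) (nat_lit 8) (.n (nat_lit 328) (nat_lit 6) (.n (nat_lit 329) (nat_lit 17) (.n (nat_lit 330) (nat_lit 12) (.p (nat_lit 331) (nat_lit 4) (.p (nat_lit 332) (nat_lit 2) (.p (nat_lit 334) (nat_lit 5) (.p (nat_lit 335) (nat_lit 3) (.p (nat_lit 338) (nat_lit 4) (.n (nat_lit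 339) (nat_lit 5) (.p (nat_lit 340) (nat_lit 5) (.p (nat_lit 341) (nat_lit 3) (.n (nat_lit 342) (nat_lit 16) (.n (nat_lit 343) (nat_lit 14) (.p (nat_lit 344) (nat_lit 2) (.p (nat_lit 346) (nat_lit 1) (.p (nat_lit 347) (nat_lit 4) (.p (nat_lit 348) (nat_lit 17) (.p (nat_lit 349) (nat_lit 8) (.n (nat_lit 350) (nat_lit 7) (.n (nat_lit 351) (nat_lit 19) (.p (nat_lit 352) (nat_lit 8) (.p (nat_lit 354) (nat_lit 2) (.n (nat_lit 355) (nat_lit 7) (.p (nat_lit 357) (nat_lit 2) (.p (nat_lit 358) (nat_lit 6) (.p (nat_lit 359) (nat_lit 5) (.n (nat_lit 360) (nat_lit 1) (.p (nat_lit 362) (nat_lit 5) (.n (nat_lit 363) (nat_lit 11) (.n (nat_lit 364) (nat_lit 2) (.n (nat_lit 366) (nat_lit 1) (.n (nat_lit 367) (nat_lit 9) (.n (nat_lit 368) (nat_lit 4) (.p (nat_lit 369) (nat_lit 2) (.n (nat_lit 370) (nat_lit 1) (.p (nat_lit 371) (nat_lit 7) (.p (nat_lit 372) (nat_lit 2) (.n (nat_lit 373) (nat_lit 2) (.n (nat_lit 374) (nat_lit 2) (.p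 (nat_lit 376) (nat_lit 6) (.p (nat_lit 379) (nat_lit 2) (.n (nat_lit 380) (nat_lit 4) (.p (nat_lit 382) (nat_lit 6) (.n (nat_lit 383) (nat_lit 5) (.p (nat_lit 384) (nat_lit 2) (.p (nat_lit 385) (nat_lit 1) (.p (nat_lit 386) (nat_lit 2) (.n (nat_lit 387) (nat_lit 3) (.n (nat_lit 388) (nat_lit 1) (.p (nat_lit 389) (nat_lit 2) (.n (nat_lit 390) (nat_lit 1) .z)))))))))))))))))))))))))))))))))))))))))))))))))))))))))))) (.u (nat_lit 2) (.p (nat_lit 391) (nat_lit 2) (.n (nat_lit 392) (nat_lit 2) (.n (nat_lit 393) (nat_lit 2) (.n (nat_lit 394) (nat_lit 1) (.p (nat_lit 395) (nat_lit 1) (.n (nat_lit 396) (nat_lit 1) (.p (nat_lit 398) (nat_lit 1) (.p (nat_lit 400) (nat_lit 2) (.n (nat_lit 401) (nat_lit 2) .z))))))))) .nil)))))))))))))))))))))))))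

noncomputable def dC2d_i176 : IL := (.e true (nat_lit 3) (nat_lit 276) (nat_lit 1) (nat_lit 17) (.e true (nat_lit 3) (nat_lit 277) (nat_lit 1) (nat_lit 17) (.e false (nat_lit 1) (nat_lit 262) (nat_lit 1) (nat_lit 17) (.e true (nat_lit 3) (nat_lit 264) (nat_lit 1) (nat_lit 17) (.e true (nat_lit 3) (nat_lit 266) (nat_lit 1) (nat_lit 17) (.e false (nat_lit 3) (nat_lit 231) (nat_lit 2) (nat_lit 16) (.e true (nat_lit 2) (nat_lit 206) (nat_lit 2) (nat_lit 16) (.e true (nat_lit 1) (nat_lit 210) (nat_lit 2) (nat_lit 16) (.e true (nat_lit 2) (nat_lit 211) (nat_lit 2) (nat_lit 16) (.e true (nat_lit 2) (nat_lit 213) (nat_lit 2) (nat_lit 16) (.e false (nat_lit 1) (nat_lit 219) (nat_lit 2) (nat_lit 16) (.e true (nat_lit 3) (nat_lit 209) (nat_lit 2) (nat_lit 16) (.e false (nat_lit 1) (nat_lit 212) (nat_lit 2) (nat_lit 16) (.e true (nat_lit 1) (nat_lit 230) (nat_lit 2) (nat_lit 16) (.e false (nat_lit 3) (nat_lit 234) (nat_lit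 2) (nat_lit 16) (.e false (nat_lit 2) (nat_lit 246) (nat_lit 2) (nat_lit 16) (.e true (nat_lit 3) (nat_lit 247) (nat_lit 2) (nat_lit 16) (.e true (nat_lit 2) (nat_lit 226) (nat_lit 2) (nat_lit 16) (.e true (nat_lit 2) (nat_lit 298) (nat_lit 0) (nat_lit 18) (.e false (nat_lit 1) (nat_lit 278) (nat_lit 1) (nat_lit 17) (.e false (nat_lit 1) (nat_lit 138) (nat_lit 6) (nat_lit 12) (.e false (nat_lit 1) (nat_lit 207) (nat_lit 2) (nat_lit 16) (.e false (nat_lit 3) (nat_lit 229) (nat_lit 2) (nat_lit 16) (.e true (nat_lit 2) (nat_lit 250) (nat_lit 2) (nat_lit 16) (.e false (nat_lit 1) (nat_lit 218) (nat_lit 2) (nat_lit 16) dC2d_i175)))))))))))))))))))))))))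

noncomputable def dC2d_i177 : IL := (.s false (nat_lit 1) (nat_lit 92) (nat_lit 0) (nat_lit 2) (nat_lit 1) true (nat_lit 15) true (nat_lit 17) false (nat_lit 8) true (nat_lit 18) true (nat_lit 16) (.s true (nat_lit 3) (nat_lit 92) (nat_lit 1) (nat_lit 2) (nat_lit 0) true (nat_lit 15) true (nat_lit 18) false (nat_lit 8) true (nat_lit 17) true (nat_lit 16) (.s false (nat_lit 1) (nat_lit 93) (nat_lit 1) (nat_lit 2) (nat_lit 0) true (nat_lit 15) true (nat_lit 18) false (nat_lit 8) true (nat_lit 17) true (nat_lit 16) (.s true (nat_lit 2) (nat_lit 96) (nat_lit 1) (nat_lit 2) (nat_lit 0) true (nat_lit 15) true (nat_lit 18) false (nat_lit 8) true (nat_lit 17) true (nat_lit 16) (.s false (nat_lit 3) (nat_lit 92) (nat_lit 2) (nat_lit 1) (nat_lit 0) true (nat_lit 13) true (nat_lit 18) false (nat_lit 8) true (nat_lit 16) true (nat_lit 17) (.s true (nat_lit 1) (nat_lit 93) (nat_lit 2) (nat_lit 1) (nat_lit 0) true (nat_lit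 13) true (nat_lit 18) false (nat_lit 8) true (nat_lit 16) true (nat_lit 17) (.s false (nat_lit 2) (nat_lit 96) (nat_lit 2) (nat_lit 1) (nat_lit 0) true (nat_lit 13) true (nat_lit 18) false (nat_lit 8) true (nat_lit 16) true (nat_lit 17) (.e false (nat_lit 2) (nat_lit 129) (nat_lit 7) (nat_lit 11) (.e false (nat_lit 2) (nat_lit 227) (nat_lit 2) (nat_lit 16) (.e true (nat_lit 3) (nat_lit 242) (nat_lit 2) (nat_lit 16) (.e true (nat_lit 1) (nat_lit 208) (nat_lit 2) (nat_lit 16) (.e false (nat_lit 1) (nat_lit 216) (nat_lit 2) (nat_lit 16) (.e true (nat_lit 2) (nat_lit 144) (nat_lit 6) (nat_lit 12) (.e true (nat_lit 2) (nat_lit 205) (nat_lit 2) (nat_lit 16) (.e false (nat_lit 2) (nat_lit 215) (nat_lit 2) (nat_lit 16) (.e true (nat_lit 1) (nat_lit 251) (nat_lit 2) (nat_lit 16) (.e false (nat_lit 1) (nat_lit 252) (nat_lit 1) (nat_lit 17) (.e true (nat_lit 2) (nat_lit 253) (nat_lit 1) (nat_lit 17) (.e false (nat_lit 1)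 (nat_lit 254) (nat_lit 1) (nat_lit 17) (.e false (nat_lit 1) (nat_lit 265) (nat_lit 1) (nat_lit 17) (.e false (nat_lit 2) (nat_lit 267) (nat_lit 1) (nat_lit 17) (.e false (nat_lit 2) (nat_lit 269) (nat_lit 1) (nat_lit 17) (.e true (nat_lit 1) (nat_lit 270) (nat_lit 1) (nat_lit 17) (.e false (nat_lit 3) (nat_lit 271) (nat_lit 1) (nat_lit 17) (.e false (nat_lit 3) (nat_lit 273) (nat_lit 1) (nat_lit 17) dC2d_i176)))))))))))))))))))))))))

noncomputable def dC2d_i178 : IL := (.s false (nat_lit 2) (nat_lit 60) (nat_lit 2) (nat_lit 2) (nat_lit 1) true (nat_lit 12) true (nat_lit 17) false (nat_lit 5) true (nat_lit 16) true (nat_lit 16) (.s false (nat_lit 3) (nat_lit 61) (nat_lit 2) (nat_lit 2) (nat_lit 1) true (nat_lit 12) true (nat_lit 17) false (nat_lit 5) true (nat_lit 16) true (nat_lit 16) (.s true (nat_lit 2) (nat_lit 62) (nat_lit 2) (nat_lit 2) (nat_lit 1) true (nat_lit 12) true (nat_lit 17) false (nat_lit 5) true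 (nat_lit 16) true (nat_lit 16) (.s true (nat_lit 3) (nat_lit 66) (nat_lit 2) (nat_lit 2) (nat_lit 1) true (nat_lit 12) true (nat_lit 17) false (nat_lit 5) true (nat_lit 16) true (nat_lit 16) (.s true (nat_lit 1) (nat_lit 67) (nat_lit 2) (nat_lit 2) (nat_lit 1) true (nat_lit 12) true (nat_lit 17) false (nat_lit 5) true (nat_lit 16) true (nat_lit 16) (.s false (nat_lit 3) (nat_lit 68) (nat_lit 2) (nat_lit 2) (nat_lit 1) true (nat_lit 12) true (nat_lit 17) false (nat_lit 5) true (nat_lit 16) true (nat_lit 16) (.s true (nat_lit 3) (nat_lit 72) (nat_lit 2) (nat_lit 2) (nat_lit 1) true (nat_lit 12) true (nat_lit 17) false (nat_lit 5) true (nat_lit 16) true (nat_lit 16) (.s false (nat_lit 2) (nat_lit 73) (nat_lit 2) (nat_lit 2) (nat_lit 1) true (nat_lit 12) true (nat_lit 17) false (nat_lit 5) true (nat_lit 16) true (nat_lit 16) (.s false (nat_lit 1) (nat_lit 74) (nat_lit 0) (nat_lit 2) (nat_lit 2) true (nat_lit 13) true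 (nat_lit 16) false (nat_lit 6) true (nat_lit 18) true (nat_lit 16) (.s true (nat_lit 1) (nat_lit 80) (nat_lit 1) (nat_lit 1) (nat_lit 2) true (nat_lit 12) true (nat_lit 16) false (nat_lit 7) true (nat_lit 17) true (nat_lit 17) (.s false (nat_lit 2) (nat_lit 81) (nat_lit 1) (nat_lit 1) (nat_lit 2) true (nat_lit 12) true (nat_lit 16) false (nat_lit 7) true (nat_lit 17) true (nat_lit 17) (.s false (nat_lit 2) (nat_lit 88) (nat_lit 1) (nat_lit 1) (nat_lit 2) true (nat_lit 12) true (nat_lit 16) false (nat_lit 7) true (nat_lit 17) true (nat_lit 17) (.s false (nat_lit 1) (nat_lit 89) (nat_lit 1) (nat_lit 1) (nat_lit 2) true (nat_lit 12) true (nat_lit 16) false (nat_lit 7) true (nat_lit 17) true (nat_lit 17) (.s true (nat_lit 1) (nat_lit 80) (nat_lit 1) (nat_lit 2) (nat_lit 1) true (nat_lit 14) true (nat_lit 17) false (nat_lit 7) true (nat_lit 17) true (nat_lit 16) (.s true (nat_lit 3) (nat_lit 81) (nat_lit 1) (nat_lit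 2) (nat_lit 1) true (nat_lit 14) true (nat_lit 17) false (nat_lit 7) true (nat_lit 17) true (nat_lit 16) (.s false (nat_lit 1) (nat_lit 82) (nat_lit 1) (nat_lit 2) (nat_lit 1) true (nat_lit 14) true (nat_lit 17) false (nat_lit 7) true (nat_lit 17) true (nat_lit 16) (.s false (nat_lit 1) (nat_lit 83) (nat_lit 1) (nat_lit 2) (nat_lit 1) true (nat_lit 14) true (nat_lit 17) false (nat_lit 7) true (nat_lit 17) true (nat_lit 16) (.s false (nat_lit 1) (nat_lit 85) (nat_lit 1) (nat_lit 2) (nat_lit 1) true (nat_lit 14) true (nat_lit 17) false (nat_lit 7) true (nat_lit 17) true (nat_lit 16) (.s true (nat_lit 2) (nat_lit 88) (nat_lit 1) (nat_lit 2) (nat_lit 1) true (nat_lit 14) true (nat_lit 17) false (nat_lit 7) true (nat_lit 17) true (nat_lit 16) (.s true (nat_lit 1) (nat_lit 89) (nat_lit 1) (nat_lit 2) (nat_lit 1) true (nat_lit 14) true (nat_lit 17) false (nat_lit 7) true (nat_lit 17) true (nat_lit 16) (.s true (nat_lit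 1) (nat_lit 88) (nat_lit 2) (nat_lit 1) (nat_lit 1) true (nat_lit 12) true (nat_lit 17) false (nat_lit 7) true (nat_lit 16) true (nat_lit 17) (.s false (nat_lit 2) (nat_lit 89) (nat_lit 2) (nat_lit 1) (nat_lit 1) true (nat_lit 12) true (nat_lit 17) false (nat_lit 7) true (nat_lit 16) true (nat_lit 17) (.s true (nat_lit 2) (nat_lit 93) (nat_lit 0) (nat_lit 1) (nat_lit 2) true (nat_lit 13) true (nat_lit 16) false (nat_lit 8) true (nat_lit 18) true (nat_lit 17) (.s false (nat_lit 3) (nat_lit 96) (nat_lit 0) (nat_lit 1) (nat_lit 2) true (nat_lit 13) true (nat_lit 16) false (nat_lit 8) true (nat_lit 18) true (nat_lit 17) (.s true (nat_lit 3) (nat_lit 91) (nat_lit 0) (nat_lit 2) (nat_lit 1) true (nat_lit 15) true (nat_lit 17) false (nat_lit 8) true (nat_lit 18) true (nat_lit 16) dC2d_i177)))))))))))))))))))))))))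

noncomputable def dC2d_i179 : IL := (.s true (nat_lit 2) (nat_lit 48) (nat_lit 3) (nat_lit 1) (nat_lit 1) true (nat_lit 10) true (nat_lit 17) false (nat_lit 3) true (nat_lit 15) true (nat_lit 17) (.s true (nat_lit 3) (nat_lit 52) (nat_lit 2) (nat_lit 2) (nat_lit 2) true (nat_lit 11) true (nat_lit 16) false (nat_lit 4) true (nat_lit 16) true (nat_lit 16) (.s false (nat_lit 3) (nat_lit 53) (nat_lit 2) (nat_lit 2) (nat_lit 2) true (nat_lit 11) true (nat_lit 16) false (nat_lit 4) true (nat_lit 16) true (nat_lit 16) (.s false (nat_lit 3) (nat_lit 54) (nat_lit 2) (nat_lit 2) (nat_lit 2) true (nat_lit 11) true (nat_lit 16) false (nat_lit 4) true (nat_lit 16) true (nat_lit 16) (.s true (nat_lit 1) (nat_lit 55) (nat_lit 2) (nat_lit 2) (nat_lit 2) true (nat_lit 11) true (nat_lit 16) false (nat_lit 4) true (nat_lit 16) true (nat_lit 16) (.s false (nat_lit 1) (nat_lit 56) (nat_lit 2) (nat_lit 2) (nat_lit 2) true (nat_lit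 11) true (nat_lit 16) false (nat_lit 4) true (nat_lit 16) true (nat_lit 16) (.s true (nat_lit 3) (nat_lit 57) (nat_lit 2) (nat_lit 2) (nat_lit 2) true (nat_lit 11) true (nat_lit 16) false (nat_lit 4) true (nat_lit 16) true (nat_lit 16) (.s true (nat_lit 2) (nat_lit 58) (nat_lit 2) (nat_lit 2) (nat_lit 2) true (nat_lit 11) true (nat_lit 16) false (nat_lit 4) true (nat_lit 16) true (nat_lit 16) (.s true (nat_lit 2) (nat_lit 59) (nat_lit 2) (nat_lit 2) (nat_lit 2) true (nat_lit 11) true (nat_lit 16) false (nat_lit 4) true (nat_lit 16) true (nat_lit 16) (.s true (nat_lit 1) (nat_lit 60) (nat_lit 1) (nat_lit 2) (nat_lit 2) true (nat_lit 12) true (nat_lit 16) false (nat_lit 5) true (nat_lit 17) true (nat_lit 16) (.s false (nat_lit 1) (nat_lit 61) (nat_lit 1) (nat_lit 2) (nat_lit 2) true (nat_lit 12) true (nat_lit 16) false (nat_lit 5) true (nat_lit 17) true (nat_lit 16) (.s false (nat_lit 2) (nat_lit 65) (nat_lit 1)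 (nat_lit 2) (nat_lit 2) true (nat_lit 12) true (nat_lit 16) false (nat_lit 5) true (nat_lit 17) true (nat_lit 16) (.s false (nat_lit 2) (nat_lit 66) (nat_lit 1) (nat_lit 2) (nat_lit 2) true (nat_lit 12) true (nat_lit 16) false (nat_lit 5) true (nat_lit 17) true (nat_lit 16) (.s false (nat_lit 1) (nat_lit 67) (nat_lit 1) (nat_lit 2) (nat_lit 2) true (nat_lit 12) true (nat_lit 16) false (nat_lit 5) true (nat_lit 17) true (nat_lit 16) (.s false (nat_lit 1) (nat_lit 68) (nat_lit 1) (nat_lit 2) (nat_lit 2) true (nat_lit 12) true (nat_lit 16) false (nat_lit 5) true (nat_lit 17) true (nat_lit 16) (.s true (nat_lit 3) (nat_lit 72) (nat_lit 1) (nat_lit 2) (nat_lit 2) true (nat_lit 12) true (nat_lit 16) false (nat_lit 5) true (nat_lit 17) true (nat_lit 16) (.s true (nat_lit 3) (nat_lit 73) (nat_lit 1) (nat_lit 2) (nat_lit 2) true (nat_lit 12) true (nat_lit 16) false (nat_lit 5) true (nat_lit 17) true (nat_lit 16) (.s false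 (nat_lit 2) (nat_lit 61) (nat_lit 2) (nat_lit 1) (nat_lit 2) true (nat_lit 11) true (nat_lit 16) false (nat_lit 5) true (nat_lit 16) true (nat_lit 17) (.s false (nat_lit 2) (nat_lit 62) (nat_lit 2) (nat_lit 1) (nat_lit 2) true (nat_lit 11) true (nat_lit 16) false (nat_lit 5) true (nat_lit 16) true (nat_lit 17) (.s true (nat_lit 2) (nat_lit 63) (nat_lit 2) (nat_lit 1) (nat_lit 2) true (nat_lit 11) true (nat_lit 16) false (nat_lit 5) true (nat_lit 16) true (nat_lit 17) (.s false (nat_lit 3) (nat_lit 65) (nat_lit 2) (nat_lit 1) (nat_lit 2) true (nat_lit 11) true (nat_lit 16) false (nat_lit 5) true (nat_lit 16) true (nat_lit 17) (.s true (nat_lit 3) (nat_lit 66) (nat_lit 2) (nat_lit 1) (nat_lit 2) true (nat_lit 11) true (nat_lit 16) false (nat_lit 5) true (nat_lit 16) true (nat_lit 17) (.s true (nat_lit 3) (nat_lit 67) (nat_lit 2) (nat_lit 1) (nat_lit 2) true (nat_lit 11) true (nat_lit 16) false (nat_lit 5) true (nat_lit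 16) true (nat_lit 17) (.s true (nat_lit 2) (nat_lit 72) (nat_lit 2) (nat_lit 1) (nat_lit 2) true (nat_lit 11) true (nat_lit 16) false (nat_lit 5) true (nat_lit 16) true (nat_lit 17) (.s false (nat_lit 1) (nat_lit 73) (nat_lit 2) (nat_lit 1) (nat_lit 2) true (nat_lit 11) true (nat_lit 16) false (nat_lit 5) true (nat_lit 16) true (nat_lit 17) dC2d_i178)))))))))))))))))))))))))

noncomputable def dC2d_i180 : IL := (.s true (nat_lit 2) (nat_lit 29) (nat_lit 6) (nat_lit 2) (nat_lit 2) true (nat_lit 5) true (nat_lit 16) true (nat_lit 2) true (nat_lit 12) true (nat_lit 16) (.s false (nat_lit 2) (nat_lit 25) (nat_lit 7) (nat_lit 1) (nat_lit 2) true (nat_lit 4) true (nat_lit 16) true (nat_lit 2) true (nat_lit 11) true (nat_lit 17) (.s true (nat_lit 2) (nat_lit 30) (nat_lit 0) (nat_lit 2) (nat_lit 7) true (nat_lit 6) true (nat_lit 11) true (nat_lit 1) true (nat_lit 18) true (nat_lit 16) (.s true (nat_lit 1) (nat_lit 30)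 (nat_lit 2) (nat_lit 2) (nat_lit 5) true (nat_lit 6) true (nat_lit 13) true (nat_lit 1) true (nat_lit 16) true (nat_lit 16) (.s true (nat_lit 2) (nat_lit 30) (nat_lit 2) (nat_lit 7) (nat_lit 0) true (nat_lit 13) true (nat_lit 18) true (nat_lit 1) true (nat_lit 16) true (nat_lit 11) (.s false (nat_lit 2) (nat_lit 30) (nat_lit 5) (nat_lit 2) (nat_lit 2) true (nat_lit 6) true (nat_lit 16) true (nat_lit 1) true (nat_lit 13) true (nat_lit 16) (.s false (nat_lit 1) (nat_lit 33) (nat_lit 1) (nat_lit 1) (nat_lit 7) true (nat_lit 5) true (nat_lit 11) true (nat_lit 0) true (nat_lit 17) true (nat_lit 17) (.s false (nat_lit 1) (nat_lit 34) (nat_lit 1) (nat_lit 1) (nat_lit 7) true (nat_lit 5) true (nat_lit 11) true (nat_lit 0) true (nat_lit 17) true (nat_lit 17) (.s false (nat_lit 1) (nat_lit 33) (nat_lit 1) (nat_lit 2) (nat_lit 6) true (nat_lit 7) true (nat_lit 12) true (nat_lit 0) true (nat_lit 17) true (nat_lit 16) (.s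 true (nat_lit 1) (nat_lit 35) (nat_lit 1) (nat_lit 2) (nat_lit 6) true (nat_lit 7) true (nat_lit 12) true (nat_lit 0) true (nat_lit 17) true (nat_lit 16) (.s true (nat_lit 1) (nat_lit 36) (nat_lit 1) (nat_lit 2) (nat_lit 6) true (nat_lit 7) true (nat_lit 12) true (nat_lit 0) true (nat_lit 17) true (nat_lit 16) (.s true (nat_lit 1) (nat_lit 38) (nat_lit 1) (nat_lit 2) (nat_lit 6) true (nat_lit 7) true (nat_lit 12) true (nat_lit 0) true (nat_lit 17) true (nat_lit 16) (.s false (nat_lit 2) (nat_lit 34) (nat_lit 1) (nat_lit 7) (nat_lit 1) true (nat_lit 14) true (nat_lit 17) true (nat_lit 0) true (nat_lit 17) true (nat_lit 11) (.s false (nat_lit 2) (nat_lit 34) (nat_lit 2) (nat_lit 1) (nat_lit 6) true (nat_lit 5) true (nat_lit 12) true (nat_lit 0) true (nat_lit 16) true (nat_lit 17) (.s false (nat_lit 1) (nat_lit 33) (nat_lit 2) (nat_lit 2) (nat_lit 4) true (nat_lit 7) true (nat_lit 14) true (nat_lit 0) true (nat_lit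 16) true (nat_lit 16) (.s true (nat_lit 3) (nat_lit 33) (nat_lit 2) (nat_lit 6) (nat_lit 1) true (nat_lit 12) true (nat_lit 17) true (nat_lit 0) true (nat_lit 16) true (nat_lit 12) (.s true (nat_lit 2) (nat_lit 34) (nat_lit 4) (nat_lit 2) (nat_lit 2) true (nat_lit 7) true (nat_lit 16) true (nat_lit 0) true (nat_lit 14) true (nat_lit 16) (.s false (nat_lit 3) (nat_lit 34) (nat_lit 6) (nat_lit 2) (nat_lit 1) true (nat_lit 7) true (nat_lit 17) true (nat_lit 0) true (nat_lit 12) true (nat_lit 16) (.s false (nat_lit 2) (nat_lit 39) (nat_lit 3) (nat_lit 2) (nat_lit 2) true (nat_lit 8) true (nat_lit 16) false (nat_lit 0) true (nat_lit 15) true (nat_lit 16) (.s false (nat_lit 2) (nat_lit 45) (nat_lit 1) (nat_lit 2) (nat_lit 3) true (nat_lit 10) true (nat_lit 15) false (nat_lit 2) true (nat_lit 17) true (nat_lit 16) (.s false (nat_lit 3) (nat_lit 46) (nat_lit 1) (nat_lit 3) (nat_lit 2) true (nat_lit 12) true (nat_lit 16)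 false (nat_lit 2) true (nat_lit 17) true (nat_lit 15) (.s true (nat_lit 3) (nat_lit 47) (nat_lit 1) (nat_lit 3) (nat_lit 2) true (nat_lit 12) true (nat_lit 16) false (nat_lit 2) true (nat_lit 17) true (nat_lit 15) (.s false (nat_lit 2) (nat_lit 45) (nat_lit 2) (nat_lit 3) (nat_lit 1) true (nat_lit 12) true (nat_lit 17) false (nat_lit 2) true (nat_lit 16) true (nat_lit 15) (.s false (nat_lit 3) (nat_lit 46) (nat_lit 2) (nat_lit 3) (nat_lit 1) true (nat_lit 12) true (nat_lit 17) false (nat_lit 2) true (nat_lit 16) true (nat_lit 15) (.s false (nat_lit 2) (nat_lit 47) (nat_lit 5) (nat_lit 1) (nat_lit 1) true (nat_lit 8) true (nat_lit 17) false (nat_lit 2) true (nat_lit 13) true (nat_lit 17) dC2d_i179)))))))))))))))))))))))))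

noncomputable def dC2d_i181 : IL := (.s false (nat_lit 2) (nat_lit 20) (nat_lit 9) (nat_lit 2) (nat_lit 1) true (nat_lit 3) true (nat_lit 17) true (nat_lit 4) true (nat_lit 10) true (nat_lit 16) (.s true (nat_lit 3) (nat_lit 20) (nat_lit 12) (nat_lit 1) (nat_lit 1) true (nat_lit 2) true (nat_lit 17) true (nat_lit 4) true (nat_lit 8) true (nat_lit 17) (.s true (nat_lit 1) (nat_lit 21) (nat_lit 2) (nat_lit 2) (nat_lit 7) true (nat_lit 4) true (nat_lit 11) true (nat_lit 3) true (nat_lit 16) true (nat_lit 16) (.s true (nat_lit 1) (nat_lit 22) (nat_lit 2) (nat_lit 2) (nat_lit 7) true (nat_lit 4) true (nat_lit 11) true (nat_lit 3) true (nat_lit 16) true (nat_lit 16) (.s true (nat_lit 2) (nat_lit 23) (nat_lit 2) (nat_lit 2) (nat_lit 7) true (nat_lit 4) true (nat_lit 11) true (nat_lit 3) true (nat_lit 16) true (nat_lit 16) (.s true (nat_lit 2) (nat_lit 21) (nat_lit 2) (nat_lit 7) (nat_lit 2) true (nat_lit 11) true (nat_lit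 16) true (nat_lit 3) true (nat_lit 16) true (nat_lit 11) (.s false (nat_lit 2) (nat_lit 22) (nat_lit 2) (nat_lit 7) (nat_lit 2) true (nat_lit 11) true (nat_lit 16) true (nat_lit 3) true (nat_lit 16) true (nat_lit 11) (.s true (nat_lit 3) (nat_lit 23) (nat_lit 2) (nat_lit 7) (nat_lit 2) true (nat_lit 11) true (nat_lit 16) true (nat_lit 3) true (nat_lit 16) true (nat_lit 11) (.s false (nat_lit 3) (nat_lit 21) (nat_lit 7) (nat_lit 2) (nat_lit 2) true (nat_lit 4) true (nat_lit 16) true (nat_lit 3) true (nat_lit 11) true (nat_lit 16) (.s true (nat_lit 3) (nat_lit 26) (nat_lit 1) (nat_lit 2) (nat_lit 7) true (nat_lit 5) true (nat_lit 11) true (nat_lit 2) true (nat_lit 17) true (nat_lit 16) (.s false (nat_lit 1) (nat_lit 27) (nat_lit 1) (nat_lit 2) (nat_lit 7) true (nat_lit 5) true (nat_lit 11) true (nat_lit 2) true (nat_lit 17) true (nat_lit 16) (.s false (nat_lit 2) (nat_lit 29) (nat_lit 1) (nat_lit 2) (nat_lit 7)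 true (nat_lit 5) true (nat_lit 11) true (nat_lit 2) true (nat_lit 17) true (nat_lit 16) (.s true (nat_lit 3) (nat_lit 24) (nat_lit 1) (nat_lit 7) (nat_lit 2) true (nat_lit 12) true (nat_lit 16) true (nat_lit 2) true (nat_lit 17) true (nat_lit 11) (.s true (nat_lit 2) (nat_lit 25) (nat_lit 1) (nat_lit 7) (nat_lit 2) true (nat_lit 12) true (nat_lit 16) true (nat_lit 2) true (nat_lit 17) true (nat_lit 11) (.s false (nat_lit 1) (nat_lit 26) (nat_lit 1) (nat_lit 7) (nat_lit 2) true (nat_lit 12) true (nat_lit 16) true (nat_lit 2) true (nat_lit 17) true (nat_lit 11) (.s false (nat_lit 3) (nat_lit 27) (nat_lit 1) (nat_lit 7) (nat_lit 2) true (nat_lit 12) true (nat_lit 16) true (nat_lit 2) true (nat_lit 17) true (nat_lit 11) (.s false (nat_lit 3) (nat_lit 24) (nat_lit 2) (nat_lit 1) (nat_lit 7) true (nat_lit 4) true (nat_lit 11) true (nat_lit 2) true (nat_lit 16) true (nat_lit 17) (.s true (nat_lit 3) (nat_lit 27) (nat_lit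 2) (nat_lit 1) (nat_lit 7) true (nat_lit 4) true (nat_lit 11) true (nat_lit 2) true (nat_lit 16) true (nat_lit 17) (.s true (nat_lit 1) (nat_lit 29) (nat_lit 2) (nat_lit 1) (nat_lit 7) true (nat_lit 4) true (nat_lit 11) true (nat_lit 2) true (nat_lit 16) true (nat_lit 17) (.s true (nat_lit 2) (nat_lit 26) (nat_lit 2) (nat_lit 2) (nat_lit 6) true (nat_lit 5) true (nat_lit 12) true (nat_lit 2) true (nat_lit 16) true (nat_lit 16) (.s true (nat_lit 2) (nat_lit 27) (nat_lit 2) (nat_lit 2) (nat_lit 6) true (nat_lit 5) true (nat_lit 12) true (nat_lit 2) true (nat_lit 16) true (nat_lit 16) (.s false (nat_lit 1) (nat_lit 29) (nat_lit 2) (nat_lit 2) (nat_lit 6) true (nat_lit 5) true (nat_lit 12) true (nat_lit 2) true (nat_lit 16) true (nat_lit 16) (.s false (nat_lit 2) (nat_lit 25) (nat_lit 2) (nat_lit 6) (nat_lit 2) true (nat_lit 11) true (nat_lit 16) true (nat_lit 2) true (nat_lit 16) true (nat_lit 12) (.s false (nat_lit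 2) (nat_lit 25) (nat_lit 6) (nat_lit 2) (nat_lit 2) true (nat_lit 5) true (nat_lit 16) true (nat_lit 2) true (nat_lit 12) true (nat_lit 16) (.s false (nat_lit 1) (nat_lit 27) (nat_lit 6) (nat_lit 2) (nat_lit 2) true (nat_lit 5) true (nat_lit 16) true (nat_lit 2) true (nat_lit 12) true (nat_lit 16) dC2d_i180)))))))))))))))))))))))))

noncomputable def dC2d_i182 : IL := (.s true (nat_lit 1) (nat_lit 11) (nat_lit 7) (nat_lit 1) (nat_lit 6) false (nat_lit 2) true (nat_lit 12) true (nat_lit 8) true (nat_lit 11) true (nat_lit 17) (.s true (nat_lit 2) (nat_lit 14) (nat_lit 2) (nat_lit 2) (nat_lit 11) true (nat_lit 0) true (nat_lit 8) true (nat_lit 7) true (nat_lit 16) true (nat_lit 16) (.s true (nat_lit 1) (nat_lit 15) (nat_lit 2) (nat_lit 2) (nat_lit 12) true (nat_lit 0) true (nat_lit 8) true (nat_lit 7) true (nat_lit 16) true (nat_lit 16) (.s true (nat_lit 2) (nat_lit 16) (nat_lit 10) (nat_lit 2) (nat_lit 2) true (nat_lit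 1) true (nat_lit 16) true (nat_lit 6) true (nat_lit 9) true (nat_lit 16) (.s false (nat_lit 2) (nat_lit 17) (nat_lit 10) (nat_lit 2) (nat_lit 2) true (nat_lit 1) true (nat_lit 16) true (nat_lit 6) true (nat_lit 9) true (nat_lit 16) (.s true (nat_lit 1) (nat_lit 18) (nat_lit 1) (nat_lit 2) (nat_lit 12) true (nat_lit 2) true (nat_lit 8) true (nat_lit 5) true (nat_lit 17) true (nat_lit 16) (.s true (nat_lit 3) (nat_lit 19) (nat_lit 1) (nat_lit 2) (nat_lit 12) true (nat_lit 2) true (nat_lit 8) true (nat_lit 5) true (nat_lit 17) true (nat_lit 16) (.s false (nat_lit 2) (nat_lit 19) (nat_lit 1) (nat_lit 3) (nat_lit 7) true (nat_lit 5) true (nat_lit 11) true (nat_lit 5) true (nat_lit 17) true (nat_lit 15) (.s false (nat_lit 3) (nat_lit 18) (nat_lit 1) (nat_lit 11) (nat_lit 2) true (nat_lit 12) true (nat_lit 16) true (nat_lit 5) true (nat_lit 17) true (nat_lit 8) (.s false (nat_lit 3) (nat_lit 18) (nat_lit 2) (nat_lit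 1) (nat_lit 11) true (nat_lit 0) true (nat_lit 8) true (nat_lit 5) true (nat_lit 16) true (nat_lit 17) (.s true (nat_lit 2) (nat_lit 18) (nat_lit 2) (nat_lit 2) (nat_lit 8) true (nat_lit 2) true (nat_lit 10) true (nat_lit 5) true (nat_lit 16) true (nat_lit 16) (.s false (nat_lit 1) (nat_lit 19) (nat_lit 2) (nat_lit 2) (nat_lit 8) true (nat_lit 2) true (nat_lit 10) true (nat_lit 5) true (nat_lit 16) true (nat_lit 16) (.s true (nat_lit 3) (nat_lit 19) (nat_lit 2) (nat_lit 3) (nat_lit 6) true (nat_lit 5) true (nat_lit 12) true (nat_lit 5) true (nat_lit 16) true (nat_lit 15) (.s false (nat_lit 3) (nat_lit 18) (nat_lit 2) (nat_lit 11) (nat_lit 1) true (nat_lit 12) true (nat_lit 17) true (nat_lit 5) true (nat_lit 16) true (nat_lit 8) (.s false (nat_lit 2) (nat_lit 18) (nat_lit 8) (nat_lit 2) (nat_lit 2) true (nat_lit 2) true (nat_lit 16) true (nat_lit 5) true (nat_lit 10) true (nat_lit 16) (.s false (nat_lit 2) (nat_lit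 18) (nat_lit 9) (nat_lit 2) (nat_lit 2) true (nat_lit 2) true (nat_lit 16) true (nat_lit 5) true (nat_lit 10) true (nat_lit 16) (.s true (nat_lit 3) (nat_lit 19) (nat_lit 9) (nat_lit 2) (nat_lit 2) true (nat_lit 2) true (nat_lit 16) true (nat_lit 5) true (nat_lit 10) true (nat_lit 16) (.s false (nat_lit 3) (nat_lit 19) (nat_lit 11) (nat_lit 2) (nat_lit 1) true (nat_lit 2) true (nat_lit 17) true (nat_lit 5) true (nat_lit 8) true (nat_lit 16) (.s false (nat_lit 1) (nat_lit 20) (nat_lit 1) (nat_lit 1) (nat_lit 12) true (nat_lit 2) true (nat_lit 8) true (nat_lit 4) true (nat_lit 17) true (nat_lit 17) (.s true (nat_lit 3) (nat_lit 20) (nat_lit 1) (nat_lit 12) (nat_lit 1) true (nat_lit 14) true (nat_lit 17) true (nat_lit 4) true (nat_lit 17) true (nat_lit 8) (.s true (nat_lit 1) (nat_lit 20) (nat_lit 2) (nat_lit 1) (nat_lit 8) true (nat_lit 2) true (nat_lit 10) true (nat_lit 4) true (nat_lit 16) true (nat_lit 17) (.s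 true (nat_lit 3) (nat_lit 20) (nat_lit 2) (nat_lit 4) (nat_lit 3) true (nat_lit 8) true (nat_lit 15) true (nat_lit 4) true (nat_lit 16) true (nat_lit 14) (.s false (nat_lit 2) (nat_lit 20) (nat_lit 2) (nat_lit 8) (nat_lit 1) true (nat_lit 12) true (nat_lit 17) true (nat_lit 4) true (nat_lit 16) true (nat_lit 10) (.s true (nat_lit 3) (nat_lit 20) (nat_lit 3) (nat_lit 2) (nat_lit 4) true (nat_lit 3) true (nat_lit 14) true (nat_lit 4) true (nat_lit 15) true (nat_lit 16) (.s false (nat_lit 3) (nat_lit 20) (nat_lit 8) (nat_lit 1) (nat_lit 2) true (nat_lit 2) true (nat_lit 16) true (nat_lit 4) true (nat_lit 10) true (nat_lit 17) dC2d_i181)))))))))))))))))))))))))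

noncomputable def dC2d_i183 : IL := (.e true (nat_lit 1) (nat_lit 255) (nat_lit 1) (nat_lit 17) (.e true (nat_lit 1) (nat_lit 258) (nat_lit 1) (nat_lit 17) (.e true (nat_lit 3) (nat_lit 211) (nat_lit 2) (nat_lit 16) (.e false (nat_lit 2) (nat_lit 234) (nat_lit 2) (nat_lit 16) (.e true (nat_lit 3) (nat_lit 153) (nat_lit 6) (nat_lit 12) (.e true (nat_lit 3) (nat_lit 131) (nat_lit 7) (nat_lit 11) (.e true (nat_lit 1) (nat_lit 59) (nat_lit 20) (nat_lit 4) (.e false (nat_lit 1) (nat_lit 116) (nat_lit 7) (nat_lit 11) (.e false (nat_lit 3) (nat_lit 128) (nat_lit 7) (nat_lit 11) (.e true (nat_lit 2) (nat_lit 298) (nat_lit 0) (nat_lit 18) (.e true (nat_lit 2) (nat_lit 231) (nat_lit 2) (nat_lit 16) (.e true (nat_lit 1) (nat_lit 232) (nat_lit 2) (nat_lit 16) (.e true (nat_lit 3) (nat_lit 264) (nat_lit 1) (nat_lit 17) (.e true (nat_lit 3) (nat_lit 137) (nat_lit 6) (nat_lit 12) (.e false (nat_lit 2) (nat_lit 303) (nat_lit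 0) (nat_lit 18) (.e false (nat_lit 3) (nat_lit 263) (nat_lit 1) (nat_lit 17) (.e true (nat_lit 2) (nat_lit 289) (nat_lit 0) (nat_lit 18) (.e false (nat_lit 3) (nat_lit 291) (nat_lit 0) (nat_lit 18) (.e true (nat_lit 3) (nat_lit 294) (nat_lit 0) (nat_lit 18) (.e false (nat_lit 2) (nat_lit 295) (nat_lit 0) (nat_lit 18) (.e true (nat_lit 2) (nat_lit 304) (nat_lit 0) (nat_lit 18) (.e false (nat_lit 2) (nat_lit 290) (nat_lit 0) (nat_lit 18) (.e false (nat_lit 2) (nat_lit 296) (nat_lit 0) (nat_lit 18) (.u (nat_lit 2) (.n (nat_lit 0) (nat_lit 2) (.n (nat_lit 1) (nat_lit 1) (.p (nat_lit 2) (nat_lit 6) (.n (nat_lit 3) (nat_lit 6) (.n (nat_lit 5) (nat_lit 2) (.p (nat_lit 6) (nat_lit 2) (.p (nat_lit 7) (nat_lit 3) (.n (nat_lit 8) (nat_lit 4) (.p (nat_lit 9) (nat_lit 1) (.p (nat_lit 11) (nat_lit 3) (.p (nat_lit 12) (nat_lit 5) (.p (nat_lit 14) (nat_lit 7) (.p (nat_lit 15) (nat_lit 5) (.n (nat_lit 16) (nat_lit 1) (.p (nat_lit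 17) (nat_lit 3) (.n (nat_lit 18) (nat_lit 2) (.n (nat_lit 19) (nat_lit 9) (.p (nat_lit 20) (nat_lit 7) (.p (nat_lit 21) (nat_lit 2) (.n (nat_lit 22) (nat_lit 2) (.n (nat_lit 23) (nat_lit 6) (.p (nat_lit 24) (nat_lit 1) (.n (nat_lit 25) (nat_lit 6) (.n (nat_lit 26) (nat_lit 1) (.n (nat_lit 27) (nat_lit 1) (.n (nat_lit 28) (nat_lit 1) (.p (nat_lit 29) (nat_lit 1) (.p (nat_lit 32) (nat_lit 7) (.p (nat_lit 33) (nat_lit 1) (.p (nat_lit 34) (nat_lit 1) (.p (nat_lit 36) (nat_lit 6) (.n (nat_lit 37) (nat_lit 7) (.n (nat_lit 38) (nat_lit 1) (.p (nat_lit 39) (nat_lit 1) (.p (nat_lit 40) (nat_lit 3) (.p (nat_lit 42) (nat_lit 1) (.p (nat_lit 44) (nat_lit 3) (.n (nat_lit 45) (nat_lit 3) (.p (nat_lit 46) (nat_lit 1) (.n (nat_lit 47) (nat_lit 4) (.n (nat_lit 48) (nat_lit 4) (.n (nat_lit 50) (nat_lit 1) (.p (nat_lit 52) (nat_lit 1) (.p (nat_lit 55) (nat_lit 1) (.n (nat_lit 57) (nat_lit 1) (.p (nat_lit 120) (nat_lit 1) (.p (nat_lit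 219) (nat_lit 1) (.n (nat_lit 223) (nat_lit 1) (.n (nat_lit 227) (nat_lit 1) (.n (nat_lit 237) (nat_lit 1) (.n (nat_lit 302) (nat_lit 2) (.n (nat_lit 303) (nat_lit 6) (.n (nat_lit 304) (nat_lit 3) (.n (nat_lit 305) (nat_lit 1) (.n (nat_lit 306) (nat_lit 1) (.p (nat_lit 307) (nat_lit 2) (.n (nat_lit 309) (nat_lit 4) (.n (nat_lit 310) (nat_lit 3) (.p (nat_lit 311) (nat_lit 2) (.p (nat_lit 314) (nat_lit 1) .z)))))))))))))))))))))))))))))))))))))))))))))))))))))))))))) (.u (nat_lit 2) (.n (nat_lit 315) (nat_lit 2) (.n (nat_lit 318) (nat_lit 3) (.n (nat_lit 319) (nat_lit 2) (.n (nat_lit 322) (nat_lit 2) (.p (nat_lit 323) (nat_lit 2) (.p (nat_lit 324) (nat_lit 1) (.p (nat_lit 326) (nat_lit 2) (.n (nat_lit 327) (nat_lit 1) (.n (nat_lit 328) (nat_lit 1) (.n (nat_lit 329) (nat_lit 2) (.n (nat_lit 331) (nat_lit 1) (.n (nat_lit 339) (nat_lit 1) (.n (nat_lit 340) (nat_lit 1) (.p (nat_lit 341) (nat_lit 1) (.n (nat_lit 345)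 (nat_lit 2) (.n (nat_lit 346) (nat_lit 2) (.p (nat_lit 347) (nat_lit 1) (.n (nat_lit 349) (nat_lit 6) (.p (nat_lit 350) (nat_lit 8) (.n (nat_lit 351) (nat_lit 3) (.p (nat_lit 352) (nat_lit 13) (.p (nat_lit 353) (nat_lit 4) (.n (nat_lit 354) (nat_lit 9) (.p (nat_lit 355) (nat_lit 7) (.p (nat_lit 356) (nat_lit 8) (.n (nat_lit 357) (nat_lit 2) (.n (nat_lit 358) (nat_lit 12) (.n (nat_lit 359) (nat_lit 8) (.p (nat_lit 362) (nat_lit 1) (.n (nat_lit 363) (nat_lit 3) (.p (nat_lit 366) (nat_lit 5) (.p (nat_lit 367) (nat_lit 3) (.p (nat_lit 369) (nat_lit 3) (.n (nat_lit 370) (nat_lit 1) (.p (nat_lit 371) (nat_lit 3) (.p (nat_lit 372) (nat_lit 12) (.n (nat_lit 374) (nat_lit 1) (.n (nat_lit 377) (nat_lit 3) (.n (nat_lit 380) (nat_lit 2) (.p (nat_lit 382) (nat_lit 2) (.p (nat_lit 383) (nat_lit 2) (.n (nat_lit 385) (nat_lit 3) (.p (nat_lit 386) (nat_lit 2) (.p (nat_lit 387) (nat_lit 1) (.n (nat_lit 392) (nat_lit 2) (.p (nat_lit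 393) (nat_lit 1) (.n (nat_lit 395) (nat_lit 1) (.p (nat_lit 400) (nat_lit 1) (.n (nat_lit 401) (nat_lit 1) .z))))))))))))))))))))))))))))))))))))))))))))))))) .nil)))))))))))))))))))))))))

noncomputable def dC2d_i184 : IL := (.e false (nat_lit 3) (nat_lit 286) (nat_lit 1) (nat_lit 17) (.e true (nat_lit 1) (nat_lit 205) (nat_lit 2) (nat_lit 16) (.e false (nat_lit 2) (nat_lit 207) (nat_lit 2) (nat_lit 16) (.e false (nat_lit 1) (nat_lit 209) (nat_lit 2) (nat_lit 16) (.e true (nat_lit 1) (nat_lit 218) (nat_lit 2) (nat_lit 16) (.e false (nat_lit 2) (nat_lit 219) (nat_lit 2) (nat_lit 16) (.e false (nat_lit 1) (nat_lit 226) (nat_lit 2) (nat_lit 16) (.e false (nat_lit 1) (nat_lit 242) (nat_lit 2) (nat_lit 16) (.e false (nat_lit 3) (nat_lit 216) (nat_lit 2) (nat_lit 16) (.e false (nat_lit 2) (nat_lit 217) (nat_lit 2) (nat_lit 16) (.e true (nat_lit 1) (nat_lit 248) (nat_lit 2) (nat_lit 16) (.e true (nat_lit 1) (nat_lit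 221) (nat_lit 2) (nat_lit 16) (.e false (nat_lit 3) (nat_lit 251) (nat_lit 2) (nat_lit 16) (.e false (nat_lit 1) (nat_lit 243) (nat_lit 2) (nat_lit 16) (.e true (nat_lit 1) (nat_lit 206) (nat_lit 2) (nat_lit 16) (.e true (nat_lit 3) (nat_lit 244) (nat_lit 2) (nat_lit 16) (.e true (nat_lit 2) (nat_lit 225) (nat_lit 2) (nat_lit 16) (.e true (nat_lit 3) (nat_lit 250) (nat_lit 2) (nat_lit 16) (.e false (nat_lit 3) (nat_lit 122) (nat_lit 7) (nat_lit 11) (.e true (nat_lit 3) (nat_lit 208) (nat_lit 2) (nat_lit 16) (.e true (nat_lit 3) (nat_lit 210) (nat_lit 2) (nat_lit 16) (.e false (nat_lit 1) (nat_lit 212) (nat_lit 2) (nat_lit 16) (.e true (nat_lit 1) (nat_lit 213) (nat_lit 2) (nat_lit 16) (.e false (nat_lit 2) (nat_lit 214) (nat_lit 2) (nat_lit 16) (.e false (nat_lit 2) (nat_lit 249) (nat_lit 2) (nat_lit 16) dC2d_i183)))))))))))))))))))))))))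

noncomputable def dC2d_i185 : IL := (.s true (nat_lit 3) (nat_lit 104) (nat_lit 0) (nat_lit 1) (nat_lit 1) true (nat_lit 15) true (nat_lit 17) false (nat_lit 10) true (nat_lit 18) true (nat_lit 17) (.e true (nat_lit 3) (nat_lit 227) (nat_lit 2) (nat_lit 16) (.e true (nat_lit 3) (nat_lit 245) (nat_lit 2) (nat_lit 16) (.e true (nat_lit 3) (nat_lit 129) (nat_lit 7) (nat_lit 11) (.e false (nat_lit 1) (nat_lit 130) (nat_lit 7) (nat_lit 11) (.e true (nat_lit 3) (nat_lit 247) (nat_lit 2) (nat_lit 16) (.e false (nat_lit 1) (nat_lit 253) (nat_lit 1) (nat_lit 17) (.e true (nat_lit 3) (nat_lit 254) (nat_lit 1) (nat_lit 17) (.e true (nat_lit 1) (nat_lit 256) (nat_lit 1) (nat_lit 17) (.e true (nat_lit 3) (nat_lit 257) (nat_lit 1) (nat_lit 17) (.e true (nat_lit 2) (nat_lit 259) (nat_lit 1) (nat_lit 17) (.e false (nat_lit 2) (nat_lit 260) (nat_lit 1) (nat_lit 17) (.e false (nat_lit 3) (nat_lit 261) (nat_lit 1) (nat_lit 17)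 (.e false (nat_lit 2) (nat_lit 262) (nat_lit 1) (nat_lit 17) (.e true (nat_lit 1) (nat_lit 265) (nat_lit 1) (nat_lit 17) (.e true (nat_lit 2) (nat_lit 269) (nat_lit 1) (nat_lit 17) (.e true (nat_lit 3) (nat_lit 271) (nat_lit 1) (nat_lit 17) (.e false (nat_lit 3) (nat_lit 272) (nat_lit 1) (nat_lit 17) (.e true (nat_lit 2) (nat_lit 273) (nat_lit 1) (nat_lit 17) (.e false (nat_lit 3) (nat_lit 274) (nat_lit 1) (nat_lit 17) (.e false (nat_lit 1) (nat_lit 275) (nat_lit 1) (nat_lit 17) (.e false (nat_lit 3) (nat_lit 276) (nat_lit 1) (nat_lit 17) (.e true (nat_lit 2) (nat_lit 277) (nat_lit 1) (nat_lit 17) (.e true (nat_lit 1) (nat_lit 283) (nat_lit 1) (nat_lit 17) (.e true (nat_lit 2) (nat_lit 285) (nat_lit 1) (nat_lit 17) dC2d_i184)))))))))))))))))))))))))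

noncomputable def dC2d_i186 : IL := (.s false (nat_lit 3) (nat_lit 21) (nat_lit 2) (nat_lit 2) (nat_lit 7) true (nat_lit 4) true (nat_lit 11) true (nat_lit 3) true (nat_lit 16) true (nat_lit 16) (.s true (nat_lit 3) (nat_lit 22) (nat_lit 2) (nat_lit 2) (nat_lit 7) true (nat_lit 4) true (nat_lit 11) true (nat_lit 3) true (nat_lit 16) true (nat_lit 16) (.s false (nat_lit 3) (nat_lit 22) (nat_lit 2) (nat_lit 7) (nat_lit 2) true (nat_lit 11) true (nat_lit 16) true (nat_lit 3) true (nat_lit 16) true (nat_lit 11) (.s false (nat_lit 3) (nat_lit 23) (nat_lit 2) (nat_lit 7) (nat_lit 2) true (nat_lit 11) true (nat_lit 16) true (nat_lit 3) true (nat_lit 16) true (nat_lit 11) (.s false (nat_lit 3) (nat_lit 29) (nat_lit 1) (nat_lit 2) (nat_lit 7) true (nat_lit 5) true (nat_lit 11) true (nat_lit 2) true (nat_lit 17) true (nat_lit 16) (.s true (nat_lit 1) (nat_lit 27) (nat_lit 1) (nat_lit 7) (nat_lit 2) true (nat_lit 12) true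 (nat_lit 16) true (nat_lit 2) true (nat_lit 17) true (nat_lit 11) (.s true (nat_lit 3) (nat_lit 29) (nat_lit 2) (nat_lit 1) (nat_lit 7) true (nat_lit 4) true (nat_lit 11) true (nat_lit 2) true (nat_lit 16) true (nat_lit 17) (.s true (nat_lit 1) (nat_lit 27) (nat_lit 2) (nat_lit 2) (nat_lit 6) true (nat_lit 5) true (nat_lit 12) true (nat_lit 2) true (nat_lit 16) true (nat_lit 16) (.s false (nat_lit 3) (nat_lit 25) (nat_lit 2) (nat_lit 7) (nat_lit 1) true (nat_lit 12) true (nat_lit 17) true (nat_lit 2) true (nat_lit 16) true (nat_lit 11) (.s false (nat_lit 1) (nat_lit 27) (nat_lit 2) (nat_lit 7) (nat_lit 1) true (nat_lit 12) true (nat_lit 17) true (nat_lit 2) true (nat_lit 16) true (nat_lit 11) (.s false (nat_lit 3) (nat_lit 25) (nat_lit 7) (nat_lit 2) (nat_lit 1) true (nat_lit 5) true (nat_lit 17) true (nat_lit 2) true (nat_lit 11) true (nat_lit 16) (.s true (nat_lit 3) (nat_lit 30) (nat_lit 2) (nat_lit 0) (nat_lit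 7) true (nat_lit 4) true (nat_lit 11) true (nat_lit 1) true (nat_lit 16) true (nat_lit 18) (.s true (nat_lit 3) (nat_lit 30) (nat_lit 2) (nat_lit 2) (nat_lit 5) true (nat_lit 6) true (nat_lit 13) true (nat_lit 1) true (nat_lit 16) true (nat_lit 16) (.s false (nat_lit 3) (nat_lit 48) (nat_lit 1) (nat_lit 1) (nat_lit 3) true (nat_lit 10) true (nat_lit 15) false (nat_lit 3) true (nat_lit 17) true (nat_lit 17) (.s true (nat_lit 3) (nat_lit 52) (nat_lit 2) (nat_lit 2) (nat_lit 2) true (nat_lit 11) true (nat_lit 16) false (nat_lit 4) true (nat_lit 16) true (nat_lit 16) (.s true (nat_lit 3) (nat_lit 56) (nat_lit 2) (nat_lit 2) (nat_lit 2) true (nat_lit 11) true (nat_lit 16) false (nat_lit 4) true (nat_lit 16) true (nat_lit 16) (.s false (nat_lit 3) (nat_lit 57) (nat_lit 2) (nat_lit 2) (nat_lit 2) true (nat_lit 11) true (nat_lit 16) false (nat_lit 4) true (nat_lit 16) true (nat_lit 16) (.s false (nat_lit 3) (nat_lit 58)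 (nat_lit 2) (nat_lit 2) (nat_lit 2) true (nat_lit 11) true (nat_lit 16) false (nat_lit 4) true (nat_lit 16) true (nat_lit 16) (.s false (nat_lit 3) (nat_lit 61) (nat_lit 1) (nat_lit 2) (nat_lit 2) true (nat_lit 12) true (nat_lit 16) false (nat_lit 5) true (nat_lit 17) true (nat_lit 16) (.s false (nat_lit 1) (nat_lit 63) (nat_lit 1) (nat_lit 2) (nat_lit 2) true (nat_lit 12) true (nat_lit 16) false (nat_lit 5) true (nat_lit 17) true (nat_lit 16) (.s true (nat_lit 3) (nat_lit 61) (nat_lit 2) (nat_lit 1) (nat_lit 2) true (nat_lit 11) true (nat_lit 16) false (nat_lit 5) true (nat_lit 16) true (nat_lit 17) (.s true (nat_lit 3) (nat_lit 61) (nat_lit 2) (nat_lit 2) (nat_lit 1) true (nat_lit 12) true (nat_lit 17) false (nat_lit 5) true (nat_lit 16) true (nat_lit 16) (.s true (nat_lit 3) (nat_lit 65) (nat_lit 2) (nat_lit 2) (nat_lit 1) true (nat_lit 12) true (nat_lit 17) false (nat_lit 5) true (nat_lit 16) true (nat_lit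 16) (.s false (nat_lit 3) (nat_lit 74) (nat_lit 0) (nat_lit 2) (nat_lit 2) true (nat_lit 13) true (nat_lit 16) false (nat_lit 6) true (nat_lit 18) true (nat_lit 16) (.s true (nat_lit 3) (nat_lit 102) (nat_lit 0) (nat_lit 1) (nat_lit 1) true (nat_lit 15) true (nat_lit 17) false (nat_lit 10) true (nat_lit 18) true (nat_lit 17) dC2d_i185)))))))))))))))))))))))))

noncomputable def dC2d_i187 : IL := (.e false (nat_lit 3) (nat_lit 234) (nat_lit 2) (nat_lit 16) (.e false (nat_lit 1) (nat_lit 250) (nat_lit 2) (nat_lit 16) (.e false (nat_lit 2) (nat_lit 257) (nat_lit 1) (nat_lit 17) (.e false (nat_lit 1) (nat_lit 289) (nat_lit 0) (nat_lit 18) (.e false (nat_lit 2) (nat_lit 290) (nat_lit 0) (nat_lit 18) (.e true (nat_lit 3) (nat_lit 291) (nat_lit 0) (nat_lit 18) (.e true (nat_lit 3) (nat_lit 292) (nat_lit 0) (nat_lit 18) (.e true (nat_lit 1) (nat_lit 294) (nat_lit 0) (nat_lit 18) (.e false (nat_lit 2) (nat_lit 295) (nat_lit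 0) (nat_lit 18) (.e true (nat_lit 1) (nat_lit 297) (nat_lit 0) (nat_lit 18) (.e false (nat_lit 3) (nat_lit 299) (nat_lit 0) (nat_lit 18) (.e true (nat_lit 3) (nat_lit 301) (nat_lit 0) (nat_lit 18) (.e false (nat_lit 2) (nat_lit 303) (nat_lit 0) (nat_lit 18) (.e false (nat_lit 2) (nat_lit 256) (nat_lit 1) (nat_lit 17) (.e true (nat_lit 1) (nat_lit 282) (nat_lit 1) (nat_lit 17) (.e true (nat_lit 1) (nat_lit 275) (nat_lit 1) (nat_lit 17) (.e false (nat_lit 1) (nat_lit 280) (nat_lit 1) (nat_lit 17) (.e false (nat_lit 3) (nat_lit 300) (nat_lit 0) (nat_lit 18) (.e true (nat_lit 1) (nat_lit 296) (nat_lit 0) (nat_lit 18) (.e true (nat_lit 3) (nat_lit 298) (nat_lit 0) (nat_lit 18) (.e false (nat_lit 2) (nat_lit 261) (nat_lit 1) (nat_lit 17) (.u (nat_lit 2) (.p (nat_lit 0) (nat_lit 1) (.n (nat_lit 2) (nat_lit 1) (.n (nat_lit 3) (nat_lit 5) (.p (nat_lit 4) (nat_lit 3) (.n (nat_lit 5) (nat_lit 1) (.n (nat_lit 6) (nat_lit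 1) (.n (nat_lit 7) (nat_lit 1) (.p (nat_lit 8) (nat_lit 1) (.n (nat_lit 9) (nat_lit 1) (.n (nat_lit 10) (nat_lit 1) (.p (nat_lit 11) (nat_lit 3) (.p (nat_lit 12) (nat_lit 1) (.n (nat_lit 16) (nat_lit 1) (.n (nat_lit 17) (nat_lit 1) (.n (nat_lit 19) (nat_lit 1) (.p (nat_lit 20) (nat_lit 1) (.n (nat_lit 23) (nat_lit 2) (.p (nat_lit 24) (nat_lit 1) (.n (nat_lit 25) (nat_lit 3) (.p (nat_lit 26) (nat_lit 1) (.n (nat_lit 27) (nat_lit 2) (.n (nat_lit 28) (nat_lit 2) (.p (nat_lit 29) (nat_lit 1) (.n (nat_lit 31) (nat_lit 1) (.p (nat_lit 32) (nat_lit 2) (.p (nat_lit 33) (nat_lit 2) (.n (nat_lit 34) (nat_lit 2) (.p (nat_lit 35) (nat_lit 3) (.p (nat_lit 36) (nat_lit 1) (.p (nat_lit 37) (nat_lit 1) (.n (nat_lit 38) (nat_lit 2) (.n (nat_lit 39) (nat_lit 3) (.p (nat_lit 40) (nat_lit 1) (.p (nat_lit 45) (nat_lit 2) (.n (nat_lit 47) (nat_lit 1) (.n (nat_lit 48) (nat_lit 2) (.p (nat_lit 57) (nat_lit 1) (.n (nat_lit 78) (nat_lit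 1) (.p (nat_lit 79) (nat_lit 1) (.n (nat_lit 80) (nat_lit 1) (.n (nat_lit 90) (nat_lit 1) (.p (nat_lit 91) (nat_lit 1) (.n (nat_lit 93) (nat_lit 1) (.p (nat_lit 94) (nat_lit 1) (.p (nat_lit 97) (nat_lit 1) (.p (nat_lit 99) (nat_lit 1) (.n (nat_lit 100) (nat_lit 1) (.p (nat_lit 109) (nat_lit 1) (.n (nat_lit 110) (nat_lit 1) (.p (nat_lit 115) (nat_lit 1) (.n (nat_lit 116) (nat_lit 1) (.p (nat_lit 118) (nat_lit 1) (.p (nat_lit 121) (nat_lit 1) (.p (nat_lit 122) (nat_lit 1) (.p (nat_lit 123) (nat_lit 1) (.n (nat_lit 124) (nat_lit 1) (.p (nat_lit 126) (nat_lit 1) (.n (nat_lit 127) (nat_lit 1) (.n (nat_lit 133) (nat_lit 1) (.p (nat_lit 138) (nat_lit 1) .z)))))))))))))))))))))))))))))))))))))))))))))))))))))))))))) (.u (nat_lit 2) (.n (nat_lit 140) (nat_lit 1) (.p (nat_lit 147) (nat_lit 1) (.n (nat_lit 149) (nat_lit 1) (.n (nat_lit 183) (nat_lit 1) (.p (nat_lit 184) (nat_lit 1) (.p (nat_lit 185) (nat_lit 1) (.n (nat_lit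 187) (nat_lit 1) (.p (nat_lit 188) (nat_lit 1) (.n (nat_lit 202) (nat_lit 1) (.p (nat_lit 204) (nat_lit 1) (.n (nat_lit 206) (nat_lit 2) (.p (nat_lit 207) (nat_lit 1) (.p (nat_lit 210) (nat_lit 1) (.n (nat_lit 211) (nat_lit 1) (.p (nat_lit 213) (nat_lit 3) (.n (nat_lit 214) (nat_lit 3) (.n (nat_lit 215) (nat_lit 4) (.n (nat_lit 216) (nat_lit 5) (.p (nat_lit 217) (nat_lit 2) (.n (nat_lit 219) (nat_lit 3) (.n (nat_lit 220) (nat_lit 1) (.p (nat_lit 221) (nat_lit 3) (.p (nat_lit 222) (nat_lit 1) (.n (nat_lit 223) (nat_lit 1) (.p (nat_lit 224) (nat_lit 8) (.n (nat_lit 225) (nat_lit 4) (.p (nat_lit 226) (nat_lit 4) (.p (nat_lit 227) (nat_lit 2) (.p (nat_lit 229) (nat_lit 2) (.n (nat_lit 230) (nat_lit 6) (.p (nat_lit 232) (nat_lit 1) (.p (nat_lit 233) (nat_lit 1) (.n (nat_lit 234) (nat_lit 8) (.n (nat_lit 235) (nat_lit 2) (.n (nat_lit 236) (nat_lit 1) (.p (nat_lit 238) (nat_lit 1) (.n (nat_lit 239) (nat_lit 2) (.p (nat_lit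 240) (nat_lit 2) (.n (nat_lit 242) (nat_lit 2) (.n (nat_lit 243) (nat_lit 1) (.p (nat_lit 244) (nat_lit 2) (.p (nat_lit 245) (nat_lit 2) (.p (nat_lit 247) (nat_lit 1) (.n (nat_lit 248) (nat_lit 4) (.n (nat_lit 249) (nat_lit 1) (.p (nat_lit 251) (nat_lit 1) (.n (nat_lit 252) (nat_lit 1) (.p (nat_lit 256) (nat_lit 2) (.p (nat_lit 257) (nat_lit 4) (.n (nat_lit 258) (nat_lit 2) (.n (nat_lit 259) (nat_lit 3) (.n (nat_lit 260) (nat_lit 2) (.n (nat_lit 261) (nat_lit 1) (.p (nat_lit 264) (nat_lit 2) (.p (nat_lit 277) (nat_lit 1) (.n (nat_lit 278) (nat_lit 1) (.n (nat_lit 279) (nat_lit 1) (.n (nat_lit 281) (nat_lit 1) (.n (nat_lit 292) (nat_lit 2) (.n (nat_lit 293) (nat_lit 1) .z)))))))))))))))))))))))))))))))))))))))))))))))))))))))))))) (.u (nat_lit 2) (.p (nat_lit 294) (nat_lit 1) (.n (nat_lit 295) (nat_lit 2) (.p (nat_lit 296) (nat_lit 1) (.p (nat_lit 297) (nat_lit 2) (.p (nat_lit 299) (nat_lit 1) (.n (nat_lit 300)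 (nat_lit 1) (.p (nat_lit 302) (nat_lit 8) (.n (nat_lit 303) (nat_lit 3) (.p (nat_lit 305) (nat_lit 8) (.n (nat_lit 306) (nat_lit 4) (.p (nat_lit 307) (nat_lit 5) (.p (nat_lit 308) (nat_lit 13) (.n (nat_lit 309) (nat_lit 4) (.p (nat_lit 310) (nat_lit 5) (.n (nat_lit 312) (nat_lit 1) (.p (nat_lit 313) (nat_lit 6) (.p (nat_lit 314) (nat_lit 5) (.p (nat_lit 315) (nat_lit 5) (.n (nat_lit 316) (nat_lit 13) (.n (nat_lit 317) (nat_lit 1) (.p (nat_lit 318) (nat_lit 19) (.p (nat_lit 319) (nat_lit 11) (.p (nat_lit 322) (nat_lit 3) (.n (nat_lit 323) (nat_lit 8) (.p (nat_lit 324) (nat_lit 6) (.n (nat_lit 325) (nat_lit 5) (.p (nat_lit 326) (nat_lit 2) (.p (nat_lit 327) (nat_lit 3) (.p (nat_lit 328) (nat_lit 2) (.n (nat_lit 329) (nat_lit 1) (.n (nat_lit 330) (nat_lit 1) (.p (nat_lit 331) (nat_lit 6) (.p (nat_lit 332) (nat_lit 1) (.n (nat_lit 333) (nat_lit 1) (.p (nat_lit 334) (nat_lit 1) (.n (nat_lit 335) (nat_lit 3) (.p (nat_lit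 338) (nat_lit 1) (.p (nat_lit 339) (nat_lit 6) (.p (nat_lit 340) (nat_lit 5) (.p (nat_lit 341) (nat_lit 5) (.n (nat_lit 342) (nat_lit 8) (.n (nat_lit 343) (nat_lit 3) (.n (nat_lit 344) (nat_lit 3) (.n (nat_lit 345) (nat_lit 3) (.p (nat_lit 346) (nat_lit 4) (.p (nat_lit 347) (nat_lit 3) (.p (nat_lit 348) (nat_lit 1) (.p (nat_lit 349) (nat_lit 8) (.n (nat_lit 350) (nat_lit 33) (.p (nat_lit 351) (nat_lit 14) (.n (nat_lit 352) (nat_lit 18) (.n (nat_lit 353) (nat_lit 8) (.p (nat_lit 354) (nat_lit 5) (.n (nat_lit 355) (nat_lit 36) (.n (nat_lit 356) (nat_lit 20) (.p (nat_lit 357) (nat_lit 23) (.p (nat_lit 358) (nat_lit 3) (.n (nat_lit 359) (nat_lit 13) (.p (nat_lit 360) (nat_lit 15) (.n (nat_lit 361) (nat_lit 17) .z)))))))))))))))))))))))))))))))))))))))))))))))))))))))))))) (.u (nat_lit 2) (.p (nat_lit 362) (nat_lit 18) (.n (nat_lit 363) (nat_lit 20) (.p (nat_lit 364) (nat_lit 2) (.p (nat_lit 365) (nat_lit 2) (.n (nat_lit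 366) (nat_lit 21) (.n (nat_lit 367) (nat_lit 16) (.n (nat_lit 368) (nat_lit 10) (.p (nat_lit 369) (nat_lit 8) (.n (nat_lit 370) (nat_lit 10) (.p (nat_lit 371) (nat_lit 1) (.n (nat_lit 372) (nat_lit 9) (.n (nat_lit 373) (nat_lit 4) (.p (nat_lit 374) (nat_lit 11) (.p (nat_lit 375) (nat_lit 2) (.p (nat_lit 376) (nat_lit 7) (.p (nat_lit 377) (nat_lit 2) (.p (nat_lit 378) (nat_lit 2) (.p (nat_lit 379) (nat_lit 7) (.p (nat_lit 380) (nat_lit 9) (.n (nat_lit 382) (nat_lit 9) (.n (nat_lit 383) (nat_lit 10) (.p (nat_lit 385) (nat_lit 10) (.n (nat_lit 386) (nat_lit 2) (.p (nat_lit 387) (nat_lit 3) (.p (nat_lit 388) (nat_lit 1) (.p (nat_lit 389) (nat_lit 1) (.n (nat_lit 390) (nat_lit 3) (.p (nat_lit 393) (nat_lit 4) (.p (nat_lit 394) (nat_lit 2) (.n (nat_lit 395) (nat_lit 2) (.p (nat_lit 397) (nat_lit 2) (.n (nat_lit 398) (nat_lit 2) (.n (nat_lit 399) (nat_lit 1) (.p (nat_lit 400) (nat_lit 4) (.n (nat_lit 401) (nat_lit 4)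 .z))))))))))))))))))))))))))))))))))) .nil)))))))))))))))))))))))))

noncomputable def dC2d_i188 : IL := (.e false (nat_lit 1) (nat_lit 207) (nat_lit 2) (nat_lit 16) (.e true (nat_lit 3) (nat_lit 209) (nat_lit 2) (nat_lit 16) (.e true (nat_lit 3) (nat_lit 213) (nat_lit 2) (nat_lit 16) (.e true (nat_lit 2) (nat_lit 206) (nat_lit 2) (nat_lit 16) (.e true (nat_lit 2) (nat_lit 252) (nat_lit 1) (nat_lit 17) (.e true (nat_lit 3) (nat_lit 253) (nat_lit 1) (nat_lit 17) (.e false (nat_lit 1) (nat_lit 254) (nat_lit 1) (nat_lit 17) (.e true (nat_lit 2) (nat_lit 265) (nat_lit 1) (nat_lit 17) (.e true (nat_lit 2) (nat_lit 267) (nat_lit 1) (nat_lit 17) (.e false (nat_lit 1) (nat_lit 269) (nat_lit 1) (nat_lit 17) (.e false (nat_lit 1) (nat_lit 270) (nat_lit 1) (nat_lit 17) (.e false (nat_lit 2) (nat_lit 271) (nat_lit 1) (nat_lit 17) (.e true (nat_lit 2) (nat_lit 272) (nat_lit 1) (nat_lit 17) (.e true (nat_lit 1) (nat_lit 273)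 (nat_lit 1) (nat_lit 17) (.e true (nat_lit 2) (nat_lit 276) (nat_lit 1) (nat_lit 17) (.e false (nat_lit 1) (nat_lit 255) (nat_lit 1) (nat_lit 17) (.e false (nat_lit 3) (nat_lit 262) (nat_lit 1) (nat_lit 17) (.e true (nat_lit 2) (nat_lit 266) (nat_lit 1) (nat_lit 17) (.e false (nat_lit 1) (nat_lit 212) (nat_lit 2) (nat_lit 16) (.e true (nat_lit 1) (nat_lit 246) (nat_lit 2) (nat_lit 16) (.e true (nat_lit 1) (nat_lit 210) (nat_lit 2) (nat_lit 16) (.e false (nat_lit 1) (nat_lit 218) (nat_lit 2) (nat_lit 16) (.e true (nat_lit 2) (nat_lit 229) (nat_lit 2) (nat_lit 16) (.e true (nat_lit 1) (nat_lit 230) (nat_lit 2) (nat_lit 16) (.e false (nat_lit 1) (nat_lit 233) (nat_lit 2) (nat_lit 16) dC2d_i187)))))))))))))))))))))))))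

noncomputable def dC2d_i189 : IL := (.s false (nat_lit 2) (nat_lit 79) (nat_lit 2) (nat_lit 0) (nat_lit 2) true (nat_lit 11) true (nat_lit 16) false (nat_lit 6) true (nat_lit 16) true (nat_lit 18) (.s true (nat_lit 2) (nat_lit 88) (nat_lit 1) (nat_lit 1) (nat_lit 2) true (nat_lit 12) true (nat_lit 16) false (nat_lit 7) true (nat_lit 17) true (nat_lit 17) (.s true (nat_lit 1) (nat_lit 80) (nat_lit 1) (nat_lit 2) (nat_lit 1) true (nat_lit 14) true (nat_lit 17) false (nat_lit 7) true (nat_lit 17) true (nat_lit 16) (.s false (nat_lit 1) (nat_lit 80) (nat_lit 2) (nat_lit 1) (nat_lit 1) true (nat_lit 12) true (nat_lit 17) false (nat_lit 7) true (nat_lit 16) true (nat_lit 17) (.s false (nat_lit 1) (nat_lit 88) (nat_lit 2) (nat_lit 1) (nat_lit 1) true (nat_lit 12) true (nat_lit 17) false (nat_lit 7) true (nat_lit 16) true (nat_lit 17) (.s false (nat_lit 2) (nat_lit 93) (nat_lit 0) (nat_lit 1) (nat_lit 2) true (nat_lit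 13) true (nat_lit 16) false (nat_lit 8) true (nat_lit 18) true (nat_lit 17) (.s false (nat_lit 2) (nat_lit 93) (nat_lit 0) (nat_lit 2) (nat_lit 1) true (nat_lit 15) true (nat_lit 17) false (nat_lit 8) true (nat_lit 18) true (nat_lit 16) (.s false (nat_lit 3) (nat_lit 92) (nat_lit 1) (nat_lit 0) (nat_lit 2) true (nat_lit 12) true (nat_lit 16) false (nat_lit 8) true (nat_lit 17) true (nat_lit 18) (.s false (nat_lit 1) (nat_lit 96) (nat_lit 1) (nat_lit 0) (nat_lit 2) true (nat_lit 12) true (nat_lit 16) false (nat_lit 8) true (nat_lit 17) true (nat_lit 18) (.s true (nat_lit 3) (nat_lit 92) (nat_lit 1) (nat_lit 2) (nat_lit 0) true (nat_lit 15) true (nat_lit 18) false (nat_lit 8) true (nat_lit 17) true (nat_lit 16) (.s false (nat_lit 2) (nat_lit 93) (nat_lit 1) (nat_lit 2) (nat_lit 0) true (nat_lit 15) true (nat_lit 18) false (nat_lit 8) true (nat_lit 17) true (nat_lit 16) (.s false (nat_lit 2) (nat_lit 93) (nat_lit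 2) (nat_lit 0) (nat_lit 1) true (nat_lit 12) true (nat_lit 17) false (nat_lit 8) true (nat_lit 16) true (nat_lit 18) (.s true (nat_lit 2) (nat_lit 93) (nat_lit 2) (nat_lit 1) (nat_lit 0) true (nat_lit 13) true (nat_lit 18) false (nat_lit 8) true (nat_lit 16) true (nat_lit 17) (.s true (nat_lit 3) (nat_lit 101) (nat_lit 0) (nat_lit 1) (nat_lit 1) true (nat_lit 15) true (nat_lit 17) false (nat_lit 10) true (nat_lit 18) true (nat_lit 17) (.s false (nat_lit 2) (nat_lit 102) (nat_lit 0) (nat_lit 1) (nat_lit 1) true (nat_lit 15) true (nat_lit 17) false (nat_lit 10) true (nat_lit 18) true (nat_lit 17) (.s false (nat_lit 2) (nat_lit 101) (nat_lit 1) (nat_lit 1) (nat_lit 0) true (nat_lit 15) true (nat_lit 18) false (nat_lit 10) true (nat_lit 17) true (nat_lit 17) (.s true (nat_lit 3) (nat_lit 102) (nat_lit 1) (nat_lit 1) (nat_lit 0) true (nat_lit 15) true (nat_lit 18) false (nat_lit 10) true (nat_lit 17) true (nat_lit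 17) (.s true (nat_lit 3) (nat_lit 104) (nat_lit 1) (nat_lit 1) (nat_lit 0) true (nat_lit 15) true (nat_lit 18) false (nat_lit 10) true (nat_lit 17) true (nat_lit 17) (.e true (nat_lit 2) (nat_lit 129) (nat_lit 7) (nat_lit 11) (.e true (nat_lit 1) (nat_lit 134) (nat_lit 6) (nat_lit 12) (.e false (nat_lit 2) (nat_lit 155) (nat_lit 6) (nat_lit 12) (.e true (nat_lit 2) (nat_lit 227) (nat_lit 2) (nat_lit 16) (.e true (nat_lit 2) (nat_lit 208) (nat_lit 2) (nat_lit 16) (.e false (nat_lit 1) (nat_lit 216) (nat_lit 2) (nat_lit 16) (.e false (nat_lit 1) (nat_lit 205) (nat_lit 2) (nat_lit 16) dC2d_i188)))))))))))))))))))))))))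

noncomputable def dC2d_i190 : IL := (.s false (nat_lit 3) (nat_lit 66) (nat_lit 1) (nat_lit 2) (nat_lit 2) true (nat_lit 12) true (nat_lit 16) false (nat_lit 5) true (nat_lit 17) true (nat_lit 16) (.s true (nat_lit 1) (nat_lit 67) (nat_lit 1) (nat_lit 2) (nat_lit 2) true (nat_lit 12) true (nat_lit 16) false (nat_lit 5) true (nat_lit 17) true (nat_lit 16) (.s false (nat_lit 2) (nat_lit 68) (nat_lit 1) (nat_lit 2) (nat_lit 2) true (nat_lit 12) true (nat_lit 16) false (nat_lit 5) true (nat_lit 17) true (nat_lit 16) (.s false (nat_lit 1) (nat_lit 69) (nat_lit 1) (nat_lit 2) (nat_lit 2) true (nat_lit 12) true (nat_lit 16) false (nat_lit 5) true (nat_lit 17) true (nat_lit 16) (.s false (nat_lit 3) (nat_lit 71) (nat_lit 1) (nat_lit 2) (nat_lit 2) true (nat_lit 12) true (nat_lit 16) false (nat_lit 5) true (nat_lit 17) true (nat_lit 16) (.s false (nat_lit 2) (nat_lit 72) (nat_lit 1) (nat_lit 2) (nat_lit 2) true (nat_lit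 12) true (nat_lit 16) false (nat_lit 5) true (nat_lit 17) true (nat_lit 16) (.s false (nat_lit 2) (nat_lit 73) (nat_lit 1) (nat_lit 2) (nat_lit 2) true (nat_lit 12) true (nat_lit 16) false (nat_lit 5) true (nat_lit 17) true (nat_lit 16) (.s true (nat_lit 1) (nat_lit 62) (nat_lit 2) (nat_lit 1) (nat_lit 2) true (nat_lit 11) true (nat_lit 16) false (nat_lit 5) true (nat_lit 16) true (nat_lit 17) (.s false (nat_lit 1) (nat_lit 63) (nat_lit 2) (nat_lit 1) (nat_lit 2) true (nat_lit 11) true (nat_lit 16) false (nat_lit 5) true (nat_lit 16) true (nat_lit 17) (.s true (nat_lit 2) (nat_lit 64) (nat_lit 2) (nat_lit 1) (nat_lit 2) true (nat_lit 11) true (nat_lit 16) false (nat_lit 5) true (nat_lit 16) true (nat_lit 17) (.s true (nat_lit 3) (nat_lit 65) (nat_lit 2) (nat_lit 1) (nat_lit 2) true (nat_lit 11) true (nat_lit 16) false (nat_lit 5) true (nat_lit 16) true (nat_lit 17) (.s true (nat_lit 1) (nat_lit 66) (nat_lit 2)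 (nat_lit 1) (nat_lit 2) true (nat_lit 11) true (nat_lit 16) false (nat_lit 5) true (nat_lit 16) true (nat_lit 17) (.s false (nat_lit 1) (nat_lit 69) (nat_lit 2) (nat_lit 1) (nat_lit 2) true (nat_lit 11) true (nat_lit 16) false (nat_lit 5) true (nat_lit 16) true (nat_lit 17) (.s false (nat_lit 2) (nat_lit 70) (nat_lit 2) (nat_lit 1) (nat_lit 2) true (nat_lit 11) true (nat_lit 16) false (nat_lit 5) true (nat_lit 16) true (nat_lit 17) (.s false (nat_lit 3) (nat_lit 72) (nat_lit 2) (nat_lit 1) (nat_lit 2) true (nat_lit 11) true (nat_lit 16) false (nat_lit 5) true (nat_lit 16) true (nat_lit 17) (.s true (nat_lit 1) (nat_lit 73) (nat_lit 2) (nat_lit 1) (nat_lit 2) true (nat_lit 11) true (nat_lit 16) false (nat_lit 5) true (nat_lit 16) true (nat_lit 17) (.s false (nat_lit 3) (nat_lit 60) (nat_lit 2) (nat_lit 2) (nat_lit 1) true (nat_lit 12) true (nat_lit 17) false (nat_lit 5) true (nat_lit 16) true (nat_lit 16) (.s true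 (nat_lit 1) (nat_lit 61) (nat_lit 2) (nat_lit 2) (nat_lit 1) true (nat_lit 12) true (nat_lit 17) false (nat_lit 5) true (nat_lit 16) true (nat_lit 16) (.s false (nat_lit 1) (nat_lit 62) (nat_lit 2) (nat_lit 2) (nat_lit 1) true (nat_lit 12) true (nat_lit 17) false (nat_lit 5) true (nat_lit 16) true (nat_lit 16) (.s false (nat_lit 2) (nat_lit 65) (nat_lit 2) (nat_lit 2) (nat_lit 1) true (nat_lit 12) true (nat_lit 17) false (nat_lit 5) true (nat_lit 16) true (nat_lit 16) (.s true (nat_lit 1) (nat_lit 66) (nat_lit 2) (nat_lit 2) (nat_lit 1) true (nat_lit 12) true (nat_lit 17) false (nat_lit 5) true (nat_lit 16) true (nat_lit 16) (.s true (nat_lit 2) (nat_lit 69) (nat_lit 2) (nat_lit 2) (nat_lit 1) true (nat_lit 12) true (nat_lit 17) false (nat_lit 5) true (nat_lit 16) true (nat_lit 16) (.s true (nat_lit 3) (nat_lit 72) (nat_lit 2) (nat_lit 2) (nat_lit 1) true (nat_lit 12) true (nat_lit 17) false (nat_lit 5) true (nat_lit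 16) true (nat_lit 16) (.s true (nat_lit 1) (nat_lit 74) (nat_lit 0) (nat_lit 2) (nat_lit 2) true (nat_lit 13) true (nat_lit 16) false (nat_lit 6) true (nat_lit 18) true (nat_lit 16) (.s true (nat_lit 1) (nat_lit 79) (nat_lit 0) (nat_lit 2) (nat_lit 2) true (nat_lit 13) true (nat_lit 16) false (nat_lit 6) true (nat_lit 18) true (nat_lit 16) dC2d_i189)))))))))))))))))))))))))

noncomputable def dC2d_i191 : IL := (.s true (nat_lit 2) (nat_lit 34) (nat_lit 6) (nat_lit 1) (nat_lit 2) true (nat_lit 5) true (nat_lit 16) true (nat_lit 0) true (nat_lit 12) true (nat_lit 17) (.s true (nat_lit 2) (nat_lit 40) (nat_lit 2) (nat_lit 3) (nat_lit 2) true (nat_lit 11) true (nat_lit 16) false (nat_lit 0) true (nat_lit 16) true (nat_lit 15) (.s true (nat_lit 2) (nat_lit 39) (nat_lit 3) (nat_lit 2) (nat_lit 2) true (nat_lit 8) true (nat_lit 16) false (nat_lit 0) true (nat_lit 15) true (nat_lit 16) (.s false (nat_lit 3) (nat_lit 40)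 (nat_lit 6) (nat_lit 2) (nat_lit 0) true (nat_lit 8) true (nat_lit 18) false (nat_lit 0) true (nat_lit 12) true (nat_lit 16) (.s false (nat_lit 1) (nat_lit 47) (nat_lit 0) (nat_lit 6) (nat_lit 1) true (nat_lit 15) true (nat_lit 17) false (nat_lit 2) true (nat_lit 18) true (nat_lit 12) (.s true (nat_lit 3) (nat_lit 46) (nat_lit 1) (nat_lit 2) (nat_lit 3) true (nat_lit 10) true (nat_lit 15) false (nat_lit 2) true (nat_lit 17) true (nat_lit 16) (.s true (nat_lit 1) (nat_lit 46) (nat_lit 1) (nat_lit 3) (nat_lit 2) true (nat_lit 12) true (nat_lit 16) false (nat_lit 2) true (nat_lit 17) true (nat_lit 15) (.s false (nat_lit 2) (nat_lit 45) (nat_lit 2) (nat_lit 3) (nat_lit 1) true (nat_lit 12) true (nat_lit 17) false (nat_lit 2) true (nat_lit 16) true (nat_lit 15) (.s true (nat_lit 3) (nat_lit 47) (nat_lit 2) (nat_lit 3) (nat_lit 1) true (nat_lit 12) true (nat_lit 17) false (nat_lit 2) true (nat_lit 16) true (nat_lit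 15) (.s false (nat_lit 1) (nat_lit 45) (nat_lit 3) (nat_lit 1) (nat_lit 2) true (nat_lit 8) true (nat_lit 16) false (nat_lit 2) true (nat_lit 15) true (nat_lit 17) (.s true (nat_lit 2) (nat_lit 46) (nat_lit 3) (nat_lit 2) (nat_lit 1) true (nat_lit 10) true (nat_lit 17) false (nat_lit 2) true (nat_lit 15) true (nat_lit 16) (.s false (nat_lit 2) (nat_lit 47) (nat_lit 5) (nat_lit 1) (nat_lit 1) true (nat_lit 8) true (nat_lit 17) false (nat_lit 2) true (nat_lit 13) true (nat_lit 17) (.s true (nat_lit 3) (nat_lit 48) (nat_lit 0) (nat_lit 4) (nat_lit 1) true (nat_lit 15) true (nat_lit 17) false (nat_lit 3) true (nat_lit 18) true (nat_lit 14) (.s true (nat_lit 3) (nat_lit 48) (nat_lit 1) (nat_lit 0) (nat_lit 4) true (nat_lit 9) true (nat_lit 14) false (nat_lit 3) true (nat_lit 17) true (nat_lit 18) (.s true (nat_lit 1) (nat_lit 48) (nat_lit 3) (nat_lit 1) (nat_lit 1) true (nat_lit 10) true (nat_lit 17) false (nat_lit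 3) true (nat_lit 15) true (nat_lit 17) (.s false (nat_lit 1) (nat_lit 48) (nat_lit 4) (nat_lit 0) (nat_lit 1) true (nat_lit 9) true (nat_lit 17) false (nat_lit 3) true (nat_lit 14) true (nat_lit 18) (.s true (nat_lit 3) (nat_lit 52) (nat_lit 2) (nat_lit 2) (nat_lit 2) true (nat_lit 11) true (nat_lit 16) false (nat_lit 4) true (nat_lit 16) true (nat_lit 16) (.s false (nat_lit 1) (nat_lit 53) (nat_lit 2) (nat_lit 2) (nat_lit 2) true (nat_lit 11) true (nat_lit 16) false (nat_lit 4) true (nat_lit 16) true (nat_lit 16) (.s false (nat_lit 2) (nat_lit 54) (nat_lit 2) (nat_lit 2) (nat_lit 2) true (nat_lit 11) true (nat_lit 16) false (nat_lit 4) true (nat_lit 16) true (nat_lit 16) (.s false (nat_lit 3) (nat_lit 55) (nat_lit 2) (nat_lit 2) (nat_lit 2) true (nat_lit 11) true (nat_lit 16) false (nat_lit 4) true (nat_lit 16) true (nat_lit 16) (.s true (nat_lit 2) (nat_lit 57) (nat_lit 2) (nat_lit 2) (nat_lit 2) true (nat_lit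 11) true (nat_lit 16) false (nat_lit 4) true (nat_lit 16) true (nat_lit 16) (.s true (nat_lit 2) (nat_lit 59) (nat_lit 2) (nat_lit 2) (nat_lit 2) true (nat_lit 11) true (nat_lit 16) false (nat_lit 4) true (nat_lit 16) true (nat_lit 16) (.s true (nat_lit 3) (nat_lit 62) (nat_lit 1) (nat_lit 2) (nat_lit 2) true (nat_lit 12) true (nat_lit 16) false (nat_lit 5) true (nat_lit 17) true (nat_lit 16) (.s false (nat_lit 1) (nat_lit 63) (nat_lit 1) (nat_lit 2) (nat_lit 2) true (nat_lit 12) true (nat_lit 16) false (nat_lit 5) true (nat_lit 17) true (nat_lit 16) (.s true (nat_lit 1) (nat_lit 64) (nat_lit 1) (nat_lit 2) (nat_lit 2) true (nat_lit 12) true (nat_lit 16) false (nat_lit 5) true (nat_lit 17) true (nat_lit 16) dC2d_i190)))))))))))))))))))))))))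

noncomputable def dC2d_i192 : IL := (.s false (nat_lit 1) (nat_lit 24) (nat_lit 2) (nat_lit 1) (nat_lit 7) true (nat_lit 4) true (nat_lit 11) true (nat_lit 2) true (nat_lit 16) true (nat_lit 17) (.s false (nat_lit 1) (nat_lit 25) (nat_lit 2) (nat_lit 1) (nat_lit 7) true (nat_lit 4) true (nat_lit 11) true (nat_lit 2) true (nat_lit 16) true (nat_lit 17) (.s true (nat_lit 1) (nat_lit 28) (nat_lit 2) (nat_lit 1) (nat_lit 7) true (nat_lit 4) true (nat_lit 11) true (nat_lit 2) true (nat_lit 16) true (nat_lit 17) (.s true (nat_lit 1) (nat_lit 29) (nat_lit 2) (nat_lit 1) (nat_lit 7) true (nat_lit 4) true (nat_lit 11) true (nat_lit 2) true (nat_lit 16) true (nat_lit 17) (.s true (nat_lit 3) (nat_lit 24) (nat_lit 2) (nat_lit 2) (nat_lit 6) true (nat_lit 5) true (nat_lit 12) true (nat_lit 2) true (nat_lit 16) true (nat_lit 16) (.s true (nat_lit 3) (nat_lit 25) (nat_lit 2) (nat_lit 2) (nat_lit 6) true (nat_lit 5) true (nat_lit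 12) true (nat_lit 2) true (nat_lit 16) true (nat_lit 16) (.s true (nat_lit 2) (nat_lit 26) (nat_lit 2) (nat_lit 2) (nat_lit 6) true (nat_lit 5) true (nat_lit 12) true (nat_lit 2) true (nat_lit 16) true (nat_lit 16) (.s true (nat_lit 1) (nat_lit 27) (nat_lit 2) (nat_lit 2) (nat_lit 6) true (nat_lit 5) true (nat_lit 12) true (nat_lit 2) true (nat_lit 16) true (nat_lit 16) (.s false (nat_lit 3) (nat_lit 29) (nat_lit 2) (nat_lit 2) (nat_lit 6) true (nat_lit 5) true (nat_lit 12) true (nat_lit 2) true (nat_lit 16) true (nat_lit 16) (.s true (nat_lit 2) (nat_lit 25) (nat_lit 2) (nat_lit 6) (nat_lit 2) true (nat_lit 11) true (nat_lit 16) true (nat_lit 2) true (nat_lit 16) true (nat_lit 12) (.s false (nat_lit 1) (nat_lit 24) (nat_lit 6) (nat_lit 2) (nat_lit 2) true (nat_lit 5) true (nat_lit 16) true (nat_lit 2) true (nat_lit 12) true (nat_lit 16) (.s true (nat_lit 1) (nat_lit 26) (nat_lit 6) (nat_lit 2) (nat_lit 2) true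 (nat_lit 5) true (nat_lit 16) true (nat_lit 2) true (nat_lit 12) true (nat_lit 16) (.s false (nat_lit 2) (nat_lit 27) (nat_lit 6) (nat_lit 2) (nat_lit 2) true (nat_lit 5) true (nat_lit 16) true (nat_lit 2) true (nat_lit 12) true (nat_lit 16) (.s true (nat_lit 1) (nat_lit 28) (nat_lit 7) (nat_lit 1) (nat_lit 2) true (nat_lit 4) true (nat_lit 16) true (nat_lit 2) true (nat_lit 11) true (nat_lit 17) (.s false (nat_lit 1) (nat_lit 25) (nat_lit 7) (nat_lit 2) (nat_lit 1) true (nat_lit 5) true (nat_lit 17) true (nat_lit 2) true (nat_lit 11) true (nat_lit 16) (.s true (nat_lit 1) (nat_lit 30) (nat_lit 0) (nat_lit 2) (nat_lit 7) true (nat_lit 6) true (nat_lit 11) true (nat_lit 1) true (nat_lit 18) true (nat_lit 16) (.s false (nat_lit 1) (nat_lit 30) (nat_lit 2) (nat_lit 2) (nat_lit 5) true (nat_lit 6) true (nat_lit 13) true (nat_lit 1) true (nat_lit 16) true (nat_lit 16) (.s false (nat_lit 2) (nat_lit 30) (nat_lit 2)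 (nat_lit 7) (nat_lit 0) true (nat_lit 13) true (nat_lit 18) true (nat_lit 1) true (nat_lit 16) true (nat_lit 11) (.s true (nat_lit 3) (nat_lit 30) (nat_lit 5) (nat_lit 2) (nat_lit 2) true (nat_lit 6) true (nat_lit 16) true (nat_lit 1) true (nat_lit 13) true (nat_lit 16) (.s false (nat_lit 1) (nat_lit 33) (nat_lit 1) (nat_lit 1) (nat_lit 7) true (nat_lit 5) true (nat_lit 11) true (nat_lit 0) true (nat_lit 17) true (nat_lit 17) (.s false (nat_lit 2) (nat_lit 38) (nat_lit 1) (nat_lit 1) (nat_lit 7) true (nat_lit 5) true (nat_lit 11) true (nat_lit 0) true (nat_lit 17) true (nat_lit 17) (.s true (nat_lit 2) (nat_lit 34) (nat_lit 1) (nat_lit 6) (nat_lit 2) true (nat_lit 12) true (nat_lit 16) true (nat_lit 0) true (nat_lit 17) true (nat_lit 12) (.s false (nat_lit 1) (nat_lit 33) (nat_lit 1) (nat_lit 7) (nat_lit 1) true (nat_lit 14) true (nat_lit 17) true (nat_lit 0) true (nat_lit 17) true (nat_lit 11) (.s false (nat_lit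 3) (nat_lit 34) (nat_lit 2) (nat_lit 1) (nat_lit 6) true (nat_lit 5) true (nat_lit 12) true (nat_lit 0) true (nat_lit 16) true (nat_lit 17) (.s false (nat_lit 1) (nat_lit 33) (nat_lit 2) (nat_lit 4) (nat_lit 2) true (nat_lit 11) true (nat_lit 16) true (nat_lit 0) true (nat_lit 16) true (nat_lit 14) dC2d_i191)))))))))))))))))))))))))

noncomputable def dC2d_i193 : IL := (.s true (nat_lit 2) (nat_lit 20) (nat_lit 1) (nat_lit 12) (nat_lit 1) true (nat_lit 14) true (nat_lit 17) true (nat_lit 4) true (nat_lit 17) true (nat_lit 8) (.s true (nat_lit 3) (nat_lit 20) (nat_lit 2) (nat_lit 0) (nat_lit 10) true (nat_lit 1) true (nat_lit 9) true (nat_lit 4) true (nat_lit 16) true (nat_lit 18) (.s true (nat_lit 3) (nat_lit 20) (nat_lit 2) (nat_lit 1) (nat_lit 8) true (nat_lit 2) true (nat_lit 10) true (nat_lit 4) true (nat_lit 16) true (nat_lit 17) (.s false (nat_lit 3) (nat_lit 20) (nat_lit 2) (nat_lit 4) (nat_lit 3) true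 (nat_lit 8) true (nat_lit 15) true (nat_lit 4) true (nat_lit 16) true (nat_lit 14) (.s false (nat_lit 3) (nat_lit 20) (nat_lit 3) (nat_lit 2) (nat_lit 4) true (nat_lit 3) true (nat_lit 14) true (nat_lit 4) true (nat_lit 15) true (nat_lit 16) (.s true (nat_lit 3) (nat_lit 20) (nat_lit 3) (nat_lit 6) (nat_lit 1) true (nat_lit 10) true (nat_lit 17) true (nat_lit 4) true (nat_lit 15) true (nat_lit 12) (.s false (nat_lit 2) (nat_lit 20) (nat_lit 4) (nat_lit 5) (nat_lit 1) true (nat_lit 9) true (nat_lit 17) true (nat_lit 4) true (nat_lit 14) true (nat_lit 13) (.s true (nat_lit 1) (nat_lit 20) (nat_lit 9) (nat_lit 2) (nat_lit 1) true (nat_lit 3) true (nat_lit 17) true (nat_lit 4) true (nat_lit 10) true (nat_lit 16) (.s true (nat_lit 2) (nat_lit 20) (nat_lit 11) (nat_lit 1) (nat_lit 1) true (nat_lit 2) true (nat_lit 17) true (nat_lit 4) true (nat_lit 8) true (nat_lit 17) (.s false (nat_lit 2) (nat_lit 21) (nat_lit 2)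 (nat_lit 2) (nat_lit 7) true (nat_lit 4) true (nat_lit 11) true (nat_lit 3) true (nat_lit 16) true (nat_lit 16) (.s true (nat_lit 1) (nat_lit 23) (nat_lit 2) (nat_lit 2) (nat_lit 7) true (nat_lit 4) true (nat_lit 11) true (nat_lit 3) true (nat_lit 16) true (nat_lit 16) (.s false (nat_lit 3) (nat_lit 21) (nat_lit 2) (nat_lit 7) (nat_lit 2) true (nat_lit 11) true (nat_lit 16) true (nat_lit 3) true (nat_lit 16) true (nat_lit 11) (.s false (nat_lit 3) (nat_lit 22) (nat_lit 2) (nat_lit 7) (nat_lit 2) true (nat_lit 11) true (nat_lit 16) true (nat_lit 3) true (nat_lit 16) true (nat_lit 11) (.s true (nat_lit 3) (nat_lit 23) (nat_lit 2) (nat_lit 7) (nat_lit 2) true (nat_lit 11) true (nat_lit 16) true (nat_lit 3) true (nat_lit 16) true (nat_lit 11) (.s false (nat_lit 2) (nat_lit 21) (nat_lit 7) (nat_lit 2) (nat_lit 2) true (nat_lit 4) true (nat_lit 16) true (nat_lit 3) true (nat_lit 11) true (nat_lit 16) (.s true (nat_lit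 2) (nat_lit 23) (nat_lit 7) (nat_lit 2) (nat_lit 2) true (nat_lit 4) true (nat_lit 16) true (nat_lit 3) true (nat_lit 11) true (nat_lit 16) (.s true (nat_lit 2) (nat_lit 24) (nat_lit 1) (nat_lit 2) (nat_lit 7) true (nat_lit 5) true (nat_lit 11) true (nat_lit 2) true (nat_lit 17) true (nat_lit 16) (.s true (nat_lit 1) (nat_lit 25) (nat_lit 1) (nat_lit 2) (nat_lit 7) true (nat_lit 5) true (nat_lit 11) true (nat_lit 2) true (nat_lit 17) true (nat_lit 16) (.s true (nat_lit 2) (nat_lit 26) (nat_lit 1) (nat_lit 2) (nat_lit 7) true (nat_lit 5) true (nat_lit 11) true (nat_lit 2) true (nat_lit 17) true (nat_lit 16) (.s true (nat_lit 3) (nat_lit 27) (nat_lit 1) (nat_lit 2) (nat_lit 7) true (nat_lit 5) true (nat_lit 11) true (nat_lit 2) true (nat_lit 17) true (nat_lit 16) (.s false (nat_lit 1) (nat_lit 29) (nat_lit 1) (nat_lit 2) (nat_lit 7) true (nat_lit 5) true (nat_lit 11) true (nat_lit 2) true (nat_lit 17) true (nat_lit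 16) (.s false (nat_lit 3) (nat_lit 24) (nat_lit 1) (nat_lit 7) (nat_lit 2) true (nat_lit 12) true (nat_lit 16) true (nat_lit 2) true (nat_lit 17) true (nat_lit 11) (.s false (nat_lit 1) (nat_lit 25) (nat_lit 1) (nat_lit 7) (nat_lit 2) true (nat_lit 12) true (nat_lit 16) true (nat_lit 2) true (nat_lit 17) true (nat_lit 11) (.s true (nat_lit 3) (nat_lit 26) (nat_lit 1) (nat_lit 7) (nat_lit 2) true (nat_lit 12) true (nat_lit 16) true (nat_lit 2) true (nat_lit 17) true (nat_lit 11) (.s true (nat_lit 2) (nat_lit 27) (nat_lit 1) (nat_lit 7) (nat_lit 2) true (nat_lit 12) true (nat_lit 16) true (nat_lit 2) true (nat_lit 17) true (nat_lit 11) dC2d_i192)))))))))))))))))))))))))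

noncomputable def dC2d_i194 : IL := (.s false (nat_lit 2) (nat_lit 14) (nat_lit 2) (nat_lit 2) (nat_lit 11) true (nat_lit 0) true (nat_lit 8) true (nat_lit 7) true (nat_lit 16) true (nat_lit 16) (.s true (nat_lit 1) (nat_lit 15) (nat_lit 2) (nat_lit 2) (nat_lit 11) true (nat_lit 0) true (nat_lit 8) true (nat_lit 7) true (nat_lit 16) true (nat_lit 16) (.s true (nat_lit 3) (nat_lit 16) (nat_lit 2) (nat_lit 2) (nat_lit 10) true (nat_lit 1) true (nat_lit 9) true (nat_lit 6) true (nat_lit 16) true (nat_lit 16) (.s true (nat_lit 3) (nat_lit 16) (nat_lit 2) (nat_lit 10) (nat_lit 2) true (nat_lit 11) true (nat_lit 16) true (nat_lit 6) true (nat_lit 16) true (nat_lit 9) (.s true (nat_lit 1) (nat_lit 16) (nat_lit 10) (nat_lit 2) (nat_lit 2) true (nat_lit 1) true (nat_lit 16) true (nat_lit 6) true (nat_lit 9) true (nat_lit 16) (.s false (nat_lit 1) (nat_lit 17) (nat_lit 10) (nat_lit 2) (nat_lit 2) true (nat_lit 1) true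 (nat_lit 16) true (nat_lit 6) true (nat_lit 9) true (nat_lit 16) (.s false (nat_lit 2) (nat_lit 18) (nat_lit 0) (nat_lit 1) (nat_lit 18) true (nat_lit 0) true (nat_lit 5) true (nat_lit 5) true (nat_lit 18) true (nat_lit 17) (.s false (nat_lit 1) (nat_lit 18) (nat_lit 1) (nat_lit 0) (nat_lit 18) false (nat_lit 0) true (nat_lit 5) true (nat_lit 5) true (nat_lit 17) true (nat_lit 18) (.s true (nat_lit 3) (nat_lit 18) (nat_lit 1) (nat_lit 2) (nat_lit 11) true (nat_lit 2) true (nat_lit 8) true (nat_lit 5) true (nat_lit 17) true (nat_lit 16) (.s false (nat_lit 2) (nat_lit 18) (nat_lit 1) (nat_lit 2) (nat_lit 12) true (nat_lit 2) true (nat_lit 8) true (nat_lit 5) true (nat_lit 17) true (nat_lit 16) (.s false (nat_lit 1) (nat_lit 18) (nat_lit 2) (nat_lit 1) (nat_lit 11) true (nat_lit 0) true (nat_lit 8) true (nat_lit 5) true (nat_lit 16) true (nat_lit 17) (.s false (nat_lit 3) (nat_lit 18) (nat_lit 2) (nat_lit 2) (nat_lit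 8) true (nat_lit 2) true (nat_lit 10) true (nat_lit 5) true (nat_lit 16) true (nat_lit 16) (.s true (nat_lit 2) (nat_lit 18) (nat_lit 2) (nat_lit 3) (nat_lit 6) true (nat_lit 5) true (nat_lit 12) true (nat_lit 5) true (nat_lit 16) true (nat_lit 15) (.s false (nat_lit 3) (nat_lit 19) (nat_lit 2) (nat_lit 6) (nat_lit 3) true (nat_lit 8) true (nat_lit 15) true (nat_lit 5) true (nat_lit 16) true (nat_lit 12) (.s false (nat_lit 2) (nat_lit 18) (nat_lit 2) (nat_lit 9) (nat_lit 2) true (nat_lit 11) true (nat_lit 16) true (nat_lit 5) true (nat_lit 16) true (nat_lit 10) (.s true (nat_lit 3) (nat_lit 19) (nat_lit 2) (nat_lit 9) (nat_lit 2) true (nat_lit 11) true (nat_lit 16) true (nat_lit 5) true (nat_lit 16) true (nat_lit 10) (.s false (nat_lit 3) (nat_lit 18) (nat_lit 2) (nat_lit 11) (nat_lit 1) true (nat_lit 12) true (nat_lit 17) true (nat_lit 5) true (nat_lit 16) true (nat_lit 8) (.s true (nat_lit 2) (nat_lit 18) (nat_lit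 2) (nat_lit 12) (nat_lit 1) true (nat_lit 12) true (nat_lit 17) true (nat_lit 5) true (nat_lit 16) true (nat_lit 8) (.s false (nat_lit 3) (nat_lit 19) (nat_lit 6) (nat_lit 2) (nat_lit 3) true (nat_lit 2) true (nat_lit 15) true (nat_lit 5) true (nat_lit 12) true (nat_lit 16) (.s false (nat_lit 1) (nat_lit 19) (nat_lit 6) (nat_lit 3) (nat_lit 2) true (nat_lit 5) true (nat_lit 16) true (nat_lit 5) true (nat_lit 12) true (nat_lit 15) (.s true (nat_lit 3) (nat_lit 18) (nat_lit 7) (nat_lit 3) (nat_lit 1) true (nat_lit 5) true (nat_lit 17) true (nat_lit 5) true (nat_lit 11) true (nat_lit 15) (.s true (nat_lit 3) (nat_lit 18) (nat_lit 8) (nat_lit 2) (nat_lit 2) true (nat_lit 2) true (nat_lit 16) true (nat_lit 5) true (nat_lit 10) true (nat_lit 16) (.s false (nat_lit 2) (nat_lit 18) (nat_lit 9) (nat_lit 2) (nat_lit 2) true (nat_lit 2) true (nat_lit 16) true (nat_lit 5) true (nat_lit 10) true (nat_lit 16) (.s false (nat_lit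 1) (nat_lit 19) (nat_lit 8) (nat_lit 2) (nat_lit 2) true (nat_lit 2) true (nat_lit 16) true (nat_lit 5) true (nat_lit 10) true (nat_lit 16) (.s false (nat_lit 3) (nat_lit 19) (nat_lit 11) (nat_lit 2) (nat_lit 1) true (nat_lit 2) true (nat_lit 17) true (nat_lit 5) true (nat_lit 8) true (nat_lit 16) dC2d_i193)))))))))))))))))))))))))

noncomputable def dC2d_i195 : IL := (.e false (nat_lit 1) (nat_lit 257) (nat_lit 1) (nat_lit 17) (.e false (nat_lit 3) (nat_lit 259) (nat_lit 1) (nat_lit 17) (.e true (nat_lit 3) (nat_lit 260) (nat_lit 1) (nat_lit 17) (.e true (nat_lit 3) (nat_lit 261) (nat_lit 1) (nat_lit 17) (.e false (nat_lit 3) (nat_lit 275) (nat_lit 1) (nat_lit 17) (.e true (nat_lit 2) (nat_lit 280) (nat_lit 1) (nat_lit 17) (.e false (nat_lit 1) (nat_lit 282) (nat_lit 1) (nat_lit 17) (.e false (nat_lit 1) (nat_lit 279) (nat_lit 1) (nat_lit 17) (.e true (nat_lit 2) (nat_lit 289) (nat_lit 0) (nat_lit 18) (.e false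 (nat_lit 2) (nat_lit 290) (nat_lit 0) (nat_lit 18) (.e true (nat_lit 3) (nat_lit 291) (nat_lit 0) (nat_lit 18) (.e false (nat_lit 2) (nat_lit 292) (nat_lit 0) (nat_lit 18) (.e true (nat_lit 1) (nat_lit 293) (nat_lit 0) (nat_lit 18) (.e false (nat_lit 2) (nat_lit 295) (nat_lit 0) (nat_lit 18) (.e true (nat_lit 2) (nat_lit 296) (nat_lit 0) (nat_lit 18) (.e false (nat_lit 1) (nat_lit 297) (nat_lit 0) (nat_lit 18) (.e false (nat_lit 3) (nat_lit 299) (nat_lit 0) (nat_lit 18) (.e true (nat_lit 3) (nat_lit 301) (nat_lit 0) (nat_lit 18) (.e false (nat_lit 2) (nat_lit 294) (nat_lit 0) (nat_lit 18) (.e false (nat_lit 3) (nat_lit 170) (nat_lit 4) (nat_lit 14) (.e false (nat_lit 2) (nat_lit 300) (nat_lit 0) (nat_lit 18) (.u (nat_lit 2) (.p (nat_lit 0) (nat_lit 1) (.n (nat_lit 2) (nat_lit 2) (.p (nat_lit 3) (nat_lit 2) (.n (nat_lit 7) (nat_lit 1) (.n (nat_lit 8) (nat_lit 1) (.p (nat_lit 9) (nat_lit 1) (.n (nat_lit 10) (nat_lit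 1) (.p (nat_lit 11) (nat_lit 3) (.n (nat_lit 14) (nat_lit 1) (.n (nat_lit 16) (nat_lit 1) (.n (nat_lit 17) (nat_lit 1) (.n (nat_lit 18) (nat_lit 2) (.n (nat_lit 19) (nat_lit 1) (.p (nat_lit 20) (nat_lit 3) (.n (nat_lit 21) (nat_lit 1) (.p (nat_lit 22) (nat_lit 1) (.p (nat_lit 23) (nat_lit 1) (.p (nat_lit 24) (nat_lit 1) (.n (nat_lit 25) (nat_lit 1) (.p (nat_lit 26) (nat_lit 1) (.n (nat_lit 27) (nat_lit 3) (.n (nat_lit 28) (nat_lit 1) (.n (nat_lit 29) (nat_lit 1) (.p (nat_lit 31) (nat_lit 2) (.n (nat_lit 33) (nat_lit 2) (.p (nat_lit 34) (nat_lit 3) (.n (nat_lit 35) (nat_lit 2) (.p (nat_lit 37) (nat_lit 1) (.p (nat_lit 38) (nat_lit 2) (.p (nat_lit 39) (nat_lit 3) (.p (nat_lit 41) (nat_lit 1) (.n (nat_lit 45) (nat_lit 1) (.n (nat_lit 46) (nat_lit 1) (.n (nat_lit 47) (nat_lit 1) (.n (nat_lit 64) (nat_lit 1) (.p (nat_lit 66) (nat_lit 1) (.n (nat_lit 67) (nat_lit 1) (.n (nat_lit 73) (nat_lit 1) (.n (nat_lit 90) (nat_lit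 1) (.p (nat_lit 91) (nat_lit 1) (.p (nat_lit 94) (nat_lit 1) (.p (nat_lit 96) (nat_lit 1) (.n (nat_lit 97) (nat_lit 1) (.n (nat_lit 98) (nat_lit 1) (.n (nat_lit 99) (nat_lit 1) (.p (nat_lit 106) (nat_lit 1) (.n (nat_lit 109) (nat_lit 1) (.n (nat_lit 111) (nat_lit 1) (.p (nat_lit 115) (nat_lit 1) (.p (nat_lit 118) (nat_lit 1) (.n (nat_lit 120) (nat_lit 1) (.p (nat_lit 122) (nat_lit 2) (.n (nat_lit 123) (nat_lit 1) (.n (nat_lit 124) (nat_lit 2) (.p (nat_lit 125) (nat_lit 1) (.p (nat_lit 127) (nat_lit 2) (.n (nat_lit 129) (nat_lit 1) (.n (nat_lit 132) (nat_lit 1) (.n (nat_lit 133) (nat_lit 2) (.n (nat_lit 134) (nat_lit 1) .z)))))))))))))))))))))))))))))))))))))))))))))))))))))))))))) (.u (nat_lit 2) (.n (nat_lit 136) (nat_lit 1) (.n (nat_lit 140) (nat_lit 1) (.n (nat_lit 151) (nat_lit 1) (.p (nat_lit 152) (nat_lit 1) (.p (nat_lit 153) (nat_lit 1) (.n (nat_lit 154) (nat_lit 1) (.n (nat_lit 172) (nat_lit 1) (.p (nat_lit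 173) (nat_lit 2) (.n (nat_lit 174) (nat_lit 1) (.p (nat_lit 176) (nat_lit 1) (.p (nat_lit 180) (nat_lit 1) (.n (nat_lit 181) (nat_lit 1) (.p (nat_lit 183) (nat_lit 1) (.n (nat_lit 189) (nat_lit 1) (.p (nat_lit 190) (nat_lit 1) (.p (nat_lit 191) (nat_lit 1) (.n (nat_lit 192) (nat_lit 1) (.n (nat_lit 193) (nat_lit 1) (.p (nat_lit 194) (nat_lit 2) (.p (nat_lit 196) (nat_lit 1) (.p (nat_lit 202) (nat_lit 1) (.p (nat_lit 203) (nat_lit 1) (.p (nat_lit 206) (nat_lit 2) (.n (nat_lit 207) (nat_lit 1) (.p (nat_lit 208) (nat_lit 1) (.n (nat_lit 213) (nat_lit 1) (.n (nat_lit 214) (nat_lit 1) (.n (nat_lit 215) (nat_lit 3) (.n (nat_lit 216) (nat_lit 3) (.p (nat_lit 217) (nat_lit 4) (.n (nat_lit 219) (nat_lit 3) (.p (nat_lit 221) (nat_lit 3) (.n (nat_lit 223) (nat_lit 2) (.p (nat_lit 224) (nat_lit 5) (.n (nat_lit 225) (nat_lit 2) (.p (nat_lit 226) (nat_lit 3) (.p (nat_lit 229) (nat_lit 6) (.n (nat_lit 230) (nat_lit 3) (.p (nat_lit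 233) (nat_lit 1) (.n (nat_lit 234) (nat_lit 4) (.n (nat_lit 235) (nat_lit 1) (.n (nat_lit 236) (nat_lit 1) (.p (nat_lit 237) (nat_lit 1) (.p (nat_lit 238) (nat_lit 1) (.n (nat_lit 239) (nat_lit 2) (.n (nat_lit 240) (nat_lit 2) (.p (nat_lit 241) (nat_lit 2) (.p (nat_lit 242) (nat_lit 2) (.p (nat_lit 243) (nat_lit 1) (.n (nat_lit 244) (nat_lit 1) (.n (nat_lit 246) (nat_lit 1) (.p (nat_lit 247) (nat_lit 1) (.p (nat_lit 248) (nat_lit 3) (.n (nat_lit 250) (nat_lit 1) (.n (nat_lit 251) (nat_lit 1) (.n (nat_lit 252) (nat_lit 1) (.n (nat_lit 253) (nat_lit 1) (.p (nat_lit 254) (nat_lit 2) (.n (nat_lit 255) (nat_lit 1) (.n (nat_lit 256) (nat_lit 1) .z)))))))))))))))))))))))))))))))))))))))))))))))))))))))))))) (.u (nat_lit 2) (.n (nat_lit 257) (nat_lit 1) (.p (nat_lit 259) (nat_lit 1) (.p (nat_lit 260) (nat_lit 1) (.n (nat_lit 262) (nat_lit 1) (.p (nat_lit 263) (nat_lit 1) (.n (nat_lit 264) (nat_lit 1) (.p (nat_lit 265)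 (nat_lit 1) (.p (nat_lit 266) (nat_lit 1) (.p (nat_lit 267) (nat_lit 1) (.n (nat_lit 268) (nat_lit 1) (.n (nat_lit 269) (nat_lit 2) (.p (nat_lit 270) (nat_lit 1) (.n (nat_lit 274) (nat_lit 1) (.n (nat_lit 277) (nat_lit 1) (.p (nat_lit 278) (nat_lit 1) (.p (nat_lit 279) (nat_lit 1) (.p (nat_lit 281) (nat_lit 1) (.n (nat_lit 288) (nat_lit 2) (.p (nat_lit 292) (nat_lit 1) (.n (nat_lit 293) (nat_lit 2) (.n (nat_lit 294) (nat_lit 2) (.p (nat_lit 295) (nat_lit 2) (.p (nat_lit 296) (nat_lit 1) (.p (nat_lit 297) (nat_lit 1) (.n (nat_lit 298) (nat_lit 1) (.n (nat_lit 300) (nat_lit 1) (.n (nat_lit 301) (nat_lit 2) (.n (nat_lit 302) (nat_lit 11) (.p (nat_lit 303) (nat_lit 11) (.p (nat_lit 304) (nat_lit 4) (.n (nat_lit 305) (nat_lit 20) (.p (nat_lit 306) (nat_lit 21) (.p (nat_lit 307) (nat_lit 9) (.p (nat_lit 308) (nat_lit 7) (.p (nat_lit 309) (nat_lit 13) (.n (nat_lit 310) (nat_lit 1) (.p (nat_lit 311) (nat_lit 6) (.n (nat_lit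 312) (nat_lit 5) (.n (nat_lit 313) (nat_lit 7) (.n (nat_lit 314) (nat_lit 1) (.n (nat_lit 315) (nat_lit 4) (.p (nat_lit 316) (nat_lit 32) (.n (nat_lit 317) (nat_lit 10) (.p (nat_lit 318) (nat_lit 8) (.p (nat_lit 319) (nat_lit 18) (.n (nat_lit 321) (nat_lit 3) (.p (nat_lit 322) (nat_lit 27) (.n (nat_lit 323) (nat_lit 9) (.p (nat_lit 324) (nat_lit 10) (.n (nat_lit 325) (nat_lit 9) (.n (nat_lit 326) (nat_lit 9) (.n (nat_lit 327) (nat_lit 24) (.p (nat_lit 328) (nat_lit 12) (.n (nat_lit 329) (nat_lit 11) (.n (nat_lit 330) (nat_lit 8) (.n (nat_lit 331) (nat_lit 1) (.p (nat_lit 332) (nat_lit 7) (.n (nat_lit 334) (nat_lit 1) (.p (nat_lit 335) (nat_lit 7) (.p (nat_lit 336) (nat_lit 6) .z)))))))))))))))))))))))))))))))))))))))))))))))))))))))))))) (.u (nat_lit 2) (.p (nat_lit 337) (nat_lit 4) (.n (nat_lit 338) (nat_lit 2) (.p (nat_lit 339) (nat_lit 9) (.p (nat_lit 340) (nat_lit 24) (.p (nat_lit 341) (nat_lit 2) (.n (nat_lit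 342) (nat_lit 17) (.p (nat_lit 343) (nat_lit 4) (.n (nat_lit 344) (nat_lit 17) (.n (nat_lit 345) (nat_lit 2) (.n (nat_lit 346) (nat_lit 1) (.p (nat_lit 347) (nat_lit 4) (.p (nat_lit 348) (nat_lit 11) (.p (nat_lit 349) (nat_lit 5) (.p (nat_lit 350) (nat_lit 3) (.p (nat_lit 351) (nat_lit 10) (.n (nat_lit 352) (nat_lit 1) (.n (nat_lit 353) (nat_lit 2) (.p (nat_lit 354) (nat_lit 9) (.n (nat_lit 355) (nat_lit 13) (.n (nat_lit 356) (nat_lit 3) (.p (nat_lit 357) (nat_lit 12) (.n (nat_lit 358) (nat_lit 16) (.n (nat_lit 359) (nat_lit 9) (.p (nat_lit 360) (nat_lit 9) (.n (nat_lit 361) (nat_lit 10) (.p (nat_lit 362) (nat_lit 5) (.n (nat_lit 363) (nat_lit 3) (.p (nat_lit 364) (nat_lit 6) (.p (nat_lit 365) (nat_lit 1) (.n (nat_lit 366) (nat_lit 8) (.p (nat_lit 367) (nat_lit 7) (.n (nat_lit 368) (nat_lit 2) (.p (nat_lit 369) (nat_lit 18) (.p (nat_lit 370) (nat_lit 9) (.n (nat_lit 371) (nat_lit 1) (.n (nat_lit 372) (nat_lit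 11) (.p (nat_lit 373) (nat_lit 2) (.n (nat_lit 374) (nat_lit 2) (.p (nat_lit 375) (nat_lit 6) (.p (nat_lit 376) (nat_lit 3) (.p (nat_lit 379) (nat_lit 6) (.p (nat_lit 380) (nat_lit 10) (.p (nat_lit 381) (nat_lit 4) (.n (nat_lit 382) (nat_lit 15) (.p (nat_lit 384) (nat_lit 2) (.p (nat_lit 385) (nat_lit 3) (.n (nat_lit 386) (nat_lit 2) (.p (nat_lit 387) (nat_lit 3) (.p (nat_lit 388) (nat_lit 2) (.p (nat_lit 389) (nat_lit 5) (.n (nat_lit 390) (nat_lit 1) (.n (nat_lit 392) (nat_lit 1) (.p (nat_lit 393) (nat_lit 3) (.n (nat_lit 395) (nat_lit 4) (.n (nat_lit 398) (nat_lit 1) (.p (nat_lit 400) (nat_lit 2) (.n (nat_lit 401) (nat_lit 4) .z))))))))))))))))))))))))))))))))))))))))))))))))))))))))) .nil)))))))))))))))))))))))))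

noncomputable def dC2d_i196 : IL := (.e true (nat_lit 1) (nat_lit 205) (nat_lit 2) (nat_lit 16) (.e false (nat_lit 1) (nat_lit 206) (nat_lit 2) (nat_lit 16) (.e true (nat_lit 3) (nat_lit 209) (nat_lit 2) (nat_lit 16) (.e false (nat_lit 1) (nat_lit 230) (nat_lit 2) (nat_lit 16) (.e true (nat_lit 2) (nat_lit 252) (nat_lit 1) (nat_lit 17) (.e false (nat_lit 1) (nat_lit 253) (nat_lit 1) (nat_lit 17) (.e true (nat_lit 2) (nat_lit 254) (nat_lit 1) (nat_lit 17) (.e false (nat_lit 2) (nat_lit 258) (nat_lit 1) (nat_lit 17) (.e false (nat_lit 1) (nat_lit 263) (nat_lit 1) (nat_lit 17) (.e true (nat_lit 1) (nat_lit 265) (nat_lit 1) (nat_lit 17) (.e false (nat_lit 1) (nat_lit 269) (nat_lit 1) (nat_lit 17) (.e true (nat_lit 2) (nat_lit 271) (nat_lit 1) (nat_lit 17) (.e false (nat_lit 2) (nat_lit 272) (nat_lit 1) (nat_lit 17) (.e true (nat_lit 3) (nat_lit 273) (nat_lit 1) (nat_lit 17) (.e false (nat_lit 2) (nat_lit 276) (nat_lit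 1) (nat_lit 17) (.e false (nat_lit 3) (nat_lit 277) (nat_lit 1) (nat_lit 17) (.e false (nat_lit 2) (nat_lit 255) (nat_lit 1) (nat_lit 17) (.e false (nat_lit 1) (nat_lit 262) (nat_lit 1) (nat_lit 17) (.e false (nat_lit 3) (nat_lit 264) (nat_lit 1) (nat_lit 17) (.e true (nat_lit 3) (nat_lit 266) (nat_lit 1) (nat_lit 17) (.e false (nat_lit 2) (nat_lit 298) (nat_lit 0) (nat_lit 18) (.e false (nat_lit 3) (nat_lit 274) (nat_lit 1) (nat_lit 17) (.e false (nat_lit 1) (nat_lit 278) (nat_lit 1) (nat_lit 17) (.e false (nat_lit 3) (nat_lit 235) (nat_lit 2) (nat_lit 16) (.e true (nat_lit 2) (nat_lit 256) (nat_lit 1) (nat_lit 17) dC2d_i195)))))))))))))))))))))))))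

noncomputable def dC2d_i197 : IL := (.s true (nat_lit 3) (nat_lit 83) (nat_lit 1) (nat_lit 1) (nat_lit 2) true (nat_lit 12) true (nat_lit 16) false (nat_lit 7) true (nat_lit 17) true (nat_lit 17) (.s true (nat_lit 3) (nat_lit 88) (nat_lit 1) (nat_lit 1) (nat_lit 2) true (nat_lit 12) true (nat_lit 16) false (nat_lit 7) true (nat_lit 17) true (nat_lit 17) (.s true (nat_lit 1) (nat_lit 89) (nat_lit 1) (nat_lit 1) (nat_lit 2) true (nat_lit 12) true (nat_lit 16) false (nat_lit 7) true (nat_lit 17) true (nat_lit 17) (.s false (nat_lit 1) (nat_lit 81) (nat_lit 1) (nat_lit 2) (nat_lit 1) true (nat_lit 14) true (nat_lit 17) false (nat_lit 7) true (nat_lit 17) true (nat_lit 16) (.s true (nat_lit 2) (nat_lit 82) (nat_lit 1) (nat_lit 2) (nat_lit 1) true (nat_lit 14) true (nat_lit 17) false (nat_lit 7) true (nat_lit 17) true (nat_lit 16) (.s true (nat_lit 3) (nat_lit 83) (nat_lit 1) (nat_lit 2) (nat_lit 1) true (nat_lit 14)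 true (nat_lit 17) false (nat_lit 7) true (nat_lit 17) true (nat_lit 16) (.s false (nat_lit 3) (nat_lit 89) (nat_lit 1) (nat_lit 2) (nat_lit 1) true (nat_lit 14) true (nat_lit 17) false (nat_lit 7) true (nat_lit 17) true (nat_lit 16) (.s true (nat_lit 1) (nat_lit 80) (nat_lit 2) (nat_lit 1) (nat_lit 1) true (nat_lit 12) true (nat_lit 17) false (nat_lit 7) true (nat_lit 16) true (nat_lit 17) (.s true (nat_lit 2) (nat_lit 81) (nat_lit 2) (nat_lit 1) (nat_lit 1) true (nat_lit 12) true (nat_lit 17) false (nat_lit 7) true (nat_lit 16) true (nat_lit 17) (.s true (nat_lit 2) (nat_lit 83) (nat_lit 2) (nat_lit 1) (nat_lit 1) true (nat_lit 12) true (nat_lit 17) false (nat_lit 7) true (nat_lit 16) true (nat_lit 17) (.s false (nat_lit 1) (nat_lit 89) (nat_lit 2) (nat_lit 1) (nat_lit 1) true (nat_lit 12) true (nat_lit 17) false (nat_lit 7) true (nat_lit 16) true (nat_lit 17) (.s true (nat_lit 2) (nat_lit 92) (nat_lit 0) (nat_lit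 1) (nat_lit 2) true (nat_lit 13) true (nat_lit 16) false (nat_lit 8) true (nat_lit 18) true (nat_lit 17) (.s true (nat_lit 2) (nat_lit 93) (nat_lit 0) (nat_lit 1) (nat_lit 2) true (nat_lit 13) true (nat_lit 16) false (nat_lit 8) true (nat_lit 18) true (nat_lit 17) (.s false (nat_lit 3) (nat_lit 91) (nat_lit 0) (nat_lit 2) (nat_lit 1) true (nat_lit 15) true (nat_lit 17) false (nat_lit 8) true (nat_lit 18) true (nat_lit 16) (.s true (nat_lit 1) (nat_lit 92) (nat_lit 1) (nat_lit 0) (nat_lit 2) true (nat_lit 12) true (nat_lit 16) false (nat_lit 8) true (nat_lit 17) true (nat_lit 18) (.s true (nat_lit 2) (nat_lit 96) (nat_lit 1) (nat_lit 2) (nat_lit 0) true (nat_lit 15) true (nat_lit 18) false (nat_lit 8) true (nat_lit 17) true (nat_lit 16) (.s true (nat_lit 2) (nat_lit 92) (nat_lit 2) (nat_lit 1) (nat_lit 0) true (nat_lit 13) true (nat_lit 18) false (nat_lit 8) true (nat_lit 16) true (nat_lit 17) (.s true (nat_lit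 3) (nat_lit 101) (nat_lit 0) (nat_lit 1) (nat_lit 1) true (nat_lit 15) true (nat_lit 17) false (nat_lit 10) true (nat_lit 18) true (nat_lit 17) (.s false (nat_lit 1) (nat_lit 102) (nat_lit 0) (nat_lit 1) (nat_lit 1) true (nat_lit 15) true (nat_lit 17) false (nat_lit 10) true (nat_lit 18) true (nat_lit 17) (.s false (nat_lit 3) (nat_lit 103) (nat_lit 0) (nat_lit 1) (nat_lit 1) true (nat_lit 15) true (nat_lit 17) false (nat_lit 10) true (nat_lit 18) true (nat_lit 17) (.s true (nat_lit 3) (nat_lit 101) (nat_lit 1) (nat_lit 1) (nat_lit 0) true (nat_lit 15) true (nat_lit 18) false (nat_lit 10) true (nat_lit 17) true (nat_lit 17) (.s true (nat_lit 3) (nat_lit 103) (nat_lit 1) (nat_lit 1) (nat_lit 0) true (nat_lit 15) true (nat_lit 18) false (nat_lit 10) true (nat_lit 17) true (nat_lit 17) (.s true (nat_lit 1) (nat_lit 104) (nat_lit 1) (nat_lit 1) (nat_lit 0) true (nat_lit 15) true (nat_lit 18) false (nat_lit 10) true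 (nat_lit 17) true (nat_lit 17) (.e true (nat_lit 3) (nat_lit 208) (nat_lit 2) (nat_lit 16) (.e true (nat_lit 3) (nat_lit 138) (nat_lit 6) (nat_lit 12) dC2d_i196)))))))))))))))))))))))))

noncomputable def dC2d_i198 : IL := (.s false (nat_lit 3) (nat_lit 67) (nat_lit 1) (nat_lit 2) (nat_lit 2) true (nat_lit 12) true (nat_lit 16) false (nat_lit 5) true (nat_lit 17) true (nat_lit 16) (.s true (nat_lit 2) (nat_lit 68) (nat_lit 1) (nat_lit 2) (nat_lit 2) true (nat_lit 12) true (nat_lit 16) false (nat_lit 5) true (nat_lit 17) true (nat_lit 16) (.s true (nat_lit 1) (nat_lit 71) (nat_lit 1) (nat_lit 2) (nat_lit 2) true (nat_lit 12) true (nat_lit 16) false (nat_lit 5) true (nat_lit 17) true (nat_lit 16) (.s false (nat_lit 3) (nat_lit 73) (nat_lit 1) (nat_lit 2) (nat_lit 2) true (nat_lit 12) true (nat_lit 16) false (nat_lit 5) true (nat_lit 17) true (nat_lit 16) (.s false (nat_lit 1) (nat_lit 64) (nat_lit 2) (nat_lit 1)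 (nat_lit 2) true (nat_lit 11) true (nat_lit 16) false (nat_lit 5) true (nat_lit 16) true (nat_lit 17) (.s true (nat_lit 2) (nat_lit 65) (nat_lit 2) (nat_lit 1) (nat_lit 2) true (nat_lit 11) true (nat_lit 16) false (nat_lit 5) true (nat_lit 16) true (nat_lit 17) (.s true (nat_lit 1) (nat_lit 71) (nat_lit 2) (nat_lit 1) (nat_lit 2) true (nat_lit 11) true (nat_lit 16) false (nat_lit 5) true (nat_lit 16) true (nat_lit 17) (.s false (nat_lit 2) (nat_lit 73) (nat_lit 2) (nat_lit 1) (nat_lit 2) true (nat_lit 11) true (nat_lit 16) false (nat_lit 5) true (nat_lit 16) true (nat_lit 17) (.s true (nat_lit 2) (nat_lit 60) (nat_lit 2) (nat_lit 2) (nat_lit 1) true (nat_lit 12) true (nat_lit 17) false (nat_lit 5) true (nat_lit 16) true (nat_lit 16) (.s false (nat_lit 3) (nat_lit 61) (nat_lit 2) (nat_lit 2) (nat_lit 1) true (nat_lit 12) true (nat_lit 17) false (nat_lit 5) true (nat_lit 16) true (nat_lit 16) (.s false (nat_lit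 3) (nat_lit 62) (nat_lit 2) (nat_lit 2) (nat_lit 1) true (nat_lit 12) true (nat_lit 17) false (nat_lit 5) true (nat_lit 16) true (nat_lit 16) (.s false (nat_lit 2) (nat_lit 63) (nat_lit 2) (nat_lit 2) (nat_lit 1) true (nat_lit 12) true (nat_lit 17) false (nat_lit 5) true (nat_lit 16) true (nat_lit 16) (.s false (nat_lit 1) (nat_lit 65) (nat_lit 2) (nat_lit 2) (nat_lit 1) true (nat_lit 12) true (nat_lit 17) false (nat_lit 5) true (nat_lit 16) true (nat_lit 16) (.s false (nat_lit 1) (nat_lit 67) (nat_lit 2) (nat_lit 2) (nat_lit 1) true (nat_lit 12) true (nat_lit 17) false (nat_lit 5) true (nat_lit 16) true (nat_lit 16) (.s true (nat_lit 2) (nat_lit 71) (nat_lit 2) (nat_lit 2) (nat_lit 1) true (nat_lit 12) true (nat_lit 17) false (nat_lit 5) true (nat_lit 16) true (nat_lit 16) (.s false (nat_lit 2) (nat_lit 73) (nat_lit 2) (nat_lit 2) (nat_lit 1) true (nat_lit 12) true (nat_lit 17) false (nat_lit 5) true (nat_lit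 16) true (nat_lit 16) (.s false (nat_lit 2) (nat_lit 74) (nat_lit 0) (nat_lit 2) (nat_lit 2) true (nat_lit 13) true (nat_lit 16) false (nat_lit 6) true (nat_lit 18) true (nat_lit 16) (.s false (nat_lit 3) (nat_lit 75) (nat_lit 0) (nat_lit 2) (nat_lit 2) true (nat_lit 13) true (nat_lit 16) false (nat_lit 6) true (nat_lit 18) true (nat_lit 16) (.s true (nat_lit 1) (nat_lit 76) (nat_lit 0) (nat_lit 2) (nat_lit 2) true (nat_lit 13) true (nat_lit 16) false (nat_lit 6) true (nat_lit 18) true (nat_lit 16) (.s true (nat_lit 1) (nat_lit 77) (nat_lit 0) (nat_lit 2) (nat_lit 2) true (nat_lit 13) true (nat_lit 16) false (nat_lit 6) true (nat_lit 18) true (nat_lit 16) (.s true (nat_lit 2) (nat_lit 78) (nat_lit 0) (nat_lit 2) (nat_lit 2) true (nat_lit 13) true (nat_lit 16) false (nat_lit 6) true (nat_lit 18) true (nat_lit 16) (.s false (nat_lit 2) (nat_lit 79) (nat_lit 0) (nat_lit 2) (nat_lit 2) true (nat_lit 13) true (nat_lit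 16) false (nat_lit 6) true (nat_lit 18) true (nat_lit 16) (.s false (nat_lit 3) (nat_lit 79) (nat_lit 2) (nat_lit 0) (nat_lit 2) true (nat_lit 11) true (nat_lit 16) false (nat_lit 6) true (nat_lit 16) true (nat_lit 18) (.s false (nat_lit 2) (nat_lit 74) (nat_lit 2) (nat_lit 2) (nat_lit 0) true (nat_lit 13) true (nat_lit 18) false (nat_lit 6) true (nat_lit 16) true (nat_lit 16) (.s true (nat_lit 3) (nat_lit 80) (nat_lit 1) (nat_lit 1) (nat_lit 2) true (nat_lit 12) true (nat_lit 16) false (nat_lit 7) true (nat_lit 17) true (nat_lit 17) dC2d_i197)))))))))))))))))))))))))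

noncomputable def dC2d_i199 : IL := (.s false (nat_lit 1) (nat_lit 47) (nat_lit 1) (nat_lit 3) (nat_lit 2) true (nat_lit 12) true (nat_lit 16) false (nat_lit 2) true (nat_lit 17) true (nat_lit 15) (.s true (nat_lit 2) (nat_lit 46) (nat_lit 2) (nat_lit 3) (nat_lit 1) true (nat_lit 12) true (nat_lit 17) false (nat_lit 2) true (nat_lit 16) true (nat_lit 15) (.s true (nat_lit 1) (nat_lit 45) (nat_lit 3) (nat_lit 1) (nat_lit 2) true (nat_lit 8) true (nat_lit 16) false (nat_lit 2) true (nat_lit 15) true (nat_lit 17) (.s false (nat_lit 2) (nat_lit 45) (nat_lit 5) (nat_lit 1) (nat_lit 1) true (nat_lit 8) true (nat_lit 17) false (nat_lit 2) true (nat_lit 13) true (nat_lit 17) (.s false (nat_lit 1) (nat_lit 46) (nat_lit 5) (nat_lit 1) (nat_lit 1) true (nat_lit 8) true (nat_lit 17) false (nat_lit 2) true (nat_lit 13) true (nat_lit 17) (.s false (nat_lit 2) (nat_lit 47) (nat_lit 5) (nat_lit 1) (nat_lit 1) true (nat_lit 8)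 true (nat_lit 17) false (nat_lit 2) true (nat_lit 13) true (nat_lit 17) (.s true (nat_lit 1) (nat_lit 48) (nat_lit 0) (nat_lit 4) (nat_lit 1) true (nat_lit 15) true (nat_lit 17) false (nat_lit 3) true (nat_lit 18) true (nat_lit 14) (.s true (nat_lit 1) (nat_lit 48) (nat_lit 1) (nat_lit 0) (nat_lit 4) true (nat_lit 9) true (nat_lit 14) false (nat_lit 3) true (nat_lit 17) true (nat_lit 18) (.s true (nat_lit 1) (nat_lit 48) (nat_lit 1) (nat_lit 1) (nat_lit 3) true (nat_lit 10) true (nat_lit 15) false (nat_lit 3) true (nat_lit 17) true (nat_lit 17) (.s false (nat_lit 1) (nat_lit 48) (nat_lit 1) (nat_lit 3) (nat_lit 1) true (nat_lit 14) true (nat_lit 17) false (nat_lit 3) true (nat_lit 17) true (nat_lit 15) (.s false (nat_lit 3) (nat_lit 48) (nat_lit 3) (nat_lit 1) (nat_lit 1) true (nat_lit 10) true (nat_lit 17) false (nat_lit 3) true (nat_lit 15) true (nat_lit 17) (.s true (nat_lit 2) (nat_lit 48) (nat_lit 4) (nat_lit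 0) (nat_lit 1) true (nat_lit 9) true (nat_lit 17) false (nat_lit 3) true (nat_lit 14) true (nat_lit 18) (.s false (nat_lit 3) (nat_lit 48) (nat_lit 4) (nat_lit 1) (nat_lit 0) true (nat_lit 10) true (nat_lit 18) false (nat_lit 3) true (nat_lit 14) true (nat_lit 17) (.s true (nat_lit 1) (nat_lit 52) (nat_lit 2) (nat_lit 2) (nat_lit 2) true (nat_lit 11) true (nat_lit 16) false (nat_lit 4) true (nat_lit 16) true (nat_lit 16) (.s true (nat_lit 3) (nat_lit 55) (nat_lit 2) (nat_lit 2) (nat_lit 2) true (nat_lit 11) true (nat_lit 16) false (nat_lit 4) true (nat_lit 16) true (nat_lit 16) (.s false (nat_lit 2) (nat_lit 56) (nat_lit 2) (nat_lit 2) (nat_lit 2) true (nat_lit 11) true (nat_lit 16) false (nat_lit 4) true (nat_lit 16) true (nat_lit 16) (.s true (nat_lit 3) (nat_lit 57) (nat_lit 2) (nat_lit 2) (nat_lit 2) true (nat_lit 11) true (nat_lit 16) false (nat_lit 4) true (nat_lit 16) true (nat_lit 16) (.s false (nat_lit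 3) (nat_lit 59) (nat_lit 2) (nat_lit 2) (nat_lit 2) true (nat_lit 11) true (nat_lit 16) false (nat_lit 4) true (nat_lit 16) true (nat_lit 16) (.s false (nat_lit 1) (nat_lit 60) (nat_lit 1) (nat_lit 2) (nat_lit 2) true (nat_lit 12) true (nat_lit 16) false (nat_lit 5) true (nat_lit 17) true (nat_lit 16) (.s true (nat_lit 1) (nat_lit 61) (nat_lit 1) (nat_lit 2) (nat_lit 2) true (nat_lit 12) true (nat_lit 16) false (nat_lit 5) true (nat_lit 17) true (nat_lit 16) (.s false (nat_lit 2) (nat_lit 62) (nat_lit 1) (nat_lit 2) (nat_lit 2) true (nat_lit 12) true (nat_lit 16) false (nat_lit 5) true (nat_lit 17) true (nat_lit 16) (.s false (nat_lit 2) (nat_lit 63) (nat_lit 1) (nat_lit 2) (nat_lit 2) true (nat_lit 12) true (nat_lit 16) false (nat_lit 5) true (nat_lit 17) true (nat_lit 16) (.s true (nat_lit 2) (nat_lit 64) (nat_lit 1) (nat_lit 2) (nat_lit 2) true (nat_lit 12) true (nat_lit 16) false (nat_lit 5) true (nat_lit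 17) true (nat_lit 16) (.s false (nat_lit 3) (nat_lit 65) (nat_lit 1) (nat_lit 2) (nat_lit 2) true (nat_lit 12) true (nat_lit 16) false (nat_lit 5) true (nat_lit 17) true (nat_lit 16) (.s true (nat_lit 1) (nat_lit 66) (nat_lit 1) (nat_lit 2) (nat_lit 2) true (nat_lit 12) true (nat_lit 16) false (nat_lit 5) true (nat_lit 17) true (nat_lit 16) dC2d_i198)))))))))))))))))))))))))

noncomputable def dC2d_i200 : IL := (.s false (nat_lit 2) (nat_lit 38) (nat_lit 1) (nat_lit 2) (nat_lit 6) true (nat_lit 7) true (nat_lit 12) true (nat_lit 0) true (nat_lit 17) true (nat_lit 16) (.s false (nat_lit 1) (nat_lit 33) (nat_lit 1) (nat_lit 7) (nat_lit 1) true (nat_lit 14) true (nat_lit 17) true (nat_lit 0) true (nat_lit 17) true (nat_lit 11) (.s false (nat_lit 3) (nat_lit 34) (nat_lit 1) (nat_lit 7) (nat_lit 1) true (nat_lit 14) true (nat_lit 17) true (nat_lit 0) true (nat_lit 17) true (nat_lit 11) (.s true (nat_lit 3) (nat_lit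 33) (nat_lit 2) (nat_lit 1) (nat_lit 6) true (nat_lit 5) true (nat_lit 12) true (nat_lit 0) true (nat_lit 16) true (nat_lit 17) (.s false (nat_lit 2) (nat_lit 35) (nat_lit 2) (nat_lit 2) (nat_lit 4) true (nat_lit 7) true (nat_lit 14) true (nat_lit 0) true (nat_lit 16) true (nat_lit 16) (.s false (nat_lit 3) (nat_lit 36) (nat_lit 2) (nat_lit 2) (nat_lit 4) true (nat_lit 7) true (nat_lit 14) true (nat_lit 0) true (nat_lit 16) true (nat_lit 16) (.s false (nat_lit 2) (nat_lit 34) (nat_lit 2) (nat_lit 4) (nat_lit 2) true (nat_lit 11) true (nat_lit 16) true (nat_lit 0) true (nat_lit 16) true (nat_lit 14) (.s false (nat_lit 2) (nat_lit 33) (nat_lit 4) (nat_lit 2) (nat_lit 2) true (nat_lit 7) true (nat_lit 16) true (nat_lit 0) true (nat_lit 14) true (nat_lit 16) (.s false (nat_lit 2) (nat_lit 34) (nat_lit 6) (nat_lit 2) (nat_lit 1) true (nat_lit 7) true (nat_lit 17) true (nat_lit 0) true (nat_lit 12) true (nat_lit 16)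 (.s true (nat_lit 2) (nat_lit 38) (nat_lit 6) (nat_lit 2) (nat_lit 1) true (nat_lit 7) true (nat_lit 17) true (nat_lit 0) true (nat_lit 12) true (nat_lit 16) (.s false (nat_lit 1) (nat_lit 33) (nat_lit 7) (nat_lit 1) (nat_lit 1) true (nat_lit 5) true (nat_lit 17) true (nat_lit 0) true (nat_lit 11) true (nat_lit 17) (.s false (nat_lit 2) (nat_lit 39) (nat_lit 0) (nat_lit 6) (nat_lit 2) true (nat_lit 13) true (nat_lit 16) false (nat_lit 0) true (nat_lit 18) true (nat_lit 12) (.s true (nat_lit 1) (nat_lit 40) (nat_lit 0) (nat_lit 7) (nat_lit 1) true (nat_lit 15) true (nat_lit 17) false (nat_lit 0) true (nat_lit 18) true (nat_lit 11) (.s true (nat_lit 2) (nat_lit 40) (nat_lit 1) (nat_lit 5) (nat_lit 2) true (nat_lit 12) true (nat_lit 16) false (nat_lit 0) true (nat_lit 17) true (nat_lit 13) (.s true (nat_lit 2) (nat_lit 41) (nat_lit 1) (nat_lit 5) (nat_lit 2) true (nat_lit 12) true (nat_lit 16) false (nat_lit 0) true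 (nat_lit 17) true (nat_lit 13) (.s true (nat_lit 3) (nat_lit 40) (nat_lit 2) (nat_lit 0) (nat_lit 6) true (nat_lit 5) true (nat_lit 12) false (nat_lit 0) true (nat_lit 16) true (nat_lit 18) (.s false (nat_lit 2) (nat_lit 40) (nat_lit 2) (nat_lit 5) (nat_lit 1) true (nat_lit 12) true (nat_lit 17) false (nat_lit 0) true (nat_lit 16) true (nat_lit 13) (.s true (nat_lit 2) (nat_lit 40) (nat_lit 2) (nat_lit 6) (nat_lit 0) true (nat_lit 13) true (nat_lit 18) false (nat_lit 0) true (nat_lit 16) true (nat_lit 12) (.s true (nat_lit 2) (nat_lit 41) (nat_lit 2) (nat_lit 6) (nat_lit 0) true (nat_lit 13) true (nat_lit 18) false (nat_lit 0) true (nat_lit 16) true (nat_lit 12) (.s false (nat_lit 3) (nat_lit 39) (nat_lit 3) (nat_lit 2) (nat_lit 2) true (nat_lit 8) true (nat_lit 16) false (nat_lit 0) true (nat_lit 15) true (nat_lit 16) (.s false (nat_lit 2) (nat_lit 39) (nat_lit 5) (nat_lit 1) (nat_lit 2) true (nat_lit 6) true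 (nat_lit 16) false (nat_lit 0) true (nat_lit 13) true (nat_lit 17) (.s false (nat_lit 2) (nat_lit 41) (nat_lit 5) (nat_lit 2) (nat_lit 1) true (nat_lit 8) true (nat_lit 17) false (nat_lit 0) true (nat_lit 13) true (nat_lit 16) (.s true (nat_lit 3) (nat_lit 40) (nat_lit 6) (nat_lit 2) (nat_lit 0) true (nat_lit 8) true (nat_lit 18) false (nat_lit 0) true (nat_lit 12) true (nat_lit 16) (.s false (nat_lit 2) (nat_lit 40) (nat_lit 7) (nat_lit 0) (nat_lit 1) true (nat_lit 5) true (nat_lit 17) false (nat_lit 0) true (nat_lit 11) true (nat_lit 18) (.s false (nat_lit 3) (nat_lit 46) (nat_lit 1) (nat_lit 2) (nat_lit 3) true (nat_lit 10) true (nat_lit 15) false (nat_lit 2) true (nat_lit 17) true (nat_lit 16) dC2d_i199)))))))))))))))))))))))))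

noncomputable def dC2d_i201 : IL := (.s false (nat_lit 3) (nat_lit 29) (nat_lit 1) (nat_lit 2) (nat_lit 7) true (nat_lit 5) true (nat_lit 11) true (nat_lit 2) true (nat_lit 17) true (nat_lit 16) (.s true (nat_lit 2) (nat_lit 24) (nat_lit 1) (nat_lit 7) (nat_lit 2) true (nat_lit 12) true (nat_lit 16) true (nat_lit 2) true (nat_lit 17) true (nat_lit 11) (.s true (nat_lit 2) (nat_lit 25) (nat_lit 1) (nat_lit 7) (nat_lit 2) true (nat_lit 12) true (nat_lit 16) true (nat_lit 2) true (nat_lit 17) true (nat_lit 11) (.s false (nat_lit 2) (nat_lit 26) (nat_lit 1) (nat_lit 7) (nat_lit 2) true (nat_lit 12) true (nat_lit 16) true (nat_lit 2) true (nat_lit 17) true (nat_lit 11) (.s false (nat_lit 3) (nat_lit 25) (nat_lit 2) (nat_lit 1) (nat_lit 7) true (nat_lit 4) true (nat_lit 11) true (nat_lit 2) true (nat_lit 16) true (nat_lit 17) (.s false (nat_lit 1) (nat_lit 27) (nat_lit 2) (nat_lit 1) (nat_lit 7) true (nat_lit 4) true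 (nat_lit 11) true (nat_lit 2) true (nat_lit 16) true (nat_lit 17) (.s true (nat_lit 2) (nat_lit 24) (nat_lit 2) (nat_lit 2) (nat_lit 6) true (nat_lit 5) true (nat_lit 12) true (nat_lit 2) true (nat_lit 16) true (nat_lit 16) (.s false (nat_lit 3) (nat_lit 26) (nat_lit 2) (nat_lit 2) (nat_lit 6) true (nat_lit 5) true (nat_lit 12) true (nat_lit 2) true (nat_lit 16) true (nat_lit 16) (.s false (nat_lit 1) (nat_lit 27) (nat_lit 2) (nat_lit 2) (nat_lit 6) true (nat_lit 5) true (nat_lit 12) true (nat_lit 2) true (nat_lit 16) true (nat_lit 16) (.s true (nat_lit 1) (nat_lit 24) (nat_lit 6) (nat_lit 2) (nat_lit 2) true (nat_lit 5) true (nat_lit 16) true (nat_lit 2) true (nat_lit 12) true (nat_lit 16) (.s true (nat_lit 2) (nat_lit 26) (nat_lit 6) (nat_lit 2) (nat_lit 2) true (nat_lit 5) true (nat_lit 16) true (nat_lit 2) true (nat_lit 12) true (nat_lit 16) (.s true (nat_lit 2) (nat_lit 27) (nat_lit 6) (nat_lit 2) (nat_lit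 2) true (nat_lit 5) true (nat_lit 16) true (nat_lit 2) true (nat_lit 12) true (nat_lit 16) (.s false (nat_lit 3) (nat_lit 25) (nat_lit 7) (nat_lit 2) (nat_lit 1) true (nat_lit 5) true (nat_lit 17) true (nat_lit 2) true (nat_lit 11) true (nat_lit 16) (.s false (nat_lit 2) (nat_lit 30) (nat_lit 0) (nat_lit 2) (nat_lit 7) true (nat_lit 6) true (nat_lit 11) true (nat_lit 1) true (nat_lit 18) true (nat_lit 16) (.s true (nat_lit 1) (nat_lit 30) (nat_lit 0) (nat_lit 7) (nat_lit 2) true (nat_lit 13) true (nat_lit 16) true (nat_lit 1) true (nat_lit 18) true (nat_lit 11) (.s true (nat_lit 1) (nat_lit 30) (nat_lit 2) (nat_lit 2) (nat_lit 5) true (nat_lit 6) true (nat_lit 13) true (nat_lit 1) true (nat_lit 16) true (nat_lit 16) (.s true (nat_lit 2) (nat_lit 30) (nat_lit 2) (nat_lit 5) (nat_lit 2) true (nat_lit 11) true (nat_lit 16) true (nat_lit 1) true (nat_lit 16) true (nat_lit 13) (.s false (nat_lit 1) (nat_lit 30) (nat_lit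 2) (nat_lit 7) (nat_lit 0) true (nat_lit 13) true (nat_lit 18) true (nat_lit 1) true (nat_lit 16) true (nat_lit 11) (.s false (nat_lit 2) (nat_lit 30) (nat_lit 5) (nat_lit 2) (nat_lit 2) true (nat_lit 6) true (nat_lit 16) true (nat_lit 1) true (nat_lit 13) true (nat_lit 16) (.s true (nat_lit 2) (nat_lit 33) (nat_lit 1) (nat_lit 1) (nat_lit 7) true (nat_lit 5) true (nat_lit 11) true (nat_lit 0) true (nat_lit 17) true (nat_lit 17) (.s true (nat_lit 1) (nat_lit 34) (nat_lit 1) (nat_lit 1) (nat_lit 7) true (nat_lit 5) true (nat_lit 11) true (nat_lit 0) true (nat_lit 17) true (nat_lit 17) (.s false (nat_lit 1) (nat_lit 34) (nat_lit 1) (nat_lit 2) (nat_lit 6) true (nat_lit 7) true (nat_lit 12) true (nat_lit 0) true (nat_lit 17) true (nat_lit 16) (.s true (nat_lit 1) (nat_lit 35) (nat_lit 1) (nat_lit 2) (nat_lit 6) true (nat_lit 7) true (nat_lit 12) true (nat_lit 0) true (nat_lit 17) true (nat_lit 16) (.s true (nat_lit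 3) (nat_lit 36) (nat_lit 1) (nat_lit 2) (nat_lit 6) true (nat_lit 7) true (nat_lit 12) true (nat_lit 0) true (nat_lit 17) true (nat_lit 16) (.s true (nat_lit 3) (nat_lit 37) (nat_lit 1) (nat_lit 2) (nat_lit 6) true (nat_lit 7) true (nat_lit 12) true (nat_lit 0) true (nat_lit 17) true (nat_lit 16) dC2d_i200)))))))))))))))))))))))))

noncomputable def dC2d_i202 : IL := (.s true (nat_lit 2) (nat_lit 20) (nat_lit 1) (nat_lit 3) (nat_lit 6) true (nat_lit 7) true (nat_lit 12) true (nat_lit 4) true (nat_lit 17) true (nat_lit 15) (.s false (nat_lit 1) (nat_lit 20) (nat_lit 1) (nat_lit 6) (nat_lit 3) true (nat_lit 10) true (nat_lit 15) true (nat_lit 4) true (nat_lit 17) true (nat_lit 12) (.s true (nat_lit 1) (nat_lit 20) (nat_lit 1) (nat_lit 8) (nat_lit 2) true (nat_lit 12) true (nat_lit 16) true (nat_lit 4) true (nat_lit 17) true (nat_lit 10) (.s true (nat_lit 1) (nat_lit 20) (nat_lit 1) (nat_lit 11) (nat_lit 1) true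 (nat_lit 14) true (nat_lit 17) true (nat_lit 4) true (nat_lit 17) true (nat_lit 8) (.s false (nat_lit 3) (nat_lit 20) (nat_lit 1) (nat_lit 12) (nat_lit 1) true (nat_lit 14) true (nat_lit 17) true (nat_lit 4) true (nat_lit 17) true (nat_lit 8) (.s true (nat_lit 2) (nat_lit 20) (nat_lit 1) (nat_lit 15) (nat_lit 0) true (nat_lit 15) true (nat_lit 18) true (nat_lit 4) true (nat_lit 17) true (nat_lit 7) (.s true (nat_lit 2) (nat_lit 20) (nat_lit 2) (nat_lit 0) (nat_lit 10) true (nat_lit 1) true (nat_lit 9) true (nat_lit 4) true (nat_lit 16) true (nat_lit 18) (.s true (nat_lit 2) (nat_lit 20) (nat_lit 2) (nat_lit 1) (nat_lit 8) true (nat_lit 2) true (nat_lit 10) true (nat_lit 4) true (nat_lit 16) true (nat_lit 17) (.s true (nat_lit 3) (nat_lit 20) (nat_lit 3) (nat_lit 4) (nat_lit 2) true (nat_lit 8) true (nat_lit 16) true (nat_lit 4) true (nat_lit 15) true (nat_lit 14) (.s true (nat_lit 3) (nat_lit 20) (nat_lit 4) (nat_lit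 2) (nat_lit 3) true (nat_lit 3) true (nat_lit 15) true (nat_lit 4) true (nat_lit 14) true (nat_lit 16) (.s true (nat_lit 2) (nat_lit 20) (nat_lit 8) (nat_lit 2) (nat_lit 1) true (nat_lit 3) true (nat_lit 17) true (nat_lit 4) true (nat_lit 10) true (nat_lit 16) (.s false (nat_lit 3) (nat_lit 20) (nat_lit 11) (nat_lit 1) (nat_lit 1) true (nat_lit 2) true (nat_lit 17) true (nat_lit 4) true (nat_lit 8) true (nat_lit 17) (.s false (nat_lit 3) (nat_lit 20) (nat_lit 12) (nat_lit 1) (nat_lit 1) true (nat_lit 2) true (nat_lit 17) true (nat_lit 4) true (nat_lit 8) true (nat_lit 17) (.s false (nat_lit 2) (nat_lit 20) (nat_lit 15) (nat_lit 1) (nat_lit 0) true (nat_lit 2) true (nat_lit 18) true (nat_lit 4) true (nat_lit 7) true (nat_lit 17) (.s false (nat_lit 1) (nat_lit 22) (nat_lit 2) (nat_lit 2) (nat_lit 7) true (nat_lit 4) true (nat_lit 11) true (nat_lit 3) true (nat_lit 16) true (nat_lit 16) (.s true (nat_lit 1) (nat_lit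 21) (nat_lit 2) (nat_lit 7) (nat_lit 2) true (nat_lit 11) true (nat_lit 16) true (nat_lit 3) true (nat_lit 16) true (nat_lit 11) (.s false (nat_lit 1) (nat_lit 22) (nat_lit 2) (nat_lit 7) (nat_lit 2) true (nat_lit 11) true (nat_lit 16) true (nat_lit 3) true (nat_lit 16) true (nat_lit 11) (.s true (nat_lit 2) (nat_lit 23) (nat_lit 2) (nat_lit 7) (nat_lit 2) true (nat_lit 11) true (nat_lit 16) true (nat_lit 3) true (nat_lit 16) true (nat_lit 11) (.s true (nat_lit 1) (nat_lit 21) (nat_lit 7) (nat_lit 2) (nat_lit 2) true (nat_lit 4) true (nat_lit 16) true (nat_lit 3) true (nat_lit 11) true (nat_lit 16) (.s false (nat_lit 3) (nat_lit 22) (nat_lit 7) (nat_lit 2) (nat_lit 2) true (nat_lit 4) true (nat_lit 16) true (nat_lit 3) true (nat_lit 11) true (nat_lit 16) (.s true (nat_lit 3) (nat_lit 23) (nat_lit 7) (nat_lit 2) (nat_lit 2) true (nat_lit 4) true (nat_lit 16) true (nat_lit 3) true (nat_lit 11) true (nat_lit 16)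 (.s false (nat_lit 1) (nat_lit 24) (nat_lit 1) (nat_lit 2) (nat_lit 7) true (nat_lit 5) true (nat_lit 11) true (nat_lit 2) true (nat_lit 17) true (nat_lit 16) (.s true (nat_lit 1) (nat_lit 25) (nat_lit 1) (nat_lit 2) (nat_lit 7) true (nat_lit 5) true (nat_lit 11) true (nat_lit 2) true (nat_lit 17) true (nat_lit 16) (.s true (nat_lit 1) (nat_lit 26) (nat_lit 1) (nat_lit 2) (nat_lit 7) true (nat_lit 5) true (nat_lit 11) true (nat_lit 2) true (nat_lit 17) true (nat_lit 16) (.s false (nat_lit 3) (nat_lit 27) (nat_lit 1) (nat_lit 2) (nat_lit 7) true (nat_lit 5) true (nat_lit 11) true (nat_lit 2) true (nat_lit 17) true (nat_lit 16) dC2d_i201)))))))))))))))))))))))))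

noncomputable def dC2d_i203 : IL := (.s false (nat_lit 1) (nat_lit 14) (nat_lit 2) (nat_lit 2) (nat_lit 12) true (nat_lit 0) true (nat_lit 8) true (nat_lit 7) true (nat_lit 16) true (nat_lit 16) (.s true (nat_lit 2) (nat_lit 15) (nat_lit 2) (nat_lit 2) (nat_lit 11) true (nat_lit 0) true (nat_lit 8) true (nat_lit 7) true (nat_lit 16) true (nat_lit 16) (.s true (nat_lit 1) (nat_lit 15) (nat_lit 2) (nat_lit 2) (nat_lit 12) true (nat_lit 0) true (nat_lit 8) true (nat_lit 7) true (nat_lit 16) true (nat_lit 16) (.s true (nat_lit 2) (nat_lit 15) (nat_lit 2) (nat_lit 3) (nat_lit 7) true (nat_lit 4) true (nat_lit 11) true (nat_lit 7) true (nat_lit 16) true (nat_lit 15) (.s false (nat_lit 2) (nat_lit 15) (nat_lit 2) (nat_lit 13) (nat_lit 2) true (nat_lit 11) true (nat_lit 16) true (nat_lit 7) true (nat_lit 16) true (nat_lit 8) (.s true (nat_lit 1) (nat_lit 14) (nat_lit 11) (nat_lit 2) (nat_lit 2) true (nat_lit 0) true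 (nat_lit 16) true (nat_lit 7) true (nat_lit 8) true (nat_lit 16) (.s false (nat_lit 2) (nat_lit 14) (nat_lit 13) (nat_lit 2) (nat_lit 2) true (nat_lit 0) true (nat_lit 16) true (nat_lit 7) true (nat_lit 8) true (nat_lit 16) (.s false (nat_lit 3) (nat_lit 18) (nat_lit 1) (nat_lit 1) (nat_lit 16) true (nat_lit 0) true (nat_lit 6) true (nat_lit 5) true (nat_lit 17) true (nat_lit 17) (.s false (nat_lit 3) (nat_lit 18) (nat_lit 1) (nat_lit 2) (nat_lit 12) true (nat_lit 2) true (nat_lit 8) true (nat_lit 5) true (nat_lit 17) true (nat_lit 16) (.s true (nat_lit 1) (nat_lit 19) (nat_lit 1) (nat_lit 7) (nat_lit 3) true (nat_lit 10) true (nat_lit 15) true (nat_lit 5) true (nat_lit 17) true (nat_lit 11) (.s false (nat_lit 3) (nat_lit 18) (nat_lit 2) (nat_lit 2) (nat_lit 8) true (nat_lit 2) true (nat_lit 10) true (nat_lit 5) true (nat_lit 16) true (nat_lit 16) (.s false (nat_lit 3) (nat_lit 19) (nat_lit 2) (nat_lit 2) (nat_lit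 8) true (nat_lit 2) true (nat_lit 10) true (nat_lit 5) true (nat_lit 16) true (nat_lit 16) (.s true (nat_lit 1) (nat_lit 19) (nat_lit 2) (nat_lit 6) (nat_lit 3) true (nat_lit 8) true (nat_lit 15) true (nat_lit 5) true (nat_lit 16) true (nat_lit 12) (.s true (nat_lit 3) (nat_lit 18) (nat_lit 2) (nat_lit 9) (nat_lit 2) true (nat_lit 11) true (nat_lit 16) true (nat_lit 5) true (nat_lit 16) true (nat_lit 10) (.s false (nat_lit 1) (nat_lit 18) (nat_lit 2) (nat_lit 11) (nat_lit 1) true (nat_lit 12) true (nat_lit 17) true (nat_lit 5) true (nat_lit 16) true (nat_lit 8) (.s true (nat_lit 1) (nat_lit 18) (nat_lit 7) (nat_lit 3) (nat_lit 1) true (nat_lit 5) true (nat_lit 17) true (nat_lit 5) true (nat_lit 11) true (nat_lit 15) (.s true (nat_lit 3) (nat_lit 18) (nat_lit 8) (nat_lit 2) (nat_lit 2) true (nat_lit 2) true (nat_lit 16) true (nat_lit 5) true (nat_lit 10) true (nat_lit 16) (.s false (nat_lit 1) (nat_lit 19) (nat_lit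 9) (nat_lit 2) (nat_lit 2) true (nat_lit 2) true (nat_lit 16) true (nat_lit 5) true (nat_lit 10) true (nat_lit 16) (.s false (nat_lit 3) (nat_lit 19) (nat_lit 11) (nat_lit 1) (nat_lit 2) true (nat_lit 0) true (nat_lit 16) true (nat_lit 5) true (nat_lit 8) true (nat_lit 17) (.s false (nat_lit 2) (nat_lit 19) (nat_lit 12) (nat_lit 1) (nat_lit 2) true (nat_lit 0) true (nat_lit 16) true (nat_lit 5) true (nat_lit 8) true (nat_lit 17) (.s true (nat_lit 2) (nat_lit 18) (nat_lit 11) (nat_lit 2) (nat_lit 1) true (nat_lit 2) true (nat_lit 17) true (nat_lit 5) true (nat_lit 8) true (nat_lit 16) (.s false (nat_lit 2) (nat_lit 20) (nat_lit 0) (nat_lit 1) (nat_lit 15) true (nat_lit 2) true (nat_lit 7) true (nat_lit 4) true (nat_lit 18) true (nat_lit 17) (.s false (nat_lit 1) (nat_lit 20) (nat_lit 0) (nat_lit 10) (nat_lit 2) true (nat_lit 13) true (nat_lit 16) true (nat_lit 4) true (nat_lit 18) true (nat_lit 9) (.s true (nat_lit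 2) (nat_lit 20) (nat_lit 1) (nat_lit 1) (nat_lit 12) true (nat_lit 2) true (nat_lit 8) true (nat_lit 4) true (nat_lit 17) true (nat_lit 17) (.s true (nat_lit 2) (nat_lit 20) (nat_lit 1) (nat_lit 2) (nat_lit 8) true (nat_lit 3) true (nat_lit 10) true (nat_lit 4) true (nat_lit 17) true (nat_lit 16) dC2d_i202)))))))))))))))))))))))))

noncomputable def dC2d_i204 : IL := (.e false (nat_lit 3) (nat_lit 261) (nat_lit 1) (nat_lit 17) (.e false (nat_lit 3) (nat_lit 263) (nat_lit 1) (nat_lit 17) (.e true (nat_lit 1) (nat_lit 286) (nat_lit 1) (nat_lit 17) (.e false (nat_lit 3) (nat_lit 257) (nat_lit 1) (nat_lit 17) (.e false (nat_lit 2) (nat_lit 262) (nat_lit 1) (nat_lit 17) (.e true (nat_lit 2) (nat_lit 271) (nat_lit 1) (nat_lit 17) (.e false (nat_lit 2) (nat_lit 276) (nat_lit 1) (nat_lit 17) (.e false (nat_lit 1) (nat_lit 62) (nat_lit 18) (nat_lit 5) (.e true (nat_lit 3) (nat_lit 289) (nat_lit 0) (nat_lit 18) (.e false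 (nat_lit 2) (nat_lit 290) (nat_lit 0) (nat_lit 18) (.e false (nat_lit 1) (nat_lit 291) (nat_lit 0) (nat_lit 18) (.e false (nat_lit 1) (nat_lit 292) (nat_lit 0) (nat_lit 18) (.e false (nat_lit 3) (nat_lit 293) (nat_lit 0) (nat_lit 18) (.e true (nat_lit 2) (nat_lit 294) (nat_lit 0) (nat_lit 18) (.e false (nat_lit 1) (nat_lit 295) (nat_lit 0) (nat_lit 18) (.e false (nat_lit 2) (nat_lit 296) (nat_lit 0) (nat_lit 18) (.e true (nat_lit 2) (nat_lit 297) (nat_lit 0) (nat_lit 18) (.e false (nat_lit 3) (nat_lit 300) (nat_lit 0) (nat_lit 18) (.e true (nat_lit 3) (nat_lit 301) (nat_lit 0) (nat_lit 18) (.e true (nat_lit 1) (nat_lit 303) (nat_lit 0) (nat_lit 18) (.e false (nat_lit 1) (nat_lit 304) (nat_lit 0) (nat_lit 18) (.e true (nat_lit 1) (nat_lit 280) (nat_lit 1) (nat_lit 17) (.u (nat_lit 2) (.p (nat_lit 0) (nat_lit 2) (.p (nat_lit 1) (nat_lit 2) (.n (nat_lit 2) (nat_lit 5) (.n (nat_lit 3) (nat_lit 3) (.p (nat_lit 4) (nat_lit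 2) (.p (nat_lit 5) (nat_lit 2) (.n (nat_lit 6) (nat_lit 3) (.p (nat_lit 7) (nat_lit 1) (.p (nat_lit 8) (nat_lit 4) (.p (nat_lit 9) (nat_lit 2) (.n (nat_lit 10) (nat_lit 1) (.p (nat_lit 11) (nat_lit 1) (.p (nat_lit 12) (nat_lit 3) (.p (nat_lit 14) (nat_lit 4) (.n (nat_lit 15) (nat_lit 1) (.n (nat_lit 17) (nat_lit 2) (.p (nat_lit 18) (nat_lit 1) (.p (nat_lit 20) (nat_lit 2) (.p (nat_lit 21) (nat_lit 1) (.n (nat_lit 22) (nat_lit 1) (.p (nat_lit 24) (nat_lit 3) (.p (nat_lit 26) (nat_lit 3) (.p (nat_lit 27) (nat_lit 3) (.n (nat_lit 28) (nat_lit 1) (.p (nat_lit 31) (nat_lit 3) (.p (nat_lit 32) (nat_lit 3) (.p (nat_lit 33) (nat_lit 6) (.n (nat_lit 34) (nat_lit 6) (.p (nat_lit 35) (nat_lit 2) (.p (nat_lit 36) (nat_lit 6) (.p (nat_lit 37) (nat_lit 1) (.n (nat_lit 38) (nat_lit 6) (.n (nat_lit 39) (nat_lit 1) (.p (nat_lit 40) (nat_lit 2) (.n (nat_lit 42) (nat_lit 1) (.p (nat_lit 44) (nat_lit 1) (.n (nat_lit 45) (nat_lit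 4) (.n (nat_lit 46) (nat_lit 2) (.n (nat_lit 47) (nat_lit 1) (.n (nat_lit 48) (nat_lit 2) (.p (nat_lit 50) (nat_lit 1) (.p (nat_lit 55) (nat_lit 2) (.n (nat_lit 64) (nat_lit 1) (.p (nat_lit 66) (nat_lit 1) (.n (nat_lit 93) (nat_lit 1) (.p (nat_lit 161) (nat_lit 1) (.n (nat_lit 206) (nat_lit 1) (.p (nat_lit 207) (nat_lit 1) (.n (nat_lit 208) (nat_lit 1) (.n (nat_lit 224) (nat_lit 2) (.p (nat_lit 225) (nat_lit 1) (.n (nat_lit 226) (nat_lit 3) (.p (nat_lit 229) (nat_lit 2) (.p (nat_lit 230) (nat_lit 3) (.n (nat_lit 231) (nat_lit 1) (.p (nat_lit 234) (nat_lit 5) (.p (nat_lit 241) (nat_lit 2) (.n (nat_lit 245) (nat_lit 1) (.n (nat_lit 253) (nat_lit 1) (.n (nat_lit 256) (nat_lit 1) .z)))))))))))))))))))))))))))))))))))))))))))))))))))))))))))) (.u (nat_lit 2) (.n (nat_lit 259) (nat_lit 1) (.n (nat_lit 260) (nat_lit 1) (.p (nat_lit 284) (nat_lit 1) (.p (nat_lit 297) (nat_lit 1) (.n (nat_lit 299) (nat_lit 1) (.p (nat_lit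 300) (nat_lit 1) (.n (nat_lit 302) (nat_lit 10) (.n (nat_lit 303) (nat_lit 12) (.p (nat_lit 306) (nat_lit 5) (.p (nat_lit 307) (nat_lit 6) (.n (nat_lit 308) (nat_lit 2) (.p (nat_lit 309) (nat_lit 1) (.p (nat_lit 310) (nat_lit 1) (.n (nat_lit 311) (nat_lit 2) (.n (nat_lit 312) (nat_lit 4) (.p (nat_lit 313) (nat_lit 1) (.p (nat_lit 314) (nat_lit 8) (.n (nat_lit 316) (nat_lit 8) (.n (nat_lit 317) (nat_lit 8) (.p (nat_lit 318) (nat_lit 1) (.p (nat_lit 319) (nat_lit 2) (.p (nat_lit 320) (nat_lit 1) (.n (nat_lit 322) (nat_lit 9) (.n (nat_lit 323) (nat_lit 6) (.n (nat_lit 324) (nat_lit 9) (.n (nat_lit 325) (nat_lit 3) (.p (nat_lit 326) (nat_lit 13) (.p (nat_lit 327) (nat_lit 7) (.p (nat_lit 328) (nat_lit 3) (.n (nat_lit 330) (nat_lit 2) (.n (nat_lit 331) (nat_lit 2) (.p (nat_lit 332) (nat_lit 1) (.p (nat_lit 335) (nat_lit 4) (.n (nat_lit 339) (nat_lit 3) (.p (nat_lit 342) (nat_lit 5) (.p (nat_lit 343) (nat_lit 11) (.p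 (nat_lit 344) (nat_lit 7) (.p (nat_lit 345) (nat_lit 7) (.n (nat_lit 346) (nat_lit 3) (.p (nat_lit 347) (nat_lit 1) (.n (nat_lit 348) (nat_lit 10) (.n (nat_lit 349) (nat_lit 2) (.p (nat_lit 350) (nat_lit 2) (.n (nat_lit 351) (nat_lit 5) (.n (nat_lit 353) (nat_lit 2) (.n (nat_lit 354) (nat_lit 2) (.p (nat_lit 355) (nat_lit 3) (.n (nat_lit 358) (nat_lit 3) (.p (nat_lit 359) (nat_lit 3) (.n (nat_lit 360) (nat_lit 5) (.n (nat_lit 361) (nat_lit 2) (.p (nat_lit 362) (nat_lit 2) (.n (nat_lit 363) (nat_lit 2) (.p (nat_lit 366) (nat_lit 7) (.n (nat_lit 367) (nat_lit 1) (.p (nat_lit 368) (nat_lit 1) (.p (nat_lit 369) (nat_lit 3) (.n (nat_lit 372) (nat_lit 1) (.p (nat_lit 373) (nat_lit 2) (.n (nat_lit 374) (nat_lit 4) .z)))))))))))))))))))))))))))))))))))))))))))))))))))))))))))) (.u (nat_lit 2) (.p (nat_lit 375) (nat_lit 1) (.n (nat_lit 376) (nat_lit 1) (.p (nat_lit 377) (nat_lit 1) (.n (nat_lit 379) (nat_lit 2) (.p (nat_lit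 380) (nat_lit 4) (.p (nat_lit 381) (nat_lit 1) (.n (nat_lit 382) (nat_lit 2) (.n (nat_lit 383) (nat_lit 2) (.p (nat_lit 384) (nat_lit 1) (.p (nat_lit 385) (nat_lit 2) (.n (nat_lit 386) (nat_lit 3) (.p (nat_lit 389) (nat_lit 1) (.p (nat_lit 390) (nat_lit 2) (.p (nat_lit 391) (nat_lit 1) (.p (nat_lit 392) (nat_lit 1) (.n (nat_lit 395) (nat_lit 2) (.p (nat_lit 397) (nat_lit 1) (.n (nat_lit 398) (nat_lit 1) (.p (nat_lit 400) (nat_lit 1) (.n (nat_lit 401) (nat_lit 1) .z)))))))))))))))))))) .nil)))))))))))))))))))))))))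

noncomputable def dC2d_i205 : IL := (.e true (nat_lit 3) (nat_lit 229) (nat_lit 2) (nat_lit 16) (.e false (nat_lit 1) (nat_lit 233) (nat_lit 2) (nat_lit 16) (.e true (nat_lit 1) (nat_lit 134) (nat_lit 6) (nat_lit 12) (.e false (nat_lit 1) (nat_lit 244) (nat_lit 2) (nat_lit 16) (.e false (nat_lit 3) (nat_lit 250) (nat_lit 2) (nat_lit 16) (.e true (nat_lit 1) (nat_lit 155) (nat_lit 6) (nat_lit 12) (.e false (nat_lit 2) (nat_lit 254) (nat_lit 1) (nat_lit 17) (.e false (nat_lit 1) (nat_lit 258) (nat_lit 1) (nat_lit 17) (.e false (nat_lit 3) (nat_lit 265) (nat_lit 1) (nat_lit 17) (.e true (nat_lit 2) (nat_lit 266) (nat_lit 1) (nat_lit 17) (.e false (nat_lit 1) (nat_lit 269) (nat_lit 1) (nat_lit 17) (.e true (nat_lit 2) (nat_lit 274) (nat_lit 1) (nat_lit 17) (.e false (nat_lit 1) (nat_lit 278) (nat_lit 1) (nat_lit 17) (.e true (nat_lit 1) (nat_lit 264) (nat_lit 1) (nat_lit 17) (.e false (nat_lit 1) (nat_lit 272) (nat_lit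 1) (nat_lit 17) (.e false (nat_lit 2) (nat_lit 273) (nat_lit 1) (nat_lit 17) (.e true (nat_lit 2) (nat_lit 284) (nat_lit 1) (nat_lit 17) (.e false (nat_lit 1) (nat_lit 285) (nat_lit 1) (nat_lit 17) (.e false (nat_lit 3) (nat_lit 255) (nat_lit 1) (nat_lit 17) (.e false (nat_lit 2) (nat_lit 267) (nat_lit 1) (nat_lit 17) (.e false (nat_lit 3) (nat_lit 270) (nat_lit 1) (nat_lit 17) (.e false (nat_lit 3) (nat_lit 275) (nat_lit 1) (nat_lit 17) (.e false (nat_lit 1) (nat_lit 279) (nat_lit 1) (nat_lit 17) (.e true (nat_lit 1) (nat_lit 288) (nat_lit 1) (nat_lit 17) (.e true (nat_lit 1) (nat_lit 256) (nat_lit 1) (nat_lit 17) dC2d_i204)))))))))))))))))))))))))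

noncomputable def dC2d_i206 : IL := (.e false (nat_lit 1) (nat_lit 208) (nat_lit 2) (nat_lit 16) (.e false (nat_lit 1) (nat_lit 216) (nat_lit 2) (nat_lit 16) (.e false (nat_lit 3) (nat_lit 144) (nat_lit 6) (nat_lit 12) (.e true (nat_lit 3) (nat_lit 205) (nat_lit 2) (nat_lit 16) (.e true (nat_lit 2) (nat_lit 215) (nat_lit 2) (nat_lit 16) (.e false (nat_lit 2) (nat_lit 251) (nat_lit 2) (nat_lit 16) (.e false (nat_lit 3) (nat_lit 231) (nat_lit 2) (nat_lit 16) (.e true (nat_lit 2) (nat_lit 206) (nat_lit 2) (nat_lit 16) (.e true (nat_lit 1) (nat_lit 210) (nat_lit 2) (nat_lit 16) (.e false (nat_lit 3) (nat_lit 211) (nat_lit 2) (nat_lit 16) (.e true (nat_lit 3) (nat_lit 213) (nat_lit 2) (nat_lit 16) (.e false (nat_lit 2) (nat_lit 214) (nat_lit 2) (nat_lit 16) (.e true (nat_lit 2) (nat_lit 219) (nat_lit 2) (nat_lit 16) (.e false (nat_lit 3) (nat_lit 220) (nat_lit 2) (nat_lit 16) (.e true (nat_lit 2) (nat_lit 209) (nat_lit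 2) (nat_lit 16) (.e true (nat_lit 1) (nat_lit 212) (nat_lit 2) (nat_lit 16) (.e true (nat_lit 2) (nat_lit 230) (nat_lit 2) (nat_lit 16) (.e true (nat_lit 3) (nat_lit 246) (nat_lit 2) (nat_lit 16) (.e false (nat_lit 1) (nat_lit 249) (nat_lit 2) (nat_lit 16) (.e true (nat_lit 1) (nat_lit 221) (nat_lit 2) (nat_lit 16) (.e true (nat_lit 1) (nat_lit 226) (nat_lit 2) (nat_lit 16) (.e true (nat_lit 3) (nat_lit 243) (nat_lit 2) (nat_lit 16) (.e true (nat_lit 2) (nat_lit 217) (nat_lit 2) (nat_lit 16) (.e false (nat_lit 2) (nat_lit 207) (nat_lit 2) (nat_lit 16) (.e true (nat_lit 3) (nat_lit 218) (nat_lit 2) (nat_lit 16) dC2d_i205)))))))))))))))))))))))))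

noncomputable def dC2d_i207 : IL := (.s false (nat_lit 2) (nat_lit 61) (nat_lit 2) (nat_lit 1) (nat_lit 2) true (nat_lit 11) true (nat_lit 16) false (nat_lit 5) true (nat_lit 16) true (nat_lit 17) (.s true (nat_lit 1) (nat_lit 62) (nat_lit 2) (nat_lit 1) (nat_lit 2) true (nat_lit 11) true (nat_lit 16) false (nat_lit 5) true (nat_lit 16) true (nat_lit 17) (.s false (nat_lit 2) (nat_lit 66) (nat_lit 2) (nat_lit 1) (nat_lit 2) true (nat_lit 11) true (nat_lit 16) false (nat_lit 5) true (nat_lit 16) true (nat_lit 17) (.s true (nat_lit 2) (nat_lit 67) (nat_lit 2) (nat_lit 1) (nat_lit 2) true (nat_lit 11) true (nat_lit 16) false (nat_lit 5) true (nat_lit 16) true (nat_lit 17) (.s false (nat_lit 1) (nat_lit 73) (nat_lit 2) (nat_lit 1) (nat_lit 2) true (nat_lit 11) true (nat_lit 16) false (nat_lit 5) true (nat_lit 16) true (nat_lit 17) (.s false (nat_lit 2) (nat_lit 61) (nat_lit 2) (nat_lit 2) (nat_lit 1) true (nat_lit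 12) true (nat_lit 17) false (nat_lit 5) true (nat_lit 16) true (nat_lit 16) (.s false (nat_lit 3) (nat_lit 62) (nat_lit 2) (nat_lit 2) (nat_lit 1) true (nat_lit 12) true (nat_lit 17) false (nat_lit 5) true (nat_lit 16) true (nat_lit 16) (.s false (nat_lit 2) (nat_lit 66) (nat_lit 2) (nat_lit 2) (nat_lit 1) true (nat_lit 12) true (nat_lit 17) false (nat_lit 5) true (nat_lit 16) true (nat_lit 16) (.s false (nat_lit 2) (nat_lit 67) (nat_lit 2) (nat_lit 2) (nat_lit 1) true (nat_lit 12) true (nat_lit 17) false (nat_lit 5) true (nat_lit 16) true (nat_lit 16) (.s false (nat_lit 3) (nat_lit 72) (nat_lit 2) (nat_lit 2) (nat_lit 1) true (nat_lit 12) true (nat_lit 17) false (nat_lit 5) true (nat_lit 16) true (nat_lit 16) (.s true (nat_lit 3) (nat_lit 73) (nat_lit 2) (nat_lit 2) (nat_lit 1) true (nat_lit 12) true (nat_lit 17) false (nat_lit 5) true (nat_lit 16) true (nat_lit 16) (.s true (nat_lit 3) (nat_lit 80) (nat_lit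 1) (nat_lit 1) (nat_lit 2) true (nat_lit 12) true (nat_lit 16) false (nat_lit 7) true (nat_lit 17) true (nat_lit 17) (.s true (nat_lit 3) (nat_lit 81) (nat_lit 1) (nat_lit 1) (nat_lit 2) true (nat_lit 12) true (nat_lit 16) false (nat_lit 7) true (nat_lit 17) true (nat_lit 17) (.s false (nat_lit 3) (nat_lit 88) (nat_lit 1) (nat_lit 2) (nat_lit 1) true (nat_lit 14) true (nat_lit 17) false (nat_lit 7) true (nat_lit 17) true (nat_lit 16) (.s true (nat_lit 3) (nat_lit 88) (nat_lit 2) (nat_lit 1) (nat_lit 1) true (nat_lit 12) true (nat_lit 17) false (nat_lit 7) true (nat_lit 16) true (nat_lit 17) (.s false (nat_lit 3) (nat_lit 96) (nat_lit 0) (nat_lit 1) (nat_lit 2) true (nat_lit 13) true (nat_lit 16) false (nat_lit 8) true (nat_lit 18) true (nat_lit 17) (.s false (nat_lit 3) (nat_lit 96) (nat_lit 1) (nat_lit 2) (nat_lit 0) true (nat_lit 15) true (nat_lit 18) false (nat_lit 8) true (nat_lit 17) true (nat_lit 16) (.s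 true (nat_lit 3) (nat_lit 96) (nat_lit 2) (nat_lit 1) (nat_lit 0) true (nat_lit 13) true (nat_lit 18) false (nat_lit 8) true (nat_lit 16) true (nat_lit 17) (.s true (nat_lit 2) (nat_lit 102) (nat_lit 0) (nat_lit 1) (nat_lit 1) true (nat_lit 15) true (nat_lit 17) false (nat_lit 10) true (nat_lit 18) true (nat_lit 17) (.s false (nat_lit 2) (nat_lit 103) (nat_lit 0) (nat_lit 1) (nat_lit 1) true (nat_lit 15) true (nat_lit 17) false (nat_lit 10) true (nat_lit 18) true (nat_lit 17) (.s true (nat_lit 2) (nat_lit 102) (nat_lit 1) (nat_lit 1) (nat_lit 0) true (nat_lit 15) true (nat_lit 18) false (nat_lit 10) true (nat_lit 17) true (nat_lit 17) (.s false (nat_lit 2) (nat_lit 103) (nat_lit 1) (nat_lit 1) (nat_lit 0) true (nat_lit 15) true (nat_lit 18) false (nat_lit 10) true (nat_lit 17) true (nat_lit 17) (.e false (nat_lit 2) (nat_lit 130) (nat_lit 7) (nat_lit 11) (.e false (nat_lit 1) (nat_lit 227) (nat_lit 2) (nat_lit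 16) (.e true (nat_lit 2) (nat_lit 242) (nat_lit 2) (nat_lit 16) dC2d_i206)))))))))))))))))))))))))

noncomputable def dC2d_i208 : IL := (.s false (nat_lit 3) (nat_lit 24) (nat_lit 6) (nat_lit 2) (nat_lit 2) true (nat_lit 5) true (nat_lit 16) true (nat_lit 2) true (nat_lit 12) true (nat_lit 16) (.s true (nat_lit 2) (nat_lit 33) (nat_lit 1) (nat_lit 1) (nat_lit 7) true (nat_lit 5) true (nat_lit 11) true (nat_lit 0) true (nat_lit 17) true (nat_lit 17) (.s true (nat_lit 2) (nat_lit 34) (nat_lit 1) (nat_lit 1) (nat_lit 7) true (nat_lit 5) true (nat_lit 11) true (nat_lit 0) true (nat_lit 17) true (nat_lit 17) (.s false (nat_lit 1) (nat_lit 33) (nat_lit 1) (nat_lit 7) (nat_lit 1) true (nat_lit 14) true (nat_lit 17) true (nat_lit 0) true (nat_lit 17) true (nat_lit 11) (.s true (nat_lit 3) (nat_lit 34) (nat_lit 1) (nat_lit 7) (nat_lit 1) true (nat_lit 14) true (nat_lit 17) true (nat_lit 0) true (nat_lit 17) true (nat_lit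 11) (.s true (nat_lit 1) (nat_lit 33) (nat_lit 2) (nat_lit 1) (nat_lit 6) true (nat_lit 5) true (nat_lit 12) true (nat_lit 0) true (nat_lit 16) true (nat_lit 17) (.s false (nat_lit 2) (nat_lit 34) (nat_lit 2) (nat_lit 1) (nat_lit 6) true (nat_lit 5) true (nat_lit 12) true (nat_lit 0) true (nat_lit 16) true (nat_lit 17) (.s true (nat_lit 1) (nat_lit 33) (nat_lit 2) (nat_lit 6) (nat_lit 1) true (nat_lit 12) true (nat_lit 17) true (nat_lit 0) true (nat_lit 16) true (nat_lit 12) (.s true (nat_lit 1) (nat_lit 34) (nat_lit 2) (nat_lit 6) (nat_lit 1) true (nat_lit 12) true (nat_lit 17) true (nat_lit 0) true (nat_lit 16) true (nat_lit 12) (.s true (nat_lit 1) (nat_lit 33) (nat_lit 4) (nat_lit 2) (nat_lit 2) true (nat_lit 7) true (nat_lit 16) true (nat_lit 0) true (nat_lit 14) true (nat_lit 16) (.s false (nat_lit 3) (nat_lit 34) (nat_lit 4) (nat_lit 2) (nat_lit 2) true (nat_lit 7) true (nat_lit 16) true (nat_lit 0) true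 (nat_lit 14) true (nat_lit 16) (.s false (nat_lit 3) (nat_lit 46) (nat_lit 1) (nat_lit 3) (nat_lit 2) true (nat_lit 12) true (nat_lit 16) false (nat_lit 2) true (nat_lit 17) true (nat_lit 15) (.s true (nat_lit 3) (nat_lit 47) (nat_lit 1) (nat_lit 3) (nat_lit 2) true (nat_lit 12) true (nat_lit 16) false (nat_lit 2) true (nat_lit 17) true (nat_lit 15) (.s true (nat_lit 2) (nat_lit 52) (nat_lit 2) (nat_lit 2) (nat_lit 2) true (nat_lit 11) true (nat_lit 16) false (nat_lit 4) true (nat_lit 16) true (nat_lit 16) (.s true (nat_lit 2) (nat_lit 53) (nat_lit 2) (nat_lit 2) (nat_lit 2) true (nat_lit 11) true (nat_lit 16) false (nat_lit 4) true (nat_lit 16) true (nat_lit 16) (.s false (nat_lit 2) (nat_lit 55) (nat_lit 2) (nat_lit 2) (nat_lit 2) true (nat_lit 11) true (nat_lit 16) false (nat_lit 4) true (nat_lit 16) true (nat_lit 16) (.s true (nat_lit 2) (nat_lit 56) (nat_lit 2) (nat_lit 2) (nat_lit 2) true (nat_lit 11) true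 (nat_lit 16) false (nat_lit 4) true (nat_lit 16) true (nat_lit 16) (.s true (nat_lit 2) (nat_lit 57) (nat_lit 2) (nat_lit 2) (nat_lit 2) true (nat_lit 11) true (nat_lit 16) false (nat_lit 4) true (nat_lit 16) true (nat_lit 16) (.s false (nat_lit 2) (nat_lit 58) (nat_lit 2) (nat_lit 2) (nat_lit 2) true (nat_lit 11) true (nat_lit 16) false (nat_lit 4) true (nat_lit 16) true (nat_lit 16) (.s false (nat_lit 2) (nat_lit 59) (nat_lit 2) (nat_lit 2) (nat_lit 2) true (nat_lit 11) true (nat_lit 16) false (nat_lit 4) true (nat_lit 16) true (nat_lit 16) (.s false (nat_lit 2) (nat_lit 60) (nat_lit 1) (nat_lit 2) (nat_lit 2) true (nat_lit 12) true (nat_lit 16) false (nat_lit 5) true (nat_lit 17) true (nat_lit 16) (.s false (nat_lit 1) (nat_lit 61) (nat_lit 1) (nat_lit 2) (nat_lit 2) true (nat_lit 12) true (nat_lit 16) false (nat_lit 5) true (nat_lit 17) true (nat_lit 16) (.s true (nat_lit 1) (nat_lit 63) (nat_lit 1) (nat_lit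 2) (nat_lit 2) true (nat_lit 12) true (nat_lit 16) false (nat_lit 5) true (nat_lit 17) true (nat_lit 16) (.s true (nat_lit 1) (nat_lit 68) (nat_lit 1) (nat_lit 2) (nat_lit 2) true (nat_lit 12) true (nat_lit 16) false (nat_lit 5) true (nat_lit 17) true (nat_lit 16) (.s true (nat_lit 3) (nat_lit 72) (nat_lit 1) (nat_lit 2) (nat_lit 2) true (nat_lit 12) true (nat_lit 16) false (nat_lit 5) true (nat_lit 17) true (nat_lit 16) dC2d_i207)))))))))))))))))))))))))

noncomputable def dC2d_i209 : IL := (.e false (nat_lit 3) (nat_lit 262) (nat_lit 1) (nat_lit 17) (.e false (nat_lit 2) (nat_lit 263) (nat_lit 1) (nat_lit 17) (.e false (nat_lit 3) (nat_lit 271) (nat_lit 1) (nat_lit 17) (.e false (nat_lit 3) (nat_lit 273) (nat_lit 1) (nat_lit 17) (.e false (nat_lit 3) (nat_lit 275) (nat_lit 1) (nat_lit 17) (.e true (nat_lit 3) (nat_lit 276) (nat_lit 1) (nat_lit 17) (.e true (nat_lit 1) (nat_lit 279) (nat_lit 1) (nat_lit 17) (.e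 true (nat_lit 1) (nat_lit 282) (nat_lit 1) (nat_lit 17) (.e true (nat_lit 3) (nat_lit 170) (nat_lit 4) (nat_lit 14) (.e true (nat_lit 1) (nat_lit 289) (nat_lit 0) (nat_lit 18) (.e false (nat_lit 2) (nat_lit 290) (nat_lit 0) (nat_lit 18) (.e true (nat_lit 3) (nat_lit 291) (nat_lit 0) (nat_lit 18) (.e true (nat_lit 2) (nat_lit 293) (nat_lit 0) (nat_lit 18) (.e true (nat_lit 1) (nat_lit 294) (nat_lit 0) (nat_lit 18) (.e false (nat_lit 3) (nat_lit 295) (nat_lit 0) (nat_lit 18) (.e true (nat_lit 3) (nat_lit 297) (nat_lit 0) (nat_lit 18) (.e false (nat_lit 2) (nat_lit 299) (nat_lit 0) (nat_lit 18) (.e true (nat_lit 2) (nat_lit 301) (nat_lit 0) (nat_lit 18) (.e false (nat_lit 2) (nat_lit 280) (nat_lit 1) (nat_lit 17) (.e false (nat_lit 3) (nat_lit 300) (nat_lit 0) (nat_lit 18) (.e false (nat_lit 1) (nat_lit 296) (nat_lit 0) (nat_lit 18) (.u (nat_lit 2) (.n (nat_lit 1) (nat_lit 1) (.p (nat_lit 2) (nat_lit 1) (.n (nat_lit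 3) (nat_lit 2) (.n (nat_lit 5) (nat_lit 1) (.n (nat_lit 6) (nat_lit 1) (.p (nat_lit 7) (nat_lit 1) (.n (nat_lit 8) (nat_lit 1) (.p (nat_lit 12) (nat_lit 1) (.p (nat_lit 14) (nat_lit 1) (.n (nat_lit 15) (nat_lit 1) (.p (nat_lit 16) (nat_lit 1) (.n (nat_lit 17) (nat_lit 1) (.n (nat_lit 20) (nat_lit 1) (.n (nat_lit 23) (nat_lit 2) (.n (nat_lit 24) (nat_lit 1) (.p (nat_lit 25) (nat_lit 1) (.n (nat_lit 26) (nat_lit 1) (.p (nat_lit 29) (nat_lit 1) (.n (nat_lit 31) (nat_lit 2) (.p (nat_lit 33) (nat_lit 2) (.n (nat_lit 34) (nat_lit 3) (.p (nat_lit 35) (nat_lit 2) (.n (nat_lit 36) (nat_lit 1) (.p (nat_lit 37) (nat_lit 3) (.n (nat_lit 38) (nat_lit 2) (.n (nat_lit 39) (nat_lit 2) (.n (nat_lit 41) (nat_lit 1) (.p (nat_lit 45) (nat_lit 1) (.p (nat_lit 46) (nat_lit 2) (.p (nat_lit 47) (nat_lit 2) (.p (nat_lit 48) (nat_lit 1) (.n (nat_lit 66) (nat_lit 1) (.p (nat_lit 67) (nat_lit 1) (.p (nat_lit 72) (nat_lit 1) (.n (nat_lit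 73) (nat_lit 1) (.p (nat_lit 81) (nat_lit 1) (.p (nat_lit 82) (nat_lit 1) (.n (nat_lit 90) (nat_lit 1) (.p (nat_lit 91) (nat_lit 1) (.n (nat_lit 96) (nat_lit 1) (.p (nat_lit 97) (nat_lit 1) (.n (nat_lit 98) (nat_lit 1) (.p (nat_lit 108) (nat_lit 1) (.p (nat_lit 121) (nat_lit 1) (.p (nat_lit 124) (nat_lit 1) (.p (nat_lit 125) (nat_lit 1) (.n (nat_lit 126) (nat_lit 1) (.p (nat_lit 128) (nat_lit 1) (.n (nat_lit 130) (nat_lit 1) (.n (nat_lit 134) (nat_lit 1) (.n (nat_lit 136) (nat_lit 2) (.p (nat_lit 138) (nat_lit 2) (.n (nat_lit 139) (nat_lit 1) (.n (nat_lit 140) (nat_lit 1) (.n (nat_lit 141) (nat_lit 1) (.n (nat_lit 142) (nat_lit 1) (.p (nat_lit 145) (nat_lit 1) (.n (nat_lit 146) (nat_lit 1) (.p (nat_lit 147) (nat_lit 2) (.p (nat_lit 153) (nat_lit 1) .z)))))))))))))))))))))))))))))))))))))))))))))))))))))))))))) (.u (nat_lit 2) (.p (nat_lit 156) (nat_lit 1) (.p (nat_lit 157) (nat_lit 2) (.n (nat_lit 158) (nat_lit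 2) (.n (nat_lit 159) (nat_lit 2) (.p (nat_lit 160) (nat_lit 2) (.n (nat_lit 162) (nat_lit 1) (.p (nat_lit 163) (nat_lit 1) (.p (nat_lit 164) (nat_lit 1) (.p (nat_lit 166) (nat_lit 1) (.n (nat_lit 169) (nat_lit 1) (.p (nat_lit 184) (nat_lit 2) (.n (nat_lit 191) (nat_lit 1) (.p (nat_lit 194) (nat_lit 1) (.n (nat_lit 202) (nat_lit 2) (.n (nat_lit 203) (nat_lit 1) (.p (nat_lit 204) (nat_lit 1) (.n (nat_lit 206) (nat_lit 1) (.n (nat_lit 208) (nat_lit 1) (.n (nat_lit 212) (nat_lit 1) (.p (nat_lit 213) (nat_lit 1) (.p (nat_lit 214) (nat_lit 1) (.p (nat_lit 215) (nat_lit 2) (.n (nat_lit 216) (nat_lit 2) (.p (nat_lit 217) (nat_lit 2) (.p (nat_lit 218) (nat_lit 1) (.n (nat_lit 219) (nat_lit 1) (.n (nat_lit 220) (nat_lit 2) (.p (nat_lit 222) (nat_lit 1) (.p (nat_lit 223) (nat_lit 2) (.p (nat_lit 224) (nat_lit 6) (.p (nat_lit 226) (nat_lit 1) (.n (nat_lit 229) (nat_lit 3) (.n (nat_lit 230) (nat_lit 4) (.p (nat_lit 231) (nat_lit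 1) (.n (nat_lit 234) (nat_lit 3) (.n (nat_lit 237) (nat_lit 1) (.n (nat_lit 238) (nat_lit 1) (.p (nat_lit 241) (nat_lit 1) (.n (nat_lit 242) (nat_lit 1) (.n (nat_lit 243) (nat_lit 1) (.p (nat_lit 244) (nat_lit 1) (.n (nat_lit 245) (nat_lit 2) (.p (nat_lit 246) (nat_lit 1) (.p (nat_lit 252) (nat_lit 1) (.p (nat_lit 253) (nat_lit 1) (.n (nat_lit 254) (nat_lit 1) (.n (nat_lit 256) (nat_lit 1) (.n (nat_lit 261) (nat_lit 1) (.n (nat_lit 266) (nat_lit 1) (.n (nat_lit 267) (nat_lit 2) (.p (nat_lit 268) (nat_lit 1) (.p (nat_lit 269) (nat_lit 3) (.n (nat_lit 270) (nat_lit 1) (.n (nat_lit 271) (nat_lit 1) (.n (nat_lit 272) (nat_lit 1) (.p (nat_lit 273) (nat_lit 1) (.p (nat_lit 276) (nat_lit 1) (.p (nat_lit 277) (nat_lit 1) (.n (nat_lit 278) (nat_lit 1) (.p (nat_lit 281) (nat_lit 1) .z)))))))))))))))))))))))))))))))))))))))))))))))))))))))))))) (.u (nat_lit 2) (.n (nat_lit 282) (nat_lit 1) (.n (nat_lit 283) (nat_lit 1) (.n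 (nat_lit 284) (nat_lit 2) (.n (nat_lit 285) (nat_lit 1) (.n (nat_lit 286) (nat_lit 2) (.p (nat_lit 288) (nat_lit 2) (.p (nat_lit 292) (nat_lit 1) (.p (nat_lit 293) (nat_lit 2) (.n (nat_lit 294) (nat_lit 1) (.p (nat_lit 295) (nat_lit 3) (.n (nat_lit 296) (nat_lit 1) (.n (nat_lit 297) (nat_lit 2) (.n (nat_lit 299) (nat_lit 2) (.p (nat_lit 300) (nat_lit 1) (.p (nat_lit 301) (nat_lit 1) (.n (nat_lit 302) (nat_lit 9) (.n (nat_lit 303) (nat_lit 4) (.n (nat_lit 304) (nat_lit 6) (.n (nat_lit 305) (nat_lit 22) (.n (nat_lit 306) (nat_lit 1) (.n (nat_lit 307) (nat_lit 18) (.n (nat_lit 308) (nat_lit 5) (.p (nat_lit 309) (nat_lit 16) (.n (nat_lit 310) (nat_lit 9) (.n (nat_lit 311) (nat_lit 3) (.n (nat_lit 312) (nat_lit 27) (.n (nat_lit 313) (nat_lit 13) (.n (nat_lit 314) (nat_lit 1) (.n (nat_lit 315) (nat_lit 31) (.p (nat_lit 316) (nat_lit 1) (.p (nat_lit 317) (nat_lit 10) (.n (nat_lit 318) (nat_lit 5) (.n (nat_lit 319) (nat_lit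 28) (.n (nat_lit 320) (nat_lit 3) (.p (nat_lit 321) (nat_lit 1) (.n (nat_lit 322) (nat_lit 11) (.p (nat_lit 323) (nat_lit 26) (.p (nat_lit 324) (nat_lit 14) (.p (nat_lit 325) (nat_lit 21) (.p (nat_lit 326) (nat_lit 30) (.p (nat_lit 327) (nat_lit 18) (.p (nat_lit 328) (nat_lit 9) (.p (nat_lit 329) (nat_lit 9) (.n (nat_lit 330) (nat_lit 1) (.n (nat_lit 331) (nat_lit 13) (.p (nat_lit 332) (nat_lit 2) (.n (nat_lit 333) (nat_lit 1) (.p (nat_lit 334) (nat_lit 1) (.p (nat_lit 335) (nat_lit 1) (.n (nat_lit 336) (nat_lit 1) (.n (nat_lit 338) (nat_lit 1) (.n (nat_lit 339) (nat_lit 10) (.n (nat_lit 340) (nat_lit 5) (.p (nat_lit 341) (nat_lit 13) (.p (nat_lit 342) (nat_lit 43) (.n (nat_lit 343) (nat_lit 5) (.n (nat_lit 344) (nat_lit 18) (.n (nat_lit 345) (nat_lit 36) (.p (nat_lit 346) (nat_lit 7) (.n (nat_lit 347) (nat_lit 16) .z)))))))))))))))))))))))))))))))))))))))))))))))))))))))))))) (.u (nat_lit 2) (.p (nat_lit 348)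 (nat_lit 17) (.p (nat_lit 349) (nat_lit 3) (.p (nat_lit 350) (nat_lit 16) (.n (nat_lit 351) (nat_lit 33) (.n (nat_lit 353) (nat_lit 7) (.p (nat_lit 354) (nat_lit 19) (.p (nat_lit 355) (nat_lit 26) (.p (nat_lit 356) (nat_lit 19) (.p (nat_lit 357) (nat_lit 13) (.p (nat_lit 358) (nat_lit 8) (.n (nat_lit 359) (nat_lit 2) (.p (nat_lit 360) (nat_lit 15) (.p (nat_lit 361) (nat_lit 17) (.n (nat_lit 362) (nat_lit 13) (.p (nat_lit 363) (nat_lit 6) (.n (nat_lit 364) (nat_lit 9) (.n (nat_lit 365) (nat_lit 3) (.p (nat_lit 366) (nat_lit 12) (.p (nat_lit 367) (nat_lit 3) (.p (nat_lit 368) (nat_lit 6) (.p (nat_lit 369) (nat_lit 4) (.p (nat_lit 370) (nat_lit 9) (.p (nat_lit 371) (nat_lit 15) (.p (nat_lit 372) (nat_lit 10) (.n (nat_lit 373) (nat_lit 11) (.n (nat_lit 374) (nat_lit 16) (.n (nat_lit 375) (nat_lit 4) (.n (nat_lit 376) (nat_lit 1) (.p (nat_lit 377) (nat_lit 7) (.n (nat_lit 378) (nat_lit 3) (.n (nat_lit 379) (nat_lit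 5) (.n (nat_lit 380) (nat_lit 5) (.p (nat_lit 381) (nat_lit 4) (.p (nat_lit 382) (nat_lit 7) (.n (nat_lit 383) (nat_lit 5) (.p (nat_lit 384) (nat_lit 1) (.n (nat_lit 385) (nat_lit 6) (.n (nat_lit 386) (nat_lit 4) (.p (nat_lit 387) (nat_lit 4) (.p (nat_lit 388) (nat_lit 5) (.p (nat_lit 389) (nat_lit 3) (.p (nat_lit 390) (nat_lit 3) (.p (nat_lit 391) (nat_lit 1) (.p (nat_lit 392) (nat_lit 1) (.p (nat_lit 393) (nat_lit 3) (.n (nat_lit 394) (nat_lit 3) (.n (nat_lit 395) (nat_lit 7) (.p (nat_lit 396) (nat_lit 2) (.p (nat_lit 397) (nat_lit 3) (.n (nat_lit 398) (nat_lit 3) (.n (nat_lit 399) (nat_lit 3) (.p (nat_lit 400) (nat_lit 1) .z)))))))))))))))))))))))))))))))))))))))))))))))))))) .nil)))))))))))))))))))))))))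

noncomputable def dC2d_i210 : IL := (.s false (nat_lit 2) (nat_lit 104) (nat_lit 1) (nat_lit 1) (nat_lit 0) true (nat_lit 15) true (nat_lit 18) false (nat_lit 10) true (nat_lit 17) true (nat_lit 17) (.e true (nat_lit 3) (nat_lit 205) (nat_lit 2) (nat_lit 16) (.e false (nat_lit 3) (nat_lit 208) (nat_lit 2) (nat_lit 16) (.e true (nat_lit 1) (nat_lit 227) (nat_lit 2) (nat_lit 16) (.e false (nat_lit 3) (nat_lit 206) (nat_lit 2) (nat_lit 16) (.e false (nat_lit 3) (nat_lit 209) (nat_lit 2) (nat_lit 16) (.e true (nat_lit 1) (nat_lit 230) (nat_lit 2) (nat_lit 16) (.e false (nat_lit 2) (nat_lit 207) (nat_lit 2) (nat_lit 16) (.e true (nat_lit 1) (nat_lit 272) (nat_lit 1) (nat_lit 17) (.e false (nat_lit 2) (nat_lit 298) (nat_lit 0) (nat_lit 18) (.e false (nat_lit 1) (nat_lit 254) (nat_lit 1) (nat_lit 17) (.e true (nat_lit 1) (nat_lit 265) (nat_lit 1) (nat_lit 17) (.e false (nat_lit 1) (nat_lit 266) (nat_lit 1) (nat_lit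 17) (.e true (nat_lit 3) (nat_lit 269) (nat_lit 1) (nat_lit 17) (.e false (nat_lit 2) (nat_lit 274) (nat_lit 1) (nat_lit 17) (.e true (nat_lit 1) (nat_lit 278) (nat_lit 1) (nat_lit 17) (.e true (nat_lit 2) (nat_lit 264) (nat_lit 1) (nat_lit 17) (.e false (nat_lit 1) (nat_lit 252) (nat_lit 1) (nat_lit 17) (.e true (nat_lit 1) (nat_lit 253) (nat_lit 1) (nat_lit 17) (.e false (nat_lit 1) (nat_lit 258) (nat_lit 1) (nat_lit 17) (.e false (nat_lit 1) (nat_lit 277) (nat_lit 1) (nat_lit 17) (.e false (nat_lit 1) (nat_lit 256) (nat_lit 1) (nat_lit 17) (.e true (nat_lit 3) (nat_lit 259) (nat_lit 1) (nat_lit 17) (.e false (nat_lit 3) (nat_lit 260) (nat_lit 1) (nat_lit 17) (.e true (nat_lit 1) (nat_lit 261) (nat_lit 1) (nat_lit 17) dC2d_i209)))))))))))))))))))))))))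

noncomputable def dC2d_i211 : IL := (.s false (nat_lit 2) (nat_lit 80) (nat_lit 1) (nat_lit 2) (nat_lit 1) true (nat_lit 14) true (nat_lit 17) false (nat_lit 7) true (nat_lit 17) true (nat_lit 16) (.s true (nat_lit 2) (nat_lit 82) (nat_lit 1) (nat_lit 2) (nat_lit 1) true (nat_lit 14) true (nat_lit 17) false (nat_lit 7) true (nat_lit 17) true (nat_lit 16) (.s true (nat_lit 1) (nat_lit 83) (nat_lit 1) (nat_lit 2) (nat_lit 1) true (nat_lit 14) true (nat_lit 17) false (nat_lit 7) true (nat_lit 17) true (nat_lit 16) (.s false (nat_lit 3) (nat_lit 85) (nat_lit 1) (nat_lit 2) (nat_lit 1) true (nat_lit 14) true (nat_lit 17) false (nat_lit 7) true (nat_lit 17) true (nat_lit 16) (.s true (nat_lit 2) (nat_lit 88) (nat_lit 1) (nat_lit 2) (nat_lit 1) true (nat_lit 14) true (nat_lit 17) false (nat_lit 7) true (nat_lit 17) true (nat_lit 16) (.s true (nat_lit 2) (nat_lit 80) (nat_lit 2) (nat_lit 1) (nat_lit 1) true (nat_lit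 12) true (nat_lit 17) false (nat_lit 7) true (nat_lit 16) true (nat_lit 17) (.s false (nat_lit 2) (nat_lit 83) (nat_lit 2) (nat_lit 1) (nat_lit 1) true (nat_lit 12) true (nat_lit 17) false (nat_lit 7) true (nat_lit 16) true (nat_lit 17) (.s true (nat_lit 3) (nat_lit 88) (nat_lit 2) (nat_lit 1) (nat_lit 1) true (nat_lit 12) true (nat_lit 17) false (nat_lit 7) true (nat_lit 16) true (nat_lit 17) (.s false (nat_lit 2) (nat_lit 92) (nat_lit 0) (nat_lit 1) (nat_lit 2) true (nat_lit 13) true (nat_lit 16) false (nat_lit 8) true (nat_lit 18) true (nat_lit 17) (.s false (nat_lit 2) (nat_lit 93) (nat_lit 0) (nat_lit 1) (nat_lit 2) true (nat_lit 13) true (nat_lit 16) false (nat_lit 8) true (nat_lit 18) true (nat_lit 17) (.s false (nat_lit 1) (nat_lit 96) (nat_lit 0) (nat_lit 1) (nat_lit 2) true (nat_lit 13) true (nat_lit 16) false (nat_lit 8) true (nat_lit 18) true (nat_lit 17) (.s false (nat_lit 2) (nat_lit 91) (nat_lit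 0) (nat_lit 2) (nat_lit 1) true (nat_lit 15) true (nat_lit 17) false (nat_lit 8) true (nat_lit 18) true (nat_lit 16) (.s false (nat_lit 2) (nat_lit 92) (nat_lit 1) (nat_lit 0) (nat_lit 2) true (nat_lit 12) true (nat_lit 16) false (nat_lit 8) true (nat_lit 17) true (nat_lit 18) (.s true (nat_lit 3) (nat_lit 93) (nat_lit 1) (nat_lit 2) (nat_lit 0) true (nat_lit 15) true (nat_lit 18) false (nat_lit 8) true (nat_lit 17) true (nat_lit 16) (.s true (nat_lit 3) (nat_lit 92) (nat_lit 2) (nat_lit 1) (nat_lit 0) true (nat_lit 13) true (nat_lit 18) false (nat_lit 8) true (nat_lit 16) true (nat_lit 17) (.s false (nat_lit 3) (nat_lit 93) (nat_lit 2) (nat_lit 1) (nat_lit 0) true (nat_lit 13) true (nat_lit 18) false (nat_lit 8) true (nat_lit 16) true (nat_lit 17) (.s false (nat_lit 1) (nat_lit 97) (nat_lit 1) (nat_lit 1) (nat_lit 1) true (nat_lit 14) true (nat_lit 17) false (nat_lit 9) true (nat_lit 17) true (nat_lit 17) (.s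 false (nat_lit 2) (nat_lit 98) (nat_lit 1) (nat_lit 1) (nat_lit 1) true (nat_lit 14) true (nat_lit 17) false (nat_lit 9) true (nat_lit 17) true (nat_lit 17) (.s true (nat_lit 2) (nat_lit 100) (nat_lit 1) (nat_lit 1) (nat_lit 1) true (nat_lit 14) true (nat_lit 17) false (nat_lit 9) true (nat_lit 17) true (nat_lit 17) (.s false (nat_lit 1) (nat_lit 101) (nat_lit 0) (nat_lit 1) (nat_lit 1) true (nat_lit 15) true (nat_lit 17) false (nat_lit 10) true (nat_lit 18) true (nat_lit 17) (.s true (nat_lit 1) (nat_lit 102) (nat_lit 0) (nat_lit 1) (nat_lit 1) true (nat_lit 15) true (nat_lit 17) false (nat_lit 10) true (nat_lit 18) true (nat_lit 17) (.s true (nat_lit 2) (nat_lit 104) (nat_lit 0) (nat_lit 1) (nat_lit 1) true (nat_lit 15) true (nat_lit 17) false (nat_lit 10) true (nat_lit 18) true (nat_lit 17) (.s true (nat_lit 3) (nat_lit 101) (nat_lit 1) (nat_lit 1) (nat_lit 0) true (nat_lit 15) true (nat_lit 18) false (nat_lit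 10) true (nat_lit 17) true (nat_lit 17) (.s true (nat_lit 2) (nat_lit 102) (nat_lit 1) (nat_lit 1) (nat_lit 0) true (nat_lit 15) true (nat_lit 18) false (nat_lit 10) true (nat_lit 17) true (nat_lit 17) (.s false (nat_lit 2) (nat_lit 103) (nat_lit 1) (nat_lit 1) (nat_lit 0) true (nat_lit 15) true (nat_lit 18) false (nat_lit 10) true (nat_lit 17) true (nat_lit 17) dC2d_i210)))))))))))))))))))))))))

noncomputable def dC2d_i212 : IL := (.s false (nat_lit 3) (nat_lit 64) (nat_lit 2) (nat_lit 2) (nat_lit 1) true (nat_lit 12) true (nat_lit 17) false (nat_lit 5) true (nat_lit 16) true (nat_lit 16) (.s false (nat_lit 1) (nat_lit 65) (nat_lit 2) (nat_lit 2) (nat_lit 1) true (nat_lit 12) true (nat_lit 17) false (nat_lit 5) true (nat_lit 16) true (nat_lit 16) (.s true (nat_lit 1) (nat_lit 66) (nat_lit 2) (nat_lit 2) (nat_lit 1) true (nat_lit 12) true (nat_lit 17) false (nat_lit 5) true (nat_lit 16) true (nat_lit 16) (.s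 false (nat_lit 3) (nat_lit 67) (nat_lit 2) (nat_lit 2) (nat_lit 1) true (nat_lit 12) true (nat_lit 17) false (nat_lit 5) true (nat_lit 16) true (nat_lit 16) (.s false (nat_lit 1) (nat_lit 68) (nat_lit 2) (nat_lit 2) (nat_lit 1) true (nat_lit 12) true (nat_lit 17) false (nat_lit 5) true (nat_lit 16) true (nat_lit 16) (.s true (nat_lit 2) (nat_lit 70) (nat_lit 2) (nat_lit 2) (nat_lit 1) true (nat_lit 12) true (nat_lit 17) false (nat_lit 5) true (nat_lit 16) true (nat_lit 16) (.s false (nat_lit 2) (nat_lit 71) (nat_lit 2) (nat_lit 2) (nat_lit 1) true (nat_lit 12) true (nat_lit 17) false (nat_lit 5) true (nat_lit 16) true (nat_lit 16) (.s true (nat_lit 1) (nat_lit 73) (nat_lit 2) (nat_lit 2) (nat_lit 1) true (nat_lit 12) true (nat_lit 17) false (nat_lit 5) true (nat_lit 16) true (nat_lit 16) (.s false (nat_lit 1) (nat_lit 74) (nat_lit 0) (nat_lit 2) (nat_lit 2) true (nat_lit 13) true (nat_lit 16) false (nat_lit 6)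 true (nat_lit 18) true (nat_lit 16) (.s true (nat_lit 1) (nat_lit 77) (nat_lit 0) (nat_lit 2) (nat_lit 2) true (nat_lit 13) true (nat_lit 16) false (nat_lit 6) true (nat_lit 18) true (nat_lit 16) (.s false (nat_lit 1) (nat_lit 78) (nat_lit 0) (nat_lit 2) (nat_lit 2) true (nat_lit 13) true (nat_lit 16) false (nat_lit 6) true (nat_lit 18) true (nat_lit 16) (.s false (nat_lit 1) (nat_lit 79) (nat_lit 0) (nat_lit 2) (nat_lit 2) true (nat_lit 13) true (nat_lit 16) false (nat_lit 6) true (nat_lit 18) true (nat_lit 16) (.s true (nat_lit 1) (nat_lit 77) (nat_lit 2) (nat_lit 0) (nat_lit 2) true (nat_lit 11) true (nat_lit 16) false (nat_lit 6) true (nat_lit 16) true (nat_lit 18) (.s true (nat_lit 3) (nat_lit 78) (nat_lit 2) (nat_lit 0) (nat_lit 2) true (nat_lit 11) true (nat_lit 16) false (nat_lit 6) true (nat_lit 16) true (nat_lit 18) (.s true (nat_lit 3) (nat_lit 79) (nat_lit 2) (nat_lit 0) (nat_lit 2) true (nat_lit 11)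 true (nat_lit 16) false (nat_lit 6) true (nat_lit 16) true (nat_lit 18) (.s false (nat_lit 3) (nat_lit 74) (nat_lit 2) (nat_lit 2) (nat_lit 0) true (nat_lit 13) true (nat_lit 18) false (nat_lit 6) true (nat_lit 16) true (nat_lit 16) (.s true (nat_lit 1) (nat_lit 75) (nat_lit 2) (nat_lit 2) (nat_lit 0) true (nat_lit 13) true (nat_lit 18) false (nat_lit 6) true (nat_lit 16) true (nat_lit 16) (.s true (nat_lit 2) (nat_lit 76) (nat_lit 2) (nat_lit 2) (nat_lit 0) true (nat_lit 13) true (nat_lit 18) false (nat_lit 6) true (nat_lit 16) true (nat_lit 16) (.s false (nat_lit 2) (nat_lit 77) (nat_lit 2) (nat_lit 2) (nat_lit 0) true (nat_lit 13) true (nat_lit 18) false (nat_lit 6) true (nat_lit 16) true (nat_lit 16) (.s false (nat_lit 2) (nat_lit 78) (nat_lit 2) (nat_lit 2) (nat_lit 0) true (nat_lit 13) true (nat_lit 18) false (nat_lit 6) true (nat_lit 16) true (nat_lit 16) (.s false (nat_lit 1) (nat_lit 79) (nat_lit 2) (nat_lit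 2) (nat_lit 0) true (nat_lit 13) true (nat_lit 18) false (nat_lit 6) true (nat_lit 16) true (nat_lit 16) (.s false (nat_lit 1) (nat_lit 80) (nat_lit 1) (nat_lit 1) (nat_lit 2) true (nat_lit 12) true (nat_lit 16) false (nat_lit 7) true (nat_lit 17) true (nat_lit 17) (.s true (nat_lit 1) (nat_lit 81) (nat_lit 1) (nat_lit 1) (nat_lit 2) true (nat_lit 12) true (nat_lit 16) false (nat_lit 7) true (nat_lit 17) true (nat_lit 17) (.s true (nat_lit 2) (nat_lit 83) (nat_lit 1) (nat_lit 1) (nat_lit 2) true (nat_lit 12) true (nat_lit 16) false (nat_lit 7) true (nat_lit 17) true (nat_lit 17) (.s false (nat_lit 3) (nat_lit 88) (nat_lit 1) (nat_lit 1) (nat_lit 2) true (nat_lit 12) true (nat_lit 16) false (nat_lit 7) true (nat_lit 17) true (nat_lit 17) dC2d_i211)))))))))))))))))))))))))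

noncomputable def dC2d_i213 : IL := (.s true (nat_lit 3) (nat_lit 53) (nat_lit 2) (nat_lit 2) (nat_lit 2) true (nat_lit 11) true (nat_lit 16) false (nat_lit 4) true (nat_lit 16) true (nat_lit 16) (.s false (nat_lit 1) (nat_lit 54) (nat_lit 2) (nat_lit 2) (nat_lit 2) true (nat_lit 11) true (nat_lit 16) false (nat_lit 4) true (nat_lit 16) true (nat_lit 16) (.s true (nat_lit 2) (nat_lit 55) (nat_lit 2) (nat_lit 2) (nat_lit 2) true (nat_lit 11) true (nat_lit 16) false (nat_lit 4) true (nat_lit 16) true (nat_lit 16) (.s true (nat_lit 2) (nat_lit 56) (nat_lit 2) (nat_lit 2) (nat_lit 2) true (nat_lit 11) true (nat_lit 16) false (nat_lit 4) true (nat_lit 16) true (nat_lit 16) (.s false (nat_lit 1) (nat_lit 59) (nat_lit 2) (nat_lit 2) (nat_lit 2) true (nat_lit 11) true (nat_lit 16) false (nat_lit 4) true (nat_lit 16) true (nat_lit 16) (.s true (nat_lit 1) (nat_lit 60) (nat_lit 1) (nat_lit 2) (nat_lit 2) true (nat_lit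 12) true (nat_lit 16) false (nat_lit 5) true (nat_lit 17) true (nat_lit 16) (.s false (nat_lit 2) (nat_lit 62) (nat_lit 1) (nat_lit 2) (nat_lit 2) true (nat_lit 12) true (nat_lit 16) false (nat_lit 5) true (nat_lit 17) true (nat_lit 16) (.s true (nat_lit 2) (nat_lit 63) (nat_lit 1) (nat_lit 2) (nat_lit 2) true (nat_lit 12) true (nat_lit 16) false (nat_lit 5) true (nat_lit 17) true (nat_lit 16) (.s true (nat_lit 3) (nat_lit 64) (nat_lit 1) (nat_lit 2) (nat_lit 2) true (nat_lit 12) true (nat_lit 16) false (nat_lit 5) true (nat_lit 17) true (nat_lit 16) (.s true (nat_lit 3) (nat_lit 65) (nat_lit 1) (nat_lit 2) (nat_lit 2) true (nat_lit 12) true (nat_lit 16) false (nat_lit 5) true (nat_lit 17) true (nat_lit 16) (.s true (nat_lit 3) (nat_lit 66) (nat_lit 1) (nat_lit 2) (nat_lit 2) true (nat_lit 12) true (nat_lit 16) false (nat_lit 5) true (nat_lit 17) true (nat_lit 16) (.s true (nat_lit 1) (nat_lit 67) (nat_lit 1)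 (nat_lit 2) (nat_lit 2) true (nat_lit 12) true (nat_lit 16) false (nat_lit 5) true (nat_lit 17) true (nat_lit 16) (.s true (nat_lit 3) (nat_lit 68) (nat_lit 1) (nat_lit 2) (nat_lit 2) true (nat_lit 12) true (nat_lit 16) false (nat_lit 5) true (nat_lit 17) true (nat_lit 16) (.s false (nat_lit 3) (nat_lit 69) (nat_lit 1) (nat_lit 2) (nat_lit 2) true (nat_lit 12) true (nat_lit 16) false (nat_lit 5) true (nat_lit 17) true (nat_lit 16) (.s true (nat_lit 3) (nat_lit 71) (nat_lit 1) (nat_lit 2) (nat_lit 2) true (nat_lit 12) true (nat_lit 16) false (nat_lit 5) true (nat_lit 17) true (nat_lit 16) (.s true (nat_lit 1) (nat_lit 62) (nat_lit 2) (nat_lit 1) (nat_lit 2) true (nat_lit 11) true (nat_lit 16) false (nat_lit 5) true (nat_lit 16) true (nat_lit 17) (.s true (nat_lit 1) (nat_lit 64) (nat_lit 2) (nat_lit 1) (nat_lit 2) true (nat_lit 11) true (nat_lit 16) false (nat_lit 5) true (nat_lit 16) true (nat_lit 17) (.s false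 (nat_lit 2) (nat_lit 65) (nat_lit 2) (nat_lit 1) (nat_lit 2) true (nat_lit 11) true (nat_lit 16) false (nat_lit 5) true (nat_lit 16) true (nat_lit 17) (.s true (nat_lit 3) (nat_lit 66) (nat_lit 2) (nat_lit 1) (nat_lit 2) true (nat_lit 11) true (nat_lit 16) false (nat_lit 5) true (nat_lit 16) true (nat_lit 17) (.s false (nat_lit 1) (nat_lit 69) (nat_lit 2) (nat_lit 1) (nat_lit 2) true (nat_lit 11) true (nat_lit 16) false (nat_lit 5) true (nat_lit 16) true (nat_lit 17) (.s true (nat_lit 1) (nat_lit 72) (nat_lit 2) (nat_lit 1) (nat_lit 2) true (nat_lit 11) true (nat_lit 16) false (nat_lit 5) true (nat_lit 16) true (nat_lit 17) (.s true (nat_lit 2) (nat_lit 73) (nat_lit 2) (nat_lit 1) (nat_lit 2) true (nat_lit 11) true (nat_lit 16) false (nat_lit 5) true (nat_lit 16) true (nat_lit 17) (.s true (nat_lit 3) (nat_lit 60) (nat_lit 2) (nat_lit 2) (nat_lit 1) true (nat_lit 12) true (nat_lit 17) false (nat_lit 5) true (nat_lit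 16) true (nat_lit 16) (.s true (nat_lit 2) (nat_lit 61) (nat_lit 2) (nat_lit 2) (nat_lit 1) true (nat_lit 12) true (nat_lit 17) false (nat_lit 5) true (nat_lit 16) true (nat_lit 16) (.s false (nat_lit 1) (nat_lit 62) (nat_lit 2) (nat_lit 2) (nat_lit 1) true (nat_lit 12) true (nat_lit 17) false (nat_lit 5) true (nat_lit 16) true (nat_lit 16) dC2d_i212)))))))))))))))))))))))))

noncomputable def dC2d_i214 : IL := (.s true (nat_lit 3) (nat_lit 34) (nat_lit 1) (nat_lit 6) (nat_lit 2) true (nat_lit 12) true (nat_lit 16) true (nat_lit 0) true (nat_lit 17) true (nat_lit 12) (.s true (nat_lit 2) (nat_lit 33) (nat_lit 1) (nat_lit 7) (nat_lit 1) true (nat_lit 14) true (nat_lit 17) true (nat_lit 0) true (nat_lit 17) true (nat_lit 11) (.s true (nat_lit 2) (nat_lit 34) (nat_lit 1) (nat_lit 7) (nat_lit 1) true (nat_lit 14) true (nat_lit 17) true (nat_lit 0) true (nat_lit 17) true (nat_lit 11) (.s false (nat_lit 2) (nat_lit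 33) (nat_lit 2) (nat_lit 1) (nat_lit 6) true (nat_lit 5) true (nat_lit 12) true (nat_lit 0) true (nat_lit 16) true (nat_lit 17) (.s false (nat_lit 1) (nat_lit 34) (nat_lit 2) (nat_lit 2) (nat_lit 4) true (nat_lit 7) true (nat_lit 14) true (nat_lit 0) true (nat_lit 16) true (nat_lit 16) (.s false (nat_lit 2) (nat_lit 36) (nat_lit 2) (nat_lit 2) (nat_lit 4) true (nat_lit 7) true (nat_lit 14) true (nat_lit 0) true (nat_lit 16) true (nat_lit 16) (.s true (nat_lit 1) (nat_lit 33) (nat_lit 4) (nat_lit 2) (nat_lit 2) true (nat_lit 7) true (nat_lit 16) true (nat_lit 0) true (nat_lit 14) true (nat_lit 16) (.s true (nat_lit 2) (nat_lit 33) (nat_lit 7) (nat_lit 1) (nat_lit 1) true (nat_lit 5) true (nat_lit 17) true (nat_lit 0) true (nat_lit 11) true (nat_lit 17) (.s false (nat_lit 3) (nat_lit 40) (nat_lit 1) (nat_lit 5) (nat_lit 2) true (nat_lit 12) true (nat_lit 16) false (nat_lit 0) true (nat_lit 17) true (nat_lit 13)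 (.s false (nat_lit 3) (nat_lit 40) (nat_lit 2) (nat_lit 1) (nat_lit 5) true (nat_lit 6) true (nat_lit 13) false (nat_lit 0) true (nat_lit 16) true (nat_lit 17) (.s true (nat_lit 1) (nat_lit 41) (nat_lit 2) (nat_lit 3) (nat_lit 2) true (nat_lit 11) true (nat_lit 16) false (nat_lit 0) true (nat_lit 16) true (nat_lit 15) (.s true (nat_lit 3) (nat_lit 40) (nat_lit 2) (nat_lit 5) (nat_lit 1) true (nat_lit 12) true (nat_lit 17) false (nat_lit 0) true (nat_lit 16) true (nat_lit 13) (.s true (nat_lit 2) (nat_lit 39) (nat_lit 3) (nat_lit 2) (nat_lit 2) true (nat_lit 8) true (nat_lit 16) false (nat_lit 0) true (nat_lit 15) true (nat_lit 16) (.s false (nat_lit 3) (nat_lit 41) (nat_lit 5) (nat_lit 2) (nat_lit 1) true (nat_lit 8) true (nat_lit 17) false (nat_lit 0) true (nat_lit 13) true (nat_lit 16) (.s false (nat_lit 3) (nat_lit 40) (nat_lit 6) (nat_lit 2) (nat_lit 0) true (nat_lit 8) true (nat_lit 18) false (nat_lit 0)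 true (nat_lit 12) true (nat_lit 16) (.s false (nat_lit 3) (nat_lit 40) (nat_lit 7) (nat_lit 0) (nat_lit 1) true (nat_lit 5) true (nat_lit 17) false (nat_lit 0) true (nat_lit 11) true (nat_lit 18) (.s true (nat_lit 1) (nat_lit 42) (nat_lit 1) (nat_lit 4) (nat_lit 2) true (nat_lit 12) true (nat_lit 16) false (nat_lit 1) true (nat_lit 17) true (nat_lit 14) (.s false (nat_lit 1) (nat_lit 46) (nat_lit 1) (nat_lit 3) (nat_lit 2) true (nat_lit 12) true (nat_lit 16) false (nat_lit 2) true (nat_lit 17) true (nat_lit 15) (.s false (nat_lit 2) (nat_lit 47) (nat_lit 1) (nat_lit 3) (nat_lit 2) true (nat_lit 12) true (nat_lit 16) false (nat_lit 2) true (nat_lit 17) true (nat_lit 15) (.s true (nat_lit 3) (nat_lit 47) (nat_lit 1) (nat_lit 5) (nat_lit 1) true (nat_lit 14) true (nat_lit 17) false (nat_lit 2) true (nat_lit 17) true (nat_lit 13) (.s true (nat_lit 2) (nat_lit 47) (nat_lit 3) (nat_lit 1) (nat_lit 2) true (nat_lit 8)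 true (nat_lit 16) false (nat_lit 2) true (nat_lit 15) true (nat_lit 17) (.s true (nat_lit 3) (nat_lit 48) (nat_lit 1) (nat_lit 0) (nat_lit 4) true (nat_lit 9) true (nat_lit 14) false (nat_lit 3) true (nat_lit 17) true (nat_lit 18) (.s false (nat_lit 1) (nat_lit 48) (nat_lit 1) (nat_lit 3) (nat_lit 1) true (nat_lit 14) true (nat_lit 17) false (nat_lit 3) true (nat_lit 17) true (nat_lit 15) (.s false (nat_lit 2) (nat_lit 48) (nat_lit 4) (nat_lit 0) (nat_lit 1) true (nat_lit 9) true (nat_lit 17) false (nat_lit 3) true (nat_lit 14) true (nat_lit 18) (.s false (nat_lit 2) (nat_lit 52) (nat_lit 2) (nat_lit 2) (nat_lit 2) true (nat_lit 11) true (nat_lit 16) false (nat_lit 4) true (nat_lit 16) true (nat_lit 16) dC2d_i213)))))))))))))))))))))))))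

noncomputable def dC2d_i215 : IL := (.s false (nat_lit 3) (nat_lit 25) (nat_lit 1) (nat_lit 2) (nat_lit 7) true (nat_lit 5) true (nat_lit 11) true (nat_lit 2) true (nat_lit 17) true (nat_lit 16) (.s false (nat_lit 2) (nat_lit 26) (nat_lit 1) (nat_lit 2) (nat_lit 7) true (nat_lit 5) true (nat_lit 11) true (nat_lit 2) true (nat_lit 17) true (nat_lit 16) (.s true (nat_lit 2) (nat_lit 27) (nat_lit 1) (nat_lit 2) (nat_lit 7) true (nat_lit 5) true (nat_lit 11) true (nat_lit 2) true (nat_lit 17) true (nat_lit 16) (.s false (nat_lit 2) (nat_lit 24) (nat_lit 1) (nat_lit 7) (nat_lit 2) true (nat_lit 12) true (nat_lit 16) true (nat_lit 2) true (nat_lit 17) true (nat_lit 11) (.s false (nat_lit 3) (nat_lit 25) (nat_lit 1) (nat_lit 7) (nat_lit 2) true (nat_lit 12) true (nat_lit 16) true (nat_lit 2) true (nat_lit 17) true (nat_lit 11) (.s false (nat_lit 1) (nat_lit 26) (nat_lit 1) (nat_lit 7) (nat_lit 2) true (nat_lit 12) true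 (nat_lit 16) true (nat_lit 2) true (nat_lit 17) true (nat_lit 11) (.s true (nat_lit 1) (nat_lit 27) (nat_lit 1) (nat_lit 7) (nat_lit 2) true (nat_lit 12) true (nat_lit 16) true (nat_lit 2) true (nat_lit 17) true (nat_lit 11) (.s false (nat_lit 2) (nat_lit 27) (nat_lit 2) (nat_lit 1) (nat_lit 7) true (nat_lit 4) true (nat_lit 11) true (nat_lit 2) true (nat_lit 16) true (nat_lit 17) (.s true (nat_lit 3) (nat_lit 24) (nat_lit 2) (nat_lit 2) (nat_lit 6) true (nat_lit 5) true (nat_lit 12) true (nat_lit 2) true (nat_lit 16) true (nat_lit 16) (.s false (nat_lit 3) (nat_lit 25) (nat_lit 2) (nat_lit 2) (nat_lit 6) true (nat_lit 5) true (nat_lit 12) true (nat_lit 2) true (nat_lit 16) true (nat_lit 16) (.s true (nat_lit 1) (nat_lit 26) (nat_lit 2) (nat_lit 2) (nat_lit 6) true (nat_lit 5) true (nat_lit 12) true (nat_lit 2) true (nat_lit 16) true (nat_lit 16) (.s true (nat_lit 1) (nat_lit 27) (nat_lit 2) (nat_lit 2) (nat_lit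 6) true (nat_lit 5) true (nat_lit 12) true (nat_lit 2) true (nat_lit 16) true (nat_lit 16) (.s false (nat_lit 2) (nat_lit 29) (nat_lit 2) (nat_lit 6) (nat_lit 2) true (nat_lit 11) true (nat_lit 16) true (nat_lit 2) true (nat_lit 16) true (nat_lit 12) (.s true (nat_lit 2) (nat_lit 24) (nat_lit 6) (nat_lit 2) (nat_lit 2) true (nat_lit 5) true (nat_lit 16) true (nat_lit 2) true (nat_lit 12) true (nat_lit 16) (.s true (nat_lit 1) (nat_lit 27) (nat_lit 6) (nat_lit 2) (nat_lit 2) true (nat_lit 5) true (nat_lit 16) true (nat_lit 2) true (nat_lit 12) true (nat_lit 16) (.s false (nat_lit 2) (nat_lit 29) (nat_lit 6) (nat_lit 2) (nat_lit 2) true (nat_lit 5) true (nat_lit 16) true (nat_lit 2) true (nat_lit 12) true (nat_lit 16) (.s false (nat_lit 2) (nat_lit 25) (nat_lit 7) (nat_lit 2) (nat_lit 1) true (nat_lit 5) true (nat_lit 17) true (nat_lit 2) true (nat_lit 11) true (nat_lit 16) (.s true (nat_lit 3) (nat_lit 30) (nat_lit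 0) (nat_lit 2) (nat_lit 7) true (nat_lit 6) true (nat_lit 11) true (nat_lit 1) true (nat_lit 18) true (nat_lit 16) (.s true (nat_lit 1) (nat_lit 30) (nat_lit 2) (nat_lit 2) (nat_lit 5) true (nat_lit 6) true (nat_lit 13) true (nat_lit 1) true (nat_lit 16) true (nat_lit 16) (.s false (nat_lit 3) (nat_lit 30) (nat_lit 7) (nat_lit 2) (nat_lit 0) true (nat_lit 6) true (nat_lit 18) true (nat_lit 1) true (nat_lit 11) true (nat_lit 16) (.s true (nat_lit 1) (nat_lit 33) (nat_lit 1) (nat_lit 1) (nat_lit 7) true (nat_lit 5) true (nat_lit 11) true (nat_lit 0) true (nat_lit 17) true (nat_lit 17) (.s false (nat_lit 3) (nat_lit 34) (nat_lit 1) (nat_lit 1) (nat_lit 7) true (nat_lit 5) true (nat_lit 11) true (nat_lit 0) true (nat_lit 17) true (nat_lit 17) (.s true (nat_lit 1) (nat_lit 34) (nat_lit 1) (nat_lit 2) (nat_lit 6) true (nat_lit 7) true (nat_lit 12) true (nat_lit 0) true (nat_lit 17) true (nat_lit 16) (.s false (nat_lit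 3) (nat_lit 35) (nat_lit 1) (nat_lit 2) (nat_lit 6) true (nat_lit 7) true (nat_lit 12) true (nat_lit 0) true (nat_lit 17) true (nat_lit 16) (.s true (nat_lit 2) (nat_lit 38) (nat_lit 1) (nat_lit 2) (nat_lit 6) true (nat_lit 7) true (nat_lit 12) true (nat_lit 0) true (nat_lit 17) true (nat_lit 16) dC2d_i214)))))))))))))))))))))))))

noncomputable def dC2d_i216 : IL := (.s false (nat_lit 2) (nat_lit 19) (nat_lit 12) (nat_lit 1) (nat_lit 2) true (nat_lit 0) true (nat_lit 16) true (nat_lit 5) true (nat_lit 8) true (nat_lit 17) (.s true (nat_lit 2) (nat_lit 18) (nat_lit 11) (nat_lit 2) (nat_lit 1) true (nat_lit 2) true (nat_lit 17) true (nat_lit 5) true (nat_lit 8) true (nat_lit 16) (.s false (nat_lit 3) (nat_lit 18) (nat_lit 12) (nat_lit 2) (nat_lit 1) true (nat_lit 2) true (nat_lit 17) true (nat_lit 5) true (nat_lit 8) true (nat_lit 16) (.s false (nat_lit 1) (nat_lit 20) (nat_lit 0) (nat_lit 1) (nat_lit 15) true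 (nat_lit 2) true (nat_lit 7) true (nat_lit 4) true (nat_lit 18) true (nat_lit 17) (.s false (nat_lit 2) (nat_lit 20) (nat_lit 0) (nat_lit 14) (nat_lit 1) true (nat_lit 15) true (nat_lit 17) true (nat_lit 4) true (nat_lit 18) true (nat_lit 7) (.s true (nat_lit 2) (nat_lit 20) (nat_lit 1) (nat_lit 0) (nat_lit 14) true (nat_lit 1) true (nat_lit 7) true (nat_lit 4) true (nat_lit 17) true (nat_lit 18) (.s false (nat_lit 2) (nat_lit 20) (nat_lit 1) (nat_lit 1) (nat_lit 12) true (nat_lit 2) true (nat_lit 8) true (nat_lit 4) true (nat_lit 17) true (nat_lit 17) (.s true (nat_lit 3) (nat_lit 20) (nat_lit 1) (nat_lit 2) (nat_lit 8) true (nat_lit 3) true (nat_lit 10) true (nat_lit 4) true (nat_lit 17) true (nat_lit 16) (.s false (nat_lit 1) (nat_lit 20) (nat_lit 1) (nat_lit 15) (nat_lit 0) true (nat_lit 15) true (nat_lit 18) true (nat_lit 4) true (nat_lit 17) true (nat_lit 7) (.s true (nat_lit 3) (nat_lit 20) (nat_lit 2)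 (nat_lit 1) (nat_lit 8) true (nat_lit 2) true (nat_lit 10) true (nat_lit 4) true (nat_lit 16) true (nat_lit 17) (.s false (nat_lit 2) (nat_lit 20) (nat_lit 3) (nat_lit 4) (nat_lit 2) true (nat_lit 8) true (nat_lit 16) true (nat_lit 4) true (nat_lit 15) true (nat_lit 14) (.s false (nat_lit 3) (nat_lit 20) (nat_lit 4) (nat_lit 3) (nat_lit 2) true (nat_lit 7) true (nat_lit 16) true (nat_lit 4) true (nat_lit 14) true (nat_lit 15) (.s true (nat_lit 3) (nat_lit 20) (nat_lit 9) (nat_lit 2) (nat_lit 1) true (nat_lit 3) true (nat_lit 17) true (nat_lit 4) true (nat_lit 10) true (nat_lit 16) (.s true (nat_lit 1) (nat_lit 20) (nat_lit 11) (nat_lit 1) (nat_lit 1) true (nat_lit 2) true (nat_lit 17) true (nat_lit 4) true (nat_lit 8) true (nat_lit 17) (.s false (nat_lit 2) (nat_lit 20) (nat_lit 12) (nat_lit 1) (nat_lit 1) true (nat_lit 2) true (nat_lit 17) true (nat_lit 4) true (nat_lit 8) true (nat_lit 17) (.s false (nat_lit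 2) (nat_lit 20) (nat_lit 14) (nat_lit 0) (nat_lit 1) true (nat_lit 1) true (nat_lit 17) true (nat_lit 4) true (nat_lit 7) true (nat_lit 18) (.s true (nat_lit 1) (nat_lit 20) (nat_lit 15) (nat_lit 1) (nat_lit 0) true (nat_lit 2) true (nat_lit 18) true (nat_lit 4) true (nat_lit 7) true (nat_lit 17) (.s false (nat_lit 1) (nat_lit 21) (nat_lit 2) (nat_lit 2) (nat_lit 7) true (nat_lit 4) true (nat_lit 11) true (nat_lit 3) true (nat_lit 16) true (nat_lit 16) (.s false (nat_lit 1) (nat_lit 22) (nat_lit 2) (nat_lit 2) (nat_lit 7) true (nat_lit 4) true (nat_lit 11) true (nat_lit 3) true (nat_lit 16) true (nat_lit 16) (.s true (nat_lit 1) (nat_lit 23) (nat_lit 2) (nat_lit 2) (nat_lit 7) true (nat_lit 4) true (nat_lit 11) true (nat_lit 3) true (nat_lit 16) true (nat_lit 16) (.s true (nat_lit 1) (nat_lit 21) (nat_lit 2) (nat_lit 7) (nat_lit 2) true (nat_lit 11) true (nat_lit 16) true (nat_lit 3) true (nat_lit 16) true (nat_lit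 11) (.s true (nat_lit 3) (nat_lit 22) (nat_lit 2) (nat_lit 7) (nat_lit 2) true (nat_lit 11) true (nat_lit 16) true (nat_lit 3) true (nat_lit 16) true (nat_lit 11) (.s false (nat_lit 3) (nat_lit 23) (nat_lit 2) (nat_lit 7) (nat_lit 2) true (nat_lit 11) true (nat_lit 16) true (nat_lit 3) true (nat_lit 16) true (nat_lit 11) (.s true (nat_lit 3) (nat_lit 21) (nat_lit 7) (nat_lit 2) (nat_lit 2) true (nat_lit 4) true (nat_lit 16) true (nat_lit 3) true (nat_lit 11) true (nat_lit 16) (.s false (nat_lit 1) (nat_lit 24) (nat_lit 1) (nat_lit 2) (nat_lit 7) true (nat_lit 5) true (nat_lit 11) true (nat_lit 2) true (nat_lit 17) true (nat_lit 16) dC2d_i215)))))))))))))))))))))))))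

noncomputable def dC2d_i217 : IL := (.s false (nat_lit 2) (nat_lit 11) (nat_lit 6) (nat_lit 6) (nat_lit 2) true (nat_lit 5) true (nat_lit 16) true (nat_lit 8) true (nat_lit 12) true (nat_lit 12) (.s true (nat_lit 3) (nat_lit 11) (nat_lit 7) (nat_lit 1) (nat_lit 6) false (nat_lit 2) true (nat_lit 12) true (nat_lit 8) true (nat_lit 11) true (nat_lit 17) (.s true (nat_lit 3) (nat_lit 12) (nat_lit 7) (nat_lit 2) (nat_lit 4) false (nat_lit 0) true (nat_lit 14) true (nat_lit 8) true (nat_lit 11) true (nat_lit 16) (.s true (nat_lit 1) (nat_lit 15) (nat_lit 2) (nat_lit 3) (nat_lit 7) true (nat_lit 4) true (nat_lit 11) true (nat_lit 7) true (nat_lit 16) true (nat_lit 15) (.s true (nat_lit 2) (nat_lit 14) (nat_lit 7) (nat_lit 3) (nat_lit 2) true (nat_lit 4) true (nat_lit 16) true (nat_lit 7) true (nat_lit 11) true (nat_lit 15) (.s false (nat_lit 1) (nat_lit 16) (nat_lit 2) (nat_lit 2) (nat_lit 10) true (nat_lit 1) true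 (nat_lit 9) true (nat_lit 6) true (nat_lit 16) true (nat_lit 16) (.s false (nat_lit 3) (nat_lit 17) (nat_lit 7) (nat_lit 4) (nat_lit 1) true (nat_lit 5) true (nat_lit 17) true (nat_lit 6) true (nat_lit 11) true (nat_lit 14) (.s false (nat_lit 3) (nat_lit 17) (nat_lit 10) (nat_lit 2) (nat_lit 2) true (nat_lit 1) true (nat_lit 16) true (nat_lit 6) true (nat_lit 9) true (nat_lit 16) (.s true (nat_lit 3) (nat_lit 18) (nat_lit 0) (nat_lit 1) (nat_lit 18) true (nat_lit 0) true (nat_lit 5) true (nat_lit 5) true (nat_lit 18) true (nat_lit 17) (.s true (nat_lit 2) (nat_lit 19) (nat_lit 0) (nat_lit 19) (nat_lit 1) true (nat_lit 15) true (nat_lit 17) true (nat_lit 5) true (nat_lit 18) true (nat_lit 5) (.s false (nat_lit 3) (nat_lit 18) (nat_lit 1) (nat_lit 0) (nat_lit 18) false (nat_lit 0) true (nat_lit 5) true (nat_lit 5) true (nat_lit 17) true (nat_lit 18) (.s false (nat_lit 2) (nat_lit 18) (nat_lit 1) (nat_lit 2) (nat_lit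 11) true (nat_lit 2) true (nat_lit 8) true (nat_lit 5) true (nat_lit 17) true (nat_lit 16) (.s false (nat_lit 3) (nat_lit 18) (nat_lit 1) (nat_lit 2) (nat_lit 12) true (nat_lit 2) true (nat_lit 8) true (nat_lit 5) true (nat_lit 17) true (nat_lit 16) (.s true (nat_lit 3) (nat_lit 18) (nat_lit 1) (nat_lit 3) (nat_lit 7) true (nat_lit 5) true (nat_lit 11) true (nat_lit 5) true (nat_lit 17) true (nat_lit 15) (.s false (nat_lit 2) (nat_lit 19) (nat_lit 1) (nat_lit 3) (nat_lit 7) true (nat_lit 5) true (nat_lit 11) true (nat_lit 5) true (nat_lit 17) true (nat_lit 15) (.s false (nat_lit 2) (nat_lit 18) (nat_lit 1) (nat_lit 7) (nat_lit 3) true (nat_lit 10) true (nat_lit 15) true (nat_lit 5) true (nat_lit 17) true (nat_lit 11) (.s true (nat_lit 2) (nat_lit 18) (nat_lit 2) (nat_lit 2) (nat_lit 8) true (nat_lit 2) true (nat_lit 10) true (nat_lit 5) true (nat_lit 16) true (nat_lit 16) (.s false (nat_lit 1) (nat_lit 18) (nat_lit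 2) (nat_lit 8) (nat_lit 2) true (nat_lit 11) true (nat_lit 16) true (nat_lit 5) true (nat_lit 16) true (nat_lit 10) (.s true (nat_lit 3) (nat_lit 18) (nat_lit 2) (nat_lit 9) (nat_lit 2) true (nat_lit 11) true (nat_lit 16) true (nat_lit 5) true (nat_lit 16) true (nat_lit 10) (.s true (nat_lit 3) (nat_lit 18) (nat_lit 2) (nat_lit 12) (nat_lit 1) true (nat_lit 12) true (nat_lit 17) true (nat_lit 5) true (nat_lit 16) true (nat_lit 8) (.s true (nat_lit 2) (nat_lit 18) (nat_lit 3) (nat_lit 6) (nat_lit 2) true (nat_lit 8) true (nat_lit 16) true (nat_lit 5) true (nat_lit 15) true (nat_lit 12) (.s true (nat_lit 1) (nat_lit 19) (nat_lit 3) (nat_lit 6) (nat_lit 2) true (nat_lit 8) true (nat_lit 16) true (nat_lit 5) true (nat_lit 15) true (nat_lit 12) (.s true (nat_lit 1) (nat_lit 19) (nat_lit 9) (nat_lit 2) (nat_lit 2) true (nat_lit 2) true (nat_lit 16) true (nat_lit 5) true (nat_lit 10) true (nat_lit 16) (.s false (nat_lit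 3) (nat_lit 18) (nat_lit 12) (nat_lit 1) (nat_lit 2) true (nat_lit 0) true (nat_lit 16) true (nat_lit 5) true (nat_lit 8) true (nat_lit 17) (.s true (nat_lit 1) (nat_lit 19) (nat_lit 11) (nat_lit 1) (nat_lit 2) true (nat_lit 0) true (nat_lit 16) true (nat_lit 5) true (nat_lit 8) true (nat_lit 17) dC2d_i216)))))))))))))))))))))))))

noncomputable def dC2d_i218 : IL := (.e true (nat_lit 1) (nat_lit 274) (nat_lit 1) (nat_lit 17) (.e true (nat_lit 1) (nat_lit 278) (nat_lit 1) (nat_lit 17) (.e false (nat_lit 2) (nat_lit 235) (nat_lit 2) (nat_lit 16) (.e false (nat_lit 1) (nat_lit 155) (nat_lit 6) (nat_lit 12) (.e true (nat_lit 2) (nat_lit 293) (nat_lit 0) (nat_lit 18) (.e false (nat_lit 3) (nat_lit 294) (nat_lit 0) (nat_lit 18) (.e true (nat_lit 1) (nat_lit 296) (nat_lit 0) (nat_lit 18) (.e true (nat_lit 2) (nat_lit 297) (nat_lit 0) (nat_lit 18) (.e false (nat_lit 1) (nat_lit 299) (nat_lit 0) (nat_lit 18) (.e false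 (nat_lit 2) (nat_lit 300) (nat_lit 0) (nat_lit 18) (.e true (nat_lit 1) (nat_lit 301) (nat_lit 0) (nat_lit 18) (.e true (nat_lit 2) (nat_lit 256) (nat_lit 1) (nat_lit 17) (.e true (nat_lit 3) (nat_lit 259) (nat_lit 1) (nat_lit 17) (.e false (nat_lit 3) (nat_lit 260) (nat_lit 1) (nat_lit 17) (.e false (nat_lit 2) (nat_lit 280) (nat_lit 1) (nat_lit 17) (.e true (nat_lit 2) (nat_lit 295) (nat_lit 0) (nat_lit 18) (.e false (nat_lit 3) (nat_lit 261) (nat_lit 1) (nat_lit 17) (.e false (nat_lit 3) (nat_lit 275) (nat_lit 1) (nat_lit 17) (.e true (nat_lit 3) (nat_lit 279) (nat_lit 1) (nat_lit 17) (.e true (nat_lit 2) (nat_lit 170) (nat_lit 4) (nat_lit 14) (.e true (nat_lit 1) (nat_lit 282) (nat_lit 1) (nat_lit 17) (.u (nat_lit 2) (.p (nat_lit 0) (nat_lit 1) (.n (nat_lit 4) (nat_lit 1) (.n (nat_lit 5) (nat_lit 1) (.n (nat_lit 6) (nat_lit 2) (.n (nat_lit 7) (nat_lit 1) (.n (nat_lit 8) (nat_lit 1) (.n (nat_lit 10) (nat_lit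 1) (.p (nat_lit 12) (nat_lit 1) (.n (nat_lit 15) (nat_lit 1) (.p (nat_lit 16) (nat_lit 1) (.n (nat_lit 17) (nat_lit 1) (.n (nat_lit 18) (nat_lit 1) (.p (nat_lit 19) (nat_lit 1) (.n (nat_lit 21) (nat_lit 1) (.p (nat_lit 22) (nat_lit 1) (.n (nat_lit 23) (nat_lit 1) (.n (nat_lit 24) (nat_lit 1) (.p (nat_lit 25) (nat_lit 1) (.n (nat_lit 28) (nat_lit 1) (.p (nat_lit 29) (nat_lit 1) (.n (nat_lit 32) (nat_lit 1) (.p (nat_lit 33) (nat_lit 1) (.p (nat_lit 35) (nat_lit 1) (.n (nat_lit 36) (nat_lit 2) (.p (nat_lit 37) (nat_lit 2) (.n (nat_lit 38) (nat_lit 1) (.n (nat_lit 39) (nat_lit 1) (.n (nat_lit 41) (nat_lit 1) (.n (nat_lit 45) (nat_lit 1) (.p (nat_lit 46) (nat_lit 1) (.p (nat_lit 47) (nat_lit 1) (.p (nat_lit 48) (nat_lit 1) (.p (nat_lit 66) (nat_lit 1) (.n (nat_lit 67) (nat_lit 2) (.p (nat_lit 81) (nat_lit 1) (.p (nat_lit 96) (nat_lit 1) (.p (nat_lit 99) (nat_lit 1) (.n (nat_lit 100) (nat_lit 1) (.n (nat_lit 106) (nat_lit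 1) (.n (nat_lit 107) (nat_lit 1) (.p (nat_lit 108) (nat_lit 1) (.p (nat_lit 109) (nat_lit 1) (.p (nat_lit 110) (nat_lit 1) (.n (nat_lit 111) (nat_lit 1) (.n (nat_lit 113) (nat_lit 1) (.p (nat_lit 115) (nat_lit 1) (.p (nat_lit 116) (nat_lit 2) (.n (nat_lit 118) (nat_lit 2) (.n (nat_lit 121) (nat_lit 1) (.n (nat_lit 122) (nat_lit 1) (.p (nat_lit 124) (nat_lit 1) (.n (nat_lit 126) (nat_lit 1) (.n (nat_lit 127) (nat_lit 1) (.p (nat_lit 129) (nat_lit 1) (.p (nat_lit 133) (nat_lit 1) (.n (nat_lit 134) (nat_lit 1) (.p (nat_lit 136) (nat_lit 1) (.p (nat_lit 163) (nat_lit 2) (.p (nat_lit 165) (nat_lit 1) (.p (nat_lit 166) (nat_lit 2) .z)))))))))))))))))))))))))))))))))))))))))))))))))))))))))))) (.u (nat_lit 2) (.n (nat_lit 169) (nat_lit 1) (.n (nat_lit 171) (nat_lit 1) (.p (nat_lit 172) (nat_lit 1) (.n (nat_lit 175) (nat_lit 1) (.n (nat_lit 177) (nat_lit 1) (.n (nat_lit 180) (nat_lit 1) (.p (nat_lit 183) (nat_lit 1) (.p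 (nat_lit 184) (nat_lit 2) (.n (nat_lit 185) (nat_lit 2) (.p (nat_lit 186) (nat_lit 1) (.p (nat_lit 187) (nat_lit 1) (.n (nat_lit 188) (nat_lit 1) (.n (nat_lit 196) (nat_lit 1) (.p (nat_lit 197) (nat_lit 1) (.n (nat_lit 199) (nat_lit 1) (.n (nat_lit 207) (nat_lit 1) (.p (nat_lit 208) (nat_lit 1) (.p (nat_lit 211) (nat_lit 1) (.p (nat_lit 212) (nat_lit 1) (.n (nat_lit 213) (nat_lit 2) (.n (nat_lit 214) (nat_lit 2) (.n (nat_lit 215) (nat_lit 3) (.p (nat_lit 216) (nat_lit 3) (.p (nat_lit 217) (nat_lit 3) (.n (nat_lit 218) (nat_lit 1) (.p (nat_lit 219) (nat_lit 2) (.p (nat_lit 220) (nat_lit 2) (.n (nat_lit 221) (nat_lit 2) (.n (nat_lit 222) (nat_lit 2) (.p (nat_lit 223) (nat_lit 2) (.n (nat_lit 224) (nat_lit 1) (.p (nat_lit 225) (nat_lit 5) (.p (nat_lit 226) (nat_lit 1) (.n (nat_lit 227) (nat_lit 1) (.n (nat_lit 229) (nat_lit 1) (.p (nat_lit 230) (nat_lit 7) (.n (nat_lit 231) (nat_lit 1) (.n (nat_lit 232) (nat_lit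 1) (.n (nat_lit 233) (nat_lit 7) (.n (nat_lit 234) (nat_lit 5) (.p (nat_lit 237) (nat_lit 3) (.n (nat_lit 238) (nat_lit 7) (.p (nat_lit 239) (nat_lit 1) (.p (nat_lit 240) (nat_lit 5) (.n (nat_lit 242) (nat_lit 4) (.p (nat_lit 243) (nat_lit 2) (.p (nat_lit 244) (nat_lit 3) (.n (nat_lit 245) (nat_lit 4) (.p (nat_lit 246) (nat_lit 2) (.n (nat_lit 247) (nat_lit 1) (.p (nat_lit 248) (nat_lit 1) (.p (nat_lit 250) (nat_lit 1) (.p (nat_lit 253) (nat_lit 2) (.n (nat_lit 254) (nat_lit 2) (.n (nat_lit 256) (nat_lit 2) (.p (nat_lit 257) (nat_lit 4) (.p (nat_lit 258) (nat_lit 3) (.p (nat_lit 259) (nat_lit 1) (.p (nat_lit 260) (nat_lit 3) (.p (nat_lit 261) (nat_lit 2) .z)))))))))))))))))))))))))))))))))))))))))))))))))))))))))))) (.u (nat_lit 2) (.p (nat_lit 262) (nat_lit 2) (.n (nat_lit 263) (nat_lit 4) (.n (nat_lit 264) (nat_lit 2) (.p (nat_lit 276) (nat_lit 4) (.n (nat_lit 278) (nat_lit 1) (.n (nat_lit 279) (nat_lit 1) (.n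 (nat_lit 280) (nat_lit 1) (.n (nat_lit 281) (nat_lit 3) (.n (nat_lit 282) (nat_lit 2) (.n (nat_lit 283) (nat_lit 2) (.p (nat_lit 284) (nat_lit 1) (.n (nat_lit 286) (nat_lit 2) (.p (nat_lit 288) (nat_lit 1) (.n (nat_lit 289) (nat_lit 1) (.n (nat_lit 292) (nat_lit 2) (.p (nat_lit 293) (nat_lit 2) (.p (nat_lit 294) (nat_lit 1) (.n (nat_lit 295) (nat_lit 2) (.p (nat_lit 296) (nat_lit 1) (.p (nat_lit 297) (nat_lit 2) (.n (nat_lit 300) (nat_lit 1) (.p (nat_lit 301) (nat_lit 1) (.p (nat_lit 302) (nat_lit 23) (.p (nat_lit 303) (nat_lit 12) (.p (nat_lit 304) (nat_lit 11) (.p (nat_lit 305) (nat_lit 2) (.n (nat_lit 306) (nat_lit 11) (.p (nat_lit 308) (nat_lit 7) (.n (nat_lit 309) (nat_lit 15) (.p (nat_lit 310) (nat_lit 15) (.p (nat_lit 311) (nat_lit 3) (.p (nat_lit 312) (nat_lit 4) (.n (nat_lit 313) (nat_lit 24) (.p (nat_lit 314) (nat_lit 5) (.n (nat_lit 315) (nat_lit 12) (.p (nat_lit 316) (nat_lit 8) (.p (nat_lit 317) (nat_lit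 3) (.p (nat_lit 318) (nat_lit 10) (.n (nat_lit 319) (nat_lit 3) (.n (nat_lit 320) (nat_lit 2) (.p (nat_lit 321) (nat_lit 2) (.n (nat_lit 322) (nat_lit 15) (.p (nat_lit 323) (nat_lit 2) (.n (nat_lit 324) (nat_lit 11) (.n (nat_lit 325) (nat_lit 15) (.n (nat_lit 326) (nat_lit 6) (.p (nat_lit 327) (nat_lit 3) (.n (nat_lit 328) (nat_lit 10) (.n (nat_lit 329) (nat_lit 6) (.p (nat_lit 330) (nat_lit 2) (.n (nat_lit 331) (nat_lit 2) (.p (nat_lit 332) (nat_lit 10) (.n (nat_lit 333) (nat_lit 1) (.p (nat_lit 334) (nat_lit 1) (.n (nat_lit 335) (nat_lit 4) (.n (nat_lit 336) (nat_lit 5) (.n (nat_lit 337) (nat_lit 1) (.p (nat_lit 338) (nat_lit 4) (.n (nat_lit 339) (nat_lit 4) (.p (nat_lit 340) (nat_lit 5) .z)))))))))))))))))))))))))))))))))))))))))))))))))))))))))))) (.u (nat_lit 2) (.n (nat_lit 341) (nat_lit 1) (.p (nat_lit 342) (nat_lit 9) (.n (nat_lit 343) (nat_lit 3) (.p (nat_lit 344) (nat_lit 6) (.n (nat_lit 345) (nat_lit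 8) (.p (nat_lit 346) (nat_lit 2) (.p (nat_lit 347) (nat_lit 6) (.n (nat_lit 348) (nat_lit 22) (.n (nat_lit 349) (nat_lit 8) (.p (nat_lit 350) (nat_lit 19) (.n (nat_lit 351) (nat_lit 18) (.n (nat_lit 352) (nat_lit 4) (.n (nat_lit 353) (nat_lit 18) (.n (nat_lit 354) (nat_lit 3) (.n (nat_lit 355) (nat_lit 10) (.p (nat_lit 356) (nat_lit 8) (.n (nat_lit 357) (nat_lit 6) (.n (nat_lit 358) (nat_lit 6) (.p (nat_lit 359) (nat_lit 4) (.p (nat_lit 360) (nat_lit 4) (.n (nat_lit 361) (nat_lit 12) (.n (nat_lit 362) (nat_lit 9) (.p (nat_lit 363) (nat_lit 3) (.n (nat_lit 364) (nat_lit 8) (.p (nat_lit 365) (nat_lit 1) (.n (nat_lit 366) (nat_lit 4) (.p (nat_lit 367) (nat_lit 4) (.n (nat_lit 368) (nat_lit 2) (.p (nat_lit 369) (nat_lit 1) (.p (nat_lit 370) (nat_lit 2) (.p (nat_lit 371) (nat_lit 2) (.p (nat_lit 372) (nat_lit 5) (.n (nat_lit 373) (nat_lit 4) (.n (nat_lit 374) (nat_lit 8) (.n (nat_lit 375) (nat_lit 2) (.n (nat_lit 376)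 (nat_lit 3) (.n (nat_lit 377) (nat_lit 1) (.p (nat_lit 378) (nat_lit 2) (.p (nat_lit 379) (nat_lit 1) (.n (nat_lit 380) (nat_lit 6) (.p (nat_lit 381) (nat_lit 1) (.n (nat_lit 382) (nat_lit 1) (.n (nat_lit 383) (nat_lit 3) (.n (nat_lit 385) (nat_lit 2) (.n (nat_lit 386) (nat_lit 3) (.p (nat_lit 387) (nat_lit 4) (.p (nat_lit 388) (nat_lit 3) (.n (nat_lit 389) (nat_lit 6) (.p (nat_lit 390) (nat_lit 1) (.p (nat_lit 391) (nat_lit 4) (.p (nat_lit 392) (nat_lit 2) (.p (nat_lit 393) (nat_lit 5) (.n (nat_lit 395) (nat_lit 2) (.n (nat_lit 396) (nat_lit 1) (.n (nat_lit 397) (nat_lit 1) (.p (nat_lit 398) (nat_lit 5) (.n (nat_lit 399) (nat_lit 2) (.p (nat_lit 400) (nat_lit 6) (.n (nat_lit 401) (nat_lit 8) .z))))))))))))))))))))))))))))))))))))))))))))))))))))))))))) .nil)))))))))))))))))))))))))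

noncomputable def dC2d_i219 : IL := (.s true (nat_lit 1) (nat_lit 101) (nat_lit 1) (nat_lit 1) (nat_lit 0) true (nat_lit 15) true (nat_lit 18) false (nat_lit 10) true (nat_lit 17) true (nat_lit 17) (.s true (nat_lit 3) (nat_lit 102) (nat_lit 1) (nat_lit 1) (nat_lit 0) true (nat_lit 15) true (nat_lit 18) false (nat_lit 10) true (nat_lit 17) true (nat_lit 17) (.s true (nat_lit 1) (nat_lit 104) (nat_lit 1) (nat_lit 1) (nat_lit 0) true (nat_lit 15) true (nat_lit 18) false (nat_lit 10) true (nat_lit 17) true (nat_lit 17) (.e true (nat_lit 3) (nat_lit 208) (nat_lit 2) (nat_lit 16) (.e true (nat_lit 2) (nat_lit 138) (nat_lit 6) (nat_lit 12) (.e true (nat_lit 3) (nat_lit 205) (nat_lit 2) (nat_lit 16) (.e false (nat_lit 2) (nat_lit 206) (nat_lit 2) (nat_lit 16) (.e true (nat_lit 1) (nat_lit 209) (nat_lit 2) (nat_lit 16) (.e true (nat_lit 2) (nat_lit 234) (nat_lit 2) (nat_lit 16) (.e true (nat_lit 2) (nat_lit 253) (nat_lit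 1) (nat_lit 17) (.e false (nat_lit 3) (nat_lit 254) (nat_lit 1) (nat_lit 17) (.e true (nat_lit 2) (nat_lit 258) (nat_lit 1) (nat_lit 17) (.e true (nat_lit 3) (nat_lit 263) (nat_lit 1) (nat_lit 17) (.e false (nat_lit 3) (nat_lit 265) (nat_lit 1) (nat_lit 17) (.e false (nat_lit 3) (nat_lit 267) (nat_lit 1) (nat_lit 17) (.e true (nat_lit 1) (nat_lit 269) (nat_lit 1) (nat_lit 17) (.e false (nat_lit 2) (nat_lit 270) (nat_lit 1) (nat_lit 17) (.e false (nat_lit 2) (nat_lit 271) (nat_lit 1) (nat_lit 17) (.e false (nat_lit 3) (nat_lit 273) (nat_lit 1) (nat_lit 17) (.e true (nat_lit 2) (nat_lit 276) (nat_lit 1) (nat_lit 17) (.e true (nat_lit 1) (nat_lit 277) (nat_lit 1) (nat_lit 17) (.e false (nat_lit 1) (nat_lit 255) (nat_lit 1) (nat_lit 17) (.e true (nat_lit 2) (nat_lit 262) (nat_lit 1) (nat_lit 17) (.e true (nat_lit 1) (nat_lit 264) (nat_lit 1) (nat_lit 17) (.e true (nat_lit 3) (nat_lit 298) (nat_lit 0) (nat_lit 18)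 dC2d_i218)))))))))))))))))))))))))

noncomputable def dC2d_i220 : IL := (.s true (nat_lit 2) (nat_lit 89) (nat_lit 1) (nat_lit 1) (nat_lit 2) true (nat_lit 12) true (nat_lit 16) false (nat_lit 7) true (nat_lit 17) true (nat_lit 17) (.s false (nat_lit 2) (nat_lit 80) (nat_lit 1) (nat_lit 2) (nat_lit 1) true (nat_lit 14) true (nat_lit 17) false (nat_lit 7) true (nat_lit 17) true (nat_lit 16) (.s false (nat_lit 3) (nat_lit 81) (nat_lit 1) (nat_lit 2) (nat_lit 1) true (nat_lit 14) true (nat_lit 17) false (nat_lit 7) true (nat_lit 17) true (nat_lit 16) (.s true (nat_lit 1) (nat_lit 84) (nat_lit 1) (nat_lit 2) (nat_lit 1) true (nat_lit 14) true (nat_lit 17) false (nat_lit 7) true (nat_lit 17) true (nat_lit 16) (.s false (nat_lit 2) (nat_lit 88) (nat_lit 1) (nat_lit 2) (nat_lit 1) true (nat_lit 14) true (nat_lit 17) false (nat_lit 7) true (nat_lit 17) true (nat_lit 16) (.s false (nat_lit 2) (nat_lit 89) (nat_lit 1) (nat_lit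 2) (nat_lit 1) true (nat_lit 14) true (nat_lit 17) false (nat_lit 7) true (nat_lit 17) true (nat_lit 16) (.s true (nat_lit 3) (nat_lit 80) (nat_lit 2) (nat_lit 1) (nat_lit 1) true (nat_lit 12) true (nat_lit 17) false (nat_lit 7) true (nat_lit 16) true (nat_lit 17) (.s true (nat_lit 3) (nat_lit 81) (nat_lit 2) (nat_lit 1) (nat_lit 1) true (nat_lit 12) true (nat_lit 17) false (nat_lit 7) true (nat_lit 16) true (nat_lit 17) (.s false (nat_lit 2) (nat_lit 83) (nat_lit 2) (nat_lit 1) (nat_lit 1) true (nat_lit 12) true (nat_lit 17) false (nat_lit 7) true (nat_lit 16) true (nat_lit 17) (.s false (nat_lit 2) (nat_lit 88) (nat_lit 2) (nat_lit 1) (nat_lit 1) true (nat_lit 12) true (nat_lit 17) false (nat_lit 7) true (nat_lit 16) true (nat_lit 17) (.s true (nat_lit 1) (nat_lit 89) (nat_lit 2) (nat_lit 1) (nat_lit 1) true (nat_lit 12) true (nat_lit 17) false (nat_lit 7) true (nat_lit 16) true (nat_lit 17) (.s true (nat_lit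 1) (nat_lit 92) (nat_lit 0) (nat_lit 1) (nat_lit 2) true (nat_lit 13) true (nat_lit 16) false (nat_lit 8) true (nat_lit 18) true (nat_lit 17) (.s false (nat_lit 3) (nat_lit 94) (nat_lit 0) (nat_lit 1) (nat_lit 2) true (nat_lit 13) true (nat_lit 16) false (nat_lit 8) true (nat_lit 18) true (nat_lit 17) (.s false (nat_lit 2) (nat_lit 93) (nat_lit 0) (nat_lit 2) (nat_lit 1) true (nat_lit 15) true (nat_lit 17) false (nat_lit 8) true (nat_lit 18) true (nat_lit 16) (.s true (nat_lit 3) (nat_lit 92) (nat_lit 1) (nat_lit 0) (nat_lit 2) true (nat_lit 12) true (nat_lit 16) false (nat_lit 8) true (nat_lit 17) true (nat_lit 18) (.s true (nat_lit 2) (nat_lit 94) (nat_lit 1) (nat_lit 0) (nat_lit 2) true (nat_lit 12) true (nat_lit 16) false (nat_lit 8) true (nat_lit 17) true (nat_lit 18) (.s false (nat_lit 1) (nat_lit 96) (nat_lit 1) (nat_lit 0) (nat_lit 2) true (nat_lit 12) true (nat_lit 16) false (nat_lit 8) true (nat_lit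 17) true (nat_lit 18) (.s false (nat_lit 2) (nat_lit 92) (nat_lit 1) (nat_lit 2) (nat_lit 0) true (nat_lit 15) true (nat_lit 18) false (nat_lit 8) true (nat_lit 17) true (nat_lit 16) (.s true (nat_lit 3) (nat_lit 93) (nat_lit 1) (nat_lit 2) (nat_lit 0) true (nat_lit 15) true (nat_lit 18) false (nat_lit 8) true (nat_lit 17) true (nat_lit 16) (.s false (nat_lit 2) (nat_lit 95) (nat_lit 1) (nat_lit 2) (nat_lit 0) true (nat_lit 15) true (nat_lit 18) false (nat_lit 8) true (nat_lit 17) true (nat_lit 16) (.s true (nat_lit 1) (nat_lit 96) (nat_lit 1) (nat_lit 2) (nat_lit 0) true (nat_lit 15) true (nat_lit 18) false (nat_lit 8) true (nat_lit 17) true (nat_lit 16) (.s false (nat_lit 1) (nat_lit 92) (nat_lit 2) (nat_lit 1) (nat_lit 0) true (nat_lit 13) true (nat_lit 18) false (nat_lit 8) true (nat_lit 16) true (nat_lit 17) (.s true (nat_lit 3) (nat_lit 94) (nat_lit 2) (nat_lit 1) (nat_lit 0) true (nat_lit 13) true (nat_lit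 18) false (nat_lit 8) true (nat_lit 16) true (nat_lit 17) (.s true (nat_lit 1) (nat_lit 102) (nat_lit 0) (nat_lit 1) (nat_lit 1) true (nat_lit 15) true (nat_lit 17) false (nat_lit 10) true (nat_lit 18) true (nat_lit 17) (.s true (nat_lit 1) (nat_lit 103) (nat_lit 0) (nat_lit 1) (nat_lit 1) true (nat_lit 15) true (nat_lit 17) false (nat_lit 10) true (nat_lit 18) true (nat_lit 17) dC2d_i219)))))))))))))))))))))))))

noncomputable def dC2d_i221 : IL := (.s true (nat_lit 2) (nat_lit 54) (nat_lit 2) (nat_lit 2) (nat_lit 2) true (nat_lit 11) true (nat_lit 16) false (nat_lit 4) true (nat_lit 16) true (nat_lit 16) (.s true (nat_lit 1) (nat_lit 55) (nat_lit 2) (nat_lit 2) (nat_lit 2) true (nat_lit 11) true (nat_lit 16) false (nat_lit 4) true (nat_lit 16) true (nat_lit 16) (.s false (nat_lit 1) (nat_lit 56) (nat_lit 2) (nat_lit 2) (nat_lit 2) true (nat_lit 11) true (nat_lit 16) false (nat_lit 4) true (nat_lit 16) true (nat_lit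 16) (.s true (nat_lit 2) (nat_lit 59) (nat_lit 2) (nat_lit 2) (nat_lit 2) true (nat_lit 11) true (nat_lit 16) false (nat_lit 4) true (nat_lit 16) true (nat_lit 16) (.s false (nat_lit 3) (nat_lit 60) (nat_lit 1) (nat_lit 2) (nat_lit 2) true (nat_lit 12) true (nat_lit 16) false (nat_lit 5) true (nat_lit 17) true (nat_lit 16) (.s false (nat_lit 1) (nat_lit 61) (nat_lit 1) (nat_lit 2) (nat_lit 2) true (nat_lit 12) true (nat_lit 16) false (nat_lit 5) true (nat_lit 17) true (nat_lit 16) (.s true (nat_lit 2) (nat_lit 64) (nat_lit 1) (nat_lit 2) (nat_lit 2) true (nat_lit 12) true (nat_lit 16) false (nat_lit 5) true (nat_lit 17) true (nat_lit 16) (.s true (nat_lit 3) (nat_lit 68) (nat_lit 1) (nat_lit 2) (nat_lit 2) true (nat_lit 12) true (nat_lit 16) false (nat_lit 5) true (nat_lit 17) true (nat_lit 16) (.s false (nat_lit 2) (nat_lit 69) (nat_lit 1) (nat_lit 2) (nat_lit 2) true (nat_lit 12) true (nat_lit 16) false (nat_lit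 5) true (nat_lit 17) true (nat_lit 16) (.s true (nat_lit 3) (nat_lit 73) (nat_lit 1) (nat_lit 2) (nat_lit 2) true (nat_lit 12) true (nat_lit 16) false (nat_lit 5) true (nat_lit 17) true (nat_lit 16) (.s false (nat_lit 1) (nat_lit 62) (nat_lit 2) (nat_lit 1) (nat_lit 2) true (nat_lit 11) true (nat_lit 16) false (nat_lit 5) true (nat_lit 16) true (nat_lit 17) (.s false (nat_lit 2) (nat_lit 64) (nat_lit 2) (nat_lit 1) (nat_lit 2) true (nat_lit 11) true (nat_lit 16) false (nat_lit 5) true (nat_lit 16) true (nat_lit 17) (.s true (nat_lit 3) (nat_lit 65) (nat_lit 2) (nat_lit 1) (nat_lit 2) true (nat_lit 11) true (nat_lit 16) false (nat_lit 5) true (nat_lit 16) true (nat_lit 17) (.s false (nat_lit 2) (nat_lit 66) (nat_lit 2) (nat_lit 1) (nat_lit 2) true (nat_lit 11) true (nat_lit 16) false (nat_lit 5) true (nat_lit 16) true (nat_lit 17) (.s true (nat_lit 2) (nat_lit 69) (nat_lit 2) (nat_lit 1) (nat_lit 2) true (nat_lit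 11) true (nat_lit 16) false (nat_lit 5) true (nat_lit 16) true (nat_lit 17) (.s false (nat_lit 3) (nat_lit 73) (nat_lit 2) (nat_lit 1) (nat_lit 2) true (nat_lit 11) true (nat_lit 16) false (nat_lit 5) true (nat_lit 16) true (nat_lit 17) (.s true (nat_lit 3) (nat_lit 61) (nat_lit 2) (nat_lit 2) (nat_lit 1) true (nat_lit 12) true (nat_lit 17) false (nat_lit 5) true (nat_lit 16) true (nat_lit 16) (.s true (nat_lit 1) (nat_lit 62) (nat_lit 2) (nat_lit 2) (nat_lit 1) true (nat_lit 12) true (nat_lit 17) false (nat_lit 5) true (nat_lit 16) true (nat_lit 16) (.s false (nat_lit 2) (nat_lit 63) (nat_lit 2) (nat_lit 2) (nat_lit 1) true (nat_lit 12) true (nat_lit 17) false (nat_lit 5) true (nat_lit 16) true (nat_lit 16) (.s true (nat_lit 2) (nat_lit 64) (nat_lit 2) (nat_lit 2) (nat_lit 1) true (nat_lit 12) true (nat_lit 17) false (nat_lit 5) true (nat_lit 16) true (nat_lit 16) (.s false (nat_lit 3) (nat_lit 67) (nat_lit 2)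 (nat_lit 2) (nat_lit 1) true (nat_lit 12) true (nat_lit 17) false (nat_lit 5) true (nat_lit 16) true (nat_lit 16) (.s true (nat_lit 1) (nat_lit 69) (nat_lit 2) (nat_lit 2) (nat_lit 1) true (nat_lit 12) true (nat_lit 17) false (nat_lit 5) true (nat_lit 16) true (nat_lit 16) (.s false (nat_lit 1) (nat_lit 74) (nat_lit 0) (nat_lit 2) (nat_lit 2) true (nat_lit 13) true (nat_lit 16) false (nat_lit 6) true (nat_lit 18) true (nat_lit 16) (.s false (nat_lit 2) (nat_lit 79) (nat_lit 2) (nat_lit 2) (nat_lit 0) true (nat_lit 13) true (nat_lit 18) false (nat_lit 6) true (nat_lit 16) true (nat_lit 16) (.s true (nat_lit 1) (nat_lit 88) (nat_lit 1) (nat_lit 1) (nat_lit 2) true (nat_lit 12) true (nat_lit 16) false (nat_lit 7) true (nat_lit 17) true (nat_lit 17) dC2d_i220)))))))))))))))))))))))))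

noncomputable def dC2d_i222 : IL := (.s false (nat_lit 3) (nat_lit 34) (nat_lit 2) (nat_lit 6) (nat_lit 1) true (nat_lit 12) true (nat_lit 17) true (nat_lit 0) true (nat_lit 16) true (nat_lit 12) (.s false (nat_lit 1) (nat_lit 35) (nat_lit 4) (nat_lit 2) (nat_lit 2) true (nat_lit 7) true (nat_lit 16) true (nat_lit 0) true (nat_lit 14) true (nat_lit 16) (.s false (nat_lit 2) (nat_lit 38) (nat_lit 4) (nat_lit 2) (nat_lit 2) true (nat_lit 7) true (nat_lit 16) true (nat_lit 0) true (nat_lit 14) true (nat_lit 16) (.s true (nat_lit 3) (nat_lit 34) (nat_lit 6) (nat_lit 2) (nat_lit 1) true (nat_lit 7) true (nat_lit 17) true (nat_lit 0) true (nat_lit 12) true (nat_lit 16) (.s false (nat_lit 2) (nat_lit 41) (nat_lit 0) (nat_lit 7) (nat_lit 1) true (nat_lit 15) true (nat_lit 17) false (nat_lit 0) true (nat_lit 18) true (nat_lit 11) (.s false (nat_lit 2) (nat_lit 41) (nat_lit 2) (nat_lit 0) (nat_lit 6) true (nat_lit 5) true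 (nat_lit 12) false (nat_lit 0) true (nat_lit 16) true (nat_lit 18) (.s false (nat_lit 3) (nat_lit 41) (nat_lit 3) (nat_lit 2) (nat_lit 2) true (nat_lit 8) true (nat_lit 16) false (nat_lit 0) true (nat_lit 15) true (nat_lit 16) (.s true (nat_lit 2) (nat_lit 44) (nat_lit 1) (nat_lit 6) (nat_lit 1) true (nat_lit 14) true (nat_lit 17) false (nat_lit 1) true (nat_lit 17) true (nat_lit 12) (.s true (nat_lit 2) (nat_lit 46) (nat_lit 0) (nat_lit 1) (nat_lit 6) true (nat_lit 8) true (nat_lit 12) false (nat_lit 2) true (nat_lit 18) true (nat_lit 17) (.s true (nat_lit 1) (nat_lit 47) (nat_lit 1) (nat_lit 0) (nat_lit 6) true (nat_lit 7) true (nat_lit 12) false (nat_lit 2) true (nat_lit 17) true (nat_lit 18) (.s false (nat_lit 2) (nat_lit 46) (nat_lit 1) (nat_lit 2) (nat_lit 3) true (nat_lit 10) true (nat_lit 15) false (nat_lit 2) true (nat_lit 17) true (nat_lit 16) (.s true (nat_lit 3) (nat_lit 47) (nat_lit 1) (nat_lit 2)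 (nat_lit 3) true (nat_lit 10) true (nat_lit 15) false (nat_lit 2) true (nat_lit 17) true (nat_lit 16) (.s true (nat_lit 2) (nat_lit 46) (nat_lit 1) (nat_lit 6) (nat_lit 0) true (nat_lit 15) true (nat_lit 18) false (nat_lit 2) true (nat_lit 17) true (nat_lit 12) (.s true (nat_lit 2) (nat_lit 46) (nat_lit 2) (nat_lit 3) (nat_lit 1) true (nat_lit 12) true (nat_lit 17) false (nat_lit 2) true (nat_lit 16) true (nat_lit 15) (.s true (nat_lit 2) (nat_lit 47) (nat_lit 2) (nat_lit 3) (nat_lit 1) true (nat_lit 12) true (nat_lit 17) false (nat_lit 2) true (nat_lit 16) true (nat_lit 15) (.s true (nat_lit 2) (nat_lit 47) (nat_lit 3) (nat_lit 2) (nat_lit 1) true (nat_lit 10) true (nat_lit 17) false (nat_lit 2) true (nat_lit 15) true (nat_lit 16) (.s true (nat_lit 2) (nat_lit 47) (nat_lit 4) (nat_lit 0) (nat_lit 2) true (nat_lit 7) true (nat_lit 16) false (nat_lit 2) true (nat_lit 14) true (nat_lit 18) (.s false (nat_lit 3)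 (nat_lit 45) (nat_lit 6) (nat_lit 1) (nat_lit 0) true (nat_lit 8) true (nat_lit 18) false (nat_lit 2) true (nat_lit 12) true (nat_lit 17) (.s false (nat_lit 3) (nat_lit 46) (nat_lit 6) (nat_lit 1) (nat_lit 0) true (nat_lit 8) true (nat_lit 18) false (nat_lit 2) true (nat_lit 12) true (nat_lit 17) (.s false (nat_lit 3) (nat_lit 48) (nat_lit 0) (nat_lit 1) (nat_lit 4) true (nat_lit 10) true (nat_lit 14) false (nat_lit 3) true (nat_lit 18) true (nat_lit 17) (.s false (nat_lit 1) (nat_lit 48) (nat_lit 0) (nat_lit 4) (nat_lit 1) true (nat_lit 15) true (nat_lit 17) false (nat_lit 3) true (nat_lit 18) true (nat_lit 14) (.s true (nat_lit 2) (nat_lit 48) (nat_lit 1) (nat_lit 0) (nat_lit 4) true (nat_lit 9) true (nat_lit 14) false (nat_lit 3) true (nat_lit 17) true (nat_lit 18) (.s true (nat_lit 1) (nat_lit 48) (nat_lit 4) (nat_lit 1) (nat_lit 0) true (nat_lit 10) true (nat_lit 18) false (nat_lit 3) true (nat_lit 14) true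 (nat_lit 17) (.s true (nat_lit 1) (nat_lit 52) (nat_lit 2) (nat_lit 2) (nat_lit 2) true (nat_lit 11) true (nat_lit 16) false (nat_lit 4) true (nat_lit 16) true (nat_lit 16) (.s true (nat_lit 3) (nat_lit 53) (nat_lit 2) (nat_lit 2) (nat_lit 2) true (nat_lit 11) true (nat_lit 16) false (nat_lit 4) true (nat_lit 16) true (nat_lit 16) dC2d_i221)))))))))))))))))))))))))

noncomputable def dC2d_i223 : IL := (.s false (nat_lit 3) (nat_lit 27) (nat_lit 2) (nat_lit 2) (nat_lit 6) true (nat_lit 5) true (nat_lit 12) true (nat_lit 2) true (nat_lit 16) true (nat_lit 16) (.s false (nat_lit 3) (nat_lit 29) (nat_lit 2) (nat_lit 2) (nat_lit 6) true (nat_lit 5) true (nat_lit 12) true (nat_lit 2) true (nat_lit 16) true (nat_lit 16) (.s false (nat_lit 1) (nat_lit 29) (nat_lit 2) (nat_lit 7) (nat_lit 1) true (nat_lit 12) true (nat_lit 17) true (nat_lit 2) true (nat_lit 16) true (nat_lit 11) (.s true (nat_lit 1) (nat_lit 24) (nat_lit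 6) (nat_lit 2) (nat_lit 2) true (nat_lit 5) true (nat_lit 16) true (nat_lit 2) true (nat_lit 12) true (nat_lit 16) (.s true (nat_lit 2) (nat_lit 25) (nat_lit 6) (nat_lit 2) (nat_lit 2) true (nat_lit 5) true (nat_lit 16) true (nat_lit 2) true (nat_lit 12) true (nat_lit 16) (.s true (nat_lit 2) (nat_lit 26) (nat_lit 6) (nat_lit 2) (nat_lit 2) true (nat_lit 5) true (nat_lit 16) true (nat_lit 2) true (nat_lit 12) true (nat_lit 16) (.s true (nat_lit 2) (nat_lit 27) (nat_lit 6) (nat_lit 2) (nat_lit 2) true (nat_lit 5) true (nat_lit 16) true (nat_lit 2) true (nat_lit 12) true (nat_lit 16) (.s false (nat_lit 3) (nat_lit 29) (nat_lit 6) (nat_lit 2) (nat_lit 2) true (nat_lit 5) true (nat_lit 16) true (nat_lit 2) true (nat_lit 12) true (nat_lit 16) (.s false (nat_lit 3) (nat_lit 29) (nat_lit 7) (nat_lit 1) (nat_lit 2) true (nat_lit 4) true (nat_lit 16) true (nat_lit 2) true (nat_lit 11) true (nat_lit 17) (.s false (nat_lit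 1) (nat_lit 25) (nat_lit 7) (nat_lit 2) (nat_lit 1) true (nat_lit 5) true (nat_lit 17) true (nat_lit 2) true (nat_lit 11) true (nat_lit 16) (.s true (nat_lit 3) (nat_lit 30) (nat_lit 0) (nat_lit 2) (nat_lit 7) true (nat_lit 6) true (nat_lit 11) true (nat_lit 1) true (nat_lit 18) true (nat_lit 16) (.s true (nat_lit 3) (nat_lit 30) (nat_lit 0) (nat_lit 7) (nat_lit 2) true (nat_lit 13) true (nat_lit 16) true (nat_lit 1) true (nat_lit 18) true (nat_lit 11) (.s true (nat_lit 1) (nat_lit 30) (nat_lit 2) (nat_lit 2) (nat_lit 5) true (nat_lit 6) true (nat_lit 13) true (nat_lit 1) true (nat_lit 16) true (nat_lit 16) (.s true (nat_lit 1) (nat_lit 30) (nat_lit 2) (nat_lit 7) (nat_lit 0) true (nat_lit 13) true (nat_lit 18) true (nat_lit 1) true (nat_lit 16) true (nat_lit 11) (.s true (nat_lit 3) (nat_lit 30) (nat_lit 7) (nat_lit 2) (nat_lit 0) true (nat_lit 6) true (nat_lit 18) true (nat_lit 1) true (nat_lit 11) true (nat_lit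 16) (.s true (nat_lit 3) (nat_lit 34) (nat_lit 1) (nat_lit 1) (nat_lit 7) true (nat_lit 5) true (nat_lit 11) true (nat_lit 0) true (nat_lit 17) true (nat_lit 17) (.s true (nat_lit 1) (nat_lit 38) (nat_lit 1) (nat_lit 1) (nat_lit 7) true (nat_lit 5) true (nat_lit 11) true (nat_lit 0) true (nat_lit 17) true (nat_lit 17) (.s false (nat_lit 2) (nat_lit 34) (nat_lit 1) (nat_lit 2) (nat_lit 6) true (nat_lit 7) true (nat_lit 12) true (nat_lit 0) true (nat_lit 17) true (nat_lit 16) (.s true (nat_lit 1) (nat_lit 35) (nat_lit 1) (nat_lit 2) (nat_lit 6) true (nat_lit 7) true (nat_lit 12) true (nat_lit 0) true (nat_lit 17) true (nat_lit 16) (.s true (nat_lit 2) (nat_lit 37) (nat_lit 1) (nat_lit 2) (nat_lit 6) true (nat_lit 7) true (nat_lit 12) true (nat_lit 0) true (nat_lit 17) true (nat_lit 16) (.s true (nat_lit 1) (nat_lit 34) (nat_lit 1) (nat_lit 6) (nat_lit 2) true (nat_lit 12) true (nat_lit 16) true (nat_lit 0) true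 (nat_lit 17) true (nat_lit 12) (.s true (nat_lit 2) (nat_lit 33) (nat_lit 1) (nat_lit 7) (nat_lit 1) true (nat_lit 14) true (nat_lit 17) true (nat_lit 0) true (nat_lit 17) true (nat_lit 11) (.s true (nat_lit 2) (nat_lit 38) (nat_lit 1) (nat_lit 7) (nat_lit 1) true (nat_lit 14) true (nat_lit 17) true (nat_lit 0) true (nat_lit 17) true (nat_lit 11) (.s true (nat_lit 2) (nat_lit 38) (nat_lit 2) (nat_lit 2) (nat_lit 4) true (nat_lit 7) true (nat_lit 14) true (nat_lit 0) true (nat_lit 16) true (nat_lit 16) (.s true (nat_lit 1) (nat_lit 33) (nat_lit 2) (nat_lit 6) (nat_lit 1) true (nat_lit 12) true (nat_lit 17) true (nat_lit 0) true (nat_lit 16) true (nat_lit 12) dC2d_i222)))))))))))))))))))))))))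

noncomputable def dC2d_i224 : IL := (.s false (nat_lit 1) (nat_lit 20) (nat_lit 11) (nat_lit 1) (nat_lit 1) true (nat_lit 2) true (nat_lit 17) true (nat_lit 4) true (nat_lit 8) true (nat_lit 17) (.s false (nat_lit 2) (nat_lit 20) (nat_lit 12) (nat_lit 1) (nat_lit 1) true (nat_lit 2) true (nat_lit 17) true (nat_lit 4) true (nat_lit 8) true (nat_lit 17) (.s true (nat_lit 2) (nat_lit 20) (nat_lit 13) (nat_lit 1) (nat_lit 1) true (nat_lit 2) true (nat_lit 17) true (nat_lit 4) true (nat_lit 8) true (nat_lit 17) (.s true (nat_lit 2) (nat_lit 20) (nat_lit 14) (nat_lit 0) (nat_lit 1) true (nat_lit 1) true (nat_lit 17) true (nat_lit 4) true (nat_lit 7) true (nat_lit 18) (.s true (nat_lit 2) (nat_lit 20) (nat_lit 15) (nat_lit 0) (nat_lit 1) true (nat_lit 1) true (nat_lit 17) true (nat_lit 4) true (nat_lit 7) true (nat_lit 18) (.s false (nat_lit 1) (nat_lit 20) (nat_lit 15) (nat_lit 1) (nat_lit 0) true (nat_lit 2) true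 (nat_lit 18) true (nat_lit 4) true (nat_lit 7) true (nat_lit 17) (.s true (nat_lit 2) (nat_lit 21) (nat_lit 2) (nat_lit 2) (nat_lit 7) true (nat_lit 4) true (nat_lit 11) true (nat_lit 3) true (nat_lit 16) true (nat_lit 16) (.s false (nat_lit 3) (nat_lit 22) (nat_lit 2) (nat_lit 2) (nat_lit 7) true (nat_lit 4) true (nat_lit 11) true (nat_lit 3) true (nat_lit 16) true (nat_lit 16) (.s true (nat_lit 3) (nat_lit 23) (nat_lit 2) (nat_lit 2) (nat_lit 7) true (nat_lit 4) true (nat_lit 11) true (nat_lit 3) true (nat_lit 16) true (nat_lit 16) (.s false (nat_lit 2) (nat_lit 22) (nat_lit 2) (nat_lit 7) (nat_lit 2) true (nat_lit 11) true (nat_lit 16) true (nat_lit 3) true (nat_lit 16) true (nat_lit 11) (.s false (nat_lit 2) (nat_lit 23) (nat_lit 2) (nat_lit 7) (nat_lit 2) true (nat_lit 11) true (nat_lit 16) true (nat_lit 3) true (nat_lit 16) true (nat_lit 11) (.s true (nat_lit 3) (nat_lit 21) (nat_lit 7) (nat_lit 2) (nat_lit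 2) true (nat_lit 4) true (nat_lit 16) true (nat_lit 3) true (nat_lit 11) true (nat_lit 16) (.s false (nat_lit 1) (nat_lit 22) (nat_lit 7) (nat_lit 2) (nat_lit 2) true (nat_lit 4) true (nat_lit 16) true (nat_lit 3) true (nat_lit 11) true (nat_lit 16) (.s false (nat_lit 1) (nat_lit 23) (nat_lit 7) (nat_lit 2) (nat_lit 2) true (nat_lit 4) true (nat_lit 16) true (nat_lit 3) true (nat_lit 11) true (nat_lit 16) (.s true (nat_lit 3) (nat_lit 25) (nat_lit 1) (nat_lit 2) (nat_lit 7) true (nat_lit 5) true (nat_lit 11) true (nat_lit 2) true (nat_lit 17) true (nat_lit 16) (.s false (nat_lit 1) (nat_lit 26) (nat_lit 1) (nat_lit 2) (nat_lit 7) true (nat_lit 5) true (nat_lit 11) true (nat_lit 2) true (nat_lit 17) true (nat_lit 16) (.s true (nat_lit 2) (nat_lit 27) (nat_lit 1) (nat_lit 2) (nat_lit 7) true (nat_lit 5) true (nat_lit 11) true (nat_lit 2) true (nat_lit 17) true (nat_lit 16) (.s true (nat_lit 1) (nat_lit 24) (nat_lit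 1) (nat_lit 7) (nat_lit 2) true (nat_lit 12) true (nat_lit 16) true (nat_lit 2) true (nat_lit 17) true (nat_lit 11) (.s true (nat_lit 2) (nat_lit 26) (nat_lit 1) (nat_lit 7) (nat_lit 2) true (nat_lit 12) true (nat_lit 16) true (nat_lit 2) true (nat_lit 17) true (nat_lit 11) (.s true (nat_lit 1) (nat_lit 29) (nat_lit 1) (nat_lit 7) (nat_lit 2) true (nat_lit 12) true (nat_lit 16) true (nat_lit 2) true (nat_lit 17) true (nat_lit 11) (.s true (nat_lit 1) (nat_lit 25) (nat_lit 2) (nat_lit 1) (nat_lit 7) true (nat_lit 4) true (nat_lit 11) true (nat_lit 2) true (nat_lit 16) true (nat_lit 17) (.s true (nat_lit 2) (nat_lit 27) (nat_lit 2) (nat_lit 1) (nat_lit 7) true (nat_lit 4) true (nat_lit 11) true (nat_lit 2) true (nat_lit 16) true (nat_lit 17) (.s false (nat_lit 2) (nat_lit 24) (nat_lit 2) (nat_lit 2) (nat_lit 6) true (nat_lit 5) true (nat_lit 12) true (nat_lit 2) true (nat_lit 16) true (nat_lit 16) (.s true (nat_lit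 1) (nat_lit 25) (nat_lit 2) (nat_lit 2) (nat_lit 6) true (nat_lit 5) true (nat_lit 12) true (nat_lit 2) true (nat_lit 16) true (nat_lit 16) (.s false (nat_lit 1) (nat_lit 26) (nat_lit 2) (nat_lit 2) (nat_lit 6) true (nat_lit 5) true (nat_lit 12) true (nat_lit 2) true (nat_lit 16) true (nat_lit 16) dC2d_i223)))))))))))))))))))))))))

noncomputable def dC2d_i225 : IL := (.s false (nat_lit 2) (nat_lit 19) (nat_lit 2) (nat_lit 1) (nat_lit 11) true (nat_lit 0) true (nat_lit 8) true (nat_lit 5) true (nat_lit 16) true (nat_lit 17) (.s true (nat_lit 3) (nat_lit 18) (nat_lit 2) (nat_lit 3) (nat_lit 6) true (nat_lit 5) true (nat_lit 12) true (nat_lit 5) true (nat_lit 16) true (nat_lit 15) (.s true (nat_lit 1) (nat_lit 18) (nat_lit 2) (nat_lit 6) (nat_lit 3) true (nat_lit 8) true (nat_lit 15) true (nat_lit 5) true (nat_lit 16) true (nat_lit 12) (.s true (nat_lit 1) (nat_lit 18) (nat_lit 2) (nat_lit 9) (nat_lit 2) true (nat_lit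 11) true (nat_lit 16) true (nat_lit 5) true (nat_lit 16) true (nat_lit 10) (.s true (nat_lit 1) (nat_lit 18) (nat_lit 2) (nat_lit 11) (nat_lit 1) true (nat_lit 12) true (nat_lit 17) true (nat_lit 5) true (nat_lit 16) true (nat_lit 8) (.s true (nat_lit 1) (nat_lit 18) (nat_lit 8) (nat_lit 2) (nat_lit 2) true (nat_lit 2) true (nat_lit 16) true (nat_lit 5) true (nat_lit 10) true (nat_lit 16) (.s true (nat_lit 2) (nat_lit 18) (nat_lit 9) (nat_lit 2) (nat_lit 2) true (nat_lit 2) true (nat_lit 16) true (nat_lit 5) true (nat_lit 10) true (nat_lit 16) (.s false (nat_lit 2) (nat_lit 19) (nat_lit 9) (nat_lit 2) (nat_lit 2) true (nat_lit 2) true (nat_lit 16) true (nat_lit 5) true (nat_lit 10) true (nat_lit 16) (.s true (nat_lit 2) (nat_lit 18) (nat_lit 11) (nat_lit 2) (nat_lit 1) true (nat_lit 2) true (nat_lit 17) true (nat_lit 5) true (nat_lit 8) true (nat_lit 16) (.s false (nat_lit 3) (nat_lit 20) (nat_lit 0) (nat_lit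 14) (nat_lit 1) true (nat_lit 15) true (nat_lit 17) true (nat_lit 4) true (nat_lit 18) true (nat_lit 7) (.s false (nat_lit 1) (nat_lit 20) (nat_lit 0) (nat_lit 15) (nat_lit 1) true (nat_lit 15) true (nat_lit 17) true (nat_lit 4) true (nat_lit 18) true (nat_lit 7) (.s false (nat_lit 2) (nat_lit 20) (nat_lit 1) (nat_lit 0) (nat_lit 14) true (nat_lit 1) true (nat_lit 7) true (nat_lit 4) true (nat_lit 17) true (nat_lit 18) (.s false (nat_lit 1) (nat_lit 20) (nat_lit 1) (nat_lit 2) (nat_lit 8) true (nat_lit 3) true (nat_lit 10) true (nat_lit 4) true (nat_lit 17) true (nat_lit 16) (.s false (nat_lit 2) (nat_lit 20) (nat_lit 1) (nat_lit 3) (nat_lit 6) true (nat_lit 7) true (nat_lit 12) true (nat_lit 4) true (nat_lit 17) true (nat_lit 15) (.s true (nat_lit 2) (nat_lit 20) (nat_lit 1) (nat_lit 8) (nat_lit 2) true (nat_lit 12) true (nat_lit 16) true (nat_lit 4) true (nat_lit 17) true (nat_lit 10) (.s true (nat_lit 2) (nat_lit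 20) (nat_lit 1) (nat_lit 11) (nat_lit 1) true (nat_lit 14) true (nat_lit 17) true (nat_lit 4) true (nat_lit 17) true (nat_lit 8) (.s false (nat_lit 1) (nat_lit 20) (nat_lit 1) (nat_lit 15) (nat_lit 0) true (nat_lit 15) true (nat_lit 18) true (nat_lit 4) true (nat_lit 17) true (nat_lit 7) (.s false (nat_lit 2) (nat_lit 20) (nat_lit 2) (nat_lit 0) (nat_lit 10) true (nat_lit 1) true (nat_lit 9) true (nat_lit 4) true (nat_lit 16) true (nat_lit 18) (.s true (nat_lit 1) (nat_lit 20) (nat_lit 2) (nat_lit 1) (nat_lit 8) true (nat_lit 2) true (nat_lit 10) true (nat_lit 4) true (nat_lit 16) true (nat_lit 17) (.s false (nat_lit 3) (nat_lit 20) (nat_lit 2) (nat_lit 4) (nat_lit 3) true (nat_lit 8) true (nat_lit 15) true (nat_lit 4) true (nat_lit 16) true (nat_lit 14) (.s false (nat_lit 2) (nat_lit 20) (nat_lit 3) (nat_lit 2) (nat_lit 4) true (nat_lit 3) true (nat_lit 14) true (nat_lit 4) true (nat_lit 15) true (nat_lit 16)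 (.s true (nat_lit 1) (nat_lit 20) (nat_lit 3) (nat_lit 6) (nat_lit 1) true (nat_lit 10) true (nat_lit 17) true (nat_lit 4) true (nat_lit 15) true (nat_lit 12) (.s true (nat_lit 2) (nat_lit 20) (nat_lit 5) (nat_lit 1) (nat_lit 4) true (nat_lit 2) true (nat_lit 14) true (nat_lit 4) true (nat_lit 13) true (nat_lit 17) (.s true (nat_lit 1) (nat_lit 20) (nat_lit 9) (nat_lit 1) (nat_lit 2) true (nat_lit 2) true (nat_lit 16) true (nat_lit 4) true (nat_lit 10) true (nat_lit 17) (.s false (nat_lit 3) (nat_lit 20) (nat_lit 8) (nat_lit 2) (nat_lit 1) true (nat_lit 3) true (nat_lit 17) true (nat_lit 4) true (nat_lit 10) true (nat_lit 16) dC2d_i224)))))))))))))))))))))))))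

noncomputable def dC2d_i226 : IL := (.s true (nat_lit 1) (nat_lit 7) (nat_lit 3) (nat_lit 7) (nat_lit 4) true (nat_lit 3) true (nat_lit 14) true (nat_lit 11) true (nat_lit 15) true (nat_lit 11) (.s false (nat_lit 2) (nat_lit 8) (nat_lit 1) (nat_lit 7) (nat_lit 7) true (nat_lit 5) true (nat_lit 11) true (nat_lit 10) true (nat_lit 17) true (nat_lit 11) (.s true (nat_lit 2) (nat_lit 8) (nat_lit 2) (nat_lit 6) (nat_lit 7) true (nat_lit 4) true (nat_lit 11) true (nat_lit 10) true (nat_lit 16) true (nat_lit 12) (.s false (nat_lit 1) (nat_lit 9) (nat_lit 6) (nat_lit 2) (nat_lit 7) false (nat_lit 2) true (nat_lit 11) true (nat_lit 10) true (nat_lit 12) true (nat_lit 16) (.s true (nat_lit 1) (nat_lit 8) (nat_lit 6) (nat_lit 7) (nat_lit 2) true (nat_lit 5) true (nat_lit 16) true (nat_lit 10) true (nat_lit 12) true (nat_lit 11) (.s true (nat_lit 1) (nat_lit 9) (nat_lit 7) (nat_lit 1) (nat_lit 7) false (nat_lit 3) true (nat_lit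 11) true (nat_lit 10) true (nat_lit 11) true (nat_lit 17) (.s true (nat_lit 3) (nat_lit 8) (nat_lit 7) (nat_lit 2) (nat_lit 6) false (nat_lit 2) true (nat_lit 12) true (nat_lit 10) true (nat_lit 11) true (nat_lit 16) (.s false (nat_lit 2) (nat_lit 8) (nat_lit 7) (nat_lit 7) (nat_lit 1) true (nat_lit 5) true (nat_lit 17) true (nat_lit 10) true (nat_lit 11) true (nat_lit 11) (.s true (nat_lit 2) (nat_lit 10) (nat_lit 7) (nat_lit 7) (nat_lit 0) true (nat_lit 6) true (nat_lit 18) true (nat_lit 9) true (nat_lit 11) true (nat_lit 11) (.s true (nat_lit 3) (nat_lit 11) (nat_lit 1) (nat_lit 7) (nat_lit 6) true (nat_lit 7) true (nat_lit 12) true (nat_lit 8) true (nat_lit 17) true (nat_lit 11) (.s true (nat_lit 2) (nat_lit 13) (nat_lit 2) (nat_lit 4) (nat_lit 7) true (nat_lit 4) true (nat_lit 11) true (nat_lit 8) true (nat_lit 16) true (nat_lit 14) (.s true (nat_lit 3) (nat_lit 11) (nat_lit 2) (nat_lit 6) (nat_lit 6) true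 (nat_lit 5) true (nat_lit 12) true (nat_lit 8) true (nat_lit 16) true (nat_lit 12) (.s true (nat_lit 2) (nat_lit 12) (nat_lit 2) (nat_lit 7) (nat_lit 4) true (nat_lit 7) true (nat_lit 14) true (nat_lit 8) true (nat_lit 16) true (nat_lit 11) (.s false (nat_lit 3) (nat_lit 11) (nat_lit 6) (nat_lit 6) (nat_lit 2) true (nat_lit 5) true (nat_lit 16) true (nat_lit 8) true (nat_lit 12) true (nat_lit 12) (.s true (nat_lit 2) (nat_lit 12) (nat_lit 6) (nat_lit 6) (nat_lit 2) true (nat_lit 5) true (nat_lit 16) true (nat_lit 8) true (nat_lit 12) true (nat_lit 12) (.s false (nat_lit 3) (nat_lit 11) (nat_lit 7) (nat_lit 1) (nat_lit 6) false (nat_lit 2) true (nat_lit 12) true (nat_lit 8) true (nat_lit 11) true (nat_lit 17) (.s false (nat_lit 3) (nat_lit 14) (nat_lit 2) (nat_lit 7) (nat_lit 3) true (nat_lit 8) true (nat_lit 15) true (nat_lit 7) true (nat_lit 16) true (nat_lit 11) (.s true (nat_lit 3) (nat_lit 15) (nat_lit 3)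 (nat_lit 7) (nat_lit 2) true (nat_lit 8) true (nat_lit 16) true (nat_lit 7) true (nat_lit 15) true (nat_lit 11) (.s false (nat_lit 1) (nat_lit 14) (nat_lit 7) (nat_lit 3) (nat_lit 2) true (nat_lit 4) true (nat_lit 16) true (nat_lit 7) true (nat_lit 11) true (nat_lit 15) (.s false (nat_lit 1) (nat_lit 14) (nat_lit 13) (nat_lit 2) (nat_lit 2) true (nat_lit 0) true (nat_lit 16) true (nat_lit 7) true (nat_lit 8) true (nat_lit 16) (.s true (nat_lit 2) (nat_lit 19) (nat_lit 0) (nat_lit 2) (nat_lit 15) true (nat_lit 2) true (nat_lit 7) true (nat_lit 5) true (nat_lit 18) true (nat_lit 16) (.s true (nat_lit 2) (nat_lit 18) (nat_lit 1) (nat_lit 0) (nat_lit 18) false (nat_lit 0) true (nat_lit 5) true (nat_lit 5) true (nat_lit 17) true (nat_lit 18) (.s true (nat_lit 2) (nat_lit 18) (nat_lit 1) (nat_lit 2) (nat_lit 12) true (nat_lit 2) true (nat_lit 8) true (nat_lit 5) true (nat_lit 17) true (nat_lit 16) (.s true (nat_lit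 2) (nat_lit 18) (nat_lit 1) (nat_lit 7) (nat_lit 3) true (nat_lit 10) true (nat_lit 15) true (nat_lit 5) true (nat_lit 17) true (nat_lit 11) (.s true (nat_lit 2) (nat_lit 18) (nat_lit 1) (nat_lit 11) (nat_lit 2) true (nat_lit 12) true (nat_lit 16) true (nat_lit 5) true (nat_lit 17) true (nat_lit 8) dC2d_i225)))))))))))))))))))))))))

noncomputable def dC2d_i227 : IL := (.s false (nat_lit 2) (nat_lit 9) (nat_lit 7) (nat_lit 1) (nat_lit 7) false (nat_lit 3) true (nat_lit 11) true (nat_lit 10) true (nat_lit 11) true (nat_lit 17) (.s false (nat_lit 3) (nat_lit 9) (nat_lit 7) (nat_lit 6) (nat_lit 2) true (nat_lit 4) true (nat_lit 16) true (nat_lit 10) true (nat_lit 11) true (nat_lit 12) (.s true (nat_lit 3) (nat_lit 22) (nat_lit 2) (nat_lit 2) (nat_lit 7) true (nat_lit 4) true (nat_lit 11) true (nat_lit 3) true (nat_lit 16) true (nat_lit 16) (.s true (nat_lit 3) (nat_lit 23) (nat_lit 2) (nat_lit 2) (nat_lit 7) true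 (nat_lit 4) true (nat_lit 11) true (nat_lit 3) true (nat_lit 16) true (nat_lit 16) (.s true (nat_lit 3) (nat_lit 25) (nat_lit 2) (nat_lit 6) (nat_lit 2) true (nat_lit 11) true (nat_lit 16) true (nat_lit 2) true (nat_lit 16) true (nat_lit 12) (.s true (nat_lit 3) (nat_lit 25) (nat_lit 6) (nat_lit 2) (nat_lit 2) true (nat_lit 5) true (nat_lit 16) true (nat_lit 2) true (nat_lit 12) true (nat_lit 16) (.s true (nat_lit 3) (nat_lit 52) (nat_lit 2) (nat_lit 2) (nat_lit 2) true (nat_lit 11) true (nat_lit 16) false (nat_lit 4) true (nat_lit 16) true (nat_lit 16) (.s true (nat_lit 3) (nat_lit 53) (nat_lit 2) (nat_lit 2) (nat_lit 2) true (nat_lit 11) true (nat_lit 16) false (nat_lit 4) true (nat_lit 16) true (nat_lit 16) (.s false (nat_lit 3) (nat_lit 55) (nat_lit 2) (nat_lit 2) (nat_lit 2) true (nat_lit 11) true (nat_lit 16) false (nat_lit 4) true (nat_lit 16) true (nat_lit 16) (.s true (nat_lit 3) (nat_lit 56) (nat_lit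 2) (nat_lit 2) (nat_lit 2) true (nat_lit 11) true (nat_lit 16) false (nat_lit 4) true (nat_lit 16) true (nat_lit 16) (.s true (nat_lit 3) (nat_lit 57) (nat_lit 2) (nat_lit 2) (nat_lit 2) true (nat_lit 11) true (nat_lit 16) false (nat_lit 4) true (nat_lit 16) true (nat_lit 16) (.s false (nat_lit 3) (nat_lit 58) (nat_lit 2) (nat_lit 2) (nat_lit 2) true (nat_lit 11) true (nat_lit 16) false (nat_lit 4) true (nat_lit 16) true (nat_lit 16) (.s false (nat_lit 3) (nat_lit 59) (nat_lit 2) (nat_lit 2) (nat_lit 2) true (nat_lit 11) true (nat_lit 16) false (nat_lit 4) true (nat_lit 16) true (nat_lit 16) (.s false (nat_lit 3) (nat_lit 61) (nat_lit 1) (nat_lit 2) (nat_lit 2) true (nat_lit 12) true (nat_lit 16) false (nat_lit 5) true (nat_lit 17) true (nat_lit 16) (.e false (nat_lit 2) (nat_lit 129) (nat_lit 7) (nat_lit 11) (.e false (nat_lit 3) (nat_lit 273) (nat_lit 1) (nat_lit 17) (.e true (nat_lit 1) (nat_lit 209) (nat_lit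 2) (nat_lit 16) (.e false (nat_lit 3) (nat_lit 228) (nat_lit 2) (nat_lit 16) (.e true (nat_lit 2) (nat_lit 230) (nat_lit 2) (nat_lit 16) (.e true (nat_lit 2) (nat_lit 249) (nat_lit 2) (nat_lit 16) (.e true (nat_lit 3) (nat_lit 243) (nat_lit 2) (nat_lit 16) (.e false (nat_lit 2) (nat_lit 217) (nat_lit 2) (nat_lit 16) (.e true (nat_lit 3) (nat_lit 284) (nat_lit 1) (nat_lit 17) (.u (nat_lit 2) (.p (nat_lit 0) (nat_lit 1) (.p (nat_lit 1) (nat_lit 3) (.n (nat_lit 2) (nat_lit 1) (.p (nat_lit 3) (nat_lit 1) (.n (nat_lit 4) (nat_lit 3) (.p (nat_lit 5) (nat_lit 2) (.p (nat_lit 6) (nat_lit 1) (.p (nat_lit 8) (nat_lit 1) (.n (nat_lit 9) (nat_lit 1) (.n (nat_lit 10) (nat_lit 3) (.n (nat_lit 11) (nat_lit 4) (.p (nat_lit 12) (nat_lit 1) (.p (nat_lit 14) (nat_lit 3) (.n (nat_lit 15) (nat_lit 2) (.p (nat_lit 16) (nat_lit 2) (.n (nat_lit 17) (nat_lit 1) (.n (nat_lit 18) (nat_lit 2) (.p (nat_lit 20) (nat_lit 1) (.n (nat_lit 21)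 (nat_lit 3) (.p (nat_lit 22) (nat_lit 3) (.p (nat_lit 23) (nat_lit 1) (.n (nat_lit 24) (nat_lit 1) (.n (nat_lit 26) (nat_lit 2) (.p (nat_lit 27) (nat_lit 2) (.n (nat_lit 31) (nat_lit 2) (.p (nat_lit 33) (nat_lit 1) (.n (nat_lit 34) (nat_lit 3) (.p (nat_lit 35) (nat_lit 1) (.p (nat_lit 37) (nat_lit 3) (.n (nat_lit 38) (nat_lit 1) (.p (nat_lit 39) (nat_lit 1) (.n (nat_lit 46) (nat_lit 2) (.n (nat_lit 48) (nat_lit 1) (.p (nat_lit 55) (nat_lit 1) (.p (nat_lit 210) (nat_lit 1) (.n (nat_lit 211) (nat_lit 1) (.n (nat_lit 214) (nat_lit 2) (.n (nat_lit 215) (nat_lit 2) (.n (nat_lit 216) (nat_lit 2) (.p (nat_lit 217) (nat_lit 1) (.n (nat_lit 219) (nat_lit 2) (.p (nat_lit 221) (nat_lit 2) (.n (nat_lit 223) (nat_lit 2) (.p (nat_lit 224) (nat_lit 2) (.n (nat_lit 225) (nat_lit 1) (.p (nat_lit 229) (nat_lit 4) (.n (nat_lit 236) (nat_lit 1) (.p (nat_lit 238) (nat_lit 1) (.n (nat_lit 302) (nat_lit 9) (.p (nat_lit 303) (nat_lit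 3) (.p (nat_lit 304) (nat_lit 3) (.p (nat_lit 305) (nat_lit 3) (.p (nat_lit 306) (nat_lit 1) (.p (nat_lit 307) (nat_lit 3) (.n (nat_lit 308) (nat_lit 6) (.p (nat_lit 309) (nat_lit 3) (.n (nat_lit 311) (nat_lit 3) (.n (nat_lit 314) (nat_lit 2) (.n (nat_lit 316) (nat_lit 6) (.n (nat_lit 317) (nat_lit 3) .z)))))))))))))))))))))))))))))))))))))))))))))))))))))))))))) (.u (nat_lit 2) (.n (nat_lit 318) (nat_lit 6) (.n (nat_lit 319) (nat_lit 3) (.n (nat_lit 322) (nat_lit 3) (.p (nat_lit 323) (nat_lit 3) (.n (nat_lit 324) (nat_lit 3) (.n (nat_lit 325) (nat_lit 6) (.p (nat_lit 327) (nat_lit 8) (.n (nat_lit 328) (nat_lit 3) (.p (nat_lit 329) (nat_lit 4) (.n (nat_lit 331) (nat_lit 3) (.p (nat_lit 342) (nat_lit 3) (.p (nat_lit 343) (nat_lit 6) (.p (nat_lit 344) (nat_lit 3) (.n (nat_lit 346) (nat_lit 4) (.n (nat_lit 348) (nat_lit 12) (.p (nat_lit 349) (nat_lit 2) (.p (nat_lit 350) (nat_lit 2) (.p (nat_lit 351) (nat_lit 6)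 (.n (nat_lit 352) (nat_lit 4) (.n (nat_lit 355) (nat_lit 2) (.n (nat_lit 359) (nat_lit 2) (.p (nat_lit 360) (nat_lit 2) (.n (nat_lit 361) (nat_lit 2) (.p (nat_lit 362) (nat_lit 2) (.p (nat_lit 363) (nat_lit 2) (.p (nat_lit 364) (nat_lit 2) (.p (nat_lit 366) (nat_lit 4) (.p (nat_lit 367) (nat_lit 2) (.n (nat_lit 368) (nat_lit 4) (.p (nat_lit 369) (nat_lit 2) (.n (nat_lit 370) (nat_lit 5) (.p (nat_lit 373) (nat_lit 4) (.p (nat_lit 374) (nat_lit 4) (.p (nat_lit 380) (nat_lit 4) (.n (nat_lit 382) (nat_lit 4) .z))))))))))))))))))))))))))))))))))) .nil)))))))))))))))))))))))))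

noncomputable def dC2d_i228 : IL := (.e true (nat_lit 3) (nat_lit 274) (nat_lit 1) (nat_lit 17) (.e false (nat_lit 1) (nat_lit 278) (nat_lit 1) (nat_lit 17) (.e true (nat_lit 1) (nat_lit 285) (nat_lit 1) (nat_lit 17) (.e false (nat_lit 2) (nat_lit 208) (nat_lit 2) (nat_lit 16) (.e false (nat_lit 1) (nat_lit 209) (nat_lit 2) (nat_lit 16) (.e false (nat_lit 3) (nat_lit 211) (nat_lit 2) (nat_lit 16) (.e true (nat_lit 3) (nat_lit 213) (nat_lit 2) (nat_lit 16) (.e true (nat_lit 3) (nat_lit 216) (nat_lit 2) (nat_lit 16) (.e false (nat_lit 1) (nat_lit 217) (nat_lit 2) (nat_lit 16) (.e true (nat_lit 2) (nat_lit 218) (nat_lit 2) (nat_lit 16) (.e false (nat_lit 2) (nat_lit 219) (nat_lit 2) (nat_lit 16) (.e true (nat_lit 2) (nat_lit 221) (nat_lit 2) (nat_lit 16) (.e true (nat_lit 2) (nat_lit 222) (nat_lit 2) (nat_lit 16) (.e false (nat_lit 2) (nat_lit 226) (nat_lit 2) (nat_lit 16) (.e true (nat_lit 2) (nat_lit 227) (nat_lit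 2) (nat_lit 16) (.e true (nat_lit 2) (nat_lit 228) (nat_lit 2) (nat_lit 16) (.e false (nat_lit 3) (nat_lit 229) (nat_lit 2) (nat_lit 16) (.e false (nat_lit 3) (nat_lit 230) (nat_lit 2) (nat_lit 16) (.e false (nat_lit 1) (nat_lit 233) (nat_lit 2) (nat_lit 16) (.e true (nat_lit 1) (nat_lit 245) (nat_lit 2) (nat_lit 16) (.e false (nat_lit 2) (nat_lit 246) (nat_lit 2) (nat_lit 16) (.e false (nat_lit 2) (nat_lit 247) (nat_lit 2) (nat_lit 16) (.e false (nat_lit 1) (nat_lit 248) (nat_lit 2) (nat_lit 16) (.e false (nat_lit 3) (nat_lit 251) (nat_lit 2) (nat_lit 16) (.u (nat_lit 2) (.n (nat_lit 0) (nat_lit 5) (.n (nat_lit 1) (nat_lit 2) (.p (nat_lit 3) (nat_lit 1) (.p (nat_lit 4) (nat_lit 1) (.p (nat_lit 5) (nat_lit 1) (.n (nat_lit 6) (nat_lit 4) (.n (nat_lit 7) (nat_lit 1) (.n (nat_lit 8) (nat_lit 3) (.n (nat_lit 9) (nat_lit 1) (.n (nat_lit 10) (nat_lit 1) (.n (nat_lit 11) (nat_lit 2) (.n (nat_lit 12) (nat_lit 6) (.p (nat_lit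 14) (nat_lit 1) (.n (nat_lit 15) (nat_lit 2) (.p (nat_lit 16) (nat_lit 2) (.n (nat_lit 17) (nat_lit 7) (.p (nat_lit 18) (nat_lit 1) (.p (nat_lit 20) (nat_lit 2) (.p (nat_lit 21) (nat_lit 3) (.n (nat_lit 22) (nat_lit 3) (.p (nat_lit 23) (nat_lit 2) (.n (nat_lit 24) (nat_lit 4) (.n (nat_lit 25) (nat_lit 3) (.p (nat_lit 26) (nat_lit 1) (.n (nat_lit 27) (nat_lit 1) (.p (nat_lit 28) (nat_lit 1) (.p (nat_lit 29) (nat_lit 2) (.n (nat_lit 31) (nat_lit 4) (.p (nat_lit 32) (nat_lit 2) (.n (nat_lit 34) (nat_lit 1) (.p (nat_lit 36) (nat_lit 1) (.n (nat_lit 37) (nat_lit 2) (.p (nat_lit 39) (nat_lit 1) (.n (nat_lit 40) (nat_lit 1) (.p (nat_lit 42) (nat_lit 1) (.n (nat_lit 44) (nat_lit 1) (.n (nat_lit 46) (nat_lit 1) (.n (nat_lit 47) (nat_lit 4) (.n (nat_lit 48) (nat_lit 1) (.n (nat_lit 308) (nat_lit 1) (.p (nat_lit 310) (nat_lit 1) (.n (nat_lit 316) (nat_lit 1) (.p (nat_lit 342) (nat_lit 1) (.n (nat_lit 345) (nat_lit 1) (.n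 (nat_lit 348) (nat_lit 1) .z))))))))))))))))))))))))))))))))))))))))))))) .nil)))))))))))))))))))))))))

noncomputable def dC2d_i229 : IL := (.e true (nat_lit 2) (nat_lit 219) (nat_lit 2) (nat_lit 16) (.e false (nat_lit 2) (nat_lit 220) (nat_lit 2) (nat_lit 16) (.e true (nat_lit 2) (nat_lit 221) (nat_lit 2) (nat_lit 16) (.e false (nat_lit 1) (nat_lit 222) (nat_lit 2) (nat_lit 16) (.e false (nat_lit 2) (nat_lit 223) (nat_lit 2) (nat_lit 16) (.e true (nat_lit 3) (nat_lit 224) (nat_lit 2) (nat_lit 16) (.e true (nat_lit 3) (nat_lit 225) (nat_lit 2) (nat_lit 16) (.e false (nat_lit 2) (nat_lit 226) (nat_lit 2) (nat_lit 16) (.e true (nat_lit 2) (nat_lit 227) (nat_lit 2) (nat_lit 16) (.e true (nat_lit 1) (nat_lit 228) (nat_lit 2) (nat_lit 16) (.e false (nat_lit 1) (nat_lit 229) (nat_lit 2) (nat_lit 16) (.e false (nat_lit 1) (nat_lit 230) (nat_lit 2) (nat_lit 16) (.e false (nat_lit 2) (nat_lit 231) (nat_lit 2) (nat_lit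 16) (.e true (nat_lit 2) (nat_lit 232) (nat_lit 2) (nat_lit 16) (.e false (nat_lit 1) (nat_lit 241) (nat_lit 2) (nat_lit 16) (.e false (nat_lit 1) (nat_lit 242) (nat_lit 2) (nat_lit 16) (.e false (nat_lit 2) (nat_lit 243) (nat_lit 2) (nat_lit 16) (.e false (nat_lit 3) (nat_lit 244) (nat_lit 2) (nat_lit 16) (.e false (nat_lit 3) (nat_lit 248) (nat_lit 2) (nat_lit 16) (.e false (nat_lit 3) (nat_lit 250) (nat_lit 2) (nat_lit 16) (.e false (nat_lit 1) (nat_lit 251) (nat_lit 2) (nat_lit 16) (.e false (nat_lit 3) (nat_lit 206) (nat_lit 2) (nat_lit 16) (.e true (nat_lit 3) (nat_lit 208) (nat_lit 2) (nat_lit 16) (.e false (nat_lit 1) (nat_lit 212) (nat_lit 2) (nat_lit 16) (.u (nat_lit 2) (.p (nat_lit 0) (nat_lit 1) (.n (nat_lit 1) (nat_lit 2) (.p (nat_lit 2) (nat_lit 2) (.p (nat_lit 4) (nat_lit 1) (.n (nat_lit 6) (nat_lit 5) (.n (nat_lit 8) (nat_lit 3) (.p (nat_lit 9) (nat_lit 6) (.n (nat_lit 10) (nat_lit 5) (.p (nat_lit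 11) (nat_lit 2) (.p (nat_lit 12) (nat_lit 2) (.n (nat_lit 14) (nat_lit 4) (.n (nat_lit 15) (nat_lit 1) (.n (nat_lit 16) (nat_lit 1) (.n (nat_lit 18) (nat_lit 2) (.n (nat_lit 19) (nat_lit 2) (.p (nat_lit 20) (nat_lit 5) (.n (nat_lit 23) (nat_lit 3) (.n (nat_lit 26) (nat_lit 1) (.n (nat_lit 27) (nat_lit 2) (.n (nat_lit 29) (nat_lit 1) (.p (nat_lit 33) (nat_lit 1) (.p (nat_lit 34) (nat_lit 1) (.p (nat_lit 35) (nat_lit 2) (.n (nat_lit 36) (nat_lit 1) (.n (nat_lit 37) (nat_lit 4) (.n (nat_lit 38) (nat_lit 1) (.n (nat_lit 41) (nat_lit 1) (.p (nat_lit 44) (nat_lit 3) (.n (nat_lit 45) (nat_lit 2) (.n (nat_lit 46) (nat_lit 1) (.n (nat_lit 47) (nat_lit 3) (.n (nat_lit 48) (nat_lit 4) (.p (nat_lit 49) (nat_lit 1) (.p (nat_lit 50) (nat_lit 1) (.p (nat_lit 51) (nat_lit 1) (.p (nat_lit 56) (nat_lit 1) (.p (nat_lit 57) (nat_lit 1) (.n (nat_lit 311) (nat_lit 1) (.p (nat_lit 312) (nat_lit 1) (.n (nat_lit 315) (nat_lit 1) (.p (nat_lit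 316) (nat_lit 1) (.p (nat_lit 322) (nat_lit 1) .z)))))))))))))))))))))))))))))))))))))))))) .nil)))))))))))))))))))))))))

noncomputable def dC2d_i230 : IL := (.e false (nat_lit 1) (nat_lit 252) (nat_lit 1) (nat_lit 17) (.e false (nat_lit 2) (nat_lit 253) (nat_lit 1) (nat_lit 17) (.e false (nat_lit 1) (nat_lit 254) (nat_lit 1) (nat_lit 17) (.e false (nat_lit 2) (nat_lit 255) (nat_lit 1) (nat_lit 17) (.e true (nat_lit 1) (nat_lit 256) (nat_lit 1) (nat_lit 17) (.e true (nat_lit 3) (nat_lit 258) (nat_lit 1) (nat_lit 17) (.e false (nat_lit 2) (nat_lit 259) (nat_lit 1) (nat_lit 17) (.e true (nat_lit 2) (nat_lit 260) (nat_lit 1) (nat_lit 17) (.e true (nat_lit 3) (nat_lit 261) (nat_lit 1) (nat_lit 17) (.e false (nat_lit 3) (nat_lit 262) (nat_lit 1) (nat_lit 17) (.e false (nat_lit 1) (nat_lit 263) (nat_lit 1) (nat_lit 17) (.e true (nat_lit 2) (nat_lit 264) (nat_lit 1) (nat_lit 17) (.e false (nat_lit 1) (nat_lit 265) (nat_lit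 1) (nat_lit 17) (.e true (nat_lit 1) (nat_lit 266) (nat_lit 1) (nat_lit 17) (.e true (nat_lit 3) (nat_lit 267) (nat_lit 1) (nat_lit 17) (.e true (nat_lit 3) (nat_lit 269) (nat_lit 1) (nat_lit 17) (.e true (nat_lit 2) (nat_lit 270) (nat_lit 1) (nat_lit 17) (.e true (nat_lit 2) (nat_lit 272) (nat_lit 1) (nat_lit 17) (.e true (nat_lit 1) (nat_lit 273) (nat_lit 1) (nat_lit 17) (.e true (nat_lit 3) (nat_lit 274) (nat_lit 1) (nat_lit 17) (.e false (nat_lit 3) (nat_lit 275) (nat_lit 1) (nat_lit 17) (.e false (nat_lit 1) (nat_lit 282) (nat_lit 1) (nat_lit 17) (.e true (nat_lit 1) (nat_lit 284) (nat_lit 1) (nat_lit 17) (.e true (nat_lit 1) (nat_lit 285) (nat_lit 1) (nat_lit 17) (.u (nat_lit 2) (.p (nat_lit 2) (nat_lit 2) (.n (nat_lit 6) (nat_lit 1) (.n (nat_lit 7) (nat_lit 1) (.p (nat_lit 8) (nat_lit 3) (.n (nat_lit 9) (nat_lit 1) (.n (nat_lit 11) (nat_lit 2) (.n (nat_lit 12) (nat_lit 1) (.p (nat_lit 14) (nat_lit 1) (.p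 (nat_lit 15) (nat_lit 1) (.p (nat_lit 17) (nat_lit 1) (.p (nat_lit 19) (nat_lit 1) (.p (nat_lit 21) (nat_lit 1) (.p (nat_lit 24) (nat_lit 1) (.n (nat_lit 26) (nat_lit 1) (.n (nat_lit 29) (nat_lit 1) (.n (nat_lit 31) (nat_lit 1) (.p (nat_lit 37) (nat_lit 1) (.p (nat_lit 39) (nat_lit 1) (.n (nat_lit 47) (nat_lit 1) .z))))))))))))))))))) .nil)))))))))))))))))))))))))

noncomputable def dC2d_i231 : IL := (.e false (nat_lit 1) (nat_lit 233) (nat_lit 2) (nat_lit 16) (.e false (nat_lit 3) (nat_lit 235) (nat_lit 2) (nat_lit 16) (.e true (nat_lit 3) (nat_lit 62) (nat_lit 18) (nat_lit 5) (.e false (nat_lit 1) (nat_lit 256) (nat_lit 1) (nat_lit 17) (.e false (nat_lit 2) (nat_lit 259) (nat_lit 1) (nat_lit 17) (.e true (nat_lit 2) (nat_lit 260) (nat_lit 1) (nat_lit 17) (.e true (nat_lit 2) (nat_lit 261) (nat_lit 1) (nat_lit 17) (.e false (nat_lit 1) (nat_lit 275) (nat_lit 1) (nat_lit 17) (.e false (nat_lit 1) (nat_lit 289)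 (nat_lit 0) (nat_lit 18) (.e false (nat_lit 1) (nat_lit 290) (nat_lit 0) (nat_lit 18) (.e false (nat_lit 2) (nat_lit 291) (nat_lit 0) (nat_lit 18) (.e false (nat_lit 2) (nat_lit 292) (nat_lit 0) (nat_lit 18) (.e false (nat_lit 2) (nat_lit 293) (nat_lit 0) (nat_lit 18) (.e false (nat_lit 2) (nat_lit 295) (nat_lit 0) (nat_lit 18) (.e true (nat_lit 3) (nat_lit 297) (nat_lit 0) (nat_lit 18) (.e false (nat_lit 3) (nat_lit 299) (nat_lit 0) (nat_lit 18) (.e false (nat_lit 1) (nat_lit 301) (nat_lit 0) (nat_lit 18) (.e false (nat_lit 1) (nat_lit 303) (nat_lit 0) (nat_lit 18) (.e false (nat_lit 2) (nat_lit 280) (nat_lit 1) (nat_lit 17) (.e true (nat_lit 2) (nat_lit 282) (nat_lit 1) (nat_lit 17) (.e false (nat_lit 1) (nat_lit 294) (nat_lit 0) (nat_lit 18) (.u (nat_lit 2) (.p (nat_lit 0) (nat_lit 4) (.n (nat_lit 1) (nat_lit 1) (.n (nat_lit 3) (nat_lit 4) (.p (nat_lit 4) (nat_lit 3) (.p (nat_lit 5) (nat_lit 2) (.n (nat_lit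 6) (nat_lit 4) (.n (nat_lit 7) (nat_lit 1) (.n (nat_lit 8) (nat_lit 3) (.p (nat_lit 9) (nat_lit 4) (.n (nat_lit 10) (nat_lit 6) (.p (nat_lit 11) (nat_lit 1) (.p (nat_lit 12) (nat_lit 1) (.p (nat_lit 14) (nat_lit 4) (.n (nat_lit 15) (nat_lit 1) (.p (nat_lit 16) (nat_lit 2) (.n (nat_lit 17) (nat_lit 3) (.n (nat_lit 18) (nat_lit 2) (.n (nat_lit 19) (nat_lit 1) (.p (nat_lit 20) (nat_lit 1) (.p (nat_lit 21) (nat_lit 2) (.n (nat_lit 22) (nat_lit 2) (.n (nat_lit 23) (nat_lit 2) (.p (nat_lit 26) (nat_lit 2) (.n (nat_lit 27) (nat_lit 5) (.p (nat_lit 29) (nat_lit 1) (.n (nat_lit 32) (nat_lit 1) (.p (nat_lit 33) (nat_lit 3) (.n (nat_lit 35) (nat_lit 2) (.n (nat_lit 36) (nat_lit 5) (.p (nat_lit 37) (nat_lit 3) (.n (nat_lit 38) (nat_lit 3) (.p (nat_lit 39) (nat_lit 2) (.p (nat_lit 40) (nat_lit 2) (.n (nat_lit 45) (nat_lit 3) (.p (nat_lit 46) (nat_lit 2) (.p (nat_lit 47) (nat_lit 1) (.p (nat_lit 48) (nat_lit 1) (.n (nat_lit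 51) (nat_lit 1) (.n (nat_lit 62) (nat_lit 1) (.p (nat_lit 63) (nat_lit 1) (.n (nat_lit 66) (nat_lit 1) (.p (nat_lit 67) (nat_lit 1) (.n (nat_lit 89) (nat_lit 1) (.n (nat_lit 96) (nat_lit 1) (.p (nat_lit 97) (nat_lit 1) (.n (nat_lit 110) (nat_lit 1) (.p (nat_lit 121) (nat_lit 1) (.p (nat_lit 122) (nat_lit 1) (.p (nat_lit 123) (nat_lit 1) (.n (nat_lit 124) (nat_lit 1) (.p (nat_lit 126) (nat_lit 1) (.n (nat_lit 136) (nat_lit 1) (.p (nat_lit 137) (nat_lit 1) (.n (nat_lit 141) (nat_lit 1) (.n (nat_lit 148) (nat_lit 1) (.n (nat_lit 183) (nat_lit 1) (.p (nat_lit 184) (nat_lit 2) (.p (nat_lit 185) (nat_lit 3) (.n (nat_lit 186) (nat_lit 1) (.n (nat_lit 187) (nat_lit 1) .z)))))))))))))))))))))))))))))))))))))))))))))))))))))))))))) (.u (nat_lit 2) (.p (nat_lit 188) (nat_lit 1) (.n (nat_lit 197) (nat_lit 1) (.p (nat_lit 202) (nat_lit 1) (.p (nat_lit 203) (nat_lit 1) (.p (nat_lit 206) (nat_lit 1) (.p (nat_lit 210) (nat_lit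 1) (.n (nat_lit 211) (nat_lit 1) (.p (nat_lit 213) (nat_lit 1) (.n (nat_lit 214) (nat_lit 1) (.n (nat_lit 215) (nat_lit 1) (.n (nat_lit 216) (nat_lit 4) (.p (nat_lit 217) (nat_lit 4) (.p (nat_lit 218) (nat_lit 1) (.n (nat_lit 219) (nat_lit 3) (.p (nat_lit 221) (nat_lit 3) (.p (nat_lit 224) (nat_lit 1) (.n (nat_lit 225) (nat_lit 2) (.n (nat_lit 226) (nat_lit 3) (.p (nat_lit 227) (nat_lit 2) (.p (nat_lit 229) (nat_lit 3) (.p (nat_lit 230) (nat_lit 2) (.p (nat_lit 233) (nat_lit 1) (.p (nat_lit 234) (nat_lit 6) (.n (nat_lit 235) (nat_lit 2) (.n (nat_lit 240) (nat_lit 1) (.p (nat_lit 242) (nat_lit 1) (.n (nat_lit 244) (nat_lit 1) (.n (nat_lit 256) (nat_lit 1) (.p (nat_lit 259) (nat_lit 1) (.n (nat_lit 264) (nat_lit 1) (.p (nat_lit 272) (nat_lit 1) (.p (nat_lit 284) (nat_lit 1) (.p (nat_lit 293) (nat_lit 1) (.n (nat_lit 294) (nat_lit 1) (.p (nat_lit 296) (nat_lit 1) (.p (nat_lit 297) (nat_lit 1) (.p (nat_lit 299) (nat_lit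 1) (.p (nat_lit 303) (nat_lit 13) (.n (nat_lit 304) (nat_lit 14) (.n (nat_lit 305) (nat_lit 3) (.n (nat_lit 306) (nat_lit 11) (.p (nat_lit 307) (nat_lit 8) (.p (nat_lit 308) (nat_lit 9) (.n (nat_lit 309) (nat_lit 9) (.n (nat_lit 310) (nat_lit 4) (.p (nat_lit 312) (nat_lit 6) (.p (nat_lit 313) (nat_lit 14) (.p (nat_lit 314) (nat_lit 8) (.n (nat_lit 315) (nat_lit 4) (.p (nat_lit 316) (nat_lit 4) (.n (nat_lit 317) (nat_lit 5) (.p (nat_lit 318) (nat_lit 8) (.n (nat_lit 319) (nat_lit 3) (.p (nat_lit 320) (nat_lit 2) (.p (nat_lit 322) (nat_lit 6) (.p (nat_lit 323) (nat_lit 1) (.p (nat_lit 324) (nat_lit 15) (.p (nat_lit 325) (nat_lit 14) (.n (nat_lit 326) (nat_lit 7) (.n (nat_lit 327) (nat_lit 6) .z)))))))))))))))))))))))))))))))))))))))))))))))))))))))))))) (.u (nat_lit 2) (.p (nat_lit 328) (nat_lit 4) (.n (nat_lit 329) (nat_lit 1) (.n (nat_lit 330) (nat_lit 3) (.p (nat_lit 331) (nat_lit 2) (.n (nat_lit 332) (nat_lit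 1) (.p (nat_lit 336) (nat_lit 2) (.p (nat_lit 339) (nat_lit 5) (.p (nat_lit 340) (nat_lit 4) (.n (nat_lit 341) (nat_lit 5) (.n (nat_lit 342) (nat_lit 5) (.n (nat_lit 343) (nat_lit 11) (.n (nat_lit 344) (nat_lit 11) (.p (nat_lit 345) (nat_lit 5) (.n (nat_lit 346) (nat_lit 6) (.p (nat_lit 347) (nat_lit 4) (.p (nat_lit 348) (nat_lit 7) (.n (nat_lit 349) (nat_lit 3) (.n (nat_lit 350) (nat_lit 5) (.p (nat_lit 351) (nat_lit 15) (.n (nat_lit 352) (nat_lit 8) (.n (nat_lit 353) (nat_lit 4) (.p (nat_lit 354) (nat_lit 5) (.n (nat_lit 355) (nat_lit 4) (.n (nat_lit 356) (nat_lit 3) (.n (nat_lit 357) (nat_lit 2) (.p (nat_lit 358) (nat_lit 2) (.p (nat_lit 359) (nat_lit 1) (.p (nat_lit 360) (nat_lit 5) (.n (nat_lit 361) (nat_lit 5) (.p (nat_lit 362) (nat_lit 4) (.p (nat_lit 363) (nat_lit 6) (.n (nat_lit 364) (nat_lit 3) (.n (nat_lit 366) (nat_lit 3) (.n (nat_lit 368) (nat_lit 4) (.n (nat_lit 369) (nat_lit 3) (.n (nat_lit 370)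 (nat_lit 2) (.n (nat_lit 371) (nat_lit 12) (.n (nat_lit 372) (nat_lit 1) (.p (nat_lit 373) (nat_lit 5) (.p (nat_lit 374) (nat_lit 5) (.n (nat_lit 376) (nat_lit 5) (.p (nat_lit 377) (nat_lit 2) (.n (nat_lit 379) (nat_lit 2) (.p (nat_lit 380) (nat_lit 8) (.n (nat_lit 382) (nat_lit 7) (.n (nat_lit 383) (nat_lit 2) (.n (nat_lit 384) (nat_lit 1) (.p (nat_lit 385) (nat_lit 2) (.n (nat_lit 386) (nat_lit 3) (.p (nat_lit 387) (nat_lit 3) (.p (nat_lit 388) (nat_lit 1) (.n (nat_lit 389) (nat_lit 1) (.n (nat_lit 390) (nat_lit 1) (.n (nat_lit 391) (nat_lit 2) (.p (nat_lit 393) (nat_lit 2) (.p (nat_lit 394) (nat_lit 1) (.n (nat_lit 395) (nat_lit 1) (.p (nat_lit 396) (nat_lit 1) (.p (nat_lit 397) (nat_lit 1) (.n (nat_lit 398) (nat_lit 2) .z)))))))))))))))))))))))))))))))))))))))))))))))))))))))))))) (.u (nat_lit 2) (.n (nat_lit 400) (nat_lit 1) .z) .nil)))))))))))))))))))))))))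

noncomputable def dC2d_i232 : IL := (.e true (nat_lit 2) (nat_lit 230) (nat_lit 2) (nat_lit 16) (.e true (nat_lit 2) (nat_lit 246) (nat_lit 2) (nat_lit 16) (.e false (nat_lit 2) (nat_lit 249) (nat_lit 2) (nat_lit 16) (.e true (nat_lit 2) (nat_lit 226) (nat_lit 2) (nat_lit 16) (.e false (nat_lit 1) (nat_lit 285) (nat_lit 1) (nat_lit 17) (.e false (nat_lit 2) (nat_lit 253) (nat_lit 1) (nat_lit 17) (.e false (nat_lit 3) (nat_lit 254) (nat_lit 1) (nat_lit 17) (.e true (nat_lit 3) (nat_lit 258) (nat_lit 1) (nat_lit 17) (.e true (nat_lit 3) (nat_lit 265) (nat_lit 1) (nat_lit 17) (.e false (nat_lit 3) (nat_lit 267) (nat_lit 1) (nat_lit 17) (.e true (nat_lit 2) (nat_lit 269) (nat_lit 1) (nat_lit 17) (.e false (nat_lit 2) (nat_lit 270) (nat_lit 1) (nat_lit 17) (.e true (nat_lit 1) (nat_lit 271) (nat_lit 1) (nat_lit 17) (.e true (nat_lit 3) (nat_lit 272) (nat_lit 1) (nat_lit 17) (.e false (nat_lit 1) (nat_lit 273) (nat_lit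 1) (nat_lit 17) (.e false (nat_lit 1) (nat_lit 276) (nat_lit 1) (nat_lit 17) (.e true (nat_lit 3) (nat_lit 277) (nat_lit 1) (nat_lit 17) (.e true (nat_lit 3) (nat_lit 255) (nat_lit 1) (nat_lit 17) (.e false (nat_lit 3) (nat_lit 262) (nat_lit 1) (nat_lit 17) (.e false (nat_lit 1) (nat_lit 264) (nat_lit 1) (nat_lit 17) (.e true (nat_lit 2) (nat_lit 266) (nat_lit 1) (nat_lit 17) (.e false (nat_lit 3) (nat_lit 207) (nat_lit 2) (nat_lit 16) (.e false (nat_lit 3) (nat_lit 298) (nat_lit 0) (nat_lit 18) (.e true (nat_lit 3) (nat_lit 274) (nat_lit 1) (nat_lit 17) (.e true (nat_lit 2) (nat_lit 218) (nat_lit 2) (nat_lit 16) dC2d_i231)))))))))))))))))))))))))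

noncomputable def dC2d_i233 : IL := (.s true (nat_lit 1) (nat_lit 88) (nat_lit 1) (nat_lit 1) (nat_lit 2) true (nat_lit 12) true (nat_lit 16) false (nat_lit 7) true (nat_lit 17) true (nat_lit 17) (.s true (nat_lit 3) (nat_lit 80) (nat_lit 1) (nat_lit 2) (nat_lit 1) true (nat_lit 14) true (nat_lit 17) false (nat_lit 7) true (nat_lit 17) true (nat_lit 16) (.s false (nat_lit 2) (nat_lit 83) (nat_lit 2) (nat_lit 1) (nat_lit 1) true (nat_lit 12) true (nat_lit 17) false (nat_lit 7) true (nat_lit 16) true (nat_lit 17) (.s false (nat_lit 3) (nat_lit 93) (nat_lit 0) (nat_lit 1) (nat_lit 2) true (nat_lit 13) true (nat_lit 16) false (nat_lit 8) true (nat_lit 18) true (nat_lit 17) (.s false (nat_lit 3) (nat_lit 93) (nat_lit 1) (nat_lit 2) (nat_lit 0) true (nat_lit 15) true (nat_lit 18) false (nat_lit 8) true (nat_lit 17) true (nat_lit 16) (.s false (nat_lit 2) (nat_lit 92) (nat_lit 2) (nat_lit 1) (nat_lit 0) true (nat_lit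 13) true (nat_lit 18) false (nat_lit 8) true (nat_lit 16) true (nat_lit 17) (.s false (nat_lit 2) (nat_lit 93) (nat_lit 2) (nat_lit 1) (nat_lit 0) true (nat_lit 13) true (nat_lit 18) false (nat_lit 8) true (nat_lit 16) true (nat_lit 17) (.s false (nat_lit 1) (nat_lit 96) (nat_lit 2) (nat_lit 1) (nat_lit 0) true (nat_lit 13) true (nat_lit 18) false (nat_lit 8) true (nat_lit 16) true (nat_lit 17) (.s false (nat_lit 2) (nat_lit 102) (nat_lit 0) (nat_lit 1) (nat_lit 1) true (nat_lit 15) true (nat_lit 17) false (nat_lit 10) true (nat_lit 18) true (nat_lit 17) (.s false (nat_lit 2) (nat_lit 103) (nat_lit 0) (nat_lit 1) (nat_lit 1) true (nat_lit 15) true (nat_lit 17) false (nat_lit 10) true (nat_lit 18) true (nat_lit 17) (.s true (nat_lit 2) (nat_lit 102) (nat_lit 1) (nat_lit 1) (nat_lit 0) true (nat_lit 15) true (nat_lit 18) false (nat_lit 10) true (nat_lit 17) true (nat_lit 17) (.s false (nat_lit 2) (nat_lit 103) (nat_lit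 1) (nat_lit 1) (nat_lit 0) true (nat_lit 15) true (nat_lit 18) false (nat_lit 10) true (nat_lit 17) true (nat_lit 17) (.s true (nat_lit 2) (nat_lit 104) (nat_lit 1) (nat_lit 1) (nat_lit 0) true (nat_lit 15) true (nat_lit 18) false (nat_lit 10) true (nat_lit 17) true (nat_lit 17) (.e false (nat_lit 3) (nat_lit 129) (nat_lit 7) (nat_lit 11) (.e true (nat_lit 2) (nat_lit 227) (nat_lit 2) (nat_lit 16) (.e true (nat_lit 3) (nat_lit 208) (nat_lit 2) (nat_lit 16) (.e false (nat_lit 2) (nat_lit 216) (nat_lit 2) (nat_lit 16) (.e false (nat_lit 1) (nat_lit 144) (nat_lit 6) (nat_lit 12) (.e true (nat_lit 1) (nat_lit 134) (nat_lit 6) (nat_lit 12) (.e true (nat_lit 3) (nat_lit 138) (nat_lit 6) (nat_lit 12) (.e true (nat_lit 2) (nat_lit 205) (nat_lit 2) (nat_lit 16) (.e false (nat_lit 3) (nat_lit 206) (nat_lit 2) (nat_lit 16) (.e false (nat_lit 1) (nat_lit 211) (nat_lit 2) (nat_lit 16) (.e true (nat_lit 1) (nat_lit 213) (nat_lit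 2) (nat_lit 16) (.e true (nat_lit 1) (nat_lit 209) (nat_lit 2) (nat_lit 16) dC2d_i232)))))))))))))))))))))))))

noncomputable def dC2d_i234 : IL := (.s false (nat_lit 1) (nat_lit 57) (nat_lit 2) (nat_lit 2) (nat_lit 2) true (nat_lit 11) true (nat_lit 16) false (nat_lit 4) true (nat_lit 16) true (nat_lit 16) (.s false (nat_lit 2) (nat_lit 60) (nat_lit 1) (nat_lit 2) (nat_lit 2) true (nat_lit 12) true (nat_lit 16) false (nat_lit 5) true (nat_lit 17) true (nat_lit 16) (.s true (nat_lit 1) (nat_lit 61) (nat_lit 1) (nat_lit 2) (nat_lit 2) true (nat_lit 12) true (nat_lit 16) false (nat_lit 5) true (nat_lit 17) true (nat_lit 16) (.s true (nat_lit 2) (nat_lit 66) (nat_lit 1) (nat_lit 2) (nat_lit 2) true (nat_lit 12) true (nat_lit 16) false (nat_lit 5) true (nat_lit 17) true (nat_lit 16) (.s false (nat_lit 3) (nat_lit 67) (nat_lit 1) (nat_lit 2) (nat_lit 2) true (nat_lit 12) true (nat_lit 16) false (nat_lit 5) true (nat_lit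 17) true (nat_lit 16) (.s true (nat_lit 2) (nat_lit 68) (nat_lit 1) (nat_lit 2) (nat_lit 2) true (nat_lit 12) true (nat_lit 16) false (nat_lit 5) true (nat_lit 17) true (nat_lit 16) (.s true (nat_lit 2) (nat_lit 69) (nat_lit 1) (nat_lit 2) (nat_lit 2) true (nat_lit 12) true (nat_lit 16) false (nat_lit 5) true (nat_lit 17) true (nat_lit 16) (.s true (nat_lit 2) (nat_lit 72) (nat_lit 1) (nat_lit 2) (nat_lit 2) true (nat_lit 12) true (nat_lit 16) false (nat_lit 5) true (nat_lit 17) true (nat_lit 16) (.s false (nat_lit 3) (nat_lit 73) (nat_lit 1) (nat_lit 2) (nat_lit 2) true (nat_lit 12) true (nat_lit 16) false (nat_lit 5) true (nat_lit 17) true (nat_lit 16) (.s true (nat_lit 2) (nat_lit 62) (nat_lit 2) (nat_lit 1) (nat_lit 2) true (nat_lit 11) true (nat_lit 16) false (nat_lit 5) true (nat_lit 16) true (nat_lit 17) (.s false (nat_lit 2) (nat_lit 63) (nat_lit 2) (nat_lit 1) (nat_lit 2) true (nat_lit 11) true (nat_lit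 16) false (nat_lit 5) true (nat_lit 16) true (nat_lit 17) (.s true (nat_lit 2) (nat_lit 65) (nat_lit 2) (nat_lit 1) (nat_lit 2) true (nat_lit 11) true (nat_lit 16) false (nat_lit 5) true (nat_lit 16) true (nat_lit 17) (.s true (nat_lit 3) (nat_lit 66) (nat_lit 2) (nat_lit 1) (nat_lit 2) true (nat_lit 11) true (nat_lit 16) false (nat_lit 5) true (nat_lit 16) true (nat_lit 17) (.s false (nat_lit 2) (nat_lit 72) (nat_lit 2) (nat_lit 1) (nat_lit 2) true (nat_lit 11) true (nat_lit 16) false (nat_lit 5) true (nat_lit 16) true (nat_lit 17) (.s false (nat_lit 3) (nat_lit 60) (nat_lit 2) (nat_lit 2) (nat_lit 1) true (nat_lit 12) true (nat_lit 17) false (nat_lit 5) true (nat_lit 16) true (nat_lit 16) (.s false (nat_lit 3) (nat_lit 61) (nat_lit 2) (nat_lit 2) (nat_lit 1) true (nat_lit 12) true (nat_lit 17) false (nat_lit 5) true (nat_lit 16) true (nat_lit 16) (.s true (nat_lit 2) (nat_lit 62) (nat_lit 2) (nat_lit 2) (nat_lit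 1) true (nat_lit 12) true (nat_lit 17) false (nat_lit 5) true (nat_lit 16) true (nat_lit 16) (.s true (nat_lit 1) (nat_lit 63) (nat_lit 2) (nat_lit 2) (nat_lit 1) true (nat_lit 12) true (nat_lit 17) false (nat_lit 5) true (nat_lit 16) true (nat_lit 16) (.s false (nat_lit 1) (nat_lit 65) (nat_lit 2) (nat_lit 2) (nat_lit 1) true (nat_lit 12) true (nat_lit 17) false (nat_lit 5) true (nat_lit 16) true (nat_lit 16) (.s true (nat_lit 3) (nat_lit 67) (nat_lit 2) (nat_lit 2) (nat_lit 1) true (nat_lit 12) true (nat_lit 17) false (nat_lit 5) true (nat_lit 16) true (nat_lit 16) (.s false (nat_lit 2) (nat_lit 72) (nat_lit 2) (nat_lit 2) (nat_lit 1) true (nat_lit 12) true (nat_lit 17) false (nat_lit 5) true (nat_lit 16) true (nat_lit 16) (.s false (nat_lit 1) (nat_lit 73) (nat_lit 2) (nat_lit 2) (nat_lit 1) true (nat_lit 12) true (nat_lit 17) false (nat_lit 5) true (nat_lit 16) true (nat_lit 16) (.s true (nat_lit 1) (nat_lit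 74) (nat_lit 0) (nat_lit 2) (nat_lit 2) true (nat_lit 13) true (nat_lit 16) false (nat_lit 6) true (nat_lit 18) true (nat_lit 16) (.s false (nat_lit 1) (nat_lit 79) (nat_lit 0) (nat_lit 2) (nat_lit 2) true (nat_lit 13) true (nat_lit 16) false (nat_lit 6) true (nat_lit 18) true (nat_lit 16) (.s true (nat_lit 3) (nat_lit 81) (nat_lit 1) (nat_lit 1) (nat_lit 2) true (nat_lit 12) true (nat_lit 16) false (nat_lit 7) true (nat_lit 17) true (nat_lit 17) dC2d_i233)))))))))))))))))))))))))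

noncomputable def dC2d_i235 : IL := (.s false (nat_lit 2) (nat_lit 35) (nat_lit 1) (nat_lit 2) (nat_lit 6) true (nat_lit 7) true (nat_lit 12) true (nat_lit 0) true (nat_lit 17) true (nat_lit 16) (.s false (nat_lit 2) (nat_lit 38) (nat_lit 1) (nat_lit 2) (nat_lit 6) true (nat_lit 7) true (nat_lit 12) true (nat_lit 0) true (nat_lit 17) true (nat_lit 16) (.s false (nat_lit 1) (nat_lit 33) (nat_lit 1) (nat_lit 6) (nat_lit 2) true (nat_lit 12) true (nat_lit 16) true (nat_lit 0) true (nat_lit 17) true (nat_lit 12) (.s false (nat_lit 3) (nat_lit 34) (nat_lit 1) (nat_lit 6) (nat_lit 2) true (nat_lit 12) true (nat_lit 16) true (nat_lit 0) true (nat_lit 17) true (nat_lit 12) (.s true (nat_lit 1) (nat_lit 33) (nat_lit 1) (nat_lit 7) (nat_lit 1) true (nat_lit 14) true (nat_lit 17) true (nat_lit 0) true (nat_lit 17) true (nat_lit 11) (.s true (nat_lit 3) (nat_lit 34) (nat_lit 1) (nat_lit 7) (nat_lit 1) true (nat_lit 14) true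 (nat_lit 17) true (nat_lit 0) true (nat_lit 17) true (nat_lit 11) (.s true (nat_lit 2) (nat_lit 36) (nat_lit 2) (nat_lit 1) (nat_lit 6) true (nat_lit 5) true (nat_lit 12) true (nat_lit 0) true (nat_lit 16) true (nat_lit 17) (.s false (nat_lit 3) (nat_lit 33) (nat_lit 2) (nat_lit 4) (nat_lit 2) true (nat_lit 11) true (nat_lit 16) true (nat_lit 0) true (nat_lit 16) true (nat_lit 14) (.s false (nat_lit 2) (nat_lit 33) (nat_lit 2) (nat_lit 6) (nat_lit 1) true (nat_lit 12) true (nat_lit 17) true (nat_lit 0) true (nat_lit 16) true (nat_lit 12) (.s false (nat_lit 3) (nat_lit 34) (nat_lit 4) (nat_lit 2) (nat_lit 2) true (nat_lit 7) true (nat_lit 16) true (nat_lit 0) true (nat_lit 14) true (nat_lit 16) (.s true (nat_lit 1) (nat_lit 34) (nat_lit 6) (nat_lit 1) (nat_lit 2) true (nat_lit 5) true (nat_lit 16) true (nat_lit 0) true (nat_lit 12) true (nat_lit 17) (.s true (nat_lit 2) (nat_lit 34) (nat_lit 6) (nat_lit 2) (nat_lit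 1) true (nat_lit 7) true (nat_lit 17) true (nat_lit 0) true (nat_lit 12) true (nat_lit 16) (.s false (nat_lit 3) (nat_lit 33) (nat_lit 7) (nat_lit 1) (nat_lit 1) true (nat_lit 5) true (nat_lit 17) true (nat_lit 0) true (nat_lit 11) true (nat_lit 17) (.s false (nat_lit 2) (nat_lit 41) (nat_lit 3) (nat_lit 2) (nat_lit 2) true (nat_lit 8) true (nat_lit 16) false (nat_lit 0) true (nat_lit 15) true (nat_lit 16) (.s false (nat_lit 3) (nat_lit 45) (nat_lit 1) (nat_lit 3) (nat_lit 2) true (nat_lit 12) true (nat_lit 16) false (nat_lit 2) true (nat_lit 17) true (nat_lit 15) (.s true (nat_lit 1) (nat_lit 46) (nat_lit 1) (nat_lit 3) (nat_lit 2) true (nat_lit 12) true (nat_lit 16) false (nat_lit 2) true (nat_lit 17) true (nat_lit 15) (.s false (nat_lit 1) (nat_lit 47) (nat_lit 1) (nat_lit 3) (nat_lit 2) true (nat_lit 12) true (nat_lit 16) false (nat_lit 2) true (nat_lit 17) true (nat_lit 15) (.s true (nat_lit 1) (nat_lit 46)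 (nat_lit 2) (nat_lit 3) (nat_lit 1) true (nat_lit 12) true (nat_lit 17) false (nat_lit 2) true (nat_lit 16) true (nat_lit 15) (.s true (nat_lit 2) (nat_lit 47) (nat_lit 2) (nat_lit 3) (nat_lit 1) true (nat_lit 12) true (nat_lit 17) false (nat_lit 2) true (nat_lit 16) true (nat_lit 15) (.s true (nat_lit 1) (nat_lit 47) (nat_lit 5) (nat_lit 1) (nat_lit 1) true (nat_lit 8) true (nat_lit 17) false (nat_lit 2) true (nat_lit 13) true (nat_lit 17) (.s true (nat_lit 1) (nat_lit 47) (nat_lit 6) (nat_lit 0) (nat_lit 1) true (nat_lit 7) true (nat_lit 17) false (nat_lit 2) true (nat_lit 12) true (nat_lit 18) (.s true (nat_lit 1) (nat_lit 52) (nat_lit 2) (nat_lit 2) (nat_lit 2) true (nat_lit 11) true (nat_lit 16) false (nat_lit 4) true (nat_lit 16) true (nat_lit 16) (.s false (nat_lit 2) (nat_lit 53) (nat_lit 2) (nat_lit 2) (nat_lit 2) true (nat_lit 11) true (nat_lit 16) false (nat_lit 4) true (nat_lit 16) true (nat_lit 16)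 (.s false (nat_lit 1) (nat_lit 54) (nat_lit 2) (nat_lit 2) (nat_lit 2) true (nat_lit 11) true (nat_lit 16) false (nat_lit 4) true (nat_lit 16) true (nat_lit 16) (.s true (nat_lit 1) (nat_lit 55) (nat_lit 2) (nat_lit 2) (nat_lit 2) true (nat_lit 11) true (nat_lit 16) false (nat_lit 4) true (nat_lit 16) true (nat_lit 16) dC2d_i234)))))))))))))))))))))))))

noncomputable def dC2d_i236 : IL := (.s false (nat_lit 1) (nat_lit 23) (nat_lit 7) (nat_lit 2) (nat_lit 2) true (nat_lit 4) true (nat_lit 16) true (nat_lit 3) true (nat_lit 11) true (nat_lit 16) (.s true (nat_lit 3) (nat_lit 24) (nat_lit 1) (nat_lit 2) (nat_lit 7) true (nat_lit 5) true (nat_lit 11) true (nat_lit 2) true (nat_lit 17) true (nat_lit 16) (.s false (nat_lit 2) (nat_lit 25) (nat_lit 1) (nat_lit 2) (nat_lit 7) true (nat_lit 5) true (nat_lit 11) true (nat_lit 2) true (nat_lit 17) true (nat_lit 16) (.s false (nat_lit 2) (nat_lit 27) (nat_lit 1) (nat_lit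 2) (nat_lit 7) true (nat_lit 5) true (nat_lit 11) true (nat_lit 2) true (nat_lit 17) true (nat_lit 16) (.s true (nat_lit 2) (nat_lit 29) (nat_lit 1) (nat_lit 2) (nat_lit 7) true (nat_lit 5) true (nat_lit 11) true (nat_lit 2) true (nat_lit 17) true (nat_lit 16) (.s false (nat_lit 1) (nat_lit 25) (nat_lit 1) (nat_lit 7) (nat_lit 2) true (nat_lit 12) true (nat_lit 16) true (nat_lit 2) true (nat_lit 17) true (nat_lit 11) (.s false (nat_lit 3) (nat_lit 26) (nat_lit 1) (nat_lit 7) (nat_lit 2) true (nat_lit 12) true (nat_lit 16) true (nat_lit 2) true (nat_lit 17) true (nat_lit 11) (.s false (nat_lit 2) (nat_lit 24) (nat_lit 2) (nat_lit 1) (nat_lit 7) true (nat_lit 4) true (nat_lit 11) true (nat_lit 2) true (nat_lit 16) true (nat_lit 17) (.s true (nat_lit 2) (nat_lit 25) (nat_lit 2) (nat_lit 1) (nat_lit 7) true (nat_lit 4) true (nat_lit 11) true (nat_lit 2) true (nat_lit 16) true (nat_lit 17) (.s true (nat_lit 2) (nat_lit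 24) (nat_lit 2) (nat_lit 2) (nat_lit 6) true (nat_lit 5) true (nat_lit 12) true (nat_lit 2) true (nat_lit 16) true (nat_lit 16) (.s true (nat_lit 1) (nat_lit 25) (nat_lit 2) (nat_lit 2) (nat_lit 6) true (nat_lit 5) true (nat_lit 12) true (nat_lit 2) true (nat_lit 16) true (nat_lit 16) (.s true (nat_lit 3) (nat_lit 26) (nat_lit 2) (nat_lit 2) (nat_lit 6) true (nat_lit 5) true (nat_lit 12) true (nat_lit 2) true (nat_lit 16) true (nat_lit 16) (.s false (nat_lit 2) (nat_lit 27) (nat_lit 2) (nat_lit 2) (nat_lit 6) true (nat_lit 5) true (nat_lit 12) true (nat_lit 2) true (nat_lit 16) true (nat_lit 16) (.s true (nat_lit 2) (nat_lit 29) (nat_lit 2) (nat_lit 2) (nat_lit 6) true (nat_lit 5) true (nat_lit 12) true (nat_lit 2) true (nat_lit 16) true (nat_lit 16) (.s true (nat_lit 2) (nat_lit 25) (nat_lit 2) (nat_lit 6) (nat_lit 2) true (nat_lit 11) true (nat_lit 16) true (nat_lit 2) true (nat_lit 16) true (nat_lit 12) (.s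 true (nat_lit 1) (nat_lit 24) (nat_lit 6) (nat_lit 2) (nat_lit 2) true (nat_lit 5) true (nat_lit 16) true (nat_lit 2) true (nat_lit 12) true (nat_lit 16) (.s true (nat_lit 1) (nat_lit 25) (nat_lit 7) (nat_lit 2) (nat_lit 1) true (nat_lit 5) true (nat_lit 17) true (nat_lit 2) true (nat_lit 11) true (nat_lit 16) (.s true (nat_lit 2) (nat_lit 30) (nat_lit 0) (nat_lit 7) (nat_lit 2) true (nat_lit 13) true (nat_lit 16) true (nat_lit 1) true (nat_lit 18) true (nat_lit 11) (.s true (nat_lit 1) (nat_lit 30) (nat_lit 2) (nat_lit 2) (nat_lit 5) true (nat_lit 6) true (nat_lit 13) true (nat_lit 1) true (nat_lit 16) true (nat_lit 16) (.s true (nat_lit 2) (nat_lit 30) (nat_lit 2) (nat_lit 5) (nat_lit 2) true (nat_lit 11) true (nat_lit 16) true (nat_lit 1) true (nat_lit 16) true (nat_lit 13) (.s true (nat_lit 2) (nat_lit 30) (nat_lit 2) (nat_lit 7) (nat_lit 0) true (nat_lit 13) true (nat_lit 18) true (nat_lit 1) true (nat_lit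 16) true (nat_lit 11) (.s false (nat_lit 1) (nat_lit 30) (nat_lit 5) (nat_lit 2) (nat_lit 2) true (nat_lit 6) true (nat_lit 16) true (nat_lit 1) true (nat_lit 13) true (nat_lit 16) (.s true (nat_lit 2) (nat_lit 33) (nat_lit 1) (nat_lit 1) (nat_lit 7) true (nat_lit 5) true (nat_lit 11) true (nat_lit 0) true (nat_lit 17) true (nat_lit 17) (.s false (nat_lit 3) (nat_lit 34) (nat_lit 1) (nat_lit 1) (nat_lit 7) true (nat_lit 5) true (nat_lit 11) true (nat_lit 0) true (nat_lit 17) true (nat_lit 17) (.s false (nat_lit 3) (nat_lit 33) (nat_lit 1) (nat_lit 2) (nat_lit 6) true (nat_lit 7) true (nat_lit 12) true (nat_lit 0) true (nat_lit 17) true (nat_lit 16) dC2d_i235)))))))))))))))))))))))))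

noncomputable def dC2d_i237 : IL := (.s false (nat_lit 2) (nat_lit 15) (nat_lit 2) (nat_lit 7) (nat_lit 3) true (nat_lit 8) true (nat_lit 15) true (nat_lit 7) true (nat_lit 16) true (nat_lit 11) (.s true (nat_lit 2) (nat_lit 16) (nat_lit 2) (nat_lit 2) (nat_lit 10) true (nat_lit 1) true (nat_lit 9) true (nat_lit 6) true (nat_lit 16) true (nat_lit 16) (.s true (nat_lit 2) (nat_lit 16) (nat_lit 2) (nat_lit 10) (nat_lit 2) true (nat_lit 11) true (nat_lit 16) true (nat_lit 6) true (nat_lit 16) true (nat_lit 9) (.s false (nat_lit 3) (nat_lit 16) (nat_lit 10) (nat_lit 2) (nat_lit 2) true (nat_lit 1) true (nat_lit 16) true (nat_lit 6) true (nat_lit 9) true (nat_lit 16) (.s true (nat_lit 1) (nat_lit 18) (nat_lit 2) (nat_lit 1) (nat_lit 11) true (nat_lit 0) true (nat_lit 8) true (nat_lit 5) true (nat_lit 16) true (nat_lit 17) (.s false (nat_lit 1) (nat_lit 18) (nat_lit 2) (nat_lit 2) (nat_lit 8) true (nat_lit 2) true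 (nat_lit 10) true (nat_lit 5) true (nat_lit 16) true (nat_lit 16) (.s true (nat_lit 1) (nat_lit 18) (nat_lit 2) (nat_lit 8) (nat_lit 2) true (nat_lit 11) true (nat_lit 16) true (nat_lit 5) true (nat_lit 16) true (nat_lit 10) (.s false (nat_lit 3) (nat_lit 18) (nat_lit 2) (nat_lit 11) (nat_lit 1) true (nat_lit 12) true (nat_lit 17) true (nat_lit 5) true (nat_lit 16) true (nat_lit 8) (.s true (nat_lit 3) (nat_lit 18) (nat_lit 6) (nat_lit 3) (nat_lit 2) true (nat_lit 5) true (nat_lit 16) true (nat_lit 5) true (nat_lit 12) true (nat_lit 15) (.s false (nat_lit 1) (nat_lit 19) (nat_lit 6) (nat_lit 3) (nat_lit 2) true (nat_lit 5) true (nat_lit 16) true (nat_lit 5) true (nat_lit 12) true (nat_lit 15) (.s false (nat_lit 3) (nat_lit 19) (nat_lit 7) (nat_lit 3) (nat_lit 1) true (nat_lit 5) true (nat_lit 17) true (nat_lit 5) true (nat_lit 11) true (nat_lit 15) (.s false (nat_lit 2) (nat_lit 18) (nat_lit 8) (nat_lit 2) (nat_lit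 2) true (nat_lit 2) true (nat_lit 16) true (nat_lit 5) true (nat_lit 10) true (nat_lit 16) (.s false (nat_lit 2) (nat_lit 18) (nat_lit 9) (nat_lit 2) (nat_lit 2) true (nat_lit 2) true (nat_lit 16) true (nat_lit 5) true (nat_lit 10) true (nat_lit 16) (.s true (nat_lit 2) (nat_lit 19) (nat_lit 9) (nat_lit 2) (nat_lit 2) true (nat_lit 2) true (nat_lit 16) true (nat_lit 5) true (nat_lit 10) true (nat_lit 16) (.s true (nat_lit 3) (nat_lit 18) (nat_lit 11) (nat_lit 1) (nat_lit 2) true (nat_lit 0) true (nat_lit 16) true (nat_lit 5) true (nat_lit 8) true (nat_lit 17) (.s true (nat_lit 1) (nat_lit 20) (nat_lit 0) (nat_lit 15) (nat_lit 1) true (nat_lit 15) true (nat_lit 17) true (nat_lit 4) true (nat_lit 18) true (nat_lit 7) (.s false (nat_lit 1) (nat_lit 20) (nat_lit 1) (nat_lit 1) (nat_lit 12) true (nat_lit 2) true (nat_lit 8) true (nat_lit 4) true (nat_lit 17) true (nat_lit 17) (.s false (nat_lit 3) (nat_lit 20) (nat_lit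 1) (nat_lit 8) (nat_lit 2) true (nat_lit 12) true (nat_lit 16) true (nat_lit 4) true (nat_lit 17) true (nat_lit 10) (.s false (nat_lit 1) (nat_lit 20) (nat_lit 13) (nat_lit 1) (nat_lit 1) true (nat_lit 2) true (nat_lit 17) true (nat_lit 4) true (nat_lit 8) true (nat_lit 17) (.s false (nat_lit 1) (nat_lit 21) (nat_lit 2) (nat_lit 2) (nat_lit 7) true (nat_lit 4) true (nat_lit 11) true (nat_lit 3) true (nat_lit 16) true (nat_lit 16) (.s false (nat_lit 1) (nat_lit 22) (nat_lit 2) (nat_lit 2) (nat_lit 7) true (nat_lit 4) true (nat_lit 11) true (nat_lit 3) true (nat_lit 16) true (nat_lit 16) (.s true (nat_lit 1) (nat_lit 23) (nat_lit 2) (nat_lit 2) (nat_lit 7) true (nat_lit 4) true (nat_lit 11) true (nat_lit 3) true (nat_lit 16) true (nat_lit 16) (.s false (nat_lit 2) (nat_lit 21) (nat_lit 2) (nat_lit 7) (nat_lit 2) true (nat_lit 11) true (nat_lit 16) true (nat_lit 3) true (nat_lit 16) true (nat_lit 11) (.s false (nat_lit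 1) (nat_lit 23) (nat_lit 2) (nat_lit 7) (nat_lit 2) true (nat_lit 11) true (nat_lit 16) true (nat_lit 3) true (nat_lit 16) true (nat_lit 11) (.s false (nat_lit 2) (nat_lit 21) (nat_lit 7) (nat_lit 2) (nat_lit 2) true (nat_lit 4) true (nat_lit 16) true (nat_lit 3) true (nat_lit 11) true (nat_lit 16) dC2d_i236)))))))))))))))))))))))))

noncomputable def dC2d_i238 : IL := (.e false (nat_lit 2) (nat_lit 257) (nat_lit 1) (nat_lit 17) (.e false (nat_lit 3) (nat_lit 261) (nat_lit 1) (nat_lit 17) (.e false (nat_lit 2) (nat_lit 233) (nat_lit 2) (nat_lit 16) (.e false (nat_lit 2) (nat_lit 231) (nat_lit 2) (nat_lit 16) (.e true (nat_lit 2) (nat_lit 62) (nat_lit 18) (nat_lit 5) (.e true (nat_lit 3) (nat_lit 144) (nat_lit 6) (nat_lit 12) (.e true (nat_lit 3) (nat_lit 249) (nat_lit 2) (nat_lit 16) (.e false (nat_lit 3) (nat_lit 235) (nat_lit 2) (nat_lit 16) (.e false (nat_lit 2) (nat_lit 280) (nat_lit 1) (nat_lit 17) (.e false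 (nat_lit 1) (nat_lit 289) (nat_lit 0) (nat_lit 18) (.e false (nat_lit 3) (nat_lit 290) (nat_lit 0) (nat_lit 18) (.e false (nat_lit 2) (nat_lit 291) (nat_lit 0) (nat_lit 18) (.e false (nat_lit 3) (nat_lit 292) (nat_lit 0) (nat_lit 18) (.e true (nat_lit 3) (nat_lit 293) (nat_lit 0) (nat_lit 18) (.e false (nat_lit 3) (nat_lit 294) (nat_lit 0) (nat_lit 18) (.e true (nat_lit 2) (nat_lit 295) (nat_lit 0) (nat_lit 18) (.e false (nat_lit 3) (nat_lit 296) (nat_lit 0) (nat_lit 18) (.e true (nat_lit 3) (nat_lit 297) (nat_lit 0) (nat_lit 18) (.e true (nat_lit 2) (nat_lit 298) (nat_lit 0) (nat_lit 18) (.e false (nat_lit 1) (nat_lit 303) (nat_lit 0) (nat_lit 18) (.e true (nat_lit 1) (nat_lit 304) (nat_lit 0) (nat_lit 18) (.e true (nat_lit 2) (nat_lit 282) (nat_lit 1) (nat_lit 17) (.u (nat_lit 2) (.p (nat_lit 0) (nat_lit 4) (.p (nat_lit 1) (nat_lit 2) (.n (nat_lit 2) (nat_lit 5) (.p (nat_lit 3) (nat_lit 6) (.n (nat_lit 4) (nat_lit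 5) (.n (nat_lit 5) (nat_lit 4) (.p (nat_lit 6) (nat_lit 1) (.n (nat_lit 7) (nat_lit 4) (.n (nat_lit 8) (nat_lit 1) (.p (nat_lit 9) (nat_lit 2) (.p (nat_lit 10) (nat_lit 3) (.n (nat_lit 11) (nat_lit 1) (.p (nat_lit 12) (nat_lit 6) (.n (nat_lit 15) (nat_lit 3) (.p (nat_lit 16) (nat_lit 6) (.n (nat_lit 17) (nat_lit 5) (.n (nat_lit 19) (nat_lit 2) (.n (nat_lit 20) (nat_lit 2) (.n (nat_lit 21) (nat_lit 7) (.p (nat_lit 22) (nat_lit 7) (.p (nat_lit 23) (nat_lit 3) (.p (nat_lit 25) (nat_lit 5) (.p (nat_lit 26) (nat_lit 3) (.p (nat_lit 27) (nat_lit 1) (.n (nat_lit 28) (nat_lit 3) (.p (nat_lit 29) (nat_lit 1) (.p (nat_lit 31) (nat_lit 1) (.n (nat_lit 33) (nat_lit 1) (.n (nat_lit 34) (nat_lit 5) (.p (nat_lit 35) (nat_lit 4) (.p (nat_lit 36) (nat_lit 1) (.n (nat_lit 37) (nat_lit 2) (.p (nat_lit 38) (nat_lit 1) (.n (nat_lit 40) (nat_lit 1) (.n (nat_lit 42) (nat_lit 1) (.n (nat_lit 44) (nat_lit 3) (.n (nat_lit 45) (nat_lit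 1) (.p (nat_lit 48) (nat_lit 1) (.n (nat_lit 51) (nat_lit 1) (.n (nat_lit 55) (nat_lit 1) (.p (nat_lit 62) (nat_lit 1) (.n (nat_lit 64) (nat_lit 1) (.n (nat_lit 90) (nat_lit 1) (.p (nat_lit 91) (nat_lit 1) (.n (nat_lit 96) (nat_lit 1) (.p (nat_lit 97) (nat_lit 1) (.p (nat_lit 99) (nat_lit 1) (.n (nat_lit 100) (nat_lit 1) (.n (nat_lit 105) (nat_lit 1) (.p (nat_lit 106) (nat_lit 1) (.n (nat_lit 113) (nat_lit 1) (.p (nat_lit 120) (nat_lit 1) (.p (nat_lit 141) (nat_lit 1) (.n (nat_lit 183) (nat_lit 2) (.p (nat_lit 184) (nat_lit 1) (.p (nat_lit 185) (nat_lit 3) (.n (nat_lit 186) (nat_lit 1) (.n (nat_lit 187) (nat_lit 2) (.p (nat_lit 188) (nat_lit 1) (.p (nat_lit 206) (nat_lit 1) .z)))))))))))))))))))))))))))))))))))))))))))))))))))))))))))) (.u (nat_lit 2) (.p (nat_lit 208) (nat_lit 1) (.p (nat_lit 210) (nat_lit 1) (.n (nat_lit 211) (nat_lit 1) (.n (nat_lit 216) (nat_lit 3) (.p (nat_lit 217) (nat_lit 4) (.n (nat_lit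 219) (nat_lit 4) (.p (nat_lit 221) (nat_lit 4) (.n (nat_lit 223) (nat_lit 3) (.n (nat_lit 224) (nat_lit 1) (.n (nat_lit 225) (nat_lit 2) (.n (nat_lit 226) (nat_lit 4) (.p (nat_lit 229) (nat_lit 7) (.p (nat_lit 230) (nat_lit 4) (.n (nat_lit 233) (nat_lit 2) (.p (nat_lit 234) (nat_lit 7) (.p (nat_lit 238) (nat_lit 1) (.p (nat_lit 241) (nat_lit 1) (.n (nat_lit 245) (nat_lit 1) (.p (nat_lit 252) (nat_lit 1) (.p (nat_lit 253) (nat_lit 1) (.n (nat_lit 256) (nat_lit 1) (.p (nat_lit 259) (nat_lit 1) (.n (nat_lit 261) (nat_lit 1) (.n (nat_lit 277) (nat_lit 1) (.p (nat_lit 278) (nat_lit 1) (.p (nat_lit 279) (nat_lit 1) (.p (nat_lit 281) (nat_lit 1) (.p (nat_lit 284) (nat_lit 1) (.n (nat_lit 288) (nat_lit 1) (.n (nat_lit 292) (nat_lit 1) (.p (nat_lit 293) (nat_lit 1) (.p (nat_lit 294) (nat_lit 3) (.n (nat_lit 295) (nat_lit 2) (.n (nat_lit 296) (nat_lit 1) (.p (nat_lit 297) (nat_lit 1) (.p (nat_lit 300) (nat_lit 1) (.p (nat_lit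 302) (nat_lit 1) (.p (nat_lit 303) (nat_lit 2) (.n (nat_lit 304) (nat_lit 1) (.n (nat_lit 305) (nat_lit 5) (.n (nat_lit 306) (nat_lit 2) (.p (nat_lit 307) (nat_lit 2) (.p (nat_lit 308) (nat_lit 9) (.p (nat_lit 309) (nat_lit 2) (.n (nat_lit 310) (nat_lit 4) (.p (nat_lit 311) (nat_lit 2) (.n (nat_lit 312) (nat_lit 5) (.p (nat_lit 313) (nat_lit 10) (.p (nat_lit 314) (nat_lit 2) (.p (nat_lit 315) (nat_lit 6) (.p (nat_lit 316) (nat_lit 5) (.p (nat_lit 318) (nat_lit 12) (.p (nat_lit 319) (nat_lit 4) (.p (nat_lit 322) (nat_lit 5) (.n (nat_lit 323) (nat_lit 5) (.p (nat_lit 324) (nat_lit 9) (.p (nat_lit 325) (nat_lit 7) (.n (nat_lit 326) (nat_lit 9) (.n (nat_lit 327) (nat_lit 5) (.n (nat_lit 328) (nat_lit 1) .z)))))))))))))))))))))))))))))))))))))))))))))))))))))))))))) (.u (nat_lit 2) (.p (nat_lit 330) (nat_lit 1) (.p (nat_lit 336) (nat_lit 3) (.n (nat_lit 339) (nat_lit 1) (.p (nat_lit 340) (nat_lit 2) (.n (nat_lit 342)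 (nat_lit 8) (.n (nat_lit 343) (nat_lit 6) (.n (nat_lit 344) (nat_lit 3) (.n (nat_lit 345) (nat_lit 2) (.p (nat_lit 348) (nat_lit 12) (.p (nat_lit 349) (nat_lit 2) (.p (nat_lit 350) (nat_lit 1) (.p (nat_lit 351) (nat_lit 14) (.p (nat_lit 352) (nat_lit 11) (.p (nat_lit 353) (nat_lit 3) (.n (nat_lit 354) (nat_lit 9) (.n (nat_lit 355) (nat_lit 3) (.p (nat_lit 356) (nat_lit 3) (.n (nat_lit 357) (nat_lit 3) (.n (nat_lit 358) (nat_lit 4) (.n (nat_lit 359) (nat_lit 4) (.p (nat_lit 360) (nat_lit 1) (.n (nat_lit 361) (nat_lit 6) (.n (nat_lit 362) (nat_lit 8) (.p (nat_lit 363) (nat_lit 11) (.n (nat_lit 364) (nat_lit 1) (.n (nat_lit 366) (nat_lit 5) (.p (nat_lit 367) (nat_lit 11) (.n (nat_lit 368) (nat_lit 11) (.p (nat_lit 369) (nat_lit 6) (.n (nat_lit 370) (nat_lit 10) (.n (nat_lit 371) (nat_lit 4) (.p (nat_lit 372) (nat_lit 2) (.p (nat_lit 373) (nat_lit 10) (.p (nat_lit 374) (nat_lit 12) (.p (nat_lit 375) (nat_lit 3) (.p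 (nat_lit 376) (nat_lit 1) (.n (nat_lit 377) (nat_lit 5) (.p (nat_lit 379) (nat_lit 2) (.n (nat_lit 382) (nat_lit 2) (.p (nat_lit 383) (nat_lit 4) (.n (nat_lit 385) (nat_lit 1) (.p (nat_lit 386) (nat_lit 3) (.n (nat_lit 388) (nat_lit 1) (.n (nat_lit 389) (nat_lit 1) (.n (nat_lit 390) (nat_lit 1) (.n (nat_lit 391) (nat_lit 1) (.n (nat_lit 392) (nat_lit 1) (.p (nat_lit 395) (nat_lit 1) (.n (nat_lit 397) (nat_lit 1) (.p (nat_lit 398) (nat_lit 1) .z)))))))))))))))))))))))))))))))))))))))))))))))))) .nil)))))))))))))))))))))))))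

noncomputable def dC2d_i239 : IL := (.e true (nat_lit 1) (nat_lit 255) (nat_lit 1) (nat_lit 17) (.e true (nat_lit 1) (nat_lit 262) (nat_lit 1) (nat_lit 17) (.e false (nat_lit 2) (nat_lit 266) (nat_lit 1) (nat_lit 17) (.e false (nat_lit 1) (nat_lit 274) (nat_lit 1) (nat_lit 17) (.e true (nat_lit 2) (nat_lit 134) (nat_lit 6) (nat_lit 12) (.e true (nat_lit 3) (nat_lit 138) (nat_lit 6) (nat_lit 12) (.e true (nat_lit 3) (nat_lit 205) (nat_lit 2) (nat_lit 16) (.e false (nat_lit 2) (nat_lit 206) (nat_lit 2) (nat_lit 16) (.e true (nat_lit 2) (nat_lit 207) (nat_lit 2) (nat_lit 16) (.e true (nat_lit 3) (nat_lit 209) (nat_lit 2) (nat_lit 16) (.e false (nat_lit 2) (nat_lit 211) (nat_lit 2) (nat_lit 16) (.e true (nat_lit 2) (nat_lit 213) (nat_lit 2) (nat_lit 16) (.e true (nat_lit 3) (nat_lit 215) (nat_lit 2) (nat_lit 16) (.e true (nat_lit 3) (nat_lit 218) (nat_lit 2) (nat_lit 16) (.e true (nat_lit 3) (nat_lit 219) (nat_lit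 2) (nat_lit 16) (.e false (nat_lit 3) (nat_lit 221) (nat_lit 2) (nat_lit 16) (.e true (nat_lit 2) (nat_lit 226) (nat_lit 2) (nat_lit 16) (.e true (nat_lit 3) (nat_lit 229) (nat_lit 2) (nat_lit 16) (.e true (nat_lit 2) (nat_lit 230) (nat_lit 2) (nat_lit 16) (.e false (nat_lit 3) (nat_lit 246) (nat_lit 2) (nat_lit 16) (.e true (nat_lit 1) (nat_lit 247) (nat_lit 2) (nat_lit 16) (.e false (nat_lit 2) (nat_lit 259) (nat_lit 1) (nat_lit 17) (.e true (nat_lit 2) (nat_lit 260) (nat_lit 1) (nat_lit 17) (.e false (nat_lit 1) (nat_lit 275) (nat_lit 1) (nat_lit 17) (.e true (nat_lit 3) (nat_lit 256) (nat_lit 1) (nat_lit 17) dC2d_i238)))))))))))))))))))))))))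

noncomputable def dC2d_i240 : IL := (.s true (nat_lit 1) (nat_lit 88) (nat_lit 2) (nat_lit 1) (nat_lit 1) true (nat_lit 12) true (nat_lit 17) false (nat_lit 7) true (nat_lit 16) true (nat_lit 17) (.s true (nat_lit 1) (nat_lit 96) (nat_lit 0) (nat_lit 1) (nat_lit 2) true (nat_lit 13) true (nat_lit 16) false (nat_lit 8) true (nat_lit 18) true (nat_lit 17) (.s true (nat_lit 1) (nat_lit 96) (nat_lit 1) (nat_lit 2) (nat_lit 0) true (nat_lit 15) true (nat_lit 18) false (nat_lit 8) true (nat_lit 17) true (nat_lit 16) (.s false (nat_lit 1) (nat_lit 96) (nat_lit 2) (nat_lit 1) (nat_lit 0) true (nat_lit 13) true (nat_lit 18) false (nat_lit 8) true (nat_lit 16) true (nat_lit 17) (.s false (nat_lit 3) (nat_lit 102) (nat_lit 1) (nat_lit 1) (nat_lit 0) true (nat_lit 15) true (nat_lit 18) false (nat_lit 10) true (nat_lit 17) true (nat_lit 17) (.s true (nat_lit 3) (nat_lit 103) (nat_lit 1) (nat_lit 1) (nat_lit 0) true (nat_lit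 15) true (nat_lit 18) false (nat_lit 10) true (nat_lit 17) true (nat_lit 17) (.e false (nat_lit 2) (nat_lit 130) (nat_lit 7) (nat_lit 11) (.e false (nat_lit 3) (nat_lit 227) (nat_lit 2) (nat_lit 16) (.e true (nat_lit 3) (nat_lit 242) (nat_lit 2) (nat_lit 16) (.e false (nat_lit 2) (nat_lit 208) (nat_lit 2) (nat_lit 16) (.e true (nat_lit 2) (nat_lit 216) (nat_lit 2) (nat_lit 16) (.e false (nat_lit 3) (nat_lit 285) (nat_lit 1) (nat_lit 17) (.e true (nat_lit 3) (nat_lit 252) (nat_lit 1) (nat_lit 17) (.e false (nat_lit 3) (nat_lit 253) (nat_lit 1) (nat_lit 17) (.e false (nat_lit 3) (nat_lit 258) (nat_lit 1) (nat_lit 17) (.e false (nat_lit 2) (nat_lit 263) (nat_lit 1) (nat_lit 17) (.e true (nat_lit 3) (nat_lit 265) (nat_lit 1) (nat_lit 17) (.e true (nat_lit 3) (nat_lit 267) (nat_lit 1) (nat_lit 17) (.e true (nat_lit 2) (nat_lit 269) (nat_lit 1) (nat_lit 17) (.e true (nat_lit 2) (nat_lit 270) (nat_lit 1) (nat_lit 17)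 (.e false (nat_lit 1) (nat_lit 271) (nat_lit 1) (nat_lit 17) (.e true (nat_lit 2) (nat_lit 272) (nat_lit 1) (nat_lit 17) (.e true (nat_lit 3) (nat_lit 273) (nat_lit 1) (nat_lit 17) (.e true (nat_lit 1) (nat_lit 276) (nat_lit 1) (nat_lit 17) (.e true (nat_lit 1) (nat_lit 277) (nat_lit 1) (nat_lit 17) dC2d_i239)))))))))))))))))))))))))

noncomputable def dC2d_i241 : IL := (.s false (nat_lit 1) (nat_lit 52) (nat_lit 2) (nat_lit 2) (nat_lit 2) true (nat_lit 11) true (nat_lit 16) false (nat_lit 4) true (nat_lit 16) true (nat_lit 16) (.s false (nat_lit 2) (nat_lit 53) (nat_lit 2) (nat_lit 2) (nat_lit 2) true (nat_lit 11) true (nat_lit 16) false (nat_lit 4) true (nat_lit 16) true (nat_lit 16) (.s true (nat_lit 2) (nat_lit 54) (nat_lit 2) (nat_lit 2) (nat_lit 2) true (nat_lit 11) true (nat_lit 16) false (nat_lit 4) true (nat_lit 16) true (nat_lit 16) (.s false (nat_lit 2) (nat_lit 55) (nat_lit 2) (nat_lit 2) (nat_lit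 2) true (nat_lit 11) true (nat_lit 16) false (nat_lit 4) true (nat_lit 16) true (nat_lit 16) (.s true (nat_lit 2) (nat_lit 57) (nat_lit 2) (nat_lit 2) (nat_lit 2) true (nat_lit 11) true (nat_lit 16) false (nat_lit 4) true (nat_lit 16) true (nat_lit 16) (.s true (nat_lit 2) (nat_lit 59) (nat_lit 2) (nat_lit 2) (nat_lit 2) true (nat_lit 11) true (nat_lit 16) false (nat_lit 4) true (nat_lit 16) true (nat_lit 16) (.s false (nat_lit 3) (nat_lit 60) (nat_lit 1) (nat_lit 2) (nat_lit 2) true (nat_lit 12) true (nat_lit 16) false (nat_lit 5) true (nat_lit 17) true (nat_lit 16) (.s false (nat_lit 2) (nat_lit 61) (nat_lit 1) (nat_lit 2) (nat_lit 2) true (nat_lit 12) true (nat_lit 16) false (nat_lit 5) true (nat_lit 17) true (nat_lit 16) (.s true (nat_lit 2) (nat_lit 63) (nat_lit 1) (nat_lit 2) (nat_lit 2) true (nat_lit 12) true (nat_lit 16) false (nat_lit 5) true (nat_lit 17) true (nat_lit 16) (.s false (nat_lit 2) (nat_lit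 65) (nat_lit 1) (nat_lit 2) (nat_lit 2) true (nat_lit 12) true (nat_lit 16) false (nat_lit 5) true (nat_lit 17) true (nat_lit 16) (.s false (nat_lit 3) (nat_lit 66) (nat_lit 1) (nat_lit 2) (nat_lit 2) true (nat_lit 12) true (nat_lit 16) false (nat_lit 5) true (nat_lit 17) true (nat_lit 16) (.s false (nat_lit 3) (nat_lit 72) (nat_lit 1) (nat_lit 2) (nat_lit 2) true (nat_lit 12) true (nat_lit 16) false (nat_lit 5) true (nat_lit 17) true (nat_lit 16) (.s true (nat_lit 3) (nat_lit 73) (nat_lit 1) (nat_lit 2) (nat_lit 2) true (nat_lit 12) true (nat_lit 16) false (nat_lit 5) true (nat_lit 17) true (nat_lit 16) (.s true (nat_lit 2) (nat_lit 72) (nat_lit 2) (nat_lit 1) (nat_lit 2) true (nat_lit 11) true (nat_lit 16) false (nat_lit 5) true (nat_lit 16) true (nat_lit 17) (.s false (nat_lit 3) (nat_lit 73) (nat_lit 2) (nat_lit 1) (nat_lit 2) true (nat_lit 11) true (nat_lit 16) false (nat_lit 5) true (nat_lit 16) true (nat_lit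 17) (.s false (nat_lit 3) (nat_lit 62) (nat_lit 2) (nat_lit 2) (nat_lit 1) true (nat_lit 12) true (nat_lit 17) false (nat_lit 5) true (nat_lit 16) true (nat_lit 16) (.s true (nat_lit 3) (nat_lit 66) (nat_lit 2) (nat_lit 2) (nat_lit 1) true (nat_lit 12) true (nat_lit 17) false (nat_lit 5) true (nat_lit 16) true (nat_lit 16) (.s true (nat_lit 2) (nat_lit 73) (nat_lit 2) (nat_lit 2) (nat_lit 1) true (nat_lit 12) true (nat_lit 17) false (nat_lit 5) true (nat_lit 16) true (nat_lit 16) (.s true (nat_lit 1) (nat_lit 88) (nat_lit 1) (nat_lit 1) (nat_lit 2) true (nat_lit 12) true (nat_lit 16) false (nat_lit 7) true (nat_lit 17) true (nat_lit 17) (.s true (nat_lit 3) (nat_lit 81) (nat_lit 1) (nat_lit 2) (nat_lit 1) true (nat_lit 14) true (nat_lit 17) false (nat_lit 7) true (nat_lit 17) true (nat_lit 16) (.s false (nat_lit 3) (nat_lit 82) (nat_lit 1) (nat_lit 2) (nat_lit 1) true (nat_lit 14) true (nat_lit 17) false (nat_lit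 7) true (nat_lit 17) true (nat_lit 16) (.s false (nat_lit 3) (nat_lit 83) (nat_lit 1) (nat_lit 2) (nat_lit 1) true (nat_lit 14) true (nat_lit 17) false (nat_lit 7) true (nat_lit 17) true (nat_lit 16) (.s false (nat_lit 3) (nat_lit 85) (nat_lit 1) (nat_lit 2) (nat_lit 1) true (nat_lit 14) true (nat_lit 17) false (nat_lit 7) true (nat_lit 17) true (nat_lit 16) (.s false (nat_lit 1) (nat_lit 88) (nat_lit 1) (nat_lit 2) (nat_lit 1) true (nat_lit 14) true (nat_lit 17) false (nat_lit 7) true (nat_lit 17) true (nat_lit 16) (.s true (nat_lit 2) (nat_lit 80) (nat_lit 2) (nat_lit 1) (nat_lit 1) true (nat_lit 12) true (nat_lit 17) false (nat_lit 7) true (nat_lit 16) true (nat_lit 17) dC2d_i240)))))))))))))))))))))))))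

noncomputable def dC2d_i242 : IL := (.s false (nat_lit 2) (nat_lit 26) (nat_lit 1) (nat_lit 2) (nat_lit 7) true (nat_lit 5) true (nat_lit 11) true (nat_lit 2) true (nat_lit 17) true (nat_lit 16) (.s true (nat_lit 2) (nat_lit 27) (nat_lit 1) (nat_lit 2) (nat_lit 7) true (nat_lit 5) true (nat_lit 11) true (nat_lit 2) true (nat_lit 17) true (nat_lit 16) (.s false (nat_lit 2) (nat_lit 29) (nat_lit 1) (nat_lit 2) (nat_lit 7) true (nat_lit 5) true (nat_lit 11) true (nat_lit 2) true (nat_lit 17) true (nat_lit 16) (.s false (nat_lit 2) (nat_lit 24) (nat_lit 2) (nat_lit 1) (nat_lit 7) true (nat_lit 4) true (nat_lit 11) true (nat_lit 2) true (nat_lit 16) true (nat_lit 17) (.s true (nat_lit 2) (nat_lit 25) (nat_lit 2) (nat_lit 1) (nat_lit 7) true (nat_lit 4) true (nat_lit 11) true (nat_lit 2) true (nat_lit 16) true (nat_lit 17) (.s true (nat_lit 2) (nat_lit 27) (nat_lit 2) (nat_lit 1) (nat_lit 7) true (nat_lit 4) true (nat_lit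 11) true (nat_lit 2) true (nat_lit 16) true (nat_lit 17) (.s false (nat_lit 2) (nat_lit 29) (nat_lit 2) (nat_lit 1) (nat_lit 7) true (nat_lit 4) true (nat_lit 11) true (nat_lit 2) true (nat_lit 16) true (nat_lit 17) (.s true (nat_lit 3) (nat_lit 24) (nat_lit 2) (nat_lit 2) (nat_lit 6) true (nat_lit 5) true (nat_lit 12) true (nat_lit 2) true (nat_lit 16) true (nat_lit 16) (.s true (nat_lit 2) (nat_lit 25) (nat_lit 2) (nat_lit 2) (nat_lit 6) true (nat_lit 5) true (nat_lit 12) true (nat_lit 2) true (nat_lit 16) true (nat_lit 16) (.s true (nat_lit 1) (nat_lit 26) (nat_lit 2) (nat_lit 2) (nat_lit 6) true (nat_lit 5) true (nat_lit 12) true (nat_lit 2) true (nat_lit 16) true (nat_lit 16) (.s false (nat_lit 2) (nat_lit 27) (nat_lit 2) (nat_lit 2) (nat_lit 6) true (nat_lit 5) true (nat_lit 12) true (nat_lit 2) true (nat_lit 16) true (nat_lit 16) (.s true (nat_lit 2) (nat_lit 29) (nat_lit 2) (nat_lit 2) (nat_lit 6) true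 (nat_lit 5) true (nat_lit 12) true (nat_lit 2) true (nat_lit 16) true (nat_lit 16) (.s true (nat_lit 2) (nat_lit 24) (nat_lit 6) (nat_lit 2) (nat_lit 2) true (nat_lit 5) true (nat_lit 16) true (nat_lit 2) true (nat_lit 12) true (nat_lit 16) (.s false (nat_lit 1) (nat_lit 26) (nat_lit 6) (nat_lit 2) (nat_lit 2) true (nat_lit 5) true (nat_lit 16) true (nat_lit 2) true (nat_lit 12) true (nat_lit 16) (.s true (nat_lit 3) (nat_lit 25) (nat_lit 7) (nat_lit 2) (nat_lit 1) true (nat_lit 5) true (nat_lit 17) true (nat_lit 2) true (nat_lit 11) true (nat_lit 16) (.s true (nat_lit 3) (nat_lit 33) (nat_lit 1) (nat_lit 1) (nat_lit 7) true (nat_lit 5) true (nat_lit 11) true (nat_lit 0) true (nat_lit 17) true (nat_lit 17) (.s false (nat_lit 3) (nat_lit 33) (nat_lit 1) (nat_lit 7) (nat_lit 1) true (nat_lit 14) true (nat_lit 17) true (nat_lit 0) true (nat_lit 17) true (nat_lit 11) (.s false (nat_lit 2) (nat_lit 33) (nat_lit 2)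 (nat_lit 6) (nat_lit 1) true (nat_lit 12) true (nat_lit 17) true (nat_lit 0) true (nat_lit 16) true (nat_lit 12) (.s false (nat_lit 2) (nat_lit 33) (nat_lit 6) (nat_lit 2) (nat_lit 1) true (nat_lit 7) true (nat_lit 17) true (nat_lit 0) true (nat_lit 12) true (nat_lit 16) (.s true (nat_lit 2) (nat_lit 39) (nat_lit 3) (nat_lit 2) (nat_lit 2) true (nat_lit 8) true (nat_lit 16) false (nat_lit 0) true (nat_lit 15) true (nat_lit 16) (.s true (nat_lit 2) (nat_lit 46) (nat_lit 1) (nat_lit 3) (nat_lit 2) true (nat_lit 12) true (nat_lit 16) false (nat_lit 2) true (nat_lit 17) true (nat_lit 15) (.s true (nat_lit 1) (nat_lit 47) (nat_lit 1) (nat_lit 3) (nat_lit 2) true (nat_lit 12) true (nat_lit 16) false (nat_lit 2) true (nat_lit 17) true (nat_lit 15) (.s true (nat_lit 1) (nat_lit 46) (nat_lit 2) (nat_lit 1) (nat_lit 3) true (nat_lit 8) true (nat_lit 15) false (nat_lit 2) true (nat_lit 16) true (nat_lit 17) (.s false (nat_lit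 3) (nat_lit 48) (nat_lit 1) (nat_lit 1) (nat_lit 3) true (nat_lit 10) true (nat_lit 15) false (nat_lit 3) true (nat_lit 17) true (nat_lit 17) (.s true (nat_lit 2) (nat_lit 48) (nat_lit 1) (nat_lit 3) (nat_lit 1) true (nat_lit 14) true (nat_lit 17) false (nat_lit 3) true (nat_lit 17) true (nat_lit 15) dC2d_i241)))))))))))))))))))))))))

noncomputable def dC2d_i243 : IL := (.s false (nat_lit 2) (nat_lit 19) (nat_lit 1) (nat_lit 3) (nat_lit 7) true (nat_lit 5) true (nat_lit 11) true (nat_lit 5) true (nat_lit 17) true (nat_lit 15) (.s true (nat_lit 3) (nat_lit 18) (nat_lit 2) (nat_lit 1) (nat_lit 11) true (nat_lit 0) true (nat_lit 8) true (nat_lit 5) true (nat_lit 16) true (nat_lit 17) (.s false (nat_lit 2) (nat_lit 19) (nat_lit 2) (nat_lit 2) (nat_lit 8) true (nat_lit 2) true (nat_lit 10) true (nat_lit 5) true (nat_lit 16) true (nat_lit 16) (.s true (nat_lit 2) (nat_lit 18) (nat_lit 2) (nat_lit 11) (nat_lit 1) true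 (nat_lit 12) true (nat_lit 17) true (nat_lit 5) true (nat_lit 16) true (nat_lit 8) (.s true (nat_lit 2) (nat_lit 18) (nat_lit 8) (nat_lit 2) (nat_lit 2) true (nat_lit 2) true (nat_lit 16) true (nat_lit 5) true (nat_lit 10) true (nat_lit 16) (.s true (nat_lit 3) (nat_lit 19) (nat_lit 9) (nat_lit 2) (nat_lit 2) true (nat_lit 2) true (nat_lit 16) true (nat_lit 5) true (nat_lit 10) true (nat_lit 16) (.s true (nat_lit 2) (nat_lit 18) (nat_lit 11) (nat_lit 1) (nat_lit 2) true (nat_lit 0) true (nat_lit 16) true (nat_lit 5) true (nat_lit 8) true (nat_lit 17) (.s false (nat_lit 3) (nat_lit 19) (nat_lit 11) (nat_lit 1) (nat_lit 2) true (nat_lit 0) true (nat_lit 16) true (nat_lit 5) true (nat_lit 8) true (nat_lit 17) (.s false (nat_lit 1) (nat_lit 18) (nat_lit 11) (nat_lit 2) (nat_lit 1) true (nat_lit 2) true (nat_lit 17) true (nat_lit 5) true (nat_lit 8) true (nat_lit 16) (.s false (nat_lit 3) (nat_lit 19) (nat_lit 11)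 (nat_lit 2) (nat_lit 1) true (nat_lit 2) true (nat_lit 17) true (nat_lit 5) true (nat_lit 8) true (nat_lit 16) (.s false (nat_lit 3) (nat_lit 20) (nat_lit 1) (nat_lit 3) (nat_lit 6) true (nat_lit 7) true (nat_lit 12) true (nat_lit 4) true (nat_lit 17) true (nat_lit 15) (.s true (nat_lit 1) (nat_lit 20) (nat_lit 2) (nat_lit 1) (nat_lit 8) true (nat_lit 2) true (nat_lit 10) true (nat_lit 4) true (nat_lit 16) true (nat_lit 17) (.s false (nat_lit 3) (nat_lit 20) (nat_lit 2) (nat_lit 8) (nat_lit 1) true (nat_lit 12) true (nat_lit 17) true (nat_lit 4) true (nat_lit 16) true (nat_lit 10) (.s true (nat_lit 2) (nat_lit 20) (nat_lit 3) (nat_lit 4) (nat_lit 2) true (nat_lit 8) true (nat_lit 16) true (nat_lit 4) true (nat_lit 15) true (nat_lit 14) (.s false (nat_lit 1) (nat_lit 20) (nat_lit 6) (nat_lit 1) (nat_lit 3) true (nat_lit 2) true (nat_lit 15) true (nat_lit 4) true (nat_lit 12) true (nat_lit 17) (.s false (nat_lit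 2) (nat_lit 20) (nat_lit 8) (nat_lit 1) (nat_lit 2) true (nat_lit 2) true (nat_lit 16) true (nat_lit 4) true (nat_lit 10) true (nat_lit 17) (.s true (nat_lit 3) (nat_lit 20) (nat_lit 11) (nat_lit 1) (nat_lit 1) true (nat_lit 2) true (nat_lit 17) true (nat_lit 4) true (nat_lit 8) true (nat_lit 17) (.s false (nat_lit 2) (nat_lit 21) (nat_lit 2) (nat_lit 2) (nat_lit 7) true (nat_lit 4) true (nat_lit 11) true (nat_lit 3) true (nat_lit 16) true (nat_lit 16) (.s true (nat_lit 3) (nat_lit 22) (nat_lit 2) (nat_lit 2) (nat_lit 7) true (nat_lit 4) true (nat_lit 11) true (nat_lit 3) true (nat_lit 16) true (nat_lit 16) (.s true (nat_lit 3) (nat_lit 23) (nat_lit 2) (nat_lit 2) (nat_lit 7) true (nat_lit 4) true (nat_lit 11) true (nat_lit 3) true (nat_lit 16) true (nat_lit 16) (.s false (nat_lit 2) (nat_lit 21) (nat_lit 2) (nat_lit 7) (nat_lit 2) true (nat_lit 11) true (nat_lit 16) true (nat_lit 3) true (nat_lit 16) true (nat_lit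 11) (.s false (nat_lit 3) (nat_lit 22) (nat_lit 2) (nat_lit 7) (nat_lit 2) true (nat_lit 11) true (nat_lit 16) true (nat_lit 3) true (nat_lit 16) true (nat_lit 11) (.s false (nat_lit 3) (nat_lit 23) (nat_lit 2) (nat_lit 7) (nat_lit 2) true (nat_lit 11) true (nat_lit 16) true (nat_lit 3) true (nat_lit 16) true (nat_lit 11) (.s false (nat_lit 2) (nat_lit 24) (nat_lit 1) (nat_lit 2) (nat_lit 7) true (nat_lit 5) true (nat_lit 11) true (nat_lit 2) true (nat_lit 17) true (nat_lit 16) (.s false (nat_lit 2) (nat_lit 25) (nat_lit 1) (nat_lit 2) (nat_lit 7) true (nat_lit 5) true (nat_lit 11) true (nat_lit 2) true (nat_lit 17) true (nat_lit 16) dC2d_i242)))))))))))))))))))))))))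

noncomputable def dC2d_i244 : IL := (.e true (nat_lit 1) (nat_lit 282) (nat_lit 1) (nat_lit 17) (.e true (nat_lit 1) (nat_lit 250) (nat_lit 2) (nat_lit 16) (.e true (nat_lit 3) (nat_lit 289) (nat_lit 0) (nat_lit 18) (.e false (nat_lit 2) (nat_lit 290) (nat_lit 0) (nat_lit 18) (.e true (nat_lit 3) (nat_lit 291) (nat_lit 0) (nat_lit 18) (.e true (nat_lit 2) (nat_lit 292) (nat_lit 0) (nat_lit 18) (.e true (nat_lit 1) (nat_lit 293) (nat_lit 0) (nat_lit 18) (.e false (nat_lit 1) (nat_lit 295) (nat_lit 0) (nat_lit 18) (.e true (nat_lit 3) (nat_lit 300) (nat_lit 0) (nat_lit 18) (.e false (nat_lit 1) (nat_lit 301) (nat_lit 0) (nat_lit 18) (.e false (nat_lit 3) (nat_lit 303) (nat_lit 0) (nat_lit 18) (.e true (nat_lit 3) (nat_lit 233) (nat_lit 2) (nat_lit 16) (.e false (nat_lit 1) (nat_lit 259) (nat_lit 1) (nat_lit 17) (.e true (nat_lit 1) (nat_lit 260) (nat_lit 1) (nat_lit 17) (.e true (nat_lit 3) (nat_lit 279) (nat_lit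 1) (nat_lit 17) (.e false (nat_lit 3) (nat_lit 62) (nat_lit 18) (nat_lit 5) (.e true (nat_lit 2) (nat_lit 170) (nat_lit 4) (nat_lit 14) (.e false (nat_lit 2) (nat_lit 294) (nat_lit 0) (nat_lit 18) (.e true (nat_lit 3) (nat_lit 235) (nat_lit 2) (nat_lit 16) (.e true (nat_lit 3) (nat_lit 280) (nat_lit 1) (nat_lit 17) (.e false (nat_lit 1) (nat_lit 296) (nat_lit 0) (nat_lit 18) (.u (nat_lit 2) (.p (nat_lit 1) (nat_lit 5) (.n (nat_lit 2) (nat_lit 3) (.n (nat_lit 3) (nat_lit 5) (.n (nat_lit 4) (nat_lit 1) (.n (nat_lit 5) (nat_lit 1) (.n (nat_lit 6) (nat_lit 1) (.p (nat_lit 7) (nat_lit 3) (.p (nat_lit 8) (nat_lit 2) (.n (nat_lit 9) (nat_lit 4) (.p (nat_lit 10) (nat_lit 2) (.p (nat_lit 11) (nat_lit 1) (.n (nat_lit 12) (nat_lit 3) (.n (nat_lit 14) (nat_lit 2) (.p (nat_lit 15) (nat_lit 6) (.n (nat_lit 16) (nat_lit 2) (.p (nat_lit 17) (nat_lit 4) (.n (nat_lit 18) (nat_lit 3) (.p (nat_lit 19) (nat_lit 4) (.n (nat_lit 20)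 (nat_lit 3) (.p (nat_lit 21) (nat_lit 7) (.n (nat_lit 22) (nat_lit 7) (.p (nat_lit 23) (nat_lit 1) (.p (nat_lit 24) (nat_lit 2) (.n (nat_lit 25) (nat_lit 3) (.n (nat_lit 26) (nat_lit 1) (.p (nat_lit 27) (nat_lit 5) (.p (nat_lit 28) (nat_lit 1) (.n (nat_lit 31) (nat_lit 4) (.p (nat_lit 32) (nat_lit 1) (.p (nat_lit 33) (nat_lit 1) (.n (nat_lit 34) (nat_lit 2) (.p (nat_lit 36) (nat_lit 1) (.p (nat_lit 37) (nat_lit 7) (.n (nat_lit 38) (nat_lit 1) (.n (nat_lit 39) (nat_lit 6) (.n (nat_lit 40) (nat_lit 3) (.n (nat_lit 41) (nat_lit 1) (.n (nat_lit 44) (nat_lit 1) (.p (nat_lit 47) (nat_lit 4) (.p (nat_lit 48) (nat_lit 6) (.n (nat_lit 50) (nat_lit 1) (.p (nat_lit 51) (nat_lit 1) (.n (nat_lit 52) (nat_lit 1) (.p (nat_lit 55) (nat_lit 1) (.p (nat_lit 81) (nat_lit 1) (.p (nat_lit 82) (nat_lit 1) (.p (nat_lit 89) (nat_lit 1) (.p (nat_lit 92) (nat_lit 1) (.p (nat_lit 97) (nat_lit 1) (.p (nat_lit 107) (nat_lit 1) (.n (nat_lit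 114) (nat_lit 1) (.n (nat_lit 115) (nat_lit 1) (.n (nat_lit 122) (nat_lit 1) (.n (nat_lit 124) (nat_lit 1) (.p (nat_lit 128) (nat_lit 1) (.n (nat_lit 129) (nat_lit 1) (.n (nat_lit 130) (nat_lit 1) (.n (nat_lit 133) (nat_lit 1) (.p (nat_lit 134) (nat_lit 1) (.p (nat_lit 137) (nat_lit 1) .z)))))))))))))))))))))))))))))))))))))))))))))))))))))))))))) (.u (nat_lit 2) (.p (nat_lit 180) (nat_lit 1) (.n (nat_lit 184) (nat_lit 2) (.p (nat_lit 186) (nat_lit 1) (.p (nat_lit 192) (nat_lit 1) (.p (nat_lit 206) (nat_lit 1) (.n (nat_lit 207) (nat_lit 1) (.p (nat_lit 210) (nat_lit 1) (.n (nat_lit 211) (nat_lit 1) (.n (nat_lit 213) (nat_lit 4) (.n (nat_lit 215) (nat_lit 1) (.p (nat_lit 216) (nat_lit 3) (.p (nat_lit 217) (nat_lit 1) (.n (nat_lit 218) (nat_lit 1) (.n (nat_lit 219) (nat_lit 4) (.p (nat_lit 220) (nat_lit 1) (.p (nat_lit 221) (nat_lit 3) (.n (nat_lit 222) (nat_lit 1) (.n (nat_lit 223) (nat_lit 3) (.p (nat_lit 224)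 (nat_lit 3) (.p (nat_lit 225) (nat_lit 1) (.p (nat_lit 226) (nat_lit 5) (.p (nat_lit 227) (nat_lit 2) (.n (nat_lit 229) (nat_lit 3) (.n (nat_lit 230) (nat_lit 5) (.p (nat_lit 232) (nat_lit 1) (.p (nat_lit 233) (nat_lit 1) (.n (nat_lit 234) (nat_lit 7) (.n (nat_lit 237) (nat_lit 1) (.n (nat_lit 239) (nat_lit 2) (.n (nat_lit 241) (nat_lit 2) (.n (nat_lit 242) (nat_lit 1) (.p (nat_lit 243) (nat_lit 1) (.n (nat_lit 244) (nat_lit 1) (.p (nat_lit 245) (nat_lit 1) (.p (nat_lit 246) (nat_lit 1) (.n (nat_lit 247) (nat_lit 1) (.p (nat_lit 248) (nat_lit 1) (.n (nat_lit 250) (nat_lit 2) (.n (nat_lit 251) (nat_lit 1) (.n (nat_lit 252) (nat_lit 1) (.p (nat_lit 253) (nat_lit 1) (.n (nat_lit 254) (nat_lit 2) (.n (nat_lit 256) (nat_lit 1) (.n (nat_lit 257) (nat_lit 1) (.n (nat_lit 259) (nat_lit 1) (.n (nat_lit 261) (nat_lit 1) (.n (nat_lit 262) (nat_lit 1) (.n (nat_lit 270) (nat_lit 1) (.p (nat_lit 279) (nat_lit 1) (.n (nat_lit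 284) (nat_lit 1) (.n (nat_lit 292) (nat_lit 2) (.n (nat_lit 293) (nat_lit 2) (.p (nat_lit 294) (nat_lit 2) (.n (nat_lit 295) (nat_lit 2) (.n (nat_lit 296) (nat_lit 1) (.p (nat_lit 297) (nat_lit 1) (.n (nat_lit 302) (nat_lit 4) (.n (nat_lit 303) (nat_lit 5) (.n (nat_lit 304) (nat_lit 21) (.n (nat_lit 305) (nat_lit 29) .z)))))))))))))))))))))))))))))))))))))))))))))))))))))))))))) (.u (nat_lit 2) (.p (nat_lit 306) (nat_lit 3) (.p (nat_lit 307) (nat_lit 11) (.p (nat_lit 308) (nat_lit 32) (.n (nat_lit 309) (nat_lit 13) (.n (nat_lit 310) (nat_lit 6) (.p (nat_lit 311) (nat_lit 8) (.n (nat_lit 312) (nat_lit 33) (.n (nat_lit 313) (nat_lit 2) (.p (nat_lit 314) (nat_lit 3) (.n (nat_lit 315) (nat_lit 10) (.p (nat_lit 316) (nat_lit 5) (.n (nat_lit 317) (nat_lit 9) (.p (nat_lit 318) (nat_lit 21) (.n (nat_lit 319) (nat_lit 1) (.n (nat_lit 321) (nat_lit 1) (.p (nat_lit 322) (nat_lit 9) (.p (nat_lit 323) (nat_lit 1) (.p (nat_lit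 324) (nat_lit 21) (.p (nat_lit 325) (nat_lit 28) (.p (nat_lit 326) (nat_lit 21) (.p (nat_lit 327) (nat_lit 11) (.p (nat_lit 328) (nat_lit 16) (.n (nat_lit 329) (nat_lit 14) (.n (nat_lit 330) (nat_lit 4) (.p (nat_lit 331) (nat_lit 4) (.p (nat_lit 332) (nat_lit 7) (.n (nat_lit 334) (nat_lit 1) (.p (nat_lit 335) (nat_lit 3) (.p (nat_lit 336) (nat_lit 6) (.n (nat_lit 338) (nat_lit 2) (.n (nat_lit 339) (nat_lit 6) (.p (nat_lit 340) (nat_lit 18) (.n (nat_lit 341) (nat_lit 5) (.p (nat_lit 342) (nat_lit 6) (.n (nat_lit 343) (nat_lit 24) (.n (nat_lit 344) (nat_lit 34) (.n (nat_lit 345) (nat_lit 7) (.n (nat_lit 346) (nat_lit 12) (.p (nat_lit 347) (nat_lit 3) (.p (nat_lit 348) (nat_lit 16) (.n (nat_lit 349) (nat_lit 5) (.n (nat_lit 350) (nat_lit 16) (.p (nat_lit 351) (nat_lit 18) (.n (nat_lit 352) (nat_lit 3) (.n (nat_lit 353) (nat_lit 2) (.p (nat_lit 354) (nat_lit 10) (.n (nat_lit 355) (nat_lit 30) (.n (nat_lit 356) (nat_lit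 4) (.p (nat_lit 357) (nat_lit 6) (.p (nat_lit 358) (nat_lit 2) (.p (nat_lit 359) (nat_lit 12) (.p (nat_lit 360) (nat_lit 8) (.n (nat_lit 361) (nat_lit 8) (.p (nat_lit 362) (nat_lit 14) (.n (nat_lit 363) (nat_lit 11) (.p (nat_lit 364) (nat_lit 4) (.n (nat_lit 366) (nat_lit 16) (.n (nat_lit 367) (nat_lit 2) (.n (nat_lit 368) (nat_lit 10) (.n (nat_lit 369) (nat_lit 8) .z)))))))))))))))))))))))))))))))))))))))))))))))))))))))))))) (.u (nat_lit 2) (.n (nat_lit 370) (nat_lit 14) (.p (nat_lit 371) (nat_lit 8) (.p (nat_lit 372) (nat_lit 2) (.p (nat_lit 373) (nat_lit 7) (.p (nat_lit 374) (nat_lit 6) (.p (nat_lit 375) (nat_lit 2) (.p (nat_lit 376) (nat_lit 10) (.n (nat_lit 377) (nat_lit 2) (.n (nat_lit 379) (nat_lit 5) (.p (nat_lit 380) (nat_lit 6) (.n (nat_lit 381) (nat_lit 2) (.n (nat_lit 382) (nat_lit 13) (.n (nat_lit 383) (nat_lit 5) (.p (nat_lit 384) (nat_lit 2) (.p (nat_lit 385) (nat_lit 4) (.n (nat_lit 386) (nat_lit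 14) (.p (nat_lit 387) (nat_lit 4) (.p (nat_lit 388) (nat_lit 7) (.p (nat_lit 389) (nat_lit 1) (.p (nat_lit 390) (nat_lit 4) (.n (nat_lit 391) (nat_lit 3) (.p (nat_lit 392) (nat_lit 6) (.p (nat_lit 393) (nat_lit 4) (.p (nat_lit 394) (nat_lit 2) (.n (nat_lit 395) (nat_lit 1) (.p (nat_lit 396) (nat_lit 1) (.p (nat_lit 397) (nat_lit 6) (.n (nat_lit 398) (nat_lit 3) (.n (nat_lit 400) (nat_lit 7) (.p (nat_lit 401) (nat_lit 4) .z)))))))))))))))))))))))))))))) .nil)))))))))))))))))))))))))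

noncomputable def dC2d_i245 : IL := (.e false (nat_lit 3) (nat_lit 255) (nat_lit 1) (nat_lit 17) (.e true (nat_lit 3) (nat_lit 262) (nat_lit 1) (nat_lit 17) (.e false (nat_lit 1) (nat_lit 264) (nat_lit 1) (nat_lit 17) (.e false (nat_lit 3) (nat_lit 231) (nat_lit 2) (nat_lit 16) (.e false (nat_lit 1) (nat_lit 206) (nat_lit 2) (nat_lit 16) (.e false (nat_lit 1) (nat_lit 210) (nat_lit 2) (nat_lit 16) (.e true (nat_lit 2) (nat_lit 211) (nat_lit 2) (nat_lit 16) (.e true (nat_lit 2) (nat_lit 213) (nat_lit 2) (nat_lit 16) (.e true (nat_lit 3) (nat_lit 219) (nat_lit 2) (nat_lit 16) (.e true (nat_lit 1) (nat_lit 212) (nat_lit 2) (nat_lit 16) (.e false (nat_lit 1) (nat_lit 230) (nat_lit 2) (nat_lit 16) (.e true (nat_lit 2) (nat_lit 234) (nat_lit 2) (nat_lit 16) (.e true (nat_lit 1) (nat_lit 246) (nat_lit 2) (nat_lit 16) (.e false (nat_lit 3) (nat_lit 249) (nat_lit 2) (nat_lit 16) (.e false (nat_lit 2) (nat_lit 226) (nat_lit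 2) (nat_lit 16) (.e true (nat_lit 3) (nat_lit 229) (nat_lit 2) (nat_lit 16) (.e false (nat_lit 3) (nat_lit 274) (nat_lit 1) (nat_lit 17) (.e true (nat_lit 3) (nat_lit 278) (nat_lit 1) (nat_lit 17) (.e true (nat_lit 1) (nat_lit 257) (nat_lit 1) (nat_lit 17) (.e true (nat_lit 1) (nat_lit 207) (nat_lit 2) (nat_lit 16) (.e false (nat_lit 2) (nat_lit 218) (nat_lit 2) (nat_lit 16) (.e false (nat_lit 2) (nat_lit 155) (nat_lit 6) (nat_lit 12) (.e true (nat_lit 3) (nat_lit 256) (nat_lit 1) (nat_lit 17) (.e false (nat_lit 3) (nat_lit 261) (nat_lit 1) (nat_lit 17) (.e false (nat_lit 2) (nat_lit 275) (nat_lit 1) (nat_lit 17) dC2d_i244)))))))))))))))))))))))))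

noncomputable def dC2d_i246 : IL := (.e true (nat_lit 2) (nat_lit 122) (nat_lit 7) (nat_lit 11) (.e false (nat_lit 2) (nat_lit 129) (nat_lit 7) (nat_lit 11) (.e false (nat_lit 3) (nat_lit 134) (nat_lit 6) (nat_lit 12) (.e false (nat_lit 3) (nat_lit 138) (nat_lit 6) (nat_lit 12) (.e true (nat_lit 1) (nat_lit 144) (nat_lit 6) (nat_lit 12) (.e true (nat_lit 1) (nat_lit 227) (nat_lit 2) (nat_lit 16) (.e false (nat_lit 3) (nat_lit 242) (nat_lit 2) (nat_lit 16) (.e true (nat_lit 2) (nat_lit 208) (nat_lit 2) (nat_lit 16) (.e true (nat_lit 3) (nat_lit 216) (nat_lit 2) (nat_lit 16) (.e false (nat_lit 3) (nat_lit 205) (nat_lit 2) (nat_lit 16) (.e true (nat_lit 2) (nat_lit 285) (nat_lit 1) (nat_lit 17) (.e false (nat_lit 2) (nat_lit 252) (nat_lit 1) (nat_lit 17) (.e false (nat_lit 3) (nat_lit 253) (nat_lit 1) (nat_lit 17) (.e true (nat_lit 3) (nat_lit 254) (nat_lit 1) (nat_lit 17) (.e true (nat_lit 3) (nat_lit 258) (nat_lit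 1) (nat_lit 17) (.e true (nat_lit 1) (nat_lit 263) (nat_lit 1) (nat_lit 17) (.e false (nat_lit 1) (nat_lit 265) (nat_lit 1) (nat_lit 17) (.e true (nat_lit 2) (nat_lit 267) (nat_lit 1) (nat_lit 17) (.e true (nat_lit 2) (nat_lit 269) (nat_lit 1) (nat_lit 17) (.e false (nat_lit 1) (nat_lit 270) (nat_lit 1) (nat_lit 17) (.e false (nat_lit 3) (nat_lit 271) (nat_lit 1) (nat_lit 17) (.e true (nat_lit 3) (nat_lit 272) (nat_lit 1) (nat_lit 17) (.e false (nat_lit 3) (nat_lit 273) (nat_lit 1) (nat_lit 17) (.e true (nat_lit 3) (nat_lit 276) (nat_lit 1) (nat_lit 17) (.e true (nat_lit 2) (nat_lit 277) (nat_lit 1) (nat_lit 17) dC2d_i245)))))))))))))))))))))))))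

noncomputable def dC2d_i247 : IL := (.s true (nat_lit 1) (nat_lit 79) (nat_lit 2) (nat_lit 2) (nat_lit 0) true (nat_lit 13) true (nat_lit 18) false (nat_lit 6) true (nat_lit 16) true (nat_lit 16) (.s false (nat_lit 1) (nat_lit 80) (nat_lit 1) (nat_lit 1) (nat_lit 2) true (nat_lit 12) true (nat_lit 16) false (nat_lit 7) true (nat_lit 17) true (nat_lit 17) (.s false (nat_lit 2) (nat_lit 83) (nat_lit 1) (nat_lit 1) (nat_lit 2) true (nat_lit 12) true (nat_lit 16) false (nat_lit 7) true (nat_lit 17) true (nat_lit 17) (.s true (nat_lit 2) (nat_lit 88) (nat_lit 1) (nat_lit 1) (nat_lit 2) true (nat_lit 12) true (nat_lit 16) false (nat_lit 7) true (nat_lit 17) true (nat_lit 17) (.s false (nat_lit 3) (nat_lit 80) (nat_lit 1) (nat_lit 2) (nat_lit 1) true (nat_lit 14) true (nat_lit 17) false (nat_lit 7) true (nat_lit 17) true (nat_lit 16) (.s false (nat_lit 3) (nat_lit 81) (nat_lit 1) (nat_lit 2) (nat_lit 1) true (nat_lit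 14) true (nat_lit 17) false (nat_lit 7) true (nat_lit 17) true (nat_lit 16) (.s true (nat_lit 1) (nat_lit 82) (nat_lit 1) (nat_lit 2) (nat_lit 1) true (nat_lit 14) true (nat_lit 17) false (nat_lit 7) true (nat_lit 17) true (nat_lit 16) (.s false (nat_lit 2) (nat_lit 83) (nat_lit 1) (nat_lit 2) (nat_lit 1) true (nat_lit 14) true (nat_lit 17) false (nat_lit 7) true (nat_lit 17) true (nat_lit 16) (.s false (nat_lit 2) (nat_lit 84) (nat_lit 1) (nat_lit 2) (nat_lit 1) true (nat_lit 14) true (nat_lit 17) false (nat_lit 7) true (nat_lit 17) true (nat_lit 16) (.s true (nat_lit 1) (nat_lit 85) (nat_lit 1) (nat_lit 2) (nat_lit 1) true (nat_lit 14) true (nat_lit 17) false (nat_lit 7) true (nat_lit 17) true (nat_lit 16) (.s true (nat_lit 2) (nat_lit 90) (nat_lit 1) (nat_lit 2) (nat_lit 1) true (nat_lit 14) true (nat_lit 17) false (nat_lit 7) true (nat_lit 17) true (nat_lit 16) (.s true (nat_lit 2) (nat_lit 81) (nat_lit 2)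 (nat_lit 1) (nat_lit 1) true (nat_lit 12) true (nat_lit 17) false (nat_lit 7) true (nat_lit 16) true (nat_lit 17) (.s true (nat_lit 2) (nat_lit 83) (nat_lit 2) (nat_lit 1) (nat_lit 1) true (nat_lit 12) true (nat_lit 17) false (nat_lit 7) true (nat_lit 16) true (nat_lit 17) (.s true (nat_lit 2) (nat_lit 88) (nat_lit 2) (nat_lit 1) (nat_lit 1) true (nat_lit 12) true (nat_lit 17) false (nat_lit 7) true (nat_lit 16) true (nat_lit 17) (.s true (nat_lit 3) (nat_lit 92) (nat_lit 0) (nat_lit 1) (nat_lit 2) true (nat_lit 13) true (nat_lit 16) false (nat_lit 8) true (nat_lit 18) true (nat_lit 17) (.s false (nat_lit 2) (nat_lit 92) (nat_lit 1) (nat_lit 0) (nat_lit 2) true (nat_lit 12) true (nat_lit 16) false (nat_lit 8) true (nat_lit 17) true (nat_lit 18) (.s true (nat_lit 2) (nat_lit 96) (nat_lit 1) (nat_lit 0) (nat_lit 2) true (nat_lit 12) true (nat_lit 16) false (nat_lit 8) true (nat_lit 17) true (nat_lit 18) (.s true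 (nat_lit 3) (nat_lit 92) (nat_lit 1) (nat_lit 2) (nat_lit 0) true (nat_lit 15) true (nat_lit 18) false (nat_lit 8) true (nat_lit 17) true (nat_lit 16) (.s false (nat_lit 3) (nat_lit 92) (nat_lit 2) (nat_lit 1) (nat_lit 0) true (nat_lit 13) true (nat_lit 18) false (nat_lit 8) true (nat_lit 16) true (nat_lit 17) (.s true (nat_lit 3) (nat_lit 94) (nat_lit 2) (nat_lit 1) (nat_lit 0) true (nat_lit 13) true (nat_lit 18) false (nat_lit 8) true (nat_lit 16) true (nat_lit 17) (.s true (nat_lit 2) (nat_lit 101) (nat_lit 0) (nat_lit 1) (nat_lit 1) true (nat_lit 15) true (nat_lit 17) false (nat_lit 10) true (nat_lit 18) true (nat_lit 17) (.s false (nat_lit 2) (nat_lit 102) (nat_lit 0) (nat_lit 1) (nat_lit 1) true (nat_lit 15) true (nat_lit 17) false (nat_lit 10) true (nat_lit 18) true (nat_lit 17) (.s false (nat_lit 2) (nat_lit 101) (nat_lit 1) (nat_lit 1) (nat_lit 0) true (nat_lit 15) true (nat_lit 18) false (nat_lit 10)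 true (nat_lit 17) true (nat_lit 17) (.s true (nat_lit 2) (nat_lit 102) (nat_lit 1) (nat_lit 1) (nat_lit 0) true (nat_lit 15) true (nat_lit 18) false (nat_lit 10) true (nat_lit 17) true (nat_lit 17) (.s false (nat_lit 3) (nat_lit 103) (nat_lit 1) (nat_lit 1) (nat_lit 0) true (nat_lit 15) true (nat_lit 18) false (nat_lit 10) true (nat_lit 17) true (nat_lit 17) dC2d_i246)))))))))))))))))))))))))

noncomputable def dC2d_i248 : IL := (.s false (nat_lit 3) (nat_lit 61) (nat_lit 1) (nat_lit 2) (nat_lit 2) true (nat_lit 12) true (nat_lit 16) false (nat_lit 5) true (nat_lit 17) true (nat_lit 16) (.s true (nat_lit 2) (nat_lit 63) (nat_lit 1) (nat_lit 2) (nat_lit 2) true (nat_lit 12) true (nat_lit 16) false (nat_lit 5) true (nat_lit 17) true (nat_lit 16) (.s true (nat_lit 2) (nat_lit 64) (nat_lit 1) (nat_lit 2) (nat_lit 2) true (nat_lit 12) true (nat_lit 16) false (nat_lit 5) true (nat_lit 17) true (nat_lit 16) (.s false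 (nat_lit 2) (nat_lit 66) (nat_lit 1) (nat_lit 2) (nat_lit 2) true (nat_lit 12) true (nat_lit 16) false (nat_lit 5) true (nat_lit 17) true (nat_lit 16) (.s true (nat_lit 3) (nat_lit 67) (nat_lit 1) (nat_lit 2) (nat_lit 2) true (nat_lit 12) true (nat_lit 16) false (nat_lit 5) true (nat_lit 17) true (nat_lit 16) (.s false (nat_lit 1) (nat_lit 68) (nat_lit 1) (nat_lit 2) (nat_lit 2) true (nat_lit 12) true (nat_lit 16) false (nat_lit 5) true (nat_lit 17) true (nat_lit 16) (.s false (nat_lit 3) (nat_lit 69) (nat_lit 1) (nat_lit 2) (nat_lit 2) true (nat_lit 12) true (nat_lit 16) false (nat_lit 5) true (nat_lit 17) true (nat_lit 16) (.s false (nat_lit 3) (nat_lit 72) (nat_lit 1) (nat_lit 2) (nat_lit 2) true (nat_lit 12) true (nat_lit 16) false (nat_lit 5) true (nat_lit 17) true (nat_lit 16) (.s true (nat_lit 1) (nat_lit 73) (nat_lit 1) (nat_lit 2) (nat_lit 2) true (nat_lit 12) true (nat_lit 16) false (nat_lit 5) true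 (nat_lit 17) true (nat_lit 16) (.s false (nat_lit 3) (nat_lit 61) (nat_lit 2) (nat_lit 1) (nat_lit 2) true (nat_lit 11) true (nat_lit 16) false (nat_lit 5) true (nat_lit 16) true (nat_lit 17) (.s false (nat_lit 2) (nat_lit 62) (nat_lit 2) (nat_lit 1) (nat_lit 2) true (nat_lit 11) true (nat_lit 16) false (nat_lit 5) true (nat_lit 16) true (nat_lit 17) (.s false (nat_lit 1) (nat_lit 63) (nat_lit 2) (nat_lit 1) (nat_lit 2) true (nat_lit 11) true (nat_lit 16) false (nat_lit 5) true (nat_lit 16) true (nat_lit 17) (.s false (nat_lit 1) (nat_lit 64) (nat_lit 2) (nat_lit 1) (nat_lit 2) true (nat_lit 11) true (nat_lit 16) false (nat_lit 5) true (nat_lit 16) true (nat_lit 17) (.s true (nat_lit 1) (nat_lit 65) (nat_lit 2) (nat_lit 1) (nat_lit 2) true (nat_lit 11) true (nat_lit 16) false (nat_lit 5) true (nat_lit 16) true (nat_lit 17) (.s false (nat_lit 3) (nat_lit 69) (nat_lit 2) (nat_lit 1) (nat_lit 2) true (nat_lit 11)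 true (nat_lit 16) false (nat_lit 5) true (nat_lit 16) true (nat_lit 17) (.s true (nat_lit 1) (nat_lit 72) (nat_lit 2) (nat_lit 1) (nat_lit 2) true (nat_lit 11) true (nat_lit 16) false (nat_lit 5) true (nat_lit 16) true (nat_lit 17) (.s true (nat_lit 3) (nat_lit 73) (nat_lit 2) (nat_lit 1) (nat_lit 2) true (nat_lit 11) true (nat_lit 16) false (nat_lit 5) true (nat_lit 16) true (nat_lit 17) (.s true (nat_lit 3) (nat_lit 61) (nat_lit 2) (nat_lit 2) (nat_lit 1) true (nat_lit 12) true (nat_lit 17) false (nat_lit 5) true (nat_lit 16) true (nat_lit 16) (.s true (nat_lit 3) (nat_lit 62) (nat_lit 2) (nat_lit 2) (nat_lit 1) true (nat_lit 12) true (nat_lit 17) false (nat_lit 5) true (nat_lit 16) true (nat_lit 16) (.s false (nat_lit 2) (nat_lit 63) (nat_lit 2) (nat_lit 2) (nat_lit 1) true (nat_lit 12) true (nat_lit 17) false (nat_lit 5) true (nat_lit 16) true (nat_lit 16) (.s false (nat_lit 1) (nat_lit 66) (nat_lit 2) (nat_lit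 2) (nat_lit 1) true (nat_lit 12) true (nat_lit 17) false (nat_lit 5) true (nat_lit 16) true (nat_lit 16) (.s false (nat_lit 2) (nat_lit 74) (nat_lit 0) (nat_lit 2) (nat_lit 2) true (nat_lit 13) true (nat_lit 16) false (nat_lit 6) true (nat_lit 18) true (nat_lit 16) (.s true (nat_lit 3) (nat_lit 79) (nat_lit 0) (nat_lit 2) (nat_lit 2) true (nat_lit 13) true (nat_lit 16) false (nat_lit 6) true (nat_lit 18) true (nat_lit 16) (.s true (nat_lit 2) (nat_lit 77) (nat_lit 2) (nat_lit 0) (nat_lit 2) true (nat_lit 11) true (nat_lit 16) false (nat_lit 6) true (nat_lit 16) true (nat_lit 18) (.s true (nat_lit 3) (nat_lit 79) (nat_lit 2) (nat_lit 0) (nat_lit 2) true (nat_lit 11) true (nat_lit 16) false (nat_lit 6) true (nat_lit 16) true (nat_lit 18) dC2d_i247)))))))))))))))))))))))))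

noncomputable def dC2d_i249 : IL := (.s true (nat_lit 1) (nat_lit 34) (nat_lit 2) (nat_lit 1) (nat_lit 6) true (nat_lit 5) true (nat_lit 12) true (nat_lit 0) true (nat_lit 16) true (nat_lit 17) (.s true (nat_lit 1) (nat_lit 33) (nat_lit 2) (nat_lit 2) (nat_lit 4) true (nat_lit 7) true (nat_lit 14) true (nat_lit 0) true (nat_lit 16) true (nat_lit 16) (.s true (nat_lit 2) (nat_lit 33) (nat_lit 2) (nat_lit 4) (nat_lit 2) true (nat_lit 11) true (nat_lit 16) true (nat_lit 0) true (nat_lit 16) true (nat_lit 14) (.s true (nat_lit 2) (nat_lit 34) (nat_lit 2) (nat_lit 6) (nat_lit 1) true (nat_lit 12) true (nat_lit 17) true (nat_lit 0) true (nat_lit 16) true (nat_lit 12) (.s false (nat_lit 1) (nat_lit 33) (nat_lit 6) (nat_lit 1) (nat_lit 2) true (nat_lit 5) true (nat_lit 16) true (nat_lit 0) true (nat_lit 12) true (nat_lit 17) (.s false (nat_lit 1) (nat_lit 34) (nat_lit 6) (nat_lit 2) (nat_lit 1) true (nat_lit 7) true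 (nat_lit 17) true (nat_lit 0) true (nat_lit 12) true (nat_lit 16) (.s false (nat_lit 2) (nat_lit 39) (nat_lit 2) (nat_lit 3) (nat_lit 2) true (nat_lit 11) true (nat_lit 16) false (nat_lit 0) true (nat_lit 16) true (nat_lit 15) (.s true (nat_lit 1) (nat_lit 39) (nat_lit 3) (nat_lit 2) (nat_lit 2) true (nat_lit 8) true (nat_lit 16) false (nat_lit 0) true (nat_lit 15) true (nat_lit 16) (.s true (nat_lit 2) (nat_lit 47) (nat_lit 0) (nat_lit 2) (nat_lit 4) true (nat_lit 10) true (nat_lit 14) false (nat_lit 2) true (nat_lit 18) true (nat_lit 16) (.s false (nat_lit 3) (nat_lit 45) (nat_lit 1) (nat_lit 1) (nat_lit 5) true (nat_lit 8) true (nat_lit 13) false (nat_lit 2) true (nat_lit 17) true (nat_lit 17) (.s false (nat_lit 1) (nat_lit 47) (nat_lit 1) (nat_lit 3) (nat_lit 2) true (nat_lit 12) true (nat_lit 16) false (nat_lit 2) true (nat_lit 17) true (nat_lit 15) (.s true (nat_lit 2) (nat_lit 47) (nat_lit 6) (nat_lit 0)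 (nat_lit 1) true (nat_lit 7) true (nat_lit 17) false (nat_lit 2) true (nat_lit 12) true (nat_lit 18) (.s false (nat_lit 3) (nat_lit 45) (nat_lit 6) (nat_lit 1) (nat_lit 0) true (nat_lit 8) true (nat_lit 18) false (nat_lit 2) true (nat_lit 12) true (nat_lit 17) (.s true (nat_lit 3) (nat_lit 48) (nat_lit 1) (nat_lit 3) (nat_lit 1) true (nat_lit 14) true (nat_lit 17) false (nat_lit 3) true (nat_lit 17) true (nat_lit 15) (.s true (nat_lit 1) (nat_lit 48) (nat_lit 3) (nat_lit 1) (nat_lit 1) true (nat_lit 10) true (nat_lit 17) false (nat_lit 3) true (nat_lit 15) true (nat_lit 17) (.s false (nat_lit 1) (nat_lit 48) (nat_lit 4) (nat_lit 0) (nat_lit 1) true (nat_lit 9) true (nat_lit 17) false (nat_lit 3) true (nat_lit 14) true (nat_lit 18) (.s false (nat_lit 1) (nat_lit 52) (nat_lit 2) (nat_lit 2) (nat_lit 2) true (nat_lit 11) true (nat_lit 16) false (nat_lit 4) true (nat_lit 16) true (nat_lit 16) (.s false (nat_lit 2)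 (nat_lit 53) (nat_lit 2) (nat_lit 2) (nat_lit 2) true (nat_lit 11) true (nat_lit 16) false (nat_lit 4) true (nat_lit 16) true (nat_lit 16) (.s true (nat_lit 1) (nat_lit 54) (nat_lit 2) (nat_lit 2) (nat_lit 2) true (nat_lit 11) true (nat_lit 16) false (nat_lit 4) true (nat_lit 16) true (nat_lit 16) (.s false (nat_lit 3) (nat_lit 55) (nat_lit 2) (nat_lit 2) (nat_lit 2) true (nat_lit 11) true (nat_lit 16) false (nat_lit 4) true (nat_lit 16) true (nat_lit 16) (.s false (nat_lit 2) (nat_lit 56) (nat_lit 2) (nat_lit 2) (nat_lit 2) true (nat_lit 11) true (nat_lit 16) false (nat_lit 4) true (nat_lit 16) true (nat_lit 16) (.s true (nat_lit 3) (nat_lit 57) (nat_lit 2) (nat_lit 2) (nat_lit 2) true (nat_lit 11) true (nat_lit 16) false (nat_lit 4) true (nat_lit 16) true (nat_lit 16) (.s true (nat_lit 2) (nat_lit 58) (nat_lit 2) (nat_lit 2) (nat_lit 2) true (nat_lit 11) true (nat_lit 16) false (nat_lit 4) true (nat_lit 16)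 true (nat_lit 16) (.s false (nat_lit 2) (nat_lit 59) (nat_lit 2) (nat_lit 2) (nat_lit 2) true (nat_lit 11) true (nat_lit 16) false (nat_lit 4) true (nat_lit 16) true (nat_lit 16) (.s true (nat_lit 3) (nat_lit 60) (nat_lit 1) (nat_lit 2) (nat_lit 2) true (nat_lit 12) true (nat_lit 16) false (nat_lit 5) true (nat_lit 17) true (nat_lit 16) dC2d_i248)))))))))))))))))))))))))

noncomputable def dC2d_i250 : IL := (.s false (nat_lit 3) (nat_lit 25) (nat_lit 1) (nat_lit 7) (nat_lit 2) true (nat_lit 12) true (nat_lit 16) true (nat_lit 2) true (nat_lit 17) true (nat_lit 11) (.s true (nat_lit 3) (nat_lit 26) (nat_lit 1) (nat_lit 7) (nat_lit 2) true (nat_lit 12) true (nat_lit 16) true (nat_lit 2) true (nat_lit 17) true (nat_lit 11) (.s false (nat_lit 1) (nat_lit 24) (nat_lit 2) (nat_lit 1) (nat_lit 7) true (nat_lit 4) true (nat_lit 11) true (nat_lit 2) true (nat_lit 16) true (nat_lit 17) (.s true (nat_lit 3) (nat_lit 24)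 (nat_lit 2) (nat_lit 2) (nat_lit 6) true (nat_lit 5) true (nat_lit 12) true (nat_lit 2) true (nat_lit 16) true (nat_lit 16) (.s true (nat_lit 3) (nat_lit 26) (nat_lit 2) (nat_lit 2) (nat_lit 6) true (nat_lit 5) true (nat_lit 12) true (nat_lit 2) true (nat_lit 16) true (nat_lit 16) (.s true (nat_lit 2) (nat_lit 27) (nat_lit 2) (nat_lit 2) (nat_lit 6) true (nat_lit 5) true (nat_lit 12) true (nat_lit 2) true (nat_lit 16) true (nat_lit 16) (.s true (nat_lit 2) (nat_lit 25) (nat_lit 2) (nat_lit 6) (nat_lit 2) true (nat_lit 11) true (nat_lit 16) true (nat_lit 2) true (nat_lit 16) true (nat_lit 12) (.s false (nat_lit 3) (nat_lit 28) (nat_lit 2) (nat_lit 6) (nat_lit 2) true (nat_lit 11) true (nat_lit 16) true (nat_lit 2) true (nat_lit 16) true (nat_lit 12) (.s true (nat_lit 2) (nat_lit 29) (nat_lit 2) (nat_lit 7) (nat_lit 1) true (nat_lit 12) true (nat_lit 17) true (nat_lit 2) true (nat_lit 16) true (nat_lit 11) (.s false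 (nat_lit 3) (nat_lit 24) (nat_lit 6) (nat_lit 2) (nat_lit 2) true (nat_lit 5) true (nat_lit 16) true (nat_lit 2) true (nat_lit 12) true (nat_lit 16) (.s false (nat_lit 3) (nat_lit 25) (nat_lit 6) (nat_lit 2) (nat_lit 2) true (nat_lit 5) true (nat_lit 16) true (nat_lit 2) true (nat_lit 12) true (nat_lit 16) (.s false (nat_lit 1) (nat_lit 26) (nat_lit 6) (nat_lit 2) (nat_lit 2) true (nat_lit 5) true (nat_lit 16) true (nat_lit 2) true (nat_lit 12) true (nat_lit 16) (.s false (nat_lit 3) (nat_lit 27) (nat_lit 6) (nat_lit 2) (nat_lit 2) true (nat_lit 5) true (nat_lit 16) true (nat_lit 2) true (nat_lit 12) true (nat_lit 16) (.s false (nat_lit 1) (nat_lit 29) (nat_lit 6) (nat_lit 2) (nat_lit 2) true (nat_lit 5) true (nat_lit 16) true (nat_lit 2) true (nat_lit 12) true (nat_lit 16) (.s true (nat_lit 1) (nat_lit 30) (nat_lit 0) (nat_lit 2) (nat_lit 7) true (nat_lit 6) true (nat_lit 11) true (nat_lit 1) true (nat_lit 18)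 true (nat_lit 16) (.s true (nat_lit 2) (nat_lit 30) (nat_lit 2) (nat_lit 2) (nat_lit 5) true (nat_lit 6) true (nat_lit 13) true (nat_lit 1) true (nat_lit 16) true (nat_lit 16) (.s true (nat_lit 2) (nat_lit 30) (nat_lit 2) (nat_lit 7) (nat_lit 0) true (nat_lit 13) true (nat_lit 18) true (nat_lit 1) true (nat_lit 16) true (nat_lit 11) (.s false (nat_lit 1) (nat_lit 30) (nat_lit 5) (nat_lit 2) (nat_lit 2) true (nat_lit 6) true (nat_lit 16) true (nat_lit 1) true (nat_lit 13) true (nat_lit 16) (.s true (nat_lit 1) (nat_lit 33) (nat_lit 1) (nat_lit 1) (nat_lit 7) true (nat_lit 5) true (nat_lit 11) true (nat_lit 0) true (nat_lit 17) true (nat_lit 17) (.s true (nat_lit 3) (nat_lit 33) (nat_lit 1) (nat_lit 2) (nat_lit 6) true (nat_lit 7) true (nat_lit 12) true (nat_lit 0) true (nat_lit 17) true (nat_lit 16) (.s false (nat_lit 3) (nat_lit 35) (nat_lit 1) (nat_lit 2) (nat_lit 6) true (nat_lit 7) true (nat_lit 12) true (nat_lit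 0) true (nat_lit 17) true (nat_lit 16) (.s true (nat_lit 2) (nat_lit 36) (nat_lit 1) (nat_lit 2) (nat_lit 6) true (nat_lit 7) true (nat_lit 12) true (nat_lit 0) true (nat_lit 17) true (nat_lit 16) (.s false (nat_lit 2) (nat_lit 38) (nat_lit 1) (nat_lit 2) (nat_lit 6) true (nat_lit 7) true (nat_lit 12) true (nat_lit 0) true (nat_lit 17) true (nat_lit 16) (.s false (nat_lit 1) (nat_lit 33) (nat_lit 1) (nat_lit 6) (nat_lit 2) true (nat_lit 12) true (nat_lit 16) true (nat_lit 0) true (nat_lit 17) true (nat_lit 12) (.s true (nat_lit 2) (nat_lit 33) (nat_lit 1) (nat_lit 7) (nat_lit 1) true (nat_lit 14) true (nat_lit 17) true (nat_lit 0) true (nat_lit 17) true (nat_lit 11) dC2d_i249)))))))))))))))))))))))))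

noncomputable def dC2d_i251 : IL := (.s false (nat_lit 2) (nat_lit 18) (nat_lit 2) (nat_lit 9) (nat_lit 2) true (nat_lit 11) true (nat_lit 16) true (nat_lit 5) true (nat_lit 16) true (nat_lit 10) (.s false (nat_lit 3) (nat_lit 18) (nat_lit 2) (nat_lit 11) (nat_lit 1) true (nat_lit 12) true (nat_lit 17) true (nat_lit 5) true (nat_lit 16) true (nat_lit 8) (.s true (nat_lit 3) (nat_lit 18) (nat_lit 2) (nat_lit 12) (nat_lit 1) true (nat_lit 12) true (nat_lit 17) true (nat_lit 5) true (nat_lit 16) true (nat_lit 8) (.s true (nat_lit 3) (nat_lit 18) (nat_lit 8) (nat_lit 2) (nat_lit 2) true (nat_lit 2) true (nat_lit 16) true (nat_lit 5) true (nat_lit 10) true (nat_lit 16) (.s true (nat_lit 2) (nat_lit 18) (nat_lit 9) (nat_lit 2) (nat_lit 2) true (nat_lit 2) true (nat_lit 16) true (nat_lit 5) true (nat_lit 10) true (nat_lit 16) (.s true (nat_lit 3) (nat_lit 19) (nat_lit 9) (nat_lit 2) (nat_lit 2) true (nat_lit 2) true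 (nat_lit 16) true (nat_lit 5) true (nat_lit 10) true (nat_lit 16) (.s false (nat_lit 2) (nat_lit 19) (nat_lit 11) (nat_lit 1) (nat_lit 2) true (nat_lit 0) true (nat_lit 16) true (nat_lit 5) true (nat_lit 8) true (nat_lit 17) (.s true (nat_lit 1) (nat_lit 20) (nat_lit 1) (nat_lit 3) (nat_lit 6) true (nat_lit 7) true (nat_lit 12) true (nat_lit 4) true (nat_lit 17) true (nat_lit 15) (.s true (nat_lit 2) (nat_lit 20) (nat_lit 2) (nat_lit 1) (nat_lit 8) true (nat_lit 2) true (nat_lit 10) true (nat_lit 4) true (nat_lit 16) true (nat_lit 17) (.s false (nat_lit 3) (nat_lit 20) (nat_lit 2) (nat_lit 9) (nat_lit 1) true (nat_lit 12) true (nat_lit 17) true (nat_lit 4) true (nat_lit 16) true (nat_lit 10) (.s true (nat_lit 3) (nat_lit 20) (nat_lit 3) (nat_lit 2) (nat_lit 4) true (nat_lit 3) true (nat_lit 14) true (nat_lit 4) true (nat_lit 15) true (nat_lit 16) (.s true (nat_lit 1) (nat_lit 20) (nat_lit 9) (nat_lit 2) (nat_lit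 1) true (nat_lit 3) true (nat_lit 17) true (nat_lit 4) true (nat_lit 10) true (nat_lit 16) (.s true (nat_lit 1) (nat_lit 20) (nat_lit 10) (nat_lit 2) (nat_lit 0) true (nat_lit 3) true (nat_lit 18) true (nat_lit 4) true (nat_lit 9) true (nat_lit 16) (.s true (nat_lit 2) (nat_lit 20) (nat_lit 11) (nat_lit 1) (nat_lit 1) true (nat_lit 2) true (nat_lit 17) true (nat_lit 4) true (nat_lit 8) true (nat_lit 17) (.s true (nat_lit 1) (nat_lit 21) (nat_lit 2) (nat_lit 2) (nat_lit 7) true (nat_lit 4) true (nat_lit 11) true (nat_lit 3) true (nat_lit 16) true (nat_lit 16) (.s false (nat_lit 1) (nat_lit 22) (nat_lit 2) (nat_lit 2) (nat_lit 7) true (nat_lit 4) true (nat_lit 11) true (nat_lit 3) true (nat_lit 16) true (nat_lit 16) (.s false (nat_lit 1) (nat_lit 23) (nat_lit 2) (nat_lit 2) (nat_lit 7) true (nat_lit 4) true (nat_lit 11) true (nat_lit 3) true (nat_lit 16) true (nat_lit 16) (.s true (nat_lit 1) (nat_lit 21) (nat_lit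 2) (nat_lit 7) (nat_lit 2) true (nat_lit 11) true (nat_lit 16) true (nat_lit 3) true (nat_lit 16) true (nat_lit 11) (.s true (nat_lit 3) (nat_lit 22) (nat_lit 2) (nat_lit 7) (nat_lit 2) true (nat_lit 11) true (nat_lit 16) true (nat_lit 3) true (nat_lit 16) true (nat_lit 11) (.s true (nat_lit 1) (nat_lit 23) (nat_lit 2) (nat_lit 7) (nat_lit 2) true (nat_lit 11) true (nat_lit 16) true (nat_lit 3) true (nat_lit 16) true (nat_lit 11) (.s false (nat_lit 2) (nat_lit 21) (nat_lit 7) (nat_lit 2) (nat_lit 2) true (nat_lit 4) true (nat_lit 16) true (nat_lit 3) true (nat_lit 11) true (nat_lit 16) (.s false (nat_lit 3) (nat_lit 23) (nat_lit 7) (nat_lit 2) (nat_lit 2) true (nat_lit 4) true (nat_lit 16) true (nat_lit 3) true (nat_lit 11) true (nat_lit 16) (.s true (nat_lit 2) (nat_lit 26) (nat_lit 1) (nat_lit 2) (nat_lit 7) true (nat_lit 5) true (nat_lit 11) true (nat_lit 2) true (nat_lit 17) true (nat_lit 16) (.s true (nat_lit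 2) (nat_lit 27) (nat_lit 1) (nat_lit 2) (nat_lit 7) true (nat_lit 5) true (nat_lit 11) true (nat_lit 2) true (nat_lit 17) true (nat_lit 16) (.s true (nat_lit 2) (nat_lit 24) (nat_lit 1) (nat_lit 7) (nat_lit 2) true (nat_lit 12) true (nat_lit 16) true (nat_lit 2) true (nat_lit 17) true (nat_lit 11) dC2d_i250)))))))))))))))))))))))))

noncomputable def dC2d_i252 : IL := (.s false (nat_lit 1) (nat_lit 9) (nat_lit 7) (nat_lit 1) (nat_lit 7) false (nat_lit 3) true (nat_lit 11) true (nat_lit 10) true (nat_lit 11) true (nat_lit 17) (.s true (nat_lit 2) (nat_lit 9) (nat_lit 7) (nat_lit 6) (nat_lit 2) true (nat_lit 4) true (nat_lit 16) true (nat_lit 10) true (nat_lit 11) true (nat_lit 12) (.s true (nat_lit 3) (nat_lit 8) (nat_lit 7) (nat_lit 7) (nat_lit 1) true (nat_lit 5) true (nat_lit 17) true (nat_lit 10) true (nat_lit 11) true (nat_lit 11) (.s false (nat_lit 1) (nat_lit 10) (nat_lit 2) (nat_lit 5) (nat_lit 7) true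 (nat_lit 4) true (nat_lit 11) true (nat_lit 9) true (nat_lit 16) true (nat_lit 13) (.s true (nat_lit 2) (nat_lit 10) (nat_lit 5) (nat_lit 2) (nat_lit 7) false (nat_lit 1) true (nat_lit 11) true (nat_lit 9) true (nat_lit 13) true (nat_lit 16) (.s true (nat_lit 1) (nat_lit 10) (nat_lit 7) (nat_lit 0) (nat_lit 7) false (nat_lit 3) true (nat_lit 11) true (nat_lit 9) true (nat_lit 11) true (nat_lit 18) (.s true (nat_lit 3) (nat_lit 10) (nat_lit 7) (nat_lit 5) (nat_lit 2) true (nat_lit 4) true (nat_lit 16) true (nat_lit 9) true (nat_lit 11) true (nat_lit 13) (.s false (nat_lit 3) (nat_lit 11) (nat_lit 1) (nat_lit 7) (nat_lit 6) true (nat_lit 7) true (nat_lit 12) true (nat_lit 8) true (nat_lit 17) true (nat_lit 11) (.s false (nat_lit 2) (nat_lit 11) (nat_lit 6) (nat_lit 1) (nat_lit 7) false (nat_lit 2) true (nat_lit 11) true (nat_lit 8) true (nat_lit 12) true (nat_lit 17) (.s false (nat_lit 1) (nat_lit 14) (nat_lit 2)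 (nat_lit 2) (nat_lit 11) true (nat_lit 0) true (nat_lit 8) true (nat_lit 7) true (nat_lit 16) true (nat_lit 16) (.s true (nat_lit 1) (nat_lit 14) (nat_lit 2) (nat_lit 3) (nat_lit 7) true (nat_lit 4) true (nat_lit 11) true (nat_lit 7) true (nat_lit 16) true (nat_lit 15) (.s true (nat_lit 3) (nat_lit 15) (nat_lit 2) (nat_lit 7) (nat_lit 3) true (nat_lit 8) true (nat_lit 15) true (nat_lit 7) true (nat_lit 16) true (nat_lit 11) (.s true (nat_lit 2) (nat_lit 15) (nat_lit 7) (nat_lit 3) (nat_lit 2) true (nat_lit 4) true (nat_lit 16) true (nat_lit 7) true (nat_lit 11) true (nat_lit 15) (.s false (nat_lit 1) (nat_lit 17) (nat_lit 2) (nat_lit 2) (nat_lit 10) true (nat_lit 1) true (nat_lit 9) true (nat_lit 6) true (nat_lit 16) true (nat_lit 16) (.s true (nat_lit 2) (nat_lit 16) (nat_lit 2) (nat_lit 14) (nat_lit 1) true (nat_lit 12) true (nat_lit 17) true (nat_lit 6) true (nat_lit 16) true (nat_lit 7) (.s true (nat_lit 1)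 (nat_lit 16) (nat_lit 10) (nat_lit 2) (nat_lit 2) true (nat_lit 1) true (nat_lit 16) true (nat_lit 6) true (nat_lit 9) true (nat_lit 16) (.s false (nat_lit 1) (nat_lit 17) (nat_lit 10) (nat_lit 2) (nat_lit 2) true (nat_lit 1) true (nat_lit 16) true (nat_lit 6) true (nat_lit 9) true (nat_lit 16) (.s true (nat_lit 1) (nat_lit 18) (nat_lit 0) (nat_lit 2) (nat_lit 15) true (nat_lit 2) true (nat_lit 7) true (nat_lit 5) true (nat_lit 18) true (nat_lit 16) (.s true (nat_lit 2) (nat_lit 18) (nat_lit 1) (nat_lit 2) (nat_lit 11) true (nat_lit 2) true (nat_lit 8) true (nat_lit 5) true (nat_lit 17) true (nat_lit 16) (.s false (nat_lit 3) (nat_lit 18) (nat_lit 1) (nat_lit 2) (nat_lit 12) true (nat_lit 2) true (nat_lit 8) true (nat_lit 5) true (nat_lit 17) true (nat_lit 16) (.s true (nat_lit 3) (nat_lit 18) (nat_lit 1) (nat_lit 11) (nat_lit 2) true (nat_lit 12) true (nat_lit 16) true (nat_lit 5) true (nat_lit 17) true (nat_lit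 8) (.s false (nat_lit 1) (nat_lit 18) (nat_lit 1) (nat_lit 12) (nat_lit 2) true (nat_lit 12) true (nat_lit 16) true (nat_lit 5) true (nat_lit 17) true (nat_lit 8) (.s false (nat_lit 3) (nat_lit 18) (nat_lit 2) (nat_lit 1) (nat_lit 12) true (nat_lit 0) true (nat_lit 8) true (nat_lit 5) true (nat_lit 16) true (nat_lit 17) (.s false (nat_lit 2) (nat_lit 18) (nat_lit 2) (nat_lit 2) (nat_lit 8) true (nat_lit 2) true (nat_lit 10) true (nat_lit 5) true (nat_lit 16) true (nat_lit 16) (.s false (nat_lit 1) (nat_lit 19) (nat_lit 2) (nat_lit 2) (nat_lit 8) true (nat_lit 2) true (nat_lit 10) true (nat_lit 5) true (nat_lit 16) true (nat_lit 16) dC2d_i251)))))))))))))))))))))))))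

noncomputable def dC2d_i253 : IL := (.e false (nat_lit 2) (nat_lit 295) (nat_lit 0) (nat_lit 18) (.e true (nat_lit 3) (nat_lit 296) (nat_lit 0) (nat_lit 18) (.e false (nat_lit 3) (nat_lit 297) (nat_lit 0) (nat_lit 18) (.e true (nat_lit 2) (nat_lit 298) (nat_lit 0) (nat_lit 18) (.e false (nat_lit 2) (nat_lit 300) (nat_lit 0) (nat_lit 18) (.e true (nat_lit 2) (nat_lit 301) (nat_lit 0) (nat_lit 18) (.e true (nat_lit 2) (nat_lit 303) (nat_lit 0) (nat_lit 18) (.e false (nat_lit 2) (nat_lit 304) (nat_lit 0) (nat_lit 18) (.e true (nat_lit 1) (nat_lit 259) (nat_lit 1) (nat_lit 17) (.e false (nat_lit 1) (nat_lit 260) (nat_lit 1) (nat_lit 17) (.e true (nat_lit 2) (nat_lit 261) (nat_lit 1) (nat_lit 17) (.e false (nat_lit 2) (nat_lit 267) (nat_lit 1) (nat_lit 17) (.e true (nat_lit 2) (nat_lit 270) (nat_lit 1) (nat_lit 17) (.e false (nat_lit 1) (nat_lit 275) (nat_lit 1) (nat_lit 17) (.e true (nat_lit 2) (nat_lit 279) (nat_lit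 1) (nat_lit 17) (.e true (nat_lit 1) (nat_lit 282) (nat_lit 1) (nat_lit 17) (.e true (nat_lit 2) (nat_lit 286) (nat_lit 1) (nat_lit 17) (.e false (nat_lit 2) (nat_lit 288) (nat_lit 1) (nat_lit 17) (.e false (nat_lit 2) (nat_lit 262) (nat_lit 1) (nat_lit 17) (.e true (nat_lit 1) (nat_lit 263) (nat_lit 1) (nat_lit 17) (.e true (nat_lit 2) (nat_lit 256) (nat_lit 1) (nat_lit 17) (.e true (nat_lit 2) (nat_lit 280) (nat_lit 1) (nat_lit 17) (.u (nat_lit 2) (.n (nat_lit 0) (nat_lit 6) (.p (nat_lit 1) (nat_lit 1) (.n (nat_lit 3) (nat_lit 2) (.n (nat_lit 4) (nat_lit 3) (.n (nat_lit 7) (nat_lit 1) (.p (nat_lit 8) (nat_lit 4) (.p (nat_lit 9) (nat_lit 4) (.p (nat_lit 10) (nat_lit 7) (.p (nat_lit 11) (nat_lit 1) (.n (nat_lit 12) (nat_lit 6) (.n (nat_lit 14) (nat_lit 1) (.n (nat_lit 15) (nat_lit 1) (.n (nat_lit 16) (nat_lit 1) (.n (nat_lit 17) (nat_lit 1) (.p (nat_lit 18) (nat_lit 1) (.n (nat_lit 19) (nat_lit 1) (.p (nat_lit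 20) (nat_lit 2) (.n (nat_lit 21) (nat_lit 1) (.p (nat_lit 22) (nat_lit 1) (.p (nat_lit 23) (nat_lit 2) (.p (nat_lit 24) (nat_lit 1) (.n (nat_lit 25) (nat_lit 5) (.p (nat_lit 26) (nat_lit 1) (.n (nat_lit 27) (nat_lit 1) (.p (nat_lit 28) (nat_lit 3) (.p (nat_lit 29) (nat_lit 2) (.n (nat_lit 31) (nat_lit 3) (.p (nat_lit 32) (nat_lit 2) (.n (nat_lit 33) (nat_lit 4) (.n (nat_lit 34) (nat_lit 3) (.n (nat_lit 35) (nat_lit 2) (.p (nat_lit 36) (nat_lit 5) (.n (nat_lit 37) (nat_lit 2) (.p (nat_lit 38) (nat_lit 4) (.n (nat_lit 39) (nat_lit 6) (.p (nat_lit 42) (nat_lit 2) (.p (nat_lit 44) (nat_lit 3) (.n (nat_lit 45) (nat_lit 1) (.p (nat_lit 46) (nat_lit 3) (.n (nat_lit 47) (nat_lit 5) (.p (nat_lit 49) (nat_lit 1) (.p (nat_lit 51) (nat_lit 1) (.n (nat_lit 52) (nat_lit 1) (.n (nat_lit 55) (nat_lit 1) (.n (nat_lit 63) (nat_lit 1) (.p (nat_lit 133) (nat_lit 1) (.p (nat_lit 184) (nat_lit 1) (.p (nat_lit 206) (nat_lit 1) (.n (nat_lit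 207) (nat_lit 1) (.p (nat_lit 208) (nat_lit 1) (.n (nat_lit 224) (nat_lit 1) (.n (nat_lit 226) (nat_lit 2) (.p (nat_lit 229) (nat_lit 1) (.p (nat_lit 230) (nat_lit 2) (.p (nat_lit 234) (nat_lit 2) (.n (nat_lit 235) (nat_lit 1) (.n (nat_lit 241) (nat_lit 1) (.n (nat_lit 251) (nat_lit 1) (.p (nat_lit 259) (nat_lit 1) (.p (nat_lit 302) (nat_lit 1) .z)))))))))))))))))))))))))))))))))))))))))))))))))))))))))))) (.u (nat_lit 2) (.n (nat_lit 304) (nat_lit 3) (.p (nat_lit 305) (nat_lit 2) (.n (nat_lit 306) (nat_lit 4) (.n (nat_lit 307) (nat_lit 1) (.n (nat_lit 308) (nat_lit 5) (.n (nat_lit 311) (nat_lit 3) (.p (nat_lit 312) (nat_lit 1) (.n (nat_lit 313) (nat_lit 9) (.n (nat_lit 314) (nat_lit 4) (.n (nat_lit 315) (nat_lit 1) (.n (nat_lit 316) (nat_lit 2) (.p (nat_lit 317) (nat_lit 3) (.n (nat_lit 318) (nat_lit 4) (.n (nat_lit 319) (nat_lit 2) (.p (nat_lit 322) (nat_lit 4) (.p (nat_lit 323) (nat_lit 5) (.p (nat_lit 324)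 (nat_lit 4) (.n (nat_lit 326) (nat_lit 2) (.p (nat_lit 327) (nat_lit 3) (.p (nat_lit 330) (nat_lit 1) (.n (nat_lit 335) (nat_lit 4) (.p (nat_lit 339) (nat_lit 3) (.p (nat_lit 342) (nat_lit 3) (.n (nat_lit 343) (nat_lit 4) (.n (nat_lit 344) (nat_lit 4) (.n (nat_lit 345) (nat_lit 3) (.n (nat_lit 348) (nat_lit 5) (.p (nat_lit 350) (nat_lit 1) (.p (nat_lit 351) (nat_lit 5) (.p (nat_lit 352) (nat_lit 5) (.p (nat_lit 353) (nat_lit 4) (.n (nat_lit 354) (nat_lit 5) (.p (nat_lit 356) (nat_lit 3) (.n (nat_lit 357) (nat_lit 3) (.n (nat_lit 358) (nat_lit 2) (.n (nat_lit 359) (nat_lit 2) (.p (nat_lit 360) (nat_lit 1) (.n (nat_lit 361) (nat_lit 1) (.p (nat_lit 362) (nat_lit 1) (.p (nat_lit 363) (nat_lit 4) (.p (nat_lit 364) (nat_lit 2) (.n (nat_lit 366) (nat_lit 2) (.p (nat_lit 367) (nat_lit 6) (.n (nat_lit 368) (nat_lit 4) (.p (nat_lit 369) (nat_lit 2) (.n (nat_lit 370) (nat_lit 4) (.n (nat_lit 371) (nat_lit 2) (.n (nat_lit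 372) (nat_lit 3) (.p (nat_lit 373) (nat_lit 2) (.p (nat_lit 374) (nat_lit 7) (.p (nat_lit 375) (nat_lit 3) (.p (nat_lit 376) (nat_lit 2) (.n (nat_lit 377) (nat_lit 2) (.p (nat_lit 379) (nat_lit 3) (.n (nat_lit 380) (nat_lit 1) (.p (nat_lit 382) (nat_lit 1) (.p (nat_lit 383) (nat_lit 4) (.p (nat_lit 384) (nat_lit 1) (.n (nat_lit 385) (nat_lit 2) (.p (nat_lit 386) (nat_lit 1) .z)))))))))))))))))))))))))))))))))))))))))))))))))))))))))))) (.u (nat_lit 2) (.p (nat_lit 387) (nat_lit 1) (.n (nat_lit 389) (nat_lit 2) (.p (nat_lit 390) (nat_lit 1) (.p (nat_lit 393) (nat_lit 1) (.n (nat_lit 394) (nat_lit 1) (.n (nat_lit 397) (nat_lit 2) (.p (nat_lit 398) (nat_lit 2) .z))))))) .nil)))))))))))))))))))))))))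

noncomputable def dC2d_i254 : IL := (.e true (nat_lit 3) (nat_lit 221) (nat_lit 2) (nat_lit 16) (.e false (nat_lit 3) (nat_lit 246) (nat_lit 2) (nat_lit 16) (.e false (nat_lit 3) (nat_lit 247) (nat_lit 2) (nat_lit 16) (.e true (nat_lit 3) (nat_lit 254) (nat_lit 1) (nat_lit 17) (.e true (nat_lit 1) (nat_lit 258) (nat_lit 1) (nat_lit 17) (.e true (nat_lit 3) (nat_lit 264) (nat_lit 1) (nat_lit 17) (.e true (nat_lit 1) (nat_lit 265) (nat_lit 1) (nat_lit 17) (.e true (nat_lit 2) (nat_lit 266) (nat_lit 1) (nat_lit 17) (.e false (nat_lit 1) (nat_lit 269) (nat_lit 1) (nat_lit 17) (.e true (nat_lit 1) (nat_lit 274) (nat_lit 1) (nat_lit 17) (.e true (nat_lit 2) (nat_lit 278) (nat_lit 1) (nat_lit 17) (.e true (nat_lit 2) (nat_lit 285) (nat_lit 1) (nat_lit 17) (.e true (nat_lit 1) (nat_lit 253) (nat_lit 1) (nat_lit 17) (.e false (nat_lit 3) (nat_lit 255) (nat_lit 1) (nat_lit 17) (.e false (nat_lit 1) (nat_lit 257) (nat_lit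 1) (nat_lit 17) (.e true (nat_lit 1) (nat_lit 277) (nat_lit 1) (nat_lit 17) (.e true (nat_lit 2) (nat_lit 287) (nat_lit 1) (nat_lit 17) (.e false (nat_lit 2) (nat_lit 62) (nat_lit 18) (nat_lit 5) (.e false (nat_lit 2) (nat_lit 111) (nat_lit 7) (nat_lit 11) (.e false (nat_lit 1) (nat_lit 289) (nat_lit 0) (nat_lit 18) (.e true (nat_lit 3) (nat_lit 290) (nat_lit 0) (nat_lit 18) (.e false (nat_lit 2) (nat_lit 291) (nat_lit 0) (nat_lit 18) (.e false (nat_lit 2) (nat_lit 292) (nat_lit 0) (nat_lit 18) (.e true (nat_lit 1) (nat_lit 293) (nat_lit 0) (nat_lit 18) (.e true (nat_lit 2) (nat_lit 294) (nat_lit 0) (nat_lit 18) dC2d_i253)))))))))))))))))))))))))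

noncomputable def dC2d_i255 : IL := (.e true (nat_lit 1) (nat_lit 242) (nat_lit 2) (nat_lit 16) (.e false (nat_lit 2) (nat_lit 208) (nat_lit 2) (nat_lit 16) (.e false (nat_lit 3) (nat_lit 216) (nat_lit 2) (nat_lit 16) (.e true (nat_lit 2) (nat_lit 144) (nat_lit 6) (nat_lit 12) (.e true (nat_lit 3) (nat_lit 205) (nat_lit 2) (nat_lit 16) (.e true (nat_lit 1) (nat_lit 215) (nat_lit 2) (nat_lit 16) (.e false (nat_lit 3) (nat_lit 251) (nat_lit 2) (nat_lit 16) (.e false (nat_lit 3) (nat_lit 206) (nat_lit 2) (nat_lit 16) (.e false (nat_lit 3) (nat_lit 209) (nat_lit 2) (nat_lit 16) (.e false (nat_lit 2) (nat_lit 210) (nat_lit 2) (nat_lit 16) (.e true (nat_lit 3) (nat_lit 213) (nat_lit 2) (nat_lit 16) (.e false (nat_lit 1) (nat_lit 214) (nat_lit 2) (nat_lit 16) (.e false (nat_lit 2) (nat_lit 217) (nat_lit 2) (nat_lit 16) (.e false (nat_lit 3) (nat_lit 218) (nat_lit 2) (nat_lit 16) (.e true (nat_lit 3) (nat_lit 219) (nat_lit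 2) (nat_lit 16) (.e true (nat_lit 1) (nat_lit 220) (nat_lit 2) (nat_lit 16) (.e false (nat_lit 3) (nat_lit 226) (nat_lit 2) (nat_lit 16) (.e true (nat_lit 1) (nat_lit 229) (nat_lit 2) (nat_lit 16) (.e false (nat_lit 3) (nat_lit 230) (nat_lit 2) (nat_lit 16) (.e true (nat_lit 1) (nat_lit 231) (nat_lit 2) (nat_lit 16) (.e true (nat_lit 2) (nat_lit 233) (nat_lit 2) (nat_lit 16) (.e true (nat_lit 1) (nat_lit 235) (nat_lit 2) (nat_lit 16) (.e false (nat_lit 1) (nat_lit 138) (nat_lit 6) (nat_lit 12) (.e false (nat_lit 2) (nat_lit 134) (nat_lit 6) (nat_lit 12) (.e false (nat_lit 2) (nat_lit 211) (nat_lit 2) (nat_lit 16) dC2d_i254)))))))))))))))))))))))))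

noncomputable def dC2d_i256 : IL := (.s true (nat_lit 2) (nat_lit 33) (nat_lit 2) (nat_lit 1) (nat_lit 6) true (nat_lit 5) true (nat_lit 12) true (nat_lit 0) true (nat_lit 16) true (nat_lit 17) (.s true (nat_lit 2) (nat_lit 33) (nat_lit 4) (nat_lit 2) (nat_lit 2) true (nat_lit 7) true (nat_lit 16) true (nat_lit 0) true (nat_lit 14) true (nat_lit 16) (.s true (nat_lit 2) (nat_lit 46) (nat_lit 1) (nat_lit 3) (nat_lit 2) true (nat_lit 12) true (nat_lit 16) false (nat_lit 2) true (nat_lit 17) true (nat_lit 15) (.s false (nat_lit 2) (nat_lit 47) (nat_lit 1) (nat_lit 3) (nat_lit 2) true (nat_lit 12) true (nat_lit 16) false (nat_lit 2) true (nat_lit 17) true (nat_lit 15) (.s false (nat_lit 2) (nat_lit 54) (nat_lit 2) (nat_lit 2) (nat_lit 2) true (nat_lit 11) true (nat_lit 16) false (nat_lit 4) true (nat_lit 16) true (nat_lit 16) (.s true (nat_lit 1) (nat_lit 60) (nat_lit 1) (nat_lit 2) (nat_lit 2) true (nat_lit 12)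 true (nat_lit 16) false (nat_lit 5) true (nat_lit 17) true (nat_lit 16) (.s true (nat_lit 1) (nat_lit 66) (nat_lit 1) (nat_lit 2) (nat_lit 2) true (nat_lit 12) true (nat_lit 16) false (nat_lit 5) true (nat_lit 17) true (nat_lit 16) (.s true (nat_lit 1) (nat_lit 72) (nat_lit 1) (nat_lit 2) (nat_lit 2) true (nat_lit 12) true (nat_lit 16) false (nat_lit 5) true (nat_lit 17) true (nat_lit 16) (.s true (nat_lit 2) (nat_lit 62) (nat_lit 2) (nat_lit 1) (nat_lit 2) true (nat_lit 11) true (nat_lit 16) false (nat_lit 5) true (nat_lit 16) true (nat_lit 17) (.s false (nat_lit 1) (nat_lit 66) (nat_lit 2) (nat_lit 1) (nat_lit 2) true (nat_lit 11) true (nat_lit 16) false (nat_lit 5) true (nat_lit 16) true (nat_lit 17) (.s true (nat_lit 3) (nat_lit 72) (nat_lit 2) (nat_lit 1) (nat_lit 2) true (nat_lit 11) true (nat_lit 16) false (nat_lit 5) true (nat_lit 16) true (nat_lit 17) (.s true (nat_lit 3) (nat_lit 73) (nat_lit 2) (nat_lit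 1) (nat_lit 2) true (nat_lit 11) true (nat_lit 16) false (nat_lit 5) true (nat_lit 16) true (nat_lit 17) (.s true (nat_lit 1) (nat_lit 66) (nat_lit 2) (nat_lit 2) (nat_lit 1) true (nat_lit 12) true (nat_lit 17) false (nat_lit 5) true (nat_lit 16) true (nat_lit 16) (.s true (nat_lit 3) (nat_lit 72) (nat_lit 2) (nat_lit 2) (nat_lit 1) true (nat_lit 12) true (nat_lit 17) false (nat_lit 5) true (nat_lit 16) true (nat_lit 16) (.s false (nat_lit 2) (nat_lit 80) (nat_lit 1) (nat_lit 1) (nat_lit 2) true (nat_lit 12) true (nat_lit 16) false (nat_lit 7) true (nat_lit 17) true (nat_lit 17) (.s true (nat_lit 2) (nat_lit 88) (nat_lit 1) (nat_lit 2) (nat_lit 1) true (nat_lit 14) true (nat_lit 17) false (nat_lit 7) true (nat_lit 17) true (nat_lit 16) (.s true (nat_lit 1) (nat_lit 88) (nat_lit 2) (nat_lit 1) (nat_lit 1) true (nat_lit 12) true (nat_lit 17) false (nat_lit 7) true (nat_lit 16) true (nat_lit 17) (.s true (nat_lit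 2) (nat_lit 96) (nat_lit 0) (nat_lit 1) (nat_lit 2) true (nat_lit 13) true (nat_lit 16) false (nat_lit 8) true (nat_lit 18) true (nat_lit 17) (.s true (nat_lit 2) (nat_lit 96) (nat_lit 1) (nat_lit 2) (nat_lit 0) true (nat_lit 15) true (nat_lit 18) false (nat_lit 8) true (nat_lit 17) true (nat_lit 16) (.s false (nat_lit 2) (nat_lit 96) (nat_lit 2) (nat_lit 1) (nat_lit 0) true (nat_lit 13) true (nat_lit 18) false (nat_lit 8) true (nat_lit 16) true (nat_lit 17) (.s true (nat_lit 2) (nat_lit 102) (nat_lit 0) (nat_lit 1) (nat_lit 1) true (nat_lit 15) true (nat_lit 17) false (nat_lit 10) true (nat_lit 18) true (nat_lit 17) (.s false (nat_lit 2) (nat_lit 103) (nat_lit 0) (nat_lit 1) (nat_lit 1) true (nat_lit 15) true (nat_lit 17) false (nat_lit 10) true (nat_lit 18) true (nat_lit 17) (.e false (nat_lit 1) (nat_lit 130) (nat_lit 7) (nat_lit 11) (.e false (nat_lit 1) (nat_lit 129) (nat_lit 7) (nat_lit 11) (.e false (nat_lit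 2) (nat_lit 227) (nat_lit 2) (nat_lit 16) dC2d_i255)))))))))))))))))))))))))

noncomputable def dC2d_i257 : IL := (.e true (nat_lit 3) (nat_lit 259) (nat_lit 1) (nat_lit 17) (.e false (nat_lit 3) (nat_lit 260) (nat_lit 1) (nat_lit 17) (.e true (nat_lit 3) (nat_lit 278) (nat_lit 1) (nat_lit 17) (.e true (nat_lit 1) (nat_lit 280) (nat_lit 1) (nat_lit 17) (.e true (nat_lit 3) (nat_lit 289) (nat_lit 0) (nat_lit 18) (.e true (nat_lit 1) (nat_lit 290) (nat_lit 0) (nat_lit 18) (.e true (nat_lit 2) (nat_lit 291) (nat_lit 0) (nat_lit 18) (.e true (nat_lit 1) (nat_lit 292) (nat_lit 0) (nat_lit 18) (.e true (nat_lit 1) (nat_lit 293) (nat_lit 0) (nat_lit 18) (.e true (nat_lit 2) (nat_lit 294) (nat_lit 0) (nat_lit 18) (.e true (nat_lit 1) (nat_lit 295) (nat_lit 0) (nat_lit 18) (.e true (nat_lit 2) (nat_lit 297) (nat_lit 0) (nat_lit 18) (.e true (nat_lit 3) (nat_lit 299) (nat_lit 0) (nat_lit 18) (.e true (nat_lit 1) (nat_lit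 301) (nat_lit 0) (nat_lit 18) (.e true (nat_lit 2) (nat_lit 303) (nat_lit 0) (nat_lit 18) (.e true (nat_lit 1) (nat_lit 261) (nat_lit 1) (nat_lit 17) (.e false (nat_lit 1) (nat_lit 275) (nat_lit 1) (nat_lit 17) (.e true (nat_lit 1) (nat_lit 279) (nat_lit 1) (nat_lit 17) (.e false (nat_lit 3) (nat_lit 300) (nat_lit 0) (nat_lit 18) (.e true (nat_lit 3) (nat_lit 170) (nat_lit 4) (nat_lit 14) (.e true (nat_lit 3) (nat_lit 282) (nat_lit 1) (nat_lit 17) (.u (nat_lit 2) (.n (nat_lit 0) (nat_lit 2) (.p (nat_lit 1) (nat_lit 2) (.n (nat_lit 2) (nat_lit 1) (.n (nat_lit 4) (nat_lit 2) (.n (nat_lit 5) (nat_lit 1) (.n (nat_lit 6) (nat_lit 2) (.n (nat_lit 7) (nat_lit 1) (.n (nat_lit 10) (nat_lit 1) (.n (nat_lit 11) (nat_lit 3) (.p (nat_lit 14) (nat_lit 1) (.n (nat_lit 15) (nat_lit 1) (.n (nat_lit 18) (nat_lit 1) (.p (nat_lit 19) (nat_lit 1) (.p (nat_lit 21) (nat_lit 1) (.n (nat_lit 22) (nat_lit 1) (.n (nat_lit 23) (nat_lit 3)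 (.n (nat_lit 24) (nat_lit 2) (.p (nat_lit 25) (nat_lit 4) (.n (nat_lit 26) (nat_lit 1) (.p (nat_lit 27) (nat_lit 1) (.n (nat_lit 29) (nat_lit 1) (.p (nat_lit 31) (nat_lit 1) (.n (nat_lit 32) (nat_lit 2) (.p (nat_lit 33) (nat_lit 1) (.p (nat_lit 37) (nat_lit 3) (.n (nat_lit 38) (nat_lit 1) (.n (nat_lit 41) (nat_lit 1) (.n (nat_lit 42) (nat_lit 1) (.n (nat_lit 45) (nat_lit 2) (.n (nat_lit 46) (nat_lit 1) (.p (nat_lit 47) (nat_lit 3) (.p (nat_lit 48) (nat_lit 2) (.n (nat_lit 67) (nat_lit 1) (.n (nat_lit 74) (nat_lit 1) (.p (nat_lit 78) (nat_lit 1) (.n (nat_lit 93) (nat_lit 2) (.p (nat_lit 94) (nat_lit 1) (.n (nat_lit 95) (nat_lit 1) (.n (nat_lit 96) (nat_lit 1) (.p (nat_lit 97) (nat_lit 1) (.n (nat_lit 104) (nat_lit 1) (.n (nat_lit 108) (nat_lit 1) (.n (nat_lit 109) (nat_lit 1) (.n (nat_lit 110) (nat_lit 1) (.p (nat_lit 112) (nat_lit 1) (.p (nat_lit 113) (nat_lit 1) (.n (nat_lit 115) (nat_lit 1) (.n (nat_lit 124)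 (nat_lit 1) (.p (nat_lit 127) (nat_lit 1) (.p (nat_lit 128) (nat_lit 1) (.n (nat_lit 131) (nat_lit 1) (.n (nat_lit 132) (nat_lit 1) (.n (nat_lit 133) (nat_lit 2) (.n (nat_lit 137) (nat_lit 1) (.p (nat_lit 141) (nat_lit 1) (.n (nat_lit 147) (nat_lit 1) (.n (nat_lit 172) (nat_lit 1) (.n (nat_lit 175) (nat_lit 1) (.p (nat_lit 176) (nat_lit 1) (.n (nat_lit 183) (nat_lit 1) .z)))))))))))))))))))))))))))))))))))))))))))))))))))))))))))) (.u (nat_lit 2) (.n (nat_lit 184) (nat_lit 2) (.p (nat_lit 185) (nat_lit 1) (.n (nat_lit 186) (nat_lit 1) (.p (nat_lit 202) (nat_lit 1) (.p (nat_lit 203) (nat_lit 1) (.p (nat_lit 206) (nat_lit 1) (.p (nat_lit 212) (nat_lit 1) (.p (nat_lit 213) (nat_lit 4) (.n (nat_lit 216) (nat_lit 5) (.p (nat_lit 217) (nat_lit 2) (.n (nat_lit 219) (nat_lit 1) (.n (nat_lit 220) (nat_lit 2) (.p (nat_lit 221) (nat_lit 1) (.p (nat_lit 222) (nat_lit 2) (.p (nat_lit 223) (nat_lit 3) (.p (nat_lit 224) (nat_lit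 5) (.p (nat_lit 225) (nat_lit 1) (.p (nat_lit 226) (nat_lit 3) (.p (nat_lit 227) (nat_lit 2) (.p (nat_lit 228) (nat_lit 1) (.n (nat_lit 230) (nat_lit 6) (.p (nat_lit 232) (nat_lit 2) (.n (nat_lit 233) (nat_lit 1) (.n (nat_lit 234) (nat_lit 6) (.n (nat_lit 235) (nat_lit 1) (.n (nat_lit 236) (nat_lit 2) (.n (nat_lit 237) (nat_lit 3) (.n (nat_lit 238) (nat_lit 1) (.p (nat_lit 240) (nat_lit 1) (.p (nat_lit 242) (nat_lit 2) (.p (nat_lit 243) (nat_lit 1) (.n (nat_lit 245) (nat_lit 1) (.n (nat_lit 247) (nat_lit 1) (.n (nat_lit 248) (nat_lit 1) (.n (nat_lit 250) (nat_lit 2) (.p (nat_lit 251) (nat_lit 2) (.n (nat_lit 252) (nat_lit 1) (.n (nat_lit 260) (nat_lit 1) (.p (nat_lit 279) (nat_lit 3) (.n (nat_lit 281) (nat_lit 1) (.n (nat_lit 282) (nat_lit 1) (.n (nat_lit 283) (nat_lit 1) (.n (nat_lit 284) (nat_lit 1) (.p (nat_lit 285) (nat_lit 1) (.p (nat_lit 286) (nat_lit 2) (.n (nat_lit 288) (nat_lit 1) (.p (nat_lit 292) (nat_lit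 2) (.n (nat_lit 293) (nat_lit 3) (.n (nat_lit 294) (nat_lit 1) (.n (nat_lit 295) (nat_lit 3) (.p (nat_lit 296) (nat_lit 1) (.p (nat_lit 297) (nat_lit 2) (.p (nat_lit 300) (nat_lit 2) (.p (nat_lit 302) (nat_lit 6) (.n (nat_lit 303) (nat_lit 17) (.n (nat_lit 305) (nat_lit 9) (.p (nat_lit 306) (nat_lit 12) (.n (nat_lit 307) (nat_lit 11) (.p (nat_lit 308) (nat_lit 2) (.p (nat_lit 309) (nat_lit 6) .z)))))))))))))))))))))))))))))))))))))))))))))))))))))))))))) (.u (nat_lit 2) (.p (nat_lit 310) (nat_lit 5) (.n (nat_lit 311) (nat_lit 5) (.p (nat_lit 312) (nat_lit 1) (.p (nat_lit 313) (nat_lit 12) (.p (nat_lit 314) (nat_lit 6) (.p (nat_lit 315) (nat_lit 22) (.p (nat_lit 316) (nat_lit 24) (.n (nat_lit 317) (nat_lit 9) (.n (nat_lit 318) (nat_lit 11) (.p (nat_lit 319) (nat_lit 10) (.n (nat_lit 320) (nat_lit 1) (.p (nat_lit 321) (nat_lit 3) (.p (nat_lit 322) (nat_lit 2) (.n (nat_lit 323) (nat_lit 8) (.n (nat_lit 324) (nat_lit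 15) (.n (nat_lit 325) (nat_lit 11) (.n (nat_lit 326) (nat_lit 3) (.p (nat_lit 327) (nat_lit 11) (.p (nat_lit 328) (nat_lit 4) (.n (nat_lit 329) (nat_lit 7) (.n (nat_lit 330) (nat_lit 3) (.p (nat_lit 332) (nat_lit 4) (.p (nat_lit 333) (nat_lit 1) (.n (nat_lit 335) (nat_lit 3) (.p (nat_lit 336) (nat_lit 4) (.p (nat_lit 337) (nat_lit 1) (.n (nat_lit 339) (nat_lit 18) (.n (nat_lit 340) (nat_lit 9) (.n (nat_lit 341) (nat_lit 10) (.p (nat_lit 342) (nat_lit 13) (.p (nat_lit 343) (nat_lit 8) (.p (nat_lit 344) (nat_lit 4) (.n (nat_lit 345) (nat_lit 12) (.p (nat_lit 346) (nat_lit 3) (.n (nat_lit 347) (nat_lit 10) (.n (nat_lit 348) (nat_lit 19) (.n (nat_lit 349) (nat_lit 8) (.n (nat_lit 350) (nat_lit 8) (.p (nat_lit 351) (nat_lit 21) (.n (nat_lit 352) (nat_lit 1) (.n (nat_lit 353) (nat_lit 5) (.p (nat_lit 354) (nat_lit 7) (.n (nat_lit 355) (nat_lit 8) (.p (nat_lit 356) (nat_lit 4) (.p (nat_lit 357) (nat_lit 2) (.n (nat_lit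 358) (nat_lit 12) (.n (nat_lit 359) (nat_lit 15) (.p (nat_lit 360) (nat_lit 8) (.p (nat_lit 361) (nat_lit 7) (.p (nat_lit 362) (nat_lit 10) (.n (nat_lit 363) (nat_lit 4) (.p (nat_lit 364) (nat_lit 2) (.p (nat_lit 366) (nat_lit 4) (.p (nat_lit 367) (nat_lit 8) (.n (nat_lit 368) (nat_lit 9) (.n (nat_lit 369) (nat_lit 8) (.n (nat_lit 370) (nat_lit 12) (.p (nat_lit 371) (nat_lit 10) (.p (nat_lit 372) (nat_lit 18) (.p (nat_lit 373) (nat_lit 8) .z)))))))))))))))))))))))))))))))))))))))))))))))))))))))))))) (.u (nat_lit 2) (.n (nat_lit 374) (nat_lit 2) (.n (nat_lit 376) (nat_lit 1) (.n (nat_lit 377) (nat_lit 5) (.n (nat_lit 379) (nat_lit 6) (.p (nat_lit 380) (nat_lit 9) (.n (nat_lit 381) (nat_lit 1) (.n (nat_lit 382) (nat_lit 1) (.p (nat_lit 383) (nat_lit 2) (.n (nat_lit 384) (nat_lit 3) (.n (nat_lit 386) (nat_lit 4) (.n (nat_lit 387) (nat_lit 2) (.p (nat_lit 388) (nat_lit 3) (.p (nat_lit 389) (nat_lit 2) (.n (nat_lit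 391) (nat_lit 1) (.n (nat_lit 392) (nat_lit 2) (.p (nat_lit 393) (nat_lit 4) (.p (nat_lit 394) (nat_lit 1) (.p (nat_lit 397) (nat_lit 3) (.p (nat_lit 398) (nat_lit 1) (.n (nat_lit 399) (nat_lit 2) (.n (nat_lit 400) (nat_lit 4) (.p (nat_lit 401) (nat_lit 4) .z)))))))))))))))))))))) .nil)))))))))))))))))))))))))

noncomputable def dC2d_i258 : IL := (.e false (nat_lit 2) (nat_lit 252) (nat_lit 1) (nat_lit 17) (.e true (nat_lit 2) (nat_lit 253) (nat_lit 1) (nat_lit 17) (.e true (nat_lit 3) (nat_lit 254) (nat_lit 1) (nat_lit 17) (.e false (nat_lit 3) (nat_lit 258) (nat_lit 1) (nat_lit 17) (.e true (nat_lit 2) (nat_lit 263) (nat_lit 1) (nat_lit 17) (.e true (nat_lit 2) (nat_lit 265) (nat_lit 1) (nat_lit 17) (.e true (nat_lit 3) (nat_lit 267) (nat_lit 1) (nat_lit 17) (.e true (nat_lit 2) (nat_lit 270) (nat_lit 1) (nat_lit 17) (.e false (nat_lit 1) (nat_lit 271) (nat_lit 1) (nat_lit 17) (.e false (nat_lit 3) (nat_lit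 272) (nat_lit 1) (nat_lit 17) (.e true (nat_lit 2) (nat_lit 273) (nat_lit 1) (nat_lit 17) (.e true (nat_lit 1) (nat_lit 276) (nat_lit 1) (nat_lit 17) (.e false (nat_lit 1) (nat_lit 277) (nat_lit 1) (nat_lit 17) (.e true (nat_lit 1) (nat_lit 255) (nat_lit 1) (nat_lit 17) (.e false (nat_lit 1) (nat_lit 264) (nat_lit 1) (nat_lit 17) (.e false (nat_lit 2) (nat_lit 266) (nat_lit 1) (nat_lit 17) (.e false (nat_lit 2) (nat_lit 211) (nat_lit 2) (nat_lit 16) (.e true (nat_lit 3) (nat_lit 230) (nat_lit 2) (nat_lit 16) (.e true (nat_lit 3) (nat_lit 298) (nat_lit 0) (nat_lit 18) (.e true (nat_lit 2) (nat_lit 212) (nat_lit 2) (nat_lit 16) (.e false (nat_lit 2) (nat_lit 210) (nat_lit 2) (nat_lit 16) (.e false (nat_lit 1) (nat_lit 235) (nat_lit 2) (nat_lit 16) (.e true (nat_lit 2) (nat_lit 257) (nat_lit 1) (nat_lit 17) (.e false (nat_lit 1) (nat_lit 274) (nat_lit 1) (nat_lit 17) (.e false (nat_lit 1) (nat_lit 256) (nat_lit 1)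 (nat_lit 17) dC2d_i257)))))))))))))))))))))))))

noncomputable def dC2d_i259 : IL := (.s false (nat_lit 3) (nat_lit 87) (nat_lit 1) (nat_lit 2) (nat_lit 1) true (nat_lit 14) true (nat_lit 17) false (nat_lit 7) true (nat_lit 17) true (nat_lit 16) (.s true (nat_lit 1) (nat_lit 88) (nat_lit 1) (nat_lit 2) (nat_lit 1) true (nat_lit 14) true (nat_lit 17) false (nat_lit 7) true (nat_lit 17) true (nat_lit 16) (.s true (nat_lit 3) (nat_lit 89) (nat_lit 1) (nat_lit 2) (nat_lit 1) true (nat_lit 14) true (nat_lit 17) false (nat_lit 7) true (nat_lit 17) true (nat_lit 16) (.s false (nat_lit 1) (nat_lit 80) (nat_lit 2) (nat_lit 1) (nat_lit 1) true (nat_lit 12) true (nat_lit 17) false (nat_lit 7) true (nat_lit 16) true (nat_lit 17) (.s false (nat_lit 1) (nat_lit 92) (nat_lit 0) (nat_lit 1) (nat_lit 2) true (nat_lit 13) true (nat_lit 16) false (nat_lit 8) true (nat_lit 18) true (nat_lit 17) (.s false (nat_lit 1) (nat_lit 93)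 (nat_lit 0) (nat_lit 1) (nat_lit 2) true (nat_lit 13) true (nat_lit 16) false (nat_lit 8) true (nat_lit 18) true (nat_lit 17) (.s false (nat_lit 1) (nat_lit 96) (nat_lit 0) (nat_lit 1) (nat_lit 2) true (nat_lit 13) true (nat_lit 16) false (nat_lit 8) true (nat_lit 18) true (nat_lit 17) (.s false (nat_lit 2) (nat_lit 91) (nat_lit 0) (nat_lit 2) (nat_lit 1) true (nat_lit 15) true (nat_lit 17) false (nat_lit 8) true (nat_lit 18) true (nat_lit 16) (.s false (nat_lit 2) (nat_lit 92) (nat_lit 1) (nat_lit 2) (nat_lit 0) true (nat_lit 15) true (nat_lit 18) false (nat_lit 8) true (nat_lit 17) true (nat_lit 16) (.s false (nat_lit 1) (nat_lit 92) (nat_lit 2) (nat_lit 1) (nat_lit 0) true (nat_lit 13) true (nat_lit 18) false (nat_lit 8) true (nat_lit 16) true (nat_lit 17) (.s false (nat_lit 1) (nat_lit 98) (nat_lit 1) (nat_lit 1) (nat_lit 1) true (nat_lit 14) true (nat_lit 17) false (nat_lit 9) true (nat_lit 17) true (nat_lit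 17) (.s true (nat_lit 1) (nat_lit 100) (nat_lit 1) (nat_lit 1) (nat_lit 1) true (nat_lit 14) true (nat_lit 17) false (nat_lit 9) true (nat_lit 17) true (nat_lit 17) (.s false (nat_lit 1) (nat_lit 101) (nat_lit 0) (nat_lit 1) (nat_lit 1) true (nat_lit 15) true (nat_lit 17) false (nat_lit 10) true (nat_lit 18) true (nat_lit 17) (.s false (nat_lit 3) (nat_lit 102) (nat_lit 0) (nat_lit 1) (nat_lit 1) true (nat_lit 15) true (nat_lit 17) false (nat_lit 10) true (nat_lit 18) true (nat_lit 17) (.s true (nat_lit 1) (nat_lit 103) (nat_lit 0) (nat_lit 1) (nat_lit 1) true (nat_lit 15) true (nat_lit 17) false (nat_lit 10) true (nat_lit 18) true (nat_lit 17) (.s true (nat_lit 3) (nat_lit 104) (nat_lit 0) (nat_lit 1) (nat_lit 1) true (nat_lit 15) true (nat_lit 17) false (nat_lit 10) true (nat_lit 18) true (nat_lit 17) (.s false (nat_lit 3) (nat_lit 101) (nat_lit 1) (nat_lit 1) (nat_lit 0) true (nat_lit 15) true (nat_lit 18)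 false (nat_lit 10) true (nat_lit 17) true (nat_lit 17) (.s false (nat_lit 2) (nat_lit 102) (nat_lit 1) (nat_lit 1) (nat_lit 0) true (nat_lit 15) true (nat_lit 18) false (nat_lit 10) true (nat_lit 17) true (nat_lit 17) (.s false (nat_lit 1) (nat_lit 103) (nat_lit 1) (nat_lit 1) (nat_lit 0) true (nat_lit 15) true (nat_lit 18) false (nat_lit 10) true (nat_lit 17) true (nat_lit 17) (.e true (nat_lit 3) (nat_lit 207) (nat_lit 2) (nat_lit 16) (.e false (nat_lit 3) (nat_lit 209) (nat_lit 2) (nat_lit 16) (.e true (nat_lit 1) (nat_lit 227) (nat_lit 2) (nat_lit 16) (.e true (nat_lit 1) (nat_lit 205) (nat_lit 2) (nat_lit 16) (.e true (nat_lit 2) (nat_lit 206) (nat_lit 2) (nat_lit 16) (.e true (nat_lit 1) (nat_lit 138) (nat_lit 6) (nat_lit 12) dC2d_i258)))))))))))))))))))))))))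

noncomputable def dC2d_i260 : IL := (.s true (nat_lit 3) (nat_lit 71) (nat_lit 2) (nat_lit 1) (nat_lit 2) true (nat_lit 11) true (nat_lit 16) false (nat_lit 5) true (nat_lit 16) true (nat_lit 17) (.s false (nat_lit 2) (nat_lit 72) (nat_lit 2) (nat_lit 1) (nat_lit 2) true (nat_lit 11) true (nat_lit 16) false (nat_lit 5) true (nat_lit 16) true (nat_lit 17) (.s false (nat_lit 1) (nat_lit 61) (nat_lit 2) (nat_lit 2) (nat_lit 1) true (nat_lit 12) true (nat_lit 17) false (nat_lit 5) true (nat_lit 16) true (nat_lit 16) (.s false (nat_lit 3) (nat_lit 62) (nat_lit 2) (nat_lit 2) (nat_lit 1) true (nat_lit 12) true (nat_lit 17) false (nat_lit 5) true (nat_lit 16) true (nat_lit 16) (.s true (nat_lit 2) (nat_lit 63) (nat_lit 2) (nat_lit 2) (nat_lit 1) true (nat_lit 12) true (nat_lit 17) false (nat_lit 5) true (nat_lit 16) true (nat_lit 16) (.s false (nat_lit 3) (nat_lit 64) (nat_lit 2) (nat_lit 2) (nat_lit 1) true (nat_lit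 12) true (nat_lit 17) false (nat_lit 5) true (nat_lit 16) true (nat_lit 16) (.s true (nat_lit 1) (nat_lit 65) (nat_lit 2) (nat_lit 2) (nat_lit 1) true (nat_lit 12) true (nat_lit 17) false (nat_lit 5) true (nat_lit 16) true (nat_lit 16) (.s true (nat_lit 1) (nat_lit 66) (nat_lit 2) (nat_lit 2) (nat_lit 1) true (nat_lit 12) true (nat_lit 17) false (nat_lit 5) true (nat_lit 16) true (nat_lit 16) (.s false (nat_lit 2) (nat_lit 67) (nat_lit 2) (nat_lit 2) (nat_lit 1) true (nat_lit 12) true (nat_lit 17) false (nat_lit 5) true (nat_lit 16) true (nat_lit 16) (.s true (nat_lit 2) (nat_lit 70) (nat_lit 2) (nat_lit 2) (nat_lit 1) true (nat_lit 12) true (nat_lit 17) false (nat_lit 5) true (nat_lit 16) true (nat_lit 16) (.s true (nat_lit 3) (nat_lit 71) (nat_lit 2) (nat_lit 2) (nat_lit 1) true (nat_lit 12) true (nat_lit 17) false (nat_lit 5) true (nat_lit 16) true (nat_lit 16) (.s true (nat_lit 3) (nat_lit 73) (nat_lit 2)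 (nat_lit 2) (nat_lit 1) true (nat_lit 12) true (nat_lit 17) false (nat_lit 5) true (nat_lit 16) true (nat_lit 16) (.s false (nat_lit 2) (nat_lit 74) (nat_lit 0) (nat_lit 2) (nat_lit 2) true (nat_lit 13) true (nat_lit 16) false (nat_lit 6) true (nat_lit 18) true (nat_lit 16) (.s false (nat_lit 2) (nat_lit 77) (nat_lit 0) (nat_lit 2) (nat_lit 2) true (nat_lit 13) true (nat_lit 16) false (nat_lit 6) true (nat_lit 18) true (nat_lit 16) (.s false (nat_lit 2) (nat_lit 79) (nat_lit 0) (nat_lit 2) (nat_lit 2) true (nat_lit 13) true (nat_lit 16) false (nat_lit 6) true (nat_lit 18) true (nat_lit 16) (.s false (nat_lit 2) (nat_lit 77) (nat_lit 2) (nat_lit 0) (nat_lit 2) true (nat_lit 11) true (nat_lit 16) false (nat_lit 6) true (nat_lit 16) true (nat_lit 18) (.s false (nat_lit 2) (nat_lit 79) (nat_lit 2) (nat_lit 0) (nat_lit 2) true (nat_lit 11) true (nat_lit 16) false (nat_lit 6) true (nat_lit 16) true (nat_lit 18) (.s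 false (nat_lit 3) (nat_lit 80) (nat_lit 1) (nat_lit 1) (nat_lit 2) true (nat_lit 12) true (nat_lit 16) false (nat_lit 7) true (nat_lit 17) true (nat_lit 17) (.s false (nat_lit 1) (nat_lit 88) (nat_lit 1) (nat_lit 1) (nat_lit 2) true (nat_lit 12) true (nat_lit 16) false (nat_lit 7) true (nat_lit 17) true (nat_lit 17) (.s false (nat_lit 1) (nat_lit 89) (nat_lit 1) (nat_lit 1) (nat_lit 2) true (nat_lit 12) true (nat_lit 16) false (nat_lit 7) true (nat_lit 17) true (nat_lit 17) (.s false (nat_lit 3) (nat_lit 80) (nat_lit 1) (nat_lit 2) (nat_lit 1) true (nat_lit 14) true (nat_lit 17) false (nat_lit 7) true (nat_lit 17) true (nat_lit 16) (.s false (nat_lit 2) (nat_lit 81) (nat_lit 1) (nat_lit 2) (nat_lit 1) true (nat_lit 14) true (nat_lit 17) false (nat_lit 7) true (nat_lit 17) true (nat_lit 16) (.s false (nat_lit 3) (nat_lit 83) (nat_lit 1) (nat_lit 2) (nat_lit 1) true (nat_lit 14) true (nat_lit 17) false (nat_lit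 7) true (nat_lit 17) true (nat_lit 16) (.s true (nat_lit 2) (nat_lit 84) (nat_lit 1) (nat_lit 2) (nat_lit 1) true (nat_lit 14) true (nat_lit 17) false (nat_lit 7) true (nat_lit 17) true (nat_lit 16) (.s false (nat_lit 3) (nat_lit 86) (nat_lit 1) (nat_lit 2) (nat_lit 1) true (nat_lit 14) true (nat_lit 17) false (nat_lit 7) true (nat_lit 17) true (nat_lit 16) dC2d_i259)))))))))))))))))))))))))

noncomputable def dC2d_i261 : IL := (.s false (nat_lit 2) (nat_lit 53) (nat_lit 2) (nat_lit 2) (nat_lit 2) true (nat_lit 11) true (nat_lit 16) false (nat_lit 4) true (nat_lit 16) true (nat_lit 16) (.s false (nat_lit 2) (nat_lit 54) (nat_lit 2) (nat_lit 2) (nat_lit 2) true (nat_lit 11) true (nat_lit 16) false (nat_lit 4) true (nat_lit 16) true (nat_lit 16) (.s true (nat_lit 2) (nat_lit 55) (nat_lit 2) (nat_lit 2) (nat_lit 2) true (nat_lit 11) true (nat_lit 16) false (nat_lit 4) true (nat_lit 16) true (nat_lit 16) (.s false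 (nat_lit 1) (nat_lit 56) (nat_lit 2) (nat_lit 2) (nat_lit 2) true (nat_lit 11) true (nat_lit 16) false (nat_lit 4) true (nat_lit 16) true (nat_lit 16) (.s false (nat_lit 3) (nat_lit 57) (nat_lit 2) (nat_lit 2) (nat_lit 2) true (nat_lit 11) true (nat_lit 16) false (nat_lit 4) true (nat_lit 16) true (nat_lit 16) (.s true (nat_lit 2) (nat_lit 59) (nat_lit 2) (nat_lit 2) (nat_lit 2) true (nat_lit 11) true (nat_lit 16) false (nat_lit 4) true (nat_lit 16) true (nat_lit 16) (.s true (nat_lit 1) (nat_lit 60) (nat_lit 1) (nat_lit 2) (nat_lit 2) true (nat_lit 12) true (nat_lit 16) false (nat_lit 5) true (nat_lit 17) true (nat_lit 16) (.s false (nat_lit 1) (nat_lit 61) (nat_lit 1) (nat_lit 2) (nat_lit 2) true (nat_lit 12) true (nat_lit 16) false (nat_lit 5) true (nat_lit 17) true (nat_lit 16) (.s true (nat_lit 3) (nat_lit 62) (nat_lit 1) (nat_lit 2) (nat_lit 2) true (nat_lit 12) true (nat_lit 16) false (nat_lit 5) true (nat_lit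 17) true (nat_lit 16) (.s false (nat_lit 1) (nat_lit 63) (nat_lit 1) (nat_lit 2) (nat_lit 2) true (nat_lit 12) true (nat_lit 16) false (nat_lit 5) true (nat_lit 17) true (nat_lit 16) (.s false (nat_lit 3) (nat_lit 66) (nat_lit 1) (nat_lit 2) (nat_lit 2) true (nat_lit 12) true (nat_lit 16) false (nat_lit 5) true (nat_lit 17) true (nat_lit 16) (.s true (nat_lit 3) (nat_lit 67) (nat_lit 1) (nat_lit 2) (nat_lit 2) true (nat_lit 12) true (nat_lit 16) false (nat_lit 5) true (nat_lit 17) true (nat_lit 16) (.s true (nat_lit 1) (nat_lit 68) (nat_lit 1) (nat_lit 2) (nat_lit 2) true (nat_lit 12) true (nat_lit 16) false (nat_lit 5) true (nat_lit 17) true (nat_lit 16) (.s true (nat_lit 3) (nat_lit 69) (nat_lit 1) (nat_lit 2) (nat_lit 2) true (nat_lit 12) true (nat_lit 16) false (nat_lit 5) true (nat_lit 17) true (nat_lit 16) (.s false (nat_lit 3) (nat_lit 70) (nat_lit 1) (nat_lit 2) (nat_lit 2) true (nat_lit 12) true (nat_lit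 16) false (nat_lit 5) true (nat_lit 17) true (nat_lit 16) (.s false (nat_lit 1) (nat_lit 71) (nat_lit 1) (nat_lit 2) (nat_lit 2) true (nat_lit 12) true (nat_lit 16) false (nat_lit 5) true (nat_lit 17) true (nat_lit 16) (.s true (nat_lit 1) (nat_lit 72) (nat_lit 1) (nat_lit 2) (nat_lit 2) true (nat_lit 12) true (nat_lit 16) false (nat_lit 5) true (nat_lit 17) true (nat_lit 16) (.s true (nat_lit 2) (nat_lit 73) (nat_lit 1) (nat_lit 2) (nat_lit 2) true (nat_lit 12) true (nat_lit 16) false (nat_lit 5) true (nat_lit 17) true (nat_lit 16) (.s true (nat_lit 3) (nat_lit 62) (nat_lit 2) (nat_lit 1) (nat_lit 2) true (nat_lit 11) true (nat_lit 16) false (nat_lit 5) true (nat_lit 16) true (nat_lit 17) (.s false (nat_lit 1) (nat_lit 63) (nat_lit 2) (nat_lit 1) (nat_lit 2) true (nat_lit 11) true (nat_lit 16) false (nat_lit 5) true (nat_lit 16) true (nat_lit 17) (.s false (nat_lit 3) (nat_lit 64) (nat_lit 2) (nat_lit 1) (nat_lit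 2) true (nat_lit 11) true (nat_lit 16) false (nat_lit 5) true (nat_lit 16) true (nat_lit 17) (.s false (nat_lit 3) (nat_lit 65) (nat_lit 2) (nat_lit 1) (nat_lit 2) true (nat_lit 11) true (nat_lit 16) false (nat_lit 5) true (nat_lit 16) true (nat_lit 17) (.s false (nat_lit 2) (nat_lit 66) (nat_lit 2) (nat_lit 1) (nat_lit 2) true (nat_lit 11) true (nat_lit 16) false (nat_lit 5) true (nat_lit 16) true (nat_lit 17) (.s false (nat_lit 1) (nat_lit 69) (nat_lit 2) (nat_lit 1) (nat_lit 2) true (nat_lit 11) true (nat_lit 16) false (nat_lit 5) true (nat_lit 16) true (nat_lit 17) (.s false (nat_lit 3) (nat_lit 70) (nat_lit 2) (nat_lit 1) (nat_lit 2) true (nat_lit 11) true (nat_lit 16) false (nat_lit 5) true (nat_lit 16) true (nat_lit 17) dC2d_i260)))))))))))))))))))))))))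

noncomputable def dC2d_i262 : IL := (.s false (nat_lit 2) (nat_lit 38) (nat_lit 1) (nat_lit 7) (nat_lit 1) true (nat_lit 14) true (nat_lit 17) true (nat_lit 0) true (nat_lit 17) true (nat_lit 11) (.s false (nat_lit 2) (nat_lit 33) (nat_lit 2) (nat_lit 1) (nat_lit 6) true (nat_lit 5) true (nat_lit 12) true (nat_lit 0) true (nat_lit 16) true (nat_lit 17) (.s true (nat_lit 3) (nat_lit 34) (nat_lit 2) (nat_lit 1) (nat_lit 6) true (nat_lit 5) true (nat_lit 12) true (nat_lit 0) true (nat_lit 16) true (nat_lit 17) (.s true (nat_lit 3) (nat_lit 33) (nat_lit 4) (nat_lit 2) (nat_lit 2) true (nat_lit 7) true (nat_lit 16) true (nat_lit 0) true (nat_lit 14) true (nat_lit 16) (.s false (nat_lit 2) (nat_lit 34) (nat_lit 6) (nat_lit 2) (nat_lit 1) true (nat_lit 7) true (nat_lit 17) true (nat_lit 0) true (nat_lit 12) true (nat_lit 16) (.s true (nat_lit 3) (nat_lit 39) (nat_lit 0) (nat_lit 7) (nat_lit 1) true (nat_lit 15) true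 (nat_lit 17) false (nat_lit 0) true (nat_lit 18) true (nat_lit 11) (.s true (nat_lit 2) (nat_lit 39) (nat_lit 1) (nat_lit 2) (nat_lit 5) true (nat_lit 8) true (nat_lit 13) false (nat_lit 0) true (nat_lit 17) true (nat_lit 16) (.s false (nat_lit 3) (nat_lit 41) (nat_lit 1) (nat_lit 5) (nat_lit 2) true (nat_lit 12) true (nat_lit 16) false (nat_lit 0) true (nat_lit 17) true (nat_lit 13) (.s false (nat_lit 1) (nat_lit 40) (nat_lit 2) (nat_lit 3) (nat_lit 2) true (nat_lit 11) true (nat_lit 16) false (nat_lit 0) true (nat_lit 16) true (nat_lit 15) (.s true (nat_lit 3) (nat_lit 39) (nat_lit 3) (nat_lit 2) (nat_lit 2) true (nat_lit 8) true (nat_lit 16) false (nat_lit 0) true (nat_lit 15) true (nat_lit 16) (.s true (nat_lit 3) (nat_lit 40) (nat_lit 6) (nat_lit 2) (nat_lit 0) true (nat_lit 8) true (nat_lit 18) false (nat_lit 0) true (nat_lit 12) true (nat_lit 16) (.s false (nat_lit 2) (nat_lit 39) (nat_lit 7) (nat_lit 0)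 (nat_lit 1) true (nat_lit 5) true (nat_lit 17) false (nat_lit 0) true (nat_lit 11) true (nat_lit 18) (.s true (nat_lit 2) (nat_lit 45) (nat_lit 1) (nat_lit 2) (nat_lit 3) true (nat_lit 10) true (nat_lit 15) false (nat_lit 2) true (nat_lit 17) true (nat_lit 16) (.s true (nat_lit 2) (nat_lit 47) (nat_lit 1) (nat_lit 3) (nat_lit 2) true (nat_lit 12) true (nat_lit 16) false (nat_lit 2) true (nat_lit 17) true (nat_lit 15) (.s false (nat_lit 3) (nat_lit 46) (nat_lit 2) (nat_lit 3) (nat_lit 1) true (nat_lit 12) true (nat_lit 17) false (nat_lit 2) true (nat_lit 16) true (nat_lit 15) (.s true (nat_lit 3) (nat_lit 47) (nat_lit 2) (nat_lit 3) (nat_lit 1) true (nat_lit 12) true (nat_lit 17) false (nat_lit 2) true (nat_lit 16) true (nat_lit 15) (.s true (nat_lit 3) (nat_lit 45) (nat_lit 3) (nat_lit 1) (nat_lit 2) true (nat_lit 8) true (nat_lit 16) false (nat_lit 2) true (nat_lit 15) true (nat_lit 17) (.s false (nat_lit 2)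 (nat_lit 47) (nat_lit 3) (nat_lit 1) (nat_lit 2) true (nat_lit 8) true (nat_lit 16) false (nat_lit 2) true (nat_lit 15) true (nat_lit 17) (.s true (nat_lit 1) (nat_lit 47) (nat_lit 5) (nat_lit 1) (nat_lit 1) true (nat_lit 8) true (nat_lit 17) false (nat_lit 2) true (nat_lit 13) true (nat_lit 17) (.s false (nat_lit 2) (nat_lit 48) (nat_lit 1) (nat_lit 0) (nat_lit 4) true (nat_lit 9) true (nat_lit 14) false (nat_lit 3) true (nat_lit 17) true (nat_lit 18) (.s true (nat_lit 1) (nat_lit 48) (nat_lit 1) (nat_lit 1) (nat_lit 3) true (nat_lit 10) true (nat_lit 15) false (nat_lit 3) true (nat_lit 17) true (nat_lit 17) (.s true (nat_lit 3) (nat_lit 48) (nat_lit 1) (nat_lit 3) (nat_lit 1) true (nat_lit 14) true (nat_lit 17) false (nat_lit 3) true (nat_lit 17) true (nat_lit 15) (.s false (nat_lit 3) (nat_lit 48) (nat_lit 3) (nat_lit 1) (nat_lit 1) true (nat_lit 10) true (nat_lit 17) false (nat_lit 3) true (nat_lit 15) true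 (nat_lit 17) (.s false (nat_lit 1) (nat_lit 48) (nat_lit 4) (nat_lit 0) (nat_lit 1) true (nat_lit 9) true (nat_lit 17) false (nat_lit 3) true (nat_lit 14) true (nat_lit 18) (.s true (nat_lit 3) (nat_lit 52) (nat_lit 2) (nat_lit 2) (nat_lit 2) true (nat_lit 11) true (nat_lit 16) false (nat_lit 4) true (nat_lit 16) true (nat_lit 16) dC2d_i261)))))))))))))))))))))))))

noncomputable def dC2d_i263 : IL := (.s false (nat_lit 3) (nat_lit 27) (nat_lit 1) (nat_lit 7) (nat_lit 2) true (nat_lit 12) true (nat_lit 16) true (nat_lit 2) true (nat_lit 17) true (nat_lit 11) (.s true (nat_lit 3) (nat_lit 29) (nat_lit 2) (nat_lit 1) (nat_lit 7) true (nat_lit 4) true (nat_lit 11) true (nat_lit 2) true (nat_lit 16) true (nat_lit 17) (.s true (nat_lit 1) (nat_lit 24) (nat_lit 2) (nat_lit 2) (nat_lit 6) true (nat_lit 5) true (nat_lit 12) true (nat_lit 2) true (nat_lit 16) true (nat_lit 16) (.s true (nat_lit 3) (nat_lit 25) (nat_lit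 2) (nat_lit 2) (nat_lit 6) true (nat_lit 5) true (nat_lit 12) true (nat_lit 2) true (nat_lit 16) true (nat_lit 16) (.s false (nat_lit 2) (nat_lit 27) (nat_lit 2) (nat_lit 2) (nat_lit 6) true (nat_lit 5) true (nat_lit 12) true (nat_lit 2) true (nat_lit 16) true (nat_lit 16) (.s true (nat_lit 2) (nat_lit 29) (nat_lit 2) (nat_lit 2) (nat_lit 6) true (nat_lit 5) true (nat_lit 12) true (nat_lit 2) true (nat_lit 16) true (nat_lit 16) (.s false (nat_lit 1) (nat_lit 24) (nat_lit 2) (nat_lit 6) (nat_lit 2) true (nat_lit 11) true (nat_lit 16) true (nat_lit 2) true (nat_lit 16) true (nat_lit 12) (.s true (nat_lit 1) (nat_lit 25) (nat_lit 2) (nat_lit 6) (nat_lit 2) true (nat_lit 11) true (nat_lit 16) true (nat_lit 2) true (nat_lit 16) true (nat_lit 12) (.s false (nat_lit 3) (nat_lit 26) (nat_lit 6) (nat_lit 2) (nat_lit 2) true (nat_lit 5) true (nat_lit 16) true (nat_lit 2) true (nat_lit 12) true (nat_lit 16) (.s true (nat_lit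 1) (nat_lit 27) (nat_lit 6) (nat_lit 2) (nat_lit 2) true (nat_lit 5) true (nat_lit 16) true (nat_lit 2) true (nat_lit 12) true (nat_lit 16) (.s true (nat_lit 3) (nat_lit 29) (nat_lit 6) (nat_lit 2) (nat_lit 2) true (nat_lit 5) true (nat_lit 16) true (nat_lit 2) true (nat_lit 12) true (nat_lit 16) (.s true (nat_lit 1) (nat_lit 25) (nat_lit 7) (nat_lit 2) (nat_lit 1) true (nat_lit 5) true (nat_lit 17) true (nat_lit 2) true (nat_lit 11) true (nat_lit 16) (.s false (nat_lit 3) (nat_lit 30) (nat_lit 0) (nat_lit 7) (nat_lit 2) true (nat_lit 13) true (nat_lit 16) true (nat_lit 1) true (nat_lit 18) true (nat_lit 11) (.s true (nat_lit 3) (nat_lit 30) (nat_lit 2) (nat_lit 2) (nat_lit 5) true (nat_lit 6) true (nat_lit 13) true (nat_lit 1) true (nat_lit 16) true (nat_lit 16) (.s true (nat_lit 1) (nat_lit 30) (nat_lit 2) (nat_lit 5) (nat_lit 2) true (nat_lit 11) true (nat_lit 16) true (nat_lit 1) true (nat_lit 16) true (nat_lit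 13) (.s false (nat_lit 3) (nat_lit 30) (nat_lit 2) (nat_lit 7) (nat_lit 0) true (nat_lit 13) true (nat_lit 18) true (nat_lit 1) true (nat_lit 16) true (nat_lit 11) (.s false (nat_lit 2) (nat_lit 30) (nat_lit 5) (nat_lit 2) (nat_lit 2) true (nat_lit 6) true (nat_lit 16) true (nat_lit 1) true (nat_lit 13) true (nat_lit 16) (.s true (nat_lit 1) (nat_lit 33) (nat_lit 1) (nat_lit 1) (nat_lit 7) true (nat_lit 5) true (nat_lit 11) true (nat_lit 0) true (nat_lit 17) true (nat_lit 17) (.s true (nat_lit 2) (nat_lit 34) (nat_lit 1) (nat_lit 1) (nat_lit 7) true (nat_lit 5) true (nat_lit 11) true (nat_lit 0) true (nat_lit 17) true (nat_lit 17) (.s true (nat_lit 1) (nat_lit 35) (nat_lit 1) (nat_lit 2) (nat_lit 6) true (nat_lit 7) true (nat_lit 12) true (nat_lit 0) true (nat_lit 17) true (nat_lit 16) (.s true (nat_lit 2) (nat_lit 37) (nat_lit 1) (nat_lit 2) (nat_lit 6) true (nat_lit 7) true (nat_lit 12) true (nat_lit 0) true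 (nat_lit 17) true (nat_lit 16) (.s false (nat_lit 2) (nat_lit 38) (nat_lit 1) (nat_lit 2) (nat_lit 6) true (nat_lit 7) true (nat_lit 12) true (nat_lit 0) true (nat_lit 17) true (nat_lit 16) (.s false (nat_lit 2) (nat_lit 34) (nat_lit 1) (nat_lit 6) (nat_lit 2) true (nat_lit 12) true (nat_lit 16) true (nat_lit 0) true (nat_lit 17) true (nat_lit 12) (.s false (nat_lit 1) (nat_lit 33) (nat_lit 1) (nat_lit 7) (nat_lit 1) true (nat_lit 14) true (nat_lit 17) true (nat_lit 0) true (nat_lit 17) true (nat_lit 11) (.s false (nat_lit 2) (nat_lit 34) (nat_lit 1) (nat_lit 7) (nat_lit 1) true (nat_lit 14) true (nat_lit 17) true (nat_lit 0) true (nat_lit 17) true (nat_lit 11) dC2d_i262)))))))))))))))))))))))))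

noncomputable def dC2d_i264 : IL := (.s true (nat_lit 1) (nat_lit 20) (nat_lit 1) (nat_lit 3) (nat_lit 6) true (nat_lit 7) true (nat_lit 12) true (nat_lit 4) true (nat_lit 17) true (nat_lit 15) (.s false (nat_lit 2) (nat_lit 20) (nat_lit 1) (nat_lit 8) (nat_lit 2) true (nat_lit 12) true (nat_lit 16) true (nat_lit 4) true (nat_lit 17) true (nat_lit 10) (.s false (nat_lit 2) (nat_lit 20) (nat_lit 1) (nat_lit 11) (nat_lit 1) true (nat_lit 14) true (nat_lit 17) true (nat_lit 4) true (nat_lit 17) true (nat_lit 8) (.s false (nat_lit 2) (nat_lit 20) (nat_lit 1) (nat_lit 12) (nat_lit 1) true (nat_lit 14) true (nat_lit 17) true (nat_lit 4) true (nat_lit 17) true (nat_lit 8) (.s false (nat_lit 1) (nat_lit 20) (nat_lit 2) (nat_lit 1) (nat_lit 8) true (nat_lit 2) true (nat_lit 10) true (nat_lit 4) true (nat_lit 16) true (nat_lit 17) (.s true (nat_lit 2) (nat_lit 20) (nat_lit 3) (nat_lit 4) (nat_lit 2) true (nat_lit 8) true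 (nat_lit 16) true (nat_lit 4) true (nat_lit 15) true (nat_lit 14) (.s true (nat_lit 3) (nat_lit 20) (nat_lit 4) (nat_lit 3) (nat_lit 2) true (nat_lit 7) true (nat_lit 16) true (nat_lit 4) true (nat_lit 14) true (nat_lit 15) (.s true (nat_lit 1) (nat_lit 20) (nat_lit 6) (nat_lit 3) (nat_lit 1) true (nat_lit 7) true (nat_lit 17) true (nat_lit 4) true (nat_lit 12) true (nat_lit 15) (.s false (nat_lit 2) (nat_lit 20) (nat_lit 9) (nat_lit 2) (nat_lit 1) true (nat_lit 3) true (nat_lit 17) true (nat_lit 4) true (nat_lit 10) true (nat_lit 16) (.s true (nat_lit 2) (nat_lit 20) (nat_lit 11) (nat_lit 1) (nat_lit 1) true (nat_lit 2) true (nat_lit 17) true (nat_lit 4) true (nat_lit 8) true (nat_lit 17) (.s true (nat_lit 1) (nat_lit 20) (nat_lit 12) (nat_lit 1) (nat_lit 1) true (nat_lit 2) true (nat_lit 17) true (nat_lit 4) true (nat_lit 8) true (nat_lit 17) (.s false (nat_lit 2) (nat_lit 20) (nat_lit 14) (nat_lit 0) (nat_lit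 1) true (nat_lit 1) true (nat_lit 17) true (nat_lit 4) true (nat_lit 7) true (nat_lit 18) (.s true (nat_lit 2) (nat_lit 23) (nat_lit 2) (nat_lit 2) (nat_lit 7) true (nat_lit 4) true (nat_lit 11) true (nat_lit 3) true (nat_lit 16) true (nat_lit 16) (.s false (nat_lit 1) (nat_lit 21) (nat_lit 2) (nat_lit 7) (nat_lit 2) true (nat_lit 11) true (nat_lit 16) true (nat_lit 3) true (nat_lit 16) true (nat_lit 11) (.s false (nat_lit 3) (nat_lit 22) (nat_lit 2) (nat_lit 7) (nat_lit 2) true (nat_lit 11) true (nat_lit 16) true (nat_lit 3) true (nat_lit 16) true (nat_lit 11) (.s false (nat_lit 2) (nat_lit 23) (nat_lit 2) (nat_lit 7) (nat_lit 2) true (nat_lit 11) true (nat_lit 16) true (nat_lit 3) true (nat_lit 16) true (nat_lit 11) (.s false (nat_lit 1) (nat_lit 21) (nat_lit 7) (nat_lit 2) (nat_lit 2) true (nat_lit 4) true (nat_lit 16) true (nat_lit 3) true (nat_lit 11) true (nat_lit 16) (.s false (nat_lit 2) (nat_lit 22) (nat_lit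 7) (nat_lit 2) (nat_lit 2) true (nat_lit 4) true (nat_lit 16) true (nat_lit 3) true (nat_lit 11) true (nat_lit 16) (.s true (nat_lit 2) (nat_lit 23) (nat_lit 7) (nat_lit 2) (nat_lit 2) true (nat_lit 4) true (nat_lit 16) true (nat_lit 3) true (nat_lit 11) true (nat_lit 16) (.s false (nat_lit 3) (nat_lit 25) (nat_lit 1) (nat_lit 2) (nat_lit 7) true (nat_lit 5) true (nat_lit 11) true (nat_lit 2) true (nat_lit 17) true (nat_lit 16) (.s false (nat_lit 1) (nat_lit 26) (nat_lit 1) (nat_lit 2) (nat_lit 7) true (nat_lit 5) true (nat_lit 11) true (nat_lit 2) true (nat_lit 17) true (nat_lit 16) (.s true (nat_lit 1) (nat_lit 27) (nat_lit 1) (nat_lit 2) (nat_lit 7) true (nat_lit 5) true (nat_lit 11) true (nat_lit 2) true (nat_lit 17) true (nat_lit 16) (.s false (nat_lit 1) (nat_lit 29) (nat_lit 1) (nat_lit 2) (nat_lit 7) true (nat_lit 5) true (nat_lit 11) true (nat_lit 2) true (nat_lit 17) true (nat_lit 16) (.s true (nat_lit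 1) (nat_lit 24) (nat_lit 1) (nat_lit 7) (nat_lit 2) true (nat_lit 12) true (nat_lit 16) true (nat_lit 2) true (nat_lit 17) true (nat_lit 11) (.s false (nat_lit 3) (nat_lit 25) (nat_lit 1) (nat_lit 7) (nat_lit 2) true (nat_lit 12) true (nat_lit 16) true (nat_lit 2) true (nat_lit 17) true (nat_lit 11) dC2d_i263)))))))))))))))))))))))))

noncomputable def dC2d_i265 : IL := (.s true (nat_lit 1) (nat_lit 16) (nat_lit 2) (nat_lit 2) (nat_lit 10) true (nat_lit 1) true (nat_lit 9) true (nat_lit 6) true (nat_lit 16) true (nat_lit 16) (.s true (nat_lit 1) (nat_lit 16) (nat_lit 2) (nat_lit 10) (nat_lit 2) true (nat_lit 11) true (nat_lit 16) true (nat_lit 6) true (nat_lit 16) true (nat_lit 9) (.s true (nat_lit 1) (nat_lit 18) (nat_lit 0) (nat_lit 18) (nat_lit 1) true (nat_lit 15) true (nat_lit 17) true (nat_lit 5) true (nat_lit 18) true (nat_lit 5) (.s false (nat_lit 3) (nat_lit 18) (nat_lit 0) (nat_lit 19) (nat_lit 1) true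 (nat_lit 15) true (nat_lit 17) true (nat_lit 5) true (nat_lit 18) true (nat_lit 5) (.s false (nat_lit 2) (nat_lit 18) (nat_lit 1) (nat_lit 0) (nat_lit 18) false (nat_lit 0) true (nat_lit 5) true (nat_lit 5) true (nat_lit 17) true (nat_lit 18) (.s false (nat_lit 3) (nat_lit 18) (nat_lit 1) (nat_lit 2) (nat_lit 11) true (nat_lit 2) true (nat_lit 8) true (nat_lit 5) true (nat_lit 17) true (nat_lit 16) (.s false (nat_lit 3) (nat_lit 18) (nat_lit 1) (nat_lit 2) (nat_lit 12) true (nat_lit 2) true (nat_lit 8) true (nat_lit 5) true (nat_lit 17) true (nat_lit 16) (.s false (nat_lit 3) (nat_lit 18) (nat_lit 2) (nat_lit 0) (nat_lit 15) false (nat_lit 0) true (nat_lit 7) true (nat_lit 5) true (nat_lit 16) true (nat_lit 18) (.s false (nat_lit 2) (nat_lit 18) (nat_lit 2) (nat_lit 2) (nat_lit 8) true (nat_lit 2) true (nat_lit 10) true (nat_lit 5) true (nat_lit 16) true (nat_lit 16) (.s true (nat_lit 1) (nat_lit 18) (nat_lit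 2) (nat_lit 8) (nat_lit 2) true (nat_lit 11) true (nat_lit 16) true (nat_lit 5) true (nat_lit 16) true (nat_lit 10) (.s false (nat_lit 3) (nat_lit 18) (nat_lit 2) (nat_lit 9) (nat_lit 2) true (nat_lit 11) true (nat_lit 16) true (nat_lit 5) true (nat_lit 16) true (nat_lit 10) (.s false (nat_lit 3) (nat_lit 19) (nat_lit 2) (nat_lit 9) (nat_lit 2) true (nat_lit 11) true (nat_lit 16) true (nat_lit 5) true (nat_lit 16) true (nat_lit 10) (.s false (nat_lit 1) (nat_lit 18) (nat_lit 2) (nat_lit 11) (nat_lit 1) true (nat_lit 12) true (nat_lit 17) true (nat_lit 5) true (nat_lit 16) true (nat_lit 8) (.s true (nat_lit 3) (nat_lit 18) (nat_lit 2) (nat_lit 12) (nat_lit 1) true (nat_lit 12) true (nat_lit 17) true (nat_lit 5) true (nat_lit 16) true (nat_lit 8) (.s true (nat_lit 2) (nat_lit 18) (nat_lit 3) (nat_lit 2) (nat_lit 6) true (nat_lit 2) true (nat_lit 12) true (nat_lit 5) true (nat_lit 15) true (nat_lit 16) (.s false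 (nat_lit 2) (nat_lit 18) (nat_lit 3) (nat_lit 7) (nat_lit 1) true (nat_lit 10) true (nat_lit 17) true (nat_lit 5) true (nat_lit 15) true (nat_lit 11) (.s true (nat_lit 3) (nat_lit 18) (nat_lit 9) (nat_lit 2) (nat_lit 2) true (nat_lit 2) true (nat_lit 16) true (nat_lit 5) true (nat_lit 10) true (nat_lit 16) (.s false (nat_lit 3) (nat_lit 19) (nat_lit 9) (nat_lit 2) (nat_lit 2) true (nat_lit 2) true (nat_lit 16) true (nat_lit 5) true (nat_lit 10) true (nat_lit 16) (.s true (nat_lit 3) (nat_lit 19) (nat_lit 11) (nat_lit 1) (nat_lit 2) true (nat_lit 0) true (nat_lit 16) true (nat_lit 5) true (nat_lit 8) true (nat_lit 17) (.s false (nat_lit 3) (nat_lit 18) (nat_lit 11) (nat_lit 2) (nat_lit 1) true (nat_lit 2) true (nat_lit 17) true (nat_lit 5) true (nat_lit 8) true (nat_lit 16) (.s false (nat_lit 2) (nat_lit 19) (nat_lit 11) (nat_lit 2) (nat_lit 1) true (nat_lit 2) true (nat_lit 17) true (nat_lit 5) true (nat_lit 8)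 true (nat_lit 16) (.s false (nat_lit 3) (nat_lit 18) (nat_lit 15) (nat_lit 0) (nat_lit 2) false (nat_lit 0) true (nat_lit 16) true (nat_lit 5) true (nat_lit 7) true (nat_lit 18) (.s false (nat_lit 2) (nat_lit 20) (nat_lit 0) (nat_lit 14) (nat_lit 1) true (nat_lit 15) true (nat_lit 17) true (nat_lit 4) true (nat_lit 18) true (nat_lit 7) (.s true (nat_lit 2) (nat_lit 20) (nat_lit 1) (nat_lit 0) (nat_lit 14) true (nat_lit 1) true (nat_lit 7) true (nat_lit 4) true (nat_lit 17) true (nat_lit 18) (.s true (nat_lit 1) (nat_lit 20) (nat_lit 1) (nat_lit 1) (nat_lit 12) true (nat_lit 2) true (nat_lit 8) true (nat_lit 4) true (nat_lit 17) true (nat_lit 17) dC2d_i264)))))))))))))))))))))))))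

noncomputable def dC2d_i266 : IL := (.e false (nat_lit 2) (nat_lit 250) (nat_lit 2) (nat_lit 16) (.e false (nat_lit 1) (nat_lit 218) (nat_lit 2) (nat_lit 16) (.e false (nat_lit 2) (nat_lit 233) (nat_lit 2) (nat_lit 16) (.e true (nat_lit 3) (nat_lit 261) (nat_lit 1) (nat_lit 17) (.e false (nat_lit 3) (nat_lit 275) (nat_lit 1) (nat_lit 17) (.e false (nat_lit 1) (nat_lit 289) (nat_lit 0) (nat_lit 18) (.e false (nat_lit 2) (nat_lit 290) (nat_lit 0) (nat_lit 18) (.e true (nat_lit 3) (nat_lit 291) (nat_lit 0) (nat_lit 18) (.e true (nat_lit 1) (nat_lit 292) (nat_lit 0) (nat_lit 18) (.e true (nat_lit 3) (nat_lit 295) (nat_lit 0) (nat_lit 18) (.e false (nat_lit 3) (nat_lit 297) (nat_lit 0) (nat_lit 18) (.e false (nat_lit 3) (nat_lit 299) (nat_lit 0) (nat_lit 18) (.e true (nat_lit 3) (nat_lit 301) (nat_lit 0) (nat_lit 18) (.e false (nat_lit 1) (nat_lit 303) (nat_lit 0) (nat_lit 18) (.e false (nat_lit 2) (nat_lit 279) (nat_lit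 1) (nat_lit 17) (.e false (nat_lit 3) (nat_lit 282) (nat_lit 1) (nat_lit 17) (.e true (nat_lit 2) (nat_lit 280) (nat_lit 1) (nat_lit 17) (.e true (nat_lit 3) (nat_lit 62) (nat_lit 18) (nat_lit 5) (.e true (nat_lit 1) (nat_lit 170) (nat_lit 4) (nat_lit 14) (.e true (nat_lit 1) (nat_lit 296) (nat_lit 0) (nat_lit 18) (.e true (nat_lit 3) (nat_lit 300) (nat_lit 0) (nat_lit 18) (.u (nat_lit 2) (.p (nat_lit 0) (nat_lit 4) (.n (nat_lit 1) (nat_lit 3) (.p (nat_lit 2) (nat_lit 1) (.n (nat_lit 3) (nat_lit 5) (.p (nat_lit 4) (nat_lit 5) (.p (nat_lit 5) (nat_lit 3) (.p (nat_lit 6) (nat_lit 2) (.p (nat_lit 7) (nat_lit 1) (.p (nat_lit 8) (nat_lit 2) (.n (nat_lit 9) (nat_lit 4) (.n (nat_lit 10) (nat_lit 3) (.n (nat_lit 12) (nat_lit 3) (.p (nat_lit 14) (nat_lit 4) (.n (nat_lit 15) (nat_lit 3) (.p (nat_lit 17) (nat_lit 3) (.p (nat_lit 18) (nat_lit 2) (.n (nat_lit 19) (nat_lit 2) (.n (nat_lit 20) (nat_lit 5) (.p (nat_lit 21) (nat_lit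 1) (.n (nat_lit 22) (nat_lit 1) (.n (nat_lit 23) (nat_lit 6) (.n (nat_lit 24) (nat_lit 5) (.p (nat_lit 25) (nat_lit 1) (.n (nat_lit 27) (nat_lit 3) (.n (nat_lit 28) (nat_lit 2) (.n (nat_lit 29) (nat_lit 4) (.p (nat_lit 31) (nat_lit 3) (.n (nat_lit 32) (nat_lit 2) (.p (nat_lit 34) (nat_lit 2) (.n (nat_lit 35) (nat_lit 5) (.n (nat_lit 36) (nat_lit 5) (.p (nat_lit 37) (nat_lit 4) (.p (nat_lit 39) (nat_lit 5) (.p (nat_lit 40) (nat_lit 1) (.n (nat_lit 42) (nat_lit 1) (.n (nat_lit 44) (nat_lit 1) (.p (nat_lit 45) (nat_lit 3) (.p (nat_lit 46) (nat_lit 3) (.p (nat_lit 47) (nat_lit 1) (.p (nat_lit 48) (nat_lit 1) (.n (nat_lit 51) (nat_lit 1) (.p (nat_lit 55) (nat_lit 1) (.n (nat_lit 57) (nat_lit 1) (.p (nat_lit 62) (nat_lit 1) (.n (nat_lit 64) (nat_lit 2) (.p (nat_lit 66) (nat_lit 1) (.n (nat_lit 67) (nat_lit 1) (.p (nat_lit 72) (nat_lit 1) (.n (nat_lit 73) (nat_lit 1) (.p (nat_lit 75) (nat_lit 1) (.p (nat_lit 77) (nat_lit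 1) (.n (nat_lit 78) (nat_lit 1) (.n (nat_lit 91) (nat_lit 1) (.n (nat_lit 93) (nat_lit 1) (.n (nat_lit 97) (nat_lit 1) (.n (nat_lit 106) (nat_lit 1) (.p (nat_lit 108) (nat_lit 1) (.n (nat_lit 111) (nat_lit 1) (.n (nat_lit 112) (nat_lit 1) (.p (nat_lit 115) (nat_lit 1) .z)))))))))))))))))))))))))))))))))))))))))))))))))))))))))))) (.u (nat_lit 2) (.p (nat_lit 124) (nat_lit 1) (.n (nat_lit 130) (nat_lit 1) (.p (nat_lit 133) (nat_lit 1) (.n (nat_lit 161) (nat_lit 1) (.n (nat_lit 170) (nat_lit 1) (.n (nat_lit 172) (nat_lit 1) (.p (nat_lit 183) (nat_lit 1) (.n (nat_lit 185) (nat_lit 1) (.p (nat_lit 186) (nat_lit 1) (.p (nat_lit 187) (nat_lit 1) (.n (nat_lit 188) (nat_lit 1) (.p (nat_lit 202) (nat_lit 1) (.p (nat_lit 203) (nat_lit 1) (.n (nat_lit 207) (nat_lit 1) (.p (nat_lit 211) (nat_lit 1) (.p (nat_lit 214) (nat_lit 1) (.p (nat_lit 215) (nat_lit 2) (.p (nat_lit 216) (nat_lit 4) (.n (nat_lit 217) (nat_lit 2) (.n (nat_lit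 218) (nat_lit 1) (.p (nat_lit 219) (nat_lit 4) (.n (nat_lit 221) (nat_lit 3) (.p (nat_lit 223) (nat_lit 1) (.p (nat_lit 224) (nat_lit 2) (.p (nat_lit 225) (nat_lit 3) (.p (nat_lit 226) (nat_lit 3) (.n (nat_lit 227) (nat_lit 1) (.n (nat_lit 229) (nat_lit 5) (.n (nat_lit 230) (nat_lit 4) (.p (nat_lit 232) (nat_lit 1) (.p (nat_lit 233) (nat_lit 1) (.n (nat_lit 234) (nat_lit 5) (.n (nat_lit 237) (nat_lit 1) (.n (nat_lit 238) (nat_lit 1) (.p (nat_lit 239) (nat_lit 1) (.p (nat_lit 240) (nat_lit 1) (.p (nat_lit 241) (nat_lit 1) (.p (nat_lit 243) (nat_lit 1) (.p (nat_lit 244) (nat_lit 1) (.p (nat_lit 245) (nat_lit 2) (.p (nat_lit 246) (nat_lit 1) (.n (nat_lit 247) (nat_lit 1) (.n (nat_lit 248) (nat_lit 2) (.n (nat_lit 250) (nat_lit 1) (.n (nat_lit 252) (nat_lit 1) (.n (nat_lit 253) (nat_lit 1) (.n (nat_lit 255) (nat_lit 1) (.p (nat_lit 256) (nat_lit 1) (.n (nat_lit 258) (nat_lit 2) (.n (nat_lit 259) (nat_lit 1) (.n (nat_lit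 261) (nat_lit 1) (.n (nat_lit 262) (nat_lit 2) (.p (nat_lit 263) (nat_lit 2) (.p (nat_lit 264) (nat_lit 1) (.n (nat_lit 278) (nat_lit 1) (.p (nat_lit 279) (nat_lit 3) (.p (nat_lit 280) (nat_lit 1) (.n (nat_lit 281) (nat_lit 3) (.n (nat_lit 282) (nat_lit 2) (.n (nat_lit 283) (nat_lit 2) .z)))))))))))))))))))))))))))))))))))))))))))))))))))))))))))) (.u (nat_lit 2) (.n (nat_lit 284) (nat_lit 2) (.p (nat_lit 285) (nat_lit 2) (.p (nat_lit 286) (nat_lit 2) (.n (nat_lit 289) (nat_lit 1) (.p (nat_lit 290) (nat_lit 1) (.p (nat_lit 292) (nat_lit 2) (.n (nat_lit 294) (nat_lit 4) (.p (nat_lit 295) (nat_lit 3) (.n (nat_lit 296) (nat_lit 1) (.n (nat_lit 297) (nat_lit 2) (.n (nat_lit 299) (nat_lit 1) (.n (nat_lit 300) (nat_lit 1) (.p (nat_lit 302) (nat_lit 25) (.p (nat_lit 303) (nat_lit 12) (.p (nat_lit 304) (nat_lit 1) (.p (nat_lit 305) (nat_lit 20) (.n (nat_lit 306) (nat_lit 15) (.p (nat_lit 307) (nat_lit 18) (.n (nat_lit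 308) (nat_lit 7) (.n (nat_lit 309) (nat_lit 10) (.n (nat_lit 310) (nat_lit 7) (.n (nat_lit 311) (nat_lit 3) (.p (nat_lit 312) (nat_lit 27) (.p (nat_lit 313) (nat_lit 13) (.n (nat_lit 314) (nat_lit 5) (.p (nat_lit 315) (nat_lit 9) (.p (nat_lit 316) (nat_lit 25) (.p (nat_lit 317) (nat_lit 1) (.n (nat_lit 318) (nat_lit 8) (.p (nat_lit 319) (nat_lit 4) (.n (nat_lit 320) (nat_lit 3) (.p (nat_lit 321) (nat_lit 4) (.n (nat_lit 322) (nat_lit 9) (.n (nat_lit 323) (nat_lit 7) (.n (nat_lit 324) (nat_lit 8) (.n (nat_lit 325) (nat_lit 3) (.n (nat_lit 326) (nat_lit 52) (.n (nat_lit 327) (nat_lit 43) (.n (nat_lit 328) (nat_lit 11) (.p (nat_lit 329) (nat_lit 1) (.n (nat_lit 330) (nat_lit 3) (.p (nat_lit 331) (nat_lit 17) (.n (nat_lit 332) (nat_lit 3) (.n (nat_lit 335) (nat_lit 3) (.p (nat_lit 337) (nat_lit 1) (.p (nat_lit 338) (nat_lit 4) (.p (nat_lit 339) (nat_lit 23) (.p (nat_lit 340) (nat_lit 1) (.n (nat_lit 341) (nat_lit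 3) (.n (nat_lit 342) (nat_lit 50) (.n (nat_lit 343) (nat_lit 15) (.p (nat_lit 344) (nat_lit 14) (.p (nat_lit 345) (nat_lit 38) (.n (nat_lit 346) (nat_lit 3) (.p (nat_lit 347) (nat_lit 12) (.n (nat_lit 348) (nat_lit 1) (.p (nat_lit 349) (nat_lit 5) (.n (nat_lit 350) (nat_lit 3) (.n (nat_lit 351) (nat_lit 1) (.p (nat_lit 352) (nat_lit 13) .z)))))))))))))))))))))))))))))))))))))))))))))))))))))))))))) (.u (nat_lit 2) (.n (nat_lit 353) (nat_lit 1) (.p (nat_lit 354) (nat_lit 1) (.n (nat_lit 355) (nat_lit 3) (.p (nat_lit 356) (nat_lit 9) (.n (nat_lit 357) (nat_lit 3) (.p (nat_lit 358) (nat_lit 15) (.p (nat_lit 359) (nat_lit 16) (.p (nat_lit 360) (nat_lit 7) (.n (nat_lit 361) (nat_lit 2) (.p (nat_lit 362) (nat_lit 1) (.n (nat_lit 363) (nat_lit 7) (.n (nat_lit 364) (nat_lit 6) (.n (nat_lit 365) (nat_lit 2) (.n (nat_lit 366) (nat_lit 12) (.p (nat_lit 367) (nat_lit 3) (.n (nat_lit 368) (nat_lit 3) (.n (nat_lit 369) (nat_lit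 7) (.p (nat_lit 370) (nat_lit 4) (.n (nat_lit 371) (nat_lit 2) (.p (nat_lit 372) (nat_lit 1) (.p (nat_lit 373) (nat_lit 5) (.n (nat_lit 374) (nat_lit 8) (.p (nat_lit 375) (nat_lit 4) (.p (nat_lit 376) (nat_lit 4) (.n (nat_lit 378) (nat_lit 3) (.n (nat_lit 379) (nat_lit 5) (.p (nat_lit 380) (nat_lit 5) (.n (nat_lit 381) (nat_lit 1) (.n (nat_lit 382) (nat_lit 6) (.p (nat_lit 383) (nat_lit 1) (.p (nat_lit 384) (nat_lit 2) (.p (nat_lit 385) (nat_lit 3) (.p (nat_lit 386) (nat_lit 4) (.n (nat_lit 387) (nat_lit 2) (.p (nat_lit 388) (nat_lit 1) (.n (nat_lit 389) (nat_lit 2) (.n (nat_lit 390) (nat_lit 1) (.p (nat_lit 391) (nat_lit 1) (.n (nat_lit 392) (nat_lit 3) (.p (nat_lit 394) (nat_lit 1) (.n (nat_lit 395) (nat_lit 4) (.n (nat_lit 396) (nat_lit 1) (.n (nat_lit 397) (nat_lit 1) (.p (nat_lit 398) (nat_lit 2) (.p (nat_lit 400) (nat_lit 2) (.n (nat_lit 401) (nat_lit 2) .z)))))))))))))))))))))))))))))))))))))))))))))) .nil)))))))))))))))))))))))))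

noncomputable def dC2d_i267 : IL := (.e true (nat_lit 3) (nat_lit 273) (nat_lit 1) (nat_lit 17) (.e true (nat_lit 1) (nat_lit 276) (nat_lit 1) (nat_lit 17) (.e false (nat_lit 1) (nat_lit 277) (nat_lit 1) (nat_lit 17) (.e false (nat_lit 3) (nat_lit 255) (nat_lit 1) (nat_lit 17) (.e true (nat_lit 3) (nat_lit 262) (nat_lit 1) (nat_lit 17) (.e true (nat_lit 3) (nat_lit 264) (nat_lit 1) (nat_lit 17) (.e true (nat_lit 2) (nat_lit 266) (nat_lit 1) (nat_lit 17) (.e false (nat_lit 3) (nat_lit 231) (nat_lit 2) (nat_lit 16) (.e false (nat_lit 2) (nat_lit 210) (nat_lit 2) (nat_lit 16) (.e true (nat_lit 1) (nat_lit 211) (nat_lit 2) (nat_lit 16) (.e true (nat_lit 1) (nat_lit 213) (nat_lit 2) (nat_lit 16) (.e true (nat_lit 2) (nat_lit 219) (nat_lit 2) (nat_lit 16) (.e true (nat_lit 2) (nat_lit 220) (nat_lit 2) (nat_lit 16) (.e false (nat_lit 3) (nat_lit 209) (nat_lit 2) (nat_lit 16) (.e true (nat_lit 2) (nat_lit 212) (nat_lit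 2) (nat_lit 16) (.e false (nat_lit 1) (nat_lit 234) (nat_lit 2) (nat_lit 16) (.e true (nat_lit 1) (nat_lit 246) (nat_lit 2) (nat_lit 16) (.e false (nat_lit 3) (nat_lit 249) (nat_lit 2) (nat_lit 16) (.e true (nat_lit 3) (nat_lit 226) (nat_lit 2) (nat_lit 16) (.e false (nat_lit 2) (nat_lit 207) (nat_lit 2) (nat_lit 16) (.e false (nat_lit 2) (nat_lit 298) (nat_lit 0) (nat_lit 18) (.e true (nat_lit 1) (nat_lit 274) (nat_lit 1) (nat_lit 17) (.e true (nat_lit 1) (nat_lit 278) (nat_lit 1) (nat_lit 17) (.e true (nat_lit 3) (nat_lit 244) (nat_lit 2) (nat_lit 16) (.e false (nat_lit 1) (nat_lit 229) (nat_lit 2) (nat_lit 16) dC2d_i266)))))))))))))))))))))))))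

noncomputable def dC2d_i268 : IL := (.s true (nat_lit 1) (nat_lit 102) (nat_lit 0) (nat_lit 1) (nat_lit 1) true (nat_lit 15) true (nat_lit 17) false (nat_lit 10) true (nat_lit 18) true (nat_lit 17) (.s true (nat_lit 3) (nat_lit 102) (nat_lit 1) (nat_lit 1) (nat_lit 0) true (nat_lit 15) true (nat_lit 18) false (nat_lit 10) true (nat_lit 17) true (nat_lit 17) (.s true (nat_lit 1) (nat_lit 103) (nat_lit 1) (nat_lit 1) (nat_lit 0) true (nat_lit 15) true (nat_lit 18) false (nat_lit 10) true (nat_lit 17) true (nat_lit 17) (.s true (nat_lit 3) (nat_lit 104) (nat_lit 1) (nat_lit 1) (nat_lit 0) true (nat_lit 15) true (nat_lit 18) false (nat_lit 10) true (nat_lit 17) true (nat_lit 17) (.e false (nat_lit 2) (nat_lit 122) (nat_lit 7) (nat_lit 11) (.e false (nat_lit 1) (nat_lit 129) (nat_lit 7) (nat_lit 11) (.e true (nat_lit 2) (nat_lit 134) (nat_lit 6) (nat_lit 12) (.e true (nat_lit 1) (nat_lit 155) (nat_lit 6) (nat_lit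 12) (.e true (nat_lit 1) (nat_lit 144) (nat_lit 6) (nat_lit 12) (.e false (nat_lit 1) (nat_lit 227) (nat_lit 2) (nat_lit 16) (.e false (nat_lit 3) (nat_lit 242) (nat_lit 2) (nat_lit 16) (.e false (nat_lit 1) (nat_lit 208) (nat_lit 2) (nat_lit 16) (.e true (nat_lit 1) (nat_lit 216) (nat_lit 2) (nat_lit 16) (.e true (nat_lit 3) (nat_lit 205) (nat_lit 2) (nat_lit 16) (.e true (nat_lit 3) (nat_lit 251) (nat_lit 2) (nat_lit 16) (.e true (nat_lit 2) (nat_lit 252) (nat_lit 1) (nat_lit 17) (.e false (nat_lit 2) (nat_lit 253) (nat_lit 1) (nat_lit 17) (.e true (nat_lit 2) (nat_lit 254) (nat_lit 1) (nat_lit 17) (.e true (nat_lit 3) (nat_lit 258) (nat_lit 1) (nat_lit 17) (.e false (nat_lit 1) (nat_lit 265) (nat_lit 1) (nat_lit 17) (.e false (nat_lit 1) (nat_lit 267) (nat_lit 1) (nat_lit 17) (.e false (nat_lit 2) (nat_lit 269) (nat_lit 1) (nat_lit 17) (.e false (nat_lit 3) (nat_lit 270) (nat_lit 1) (nat_lit 17) (.e false (nat_lit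 1) (nat_lit 271) (nat_lit 1) (nat_lit 17) (.e true (nat_lit 2) (nat_lit 272) (nat_lit 1) (nat_lit 17) dC2d_i267)))))))))))))))))))))))))

noncomputable def dC2d_i269 : IL := (.s false (nat_lit 1) (nat_lit 77) (nat_lit 0) (nat_lit 2) (nat_lit 2) true (nat_lit 13) true (nat_lit 16) false (nat_lit 6) true (nat_lit 18) true (nat_lit 16) (.s true (nat_lit 1) (nat_lit 78) (nat_lit 0) (nat_lit 2) (nat_lit 2) true (nat_lit 13) true (nat_lit 16) false (nat_lit 6) true (nat_lit 18) true (nat_lit 16) (.s true (nat_lit 1) (nat_lit 79) (nat_lit 0) (nat_lit 2) (nat_lit 2) true (nat_lit 13) true (nat_lit 16) false (nat_lit 6) true (nat_lit 18) true (nat_lit 16) (.s false (nat_lit 1) (nat_lit 80) (nat_lit 1) (nat_lit 1) (nat_lit 2) true (nat_lit 12) true (nat_lit 16) false (nat_lit 7) true (nat_lit 17) true (nat_lit 17) (.s true (nat_lit 3) (nat_lit 83) (nat_lit 1) (nat_lit 1) (nat_lit 2) true (nat_lit 12) true (nat_lit 16) false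 (nat_lit 7) true (nat_lit 17) true (nat_lit 17) (.s true (nat_lit 1) (nat_lit 88) (nat_lit 1) (nat_lit 1) (nat_lit 2) true (nat_lit 12) true (nat_lit 16) false (nat_lit 7) true (nat_lit 17) true (nat_lit 17) (.s false (nat_lit 2) (nat_lit 89) (nat_lit 1) (nat_lit 1) (nat_lit 2) true (nat_lit 12) true (nat_lit 16) false (nat_lit 7) true (nat_lit 17) true (nat_lit 17) (.s false (nat_lit 2) (nat_lit 81) (nat_lit 1) (nat_lit 2) (nat_lit 1) true (nat_lit 14) true (nat_lit 17) false (nat_lit 7) true (nat_lit 17) true (nat_lit 16) (.s true (nat_lit 1) (nat_lit 82) (nat_lit 1) (nat_lit 2) (nat_lit 1) true (nat_lit 14) true (nat_lit 17) false (nat_lit 7) true (nat_lit 17) true (nat_lit 16) (.s false (nat_lit 3) (nat_lit 84) (nat_lit 1) (nat_lit 2) (nat_lit 1) true (nat_lit 14) true (nat_lit 17) false (nat_lit 7) true (nat_lit 17) true (nat_lit 16) (.s true (nat_lit 3) (nat_lit 85) (nat_lit 1) (nat_lit 2) (nat_lit 1) true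 (nat_lit 14) true (nat_lit 17) false (nat_lit 7) true (nat_lit 17) true (nat_lit 16) (.s true (nat_lit 2) (nat_lit 86) (nat_lit 1) (nat_lit 2) (nat_lit 1) true (nat_lit 14) true (nat_lit 17) false (nat_lit 7) true (nat_lit 17) true (nat_lit 16) (.s true (nat_lit 2) (nat_lit 87) (nat_lit 1) (nat_lit 2) (nat_lit 1) true (nat_lit 14) true (nat_lit 17) false (nat_lit 7) true (nat_lit 17) true (nat_lit 16) (.s true (nat_lit 3) (nat_lit 88) (nat_lit 1) (nat_lit 2) (nat_lit 1) true (nat_lit 14) true (nat_lit 17) false (nat_lit 7) true (nat_lit 17) true (nat_lit 16) (.s false (nat_lit 1) (nat_lit 89) (nat_lit 1) (nat_lit 2) (nat_lit 1) true (nat_lit 14) true (nat_lit 17) false (nat_lit 7) true (nat_lit 17) true (nat_lit 16) (.s false (nat_lit 3) (nat_lit 90) (nat_lit 1) (nat_lit 2) (nat_lit 1) true (nat_lit 14) true (nat_lit 17) false (nat_lit 7) true (nat_lit 17) true (nat_lit 16) (.s true (nat_lit 2) (nat_lit 81) (nat_lit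 2) (nat_lit 1) (nat_lit 1) true (nat_lit 12) true (nat_lit 17) false (nat_lit 7) true (nat_lit 16) true (nat_lit 17) (.s true (nat_lit 1) (nat_lit 83) (nat_lit 2) (nat_lit 1) (nat_lit 1) true (nat_lit 12) true (nat_lit 17) false (nat_lit 7) true (nat_lit 16) true (nat_lit 17) (.s true (nat_lit 1) (nat_lit 88) (nat_lit 2) (nat_lit 1) (nat_lit 1) true (nat_lit 12) true (nat_lit 17) false (nat_lit 7) true (nat_lit 16) true (nat_lit 17) (.s true (nat_lit 1) (nat_lit 89) (nat_lit 2) (nat_lit 1) (nat_lit 1) true (nat_lit 12) true (nat_lit 17) false (nat_lit 7) true (nat_lit 16) true (nat_lit 17) (.s true (nat_lit 3) (nat_lit 91) (nat_lit 0) (nat_lit 2) (nat_lit 1) true (nat_lit 15) true (nat_lit 17) false (nat_lit 8) true (nat_lit 18) true (nat_lit 16) (.s false (nat_lit 1) (nat_lit 91) (nat_lit 1) (nat_lit 2) (nat_lit 0) true (nat_lit 15) true (nat_lit 18) false (nat_lit 8) true (nat_lit 17) true (nat_lit 16) (.s true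 (nat_lit 1) (nat_lit 92) (nat_lit 1) (nat_lit 2) (nat_lit 0) true (nat_lit 15) true (nat_lit 18) false (nat_lit 8) true (nat_lit 17) true (nat_lit 16) (.s false (nat_lit 1) (nat_lit 92) (nat_lit 2) (nat_lit 1) (nat_lit 0) true (nat_lit 13) true (nat_lit 18) false (nat_lit 8) true (nat_lit 16) true (nat_lit 17) (.s false (nat_lit 2) (nat_lit 93) (nat_lit 2) (nat_lit 1) (nat_lit 0) true (nat_lit 13) true (nat_lit 18) false (nat_lit 8) true (nat_lit 16) true (nat_lit 17) dC2d_i268)))))))))))))))))))))))))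

noncomputable def dC2d_i270 : IL := (.s false (nat_lit 3) (nat_lit 60) (nat_lit 1) (nat_lit 2) (nat_lit 2) true (nat_lit 12) true (nat_lit 16) false (nat_lit 5) true (nat_lit 17) true (nat_lit 16) (.s true (nat_lit 1) (nat_lit 61) (nat_lit 1) (nat_lit 2) (nat_lit 2) true (nat_lit 12) true (nat_lit 16) false (nat_lit 5) true (nat_lit 17) true (nat_lit 16) (.s true (nat_lit 1) (nat_lit 63) (nat_lit 1) (nat_lit 2) (nat_lit 2) true (nat_lit 12) true (nat_lit 16) false (nat_lit 5) true (nat_lit 17) true (nat_lit 16) (.s false (nat_lit 3) (nat_lit 64) (nat_lit 1) (nat_lit 2) (nat_lit 2) true (nat_lit 12) true (nat_lit 16) false (nat_lit 5) true (nat_lit 17) true (nat_lit 16) (.s false (nat_lit 2) (nat_lit 66) (nat_lit 1) (nat_lit 2) (nat_lit 2) true (nat_lit 12) true (nat_lit 16) false (nat_lit 5) true (nat_lit 17) true (nat_lit 16) (.s true (nat_lit 2) (nat_lit 68) (nat_lit 1) (nat_lit 2) (nat_lit 2) true (nat_lit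 12) true (nat_lit 16) false (nat_lit 5) true (nat_lit 17) true (nat_lit 16) (.s true (nat_lit 1) (nat_lit 70) (nat_lit 1) (nat_lit 2) (nat_lit 2) true (nat_lit 12) true (nat_lit 16) false (nat_lit 5) true (nat_lit 17) true (nat_lit 16) (.s true (nat_lit 3) (nat_lit 72) (nat_lit 1) (nat_lit 2) (nat_lit 2) true (nat_lit 12) true (nat_lit 16) false (nat_lit 5) true (nat_lit 17) true (nat_lit 16) (.s false (nat_lit 1) (nat_lit 73) (nat_lit 1) (nat_lit 2) (nat_lit 2) true (nat_lit 12) true (nat_lit 16) false (nat_lit 5) true (nat_lit 17) true (nat_lit 16) (.s false (nat_lit 2) (nat_lit 61) (nat_lit 2) (nat_lit 1) (nat_lit 2) true (nat_lit 11) true (nat_lit 16) false (nat_lit 5) true (nat_lit 16) true (nat_lit 17) (.s true (nat_lit 1) (nat_lit 62) (nat_lit 2) (nat_lit 1) (nat_lit 2) true (nat_lit 11) true (nat_lit 16) false (nat_lit 5) true (nat_lit 16) true (nat_lit 17) (.s true (nat_lit 1) (nat_lit 63) (nat_lit 2)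 (nat_lit 1) (nat_lit 2) true (nat_lit 11) true (nat_lit 16) false (nat_lit 5) true (nat_lit 16) true (nat_lit 17) (.s true (nat_lit 1) (nat_lit 64) (nat_lit 2) (nat_lit 1) (nat_lit 2) true (nat_lit 11) true (nat_lit 16) false (nat_lit 5) true (nat_lit 16) true (nat_lit 17) (.s true (nat_lit 3) (nat_lit 65) (nat_lit 2) (nat_lit 1) (nat_lit 2) true (nat_lit 11) true (nat_lit 16) false (nat_lit 5) true (nat_lit 16) true (nat_lit 17) (.s true (nat_lit 3) (nat_lit 66) (nat_lit 2) (nat_lit 1) (nat_lit 2) true (nat_lit 11) true (nat_lit 16) false (nat_lit 5) true (nat_lit 16) true (nat_lit 17) (.s false (nat_lit 3) (nat_lit 69) (nat_lit 2) (nat_lit 1) (nat_lit 2) true (nat_lit 11) true (nat_lit 16) false (nat_lit 5) true (nat_lit 16) true (nat_lit 17) (.s false (nat_lit 1) (nat_lit 70) (nat_lit 2) (nat_lit 1) (nat_lit 2) true (nat_lit 11) true (nat_lit 16) false (nat_lit 5) true (nat_lit 16) true (nat_lit 17) (.s true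 (nat_lit 2) (nat_lit 72) (nat_lit 2) (nat_lit 1) (nat_lit 2) true (nat_lit 11) true (nat_lit 16) false (nat_lit 5) true (nat_lit 16) true (nat_lit 17) (.s false (nat_lit 1) (nat_lit 73) (nat_lit 2) (nat_lit 1) (nat_lit 2) true (nat_lit 11) true (nat_lit 16) false (nat_lit 5) true (nat_lit 16) true (nat_lit 17) (.s true (nat_lit 1) (nat_lit 61) (nat_lit 2) (nat_lit 2) (nat_lit 1) true (nat_lit 12) true (nat_lit 17) false (nat_lit 5) true (nat_lit 16) true (nat_lit 16) (.s false (nat_lit 3) (nat_lit 62) (nat_lit 2) (nat_lit 2) (nat_lit 1) true (nat_lit 12) true (nat_lit 17) false (nat_lit 5) true (nat_lit 16) true (nat_lit 16) (.s true (nat_lit 1) (nat_lit 66) (nat_lit 2) (nat_lit 2) (nat_lit 1) true (nat_lit 12) true (nat_lit 17) false (nat_lit 5) true (nat_lit 16) true (nat_lit 16) (.s false (nat_lit 2) (nat_lit 67) (nat_lit 2) (nat_lit 2) (nat_lit 1) true (nat_lit 12) true (nat_lit 17) false (nat_lit 5) true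 (nat_lit 16) true (nat_lit 16) (.s false (nat_lit 1) (nat_lit 69) (nat_lit 2) (nat_lit 2) (nat_lit 1) true (nat_lit 12) true (nat_lit 17) false (nat_lit 5) true (nat_lit 16) true (nat_lit 16) (.s true (nat_lit 1) (nat_lit 76) (nat_lit 0) (nat_lit 2) (nat_lit 2) true (nat_lit 13) true (nat_lit 16) false (nat_lit 6) true (nat_lit 18) true (nat_lit 16) dC2d_i269)))))))))))))))))))))))))

noncomputable def dC2d_i271 : IL := (.s false (nat_lit 3) (nat_lit 40) (nat_lit 1) (nat_lit 5) (nat_lit 2) true (nat_lit 12) true (nat_lit 16) false (nat_lit 0) true (nat_lit 17) true (nat_lit 13) (.s false (nat_lit 2) (nat_lit 41) (nat_lit 1) (nat_lit 5) (nat_lit 2) true (nat_lit 12) true (nat_lit 16) false (nat_lit 0) true (nat_lit 17) true (nat_lit 13) (.s false (nat_lit 2) (nat_lit 40) (nat_lit 2) (nat_lit 1) (nat_lit 5) true (nat_lit 6) true (nat_lit 13) false (nat_lit 0) true (nat_lit 16) true (nat_lit 17) (.s true (nat_lit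 2) (nat_lit 40) (nat_lit 2) (nat_lit 2) (nat_lit 3) true (nat_lit 8) true (nat_lit 15) false (nat_lit 0) true (nat_lit 16) true (nat_lit 16) (.s true (nat_lit 2) (nat_lit 40) (nat_lit 2) (nat_lit 5) (nat_lit 1) true (nat_lit 12) true (nat_lit 17) false (nat_lit 0) true (nat_lit 16) true (nat_lit 13) (.s true (nat_lit 3) (nat_lit 39) (nat_lit 3) (nat_lit 2) (nat_lit 2) true (nat_lit 8) true (nat_lit 16) false (nat_lit 0) true (nat_lit 15) true (nat_lit 16) (.s false (nat_lit 1) (nat_lit 41) (nat_lit 5) (nat_lit 2) (nat_lit 1) true (nat_lit 8) true (nat_lit 17) false (nat_lit 0) true (nat_lit 13) true (nat_lit 16) (.s true (nat_lit 3) (nat_lit 46) (nat_lit 1) (nat_lit 2) (nat_lit 3) true (nat_lit 10) true (nat_lit 15) false (nat_lit 2) true (nat_lit 17) true (nat_lit 16) (.s false (nat_lit 2) (nat_lit 46) (nat_lit 1) (nat_lit 3) (nat_lit 2) true (nat_lit 12) true (nat_lit 16) false (nat_lit 2) true (nat_lit 17)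 true (nat_lit 15) (.s false (nat_lit 2) (nat_lit 47) (nat_lit 1) (nat_lit 3) (nat_lit 2) true (nat_lit 12) true (nat_lit 16) false (nat_lit 2) true (nat_lit 17) true (nat_lit 15) (.s true (nat_lit 1) (nat_lit 46) (nat_lit 2) (nat_lit 1) (nat_lit 3) true (nat_lit 8) true (nat_lit 15) false (nat_lit 2) true (nat_lit 16) true (nat_lit 17) (.s true (nat_lit 3) (nat_lit 47) (nat_lit 2) (nat_lit 1) (nat_lit 3) true (nat_lit 8) true (nat_lit 15) false (nat_lit 2) true (nat_lit 16) true (nat_lit 17) (.s false (nat_lit 1) (nat_lit 46) (nat_lit 2) (nat_lit 3) (nat_lit 1) true (nat_lit 12) true (nat_lit 17) false (nat_lit 2) true (nat_lit 16) true (nat_lit 15) (.s false (nat_lit 1) (nat_lit 46) (nat_lit 3) (nat_lit 1) (nat_lit 2) true (nat_lit 8) true (nat_lit 16) false (nat_lit 2) true (nat_lit 15) true (nat_lit 17) (.s false (nat_lit 1) (nat_lit 47) (nat_lit 3) (nat_lit 1) (nat_lit 2) true (nat_lit 8) true (nat_lit 16)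 false (nat_lit 2) true (nat_lit 15) true (nat_lit 17) (.s false (nat_lit 1) (nat_lit 48) (nat_lit 1) (nat_lit 1) (nat_lit 3) true (nat_lit 10) true (nat_lit 15) false (nat_lit 3) true (nat_lit 17) true (nat_lit 17) (.s true (nat_lit 2) (nat_lit 48) (nat_lit 3) (nat_lit 1) (nat_lit 1) true (nat_lit 10) true (nat_lit 17) false (nat_lit 3) true (nat_lit 15) true (nat_lit 17) (.s true (nat_lit 3) (nat_lit 48) (nat_lit 4) (nat_lit 1) (nat_lit 0) true (nat_lit 10) true (nat_lit 18) false (nat_lit 3) true (nat_lit 14) true (nat_lit 17) (.s false (nat_lit 1) (nat_lit 52) (nat_lit 2) (nat_lit 2) (nat_lit 2) true (nat_lit 11) true (nat_lit 16) false (nat_lit 4) true (nat_lit 16) true (nat_lit 16) (.s true (nat_lit 1) (nat_lit 53) (nat_lit 2) (nat_lit 2) (nat_lit 2) true (nat_lit 11) true (nat_lit 16) false (nat_lit 4) true (nat_lit 16) true (nat_lit 16) (.s false (nat_lit 3) (nat_lit 55) (nat_lit 2) (nat_lit 2) (nat_lit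 2) true (nat_lit 11) true (nat_lit 16) false (nat_lit 4) true (nat_lit 16) true (nat_lit 16) (.s true (nat_lit 3) (nat_lit 56) (nat_lit 2) (nat_lit 2) (nat_lit 2) true (nat_lit 11) true (nat_lit 16) false (nat_lit 4) true (nat_lit 16) true (nat_lit 16) (.s false (nat_lit 2) (nat_lit 57) (nat_lit 2) (nat_lit 2) (nat_lit 2) true (nat_lit 11) true (nat_lit 16) false (nat_lit 4) true (nat_lit 16) true (nat_lit 16) (.s false (nat_lit 1) (nat_lit 58) (nat_lit 2) (nat_lit 2) (nat_lit 2) true (nat_lit 11) true (nat_lit 16) false (nat_lit 4) true (nat_lit 16) true (nat_lit 16) (.s true (nat_lit 2) (nat_lit 59) (nat_lit 2) (nat_lit 2) (nat_lit 2) true (nat_lit 11) true (nat_lit 16) false (nat_lit 4) true (nat_lit 16) true (nat_lit 16) dC2d_i270)))))))))))))))))))))))))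

noncomputable def dC2d_i272 : IL := (.s true (nat_lit 1) (nat_lit 30) (nat_lit 2) (nat_lit 2) (nat_lit 5) true (nat_lit 6) true (nat_lit 13) true (nat_lit 1) true (nat_lit 16) true (nat_lit 16) (.s true (nat_lit 1) (nat_lit 33) (nat_lit 1) (nat_lit 1) (nat_lit 7) true (nat_lit 5) true (nat_lit 11) true (nat_lit 0) true (nat_lit 17) true (nat_lit 17) (.s true (nat_lit 2) (nat_lit 34) (nat_lit 1) (nat_lit 1) (nat_lit 7) true (nat_lit 5) true (nat_lit 11) true (nat_lit 0) true (nat_lit 17) true (nat_lit 17) (.s true (nat_lit 1) (nat_lit 38) (nat_lit 1) (nat_lit 1) (nat_lit 7) true (nat_lit 5) true (nat_lit 11) true (nat_lit 0) true (nat_lit 17) true (nat_lit 17) (.s false (nat_lit 3) (nat_lit 33) (nat_lit 1) (nat_lit 2) (nat_lit 6) true (nat_lit 7) true (nat_lit 12) true (nat_lit 0) true (nat_lit 17) true (nat_lit 16) (.s false (nat_lit 1) (nat_lit 34) (nat_lit 1) (nat_lit 2) (nat_lit 6) true (nat_lit 7) true (nat_lit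 12) true (nat_lit 0) true (nat_lit 17) true (nat_lit 16) (.s true (nat_lit 2) (nat_lit 37) (nat_lit 1) (nat_lit 2) (nat_lit 6) true (nat_lit 7) true (nat_lit 12) true (nat_lit 0) true (nat_lit 17) true (nat_lit 16) (.s false (nat_lit 3) (nat_lit 38) (nat_lit 1) (nat_lit 2) (nat_lit 6) true (nat_lit 7) true (nat_lit 12) true (nat_lit 0) true (nat_lit 17) true (nat_lit 16) (.s false (nat_lit 2) (nat_lit 34) (nat_lit 1) (nat_lit 7) (nat_lit 1) true (nat_lit 14) true (nat_lit 17) true (nat_lit 0) true (nat_lit 17) true (nat_lit 11) (.s false (nat_lit 3) (nat_lit 38) (nat_lit 1) (nat_lit 7) (nat_lit 1) true (nat_lit 14) true (nat_lit 17) true (nat_lit 0) true (nat_lit 17) true (nat_lit 11) (.s false (nat_lit 3) (nat_lit 34) (nat_lit 2) (nat_lit 1) (nat_lit 6) true (nat_lit 5) true (nat_lit 12) true (nat_lit 0) true (nat_lit 16) true (nat_lit 17) (.s true (nat_lit 3) (nat_lit 36) (nat_lit 2) (nat_lit 1) (nat_lit 6)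 true (nat_lit 5) true (nat_lit 12) true (nat_lit 0) true (nat_lit 16) true (nat_lit 17) (.s false (nat_lit 3) (nat_lit 33) (nat_lit 2) (nat_lit 2) (nat_lit 4) true (nat_lit 7) true (nat_lit 14) true (nat_lit 0) true (nat_lit 16) true (nat_lit 16) (.s false (nat_lit 3) (nat_lit 36) (nat_lit 2) (nat_lit 2) (nat_lit 4) true (nat_lit 7) true (nat_lit 14) true (nat_lit 0) true (nat_lit 16) true (nat_lit 16) (.s false (nat_lit 1) (nat_lit 37) (nat_lit 2) (nat_lit 2) (nat_lit 4) true (nat_lit 7) true (nat_lit 14) true (nat_lit 0) true (nat_lit 16) true (nat_lit 16) (.s true (nat_lit 3) (nat_lit 38) (nat_lit 2) (nat_lit 2) (nat_lit 4) true (nat_lit 7) true (nat_lit 14) true (nat_lit 0) true (nat_lit 16) true (nat_lit 16) (.s true (nat_lit 1) (nat_lit 33) (nat_lit 2) (nat_lit 6) (nat_lit 1) true (nat_lit 12) true (nat_lit 17) true (nat_lit 0) true (nat_lit 16) true (nat_lit 12) (.s false (nat_lit 2) (nat_lit 34) (nat_lit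 2) (nat_lit 6) (nat_lit 1) true (nat_lit 12) true (nat_lit 17) true (nat_lit 0) true (nat_lit 16) true (nat_lit 12) (.s false (nat_lit 1) (nat_lit 33) (nat_lit 4) (nat_lit 2) (nat_lit 2) true (nat_lit 7) true (nat_lit 16) true (nat_lit 0) true (nat_lit 14) true (nat_lit 16) (.s true (nat_lit 1) (nat_lit 37) (nat_lit 4) (nat_lit 2) (nat_lit 2) true (nat_lit 7) true (nat_lit 16) true (nat_lit 0) true (nat_lit 14) true (nat_lit 16) (.s false (nat_lit 3) (nat_lit 38) (nat_lit 4) (nat_lit 2) (nat_lit 2) true (nat_lit 7) true (nat_lit 16) true (nat_lit 0) true (nat_lit 14) true (nat_lit 16) (.s false (nat_lit 1) (nat_lit 34) (nat_lit 6) (nat_lit 2) (nat_lit 1) true (nat_lit 7) true (nat_lit 17) true (nat_lit 0) true (nat_lit 12) true (nat_lit 16) (.s false (nat_lit 1) (nat_lit 39) (nat_lit 0) (nat_lit 2) (nat_lit 6) true (nat_lit 8) true (nat_lit 12) false (nat_lit 0) true (nat_lit 18) true (nat_lit 16) (.s false (nat_lit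 3) (nat_lit 40) (nat_lit 0) (nat_lit 2) (nat_lit 6) true (nat_lit 8) true (nat_lit 12) false (nat_lit 0) true (nat_lit 18) true (nat_lit 16) (.s false (nat_lit 2) (nat_lit 41) (nat_lit 0) (nat_lit 2) (nat_lit 6) true (nat_lit 8) true (nat_lit 12) false (nat_lit 0) true (nat_lit 18) true (nat_lit 16) dC2d_i271)))))))))))))))))))))))))

noncomputable def dC2d_i273 : IL := (.s true (nat_lit 3) (nat_lit 20) (nat_lit 3) (nat_lit 4) (nat_lit 2) true (nat_lit 8) true (nat_lit 16) true (nat_lit 4) true (nat_lit 15) true (nat_lit 14) (.s true (nat_lit 3) (nat_lit 20) (nat_lit 9) (nat_lit 2) (nat_lit 1) true (nat_lit 3) true (nat_lit 17) true (nat_lit 4) true (nat_lit 10) true (nat_lit 16) (.s false (nat_lit 3) (nat_lit 20) (nat_lit 11) (nat_lit 1) (nat_lit 1) true (nat_lit 2) true (nat_lit 17) true (nat_lit 4) true (nat_lit 8) true (nat_lit 17) (.s false (nat_lit 2) (nat_lit 20) (nat_lit 12) (nat_lit 1) (nat_lit 1) true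 (nat_lit 2) true (nat_lit 17) true (nat_lit 4) true (nat_lit 8) true (nat_lit 17) (.s true (nat_lit 1) (nat_lit 21) (nat_lit 2) (nat_lit 2) (nat_lit 7) true (nat_lit 4) true (nat_lit 11) true (nat_lit 3) true (nat_lit 16) true (nat_lit 16) (.s false (nat_lit 3) (nat_lit 22) (nat_lit 2) (nat_lit 2) (nat_lit 7) true (nat_lit 4) true (nat_lit 11) true (nat_lit 3) true (nat_lit 16) true (nat_lit 16) (.s false (nat_lit 3) (nat_lit 23) (nat_lit 2) (nat_lit 2) (nat_lit 7) true (nat_lit 4) true (nat_lit 11) true (nat_lit 3) true (nat_lit 16) true (nat_lit 16) (.s false (nat_lit 1) (nat_lit 21) (nat_lit 2) (nat_lit 7) (nat_lit 2) true (nat_lit 11) true (nat_lit 16) true (nat_lit 3) true (nat_lit 16) true (nat_lit 11) (.s true (nat_lit 3) (nat_lit 22) (nat_lit 2) (nat_lit 7) (nat_lit 2) true (nat_lit 11) true (nat_lit 16) true (nat_lit 3) true (nat_lit 16) true (nat_lit 11) (.s false (nat_lit 2) (nat_lit 23) (nat_lit 2)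 (nat_lit 7) (nat_lit 2) true (nat_lit 11) true (nat_lit 16) true (nat_lit 3) true (nat_lit 16) true (nat_lit 11) (.s true (nat_lit 1) (nat_lit 21) (nat_lit 7) (nat_lit 2) (nat_lit 2) true (nat_lit 4) true (nat_lit 16) true (nat_lit 3) true (nat_lit 11) true (nat_lit 16) (.s true (nat_lit 2) (nat_lit 23) (nat_lit 7) (nat_lit 2) (nat_lit 2) true (nat_lit 4) true (nat_lit 16) true (nat_lit 3) true (nat_lit 11) true (nat_lit 16) (.s false (nat_lit 3) (nat_lit 24) (nat_lit 1) (nat_lit 7) (nat_lit 2) true (nat_lit 12) true (nat_lit 16) true (nat_lit 2) true (nat_lit 17) true (nat_lit 11) (.s true (nat_lit 2) (nat_lit 25) (nat_lit 1) (nat_lit 7) (nat_lit 2) true (nat_lit 12) true (nat_lit 16) true (nat_lit 2) true (nat_lit 17) true (nat_lit 11) (.s true (nat_lit 2) (nat_lit 26) (nat_lit 1) (nat_lit 7) (nat_lit 2) true (nat_lit 12) true (nat_lit 16) true (nat_lit 2) true (nat_lit 17) true (nat_lit 11) (.s false (nat_lit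 3) (nat_lit 27) (nat_lit 1) (nat_lit 7) (nat_lit 2) true (nat_lit 12) true (nat_lit 16) true (nat_lit 2) true (nat_lit 17) true (nat_lit 11) (.s true (nat_lit 2) (nat_lit 24) (nat_lit 2) (nat_lit 1) (nat_lit 7) true (nat_lit 4) true (nat_lit 11) true (nat_lit 2) true (nat_lit 16) true (nat_lit 17) (.s true (nat_lit 3) (nat_lit 29) (nat_lit 2) (nat_lit 1) (nat_lit 7) true (nat_lit 4) true (nat_lit 11) true (nat_lit 2) true (nat_lit 16) true (nat_lit 17) (.s true (nat_lit 3) (nat_lit 27) (nat_lit 2) (nat_lit 2) (nat_lit 6) true (nat_lit 5) true (nat_lit 12) true (nat_lit 2) true (nat_lit 16) true (nat_lit 16) (.s false (nat_lit 3) (nat_lit 29) (nat_lit 2) (nat_lit 2) (nat_lit 6) true (nat_lit 5) true (nat_lit 12) true (nat_lit 2) true (nat_lit 16) true (nat_lit 16) (.s true (nat_lit 2) (nat_lit 25) (nat_lit 2) (nat_lit 6) (nat_lit 2) true (nat_lit 11) true (nat_lit 16) true (nat_lit 2) true (nat_lit 16) true (nat_lit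 12) (.s false (nat_lit 1) (nat_lit 25) (nat_lit 6) (nat_lit 2) (nat_lit 2) true (nat_lit 5) true (nat_lit 16) true (nat_lit 2) true (nat_lit 12) true (nat_lit 16) (.s true (nat_lit 1) (nat_lit 27) (nat_lit 6) (nat_lit 2) (nat_lit 2) true (nat_lit 5) true (nat_lit 16) true (nat_lit 2) true (nat_lit 12) true (nat_lit 16) (.s true (nat_lit 3) (nat_lit 25) (nat_lit 7) (nat_lit 1) (nat_lit 2) true (nat_lit 4) true (nat_lit 16) true (nat_lit 2) true (nat_lit 11) true (nat_lit 17) (.s false (nat_lit 1) (nat_lit 25) (nat_lit 7) (nat_lit 2) (nat_lit 1) true (nat_lit 5) true (nat_lit 17) true (nat_lit 2) true (nat_lit 11) true (nat_lit 16) dC2d_i272)))))))))))))))))))))))))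

noncomputable def dC2d_i274 : IL := (.s false (nat_lit 1) (nat_lit 14) (nat_lit 2) (nat_lit 2) (nat_lit 11) true (nat_lit 0) true (nat_lit 8) true (nat_lit 7) true (nat_lit 16) true (nat_lit 16) (.s false (nat_lit 3) (nat_lit 14) (nat_lit 2) (nat_lit 2) (nat_lit 12) true (nat_lit 0) true (nat_lit 8) true (nat_lit 7) true (nat_lit 16) true (nat_lit 16) (.s true (nat_lit 3) (nat_lit 15) (nat_lit 2) (nat_lit 2) (nat_lit 13) true (nat_lit 0) true (nat_lit 8) true (nat_lit 7) true (nat_lit 16) true (nat_lit 16) (.s true (nat_lit 2) (nat_lit 15) (nat_lit 2) (nat_lit 3) (nat_lit 7) true (nat_lit 4) true (nat_lit 11) true (nat_lit 7) true (nat_lit 16) true (nat_lit 15) (.s false (nat_lit 3) (nat_lit 15) (nat_lit 2) (nat_lit 11) (nat_lit 2) true (nat_lit 11) true (nat_lit 16) true (nat_lit 7) true (nat_lit 16) true (nat_lit 8) (.s false (nat_lit 1) (nat_lit 15) (nat_lit 5) (nat_lit 6) (nat_lit 2) true (nat_lit 6) true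 (nat_lit 16) true (nat_lit 7) true (nat_lit 13) true (nat_lit 12) (.s true (nat_lit 1) (nat_lit 15) (nat_lit 7) (nat_lit 2) (nat_lit 3) true (nat_lit 0) true (nat_lit 15) true (nat_lit 7) true (nat_lit 11) true (nat_lit 16) (.s true (nat_lit 2) (nat_lit 14) (nat_lit 11) (nat_lit 2) (nat_lit 2) true (nat_lit 0) true (nat_lit 16) true (nat_lit 7) true (nat_lit 8) true (nat_lit 16) (.s true (nat_lit 2) (nat_lit 16) (nat_lit 2) (nat_lit 1) (nat_lit 15) false (nat_lit 0) true (nat_lit 7) true (nat_lit 6) true (nat_lit 16) true (nat_lit 17) (.s true (nat_lit 1) (nat_lit 16) (nat_lit 2) (nat_lit 2) (nat_lit 10) true (nat_lit 1) true (nat_lit 9) true (nat_lit 6) true (nat_lit 16) true (nat_lit 16) (.s true (nat_lit 1) (nat_lit 16) (nat_lit 2) (nat_lit 10) (nat_lit 2) true (nat_lit 11) true (nat_lit 16) true (nat_lit 6) true (nat_lit 16) true (nat_lit 9) (.s false (nat_lit 1) (nat_lit 16) (nat_lit 10) (nat_lit 2) (nat_lit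 2) true (nat_lit 1) true (nat_lit 16) true (nat_lit 6) true (nat_lit 9) true (nat_lit 16) (.s true (nat_lit 3) (nat_lit 18) (nat_lit 0) (nat_lit 1) (nat_lit 18) true (nat_lit 0) true (nat_lit 5) true (nat_lit 5) true (nat_lit 18) true (nat_lit 17) (.s true (nat_lit 1) (nat_lit 18) (nat_lit 1) (nat_lit 2) (nat_lit 12) true (nat_lit 2) true (nat_lit 8) true (nat_lit 5) true (nat_lit 17) true (nat_lit 16) (.s false (nat_lit 1) (nat_lit 18) (nat_lit 1) (nat_lit 11) (nat_lit 2) true (nat_lit 12) true (nat_lit 16) true (nat_lit 5) true (nat_lit 17) true (nat_lit 8) (.s true (nat_lit 2) (nat_lit 18) (nat_lit 2) (nat_lit 0) (nat_lit 15) false (nat_lit 0) true (nat_lit 7) true (nat_lit 5) true (nat_lit 16) true (nat_lit 18) (.s false (nat_lit 2) (nat_lit 18) (nat_lit 2) (nat_lit 1) (nat_lit 11) true (nat_lit 0) true (nat_lit 8) true (nat_lit 5) true (nat_lit 16) true (nat_lit 17) (.s true (nat_lit 3) (nat_lit 19) (nat_lit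 2) (nat_lit 2) (nat_lit 8) true (nat_lit 2) true (nat_lit 10) true (nat_lit 5) true (nat_lit 16) true (nat_lit 16) (.s false (nat_lit 3) (nat_lit 18) (nat_lit 9) (nat_lit 2) (nat_lit 2) true (nat_lit 2) true (nat_lit 16) true (nat_lit 5) true (nat_lit 10) true (nat_lit 16) (.s false (nat_lit 3) (nat_lit 19) (nat_lit 11) (nat_lit 1) (nat_lit 2) true (nat_lit 0) true (nat_lit 16) true (nat_lit 5) true (nat_lit 8) true (nat_lit 17) (.s true (nat_lit 2) (nat_lit 19) (nat_lit 11) (nat_lit 2) (nat_lit 1) true (nat_lit 2) true (nat_lit 17) true (nat_lit 5) true (nat_lit 8) true (nat_lit 16) (.s false (nat_lit 2) (nat_lit 20) (nat_lit 1) (nat_lit 1) (nat_lit 12) true (nat_lit 2) true (nat_lit 8) true (nat_lit 4) true (nat_lit 17) true (nat_lit 17) (.s true (nat_lit 2) (nat_lit 20) (nat_lit 1) (nat_lit 3) (nat_lit 6) true (nat_lit 7) true (nat_lit 12) true (nat_lit 4) true (nat_lit 17) true (nat_lit 15) (.s true (nat_lit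 2) (nat_lit 20) (nat_lit 1) (nat_lit 12) (nat_lit 1) true (nat_lit 14) true (nat_lit 17) true (nat_lit 4) true (nat_lit 17) true (nat_lit 8) (.s false (nat_lit 1) (nat_lit 20) (nat_lit 2) (nat_lit 1) (nat_lit 8) true (nat_lit 2) true (nat_lit 10) true (nat_lit 4) true (nat_lit 16) true (nat_lit 17) dC2d_i273)))))))))))))))))))))))))

noncomputable def dC2d_i275 : IL := (.e false (nat_lit 3) (nat_lit 286) (nat_lit 1) (nat_lit 17) (.e false (nat_lit 3) (nat_lit 244) (nat_lit 2) (nat_lit 16) (.e true (nat_lit 1) (nat_lit 250) (nat_lit 2) (nat_lit 16) (.e true (nat_lit 3) (nat_lit 239) (nat_lit 2) (nat_lit 16) (.e true (nat_lit 2) (nat_lit 288) (nat_lit 1) (nat_lit 17) (.e true (nat_lit 1) (nat_lit 257) (nat_lit 1) (nat_lit 17) (.e true (nat_lit 3) (nat_lit 81) (nat_lit 15) (nat_lit 7) (.e true (nat_lit 1) (nat_lit 130) (nat_lit 7) (nat_lit 11) (.e true (nat_lit 1) (nat_lit 284) (nat_lit 1) (nat_lit 17) (.e true (nat_lit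 1) (nat_lit 62) (nat_lit 18) (nat_lit 5) (.e true (nat_lit 2) (nat_lit 298) (nat_lit 0) (nat_lit 18) (.e false (nat_lit 3) (nat_lit 170) (nat_lit 4) (nat_lit 14) (.e false (nat_lit 2) (nat_lit 303) (nat_lit 0) (nat_lit 18) (.e true (nat_lit 1) (nat_lit 289) (nat_lit 0) (nat_lit 18) (.e false (nat_lit 3) (nat_lit 290) (nat_lit 0) (nat_lit 18) (.e true (nat_lit 2) (nat_lit 291) (nat_lit 0) (nat_lit 18) (.e true (nat_lit 2) (nat_lit 292) (nat_lit 0) (nat_lit 18) (.e false (nat_lit 3) (nat_lit 293) (nat_lit 0) (nat_lit 18) (.e false (nat_lit 3) (nat_lit 294) (nat_lit 0) (nat_lit 18) (.e true (nat_lit 1) (nat_lit 295) (nat_lit 0) (nat_lit 18) (.e true (nat_lit 2) (nat_lit 304) (nat_lit 0) (nat_lit 18) (.e true (nat_lit 2) (nat_lit 297) (nat_lit 0) (nat_lit 18) (.u (nat_lit 2) (.p (nat_lit 0) (nat_lit 1) (.p (nat_lit 1) (nat_lit 5) (.n (nat_lit 2) (nat_lit 3) (.p (nat_lit 3) (nat_lit 10) (.n (nat_lit 4) (nat_lit 4)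 (.n (nat_lit 5) (nat_lit 5) (.p (nat_lit 6) (nat_lit 6) (.n (nat_lit 7) (nat_lit 1) (.p (nat_lit 9) (nat_lit 1) (.p (nat_lit 10) (nat_lit 2) (.n (nat_lit 11) (nat_lit 1) (.p (nat_lit 12) (nat_lit 3) (.p (nat_lit 14) (nat_lit 2) (.n (nat_lit 15) (nat_lit 1) (.p (nat_lit 17) (nat_lit 1) (.p (nat_lit 18) (nat_lit 3) (.p (nat_lit 19) (nat_lit 1) (.n (nat_lit 20) (nat_lit 2) (.p (nat_lit 23) (nat_lit 5) (.p (nat_lit 24) (nat_lit 5) (.p (nat_lit 25) (nat_lit 1) (.n (nat_lit 26) (nat_lit 1) (.p (nat_lit 27) (nat_lit 3) (.n (nat_lit 28) (nat_lit 1) (.p (nat_lit 29) (nat_lit 6) (.p (nat_lit 31) (nat_lit 2) (.p (nat_lit 32) (nat_lit 5) (.n (nat_lit 34) (nat_lit 1) (.p (nat_lit 36) (nat_lit 4) (.n (nat_lit 37) (nat_lit 3) (.p (nat_lit 39) (nat_lit 4) (.n (nat_lit 40) (nat_lit 1) (.n (nat_lit 44) (nat_lit 1) (.n (nat_lit 45) (nat_lit 3) (.n (nat_lit 46) (nat_lit 4) (.p (nat_lit 47) (nat_lit 3) (.p (nat_lit 48) (nat_lit 1)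 (.n (nat_lit 50) (nat_lit 1) (.n (nat_lit 55) (nat_lit 1) (.p (nat_lit 57) (nat_lit 1) (.n (nat_lit 67) (nat_lit 1) (.n (nat_lit 90) (nat_lit 1) (.p (nat_lit 93) (nat_lit 1) (.p (nat_lit 96) (nat_lit 1) (.n (nat_lit 110) (nat_lit 1) (.p (nat_lit 111) (nat_lit 1) (.p (nat_lit 113) (nat_lit 1) (.n (nat_lit 114) (nat_lit 1) (.n (nat_lit 115) (nat_lit 1) (.p (nat_lit 116) (nat_lit 1) (.n (nat_lit 118) (nat_lit 1) (.n (nat_lit 120) (nat_lit 1) (.p (nat_lit 127) (nat_lit 1) (.n (nat_lit 129) (nat_lit 1) (.n (nat_lit 136) (nat_lit 1) (.p (nat_lit 184) (nat_lit 1) (.n (nat_lit 185) (nat_lit 1) (.p (nat_lit 210) (nat_lit 2) (.n (nat_lit 211) (nat_lit 2) (.n (nat_lit 214) (nat_lit 2) .z)))))))))))))))))))))))))))))))))))))))))))))))))))))))))))) (.u (nat_lit 2) (.n (nat_lit 215) (nat_lit 1) (.n (nat_lit 216) (nat_lit 2) (.p (nat_lit 217) (nat_lit 2) (.n (nat_lit 218) (nat_lit 1) (.n (nat_lit 219) (nat_lit 3) (.p (nat_lit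 221) (nat_lit 3) (.n (nat_lit 223) (nat_lit 1) (.p (nat_lit 224) (nat_lit 3) (.n (nat_lit 225) (nat_lit 2) (.n (nat_lit 226) (nat_lit 1) (.p (nat_lit 227) (nat_lit 1) (.p (nat_lit 229) (nat_lit 3) (.n (nat_lit 235) (nat_lit 1) (.p (nat_lit 237) (nat_lit 1) (.n (nat_lit 241) (nat_lit 2) (.p (nat_lit 242) (nat_lit 1) (.p (nat_lit 245) (nat_lit 1) (.p (nat_lit 247) (nat_lit 1) (.n (nat_lit 251) (nat_lit 1) (.p (nat_lit 254) (nat_lit 1) (.p (nat_lit 256) (nat_lit 1) (.p (nat_lit 261) (nat_lit 1) (.n (nat_lit 262) (nat_lit 1) (.p (nat_lit 264) (nat_lit 1) (.n (nat_lit 299) (nat_lit 1) (.n (nat_lit 302) (nat_lit 2) (.p (nat_lit 303) (nat_lit 8) (.n (nat_lit 304) (nat_lit 3) (.p (nat_lit 305) (nat_lit 5) (.n (nat_lit 306) (nat_lit 5) (.n (nat_lit 307) (nat_lit 2) (.p (nat_lit 308) (nat_lit 4) (.p (nat_lit 309) (nat_lit 4) (.n (nat_lit 310) (nat_lit 4) (.n (nat_lit 311) (nat_lit 6) (.n (nat_lit 312) (nat_lit 10) (.n (nat_lit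 313) (nat_lit 9) (.n (nat_lit 316) (nat_lit 3) (.p (nat_lit 317) (nat_lit 6) (.p (nat_lit 318) (nat_lit 4) (.p (nat_lit 319) (nat_lit 2) (.p (nat_lit 322) (nat_lit 4) (.p (nat_lit 323) (nat_lit 3) (.p (nat_lit 324) (nat_lit 5) (.p (nat_lit 325) (nat_lit 5) (.n (nat_lit 326) (nat_lit 7) (.n (nat_lit 327) (nat_lit 1) (.p (nat_lit 329) (nat_lit 3) (.n (nat_lit 331) (nat_lit 3) (.p (nat_lit 332) (nat_lit 1) (.n (nat_lit 333) (nat_lit 1) (.n (nat_lit 335) (nat_lit 4) (.p (nat_lit 336) (nat_lit 2) (.p (nat_lit 339) (nat_lit 8) (.p (nat_lit 340) (nat_lit 3) (.n (nat_lit 341) (nat_lit 2) (.p (nat_lit 342) (nat_lit 1) (.n (nat_lit 343) (nat_lit 5) (.n (nat_lit 344) (nat_lit 6) (.n (nat_lit 345) (nat_lit 5) .z)))))))))))))))))))))))))))))))))))))))))))))))))))))))))))) (.u (nat_lit 2) (.p (nat_lit 346) (nat_lit 1) (.n (nat_lit 348) (nat_lit 6) (.p (nat_lit 349) (nat_lit 7) (.n (nat_lit 350) (nat_lit 1) (.p (nat_lit 351)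 (nat_lit 6) (.n (nat_lit 352) (nat_lit 17) (.n (nat_lit 353) (nat_lit 7) (.p (nat_lit 354) (nat_lit 10) (.n (nat_lit 355) (nat_lit 9) (.n (nat_lit 356) (nat_lit 5) (.p (nat_lit 357) (nat_lit 3) (.p (nat_lit 358) (nat_lit 4) (.p (nat_lit 359) (nat_lit 4) (.n (nat_lit 360) (nat_lit 6) (.n (nat_lit 361) (nat_lit 3) (.p (nat_lit 362) (nat_lit 2) (.p (nat_lit 363) (nat_lit 6) (.n (nat_lit 364) (nat_lit 3) (.p (nat_lit 366) (nat_lit 2) (.n (nat_lit 367) (nat_lit 2) (.n (nat_lit 368) (nat_lit 5) (.n (nat_lit 369) (nat_lit 3) (.n (nat_lit 370) (nat_lit 5) (.n (nat_lit 372) (nat_lit 6) (.p (nat_lit 373) (nat_lit 5) (.p (nat_lit 374) (nat_lit 7) (.p (nat_lit 376) (nat_lit 1) (.p (nat_lit 377) (nat_lit 3) (.p (nat_lit 380) (nat_lit 4) (.n (nat_lit 382) (nat_lit 4) (.n (nat_lit 383) (nat_lit 1) (.p (nat_lit 385) (nat_lit 1) (.n (nat_lit 386) (nat_lit 5) (.n (nat_lit 387) (nat_lit 1) (.p (nat_lit 388) (nat_lit 1) (.p (nat_lit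 390) (nat_lit 3) (.p (nat_lit 392) (nat_lit 4) (.n (nat_lit 393) (nat_lit 1) (.n (nat_lit 400) (nat_lit 2) (.p (nat_lit 401) (nat_lit 2) .z)))))))))))))))))))))))))))))))))))))))) .nil)))))))))))))))))))))))))

noncomputable def dC2d_i276 : IL := (.e false (nat_lit 3) (nat_lit 266) (nat_lit 1) (nat_lit 17) (.e false (nat_lit 2) (nat_lit 231) (nat_lit 2) (nat_lit 16) (.e true (nat_lit 3) (nat_lit 206) (nat_lit 2) (nat_lit 16) (.e false (nat_lit 3) (nat_lit 210) (nat_lit 2) (nat_lit 16) (.e true (nat_lit 3) (nat_lit 211) (nat_lit 2) (nat_lit 16) (.e false (nat_lit 1) (nat_lit 213) (nat_lit 2) (nat_lit 16) (.e true (nat_lit 2) (nat_lit 219) (nat_lit 2) (nat_lit 16) (.e false (nat_lit 1) (nat_lit 220) (nat_lit 2) (nat_lit 16) (.e true (nat_lit 3) (nat_lit 209) (nat_lit 2) (nat_lit 16) (.e true (nat_lit 3) (nat_lit 212) (nat_lit 2) (nat_lit 16) (.e false (nat_lit 1) (nat_lit 230) (nat_lit 2) (nat_lit 16) (.e false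 (nat_lit 1) (nat_lit 234) (nat_lit 2) (nat_lit 16) (.e false (nat_lit 3) (nat_lit 246) (nat_lit 2) (nat_lit 16) (.e true (nat_lit 3) (nat_lit 247) (nat_lit 2) (nat_lit 16) (.e false (nat_lit 1) (nat_lit 249) (nat_lit 2) (nat_lit 16) (.e false (nat_lit 1) (nat_lit 221) (nat_lit 2) (nat_lit 16) (.e false (nat_lit 1) (nat_lit 243) (nat_lit 2) (nat_lit 16) (.e false (nat_lit 1) (nat_lit 274) (nat_lit 1) (nat_lit 17) (.e true (nat_lit 3) (nat_lit 207) (nat_lit 2) (nat_lit 16) (.e true (nat_lit 2) (nat_lit 229) (nat_lit 2) (nat_lit 16) (.e true (nat_lit 1) (nat_lit 233) (nat_lit 2) (nat_lit 16) (.e false (nat_lit 1) (nat_lit 134) (nat_lit 6) (nat_lit 12) (.e true (nat_lit 2) (nat_lit 256) (nat_lit 1) (nat_lit 17) (.e false (nat_lit 3) (nat_lit 261) (nat_lit 1) (nat_lit 17) (.e true (nat_lit 1) (nat_lit 279) (nat_lit 1) (nat_lit 17) dC2d_i275)))))))))))))))))))))))))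

noncomputable def dC2d_i277 : IL := (.s false (nat_lit 1) (nat_lit 104) (nat_lit 1) (nat_lit 1) (nat_lit 0) true (nat_lit 15) true (nat_lit 18) false (nat_lit 10) true (nat_lit 17) true (nat_lit 17) (.e false (nat_lit 1) (nat_lit 205) (nat_lit 2) (nat_lit 16) (.e false (nat_lit 1) (nat_lit 215) (nat_lit 2) (nat_lit 16) (.e true (nat_lit 1) (nat_lit 216) (nat_lit 2) (nat_lit 16) (.e false (nat_lit 2) (nat_lit 227) (nat_lit 2) (nat_lit 16) (.e true (nat_lit 3) (nat_lit 242) (nat_lit 2) (nat_lit 16) (.e false (nat_lit 1) (nat_lit 251) (nat_lit 2) (nat_lit 16) (.e false (nat_lit 2) (nat_lit 285) (nat_lit 1) (nat_lit 17) (.e true (nat_lit 1) (nat_lit 252) (nat_lit 1) (nat_lit 17) (.e true (nat_lit 2) (nat_lit 253) (nat_lit 1) (nat_lit 17) (.e true (nat_lit 2) (nat_lit 254) (nat_lit 1) (nat_lit 17) (.e true (nat_lit 3) (nat_lit 258) (nat_lit 1) (nat_lit 17) (.e true (nat_lit 3) (nat_lit 263) (nat_lit 1) (nat_lit 17)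 (.e true (nat_lit 2) (nat_lit 265) (nat_lit 1) (nat_lit 17) (.e false (nat_lit 3) (nat_lit 267) (nat_lit 1) (nat_lit 17) (.e false (nat_lit 1) (nat_lit 269) (nat_lit 1) (nat_lit 17) (.e false (nat_lit 3) (nat_lit 270) (nat_lit 1) (nat_lit 17) (.e true (nat_lit 3) (nat_lit 271) (nat_lit 1) (nat_lit 17) (.e false (nat_lit 1) (nat_lit 272) (nat_lit 1) (nat_lit 17) (.e true (nat_lit 3) (nat_lit 273) (nat_lit 1) (nat_lit 17) (.e false (nat_lit 3) (nat_lit 276) (nat_lit 1) (nat_lit 17) (.e true (nat_lit 1) (nat_lit 277) (nat_lit 1) (nat_lit 17) (.e true (nat_lit 3) (nat_lit 255) (nat_lit 1) (nat_lit 17) (.e true (nat_lit 1) (nat_lit 262) (nat_lit 1) (nat_lit 17) (.e false (nat_lit 1) (nat_lit 264) (nat_lit 1) (nat_lit 17) dC2d_i276)))))))))))))))))))))))))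

noncomputable def dC2d_i278 : IL := (.s false (nat_lit 2) (nat_lit 67) (nat_lit 1) (nat_lit 2) (nat_lit 2) true (nat_lit 12) true (nat_lit 16) false (nat_lit 5) true (nat_lit 17) true (nat_lit 16) (.s false (nat_lit 3) (nat_lit 68) (nat_lit 1) (nat_lit 2) (nat_lit 2) true (nat_lit 12) true (nat_lit 16) false (nat_lit 5) true (nat_lit 17) true (nat_lit 16) (.s true (nat_lit 1) (nat_lit 72) (nat_lit 1) (nat_lit 2) (nat_lit 2) true (nat_lit 12) true (nat_lit 16) false (nat_lit 5) true (nat_lit 17) true (nat_lit 16) (.s false (nat_lit 1) (nat_lit 73) (nat_lit 1) (nat_lit 2) (nat_lit 2) true (nat_lit 12) true (nat_lit 16) false (nat_lit 5) true (nat_lit 17) true (nat_lit 16) (.s false (nat_lit 2) (nat_lit 61) (nat_lit 2) (nat_lit 1) (nat_lit 2) true (nat_lit 11) true (nat_lit 16) false (nat_lit 5) true (nat_lit 16) true (nat_lit 17) (.s true (nat_lit 2) (nat_lit 63) (nat_lit 2) (nat_lit 1) (nat_lit 2) true (nat_lit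 11) true (nat_lit 16) false (nat_lit 5) true (nat_lit 16) true (nat_lit 17) (.s true (nat_lit 3) (nat_lit 66) (nat_lit 2) (nat_lit 1) (nat_lit 2) true (nat_lit 11) true (nat_lit 16) false (nat_lit 5) true (nat_lit 16) true (nat_lit 17) (.s true (nat_lit 2) (nat_lit 72) (nat_lit 2) (nat_lit 1) (nat_lit 2) true (nat_lit 11) true (nat_lit 16) false (nat_lit 5) true (nat_lit 16) true (nat_lit 17) (.s false (nat_lit 1) (nat_lit 61) (nat_lit 2) (nat_lit 2) (nat_lit 1) true (nat_lit 12) true (nat_lit 17) false (nat_lit 5) true (nat_lit 16) true (nat_lit 16) (.s true (nat_lit 1) (nat_lit 62) (nat_lit 2) (nat_lit 2) (nat_lit 1) true (nat_lit 12) true (nat_lit 17) false (nat_lit 5) true (nat_lit 16) true (nat_lit 16) (.s true (nat_lit 3) (nat_lit 66) (nat_lit 2) (nat_lit 2) (nat_lit 1) true (nat_lit 12) true (nat_lit 17) false (nat_lit 5) true (nat_lit 16) true (nat_lit 16) (.s true (nat_lit 1) (nat_lit 67) (nat_lit 2)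 (nat_lit 2) (nat_lit 1) true (nat_lit 12) true (nat_lit 17) false (nat_lit 5) true (nat_lit 16) true (nat_lit 16) (.s false (nat_lit 1) (nat_lit 68) (nat_lit 2) (nat_lit 2) (nat_lit 1) true (nat_lit 12) true (nat_lit 17) false (nat_lit 5) true (nat_lit 16) true (nat_lit 16) (.s true (nat_lit 1) (nat_lit 72) (nat_lit 2) (nat_lit 2) (nat_lit 1) true (nat_lit 12) true (nat_lit 17) false (nat_lit 5) true (nat_lit 16) true (nat_lit 16) (.s true (nat_lit 3) (nat_lit 74) (nat_lit 0) (nat_lit 2) (nat_lit 2) true (nat_lit 13) true (nat_lit 16) false (nat_lit 6) true (nat_lit 18) true (nat_lit 16) (.s false (nat_lit 1) (nat_lit 80) (nat_lit 1) (nat_lit 1) (nat_lit 2) true (nat_lit 12) true (nat_lit 16) false (nat_lit 7) true (nat_lit 17) true (nat_lit 17) (.s false (nat_lit 1) (nat_lit 80) (nat_lit 1) (nat_lit 2) (nat_lit 1) true (nat_lit 14) true (nat_lit 17) false (nat_lit 7) true (nat_lit 17) true (nat_lit 16) (.s false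 (nat_lit 3) (nat_lit 82) (nat_lit 1) (nat_lit 2) (nat_lit 1) true (nat_lit 14) true (nat_lit 17) false (nat_lit 7) true (nat_lit 17) true (nat_lit 16) (.s false (nat_lit 3) (nat_lit 83) (nat_lit 1) (nat_lit 2) (nat_lit 1) true (nat_lit 14) true (nat_lit 17) false (nat_lit 7) true (nat_lit 17) true (nat_lit 16) (.s false (nat_lit 3) (nat_lit 85) (nat_lit 1) (nat_lit 2) (nat_lit 1) true (nat_lit 14) true (nat_lit 17) false (nat_lit 7) true (nat_lit 17) true (nat_lit 16) (.s false (nat_lit 2) (nat_lit 81) (nat_lit 2) (nat_lit 1) (nat_lit 1) true (nat_lit 12) true (nat_lit 17) false (nat_lit 7) true (nat_lit 16) true (nat_lit 17) (.s false (nat_lit 3) (nat_lit 103) (nat_lit 0) (nat_lit 1) (nat_lit 1) true (nat_lit 15) true (nat_lit 17) false (nat_lit 10) true (nat_lit 18) true (nat_lit 17) (.s false (nat_lit 2) (nat_lit 104) (nat_lit 0) (nat_lit 1) (nat_lit 1) true (nat_lit 15) true (nat_lit 17) false (nat_lit 10)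 true (nat_lit 18) true (nat_lit 17) (.s true (nat_lit 3) (nat_lit 102) (nat_lit 1) (nat_lit 1) (nat_lit 0) true (nat_lit 15) true (nat_lit 18) false (nat_lit 10) true (nat_lit 17) true (nat_lit 17) (.s false (nat_lit 3) (nat_lit 103) (nat_lit 1) (nat_lit 1) (nat_lit 0) true (nat_lit 15) true (nat_lit 18) false (nat_lit 10) true (nat_lit 17) true (nat_lit 17) dC2d_i277)))))))))))))))))))))))))

noncomputable def dC2d_i279 : IL := (.s false (nat_lit 1) (nat_lit 26) (nat_lit 7) (nat_lit 2) (nat_lit 1) true (nat_lit 5) true (nat_lit 17) true (nat_lit 2) true (nat_lit 11) true (nat_lit 16) (.s false (nat_lit 3) (nat_lit 30) (nat_lit 2) (nat_lit 0) (nat_lit 7) true (nat_lit 4) true (nat_lit 11) true (nat_lit 1) true (nat_lit 16) true (nat_lit 18) (.s false (nat_lit 3) (nat_lit 30) (nat_lit 2) (nat_lit 2) (nat_lit 5) true (nat_lit 6) true (nat_lit 13) true (nat_lit 1) true (nat_lit 16) true (nat_lit 16) (.s true (nat_lit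 1) (nat_lit 33) (nat_lit 1) (nat_lit 1) (nat_lit 7) true (nat_lit 5) true (nat_lit 11) true (nat_lit 0) true (nat_lit 17) true (nat_lit 17) (.s true (nat_lit 2) (nat_lit 33) (nat_lit 1) (nat_lit 2) (nat_lit 6) true (nat_lit 7) true (nat_lit 12) true (nat_lit 0) true (nat_lit 17) true (nat_lit 16) (.s true (nat_lit 1) (nat_lit 33) (nat_lit 2) (nat_lit 2) (nat_lit 4) true (nat_lit 7) true (nat_lit 14) true (nat_lit 0) true (nat_lit 16) true (nat_lit 16) (.s false (nat_lit 3) (nat_lit 34) (nat_lit 2) (nat_lit 6) (nat_lit 1) true (nat_lit 12) true (nat_lit 17) true (nat_lit 0) true (nat_lit 16) true (nat_lit 12) (.s true (nat_lit 2) (nat_lit 34) (nat_lit 6) (nat_lit 2) (nat_lit 1) true (nat_lit 7) true (nat_lit 17) true (nat_lit 0) true (nat_lit 12) true (nat_lit 16) (.s false (nat_lit 1) (nat_lit 46) (nat_lit 1) (nat_lit 3) (nat_lit 2) true (nat_lit 12) true (nat_lit 16) false (nat_lit 2) true (nat_lit 17) true (nat_lit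 15) (.s false (nat_lit 3) (nat_lit 47) (nat_lit 1) (nat_lit 3) (nat_lit 2) true (nat_lit 12) true (nat_lit 16) false (nat_lit 2) true (nat_lit 17) true (nat_lit 15) (.s true (nat_lit 3) (nat_lit 48) (nat_lit 1) (nat_lit 1) (nat_lit 3) true (nat_lit 10) true (nat_lit 15) false (nat_lit 3) true (nat_lit 17) true (nat_lit 17) (.s false (nat_lit 3) (nat_lit 48) (nat_lit 1) (nat_lit 3) (nat_lit 1) true (nat_lit 14) true (nat_lit 17) false (nat_lit 3) true (nat_lit 17) true (nat_lit 15) (.s true (nat_lit 2) (nat_lit 52) (nat_lit 2) (nat_lit 2) (nat_lit 2) true (nat_lit 11) true (nat_lit 16) false (nat_lit 4) true (nat_lit 16) true (nat_lit 16) (.s false (nat_lit 3) (nat_lit 53) (nat_lit 2) (nat_lit 2) (nat_lit 2) true (nat_lit 11) true (nat_lit 16) false (nat_lit 4) true (nat_lit 16) true (nat_lit 16) (.s false (nat_lit 1) (nat_lit 54) (nat_lit 2) (nat_lit 2) (nat_lit 2) true (nat_lit 11) true (nat_lit 16) false (nat_lit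 4) true (nat_lit 16) true (nat_lit 16) (.s true (nat_lit 2) (nat_lit 55) (nat_lit 2) (nat_lit 2) (nat_lit 2) true (nat_lit 11) true (nat_lit 16) false (nat_lit 4) true (nat_lit 16) true (nat_lit 16) (.s false (nat_lit 2) (nat_lit 56) (nat_lit 2) (nat_lit 2) (nat_lit 2) true (nat_lit 11) true (nat_lit 16) false (nat_lit 4) true (nat_lit 16) true (nat_lit 16) (.s false (nat_lit 1) (nat_lit 57) (nat_lit 2) (nat_lit 2) (nat_lit 2) true (nat_lit 11) true (nat_lit 16) false (nat_lit 4) true (nat_lit 16) true (nat_lit 16) (.s true (nat_lit 2) (nat_lit 58) (nat_lit 2) (nat_lit 2) (nat_lit 2) true (nat_lit 11) true (nat_lit 16) false (nat_lit 4) true (nat_lit 16) true (nat_lit 16) (.s false (nat_lit 2) (nat_lit 59) (nat_lit 2) (nat_lit 2) (nat_lit 2) true (nat_lit 11) true (nat_lit 16) false (nat_lit 4) true (nat_lit 16) true (nat_lit 16) (.s false (nat_lit 2) (nat_lit 60) (nat_lit 1) (nat_lit 2) (nat_lit 2) true (nat_lit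 12) true (nat_lit 16) false (nat_lit 5) true (nat_lit 17) true (nat_lit 16) (.s true (nat_lit 1) (nat_lit 61) (nat_lit 1) (nat_lit 2) (nat_lit 2) true (nat_lit 12) true (nat_lit 16) false (nat_lit 5) true (nat_lit 17) true (nat_lit 16) (.s true (nat_lit 2) (nat_lit 63) (nat_lit 1) (nat_lit 2) (nat_lit 2) true (nat_lit 12) true (nat_lit 16) false (nat_lit 5) true (nat_lit 17) true (nat_lit 16) (.s true (nat_lit 2) (nat_lit 65) (nat_lit 1) (nat_lit 2) (nat_lit 2) true (nat_lit 12) true (nat_lit 16) false (nat_lit 5) true (nat_lit 17) true (nat_lit 16) (.s false (nat_lit 1) (nat_lit 66) (nat_lit 1) (nat_lit 2) (nat_lit 2) true (nat_lit 12) true (nat_lit 16) false (nat_lit 5) true (nat_lit 17) true (nat_lit 16) dC2d_i278)))))))))))))))))))))))))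

noncomputable def dC2d_i280 : IL := (.s false (nat_lit 3) (nat_lit 20) (nat_lit 1) (nat_lit 3) (nat_lit 6) true (nat_lit 7) true (nat_lit 12) true (nat_lit 4) true (nat_lit 17) true (nat_lit 15) (.s true (nat_lit 2) (nat_lit 22) (nat_lit 2) (nat_lit 2) (nat_lit 7) true (nat_lit 4) true (nat_lit 11) true (nat_lit 3) true (nat_lit 16) true (nat_lit 16) (.s false (nat_lit 2) (nat_lit 23) (nat_lit 2) (nat_lit 2) (nat_lit 7) true (nat_lit 4) true (nat_lit 11) true (nat_lit 3) true (nat_lit 16) true (nat_lit 16) (.s true (nat_lit 2) (nat_lit 21) (nat_lit 2) (nat_lit 7) (nat_lit 2) true (nat_lit 11) true (nat_lit 16) true (nat_lit 3) true (nat_lit 16) true (nat_lit 11) (.s true (nat_lit 3) (nat_lit 22) (nat_lit 2) (nat_lit 7) (nat_lit 2) true (nat_lit 11) true (nat_lit 16) true (nat_lit 3) true (nat_lit 16) true (nat_lit 11) (.s true (nat_lit 3) (nat_lit 23) (nat_lit 2) (nat_lit 7) (nat_lit 2) true (nat_lit 11) true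 (nat_lit 16) true (nat_lit 3) true (nat_lit 16) true (nat_lit 11) (.s false (nat_lit 1) (nat_lit 21) (nat_lit 7) (nat_lit 2) (nat_lit 2) true (nat_lit 4) true (nat_lit 16) true (nat_lit 3) true (nat_lit 11) true (nat_lit 16) (.s true (nat_lit 1) (nat_lit 25) (nat_lit 1) (nat_lit 2) (nat_lit 7) true (nat_lit 5) true (nat_lit 11) true (nat_lit 2) true (nat_lit 17) true (nat_lit 16) (.s false (nat_lit 1) (nat_lit 27) (nat_lit 1) (nat_lit 2) (nat_lit 7) true (nat_lit 5) true (nat_lit 11) true (nat_lit 2) true (nat_lit 17) true (nat_lit 16) (.s false (nat_lit 3) (nat_lit 24) (nat_lit 1) (nat_lit 7) (nat_lit 2) true (nat_lit 12) true (nat_lit 16) true (nat_lit 2) true (nat_lit 17) true (nat_lit 11) (.s true (nat_lit 1) (nat_lit 25) (nat_lit 1) (nat_lit 7) (nat_lit 2) true (nat_lit 12) true (nat_lit 16) true (nat_lit 2) true (nat_lit 17) true (nat_lit 11) (.s true (nat_lit 3) (nat_lit 26) (nat_lit 1) (nat_lit 7) (nat_lit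 2) true (nat_lit 12) true (nat_lit 16) true (nat_lit 2) true (nat_lit 17) true (nat_lit 11) (.s false (nat_lit 1) (nat_lit 27) (nat_lit 1) (nat_lit 7) (nat_lit 2) true (nat_lit 12) true (nat_lit 16) true (nat_lit 2) true (nat_lit 17) true (nat_lit 11) (.s false (nat_lit 3) (nat_lit 24) (nat_lit 2) (nat_lit 1) (nat_lit 7) true (nat_lit 4) true (nat_lit 11) true (nat_lit 2) true (nat_lit 16) true (nat_lit 17) (.s true (nat_lit 1) (nat_lit 27) (nat_lit 2) (nat_lit 1) (nat_lit 7) true (nat_lit 4) true (nat_lit 11) true (nat_lit 2) true (nat_lit 16) true (nat_lit 17) (.s false (nat_lit 2) (nat_lit 29) (nat_lit 2) (nat_lit 1) (nat_lit 7) true (nat_lit 4) true (nat_lit 11) true (nat_lit 2) true (nat_lit 16) true (nat_lit 17) (.s true (nat_lit 1) (nat_lit 24) (nat_lit 2) (nat_lit 2) (nat_lit 6) true (nat_lit 5) true (nat_lit 12) true (nat_lit 2) true (nat_lit 16) true (nat_lit 16) (.s false (nat_lit 2) (nat_lit 25) (nat_lit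 2) (nat_lit 2) (nat_lit 6) true (nat_lit 5) true (nat_lit 12) true (nat_lit 2) true (nat_lit 16) true (nat_lit 16) (.s false (nat_lit 1) (nat_lit 26) (nat_lit 2) (nat_lit 2) (nat_lit 6) true (nat_lit 5) true (nat_lit 12) true (nat_lit 2) true (nat_lit 16) true (nat_lit 16) (.s false (nat_lit 2) (nat_lit 29) (nat_lit 2) (nat_lit 2) (nat_lit 6) true (nat_lit 5) true (nat_lit 12) true (nat_lit 2) true (nat_lit 16) true (nat_lit 16) (.s true (nat_lit 1) (nat_lit 24) (nat_lit 2) (nat_lit 6) (nat_lit 2) true (nat_lit 11) true (nat_lit 16) true (nat_lit 2) true (nat_lit 16) true (nat_lit 12) (.s false (nat_lit 1) (nat_lit 25) (nat_lit 2) (nat_lit 6) (nat_lit 2) true (nat_lit 11) true (nat_lit 16) true (nat_lit 2) true (nat_lit 16) true (nat_lit 12) (.s true (nat_lit 1) (nat_lit 24) (nat_lit 6) (nat_lit 2) (nat_lit 2) true (nat_lit 5) true (nat_lit 16) true (nat_lit 2) true (nat_lit 12) true (nat_lit 16) (.s false (nat_lit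 2) (nat_lit 27) (nat_lit 6) (nat_lit 2) (nat_lit 2) true (nat_lit 5) true (nat_lit 16) true (nat_lit 2) true (nat_lit 12) true (nat_lit 16) (.s false (nat_lit 3) (nat_lit 25) (nat_lit 7) (nat_lit 2) (nat_lit 1) true (nat_lit 5) true (nat_lit 17) true (nat_lit 2) true (nat_lit 11) true (nat_lit 16) dC2d_i279)))))))))))))))))))))))))

noncomputable def dC2d_i281 : IL := (.e false (nat_lit 1) (nat_lit 261) (nat_lit 1) (nat_lit 17) (.e true (nat_lit 2) (nat_lit 274) (nat_lit 1) (nat_lit 17) (.e false (nat_lit 2) (nat_lit 275) (nat_lit 1) (nat_lit 17) (.e false (nat_lit 1) (nat_lit 279) (nat_lit 1) (nat_lit 17) (.e false (nat_lit 3) (nat_lit 282) (nat_lit 1) (nat_lit 17) (.e false (nat_lit 2) (nat_lit 250) (nat_lit 2) (nat_lit 16) (.e false (nat_lit 1) (nat_lit 290) (nat_lit 0) (nat_lit 18) (.e false (nat_lit 2) (nat_lit 291) (nat_lit 0) (nat_lit 18) (.e false (nat_lit 3) (nat_lit 292) (nat_lit 0) (nat_lit 18) (.e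 true (nat_lit 3) (nat_lit 293) (nat_lit 0) (nat_lit 18) (.e true (nat_lit 2) (nat_lit 294) (nat_lit 0) (nat_lit 18) (.e false (nat_lit 3) (nat_lit 296) (nat_lit 0) (nat_lit 18) (.e true (nat_lit 1) (nat_lit 297) (nat_lit 0) (nat_lit 18) (.e false (nat_lit 1) (nat_lit 300) (nat_lit 0) (nat_lit 18) (.e true (nat_lit 3) (nat_lit 301) (nat_lit 0) (nat_lit 18) (.e false (nat_lit 3) (nat_lit 299) (nat_lit 0) (nat_lit 18) (.e true (nat_lit 2) (nat_lit 303) (nat_lit 0) (nat_lit 18) (.e false (nat_lit 2) (nat_lit 280) (nat_lit 1) (nat_lit 17) (.e false (nat_lit 2) (nat_lit 278) (nat_lit 1) (nat_lit 17) (.e true (nat_lit 1) (nat_lit 295) (nat_lit 0) (nat_lit 18) (.e false (nat_lit 3) (nat_lit 170) (nat_lit 4) (nat_lit 14) (.u (nat_lit 2) (.p (nat_lit 0) (nat_lit 3) (.p (nat_lit 3) (nat_lit 1) (.n (nat_lit 4) (nat_lit 2) (.p (nat_lit 5) (nat_lit 1) (.p (nat_lit 6) (nat_lit 7) (.p (nat_lit 7) (nat_lit 1) (.p (nat_lit 8) (nat_lit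 2) (.p (nat_lit 10) (nat_lit 5) (.p (nat_lit 12) (nat_lit 1) (.n (nat_lit 14) (nat_lit 1) (.n (nat_lit 15) (nat_lit 1) (.n (nat_lit 16) (nat_lit 2) (.p (nat_lit 18) (nat_lit 3) (.n (nat_lit 19) (nat_lit 6) (.n (nat_lit 21) (nat_lit 5) (.p (nat_lit 22) (nat_lit 5) (.n (nat_lit 23) (nat_lit 4) (.n (nat_lit 24) (nat_lit 1) (.p (nat_lit 25) (nat_lit 3) (.n (nat_lit 26) (nat_lit 2) (.n (nat_lit 27) (nat_lit 4) (.n (nat_lit 29) (nat_lit 4) (.p (nat_lit 31) (nat_lit 4) (.n (nat_lit 32) (nat_lit 2) (.n (nat_lit 33) (nat_lit 1) (.n (nat_lit 34) (nat_lit 1) (.p (nat_lit 35) (nat_lit 2) (.p (nat_lit 37) (nat_lit 1) (.p (nat_lit 38) (nat_lit 1) (.p (nat_lit 39) (nat_lit 2) (.p (nat_lit 40) (nat_lit 1) (.p (nat_lit 41) (nat_lit 1) (.p (nat_lit 44) (nat_lit 2) (.p (nat_lit 45) (nat_lit 2) (.n (nat_lit 46) (nat_lit 1) (.n (nat_lit 48) (nat_lit 4) (.p (nat_lit 50) (nat_lit 1) (.n (nat_lit 55) (nat_lit 1) (.n (nat_lit 63) (nat_lit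 1) (.p (nat_lit 64) (nat_lit 2) (.n (nat_lit 66) (nat_lit 1) (.n (nat_lit 67) (nat_lit 1) (.p (nat_lit 69) (nat_lit 1) (.p (nat_lit 78) (nat_lit 1) (.n (nat_lit 79) (nat_lit 1) (.n (nat_lit 81) (nat_lit 2) (.n (nat_lit 82) (nat_lit 1) (.n (nat_lit 90) (nat_lit 1) (.p (nat_lit 91) (nat_lit 1) (.p (nat_lit 96) (nat_lit 1) (.p (nat_lit 107) (nat_lit 1) (.n (nat_lit 113) (nat_lit 1) (.n (nat_lit 115) (nat_lit 1) (.p (nat_lit 116) (nat_lit 1) (.n (nat_lit 118) (nat_lit 1) (.p (nat_lit 120) (nat_lit 1) (.p (nat_lit 122) (nat_lit 1) (.n (nat_lit 124) (nat_lit 1) (.n (nat_lit 125) (nat_lit 1) (.p (nat_lit 127) (nat_lit 1) .z)))))))))))))))))))))))))))))))))))))))))))))))))))))))))))) (.u (nat_lit 2) (.n (nat_lit 133) (nat_lit 1) (.n (nat_lit 141) (nat_lit 2) (.n (nat_lit 146) (nat_lit 1) (.n (nat_lit 177) (nat_lit 1) (.n (nat_lit 180) (nat_lit 1) (.p (nat_lit 184) (nat_lit 1) (.p (nat_lit 192) (nat_lit 1) (.p (nat_lit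 204) (nat_lit 1) (.p (nat_lit 206) (nat_lit 1) (.n (nat_lit 207) (nat_lit 1) (.n (nat_lit 208) (nat_lit 1) (.n (nat_lit 210) (nat_lit 1) (.p (nat_lit 211) (nat_lit 1) (.p (nat_lit 213) (nat_lit 2) (.p (nat_lit 214) (nat_lit 2) (.p (nat_lit 215) (nat_lit 3) (.p (nat_lit 216) (nat_lit 2) (.n (nat_lit 217) (nat_lit 4) (.p (nat_lit 219) (nat_lit 6) (.n (nat_lit 221) (nat_lit 6) (.p (nat_lit 223) (nat_lit 7) (.p (nat_lit 225) (nat_lit 5) (.p (nat_lit 227) (nat_lit 1) (.p (nat_lit 228) (nat_lit 1) (.n (nat_lit 229) (nat_lit 11) (.p (nat_lit 230) (nat_lit 1) (.p (nat_lit 232) (nat_lit 1) (.n (nat_lit 233) (nat_lit 1) (.n (nat_lit 234) (nat_lit 4) (.n (nat_lit 237) (nat_lit 1) (.n (nat_lit 238) (nat_lit 3) (.n (nat_lit 240) (nat_lit 1) (.p (nat_lit 241) (nat_lit 2) (.p (nat_lit 243) (nat_lit 1) (.n (nat_lit 244) (nat_lit 1) (.n (nat_lit 245) (nat_lit 1) (.p (nat_lit 248) (nat_lit 1) (.n (nat_lit 251) (nat_lit 1) (.p (nat_lit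 254) (nat_lit 4) (.n (nat_lit 256) (nat_lit 1) (.p (nat_lit 258) (nat_lit 1) (.p (nat_lit 259) (nat_lit 1) (.p (nat_lit 260) (nat_lit 1) (.n (nat_lit 261) (nat_lit 1) (.n (nat_lit 262) (nat_lit 1) (.n (nat_lit 263) (nat_lit 1) (.n (nat_lit 264) (nat_lit 2) (.p (nat_lit 270) (nat_lit 1) (.p (nat_lit 271) (nat_lit 1) (.n (nat_lit 279) (nat_lit 1) (.p (nat_lit 292) (nat_lit 2) (.p (nat_lit 293) (nat_lit 1) (.p (nat_lit 296) (nat_lit 2) (.n (nat_lit 297) (nat_lit 2) (.p (nat_lit 299) (nat_lit 1) (.p (nat_lit 300) (nat_lit 1) (.p (nat_lit 301) (nat_lit 1) (.n (nat_lit 302) (nat_lit 7) (.n (nat_lit 303) (nat_lit 5) (.n (nat_lit 304) (nat_lit 6) .z)))))))))))))))))))))))))))))))))))))))))))))))))))))))))))) (.u (nat_lit 2) (.n (nat_lit 305) (nat_lit 2) (.n (nat_lit 306) (nat_lit 11) (.n (nat_lit 307) (nat_lit 1) (.n (nat_lit 308) (nat_lit 3) (.n (nat_lit 309) (nat_lit 6) (.n (nat_lit 310) (nat_lit 7) (.p (nat_lit 311)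 (nat_lit 5) (.p (nat_lit 312) (nat_lit 10) (.p (nat_lit 313) (nat_lit 10) (.n (nat_lit 314) (nat_lit 3) (.p (nat_lit 315) (nat_lit 5) (.p (nat_lit 316) (nat_lit 12) (.n (nat_lit 317) (nat_lit 6) (.p (nat_lit 318) (nat_lit 5) (.p (nat_lit 319) (nat_lit 7) (.n (nat_lit 320) (nat_lit 1) (.p (nat_lit 322) (nat_lit 14) (.n (nat_lit 323) (nat_lit 4) (.p (nat_lit 324) (nat_lit 8) (.n (nat_lit 325) (nat_lit 1) (.n (nat_lit 326) (nat_lit 16) (.n (nat_lit 327) (nat_lit 13) (.n (nat_lit 328) (nat_lit 1) (.p (nat_lit 329) (nat_lit 13) (.n (nat_lit 330) (nat_lit 2) (.p (nat_lit 331) (nat_lit 6) (.n (nat_lit 335) (nat_lit 4) (.p (nat_lit 336) (nat_lit 3) (.n (nat_lit 337) (nat_lit 1) (.p (nat_lit 339) (nat_lit 10) (.p (nat_lit 341) (nat_lit 1) (.n (nat_lit 342) (nat_lit 13) (.n (nat_lit 343) (nat_lit 8) (.p (nat_lit 344) (nat_lit 2) (.p (nat_lit 345) (nat_lit 16) (.p (nat_lit 346) (nat_lit 6) (.p (nat_lit 347) (nat_lit 10)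 (.n (nat_lit 348) (nat_lit 17) (.n (nat_lit 349) (nat_lit 21) (.p (nat_lit 350) (nat_lit 2) (.n (nat_lit 351) (nat_lit 10) (.p (nat_lit 352) (nat_lit 8) (.p (nat_lit 353) (nat_lit 9) (.n (nat_lit 354) (nat_lit 18) (.p (nat_lit 355) (nat_lit 20) (.n (nat_lit 356) (nat_lit 10) (.p (nat_lit 357) (nat_lit 9) (.n (nat_lit 358) (nat_lit 5) (.n (nat_lit 359) (nat_lit 18) (.p (nat_lit 360) (nat_lit 10) (.p (nat_lit 361) (nat_lit 4) (.n (nat_lit 362) (nat_lit 14) (.p (nat_lit 363) (nat_lit 4) (.n (nat_lit 364) (nat_lit 1) (.p (nat_lit 365) (nat_lit 1) (.p (nat_lit 366) (nat_lit 9) (.p (nat_lit 367) (nat_lit 12) (.p (nat_lit 368) (nat_lit 6) (.p (nat_lit 369) (nat_lit 18) (.p (nat_lit 370) (nat_lit 15) .z)))))))))))))))))))))))))))))))))))))))))))))))))))))))))))) (.u (nat_lit 2) (.p (nat_lit 371) (nat_lit 15) (.p (nat_lit 372) (nat_lit 15) (.n (nat_lit 373) (nat_lit 7) (.n (nat_lit 374) (nat_lit 22) (.n (nat_lit 375) (nat_lit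 4) (.n (nat_lit 376) (nat_lit 9) (.n (nat_lit 377) (nat_lit 4) (.p (nat_lit 378) (nat_lit 1) (.n (nat_lit 379) (nat_lit 3) (.n (nat_lit 380) (nat_lit 7) (.p (nat_lit 381) (nat_lit 2) (.p (nat_lit 382) (nat_lit 13) (.p (nat_lit 383) (nat_lit 2) (.n (nat_lit 384) (nat_lit 3) (.n (nat_lit 385) (nat_lit 4) (.p (nat_lit 386) (nat_lit 1) (.n (nat_lit 387) (nat_lit 4) (.p (nat_lit 388) (nat_lit 2) (.p (nat_lit 389) (nat_lit 9) (.n (nat_lit 390) (nat_lit 5) (.n (nat_lit 391) (nat_lit 1) (.n (nat_lit 392) (nat_lit 3) (.p (nat_lit 393) (nat_lit 1) (.n (nat_lit 394) (nat_lit 4) (.p (nat_lit 395) (nat_lit 9) (.p (nat_lit 396) (nat_lit 1) (.p (nat_lit 397) (nat_lit 2) (.n (nat_lit 398) (nat_lit 3) (.p (nat_lit 399) (nat_lit 2) (.p (nat_lit 400) (nat_lit 4) (.p (nat_lit 401) (nat_lit 4) .z))))))))))))))))))))))))))))))) .nil)))))))))))))))))))))))))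

noncomputable def dC2d_i282 : IL := (.e true (nat_lit 2) (nat_lit 276) (nat_lit 1) (nat_lit 17) (.e true (nat_lit 1) (nat_lit 277) (nat_lit 1) (nat_lit 17) (.e false (nat_lit 1) (nat_lit 255) (nat_lit 1) (nat_lit 17) (.e true (nat_lit 1) (nat_lit 262) (nat_lit 1) (nat_lit 17) (.e false (nat_lit 3) (nat_lit 264) (nat_lit 1) (nat_lit 17) (.e false (nat_lit 3) (nat_lit 266) (nat_lit 1) (nat_lit 17) (.e false (nat_lit 3) (nat_lit 211) (nat_lit 2) (nat_lit 16) (.e true (nat_lit 3) (nat_lit 212) (nat_lit 2) (nat_lit 16) (.e false (nat_lit 3) (nat_lit 213) (nat_lit 2) (nat_lit 16) (.e true (nat_lit 2) (nat_lit 229) (nat_lit 2) (nat_lit 16) (.e true (nat_lit 2) (nat_lit 230) (nat_lit 2) (nat_lit 16) (.e false (nat_lit 1) (nat_lit 246) (nat_lit 2) (nat_lit 16) (.e false (nat_lit 1) (nat_lit 209) (nat_lit 2) (nat_lit 16) (.e false (nat_lit 2) (nat_lit 298) (nat_lit 0) (nat_lit 18) (.e false (nat_lit 3) (nat_lit 206) (nat_lit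 2) (nat_lit 16) (.e false (nat_lit 3) (nat_lit 207) (nat_lit 2) (nat_lit 16) (.e false (nat_lit 3) (nat_lit 210) (nat_lit 2) (nat_lit 16) (.e true (nat_lit 1) (nat_lit 218) (nat_lit 2) (nat_lit 16) (.e false (nat_lit 1) (nat_lit 226) (nat_lit 2) (nat_lit 16) (.e true (nat_lit 1) (nat_lit 231) (nat_lit 2) (nat_lit 16) (.e false (nat_lit 3) (nat_lit 233) (nat_lit 2) (nat_lit 16) (.e true (nat_lit 1) (nat_lit 235) (nat_lit 2) (nat_lit 16) (.e false (nat_lit 1) (nat_lit 138) (nat_lit 6) (nat_lit 12) (.e true (nat_lit 3) (nat_lit 134) (nat_lit 6) (nat_lit 12) (.e false (nat_lit 2) (nat_lit 257) (nat_lit 1) (nat_lit 17) dC2d_i281)))))))))))))))))))))))))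

noncomputable def dC2d_i283 : IL := (.s true (nat_lit 1) (nat_lit 94) (nat_lit 0) (nat_lit 1) (nat_lit 2) true (nat_lit 13) true (nat_lit 16) false (nat_lit 8) true (nat_lit 18) true (nat_lit 17) (.s false (nat_lit 1) (nat_lit 94) (nat_lit 0) (nat_lit 2) (nat_lit 1) true (nat_lit 15) true (nat_lit 17) false (nat_lit 8) true (nat_lit 18) true (nat_lit 16) (.s true (nat_lit 2) (nat_lit 92) (nat_lit 1) (nat_lit 0) (nat_lit 2) true (nat_lit 12) true (nat_lit 16) false (nat_lit 8) true (nat_lit 17) true (nat_lit 18) (.s true (nat_lit 3) (nat_lit 92) (nat_lit 1) (nat_lit 2) (nat_lit 0) true (nat_lit 15) true (nat_lit 18) false (nat_lit 8) true (nat_lit 17) true (nat_lit 16) (.s false (nat_lit 2) (nat_lit 92) (nat_lit 2) (nat_lit 1) (nat_lit 0) true (nat_lit 13) true (nat_lit 18) false (nat_lit 8) true (nat_lit 16) true (nat_lit 17) (.s false (nat_lit 1) (nat_lit 94) (nat_lit 2) (nat_lit 1) (nat_lit 0) true (nat_lit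 13) true (nat_lit 18) false (nat_lit 8) true (nat_lit 16) true (nat_lit 17) (.s false (nat_lit 3) (nat_lit 101) (nat_lit 0) (nat_lit 1) (nat_lit 1) true (nat_lit 15) true (nat_lit 17) false (nat_lit 10) true (nat_lit 18) true (nat_lit 17) (.s false (nat_lit 3) (nat_lit 102) (nat_lit 0) (nat_lit 1) (nat_lit 1) true (nat_lit 15) true (nat_lit 17) false (nat_lit 10) true (nat_lit 18) true (nat_lit 17) (.s true (nat_lit 2) (nat_lit 103) (nat_lit 0) (nat_lit 1) (nat_lit 1) true (nat_lit 15) true (nat_lit 17) false (nat_lit 10) true (nat_lit 18) true (nat_lit 17) (.s true (nat_lit 3) (nat_lit 104) (nat_lit 0) (nat_lit 1) (nat_lit 1) true (nat_lit 15) true (nat_lit 17) false (nat_lit 10) true (nat_lit 18) true (nat_lit 17) (.s false (nat_lit 3) (nat_lit 102) (nat_lit 1) (nat_lit 1) (nat_lit 0) true (nat_lit 15) true (nat_lit 18) false (nat_lit 10) true (nat_lit 17) true (nat_lit 17) (.s true (nat_lit 3) (nat_lit 103)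 (nat_lit 1) (nat_lit 1) (nat_lit 0) true (nat_lit 15) true (nat_lit 18) false (nat_lit 10) true (nat_lit 17) true (nat_lit 17) (.e false (nat_lit 2) (nat_lit 208) (nat_lit 2) (nat_lit 16) (.e false (nat_lit 2) (nat_lit 216) (nat_lit 2) (nat_lit 16) (.e true (nat_lit 3) (nat_lit 144) (nat_lit 6) (nat_lit 12) (.e false (nat_lit 1) (nat_lit 205) (nat_lit 2) (nat_lit 16) (.e false (nat_lit 3) (nat_lit 252) (nat_lit 1) (nat_lit 17) (.e false (nat_lit 2) (nat_lit 254) (nat_lit 1) (nat_lit 17) (.e false (nat_lit 3) (nat_lit 258) (nat_lit 1) (nat_lit 17) (.e false (nat_lit 3) (nat_lit 263) (nat_lit 1) (nat_lit 17) (.e true (nat_lit 3) (nat_lit 267) (nat_lit 1) (nat_lit 17) (.e false (nat_lit 1) (nat_lit 269) (nat_lit 1) (nat_lit 17) (.e true (nat_lit 2) (nat_lit 270) (nat_lit 1) (nat_lit 17) (.e false (nat_lit 2) (nat_lit 271) (nat_lit 1) (nat_lit 17) (.e true (nat_lit 2) (nat_lit 273) (nat_lit 1) (nat_lit 17) dC2d_i282)))))))))))))))))))))))))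

noncomputable def dC2d_i284 : IL := (.s true (nat_lit 3) (nat_lit 60) (nat_lit 2) (nat_lit 2) (nat_lit 1) true (nat_lit 12) true (nat_lit 17) false (nat_lit 5) true (nat_lit 16) true (nat_lit 16) (.s false (nat_lit 3) (nat_lit 62) (nat_lit 2) (nat_lit 2) (nat_lit 1) true (nat_lit 12) true (nat_lit 17) false (nat_lit 5) true (nat_lit 16) true (nat_lit 16) (.s true (nat_lit 2) (nat_lit 65) (nat_lit 2) (nat_lit 2) (nat_lit 1) true (nat_lit 12) true (nat_lit 17) false (nat_lit 5) true (nat_lit 16) true (nat_lit 16) (.s false (nat_lit 1) (nat_lit 66) (nat_lit 2) (nat_lit 2) (nat_lit 1) true (nat_lit 12) true (nat_lit 17) false (nat_lit 5) true (nat_lit 16) true (nat_lit 16) (.s false (nat_lit 2) (nat_lit 69) (nat_lit 2) (nat_lit 2) (nat_lit 1) true (nat_lit 12) true (nat_lit 17) false (nat_lit 5) true (nat_lit 16) true (nat_lit 16) (.s false (nat_lit 3) (nat_lit 71) (nat_lit 2) (nat_lit 2) (nat_lit 1) true (nat_lit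 12) true (nat_lit 17) false (nat_lit 5) true (nat_lit 16) true (nat_lit 16) (.s true (nat_lit 1) (nat_lit 72) (nat_lit 2) (nat_lit 2) (nat_lit 1) true (nat_lit 12) true (nat_lit 17) false (nat_lit 5) true (nat_lit 16) true (nat_lit 16) (.s true (nat_lit 2) (nat_lit 74) (nat_lit 0) (nat_lit 2) (nat_lit 2) true (nat_lit 13) true (nat_lit 16) false (nat_lit 6) true (nat_lit 18) true (nat_lit 16) (.s false (nat_lit 2) (nat_lit 79) (nat_lit 0) (nat_lit 2) (nat_lit 2) true (nat_lit 13) true (nat_lit 16) false (nat_lit 6) true (nat_lit 18) true (nat_lit 16) (.s false (nat_lit 1) (nat_lit 78) (nat_lit 2) (nat_lit 2) (nat_lit 0) true (nat_lit 13) true (nat_lit 18) false (nat_lit 6) true (nat_lit 16) true (nat_lit 16) (.s false (nat_lit 2) (nat_lit 79) (nat_lit 2) (nat_lit 2) (nat_lit 0) true (nat_lit 13) true (nat_lit 18) false (nat_lit 6) true (nat_lit 16) true (nat_lit 16) (.s false (nat_lit 1) (nat_lit 80) (nat_lit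 1) (nat_lit 1) (nat_lit 2) true (nat_lit 12) true (nat_lit 16) false (nat_lit 7) true (nat_lit 17) true (nat_lit 17) (.s false (nat_lit 3) (nat_lit 83) (nat_lit 1) (nat_lit 1) (nat_lit 2) true (nat_lit 12) true (nat_lit 16) false (nat_lit 7) true (nat_lit 17) true (nat_lit 17) (.s true (nat_lit 2) (nat_lit 84) (nat_lit 1) (nat_lit 1) (nat_lit 2) true (nat_lit 12) true (nat_lit 16) false (nat_lit 7) true (nat_lit 17) true (nat_lit 17) (.s true (nat_lit 1) (nat_lit 88) (nat_lit 1) (nat_lit 1) (nat_lit 2) true (nat_lit 12) true (nat_lit 16) false (nat_lit 7) true (nat_lit 17) true (nat_lit 17) (.s false (nat_lit 3) (nat_lit 80) (nat_lit 1) (nat_lit 2) (nat_lit 1) true (nat_lit 14) true (nat_lit 17) false (nat_lit 7) true (nat_lit 17) true (nat_lit 16) (.s false (nat_lit 2) (nat_lit 81) (nat_lit 1) (nat_lit 2) (nat_lit 1) true (nat_lit 14) true (nat_lit 17) false (nat_lit 7) true (nat_lit 17) true (nat_lit 16) (.s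 false (nat_lit 1) (nat_lit 82) (nat_lit 1) (nat_lit 2) (nat_lit 1) true (nat_lit 14) true (nat_lit 17) false (nat_lit 7) true (nat_lit 17) true (nat_lit 16) (.s true (nat_lit 3) (nat_lit 83) (nat_lit 1) (nat_lit 2) (nat_lit 1) true (nat_lit 14) true (nat_lit 17) false (nat_lit 7) true (nat_lit 17) true (nat_lit 16) (.s false (nat_lit 2) (nat_lit 85) (nat_lit 1) (nat_lit 2) (nat_lit 1) true (nat_lit 14) true (nat_lit 17) false (nat_lit 7) true (nat_lit 17) true (nat_lit 16) (.s false (nat_lit 3) (nat_lit 88) (nat_lit 1) (nat_lit 2) (nat_lit 1) true (nat_lit 14) true (nat_lit 17) false (nat_lit 7) true (nat_lit 17) true (nat_lit 16) (.s true (nat_lit 3) (nat_lit 80) (nat_lit 2) (nat_lit 1) (nat_lit 1) true (nat_lit 12) true (nat_lit 17) false (nat_lit 7) true (nat_lit 16) true (nat_lit 17) (.s false (nat_lit 1) (nat_lit 83) (nat_lit 2) (nat_lit 1) (nat_lit 1) true (nat_lit 12) true (nat_lit 17) false (nat_lit 7)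 true (nat_lit 16) true (nat_lit 17) (.s false (nat_lit 3) (nat_lit 88) (nat_lit 2) (nat_lit 1) (nat_lit 1) true (nat_lit 12) true (nat_lit 17) false (nat_lit 7) true (nat_lit 16) true (nat_lit 17) (.s false (nat_lit 2) (nat_lit 92) (nat_lit 0) (nat_lit 1) (nat_lit 2) true (nat_lit 13) true (nat_lit 16) false (nat_lit 8) true (nat_lit 18) true (nat_lit 17) dC2d_i283)))))))))))))))))))))))))

noncomputable def dC2d_i285 : IL := (.s true (nat_lit 3) (nat_lit 46) (nat_lit 2) (nat_lit 3) (nat_lit 1) true (nat_lit 12) true (nat_lit 17) false (nat_lit 2) true (nat_lit 16) true (nat_lit 15) (.s true (nat_lit 1) (nat_lit 47) (nat_lit 2) (nat_lit 3) (nat_lit 1) true (nat_lit 12) true (nat_lit 17) false (nat_lit 2) true (nat_lit 16) true (nat_lit 15) (.s true (nat_lit 3) (nat_lit 46) (nat_lit 3) (nat_lit 2) (nat_lit 1) true (nat_lit 10) true (nat_lit 17) false (nat_lit 2) true (nat_lit 15) true (nat_lit 16) (.s true (nat_lit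 1) (nat_lit 45) (nat_lit 6) (nat_lit 1) (nat_lit 0) true (nat_lit 8) true (nat_lit 18) false (nat_lit 2) true (nat_lit 12) true (nat_lit 17) (.s true (nat_lit 3) (nat_lit 48) (nat_lit 1) (nat_lit 3) (nat_lit 1) true (nat_lit 14) true (nat_lit 17) false (nat_lit 3) true (nat_lit 17) true (nat_lit 15) (.s false (nat_lit 1) (nat_lit 48) (nat_lit 3) (nat_lit 1) (nat_lit 1) true (nat_lit 10) true (nat_lit 17) false (nat_lit 3) true (nat_lit 15) true (nat_lit 17) (.s false (nat_lit 3) (nat_lit 48) (nat_lit 4) (nat_lit 0) (nat_lit 1) true (nat_lit 9) true (nat_lit 17) false (nat_lit 3) true (nat_lit 14) true (nat_lit 18) (.s false (nat_lit 2) (nat_lit 52) (nat_lit 2) (nat_lit 2) (nat_lit 2) true (nat_lit 11) true (nat_lit 16) false (nat_lit 4) true (nat_lit 16) true (nat_lit 16) (.s false (nat_lit 2) (nat_lit 53) (nat_lit 2) (nat_lit 2) (nat_lit 2) true (nat_lit 11) true (nat_lit 16) false (nat_lit 4) true (nat_lit 16)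 true (nat_lit 16) (.s false (nat_lit 1) (nat_lit 54) (nat_lit 2) (nat_lit 2) (nat_lit 2) true (nat_lit 11) true (nat_lit 16) false (nat_lit 4) true (nat_lit 16) true (nat_lit 16) (.s true (nat_lit 2) (nat_lit 55) (nat_lit 2) (nat_lit 2) (nat_lit 2) true (nat_lit 11) true (nat_lit 16) false (nat_lit 4) true (nat_lit 16) true (nat_lit 16) (.s true (nat_lit 1) (nat_lit 59) (nat_lit 2) (nat_lit 2) (nat_lit 2) true (nat_lit 11) true (nat_lit 16) false (nat_lit 4) true (nat_lit 16) true (nat_lit 16) (.s false (nat_lit 3) (nat_lit 60) (nat_lit 1) (nat_lit 2) (nat_lit 2) true (nat_lit 12) true (nat_lit 16) false (nat_lit 5) true (nat_lit 17) true (nat_lit 16) (.s false (nat_lit 2) (nat_lit 61) (nat_lit 1) (nat_lit 2) (nat_lit 2) true (nat_lit 12) true (nat_lit 16) false (nat_lit 5) true (nat_lit 17) true (nat_lit 16) (.s false (nat_lit 2) (nat_lit 63) (nat_lit 1) (nat_lit 2) (nat_lit 2) true (nat_lit 12) true (nat_lit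 16) false (nat_lit 5) true (nat_lit 17) true (nat_lit 16) (.s false (nat_lit 3) (nat_lit 64) (nat_lit 1) (nat_lit 2) (nat_lit 2) true (nat_lit 12) true (nat_lit 16) false (nat_lit 5) true (nat_lit 17) true (nat_lit 16) (.s true (nat_lit 3) (nat_lit 66) (nat_lit 1) (nat_lit 2) (nat_lit 2) true (nat_lit 12) true (nat_lit 16) false (nat_lit 5) true (nat_lit 17) true (nat_lit 16) (.s true (nat_lit 1) (nat_lit 68) (nat_lit 1) (nat_lit 2) (nat_lit 2) true (nat_lit 12) true (nat_lit 16) false (nat_lit 5) true (nat_lit 17) true (nat_lit 16) (.s true (nat_lit 2) (nat_lit 69) (nat_lit 1) (nat_lit 2) (nat_lit 2) true (nat_lit 12) true (nat_lit 16) false (nat_lit 5) true (nat_lit 17) true (nat_lit 16) (.s false (nat_lit 3) (nat_lit 72) (nat_lit 1) (nat_lit 2) (nat_lit 2) true (nat_lit 12) true (nat_lit 16) false (nat_lit 5) true (nat_lit 17) true (nat_lit 16) (.s true (nat_lit 2) (nat_lit 62) (nat_lit 2) (nat_lit 1) (nat_lit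 2) true (nat_lit 11) true (nat_lit 16) false (nat_lit 5) true (nat_lit 16) true (nat_lit 17) (.s true (nat_lit 2) (nat_lit 63) (nat_lit 2) (nat_lit 1) (nat_lit 2) true (nat_lit 11) true (nat_lit 16) false (nat_lit 5) true (nat_lit 16) true (nat_lit 17) (.s false (nat_lit 1) (nat_lit 64) (nat_lit 2) (nat_lit 1) (nat_lit 2) true (nat_lit 11) true (nat_lit 16) false (nat_lit 5) true (nat_lit 16) true (nat_lit 17) (.s true (nat_lit 1) (nat_lit 65) (nat_lit 2) (nat_lit 1) (nat_lit 2) true (nat_lit 11) true (nat_lit 16) false (nat_lit 5) true (nat_lit 16) true (nat_lit 17) (.s true (nat_lit 1) (nat_lit 69) (nat_lit 2) (nat_lit 1) (nat_lit 2) true (nat_lit 11) true (nat_lit 16) false (nat_lit 5) true (nat_lit 16) true (nat_lit 17) dC2d_i284)))))))))))))))))))))))))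

noncomputable def dC2d_i286 : IL := (.s false (nat_lit 2) (nat_lit 33) (nat_lit 1) (nat_lit 7) (nat_lit 1) true (nat_lit 14) true (nat_lit 17) true (nat_lit 0) true (nat_lit 17) true (nat_lit 11) (.s true (nat_lit 2) (nat_lit 37) (nat_lit 1) (nat_lit 7) (nat_lit 1) true (nat_lit 14) true (nat_lit 17) true (nat_lit 0) true (nat_lit 17) true (nat_lit 11) (.s true (nat_lit 1) (nat_lit 38) (nat_lit 1) (nat_lit 7) (nat_lit 1) true (nat_lit 14) true (nat_lit 17) true (nat_lit 0) true (nat_lit 17) true (nat_lit 11) (.s true (nat_lit 2) (nat_lit 34) (nat_lit 2) (nat_lit 1) (nat_lit 6) true (nat_lit 5) true (nat_lit 12) true (nat_lit 0) true (nat_lit 16) true (nat_lit 17) (.s true (nat_lit 1) (nat_lit 33) (nat_lit 2) (nat_lit 2) (nat_lit 4) true (nat_lit 7) true (nat_lit 14) true (nat_lit 0) true (nat_lit 16) true (nat_lit 16) (.s true (nat_lit 3) (nat_lit 36) (nat_lit 2) (nat_lit 2) (nat_lit 4) true (nat_lit 7) true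 (nat_lit 14) true (nat_lit 0) true (nat_lit 16) true (nat_lit 16) (.s true (nat_lit 1) (nat_lit 38) (nat_lit 2) (nat_lit 2) (nat_lit 4) true (nat_lit 7) true (nat_lit 14) true (nat_lit 0) true (nat_lit 16) true (nat_lit 16) (.s true (nat_lit 2) (nat_lit 33) (nat_lit 2) (nat_lit 4) (nat_lit 2) true (nat_lit 11) true (nat_lit 16) true (nat_lit 0) true (nat_lit 16) true (nat_lit 14) (.s false (nat_lit 3) (nat_lit 34) (nat_lit 2) (nat_lit 6) (nat_lit 1) true (nat_lit 12) true (nat_lit 17) true (nat_lit 0) true (nat_lit 16) true (nat_lit 12) (.s false (nat_lit 2) (nat_lit 37) (nat_lit 4) (nat_lit 2) (nat_lit 2) true (nat_lit 7) true (nat_lit 16) true (nat_lit 0) true (nat_lit 14) true (nat_lit 16) (.s false (nat_lit 1) (nat_lit 38) (nat_lit 4) (nat_lit 2) (nat_lit 2) true (nat_lit 7) true (nat_lit 16) true (nat_lit 0) true (nat_lit 14) true (nat_lit 16) (.s true (nat_lit 3) (nat_lit 34) (nat_lit 6) (nat_lit 2) (nat_lit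 1) true (nat_lit 7) true (nat_lit 17) true (nat_lit 0) true (nat_lit 12) true (nat_lit 16) (.s false (nat_lit 3) (nat_lit 33) (nat_lit 7) (nat_lit 1) (nat_lit 1) true (nat_lit 5) true (nat_lit 17) true (nat_lit 0) true (nat_lit 11) true (nat_lit 17) (.s true (nat_lit 1) (nat_lit 40) (nat_lit 0) (nat_lit 2) (nat_lit 6) true (nat_lit 8) true (nat_lit 12) false (nat_lit 0) true (nat_lit 18) true (nat_lit 16) (.s true (nat_lit 3) (nat_lit 40) (nat_lit 1) (nat_lit 0) (nat_lit 7) true (nat_lit 5) true (nat_lit 11) false (nat_lit 0) true (nat_lit 17) true (nat_lit 18) (.s true (nat_lit 3) (nat_lit 40) (nat_lit 1) (nat_lit 5) (nat_lit 2) true (nat_lit 12) true (nat_lit 16) false (nat_lit 0) true (nat_lit 17) true (nat_lit 13) (.s true (nat_lit 3) (nat_lit 41) (nat_lit 1) (nat_lit 7) (nat_lit 0) true (nat_lit 15) true (nat_lit 18) false (nat_lit 0) true (nat_lit 17) true (nat_lit 11) (.s true (nat_lit 1) (nat_lit 39) (nat_lit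 2) (nat_lit 3) (nat_lit 2) true (nat_lit 11) true (nat_lit 16) false (nat_lit 0) true (nat_lit 16) true (nat_lit 15) (.s false (nat_lit 1) (nat_lit 40) (nat_lit 2) (nat_lit 5) (nat_lit 1) true (nat_lit 12) true (nat_lit 17) false (nat_lit 0) true (nat_lit 16) true (nat_lit 13) (.s false (nat_lit 1) (nat_lit 39) (nat_lit 3) (nat_lit 2) (nat_lit 2) true (nat_lit 8) true (nat_lit 16) false (nat_lit 0) true (nat_lit 15) true (nat_lit 16) (.s true (nat_lit 2) (nat_lit 41) (nat_lit 6) (nat_lit 0) (nat_lit 2) true (nat_lit 5) true (nat_lit 16) false (nat_lit 0) true (nat_lit 12) true (nat_lit 18) (.s false (nat_lit 1) (nat_lit 40) (nat_lit 7) (nat_lit 0) (nat_lit 1) true (nat_lit 5) true (nat_lit 17) false (nat_lit 0) true (nat_lit 11) true (nat_lit 18) (.s false (nat_lit 3) (nat_lit 45) (nat_lit 1) (nat_lit 3) (nat_lit 2) true (nat_lit 12) true (nat_lit 16) false (nat_lit 2) true (nat_lit 17) true (nat_lit 15) (.s true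 (nat_lit 1) (nat_lit 46) (nat_lit 1) (nat_lit 3) (nat_lit 2) true (nat_lit 12) true (nat_lit 16) false (nat_lit 2) true (nat_lit 17) true (nat_lit 15) (.s false (nat_lit 1) (nat_lit 47) (nat_lit 1) (nat_lit 3) (nat_lit 2) true (nat_lit 12) true (nat_lit 16) false (nat_lit 2) true (nat_lit 17) true (nat_lit 15) dC2d_i285)))))))))))))))))))))))))

noncomputable def dC2d_i287 : IL := (.s false (nat_lit 1) (nat_lit 25) (nat_lit 1) (nat_lit 7) (nat_lit 2) true (nat_lit 12) true (nat_lit 16) true (nat_lit 2) true (nat_lit 17) true (nat_lit 11) (.s false (nat_lit 1) (nat_lit 26) (nat_lit 1) (nat_lit 7) (nat_lit 2) true (nat_lit 12) true (nat_lit 16) true (nat_lit 2) true (nat_lit 17) true (nat_lit 11) (.s true (nat_lit 2) (nat_lit 25) (nat_lit 2) (nat_lit 1) (nat_lit 7) true (nat_lit 4) true (nat_lit 11) true (nat_lit 2) true (nat_lit 16) true (nat_lit 17) (.s false (nat_lit 2) (nat_lit 29) (nat_lit 2) (nat_lit 1) (nat_lit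 7) true (nat_lit 4) true (nat_lit 11) true (nat_lit 2) true (nat_lit 16) true (nat_lit 17) (.s true (nat_lit 2) (nat_lit 24) (nat_lit 2) (nat_lit 2) (nat_lit 6) true (nat_lit 5) true (nat_lit 12) true (nat_lit 2) true (nat_lit 16) true (nat_lit 16) (.s true (nat_lit 3) (nat_lit 25) (nat_lit 2) (nat_lit 2) (nat_lit 6) true (nat_lit 5) true (nat_lit 12) true (nat_lit 2) true (nat_lit 16) true (nat_lit 16) (.s false (nat_lit 2) (nat_lit 27) (nat_lit 2) (nat_lit 2) (nat_lit 6) true (nat_lit 5) true (nat_lit 12) true (nat_lit 2) true (nat_lit 16) true (nat_lit 16) (.s false (nat_lit 2) (nat_lit 29) (nat_lit 2) (nat_lit 2) (nat_lit 6) true (nat_lit 5) true (nat_lit 12) true (nat_lit 2) true (nat_lit 16) true (nat_lit 16) (.s true (nat_lit 2) (nat_lit 25) (nat_lit 2) (nat_lit 6) (nat_lit 2) true (nat_lit 11) true (nat_lit 16) true (nat_lit 2) true (nat_lit 16) true (nat_lit 12) (.s true (nat_lit 2) (nat_lit 24) (nat_lit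 2) (nat_lit 7) (nat_lit 1) true (nat_lit 12) true (nat_lit 17) true (nat_lit 2) true (nat_lit 16) true (nat_lit 11) (.s false (nat_lit 2) (nat_lit 24) (nat_lit 6) (nat_lit 2) (nat_lit 2) true (nat_lit 5) true (nat_lit 16) true (nat_lit 2) true (nat_lit 12) true (nat_lit 16) (.s true (nat_lit 2) (nat_lit 27) (nat_lit 6) (nat_lit 2) (nat_lit 2) true (nat_lit 5) true (nat_lit 16) true (nat_lit 2) true (nat_lit 12) true (nat_lit 16) (.s false (nat_lit 2) (nat_lit 29) (nat_lit 6) (nat_lit 2) (nat_lit 2) true (nat_lit 5) true (nat_lit 16) true (nat_lit 2) true (nat_lit 12) true (nat_lit 16) (.s false (nat_lit 2) (nat_lit 25) (nat_lit 7) (nat_lit 2) (nat_lit 1) true (nat_lit 5) true (nat_lit 17) true (nat_lit 2) true (nat_lit 11) true (nat_lit 16) (.s false (nat_lit 3) (nat_lit 30) (nat_lit 0) (nat_lit 2) (nat_lit 7) true (nat_lit 6) true (nat_lit 11) true (nat_lit 1) true (nat_lit 18) true (nat_lit 16) (.s false (nat_lit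 3) (nat_lit 30) (nat_lit 0) (nat_lit 7) (nat_lit 2) true (nat_lit 13) true (nat_lit 16) true (nat_lit 1) true (nat_lit 18) true (nat_lit 11) (.s false (nat_lit 2) (nat_lit 30) (nat_lit 2) (nat_lit 2) (nat_lit 5) true (nat_lit 6) true (nat_lit 13) true (nat_lit 1) true (nat_lit 16) true (nat_lit 16) (.s false (nat_lit 2) (nat_lit 30) (nat_lit 2) (nat_lit 7) (nat_lit 0) true (nat_lit 13) true (nat_lit 18) true (nat_lit 1) true (nat_lit 16) true (nat_lit 11) (.s false (nat_lit 3) (nat_lit 33) (nat_lit 1) (nat_lit 1) (nat_lit 7) true (nat_lit 5) true (nat_lit 11) true (nat_lit 0) true (nat_lit 17) true (nat_lit 17) (.s true (nat_lit 1) (nat_lit 38) (nat_lit 1) (nat_lit 1) (nat_lit 7) true (nat_lit 5) true (nat_lit 11) true (nat_lit 0) true (nat_lit 17) true (nat_lit 17) (.s false (nat_lit 3) (nat_lit 36) (nat_lit 1) (nat_lit 2) (nat_lit 6) true (nat_lit 7) true (nat_lit 12) true (nat_lit 0) true (nat_lit 17) true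 (nat_lit 16) (.s true (nat_lit 1) (nat_lit 37) (nat_lit 1) (nat_lit 2) (nat_lit 6) true (nat_lit 7) true (nat_lit 12) true (nat_lit 0) true (nat_lit 17) true (nat_lit 16) (.s false (nat_lit 3) (nat_lit 38) (nat_lit 1) (nat_lit 2) (nat_lit 6) true (nat_lit 7) true (nat_lit 12) true (nat_lit 0) true (nat_lit 17) true (nat_lit 16) (.s false (nat_lit 1) (nat_lit 33) (nat_lit 1) (nat_lit 6) (nat_lit 2) true (nat_lit 12) true (nat_lit 16) true (nat_lit 0) true (nat_lit 17) true (nat_lit 12) (.s false (nat_lit 2) (nat_lit 34) (nat_lit 1) (nat_lit 6) (nat_lit 2) true (nat_lit 12) true (nat_lit 16) true (nat_lit 0) true (nat_lit 17) true (nat_lit 12) dC2d_i286)))))))))))))))))))))))))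

noncomputable def dC2d_i288 : IL := (.s false (nat_lit 1) (nat_lit 19) (nat_lit 9) (nat_lit 2) (nat_lit 2) true (nat_lit 2) true (nat_lit 16) true (nat_lit 5) true (nat_lit 10) true (nat_lit 16) (.s true (nat_lit 1) (nat_lit 18) (nat_lit 11) (nat_lit 1) (nat_lit 2) true (nat_lit 0) true (nat_lit 16) true (nat_lit 5) true (nat_lit 8) true (nat_lit 17) (.s true (nat_lit 1) (nat_lit 19) (nat_lit 11) (nat_lit 2) (nat_lit 1) true (nat_lit 2) true (nat_lit 17) true (nat_lit 5) true (nat_lit 8) true (nat_lit 16) (.s true (nat_lit 3) (nat_lit 20) (nat_lit 0) (nat_lit 2) (nat_lit 10) true (nat_lit 3) true (nat_lit 9) true (nat_lit 4) true (nat_lit 18) true (nat_lit 16) (.s false (nat_lit 3) (nat_lit 20) (nat_lit 1) (nat_lit 6) (nat_lit 3) true (nat_lit 10) true (nat_lit 15) true (nat_lit 4) true (nat_lit 17) true (nat_lit 12) (.s false (nat_lit 1) (nat_lit 20) (nat_lit 1) (nat_lit 8) (nat_lit 2) true (nat_lit 12) true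 (nat_lit 16) true (nat_lit 4) true (nat_lit 17) true (nat_lit 10) (.s true (nat_lit 3) (nat_lit 20) (nat_lit 2) (nat_lit 1) (nat_lit 8) true (nat_lit 2) true (nat_lit 10) true (nat_lit 4) true (nat_lit 16) true (nat_lit 17) (.s false (nat_lit 1) (nat_lit 20) (nat_lit 3) (nat_lit 2) (nat_lit 4) true (nat_lit 3) true (nat_lit 14) true (nat_lit 4) true (nat_lit 15) true (nat_lit 16) (.s false (nat_lit 2) (nat_lit 20) (nat_lit 4) (nat_lit 2) (nat_lit 3) true (nat_lit 3) true (nat_lit 15) true (nat_lit 4) true (nat_lit 14) true (nat_lit 16) (.s false (nat_lit 1) (nat_lit 20) (nat_lit 6) (nat_lit 3) (nat_lit 1) true (nat_lit 7) true (nat_lit 17) true (nat_lit 4) true (nat_lit 12) true (nat_lit 15) (.s false (nat_lit 2) (nat_lit 20) (nat_lit 9) (nat_lit 2) (nat_lit 1) true (nat_lit 3) true (nat_lit 17) true (nat_lit 4) true (nat_lit 10) true (nat_lit 16) (.s true (nat_lit 3) (nat_lit 20) (nat_lit 10) (nat_lit 0) (nat_lit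 2) true (nat_lit 1) true (nat_lit 16) true (nat_lit 4) true (nat_lit 9) true (nat_lit 18) (.s false (nat_lit 2) (nat_lit 21) (nat_lit 2) (nat_lit 2) (nat_lit 7) true (nat_lit 4) true (nat_lit 11) true (nat_lit 3) true (nat_lit 16) true (nat_lit 16) (.s true (nat_lit 1) (nat_lit 22) (nat_lit 2) (nat_lit 2) (nat_lit 7) true (nat_lit 4) true (nat_lit 11) true (nat_lit 3) true (nat_lit 16) true (nat_lit 16) (.s true (nat_lit 3) (nat_lit 23) (nat_lit 2) (nat_lit 2) (nat_lit 7) true (nat_lit 4) true (nat_lit 11) true (nat_lit 3) true (nat_lit 16) true (nat_lit 16) (.s true (nat_lit 2) (nat_lit 21) (nat_lit 2) (nat_lit 7) (nat_lit 2) true (nat_lit 11) true (nat_lit 16) true (nat_lit 3) true (nat_lit 16) true (nat_lit 11) (.s true (nat_lit 2) (nat_lit 22) (nat_lit 2) (nat_lit 7) (nat_lit 2) true (nat_lit 11) true (nat_lit 16) true (nat_lit 3) true (nat_lit 16) true (nat_lit 11) (.s false (nat_lit 2) (nat_lit 23) (nat_lit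 2) (nat_lit 7) (nat_lit 2) true (nat_lit 11) true (nat_lit 16) true (nat_lit 3) true (nat_lit 16) true (nat_lit 11) (.s false (nat_lit 3) (nat_lit 21) (nat_lit 7) (nat_lit 2) (nat_lit 2) true (nat_lit 4) true (nat_lit 16) true (nat_lit 3) true (nat_lit 11) true (nat_lit 16) (.s false (nat_lit 2) (nat_lit 23) (nat_lit 7) (nat_lit 2) (nat_lit 2) true (nat_lit 4) true (nat_lit 16) true (nat_lit 3) true (nat_lit 11) true (nat_lit 16) (.s false (nat_lit 3) (nat_lit 24) (nat_lit 1) (nat_lit 2) (nat_lit 7) true (nat_lit 5) true (nat_lit 11) true (nat_lit 2) true (nat_lit 17) true (nat_lit 16) (.s true (nat_lit 3) (nat_lit 25) (nat_lit 1) (nat_lit 2) (nat_lit 7) true (nat_lit 5) true (nat_lit 11) true (nat_lit 2) true (nat_lit 17) true (nat_lit 16) (.s true (nat_lit 1) (nat_lit 26) (nat_lit 1) (nat_lit 2) (nat_lit 7) true (nat_lit 5) true (nat_lit 11) true (nat_lit 2) true (nat_lit 17) true (nat_lit 16) (.s false (nat_lit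 2) (nat_lit 27) (nat_lit 1) (nat_lit 2) (nat_lit 7) true (nat_lit 5) true (nat_lit 11) true (nat_lit 2) true (nat_lit 17) true (nat_lit 16) (.s false (nat_lit 2) (nat_lit 24) (nat_lit 1) (nat_lit 7) (nat_lit 2) true (nat_lit 12) true (nat_lit 16) true (nat_lit 2) true (nat_lit 17) true (nat_lit 11) dC2d_i287)))))))))))))))))))))))))

noncomputable def dC2d_i289 : IL := (.s false (nat_lit 2) (nat_lit 10) (nat_lit 2) (nat_lit 7) (nat_lit 5) true (nat_lit 6) true (nat_lit 13) true (nat_lit 9) true (nat_lit 16) true (nat_lit 11) (.s false (nat_lit 3) (nat_lit 10) (nat_lit 5) (nat_lit 2) (nat_lit 7) false (nat_lit 1) true (nat_lit 11) true (nat_lit 9) true (nat_lit 13) true (nat_lit 16) (.s true (nat_lit 1) (nat_lit 10) (nat_lit 7) (nat_lit 0) (nat_lit 7) false (nat_lit 3) true (nat_lit 11) true (nat_lit 9) true (nat_lit 11) true (nat_lit 18) (.s true (nat_lit 2) (nat_lit 10) (nat_lit 7) (nat_lit 7) (nat_lit 0) true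 (nat_lit 6) true (nat_lit 18) true (nat_lit 9) true (nat_lit 11) true (nat_lit 11) (.s false (nat_lit 2) (nat_lit 11) (nat_lit 6) (nat_lit 6) (nat_lit 2) true (nat_lit 5) true (nat_lit 16) true (nat_lit 8) true (nat_lit 12) true (nat_lit 12) (.s false (nat_lit 1) (nat_lit 14) (nat_lit 2) (nat_lit 2) (nat_lit 11) true (nat_lit 0) true (nat_lit 8) true (nat_lit 7) true (nat_lit 16) true (nat_lit 16) (.s false (nat_lit 1) (nat_lit 17) (nat_lit 2) (nat_lit 15) (nat_lit 1) true (nat_lit 12) true (nat_lit 17) true (nat_lit 6) true (nat_lit 16) true (nat_lit 7) (.s true (nat_lit 3) (nat_lit 17) (nat_lit 10) (nat_lit 2) (nat_lit 2) true (nat_lit 1) true (nat_lit 16) true (nat_lit 6) true (nat_lit 9) true (nat_lit 16) (.s false (nat_lit 1) (nat_lit 18) (nat_lit 0) (nat_lit 1) (nat_lit 19) true (nat_lit 0) true (nat_lit 5) true (nat_lit 5) true (nat_lit 18) true (nat_lit 17) (.s true (nat_lit 3) (nat_lit 18) (nat_lit 0)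 (nat_lit 2) (nat_lit 15) true (nat_lit 2) true (nat_lit 7) true (nat_lit 5) true (nat_lit 18) true (nat_lit 16) (.s true (nat_lit 2) (nat_lit 18) (nat_lit 1) (nat_lit 0) (nat_lit 18) false (nat_lit 0) true (nat_lit 5) true (nat_lit 5) true (nat_lit 17) true (nat_lit 18) (.s true (nat_lit 2) (nat_lit 18) (nat_lit 1) (nat_lit 2) (nat_lit 12) true (nat_lit 2) true (nat_lit 8) true (nat_lit 5) true (nat_lit 17) true (nat_lit 16) (.s true (nat_lit 2) (nat_lit 18) (nat_lit 1) (nat_lit 3) (nat_lit 7) true (nat_lit 5) true (nat_lit 11) true (nat_lit 5) true (nat_lit 17) true (nat_lit 15) (.s false (nat_lit 2) (nat_lit 18) (nat_lit 1) (nat_lit 11) (nat_lit 2) true (nat_lit 12) true (nat_lit 16) true (nat_lit 5) true (nat_lit 17) true (nat_lit 8) (.s false (nat_lit 3) (nat_lit 18) (nat_lit 1) (nat_lit 12) (nat_lit 2) true (nat_lit 12) true (nat_lit 16) true (nat_lit 5) true (nat_lit 17) true (nat_lit 8) (.s false (nat_lit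 3) (nat_lit 18) (nat_lit 2) (nat_lit 1) (nat_lit 12) true (nat_lit 0) true (nat_lit 8) true (nat_lit 5) true (nat_lit 16) true (nat_lit 17) (.s true (nat_lit 3) (nat_lit 18) (nat_lit 2) (nat_lit 2) (nat_lit 8) true (nat_lit 2) true (nat_lit 10) true (nat_lit 5) true (nat_lit 16) true (nat_lit 16) (.s false (nat_lit 3) (nat_lit 19) (nat_lit 2) (nat_lit 2) (nat_lit 8) true (nat_lit 2) true (nat_lit 10) true (nat_lit 5) true (nat_lit 16) true (nat_lit 16) (.s true (nat_lit 2) (nat_lit 19) (nat_lit 2) (nat_lit 6) (nat_lit 3) true (nat_lit 8) true (nat_lit 15) true (nat_lit 5) true (nat_lit 16) true (nat_lit 12) (.s true (nat_lit 2) (nat_lit 18) (nat_lit 2) (nat_lit 11) (nat_lit 1) true (nat_lit 12) true (nat_lit 17) true (nat_lit 5) true (nat_lit 16) true (nat_lit 8) (.s false (nat_lit 2) (nat_lit 18) (nat_lit 2) (nat_lit 12) (nat_lit 1) true (nat_lit 12) true (nat_lit 17) true (nat_lit 5) true (nat_lit 16) true (nat_lit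 8) (.s false (nat_lit 2) (nat_lit 19) (nat_lit 2) (nat_lit 11) (nat_lit 1) true (nat_lit 12) true (nat_lit 17) true (nat_lit 5) true (nat_lit 16) true (nat_lit 8) (.s false (nat_lit 2) (nat_lit 19) (nat_lit 3) (nat_lit 6) (nat_lit 2) true (nat_lit 8) true (nat_lit 16) true (nat_lit 5) true (nat_lit 15) true (nat_lit 12) (.s false (nat_lit 2) (nat_lit 18) (nat_lit 8) (nat_lit 2) (nat_lit 2) true (nat_lit 2) true (nat_lit 16) true (nat_lit 5) true (nat_lit 10) true (nat_lit 16) (.s false (nat_lit 2) (nat_lit 18) (nat_lit 9) (nat_lit 2) (nat_lit 2) true (nat_lit 2) true (nat_lit 16) true (nat_lit 5) true (nat_lit 10) true (nat_lit 16) dC2d_i288)))))))))))))))))))))))))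

noncomputable def dC2d_i290 : IL := (.e true (nat_lit 2) (nat_lit 259) (nat_lit 1) (nat_lit 17) (.e false (nat_lit 2) (nat_lit 260) (nat_lit 1) (nat_lit 17) (.e true (nat_lit 1) (nat_lit 275) (nat_lit 1) (nat_lit 17) (.e true (nat_lit 3) (nat_lit 289) (nat_lit 0) (nat_lit 18) (.e false (nat_lit 3) (nat_lit 290) (nat_lit 0) (nat_lit 18) (.e true (nat_lit 1) (nat_lit 291) (nat_lit 0) (nat_lit 18) (.e true (nat_lit 3) (nat_lit 292) (nat_lit 0) (nat_lit 18) (.e true (nat_lit 2) (nat_lit 293) (nat_lit 0) (nat_lit 18) (.e true (nat_lit 1) (nat_lit 294) (nat_lit 0) (nat_lit 18) (.e true (nat_lit 3) (nat_lit 295) (nat_lit 0) (nat_lit 18) (.e true (nat_lit 2) (nat_lit 297) (nat_lit 0) (nat_lit 18) (.e true (nat_lit 3) (nat_lit 299) (nat_lit 0) (nat_lit 18) (.e true (nat_lit 3) (nat_lit 301) (nat_lit 0) (nat_lit 18) (.e true (nat_lit 3) (nat_lit 303) (nat_lit 0) (nat_lit 18) (.e true (nat_lit 3) (nat_lit 279) (nat_lit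 1) (nat_lit 17) (.e false (nat_lit 2) (nat_lit 282) (nat_lit 1) (nat_lit 17) (.e false (nat_lit 3) (nat_lit 280) (nat_lit 1) (nat_lit 17) (.e false (nat_lit 3) (nat_lit 300) (nat_lit 0) (nat_lit 18) (.e true (nat_lit 2) (nat_lit 296) (nat_lit 0) (nat_lit 18) (.e true (nat_lit 3) (nat_lit 261) (nat_lit 1) (nat_lit 17) (.e true (nat_lit 2) (nat_lit 170) (nat_lit 4) (nat_lit 14) (.u (nat_lit 2) (.n (nat_lit 1) (nat_lit 1) (.p (nat_lit 2) (nat_lit 1) (.n (nat_lit 4) (nat_lit 4) (.n (nat_lit 5) (nat_lit 1) (.p (nat_lit 6) (nat_lit 5) (.n (nat_lit 8) (nat_lit 1) (.n (nat_lit 9) (nat_lit 3) (.p (nat_lit 10) (nat_lit 4) (.n (nat_lit 14) (nat_lit 1) (.p (nat_lit 15) (nat_lit 2) (.p (nat_lit 17) (nat_lit 4) (.p (nat_lit 18) (nat_lit 2) (.n (nat_lit 20) (nat_lit 4) (.p (nat_lit 21) (nat_lit 1) (.n (nat_lit 22) (nat_lit 1) (.n (nat_lit 23) (nat_lit 3) (.n (nat_lit 26) (nat_lit 1) (.n (nat_lit 28) (nat_lit 1) (.p (nat_lit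 29) (nat_lit 1) (.p (nat_lit 31) (nat_lit 1) (.p (nat_lit 32) (nat_lit 4) (.n (nat_lit 34) (nat_lit 1) (.p (nat_lit 35) (nat_lit 2) (.n (nat_lit 37) (nat_lit 1) (.n (nat_lit 39) (nat_lit 2) (.n (nat_lit 41) (nat_lit 1) (.p (nat_lit 42) (nat_lit 1) (.p (nat_lit 45) (nat_lit 1) (.n (nat_lit 46) (nat_lit 2) (.p (nat_lit 47) (nat_lit 3) (.n (nat_lit 48) (nat_lit 1) (.n (nat_lit 63) (nat_lit 1) (.n (nat_lit 66) (nat_lit 1) (.p (nat_lit 67) (nat_lit 1) (.n (nat_lit 73) (nat_lit 1) (.n (nat_lit 79) (nat_lit 1) (.n (nat_lit 90) (nat_lit 1) (.p (nat_lit 91) (nat_lit 1) (.p (nat_lit 92) (nat_lit 1) (.p (nat_lit 95) (nat_lit 1) (.n (nat_lit 99) (nat_lit 1) (.n (nat_lit 100) (nat_lit 1) (.p (nat_lit 105) (nat_lit 1) (.p (nat_lit 107) (nat_lit 1) (.n (nat_lit 113) (nat_lit 1) (.p (nat_lit 114) (nat_lit 1) (.p (nat_lit 115) (nat_lit 2) (.n (nat_lit 116) (nat_lit 1) (.p (nat_lit 118) (nat_lit 1) (.n (nat_lit 121) (nat_lit 1)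 (.n (nat_lit 124) (nat_lit 1) (.p (nat_lit 126) (nat_lit 1) (.p (nat_lit 136) (nat_lit 1) (.n (nat_lit 138) (nat_lit 1) (.n (nat_lit 147) (nat_lit 1) (.n (nat_lit 161) (nat_lit 1) (.p (nat_lit 164) (nat_lit 1) (.p (nat_lit 166) (nat_lit 1) (.p (nat_lit 172) (nat_lit 1) (.n (nat_lit 173) (nat_lit 1) .z)))))))))))))))))))))))))))))))))))))))))))))))))))))))))))) (.u (nat_lit 2) (.p (nat_lit 174) (nat_lit 1) (.p (nat_lit 177) (nat_lit 1) (.n (nat_lit 180) (nat_lit 1) (.n (nat_lit 183) (nat_lit 1) (.p (nat_lit 184) (nat_lit 2) (.n (nat_lit 187) (nat_lit 1) (.p (nat_lit 188) (nat_lit 1) (.n (nat_lit 198) (nat_lit 1) (.p (nat_lit 205) (nat_lit 1) (.p (nat_lit 206) (nat_lit 1) (.p (nat_lit 212) (nat_lit 1) (.p (nat_lit 213) (nat_lit 2) (.n (nat_lit 214) (nat_lit 2) (.n (nat_lit 215) (nat_lit 2) (.n (nat_lit 216) (nat_lit 4) (.p (nat_lit 217) (nat_lit 2) (.n (nat_lit 218) (nat_lit 1) (.p (nat_lit 221) (nat_lit 1) (.n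 (nat_lit 223) (nat_lit 1) (.p (nat_lit 224) (nat_lit 3) (.n (nat_lit 225) (nat_lit 1) (.p (nat_lit 226) (nat_lit 1) (.p (nat_lit 227) (nat_lit 2) (.n (nat_lit 233) (nat_lit 1) (.n (nat_lit 234) (nat_lit 4) (.p (nat_lit 235) (nat_lit 1) (.n (nat_lit 236) (nat_lit 1) (.n (nat_lit 237) (nat_lit 1) (.p (nat_lit 239) (nat_lit 1) (.n (nat_lit 240) (nat_lit 1) (.p (nat_lit 241) (nat_lit 1) (.p (nat_lit 242) (nat_lit 2) (.n (nat_lit 243) (nat_lit 1) (.p (nat_lit 244) (nat_lit 2) (.n (nat_lit 245) (nat_lit 2) (.n (nat_lit 246) (nat_lit 2) (.p (nat_lit 247) (nat_lit 1) (.n (nat_lit 248) (nat_lit 1) (.p (nat_lit 250) (nat_lit 2) (.p (nat_lit 251) (nat_lit 1) (.p (nat_lit 252) (nat_lit 1) (.p (nat_lit 253) (nat_lit 1) (.p (nat_lit 254) (nat_lit 1) (.p (nat_lit 255) (nat_lit 1) (.p (nat_lit 256) (nat_lit 1) (.n (nat_lit 257) (nat_lit 2) (.n (nat_lit 258) (nat_lit 1) (.n (nat_lit 259) (nat_lit 1) (.n (nat_lit 260) (nat_lit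 2) (.n (nat_lit 262) (nat_lit 1) (.p (nat_lit 263) (nat_lit 2) (.p (nat_lit 264) (nat_lit 2) (.n (nat_lit 265) (nat_lit 1) (.p (nat_lit 267) (nat_lit 2) (.p (nat_lit 268) (nat_lit 1) (.n (nat_lit 269) (nat_lit 2) (.n (nat_lit 270) (nat_lit 1) (.p (nat_lit 271) (nat_lit 1) (.p (nat_lit 277) (nat_lit 1) (.n (nat_lit 278) (nat_lit 1) .z)))))))))))))))))))))))))))))))))))))))))))))))))))))))))))) (.u (nat_lit 2) (.n (nat_lit 279) (nat_lit 1) (.n (nat_lit 281) (nat_lit 1) (.p (nat_lit 284) (nat_lit 1) (.n (nat_lit 292) (nat_lit 2) (.p (nat_lit 294) (nat_lit 1) (.n (nat_lit 296) (nat_lit 1) (.p (nat_lit 297) (nat_lit 1) (.n (nat_lit 299) (nat_lit 1) (.p (nat_lit 300) (nat_lit 1) (.p (nat_lit 302) (nat_lit 14) (.n (nat_lit 303) (nat_lit 7) (.p (nat_lit 304) (nat_lit 16) (.n (nat_lit 305) (nat_lit 6) (.p (nat_lit 306) (nat_lit 19) (.n (nat_lit 307) (nat_lit 4) (.n (nat_lit 308) (nat_lit 22) (.n (nat_lit 309) (nat_lit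 3) (.p (nat_lit 310) (nat_lit 25) (.p (nat_lit 311) (nat_lit 15) (.n (nat_lit 312) (nat_lit 13) (.n (nat_lit 313) (nat_lit 18) (.p (nat_lit 314) (nat_lit 15) (.n (nat_lit 315) (nat_lit 4) (.n (nat_lit 316) (nat_lit 8) (.n (nat_lit 317) (nat_lit 3) (.p (nat_lit 318) (nat_lit 11) (.p (nat_lit 319) (nat_lit 16) (.p (nat_lit 320) (nat_lit 2) (.n (nat_lit 321) (nat_lit 1) (.p (nat_lit 322) (nat_lit 3) (.n (nat_lit 323) (nat_lit 14) (.n (nat_lit 324) (nat_lit 11) (.n (nat_lit 325) (nat_lit 29) (.p (nat_lit 326) (nat_lit 9) (.n (nat_lit 327) (nat_lit 10) (.n (nat_lit 328) (nat_lit 7) (.p (nat_lit 330) (nat_lit 4) (.n (nat_lit 331) (nat_lit 7) (.p (nat_lit 332) (nat_lit 1) (.p (nat_lit 333) (nat_lit 1) (.p (nat_lit 334) (nat_lit 3) (.p (nat_lit 335) (nat_lit 6) (.n (nat_lit 336) (nat_lit 4) (.n (nat_lit 337) (nat_lit 2) (.p (nat_lit 338) (nat_lit 1) (.p (nat_lit 339) (nat_lit 6) (.p (nat_lit 340) (nat_lit 6) (.p (nat_lit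 341) (nat_lit 1) (.p (nat_lit 342) (nat_lit 15) (.p (nat_lit 343) (nat_lit 18) (.p (nat_lit 344) (nat_lit 15) (.n (nat_lit 345) (nat_lit 23) (.p (nat_lit 346) (nat_lit 11) (.p (nat_lit 347) (nat_lit 6) (.n (nat_lit 348) (nat_lit 24) (.n (nat_lit 349) (nat_lit 3) (.p (nat_lit 350) (nat_lit 14) (.p (nat_lit 351) (nat_lit 15) (.n (nat_lit 352) (nat_lit 15) (.p (nat_lit 353) (nat_lit 6) .z)))))))))))))))))))))))))))))))))))))))))))))))))))))))))))) (.u (nat_lit 2) (.n (nat_lit 354) (nat_lit 11) (.n (nat_lit 355) (nat_lit 11) (.p (nat_lit 356) (nat_lit 8) (.n (nat_lit 357) (nat_lit 24) (.p (nat_lit 358) (nat_lit 1) (.p (nat_lit 359) (nat_lit 6) (.p (nat_lit 360) (nat_lit 3) (.n (nat_lit 361) (nat_lit 10) (.p (nat_lit 362) (nat_lit 2) (.p (nat_lit 363) (nat_lit 11) (.p (nat_lit 364) (nat_lit 1) (.n (nat_lit 365) (nat_lit 2) (.p (nat_lit 366) (nat_lit 11) (.p (nat_lit 367) (nat_lit 17) (.n (nat_lit 368) (nat_lit 18)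 (.p (nat_lit 369) (nat_lit 2) (.n (nat_lit 370) (nat_lit 7) (.n (nat_lit 371) (nat_lit 5) (.n (nat_lit 372) (nat_lit 7) (.p (nat_lit 373) (nat_lit 25) (.p (nat_lit 374) (nat_lit 12) (.p (nat_lit 375) (nat_lit 1) (.n (nat_lit 376) (nat_lit 7) (.p (nat_lit 377) (nat_lit 2) (.n (nat_lit 379) (nat_lit 6) (.p (nat_lit 380) (nat_lit 16) (.n (nat_lit 381) (nat_lit 2) (.n (nat_lit 382) (nat_lit 25) (.p (nat_lit 383) (nat_lit 6) (.n (nat_lit 384) (nat_lit 2) (.p (nat_lit 385) (nat_lit 1) (.n (nat_lit 386) (nat_lit 8) (.p (nat_lit 387) (nat_lit 5) (.n (nat_lit 388) (nat_lit 2) (.p (nat_lit 389) (nat_lit 5) (.p (nat_lit 390) (nat_lit 4) (.n (nat_lit 391) (nat_lit 8) (.p (nat_lit 392) (nat_lit 8) (.n (nat_lit 393) (nat_lit 7) (.n (nat_lit 394) (nat_lit 2) (.p (nat_lit 395) (nat_lit 2) (.p (nat_lit 396) (nat_lit 5) (.p (nat_lit 397) (nat_lit 1) (.n (nat_lit 398) (nat_lit 7) (.p (nat_lit 399) (nat_lit 3) (.n (nat_lit 400) (nat_lit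 9) (.p (nat_lit 401) (nat_lit 6) .z))))))))))))))))))))))))))))))))))))))))))))))) .nil)))))))))))))))))))))))))

noncomputable def dC2d_i291 : IL := (.e true (nat_lit 1) (nat_lit 252) (nat_lit 1) (nat_lit 17) (.e false (nat_lit 2) (nat_lit 253) (nat_lit 1) (nat_lit 17) (.e true (nat_lit 3) (nat_lit 254) (nat_lit 1) (nat_lit 17) (.e false (nat_lit 3) (nat_lit 258) (nat_lit 1) (nat_lit 17) (.e true (nat_lit 1) (nat_lit 263) (nat_lit 1) (nat_lit 17) (.e true (nat_lit 2) (nat_lit 265) (nat_lit 1) (nat_lit 17) (.e false (nat_lit 1) (nat_lit 267) (nat_lit 1) (nat_lit 17) (.e false (nat_lit 3) (nat_lit 269) (nat_lit 1) (nat_lit 17) (.e false (nat_lit 3) (nat_lit 270) (nat_lit 1) (nat_lit 17) (.e false (nat_lit 3) (nat_lit 271) (nat_lit 1) (nat_lit 17) (.e false (nat_lit 2) (nat_lit 272) (nat_lit 1) (nat_lit 17) (.e true (nat_lit 3) (nat_lit 276) (nat_lit 1) (nat_lit 17) (.e true (nat_lit 2) (nat_lit 277) (nat_lit 1)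 (nat_lit 17) (.e true (nat_lit 1) (nat_lit 262) (nat_lit 1) (nat_lit 17) (.e false (nat_lit 1) (nat_lit 264) (nat_lit 1) (nat_lit 17) (.e true (nat_lit 3) (nat_lit 266) (nat_lit 1) (nat_lit 17) (.e true (nat_lit 3) (nat_lit 298) (nat_lit 0) (nat_lit 18) (.e false (nat_lit 3) (nat_lit 274) (nat_lit 1) (nat_lit 17) (.e false (nat_lit 2) (nat_lit 278) (nat_lit 1) (nat_lit 17) (.e true (nat_lit 3) (nat_lit 229) (nat_lit 2) (nat_lit 16) (.e false (nat_lit 1) (nat_lit 233) (nat_lit 2) (nat_lit 16) (.e true (nat_lit 3) (nat_lit 235) (nat_lit 2) (nat_lit 16) (.e false (nat_lit 1) (nat_lit 155) (nat_lit 6) (nat_lit 12) (.e true (nat_lit 3) (nat_lit 256) (nat_lit 1) (nat_lit 17) (.e false (nat_lit 3) (nat_lit 257) (nat_lit 1) (nat_lit 17) dC2d_i290)))))))))))))))))))))))))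

noncomputable def dC2d_i292 : IL := (.s false (nat_lit 1) (nat_lit 92) (nat_lit 1) (nat_lit 2) (nat_lit 0) true (nat_lit 15) true (nat_lit 18) false (nat_lit 8) true (nat_lit 17) true (nat_lit 16) (.s true (nat_lit 2) (nat_lit 93) (nat_lit 1) (nat_lit 2) (nat_lit 0) true (nat_lit 15) true (nat_lit 18) false (nat_lit 8) true (nat_lit 17) true (nat_lit 16) (.s false (nat_lit 2) (nat_lit 95) (nat_lit 1) (nat_lit 2) (nat_lit 0) true (nat_lit 15) true (nat_lit 18) false (nat_lit 8) true (nat_lit 17) true (nat_lit 16) (.s false (nat_lit 1) (nat_lit 92) (nat_lit 2) (nat_lit 1) (nat_lit 0) true (nat_lit 13) true (nat_lit 18) false (nat_lit 8) true (nat_lit 16) true (nat_lit 17) (.s false (nat_lit 2) (nat_lit 93) (nat_lit 2) (nat_lit 1) (nat_lit 0) true (nat_lit 13) true (nat_lit 18) false (nat_lit 8) true (nat_lit 16) true (nat_lit 17) (.s false (nat_lit 3) (nat_lit 94) (nat_lit 2) (nat_lit 1) (nat_lit 0) true (nat_lit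 13) true (nat_lit 18) false (nat_lit 8) true (nat_lit 16) true (nat_lit 17) (.s false (nat_lit 1) (nat_lit 102) (nat_lit 0) (nat_lit 1) (nat_lit 1) true (nat_lit 15) true (nat_lit 17) false (nat_lit 10) true (nat_lit 18) true (nat_lit 17) (.s false (nat_lit 3) (nat_lit 103) (nat_lit 0) (nat_lit 1) (nat_lit 1) true (nat_lit 15) true (nat_lit 17) false (nat_lit 10) true (nat_lit 18) true (nat_lit 17) (.s false (nat_lit 3) (nat_lit 104) (nat_lit 0) (nat_lit 1) (nat_lit 1) true (nat_lit 15) true (nat_lit 17) false (nat_lit 10) true (nat_lit 18) true (nat_lit 17) (.s true (nat_lit 2) (nat_lit 101) (nat_lit 1) (nat_lit 1) (nat_lit 0) true (nat_lit 15) true (nat_lit 18) false (nat_lit 10) true (nat_lit 17) true (nat_lit 17) (.s true (nat_lit 2) (nat_lit 102) (nat_lit 1) (nat_lit 1) (nat_lit 0) true (nat_lit 15) true (nat_lit 18) false (nat_lit 10) true (nat_lit 17) true (nat_lit 17) (.s true (nat_lit 1) (nat_lit 103)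 (nat_lit 1) (nat_lit 1) (nat_lit 0) true (nat_lit 15) true (nat_lit 18) false (nat_lit 10) true (nat_lit 17) true (nat_lit 17) (.e true (nat_lit 3) (nat_lit 129) (nat_lit 7) (nat_lit 11) (.e false (nat_lit 1) (nat_lit 227) (nat_lit 2) (nat_lit 16) (.e true (nat_lit 1) (nat_lit 134) (nat_lit 6) (nat_lit 12) (.e false (nat_lit 3) (nat_lit 138) (nat_lit 6) (nat_lit 12) (.e true (nat_lit 3) (nat_lit 205) (nat_lit 2) (nat_lit 16) (.e false (nat_lit 1) (nat_lit 210) (nat_lit 2) (nat_lit 16) (.e false (nat_lit 3) (nat_lit 213) (nat_lit 2) (nat_lit 16) (.e false (nat_lit 3) (nat_lit 209) (nat_lit 2) (nat_lit 16) (.e true (nat_lit 1) (nat_lit 212) (nat_lit 2) (nat_lit 16) (.e false (nat_lit 2) (nat_lit 230) (nat_lit 2) (nat_lit 16) (.e true (nat_lit 2) (nat_lit 234) (nat_lit 2) (nat_lit 16) (.e true (nat_lit 3) (nat_lit 246) (nat_lit 2) (nat_lit 16) (.e false (nat_lit 2) (nat_lit 207) (nat_lit 2) (nat_lit 16) dC2d_i291)))))))))))))))))))))))))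

noncomputable def dC2d_i293 : IL := (.s true (nat_lit 1) (nat_lit 74) (nat_lit 2) (nat_lit 2) (nat_lit 0) true (nat_lit 13) true (nat_lit 18) false (nat_lit 6) true (nat_lit 16) true (nat_lit 16) (.s false (nat_lit 1) (nat_lit 80) (nat_lit 1) (nat_lit 1) (nat_lit 2) true (nat_lit 12) true (nat_lit 16) false (nat_lit 7) true (nat_lit 17) true (nat_lit 17) (.s false (nat_lit 1) (nat_lit 81) (nat_lit 1) (nat_lit 1) (nat_lit 2) true (nat_lit 12) true (nat_lit 16) false (nat_lit 7) true (nat_lit 17) true (nat_lit 17) (.s true (nat_lit 1) (nat_lit 83) (nat_lit 1) (nat_lit 1) (nat_lit 2) true (nat_lit 12) true (nat_lit 16) false (nat_lit 7) true (nat_lit 17) true (nat_lit 17) (.s false (nat_lit 3) (nat_lit 84) (nat_lit 1) (nat_lit 1) (nat_lit 2) true (nat_lit 12) true (nat_lit 16) false (nat_lit 7) true (nat_lit 17) true (nat_lit 17) (.s true (nat_lit 2) (nat_lit 88) (nat_lit 1) (nat_lit 1) (nat_lit 2) true (nat_lit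 12) true (nat_lit 16) false (nat_lit 7) true (nat_lit 17) true (nat_lit 17) (.s true (nat_lit 2) (nat_lit 89) (nat_lit 1) (nat_lit 1) (nat_lit 2) true (nat_lit 12) true (nat_lit 16) false (nat_lit 7) true (nat_lit 17) true (nat_lit 17) (.s false (nat_lit 1) (nat_lit 80) (nat_lit 1) (nat_lit 2) (nat_lit 1) true (nat_lit 14) true (nat_lit 17) false (nat_lit 7) true (nat_lit 17) true (nat_lit 16) (.s false (nat_lit 1) (nat_lit 81) (nat_lit 1) (nat_lit 2) (nat_lit 1) true (nat_lit 14) true (nat_lit 17) false (nat_lit 7) true (nat_lit 17) true (nat_lit 16) (.s false (nat_lit 1) (nat_lit 82) (nat_lit 1) (nat_lit 2) (nat_lit 1) true (nat_lit 14) true (nat_lit 17) false (nat_lit 7) true (nat_lit 17) true (nat_lit 16) (.s true (nat_lit 3) (nat_lit 83) (nat_lit 1) (nat_lit 2) (nat_lit 1) true (nat_lit 14) true (nat_lit 17) false (nat_lit 7) true (nat_lit 17) true (nat_lit 16) (.s false (nat_lit 2) (nat_lit 84) (nat_lit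 1) (nat_lit 2) (nat_lit 1) true (nat_lit 14) true (nat_lit 17) false (nat_lit 7) true (nat_lit 17) true (nat_lit 16) (.s false (nat_lit 2) (nat_lit 85) (nat_lit 1) (nat_lit 2) (nat_lit 1) true (nat_lit 14) true (nat_lit 17) false (nat_lit 7) true (nat_lit 17) true (nat_lit 16) (.s false (nat_lit 3) (nat_lit 88) (nat_lit 1) (nat_lit 2) (nat_lit 1) true (nat_lit 14) true (nat_lit 17) false (nat_lit 7) true (nat_lit 17) true (nat_lit 16) (.s true (nat_lit 2) (nat_lit 90) (nat_lit 1) (nat_lit 2) (nat_lit 1) true (nat_lit 14) true (nat_lit 17) false (nat_lit 7) true (nat_lit 17) true (nat_lit 16) (.s true (nat_lit 2) (nat_lit 80) (nat_lit 2) (nat_lit 1) (nat_lit 1) true (nat_lit 12) true (nat_lit 17) false (nat_lit 7) true (nat_lit 16) true (nat_lit 17) (.s false (nat_lit 2) (nat_lit 81) (nat_lit 2) (nat_lit 1) (nat_lit 1) true (nat_lit 12) true (nat_lit 17) false (nat_lit 7) true (nat_lit 16) true (nat_lit 17) (.s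 false (nat_lit 2) (nat_lit 83) (nat_lit 2) (nat_lit 1) (nat_lit 1) true (nat_lit 12) true (nat_lit 17) false (nat_lit 7) true (nat_lit 16) true (nat_lit 17) (.s false (nat_lit 3) (nat_lit 88) (nat_lit 2) (nat_lit 1) (nat_lit 1) true (nat_lit 12) true (nat_lit 17) false (nat_lit 7) true (nat_lit 16) true (nat_lit 17) (.s false (nat_lit 1) (nat_lit 89) (nat_lit 2) (nat_lit 1) (nat_lit 1) true (nat_lit 12) true (nat_lit 17) false (nat_lit 7) true (nat_lit 16) true (nat_lit 17) (.s false (nat_lit 2) (nat_lit 92) (nat_lit 0) (nat_lit 1) (nat_lit 2) true (nat_lit 13) true (nat_lit 16) false (nat_lit 8) true (nat_lit 18) true (nat_lit 17) (.s true (nat_lit 1) (nat_lit 93) (nat_lit 0) (nat_lit 1) (nat_lit 2) true (nat_lit 13) true (nat_lit 16) false (nat_lit 8) true (nat_lit 18) true (nat_lit 17) (.s false (nat_lit 2) (nat_lit 94) (nat_lit 0) (nat_lit 1) (nat_lit 2) true (nat_lit 13) true (nat_lit 16) false (nat_lit 8)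 true (nat_lit 18) true (nat_lit 17) (.s true (nat_lit 3) (nat_lit 95) (nat_lit 0) (nat_lit 2) (nat_lit 1) true (nat_lit 15) true (nat_lit 17) false (nat_lit 8) true (nat_lit 18) true (nat_lit 16) (.s true (nat_lit 2) (nat_lit 92) (nat_lit 1) (nat_lit 0) (nat_lit 2) true (nat_lit 12) true (nat_lit 16) false (nat_lit 8) true (nat_lit 17) true (nat_lit 18) dC2d_i292)))))))))))))))))))))))))

noncomputable def dC2d_i294 : IL := (.s true (nat_lit 2) (nat_lit 66) (nat_lit 1) (nat_lit 2) (nat_lit 2) true (nat_lit 12) true (nat_lit 16) false (nat_lit 5) true (nat_lit 17) true (nat_lit 16) (.s false (nat_lit 3) (nat_lit 67) (nat_lit 1) (nat_lit 2) (nat_lit 2) true (nat_lit 12) true (nat_lit 16) false (nat_lit 5) true (nat_lit 17) true (nat_lit 16) (.s false (nat_lit 2) (nat_lit 68) (nat_lit 1) (nat_lit 2) (nat_lit 2) true (nat_lit 12) true (nat_lit 16) false (nat_lit 5) true (nat_lit 17) true (nat_lit 16) (.s false (nat_lit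 3) (nat_lit 71) (nat_lit 1) (nat_lit 2) (nat_lit 2) true (nat_lit 12) true (nat_lit 16) false (nat_lit 5) true (nat_lit 17) true (nat_lit 16) (.s true (nat_lit 1) (nat_lit 72) (nat_lit 1) (nat_lit 2) (nat_lit 2) true (nat_lit 12) true (nat_lit 16) false (nat_lit 5) true (nat_lit 17) true (nat_lit 16) (.s false (nat_lit 3) (nat_lit 73) (nat_lit 1) (nat_lit 2) (nat_lit 2) true (nat_lit 12) true (nat_lit 16) false (nat_lit 5) true (nat_lit 17) true (nat_lit 16) (.s false (nat_lit 2) (nat_lit 62) (nat_lit 2) (nat_lit 1) (nat_lit 2) true (nat_lit 11) true (nat_lit 16) false (nat_lit 5) true (nat_lit 16) true (nat_lit 17) (.s false (nat_lit 3) (nat_lit 63) (nat_lit 2) (nat_lit 1) (nat_lit 2) true (nat_lit 11) true (nat_lit 16) false (nat_lit 5) true (nat_lit 16) true (nat_lit 17) (.s false (nat_lit 1) (nat_lit 64) (nat_lit 2) (nat_lit 1) (nat_lit 2) true (nat_lit 11) true (nat_lit 16) false (nat_lit 5) true (nat_lit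 16) true (nat_lit 17) (.s false (nat_lit 1) (nat_lit 66) (nat_lit 2) (nat_lit 1) (nat_lit 2) true (nat_lit 11) true (nat_lit 16) false (nat_lit 5) true (nat_lit 16) true (nat_lit 17) (.s false (nat_lit 2) (nat_lit 69) (nat_lit 2) (nat_lit 1) (nat_lit 2) true (nat_lit 11) true (nat_lit 16) false (nat_lit 5) true (nat_lit 16) true (nat_lit 17) (.s true (nat_lit 2) (nat_lit 73) (nat_lit 2) (nat_lit 1) (nat_lit 2) true (nat_lit 11) true (nat_lit 16) false (nat_lit 5) true (nat_lit 16) true (nat_lit 17) (.s false (nat_lit 1) (nat_lit 60) (nat_lit 2) (nat_lit 2) (nat_lit 1) true (nat_lit 12) true (nat_lit 17) false (nat_lit 5) true (nat_lit 16) true (nat_lit 16) (.s false (nat_lit 2) (nat_lit 61) (nat_lit 2) (nat_lit 2) (nat_lit 1) true (nat_lit 12) true (nat_lit 17) false (nat_lit 5) true (nat_lit 16) true (nat_lit 16) (.s false (nat_lit 3) (nat_lit 62) (nat_lit 2) (nat_lit 2) (nat_lit 1) true (nat_lit 12) true (nat_lit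 17) false (nat_lit 5) true (nat_lit 16) true (nat_lit 16) (.s false (nat_lit 1) (nat_lit 63) (nat_lit 2) (nat_lit 2) (nat_lit 1) true (nat_lit 12) true (nat_lit 17) false (nat_lit 5) true (nat_lit 16) true (nat_lit 16) (.s false (nat_lit 3) (nat_lit 66) (nat_lit 2) (nat_lit 2) (nat_lit 1) true (nat_lit 12) true (nat_lit 17) false (nat_lit 5) true (nat_lit 16) true (nat_lit 16) (.s true (nat_lit 1) (nat_lit 67) (nat_lit 2) (nat_lit 2) (nat_lit 1) true (nat_lit 12) true (nat_lit 17) false (nat_lit 5) true (nat_lit 16) true (nat_lit 16) (.s true (nat_lit 2) (nat_lit 68) (nat_lit 2) (nat_lit 2) (nat_lit 1) true (nat_lit 12) true (nat_lit 17) false (nat_lit 5) true (nat_lit 16) true (nat_lit 16) (.s true (nat_lit 3) (nat_lit 70) (nat_lit 2) (nat_lit 2) (nat_lit 1) true (nat_lit 12) true (nat_lit 17) false (nat_lit 5) true (nat_lit 16) true (nat_lit 16) (.s true (nat_lit 1) (nat_lit 73) (nat_lit 2) (nat_lit 2) (nat_lit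 1) true (nat_lit 12) true (nat_lit 17) false (nat_lit 5) true (nat_lit 16) true (nat_lit 16) (.s false (nat_lit 2) (nat_lit 74) (nat_lit 0) (nat_lit 2) (nat_lit 2) true (nat_lit 13) true (nat_lit 16) false (nat_lit 6) true (nat_lit 18) true (nat_lit 16) (.s false (nat_lit 1) (nat_lit 77) (nat_lit 0) (nat_lit 2) (nat_lit 2) true (nat_lit 13) true (nat_lit 16) false (nat_lit 6) true (nat_lit 18) true (nat_lit 16) (.s false (nat_lit 2) (nat_lit 79) (nat_lit 0) (nat_lit 2) (nat_lit 2) true (nat_lit 13) true (nat_lit 16) false (nat_lit 6) true (nat_lit 18) true (nat_lit 16) (.s false (nat_lit 1) (nat_lit 77) (nat_lit 2) (nat_lit 0) (nat_lit 2) true (nat_lit 11) true (nat_lit 16) false (nat_lit 6) true (nat_lit 16) true (nat_lit 18) dC2d_i293)))))))))))))))))))))))))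

noncomputable def dC2d_i295 : IL := (.s true (nat_lit 1) (nat_lit 41) (nat_lit 6) (nat_lit 0) (nat_lit 2) true (nat_lit 5) true (nat_lit 16) false (nat_lit 0) true (nat_lit 12) true (nat_lit 18) (.s true (nat_lit 2) (nat_lit 40) (nat_lit 6) (nat_lit 2) (nat_lit 0) true (nat_lit 8) true (nat_lit 18) false (nat_lit 0) true (nat_lit 12) true (nat_lit 16) (.s false (nat_lit 1) (nat_lit 45) (nat_lit 1) (nat_lit 2) (nat_lit 3) true (nat_lit 10) true (nat_lit 15) false (nat_lit 2) true (nat_lit 17) true (nat_lit 16) (.s false (nat_lit 3) (nat_lit 46) (nat_lit 1) (nat_lit 2) (nat_lit 3) true (nat_lit 10) true (nat_lit 15) false (nat_lit 2) true (nat_lit 17) true (nat_lit 16) (.s false (nat_lit 2) (nat_lit 46) (nat_lit 1) (nat_lit 3) (nat_lit 2) true (nat_lit 12) true (nat_lit 16) false (nat_lit 2) true (nat_lit 17) true (nat_lit 15) (.s true (nat_lit 2) (nat_lit 47) (nat_lit 1) (nat_lit 3) (nat_lit 2) true (nat_lit 12)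 true (nat_lit 16) false (nat_lit 2) true (nat_lit 17) true (nat_lit 15) (.s false (nat_lit 1) (nat_lit 46) (nat_lit 2) (nat_lit 1) (nat_lit 3) true (nat_lit 8) true (nat_lit 15) false (nat_lit 2) true (nat_lit 16) true (nat_lit 17) (.s true (nat_lit 3) (nat_lit 45) (nat_lit 2) (nat_lit 3) (nat_lit 1) true (nat_lit 12) true (nat_lit 17) false (nat_lit 2) true (nat_lit 16) true (nat_lit 15) (.s false (nat_lit 2) (nat_lit 47) (nat_lit 2) (nat_lit 4) (nat_lit 0) true (nat_lit 13) true (nat_lit 18) false (nat_lit 2) true (nat_lit 16) true (nat_lit 14) (.s true (nat_lit 2) (nat_lit 47) (nat_lit 5) (nat_lit 1) (nat_lit 1) true (nat_lit 8) true (nat_lit 17) false (nat_lit 2) true (nat_lit 13) true (nat_lit 17) (.s true (nat_lit 2) (nat_lit 47) (nat_lit 6) (nat_lit 0) (nat_lit 1) true (nat_lit 7) true (nat_lit 17) false (nat_lit 2) true (nat_lit 12) true (nat_lit 18) (.s false (nat_lit 1) (nat_lit 45) (nat_lit 6) (nat_lit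 1) (nat_lit 0) true (nat_lit 8) true (nat_lit 18) false (nat_lit 2) true (nat_lit 12) true (nat_lit 17) (.s true (nat_lit 2) (nat_lit 46) (nat_lit 6) (nat_lit 1) (nat_lit 0) true (nat_lit 8) true (nat_lit 18) false (nat_lit 2) true (nat_lit 12) true (nat_lit 17) (.s true (nat_lit 3) (nat_lit 48) (nat_lit 3) (nat_lit 1) (nat_lit 1) true (nat_lit 10) true (nat_lit 17) false (nat_lit 3) true (nat_lit 15) true (nat_lit 17) (.s true (nat_lit 1) (nat_lit 52) (nat_lit 2) (nat_lit 2) (nat_lit 2) true (nat_lit 11) true (nat_lit 16) false (nat_lit 4) true (nat_lit 16) true (nat_lit 16) (.s true (nat_lit 1) (nat_lit 53) (nat_lit 2) (nat_lit 2) (nat_lit 2) true (nat_lit 11) true (nat_lit 16) false (nat_lit 4) true (nat_lit 16) true (nat_lit 16) (.s false (nat_lit 2) (nat_lit 55) (nat_lit 2) (nat_lit 2) (nat_lit 2) true (nat_lit 11) true (nat_lit 16) false (nat_lit 4) true (nat_lit 16) true (nat_lit 16) (.s true (nat_lit 3)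 (nat_lit 56) (nat_lit 2) (nat_lit 2) (nat_lit 2) true (nat_lit 11) true (nat_lit 16) false (nat_lit 4) true (nat_lit 16) true (nat_lit 16) (.s true (nat_lit 2) (nat_lit 57) (nat_lit 2) (nat_lit 2) (nat_lit 2) true (nat_lit 11) true (nat_lit 16) false (nat_lit 4) true (nat_lit 16) true (nat_lit 16) (.s false (nat_lit 2) (nat_lit 59) (nat_lit 2) (nat_lit 2) (nat_lit 2) true (nat_lit 11) true (nat_lit 16) false (nat_lit 4) true (nat_lit 16) true (nat_lit 16) (.s false (nat_lit 3) (nat_lit 60) (nat_lit 1) (nat_lit 2) (nat_lit 2) true (nat_lit 12) true (nat_lit 16) false (nat_lit 5) true (nat_lit 17) true (nat_lit 16) (.s true (nat_lit 2) (nat_lit 61) (nat_lit 1) (nat_lit 2) (nat_lit 2) true (nat_lit 12) true (nat_lit 16) false (nat_lit 5) true (nat_lit 17) true (nat_lit 16) (.s true (nat_lit 1) (nat_lit 63) (nat_lit 1) (nat_lit 2) (nat_lit 2) true (nat_lit 12) true (nat_lit 16) false (nat_lit 5) true (nat_lit 17)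 true (nat_lit 16) (.s true (nat_lit 1) (nat_lit 64) (nat_lit 1) (nat_lit 2) (nat_lit 2) true (nat_lit 12) true (nat_lit 16) false (nat_lit 5) true (nat_lit 17) true (nat_lit 16) (.s true (nat_lit 3) (nat_lit 65) (nat_lit 1) (nat_lit 2) (nat_lit 2) true (nat_lit 12) true (nat_lit 16) false (nat_lit 5) true (nat_lit 17) true (nat_lit 16) dC2d_i294)))))))))))))))))))))))))

noncomputable def dC2d_i296 : IL := (.s true (nat_lit 1) (nat_lit 30) (nat_lit 0) (nat_lit 2) (nat_lit 7) true (nat_lit 6) true (nat_lit 11) true (nat_lit 1) true (nat_lit 18) true (nat_lit 16) (.s true (nat_lit 1) (nat_lit 30) (nat_lit 2) (nat_lit 2) (nat_lit 5) true (nat_lit 6) true (nat_lit 13) true (nat_lit 1) true (nat_lit 16) true (nat_lit 16) (.s false (nat_lit 1) (nat_lit 30) (nat_lit 2) (nat_lit 5) (nat_lit 2) true (nat_lit 11) true (nat_lit 16) true (nat_lit 1) true (nat_lit 16) true (nat_lit 13) (.s true (nat_lit 3) (nat_lit 30) (nat_lit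 5) (nat_lit 2) (nat_lit 2) true (nat_lit 6) true (nat_lit 16) true (nat_lit 1) true (nat_lit 13) true (nat_lit 16) (.s false (nat_lit 2) (nat_lit 33) (nat_lit 1) (nat_lit 1) (nat_lit 7) true (nat_lit 5) true (nat_lit 11) true (nat_lit 0) true (nat_lit 17) true (nat_lit 17) (.s false (nat_lit 1) (nat_lit 34) (nat_lit 1) (nat_lit 1) (nat_lit 7) true (nat_lit 5) true (nat_lit 11) true (nat_lit 0) true (nat_lit 17) true (nat_lit 17) (.s true (nat_lit 2) (nat_lit 33) (nat_lit 1) (nat_lit 2) (nat_lit 6) true (nat_lit 7) true (nat_lit 12) true (nat_lit 0) true (nat_lit 17) true (nat_lit 16) (.s true (nat_lit 2) (nat_lit 35) (nat_lit 1) (nat_lit 2) (nat_lit 6) true (nat_lit 7) true (nat_lit 12) true (nat_lit 0) true (nat_lit 17) true (nat_lit 16) (.s false (nat_lit 3) (nat_lit 36) (nat_lit 1) (nat_lit 2) (nat_lit 6) true (nat_lit 7) true (nat_lit 12) true (nat_lit 0) true (nat_lit 17) true (nat_lit 16) (.s true (nat_lit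 3) (nat_lit 38) (nat_lit 1) (nat_lit 2) (nat_lit 6) true (nat_lit 7) true (nat_lit 12) true (nat_lit 0) true (nat_lit 17) true (nat_lit 16) (.s false (nat_lit 2) (nat_lit 34) (nat_lit 1) (nat_lit 6) (nat_lit 2) true (nat_lit 12) true (nat_lit 16) true (nat_lit 0) true (nat_lit 17) true (nat_lit 12) (.s true (nat_lit 1) (nat_lit 34) (nat_lit 1) (nat_lit 7) (nat_lit 1) true (nat_lit 14) true (nat_lit 17) true (nat_lit 0) true (nat_lit 17) true (nat_lit 11) (.s true (nat_lit 2) (nat_lit 34) (nat_lit 2) (nat_lit 1) (nat_lit 6) true (nat_lit 5) true (nat_lit 12) true (nat_lit 0) true (nat_lit 16) true (nat_lit 17) (.s true (nat_lit 1) (nat_lit 38) (nat_lit 2) (nat_lit 2) (nat_lit 4) true (nat_lit 7) true (nat_lit 14) true (nat_lit 0) true (nat_lit 16) true (nat_lit 16) (.s true (nat_lit 1) (nat_lit 33) (nat_lit 2) (nat_lit 4) (nat_lit 2) true (nat_lit 11) true (nat_lit 16) true (nat_lit 0) true (nat_lit 16) true (nat_lit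 14) (.s true (nat_lit 1) (nat_lit 34) (nat_lit 4) (nat_lit 2) (nat_lit 2) true (nat_lit 7) true (nat_lit 16) true (nat_lit 0) true (nat_lit 14) true (nat_lit 16) (.s true (nat_lit 2) (nat_lit 33) (nat_lit 6) (nat_lit 2) (nat_lit 1) true (nat_lit 7) true (nat_lit 17) true (nat_lit 0) true (nat_lit 12) true (nat_lit 16) (.s false (nat_lit 2) (nat_lit 34) (nat_lit 6) (nat_lit 2) (nat_lit 1) true (nat_lit 7) true (nat_lit 17) true (nat_lit 0) true (nat_lit 12) true (nat_lit 16) (.s true (nat_lit 1) (nat_lit 33) (nat_lit 7) (nat_lit 1) (nat_lit 1) true (nat_lit 5) true (nat_lit 17) true (nat_lit 0) true (nat_lit 11) true (nat_lit 17) (.s false (nat_lit 2) (nat_lit 40) (nat_lit 1) (nat_lit 5) (nat_lit 2) true (nat_lit 12) true (nat_lit 16) false (nat_lit 0) true (nat_lit 17) true (nat_lit 13) (.s true (nat_lit 2) (nat_lit 41) (nat_lit 2) (nat_lit 2) (nat_lit 3) true (nat_lit 8) true (nat_lit 15) false (nat_lit 0) true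 (nat_lit 16) true (nat_lit 16) (.s false (nat_lit 3) (nat_lit 39) (nat_lit 2) (nat_lit 3) (nat_lit 2) true (nat_lit 11) true (nat_lit 16) false (nat_lit 0) true (nat_lit 16) true (nat_lit 15) (.s true (nat_lit 3) (nat_lit 41) (nat_lit 2) (nat_lit 6) (nat_lit 0) true (nat_lit 13) true (nat_lit 18) false (nat_lit 0) true (nat_lit 16) true (nat_lit 12) (.s false (nat_lit 2) (nat_lit 39) (nat_lit 3) (nat_lit 2) (nat_lit 2) true (nat_lit 8) true (nat_lit 16) false (nat_lit 0) true (nat_lit 15) true (nat_lit 16) (.s false (nat_lit 3) (nat_lit 41) (nat_lit 5) (nat_lit 2) (nat_lit 1) true (nat_lit 8) true (nat_lit 17) false (nat_lit 0) true (nat_lit 13) true (nat_lit 16) dC2d_i295)))))))))))))))))))))))))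

noncomputable def dC2d_i297 : IL := (.s false (nat_lit 1) (nat_lit 20) (nat_lit 11) (nat_lit 1) (nat_lit 1) true (nat_lit 2) true (nat_lit 17) true (nat_lit 4) true (nat_lit 8) true (nat_lit 17) (.s false (nat_lit 2) (nat_lit 20) (nat_lit 12) (nat_lit 1) (nat_lit 1) true (nat_lit 2) true (nat_lit 17) true (nat_lit 4) true (nat_lit 8) true (nat_lit 17) (.s true (nat_lit 3) (nat_lit 23) (nat_lit 2) (nat_lit 2) (nat_lit 7) true (nat_lit 4) true (nat_lit 11) true (nat_lit 3) true (nat_lit 16) true (nat_lit 16) (.s true (nat_lit 1) (nat_lit 21) (nat_lit 2) (nat_lit 7) (nat_lit 2) true (nat_lit 11) true (nat_lit 16) true (nat_lit 3) true (nat_lit 16) true (nat_lit 11) (.s false (nat_lit 3) (nat_lit 22) (nat_lit 2) (nat_lit 7) (nat_lit 2) true (nat_lit 11) true (nat_lit 16) true (nat_lit 3) true (nat_lit 16) true (nat_lit 11) (.s false (nat_lit 1) (nat_lit 23) (nat_lit 2) (nat_lit 7) (nat_lit 2) true (nat_lit 11) true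 (nat_lit 16) true (nat_lit 3) true (nat_lit 16) true (nat_lit 11) (.s true (nat_lit 2) (nat_lit 23) (nat_lit 7) (nat_lit 2) (nat_lit 2) true (nat_lit 4) true (nat_lit 16) true (nat_lit 3) true (nat_lit 11) true (nat_lit 16) (.s true (nat_lit 3) (nat_lit 25) (nat_lit 1) (nat_lit 2) (nat_lit 7) true (nat_lit 5) true (nat_lit 11) true (nat_lit 2) true (nat_lit 17) true (nat_lit 16) (.s false (nat_lit 3) (nat_lit 27) (nat_lit 1) (nat_lit 2) (nat_lit 7) true (nat_lit 5) true (nat_lit 11) true (nat_lit 2) true (nat_lit 17) true (nat_lit 16) (.s false (nat_lit 1) (nat_lit 29) (nat_lit 1) (nat_lit 2) (nat_lit 7) true (nat_lit 5) true (nat_lit 11) true (nat_lit 2) true (nat_lit 17) true (nat_lit 16) (.s true (nat_lit 2) (nat_lit 24) (nat_lit 1) (nat_lit 7) (nat_lit 2) true (nat_lit 12) true (nat_lit 16) true (nat_lit 2) true (nat_lit 17) true (nat_lit 11) (.s false (nat_lit 1) (nat_lit 25) (nat_lit 1) (nat_lit 7) (nat_lit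 2) true (nat_lit 12) true (nat_lit 16) true (nat_lit 2) true (nat_lit 17) true (nat_lit 11) (.s false (nat_lit 2) (nat_lit 26) (nat_lit 1) (nat_lit 7) (nat_lit 2) true (nat_lit 12) true (nat_lit 16) true (nat_lit 2) true (nat_lit 17) true (nat_lit 11) (.s false (nat_lit 3) (nat_lit 27) (nat_lit 1) (nat_lit 7) (nat_lit 2) true (nat_lit 12) true (nat_lit 16) true (nat_lit 2) true (nat_lit 17) true (nat_lit 11) (.s false (nat_lit 1) (nat_lit 25) (nat_lit 2) (nat_lit 1) (nat_lit 7) true (nat_lit 4) true (nat_lit 11) true (nat_lit 2) true (nat_lit 16) true (nat_lit 17) (.s true (nat_lit 1) (nat_lit 29) (nat_lit 2) (nat_lit 1) (nat_lit 7) true (nat_lit 4) true (nat_lit 11) true (nat_lit 2) true (nat_lit 16) true (nat_lit 17) (.s true (nat_lit 2) (nat_lit 24) (nat_lit 2) (nat_lit 2) (nat_lit 6) true (nat_lit 5) true (nat_lit 12) true (nat_lit 2) true (nat_lit 16) true (nat_lit 16) (.s false (nat_lit 1) (nat_lit 26) (nat_lit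 2) (nat_lit 2) (nat_lit 6) true (nat_lit 5) true (nat_lit 12) true (nat_lit 2) true (nat_lit 16) true (nat_lit 16) (.s false (nat_lit 3) (nat_lit 27) (nat_lit 2) (nat_lit 2) (nat_lit 6) true (nat_lit 5) true (nat_lit 12) true (nat_lit 2) true (nat_lit 16) true (nat_lit 16) (.s false (nat_lit 1) (nat_lit 29) (nat_lit 2) (nat_lit 2) (nat_lit 6) true (nat_lit 5) true (nat_lit 12) true (nat_lit 2) true (nat_lit 16) true (nat_lit 16) (.s false (nat_lit 1) (nat_lit 25) (nat_lit 2) (nat_lit 6) (nat_lit 2) true (nat_lit 11) true (nat_lit 16) true (nat_lit 2) true (nat_lit 16) true (nat_lit 12) (.s false (nat_lit 1) (nat_lit 29) (nat_lit 2) (nat_lit 7) (nat_lit 1) true (nat_lit 12) true (nat_lit 17) true (nat_lit 2) true (nat_lit 16) true (nat_lit 11) (.s false (nat_lit 1) (nat_lit 26) (nat_lit 6) (nat_lit 2) (nat_lit 2) true (nat_lit 5) true (nat_lit 16) true (nat_lit 2) true (nat_lit 12) true (nat_lit 16) (.s false (nat_lit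 1) (nat_lit 27) (nat_lit 6) (nat_lit 2) (nat_lit 2) true (nat_lit 5) true (nat_lit 16) true (nat_lit 2) true (nat_lit 12) true (nat_lit 16) (.s true (nat_lit 2) (nat_lit 29) (nat_lit 6) (nat_lit 2) (nat_lit 2) true (nat_lit 5) true (nat_lit 16) true (nat_lit 2) true (nat_lit 12) true (nat_lit 16) dC2d_i296)))))))))))))))))))))))))

noncomputable def dC2d_i298 : IL := (.s true (nat_lit 1) (nat_lit 18) (nat_lit 1) (nat_lit 11) (nat_lit 2) true (nat_lit 12) true (nat_lit 16) true (nat_lit 5) true (nat_lit 17) true (nat_lit 8) (.s true (nat_lit 1) (nat_lit 18) (nat_lit 2) (nat_lit 1) (nat_lit 11) true (nat_lit 0) true (nat_lit 8) true (nat_lit 5) true (nat_lit 16) true (nat_lit 17) (.s true (nat_lit 3) (nat_lit 18) (nat_lit 2) (nat_lit 1) (nat_lit 13) true (nat_lit 0) true (nat_lit 8) true (nat_lit 5) true (nat_lit 16) true (nat_lit 17) (.s false (nat_lit 2) (nat_lit 19) (nat_lit 2) (nat_lit 1) (nat_lit 12) true (nat_lit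 0) true (nat_lit 8) true (nat_lit 5) true (nat_lit 16) true (nat_lit 17) (.s false (nat_lit 3) (nat_lit 18) (nat_lit 2) (nat_lit 2) (nat_lit 8) true (nat_lit 2) true (nat_lit 10) true (nat_lit 5) true (nat_lit 16) true (nat_lit 16) (.s true (nat_lit 2) (nat_lit 18) (nat_lit 2) (nat_lit 2) (nat_lit 9) true (nat_lit 2) true (nat_lit 10) true (nat_lit 5) true (nat_lit 16) true (nat_lit 16) (.s false (nat_lit 3) (nat_lit 19) (nat_lit 2) (nat_lit 2) (nat_lit 8) true (nat_lit 2) true (nat_lit 10) true (nat_lit 5) true (nat_lit 16) true (nat_lit 16) (.s false (nat_lit 3) (nat_lit 18) (nat_lit 2) (nat_lit 8) (nat_lit 2) true (nat_lit 11) true (nat_lit 16) true (nat_lit 5) true (nat_lit 16) true (nat_lit 10) (.s true (nat_lit 1) (nat_lit 18) (nat_lit 2) (nat_lit 11) (nat_lit 1) true (nat_lit 12) true (nat_lit 17) true (nat_lit 5) true (nat_lit 16) true (nat_lit 8) (.s true (nat_lit 1) (nat_lit 18) (nat_lit 2) (nat_lit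 12) (nat_lit 1) true (nat_lit 12) true (nat_lit 17) true (nat_lit 5) true (nat_lit 16) true (nat_lit 8) (.s true (nat_lit 3) (nat_lit 19) (nat_lit 2) (nat_lit 14) (nat_lit 0) true (nat_lit 13) true (nat_lit 18) true (nat_lit 5) true (nat_lit 16) true (nat_lit 7) (.s false (nat_lit 2) (nat_lit 18) (nat_lit 3) (nat_lit 2) (nat_lit 6) true (nat_lit 2) true (nat_lit 12) true (nat_lit 5) true (nat_lit 15) true (nat_lit 16) (.s true (nat_lit 3) (nat_lit 18) (nat_lit 8) (nat_lit 2) (nat_lit 2) true (nat_lit 2) true (nat_lit 16) true (nat_lit 5) true (nat_lit 10) true (nat_lit 16) (.s true (nat_lit 3) (nat_lit 18) (nat_lit 9) (nat_lit 2) (nat_lit 2) true (nat_lit 2) true (nat_lit 16) true (nat_lit 5) true (nat_lit 10) true (nat_lit 16) (.s false (nat_lit 3) (nat_lit 19) (nat_lit 9) (nat_lit 2) (nat_lit 2) true (nat_lit 2) true (nat_lit 16) true (nat_lit 5) true (nat_lit 10) true (nat_lit 16) (.s false (nat_lit 2) (nat_lit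 19) (nat_lit 11) (nat_lit 1) (nat_lit 2) true (nat_lit 0) true (nat_lit 16) true (nat_lit 5) true (nat_lit 8) true (nat_lit 17) (.s false (nat_lit 3) (nat_lit 19) (nat_lit 11) (nat_lit 2) (nat_lit 1) true (nat_lit 2) true (nat_lit 17) true (nat_lit 5) true (nat_lit 8) true (nat_lit 16) (.s false (nat_lit 3) (nat_lit 20) (nat_lit 1) (nat_lit 1) (nat_lit 12) true (nat_lit 2) true (nat_lit 8) true (nat_lit 4) true (nat_lit 17) true (nat_lit 17) (.s true (nat_lit 1) (nat_lit 20) (nat_lit 1) (nat_lit 8) (nat_lit 2) true (nat_lit 12) true (nat_lit 16) true (nat_lit 4) true (nat_lit 17) true (nat_lit 10) (.s false (nat_lit 1) (nat_lit 20) (nat_lit 2) (nat_lit 1) (nat_lit 8) true (nat_lit 2) true (nat_lit 10) true (nat_lit 4) true (nat_lit 16) true (nat_lit 17) (.s false (nat_lit 1) (nat_lit 20) (nat_lit 2) (nat_lit 4) (nat_lit 3) true (nat_lit 8) true (nat_lit 15) true (nat_lit 4) true (nat_lit 16) true (nat_lit 14)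 (.s true (nat_lit 3) (nat_lit 20) (nat_lit 2) (nat_lit 9) (nat_lit 1) true (nat_lit 12) true (nat_lit 17) true (nat_lit 4) true (nat_lit 16) true (nat_lit 10) (.s false (nat_lit 3) (nat_lit 20) (nat_lit 3) (nat_lit 2) (nat_lit 4) true (nat_lit 3) true (nat_lit 14) true (nat_lit 4) true (nat_lit 15) true (nat_lit 16) (.s false (nat_lit 2) (nat_lit 20) (nat_lit 9) (nat_lit 1) (nat_lit 2) true (nat_lit 2) true (nat_lit 16) true (nat_lit 4) true (nat_lit 10) true (nat_lit 17) (.s true (nat_lit 3) (nat_lit 20) (nat_lit 8) (nat_lit 2) (nat_lit 1) true (nat_lit 3) true (nat_lit 17) true (nat_lit 4) true (nat_lit 10) true (nat_lit 16) dC2d_i297)))))))))))))))))))))))))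

noncomputable def dC2d_i299 : IL := (.s true (nat_lit 2) (nat_lit 8) (nat_lit 1) (nat_lit 7) (nat_lit 7) true (nat_lit 5) true (nat_lit 11) true (nat_lit 10) true (nat_lit 17) true (nat_lit 11) (.s false (nat_lit 2) (nat_lit 8) (nat_lit 2) (nat_lit 6) (nat_lit 7) true (nat_lit 4) true (nat_lit 11) true (nat_lit 10) true (nat_lit 16) true (nat_lit 12) (.s false (nat_lit 2) (nat_lit 9) (nat_lit 6) (nat_lit 2) (nat_lit 7) false (nat_lit 2) true (nat_lit 11) true (nat_lit 10) true (nat_lit 12) true (nat_lit 16) (.s false (nat_lit 2) (nat_lit 9) (nat_lit 6) (nat_lit 7) (nat_lit 2) true (nat_lit 5) true (nat_lit 16) true (nat_lit 10) true (nat_lit 12) true (nat_lit 11) (.s false (nat_lit 2) (nat_lit 9) (nat_lit 7) (nat_lit 1) (nat_lit 7) false (nat_lit 3) true (nat_lit 11) true (nat_lit 10) true (nat_lit 11) true (nat_lit 17) (.s true (nat_lit 2) (nat_lit 8) (nat_lit 7) (nat_lit 2) (nat_lit 6) false (nat_lit 2) true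 (nat_lit 12) true (nat_lit 10) true (nat_lit 11) true (nat_lit 16) (.s false (nat_lit 1) (nat_lit 8) (nat_lit 7) (nat_lit 7) (nat_lit 1) true (nat_lit 5) true (nat_lit 17) true (nat_lit 10) true (nat_lit 11) true (nat_lit 11) (.s false (nat_lit 2) (nat_lit 10) (nat_lit 5) (nat_lit 2) (nat_lit 7) false (nat_lit 1) true (nat_lit 11) true (nat_lit 9) true (nat_lit 13) true (nat_lit 16) (.s false (nat_lit 2) (nat_lit 10) (nat_lit 5) (nat_lit 7) (nat_lit 2) true (nat_lit 6) true (nat_lit 16) true (nat_lit 9) true (nat_lit 13) true (nat_lit 11) (.s true (nat_lit 1) (nat_lit 10) (nat_lit 7) (nat_lit 0) (nat_lit 7) false (nat_lit 3) true (nat_lit 11) true (nat_lit 9) true (nat_lit 11) true (nat_lit 18) (.s false (nat_lit 3) (nat_lit 11) (nat_lit 1) (nat_lit 7) (nat_lit 6) true (nat_lit 7) true (nat_lit 12) true (nat_lit 8) true (nat_lit 17) true (nat_lit 11) (.s true (nat_lit 2) (nat_lit 12) (nat_lit 2) (nat_lit 7) (nat_lit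 4) true (nat_lit 7) true (nat_lit 14) true (nat_lit 8) true (nat_lit 16) true (nat_lit 11) (.s false (nat_lit 2) (nat_lit 11) (nat_lit 6) (nat_lit 6) (nat_lit 2) true (nat_lit 5) true (nat_lit 16) true (nat_lit 8) true (nat_lit 12) true (nat_lit 12) (.s false (nat_lit 3) (nat_lit 12) (nat_lit 6) (nat_lit 6) (nat_lit 2) true (nat_lit 5) true (nat_lit 16) true (nat_lit 8) true (nat_lit 12) true (nat_lit 12) (.s true (nat_lit 1) (nat_lit 12) (nat_lit 6) (nat_lit 7) (nat_lit 1) true (nat_lit 7) true (nat_lit 17) true (nat_lit 8) true (nat_lit 12) true (nat_lit 11) (.s true (nat_lit 1) (nat_lit 14) (nat_lit 2) (nat_lit 2) (nat_lit 11) true (nat_lit 0) true (nat_lit 8) true (nat_lit 7) true (nat_lit 16) true (nat_lit 16) (.s false (nat_lit 3) (nat_lit 14) (nat_lit 2) (nat_lit 7) (nat_lit 3) true (nat_lit 8) true (nat_lit 15) true (nat_lit 7) true (nat_lit 16) true (nat_lit 11) (.s true (nat_lit 2) (nat_lit 15) (nat_lit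 2) (nat_lit 11) (nat_lit 2) true (nat_lit 11) true (nat_lit 16) true (nat_lit 7) true (nat_lit 16) true (nat_lit 8) (.s true (nat_lit 2) (nat_lit 15) (nat_lit 3) (nat_lit 2) (nat_lit 7) true (nat_lit 0) true (nat_lit 11) true (nat_lit 7) true (nat_lit 15) true (nat_lit 16) (.s true (nat_lit 2) (nat_lit 15) (nat_lit 7) (nat_lit 3) (nat_lit 2) true (nat_lit 4) true (nat_lit 16) true (nat_lit 7) true (nat_lit 11) true (nat_lit 15) (.s false (nat_lit 2) (nat_lit 16) (nat_lit 10) (nat_lit 2) (nat_lit 2) true (nat_lit 1) true (nat_lit 16) true (nat_lit 6) true (nat_lit 9) true (nat_lit 16) (.s true (nat_lit 1) (nat_lit 18) (nat_lit 0) (nat_lit 1) (nat_lit 18) true (nat_lit 0) true (nat_lit 5) true (nat_lit 5) true (nat_lit 18) true (nat_lit 17) (.s true (nat_lit 1) (nat_lit 18) (nat_lit 1) (nat_lit 0) (nat_lit 18) false (nat_lit 0) true (nat_lit 5) true (nat_lit 5) true (nat_lit 17) true (nat_lit 18) (.s true (nat_lit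 2) (nat_lit 18) (nat_lit 1) (nat_lit 2) (nat_lit 12) true (nat_lit 2) true (nat_lit 8) true (nat_lit 5) true (nat_lit 17) true (nat_lit 16) (.s false (nat_lit 1) (nat_lit 19) (nat_lit 1) (nat_lit 3) (nat_lit 7) true (nat_lit 5) true (nat_lit 11) true (nat_lit 5) true (nat_lit 17) true (nat_lit 15) dC2d_i298)))))))))))))))))))))))))

noncomputable def dC2d_i300 : IL := (.e false (nat_lit 2) (nat_lit 212) (nat_lit 2) (nat_lit 16) (.e true (nat_lit 2) (nat_lit 244) (nat_lit 2) (nat_lit 16) (.e false (nat_lit 1) (nat_lit 250) (nat_lit 2) (nat_lit 16) (.e true (nat_lit 3) (nat_lit 246) (nat_lit 2) (nat_lit 16) (.e false (nat_lit 2) (nat_lit 155) (nat_lit 6) (nat_lit 12) (.e false (nat_lit 2) (nat_lit 256) (nat_lit 1) (nat_lit 17) (.e true (nat_lit 3) (nat_lit 261) (nat_lit 1) (nat_lit 17) (.e false (nat_lit 3) (nat_lit 257) (nat_lit 1) (nat_lit 17) (.e false (nat_lit 2) (nat_lit 259) (nat_lit 1) (nat_lit 17) (.e true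 (nat_lit 2) (nat_lit 260) (nat_lit 1) (nat_lit 17) (.e true (nat_lit 1) (nat_lit 62) (nat_lit 18) (nat_lit 5) (.e false (nat_lit 1) (nat_lit 280) (nat_lit 1) (nat_lit 17) (.e false (nat_lit 2) (nat_lit 289) (nat_lit 0) (nat_lit 18) (.e true (nat_lit 1) (nat_lit 290) (nat_lit 0) (nat_lit 18) (.e true (nat_lit 2) (nat_lit 291) (nat_lit 0) (nat_lit 18) (.e true (nat_lit 3) (nat_lit 292) (nat_lit 0) (nat_lit 18) (.e false (nat_lit 2) (nat_lit 299) (nat_lit 0) (nat_lit 18) (.e false (nat_lit 3) (nat_lit 301) (nat_lit 0) (nat_lit 18) (.e true (nat_lit 2) (nat_lit 282) (nat_lit 1) (nat_lit 17) (.e true (nat_lit 1) (nat_lit 300) (nat_lit 0) (nat_lit 18) (.e true (nat_lit 2) (nat_lit 294) (nat_lit 0) (nat_lit 18) (.e false (nat_lit 3) (nat_lit 298) (nat_lit 0) (nat_lit 18) (.u (nat_lit 2) (.n (nat_lit 1) (nat_lit 1) (.p (nat_lit 2) (nat_lit 3) (.n (nat_lit 3) (nat_lit 8) (.p (nat_lit 4) (nat_lit 2) (.p (nat_lit 5) (nat_lit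 2) (.p (nat_lit 7) (nat_lit 2) (.n (nat_lit 8) (nat_lit 3) (.p (nat_lit 9) (nat_lit 2) (.n (nat_lit 10) (nat_lit 2) (.n (nat_lit 11) (nat_lit 4) (.n (nat_lit 12) (nat_lit 2) (.p (nat_lit 14) (nat_lit 2) (.p (nat_lit 15) (nat_lit 4) (.p (nat_lit 16) (nat_lit 2) (.p (nat_lit 17) (nat_lit 3) (.n (nat_lit 18) (nat_lit 1) (.n (nat_lit 20) (nat_lit 1) (.p (nat_lit 21) (nat_lit 3) (.n (nat_lit 22) (nat_lit 3) (.n (nat_lit 23) (nat_lit 5) (.n (nat_lit 24) (nat_lit 2) (.n (nat_lit 25) (nat_lit 4) (.p (nat_lit 26) (nat_lit 1) (.n (nat_lit 27) (nat_lit 3) (.p (nat_lit 29) (nat_lit 1) (.n (nat_lit 31) (nat_lit 1) (.p (nat_lit 32) (nat_lit 2) (.p (nat_lit 33) (nat_lit 2) (.p (nat_lit 34) (nat_lit 2) (.n (nat_lit 35) (nat_lit 1) (.n (nat_lit 36) (nat_lit 2) (.p (nat_lit 37) (nat_lit 1) (.n (nat_lit 38) (nat_lit 2) (.p (nat_lit 40) (nat_lit 3) (.p (nat_lit 45) (nat_lit 1) (.n (nat_lit 48) (nat_lit 3) (.p (nat_lit 50) (nat_lit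 1) (.n (nat_lit 51) (nat_lit 1) (.p (nat_lit 62) (nat_lit 1) (.n (nat_lit 63) (nat_lit 2) (.p (nat_lit 64) (nat_lit 1) (.p (nat_lit 89) (nat_lit 1) (.n (nat_lit 90) (nat_lit 2) (.p (nat_lit 91) (nat_lit 1) (.n (nat_lit 95) (nat_lit 1) (.n (nat_lit 97) (nat_lit 1) (.p (nat_lit 99) (nat_lit 1) (.n (nat_lit 100) (nat_lit 1) (.n (nat_lit 105) (nat_lit 1) (.p (nat_lit 106) (nat_lit 1) (.p (nat_lit 110) (nat_lit 1) (.n (nat_lit 114) (nat_lit 1) (.p (nat_lit 116) (nat_lit 1) (.n (nat_lit 118) (nat_lit 1) (.p (nat_lit 127) (nat_lit 1) (.p (nat_lit 133) (nat_lit 1) (.n (nat_lit 147) (nat_lit 1) (.n (nat_lit 183) (nat_lit 1) (.p (nat_lit 184) (nat_lit 2) (.n (nat_lit 186) (nat_lit 1) .z)))))))))))))))))))))))))))))))))))))))))))))))))))))))))))) (.u (nat_lit 2) (.n (nat_lit 187) (nat_lit 1) (.p (nat_lit 188) (nat_lit 2) (.p (nat_lit 196) (nat_lit 1) (.n (nat_lit 197) (nat_lit 1) (.p (nat_lit 208) (nat_lit 1) (.n (nat_lit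 210) (nat_lit 1) (.p (nat_lit 211) (nat_lit 1) (.n (nat_lit 213) (nat_lit 1) (.p (nat_lit 214) (nat_lit 4) (.p (nat_lit 215) (nat_lit 4) (.p (nat_lit 216) (nat_lit 2) (.n (nat_lit 217) (nat_lit 1) (.p (nat_lit 219) (nat_lit 2) (.n (nat_lit 221) (nat_lit 2) (.p (nat_lit 223) (nat_lit 3) (.n (nat_lit 224) (nat_lit 4) (.p (nat_lit 225) (nat_lit 2) (.n (nat_lit 226) (nat_lit 3) (.n (nat_lit 229) (nat_lit 4) (.p (nat_lit 230) (nat_lit 3) (.n (nat_lit 233) (nat_lit 1) (.p (nat_lit 234) (nat_lit 4) (.p (nat_lit 236) (nat_lit 1) (.n (nat_lit 238) (nat_lit 1) (.n (nat_lit 239) (nat_lit 1) (.n (nat_lit 240) (nat_lit 1) (.p (nat_lit 241) (nat_lit 1) (.p (nat_lit 242) (nat_lit 1) (.n (nat_lit 244) (nat_lit 1) (.n (nat_lit 245) (nat_lit 1) (.p (nat_lit 246) (nat_lit 1) (.n (nat_lit 254) (nat_lit 1) (.p (nat_lit 261) (nat_lit 1) (.n (nat_lit 271) (nat_lit 1) (.p (nat_lit 272) (nat_lit 1) (.p (nat_lit 284) (nat_lit 1) (.p (nat_lit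 297) (nat_lit 1) (.n (nat_lit 300) (nat_lit 1) (.p (nat_lit 302) (nat_lit 9) (.p (nat_lit 303) (nat_lit 9) (.p (nat_lit 305) (nat_lit 2) (.p (nat_lit 306) (nat_lit 6) (.n (nat_lit 307) (nat_lit 5) (.n (nat_lit 308) (nat_lit 1) (.p (nat_lit 309) (nat_lit 2) (.p (nat_lit 310) (nat_lit 10) (.p (nat_lit 311) (nat_lit 1) (.n (nat_lit 312) (nat_lit 6) (.n (nat_lit 313) (nat_lit 6) (.n (nat_lit 314) (nat_lit 6) (.p (nat_lit 315) (nat_lit 1) (.p (nat_lit 317) (nat_lit 4) (.p (nat_lit 318) (nat_lit 7) (.n (nat_lit 319) (nat_lit 4) (.p (nat_lit 322) (nat_lit 11) (.p (nat_lit 323) (nat_lit 6) (.p (nat_lit 324) (nat_lit 5) (.n (nat_lit 325) (nat_lit 5) (.n (nat_lit 326) (nat_lit 7) (.p (nat_lit 327) (nat_lit 4) .z)))))))))))))))))))))))))))))))))))))))))))))))))))))))))))) (.u (nat_lit 2) (.n (nat_lit 328) (nat_lit 4) (.n (nat_lit 329) (nat_lit 1) (.n (nat_lit 331) (nat_lit 4) (.p (nat_lit 332) (nat_lit 3) (.n (nat_lit 333)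 (nat_lit 1) (.n (nat_lit 335) (nat_lit 3) (.p (nat_lit 336) (nat_lit 2) (.p (nat_lit 340) (nat_lit 7) (.n (nat_lit 341) (nat_lit 3) (.n (nat_lit 342) (nat_lit 3) (.n (nat_lit 343) (nat_lit 3) (.n (nat_lit 344) (nat_lit 4) (.n (nat_lit 345) (nat_lit 8) (.n (nat_lit 346) (nat_lit 3) (.n (nat_lit 347) (nat_lit 3) (.n (nat_lit 348) (nat_lit 2) (.p (nat_lit 349) (nat_lit 2) (.p (nat_lit 350) (nat_lit 5) (.n (nat_lit 351) (nat_lit 8) (.p (nat_lit 352) (nat_lit 10) (.n (nat_lit 354) (nat_lit 12) (.p (nat_lit 355) (nat_lit 9) (.p (nat_lit 356) (nat_lit 9) (.n (nat_lit 357) (nat_lit 13) (.p (nat_lit 358) (nat_lit 4) (.p (nat_lit 359) (nat_lit 6) (.n (nat_lit 360) (nat_lit 9) (.p (nat_lit 361) (nat_lit 1) (.n (nat_lit 362) (nat_lit 6) (.p (nat_lit 363) (nat_lit 4) (.p (nat_lit 364) (nat_lit 2) (.p (nat_lit 366) (nat_lit 5) (.p (nat_lit 367) (nat_lit 3) (.p (nat_lit 368) (nat_lit 7) (.p (nat_lit 369) (nat_lit 9) (.p (nat_lit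 370) (nat_lit 10) (.n (nat_lit 371) (nat_lit 8) (.n (nat_lit 372) (nat_lit 4) (.n (nat_lit 373) (nat_lit 8) (.n (nat_lit 374) (nat_lit 2) (.n (nat_lit 376) (nat_lit 2) (.n (nat_lit 377) (nat_lit 1) (.p (nat_lit 379) (nat_lit 4) (.p (nat_lit 380) (nat_lit 2) (.p (nat_lit 381) (nat_lit 1) (.p (nat_lit 382) (nat_lit 3) (.n (nat_lit 385) (nat_lit 2) (.p (nat_lit 386) (nat_lit 3) (.n (nat_lit 389) (nat_lit 3) (.n (nat_lit 390) (nat_lit 2) (.p (nat_lit 391) (nat_lit 1) (.n (nat_lit 394) (nat_lit 1) (.p (nat_lit 395) (nat_lit 2) (.n (nat_lit 397) (nat_lit 2) (.p (nat_lit 398) (nat_lit 2) .z))))))))))))))))))))))))))))))))))))))))))))))))))))))) .nil)))))))))))))))))))))))))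

noncomputable def dC2d_i301 : IL := (.e true (nat_lit 1) (nat_lit 272) (nat_lit 1) (nat_lit 17) (.e false (nat_lit 2) (nat_lit 273) (nat_lit 1) (nat_lit 17) (.e true (nat_lit 3) (nat_lit 276) (nat_lit 1) (nat_lit 17) (.e true (nat_lit 1) (nat_lit 277) (nat_lit 1) (nat_lit 17) (.e true (nat_lit 2) (nat_lit 255) (nat_lit 1) (nat_lit 17) (.e true (nat_lit 1) (nat_lit 262) (nat_lit 1) (nat_lit 17) (.e true (nat_lit 3) (nat_lit 264) (nat_lit 1) (nat_lit 17) (.e true (nat_lit 1) (nat_lit 266) (nat_lit 1) (nat_lit 17) (.e false (nat_lit 2) (nat_lit 274) (nat_lit 1) (nat_lit 17) (.e false (nat_lit 1) (nat_lit 278) (nat_lit 1) (nat_lit 17) (.e true (nat_lit 3) (nat_lit 206) (nat_lit 2) (nat_lit 16) (.e false (nat_lit 2) (nat_lit 207) (nat_lit 2) (nat_lit 16) (.e true (nat_lit 1) (nat_lit 209) (nat_lit 2) (nat_lit 16) (.e true (nat_lit 2) (nat_lit 210) (nat_lit 2) (nat_lit 16) (.e false (nat_lit 3) (nat_lit 219) (nat_lit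 2) (nat_lit 16) (.e true (nat_lit 3) (nat_lit 220) (nat_lit 2) (nat_lit 16) (.e true (nat_lit 3) (nat_lit 226) (nat_lit 2) (nat_lit 16) (.e true (nat_lit 1) (nat_lit 229) (nat_lit 2) (nat_lit 16) (.e true (nat_lit 2) (nat_lit 230) (nat_lit 2) (nat_lit 16) (.e false (nat_lit 2) (nat_lit 231) (nat_lit 2) (nat_lit 16) (.e false (nat_lit 2) (nat_lit 233) (nat_lit 2) (nat_lit 16) (.e true (nat_lit 3) (nat_lit 235) (nat_lit 2) (nat_lit 16) (.e false (nat_lit 3) (nat_lit 138) (nat_lit 6) (nat_lit 12) (.e true (nat_lit 2) (nat_lit 134) (nat_lit 6) (nat_lit 12) (.e false (nat_lit 3) (nat_lit 211) (nat_lit 2) (nat_lit 16) dC2d_i300)))))))))))))))))))))))))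

noncomputable def dC2d_i302 : IL := (.s true (nat_lit 1) (nat_lit 92) (nat_lit 0) (nat_lit 1) (nat_lit 2) true (nat_lit 13) true (nat_lit 16) false (nat_lit 8) true (nat_lit 18) true (nat_lit 17) (.s true (nat_lit 1) (nat_lit 92) (nat_lit 1) (nat_lit 2) (nat_lit 0) true (nat_lit 15) true (nat_lit 18) false (nat_lit 8) true (nat_lit 17) true (nat_lit 16) (.s true (nat_lit 2) (nat_lit 92) (nat_lit 2) (nat_lit 1) (nat_lit 0) true (nat_lit 13) true (nat_lit 18) false (nat_lit 8) true (nat_lit 16) true (nat_lit 17) (.s false (nat_lit 3) (nat_lit 93) (nat_lit 2) (nat_lit 1) (nat_lit 0) true (nat_lit 13) true (nat_lit 18) false (nat_lit 8) true (nat_lit 16) true (nat_lit 17) (.s false (nat_lit 2) (nat_lit 96) (nat_lit 2) (nat_lit 1) (nat_lit 0) true (nat_lit 13) true (nat_lit 18) false (nat_lit 8) true (nat_lit 16) true (nat_lit 17) (.s false (nat_lit 3) (nat_lit 101) (nat_lit 0) (nat_lit 1) (nat_lit 1) true (nat_lit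 15) true (nat_lit 17) false (nat_lit 10) true (nat_lit 18) true (nat_lit 17) (.s true (nat_lit 1) (nat_lit 102) (nat_lit 0) (nat_lit 1) (nat_lit 1) true (nat_lit 15) true (nat_lit 17) false (nat_lit 10) true (nat_lit 18) true (nat_lit 17) (.s true (nat_lit 1) (nat_lit 103) (nat_lit 0) (nat_lit 1) (nat_lit 1) true (nat_lit 15) true (nat_lit 17) false (nat_lit 10) true (nat_lit 18) true (nat_lit 17) (.s false (nat_lit 2) (nat_lit 104) (nat_lit 0) (nat_lit 1) (nat_lit 1) true (nat_lit 15) true (nat_lit 17) false (nat_lit 10) true (nat_lit 18) true (nat_lit 17) (.s false (nat_lit 3) (nat_lit 102) (nat_lit 1) (nat_lit 1) (nat_lit 0) true (nat_lit 15) true (nat_lit 18) false (nat_lit 10) true (nat_lit 17) true (nat_lit 17) (.s true (nat_lit 3) (nat_lit 103) (nat_lit 1) (nat_lit 1) (nat_lit 0) true (nat_lit 15) true (nat_lit 18) false (nat_lit 10) true (nat_lit 17) true (nat_lit 17) (.e false (nat_lit 2) (nat_lit 129)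 (nat_lit 7) (nat_lit 11) (.e true (nat_lit 3) (nat_lit 227) (nat_lit 2) (nat_lit 16) (.e true (nat_lit 2) (nat_lit 242) (nat_lit 2) (nat_lit 16) (.e false (nat_lit 1) (nat_lit 208) (nat_lit 2) (nat_lit 16) (.e false (nat_lit 3) (nat_lit 216) (nat_lit 2) (nat_lit 16) (.e false (nat_lit 1) (nat_lit 144) (nat_lit 6) (nat_lit 12) (.e true (nat_lit 2) (nat_lit 205) (nat_lit 2) (nat_lit 16) (.e true (nat_lit 3) (nat_lit 285) (nat_lit 1) (nat_lit 17) (.e true (nat_lit 2) (nat_lit 252) (nat_lit 1) (nat_lit 17) (.e false (nat_lit 2) (nat_lit 253) (nat_lit 1) (nat_lit 17) (.e false (nat_lit 3) (nat_lit 254) (nat_lit 1) (nat_lit 17) (.e false (nat_lit 2) (nat_lit 263) (nat_lit 1) (nat_lit 17) (.e false (nat_lit 3) (nat_lit 269) (nat_lit 1) (nat_lit 17) (.e false (nat_lit 3) (nat_lit 271) (nat_lit 1) (nat_lit 17) dC2d_i301)))))))))))))))))))))))))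

noncomputable def dC2d_i303 : IL := (.s true (nat_lit 1) (nat_lit 65) (nat_lit 1) (nat_lit 2) (nat_lit 2) true (nat_lit 12) true (nat_lit 16) false (nat_lit 5) true (nat_lit 17) true (nat_lit 16) (.s true (nat_lit 3) (nat_lit 66) (nat_lit 1) (nat_lit 2) (nat_lit 2) true (nat_lit 12) true (nat_lit 16) false (nat_lit 5) true (nat_lit 17) true (nat_lit 16) (.s false (nat_lit 3) (nat_lit 67) (nat_lit 1) (nat_lit 2) (nat_lit 2) true (nat_lit 12) true (nat_lit 16) false (nat_lit 5) true (nat_lit 17) true (nat_lit 16) (.s false (nat_lit 2) (nat_lit 68) (nat_lit 1) (nat_lit 2) (nat_lit 2) true (nat_lit 12) true (nat_lit 16) false (nat_lit 5) true (nat_lit 17) true (nat_lit 16) (.s false (nat_lit 2) (nat_lit 72) (nat_lit 1) (nat_lit 2) (nat_lit 2) true (nat_lit 12) true (nat_lit 16) false (nat_lit 5) true (nat_lit 17) true (nat_lit 16) (.s false (nat_lit 3) (nat_lit 73) (nat_lit 1) (nat_lit 2) (nat_lit 2) true (nat_lit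 12) true (nat_lit 16) false (nat_lit 5) true (nat_lit 17) true (nat_lit 16) (.s true (nat_lit 1) (nat_lit 61) (nat_lit 2) (nat_lit 1) (nat_lit 2) true (nat_lit 11) true (nat_lit 16) false (nat_lit 5) true (nat_lit 16) true (nat_lit 17) (.s false (nat_lit 2) (nat_lit 62) (nat_lit 2) (nat_lit 1) (nat_lit 2) true (nat_lit 11) true (nat_lit 16) false (nat_lit 5) true (nat_lit 16) true (nat_lit 17) (.s true (nat_lit 3) (nat_lit 66) (nat_lit 2) (nat_lit 1) (nat_lit 2) true (nat_lit 11) true (nat_lit 16) false (nat_lit 5) true (nat_lit 16) true (nat_lit 17) (.s true (nat_lit 3) (nat_lit 72) (nat_lit 2) (nat_lit 1) (nat_lit 2) true (nat_lit 11) true (nat_lit 16) false (nat_lit 5) true (nat_lit 16) true (nat_lit 17) (.s true (nat_lit 2) (nat_lit 73) (nat_lit 2) (nat_lit 1) (nat_lit 2) true (nat_lit 11) true (nat_lit 16) false (nat_lit 5) true (nat_lit 16) true (nat_lit 17) (.s false (nat_lit 1) (nat_lit 60) (nat_lit 2)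 (nat_lit 2) (nat_lit 1) true (nat_lit 12) true (nat_lit 17) false (nat_lit 5) true (nat_lit 16) true (nat_lit 16) (.s true (nat_lit 1) (nat_lit 61) (nat_lit 2) (nat_lit 2) (nat_lit 1) true (nat_lit 12) true (nat_lit 17) false (nat_lit 5) true (nat_lit 16) true (nat_lit 16) (.s false (nat_lit 1) (nat_lit 62) (nat_lit 2) (nat_lit 2) (nat_lit 1) true (nat_lit 12) true (nat_lit 17) false (nat_lit 5) true (nat_lit 16) true (nat_lit 16) (.s false (nat_lit 2) (nat_lit 72) (nat_lit 2) (nat_lit 2) (nat_lit 1) true (nat_lit 12) true (nat_lit 17) false (nat_lit 5) true (nat_lit 16) true (nat_lit 16) (.s true (nat_lit 1) (nat_lit 80) (nat_lit 1) (nat_lit 1) (nat_lit 2) true (nat_lit 12) true (nat_lit 16) false (nat_lit 7) true (nat_lit 17) true (nat_lit 17) (.s false (nat_lit 1) (nat_lit 81) (nat_lit 1) (nat_lit 1) (nat_lit 2) true (nat_lit 12) true (nat_lit 16) false (nat_lit 7) true (nat_lit 17) true (nat_lit 17) (.s true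 (nat_lit 1) (nat_lit 88) (nat_lit 1) (nat_lit 1) (nat_lit 2) true (nat_lit 12) true (nat_lit 16) false (nat_lit 7) true (nat_lit 17) true (nat_lit 17) (.s false (nat_lit 3) (nat_lit 80) (nat_lit 1) (nat_lit 2) (nat_lit 1) true (nat_lit 14) true (nat_lit 17) false (nat_lit 7) true (nat_lit 17) true (nat_lit 16) (.s false (nat_lit 1) (nat_lit 82) (nat_lit 1) (nat_lit 2) (nat_lit 1) true (nat_lit 14) true (nat_lit 17) false (nat_lit 7) true (nat_lit 17) true (nat_lit 16) (.s false (nat_lit 1) (nat_lit 83) (nat_lit 1) (nat_lit 2) (nat_lit 1) true (nat_lit 14) true (nat_lit 17) false (nat_lit 7) true (nat_lit 17) true (nat_lit 16) (.s false (nat_lit 1) (nat_lit 85) (nat_lit 1) (nat_lit 2) (nat_lit 1) true (nat_lit 14) true (nat_lit 17) false (nat_lit 7) true (nat_lit 17) true (nat_lit 16) (.s false (nat_lit 1) (nat_lit 88) (nat_lit 1) (nat_lit 2) (nat_lit 1) true (nat_lit 14) true (nat_lit 17) false (nat_lit 7) true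 (nat_lit 17) true (nat_lit 16) (.s true (nat_lit 1) (nat_lit 81) (nat_lit 2) (nat_lit 1) (nat_lit 1) true (nat_lit 12) true (nat_lit 17) false (nat_lit 7) true (nat_lit 16) true (nat_lit 17) (.s false (nat_lit 2) (nat_lit 88) (nat_lit 2) (nat_lit 1) (nat_lit 1) true (nat_lit 12) true (nat_lit 17) false (nat_lit 7) true (nat_lit 16) true (nat_lit 17) dC2d_i302)))))))))))))))))))))))))

noncomputable def dC2d_i304 : IL := (.s false (nat_lit 2) (nat_lit 33) (nat_lit 1) (nat_lit 7) (nat_lit 1) true (nat_lit 14) true (nat_lit 17) true (nat_lit 0) true (nat_lit 17) true (nat_lit 11) (.s true (nat_lit 3) (nat_lit 34) (nat_lit 2) (nat_lit 1) (nat_lit 6) true (nat_lit 5) true (nat_lit 12) true (nat_lit 0) true (nat_lit 16) true (nat_lit 17) (.s true (nat_lit 2) (nat_lit 33) (nat_lit 2) (nat_lit 2) (nat_lit 4) true (nat_lit 7) true (nat_lit 14) true (nat_lit 0) true (nat_lit 16) true (nat_lit 16) (.s true (nat_lit 1) (nat_lit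 35) (nat_lit 2) (nat_lit 2) (nat_lit 4) true (nat_lit 7) true (nat_lit 14) true (nat_lit 0) true (nat_lit 16) true (nat_lit 16) (.s true (nat_lit 1) (nat_lit 36) (nat_lit 2) (nat_lit 2) (nat_lit 4) true (nat_lit 7) true (nat_lit 14) true (nat_lit 0) true (nat_lit 16) true (nat_lit 16) (.s true (nat_lit 1) (nat_lit 38) (nat_lit 2) (nat_lit 2) (nat_lit 4) true (nat_lit 7) true (nat_lit 14) true (nat_lit 0) true (nat_lit 16) true (nat_lit 16) (.s true (nat_lit 1) (nat_lit 33) (nat_lit 2) (nat_lit 4) (nat_lit 2) true (nat_lit 11) true (nat_lit 16) true (nat_lit 0) true (nat_lit 16) true (nat_lit 14) (.s false (nat_lit 3) (nat_lit 34) (nat_lit 2) (nat_lit 6) (nat_lit 1) true (nat_lit 12) true (nat_lit 17) true (nat_lit 0) true (nat_lit 16) true (nat_lit 12) (.s true (nat_lit 2) (nat_lit 33) (nat_lit 4) (nat_lit 2) (nat_lit 2) true (nat_lit 7) true (nat_lit 16) true (nat_lit 0) true (nat_lit 14) true (nat_lit 16) (.s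 false (nat_lit 1) (nat_lit 34) (nat_lit 6) (nat_lit 2) (nat_lit 1) true (nat_lit 7) true (nat_lit 17) true (nat_lit 0) true (nat_lit 12) true (nat_lit 16) (.s true (nat_lit 1) (nat_lit 40) (nat_lit 2) (nat_lit 3) (nat_lit 2) true (nat_lit 11) true (nat_lit 16) false (nat_lit 0) true (nat_lit 16) true (nat_lit 15) (.s true (nat_lit 1) (nat_lit 39) (nat_lit 3) (nat_lit 2) (nat_lit 2) true (nat_lit 8) true (nat_lit 16) false (nat_lit 0) true (nat_lit 15) true (nat_lit 16) (.s false (nat_lit 2) (nat_lit 46) (nat_lit 1) (nat_lit 3) (nat_lit 2) true (nat_lit 12) true (nat_lit 16) false (nat_lit 2) true (nat_lit 17) true (nat_lit 15) (.s false (nat_lit 1) (nat_lit 47) (nat_lit 1) (nat_lit 3) (nat_lit 2) true (nat_lit 12) true (nat_lit 16) false (nat_lit 2) true (nat_lit 17) true (nat_lit 15) (.s true (nat_lit 3) (nat_lit 45) (nat_lit 2) (nat_lit 1) (nat_lit 3) true (nat_lit 8) true (nat_lit 15) false (nat_lit 2) true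 (nat_lit 16) true (nat_lit 17) (.s true (nat_lit 2) (nat_lit 48) (nat_lit 1) (nat_lit 1) (nat_lit 3) true (nat_lit 10) true (nat_lit 15) false (nat_lit 3) true (nat_lit 17) true (nat_lit 17) (.s true (nat_lit 3) (nat_lit 52) (nat_lit 2) (nat_lit 2) (nat_lit 2) true (nat_lit 11) true (nat_lit 16) false (nat_lit 4) true (nat_lit 16) true (nat_lit 16) (.s false (nat_lit 2) (nat_lit 53) (nat_lit 2) (nat_lit 2) (nat_lit 2) true (nat_lit 11) true (nat_lit 16) false (nat_lit 4) true (nat_lit 16) true (nat_lit 16) (.s true (nat_lit 3) (nat_lit 54) (nat_lit 2) (nat_lit 2) (nat_lit 2) true (nat_lit 11) true (nat_lit 16) false (nat_lit 4) true (nat_lit 16) true (nat_lit 16) (.s false (nat_lit 1) (nat_lit 55) (nat_lit 2) (nat_lit 2) (nat_lit 2) true (nat_lit 11) true (nat_lit 16) false (nat_lit 4) true (nat_lit 16) true (nat_lit 16) (.s true (nat_lit 1) (nat_lit 57) (nat_lit 2) (nat_lit 2) (nat_lit 2) true (nat_lit 11) true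 (nat_lit 16) false (nat_lit 4) true (nat_lit 16) true (nat_lit 16) (.s true (nat_lit 1) (nat_lit 59) (nat_lit 2) (nat_lit 2) (nat_lit 2) true (nat_lit 11) true (nat_lit 16) false (nat_lit 4) true (nat_lit 16) true (nat_lit 16) (.s true (nat_lit 1) (nat_lit 60) (nat_lit 1) (nat_lit 2) (nat_lit 2) true (nat_lit 12) true (nat_lit 16) false (nat_lit 5) true (nat_lit 17) true (nat_lit 16) (.s true (nat_lit 1) (nat_lit 61) (nat_lit 1) (nat_lit 2) (nat_lit 2) true (nat_lit 12) true (nat_lit 16) false (nat_lit 5) true (nat_lit 17) true (nat_lit 16) (.s false (nat_lit 3) (nat_lit 63) (nat_lit 1) (nat_lit 2) (nat_lit 2) true (nat_lit 12) true (nat_lit 16) false (nat_lit 5) true (nat_lit 17) true (nat_lit 16) dC2d_i303)))))))))))))))))))))))))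

noncomputable def dC2d_i305 : IL := (.s true (nat_lit 2) (nat_lit 27) (nat_lit 1) (nat_lit 2) (nat_lit 7) true (nat_lit 5) true (nat_lit 11) true (nat_lit 2) true (nat_lit 17) true (nat_lit 16) (.s false (nat_lit 2) (nat_lit 29) (nat_lit 1) (nat_lit 2) (nat_lit 7) true (nat_lit 5) true (nat_lit 11) true (nat_lit 2) true (nat_lit 17) true (nat_lit 16) (.s false (nat_lit 2) (nat_lit 24) (nat_lit 1) (nat_lit 7) (nat_lit 2) true (nat_lit 12) true (nat_lit 16) true (nat_lit 2) true (nat_lit 17) true (nat_lit 11) (.s false (nat_lit 3) (nat_lit 25) (nat_lit 1) (nat_lit 7) (nat_lit 2) true (nat_lit 12) true (nat_lit 16) true (nat_lit 2) true (nat_lit 17) true (nat_lit 11) (.s true (nat_lit 1) (nat_lit 26) (nat_lit 1) (nat_lit 7) (nat_lit 2) true (nat_lit 12) true (nat_lit 16) true (nat_lit 2) true (nat_lit 17) true (nat_lit 11) (.s false (nat_lit 3) (nat_lit 24) (nat_lit 2) (nat_lit 1) (nat_lit 7) true (nat_lit 4) true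 (nat_lit 11) true (nat_lit 2) true (nat_lit 16) true (nat_lit 17) (.s true (nat_lit 3) (nat_lit 27) (nat_lit 2) (nat_lit 1) (nat_lit 7) true (nat_lit 4) true (nat_lit 11) true (nat_lit 2) true (nat_lit 16) true (nat_lit 17) (.s false (nat_lit 3) (nat_lit 29) (nat_lit 2) (nat_lit 1) (nat_lit 7) true (nat_lit 4) true (nat_lit 11) true (nat_lit 2) true (nat_lit 16) true (nat_lit 17) (.s true (nat_lit 3) (nat_lit 24) (nat_lit 2) (nat_lit 2) (nat_lit 6) true (nat_lit 5) true (nat_lit 12) true (nat_lit 2) true (nat_lit 16) true (nat_lit 16) (.s false (nat_lit 2) (nat_lit 27) (nat_lit 2) (nat_lit 2) (nat_lit 6) true (nat_lit 5) true (nat_lit 12) true (nat_lit 2) true (nat_lit 16) true (nat_lit 16) (.s true (nat_lit 2) (nat_lit 29) (nat_lit 2) (nat_lit 2) (nat_lit 6) true (nat_lit 5) true (nat_lit 12) true (nat_lit 2) true (nat_lit 16) true (nat_lit 16) (.s true (nat_lit 3) (nat_lit 25) (nat_lit 2) (nat_lit 6) (nat_lit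 2) true (nat_lit 11) true (nat_lit 16) true (nat_lit 2) true (nat_lit 16) true (nat_lit 12) (.s false (nat_lit 3) (nat_lit 26) (nat_lit 2) (nat_lit 6) (nat_lit 2) true (nat_lit 11) true (nat_lit 16) true (nat_lit 2) true (nat_lit 16) true (nat_lit 12) (.s false (nat_lit 1) (nat_lit 24) (nat_lit 6) (nat_lit 2) (nat_lit 2) true (nat_lit 5) true (nat_lit 16) true (nat_lit 2) true (nat_lit 12) true (nat_lit 16) (.s true (nat_lit 1) (nat_lit 26) (nat_lit 6) (nat_lit 2) (nat_lit 2) true (nat_lit 5) true (nat_lit 16) true (nat_lit 2) true (nat_lit 12) true (nat_lit 16) (.s true (nat_lit 3) (nat_lit 27) (nat_lit 6) (nat_lit 2) (nat_lit 2) true (nat_lit 5) true (nat_lit 16) true (nat_lit 2) true (nat_lit 12) true (nat_lit 16) (.s false (nat_lit 3) (nat_lit 29) (nat_lit 6) (nat_lit 2) (nat_lit 2) true (nat_lit 5) true (nat_lit 16) true (nat_lit 2) true (nat_lit 12) true (nat_lit 16) (.s false (nat_lit 2) (nat_lit 25) (nat_lit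 7) (nat_lit 1) (nat_lit 2) true (nat_lit 4) true (nat_lit 16) true (nat_lit 2) true (nat_lit 11) true (nat_lit 17) (.s false (nat_lit 2) (nat_lit 25) (nat_lit 7) (nat_lit 2) (nat_lit 1) true (nat_lit 5) true (nat_lit 17) true (nat_lit 2) true (nat_lit 11) true (nat_lit 16) (.s false (nat_lit 3) (nat_lit 33) (nat_lit 1) (nat_lit 1) (nat_lit 7) true (nat_lit 5) true (nat_lit 11) true (nat_lit 0) true (nat_lit 17) true (nat_lit 17) (.s true (nat_lit 1) (nat_lit 33) (nat_lit 1) (nat_lit 2) (nat_lit 6) true (nat_lit 7) true (nat_lit 12) true (nat_lit 0) true (nat_lit 17) true (nat_lit 16) (.s true (nat_lit 1) (nat_lit 35) (nat_lit 1) (nat_lit 2) (nat_lit 6) true (nat_lit 7) true (nat_lit 12) true (nat_lit 0) true (nat_lit 17) true (nat_lit 16) (.s true (nat_lit 1) (nat_lit 36) (nat_lit 1) (nat_lit 2) (nat_lit 6) true (nat_lit 7) true (nat_lit 12) true (nat_lit 0) true (nat_lit 17) true (nat_lit 16) (.s true (nat_lit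 1) (nat_lit 38) (nat_lit 1) (nat_lit 2) (nat_lit 6) true (nat_lit 7) true (nat_lit 12) true (nat_lit 0) true (nat_lit 17) true (nat_lit 16) (.s true (nat_lit 2) (nat_lit 34) (nat_lit 1) (nat_lit 6) (nat_lit 2) true (nat_lit 12) true (nat_lit 16) true (nat_lit 0) true (nat_lit 17) true (nat_lit 12) dC2d_i304)))))))))))))))))))))))))

noncomputable def dC2d_i306 : IL := (.s false (nat_lit 2) (nat_lit 15) (nat_lit 11) (nat_lit 2) (nat_lit 2) true (nat_lit 0) true (nat_lit 16) true (nat_lit 7) true (nat_lit 8) true (nat_lit 16) (.s false (nat_lit 2) (nat_lit 18) (nat_lit 1) (nat_lit 3) (nat_lit 7) true (nat_lit 5) true (nat_lit 11) true (nat_lit 5) true (nat_lit 17) true (nat_lit 15) (.s true (nat_lit 3) (nat_lit 18) (nat_lit 2) (nat_lit 2) (nat_lit 8) true (nat_lit 2) true (nat_lit 10) true (nat_lit 5) true (nat_lit 16) true (nat_lit 16) (.s false (nat_lit 2) (nat_lit 19) (nat_lit 2) (nat_lit 2) (nat_lit 8) true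 (nat_lit 2) true (nat_lit 10) true (nat_lit 5) true (nat_lit 16) true (nat_lit 16) (.s true (nat_lit 3) (nat_lit 18) (nat_lit 2) (nat_lit 11) (nat_lit 1) true (nat_lit 12) true (nat_lit 17) true (nat_lit 5) true (nat_lit 16) true (nat_lit 8) (.s true (nat_lit 3) (nat_lit 18) (nat_lit 8) (nat_lit 2) (nat_lit 2) true (nat_lit 2) true (nat_lit 16) true (nat_lit 5) true (nat_lit 10) true (nat_lit 16) (.s true (nat_lit 1) (nat_lit 19) (nat_lit 9) (nat_lit 2) (nat_lit 2) true (nat_lit 2) true (nat_lit 16) true (nat_lit 5) true (nat_lit 10) true (nat_lit 16) (.s false (nat_lit 1) (nat_lit 19) (nat_lit 11) (nat_lit 1) (nat_lit 2) true (nat_lit 0) true (nat_lit 16) true (nat_lit 5) true (nat_lit 8) true (nat_lit 17) (.s false (nat_lit 1) (nat_lit 19) (nat_lit 11) (nat_lit 2) (nat_lit 1) true (nat_lit 2) true (nat_lit 17) true (nat_lit 5) true (nat_lit 8) true (nat_lit 16) (.s false (nat_lit 2) (nat_lit 20) (nat_lit 1)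 (nat_lit 1) (nat_lit 12) true (nat_lit 2) true (nat_lit 8) true (nat_lit 4) true (nat_lit 17) true (nat_lit 17) (.s true (nat_lit 2) (nat_lit 20) (nat_lit 1) (nat_lit 12) (nat_lit 1) true (nat_lit 14) true (nat_lit 17) true (nat_lit 4) true (nat_lit 17) true (nat_lit 8) (.s false (nat_lit 2) (nat_lit 20) (nat_lit 2) (nat_lit 1) (nat_lit 8) true (nat_lit 2) true (nat_lit 10) true (nat_lit 4) true (nat_lit 16) true (nat_lit 17) (.s false (nat_lit 2) (nat_lit 20) (nat_lit 4) (nat_lit 1) (nat_lit 5) true (nat_lit 2) true (nat_lit 13) true (nat_lit 4) true (nat_lit 14) true (nat_lit 17) (.s true (nat_lit 2) (nat_lit 20) (nat_lit 6) (nat_lit 1) (nat_lit 3) true (nat_lit 2) true (nat_lit 15) true (nat_lit 4) true (nat_lit 12) true (nat_lit 17) (.s false (nat_lit 3) (nat_lit 20) (nat_lit 11) (nat_lit 1) (nat_lit 1) true (nat_lit 2) true (nat_lit 17) true (nat_lit 4) true (nat_lit 8) true (nat_lit 17) (.s false (nat_lit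 2) (nat_lit 20) (nat_lit 13) (nat_lit 1) (nat_lit 1) true (nat_lit 2) true (nat_lit 17) true (nat_lit 4) true (nat_lit 8) true (nat_lit 17) (.s true (nat_lit 2) (nat_lit 21) (nat_lit 2) (nat_lit 2) (nat_lit 7) true (nat_lit 4) true (nat_lit 11) true (nat_lit 3) true (nat_lit 16) true (nat_lit 16) (.s false (nat_lit 2) (nat_lit 22) (nat_lit 2) (nat_lit 2) (nat_lit 7) true (nat_lit 4) true (nat_lit 11) true (nat_lit 3) true (nat_lit 16) true (nat_lit 16) (.s true (nat_lit 1) (nat_lit 23) (nat_lit 2) (nat_lit 2) (nat_lit 7) true (nat_lit 4) true (nat_lit 11) true (nat_lit 3) true (nat_lit 16) true (nat_lit 16) (.s true (nat_lit 2) (nat_lit 21) (nat_lit 2) (nat_lit 7) (nat_lit 2) true (nat_lit 11) true (nat_lit 16) true (nat_lit 3) true (nat_lit 16) true (nat_lit 11) (.s true (nat_lit 2) (nat_lit 22) (nat_lit 2) (nat_lit 7) (nat_lit 2) true (nat_lit 11) true (nat_lit 16) true (nat_lit 3) true (nat_lit 16) true (nat_lit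 11) (.s false (nat_lit 1) (nat_lit 23) (nat_lit 2) (nat_lit 7) (nat_lit 2) true (nat_lit 11) true (nat_lit 16) true (nat_lit 3) true (nat_lit 16) true (nat_lit 11) (.s true (nat_lit 2) (nat_lit 21) (nat_lit 7) (nat_lit 2) (nat_lit 2) true (nat_lit 4) true (nat_lit 16) true (nat_lit 3) true (nat_lit 11) true (nat_lit 16) (.s false (nat_lit 3) (nat_lit 23) (nat_lit 7) (nat_lit 2) (nat_lit 2) true (nat_lit 4) true (nat_lit 16) true (nat_lit 3) true (nat_lit 11) true (nat_lit 16) (.s true (nat_lit 1) (nat_lit 24) (nat_lit 1) (nat_lit 2) (nat_lit 7) true (nat_lit 5) true (nat_lit 11) true (nat_lit 2) true (nat_lit 17) true (nat_lit 16) dC2d_i305)))))))))))))))))))))))))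

noncomputable def dC2d_i307 : IL := (.e true (nat_lit 2) (nat_lit 322) (nat_lit 1) (nat_lit 15) (.e false (nat_lit 1) (nat_lit 325) (nat_lit 0) (nat_lit 16) (.e false (nat_lit 2) (nat_lit 329) (nat_lit 0) (nat_lit 16) (.e false (nat_lit 3) (nat_lit 326) (nat_lit 0) (nat_lit 16) (.e false (nat_lit 2) (nat_lit 327) (nat_lit 0) (nat_lit 16) (.e true (nat_lit 2) (nat_lit 328) (nat_lit 0) (nat_lit 16) (.e false (nat_lit 1) (nat_lit 330) (nat_lit 0) (nat_lit 16) (.e false (nat_lit 2) (nat_lit 331) (nat_lit 0) (nat_lit 16) (.e true (nat_lit 3) (nat_lit 136) (nat_lit 7) (nat_lit 9) (.e false (nat_lit 3) (nat_lit 103) (nat_lit 11) (nat_lit 7) (.e true (nat_lit 2) (nat_lit 105) (nat_lit 8) (nat_lit 8) (.e false (nat_lit 3) (nat_lit 48) (nat_lit 27) (nat_lit 2) (.e false (nat_lit 1) (nat_lit 305) (nat_lit 1) (nat_lit 15) (.e true (nat_lit 3) (nat_lit 309) (nat_lit 1) (nat_lit 15) (.e false (nat_lit 2) (nat_lit 311) (nat_lit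 1) (nat_lit 15) (.e false (nat_lit 2) (nat_lit 312) (nat_lit 1) (nat_lit 15) (.e false (nat_lit 2) (nat_lit 321) (nat_lit 1) (nat_lit 15) (.e true (nat_lit 3) (nat_lit 198) (nat_lit 4) (nat_lit 12) (.e false (nat_lit 1) (nat_lit 48) (nat_lit 24) (nat_lit 2) (.e true (nat_lit 1) (nat_lit 102) (nat_lit 11) (nat_lit 7) (.e true (nat_lit 1) (nat_lit 104) (nat_lit 11) (nat_lit 7) (.e true (nat_lit 3) (nat_lit 141) (nat_lit 7) (nat_lit 9) (.e false (nat_lit 3) (nat_lit 333) (nat_lit 0) (nat_lit 16) (.u (nat_lit 2) (.p (nat_lit 0) (nat_lit 3) (.p (nat_lit 1) (nat_lit 1) (.p (nat_lit 2) (nat_lit 1) (.p (nat_lit 3) (nat_lit 5) (.n (nat_lit 4) (nat_lit 1) (.n (nat_lit 5) (nat_lit 1) (.p (nat_lit 6) (nat_lit 3) (.n (nat_lit 7) (nat_lit 1) (.p (nat_lit 11) (nat_lit 7) (.p (nat_lit 12) (nat_lit 2) (.p (nat_lit 14) (nat_lit 3) (.n (nat_lit 15) (nat_lit 3) (.n (nat_lit 16) (nat_lit 3) (.n (nat_lit 17) (nat_lit 3) (.n (nat_lit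 18) (nat_lit 5) (.n (nat_lit 19) (nat_lit 10) (.n (nat_lit 21) (nat_lit 1) (.p (nat_lit 23) (nat_lit 6) (.p (nat_lit 24) (nat_lit 1) (.n (nat_lit 27) (nat_lit 1) (.n (nat_lit 31) (nat_lit 1) (.n (nat_lit 34) (nat_lit 2) (.p (nat_lit 35) (nat_lit 2) (.p (nat_lit 38) (nat_lit 3) (.n (nat_lit 68) (nat_lit 1) (.n (nat_lit 75) (nat_lit 1) (.n (nat_lit 133) (nat_lit 1) (.p (nat_lit 134) (nat_lit 1) (.n (nat_lit 143) (nat_lit 1) (.n (nat_lit 145) (nat_lit 1) (.n (nat_lit 148) (nat_lit 1) (.n (nat_lit 149) (nat_lit 1) (.p (nat_lit 150) (nat_lit 1) (.p (nat_lit 154) (nat_lit 1) (.n (nat_lit 160) (nat_lit 1) (.p (nat_lit 204) (nat_lit 10) (.n (nat_lit 205) (nat_lit 2) (.p (nat_lit 206) (nat_lit 10) (.n (nat_lit 207) (nat_lit 15) (.n (nat_lit 208) (nat_lit 10) (.p (nat_lit 209) (nat_lit 22) (.n (nat_lit 210) (nat_lit 5) (.n (nat_lit 211) (nat_lit 2) (.p (nat_lit 212) (nat_lit 1) (.p (nat_lit 213) (nat_lit 8) (.p (nat_lit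 214) (nat_lit 7) (.n (nat_lit 215) (nat_lit 1) (.p (nat_lit 216) (nat_lit 6) (.p (nat_lit 217) (nat_lit 3) (.n (nat_lit 218) (nat_lit 6) (.n (nat_lit 219) (nat_lit 8) (.n (nat_lit 221) (nat_lit 1) (.n (nat_lit 222) (nat_lit 13) (.p (nat_lit 223) (nat_lit 2) (.n (nat_lit 224) (nat_lit 18) (.n (nat_lit 226) (nat_lit 3) (.n (nat_lit 228) (nat_lit 2) (.p (nat_lit 229) (nat_lit 3) (.n (nat_lit 231) (nat_lit 3) (.p (nat_lit 232) (nat_lit 6) .z)))))))))))))))))))))))))))))))))))))))))))))))))))))))))))) (.u (nat_lit 2) (.p (nat_lit 234) (nat_lit 3) (.p (nat_lit 237) (nat_lit 2) (.n (nat_lit 238) (nat_lit 6) (.p (nat_lit 240) (nat_lit 3) (.n (nat_lit 241) (nat_lit 4) (.n (nat_lit 242) (nat_lit 1) (.n (nat_lit 244) (nat_lit 2) (.p (nat_lit 245) (nat_lit 1) (.p (nat_lit 246) (nat_lit 1) (.p (nat_lit 247) (nat_lit 2) (.p (nat_lit 248) (nat_lit 2) (.n (nat_lit 249) (nat_lit 2) (.p (nat_lit 250) (nat_lit 2) (.n (nat_lit 251)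 (nat_lit 1) (.p (nat_lit 254) (nat_lit 1) (.n (nat_lit 257) (nat_lit 1) (.p (nat_lit 258) (nat_lit 1) (.n (nat_lit 261) (nat_lit 1) (.n (nat_lit 263) (nat_lit 2) (.p (nat_lit 264) (nat_lit 2) (.p (nat_lit 265) (nat_lit 1) (.p (nat_lit 266) (nat_lit 2) (.n (nat_lit 267) (nat_lit 2) .z))))))))))))))))))))))) .nil)))))))))))))))))))))))))

noncomputable def dC2d_i308 : IL := (.e true (nat_lit 2) (nat_lit 269) (nat_lit 2) (nat_lit 14) (.e true (nat_lit 3) (nat_lit 270) (nat_lit 2) (nat_lit 14) (.e false (nat_lit 2) (nat_lit 274) (nat_lit 2) (nat_lit 14) (.e true (nat_lit 3) (nat_lit 275) (nat_lit 2) (nat_lit 14) (.e true (nat_lit 2) (nat_lit 277) (nat_lit 2) (nat_lit 14) (.e false (nat_lit 1) (nat_lit 286) (nat_lit 2) (nat_lit 14) (.e false (nat_lit 3) (nat_lit 317) (nat_lit 1) (nat_lit 15) (.e true (nat_lit 2) (nat_lit 272) (nat_lit 2) (nat_lit 14) (.e false (nat_lit 1) (nat_lit 147) (nat_lit 7) (nat_lit 9) (.e true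 (nat_lit 3) (nat_lit 72) (nat_lit 20) (nat_lit 3) (.e false (nat_lit 1) (nat_lit 318) (nat_lit 1) (nat_lit 15) (.e false (nat_lit 2) (nat_lit 283) (nat_lit 2) (nat_lit 14) (.e false (nat_lit 3) (nat_lit 285) (nat_lit 2) (nat_lit 14) (.e true (nat_lit 3) (nat_lit 284) (nat_lit 2) (nat_lit 14) (.e true (nat_lit 2) (nat_lit 315) (nat_lit 1) (nat_lit 15) (.e false (nat_lit 3) (nat_lit 60) (nat_lit 20) (nat_lit 3) (.e false (nat_lit 3) (nat_lit 63) (nat_lit 20) (nat_lit 3) (.e true (nat_lit 3) (nat_lit 73) (nat_lit 20) (nat_lit 3) (.e true (nat_lit 3) (nat_lit 152) (nat_lit 7) (nat_lit 9) (.e true (nat_lit 2) (nat_lit 306) (nat_lit 1) (nat_lit 15) (.e true (nat_lit 3) (nat_lit 307) (nat_lit 1) (nat_lit 15) (.e true (nat_lit 1) (nat_lit 308) (nat_lit 1) (nat_lit 15) (.e true (nat_lit 2) (nat_lit 310) (nat_lit 1) (nat_lit 15) (.e false (nat_lit 2) (nat_lit 313) (nat_lit 1) (nat_lit 15) (.e true (nat_lit 2) (nat_lit 314)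 (nat_lit 1) (nat_lit 15) dC2d_i307)))))))))))))))))))))))))

noncomputable def dC2d_i309 : IL := (.s false (nat_lit 2) (nat_lit 48) (nat_lit 3) (nat_lit 1) (nat_lit 2) true (nat_lit 7) true (nat_lit 14) false (nat_lit 2) true (nat_lit 13) true (nat_lit 15) (.s true (nat_lit 2) (nat_lit 48) (nat_lit 3) (nat_lit 2) (nat_lit 1) true (nat_lit 8) true (nat_lit 15) false (nat_lit 2) true (nat_lit 13) true (nat_lit 14) (.s true (nat_lit 3) (nat_lit 48) (nat_lit 4) (nat_lit 0) (nat_lit 2) true (nat_lit 6) true (nat_lit 14) false (nat_lit 2) true (nat_lit 12) true (nat_lit 16) (.s true (nat_lit 3) (nat_lit 69) (nat_lit 2) (nat_lit 2) (nat_lit 2) true (nat_lit 9) true (nat_lit 14) false (nat_lit 3) true (nat_lit 14) true (nat_lit 14) (.s true (nat_lit 3) (nat_lit 81) (nat_lit 1) (nat_lit 2) (nat_lit 2) true (nat_lit 10) true (nat_lit 14) false (nat_lit 4) true (nat_lit 15) true (nat_lit 14) (.s false (nat_lit 1) (nat_lit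 89) (nat_lit 1) (nat_lit 2) (nat_lit 2) true (nat_lit 10) true (nat_lit 14) false (nat_lit 4) true (nat_lit 15) true (nat_lit 14) (.s true (nat_lit 3) (nat_lit 98) (nat_lit 1) (nat_lit 2) (nat_lit 1) true (nat_lit 12) true (nat_lit 15) false (nat_lit 6) true (nat_lit 15) true (nat_lit 14) (.s true (nat_lit 3) (nat_lit 99) (nat_lit 1) (nat_lit 2) (nat_lit 1) true (nat_lit 12) true (nat_lit 15) false (nat_lit 6) true (nat_lit 15) true (nat_lit 14) (.s false (nat_lit 3) (nat_lit 100) (nat_lit 1) (nat_lit 2) (nat_lit 1) true (nat_lit 12) true (nat_lit 15) false (nat_lit 6) true (nat_lit 15) true (nat_lit 14) (.s false (nat_lit 3) (nat_lit 102) (nat_lit 2) (nat_lit 1) (nat_lit 0) true (nat_lit 11) true (nat_lit 16) false (nat_lit 7) true (nat_lit 14) true (nat_lit 15) (.s false (nat_lit 3) (nat_lit 104) (nat_lit 2) (nat_lit 1) (nat_lit 0) true (nat_lit 11) true (nat_lit 16) false (nat_lit 7) true (nat_lit 14) true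 (nat_lit 15) (.s false (nat_lit 3) (nat_lit 105) (nat_lit 0) (nat_lit 1) (nat_lit 1) true (nat_lit 13) true (nat_lit 15) false (nat_lit 8) true (nat_lit 16) true (nat_lit 15) (.e true (nat_lit 3) (nat_lit 155) (nat_lit 7) (nat_lit 9) (.e false (nat_lit 3) (nat_lit 144) (nat_lit 7) (nat_lit 9) (.e true (nat_lit 2) (nat_lit 252) (nat_lit 2) (nat_lit 14) (.e true (nat_lit 1) (nat_lit 253) (nat_lit 2) (nat_lit 14) (.e false (nat_lit 1) (nat_lit 255) (nat_lit 2) (nat_lit 14) (.e false (nat_lit 1) (nat_lit 257) (nat_lit 2) (nat_lit 14) (.e true (nat_lit 3) (nat_lit 258) (nat_lit 2) (nat_lit 14) (.e true (nat_lit 3) (nat_lit 261) (nat_lit 2) (nat_lit 14) (.e false (nat_lit 3) (nat_lit 262) (nat_lit 2) (nat_lit 14) (.e true (nat_lit 3) (nat_lit 263) (nat_lit 2) (nat_lit 14) (.e true (nat_lit 1) (nat_lit 264) (nat_lit 2) (nat_lit 14) (.e false (nat_lit 1) (nat_lit 265) (nat_lit 2) (nat_lit 14) (.e true (nat_lit 3) (nat_lit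 267) (nat_lit 2) (nat_lit 14) dC2d_i308)))))))))))))))))))))))))

noncomputable def dC2d_i310 : IL := (.e false (nat_lit 2) (nat_lit 152) (nat_lit 7) (nat_lit 9) (.e false (nat_lit 2) (nat_lit 153) (nat_lit 7) (nat_lit 9) (.e true (nat_lit 1) (nat_lit 324) (nat_lit 0) (nat_lit 16) (.e true (nat_lit 2) (nat_lit 325) (nat_lit 0) (nat_lit 16) (.e true (nat_lit 1) (nat_lit 326) (nat_lit 0) (nat_lit 16) (.e true (nat_lit 3) (nat_lit 327) (nat_lit 0) (nat_lit 16) (.e false (nat_lit 2) (nat_lit 328) (nat_lit 0) (nat_lit 16) (.e false (nat_lit 1) (nat_lit 330) (nat_lit 0) (nat_lit 16) (.e false (nat_lit 2) (nat_lit 329) (nat_lit 0) (nat_lit 16) (.e true (nat_lit 3) (nat_lit 331) (nat_lit 0) (nat_lit 16) (.e false (nat_lit 2) (nat_lit 284) (nat_lit 2) (nat_lit 14) (.e false (nat_lit 3) (nat_lit 306) (nat_lit 1) (nat_lit 15) (.e false (nat_lit 2) (nat_lit 307) (nat_lit 1) (nat_lit 15) (.e true (nat_lit 2) (nat_lit 308)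 (nat_lit 1) (nat_lit 15) (.e false (nat_lit 1) (nat_lit 309) (nat_lit 1) (nat_lit 15) (.e true (nat_lit 1) (nat_lit 311) (nat_lit 1) (nat_lit 15) (.e true (nat_lit 1) (nat_lit 312) (nat_lit 1) (nat_lit 15) (.e true (nat_lit 1) (nat_lit 314) (nat_lit 1) (nat_lit 15) (.e true (nat_lit 3) (nat_lit 315) (nat_lit 1) (nat_lit 15) (.e false (nat_lit 1) (nat_lit 310) (nat_lit 1) (nat_lit 15) (.e false (nat_lit 1) (nat_lit 72) (nat_lit 20) (nat_lit 3) (.e false (nat_lit 2) (nat_lit 318) (nat_lit 1) (nat_lit 15) (.u (nat_lit 2) (.n (nat_lit 0) (nat_lit 1) (.p (nat_lit 2) (nat_lit 1) (.n (nat_lit 3) (nat_lit 2) (.p (nat_lit 4) (nat_lit 1) (.n (nat_lit 6) (nat_lit 1) (.p (nat_lit 8) (nat_lit 1) (.p (nat_lit 9) (nat_lit 1) (.p (nat_lit 10) (nat_lit 2) (.p (nat_lit 11) (nat_lit 1) (.n (nat_lit 12) (nat_lit 1) (.n (nat_lit 15) (nat_lit 1) (.n (nat_lit 16) (nat_lit 1) (.n (nat_lit 19) (nat_lit 1) (.n (nat_lit 21) (nat_lit 1)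 (.n (nat_lit 23) (nat_lit 1) (.n (nat_lit 24) (nat_lit 2) (.p (nat_lit 25) (nat_lit 1) (.p (nat_lit 38) (nat_lit 2) (.p (nat_lit 42) (nat_lit 1) (.p (nat_lit 43) (nat_lit 1) (.n (nat_lit 44) (nat_lit 1) (.p (nat_lit 45) (nat_lit 1) (.n (nat_lit 46) (nat_lit 1) (.n (nat_lit 68) (nat_lit 1) (.p (nat_lit 69) (nat_lit 1) (.n (nat_lit 71) (nat_lit 1) (.n (nat_lit 73) (nat_lit 1) (.n (nat_lit 76) (nat_lit 1) (.n (nat_lit 80) (nat_lit 1) (.p (nat_lit 85) (nat_lit 1) (.n (nat_lit 86) (nat_lit 1) (.n (nat_lit 96) (nat_lit 1) (.p (nat_lit 99) (nat_lit 1) (.p (nat_lit 100) (nat_lit 1) (.p (nat_lit 106) (nat_lit 1) (.p (nat_lit 110) (nat_lit 1) (.n (nat_lit 112) (nat_lit 1) (.p (nat_lit 114) (nat_lit 1) (.p (nat_lit 115) (nat_lit 1) (.n (nat_lit 116) (nat_lit 1) (.p (nat_lit 119) (nat_lit 1) (.n (nat_lit 121) (nat_lit 1) (.n (nat_lit 122) (nat_lit 1) (.n (nat_lit 123) (nat_lit 1) (.n (nat_lit 127) (nat_lit 1) (.n (nat_lit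 129) (nat_lit 1) (.p (nat_lit 130) (nat_lit 1) (.n (nat_lit 133) (nat_lit 2) (.p (nat_lit 134) (nat_lit 2) (.n (nat_lit 137) (nat_lit 1) (.p (nat_lit 138) (nat_lit 1) (.n (nat_lit 139) (nat_lit 1) (.p (nat_lit 142) (nat_lit 2) (.n (nat_lit 143) (nat_lit 3) (.p (nat_lit 145) (nat_lit 4) (.p (nat_lit 147) (nat_lit 3) (.n (nat_lit 148) (nat_lit 1) (.p (nat_lit 149) (nat_lit 1) (.n (nat_lit 150) (nat_lit 1) (.p (nat_lit 151) (nat_lit 4) .z)))))))))))))))))))))))))))))))))))))))))))))))))))))))))))) (.u (nat_lit 2) (.n (nat_lit 153) (nat_lit 1) (.n (nat_lit 154) (nat_lit 1) (.n (nat_lit 157) (nat_lit 2) (.p (nat_lit 161) (nat_lit 1) (.n (nat_lit 162) (nat_lit 2) (.n (nat_lit 163) (nat_lit 2) (.n (nat_lit 164) (nat_lit 3) (.p (nat_lit 165) (nat_lit 2) (.n (nat_lit 166) (nat_lit 1) (.p (nat_lit 167) (nat_lit 1) (.p (nat_lit 168) (nat_lit 1) (.n (nat_lit 180) (nat_lit 1) (.n (nat_lit 185) (nat_lit 1) (.n (nat_lit 186)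 (nat_lit 1) (.p (nat_lit 187) (nat_lit 1) (.n (nat_lit 195) (nat_lit 1) (.n (nat_lit 196) (nat_lit 1) (.n (nat_lit 203) (nat_lit 1) (.n (nat_lit 204) (nat_lit 14) (.n (nat_lit 205) (nat_lit 16) (.p (nat_lit 206) (nat_lit 19) (.n (nat_lit 207) (nat_lit 15) (.n (nat_lit 208) (nat_lit 1) (.p (nat_lit 209) (nat_lit 3) (.n (nat_lit 210) (nat_lit 14) (.p (nat_lit 211) (nat_lit 5) (.n (nat_lit 212) (nat_lit 8) (.p (nat_lit 213) (nat_lit 1) (.p (nat_lit 214) (nat_lit 10) (.n (nat_lit 215) (nat_lit 3) (.p (nat_lit 216) (nat_lit 7) (.p (nat_lit 217) (nat_lit 4) (.n (nat_lit 219) (nat_lit 2) (.n (nat_lit 220) (nat_lit 1) (.n (nat_lit 221) (nat_lit 4) (.n (nat_lit 222) (nat_lit 5) (.p (nat_lit 223) (nat_lit 7) (.n (nat_lit 224) (nat_lit 20) (.n (nat_lit 225) (nat_lit 1) (.n (nat_lit 226) (nat_lit 10) (.n (nat_lit 227) (nat_lit 4) (.p (nat_lit 228) (nat_lit 3) (.p (nat_lit 229) (nat_lit 1) (.p (nat_lit 231) (nat_lit 1) (.p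 (nat_lit 232) (nat_lit 4) (.n (nat_lit 233) (nat_lit 1) (.n (nat_lit 234) (nat_lit 5) (.p (nat_lit 235) (nat_lit 1) (.n (nat_lit 236) (nat_lit 3) (.p (nat_lit 237) (nat_lit 3) (.n (nat_lit 238) (nat_lit 3) (.p (nat_lit 239) (nat_lit 1) (.p (nat_lit 240) (nat_lit 3) (.n (nat_lit 241) (nat_lit 2) (.p (nat_lit 242) (nat_lit 3) (.n (nat_lit 243) (nat_lit 4) (.p (nat_lit 244) (nat_lit 5) (.p (nat_lit 245) (nat_lit 3) (.p (nat_lit 246) (nat_lit 5) (.n (nat_lit 248) (nat_lit 1) .z)))))))))))))))))))))))))))))))))))))))))))))))))))))))))))) (.u (nat_lit 2) (.p (nat_lit 249) (nat_lit 2) (.p (nat_lit 250) (nat_lit 4) (.n (nat_lit 251) (nat_lit 2) (.n (nat_lit 252) (nat_lit 1) (.n (nat_lit 253) (nat_lit 3) (.n (nat_lit 254) (nat_lit 3) (.p (nat_lit 257) (nat_lit 1) (.n (nat_lit 258) (nat_lit 1) (.n (nat_lit 260) (nat_lit 1) (.p (nat_lit 261) (nat_lit 3) (.p (nat_lit 262) (nat_lit 2) (.p (nat_lit 263) (nat_lit 1) (.p (nat_lit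 264) (nat_lit 2) (.n (nat_lit 266) (nat_lit 2) (.n (nat_lit 267) (nat_lit 3) (.p (nat_lit 269) (nat_lit 2) (.p (nat_lit 270) (nat_lit 2) .z))))))))))))))))) .nil)))))))))))))))))))))))))

noncomputable def dC2d_i311 : IL := (.s false (nat_lit 3) (nat_lit 93) (nat_lit 2) (nat_lit 0) (nat_lit 2) true (nat_lit 9) true (nat_lit 14) false (nat_lit 5) true (nat_lit 14) true (nat_lit 16) (.s true (nat_lit 3) (nat_lit 91) (nat_lit 2) (nat_lit 2) (nat_lit 0) true (nat_lit 11) true (nat_lit 16) false (nat_lit 5) true (nat_lit 14) true (nat_lit 14) (.s false (nat_lit 1) (nat_lit 92) (nat_lit 2) (nat_lit 2) (nat_lit 0) true (nat_lit 11) true (nat_lit 16) false (nat_lit 5) true (nat_lit 14) true (nat_lit 14) (.s false (nat_lit 2) (nat_lit 93) (nat_lit 2) (nat_lit 2) (nat_lit 0) true (nat_lit 11) true (nat_lit 16) false (nat_lit 5) true (nat_lit 14) true (nat_lit 14) (.s true (nat_lit 1) (nat_lit 96) (nat_lit 2) (nat_lit 2)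 (nat_lit 0) true (nat_lit 11) true (nat_lit 16) false (nat_lit 5) true (nat_lit 14) true (nat_lit 14) (.s true (nat_lit 1) (nat_lit 97) (nat_lit 1) (nat_lit 1) (nat_lit 2) true (nat_lit 10) true (nat_lit 14) false (nat_lit 6) true (nat_lit 15) true (nat_lit 15) (.s false (nat_lit 2) (nat_lit 102) (nat_lit 0) (nat_lit 2) (nat_lit 1) true (nat_lit 13) true (nat_lit 15) false (nat_lit 7) true (nat_lit 16) true (nat_lit 14) (.s false (nat_lit 1) (nat_lit 103) (nat_lit 0) (nat_lit 2) (nat_lit 1) true (nat_lit 13) true (nat_lit 15) false (nat_lit 7) true (nat_lit 16) true (nat_lit 14) (.s false (nat_lit 2) (nat_lit 104) (nat_lit 0) (nat_lit 2) (nat_lit 1) true (nat_lit 13) true (nat_lit 15) false (nat_lit 7) true (nat_lit 16) true (nat_lit 14) (.s false (nat_lit 3) (nat_lit 103) (nat_lit 2) (nat_lit 1) (nat_lit 0) true (nat_lit 11) true (nat_lit 16) false (nat_lit 7) true (nat_lit 14) true (nat_lit 15) (.s true (nat_lit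 3) (nat_lit 105) (nat_lit 0) (nat_lit 1) (nat_lit 1) true (nat_lit 13) true (nat_lit 15) false (nat_lit 8) true (nat_lit 16) true (nat_lit 15) (.s false (nat_lit 1) (nat_lit 105) (nat_lit 1) (nat_lit 0) (nat_lit 1) true (nat_lit 12) true (nat_lit 15) false (nat_lit 8) true (nat_lit 15) true (nat_lit 16) (.e true (nat_lit 3) (nat_lit 154) (nat_lit 7) (nat_lit 9) (.e true (nat_lit 2) (nat_lit 254) (nat_lit 2) (nat_lit 14) (.e false (nat_lit 1) (nat_lit 272) (nat_lit 2) (nat_lit 14) (.e true (nat_lit 1) (nat_lit 264) (nat_lit 2) (nat_lit 14) (.e true (nat_lit 3) (nat_lit 252) (nat_lit 2) (nat_lit 14) (.e false (nat_lit 1) (nat_lit 255) (nat_lit 2) (nat_lit 14) (.e false (nat_lit 2) (nat_lit 258) (nat_lit 2) (nat_lit 14) (.e false (nat_lit 2) (nat_lit 259) (nat_lit 2) (nat_lit 14) (.e true (nat_lit 1) (nat_lit 140) (nat_lit 7) (nat_lit 9) (.e false (nat_lit 1) (nat_lit 144) (nat_lit 7) (nat_lit 9) (.e true (nat_lit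 2) (nat_lit 253) (nat_lit 2) (nat_lit 14) (.e true (nat_lit 3) (nat_lit 273) (nat_lit 2) (nat_lit 14) (.e true (nat_lit 2) (nat_lit 283) (nat_lit 2) (nat_lit 14) dC2d_i310)))))))))))))))))))))))))

noncomputable def dC2d_i312 : IL := (.s true (nat_lit 1) (nat_lit 73) (nat_lit 2) (nat_lit 2) (nat_lit 2) true (nat_lit 9) true (nat_lit 14) false (nat_lit 3) true (nat_lit 14) true (nat_lit 14) (.s false (nat_lit 2) (nat_lit 80) (nat_lit 1) (nat_lit 2) (nat_lit 2) true (nat_lit 10) true (nat_lit 14) false (nat_lit 4) true (nat_lit 15) true (nat_lit 14) (.s true (nat_lit 1) (nat_lit 81) (nat_lit 1) (nat_lit 2) (nat_lit 2) true (nat_lit 10) true (nat_lit 14) false (nat_lit 4) true (nat_lit 15) true (nat_lit 14) (.s true (nat_lit 1) (nat_lit 82) (nat_lit 1) (nat_lit 2) (nat_lit 2) true (nat_lit 10) true (nat_lit 14) false (nat_lit 4) true (nat_lit 15) true (nat_lit 14) (.s false (nat_lit 1) (nat_lit 83) (nat_lit 1) (nat_lit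 2) (nat_lit 2) true (nat_lit 10) true (nat_lit 14) false (nat_lit 4) true (nat_lit 15) true (nat_lit 14) (.s false (nat_lit 2) (nat_lit 84) (nat_lit 1) (nat_lit 2) (nat_lit 2) true (nat_lit 10) true (nat_lit 14) false (nat_lit 4) true (nat_lit 15) true (nat_lit 14) (.s false (nat_lit 1) (nat_lit 85) (nat_lit 1) (nat_lit 2) (nat_lit 2) true (nat_lit 10) true (nat_lit 14) false (nat_lit 4) true (nat_lit 15) true (nat_lit 14) (.s true (nat_lit 2) (nat_lit 86) (nat_lit 1) (nat_lit 2) (nat_lit 2) true (nat_lit 10) true (nat_lit 14) false (nat_lit 4) true (nat_lit 15) true (nat_lit 14) (.s false (nat_lit 2) (nat_lit 87) (nat_lit 1) (nat_lit 2) (nat_lit 2) true (nat_lit 10) true (nat_lit 14) false (nat_lit 4) true (nat_lit 15) true (nat_lit 14) (.s true (nat_lit 2) (nat_lit 88) (nat_lit 1) (nat_lit 2) (nat_lit 2) true (nat_lit 10) true (nat_lit 14) false (nat_lit 4) true (nat_lit 15) true (nat_lit 14) (.s false (nat_lit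 2) (nat_lit 90) (nat_lit 1) (nat_lit 2) (nat_lit 2) true (nat_lit 10) true (nat_lit 14) false (nat_lit 4) true (nat_lit 15) true (nat_lit 14) (.s true (nat_lit 3) (nat_lit 80) (nat_lit 2) (nat_lit 1) (nat_lit 2) true (nat_lit 9) true (nat_lit 14) false (nat_lit 4) true (nat_lit 14) true (nat_lit 15) (.s false (nat_lit 1) (nat_lit 81) (nat_lit 2) (nat_lit 1) (nat_lit 2) true (nat_lit 9) true (nat_lit 14) false (nat_lit 4) true (nat_lit 14) true (nat_lit 15) (.s true (nat_lit 2) (nat_lit 89) (nat_lit 2) (nat_lit 1) (nat_lit 2) true (nat_lit 9) true (nat_lit 14) false (nat_lit 4) true (nat_lit 14) true (nat_lit 15) (.s true (nat_lit 3) (nat_lit 80) (nat_lit 2) (nat_lit 2) (nat_lit 1) true (nat_lit 10) true (nat_lit 15) false (nat_lit 4) true (nat_lit 14) true (nat_lit 14) (.s false (nat_lit 2) (nat_lit 81) (nat_lit 2) (nat_lit 2) (nat_lit 1) true (nat_lit 10) true (nat_lit 15) false (nat_lit 4) true (nat_lit 14)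 true (nat_lit 14) (.s true (nat_lit 1) (nat_lit 82) (nat_lit 2) (nat_lit 2) (nat_lit 1) true (nat_lit 10) true (nat_lit 15) false (nat_lit 4) true (nat_lit 14) true (nat_lit 14) (.s true (nat_lit 2) (nat_lit 83) (nat_lit 2) (nat_lit 2) (nat_lit 1) true (nat_lit 10) true (nat_lit 15) false (nat_lit 4) true (nat_lit 14) true (nat_lit 14) (.s true (nat_lit 1) (nat_lit 85) (nat_lit 2) (nat_lit 2) (nat_lit 1) true (nat_lit 10) true (nat_lit 15) false (nat_lit 4) true (nat_lit 14) true (nat_lit 14) (.s true (nat_lit 1) (nat_lit 90) (nat_lit 2) (nat_lit 2) (nat_lit 1) true (nat_lit 10) true (nat_lit 15) false (nat_lit 4) true (nat_lit 14) true (nat_lit 14) (.s true (nat_lit 1) (nat_lit 91) (nat_lit 0) (nat_lit 2) (nat_lit 2) true (nat_lit 11) true (nat_lit 14) false (nat_lit 5) true (nat_lit 16) true (nat_lit 14) (.s true (nat_lit 2) (nat_lit 92) (nat_lit 0) (nat_lit 2) (nat_lit 2) true (nat_lit 11) true (nat_lit 14)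 false (nat_lit 5) true (nat_lit 16) true (nat_lit 14) (.s false (nat_lit 1) (nat_lit 94) (nat_lit 0) (nat_lit 2) (nat_lit 2) true (nat_lit 11) true (nat_lit 14) false (nat_lit 5) true (nat_lit 16) true (nat_lit 14) (.s true (nat_lit 3) (nat_lit 95) (nat_lit 0) (nat_lit 2) (nat_lit 2) true (nat_lit 11) true (nat_lit 14) false (nat_lit 5) true (nat_lit 16) true (nat_lit 14) (.s false (nat_lit 2) (nat_lit 96) (nat_lit 0) (nat_lit 2) (nat_lit 2) true (nat_lit 11) true (nat_lit 14) false (nat_lit 5) true (nat_lit 16) true (nat_lit 14) dC2d_i311)))))))))))))))))))))))))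

noncomputable def dC2d_i313 : IL := (.s false (nat_lit 1) (nat_lit 39) (nat_lit 0) (nat_lit 2) (nat_lit 7) true (nat_lit 5) true (nat_lit 9) true (nat_lit 0) true (nat_lit 16) true (nat_lit 14) (.s false (nat_lit 1) (nat_lit 41) (nat_lit 0) (nat_lit 2) (nat_lit 7) true (nat_lit 5) true (nat_lit 9) true (nat_lit 0) true (nat_lit 16) true (nat_lit 14) (.s true (nat_lit 3) (nat_lit 40) (nat_lit 2) (nat_lit 2) (nat_lit 5) true (nat_lit 5) true (nat_lit 11) true (nat_lit 0) true (nat_lit 14) true (nat_lit 14) (.s false (nat_lit 2) (nat_lit 41) (nat_lit 2) (nat_lit 2) (nat_lit 5) true (nat_lit 5) true (nat_lit 11) true (nat_lit 0) true (nat_lit 14) true (nat_lit 14) (.s true (nat_lit 1) (nat_lit 39) (nat_lit 2) (nat_lit 5) (nat_lit 2) true (nat_lit 9) true (nat_lit 14) true (nat_lit 0) true (nat_lit 14) true (nat_lit 11) (.s false (nat_lit 2) (nat_lit 40) (nat_lit 2) (nat_lit 5) (nat_lit 2) true (nat_lit 9) true (nat_lit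 14) true (nat_lit 0) true (nat_lit 14) true (nat_lit 11) (.s false (nat_lit 3) (nat_lit 39) (nat_lit 2) (nat_lit 7) (nat_lit 0) true (nat_lit 11) true (nat_lit 16) true (nat_lit 0) true (nat_lit 14) true (nat_lit 9) (.s false (nat_lit 2) (nat_lit 39) (nat_lit 5) (nat_lit 2) (nat_lit 2) true (nat_lit 5) true (nat_lit 14) true (nat_lit 0) true (nat_lit 11) true (nat_lit 14) (.s false (nat_lit 2) (nat_lit 42) (nat_lit 1) (nat_lit 2) (nat_lit 6) true (nat_lit 6) true (nat_lit 10) false (nat_lit 0) true (nat_lit 15) true (nat_lit 14) (.s false (nat_lit 1) (nat_lit 42) (nat_lit 2) (nat_lit 1) (nat_lit 6) true (nat_lit 4) true (nat_lit 10) false (nat_lit 0) true (nat_lit 14) true (nat_lit 15) (.s false (nat_lit 1) (nat_lit 43) (nat_lit 2) (nat_lit 2) (nat_lit 4) true (nat_lit 6) true (nat_lit 12) false (nat_lit 0) true (nat_lit 14) true (nat_lit 14) (.s false (nat_lit 2) (nat_lit 44) (nat_lit 2) (nat_lit 2) (nat_lit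 4) true (nat_lit 6) true (nat_lit 12) false (nat_lit 0) true (nat_lit 14) true (nat_lit 14) (.s false (nat_lit 2) (nat_lit 42) (nat_lit 4) (nat_lit 2) (nat_lit 2) true (nat_lit 6) true (nat_lit 14) false (nat_lit 0) true (nat_lit 12) true (nat_lit 14) (.s false (nat_lit 1) (nat_lit 42) (nat_lit 6) (nat_lit 1) (nat_lit 2) true (nat_lit 4) true (nat_lit 14) false (nat_lit 0) true (nat_lit 10) true (nat_lit 15) (.s true (nat_lit 3) (nat_lit 42) (nat_lit 6) (nat_lit 2) (nat_lit 1) true (nat_lit 6) true (nat_lit 15) false (nat_lit 0) true (nat_lit 10) true (nat_lit 14) (.s false (nat_lit 1) (nat_lit 47) (nat_lit 3) (nat_lit 2) (nat_lit 2) true (nat_lit 7) true (nat_lit 14) false (nat_lit 1) true (nat_lit 13) true (nat_lit 14) (.s false (nat_lit 3) (nat_lit 48) (nat_lit 1) (nat_lit 5) (nat_lit 1) true (nat_lit 12) true (nat_lit 15) false (nat_lit 2) true (nat_lit 15) true (nat_lit 11) (.s false (nat_lit 3) (nat_lit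 48) (nat_lit 3) (nat_lit 2) (nat_lit 1) true (nat_lit 8) true (nat_lit 15) false (nat_lit 2) true (nat_lit 13) true (nat_lit 14) (.s true (nat_lit 1) (nat_lit 48) (nat_lit 5) (nat_lit 1) (nat_lit 1) true (nat_lit 7) true (nat_lit 15) false (nat_lit 2) true (nat_lit 11) true (nat_lit 15) (.s false (nat_lit 1) (nat_lit 48) (nat_lit 6) (nat_lit 1) (nat_lit 0) true (nat_lit 7) true (nat_lit 16) false (nat_lit 2) true (nat_lit 10) true (nat_lit 15) (.s true (nat_lit 3) (nat_lit 66) (nat_lit 2) (nat_lit 2) (nat_lit 2) true (nat_lit 9) true (nat_lit 14) false (nat_lit 3) true (nat_lit 14) true (nat_lit 14) (.s false (nat_lit 2) (nat_lit 68) (nat_lit 2) (nat_lit 2) (nat_lit 2) true (nat_lit 9) true (nat_lit 14) false (nat_lit 3) true (nat_lit 14) true (nat_lit 14) (.s true (nat_lit 2) (nat_lit 69) (nat_lit 2) (nat_lit 2) (nat_lit 2) true (nat_lit 9) true (nat_lit 14) false (nat_lit 3) true (nat_lit 14) true (nat_lit 14)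 (.s false (nat_lit 2) (nat_lit 70) (nat_lit 2) (nat_lit 2) (nat_lit 2) true (nat_lit 9) true (nat_lit 14) false (nat_lit 3) true (nat_lit 14) true (nat_lit 14) (.s false (nat_lit 3) (nat_lit 71) (nat_lit 2) (nat_lit 2) (nat_lit 2) true (nat_lit 9) true (nat_lit 14) false (nat_lit 3) true (nat_lit 14) true (nat_lit 14) dC2d_i312)))))))))))))))))))))))))

noncomputable def dC2d_i314 : IL := (.s true (nat_lit 3) (nat_lit 20) (nat_lit 15) (nat_lit 2) (nat_lit 0) true (nat_lit 2) true (nat_lit 16) true (nat_lit 3) true (nat_lit 6) true (nat_lit 14) (.s false (nat_lit 3) (nat_lit 20) (nat_lit 19) (nat_lit 0) (nat_lit 1) true (nat_lit 0) true (nat_lit 15) true (nat_lit 3) true (nat_lit 4) true (nat_lit 16) (.s true (nat_lit 3) (nat_lit 24) (nat_lit 2) (nat_lit 2) (nat_lit 7) true (nat_lit 3) true (nat_lit 9) true (nat_lit 2) true (nat_lit 14) true (nat_lit 14) (.s false (nat_lit 3) (nat_lit 25) (nat_lit 2) (nat_lit 2)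 (nat_lit 7) true (nat_lit 3) true (nat_lit 9) true (nat_lit 2) true (nat_lit 14) true (nat_lit 14) (.s false (nat_lit 1) (nat_lit 26) (nat_lit 2) (nat_lit 2) (nat_lit 7) true (nat_lit 3) true (nat_lit 9) true (nat_lit 2) true (nat_lit 14) true (nat_lit 14) (.s true (nat_lit 1) (nat_lit 27) (nat_lit 2) (nat_lit 2) (nat_lit 7) true (nat_lit 3) true (nat_lit 9) true (nat_lit 2) true (nat_lit 14) true (nat_lit 14) (.s false (nat_lit 2) (nat_lit 26) (nat_lit 2) (nat_lit 7) (nat_lit 2) true (nat_lit 9) true (nat_lit 14) true (nat_lit 2) true (nat_lit 14) true (nat_lit 9) (.s true (nat_lit 3) (nat_lit 27) (nat_lit 2) (nat_lit 7) (nat_lit 2) true (nat_lit 9) true (nat_lit 14) true (nat_lit 2) true (nat_lit 14) true (nat_lit 9) (.s false (nat_lit 3) (nat_lit 27) (nat_lit 7) (nat_lit 2) (nat_lit 2) true (nat_lit 3) true (nat_lit 14) true (nat_lit 2) true (nat_lit 9) true (nat_lit 14) (.s false (nat_lit 3) (nat_lit 33) (nat_lit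 1) (nat_lit 2) (nat_lit 7) true (nat_lit 4) true (nat_lit 9) true (nat_lit 1) true (nat_lit 15) true (nat_lit 14) (.s true (nat_lit 2) (nat_lit 34) (nat_lit 1) (nat_lit 2) (nat_lit 7) true (nat_lit 4) true (nat_lit 9) true (nat_lit 1) true (nat_lit 15) true (nat_lit 14) (.s true (nat_lit 2) (nat_lit 35) (nat_lit 1) (nat_lit 2) (nat_lit 7) true (nat_lit 4) true (nat_lit 9) true (nat_lit 1) true (nat_lit 15) true (nat_lit 14) (.s false (nat_lit 3) (nat_lit 38) (nat_lit 1) (nat_lit 2) (nat_lit 7) true (nat_lit 4) true (nat_lit 9) true (nat_lit 1) true (nat_lit 15) true (nat_lit 14) (.s true (nat_lit 1) (nat_lit 33) (nat_lit 1) (nat_lit 7) (nat_lit 2) true (nat_lit 10) true (nat_lit 14) true (nat_lit 1) true (nat_lit 15) true (nat_lit 9) (.s false (nat_lit 3) (nat_lit 34) (nat_lit 2) (nat_lit 1) (nat_lit 7) true (nat_lit 3) true (nat_lit 9) true (nat_lit 1) true (nat_lit 14) true (nat_lit 15) (.s false (nat_lit 3)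 (nat_lit 33) (nat_lit 2) (nat_lit 2) (nat_lit 6) true (nat_lit 4) true (nat_lit 10) true (nat_lit 1) true (nat_lit 14) true (nat_lit 14) (.s false (nat_lit 2) (nat_lit 34) (nat_lit 2) (nat_lit 2) (nat_lit 6) true (nat_lit 4) true (nat_lit 10) true (nat_lit 1) true (nat_lit 14) true (nat_lit 14) (.s false (nat_lit 1) (nat_lit 35) (nat_lit 2) (nat_lit 2) (nat_lit 6) true (nat_lit 4) true (nat_lit 10) true (nat_lit 1) true (nat_lit 14) true (nat_lit 14) (.s false (nat_lit 3) (nat_lit 38) (nat_lit 2) (nat_lit 2) (nat_lit 6) true (nat_lit 4) true (nat_lit 10) true (nat_lit 1) true (nat_lit 14) true (nat_lit 14) (.s false (nat_lit 3) (nat_lit 33) (nat_lit 2) (nat_lit 6) (nat_lit 2) true (nat_lit 9) true (nat_lit 14) true (nat_lit 1) true (nat_lit 14) true (nat_lit 10) (.s true (nat_lit 1) (nat_lit 34) (nat_lit 2) (nat_lit 7) (nat_lit 1) true (nat_lit 10) true (nat_lit 15) true (nat_lit 1) true (nat_lit 14) true (nat_lit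 9) (.s true (nat_lit 3) (nat_lit 35) (nat_lit 2) (nat_lit 7) (nat_lit 1) true (nat_lit 10) true (nat_lit 15) true (nat_lit 1) true (nat_lit 14) true (nat_lit 9) (.s false (nat_lit 2) (nat_lit 33) (nat_lit 6) (nat_lit 2) (nat_lit 2) true (nat_lit 4) true (nat_lit 14) true (nat_lit 1) true (nat_lit 10) true (nat_lit 14) (.s true (nat_lit 1) (nat_lit 34) (nat_lit 6) (nat_lit 2) (nat_lit 2) true (nat_lit 4) true (nat_lit 14) true (nat_lit 1) true (nat_lit 10) true (nat_lit 14) (.s false (nat_lit 3) (nat_lit 35) (nat_lit 6) (nat_lit 2) (nat_lit 2) true (nat_lit 4) true (nat_lit 14) true (nat_lit 1) true (nat_lit 10) true (nat_lit 14) dC2d_i313)))))))))))))))))))))))))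

noncomputable def dC2d_i315 : IL := (.s false (nat_lit 1) (nat_lit 19) (nat_lit 2) (nat_lit 2) (nat_lit 13) true (nat_lit 1) true (nat_lit 7) true (nat_lit 4) true (nat_lit 14) true (nat_lit 14) (.s false (nat_lit 1) (nat_lit 19) (nat_lit 2) (nat_lit 12) (nat_lit 2) true (nat_lit 9) true (nat_lit 14) true (nat_lit 4) true (nat_lit 14) true (nat_lit 7) (.s true (nat_lit 1) (nat_lit 18) (nat_lit 11) (nat_lit 2) (nat_lit 2) true (nat_lit 1) true (nat_lit 14) true (nat_lit 4) true (nat_lit 7) true (nat_lit 14) (.s true (nat_lit 1) (nat_lit 18) (nat_lit 12) (nat_lit 2) (nat_lit 2) true (nat_lit 1) true (nat_lit 14) true (nat_lit 4) true (nat_lit 7) true (nat_lit 14) (.s false (nat_lit 3) (nat_lit 18) (nat_lit 13) (nat_lit 2) (nat_lit 2) true (nat_lit 1) true (nat_lit 14) true (nat_lit 4) true (nat_lit 7) true (nat_lit 14) (.s false (nat_lit 3) (nat_lit 19) (nat_lit 12) (nat_lit 2) (nat_lit 2) true (nat_lit 1) true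 (nat_lit 14) true (nat_lit 4) true (nat_lit 7) true (nat_lit 14) (.s false (nat_lit 2) (nat_lit 19) (nat_lit 13) (nat_lit 2) (nat_lit 2) true (nat_lit 1) true (nat_lit 14) true (nat_lit 4) true (nat_lit 7) true (nat_lit 14) (.s false (nat_lit 1) (nat_lit 18) (nat_lit 16) (nat_lit 1) (nat_lit 2) false (nat_lit 0) true (nat_lit 14) true (nat_lit 4) true (nat_lit 5) true (nat_lit 15) (.s false (nat_lit 3) (nat_lit 19) (nat_lit 16) (nat_lit 1) (nat_lit 2) false (nat_lit 0) true (nat_lit 14) true (nat_lit 4) true (nat_lit 5) true (nat_lit 15) (.s true (nat_lit 1) (nat_lit 20) (nat_lit 0) (nat_lit 2) (nat_lit 15) true (nat_lit 2) true (nat_lit 6) true (nat_lit 3) true (nat_lit 16) true (nat_lit 14) (.s false (nat_lit 1) (nat_lit 20) (nat_lit 0) (nat_lit 7) (nat_lit 4) true (nat_lit 8) true (nat_lit 12) true (nat_lit 3) true (nat_lit 16) true (nat_lit 9) (.s true (nat_lit 1) (nat_lit 20) (nat_lit 1) (nat_lit 2) (nat_lit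 12) true (nat_lit 2) true (nat_lit 7) true (nat_lit 3) true (nat_lit 15) true (nat_lit 14) (.s true (nat_lit 1) (nat_lit 20) (nat_lit 1) (nat_lit 3) (nat_lit 7) true (nat_lit 4) true (nat_lit 9) true (nat_lit 3) true (nat_lit 15) true (nat_lit 13) (.s true (nat_lit 2) (nat_lit 20) (nat_lit 1) (nat_lit 7) (nat_lit 3) true (nat_lit 8) true (nat_lit 13) true (nat_lit 3) true (nat_lit 15) true (nat_lit 9) (.s false (nat_lit 1) (nat_lit 20) (nat_lit 2) (nat_lit 0) (nat_lit 15) true (nat_lit 0) true (nat_lit 6) true (nat_lit 3) true (nat_lit 14) true (nat_lit 16) (.s false (nat_lit 1) (nat_lit 20) (nat_lit 2) (nat_lit 2) (nat_lit 8) true (nat_lit 2) true (nat_lit 8) true (nat_lit 3) true (nat_lit 14) true (nat_lit 14) (.s true (nat_lit 1) (nat_lit 20) (nat_lit 2) (nat_lit 11) (nat_lit 1) true (nat_lit 10) true (nat_lit 15) true (nat_lit 3) true (nat_lit 14) true (nat_lit 7) (.s false (nat_lit 3) (nat_lit 20) (nat_lit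 2) (nat_lit 13) (nat_lit 1) true (nat_lit 10) true (nat_lit 15) true (nat_lit 3) true (nat_lit 14) true (nat_lit 7) (.s false (nat_lit 2) (nat_lit 20) (nat_lit 2) (nat_lit 14) (nat_lit 0) true (nat_lit 11) true (nat_lit 16) true (nat_lit 3) true (nat_lit 14) true (nat_lit 6) (.s true (nat_lit 1) (nat_lit 20) (nat_lit 3) (nat_lit 7) (nat_lit 1) true (nat_lit 8) true (nat_lit 15) true (nat_lit 3) true (nat_lit 13) true (nat_lit 9) (.s true (nat_lit 2) (nat_lit 20) (nat_lit 5) (nat_lit 4) (nat_lit 2) true (nat_lit 5) true (nat_lit 14) true (nat_lit 3) true (nat_lit 11) true (nat_lit 12) (.s true (nat_lit 2) (nat_lit 20) (nat_lit 6) (nat_lit 2) (nat_lit 3) true (nat_lit 2) true (nat_lit 13) true (nat_lit 3) true (nat_lit 10) true (nat_lit 14) (.s false (nat_lit 1) (nat_lit 20) (nat_lit 7) (nat_lit 0) (nat_lit 4) true (nat_lit 0) true (nat_lit 12) true (nat_lit 3) true (nat_lit 9) true (nat_lit 16) (.s true (nat_lit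 1) (nat_lit 20) (nat_lit 8) (nat_lit 2) (nat_lit 2) true (nat_lit 2) true (nat_lit 14) true (nat_lit 3) true (nat_lit 8) true (nat_lit 14) (.s true (nat_lit 2) (nat_lit 20) (nat_lit 9) (nat_lit 2) (nat_lit 2) true (nat_lit 2) true (nat_lit 14) true (nat_lit 3) true (nat_lit 8) true (nat_lit 14) dC2d_i314)))))))))))))))))))))))))

noncomputable def dC2d_i316 : IL := (.e false (nat_lit 1) (nat_lit 262) (nat_lit 2) (nat_lit 14) (.e false (nat_lit 3) (nat_lit 265) (nat_lit 2) (nat_lit 14) (.e false (nat_lit 1) (nat_lit 266) (nat_lit 2) (nat_lit 14) (.e false (nat_lit 1) (nat_lit 267) (nat_lit 2) (nat_lit 14) (.e false (nat_lit 3) (nat_lit 270) (nat_lit 2) (nat_lit 14) (.e true (nat_lit 1) (nat_lit 271) (nat_lit 2) (nat_lit 14) (.e false (nat_lit 2) (nat_lit 272) (nat_lit 2) (nat_lit 14) (.e false (nat_lit 2) (nat_lit 273) (nat_lit 2) (nat_lit 14) (.e true (nat_lit 1) (nat_lit 274) (nat_lit 2) (nat_lit 14) (.e false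 (nat_lit 2) (nat_lit 275) (nat_lit 2) (nat_lit 14) (.e false (nat_lit 1) (nat_lit 276) (nat_lit 2) (nat_lit 14) (.e true (nat_lit 2) (nat_lit 283) (nat_lit 2) (nat_lit 14) (.e false (nat_lit 2) (nat_lit 285) (nat_lit 2) (nat_lit 14) (.e true (nat_lit 3) (nat_lit 105) (nat_lit 8) (nat_lit 8) (.e true (nat_lit 3) (nat_lit 306) (nat_lit 1) (nat_lit 15) (.e false (nat_lit 3) (nat_lit 307) (nat_lit 1) (nat_lit 15) (.e false (nat_lit 3) (nat_lit 308) (nat_lit 1) (nat_lit 15) (.e false (nat_lit 3) (nat_lit 310) (nat_lit 1) (nat_lit 15) (.e true (nat_lit 2) (nat_lit 313) (nat_lit 1) (nat_lit 15) (.e true (nat_lit 2) (nat_lit 314) (nat_lit 1) (nat_lit 15) (.e false (nat_lit 3) (nat_lit 317) (nat_lit 1) (nat_lit 15) (.e false (nat_lit 3) (nat_lit 48) (nat_lit 24) (nat_lit 2) (.e false (nat_lit 2) (nat_lit 315) (nat_lit 1) (nat_lit 15) (.e true (nat_lit 3) (nat_lit 318) (nat_lit 1) (nat_lit 15) (.u (nat_lit 2) (.n (nat_lit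 0) (nat_lit 1) (.p (nat_lit 1) (nat_lit 1) (.p (nat_lit 2) (nat_lit 1) (.n (nat_lit 3) (nat_lit 3) (.p (nat_lit 4) (nat_lit 2) (.n (nat_lit 5) (nat_lit 1) (.p (nat_lit 6) (nat_lit 2) (.n (nat_lit 7) (nat_lit 1) (.p (nat_lit 9) (nat_lit 1) (.p (nat_lit 11) (nat_lit 2) (.n (nat_lit 12) (nat_lit 1) (.p (nat_lit 14) (nat_lit 3) (.n (nat_lit 15) (nat_lit 4) (.n (nat_lit 16) (nat_lit 4) (.p (nat_lit 17) (nat_lit 1) (.p (nat_lit 18) (nat_lit 1) (.n (nat_lit 19) (nat_lit 2) (.n (nat_lit 21) (nat_lit 1) (.p (nat_lit 23) (nat_lit 3) (.n (nat_lit 24) (nat_lit 2) (.p (nat_lit 30) (nat_lit 1) (.p (nat_lit 31) (nat_lit 1) (.p (nat_lit 34) (nat_lit 2) (.n (nat_lit 35) (nat_lit 2) (.p (nat_lit 38) (nat_lit 2) (.n (nat_lit 204) (nat_lit 1) (.n (nat_lit 206) (nat_lit 1) (.n (nat_lit 208) (nat_lit 1) (.n (nat_lit 209) (nat_lit 1) (.n (nat_lit 211) (nat_lit 1) (.p (nat_lit 212) (nat_lit 1) (.n (nat_lit 214) (nat_lit 1) (.n (nat_lit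 218) (nat_lit 1) (.n (nat_lit 219) (nat_lit 1) (.n (nat_lit 221) (nat_lit 1) (.p (nat_lit 223) (nat_lit 1) (.p (nat_lit 224) (nat_lit 1) (.p (nat_lit 225) (nat_lit 1) (.p (nat_lit 226) (nat_lit 1) (.p (nat_lit 227) (nat_lit 1) (.n (nat_lit 228) (nat_lit 1) (.p (nat_lit 229) (nat_lit 2) (.n (nat_lit 235) (nat_lit 1) (.p (nat_lit 237) (nat_lit 1) (.n (nat_lit 249) (nat_lit 1) (.p (nat_lit 250) (nat_lit 2) (.p (nat_lit 251) (nat_lit 1) .z))))))))))))))))))))))))))))))))))))))))))))))) .nil)))))))))))))))))))))))))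

noncomputable def dC2d_i317 : IL := (.e true (nat_lit 2) (nat_lit 145) (nat_lit 7) (nat_lit 9) (.e false (nat_lit 3) (nat_lit 153) (nat_lit 7) (nat_lit 9) (.e true (nat_lit 1) (nat_lit 48) (nat_lit 26) (nat_lit 2) (.e true (nat_lit 3) (nat_lit 322) (nat_lit 1) (nat_lit 15) (.e false (nat_lit 2) (nat_lit 324) (nat_lit 0) (nat_lit 16) (.e true (nat_lit 3) (nat_lit 325) (nat_lit 0) (nat_lit 16) (.e true (nat_lit 2) (nat_lit 327) (nat_lit 0) (nat_lit 16) (.e true (nat_lit 1) (nat_lit 328) (nat_lit 0) (nat_lit 16) (.e false (nat_lit 1) (nat_lit 330) (nat_lit 0) (nat_lit 16) (.e true (nat_lit 3) (nat_lit 331) (nat_lit 0) (nat_lit 16) (.e true (nat_lit 3) (nat_lit 305) (nat_lit 1) (nat_lit 15) (.e false (nat_lit 3) (nat_lit 306) (nat_lit 1) (nat_lit 15) (.e false (nat_lit 2) (nat_lit 307) (nat_lit 1) (nat_lit 15) (.e true (nat_lit 1) (nat_lit 308) (nat_lit 1) (nat_lit 15) (.e true (nat_lit 3) (nat_lit 309) (nat_lit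 1) (nat_lit 15) (.e true (nat_lit 1) (nat_lit 310) (nat_lit 1) (nat_lit 15) (.e false (nat_lit 1) (nat_lit 311) (nat_lit 1) (nat_lit 15) (.e false (nat_lit 1) (nat_lit 312) (nat_lit 1) (nat_lit 15) (.e false (nat_lit 1) (nat_lit 321) (nat_lit 1) (nat_lit 15) (.e true (nat_lit 3) (nat_lit 102) (nat_lit 11) (nat_lit 7) (.e true (nat_lit 3) (nat_lit 104) (nat_lit 11) (nat_lit 7) (.e true (nat_lit 1) (nat_lit 146) (nat_lit 7) (nat_lit 9) (.e false (nat_lit 1) (nat_lit 80) (nat_lit 19) (nat_lit 4) (.u (nat_lit 2) (.n (nat_lit 0) (nat_lit 1) (.n (nat_lit 1) (nat_lit 5) (.n (nat_lit 2) (nat_lit 5) (.p (nat_lit 3) (nat_lit 7) (.n (nat_lit 4) (nat_lit 2) (.n (nat_lit 5) (nat_lit 1) (.n (nat_lit 6) (nat_lit 2) (.n (nat_lit 7) (nat_lit 1) (.n (nat_lit 8) (nat_lit 1) (.n (nat_lit 9) (nat_lit 3) (.n (nat_lit 10) (nat_lit 1) (.p (nat_lit 11) (nat_lit 3) (.p (nat_lit 12) (nat_lit 5) (.n (nat_lit 13) (nat_lit 2) (.n (nat_lit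 14) (nat_lit 1) (.p (nat_lit 15) (nat_lit 1) (.p (nat_lit 16) (nat_lit 1) (.n (nat_lit 17) (nat_lit 5) (.p (nat_lit 18) (nat_lit 3) (.n (nat_lit 19) (nat_lit 1) (.p (nat_lit 23) (nat_lit 5) (.p (nat_lit 24) (nat_lit 1) (.n (nat_lit 25) (nat_lit 1) (.p (nat_lit 28) (nat_lit 1) (.n (nat_lit 30) (nat_lit 1) (.n (nat_lit 31) (nat_lit 1) (.n (nat_lit 34) (nat_lit 1) (.p (nat_lit 35) (nat_lit 3) (.n (nat_lit 40) (nat_lit 1) (.n (nat_lit 53) (nat_lit 1) (.p (nat_lit 66) (nat_lit 1) (.n (nat_lit 69) (nat_lit 1) (.n (nat_lit 73) (nat_lit 1) (.p (nat_lit 75) (nat_lit 1) (.n (nat_lit 78) (nat_lit 1) (.p (nat_lit 83) (nat_lit 2) (.p (nat_lit 84) (nat_lit 1) (.p (nat_lit 85) (nat_lit 1) (.n (nat_lit 87) (nat_lit 1) (.p (nat_lit 115) (nat_lit 1) (.n (nat_lit 116) (nat_lit 1) (.p (nat_lit 119) (nat_lit 1) (.p (nat_lit 122) (nat_lit 1) (.n (nat_lit 137) (nat_lit 1) (.n (nat_lit 139) (nat_lit 1) (.n (nat_lit 142) (nat_lit 1) (.p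 (nat_lit 145) (nat_lit 1) (.p (nat_lit 151) (nat_lit 1) (.p (nat_lit 157) (nat_lit 1) (.p (nat_lit 169) (nat_lit 1) (.n (nat_lit 181) (nat_lit 1) (.n (nat_lit 182) (nat_lit 1) (.n (nat_lit 205) (nat_lit 2) (.p (nat_lit 206) (nat_lit 5) (.p (nat_lit 207) (nat_lit 6) (.p (nat_lit 208) (nat_lit 5) (.n (nat_lit 209) (nat_lit 4) (.n (nat_lit 210) (nat_lit 2) (.p (nat_lit 211) (nat_lit 3) (.n (nat_lit 212) (nat_lit 8) .z)))))))))))))))))))))))))))))))))))))))))))))))))))))))))))) (.u (nat_lit 2) (.n (nat_lit 213) (nat_lit 7) (.n (nat_lit 214) (nat_lit 15) (.n (nat_lit 215) (nat_lit 1) (.n (nat_lit 216) (nat_lit 1) (.n (nat_lit 217) (nat_lit 3) (.p (nat_lit 218) (nat_lit 2) (.n (nat_lit 219) (nat_lit 1) (.p (nat_lit 221) (nat_lit 3) (.p (nat_lit 222) (nat_lit 6) (.p (nat_lit 223) (nat_lit 3) (.n (nat_lit 224) (nat_lit 2) (.p (nat_lit 226) (nat_lit 8) (.p (nat_lit 227) (nat_lit 2) (.n (nat_lit 228) (nat_lit 2) (.p (nat_lit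 229) (nat_lit 5) (.p (nat_lit 230) (nat_lit 3) (.p (nat_lit 231) (nat_lit 4) (.n (nat_lit 232) (nat_lit 5) (.p (nat_lit 234) (nat_lit 7) (.n (nat_lit 235) (nat_lit 7) (.p (nat_lit 236) (nat_lit 1) (.p (nat_lit 237) (nat_lit 10) (.p (nat_lit 238) (nat_lit 5) (.p (nat_lit 239) (nat_lit 1) (.n (nat_lit 240) (nat_lit 4) (.p (nat_lit 241) (nat_lit 2) (.n (nat_lit 243) (nat_lit 3) (.n (nat_lit 244) (nat_lit 1) (.n (nat_lit 245) (nat_lit 1) (.n (nat_lit 249) (nat_lit 1) (.p (nat_lit 250) (nat_lit 1) (.p (nat_lit 254) (nat_lit 1) (.p (nat_lit 258) (nat_lit 1) (.p (nat_lit 262) (nat_lit 1) (.n (nat_lit 263) (nat_lit 1) (.p (nat_lit 266) (nat_lit 1) (.p (nat_lit 267) (nat_lit 2) .z))))))))))))))))))))))))))))))))))))) .nil)))))))))))))))))))))))))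

noncomputable def dC2d_i318 : IL := (.e false (nat_lit 3) (nat_lit 264) (nat_lit 2) (nat_lit 14) (.e true (nat_lit 3) (nat_lit 265) (nat_lit 2) (nat_lit 14) (.e true (nat_lit 1) (nat_lit 266) (nat_lit 2) (nat_lit 14) (.e true (nat_lit 3) (nat_lit 267) (nat_lit 2) (nat_lit 14) (.e true (nat_lit 2) (nat_lit 270) (nat_lit 2) (nat_lit 14) (.e false (nat_lit 1) (nat_lit 272) (nat_lit 2) (nat_lit 14) (.e false (nat_lit 2) (nat_lit 273) (nat_lit 2) (nat_lit 14) (.e true (nat_lit 3) (nat_lit 274) (nat_lit 2) (nat_lit 14) (.e true (nat_lit 1) (nat_lit 277) (nat_lit 2) (nat_lit 14) (.e true (nat_lit 1) (nat_lit 283) (nat_lit 2) (nat_lit 14) (.e true (nat_lit 2) (nat_lit 285) (nat_lit 2) (nat_lit 14) (.e false (nat_lit 3) (nat_lit 134) (nat_lit 7) (nat_lit 9) (.e true (nat_lit 1) (nat_lit 138) (nat_lit 7) (nat_lit 9) (.e false (nat_lit 3) (nat_lit 140) (nat_lit 7) (nat_lit 9) (.e true (nat_lit 1) (nat_lit 141) (nat_lit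 7) (nat_lit 9) (.e false (nat_lit 1) (nat_lit 144) (nat_lit 7) (nat_lit 9) (.e true (nat_lit 1) (nat_lit 257) (nat_lit 2) (nat_lit 14) (.e true (nat_lit 2) (nat_lit 269) (nat_lit 2) (nat_lit 14) (.e true (nat_lit 3) (nat_lit 317) (nat_lit 1) (nat_lit 15) (.e true (nat_lit 3) (nat_lit 284) (nat_lit 2) (nat_lit 14) (.e false (nat_lit 1) (nat_lit 72) (nat_lit 20) (nat_lit 3) (.e false (nat_lit 3) (nat_lit 315) (nat_lit 1) (nat_lit 15) (.e false (nat_lit 1) (nat_lit 66) (nat_lit 20) (nat_lit 3) (.e true (nat_lit 1) (nat_lit 73) (nat_lit 20) (nat_lit 3) (.e false (nat_lit 2) (nat_lit 136) (nat_lit 7) (nat_lit 9) dC2d_i317)))))))))))))))))))))))))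

noncomputable def dC2d_i319 : IL := (.s false (nat_lit 2) (nat_lit 82) (nat_lit 1) (nat_lit 2) (nat_lit 2) true (nat_lit 10) true (nat_lit 14) false (nat_lit 4) true (nat_lit 15) true (nat_lit 14) (.s true (nat_lit 3) (nat_lit 89) (nat_lit 1) (nat_lit 2) (nat_lit 2) true (nat_lit 10) true (nat_lit 14) false (nat_lit 4) true (nat_lit 15) true (nat_lit 14) (.s true (nat_lit 3) (nat_lit 90) (nat_lit 1) (nat_lit 2) (nat_lit 2) true (nat_lit 10) true (nat_lit 14) false (nat_lit 4) true (nat_lit 15) true (nat_lit 14) (.s true (nat_lit 1) (nat_lit 80) (nat_lit 2) (nat_lit 1) (nat_lit 2) true (nat_lit 9) true (nat_lit 14) false (nat_lit 4) true (nat_lit 14) true (nat_lit 15) (.s false (nat_lit 3) (nat_lit 81) (nat_lit 2) (nat_lit 1) (nat_lit 2) true (nat_lit 9) true (nat_lit 14) false (nat_lit 4) true (nat_lit 14) true (nat_lit 15) (.s false (nat_lit 3) (nat_lit 89) (nat_lit 2) (nat_lit 1) (nat_lit 2) true (nat_lit 9)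 true (nat_lit 14) false (nat_lit 4) true (nat_lit 14) true (nat_lit 15) (.s true (nat_lit 1) (nat_lit 80) (nat_lit 2) (nat_lit 2) (nat_lit 1) true (nat_lit 10) true (nat_lit 15) false (nat_lit 4) true (nat_lit 14) true (nat_lit 14) (.s false (nat_lit 3) (nat_lit 81) (nat_lit 2) (nat_lit 2) (nat_lit 1) true (nat_lit 10) true (nat_lit 15) false (nat_lit 4) true (nat_lit 14) true (nat_lit 14) (.s false (nat_lit 1) (nat_lit 90) (nat_lit 2) (nat_lit 2) (nat_lit 1) true (nat_lit 10) true (nat_lit 15) false (nat_lit 4) true (nat_lit 14) true (nat_lit 14) (.s false (nat_lit 2) (nat_lit 91) (nat_lit 0) (nat_lit 2) (nat_lit 2) true (nat_lit 11) true (nat_lit 14) false (nat_lit 5) true (nat_lit 16) true (nat_lit 14) (.s false (nat_lit 1) (nat_lit 92) (nat_lit 0) (nat_lit 2) (nat_lit 2) true (nat_lit 11) true (nat_lit 14) false (nat_lit 5) true (nat_lit 16) true (nat_lit 14) (.s true (nat_lit 1) (nat_lit 93) (nat_lit 0) (nat_lit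 2) (nat_lit 2) true (nat_lit 11) true (nat_lit 14) false (nat_lit 5) true (nat_lit 16) true (nat_lit 14) (.s true (nat_lit 1) (nat_lit 96) (nat_lit 2) (nat_lit 2) (nat_lit 0) true (nat_lit 11) true (nat_lit 16) false (nat_lit 5) true (nat_lit 14) true (nat_lit 14) (.s false (nat_lit 3) (nat_lit 102) (nat_lit 1) (nat_lit 2) (nat_lit 0) true (nat_lit 13) true (nat_lit 16) false (nat_lit 7) true (nat_lit 15) true (nat_lit 14) (.s true (nat_lit 2) (nat_lit 103) (nat_lit 1) (nat_lit 2) (nat_lit 0) true (nat_lit 13) true (nat_lit 16) false (nat_lit 7) true (nat_lit 15) true (nat_lit 14) (.s false (nat_lit 3) (nat_lit 104) (nat_lit 1) (nat_lit 2) (nat_lit 0) true (nat_lit 13) true (nat_lit 16) false (nat_lit 7) true (nat_lit 15) true (nat_lit 14) (.s false (nat_lit 2) (nat_lit 105) (nat_lit 0) (nat_lit 1) (nat_lit 1) true (nat_lit 13) true (nat_lit 15) false (nat_lit 8) true (nat_lit 16) true (nat_lit 15) (.e false (nat_lit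 2) (nat_lit 252) (nat_lit 2) (nat_lit 14) (.e true (nat_lit 2) (nat_lit 253) (nat_lit 2) (nat_lit 14) (.e false (nat_lit 2) (nat_lit 254) (nat_lit 2) (nat_lit 14) (.e true (nat_lit 3) (nat_lit 255) (nat_lit 2) (nat_lit 14) (.e false (nat_lit 2) (nat_lit 258) (nat_lit 2) (nat_lit 14) (.e false (nat_lit 1) (nat_lit 259) (nat_lit 2) (nat_lit 14) (.e false (nat_lit 1) (nat_lit 261) (nat_lit 2) (nat_lit 14) (.e true (nat_lit 3) (nat_lit 263) (nat_lit 2) (nat_lit 14) dC2d_i318)))))))))))))))))))))))))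

noncomputable def dC2d_i320 : IL := (.s false (nat_lit 2) (nat_lit 27) (nat_lit 2) (nat_lit 7) (nat_lit 2) true (nat_lit 9) true (nat_lit 14) true (nat_lit 2) true (nat_lit 14) true (nat_lit 9) (.s true (nat_lit 2) (nat_lit 27) (nat_lit 7) (nat_lit 2) (nat_lit 2) true (nat_lit 3) true (nat_lit 14) true (nat_lit 2) true (nat_lit 9) true (nat_lit 14) (.s true (nat_lit 2) (nat_lit 35) (nat_lit 1) (nat_lit 2) (nat_lit 7) true (nat_lit 4) true (nat_lit 9) true (nat_lit 1) true (nat_lit 15) true (nat_lit 14) (.s false (nat_lit 1) (nat_lit 34) (nat_lit 1) (nat_lit 7) (nat_lit 2) true (nat_lit 10) true (nat_lit 14) true (nat_lit 1) true (nat_lit 15) true (nat_lit 9) (.s false (nat_lit 1) (nat_lit 34) (nat_lit 2) (nat_lit 2) (nat_lit 6) true (nat_lit 4) true (nat_lit 10) true (nat_lit 1) true (nat_lit 14) true (nat_lit 14) (.s true (nat_lit 2) (nat_lit 35) (nat_lit 2) (nat_lit 2) (nat_lit 6) true (nat_lit 4) true (nat_lit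 10) true (nat_lit 1) true (nat_lit 14) true (nat_lit 14) (.s false (nat_lit 3) (nat_lit 34) (nat_lit 2) (nat_lit 6) (nat_lit 2) true (nat_lit 9) true (nat_lit 14) true (nat_lit 1) true (nat_lit 14) true (nat_lit 10) (.s false (nat_lit 3) (nat_lit 34) (nat_lit 2) (nat_lit 7) (nat_lit 1) true (nat_lit 10) true (nat_lit 15) true (nat_lit 1) true (nat_lit 14) true (nat_lit 9) (.s false (nat_lit 2) (nat_lit 35) (nat_lit 2) (nat_lit 7) (nat_lit 1) true (nat_lit 10) true (nat_lit 15) true (nat_lit 1) true (nat_lit 14) true (nat_lit 9) (.s false (nat_lit 3) (nat_lit 39) (nat_lit 0) (nat_lit 2) (nat_lit 7) true (nat_lit 5) true (nat_lit 9) true (nat_lit 0) true (nat_lit 16) true (nat_lit 14) (.s false (nat_lit 1) (nat_lit 40) (nat_lit 0) (nat_lit 2) (nat_lit 7) true (nat_lit 5) true (nat_lit 9) true (nat_lit 0) true (nat_lit 16) true (nat_lit 14) (.s true (nat_lit 1) (nat_lit 41) (nat_lit 0) (nat_lit 2) (nat_lit 7) true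 (nat_lit 5) true (nat_lit 9) true (nat_lit 0) true (nat_lit 16) true (nat_lit 14) (.s true (nat_lit 2) (nat_lit 39) (nat_lit 2) (nat_lit 2) (nat_lit 5) true (nat_lit 5) true (nat_lit 11) true (nat_lit 0) true (nat_lit 14) true (nat_lit 14) (.s true (nat_lit 1) (nat_lit 40) (nat_lit 2) (nat_lit 2) (nat_lit 5) true (nat_lit 5) true (nat_lit 11) true (nat_lit 0) true (nat_lit 14) true (nat_lit 14) (.s false (nat_lit 1) (nat_lit 41) (nat_lit 2) (nat_lit 2) (nat_lit 5) true (nat_lit 5) true (nat_lit 11) true (nat_lit 0) true (nat_lit 14) true (nat_lit 14) (.s false (nat_lit 2) (nat_lit 39) (nat_lit 2) (nat_lit 7) (nat_lit 0) true (nat_lit 11) true (nat_lit 16) true (nat_lit 0) true (nat_lit 14) true (nat_lit 9) (.s true (nat_lit 3) (nat_lit 39) (nat_lit 5) (nat_lit 2) (nat_lit 2) true (nat_lit 5) true (nat_lit 14) true (nat_lit 0) true (nat_lit 11) true (nat_lit 14) (.s true (nat_lit 3) (nat_lit 44) (nat_lit 4) (nat_lit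 2) (nat_lit 2) true (nat_lit 6) true (nat_lit 14) false (nat_lit 0) true (nat_lit 12) true (nat_lit 14) (.s true (nat_lit 1) (nat_lit 48) (nat_lit 1) (nat_lit 2) (nat_lit 3) true (nat_lit 8) true (nat_lit 13) false (nat_lit 2) true (nat_lit 15) true (nat_lit 14) (.s true (nat_lit 2) (nat_lit 48) (nat_lit 2) (nat_lit 1) (nat_lit 3) true (nat_lit 7) true (nat_lit 13) false (nat_lit 2) true (nat_lit 14) true (nat_lit 15) (.s true (nat_lit 1) (nat_lit 48) (nat_lit 3) (nat_lit 1) (nat_lit 2) true (nat_lit 7) true (nat_lit 14) false (nat_lit 2) true (nat_lit 13) true (nat_lit 15) (.s false (nat_lit 1) (nat_lit 48) (nat_lit 3) (nat_lit 2) (nat_lit 1) true (nat_lit 8) true (nat_lit 15) false (nat_lit 2) true (nat_lit 13) true (nat_lit 14) (.s false (nat_lit 2) (nat_lit 70) (nat_lit 2) (nat_lit 2) (nat_lit 2) true (nat_lit 9) true (nat_lit 14) false (nat_lit 3) true (nat_lit 14) true (nat_lit 14) (.s true (nat_lit 2) (nat_lit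 71) (nat_lit 2) (nat_lit 2) (nat_lit 2) true (nat_lit 9) true (nat_lit 14) false (nat_lit 3) true (nat_lit 14) true (nat_lit 14) (.s false (nat_lit 1) (nat_lit 80) (nat_lit 1) (nat_lit 2) (nat_lit 2) true (nat_lit 10) true (nat_lit 14) false (nat_lit 4) true (nat_lit 15) true (nat_lit 14) dC2d_i319)))))))))))))))))))))))))

noncomputable def dC2d_i321 : IL := (.s true (nat_lit 3) (nat_lit 13) (nat_lit 2) (nat_lit 7) (nat_lit 6) true (nat_lit 4) true (nat_lit 10) true (nat_lit 7) true (nat_lit 14) true (nat_lit 9) (.s true (nat_lit 3) (nat_lit 12) (nat_lit 6) (nat_lit 2) (nat_lit 7) false (nat_lit 1) true (nat_lit 9) true (nat_lit 7) true (nat_lit 10) true (nat_lit 14) (.s false (nat_lit 3) (nat_lit 13) (nat_lit 6) (nat_lit 2) (nat_lit 7) false (nat_lit 1) true (nat_lit 9) true (nat_lit 7) true (nat_lit 10) true (nat_lit 14) (.s true (nat_lit 3) (nat_lit 12) (nat_lit 7) (nat_lit 7) (nat_lit 1) true (nat_lit 4)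 true (nat_lit 15) true (nat_lit 7) true (nat_lit 9) true (nat_lit 9) (.s true (nat_lit 3) (nat_lit 17) (nat_lit 2) (nat_lit 2) (nat_lit 14) true (nat_lit 0) true (nat_lit 6) true (nat_lit 5) true (nat_lit 14) true (nat_lit 14) (.s false (nat_lit 3) (nat_lit 16) (nat_lit 14) (nat_lit 2) (nat_lit 2) true (nat_lit 0) true (nat_lit 14) true (nat_lit 5) true (nat_lit 6) true (nat_lit 14) (.s true (nat_lit 3) (nat_lit 17) (nat_lit 14) (nat_lit 2) (nat_lit 2) true (nat_lit 0) true (nat_lit 14) true (nat_lit 5) true (nat_lit 6) true (nat_lit 14) (.s false (nat_lit 3) (nat_lit 19) (nat_lit 2) (nat_lit 2) (nat_lit 12) true (nat_lit 1) true (nat_lit 7) true (nat_lit 4) true (nat_lit 14) true (nat_lit 14) (.s true (nat_lit 1) (nat_lit 19) (nat_lit 2) (nat_lit 2) (nat_lit 13) true (nat_lit 1) true (nat_lit 7) true (nat_lit 4) true (nat_lit 14) true (nat_lit 14) (.s true (nat_lit 3) (nat_lit 19) (nat_lit 2) (nat_lit 12) (nat_lit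 2) true (nat_lit 9) true (nat_lit 14) true (nat_lit 4) true (nat_lit 14) true (nat_lit 7) (.s true (nat_lit 3) (nat_lit 18) (nat_lit 12) (nat_lit 2) (nat_lit 2) true (nat_lit 1) true (nat_lit 14) true (nat_lit 4) true (nat_lit 7) true (nat_lit 14) (.s true (nat_lit 2) (nat_lit 19) (nat_lit 13) (nat_lit 2) (nat_lit 2) true (nat_lit 1) true (nat_lit 14) true (nat_lit 4) true (nat_lit 7) true (nat_lit 14) (.s true (nat_lit 2) (nat_lit 20) (nat_lit 1) (nat_lit 13) (nat_lit 2) true (nat_lit 10) true (nat_lit 14) true (nat_lit 3) true (nat_lit 15) true (nat_lit 7) (.s true (nat_lit 2) (nat_lit 20) (nat_lit 2) (nat_lit 2) (nat_lit 8) true (nat_lit 2) true (nat_lit 8) true (nat_lit 3) true (nat_lit 14) true (nat_lit 14) (.s true (nat_lit 3) (nat_lit 20) (nat_lit 2) (nat_lit 13) (nat_lit 1) true (nat_lit 10) true (nat_lit 15) true (nat_lit 3) true (nat_lit 14) true (nat_lit 7) (.s true (nat_lit 1) (nat_lit 20) (nat_lit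 2) (nat_lit 14) (nat_lit 0) true (nat_lit 11) true (nat_lit 16) true (nat_lit 3) true (nat_lit 14) true (nat_lit 6) (.s false (nat_lit 3) (nat_lit 20) (nat_lit 7) (nat_lit 4) (nat_lit 0) true (nat_lit 5) true (nat_lit 16) true (nat_lit 3) true (nat_lit 9) true (nat_lit 12) (.s true (nat_lit 1) (nat_lit 20) (nat_lit 8) (nat_lit 2) (nat_lit 2) true (nat_lit 2) true (nat_lit 14) true (nat_lit 3) true (nat_lit 8) true (nat_lit 14) (.s false (nat_lit 1) (nat_lit 20) (nat_lit 13) (nat_lit 1) (nat_lit 2) true (nat_lit 1) true (nat_lit 14) true (nat_lit 3) true (nat_lit 7) true (nat_lit 15) (.s true (nat_lit 3) (nat_lit 20) (nat_lit 13) (nat_lit 2) (nat_lit 1) true (nat_lit 2) true (nat_lit 15) true (nat_lit 3) true (nat_lit 7) true (nat_lit 14) (.s false (nat_lit 3) (nat_lit 20) (nat_lit 14) (nat_lit 2) (nat_lit 0) true (nat_lit 2) true (nat_lit 16) true (nat_lit 3) true (nat_lit 6) true (nat_lit 14) (.s true (nat_lit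 1) (nat_lit 24) (nat_lit 2) (nat_lit 2) (nat_lit 7) true (nat_lit 3) true (nat_lit 9) true (nat_lit 2) true (nat_lit 14) true (nat_lit 14) (.s false (nat_lit 1) (nat_lit 25) (nat_lit 2) (nat_lit 2) (nat_lit 7) true (nat_lit 3) true (nat_lit 9) true (nat_lit 2) true (nat_lit 14) true (nat_lit 14) (.s false (nat_lit 1) (nat_lit 27) (nat_lit 2) (nat_lit 2) (nat_lit 7) true (nat_lit 3) true (nat_lit 9) true (nat_lit 2) true (nat_lit 14) true (nat_lit 14) (.s true (nat_lit 3) (nat_lit 28) (nat_lit 2) (nat_lit 2) (nat_lit 7) true (nat_lit 3) true (nat_lit 9) true (nat_lit 2) true (nat_lit 14) true (nat_lit 14) dC2d_i320)))))))))))))))))))))))))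

noncomputable def dC2d_i322 : IL := (.e false (nat_lit 1) (nat_lit 259) (nat_lit 2) (nat_lit 14) (.e true (nat_lit 1) (nat_lit 261) (nat_lit 2) (nat_lit 14) (.e false (nat_lit 3) (nat_lit 283) (nat_lit 2) (nat_lit 14) (.e false (nat_lit 3) (nat_lit 140) (nat_lit 7) (nat_lit 9) (.e true (nat_lit 3) (nat_lit 257) (nat_lit 2) (nat_lit 14) (.e true (nat_lit 1) (nat_lit 313) (nat_lit 1) (nat_lit 15) (.e false (nat_lit 2) (nat_lit 329) (nat_lit 0) (nat_lit 16) (.e false (nat_lit 2) (nat_lit 324) (nat_lit 0) (nat_lit 16) (.e false (nat_lit 2) (nat_lit 325) (nat_lit 0) (nat_lit 16) (.e true (nat_lit 3) (nat_lit 326) (nat_lit 0) (nat_lit 16) (.e false (nat_lit 2) (nat_lit 327) (nat_lit 0) (nat_lit 16) (.e false (nat_lit 1) (nat_lit 328) (nat_lit 0) (nat_lit 16) (.e false (nat_lit 2) (nat_lit 330) (nat_lit 0) (nat_lit 16) (.e false (nat_lit 1) (nat_lit 331) (nat_lit 0) (nat_lit 16) (.e false (nat_lit 3) (nat_lit 284) (nat_lit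 2) (nat_lit 14) (.e false (nat_lit 3) (nat_lit 72) (nat_lit 20) (nat_lit 3) (.e false (nat_lit 2) (nat_lit 318) (nat_lit 1) (nat_lit 15) (.e false (nat_lit 3) (nat_lit 306) (nat_lit 1) (nat_lit 15) (.e true (nat_lit 2) (nat_lit 307) (nat_lit 1) (nat_lit 15) (.e true (nat_lit 3) (nat_lit 308) (nat_lit 1) (nat_lit 15) (.e true (nat_lit 3) (nat_lit 309) (nat_lit 1) (nat_lit 15) (.e true (nat_lit 2) (nat_lit 310) (nat_lit 1) (nat_lit 15) (.e false (nat_lit 1) (nat_lit 315) (nat_lit 1) (nat_lit 15) (.u (nat_lit 2) (.n (nat_lit 0) (nat_lit 2) (.n (nat_lit 2) (nat_lit 2) (.n (nat_lit 3) (nat_lit 2) (.p (nat_lit 4) (nat_lit 1) (.n (nat_lit 5) (nat_lit 1) (.p (nat_lit 7) (nat_lit 1) (.p (nat_lit 8) (nat_lit 1) (.n (nat_lit 10) (nat_lit 1) (.n (nat_lit 11) (nat_lit 1) (.n (nat_lit 15) (nat_lit 1) (.n (nat_lit 16) (nat_lit 1) (.p (nat_lit 18) (nat_lit 3) (.n (nat_lit 19) (nat_lit 3) (.p (nat_lit 23) (nat_lit 1) (.n (nat_lit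 24) (nat_lit 2) (.p (nat_lit 27) (nat_lit 1) (.p (nat_lit 28) (nat_lit 1) (.p (nat_lit 34) (nat_lit 1) (.p (nat_lit 35) (nat_lit 2) (.p (nat_lit 44) (nat_lit 1) (.n (nat_lit 47) (nat_lit 1) (.n (nat_lit 49) (nat_lit 1) (.n (nat_lit 68) (nat_lit 1) (.n (nat_lit 71) (nat_lit 1) (.p (nat_lit 72) (nat_lit 1) (.p (nat_lit 77) (nat_lit 1) (.p (nat_lit 80) (nat_lit 1) (.p (nat_lit 83) (nat_lit 1) (.p (nat_lit 85) (nat_lit 1) (.p (nat_lit 86) (nat_lit 1) (.n (nat_lit 87) (nat_lit 1) (.n (nat_lit 94) (nat_lit 1) (.p (nat_lit 98) (nat_lit 1) (.p (nat_lit 127) (nat_lit 1) (.n (nat_lit 131) (nat_lit 1) (.n (nat_lit 138) (nat_lit 1) (.n (nat_lit 142) (nat_lit 6) (.p (nat_lit 143) (nat_lit 6) (.n (nat_lit 144) (nat_lit 7) (.n (nat_lit 145) (nat_lit 1) (.n (nat_lit 146) (nat_lit 5) (.p (nat_lit 147) (nat_lit 1) (.p (nat_lit 148) (nat_lit 4) (.n (nat_lit 149) (nat_lit 4) (.p (nat_lit 150) (nat_lit 2) (.n (nat_lit 151) (nat_lit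 4) (.p (nat_lit 153) (nat_lit 1) (.p (nat_lit 154) (nat_lit 3) (.p (nat_lit 157) (nat_lit 1) (.p (nat_lit 159) (nat_lit 6) (.p (nat_lit 160) (nat_lit 4) (.p (nat_lit 161) (nat_lit 2) (.n (nat_lit 162) (nat_lit 4) (.n (nat_lit 163) (nat_lit 4) (.p (nat_lit 164) (nat_lit 4) (.p (nat_lit 165) (nat_lit 6) (.n (nat_lit 166) (nat_lit 3) (.p (nat_lit 167) (nat_lit 5) (.n (nat_lit 168) (nat_lit 1) (.p (nat_lit 178) (nat_lit 1) .z)))))))))))))))))))))))))))))))))))))))))))))))))))))))))))) (.u (nat_lit 2) (.n (nat_lit 180) (nat_lit 1) (.p (nat_lit 200) (nat_lit 1) (.n (nat_lit 201) (nat_lit 1) (.n (nat_lit 204) (nat_lit 6) (.n (nat_lit 205) (nat_lit 6) (.n (nat_lit 206) (nat_lit 12) (.n (nat_lit 207) (nat_lit 1) (.p (nat_lit 208) (nat_lit 9) (.n (nat_lit 209) (nat_lit 2) (.p (nat_lit 211) (nat_lit 12) (.n (nat_lit 212) (nat_lit 17) (.p (nat_lit 213) (nat_lit 14) (.p (nat_lit 214) (nat_lit 1) (.p (nat_lit 215) (nat_lit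 3) (.n (nat_lit 216) (nat_lit 4) (.n (nat_lit 217) (nat_lit 4) (.p (nat_lit 218) (nat_lit 6) (.p (nat_lit 219) (nat_lit 6) (.p (nat_lit 221) (nat_lit 11) (.p (nat_lit 222) (nat_lit 14) (.n (nat_lit 223) (nat_lit 4) (.n (nat_lit 224) (nat_lit 5) (.n (nat_lit 225) (nat_lit 7) (.p (nat_lit 226) (nat_lit 6) (.n (nat_lit 227) (nat_lit 6) (.p (nat_lit 228) (nat_lit 2) (.p (nat_lit 229) (nat_lit 1) (.n (nat_lit 230) (nat_lit 1) (.n (nat_lit 232) (nat_lit 4) (.n (nat_lit 234) (nat_lit 7) (.n (nat_lit 235) (nat_lit 2) (.n (nat_lit 236) (nat_lit 1) (.n (nat_lit 237) (nat_lit 2) (.p (nat_lit 238) (nat_lit 5) (.n (nat_lit 239) (nat_lit 1) (.n (nat_lit 240) (nat_lit 5) (.n (nat_lit 241) (nat_lit 1) (.n (nat_lit 242) (nat_lit 1) (.n (nat_lit 243) (nat_lit 2) (.n (nat_lit 244) (nat_lit 3) (.n (nat_lit 246) (nat_lit 4) (.n (nat_lit 247) (nat_lit 3) (.n (nat_lit 248) (nat_lit 3) (.n (nat_lit 249) (nat_lit 1) (.p (nat_lit 250)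 (nat_lit 5) (.p (nat_lit 251) (nat_lit 5) (.p (nat_lit 253) (nat_lit 2) (.n (nat_lit 254) (nat_lit 5) (.n (nat_lit 257) (nat_lit 1) (.n (nat_lit 261) (nat_lit 2) (.p (nat_lit 263) (nat_lit 1) (.n (nat_lit 264) (nat_lit 1) (.p (nat_lit 265) (nat_lit 3) (.p (nat_lit 266) (nat_lit 2) .z)))))))))))))))))))))))))))))))))))))))))))))))))))))) .nil)))))))))))))))))))))))))

noncomputable def dC2d_i323 : IL := (.s true (nat_lit 1) (nat_lit 80) (nat_lit 2) (nat_lit 2) (nat_lit 1) true (nat_lit 10) true (nat_lit 15) false (nat_lit 4) true (nat_lit 14) true (nat_lit 14) (.s true (nat_lit 3) (nat_lit 81) (nat_lit 2) (nat_lit 2) (nat_lit 1) true (nat_lit 10) true (nat_lit 15) false (nat_lit 4) true (nat_lit 14) true (nat_lit 14) (.s true (nat_lit 1) (nat_lit 82) (nat_lit 2) (nat_lit 2) (nat_lit 1) true (nat_lit 10) true (nat_lit 15) false (nat_lit 4) true (nat_lit 14) true (nat_lit 14) (.s true (nat_lit 1) (nat_lit 85) (nat_lit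 2) (nat_lit 2) (nat_lit 1) true (nat_lit 10) true (nat_lit 15) false (nat_lit 4) true (nat_lit 14) true (nat_lit 14) (.s false (nat_lit 1) (nat_lit 90) (nat_lit 2) (nat_lit 2) (nat_lit 1) true (nat_lit 10) true (nat_lit 15) false (nat_lit 4) true (nat_lit 14) true (nat_lit 14) (.s true (nat_lit 2) (nat_lit 91) (nat_lit 0) (nat_lit 2) (nat_lit 2) true (nat_lit 11) true (nat_lit 14) false (nat_lit 5) true (nat_lit 16) true (nat_lit 14) (.s true (nat_lit 3) (nat_lit 93) (nat_lit 0) (nat_lit 2) (nat_lit 2) true (nat_lit 11) true (nat_lit 14) false (nat_lit 5) true (nat_lit 16) true (nat_lit 14) (.s false (nat_lit 1) (nat_lit 92) (nat_lit 2) (nat_lit 0) (nat_lit 2) true (nat_lit 9) true (nat_lit 14) false (nat_lit 5) true (nat_lit 14) true (nat_lit 16) (.s true (nat_lit 1) (nat_lit 92) (nat_lit 2) (nat_lit 2) (nat_lit 0) true (nat_lit 11) true (nat_lit 16) false (nat_lit 5) true (nat_lit 14) true (nat_lit 14) (.s true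 (nat_lit 2) (nat_lit 96) (nat_lit 2) (nat_lit 2) (nat_lit 0) true (nat_lit 11) true (nat_lit 16) false (nat_lit 5) true (nat_lit 14) true (nat_lit 14) (.s true (nat_lit 2) (nat_lit 103) (nat_lit 0) (nat_lit 1) (nat_lit 2) true (nat_lit 11) true (nat_lit 14) false (nat_lit 7) true (nat_lit 16) true (nat_lit 15) (.s false (nat_lit 3) (nat_lit 102) (nat_lit 0) (nat_lit 2) (nat_lit 1) true (nat_lit 13) true (nat_lit 15) false (nat_lit 7) true (nat_lit 16) true (nat_lit 14) (.s false (nat_lit 3) (nat_lit 104) (nat_lit 0) (nat_lit 2) (nat_lit 1) true (nat_lit 13) true (nat_lit 15) false (nat_lit 7) true (nat_lit 16) true (nat_lit 14) (.s false (nat_lit 1) (nat_lit 102) (nat_lit 1) (nat_lit 2) (nat_lit 0) true (nat_lit 13) true (nat_lit 16) false (nat_lit 7) true (nat_lit 15) true (nat_lit 14) (.s true (nat_lit 3) (nat_lit 103) (nat_lit 1) (nat_lit 2) (nat_lit 0) true (nat_lit 13) true (nat_lit 16) false (nat_lit 7)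 true (nat_lit 15) true (nat_lit 14) (.s false (nat_lit 1) (nat_lit 104) (nat_lit 1) (nat_lit 2) (nat_lit 0) true (nat_lit 13) true (nat_lit 16) false (nat_lit 7) true (nat_lit 15) true (nat_lit 14) (.s false (nat_lit 2) (nat_lit 103) (nat_lit 2) (nat_lit 1) (nat_lit 0) true (nat_lit 11) true (nat_lit 16) false (nat_lit 7) true (nat_lit 14) true (nat_lit 15) (.e true (nat_lit 1) (nat_lit 154) (nat_lit 7) (nat_lit 9) (.e true (nat_lit 1) (nat_lit 144) (nat_lit 7) (nat_lit 9) (.e true (nat_lit 3) (nat_lit 254) (nat_lit 2) (nat_lit 14) (.e false (nat_lit 2) (nat_lit 265) (nat_lit 2) (nat_lit 14) (.e false (nat_lit 2) (nat_lit 272) (nat_lit 2) (nat_lit 14) (.e true (nat_lit 1) (nat_lit 285) (nat_lit 2) (nat_lit 14) (.e true (nat_lit 1) (nat_lit 252) (nat_lit 2) (nat_lit 14) (.e false (nat_lit 3) (nat_lit 255) (nat_lit 2) (nat_lit 14) dC2d_i322)))))))))))))))))))))))))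

noncomputable def dC2d_i324 : IL := (.s false (nat_lit 1) (nat_lit 47) (nat_lit 7) (nat_lit 0) (nat_lit 1) true (nat_lit 4) true (nat_lit 15) false (nat_lit 1) true (nat_lit 9) true (nat_lit 16) (.s true (nat_lit 1) (nat_lit 48) (nat_lit 2) (nat_lit 1) (nat_lit 3) true (nat_lit 7) true (nat_lit 13) false (nat_lit 2) true (nat_lit 14) true (nat_lit 15) (.s true (nat_lit 1) (nat_lit 48) (nat_lit 3) (nat_lit 1) (nat_lit 2) true (nat_lit 7) true (nat_lit 14) false (nat_lit 2) true (nat_lit 13) true (nat_lit 15) (.s false (nat_lit 2) (nat_lit 48) (nat_lit 3) (nat_lit 2) (nat_lit 1) true (nat_lit 8) true (nat_lit 15) false (nat_lit 2) true (nat_lit 13) true (nat_lit 14) (.s false (nat_lit 3) (nat_lit 48) (nat_lit 6) (nat_lit 0) (nat_lit 1) true (nat_lit 6) true (nat_lit 15) false (nat_lit 2) true (nat_lit 10) true (nat_lit 16) (.s false (nat_lit 2) (nat_lit 48) (nat_lit 6) (nat_lit 1) (nat_lit 0) true (nat_lit 7) true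 (nat_lit 16) false (nat_lit 2) true (nat_lit 10) true (nat_lit 15) (.s true (nat_lit 1) (nat_lit 66) (nat_lit 2) (nat_lit 2) (nat_lit 2) true (nat_lit 9) true (nat_lit 14) false (nat_lit 3) true (nat_lit 14) true (nat_lit 14) (.s true (nat_lit 1) (nat_lit 68) (nat_lit 2) (nat_lit 2) (nat_lit 2) true (nat_lit 9) true (nat_lit 14) false (nat_lit 3) true (nat_lit 14) true (nat_lit 14) (.s false (nat_lit 3) (nat_lit 69) (nat_lit 2) (nat_lit 2) (nat_lit 2) true (nat_lit 9) true (nat_lit 14) false (nat_lit 3) true (nat_lit 14) true (nat_lit 14) (.s true (nat_lit 2) (nat_lit 71) (nat_lit 2) (nat_lit 2) (nat_lit 2) true (nat_lit 9) true (nat_lit 14) false (nat_lit 3) true (nat_lit 14) true (nat_lit 14) (.s true (nat_lit 1) (nat_lit 73) (nat_lit 2) (nat_lit 2) (nat_lit 2) true (nat_lit 9) true (nat_lit 14) false (nat_lit 3) true (nat_lit 14) true (nat_lit 14) (.s true (nat_lit 3) (nat_lit 80) (nat_lit 1) (nat_lit 2) (nat_lit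 2) true (nat_lit 10) true (nat_lit 14) false (nat_lit 4) true (nat_lit 15) true (nat_lit 14) (.s false (nat_lit 1) (nat_lit 81) (nat_lit 1) (nat_lit 2) (nat_lit 2) true (nat_lit 10) true (nat_lit 14) false (nat_lit 4) true (nat_lit 15) true (nat_lit 14) (.s false (nat_lit 3) (nat_lit 82) (nat_lit 1) (nat_lit 2) (nat_lit 2) true (nat_lit 10) true (nat_lit 14) false (nat_lit 4) true (nat_lit 15) true (nat_lit 14) (.s false (nat_lit 2) (nat_lit 83) (nat_lit 1) (nat_lit 2) (nat_lit 2) true (nat_lit 10) true (nat_lit 14) false (nat_lit 4) true (nat_lit 15) true (nat_lit 14) (.s false (nat_lit 1) (nat_lit 84) (nat_lit 1) (nat_lit 2) (nat_lit 2) true (nat_lit 10) true (nat_lit 14) false (nat_lit 4) true (nat_lit 15) true (nat_lit 14) (.s false (nat_lit 3) (nat_lit 85) (nat_lit 1) (nat_lit 2) (nat_lit 2) true (nat_lit 10) true (nat_lit 14) false (nat_lit 4) true (nat_lit 15) true (nat_lit 14) (.s false (nat_lit 3) (nat_lit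 88) (nat_lit 1) (nat_lit 2) (nat_lit 2) true (nat_lit 10) true (nat_lit 14) false (nat_lit 4) true (nat_lit 15) true (nat_lit 14) (.s true (nat_lit 3) (nat_lit 89) (nat_lit 1) (nat_lit 2) (nat_lit 2) true (nat_lit 10) true (nat_lit 14) false (nat_lit 4) true (nat_lit 15) true (nat_lit 14) (.s false (nat_lit 3) (nat_lit 90) (nat_lit 1) (nat_lit 2) (nat_lit 2) true (nat_lit 10) true (nat_lit 14) false (nat_lit 4) true (nat_lit 15) true (nat_lit 14) (.s true (nat_lit 1) (nat_lit 80) (nat_lit 2) (nat_lit 1) (nat_lit 2) true (nat_lit 9) true (nat_lit 14) false (nat_lit 4) true (nat_lit 14) true (nat_lit 15) (.s false (nat_lit 3) (nat_lit 81) (nat_lit 2) (nat_lit 1) (nat_lit 2) true (nat_lit 9) true (nat_lit 14) false (nat_lit 4) true (nat_lit 14) true (nat_lit 15) (.s false (nat_lit 1) (nat_lit 83) (nat_lit 2) (nat_lit 1) (nat_lit 2) true (nat_lit 9) true (nat_lit 14) false (nat_lit 4) true (nat_lit 14) true (nat_lit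 15) (.s false (nat_lit 3) (nat_lit 89) (nat_lit 2) (nat_lit 1) (nat_lit 2) true (nat_lit 9) true (nat_lit 14) false (nat_lit 4) true (nat_lit 14) true (nat_lit 15) (.s true (nat_lit 1) (nat_lit 90) (nat_lit 2) (nat_lit 1) (nat_lit 2) true (nat_lit 9) true (nat_lit 14) false (nat_lit 4) true (nat_lit 14) true (nat_lit 15) dC2d_i323)))))))))))))))))))))))))

noncomputable def dC2d_i325 : IL := (.s true (nat_lit 1) (nat_lit 38) (nat_lit 1) (nat_lit 2) (nat_lit 7) true (nat_lit 4) true (nat_lit 9) true (nat_lit 1) true (nat_lit 15) true (nat_lit 14) (.s false (nat_lit 3) (nat_lit 33) (nat_lit 1) (nat_lit 7) (nat_lit 2) true (nat_lit 10) true (nat_lit 14) true (nat_lit 1) true (nat_lit 15) true (nat_lit 9) (.s false (nat_lit 1) (nat_lit 34) (nat_lit 2) (nat_lit 1) (nat_lit 7) true (nat_lit 3) true (nat_lit 9) true (nat_lit 1) true (nat_lit 14) true (nat_lit 15) (.s true (nat_lit 1) (nat_lit 36) (nat_lit 2) (nat_lit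 1) (nat_lit 7) true (nat_lit 3) true (nat_lit 9) true (nat_lit 1) true (nat_lit 14) true (nat_lit 15) (.s true (nat_lit 3) (nat_lit 33) (nat_lit 2) (nat_lit 2) (nat_lit 6) true (nat_lit 4) true (nat_lit 10) true (nat_lit 1) true (nat_lit 14) true (nat_lit 14) (.s false (nat_lit 1) (nat_lit 34) (nat_lit 2) (nat_lit 2) (nat_lit 6) true (nat_lit 4) true (nat_lit 10) true (nat_lit 1) true (nat_lit 14) true (nat_lit 14) (.s true (nat_lit 1) (nat_lit 35) (nat_lit 2) (nat_lit 2) (nat_lit 6) true (nat_lit 4) true (nat_lit 10) true (nat_lit 1) true (nat_lit 14) true (nat_lit 14) (.s true (nat_lit 1) (nat_lit 36) (nat_lit 2) (nat_lit 2) (nat_lit 6) true (nat_lit 4) true (nat_lit 10) true (nat_lit 1) true (nat_lit 14) true (nat_lit 14) (.s true (nat_lit 1) (nat_lit 37) (nat_lit 2) (nat_lit 2) (nat_lit 6) true (nat_lit 4) true (nat_lit 10) true (nat_lit 1) true (nat_lit 14) true (nat_lit 14) (.s true (nat_lit 1) (nat_lit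 38) (nat_lit 2) (nat_lit 2) (nat_lit 6) true (nat_lit 4) true (nat_lit 10) true (nat_lit 1) true (nat_lit 14) true (nat_lit 14) (.s true (nat_lit 3) (nat_lit 34) (nat_lit 2) (nat_lit 7) (nat_lit 1) true (nat_lit 10) true (nat_lit 15) true (nat_lit 1) true (nat_lit 14) true (nat_lit 9) (.s true (nat_lit 1) (nat_lit 35) (nat_lit 2) (nat_lit 7) (nat_lit 1) true (nat_lit 10) true (nat_lit 15) true (nat_lit 1) true (nat_lit 14) true (nat_lit 9) (.s false (nat_lit 2) (nat_lit 33) (nat_lit 6) (nat_lit 2) (nat_lit 2) true (nat_lit 4) true (nat_lit 14) true (nat_lit 1) true (nat_lit 10) true (nat_lit 14) (.s false (nat_lit 2) (nat_lit 40) (nat_lit 0) (nat_lit 2) (nat_lit 7) true (nat_lit 5) true (nat_lit 9) true (nat_lit 0) true (nat_lit 16) true (nat_lit 14) (.s false (nat_lit 3) (nat_lit 40) (nat_lit 2) (nat_lit 0) (nat_lit 7) true (nat_lit 3) true (nat_lit 9) true (nat_lit 0) true (nat_lit 14) true (nat_lit 16) (.s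 false (nat_lit 2) (nat_lit 41) (nat_lit 2) (nat_lit 0) (nat_lit 7) true (nat_lit 3) true (nat_lit 9) true (nat_lit 0) true (nat_lit 14) true (nat_lit 16) (.s false (nat_lit 2) (nat_lit 39) (nat_lit 2) (nat_lit 2) (nat_lit 5) true (nat_lit 5) true (nat_lit 11) true (nat_lit 0) true (nat_lit 14) true (nat_lit 14) (.s false (nat_lit 1) (nat_lit 40) (nat_lit 2) (nat_lit 2) (nat_lit 5) true (nat_lit 5) true (nat_lit 11) true (nat_lit 0) true (nat_lit 14) true (nat_lit 14) (.s false (nat_lit 3) (nat_lit 41) (nat_lit 2) (nat_lit 2) (nat_lit 5) true (nat_lit 5) true (nat_lit 11) true (nat_lit 0) true (nat_lit 14) true (nat_lit 14) (.s true (nat_lit 2) (nat_lit 39) (nat_lit 2) (nat_lit 7) (nat_lit 0) true (nat_lit 11) true (nat_lit 16) true (nat_lit 0) true (nat_lit 14) true (nat_lit 9) (.s false (nat_lit 1) (nat_lit 41) (nat_lit 7) (nat_lit 0) (nat_lit 2) true (nat_lit 3) true (nat_lit 14) true (nat_lit 0) true (nat_lit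 9) true (nat_lit 16) (.s false (nat_lit 2) (nat_lit 44) (nat_lit 1) (nat_lit 1) (nat_lit 7) true (nat_lit 4) true (nat_lit 9) false (nat_lit 0) true (nat_lit 15) true (nat_lit 15) (.s false (nat_lit 1) (nat_lit 47) (nat_lit 0) (nat_lit 7) (nat_lit 1) true (nat_lit 13) true (nat_lit 15) false (nat_lit 1) true (nat_lit 16) true (nat_lit 9) (.s true (nat_lit 3) (nat_lit 46) (nat_lit 3) (nat_lit 2) (nat_lit 2) true (nat_lit 7) true (nat_lit 14) false (nat_lit 1) true (nat_lit 13) true (nat_lit 14) (.s false (nat_lit 3) (nat_lit 47) (nat_lit 3) (nat_lit 2) (nat_lit 2) true (nat_lit 7) true (nat_lit 14) false (nat_lit 1) true (nat_lit 13) true (nat_lit 14) dC2d_i324)))))))))))))))))))))))))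

noncomputable def dC2d_i326 : IL := (.s true (nat_lit 2) (nat_lit 20) (nat_lit 1) (nat_lit 19) (nat_lit 0) true (nat_lit 13) true (nat_lit 16) true (nat_lit 3) true (nat_lit 15) true (nat_lit 4) (.s true (nat_lit 3) (nat_lit 20) (nat_lit 2) (nat_lit 0) (nat_lit 15) true (nat_lit 0) true (nat_lit 6) true (nat_lit 3) true (nat_lit 14) true (nat_lit 16) (.s false (nat_lit 1) (nat_lit 20) (nat_lit 2) (nat_lit 1) (nat_lit 11) true (nat_lit 1) true (nat_lit 7) true (nat_lit 3) true (nat_lit 14) true (nat_lit 15) (.s false (nat_lit 1) (nat_lit 20) (nat_lit 2) (nat_lit 1) (nat_lit 13) true (nat_lit 1) true (nat_lit 7) true (nat_lit 3) true (nat_lit 14) true (nat_lit 15) (.s true (nat_lit 2) (nat_lit 20) (nat_lit 2) (nat_lit 2) (nat_lit 8) true (nat_lit 2) true (nat_lit 8) true (nat_lit 3) true (nat_lit 14) true (nat_lit 14) (.s true (nat_lit 3) (nat_lit 20) (nat_lit 2) (nat_lit 13) (nat_lit 1) true (nat_lit 10) true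 (nat_lit 15) true (nat_lit 3) true (nat_lit 14) true (nat_lit 7) (.s true (nat_lit 2) (nat_lit 20) (nat_lit 2) (nat_lit 14) (nat_lit 0) true (nat_lit 11) true (nat_lit 16) true (nat_lit 3) true (nat_lit 14) true (nat_lit 6) (.s false (nat_lit 2) (nat_lit 20) (nat_lit 3) (nat_lit 7) (nat_lit 1) true (nat_lit 8) true (nat_lit 15) true (nat_lit 3) true (nat_lit 13) true (nat_lit 9) (.s true (nat_lit 2) (nat_lit 20) (nat_lit 6) (nat_lit 2) (nat_lit 3) true (nat_lit 2) true (nat_lit 13) true (nat_lit 3) true (nat_lit 10) true (nat_lit 14) (.s false (nat_lit 3) (nat_lit 20) (nat_lit 8) (nat_lit 2) (nat_lit 2) true (nat_lit 2) true (nat_lit 14) true (nat_lit 3) true (nat_lit 8) true (nat_lit 14) (.s true (nat_lit 3) (nat_lit 20) (nat_lit 9) (nat_lit 2) (nat_lit 2) true (nat_lit 2) true (nat_lit 14) true (nat_lit 3) true (nat_lit 8) true (nat_lit 14) (.s false (nat_lit 1) (nat_lit 20) (nat_lit 15) (nat_lit 2) (nat_lit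 0) true (nat_lit 2) true (nat_lit 16) true (nat_lit 3) true (nat_lit 6) true (nat_lit 14) (.s false (nat_lit 2) (nat_lit 20) (nat_lit 18) (nat_lit 0) (nat_lit 1) true (nat_lit 0) true (nat_lit 15) true (nat_lit 3) true (nat_lit 4) true (nat_lit 16) (.s true (nat_lit 1) (nat_lit 24) (nat_lit 2) (nat_lit 2) (nat_lit 7) true (nat_lit 3) true (nat_lit 9) true (nat_lit 2) true (nat_lit 14) true (nat_lit 14) (.s true (nat_lit 2) (nat_lit 25) (nat_lit 2) (nat_lit 2) (nat_lit 7) true (nat_lit 3) true (nat_lit 9) true (nat_lit 2) true (nat_lit 14) true (nat_lit 14) (.s true (nat_lit 1) (nat_lit 26) (nat_lit 2) (nat_lit 2) (nat_lit 7) true (nat_lit 3) true (nat_lit 9) true (nat_lit 2) true (nat_lit 14) true (nat_lit 14) (.s false (nat_lit 1) (nat_lit 27) (nat_lit 2) (nat_lit 2) (nat_lit 7) true (nat_lit 3) true (nat_lit 9) true (nat_lit 2) true (nat_lit 14) true (nat_lit 14) (.s true (nat_lit 1) (nat_lit 28) (nat_lit 2)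 (nat_lit 2) (nat_lit 7) true (nat_lit 3) true (nat_lit 9) true (nat_lit 2) true (nat_lit 14) true (nat_lit 14) (.s true (nat_lit 1) (nat_lit 29) (nat_lit 2) (nat_lit 2) (nat_lit 7) true (nat_lit 3) true (nat_lit 9) true (nat_lit 2) true (nat_lit 14) true (nat_lit 14) (.s false (nat_lit 2) (nat_lit 26) (nat_lit 2) (nat_lit 7) (nat_lit 2) true (nat_lit 9) true (nat_lit 14) true (nat_lit 2) true (nat_lit 14) true (nat_lit 9) (.s false (nat_lit 3) (nat_lit 27) (nat_lit 2) (nat_lit 7) (nat_lit 2) true (nat_lit 9) true (nat_lit 14) true (nat_lit 2) true (nat_lit 14) true (nat_lit 9) (.s true (nat_lit 2) (nat_lit 27) (nat_lit 7) (nat_lit 2) (nat_lit 2) true (nat_lit 3) true (nat_lit 14) true (nat_lit 2) true (nat_lit 9) true (nat_lit 14) (.s false (nat_lit 1) (nat_lit 33) (nat_lit 1) (nat_lit 2) (nat_lit 7) true (nat_lit 4) true (nat_lit 9) true (nat_lit 1) true (nat_lit 15) true (nat_lit 14) (.s true (nat_lit 1) (nat_lit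 35) (nat_lit 1) (nat_lit 2) (nat_lit 7) true (nat_lit 4) true (nat_lit 9) true (nat_lit 1) true (nat_lit 15) true (nat_lit 14) (.s true (nat_lit 1) (nat_lit 37) (nat_lit 1) (nat_lit 2) (nat_lit 7) true (nat_lit 4) true (nat_lit 9) true (nat_lit 1) true (nat_lit 15) true (nat_lit 14) dC2d_i325)))))))))))))))))))))))))

noncomputable def dC2d_i327 : IL := (.e true (nat_lit 3) (nat_lit 273) (nat_lit 2) (nat_lit 14) (.e false (nat_lit 1) (nat_lit 283) (nat_lit 2) (nat_lit 14) (.e true (nat_lit 3) (nat_lit 152) (nat_lit 7) (nat_lit 9) (.e true (nat_lit 3) (nat_lit 313) (nat_lit 1) (nat_lit 15) (.e false (nat_lit 3) (nat_lit 324) (nat_lit 0) (nat_lit 16) (.e false (nat_lit 1) (nat_lit 325) (nat_lit 0) (nat_lit 16) (.e false (nat_lit 1) (nat_lit 326) (nat_lit 0) (nat_lit 16) (.e true (nat_lit 3) (nat_lit 328) (nat_lit 0) (nat_lit 16) (.e true (nat_lit 3) (nat_lit 330) (nat_lit 0) (nat_lit 16) (.e false (nat_lit 1) (nat_lit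 329) (nat_lit 0) (nat_lit 16) (.e false (nat_lit 3) (nat_lit 284) (nat_lit 2) (nat_lit 14) (.e false (nat_lit 2) (nat_lit 305) (nat_lit 1) (nat_lit 15) (.e true (nat_lit 2) (nat_lit 306) (nat_lit 1) (nat_lit 15) (.e true (nat_lit 1) (nat_lit 309) (nat_lit 1) (nat_lit 15) (.e true (nat_lit 1) (nat_lit 310) (nat_lit 1) (nat_lit 15) (.e true (nat_lit 1) (nat_lit 311) (nat_lit 1) (nat_lit 15) (.e true (nat_lit 1) (nat_lit 312) (nat_lit 1) (nat_lit 15) (.e false (nat_lit 2) (nat_lit 314) (nat_lit 1) (nat_lit 15) (.e true (nat_lit 1) (nat_lit 315) (nat_lit 1) (nat_lit 15) (.e true (nat_lit 3) (nat_lit 318) (nat_lit 1) (nat_lit 15) (.e true (nat_lit 3) (nat_lit 72) (nat_lit 20) (nat_lit 3) (.e false (nat_lit 1) (nat_lit 332) (nat_lit 0) (nat_lit 16) (.u (nat_lit 2) (.n (nat_lit 3) (nat_lit 1) (.n (nat_lit 6) (nat_lit 1) (.p (nat_lit 8) (nat_lit 1) (.p (nat_lit 9) (nat_lit 1) (.n (nat_lit 15) (nat_lit 1) (.n (nat_lit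 16) (nat_lit 1) (.p (nat_lit 18) (nat_lit 1) (.n (nat_lit 19) (nat_lit 1) (.n (nat_lit 21) (nat_lit 1) (.n (nat_lit 24) (nat_lit 1) (.p (nat_lit 25) (nat_lit 1) (.p (nat_lit 43) (nat_lit 1) (.n (nat_lit 46) (nat_lit 1) (.n (nat_lit 67) (nat_lit 1) (.n (nat_lit 68) (nat_lit 1) (.p (nat_lit 69) (nat_lit 1) (.n (nat_lit 71) (nat_lit 1) (.p (nat_lit 72) (nat_lit 1) (.p (nat_lit 73) (nat_lit 1) (.n (nat_lit 75) (nat_lit 2) (.p (nat_lit 76) (nat_lit 1) (.p (nat_lit 78) (nat_lit 1) (.n (nat_lit 81) (nat_lit 1) (.n (nat_lit 83) (nat_lit 2) (.n (nat_lit 84) (nat_lit 1) (.n (nat_lit 85) (nat_lit 1) (.p (nat_lit 88) (nat_lit 2) (.p (nat_lit 89) (nat_lit 1) (.p (nat_lit 90) (nat_lit 1) (.p (nat_lit 91) (nat_lit 1) (.p (nat_lit 92) (nat_lit 1) (.n (nat_lit 94) (nat_lit 2) (.p (nat_lit 95) (nat_lit 1) (.n (nat_lit 96) (nat_lit 1) (.n (nat_lit 115) (nat_lit 1) (.p (nat_lit 116) (nat_lit 1) (.p (nat_lit 125) (nat_lit 2) (.p (nat_lit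 126) (nat_lit 1) (.n (nat_lit 129) (nat_lit 1) (.p (nat_lit 133) (nat_lit 2) (.n (nat_lit 134) (nat_lit 1) (.n (nat_lit 135) (nat_lit 1) (.n (nat_lit 137) (nat_lit 1) (.p (nat_lit 138) (nat_lit 1) (.n (nat_lit 142) (nat_lit 3) (.p (nat_lit 143) (nat_lit 7) (.n (nat_lit 144) (nat_lit 4) (.n (nat_lit 146) (nat_lit 3) (.p (nat_lit 147) (nat_lit 3) (.n (nat_lit 148) (nat_lit 1) (.n (nat_lit 149) (nat_lit 2) (.p (nat_lit 150) (nat_lit 2) (.n (nat_lit 151) (nat_lit 1) (.p (nat_lit 153) (nat_lit 3) (.p (nat_lit 154) (nat_lit 2) (.p (nat_lit 155) (nat_lit 1) (.p (nat_lit 157) (nat_lit 2) (.p (nat_lit 159) (nat_lit 2) (.p (nat_lit 160) (nat_lit 8) (.p (nat_lit 161) (nat_lit 3) .z)))))))))))))))))))))))))))))))))))))))))))))))))))))))))))) (.u (nat_lit 2) (.n (nat_lit 162) (nat_lit 2) (.n (nat_lit 163) (nat_lit 2) (.n (nat_lit 164) (nat_lit 1) (.p (nat_lit 165) (nat_lit 6) (.n (nat_lit 166) (nat_lit 5) (.p (nat_lit 167)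 (nat_lit 3) (.n (nat_lit 168) (nat_lit 3) (.p (nat_lit 169) (nat_lit 1) (.n (nat_lit 170) (nat_lit 1) (.n (nat_lit 171) (nat_lit 2) (.p (nat_lit 172) (nat_lit 5) (.p (nat_lit 173) (nat_lit 1) (.p (nat_lit 174) (nat_lit 2) (.p (nat_lit 176) (nat_lit 1) (.p (nat_lit 178) (nat_lit 3) (.n (nat_lit 179) (nat_lit 1) (.n (nat_lit 180) (nat_lit 1) (.p (nat_lit 181) (nat_lit 1) (.n (nat_lit 183) (nat_lit 2) (.p (nat_lit 200) (nat_lit 1) (.n (nat_lit 202) (nat_lit 1) (.p (nat_lit 203) (nat_lit 2) (.n (nat_lit 204) (nat_lit 8) (.p (nat_lit 206) (nat_lit 6) (.p (nat_lit 207) (nat_lit 11) (.n (nat_lit 209) (nat_lit 17) (.p (nat_lit 211) (nat_lit 9) (.n (nat_lit 212) (nat_lit 4) (.n (nat_lit 213) (nat_lit 6) (.n (nat_lit 214) (nat_lit 7) (.p (nat_lit 215) (nat_lit 18) (.n (nat_lit 216) (nat_lit 1) (.p (nat_lit 217) (nat_lit 16) (.n (nat_lit 218) (nat_lit 17) (.p (nat_lit 219) (nat_lit 10) (.n (nat_lit 220) (nat_lit 4) (.p (nat_lit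 221) (nat_lit 9) (.n (nat_lit 222) (nat_lit 2) (.n (nat_lit 223) (nat_lit 3) (.n (nat_lit 224) (nat_lit 5) (.n (nat_lit 225) (nat_lit 3) (.p (nat_lit 226) (nat_lit 11) (.p (nat_lit 227) (nat_lit 15) (.p (nat_lit 228) (nat_lit 6) (.p (nat_lit 229) (nat_lit 5) (.n (nat_lit 230) (nat_lit 2) (.p (nat_lit 231) (nat_lit 5) (.n (nat_lit 232) (nat_lit 2) (.n (nat_lit 233) (nat_lit 2) (.p (nat_lit 234) (nat_lit 2) (.p (nat_lit 235) (nat_lit 2) (.n (nat_lit 237) (nat_lit 8) (.p (nat_lit 238) (nat_lit 3) (.p (nat_lit 240) (nat_lit 1) (.n (nat_lit 241) (nat_lit 3) (.n (nat_lit 242) (nat_lit 4) (.n (nat_lit 243) (nat_lit 1) (.p (nat_lit 244) (nat_lit 5) (.p (nat_lit 245) (nat_lit 5) (.n (nat_lit 246) (nat_lit 1) .z)))))))))))))))))))))))))))))))))))))))))))))))))))))))))))) (.u (nat_lit 2) (.p (nat_lit 247) (nat_lit 4) (.p (nat_lit 248) (nat_lit 2) (.p (nat_lit 249) (nat_lit 4) (.p (nat_lit 250) (nat_lit 3) (.n (nat_lit 251)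 (nat_lit 4) (.p (nat_lit 253) (nat_lit 1) (.p (nat_lit 254) (nat_lit 1) (.n (nat_lit 255) (nat_lit 1) (.n (nat_lit 256) (nat_lit 1) (.p (nat_lit 258) (nat_lit 1) (.n (nat_lit 261) (nat_lit 6) (.p (nat_lit 263) (nat_lit 2) (.n (nat_lit 264) (nat_lit 2) (.n (nat_lit 265) (nat_lit 2) (.p (nat_lit 266) (nat_lit 4) (.p (nat_lit 267) (nat_lit 2) (.n (nat_lit 269) (nat_lit 1) (.n (nat_lit 270) (nat_lit 1) .z)))))))))))))))))) .nil)))))))))))))))))))))))))

noncomputable def dC2d_i328 : IL := (.s false (nat_lit 3) (nat_lit 80) (nat_lit 2) (nat_lit 2) (nat_lit 1) true (nat_lit 10) true (nat_lit 15) false (nat_lit 4) true (nat_lit 14) true (nat_lit 14) (.s true (nat_lit 3) (nat_lit 81) (nat_lit 2) (nat_lit 2) (nat_lit 1) true (nat_lit 10) true (nat_lit 15) false (nat_lit 4) true (nat_lit 14) true (nat_lit 14) (.s false (nat_lit 2) (nat_lit 84) (nat_lit 2) (nat_lit 2) (nat_lit 1) true (nat_lit 10) true (nat_lit 15) false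 (nat_lit 4) true (nat_lit 14) true (nat_lit 14) (.s true (nat_lit 3) (nat_lit 85) (nat_lit 2) (nat_lit 2) (nat_lit 1) true (nat_lit 10) true (nat_lit 15) false (nat_lit 4) true (nat_lit 14) true (nat_lit 14) (.s false (nat_lit 3) (nat_lit 92) (nat_lit 0) (nat_lit 2) (nat_lit 2) true (nat_lit 11) true (nat_lit 14) false (nat_lit 5) true (nat_lit 16) true (nat_lit 14) (.s false (nat_lit 1) (nat_lit 93) (nat_lit 0) (nat_lit 2) (nat_lit 2) true (nat_lit 11) true (nat_lit 14) false (nat_lit 5) true (nat_lit 16) true (nat_lit 14) (.s false (nat_lit 2) (nat_lit 95) (nat_lit 0) (nat_lit 2) (nat_lit 2) true (nat_lit 11) true (nat_lit 14) false (nat_lit 5) true (nat_lit 16) true (nat_lit 14) (.s true (nat_lit 1) (nat_lit 93) (nat_lit 2) (nat_lit 0) (nat_lit 2) true (nat_lit 9) true (nat_lit 14) false (nat_lit 5) true (nat_lit 14) true (nat_lit 16) (.s true (nat_lit 2) (nat_lit 92) (nat_lit 2) (nat_lit 2) (nat_lit 0) true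 (nat_lit 11) true (nat_lit 16) false (nat_lit 5) true (nat_lit 14) true (nat_lit 14) (.s false (nat_lit 1) (nat_lit 93) (nat_lit 2) (nat_lit 2) (nat_lit 0) true (nat_lit 11) true (nat_lit 16) false (nat_lit 5) true (nat_lit 14) true (nat_lit 14) (.s true (nat_lit 2) (nat_lit 95) (nat_lit 2) (nat_lit 2) (nat_lit 0) true (nat_lit 11) true (nat_lit 16) false (nat_lit 5) true (nat_lit 14) true (nat_lit 14) (.s true (nat_lit 3) (nat_lit 98) (nat_lit 2) (nat_lit 1) (nat_lit 1) true (nat_lit 10) true (nat_lit 15) false (nat_lit 6) true (nat_lit 14) true (nat_lit 15) (.s false (nat_lit 2) (nat_lit 102) (nat_lit 0) (nat_lit 2) (nat_lit 1) true (nat_lit 13) true (nat_lit 15) false (nat_lit 7) true (nat_lit 16) true (nat_lit 14) (.s true (nat_lit 3) (nat_lit 104) (nat_lit 0) (nat_lit 2) (nat_lit 1) true (nat_lit 13) true (nat_lit 15) false (nat_lit 7) true (nat_lit 16) true (nat_lit 14) (.s false (nat_lit 1) (nat_lit 101)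 (nat_lit 1) (nat_lit 0) (nat_lit 2) true (nat_lit 10) true (nat_lit 14) false (nat_lit 7) true (nat_lit 15) true (nat_lit 16) (.s true (nat_lit 1) (nat_lit 105) (nat_lit 0) (nat_lit 1) (nat_lit 1) true (nat_lit 13) true (nat_lit 15) false (nat_lit 8) true (nat_lit 16) true (nat_lit 15) (.s false (nat_lit 3) (nat_lit 105) (nat_lit 1) (nat_lit 1) (nat_lit 0) true (nat_lit 13) true (nat_lit 16) false (nat_lit 8) true (nat_lit 15) true (nat_lit 15) (.e true (nat_lit 1) (nat_lit 154) (nat_lit 7) (nat_lit 9) (.e false (nat_lit 3) (nat_lit 254) (nat_lit 2) (nat_lit 14) (.e false (nat_lit 1) (nat_lit 265) (nat_lit 2) (nat_lit 14) (.e true (nat_lit 3) (nat_lit 272) (nat_lit 2) (nat_lit 14) (.e true (nat_lit 1) (nat_lit 144) (nat_lit 7) (nat_lit 9) (.e true (nat_lit 1) (nat_lit 252) (nat_lit 2) (nat_lit 14) (.e false (nat_lit 1) (nat_lit 253) (nat_lit 2) (nat_lit 14) (.e true (nat_lit 1) (nat_lit 258) (nat_lit 2) (nat_lit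 14) dC2d_i327)))))))))))))))))))))))))

noncomputable def dC2d_i329 : IL := (.s false (nat_lit 2) (nat_lit 42) (nat_lit 6) (nat_lit 2) (nat_lit 1) true (nat_lit 6) true (nat_lit 15) false (nat_lit 0) true (nat_lit 10) true (nat_lit 14) (.s true (nat_lit 2) (nat_lit 46) (nat_lit 6) (nat_lit 0) (nat_lit 2) true (nat_lit 4) true (nat_lit 14) false (nat_lit 1) true (nat_lit 10) true (nat_lit 16) (.s true (nat_lit 3) (nat_lit 47) (nat_lit 6) (nat_lit 2) (nat_lit 0) true (nat_lit 7) true (nat_lit 16) false (nat_lit 1) true (nat_lit 10) true (nat_lit 14) (.s true (nat_lit 1) (nat_lit 48) (nat_lit 1) (nat_lit 2) (nat_lit 3) true (nat_lit 8) true (nat_lit 13) false (nat_lit 2) true (nat_lit 15) true (nat_lit 14) (.s true (nat_lit 2) (nat_lit 48) (nat_lit 1) (nat_lit 6) (nat_lit 0) true (nat_lit 13) true (nat_lit 16) false (nat_lit 2) true (nat_lit 15) true (nat_lit 10) (.s true (nat_lit 2) (nat_lit 48) (nat_lit 2) (nat_lit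 1) (nat_lit 3) true (nat_lit 7) true (nat_lit 13) false (nat_lit 2) true (nat_lit 14) true (nat_lit 15) (.s false (nat_lit 1) (nat_lit 48) (nat_lit 2) (nat_lit 3) (nat_lit 1) true (nat_lit 10) true (nat_lit 15) false (nat_lit 2) true (nat_lit 14) true (nat_lit 13) (.s true (nat_lit 2) (nat_lit 48) (nat_lit 3) (nat_lit 1) (nat_lit 2) true (nat_lit 7) true (nat_lit 14) false (nat_lit 2) true (nat_lit 13) true (nat_lit 15) (.s true (nat_lit 2) (nat_lit 66) (nat_lit 2) (nat_lit 2) (nat_lit 2) true (nat_lit 9) true (nat_lit 14) false (nat_lit 3) true (nat_lit 14) true (nat_lit 14) (.s false (nat_lit 2) (nat_lit 68) (nat_lit 2) (nat_lit 2) (nat_lit 2) true (nat_lit 9) true (nat_lit 14) false (nat_lit 3) true (nat_lit 14) true (nat_lit 14) (.s false (nat_lit 1) (nat_lit 69) (nat_lit 2) (nat_lit 2) (nat_lit 2) true (nat_lit 9) true (nat_lit 14) false (nat_lit 3) true (nat_lit 14) true (nat_lit 14) (.s false (nat_lit 1)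 (nat_lit 73) (nat_lit 2) (nat_lit 2) (nat_lit 2) true (nat_lit 9) true (nat_lit 14) false (nat_lit 3) true (nat_lit 14) true (nat_lit 14) (.s true (nat_lit 2) (nat_lit 81) (nat_lit 1) (nat_lit 2) (nat_lit 2) true (nat_lit 10) true (nat_lit 14) false (nat_lit 4) true (nat_lit 15) true (nat_lit 14) (.s true (nat_lit 1) (nat_lit 82) (nat_lit 1) (nat_lit 2) (nat_lit 2) true (nat_lit 10) true (nat_lit 14) false (nat_lit 4) true (nat_lit 15) true (nat_lit 14) (.s true (nat_lit 3) (nat_lit 83) (nat_lit 1) (nat_lit 2) (nat_lit 2) true (nat_lit 10) true (nat_lit 14) false (nat_lit 4) true (nat_lit 15) true (nat_lit 14) (.s false (nat_lit 3) (nat_lit 85) (nat_lit 1) (nat_lit 2) (nat_lit 2) true (nat_lit 10) true (nat_lit 14) false (nat_lit 4) true (nat_lit 15) true (nat_lit 14) (.s true (nat_lit 3) (nat_lit 86) (nat_lit 1) (nat_lit 2) (nat_lit 2) true (nat_lit 10) true (nat_lit 14) false (nat_lit 4) true (nat_lit 15) true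 (nat_lit 14) (.s true (nat_lit 1) (nat_lit 87) (nat_lit 1) (nat_lit 2) (nat_lit 2) true (nat_lit 10) true (nat_lit 14) false (nat_lit 4) true (nat_lit 15) true (nat_lit 14) (.s true (nat_lit 3) (nat_lit 89) (nat_lit 1) (nat_lit 2) (nat_lit 2) true (nat_lit 10) true (nat_lit 14) false (nat_lit 4) true (nat_lit 15) true (nat_lit 14) (.s true (nat_lit 1) (nat_lit 90) (nat_lit 1) (nat_lit 2) (nat_lit 2) true (nat_lit 10) true (nat_lit 14) false (nat_lit 4) true (nat_lit 15) true (nat_lit 14) (.s true (nat_lit 2) (nat_lit 80) (nat_lit 2) (nat_lit 1) (nat_lit 2) true (nat_lit 9) true (nat_lit 14) false (nat_lit 4) true (nat_lit 14) true (nat_lit 15) (.s true (nat_lit 3) (nat_lit 81) (nat_lit 2) (nat_lit 1) (nat_lit 2) true (nat_lit 9) true (nat_lit 14) false (nat_lit 4) true (nat_lit 14) true (nat_lit 15) (.s true (nat_lit 1) (nat_lit 83) (nat_lit 2) (nat_lit 1) (nat_lit 2) true (nat_lit 9) true (nat_lit 14) false (nat_lit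 4) true (nat_lit 14) true (nat_lit 15) (.s false (nat_lit 2) (nat_lit 88) (nat_lit 2) (nat_lit 1) (nat_lit 2) true (nat_lit 9) true (nat_lit 14) false (nat_lit 4) true (nat_lit 14) true (nat_lit 15) (.s true (nat_lit 3) (nat_lit 89) (nat_lit 2) (nat_lit 1) (nat_lit 2) true (nat_lit 9) true (nat_lit 14) false (nat_lit 4) true (nat_lit 14) true (nat_lit 15) dC2d_i328)))))))))))))))))))))))))

noncomputable def dC2d_i330 : IL := (.s true (nat_lit 2) (nat_lit 24) (nat_lit 2) (nat_lit 2) (nat_lit 7) true (nat_lit 3) true (nat_lit 9) true (nat_lit 2) true (nat_lit 14) true (nat_lit 14) (.s false (nat_lit 2) (nat_lit 25) (nat_lit 2) (nat_lit 2) (nat_lit 7) true (nat_lit 3) true (nat_lit 9) true (nat_lit 2) true (nat_lit 14) true (nat_lit 14) (.s false (nat_lit 3) (nat_lit 26) (nat_lit 2) (nat_lit 2) (nat_lit 7) true (nat_lit 3) true (nat_lit 9) true (nat_lit 2) true (nat_lit 14) true (nat_lit 14) (.s false (nat_lit 1)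 (nat_lit 27) (nat_lit 2) (nat_lit 2) (nat_lit 7) true (nat_lit 3) true (nat_lit 9) true (nat_lit 2) true (nat_lit 14) true (nat_lit 14) (.s true (nat_lit 2) (nat_lit 28) (nat_lit 2) (nat_lit 2) (nat_lit 7) true (nat_lit 3) true (nat_lit 9) true (nat_lit 2) true (nat_lit 14) true (nat_lit 14) (.s true (nat_lit 2) (nat_lit 26) (nat_lit 2) (nat_lit 7) (nat_lit 2) true (nat_lit 9) true (nat_lit 14) true (nat_lit 2) true (nat_lit 14) true (nat_lit 9) (.s false (nat_lit 3) (nat_lit 27) (nat_lit 7) (nat_lit 2) (nat_lit 2) true (nat_lit 3) true (nat_lit 14) true (nat_lit 2) true (nat_lit 9) true (nat_lit 14) (.s false (nat_lit 1) (nat_lit 38) (nat_lit 1) (nat_lit 2) (nat_lit 7) true (nat_lit 4) true (nat_lit 9) true (nat_lit 1) true (nat_lit 15) true (nat_lit 14) (.s false (nat_lit 1) (nat_lit 33) (nat_lit 2) (nat_lit 2) (nat_lit 6) true (nat_lit 4) true (nat_lit 10) true (nat_lit 1) true (nat_lit 14) true (nat_lit 14)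 (.s true (nat_lit 2) (nat_lit 34) (nat_lit 2) (nat_lit 2) (nat_lit 6) true (nat_lit 4) true (nat_lit 10) true (nat_lit 1) true (nat_lit 14) true (nat_lit 14) (.s false (nat_lit 1) (nat_lit 35) (nat_lit 2) (nat_lit 2) (nat_lit 6) true (nat_lit 4) true (nat_lit 10) true (nat_lit 1) true (nat_lit 14) true (nat_lit 14) (.s false (nat_lit 3) (nat_lit 33) (nat_lit 2) (nat_lit 6) (nat_lit 2) true (nat_lit 9) true (nat_lit 14) true (nat_lit 1) true (nat_lit 14) true (nat_lit 10) (.s false (nat_lit 1) (nat_lit 34) (nat_lit 2) (nat_lit 7) (nat_lit 1) true (nat_lit 10) true (nat_lit 15) true (nat_lit 1) true (nat_lit 14) true (nat_lit 9) (.s false (nat_lit 2) (nat_lit 33) (nat_lit 6) (nat_lit 2) (nat_lit 2) true (nat_lit 4) true (nat_lit 14) true (nat_lit 1) true (nat_lit 10) true (nat_lit 14) (.s false (nat_lit 3) (nat_lit 34) (nat_lit 6) (nat_lit 2) (nat_lit 2) true (nat_lit 4) true (nat_lit 14) true (nat_lit 1) true (nat_lit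 10) true (nat_lit 14) (.s false (nat_lit 1) (nat_lit 35) (nat_lit 7) (nat_lit 2) (nat_lit 1) true (nat_lit 4) true (nat_lit 15) true (nat_lit 1) true (nat_lit 9) true (nat_lit 14) (.s true (nat_lit 1) (nat_lit 40) (nat_lit 0) (nat_lit 2) (nat_lit 7) true (nat_lit 5) true (nat_lit 9) true (nat_lit 0) true (nat_lit 16) true (nat_lit 14) (.s false (nat_lit 2) (nat_lit 41) (nat_lit 0) (nat_lit 2) (nat_lit 7) true (nat_lit 5) true (nat_lit 9) true (nat_lit 0) true (nat_lit 16) true (nat_lit 14) (.s true (nat_lit 1) (nat_lit 40) (nat_lit 2) (nat_lit 2) (nat_lit 5) true (nat_lit 5) true (nat_lit 11) true (nat_lit 0) true (nat_lit 14) true (nat_lit 14) (.s true (nat_lit 2) (nat_lit 41) (nat_lit 2) (nat_lit 2) (nat_lit 5) true (nat_lit 5) true (nat_lit 11) true (nat_lit 0) true (nat_lit 14) true (nat_lit 14) (.s true (nat_lit 1) (nat_lit 41) (nat_lit 7) (nat_lit 0) (nat_lit 2) true (nat_lit 3) true (nat_lit 14) true (nat_lit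 0) true (nat_lit 9) true (nat_lit 16) (.s true (nat_lit 2) (nat_lit 42) (nat_lit 1) (nat_lit 2) (nat_lit 6) true (nat_lit 6) true (nat_lit 10) false (nat_lit 0) true (nat_lit 15) true (nat_lit 14) (.s false (nat_lit 2) (nat_lit 42) (nat_lit 1) (nat_lit 6) (nat_lit 2) true (nat_lit 10) true (nat_lit 14) false (nat_lit 0) true (nat_lit 15) true (nat_lit 10) (.s false (nat_lit 1) (nat_lit 44) (nat_lit 2) (nat_lit 1) (nat_lit 6) true (nat_lit 4) true (nat_lit 10) false (nat_lit 0) true (nat_lit 14) true (nat_lit 15) (.s true (nat_lit 1) (nat_lit 42) (nat_lit 2) (nat_lit 6) (nat_lit 1) true (nat_lit 10) true (nat_lit 15) false (nat_lit 0) true (nat_lit 14) true (nat_lit 10) dC2d_i329)))))))))))))))))))))))))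

noncomputable def dC2d_i331 : IL := (.s true (nat_lit 1) (nat_lit 18) (nat_lit 6) (nat_lit 0) (nat_lit 7) false (nat_lit 1) true (nat_lit 9) true (nat_lit 4) true (nat_lit 10) true (nat_lit 16) (.s false (nat_lit 2) (nat_lit 19) (nat_lit 7) (nat_lit 3) (nat_lit 2) true (nat_lit 3) true (nat_lit 14) true (nat_lit 4) true (nat_lit 9) true (nat_lit 13) (.s true (nat_lit 2) (nat_lit 18) (nat_lit 11) (nat_lit 2) (nat_lit 2) true (nat_lit 1) true (nat_lit 14) true (nat_lit 4) true (nat_lit 7) true (nat_lit 14) (.s false (nat_lit 3) (nat_lit 18) (nat_lit 12) (nat_lit 2) (nat_lit 2) true (nat_lit 1) true (nat_lit 14) true (nat_lit 4) true (nat_lit 7) true (nat_lit 14) (.s true (nat_lit 3) (nat_lit 19) (nat_lit 12) (nat_lit 2) (nat_lit 2) true (nat_lit 1) true (nat_lit 14) true (nat_lit 4) true (nat_lit 7) true (nat_lit 14) (.s false (nat_lit 3) (nat_lit 19) (nat_lit 13) (nat_lit 2) (nat_lit 2) true (nat_lit 1) true (nat_lit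 14) true (nat_lit 4) true (nat_lit 7) true (nat_lit 14) (.s false (nat_lit 3) (nat_lit 18) (nat_lit 16) (nat_lit 1) (nat_lit 2) false (nat_lit 0) true (nat_lit 14) true (nat_lit 4) true (nat_lit 5) true (nat_lit 15) (.s true (nat_lit 3) (nat_lit 20) (nat_lit 0) (nat_lit 1) (nat_lit 18) true (nat_lit 1) true (nat_lit 4) true (nat_lit 3) true (nat_lit 16) true (nat_lit 15) (.s false (nat_lit 2) (nat_lit 20) (nat_lit 0) (nat_lit 18) (nat_lit 1) true (nat_lit 13) true (nat_lit 15) true (nat_lit 3) true (nat_lit 16) true (nat_lit 4) (.s false (nat_lit 1) (nat_lit 20) (nat_lit 1) (nat_lit 0) (nat_lit 18) true (nat_lit 0) true (nat_lit 4) true (nat_lit 3) true (nat_lit 15) true (nat_lit 16) (.s false (nat_lit 1) (nat_lit 20) (nat_lit 1) (nat_lit 2) (nat_lit 12) true (nat_lit 2) true (nat_lit 7) true (nat_lit 3) true (nat_lit 15) true (nat_lit 14) (.s true (nat_lit 2) (nat_lit 20) (nat_lit 1) (nat_lit 3) (nat_lit 7) true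 (nat_lit 4) true (nat_lit 9) true (nat_lit 3) true (nat_lit 15) true (nat_lit 13) (.s false (nat_lit 2) (nat_lit 20) (nat_lit 1) (nat_lit 7) (nat_lit 3) true (nat_lit 8) true (nat_lit 13) true (nat_lit 3) true (nat_lit 15) true (nat_lit 9) (.s false (nat_lit 1) (nat_lit 20) (nat_lit 1) (nat_lit 18) (nat_lit 0) true (nat_lit 13) true (nat_lit 16) true (nat_lit 3) true (nat_lit 15) true (nat_lit 4) (.s false (nat_lit 3) (nat_lit 20) (nat_lit 2) (nat_lit 0) (nat_lit 15) true (nat_lit 0) true (nat_lit 6) true (nat_lit 3) true (nat_lit 14) true (nat_lit 16) (.s false (nat_lit 2) (nat_lit 20) (nat_lit 2) (nat_lit 2) (nat_lit 8) true (nat_lit 2) true (nat_lit 8) true (nat_lit 3) true (nat_lit 14) true (nat_lit 14) (.s false (nat_lit 3) (nat_lit 20) (nat_lit 2) (nat_lit 9) (nat_lit 2) true (nat_lit 9) true (nat_lit 14) true (nat_lit 3) true (nat_lit 14) true (nat_lit 8) (.s true (nat_lit 3) (nat_lit 20) (nat_lit 2) (nat_lit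 13) (nat_lit 1) true (nat_lit 10) true (nat_lit 15) true (nat_lit 3) true (nat_lit 14) true (nat_lit 7) (.s false (nat_lit 1) (nat_lit 20) (nat_lit 3) (nat_lit 7) (nat_lit 1) true (nat_lit 8) true (nat_lit 15) true (nat_lit 3) true (nat_lit 13) true (nat_lit 9) (.s true (nat_lit 2) (nat_lit 20) (nat_lit 6) (nat_lit 2) (nat_lit 3) true (nat_lit 2) true (nat_lit 13) true (nat_lit 3) true (nat_lit 10) true (nat_lit 14) (.s true (nat_lit 3) (nat_lit 20) (nat_lit 7) (nat_lit 4) (nat_lit 0) true (nat_lit 5) true (nat_lit 16) true (nat_lit 3) true (nat_lit 9) true (nat_lit 12) (.s false (nat_lit 2) (nat_lit 20) (nat_lit 9) (nat_lit 2) (nat_lit 2) true (nat_lit 2) true (nat_lit 14) true (nat_lit 3) true (nat_lit 8) true (nat_lit 14) (.s false (nat_lit 3) (nat_lit 20) (nat_lit 11) (nat_lit 2) (nat_lit 1) true (nat_lit 2) true (nat_lit 15) true (nat_lit 3) true (nat_lit 7) true (nat_lit 14) (.s true (nat_lit 1) (nat_lit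 20) (nat_lit 15) (nat_lit 0) (nat_lit 2) true (nat_lit 0) true (nat_lit 14) true (nat_lit 3) true (nat_lit 6) true (nat_lit 16) (.s true (nat_lit 1) (nat_lit 20) (nat_lit 18) (nat_lit 0) (nat_lit 1) true (nat_lit 0) true (nat_lit 15) true (nat_lit 3) true (nat_lit 4) true (nat_lit 16) dC2d_i330)))))))))))))))))))))))))

noncomputable def dC2d_i332 : IL := (.e false (nat_lit 1) (nat_lit 273) (nat_lit 2) (nat_lit 14) (.e true (nat_lit 1) (nat_lit 153) (nat_lit 7) (nat_lit 9) (.e false (nat_lit 3) (nat_lit 318) (nat_lit 1) (nat_lit 15) (.e true (nat_lit 3) (nat_lit 283) (nat_lit 2) (nat_lit 14) (.e false (nat_lit 1) (nat_lit 324) (nat_lit 0) (nat_lit 16) (.e true (nat_lit 1) (nat_lit 325) (nat_lit 0) (nat_lit 16) (.e true (nat_lit 3) (nat_lit 326) (nat_lit 0) (nat_lit 16) (.e true (nat_lit 1) (nat_lit 327) (nat_lit 0) (nat_lit 16) (.e false (nat_lit 3) (nat_lit 328) (nat_lit 0) (nat_lit 16) (.e false (nat_lit 3)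 (nat_lit 330) (nat_lit 0) (nat_lit 16) (.e true (nat_lit 2) (nat_lit 331) (nat_lit 0) (nat_lit 16) (.e false (nat_lit 1) (nat_lit 284) (nat_lit 2) (nat_lit 14) (.e false (nat_lit 3) (nat_lit 72) (nat_lit 20) (nat_lit 3) (.e true (nat_lit 2) (nat_lit 305) (nat_lit 1) (nat_lit 15) (.e false (nat_lit 1) (nat_lit 306) (nat_lit 1) (nat_lit 15) (.e false (nat_lit 3) (nat_lit 307) (nat_lit 1) (nat_lit 15) (.e false (nat_lit 1) (nat_lit 308) (nat_lit 1) (nat_lit 15) (.e false (nat_lit 2) (nat_lit 309) (nat_lit 1) (nat_lit 15) (.e true (nat_lit 2) (nat_lit 310) (nat_lit 1) (nat_lit 15) (.e false (nat_lit 3) (nat_lit 313) (nat_lit 1) (nat_lit 15) (.e true (nat_lit 3) (nat_lit 314) (nat_lit 1) (nat_lit 15) (.e true (nat_lit 2) (nat_lit 315) (nat_lit 1) (nat_lit 15) (.u (nat_lit 2) (.p (nat_lit 0) (nat_lit 1) (.p (nat_lit 3) (nat_lit 1) (.p (nat_lit 6) (nat_lit 1) (.n (nat_lit 7) (nat_lit 1) (.n (nat_lit 8) (nat_lit 1) (.n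 (nat_lit 9) (nat_lit 1) (.p (nat_lit 15) (nat_lit 1) (.p (nat_lit 16) (nat_lit 1) (.n (nat_lit 18) (nat_lit 1) (.p (nat_lit 21) (nat_lit 1) (.p (nat_lit 24) (nat_lit 1) (.n (nat_lit 25) (nat_lit 1) (.n (nat_lit 34) (nat_lit 2) (.p (nat_lit 40) (nat_lit 1) (.n (nat_lit 44) (nat_lit 1) (.n (nat_lit 48) (nat_lit 1) (.p (nat_lit 66) (nat_lit 1) (.n (nat_lit 71) (nat_lit 1) (.n (nat_lit 72) (nat_lit 2) (.n (nat_lit 73) (nat_lit 2) (.p (nat_lit 74) (nat_lit 1) (.p (nat_lit 75) (nat_lit 2) (.n (nat_lit 76) (nat_lit 1) (.n (nat_lit 77) (nat_lit 1) (.n (nat_lit 79) (nat_lit 1) (.p (nat_lit 80) (nat_lit 1) (.p (nat_lit 82) (nat_lit 1) (.n (nat_lit 83) (nat_lit 1) (.p (nat_lit 85) (nat_lit 1) (.n (nat_lit 88) (nat_lit 1) (.n (nat_lit 91) (nat_lit 1) (.n (nat_lit 98) (nat_lit 2) (.p (nat_lit 100) (nat_lit 1) (.n (nat_lit 101) (nat_lit 1) (.n (nat_lit 114) (nat_lit 1) (.p (nat_lit 116) (nat_lit 1) (.n (nat_lit 122) (nat_lit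 1) (.n (nat_lit 126) (nat_lit 1) (.n (nat_lit 129) (nat_lit 1) (.n (nat_lit 131) (nat_lit 1) (.n (nat_lit 135) (nat_lit 1) (.n (nat_lit 140) (nat_lit 1) (.n (nat_lit 142) (nat_lit 3) (.n (nat_lit 143) (nat_lit 2) (.n (nat_lit 144) (nat_lit 6) (.p (nat_lit 145) (nat_lit 5) (.n (nat_lit 146) (nat_lit 5) (.p (nat_lit 147) (nat_lit 4) (.p (nat_lit 149) (nat_lit 2) (.n (nat_lit 150) (nat_lit 2) (.p (nat_lit 151) (nat_lit 2) (.p (nat_lit 153) (nat_lit 1) (.n (nat_lit 157) (nat_lit 3) (.n (nat_lit 158) (nat_lit 1) (.p (nat_lit 159) (nat_lit 5) (.p (nat_lit 160) (nat_lit 3) (.p (nat_lit 161) (nat_lit 5) (.n (nat_lit 162) (nat_lit 4) (.n (nat_lit 163) (nat_lit 6) (.n (nat_lit 164) (nat_lit 6) .z)))))))))))))))))))))))))))))))))))))))))))))))))))))))))))) (.u (nat_lit 2) (.p (nat_lit 165) (nat_lit 8) (.n (nat_lit 166) (nat_lit 5) (.p (nat_lit 167) (nat_lit 6) (.p (nat_lit 168) (nat_lit 1) (.p (nat_lit 170) (nat_lit 1) (.p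 (nat_lit 171) (nat_lit 1) (.p (nat_lit 173) (nat_lit 1) (.p (nat_lit 177) (nat_lit 1) (.n (nat_lit 181) (nat_lit 1) (.p (nat_lit 182) (nat_lit 1) (.n (nat_lit 185) (nat_lit 1) (.n (nat_lit 186) (nat_lit 1) (.p (nat_lit 189) (nat_lit 1) (.n (nat_lit 192) (nat_lit 1) (.n (nat_lit 193) (nat_lit 1) (.p (nat_lit 198) (nat_lit 1) (.n (nat_lit 200) (nat_lit 1) (.p (nat_lit 201) (nat_lit 2) (.n (nat_lit 202) (nat_lit 1) (.p (nat_lit 203) (nat_lit 1) (.n (nat_lit 204) (nat_lit 7) (.p (nat_lit 205) (nat_lit 18) (.n (nat_lit 206) (nat_lit 11) (.p (nat_lit 207) (nat_lit 3) (.n (nat_lit 208) (nat_lit 5) (.p (nat_lit 209) (nat_lit 3) (.n (nat_lit 210) (nat_lit 11) (.p (nat_lit 211) (nat_lit 14) (.n (nat_lit 212) (nat_lit 15) (.n (nat_lit 213) (nat_lit 5) (.n (nat_lit 214) (nat_lit 1) (.n (nat_lit 215) (nat_lit 3) (.n (nat_lit 216) (nat_lit 4) (.n (nat_lit 217) (nat_lit 3) (.n (nat_lit 218) (nat_lit 2) (.n (nat_lit 219) (nat_lit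 2) (.n (nat_lit 220) (nat_lit 1) (.p (nat_lit 221) (nat_lit 15) (.n (nat_lit 222) (nat_lit 10) (.p (nat_lit 223) (nat_lit 5) (.n (nat_lit 224) (nat_lit 15) (.p (nat_lit 225) (nat_lit 6) (.p (nat_lit 226) (nat_lit 1) (.p (nat_lit 227) (nat_lit 8) (.n (nat_lit 228) (nat_lit 12) (.n (nat_lit 229) (nat_lit 22) (.n (nat_lit 230) (nat_lit 7) (.n (nat_lit 231) (nat_lit 5) (.p (nat_lit 232) (nat_lit 3) (.n (nat_lit 234) (nat_lit 9) (.p (nat_lit 235) (nat_lit 5) (.n (nat_lit 236) (nat_lit 4) (.p (nat_lit 237) (nat_lit 4) (.n (nat_lit 238) (nat_lit 2) (.n (nat_lit 239) (nat_lit 2) (.n (nat_lit 240) (nat_lit 3) (.p (nat_lit 241) (nat_lit 1) (.n (nat_lit 242) (nat_lit 3) (.n (nat_lit 243) (nat_lit 3) (.p (nat_lit 244) (nat_lit 3) .z)))))))))))))))))))))))))))))))))))))))))))))))))))))))))))) (.u (nat_lit 2) (.n (nat_lit 245) (nat_lit 1) (.p (nat_lit 246) (nat_lit 1) (.n (nat_lit 247) (nat_lit 1) (.p (nat_lit 248) (nat_lit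 2) (.n (nat_lit 249) (nat_lit 1) (.n (nat_lit 250) (nat_lit 1) (.n (nat_lit 251) (nat_lit 4) (.n (nat_lit 252) (nat_lit 2) (.p (nat_lit 253) (nat_lit 2) (.n (nat_lit 254) (nat_lit 2) (.n (nat_lit 258) (nat_lit 2) (.n (nat_lit 260) (nat_lit 6) (.n (nat_lit 261) (nat_lit 6) (.p (nat_lit 263) (nat_lit 1) (.n (nat_lit 264) (nat_lit 4) (.p (nat_lit 265) (nat_lit 1) (.p (nat_lit 266) (nat_lit 5) (.p (nat_lit 267) (nat_lit 3) (.p (nat_lit 269) (nat_lit 2) (.p (nat_lit 270) (nat_lit 3) .z)))))))))))))))))))) .nil)))))))))))))))))))))))))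

noncomputable def dC2d_i333 : IL := (.s false (nat_lit 3) (nat_lit 92) (nat_lit 0) (nat_lit 2) (nat_lit 2) true (nat_lit 11) true (nat_lit 14) false (nat_lit 5) true (nat_lit 16) true (nat_lit 14) (.s true (nat_lit 2) (nat_lit 93) (nat_lit 0) (nat_lit 2) (nat_lit 2) true (nat_lit 11) true (nat_lit 14) false (nat_lit 5) true (nat_lit 16) true (nat_lit 14) (.s false (nat_lit 2) (nat_lit 96) (nat_lit 0) (nat_lit 2) (nat_lit 2) true (nat_lit 11) true (nat_lit 14) false (nat_lit 5) true (nat_lit 16) true (nat_lit 14) (.s false (nat_lit 1) (nat_lit 92) (nat_lit 2) (nat_lit 0) (nat_lit 2) true (nat_lit 9) true (nat_lit 14) false (nat_lit 5) true (nat_lit 14) true (nat_lit 16) (.s false (nat_lit 3) (nat_lit 91) (nat_lit 2) (nat_lit 2) (nat_lit 0) true (nat_lit 11) true (nat_lit 16) false (nat_lit 5) true (nat_lit 14) true (nat_lit 14) (.s false (nat_lit 1) (nat_lit 92) (nat_lit 2) (nat_lit 2) (nat_lit 0) true (nat_lit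 11) true (nat_lit 16) false (nat_lit 5) true (nat_lit 14) true (nat_lit 14) (.s true (nat_lit 1) (nat_lit 93) (nat_lit 2) (nat_lit 2) (nat_lit 0) true (nat_lit 11) true (nat_lit 16) false (nat_lit 5) true (nat_lit 14) true (nat_lit 14) (.s true (nat_lit 2) (nat_lit 96) (nat_lit 2) (nat_lit 2) (nat_lit 0) true (nat_lit 11) true (nat_lit 16) false (nat_lit 5) true (nat_lit 14) true (nat_lit 14) (.s true (nat_lit 3) (nat_lit 103) (nat_lit 0) (nat_lit 1) (nat_lit 2) true (nat_lit 11) true (nat_lit 14) false (nat_lit 7) true (nat_lit 16) true (nat_lit 15) (.s true (nat_lit 3) (nat_lit 104) (nat_lit 0) (nat_lit 1) (nat_lit 2) true (nat_lit 11) true (nat_lit 14) false (nat_lit 7) true (nat_lit 16) true (nat_lit 15) (.s true (nat_lit 1) (nat_lit 104) (nat_lit 0) (nat_lit 2) (nat_lit 1) true (nat_lit 13) true (nat_lit 15) false (nat_lit 7) true (nat_lit 16) true (nat_lit 14) (.s false (nat_lit 2) (nat_lit 103) (nat_lit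 1) (nat_lit 2) (nat_lit 0) true (nat_lit 13) true (nat_lit 16) false (nat_lit 7) true (nat_lit 15) true (nat_lit 14) (.s false (nat_lit 3) (nat_lit 104) (nat_lit 1) (nat_lit 2) (nat_lit 0) true (nat_lit 13) true (nat_lit 16) false (nat_lit 7) true (nat_lit 15) true (nat_lit 14) (.s true (nat_lit 3) (nat_lit 102) (nat_lit 2) (nat_lit 1) (nat_lit 0) true (nat_lit 11) true (nat_lit 16) false (nat_lit 7) true (nat_lit 14) true (nat_lit 15) (.s false (nat_lit 2) (nat_lit 103) (nat_lit 2) (nat_lit 1) (nat_lit 0) true (nat_lit 11) true (nat_lit 16) false (nat_lit 7) true (nat_lit 14) true (nat_lit 15) (.s true (nat_lit 2) (nat_lit 105) (nat_lit 0) (nat_lit 1) (nat_lit 1) true (nat_lit 13) true (nat_lit 15) false (nat_lit 8) true (nat_lit 16) true (nat_lit 15) (.s false (nat_lit 2) (nat_lit 105) (nat_lit 1) (nat_lit 0) (nat_lit 1) true (nat_lit 12) true (nat_lit 15) false (nat_lit 8) true (nat_lit 15) true (nat_lit 16)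 (.e true (nat_lit 1) (nat_lit 152) (nat_lit 7) (nat_lit 9) (.e false (nat_lit 2) (nat_lit 154) (nat_lit 7) (nat_lit 9) (.e false (nat_lit 1) (nat_lit 144) (nat_lit 7) (nat_lit 9) (.e true (nat_lit 2) (nat_lit 254) (nat_lit 2) (nat_lit 14) (.e true (nat_lit 1) (nat_lit 272) (nat_lit 2) (nat_lit 14) (.e false (nat_lit 1) (nat_lit 285) (nat_lit 2) (nat_lit 14) (.e false (nat_lit 1) (nat_lit 252) (nat_lit 2) (nat_lit 14) (.e false (nat_lit 1) (nat_lit 258) (nat_lit 2) (nat_lit 14) dC2d_i332)))))))))))))))))))))))))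

noncomputable def dC2d_i334 : IL := (.s true (nat_lit 2) (nat_lit 70) (nat_lit 2) (nat_lit 2) (nat_lit 2) true (nat_lit 9) true (nat_lit 14) false (nat_lit 3) true (nat_lit 14) true (nat_lit 14) (.s false (nat_lit 3) (nat_lit 71) (nat_lit 2) (nat_lit 2) (nat_lit 2) true (nat_lit 9) true (nat_lit 14) false (nat_lit 3) true (nat_lit 14) true (nat_lit 14) (.s true (nat_lit 3) (nat_lit 73) (nat_lit 2) (nat_lit 2) (nat_lit 2) true (nat_lit 9) true (nat_lit 14) false (nat_lit 3) true (nat_lit 14) true (nat_lit 14) (.s false (nat_lit 1) (nat_lit 80) (nat_lit 1) (nat_lit 2) (nat_lit 2) true (nat_lit 10) true (nat_lit 14) false (nat_lit 4) true (nat_lit 15) true (nat_lit 14) (.s false (nat_lit 1) (nat_lit 81) (nat_lit 1) (nat_lit 2) (nat_lit 2) true (nat_lit 10) true (nat_lit 14) false (nat_lit 4) true (nat_lit 15) true (nat_lit 14) (.s false (nat_lit 1) (nat_lit 82) (nat_lit 1) (nat_lit 2) (nat_lit 2) true (nat_lit 10)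 true (nat_lit 14) false (nat_lit 4) true (nat_lit 15) true (nat_lit 14) (.s false (nat_lit 3) (nat_lit 83) (nat_lit 1) (nat_lit 2) (nat_lit 2) true (nat_lit 10) true (nat_lit 14) false (nat_lit 4) true (nat_lit 15) true (nat_lit 14) (.s true (nat_lit 2) (nat_lit 84) (nat_lit 1) (nat_lit 2) (nat_lit 2) true (nat_lit 10) true (nat_lit 14) false (nat_lit 4) true (nat_lit 15) true (nat_lit 14) (.s false (nat_lit 2) (nat_lit 85) (nat_lit 1) (nat_lit 2) (nat_lit 2) true (nat_lit 10) true (nat_lit 14) false (nat_lit 4) true (nat_lit 15) true (nat_lit 14) (.s false (nat_lit 2) (nat_lit 88) (nat_lit 1) (nat_lit 2) (nat_lit 2) true (nat_lit 10) true (nat_lit 14) false (nat_lit 4) true (nat_lit 15) true (nat_lit 14) (.s false (nat_lit 2) (nat_lit 89) (nat_lit 1) (nat_lit 2) (nat_lit 2) true (nat_lit 10) true (nat_lit 14) false (nat_lit 4) true (nat_lit 15) true (nat_lit 14) (.s false (nat_lit 2) (nat_lit 90) (nat_lit 1)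 (nat_lit 2) (nat_lit 2) true (nat_lit 10) true (nat_lit 14) false (nat_lit 4) true (nat_lit 15) true (nat_lit 14) (.s false (nat_lit 3) (nat_lit 80) (nat_lit 2) (nat_lit 1) (nat_lit 2) true (nat_lit 9) true (nat_lit 14) false (nat_lit 4) true (nat_lit 14) true (nat_lit 15) (.s true (nat_lit 2) (nat_lit 81) (nat_lit 2) (nat_lit 1) (nat_lit 2) true (nat_lit 9) true (nat_lit 14) false (nat_lit 4) true (nat_lit 14) true (nat_lit 15) (.s true (nat_lit 3) (nat_lit 83) (nat_lit 2) (nat_lit 1) (nat_lit 2) true (nat_lit 9) true (nat_lit 14) false (nat_lit 4) true (nat_lit 14) true (nat_lit 15) (.s false (nat_lit 3) (nat_lit 88) (nat_lit 2) (nat_lit 1) (nat_lit 2) true (nat_lit 9) true (nat_lit 14) false (nat_lit 4) true (nat_lit 14) true (nat_lit 15) (.s true (nat_lit 2) (nat_lit 89) (nat_lit 2) (nat_lit 1) (nat_lit 2) true (nat_lit 9) true (nat_lit 14) false (nat_lit 4) true (nat_lit 14) true (nat_lit 15) (.s false (nat_lit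 3) (nat_lit 80) (nat_lit 2) (nat_lit 2) (nat_lit 1) true (nat_lit 10) true (nat_lit 15) false (nat_lit 4) true (nat_lit 14) true (nat_lit 14) (.s false (nat_lit 1) (nat_lit 81) (nat_lit 2) (nat_lit 2) (nat_lit 1) true (nat_lit 10) true (nat_lit 15) false (nat_lit 4) true (nat_lit 14) true (nat_lit 14) (.s false (nat_lit 1) (nat_lit 82) (nat_lit 2) (nat_lit 2) (nat_lit 1) true (nat_lit 10) true (nat_lit 15) false (nat_lit 4) true (nat_lit 14) true (nat_lit 14) (.s false (nat_lit 1) (nat_lit 83) (nat_lit 2) (nat_lit 2) (nat_lit 1) true (nat_lit 10) true (nat_lit 15) false (nat_lit 4) true (nat_lit 14) true (nat_lit 14) (.s false (nat_lit 2) (nat_lit 84) (nat_lit 2) (nat_lit 2) (nat_lit 1) true (nat_lit 10) true (nat_lit 15) false (nat_lit 4) true (nat_lit 14) true (nat_lit 14) (.s false (nat_lit 1) (nat_lit 85) (nat_lit 2) (nat_lit 2) (nat_lit 1) true (nat_lit 10) true (nat_lit 15) false (nat_lit 4) true (nat_lit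 14) true (nat_lit 14) (.s false (nat_lit 3) (nat_lit 90) (nat_lit 2) (nat_lit 2) (nat_lit 1) true (nat_lit 10) true (nat_lit 15) false (nat_lit 4) true (nat_lit 14) true (nat_lit 14) (.s false (nat_lit 2) (nat_lit 91) (nat_lit 0) (nat_lit 2) (nat_lit 2) true (nat_lit 11) true (nat_lit 14) false (nat_lit 5) true (nat_lit 16) true (nat_lit 14) dC2d_i333)))))))))))))))))))))))))

noncomputable def dC2d_i335 : IL := (.s false (nat_lit 2) (nat_lit 35) (nat_lit 2) (nat_lit 2) (nat_lit 6) true (nat_lit 4) true (nat_lit 10) true (nat_lit 1) true (nat_lit 14) true (nat_lit 14) (.s false (nat_lit 1) (nat_lit 38) (nat_lit 2) (nat_lit 2) (nat_lit 6) true (nat_lit 4) true (nat_lit 10) true (nat_lit 1) true (nat_lit 14) true (nat_lit 14) (.s false (nat_lit 3) (nat_lit 33) (nat_lit 2) (nat_lit 6) (nat_lit 2) true (nat_lit 9) true (nat_lit 14) true (nat_lit 1) true (nat_lit 14) true (nat_lit 10) (.s true (nat_lit 1) (nat_lit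 35) (nat_lit 2) (nat_lit 7) (nat_lit 1) true (nat_lit 10) true (nat_lit 15) true (nat_lit 1) true (nat_lit 14) true (nat_lit 9) (.s true (nat_lit 3) (nat_lit 33) (nat_lit 6) (nat_lit 2) (nat_lit 2) true (nat_lit 4) true (nat_lit 14) true (nat_lit 1) true (nat_lit 10) true (nat_lit 14) (.s false (nat_lit 2) (nat_lit 34) (nat_lit 6) (nat_lit 2) (nat_lit 2) true (nat_lit 4) true (nat_lit 14) true (nat_lit 1) true (nat_lit 10) true (nat_lit 14) (.s true (nat_lit 1) (nat_lit 35) (nat_lit 6) (nat_lit 2) (nat_lit 2) true (nat_lit 4) true (nat_lit 14) true (nat_lit 1) true (nat_lit 10) true (nat_lit 14) (.s false (nat_lit 2) (nat_lit 37) (nat_lit 7) (nat_lit 2) (nat_lit 1) true (nat_lit 4) true (nat_lit 15) true (nat_lit 1) true (nat_lit 9) true (nat_lit 14) (.s true (nat_lit 2) (nat_lit 39) (nat_lit 0) (nat_lit 2) (nat_lit 7) true (nat_lit 5) true (nat_lit 9) true (nat_lit 0) true (nat_lit 16) true (nat_lit 14) (.s false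 (nat_lit 3) (nat_lit 40) (nat_lit 0) (nat_lit 2) (nat_lit 7) true (nat_lit 5) true (nat_lit 9) true (nat_lit 0) true (nat_lit 16) true (nat_lit 14) (.s true (nat_lit 2) (nat_lit 39) (nat_lit 2) (nat_lit 2) (nat_lit 5) true (nat_lit 5) true (nat_lit 11) true (nat_lit 0) true (nat_lit 14) true (nat_lit 14) (.s false (nat_lit 3) (nat_lit 39) (nat_lit 2) (nat_lit 7) (nat_lit 0) true (nat_lit 11) true (nat_lit 16) true (nat_lit 0) true (nat_lit 14) true (nat_lit 9) (.s false (nat_lit 3) (nat_lit 39) (nat_lit 5) (nat_lit 2) (nat_lit 2) true (nat_lit 5) true (nat_lit 14) true (nat_lit 0) true (nat_lit 11) true (nat_lit 14) (.s true (nat_lit 3) (nat_lit 40) (nat_lit 7) (nat_lit 2) (nat_lit 0) true (nat_lit 5) true (nat_lit 16) true (nat_lit 0) true (nat_lit 9) true (nat_lit 14) (.s false (nat_lit 1) (nat_lit 44) (nat_lit 1) (nat_lit 1) (nat_lit 7) true (nat_lit 4) true (nat_lit 9) false (nat_lit 0) true (nat_lit 15) true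 (nat_lit 15) (.s true (nat_lit 1) (nat_lit 44) (nat_lit 4) (nat_lit 2) (nat_lit 2) true (nat_lit 6) true (nat_lit 14) false (nat_lit 0) true (nat_lit 12) true (nat_lit 14) (.s false (nat_lit 2) (nat_lit 47) (nat_lit 7) (nat_lit 0) (nat_lit 1) true (nat_lit 4) true (nat_lit 15) false (nat_lit 1) true (nat_lit 9) true (nat_lit 16) (.s true (nat_lit 2) (nat_lit 48) (nat_lit 0) (nat_lit 4) (nat_lit 2) true (nat_lit 11) true (nat_lit 14) false (nat_lit 2) true (nat_lit 16) true (nat_lit 12) (.s true (nat_lit 3) (nat_lit 48) (nat_lit 3) (nat_lit 1) (nat_lit 2) true (nat_lit 7) true (nat_lit 14) false (nat_lit 2) true (nat_lit 13) true (nat_lit 15) (.s true (nat_lit 2) (nat_lit 48) (nat_lit 3) (nat_lit 2) (nat_lit 1) true (nat_lit 8) true (nat_lit 15) false (nat_lit 2) true (nat_lit 13) true (nat_lit 14) (.s true (nat_lit 2) (nat_lit 48) (nat_lit 5) (nat_lit 1) (nat_lit 1) true (nat_lit 7) true (nat_lit 15) false (nat_lit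 2) true (nat_lit 11) true (nat_lit 15) (.s false (nat_lit 3) (nat_lit 48) (nat_lit 6) (nat_lit 1) (nat_lit 0) true (nat_lit 7) true (nat_lit 16) false (nat_lit 2) true (nat_lit 10) true (nat_lit 15) (.s false (nat_lit 3) (nat_lit 66) (nat_lit 2) (nat_lit 2) (nat_lit 2) true (nat_lit 9) true (nat_lit 14) false (nat_lit 3) true (nat_lit 14) true (nat_lit 14) (.s true (nat_lit 1) (nat_lit 68) (nat_lit 2) (nat_lit 2) (nat_lit 2) true (nat_lit 9) true (nat_lit 14) false (nat_lit 3) true (nat_lit 14) true (nat_lit 14) (.s true (nat_lit 2) (nat_lit 69) (nat_lit 2) (nat_lit 2) (nat_lit 2) true (nat_lit 9) true (nat_lit 14) false (nat_lit 3) true (nat_lit 14) true (nat_lit 14) dC2d_i334)))))))))))))))))))))))))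

noncomputable def dC2d_i336 : IL := (.s false (nat_lit 1) (nat_lit 20) (nat_lit 2) (nat_lit 0) (nat_lit 14) true (nat_lit 0) true (nat_lit 6) true (nat_lit 3) true (nat_lit 14) true (nat_lit 16) (.s false (nat_lit 3) (nat_lit 20) (nat_lit 2) (nat_lit 0) (nat_lit 15) true (nat_lit 0) true (nat_lit 6) true (nat_lit 3) true (nat_lit 14) true (nat_lit 16) (.s true (nat_lit 1) (nat_lit 20) (nat_lit 2) (nat_lit 2) (nat_lit 8) true (nat_lit 2) true (nat_lit 8) true (nat_lit 3) true (nat_lit 14) true (nat_lit 14) (.s true (nat_lit 1) (nat_lit 20) (nat_lit 2) (nat_lit 4) (nat_lit 5) true (nat_lit 5) true (nat_lit 11) true (nat_lit 3) true (nat_lit 14) true (nat_lit 12) (.s false (nat_lit 2) (nat_lit 20) (nat_lit 2) (nat_lit 13) (nat_lit 1) true (nat_lit 10) true (nat_lit 15) true (nat_lit 3) true (nat_lit 14) true (nat_lit 7) (.s false (nat_lit 2) (nat_lit 20) (nat_lit 2) (nat_lit 14) (nat_lit 0) true (nat_lit 11) true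 (nat_lit 16) true (nat_lit 3) true (nat_lit 14) true (nat_lit 6) (.s true (nat_lit 3) (nat_lit 20) (nat_lit 6) (nat_lit 5) (nat_lit 1) true (nat_lit 6) true (nat_lit 15) true (nat_lit 3) true (nat_lit 10) true (nat_lit 11) (.s false (nat_lit 3) (nat_lit 20) (nat_lit 7) (nat_lit 3) (nat_lit 1) true (nat_lit 4) true (nat_lit 15) true (nat_lit 3) true (nat_lit 9) true (nat_lit 13) (.s true (nat_lit 3) (nat_lit 20) (nat_lit 8) (nat_lit 2) (nat_lit 2) true (nat_lit 2) true (nat_lit 14) true (nat_lit 3) true (nat_lit 8) true (nat_lit 14) (.s true (nat_lit 2) (nat_lit 20) (nat_lit 9) (nat_lit 2) (nat_lit 2) true (nat_lit 2) true (nat_lit 14) true (nat_lit 3) true (nat_lit 8) true (nat_lit 14) (.s false (nat_lit 2) (nat_lit 20) (nat_lit 13) (nat_lit 1) (nat_lit 2) true (nat_lit 1) true (nat_lit 14) true (nat_lit 3) true (nat_lit 7) true (nat_lit 15) (.s false (nat_lit 2) (nat_lit 20) (nat_lit 11) (nat_lit 2) (nat_lit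 1) true (nat_lit 2) true (nat_lit 15) true (nat_lit 3) true (nat_lit 7) true (nat_lit 14) (.s false (nat_lit 1) (nat_lit 20) (nat_lit 14) (nat_lit 0) (nat_lit 2) true (nat_lit 0) true (nat_lit 14) true (nat_lit 3) true (nat_lit 6) true (nat_lit 16) (.s true (nat_lit 3) (nat_lit 24) (nat_lit 2) (nat_lit 2) (nat_lit 7) true (nat_lit 3) true (nat_lit 9) true (nat_lit 2) true (nat_lit 14) true (nat_lit 14) (.s true (nat_lit 1) (nat_lit 26) (nat_lit 2) (nat_lit 2) (nat_lit 7) true (nat_lit 3) true (nat_lit 9) true (nat_lit 2) true (nat_lit 14) true (nat_lit 14) (.s true (nat_lit 1) (nat_lit 28) (nat_lit 2) (nat_lit 2) (nat_lit 7) true (nat_lit 3) true (nat_lit 9) true (nat_lit 2) true (nat_lit 14) true (nat_lit 14) (.s false (nat_lit 1) (nat_lit 27) (nat_lit 2) (nat_lit 7) (nat_lit 2) true (nat_lit 9) true (nat_lit 14) true (nat_lit 2) true (nat_lit 14) true (nat_lit 9) (.s true (nat_lit 1) (nat_lit 27) (nat_lit 7)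 (nat_lit 2) (nat_lit 2) true (nat_lit 3) true (nat_lit 14) true (nat_lit 2) true (nat_lit 9) true (nat_lit 14) (.s true (nat_lit 2) (nat_lit 29) (nat_lit 7) (nat_lit 2) (nat_lit 2) true (nat_lit 3) true (nat_lit 14) true (nat_lit 2) true (nat_lit 9) true (nat_lit 14) (.s false (nat_lit 1) (nat_lit 34) (nat_lit 1) (nat_lit 2) (nat_lit 7) true (nat_lit 4) true (nat_lit 9) true (nat_lit 1) true (nat_lit 15) true (nat_lit 14) (.s false (nat_lit 3) (nat_lit 35) (nat_lit 1) (nat_lit 2) (nat_lit 7) true (nat_lit 4) true (nat_lit 9) true (nat_lit 1) true (nat_lit 15) true (nat_lit 14) (.s false (nat_lit 1) (nat_lit 38) (nat_lit 1) (nat_lit 2) (nat_lit 7) true (nat_lit 4) true (nat_lit 9) true (nat_lit 1) true (nat_lit 15) true (nat_lit 14) (.s true (nat_lit 1) (nat_lit 33) (nat_lit 2) (nat_lit 1) (nat_lit 7) true (nat_lit 3) true (nat_lit 9) true (nat_lit 1) true (nat_lit 14) true (nat_lit 15) (.s false (nat_lit 2) (nat_lit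 34) (nat_lit 2) (nat_lit 1) (nat_lit 7) true (nat_lit 3) true (nat_lit 9) true (nat_lit 1) true (nat_lit 14) true (nat_lit 15) (.s false (nat_lit 1) (nat_lit 34) (nat_lit 2) (nat_lit 2) (nat_lit 6) true (nat_lit 4) true (nat_lit 10) true (nat_lit 1) true (nat_lit 14) true (nat_lit 14) dC2d_i335)))))))))))))))))))))))))

noncomputable def dC2d_i337 : IL := (.s false (nat_lit 2) (nat_lit 15) (nat_lit 7) (nat_lit 0) (nat_lit 7) false (nat_lit 2) true (nat_lit 9) true (nat_lit 6) true (nat_lit 9) true (nat_lit 16) (.s false (nat_lit 2) (nat_lit 17) (nat_lit 2) (nat_lit 2) (nat_lit 14) true (nat_lit 0) true (nat_lit 6) true (nat_lit 5) true (nat_lit 14) true (nat_lit 14) (.s true (nat_lit 3) (nat_lit 17) (nat_lit 2) (nat_lit 14) (nat_lit 2) true (nat_lit 9) true (nat_lit 14) true (nat_lit 5) true (nat_lit 14) true (nat_lit 6) (.s true (nat_lit 2) (nat_lit 17) (nat_lit 2) (nat_lit 15) (nat_lit 2) true (nat_lit 9) true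 (nat_lit 14) true (nat_lit 5) true (nat_lit 14) true (nat_lit 6) (.s false (nat_lit 3) (nat_lit 17) (nat_lit 4) (nat_lit 7) (nat_lit 2) true (nat_lit 6) true (nat_lit 14) true (nat_lit 5) true (nat_lit 12) true (nat_lit 9) (.s true (nat_lit 3) (nat_lit 16) (nat_lit 14) (nat_lit 2) (nat_lit 2) true (nat_lit 0) true (nat_lit 14) true (nat_lit 5) true (nat_lit 6) true (nat_lit 14) (.s false (nat_lit 1) (nat_lit 17) (nat_lit 14) (nat_lit 2) (nat_lit 2) true (nat_lit 0) true (nat_lit 14) true (nat_lit 5) true (nat_lit 6) true (nat_lit 14) (.s false (nat_lit 3) (nat_lit 17) (nat_lit 15) (nat_lit 2) (nat_lit 2) true (nat_lit 0) true (nat_lit 14) true (nat_lit 5) true (nat_lit 6) true (nat_lit 14) (.s false (nat_lit 1) (nat_lit 19) (nat_lit 2) (nat_lit 2) (nat_lit 12) true (nat_lit 1) true (nat_lit 7) true (nat_lit 4) true (nat_lit 14) true (nat_lit 14) (.s true (nat_lit 1) (nat_lit 19) (nat_lit 2) (nat_lit 2) (nat_lit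 13) true (nat_lit 1) true (nat_lit 7) true (nat_lit 4) true (nat_lit 14) true (nat_lit 14) (.s false (nat_lit 3) (nat_lit 18) (nat_lit 2) (nat_lit 3) (nat_lit 7) true (nat_lit 3) true (nat_lit 9) true (nat_lit 4) true (nat_lit 14) true (nat_lit 13) (.s true (nat_lit 1) (nat_lit 19) (nat_lit 2) (nat_lit 11) (nat_lit 2) true (nat_lit 9) true (nat_lit 14) true (nat_lit 4) true (nat_lit 14) true (nat_lit 7) (.s false (nat_lit 1) (nat_lit 19) (nat_lit 2) (nat_lit 12) (nat_lit 2) true (nat_lit 9) true (nat_lit 14) true (nat_lit 4) true (nat_lit 14) true (nat_lit 7) (.s false (nat_lit 3) (nat_lit 19) (nat_lit 3) (nat_lit 7) (nat_lit 2) true (nat_lit 7) true (nat_lit 14) true (nat_lit 4) true (nat_lit 13) true (nat_lit 9) (.s true (nat_lit 3) (nat_lit 19) (nat_lit 7) (nat_lit 3) (nat_lit 2) true (nat_lit 3) true (nat_lit 14) true (nat_lit 4) true (nat_lit 9) true (nat_lit 13) (.s false (nat_lit 1) (nat_lit 18) (nat_lit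 11) (nat_lit 2) (nat_lit 2) true (nat_lit 1) true (nat_lit 14) true (nat_lit 4) true (nat_lit 7) true (nat_lit 14) (.s false (nat_lit 2) (nat_lit 18) (nat_lit 12) (nat_lit 2) (nat_lit 2) true (nat_lit 1) true (nat_lit 14) true (nat_lit 4) true (nat_lit 7) true (nat_lit 14) (.s true (nat_lit 1) (nat_lit 18) (nat_lit 13) (nat_lit 2) (nat_lit 2) true (nat_lit 1) true (nat_lit 14) true (nat_lit 4) true (nat_lit 7) true (nat_lit 14) (.s true (nat_lit 1) (nat_lit 19) (nat_lit 12) (nat_lit 2) (nat_lit 2) true (nat_lit 1) true (nat_lit 14) true (nat_lit 4) true (nat_lit 7) true (nat_lit 14) (.s true (nat_lit 2) (nat_lit 20) (nat_lit 0) (nat_lit 2) (nat_lit 15) true (nat_lit 2) true (nat_lit 6) true (nat_lit 3) true (nat_lit 16) true (nat_lit 14) (.s false (nat_lit 3) (nat_lit 20) (nat_lit 0) (nat_lit 7) (nat_lit 4) true (nat_lit 8) true (nat_lit 12) true (nat_lit 3) true (nat_lit 16) true (nat_lit 9) (.s true (nat_lit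 2) (nat_lit 20) (nat_lit 1) (nat_lit 0) (nat_lit 18) true (nat_lit 0) true (nat_lit 4) true (nat_lit 3) true (nat_lit 15) true (nat_lit 16) (.s true (nat_lit 2) (nat_lit 20) (nat_lit 1) (nat_lit 3) (nat_lit 7) true (nat_lit 4) true (nat_lit 9) true (nat_lit 3) true (nat_lit 15) true (nat_lit 13) (.s true (nat_lit 1) (nat_lit 20) (nat_lit 1) (nat_lit 7) (nat_lit 3) true (nat_lit 8) true (nat_lit 13) true (nat_lit 3) true (nat_lit 15) true (nat_lit 9) (.s false (nat_lit 3) (nat_lit 20) (nat_lit 1) (nat_lit 13) (nat_lit 2) true (nat_lit 10) true (nat_lit 14) true (nat_lit 3) true (nat_lit 15) true (nat_lit 7) dC2d_i336)))))))))))))))))))))))))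

noncomputable def dC2d_i338 : IL := (.e true (nat_lit 3) (nat_lit 152) (nat_lit 7) (nat_lit 9) (.e false (nat_lit 2) (nat_lit 154) (nat_lit 7) (nat_lit 9) (.e true (nat_lit 2) (nat_lit 138) (nat_lit 7) (nat_lit 9) (.e true (nat_lit 2) (nat_lit 144) (nat_lit 7) (nat_lit 9) (.e false (nat_lit 1) (nat_lit 254) (nat_lit 2) (nat_lit 14) (.e true (nat_lit 3) (nat_lit 258) (nat_lit 2) (nat_lit 14) (.e false (nat_lit 1) (nat_lit 264) (nat_lit 2) (nat_lit 14) (.e false (nat_lit 2) (nat_lit 266) (nat_lit 2) (nat_lit 14) (.e false (nat_lit 2) (nat_lit 272) (nat_lit 2) (nat_lit 14) (.e true (nat_lit 3) (nat_lit 274) (nat_lit 2) (nat_lit 14) (.e false (nat_lit 3) (nat_lit 313) (nat_lit 1) (nat_lit 15) (.e false (nat_lit 1) (nat_lit 72) (nat_lit 20) (nat_lit 3) (.e true (nat_lit 1) (nat_lit 285) (nat_lit 2) (nat_lit 14) (.e false (nat_lit 1) (nat_lit 62) (nat_lit 20) (nat_lit 3) (.e true (nat_lit 2) (nat_lit 48) (nat_lit 26)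 (nat_lit 2) (.e false (nat_lit 1) (nat_lit 306) (nat_lit 1) (nat_lit 15) (.e true (nat_lit 1) (nat_lit 307) (nat_lit 1) (nat_lit 15) (.e true (nat_lit 1) (nat_lit 308) (nat_lit 1) (nat_lit 15) (.e true (nat_lit 1) (nat_lit 310) (nat_lit 1) (nat_lit 15) (.e false (nat_lit 3) (nat_lit 314) (nat_lit 1) (nat_lit 15) (.e true (nat_lit 1) (nat_lit 317) (nat_lit 1) (nat_lit 15) (.e false (nat_lit 1) (nat_lit 318) (nat_lit 1) (nat_lit 15) (.e true (nat_lit 3) (nat_lit 315) (nat_lit 1) (nat_lit 15) (.u (nat_lit 2) (.n (nat_lit 1) (nat_lit 3) (.n (nat_lit 2) (nat_lit 1) (.n (nat_lit 4) (nat_lit 1) (.p (nat_lit 5) (nat_lit 1) (.p (nat_lit 6) (nat_lit 3) (.n (nat_lit 7) (nat_lit 1) (.n (nat_lit 8) (nat_lit 1) (.n (nat_lit 9) (nat_lit 1) (.n (nat_lit 10) (nat_lit 1) (.n (nat_lit 11) (nat_lit 1) (.p (nat_lit 12) (nat_lit 3) (.n (nat_lit 13) (nat_lit 3) (.p (nat_lit 14) (nat_lit 1) (.p (nat_lit 15) (nat_lit 1) (.p (nat_lit 16)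 (nat_lit 1) (.n (nat_lit 17) (nat_lit 2) (.p (nat_lit 18) (nat_lit 2) (.p (nat_lit 21) (nat_lit 2) (.n (nat_lit 23) (nat_lit 1) (.n (nat_lit 24) (nat_lit 1) (.n (nat_lit 25) (nat_lit 1) (.n (nat_lit 27) (nat_lit 1) (.n (nat_lit 34) (nat_lit 2) (.n (nat_lit 38) (nat_lit 2) (.p (nat_lit 68) (nat_lit 1) (.n (nat_lit 98) (nat_lit 1) (.p (nat_lit 99) (nat_lit 1) (.p (nat_lit 100) (nat_lit 1) (.p (nat_lit 102) (nat_lit 1) (.n (nat_lit 129) (nat_lit 1) (.p (nat_lit 130) (nat_lit 1) (.n (nat_lit 142) (nat_lit 1) (.n (nat_lit 143) (nat_lit 1) (.p (nat_lit 144) (nat_lit 4) (.p (nat_lit 145) (nat_lit 1) (.n (nat_lit 147) (nat_lit 1) (.n (nat_lit 148) (nat_lit 3) (.n (nat_lit 151) (nat_lit 2) (.p (nat_lit 154) (nat_lit 1) (.p (nat_lit 155) (nat_lit 1) (.p (nat_lit 157) (nat_lit 3) (.n (nat_lit 159) (nat_lit 1) (.n (nat_lit 161) (nat_lit 2) (.p (nat_lit 162) (nat_lit 1) (.n (nat_lit 164) (nat_lit 3) (.n (nat_lit 165) (nat_lit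 2) (.p (nat_lit 166) (nat_lit 2) (.n (nat_lit 200) (nat_lit 1) (.p (nat_lit 201) (nat_lit 1) (.p (nat_lit 204) (nat_lit 3) (.p (nat_lit 205) (nat_lit 3) (.p (nat_lit 206) (nat_lit 1) (.n (nat_lit 210) (nat_lit 6) (.n (nat_lit 213) (nat_lit 3) (.n (nat_lit 215) (nat_lit 3) (.n (nat_lit 216) (nat_lit 4) (.p (nat_lit 217) (nat_lit 4) (.n (nat_lit 218) (nat_lit 6) (.p (nat_lit 219) (nat_lit 3) (.p (nat_lit 224) (nat_lit 4) .z)))))))))))))))))))))))))))))))))))))))))))))))))))))))))))) (.u (nat_lit 2) (.p (nat_lit 226) (nat_lit 5) (.n (nat_lit 229) (nat_lit 3) (.p (nat_lit 230) (nat_lit 1) (.p (nat_lit 235) (nat_lit 3) (.n (nat_lit 237) (nat_lit 3) (.p (nat_lit 239) (nat_lit 1) (.n (nat_lit 241) (nat_lit 3) (.n (nat_lit 242) (nat_lit 2) (.p (nat_lit 243) (nat_lit 5) (.p (nat_lit 244) (nat_lit 2) (.p (nat_lit 245) (nat_lit 2) (.n (nat_lit 246) (nat_lit 3) (.n (nat_lit 247) (nat_lit 1) (.n (nat_lit 248) (nat_lit 1) (.n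 (nat_lit 249) (nat_lit 2) (.p (nat_lit 250) (nat_lit 4) (.n (nat_lit 251) (nat_lit 2) (.p (nat_lit 253) (nat_lit 1) (.n (nat_lit 257) (nat_lit 1) (.p (nat_lit 258) (nat_lit 1) .z)))))))))))))))))))) .nil)))))))))))))))))))))))))

noncomputable def dC2d_i339 : IL := (.s true (nat_lit 2) (nat_lit 11) (nat_lit 7) (nat_lit 2) (nat_lit 6) false (nat_lit 1) true (nat_lit 10) true (nat_lit 7) true (nat_lit 9) true (nat_lit 14) (.s false (nat_lit 1) (nat_lit 11) (nat_lit 7) (nat_lit 7) (nat_lit 1) true (nat_lit 4) true (nat_lit 15) true (nat_lit 7) true (nat_lit 9) true (nat_lit 9) (.s false (nat_lit 3) (nat_lit 18) (nat_lit 2) (nat_lit 3) (nat_lit 7) true (nat_lit 3) true (nat_lit 9) true (nat_lit 4) true (nat_lit 14) true (nat_lit 13) (.s false (nat_lit 3) (nat_lit 19) (nat_lit 3) (nat_lit 7) (nat_lit 2) true (nat_lit 7) true (nat_lit 14) true (nat_lit 4) true (nat_lit 13) true (nat_lit 9) (.s true (nat_lit 3) (nat_lit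 19) (nat_lit 7) (nat_lit 3) (nat_lit 2) true (nat_lit 3) true (nat_lit 14) true (nat_lit 4) true (nat_lit 9) true (nat_lit 13) (.s false (nat_lit 3) (nat_lit 18) (nat_lit 11) (nat_lit 2) (nat_lit 2) true (nat_lit 1) true (nat_lit 14) true (nat_lit 4) true (nat_lit 7) true (nat_lit 14) (.s true (nat_lit 3) (nat_lit 20) (nat_lit 1) (nat_lit 2) (nat_lit 11) true (nat_lit 2) true (nat_lit 7) true (nat_lit 3) true (nat_lit 15) true (nat_lit 14) (.s false (nat_lit 1) (nat_lit 20) (nat_lit 1) (nat_lit 3) (nat_lit 7) true (nat_lit 4) true (nat_lit 9) true (nat_lit 3) true (nat_lit 15) true (nat_lit 13) (.s false (nat_lit 3) (nat_lit 20) (nat_lit 1) (nat_lit 7) (nat_lit 3) true (nat_lit 8) true (nat_lit 13) true (nat_lit 3) true (nat_lit 15) true (nat_lit 9) (.s false (nat_lit 2) (nat_lit 20) (nat_lit 1) (nat_lit 11) (nat_lit 2) true (nat_lit 10) true (nat_lit 14) true (nat_lit 3) true (nat_lit 15) true (nat_lit 7) (.s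 false (nat_lit 1) (nat_lit 20) (nat_lit 2) (nat_lit 1) (nat_lit 11) true (nat_lit 1) true (nat_lit 7) true (nat_lit 3) true (nat_lit 14) true (nat_lit 15) (.s true (nat_lit 3) (nat_lit 20) (nat_lit 3) (nat_lit 7) (nat_lit 1) true (nat_lit 8) true (nat_lit 15) true (nat_lit 3) true (nat_lit 13) true (nat_lit 9) (.s true (nat_lit 2) (nat_lit 20) (nat_lit 11) (nat_lit 2) (nat_lit 1) true (nat_lit 2) true (nat_lit 15) true (nat_lit 3) true (nat_lit 7) true (nat_lit 14) (.s true (nat_lit 3) (nat_lit 24) (nat_lit 2) (nat_lit 2) (nat_lit 7) true (nat_lit 3) true (nat_lit 9) true (nat_lit 2) true (nat_lit 14) true (nat_lit 14) (.s true (nat_lit 2) (nat_lit 33) (nat_lit 1) (nat_lit 2) (nat_lit 7) true (nat_lit 4) true (nat_lit 9) true (nat_lit 1) true (nat_lit 15) true (nat_lit 14) (.s true (nat_lit 1) (nat_lit 33) (nat_lit 1) (nat_lit 7) (nat_lit 2) true (nat_lit 10) true (nat_lit 14) true (nat_lit 1) true (nat_lit 15)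 true (nat_lit 9) (.s true (nat_lit 1) (nat_lit 33) (nat_lit 2) (nat_lit 2) (nat_lit 6) true (nat_lit 4) true (nat_lit 10) true (nat_lit 1) true (nat_lit 14) true (nat_lit 14) (.s false (nat_lit 3) (nat_lit 33) (nat_lit 6) (nat_lit 2) (nat_lit 2) true (nat_lit 4) true (nat_lit 14) true (nat_lit 1) true (nat_lit 10) true (nat_lit 14) (.s true (nat_lit 2) (nat_lit 66) (nat_lit 2) (nat_lit 2) (nat_lit 2) true (nat_lit 9) true (nat_lit 14) false (nat_lit 3) true (nat_lit 14) true (nat_lit 14) (.s true (nat_lit 1) (nat_lit 73) (nat_lit 2) (nat_lit 2) (nat_lit 2) true (nat_lit 9) true (nat_lit 14) false (nat_lit 3) true (nat_lit 14) true (nat_lit 14) (.s true (nat_lit 1) (nat_lit 80) (nat_lit 1) (nat_lit 2) (nat_lit 2) true (nat_lit 10) true (nat_lit 14) false (nat_lit 4) true (nat_lit 15) true (nat_lit 14) (.s false (nat_lit 2) (nat_lit 80) (nat_lit 2) (nat_lit 1) (nat_lit 2) true (nat_lit 9) true (nat_lit 14) false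 (nat_lit 4) true (nat_lit 14) true (nat_lit 15) (.s false (nat_lit 3) (nat_lit 88) (nat_lit 2) (nat_lit 1) (nat_lit 2) true (nat_lit 9) true (nat_lit 14) false (nat_lit 4) true (nat_lit 14) true (nat_lit 15) (.s false (nat_lit 2) (nat_lit 80) (nat_lit 2) (nat_lit 2) (nat_lit 1) true (nat_lit 10) true (nat_lit 15) false (nat_lit 4) true (nat_lit 14) true (nat_lit 14) (.e false (nat_lit 3) (nat_lit 134) (nat_lit 7) (nat_lit 9) dC2d_i338)))))))))))))))))))))))))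

noncomputable def dC2d_i340 : IL := (.e false (nat_lit 2) (nat_lit 153) (nat_lit 7) (nat_lit 9) (.e false (nat_lit 2) (nat_lit 313) (nat_lit 1) (nat_lit 15) (.e true (nat_lit 2) (nat_lit 282) (nat_lit 2) (nat_lit 14) (.e false (nat_lit 1) (nat_lit 284) (nat_lit 2) (nat_lit 14) (.e true (nat_lit 3) (nat_lit 326) (nat_lit 0) (nat_lit 16) (.e false (nat_lit 3) (nat_lit 327) (nat_lit 0) (nat_lit 16) (.e false (nat_lit 2) (nat_lit 328) (nat_lit 0) (nat_lit 16) (.e true (nat_lit 1) (nat_lit 331) (nat_lit 0) (nat_lit 16) (.e false (nat_lit 2) (nat_lit 330) (nat_lit 0) (nat_lit 16) (.e false (nat_lit 1) (nat_lit 308) (nat_lit 1) (nat_lit 15) (.e false (nat_lit 3) (nat_lit 309) (nat_lit 1) (nat_lit 15) (.e false (nat_lit 3) (nat_lit 310) (nat_lit 1) (nat_lit 15) (.e true (nat_lit 3) (nat_lit 312) (nat_lit 1) (nat_lit 15) (.e true (nat_lit 1) (nat_lit 315) (nat_lit 1) (nat_lit 15) (.e true (nat_lit 3) (nat_lit 307) (nat_lit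 1) (nat_lit 15) (.e true (nat_lit 3) (nat_lit 311) (nat_lit 1) (nat_lit 15) (.e true (nat_lit 1) (nat_lit 325) (nat_lit 0) (nat_lit 16) (.e true (nat_lit 1) (nat_lit 333) (nat_lit 0) (nat_lit 16) (.e false (nat_lit 1) (nat_lit 72) (nat_lit 20) (nat_lit 3) (.e true (nat_lit 3) (nat_lit 318) (nat_lit 1) (nat_lit 15) (.e false (nat_lit 2) (nat_lit 319) (nat_lit 1) (nat_lit 15) (.e true (nat_lit 1) (nat_lit 332) (nat_lit 0) (nat_lit 16) (.u (nat_lit 2) (.n (nat_lit 1) (nat_lit 1) (.p (nat_lit 2) (nat_lit 1) (.p (nat_lit 4) (nat_lit 3) (.n (nat_lit 5) (nat_lit 1) (.p (nat_lit 6) (nat_lit 1) (.p (nat_lit 7) (nat_lit 1) (.p (nat_lit 10) (nat_lit 1) (.n (nat_lit 11) (nat_lit 2) (.p (nat_lit 14) (nat_lit 1) (.n (nat_lit 15) (nat_lit 1) (.n (nat_lit 16) (nat_lit 1) (.n (nat_lit 17) (nat_lit 2) (.p (nat_lit 18) (nat_lit 2) (.n (nat_lit 21) (nat_lit 2) (.n (nat_lit 24) (nat_lit 3) (.n (nat_lit 33) (nat_lit 1) (.p (nat_lit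 35) (nat_lit 1) (.p (nat_lit 38) (nat_lit 1) (.p (nat_lit 40) (nat_lit 1) (.p (nat_lit 43) (nat_lit 1) (.n (nat_lit 44) (nat_lit 1) (.p (nat_lit 47) (nat_lit 1) (.p (nat_lit 52) (nat_lit 1) (.n (nat_lit 55) (nat_lit 1) (.p (nat_lit 68) (nat_lit 1) (.n (nat_lit 69) (nat_lit 1) (.p (nat_lit 71) (nat_lit 1) (.n (nat_lit 72) (nat_lit 1) (.n (nat_lit 73) (nat_lit 1) (.p (nat_lit 75) (nat_lit 1) (.n (nat_lit 77) (nat_lit 1) (.p (nat_lit 80) (nat_lit 1) (.n (nat_lit 83) (nat_lit 1) (.p (nat_lit 84) (nat_lit 1) (.p (nat_lit 86) (nat_lit 1) (.n (nat_lit 87) (nat_lit 1) (.p (nat_lit 88) (nat_lit 1) (.n (nat_lit 90) (nat_lit 1) (.n (nat_lit 91) (nat_lit 1) (.p (nat_lit 96) (nat_lit 1) (.n (nat_lit 97) (nat_lit 1) (.p (nat_lit 98) (nat_lit 1) (.n (nat_lit 108) (nat_lit 1) (.p (nat_lit 109) (nat_lit 2) (.p (nat_lit 110) (nat_lit 1) (.n (nat_lit 112) (nat_lit 1) (.p (nat_lit 113) (nat_lit 1) (.p (nat_lit 118) (nat_lit 1) (.n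 (nat_lit 119) (nat_lit 1) (.n (nat_lit 122) (nat_lit 1) (.p (nat_lit 125) (nat_lit 1) (.n (nat_lit 127) (nat_lit 1) (.p (nat_lit 129) (nat_lit 1) (.n (nat_lit 130) (nat_lit 1) (.n (nat_lit 133) (nat_lit 1) (.p (nat_lit 134) (nat_lit 1) (.p (nat_lit 142) (nat_lit 4) (.n (nat_lit 144) (nat_lit 1) (.p (nat_lit 145) (nat_lit 2) (.p (nat_lit 146) (nat_lit 1) .z)))))))))))))))))))))))))))))))))))))))))))))))))))))))))))) (.u (nat_lit 2) (.p (nat_lit 147) (nat_lit 1) (.n (nat_lit 148) (nat_lit 2) (.p (nat_lit 149) (nat_lit 2) (.n (nat_lit 150) (nat_lit 3) (.p (nat_lit 151) (nat_lit 4) (.p (nat_lit 153) (nat_lit 1) (.p (nat_lit 154) (nat_lit 1) (.n (nat_lit 155) (nat_lit 1) (.n (nat_lit 157) (nat_lit 2) (.n (nat_lit 159) (nat_lit 1) (.p (nat_lit 160) (nat_lit 1) (.p (nat_lit 161) (nat_lit 3) (.p (nat_lit 162) (nat_lit 1) (.p (nat_lit 163) (nat_lit 2) (.p (nat_lit 164) (nat_lit 1) (.n (nat_lit 165) (nat_lit 2) (.n (nat_lit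 166) (nat_lit 2) (.n (nat_lit 167) (nat_lit 1) (.p (nat_lit 168) (nat_lit 1) (.n (nat_lit 169) (nat_lit 2) (.n (nat_lit 170) (nat_lit 1) (.p (nat_lit 171) (nat_lit 4) (.n (nat_lit 172) (nat_lit 2) (.p (nat_lit 173) (nat_lit 2) (.n (nat_lit 174) (nat_lit 1) (.n (nat_lit 175) (nat_lit 1) (.p (nat_lit 177) (nat_lit 2) (.p (nat_lit 178) (nat_lit 1) (.n (nat_lit 180) (nat_lit 1) (.p (nat_lit 186) (nat_lit 1) (.p (nat_lit 187) (nat_lit 1) (.n (nat_lit 188) (nat_lit 1) (.p (nat_lit 192) (nat_lit 1) (.p (nat_lit 204) (nat_lit 17) (.n (nat_lit 205) (nat_lit 1) (.n (nat_lit 206) (nat_lit 22) (.p (nat_lit 207) (nat_lit 7) (.n (nat_lit 208) (nat_lit 8) (.p (nat_lit 209) (nat_lit 17) (.n (nat_lit 210) (nat_lit 1) (.n (nat_lit 211) (nat_lit 6) (.p (nat_lit 212) (nat_lit 16) (.n (nat_lit 213) (nat_lit 1) (.p (nat_lit 214) (nat_lit 6) (.n (nat_lit 215) (nat_lit 1) (.n (nat_lit 216) (nat_lit 15) (.n (nat_lit 217) (nat_lit 6) (.n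 (nat_lit 218) (nat_lit 5) (.p (nat_lit 219) (nat_lit 8) (.p (nat_lit 220) (nat_lit 4) (.p (nat_lit 221) (nat_lit 3) (.p (nat_lit 222) (nat_lit 14) (.n (nat_lit 223) (nat_lit 5) (.p (nat_lit 224) (nat_lit 6) (.n (nat_lit 225) (nat_lit 14) (.p (nat_lit 226) (nat_lit 6) (.p (nat_lit 227) (nat_lit 7) (.n (nat_lit 228) (nat_lit 9) (.n (nat_lit 229) (nat_lit 10) (.p (nat_lit 230) (nat_lit 3) .z)))))))))))))))))))))))))))))))))))))))))))))))))))))))))))) (.u (nat_lit 2) (.n (nat_lit 231) (nat_lit 1) (.n (nat_lit 232) (nat_lit 3) (.p (nat_lit 233) (nat_lit 1) (.n (nat_lit 234) (nat_lit 2) (.n (nat_lit 235) (nat_lit 3) (.p (nat_lit 236) (nat_lit 1) (.n (nat_lit 237) (nat_lit 3) (.n (nat_lit 238) (nat_lit 2) (.p (nat_lit 240) (nat_lit 3) (.n (nat_lit 241) (nat_lit 2) (.n (nat_lit 242) (nat_lit 1) (.p (nat_lit 243) (nat_lit 2) (.p (nat_lit 244) (nat_lit 3) (.p (nat_lit 245) (nat_lit 3) (.p (nat_lit 246) (nat_lit 1) (.n (nat_lit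 247) (nat_lit 2) (.n (nat_lit 248) (nat_lit 2) (.n (nat_lit 249) (nat_lit 1) (.n (nat_lit 251) (nat_lit 4) (.n (nat_lit 252) (nat_lit 1) (.n (nat_lit 253) (nat_lit 3) (.p (nat_lit 254) (nat_lit 3) (.p (nat_lit 259) (nat_lit 1) (.n (nat_lit 260) (nat_lit 2) (.n (nat_lit 261) (nat_lit 1) (.p (nat_lit 262) (nat_lit 1) (.n (nat_lit 263) (nat_lit 5) (.p (nat_lit 264) (nat_lit 1) (.p (nat_lit 265) (nat_lit 4) (.p (nat_lit 266) (nat_lit 4) (.n (nat_lit 267) (nat_lit 2) (.n (nat_lit 269) (nat_lit 1) (.n (nat_lit 270) (nat_lit 1) .z))))))))))))))))))))))))))))))))) .nil)))))))))))))))))))))))))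

noncomputable def dC2d_i341 : IL := (.s false (nat_lit 1) (nat_lit 93) (nat_lit 2) (nat_lit 2) (nat_lit 0) true (nat_lit 11) true (nat_lit 16) false (nat_lit 5) true (nat_lit 14) true (nat_lit 14) (.s false (nat_lit 2) (nat_lit 94) (nat_lit 2) (nat_lit 2) (nat_lit 0) true (nat_lit 11) true (nat_lit 16) false (nat_lit 5) true (nat_lit 14) true (nat_lit 14) (.s true (nat_lit 3) (nat_lit 95) (nat_lit 2) (nat_lit 2) (nat_lit 0) true (nat_lit 11) true (nat_lit 16) false (nat_lit 5) true (nat_lit 14) true (nat_lit 14) (.s false (nat_lit 2) (nat_lit 96) (nat_lit 2) (nat_lit 2) (nat_lit 0) true (nat_lit 11) true (nat_lit 16) false (nat_lit 5) true (nat_lit 14) true (nat_lit 14) (.s false (nat_lit 3) (nat_lit 103) (nat_lit 0) (nat_lit 1) (nat_lit 2) true (nat_lit 11) true (nat_lit 14) false (nat_lit 7) true (nat_lit 16) true (nat_lit 15) (.s true (nat_lit 3) (nat_lit 103) (nat_lit 1) (nat_lit 0) (nat_lit 2) true (nat_lit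 10) true (nat_lit 14) false (nat_lit 7) true (nat_lit 15) true (nat_lit 16) (.s true (nat_lit 1) (nat_lit 101) (nat_lit 2) (nat_lit 1) (nat_lit 0) true (nat_lit 11) true (nat_lit 16) false (nat_lit 7) true (nat_lit 14) true (nat_lit 15) (.s false (nat_lit 2) (nat_lit 103) (nat_lit 2) (nat_lit 1) (nat_lit 0) true (nat_lit 11) true (nat_lit 16) false (nat_lit 7) true (nat_lit 14) true (nat_lit 15) (.e true (nat_lit 1) (nat_lit 154) (nat_lit 7) (nat_lit 9) (.e true (nat_lit 1) (nat_lit 252) (nat_lit 2) (nat_lit 14) (.e false (nat_lit 1) (nat_lit 253) (nat_lit 2) (nat_lit 14) (.e true (nat_lit 2) (nat_lit 254) (nat_lit 2) (nat_lit 14) (.e false (nat_lit 1) (nat_lit 258) (nat_lit 2) (nat_lit 14) (.e false (nat_lit 2) (nat_lit 259) (nat_lit 2) (nat_lit 14) (.e false (nat_lit 1) (nat_lit 265) (nat_lit 2) (nat_lit 14) (.e false (nat_lit 2) (nat_lit 267) (nat_lit 2) (nat_lit 14) (.e true (nat_lit 3) (nat_lit 271) (nat_lit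 2) (nat_lit 14) (.e false (nat_lit 1) (nat_lit 272) (nat_lit 2) (nat_lit 14) (.e true (nat_lit 2) (nat_lit 273) (nat_lit 2) (nat_lit 14) (.e true (nat_lit 3) (nat_lit 274) (nat_lit 2) (nat_lit 14) (.e true (nat_lit 3) (nat_lit 283) (nat_lit 2) (nat_lit 14) (.e false (nat_lit 2) (nat_lit 285) (nat_lit 2) (nat_lit 14) (.e true (nat_lit 1) (nat_lit 140) (nat_lit 7) (nat_lit 9) (.e false (nat_lit 3) (nat_lit 144) (nat_lit 7) (nat_lit 9) (.e true (nat_lit 2) (nat_lit 257) (nat_lit 2) (nat_lit 14) dC2d_i340)))))))))))))))))))))))))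

noncomputable def dC2d_i342 : IL := (.s true (nat_lit 3) (nat_lit 82) (nat_lit 1) (nat_lit 2) (nat_lit 2) true (nat_lit 10) true (nat_lit 14) false (nat_lit 4) true (nat_lit 15) true (nat_lit 14) (.s false (nat_lit 1) (nat_lit 84) (nat_lit 1) (nat_lit 2) (nat_lit 2) true (nat_lit 10) true (nat_lit 14) false (nat_lit 4) true (nat_lit 15) true (nat_lit 14) (.s true (nat_lit 1) (nat_lit 85) (nat_lit 1) (nat_lit 2) (nat_lit 2) true (nat_lit 10) true (nat_lit 14) false (nat_lit 4) true (nat_lit 15) true (nat_lit 14) (.s false (nat_lit 2) (nat_lit 86) (nat_lit 1) (nat_lit 2) (nat_lit 2) true (nat_lit 10) true (nat_lit 14) false (nat_lit 4) true (nat_lit 15) true (nat_lit 14) (.s true (nat_lit 2) (nat_lit 87) (nat_lit 1) (nat_lit 2) (nat_lit 2) true (nat_lit 10) true (nat_lit 14) false (nat_lit 4) true (nat_lit 15) true (nat_lit 14) (.s true (nat_lit 2) (nat_lit 88) (nat_lit 1) (nat_lit 2) (nat_lit 2) true (nat_lit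 10) true (nat_lit 14) false (nat_lit 4) true (nat_lit 15) true (nat_lit 14) (.s true (nat_lit 3) (nat_lit 90) (nat_lit 1) (nat_lit 2) (nat_lit 2) true (nat_lit 10) true (nat_lit 14) false (nat_lit 4) true (nat_lit 15) true (nat_lit 14) (.s true (nat_lit 2) (nat_lit 80) (nat_lit 2) (nat_lit 1) (nat_lit 2) true (nat_lit 9) true (nat_lit 14) false (nat_lit 4) true (nat_lit 14) true (nat_lit 15) (.s true (nat_lit 2) (nat_lit 81) (nat_lit 2) (nat_lit 1) (nat_lit 2) true (nat_lit 9) true (nat_lit 14) false (nat_lit 4) true (nat_lit 14) true (nat_lit 15) (.s true (nat_lit 1) (nat_lit 88) (nat_lit 2) (nat_lit 1) (nat_lit 2) true (nat_lit 9) true (nat_lit 14) false (nat_lit 4) true (nat_lit 14) true (nat_lit 15) (.s true (nat_lit 3) (nat_lit 90) (nat_lit 2) (nat_lit 1) (nat_lit 2) true (nat_lit 9) true (nat_lit 14) false (nat_lit 4) true (nat_lit 14) true (nat_lit 15) (.s false (nat_lit 1) (nat_lit 82) (nat_lit 2) (nat_lit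 2) (nat_lit 1) true (nat_lit 10) true (nat_lit 15) false (nat_lit 4) true (nat_lit 14) true (nat_lit 14) (.s false (nat_lit 3) (nat_lit 84) (nat_lit 2) (nat_lit 2) (nat_lit 1) true (nat_lit 10) true (nat_lit 15) false (nat_lit 4) true (nat_lit 14) true (nat_lit 14) (.s false (nat_lit 3) (nat_lit 85) (nat_lit 2) (nat_lit 2) (nat_lit 1) true (nat_lit 10) true (nat_lit 15) false (nat_lit 4) true (nat_lit 14) true (nat_lit 14) (.s false (nat_lit 3) (nat_lit 86) (nat_lit 2) (nat_lit 2) (nat_lit 1) true (nat_lit 10) true (nat_lit 15) false (nat_lit 4) true (nat_lit 14) true (nat_lit 14) (.s false (nat_lit 3) (nat_lit 87) (nat_lit 2) (nat_lit 2) (nat_lit 1) true (nat_lit 10) true (nat_lit 15) false (nat_lit 4) true (nat_lit 14) true (nat_lit 14) (.s true (nat_lit 3) (nat_lit 90) (nat_lit 2) (nat_lit 2) (nat_lit 1) true (nat_lit 10) true (nat_lit 15) false (nat_lit 4) true (nat_lit 14) true (nat_lit 14) (.s false (nat_lit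 2) (nat_lit 92) (nat_lit 0) (nat_lit 2) (nat_lit 2) true (nat_lit 11) true (nat_lit 14) false (nat_lit 5) true (nat_lit 16) true (nat_lit 14) (.s false (nat_lit 1) (nat_lit 93) (nat_lit 0) (nat_lit 2) (nat_lit 2) true (nat_lit 11) true (nat_lit 14) false (nat_lit 5) true (nat_lit 16) true (nat_lit 14) (.s false (nat_lit 2) (nat_lit 94) (nat_lit 0) (nat_lit 2) (nat_lit 2) true (nat_lit 11) true (nat_lit 14) false (nat_lit 5) true (nat_lit 16) true (nat_lit 14) (.s true (nat_lit 2) (nat_lit 95) (nat_lit 0) (nat_lit 2) (nat_lit 2) true (nat_lit 11) true (nat_lit 14) false (nat_lit 5) true (nat_lit 16) true (nat_lit 14) (.s false (nat_lit 2) (nat_lit 96) (nat_lit 0) (nat_lit 2) (nat_lit 2) true (nat_lit 11) true (nat_lit 14) false (nat_lit 5) true (nat_lit 16) true (nat_lit 14) (.s true (nat_lit 3) (nat_lit 92) (nat_lit 2) (nat_lit 0) (nat_lit 2) true (nat_lit 9) true (nat_lit 14) false (nat_lit 5) true (nat_lit 14)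 true (nat_lit 16) (.s false (nat_lit 3) (nat_lit 91) (nat_lit 2) (nat_lit 2) (nat_lit 0) true (nat_lit 11) true (nat_lit 16) false (nat_lit 5) true (nat_lit 14) true (nat_lit 14) (.s false (nat_lit 2) (nat_lit 92) (nat_lit 2) (nat_lit 2) (nat_lit 0) true (nat_lit 11) true (nat_lit 16) false (nat_lit 5) true (nat_lit 14) true (nat_lit 14) dC2d_i341)))))))))))))))))))))))))

noncomputable def dC2d_i343 : IL := (.s true (nat_lit 1) (nat_lit 41) (nat_lit 2) (nat_lit 5) (nat_lit 2) true (nat_lit 9) true (nat_lit 14) true (nat_lit 0) true (nat_lit 14) true (nat_lit 11) (.s false (nat_lit 1) (nat_lit 39) (nat_lit 2) (nat_lit 7) (nat_lit 0) true (nat_lit 11) true (nat_lit 16) true (nat_lit 0) true (nat_lit 14) true (nat_lit 9) (.s false (nat_lit 3) (nat_lit 40) (nat_lit 7) (nat_lit 0) (nat_lit 2) true (nat_lit 3) true (nat_lit 14) true (nat_lit 0) true (nat_lit 9) true (nat_lit 16) (.s true (nat_lit 3) (nat_lit 44) (nat_lit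 1) (nat_lit 1) (nat_lit 7) true (nat_lit 4) true (nat_lit 9) false (nat_lit 0) true (nat_lit 15) true (nat_lit 15) (.s false (nat_lit 1) (nat_lit 42) (nat_lit 1) (nat_lit 2) (nat_lit 6) true (nat_lit 6) true (nat_lit 10) false (nat_lit 0) true (nat_lit 15) true (nat_lit 14) (.s true (nat_lit 1) (nat_lit 42) (nat_lit 1) (nat_lit 6) (nat_lit 2) true (nat_lit 10) true (nat_lit 14) false (nat_lit 0) true (nat_lit 15) true (nat_lit 10) (.s true (nat_lit 1) (nat_lit 44) (nat_lit 1) (nat_lit 6) (nat_lit 2) true (nat_lit 10) true (nat_lit 14) false (nat_lit 0) true (nat_lit 15) true (nat_lit 10) (.s false (nat_lit 1) (nat_lit 42) (nat_lit 2) (nat_lit 1) (nat_lit 6) true (nat_lit 4) true (nat_lit 10) false (nat_lit 0) true (nat_lit 14) true (nat_lit 15) (.s false (nat_lit 3) (nat_lit 44) (nat_lit 4) (nat_lit 2) (nat_lit 2) true (nat_lit 6) true (nat_lit 14) false (nat_lit 0) true (nat_lit 12) true (nat_lit 14) (.s true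 (nat_lit 1) (nat_lit 42) (nat_lit 6) (nat_lit 2) (nat_lit 1) true (nat_lit 6) true (nat_lit 15) false (nat_lit 0) true (nat_lit 10) true (nat_lit 14) (.s false (nat_lit 1) (nat_lit 44) (nat_lit 6) (nat_lit 2) (nat_lit 1) true (nat_lit 6) true (nat_lit 15) false (nat_lit 0) true (nat_lit 10) true (nat_lit 14) (.s true (nat_lit 3) (nat_lit 46) (nat_lit 0) (nat_lit 2) (nat_lit 6) true (nat_lit 7) true (nat_lit 10) false (nat_lit 1) true (nat_lit 16) true (nat_lit 14) (.s true (nat_lit 1) (nat_lit 47) (nat_lit 1) (nat_lit 5) (nat_lit 2) true (nat_lit 10) true (nat_lit 14) false (nat_lit 1) true (nat_lit 15) true (nat_lit 11) (.s false (nat_lit 3) (nat_lit 47) (nat_lit 2) (nat_lit 3) (nat_lit 2) true (nat_lit 9) true (nat_lit 14) false (nat_lit 1) true (nat_lit 14) true (nat_lit 13) (.s true (nat_lit 3) (nat_lit 47) (nat_lit 3) (nat_lit 2) (nat_lit 2) true (nat_lit 7) true (nat_lit 14) false (nat_lit 1) true (nat_lit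 13) true (nat_lit 14) (.s true (nat_lit 3) (nat_lit 46) (nat_lit 7) (nat_lit 1) (nat_lit 0) true (nat_lit 5) true (nat_lit 16) false (nat_lit 1) true (nat_lit 9) true (nat_lit 15) (.s true (nat_lit 3) (nat_lit 48) (nat_lit 2) (nat_lit 3) (nat_lit 1) true (nat_lit 10) true (nat_lit 15) false (nat_lit 2) true (nat_lit 14) true (nat_lit 13) (.s true (nat_lit 3) (nat_lit 48) (nat_lit 6) (nat_lit 0) (nat_lit 1) true (nat_lit 6) true (nat_lit 15) false (nat_lit 2) true (nat_lit 10) true (nat_lit 16) (.s true (nat_lit 1) (nat_lit 66) (nat_lit 2) (nat_lit 2) (nat_lit 2) true (nat_lit 9) true (nat_lit 14) false (nat_lit 3) true (nat_lit 14) true (nat_lit 14) (.s true (nat_lit 3) (nat_lit 67) (nat_lit 2) (nat_lit 2) (nat_lit 2) true (nat_lit 9) true (nat_lit 14) false (nat_lit 3) true (nat_lit 14) true (nat_lit 14) (.s true (nat_lit 2) (nat_lit 68) (nat_lit 2) (nat_lit 2) (nat_lit 2) true (nat_lit 9) true (nat_lit 14) false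 (nat_lit 3) true (nat_lit 14) true (nat_lit 14) (.s false (nat_lit 2) (nat_lit 70) (nat_lit 2) (nat_lit 2) (nat_lit 2) true (nat_lit 9) true (nat_lit 14) false (nat_lit 3) true (nat_lit 14) true (nat_lit 14) (.s false (nat_lit 2) (nat_lit 71) (nat_lit 2) (nat_lit 2) (nat_lit 2) true (nat_lit 9) true (nat_lit 14) false (nat_lit 3) true (nat_lit 14) true (nat_lit 14) (.s true (nat_lit 1) (nat_lit 73) (nat_lit 2) (nat_lit 2) (nat_lit 2) true (nat_lit 9) true (nat_lit 14) false (nat_lit 3) true (nat_lit 14) true (nat_lit 14) (.s true (nat_lit 2) (nat_lit 81) (nat_lit 1) (nat_lit 2) (nat_lit 2) true (nat_lit 10) true (nat_lit 14) false (nat_lit 4) true (nat_lit 15) true (nat_lit 14) dC2d_i342)))))))))))))))))))))))))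

noncomputable def dC2d_i344 : IL := (.s false (nat_lit 3) (nat_lit 28) (nat_lit 2) (nat_lit 2) (nat_lit 7) true (nat_lit 3) true (nat_lit 9) true (nat_lit 2) true (nat_lit 14) true (nat_lit 14) (.s true (nat_lit 3) (nat_lit 29) (nat_lit 2) (nat_lit 2) (nat_lit 7) true (nat_lit 3) true (nat_lit 9) true (nat_lit 2) true (nat_lit 14) true (nat_lit 14) (.s false (nat_lit 3) (nat_lit 27) (nat_lit 2) (nat_lit 7) (nat_lit 2) true (nat_lit 9) true (nat_lit 14) true (nat_lit 2) true (nat_lit 14) true (nat_lit 9) (.s true (nat_lit 1) (nat_lit 27) (nat_lit 7) (nat_lit 2) (nat_lit 2) true (nat_lit 3) true (nat_lit 14) true (nat_lit 2) true (nat_lit 9) true (nat_lit 14) (.s false (nat_lit 3) (nat_lit 29) (nat_lit 7) (nat_lit 2) (nat_lit 2) true (nat_lit 3) true (nat_lit 14) true (nat_lit 2) true (nat_lit 9) true (nat_lit 14) (.s false (nat_lit 1) (nat_lit 33) (nat_lit 1) (nat_lit 2) (nat_lit 7) true (nat_lit 4) true (nat_lit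 9) true (nat_lit 1) true (nat_lit 15) true (nat_lit 14) (.s true (nat_lit 3) (nat_lit 34) (nat_lit 1) (nat_lit 2) (nat_lit 7) true (nat_lit 4) true (nat_lit 9) true (nat_lit 1) true (nat_lit 15) true (nat_lit 14) (.s true (nat_lit 1) (nat_lit 35) (nat_lit 1) (nat_lit 2) (nat_lit 7) true (nat_lit 4) true (nat_lit 9) true (nat_lit 1) true (nat_lit 15) true (nat_lit 14) (.s false (nat_lit 3) (nat_lit 38) (nat_lit 1) (nat_lit 2) (nat_lit 7) true (nat_lit 4) true (nat_lit 9) true (nat_lit 1) true (nat_lit 15) true (nat_lit 14) (.s true (nat_lit 2) (nat_lit 33) (nat_lit 1) (nat_lit 7) (nat_lit 2) true (nat_lit 10) true (nat_lit 14) true (nat_lit 1) true (nat_lit 15) true (nat_lit 9) (.s false (nat_lit 1) (nat_lit 33) (nat_lit 2) (nat_lit 2) (nat_lit 6) true (nat_lit 4) true (nat_lit 10) true (nat_lit 1) true (nat_lit 14) true (nat_lit 14) (.s false (nat_lit 2) (nat_lit 34) (nat_lit 2) (nat_lit 2) (nat_lit 6) true (nat_lit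 4) true (nat_lit 10) true (nat_lit 1) true (nat_lit 14) true (nat_lit 14) (.s true (nat_lit 3) (nat_lit 35) (nat_lit 2) (nat_lit 2) (nat_lit 6) true (nat_lit 4) true (nat_lit 10) true (nat_lit 1) true (nat_lit 14) true (nat_lit 14) (.s true (nat_lit 1) (nat_lit 34) (nat_lit 2) (nat_lit 7) (nat_lit 1) true (nat_lit 10) true (nat_lit 15) true (nat_lit 1) true (nat_lit 14) true (nat_lit 9) (.s false (nat_lit 1) (nat_lit 35) (nat_lit 2) (nat_lit 7) (nat_lit 1) true (nat_lit 10) true (nat_lit 15) true (nat_lit 1) true (nat_lit 14) true (nat_lit 9) (.s false (nat_lit 3) (nat_lit 38) (nat_lit 2) (nat_lit 7) (nat_lit 1) true (nat_lit 10) true (nat_lit 15) true (nat_lit 1) true (nat_lit 14) true (nat_lit 9) (.s false (nat_lit 3) (nat_lit 33) (nat_lit 6) (nat_lit 2) (nat_lit 2) true (nat_lit 4) true (nat_lit 14) true (nat_lit 1) true (nat_lit 10) true (nat_lit 14) (.s true (nat_lit 2) (nat_lit 34) (nat_lit 6) (nat_lit 2)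 (nat_lit 2) true (nat_lit 4) true (nat_lit 14) true (nat_lit 1) true (nat_lit 10) true (nat_lit 14) (.s true (nat_lit 1) (nat_lit 35) (nat_lit 6) (nat_lit 2) (nat_lit 2) true (nat_lit 4) true (nat_lit 14) true (nat_lit 1) true (nat_lit 10) true (nat_lit 14) (.s true (nat_lit 2) (nat_lit 39) (nat_lit 0) (nat_lit 2) (nat_lit 7) true (nat_lit 5) true (nat_lit 9) true (nat_lit 0) true (nat_lit 16) true (nat_lit 14) (.s true (nat_lit 1) (nat_lit 41) (nat_lit 0) (nat_lit 2) (nat_lit 7) true (nat_lit 5) true (nat_lit 9) true (nat_lit 0) true (nat_lit 16) true (nat_lit 14) (.s false (nat_lit 2) (nat_lit 40) (nat_lit 2) (nat_lit 0) (nat_lit 7) true (nat_lit 3) true (nat_lit 9) true (nat_lit 0) true (nat_lit 14) true (nat_lit 16) (.s true (nat_lit 2) (nat_lit 39) (nat_lit 2) (nat_lit 2) (nat_lit 5) true (nat_lit 5) true (nat_lit 11) true (nat_lit 0) true (nat_lit 14) true (nat_lit 14) (.s false (nat_lit 1) (nat_lit 40)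 (nat_lit 2) (nat_lit 2) (nat_lit 5) true (nat_lit 5) true (nat_lit 11) true (nat_lit 0) true (nat_lit 14) true (nat_lit 14) (.s false (nat_lit 1) (nat_lit 41) (nat_lit 2) (nat_lit 2) (nat_lit 5) true (nat_lit 5) true (nat_lit 11) true (nat_lit 0) true (nat_lit 14) true (nat_lit 14) dC2d_i343)))))))))))))))))))))))))

noncomputable def dC2d_i345 : IL := (.s true (nat_lit 3) (nat_lit 19) (nat_lit 2) (nat_lit 11) (nat_lit 2) true (nat_lit 9) true (nat_lit 14) true (nat_lit 4) true (nat_lit 14) true (nat_lit 7) (.s false (nat_lit 2) (nat_lit 19) (nat_lit 2) (nat_lit 12) (nat_lit 2) true (nat_lit 9) true (nat_lit 14) true (nat_lit 4) true (nat_lit 14) true (nat_lit 7) (.s true (nat_lit 1) (nat_lit 18) (nat_lit 5) (nat_lit 6) (nat_lit 2) true (nat_lit 5) true (nat_lit 14) true (nat_lit 4) true (nat_lit 11) true (nat_lit 10) (.s true (nat_lit 2) (nat_lit 18) (nat_lit 12) (nat_lit 2) (nat_lit 2) true (nat_lit 1) true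 (nat_lit 14) true (nat_lit 4) true (nat_lit 7) true (nat_lit 14) (.s true (nat_lit 3) (nat_lit 19) (nat_lit 11) (nat_lit 2) (nat_lit 2) true (nat_lit 1) true (nat_lit 14) true (nat_lit 4) true (nat_lit 7) true (nat_lit 14) (.s false (nat_lit 3) (nat_lit 19) (nat_lit 16) (nat_lit 2) (nat_lit 1) true (nat_lit 1) true (nat_lit 15) true (nat_lit 4) true (nat_lit 5) true (nat_lit 14) (.s false (nat_lit 2) (nat_lit 20) (nat_lit 0) (nat_lit 2) (nat_lit 15) true (nat_lit 2) true (nat_lit 6) true (nat_lit 3) true (nat_lit 16) true (nat_lit 14) (.s true (nat_lit 2) (nat_lit 20) (nat_lit 1) (nat_lit 2) (nat_lit 11) true (nat_lit 2) true (nat_lit 7) true (nat_lit 3) true (nat_lit 15) true (nat_lit 14) (.s false (nat_lit 3) (nat_lit 20) (nat_lit 1) (nat_lit 3) (nat_lit 7) true (nat_lit 4) true (nat_lit 9) true (nat_lit 3) true (nat_lit 15) true (nat_lit 13) (.s true (nat_lit 2) (nat_lit 20) (nat_lit 1) (nat_lit 7) (nat_lit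 3) true (nat_lit 8) true (nat_lit 13) true (nat_lit 3) true (nat_lit 15) true (nat_lit 9) (.s true (nat_lit 2) (nat_lit 20) (nat_lit 1) (nat_lit 17) (nat_lit 1) true (nat_lit 12) true (nat_lit 15) true (nat_lit 3) true (nat_lit 15) true (nat_lit 5) (.s false (nat_lit 2) (nat_lit 20) (nat_lit 2) (nat_lit 0) (nat_lit 15) true (nat_lit 0) true (nat_lit 6) true (nat_lit 3) true (nat_lit 14) true (nat_lit 16) (.s false (nat_lit 2) (nat_lit 20) (nat_lit 2) (nat_lit 13) (nat_lit 1) true (nat_lit 10) true (nat_lit 15) true (nat_lit 3) true (nat_lit 14) true (nat_lit 7) (.s false (nat_lit 3) (nat_lit 20) (nat_lit 2) (nat_lit 14) (nat_lit 0) true (nat_lit 11) true (nat_lit 16) true (nat_lit 3) true (nat_lit 14) true (nat_lit 6) (.s true (nat_lit 1) (nat_lit 20) (nat_lit 3) (nat_lit 7) (nat_lit 1) true (nat_lit 8) true (nat_lit 15) true (nat_lit 3) true (nat_lit 13) true (nat_lit 9) (.s false (nat_lit 2) (nat_lit 20) (nat_lit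 6) (nat_lit 2) (nat_lit 3) true (nat_lit 2) true (nat_lit 13) true (nat_lit 3) true (nat_lit 10) true (nat_lit 14) (.s false (nat_lit 1) (nat_lit 20) (nat_lit 7) (nat_lit 0) (nat_lit 4) true (nat_lit 0) true (nat_lit 12) true (nat_lit 3) true (nat_lit 9) true (nat_lit 16) (.s true (nat_lit 1) (nat_lit 20) (nat_lit 7) (nat_lit 4) (nat_lit 0) true (nat_lit 5) true (nat_lit 16) true (nat_lit 3) true (nat_lit 9) true (nat_lit 12) (.s false (nat_lit 2) (nat_lit 20) (nat_lit 9) (nat_lit 2) (nat_lit 2) true (nat_lit 2) true (nat_lit 14) true (nat_lit 3) true (nat_lit 8) true (nat_lit 14) (.s true (nat_lit 3) (nat_lit 20) (nat_lit 12) (nat_lit 1) (nat_lit 2) true (nat_lit 1) true (nat_lit 14) true (nat_lit 3) true (nat_lit 7) true (nat_lit 15) (.s false (nat_lit 1) (nat_lit 20) (nat_lit 12) (nat_lit 2) (nat_lit 1) true (nat_lit 2) true (nat_lit 15) true (nat_lit 3) true (nat_lit 7) true (nat_lit 14) (.s false (nat_lit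 3) (nat_lit 20) (nat_lit 13) (nat_lit 2) (nat_lit 1) true (nat_lit 2) true (nat_lit 15) true (nat_lit 3) true (nat_lit 7) true (nat_lit 14) (.s true (nat_lit 1) (nat_lit 20) (nat_lit 15) (nat_lit 0) (nat_lit 2) true (nat_lit 0) true (nat_lit 14) true (nat_lit 3) true (nat_lit 6) true (nat_lit 16) (.s false (nat_lit 3) (nat_lit 24) (nat_lit 2) (nat_lit 2) (nat_lit 7) true (nat_lit 3) true (nat_lit 9) true (nat_lit 2) true (nat_lit 14) true (nat_lit 14) (.s false (nat_lit 3) (nat_lit 25) (nat_lit 2) (nat_lit 2) (nat_lit 7) true (nat_lit 3) true (nat_lit 9) true (nat_lit 2) true (nat_lit 14) true (nat_lit 14) dC2d_i344)))))))))))))))))))))))))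

noncomputable def dC2d_i346 : IL := (.e true (nat_lit 2) (nat_lit 271) (nat_lit 2) (nat_lit 14) (.e false (nat_lit 3) (nat_lit 273) (nat_lit 2) (nat_lit 14) (.e false (nat_lit 1) (nat_lit 283) (nat_lit 2) (nat_lit 14) (.e false (nat_lit 3) (nat_lit 153) (nat_lit 7) (nat_lit 9) (.e true (nat_lit 1) (nat_lit 325) (nat_lit 0) (nat_lit 16) (.e false (nat_lit 1) (nat_lit 326) (nat_lit 0) (nat_lit 16) (.e true (nat_lit 2) (nat_lit 327) (nat_lit 0) (nat_lit 16) (.e true (nat_lit 1) (nat_lit 328) (nat_lit 0) (nat_lit 16) (.e false (nat_lit 2) (nat_lit 330) (nat_lit 0) (nat_lit 16) (.e false (nat_lit 1) (nat_lit 329) (nat_lit 0) (nat_lit 16) (.e false (nat_lit 1) (nat_lit 331) (nat_lit 0) (nat_lit 16) (.e false (nat_lit 1) (nat_lit 282) (nat_lit 2) (nat_lit 14) (.e false (nat_lit 1) (nat_lit 284) (nat_lit 2) (nat_lit 14) (.e false (nat_lit 3) (nat_lit 72) (nat_lit 20) (nat_lit 3) (.e false (nat_lit 2) (nat_lit 305) (nat_lit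 1) (nat_lit 15) (.e false (nat_lit 2) (nat_lit 306) (nat_lit 1) (nat_lit 15) (.e false (nat_lit 2) (nat_lit 307) (nat_lit 1) (nat_lit 15) (.e true (nat_lit 3) (nat_lit 308) (nat_lit 1) (nat_lit 15) (.e true (nat_lit 2) (nat_lit 309) (nat_lit 1) (nat_lit 15) (.e false (nat_lit 3) (nat_lit 315) (nat_lit 1) (nat_lit 15) (.e true (nat_lit 1) (nat_lit 319) (nat_lit 1) (nat_lit 15) (.e false (nat_lit 2) (nat_lit 318) (nat_lit 1) (nat_lit 15) (.u (nat_lit 2) (.n (nat_lit 0) (nat_lit 2) (.n (nat_lit 1) (nat_lit 1) (.n (nat_lit 2) (nat_lit 1) (.n (nat_lit 3) (nat_lit 3) (.p (nat_lit 4) (nat_lit 2) (.p (nat_lit 6) (nat_lit 1) (.p (nat_lit 7) (nat_lit 1) (.p (nat_lit 8) (nat_lit 1) (.n (nat_lit 10) (nat_lit 2) (.n (nat_lit 11) (nat_lit 1) (.p (nat_lit 14) (nat_lit 1) (.n (nat_lit 15) (nat_lit 1) (.n (nat_lit 16) (nat_lit 1) (.p (nat_lit 17) (nat_lit 1) (.p (nat_lit 18) (nat_lit 3) (.p (nat_lit 21) (nat_lit 1) (.n (nat_lit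 23) (nat_lit 1) (.n (nat_lit 24) (nat_lit 1) (.p (nat_lit 34) (nat_lit 1) (.p (nat_lit 35) (nat_lit 1) (.p (nat_lit 42) (nat_lit 1) (.n (nat_lit 43) (nat_lit 1) (.n (nat_lit 44) (nat_lit 1) (.p (nat_lit 46) (nat_lit 1) (.p (nat_lit 47) (nat_lit 1) (.p (nat_lit 55) (nat_lit 1) (.n (nat_lit 56) (nat_lit 1) (.p (nat_lit 66) (nat_lit 1) (.n (nat_lit 72) (nat_lit 1) (.n (nat_lit 73) (nat_lit 1) (.p (nat_lit 75) (nat_lit 1) (.n (nat_lit 77) (nat_lit 1) (.n (nat_lit 78) (nat_lit 1) (.p (nat_lit 83) (nat_lit 1) (.p (nat_lit 84) (nat_lit 1) (.n (nat_lit 87) (nat_lit 2) (.p (nat_lit 89) (nat_lit 1) (.n (nat_lit 90) (nat_lit 1) (.n (nat_lit 91) (nat_lit 1) (.n (nat_lit 94) (nat_lit 2) (.p (nat_lit 96) (nat_lit 1) (.p (nat_lit 99) (nat_lit 1) (.n (nat_lit 106) (nat_lit 1) (.n (nat_lit 109) (nat_lit 1) (.p (nat_lit 125) (nat_lit 1) (.p (nat_lit 126) (nat_lit 1) (.p (nat_lit 127) (nat_lit 1) (.p (nat_lit 128) (nat_lit 1) (.n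 (nat_lit 130) (nat_lit 1) (.p (nat_lit 133) (nat_lit 1) (.n (nat_lit 134) (nat_lit 1) (.n (nat_lit 137) (nat_lit 1) (.p (nat_lit 138) (nat_lit 1) (.n (nat_lit 142) (nat_lit 2) (.p (nat_lit 143) (nat_lit 4) (.n (nat_lit 144) (nat_lit 7) (.n (nat_lit 145) (nat_lit 3) (.n (nat_lit 146) (nat_lit 3) (.p (nat_lit 147) (nat_lit 5) (.n (nat_lit 148) (nat_lit 1) .z)))))))))))))))))))))))))))))))))))))))))))))))))))))))))))) (.u (nat_lit 2) (.n (nat_lit 149) (nat_lit 4) (.p (nat_lit 150) (nat_lit 3) (.p (nat_lit 151) (nat_lit 1) (.p (nat_lit 154) (nat_lit 3) (.p (nat_lit 156) (nat_lit 2) (.n (nat_lit 157) (nat_lit 3) (.p (nat_lit 159) (nat_lit 3) (.p (nat_lit 160) (nat_lit 6) (.p (nat_lit 161) (nat_lit 5) (.n (nat_lit 162) (nat_lit 4) (.n (nat_lit 163) (nat_lit 3) (.p (nat_lit 164) (nat_lit 1) (.p (nat_lit 165) (nat_lit 5) (.n (nat_lit 166) (nat_lit 6) (.p (nat_lit 167) (nat_lit 3) (.p (nat_lit 169) (nat_lit 1) (.p (nat_lit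 171) (nat_lit 1) (.p (nat_lit 172) (nat_lit 1) (.n (nat_lit 173) (nat_lit 1) (.n (nat_lit 174) (nat_lit 2) (.n (nat_lit 175) (nat_lit 1) (.n (nat_lit 176) (nat_lit 1) (.p (nat_lit 177) (nat_lit 3) (.p (nat_lit 178) (nat_lit 2) (.p (nat_lit 179) (nat_lit 1) (.n (nat_lit 180) (nat_lit 1) (.n (nat_lit 181) (nat_lit 1) (.p (nat_lit 182) (nat_lit 1) (.p (nat_lit 183) (nat_lit 1) (.n (nat_lit 184) (nat_lit 2) (.n (nat_lit 185) (nat_lit 3) (.p (nat_lit 186) (nat_lit 1) (.n (nat_lit 187) (nat_lit 2) (.n (nat_lit 188) (nat_lit 1) (.p (nat_lit 189) (nat_lit 3) (.n (nat_lit 192) (nat_lit 1) (.n (nat_lit 193) (nat_lit 1) (.p (nat_lit 195) (nat_lit 1) (.p (nat_lit 196) (nat_lit 1) (.p (nat_lit 200) (nat_lit 1) (.n (nat_lit 201) (nat_lit 1) (.n (nat_lit 204) (nat_lit 8) (.n (nat_lit 205) (nat_lit 1) (.p (nat_lit 206) (nat_lit 12) (.p (nat_lit 207) (nat_lit 38) (.p (nat_lit 208) (nat_lit 15) (.n (nat_lit 209) (nat_lit 9) (.n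 (nat_lit 210) (nat_lit 2) (.p (nat_lit 211) (nat_lit 28) (.n (nat_lit 212) (nat_lit 14) (.n (nat_lit 213) (nat_lit 14) (.n (nat_lit 214) (nat_lit 4) (.p (nat_lit 215) (nat_lit 24) (.p (nat_lit 216) (nat_lit 10) (.n (nat_lit 217) (nat_lit 1) (.n (nat_lit 218) (nat_lit 8) (.p (nat_lit 219) (nat_lit 3) (.n (nat_lit 221) (nat_lit 8) (.p (nat_lit 222) (nat_lit 16) (.n (nat_lit 223) (nat_lit 8) .z)))))))))))))))))))))))))))))))))))))))))))))))))))))))))))) (.u (nat_lit 2) (.n (nat_lit 224) (nat_lit 2) (.n (nat_lit 225) (nat_lit 3) (.p (nat_lit 226) (nat_lit 21) (.p (nat_lit 227) (nat_lit 29) (.p (nat_lit 228) (nat_lit 13) (.n (nat_lit 229) (nat_lit 1) (.n (nat_lit 230) (nat_lit 1) (.p (nat_lit 231) (nat_lit 1) (.n (nat_lit 232) (nat_lit 14) (.n (nat_lit 234) (nat_lit 1) (.n (nat_lit 235) (nat_lit 6) (.n (nat_lit 237) (nat_lit 6) (.p (nat_lit 238) (nat_lit 10) (.n (nat_lit 240) (nat_lit 11) (.n (nat_lit 241) (nat_lit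 1) (.p (nat_lit 242) (nat_lit 2) (.p (nat_lit 243) (nat_lit 6) (.p (nat_lit 244) (nat_lit 9) (.p (nat_lit 245) (nat_lit 4) (.n (nat_lit 246) (nat_lit 2) (.n (nat_lit 247) (nat_lit 3) (.p (nat_lit 248) (nat_lit 1) (.n (nat_lit 249) (nat_lit 4) (.n (nat_lit 250) (nat_lit 1) (.n (nat_lit 251) (nat_lit 5) (.n (nat_lit 252) (nat_lit 2) (.p (nat_lit 254) (nat_lit 2) (.p (nat_lit 257) (nat_lit 1) (.n (nat_lit 260) (nat_lit 3) (.n (nat_lit 261) (nat_lit 8) (.n (nat_lit 262) (nat_lit 9) (.p (nat_lit 263) (nat_lit 9) (.n (nat_lit 264) (nat_lit 5) (.p (nat_lit 265) (nat_lit 1) (.p (nat_lit 267) (nat_lit 3) (.p (nat_lit 269) (nat_lit 2) (.p (nat_lit 270) (nat_lit 2) .z))))))))))))))))))))))))))))))))))))) .nil)))))))))))))))))))))))))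

noncomputable def dC2d_i347 : IL := (.s false (nat_lit 2) (nat_lit 98) (nat_lit 1) (nat_lit 2) (nat_lit 1) true (nat_lit 12) true (nat_lit 15) false (nat_lit 6) true (nat_lit 15) true (nat_lit 14) (.s false (nat_lit 2) (nat_lit 99) (nat_lit 1) (nat_lit 2) (nat_lit 1) true (nat_lit 12) true (nat_lit 15) false (nat_lit 6) true (nat_lit 15) true (nat_lit 14) (.s true (nat_lit 3) (nat_lit 100) (nat_lit 1) (nat_lit 2) (nat_lit 1) true (nat_lit 12) true (nat_lit 15) false (nat_lit 6) true (nat_lit 15) true (nat_lit 14) (.s false (nat_lit 1) (nat_lit 101) (nat_lit 0) (nat_lit 1) (nat_lit 2) true (nat_lit 11) true (nat_lit 14) false (nat_lit 7) true (nat_lit 16) true (nat_lit 15) (.s true (nat_lit 2) (nat_lit 103) (nat_lit 0) (nat_lit 1) (nat_lit 2) true (nat_lit 11) true (nat_lit 14) false (nat_lit 7) true (nat_lit 16) true (nat_lit 15) (.s true (nat_lit 3) (nat_lit 104) (nat_lit 0) (nat_lit 2) (nat_lit 1) true (nat_lit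 13) true (nat_lit 15) false (nat_lit 7) true (nat_lit 16) true (nat_lit 14) (.s true (nat_lit 3) (nat_lit 104) (nat_lit 1) (nat_lit 0) (nat_lit 2) true (nat_lit 10) true (nat_lit 14) false (nat_lit 7) true (nat_lit 15) true (nat_lit 16) (.s true (nat_lit 2) (nat_lit 103) (nat_lit 1) (nat_lit 2) (nat_lit 0) true (nat_lit 13) true (nat_lit 16) false (nat_lit 7) true (nat_lit 15) true (nat_lit 14) (.s true (nat_lit 2) (nat_lit 104) (nat_lit 2) (nat_lit 0) (nat_lit 1) true (nat_lit 10) true (nat_lit 15) false (nat_lit 7) true (nat_lit 14) true (nat_lit 16) (.s true (nat_lit 1) (nat_lit 101) (nat_lit 2) (nat_lit 1) (nat_lit 0) true (nat_lit 11) true (nat_lit 16) false (nat_lit 7) true (nat_lit 14) true (nat_lit 15) (.s false (nat_lit 2) (nat_lit 103) (nat_lit 2) (nat_lit 1) (nat_lit 0) true (nat_lit 11) true (nat_lit 16) false (nat_lit 7) true (nat_lit 14) true (nat_lit 15) (.s false (nat_lit 2) (nat_lit 105) (nat_lit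 0) (nat_lit 1) (nat_lit 1) true (nat_lit 13) true (nat_lit 15) false (nat_lit 8) true (nat_lit 16) true (nat_lit 15) (.e false (nat_lit 3) (nat_lit 152) (nat_lit 7) (nat_lit 9) (.e true (nat_lit 1) (nat_lit 154) (nat_lit 7) (nat_lit 9) (.e true (nat_lit 3) (nat_lit 144) (nat_lit 7) (nat_lit 9) (.e false (nat_lit 2) (nat_lit 254) (nat_lit 2) (nat_lit 14) (.e false (nat_lit 3) (nat_lit 265) (nat_lit 2) (nat_lit 14) (.e false (nat_lit 3) (nat_lit 272) (nat_lit 2) (nat_lit 14) (.e true (nat_lit 3) (nat_lit 285) (nat_lit 2) (nat_lit 14) (.e false (nat_lit 1) (nat_lit 264) (nat_lit 2) (nat_lit 14) (.e true (nat_lit 3) (nat_lit 252) (nat_lit 2) (nat_lit 14) (.e false (nat_lit 3) (nat_lit 253) (nat_lit 2) (nat_lit 14) (.e false (nat_lit 3) (nat_lit 255) (nat_lit 2) (nat_lit 14) (.e true (nat_lit 2) (nat_lit 257) (nat_lit 2) (nat_lit 14) (.e true (nat_lit 3) (nat_lit 258) (nat_lit 2) (nat_lit 14) dC2d_i346)))))))))))))))))))))))))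

noncomputable def dC2d_i348 : IL := (.s false (nat_lit 3) (nat_lit 84) (nat_lit 1) (nat_lit 2) (nat_lit 2) true (nat_lit 10) true (nat_lit 14) false (nat_lit 4) true (nat_lit 15) true (nat_lit 14) (.s true (nat_lit 2) (nat_lit 85) (nat_lit 1) (nat_lit 2) (nat_lit 2) true (nat_lit 10) true (nat_lit 14) false (nat_lit 4) true (nat_lit 15) true (nat_lit 14) (.s true (nat_lit 2) (nat_lit 87) (nat_lit 1) (nat_lit 2) (nat_lit 2) true (nat_lit 10) true (nat_lit 14) false (nat_lit 4) true (nat_lit 15) true (nat_lit 14) (.s false (nat_lit 3) (nat_lit 88) (nat_lit 1) (nat_lit 2) (nat_lit 2) true (nat_lit 10) true (nat_lit 14) false (nat_lit 4) true (nat_lit 15) true (nat_lit 14) (.s false (nat_lit 3) (nat_lit 89) (nat_lit 1) (nat_lit 2) (nat_lit 2) true (nat_lit 10) true (nat_lit 14) false (nat_lit 4) true (nat_lit 15) true (nat_lit 14) (.s true (nat_lit 3) (nat_lit 90) (nat_lit 1) (nat_lit 2) (nat_lit 2) true (nat_lit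 10) true (nat_lit 14) false (nat_lit 4) true (nat_lit 15) true (nat_lit 14) (.s false (nat_lit 3) (nat_lit 80) (nat_lit 2) (nat_lit 1) (nat_lit 2) true (nat_lit 9) true (nat_lit 14) false (nat_lit 4) true (nat_lit 14) true (nat_lit 15) (.s true (nat_lit 2) (nat_lit 81) (nat_lit 2) (nat_lit 1) (nat_lit 2) true (nat_lit 9) true (nat_lit 14) false (nat_lit 4) true (nat_lit 14) true (nat_lit 15) (.s false (nat_lit 2) (nat_lit 83) (nat_lit 2) (nat_lit 1) (nat_lit 2) true (nat_lit 9) true (nat_lit 14) false (nat_lit 4) true (nat_lit 14) true (nat_lit 15) (.s false (nat_lit 1) (nat_lit 80) (nat_lit 2) (nat_lit 2) (nat_lit 1) true (nat_lit 10) true (nat_lit 15) false (nat_lit 4) true (nat_lit 14) true (nat_lit 14) (.s false (nat_lit 2) (nat_lit 81) (nat_lit 2) (nat_lit 2) (nat_lit 1) true (nat_lit 10) true (nat_lit 15) false (nat_lit 4) true (nat_lit 14) true (nat_lit 14) (.s true (nat_lit 2) (nat_lit 82) (nat_lit 2)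 (nat_lit 2) (nat_lit 1) true (nat_lit 10) true (nat_lit 15) false (nat_lit 4) true (nat_lit 14) true (nat_lit 14) (.s false (nat_lit 2) (nat_lit 84) (nat_lit 2) (nat_lit 2) (nat_lit 1) true (nat_lit 10) true (nat_lit 15) false (nat_lit 4) true (nat_lit 14) true (nat_lit 14) (.s false (nat_lit 2) (nat_lit 85) (nat_lit 2) (nat_lit 2) (nat_lit 1) true (nat_lit 10) true (nat_lit 15) false (nat_lit 4) true (nat_lit 14) true (nat_lit 14) (.s false (nat_lit 2) (nat_lit 87) (nat_lit 2) (nat_lit 2) (nat_lit 1) true (nat_lit 10) true (nat_lit 15) false (nat_lit 4) true (nat_lit 14) true (nat_lit 14) (.s false (nat_lit 3) (nat_lit 90) (nat_lit 2) (nat_lit 2) (nat_lit 1) true (nat_lit 10) true (nat_lit 15) false (nat_lit 4) true (nat_lit 14) true (nat_lit 14) (.s true (nat_lit 3) (nat_lit 91) (nat_lit 0) (nat_lit 2) (nat_lit 2) true (nat_lit 11) true (nat_lit 14) false (nat_lit 5) true (nat_lit 16) true (nat_lit 14) (.s true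 (nat_lit 2) (nat_lit 92) (nat_lit 0) (nat_lit 2) (nat_lit 2) true (nat_lit 11) true (nat_lit 14) false (nat_lit 5) true (nat_lit 16) true (nat_lit 14) (.s false (nat_lit 1) (nat_lit 93) (nat_lit 0) (nat_lit 2) (nat_lit 2) true (nat_lit 11) true (nat_lit 14) false (nat_lit 5) true (nat_lit 16) true (nat_lit 14) (.s true (nat_lit 1) (nat_lit 95) (nat_lit 0) (nat_lit 2) (nat_lit 2) true (nat_lit 11) true (nat_lit 14) false (nat_lit 5) true (nat_lit 16) true (nat_lit 14) (.s false (nat_lit 1) (nat_lit 96) (nat_lit 0) (nat_lit 2) (nat_lit 2) true (nat_lit 11) true (nat_lit 14) false (nat_lit 5) true (nat_lit 16) true (nat_lit 14) (.s true (nat_lit 2) (nat_lit 92) (nat_lit 2) (nat_lit 2) (nat_lit 0) true (nat_lit 11) true (nat_lit 16) false (nat_lit 5) true (nat_lit 14) true (nat_lit 14) (.s true (nat_lit 2) (nat_lit 93) (nat_lit 2) (nat_lit 2) (nat_lit 0) true (nat_lit 11) true (nat_lit 16) false (nat_lit 5) true (nat_lit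 14) true (nat_lit 14) (.s true (nat_lit 2) (nat_lit 94) (nat_lit 2) (nat_lit 2) (nat_lit 0) true (nat_lit 11) true (nat_lit 16) false (nat_lit 5) true (nat_lit 14) true (nat_lit 14) (.s false (nat_lit 1) (nat_lit 96) (nat_lit 2) (nat_lit 2) (nat_lit 0) true (nat_lit 11) true (nat_lit 16) false (nat_lit 5) true (nat_lit 14) true (nat_lit 14) dC2d_i347)))))))))))))))))))))))))

noncomputable def dC2d_i349 : IL := (.s false (nat_lit 3) (nat_lit 40) (nat_lit 2) (nat_lit 5) (nat_lit 2) true (nat_lit 9) true (nat_lit 14) true (nat_lit 0) true (nat_lit 14) true (nat_lit 11) (.s false (nat_lit 1) (nat_lit 39) (nat_lit 2) (nat_lit 7) (nat_lit 0) true (nat_lit 11) true (nat_lit 16) true (nat_lit 0) true (nat_lit 14) true (nat_lit 9) (.s false (nat_lit 3) (nat_lit 40) (nat_lit 2) (nat_lit 7) (nat_lit 0) true (nat_lit 11) true (nat_lit 16) true (nat_lit 0) true (nat_lit 14) true (nat_lit 9) (.s false (nat_lit 1) (nat_lit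 40) (nat_lit 7) (nat_lit 2) (nat_lit 0) true (nat_lit 5) true (nat_lit 16) true (nat_lit 0) true (nat_lit 9) true (nat_lit 14) (.s false (nat_lit 1) (nat_lit 42) (nat_lit 1) (nat_lit 6) (nat_lit 2) true (nat_lit 10) true (nat_lit 14) false (nat_lit 0) true (nat_lit 15) true (nat_lit 10) (.s false (nat_lit 1) (nat_lit 42) (nat_lit 2) (nat_lit 1) (nat_lit 6) true (nat_lit 4) true (nat_lit 10) false (nat_lit 0) true (nat_lit 14) true (nat_lit 15) (.s false (nat_lit 2) (nat_lit 43) (nat_lit 2) (nat_lit 2) (nat_lit 4) true (nat_lit 6) true (nat_lit 12) false (nat_lit 0) true (nat_lit 14) true (nat_lit 14) (.s false (nat_lit 2) (nat_lit 44) (nat_lit 2) (nat_lit 2) (nat_lit 4) true (nat_lit 6) true (nat_lit 12) false (nat_lit 0) true (nat_lit 14) true (nat_lit 14) (.s true (nat_lit 3) (nat_lit 43) (nat_lit 4) (nat_lit 2) (nat_lit 2) true (nat_lit 6) true (nat_lit 14) false (nat_lit 0) true (nat_lit 12) true (nat_lit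 14) (.s true (nat_lit 3) (nat_lit 44) (nat_lit 4) (nat_lit 2) (nat_lit 2) true (nat_lit 6) true (nat_lit 14) false (nat_lit 0) true (nat_lit 12) true (nat_lit 14) (.s true (nat_lit 3) (nat_lit 42) (nat_lit 6) (nat_lit 1) (nat_lit 2) true (nat_lit 4) true (nat_lit 14) false (nat_lit 0) true (nat_lit 10) true (nat_lit 15) (.s false (nat_lit 2) (nat_lit 42) (nat_lit 6) (nat_lit 2) (nat_lit 1) true (nat_lit 6) true (nat_lit 15) false (nat_lit 0) true (nat_lit 10) true (nat_lit 14) (.s false (nat_lit 3) (nat_lit 45) (nat_lit 3) (nat_lit 2) (nat_lit 2) true (nat_lit 7) true (nat_lit 14) false (nat_lit 1) true (nat_lit 13) true (nat_lit 14) (.s true (nat_lit 2) (nat_lit 45) (nat_lit 7) (nat_lit 0) (nat_lit 1) true (nat_lit 4) true (nat_lit 15) false (nat_lit 1) true (nat_lit 9) true (nat_lit 16) (.s false (nat_lit 2) (nat_lit 45) (nat_lit 7) (nat_lit 1) (nat_lit 0) true (nat_lit 5) true (nat_lit 16) false (nat_lit 1)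 true (nat_lit 9) true (nat_lit 15) (.s true (nat_lit 3) (nat_lit 48) (nat_lit 3) (nat_lit 1) (nat_lit 2) true (nat_lit 7) true (nat_lit 14) false (nat_lit 2) true (nat_lit 13) true (nat_lit 15) (.s false (nat_lit 1) (nat_lit 66) (nat_lit 2) (nat_lit 2) (nat_lit 2) true (nat_lit 9) true (nat_lit 14) false (nat_lit 3) true (nat_lit 14) true (nat_lit 14) (.s true (nat_lit 1) (nat_lit 68) (nat_lit 2) (nat_lit 2) (nat_lit 2) true (nat_lit 9) true (nat_lit 14) false (nat_lit 3) true (nat_lit 14) true (nat_lit 14) (.s false (nat_lit 2) (nat_lit 69) (nat_lit 2) (nat_lit 2) (nat_lit 2) true (nat_lit 9) true (nat_lit 14) false (nat_lit 3) true (nat_lit 14) true (nat_lit 14) (.s false (nat_lit 1) (nat_lit 70) (nat_lit 2) (nat_lit 2) (nat_lit 2) true (nat_lit 9) true (nat_lit 14) false (nat_lit 3) true (nat_lit 14) true (nat_lit 14) (.s true (nat_lit 3) (nat_lit 71) (nat_lit 2) (nat_lit 2) (nat_lit 2) true (nat_lit 9) true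 (nat_lit 14) false (nat_lit 3) true (nat_lit 14) true (nat_lit 14) (.s true (nat_lit 3) (nat_lit 73) (nat_lit 2) (nat_lit 2) (nat_lit 2) true (nat_lit 9) true (nat_lit 14) false (nat_lit 3) true (nat_lit 14) true (nat_lit 14) (.s false (nat_lit 1) (nat_lit 81) (nat_lit 1) (nat_lit 2) (nat_lit 2) true (nat_lit 10) true (nat_lit 14) false (nat_lit 4) true (nat_lit 15) true (nat_lit 14) (.s false (nat_lit 1) (nat_lit 82) (nat_lit 1) (nat_lit 2) (nat_lit 2) true (nat_lit 10) true (nat_lit 14) false (nat_lit 4) true (nat_lit 15) true (nat_lit 14) (.s true (nat_lit 2) (nat_lit 83) (nat_lit 1) (nat_lit 2) (nat_lit 2) true (nat_lit 10) true (nat_lit 14) false (nat_lit 4) true (nat_lit 15) true (nat_lit 14) dC2d_i348)))))))))))))))))))))))))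

noncomputable def dC2d_i350 : IL := (.s true (nat_lit 1) (nat_lit 33) (nat_lit 1) (nat_lit 2) (nat_lit 7) true (nat_lit 4) true (nat_lit 9) true (nat_lit 1) true (nat_lit 15) true (nat_lit 14) (.s true (nat_lit 1) (nat_lit 34) (nat_lit 1) (nat_lit 2) (nat_lit 7) true (nat_lit 4) true (nat_lit 9) true (nat_lit 1) true (nat_lit 15) true (nat_lit 14) (.s true (nat_lit 3) (nat_lit 35) (nat_lit 1) (nat_lit 2) (nat_lit 7) true (nat_lit 4) true (nat_lit 9) true (nat_lit 1) true (nat_lit 15) true (nat_lit 14) (.s true (nat_lit 2) (nat_lit 37) (nat_lit 1) (nat_lit 2) (nat_lit 7) true (nat_lit 4) true (nat_lit 9) true (nat_lit 1) true (nat_lit 15) true (nat_lit 14) (.s true (nat_lit 2) (nat_lit 38) (nat_lit 1) (nat_lit 2) (nat_lit 7) true (nat_lit 4) true (nat_lit 9) true (nat_lit 1) true (nat_lit 15) true (nat_lit 14) (.s false (nat_lit 2) (nat_lit 34) (nat_lit 2) (nat_lit 1) (nat_lit 7) true (nat_lit 3) true (nat_lit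 9) true (nat_lit 1) true (nat_lit 14) true (nat_lit 15) (.s true (nat_lit 2) (nat_lit 36) (nat_lit 2) (nat_lit 1) (nat_lit 7) true (nat_lit 3) true (nat_lit 9) true (nat_lit 1) true (nat_lit 14) true (nat_lit 15) (.s false (nat_lit 2) (nat_lit 33) (nat_lit 2) (nat_lit 2) (nat_lit 6) true (nat_lit 4) true (nat_lit 10) true (nat_lit 1) true (nat_lit 14) true (nat_lit 14) (.s false (nat_lit 2) (nat_lit 34) (nat_lit 2) (nat_lit 2) (nat_lit 6) true (nat_lit 4) true (nat_lit 10) true (nat_lit 1) true (nat_lit 14) true (nat_lit 14) (.s false (nat_lit 3) (nat_lit 35) (nat_lit 2) (nat_lit 2) (nat_lit 6) true (nat_lit 4) true (nat_lit 10) true (nat_lit 1) true (nat_lit 14) true (nat_lit 14) (.s true (nat_lit 2) (nat_lit 36) (nat_lit 2) (nat_lit 2) (nat_lit 6) true (nat_lit 4) true (nat_lit 10) true (nat_lit 1) true (nat_lit 14) true (nat_lit 14) (.s true (nat_lit 2) (nat_lit 37) (nat_lit 2) (nat_lit 2) (nat_lit 6) true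 (nat_lit 4) true (nat_lit 10) true (nat_lit 1) true (nat_lit 14) true (nat_lit 14) (.s true (nat_lit 2) (nat_lit 38) (nat_lit 2) (nat_lit 2) (nat_lit 6) true (nat_lit 4) true (nat_lit 10) true (nat_lit 1) true (nat_lit 14) true (nat_lit 14) (.s false (nat_lit 1) (nat_lit 33) (nat_lit 2) (nat_lit 6) (nat_lit 2) true (nat_lit 9) true (nat_lit 14) true (nat_lit 1) true (nat_lit 14) true (nat_lit 10) (.s true (nat_lit 2) (nat_lit 34) (nat_lit 2) (nat_lit 7) (nat_lit 1) true (nat_lit 10) true (nat_lit 15) true (nat_lit 1) true (nat_lit 14) true (nat_lit 9) (.s false (nat_lit 1) (nat_lit 35) (nat_lit 2) (nat_lit 7) (nat_lit 1) true (nat_lit 10) true (nat_lit 15) true (nat_lit 1) true (nat_lit 14) true (nat_lit 9) (.s false (nat_lit 2) (nat_lit 33) (nat_lit 6) (nat_lit 2) (nat_lit 2) true (nat_lit 4) true (nat_lit 14) true (nat_lit 1) true (nat_lit 10) true (nat_lit 14) (.s true (nat_lit 3) (nat_lit 35) (nat_lit 6) (nat_lit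 2) (nat_lit 2) true (nat_lit 4) true (nat_lit 14) true (nat_lit 1) true (nat_lit 10) true (nat_lit 14) (.s false (nat_lit 2) (nat_lit 38) (nat_lit 6) (nat_lit 2) (nat_lit 2) true (nat_lit 4) true (nat_lit 14) true (nat_lit 1) true (nat_lit 10) true (nat_lit 14) (.s false (nat_lit 2) (nat_lit 40) (nat_lit 0) (nat_lit 2) (nat_lit 7) true (nat_lit 5) true (nat_lit 9) true (nat_lit 0) true (nat_lit 16) true (nat_lit 14) (.s true (nat_lit 2) (nat_lit 41) (nat_lit 0) (nat_lit 2) (nat_lit 7) true (nat_lit 5) true (nat_lit 9) true (nat_lit 0) true (nat_lit 16) true (nat_lit 14) (.s false (nat_lit 1) (nat_lit 40) (nat_lit 2) (nat_lit 0) (nat_lit 7) true (nat_lit 3) true (nat_lit 9) true (nat_lit 0) true (nat_lit 14) true (nat_lit 16) (.s false (nat_lit 2) (nat_lit 39) (nat_lit 2) (nat_lit 2) (nat_lit 5) true (nat_lit 5) true (nat_lit 11) true (nat_lit 0) true (nat_lit 14) true (nat_lit 14) (.s true (nat_lit 1) (nat_lit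 40) (nat_lit 2) (nat_lit 2) (nat_lit 5) true (nat_lit 5) true (nat_lit 11) true (nat_lit 0) true (nat_lit 14) true (nat_lit 14) (.s true (nat_lit 1) (nat_lit 41) (nat_lit 2) (nat_lit 2) (nat_lit 5) true (nat_lit 5) true (nat_lit 11) true (nat_lit 0) true (nat_lit 14) true (nat_lit 14) dC2d_i349)))))))))))))))))))))))))

noncomputable def dC2d_i351 : IL := (.s false (nat_lit 2) (nat_lit 19) (nat_lit 13) (nat_lit 2) (nat_lit 2) true (nat_lit 1) true (nat_lit 14) true (nat_lit 4) true (nat_lit 7) true (nat_lit 14) (.s false (nat_lit 2) (nat_lit 18) (nat_lit 16) (nat_lit 1) (nat_lit 2) false (nat_lit 0) true (nat_lit 14) true (nat_lit 4) true (nat_lit 5) true (nat_lit 15) (.s true (nat_lit 2) (nat_lit 18) (nat_lit 16) (nat_lit 2) (nat_lit 1) true (nat_lit 1) true (nat_lit 15) true (nat_lit 4) true (nat_lit 5) true (nat_lit 14) (.s true (nat_lit 1) (nat_lit 20) (nat_lit 0) (nat_lit 18) (nat_lit 1) true (nat_lit 13)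 true (nat_lit 15) true (nat_lit 3) true (nat_lit 16) true (nat_lit 4) (.s true (nat_lit 1) (nat_lit 20) (nat_lit 1) (nat_lit 2) (nat_lit 12) true (nat_lit 2) true (nat_lit 7) true (nat_lit 3) true (nat_lit 15) true (nat_lit 14) (.s true (nat_lit 1) (nat_lit 20) (nat_lit 1) (nat_lit 3) (nat_lit 7) true (nat_lit 4) true (nat_lit 9) true (nat_lit 3) true (nat_lit 15) true (nat_lit 13) (.s true (nat_lit 3) (nat_lit 20) (nat_lit 1) (nat_lit 7) (nat_lit 3) true (nat_lit 8) true (nat_lit 13) true (nat_lit 3) true (nat_lit 15) true (nat_lit 9) (.s false (nat_lit 3) (nat_lit 20) (nat_lit 1) (nat_lit 18) (nat_lit 0) true (nat_lit 13) true (nat_lit 16) true (nat_lit 3) true (nat_lit 15) true (nat_lit 4) (.s true (nat_lit 2) (nat_lit 20) (nat_lit 2) (nat_lit 2) (nat_lit 8) true (nat_lit 2) true (nat_lit 8) true (nat_lit 3) true (nat_lit 14) true (nat_lit 14) (.s true (nat_lit 2) (nat_lit 20) (nat_lit 2) (nat_lit 11) (nat_lit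 1) true (nat_lit 10) true (nat_lit 15) true (nat_lit 3) true (nat_lit 14) true (nat_lit 7) (.s false (nat_lit 3) (nat_lit 20) (nat_lit 2) (nat_lit 13) (nat_lit 1) true (nat_lit 10) true (nat_lit 15) true (nat_lit 3) true (nat_lit 14) true (nat_lit 7) (.s false (nat_lit 1) (nat_lit 20) (nat_lit 2) (nat_lit 14) (nat_lit 0) true (nat_lit 11) true (nat_lit 16) true (nat_lit 3) true (nat_lit 14) true (nat_lit 6) (.s true (nat_lit 2) (nat_lit 20) (nat_lit 3) (nat_lit 7) (nat_lit 1) true (nat_lit 8) true (nat_lit 15) true (nat_lit 3) true (nat_lit 13) true (nat_lit 9) (.s true (nat_lit 3) (nat_lit 20) (nat_lit 6) (nat_lit 5) (nat_lit 1) true (nat_lit 6) true (nat_lit 15) true (nat_lit 3) true (nat_lit 10) true (nat_lit 11) (.s false (nat_lit 2) (nat_lit 20) (nat_lit 7) (nat_lit 3) (nat_lit 1) true (nat_lit 4) true (nat_lit 15) true (nat_lit 3) true (nat_lit 9) true (nat_lit 13) (.s true (nat_lit 2) (nat_lit 20) (nat_lit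 8) (nat_lit 2) (nat_lit 2) true (nat_lit 2) true (nat_lit 14) true (nat_lit 3) true (nat_lit 8) true (nat_lit 14) (.s true (nat_lit 1) (nat_lit 20) (nat_lit 11) (nat_lit 2) (nat_lit 1) true (nat_lit 2) true (nat_lit 15) true (nat_lit 3) true (nat_lit 7) true (nat_lit 14) (.s false (nat_lit 1) (nat_lit 20) (nat_lit 15) (nat_lit 0) (nat_lit 2) true (nat_lit 0) true (nat_lit 14) true (nat_lit 3) true (nat_lit 6) true (nat_lit 16) (.s false (nat_lit 1) (nat_lit 24) (nat_lit 2) (nat_lit 2) (nat_lit 7) true (nat_lit 3) true (nat_lit 9) true (nat_lit 2) true (nat_lit 14) true (nat_lit 14) (.s true (nat_lit 1) (nat_lit 25) (nat_lit 2) (nat_lit 2) (nat_lit 7) true (nat_lit 3) true (nat_lit 9) true (nat_lit 2) true (nat_lit 14) true (nat_lit 14) (.s false (nat_lit 3) (nat_lit 26) (nat_lit 2) (nat_lit 2) (nat_lit 7) true (nat_lit 3) true (nat_lit 9) true (nat_lit 2) true (nat_lit 14) true (nat_lit 14) (.s false (nat_lit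 1) (nat_lit 29) (nat_lit 2) (nat_lit 2) (nat_lit 7) true (nat_lit 3) true (nat_lit 9) true (nat_lit 2) true (nat_lit 14) true (nat_lit 14) (.s false (nat_lit 1) (nat_lit 26) (nat_lit 2) (nat_lit 7) (nat_lit 2) true (nat_lit 9) true (nat_lit 14) true (nat_lit 2) true (nat_lit 14) true (nat_lit 9) (.s false (nat_lit 2) (nat_lit 27) (nat_lit 2) (nat_lit 7) (nat_lit 2) true (nat_lit 9) true (nat_lit 14) true (nat_lit 2) true (nat_lit 14) true (nat_lit 9) (.s false (nat_lit 1) (nat_lit 27) (nat_lit 7) (nat_lit 2) (nat_lit 2) true (nat_lit 3) true (nat_lit 14) true (nat_lit 2) true (nat_lit 9) true (nat_lit 14) dC2d_i350)))))))))))))))))))))))))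

noncomputable def dC2d_i352 : IL := (.e true (nat_lit 1) (nat_lit 152) (nat_lit 7) (nat_lit 9) (.e false (nat_lit 1) (nat_lit 324) (nat_lit 0) (nat_lit 16) (.e true (nat_lit 3) (nat_lit 325) (nat_lit 0) (nat_lit 16) (.e false (nat_lit 2) (nat_lit 327) (nat_lit 0) (nat_lit 16) (.e true (nat_lit 2) (nat_lit 328) (nat_lit 0) (nat_lit 16) (.e false (nat_lit 1) (nat_lit 330) (nat_lit 0) (nat_lit 16) (.e false (nat_lit 2) (nat_lit 331) (nat_lit 0) (nat_lit 16) (.e true (nat_lit 2) (nat_lit 282) (nat_lit 2) (nat_lit 14) (.e false (nat_lit 1) (nat_lit 284) (nat_lit 2) (nat_lit 14) (.e false (nat_lit 3) (nat_lit 333) (nat_lit 0) (nat_lit 16) (.e true (nat_lit 3) (nat_lit 72) (nat_lit 20) (nat_lit 3) (.e true (nat_lit 2) (nat_lit 306) (nat_lit 1) (nat_lit 15) (.e false (nat_lit 3) (nat_lit 307) (nat_lit 1) (nat_lit 15) (.e false (nat_lit 1) (nat_lit 314) (nat_lit 1) (nat_lit 15) (.e true (nat_lit 2) (nat_lit 315) (nat_lit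 1) (nat_lit 15) (.e false (nat_lit 1) (nat_lit 308) (nat_lit 1) (nat_lit 15) (.e true (nat_lit 3) (nat_lit 310) (nat_lit 1) (nat_lit 15) (.e false (nat_lit 2) (nat_lit 309) (nat_lit 1) (nat_lit 15) (.e false (nat_lit 1) (nat_lit 311) (nat_lit 1) (nat_lit 15) (.e false (nat_lit 1) (nat_lit 312) (nat_lit 1) (nat_lit 15) (.e true (nat_lit 1) (nat_lit 48) (nat_lit 26) (nat_lit 2) (.e false (nat_lit 2) (nat_lit 319) (nat_lit 1) (nat_lit 15) (.u (nat_lit 2) (.n (nat_lit 0) (nat_lit 1) (.p (nat_lit 1) (nat_lit 2) (.n (nat_lit 2) (nat_lit 2) (.p (nat_lit 3) (nat_lit 1) (.n (nat_lit 4) (nat_lit 2) (.p (nat_lit 5) (nat_lit 6) (.n (nat_lit 6) (nat_lit 3) (.n (nat_lit 8) (nat_lit 1) (.n (nat_lit 9) (nat_lit 4) (.n (nat_lit 10) (nat_lit 3) (.n (nat_lit 11) (nat_lit 3) (.n (nat_lit 12) (nat_lit 1) (.n (nat_lit 14) (nat_lit 1) (.n (nat_lit 15) (nat_lit 1) (.n (nat_lit 16) (nat_lit 1) (.p (nat_lit 18) (nat_lit 3) (.p (nat_lit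 19) (nat_lit 2) (.p (nat_lit 21) (nat_lit 1) (.n (nat_lit 23) (nat_lit 1) (.p (nat_lit 24) (nat_lit 2) (.n (nat_lit 25) (nat_lit 2) (.p (nat_lit 27) (nat_lit 1) (.p (nat_lit 28) (nat_lit 1) (.n (nat_lit 33) (nat_lit 1) (.p (nat_lit 34) (nat_lit 3) (.p (nat_lit 35) (nat_lit 2) (.n (nat_lit 38) (nat_lit 7) (.n (nat_lit 43) (nat_lit 1) (.n (nat_lit 44) (nat_lit 1) (.p (nat_lit 46) (nat_lit 1) (.p (nat_lit 47) (nat_lit 1) (.n (nat_lit 48) (nat_lit 1) (.n (nat_lit 50) (nat_lit 1) (.p (nat_lit 52) (nat_lit 1) (.n (nat_lit 53) (nat_lit 1) (.n (nat_lit 55) (nat_lit 1) (.n (nat_lit 66) (nat_lit 1) (.n (nat_lit 71) (nat_lit 1) (.p (nat_lit 72) (nat_lit 1) (.n (nat_lit 80) (nat_lit 1) (.n (nat_lit 83) (nat_lit 1) (.n (nat_lit 85) (nat_lit 1) (.n (nat_lit 87) (nat_lit 1) (.n (nat_lit 94) (nat_lit 1) (.p (nat_lit 125) (nat_lit 2) (.p (nat_lit 126) (nat_lit 1) (.n (nat_lit 127) (nat_lit 1) (.n (nat_lit 137) (nat_lit 1) (.p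 (nat_lit 138) (nat_lit 1) (.n (nat_lit 142) (nat_lit 2) (.p (nat_lit 143) (nat_lit 2) (.n (nat_lit 144) (nat_lit 3) (.p (nat_lit 145) (nat_lit 1) (.n (nat_lit 146) (nat_lit 2) (.p (nat_lit 147) (nat_lit 3) (.n (nat_lit 149) (nat_lit 2) (.p (nat_lit 150) (nat_lit 2) (.p (nat_lit 153) (nat_lit 1) (.p (nat_lit 154) (nat_lit 2) (.p (nat_lit 157) (nat_lit 1) .z)))))))))))))))))))))))))))))))))))))))))))))))))))))))))))) (.u (nat_lit 2) (.p (nat_lit 159) (nat_lit 2) (.p (nat_lit 160) (nat_lit 4) (.p (nat_lit 161) (nat_lit 2) (.n (nat_lit 162) (nat_lit 2) (.n (nat_lit 163) (nat_lit 2) (.p (nat_lit 165) (nat_lit 4) (.n (nat_lit 166) (nat_lit 3) (.p (nat_lit 167) (nat_lit 2) (.p (nat_lit 168) (nat_lit 1) (.p (nat_lit 169) (nat_lit 1) (.n (nat_lit 178) (nat_lit 1) (.p (nat_lit 195) (nat_lit 1) (.p (nat_lit 196) (nat_lit 2) (.n (nat_lit 202) (nat_lit 1) (.p (nat_lit 204) (nat_lit 2) (.n (nat_lit 205) (nat_lit 14) (.p (nat_lit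 206) (nat_lit 27) (.p (nat_lit 207) (nat_lit 5) (.n (nat_lit 208) (nat_lit 9) (.p (nat_lit 209) (nat_lit 2) (.p (nat_lit 210) (nat_lit 2) (.n (nat_lit 211) (nat_lit 6) (.p (nat_lit 212) (nat_lit 10) (.p (nat_lit 213) (nat_lit 2) (.p (nat_lit 214) (nat_lit 5) (.n (nat_lit 215) (nat_lit 2) (.p (nat_lit 216) (nat_lit 21) (.p (nat_lit 217) (nat_lit 8) (.p (nat_lit 218) (nat_lit 2) (.n (nat_lit 219) (nat_lit 5) (.p (nat_lit 221) (nat_lit 2) (.n (nat_lit 222) (nat_lit 12) (.n (nat_lit 223) (nat_lit 6) (.n (nat_lit 224) (nat_lit 24) (.n (nat_lit 225) (nat_lit 12) (.n (nat_lit 226) (nat_lit 6) (.p (nat_lit 227) (nat_lit 5) (.n (nat_lit 228) (nat_lit 1) (.p (nat_lit 229) (nat_lit 8) (.n (nat_lit 230) (nat_lit 1) (.p (nat_lit 231) (nat_lit 4) (.p (nat_lit 232) (nat_lit 1) (.p (nat_lit 234) (nat_lit 1) (.p (nat_lit 235) (nat_lit 12) (.n (nat_lit 236) (nat_lit 2) (.n (nat_lit 237) (nat_lit 10) (.n (nat_lit 238) (nat_lit 3)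 (.p (nat_lit 240) (nat_lit 5) (.p (nat_lit 242) (nat_lit 1) (.p (nat_lit 243) (nat_lit 3) (.p (nat_lit 245) (nat_lit 2) (.p (nat_lit 247) (nat_lit 3) (.p (nat_lit 248) (nat_lit 2) (.n (nat_lit 249) (nat_lit 4) (.n (nat_lit 250) (nat_lit 2) (.n (nat_lit 251) (nat_lit 4) (.p (nat_lit 254) (nat_lit 1) (.p (nat_lit 257) (nat_lit 1) (.n (nat_lit 258) (nat_lit 1) (.n (nat_lit 260) (nat_lit 3) .z)))))))))))))))))))))))))))))))))))))))))))))))))))))))))))) (.u (nat_lit 2) (.n (nat_lit 261) (nat_lit 2) (.n (nat_lit 262) (nat_lit 2) (.p (nat_lit 263) (nat_lit 2) (.n (nat_lit 264) (nat_lit 1) (.p (nat_lit 265) (nat_lit 3) (.n (nat_lit 266) (nat_lit 2) (.n (nat_lit 267) (nat_lit 3) (.p (nat_lit 269) (nat_lit 1) (.p (nat_lit 270) (nat_lit 2) .z))))))))) .nil)))))))))))))))))))))))))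

noncomputable def dC2d_i353 : IL := (.s true (nat_lit 1) (nat_lit 102) (nat_lit 0) (nat_lit 1) (nat_lit 2) true (nat_lit 11) true (nat_lit 14) false (nat_lit 7) true (nat_lit 16) true (nat_lit 15) (.s true (nat_lit 3) (nat_lit 103) (nat_lit 0) (nat_lit 1) (nat_lit 2) true (nat_lit 11) true (nat_lit 14) false (nat_lit 7) true (nat_lit 16) true (nat_lit 15) (.s false (nat_lit 2) (nat_lit 101) (nat_lit 2) (nat_lit 1) (nat_lit 0) true (nat_lit 11) true (nat_lit 16) false (nat_lit 7) true (nat_lit 14) true (nat_lit 15) (.s false (nat_lit 1) (nat_lit 102) (nat_lit 2) (nat_lit 1) (nat_lit 0) true (nat_lit 11) true (nat_lit 16) false (nat_lit 7) true (nat_lit 14) true (nat_lit 15) (.s false (nat_lit 3) (nat_lit 103) (nat_lit 2) (nat_lit 1) (nat_lit 0) true (nat_lit 11) true (nat_lit 16) false (nat_lit 7) true (nat_lit 14) true (nat_lit 15) (.s true (nat_lit 2) (nat_lit 105) (nat_lit 0) (nat_lit 1) (nat_lit 1) true (nat_lit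 13) true (nat_lit 15) false (nat_lit 8) true (nat_lit 16) true (nat_lit 15) (.s true (nat_lit 2) (nat_lit 105) (nat_lit 1) (nat_lit 1) (nat_lit 0) true (nat_lit 13) true (nat_lit 16) false (nat_lit 8) true (nat_lit 15) true (nat_lit 15) (.e false (nat_lit 3) (nat_lit 154) (nat_lit 7) (nat_lit 9) (.e false (nat_lit 1) (nat_lit 265) (nat_lit 2) (nat_lit 14) (.e false (nat_lit 3) (nat_lit 274) (nat_lit 2) (nat_lit 14) (.e true (nat_lit 3) (nat_lit 285) (nat_lit 2) (nat_lit 14) (.e false (nat_lit 2) (nat_lit 264) (nat_lit 2) (nat_lit 14) (.e false (nat_lit 2) (nat_lit 252) (nat_lit 2) (nat_lit 14) (.e true (nat_lit 1) (nat_lit 253) (nat_lit 2) (nat_lit 14) (.e true (nat_lit 3) (nat_lit 258) (nat_lit 2) (nat_lit 14) (.e false (nat_lit 1) (nat_lit 259) (nat_lit 2) (nat_lit 14) (.e false (nat_lit 3) (nat_lit 261) (nat_lit 2) (nat_lit 14) (.e false (nat_lit 3) (nat_lit 263) (nat_lit 2) (nat_lit 14) (.e true (nat_lit 3)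 (nat_lit 271) (nat_lit 2) (nat_lit 14) (.e false (nat_lit 1) (nat_lit 273) (nat_lit 2) (nat_lit 14) (.e true (nat_lit 1) (nat_lit 283) (nat_lit 2) (nat_lit 14) (.e true (nat_lit 3) (nat_lit 134) (nat_lit 7) (nat_lit 9) (.e false (nat_lit 3) (nat_lit 140) (nat_lit 7) (nat_lit 9) (.e true (nat_lit 2) (nat_lit 144) (nat_lit 7) (nat_lit 9) (.e true (nat_lit 2) (nat_lit 313) (nat_lit 1) (nat_lit 15) dC2d_i352)))))))))))))))))))))))))

noncomputable def dC2d_i354 : IL := (.s false (nat_lit 2) (nat_lit 48) (nat_lit 6) (nat_lit 1) (nat_lit 0) true (nat_lit 7) true (nat_lit 16) false (nat_lit 2) true (nat_lit 10) true (nat_lit 15) (.s false (nat_lit 1) (nat_lit 66) (nat_lit 2) (nat_lit 2) (nat_lit 2) true (nat_lit 9) true (nat_lit 14) false (nat_lit 3) true (nat_lit 14) true (nat_lit 14) (.s true (nat_lit 2) (nat_lit 67) (nat_lit 2) (nat_lit 2) (nat_lit 2) true (nat_lit 9) true (nat_lit 14) false (nat_lit 3) true (nat_lit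 14) true (nat_lit 14) (.s false (nat_lit 2) (nat_lit 68) (nat_lit 2) (nat_lit 2) (nat_lit 2) true (nat_lit 9) true (nat_lit 14) false (nat_lit 3) true (nat_lit 14) true (nat_lit 14) (.s true (nat_lit 1) (nat_lit 69) (nat_lit 2) (nat_lit 2) (nat_lit 2) true (nat_lit 9) true (nat_lit 14) false (nat_lit 3) true (nat_lit 14) true (nat_lit 14) (.s false (nat_lit 3) (nat_lit 70) (nat_lit 2) (nat_lit 2) (nat_lit 2) true (nat_lit 9) true (nat_lit 14) false (nat_lit 3) true (nat_lit 14) true (nat_lit 14) (.s false (nat_lit 3) (nat_lit 71) (nat_lit 2) (nat_lit 2) (nat_lit 2) true (nat_lit 9) true (nat_lit 14) false (nat_lit 3) true (nat_lit 14) true (nat_lit 14) (.s false (nat_lit 2) (nat_lit 73) (nat_lit 2) (nat_lit 2) (nat_lit 2) true (nat_lit 9) true (nat_lit 14) false (nat_lit 3) true (nat_lit 14) true (nat_lit 14) (.s false (nat_lit 3) (nat_lit 80) (nat_lit 1) (nat_lit 2) (nat_lit 2) true (nat_lit 10) true (nat_lit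 14) false (nat_lit 4) true (nat_lit 15) true (nat_lit 14) (.s false (nat_lit 1) (nat_lit 81) (nat_lit 1) (nat_lit 2) (nat_lit 2) true (nat_lit 10) true (nat_lit 14) false (nat_lit 4) true (nat_lit 15) true (nat_lit 14) (.s true (nat_lit 1) (nat_lit 82) (nat_lit 1) (nat_lit 2) (nat_lit 2) true (nat_lit 10) true (nat_lit 14) false (nat_lit 4) true (nat_lit 15) true (nat_lit 14) (.s false (nat_lit 1) (nat_lit 83) (nat_lit 1) (nat_lit 2) (nat_lit 2) true (nat_lit 10) true (nat_lit 14) false (nat_lit 4) true (nat_lit 15) true (nat_lit 14) (.s false (nat_lit 1) (nat_lit 85) (nat_lit 1) (nat_lit 2) (nat_lit 2) true (nat_lit 10) true (nat_lit 14) false (nat_lit 4) true (nat_lit 15) true (nat_lit 14) (.s false (nat_lit 1) (nat_lit 88) (nat_lit 1) (nat_lit 2) (nat_lit 2) true (nat_lit 10) true (nat_lit 14) false (nat_lit 4) true (nat_lit 15) true (nat_lit 14) (.s true (nat_lit 3) (nat_lit 90) (nat_lit 1) (nat_lit 2) (nat_lit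 2) true (nat_lit 10) true (nat_lit 14) false (nat_lit 4) true (nat_lit 15) true (nat_lit 14) (.s true (nat_lit 2) (nat_lit 88) (nat_lit 2) (nat_lit 1) (nat_lit 2) true (nat_lit 9) true (nat_lit 14) false (nat_lit 4) true (nat_lit 14) true (nat_lit 15) (.s false (nat_lit 2) (nat_lit 80) (nat_lit 2) (nat_lit 2) (nat_lit 1) true (nat_lit 10) true (nat_lit 15) false (nat_lit 4) true (nat_lit 14) true (nat_lit 14) (.s false (nat_lit 2) (nat_lit 82) (nat_lit 2) (nat_lit 2) (nat_lit 1) true (nat_lit 10) true (nat_lit 15) false (nat_lit 4) true (nat_lit 14) true (nat_lit 14) (.s true (nat_lit 3) (nat_lit 92) (nat_lit 0) (nat_lit 2) (nat_lit 2) true (nat_lit 11) true (nat_lit 14) false (nat_lit 5) true (nat_lit 16) true (nat_lit 14) (.s false (nat_lit 3) (nat_lit 93) (nat_lit 0) (nat_lit 2) (nat_lit 2) true (nat_lit 11) true (nat_lit 14) false (nat_lit 5) true (nat_lit 16) true (nat_lit 14) (.s false (nat_lit 3) (nat_lit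 96) (nat_lit 2) (nat_lit 2) (nat_lit 0) true (nat_lit 11) true (nat_lit 16) false (nat_lit 5) true (nat_lit 14) true (nat_lit 14) (.s true (nat_lit 3) (nat_lit 98) (nat_lit 1) (nat_lit 2) (nat_lit 1) true (nat_lit 12) true (nat_lit 15) false (nat_lit 6) true (nat_lit 15) true (nat_lit 14) (.s false (nat_lit 2) (nat_lit 99) (nat_lit 1) (nat_lit 2) (nat_lit 1) true (nat_lit 12) true (nat_lit 15) false (nat_lit 6) true (nat_lit 15) true (nat_lit 14) (.s false (nat_lit 2) (nat_lit 100) (nat_lit 1) (nat_lit 2) (nat_lit 1) true (nat_lit 12) true (nat_lit 15) false (nat_lit 6) true (nat_lit 15) true (nat_lit 14) (.s true (nat_lit 2) (nat_lit 101) (nat_lit 0) (nat_lit 1) (nat_lit 2) true (nat_lit 11) true (nat_lit 14) false (nat_lit 7) true (nat_lit 16) true (nat_lit 15) dC2d_i353)))))))))))))))))))))))))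

noncomputable def dC2d_i355 : IL := (.s true (nat_lit 2) (nat_lit 34) (nat_lit 1) (nat_lit 2) (nat_lit 7) true (nat_lit 4) true (nat_lit 9) true (nat_lit 1) true (nat_lit 15) true (nat_lit 14) (.s false (nat_lit 1) (nat_lit 35) (nat_lit 1) (nat_lit 2) (nat_lit 7) true (nat_lit 4) true (nat_lit 9) true (nat_lit 1) true (nat_lit 15) true (nat_lit 14) (.s false (nat_lit 1) (nat_lit 35) (nat_lit 1) (nat_lit 7) (nat_lit 2) true (nat_lit 10) true (nat_lit 14) true (nat_lit 1) true (nat_lit 15) true (nat_lit 9) (.s false (nat_lit 2) (nat_lit 33) (nat_lit 2) (nat_lit 2) (nat_lit 6) true (nat_lit 4) true (nat_lit 10) true (nat_lit 1) true (nat_lit 14) true (nat_lit 14) (.s false (nat_lit 3) (nat_lit 34) (nat_lit 2) (nat_lit 2) (nat_lit 6) true (nat_lit 4) true (nat_lit 10) true (nat_lit 1) true (nat_lit 14) true (nat_lit 14) (.s false (nat_lit 2) (nat_lit 34) (nat_lit 2) (nat_lit 6) (nat_lit 2) true (nat_lit 9) true (nat_lit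 14) true (nat_lit 1) true (nat_lit 14) true (nat_lit 10) (.s false (nat_lit 2) (nat_lit 33) (nat_lit 2) (nat_lit 7) (nat_lit 1) true (nat_lit 10) true (nat_lit 15) true (nat_lit 1) true (nat_lit 14) true (nat_lit 9) (.s false (nat_lit 2) (nat_lit 34) (nat_lit 2) (nat_lit 7) (nat_lit 1) true (nat_lit 10) true (nat_lit 15) true (nat_lit 1) true (nat_lit 14) true (nat_lit 9) (.s true (nat_lit 3) (nat_lit 33) (nat_lit 6) (nat_lit 2) (nat_lit 2) true (nat_lit 4) true (nat_lit 14) true (nat_lit 1) true (nat_lit 10) true (nat_lit 14) (.s false (nat_lit 2) (nat_lit 35) (nat_lit 6) (nat_lit 2) (nat_lit 2) true (nat_lit 4) true (nat_lit 14) true (nat_lit 1) true (nat_lit 10) true (nat_lit 14) (.s true (nat_lit 1) (nat_lit 33) (nat_lit 7) (nat_lit 2) (nat_lit 1) true (nat_lit 4) true (nat_lit 15) true (nat_lit 1) true (nat_lit 9) true (nat_lit 14) (.s false (nat_lit 1) (nat_lit 40) (nat_lit 2) (nat_lit 2) (nat_lit 5) true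 (nat_lit 5) true (nat_lit 11) true (nat_lit 0) true (nat_lit 14) true (nat_lit 14) (.s true (nat_lit 3) (nat_lit 41) (nat_lit 2) (nat_lit 2) (nat_lit 5) true (nat_lit 5) true (nat_lit 11) true (nat_lit 0) true (nat_lit 14) true (nat_lit 14) (.s true (nat_lit 2) (nat_lit 40) (nat_lit 2) (nat_lit 5) (nat_lit 2) true (nat_lit 9) true (nat_lit 14) true (nat_lit 0) true (nat_lit 14) true (nat_lit 11) (.s false (nat_lit 1) (nat_lit 39) (nat_lit 2) (nat_lit 7) (nat_lit 0) true (nat_lit 11) true (nat_lit 16) true (nat_lit 0) true (nat_lit 14) true (nat_lit 9) (.s false (nat_lit 2) (nat_lit 39) (nat_lit 5) (nat_lit 2) (nat_lit 2) true (nat_lit 5) true (nat_lit 14) true (nat_lit 0) true (nat_lit 11) true (nat_lit 14) (.s false (nat_lit 1) (nat_lit 40) (nat_lit 5) (nat_lit 2) (nat_lit 2) true (nat_lit 5) true (nat_lit 14) true (nat_lit 0) true (nat_lit 11) true (nat_lit 14) (.s true (nat_lit 2) (nat_lit 40) (nat_lit 7) (nat_lit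 2) (nat_lit 0) true (nat_lit 5) true (nat_lit 16) true (nat_lit 0) true (nat_lit 9) true (nat_lit 14) (.s false (nat_lit 2) (nat_lit 43) (nat_lit 2) (nat_lit 2) (nat_lit 4) true (nat_lit 6) true (nat_lit 12) false (nat_lit 0) true (nat_lit 14) true (nat_lit 14) (.s false (nat_lit 2) (nat_lit 44) (nat_lit 2) (nat_lit 2) (nat_lit 4) true (nat_lit 6) true (nat_lit 12) false (nat_lit 0) true (nat_lit 14) true (nat_lit 14) (.s true (nat_lit 3) (nat_lit 43) (nat_lit 4) (nat_lit 2) (nat_lit 2) true (nat_lit 6) true (nat_lit 14) false (nat_lit 0) true (nat_lit 12) true (nat_lit 14) (.s true (nat_lit 3) (nat_lit 44) (nat_lit 4) (nat_lit 2) (nat_lit 2) true (nat_lit 6) true (nat_lit 14) false (nat_lit 0) true (nat_lit 12) true (nat_lit 14) (.s true (nat_lit 2) (nat_lit 48) (nat_lit 0) (nat_lit 2) (nat_lit 4) true (nat_lit 8) true (nat_lit 12) false (nat_lit 2) true (nat_lit 16) true (nat_lit 14) (.s false (nat_lit 3) (nat_lit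 48) (nat_lit 2) (nat_lit 3) (nat_lit 1) true (nat_lit 10) true (nat_lit 15) false (nat_lit 2) true (nat_lit 14) true (nat_lit 13) (.s true (nat_lit 2) (nat_lit 48) (nat_lit 6) (nat_lit 0) (nat_lit 1) true (nat_lit 6) true (nat_lit 15) false (nat_lit 2) true (nat_lit 10) true (nat_lit 16) dC2d_i354)))))))))))))))))))))))))

noncomputable def dC2d_i356 : IL := (.s true (nat_lit 1) (nat_lit 20) (nat_lit 0) (nat_lit 15) (nat_lit 2) true (nat_lit 11) true (nat_lit 14) true (nat_lit 3) true (nat_lit 16) true (nat_lit 6) (.s false (nat_lit 2) (nat_lit 20) (nat_lit 1) (nat_lit 3) (nat_lit 7) true (nat_lit 4) true (nat_lit 9) true (nat_lit 3) true (nat_lit 15) true (nat_lit 13) (.s false (nat_lit 2) (nat_lit 20) (nat_lit 1) (nat_lit 7) (nat_lit 3) true (nat_lit 8) true (nat_lit 13) true (nat_lit 3) true (nat_lit 15) true (nat_lit 9) (.s false (nat_lit 1) (nat_lit 20) (nat_lit 2) (nat_lit 1) (nat_lit 11) true (nat_lit 1)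 true (nat_lit 7) true (nat_lit 3) true (nat_lit 14) true (nat_lit 15) (.s false (nat_lit 2) (nat_lit 20) (nat_lit 2) (nat_lit 1) (nat_lit 13) true (nat_lit 1) true (nat_lit 7) true (nat_lit 3) true (nat_lit 14) true (nat_lit 15) (.s false (nat_lit 2) (nat_lit 20) (nat_lit 2) (nat_lit 2) (nat_lit 8) true (nat_lit 2) true (nat_lit 8) true (nat_lit 3) true (nat_lit 14) true (nat_lit 14) (.s false (nat_lit 2) (nat_lit 20) (nat_lit 2) (nat_lit 6) (nat_lit 3) true (nat_lit 7) true (nat_lit 13) true (nat_lit 3) true (nat_lit 14) true (nat_lit 10) (.s false (nat_lit 3) (nat_lit 20) (nat_lit 2) (nat_lit 13) (nat_lit 1) true (nat_lit 10) true (nat_lit 15) true (nat_lit 3) true (nat_lit 14) true (nat_lit 7) (.s false (nat_lit 3) (nat_lit 20) (nat_lit 2) (nat_lit 14) (nat_lit 0) true (nat_lit 11) true (nat_lit 16) true (nat_lit 3) true (nat_lit 14) true (nat_lit 6) (.s false (nat_lit 1) (nat_lit 20) (nat_lit 2) (nat_lit 15)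 (nat_lit 0) true (nat_lit 11) true (nat_lit 16) true (nat_lit 3) true (nat_lit 14) true (nat_lit 6) (.s true (nat_lit 3) (nat_lit 20) (nat_lit 3) (nat_lit 7) (nat_lit 1) true (nat_lit 8) true (nat_lit 15) true (nat_lit 3) true (nat_lit 13) true (nat_lit 9) (.s false (nat_lit 3) (nat_lit 20) (nat_lit 6) (nat_lit 3) (nat_lit 2) true (nat_lit 4) true (nat_lit 14) true (nat_lit 3) true (nat_lit 10) true (nat_lit 13) (.s true (nat_lit 2) (nat_lit 20) (nat_lit 7) (nat_lit 3) (nat_lit 1) true (nat_lit 4) true (nat_lit 15) true (nat_lit 3) true (nat_lit 9) true (nat_lit 13) (.s false (nat_lit 3) (nat_lit 20) (nat_lit 8) (nat_lit 2) (nat_lit 2) true (nat_lit 2) true (nat_lit 14) true (nat_lit 3) true (nat_lit 8) true (nat_lit 14) (.s true (nat_lit 2) (nat_lit 20) (nat_lit 12) (nat_lit 2) (nat_lit 1) true (nat_lit 2) true (nat_lit 15) true (nat_lit 3) true (nat_lit 7) true (nat_lit 14) (.s false (nat_lit 2) (nat_lit 20)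 (nat_lit 14) (nat_lit 0) (nat_lit 2) true (nat_lit 0) true (nat_lit 14) true (nat_lit 3) true (nat_lit 6) true (nat_lit 16) (.s true (nat_lit 3) (nat_lit 20) (nat_lit 15) (nat_lit 2) (nat_lit 0) true (nat_lit 2) true (nat_lit 16) true (nat_lit 3) true (nat_lit 6) true (nat_lit 14) (.s true (nat_lit 1) (nat_lit 24) (nat_lit 2) (nat_lit 2) (nat_lit 7) true (nat_lit 3) true (nat_lit 9) true (nat_lit 2) true (nat_lit 14) true (nat_lit 14) (.s false (nat_lit 2) (nat_lit 25) (nat_lit 2) (nat_lit 2) (nat_lit 7) true (nat_lit 3) true (nat_lit 9) true (nat_lit 2) true (nat_lit 14) true (nat_lit 14) (.s true (nat_lit 3) (nat_lit 27) (nat_lit 2) (nat_lit 2) (nat_lit 7) true (nat_lit 3) true (nat_lit 9) true (nat_lit 2) true (nat_lit 14) true (nat_lit 14) (.s true (nat_lit 1) (nat_lit 28) (nat_lit 2) (nat_lit 2) (nat_lit 7) true (nat_lit 3) true (nat_lit 9) true (nat_lit 2) true (nat_lit 14) true (nat_lit 14) (.s false (nat_lit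 1) (nat_lit 29) (nat_lit 2) (nat_lit 2) (nat_lit 7) true (nat_lit 3) true (nat_lit 9) true (nat_lit 2) true (nat_lit 14) true (nat_lit 14) (.s false (nat_lit 1) (nat_lit 27) (nat_lit 2) (nat_lit 7) (nat_lit 2) true (nat_lit 9) true (nat_lit 14) true (nat_lit 2) true (nat_lit 14) true (nat_lit 9) (.s true (nat_lit 1) (nat_lit 27) (nat_lit 7) (nat_lit 2) (nat_lit 2) true (nat_lit 3) true (nat_lit 14) true (nat_lit 2) true (nat_lit 9) true (nat_lit 14) (.s true (nat_lit 1) (nat_lit 33) (nat_lit 1) (nat_lit 2) (nat_lit 7) true (nat_lit 4) true (nat_lit 9) true (nat_lit 1) true (nat_lit 15) true (nat_lit 14) dC2d_i355)))))))))))))))))))))))))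

noncomputable def dC2d_i357 : IL := (.s false (nat_lit 1) (nat_lit 11) (nat_lit 1) (nat_lit 7) (nat_lit 7) true (nat_lit 4) true (nat_lit 9) true (nat_lit 7) true (nat_lit 15) true (nat_lit 9) (.s true (nat_lit 2) (nat_lit 12) (nat_lit 1) (nat_lit 7) (nat_lit 7) true (nat_lit 4) true (nat_lit 9) true (nat_lit 7) true (nat_lit 15) true (nat_lit 9) (.s true (nat_lit 3) (nat_lit 11) (nat_lit 2) (nat_lit 7) (nat_lit 6) true (nat_lit 4) true (nat_lit 10) true (nat_lit 7) true (nat_lit 14) true (nat_lit 9) (.s true (nat_lit 1) (nat_lit 13) (nat_lit 2) (nat_lit 7) (nat_lit 6) true (nat_lit 4) true (nat_lit 10) true (nat_lit 7) true (nat_lit 14) true (nat_lit 9) (.s false (nat_lit 2) (nat_lit 12) (nat_lit 6) (nat_lit 2) (nat_lit 7) false (nat_lit 1) true (nat_lit 9) true (nat_lit 7) true (nat_lit 10) true (nat_lit 14) (.s false (nat_lit 1) (nat_lit 13) (nat_lit 6) (nat_lit 2) (nat_lit 7) false (nat_lit 1) true (nat_lit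 9) true (nat_lit 7) true (nat_lit 10) true (nat_lit 14) (.s false (nat_lit 2) (nat_lit 12) (nat_lit 7) (nat_lit 2) (nat_lit 6) false (nat_lit 1) true (nat_lit 10) true (nat_lit 7) true (nat_lit 9) true (nat_lit 14) (.s true (nat_lit 2) (nat_lit 11) (nat_lit 7) (nat_lit 7) (nat_lit 1) true (nat_lit 4) true (nat_lit 15) true (nat_lit 7) true (nat_lit 9) true (nat_lit 9) (.s true (nat_lit 1) (nat_lit 13) (nat_lit 7) (nat_lit 7) (nat_lit 1) true (nat_lit 4) true (nat_lit 15) true (nat_lit 7) true (nat_lit 9) true (nat_lit 9) (.s false (nat_lit 2) (nat_lit 15) (nat_lit 7) (nat_lit 0) (nat_lit 7) false (nat_lit 2) true (nat_lit 9) true (nat_lit 6) true (nat_lit 9) true (nat_lit 16) (.s false (nat_lit 1) (nat_lit 15) (nat_lit 7) (nat_lit 5) (nat_lit 2) true (nat_lit 3) true (nat_lit 14) true (nat_lit 6) true (nat_lit 9) true (nat_lit 11) (.s true (nat_lit 3) (nat_lit 17) (nat_lit 2) (nat_lit 2) (nat_lit 14) true (nat_lit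 0) true (nat_lit 6) true (nat_lit 5) true (nat_lit 14) true (nat_lit 14) (.s true (nat_lit 2) (nat_lit 16) (nat_lit 14) (nat_lit 2) (nat_lit 2) true (nat_lit 0) true (nat_lit 14) true (nat_lit 5) true (nat_lit 6) true (nat_lit 14) (.s false (nat_lit 1) (nat_lit 16) (nat_lit 15) (nat_lit 2) (nat_lit 2) true (nat_lit 0) true (nat_lit 14) true (nat_lit 5) true (nat_lit 6) true (nat_lit 14) (.s true (nat_lit 2) (nat_lit 17) (nat_lit 15) (nat_lit 2) (nat_lit 2) true (nat_lit 0) true (nat_lit 14) true (nat_lit 5) true (nat_lit 6) true (nat_lit 14) (.s false (nat_lit 2) (nat_lit 18) (nat_lit 2) (nat_lit 2) (nat_lit 11) true (nat_lit 1) true (nat_lit 7) true (nat_lit 4) true (nat_lit 14) true (nat_lit 14) (.s false (nat_lit 2) (nat_lit 18) (nat_lit 2) (nat_lit 2) (nat_lit 13) true (nat_lit 1) true (nat_lit 7) true (nat_lit 4) true (nat_lit 14) true (nat_lit 14) (.s false (nat_lit 3) (nat_lit 19) (nat_lit 2) (nat_lit 2)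 (nat_lit 11) true (nat_lit 1) true (nat_lit 7) true (nat_lit 4) true (nat_lit 14) true (nat_lit 14) (.s true (nat_lit 2) (nat_lit 19) (nat_lit 2) (nat_lit 2) (nat_lit 12) true (nat_lit 1) true (nat_lit 7) true (nat_lit 4) true (nat_lit 14) true (nat_lit 14) (.s false (nat_lit 1) (nat_lit 19) (nat_lit 2) (nat_lit 2) (nat_lit 13) true (nat_lit 1) true (nat_lit 7) true (nat_lit 4) true (nat_lit 14) true (nat_lit 14) (.s false (nat_lit 2) (nat_lit 19) (nat_lit 2) (nat_lit 12) (nat_lit 2) true (nat_lit 9) true (nat_lit 14) true (nat_lit 4) true (nat_lit 14) true (nat_lit 7) (.s true (nat_lit 2) (nat_lit 18) (nat_lit 3) (nat_lit 7) (nat_lit 2) true (nat_lit 7) true (nat_lit 14) true (nat_lit 4) true (nat_lit 13) true (nat_lit 9) (.s false (nat_lit 2) (nat_lit 18) (nat_lit 11) (nat_lit 2) (nat_lit 2) true (nat_lit 1) true (nat_lit 14) true (nat_lit 4) true (nat_lit 7) true (nat_lit 14) (.s true (nat_lit 2) (nat_lit 18)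 (nat_lit 12) (nat_lit 2) (nat_lit 2) true (nat_lit 1) true (nat_lit 14) true (nat_lit 4) true (nat_lit 7) true (nat_lit 14) (.s false (nat_lit 3) (nat_lit 19) (nat_lit 13) (nat_lit 2) (nat_lit 2) true (nat_lit 1) true (nat_lit 14) true (nat_lit 4) true (nat_lit 7) true (nat_lit 14) dC2d_i356)))))))))))))))))))))))))

noncomputable def dC2d_i358 : IL := (.e false (nat_lit 1) (nat_lit 136) (nat_lit 7) (nat_lit 9) (.e true (nat_lit 2) (nat_lit 105) (nat_lit 8) (nat_lit 8) (.e true (nat_lit 2) (nat_lit 305) (nat_lit 1) (nat_lit 15) (.e false (nat_lit 1) (nat_lit 307) (nat_lit 1) (nat_lit 15) (.e true (nat_lit 2) (nat_lit 310) (nat_lit 1) (nat_lit 15) (.e false (nat_lit 2) (nat_lit 311) (nat_lit 1) (nat_lit 15) (.e false (nat_lit 2) (nat_lit 312) (nat_lit 1) (nat_lit 15) (.e false (nat_lit 3) (nat_lit 313) (nat_lit 1) (nat_lit 15) (.e true (nat_lit 2) (nat_lit 314) (nat_lit 1) (nat_lit 15) (.e false (nat_lit 3) (nat_lit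 317) (nat_lit 1) (nat_lit 15) (.e true (nat_lit 2) (nat_lit 321) (nat_lit 1) (nat_lit 15) (.e true (nat_lit 2) (nat_lit 266) (nat_lit 2) (nat_lit 14) (.e false (nat_lit 2) (nat_lit 102) (nat_lit 11) (nat_lit 7) (.e false (nat_lit 2) (nat_lit 104) (nat_lit 11) (nat_lit 7) (.e true (nat_lit 1) (nat_lit 140) (nat_lit 7) (nat_lit 9) (.e true (nat_lit 1) (nat_lit 324) (nat_lit 0) (nat_lit 16) (.e false (nat_lit 2) (nat_lit 325) (nat_lit 0) (nat_lit 16) (.e false (nat_lit 1) (nat_lit 327) (nat_lit 0) (nat_lit 16) (.e true (nat_lit 1) (nat_lit 328) (nat_lit 0) (nat_lit 16) (.e true (nat_lit 1) (nat_lit 330) (nat_lit 0) (nat_lit 16) (.e true (nat_lit 2) (nat_lit 333) (nat_lit 0) (nat_lit 16) (.e true (nat_lit 3) (nat_lit 329) (nat_lit 0) (nat_lit 16) (.e false (nat_lit 2) (nat_lit 331) (nat_lit 0) (nat_lit 16) (.u (nat_lit 2) (.p (nat_lit 0) (nat_lit 1) (.p (nat_lit 1) (nat_lit 2) (.n (nat_lit 3) (nat_lit 2) (.n (nat_lit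 5) (nat_lit 4) (.p (nat_lit 6) (nat_lit 3) (.p (nat_lit 8) (nat_lit 1) (.p (nat_lit 10) (nat_lit 2) (.n (nat_lit 11) (nat_lit 2) (.n (nat_lit 12) (nat_lit 2) (.n (nat_lit 13) (nat_lit 2) (.n (nat_lit 14) (nat_lit 5) (.p (nat_lit 17) (nat_lit 4) (.p (nat_lit 18) (nat_lit 2) (.p (nat_lit 19) (nat_lit 1) (.p (nat_lit 23) (nat_lit 1) (.n (nat_lit 24) (nat_lit 4) (.n (nat_lit 25) (nat_lit 1) (.p (nat_lit 27) (nat_lit 2) (.n (nat_lit 29) (nat_lit 1) (.p (nat_lit 34) (nat_lit 2) (.n (nat_lit 38) (nat_lit 2) (.p (nat_lit 204) (nat_lit 2) (.n (nat_lit 205) (nat_lit 1) (.p (nat_lit 206) (nat_lit 1) (.n (nat_lit 207) (nat_lit 4) (.n (nat_lit 208) (nat_lit 3) (.p (nat_lit 209) (nat_lit 3) (.p (nat_lit 210) (nat_lit 1) (.n (nat_lit 211) (nat_lit 4) (.p (nat_lit 212) (nat_lit 4) (.p (nat_lit 213) (nat_lit 3) (.p (nat_lit 214) (nat_lit 2) (.n (nat_lit 215) (nat_lit 1) (.p (nat_lit 216) (nat_lit 2) (.n (nat_lit 217) (nat_lit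 1) (.n (nat_lit 218) (nat_lit 1) (.n (nat_lit 219) (nat_lit 2) (.n (nat_lit 221) (nat_lit 1) (.n (nat_lit 222) (nat_lit 3) (.p (nat_lit 223) (nat_lit 2) (.p (nat_lit 225) (nat_lit 2) (.p (nat_lit 226) (nat_lit 1) (.n (nat_lit 227) (nat_lit 1) (.n (nat_lit 228) (nat_lit 2) (.n (nat_lit 229) (nat_lit 2) (.n (nat_lit 230) (nat_lit 1) (.p (nat_lit 232) (nat_lit 2) (.p (nat_lit 237) (nat_lit 1) (.n (nat_lit 238) (nat_lit 2) (.p (nat_lit 240) (nat_lit 1) (.n (nat_lit 247) (nat_lit 1) (.n (nat_lit 248) (nat_lit 1) (.n (nat_lit 249) (nat_lit 1) (.p (nat_lit 250) (nat_lit 1) (.p (nat_lit 251) (nat_lit 1) (.p (nat_lit 261) (nat_lit 1) (.p (nat_lit 262) (nat_lit 1) (.n (nat_lit 263) (nat_lit 1) (.p (nat_lit 264) (nat_lit 1) (.p (nat_lit 266) (nat_lit 1) .z)))))))))))))))))))))))))))))))))))))))))))))))))))))))))))) (.u (nat_lit 2) (.n (nat_lit 267) (nat_lit 1) .z) .nil)))))))))))))))))))))))))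

noncomputable def dC2d_i359 : IL := (.s true (nat_lit 1) (nat_lit 102) (nat_lit 2) (nat_lit 1) (nat_lit 0) true (nat_lit 11) true (nat_lit 16) false (nat_lit 7) true (nat_lit 14) true (nat_lit 15) (.s true (nat_lit 1) (nat_lit 104) (nat_lit 2) (nat_lit 1) (nat_lit 0) true (nat_lit 11) true (nat_lit 16) false (nat_lit 7) true (nat_lit 14) true (nat_lit 15) (.s true (nat_lit 1) (nat_lit 105) (nat_lit 0) (nat_lit 1) (nat_lit 1) true (nat_lit 13) true (nat_lit 15) false (nat_lit 8) true (nat_lit 16) true (nat_lit 15) (.e true (nat_lit 2) (nat_lit 252) (nat_lit 2) (nat_lit 14) (.e true (nat_lit 2) (nat_lit 254) (nat_lit 2) (nat_lit 14) (.e true (nat_lit 3) (nat_lit 256) (nat_lit 2) (nat_lit 14) (.e false (nat_lit 1) (nat_lit 258) (nat_lit 2) (nat_lit 14) (.e false (nat_lit 2) (nat_lit 259) (nat_lit 2) (nat_lit 14) (.e true (nat_lit 2) (nat_lit 262) (nat_lit 2) (nat_lit 14) (.e true (nat_lit 1) (nat_lit 264) (nat_lit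 2) (nat_lit 14) (.e false (nat_lit 2) (nat_lit 267) (nat_lit 2) (nat_lit 14) (.e true (nat_lit 1) (nat_lit 270) (nat_lit 2) (nat_lit 14) (.e false (nat_lit 1) (nat_lit 271) (nat_lit 2) (nat_lit 14) (.e true (nat_lit 2) (nat_lit 272) (nat_lit 2) (nat_lit 14) (.e false (nat_lit 1) (nat_lit 273) (nat_lit 2) (nat_lit 14) (.e false (nat_lit 1) (nat_lit 274) (nat_lit 2) (nat_lit 14) (.e false (nat_lit 1) (nat_lit 283) (nat_lit 2) (nat_lit 14) (.e true (nat_lit 1) (nat_lit 285) (nat_lit 2) (nat_lit 14) (.e false (nat_lit 1) (nat_lit 315) (nat_lit 1) (nat_lit 15) (.e true (nat_lit 3) (nat_lit 253) (nat_lit 2) (nat_lit 14) (.e false (nat_lit 1) (nat_lit 255) (nat_lit 2) (nat_lit 14) (.e false (nat_lit 2) (nat_lit 263) (nat_lit 2) (nat_lit 14) (.e false (nat_lit 2) (nat_lit 265) (nat_lit 2) (nat_lit 14) (.e true (nat_lit 2) (nat_lit 269) (nat_lit 2) (nat_lit 14) (.e true (nat_lit 3) (nat_lit 277) (nat_lit 2) (nat_lit 14)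 dC2d_i358)))))))))))))))))))))))))

noncomputable def dC2d_i360 : IL := (.e true (nat_lit 3) (nat_lit 313) (nat_lit 1) (nat_lit 15) (.e true (nat_lit 3) (nat_lit 66) (nat_lit 20) (nat_lit 3) (.e false (nat_lit 1) (nat_lit 72) (nat_lit 20) (nat_lit 3) (.e false (nat_lit 3) (nat_lit 144) (nat_lit 7) (nat_lit 9) (.e true (nat_lit 3) (nat_lit 152) (nat_lit 7) (nat_lit 9) (.e true (nat_lit 1) (nat_lit 252) (nat_lit 2) (nat_lit 14) (.e true (nat_lit 2) (nat_lit 258) (nat_lit 2) (nat_lit 14) (.e true (nat_lit 1) (nat_lit 253) (nat_lit 2) (nat_lit 14) (.e true (nat_lit 1) (nat_lit 257) (nat_lit 2) (nat_lit 14) (.e false (nat_lit 1) (nat_lit 255) (nat_lit 2) (nat_lit 14) (.e true (nat_lit 1) (nat_lit 48) (nat_lit 26) (nat_lit 2) (.e true (nat_lit 1) (nat_lit 305) (nat_lit 1) (nat_lit 15) (.e true (nat_lit 1) (nat_lit 308) (nat_lit 1) (nat_lit 15) (.e false (nat_lit 3) (nat_lit 309) (nat_lit 1) (nat_lit 15) (.e false (nat_lit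 3) (nat_lit 310) (nat_lit 1) (nat_lit 15) (.e false (nat_lit 2) (nat_lit 311) (nat_lit 1) (nat_lit 15) (.e false (nat_lit 2) (nat_lit 312) (nat_lit 1) (nat_lit 15) (.e true (nat_lit 2) (nat_lit 314) (nat_lit 1) (nat_lit 15) (.e false (nat_lit 2) (nat_lit 317) (nat_lit 1) (nat_lit 15) (.e false (nat_lit 2) (nat_lit 321) (nat_lit 1) (nat_lit 15) (.e true (nat_lit 2) (nat_lit 322) (nat_lit 1) (nat_lit 15) (.e true (nat_lit 3) (nat_lit 62) (nat_lit 20) (nat_lit 3) (.e false (nat_lit 3) (nat_lit 318) (nat_lit 1) (nat_lit 15) (.e true (nat_lit 2) (nat_lit 315) (nat_lit 1) (nat_lit 15) (.u (nat_lit 2) (.n (nat_lit 1) (nat_lit 4) (.p (nat_lit 2) (nat_lit 2) (.n (nat_lit 3) (nat_lit 1) (.n (nat_lit 4) (nat_lit 1) (.n (nat_lit 6) (nat_lit 3) (.n (nat_lit 7) (nat_lit 4) (.p (nat_lit 8) (nat_lit 3) (.p (nat_lit 9) (nat_lit 3) (.p (nat_lit 11) (nat_lit 1) (.n (nat_lit 13) (nat_lit 4) (.p (nat_lit 15) (nat_lit 1) (.p (nat_lit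 16) (nat_lit 1) (.n (nat_lit 18) (nat_lit 1) (.n (nat_lit 19) (nat_lit 2) (.n (nat_lit 24) (nat_lit 3) (.p (nat_lit 25) (nat_lit 1) (.n (nat_lit 27) (nat_lit 1) (.n (nat_lit 34) (nat_lit 1) (.p (nat_lit 38) (nat_lit 1) (.p (nat_lit 78) (nat_lit 2) (.n (nat_lit 84) (nat_lit 1) (.p (nat_lit 85) (nat_lit 1) (.n (nat_lit 129) (nat_lit 1) (.p (nat_lit 130) (nat_lit 1) (.n (nat_lit 156) (nat_lit 1) (.n (nat_lit 157) (nat_lit 6) (.n (nat_lit 159) (nat_lit 1) (.p (nat_lit 164) (nat_lit 1) (.p (nat_lit 204) (nat_lit 3) (.p (nat_lit 205) (nat_lit 3) (.n (nat_lit 206) (nat_lit 4) (.n (nat_lit 210) (nat_lit 6) (.n (nat_lit 213) (nat_lit 3) (.n (nat_lit 215) (nat_lit 3) (.n (nat_lit 216) (nat_lit 2) (.p (nat_lit 217) (nat_lit 7) (.n (nat_lit 218) (nat_lit 6) (.p (nat_lit 219) (nat_lit 3) (.p (nat_lit 221) (nat_lit 3) (.p (nat_lit 226) (nat_lit 6) (.p (nat_lit 229) (nat_lit 3) (.p (nat_lit 235) (nat_lit 3) (.n (nat_lit 237)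 (nat_lit 4) (.p (nat_lit 241) (nat_lit 1) (.p (nat_lit 242) (nat_lit 1) (.n (nat_lit 243) (nat_lit 1) (.n (nat_lit 245) (nat_lit 1) (.n (nat_lit 250) (nat_lit 2) (.p (nat_lit 251) (nat_lit 2) (.n (nat_lit 253) (nat_lit 1) .z)))))))))))))))))))))))))))))))))))))))))))))))))) .nil)))))))))))))))))))))))))

noncomputable def dC2d_i361 : IL := (.s true (nat_lit 1) (nat_lit 19) (nat_lit 2) (nat_lit 11) (nat_lit 2) true (nat_lit 9) true (nat_lit 14) true (nat_lit 4) true (nat_lit 14) true (nat_lit 7) (.s true (nat_lit 2) (nat_lit 20) (nat_lit 1) (nat_lit 2) (nat_lit 11) true (nat_lit 2) true (nat_lit 7) true (nat_lit 3) true (nat_lit 15) true (nat_lit 14) (.s true (nat_lit 3) (nat_lit 20) (nat_lit 1) (nat_lit 7) (nat_lit 3) true (nat_lit 8) true (nat_lit 13) true (nat_lit 3) true (nat_lit 15) true (nat_lit 9) (.s true (nat_lit 3) (nat_lit 20) (nat_lit 3) (nat_lit 1) (nat_lit 7) true (nat_lit 1) true (nat_lit 9) true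 (nat_lit 3) true (nat_lit 13) true (nat_lit 15) (.s false (nat_lit 3) (nat_lit 20) (nat_lit 11) (nat_lit 2) (nat_lit 1) true (nat_lit 2) true (nat_lit 15) true (nat_lit 3) true (nat_lit 7) true (nat_lit 14) (.s true (nat_lit 3) (nat_lit 24) (nat_lit 2) (nat_lit 2) (nat_lit 7) true (nat_lit 3) true (nat_lit 9) true (nat_lit 2) true (nat_lit 14) true (nat_lit 14) (.s true (nat_lit 3) (nat_lit 33) (nat_lit 1) (nat_lit 7) (nat_lit 2) true (nat_lit 10) true (nat_lit 14) true (nat_lit 1) true (nat_lit 15) true (nat_lit 9) (.s true (nat_lit 2) (nat_lit 33) (nat_lit 2) (nat_lit 1) (nat_lit 7) true (nat_lit 3) true (nat_lit 9) true (nat_lit 1) true (nat_lit 14) true (nat_lit 15) (.s true (nat_lit 2) (nat_lit 33) (nat_lit 2) (nat_lit 2) (nat_lit 6) true (nat_lit 4) true (nat_lit 10) true (nat_lit 1) true (nat_lit 14) true (nat_lit 14) (.s false (nat_lit 3) (nat_lit 47) (nat_lit 2) (nat_lit 2) (nat_lit 3) true (nat_lit 7)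 true (nat_lit 13) false (nat_lit 1) true (nat_lit 14) true (nat_lit 14) (.s false (nat_lit 3) (nat_lit 46) (nat_lit 2) (nat_lit 3) (nat_lit 2) true (nat_lit 9) true (nat_lit 14) false (nat_lit 1) true (nat_lit 14) true (nat_lit 13) (.s true (nat_lit 2) (nat_lit 73) (nat_lit 2) (nat_lit 2) (nat_lit 2) true (nat_lit 9) true (nat_lit 14) false (nat_lit 3) true (nat_lit 14) true (nat_lit 14) (.s false (nat_lit 1) (nat_lit 80) (nat_lit 1) (nat_lit 2) (nat_lit 2) true (nat_lit 10) true (nat_lit 14) false (nat_lit 4) true (nat_lit 15) true (nat_lit 14) (.s false (nat_lit 1) (nat_lit 80) (nat_lit 2) (nat_lit 1) (nat_lit 2) true (nat_lit 9) true (nat_lit 14) false (nat_lit 4) true (nat_lit 14) true (nat_lit 15) (.s false (nat_lit 1) (nat_lit 80) (nat_lit 2) (nat_lit 2) (nat_lit 1) true (nat_lit 10) true (nat_lit 15) false (nat_lit 4) true (nat_lit 14) true (nat_lit 14) (.e false (nat_lit 2) (nat_lit 254) (nat_lit 2) (nat_lit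 14) (.e true (nat_lit 3) (nat_lit 265) (nat_lit 2) (nat_lit 14) (.e true (nat_lit 1) (nat_lit 269) (nat_lit 2) (nat_lit 14) (.e true (nat_lit 2) (nat_lit 272) (nat_lit 2) (nat_lit 14) (.e true (nat_lit 1) (nat_lit 274) (nat_lit 2) (nat_lit 14) (.e false (nat_lit 1) (nat_lit 285) (nat_lit 2) (nat_lit 14) (.e true (nat_lit 3) (nat_lit 264) (nat_lit 2) (nat_lit 14) (.e false (nat_lit 2) (nat_lit 134) (nat_lit 7) (nat_lit 9) (.e true (nat_lit 2) (nat_lit 138) (nat_lit 7) (nat_lit 9) (.e true (nat_lit 2) (nat_lit 154) (nat_lit 7) (nat_lit 9) dC2d_i360)))))))))))))))))))))))))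

noncomputable def dC2d_i362 : IL := (.e false (nat_lit 1) (nat_lit 266) (nat_lit 2) (nat_lit 14) (.e false (nat_lit 3) (nat_lit 267) (nat_lit 2) (nat_lit 14) (.e true (nat_lit 1) (nat_lit 269) (nat_lit 2) (nat_lit 14) (.e false (nat_lit 2) (nat_lit 270) (nat_lit 2) (nat_lit 14) (.e false (nat_lit 2) (nat_lit 272) (nat_lit 2) (nat_lit 14) (.e false (nat_lit 2) (nat_lit 273) (nat_lit 2) (nat_lit 14) (.e false (nat_lit 2) (nat_lit 274) (nat_lit 2) (nat_lit 14) (.e false (nat_lit 3) (nat_lit 277) (nat_lit 2) (nat_lit 14) (.e false (nat_lit 1) (nat_lit 280) (nat_lit 2) (nat_lit 14) (.e false (nat_lit 3) (nat_lit 283) (nat_lit 2) (nat_lit 14) (.e true (nat_lit 1) (nat_lit 284) (nat_lit 2) (nat_lit 14) (.e true (nat_lit 3) (nat_lit 285) (nat_lit 2) (nat_lit 14) (.e true (nat_lit 1) (nat_lit 85) (nat_lit 18) (nat_lit 4) (.e true (nat_lit 1) (nat_lit 324) (nat_lit 0) (nat_lit 16) (.e false (nat_lit 2) (nat_lit 325) (nat_lit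 0) (nat_lit 16) (.e false (nat_lit 3) (nat_lit 326) (nat_lit 0) (nat_lit 16) (.e false (nat_lit 3) (nat_lit 327) (nat_lit 0) (nat_lit 16) (.e false (nat_lit 3) (nat_lit 329) (nat_lit 0) (nat_lit 16) (.e false (nat_lit 2) (nat_lit 330) (nat_lit 0) (nat_lit 16) (.e true (nat_lit 2) (nat_lit 331) (nat_lit 0) (nat_lit 16) (.e true (nat_lit 1) (nat_lit 332) (nat_lit 0) (nat_lit 16) (.e false (nat_lit 1) (nat_lit 333) (nat_lit 0) (nat_lit 16) (.e false (nat_lit 1) (nat_lit 334) (nat_lit 0) (nat_lit 16) (.e false (nat_lit 1) (nat_lit 87) (nat_lit 18) (nat_lit 4) (.u (nat_lit 2) (.n (nat_lit 0) (nat_lit 2) (.n (nat_lit 2) (nat_lit 1) (.p (nat_lit 3) (nat_lit 1) (.n (nat_lit 4) (nat_lit 2) (.p (nat_lit 5) (nat_lit 6) (.n (nat_lit 6) (nat_lit 2) (.n (nat_lit 7) (nat_lit 1) (.n (nat_lit 9) (nat_lit 1) (.n (nat_lit 10) (nat_lit 1) (.p (nat_lit 11) (nat_lit 1) (.p (nat_lit 12) (nat_lit 1) (.p (nat_lit 13) (nat_lit 6) (.p (nat_lit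 15) (nat_lit 2) (.p (nat_lit 16) (nat_lit 1) (.p (nat_lit 17) (nat_lit 1) (.n (nat_lit 18) (nat_lit 2) (.n (nat_lit 19) (nat_lit 3) (.p (nat_lit 20) (nat_lit 1) (.n (nat_lit 22) (nat_lit 1) (.n (nat_lit 23) (nat_lit 2) (.p (nat_lit 24) (nat_lit 4) (.p (nat_lit 25) (nat_lit 1) (.p (nat_lit 26) (nat_lit 1) (.n (nat_lit 27) (nat_lit 3) (.n (nat_lit 28) (nat_lit 1) (.p (nat_lit 29) (nat_lit 4) (.n (nat_lit 30) (nat_lit 2) (.p (nat_lit 31) (nat_lit 2) (.n (nat_lit 32) (nat_lit 1) (.p (nat_lit 33) (nat_lit 3) (.p (nat_lit 34) (nat_lit 1) (.n (nat_lit 37) (nat_lit 1) .z)))))))))))))))))))))))))))))))) .nil)))))))))))))))))))))))))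

noncomputable def dC2d_i363 : IL := (.e false (nat_lit 3) (nat_lit 256) (nat_lit 2) (nat_lit 14) (.e true (nat_lit 3) (nat_lit 84) (nat_lit 18) (nat_lit 4) (.e true (nat_lit 3) (nat_lit 91) (nat_lit 17) (nat_lit 5) (.e true (nat_lit 1) (nat_lit 92) (nat_lit 17) (nat_lit 5) (.e false (nat_lit 3) (nat_lit 93) (nat_lit 17) (nat_lit 5) (.e true (nat_lit 3) (nat_lit 94) (nat_lit 17) (nat_lit 5) (.e true (nat_lit 3) (nat_lit 95) (nat_lit 17) (nat_lit 5) (.e false (nat_lit 3) (nat_lit 96) (nat_lit 17) (nat_lit 5) (.e true (nat_lit 1) (nat_lit 305) (nat_lit 1) (nat_lit 15) (.e false (nat_lit 1) (nat_lit 306) (nat_lit 1) (nat_lit 15) (.e true (nat_lit 3) (nat_lit 307) (nat_lit 1) (nat_lit 15) (.e false (nat_lit 3) (nat_lit 308) (nat_lit 1) (nat_lit 15) (.e false (nat_lit 1) (nat_lit 309) (nat_lit 1) (nat_lit 15) (.e false (nat_lit 2) (nat_lit 310) (nat_lit 1) (nat_lit 15) (.e false (nat_lit 3) (nat_lit 311) (nat_lit 1)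 (nat_lit 15) (.e true (nat_lit 3) (nat_lit 312) (nat_lit 1) (nat_lit 15) (.e false (nat_lit 2) (nat_lit 313) (nat_lit 1) (nat_lit 15) (.e false (nat_lit 3) (nat_lit 314) (nat_lit 1) (nat_lit 15) (.e false (nat_lit 1) (nat_lit 316) (nat_lit 1) (nat_lit 15) (.e true (nat_lit 1) (nat_lit 317) (nat_lit 1) (nat_lit 15) (.e true (nat_lit 3) (nat_lit 320) (nat_lit 1) (nat_lit 15) (.e true (nat_lit 3) (nat_lit 321) (nat_lit 1) (nat_lit 15) (.e true (nat_lit 3) (nat_lit 323) (nat_lit 1) (nat_lit 15) (.u (nat_lit 2) (.n (nat_lit 0) (nat_lit 3) (.p (nat_lit 1) (nat_lit 3) (.p (nat_lit 2) (nat_lit 1) (.n (nat_lit 3) (nat_lit 2) (.n (nat_lit 4) (nat_lit 3) (.p (nat_lit 5) (nat_lit 5) (.p (nat_lit 7) (nat_lit 7) (.p (nat_lit 9) (nat_lit 2) (.n (nat_lit 10) (nat_lit 2) (.n (nat_lit 12) (nat_lit 1) (.p (nat_lit 13) (nat_lit 2) (.n (nat_lit 15) (nat_lit 3) (.n (nat_lit 16) (nat_lit 4) (.n (nat_lit 17) (nat_lit 1) (.p (nat_lit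 18) (nat_lit 3) (.p (nat_lit 19) (nat_lit 1) (.n (nat_lit 23) (nat_lit 2) (.n (nat_lit 25) (nat_lit 2) (.n (nat_lit 26) (nat_lit 2) (.n (nat_lit 27) (nat_lit 2) (.p (nat_lit 29) (nat_lit 4) (.n (nat_lit 30) (nat_lit 2) (.p (nat_lit 31) (nat_lit 2) (.n (nat_lit 32) (nat_lit 3) (.p (nat_lit 33) (nat_lit 6) (.n (nat_lit 34) (nat_lit 5) (.n (nat_lit 35) (nat_lit 4) (.p (nat_lit 38) (nat_lit 1) (.p (nat_lit 115) (nat_lit 1) (.p (nat_lit 205) (nat_lit 9) (.n (nat_lit 206) (nat_lit 12) (.n (nat_lit 207) (nat_lit 1) (.n (nat_lit 209) (nat_lit 2) (.p (nat_lit 210) (nat_lit 3) (.p (nat_lit 211) (nat_lit 6) (.n (nat_lit 212) (nat_lit 6) (.n (nat_lit 213) (nat_lit 7) (.n (nat_lit 214) (nat_lit 5) (.n (nat_lit 215) (nat_lit 4) (.n (nat_lit 216) (nat_lit 3) (.n (nat_lit 217) (nat_lit 2) (.p (nat_lit 218) (nat_lit 3) (.n (nat_lit 221) (nat_lit 3) (.p (nat_lit 222) (nat_lit 3) (.p (nat_lit 223) (nat_lit 6) (.p (nat_lit 224) (nat_lit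 8) (.p (nat_lit 225) (nat_lit 3) (.p (nat_lit 226) (nat_lit 2) (.n (nat_lit 227) (nat_lit 5) (.n (nat_lit 228) (nat_lit 6) (.n (nat_lit 229) (nat_lit 3) (.p (nat_lit 232) (nat_lit 1) (.n (nat_lit 234) (nat_lit 1) (.n (nat_lit 235) (nat_lit 2) (.p (nat_lit 237) (nat_lit 2) (.p (nat_lit 241) (nat_lit 1) (.n (nat_lit 242) (nat_lit 1) (.n (nat_lit 245) (nat_lit 1) (.p (nat_lit 246) (nat_lit 1) (.p (nat_lit 249) (nat_lit 1) .z)))))))))))))))))))))))))))))))))))))))))))))))))))))))))))) (.u (nat_lit 2) (.n (nat_lit 252) (nat_lit 1) (.p (nat_lit 253) (nat_lit 1) .z)) .nil)))))))))))))))))))))))))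

noncomputable def dC2d_i364 : IL := (.e true (nat_lit 1) (nat_lit 258) (nat_lit 2) (nat_lit 14) (.e false (nat_lit 1) (nat_lit 259) (nat_lit 2) (nat_lit 14) (.e true (nat_lit 1) (nat_lit 261) (nat_lit 2) (nat_lit 14) (.e true (nat_lit 1) (nat_lit 263) (nat_lit 2) (nat_lit 14) (.e false (nat_lit 2) (nat_lit 271) (nat_lit 2) (nat_lit 14) (.e false (nat_lit 2) (nat_lit 273) (nat_lit 2) (nat_lit 14) (.e true (nat_lit 3) (nat_lit 283) (nat_lit 2) (nat_lit 14) (.e false (nat_lit 2) (nat_lit 284) (nat_lit 2) (nat_lit 14) (.e false (nat_lit 1) (nat_lit 72) (nat_lit 20) (nat_lit 3) (.e false (nat_lit 3) (nat_lit 305) (nat_lit 1) (nat_lit 15) (.e true (nat_lit 2) (nat_lit 308) (nat_lit 1) (nat_lit 15) (.e false (nat_lit 1) (nat_lit 309) (nat_lit 1) (nat_lit 15) (.e false (nat_lit 2) (nat_lit 310) (nat_lit 1) (nat_lit 15) (.e true (nat_lit 2) (nat_lit 311) (nat_lit 1) (nat_lit 15) (.e true (nat_lit 2) (nat_lit 312) (nat_lit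 1) (nat_lit 15) (.e false (nat_lit 1) (nat_lit 313) (nat_lit 1) (nat_lit 15) (.e false (nat_lit 3) (nat_lit 324) (nat_lit 0) (nat_lit 16) (.e false (nat_lit 2) (nat_lit 326) (nat_lit 0) (nat_lit 16) (.e false (nat_lit 3) (nat_lit 331) (nat_lit 0) (nat_lit 16) (.e false (nat_lit 1) (nat_lit 315) (nat_lit 1) (nat_lit 15) (.e true (nat_lit 1) (nat_lit 330) (nat_lit 0) (nat_lit 16) (.e false (nat_lit 1) (nat_lit 319) (nat_lit 1) (nat_lit 15) (.u (nat_lit 2) (.p (nat_lit 0) (nat_lit 1) (.n (nat_lit 2) (nat_lit 3) (.p (nat_lit 3) (nat_lit 2) (.n (nat_lit 5) (nat_lit 1) (.p (nat_lit 6) (nat_lit 2) (.p (nat_lit 7) (nat_lit 1) (.n (nat_lit 8) (nat_lit 1) (.n (nat_lit 10) (nat_lit 3) (.p (nat_lit 12) (nat_lit 2) (.p (nat_lit 13) (nat_lit 3) (.p (nat_lit 14) (nat_lit 1) (.n (nat_lit 15) (nat_lit 1) (.n (nat_lit 16) (nat_lit 1) (.p (nat_lit 17) (nat_lit 1) (.n (nat_lit 19) (nat_lit 1) (.p (nat_lit 21) (nat_lit 1) (.p (nat_lit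 23) (nat_lit 4) (.p (nat_lit 24) (nat_lit 1) (.n (nat_lit 25) (nat_lit 1) (.p (nat_lit 27) (nat_lit 1) (.p (nat_lit 28) (nat_lit 1) (.p (nat_lit 34) (nat_lit 2) (.p (nat_lit 35) (nat_lit 2) (.n (nat_lit 38) (nat_lit 2) (.n (nat_lit 40) (nat_lit 1) (.p (nat_lit 43) (nat_lit 1) (.p (nat_lit 44) (nat_lit 1) (.n (nat_lit 46) (nat_lit 1) (.n (nat_lit 47) (nat_lit 1) (.n (nat_lit 50) (nat_lit 1) (.p (nat_lit 66) (nat_lit 1) (.p (nat_lit 70) (nat_lit 1) (.n (nat_lit 72) (nat_lit 1) (.n (nat_lit 73) (nat_lit 1) (.p (nat_lit 75) (nat_lit 2) (.n (nat_lit 77) (nat_lit 1) (.n (nat_lit 78) (nat_lit 1) (.n (nat_lit 81) (nat_lit 1) (.p (nat_lit 84) (nat_lit 1) (.p (nat_lit 86) (nat_lit 1) (.n (nat_lit 87) (nat_lit 3) (.p (nat_lit 88) (nat_lit 1) (.p (nat_lit 89) (nat_lit 1) (.n (nat_lit 91) (nat_lit 1) (.n (nat_lit 94) (nat_lit 2) (.p (nat_lit 99) (nat_lit 1) (.p (nat_lit 100) (nat_lit 1) (.p (nat_lit 102) (nat_lit 1) (.n (nat_lit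 105) (nat_lit 1) (.n (nat_lit 109) (nat_lit 1) (.p (nat_lit 110) (nat_lit 1) (.n (nat_lit 115) (nat_lit 1) (.p (nat_lit 117) (nat_lit 1) (.p (nat_lit 123) (nat_lit 1) (.p (nat_lit 125) (nat_lit 1) (.n (nat_lit 127) (nat_lit 1) (.p (nat_lit 129) (nat_lit 1) (.p (nat_lit 134) (nat_lit 1) (.p (nat_lit 135) (nat_lit 1) (.p (nat_lit 142) (nat_lit 1) .z)))))))))))))))))))))))))))))))))))))))))))))))))))))))))))) (.u (nat_lit 2) (.n (nat_lit 143) (nat_lit 1) (.p (nat_lit 144) (nat_lit 4) (.n (nat_lit 145) (nat_lit 1) (.n (nat_lit 146) (nat_lit 2) (.n (nat_lit 148) (nat_lit 3) (.p (nat_lit 149) (nat_lit 3) (.n (nat_lit 150) (nat_lit 4) (.n (nat_lit 151) (nat_lit 1) (.p (nat_lit 152) (nat_lit 1) (.p (nat_lit 153) (nat_lit 1) (.n (nat_lit 154) (nat_lit 5) (.p (nat_lit 155) (nat_lit 2) (.p (nat_lit 156) (nat_lit 1) (.n (nat_lit 157) (nat_lit 2) (.p (nat_lit 159) (nat_lit 2) (.n (nat_lit 160) (nat_lit 4) (.n (nat_lit 161)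 (nat_lit 3) (.n (nat_lit 162) (nat_lit 2) (.n (nat_lit 163) (nat_lit 2) (.n (nat_lit 164) (nat_lit 6) (.p (nat_lit 165) (nat_lit 3) (.p (nat_lit 166) (nat_lit 3) (.p (nat_lit 167) (nat_lit 3) (.p (nat_lit 168) (nat_lit 1) (.n (nat_lit 169) (nat_lit 1) (.p (nat_lit 172) (nat_lit 2) (.p (nat_lit 174) (nat_lit 2) (.p (nat_lit 175) (nat_lit 2) (.p (nat_lit 176) (nat_lit 2) (.n (nat_lit 180) (nat_lit 1) (.p (nat_lit 181) (nat_lit 1) (.n (nat_lit 183) (nat_lit 1) (.n (nat_lit 185) (nat_lit 1) (.p (nat_lit 186) (nat_lit 2) (.n (nat_lit 187) (nat_lit 1) (.p (nat_lit 192) (nat_lit 1) (.n (nat_lit 200) (nat_lit 2) (.p (nat_lit 201) (nat_lit 3) (.n (nat_lit 202) (nat_lit 1) (.p (nat_lit 203) (nat_lit 1) (.p (nat_lit 204) (nat_lit 8) (.n (nat_lit 205) (nat_lit 7) (.p (nat_lit 206) (nat_lit 10) (.n (nat_lit 207) (nat_lit 5) (.p (nat_lit 208) (nat_lit 3) (.p (nat_lit 209) (nat_lit 9) (.n (nat_lit 210) (nat_lit 15) (.n (nat_lit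 211) (nat_lit 2) (.p (nat_lit 212) (nat_lit 2) (.p (nat_lit 213) (nat_lit 19) (.p (nat_lit 214) (nat_lit 7) (.p (nat_lit 215) (nat_lit 5) (.n (nat_lit 216) (nat_lit 13) (.n (nat_lit 217) (nat_lit 6) (.p (nat_lit 218) (nat_lit 8) (.n (nat_lit 219) (nat_lit 1) (.n (nat_lit 220) (nat_lit 3) (.n (nat_lit 221) (nat_lit 12) (.p (nat_lit 222) (nat_lit 2) (.n (nat_lit 223) (nat_lit 9) .z)))))))))))))))))))))))))))))))))))))))))))))))))))))))))))) (.u (nat_lit 2) (.n (nat_lit 224) (nat_lit 19) (.n (nat_lit 225) (nat_lit 5) (.n (nat_lit 226) (nat_lit 19) (.n (nat_lit 227) (nat_lit 13) (.p (nat_lit 228) (nat_lit 10) (.n (nat_lit 229) (nat_lit 5) (.p (nat_lit 230) (nat_lit 5) (.n (nat_lit 231) (nat_lit 1) (.n (nat_lit 232) (nat_lit 1) (.p (nat_lit 233) (nat_lit 2) (.p (nat_lit 234) (nat_lit 4) (.p (nat_lit 235) (nat_lit 13) (.n (nat_lit 236) (nat_lit 2) (.n (nat_lit 237) (nat_lit 13) (.p (nat_lit 238) (nat_lit 4) (.p (nat_lit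 239) (nat_lit 2) (.p (nat_lit 240) (nat_lit 1) (.n (nat_lit 241) (nat_lit 6) (.n (nat_lit 242) (nat_lit 6) (.n (nat_lit 243) (nat_lit 1) (.p (nat_lit 244) (nat_lit 2) (.p (nat_lit 245) (nat_lit 5) (.n (nat_lit 246) (nat_lit 8) (.p (nat_lit 247) (nat_lit 4) (.p (nat_lit 248) (nat_lit 4) (.n (nat_lit 249) (nat_lit 4) (.p (nat_lit 250) (nat_lit 1) (.n (nat_lit 251) (nat_lit 4) (.p (nat_lit 252) (nat_lit 2) (.n (nat_lit 253) (nat_lit 2) (.p (nat_lit 254) (nat_lit 3) (.n (nat_lit 255) (nat_lit 1) (.p (nat_lit 256) (nat_lit 1) (.p (nat_lit 258) (nat_lit 2) (.p (nat_lit 259) (nat_lit 1) (.n (nat_lit 261) (nat_lit 1) (.n (nat_lit 262) (nat_lit 4) (.p (nat_lit 263) (nat_lit 3) (.n (nat_lit 264) (nat_lit 3) (.n (nat_lit 265) (nat_lit 3) (.n (nat_lit 266) (nat_lit 3) .z))))))))))))))))))))))))))))))))))))))))) .nil)))))))))))))))))))))))))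

noncomputable def dC2d_i365 : IL := (.s false (nat_lit 3) (nat_lit 91) (nat_lit 2) (nat_lit 2) (nat_lit 0) true (nat_lit 11) true (nat_lit 16) false (nat_lit 5) true (nat_lit 14) true (nat_lit 14) (.s true (nat_lit 2) (nat_lit 92) (nat_lit 2) (nat_lit 2) (nat_lit 0) true (nat_lit 11) true (nat_lit 16) false (nat_lit 5) true (nat_lit 14) true (nat_lit 14) (.s true (nat_lit 2) (nat_lit 93) (nat_lit 2) (nat_lit 2) (nat_lit 0) true (nat_lit 11) true (nat_lit 16) false (nat_lit 5) true (nat_lit 14) true (nat_lit 14) (.s true (nat_lit 3) (nat_lit 94) (nat_lit 2) (nat_lit 2) (nat_lit 0) true (nat_lit 11) true (nat_lit 16) false (nat_lit 5) true (nat_lit 14) true (nat_lit 14) (.s false (nat_lit 3) (nat_lit 95) (nat_lit 2) (nat_lit 2) (nat_lit 0) true (nat_lit 11) true (nat_lit 16) false (nat_lit 5) true (nat_lit 14) true (nat_lit 14) (.s true (nat_lit 2) (nat_lit 96) (nat_lit 2) (nat_lit 2) (nat_lit 0) true (nat_lit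 11) true (nat_lit 16) false (nat_lit 5) true (nat_lit 14) true (nat_lit 14) (.s false (nat_lit 3) (nat_lit 103) (nat_lit 0) (nat_lit 1) (nat_lit 2) true (nat_lit 11) true (nat_lit 14) false (nat_lit 7) true (nat_lit 16) true (nat_lit 15) (.s false (nat_lit 1) (nat_lit 102) (nat_lit 0) (nat_lit 2) (nat_lit 1) true (nat_lit 13) true (nat_lit 15) false (nat_lit 7) true (nat_lit 16) true (nat_lit 14) (.s false (nat_lit 1) (nat_lit 103) (nat_lit 0) (nat_lit 2) (nat_lit 1) true (nat_lit 13) true (nat_lit 15) false (nat_lit 7) true (nat_lit 16) true (nat_lit 14) (.s false (nat_lit 2) (nat_lit 104) (nat_lit 0) (nat_lit 2) (nat_lit 1) true (nat_lit 13) true (nat_lit 15) false (nat_lit 7) true (nat_lit 16) true (nat_lit 14) (.s true (nat_lit 1) (nat_lit 103) (nat_lit 1) (nat_lit 2) (nat_lit 0) true (nat_lit 13) true (nat_lit 16) false (nat_lit 7) true (nat_lit 15) true (nat_lit 14) (.s false (nat_lit 1) (nat_lit 103) (nat_lit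 2) (nat_lit 1) (nat_lit 0) true (nat_lit 11) true (nat_lit 16) false (nat_lit 7) true (nat_lit 14) true (nat_lit 15) (.s false (nat_lit 1) (nat_lit 105) (nat_lit 0) (nat_lit 1) (nat_lit 1) true (nat_lit 13) true (nat_lit 15) false (nat_lit 8) true (nat_lit 16) true (nat_lit 15) (.e false (nat_lit 2) (nat_lit 152) (nat_lit 7) (nat_lit 9) (.e false (nat_lit 3) (nat_lit 154) (nat_lit 7) (nat_lit 9) (.e false (nat_lit 1) (nat_lit 144) (nat_lit 7) (nat_lit 9) (.e false (nat_lit 3) (nat_lit 140) (nat_lit 7) (nat_lit 9) (.e true (nat_lit 2) (nat_lit 153) (nat_lit 7) (nat_lit 9) (.e true (nat_lit 3) (nat_lit 254) (nat_lit 2) (nat_lit 14) (.e false (nat_lit 3) (nat_lit 265) (nat_lit 2) (nat_lit 14) (.e false (nat_lit 2) (nat_lit 272) (nat_lit 2) (nat_lit 14) (.e false (nat_lit 1) (nat_lit 285) (nat_lit 2) (nat_lit 14) (.e false (nat_lit 3) (nat_lit 264) (nat_lit 2) (nat_lit 14) (.e true (nat_lit 3) (nat_lit 255) (nat_lit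 2) (nat_lit 14) (.e false (nat_lit 2) (nat_lit 257) (nat_lit 2) (nat_lit 14) dC2d_i364)))))))))))))))))))))))))

noncomputable def dC2d_i366 : IL := (.s true (nat_lit 1) (nat_lit 68) (nat_lit 2) (nat_lit 2) (nat_lit 2) true (nat_lit 9) true (nat_lit 14) false (nat_lit 3) true (nat_lit 14) true (nat_lit 14) (.s false (nat_lit 2) (nat_lit 69) (nat_lit 2) (nat_lit 2) (nat_lit 2) true (nat_lit 9) true (nat_lit 14) false (nat_lit 3) true (nat_lit 14) true (nat_lit 14) (.s false (nat_lit 3) (nat_lit 70) (nat_lit 2) (nat_lit 2) (nat_lit 2) true (nat_lit 9) true (nat_lit 14) false (nat_lit 3) true (nat_lit 14) true (nat_lit 14) (.s false (nat_lit 1) (nat_lit 73) (nat_lit 2) (nat_lit 2) (nat_lit 2) true (nat_lit 9) true (nat_lit 14) false (nat_lit 3) true (nat_lit 14) true (nat_lit 14) (.s false (nat_lit 3) (nat_lit 80) (nat_lit 1) (nat_lit 2) (nat_lit 2) true (nat_lit 10) true (nat_lit 14) false (nat_lit 4) true (nat_lit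 15) true (nat_lit 14) (.s false (nat_lit 1) (nat_lit 81) (nat_lit 1) (nat_lit 2) (nat_lit 2) true (nat_lit 10) true (nat_lit 14) false (nat_lit 4) true (nat_lit 15) true (nat_lit 14) (.s false (nat_lit 2) (nat_lit 82) (nat_lit 1) (nat_lit 2) (nat_lit 2) true (nat_lit 10) true (nat_lit 14) false (nat_lit 4) true (nat_lit 15) true (nat_lit 14) (.s true (nat_lit 2) (nat_lit 83) (nat_lit 1) (nat_lit 2) (nat_lit 2) true (nat_lit 10) true (nat_lit 14) false (nat_lit 4) true (nat_lit 15) true (nat_lit 14) (.s true (nat_lit 2) (nat_lit 84) (nat_lit 1) (nat_lit 2) (nat_lit 2) true (nat_lit 10) true (nat_lit 14) false (nat_lit 4) true (nat_lit 15) true (nat_lit 14) (.s true (nat_lit 2) (nat_lit 86) (nat_lit 1) (nat_lit 2) (nat_lit 2) true (nat_lit 10) true (nat_lit 14) false (nat_lit 4) true (nat_lit 15) true (nat_lit 14) (.s true (nat_lit 2) (nat_lit 87) (nat_lit 1) (nat_lit 2) (nat_lit 2) true (nat_lit 10) true (nat_lit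 14) false (nat_lit 4) true (nat_lit 15) true (nat_lit 14) (.s false (nat_lit 3) (nat_lit 88) (nat_lit 1) (nat_lit 2) (nat_lit 2) true (nat_lit 10) true (nat_lit 14) false (nat_lit 4) true (nat_lit 15) true (nat_lit 14) (.s false (nat_lit 3) (nat_lit 89) (nat_lit 1) (nat_lit 2) (nat_lit 2) true (nat_lit 10) true (nat_lit 14) false (nat_lit 4) true (nat_lit 15) true (nat_lit 14) (.s true (nat_lit 2) (nat_lit 90) (nat_lit 1) (nat_lit 2) (nat_lit 2) true (nat_lit 10) true (nat_lit 14) false (nat_lit 4) true (nat_lit 15) true (nat_lit 14) (.s false (nat_lit 2) (nat_lit 89) (nat_lit 2) (nat_lit 1) (nat_lit 2) true (nat_lit 9) true (nat_lit 14) false (nat_lit 4) true (nat_lit 14) true (nat_lit 15) (.s false (nat_lit 2) (nat_lit 80) (nat_lit 2) (nat_lit 2) (nat_lit 1) true (nat_lit 10) true (nat_lit 15) false (nat_lit 4) true (nat_lit 14) true (nat_lit 14) (.s true (nat_lit 2) (nat_lit 81) (nat_lit 2) (nat_lit 2) (nat_lit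 1) true (nat_lit 10) true (nat_lit 15) false (nat_lit 4) true (nat_lit 14) true (nat_lit 14) (.s true (nat_lit 1) (nat_lit 82) (nat_lit 2) (nat_lit 2) (nat_lit 1) true (nat_lit 10) true (nat_lit 15) false (nat_lit 4) true (nat_lit 14) true (nat_lit 14) (.s true (nat_lit 3) (nat_lit 85) (nat_lit 2) (nat_lit 2) (nat_lit 1) true (nat_lit 10) true (nat_lit 15) false (nat_lit 4) true (nat_lit 14) true (nat_lit 14) (.s true (nat_lit 1) (nat_lit 91) (nat_lit 0) (nat_lit 2) (nat_lit 2) true (nat_lit 11) true (nat_lit 14) false (nat_lit 5) true (nat_lit 16) true (nat_lit 14) (.s true (nat_lit 3) (nat_lit 92) (nat_lit 0) (nat_lit 2) (nat_lit 2) true (nat_lit 11) true (nat_lit 14) false (nat_lit 5) true (nat_lit 16) true (nat_lit 14) (.s false (nat_lit 2) (nat_lit 94) (nat_lit 0) (nat_lit 2) (nat_lit 2) true (nat_lit 11) true (nat_lit 14) false (nat_lit 5) true (nat_lit 16) true (nat_lit 14) (.s false (nat_lit 1) (nat_lit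 96) (nat_lit 0) (nat_lit 2) (nat_lit 2) true (nat_lit 11) true (nat_lit 14) false (nat_lit 5) true (nat_lit 16) true (nat_lit 14) (.s false (nat_lit 1) (nat_lit 92) (nat_lit 2) (nat_lit 0) (nat_lit 2) true (nat_lit 9) true (nat_lit 14) false (nat_lit 5) true (nat_lit 14) true (nat_lit 16) (.s true (nat_lit 1) (nat_lit 96) (nat_lit 2) (nat_lit 0) (nat_lit 2) true (nat_lit 9) true (nat_lit 14) false (nat_lit 5) true (nat_lit 14) true (nat_lit 16) dC2d_i365)))))))))))))))))))))))))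

noncomputable def dC2d_i367 : IL := (.s false (nat_lit 1) (nat_lit 39) (nat_lit 0) (nat_lit 2) (nat_lit 7) true (nat_lit 5) true (nat_lit 9) true (nat_lit 0) true (nat_lit 16) true (nat_lit 14) (.s true (nat_lit 1) (nat_lit 40) (nat_lit 0) (nat_lit 2) (nat_lit 7) true (nat_lit 5) true (nat_lit 9) true (nat_lit 0) true (nat_lit 16) true (nat_lit 14) (.s false (nat_lit 2) (nat_lit 41) (nat_lit 0) (nat_lit 2) (nat_lit 7) true (nat_lit 5) true (nat_lit 9) true (nat_lit 0) true (nat_lit 16) true (nat_lit 14) (.s false (nat_lit 1) (nat_lit 39) (nat_lit 2) (nat_lit 2) (nat_lit 5) true (nat_lit 5) true (nat_lit 11) true (nat_lit 0) true (nat_lit 14) true (nat_lit 14) (.s true (nat_lit 1) (nat_lit 40) (nat_lit 2) (nat_lit 2) (nat_lit 5) true (nat_lit 5) true (nat_lit 11) true (nat_lit 0) true (nat_lit 14) true (nat_lit 14) (.s false (nat_lit 1) (nat_lit 41) (nat_lit 2) (nat_lit 2) (nat_lit 5) true (nat_lit 5) true (nat_lit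 11) true (nat_lit 0) true (nat_lit 14) true (nat_lit 14) (.s true (nat_lit 2) (nat_lit 40) (nat_lit 2) (nat_lit 5) (nat_lit 2) true (nat_lit 9) true (nat_lit 14) true (nat_lit 0) true (nat_lit 14) true (nat_lit 11) (.s true (nat_lit 1) (nat_lit 39) (nat_lit 2) (nat_lit 7) (nat_lit 0) true (nat_lit 11) true (nat_lit 16) true (nat_lit 0) true (nat_lit 14) true (nat_lit 9) (.s false (nat_lit 1) (nat_lit 39) (nat_lit 5) (nat_lit 2) (nat_lit 2) true (nat_lit 5) true (nat_lit 14) true (nat_lit 0) true (nat_lit 11) true (nat_lit 14) (.s true (nat_lit 1) (nat_lit 40) (nat_lit 7) (nat_lit 2) (nat_lit 0) true (nat_lit 5) true (nat_lit 16) true (nat_lit 0) true (nat_lit 9) true (nat_lit 14) (.s true (nat_lit 1) (nat_lit 42) (nat_lit 1) (nat_lit 2) (nat_lit 6) true (nat_lit 6) true (nat_lit 10) false (nat_lit 0) true (nat_lit 15) true (nat_lit 14) (.s false (nat_lit 3) (nat_lit 44) (nat_lit 2) (nat_lit 1) (nat_lit 6) true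 (nat_lit 4) true (nat_lit 10) false (nat_lit 0) true (nat_lit 14) true (nat_lit 15) (.s false (nat_lit 3) (nat_lit 42) (nat_lit 2) (nat_lit 6) (nat_lit 1) true (nat_lit 10) true (nat_lit 15) false (nat_lit 0) true (nat_lit 14) true (nat_lit 10) (.s false (nat_lit 2) (nat_lit 44) (nat_lit 2) (nat_lit 6) (nat_lit 1) true (nat_lit 10) true (nat_lit 15) false (nat_lit 0) true (nat_lit 14) true (nat_lit 10) (.s false (nat_lit 2) (nat_lit 42) (nat_lit 6) (nat_lit 1) (nat_lit 2) true (nat_lit 4) true (nat_lit 14) false (nat_lit 0) true (nat_lit 10) true (nat_lit 15) (.s false (nat_lit 3) (nat_lit 42) (nat_lit 6) (nat_lit 2) (nat_lit 1) true (nat_lit 6) true (nat_lit 15) false (nat_lit 0) true (nat_lit 10) true (nat_lit 14) (.s false (nat_lit 2) (nat_lit 47) (nat_lit 2) (nat_lit 3) (nat_lit 2) true (nat_lit 9) true (nat_lit 14) false (nat_lit 1) true (nat_lit 14) true (nat_lit 13) (.s true (nat_lit 2) (nat_lit 45) (nat_lit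 3) (nat_lit 2) (nat_lit 2) true (nat_lit 7) true (nat_lit 14) false (nat_lit 1) true (nat_lit 13) true (nat_lit 14) (.s false (nat_lit 2) (nat_lit 47) (nat_lit 3) (nat_lit 2) (nat_lit 2) true (nat_lit 7) true (nat_lit 14) false (nat_lit 1) true (nat_lit 13) true (nat_lit 14) (.s false (nat_lit 1) (nat_lit 45) (nat_lit 6) (nat_lit 2) (nat_lit 0) true (nat_lit 7) true (nat_lit 16) false (nat_lit 1) true (nat_lit 10) true (nat_lit 14) (.s false (nat_lit 3) (nat_lit 48) (nat_lit 1) (nat_lit 1) (nat_lit 5) true (nat_lit 7) true (nat_lit 11) false (nat_lit 2) true (nat_lit 15) true (nat_lit 15) (.s true (nat_lit 1) (nat_lit 48) (nat_lit 3) (nat_lit 1) (nat_lit 2) true (nat_lit 7) true (nat_lit 14) false (nat_lit 2) true (nat_lit 13) true (nat_lit 15) (.s false (nat_lit 1) (nat_lit 48) (nat_lit 5) (nat_lit 1) (nat_lit 1) true (nat_lit 7) true (nat_lit 15) false (nat_lit 2) true (nat_lit 11) true (nat_lit 15) (.s true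 (nat_lit 3) (nat_lit 48) (nat_lit 6) (nat_lit 0) (nat_lit 1) true (nat_lit 6) true (nat_lit 15) false (nat_lit 2) true (nat_lit 10) true (nat_lit 16) (.s true (nat_lit 2) (nat_lit 66) (nat_lit 2) (nat_lit 2) (nat_lit 2) true (nat_lit 9) true (nat_lit 14) false (nat_lit 3) true (nat_lit 14) true (nat_lit 14) dC2d_i366)))))))))))))))))))))))))

noncomputable def dC2d_i368 : IL := (.s true (nat_lit 2) (nat_lit 25) (nat_lit 2) (nat_lit 2) (nat_lit 7) true (nat_lit 3) true (nat_lit 9) true (nat_lit 2) true (nat_lit 14) true (nat_lit 14) (.s true (nat_lit 1) (nat_lit 26) (nat_lit 2) (nat_lit 2) (nat_lit 7) true (nat_lit 3) true (nat_lit 9) true (nat_lit 2) true (nat_lit 14) true (nat_lit 14) (.s true (nat_lit 2) (nat_lit 27) (nat_lit 2) (nat_lit 2) (nat_lit 7) true (nat_lit 3) true (nat_lit 9) true (nat_lit 2) true (nat_lit 14) true (nat_lit 14) (.s true (nat_lit 2) (nat_lit 28) (nat_lit 2) (nat_lit 2) (nat_lit 7) true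 (nat_lit 3) true (nat_lit 9) true (nat_lit 2) true (nat_lit 14) true (nat_lit 14) (.s true (nat_lit 2) (nat_lit 29) (nat_lit 2) (nat_lit 2) (nat_lit 7) true (nat_lit 3) true (nat_lit 9) true (nat_lit 2) true (nat_lit 14) true (nat_lit 14) (.s true (nat_lit 3) (nat_lit 27) (nat_lit 2) (nat_lit 7) (nat_lit 2) true (nat_lit 9) true (nat_lit 14) true (nat_lit 2) true (nat_lit 14) true (nat_lit 9) (.s true (nat_lit 1) (nat_lit 29) (nat_lit 2) (nat_lit 7) (nat_lit 2) true (nat_lit 9) true (nat_lit 14) true (nat_lit 2) true (nat_lit 14) true (nat_lit 9) (.s true (nat_lit 2) (nat_lit 27) (nat_lit 7) (nat_lit 2) (nat_lit 2) true (nat_lit 3) true (nat_lit 14) true (nat_lit 2) true (nat_lit 9) true (nat_lit 14) (.s false (nat_lit 1) (nat_lit 28) (nat_lit 7) (nat_lit 2) (nat_lit 2) true (nat_lit 3) true (nat_lit 14) true (nat_lit 2) true (nat_lit 9) true (nat_lit 14) (.s true (nat_lit 2) (nat_lit 33) (nat_lit 1) (nat_lit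 2) (nat_lit 7) true (nat_lit 4) true (nat_lit 9) true (nat_lit 1) true (nat_lit 15) true (nat_lit 14) (.s true (nat_lit 3) (nat_lit 34) (nat_lit 1) (nat_lit 2) (nat_lit 7) true (nat_lit 4) true (nat_lit 9) true (nat_lit 1) true (nat_lit 15) true (nat_lit 14) (.s false (nat_lit 1) (nat_lit 35) (nat_lit 1) (nat_lit 2) (nat_lit 7) true (nat_lit 4) true (nat_lit 9) true (nat_lit 1) true (nat_lit 15) true (nat_lit 14) (.s false (nat_lit 3) (nat_lit 38) (nat_lit 1) (nat_lit 2) (nat_lit 7) true (nat_lit 4) true (nat_lit 9) true (nat_lit 1) true (nat_lit 15) true (nat_lit 14) (.s false (nat_lit 2) (nat_lit 33) (nat_lit 1) (nat_lit 7) (nat_lit 2) true (nat_lit 10) true (nat_lit 14) true (nat_lit 1) true (nat_lit 15) true (nat_lit 9) (.s false (nat_lit 1) (nat_lit 34) (nat_lit 2) (nat_lit 1) (nat_lit 7) true (nat_lit 3) true (nat_lit 9) true (nat_lit 1) true (nat_lit 14) true (nat_lit 15) (.s false (nat_lit 3) (nat_lit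 34) (nat_lit 2) (nat_lit 2) (nat_lit 6) true (nat_lit 4) true (nat_lit 10) true (nat_lit 1) true (nat_lit 14) true (nat_lit 14) (.s false (nat_lit 1) (nat_lit 35) (nat_lit 2) (nat_lit 2) (nat_lit 6) true (nat_lit 4) true (nat_lit 10) true (nat_lit 1) true (nat_lit 14) true (nat_lit 14) (.s false (nat_lit 3) (nat_lit 38) (nat_lit 2) (nat_lit 2) (nat_lit 6) true (nat_lit 4) true (nat_lit 10) true (nat_lit 1) true (nat_lit 14) true (nat_lit 14) (.s false (nat_lit 2) (nat_lit 33) (nat_lit 2) (nat_lit 6) (nat_lit 2) true (nat_lit 9) true (nat_lit 14) true (nat_lit 1) true (nat_lit 14) true (nat_lit 10) (.s true (nat_lit 3) (nat_lit 34) (nat_lit 2) (nat_lit 7) (nat_lit 1) true (nat_lit 10) true (nat_lit 15) true (nat_lit 1) true (nat_lit 14) true (nat_lit 9) (.s true (nat_lit 2) (nat_lit 38) (nat_lit 2) (nat_lit 7) (nat_lit 1) true (nat_lit 10) true (nat_lit 15) true (nat_lit 1) true (nat_lit 14) true (nat_lit 9) (.s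 false (nat_lit 3) (nat_lit 33) (nat_lit 6) (nat_lit 2) (nat_lit 2) true (nat_lit 4) true (nat_lit 14) true (nat_lit 1) true (nat_lit 10) true (nat_lit 14) (.s false (nat_lit 1) (nat_lit 34) (nat_lit 6) (nat_lit 2) (nat_lit 2) true (nat_lit 4) true (nat_lit 14) true (nat_lit 1) true (nat_lit 10) true (nat_lit 14) (.s false (nat_lit 1) (nat_lit 35) (nat_lit 6) (nat_lit 2) (nat_lit 2) true (nat_lit 4) true (nat_lit 14) true (nat_lit 1) true (nat_lit 10) true (nat_lit 14) (.s false (nat_lit 1) (nat_lit 38) (nat_lit 6) (nat_lit 2) (nat_lit 2) true (nat_lit 4) true (nat_lit 14) true (nat_lit 1) true (nat_lit 10) true (nat_lit 14) dC2d_i367)))))))))))))))))))))))))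

noncomputable def dC2d_i369 : IL := (.s false (nat_lit 1) (nat_lit 18) (nat_lit 2) (nat_lit 2) (nat_lit 13) true (nat_lit 1) true (nat_lit 7) true (nat_lit 4) true (nat_lit 14) true (nat_lit 14) (.s true (nat_lit 3) (nat_lit 18) (nat_lit 2) (nat_lit 3) (nat_lit 7) true (nat_lit 3) true (nat_lit 9) true (nat_lit 4) true (nat_lit 14) true (nat_lit 13) (.s false (nat_lit 1) (nat_lit 19) (nat_lit 2) (nat_lit 12) (nat_lit 2) true (nat_lit 9) true (nat_lit 14) true (nat_lit 4) true (nat_lit 14) true (nat_lit 7) (.s true (nat_lit 3) (nat_lit 19) (nat_lit 7) (nat_lit 3) (nat_lit 2) true (nat_lit 3) true (nat_lit 14) true (nat_lit 4) true (nat_lit 9) true (nat_lit 13) (.s false (nat_lit 1) (nat_lit 18) (nat_lit 11) (nat_lit 2) (nat_lit 2) true (nat_lit 1) true (nat_lit 14) true (nat_lit 4) true (nat_lit 7) true (nat_lit 14) (.s false (nat_lit 1) (nat_lit 18) (nat_lit 12) (nat_lit 2) (nat_lit 2) true (nat_lit 1) true (nat_lit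 14) true (nat_lit 4) true (nat_lit 7) true (nat_lit 14) (.s false (nat_lit 3) (nat_lit 19) (nat_lit 12) (nat_lit 2) (nat_lit 2) true (nat_lit 1) true (nat_lit 14) true (nat_lit 4) true (nat_lit 7) true (nat_lit 14) (.s false (nat_lit 2) (nat_lit 18) (nat_lit 17) (nat_lit 1) (nat_lit 2) false (nat_lit 0) true (nat_lit 14) true (nat_lit 4) true (nat_lit 5) true (nat_lit 15) (.s true (nat_lit 2) (nat_lit 20) (nat_lit 0) (nat_lit 1) (nat_lit 18) true (nat_lit 1) true (nat_lit 4) true (nat_lit 3) true (nat_lit 16) true (nat_lit 15) (.s true (nat_lit 2) (nat_lit 20) (nat_lit 0) (nat_lit 2) (nat_lit 15) true (nat_lit 2) true (nat_lit 6) true (nat_lit 3) true (nat_lit 16) true (nat_lit 14) (.s false (nat_lit 3) (nat_lit 20) (nat_lit 0) (nat_lit 18) (nat_lit 1) true (nat_lit 13) true (nat_lit 15) true (nat_lit 3) true (nat_lit 16) true (nat_lit 4) (.s false (nat_lit 1) (nat_lit 20) (nat_lit 1) (nat_lit 3) (nat_lit 7) true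 (nat_lit 4) true (nat_lit 9) true (nat_lit 3) true (nat_lit 15) true (nat_lit 13) (.s false (nat_lit 1) (nat_lit 20) (nat_lit 1) (nat_lit 7) (nat_lit 3) true (nat_lit 8) true (nat_lit 13) true (nat_lit 3) true (nat_lit 15) true (nat_lit 9) (.s false (nat_lit 1) (nat_lit 20) (nat_lit 2) (nat_lit 1) (nat_lit 11) true (nat_lit 1) true (nat_lit 7) true (nat_lit 3) true (nat_lit 14) true (nat_lit 15) (.s true (nat_lit 1) (nat_lit 20) (nat_lit 2) (nat_lit 2) (nat_lit 8) true (nat_lit 2) true (nat_lit 8) true (nat_lit 3) true (nat_lit 14) true (nat_lit 14) (.s true (nat_lit 2) (nat_lit 20) (nat_lit 2) (nat_lit 4) (nat_lit 5) true (nat_lit 5) true (nat_lit 11) true (nat_lit 3) true (nat_lit 14) true (nat_lit 12) (.s false (nat_lit 2) (nat_lit 20) (nat_lit 2) (nat_lit 6) (nat_lit 3) true (nat_lit 7) true (nat_lit 13) true (nat_lit 3) true (nat_lit 14) true (nat_lit 10) (.s false (nat_lit 2) (nat_lit 20) (nat_lit 2) (nat_lit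 11) (nat_lit 1) true (nat_lit 10) true (nat_lit 15) true (nat_lit 3) true (nat_lit 14) true (nat_lit 7) (.s false (nat_lit 3) (nat_lit 20) (nat_lit 2) (nat_lit 14) (nat_lit 0) true (nat_lit 11) true (nat_lit 16) true (nat_lit 3) true (nat_lit 14) true (nat_lit 6) (.s false (nat_lit 3) (nat_lit 20) (nat_lit 7) (nat_lit 3) (nat_lit 1) true (nat_lit 4) true (nat_lit 15) true (nat_lit 3) true (nat_lit 9) true (nat_lit 13) (.s true (nat_lit 2) (nat_lit 20) (nat_lit 8) (nat_lit 2) (nat_lit 2) true (nat_lit 2) true (nat_lit 14) true (nat_lit 3) true (nat_lit 8) true (nat_lit 14) (.s true (nat_lit 3) (nat_lit 20) (nat_lit 11) (nat_lit 2) (nat_lit 1) true (nat_lit 2) true (nat_lit 15) true (nat_lit 3) true (nat_lit 7) true (nat_lit 14) (.s true (nat_lit 2) (nat_lit 20) (nat_lit 14) (nat_lit 0) (nat_lit 2) true (nat_lit 0) true (nat_lit 14) true (nat_lit 3) true (nat_lit 6) true (nat_lit 16) (.s true (nat_lit 2) (nat_lit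 20) (nat_lit 15) (nat_lit 2) (nat_lit 0) true (nat_lit 2) true (nat_lit 16) true (nat_lit 3) true (nat_lit 6) true (nat_lit 14) (.s true (nat_lit 1) (nat_lit 24) (nat_lit 2) (nat_lit 2) (nat_lit 7) true (nat_lit 3) true (nat_lit 9) true (nat_lit 2) true (nat_lit 14) true (nat_lit 14) dC2d_i368)))))))))))))))))))))))))

noncomputable def dC2d_i370 : IL := (.e false (nat_lit 1) (nat_lit 271) (nat_lit 1) (nat_lit 17) (.e true (nat_lit 1) (nat_lit 276) (nat_lit 1) (nat_lit 17) (.e false (nat_lit 2) (nat_lit 277) (nat_lit 1) (nat_lit 17) (.e true (nat_lit 3) (nat_lit 278) (nat_lit 1) (nat_lit 17) (.e true (nat_lit 3) (nat_lit 287) (nat_lit 1) (nat_lit 17) (.e true (nat_lit 3) (nat_lit 261) (nat_lit 1) (nat_lit 17) (.e true (nat_lit 1) (nat_lit 263) (nat_lit 1) (nat_lit 17) (.e true (nat_lit 2) (nat_lit 269) (nat_lit 1) (nat_lit 17) (.e false (nat_lit 1) (nat_lit 289) (nat_lit 0) (nat_lit 18) (.e false (nat_lit 2) (nat_lit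 291) (nat_lit 0) (nat_lit 18) (.e false (nat_lit 2) (nat_lit 292) (nat_lit 0) (nat_lit 18) (.e true (nat_lit 1) (nat_lit 293) (nat_lit 0) (nat_lit 18) (.e false (nat_lit 1) (nat_lit 294) (nat_lit 0) (nat_lit 18) (.e false (nat_lit 2) (nat_lit 295) (nat_lit 0) (nat_lit 18) (.e false (nat_lit 3) (nat_lit 297) (nat_lit 0) (nat_lit 18) (.e false (nat_lit 2) (nat_lit 298) (nat_lit 0) (nat_lit 18) (.e false (nat_lit 3) (nat_lit 300) (nat_lit 0) (nat_lit 18) (.e true (nat_lit 3) (nat_lit 301) (nat_lit 0) (nat_lit 18) (.e true (nat_lit 2) (nat_lit 303) (nat_lit 0) (nat_lit 18) (.e false (nat_lit 2) (nat_lit 304) (nat_lit 0) (nat_lit 18) (.e true (nat_lit 3) (nat_lit 286) (nat_lit 1) (nat_lit 17) (.e true (nat_lit 3) (nat_lit 290) (nat_lit 0) (nat_lit 18) (.e true (nat_lit 3) (nat_lit 296) (nat_lit 0) (nat_lit 18) (.u (nat_lit 2) (.p (nat_lit 1) (nat_lit 3) (.n (nat_lit 2) (nat_lit 2) (.n (nat_lit 3) (nat_lit 2) (.n (nat_lit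 4) (nat_lit 4) (.p (nat_lit 5) (nat_lit 4) (.p (nat_lit 6) (nat_lit 3) (.n (nat_lit 7) (nat_lit 6) (.p (nat_lit 8) (nat_lit 5) (.p (nat_lit 9) (nat_lit 3) (.p (nat_lit 10) (nat_lit 4) (.p (nat_lit 11) (nat_lit 4) (.n (nat_lit 12) (nat_lit 4) (.p (nat_lit 15) (nat_lit 2) (.n (nat_lit 16) (nat_lit 1) (.p (nat_lit 17) (nat_lit 1) (.n (nat_lit 18) (nat_lit 2) (.n (nat_lit 19) (nat_lit 1) (.p (nat_lit 21) (nat_lit 2) (.n (nat_lit 22) (nat_lit 2) (.n (nat_lit 23) (nat_lit 5) (.p (nat_lit 24) (nat_lit 2) (.n (nat_lit 25) (nat_lit 3) (.n (nat_lit 26) (nat_lit 1) (.n (nat_lit 27) (nat_lit 2) (.n (nat_lit 29) (nat_lit 1) (.p (nat_lit 31) (nat_lit 3) (.n (nat_lit 32) (nat_lit 4) (.n (nat_lit 33) (nat_lit 2) (.p (nat_lit 34) (nat_lit 1) (.n (nat_lit 35) (nat_lit 2) (.p (nat_lit 36) (nat_lit 1) (.p (nat_lit 37) (nat_lit 1) (.p (nat_lit 38) (nat_lit 2) (.n (nat_lit 39) (nat_lit 1) (.n (nat_lit 40) (nat_lit 2) (.n (nat_lit 42)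 (nat_lit 2) (.n (nat_lit 44) (nat_lit 1) (.n (nat_lit 45) (nat_lit 3) (.n (nat_lit 46) (nat_lit 3) (.p (nat_lit 47) (nat_lit 2) (.p (nat_lit 48) (nat_lit 2) (.p (nat_lit 55) (nat_lit 2) (.p (nat_lit 206) (nat_lit 1) (.n (nat_lit 207) (nat_lit 1) (.p (nat_lit 210) (nat_lit 1) (.n (nat_lit 211) (nat_lit 1) (.p (nat_lit 302) (nat_lit 1) (.p (nat_lit 305) (nat_lit 1) (.n (nat_lit 306) (nat_lit 2) (.p (nat_lit 313) (nat_lit 1) (.p (nat_lit 314) (nat_lit 4) (.p (nat_lit 325) (nat_lit 1) (.n (nat_lit 329) (nat_lit 2) (.p (nat_lit 339) (nat_lit 1) (.p (nat_lit 340) (nat_lit 2) (.p (nat_lit 346) (nat_lit 1) (.n (nat_lit 348) (nat_lit 1) (.p (nat_lit 349) (nat_lit 1) (.n (nat_lit 350) (nat_lit 1) (.n (nat_lit 351) (nat_lit 1) .z)))))))))))))))))))))))))))))))))))))))))))))))))))))))))))) (.u (nat_lit 2) (.n (nat_lit 352) (nat_lit 6) (.n (nat_lit 353) (nat_lit 4) (.p (nat_lit 354) (nat_lit 5) (.p (nat_lit 355) (nat_lit 1)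 (.n (nat_lit 356) (nat_lit 3) (.p (nat_lit 357) (nat_lit 3) (.p (nat_lit 358) (nat_lit 3) (.p (nat_lit 359) (nat_lit 1) (.n (nat_lit 360) (nat_lit 1) (.p (nat_lit 361) (nat_lit 2) (.n (nat_lit 364) (nat_lit 2) (.p (nat_lit 366) (nat_lit 1) (.n (nat_lit 367) (nat_lit 6) (.p (nat_lit 368) (nat_lit 3) (.n (nat_lit 369) (nat_lit 1) (.p (nat_lit 370) (nat_lit 3) (.p (nat_lit 371) (nat_lit 1) (.p (nat_lit 372) (nat_lit 2) (.n (nat_lit 373) (nat_lit 3) (.n (nat_lit 374) (nat_lit 5) (.n (nat_lit 375) (nat_lit 2) (.p (nat_lit 377) (nat_lit 3) (.n (nat_lit 379) (nat_lit 1) (.p (nat_lit 382) (nat_lit 2) (.n (nat_lit 383) (nat_lit 2) (.n (nat_lit 386) (nat_lit 1) .z)))))))))))))))))))))))))) .nil)))))))))))))))))))))))))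

noncomputable def dC2d_i371 : IL := (.e true (nat_lit 3) (nat_lit 153) (nat_lit 6) (nat_lit 12) (.e false (nat_lit 2) (nat_lit 249) (nat_lit 2) (nat_lit 16) (.e true (nat_lit 2) (nat_lit 273) (nat_lit 1) (nat_lit 17) (.e false (nat_lit 2) (nat_lit 232) (nat_lit 2) (nat_lit 16) (.e true (nat_lit 1) (nat_lit 253) (nat_lit 1) (nat_lit 17) (.e true (nat_lit 1) (nat_lit 252) (nat_lit 1) (nat_lit 17) (.e true (nat_lit 2) (nat_lit 255) (nat_lit 1) (nat_lit 17) (.e true (nat_lit 1) (nat_lit 257) (nat_lit 1) (nat_lit 17) (.e true (nat_lit 3) (nat_lit 258) (nat_lit 1) (nat_lit 17) (.e true (nat_lit 3) (nat_lit 266) (nat_lit 1) (nat_lit 17) (.e false (nat_lit 2) (nat_lit 272) (nat_lit 1) (nat_lit 17) (.e false (nat_lit 1) (nat_lit 274) (nat_lit 1) (nat_lit 17) (.e true (nat_lit 3) (nat_lit 279) (nat_lit 1) (nat_lit 17) (.e true (nat_lit 2) (nat_lit 280) (nat_lit 1) (nat_lit 17) (.e false (nat_lit 1) (nat_lit 265) (nat_lit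 1) (nat_lit 17) (.e true (nat_lit 1) (nat_lit 256) (nat_lit 1) (nat_lit 17) (.e true (nat_lit 2) (nat_lit 264) (nat_lit 1) (nat_lit 17) (.e true (nat_lit 2) (nat_lit 275) (nat_lit 1) (nat_lit 17) (.e false (nat_lit 3) (nat_lit 288) (nat_lit 1) (nat_lit 17) (.e true (nat_lit 3) (nat_lit 285) (nat_lit 1) (nat_lit 17) (.e true (nat_lit 2) (nat_lit 259) (nat_lit 1) (nat_lit 17) (.e false (nat_lit 2) (nat_lit 260) (nat_lit 1) (nat_lit 17) (.e false (nat_lit 1) (nat_lit 282) (nat_lit 1) (nat_lit 17) (.e true (nat_lit 2) (nat_lit 262) (nat_lit 1) (nat_lit 17) (.e true (nat_lit 3) (nat_lit 267) (nat_lit 1) (nat_lit 17) dC2d_i370)))))))))))))))))))))))))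

noncomputable def dC2d_i372 : IL := (.s true (nat_lit 3) (nat_lit 8) (nat_lit 1) (nat_lit 7) (nat_lit 7) true (nat_lit 5) true (nat_lit 11) true (nat_lit 10) true (nat_lit 17) true (nat_lit 11) (.s true (nat_lit 3) (nat_lit 19) (nat_lit 9) (nat_lit 2) (nat_lit 2) true (nat_lit 2) true (nat_lit 16) true (nat_lit 5) true (nat_lit 10) true (nat_lit 16) (.s false (nat_lit 3) (nat_lit 25) (nat_lit 1) (nat_lit 7) (nat_lit 2) true (nat_lit 12) true (nat_lit 16) true (nat_lit 2) true (nat_lit 17) true (nat_lit 11) (.s false (nat_lit 3) (nat_lit 61) (nat_lit 1) (nat_lit 2) (nat_lit 2) true (nat_lit 12) true (nat_lit 16) false (nat_lit 5) true (nat_lit 17) true (nat_lit 16) (.s true (nat_lit 3) (nat_lit 61) (nat_lit 2) (nat_lit 1) (nat_lit 2) true (nat_lit 11) true (nat_lit 16) false (nat_lit 5) true (nat_lit 16) true (nat_lit 17) (.s true (nat_lit 3) (nat_lit 61) (nat_lit 2) (nat_lit 2) (nat_lit 1) true (nat_lit 12) true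 (nat_lit 17) false (nat_lit 5) true (nat_lit 16) true (nat_lit 16) (.s false (nat_lit 1) (nat_lit 102) (nat_lit 0) (nat_lit 1) (nat_lit 1) true (nat_lit 15) true (nat_lit 17) false (nat_lit 10) true (nat_lit 18) true (nat_lit 17) (.s true (nat_lit 1) (nat_lit 103) (nat_lit 0) (nat_lit 1) (nat_lit 1) true (nat_lit 15) true (nat_lit 17) false (nat_lit 10) true (nat_lit 18) true (nat_lit 17) (.s true (nat_lit 1) (nat_lit 102) (nat_lit 1) (nat_lit 1) (nat_lit 0) true (nat_lit 15) true (nat_lit 18) false (nat_lit 10) true (nat_lit 17) true (nat_lit 17) (.s false (nat_lit 1) (nat_lit 103) (nat_lit 1) (nat_lit 1) (nat_lit 0) true (nat_lit 15) true (nat_lit 18) false (nat_lit 10) true (nat_lit 17) true (nat_lit 17) (.e true (nat_lit 3) (nat_lit 72) (nat_lit 19) (nat_lit 5) (.e true (nat_lit 3) (nat_lit 128) (nat_lit 7) (nat_lit 11) (.e false (nat_lit 3) (nat_lit 126) (nat_lit 7) (nat_lit 11) (.e true (nat_lit 3) (nat_lit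 206) (nat_lit 2) (nat_lit 16) (.e true (nat_lit 1) (nat_lit 208) (nat_lit 2) (nat_lit 16) (.e true (nat_lit 1) (nat_lit 209) (nat_lit 2) (nat_lit 16) (.e false (nat_lit 2) (nat_lit 217) (nat_lit 2) (nat_lit 16) (.e true (nat_lit 1) (nat_lit 205) (nat_lit 2) (nat_lit 16) (.e false (nat_lit 2) (nat_lit 216) (nat_lit 2) (nat_lit 16) (.e false (nat_lit 3) (nat_lit 227) (nat_lit 2) (nat_lit 16) (.e false (nat_lit 2) (nat_lit 228) (nat_lit 2) (nat_lit 16) (.e false (nat_lit 2) (nat_lit 242) (nat_lit 2) (nat_lit 16) (.e false (nat_lit 1) (nat_lit 243) (nat_lit 2) (nat_lit 16) (.e true (nat_lit 3) (nat_lit 246) (nat_lit 2) (nat_lit 16) (.e false (nat_lit 1) (nat_lit 251) (nat_lit 2) (nat_lit 16) dC2d_i371)))))))))))))))))))))))))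

noncomputable def dC2d_i373 : IL := (.e true (nat_lit 1) (nat_lit 259) (nat_lit 1) (nat_lit 17) (.e false (nat_lit 1) (nat_lit 260) (nat_lit 1) (nat_lit 17) (.e true (nat_lit 2) (nat_lit 261) (nat_lit 1) (nat_lit 17) (.e false (nat_lit 3) (nat_lit 274) (nat_lit 1) (nat_lit 17) (.e true (nat_lit 2) (nat_lit 279) (nat_lit 1) (nat_lit 17) (.e false (nat_lit 2) (nat_lit 278) (nat_lit 1) (nat_lit 17) (.e true (nat_lit 2) (nat_lit 280) (nat_lit 1) (nat_lit 17) (.e true (nat_lit 3) (nat_lit 300) (nat_lit 0) (nat_lit 18) (.e true (nat_lit 3) (nat_lit 301) (nat_lit 0) (nat_lit 18) (.e true (nat_lit 2) (nat_lit 289) (nat_lit 0) (nat_lit 18) (.e true (nat_lit 2) (nat_lit 291) (nat_lit 0) (nat_lit 18) (.e false (nat_lit 3) (nat_lit 293) (nat_lit 0) (nat_lit 18) (.e false (nat_lit 1) (nat_lit 296) (nat_lit 0) (nat_lit 18) (.e false (nat_lit 3) (nat_lit 297) (nat_lit 0) (nat_lit 18) (.e true (nat_lit 1) (nat_lit 290) (nat_lit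 0) (nat_lit 18) (.e true (nat_lit 1) (nat_lit 294) (nat_lit 0) (nat_lit 18) (.e true (nat_lit 1) (nat_lit 295) (nat_lit 0) (nat_lit 18) (.e true (nat_lit 3) (nat_lit 292) (nat_lit 0) (nat_lit 18) (.e true (nat_lit 1) (nat_lit 303) (nat_lit 0) (nat_lit 18) (.e false (nat_lit 2) (nat_lit 62) (nat_lit 18) (nat_lit 5) (.e false (nat_lit 1) (nat_lit 299) (nat_lit 0) (nat_lit 18) (.u (nat_lit 2) (.n (nat_lit 0) (nat_lit 4) (.n (nat_lit 1) (nat_lit 2) (.p (nat_lit 2) (nat_lit 1) (.p (nat_lit 3) (nat_lit 3) (.p (nat_lit 4) (nat_lit 2) (.p (nat_lit 5) (nat_lit 1) (.p (nat_lit 6) (nat_lit 3) (.p (nat_lit 7) (nat_lit 2) (.p (nat_lit 8) (nat_lit 4) (.n (nat_lit 9) (nat_lit 5) (.p (nat_lit 10) (nat_lit 4) (.n (nat_lit 11) (nat_lit 3) (.p (nat_lit 12) (nat_lit 3) (.p (nat_lit 14) (nat_lit 2) (.n (nat_lit 15) (nat_lit 3) (.n (nat_lit 17) (nat_lit 5) (.p (nat_lit 18) (nat_lit 3) (.n (nat_lit 19) (nat_lit 3) (.n (nat_lit 20) (nat_lit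 1) (.n (nat_lit 21) (nat_lit 1) (.p (nat_lit 22) (nat_lit 1) (.n (nat_lit 23) (nat_lit 1) (.p (nat_lit 25) (nat_lit 3) (.n (nat_lit 26) (nat_lit 1) (.p (nat_lit 27) (nat_lit 3) (.n (nat_lit 28) (nat_lit 3) (.p (nat_lit 29) (nat_lit 1) (.p (nat_lit 31) (nat_lit 2) (.p (nat_lit 32) (nat_lit 3) (.p (nat_lit 33) (nat_lit 1) (.n (nat_lit 34) (nat_lit 9) (.p (nat_lit 35) (nat_lit 5) (.p (nat_lit 36) (nat_lit 7) (.n (nat_lit 38) (nat_lit 1) (.n (nat_lit 39) (nat_lit 1) (.p (nat_lit 40) (nat_lit 1) (.n (nat_lit 42) (nat_lit 1) (.n (nat_lit 44) (nat_lit 1) (.p (nat_lit 45) (nat_lit 5) (.n (nat_lit 46) (nat_lit 3) (.n (nat_lit 47) (nat_lit 3) (.n (nat_lit 48) (nat_lit 3) (.n (nat_lit 55) (nat_lit 1) (.p (nat_lit 63) (nat_lit 1) (.n (nat_lit 64) (nat_lit 1) (.n (nat_lit 67) (nat_lit 1) (.n (nat_lit 72) (nat_lit 1) (.p (nat_lit 73) (nat_lit 1) (.p (nat_lit 78) (nat_lit 1) (.n (nat_lit 79) (nat_lit 1) (.p (nat_lit 96) (nat_lit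 1) (.n (nat_lit 97) (nat_lit 1) (.n (nat_lit 104) (nat_lit 1) (.p (nat_lit 116) (nat_lit 1) (.n (nat_lit 122) (nat_lit 1) (.n (nat_lit 123) (nat_lit 1) (.n (nat_lit 125) (nat_lit 1) (.n (nat_lit 127) (nat_lit 1) (.p (nat_lit 128) (nat_lit 1) (.p (nat_lit 134) (nat_lit 1) .z)))))))))))))))))))))))))))))))))))))))))))))))))))))))))))) (.u (nat_lit 2) (.p (nat_lit 135) (nat_lit 1) (.p (nat_lit 136) (nat_lit 1) (.p (nat_lit 147) (nat_lit 1) (.p (nat_lit 173) (nat_lit 1) (.p (nat_lit 175) (nat_lit 1) (.p (nat_lit 177) (nat_lit 1) (.p (nat_lit 179) (nat_lit 1) (.p (nat_lit 184) (nat_lit 1) (.p (nat_lit 190) (nat_lit 2) (.p (nat_lit 202) (nat_lit 1) (.p (nat_lit 203) (nat_lit 1) (.p (nat_lit 208) (nat_lit 1) (.n (nat_lit 210) (nat_lit 1) (.p (nat_lit 211) (nat_lit 1) (.p (nat_lit 214) (nat_lit 5) (.p (nat_lit 215) (nat_lit 6) (.p (nat_lit 217) (nat_lit 2) (.n (nat_lit 218) (nat_lit 1) (.n (nat_lit 219) (nat_lit 2) (.p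 (nat_lit 221) (nat_lit 1) (.n (nat_lit 222) (nat_lit 1) (.p (nat_lit 223) (nat_lit 1) (.n (nat_lit 224) (nat_lit 4) (.n (nat_lit 226) (nat_lit 4) (.p (nat_lit 229) (nat_lit 1) (.p (nat_lit 230) (nat_lit 3) (.p (nat_lit 232) (nat_lit 1) (.n (nat_lit 233) (nat_lit 3) (.p (nat_lit 234) (nat_lit 8) (.p (nat_lit 236) (nat_lit 1) (.n (nat_lit 238) (nat_lit 1) (.p (nat_lit 239) (nat_lit 1) (.p (nat_lit 240) (nat_lit 3) (.p (nat_lit 243) (nat_lit 1) (.p (nat_lit 244) (nat_lit 2) (.p (nat_lit 245) (nat_lit 2) (.p (nat_lit 246) (nat_lit 1) (.n (nat_lit 247) (nat_lit 1) (.n (nat_lit 251) (nat_lit 2) (.p (nat_lit 257) (nat_lit 2) (.p (nat_lit 258) (nat_lit 1) (.p (nat_lit 261) (nat_lit 1) (.n (nat_lit 263) (nat_lit 1) (.p (nat_lit 266) (nat_lit 1) (.p (nat_lit 267) (nat_lit 1) (.n (nat_lit 268) (nat_lit 1) (.n (nat_lit 269) (nat_lit 1) (.n (nat_lit 271) (nat_lit 1) (.p (nat_lit 272) (nat_lit 1) (.n (nat_lit 273) (nat_lit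 1) (.n (nat_lit 276) (nat_lit 1) (.p (nat_lit 277) (nat_lit 1) (.p (nat_lit 278) (nat_lit 1) (.n (nat_lit 279) (nat_lit 1) (.p (nat_lit 280) (nat_lit 1) (.p (nat_lit 281) (nat_lit 1) (.p (nat_lit 282) (nat_lit 1) (.p (nat_lit 283) (nat_lit 1) (.p (nat_lit 285) (nat_lit 2) (.p (nat_lit 286) (nat_lit 2) .z)))))))))))))))))))))))))))))))))))))))))))))))))))))))))))) (.u (nat_lit 2) (.p (nat_lit 297) (nat_lit 1) (.n (nat_lit 299) (nat_lit 1) (.p (nat_lit 300) (nat_lit 1) (.p (nat_lit 302) (nat_lit 8) (.p (nat_lit 303) (nat_lit 3) (.p (nat_lit 304) (nat_lit 5) (.p (nat_lit 305) (nat_lit 23) (.p (nat_lit 306) (nat_lit 3) (.n (nat_lit 307) (nat_lit 4) (.n (nat_lit 308) (nat_lit 6) (.n (nat_lit 309) (nat_lit 3) (.p (nat_lit 310) (nat_lit 13) (.p (nat_lit 311) (nat_lit 1) (.p (nat_lit 312) (nat_lit 28) (.p (nat_lit 313) (nat_lit 8) (.n (nat_lit 314) (nat_lit 7) (.p (nat_lit 315) (nat_lit 9) (.n (nat_lit 316) (nat_lit 8)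 (.p (nat_lit 317) (nat_lit 18) (.n (nat_lit 318) (nat_lit 31) (.n (nat_lit 319) (nat_lit 17) (.n (nat_lit 320) (nat_lit 2) (.n (nat_lit 321) (nat_lit 4) (.p (nat_lit 322) (nat_lit 15) (.p (nat_lit 323) (nat_lit 16) (.n (nat_lit 324) (nat_lit 7) (.p (nat_lit 325) (nat_lit 12) (.p (nat_lit 326) (nat_lit 2) (.p (nat_lit 327) (nat_lit 11) (.n (nat_lit 328) (nat_lit 19) (.n (nat_lit 329) (nat_lit 3) (.p (nat_lit 330) (nat_lit 2) (.p (nat_lit 331) (nat_lit 7) (.n (nat_lit 332) (nat_lit 6) (.n (nat_lit 334) (nat_lit 4) (.n (nat_lit 335) (nat_lit 2) (.n (nat_lit 336) (nat_lit 8) (.p (nat_lit 337) (nat_lit 4) (.n (nat_lit 338) (nat_lit 1) (.n (nat_lit 339) (nat_lit 11) (.n (nat_lit 340) (nat_lit 27) (.p (nat_lit 341) (nat_lit 4) (.n (nat_lit 342) (nat_lit 6) (.n (nat_lit 343) (nat_lit 1) (.p (nat_lit 344) (nat_lit 20) (.p (nat_lit 345) (nat_lit 9) (.p (nat_lit 346) (nat_lit 1) (.n (nat_lit 347) (nat_lit 8) (.p (nat_lit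 348) (nat_lit 10) (.n (nat_lit 349) (nat_lit 19) (.p (nat_lit 350) (nat_lit 19) (.n (nat_lit 351) (nat_lit 5) (.p (nat_lit 352) (nat_lit 9) (.p (nat_lit 353) (nat_lit 5) (.n (nat_lit 354) (nat_lit 15) (.p (nat_lit 356) (nat_lit 11) (.n (nat_lit 357) (nat_lit 20) (.p (nat_lit 358) (nat_lit 8) (.n (nat_lit 360) (nat_lit 10) (.n (nat_lit 361) (nat_lit 7) .z)))))))))))))))))))))))))))))))))))))))))))))))))))))))))))) (.u (nat_lit 2) (.n (nat_lit 362) (nat_lit 1) (.p (nat_lit 363) (nat_lit 9) (.p (nat_lit 364) (nat_lit 5) (.p (nat_lit 365) (nat_lit 3) (.p (nat_lit 366) (nat_lit 2) (.p (nat_lit 367) (nat_lit 9) (.n (nat_lit 368) (nat_lit 3) (.n (nat_lit 369) (nat_lit 7) (.p (nat_lit 370) (nat_lit 5) (.n (nat_lit 371) (nat_lit 10) (.p (nat_lit 372) (nat_lit 3) (.p (nat_lit 373) (nat_lit 4) (.n (nat_lit 374) (nat_lit 14) (.p (nat_lit 375) (nat_lit 1) (.n (nat_lit 376) (nat_lit 10) (.n (nat_lit 377) (nat_lit 9) (.p (nat_lit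 378) (nat_lit 3) (.n (nat_lit 379) (nat_lit 5) (.n (nat_lit 380) (nat_lit 2) (.n (nat_lit 381) (nat_lit 1) (.p (nat_lit 382) (nat_lit 1) (.p (nat_lit 383) (nat_lit 4) (.p (nat_lit 384) (nat_lit 4) (.n (nat_lit 385) (nat_lit 3) (.p (nat_lit 386) (nat_lit 6) (.n (nat_lit 387) (nat_lit 2) (.p (nat_lit 388) (nat_lit 4) (.n (nat_lit 389) (nat_lit 2) (.n (nat_lit 390) (nat_lit 6) (.p (nat_lit 391) (nat_lit 5) (.n (nat_lit 392) (nat_lit 7) (.p (nat_lit 393) (nat_lit 6) (.n (nat_lit 394) (nat_lit 1) (.p (nat_lit 395) (nat_lit 3) (.n (nat_lit 396) (nat_lit 3) (.n (nat_lit 397) (nat_lit 4) (.p (nat_lit 398) (nat_lit 10) (.n (nat_lit 399) (nat_lit 1) (.p (nat_lit 400) (nat_lit 4) (.n (nat_lit 401) (nat_lit 3) .z)))))))))))))))))))))))))))))))))))))))) .nil)))))))))))))))))))))))))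

noncomputable def dC2d_i374 : IL := (.e true (nat_lit 2) (nat_lit 264) (nat_lit 1) (nat_lit 17) (.e false (nat_lit 3) (nat_lit 266) (nat_lit 1) (nat_lit 17) (.e true (nat_lit 3) (nat_lit 231) (nat_lit 2) (nat_lit 16) (.e true (nat_lit 1) (nat_lit 206) (nat_lit 2) (nat_lit 16) (.e false (nat_lit 2) (nat_lit 210) (nat_lit 2) (nat_lit 16) (.e false (nat_lit 1) (nat_lit 211) (nat_lit 2) (nat_lit 16) (.e true (nat_lit 3) (nat_lit 213) (nat_lit 2) (nat_lit 16) (.e false (nat_lit 2) (nat_lit 219) (nat_lit 2) (nat_lit 16) (.e false (nat_lit 1) (nat_lit 220) (nat_lit 2) (nat_lit 16) (.e false (nat_lit 1) (nat_lit 209) (nat_lit 2) (nat_lit 16) (.e true (nat_lit 2) (nat_lit 212) (nat_lit 2) (nat_lit 16) (.e true (nat_lit 3) (nat_lit 230) (nat_lit 2) (nat_lit 16) (.e false (nat_lit 3) (nat_lit 246) (nat_lit 2) (nat_lit 16) (.e true (nat_lit 2) (nat_lit 249) (nat_lit 2) (nat_lit 16) (.e true (nat_lit 1) (nat_lit 221) (nat_lit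 2) (nat_lit 16) (.e true (nat_lit 2) (nat_lit 226) (nat_lit 2) (nat_lit 16) (.e false (nat_lit 1) (nat_lit 298) (nat_lit 0) (nat_lit 18) (.e true (nat_lit 1) (nat_lit 207) (nat_lit 2) (nat_lit 16) (.e false (nat_lit 1) (nat_lit 244) (nat_lit 2) (nat_lit 16) (.e true (nat_lit 2) (nat_lit 229) (nat_lit 2) (nat_lit 16) (.e false (nat_lit 2) (nat_lit 250) (nat_lit 2) (nat_lit 16) (.e true (nat_lit 1) (nat_lit 218) (nat_lit 2) (nat_lit 16) (.e false (nat_lit 3) (nat_lit 233) (nat_lit 2) (nat_lit 16) (.e true (nat_lit 3) (nat_lit 235) (nat_lit 2) (nat_lit 16) (.e false (nat_lit 1) (nat_lit 256) (nat_lit 1) (nat_lit 17) dC2d_i373)))))))))))))))))))))))))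

noncomputable def dC2d_i375 : IL := (.e true (nat_lit 3) (nat_lit 134) (nat_lit 6) (nat_lit 12) (.e false (nat_lit 3) (nat_lit 138) (nat_lit 6) (nat_lit 12) (.e false (nat_lit 1) (nat_lit 144) (nat_lit 6) (nat_lit 12) (.e true (nat_lit 1) (nat_lit 155) (nat_lit 6) (nat_lit 12) (.e true (nat_lit 2) (nat_lit 227) (nat_lit 2) (nat_lit 16) (.e true (nat_lit 3) (nat_lit 242) (nat_lit 2) (nat_lit 16) (.e false (nat_lit 2) (nat_lit 208) (nat_lit 2) (nat_lit 16) (.e true (nat_lit 2) (nat_lit 216) (nat_lit 2) (nat_lit 16) (.e false (nat_lit 3) (nat_lit 205) (nat_lit 2) (nat_lit 16) (.e true (nat_lit 1) (nat_lit 215) (nat_lit 2) (nat_lit 16) (.e true (nat_lit 3) (nat_lit 251) (nat_lit 2) (nat_lit 16) (.e false (nat_lit 1) (nat_lit 285) (nat_lit 1) (nat_lit 17) (.e true (nat_lit 2) (nat_lit 252) (nat_lit 1) (nat_lit 17) (.e true (nat_lit 2) (nat_lit 253) (nat_lit 1) (nat_lit 17) (.e false (nat_lit 2) (nat_lit 258) (nat_lit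 1) (nat_lit 17) (.e false (nat_lit 3) (nat_lit 265) (nat_lit 1) (nat_lit 17) (.e false (nat_lit 2) (nat_lit 267) (nat_lit 1) (nat_lit 17) (.e false (nat_lit 2) (nat_lit 269) (nat_lit 1) (nat_lit 17) (.e true (nat_lit 1) (nat_lit 270) (nat_lit 1) (nat_lit 17) (.e true (nat_lit 3) (nat_lit 271) (nat_lit 1) (nat_lit 17) (.e false (nat_lit 1) (nat_lit 272) (nat_lit 1) (nat_lit 17) (.e false (nat_lit 2) (nat_lit 273) (nat_lit 1) (nat_lit 17) (.e false (nat_lit 3) (nat_lit 276) (nat_lit 1) (nat_lit 17) (.e false (nat_lit 1) (nat_lit 255) (nat_lit 1) (nat_lit 17) (.e false (nat_lit 2) (nat_lit 262) (nat_lit 1) (nat_lit 17) dC2d_i374)))))))))))))))))))))))))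

noncomputable def dC2d_i376 : IL := (.s true (nat_lit 2) (nat_lit 83) (nat_lit 1) (nat_lit 2) (nat_lit 1) true (nat_lit 14) true (nat_lit 17) false (nat_lit 7) true (nat_lit 17) true (nat_lit 16) (.s true (nat_lit 2) (nat_lit 84) (nat_lit 1) (nat_lit 2) (nat_lit 1) true (nat_lit 14) true (nat_lit 17) false (nat_lit 7) true (nat_lit 17) true (nat_lit 16) (.s true (nat_lit 3) (nat_lit 85) (nat_lit 1) (nat_lit 2) (nat_lit 1) true (nat_lit 14) true (nat_lit 17) false (nat_lit 7) true (nat_lit 17) true (nat_lit 16) (.s true (nat_lit 3) (nat_lit 86) (nat_lit 1) (nat_lit 2) (nat_lit 1) true (nat_lit 14) true (nat_lit 17) false (nat_lit 7) true (nat_lit 17) true (nat_lit 16) (.s true (nat_lit 1) (nat_lit 87) (nat_lit 1) (nat_lit 2) (nat_lit 1) true (nat_lit 14) true (nat_lit 17) false (nat_lit 7) true (nat_lit 17) true (nat_lit 16) (.s true (nat_lit 1) (nat_lit 88) (nat_lit 1) (nat_lit 2) (nat_lit 1) true (nat_lit 14)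 true (nat_lit 17) false (nat_lit 7) true (nat_lit 17) true (nat_lit 16) (.s true (nat_lit 1) (nat_lit 90) (nat_lit 1) (nat_lit 2) (nat_lit 1) true (nat_lit 14) true (nat_lit 17) false (nat_lit 7) true (nat_lit 17) true (nat_lit 16) (.s true (nat_lit 2) (nat_lit 83) (nat_lit 2) (nat_lit 1) (nat_lit 1) true (nat_lit 12) true (nat_lit 17) false (nat_lit 7) true (nat_lit 16) true (nat_lit 17) (.s false (nat_lit 3) (nat_lit 88) (nat_lit 2) (nat_lit 1) (nat_lit 1) true (nat_lit 12) true (nat_lit 17) false (nat_lit 7) true (nat_lit 16) true (nat_lit 17) (.s false (nat_lit 3) (nat_lit 89) (nat_lit 2) (nat_lit 1) (nat_lit 1) true (nat_lit 12) true (nat_lit 17) false (nat_lit 7) true (nat_lit 16) true (nat_lit 17) (.s false (nat_lit 3) (nat_lit 92) (nat_lit 0) (nat_lit 1) (nat_lit 2) true (nat_lit 13) true (nat_lit 16) false (nat_lit 8) true (nat_lit 18) true (nat_lit 17) (.s true (nat_lit 1) (nat_lit 93) (nat_lit 0) (nat_lit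 1) (nat_lit 2) true (nat_lit 13) true (nat_lit 16) false (nat_lit 8) true (nat_lit 18) true (nat_lit 17) (.s true (nat_lit 1) (nat_lit 96) (nat_lit 0) (nat_lit 1) (nat_lit 2) true (nat_lit 13) true (nat_lit 16) false (nat_lit 8) true (nat_lit 18) true (nat_lit 17) (.s true (nat_lit 2) (nat_lit 92) (nat_lit 1) (nat_lit 0) (nat_lit 2) true (nat_lit 12) true (nat_lit 16) false (nat_lit 8) true (nat_lit 17) true (nat_lit 18) (.s true (nat_lit 3) (nat_lit 95) (nat_lit 1) (nat_lit 2) (nat_lit 0) true (nat_lit 15) true (nat_lit 18) false (nat_lit 8) true (nat_lit 17) true (nat_lit 16) (.s true (nat_lit 1) (nat_lit 92) (nat_lit 2) (nat_lit 1) (nat_lit 0) true (nat_lit 13) true (nat_lit 18) false (nat_lit 8) true (nat_lit 16) true (nat_lit 17) (.s true (nat_lit 2) (nat_lit 94) (nat_lit 2) (nat_lit 1) (nat_lit 0) true (nat_lit 13) true (nat_lit 18) false (nat_lit 8) true (nat_lit 16) true (nat_lit 17) (.s true (nat_lit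 2) (nat_lit 97) (nat_lit 1) (nat_lit 1) (nat_lit 1) true (nat_lit 14) true (nat_lit 17) false (nat_lit 9) true (nat_lit 17) true (nat_lit 17) (.s true (nat_lit 1) (nat_lit 103) (nat_lit 0) (nat_lit 1) (nat_lit 1) true (nat_lit 15) true (nat_lit 17) false (nat_lit 10) true (nat_lit 18) true (nat_lit 17) (.s false (nat_lit 2) (nat_lit 102) (nat_lit 1) (nat_lit 1) (nat_lit 0) true (nat_lit 15) true (nat_lit 18) false (nat_lit 10) true (nat_lit 17) true (nat_lit 17) (.s false (nat_lit 1) (nat_lit 103) (nat_lit 1) (nat_lit 1) (nat_lit 0) true (nat_lit 15) true (nat_lit 18) false (nat_lit 10) true (nat_lit 17) true (nat_lit 17) (.e true (nat_lit 1) (nat_lit 122) (nat_lit 7) (nat_lit 11) (.e false (nat_lit 2) (nat_lit 130) (nat_lit 7) (nat_lit 11) (.e true (nat_lit 2) (nat_lit 129) (nat_lit 7) (nat_lit 11) (.e false (nat_lit 1) (nat_lit 170) (nat_lit 4) (nat_lit 14) dC2d_i375)))))))))))))))))))))))))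

noncomputable def dC2d_i377 : IL := (.s true (nat_lit 2) (nat_lit 69) (nat_lit 2) (nat_lit 1) (nat_lit 2) true (nat_lit 11) true (nat_lit 16) false (nat_lit 5) true (nat_lit 16) true (nat_lit 17) (.s false (nat_lit 2) (nat_lit 70) (nat_lit 2) (nat_lit 1) (nat_lit 2) true (nat_lit 11) true (nat_lit 16) false (nat_lit 5) true (nat_lit 16) true (nat_lit 17) (.s true (nat_lit 2) (nat_lit 73) (nat_lit 2) (nat_lit 1) (nat_lit 2) true (nat_lit 11) true (nat_lit 16) false (nat_lit 5) true (nat_lit 16) true (nat_lit 17) (.s true (nat_lit 2) (nat_lit 60) (nat_lit 2) (nat_lit 2) (nat_lit 1) true (nat_lit 12) true (nat_lit 17) false (nat_lit 5) true (nat_lit 16) true (nat_lit 16) (.s true (nat_lit 3) (nat_lit 61) (nat_lit 2) (nat_lit 2) (nat_lit 1) true (nat_lit 12) true (nat_lit 17) false (nat_lit 5) true (nat_lit 16) true (nat_lit 16) (.s false (nat_lit 3) (nat_lit 62) (nat_lit 2) (nat_lit 2) (nat_lit 1) true (nat_lit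 12) true (nat_lit 17) false (nat_lit 5) true (nat_lit 16) true (nat_lit 16) (.s false (nat_lit 2) (nat_lit 64) (nat_lit 2) (nat_lit 2) (nat_lit 1) true (nat_lit 12) true (nat_lit 17) false (nat_lit 5) true (nat_lit 16) true (nat_lit 16) (.s true (nat_lit 2) (nat_lit 66) (nat_lit 2) (nat_lit 2) (nat_lit 1) true (nat_lit 12) true (nat_lit 17) false (nat_lit 5) true (nat_lit 16) true (nat_lit 16) (.s true (nat_lit 1) (nat_lit 67) (nat_lit 2) (nat_lit 2) (nat_lit 1) true (nat_lit 12) true (nat_lit 17) false (nat_lit 5) true (nat_lit 16) true (nat_lit 16) (.s false (nat_lit 3) (nat_lit 69) (nat_lit 2) (nat_lit 2) (nat_lit 1) true (nat_lit 12) true (nat_lit 17) false (nat_lit 5) true (nat_lit 16) true (nat_lit 16) (.s true (nat_lit 1) (nat_lit 72) (nat_lit 2) (nat_lit 2) (nat_lit 1) true (nat_lit 12) true (nat_lit 17) false (nat_lit 5) true (nat_lit 16) true (nat_lit 16) (.s false (nat_lit 1) (nat_lit 75) (nat_lit 0)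 (nat_lit 2) (nat_lit 2) true (nat_lit 13) true (nat_lit 16) false (nat_lit 6) true (nat_lit 18) true (nat_lit 16) (.s true (nat_lit 1) (nat_lit 76) (nat_lit 0) (nat_lit 2) (nat_lit 2) true (nat_lit 13) true (nat_lit 16) false (nat_lit 6) true (nat_lit 18) true (nat_lit 16) (.s false (nat_lit 1) (nat_lit 77) (nat_lit 0) (nat_lit 2) (nat_lit 2) true (nat_lit 13) true (nat_lit 16) false (nat_lit 6) true (nat_lit 18) true (nat_lit 16) (.s false (nat_lit 1) (nat_lit 78) (nat_lit 0) (nat_lit 2) (nat_lit 2) true (nat_lit 13) true (nat_lit 16) false (nat_lit 6) true (nat_lit 18) true (nat_lit 16) (.s true (nat_lit 2) (nat_lit 79) (nat_lit 0) (nat_lit 2) (nat_lit 2) true (nat_lit 13) true (nat_lit 16) false (nat_lit 6) true (nat_lit 18) true (nat_lit 16) (.s false (nat_lit 1) (nat_lit 77) (nat_lit 2) (nat_lit 0) (nat_lit 2) true (nat_lit 11) true (nat_lit 16) false (nat_lit 6) true (nat_lit 16) true (nat_lit 18) (.s true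 (nat_lit 2) (nat_lit 74) (nat_lit 2) (nat_lit 2) (nat_lit 0) true (nat_lit 13) true (nat_lit 18) false (nat_lit 6) true (nat_lit 16) true (nat_lit 16) (.s false (nat_lit 3) (nat_lit 75) (nat_lit 2) (nat_lit 2) (nat_lit 0) true (nat_lit 13) true (nat_lit 18) false (nat_lit 6) true (nat_lit 16) true (nat_lit 16) (.s true (nat_lit 1) (nat_lit 79) (nat_lit 2) (nat_lit 2) (nat_lit 0) true (nat_lit 13) true (nat_lit 18) false (nat_lit 6) true (nat_lit 16) true (nat_lit 16) (.s false (nat_lit 3) (nat_lit 83) (nat_lit 1) (nat_lit 1) (nat_lit 2) true (nat_lit 12) true (nat_lit 16) false (nat_lit 7) true (nat_lit 17) true (nat_lit 17) (.s false (nat_lit 2) (nat_lit 89) (nat_lit 1) (nat_lit 1) (nat_lit 2) true (nat_lit 12) true (nat_lit 16) false (nat_lit 7) true (nat_lit 17) true (nat_lit 17) (.s true (nat_lit 3) (nat_lit 80) (nat_lit 1) (nat_lit 2) (nat_lit 1) true (nat_lit 14) true (nat_lit 17) false (nat_lit 7) true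 (nat_lit 17) true (nat_lit 16) (.s true (nat_lit 2) (nat_lit 81) (nat_lit 1) (nat_lit 2) (nat_lit 1) true (nat_lit 14) true (nat_lit 17) false (nat_lit 7) true (nat_lit 17) true (nat_lit 16) (.s true (nat_lit 3) (nat_lit 82) (nat_lit 1) (nat_lit 2) (nat_lit 1) true (nat_lit 14) true (nat_lit 17) false (nat_lit 7) true (nat_lit 17) true (nat_lit 16) dC2d_i376)))))))))))))))))))))))))

noncomputable def dC2d_i378 : IL := (.s true (nat_lit 2) (nat_lit 54) (nat_lit 2) (nat_lit 2) (nat_lit 2) true (nat_lit 11) true (nat_lit 16) false (nat_lit 4) true (nat_lit 16) true (nat_lit 16) (.s true (nat_lit 3) (nat_lit 55) (nat_lit 2) (nat_lit 2) (nat_lit 2) true (nat_lit 11) true (nat_lit 16) false (nat_lit 4) true (nat_lit 16) true (nat_lit 16) (.s true (nat_lit 2) (nat_lit 56) (nat_lit 2) (nat_lit 2) (nat_lit 2) true (nat_lit 11) true (nat_lit 16) false (nat_lit 4) true (nat_lit 16) true (nat_lit 16) (.s false (nat_lit 1)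 (nat_lit 57) (nat_lit 2) (nat_lit 2) (nat_lit 2) true (nat_lit 11) true (nat_lit 16) false (nat_lit 4) true (nat_lit 16) true (nat_lit 16) (.s false (nat_lit 2) (nat_lit 58) (nat_lit 2) (nat_lit 2) (nat_lit 2) true (nat_lit 11) true (nat_lit 16) false (nat_lit 4) true (nat_lit 16) true (nat_lit 16) (.s false (nat_lit 3) (nat_lit 59) (nat_lit 2) (nat_lit 2) (nat_lit 2) true (nat_lit 11) true (nat_lit 16) false (nat_lit 4) true (nat_lit 16) true (nat_lit 16) (.s true (nat_lit 2) (nat_lit 60) (nat_lit 1) (nat_lit 2) (nat_lit 2) true (nat_lit 12) true (nat_lit 16) false (nat_lit 5) true (nat_lit 17) true (nat_lit 16) (.s false (nat_lit 3) (nat_lit 61) (nat_lit 1) (nat_lit 2) (nat_lit 2) true (nat_lit 12) true (nat_lit 16) false (nat_lit 5) true (nat_lit 17) true (nat_lit 16) (.s false (nat_lit 3) (nat_lit 63) (nat_lit 1) (nat_lit 2) (nat_lit 2) true (nat_lit 12) true (nat_lit 16) false (nat_lit 5) true (nat_lit 17)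 true (nat_lit 16) (.s false (nat_lit 3) (nat_lit 64) (nat_lit 1) (nat_lit 2) (nat_lit 2) true (nat_lit 12) true (nat_lit 16) false (nat_lit 5) true (nat_lit 17) true (nat_lit 16) (.s false (nat_lit 1) (nat_lit 65) (nat_lit 1) (nat_lit 2) (nat_lit 2) true (nat_lit 12) true (nat_lit 16) false (nat_lit 5) true (nat_lit 17) true (nat_lit 16) (.s false (nat_lit 1) (nat_lit 66) (nat_lit 1) (nat_lit 2) (nat_lit 2) true (nat_lit 12) true (nat_lit 16) false (nat_lit 5) true (nat_lit 17) true (nat_lit 16) (.s true (nat_lit 2) (nat_lit 67) (nat_lit 1) (nat_lit 2) (nat_lit 2) true (nat_lit 12) true (nat_lit 16) false (nat_lit 5) true (nat_lit 17) true (nat_lit 16) (.s true (nat_lit 1) (nat_lit 68) (nat_lit 1) (nat_lit 2) (nat_lit 2) true (nat_lit 12) true (nat_lit 16) false (nat_lit 5) true (nat_lit 17) true (nat_lit 16) (.s true (nat_lit 1) (nat_lit 69) (nat_lit 1) (nat_lit 2) (nat_lit 2) true (nat_lit 12) true (nat_lit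 16) false (nat_lit 5) true (nat_lit 17) true (nat_lit 16) (.s true (nat_lit 2) (nat_lit 70) (nat_lit 1) (nat_lit 2) (nat_lit 2) true (nat_lit 12) true (nat_lit 16) false (nat_lit 5) true (nat_lit 17) true (nat_lit 16) (.s false (nat_lit 1) (nat_lit 71) (nat_lit 1) (nat_lit 2) (nat_lit 2) true (nat_lit 12) true (nat_lit 16) false (nat_lit 5) true (nat_lit 17) true (nat_lit 16) (.s true (nat_lit 3) (nat_lit 72) (nat_lit 1) (nat_lit 2) (nat_lit 2) true (nat_lit 12) true (nat_lit 16) false (nat_lit 5) true (nat_lit 17) true (nat_lit 16) (.s false (nat_lit 3) (nat_lit 73) (nat_lit 1) (nat_lit 2) (nat_lit 2) true (nat_lit 12) true (nat_lit 16) false (nat_lit 5) true (nat_lit 17) true (nat_lit 16) (.s false (nat_lit 2) (nat_lit 62) (nat_lit 2) (nat_lit 1) (nat_lit 2) true (nat_lit 11) true (nat_lit 16) false (nat_lit 5) true (nat_lit 16) true (nat_lit 17) (.s false (nat_lit 2) (nat_lit 63) (nat_lit 2) (nat_lit 1) (nat_lit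 2) true (nat_lit 11) true (nat_lit 16) false (nat_lit 5) true (nat_lit 16) true (nat_lit 17) (.s true (nat_lit 1) (nat_lit 64) (nat_lit 2) (nat_lit 1) (nat_lit 2) true (nat_lit 11) true (nat_lit 16) false (nat_lit 5) true (nat_lit 16) true (nat_lit 17) (.s false (nat_lit 1) (nat_lit 65) (nat_lit 2) (nat_lit 1) (nat_lit 2) true (nat_lit 11) true (nat_lit 16) false (nat_lit 5) true (nat_lit 16) true (nat_lit 17) (.s false (nat_lit 2) (nat_lit 66) (nat_lit 2) (nat_lit 1) (nat_lit 2) true (nat_lit 11) true (nat_lit 16) false (nat_lit 5) true (nat_lit 16) true (nat_lit 17) (.s true (nat_lit 3) (nat_lit 67) (nat_lit 2) (nat_lit 1) (nat_lit 2) true (nat_lit 11) true (nat_lit 16) false (nat_lit 5) true (nat_lit 16) true (nat_lit 17) dC2d_i377)))))))))))))))))))))))))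

noncomputable def dC2d_i379 : IL := (.s true (nat_lit 1) (nat_lit 36) (nat_lit 2) (nat_lit 1) (nat_lit 6) true (nat_lit 5) true (nat_lit 12) true (nat_lit 0) true (nat_lit 16) true (nat_lit 17) (.s false (nat_lit 2) (nat_lit 33) (nat_lit 2) (nat_lit 2) (nat_lit 4) true (nat_lit 7) true (nat_lit 14) true (nat_lit 0) true (nat_lit 16) true (nat_lit 16) (.s true (nat_lit 3) (nat_lit 36) (nat_lit 2) (nat_lit 2) (nat_lit 4) true (nat_lit 7) true (nat_lit 14) true (nat_lit 0) true (nat_lit 16) true (nat_lit 16) (.s false (nat_lit 3) (nat_lit 34) (nat_lit 2) (nat_lit 6) (nat_lit 1) true (nat_lit 12) true (nat_lit 17) true (nat_lit 0) true (nat_lit 16) true (nat_lit 12) (.s true (nat_lit 3) (nat_lit 33) (nat_lit 4) (nat_lit 2) (nat_lit 2) true (nat_lit 7) true (nat_lit 16) true (nat_lit 0) true (nat_lit 14) true (nat_lit 16) (.s false (nat_lit 3) (nat_lit 33) (nat_lit 6) (nat_lit 1) (nat_lit 2) true (nat_lit 5) true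 (nat_lit 16) true (nat_lit 0) true (nat_lit 12) true (nat_lit 17) (.s true (nat_lit 2) (nat_lit 34) (nat_lit 6) (nat_lit 2) (nat_lit 1) true (nat_lit 7) true (nat_lit 17) true (nat_lit 0) true (nat_lit 12) true (nat_lit 16) (.s true (nat_lit 1) (nat_lit 40) (nat_lit 2) (nat_lit 0) (nat_lit 6) true (nat_lit 5) true (nat_lit 12) false (nat_lit 0) true (nat_lit 16) true (nat_lit 18) (.s true (nat_lit 1) (nat_lit 40) (nat_lit 2) (nat_lit 1) (nat_lit 5) true (nat_lit 6) true (nat_lit 13) false (nat_lit 0) true (nat_lit 16) true (nat_lit 17) (.s false (nat_lit 1) (nat_lit 41) (nat_lit 2) (nat_lit 6) (nat_lit 0) true (nat_lit 13) true (nat_lit 18) false (nat_lit 0) true (nat_lit 16) true (nat_lit 12) (.s true (nat_lit 1) (nat_lit 41) (nat_lit 5) (nat_lit 2) (nat_lit 1) true (nat_lit 8) true (nat_lit 17) false (nat_lit 0) true (nat_lit 13) true (nat_lit 16) (.s false (nat_lit 1) (nat_lit 40) (nat_lit 6) (nat_lit 2) (nat_lit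 0) true (nat_lit 8) true (nat_lit 18) false (nat_lit 0) true (nat_lit 12) true (nat_lit 16) (.s false (nat_lit 3) (nat_lit 47) (nat_lit 0) (nat_lit 2) (nat_lit 4) true (nat_lit 10) true (nat_lit 14) false (nat_lit 2) true (nat_lit 18) true (nat_lit 16) (.s true (nat_lit 3) (nat_lit 45) (nat_lit 1) (nat_lit 2) (nat_lit 3) true (nat_lit 10) true (nat_lit 15) false (nat_lit 2) true (nat_lit 17) true (nat_lit 16) (.s false (nat_lit 3) (nat_lit 46) (nat_lit 1) (nat_lit 3) (nat_lit 2) true (nat_lit 12) true (nat_lit 16) false (nat_lit 2) true (nat_lit 17) true (nat_lit 15) (.s true (nat_lit 1) (nat_lit 47) (nat_lit 1) (nat_lit 3) (nat_lit 2) true (nat_lit 12) true (nat_lit 16) false (nat_lit 2) true (nat_lit 17) true (nat_lit 15) (.s true (nat_lit 2) (nat_lit 45) (nat_lit 1) (nat_lit 5) (nat_lit 1) true (nat_lit 14) true (nat_lit 17) false (nat_lit 2) true (nat_lit 17) true (nat_lit 13) (.s true (nat_lit 3) (nat_lit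 45) (nat_lit 2) (nat_lit 3) (nat_lit 1) true (nat_lit 12) true (nat_lit 17) false (nat_lit 2) true (nat_lit 16) true (nat_lit 15) (.s true (nat_lit 3) (nat_lit 46) (nat_lit 2) (nat_lit 3) (nat_lit 1) true (nat_lit 12) true (nat_lit 17) false (nat_lit 2) true (nat_lit 16) true (nat_lit 15) (.s true (nat_lit 2) (nat_lit 47) (nat_lit 5) (nat_lit 1) (nat_lit 1) true (nat_lit 8) true (nat_lit 17) false (nat_lit 2) true (nat_lit 13) true (nat_lit 17) (.s false (nat_lit 3) (nat_lit 46) (nat_lit 6) (nat_lit 0) (nat_lit 1) true (nat_lit 7) true (nat_lit 17) false (nat_lit 2) true (nat_lit 12) true (nat_lit 18) (.s false (nat_lit 2) (nat_lit 45) (nat_lit 6) (nat_lit 1) (nat_lit 0) true (nat_lit 8) true (nat_lit 18) false (nat_lit 2) true (nat_lit 12) true (nat_lit 17) (.s false (nat_lit 3) (nat_lit 46) (nat_lit 6) (nat_lit 1) (nat_lit 0) true (nat_lit 8) true (nat_lit 18) false (nat_lit 2) true (nat_lit 12) true (nat_lit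 17) (.s true (nat_lit 2) (nat_lit 52) (nat_lit 2) (nat_lit 2) (nat_lit 2) true (nat_lit 11) true (nat_lit 16) false (nat_lit 4) true (nat_lit 16) true (nat_lit 16) (.s true (nat_lit 3) (nat_lit 53) (nat_lit 2) (nat_lit 2) (nat_lit 2) true (nat_lit 11) true (nat_lit 16) false (nat_lit 4) true (nat_lit 16) true (nat_lit 16) dC2d_i378)))))))))))))))))))))))))

noncomputable def dC2d_i380 : IL := (.s true (nat_lit 3) (nat_lit 24) (nat_lit 2) (nat_lit 1) (nat_lit 7) true (nat_lit 4) true (nat_lit 11) true (nat_lit 2) true (nat_lit 16) true (nat_lit 17) (.s true (nat_lit 2) (nat_lit 27) (nat_lit 2) (nat_lit 1) (nat_lit 7) true (nat_lit 4) true (nat_lit 11) true (nat_lit 2) true (nat_lit 16) true (nat_lit 17) (.s true (nat_lit 3) (nat_lit 29) (nat_lit 2) (nat_lit 1) (nat_lit 7) true (nat_lit 4) true (nat_lit 11) true (nat_lit 2) true (nat_lit 16) true (nat_lit 17) (.s false (nat_lit 2) (nat_lit 26) (nat_lit 2) (nat_lit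 2) (nat_lit 6) true (nat_lit 5) true (nat_lit 12) true (nat_lit 2) true (nat_lit 16) true (nat_lit 16) (.s true (nat_lit 3) (nat_lit 27) (nat_lit 2) (nat_lit 2) (nat_lit 6) true (nat_lit 5) true (nat_lit 12) true (nat_lit 2) true (nat_lit 16) true (nat_lit 16) (.s false (nat_lit 1) (nat_lit 28) (nat_lit 2) (nat_lit 2) (nat_lit 6) true (nat_lit 5) true (nat_lit 12) true (nat_lit 2) true (nat_lit 16) true (nat_lit 16) (.s false (nat_lit 3) (nat_lit 29) (nat_lit 2) (nat_lit 2) (nat_lit 6) true (nat_lit 5) true (nat_lit 12) true (nat_lit 2) true (nat_lit 16) true (nat_lit 16) (.s false (nat_lit 2) (nat_lit 25) (nat_lit 2) (nat_lit 6) (nat_lit 2) true (nat_lit 11) true (nat_lit 16) true (nat_lit 2) true (nat_lit 16) true (nat_lit 12) (.s false (nat_lit 2) (nat_lit 24) (nat_lit 6) (nat_lit 2) (nat_lit 2) true (nat_lit 5) true (nat_lit 16) true (nat_lit 2) true (nat_lit 12) true (nat_lit 16) (.s false (nat_lit 3) (nat_lit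 25) (nat_lit 6) (nat_lit 2) (nat_lit 2) true (nat_lit 5) true (nat_lit 16) true (nat_lit 2) true (nat_lit 12) true (nat_lit 16) (.s true (nat_lit 3) (nat_lit 27) (nat_lit 6) (nat_lit 2) (nat_lit 2) true (nat_lit 5) true (nat_lit 16) true (nat_lit 2) true (nat_lit 12) true (nat_lit 16) (.s true (nat_lit 2) (nat_lit 29) (nat_lit 6) (nat_lit 2) (nat_lit 2) true (nat_lit 5) true (nat_lit 16) true (nat_lit 2) true (nat_lit 12) true (nat_lit 16) (.s true (nat_lit 1) (nat_lit 25) (nat_lit 7) (nat_lit 2) (nat_lit 1) true (nat_lit 5) true (nat_lit 17) true (nat_lit 2) true (nat_lit 11) true (nat_lit 16) (.s true (nat_lit 2) (nat_lit 30) (nat_lit 0) (nat_lit 2) (nat_lit 7) true (nat_lit 6) true (nat_lit 11) true (nat_lit 1) true (nat_lit 18) true (nat_lit 16) (.s false (nat_lit 3) (nat_lit 31) (nat_lit 0) (nat_lit 2) (nat_lit 7) true (nat_lit 6) true (nat_lit 11) true (nat_lit 1) true (nat_lit 18) true (nat_lit 16) (.s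 true (nat_lit 1) (nat_lit 30) (nat_lit 2) (nat_lit 0) (nat_lit 7) true (nat_lit 4) true (nat_lit 11) true (nat_lit 1) true (nat_lit 16) true (nat_lit 18) (.s true (nat_lit 2) (nat_lit 30) (nat_lit 2) (nat_lit 2) (nat_lit 5) true (nat_lit 6) true (nat_lit 13) true (nat_lit 1) true (nat_lit 16) true (nat_lit 16) (.s true (nat_lit 1) (nat_lit 31) (nat_lit 2) (nat_lit 2) (nat_lit 5) true (nat_lit 6) true (nat_lit 13) true (nat_lit 1) true (nat_lit 16) true (nat_lit 16) (.s true (nat_lit 1) (nat_lit 30) (nat_lit 2) (nat_lit 7) (nat_lit 0) true (nat_lit 13) true (nat_lit 18) true (nat_lit 1) true (nat_lit 16) true (nat_lit 11) (.s false (nat_lit 2) (nat_lit 30) (nat_lit 5) (nat_lit 2) (nat_lit 2) true (nat_lit 6) true (nat_lit 16) true (nat_lit 1) true (nat_lit 13) true (nat_lit 16) (.s true (nat_lit 1) (nat_lit 33) (nat_lit 1) (nat_lit 1) (nat_lit 7) true (nat_lit 5) true (nat_lit 11) true (nat_lit 0) true (nat_lit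 17) true (nat_lit 17) (.s true (nat_lit 1) (nat_lit 34) (nat_lit 1) (nat_lit 1) (nat_lit 7) true (nat_lit 5) true (nat_lit 11) true (nat_lit 0) true (nat_lit 17) true (nat_lit 17) (.s true (nat_lit 3) (nat_lit 38) (nat_lit 1) (nat_lit 1) (nat_lit 7) true (nat_lit 5) true (nat_lit 11) true (nat_lit 0) true (nat_lit 17) true (nat_lit 17) (.s true (nat_lit 2) (nat_lit 38) (nat_lit 1) (nat_lit 2) (nat_lit 6) true (nat_lit 7) true (nat_lit 12) true (nat_lit 0) true (nat_lit 17) true (nat_lit 16) (.s false (nat_lit 3) (nat_lit 33) (nat_lit 1) (nat_lit 7) (nat_lit 1) true (nat_lit 14) true (nat_lit 17) true (nat_lit 0) true (nat_lit 17) true (nat_lit 11) dC2d_i379)))))))))))))))))))))))))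

noncomputable def dC2d_i381 : IL := (.s false (nat_lit 3) (nat_lit 18) (nat_lit 2) (nat_lit 2) (nat_lit 8) true (nat_lit 2) true (nat_lit 10) true (nat_lit 5) true (nat_lit 16) true (nat_lit 16) (.s true (nat_lit 3) (nat_lit 19) (nat_lit 2) (nat_lit 2) (nat_lit 8) true (nat_lit 2) true (nat_lit 10) true (nat_lit 5) true (nat_lit 16) true (nat_lit 16) (.s false (nat_lit 2) (nat_lit 18) (nat_lit 2) (nat_lit 11) (nat_lit 1) true (nat_lit 12) true (nat_lit 17) true (nat_lit 5) true (nat_lit 16) true (nat_lit 8) (.s true (nat_lit 1) (nat_lit 18) (nat_lit 2) (nat_lit 12) (nat_lit 1) true (nat_lit 12) true (nat_lit 17) true (nat_lit 5) true (nat_lit 16) true (nat_lit 8) (.s false (nat_lit 2) (nat_lit 19) (nat_lit 2) (nat_lit 12) (nat_lit 1) true (nat_lit 12) true (nat_lit 17) true (nat_lit 5) true (nat_lit 16) true (nat_lit 8) (.s true (nat_lit 1) (nat_lit 18) (nat_lit 8) (nat_lit 2) (nat_lit 2) true (nat_lit 2) true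 (nat_lit 16) true (nat_lit 5) true (nat_lit 10) true (nat_lit 16) (.s true (nat_lit 2) (nat_lit 18) (nat_lit 9) (nat_lit 2) (nat_lit 2) true (nat_lit 2) true (nat_lit 16) true (nat_lit 5) true (nat_lit 10) true (nat_lit 16) (.s false (nat_lit 1) (nat_lit 20) (nat_lit 2) (nat_lit 1) (nat_lit 8) true (nat_lit 2) true (nat_lit 10) true (nat_lit 4) true (nat_lit 16) true (nat_lit 17) (.s false (nat_lit 3) (nat_lit 20) (nat_lit 2) (nat_lit 8) (nat_lit 1) true (nat_lit 12) true (nat_lit 17) true (nat_lit 4) true (nat_lit 16) true (nat_lit 10) (.s false (nat_lit 1) (nat_lit 20) (nat_lit 8) (nat_lit 1) (nat_lit 2) true (nat_lit 2) true (nat_lit 16) true (nat_lit 4) true (nat_lit 10) true (nat_lit 17) (.s true (nat_lit 1) (nat_lit 20) (nat_lit 9) (nat_lit 1) (nat_lit 2) true (nat_lit 2) true (nat_lit 16) true (nat_lit 4) true (nat_lit 10) true (nat_lit 17) (.s true (nat_lit 1) (nat_lit 20) (nat_lit 9) (nat_lit 2) (nat_lit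 1) true (nat_lit 3) true (nat_lit 17) true (nat_lit 4) true (nat_lit 10) true (nat_lit 16) (.s false (nat_lit 1) (nat_lit 20) (nat_lit 10) (nat_lit 0) (nat_lit 2) true (nat_lit 1) true (nat_lit 16) true (nat_lit 4) true (nat_lit 9) true (nat_lit 18) (.s true (nat_lit 3) (nat_lit 22) (nat_lit 2) (nat_lit 2) (nat_lit 7) true (nat_lit 4) true (nat_lit 11) true (nat_lit 3) true (nat_lit 16) true (nat_lit 16) (.s false (nat_lit 3) (nat_lit 21) (nat_lit 2) (nat_lit 7) (nat_lit 2) true (nat_lit 11) true (nat_lit 16) true (nat_lit 3) true (nat_lit 16) true (nat_lit 11) (.s false (nat_lit 1) (nat_lit 22) (nat_lit 2) (nat_lit 7) (nat_lit 2) true (nat_lit 11) true (nat_lit 16) true (nat_lit 3) true (nat_lit 16) true (nat_lit 11) (.s false (nat_lit 3) (nat_lit 21) (nat_lit 7) (nat_lit 2) (nat_lit 2) true (nat_lit 4) true (nat_lit 16) true (nat_lit 3) true (nat_lit 11) true (nat_lit 16) (.s true (nat_lit 2) (nat_lit 24) (nat_lit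 1) (nat_lit 2) (nat_lit 7) true (nat_lit 5) true (nat_lit 11) true (nat_lit 2) true (nat_lit 17) true (nat_lit 16) (.s true (nat_lit 2) (nat_lit 26) (nat_lit 1) (nat_lit 2) (nat_lit 7) true (nat_lit 5) true (nat_lit 11) true (nat_lit 2) true (nat_lit 17) true (nat_lit 16) (.s true (nat_lit 3) (nat_lit 27) (nat_lit 1) (nat_lit 2) (nat_lit 7) true (nat_lit 5) true (nat_lit 11) true (nat_lit 2) true (nat_lit 17) true (nat_lit 16) (.s true (nat_lit 2) (nat_lit 28) (nat_lit 1) (nat_lit 2) (nat_lit 7) true (nat_lit 5) true (nat_lit 11) true (nat_lit 2) true (nat_lit 17) true (nat_lit 16) (.s false (nat_lit 3) (nat_lit 29) (nat_lit 1) (nat_lit 2) (nat_lit 7) true (nat_lit 5) true (nat_lit 11) true (nat_lit 2) true (nat_lit 17) true (nat_lit 16) (.s false (nat_lit 2) (nat_lit 24) (nat_lit 1) (nat_lit 7) (nat_lit 2) true (nat_lit 12) true (nat_lit 16) true (nat_lit 2) true (nat_lit 17) true (nat_lit 11) (.s false (nat_lit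 1) (nat_lit 26) (nat_lit 1) (nat_lit 7) (nat_lit 2) true (nat_lit 12) true (nat_lit 16) true (nat_lit 2) true (nat_lit 17) true (nat_lit 11) (.s false (nat_lit 2) (nat_lit 27) (nat_lit 1) (nat_lit 7) (nat_lit 2) true (nat_lit 12) true (nat_lit 16) true (nat_lit 2) true (nat_lit 17) true (nat_lit 11) dC2d_i380)))))))))))))))))))))))))

noncomputable def dC2d_i382 : IL := (.s false (nat_lit 1) (nat_lit 8) (nat_lit 2) (nat_lit 7) (nat_lit 6) true (nat_lit 5) true (nat_lit 12) true (nat_lit 10) true (nat_lit 16) true (nat_lit 11) (.s false (nat_lit 3) (nat_lit 8) (nat_lit 6) (nat_lit 2) (nat_lit 7) false (nat_lit 2) true (nat_lit 11) true (nat_lit 10) true (nat_lit 12) true (nat_lit 16) (.s true (nat_lit 2) (nat_lit 9) (nat_lit 7) (nat_lit 1) (nat_lit 7) false (nat_lit 3) true (nat_lit 11) true (nat_lit 10) true (nat_lit 11) true (nat_lit 17) (.s false (nat_lit 1) (nat_lit 9) (nat_lit 7) (nat_lit 6) (nat_lit 2) true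 (nat_lit 4) true (nat_lit 16) true (nat_lit 10) true (nat_lit 11) true (nat_lit 12) (.s false (nat_lit 1) (nat_lit 10) (nat_lit 5) (nat_lit 2) (nat_lit 7) false (nat_lit 1) true (nat_lit 11) true (nat_lit 9) true (nat_lit 13) true (nat_lit 16) (.s false (nat_lit 3) (nat_lit 10) (nat_lit 7) (nat_lit 0) (nat_lit 7) false (nat_lit 3) true (nat_lit 11) true (nat_lit 9) true (nat_lit 11) true (nat_lit 18) (.s false (nat_lit 1) (nat_lit 10) (nat_lit 7) (nat_lit 7) (nat_lit 0) true (nat_lit 6) true (nat_lit 18) true (nat_lit 9) true (nat_lit 11) true (nat_lit 11) (.s false (nat_lit 2) (nat_lit 12) (nat_lit 2) (nat_lit 7) (nat_lit 4) true (nat_lit 7) true (nat_lit 14) true (nat_lit 8) true (nat_lit 16) true (nat_lit 11) (.s true (nat_lit 3) (nat_lit 11) (nat_lit 6) (nat_lit 6) (nat_lit 2) true (nat_lit 5) true (nat_lit 16) true (nat_lit 8) true (nat_lit 12) true (nat_lit 12) (.s true (nat_lit 2) (nat_lit 12) (nat_lit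 6) (nat_lit 6) (nat_lit 2) true (nat_lit 5) true (nat_lit 16) true (nat_lit 8) true (nat_lit 12) true (nat_lit 12) (.s true (nat_lit 1) (nat_lit 14) (nat_lit 2) (nat_lit 2) (nat_lit 11) true (nat_lit 0) true (nat_lit 8) true (nat_lit 7) true (nat_lit 16) true (nat_lit 16) (.s false (nat_lit 1) (nat_lit 15) (nat_lit 2) (nat_lit 2) (nat_lit 11) true (nat_lit 0) true (nat_lit 8) true (nat_lit 7) true (nat_lit 16) true (nat_lit 16) (.s true (nat_lit 1) (nat_lit 14) (nat_lit 2) (nat_lit 3) (nat_lit 7) true (nat_lit 4) true (nat_lit 11) true (nat_lit 7) true (nat_lit 16) true (nat_lit 15) (.s false (nat_lit 2) (nat_lit 15) (nat_lit 2) (nat_lit 11) (nat_lit 2) true (nat_lit 11) true (nat_lit 16) true (nat_lit 7) true (nat_lit 16) true (nat_lit 8) (.s true (nat_lit 1) (nat_lit 14) (nat_lit 11) (nat_lit 2) (nat_lit 2) true (nat_lit 0) true (nat_lit 16) true (nat_lit 7) true (nat_lit 8) true (nat_lit 16) (.s false (nat_lit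 2) (nat_lit 15) (nat_lit 12) (nat_lit 2) (nat_lit 2) true (nat_lit 0) true (nat_lit 16) true (nat_lit 7) true (nat_lit 8) true (nat_lit 16) (.s true (nat_lit 2) (nat_lit 16) (nat_lit 2) (nat_lit 2) (nat_lit 10) true (nat_lit 1) true (nat_lit 9) true (nat_lit 6) true (nat_lit 16) true (nat_lit 16) (.s false (nat_lit 1) (nat_lit 16) (nat_lit 15) (nat_lit 1) (nat_lit 2) false (nat_lit 0) true (nat_lit 16) true (nat_lit 6) true (nat_lit 7) true (nat_lit 17) (.s true (nat_lit 2) (nat_lit 18) (nat_lit 1) (nat_lit 0) (nat_lit 18) false (nat_lit 0) true (nat_lit 5) true (nat_lit 5) true (nat_lit 17) true (nat_lit 18) (.s false (nat_lit 2) (nat_lit 18) (nat_lit 1) (nat_lit 2) (nat_lit 12) true (nat_lit 2) true (nat_lit 8) true (nat_lit 5) true (nat_lit 17) true (nat_lit 16) (.s true (nat_lit 1) (nat_lit 19) (nat_lit 1) (nat_lit 2) (nat_lit 11) true (nat_lit 2) true (nat_lit 8) true (nat_lit 5) true (nat_lit 17) true (nat_lit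 16) (.s false (nat_lit 3) (nat_lit 19) (nat_lit 1) (nat_lit 3) (nat_lit 7) true (nat_lit 5) true (nat_lit 11) true (nat_lit 5) true (nat_lit 17) true (nat_lit 15) (.s false (nat_lit 2) (nat_lit 19) (nat_lit 1) (nat_lit 11) (nat_lit 2) true (nat_lit 12) true (nat_lit 16) true (nat_lit 5) true (nat_lit 17) true (nat_lit 8) (.s false (nat_lit 2) (nat_lit 18) (nat_lit 2) (nat_lit 0) (nat_lit 15) false (nat_lit 0) true (nat_lit 7) true (nat_lit 5) true (nat_lit 16) true (nat_lit 18) (.s true (nat_lit 2) (nat_lit 19) (nat_lit 2) (nat_lit 1) (nat_lit 11) true (nat_lit 0) true (nat_lit 8) true (nat_lit 5) true (nat_lit 16) true (nat_lit 17) dC2d_i381)))))))))))))))))))))))))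

noncomputable def dC2d_i383 : IL := (.e false (nat_lit 2) (nat_lit 235) (nat_lit 2) (nat_lit 16) (.e true (nat_lit 3) (nat_lit 155) (nat_lit 6) (nat_lit 12) (.e false (nat_lit 3) (nat_lit 289) (nat_lit 0) (nat_lit 18) (.e true (nat_lit 1) (nat_lit 292) (nat_lit 0) (nat_lit 18) (.e true (nat_lit 3) (nat_lit 293) (nat_lit 0) (nat_lit 18) (.e true (nat_lit 3) (nat_lit 295) (nat_lit 0) (nat_lit 18) (.e false (nat_lit 3) (nat_lit 297) (nat_lit 0) (nat_lit 18) (.e false (nat_lit 1) (nat_lit 299) (nat_lit 0) (nat_lit 18) (.e false (nat_lit 3) (nat_lit 300) (nat_lit 0) (nat_lit 18) (.e true (nat_lit 3) (nat_lit 301) (nat_lit 0) (nat_lit 18) (.e true (nat_lit 2) (nat_lit 303) (nat_lit 0) (nat_lit 18) (.e true (nat_lit 1) (nat_lit 259) (nat_lit 1) (nat_lit 17) (.e false (nat_lit 1) (nat_lit 260) (nat_lit 1) (nat_lit 17) (.e false (nat_lit 3) (nat_lit 275) (nat_lit 1) (nat_lit 17) (.e true (nat_lit 2) (nat_lit 279) (nat_lit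 1) (nat_lit 17) (.e false (nat_lit 3) (nat_lit 257) (nat_lit 1) (nat_lit 17) (.e true (nat_lit 3) (nat_lit 294) (nat_lit 0) (nat_lit 18) (.e true (nat_lit 1) (nat_lit 296) (nat_lit 0) (nat_lit 18) (.e false (nat_lit 1) (nat_lit 170) (nat_lit 4) (nat_lit 14) (.e false (nat_lit 3) (nat_lit 282) (nat_lit 1) (nat_lit 17) (.e false (nat_lit 1) (nat_lit 280) (nat_lit 1) (nat_lit 17) (.u (nat_lit 2) (.n (nat_lit 0) (nat_lit 3) (.n (nat_lit 1) (nat_lit 3) (.p (nat_lit 2) (nat_lit 1) (.p (nat_lit 3) (nat_lit 5) (.n (nat_lit 4) (nat_lit 3) (.n (nat_lit 5) (nat_lit 1) (.p (nat_lit 6) (nat_lit 1) (.p (nat_lit 7) (nat_lit 2) (.n (nat_lit 8) (nat_lit 2) (.n (nat_lit 9) (nat_lit 2) (.p (nat_lit 10) (nat_lit 2) (.p (nat_lit 11) (nat_lit 4) (.p (nat_lit 12) (nat_lit 2) (.p (nat_lit 14) (nat_lit 3) (.n (nat_lit 15) (nat_lit 2) (.p (nat_lit 16) (nat_lit 1) (.n (nat_lit 17) (nat_lit 3) (.p (nat_lit 18) (nat_lit 1) (.n (nat_lit 19)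 (nat_lit 4) (.p (nat_lit 21) (nat_lit 2) (.n (nat_lit 22) (nat_lit 2) (.p (nat_lit 23) (nat_lit 1) (.p (nat_lit 24) (nat_lit 2) (.n (nat_lit 25) (nat_lit 1) (.p (nat_lit 26) (nat_lit 2) (.n (nat_lit 27) (nat_lit 3) (.n (nat_lit 28) (nat_lit 2) (.p (nat_lit 31) (nat_lit 1) (.p (nat_lit 32) (nat_lit 4) (.n (nat_lit 33) (nat_lit 1) (.n (nat_lit 34) (nat_lit 1) (.n (nat_lit 35) (nat_lit 1) (.p (nat_lit 36) (nat_lit 2) (.p (nat_lit 37) (nat_lit 1) (.p (nat_lit 38) (nat_lit 1) (.p (nat_lit 39) (nat_lit 2) (.p (nat_lit 42) (nat_lit 1) (.n (nat_lit 47) (nat_lit 1) (.p (nat_lit 48) (nat_lit 1) (.n (nat_lit 50) (nat_lit 1) (.p (nat_lit 55) (nat_lit 1) (.n (nat_lit 57) (nat_lit 1) (.p (nat_lit 62) (nat_lit 1) (.n (nat_lit 63) (nat_lit 1) (.n (nat_lit 67) (nat_lit 1) (.n (nat_lit 79) (nat_lit 1) (.p (nat_lit 93) (nat_lit 1) (.p (nat_lit 97) (nat_lit 1) (.n (nat_lit 99) (nat_lit 1) (.p (nat_lit 100) (nat_lit 1) (.n (nat_lit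 108) (nat_lit 1) (.n (nat_lit 110) (nat_lit 1) (.p (nat_lit 111) (nat_lit 1) (.p (nat_lit 112) (nat_lit 1) (.p (nat_lit 113) (nat_lit 3) (.n (nat_lit 115) (nat_lit 1) (.n (nat_lit 116) (nat_lit 1) (.p (nat_lit 117) (nat_lit 1) (.p (nat_lit 118) (nat_lit 1) (.n (nat_lit 119) (nat_lit 1) .z)))))))))))))))))))))))))))))))))))))))))))))))))))))))))))) (.u (nat_lit 2) (.n (nat_lit 120) (nat_lit 2) (.p (nat_lit 121) (nat_lit 1) (.p (nat_lit 122) (nat_lit 2) (.p (nat_lit 123) (nat_lit 1) (.n (nat_lit 124) (nat_lit 1) (.n (nat_lit 126) (nat_lit 1) (.p (nat_lit 127) (nat_lit 1) (.n (nat_lit 129) (nat_lit 1) (.n (nat_lit 136) (nat_lit 1) (.p (nat_lit 137) (nat_lit 1) (.p (nat_lit 146) (nat_lit 1) (.p (nat_lit 147) (nat_lit 1) (.n (nat_lit 163) (nat_lit 1) (.n (nat_lit 166) (nat_lit 1) (.p (nat_lit 169) (nat_lit 1) (.n (nat_lit 183) (nat_lit 1) (.p (nat_lit 185) (nat_lit 1) (.n (nat_lit 187) (nat_lit 1) (.p (nat_lit 197)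 (nat_lit 1) (.p (nat_lit 202) (nat_lit 1) (.p (nat_lit 203) (nat_lit 1) (.p (nat_lit 204) (nat_lit 1) (.p (nat_lit 207) (nat_lit 1) (.p (nat_lit 214) (nat_lit 3) (.p (nat_lit 215) (nat_lit 3) (.p (nat_lit 216) (nat_lit 4) (.n (nat_lit 217) (nat_lit 3) (.p (nat_lit 219) (nat_lit 8) (.n (nat_lit 221) (nat_lit 8) (.p (nat_lit 223) (nat_lit 6) (.p (nat_lit 224) (nat_lit 2) (.p (nat_lit 225) (nat_lit 5) (.p (nat_lit 226) (nat_lit 2) (.n (nat_lit 227) (nat_lit 2) (.n (nat_lit 229) (nat_lit 7) (.n (nat_lit 230) (nat_lit 3) (.p (nat_lit 232) (nat_lit 1) (.n (nat_lit 234) (nat_lit 4) (.p (nat_lit 235) (nat_lit 1) (.n (nat_lit 237) (nat_lit 1) (.n (nat_lit 238) (nat_lit 3) (.n (nat_lit 239) (nat_lit 1) (.p (nat_lit 241) (nat_lit 1) (.p (nat_lit 243) (nat_lit 1) (.n (nat_lit 245) (nat_lit 2) (.n (nat_lit 246) (nat_lit 1) (.p (nat_lit 247) (nat_lit 1) (.n (nat_lit 250) (nat_lit 2) (.n (nat_lit 251) (nat_lit 1) (.n (nat_lit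 252) (nat_lit 1) (.p (nat_lit 254) (nat_lit 1) (.n (nat_lit 256) (nat_lit 1) (.p (nat_lit 260) (nat_lit 1) (.n (nat_lit 262) (nat_lit 1) (.n (nat_lit 264) (nat_lit 2) (.n (nat_lit 271) (nat_lit 1) (.n (nat_lit 284) (nat_lit 1) (.p (nat_lit 292) (nat_lit 1) (.p (nat_lit 293) (nat_lit 1) (.n (nat_lit 294) (nat_lit 1) .z)))))))))))))))))))))))))))))))))))))))))))))))))))))))))))) (.u (nat_lit 2) (.p (nat_lit 295) (nat_lit 1) (.p (nat_lit 296) (nat_lit 1) (.n (nat_lit 297) (nat_lit 2) (.p (nat_lit 300) (nat_lit 1) (.p (nat_lit 302) (nat_lit 10) (.n (nat_lit 303) (nat_lit 10) (.n (nat_lit 304) (nat_lit 1) (.n (nat_lit 305) (nat_lit 6) (.n (nat_lit 306) (nat_lit 2) (.p (nat_lit 307) (nat_lit 1) (.p (nat_lit 308) (nat_lit 16) (.p (nat_lit 309) (nat_lit 1) (.n (nat_lit 310) (nat_lit 14) (.n (nat_lit 311) (nat_lit 5) (.p (nat_lit 312) (nat_lit 6) (.p (nat_lit 313) (nat_lit 29) (.n (nat_lit 314) (nat_lit 4) (.p (nat_lit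 315) (nat_lit 2) (.p (nat_lit 316) (nat_lit 27) (.p (nat_lit 317) (nat_lit 7) (.p (nat_lit 318) (nat_lit 18) (.p (nat_lit 319) (nat_lit 9) (.n (nat_lit 320) (nat_lit 2) (.p (nat_lit 321) (nat_lit 1) (.n (nat_lit 322) (nat_lit 5) (.n (nat_lit 323) (nat_lit 10) (.p (nat_lit 324) (nat_lit 3) (.p (nat_lit 325) (nat_lit 6) (.n (nat_lit 326) (nat_lit 7) (.n (nat_lit 327) (nat_lit 16) (.p (nat_lit 328) (nat_lit 3) (.p (nat_lit 329) (nat_lit 2) (.p (nat_lit 331) (nat_lit 10) (.p (nat_lit 332) (nat_lit 3) (.n (nat_lit 334) (nat_lit 4) (.p (nat_lit 335) (nat_lit 2) (.p (nat_lit 336) (nat_lit 4) (.p (nat_lit 337) (nat_lit 2) (.n (nat_lit 338) (nat_lit 3) (.n (nat_lit 339) (nat_lit 1) (.n (nat_lit 340) (nat_lit 9) (.n (nat_lit 341) (nat_lit 2) (.n (nat_lit 342) (nat_lit 20) (.n (nat_lit 343) (nat_lit 4) (.p (nat_lit 344) (nat_lit 10) (.p (nat_lit 345) (nat_lit 12) (.p (nat_lit 346) (nat_lit 1) (.p (nat_lit 347) (nat_lit 2)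 (.p (nat_lit 348) (nat_lit 27) (.n (nat_lit 349) (nat_lit 17) (.p (nat_lit 350) (nat_lit 15) (.p (nat_lit 351) (nat_lit 19) (.p (nat_lit 352) (nat_lit 11) (.n (nat_lit 353) (nat_lit 3) (.n (nat_lit 354) (nat_lit 13) (.p (nat_lit 355) (nat_lit 30) (.p (nat_lit 356) (nat_lit 5) (.n (nat_lit 357) (nat_lit 5) (.n (nat_lit 359) (nat_lit 6) (.n (nat_lit 360) (nat_lit 10) .z)))))))))))))))))))))))))))))))))))))))))))))))))))))))))))) (.u (nat_lit 2) (.p (nat_lit 361) (nat_lit 23) (.n (nat_lit 362) (nat_lit 9) (.p (nat_lit 363) (nat_lit 7) (.p (nat_lit 364) (nat_lit 13) (.n (nat_lit 365) (nat_lit 2) (.p (nat_lit 366) (nat_lit 15) (.p (nat_lit 367) (nat_lit 7) (.p (nat_lit 368) (nat_lit 4) (.n (nat_lit 369) (nat_lit 6) (.p (nat_lit 370) (nat_lit 10) (.p (nat_lit 371) (nat_lit 10) (.p (nat_lit 372) (nat_lit 10) (.n (nat_lit 373) (nat_lit 2) (.n (nat_lit 374) (nat_lit 8) (.n (nat_lit 375) (nat_lit 4) (.n (nat_lit 376) (nat_lit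 8) (.n (nat_lit 377) (nat_lit 1) (.n (nat_lit 378) (nat_lit 3) (.n (nat_lit 379) (nat_lit 3) (.n (nat_lit 380) (nat_lit 3) (.p (nat_lit 382) (nat_lit 11) (.p (nat_lit 383) (nat_lit 16) (.n (nat_lit 384) (nat_lit 1) (.n (nat_lit 385) (nat_lit 11) (.p (nat_lit 386) (nat_lit 3) (.n (nat_lit 387) (nat_lit 2) (.p (nat_lit 388) (nat_lit 5) (.n (nat_lit 389) (nat_lit 12) (.n (nat_lit 390) (nat_lit 9) (.p (nat_lit 391) (nat_lit 3) (.n (nat_lit 392) (nat_lit 4) (.p (nat_lit 393) (nat_lit 6) (.n (nat_lit 394) (nat_lit 1) (.p (nat_lit 395) (nat_lit 2) (.n (nat_lit 396) (nat_lit 3) (.n (nat_lit 397) (nat_lit 6) (.p (nat_lit 398) (nat_lit 13) (.n (nat_lit 399) (nat_lit 4) (.p (nat_lit 400) (nat_lit 1) (.n (nat_lit 401) (nat_lit 2) .z)))))))))))))))))))))))))))))))))))))))) .nil)))))))))))))))))))))))))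

noncomputable def dC2d_i384 : IL := (.e true (nat_lit 1) (nat_lit 213) (nat_lit 2) (nat_lit 16) (.e false (nat_lit 2) (nat_lit 209) (nat_lit 2) (nat_lit 16) (.e true (nat_lit 2) (nat_lit 212) (nat_lit 2) (nat_lit 16) (.e false (nat_lit 3) (nat_lit 230) (nat_lit 2) (nat_lit 16) (.e true (nat_lit 1) (nat_lit 234) (nat_lit 2) (nat_lit 16) (.e false (nat_lit 1) (nat_lit 246) (nat_lit 2) (nat_lit 16) (.e false (nat_lit 1) (nat_lit 252) (nat_lit 1) (nat_lit 17) (.e true (nat_lit 2) (nat_lit 253) (nat_lit 1) (nat_lit 17) (.e true (nat_lit 3) (nat_lit 254) (nat_lit 1) (nat_lit 17) (.e false (nat_lit 1) (nat_lit 258) (nat_lit 1) (nat_lit 17) (.e true (nat_lit 2) (nat_lit 263) (nat_lit 1) (nat_lit 17) (.e true (nat_lit 2) (nat_lit 269) (nat_lit 1) (nat_lit 17) (.e false (nat_lit 3) (nat_lit 271) (nat_lit 1) (nat_lit 17) (.e true (nat_lit 2) (nat_lit 272) (nat_lit 1) (nat_lit 17) (.e true (nat_lit 1) (nat_lit 273) (nat_lit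 1) (nat_lit 17) (.e true (nat_lit 3) (nat_lit 276) (nat_lit 1) (nat_lit 17) (.e true (nat_lit 3) (nat_lit 255) (nat_lit 1) (nat_lit 17) (.e true (nat_lit 3) (nat_lit 262) (nat_lit 1) (nat_lit 17) (.e true (nat_lit 3) (nat_lit 266) (nat_lit 1) (nat_lit 17) (.e true (nat_lit 2) (nat_lit 298) (nat_lit 0) (nat_lit 18) (.e false (nat_lit 3) (nat_lit 278) (nat_lit 1) (nat_lit 17) (.e true (nat_lit 2) (nat_lit 229) (nat_lit 2) (nat_lit 16) (.e true (nat_lit 3) (nat_lit 250) (nat_lit 2) (nat_lit 16) (.e false (nat_lit 1) (nat_lit 207) (nat_lit 2) (nat_lit 16) (.e false (nat_lit 2) (nat_lit 233) (nat_lit 2) (nat_lit 16) dC2d_i383)))))))))))))))))))))))))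

noncomputable def dC2d_i385 : IL := (.s false (nat_lit 1) (nat_lit 91) (nat_lit 1) (nat_lit 2) (nat_lit 0) true (nat_lit 15) true (nat_lit 18) false (nat_lit 8) true (nat_lit 17) true (nat_lit 16) (.s true (nat_lit 3) (nat_lit 92) (nat_lit 1) (nat_lit 2) (nat_lit 0) true (nat_lit 15) true (nat_lit 18) false (nat_lit 8) true (nat_lit 17) true (nat_lit 16) (.s true (nat_lit 3) (nat_lit 93) (nat_lit 1) (nat_lit 2) (nat_lit 0) true (nat_lit 15) true (nat_lit 18) false (nat_lit 8) true (nat_lit 17) true (nat_lit 16) (.s true (nat_lit 3) (nat_lit 95) (nat_lit 1) (nat_lit 2) (nat_lit 0) true (nat_lit 15) true (nat_lit 18) false (nat_lit 8) true (nat_lit 17) true (nat_lit 16) (.s true (nat_lit 1) (nat_lit 96) (nat_lit 1) (nat_lit 2) (nat_lit 0) true (nat_lit 15) true (nat_lit 18) false (nat_lit 8) true (nat_lit 17) true (nat_lit 16) (.s true (nat_lit 2) (nat_lit 92) (nat_lit 2) (nat_lit 1) (nat_lit 0) true (nat_lit 13)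 true (nat_lit 18) false (nat_lit 8) true (nat_lit 16) true (nat_lit 17) (.s false (nat_lit 1) (nat_lit 93) (nat_lit 2) (nat_lit 1) (nat_lit 0) true (nat_lit 13) true (nat_lit 18) false (nat_lit 8) true (nat_lit 16) true (nat_lit 17) (.s false (nat_lit 3) (nat_lit 96) (nat_lit 2) (nat_lit 1) (nat_lit 0) true (nat_lit 13) true (nat_lit 18) false (nat_lit 8) true (nat_lit 16) true (nat_lit 17) (.s false (nat_lit 3) (nat_lit 101) (nat_lit 0) (nat_lit 1) (nat_lit 1) true (nat_lit 15) true (nat_lit 17) false (nat_lit 10) true (nat_lit 18) true (nat_lit 17) (.s true (nat_lit 3) (nat_lit 102) (nat_lit 0) (nat_lit 1) (nat_lit 1) true (nat_lit 15) true (nat_lit 17) false (nat_lit 10) true (nat_lit 18) true (nat_lit 17) (.s false (nat_lit 2) (nat_lit 103) (nat_lit 0) (nat_lit 1) (nat_lit 1) true (nat_lit 15) true (nat_lit 17) false (nat_lit 10) true (nat_lit 18) true (nat_lit 17) (.s true (nat_lit 3) (nat_lit 101) (nat_lit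 1) (nat_lit 1) (nat_lit 0) true (nat_lit 15) true (nat_lit 18) false (nat_lit 10) true (nat_lit 17) true (nat_lit 17) (.s true (nat_lit 1) (nat_lit 102) (nat_lit 1) (nat_lit 1) (nat_lit 0) true (nat_lit 15) true (nat_lit 18) false (nat_lit 10) true (nat_lit 17) true (nat_lit 17) (.s false (nat_lit 2) (nat_lit 103) (nat_lit 1) (nat_lit 1) (nat_lit 0) true (nat_lit 15) true (nat_lit 18) false (nat_lit 10) true (nat_lit 17) true (nat_lit 17) (.e true (nat_lit 2) (nat_lit 129) (nat_lit 7) (nat_lit 11) (.e false (nat_lit 2) (nat_lit 144) (nat_lit 6) (nat_lit 12) (.e true (nat_lit 3) (nat_lit 205) (nat_lit 2) (nat_lit 16) (.e false (nat_lit 3) (nat_lit 208) (nat_lit 2) (nat_lit 16) (.e true (nat_lit 2) (nat_lit 227) (nat_lit 2) (nat_lit 16) (.e true (nat_lit 2) (nat_lit 134) (nat_lit 6) (nat_lit 12) (.e true (nat_lit 2) (nat_lit 138) (nat_lit 6) (nat_lit 12) (.e false (nat_lit 3) (nat_lit 231) (nat_lit 2) (nat_lit 16)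 (.e false (nat_lit 1) (nat_lit 206) (nat_lit 2) (nat_lit 16) (.e false (nat_lit 2) (nat_lit 210) (nat_lit 2) (nat_lit 16) (.e false (nat_lit 2) (nat_lit 211) (nat_lit 2) (nat_lit 16) dC2d_i384)))))))))))))))))))))))))

noncomputable def dC2d_i386 : IL := (.s false (nat_lit 2) (nat_lit 69) (nat_lit 2) (nat_lit 1) (nat_lit 2) true (nat_lit 11) true (nat_lit 16) false (nat_lit 5) true (nat_lit 16) true (nat_lit 17) (.s false (nat_lit 3) (nat_lit 73) (nat_lit 2) (nat_lit 1) (nat_lit 2) true (nat_lit 11) true (nat_lit 16) false (nat_lit 5) true (nat_lit 16) true (nat_lit 17) (.s true (nat_lit 1) (nat_lit 60) (nat_lit 2) (nat_lit 2) (nat_lit 1) true (nat_lit 12) true (nat_lit 17) false (nat_lit 5) true (nat_lit 16) true (nat_lit 16) (.s false (nat_lit 1) (nat_lit 63) (nat_lit 2) (nat_lit 2) (nat_lit 1) true (nat_lit 12) true (nat_lit 17) false (nat_lit 5) true (nat_lit 16) true (nat_lit 16) (.s true (nat_lit 3) (nat_lit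 64) (nat_lit 2) (nat_lit 2) (nat_lit 1) true (nat_lit 12) true (nat_lit 17) false (nat_lit 5) true (nat_lit 16) true (nat_lit 16) (.s true (nat_lit 1) (nat_lit 65) (nat_lit 2) (nat_lit 2) (nat_lit 1) true (nat_lit 12) true (nat_lit 17) false (nat_lit 5) true (nat_lit 16) true (nat_lit 16) (.s true (nat_lit 3) (nat_lit 66) (nat_lit 2) (nat_lit 2) (nat_lit 1) true (nat_lit 12) true (nat_lit 17) false (nat_lit 5) true (nat_lit 16) true (nat_lit 16) (.s true (nat_lit 3) (nat_lit 67) (nat_lit 2) (nat_lit 2) (nat_lit 1) true (nat_lit 12) true (nat_lit 17) false (nat_lit 5) true (nat_lit 16) true (nat_lit 16) (.s false (nat_lit 3) (nat_lit 68) (nat_lit 2) (nat_lit 2) (nat_lit 1) true (nat_lit 12) true (nat_lit 17) false (nat_lit 5) true (nat_lit 16) true (nat_lit 16) (.s false (nat_lit 1) (nat_lit 69) (nat_lit 2) (nat_lit 2) (nat_lit 1) true (nat_lit 12) true (nat_lit 17) false (nat_lit 5) true (nat_lit 16) true (nat_lit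 16) (.s true (nat_lit 1) (nat_lit 71) (nat_lit 2) (nat_lit 2) (nat_lit 1) true (nat_lit 12) true (nat_lit 17) false (nat_lit 5) true (nat_lit 16) true (nat_lit 16) (.s false (nat_lit 2) (nat_lit 72) (nat_lit 2) (nat_lit 2) (nat_lit 1) true (nat_lit 12) true (nat_lit 17) false (nat_lit 5) true (nat_lit 16) true (nat_lit 16) (.s true (nat_lit 3) (nat_lit 73) (nat_lit 2) (nat_lit 2) (nat_lit 1) true (nat_lit 12) true (nat_lit 17) false (nat_lit 5) true (nat_lit 16) true (nat_lit 16) (.s false (nat_lit 3) (nat_lit 74) (nat_lit 0) (nat_lit 2) (nat_lit 2) true (nat_lit 13) true (nat_lit 16) false (nat_lit 6) true (nat_lit 18) true (nat_lit 16) (.s true (nat_lit 3) (nat_lit 79) (nat_lit 2) (nat_lit 2) (nat_lit 0) true (nat_lit 13) true (nat_lit 18) false (nat_lit 6) true (nat_lit 16) true (nat_lit 16) (.s true (nat_lit 1) (nat_lit 88) (nat_lit 1) (nat_lit 1) (nat_lit 2) true (nat_lit 12) true (nat_lit 16) false (nat_lit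 7) true (nat_lit 17) true (nat_lit 17) (.s false (nat_lit 1) (nat_lit 81) (nat_lit 1) (nat_lit 2) (nat_lit 1) true (nat_lit 14) true (nat_lit 17) false (nat_lit 7) true (nat_lit 17) true (nat_lit 16) (.s false (nat_lit 3) (nat_lit 84) (nat_lit 1) (nat_lit 2) (nat_lit 1) true (nat_lit 14) true (nat_lit 17) false (nat_lit 7) true (nat_lit 17) true (nat_lit 16) (.s true (nat_lit 1) (nat_lit 85) (nat_lit 1) (nat_lit 2) (nat_lit 1) true (nat_lit 14) true (nat_lit 17) false (nat_lit 7) true (nat_lit 17) true (nat_lit 16) (.s true (nat_lit 2) (nat_lit 80) (nat_lit 2) (nat_lit 1) (nat_lit 1) true (nat_lit 12) true (nat_lit 17) false (nat_lit 7) true (nat_lit 16) true (nat_lit 17) (.s false (nat_lit 2) (nat_lit 88) (nat_lit 2) (nat_lit 1) (nat_lit 1) true (nat_lit 12) true (nat_lit 17) false (nat_lit 7) true (nat_lit 16) true (nat_lit 17) (.s true (nat_lit 2) (nat_lit 92) (nat_lit 0) (nat_lit 1) (nat_lit 2) true (nat_lit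 13) true (nat_lit 16) false (nat_lit 8) true (nat_lit 18) true (nat_lit 17) (.s false (nat_lit 2) (nat_lit 93) (nat_lit 0) (nat_lit 1) (nat_lit 2) true (nat_lit 13) true (nat_lit 16) false (nat_lit 8) true (nat_lit 18) true (nat_lit 17) (.s true (nat_lit 3) (nat_lit 96) (nat_lit 0) (nat_lit 1) (nat_lit 2) true (nat_lit 13) true (nat_lit 16) false (nat_lit 8) true (nat_lit 18) true (nat_lit 17) (.s true (nat_lit 1) (nat_lit 94) (nat_lit 0) (nat_lit 2) (nat_lit 1) true (nat_lit 15) true (nat_lit 17) false (nat_lit 8) true (nat_lit 18) true (nat_lit 16) dC2d_i385)))))))))))))))))))))))))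

noncomputable def dC2d_i387 : IL := (.s false (nat_lit 2) (nat_lit 48) (nat_lit 3) (nat_lit 1) (nat_lit 1) true (nat_lit 10) true (nat_lit 17) false (nat_lit 3) true (nat_lit 15) true (nat_lit 17) (.s false (nat_lit 2) (nat_lit 48) (nat_lit 4) (nat_lit 0) (nat_lit 1) true (nat_lit 9) true (nat_lit 17) false (nat_lit 3) true (nat_lit 14) true (nat_lit 18) (.s true (nat_lit 2) (nat_lit 52) (nat_lit 2) (nat_lit 2) (nat_lit 2) true (nat_lit 11) true (nat_lit 16) false (nat_lit 4) true (nat_lit 16) true (nat_lit 16) (.s false (nat_lit 3) (nat_lit 53) (nat_lit 2) (nat_lit 2) (nat_lit 2) true (nat_lit 11) true (nat_lit 16) false (nat_lit 4) true (nat_lit 16) true (nat_lit 16) (.s true (nat_lit 2) (nat_lit 54) (nat_lit 2) (nat_lit 2) (nat_lit 2) true (nat_lit 11) true (nat_lit 16) false (nat_lit 4) true (nat_lit 16) true (nat_lit 16) (.s true (nat_lit 2) (nat_lit 55) (nat_lit 2) (nat_lit 2) (nat_lit 2) true (nat_lit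 11) true (nat_lit 16) false (nat_lit 4) true (nat_lit 16) true (nat_lit 16) (.s true (nat_lit 2) (nat_lit 56) (nat_lit 2) (nat_lit 2) (nat_lit 2) true (nat_lit 11) true (nat_lit 16) false (nat_lit 4) true (nat_lit 16) true (nat_lit 16) (.s true (nat_lit 3) (nat_lit 57) (nat_lit 2) (nat_lit 2) (nat_lit 2) true (nat_lit 11) true (nat_lit 16) false (nat_lit 4) true (nat_lit 16) true (nat_lit 16) (.s false (nat_lit 2) (nat_lit 58) (nat_lit 2) (nat_lit 2) (nat_lit 2) true (nat_lit 11) true (nat_lit 16) false (nat_lit 4) true (nat_lit 16) true (nat_lit 16) (.s false (nat_lit 2) (nat_lit 59) (nat_lit 2) (nat_lit 2) (nat_lit 2) true (nat_lit 11) true (nat_lit 16) false (nat_lit 4) true (nat_lit 16) true (nat_lit 16) (.s true (nat_lit 3) (nat_lit 60) (nat_lit 1) (nat_lit 2) (nat_lit 2) true (nat_lit 12) true (nat_lit 16) false (nat_lit 5) true (nat_lit 17) true (nat_lit 16) (.s true (nat_lit 3) (nat_lit 62) (nat_lit 1)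 (nat_lit 2) (nat_lit 2) true (nat_lit 12) true (nat_lit 16) false (nat_lit 5) true (nat_lit 17) true (nat_lit 16) (.s false (nat_lit 2) (nat_lit 63) (nat_lit 1) (nat_lit 2) (nat_lit 2) true (nat_lit 12) true (nat_lit 16) false (nat_lit 5) true (nat_lit 17) true (nat_lit 16) (.s false (nat_lit 1) (nat_lit 64) (nat_lit 1) (nat_lit 2) (nat_lit 2) true (nat_lit 12) true (nat_lit 16) false (nat_lit 5) true (nat_lit 17) true (nat_lit 16) (.s true (nat_lit 1) (nat_lit 65) (nat_lit 1) (nat_lit 2) (nat_lit 2) true (nat_lit 12) true (nat_lit 16) false (nat_lit 5) true (nat_lit 17) true (nat_lit 16) (.s true (nat_lit 2) (nat_lit 67) (nat_lit 1) (nat_lit 2) (nat_lit 2) true (nat_lit 12) true (nat_lit 16) false (nat_lit 5) true (nat_lit 17) true (nat_lit 16) (.s false (nat_lit 1) (nat_lit 68) (nat_lit 1) (nat_lit 2) (nat_lit 2) true (nat_lit 12) true (nat_lit 16) false (nat_lit 5) true (nat_lit 17) true (nat_lit 16) (.s true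 (nat_lit 2) (nat_lit 69) (nat_lit 1) (nat_lit 2) (nat_lit 2) true (nat_lit 12) true (nat_lit 16) false (nat_lit 5) true (nat_lit 17) true (nat_lit 16) (.s true (nat_lit 1) (nat_lit 71) (nat_lit 1) (nat_lit 2) (nat_lit 2) true (nat_lit 12) true (nat_lit 16) false (nat_lit 5) true (nat_lit 17) true (nat_lit 16) (.s true (nat_lit 3) (nat_lit 72) (nat_lit 1) (nat_lit 2) (nat_lit 2) true (nat_lit 12) true (nat_lit 16) false (nat_lit 5) true (nat_lit 17) true (nat_lit 16) (.s true (nat_lit 2) (nat_lit 73) (nat_lit 1) (nat_lit 2) (nat_lit 2) true (nat_lit 12) true (nat_lit 16) false (nat_lit 5) true (nat_lit 17) true (nat_lit 16) (.s true (nat_lit 3) (nat_lit 61) (nat_lit 2) (nat_lit 1) (nat_lit 2) true (nat_lit 11) true (nat_lit 16) false (nat_lit 5) true (nat_lit 16) true (nat_lit 17) (.s true (nat_lit 2) (nat_lit 63) (nat_lit 2) (nat_lit 1) (nat_lit 2) true (nat_lit 11) true (nat_lit 16) false (nat_lit 5) true (nat_lit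 16) true (nat_lit 17) (.s true (nat_lit 1) (nat_lit 64) (nat_lit 2) (nat_lit 1) (nat_lit 2) true (nat_lit 11) true (nat_lit 16) false (nat_lit 5) true (nat_lit 16) true (nat_lit 17) (.s false (nat_lit 2) (nat_lit 65) (nat_lit 2) (nat_lit 1) (nat_lit 2) true (nat_lit 11) true (nat_lit 16) false (nat_lit 5) true (nat_lit 16) true (nat_lit 17) dC2d_i386)))))))))))))))))))))))))

noncomputable def dC2d_i388 : IL := (.s true (nat_lit 1) (nat_lit 34) (nat_lit 1) (nat_lit 6) (nat_lit 2) true (nat_lit 12) true (nat_lit 16) true (nat_lit 0) true (nat_lit 17) true (nat_lit 12) (.s false (nat_lit 3) (nat_lit 33) (nat_lit 1) (nat_lit 7) (nat_lit 1) true (nat_lit 14) true (nat_lit 17) true (nat_lit 0) true (nat_lit 17) true (nat_lit 11) (.s false (nat_lit 3) (nat_lit 34) (nat_lit 2) (nat_lit 1) (nat_lit 6) true (nat_lit 5) true (nat_lit 12) true (nat_lit 0) true (nat_lit 16) true (nat_lit 17) (.s true (nat_lit 3) (nat_lit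 37) (nat_lit 2) (nat_lit 2) (nat_lit 4) true (nat_lit 7) true (nat_lit 14) true (nat_lit 0) true (nat_lit 16) true (nat_lit 16) (.s false (nat_lit 1) (nat_lit 38) (nat_lit 2) (nat_lit 2) (nat_lit 4) true (nat_lit 7) true (nat_lit 14) true (nat_lit 0) true (nat_lit 16) true (nat_lit 16) (.s true (nat_lit 3) (nat_lit 33) (nat_lit 2) (nat_lit 6) (nat_lit 1) true (nat_lit 12) true (nat_lit 17) true (nat_lit 0) true (nat_lit 16) true (nat_lit 12) (.s true (nat_lit 2) (nat_lit 35) (nat_lit 4) (nat_lit 2) (nat_lit 2) true (nat_lit 7) true (nat_lit 16) true (nat_lit 0) true (nat_lit 14) true (nat_lit 16) (.s false (nat_lit 2) (nat_lit 34) (nat_lit 6) (nat_lit 1) (nat_lit 2) true (nat_lit 5) true (nat_lit 16) true (nat_lit 0) true (nat_lit 12) true (nat_lit 17) (.s false (nat_lit 3) (nat_lit 33) (nat_lit 6) (nat_lit 2) (nat_lit 1) true (nat_lit 7) true (nat_lit 17) true (nat_lit 0) true (nat_lit 12) true (nat_lit 16) (.s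 true (nat_lit 2) (nat_lit 34) (nat_lit 6) (nat_lit 2) (nat_lit 1) true (nat_lit 7) true (nat_lit 17) true (nat_lit 0) true (nat_lit 12) true (nat_lit 16) (.s true (nat_lit 2) (nat_lit 33) (nat_lit 7) (nat_lit 1) (nat_lit 1) true (nat_lit 5) true (nat_lit 17) true (nat_lit 0) true (nat_lit 11) true (nat_lit 17) (.s false (nat_lit 3) (nat_lit 41) (nat_lit 0) (nat_lit 2) (nat_lit 6) true (nat_lit 8) true (nat_lit 12) false (nat_lit 0) true (nat_lit 18) true (nat_lit 16) (.s false (nat_lit 3) (nat_lit 40) (nat_lit 1) (nat_lit 5) (nat_lit 2) true (nat_lit 12) true (nat_lit 16) false (nat_lit 0) true (nat_lit 17) true (nat_lit 13) (.s true (nat_lit 3) (nat_lit 41) (nat_lit 2) (nat_lit 1) (nat_lit 5) true (nat_lit 6) true (nat_lit 13) false (nat_lit 0) true (nat_lit 16) true (nat_lit 17) (.s false (nat_lit 1) (nat_lit 39) (nat_lit 2) (nat_lit 3) (nat_lit 2) true (nat_lit 11) true (nat_lit 16) false (nat_lit 0) true (nat_lit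 16) true (nat_lit 15) (.s true (nat_lit 3) (nat_lit 41) (nat_lit 2) (nat_lit 6) (nat_lit 0) true (nat_lit 13) true (nat_lit 18) false (nat_lit 0) true (nat_lit 16) true (nat_lit 12) (.s false (nat_lit 3) (nat_lit 41) (nat_lit 5) (nat_lit 1) (nat_lit 2) true (nat_lit 6) true (nat_lit 16) false (nat_lit 0) true (nat_lit 13) true (nat_lit 17) (.s false (nat_lit 3) (nat_lit 40) (nat_lit 6) (nat_lit 2) (nat_lit 0) true (nat_lit 8) true (nat_lit 18) false (nat_lit 0) true (nat_lit 12) true (nat_lit 16) (.s false (nat_lit 3) (nat_lit 46) (nat_lit 1) (nat_lit 2) (nat_lit 3) true (nat_lit 10) true (nat_lit 15) false (nat_lit 2) true (nat_lit 17) true (nat_lit 16) (.s true (nat_lit 2) (nat_lit 46) (nat_lit 1) (nat_lit 3) (nat_lit 2) true (nat_lit 12) true (nat_lit 16) false (nat_lit 2) true (nat_lit 17) true (nat_lit 15) (.s true (nat_lit 2) (nat_lit 47) (nat_lit 1) (nat_lit 3) (nat_lit 2) true (nat_lit 12) true (nat_lit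 16) false (nat_lit 2) true (nat_lit 17) true (nat_lit 15) (.s true (nat_lit 3) (nat_lit 46) (nat_lit 2) (nat_lit 3) (nat_lit 1) true (nat_lit 12) true (nat_lit 17) false (nat_lit 2) true (nat_lit 16) true (nat_lit 15) (.s true (nat_lit 3) (nat_lit 47) (nat_lit 5) (nat_lit 1) (nat_lit 1) true (nat_lit 8) true (nat_lit 17) false (nat_lit 2) true (nat_lit 13) true (nat_lit 17) (.s true (nat_lit 1) (nat_lit 46) (nat_lit 6) (nat_lit 0) (nat_lit 1) true (nat_lit 7) true (nat_lit 17) false (nat_lit 2) true (nat_lit 12) true (nat_lit 18) (.s false (nat_lit 3) (nat_lit 46) (nat_lit 6) (nat_lit 1) (nat_lit 0) true (nat_lit 8) true (nat_lit 18) false (nat_lit 2) true (nat_lit 12) true (nat_lit 17) dC2d_i387)))))))))))))))))))))))))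

noncomputable def dC2d_i389 : IL := (.s true (nat_lit 1) (nat_lit 25) (nat_lit 1) (nat_lit 7) (nat_lit 2) true (nat_lit 12) true (nat_lit 16) true (nat_lit 2) true (nat_lit 17) true (nat_lit 11) (.s false (nat_lit 2) (nat_lit 26) (nat_lit 1) (nat_lit 7) (nat_lit 2) true (nat_lit 12) true (nat_lit 16) true (nat_lit 2) true (nat_lit 17) true (nat_lit 11) (.s false (nat_lit 1) (nat_lit 28) (nat_lit 2) (nat_lit 1) (nat_lit 7) true (nat_lit 4) true (nat_lit 11) true (nat_lit 2) true (nat_lit 16) true (nat_lit 17) (.s false (nat_lit 2) (nat_lit 29) (nat_lit 2) (nat_lit 1) (nat_lit 7) true (nat_lit 4) true (nat_lit 11) true (nat_lit 2) true (nat_lit 16) true (nat_lit 17) (.s true (nat_lit 1) (nat_lit 24) (nat_lit 2) (nat_lit 2) (nat_lit 6) true (nat_lit 5) true (nat_lit 12) true (nat_lit 2) true (nat_lit 16) true (nat_lit 16) (.s true (nat_lit 3) (nat_lit 26) (nat_lit 2) (nat_lit 2) (nat_lit 6) true (nat_lit 5) true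 (nat_lit 12) true (nat_lit 2) true (nat_lit 16) true (nat_lit 16) (.s true (nat_lit 1) (nat_lit 27) (nat_lit 2) (nat_lit 2) (nat_lit 6) true (nat_lit 5) true (nat_lit 12) true (nat_lit 2) true (nat_lit 16) true (nat_lit 16) (.s false (nat_lit 2) (nat_lit 29) (nat_lit 2) (nat_lit 2) (nat_lit 6) true (nat_lit 5) true (nat_lit 12) true (nat_lit 2) true (nat_lit 16) true (nat_lit 16) (.s true (nat_lit 2) (nat_lit 25) (nat_lit 2) (nat_lit 6) (nat_lit 2) true (nat_lit 11) true (nat_lit 16) true (nat_lit 2) true (nat_lit 16) true (nat_lit 12) (.s false (nat_lit 2) (nat_lit 29) (nat_lit 2) (nat_lit 6) (nat_lit 2) true (nat_lit 11) true (nat_lit 16) true (nat_lit 2) true (nat_lit 16) true (nat_lit 12) (.s true (nat_lit 1) (nat_lit 24) (nat_lit 6) (nat_lit 2) (nat_lit 2) true (nat_lit 5) true (nat_lit 16) true (nat_lit 2) true (nat_lit 12) true (nat_lit 16) (.s true (nat_lit 1) (nat_lit 25) (nat_lit 6) (nat_lit 2) (nat_lit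 2) true (nat_lit 5) true (nat_lit 16) true (nat_lit 2) true (nat_lit 12) true (nat_lit 16) (.s false (nat_lit 3) (nat_lit 27) (nat_lit 6) (nat_lit 2) (nat_lit 2) true (nat_lit 5) true (nat_lit 16) true (nat_lit 2) true (nat_lit 12) true (nat_lit 16) (.s false (nat_lit 2) (nat_lit 29) (nat_lit 6) (nat_lit 2) (nat_lit 2) true (nat_lit 5) true (nat_lit 16) true (nat_lit 2) true (nat_lit 12) true (nat_lit 16) (.s false (nat_lit 1) (nat_lit 25) (nat_lit 7) (nat_lit 2) (nat_lit 1) true (nat_lit 5) true (nat_lit 17) true (nat_lit 2) true (nat_lit 11) true (nat_lit 16) (.s false (nat_lit 2) (nat_lit 26) (nat_lit 7) (nat_lit 2) (nat_lit 1) true (nat_lit 5) true (nat_lit 17) true (nat_lit 2) true (nat_lit 11) true (nat_lit 16) (.s false (nat_lit 1) (nat_lit 30) (nat_lit 0) (nat_lit 2) (nat_lit 7) true (nat_lit 6) true (nat_lit 11) true (nat_lit 1) true (nat_lit 18) true (nat_lit 16) (.s false (nat_lit 2) (nat_lit 30) (nat_lit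 2) (nat_lit 0) (nat_lit 7) true (nat_lit 4) true (nat_lit 11) true (nat_lit 1) true (nat_lit 16) true (nat_lit 18) (.s true (nat_lit 3) (nat_lit 30) (nat_lit 2) (nat_lit 2) (nat_lit 5) true (nat_lit 6) true (nat_lit 13) true (nat_lit 1) true (nat_lit 16) true (nat_lit 16) (.s true (nat_lit 3) (nat_lit 37) (nat_lit 1) (nat_lit 1) (nat_lit 7) true (nat_lit 5) true (nat_lit 11) true (nat_lit 0) true (nat_lit 17) true (nat_lit 17) (.s true (nat_lit 1) (nat_lit 38) (nat_lit 1) (nat_lit 1) (nat_lit 7) true (nat_lit 5) true (nat_lit 11) true (nat_lit 0) true (nat_lit 17) true (nat_lit 17) (.s false (nat_lit 1) (nat_lit 35) (nat_lit 1) (nat_lit 2) (nat_lit 6) true (nat_lit 7) true (nat_lit 12) true (nat_lit 0) true (nat_lit 17) true (nat_lit 16) (.s true (nat_lit 3) (nat_lit 37) (nat_lit 1) (nat_lit 2) (nat_lit 6) true (nat_lit 7) true (nat_lit 12) true (nat_lit 0) true (nat_lit 17) true (nat_lit 16) (.s false (nat_lit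 1) (nat_lit 38) (nat_lit 1) (nat_lit 2) (nat_lit 6) true (nat_lit 7) true (nat_lit 12) true (nat_lit 0) true (nat_lit 17) true (nat_lit 16) (.s false (nat_lit 2) (nat_lit 33) (nat_lit 1) (nat_lit 6) (nat_lit 2) true (nat_lit 12) true (nat_lit 16) true (nat_lit 0) true (nat_lit 17) true (nat_lit 12) dC2d_i388)))))))))))))))))))))))))

noncomputable def dC2d_i390 : IL := (.s true (nat_lit 2) (nat_lit 19) (nat_lit 9) (nat_lit 2) (nat_lit 2) true (nat_lit 2) true (nat_lit 16) true (nat_lit 5) true (nat_lit 10) true (nat_lit 16) (.s false (nat_lit 1) (nat_lit 19) (nat_lit 11) (nat_lit 2) (nat_lit 1) true (nat_lit 2) true (nat_lit 17) true (nat_lit 5) true (nat_lit 8) true (nat_lit 16) (.s true (nat_lit 1) (nat_lit 18) (nat_lit 15) (nat_lit 0) (nat_lit 2) false (nat_lit 0) true (nat_lit 16) true (nat_lit 5) true (nat_lit 7) true (nat_lit 18) (.s true (nat_lit 2) (nat_lit 20) (nat_lit 0) (nat_lit 2) (nat_lit 10) true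 (nat_lit 3) true (nat_lit 9) true (nat_lit 4) true (nat_lit 18) true (nat_lit 16) (.s true (nat_lit 3) (nat_lit 20) (nat_lit 0) (nat_lit 14) (nat_lit 1) true (nat_lit 15) true (nat_lit 17) true (nat_lit 4) true (nat_lit 18) true (nat_lit 7) (.s false (nat_lit 2) (nat_lit 20) (nat_lit 1) (nat_lit 8) (nat_lit 2) true (nat_lit 12) true (nat_lit 16) true (nat_lit 4) true (nat_lit 17) true (nat_lit 10) (.s false (nat_lit 3) (nat_lit 20) (nat_lit 1) (nat_lit 12) (nat_lit 1) true (nat_lit 14) true (nat_lit 17) true (nat_lit 4) true (nat_lit 17) true (nat_lit 8) (.s false (nat_lit 1) (nat_lit 20) (nat_lit 2) (nat_lit 1) (nat_lit 8) true (nat_lit 2) true (nat_lit 10) true (nat_lit 4) true (nat_lit 16) true (nat_lit 17) (.s false (nat_lit 1) (nat_lit 20) (nat_lit 2) (nat_lit 9) (nat_lit 1) true (nat_lit 12) true (nat_lit 17) true (nat_lit 4) true (nat_lit 16) true (nat_lit 10) (.s true (nat_lit 3) (nat_lit 20) (nat_lit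 3) (nat_lit 2) (nat_lit 4) true (nat_lit 3) true (nat_lit 14) true (nat_lit 4) true (nat_lit 15) true (nat_lit 16) (.s false (nat_lit 1) (nat_lit 20) (nat_lit 3) (nat_lit 4) (nat_lit 2) true (nat_lit 8) true (nat_lit 16) true (nat_lit 4) true (nat_lit 15) true (nat_lit 14) (.s true (nat_lit 1) (nat_lit 20) (nat_lit 3) (nat_lit 6) (nat_lit 1) true (nat_lit 10) true (nat_lit 17) true (nat_lit 4) true (nat_lit 15) true (nat_lit 12) (.s true (nat_lit 3) (nat_lit 20) (nat_lit 4) (nat_lit 5) (nat_lit 1) true (nat_lit 9) true (nat_lit 17) true (nat_lit 4) true (nat_lit 14) true (nat_lit 13) (.s false (nat_lit 2) (nat_lit 20) (nat_lit 9) (nat_lit 2) (nat_lit 1) true (nat_lit 3) true (nat_lit 17) true (nat_lit 4) true (nat_lit 10) true (nat_lit 16) (.s false (nat_lit 1) (nat_lit 20) (nat_lit 10) (nat_lit 0) (nat_lit 2) true (nat_lit 1) true (nat_lit 16) true (nat_lit 4) true (nat_lit 9) true (nat_lit 18) (.s true (nat_lit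 2) (nat_lit 20) (nat_lit 11) (nat_lit 1) (nat_lit 1) true (nat_lit 2) true (nat_lit 17) true (nat_lit 4) true (nat_lit 8) true (nat_lit 17) (.s false (nat_lit 1) (nat_lit 20) (nat_lit 13) (nat_lit 1) (nat_lit 1) true (nat_lit 2) true (nat_lit 17) true (nat_lit 4) true (nat_lit 8) true (nat_lit 17) (.s true (nat_lit 1) (nat_lit 21) (nat_lit 2) (nat_lit 2) (nat_lit 7) true (nat_lit 4) true (nat_lit 11) true (nat_lit 3) true (nat_lit 16) true (nat_lit 16) (.s false (nat_lit 3) (nat_lit 22) (nat_lit 2) (nat_lit 2) (nat_lit 7) true (nat_lit 4) true (nat_lit 11) true (nat_lit 3) true (nat_lit 16) true (nat_lit 16) (.s true (nat_lit 1) (nat_lit 23) (nat_lit 2) (nat_lit 2) (nat_lit 7) true (nat_lit 4) true (nat_lit 11) true (nat_lit 3) true (nat_lit 16) true (nat_lit 16) (.s true (nat_lit 2) (nat_lit 21) (nat_lit 2) (nat_lit 7) (nat_lit 2) true (nat_lit 11) true (nat_lit 16) true (nat_lit 3) true (nat_lit 16) true (nat_lit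 11) (.s true (nat_lit 3) (nat_lit 23) (nat_lit 2) (nat_lit 7) (nat_lit 2) true (nat_lit 11) true (nat_lit 16) true (nat_lit 3) true (nat_lit 16) true (nat_lit 11) (.s false (nat_lit 2) (nat_lit 23) (nat_lit 7) (nat_lit 2) (nat_lit 2) true (nat_lit 4) true (nat_lit 16) true (nat_lit 3) true (nat_lit 11) true (nat_lit 16) (.s false (nat_lit 3) (nat_lit 27) (nat_lit 1) (nat_lit 2) (nat_lit 7) true (nat_lit 5) true (nat_lit 11) true (nat_lit 2) true (nat_lit 17) true (nat_lit 16) (.s false (nat_lit 3) (nat_lit 24) (nat_lit 1) (nat_lit 7) (nat_lit 2) true (nat_lit 12) true (nat_lit 16) true (nat_lit 2) true (nat_lit 17) true (nat_lit 11) dC2d_i389)))))))))))))))))))))))))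

noncomputable def dC2d_i391 : IL := (.s false (nat_lit 3) (nat_lit 10) (nat_lit 7) (nat_lit 5) (nat_lit 2) true (nat_lit 4) true (nat_lit 16) true (nat_lit 9) true (nat_lit 11) true (nat_lit 13) (.s false (nat_lit 3) (nat_lit 11) (nat_lit 1) (nat_lit 7) (nat_lit 6) true (nat_lit 7) true (nat_lit 12) true (nat_lit 8) true (nat_lit 17) true (nat_lit 11) (.s true (nat_lit 2) (nat_lit 13) (nat_lit 2) (nat_lit 7) (nat_lit 4) true (nat_lit 7) true (nat_lit 14) true (nat_lit 8) true (nat_lit 16) true (nat_lit 11) (.s true (nat_lit 2) (nat_lit 11) (nat_lit 6) (nat_lit 6) (nat_lit 2) true (nat_lit 5) true (nat_lit 16) true (nat_lit 8) true (nat_lit 12) true (nat_lit 12) (.s false (nat_lit 1) (nat_lit 12) (nat_lit 6) (nat_lit 6) (nat_lit 2) true (nat_lit 5) true (nat_lit 16) true (nat_lit 8) true (nat_lit 12) true (nat_lit 12) (.s true (nat_lit 3) (nat_lit 14) (nat_lit 2) (nat_lit 2) (nat_lit 11) true (nat_lit 0) true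 (nat_lit 8) true (nat_lit 7) true (nat_lit 16) true (nat_lit 16) (.s false (nat_lit 1) (nat_lit 14) (nat_lit 2) (nat_lit 2) (nat_lit 13) true (nat_lit 0) true (nat_lit 8) true (nat_lit 7) true (nat_lit 16) true (nat_lit 16) (.s true (nat_lit 3) (nat_lit 14) (nat_lit 13) (nat_lit 2) (nat_lit 2) true (nat_lit 0) true (nat_lit 16) true (nat_lit 7) true (nat_lit 8) true (nat_lit 16) (.s true (nat_lit 1) (nat_lit 17) (nat_lit 10) (nat_lit 2) (nat_lit 2) true (nat_lit 1) true (nat_lit 16) true (nat_lit 6) true (nat_lit 9) true (nat_lit 16) (.s false (nat_lit 1) (nat_lit 18) (nat_lit 0) (nat_lit 15) (nat_lit 2) true (nat_lit 13) true (nat_lit 16) true (nat_lit 5) true (nat_lit 18) true (nat_lit 7) (.s false (nat_lit 3) (nat_lit 18) (nat_lit 1) (nat_lit 2) (nat_lit 12) true (nat_lit 2) true (nat_lit 8) true (nat_lit 5) true (nat_lit 17) true (nat_lit 16) (.s true (nat_lit 1) (nat_lit 19) (nat_lit 1) (nat_lit 3) (nat_lit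 7) true (nat_lit 5) true (nat_lit 11) true (nat_lit 5) true (nat_lit 17) true (nat_lit 15) (.s true (nat_lit 1) (nat_lit 18) (nat_lit 1) (nat_lit 11) (nat_lit 2) true (nat_lit 12) true (nat_lit 16) true (nat_lit 5) true (nat_lit 17) true (nat_lit 8) (.s true (nat_lit 1) (nat_lit 18) (nat_lit 1) (nat_lit 12) (nat_lit 2) true (nat_lit 12) true (nat_lit 16) true (nat_lit 5) true (nat_lit 17) true (nat_lit 8) (.s true (nat_lit 3) (nat_lit 19) (nat_lit 1) (nat_lit 11) (nat_lit 2) true (nat_lit 12) true (nat_lit 16) true (nat_lit 5) true (nat_lit 17) true (nat_lit 8) (.s false (nat_lit 1) (nat_lit 18) (nat_lit 2) (nat_lit 1) (nat_lit 11) true (nat_lit 0) true (nat_lit 8) true (nat_lit 5) true (nat_lit 16) true (nat_lit 17) (.s false (nat_lit 2) (nat_lit 18) (nat_lit 2) (nat_lit 1) (nat_lit 12) true (nat_lit 0) true (nat_lit 8) true (nat_lit 5) true (nat_lit 16) true (nat_lit 17) (.s true (nat_lit 3) (nat_lit 18) (nat_lit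 2) (nat_lit 2) (nat_lit 8) true (nat_lit 2) true (nat_lit 10) true (nat_lit 5) true (nat_lit 16) true (nat_lit 16) (.s true (nat_lit 3) (nat_lit 18) (nat_lit 2) (nat_lit 9) (nat_lit 2) true (nat_lit 11) true (nat_lit 16) true (nat_lit 5) true (nat_lit 16) true (nat_lit 10) (.s true (nat_lit 1) (nat_lit 18) (nat_lit 2) (nat_lit 11) (nat_lit 1) true (nat_lit 12) true (nat_lit 17) true (nat_lit 5) true (nat_lit 16) true (nat_lit 8) (.s true (nat_lit 3) (nat_lit 18) (nat_lit 2) (nat_lit 12) (nat_lit 1) true (nat_lit 12) true (nat_lit 17) true (nat_lit 5) true (nat_lit 16) true (nat_lit 8) (.s true (nat_lit 1) (nat_lit 18) (nat_lit 2) (nat_lit 15) (nat_lit 0) true (nat_lit 13) true (nat_lit 18) true (nat_lit 5) true (nat_lit 16) true (nat_lit 7) (.s false (nat_lit 2) (nat_lit 19) (nat_lit 7) (nat_lit 3) (nat_lit 1) true (nat_lit 5) true (nat_lit 17) true (nat_lit 5) true (nat_lit 11) true (nat_lit 15) (.s false (nat_lit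 2) (nat_lit 18) (nat_lit 8) (nat_lit 2) (nat_lit 2) true (nat_lit 2) true (nat_lit 16) true (nat_lit 5) true (nat_lit 10) true (nat_lit 16) (.s false (nat_lit 1) (nat_lit 18) (nat_lit 9) (nat_lit 2) (nat_lit 2) true (nat_lit 2) true (nat_lit 16) true (nat_lit 5) true (nat_lit 10) true (nat_lit 16) dC2d_i390)))))))))))))))))))))))))

noncomputable def dC2d_i392 : IL := (.e true (nat_lit 2) (nat_lit 273) (nat_lit 2) (nat_lit 14) (.e true (nat_lit 2) (nat_lit 318) (nat_lit 1) (nat_lit 15) (.e true (nat_lit 1) (nat_lit 283) (nat_lit 2) (nat_lit 14) (.e true (nat_lit 2) (nat_lit 284) (nat_lit 2) (nat_lit 14) (.e false (nat_lit 1) (nat_lit 324) (nat_lit 0) (nat_lit 16) (.e false (nat_lit 3) (nat_lit 325) (nat_lit 0) (nat_lit 16) (.e false (nat_lit 3) (nat_lit 326) (nat_lit 0) (nat_lit 16) (.e false (nat_lit 1) (nat_lit 327) (nat_lit 0) (nat_lit 16) (.e true (nat_lit 3) (nat_lit 329) (nat_lit 0) (nat_lit 16) (.e false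 (nat_lit 1) (nat_lit 330) (nat_lit 0) (nat_lit 16) (.e true (nat_lit 1) (nat_lit 331) (nat_lit 0) (nat_lit 16) (.e true (nat_lit 1) (nat_lit 332) (nat_lit 0) (nat_lit 16) (.e false (nat_lit 2) (nat_lit 306) (nat_lit 1) (nat_lit 15) (.e false (nat_lit 1) (nat_lit 310) (nat_lit 1) (nat_lit 15) (.e true (nat_lit 2) (nat_lit 311) (nat_lit 1) (nat_lit 15) (.e true (nat_lit 2) (nat_lit 312) (nat_lit 1) (nat_lit 15) (.e true (nat_lit 3) (nat_lit 314) (nat_lit 1) (nat_lit 15) (.e true (nat_lit 3) (nat_lit 315) (nat_lit 1) (nat_lit 15) (.e true (nat_lit 1) (nat_lit 72) (nat_lit 20) (nat_lit 3) (.e false (nat_lit 2) (nat_lit 307) (nat_lit 1) (nat_lit 15) (.e false (nat_lit 2) (nat_lit 305) (nat_lit 1) (nat_lit 15) (.e false (nat_lit 3) (nat_lit 309) (nat_lit 1) (nat_lit 15) (.u (nat_lit 2) (.p (nat_lit 42) (nat_lit 1) (.p (nat_lit 47) (nat_lit 1) (.n (nat_lit 52) (nat_lit 1) (.p (nat_lit 53) (nat_lit 1) (.p (nat_lit 55)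 (nat_lit 1) (.p (nat_lit 68) (nat_lit 1) (.n (nat_lit 69) (nat_lit 1) (.n (nat_lit 75) (nat_lit 1) (.p (nat_lit 76) (nat_lit 1) (.p (nat_lit 81) (nat_lit 1) (.n (nat_lit 84) (nat_lit 1) (.n (nat_lit 85) (nat_lit 2) (.p (nat_lit 86) (nat_lit 1) (.n (nat_lit 90) (nat_lit 1) (.n (nat_lit 91) (nat_lit 3) (.n (nat_lit 92) (nat_lit 1) (.p (nat_lit 95) (nat_lit 1) (.p (nat_lit 96) (nat_lit 1) (.p (nat_lit 98) (nat_lit 1) (.n (nat_lit 100) (nat_lit 1) (.p (nat_lit 101) (nat_lit 1) (.n (nat_lit 121) (nat_lit 1) (.n (nat_lit 122) (nat_lit 1) (.p (nat_lit 124) (nat_lit 1) (.n (nat_lit 129) (nat_lit 1) (.n (nat_lit 131) (nat_lit 1) (.p (nat_lit 135) (nat_lit 1) (.p (nat_lit 137) (nat_lit 1) (.n (nat_lit 138) (nat_lit 1) (.p (nat_lit 139) (nat_lit 1) (.n (nat_lit 142) (nat_lit 2) (.p (nat_lit 143) (nat_lit 1) (.p (nat_lit 144) (nat_lit 3) (.n (nat_lit 145) (nat_lit 3) (.p (nat_lit 146) (nat_lit 1) (.n (nat_lit 147) (nat_lit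 1) (.p (nat_lit 148) (nat_lit 1) (.n (nat_lit 150) (nat_lit 1) (.n (nat_lit 151) (nat_lit 1) (.p (nat_lit 152) (nat_lit 1) (.p (nat_lit 153) (nat_lit 2) (.n (nat_lit 154) (nat_lit 2) (.n (nat_lit 155) (nat_lit 3) (.n (nat_lit 159) (nat_lit 2) (.n (nat_lit 161) (nat_lit 2) (.n (nat_lit 162) (nat_lit 2) (.n (nat_lit 163) (nat_lit 2) (.n (nat_lit 164) (nat_lit 1) (.n (nat_lit 165) (nat_lit 2) (.p (nat_lit 166) (nat_lit 1) (.p (nat_lit 167) (nat_lit 1) (.p (nat_lit 171) (nat_lit 1) (.n (nat_lit 172) (nat_lit 1) (.p (nat_lit 173) (nat_lit 2) (.p (nat_lit 174) (nat_lit 1) (.p (nat_lit 175) (nat_lit 2) (.p (nat_lit 176) (nat_lit 1) (.p (nat_lit 177) (nat_lit 1) (.p (nat_lit 179) (nat_lit 1) (.n (nat_lit 180) (nat_lit 1) .z)))))))))))))))))))))))))))))))))))))))))))))))))))))))))))) (.u (nat_lit 2) (.p (nat_lit 181) (nat_lit 1) (.p (nat_lit 182) (nat_lit 1) (.n (nat_lit 184) (nat_lit 2) (.n (nat_lit 185) (nat_lit 1) (.p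 (nat_lit 186) (nat_lit 4) (.n (nat_lit 187) (nat_lit 1) (.n (nat_lit 188) (nat_lit 2) (.p (nat_lit 189) (nat_lit 3) (.n (nat_lit 192) (nat_lit 1) (.p (nat_lit 200) (nat_lit 1) (.n (nat_lit 201) (nat_lit 1) (.n (nat_lit 202) (nat_lit 1) (.p (nat_lit 203) (nat_lit 1) (.n (nat_lit 204) (nat_lit 3) (.n (nat_lit 205) (nat_lit 5) (.n (nat_lit 206) (nat_lit 5) (.n (nat_lit 207) (nat_lit 6) (.p (nat_lit 208) (nat_lit 15) (.p (nat_lit 209) (nat_lit 23) (.n (nat_lit 210) (nat_lit 25) (.p (nat_lit 211) (nat_lit 10) (.n (nat_lit 212) (nat_lit 10) (.n (nat_lit 213) (nat_lit 10) (.p (nat_lit 214) (nat_lit 20) (.p (nat_lit 215) (nat_lit 8) (.p (nat_lit 216) (nat_lit 2) (.p (nat_lit 217) (nat_lit 6) (.n (nat_lit 218) (nat_lit 10) (.n (nat_lit 219) (nat_lit 20) (.n (nat_lit 220) (nat_lit 1) (.n (nat_lit 221) (nat_lit 3) (.n (nat_lit 222) (nat_lit 3) (.n (nat_lit 223) (nat_lit 4) (.n (nat_lit 224) (nat_lit 39) (.n (nat_lit 225)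 (nat_lit 13) (.n (nat_lit 226) (nat_lit 27) (.p (nat_lit 227) (nat_lit 11) (.p (nat_lit 228) (nat_lit 17) (.n (nat_lit 229) (nat_lit 10) (.n (nat_lit 231) (nat_lit 5) (.n (nat_lit 232) (nat_lit 1) (.n (nat_lit 233) (nat_lit 1) (.n (nat_lit 234) (nat_lit 15) (.n (nat_lit 235) (nat_lit 1) (.n (nat_lit 236) (nat_lit 6) (.n (nat_lit 237) (nat_lit 3) (.n (nat_lit 238) (nat_lit 2) (.p (nat_lit 240) (nat_lit 2) (.n (nat_lit 241) (nat_lit 11) (.n (nat_lit 242) (nat_lit 3) (.p (nat_lit 243) (nat_lit 5) (.p (nat_lit 245) (nat_lit 8) (.p (nat_lit 246) (nat_lit 2) (.p (nat_lit 247) (nat_lit 3) (.p (nat_lit 248) (nat_lit 3) (.p (nat_lit 249) (nat_lit 7) (.p (nat_lit 250) (nat_lit 2) (.n (nat_lit 251) (nat_lit 10) (.n (nat_lit 252) (nat_lit 2) (.p (nat_lit 253) (nat_lit 4) .z)))))))))))))))))))))))))))))))))))))))))))))))))))))))))))) (.u (nat_lit 2) (.p (nat_lit 254) (nat_lit 1) (.n (nat_lit 255) (nat_lit 1) (.p (nat_lit 258)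 (nat_lit 1) (.p (nat_lit 259) (nat_lit 2) (.p (nat_lit 260) (nat_lit 3) (.p (nat_lit 261) (nat_lit 1) (.n (nat_lit 262) (nat_lit 1) (.n (nat_lit 263) (nat_lit 4) (.p (nat_lit 264) (nat_lit 1) (.p (nat_lit 266) (nat_lit 3) (.p (nat_lit 267) (nat_lit 4) (.n (nat_lit 269) (nat_lit 2) (.n (nat_lit 270) (nat_lit 3) .z))))))))))))) .nil)))))))))))))))))))))))))

noncomputable def dC2d_i393 : IL := (.s true (nat_lit 3) (nat_lit 86) (nat_lit 2) (nat_lit 2) (nat_lit 1) true (nat_lit 10) true (nat_lit 15) false (nat_lit 4) true (nat_lit 14) true (nat_lit 14) (.s false (nat_lit 3) (nat_lit 91) (nat_lit 0) (nat_lit 2) (nat_lit 2) true (nat_lit 11) true (nat_lit 14) false (nat_lit 5) true (nat_lit 16) true (nat_lit 14) (.s false (nat_lit 1) (nat_lit 92) (nat_lit 0) (nat_lit 2) (nat_lit 2) true (nat_lit 11) true (nat_lit 14) false (nat_lit 5) true (nat_lit 16) true (nat_lit 14) (.s true (nat_lit 1) (nat_lit 93) (nat_lit 0)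 (nat_lit 2) (nat_lit 2) true (nat_lit 11) true (nat_lit 14) false (nat_lit 5) true (nat_lit 16) true (nat_lit 14) (.s false (nat_lit 3) (nat_lit 92) (nat_lit 2) (nat_lit 2) (nat_lit 0) true (nat_lit 11) true (nat_lit 16) false (nat_lit 5) true (nat_lit 14) true (nat_lit 14) (.s false (nat_lit 2) (nat_lit 93) (nat_lit 2) (nat_lit 2) (nat_lit 0) true (nat_lit 11) true (nat_lit 16) false (nat_lit 5) true (nat_lit 14) true (nat_lit 14) (.s false (nat_lit 1) (nat_lit 96) (nat_lit 2) (nat_lit 2) (nat_lit 0) true (nat_lit 11) true (nat_lit 16) false (nat_lit 5) true (nat_lit 14) true (nat_lit 14) (.s true (nat_lit 3) (nat_lit 97) (nat_lit 1) (nat_lit 2) (nat_lit 1) true (nat_lit 12) true (nat_lit 15) false (nat_lit 6) true (nat_lit 15) true (nat_lit 14) (.s true (nat_lit 2) (nat_lit 99) (nat_lit 1) (nat_lit 2) (nat_lit 1) true (nat_lit 12) true (nat_lit 15) false (nat_lit 6) true (nat_lit 15) true (nat_lit 14) (.s false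 (nat_lit 2) (nat_lit 102) (nat_lit 0) (nat_lit 2) (nat_lit 1) true (nat_lit 13) true (nat_lit 15) false (nat_lit 7) true (nat_lit 16) true (nat_lit 14) (.s true (nat_lit 3) (nat_lit 103) (nat_lit 0) (nat_lit 2) (nat_lit 1) true (nat_lit 13) true (nat_lit 15) false (nat_lit 7) true (nat_lit 16) true (nat_lit 14) (.s true (nat_lit 3) (nat_lit 104) (nat_lit 0) (nat_lit 2) (nat_lit 1) true (nat_lit 13) true (nat_lit 15) false (nat_lit 7) true (nat_lit 16) true (nat_lit 14) (.s true (nat_lit 1) (nat_lit 103) (nat_lit 1) (nat_lit 2) (nat_lit 0) true (nat_lit 13) true (nat_lit 16) false (nat_lit 7) true (nat_lit 15) true (nat_lit 14) (.s true (nat_lit 3) (nat_lit 101) (nat_lit 2) (nat_lit 1) (nat_lit 0) true (nat_lit 11) true (nat_lit 16) false (nat_lit 7) true (nat_lit 14) true (nat_lit 15) (.s true (nat_lit 1) (nat_lit 103) (nat_lit 2) (nat_lit 1) (nat_lit 0) true (nat_lit 11) true (nat_lit 16) false (nat_lit 7) true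 (nat_lit 14) true (nat_lit 15) (.s false (nat_lit 1) (nat_lit 105) (nat_lit 0) (nat_lit 1) (nat_lit 1) true (nat_lit 13) true (nat_lit 15) false (nat_lit 8) true (nat_lit 16) true (nat_lit 15) (.s true (nat_lit 1) (nat_lit 105) (nat_lit 1) (nat_lit 0) (nat_lit 1) true (nat_lit 12) true (nat_lit 15) false (nat_lit 8) true (nat_lit 15) true (nat_lit 16) (.s false (nat_lit 1) (nat_lit 105) (nat_lit 1) (nat_lit 1) (nat_lit 0) true (nat_lit 13) true (nat_lit 16) false (nat_lit 8) true (nat_lit 15) true (nat_lit 15) (.e true (nat_lit 2) (nat_lit 152) (nat_lit 7) (nat_lit 9) (.e false (nat_lit 3) (nat_lit 144) (nat_lit 7) (nat_lit 9) (.e false (nat_lit 2) (nat_lit 153) (nat_lit 7) (nat_lit 9) (.e false (nat_lit 2) (nat_lit 254) (nat_lit 2) (nat_lit 14) (.e false (nat_lit 3) (nat_lit 272) (nat_lit 2) (nat_lit 14) (.e false (nat_lit 3) (nat_lit 252) (nat_lit 2) (nat_lit 14) (.e true (nat_lit 2) (nat_lit 253) (nat_lit 2)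 (nat_lit 14) dC2d_i392)))))))))))))))))))))))))

noncomputable def dC2d_i394 : IL := (.s true (nat_lit 2) (nat_lit 48) (nat_lit 2) (nat_lit 1) (nat_lit 3) true (nat_lit 7) true (nat_lit 13) false (nat_lit 2) true (nat_lit 14) true (nat_lit 15) (.s true (nat_lit 2) (nat_lit 48) (nat_lit 3) (nat_lit 1) (nat_lit 2) true (nat_lit 7) true (nat_lit 14) false (nat_lit 2) true (nat_lit 13) true (nat_lit 15) (.s true (nat_lit 3) (nat_lit 48) (nat_lit 3) (nat_lit 2) (nat_lit 1) true (nat_lit 8) true (nat_lit 15) false (nat_lit 2) true (nat_lit 13) true (nat_lit 14) (.s false (nat_lit 3) (nat_lit 48) (nat_lit 5) (nat_lit 1) (nat_lit 1) true (nat_lit 7) true (nat_lit 15) false (nat_lit 2) true (nat_lit 11) true (nat_lit 15) (.s true (nat_lit 2) (nat_lit 48) (nat_lit 6) (nat_lit 0) (nat_lit 1) true (nat_lit 6) true (nat_lit 15) false (nat_lit 2) true (nat_lit 10) true (nat_lit 16) (.s true (nat_lit 2) (nat_lit 48) (nat_lit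 6) (nat_lit 1) (nat_lit 0) true (nat_lit 7) true (nat_lit 16) false (nat_lit 2) true (nat_lit 10) true (nat_lit 15) (.s false (nat_lit 2) (nat_lit 66) (nat_lit 2) (nat_lit 2) (nat_lit 2) true (nat_lit 9) true (nat_lit 14) false (nat_lit 3) true (nat_lit 14) true (nat_lit 14) (.s true (nat_lit 2) (nat_lit 68) (nat_lit 2) (nat_lit 2) (nat_lit 2) true (nat_lit 9) true (nat_lit 14) false (nat_lit 3) true (nat_lit 14) true (nat_lit 14) (.s true (nat_lit 3) (nat_lit 69) (nat_lit 2) (nat_lit 2) (nat_lit 2) true (nat_lit 9) true (nat_lit 14) false (nat_lit 3) true (nat_lit 14) true (nat_lit 14) (.s false (nat_lit 2) (nat_lit 70) (nat_lit 2) (nat_lit 2) (nat_lit 2) true (nat_lit 9) true (nat_lit 14) false (nat_lit 3) true (nat_lit 14) true (nat_lit 14) (.s false (nat_lit 3) (nat_lit 73) (nat_lit 2) (nat_lit 2) (nat_lit 2) true (nat_lit 9) true (nat_lit 14) false (nat_lit 3) true (nat_lit 14) true (nat_lit 14) (.s true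 (nat_lit 3) (nat_lit 81) (nat_lit 1) (nat_lit 2) (nat_lit 2) true (nat_lit 10) true (nat_lit 14) false (nat_lit 4) true (nat_lit 15) true (nat_lit 14) (.s true (nat_lit 2) (nat_lit 82) (nat_lit 1) (nat_lit 2) (nat_lit 2) true (nat_lit 10) true (nat_lit 14) false (nat_lit 4) true (nat_lit 15) true (nat_lit 14) (.s false (nat_lit 1) (nat_lit 83) (nat_lit 1) (nat_lit 2) (nat_lit 2) true (nat_lit 10) true (nat_lit 14) false (nat_lit 4) true (nat_lit 15) true (nat_lit 14) (.s false (nat_lit 3) (nat_lit 85) (nat_lit 1) (nat_lit 2) (nat_lit 2) true (nat_lit 10) true (nat_lit 14) false (nat_lit 4) true (nat_lit 15) true (nat_lit 14) (.s false (nat_lit 2) (nat_lit 86) (nat_lit 1) (nat_lit 2) (nat_lit 2) true (nat_lit 10) true (nat_lit 14) false (nat_lit 4) true (nat_lit 15) true (nat_lit 14) (.s true (nat_lit 1) (nat_lit 87) (nat_lit 1) (nat_lit 2) (nat_lit 2) true (nat_lit 10) true (nat_lit 14) false (nat_lit 4) true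 (nat_lit 15) true (nat_lit 14) (.s true (nat_lit 2) (nat_lit 89) (nat_lit 1) (nat_lit 2) (nat_lit 2) true (nat_lit 10) true (nat_lit 14) false (nat_lit 4) true (nat_lit 15) true (nat_lit 14) (.s true (nat_lit 1) (nat_lit 90) (nat_lit 1) (nat_lit 2) (nat_lit 2) true (nat_lit 10) true (nat_lit 14) false (nat_lit 4) true (nat_lit 15) true (nat_lit 14) (.s false (nat_lit 3) (nat_lit 80) (nat_lit 2) (nat_lit 1) (nat_lit 2) true (nat_lit 9) true (nat_lit 14) false (nat_lit 4) true (nat_lit 14) true (nat_lit 15) (.s true (nat_lit 3) (nat_lit 81) (nat_lit 2) (nat_lit 1) (nat_lit 2) true (nat_lit 9) true (nat_lit 14) false (nat_lit 4) true (nat_lit 14) true (nat_lit 15) (.s false (nat_lit 1) (nat_lit 81) (nat_lit 2) (nat_lit 2) (nat_lit 1) true (nat_lit 10) true (nat_lit 15) false (nat_lit 4) true (nat_lit 14) true (nat_lit 14) (.s false (nat_lit 3) (nat_lit 82) (nat_lit 2) (nat_lit 2) (nat_lit 1) true (nat_lit 10) true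 (nat_lit 15) false (nat_lit 4) true (nat_lit 14) true (nat_lit 14) (.s true (nat_lit 1) (nat_lit 84) (nat_lit 2) (nat_lit 2) (nat_lit 1) true (nat_lit 10) true (nat_lit 15) false (nat_lit 4) true (nat_lit 14) true (nat_lit 14) (.s true (nat_lit 1) (nat_lit 85) (nat_lit 2) (nat_lit 2) (nat_lit 1) true (nat_lit 10) true (nat_lit 15) false (nat_lit 4) true (nat_lit 14) true (nat_lit 14) dC2d_i393)))))))))))))))))))))))))

noncomputable def dC2d_i395 : IL := (.s true (nat_lit 3) (nat_lit 35) (nat_lit 6) (nat_lit 2) (nat_lit 2) true (nat_lit 4) true (nat_lit 14) true (nat_lit 1) true (nat_lit 10) true (nat_lit 14) (.s true (nat_lit 3) (nat_lit 39) (nat_lit 0) (nat_lit 2) (nat_lit 7) true (nat_lit 5) true (nat_lit 9) true (nat_lit 0) true (nat_lit 16) true (nat_lit 14) (.s false (nat_lit 3) (nat_lit 40) (nat_lit 0) (nat_lit 2) (nat_lit 7) true (nat_lit 5) true (nat_lit 9) true (nat_lit 0) true (nat_lit 16) true (nat_lit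 14) (.s false (nat_lit 2) (nat_lit 41) (nat_lit 0) (nat_lit 2) (nat_lit 7) true (nat_lit 5) true (nat_lit 9) true (nat_lit 0) true (nat_lit 16) true (nat_lit 14) (.s false (nat_lit 3) (nat_lit 39) (nat_lit 2) (nat_lit 2) (nat_lit 5) true (nat_lit 5) true (nat_lit 11) true (nat_lit 0) true (nat_lit 14) true (nat_lit 14) (.s true (nat_lit 3) (nat_lit 40) (nat_lit 2) (nat_lit 2) (nat_lit 5) true (nat_lit 5) true (nat_lit 11) true (nat_lit 0) true (nat_lit 14) true (nat_lit 14) (.s true (nat_lit 2) (nat_lit 41) (nat_lit 2) (nat_lit 2) (nat_lit 5) true (nat_lit 5) true (nat_lit 11) true (nat_lit 0) true (nat_lit 14) true (nat_lit 14) (.s false (nat_lit 2) (nat_lit 40) (nat_lit 2) (nat_lit 5) (nat_lit 2) true (nat_lit 9) true (nat_lit 14) true (nat_lit 0) true (nat_lit 14) true (nat_lit 11) (.s true (nat_lit 3) (nat_lit 39) (nat_lit 2) (nat_lit 7) (nat_lit 0) true (nat_lit 11) true (nat_lit 16) true (nat_lit 0) true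 (nat_lit 14) true (nat_lit 9) (.s true (nat_lit 3) (nat_lit 39) (nat_lit 5) (nat_lit 2) (nat_lit 2) true (nat_lit 5) true (nat_lit 14) true (nat_lit 0) true (nat_lit 11) true (nat_lit 14) (.s true (nat_lit 1) (nat_lit 42) (nat_lit 1) (nat_lit 2) (nat_lit 6) true (nat_lit 6) true (nat_lit 10) false (nat_lit 0) true (nat_lit 15) true (nat_lit 14) (.s false (nat_lit 3) (nat_lit 42) (nat_lit 1) (nat_lit 6) (nat_lit 2) true (nat_lit 10) true (nat_lit 14) false (nat_lit 0) true (nat_lit 15) true (nat_lit 10) (.s false (nat_lit 1) (nat_lit 42) (nat_lit 2) (nat_lit 1) (nat_lit 6) true (nat_lit 4) true (nat_lit 10) false (nat_lit 0) true (nat_lit 14) true (nat_lit 15) (.s false (nat_lit 2) (nat_lit 44) (nat_lit 2) (nat_lit 2) (nat_lit 4) true (nat_lit 6) true (nat_lit 12) false (nat_lit 0) true (nat_lit 14) true (nat_lit 14) (.s false (nat_lit 3) (nat_lit 42) (nat_lit 2) (nat_lit 4) (nat_lit 2) true (nat_lit 9) true (nat_lit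 14) false (nat_lit 0) true (nat_lit 14) true (nat_lit 12) (.s false (nat_lit 2) (nat_lit 43) (nat_lit 4) (nat_lit 2) (nat_lit 2) true (nat_lit 6) true (nat_lit 14) false (nat_lit 0) true (nat_lit 12) true (nat_lit 14) (.s false (nat_lit 2) (nat_lit 44) (nat_lit 4) (nat_lit 2) (nat_lit 2) true (nat_lit 6) true (nat_lit 14) false (nat_lit 0) true (nat_lit 12) true (nat_lit 14) (.s false (nat_lit 3) (nat_lit 47) (nat_lit 2) (nat_lit 6) (nat_lit 0) true (nat_lit 11) true (nat_lit 16) false (nat_lit 1) true (nat_lit 14) true (nat_lit 10) (.s true (nat_lit 3) (nat_lit 47) (nat_lit 3) (nat_lit 2) (nat_lit 2) true (nat_lit 7) true (nat_lit 14) false (nat_lit 1) true (nat_lit 13) true (nat_lit 14) (.s true (nat_lit 3) (nat_lit 47) (nat_lit 7) (nat_lit 0) (nat_lit 1) true (nat_lit 4) true (nat_lit 15) false (nat_lit 1) true (nat_lit 9) true (nat_lit 16) (.s false (nat_lit 1) (nat_lit 48) (nat_lit 0) (nat_lit 4) (nat_lit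 2) true (nat_lit 11) true (nat_lit 14) false (nat_lit 2) true (nat_lit 16) true (nat_lit 12) (.s false (nat_lit 1) (nat_lit 48) (nat_lit 0) (nat_lit 6) (nat_lit 1) true (nat_lit 13) true (nat_lit 15) false (nat_lit 2) true (nat_lit 16) true (nat_lit 10) (.s false (nat_lit 1) (nat_lit 48) (nat_lit 1) (nat_lit 0) (nat_lit 6) true (nat_lit 6) true (nat_lit 10) false (nat_lit 2) true (nat_lit 15) true (nat_lit 16) (.s true (nat_lit 2) (nat_lit 48) (nat_lit 1) (nat_lit 2) (nat_lit 3) true (nat_lit 8) true (nat_lit 13) false (nat_lit 2) true (nat_lit 15) true (nat_lit 14) (.s false (nat_lit 3) (nat_lit 48) (nat_lit 1) (nat_lit 3) (nat_lit 2) true (nat_lit 10) true (nat_lit 14) false (nat_lit 2) true (nat_lit 15) true (nat_lit 13) dC2d_i394)))))))))))))))))))))))))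

noncomputable def dC2d_i396 : IL := (.s true (nat_lit 1) (nat_lit 20) (nat_lit 8) (nat_lit 2) (nat_lit 2) true (nat_lit 2) true (nat_lit 14) true (nat_lit 3) true (nat_lit 8) true (nat_lit 14) (.s true (nat_lit 1) (nat_lit 20) (nat_lit 9) (nat_lit 2) (nat_lit 2) true (nat_lit 2) true (nat_lit 14) true (nat_lit 3) true (nat_lit 8) true (nat_lit 14) (.s false (nat_lit 2) (nat_lit 20) (nat_lit 11) (nat_lit 1) (nat_lit 2) true (nat_lit 1) true (nat_lit 14) true (nat_lit 3) true (nat_lit 7) true (nat_lit 15) (.s true (nat_lit 2) (nat_lit 20) (nat_lit 15) (nat_lit 0) (nat_lit 2) true (nat_lit 0) true (nat_lit 14) true (nat_lit 3) true (nat_lit 6) true (nat_lit 16) (.s true (nat_lit 2) (nat_lit 20) (nat_lit 18) (nat_lit 0) (nat_lit 1) true (nat_lit 0) true (nat_lit 15) true (nat_lit 3) true (nat_lit 4) true (nat_lit 16) (.s true (nat_lit 1) (nat_lit 20) (nat_lit 19) (nat_lit 0) (nat_lit 1) true (nat_lit 0) true (nat_lit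 15) true (nat_lit 3) true (nat_lit 4) true (nat_lit 16) (.s false (nat_lit 3) (nat_lit 24) (nat_lit 2) (nat_lit 2) (nat_lit 7) true (nat_lit 3) true (nat_lit 9) true (nat_lit 2) true (nat_lit 14) true (nat_lit 14) (.s false (nat_lit 3) (nat_lit 25) (nat_lit 2) (nat_lit 2) (nat_lit 7) true (nat_lit 3) true (nat_lit 9) true (nat_lit 2) true (nat_lit 14) true (nat_lit 14) (.s false (nat_lit 1) (nat_lit 26) (nat_lit 2) (nat_lit 2) (nat_lit 7) true (nat_lit 3) true (nat_lit 9) true (nat_lit 2) true (nat_lit 14) true (nat_lit 14) (.s true (nat_lit 1) (nat_lit 27) (nat_lit 2) (nat_lit 2) (nat_lit 7) true (nat_lit 3) true (nat_lit 9) true (nat_lit 2) true (nat_lit 14) true (nat_lit 14) (.s true (nat_lit 3) (nat_lit 28) (nat_lit 2) (nat_lit 2) (nat_lit 7) true (nat_lit 3) true (nat_lit 9) true (nat_lit 2) true (nat_lit 14) true (nat_lit 14) (.s true (nat_lit 3) (nat_lit 26) (nat_lit 2) (nat_lit 7) (nat_lit 2) true (nat_lit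 9) true (nat_lit 14) true (nat_lit 2) true (nat_lit 14) true (nat_lit 9) (.s false (nat_lit 3) (nat_lit 27) (nat_lit 2) (nat_lit 7) (nat_lit 2) true (nat_lit 9) true (nat_lit 14) true (nat_lit 2) true (nat_lit 14) true (nat_lit 9) (.s false (nat_lit 3) (nat_lit 26) (nat_lit 7) (nat_lit 2) (nat_lit 2) true (nat_lit 3) true (nat_lit 14) true (nat_lit 2) true (nat_lit 9) true (nat_lit 14) (.s false (nat_lit 1) (nat_lit 34) (nat_lit 1) (nat_lit 2) (nat_lit 7) true (nat_lit 4) true (nat_lit 9) true (nat_lit 1) true (nat_lit 15) true (nat_lit 14) (.s true (nat_lit 3) (nat_lit 35) (nat_lit 1) (nat_lit 2) (nat_lit 7) true (nat_lit 4) true (nat_lit 9) true (nat_lit 1) true (nat_lit 15) true (nat_lit 14) (.s true (nat_lit 3) (nat_lit 37) (nat_lit 1) (nat_lit 2) (nat_lit 7) true (nat_lit 4) true (nat_lit 9) true (nat_lit 1) true (nat_lit 15) true (nat_lit 14) (.s false (nat_lit 2) (nat_lit 34) (nat_lit 2) (nat_lit 1) (nat_lit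 7) true (nat_lit 3) true (nat_lit 9) true (nat_lit 1) true (nat_lit 14) true (nat_lit 15) (.s true (nat_lit 1) (nat_lit 34) (nat_lit 2) (nat_lit 2) (nat_lit 6) true (nat_lit 4) true (nat_lit 10) true (nat_lit 1) true (nat_lit 14) true (nat_lit 14) (.s false (nat_lit 2) (nat_lit 35) (nat_lit 2) (nat_lit 2) (nat_lit 6) true (nat_lit 4) true (nat_lit 10) true (nat_lit 1) true (nat_lit 14) true (nat_lit 14) (.s true (nat_lit 3) (nat_lit 37) (nat_lit 2) (nat_lit 2) (nat_lit 6) true (nat_lit 4) true (nat_lit 10) true (nat_lit 1) true (nat_lit 14) true (nat_lit 14) (.s false (nat_lit 2) (nat_lit 33) (nat_lit 2) (nat_lit 7) (nat_lit 1) true (nat_lit 10) true (nat_lit 15) true (nat_lit 1) true (nat_lit 14) true (nat_lit 9) (.s true (nat_lit 3) (nat_lit 34) (nat_lit 2) (nat_lit 7) (nat_lit 1) true (nat_lit 10) true (nat_lit 15) true (nat_lit 1) true (nat_lit 14) true (nat_lit 9) (.s true (nat_lit 2) (nat_lit 35) (nat_lit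 2) (nat_lit 7) (nat_lit 1) true (nat_lit 10) true (nat_lit 15) true (nat_lit 1) true (nat_lit 14) true (nat_lit 9) (.s true (nat_lit 3) (nat_lit 34) (nat_lit 6) (nat_lit 2) (nat_lit 2) true (nat_lit 4) true (nat_lit 14) true (nat_lit 1) true (nat_lit 10) true (nat_lit 14) dC2d_i395)))))))))))))))))))))))))

noncomputable def dC2d_i397 : IL := (.s true (nat_lit 3) (nat_lit 18) (nat_lit 2) (nat_lit 2) (nat_lit 13) true (nat_lit 1) true (nat_lit 7) true (nat_lit 4) true (nat_lit 14) true (nat_lit 14) (.s true (nat_lit 3) (nat_lit 19) (nat_lit 2) (nat_lit 2) (nat_lit 12) true (nat_lit 1) true (nat_lit 7) true (nat_lit 4) true (nat_lit 14) true (nat_lit 14) (.s true (nat_lit 3) (nat_lit 19) (nat_lit 2) (nat_lit 2) (nat_lit 13) true (nat_lit 1) true (nat_lit 7) true (nat_lit 4) true (nat_lit 14) true (nat_lit 14) (.s false (nat_lit 1) (nat_lit 19) (nat_lit 2) (nat_lit 12) (nat_lit 2) true (nat_lit 9) true (nat_lit 14)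 true (nat_lit 4) true (nat_lit 14) true (nat_lit 7) (.s true (nat_lit 3) (nat_lit 19) (nat_lit 2) (nat_lit 13) (nat_lit 2) true (nat_lit 9) true (nat_lit 14) true (nat_lit 4) true (nat_lit 14) true (nat_lit 7) (.s false (nat_lit 3) (nat_lit 19) (nat_lit 2) (nat_lit 16) (nat_lit 1) true (nat_lit 10) true (nat_lit 15) true (nat_lit 4) true (nat_lit 14) true (nat_lit 5) (.s true (nat_lit 2) (nat_lit 19) (nat_lit 3) (nat_lit 7) (nat_lit 2) true (nat_lit 7) true (nat_lit 14) true (nat_lit 4) true (nat_lit 13) true (nat_lit 9) (.s true (nat_lit 3) (nat_lit 18) (nat_lit 5) (nat_lit 6) (nat_lit 2) true (nat_lit 5) true (nat_lit 14) true (nat_lit 4) true (nat_lit 11) true (nat_lit 10) (.s false (nat_lit 2) (nat_lit 19) (nat_lit 7) (nat_lit 3) (nat_lit 2) true (nat_lit 3) true (nat_lit 14) true (nat_lit 4) true (nat_lit 9) true (nat_lit 13) (.s true (nat_lit 3) (nat_lit 18) (nat_lit 12) (nat_lit 2) (nat_lit 2) true (nat_lit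 1) true (nat_lit 14) true (nat_lit 4) true (nat_lit 7) true (nat_lit 14) (.s false (nat_lit 3) (nat_lit 19) (nat_lit 12) (nat_lit 2) (nat_lit 2) true (nat_lit 1) true (nat_lit 14) true (nat_lit 4) true (nat_lit 7) true (nat_lit 14) (.s true (nat_lit 2) (nat_lit 19) (nat_lit 13) (nat_lit 2) (nat_lit 2) true (nat_lit 1) true (nat_lit 14) true (nat_lit 4) true (nat_lit 7) true (nat_lit 14) (.s false (nat_lit 3) (nat_lit 20) (nat_lit 0) (nat_lit 2) (nat_lit 14) true (nat_lit 2) true (nat_lit 6) true (nat_lit 3) true (nat_lit 16) true (nat_lit 14) (.s true (nat_lit 2) (nat_lit 20) (nat_lit 1) (nat_lit 3) (nat_lit 7) true (nat_lit 4) true (nat_lit 9) true (nat_lit 3) true (nat_lit 15) true (nat_lit 13) (.s true (nat_lit 2) (nat_lit 20) (nat_lit 1) (nat_lit 11) (nat_lit 2) true (nat_lit 10) true (nat_lit 14) true (nat_lit 3) true (nat_lit 15) true (nat_lit 7) (.s false (nat_lit 2) (nat_lit 20) (nat_lit 1) (nat_lit 13)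 (nat_lit 2) true (nat_lit 10) true (nat_lit 14) true (nat_lit 3) true (nat_lit 15) true (nat_lit 7) (.s true (nat_lit 1) (nat_lit 20) (nat_lit 2) (nat_lit 0) (nat_lit 15) true (nat_lit 0) true (nat_lit 6) true (nat_lit 3) true (nat_lit 14) true (nat_lit 16) (.s false (nat_lit 2) (nat_lit 20) (nat_lit 2) (nat_lit 1) (nat_lit 11) true (nat_lit 1) true (nat_lit 7) true (nat_lit 3) true (nat_lit 14) true (nat_lit 15) (.s false (nat_lit 3) (nat_lit 20) (nat_lit 2) (nat_lit 2) (nat_lit 8) true (nat_lit 2) true (nat_lit 8) true (nat_lit 3) true (nat_lit 14) true (nat_lit 14) (.s true (nat_lit 1) (nat_lit 20) (nat_lit 2) (nat_lit 3) (nat_lit 6) true (nat_lit 4) true (nat_lit 10) true (nat_lit 3) true (nat_lit 14) true (nat_lit 13) (.s false (nat_lit 1) (nat_lit 20) (nat_lit 2) (nat_lit 9) (nat_lit 2) true (nat_lit 9) true (nat_lit 14) true (nat_lit 3) true (nat_lit 14) true (nat_lit 8) (.s false (nat_lit 2) (nat_lit 20)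 (nat_lit 2) (nat_lit 14) (nat_lit 0) true (nat_lit 11) true (nat_lit 16) true (nat_lit 3) true (nat_lit 14) true (nat_lit 6) (.s true (nat_lit 2) (nat_lit 20) (nat_lit 3) (nat_lit 6) (nat_lit 2) true (nat_lit 7) true (nat_lit 14) true (nat_lit 3) true (nat_lit 13) true (nat_lit 10) (.s true (nat_lit 3) (nat_lit 20) (nat_lit 6) (nat_lit 1) (nat_lit 5) true (nat_lit 1) true (nat_lit 11) true (nat_lit 3) true (nat_lit 10) true (nat_lit 15) (.s true (nat_lit 1) (nat_lit 20) (nat_lit 7) (nat_lit 4) (nat_lit 0) true (nat_lit 5) true (nat_lit 16) true (nat_lit 3) true (nat_lit 9) true (nat_lit 12) dC2d_i396)))))))))))))))))))))))))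

noncomputable def dC2d_i398 : IL := (.e false (nat_lit 2) (nat_lit 233) (nat_lit 2) (nat_lit 16) (.e false (nat_lit 1) (nat_lit 235) (nat_lit 2) (nat_lit 16) (.e true (nat_lit 1) (nat_lit 138) (nat_lit 6) (nat_lit 12) (.e true (nat_lit 2) (nat_lit 134) (nat_lit 6) (nat_lit 12) (.e true (nat_lit 3) (nat_lit 250) (nat_lit 2) (nat_lit 16) (.e false (nat_lit 3) (nat_lit 243) (nat_lit 2) (nat_lit 16) (.e false (nat_lit 2) (nat_lit 280) (nat_lit 1) (nat_lit 17) (.e false (nat_lit 1) (nat_lit 284) (nat_lit 1) (nat_lit 17) (.e true (nat_lit 2) (nat_lit 301) (nat_lit 0) (nat_lit 18) (.e true (nat_lit 2) (nat_lit 289) (nat_lit 0) (nat_lit 18) (.e true (nat_lit 2) (nat_lit 291) (nat_lit 0) (nat_lit 18) (.e false (nat_lit 1) (nat_lit 293) (nat_lit 0) (nat_lit 18) (.e true (nat_lit 3) (nat_lit 296) (nat_lit 0) (nat_lit 18) (.e true (nat_lit 1) (nat_lit 297) (nat_lit 0) (nat_lit 18) (.e false (nat_lit 1) (nat_lit 290) (nat_lit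 0) (nat_lit 18) (.e false (nat_lit 1) (nat_lit 294) (nat_lit 0) (nat_lit 18) (.e false (nat_lit 1) (nat_lit 257) (nat_lit 1) (nat_lit 17) (.e true (nat_lit 2) (nat_lit 292) (nat_lit 0) (nat_lit 18) (.e false (nat_lit 3) (nat_lit 299) (nat_lit 0) (nat_lit 18) (.e true (nat_lit 1) (nat_lit 304) (nat_lit 0) (nat_lit 18) (.e false (nat_lit 2) (nat_lit 62) (nat_lit 18) (nat_lit 5) (.e false (nat_lit 1) (nat_lit 282) (nat_lit 1) (nat_lit 17) (.u (nat_lit 2) (.n (nat_lit 0) (nat_lit 1) (.n (nat_lit 1) (nat_lit 11) (.p (nat_lit 2) (nat_lit 12) (.p (nat_lit 3) (nat_lit 2) (.n (nat_lit 4) (nat_lit 2) (.p (nat_lit 5) (nat_lit 3) (.p (nat_lit 6) (nat_lit 2) (.n (nat_lit 7) (nat_lit 1) (.n (nat_lit 8) (nat_lit 4) (.n (nat_lit 9) (nat_lit 8) (.n (nat_lit 10) (nat_lit 1) (.p (nat_lit 11) (nat_lit 5) (.n (nat_lit 12) (nat_lit 1) (.n (nat_lit 14) (nat_lit 2) (.p (nat_lit 15) (nat_lit 3) (.n (nat_lit 16) (nat_lit 2) (.n (nat_lit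 17) (nat_lit 1) (.n (nat_lit 18) (nat_lit 4) (.n (nat_lit 19) (nat_lit 2) (.n (nat_lit 20) (nat_lit 1) (.p (nat_lit 21) (nat_lit 7) (.n (nat_lit 22) (nat_lit 7) (.n (nat_lit 23) (nat_lit 5) (.p (nat_lit 25) (nat_lit 2) (.p (nat_lit 26) (nat_lit 3) (.n (nat_lit 27) (nat_lit 2) (.n (nat_lit 28) (nat_lit 6) (.n (nat_lit 29) (nat_lit 1) (.n (nat_lit 31) (nat_lit 2) (.n (nat_lit 32) (nat_lit 1) (.p (nat_lit 34) (nat_lit 4) (.p (nat_lit 35) (nat_lit 1) (.n (nat_lit 36) (nat_lit 8) (.p (nat_lit 39) (nat_lit 3) (.p (nat_lit 40) (nat_lit 1) (.p (nat_lit 42) (nat_lit 2) (.n (nat_lit 44) (nat_lit 1) (.p (nat_lit 45) (nat_lit 3) (.p (nat_lit 46) (nat_lit 4) (.p (nat_lit 47) (nat_lit 2) (.p (nat_lit 48) (nat_lit 2) (.n (nat_lit 52) (nat_lit 1) (.p (nat_lit 67) (nat_lit 1) (.p (nat_lit 78) (nat_lit 1) (.n (nat_lit 79) (nat_lit 1) (.p (nat_lit 113) (nat_lit 1) (.n (nat_lit 120) (nat_lit 1) (.p (nat_lit 124) (nat_lit 1) (.p (nat_lit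 126) (nat_lit 1) (.n (nat_lit 127) (nat_lit 1) (.p (nat_lit 134) (nat_lit 1) (.p (nat_lit 181) (nat_lit 1) (.p (nat_lit 190) (nat_lit 2) (.p (nat_lit 191) (nat_lit 1) (.n (nat_lit 196) (nat_lit 1) (.n (nat_lit 204) (nat_lit 1) (.p (nat_lit 207) (nat_lit 1) (.n (nat_lit 208) (nat_lit 1) (.n (nat_lit 213) (nat_lit 1) (.n (nat_lit 214) (nat_lit 1) .z)))))))))))))))))))))))))))))))))))))))))))))))))))))))))))) (.u (nat_lit 2) (.n (nat_lit 215) (nat_lit 2) (.p (nat_lit 216) (nat_lit 1) (.p (nat_lit 217) (nat_lit 1) (.n (nat_lit 218) (nat_lit 1) (.n (nat_lit 219) (nat_lit 1) (.n (nat_lit 220) (nat_lit 1) (.p (nat_lit 221) (nat_lit 1) (.p (nat_lit 222) (nat_lit 1) (.n (nat_lit 223) (nat_lit 3) (.n (nat_lit 224) (nat_lit 1) (.n (nat_lit 225) (nat_lit 2) (.p (nat_lit 226) (nat_lit 1) (.n (nat_lit 227) (nat_lit 1) (.p (nat_lit 230) (nat_lit 1) (.n (nat_lit 234) (nat_lit 1) (.p (nat_lit 235) (nat_lit 1) (.n (nat_lit 237)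 (nat_lit 2) (.p (nat_lit 240) (nat_lit 1) (.p (nat_lit 241) (nat_lit 1) (.n (nat_lit 242) (nat_lit 1) (.p (nat_lit 244) (nat_lit 1) (.n (nat_lit 254) (nat_lit 1) (.n (nat_lit 257) (nat_lit 1) (.n (nat_lit 259) (nat_lit 2) (.p (nat_lit 262) (nat_lit 1) (.n (nat_lit 270) (nat_lit 1) (.p (nat_lit 274) (nat_lit 1) (.p (nat_lit 300) (nat_lit 1) (.n (nat_lit 302) (nat_lit 4) (.n (nat_lit 303) (nat_lit 23) (.n (nat_lit 304) (nat_lit 8) (.n (nat_lit 305) (nat_lit 20) (.p (nat_lit 306) (nat_lit 7) (.n (nat_lit 307) (nat_lit 8) (.p (nat_lit 308) (nat_lit 6) (.p (nat_lit 309) (nat_lit 10) (.p (nat_lit 310) (nat_lit 3) (.n (nat_lit 312) (nat_lit 2) (.p (nat_lit 313) (nat_lit 15) (.p (nat_lit 314) (nat_lit 13) (.p (nat_lit 315) (nat_lit 6) (.n (nat_lit 316) (nat_lit 5) (.n (nat_lit 317) (nat_lit 7) (.p (nat_lit 318) (nat_lit 13) (.p (nat_lit 319) (nat_lit 1) (.n (nat_lit 320) (nat_lit 1) (.n (nat_lit 321) (nat_lit 2) (.p (nat_lit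 322) (nat_lit 6) (.p (nat_lit 323) (nat_lit 1) (.n (nat_lit 324) (nat_lit 4) (.n (nat_lit 325) (nat_lit 8) (.p (nat_lit 326) (nat_lit 19) (.p (nat_lit 327) (nat_lit 2) (.p (nat_lit 328) (nat_lit 13) (.n (nat_lit 329) (nat_lit 1) (.n (nat_lit 330) (nat_lit 1) (.n (nat_lit 331) (nat_lit 4) (.p (nat_lit 335) (nat_lit 7) (.n (nat_lit 338) (nat_lit 4) (.n (nat_lit 339) (nat_lit 1) .z)))))))))))))))))))))))))))))))))))))))))))))))))))))))))))) (.u (nat_lit 2) (.n (nat_lit 340) (nat_lit 4) (.n (nat_lit 341) (nat_lit 4) (.p (nat_lit 342) (nat_lit 9) (.p (nat_lit 343) (nat_lit 2) (.n (nat_lit 344) (nat_lit 9) (.n (nat_lit 345) (nat_lit 4) (.p (nat_lit 346) (nat_lit 2) (.n (nat_lit 347) (nat_lit 11) (.p (nat_lit 348) (nat_lit 9) (.p (nat_lit 349) (nat_lit 7) (.n (nat_lit 350) (nat_lit 3) (.p (nat_lit 351) (nat_lit 12) (.n (nat_lit 352) (nat_lit 17) (.n (nat_lit 353) (nat_lit 4) (.p (nat_lit 354) (nat_lit 4) (.n (nat_lit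 355) (nat_lit 10) (.n (nat_lit 356) (nat_lit 5) (.n (nat_lit 357) (nat_lit 1) (.p (nat_lit 358) (nat_lit 10) (.p (nat_lit 359) (nat_lit 8) (.p (nat_lit 360) (nat_lit 5) (.n (nat_lit 361) (nat_lit 6) (.p (nat_lit 362) (nat_lit 3) (.p (nat_lit 363) (nat_lit 4) (.p (nat_lit 364) (nat_lit 2) (.n (nat_lit 366) (nat_lit 1) (.n (nat_lit 367) (nat_lit 1) (.n (nat_lit 368) (nat_lit 10) (.p (nat_lit 369) (nat_lit 8) (.n (nat_lit 370) (nat_lit 2) (.n (nat_lit 371) (nat_lit 2) (.n (nat_lit 372) (nat_lit 11) (.p (nat_lit 373) (nat_lit 12) (.p (nat_lit 374) (nat_lit 3) (.p (nat_lit 377) (nat_lit 2) (.p (nat_lit 380) (nat_lit 11) (.n (nat_lit 381) (nat_lit 2) (.n (nat_lit 382) (nat_lit 9) (.n (nat_lit 383) (nat_lit 3) (.p (nat_lit 384) (nat_lit 1) (.p (nat_lit 385) (nat_lit 2) (.p (nat_lit 386) (nat_lit 5) (.n (nat_lit 387) (nat_lit 1) (.n (nat_lit 388) (nat_lit 1) (.p (nat_lit 389) (nat_lit 2) (.n (nat_lit 390) (nat_lit 3)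 (.n (nat_lit 391) (nat_lit 1) (.p (nat_lit 392) (nat_lit 3) (.n (nat_lit 393) (nat_lit 5) (.p (nat_lit 394) (nat_lit 1) (.p (nat_lit 395) (nat_lit 6) (.n (nat_lit 396) (nat_lit 1) (.n (nat_lit 397) (nat_lit 2) (.p (nat_lit 399) (nat_lit 3) (.n (nat_lit 400) (nat_lit 2) (.p (nat_lit 401) (nat_lit 3) .z)))))))))))))))))))))))))))))))))))))))))))))))))))))))) .nil)))))))))))))))))))))))))

noncomputable def dC2d_i399 : IL := (.e true (nat_lit 3) (nat_lit 277) (nat_lit 1) (nat_lit 17) (.e false (nat_lit 3) (nat_lit 262) (nat_lit 1) (nat_lit 17) (.e true (nat_lit 3) (nat_lit 266) (nat_lit 1) (nat_lit 17) (.e true (nat_lit 1) (nat_lit 209) (nat_lit 2) (nat_lit 16) (.e false (nat_lit 3) (nat_lit 212) (nat_lit 2) (nat_lit 16) (.e false (nat_lit 3) (nat_lit 213) (nat_lit 2) (nat_lit 16) (.e true (nat_lit 1) (nat_lit 219) (nat_lit 2) (nat_lit 16) (.e true (nat_lit 2) (nat_lit 221) (nat_lit 2) (nat_lit 16) (.e false (nat_lit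 2) (nat_lit 246) (nat_lit 2) (nat_lit 16) (.e false (nat_lit 2) (nat_lit 249) (nat_lit 2) (nat_lit 16) (.e false (nat_lit 3) (nat_lit 130) (nat_lit 7) (nat_lit 11) (.e true (nat_lit 1) (nat_lit 298) (nat_lit 0) (nat_lit 18) (.e true (nat_lit 3) (nat_lit 261) (nat_lit 1) (nat_lit 17) (.e false (nat_lit 3) (nat_lit 274) (nat_lit 1) (nat_lit 17) (.e true (nat_lit 3) (nat_lit 275) (nat_lit 1) (nat_lit 17) (.e false (nat_lit 2) (nat_lit 279) (nat_lit 1) (nat_lit 17) (.e true (nat_lit 2) (nat_lit 288) (nat_lit 1) (nat_lit 17) (.e true (nat_lit 3) (nat_lit 278) (nat_lit 1) (nat_lit 17) (.e false (nat_lit 2) (nat_lit 206) (nat_lit 2) (nat_lit 16) (.e true (nat_lit 3) (nat_lit 210) (nat_lit 2) (nat_lit 16) (.e false (nat_lit 1) (nat_lit 218) (nat_lit 2) (nat_lit 16) (.e true (nat_lit 3) (nat_lit 226) (nat_lit 2) (nat_lit 16) (.e false (nat_lit 2) (nat_lit 229) (nat_lit 2) (nat_lit 16) (.e false (nat_lit 3) (nat_lit 230)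 (nat_lit 2) (nat_lit 16) (.e false (nat_lit 3) (nat_lit 231) (nat_lit 2) (nat_lit 16) dC2d_i398)))))))))))))))))))))))))

noncomputable def dC2d_i400 : IL := (.s false (nat_lit 3) (nat_lit 102) (nat_lit 0) (nat_lit 1) (nat_lit 1) true (nat_lit 15) true (nat_lit 17) false (nat_lit 10) true (nat_lit 18) true (nat_lit 17) (.s false (nat_lit 2) (nat_lit 103) (nat_lit 0) (nat_lit 1) (nat_lit 1) true (nat_lit 15) true (nat_lit 17) false (nat_lit 10) true (nat_lit 18) true (nat_lit 17) (.s false (nat_lit 3) (nat_lit 104) (nat_lit 0) (nat_lit 1) (nat_lit 1) true (nat_lit 15) true (nat_lit 17) false (nat_lit 10) true (nat_lit 18) true (nat_lit 17) (.s true (nat_lit 2) (nat_lit 102) (nat_lit 1) (nat_lit 1) (nat_lit 0) true (nat_lit 15) true (nat_lit 18) false (nat_lit 10) true (nat_lit 17) true (nat_lit 17) (.s false (nat_lit 2) (nat_lit 103) (nat_lit 1) (nat_lit 1) (nat_lit 0) true (nat_lit 15) true (nat_lit 18) false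 (nat_lit 10) true (nat_lit 17) true (nat_lit 17) (.s true (nat_lit 2) (nat_lit 104) (nat_lit 1) (nat_lit 1) (nat_lit 0) true (nat_lit 15) true (nat_lit 18) false (nat_lit 10) true (nat_lit 17) true (nat_lit 17) (.e true (nat_lit 3) (nat_lit 227) (nat_lit 2) (nat_lit 16) (.e false (nat_lit 3) (nat_lit 242) (nat_lit 2) (nat_lit 16) (.e false (nat_lit 1) (nat_lit 208) (nat_lit 2) (nat_lit 16) (.e false (nat_lit 3) (nat_lit 205) (nat_lit 2) (nat_lit 16) (.e false (nat_lit 1) (nat_lit 215) (nat_lit 2) (nat_lit 16) (.e true (nat_lit 2) (nat_lit 251) (nat_lit 2) (nat_lit 16) (.e true (nat_lit 2) (nat_lit 122) (nat_lit 7) (nat_lit 11) (.e true (nat_lit 2) (nat_lit 252) (nat_lit 1) (nat_lit 17) (.e true (nat_lit 2) (nat_lit 254) (nat_lit 1) (nat_lit 17) (.e true (nat_lit 1) (nat_lit 258) (nat_lit 1) (nat_lit 17) (.e false (nat_lit 3) (nat_lit 263) (nat_lit 1) (nat_lit 17) (.e true (nat_lit 1) (nat_lit 265) (nat_lit 1)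 (nat_lit 17) (.e true (nat_lit 1) (nat_lit 267) (nat_lit 1) (nat_lit 17) (.e false (nat_lit 2) (nat_lit 269) (nat_lit 1) (nat_lit 17) (.e true (nat_lit 2) (nat_lit 270) (nat_lit 1) (nat_lit 17) (.e false (nat_lit 3) (nat_lit 271) (nat_lit 1) (nat_lit 17) (.e true (nat_lit 2) (nat_lit 272) (nat_lit 1) (nat_lit 17) (.e false (nat_lit 3) (nat_lit 273) (nat_lit 1) (nat_lit 17) (.e true (nat_lit 3) (nat_lit 276) (nat_lit 1) (nat_lit 17) dC2d_i399)))))))))))))))))))))))))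

noncomputable def dC2d_i401 : IL := (.s true (nat_lit 3) (nat_lit 63) (nat_lit 2) (nat_lit 1) (nat_lit 2) true (nat_lit 11) true (nat_lit 16) false (nat_lit 5) true (nat_lit 16) true (nat_lit 17) (.s true (nat_lit 3) (nat_lit 64) (nat_lit 2) (nat_lit 1) (nat_lit 2) true (nat_lit 11) true (nat_lit 16) false (nat_lit 5) true (nat_lit 16) true (nat_lit 17) (.s true (nat_lit 2) (nat_lit 65) (nat_lit 2) (nat_lit 1) (nat_lit 2) true (nat_lit 11) true (nat_lit 16) false (nat_lit 5) true (nat_lit 16) true (nat_lit 17) (.s false (nat_lit 1) (nat_lit 67) (nat_lit 2) (nat_lit 1) (nat_lit 2) true (nat_lit 11) true (nat_lit 16) false (nat_lit 5) true (nat_lit 16) true (nat_lit 17) (.s false (nat_lit 2) (nat_lit 69) (nat_lit 2) (nat_lit 1) (nat_lit 2) true (nat_lit 11) true (nat_lit 16) false (nat_lit 5) true (nat_lit 16) true (nat_lit 17) (.s false (nat_lit 3) (nat_lit 72) (nat_lit 2) (nat_lit 1) (nat_lit 2) true (nat_lit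 11) true (nat_lit 16) false (nat_lit 5) true (nat_lit 16) true (nat_lit 17) (.s true (nat_lit 3) (nat_lit 60) (nat_lit 2) (nat_lit 2) (nat_lit 1) true (nat_lit 12) true (nat_lit 17) false (nat_lit 5) true (nat_lit 16) true (nat_lit 16) (.s false (nat_lit 2) (nat_lit 61) (nat_lit 2) (nat_lit 2) (nat_lit 1) true (nat_lit 12) true (nat_lit 17) false (nat_lit 5) true (nat_lit 16) true (nat_lit 16) (.s false (nat_lit 2) (nat_lit 62) (nat_lit 2) (nat_lit 2) (nat_lit 1) true (nat_lit 12) true (nat_lit 17) false (nat_lit 5) true (nat_lit 16) true (nat_lit 16) (.s true (nat_lit 1) (nat_lit 66) (nat_lit 2) (nat_lit 2) (nat_lit 1) true (nat_lit 12) true (nat_lit 17) false (nat_lit 5) true (nat_lit 16) true (nat_lit 16) (.s true (nat_lit 2) (nat_lit 67) (nat_lit 2) (nat_lit 2) (nat_lit 1) true (nat_lit 12) true (nat_lit 17) false (nat_lit 5) true (nat_lit 16) true (nat_lit 16) (.s false (nat_lit 2) (nat_lit 69) (nat_lit 2)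 (nat_lit 2) (nat_lit 1) true (nat_lit 12) true (nat_lit 17) false (nat_lit 5) true (nat_lit 16) true (nat_lit 16) (.s true (nat_lit 1) (nat_lit 72) (nat_lit 2) (nat_lit 2) (nat_lit 1) true (nat_lit 12) true (nat_lit 17) false (nat_lit 5) true (nat_lit 16) true (nat_lit 16) (.s true (nat_lit 3) (nat_lit 74) (nat_lit 0) (nat_lit 2) (nat_lit 2) true (nat_lit 13) true (nat_lit 16) false (nat_lit 6) true (nat_lit 18) true (nat_lit 16) (.s true (nat_lit 2) (nat_lit 79) (nat_lit 2) (nat_lit 2) (nat_lit 0) true (nat_lit 13) true (nat_lit 18) false (nat_lit 6) true (nat_lit 16) true (nat_lit 16) (.s true (nat_lit 3) (nat_lit 81) (nat_lit 1) (nat_lit 1) (nat_lit 2) true (nat_lit 12) true (nat_lit 16) false (nat_lit 7) true (nat_lit 17) true (nat_lit 17) (.s true (nat_lit 3) (nat_lit 89) (nat_lit 1) (nat_lit 2) (nat_lit 1) true (nat_lit 14) true (nat_lit 17) false (nat_lit 7) true (nat_lit 17) true (nat_lit 16) (.s true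 (nat_lit 1) (nat_lit 81) (nat_lit 2) (nat_lit 1) (nat_lit 1) true (nat_lit 12) true (nat_lit 17) false (nat_lit 7) true (nat_lit 16) true (nat_lit 17) (.s false (nat_lit 1) (nat_lit 88) (nat_lit 2) (nat_lit 1) (nat_lit 1) true (nat_lit 12) true (nat_lit 17) false (nat_lit 7) true (nat_lit 16) true (nat_lit 17) (.s true (nat_lit 3) (nat_lit 89) (nat_lit 2) (nat_lit 1) (nat_lit 1) true (nat_lit 12) true (nat_lit 17) false (nat_lit 7) true (nat_lit 16) true (nat_lit 17) (.s true (nat_lit 1) (nat_lit 92) (nat_lit 0) (nat_lit 1) (nat_lit 2) true (nat_lit 13) true (nat_lit 16) false (nat_lit 8) true (nat_lit 18) true (nat_lit 17) (.s true (nat_lit 3) (nat_lit 92) (nat_lit 0) (nat_lit 2) (nat_lit 1) true (nat_lit 15) true (nat_lit 17) false (nat_lit 8) true (nat_lit 18) true (nat_lit 16) (.s false (nat_lit 3) (nat_lit 92) (nat_lit 1) (nat_lit 2) (nat_lit 0) true (nat_lit 15) true (nat_lit 18) false (nat_lit 8) true (nat_lit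 17) true (nat_lit 16) (.s true (nat_lit 3) (nat_lit 92) (nat_lit 2) (nat_lit 0) (nat_lit 1) true (nat_lit 12) true (nat_lit 17) false (nat_lit 8) true (nat_lit 16) true (nat_lit 18) (.s false (nat_lit 1) (nat_lit 92) (nat_lit 2) (nat_lit 1) (nat_lit 0) true (nat_lit 13) true (nat_lit 18) false (nat_lit 8) true (nat_lit 16) true (nat_lit 17) dC2d_i400)))))))))))))))))))))))))

noncomputable def dC2d_i402 : IL := (.s true (nat_lit 1) (nat_lit 34) (nat_lit 2) (nat_lit 1) (nat_lit 6) true (nat_lit 5) true (nat_lit 12) true (nat_lit 0) true (nat_lit 16) true (nat_lit 17) (.s false (nat_lit 2) (nat_lit 34) (nat_lit 2) (nat_lit 6) (nat_lit 1) true (nat_lit 12) true (nat_lit 17) true (nat_lit 0) true (nat_lit 16) true (nat_lit 12) (.s false (nat_lit 1) (nat_lit 33) (nat_lit 6) (nat_lit 1) (nat_lit 2) true (nat_lit 5) true (nat_lit 16) true (nat_lit 0) true (nat_lit 12) true (nat_lit 17) (.s false (nat_lit 2) (nat_lit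 34) (nat_lit 6) (nat_lit 2) (nat_lit 1) true (nat_lit 7) true (nat_lit 17) true (nat_lit 0) true (nat_lit 12) true (nat_lit 16) (.s true (nat_lit 3) (nat_lit 40) (nat_lit 0) (nat_lit 2) (nat_lit 6) true (nat_lit 8) true (nat_lit 12) false (nat_lit 0) true (nat_lit 18) true (nat_lit 16) (.s true (nat_lit 3) (nat_lit 40) (nat_lit 2) (nat_lit 0) (nat_lit 6) true (nat_lit 5) true (nat_lit 12) false (nat_lit 0) true (nat_lit 16) true (nat_lit 18) (.s true (nat_lit 3) (nat_lit 47) (nat_lit 1) (nat_lit 3) (nat_lit 2) true (nat_lit 12) true (nat_lit 16) false (nat_lit 2) true (nat_lit 17) true (nat_lit 15) (.s true (nat_lit 1) (nat_lit 48) (nat_lit 1) (nat_lit 1) (nat_lit 3) true (nat_lit 10) true (nat_lit 15) false (nat_lit 3) true (nat_lit 17) true (nat_lit 17) (.s false (nat_lit 1) (nat_lit 55) (nat_lit 2) (nat_lit 2) (nat_lit 2) true (nat_lit 11) true (nat_lit 16) false (nat_lit 4) true (nat_lit 16) true (nat_lit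 16) (.s true (nat_lit 3) (nat_lit 56) (nat_lit 2) (nat_lit 2) (nat_lit 2) true (nat_lit 11) true (nat_lit 16) false (nat_lit 4) true (nat_lit 16) true (nat_lit 16) (.s true (nat_lit 1) (nat_lit 57) (nat_lit 2) (nat_lit 2) (nat_lit 2) true (nat_lit 11) true (nat_lit 16) false (nat_lit 4) true (nat_lit 16) true (nat_lit 16) (.s false (nat_lit 3) (nat_lit 59) (nat_lit 2) (nat_lit 2) (nat_lit 2) true (nat_lit 11) true (nat_lit 16) false (nat_lit 4) true (nat_lit 16) true (nat_lit 16) (.s true (nat_lit 1) (nat_lit 60) (nat_lit 1) (nat_lit 2) (nat_lit 2) true (nat_lit 12) true (nat_lit 16) false (nat_lit 5) true (nat_lit 17) true (nat_lit 16) (.s false (nat_lit 2) (nat_lit 61) (nat_lit 1) (nat_lit 2) (nat_lit 2) true (nat_lit 12) true (nat_lit 16) false (nat_lit 5) true (nat_lit 17) true (nat_lit 16) (.s true (nat_lit 3) (nat_lit 63) (nat_lit 1) (nat_lit 2) (nat_lit 2) true (nat_lit 12) true (nat_lit 16) false (nat_lit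 5) true (nat_lit 17) true (nat_lit 16) (.s true (nat_lit 3) (nat_lit 64) (nat_lit 1) (nat_lit 2) (nat_lit 2) true (nat_lit 12) true (nat_lit 16) false (nat_lit 5) true (nat_lit 17) true (nat_lit 16) (.s false (nat_lit 1) (nat_lit 65) (nat_lit 1) (nat_lit 2) (nat_lit 2) true (nat_lit 12) true (nat_lit 16) false (nat_lit 5) true (nat_lit 17) true (nat_lit 16) (.s false (nat_lit 1) (nat_lit 66) (nat_lit 1) (nat_lit 2) (nat_lit 2) true (nat_lit 12) true (nat_lit 16) false (nat_lit 5) true (nat_lit 17) true (nat_lit 16) (.s false (nat_lit 2) (nat_lit 68) (nat_lit 1) (nat_lit 2) (nat_lit 2) true (nat_lit 12) true (nat_lit 16) false (nat_lit 5) true (nat_lit 17) true (nat_lit 16) (.s true (nat_lit 2) (nat_lit 69) (nat_lit 1) (nat_lit 2) (nat_lit 2) true (nat_lit 12) true (nat_lit 16) false (nat_lit 5) true (nat_lit 17) true (nat_lit 16) (.s false (nat_lit 3) (nat_lit 71) (nat_lit 1) (nat_lit 2) (nat_lit 2) true (nat_lit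 12) true (nat_lit 16) false (nat_lit 5) true (nat_lit 17) true (nat_lit 16) (.s true (nat_lit 3) (nat_lit 72) (nat_lit 1) (nat_lit 2) (nat_lit 2) true (nat_lit 12) true (nat_lit 16) false (nat_lit 5) true (nat_lit 17) true (nat_lit 16) (.s true (nat_lit 1) (nat_lit 73) (nat_lit 1) (nat_lit 2) (nat_lit 2) true (nat_lit 12) true (nat_lit 16) false (nat_lit 5) true (nat_lit 17) true (nat_lit 16) (.s true (nat_lit 2) (nat_lit 61) (nat_lit 2) (nat_lit 1) (nat_lit 2) true (nat_lit 11) true (nat_lit 16) false (nat_lit 5) true (nat_lit 16) true (nat_lit 17) (.s false (nat_lit 1) (nat_lit 62) (nat_lit 2) (nat_lit 1) (nat_lit 2) true (nat_lit 11) true (nat_lit 16) false (nat_lit 5) true (nat_lit 16) true (nat_lit 17) dC2d_i401)))))))))))))))))))))))))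

noncomputable def dC2d_i403 : IL := (.s false (nat_lit 1) (nat_lit 26) (nat_lit 1) (nat_lit 7) (nat_lit 2) true (nat_lit 12) true (nat_lit 16) true (nat_lit 2) true (nat_lit 17) true (nat_lit 11) (.s true (nat_lit 3) (nat_lit 27) (nat_lit 1) (nat_lit 7) (nat_lit 2) true (nat_lit 12) true (nat_lit 16) true (nat_lit 2) true (nat_lit 17) true (nat_lit 11) (.s true (nat_lit 3) (nat_lit 24) (nat_lit 2) (nat_lit 1) (nat_lit 7) true (nat_lit 4) true (nat_lit 11) true (nat_lit 2) true (nat_lit 16) true (nat_lit 17) (.s false (nat_lit 3) (nat_lit 28) (nat_lit 2) (nat_lit 1) (nat_lit 7) true (nat_lit 4) true (nat_lit 11) true (nat_lit 2) true (nat_lit 16) true (nat_lit 17) (.s false (nat_lit 3) (nat_lit 29) (nat_lit 2) (nat_lit 1) (nat_lit 7) true (nat_lit 4) true (nat_lit 11) true (nat_lit 2) true (nat_lit 16) true (nat_lit 17) (.s false (nat_lit 1) (nat_lit 24) (nat_lit 2) (nat_lit 2) (nat_lit 6) true (nat_lit 5) true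 (nat_lit 12) true (nat_lit 2) true (nat_lit 16) true (nat_lit 16) (.s true (nat_lit 2) (nat_lit 26) (nat_lit 2) (nat_lit 2) (nat_lit 6) true (nat_lit 5) true (nat_lit 12) true (nat_lit 2) true (nat_lit 16) true (nat_lit 16) (.s false (nat_lit 3) (nat_lit 28) (nat_lit 2) (nat_lit 2) (nat_lit 6) true (nat_lit 5) true (nat_lit 12) true (nat_lit 2) true (nat_lit 16) true (nat_lit 16) (.s false (nat_lit 3) (nat_lit 29) (nat_lit 2) (nat_lit 2) (nat_lit 6) true (nat_lit 5) true (nat_lit 12) true (nat_lit 2) true (nat_lit 16) true (nat_lit 16) (.s true (nat_lit 2) (nat_lit 25) (nat_lit 2) (nat_lit 6) (nat_lit 2) true (nat_lit 11) true (nat_lit 16) true (nat_lit 2) true (nat_lit 16) true (nat_lit 12) (.s false (nat_lit 1) (nat_lit 26) (nat_lit 2) (nat_lit 6) (nat_lit 2) true (nat_lit 11) true (nat_lit 16) true (nat_lit 2) true (nat_lit 16) true (nat_lit 12) (.s false (nat_lit 3) (nat_lit 24) (nat_lit 6) (nat_lit 2) (nat_lit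 2) true (nat_lit 5) true (nat_lit 16) true (nat_lit 2) true (nat_lit 12) true (nat_lit 16) (.s true (nat_lit 1) (nat_lit 26) (nat_lit 6) (nat_lit 2) (nat_lit 2) true (nat_lit 5) true (nat_lit 16) true (nat_lit 2) true (nat_lit 12) true (nat_lit 16) (.s false (nat_lit 1) (nat_lit 27) (nat_lit 6) (nat_lit 2) (nat_lit 2) true (nat_lit 5) true (nat_lit 16) true (nat_lit 2) true (nat_lit 12) true (nat_lit 16) (.s true (nat_lit 3) (nat_lit 29) (nat_lit 6) (nat_lit 2) (nat_lit 2) true (nat_lit 5) true (nat_lit 16) true (nat_lit 2) true (nat_lit 12) true (nat_lit 16) (.s true (nat_lit 1) (nat_lit 25) (nat_lit 7) (nat_lit 2) (nat_lit 1) true (nat_lit 5) true (nat_lit 17) true (nat_lit 2) true (nat_lit 11) true (nat_lit 16) (.s false (nat_lit 3) (nat_lit 30) (nat_lit 2) (nat_lit 2) (nat_lit 5) true (nat_lit 6) true (nat_lit 13) true (nat_lit 1) true (nat_lit 16) true (nat_lit 16) (.s true (nat_lit 2) (nat_lit 30) (nat_lit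 5) (nat_lit 2) (nat_lit 2) true (nat_lit 6) true (nat_lit 16) true (nat_lit 1) true (nat_lit 13) true (nat_lit 16) (.s false (nat_lit 2) (nat_lit 34) (nat_lit 1) (nat_lit 1) (nat_lit 7) true (nat_lit 5) true (nat_lit 11) true (nat_lit 0) true (nat_lit 17) true (nat_lit 17) (.s true (nat_lit 2) (nat_lit 38) (nat_lit 1) (nat_lit 1) (nat_lit 7) true (nat_lit 5) true (nat_lit 11) true (nat_lit 0) true (nat_lit 17) true (nat_lit 17) (.s true (nat_lit 1) (nat_lit 33) (nat_lit 1) (nat_lit 2) (nat_lit 6) true (nat_lit 7) true (nat_lit 12) true (nat_lit 0) true (nat_lit 17) true (nat_lit 16) (.s true (nat_lit 1) (nat_lit 34) (nat_lit 1) (nat_lit 2) (nat_lit 6) true (nat_lit 7) true (nat_lit 12) true (nat_lit 0) true (nat_lit 17) true (nat_lit 16) (.s false (nat_lit 1) (nat_lit 33) (nat_lit 1) (nat_lit 6) (nat_lit 2) true (nat_lit 12) true (nat_lit 16) true (nat_lit 0) true (nat_lit 17) true (nat_lit 12) (.s true (nat_lit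 3) (nat_lit 34) (nat_lit 1) (nat_lit 7) (nat_lit 1) true (nat_lit 14) true (nat_lit 17) true (nat_lit 0) true (nat_lit 17) true (nat_lit 11) (.s false (nat_lit 1) (nat_lit 33) (nat_lit 2) (nat_lit 1) (nat_lit 6) true (nat_lit 5) true (nat_lit 12) true (nat_lit 0) true (nat_lit 16) true (nat_lit 17) dC2d_i402)))))))))))))))))))))))))

noncomputable def dC2d_i404 : IL := (.s false (nat_lit 1) (nat_lit 19) (nat_lit 2) (nat_lit 2) (nat_lit 8) true (nat_lit 2) true (nat_lit 10) true (nat_lit 5) true (nat_lit 16) true (nat_lit 16) (.s false (nat_lit 2) (nat_lit 18) (nat_lit 2) (nat_lit 11) (nat_lit 1) true (nat_lit 12) true (nat_lit 17) true (nat_lit 5) true (nat_lit 16) true (nat_lit 8) (.s false (nat_lit 3) (nat_lit 18) (nat_lit 8) (nat_lit 2) (nat_lit 2) true (nat_lit 2) true (nat_lit 16) true (nat_lit 5) true (nat_lit 10) true (nat_lit 16) (.s false (nat_lit 2) (nat_lit 18) (nat_lit 9) (nat_lit 2) (nat_lit 2) true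 (nat_lit 2) true (nat_lit 16) true (nat_lit 5) true (nat_lit 10) true (nat_lit 16) (.s false (nat_lit 2) (nat_lit 19) (nat_lit 9) (nat_lit 2) (nat_lit 2) true (nat_lit 2) true (nat_lit 16) true (nat_lit 5) true (nat_lit 10) true (nat_lit 16) (.s true (nat_lit 1) (nat_lit 19) (nat_lit 11) (nat_lit 2) (nat_lit 1) true (nat_lit 2) true (nat_lit 17) true (nat_lit 5) true (nat_lit 8) true (nat_lit 16) (.s false (nat_lit 3) (nat_lit 18) (nat_lit 15) (nat_lit 0) (nat_lit 2) false (nat_lit 0) true (nat_lit 16) true (nat_lit 5) true (nat_lit 7) true (nat_lit 18) (.s false (nat_lit 3) (nat_lit 18) (nat_lit 15) (nat_lit 2) (nat_lit 0) true (nat_lit 2) true (nat_lit 18) true (nat_lit 5) true (nat_lit 7) true (nat_lit 16) (.s false (nat_lit 2) (nat_lit 20) (nat_lit 0) (nat_lit 2) (nat_lit 10) true (nat_lit 3) true (nat_lit 9) true (nat_lit 4) true (nat_lit 18) true (nat_lit 16) (.s false (nat_lit 2) (nat_lit 20) (nat_lit 0)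 (nat_lit 10) (nat_lit 2) true (nat_lit 13) true (nat_lit 16) true (nat_lit 4) true (nat_lit 18) true (nat_lit 9) (.s true (nat_lit 3) (nat_lit 20) (nat_lit 1) (nat_lit 12) (nat_lit 1) true (nat_lit 14) true (nat_lit 17) true (nat_lit 4) true (nat_lit 17) true (nat_lit 8) (.s false (nat_lit 2) (nat_lit 20) (nat_lit 2) (nat_lit 1) (nat_lit 8) true (nat_lit 2) true (nat_lit 10) true (nat_lit 4) true (nat_lit 16) true (nat_lit 17) (.s true (nat_lit 3) (nat_lit 20) (nat_lit 8) (nat_lit 1) (nat_lit 2) true (nat_lit 2) true (nat_lit 16) true (nat_lit 4) true (nat_lit 10) true (nat_lit 17) (.s true (nat_lit 3) (nat_lit 21) (nat_lit 2) (nat_lit 2) (nat_lit 7) true (nat_lit 4) true (nat_lit 11) true (nat_lit 3) true (nat_lit 16) true (nat_lit 16) (.s false (nat_lit 2) (nat_lit 22) (nat_lit 2) (nat_lit 2) (nat_lit 7) true (nat_lit 4) true (nat_lit 11) true (nat_lit 3) true (nat_lit 16) true (nat_lit 16) (.s true (nat_lit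 2) (nat_lit 23) (nat_lit 2) (nat_lit 2) (nat_lit 7) true (nat_lit 4) true (nat_lit 11) true (nat_lit 3) true (nat_lit 16) true (nat_lit 16) (.s true (nat_lit 2) (nat_lit 21) (nat_lit 2) (nat_lit 7) (nat_lit 2) true (nat_lit 11) true (nat_lit 16) true (nat_lit 3) true (nat_lit 16) true (nat_lit 11) (.s true (nat_lit 1) (nat_lit 22) (nat_lit 2) (nat_lit 7) (nat_lit 2) true (nat_lit 11) true (nat_lit 16) true (nat_lit 3) true (nat_lit 16) true (nat_lit 11) (.s false (nat_lit 1) (nat_lit 23) (nat_lit 2) (nat_lit 7) (nat_lit 2) true (nat_lit 11) true (nat_lit 16) true (nat_lit 3) true (nat_lit 16) true (nat_lit 11) (.s true (nat_lit 2) (nat_lit 21) (nat_lit 7) (nat_lit 2) (nat_lit 2) true (nat_lit 4) true (nat_lit 16) true (nat_lit 3) true (nat_lit 11) true (nat_lit 16) (.s false (nat_lit 3) (nat_lit 24) (nat_lit 1) (nat_lit 2) (nat_lit 7) true (nat_lit 5) true (nat_lit 11) true (nat_lit 2) true (nat_lit 17) true (nat_lit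 16) (.s false (nat_lit 1) (nat_lit 25) (nat_lit 1) (nat_lit 2) (nat_lit 7) true (nat_lit 5) true (nat_lit 11) true (nat_lit 2) true (nat_lit 17) true (nat_lit 16) (.s true (nat_lit 2) (nat_lit 26) (nat_lit 1) (nat_lit 2) (nat_lit 7) true (nat_lit 5) true (nat_lit 11) true (nat_lit 2) true (nat_lit 17) true (nat_lit 16) (.s false (nat_lit 3) (nat_lit 24) (nat_lit 1) (nat_lit 7) (nat_lit 2) true (nat_lit 12) true (nat_lit 16) true (nat_lit 2) true (nat_lit 17) true (nat_lit 11) (.s true (nat_lit 3) (nat_lit 25) (nat_lit 1) (nat_lit 7) (nat_lit 2) true (nat_lit 12) true (nat_lit 16) true (nat_lit 2) true (nat_lit 17) true (nat_lit 11) dC2d_i403)))))))))))))))))))))))))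

noncomputable def dC2d_i405 : IL := (.e true (nat_lit 2) (nat_lit 315) (nat_lit 1) (nat_lit 15) (.e false (nat_lit 2) (nat_lit 136) (nat_lit 7) (nat_lit 9) (.e false (nat_lit 2) (nat_lit 102) (nat_lit 11) (nat_lit 7) (.e false (nat_lit 2) (nat_lit 104) (nat_lit 11) (nat_lit 7) (.e true (nat_lit 2) (nat_lit 48) (nat_lit 24) (nat_lit 2) (.e true (nat_lit 1) (nat_lit 305) (nat_lit 1) (nat_lit 15) (.e false (nat_lit 2) (nat_lit 306) (nat_lit 1) (nat_lit 15) (.e true (nat_lit 2) (nat_lit 307) (nat_lit 1) (nat_lit 15) (.e false (nat_lit 2) (nat_lit 309) (nat_lit 1) (nat_lit 15) (.e true (nat_lit 2) (nat_lit 310) (nat_lit 1) (nat_lit 15) (.e true (nat_lit 1) (nat_lit 311) (nat_lit 1) (nat_lit 15) (.e true (nat_lit 1) (nat_lit 312) (nat_lit 1) (nat_lit 15) (.e true (nat_lit 2) (nat_lit 313) (nat_lit 1) (nat_lit 15) (.e false (nat_lit 1) (nat_lit 321) (nat_lit 1) (nat_lit 15) (.e true (nat_lit 2) (nat_lit 105) (nat_lit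 8) (nat_lit 8) (.e false (nat_lit 2) (nat_lit 48) (nat_lit 26) (nat_lit 2) (.e true (nat_lit 3) (nat_lit 146) (nat_lit 7) (nat_lit 9) (.e false (nat_lit 3) (nat_lit 80) (nat_lit 19) (nat_lit 4) (.e true (nat_lit 1) (nat_lit 324) (nat_lit 0) (nat_lit 16) (.e false (nat_lit 3) (nat_lit 326) (nat_lit 0) (nat_lit 16) (.e true (nat_lit 2) (nat_lit 327) (nat_lit 0) (nat_lit 16) (.e true (nat_lit 1) (nat_lit 328) (nat_lit 0) (nat_lit 16) (.e false (nat_lit 1) (nat_lit 325) (nat_lit 0) (nat_lit 16) (.u (nat_lit 2) (.p (nat_lit 1) (nat_lit 6) (.n (nat_lit 3) (nat_lit 2) (.n (nat_lit 4) (nat_lit 2) (.n (nat_lit 5) (nat_lit 1) (.n (nat_lit 6) (nat_lit 2) (.n (nat_lit 7) (nat_lit 3) (.p (nat_lit 8) (nat_lit 2) (.n (nat_lit 9) (nat_lit 3) (.p (nat_lit 10) (nat_lit 2) (.n (nat_lit 12) (nat_lit 1) (.p (nat_lit 13) (nat_lit 6) (.p (nat_lit 14) (nat_lit 2) (.p (nat_lit 15) (nat_lit 4) (.p (nat_lit 16) (nat_lit 4) (.p (nat_lit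 17) (nat_lit 1) (.p (nat_lit 18) (nat_lit 1) (.n (nat_lit 21) (nat_lit 3) (.n (nat_lit 23) (nat_lit 4) (.p (nat_lit 24) (nat_lit 3) (.p (nat_lit 25) (nat_lit 2) (.n (nat_lit 28) (nat_lit 1) (.n (nat_lit 29) (nat_lit 1) (.n (nat_lit 30) (nat_lit 3) (.p (nat_lit 31) (nat_lit 1) (.p (nat_lit 34) (nat_lit 3) (.n (nat_lit 35) (nat_lit 3) (.p (nat_lit 38) (nat_lit 1) (.p (nat_lit 52) (nat_lit 1) (.p (nat_lit 75) (nat_lit 1) (.p (nat_lit 106) (nat_lit 1) (.n (nat_lit 133) (nat_lit 2) (.p (nat_lit 134) (nat_lit 1) (.n (nat_lit 135) (nat_lit 1) (.p (nat_lit 143) (nat_lit 1) (.p (nat_lit 145) (nat_lit 1) (.p (nat_lit 148) (nat_lit 1) (.p (nat_lit 149) (nat_lit 1) (.n (nat_lit 150) (nat_lit 1) (.n (nat_lit 154) (nat_lit 1) (.n (nat_lit 157) (nat_lit 1) (.p (nat_lit 165) (nat_lit 2) (.p (nat_lit 177) (nat_lit 1) (.p (nat_lit 205) (nat_lit 4) (.n (nat_lit 206) (nat_lit 3) (.p (nat_lit 207) (nat_lit 1) (.p (nat_lit 208) (nat_lit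 3) (.p (nat_lit 209) (nat_lit 3) (.n (nat_lit 210) (nat_lit 3) (.p (nat_lit 211) (nat_lit 8) (.n (nat_lit 212) (nat_lit 13) (.p (nat_lit 214) (nat_lit 1) (.n (nat_lit 216) (nat_lit 4) (.p (nat_lit 217) (nat_lit 3) (.p (nat_lit 218) (nat_lit 5) (.p (nat_lit 219) (nat_lit 6) (.p (nat_lit 221) (nat_lit 1) (.p (nat_lit 223) (nat_lit 1) (.n (nat_lit 224) (nat_lit 4) (.n (nat_lit 225) (nat_lit 2) (.p (nat_lit 226) (nat_lit 2) .z)))))))))))))))))))))))))))))))))))))))))))))))))))))))))))) (.u (nat_lit 2) (.p (nat_lit 227) (nat_lit 2) (.n (nat_lit 228) (nat_lit 1) (.p (nat_lit 229) (nat_lit 6) (.p (nat_lit 230) (nat_lit 1) (.n (nat_lit 231) (nat_lit 1) (.n (nat_lit 232) (nat_lit 2) (.p (nat_lit 236) (nat_lit 2) (.p (nat_lit 241) (nat_lit 1) (.n (nat_lit 245) (nat_lit 1) (.p (nat_lit 246) (nat_lit 1) (.n (nat_lit 250) (nat_lit 1) (.n (nat_lit 251) (nat_lit 1) (.n (nat_lit 253) (nat_lit 1) (.n (nat_lit 258) (nat_lit 1)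 .z)))))))))))))) .nil)))))))))))))))))))))))))

noncomputable def dC2d_i406 : IL := (.e false (nat_lit 3) (nat_lit 252) (nat_lit 2) (nat_lit 14) (.e false (nat_lit 1) (nat_lit 254) (nat_lit 2) (nat_lit 14) (.e false (nat_lit 2) (nat_lit 258) (nat_lit 2) (nat_lit 14) (.e true (nat_lit 3) (nat_lit 259) (nat_lit 2) (nat_lit 14) (.e true (nat_lit 2) (nat_lit 261) (nat_lit 2) (nat_lit 14) (.e false (nat_lit 3) (nat_lit 263) (nat_lit 2) (nat_lit 14) (.e false (nat_lit 1) (nat_lit 265) (nat_lit 2) (nat_lit 14) (.e false (nat_lit 3) (nat_lit 267) (nat_lit 2) (nat_lit 14) (.e false (nat_lit 2) (nat_lit 274) (nat_lit 2) (nat_lit 14) (.e false (nat_lit 2) (nat_lit 275) (nat_lit 2) (nat_lit 14) (.e true (nat_lit 1) (nat_lit 272) (nat_lit 2) (nat_lit 14) (.e true (nat_lit 2) (nat_lit 269) (nat_lit 2) (nat_lit 14) (.e false (nat_lit 1) (nat_lit 253) (nat_lit 2) (nat_lit 14) (.e true (nat_lit 2) (nat_lit 257) (nat_lit 2) (nat_lit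 14) (.e true (nat_lit 1) (nat_lit 262) (nat_lit 2) (nat_lit 14) (.e false (nat_lit 2) (nat_lit 273) (nat_lit 2) (nat_lit 14) (.e false (nat_lit 3) (nat_lit 277) (nat_lit 2) (nat_lit 14) (.e false (nat_lit 1) (nat_lit 317) (nat_lit 1) (nat_lit 15) (.e false (nat_lit 1) (nat_lit 266) (nat_lit 2) (nat_lit 14) (.e false (nat_lit 1) (nat_lit 284) (nat_lit 2) (nat_lit 14) (.e true (nat_lit 1) (nat_lit 285) (nat_lit 2) (nat_lit 14) (.e true (nat_lit 1) (nat_lit 322) (nat_lit 1) (nat_lit 15) (.e false (nat_lit 1) (nat_lit 318) (nat_lit 1) (nat_lit 15) (.e false (nat_lit 3) (nat_lit 323) (nat_lit 1) (nat_lit 15) (.e false (nat_lit 2) (nat_lit 314) (nat_lit 1) (nat_lit 15) dC2d_i405)))))))))))))))))))))))))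

noncomputable def dC2d_i407 : IL := (.s true (nat_lit 2) (nat_lit 27) (nat_lit 2) (nat_lit 7) (nat_lit 2) true (nat_lit 9) true (nat_lit 14) true (nat_lit 2) true (nat_lit 14) true (nat_lit 9) (.s true (nat_lit 2) (nat_lit 27) (nat_lit 7) (nat_lit 2) (nat_lit 2) true (nat_lit 3) true (nat_lit 14) true (nat_lit 2) true (nat_lit 9) true (nat_lit 14) (.s true (nat_lit 3) (nat_lit 34) (nat_lit 1) (nat_lit 7) (nat_lit 2) true (nat_lit 10) true (nat_lit 14) true (nat_lit 1) true (nat_lit 15) true (nat_lit 9) (.s true (nat_lit 1) (nat_lit 34) (nat_lit 2) (nat_lit 2) (nat_lit 6) true (nat_lit 4) true (nat_lit 10) true (nat_lit 1) true (nat_lit 14) true (nat_lit 14) (.s true (nat_lit 3) (nat_lit 35) (nat_lit 2) (nat_lit 2) (nat_lit 6) true (nat_lit 4) true (nat_lit 10) true (nat_lit 1) true (nat_lit 14) true (nat_lit 14) (.s false (nat_lit 3) (nat_lit 35) (nat_lit 6) (nat_lit 2) (nat_lit 2) true (nat_lit 4) true (nat_lit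 14) true (nat_lit 1) true (nat_lit 10) true (nat_lit 14) (.s false (nat_lit 2) (nat_lit 48) (nat_lit 3) (nat_lit 1) (nat_lit 2) true (nat_lit 7) true (nat_lit 14) false (nat_lit 2) true (nat_lit 13) true (nat_lit 15) (.s true (nat_lit 2) (nat_lit 48) (nat_lit 3) (nat_lit 2) (nat_lit 1) true (nat_lit 8) true (nat_lit 15) false (nat_lit 2) true (nat_lit 13) true (nat_lit 14) (.s true (nat_lit 1) (nat_lit 68) (nat_lit 2) (nat_lit 2) (nat_lit 2) true (nat_lit 9) true (nat_lit 14) false (nat_lit 3) true (nat_lit 14) true (nat_lit 14) (.s false (nat_lit 3) (nat_lit 80) (nat_lit 1) (nat_lit 2) (nat_lit 2) true (nat_lit 10) true (nat_lit 14) false (nat_lit 4) true (nat_lit 15) true (nat_lit 14) (.s false (nat_lit 1) (nat_lit 81) (nat_lit 1) (nat_lit 2) (nat_lit 2) true (nat_lit 10) true (nat_lit 14) false (nat_lit 4) true (nat_lit 15) true (nat_lit 14) (.s false (nat_lit 3) (nat_lit 82) (nat_lit 1) (nat_lit 2) (nat_lit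 2) true (nat_lit 10) true (nat_lit 14) false (nat_lit 4) true (nat_lit 15) true (nat_lit 14) (.s true (nat_lit 3) (nat_lit 80) (nat_lit 2) (nat_lit 1) (nat_lit 2) true (nat_lit 9) true (nat_lit 14) false (nat_lit 4) true (nat_lit 14) true (nat_lit 15) (.s true (nat_lit 3) (nat_lit 80) (nat_lit 2) (nat_lit 2) (nat_lit 1) true (nat_lit 10) true (nat_lit 15) false (nat_lit 4) true (nat_lit 14) true (nat_lit 14) (.s false (nat_lit 3) (nat_lit 90) (nat_lit 2) (nat_lit 2) (nat_lit 1) true (nat_lit 10) true (nat_lit 15) false (nat_lit 4) true (nat_lit 14) true (nat_lit 14) (.s false (nat_lit 1) (nat_lit 102) (nat_lit 1) (nat_lit 2) (nat_lit 0) true (nat_lit 13) true (nat_lit 16) false (nat_lit 7) true (nat_lit 15) true (nat_lit 14) (.s true (nat_lit 1) (nat_lit 103) (nat_lit 1) (nat_lit 2) (nat_lit 0) true (nat_lit 13) true (nat_lit 16) false (nat_lit 7) true (nat_lit 15) true (nat_lit 14) (.s false (nat_lit 1) (nat_lit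 104) (nat_lit 1) (nat_lit 2) (nat_lit 0) true (nat_lit 13) true (nat_lit 16) false (nat_lit 7) true (nat_lit 15) true (nat_lit 14) (.e true (nat_lit 1) (nat_lit 66) (nat_lit 20) (nat_lit 3) (.e false (nat_lit 1) (nat_lit 72) (nat_lit 20) (nat_lit 3) (.e true (nat_lit 2) (nat_lit 135) (nat_lit 7) (nat_lit 9) (.e false (nat_lit 1) (nat_lit 138) (nat_lit 7) (nat_lit 9) (.e true (nat_lit 2) (nat_lit 140) (nat_lit 7) (nat_lit 9) (.e true (nat_lit 1) (nat_lit 144) (nat_lit 7) (nat_lit 9) (.e false (nat_lit 2) (nat_lit 147) (nat_lit 7) (nat_lit 9) dC2d_i406)))))))))))))))))))))))))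

noncomputable def dC2d_i408 : IL := (.e false (nat_lit 1) (nat_lit 260) (nat_lit 1) (nat_lit 17) (.e false (nat_lit 1) (nat_lit 284) (nat_lit 1) (nat_lit 17) (.e true (nat_lit 1) (nat_lit 294) (nat_lit 0) (nat_lit 18) (.e true (nat_lit 1) (nat_lit 153) (nat_lit 6) (nat_lit 12) (.e false (nat_lit 3) (nat_lit 130) (nat_lit 7) (nat_lit 11) (.e true (nat_lit 2) (nat_lit 278) (nat_lit 1) (nat_lit 17) (.e true (nat_lit 3) (nat_lit 261) (nat_lit 1) (nat_lit 17) (.e false (nat_lit 2) (nat_lit 274) (nat_lit 1) (nat_lit 17) (.e true (nat_lit 3) (nat_lit 275) (nat_lit 1) (nat_lit 17) (.e true (nat_lit 1) (nat_lit 280) (nat_lit 1) (nat_lit 17) (.e true (nat_lit 3) (nat_lit 282) (nat_lit 1) (nat_lit 17) (.e true (nat_lit 1) (nat_lit 286) (nat_lit 1) (nat_lit 17) (.e true (nat_lit 1) (nat_lit 289) (nat_lit 0) (nat_lit 18) (.e true (nat_lit 3) (nat_lit 290) (nat_lit 0) (nat_lit 18) (.e true (nat_lit 2) (nat_lit 291) (nat_lit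 0) (nat_lit 18) (.e true (nat_lit 2) (nat_lit 292) (nat_lit 0) (nat_lit 18) (.e true (nat_lit 3) (nat_lit 293) (nat_lit 0) (nat_lit 18) (.e true (nat_lit 2) (nat_lit 295) (nat_lit 0) (nat_lit 18) (.e false (nat_lit 1) (nat_lit 304) (nat_lit 0) (nat_lit 18) (.e false (nat_lit 3) (nat_lit 297) (nat_lit 0) (nat_lit 18) (.e false (nat_lit 1) (nat_lit 300) (nat_lit 0) (nat_lit 18) (.e true (nat_lit 2) (nat_lit 301) (nat_lit 0) (nat_lit 18) (.u (nat_lit 2) (.n (nat_lit 0) (nat_lit 3) (.p (nat_lit 1) (nat_lit 2) (.n (nat_lit 2) (nat_lit 4) (.p (nat_lit 3) (nat_lit 1) (.n (nat_lit 4) (nat_lit 1) (.p (nat_lit 5) (nat_lit 1) (.n (nat_lit 6) (nat_lit 1) (.n (nat_lit 7) (nat_lit 3) (.p (nat_lit 8) (nat_lit 1) (.p (nat_lit 10) (nat_lit 3) (.n (nat_lit 12) (nat_lit 2) (.n (nat_lit 15) (nat_lit 3) (.p (nat_lit 16) (nat_lit 4) (.n (nat_lit 17) (nat_lit 4) (.p (nat_lit 19) (nat_lit 2) (.n (nat_lit 20) (nat_lit 4) (.p (nat_lit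 21) (nat_lit 1) (.n (nat_lit 22) (nat_lit 1) (.p (nat_lit 23) (nat_lit 4) (.n (nat_lit 24) (nat_lit 1) (.n (nat_lit 25) (nat_lit 1) (.p (nat_lit 26) (nat_lit 2) (.p (nat_lit 27) (nat_lit 3) (.p (nat_lit 28) (nat_lit 1) (.n (nat_lit 29) (nat_lit 1) (.n (nat_lit 31) (nat_lit 3) (.n (nat_lit 32) (nat_lit 3) (.p (nat_lit 33) (nat_lit 1) (.n (nat_lit 34) (nat_lit 1) (.p (nat_lit 35) (nat_lit 1) (.p (nat_lit 36) (nat_lit 4) (.n (nat_lit 38) (nat_lit 1) (.n (nat_lit 39) (nat_lit 1) (.n (nat_lit 40) (nat_lit 3) (.n (nat_lit 42) (nat_lit 1) (.n (nat_lit 44) (nat_lit 3) (.n (nat_lit 45) (nat_lit 3) (.n (nat_lit 46) (nat_lit 1) (.n (nat_lit 47) (nat_lit 1) (.p (nat_lit 48) (nat_lit 1) (.p (nat_lit 55) (nat_lit 2) (.n (nat_lit 89) (nat_lit 1) (.p (nat_lit 91) (nat_lit 1) (.n (nat_lit 110) (nat_lit 1) (.p (nat_lit 111) (nat_lit 1) (.p (nat_lit 113) (nat_lit 1) (.n (nat_lit 120) (nat_lit 1) (.p (nat_lit 121) (nat_lit 1) (.n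 (nat_lit 204) (nat_lit 1) (.n (nat_lit 206) (nat_lit 1) (.p (nat_lit 207) (nat_lit 1) (.n (nat_lit 208) (nat_lit 1) (.p (nat_lit 213) (nat_lit 1) (.n (nat_lit 214) (nat_lit 2) (.n (nat_lit 215) (nat_lit 1) (.n (nat_lit 216) (nat_lit 2) (.p (nat_lit 217) (nat_lit 1) (.n (nat_lit 219) (nat_lit 1) (.p (nat_lit 221) (nat_lit 1) (.p (nat_lit 224) (nat_lit 1) .z)))))))))))))))))))))))))))))))))))))))))))))))))))))))))))) (.u (nat_lit 2) (.n (nat_lit 225) (nat_lit 1) (.p (nat_lit 229) (nat_lit 2) (.n (nat_lit 239) (nat_lit 1) (.p (nat_lit 259) (nat_lit 1) (.p (nat_lit 274) (nat_lit 1) (.n (nat_lit 304) (nat_lit 6) (.n (nat_lit 305) (nat_lit 3) (.p (nat_lit 306) (nat_lit 2) (.n (nat_lit 308) (nat_lit 1) (.p (nat_lit 309) (nat_lit 1) (.p (nat_lit 310) (nat_lit 3) (.n (nat_lit 311) (nat_lit 1) (.p (nat_lit 314) (nat_lit 1) (.n (nat_lit 315) (nat_lit 1) (.n (nat_lit 318) (nat_lit 1) (.n (nat_lit 319) (nat_lit 2) (.n (nat_lit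 322) (nat_lit 4) (.p (nat_lit 323) (nat_lit 2) (.p (nat_lit 324) (nat_lit 1) (.p (nat_lit 326) (nat_lit 4) (.p (nat_lit 327) (nat_lit 2) (.p (nat_lit 328) (nat_lit 1) (.p (nat_lit 329) (nat_lit 2) (.p (nat_lit 339) (nat_lit 4) (.p (nat_lit 340) (nat_lit 3) (.p (nat_lit 341) (nat_lit 1) (.p (nat_lit 342) (nat_lit 3) (.n (nat_lit 343) (nat_lit 1) (.n (nat_lit 344) (nat_lit 2) (.n (nat_lit 345) (nat_lit 3) (.p (nat_lit 346) (nat_lit 2) (.p (nat_lit 348) (nat_lit 5) (.n (nat_lit 349) (nat_lit 2) (.n (nat_lit 350) (nat_lit 5) (.p (nat_lit 351) (nat_lit 7) (.p (nat_lit 352) (nat_lit 2) (.p (nat_lit 353) (nat_lit 3) (.n (nat_lit 354) (nat_lit 1) (.n (nat_lit 355) (nat_lit 12) (.n (nat_lit 356) (nat_lit 1) (.p (nat_lit 357) (nat_lit 1) (.n (nat_lit 358) (nat_lit 5) (.n (nat_lit 359) (nat_lit 2) (.p (nat_lit 360) (nat_lit 4) (.n (nat_lit 361) (nat_lit 5) (.p (nat_lit 362) (nat_lit 6) (.n (nat_lit 363) (nat_lit 4) (.p (nat_lit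 364) (nat_lit 5) (.n (nat_lit 366) (nat_lit 4) (.p (nat_lit 367) (nat_lit 6) (.n (nat_lit 368) (nat_lit 8) (.n (nat_lit 369) (nat_lit 2) (.n (nat_lit 370) (nat_lit 8) (.n (nat_lit 372) (nat_lit 1) (.p (nat_lit 373) (nat_lit 8) (.p (nat_lit 374) (nat_lit 9) (.p (nat_lit 375) (nat_lit 4) (.p (nat_lit 376) (nat_lit 2) (.n (nat_lit 377) (nat_lit 3) (.p (nat_lit 380) (nat_lit 2) .z)))))))))))))))))))))))))))))))))))))))))))))))))))))))))))) (.u (nat_lit 2) (.n (nat_lit 382) (nat_lit 6) (.p (nat_lit 383) (nat_lit 2) (.p (nat_lit 385) (nat_lit 2) (.p (nat_lit 387) (nat_lit 1) (.p (nat_lit 389) (nat_lit 1) (.p (nat_lit 390) (nat_lit 1) (.n (nat_lit 395) (nat_lit 1) (.p (nat_lit 400) (nat_lit 2) (.n (nat_lit 401) (nat_lit 1) .z))))))))) .nil)))))))))))))))))))))))))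

noncomputable def dC2d_i409 : IL := (.e false (nat_lit 1) (nat_lit 255) (nat_lit 1) (nat_lit 17) (.e true (nat_lit 1) (nat_lit 262) (nat_lit 1) (nat_lit 17) (.e true (nat_lit 1) (nat_lit 264) (nat_lit 1) (nat_lit 17) (.e false (nat_lit 3) (nat_lit 266) (nat_lit 1) (nat_lit 17) (.e false (nat_lit 1) (nat_lit 209) (nat_lit 2) (nat_lit 16) (.e false (nat_lit 3) (nat_lit 211) (nat_lit 2) (nat_lit 16) (.e true (nat_lit 1) (nat_lit 212) (nat_lit 2) (nat_lit 16) (.e true (nat_lit 3) (nat_lit 213) (nat_lit 2) (nat_lit 16) (.e false (nat_lit 1) (nat_lit 214) (nat_lit 2) (nat_lit 16) (.e false (nat_lit 1) (nat_lit 217) (nat_lit 2) (nat_lit 16) (.e true (nat_lit 2) (nat_lit 219) (nat_lit 2) (nat_lit 16) (.e false (nat_lit 2) (nat_lit 221) (nat_lit 2) (nat_lit 16) (.e true (nat_lit 2) (nat_lit 228) (nat_lit 2) (nat_lit 16) (.e true (nat_lit 2) (nat_lit 246) (nat_lit 2) (nat_lit 16) (.e false (nat_lit 3) (nat_lit 247) (nat_lit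 2) (nat_lit 16) (.e true (nat_lit 1) (nat_lit 248) (nat_lit 2) (nat_lit 16) (.e true (nat_lit 1) (nat_lit 206) (nat_lit 2) (nat_lit 16) (.e true (nat_lit 2) (nat_lit 207) (nat_lit 2) (nat_lit 16) (.e true (nat_lit 2) (nat_lit 243) (nat_lit 2) (nat_lit 16) (.e false (nat_lit 3) (nat_lit 231) (nat_lit 2) (nat_lit 16) (.e false (nat_lit 2) (nat_lit 232) (nat_lit 2) (nat_lit 16) (.e true (nat_lit 1) (nat_lit 298) (nat_lit 0) (nat_lit 18) (.e true (nat_lit 2) (nat_lit 303) (nat_lit 0) (nat_lit 18) (.e true (nat_lit 1) (nat_lit 104) (nat_lit 9) (nat_lit 10) (.e true (nat_lit 1) (nat_lit 259) (nat_lit 1) (nat_lit 17) dC2d_i408)))))))))))))))))))))))))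

noncomputable def dC2d_i410 : IL := (.s false (nat_lit 1) (nat_lit 103) (nat_lit 0) (nat_lit 1) (nat_lit 1) true (nat_lit 15) true (nat_lit 17) false (nat_lit 10) true (nat_lit 18) true (nat_lit 17) (.s false (nat_lit 1) (nat_lit 101) (nat_lit 1) (nat_lit 1) (nat_lit 0) true (nat_lit 15) true (nat_lit 18) false (nat_lit 10) true (nat_lit 17) true (nat_lit 17) (.s true (nat_lit 1) (nat_lit 103) (nat_lit 1) (nat_lit 1) (nat_lit 0) true (nat_lit 15) true (nat_lit 18) false (nat_lit 10) true (nat_lit 17) true (nat_lit 17) (.e true (nat_lit 2) (nat_lit 205) (nat_lit 2) (nat_lit 16) (.e true (nat_lit 1) (nat_lit 208) (nat_lit 2) (nat_lit 16) (.e true (nat_lit 2) (nat_lit 216) (nat_lit 2) (nat_lit 16) (.e false (nat_lit 2) (nat_lit 227) (nat_lit 2) (nat_lit 16) (.e true (nat_lit 1) (nat_lit 242) (nat_lit 2) (nat_lit 16) (.e false (nat_lit 1) (nat_lit 251) (nat_lit 2) (nat_lit 16) (.e false (nat_lit 1) (nat_lit 131)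 (nat_lit 7) (nat_lit 11) (.e false (nat_lit 3) (nat_lit 285) (nat_lit 1) (nat_lit 17) (.e true (nat_lit 1) (nat_lit 252) (nat_lit 1) (nat_lit 17) (.e false (nat_lit 2) (nat_lit 253) (nat_lit 1) (nat_lit 17) (.e true (nat_lit 2) (nat_lit 254) (nat_lit 1) (nat_lit 17) (.e false (nat_lit 2) (nat_lit 258) (nat_lit 1) (nat_lit 17) (.e true (nat_lit 1) (nat_lit 263) (nat_lit 1) (nat_lit 17) (.e false (nat_lit 3) (nat_lit 265) (nat_lit 1) (nat_lit 17) (.e true (nat_lit 2) (nat_lit 267) (nat_lit 1) (nat_lit 17) (.e true (nat_lit 3) (nat_lit 269) (nat_lit 1) (nat_lit 17) (.e false (nat_lit 1) (nat_lit 270) (nat_lit 1) (nat_lit 17) (.e false (nat_lit 3) (nat_lit 271) (nat_lit 1) (nat_lit 17) (.e false (nat_lit 1) (nat_lit 272) (nat_lit 1) (nat_lit 17) (.e false (nat_lit 1) (nat_lit 273) (nat_lit 1) (nat_lit 17) (.e true (nat_lit 3) (nat_lit 276) (nat_lit 1) (nat_lit 17) (.e true (nat_lit 2) (nat_lit 277) (nat_lit 1) (nat_lit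 17) dC2d_i409)))))))))))))))))))))))))

noncomputable def dC2d_i411 : IL := (.s false (nat_lit 3) (nat_lit 20) (nat_lit 10) (nat_lit 0) (nat_lit 2) true (nat_lit 1) true (nat_lit 16) true (nat_lit 4) true (nat_lit 9) true (nat_lit 18) (.s false (nat_lit 1) (nat_lit 21) (nat_lit 2) (nat_lit 2) (nat_lit 7) true (nat_lit 4) true (nat_lit 11) true (nat_lit 3) true (nat_lit 16) true (nat_lit 16) (.s true (nat_lit 2) (nat_lit 22) (nat_lit 2) (nat_lit 2) (nat_lit 7) true (nat_lit 4) true (nat_lit 11) true (nat_lit 3) true (nat_lit 16) true (nat_lit 16) (.s false (nat_lit 3) (nat_lit 24) (nat_lit 1) (nat_lit 2) (nat_lit 7) true (nat_lit 5) true (nat_lit 11) true (nat_lit 2) true (nat_lit 17) true (nat_lit 16) (.s true (nat_lit 3) (nat_lit 24) (nat_lit 1) (nat_lit 7) (nat_lit 2) true (nat_lit 12) true (nat_lit 16) true (nat_lit 2) true (nat_lit 17) true (nat_lit 11) (.s true (nat_lit 1) (nat_lit 24) (nat_lit 2) (nat_lit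 2) (nat_lit 6) true (nat_lit 5) true (nat_lit 12) true (nat_lit 2) true (nat_lit 16) true (nat_lit 16) (.s false (nat_lit 1) (nat_lit 25) (nat_lit 2) (nat_lit 7) (nat_lit 1) true (nat_lit 12) true (nat_lit 17) true (nat_lit 2) true (nat_lit 16) true (nat_lit 11) (.s true (nat_lit 3) (nat_lit 24) (nat_lit 6) (nat_lit 2) (nat_lit 2) true (nat_lit 5) true (nat_lit 16) true (nat_lit 2) true (nat_lit 12) true (nat_lit 16) (.s false (nat_lit 3) (nat_lit 30) (nat_lit 2) (nat_lit 0) (nat_lit 7) true (nat_lit 4) true (nat_lit 11) true (nat_lit 1) true (nat_lit 16) true (nat_lit 18) (.s true (nat_lit 1) (nat_lit 30) (nat_lit 5) (nat_lit 2) (nat_lit 2) true (nat_lit 6) true (nat_lit 16) true (nat_lit 1) true (nat_lit 13) true (nat_lit 16) (.s true (nat_lit 1) (nat_lit 52) (nat_lit 2) (nat_lit 2) (nat_lit 2) true (nat_lit 11) true (nat_lit 16) false (nat_lit 4) true (nat_lit 16) true (nat_lit 16) (.s true (nat_lit 3) (nat_lit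 55) (nat_lit 2) (nat_lit 2) (nat_lit 2) true (nat_lit 11) true (nat_lit 16) false (nat_lit 4) true (nat_lit 16) true (nat_lit 16) (.s false (nat_lit 3) (nat_lit 56) (nat_lit 2) (nat_lit 2) (nat_lit 2) true (nat_lit 11) true (nat_lit 16) false (nat_lit 4) true (nat_lit 16) true (nat_lit 16) (.s false (nat_lit 3) (nat_lit 57) (nat_lit 2) (nat_lit 2) (nat_lit 2) true (nat_lit 11) true (nat_lit 16) false (nat_lit 4) true (nat_lit 16) true (nat_lit 16) (.s true (nat_lit 3) (nat_lit 58) (nat_lit 2) (nat_lit 2) (nat_lit 2) true (nat_lit 11) true (nat_lit 16) false (nat_lit 4) true (nat_lit 16) true (nat_lit 16) (.s true (nat_lit 3) (nat_lit 59) (nat_lit 2) (nat_lit 2) (nat_lit 2) true (nat_lit 11) true (nat_lit 16) false (nat_lit 4) true (nat_lit 16) true (nat_lit 16) (.s true (nat_lit 3) (nat_lit 60) (nat_lit 1) (nat_lit 2) (nat_lit 2) true (nat_lit 12) true (nat_lit 16) false (nat_lit 5) true (nat_lit 17) true (nat_lit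 16) (.s true (nat_lit 1) (nat_lit 61) (nat_lit 1) (nat_lit 2) (nat_lit 2) true (nat_lit 12) true (nat_lit 16) false (nat_lit 5) true (nat_lit 17) true (nat_lit 16) (.s true (nat_lit 1) (nat_lit 72) (nat_lit 1) (nat_lit 2) (nat_lit 2) true (nat_lit 12) true (nat_lit 16) false (nat_lit 5) true (nat_lit 17) true (nat_lit 16) (.s false (nat_lit 3) (nat_lit 60) (nat_lit 2) (nat_lit 1) (nat_lit 2) true (nat_lit 11) true (nat_lit 16) false (nat_lit 5) true (nat_lit 16) true (nat_lit 17) (.s true (nat_lit 3) (nat_lit 60) (nat_lit 2) (nat_lit 2) (nat_lit 1) true (nat_lit 12) true (nat_lit 17) false (nat_lit 5) true (nat_lit 16) true (nat_lit 16) (.s false (nat_lit 1) (nat_lit 61) (nat_lit 2) (nat_lit 2) (nat_lit 1) true (nat_lit 12) true (nat_lit 17) false (nat_lit 5) true (nat_lit 16) true (nat_lit 16) (.s false (nat_lit 2) (nat_lit 72) (nat_lit 2) (nat_lit 2) (nat_lit 1) true (nat_lit 12) true (nat_lit 17) false (nat_lit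 5) true (nat_lit 16) true (nat_lit 16) (.s false (nat_lit 3) (nat_lit 79) (nat_lit 2) (nat_lit 2) (nat_lit 0) true (nat_lit 13) true (nat_lit 18) false (nat_lit 6) true (nat_lit 16) true (nat_lit 16) (.s true (nat_lit 1) (nat_lit 101) (nat_lit 0) (nat_lit 1) (nat_lit 1) true (nat_lit 15) true (nat_lit 17) false (nat_lit 10) true (nat_lit 18) true (nat_lit 17) dC2d_i410)))))))))))))))))))))))))

noncomputable def dC2d_i412 : IL := (.e true (nat_lit 3) (nat_lit 261) (nat_lit 1) (nat_lit 17) (.e false (nat_lit 1) (nat_lit 275) (nat_lit 1) (nat_lit 17) (.e true (nat_lit 3) (nat_lit 279) (nat_lit 1) (nat_lit 17) (.e false (nat_lit 2) (nat_lit 282) (nat_lit 1) (nat_lit 17) (.e false (nat_lit 3) (nat_lit 256) (nat_lit 1) (nat_lit 17) (.e false (nat_lit 2) (nat_lit 170) (nat_lit 4) (nat_lit 14) (.e false (nat_lit 2) (nat_lit 289) (nat_lit 0) (nat_lit 18) (.e true (nat_lit 1) (nat_lit 291) (nat_lit 0) (nat_lit 18) (.e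 false (nat_lit 1) (nat_lit 292) (nat_lit 0) (nat_lit 18) (.e true (nat_lit 3) (nat_lit 293) (nat_lit 0) (nat_lit 18) (.e false (nat_lit 2) (nat_lit 295) (nat_lit 0) (nat_lit 18) (.e true (nat_lit 2) (nat_lit 297) (nat_lit 0) (nat_lit 18) (.e true (nat_lit 3) (nat_lit 298) (nat_lit 0) (nat_lit 18) (.e true (nat_lit 3) (nat_lit 300) (nat_lit 0) (nat_lit 18) (.e true (nat_lit 3) (nat_lit 301) (nat_lit 0) (nat_lit 18) (.e true (nat_lit 2) (nat_lit 303) (nat_lit 0) (nat_lit 18) (.e true (nat_lit 2) (nat_lit 304) (nat_lit 0) (nat_lit 18) (.e true (nat_lit 3) (nat_lit 284) (nat_lit 1) (nat_lit 17) (.e false (nat_lit 3) (nat_lit 62) (nat_lit 18) (nat_lit 5) (.e false (nat_lit 3) (nat_lit 296) (nat_lit 0) (nat_lit 18) (.e true (nat_lit 2) (nat_lit 280) (nat_lit 1) (nat_lit 17) (.u (nat_lit 2) (.n (nat_lit 1) (nat_lit 2) (.n (nat_lit 2) (nat_lit 3) (.p (nat_lit 3) (nat_lit 10) (.n (nat_lit 4) (nat_lit 6) (.n (nat_lit 5)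 (nat_lit 1) (.p (nat_lit 6) (nat_lit 2) (.n (nat_lit 8) (nat_lit 2) (.n (nat_lit 9) (nat_lit 2) (.n (nat_lit 10) (nat_lit 1) (.p (nat_lit 12) (nat_lit 1) (.n (nat_lit 14) (nat_lit 2) (.n (nat_lit 15) (nat_lit 3) (.p (nat_lit 16) (nat_lit 1) (.n (nat_lit 17) (nat_lit 4) (.n (nat_lit 18) (nat_lit 3) (.p (nat_lit 19) (nat_lit 1) (.p (nat_lit 20) (nat_lit 2) (.n (nat_lit 21) (nat_lit 4) (.p (nat_lit 22) (nat_lit 4) (.p (nat_lit 23) (nat_lit 6) (.n (nat_lit 24) (nat_lit 1) (.p (nat_lit 25) (nat_lit 3) (.n (nat_lit 26) (nat_lit 1) (.p (nat_lit 27) (nat_lit 1) (.p (nat_lit 28) (nat_lit 2) (.n (nat_lit 29) (nat_lit 1) (.n (nat_lit 32) (nat_lit 1) (.p (nat_lit 35) (nat_lit 3) (.p (nat_lit 36) (nat_lit 2) (.n (nat_lit 37) (nat_lit 1) (.p (nat_lit 39) (nat_lit 6) (.n (nat_lit 40) (nat_lit 3) (.n (nat_lit 44) (nat_lit 1) (.n (nat_lit 45) (nat_lit 2) (.n (nat_lit 46) (nat_lit 6) (.p (nat_lit 47) (nat_lit 2) (.p (nat_lit 50)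 (nat_lit 1) (.p (nat_lit 51) (nat_lit 1) (.p (nat_lit 52) (nat_lit 1) (.p (nat_lit 55) (nat_lit 1) (.p (nat_lit 63) (nat_lit 1) (.n (nat_lit 64) (nat_lit 1) (.n (nat_lit 66) (nat_lit 1) (.p (nat_lit 67) (nat_lit 1) (.n (nat_lit 68) (nat_lit 1) (.p (nat_lit 72) (nat_lit 1) (.n (nat_lit 73) (nat_lit 1) (.n (nat_lit 75) (nat_lit 1) (.p (nat_lit 76) (nat_lit 1) (.p (nat_lit 78) (nat_lit 1) (.n (nat_lit 79) (nat_lit 1) (.p (nat_lit 100) (nat_lit 1) (.n (nat_lit 116) (nat_lit 1) (.p (nat_lit 122) (nat_lit 1) (.n (nat_lit 123) (nat_lit 1) (.p (nat_lit 127) (nat_lit 1) (.p (nat_lit 128) (nat_lit 1) (.p (nat_lit 141) (nat_lit 1) (.n (nat_lit 147) (nat_lit 1) (.p (nat_lit 148) (nat_lit 1) .z)))))))))))))))))))))))))))))))))))))))))))))))))))))))))))) (.u (nat_lit 2) (.p (nat_lit 149) (nat_lit 1) (.p (nat_lit 150) (nat_lit 1) (.n (nat_lit 152) (nat_lit 1) (.p (nat_lit 154) (nat_lit 1) (.n (nat_lit 157) (nat_lit 1) (.n (nat_lit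 158) (nat_lit 1) (.p (nat_lit 159) (nat_lit 1) (.p (nat_lit 160) (nat_lit 1) (.n (nat_lit 166) (nat_lit 1) (.p (nat_lit 174) (nat_lit 1) (.p (nat_lit 183) (nat_lit 1) (.n (nat_lit 184) (nat_lit 2) (.p (nat_lit 191) (nat_lit 1) (.n (nat_lit 206) (nat_lit 1) (.n (nat_lit 208) (nat_lit 1) (.p (nat_lit 210) (nat_lit 1) (.n (nat_lit 211) (nat_lit 1) (.n (nat_lit 212) (nat_lit 1) (.n (nat_lit 214) (nat_lit 4) (.n (nat_lit 215) (nat_lit 4) (.n (nat_lit 216) (nat_lit 3) (.p (nat_lit 217) (nat_lit 1) (.n (nat_lit 219) (nat_lit 2) (.p (nat_lit 221) (nat_lit 2) (.n (nat_lit 223) (nat_lit 3) (.p (nat_lit 224) (nat_lit 3) (.n (nat_lit 225) (nat_lit 2) (.n (nat_lit 227) (nat_lit 1) (.p (nat_lit 229) (nat_lit 7) (.p (nat_lit 234) (nat_lit 1) (.p (nat_lit 238) (nat_lit 1) (.n (nat_lit 239) (nat_lit 1) (.n (nat_lit 240) (nat_lit 1) (.p (nat_lit 241) (nat_lit 1) (.n (nat_lit 242) (nat_lit 2) (.p (nat_lit 243) (nat_lit 1) (.n (nat_lit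 244) (nat_lit 1) (.p (nat_lit 245) (nat_lit 1) (.n (nat_lit 247) (nat_lit 1) (.n (nat_lit 248) (nat_lit 1) (.n (nat_lit 250) (nat_lit 2) (.n (nat_lit 252) (nat_lit 1) (.n (nat_lit 253) (nat_lit 1) (.n (nat_lit 256) (nat_lit 1) (.n (nat_lit 257) (nat_lit 1) (.n (nat_lit 259) (nat_lit 1) (.n (nat_lit 261) (nat_lit 1) (.n (nat_lit 262) (nat_lit 1) (.p (nat_lit 264) (nat_lit 1) (.p (nat_lit 265) (nat_lit 1) (.p (nat_lit 266) (nat_lit 1) (.p (nat_lit 267) (nat_lit 1) (.n (nat_lit 269) (nat_lit 1) (.p (nat_lit 276) (nat_lit 1) (.n (nat_lit 277) (nat_lit 1) (.n (nat_lit 280) (nat_lit 1) (.n (nat_lit 282) (nat_lit 1) (.p (nat_lit 285) (nat_lit 1) (.p (nat_lit 302) (nat_lit 5) (.n (nat_lit 303) (nat_lit 11) .z)))))))))))))))))))))))))))))))))))))))))))))))))))))))))))) (.u (nat_lit 2) (.n (nat_lit 304) (nat_lit 1) (.n (nat_lit 305) (nat_lit 34) (.p (nat_lit 306) (nat_lit 15) (.p (nat_lit 307) (nat_lit 7) (.n (nat_lit 308)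 (nat_lit 18) (.n (nat_lit 309) (nat_lit 4) (.p (nat_lit 310) (nat_lit 16) (.p (nat_lit 311) (nat_lit 10) (.n (nat_lit 312) (nat_lit 1) (.p (nat_lit 313) (nat_lit 5) (.p (nat_lit 314) (nat_lit 23) (.p (nat_lit 315) (nat_lit 15) (.n (nat_lit 316) (nat_lit 19) (.p (nat_lit 317) (nat_lit 1) (.p (nat_lit 318) (nat_lit 35) (.p (nat_lit 319) (nat_lit 20) (.n (nat_lit 320) (nat_lit 3) (.n (nat_lit 321) (nat_lit 3) (.p (nat_lit 322) (nat_lit 13) (.n (nat_lit 323) (nat_lit 11) (.n (nat_lit 324) (nat_lit 28) (.n (nat_lit 325) (nat_lit 17) (.p (nat_lit 326) (nat_lit 27) (.n (nat_lit 327) (nat_lit 7) (.n (nat_lit 328) (nat_lit 8) (.n (nat_lit 330) (nat_lit 3) (.p (nat_lit 331) (nat_lit 2) (.p (nat_lit 332) (nat_lit 3) (.p (nat_lit 333) (nat_lit 1) (.p (nat_lit 334) (nat_lit 7) (.p (nat_lit 335) (nat_lit 9) (.n (nat_lit 336) (nat_lit 7) (.n (nat_lit 337) (nat_lit 3) (.p (nat_lit 338) (nat_lit 1) (.p (nat_lit 339) (nat_lit 25)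 (.p (nat_lit 340) (nat_lit 15) (.p (nat_lit 341) (nat_lit 10) (.p (nat_lit 342) (nat_lit 17) (.p (nat_lit 343) (nat_lit 11) (.p (nat_lit 344) (nat_lit 9) (.n (nat_lit 345) (nat_lit 27) (.p (nat_lit 346) (nat_lit 10) (.n (nat_lit 347) (nat_lit 5) (.n (nat_lit 348) (nat_lit 25) (.p (nat_lit 350) (nat_lit 13) (.n (nat_lit 351) (nat_lit 1) (.n (nat_lit 352) (nat_lit 11) (.n (nat_lit 353) (nat_lit 5) (.p (nat_lit 355) (nat_lit 7) (.p (nat_lit 356) (nat_lit 8) (.n (nat_lit 358) (nat_lit 5) (.n (nat_lit 359) (nat_lit 5) (.n (nat_lit 360) (nat_lit 4) (.n (nat_lit 361) (nat_lit 1) (.p (nat_lit 362) (nat_lit 4) (.p (nat_lit 363) (nat_lit 15) (.n (nat_lit 364) (nat_lit 3) (.p (nat_lit 366) (nat_lit 8) (.p (nat_lit 367) (nat_lit 10) (.p (nat_lit 368) (nat_lit 2) .z)))))))))))))))))))))))))))))))))))))))))))))))))))))))))))) (.u (nat_lit 2) (.p (nat_lit 369) (nat_lit 1) (.n (nat_lit 370) (nat_lit 7) (.n (nat_lit 371) (nat_lit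 12) (.p (nat_lit 372) (nat_lit 17) (.p (nat_lit 373) (nat_lit 5) (.p (nat_lit 374) (nat_lit 2) (.n (nat_lit 375) (nat_lit 1) (.n (nat_lit 376) (nat_lit 5) (.n (nat_lit 377) (nat_lit 1) (.p (nat_lit 378) (nat_lit 2) (.p (nat_lit 380) (nat_lit 5) (.n (nat_lit 382) (nat_lit 3) (.n (nat_lit 385) (nat_lit 3) (.n (nat_lit 386) (nat_lit 8) (.n (nat_lit 388) (nat_lit 4) (.p (nat_lit 389) (nat_lit 4) (.p (nat_lit 390) (nat_lit 5) (.n (nat_lit 391) (nat_lit 7) (.p (nat_lit 392) (nat_lit 8) (.n (nat_lit 393) (nat_lit 8) (.n (nat_lit 394) (nat_lit 2) (.p (nat_lit 395) (nat_lit 2) (.p (nat_lit 396) (nat_lit 2) (.p (nat_lit 397) (nat_lit 5) (.n (nat_lit 398) (nat_lit 9) (.p (nat_lit 399) (nat_lit 3) (.n (nat_lit 400) (nat_lit 13) (.p (nat_lit 401) (nat_lit 10) .z)))))))))))))))))))))))))))) .nil)))))))))))))))))))))))))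

noncomputable def dC2d_i413 : IL := (.e true (nat_lit 1) (nat_lit 266) (nat_lit 1) (nat_lit 17) (.e false (nat_lit 2) (nat_lit 231) (nat_lit 2) (nat_lit 16) (.e true (nat_lit 3) (nat_lit 206) (nat_lit 2) (nat_lit 16) (.e false (nat_lit 2) (nat_lit 211) (nat_lit 2) (nat_lit 16) (.e false (nat_lit 3) (nat_lit 213) (nat_lit 2) (nat_lit 16) (.e false (nat_lit 3) (nat_lit 219) (nat_lit 2) (nat_lit 16) (.e false (nat_lit 2) (nat_lit 220) (nat_lit 2) (nat_lit 16) (.e false (nat_lit 1) (nat_lit 209) (nat_lit 2) (nat_lit 16) (.e false (nat_lit 3) (nat_lit 230) (nat_lit 2) (nat_lit 16) (.e false (nat_lit 2) (nat_lit 234) (nat_lit 2) (nat_lit 16) (.e true (nat_lit 2) (nat_lit 246) (nat_lit 2) (nat_lit 16) (.e false (nat_lit 1) (nat_lit 247) (nat_lit 2) (nat_lit 16) (.e true (nat_lit 3) (nat_lit 249) (nat_lit 2) (nat_lit 16) (.e false (nat_lit 2) (nat_lit 221) (nat_lit 2) (nat_lit 16) (.e false (nat_lit 2) (nat_lit 226)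 (nat_lit 2) (nat_lit 16) (.e true (nat_lit 3) (nat_lit 243) (nat_lit 2) (nat_lit 16) (.e true (nat_lit 3) (nat_lit 274) (nat_lit 1) (nat_lit 17) (.e true (nat_lit 2) (nat_lit 207) (nat_lit 2) (nat_lit 16) (.e false (nat_lit 1) (nat_lit 244) (nat_lit 2) (nat_lit 16) (.e false (nat_lit 2) (nat_lit 229) (nat_lit 2) (nat_lit 16) (.e false (nat_lit 1) (nat_lit 250) (nat_lit 2) (nat_lit 16) (.e false (nat_lit 3) (nat_lit 235) (nat_lit 2) (nat_lit 16) (.e true (nat_lit 3) (nat_lit 138) (nat_lit 6) (nat_lit 12) (.e true (nat_lit 2) (nat_lit 155) (nat_lit 6) (nat_lit 12) (.e true (nat_lit 1) (nat_lit 257) (nat_lit 1) (nat_lit 17) dC2d_i412)))))))))))))))))))))))))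

noncomputable def dC2d_i414 : IL := (.s false (nat_lit 1) (nat_lit 102) (nat_lit 1) (nat_lit 1) (nat_lit 0) true (nat_lit 15) true (nat_lit 18) false (nat_lit 10) true (nat_lit 17) true (nat_lit 17) (.s false (nat_lit 2) (nat_lit 103) (nat_lit 1) (nat_lit 1) (nat_lit 0) true (nat_lit 15) true (nat_lit 18) false (nat_lit 10) true (nat_lit 17) true (nat_lit 17) (.s false (nat_lit 3) (nat_lit 104) (nat_lit 1) (nat_lit 1) (nat_lit 0) true (nat_lit 15) true (nat_lit 18) false (nat_lit 10) true (nat_lit 17) true (nat_lit 17) (.e true (nat_lit 2) (nat_lit 242) (nat_lit 2) (nat_lit 16) (.e false (nat_lit 3) (nat_lit 208) (nat_lit 2) (nat_lit 16) (.e true (nat_lit 2) (nat_lit 216) (nat_lit 2) (nat_lit 16) (.e false (nat_lit 3) (nat_lit 205) (nat_lit 2) (nat_lit 16) (.e false (nat_lit 2) (nat_lit 251) (nat_lit 2) (nat_lit 16) (.e true (nat_lit 2) (nat_lit 129) (nat_lit 7) (nat_lit 11) (.e false (nat_lit 3) (nat_lit 285)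 (nat_lit 1) (nat_lit 17) (.e false (nat_lit 1) (nat_lit 252) (nat_lit 1) (nat_lit 17) (.e false (nat_lit 2) (nat_lit 253) (nat_lit 1) (nat_lit 17) (.e true (nat_lit 3) (nat_lit 254) (nat_lit 1) (nat_lit 17) (.e false (nat_lit 1) (nat_lit 258) (nat_lit 1) (nat_lit 17) (.e false (nat_lit 1) (nat_lit 263) (nat_lit 1) (nat_lit 17) (.e true (nat_lit 3) (nat_lit 265) (nat_lit 1) (nat_lit 17) (.e false (nat_lit 3) (nat_lit 267) (nat_lit 1) (nat_lit 17) (.e true (nat_lit 1) (nat_lit 270) (nat_lit 1) (nat_lit 17) (.e false (nat_lit 3) (nat_lit 271) (nat_lit 1) (nat_lit 17) (.e false (nat_lit 3) (nat_lit 272) (nat_lit 1) (nat_lit 17) (.e false (nat_lit 3) (nat_lit 273) (nat_lit 1) (nat_lit 17) (.e true (nat_lit 3) (nat_lit 276) (nat_lit 1) (nat_lit 17) (.e false (nat_lit 3) (nat_lit 277) (nat_lit 1) (nat_lit 17) (.e false (nat_lit 1) (nat_lit 262) (nat_lit 1) (nat_lit 17) (.e true (nat_lit 1) (nat_lit 264) (nat_lit 1) (nat_lit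 17) dC2d_i413)))))))))))))))))))))))))

noncomputable def dC2d_i415 : IL := (.s true (nat_lit 1) (nat_lit 80) (nat_lit 1) (nat_lit 2) (nat_lit 1) true (nat_lit 14) true (nat_lit 17) false (nat_lit 7) true (nat_lit 17) true (nat_lit 16) (.s true (nat_lit 1) (nat_lit 81) (nat_lit 1) (nat_lit 2) (nat_lit 1) true (nat_lit 14) true (nat_lit 17) false (nat_lit 7) true (nat_lit 17) true (nat_lit 16) (.s true (nat_lit 3) (nat_lit 82) (nat_lit 1) (nat_lit 2) (nat_lit 1) true (nat_lit 14) true (nat_lit 17) false (nat_lit 7) true (nat_lit 17) true (nat_lit 16) (.s true (nat_lit 2) (nat_lit 83) (nat_lit 1) (nat_lit 2) (nat_lit 1) true (nat_lit 14) true (nat_lit 17) false (nat_lit 7) true (nat_lit 17) true (nat_lit 16) (.s false (nat_lit 1) (nat_lit 84) (nat_lit 1) (nat_lit 2) (nat_lit 1) true (nat_lit 14) true (nat_lit 17) false (nat_lit 7) true (nat_lit 17) true (nat_lit 16) (.s false (nat_lit 3) (nat_lit 85) (nat_lit 1)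 (nat_lit 2) (nat_lit 1) true (nat_lit 14) true (nat_lit 17) false (nat_lit 7) true (nat_lit 17) true (nat_lit 16) (.s true (nat_lit 3) (nat_lit 86) (nat_lit 1) (nat_lit 2) (nat_lit 1) true (nat_lit 14) true (nat_lit 17) false (nat_lit 7) true (nat_lit 17) true (nat_lit 16) (.s false (nat_lit 2) (nat_lit 87) (nat_lit 1) (nat_lit 2) (nat_lit 1) true (nat_lit 14) true (nat_lit 17) false (nat_lit 7) true (nat_lit 17) true (nat_lit 16) (.s false (nat_lit 3) (nat_lit 89) (nat_lit 1) (nat_lit 2) (nat_lit 1) true (nat_lit 14) true (nat_lit 17) false (nat_lit 7) true (nat_lit 17) true (nat_lit 16) (.s true (nat_lit 2) (nat_lit 90) (nat_lit 1) (nat_lit 2) (nat_lit 1) true (nat_lit 14) true (nat_lit 17) false (nat_lit 7) true (nat_lit 17) true (nat_lit 16) (.s true (nat_lit 3) (nat_lit 88) (nat_lit 2) (nat_lit 1) (nat_lit 1) true (nat_lit 12) true (nat_lit 17) false (nat_lit 7) true (nat_lit 16) true (nat_lit 17) (.s true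 (nat_lit 3) (nat_lit 89) (nat_lit 2) (nat_lit 1) (nat_lit 1) true (nat_lit 12) true (nat_lit 17) false (nat_lit 7) true (nat_lit 16) true (nat_lit 17) (.s true (nat_lit 2) (nat_lit 92) (nat_lit 0) (nat_lit 1) (nat_lit 2) true (nat_lit 13) true (nat_lit 16) false (nat_lit 8) true (nat_lit 18) true (nat_lit 17) (.s true (nat_lit 3) (nat_lit 93) (nat_lit 0) (nat_lit 1) (nat_lit 2) true (nat_lit 13) true (nat_lit 16) false (nat_lit 8) true (nat_lit 18) true (nat_lit 17) (.s false (nat_lit 3) (nat_lit 94) (nat_lit 0) (nat_lit 1) (nat_lit 2) true (nat_lit 13) true (nat_lit 16) false (nat_lit 8) true (nat_lit 18) true (nat_lit 17) (.s false (nat_lit 3) (nat_lit 96) (nat_lit 0) (nat_lit 1) (nat_lit 2) true (nat_lit 13) true (nat_lit 16) false (nat_lit 8) true (nat_lit 18) true (nat_lit 17) (.s true (nat_lit 2) (nat_lit 91) (nat_lit 0) (nat_lit 2) (nat_lit 1) true (nat_lit 15) true (nat_lit 17) false (nat_lit 8) true (nat_lit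 18) true (nat_lit 16) (.s false (nat_lit 3) (nat_lit 92) (nat_lit 0) (nat_lit 2) (nat_lit 1) true (nat_lit 15) true (nat_lit 17) false (nat_lit 8) true (nat_lit 18) true (nat_lit 16) (.s false (nat_lit 2) (nat_lit 91) (nat_lit 1) (nat_lit 2) (nat_lit 0) true (nat_lit 15) true (nat_lit 18) false (nat_lit 8) true (nat_lit 17) true (nat_lit 16) (.s true (nat_lit 1) (nat_lit 92) (nat_lit 1) (nat_lit 2) (nat_lit 0) true (nat_lit 15) true (nat_lit 18) false (nat_lit 8) true (nat_lit 17) true (nat_lit 16) (.s false (nat_lit 3) (nat_lit 95) (nat_lit 1) (nat_lit 2) (nat_lit 0) true (nat_lit 15) true (nat_lit 18) false (nat_lit 8) true (nat_lit 17) true (nat_lit 16) (.s true (nat_lit 2) (nat_lit 92) (nat_lit 2) (nat_lit 0) (nat_lit 1) true (nat_lit 12) true (nat_lit 17) false (nat_lit 8) true (nat_lit 16) true (nat_lit 18) (.s false (nat_lit 3) (nat_lit 93) (nat_lit 2) (nat_lit 1) (nat_lit 0) true (nat_lit 13) true (nat_lit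 18) false (nat_lit 8) true (nat_lit 16) true (nat_lit 17) (.s true (nat_lit 3) (nat_lit 94) (nat_lit 2) (nat_lit 1) (nat_lit 0) true (nat_lit 13) true (nat_lit 18) false (nat_lit 8) true (nat_lit 16) true (nat_lit 17) (.s true (nat_lit 3) (nat_lit 96) (nat_lit 2) (nat_lit 1) (nat_lit 0) true (nat_lit 13) true (nat_lit 18) false (nat_lit 8) true (nat_lit 16) true (nat_lit 17) dC2d_i414)))))))))))))))))))))))))

noncomputable def dC2d_i416 : IL := (.s false (nat_lit 1) (nat_lit 60) (nat_lit 2) (nat_lit 2) (nat_lit 1) true (nat_lit 12) true (nat_lit 17) false (nat_lit 5) true (nat_lit 16) true (nat_lit 16) (.s true (nat_lit 3) (nat_lit 61) (nat_lit 2) (nat_lit 2) (nat_lit 1) true (nat_lit 12) true (nat_lit 17) false (nat_lit 5) true (nat_lit 16) true (nat_lit 16) (.s false (nat_lit 1) (nat_lit 62) (nat_lit 2) (nat_lit 2) (nat_lit 1) true (nat_lit 12) true (nat_lit 17) false (nat_lit 5) true (nat_lit 16) true (nat_lit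 16) (.s true (nat_lit 1) (nat_lit 65) (nat_lit 2) (nat_lit 2) (nat_lit 1) true (nat_lit 12) true (nat_lit 17) false (nat_lit 5) true (nat_lit 16) true (nat_lit 16) (.s false (nat_lit 3) (nat_lit 66) (nat_lit 2) (nat_lit 2) (nat_lit 1) true (nat_lit 12) true (nat_lit 17) false (nat_lit 5) true (nat_lit 16) true (nat_lit 16) (.s true (nat_lit 1) (nat_lit 67) (nat_lit 2) (nat_lit 2) (nat_lit 1) true (nat_lit 12) true (nat_lit 17) false (nat_lit 5) true (nat_lit 16) true (nat_lit 16) (.s true (nat_lit 1) (nat_lit 68) (nat_lit 2) (nat_lit 2) (nat_lit 1) true (nat_lit 12) true (nat_lit 17) false (nat_lit 5) true (nat_lit 16) true (nat_lit 16) (.s false (nat_lit 2) (nat_lit 69) (nat_lit 2) (nat_lit 2) (nat_lit 1) true (nat_lit 12) true (nat_lit 17) false (nat_lit 5) true (nat_lit 16) true (nat_lit 16) (.s false (nat_lit 2) (nat_lit 72) (nat_lit 2) (nat_lit 2) (nat_lit 1) true (nat_lit 12) true (nat_lit 17) false (nat_lit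 5) true (nat_lit 16) true (nat_lit 16) (.s true (nat_lit 2) (nat_lit 73) (nat_lit 2) (nat_lit 2) (nat_lit 1) true (nat_lit 12) true (nat_lit 17) false (nat_lit 5) true (nat_lit 16) true (nat_lit 16) (.s false (nat_lit 3) (nat_lit 75) (nat_lit 0) (nat_lit 2) (nat_lit 2) true (nat_lit 13) true (nat_lit 16) false (nat_lit 6) true (nat_lit 18) true (nat_lit 16) (.s false (nat_lit 3) (nat_lit 76) (nat_lit 0) (nat_lit 2) (nat_lit 2) true (nat_lit 13) true (nat_lit 16) false (nat_lit 6) true (nat_lit 18) true (nat_lit 16) (.s false (nat_lit 2) (nat_lit 77) (nat_lit 0) (nat_lit 2) (nat_lit 2) true (nat_lit 13) true (nat_lit 16) false (nat_lit 6) true (nat_lit 18) true (nat_lit 16) (.s true (nat_lit 3) (nat_lit 78) (nat_lit 0) (nat_lit 2) (nat_lit 2) true (nat_lit 13) true (nat_lit 16) false (nat_lit 6) true (nat_lit 18) true (nat_lit 16) (.s true (nat_lit 2) (nat_lit 79) (nat_lit 0) (nat_lit 2) (nat_lit 2) true (nat_lit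 13) true (nat_lit 16) false (nat_lit 6) true (nat_lit 18) true (nat_lit 16) (.s false (nat_lit 1) (nat_lit 74) (nat_lit 2) (nat_lit 0) (nat_lit 2) true (nat_lit 11) true (nat_lit 16) false (nat_lit 6) true (nat_lit 16) true (nat_lit 18) (.s false (nat_lit 3) (nat_lit 74) (nat_lit 2) (nat_lit 2) (nat_lit 0) true (nat_lit 13) true (nat_lit 18) false (nat_lit 6) true (nat_lit 16) true (nat_lit 16) (.s false (nat_lit 2) (nat_lit 75) (nat_lit 2) (nat_lit 2) (nat_lit 0) true (nat_lit 13) true (nat_lit 18) false (nat_lit 6) true (nat_lit 16) true (nat_lit 16) (.s false (nat_lit 1) (nat_lit 76) (nat_lit 2) (nat_lit 2) (nat_lit 0) true (nat_lit 13) true (nat_lit 18) false (nat_lit 6) true (nat_lit 16) true (nat_lit 16) (.s false (nat_lit 1) (nat_lit 77) (nat_lit 2) (nat_lit 2) (nat_lit 0) true (nat_lit 13) true (nat_lit 18) false (nat_lit 6) true (nat_lit 16) true (nat_lit 16) (.s true (nat_lit 1) (nat_lit 78) (nat_lit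 2) (nat_lit 2) (nat_lit 0) true (nat_lit 13) true (nat_lit 18) false (nat_lit 6) true (nat_lit 16) true (nat_lit 16) (.s true (nat_lit 3) (nat_lit 79) (nat_lit 2) (nat_lit 2) (nat_lit 0) true (nat_lit 13) true (nat_lit 18) false (nat_lit 6) true (nat_lit 16) true (nat_lit 16) (.s true (nat_lit 2) (nat_lit 80) (nat_lit 1) (nat_lit 1) (nat_lit 2) true (nat_lit 12) true (nat_lit 16) false (nat_lit 7) true (nat_lit 17) true (nat_lit 17) (.s true (nat_lit 1) (nat_lit 81) (nat_lit 1) (nat_lit 1) (nat_lit 2) true (nat_lit 12) true (nat_lit 16) false (nat_lit 7) true (nat_lit 17) true (nat_lit 17) (.s false (nat_lit 1) (nat_lit 88) (nat_lit 1) (nat_lit 1) (nat_lit 2) true (nat_lit 12) true (nat_lit 16) false (nat_lit 7) true (nat_lit 17) true (nat_lit 17) dC2d_i415)))))))))))))))))))))))))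

noncomputable def dC2d_i417 : IL := (.s true (nat_lit 1) (nat_lit 53) (nat_lit 2) (nat_lit 2) (nat_lit 2) true (nat_lit 11) true (nat_lit 16) false (nat_lit 4) true (nat_lit 16) true (nat_lit 16) (.s false (nat_lit 1) (nat_lit 54) (nat_lit 2) (nat_lit 2) (nat_lit 2) true (nat_lit 11) true (nat_lit 16) false (nat_lit 4) true (nat_lit 16) true (nat_lit 16) (.s false (nat_lit 2) (nat_lit 56) (nat_lit 2) (nat_lit 2) (nat_lit 2) true (nat_lit 11) true (nat_lit 16) false (nat_lit 4) true (nat_lit 16) true (nat_lit 16) (.s false (nat_lit 1) (nat_lit 57) (nat_lit 2) (nat_lit 2) (nat_lit 2) true (nat_lit 11) true (nat_lit 16) false (nat_lit 4) true (nat_lit 16) true (nat_lit 16) (.s true (nat_lit 1) (nat_lit 58) (nat_lit 2) (nat_lit 2) (nat_lit 2) true (nat_lit 11) true (nat_lit 16) false (nat_lit 4) true (nat_lit 16) true (nat_lit 16) (.s true (nat_lit 1) (nat_lit 59) (nat_lit 2) (nat_lit 2) (nat_lit 2) true (nat_lit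 11) true (nat_lit 16) false (nat_lit 4) true (nat_lit 16) true (nat_lit 16) (.s false (nat_lit 1) (nat_lit 60) (nat_lit 1) (nat_lit 2) (nat_lit 2) true (nat_lit 12) true (nat_lit 16) false (nat_lit 5) true (nat_lit 17) true (nat_lit 16) (.s false (nat_lit 2) (nat_lit 61) (nat_lit 1) (nat_lit 2) (nat_lit 2) true (nat_lit 12) true (nat_lit 16) false (nat_lit 5) true (nat_lit 17) true (nat_lit 16) (.s true (nat_lit 3) (nat_lit 63) (nat_lit 1) (nat_lit 2) (nat_lit 2) true (nat_lit 12) true (nat_lit 16) false (nat_lit 5) true (nat_lit 17) true (nat_lit 16) (.s false (nat_lit 1) (nat_lit 64) (nat_lit 1) (nat_lit 2) (nat_lit 2) true (nat_lit 12) true (nat_lit 16) false (nat_lit 5) true (nat_lit 17) true (nat_lit 16) (.s true (nat_lit 3) (nat_lit 65) (nat_lit 1) (nat_lit 2) (nat_lit 2) true (nat_lit 12) true (nat_lit 16) false (nat_lit 5) true (nat_lit 17) true (nat_lit 16) (.s true (nat_lit 1) (nat_lit 66) (nat_lit 1)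 (nat_lit 2) (nat_lit 2) true (nat_lit 12) true (nat_lit 16) false (nat_lit 5) true (nat_lit 17) true (nat_lit 16) (.s true (nat_lit 1) (nat_lit 67) (nat_lit 1) (nat_lit 2) (nat_lit 2) true (nat_lit 12) true (nat_lit 16) false (nat_lit 5) true (nat_lit 17) true (nat_lit 16) (.s true (nat_lit 3) (nat_lit 68) (nat_lit 1) (nat_lit 2) (nat_lit 2) true (nat_lit 12) true (nat_lit 16) false (nat_lit 5) true (nat_lit 17) true (nat_lit 16) (.s false (nat_lit 3) (nat_lit 71) (nat_lit 1) (nat_lit 2) (nat_lit 2) true (nat_lit 12) true (nat_lit 16) false (nat_lit 5) true (nat_lit 17) true (nat_lit 16) (.s false (nat_lit 1) (nat_lit 73) (nat_lit 1) (nat_lit 2) (nat_lit 2) true (nat_lit 12) true (nat_lit 16) false (nat_lit 5) true (nat_lit 17) true (nat_lit 16) (.s true (nat_lit 2) (nat_lit 61) (nat_lit 2) (nat_lit 1) (nat_lit 2) true (nat_lit 11) true (nat_lit 16) false (nat_lit 5) true (nat_lit 16) true (nat_lit 17) (.s false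 (nat_lit 3) (nat_lit 62) (nat_lit 2) (nat_lit 1) (nat_lit 2) true (nat_lit 11) true (nat_lit 16) false (nat_lit 5) true (nat_lit 16) true (nat_lit 17) (.s true (nat_lit 2) (nat_lit 63) (nat_lit 2) (nat_lit 1) (nat_lit 2) true (nat_lit 11) true (nat_lit 16) false (nat_lit 5) true (nat_lit 16) true (nat_lit 17) (.s false (nat_lit 1) (nat_lit 64) (nat_lit 2) (nat_lit 1) (nat_lit 2) true (nat_lit 11) true (nat_lit 16) false (nat_lit 5) true (nat_lit 16) true (nat_lit 17) (.s false (nat_lit 1) (nat_lit 65) (nat_lit 2) (nat_lit 1) (nat_lit 2) true (nat_lit 11) true (nat_lit 16) false (nat_lit 5) true (nat_lit 16) true (nat_lit 17) (.s true (nat_lit 3) (nat_lit 66) (nat_lit 2) (nat_lit 1) (nat_lit 2) true (nat_lit 11) true (nat_lit 16) false (nat_lit 5) true (nat_lit 16) true (nat_lit 17) (.s true (nat_lit 3) (nat_lit 67) (nat_lit 2) (nat_lit 1) (nat_lit 2) true (nat_lit 11) true (nat_lit 16) false (nat_lit 5) true (nat_lit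 16) true (nat_lit 17) (.s false (nat_lit 2) (nat_lit 69) (nat_lit 2) (nat_lit 1) (nat_lit 2) true (nat_lit 11) true (nat_lit 16) false (nat_lit 5) true (nat_lit 16) true (nat_lit 17) (.s true (nat_lit 3) (nat_lit 72) (nat_lit 2) (nat_lit 1) (nat_lit 2) true (nat_lit 11) true (nat_lit 16) false (nat_lit 5) true (nat_lit 16) true (nat_lit 17) dC2d_i416)))))))))))))))))))))))))

noncomputable def dC2d_i418 : IL := (.s true (nat_lit 3) (nat_lit 38) (nat_lit 1) (nat_lit 2) (nat_lit 6) true (nat_lit 7) true (nat_lit 12) true (nat_lit 0) true (nat_lit 17) true (nat_lit 16) (.s true (nat_lit 1) (nat_lit 34) (nat_lit 2) (nat_lit 1) (nat_lit 6) true (nat_lit 5) true (nat_lit 12) true (nat_lit 0) true (nat_lit 16) true (nat_lit 17) (.s false (nat_lit 2) (nat_lit 33) (nat_lit 2) (nat_lit 2) (nat_lit 4) true (nat_lit 7) true (nat_lit 14) true (nat_lit 0) true (nat_lit 16) true (nat_lit 16) (.s false (nat_lit 1) (nat_lit 35)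 (nat_lit 2) (nat_lit 2) (nat_lit 4) true (nat_lit 7) true (nat_lit 14) true (nat_lit 0) true (nat_lit 16) true (nat_lit 16) (.s false (nat_lit 2) (nat_lit 36) (nat_lit 2) (nat_lit 2) (nat_lit 4) true (nat_lit 7) true (nat_lit 14) true (nat_lit 0) true (nat_lit 16) true (nat_lit 16) (.s true (nat_lit 2) (nat_lit 37) (nat_lit 2) (nat_lit 2) (nat_lit 4) true (nat_lit 7) true (nat_lit 14) true (nat_lit 0) true (nat_lit 16) true (nat_lit 16) (.s false (nat_lit 3) (nat_lit 38) (nat_lit 2) (nat_lit 2) (nat_lit 4) true (nat_lit 7) true (nat_lit 14) true (nat_lit 0) true (nat_lit 16) true (nat_lit 16) (.s true (nat_lit 2) (nat_lit 33) (nat_lit 2) (nat_lit 6) (nat_lit 1) true (nat_lit 12) true (nat_lit 17) true (nat_lit 0) true (nat_lit 16) true (nat_lit 12) (.s true (nat_lit 1) (nat_lit 34) (nat_lit 4) (nat_lit 2) (nat_lit 2) true (nat_lit 7) true (nat_lit 16) true (nat_lit 0) true (nat_lit 14) true (nat_lit 16) (.s true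 (nat_lit 2) (nat_lit 35) (nat_lit 4) (nat_lit 2) (nat_lit 2) true (nat_lit 7) true (nat_lit 16) true (nat_lit 0) true (nat_lit 14) true (nat_lit 16) (.s true (nat_lit 1) (nat_lit 33) (nat_lit 6) (nat_lit 1) (nat_lit 2) true (nat_lit 5) true (nat_lit 16) true (nat_lit 0) true (nat_lit 12) true (nat_lit 17) (.s true (nat_lit 2) (nat_lit 34) (nat_lit 6) (nat_lit 2) (nat_lit 1) true (nat_lit 7) true (nat_lit 17) true (nat_lit 0) true (nat_lit 12) true (nat_lit 16) (.s true (nat_lit 3) (nat_lit 40) (nat_lit 0) (nat_lit 2) (nat_lit 6) true (nat_lit 8) true (nat_lit 12) false (nat_lit 0) true (nat_lit 18) true (nat_lit 16) (.s false (nat_lit 3) (nat_lit 41) (nat_lit 0) (nat_lit 2) (nat_lit 6) true (nat_lit 8) true (nat_lit 12) false (nat_lit 0) true (nat_lit 18) true (nat_lit 16) (.s true (nat_lit 2) (nat_lit 40) (nat_lit 1) (nat_lit 5) (nat_lit 2) true (nat_lit 12) true (nat_lit 16) false (nat_lit 0) true (nat_lit 17)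 true (nat_lit 13) (.s false (nat_lit 2) (nat_lit 40) (nat_lit 2) (nat_lit 3) (nat_lit 2) true (nat_lit 11) true (nat_lit 16) false (nat_lit 0) true (nat_lit 16) true (nat_lit 15) (.s false (nat_lit 3) (nat_lit 41) (nat_lit 5) (nat_lit 2) (nat_lit 1) true (nat_lit 8) true (nat_lit 17) false (nat_lit 0) true (nat_lit 13) true (nat_lit 16) (.s true (nat_lit 2) (nat_lit 42) (nat_lit 2) (nat_lit 1) (nat_lit 4) true (nat_lit 7) true (nat_lit 14) false (nat_lit 1) true (nat_lit 16) true (nat_lit 17) (.s false (nat_lit 2) (nat_lit 42) (nat_lit 4) (nat_lit 1) (nat_lit 2) true (nat_lit 7) true (nat_lit 16) false (nat_lit 1) true (nat_lit 14) true (nat_lit 17) (.s true (nat_lit 3) (nat_lit 46) (nat_lit 1) (nat_lit 2) (nat_lit 3) true (nat_lit 10) true (nat_lit 15) false (nat_lit 2) true (nat_lit 17) true (nat_lit 16) (.s false (nat_lit 3) (nat_lit 46) (nat_lit 1) (nat_lit 3) (nat_lit 2) true (nat_lit 12) true (nat_lit 16)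 false (nat_lit 2) true (nat_lit 17) true (nat_lit 15) (.s true (nat_lit 3) (nat_lit 47) (nat_lit 1) (nat_lit 3) (nat_lit 2) true (nat_lit 12) true (nat_lit 16) false (nat_lit 2) true (nat_lit 17) true (nat_lit 15) (.s true (nat_lit 3) (nat_lit 46) (nat_lit 6) (nat_lit 1) (nat_lit 0) true (nat_lit 8) true (nat_lit 18) false (nat_lit 2) true (nat_lit 12) true (nat_lit 17) (.s true (nat_lit 3) (nat_lit 48) (nat_lit 1) (nat_lit 1) (nat_lit 3) true (nat_lit 10) true (nat_lit 15) false (nat_lit 3) true (nat_lit 17) true (nat_lit 17) (.s false (nat_lit 1) (nat_lit 52) (nat_lit 2) (nat_lit 2) (nat_lit 2) true (nat_lit 11) true (nat_lit 16) false (nat_lit 4) true (nat_lit 16) true (nat_lit 16) dC2d_i417)))))))))))))))))))))))))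

noncomputable def dC2d_i419 : IL := (.s true (nat_lit 1) (nat_lit 28) (nat_lit 2) (nat_lit 1) (nat_lit 7) true (nat_lit 4) true (nat_lit 11) true (nat_lit 2) true (nat_lit 16) true (nat_lit 17) (.s false (nat_lit 2) (nat_lit 29) (nat_lit 2) (nat_lit 1) (nat_lit 7) true (nat_lit 4) true (nat_lit 11) true (nat_lit 2) true (nat_lit 16) true (nat_lit 17) (.s true (nat_lit 1) (nat_lit 24) (nat_lit 2) (nat_lit 2) (nat_lit 6) true (nat_lit 5) true (nat_lit 12) true (nat_lit 2) true (nat_lit 16) true (nat_lit 16) (.s false (nat_lit 1) (nat_lit 25) (nat_lit 2) (nat_lit 2) (nat_lit 6) true (nat_lit 5) true (nat_lit 12) true (nat_lit 2) true (nat_lit 16) true (nat_lit 16) (.s false (nat_lit 1) (nat_lit 26) (nat_lit 2) (nat_lit 2) (nat_lit 6) true (nat_lit 5) true (nat_lit 12) true (nat_lit 2) true (nat_lit 16) true (nat_lit 16) (.s true (nat_lit 3) (nat_lit 27) (nat_lit 2) (nat_lit 2) (nat_lit 6) true (nat_lit 5) true (nat_lit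 12) true (nat_lit 2) true (nat_lit 16) true (nat_lit 16) (.s true (nat_lit 1) (nat_lit 28) (nat_lit 2) (nat_lit 2) (nat_lit 6) true (nat_lit 5) true (nat_lit 12) true (nat_lit 2) true (nat_lit 16) true (nat_lit 16) (.s false (nat_lit 2) (nat_lit 29) (nat_lit 2) (nat_lit 2) (nat_lit 6) true (nat_lit 5) true (nat_lit 12) true (nat_lit 2) true (nat_lit 16) true (nat_lit 16) (.s true (nat_lit 3) (nat_lit 25) (nat_lit 2) (nat_lit 6) (nat_lit 2) true (nat_lit 11) true (nat_lit 16) true (nat_lit 2) true (nat_lit 16) true (nat_lit 12) (.s true (nat_lit 1) (nat_lit 24) (nat_lit 6) (nat_lit 2) (nat_lit 2) true (nat_lit 5) true (nat_lit 16) true (nat_lit 2) true (nat_lit 12) true (nat_lit 16) (.s false (nat_lit 2) (nat_lit 26) (nat_lit 6) (nat_lit 2) (nat_lit 2) true (nat_lit 5) true (nat_lit 16) true (nat_lit 2) true (nat_lit 12) true (nat_lit 16) (.s false (nat_lit 3) (nat_lit 27) (nat_lit 6) (nat_lit 2) (nat_lit 2) true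 (nat_lit 5) true (nat_lit 16) true (nat_lit 2) true (nat_lit 12) true (nat_lit 16) (.s false (nat_lit 2) (nat_lit 25) (nat_lit 7) (nat_lit 2) (nat_lit 1) true (nat_lit 5) true (nat_lit 17) true (nat_lit 2) true (nat_lit 11) true (nat_lit 16) (.s true (nat_lit 1) (nat_lit 30) (nat_lit 0) (nat_lit 2) (nat_lit 7) true (nat_lit 6) true (nat_lit 11) true (nat_lit 1) true (nat_lit 18) true (nat_lit 16) (.s false (nat_lit 1) (nat_lit 30) (nat_lit 2) (nat_lit 2) (nat_lit 5) true (nat_lit 6) true (nat_lit 13) true (nat_lit 1) true (nat_lit 16) true (nat_lit 16) (.s false (nat_lit 2) (nat_lit 31) (nat_lit 2) (nat_lit 2) (nat_lit 5) true (nat_lit 6) true (nat_lit 13) true (nat_lit 1) true (nat_lit 16) true (nat_lit 16) (.s true (nat_lit 2) (nat_lit 30) (nat_lit 5) (nat_lit 2) (nat_lit 2) true (nat_lit 6) true (nat_lit 16) true (nat_lit 1) true (nat_lit 13) true (nat_lit 16) (.s true (nat_lit 2) (nat_lit 33) (nat_lit 1) (nat_lit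 1) (nat_lit 7) true (nat_lit 5) true (nat_lit 11) true (nat_lit 0) true (nat_lit 17) true (nat_lit 17) (.s false (nat_lit 3) (nat_lit 34) (nat_lit 1) (nat_lit 1) (nat_lit 7) true (nat_lit 5) true (nat_lit 11) true (nat_lit 0) true (nat_lit 17) true (nat_lit 17) (.s true (nat_lit 2) (nat_lit 38) (nat_lit 1) (nat_lit 1) (nat_lit 7) true (nat_lit 5) true (nat_lit 11) true (nat_lit 0) true (nat_lit 17) true (nat_lit 17) (.s false (nat_lit 1) (nat_lit 33) (nat_lit 1) (nat_lit 2) (nat_lit 6) true (nat_lit 7) true (nat_lit 12) true (nat_lit 0) true (nat_lit 17) true (nat_lit 16) (.s false (nat_lit 2) (nat_lit 34) (nat_lit 1) (nat_lit 2) (nat_lit 6) true (nat_lit 7) true (nat_lit 12) true (nat_lit 0) true (nat_lit 17) true (nat_lit 16) (.s true (nat_lit 3) (nat_lit 35) (nat_lit 1) (nat_lit 2) (nat_lit 6) true (nat_lit 7) true (nat_lit 12) true (nat_lit 0) true (nat_lit 17) true (nat_lit 16) (.s false (nat_lit 3) (nat_lit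 36) (nat_lit 1) (nat_lit 2) (nat_lit 6) true (nat_lit 7) true (nat_lit 12) true (nat_lit 0) true (nat_lit 17) true (nat_lit 16) (.s true (nat_lit 1) (nat_lit 37) (nat_lit 1) (nat_lit 2) (nat_lit 6) true (nat_lit 7) true (nat_lit 12) true (nat_lit 0) true (nat_lit 17) true (nat_lit 16) dC2d_i418)))))))))))))))))))))))))

noncomputable def dC2d_i420 : IL := (.s false (nat_lit 1) (nat_lit 19) (nat_lit 11) (nat_lit 2) (nat_lit 1) true (nat_lit 2) true (nat_lit 17) true (nat_lit 5) true (nat_lit 8) true (nat_lit 16) (.s true (nat_lit 2) (nat_lit 20) (nat_lit 0) (nat_lit 10) (nat_lit 2) true (nat_lit 13) true (nat_lit 16) true (nat_lit 4) true (nat_lit 18) true (nat_lit 9) (.s true (nat_lit 2) (nat_lit 20) (nat_lit 1) (nat_lit 0) (nat_lit 14) true (nat_lit 1) true (nat_lit 7) true (nat_lit 4) true (nat_lit 17) true (nat_lit 18) (.s false (nat_lit 1) (nat_lit 20) (nat_lit 1) (nat_lit 3) (nat_lit 6) true (nat_lit 7) true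 (nat_lit 12) true (nat_lit 4) true (nat_lit 17) true (nat_lit 15) (.s true (nat_lit 1) (nat_lit 20) (nat_lit 2) (nat_lit 1) (nat_lit 8) true (nat_lit 2) true (nat_lit 10) true (nat_lit 4) true (nat_lit 16) true (nat_lit 17) (.s true (nat_lit 1) (nat_lit 20) (nat_lit 2) (nat_lit 8) (nat_lit 1) true (nat_lit 12) true (nat_lit 17) true (nat_lit 4) true (nat_lit 16) true (nat_lit 10) (.s false (nat_lit 3) (nat_lit 20) (nat_lit 2) (nat_lit 9) (nat_lit 1) true (nat_lit 12) true (nat_lit 17) true (nat_lit 4) true (nat_lit 16) true (nat_lit 10) (.s true (nat_lit 1) (nat_lit 20) (nat_lit 9) (nat_lit 2) (nat_lit 1) true (nat_lit 3) true (nat_lit 17) true (nat_lit 4) true (nat_lit 10) true (nat_lit 16) (.s true (nat_lit 3) (nat_lit 20) (nat_lit 11) (nat_lit 1) (nat_lit 1) true (nat_lit 2) true (nat_lit 17) true (nat_lit 4) true (nat_lit 8) true (nat_lit 17) (.s true (nat_lit 3) (nat_lit 20) (nat_lit 12) (nat_lit 1) (nat_lit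 1) true (nat_lit 2) true (nat_lit 17) true (nat_lit 4) true (nat_lit 8) true (nat_lit 17) (.s true (nat_lit 3) (nat_lit 21) (nat_lit 2) (nat_lit 2) (nat_lit 7) true (nat_lit 4) true (nat_lit 11) true (nat_lit 3) true (nat_lit 16) true (nat_lit 16) (.s false (nat_lit 1) (nat_lit 22) (nat_lit 2) (nat_lit 2) (nat_lit 7) true (nat_lit 4) true (nat_lit 11) true (nat_lit 3) true (nat_lit 16) true (nat_lit 16) (.s false (nat_lit 3) (nat_lit 23) (nat_lit 2) (nat_lit 2) (nat_lit 7) true (nat_lit 4) true (nat_lit 11) true (nat_lit 3) true (nat_lit 16) true (nat_lit 16) (.s false (nat_lit 1) (nat_lit 21) (nat_lit 2) (nat_lit 7) (nat_lit 2) true (nat_lit 11) true (nat_lit 16) true (nat_lit 3) true (nat_lit 16) true (nat_lit 11) (.s true (nat_lit 2) (nat_lit 22) (nat_lit 2) (nat_lit 7) (nat_lit 2) true (nat_lit 11) true (nat_lit 16) true (nat_lit 3) true (nat_lit 16) true (nat_lit 11) (.s true (nat_lit 3) (nat_lit 23) (nat_lit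 2) (nat_lit 7) (nat_lit 2) true (nat_lit 11) true (nat_lit 16) true (nat_lit 3) true (nat_lit 16) true (nat_lit 11) (.s false (nat_lit 1) (nat_lit 21) (nat_lit 7) (nat_lit 2) (nat_lit 2) true (nat_lit 4) true (nat_lit 16) true (nat_lit 3) true (nat_lit 11) true (nat_lit 16) (.s true (nat_lit 3) (nat_lit 24) (nat_lit 1) (nat_lit 2) (nat_lit 7) true (nat_lit 5) true (nat_lit 11) true (nat_lit 2) true (nat_lit 17) true (nat_lit 16) (.s true (nat_lit 1) (nat_lit 25) (nat_lit 1) (nat_lit 2) (nat_lit 7) true (nat_lit 5) true (nat_lit 11) true (nat_lit 2) true (nat_lit 17) true (nat_lit 16) (.s true (nat_lit 2) (nat_lit 26) (nat_lit 1) (nat_lit 2) (nat_lit 7) true (nat_lit 5) true (nat_lit 11) true (nat_lit 2) true (nat_lit 17) true (nat_lit 16) (.s false (nat_lit 1) (nat_lit 25) (nat_lit 1) (nat_lit 7) (nat_lit 2) true (nat_lit 12) true (nat_lit 16) true (nat_lit 2) true (nat_lit 17) true (nat_lit 11) (.s false (nat_lit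 2) (nat_lit 26) (nat_lit 1) (nat_lit 7) (nat_lit 2) true (nat_lit 12) true (nat_lit 16) true (nat_lit 2) true (nat_lit 17) true (nat_lit 11) (.s true (nat_lit 2) (nat_lit 27) (nat_lit 1) (nat_lit 7) (nat_lit 2) true (nat_lit 12) true (nat_lit 16) true (nat_lit 2) true (nat_lit 17) true (nat_lit 11) (.s false (nat_lit 1) (nat_lit 24) (nat_lit 2) (nat_lit 1) (nat_lit 7) true (nat_lit 4) true (nat_lit 11) true (nat_lit 2) true (nat_lit 16) true (nat_lit 17) (.s false (nat_lit 1) (nat_lit 27) (nat_lit 2) (nat_lit 1) (nat_lit 7) true (nat_lit 4) true (nat_lit 11) true (nat_lit 2) true (nat_lit 16) true (nat_lit 17) dC2d_i419)))))))))))))))))))))))))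

noncomputable def dC2d_i421 : IL := (.s false (nat_lit 2) (nat_lit 16) (nat_lit 1) (nat_lit 2) (nat_lit 14) true (nat_lit 1) true (nat_lit 7) true (nat_lit 6) true (nat_lit 17) true (nat_lit 16) (.s true (nat_lit 3) (nat_lit 16) (nat_lit 2) (nat_lit 1) (nat_lit 15) false (nat_lit 0) true (nat_lit 7) true (nat_lit 6) true (nat_lit 16) true (nat_lit 17) (.s false (nat_lit 2) (nat_lit 17) (nat_lit 2) (nat_lit 2) (nat_lit 10) true (nat_lit 1) true (nat_lit 9) true (nat_lit 6) true (nat_lit 16) true (nat_lit 16) (.s true (nat_lit 2) (nat_lit 17) (nat_lit 4) (nat_lit 2) (nat_lit 6) true (nat_lit 1) true (nat_lit 12) true (nat_lit 6) true (nat_lit 14) true (nat_lit 16) (.s false (nat_lit 2) (nat_lit 16) (nat_lit 10) (nat_lit 2) (nat_lit 2) true (nat_lit 1) true (nat_lit 16) true (nat_lit 6) true (nat_lit 9) true (nat_lit 16) (.s false (nat_lit 2) (nat_lit 18) (nat_lit 0) (nat_lit 15) (nat_lit 2) true (nat_lit 13) true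 (nat_lit 16) true (nat_lit 5) true (nat_lit 18) true (nat_lit 7) (.s false (nat_lit 2) (nat_lit 18) (nat_lit 1) (nat_lit 2) (nat_lit 11) true (nat_lit 2) true (nat_lit 8) true (nat_lit 5) true (nat_lit 17) true (nat_lit 16) (.s false (nat_lit 3) (nat_lit 18) (nat_lit 1) (nat_lit 2) (nat_lit 12) true (nat_lit 2) true (nat_lit 8) true (nat_lit 5) true (nat_lit 17) true (nat_lit 16) (.s true (nat_lit 3) (nat_lit 19) (nat_lit 1) (nat_lit 2) (nat_lit 11) true (nat_lit 2) true (nat_lit 8) true (nat_lit 5) true (nat_lit 17) true (nat_lit 16) (.s false (nat_lit 1) (nat_lit 19) (nat_lit 1) (nat_lit 2) (nat_lit 12) true (nat_lit 2) true (nat_lit 8) true (nat_lit 5) true (nat_lit 17) true (nat_lit 16) (.s false (nat_lit 1) (nat_lit 18) (nat_lit 1) (nat_lit 3) (nat_lit 7) true (nat_lit 5) true (nat_lit 11) true (nat_lit 5) true (nat_lit 17) true (nat_lit 15) (.s true (nat_lit 2) (nat_lit 19) (nat_lit 1) (nat_lit 3) (nat_lit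 7) true (nat_lit 5) true (nat_lit 11) true (nat_lit 5) true (nat_lit 17) true (nat_lit 15) (.s true (nat_lit 1) (nat_lit 18) (nat_lit 1) (nat_lit 13) (nat_lit 2) true (nat_lit 12) true (nat_lit 16) true (nat_lit 5) true (nat_lit 17) true (nat_lit 8) (.s true (nat_lit 3) (nat_lit 18) (nat_lit 2) (nat_lit 1) (nat_lit 11) true (nat_lit 0) true (nat_lit 8) true (nat_lit 5) true (nat_lit 16) true (nat_lit 17) (.s true (nat_lit 2) (nat_lit 18) (nat_lit 2) (nat_lit 1) (nat_lit 13) true (nat_lit 0) true (nat_lit 8) true (nat_lit 5) true (nat_lit 16) true (nat_lit 17) (.s false (nat_lit 1) (nat_lit 19) (nat_lit 2) (nat_lit 2) (nat_lit 8) true (nat_lit 2) true (nat_lit 10) true (nat_lit 5) true (nat_lit 16) true (nat_lit 16) (.s false (nat_lit 1) (nat_lit 18) (nat_lit 2) (nat_lit 11) (nat_lit 1) true (nat_lit 12) true (nat_lit 17) true (nat_lit 5) true (nat_lit 16) true (nat_lit 8) (.s true (nat_lit 2) (nat_lit 18) (nat_lit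 2) (nat_lit 12) (nat_lit 1) true (nat_lit 12) true (nat_lit 17) true (nat_lit 5) true (nat_lit 16) true (nat_lit 8) (.s true (nat_lit 3) (nat_lit 19) (nat_lit 2) (nat_lit 11) (nat_lit 1) true (nat_lit 12) true (nat_lit 17) true (nat_lit 5) true (nat_lit 16) true (nat_lit 8) (.s true (nat_lit 2) (nat_lit 19) (nat_lit 2) (nat_lit 12) (nat_lit 1) true (nat_lit 12) true (nat_lit 17) true (nat_lit 5) true (nat_lit 16) true (nat_lit 8) (.s false (nat_lit 1) (nat_lit 18) (nat_lit 2) (nat_lit 15) (nat_lit 0) true (nat_lit 13) true (nat_lit 18) true (nat_lit 5) true (nat_lit 16) true (nat_lit 7) (.s true (nat_lit 1) (nat_lit 18) (nat_lit 8) (nat_lit 2) (nat_lit 2) true (nat_lit 2) true (nat_lit 16) true (nat_lit 5) true (nat_lit 10) true (nat_lit 16) (.s false (nat_lit 3) (nat_lit 18) (nat_lit 9) (nat_lit 2) (nat_lit 2) true (nat_lit 2) true (nat_lit 16) true (nat_lit 5) true (nat_lit 10) true (nat_lit 16) (.s true (nat_lit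 2) (nat_lit 19) (nat_lit 9) (nat_lit 2) (nat_lit 2) true (nat_lit 2) true (nat_lit 16) true (nat_lit 5) true (nat_lit 10) true (nat_lit 16) (.s false (nat_lit 1) (nat_lit 19) (nat_lit 11) (nat_lit 1) (nat_lit 2) true (nat_lit 0) true (nat_lit 16) true (nat_lit 5) true (nat_lit 8) true (nat_lit 17) dC2d_i420)))))))))))))))))))))))))

noncomputable def dC2d_i422 : IL := (.s true (nat_lit 1) (nat_lit 19) (nat_lit 14) (nat_lit 2) (nat_lit 2) true (nat_lit 0) true (nat_lit 9) true (nat_lit 3) true (nat_lit 4) true (nat_lit 9) (.s false (nat_lit 1) (nat_lit 20) (nat_lit 1) (nat_lit 14) (nat_lit 2) true (nat_lit 7) true (nat_lit 9) true (nat_lit 2) true (nat_lit 10) true (nat_lit 4) (.s true (nat_lit 2) (nat_lit 20) (nat_lit 2) (nat_lit 14) (nat_lit 1) true (nat_lit 7) true (nat_lit 10) true (nat_lit 2) true (nat_lit 9) true (nat_lit 4) (.s true (nat_lit 3) (nat_lit 20) (nat_lit 4) (nat_lit 1) (nat_lit 7) true (nat_lit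 0) true (nat_lit 6) true (nat_lit 2) true (nat_lit 8) true (nat_lit 10) (.s false (nat_lit 3) (nat_lit 20) (nat_lit 6) (nat_lit 2) (nat_lit 4) true (nat_lit 1) true (nat_lit 8) true (nat_lit 2) true (nat_lit 7) true (nat_lit 9) (.s false (nat_lit 3) (nat_lit 20) (nat_lit 10) (nat_lit 2) (nat_lit 2) true (nat_lit 1) true (nat_lit 9) true (nat_lit 2) true (nat_lit 5) true (nat_lit 9) (.s true (nat_lit 3) (nat_lit 20) (nat_lit 14) (nat_lit 2) (nat_lit 1) true (nat_lit 1) true (nat_lit 10) true (nat_lit 2) true (nat_lit 4) true (nat_lit 9) (.s true (nat_lit 1) (nat_lit 31) (nat_lit 2) (nat_lit 2) (nat_lit 7) true (nat_lit 2) true (nat_lit 6) true (nat_lit 1) true (nat_lit 9) true (nat_lit 9) (.s false (nat_lit 1) (nat_lit 39) (nat_lit 1) (nat_lit 2) (nat_lit 7) true (nat_lit 3) true (nat_lit 6) true (nat_lit 0) true (nat_lit 10) true (nat_lit 9) (.s true (nat_lit 3) (nat_lit 39) (nat_lit 2) (nat_lit 2) (nat_lit 6)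 true (nat_lit 3) true (nat_lit 7) true (nat_lit 0) true (nat_lit 9) true (nat_lit 9) (.s true (nat_lit 2) (nat_lit 39) (nat_lit 2) (nat_lit 7) (nat_lit 1) true (nat_lit 7) true (nat_lit 10) true (nat_lit 0) true (nat_lit 9) true (nat_lit 6) (.s true (nat_lit 3) (nat_lit 39) (nat_lit 6) (nat_lit 2) (nat_lit 2) true (nat_lit 3) true (nat_lit 9) true (nat_lit 0) true (nat_lit 7) true (nat_lit 9) (.s true (nat_lit 3) (nat_lit 47) (nat_lit 2) (nat_lit 2) (nat_lit 4) true (nat_lit 4) true (nat_lit 8) false (nat_lit 0) true (nat_lit 9) true (nat_lit 9) (.s false (nat_lit 3) (nat_lit 46) (nat_lit 2) (nat_lit 4) (nat_lit 2) true (nat_lit 6) true (nat_lit 9) false (nat_lit 0) true (nat_lit 9) true (nat_lit 8) (.s true (nat_lit 2) (nat_lit 46) (nat_lit 4) (nat_lit 2) (nat_lit 2) true (nat_lit 4) true (nat_lit 9) false (nat_lit 0) true (nat_lit 8) true (nat_lit 9) (.s true (nat_lit 1) (nat_lit 47) (nat_lit 4) (nat_lit 2)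 (nat_lit 2) true (nat_lit 4) true (nat_lit 9) false (nat_lit 0) true (nat_lit 8) true (nat_lit 9) (.s false (nat_lit 2) (nat_lit 77) (nat_lit 2) (nat_lit 2) (nat_lit 2) true (nat_lit 6) true (nat_lit 9) false (nat_lit 2) true (nat_lit 9) true (nat_lit 9) (.s false (nat_lit 3) (nat_lit 91) (nat_lit 1) (nat_lit 2) (nat_lit 2) true (nat_lit 7) true (nat_lit 9) false (nat_lit 3) true (nat_lit 10) true (nat_lit 9) (.s true (nat_lit 1) (nat_lit 96) (nat_lit 1) (nat_lit 2) (nat_lit 2) true (nat_lit 7) true (nat_lit 9) false (nat_lit 3) true (nat_lit 10) true (nat_lit 9) (.s false (nat_lit 1) (nat_lit 96) (nat_lit 2) (nat_lit 1) (nat_lit 2) true (nat_lit 6) true (nat_lit 9) false (nat_lit 3) true (nat_lit 9) true (nat_lit 10) (.s false (nat_lit 3) (nat_lit 96) (nat_lit 2) (nat_lit 2) (nat_lit 1) true (nat_lit 7) true (nat_lit 10) false (nat_lit 3) true (nat_lit 9) true (nat_lit 9) (.e false (nat_lit 3) (nat_lit 167) (nat_lit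 7) (nat_lit 6) (.e true (nat_lit 1) (nat_lit 298) (nat_lit 2) (nat_lit 9) (.e true (nat_lit 1) (nat_lit 79) (nat_lit 20) (nat_lit 2) (.u (nat_lit 2) (.p (nat_lit 8) (nat_lit 1) (.p (nat_lit 17) (nat_lit 1) (.p (nat_lit 32) (nat_lit 1) (.p (nat_lit 47) (nat_lit 1) (.n (nat_lit 48) (nat_lit 1) (.n (nat_lit 55) (nat_lit 1) (.p (nat_lit 57) (nat_lit 1) (.p (nat_lit 62) (nat_lit 1) (.p (nat_lit 74) (nat_lit 1) (.p (nat_lit 76) (nat_lit 1) (.n (nat_lit 77) (nat_lit 1) (.n (nat_lit 80) (nat_lit 4) (.p (nat_lit 81) (nat_lit 3) (.p (nat_lit 82) (nat_lit 5) (.n (nat_lit 83) (nat_lit 5) (.p (nat_lit 84) (nat_lit 4) (.n (nat_lit 85) (nat_lit 6) (.p (nat_lit 87) (nat_lit 5) (.n (nat_lit 88) (nat_lit 2) (.n (nat_lit 89) (nat_lit 1) (.p (nat_lit 91) (nat_lit 4) (.n (nat_lit 92) (nat_lit 4) (.n (nat_lit 94) (nat_lit 6) (.p (nat_lit 95) (nat_lit 6) (.n (nat_lit 106) (nat_lit 1) .z))))))))))))))))))))))))) .nil)))))))))))))))))))))))))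

noncomputable def dC2d_i423 : IL := (.s true (nat_lit 3) (nat_lit 94) (nat_lit 1) (nat_lit 2) (nat_lit 2) true (nat_lit 7) true (nat_lit 9) false (nat_lit 3) true (nat_lit 10) true (nat_lit 9) (.s false (nat_lit 2) (nat_lit 92) (nat_lit 2) (nat_lit 1) (nat_lit 2) true (nat_lit 6) true (nat_lit 9) false (nat_lit 3) true (nat_lit 9) true (nat_lit 10) (.s true (nat_lit 2) (nat_lit 93) (nat_lit 2) (nat_lit 1) (nat_lit 2) true (nat_lit 6) true (nat_lit 9) false (nat_lit 3) true (nat_lit 9) true (nat_lit 10) (.s false (nat_lit 3) (nat_lit 94) (nat_lit 2) (nat_lit 1) (nat_lit 2) true (nat_lit 6) true (nat_lit 9) false (nat_lit 3) true (nat_lit 9) true (nat_lit 10) (.s true (nat_lit 2) (nat_lit 96) (nat_lit 2) (nat_lit 1) (nat_lit 2) true (nat_lit 6) true (nat_lit 9) false (nat_lit 3) true (nat_lit 9) true (nat_lit 10) (.s false (nat_lit 3) (nat_lit 94) (nat_lit 2) (nat_lit 2) (nat_lit 1) true (nat_lit 7) true (nat_lit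 10) false (nat_lit 3) true (nat_lit 9) true (nat_lit 9) (.s false (nat_lit 1) (nat_lit 96) (nat_lit 2) (nat_lit 2) (nat_lit 1) true (nat_lit 7) true (nat_lit 10) false (nat_lit 3) true (nat_lit 9) true (nat_lit 9) (.s true (nat_lit 2) (nat_lit 102) (nat_lit 1) (nat_lit 1) (nat_lit 2) true (nat_lit 7) true (nat_lit 9) false (nat_lit 4) true (nat_lit 10) true (nat_lit 10) (.s true (nat_lit 2) (nat_lit 103) (nat_lit 1) (nat_lit 2) (nat_lit 1) true (nat_lit 8) true (nat_lit 10) false (nat_lit 4) true (nat_lit 10) true (nat_lit 9) (.s false (nat_lit 2) (nat_lit 102) (nat_lit 2) (nat_lit 1) (nat_lit 1) true (nat_lit 7) true (nat_lit 10) false (nat_lit 4) true (nat_lit 9) true (nat_lit 10) (.s true (nat_lit 2) (nat_lit 105) (nat_lit 1) (nat_lit 1) (nat_lit 1) true (nat_lit 8) true (nat_lit 10) false (nat_lit 5) true (nat_lit 10) true (nat_lit 10) (.e true (nat_lit 2) (nat_lit 167) (nat_lit 7) (nat_lit 6) (.e true (nat_lit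 1) (nat_lit 289) (nat_lit 2) (nat_lit 9) (.e true (nat_lit 1) (nat_lit 290) (nat_lit 2) (nat_lit 9) (.e true (nat_lit 2) (nat_lit 291) (nat_lit 2) (nat_lit 9) (.e false (nat_lit 1) (nat_lit 292) (nat_lit 2) (nat_lit 9) (.e false (nat_lit 2) (nat_lit 293) (nat_lit 2) (nat_lit 9) (.e true (nat_lit 1) (nat_lit 297) (nat_lit 2) (nat_lit 9) (.e true (nat_lit 2) (nat_lit 298) (nat_lit 2) (nat_lit 9) (.e true (nat_lit 3) (nat_lit 301) (nat_lit 2) (nat_lit 9) (.e true (nat_lit 1) (nat_lit 303) (nat_lit 2) (nat_lit 9) (.e true (nat_lit 3) (nat_lit 296) (nat_lit 2) (nat_lit 9) (.e false (nat_lit 1) (nat_lit 299) (nat_lit 2) (nat_lit 9) (.e true (nat_lit 1) (nat_lit 79) (nat_lit 20) (nat_lit 2) (.u (nat_lit 2) (.n (nat_lit 1) (nat_lit 1) (.n (nat_lit 5) (nat_lit 1) (.n (nat_lit 7) (nat_lit 1) (.p (nat_lit 9) (nat_lit 1) (.p (nat_lit 24) (nat_lit 1) (.n (nat_lit 27) (nat_lit 1) (.p (nat_lit 30) (nat_lit 1) (.p (nat_lit 47)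 (nat_lit 1) (.p (nat_lit 53) (nat_lit 1) (.n (nat_lit 54) (nat_lit 2) (.n (nat_lit 56) (nat_lit 3) (.p (nat_lit 57) (nat_lit 2) (.p (nat_lit 58) (nat_lit 4) (.n (nat_lit 59) (nat_lit 2) (.n (nat_lit 60) (nat_lit 1) (.p (nat_lit 63) (nat_lit 1) (.n (nat_lit 64) (nat_lit 1) (.p (nat_lit 70) (nat_lit 1) (.n (nat_lit 74) (nat_lit 1) (.n (nat_lit 78) (nat_lit 1) (.p (nat_lit 79) (nat_lit 1) (.p (nat_lit 80) (nat_lit 2) (.n (nat_lit 81) (nat_lit 3) (.p (nat_lit 82) (nat_lit 2) (.p (nat_lit 83) (nat_lit 13) (.n (nat_lit 84) (nat_lit 10) (.p (nat_lit 85) (nat_lit 3) (.p (nat_lit 86) (nat_lit 7) (.n (nat_lit 87) (nat_lit 5) (.p (nat_lit 89) (nat_lit 5) (.n (nat_lit 90) (nat_lit 1) (.p (nat_lit 91) (nat_lit 1) (.p (nat_lit 92) (nat_lit 3) (.n (nat_lit 94) (nat_lit 4) (.n (nat_lit 95) (nat_lit 3) (.n (nat_lit 97) (nat_lit 3) (.p (nat_lit 98) (nat_lit 2) (.n (nat_lit 99) (nat_lit 3) (.p (nat_lit 100) (nat_lit 3) (.p (nat_lit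 101) (nat_lit 3) (.n (nat_lit 102) (nat_lit 1) (.n (nat_lit 103) (nat_lit 5) (.p (nat_lit 105) (nat_lit 2) (.p (nat_lit 106) (nat_lit 2) .z)))))))))))))))))))))))))))))))))))))))))))) .nil)))))))))))))))))))))))))

noncomputable def dC2d_i424 : IL := (.s false (nat_lit 1) (nat_lit 20) (nat_lit 1) (nat_lit 14) (nat_lit 2) true (nat_lit 7) true (nat_lit 9) true (nat_lit 2) true (nat_lit 10) true (nat_lit 4) (.s false (nat_lit 1) (nat_lit 20) (nat_lit 2) (nat_lit 2) (nat_lit 10) true (nat_lit 1) true (nat_lit 5) true (nat_lit 2) true (nat_lit 9) true (nat_lit 9) (.s true (nat_lit 3) (nat_lit 20) (nat_lit 2) (nat_lit 14) (nat_lit 1) true (nat_lit 7) true (nat_lit 10) true (nat_lit 2) true (nat_lit 9) true (nat_lit 4) (.s true (nat_lit 1) (nat_lit 20) (nat_lit 4) (nat_lit 1) (nat_lit 7) true (nat_lit 0) true (nat_lit 6) true (nat_lit 2) true (nat_lit 8) true (nat_lit 10) (.s true (nat_lit 3) (nat_lit 20) (nat_lit 6)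 (nat_lit 2) (nat_lit 4) true (nat_lit 1) true (nat_lit 8) true (nat_lit 2) true (nat_lit 7) true (nat_lit 9) (.s false (nat_lit 1) (nat_lit 20) (nat_lit 6) (nat_lit 4) (nat_lit 2) true (nat_lit 3) true (nat_lit 9) true (nat_lit 2) true (nat_lit 7) true (nat_lit 8) (.s false (nat_lit 2) (nat_lit 20) (nat_lit 10) (nat_lit 2) (nat_lit 2) true (nat_lit 1) true (nat_lit 9) true (nat_lit 2) true (nat_lit 5) true (nat_lit 9) (.s true (nat_lit 2) (nat_lit 20) (nat_lit 14) (nat_lit 1) (nat_lit 2) true (nat_lit 0) true (nat_lit 9) true (nat_lit 2) true (nat_lit 4) true (nat_lit 10) (.s false (nat_lit 1) (nat_lit 20) (nat_lit 14) (nat_lit 2) (nat_lit 1) true (nat_lit 1) true (nat_lit 10) true (nat_lit 2) true (nat_lit 4) true (nat_lit 9) (.s false (nat_lit 1) (nat_lit 30) (nat_lit 2) (nat_lit 2) (nat_lit 7) true (nat_lit 2) true (nat_lit 6) true (nat_lit 1) true (nat_lit 9) true (nat_lit 9) (.s false (nat_lit 2) (nat_lit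 31) (nat_lit 2) (nat_lit 2) (nat_lit 7) true (nat_lit 2) true (nat_lit 6) true (nat_lit 1) true (nat_lit 9) true (nat_lit 9) (.s true (nat_lit 3) (nat_lit 32) (nat_lit 2) (nat_lit 2) (nat_lit 7) true (nat_lit 2) true (nat_lit 6) true (nat_lit 1) true (nat_lit 9) true (nat_lit 9) (.s false (nat_lit 3) (nat_lit 32) (nat_lit 2) (nat_lit 7) (nat_lit 2) true (nat_lit 6) true (nat_lit 9) true (nat_lit 1) true (nat_lit 9) true (nat_lit 6) (.s false (nat_lit 3) (nat_lit 32) (nat_lit 7) (nat_lit 2) (nat_lit 2) true (nat_lit 2) true (nat_lit 9) true (nat_lit 1) true (nat_lit 6) true (nat_lit 9) (.s false (nat_lit 2) (nat_lit 39) (nat_lit 2) (nat_lit 2) (nat_lit 6) true (nat_lit 3) true (nat_lit 7) true (nat_lit 0) true (nat_lit 9) true (nat_lit 9) (.s true (nat_lit 1) (nat_lit 39) (nat_lit 2) (nat_lit 7) (nat_lit 1) true (nat_lit 7) true (nat_lit 10) true (nat_lit 0) true (nat_lit 9) true (nat_lit 6) (.s false (nat_lit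 2) (nat_lit 39) (nat_lit 6) (nat_lit 2) (nat_lit 2) true (nat_lit 3) true (nat_lit 9) true (nat_lit 0) true (nat_lit 7) true (nat_lit 9) (.s true (nat_lit 3) (nat_lit 45) (nat_lit 1) (nat_lit 1) (nat_lit 7) true (nat_lit 3) true (nat_lit 6) false (nat_lit 0) true (nat_lit 10) true (nat_lit 10) (.s true (nat_lit 1) (nat_lit 46) (nat_lit 2) (nat_lit 2) (nat_lit 4) true (nat_lit 4) true (nat_lit 8) false (nat_lit 0) true (nat_lit 9) true (nat_lit 9) (.s true (nat_lit 1) (nat_lit 46) (nat_lit 2) (nat_lit 4) (nat_lit 2) true (nat_lit 6) true (nat_lit 9) false (nat_lit 0) true (nat_lit 9) true (nat_lit 8) (.s true (nat_lit 3) (nat_lit 47) (nat_lit 4) (nat_lit 2) (nat_lit 2) true (nat_lit 4) true (nat_lit 9) false (nat_lit 0) true (nat_lit 8) true (nat_lit 9) (.s true (nat_lit 1) (nat_lit 48) (nat_lit 1) (nat_lit 2) (nat_lit 4) true (nat_lit 5) true (nat_lit 8) false (nat_lit 1) true (nat_lit 10) true (nat_lit 9) (.s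 true (nat_lit 3) (nat_lit 48) (nat_lit 4) (nat_lit 2) (nat_lit 1) true (nat_lit 5) true (nat_lit 10) false (nat_lit 1) true (nat_lit 8) true (nat_lit 9) (.s true (nat_lit 2) (nat_lit 77) (nat_lit 2) (nat_lit 2) (nat_lit 2) true (nat_lit 6) true (nat_lit 9) false (nat_lit 2) true (nat_lit 9) true (nat_lit 9) (.s true (nat_lit 2) (nat_lit 91) (nat_lit 1) (nat_lit 2) (nat_lit 2) true (nat_lit 7) true (nat_lit 9) false (nat_lit 3) true (nat_lit 10) true (nat_lit 9) dC2d_i423)))))))))))))))))))))))))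

noncomputable def dC2d_i425 : IL := (.s true (nat_lit 2) (nat_lit 94) (nat_lit 1) (nat_lit 2) (nat_lit 2) true (nat_lit 7) true (nat_lit 9) false (nat_lit 3) true (nat_lit 10) true (nat_lit 9) (.s true (nat_lit 2) (nat_lit 96) (nat_lit 1) (nat_lit 2) (nat_lit 2) true (nat_lit 7) true (nat_lit 9) false (nat_lit 3) true (nat_lit 10) true (nat_lit 9) (.s false (nat_lit 2) (nat_lit 92) (nat_lit 2) (nat_lit 1) (nat_lit 2) true (nat_lit 6) true (nat_lit 9) false (nat_lit 3) true (nat_lit 9) true (nat_lit 10) (.s true (nat_lit 3) (nat_lit 93) (nat_lit 2) (nat_lit 1) (nat_lit 2) true (nat_lit 6) true (nat_lit 9) false (nat_lit 3) true (nat_lit 9) true (nat_lit 10) (.s false (nat_lit 1) (nat_lit 94) (nat_lit 2) (nat_lit 1) (nat_lit 2) true (nat_lit 6) true (nat_lit 9) false (nat_lit 3) true (nat_lit 9) true (nat_lit 10) (.s false (nat_lit 2) (nat_lit 91) (nat_lit 2) (nat_lit 2) (nat_lit 1) true (nat_lit 7) true (nat_lit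 10) false (nat_lit 3) true (nat_lit 9) true (nat_lit 9) (.s false (nat_lit 1) (nat_lit 92) (nat_lit 2) (nat_lit 2) (nat_lit 1) true (nat_lit 7) true (nat_lit 10) false (nat_lit 3) true (nat_lit 9) true (nat_lit 9) (.s true (nat_lit 1) (nat_lit 93) (nat_lit 2) (nat_lit 2) (nat_lit 1) true (nat_lit 7) true (nat_lit 10) false (nat_lit 3) true (nat_lit 9) true (nat_lit 9) (.s false (nat_lit 3) (nat_lit 94) (nat_lit 2) (nat_lit 2) (nat_lit 1) true (nat_lit 7) true (nat_lit 10) false (nat_lit 3) true (nat_lit 9) true (nat_lit 9) (.s false (nat_lit 2) (nat_lit 102) (nat_lit 1) (nat_lit 2) (nat_lit 1) true (nat_lit 8) true (nat_lit 10) false (nat_lit 4) true (nat_lit 10) true (nat_lit 9) (.s false (nat_lit 1) (nat_lit 102) (nat_lit 2) (nat_lit 1) (nat_lit 1) true (nat_lit 7) true (nat_lit 10) false (nat_lit 4) true (nat_lit 9) true (nat_lit 10) (.s true (nat_lit 3) (nat_lit 103) (nat_lit 2) (nat_lit 1) (nat_lit 1) true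 (nat_lit 7) true (nat_lit 10) false (nat_lit 4) true (nat_lit 9) true (nat_lit 10) (.e false (nat_lit 3) (nat_lit 79) (nat_lit 20) (nat_lit 2) (.e false (nat_lit 2) (nat_lit 163) (nat_lit 7) (nat_lit 6) (.e false (nat_lit 3) (nat_lit 290) (nat_lit 2) (nat_lit 9) (.e true (nat_lit 1) (nat_lit 291) (nat_lit 2) (nat_lit 9) (.e false (nat_lit 3) (nat_lit 295) (nat_lit 2) (nat_lit 9) (.e false (nat_lit 1) (nat_lit 297) (nat_lit 2) (nat_lit 9) (.e false (nat_lit 2) (nat_lit 303) (nat_lit 2) (nat_lit 9) (.e true (nat_lit 2) (nat_lit 294) (nat_lit 2) (nat_lit 9) (.e true (nat_lit 1) (nat_lit 296) (nat_lit 2) (nat_lit 9) (.e true (nat_lit 1) (nat_lit 298) (nat_lit 2) (nat_lit 9) (.e true (nat_lit 3) (nat_lit 299) (nat_lit 2) (nat_lit 9) (.e false (nat_lit 2) (nat_lit 167) (nat_lit 7) (nat_lit 6) (.u (nat_lit 2) (.p (nat_lit 14) (nat_lit 1) (.p (nat_lit 17) (nat_lit 1) (.n (nat_lit 23) (nat_lit 1) (.n (nat_lit 27) (nat_lit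 1) (.n (nat_lit 29) (nat_lit 1) (.p (nat_lit 31) (nat_lit 1) (.n (nat_lit 32) (nat_lit 2) (.p (nat_lit 33) (nat_lit 1) (.p (nat_lit 36) (nat_lit 1) (.p (nat_lit 37) (nat_lit 1) (.n (nat_lit 38) (nat_lit 1) (.p (nat_lit 40) (nat_lit 1) (.n (nat_lit 54) (nat_lit 1) (.n (nat_lit 55) (nat_lit 1) (.p (nat_lit 57) (nat_lit 2) (.n (nat_lit 59) (nat_lit 1) (.p (nat_lit 60) (nat_lit 2) (.n (nat_lit 61) (nat_lit 2) (.p (nat_lit 62) (nat_lit 1) (.n (nat_lit 63) (nat_lit 1) (.p (nat_lit 65) (nat_lit 1) (.n (nat_lit 66) (nat_lit 1) (.n (nat_lit 67) (nat_lit 1) (.p (nat_lit 68) (nat_lit 1) (.n (nat_lit 70) (nat_lit 2) (.p (nat_lit 74) (nat_lit 1) (.p (nat_lit 80) (nat_lit 7) (.p (nat_lit 81) (nat_lit 3) (.p (nat_lit 82) (nat_lit 6) (.p (nat_lit 83) (nat_lit 3) (.n (nat_lit 84) (nat_lit 17) (.n (nat_lit 85) (nat_lit 1) (.n (nat_lit 86) (nat_lit 6) (.p (nat_lit 87) (nat_lit 6) (.p (nat_lit 89) (nat_lit 7) (.n (nat_lit 90) (nat_lit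 4) (.n (nat_lit 91) (nat_lit 5) (.p (nat_lit 92) (nat_lit 14) (.n (nat_lit 93) (nat_lit 4) (.p (nat_lit 94) (nat_lit 4) (.n (nat_lit 95) (nat_lit 7) (.p (nat_lit 96) (nat_lit 1) (.p (nat_lit 97) (nat_lit 3) (.p (nat_lit 98) (nat_lit 6) (.n (nat_lit 99) (nat_lit 3) (.p (nat_lit 100) (nat_lit 5) (.p (nat_lit 102) (nat_lit 2) (.p (nat_lit 103) (nat_lit 1) (.n (nat_lit 105) (nat_lit 1) .z))))))))))))))))))))))))))))))))))))))))))))))))) .nil)))))))))))))))))))))))))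

noncomputable def dC2d_i426 : IL := (.s false (nat_lit 1) (nat_lit 30) (nat_lit 2) (nat_lit 2) (nat_lit 7) true (nat_lit 2) true (nat_lit 6) true (nat_lit 1) true (nat_lit 9) true (nat_lit 9) (.s true (nat_lit 3) (nat_lit 31) (nat_lit 2) (nat_lit 2) (nat_lit 7) true (nat_lit 2) true (nat_lit 6) true (nat_lit 1) true (nat_lit 9) true (nat_lit 9) (.s true (nat_lit 3) (nat_lit 32) (nat_lit 2) (nat_lit 2) (nat_lit 7) true (nat_lit 2) true (nat_lit 6) true (nat_lit 1) true (nat_lit 9) true (nat_lit 9) (.s false (nat_lit 1) (nat_lit 32) (nat_lit 2) (nat_lit 7) (nat_lit 2) true (nat_lit 6) true (nat_lit 9) true (nat_lit 1) true (nat_lit 9) true (nat_lit 6) (.s false (nat_lit 1) (nat_lit 32) (nat_lit 7) (nat_lit 2) (nat_lit 2) true (nat_lit 2) true (nat_lit 9) true (nat_lit 1) true (nat_lit 6) true (nat_lit 9) (.s true (nat_lit 2) (nat_lit 39) (nat_lit 1) (nat_lit 2) (nat_lit 7) true (nat_lit 3) true (nat_lit 6) true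 (nat_lit 0) true (nat_lit 10) true (nat_lit 9) (.s true (nat_lit 3) (nat_lit 39) (nat_lit 2) (nat_lit 2) (nat_lit 6) true (nat_lit 3) true (nat_lit 7) true (nat_lit 0) true (nat_lit 9) true (nat_lit 9) (.s false (nat_lit 2) (nat_lit 39) (nat_lit 2) (nat_lit 7) (nat_lit 1) true (nat_lit 7) true (nat_lit 10) true (nat_lit 0) true (nat_lit 9) true (nat_lit 6) (.s false (nat_lit 1) (nat_lit 39) (nat_lit 6) (nat_lit 2) (nat_lit 2) true (nat_lit 3) true (nat_lit 9) true (nat_lit 0) true (nat_lit 7) true (nat_lit 9) (.s false (nat_lit 3) (nat_lit 40) (nat_lit 6) (nat_lit 2) (nat_lit 2) true (nat_lit 3) true (nat_lit 9) true (nat_lit 0) true (nat_lit 7) true (nat_lit 9) (.s true (nat_lit 3) (nat_lit 46) (nat_lit 1) (nat_lit 2) (nat_lit 6) true (nat_lit 4) true (nat_lit 7) false (nat_lit 0) true (nat_lit 10) true (nat_lit 9) (.s true (nat_lit 1) (nat_lit 46) (nat_lit 2) (nat_lit 1) (nat_lit 6) true (nat_lit 3) true (nat_lit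 7) false (nat_lit 0) true (nat_lit 9) true (nat_lit 10) (.s true (nat_lit 1) (nat_lit 47) (nat_lit 2) (nat_lit 2) (nat_lit 4) true (nat_lit 4) true (nat_lit 8) false (nat_lit 0) true (nat_lit 9) true (nat_lit 9) (.s false (nat_lit 3) (nat_lit 47) (nat_lit 2) (nat_lit 4) (nat_lit 2) true (nat_lit 6) true (nat_lit 9) false (nat_lit 0) true (nat_lit 9) true (nat_lit 8) (.s true (nat_lit 2) (nat_lit 45) (nat_lit 4) (nat_lit 2) (nat_lit 2) true (nat_lit 4) true (nat_lit 9) false (nat_lit 0) true (nat_lit 8) true (nat_lit 9) (.s false (nat_lit 1) (nat_lit 46) (nat_lit 4) (nat_lit 2) (nat_lit 2) true (nat_lit 4) true (nat_lit 9) false (nat_lit 0) true (nat_lit 8) true (nat_lit 9) (.s true (nat_lit 1) (nat_lit 47) (nat_lit 4) (nat_lit 2) (nat_lit 2) true (nat_lit 4) true (nat_lit 9) false (nat_lit 0) true (nat_lit 8) true (nat_lit 9) (.s false (nat_lit 2) (nat_lit 47) (nat_lit 7) (nat_lit 1) (nat_lit 1) true (nat_lit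 3) true (nat_lit 10) false (nat_lit 0) true (nat_lit 6) true (nat_lit 10) (.s true (nat_lit 3) (nat_lit 48) (nat_lit 1) (nat_lit 2) (nat_lit 4) true (nat_lit 5) true (nat_lit 8) false (nat_lit 1) true (nat_lit 10) true (nat_lit 9) (.s true (nat_lit 1) (nat_lit 48) (nat_lit 2) (nat_lit 4) (nat_lit 1) true (nat_lit 7) true (nat_lit 10) false (nat_lit 1) true (nat_lit 9) true (nat_lit 8) (.s false (nat_lit 2) (nat_lit 77) (nat_lit 2) (nat_lit 2) (nat_lit 2) true (nat_lit 6) true (nat_lit 9) false (nat_lit 2) true (nat_lit 9) true (nat_lit 9) (.s false (nat_lit 2) (nat_lit 78) (nat_lit 2) (nat_lit 2) (nat_lit 2) true (nat_lit 6) true (nat_lit 9) false (nat_lit 2) true (nat_lit 9) true (nat_lit 9) (.s false (nat_lit 2) (nat_lit 91) (nat_lit 1) (nat_lit 2) (nat_lit 2) true (nat_lit 7) true (nat_lit 9) false (nat_lit 3) true (nat_lit 10) true (nat_lit 9) (.s false (nat_lit 2) (nat_lit 92) (nat_lit 1) (nat_lit 2) (nat_lit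 2) true (nat_lit 7) true (nat_lit 9) false (nat_lit 3) true (nat_lit 10) true (nat_lit 9) (.s false (nat_lit 2) (nat_lit 93) (nat_lit 1) (nat_lit 2) (nat_lit 2) true (nat_lit 7) true (nat_lit 9) false (nat_lit 3) true (nat_lit 10) true (nat_lit 9) dC2d_i425)))))))))))))))))))))))))

noncomputable def dC2d_i427 : IL := (.e false (nat_lit 1) (nat_lit 278) (nat_lit 1) (nat_lit 17) (.e false (nat_lit 1) (nat_lit 229) (nat_lit 2) (nat_lit 16) (.e false (nat_lit 1) (nat_lit 234) (nat_lit 2) (nat_lit 16) (.e true (nat_lit 1) (nat_lit 256) (nat_lit 1) (nat_lit 17) (.e false (nat_lit 1) (nat_lit 257) (nat_lit 1) (nat_lit 17) (.e true (nat_lit 2) (nat_lit 275) (nat_lit 1) (nat_lit 17) (.e false (nat_lit 3) (nat_lit 155) (nat_lit 6) (nat_lit 12) (.e false (nat_lit 1) (nat_lit 279) (nat_lit 1) (nat_lit 17) (.e false (nat_lit 1) (nat_lit 282) (nat_lit 1) (nat_lit 17) (.e true (nat_lit 3) (nat_lit 289) (nat_lit 0) (nat_lit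 18) (.e false (nat_lit 1) (nat_lit 290) (nat_lit 0) (nat_lit 18) (.e false (nat_lit 2) (nat_lit 291) (nat_lit 0) (nat_lit 18) (.e false (nat_lit 3) (nat_lit 292) (nat_lit 0) (nat_lit 18) (.e false (nat_lit 1) (nat_lit 293) (nat_lit 0) (nat_lit 18) (.e true (nat_lit 2) (nat_lit 294) (nat_lit 0) (nat_lit 18) (.e true (nat_lit 3) (nat_lit 297) (nat_lit 0) (nat_lit 18) (.e true (nat_lit 2) (nat_lit 301) (nat_lit 0) (nat_lit 18) (.e true (nat_lit 2) (nat_lit 280) (nat_lit 1) (nat_lit 17) (.e true (nat_lit 3) (nat_lit 300) (nat_lit 0) (nat_lit 18) (.e true (nat_lit 2) (nat_lit 296) (nat_lit 0) (nat_lit 18) (.e false (nat_lit 3) (nat_lit 170) (nat_lit 4) (nat_lit 14) (.u (nat_lit 2) (.p (nat_lit 0) (nat_lit 1) (.p (nat_lit 4) (nat_lit 1) (.p (nat_lit 6) (nat_lit 2) (.n (nat_lit 7) (nat_lit 1) (.n (nat_lit 8) (nat_lit 1) (.n (nat_lit 9) (nat_lit 1) (.n (nat_lit 10) (nat_lit 1) (.p (nat_lit 11) (nat_lit 1) (.n (nat_lit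 14) (nat_lit 1) (.p (nat_lit 15) (nat_lit 1) (.n (nat_lit 16) (nat_lit 2) (.n (nat_lit 17) (nat_lit 2) (.p (nat_lit 18) (nat_lit 1) (.n (nat_lit 19) (nat_lit 1) (.p (nat_lit 20) (nat_lit 2) (.n (nat_lit 21) (nat_lit 1) (.p (nat_lit 22) (nat_lit 1) (.p (nat_lit 24) (nat_lit 1) (.n (nat_lit 25) (nat_lit 4) (.p (nat_lit 26) (nat_lit 1) (.n (nat_lit 27) (nat_lit 4) (.p (nat_lit 29) (nat_lit 1) (.p (nat_lit 32) (nat_lit 2) (.p (nat_lit 33) (nat_lit 1) (.p (nat_lit 34) (nat_lit 1) (.p (nat_lit 35) (nat_lit 1) (.n (nat_lit 36) (nat_lit 2) (.n (nat_lit 37) (nat_lit 1) (.n (nat_lit 38) (nat_lit 1) (.p (nat_lit 39) (nat_lit 1) (.p (nat_lit 41) (nat_lit 1) (.p (nat_lit 45) (nat_lit 1) (.n (nat_lit 46) (nat_lit 2) (.n (nat_lit 48) (nat_lit 1) (.p (nat_lit 57) (nat_lit 1) (.n (nat_lit 72) (nat_lit 1) (.p (nat_lit 73) (nat_lit 1) (.n (nat_lit 79) (nat_lit 1) (.p (nat_lit 95) (nat_lit 1) (.n (nat_lit 96) (nat_lit 1) (.p (nat_lit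 97) (nat_lit 1) (.n (nat_lit 99) (nat_lit 1) (.p (nat_lit 108) (nat_lit 1) (.p (nat_lit 113) (nat_lit 1) (.p (nat_lit 115) (nat_lit 1) (.n (nat_lit 116) (nat_lit 1) (.p (nat_lit 118) (nat_lit 1) (.n (nat_lit 120) (nat_lit 1) (.n (nat_lit 122) (nat_lit 1) (.p (nat_lit 124) (nat_lit 2) (.n (nat_lit 126) (nat_lit 1) (.n (nat_lit 127) (nat_lit 1) (.p (nat_lit 133) (nat_lit 1) (.p (nat_lit 136) (nat_lit 1) (.n (nat_lit 137) (nat_lit 1) (.n (nat_lit 151) (nat_lit 1) (.p (nat_lit 153) (nat_lit 2) (.p (nat_lit 172) (nat_lit 1) (.n (nat_lit 173) (nat_lit 1) (.n (nat_lit 176) (nat_lit 1) .z)))))))))))))))))))))))))))))))))))))))))))))))))))))))))))) (.u (nat_lit 2) (.n (nat_lit 178) (nat_lit 1) (.p (nat_lit 181) (nat_lit 1) (.n (nat_lit 183) (nat_lit 1) (.p (nat_lit 184) (nat_lit 2) (.p (nat_lit 185) (nat_lit 1) (.n (nat_lit 186) (nat_lit 1) (.n (nat_lit 187) (nat_lit 1) (.p (nat_lit 188) (nat_lit 1) (.n (nat_lit 191) (nat_lit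 1) (.p (nat_lit 201) (nat_lit 1) (.n (nat_lit 210) (nat_lit 1) (.p (nat_lit 211) (nat_lit 1) (.n (nat_lit 212) (nat_lit 1) (.p (nat_lit 213) (nat_lit 2) (.n (nat_lit 214) (nat_lit 5) (.n (nat_lit 215) (nat_lit 5) (.p (nat_lit 216) (nat_lit 1) (.n (nat_lit 217) (nat_lit 3) (.n (nat_lit 220) (nat_lit 1) (.p (nat_lit 222) (nat_lit 1) (.p (nat_lit 223) (nat_lit 1) (.p (nat_lit 224) (nat_lit 4) (.n (nat_lit 225) (nat_lit 1) (.p (nat_lit 226) (nat_lit 2) (.n (nat_lit 227) (nat_lit 1) (.p (nat_lit 229) (nat_lit 3) (.n (nat_lit 230) (nat_lit 2) (.p (nat_lit 233) (nat_lit 5) (.n (nat_lit 235) (nat_lit 2) (.n (nat_lit 236) (nat_lit 1) (.n (nat_lit 237) (nat_lit 1) (.p (nat_lit 238) (nat_lit 1) (.n (nat_lit 240) (nat_lit 1) (.p (nat_lit 241) (nat_lit 1) (.n (nat_lit 242) (nat_lit 1) (.p (nat_lit 244) (nat_lit 2) (.n (nat_lit 245) (nat_lit 2) (.n (nat_lit 246) (nat_lit 1) (.p (nat_lit 247) (nat_lit 1) (.p (nat_lit 248) (nat_lit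 1) (.p (nat_lit 250) (nat_lit 1) (.p (nat_lit 251) (nat_lit 1) (.p (nat_lit 252) (nat_lit 1) (.n (nat_lit 256) (nat_lit 1) (.n (nat_lit 261) (nat_lit 1) (.n (nat_lit 262) (nat_lit 1) (.n (nat_lit 264) (nat_lit 1) (.n (nat_lit 277) (nat_lit 1) (.p (nat_lit 278) (nat_lit 1) (.p (nat_lit 279) (nat_lit 1) (.p (nat_lit 281) (nat_lit 1) (.n (nat_lit 288) (nat_lit 1) (.n (nat_lit 292) (nat_lit 3) (.n (nat_lit 293) (nat_lit 2) (.p (nat_lit 294) (nat_lit 3) (.n (nat_lit 296) (nat_lit 2) (.p (nat_lit 297) (nat_lit 1) (.p (nat_lit 299) (nat_lit 1) (.n (nat_lit 300) (nat_lit 2) (.n (nat_lit 301) (nat_lit 1) .z)))))))))))))))))))))))))))))))))))))))))))))))))))))))))))) (.u (nat_lit 2) (.p (nat_lit 302) (nat_lit 1) (.p (nat_lit 303) (nat_lit 13) (.p (nat_lit 304) (nat_lit 12) (.p (nat_lit 305) (nat_lit 7) (.p (nat_lit 306) (nat_lit 3) (.n (nat_lit 307) (nat_lit 2) (.n (nat_lit 308) (nat_lit 7) (.p (nat_lit 309) (nat_lit 11)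 (.p (nat_lit 310) (nat_lit 9) (.n (nat_lit 311) (nat_lit 12) (.p (nat_lit 312) (nat_lit 19) (.n (nat_lit 313) (nat_lit 6) (.n (nat_lit 314) (nat_lit 3) (.p (nat_lit 315) (nat_lit 16) (.n (nat_lit 316) (nat_lit 1) (.p (nat_lit 317) (nat_lit 2) (.n (nat_lit 318) (nat_lit 8) (.p (nat_lit 319) (nat_lit 7) (.p (nat_lit 320) (nat_lit 1) (.n (nat_lit 321) (nat_lit 2) (.n (nat_lit 322) (nat_lit 10) (.n (nat_lit 323) (nat_lit 13) (.n (nat_lit 324) (nat_lit 1) (.n (nat_lit 325) (nat_lit 25) (.p (nat_lit 326) (nat_lit 3) (.p (nat_lit 327) (nat_lit 8) (.p (nat_lit 328) (nat_lit 15) (.n (nat_lit 329) (nat_lit 20) (.n (nat_lit 330) (nat_lit 2) (.n (nat_lit 331) (nat_lit 4) (.p (nat_lit 334) (nat_lit 1) (.n (nat_lit 335) (nat_lit 3) (.n (nat_lit 337) (nat_lit 1) (.p (nat_lit 338) (nat_lit 1) (.n (nat_lit 339) (nat_lit 6) (.p (nat_lit 340) (nat_lit 2) (.n (nat_lit 341) (nat_lit 8) (.n (nat_lit 342) (nat_lit 17) (.p (nat_lit 343)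 (nat_lit 7) (.p (nat_lit 344) (nat_lit 14) (.n (nat_lit 345) (nat_lit 11) (.n (nat_lit 346) (nat_lit 1) (.n (nat_lit 347) (nat_lit 10) (.n (nat_lit 348) (nat_lit 2) (.n (nat_lit 349) (nat_lit 7) (.p (nat_lit 350) (nat_lit 20) (.p (nat_lit 351) (nat_lit 6) (.p (nat_lit 352) (nat_lit 4) (.n (nat_lit 353) (nat_lit 5) (.n (nat_lit 354) (nat_lit 2) (.n (nat_lit 355) (nat_lit 15) (.p (nat_lit 357) (nat_lit 5) (.n (nat_lit 358) (nat_lit 17) (.n (nat_lit 359) (nat_lit 10) (.p (nat_lit 360) (nat_lit 12) (.n (nat_lit 361) (nat_lit 7) (.p (nat_lit 362) (nat_lit 5) (.n (nat_lit 363) (nat_lit 2) (.p (nat_lit 364) (nat_lit 3) (.n (nat_lit 365) (nat_lit 3) .z)))))))))))))))))))))))))))))))))))))))))))))))))))))))))))) (.u (nat_lit 2) (.p (nat_lit 366) (nat_lit 10) (.p (nat_lit 367) (nat_lit 10) (.n (nat_lit 368) (nat_lit 12) (.p (nat_lit 369) (nat_lit 15) (.p (nat_lit 370) (nat_lit 1) (.p (nat_lit 371) (nat_lit 17) (.p (nat_lit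 372) (nat_lit 22) (.p (nat_lit 373) (nat_lit 8) (.n (nat_lit 375) (nat_lit 5) (.n (nat_lit 376) (nat_lit 1) (.n (nat_lit 377) (nat_lit 3) (.n (nat_lit 378) (nat_lit 3) (.n (nat_lit 379) (nat_lit 4) (.p (nat_lit 380) (nat_lit 4) (.n (nat_lit 381) (nat_lit 2) (.n (nat_lit 382) (nat_lit 4) (.p (nat_lit 383) (nat_lit 9) (.n (nat_lit 384) (nat_lit 3) (.n (nat_lit 385) (nat_lit 6) (.p (nat_lit 386) (nat_lit 8) (.n (nat_lit 387) (nat_lit 3) (.p (nat_lit 388) (nat_lit 3) (.n (nat_lit 389) (nat_lit 1) (.n (nat_lit 390) (nat_lit 10) (.p (nat_lit 391) (nat_lit 5) (.n (nat_lit 392) (nat_lit 11) (.n (nat_lit 393) (nat_lit 1) (.p (nat_lit 394) (nat_lit 4) (.p (nat_lit 395) (nat_lit 7) (.n (nat_lit 396) (nat_lit 3) (.n (nat_lit 397) (nat_lit 3) (.p (nat_lit 398) (nat_lit 9) (.n (nat_lit 399) (nat_lit 2) (.p (nat_lit 400) (nat_lit 11) (.n (nat_lit 401) (nat_lit 9) .z))))))))))))))))))))))))))))))))))) .nil)))))))))))))))))))))))))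

noncomputable def dC2d_i428 : IL := (.s false (nat_lit 3) (nat_lit 102) (nat_lit 0) (nat_lit 1) (nat_lit 1) true (nat_lit 15) true (nat_lit 17) false (nat_lit 10) true (nat_lit 18) true (nat_lit 17) (.s true (nat_lit 1) (nat_lit 103) (nat_lit 0) (nat_lit 1) (nat_lit 1) true (nat_lit 15) true (nat_lit 17) false (nat_lit 10) true (nat_lit 18) true (nat_lit 17) (.s true (nat_lit 3) (nat_lit 104) (nat_lit 0) (nat_lit 1) (nat_lit 1) true (nat_lit 15) true (nat_lit 17) false (nat_lit 10) true (nat_lit 18) true (nat_lit 17) (.s true (nat_lit 2) (nat_lit 101) (nat_lit 1) (nat_lit 1) (nat_lit 0) true (nat_lit 15) true (nat_lit 18) false (nat_lit 10) true (nat_lit 17) true (nat_lit 17) (.s true (nat_lit 3) (nat_lit 102) (nat_lit 1) (nat_lit 1) (nat_lit 0) true (nat_lit 15) true (nat_lit 18) false (nat_lit 10) true (nat_lit 17) true (nat_lit 17) (.s true (nat_lit 2) (nat_lit 103) (nat_lit 1) (nat_lit 1) (nat_lit 0) true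 (nat_lit 15) true (nat_lit 18) false (nat_lit 10) true (nat_lit 17) true (nat_lit 17) (.s false (nat_lit 2) (nat_lit 104) (nat_lit 1) (nat_lit 1) (nat_lit 0) true (nat_lit 15) true (nat_lit 18) false (nat_lit 10) true (nat_lit 17) true (nat_lit 17) (.e true (nat_lit 1) (nat_lit 258) (nat_lit 1) (nat_lit 17) (.e false (nat_lit 3) (nat_lit 265) (nat_lit 1) (nat_lit 17) (.e false (nat_lit 3) (nat_lit 267) (nat_lit 1) (nat_lit 17) (.e false (nat_lit 3) (nat_lit 269) (nat_lit 1) (nat_lit 17) (.e false (nat_lit 2) (nat_lit 270) (nat_lit 1) (nat_lit 17) (.e true (nat_lit 2) (nat_lit 272) (nat_lit 1) (nat_lit 17) (.e false (nat_lit 1) (nat_lit 277) (nat_lit 1) (nat_lit 17) (.e true (nat_lit 2) (nat_lit 255) (nat_lit 1) (nat_lit 17) (.e false (nat_lit 1) (nat_lit 264) (nat_lit 1) (nat_lit 17) (.e false (nat_lit 3) (nat_lit 266) (nat_lit 1) (nat_lit 17) (.e false (nat_lit 1) (nat_lit 205) (nat_lit 2) (nat_lit 16) (.e false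 (nat_lit 1) (nat_lit 208) (nat_lit 2) (nat_lit 16) (.e true (nat_lit 1) (nat_lit 227) (nat_lit 2) (nat_lit 16) (.e false (nat_lit 3) (nat_lit 207) (nat_lit 2) (nat_lit 16) (.e false (nat_lit 1) (nat_lit 230) (nat_lit 2) (nat_lit 16) (.e true (nat_lit 2) (nat_lit 298) (nat_lit 0) (nat_lit 18) (.e false (nat_lit 2) (nat_lit 209) (nat_lit 2) (nat_lit 16) (.e true (nat_lit 2) (nat_lit 274) (nat_lit 1) (nat_lit 17) dC2d_i427)))))))))))))))))))))))))

noncomputable def dC2d_i429 : IL := (.s true (nat_lit 2) (nat_lit 77) (nat_lit 2) (nat_lit 0) (nat_lit 2) true (nat_lit 11) true (nat_lit 16) false (nat_lit 6) true (nat_lit 16) true (nat_lit 18) (.s true (nat_lit 3) (nat_lit 78) (nat_lit 2) (nat_lit 0) (nat_lit 2) true (nat_lit 11) true (nat_lit 16) false (nat_lit 6) true (nat_lit 16) true (nat_lit 18) (.s true (nat_lit 3) (nat_lit 74) (nat_lit 2) (nat_lit 2) (nat_lit 0) true (nat_lit 13) true (nat_lit 18) false (nat_lit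 6) true (nat_lit 16) true (nat_lit 16) (.s true (nat_lit 1) (nat_lit 80) (nat_lit 1) (nat_lit 1) (nat_lit 2) true (nat_lit 12) true (nat_lit 16) false (nat_lit 7) true (nat_lit 17) true (nat_lit 17) (.s false (nat_lit 3) (nat_lit 83) (nat_lit 1) (nat_lit 1) (nat_lit 2) true (nat_lit 12) true (nat_lit 16) false (nat_lit 7) true (nat_lit 17) true (nat_lit 17) (.s false (nat_lit 1) (nat_lit 88) (nat_lit 1) (nat_lit 1) (nat_lit 2) true (nat_lit 12) true (nat_lit 16) false (nat_lit 7) true (nat_lit 17) true (nat_lit 17) (.s false (nat_lit 3) (nat_lit 81) (nat_lit 1) (nat_lit 2) (nat_lit 1) true (nat_lit 14) true (nat_lit 17) false (nat_lit 7) true (nat_lit 17) true (nat_lit 16) (.s false (nat_lit 3) (nat_lit 83) (nat_lit 1) (nat_lit 2) (nat_lit 1) true (nat_lit 14) true (nat_lit 17) false (nat_lit 7) true (nat_lit 17) true (nat_lit 16) (.s false (nat_lit 1) (nat_lit 86) (nat_lit 1) (nat_lit 2) (nat_lit 1) true (nat_lit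 14) true (nat_lit 17) false (nat_lit 7) true (nat_lit 17) true (nat_lit 16) (.s false (nat_lit 2) (nat_lit 88) (nat_lit 1) (nat_lit 2) (nat_lit 1) true (nat_lit 14) true (nat_lit 17) false (nat_lit 7) true (nat_lit 17) true (nat_lit 16) (.s true (nat_lit 3) (nat_lit 80) (nat_lit 2) (nat_lit 1) (nat_lit 1) true (nat_lit 12) true (nat_lit 17) false (nat_lit 7) true (nat_lit 16) true (nat_lit 17) (.s false (nat_lit 1) (nat_lit 83) (nat_lit 2) (nat_lit 1) (nat_lit 1) true (nat_lit 12) true (nat_lit 17) false (nat_lit 7) true (nat_lit 16) true (nat_lit 17) (.s true (nat_lit 3) (nat_lit 88) (nat_lit 2) (nat_lit 1) (nat_lit 1) true (nat_lit 12) true (nat_lit 17) false (nat_lit 7) true (nat_lit 16) true (nat_lit 17) (.s true (nat_lit 1) (nat_lit 89) (nat_lit 2) (nat_lit 1) (nat_lit 1) true (nat_lit 12) true (nat_lit 17) false (nat_lit 7) true (nat_lit 16) true (nat_lit 17) (.s true (nat_lit 1) (nat_lit 92) (nat_lit 0)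 (nat_lit 1) (nat_lit 2) true (nat_lit 13) true (nat_lit 16) false (nat_lit 8) true (nat_lit 18) true (nat_lit 17) (.s false (nat_lit 1) (nat_lit 94) (nat_lit 0) (nat_lit 1) (nat_lit 2) true (nat_lit 13) true (nat_lit 16) false (nat_lit 8) true (nat_lit 18) true (nat_lit 17) (.s false (nat_lit 2) (nat_lit 92) (nat_lit 1) (nat_lit 0) (nat_lit 2) true (nat_lit 12) true (nat_lit 16) false (nat_lit 8) true (nat_lit 17) true (nat_lit 18) (.s true (nat_lit 1) (nat_lit 92) (nat_lit 1) (nat_lit 2) (nat_lit 0) true (nat_lit 15) true (nat_lit 18) false (nat_lit 8) true (nat_lit 17) true (nat_lit 16) (.s false (nat_lit 2) (nat_lit 93) (nat_lit 1) (nat_lit 2) (nat_lit 0) true (nat_lit 15) true (nat_lit 18) false (nat_lit 8) true (nat_lit 17) true (nat_lit 16) (.s true (nat_lit 2) (nat_lit 94) (nat_lit 1) (nat_lit 2) (nat_lit 0) true (nat_lit 15) true (nat_lit 18) false (nat_lit 8) true (nat_lit 17) true (nat_lit 16) (.s true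 (nat_lit 2) (nat_lit 95) (nat_lit 1) (nat_lit 2) (nat_lit 0) true (nat_lit 15) true (nat_lit 18) false (nat_lit 8) true (nat_lit 17) true (nat_lit 16) (.s false (nat_lit 1) (nat_lit 92) (nat_lit 2) (nat_lit 1) (nat_lit 0) true (nat_lit 13) true (nat_lit 18) false (nat_lit 8) true (nat_lit 16) true (nat_lit 17) (.s true (nat_lit 2) (nat_lit 93) (nat_lit 2) (nat_lit 1) (nat_lit 0) true (nat_lit 13) true (nat_lit 18) false (nat_lit 8) true (nat_lit 16) true (nat_lit 17) (.s false (nat_lit 1) (nat_lit 94) (nat_lit 2) (nat_lit 1) (nat_lit 0) true (nat_lit 13) true (nat_lit 18) false (nat_lit 8) true (nat_lit 16) true (nat_lit 17) (.s true (nat_lit 1) (nat_lit 97) (nat_lit 1) (nat_lit 1) (nat_lit 1) true (nat_lit 14) true (nat_lit 17) false (nat_lit 9) true (nat_lit 17) true (nat_lit 17) dC2d_i428)))))))))))))))))))))))))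

noncomputable def dC2d_i430 : IL := (.s false (nat_lit 3) (nat_lit 68) (nat_lit 1) (nat_lit 2) (nat_lit 2) true (nat_lit 12) true (nat_lit 16) false (nat_lit 5) true (nat_lit 17) true (nat_lit 16) (.s true (nat_lit 2) (nat_lit 69) (nat_lit 1) (nat_lit 2) (nat_lit 2) true (nat_lit 12) true (nat_lit 16) false (nat_lit 5) true (nat_lit 17) true (nat_lit 16) (.s false (nat_lit 1) (nat_lit 71) (nat_lit 1) (nat_lit 2) (nat_lit 2) true (nat_lit 12) true (nat_lit 16) false (nat_lit 5) true (nat_lit 17) true (nat_lit 16) (.s true (nat_lit 2) (nat_lit 72) (nat_lit 1) (nat_lit 2) (nat_lit 2) true (nat_lit 12) true (nat_lit 16) false (nat_lit 5) true (nat_lit 17) true (nat_lit 16) (.s true (nat_lit 3) (nat_lit 73) (nat_lit 1) (nat_lit 2) (nat_lit 2) true (nat_lit 12) true (nat_lit 16) false (nat_lit 5) true (nat_lit 17) true (nat_lit 16) (.s false (nat_lit 2) (nat_lit 62) (nat_lit 2) (nat_lit 1) (nat_lit 2) true (nat_lit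 11) true (nat_lit 16) false (nat_lit 5) true (nat_lit 16) true (nat_lit 17) (.s false (nat_lit 1) (nat_lit 63) (nat_lit 2) (nat_lit 1) (nat_lit 2) true (nat_lit 11) true (nat_lit 16) false (nat_lit 5) true (nat_lit 16) true (nat_lit 17) (.s false (nat_lit 3) (nat_lit 65) (nat_lit 2) (nat_lit 1) (nat_lit 2) true (nat_lit 11) true (nat_lit 16) false (nat_lit 5) true (nat_lit 16) true (nat_lit 17) (.s false (nat_lit 2) (nat_lit 66) (nat_lit 2) (nat_lit 1) (nat_lit 2) true (nat_lit 11) true (nat_lit 16) false (nat_lit 5) true (nat_lit 16) true (nat_lit 17) (.s false (nat_lit 3) (nat_lit 69) (nat_lit 2) (nat_lit 1) (nat_lit 2) true (nat_lit 11) true (nat_lit 16) false (nat_lit 5) true (nat_lit 16) true (nat_lit 17) (.s false (nat_lit 3) (nat_lit 71) (nat_lit 2) (nat_lit 1) (nat_lit 2) true (nat_lit 11) true (nat_lit 16) false (nat_lit 5) true (nat_lit 16) true (nat_lit 17) (.s true (nat_lit 1) (nat_lit 73) (nat_lit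 2) (nat_lit 1) (nat_lit 2) true (nat_lit 11) true (nat_lit 16) false (nat_lit 5) true (nat_lit 16) true (nat_lit 17) (.s true (nat_lit 2) (nat_lit 60) (nat_lit 2) (nat_lit 2) (nat_lit 1) true (nat_lit 12) true (nat_lit 17) false (nat_lit 5) true (nat_lit 16) true (nat_lit 16) (.s true (nat_lit 2) (nat_lit 61) (nat_lit 2) (nat_lit 2) (nat_lit 1) true (nat_lit 12) true (nat_lit 17) false (nat_lit 5) true (nat_lit 16) true (nat_lit 16) (.s false (nat_lit 2) (nat_lit 62) (nat_lit 2) (nat_lit 2) (nat_lit 1) true (nat_lit 12) true (nat_lit 17) false (nat_lit 5) true (nat_lit 16) true (nat_lit 16) (.s false (nat_lit 1) (nat_lit 63) (nat_lit 2) (nat_lit 2) (nat_lit 1) true (nat_lit 12) true (nat_lit 17) false (nat_lit 5) true (nat_lit 16) true (nat_lit 16) (.s false (nat_lit 1) (nat_lit 65) (nat_lit 2) (nat_lit 2) (nat_lit 1) true (nat_lit 12) true (nat_lit 17) false (nat_lit 5) true (nat_lit 16) true (nat_lit 16) (.s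 false (nat_lit 3) (nat_lit 66) (nat_lit 2) (nat_lit 2) (nat_lit 1) true (nat_lit 12) true (nat_lit 17) false (nat_lit 5) true (nat_lit 16) true (nat_lit 16) (.s false (nat_lit 2) (nat_lit 69) (nat_lit 2) (nat_lit 2) (nat_lit 1) true (nat_lit 12) true (nat_lit 17) false (nat_lit 5) true (nat_lit 16) true (nat_lit 16) (.s false (nat_lit 1) (nat_lit 70) (nat_lit 2) (nat_lit 2) (nat_lit 1) true (nat_lit 12) true (nat_lit 17) false (nat_lit 5) true (nat_lit 16) true (nat_lit 16) (.s true (nat_lit 1) (nat_lit 71) (nat_lit 2) (nat_lit 2) (nat_lit 1) true (nat_lit 12) true (nat_lit 17) false (nat_lit 5) true (nat_lit 16) true (nat_lit 16) (.s false (nat_lit 2) (nat_lit 73) (nat_lit 2) (nat_lit 2) (nat_lit 1) true (nat_lit 12) true (nat_lit 17) false (nat_lit 5) true (nat_lit 16) true (nat_lit 16) (.s true (nat_lit 2) (nat_lit 76) (nat_lit 0) (nat_lit 2) (nat_lit 2) true (nat_lit 13) true (nat_lit 16) false (nat_lit 6)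 true (nat_lit 18) true (nat_lit 16) (.s false (nat_lit 2) (nat_lit 78) (nat_lit 0) (nat_lit 2) (nat_lit 2) true (nat_lit 13) true (nat_lit 16) false (nat_lit 6) true (nat_lit 18) true (nat_lit 16) (.s true (nat_lit 1) (nat_lit 74) (nat_lit 2) (nat_lit 0) (nat_lit 2) true (nat_lit 11) true (nat_lit 16) false (nat_lit 6) true (nat_lit 16) true (nat_lit 18) dC2d_i429)))))))))))))))))))))))))

noncomputable def dC2d_i431 : IL := (.s false (nat_lit 3) (nat_lit 41) (nat_lit 3) (nat_lit 2) (nat_lit 2) true (nat_lit 8) true (nat_lit 16) false (nat_lit 0) true (nat_lit 15) true (nat_lit 16) (.s true (nat_lit 2) (nat_lit 41) (nat_lit 5) (nat_lit 2) (nat_lit 1) true (nat_lit 8) true (nat_lit 17) false (nat_lit 0) true (nat_lit 13) true (nat_lit 16) (.s false (nat_lit 1) (nat_lit 40) (nat_lit 7) (nat_lit 0) (nat_lit 1) true (nat_lit 5) true (nat_lit 17) false (nat_lit 0) true (nat_lit 11) true (nat_lit 18) (.s true (nat_lit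 1) (nat_lit 42) (nat_lit 1) (nat_lit 2) (nat_lit 4) true (nat_lit 9) true (nat_lit 14) false (nat_lit 1) true (nat_lit 17) true (nat_lit 16) (.s false (nat_lit 1) (nat_lit 42) (nat_lit 2) (nat_lit 1) (nat_lit 4) true (nat_lit 7) true (nat_lit 14) false (nat_lit 1) true (nat_lit 16) true (nat_lit 17) (.s true (nat_lit 2) (nat_lit 46) (nat_lit 1) (nat_lit 0) (nat_lit 6) true (nat_lit 7) true (nat_lit 12) false (nat_lit 2) true (nat_lit 17) true (nat_lit 18) (.s false (nat_lit 1) (nat_lit 47) (nat_lit 1) (nat_lit 3) (nat_lit 2) true (nat_lit 12) true (nat_lit 16) false (nat_lit 2) true (nat_lit 17) true (nat_lit 15) (.s true (nat_lit 1) (nat_lit 46) (nat_lit 2) (nat_lit 3) (nat_lit 1) true (nat_lit 12) true (nat_lit 17) false (nat_lit 2) true (nat_lit 16) true (nat_lit 15) (.s true (nat_lit 1) (nat_lit 47) (nat_lit 2) (nat_lit 3) (nat_lit 1) true (nat_lit 12) true (nat_lit 17) false (nat_lit 2) true (nat_lit 16)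 true (nat_lit 15) (.s false (nat_lit 1) (nat_lit 45) (nat_lit 6) (nat_lit 1) (nat_lit 0) true (nat_lit 8) true (nat_lit 18) false (nat_lit 2) true (nat_lit 12) true (nat_lit 17) (.s false (nat_lit 2) (nat_lit 46) (nat_lit 6) (nat_lit 1) (nat_lit 0) true (nat_lit 8) true (nat_lit 18) false (nat_lit 2) true (nat_lit 12) true (nat_lit 17) (.s false (nat_lit 2) (nat_lit 48) (nat_lit 1) (nat_lit 1) (nat_lit 3) true (nat_lit 10) true (nat_lit 15) false (nat_lit 3) true (nat_lit 17) true (nat_lit 17) (.s true (nat_lit 2) (nat_lit 48) (nat_lit 1) (nat_lit 3) (nat_lit 1) true (nat_lit 14) true (nat_lit 17) false (nat_lit 3) true (nat_lit 17) true (nat_lit 15) (.s true (nat_lit 1) (nat_lit 48) (nat_lit 3) (nat_lit 1) (nat_lit 1) true (nat_lit 10) true (nat_lit 17) false (nat_lit 3) true (nat_lit 15) true (nat_lit 17) (.s true (nat_lit 2) (nat_lit 48) (nat_lit 4) (nat_lit 0) (nat_lit 1) true (nat_lit 9) true (nat_lit 17)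 false (nat_lit 3) true (nat_lit 14) true (nat_lit 18) (.s false (nat_lit 2) (nat_lit 48) (nat_lit 4) (nat_lit 1) (nat_lit 0) true (nat_lit 10) true (nat_lit 18) false (nat_lit 3) true (nat_lit 14) true (nat_lit 17) (.s false (nat_lit 2) (nat_lit 53) (nat_lit 2) (nat_lit 2) (nat_lit 2) true (nat_lit 11) true (nat_lit 16) false (nat_lit 4) true (nat_lit 16) true (nat_lit 16) (.s true (nat_lit 3) (nat_lit 54) (nat_lit 2) (nat_lit 2) (nat_lit 2) true (nat_lit 11) true (nat_lit 16) false (nat_lit 4) true (nat_lit 16) true (nat_lit 16) (.s false (nat_lit 2) (nat_lit 55) (nat_lit 2) (nat_lit 2) (nat_lit 2) true (nat_lit 11) true (nat_lit 16) false (nat_lit 4) true (nat_lit 16) true (nat_lit 16) (.s false (nat_lit 1) (nat_lit 59) (nat_lit 2) (nat_lit 2) (nat_lit 2) true (nat_lit 11) true (nat_lit 16) false (nat_lit 4) true (nat_lit 16) true (nat_lit 16) (.s true (nat_lit 1) (nat_lit 60) (nat_lit 1) (nat_lit 2) (nat_lit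 2) true (nat_lit 12) true (nat_lit 16) false (nat_lit 5) true (nat_lit 17) true (nat_lit 16) (.s false (nat_lit 3) (nat_lit 61) (nat_lit 1) (nat_lit 2) (nat_lit 2) true (nat_lit 12) true (nat_lit 16) false (nat_lit 5) true (nat_lit 17) true (nat_lit 16) (.s true (nat_lit 3) (nat_lit 62) (nat_lit 1) (nat_lit 2) (nat_lit 2) true (nat_lit 12) true (nat_lit 16) false (nat_lit 5) true (nat_lit 17) true (nat_lit 16) (.s true (nat_lit 1) (nat_lit 66) (nat_lit 1) (nat_lit 2) (nat_lit 2) true (nat_lit 12) true (nat_lit 16) false (nat_lit 5) true (nat_lit 17) true (nat_lit 16) (.s true (nat_lit 1) (nat_lit 67) (nat_lit 1) (nat_lit 2) (nat_lit 2) true (nat_lit 12) true (nat_lit 16) false (nat_lit 5) true (nat_lit 17) true (nat_lit 16) dC2d_i430)))))))))))))))))))))))))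

noncomputable def dC2d_i432 : IL := (.s true (nat_lit 2) (nat_lit 26) (nat_lit 2) (nat_lit 2) (nat_lit 6) true (nat_lit 5) true (nat_lit 12) true (nat_lit 2) true (nat_lit 16) true (nat_lit 16) (.s true (nat_lit 3) (nat_lit 27) (nat_lit 2) (nat_lit 2) (nat_lit 6) true (nat_lit 5) true (nat_lit 12) true (nat_lit 2) true (nat_lit 16) true (nat_lit 16) (.s true (nat_lit 1) (nat_lit 29) (nat_lit 2) (nat_lit 2) (nat_lit 6) true (nat_lit 5) true (nat_lit 12) true (nat_lit 2) true (nat_lit 16) true (nat_lit 16) (.s false (nat_lit 3) (nat_lit 26) (nat_lit 6) (nat_lit 2) (nat_lit 2) true (nat_lit 5) true (nat_lit 16) true (nat_lit 2) true (nat_lit 12) true (nat_lit 16) (.s true (nat_lit 3) (nat_lit 27) (nat_lit 6) (nat_lit 2) (nat_lit 2) true (nat_lit 5) true (nat_lit 16) true (nat_lit 2) true (nat_lit 12) true (nat_lit 16) (.s true (nat_lit 1) (nat_lit 29) (nat_lit 6) (nat_lit 2) (nat_lit 2) true (nat_lit 5) true (nat_lit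 16) true (nat_lit 2) true (nat_lit 12) true (nat_lit 16) (.s true (nat_lit 3) (nat_lit 30) (nat_lit 0) (nat_lit 2) (nat_lit 7) true (nat_lit 6) true (nat_lit 11) true (nat_lit 1) true (nat_lit 18) true (nat_lit 16) (.s false (nat_lit 3) (nat_lit 30) (nat_lit 2) (nat_lit 2) (nat_lit 5) true (nat_lit 6) true (nat_lit 13) true (nat_lit 1) true (nat_lit 16) true (nat_lit 16) (.s false (nat_lit 3) (nat_lit 30) (nat_lit 2) (nat_lit 7) (nat_lit 0) true (nat_lit 13) true (nat_lit 18) true (nat_lit 1) true (nat_lit 16) true (nat_lit 11) (.s true (nat_lit 2) (nat_lit 30) (nat_lit 5) (nat_lit 2) (nat_lit 2) true (nat_lit 6) true (nat_lit 16) true (nat_lit 1) true (nat_lit 13) true (nat_lit 16) (.s false (nat_lit 1) (nat_lit 33) (nat_lit 1) (nat_lit 1) (nat_lit 7) true (nat_lit 5) true (nat_lit 11) true (nat_lit 0) true (nat_lit 17) true (nat_lit 17) (.s true (nat_lit 2) (nat_lit 38) (nat_lit 1) (nat_lit 1) (nat_lit 7) true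 (nat_lit 5) true (nat_lit 11) true (nat_lit 0) true (nat_lit 17) true (nat_lit 17) (.s true (nat_lit 2) (nat_lit 35) (nat_lit 1) (nat_lit 2) (nat_lit 6) true (nat_lit 7) true (nat_lit 12) true (nat_lit 0) true (nat_lit 17) true (nat_lit 16) (.s false (nat_lit 1) (nat_lit 37) (nat_lit 1) (nat_lit 2) (nat_lit 6) true (nat_lit 7) true (nat_lit 12) true (nat_lit 0) true (nat_lit 17) true (nat_lit 16) (.s true (nat_lit 3) (nat_lit 38) (nat_lit 1) (nat_lit 2) (nat_lit 6) true (nat_lit 7) true (nat_lit 12) true (nat_lit 0) true (nat_lit 17) true (nat_lit 16) (.s true (nat_lit 1) (nat_lit 38) (nat_lit 1) (nat_lit 6) (nat_lit 2) true (nat_lit 12) true (nat_lit 16) true (nat_lit 0) true (nat_lit 17) true (nat_lit 12) (.s true (nat_lit 1) (nat_lit 33) (nat_lit 1) (nat_lit 7) (nat_lit 1) true (nat_lit 14) true (nat_lit 17) true (nat_lit 0) true (nat_lit 17) true (nat_lit 11) (.s true (nat_lit 2) (nat_lit 33) (nat_lit 2) (nat_lit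 1) (nat_lit 6) true (nat_lit 5) true (nat_lit 12) true (nat_lit 0) true (nat_lit 16) true (nat_lit 17) (.s false (nat_lit 3) (nat_lit 34) (nat_lit 2) (nat_lit 1) (nat_lit 6) true (nat_lit 5) true (nat_lit 12) true (nat_lit 0) true (nat_lit 16) true (nat_lit 17) (.s true (nat_lit 3) (nat_lit 36) (nat_lit 2) (nat_lit 2) (nat_lit 4) true (nat_lit 7) true (nat_lit 14) true (nat_lit 0) true (nat_lit 16) true (nat_lit 16) (.s false (nat_lit 1) (nat_lit 33) (nat_lit 4) (nat_lit 2) (nat_lit 2) true (nat_lit 7) true (nat_lit 16) true (nat_lit 0) true (nat_lit 14) true (nat_lit 16) (.s false (nat_lit 1) (nat_lit 40) (nat_lit 0) (nat_lit 7) (nat_lit 1) true (nat_lit 15) true (nat_lit 17) false (nat_lit 0) true (nat_lit 18) true (nat_lit 11) (.s true (nat_lit 3) (nat_lit 40) (nat_lit 2) (nat_lit 3) (nat_lit 2) true (nat_lit 11) true (nat_lit 16) false (nat_lit 0) true (nat_lit 16) true (nat_lit 15) (.s false (nat_lit 2) (nat_lit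 41) (nat_lit 2) (nat_lit 6) (nat_lit 0) true (nat_lit 13) true (nat_lit 18) false (nat_lit 0) true (nat_lit 16) true (nat_lit 12) (.s false (nat_lit 2) (nat_lit 40) (nat_lit 3) (nat_lit 2) (nat_lit 2) true (nat_lit 8) true (nat_lit 16) false (nat_lit 0) true (nat_lit 15) true (nat_lit 16) dC2d_i431)))))))))))))))))))))))))

noncomputable def dC2d_i433 : IL := (.s false (nat_lit 2) (nat_lit 20) (nat_lit 2) (nat_lit 1) (nat_lit 8) true (nat_lit 2) true (nat_lit 10) true (nat_lit 4) true (nat_lit 16) true (nat_lit 17) (.s true (nat_lit 2) (nat_lit 20) (nat_lit 2) (nat_lit 9) (nat_lit 1) true (nat_lit 12) true (nat_lit 17) true (nat_lit 4) true (nat_lit 16) true (nat_lit 10) (.s true (nat_lit 1) (nat_lit 20) (nat_lit 3) (nat_lit 4) (nat_lit 2) true (nat_lit 8) true (nat_lit 16) true (nat_lit 4) true (nat_lit 15) true (nat_lit 14) (.s false (nat_lit 2) (nat_lit 20) (nat_lit 6) (nat_lit 1) (nat_lit 3) true (nat_lit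 2) true (nat_lit 15) true (nat_lit 4) true (nat_lit 12) true (nat_lit 17) (.s true (nat_lit 3) (nat_lit 20) (nat_lit 9) (nat_lit 2) (nat_lit 1) true (nat_lit 3) true (nat_lit 17) true (nat_lit 4) true (nat_lit 10) true (nat_lit 16) (.s false (nat_lit 1) (nat_lit 20) (nat_lit 11) (nat_lit 1) (nat_lit 1) true (nat_lit 2) true (nat_lit 17) true (nat_lit 4) true (nat_lit 8) true (nat_lit 17) (.s false (nat_lit 1) (nat_lit 20) (nat_lit 15) (nat_lit 0) (nat_lit 1) true (nat_lit 1) true (nat_lit 17) true (nat_lit 4) true (nat_lit 7) true (nat_lit 18) (.s true (nat_lit 1) (nat_lit 21) (nat_lit 2) (nat_lit 2) (nat_lit 7) true (nat_lit 4) true (nat_lit 11) true (nat_lit 3) true (nat_lit 16) true (nat_lit 16) (.s false (nat_lit 2) (nat_lit 22) (nat_lit 2) (nat_lit 2) (nat_lit 7) true (nat_lit 4) true (nat_lit 11) true (nat_lit 3) true (nat_lit 16) true (nat_lit 16) (.s true (nat_lit 3) (nat_lit 23) (nat_lit 2) (nat_lit 2)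 (nat_lit 7) true (nat_lit 4) true (nat_lit 11) true (nat_lit 3) true (nat_lit 16) true (nat_lit 16) (.s false (nat_lit 1) (nat_lit 21) (nat_lit 2) (nat_lit 7) (nat_lit 2) true (nat_lit 11) true (nat_lit 16) true (nat_lit 3) true (nat_lit 16) true (nat_lit 11) (.s true (nat_lit 2) (nat_lit 21) (nat_lit 7) (nat_lit 2) (nat_lit 2) true (nat_lit 4) true (nat_lit 16) true (nat_lit 3) true (nat_lit 11) true (nat_lit 16) (.s false (nat_lit 2) (nat_lit 24) (nat_lit 1) (nat_lit 2) (nat_lit 7) true (nat_lit 5) true (nat_lit 11) true (nat_lit 2) true (nat_lit 17) true (nat_lit 16) (.s true (nat_lit 3) (nat_lit 25) (nat_lit 1) (nat_lit 2) (nat_lit 7) true (nat_lit 5) true (nat_lit 11) true (nat_lit 2) true (nat_lit 17) true (nat_lit 16) (.s false (nat_lit 3) (nat_lit 26) (nat_lit 1) (nat_lit 2) (nat_lit 7) true (nat_lit 5) true (nat_lit 11) true (nat_lit 2) true (nat_lit 17) true (nat_lit 16) (.s true (nat_lit 1) (nat_lit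 27) (nat_lit 1) (nat_lit 2) (nat_lit 7) true (nat_lit 5) true (nat_lit 11) true (nat_lit 2) true (nat_lit 17) true (nat_lit 16) (.s true (nat_lit 1) (nat_lit 29) (nat_lit 1) (nat_lit 2) (nat_lit 7) true (nat_lit 5) true (nat_lit 11) true (nat_lit 2) true (nat_lit 17) true (nat_lit 16) (.s false (nat_lit 2) (nat_lit 25) (nat_lit 1) (nat_lit 7) (nat_lit 2) true (nat_lit 12) true (nat_lit 16) true (nat_lit 2) true (nat_lit 17) true (nat_lit 11) (.s false (nat_lit 3) (nat_lit 26) (nat_lit 1) (nat_lit 7) (nat_lit 2) true (nat_lit 12) true (nat_lit 16) true (nat_lit 2) true (nat_lit 17) true (nat_lit 11) (.s false (nat_lit 3) (nat_lit 27) (nat_lit 1) (nat_lit 7) (nat_lit 2) true (nat_lit 12) true (nat_lit 16) true (nat_lit 2) true (nat_lit 17) true (nat_lit 11) (.s false (nat_lit 2) (nat_lit 29) (nat_lit 1) (nat_lit 7) (nat_lit 2) true (nat_lit 12) true (nat_lit 16) true (nat_lit 2) true (nat_lit 17) true (nat_lit 11)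 (.s true (nat_lit 2) (nat_lit 25) (nat_lit 2) (nat_lit 1) (nat_lit 7) true (nat_lit 4) true (nat_lit 11) true (nat_lit 2) true (nat_lit 16) true (nat_lit 17) (.s true (nat_lit 2) (nat_lit 29) (nat_lit 2) (nat_lit 1) (nat_lit 7) true (nat_lit 4) true (nat_lit 11) true (nat_lit 2) true (nat_lit 16) true (nat_lit 17) (.s true (nat_lit 1) (nat_lit 24) (nat_lit 2) (nat_lit 2) (nat_lit 6) true (nat_lit 5) true (nat_lit 12) true (nat_lit 2) true (nat_lit 16) true (nat_lit 16) (.s true (nat_lit 3) (nat_lit 25) (nat_lit 2) (nat_lit 2) (nat_lit 6) true (nat_lit 5) true (nat_lit 12) true (nat_lit 2) true (nat_lit 16) true (nat_lit 16) dC2d_i432)))))))))))))))))))))))))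

noncomputable def dC2d_i434 : IL := (.s false (nat_lit 1) (nat_lit 18) (nat_lit 0) (nat_lit 2) (nat_lit 15) true (nat_lit 2) true (nat_lit 7) true (nat_lit 5) true (nat_lit 18) true (nat_lit 16) (.s true (nat_lit 3) (nat_lit 18) (nat_lit 1) (nat_lit 0) (nat_lit 18) false (nat_lit 0) true (nat_lit 5) true (nat_lit 5) true (nat_lit 17) true (nat_lit 18) (.s false (nat_lit 1) (nat_lit 19) (nat_lit 1) (nat_lit 1) (nat_lit 16) true (nat_lit 0) true (nat_lit 6) true (nat_lit 5) true (nat_lit 17) true (nat_lit 17) (.s true (nat_lit 1) (nat_lit 18) (nat_lit 1) (nat_lit 2) (nat_lit 11) true (nat_lit 2) true (nat_lit 8) true (nat_lit 5) true (nat_lit 17) true (nat_lit 16) (.s true (nat_lit 3) (nat_lit 18) (nat_lit 1) (nat_lit 2) (nat_lit 12) true (nat_lit 2) true (nat_lit 8) true (nat_lit 5) true (nat_lit 17) true (nat_lit 16) (.s true (nat_lit 2) (nat_lit 19) (nat_lit 1) (nat_lit 3) (nat_lit 7) true (nat_lit 5) true (nat_lit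 11) true (nat_lit 5) true (nat_lit 17) true (nat_lit 15) (.s true (nat_lit 2) (nat_lit 18) (nat_lit 2) (nat_lit 0) (nat_lit 15) false (nat_lit 0) true (nat_lit 7) true (nat_lit 5) true (nat_lit 16) true (nat_lit 18) (.s true (nat_lit 3) (nat_lit 19) (nat_lit 2) (nat_lit 2) (nat_lit 8) true (nat_lit 2) true (nat_lit 10) true (nat_lit 5) true (nat_lit 16) true (nat_lit 16) (.s true (nat_lit 1) (nat_lit 19) (nat_lit 2) (nat_lit 2) (nat_lit 9) true (nat_lit 2) true (nat_lit 10) true (nat_lit 5) true (nat_lit 16) true (nat_lit 16) (.s true (nat_lit 2) (nat_lit 18) (nat_lit 2) (nat_lit 9) (nat_lit 2) true (nat_lit 11) true (nat_lit 16) true (nat_lit 5) true (nat_lit 16) true (nat_lit 10) (.s true (nat_lit 2) (nat_lit 18) (nat_lit 2) (nat_lit 11) (nat_lit 1) true (nat_lit 12) true (nat_lit 17) true (nat_lit 5) true (nat_lit 16) true (nat_lit 8) (.s true (nat_lit 2) (nat_lit 18) (nat_lit 2) (nat_lit 12) (nat_lit 1) true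 (nat_lit 12) true (nat_lit 17) true (nat_lit 5) true (nat_lit 16) true (nat_lit 8) (.s true (nat_lit 2) (nat_lit 18) (nat_lit 3) (nat_lit 6) (nat_lit 2) true (nat_lit 8) true (nat_lit 16) true (nat_lit 5) true (nat_lit 15) true (nat_lit 12) (.s true (nat_lit 2) (nat_lit 18) (nat_lit 3) (nat_lit 7) (nat_lit 1) true (nat_lit 10) true (nat_lit 17) true (nat_lit 5) true (nat_lit 15) true (nat_lit 11) (.s false (nat_lit 3) (nat_lit 19) (nat_lit 9) (nat_lit 2) (nat_lit 2) true (nat_lit 2) true (nat_lit 16) true (nat_lit 5) true (nat_lit 10) true (nat_lit 16) (.s true (nat_lit 3) (nat_lit 18) (nat_lit 11) (nat_lit 2) (nat_lit 1) true (nat_lit 2) true (nat_lit 17) true (nat_lit 5) true (nat_lit 8) true (nat_lit 16) (.s false (nat_lit 2) (nat_lit 19) (nat_lit 11) (nat_lit 2) (nat_lit 1) true (nat_lit 2) true (nat_lit 17) true (nat_lit 5) true (nat_lit 8) true (nat_lit 16) (.s true (nat_lit 3) (nat_lit 18) (nat_lit 15)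 (nat_lit 0) (nat_lit 2) false (nat_lit 0) true (nat_lit 16) true (nat_lit 5) true (nat_lit 7) true (nat_lit 18) (.s false (nat_lit 1) (nat_lit 18) (nat_lit 15) (nat_lit 2) (nat_lit 0) true (nat_lit 2) true (nat_lit 18) true (nat_lit 5) true (nat_lit 7) true (nat_lit 16) (.s false (nat_lit 1) (nat_lit 20) (nat_lit 0) (nat_lit 10) (nat_lit 2) true (nat_lit 13) true (nat_lit 16) true (nat_lit 4) true (nat_lit 18) true (nat_lit 9) (.s false (nat_lit 1) (nat_lit 20) (nat_lit 0) (nat_lit 15) (nat_lit 1) true (nat_lit 15) true (nat_lit 17) true (nat_lit 4) true (nat_lit 18) true (nat_lit 7) (.s true (nat_lit 1) (nat_lit 20) (nat_lit 1) (nat_lit 0) (nat_lit 15) true (nat_lit 1) true (nat_lit 7) true (nat_lit 4) true (nat_lit 17) true (nat_lit 18) (.s true (nat_lit 1) (nat_lit 20) (nat_lit 1) (nat_lit 3) (nat_lit 6) true (nat_lit 7) true (nat_lit 12) true (nat_lit 4) true (nat_lit 17) true (nat_lit 15) (.s true (nat_lit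 2) (nat_lit 20) (nat_lit 1) (nat_lit 8) (nat_lit 2) true (nat_lit 12) true (nat_lit 16) true (nat_lit 4) true (nat_lit 17) true (nat_lit 10) (.s true (nat_lit 3) (nat_lit 20) (nat_lit 2) (nat_lit 0) (nat_lit 10) true (nat_lit 1) true (nat_lit 9) true (nat_lit 4) true (nat_lit 16) true (nat_lit 18) dC2d_i433)))))))))))))))))))))))))

noncomputable def dC2d_i435 : IL := (.e false (nat_lit 1) (nat_lit 235) (nat_lit 2) (nat_lit 16) (.e false (nat_lit 3) (nat_lit 233) (nat_lit 2) (nat_lit 16) (.e true (nat_lit 3) (nat_lit 134) (nat_lit 6) (nat_lit 12) (.e false (nat_lit 2) (nat_lit 259) (nat_lit 1) (nat_lit 17) (.e true (nat_lit 2) (nat_lit 260) (nat_lit 1) (nat_lit 17) (.e true (nat_lit 1) (nat_lit 256) (nat_lit 1) (nat_lit 17) (.e false (nat_lit 3) (nat_lit 257) (nat_lit 1) (nat_lit 17) (.e true (nat_lit 3) (nat_lit 261) (nat_lit 1) (nat_lit 17) (.e false (nat_lit 3) (nat_lit 62) (nat_lit 18) (nat_lit 5) (.e true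 (nat_lit 3) (nat_lit 289) (nat_lit 0) (nat_lit 18) (.e true (nat_lit 2) (nat_lit 290) (nat_lit 0) (nat_lit 18) (.e true (nat_lit 1) (nat_lit 291) (nat_lit 0) (nat_lit 18) (.e true (nat_lit 2) (nat_lit 292) (nat_lit 0) (nat_lit 18) (.e true (nat_lit 1) (nat_lit 293) (nat_lit 0) (nat_lit 18) (.e true (nat_lit 3) (nat_lit 294) (nat_lit 0) (nat_lit 18) (.e false (nat_lit 2) (nat_lit 296) (nat_lit 0) (nat_lit 18) (.e false (nat_lit 2) (nat_lit 299) (nat_lit 0) (nat_lit 18) (.e true (nat_lit 1) (nat_lit 301) (nat_lit 0) (nat_lit 18) (.e true (nat_lit 1) (nat_lit 303) (nat_lit 0) (nat_lit 18) (.e true (nat_lit 3) (nat_lit 280) (nat_lit 1) (nat_lit 17) (.e false (nat_lit 3) (nat_lit 297) (nat_lit 0) (nat_lit 18) (.u (nat_lit 2) (.p (nat_lit 0) (nat_lit 1) (.n (nat_lit 1) (nat_lit 1) (.n (nat_lit 2) (nat_lit 2) (.p (nat_lit 3) (nat_lit 2) (.n (nat_lit 4) (nat_lit 4) (.p (nat_lit 5) (nat_lit 6) (.p (nat_lit 6) (nat_lit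 2) (.n (nat_lit 7) (nat_lit 6) (.p (nat_lit 8) (nat_lit 3) (.p (nat_lit 10) (nat_lit 1) (.p (nat_lit 11) (nat_lit 6) (.n (nat_lit 12) (nat_lit 4) (.p (nat_lit 14) (nat_lit 2) (.p (nat_lit 15) (nat_lit 2) (.p (nat_lit 16) (nat_lit 1) (.n (nat_lit 17) (nat_lit 4) (.n (nat_lit 18) (nat_lit 2) (.n (nat_lit 19) (nat_lit 6) (.p (nat_lit 21) (nat_lit 3) (.n (nat_lit 22) (nat_lit 3) (.n (nat_lit 23) (nat_lit 1) (.p (nat_lit 24) (nat_lit 1) (.p (nat_lit 25) (nat_lit 2) (.p (nat_lit 26) (nat_lit 3) (.n (nat_lit 27) (nat_lit 8) (.p (nat_lit 28) (nat_lit 1) (.n (nat_lit 29) (nat_lit 3) (.n (nat_lit 31) (nat_lit 3) (.n (nat_lit 32) (nat_lit 3) (.p (nat_lit 33) (nat_lit 3) (.n (nat_lit 34) (nat_lit 3) (.p (nat_lit 35) (nat_lit 5) (.n (nat_lit 38) (nat_lit 3) (.p (nat_lit 39) (nat_lit 1) (.p (nat_lit 40) (nat_lit 2) (.n (nat_lit 44) (nat_lit 1) (.n (nat_lit 45) (nat_lit 1) (.p (nat_lit 46) (nat_lit 6) (.p (nat_lit 47) (nat_lit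 2) (.p (nat_lit 48) (nat_lit 5) (.n (nat_lit 50) (nat_lit 1) (.p (nat_lit 52) (nat_lit 1) (.n (nat_lit 55) (nat_lit 1) (.n (nat_lit 63) (nat_lit 2) (.p (nat_lit 64) (nat_lit 2) (.p (nat_lit 89) (nat_lit 1) (.n (nat_lit 94) (nat_lit 1) (.n (nat_lit 95) (nat_lit 1) (.n (nat_lit 100) (nat_lit 1) (.n (nat_lit 110) (nat_lit 1) (.p (nat_lit 111) (nat_lit 1) (.n (nat_lit 118) (nat_lit 1) (.n (nat_lit 123) (nat_lit 1) (.n (nat_lit 135) (nat_lit 1) (.n (nat_lit 147) (nat_lit 1) (.n (nat_lit 149) (nat_lit 1) (.p (nat_lit 184) (nat_lit 1) (.n (nat_lit 185) (nat_lit 1) (.p (nat_lit 188) (nat_lit 1) (.n (nat_lit 189) (nat_lit 2) .z)))))))))))))))))))))))))))))))))))))))))))))))))))))))))))) (.u (nat_lit 2) (.p (nat_lit 191) (nat_lit 1) (.n (nat_lit 192) (nat_lit 1) (.n (nat_lit 193) (nat_lit 1) (.p (nat_lit 194) (nat_lit 1) (.n (nat_lit 202) (nat_lit 1) (.n (nat_lit 203) (nat_lit 1) (.p (nat_lit 207) (nat_lit 1) (.p (nat_lit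 210) (nat_lit 1) (.n (nat_lit 211) (nat_lit 1) (.p (nat_lit 212) (nat_lit 1) (.p (nat_lit 213) (nat_lit 2) (.n (nat_lit 214) (nat_lit 5) (.n (nat_lit 215) (nat_lit 4) (.p (nat_lit 216) (nat_lit 1) (.n (nat_lit 217) (nat_lit 2) (.p (nat_lit 219) (nat_lit 3) (.n (nat_lit 221) (nat_lit 2) (.n (nat_lit 224) (nat_lit 3) (.n (nat_lit 225) (nat_lit 1) (.n (nat_lit 226) (nat_lit 5) (.p (nat_lit 227) (nat_lit 2) (.p (nat_lit 229) (nat_lit 3) (.p (nat_lit 230) (nat_lit 5) (.p (nat_lit 233) (nat_lit 3) (.p (nat_lit 234) (nat_lit 8) (.n (nat_lit 235) (nat_lit 1) (.p (nat_lit 238) (nat_lit 1) (.n (nat_lit 240) (nat_lit 1) (.p (nat_lit 242) (nat_lit 2) (.n (nat_lit 244) (nat_lit 1) (.p (nat_lit 251) (nat_lit 1) (.p (nat_lit 252) (nat_lit 1) (.p (nat_lit 259) (nat_lit 1) (.n (nat_lit 260) (nat_lit 1) (.p (nat_lit 262) (nat_lit 1) (.n (nat_lit 265) (nat_lit 1) (.p (nat_lit 288) (nat_lit 1) (.n (nat_lit 292) (nat_lit 1) (.n (nat_lit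 293) (nat_lit 1) (.n (nat_lit 295) (nat_lit 1) (.n (nat_lit 296) (nat_lit 1) (.p (nat_lit 297) (nat_lit 1) (.p (nat_lit 298) (nat_lit 1) (.p (nat_lit 299) (nat_lit 1) (.n (nat_lit 300) (nat_lit 1) (.p (nat_lit 302) (nat_lit 12) (.n (nat_lit 303) (nat_lit 8) (.p (nat_lit 304) (nat_lit 6) (.p (nat_lit 305) (nat_lit 15) (.n (nat_lit 306) (nat_lit 12) (.n (nat_lit 307) (nat_lit 10) (.n (nat_lit 308) (nat_lit 4) (.p (nat_lit 309) (nat_lit 4) (.n (nat_lit 310) (nat_lit 3) (.p (nat_lit 311) (nat_lit 5) (.p (nat_lit 312) (nat_lit 19) (.n (nat_lit 313) (nat_lit 7) (.p (nat_lit 314) (nat_lit 5) (.p (nat_lit 315) (nat_lit 13) (.p (nat_lit 316) (nat_lit 17) .z)))))))))))))))))))))))))))))))))))))))))))))))))))))))))))) (.u (nat_lit 2) (.p (nat_lit 317) (nat_lit 1) (.n (nat_lit 318) (nat_lit 17) (.p (nat_lit 319) (nat_lit 8) (.n (nat_lit 320) (nat_lit 1) (.p (nat_lit 322) (nat_lit 1) (.n (nat_lit 324) (nat_lit 9) (.n (nat_lit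 325) (nat_lit 6) (.n (nat_lit 326) (nat_lit 13) (.n (nat_lit 327) (nat_lit 19) (.p (nat_lit 328) (nat_lit 5) (.n (nat_lit 330) (nat_lit 2) (.n (nat_lit 331) (nat_lit 1) (.n (nat_lit 332) (nat_lit 5) (.n (nat_lit 334) (nat_lit 1) (.n (nat_lit 335) (nat_lit 3) (.n (nat_lit 336) (nat_lit 1) (.p (nat_lit 337) (nat_lit 1) (.n (nat_lit 338) (nat_lit 4) (.p (nat_lit 339) (nat_lit 3) (.n (nat_lit 342) (nat_lit 22) (.n (nat_lit 343) (nat_lit 13) (.n (nat_lit 344) (nat_lit 6) (.p (nat_lit 345) (nat_lit 29) (.p (nat_lit 346) (nat_lit 3) (.p (nat_lit 347) (nat_lit 1) (.p (nat_lit 348) (nat_lit 10) (.p (nat_lit 349) (nat_lit 7) (.n (nat_lit 350) (nat_lit 1) (.p (nat_lit 351) (nat_lit 8) (.p (nat_lit 352) (nat_lit 18) (.p (nat_lit 353) (nat_lit 1) (.n (nat_lit 354) (nat_lit 5) (.p (nat_lit 355) (nat_lit 7) (.n (nat_lit 356) (nat_lit 6) (.p (nat_lit 357) (nat_lit 15) (.n (nat_lit 358) (nat_lit 1) (.n (nat_lit 359) (nat_lit 5)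 (.p (nat_lit 360) (nat_lit 3) (.p (nat_lit 361) (nat_lit 7) (.p (nat_lit 362) (nat_lit 12) (.p (nat_lit 363) (nat_lit 1) (.p (nat_lit 364) (nat_lit 15) (.n (nat_lit 365) (nat_lit 1) (.p (nat_lit 366) (nat_lit 4) (.p (nat_lit 367) (nat_lit 11) (.n (nat_lit 368) (nat_lit 9) (.p (nat_lit 369) (nat_lit 4) (.n (nat_lit 370) (nat_lit 13) (.p (nat_lit 371) (nat_lit 5) (.n (nat_lit 372) (nat_lit 11) (.p (nat_lit 373) (nat_lit 7) (.p (nat_lit 374) (nat_lit 19) (.p (nat_lit 375) (nat_lit 2) (.p (nat_lit 376) (nat_lit 3) (.n (nat_lit 377) (nat_lit 2) (.n (nat_lit 378) (nat_lit 2) (.p (nat_lit 379) (nat_lit 4) (.p (nat_lit 380) (nat_lit 4) (.p (nat_lit 381) (nat_lit 4) (.p (nat_lit 382) (nat_lit 4) .z)))))))))))))))))))))))))))))))))))))))))))))))))))))))))))) (.u (nat_lit 2) (.p (nat_lit 383) (nat_lit 4) (.n (nat_lit 384) (nat_lit 1) (.p (nat_lit 386) (nat_lit 3) (.p (nat_lit 387) (nat_lit 1) (.p (nat_lit 388) (nat_lit 5)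 (.n (nat_lit 389) (nat_lit 6) (.n (nat_lit 390) (nat_lit 4) (.p (nat_lit 391) (nat_lit 4) (.n (nat_lit 392) (nat_lit 1) (.p (nat_lit 393) (nat_lit 4) (.p (nat_lit 394) (nat_lit 1) (.p (nat_lit 395) (nat_lit 6) (.n (nat_lit 396) (nat_lit 3) (.n (nat_lit 397) (nat_lit 4) (.p (nat_lit 398) (nat_lit 10) (.n (nat_lit 399) (nat_lit 3) (.p (nat_lit 400) (nat_lit 4) (.n (nat_lit 401) (nat_lit 3) .z)))))))))))))))))) .nil)))))))))))))))))))))))))

noncomputable def dC2d_i436 : IL := (.e true (nat_lit 1) (nat_lit 273) (nat_lit 1) (nat_lit 17) (.e true (nat_lit 2) (nat_lit 276) (nat_lit 1) (nat_lit 17) (.e false (nat_lit 3) (nat_lit 277) (nat_lit 1) (nat_lit 17) (.e true (nat_lit 2) (nat_lit 255) (nat_lit 1) (nat_lit 17) (.e true (nat_lit 3) (nat_lit 262) (nat_lit 1) (nat_lit 17) (.e false (nat_lit 3) (nat_lit 264) (nat_lit 1) (nat_lit 17) (.e true (nat_lit 3) (nat_lit 266) (nat_lit 1) (nat_lit 17) (.e false (nat_lit 2)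 (nat_lit 211) (nat_lit 2) (nat_lit 16) (.e true (nat_lit 3) (nat_lit 213) (nat_lit 2) (nat_lit 16) (.e false (nat_lit 2) (nat_lit 219) (nat_lit 2) (nat_lit 16) (.e true (nat_lit 2) (nat_lit 246) (nat_lit 2) (nat_lit 16) (.e false (nat_lit 1) (nat_lit 247) (nat_lit 2) (nat_lit 16) (.e true (nat_lit 2) (nat_lit 249) (nat_lit 2) (nat_lit 16) (.e false (nat_lit 1) (nat_lit 206) (nat_lit 2) (nat_lit 16) (.e false (nat_lit 2) (nat_lit 207) (nat_lit 2) (nat_lit 16) (.e false (nat_lit 2) (nat_lit 230) (nat_lit 2) (nat_lit 16) (.e true (nat_lit 2) (nat_lit 274) (nat_lit 1) (nat_lit 17) (.e false (nat_lit 3) (nat_lit 278) (nat_lit 1) (nat_lit 17) (.e true (nat_lit 1) (nat_lit 138) (nat_lit 6) (nat_lit 12) (.e false (nat_lit 3) (nat_lit 220) (nat_lit 2) (nat_lit 16) (.e true (nat_lit 3) (nat_lit 226) (nat_lit 2) (nat_lit 16) (.e true (nat_lit 1) (nat_lit 231) (nat_lit 2) (nat_lit 16) (.e false (nat_lit 2) (nat_lit 229) (nat_lit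 2) (nat_lit 16) (.e true (nat_lit 3) (nat_lit 250) (nat_lit 2) (nat_lit 16) (.e true (nat_lit 3) (nat_lit 218) (nat_lit 2) (nat_lit 16) dC2d_i435)))))))))))))))))))))))))

noncomputable def dC2d_i437 : IL := (.s false (nat_lit 3) (nat_lit 101) (nat_lit 0) (nat_lit 1) (nat_lit 1) true (nat_lit 15) true (nat_lit 17) false (nat_lit 10) true (nat_lit 18) true (nat_lit 17) (.s true (nat_lit 1) (nat_lit 102) (nat_lit 0) (nat_lit 1) (nat_lit 1) true (nat_lit 15) true (nat_lit 17) false (nat_lit 10) true (nat_lit 18) true (nat_lit 17) (.s false (nat_lit 2) (nat_lit 103) (nat_lit 0) (nat_lit 1) (nat_lit 1) true (nat_lit 15) true (nat_lit 17) false (nat_lit 10) true (nat_lit 18) true (nat_lit 17) (.s false (nat_lit 3) (nat_lit 101) (nat_lit 1) (nat_lit 1) (nat_lit 0) true (nat_lit 15) true (nat_lit 18) false (nat_lit 10) true (nat_lit 17) true (nat_lit 17) (.s false (nat_lit 1) (nat_lit 102) (nat_lit 1) (nat_lit 1) (nat_lit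 0) true (nat_lit 15) true (nat_lit 18) false (nat_lit 10) true (nat_lit 17) true (nat_lit 17) (.s true (nat_lit 1) (nat_lit 103) (nat_lit 1) (nat_lit 1) (nat_lit 0) true (nat_lit 15) true (nat_lit 18) false (nat_lit 10) true (nat_lit 17) true (nat_lit 17) (.e false (nat_lit 1) (nat_lit 122) (nat_lit 7) (nat_lit 11) (.e true (nat_lit 1) (nat_lit 130) (nat_lit 7) (nat_lit 11) (.e false (nat_lit 1) (nat_lit 129) (nat_lit 7) (nat_lit 11) (.e false (nat_lit 3) (nat_lit 227) (nat_lit 2) (nat_lit 16) (.e false (nat_lit 1) (nat_lit 208) (nat_lit 2) (nat_lit 16) (.e false (nat_lit 1) (nat_lit 216) (nat_lit 2) (nat_lit 16) (.e true (nat_lit 3) (nat_lit 144) (nat_lit 6) (nat_lit 12) (.e true (nat_lit 1) (nat_lit 205) (nat_lit 2) (nat_lit 16) (.e false (nat_lit 1) (nat_lit 215) (nat_lit 2) (nat_lit 16) (.e false (nat_lit 3) (nat_lit 251) (nat_lit 2) (nat_lit 16) (.e false (nat_lit 2) (nat_lit 285) (nat_lit 1) (nat_lit 17)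 (.e true (nat_lit 2) (nat_lit 253) (nat_lit 1) (nat_lit 17) (.e true (nat_lit 3) (nat_lit 254) (nat_lit 1) (nat_lit 17) (.e false (nat_lit 1) (nat_lit 258) (nat_lit 1) (nat_lit 17) (.e true (nat_lit 1) (nat_lit 263) (nat_lit 1) (nat_lit 17) (.e true (nat_lit 3) (nat_lit 265) (nat_lit 1) (nat_lit 17) (.e false (nat_lit 1) (nat_lit 269) (nat_lit 1) (nat_lit 17) (.e false (nat_lit 2) (nat_lit 271) (nat_lit 1) (nat_lit 17) (.e false (nat_lit 1) (nat_lit 272) (nat_lit 1) (nat_lit 17) dC2d_i436)))))))))))))))))))))))))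

noncomputable def dC2d_i438 : IL := (.s false (nat_lit 2) (nat_lit 66) (nat_lit 2) (nat_lit 1) (nat_lit 2) true (nat_lit 11) true (nat_lit 16) false (nat_lit 5) true (nat_lit 16) true (nat_lit 17) (.s false (nat_lit 3) (nat_lit 72) (nat_lit 2) (nat_lit 1) (nat_lit 2) true (nat_lit 11) true (nat_lit 16) false (nat_lit 5) true (nat_lit 16) true (nat_lit 17) (.s true (nat_lit 3) (nat_lit 73) (nat_lit 2) (nat_lit 1) (nat_lit 2) true (nat_lit 11) true (nat_lit 16) false (nat_lit 5) true (nat_lit 16) true (nat_lit 17) (.s false (nat_lit 2) (nat_lit 60) (nat_lit 2) (nat_lit 2) (nat_lit 1) true (nat_lit 12) true (nat_lit 17) false (nat_lit 5) true (nat_lit 16) true (nat_lit 16) (.s false (nat_lit 2) (nat_lit 66) (nat_lit 2) (nat_lit 2) (nat_lit 1) true (nat_lit 12) true (nat_lit 17) false (nat_lit 5) true (nat_lit 16) true (nat_lit 16) (.s false (nat_lit 3) (nat_lit 72) (nat_lit 2) (nat_lit 2) (nat_lit 1) true (nat_lit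 12) true (nat_lit 17) false (nat_lit 5) true (nat_lit 16) true (nat_lit 16) (.s false (nat_lit 3) (nat_lit 73) (nat_lit 2) (nat_lit 2) (nat_lit 1) true (nat_lit 12) true (nat_lit 17) false (nat_lit 5) true (nat_lit 16) true (nat_lit 16) (.s true (nat_lit 1) (nat_lit 74) (nat_lit 0) (nat_lit 2) (nat_lit 2) true (nat_lit 13) true (nat_lit 16) false (nat_lit 6) true (nat_lit 18) true (nat_lit 16) (.s true (nat_lit 3) (nat_lit 79) (nat_lit 0) (nat_lit 2) (nat_lit 2) true (nat_lit 13) true (nat_lit 16) false (nat_lit 6) true (nat_lit 18) true (nat_lit 16) (.s false (nat_lit 2) (nat_lit 80) (nat_lit 1) (nat_lit 1) (nat_lit 2) true (nat_lit 12) true (nat_lit 16) false (nat_lit 7) true (nat_lit 17) true (nat_lit 17) (.s false (nat_lit 1) (nat_lit 88) (nat_lit 1) (nat_lit 1) (nat_lit 2) true (nat_lit 12) true (nat_lit 16) false (nat_lit 7) true (nat_lit 17) true (nat_lit 17) (.s false (nat_lit 2) (nat_lit 80) (nat_lit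 1) (nat_lit 2) (nat_lit 1) true (nat_lit 14) true (nat_lit 17) false (nat_lit 7) true (nat_lit 17) true (nat_lit 16) (.s true (nat_lit 3) (nat_lit 87) (nat_lit 1) (nat_lit 2) (nat_lit 1) true (nat_lit 14) true (nat_lit 17) false (nat_lit 7) true (nat_lit 17) true (nat_lit 16) (.s true (nat_lit 1) (nat_lit 88) (nat_lit 1) (nat_lit 2) (nat_lit 1) true (nat_lit 14) true (nat_lit 17) false (nat_lit 7) true (nat_lit 17) true (nat_lit 16) (.s false (nat_lit 2) (nat_lit 81) (nat_lit 2) (nat_lit 1) (nat_lit 1) true (nat_lit 12) true (nat_lit 17) false (nat_lit 7) true (nat_lit 16) true (nat_lit 17) (.s true (nat_lit 2) (nat_lit 88) (nat_lit 2) (nat_lit 1) (nat_lit 1) true (nat_lit 12) true (nat_lit 17) false (nat_lit 7) true (nat_lit 16) true (nat_lit 17) (.s false (nat_lit 2) (nat_lit 89) (nat_lit 2) (nat_lit 1) (nat_lit 1) true (nat_lit 12) true (nat_lit 17) false (nat_lit 7) true (nat_lit 16) true (nat_lit 17) (.s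 true (nat_lit 1) (nat_lit 92) (nat_lit 0) (nat_lit 1) (nat_lit 2) true (nat_lit 13) true (nat_lit 16) false (nat_lit 8) true (nat_lit 18) true (nat_lit 17) (.s true (nat_lit 3) (nat_lit 91) (nat_lit 0) (nat_lit 2) (nat_lit 1) true (nat_lit 15) true (nat_lit 17) false (nat_lit 8) true (nat_lit 18) true (nat_lit 16) (.s true (nat_lit 2) (nat_lit 92) (nat_lit 0) (nat_lit 2) (nat_lit 1) true (nat_lit 15) true (nat_lit 17) false (nat_lit 8) true (nat_lit 18) true (nat_lit 16) (.s true (nat_lit 2) (nat_lit 93) (nat_lit 0) (nat_lit 2) (nat_lit 1) true (nat_lit 15) true (nat_lit 17) false (nat_lit 8) true (nat_lit 18) true (nat_lit 16) (.s true (nat_lit 2) (nat_lit 96) (nat_lit 0) (nat_lit 2) (nat_lit 1) true (nat_lit 15) true (nat_lit 17) false (nat_lit 8) true (nat_lit 18) true (nat_lit 16) (.s true (nat_lit 1) (nat_lit 92) (nat_lit 1) (nat_lit 2) (nat_lit 0) true (nat_lit 15) true (nat_lit 18) false (nat_lit 8) true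 (nat_lit 17) true (nat_lit 16) (.s true (nat_lit 2) (nat_lit 95) (nat_lit 1) (nat_lit 2) (nat_lit 0) true (nat_lit 15) true (nat_lit 18) false (nat_lit 8) true (nat_lit 17) true (nat_lit 16) (.s false (nat_lit 1) (nat_lit 92) (nat_lit 2) (nat_lit 1) (nat_lit 0) true (nat_lit 13) true (nat_lit 18) false (nat_lit 8) true (nat_lit 16) true (nat_lit 17) dC2d_i437)))))))))))))))))))))))))

noncomputable def dC2d_i439 : IL := (.s false (nat_lit 2) (nat_lit 47) (nat_lit 1) (nat_lit 2) (nat_lit 3) true (nat_lit 10) true (nat_lit 15) false (nat_lit 2) true (nat_lit 17) true (nat_lit 16) (.s true (nat_lit 1) (nat_lit 45) (nat_lit 1) (nat_lit 3) (nat_lit 2) true (nat_lit 12) true (nat_lit 16) false (nat_lit 2) true (nat_lit 17) true (nat_lit 15) (.s true (nat_lit 1) (nat_lit 46) (nat_lit 1) (nat_lit 3) (nat_lit 2) true (nat_lit 12) true (nat_lit 16) false (nat_lit 2) true (nat_lit 17) true (nat_lit 15) (.s false (nat_lit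 2) (nat_lit 47) (nat_lit 1) (nat_lit 3) (nat_lit 2) true (nat_lit 12) true (nat_lit 16) false (nat_lit 2) true (nat_lit 17) true (nat_lit 15) (.s false (nat_lit 3) (nat_lit 45) (nat_lit 2) (nat_lit 3) (nat_lit 1) true (nat_lit 12) true (nat_lit 17) false (nat_lit 2) true (nat_lit 16) true (nat_lit 15) (.s false (nat_lit 3) (nat_lit 46) (nat_lit 2) (nat_lit 3) (nat_lit 1) true (nat_lit 12) true (nat_lit 17) false (nat_lit 2) true (nat_lit 16) true (nat_lit 15) (.s false (nat_lit 3) (nat_lit 45) (nat_lit 6) (nat_lit 0) (nat_lit 1) true (nat_lit 7) true (nat_lit 17) false (nat_lit 2) true (nat_lit 12) true (nat_lit 18) (.s false (nat_lit 2) (nat_lit 46) (nat_lit 6) (nat_lit 1) (nat_lit 0) true (nat_lit 8) true (nat_lit 18) false (nat_lit 2) true (nat_lit 12) true (nat_lit 17) (.s true (nat_lit 1) (nat_lit 48) (nat_lit 3) (nat_lit 1) (nat_lit 1) true (nat_lit 10) true (nat_lit 17) false (nat_lit 3) true (nat_lit 15)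 true (nat_lit 17) (.s false (nat_lit 2) (nat_lit 52) (nat_lit 2) (nat_lit 2) (nat_lit 2) true (nat_lit 11) true (nat_lit 16) false (nat_lit 4) true (nat_lit 16) true (nat_lit 16) (.s false (nat_lit 2) (nat_lit 53) (nat_lit 2) (nat_lit 2) (nat_lit 2) true (nat_lit 11) true (nat_lit 16) false (nat_lit 4) true (nat_lit 16) true (nat_lit 16) (.s false (nat_lit 2) (nat_lit 54) (nat_lit 2) (nat_lit 2) (nat_lit 2) true (nat_lit 11) true (nat_lit 16) false (nat_lit 4) true (nat_lit 16) true (nat_lit 16) (.s false (nat_lit 2) (nat_lit 55) (nat_lit 2) (nat_lit 2) (nat_lit 2) true (nat_lit 11) true (nat_lit 16) false (nat_lit 4) true (nat_lit 16) true (nat_lit 16) (.s true (nat_lit 3) (nat_lit 56) (nat_lit 2) (nat_lit 2) (nat_lit 2) true (nat_lit 11) true (nat_lit 16) false (nat_lit 4) true (nat_lit 16) true (nat_lit 16) (.s false (nat_lit 3) (nat_lit 57) (nat_lit 2) (nat_lit 2) (nat_lit 2) true (nat_lit 11) true (nat_lit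 16) false (nat_lit 4) true (nat_lit 16) true (nat_lit 16) (.s false (nat_lit 1) (nat_lit 58) (nat_lit 2) (nat_lit 2) (nat_lit 2) true (nat_lit 11) true (nat_lit 16) false (nat_lit 4) true (nat_lit 16) true (nat_lit 16) (.s true (nat_lit 1) (nat_lit 59) (nat_lit 2) (nat_lit 2) (nat_lit 2) true (nat_lit 11) true (nat_lit 16) false (nat_lit 4) true (nat_lit 16) true (nat_lit 16) (.s true (nat_lit 2) (nat_lit 65) (nat_lit 1) (nat_lit 2) (nat_lit 2) true (nat_lit 12) true (nat_lit 16) false (nat_lit 5) true (nat_lit 17) true (nat_lit 16) (.s true (nat_lit 1) (nat_lit 66) (nat_lit 1) (nat_lit 2) (nat_lit 2) true (nat_lit 12) true (nat_lit 16) false (nat_lit 5) true (nat_lit 17) true (nat_lit 16) (.s true (nat_lit 3) (nat_lit 67) (nat_lit 1) (nat_lit 2) (nat_lit 2) true (nat_lit 12) true (nat_lit 16) false (nat_lit 5) true (nat_lit 17) true (nat_lit 16) (.s true (nat_lit 2) (nat_lit 68) (nat_lit 1) (nat_lit 2) (nat_lit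 2) true (nat_lit 12) true (nat_lit 16) false (nat_lit 5) true (nat_lit 17) true (nat_lit 16) (.s false (nat_lit 3) (nat_lit 73) (nat_lit 1) (nat_lit 2) (nat_lit 2) true (nat_lit 12) true (nat_lit 16) false (nat_lit 5) true (nat_lit 17) true (nat_lit 16) (.s false (nat_lit 3) (nat_lit 62) (nat_lit 2) (nat_lit 1) (nat_lit 2) true (nat_lit 11) true (nat_lit 16) false (nat_lit 5) true (nat_lit 16) true (nat_lit 17) (.s true (nat_lit 3) (nat_lit 63) (nat_lit 2) (nat_lit 1) (nat_lit 2) true (nat_lit 11) true (nat_lit 16) false (nat_lit 5) true (nat_lit 16) true (nat_lit 17) (.s false (nat_lit 3) (nat_lit 65) (nat_lit 2) (nat_lit 1) (nat_lit 2) true (nat_lit 11) true (nat_lit 16) false (nat_lit 5) true (nat_lit 16) true (nat_lit 17) dC2d_i438)))))))))))))))))))))))))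

noncomputable def dC2d_i440 : IL := (.s false (nat_lit 2) (nat_lit 29) (nat_lit 2) (nat_lit 2) (nat_lit 6) true (nat_lit 5) true (nat_lit 12) true (nat_lit 2) true (nat_lit 16) true (nat_lit 16) (.s false (nat_lit 2) (nat_lit 25) (nat_lit 2) (nat_lit 6) (nat_lit 2) true (nat_lit 11) true (nat_lit 16) true (nat_lit 2) true (nat_lit 16) true (nat_lit 12) (.s false (nat_lit 3) (nat_lit 25) (nat_lit 2) (nat_lit 7) (nat_lit 1) true (nat_lit 12) true (nat_lit 17) true (nat_lit 2) true (nat_lit 16) true (nat_lit 11) (.s false (nat_lit 2) (nat_lit 24) (nat_lit 6) (nat_lit 2) (nat_lit 2) true (nat_lit 5) true (nat_lit 16) true (nat_lit 2) true (nat_lit 12) true (nat_lit 16) (.s false (nat_lit 1) (nat_lit 25) (nat_lit 6) (nat_lit 2) (nat_lit 2) true (nat_lit 5) true (nat_lit 16) true (nat_lit 2) true (nat_lit 12) true (nat_lit 16) (.s true (nat_lit 1) (nat_lit 26) (nat_lit 6) (nat_lit 2) (nat_lit 2) true (nat_lit 5) true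 (nat_lit 16) true (nat_lit 2) true (nat_lit 12) true (nat_lit 16) (.s true (nat_lit 3) (nat_lit 29) (nat_lit 6) (nat_lit 2) (nat_lit 2) true (nat_lit 5) true (nat_lit 16) true (nat_lit 2) true (nat_lit 12) true (nat_lit 16) (.s true (nat_lit 3) (nat_lit 25) (nat_lit 7) (nat_lit 2) (nat_lit 1) true (nat_lit 5) true (nat_lit 17) true (nat_lit 2) true (nat_lit 11) true (nat_lit 16) (.s true (nat_lit 1) (nat_lit 30) (nat_lit 2) (nat_lit 0) (nat_lit 7) true (nat_lit 4) true (nat_lit 11) true (nat_lit 1) true (nat_lit 16) true (nat_lit 18) (.s true (nat_lit 3) (nat_lit 30) (nat_lit 2) (nat_lit 2) (nat_lit 5) true (nat_lit 6) true (nat_lit 13) true (nat_lit 1) true (nat_lit 16) true (nat_lit 16) (.s false (nat_lit 3) (nat_lit 30) (nat_lit 2) (nat_lit 5) (nat_lit 2) true (nat_lit 11) true (nat_lit 16) true (nat_lit 1) true (nat_lit 16) true (nat_lit 13) (.s true (nat_lit 3) (nat_lit 30) (nat_lit 5) (nat_lit 2) (nat_lit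 2) true (nat_lit 6) true (nat_lit 16) true (nat_lit 1) true (nat_lit 13) true (nat_lit 16) (.s false (nat_lit 1) (nat_lit 33) (nat_lit 1) (nat_lit 1) (nat_lit 7) true (nat_lit 5) true (nat_lit 11) true (nat_lit 0) true (nat_lit 17) true (nat_lit 17) (.s false (nat_lit 2) (nat_lit 34) (nat_lit 1) (nat_lit 1) (nat_lit 7) true (nat_lit 5) true (nat_lit 11) true (nat_lit 0) true (nat_lit 17) true (nat_lit 17) (.s true (nat_lit 2) (nat_lit 33) (nat_lit 1) (nat_lit 2) (nat_lit 6) true (nat_lit 7) true (nat_lit 12) true (nat_lit 0) true (nat_lit 17) true (nat_lit 16) (.s true (nat_lit 3) (nat_lit 33) (nat_lit 1) (nat_lit 7) (nat_lit 1) true (nat_lit 14) true (nat_lit 17) true (nat_lit 0) true (nat_lit 17) true (nat_lit 11) (.s true (nat_lit 2) (nat_lit 34) (nat_lit 1) (nat_lit 7) (nat_lit 1) true (nat_lit 14) true (nat_lit 17) true (nat_lit 0) true (nat_lit 17) true (nat_lit 11) (.s false (nat_lit 1) (nat_lit 34) (nat_lit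 2) (nat_lit 1) (nat_lit 6) true (nat_lit 5) true (nat_lit 12) true (nat_lit 0) true (nat_lit 16) true (nat_lit 17) (.s true (nat_lit 2) (nat_lit 33) (nat_lit 2) (nat_lit 2) (nat_lit 4) true (nat_lit 7) true (nat_lit 14) true (nat_lit 0) true (nat_lit 16) true (nat_lit 16) (.s false (nat_lit 2) (nat_lit 33) (nat_lit 2) (nat_lit 6) (nat_lit 1) true (nat_lit 12) true (nat_lit 17) true (nat_lit 0) true (nat_lit 16) true (nat_lit 12) (.s false (nat_lit 2) (nat_lit 34) (nat_lit 2) (nat_lit 6) (nat_lit 1) true (nat_lit 12) true (nat_lit 17) true (nat_lit 0) true (nat_lit 16) true (nat_lit 12) (.s true (nat_lit 1) (nat_lit 33) (nat_lit 4) (nat_lit 2) (nat_lit 2) true (nat_lit 7) true (nat_lit 16) true (nat_lit 0) true (nat_lit 14) true (nat_lit 16) (.s true (nat_lit 2) (nat_lit 34) (nat_lit 6) (nat_lit 2) (nat_lit 1) true (nat_lit 7) true (nat_lit 17) true (nat_lit 0) true (nat_lit 12) true (nat_lit 16) (.s false (nat_lit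 1) (nat_lit 39) (nat_lit 3) (nat_lit 2) (nat_lit 2) true (nat_lit 8) true (nat_lit 16) false (nat_lit 0) true (nat_lit 15) true (nat_lit 16) (.s false (nat_lit 3) (nat_lit 45) (nat_lit 0) (nat_lit 2) (nat_lit 4) true (nat_lit 10) true (nat_lit 14) false (nat_lit 2) true (nat_lit 18) true (nat_lit 16) dC2d_i439)))))))))))))))))))))))))

noncomputable def dC2d_i441 : IL := (.s false (nat_lit 2) (nat_lit 20) (nat_lit 1) (nat_lit 1) (nat_lit 12) true (nat_lit 2) true (nat_lit 8) true (nat_lit 4) true (nat_lit 17) true (nat_lit 17) (.s false (nat_lit 2) (nat_lit 20) (nat_lit 2) (nat_lit 1) (nat_lit 8) true (nat_lit 2) true (nat_lit 10) true (nat_lit 4) true (nat_lit 16) true (nat_lit 17) (.s false (nat_lit 2) (nat_lit 20) (nat_lit 2) (nat_lit 8) (nat_lit 1) true (nat_lit 12) true (nat_lit 17) true (nat_lit 4) true (nat_lit 16) true (nat_lit 10) (.s false (nat_lit 1) (nat_lit 20) (nat_lit 4) (nat_lit 2) (nat_lit 3)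 true (nat_lit 3) true (nat_lit 15) true (nat_lit 4) true (nat_lit 14) true (nat_lit 16) (.s true (nat_lit 3) (nat_lit 20) (nat_lit 8) (nat_lit 1) (nat_lit 2) true (nat_lit 2) true (nat_lit 16) true (nat_lit 4) true (nat_lit 10) true (nat_lit 17) (.s false (nat_lit 3) (nat_lit 20) (nat_lit 9) (nat_lit 1) (nat_lit 2) true (nat_lit 2) true (nat_lit 16) true (nat_lit 4) true (nat_lit 10) true (nat_lit 17) (.s false (nat_lit 3) (nat_lit 20) (nat_lit 9) (nat_lit 2) (nat_lit 1) true (nat_lit 3) true (nat_lit 17) true (nat_lit 4) true (nat_lit 10) true (nat_lit 16) (.s false (nat_lit 2) (nat_lit 20) (nat_lit 11) (nat_lit 1) (nat_lit 1) true (nat_lit 2) true (nat_lit 17) true (nat_lit 4) true (nat_lit 8) true (nat_lit 17) (.s false (nat_lit 2) (nat_lit 20) (nat_lit 12) (nat_lit 1) (nat_lit 1) true (nat_lit 2) true (nat_lit 17) true (nat_lit 4) true (nat_lit 8) true (nat_lit 17) (.s false (nat_lit 3) (nat_lit 21) (nat_lit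 2) (nat_lit 2) (nat_lit 7) true (nat_lit 4) true (nat_lit 11) true (nat_lit 3) true (nat_lit 16) true (nat_lit 16) (.s true (nat_lit 3) (nat_lit 22) (nat_lit 2) (nat_lit 2) (nat_lit 7) true (nat_lit 4) true (nat_lit 11) true (nat_lit 3) true (nat_lit 16) true (nat_lit 16) (.s false (nat_lit 2) (nat_lit 21) (nat_lit 2) (nat_lit 7) (nat_lit 2) true (nat_lit 11) true (nat_lit 16) true (nat_lit 3) true (nat_lit 16) true (nat_lit 11) (.s true (nat_lit 2) (nat_lit 22) (nat_lit 2) (nat_lit 7) (nat_lit 2) true (nat_lit 11) true (nat_lit 16) true (nat_lit 3) true (nat_lit 16) true (nat_lit 11) (.s false (nat_lit 1) (nat_lit 23) (nat_lit 2) (nat_lit 7) (nat_lit 2) true (nat_lit 11) true (nat_lit 16) true (nat_lit 3) true (nat_lit 16) true (nat_lit 11) (.s false (nat_lit 1) (nat_lit 21) (nat_lit 7) (nat_lit 2) (nat_lit 2) true (nat_lit 4) true (nat_lit 16) true (nat_lit 3) true (nat_lit 11) true (nat_lit 16) (.s false (nat_lit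 2) (nat_lit 24) (nat_lit 1) (nat_lit 2) (nat_lit 7) true (nat_lit 5) true (nat_lit 11) true (nat_lit 2) true (nat_lit 17) true (nat_lit 16) (.s false (nat_lit 3) (nat_lit 27) (nat_lit 1) (nat_lit 2) (nat_lit 7) true (nat_lit 5) true (nat_lit 11) true (nat_lit 2) true (nat_lit 17) true (nat_lit 16) (.s true (nat_lit 3) (nat_lit 29) (nat_lit 1) (nat_lit 2) (nat_lit 7) true (nat_lit 5) true (nat_lit 11) true (nat_lit 2) true (nat_lit 17) true (nat_lit 16) (.s true (nat_lit 1) (nat_lit 24) (nat_lit 1) (nat_lit 7) (nat_lit 2) true (nat_lit 12) true (nat_lit 16) true (nat_lit 2) true (nat_lit 17) true (nat_lit 11) (.s true (nat_lit 3) (nat_lit 26) (nat_lit 1) (nat_lit 7) (nat_lit 2) true (nat_lit 12) true (nat_lit 16) true (nat_lit 2) true (nat_lit 17) true (nat_lit 11) (.s true (nat_lit 1) (nat_lit 27) (nat_lit 1) (nat_lit 7) (nat_lit 2) true (nat_lit 12) true (nat_lit 16) true (nat_lit 2) true (nat_lit 17) true (nat_lit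 11) (.s true (nat_lit 3) (nat_lit 24) (nat_lit 2) (nat_lit 1) (nat_lit 7) true (nat_lit 4) true (nat_lit 11) true (nat_lit 2) true (nat_lit 16) true (nat_lit 17) (.s true (nat_lit 1) (nat_lit 27) (nat_lit 2) (nat_lit 1) (nat_lit 7) true (nat_lit 4) true (nat_lit 11) true (nat_lit 2) true (nat_lit 16) true (nat_lit 17) (.s false (nat_lit 3) (nat_lit 29) (nat_lit 2) (nat_lit 1) (nat_lit 7) true (nat_lit 4) true (nat_lit 11) true (nat_lit 2) true (nat_lit 16) true (nat_lit 17) (.s false (nat_lit 3) (nat_lit 27) (nat_lit 2) (nat_lit 2) (nat_lit 6) true (nat_lit 5) true (nat_lit 12) true (nat_lit 2) true (nat_lit 16) true (nat_lit 16) dC2d_i440)))))))))))))))))))))))))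

noncomputable def dC2d_i442 : IL := (.s true (nat_lit 2) (nat_lit 12) (nat_lit 2) (nat_lit 6) (nat_lit 6) true (nat_lit 5) true (nat_lit 12) true (nat_lit 8) true (nat_lit 16) true (nat_lit 12) (.s true (nat_lit 2) (nat_lit 12) (nat_lit 2) (nat_lit 7) (nat_lit 4) true (nat_lit 7) true (nat_lit 14) true (nat_lit 8) true (nat_lit 16) true (nat_lit 11) (.s false (nat_lit 2) (nat_lit 11) (nat_lit 4) (nat_lit 2) (nat_lit 7) false (nat_lit 0) true (nat_lit 11) true (nat_lit 8) true (nat_lit 14) true (nat_lit 16) (.s false (nat_lit 3) (nat_lit 12) (nat_lit 6) (nat_lit 2) (nat_lit 6) false (nat_lit 0) true (nat_lit 12) true (nat_lit 8) true (nat_lit 12) true (nat_lit 16) (.s false (nat_lit 2) (nat_lit 11) (nat_lit 6) (nat_lit 6) (nat_lit 2) true (nat_lit 5) true (nat_lit 16) true (nat_lit 8) true (nat_lit 12) true (nat_lit 12) (.s true (nat_lit 2) (nat_lit 11) (nat_lit 7) (nat_lit 2) (nat_lit 4) false (nat_lit 0) true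 (nat_lit 14) true (nat_lit 8) true (nat_lit 11) true (nat_lit 16) (.s true (nat_lit 1) (nat_lit 14) (nat_lit 2) (nat_lit 2) (nat_lit 11) true (nat_lit 0) true (nat_lit 8) true (nat_lit 7) true (nat_lit 16) true (nat_lit 16) (.s true (nat_lit 2) (nat_lit 14) (nat_lit 2) (nat_lit 2) (nat_lit 12) true (nat_lit 0) true (nat_lit 8) true (nat_lit 7) true (nat_lit 16) true (nat_lit 16) (.s true (nat_lit 2) (nat_lit 15) (nat_lit 2) (nat_lit 2) (nat_lit 12) true (nat_lit 0) true (nat_lit 8) true (nat_lit 7) true (nat_lit 16) true (nat_lit 16) (.s true (nat_lit 1) (nat_lit 14) (nat_lit 11) (nat_lit 2) (nat_lit 2) true (nat_lit 0) true (nat_lit 16) true (nat_lit 7) true (nat_lit 8) true (nat_lit 16) (.s true (nat_lit 2) (nat_lit 16) (nat_lit 2) (nat_lit 2) (nat_lit 10) true (nat_lit 1) true (nat_lit 9) true (nat_lit 6) true (nat_lit 16) true (nat_lit 16) (.s true (nat_lit 2) (nat_lit 16) (nat_lit 2) (nat_lit 10) (nat_lit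 2) true (nat_lit 11) true (nat_lit 16) true (nat_lit 6) true (nat_lit 16) true (nat_lit 9) (.s false (nat_lit 2) (nat_lit 16) (nat_lit 10) (nat_lit 2) (nat_lit 2) true (nat_lit 1) true (nat_lit 16) true (nat_lit 6) true (nat_lit 9) true (nat_lit 16) (.s true (nat_lit 3) (nat_lit 19) (nat_lit 1) (nat_lit 3) (nat_lit 7) true (nat_lit 5) true (nat_lit 11) true (nat_lit 5) true (nat_lit 17) true (nat_lit 15) (.s false (nat_lit 2) (nat_lit 18) (nat_lit 1) (nat_lit 11) (nat_lit 2) true (nat_lit 12) true (nat_lit 16) true (nat_lit 5) true (nat_lit 17) true (nat_lit 8) (.s true (nat_lit 2) (nat_lit 18) (nat_lit 2) (nat_lit 1) (nat_lit 11) true (nat_lit 0) true (nat_lit 8) true (nat_lit 5) true (nat_lit 16) true (nat_lit 17) (.s true (nat_lit 3) (nat_lit 18) (nat_lit 2) (nat_lit 2) (nat_lit 8) true (nat_lit 2) true (nat_lit 10) true (nat_lit 5) true (nat_lit 16) true (nat_lit 16) (.s false (nat_lit 1) (nat_lit 19) (nat_lit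 2) (nat_lit 2) (nat_lit 8) true (nat_lit 2) true (nat_lit 10) true (nat_lit 5) true (nat_lit 16) true (nat_lit 16) (.s false (nat_lit 1) (nat_lit 18) (nat_lit 2) (nat_lit 11) (nat_lit 1) true (nat_lit 12) true (nat_lit 17) true (nat_lit 5) true (nat_lit 16) true (nat_lit 8) (.s false (nat_lit 2) (nat_lit 18) (nat_lit 2) (nat_lit 12) (nat_lit 1) true (nat_lit 12) true (nat_lit 17) true (nat_lit 5) true (nat_lit 16) true (nat_lit 8) (.s false (nat_lit 2) (nat_lit 18) (nat_lit 8) (nat_lit 2) (nat_lit 2) true (nat_lit 2) true (nat_lit 16) true (nat_lit 5) true (nat_lit 10) true (nat_lit 16) (.s true (nat_lit 1) (nat_lit 18) (nat_lit 9) (nat_lit 2) (nat_lit 2) true (nat_lit 2) true (nat_lit 16) true (nat_lit 5) true (nat_lit 10) true (nat_lit 16) (.s false (nat_lit 2) (nat_lit 18) (nat_lit 12) (nat_lit 1) (nat_lit 2) true (nat_lit 0) true (nat_lit 16) true (nat_lit 5) true (nat_lit 8) true (nat_lit 17) (.s false (nat_lit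 3) (nat_lit 19) (nat_lit 11) (nat_lit 1) (nat_lit 2) true (nat_lit 0) true (nat_lit 16) true (nat_lit 5) true (nat_lit 8) true (nat_lit 17) (.s false (nat_lit 2) (nat_lit 19) (nat_lit 12) (nat_lit 2) (nat_lit 1) true (nat_lit 2) true (nat_lit 17) true (nat_lit 5) true (nat_lit 8) true (nat_lit 16) dC2d_i441)))))))))))))))))))))))))

noncomputable def dC2d_i443 : IL := (.s false (nat_lit 2) (nat_lit 92) (nat_lit 2) (nat_lit 2) (nat_lit 1) true (nat_lit 7) true (nat_lit 10) false (nat_lit 3) true (nat_lit 9) true (nat_lit 9) (.s true (nat_lit 2) (nat_lit 93) (nat_lit 2) (nat_lit 2) (nat_lit 1) true (nat_lit 7) true (nat_lit 10) false (nat_lit 3) true (nat_lit 9) true (nat_lit 9) (.s false (nat_lit 2) (nat_lit 96) (nat_lit 2) (nat_lit 2) (nat_lit 1) true (nat_lit 7) true (nat_lit 10) false (nat_lit 3) true (nat_lit 9) true (nat_lit 9) (.s false (nat_lit 3) (nat_lit 105) (nat_lit 1) (nat_lit 1) (nat_lit 1) true (nat_lit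 8) true (nat_lit 10) false (nat_lit 5) true (nat_lit 10) true (nat_lit 10) (.e true (nat_lit 2) (nat_lit 163) (nat_lit 7) (nat_lit 6) (.e true (nat_lit 3) (nat_lit 303) (nat_lit 2) (nat_lit 9) (.e true (nat_lit 2) (nat_lit 289) (nat_lit 2) (nat_lit 9) (.e false (nat_lit 3) (nat_lit 291) (nat_lit 2) (nat_lit 9) (.e true (nat_lit 3) (nat_lit 292) (nat_lit 2) (nat_lit 9) (.e false (nat_lit 1) (nat_lit 293) (nat_lit 2) (nat_lit 9) (.e false (nat_lit 2) (nat_lit 295) (nat_lit 2) (nat_lit 9) (.e false (nat_lit 1) (nat_lit 296) (nat_lit 2) (nat_lit 9) (.e true (nat_lit 1) (nat_lit 294) (nat_lit 2) (nat_lit 9) (.e false (nat_lit 2) (nat_lit 297) (nat_lit 2) (nat_lit 9) (.e false (nat_lit 2) (nat_lit 298) (nat_lit 2) (nat_lit 9) (.e true (nat_lit 2) (nat_lit 299) (nat_lit 2) (nat_lit 9) (.e false (nat_lit 3) (nat_lit 300) (nat_lit 2) (nat_lit 9) (.e true (nat_lit 3) (nat_lit 301) (nat_lit 2) (nat_lit 9) (.e false (nat_lit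 1) (nat_lit 79) (nat_lit 20) (nat_lit 2) (.e false (nat_lit 3) (nat_lit 324) (nat_lit 1) (nat_lit 10) (.e false (nat_lit 2) (nat_lit 325) (nat_lit 1) (nat_lit 10) (.e true (nat_lit 1) (nat_lit 330) (nat_lit 1) (nat_lit 10) (.e false (nat_lit 3) (nat_lit 331) (nat_lit 1) (nat_lit 10) (.e true (nat_lit 1) (nat_lit 190) (nat_lit 6) (nat_lit 7) (.u (nat_lit 2) (.n (nat_lit 0) (nat_lit 1) (.n (nat_lit 1) (nat_lit 2) (.p (nat_lit 2) (nat_lit 2) (.n (nat_lit 3) (nat_lit 1) (.n (nat_lit 5) (nat_lit 2) (.p (nat_lit 6) (nat_lit 2) (.p (nat_lit 7) (nat_lit 2) (.p (nat_lit 9) (nat_lit 1) (.p (nat_lit 11) (nat_lit 1) (.p (nat_lit 12) (nat_lit 1) (.p (nat_lit 13) (nat_lit 1) (.p (nat_lit 24) (nat_lit 1) (.n (nat_lit 25) (nat_lit 1) (.p (nat_lit 32) (nat_lit 1) (.n (nat_lit 44) (nat_lit 1) (.n (nat_lit 46) (nat_lit 1) (.p (nat_lit 47) (nat_lit 1) (.n (nat_lit 55) (nat_lit 1) (.p (nat_lit 57) (nat_lit 1) (.p (nat_lit 60) (nat_lit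 2) (.n (nat_lit 61) (nat_lit 2) (.p (nat_lit 62) (nat_lit 1) (.n (nat_lit 63) (nat_lit 1) (.n (nat_lit 77) (nat_lit 1) (.p (nat_lit 78) (nat_lit 1) (.n (nat_lit 79) (nat_lit 1) (.n (nat_lit 80) (nat_lit 2) (.p (nat_lit 81) (nat_lit 11) (.n (nat_lit 82) (nat_lit 1) (.n (nat_lit 83) (nat_lit 7) (.p (nat_lit 84) (nat_lit 4) (.p (nat_lit 85) (nat_lit 2) (.p (nat_lit 86) (nat_lit 2) (.p (nat_lit 87) (nat_lit 3) (.p (nat_lit 88) (nat_lit 4) (.n (nat_lit 89) (nat_lit 3) (.n (nat_lit 91) (nat_lit 1) (.p (nat_lit 92) (nat_lit 1) (.p (nat_lit 94) (nat_lit 1) (.n (nat_lit 95) (nat_lit 5) (.p (nat_lit 96) (nat_lit 2) (.n (nat_lit 97) (nat_lit 1) (.n (nat_lit 98) (nat_lit 2) (.n (nat_lit 102) (nat_lit 2) (.n (nat_lit 103) (nat_lit 2) .z))))))))))))))))))))))))))))))))))))))))))))) .nil)))))))))))))))))))))))))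

noncomputable def dC2d_i444 : IL := (.e true (nat_lit 3) (nat_lit 327) (nat_lit 0) (nat_lit 16) (.e true (nat_lit 1) (nat_lit 328) (nat_lit 0) (nat_lit 16) (.e true (nat_lit 2) (nat_lit 330) (nat_lit 0) (nat_lit 16) (.e true (nat_lit 3) (nat_lit 329) (nat_lit 0) (nat_lit 16) (.e true (nat_lit 3) (nat_lit 331) (nat_lit 0) (nat_lit 16) (.e true (nat_lit 2) (nat_lit 283) (nat_lit 2) (nat_lit 14) (.e false (nat_lit 1) (nat_lit 284) (nat_lit 2) (nat_lit 14) (.e false (nat_lit 1) (nat_lit 72) (nat_lit 20) (nat_lit 3) (.e false (nat_lit 3) (nat_lit 333) (nat_lit 0) (nat_lit 16) (.e false (nat_lit 2) (nat_lit 62) (nat_lit 20) (nat_lit 3) (.e true (nat_lit 3) (nat_lit 318) (nat_lit 1) (nat_lit 15) (.e true (nat_lit 3) (nat_lit 306) (nat_lit 1) (nat_lit 15) (.e true (nat_lit 2) (nat_lit 307) (nat_lit 1) (nat_lit 15) (.e true (nat_lit 1) (nat_lit 314) (nat_lit 1) (nat_lit 15) (.e false (nat_lit 3) (nat_lit 315) (nat_lit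 1) (nat_lit 15) (.e true (nat_lit 2) (nat_lit 308) (nat_lit 1) (nat_lit 15) (.e true (nat_lit 3) (nat_lit 310) (nat_lit 1) (nat_lit 15) (.e false (nat_lit 3) (nat_lit 305) (nat_lit 1) (nat_lit 15) (.e true (nat_lit 3) (nat_lit 309) (nat_lit 1) (nat_lit 15) (.e false (nat_lit 2) (nat_lit 311) (nat_lit 1) (nat_lit 15) (.e false (nat_lit 2) (nat_lit 312) (nat_lit 1) (nat_lit 15) (.e false (nat_lit 2) (nat_lit 48) (nat_lit 26) (nat_lit 2) (.u (nat_lit 2) (.p (nat_lit 0) (nat_lit 1) (.p (nat_lit 1) (nat_lit 1) (.p (nat_lit 2) (nat_lit 1) (.p (nat_lit 3) (nat_lit 3) (.p (nat_lit 4) (nat_lit 3) (.p (nat_lit 5) (nat_lit 3) (.n (nat_lit 6) (nat_lit 3) (.n (nat_lit 7) (nat_lit 2) (.n (nat_lit 8) (nat_lit 5) (.p (nat_lit 10) (nat_lit 1) (.n (nat_lit 11) (nat_lit 2) (.n (nat_lit 12) (nat_lit 2) (.p (nat_lit 14) (nat_lit 1) (.p (nat_lit 15) (nat_lit 3) (.p (nat_lit 16) (nat_lit 3) (.p (nat_lit 17) (nat_lit 1) (.p (nat_lit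 18) (nat_lit 1) (.p (nat_lit 19) (nat_lit 4) (.p (nat_lit 21) (nat_lit 2) (.n (nat_lit 23) (nat_lit 2) (.p (nat_lit 24) (nat_lit 4) (.n (nat_lit 25) (nat_lit 2) (.n (nat_lit 27) (nat_lit 1) (.n (nat_lit 28) (nat_lit 1) (.p (nat_lit 29) (nat_lit 1) (.n (nat_lit 34) (nat_lit 3) (.n (nat_lit 50) (nat_lit 1) (.n (nat_lit 68) (nat_lit 1) (.p (nat_lit 69) (nat_lit 1) (.p (nat_lit 78) (nat_lit 1) (.p (nat_lit 81) (nat_lit 1) (.p (nat_lit 86) (nat_lit 1) (.n (nat_lit 89) (nat_lit 1) (.n (nat_lit 91) (nat_lit 1) (.p (nat_lit 97) (nat_lit 1) (.n (nat_lit 98) (nat_lit 1) (.n (nat_lit 109) (nat_lit 1) (.n (nat_lit 111) (nat_lit 1) (.p (nat_lit 113) (nat_lit 1) (.n (nat_lit 121) (nat_lit 1) (.p (nat_lit 131) (nat_lit 1) (.n (nat_lit 140) (nat_lit 1) (.p (nat_lit 142) (nat_lit 3) (.n (nat_lit 143) (nat_lit 1) (.p (nat_lit 144) (nat_lit 3) (.n (nat_lit 145) (nat_lit 2) (.p (nat_lit 146) (nat_lit 2) (.n (nat_lit 147) (nat_lit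 1) (.p (nat_lit 148) (nat_lit 1) (.p (nat_lit 149) (nat_lit 3) (.n (nat_lit 150) (nat_lit 1) (.n (nat_lit 151) (nat_lit 1) (.n (nat_lit 152) (nat_lit 1) (.n (nat_lit 154) (nat_lit 2) (.n (nat_lit 156) (nat_lit 1) (.n (nat_lit 157) (nat_lit 3) (.n (nat_lit 159) (nat_lit 1) (.n (nat_lit 160) (nat_lit 4) (.n (nat_lit 161) (nat_lit 2) (.p (nat_lit 162) (nat_lit 1) .z)))))))))))))))))))))))))))))))))))))))))))))))))))))))))))) (.u (nat_lit 2) (.p (nat_lit 163) (nat_lit 1) (.n (nat_lit 165) (nat_lit 3) (.p (nat_lit 166) (nat_lit 4) (.n (nat_lit 167) (nat_lit 1) (.n (nat_lit 168) (nat_lit 1) (.p (nat_lit 169) (nat_lit 1) (.n (nat_lit 170) (nat_lit 1) (.p (nat_lit 180) (nat_lit 1) (.n (nat_lit 185) (nat_lit 1) (.n (nat_lit 187) (nat_lit 1) (.p (nat_lit 189) (nat_lit 2) (.n (nat_lit 192) (nat_lit 1) (.n (nat_lit 193) (nat_lit 1) (.n (nat_lit 202) (nat_lit 1) (.p (nat_lit 204) (nat_lit 8) (.n (nat_lit 205) (nat_lit 4) (.p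 (nat_lit 206) (nat_lit 7) (.n (nat_lit 207) (nat_lit 5) (.n (nat_lit 208) (nat_lit 12) (.n (nat_lit 209) (nat_lit 1) (.n (nat_lit 210) (nat_lit 5) (.n (nat_lit 211) (nat_lit 17) (.p (nat_lit 212) (nat_lit 8) (.p (nat_lit 213) (nat_lit 7) (.p (nat_lit 214) (nat_lit 16) (.n (nat_lit 215) (nat_lit 10) (.p (nat_lit 216) (nat_lit 13) (.p (nat_lit 217) (nat_lit 11) (.n (nat_lit 218) (nat_lit 17) (.n (nat_lit 219) (nat_lit 14) (.p (nat_lit 220) (nat_lit 2) (.p (nat_lit 221) (nat_lit 3) (.n (nat_lit 222) (nat_lit 26) (.p (nat_lit 223) (nat_lit 4) (.p (nat_lit 225) (nat_lit 10) (.n (nat_lit 226) (nat_lit 8) (.n (nat_lit 227) (nat_lit 1) (.n (nat_lit 228) (nat_lit 1) (.n (nat_lit 229) (nat_lit 7) (.n (nat_lit 230) (nat_lit 3) (.p (nat_lit 231) (nat_lit 2) (.p (nat_lit 232) (nat_lit 4) (.p (nat_lit 233) (nat_lit 1) (.p (nat_lit 234) (nat_lit 1) (.p (nat_lit 235) (nat_lit 8) (.n (nat_lit 236) (nat_lit 4) (.n (nat_lit 237)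 (nat_lit 1) (.n (nat_lit 238) (nat_lit 10) (.p (nat_lit 239) (nat_lit 3) (.p (nat_lit 240) (nat_lit 5) (.n (nat_lit 241) (nat_lit 4) (.n (nat_lit 242) (nat_lit 1) (.n (nat_lit 243) (nat_lit 1) (.n (nat_lit 244) (nat_lit 6) (.p (nat_lit 245) (nat_lit 2) (.n (nat_lit 247) (nat_lit 2) (.n (nat_lit 248) (nat_lit 2) (.n (nat_lit 250) (nat_lit 2) (.p (nat_lit 251) (nat_lit 5) (.p (nat_lit 253) (nat_lit 2) .z)))))))))))))))))))))))))))))))))))))))))))))))))))))))))))) (.u (nat_lit 2) (.n (nat_lit 254) (nat_lit 1) (.n (nat_lit 257) (nat_lit 1) (.p (nat_lit 259) (nat_lit 1) (.n (nat_lit 260) (nat_lit 2) (.p (nat_lit 261) (nat_lit 3) (.p (nat_lit 262) (nat_lit 1) (.n (nat_lit 263) (nat_lit 4) (.p (nat_lit 264) (nat_lit 2) (.p (nat_lit 265) (nat_lit 3) (.p (nat_lit 270) (nat_lit 1) .z)))))))))) .nil)))))))))))))))))))))))))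

noncomputable def dC2d_i445 : IL := (.e false (nat_lit 2) (nat_lit 154) (nat_lit 7) (nat_lit 9) (.e false (nat_lit 1) (nat_lit 254) (nat_lit 2) (nat_lit 14) (.e true (nat_lit 1) (nat_lit 265) (nat_lit 2) (nat_lit 14) (.e true (nat_lit 2) (nat_lit 272) (nat_lit 2) (nat_lit 14) (.e true (nat_lit 1) (nat_lit 274) (nat_lit 2) (nat_lit 14) (.e true (nat_lit 1) (nat_lit 285) (nat_lit 2) (nat_lit 14) (.e true (nat_lit 2) (nat_lit 264) (nat_lit 2) (nat_lit 14) (.e true (nat_lit 3) (nat_lit 140) (nat_lit 7) (nat_lit 9) (.e true (nat_lit 1) (nat_lit 252) (nat_lit 2) (nat_lit 14) (.e true (nat_lit 3) (nat_lit 253) (nat_lit 2) (nat_lit 14) (.e true (nat_lit 1) (nat_lit 255) (nat_lit 2) (nat_lit 14) (.e false (nat_lit 3) (nat_lit 257) (nat_lit 2) (nat_lit 14) (.e false (nat_lit 2) (nat_lit 258) (nat_lit 2) (nat_lit 14) (.e true (nat_lit 1) (nat_lit 259) (nat_lit 2) (nat_lit 14) (.e false (nat_lit 1) (nat_lit 261) (nat_lit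 2) (nat_lit 14) (.e true (nat_lit 2) (nat_lit 263) (nat_lit 2) (nat_lit 14) (.e true (nat_lit 3) (nat_lit 273) (nat_lit 2) (nat_lit 14) (.e true (nat_lit 1) (nat_lit 275) (nat_lit 2) (nat_lit 14) (.e true (nat_lit 2) (nat_lit 134) (nat_lit 7) (nat_lit 9) (.e false (nat_lit 2) (nat_lit 141) (nat_lit 7) (nat_lit 9) (.e true (nat_lit 2) (nat_lit 152) (nat_lit 7) (nat_lit 9) (.e false (nat_lit 1) (nat_lit 153) (nat_lit 7) (nat_lit 9) (.e false (nat_lit 1) (nat_lit 324) (nat_lit 0) (nat_lit 16) (.e false (nat_lit 2) (nat_lit 325) (nat_lit 0) (nat_lit 16) (.e false (nat_lit 1) (nat_lit 326) (nat_lit 0) (nat_lit 16) dC2d_i444)))))))))))))))))))))))))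

noncomputable def dC2d_i446 : IL := (.s true (nat_lit 2) (nat_lit 80) (nat_lit 1) (nat_lit 2) (nat_lit 2) true (nat_lit 10) true (nat_lit 14) false (nat_lit 4) true (nat_lit 15) true (nat_lit 14) (.s false (nat_lit 1) (nat_lit 81) (nat_lit 1) (nat_lit 2) (nat_lit 2) true (nat_lit 10) true (nat_lit 14) false (nat_lit 4) true (nat_lit 15) true (nat_lit 14) (.s true (nat_lit 3) (nat_lit 82) (nat_lit 1) (nat_lit 2) (nat_lit 2) true (nat_lit 10) true (nat_lit 14) false (nat_lit 4) true (nat_lit 15) true (nat_lit 14) (.s false (nat_lit 3) (nat_lit 83) (nat_lit 1) (nat_lit 2) (nat_lit 2) true (nat_lit 10) true (nat_lit 14) false (nat_lit 4) true (nat_lit 15) true (nat_lit 14) (.s false (nat_lit 3) (nat_lit 85) (nat_lit 1) (nat_lit 2) (nat_lit 2) true (nat_lit 10) true (nat_lit 14) false (nat_lit 4) true (nat_lit 15) true (nat_lit 14) (.s true (nat_lit 2) (nat_lit 80) (nat_lit 2) (nat_lit 1) (nat_lit 2) true (nat_lit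 9) true (nat_lit 14) false (nat_lit 4) true (nat_lit 14) true (nat_lit 15) (.s false (nat_lit 2) (nat_lit 81) (nat_lit 2) (nat_lit 1) (nat_lit 2) true (nat_lit 9) true (nat_lit 14) false (nat_lit 4) true (nat_lit 14) true (nat_lit 15) (.s false (nat_lit 2) (nat_lit 88) (nat_lit 2) (nat_lit 1) (nat_lit 2) true (nat_lit 9) true (nat_lit 14) false (nat_lit 4) true (nat_lit 14) true (nat_lit 15) (.s true (nat_lit 2) (nat_lit 80) (nat_lit 2) (nat_lit 2) (nat_lit 1) true (nat_lit 10) true (nat_lit 15) false (nat_lit 4) true (nat_lit 14) true (nat_lit 14) (.s false (nat_lit 2) (nat_lit 81) (nat_lit 2) (nat_lit 2) (nat_lit 1) true (nat_lit 10) true (nat_lit 15) false (nat_lit 4) true (nat_lit 14) true (nat_lit 14) (.s true (nat_lit 1) (nat_lit 90) (nat_lit 2) (nat_lit 2) (nat_lit 1) true (nat_lit 10) true (nat_lit 15) false (nat_lit 4) true (nat_lit 14) true (nat_lit 14) (.s false (nat_lit 3) (nat_lit 91) (nat_lit 0)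 (nat_lit 2) (nat_lit 2) true (nat_lit 11) true (nat_lit 14) false (nat_lit 5) true (nat_lit 16) true (nat_lit 14) (.s true (nat_lit 1) (nat_lit 92) (nat_lit 0) (nat_lit 2) (nat_lit 2) true (nat_lit 11) true (nat_lit 14) false (nat_lit 5) true (nat_lit 16) true (nat_lit 14) (.s true (nat_lit 2) (nat_lit 93) (nat_lit 0) (nat_lit 2) (nat_lit 2) true (nat_lit 11) true (nat_lit 14) false (nat_lit 5) true (nat_lit 16) true (nat_lit 14) (.s true (nat_lit 3) (nat_lit 94) (nat_lit 0) (nat_lit 2) (nat_lit 2) true (nat_lit 11) true (nat_lit 14) false (nat_lit 5) true (nat_lit 16) true (nat_lit 14) (.s false (nat_lit 2) (nat_lit 95) (nat_lit 0) (nat_lit 2) (nat_lit 2) true (nat_lit 11) true (nat_lit 14) false (nat_lit 5) true (nat_lit 16) true (nat_lit 14) (.s false (nat_lit 3) (nat_lit 96) (nat_lit 0) (nat_lit 2) (nat_lit 2) true (nat_lit 11) true (nat_lit 14) false (nat_lit 5) true (nat_lit 16) true (nat_lit 14) (.s false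 (nat_lit 3) (nat_lit 96) (nat_lit 2) (nat_lit 2) (nat_lit 0) true (nat_lit 11) true (nat_lit 16) false (nat_lit 5) true (nat_lit 14) true (nat_lit 14) (.s true (nat_lit 3) (nat_lit 98) (nat_lit 1) (nat_lit 2) (nat_lit 1) true (nat_lit 12) true (nat_lit 15) false (nat_lit 6) true (nat_lit 15) true (nat_lit 14) (.s false (nat_lit 3) (nat_lit 100) (nat_lit 1) (nat_lit 2) (nat_lit 1) true (nat_lit 12) true (nat_lit 15) false (nat_lit 6) true (nat_lit 15) true (nat_lit 14) (.s true (nat_lit 2) (nat_lit 103) (nat_lit 0) (nat_lit 1) (nat_lit 2) true (nat_lit 11) true (nat_lit 14) false (nat_lit 7) true (nat_lit 16) true (nat_lit 15) (.s true (nat_lit 3) (nat_lit 103) (nat_lit 2) (nat_lit 1) (nat_lit 0) true (nat_lit 11) true (nat_lit 16) false (nat_lit 7) true (nat_lit 14) true (nat_lit 15) (.s true (nat_lit 3) (nat_lit 105) (nat_lit 0) (nat_lit 1) (nat_lit 1) true (nat_lit 13) true (nat_lit 15) false (nat_lit 8) true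 (nat_lit 16) true (nat_lit 15) (.s false (nat_lit 2) (nat_lit 105) (nat_lit 1) (nat_lit 0) (nat_lit 1) true (nat_lit 12) true (nat_lit 15) false (nat_lit 8) true (nat_lit 15) true (nat_lit 16) (.s true (nat_lit 1) (nat_lit 105) (nat_lit 1) (nat_lit 1) (nat_lit 0) true (nat_lit 13) true (nat_lit 16) false (nat_lit 8) true (nat_lit 15) true (nat_lit 15) dC2d_i445)))))))))))))))))))))))))

noncomputable def dC2d_i447 : IL := (.s true (nat_lit 3) (nat_lit 35) (nat_lit 6) (nat_lit 2) (nat_lit 2) true (nat_lit 4) true (nat_lit 14) true (nat_lit 1) true (nat_lit 10) true (nat_lit 14) (.s true (nat_lit 2) (nat_lit 33) (nat_lit 7) (nat_lit 2) (nat_lit 1) true (nat_lit 4) true (nat_lit 15) true (nat_lit 1) true (nat_lit 9) true (nat_lit 14) (.s true (nat_lit 2) (nat_lit 39) (nat_lit 0) (nat_lit 2) (nat_lit 7) true (nat_lit 5) true (nat_lit 9) true (nat_lit 0) true (nat_lit 16) true (nat_lit 14) (.s false (nat_lit 2) (nat_lit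 40) (nat_lit 0) (nat_lit 2) (nat_lit 7) true (nat_lit 5) true (nat_lit 9) true (nat_lit 0) true (nat_lit 16) true (nat_lit 14) (.s false (nat_lit 2) (nat_lit 40) (nat_lit 2) (nat_lit 0) (nat_lit 7) true (nat_lit 3) true (nat_lit 9) true (nat_lit 0) true (nat_lit 14) true (nat_lit 16) (.s false (nat_lit 1) (nat_lit 39) (nat_lit 2) (nat_lit 2) (nat_lit 5) true (nat_lit 5) true (nat_lit 11) true (nat_lit 0) true (nat_lit 14) true (nat_lit 14) (.s false (nat_lit 2) (nat_lit 40) (nat_lit 2) (nat_lit 5) (nat_lit 2) true (nat_lit 9) true (nat_lit 14) true (nat_lit 0) true (nat_lit 14) true (nat_lit 11) (.s false (nat_lit 3) (nat_lit 39) (nat_lit 2) (nat_lit 7) (nat_lit 0) true (nat_lit 11) true (nat_lit 16) true (nat_lit 0) true (nat_lit 14) true (nat_lit 9) (.s true (nat_lit 2) (nat_lit 44) (nat_lit 4) (nat_lit 2) (nat_lit 2) true (nat_lit 6) true (nat_lit 14) false (nat_lit 0) true (nat_lit 12) true (nat_lit 14) (.s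 false (nat_lit 1) (nat_lit 46) (nat_lit 2) (nat_lit 3) (nat_lit 2) true (nat_lit 9) true (nat_lit 14) false (nat_lit 1) true (nat_lit 14) true (nat_lit 13) (.s true (nat_lit 2) (nat_lit 46) (nat_lit 3) (nat_lit 2) (nat_lit 2) true (nat_lit 7) true (nat_lit 14) false (nat_lit 1) true (nat_lit 13) true (nat_lit 14) (.s false (nat_lit 2) (nat_lit 47) (nat_lit 3) (nat_lit 2) (nat_lit 2) true (nat_lit 7) true (nat_lit 14) false (nat_lit 1) true (nat_lit 13) true (nat_lit 14) (.s false (nat_lit 2) (nat_lit 47) (nat_lit 5) (nat_lit 1) (nat_lit 2) true (nat_lit 5) true (nat_lit 14) false (nat_lit 1) true (nat_lit 11) true (nat_lit 15) (.s false (nat_lit 1) (nat_lit 48) (nat_lit 0) (nat_lit 2) (nat_lit 4) true (nat_lit 8) true (nat_lit 12) false (nat_lit 2) true (nat_lit 16) true (nat_lit 14) (.s false (nat_lit 2) (nat_lit 48) (nat_lit 2) (nat_lit 3) (nat_lit 1) true (nat_lit 10) true (nat_lit 15) false (nat_lit 2) true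 (nat_lit 14) true (nat_lit 13) (.s false (nat_lit 2) (nat_lit 48) (nat_lit 4) (nat_lit 2) (nat_lit 0) true (nat_lit 8) true (nat_lit 16) false (nat_lit 2) true (nat_lit 12) true (nat_lit 14) (.s false (nat_lit 3) (nat_lit 48) (nat_lit 6) (nat_lit 0) (nat_lit 1) true (nat_lit 6) true (nat_lit 15) false (nat_lit 2) true (nat_lit 10) true (nat_lit 16) (.s false (nat_lit 1) (nat_lit 48) (nat_lit 6) (nat_lit 1) (nat_lit 0) true (nat_lit 7) true (nat_lit 16) false (nat_lit 2) true (nat_lit 10) true (nat_lit 15) (.s true (nat_lit 3) (nat_lit 66) (nat_lit 2) (nat_lit 2) (nat_lit 2) true (nat_lit 9) true (nat_lit 14) false (nat_lit 3) true (nat_lit 14) true (nat_lit 14) (.s false (nat_lit 2) (nat_lit 67) (nat_lit 2) (nat_lit 2) (nat_lit 2) true (nat_lit 9) true (nat_lit 14) false (nat_lit 3) true (nat_lit 14) true (nat_lit 14) (.s false (nat_lit 3) (nat_lit 68) (nat_lit 2) (nat_lit 2) (nat_lit 2) true (nat_lit 9) true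 (nat_lit 14) false (nat_lit 3) true (nat_lit 14) true (nat_lit 14) (.s true (nat_lit 3) (nat_lit 69) (nat_lit 2) (nat_lit 2) (nat_lit 2) true (nat_lit 9) true (nat_lit 14) false (nat_lit 3) true (nat_lit 14) true (nat_lit 14) (.s true (nat_lit 2) (nat_lit 70) (nat_lit 2) (nat_lit 2) (nat_lit 2) true (nat_lit 9) true (nat_lit 14) false (nat_lit 3) true (nat_lit 14) true (nat_lit 14) (.s false (nat_lit 2) (nat_lit 71) (nat_lit 2) (nat_lit 2) (nat_lit 2) true (nat_lit 9) true (nat_lit 14) false (nat_lit 3) true (nat_lit 14) true (nat_lit 14) (.s true (nat_lit 1) (nat_lit 73) (nat_lit 2) (nat_lit 2) (nat_lit 2) true (nat_lit 9) true (nat_lit 14) false (nat_lit 3) true (nat_lit 14) true (nat_lit 14) dC2d_i446)))))))))))))))))))))))))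

noncomputable def dC2d_i448 : IL := (.s true (nat_lit 2) (nat_lit 20) (nat_lit 2) (nat_lit 14) (nat_lit 0) true (nat_lit 11) true (nat_lit 16) true (nat_lit 3) true (nat_lit 14) true (nat_lit 6) (.s false (nat_lit 1) (nat_lit 20) (nat_lit 8) (nat_lit 2) (nat_lit 2) true (nat_lit 2) true (nat_lit 14) true (nat_lit 3) true (nat_lit 8) true (nat_lit 14) (.s true (nat_lit 2) (nat_lit 20) (nat_lit 9) (nat_lit 2) (nat_lit 2) true (nat_lit 2) true (nat_lit 14) true (nat_lit 3) true (nat_lit 8) true (nat_lit 14) (.s false (nat_lit 3) (nat_lit 20) (nat_lit 11) (nat_lit 1) (nat_lit 2) true (nat_lit 1) true (nat_lit 14) true (nat_lit 3) true (nat_lit 7) true (nat_lit 15) (.s false (nat_lit 2) (nat_lit 20) (nat_lit 12) (nat_lit 2) (nat_lit 1) true (nat_lit 2) true (nat_lit 15) true (nat_lit 3) true (nat_lit 7) true (nat_lit 14) (.s true (nat_lit 2) (nat_lit 20) (nat_lit 15) (nat_lit 2) (nat_lit 0) true (nat_lit 2) true (nat_lit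 16) true (nat_lit 3) true (nat_lit 6) true (nat_lit 14) (.s true (nat_lit 2) (nat_lit 24) (nat_lit 2) (nat_lit 2) (nat_lit 7) true (nat_lit 3) true (nat_lit 9) true (nat_lit 2) true (nat_lit 14) true (nat_lit 14) (.s true (nat_lit 2) (nat_lit 25) (nat_lit 2) (nat_lit 2) (nat_lit 7) true (nat_lit 3) true (nat_lit 9) true (nat_lit 2) true (nat_lit 14) true (nat_lit 14) (.s true (nat_lit 2) (nat_lit 27) (nat_lit 2) (nat_lit 2) (nat_lit 7) true (nat_lit 3) true (nat_lit 9) true (nat_lit 2) true (nat_lit 14) true (nat_lit 14) (.s false (nat_lit 2) (nat_lit 28) (nat_lit 2) (nat_lit 2) (nat_lit 7) true (nat_lit 3) true (nat_lit 9) true (nat_lit 2) true (nat_lit 14) true (nat_lit 14) (.s false (nat_lit 3) (nat_lit 29) (nat_lit 2) (nat_lit 2) (nat_lit 7) true (nat_lit 3) true (nat_lit 9) true (nat_lit 2) true (nat_lit 14) true (nat_lit 14) (.s true (nat_lit 3) (nat_lit 27) (nat_lit 2) (nat_lit 7) (nat_lit 2) true (nat_lit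 9) true (nat_lit 14) true (nat_lit 2) true (nat_lit 14) true (nat_lit 9) (.s true (nat_lit 3) (nat_lit 29) (nat_lit 2) (nat_lit 7) (nat_lit 2) true (nat_lit 9) true (nat_lit 14) true (nat_lit 2) true (nat_lit 14) true (nat_lit 9) (.s false (nat_lit 2) (nat_lit 27) (nat_lit 7) (nat_lit 2) (nat_lit 2) true (nat_lit 3) true (nat_lit 14) true (nat_lit 2) true (nat_lit 9) true (nat_lit 14) (.s true (nat_lit 1) (nat_lit 29) (nat_lit 7) (nat_lit 2) (nat_lit 2) true (nat_lit 3) true (nat_lit 14) true (nat_lit 2) true (nat_lit 9) true (nat_lit 14) (.s true (nat_lit 3) (nat_lit 33) (nat_lit 1) (nat_lit 2) (nat_lit 7) true (nat_lit 4) true (nat_lit 9) true (nat_lit 1) true (nat_lit 15) true (nat_lit 14) (.s false (nat_lit 3) (nat_lit 34) (nat_lit 1) (nat_lit 2) (nat_lit 7) true (nat_lit 4) true (nat_lit 9) true (nat_lit 1) true (nat_lit 15) true (nat_lit 14) (.s true (nat_lit 1) (nat_lit 35) (nat_lit 1) (nat_lit 2) (nat_lit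 7) true (nat_lit 4) true (nat_lit 9) true (nat_lit 1) true (nat_lit 15) true (nat_lit 14) (.s true (nat_lit 3) (nat_lit 33) (nat_lit 2) (nat_lit 2) (nat_lit 6) true (nat_lit 4) true (nat_lit 10) true (nat_lit 1) true (nat_lit 14) true (nat_lit 14) (.s false (nat_lit 1) (nat_lit 34) (nat_lit 2) (nat_lit 2) (nat_lit 6) true (nat_lit 4) true (nat_lit 10) true (nat_lit 1) true (nat_lit 14) true (nat_lit 14) (.s true (nat_lit 1) (nat_lit 35) (nat_lit 2) (nat_lit 2) (nat_lit 6) true (nat_lit 4) true (nat_lit 10) true (nat_lit 1) true (nat_lit 14) true (nat_lit 14) (.s true (nat_lit 1) (nat_lit 33) (nat_lit 2) (nat_lit 7) (nat_lit 1) true (nat_lit 10) true (nat_lit 15) true (nat_lit 1) true (nat_lit 14) true (nat_lit 9) (.s false (nat_lit 2) (nat_lit 35) (nat_lit 2) (nat_lit 7) (nat_lit 1) true (nat_lit 10) true (nat_lit 15) true (nat_lit 1) true (nat_lit 14) true (nat_lit 9) (.s true (nat_lit 2) (nat_lit 33) (nat_lit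 6) (nat_lit 2) (nat_lit 2) true (nat_lit 4) true (nat_lit 14) true (nat_lit 1) true (nat_lit 10) true (nat_lit 14) (.s false (nat_lit 2) (nat_lit 34) (nat_lit 6) (nat_lit 2) (nat_lit 2) true (nat_lit 4) true (nat_lit 14) true (nat_lit 1) true (nat_lit 10) true (nat_lit 14) dC2d_i447)))))))))))))))))))))))))

noncomputable def dC2d_i449 : IL := (.s false (nat_lit 2) (nat_lit 12) (nat_lit 6) (nat_lit 2) (nat_lit 7) false (nat_lit 1) true (nat_lit 9) true (nat_lit 7) true (nat_lit 10) true (nat_lit 14) (.s false (nat_lit 2) (nat_lit 12) (nat_lit 7) (nat_lit 2) (nat_lit 6) false (nat_lit 1) true (nat_lit 10) true (nat_lit 7) true (nat_lit 9) true (nat_lit 14) (.s false (nat_lit 1) (nat_lit 11) (nat_lit 7) (nat_lit 7) (nat_lit 1) true (nat_lit 4) true (nat_lit 15) true (nat_lit 7) true (nat_lit 9) true (nat_lit 9) (.s false (nat_lit 2) (nat_lit 12) (nat_lit 7) (nat_lit 7) (nat_lit 1) true (nat_lit 4) true (nat_lit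 15) true (nat_lit 7) true (nat_lit 9) true (nat_lit 9) (.s true (nat_lit 2) (nat_lit 15) (nat_lit 7) (nat_lit 0) (nat_lit 7) false (nat_lit 2) true (nat_lit 9) true (nat_lit 6) true (nat_lit 9) true (nat_lit 16) (.s true (nat_lit 3) (nat_lit 17) (nat_lit 2) (nat_lit 2) (nat_lit 14) true (nat_lit 0) true (nat_lit 6) true (nat_lit 5) true (nat_lit 14) true (nat_lit 14) (.s true (nat_lit 2) (nat_lit 17) (nat_lit 2) (nat_lit 15) (nat_lit 2) true (nat_lit 9) true (nat_lit 14) true (nat_lit 5) true (nat_lit 14) true (nat_lit 6) (.s true (nat_lit 2) (nat_lit 16) (nat_lit 15) (nat_lit 2) (nat_lit 2) true (nat_lit 0) true (nat_lit 14) true (nat_lit 5) true (nat_lit 6) true (nat_lit 14) (.s false (nat_lit 2) (nat_lit 17) (nat_lit 14) (nat_lit 2) (nat_lit 2) true (nat_lit 0) true (nat_lit 14) true (nat_lit 5) true (nat_lit 6) true (nat_lit 14) (.s false (nat_lit 1) (nat_lit 19) (nat_lit 2) (nat_lit 2) (nat_lit 11) true (nat_lit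 1) true (nat_lit 7) true (nat_lit 4) true (nat_lit 14) true (nat_lit 14) (.s true (nat_lit 2) (nat_lit 19) (nat_lit 2) (nat_lit 2) (nat_lit 12) true (nat_lit 1) true (nat_lit 7) true (nat_lit 4) true (nat_lit 14) true (nat_lit 14) (.s false (nat_lit 1) (nat_lit 19) (nat_lit 2) (nat_lit 2) (nat_lit 13) true (nat_lit 1) true (nat_lit 7) true (nat_lit 4) true (nat_lit 14) true (nat_lit 14) (.s false (nat_lit 2) (nat_lit 19) (nat_lit 2) (nat_lit 12) (nat_lit 2) true (nat_lit 9) true (nat_lit 14) true (nat_lit 4) true (nat_lit 14) true (nat_lit 7) (.s false (nat_lit 3) (nat_lit 18) (nat_lit 7) (nat_lit 3) (nat_lit 2) true (nat_lit 3) true (nat_lit 14) true (nat_lit 4) true (nat_lit 9) true (nat_lit 13) (.s true (nat_lit 2) (nat_lit 18) (nat_lit 11) (nat_lit 2) (nat_lit 2) true (nat_lit 1) true (nat_lit 14) true (nat_lit 4) true (nat_lit 7) true (nat_lit 14) (.s false (nat_lit 2) (nat_lit 18) (nat_lit 12) (nat_lit 2)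 (nat_lit 2) true (nat_lit 1) true (nat_lit 14) true (nat_lit 4) true (nat_lit 7) true (nat_lit 14) (.s true (nat_lit 3) (nat_lit 18) (nat_lit 13) (nat_lit 2) (nat_lit 2) true (nat_lit 1) true (nat_lit 14) true (nat_lit 4) true (nat_lit 7) true (nat_lit 14) (.s true (nat_lit 1) (nat_lit 19) (nat_lit 13) (nat_lit 2) (nat_lit 2) true (nat_lit 1) true (nat_lit 14) true (nat_lit 4) true (nat_lit 7) true (nat_lit 14) (.s false (nat_lit 2) (nat_lit 20) (nat_lit 0) (nat_lit 2) (nat_lit 15) true (nat_lit 2) true (nat_lit 6) true (nat_lit 3) true (nat_lit 16) true (nat_lit 14) (.s true (nat_lit 3) (nat_lit 20) (nat_lit 1) (nat_lit 7) (nat_lit 3) true (nat_lit 8) true (nat_lit 13) true (nat_lit 3) true (nat_lit 15) true (nat_lit 9) (.s false (nat_lit 1) (nat_lit 20) (nat_lit 2) (nat_lit 1) (nat_lit 11) true (nat_lit 1) true (nat_lit 7) true (nat_lit 3) true (nat_lit 14) true (nat_lit 15) (.s true (nat_lit 2) (nat_lit 20)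 (nat_lit 2) (nat_lit 1) (nat_lit 13) true (nat_lit 1) true (nat_lit 7) true (nat_lit 3) true (nat_lit 14) true (nat_lit 15) (.s true (nat_lit 2) (nat_lit 20) (nat_lit 2) (nat_lit 2) (nat_lit 8) true (nat_lit 2) true (nat_lit 8) true (nat_lit 3) true (nat_lit 14) true (nat_lit 14) (.s true (nat_lit 1) (nat_lit 20) (nat_lit 2) (nat_lit 3) (nat_lit 6) true (nat_lit 4) true (nat_lit 10) true (nat_lit 3) true (nat_lit 14) true (nat_lit 13) (.s true (nat_lit 1) (nat_lit 20) (nat_lit 2) (nat_lit 13) (nat_lit 1) true (nat_lit 10) true (nat_lit 15) true (nat_lit 3) true (nat_lit 14) true (nat_lit 7) dC2d_i448)))))))))))))))))))))))))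

noncomputable def dC2d_i450 : IL := (.e true (nat_lit 3) (nat_lit 253) (nat_lit 2) (nat_lit 14) (.e false (nat_lit 1) (nat_lit 254) (nat_lit 2) (nat_lit 14) (.e true (nat_lit 3) (nat_lit 257) (nat_lit 2) (nat_lit 14) (.e false (nat_lit 3) (nat_lit 259) (nat_lit 2) (nat_lit 14) (.e true (nat_lit 3) (nat_lit 260) (nat_lit 2) (nat_lit 14) (.e true (nat_lit 3) (nat_lit 261) (nat_lit 2) (nat_lit 14) (.e true (nat_lit 2) (nat_lit 262) (nat_lit 2) (nat_lit 14) (.e false (nat_lit 1) (nat_lit 264) (nat_lit 2) (nat_lit 14) (.e true (nat_lit 3) (nat_lit 269) (nat_lit 2) (nat_lit 14) (.e false (nat_lit 1) (nat_lit 270) (nat_lit 2) (nat_lit 14) (.e true (nat_lit 3) (nat_lit 283) (nat_lit 2) (nat_lit 14) (.e true (nat_lit 1) (nat_lit 266) (nat_lit 2) (nat_lit 14) (.e true (nat_lit 2) (nat_lit 255) (nat_lit 2) (nat_lit 14) (.e true (nat_lit 1) (nat_lit 267) (nat_lit 2) (nat_lit 14) (.e false (nat_lit 3) (nat_lit 274) (nat_lit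 2) (nat_lit 14) (.e false (nat_lit 2) (nat_lit 286) (nat_lit 2) (nat_lit 14) (.e true (nat_lit 2) (nat_lit 282) (nat_lit 2) (nat_lit 14) (.e false (nat_lit 2) (nat_lit 285) (nat_lit 2) (nat_lit 14) (.e true (nat_lit 3) (nat_lit 252) (nat_lit 2) (nat_lit 14) (.e false (nat_lit 1) (nat_lit 256) (nat_lit 2) (nat_lit 14) (.e true (nat_lit 3) (nat_lit 258) (nat_lit 2) (nat_lit 14) (.e false (nat_lit 2) (nat_lit 265) (nat_lit 2) (nat_lit 14) (.e false (nat_lit 1) (nat_lit 279) (nat_lit 2) (nat_lit 14) (.e true (nat_lit 1) (nat_lit 288) (nat_lit 2) (nat_lit 14) (.u (nat_lit 2) (.p (nat_lit 1) (nat_lit 3) (.n (nat_lit 2) (nat_lit 1) (.p (nat_lit 4) (nat_lit 2) (.p (nat_lit 5) (nat_lit 1) (.n (nat_lit 6) (nat_lit 2) (.p (nat_lit 7) (nat_lit 1) (.p (nat_lit 8) (nat_lit 2) (.n (nat_lit 9) (nat_lit 1) (.n (nat_lit 10) (nat_lit 1) (.n (nat_lit 11) (nat_lit 1) (.n (nat_lit 12) (nat_lit 1) (.p (nat_lit 13) (nat_lit 3) (.p (nat_lit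 14) (nat_lit 3) (.p (nat_lit 15) (nat_lit 1) (.p (nat_lit 16) (nat_lit 1) (.p (nat_lit 17) (nat_lit 2) (.p (nat_lit 18) (nat_lit 6) (.n (nat_lit 21) (nat_lit 3) (.n (nat_lit 22) (nat_lit 1) (.p (nat_lit 23) (nat_lit 1) (.p (nat_lit 24) (nat_lit 2) (.p (nat_lit 25) (nat_lit 2) (.n (nat_lit 29) (nat_lit 1) (.n (nat_lit 30) (nat_lit 1) (.n (nat_lit 33) (nat_lit 1) (.p (nat_lit 34) (nat_lit 1) (.p (nat_lit 35) (nat_lit 1) (.p (nat_lit 38) (nat_lit 2) (.p (nat_lit 205) (nat_lit 3) (.n (nat_lit 206) (nat_lit 4) (.p (nat_lit 211) (nat_lit 1) (.n (nat_lit 212) (nat_lit 1) (.n (nat_lit 213) (nat_lit 2) (.n (nat_lit 214) (nat_lit 1) (.n (nat_lit 215) (nat_lit 1) (.n (nat_lit 216) (nat_lit 2) (.p (nat_lit 218) (nat_lit 1) (.p (nat_lit 219) (nat_lit 1) (.p (nat_lit 222) (nat_lit 1) (.p (nat_lit 223) (nat_lit 1) (.p (nat_lit 224) (nat_lit 3) (.p (nat_lit 225) (nat_lit 1) (.n (nat_lit 227) (nat_lit 1) (.n (nat_lit 228) (nat_lit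 1) (.n (nat_lit 229) (nat_lit 1) (.p (nat_lit 241) (nat_lit 1) (.n (nat_lit 245) (nat_lit 1) (.n (nat_lit 246) (nat_lit 1) (.n (nat_lit 249) (nat_lit 1) .z))))))))))))))))))))))))))))))))))))))))))))))))) .nil)))))))))))))))))))))))))

noncomputable def dC2d_i451 : IL := (.s true (nat_lit 3) (nat_lit 73) (nat_lit 2) (nat_lit 2) (nat_lit 2) true (nat_lit 9) true (nat_lit 14) false (nat_lit 3) true (nat_lit 14) true (nat_lit 14) (.e true (nat_lit 3) (nat_lit 138) (nat_lit 7) (nat_lit 9) (.e true (nat_lit 3) (nat_lit 154) (nat_lit 7) (nat_lit 9) (.e true (nat_lit 2) (nat_lit 254) (nat_lit 2) (nat_lit 14) (.e false (nat_lit 2) (nat_lit 258) (nat_lit 2) (nat_lit 14) (.e false (nat_lit 3) (nat_lit 264) (nat_lit 2) (nat_lit 14) (.e true (nat_lit 3) (nat_lit 265) (nat_lit 2) (nat_lit 14) (.e true (nat_lit 3) (nat_lit 272) (nat_lit 2) (nat_lit 14) (.e true (nat_lit 1) (nat_lit 274) (nat_lit 2) (nat_lit 14) (.e true (nat_lit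 1) (nat_lit 285) (nat_lit 2) (nat_lit 14) (.e true (nat_lit 3) (nat_lit 305) (nat_lit 1) (nat_lit 15) (.e true (nat_lit 2) (nat_lit 306) (nat_lit 1) (nat_lit 15) (.e false (nat_lit 2) (nat_lit 307) (nat_lit 1) (nat_lit 15) (.e true (nat_lit 1) (nat_lit 308) (nat_lit 1) (nat_lit 15) (.e false (nat_lit 2) (nat_lit 309) (nat_lit 1) (nat_lit 15) (.e true (nat_lit 3) (nat_lit 310) (nat_lit 1) (nat_lit 15) (.e true (nat_lit 1) (nat_lit 311) (nat_lit 1) (nat_lit 15) (.e true (nat_lit 1) (nat_lit 312) (nat_lit 1) (nat_lit 15) (.e true (nat_lit 1) (nat_lit 313) (nat_lit 1) (nat_lit 15) (.e false (nat_lit 2) (nat_lit 314) (nat_lit 1) (nat_lit 15) (.e false (nat_lit 1) (nat_lit 317) (nat_lit 1) (nat_lit 15) (.e false (nat_lit 1) (nat_lit 322) (nat_lit 1) (nat_lit 15) (.e true (nat_lit 3) (nat_lit 66) (nat_lit 20) (nat_lit 3) (.e true (nat_lit 1) (nat_lit 48) (nat_lit 26) (nat_lit 2) (.u (nat_lit 2) (.n (nat_lit 0) (nat_lit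 2) (.n (nat_lit 1) (nat_lit 1) (.p (nat_lit 2) (nat_lit 2) (.n (nat_lit 3) (nat_lit 1) (.n (nat_lit 4) (nat_lit 2) (.p (nat_lit 5) (nat_lit 2) (.p (nat_lit 6) (nat_lit 1) (.n (nat_lit 8) (nat_lit 1) (.p (nat_lit 9) (nat_lit 2) (.p (nat_lit 11) (nat_lit 2) (.n (nat_lit 12) (nat_lit 1) (.n (nat_lit 13) (nat_lit 1) (.n (nat_lit 14) (nat_lit 1) (.n (nat_lit 15) (nat_lit 1) (.n (nat_lit 16) (nat_lit 1) (.n (nat_lit 17) (nat_lit 1) (.n (nat_lit 18) (nat_lit 1) (.p (nat_lit 19) (nat_lit 3) (.p (nat_lit 21) (nat_lit 2) (.n (nat_lit 23) (nat_lit 1) (.n (nat_lit 27) (nat_lit 1) (.n (nat_lit 34) (nat_lit 1) (.n (nat_lit 38) (nat_lit 2) (.p (nat_lit 78) (nat_lit 1) (.p (nat_lit 129) (nat_lit 1) (.n (nat_lit 130) (nat_lit 1) (.p (nat_lit 131) (nat_lit 1) (.n (nat_lit 204) (nat_lit 1) (.n (nat_lit 205) (nat_lit 1) (.n (nat_lit 206) (nat_lit 3) (.p (nat_lit 207) (nat_lit 1) (.n (nat_lit 209) (nat_lit 1) (.n (nat_lit 210) (nat_lit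 2) (.p (nat_lit 216) (nat_lit 1) (.p (nat_lit 217) (nat_lit 2) (.n (nat_lit 218) (nat_lit 4) (.n (nat_lit 221) (nat_lit 3) (.p (nat_lit 224) (nat_lit 1) (.p (nat_lit 226) (nat_lit 4) (.n (nat_lit 229) (nat_lit 1) (.n (nat_lit 237) (nat_lit 1) (.p (nat_lit 241) (nat_lit 3) (.p (nat_lit 242) (nat_lit 2) (.n (nat_lit 243) (nat_lit 2) (.p (nat_lit 244) (nat_lit 1) (.n (nat_lit 245) (nat_lit 2) (.p (nat_lit 246) (nat_lit 3) (.p (nat_lit 247) (nat_lit 1) (.p (nat_lit 248) (nat_lit 1) (.p (nat_lit 249) (nat_lit 1) (.n (nat_lit 250) (nat_lit 2) (.n (nat_lit 253) (nat_lit 1) (.p (nat_lit 257) (nat_lit 1) (.n (nat_lit 258) (nat_lit 1) .z)))))))))))))))))))))))))))))))))))))))))))))))))))))) .nil)))))))))))))))))))))))))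

noncomputable def dC2d_i452 : IL := (.e true (nat_lit 2) (nat_lit 326) (nat_lit 0) (nat_lit 16) (.e false (nat_lit 3) (nat_lit 327) (nat_lit 0) (nat_lit 16) (.e true (nat_lit 1) (nat_lit 328) (nat_lit 0) (nat_lit 16) (.e false (nat_lit 2) (nat_lit 329) (nat_lit 0) (nat_lit 16) (.e false (nat_lit 3) (nat_lit 330) (nat_lit 0) (nat_lit 16) (.e false (nat_lit 1) (nat_lit 331) (nat_lit 0) (nat_lit 16) (.e true (nat_lit 1) (nat_lit 333) (nat_lit 0) (nat_lit 16) (.e false (nat_lit 3) (nat_lit 283) (nat_lit 2) (nat_lit 14) (.e true (nat_lit 2) (nat_lit 62) (nat_lit 20) (nat_lit 3) (.e false (nat_lit 2) (nat_lit 317) (nat_lit 1) (nat_lit 15) (.e false (nat_lit 1) (nat_lit 318) (nat_lit 1) (nat_lit 15) (.e false (nat_lit 2) (nat_lit 306) (nat_lit 1) (nat_lit 15) (.e false (nat_lit 2) (nat_lit 307) (nat_lit 1) (nat_lit 15) (.e false (nat_lit 3) (nat_lit 314) (nat_lit 1) (nat_lit 15) (.e false (nat_lit 3) (nat_lit 315) (nat_lit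 1) (nat_lit 15) (.e true (nat_lit 3) (nat_lit 308) (nat_lit 1) (nat_lit 15) (.e false (nat_lit 3) (nat_lit 310) (nat_lit 1) (nat_lit 15) (.e false (nat_lit 1) (nat_lit 152) (nat_lit 7) (nat_lit 9) (.e true (nat_lit 3) (nat_lit 72) (nat_lit 20) (nat_lit 3) (.e false (nat_lit 2) (nat_lit 144) (nat_lit 7) (nat_lit 9) (.e false (nat_lit 2) (nat_lit 48) (nat_lit 26) (nat_lit 2) (.e false (nat_lit 1) (nat_lit 311) (nat_lit 1) (nat_lit 15) (.e false (nat_lit 1) (nat_lit 312) (nat_lit 1) (nat_lit 15) (.u (nat_lit 2) (.p (nat_lit 0) (nat_lit 1) (.n (nat_lit 1) (nat_lit 3) (.n (nat_lit 2) (nat_lit 2) (.p (nat_lit 3) (nat_lit 2) (.p (nat_lit 4) (nat_lit 1) (.n (nat_lit 9) (nat_lit 1) (.n (nat_lit 10) (nat_lit 2) (.n (nat_lit 11) (nat_lit 3) (.n (nat_lit 12) (nat_lit 1) (.n (nat_lit 13) (nat_lit 3) (.n (nat_lit 14) (nat_lit 1) (.p (nat_lit 15) (nat_lit 3) (.p (nat_lit 16) (nat_lit 3) (.p (nat_lit 17) (nat_lit 1) (.p (nat_lit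 18) (nat_lit 2) (.p (nat_lit 19) (nat_lit 3) (.p (nat_lit 21) (nat_lit 1) (.n (nat_lit 23) (nat_lit 1) (.p (nat_lit 24) (nat_lit 3) (.n (nat_lit 25) (nat_lit 3) (.p (nat_lit 34) (nat_lit 1) (.n (nat_lit 38) (nat_lit 1) (.n (nat_lit 49) (nat_lit 1) (.p (nat_lit 50) (nat_lit 1) (.p (nat_lit 69) (nat_lit 1) (.p (nat_lit 72) (nat_lit 1) (.p (nat_lit 73) (nat_lit 1) (.n (nat_lit 75) (nat_lit 1) (.p (nat_lit 77) (nat_lit 1) (.p (nat_lit 86) (nat_lit 1) (.p (nat_lit 129) (nat_lit 1) (.n (nat_lit 130) (nat_lit 1) (.n (nat_lit 140) (nat_lit 1) (.n (nat_lit 144) (nat_lit 1) (.n (nat_lit 145) (nat_lit 1) (.p (nat_lit 148) (nat_lit 1) (.n (nat_lit 154) (nat_lit 1) (.p (nat_lit 157) (nat_lit 3) (.p (nat_lit 159) (nat_lit 1) (.n (nat_lit 164) (nat_lit 1) (.p (nat_lit 167) (nat_lit 1) (.n (nat_lit 168) (nat_lit 1) (.p (nat_lit 180) (nat_lit 1) (.n (nat_lit 200) (nat_lit 1) (.p (nat_lit 201) (nat_lit 1) (.n (nat_lit 202) (nat_lit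 1) (.p (nat_lit 203) (nat_lit 1) (.p (nat_lit 204) (nat_lit 4) (.p (nat_lit 205) (nat_lit 1) (.n (nat_lit 206) (nat_lit 2) (.n (nat_lit 207) (nat_lit 3) (.p (nat_lit 208) (nat_lit 1) (.p (nat_lit 209) (nat_lit 6) (.p (nat_lit 210) (nat_lit 1) (.p (nat_lit 211) (nat_lit 1) (.n (nat_lit 212) (nat_lit 1) (.p (nat_lit 215) (nat_lit 1) (.n (nat_lit 216) (nat_lit 1) (.p (nat_lit 218) (nat_lit 1) (.n (nat_lit 219) (nat_lit 2) .z)))))))))))))))))))))))))))))))))))))))))))))))))))))))))))) (.u (nat_lit 2) (.n (nat_lit 224) (nat_lit 6) (.n (nat_lit 225) (nat_lit 3) (.p (nat_lit 229) (nat_lit 5) (.n (nat_lit 230) (nat_lit 1) (.p (nat_lit 241) (nat_lit 4) (.p (nat_lit 242) (nat_lit 3) (.n (nat_lit 243) (nat_lit 6) (.n (nat_lit 244) (nat_lit 6) (.n (nat_lit 245) (nat_lit 3) (.p (nat_lit 246) (nat_lit 2) (.p (nat_lit 248) (nat_lit 1) (.p (nat_lit 249) (nat_lit 4) (.n (nat_lit 250) (nat_lit 1) (.p (nat_lit 251) (nat_lit 1) (.n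 (nat_lit 254) (nat_lit 1) (.p (nat_lit 257) (nat_lit 1) (.n (nat_lit 258) (nat_lit 1) (.n (nat_lit 259) (nat_lit 1) (.n (nat_lit 260) (nat_lit 1) (.p (nat_lit 261) (nat_lit 1) (.p (nat_lit 262) (nat_lit 2) (.n (nat_lit 263) (nat_lit 2) (.n (nat_lit 267) (nat_lit 2) (.p (nat_lit 269) (nat_lit 1) (.p (nat_lit 270) (nat_lit 1) .z))))))))))))))))))))))))) .nil)))))))))))))))))))))))))

noncomputable def dC2d_i453 : IL := (.s true (nat_lit 2) (nat_lit 80) (nat_lit 2) (nat_lit 2) (nat_lit 1) true (nat_lit 10) true (nat_lit 15) false (nat_lit 4) true (nat_lit 14) true (nat_lit 14) (.s true (nat_lit 2) (nat_lit 101) (nat_lit 0) (nat_lit 1) (nat_lit 2) true (nat_lit 11) true (nat_lit 14) false (nat_lit 7) true (nat_lit 16) true (nat_lit 15) (.s true (nat_lit 1) (nat_lit 102) (nat_lit 0) (nat_lit 1) (nat_lit 2) true (nat_lit 11) true (nat_lit 14) false (nat_lit 7) true (nat_lit 16) true (nat_lit 15) (.s true (nat_lit 1)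 (nat_lit 103) (nat_lit 0) (nat_lit 1) (nat_lit 2) true (nat_lit 11) true (nat_lit 14) false (nat_lit 7) true (nat_lit 16) true (nat_lit 15) (.s true (nat_lit 2) (nat_lit 101) (nat_lit 1) (nat_lit 2) (nat_lit 0) true (nat_lit 13) true (nat_lit 16) false (nat_lit 7) true (nat_lit 15) true (nat_lit 14) (.s true (nat_lit 1) (nat_lit 102) (nat_lit 1) (nat_lit 2) (nat_lit 0) true (nat_lit 13) true (nat_lit 16) false (nat_lit 7) true (nat_lit 15) true (nat_lit 14) (.s true (nat_lit 1) (nat_lit 103) (nat_lit 1) (nat_lit 2) (nat_lit 0) true (nat_lit 13) true (nat_lit 16) false (nat_lit 7) true (nat_lit 15) true (nat_lit 14) (.s false (nat_lit 2) (nat_lit 101) (nat_lit 2) (nat_lit 1) (nat_lit 0) true (nat_lit 11) true (nat_lit 16) false (nat_lit 7) true (nat_lit 14) true (nat_lit 15) (.s false (nat_lit 1) (nat_lit 102) (nat_lit 2) (nat_lit 1) (nat_lit 0) true (nat_lit 11) true (nat_lit 16) false (nat_lit 7) true (nat_lit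 14) true (nat_lit 15) (.s false (nat_lit 1) (nat_lit 103) (nat_lit 2) (nat_lit 1) (nat_lit 0) true (nat_lit 11) true (nat_lit 16) false (nat_lit 7) true (nat_lit 14) true (nat_lit 15) (.s true (nat_lit 3) (nat_lit 105) (nat_lit 0) (nat_lit 1) (nat_lit 1) true (nat_lit 13) true (nat_lit 15) false (nat_lit 8) true (nat_lit 16) true (nat_lit 15) (.e false (nat_lit 3) (nat_lit 154) (nat_lit 7) (nat_lit 9) (.e true (nat_lit 1) (nat_lit 254) (nat_lit 2) (nat_lit 14) (.e true (nat_lit 1) (nat_lit 265) (nat_lit 2) (nat_lit 14) (.e true (nat_lit 2) (nat_lit 272) (nat_lit 2) (nat_lit 14) (.e true (nat_lit 2) (nat_lit 274) (nat_lit 2) (nat_lit 14) (.e true (nat_lit 3) (nat_lit 285) (nat_lit 2) (nat_lit 14) (.e true (nat_lit 1) (nat_lit 264) (nat_lit 2) (nat_lit 14) (.e false (nat_lit 1) (nat_lit 258) (nat_lit 2) (nat_lit 14) (.e false (nat_lit 1) (nat_lit 252) (nat_lit 2) (nat_lit 14) (.e false (nat_lit 1) (nat_lit 253)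 (nat_lit 2) (nat_lit 14) (.e true (nat_lit 1) (nat_lit 255) (nat_lit 2) (nat_lit 14) (.e false (nat_lit 1) (nat_lit 257) (nat_lit 2) (nat_lit 14) (.e true (nat_lit 1) (nat_lit 324) (nat_lit 0) (nat_lit 16) (.e true (nat_lit 2) (nat_lit 325) (nat_lit 0) (nat_lit 16) dC2d_i452)))))))))))))))))))))))))

noncomputable def dC2d_i454 : IL := (.s true (nat_lit 1) (nat_lit 25) (nat_lit 2) (nat_lit 2) (nat_lit 7) true (nat_lit 3) true (nat_lit 9) true (nat_lit 2) true (nat_lit 14) true (nat_lit 14) (.s true (nat_lit 3) (nat_lit 27) (nat_lit 2) (nat_lit 2) (nat_lit 7) true (nat_lit 3) true (nat_lit 9) true (nat_lit 2) true (nat_lit 14) true (nat_lit 14) (.s true (nat_lit 1) (nat_lit 29) (nat_lit 2) (nat_lit 2) (nat_lit 7) true (nat_lit 3) true (nat_lit 9) true (nat_lit 2) true (nat_lit 14) true (nat_lit 14) (.s true (nat_lit 3) (nat_lit 27) (nat_lit 2) (nat_lit 7) (nat_lit 2) true (nat_lit 9) true (nat_lit 14) true (nat_lit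 2) true (nat_lit 14) true (nat_lit 9) (.s false (nat_lit 3) (nat_lit 27) (nat_lit 7) (nat_lit 2) (nat_lit 2) true (nat_lit 3) true (nat_lit 14) true (nat_lit 2) true (nat_lit 9) true (nat_lit 14) (.s false (nat_lit 2) (nat_lit 33) (nat_lit 1) (nat_lit 2) (nat_lit 7) true (nat_lit 4) true (nat_lit 9) true (nat_lit 1) true (nat_lit 15) true (nat_lit 14) (.s true (nat_lit 2) (nat_lit 33) (nat_lit 2) (nat_lit 2) (nat_lit 6) true (nat_lit 4) true (nat_lit 10) true (nat_lit 1) true (nat_lit 14) true (nat_lit 14) (.s true (nat_lit 3) (nat_lit 33) (nat_lit 2) (nat_lit 7) (nat_lit 1) true (nat_lit 10) true (nat_lit 15) true (nat_lit 1) true (nat_lit 14) true (nat_lit 9) (.s false (nat_lit 1) (nat_lit 33) (nat_lit 6) (nat_lit 2) (nat_lit 2) true (nat_lit 4) true (nat_lit 14) true (nat_lit 1) true (nat_lit 10) true (nat_lit 14) (.s true (nat_lit 2) (nat_lit 45) (nat_lit 2) (nat_lit 3) (nat_lit 2) true (nat_lit 9) true (nat_lit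 14) false (nat_lit 1) true (nat_lit 14) true (nat_lit 13) (.s false (nat_lit 2) (nat_lit 46) (nat_lit 2) (nat_lit 3) (nat_lit 2) true (nat_lit 9) true (nat_lit 14) false (nat_lit 1) true (nat_lit 14) true (nat_lit 13) (.s false (nat_lit 2) (nat_lit 46) (nat_lit 3) (nat_lit 2) (nat_lit 2) true (nat_lit 7) true (nat_lit 14) false (nat_lit 1) true (nat_lit 13) true (nat_lit 14) (.s false (nat_lit 1) (nat_lit 47) (nat_lit 3) (nat_lit 2) (nat_lit 2) true (nat_lit 7) true (nat_lit 14) false (nat_lit 1) true (nat_lit 13) true (nat_lit 14) (.s true (nat_lit 1) (nat_lit 48) (nat_lit 3) (nat_lit 1) (nat_lit 2) true (nat_lit 7) true (nat_lit 14) false (nat_lit 2) true (nat_lit 13) true (nat_lit 15) (.s true (nat_lit 3) (nat_lit 48) (nat_lit 3) (nat_lit 2) (nat_lit 1) true (nat_lit 8) true (nat_lit 15) false (nat_lit 2) true (nat_lit 13) true (nat_lit 14) (.s false (nat_lit 1) (nat_lit 66) (nat_lit 2) (nat_lit 2) (nat_lit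 2) true (nat_lit 9) true (nat_lit 14) false (nat_lit 3) true (nat_lit 14) true (nat_lit 14) (.s false (nat_lit 2) (nat_lit 73) (nat_lit 2) (nat_lit 2) (nat_lit 2) true (nat_lit 9) true (nat_lit 14) false (nat_lit 3) true (nat_lit 14) true (nat_lit 14) (.s true (nat_lit 3) (nat_lit 80) (nat_lit 1) (nat_lit 2) (nat_lit 2) true (nat_lit 10) true (nat_lit 14) false (nat_lit 4) true (nat_lit 15) true (nat_lit 14) (.s true (nat_lit 3) (nat_lit 81) (nat_lit 1) (nat_lit 2) (nat_lit 2) true (nat_lit 10) true (nat_lit 14) false (nat_lit 4) true (nat_lit 15) true (nat_lit 14) (.s false (nat_lit 3) (nat_lit 82) (nat_lit 1) (nat_lit 2) (nat_lit 2) true (nat_lit 10) true (nat_lit 14) false (nat_lit 4) true (nat_lit 15) true (nat_lit 14) (.s false (nat_lit 3) (nat_lit 83) (nat_lit 1) (nat_lit 2) (nat_lit 2) true (nat_lit 10) true (nat_lit 14) false (nat_lit 4) true (nat_lit 15) true (nat_lit 14) (.s false (nat_lit 3) (nat_lit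 85) (nat_lit 1) (nat_lit 2) (nat_lit 2) true (nat_lit 10) true (nat_lit 14) false (nat_lit 4) true (nat_lit 15) true (nat_lit 14) (.s true (nat_lit 1) (nat_lit 88) (nat_lit 1) (nat_lit 2) (nat_lit 2) true (nat_lit 10) true (nat_lit 14) false (nat_lit 4) true (nat_lit 15) true (nat_lit 14) (.s true (nat_lit 2) (nat_lit 80) (nat_lit 2) (nat_lit 1) (nat_lit 2) true (nat_lit 9) true (nat_lit 14) false (nat_lit 4) true (nat_lit 14) true (nat_lit 15) (.s true (nat_lit 1) (nat_lit 88) (nat_lit 2) (nat_lit 1) (nat_lit 2) true (nat_lit 9) true (nat_lit 14) false (nat_lit 4) true (nat_lit 14) true (nat_lit 15) dC2d_i453)))))))))))))))))))))))))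

noncomputable def dC2d_i455 : IL := (.e true (nat_lit 3) (nat_lit 102) (nat_lit 11) (nat_lit 7) (.e true (nat_lit 1) (nat_lit 104) (nat_lit 11) (nat_lit 7) (.e false (nat_lit 1) (nat_lit 48) (nat_lit 24) (nat_lit 2) (.e false (nat_lit 3) (nat_lit 305) (nat_lit 1) (nat_lit 15) (.e false (nat_lit 1) (nat_lit 307) (nat_lit 1) (nat_lit 15) (.e false (nat_lit 3) (nat_lit 308) (nat_lit 1) (nat_lit 15) (.e false (nat_lit 2) (nat_lit 309) (nat_lit 1) (nat_lit 15) (.e true (nat_lit 1) (nat_lit 310) (nat_lit 1) (nat_lit 15) (.e false (nat_lit 1) (nat_lit 311) (nat_lit 1) (nat_lit 15) (.e false (nat_lit 1) (nat_lit 312) (nat_lit 1) (nat_lit 15) (.e false (nat_lit 1) (nat_lit 313) (nat_lit 1) (nat_lit 15) (.e true (nat_lit 2) (nat_lit 314) (nat_lit 1) (nat_lit 15) (.e true (nat_lit 2) (nat_lit 321) (nat_lit 1) (nat_lit 15) (.e false (nat_lit 3) (nat_lit 146) (nat_lit 7) (nat_lit 9) (.e true (nat_lit 3) (nat_lit 80) (nat_lit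 19) (nat_lit 4) (.e true (nat_lit 1) (nat_lit 324) (nat_lit 0) (nat_lit 16) (.e false (nat_lit 1) (nat_lit 325) (nat_lit 0) (nat_lit 16) (.e false (nat_lit 3) (nat_lit 326) (nat_lit 0) (nat_lit 16) (.e true (nat_lit 1) (nat_lit 327) (nat_lit 0) (nat_lit 16) (.e false (nat_lit 3) (nat_lit 328) (nat_lit 0) (nat_lit 16) (.e true (nat_lit 1) (nat_lit 330) (nat_lit 0) (nat_lit 16) (.e false (nat_lit 2) (nat_lit 103) (nat_lit 11) (nat_lit 7) (.e false (nat_lit 3) (nat_lit 331) (nat_lit 0) (nat_lit 16) (.u (nat_lit 2) (.n (nat_lit 0) (nat_lit 4) (.p (nat_lit 1) (nat_lit 1) (.p (nat_lit 2) (nat_lit 2) (.n (nat_lit 4) (nat_lit 1) (.n (nat_lit 5) (nat_lit 1) (.p (nat_lit 6) (nat_lit 3) (.p (nat_lit 7) (nat_lit 5) (.p (nat_lit 8) (nat_lit 2) (.p (nat_lit 9) (nat_lit 6) (.n (nat_lit 10) (nat_lit 4) (.p (nat_lit 11) (nat_lit 3) (.n (nat_lit 12) (nat_lit 1) (.p (nat_lit 13) (nat_lit 1) (.n (nat_lit 14) (nat_lit 1) (.n (nat_lit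 15) (nat_lit 7) (.n (nat_lit 16) (nat_lit 7) (.p (nat_lit 17) (nat_lit 3) (.p (nat_lit 18) (nat_lit 1) (.p (nat_lit 19) (nat_lit 3) (.p (nat_lit 23) (nat_lit 2) (.p (nat_lit 24) (nat_lit 2) (.p (nat_lit 25) (nat_lit 2) (.p (nat_lit 26) (nat_lit 1) (.n (nat_lit 29) (nat_lit 1) (.p (nat_lit 30) (nat_lit 1) (.n (nat_lit 34) (nat_lit 6) (.n (nat_lit 35) (nat_lit 1) (.n (nat_lit 38) (nat_lit 1) (.p (nat_lit 53) (nat_lit 1) (.n (nat_lit 56) (nat_lit 1) (.p (nat_lit 106) (nat_lit 1) (.p (nat_lit 135) (nat_lit 1) (.p (nat_lit 137) (nat_lit 1) (.n (nat_lit 138) (nat_lit 1) (.p (nat_lit 145) (nat_lit 2) (.p (nat_lit 150) (nat_lit 1) (.p (nat_lit 165) (nat_lit 1) (.n (nat_lit 177) (nat_lit 1) (.p (nat_lit 181) (nat_lit 1) (.n (nat_lit 182) (nat_lit 1) (.n (nat_lit 200) (nat_lit 1) (.p (nat_lit 201) (nat_lit 1) (.n (nat_lit 204) (nat_lit 3) (.p (nat_lit 205) (nat_lit 4) (.n (nat_lit 206) (nat_lit 5) (.n (nat_lit 207) (nat_lit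 11) (.n (nat_lit 208) (nat_lit 4) (.n (nat_lit 209) (nat_lit 1) (.p (nat_lit 211) (nat_lit 7) (.n (nat_lit 212) (nat_lit 9) (.p (nat_lit 213) (nat_lit 3) (.p (nat_lit 214) (nat_lit 7) (.n (nat_lit 215) (nat_lit 5) (.n (nat_lit 216) (nat_lit 6) (.n (nat_lit 217) (nat_lit 1) (.p (nat_lit 218) (nat_lit 10) (.p (nat_lit 219) (nat_lit 4) (.p (nat_lit 221) (nat_lit 1) (.n (nat_lit 222) (nat_lit 2) (.p (nat_lit 224) (nat_lit 11) .z)))))))))))))))))))))))))))))))))))))))))))))))))))))))))))) (.u (nat_lit 2) (.p (nat_lit 225) (nat_lit 3) (.n (nat_lit 226) (nat_lit 4) (.n (nat_lit 227) (nat_lit 5) (.p (nat_lit 229) (nat_lit 1) (.p (nat_lit 230) (nat_lit 1) (.p (nat_lit 231) (nat_lit 1) (.p (nat_lit 232) (nat_lit 2) (.n (nat_lit 235) (nat_lit 3) (.p (nat_lit 237) (nat_lit 5) (.n (nat_lit 238) (nat_lit 2) (.n (nat_lit 240) (nat_lit 1) (.p (nat_lit 241) (nat_lit 3) (.p (nat_lit 242) (nat_lit 3) (.n (nat_lit 243) (nat_lit 3)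 (.n (nat_lit 244) (nat_lit 4) (.n (nat_lit 245) (nat_lit 4) (.n (nat_lit 246) (nat_lit 3) (.p (nat_lit 248) (nat_lit 2) (.n (nat_lit 249) (nat_lit 3) (.p (nat_lit 250) (nat_lit 2) (.p (nat_lit 251) (nat_lit 6) (.p (nat_lit 252) (nat_lit 2) (.n (nat_lit 253) (nat_lit 2) (.p (nat_lit 256) (nat_lit 1) (.p (nat_lit 257) (nat_lit 1) (.n (nat_lit 258) (nat_lit 1) (.p (nat_lit 259) (nat_lit 1) (.n (nat_lit 260) (nat_lit 1) (.p (nat_lit 261) (nat_lit 2) (.p (nat_lit 262) (nat_lit 2) (.n (nat_lit 263) (nat_lit 3) (.n (nat_lit 265) (nat_lit 1) (.p (nat_lit 266) (nat_lit 2) (.n (nat_lit 267) (nat_lit 2) .z)))))))))))))))))))))))))))))))))) .nil)))))))))))))))))))))))))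

noncomputable def dC2d_i456 : IL := (.e false (nat_lit 3) (nat_lit 253) (nat_lit 2) (nat_lit 14) (.e false (nat_lit 3) (nat_lit 254) (nat_lit 2) (nat_lit 14) (.e false (nat_lit 1) (nat_lit 255) (nat_lit 2) (nat_lit 14) (.e false (nat_lit 3) (nat_lit 258) (nat_lit 2) (nat_lit 14) (.e false (nat_lit 2) (nat_lit 259) (nat_lit 2) (nat_lit 14) (.e true (nat_lit 3) (nat_lit 261) (nat_lit 2) (nat_lit 14) (.e true (nat_lit 1) (nat_lit 262) (nat_lit 2) (nat_lit 14) (.e false (nat_lit 2) (nat_lit 263) (nat_lit 2) (nat_lit 14) (.e false (nat_lit 1) (nat_lit 264) (nat_lit 2) (nat_lit 14) (.e false (nat_lit 1) (nat_lit 265) (nat_lit 2) (nat_lit 14) (.e false (nat_lit 2) (nat_lit 267) (nat_lit 2) (nat_lit 14) (.e false (nat_lit 2) (nat_lit 269) (nat_lit 2) (nat_lit 14) (.e true (nat_lit 1) (nat_lit 270) (nat_lit 2) (nat_lit 14) (.e false (nat_lit 2) (nat_lit 273) (nat_lit 2) (nat_lit 14) (.e false (nat_lit 2) (nat_lit 274)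 (nat_lit 2) (nat_lit 14) (.e false (nat_lit 2) (nat_lit 275) (nat_lit 2) (nat_lit 14) (.e false (nat_lit 3) (nat_lit 277) (nat_lit 2) (nat_lit 14) (.e false (nat_lit 2) (nat_lit 317) (nat_lit 1) (nat_lit 15) (.e false (nat_lit 1) (nat_lit 88) (nat_lit 18) (nat_lit 4) (.e false (nat_lit 1) (nat_lit 266) (nat_lit 2) (nat_lit 14) (.e false (nat_lit 1) (nat_lit 285) (nat_lit 2) (nat_lit 14) (.e false (nat_lit 2) (nat_lit 284) (nat_lit 2) (nat_lit 14) (.e false (nat_lit 3) (nat_lit 322) (nat_lit 1) (nat_lit 15) (.e true (nat_lit 3) (nat_lit 318) (nat_lit 1) (nat_lit 15) (.e false (nat_lit 1) (nat_lit 136) (nat_lit 7) (nat_lit 9) dC2d_i455)))))))))))))))))))))))))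

noncomputable def dC2d_i457 : IL := (.s true (nat_lit 3) (nat_lit 34) (nat_lit 2) (nat_lit 7) (nat_lit 1) true (nat_lit 10) true (nat_lit 15) true (nat_lit 1) true (nat_lit 14) true (nat_lit 9) (.s false (nat_lit 3) (nat_lit 35) (nat_lit 2) (nat_lit 7) (nat_lit 1) true (nat_lit 10) true (nat_lit 15) true (nat_lit 1) true (nat_lit 14) true (nat_lit 9) (.s false (nat_lit 3) (nat_lit 34) (nat_lit 6) (nat_lit 2) (nat_lit 2) true (nat_lit 4) true (nat_lit 14) true (nat_lit 1) true (nat_lit 10) true (nat_lit 14) (.s false (nat_lit 3) (nat_lit 35) (nat_lit 6) (nat_lit 2) (nat_lit 2) true (nat_lit 4) true (nat_lit 14) true (nat_lit 1) true (nat_lit 10) true (nat_lit 14) (.s false (nat_lit 1) (nat_lit 45) (nat_lit 3) (nat_lit 2) (nat_lit 2) true (nat_lit 7) true (nat_lit 14) false (nat_lit 1) true (nat_lit 13) true (nat_lit 14) (.s true (nat_lit 1) (nat_lit 48) (nat_lit 3) (nat_lit 1) (nat_lit 2) true (nat_lit 7) true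 (nat_lit 14) false (nat_lit 2) true (nat_lit 13) true (nat_lit 15) (.s false (nat_lit 3) (nat_lit 68) (nat_lit 2) (nat_lit 2) (nat_lit 2) true (nat_lit 9) true (nat_lit 14) false (nat_lit 3) true (nat_lit 14) true (nat_lit 14) (.s true (nat_lit 3) (nat_lit 80) (nat_lit 1) (nat_lit 2) (nat_lit 2) true (nat_lit 10) true (nat_lit 14) false (nat_lit 4) true (nat_lit 15) true (nat_lit 14) (.s false (nat_lit 1) (nat_lit 81) (nat_lit 1) (nat_lit 2) (nat_lit 2) true (nat_lit 10) true (nat_lit 14) false (nat_lit 4) true (nat_lit 15) true (nat_lit 14) (.s true (nat_lit 1) (nat_lit 82) (nat_lit 1) (nat_lit 2) (nat_lit 2) true (nat_lit 10) true (nat_lit 14) false (nat_lit 4) true (nat_lit 15) true (nat_lit 14) (.s false (nat_lit 3) (nat_lit 80) (nat_lit 2) (nat_lit 1) (nat_lit 2) true (nat_lit 9) true (nat_lit 14) false (nat_lit 4) true (nat_lit 14) true (nat_lit 15) (.s true (nat_lit 3) (nat_lit 89) (nat_lit 2) (nat_lit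 1) (nat_lit 2) true (nat_lit 9) true (nat_lit 14) false (nat_lit 4) true (nat_lit 14) true (nat_lit 15) (.s false (nat_lit 3) (nat_lit 80) (nat_lit 2) (nat_lit 2) (nat_lit 1) true (nat_lit 10) true (nat_lit 15) false (nat_lit 4) true (nat_lit 14) true (nat_lit 14) (.s true (nat_lit 3) (nat_lit 89) (nat_lit 2) (nat_lit 2) (nat_lit 1) true (nat_lit 10) true (nat_lit 15) false (nat_lit 4) true (nat_lit 14) true (nat_lit 14) (.s true (nat_lit 1) (nat_lit 90) (nat_lit 2) (nat_lit 2) (nat_lit 1) true (nat_lit 10) true (nat_lit 15) false (nat_lit 4) true (nat_lit 14) true (nat_lit 14) (.s true (nat_lit 2) (nat_lit 102) (nat_lit 0) (nat_lit 1) (nat_lit 2) true (nat_lit 11) true (nat_lit 14) false (nat_lit 7) true (nat_lit 16) true (nat_lit 15) (.s false (nat_lit 2) (nat_lit 103) (nat_lit 0) (nat_lit 1) (nat_lit 2) true (nat_lit 11) true (nat_lit 14) false (nat_lit 7) true (nat_lit 16) true (nat_lit 15) (.s false (nat_lit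 3) (nat_lit 104) (nat_lit 0) (nat_lit 2) (nat_lit 1) true (nat_lit 13) true (nat_lit 15) false (nat_lit 7) true (nat_lit 16) true (nat_lit 14) (.s true (nat_lit 3) (nat_lit 102) (nat_lit 1) (nat_lit 2) (nat_lit 0) true (nat_lit 13) true (nat_lit 16) false (nat_lit 7) true (nat_lit 15) true (nat_lit 14) (.s false (nat_lit 3) (nat_lit 103) (nat_lit 1) (nat_lit 2) (nat_lit 0) true (nat_lit 13) true (nat_lit 16) false (nat_lit 7) true (nat_lit 15) true (nat_lit 14) (.s false (nat_lit 2) (nat_lit 104) (nat_lit 1) (nat_lit 2) (nat_lit 0) true (nat_lit 13) true (nat_lit 16) false (nat_lit 7) true (nat_lit 15) true (nat_lit 14) (.s false (nat_lit 2) (nat_lit 102) (nat_lit 2) (nat_lit 1) (nat_lit 0) true (nat_lit 11) true (nat_lit 16) false (nat_lit 7) true (nat_lit 14) true (nat_lit 15) (.s true (nat_lit 2) (nat_lit 103) (nat_lit 2) (nat_lit 1) (nat_lit 0) true (nat_lit 11) true (nat_lit 16) false (nat_lit 7) true (nat_lit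 14) true (nat_lit 15) (.e true (nat_lit 1) (nat_lit 140) (nat_lit 7) (nat_lit 9) (.e false (nat_lit 2) (nat_lit 252) (nat_lit 2) (nat_lit 14) dC2d_i456)))))))))))))))))))))))))

noncomputable def dC2d_i458 : IL := (.e true (nat_lit 1) (nat_lit 293) (nat_lit 2) (nat_lit 9) (.e true (nat_lit 3) (nat_lit 294) (nat_lit 2) (nat_lit 9) (.e true (nat_lit 1) (nat_lit 295) (nat_lit 2) (nat_lit 9) (.e true (nat_lit 2) (nat_lit 296) (nat_lit 2) (nat_lit 9) (.e true (nat_lit 3) (nat_lit 299) (nat_lit 2) (nat_lit 9) (.e false (nat_lit 1) (nat_lit 303) (nat_lit 2) (nat_lit 9) (.e true (nat_lit 2) (nat_lit 304) (nat_lit 2) (nat_lit 9) (.e false (nat_lit 1) (nat_lit 96) (nat_lit 19) (nat_lit 3) (.e true (nat_lit 2) (nat_lit 297) (nat_lit 2) (nat_lit 9) (.e false (nat_lit 1) (nat_lit 300) (nat_lit 2) (nat_lit 9) (.e true (nat_lit 3) (nat_lit 301) (nat_lit 2) (nat_lit 9) (.e true (nat_lit 3) (nat_lit 204) (nat_lit 4) (nat_lit 8)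 (.e true (nat_lit 1) (nat_lit 92) (nat_lit 18) (nat_lit 3) (.e false (nat_lit 2) (nat_lit 163) (nat_lit 7) (nat_lit 6) (.e false (nat_lit 3) (nat_lit 162) (nat_lit 7) (nat_lit 6) (.e true (nat_lit 2) (nat_lit 78) (nat_lit 20) (nat_lit 2) (.e true (nat_lit 2) (nat_lit 79) (nat_lit 20) (nat_lit 2) (.e true (nat_lit 2) (nat_lit 324) (nat_lit 1) (nat_lit 10) (.e false (nat_lit 1) (nat_lit 325) (nat_lit 1) (nat_lit 10) (.e false (nat_lit 2) (nat_lit 329) (nat_lit 1) (nat_lit 10) (.e false (nat_lit 3) (nat_lit 330) (nat_lit 1) (nat_lit 10) (.e true (nat_lit 2) (nat_lit 331) (nat_lit 1) (nat_lit 10) (.e true (nat_lit 1) (nat_lit 190) (nat_lit 6) (nat_lit 7) (.e false (nat_lit 1) (nat_lit 334) (nat_lit 1) (nat_lit 10) (.u (nat_lit 2) (.n (nat_lit 1) (nat_lit 1) (.p (nat_lit 2) (nat_lit 3) (.p (nat_lit 3) (nat_lit 6) (.n (nat_lit 4) (nat_lit 3) (.n (nat_lit 5) (nat_lit 2) (.p (nat_lit 6) (nat_lit 2) (.n (nat_lit 7) (nat_lit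 3) (.p (nat_lit 8) (nat_lit 2) (.p (nat_lit 9) (nat_lit 2) (.n (nat_lit 11) (nat_lit 1) (.p (nat_lit 12) (nat_lit 2) (.n (nat_lit 14) (nat_lit 2) (.p (nat_lit 15) (nat_lit 1) (.n (nat_lit 27) (nat_lit 1) (.n (nat_lit 28) (nat_lit 1) (.p (nat_lit 29) (nat_lit 1) (.n (nat_lit 30) (nat_lit 1) (.n (nat_lit 31) (nat_lit 1) (.n (nat_lit 32) (nat_lit 1) (.p (nat_lit 34) (nat_lit 1) (.n (nat_lit 35) (nat_lit 1) (.p (nat_lit 38) (nat_lit 1) (.p (nat_lit 45) (nat_lit 1) (.n (nat_lit 48) (nat_lit 1) (.n (nat_lit 54) (nat_lit 1) (.p (nat_lit 57) (nat_lit 1) (.n (nat_lit 59) (nat_lit 1) (.n (nat_lit 60) (nat_lit 1) (.p (nat_lit 61) (nat_lit 1) (.n (nat_lit 64) (nat_lit 1) (.n (nat_lit 80) (nat_lit 2) (.p (nat_lit 81) (nat_lit 3) (.p (nat_lit 82) (nat_lit 6) (.p (nat_lit 83) (nat_lit 2) (.n (nat_lit 84) (nat_lit 5) (.n (nat_lit 85) (nat_lit 3) (.p (nat_lit 87) (nat_lit 7) (.n (nat_lit 88) (nat_lit 1) (.n (nat_lit 89) (nat_lit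 2) (.p (nat_lit 90) (nat_lit 1) (.p (nat_lit 91) (nat_lit 2) (.n (nat_lit 94) (nat_lit 1) (.n (nat_lit 95) (nat_lit 1) (.p (nat_lit 96) (nat_lit 2) (.n (nat_lit 97) (nat_lit 1) (.n (nat_lit 101) (nat_lit 3) (.n (nat_lit 102) (nat_lit 3) (.n (nat_lit 103) (nat_lit 4) .z)))))))))))))))))))))))))))))))))))))))))))))))) .nil)))))))))))))))))))))))))

noncomputable def dC2d_i459 : IL := (.e false (nat_lit 3) (nat_lit 298) (nat_lit 2) (nat_lit 9) (.e false (nat_lit 2) (nat_lit 300) (nat_lit 2) (nat_lit 9) (.e true (nat_lit 3) (nat_lit 301) (nat_lit 2) (nat_lit 9) (.e true (nat_lit 2) (nat_lit 303) (nat_lit 2) (nat_lit 9) (.e false (nat_lit 2) (nat_lit 304) (nat_lit 2) (nat_lit 9) (.e true (nat_lit 2) (nat_lit 299) (nat_lit 2) (nat_lit 9) (.e false (nat_lit 1) (nat_lit 190) (nat_lit 6) (nat_lit 7) (.e true (nat_lit 2) (nat_lit 329) (nat_lit 1) (nat_lit 10) (.e true (nat_lit 1) (nat_lit 334) (nat_lit 1) (nat_lit 10) (.e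 false (nat_lit 1) (nat_lit 104) (nat_lit 14) (nat_lit 4) (.e true (nat_lit 3) (nat_lit 160) (nat_lit 7) (nat_lit 6) (.e true (nat_lit 3) (nat_lit 162) (nat_lit 7) (nat_lit 6) (.e true (nat_lit 3) (nat_lit 164) (nat_lit 7) (nat_lit 6) (.e false (nat_lit 3) (nat_lit 168) (nat_lit 7) (nat_lit 6) (.e false (nat_lit 2) (nat_lit 76) (nat_lit 20) (nat_lit 2) (.e false (nat_lit 1) (nat_lit 78) (nat_lit 20) (nat_lit 2) (.e false (nat_lit 2) (nat_lit 324) (nat_lit 1) (nat_lit 10) (.e true (nat_lit 1) (nat_lit 325) (nat_lit 1) (nat_lit 10) (.e true (nat_lit 2) (nat_lit 330) (nat_lit 1) (nat_lit 10) (.e false (nat_lit 3) (nat_lit 331) (nat_lit 1) (nat_lit 10) (.e true (nat_lit 1) (nat_lit 165) (nat_lit 7) (nat_lit 6) (.e false (nat_lit 1) (nat_lit 166) (nat_lit 7) (nat_lit 6) (.e false (nat_lit 3) (nat_lit 204) (nat_lit 4) (nat_lit 8) (.e true (nat_lit 1) (nat_lit 326) (nat_lit 1) (nat_lit 10) (.u (nat_lit 2) (.p (nat_lit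 0) (nat_lit 2) (.p (nat_lit 1) (nat_lit 1) (.n (nat_lit 2) (nat_lit 1) (.n (nat_lit 3) (nat_lit 4) (.p (nat_lit 4) (nat_lit 3) (.p (nat_lit 7) (nat_lit 3) (.p (nat_lit 9) (nat_lit 1) (.p (nat_lit 11) (nat_lit 1) (.n (nat_lit 12) (nat_lit 2) (.p (nat_lit 13) (nat_lit 1) (.p (nat_lit 14) (nat_lit 3) (.p (nat_lit 16) (nat_lit 1) (.p (nat_lit 46) (nat_lit 1) (.p (nat_lit 54) (nat_lit 1) (.p (nat_lit 56) (nat_lit 1) (.n (nat_lit 57) (nat_lit 1) (.n (nat_lit 58) (nat_lit 1) (.p (nat_lit 59) (nat_lit 1) (.p (nat_lit 60) (nat_lit 1) (.p (nat_lit 76) (nat_lit 1) (.n (nat_lit 77) (nat_lit 1) (.n (nat_lit 80) (nat_lit 5) (.n (nat_lit 81) (nat_lit 2) (.p (nat_lit 82) (nat_lit 1) (.n (nat_lit 85) (nat_lit 2) (.p (nat_lit 86) (nat_lit 2) (.n (nat_lit 87) (nat_lit 5) (.p (nat_lit 88) (nat_lit 2) (.p (nat_lit 89) (nat_lit 1) (.p (nat_lit 90) (nat_lit 1) (.n (nat_lit 92) (nat_lit 1) (.n (nat_lit 94) (nat_lit 2) (.p (nat_lit 95)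 (nat_lit 3) (.n (nat_lit 98) (nat_lit 1) (.p (nat_lit 99) (nat_lit 1) .z))))))))))))))))))))))))))))))))))) .nil)))))))))))))))))))))))))

noncomputable def dC2d_i460 : IL := (.s true (nat_lit 3) (nat_lit 20) (nat_lit 6) (nat_lit 2) (nat_lit 4) true (nat_lit 1) true (nat_lit 8) true (nat_lit 2) true (nat_lit 7) true (nat_lit 9) (.s true (nat_lit 3) (nat_lit 20) (nat_lit 10) (nat_lit 2) (nat_lit 2) true (nat_lit 1) true (nat_lit 9) true (nat_lit 2) true (nat_lit 5) true (nat_lit 9) (.s true (nat_lit 3) (nat_lit 39) (nat_lit 2) (nat_lit 7) (nat_lit 1) true (nat_lit 7) true (nat_lit 10) true (nat_lit 0) true (nat_lit 9) true (nat_lit 6) (.s true (nat_lit 3) (nat_lit 47) (nat_lit 2) (nat_lit 4) (nat_lit 2) true (nat_lit 6) true (nat_lit 9) false (nat_lit 0) true (nat_lit 9) true (nat_lit 8) (.s false (nat_lit 3) (nat_lit 48) (nat_lit 1) (nat_lit 2) (nat_lit 4) true (nat_lit 5) true (nat_lit 8) false (nat_lit 1) true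 (nat_lit 10) true (nat_lit 9) (.s false (nat_lit 3) (nat_lit 77) (nat_lit 2) (nat_lit 2) (nat_lit 2) true (nat_lit 6) true (nat_lit 9) false (nat_lit 2) true (nat_lit 9) true (nat_lit 9) (.s true (nat_lit 3) (nat_lit 96) (nat_lit 2) (nat_lit 2) (nat_lit 1) true (nat_lit 7) true (nat_lit 10) false (nat_lit 3) true (nat_lit 9) true (nat_lit 9) (.e true (nat_lit 3) (nat_lit 163) (nat_lit 7) (nat_lit 6) (.e true (nat_lit 1) (nat_lit 164) (nat_lit 7) (nat_lit 6) (.e false (nat_lit 1) (nat_lit 165) (nat_lit 7) (nat_lit 6) (.e true (nat_lit 3) (nat_lit 167) (nat_lit 7) (nat_lit 6) (.e true (nat_lit 2) (nat_lit 298) (nat_lit 2) (nat_lit 9) (.e false (nat_lit 3) (nat_lit 303) (nat_lit 2) (nat_lit 9) (.e false (nat_lit 2) (nat_lit 294) (nat_lit 2) (nat_lit 9) (.e true (nat_lit 1) (nat_lit 289) (nat_lit 2) (nat_lit 9) (.e false (nat_lit 3) (nat_lit 290) (nat_lit 2) (nat_lit 9) (.e true (nat_lit 2) (nat_lit 291) (nat_lit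 2) (nat_lit 9) (.e true (nat_lit 2) (nat_lit 292) (nat_lit 2) (nat_lit 9) (.e false (nat_lit 3) (nat_lit 293) (nat_lit 2) (nat_lit 9) (.e false (nat_lit 3) (nat_lit 295) (nat_lit 2) (nat_lit 9) (.e true (nat_lit 2) (nat_lit 304) (nat_lit 2) (nat_lit 9) (.e false (nat_lit 3) (nat_lit 296) (nat_lit 2) (nat_lit 9) (.e true (nat_lit 1) (nat_lit 297) (nat_lit 2) (nat_lit 9) (.e false (nat_lit 1) (nat_lit 334) (nat_lit 1) (nat_lit 10) (.u (nat_lit 2) (.p (nat_lit 1) (nat_lit 1) (.n (nat_lit 2) (nat_lit 1) (.p (nat_lit 5) (nat_lit 2) (.p (nat_lit 6) (nat_lit 1) (.n (nat_lit 7) (nat_lit 1) (.n (nat_lit 8) (nat_lit 2) (.p (nat_lit 60) (nat_lit 1) (.n (nat_lit 61) (nat_lit 1) (.p (nat_lit 80) (nat_lit 4) (.n (nat_lit 81) (nat_lit 3) (.n (nat_lit 82) (nat_lit 4) (.p (nat_lit 83) (nat_lit 5) (.n (nat_lit 84) (nat_lit 3) (.p (nat_lit 85) (nat_lit 1) (.n (nat_lit 86) (nat_lit 3) (.n (nat_lit 87) (nat_lit 3) (.p (nat_lit 88)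 (nat_lit 1) (.p (nat_lit 89) (nat_lit 2) (.n (nat_lit 94) (nat_lit 3) (.p (nat_lit 95) (nat_lit 2) (.p (nat_lit 101) (nat_lit 1) (.n (nat_lit 106) (nat_lit 1) .z)))))))))))))))))))))) .nil)))))))))))))))))))))))))

noncomputable def dC2d_i461 : IL := (.s false (nat_lit 3) (nat_lit 92) (nat_lit 2) (nat_lit 2) (nat_lit 1) true (nat_lit 7) true (nat_lit 10) false (nat_lit 3) true (nat_lit 9) true (nat_lit 9) (.s false (nat_lit 1) (nat_lit 96) (nat_lit 2) (nat_lit 2) (nat_lit 1) true (nat_lit 7) true (nat_lit 10) false (nat_lit 3) true (nat_lit 9) true (nat_lit 9) (.s true (nat_lit 2) (nat_lit 102) (nat_lit 1) (nat_lit 1) (nat_lit 2) true (nat_lit 7) true (nat_lit 9) false (nat_lit 4) true (nat_lit 10) true (nat_lit 10) (.s true (nat_lit 2) (nat_lit 103) (nat_lit 1) (nat_lit 1) (nat_lit 2) true (nat_lit 7) true (nat_lit 9) false (nat_lit 4) true (nat_lit 10) true (nat_lit 10) (.s false (nat_lit 3) (nat_lit 103) (nat_lit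 1) (nat_lit 2) (nat_lit 1) true (nat_lit 8) true (nat_lit 10) false (nat_lit 4) true (nat_lit 10) true (nat_lit 9) (.s false (nat_lit 2) (nat_lit 102) (nat_lit 2) (nat_lit 1) (nat_lit 1) true (nat_lit 7) true (nat_lit 10) false (nat_lit 4) true (nat_lit 9) true (nat_lit 10) (.s true (nat_lit 1) (nat_lit 103) (nat_lit 2) (nat_lit 1) (nat_lit 1) true (nat_lit 7) true (nat_lit 10) false (nat_lit 4) true (nat_lit 9) true (nat_lit 10) (.s true (nat_lit 3) (nat_lit 105) (nat_lit 1) (nat_lit 1) (nat_lit 1) true (nat_lit 8) true (nat_lit 10) false (nat_lit 5) true (nat_lit 10) true (nat_lit 10) (.e true (nat_lit 1) (nat_lit 289) (nat_lit 2) (nat_lit 9) (.e true (nat_lit 2) (nat_lit 291) (nat_lit 2) (nat_lit 9) (.e false (nat_lit 1) (nat_lit 292) (nat_lit 2) (nat_lit 9) (.e true (nat_lit 1) (nat_lit 293) (nat_lit 2) (nat_lit 9) (.e false (nat_lit 3) (nat_lit 294) (nat_lit 2) (nat_lit 9) (.e false (nat_lit 2) (nat_lit 295)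 (nat_lit 2) (nat_lit 9) (.e false (nat_lit 1) (nat_lit 296) (nat_lit 2) (nat_lit 9) (.e false (nat_lit 2) (nat_lit 298) (nat_lit 2) (nat_lit 9) (.e true (nat_lit 2) (nat_lit 303) (nat_lit 2) (nat_lit 9) (.e false (nat_lit 1) (nat_lit 297) (nat_lit 2) (nat_lit 9) (.e false (nat_lit 1) (nat_lit 163) (nat_lit 7) (nat_lit 6) (.e true (nat_lit 3) (nat_lit 190) (nat_lit 6) (nat_lit 7) (.e true (nat_lit 3) (nat_lit 167) (nat_lit 7) (nat_lit 6) (.e false (nat_lit 1) (nat_lit 79) (nat_lit 20) (nat_lit 2) (.e false (nat_lit 2) (nat_lit 327) (nat_lit 1) (nat_lit 10) (.e true (nat_lit 1) (nat_lit 325) (nat_lit 1) (nat_lit 10) (.u (nat_lit 2) (.n (nat_lit 1) (nat_lit 1) (.p (nat_lit 3) (nat_lit 1) (.n (nat_lit 4) (nat_lit 1) (.p (nat_lit 6) (nat_lit 1) (.p (nat_lit 7) (nat_lit 1) (.n (nat_lit 8) (nat_lit 2) (.n (nat_lit 9) (nat_lit 1) (.n (nat_lit 12) (nat_lit 1) (.n (nat_lit 14) (nat_lit 1) (.p (nat_lit 17) (nat_lit 1) (.n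 (nat_lit 19) (nat_lit 1) (.p (nat_lit 20) (nat_lit 1) (.p (nat_lit 24) (nat_lit 1) (.n (nat_lit 28) (nat_lit 1) (.n (nat_lit 29) (nat_lit 1) (.p (nat_lit 35) (nat_lit 1) (.n (nat_lit 38) (nat_lit 1) (.p (nat_lit 47) (nat_lit 1) (.n (nat_lit 48) (nat_lit 1) (.p (nat_lit 50) (nat_lit 1) (.n (nat_lit 51) (nat_lit 2) (.p (nat_lit 53) (nat_lit 1) (.p (nat_lit 56) (nat_lit 1) (.n (nat_lit 58) (nat_lit 1) (.p (nat_lit 59) (nat_lit 1) (.p (nat_lit 60) (nat_lit 1) (.n (nat_lit 61) (nat_lit 1) (.p (nat_lit 62) (nat_lit 1) (.n (nat_lit 64) (nat_lit 1) (.p (nat_lit 66) (nat_lit 1) (.n (nat_lit 67) (nat_lit 1) (.p (nat_lit 74) (nat_lit 1) (.p (nat_lit 77) (nat_lit 1) (.n (nat_lit 78) (nat_lit 1) (.p (nat_lit 79) (nat_lit 1) (.n (nat_lit 80) (nat_lit 8) (.p (nat_lit 82) (nat_lit 13) (.p (nat_lit 83) (nat_lit 16) (.p (nat_lit 84) (nat_lit 4) (.n (nat_lit 85) (nat_lit 1) (.n (nat_lit 86) (nat_lit 1) (.p (nat_lit 87) (nat_lit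 1) (.p (nat_lit 88) (nat_lit 2) (.n (nat_lit 89) (nat_lit 8) (.p (nat_lit 90) (nat_lit 2) (.n (nat_lit 91) (nat_lit 2) (.n (nat_lit 92) (nat_lit 3) (.p (nat_lit 94) (nat_lit 18) (.n (nat_lit 95) (nat_lit 8) (.p (nat_lit 97) (nat_lit 2) (.p (nat_lit 98) (nat_lit 2) (.n (nat_lit 99) (nat_lit 2) (.n (nat_lit 100) (nat_lit 1) (.n (nat_lit 101) (nat_lit 1) (.p (nat_lit 102) (nat_lit 2) (.n (nat_lit 103) (nat_lit 1) .z)))))))))))))))))))))))))))))))))))))))))))))))))))))))) .nil)))))))))))))))))))))))))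

noncomputable def dC2d_i462 : IL := (.s true (nat_lit 2) (nat_lit 20) (nat_lit 6) (nat_lit 4) (nat_lit 2) true (nat_lit 3) true (nat_lit 9) true (nat_lit 2) true (nat_lit 7) true (nat_lit 8) (.s false (nat_lit 2) (nat_lit 20) (nat_lit 10) (nat_lit 2) (nat_lit 2) true (nat_lit 1) true (nat_lit 9) true (nat_lit 2) true (nat_lit 5) true (nat_lit 9) (.s false (nat_lit 3) (nat_lit 20) (nat_lit 14) (nat_lit 1) (nat_lit 2) true (nat_lit 0) true (nat_lit 9) true (nat_lit 2) true (nat_lit 4) true (nat_lit 10) (.s false (nat_lit 3) (nat_lit 20) (nat_lit 15) (nat_lit 1) (nat_lit 2) true (nat_lit 0) true (nat_lit 9) true (nat_lit 2) true (nat_lit 4) true (nat_lit 10) (.s false (nat_lit 2) (nat_lit 20) (nat_lit 14) (nat_lit 2) (nat_lit 1) true (nat_lit 1) true (nat_lit 10) true (nat_lit 2) true (nat_lit 4) true (nat_lit 9) (.s true (nat_lit 2) (nat_lit 30) (nat_lit 2) (nat_lit 2) (nat_lit 7) true (nat_lit 2) true (nat_lit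 6) true (nat_lit 1) true (nat_lit 9) true (nat_lit 9) (.s true (nat_lit 1) (nat_lit 31) (nat_lit 2) (nat_lit 2) (nat_lit 7) true (nat_lit 2) true (nat_lit 6) true (nat_lit 1) true (nat_lit 9) true (nat_lit 9) (.s false (nat_lit 3) (nat_lit 32) (nat_lit 2) (nat_lit 2) (nat_lit 7) true (nat_lit 2) true (nat_lit 6) true (nat_lit 1) true (nat_lit 9) true (nat_lit 9) (.s false (nat_lit 1) (nat_lit 32) (nat_lit 2) (nat_lit 7) (nat_lit 2) true (nat_lit 6) true (nat_lit 9) true (nat_lit 1) true (nat_lit 9) true (nat_lit 6) (.s false (nat_lit 1) (nat_lit 32) (nat_lit 7) (nat_lit 2) (nat_lit 2) true (nat_lit 2) true (nat_lit 9) true (nat_lit 1) true (nat_lit 6) true (nat_lit 9) (.s false (nat_lit 1) (nat_lit 40) (nat_lit 2) (nat_lit 1) (nat_lit 7) true (nat_lit 2) true (nat_lit 6) true (nat_lit 0) true (nat_lit 9) true (nat_lit 10) (.s true (nat_lit 3) (nat_lit 40) (nat_lit 2) (nat_lit 2) (nat_lit 6) true (nat_lit 3) true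 (nat_lit 7) true (nat_lit 0) true (nat_lit 9) true (nat_lit 9) (.s false (nat_lit 2) (nat_lit 39) (nat_lit 2) (nat_lit 7) (nat_lit 1) true (nat_lit 7) true (nat_lit 10) true (nat_lit 0) true (nat_lit 9) true (nat_lit 6) (.s true (nat_lit 2) (nat_lit 39) (nat_lit 6) (nat_lit 2) (nat_lit 2) true (nat_lit 3) true (nat_lit 9) true (nat_lit 0) true (nat_lit 7) true (nat_lit 9) (.s true (nat_lit 3) (nat_lit 40) (nat_lit 6) (nat_lit 2) (nat_lit 2) true (nat_lit 3) true (nat_lit 9) true (nat_lit 0) true (nat_lit 7) true (nat_lit 9) (.s false (nat_lit 3) (nat_lit 47) (nat_lit 1) (nat_lit 2) (nat_lit 6) true (nat_lit 4) true (nat_lit 7) false (nat_lit 0) true (nat_lit 10) true (nat_lit 9) (.s false (nat_lit 1) (nat_lit 46) (nat_lit 2) (nat_lit 4) (nat_lit 2) true (nat_lit 6) true (nat_lit 9) false (nat_lit 0) true (nat_lit 9) true (nat_lit 8) (.s true (nat_lit 3) (nat_lit 47) (nat_lit 4) (nat_lit 2) (nat_lit 2) true (nat_lit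 4) true (nat_lit 9) false (nat_lit 0) true (nat_lit 8) true (nat_lit 9) (.s true (nat_lit 1) (nat_lit 48) (nat_lit 1) (nat_lit 2) (nat_lit 4) true (nat_lit 5) true (nat_lit 8) false (nat_lit 1) true (nat_lit 10) true (nat_lit 9) (.s false (nat_lit 1) (nat_lit 77) (nat_lit 2) (nat_lit 2) (nat_lit 2) true (nat_lit 6) true (nat_lit 9) false (nat_lit 2) true (nat_lit 9) true (nat_lit 9) (.s true (nat_lit 1) (nat_lit 78) (nat_lit 2) (nat_lit 2) (nat_lit 2) true (nat_lit 6) true (nat_lit 9) false (nat_lit 2) true (nat_lit 9) true (nat_lit 9) (.s false (nat_lit 3) (nat_lit 96) (nat_lit 1) (nat_lit 2) (nat_lit 2) true (nat_lit 7) true (nat_lit 9) false (nat_lit 3) true (nat_lit 10) true (nat_lit 9) (.s true (nat_lit 1) (nat_lit 92) (nat_lit 2) (nat_lit 1) (nat_lit 2) true (nat_lit 6) true (nat_lit 9) false (nat_lit 3) true (nat_lit 9) true (nat_lit 10) (.s true (nat_lit 3) (nat_lit 93) (nat_lit 2) (nat_lit 1) (nat_lit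 2) true (nat_lit 6) true (nat_lit 9) false (nat_lit 3) true (nat_lit 9) true (nat_lit 10) (.s false (nat_lit 1) (nat_lit 96) (nat_lit 2) (nat_lit 1) (nat_lit 2) true (nat_lit 6) true (nat_lit 9) false (nat_lit 3) true (nat_lit 9) true (nat_lit 10) dC2d_i461)))))))))))))))))))))))))

noncomputable def dC2d_i463 : IL := (.s true (nat_lit 2) (nat_lit 48) (nat_lit 1) (nat_lit 2) (nat_lit 4) true (nat_lit 5) true (nat_lit 8) false (nat_lit 1) true (nat_lit 10) true (nat_lit 9) (.s true (nat_lit 2) (nat_lit 48) (nat_lit 4) (nat_lit 2) (nat_lit 1) true (nat_lit 5) true (nat_lit 10) false (nat_lit 1) true (nat_lit 8) true (nat_lit 9) (.s true (nat_lit 2) (nat_lit 77) (nat_lit 2) (nat_lit 2) (nat_lit 2) true (nat_lit 6) true (nat_lit 9) false (nat_lit 2) true (nat_lit 9) true (nat_lit 9) (.s true (nat_lit 3) (nat_lit 91) (nat_lit 1) (nat_lit 2) (nat_lit 2) true (nat_lit 7) true (nat_lit 9) false (nat_lit 3) true (nat_lit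 10) true (nat_lit 9) (.s true (nat_lit 3) (nat_lit 96) (nat_lit 2) (nat_lit 2) (nat_lit 1) true (nat_lit 7) true (nat_lit 10) false (nat_lit 3) true (nat_lit 9) true (nat_lit 9) (.s false (nat_lit 2) (nat_lit 105) (nat_lit 1) (nat_lit 1) (nat_lit 1) true (nat_lit 8) true (nat_lit 10) false (nat_lit 5) true (nat_lit 10) true (nat_lit 10) (.e false (nat_lit 3) (nat_lit 289) (nat_lit 2) (nat_lit 9) (.e false (nat_lit 3) (nat_lit 290) (nat_lit 2) (nat_lit 9) (.e true (nat_lit 1) (nat_lit 291) (nat_lit 2) (nat_lit 9) (.e false (nat_lit 3) (nat_lit 292) (nat_lit 2) (nat_lit 9) (.e true (nat_lit 1) (nat_lit 293) (nat_lit 2) (nat_lit 9) (.e true (nat_lit 3) (nat_lit 295) (nat_lit 2) (nat_lit 9) (.e true (nat_lit 2) (nat_lit 297) (nat_lit 2) (nat_lit 9) (.e true (nat_lit 1) (nat_lit 298) (nat_lit 2) (nat_lit 9) (.e false (nat_lit 1) (nat_lit 300) (nat_lit 2) (nat_lit 9) (.e true (nat_lit 1) (nat_lit 301) (nat_lit 2) (nat_lit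 9) (.e true (nat_lit 1) (nat_lit 303) (nat_lit 2) (nat_lit 9) (.e true (nat_lit 2) (nat_lit 296) (nat_lit 2) (nat_lit 9) (.e true (nat_lit 2) (nat_lit 299) (nat_lit 2) (nat_lit 9) (.e false (nat_lit 2) (nat_lit 79) (nat_lit 20) (nat_lit 2) (.e true (nat_lit 2) (nat_lit 190) (nat_lit 6) (nat_lit 7) (.e true (nat_lit 3) (nat_lit 325) (nat_lit 1) (nat_lit 10) (.e true (nat_lit 2) (nat_lit 330) (nat_lit 1) (nat_lit 10) (.e true (nat_lit 1) (nat_lit 324) (nat_lit 1) (nat_lit 10) (.u (nat_lit 2) (.n (nat_lit 1) (nat_lit 1) (.p (nat_lit 3) (nat_lit 1) (.n (nat_lit 4) (nat_lit 1) (.n (nat_lit 5) (nat_lit 1) (.p (nat_lit 7) (nat_lit 1) (.n (nat_lit 8) (nat_lit 2) (.n (nat_lit 11) (nat_lit 1) (.n (nat_lit 12) (nat_lit 2) (.n (nat_lit 13) (nat_lit 1) (.n (nat_lit 17) (nat_lit 1) (.n (nat_lit 32) (nat_lit 1) (.n (nat_lit 47) (nat_lit 1) (.n (nat_lit 81) (nat_lit 1) (.n (nat_lit 82) (nat_lit 3) (.p (nat_lit 83) (nat_lit 2)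 (.p (nat_lit 84) (nat_lit 1) (.p (nat_lit 85) (nat_lit 5) (.n (nat_lit 86) (nat_lit 2) (.n (nat_lit 87) (nat_lit 2) (.p (nat_lit 88) (nat_lit 2) (.p (nat_lit 89) (nat_lit 5) (.p (nat_lit 90) (nat_lit 2) (.p (nat_lit 91) (nat_lit 1) (.n (nat_lit 92) (nat_lit 1) (.p (nat_lit 94) (nat_lit 1) (.n (nat_lit 95) (nat_lit 2) (.p (nat_lit 96) (nat_lit 1) (.n (nat_lit 97) (nat_lit 1) (.n (nat_lit 101) (nat_lit 1) (.p (nat_lit 103) (nat_lit 1) (.p (nat_lit 106) (nat_lit 1) .z))))))))))))))))))))))))))))))) .nil)))))))))))))))))))))))))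

noncomputable def dC2d_i464 : IL := (.e true (nat_lit 3) (nat_lit 285) (nat_lit 2) (nat_lit 14) (.e true (nat_lit 2) (nat_lit 257) (nat_lit 2) (nat_lit 14) (.e false (nat_lit 1) (nat_lit 152) (nat_lit 7) (nat_lit 9) (.e false (nat_lit 1) (nat_lit 318) (nat_lit 1) (nat_lit 15) (.e true (nat_lit 2) (nat_lit 313) (nat_lit 1) (nat_lit 15) (.e true (nat_lit 3) (nat_lit 324) (nat_lit 0) (nat_lit 16) (.e true (nat_lit 2) (nat_lit 325) (nat_lit 0) (nat_lit 16) (.e true (nat_lit 1) (nat_lit 326) (nat_lit 0) (nat_lit 16) (.e true (nat_lit 2) (nat_lit 327) (nat_lit 0) (nat_lit 16) (.e true (nat_lit 3) (nat_lit 330) (nat_lit 0) (nat_lit 16) (.e false (nat_lit 1) (nat_lit 329) (nat_lit 0) (nat_lit 16) (.e true (nat_lit 2) (nat_lit 331) (nat_lit 0) (nat_lit 16) (.e false (nat_lit 2) (nat_lit 284) (nat_lit 2) (nat_lit 14) (.e true (nat_lit 1) (nat_lit 305) (nat_lit 1) (nat_lit 15) (.e true (nat_lit 2) (nat_lit 306) (nat_lit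 1) (nat_lit 15) (.e false (nat_lit 3) (nat_lit 307) (nat_lit 1) (nat_lit 15) (.e false (nat_lit 1) (nat_lit 308) (nat_lit 1) (nat_lit 15) (.e true (nat_lit 1) (nat_lit 310) (nat_lit 1) (nat_lit 15) (.e false (nat_lit 2) (nat_lit 311) (nat_lit 1) (nat_lit 15) (.e false (nat_lit 2) (nat_lit 312) (nat_lit 1) (nat_lit 15) (.e true (nat_lit 2) (nat_lit 314) (nat_lit 1) (nat_lit 15) (.e false (nat_lit 3) (nat_lit 315) (nat_lit 1) (nat_lit 15) (.u (nat_lit 2) (.n (nat_lit 0) (nat_lit 1) (.n (nat_lit 2) (nat_lit 2) (.n (nat_lit 3) (nat_lit 2) (.p (nat_lit 6) (nat_lit 1) (.p (nat_lit 7) (nat_lit 1) (.p (nat_lit 8) (nat_lit 1) (.n (nat_lit 9) (nat_lit 2) (.n (nat_lit 10) (nat_lit 4) (.p (nat_lit 13) (nat_lit 1) (.p (nat_lit 14) (nat_lit 1) (.p (nat_lit 15) (nat_lit 1) (.p (nat_lit 16) (nat_lit 1) (.p (nat_lit 17) (nat_lit 1) (.p (nat_lit 18) (nat_lit 1) (.p (nat_lit 21) (nat_lit 2) (.p (nat_lit 24) (nat_lit 1) (.p (nat_lit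 27) (nat_lit 1) (.n (nat_lit 38) (nat_lit 2) (.n (nat_lit 41) (nat_lit 1) (.p (nat_lit 43) (nat_lit 1) (.p (nat_lit 44) (nat_lit 1) (.n (nat_lit 46) (nat_lit 1) (.n (nat_lit 47) (nat_lit 1) (.p (nat_lit 49) (nat_lit 1) (.n (nat_lit 50) (nat_lit 1) (.n (nat_lit 52) (nat_lit 1) (.p (nat_lit 53) (nat_lit 1) (.n (nat_lit 69) (nat_lit 1) (.p (nat_lit 71) (nat_lit 1) (.p (nat_lit 73) (nat_lit 1) (.p (nat_lit 76) (nat_lit 1) (.n (nat_lit 83) (nat_lit 1) (.n (nat_lit 84) (nat_lit 1) (.n (nat_lit 85) (nat_lit 1) (.p (nat_lit 88) (nat_lit 1) (.n (nat_lit 94) (nat_lit 1) (.p (nat_lit 97) (nat_lit 1) (.p (nat_lit 108) (nat_lit 1) (.p (nat_lit 109) (nat_lit 1) (.p (nat_lit 111) (nat_lit 1) (.p (nat_lit 114) (nat_lit 1) (.p (nat_lit 119) (nat_lit 1) (.n (nat_lit 121) (nat_lit 1) (.n (nat_lit 122) (nat_lit 1) (.p (nat_lit 125) (nat_lit 1) (.p (nat_lit 126) (nat_lit 1) (.n (nat_lit 129) (nat_lit 1) (.p (nat_lit 130) (nat_lit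 1) (.p (nat_lit 133) (nat_lit 1) (.n (nat_lit 134) (nat_lit 1) (.p (nat_lit 135) (nat_lit 1) (.p (nat_lit 139) (nat_lit 1) (.n (nat_lit 142) (nat_lit 1) (.p (nat_lit 143) (nat_lit 4) (.n (nat_lit 144) (nat_lit 1) (.n (nat_lit 145) (nat_lit 1) (.n (nat_lit 146) (nat_lit 1) (.p (nat_lit 147) (nat_lit 1) (.n (nat_lit 148) (nat_lit 1) (.p (nat_lit 149) (nat_lit 2) .z)))))))))))))))))))))))))))))))))))))))))))))))))))))))))))) (.u (nat_lit 2) (.n (nat_lit 150) (nat_lit 2) (.p (nat_lit 152) (nat_lit 1) (.p (nat_lit 153) (nat_lit 2) (.p (nat_lit 154) (nat_lit 2) (.p (nat_lit 157) (nat_lit 3) (.n (nat_lit 159) (nat_lit 1) (.p (nat_lit 160) (nat_lit 3) (.p (nat_lit 161) (nat_lit 1) (.n (nat_lit 162) (nat_lit 3) (.n (nat_lit 163) (nat_lit 2) (.n (nat_lit 164) (nat_lit 1) (.n (nat_lit 166) (nat_lit 3) (.p (nat_lit 167) (nat_lit 3) (.n (nat_lit 168) (nat_lit 1) (.n (nat_lit 169) (nat_lit 2) (.n (nat_lit 170) (nat_lit 1) (.p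 (nat_lit 171) (nat_lit 2) (.p (nat_lit 172) (nat_lit 1) (.n (nat_lit 173) (nat_lit 2) (.n (nat_lit 176) (nat_lit 1) (.n (nat_lit 177) (nat_lit 1) (.n (nat_lit 178) (nat_lit 2) (.p (nat_lit 180) (nat_lit 1) (.n (nat_lit 181) (nat_lit 1) (.p (nat_lit 182) (nat_lit 1) (.p (nat_lit 184) (nat_lit 1) (.p (nat_lit 186) (nat_lit 1) (.p (nat_lit 187) (nat_lit 1) (.n (nat_lit 189) (nat_lit 1) (.p (nat_lit 192) (nat_lit 1) (.p (nat_lit 195) (nat_lit 1) (.p (nat_lit 196) (nat_lit 1) (.n (nat_lit 198) (nat_lit 1) (.n (nat_lit 204) (nat_lit 12) (.n (nat_lit 205) (nat_lit 13) (.p (nat_lit 206) (nat_lit 1) (.n (nat_lit 207) (nat_lit 5) (.n (nat_lit 208) (nat_lit 8) (.p (nat_lit 209) (nat_lit 6) (.p (nat_lit 210) (nat_lit 8) (.p (nat_lit 211) (nat_lit 10) (.n (nat_lit 212) (nat_lit 5) (.p (nat_lit 213) (nat_lit 3) (.n (nat_lit 214) (nat_lit 1) (.p (nat_lit 215) (nat_lit 4) (.p (nat_lit 216) (nat_lit 3) (.n (nat_lit 217) (nat_lit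 12) (.p (nat_lit 218) (nat_lit 5) (.n (nat_lit 219) (nat_lit 12) (.n (nat_lit 220) (nat_lit 2) (.n (nat_lit 221) (nat_lit 7) (.n (nat_lit 222) (nat_lit 8) (.p (nat_lit 223) (nat_lit 3) (.n (nat_lit 224) (nat_lit 14) (.n (nat_lit 225) (nat_lit 5) (.n (nat_lit 226) (nat_lit 5) (.p (nat_lit 227) (nat_lit 9) (.p (nat_lit 228) (nat_lit 3) (.p (nat_lit 230) (nat_lit 1) (.p (nat_lit 231) (nat_lit 3) .z)))))))))))))))))))))))))))))))))))))))))))))))))))))))))))) (.u (nat_lit 2) (.p (nat_lit 232) (nat_lit 2) (.n (nat_lit 233) (nat_lit 1) (.p (nat_lit 234) (nat_lit 5) (.n (nat_lit 235) (nat_lit 6) (.n (nat_lit 236) (nat_lit 2) (.p (nat_lit 238) (nat_lit 6) (.n (nat_lit 239) (nat_lit 1) (.n (nat_lit 240) (nat_lit 9) (.p (nat_lit 242) (nat_lit 2) (.n (nat_lit 243) (nat_lit 1) (.p (nat_lit 246) (nat_lit 3) (.n (nat_lit 247) (nat_lit 1) (.n (nat_lit 248) (nat_lit 1) (.p (nat_lit 249) (nat_lit 2) (.p (nat_lit 250) (nat_lit 3)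 (.p (nat_lit 259) (nat_lit 1) (.p (nat_lit 261) (nat_lit 3) (.p (nat_lit 262) (nat_lit 6) (.n (nat_lit 263) (nat_lit 2) (.p (nat_lit 264) (nat_lit 4) (.n (nat_lit 265) (nat_lit 2) (.p (nat_lit 266) (nat_lit 3) (.n (nat_lit 267) (nat_lit 4) (.p (nat_lit 269) (nat_lit 1) (.p (nat_lit 270) (nat_lit 1) .z))))))))))))))))))))))))) .nil)))))))))))))))))))))))))

noncomputable def dC2d_i465 : IL := (.s true (nat_lit 3) (nat_lit 95) (nat_lit 0) (nat_lit 2) (nat_lit 2) true (nat_lit 11) true (nat_lit 14) false (nat_lit 5) true (nat_lit 16) true (nat_lit 14) (.s false (nat_lit 3) (nat_lit 96) (nat_lit 0) (nat_lit 2) (nat_lit 2) true (nat_lit 11) true (nat_lit 14) false (nat_lit 5) true (nat_lit 16) true (nat_lit 14) (.s true (nat_lit 3) (nat_lit 92) (nat_lit 2) (nat_lit 2) (nat_lit 0) true (nat_lit 11) true (nat_lit 16) false (nat_lit 5) true (nat_lit 14) true (nat_lit 14) (.s false (nat_lit 3) (nat_lit 93) (nat_lit 2)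 (nat_lit 2) (nat_lit 0) true (nat_lit 11) true (nat_lit 16) false (nat_lit 5) true (nat_lit 14) true (nat_lit 14) (.s true (nat_lit 1) (nat_lit 96) (nat_lit 2) (nat_lit 2) (nat_lit 0) true (nat_lit 11) true (nat_lit 16) false (nat_lit 5) true (nat_lit 14) true (nat_lit 14) (.s false (nat_lit 1) (nat_lit 103) (nat_lit 0) (nat_lit 1) (nat_lit 2) true (nat_lit 11) true (nat_lit 14) false (nat_lit 7) true (nat_lit 16) true (nat_lit 15) (.s false (nat_lit 3) (nat_lit 103) (nat_lit 1) (nat_lit 0) (nat_lit 2) true (nat_lit 10) true (nat_lit 14) false (nat_lit 7) true (nat_lit 15) true (nat_lit 16) (.s false (nat_lit 2) (nat_lit 103) (nat_lit 1) (nat_lit 2) (nat_lit 0) true (nat_lit 13) true (nat_lit 16) false (nat_lit 7) true (nat_lit 15) true (nat_lit 14) (.s true (nat_lit 2) (nat_lit 105) (nat_lit 0) (nat_lit 1) (nat_lit 1) true (nat_lit 13) true (nat_lit 15) false (nat_lit 8) true (nat_lit 16) true (nat_lit 15) (.s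 false (nat_lit 2) (nat_lit 105) (nat_lit 1) (nat_lit 1) (nat_lit 0) true (nat_lit 13) true (nat_lit 16) false (nat_lit 8) true (nat_lit 15) true (nat_lit 15) (.e false (nat_lit 2) (nat_lit 72) (nat_lit 20) (nat_lit 3) (.e true (nat_lit 1) (nat_lit 153) (nat_lit 7) (nat_lit 9) (.e false (nat_lit 1) (nat_lit 140) (nat_lit 7) (nat_lit 9) (.e false (nat_lit 1) (nat_lit 154) (nat_lit 7) (nat_lit 9) (.e false (nat_lit 1) (nat_lit 252) (nat_lit 2) (nat_lit 14) (.e true (nat_lit 1) (nat_lit 253) (nat_lit 2) (nat_lit 14) (.e false (nat_lit 3) (nat_lit 254) (nat_lit 2) (nat_lit 14) (.e false (nat_lit 2) (nat_lit 255) (nat_lit 2) (nat_lit 14) (.e false (nat_lit 3) (nat_lit 258) (nat_lit 2) (nat_lit 14) (.e true (nat_lit 2) (nat_lit 259) (nat_lit 2) (nat_lit 14) (.e false (nat_lit 3) (nat_lit 264) (nat_lit 2) (nat_lit 14) (.e false (nat_lit 2) (nat_lit 265) (nat_lit 2) (nat_lit 14) (.e true (nat_lit 3) (nat_lit 273) (nat_lit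 2) (nat_lit 14) (.e false (nat_lit 2) (nat_lit 274) (nat_lit 2) (nat_lit 14) (.e true (nat_lit 3) (nat_lit 283) (nat_lit 2) (nat_lit 14) dC2d_i464)))))))))))))))))))))))))

noncomputable def dC2d_i466 : IL := (.s true (nat_lit 2) (nat_lit 48) (nat_lit 6) (nat_lit 1) (nat_lit 0) true (nat_lit 7) true (nat_lit 16) false (nat_lit 2) true (nat_lit 10) true (nat_lit 15) (.s true (nat_lit 1) (nat_lit 66) (nat_lit 2) (nat_lit 2) (nat_lit 2) true (nat_lit 9) true (nat_lit 14) false (nat_lit 3) true (nat_lit 14) true (nat_lit 14) (.s false (nat_lit 3) (nat_lit 67) (nat_lit 2) (nat_lit 2) (nat_lit 2) true (nat_lit 9) true (nat_lit 14) false (nat_lit 3) true (nat_lit 14) true (nat_lit 14) (.s true (nat_lit 2) (nat_lit 68) (nat_lit 2) (nat_lit 2) (nat_lit 2) true (nat_lit 9) true (nat_lit 14) false (nat_lit 3) true (nat_lit 14) true (nat_lit 14) (.s true (nat_lit 1) (nat_lit 69) (nat_lit 2) (nat_lit 2) (nat_lit 2) true (nat_lit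 9) true (nat_lit 14) false (nat_lit 3) true (nat_lit 14) true (nat_lit 14) (.s false (nat_lit 2) (nat_lit 70) (nat_lit 2) (nat_lit 2) (nat_lit 2) true (nat_lit 9) true (nat_lit 14) false (nat_lit 3) true (nat_lit 14) true (nat_lit 14) (.s false (nat_lit 1) (nat_lit 71) (nat_lit 2) (nat_lit 2) (nat_lit 2) true (nat_lit 9) true (nat_lit 14) false (nat_lit 3) true (nat_lit 14) true (nat_lit 14) (.s true (nat_lit 3) (nat_lit 73) (nat_lit 2) (nat_lit 2) (nat_lit 2) true (nat_lit 9) true (nat_lit 14) false (nat_lit 3) true (nat_lit 14) true (nat_lit 14) (.s true (nat_lit 3) (nat_lit 80) (nat_lit 1) (nat_lit 2) (nat_lit 2) true (nat_lit 10) true (nat_lit 14) false (nat_lit 4) true (nat_lit 15) true (nat_lit 14) (.s false (nat_lit 1) (nat_lit 81) (nat_lit 1) (nat_lit 2) (nat_lit 2) true (nat_lit 10) true (nat_lit 14) false (nat_lit 4) true (nat_lit 15) true (nat_lit 14) (.s true (nat_lit 3) (nat_lit 82) (nat_lit 1) (nat_lit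 2) (nat_lit 2) true (nat_lit 10) true (nat_lit 14) false (nat_lit 4) true (nat_lit 15) true (nat_lit 14) (.s false (nat_lit 1) (nat_lit 84) (nat_lit 1) (nat_lit 2) (nat_lit 2) true (nat_lit 10) true (nat_lit 14) false (nat_lit 4) true (nat_lit 15) true (nat_lit 14) (.s false (nat_lit 2) (nat_lit 85) (nat_lit 1) (nat_lit 2) (nat_lit 2) true (nat_lit 10) true (nat_lit 14) false (nat_lit 4) true (nat_lit 15) true (nat_lit 14) (.s true (nat_lit 3) (nat_lit 90) (nat_lit 1) (nat_lit 2) (nat_lit 2) true (nat_lit 10) true (nat_lit 14) false (nat_lit 4) true (nat_lit 15) true (nat_lit 14) (.s false (nat_lit 2) (nat_lit 80) (nat_lit 2) (nat_lit 1) (nat_lit 2) true (nat_lit 9) true (nat_lit 14) false (nat_lit 4) true (nat_lit 14) true (nat_lit 15) (.s false (nat_lit 2) (nat_lit 81) (nat_lit 2) (nat_lit 1) (nat_lit 2) true (nat_lit 9) true (nat_lit 14) false (nat_lit 4) true (nat_lit 14) true (nat_lit 15) (.s false (nat_lit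 3) (nat_lit 88) (nat_lit 2) (nat_lit 1) (nat_lit 2) true (nat_lit 9) true (nat_lit 14) false (nat_lit 4) true (nat_lit 14) true (nat_lit 15) (.s true (nat_lit 2) (nat_lit 80) (nat_lit 2) (nat_lit 2) (nat_lit 1) true (nat_lit 10) true (nat_lit 15) false (nat_lit 4) true (nat_lit 14) true (nat_lit 14) (.s true (nat_lit 1) (nat_lit 81) (nat_lit 2) (nat_lit 2) (nat_lit 1) true (nat_lit 10) true (nat_lit 15) false (nat_lit 4) true (nat_lit 14) true (nat_lit 14) (.s false (nat_lit 3) (nat_lit 82) (nat_lit 2) (nat_lit 2) (nat_lit 1) true (nat_lit 10) true (nat_lit 15) false (nat_lit 4) true (nat_lit 14) true (nat_lit 14) (.s false (nat_lit 1) (nat_lit 90) (nat_lit 2) (nat_lit 2) (nat_lit 1) true (nat_lit 10) true (nat_lit 15) false (nat_lit 4) true (nat_lit 14) true (nat_lit 14) (.s true (nat_lit 1) (nat_lit 91) (nat_lit 0) (nat_lit 2) (nat_lit 2) true (nat_lit 11) true (nat_lit 14) false (nat_lit 5) true (nat_lit 16)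 true (nat_lit 14) (.s false (nat_lit 3) (nat_lit 92) (nat_lit 0) (nat_lit 2) (nat_lit 2) true (nat_lit 11) true (nat_lit 14) false (nat_lit 5) true (nat_lit 16) true (nat_lit 14) (.s false (nat_lit 3) (nat_lit 93) (nat_lit 0) (nat_lit 2) (nat_lit 2) true (nat_lit 11) true (nat_lit 14) false (nat_lit 5) true (nat_lit 16) true (nat_lit 14) (.s false (nat_lit 1) (nat_lit 94) (nat_lit 0) (nat_lit 2) (nat_lit 2) true (nat_lit 11) true (nat_lit 14) false (nat_lit 5) true (nat_lit 16) true (nat_lit 14) dC2d_i465)))))))))))))))))))))))))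

noncomputable def dC2d_i467 : IL := (.s true (nat_lit 2) (nat_lit 35) (nat_lit 2) (nat_lit 2) (nat_lit 6) true (nat_lit 4) true (nat_lit 10) true (nat_lit 1) true (nat_lit 14) true (nat_lit 14) (.s false (nat_lit 3) (nat_lit 34) (nat_lit 2) (nat_lit 7) (nat_lit 1) true (nat_lit 10) true (nat_lit 15) true (nat_lit 1) true (nat_lit 14) true (nat_lit 9) (.s false (nat_lit 3) (nat_lit 33) (nat_lit 6) (nat_lit 2) (nat_lit 2) true (nat_lit 4) true (nat_lit 14) true (nat_lit 1) true (nat_lit 10) true (nat_lit 14) (.s true (nat_lit 2) (nat_lit 34) (nat_lit 6) (nat_lit 2) (nat_lit 2) true (nat_lit 4) true (nat_lit 14) true (nat_lit 1) true (nat_lit 10) true (nat_lit 14) (.s false (nat_lit 3) (nat_lit 35) (nat_lit 6) (nat_lit 2) (nat_lit 2) true (nat_lit 4) true (nat_lit 14) true (nat_lit 1) true (nat_lit 10) true (nat_lit 14) (.s false (nat_lit 1) (nat_lit 39) (nat_lit 0) (nat_lit 2) (nat_lit 7) true (nat_lit 5) true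 (nat_lit 9) true (nat_lit 0) true (nat_lit 16) true (nat_lit 14) (.s true (nat_lit 1) (nat_lit 40) (nat_lit 0) (nat_lit 2) (nat_lit 7) true (nat_lit 5) true (nat_lit 9) true (nat_lit 0) true (nat_lit 16) true (nat_lit 14) (.s false (nat_lit 3) (nat_lit 41) (nat_lit 0) (nat_lit 2) (nat_lit 7) true (nat_lit 5) true (nat_lit 9) true (nat_lit 0) true (nat_lit 16) true (nat_lit 14) (.s false (nat_lit 2) (nat_lit 40) (nat_lit 2) (nat_lit 0) (nat_lit 7) true (nat_lit 3) true (nat_lit 9) true (nat_lit 0) true (nat_lit 14) true (nat_lit 16) (.s false (nat_lit 2) (nat_lit 39) (nat_lit 2) (nat_lit 2) (nat_lit 5) true (nat_lit 5) true (nat_lit 11) true (nat_lit 0) true (nat_lit 14) true (nat_lit 14) (.s true (nat_lit 1) (nat_lit 40) (nat_lit 2) (nat_lit 2) (nat_lit 5) true (nat_lit 5) true (nat_lit 11) true (nat_lit 0) true (nat_lit 14) true (nat_lit 14) (.s false (nat_lit 1) (nat_lit 40) (nat_lit 2) (nat_lit 5) (nat_lit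 2) true (nat_lit 9) true (nat_lit 14) true (nat_lit 0) true (nat_lit 14) true (nat_lit 11) (.s false (nat_lit 1) (nat_lit 39) (nat_lit 2) (nat_lit 7) (nat_lit 0) true (nat_lit 11) true (nat_lit 16) true (nat_lit 0) true (nat_lit 14) true (nat_lit 9) (.s false (nat_lit 1) (nat_lit 40) (nat_lit 7) (nat_lit 0) (nat_lit 2) true (nat_lit 3) true (nat_lit 14) true (nat_lit 0) true (nat_lit 9) true (nat_lit 16) (.s true (nat_lit 2) (nat_lit 43) (nat_lit 2) (nat_lit 2) (nat_lit 4) true (nat_lit 6) true (nat_lit 12) false (nat_lit 0) true (nat_lit 14) true (nat_lit 14) (.s true (nat_lit 2) (nat_lit 44) (nat_lit 2) (nat_lit 2) (nat_lit 4) true (nat_lit 6) true (nat_lit 12) false (nat_lit 0) true (nat_lit 14) true (nat_lit 14) (.s true (nat_lit 3) (nat_lit 43) (nat_lit 4) (nat_lit 2) (nat_lit 2) true (nat_lit 6) true (nat_lit 14) false (nat_lit 0) true (nat_lit 12) true (nat_lit 14) (.s false (nat_lit 3) (nat_lit 44) (nat_lit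 4) (nat_lit 2) (nat_lit 2) true (nat_lit 6) true (nat_lit 14) false (nat_lit 0) true (nat_lit 12) true (nat_lit 14) (.s true (nat_lit 3) (nat_lit 47) (nat_lit 1) (nat_lit 5) (nat_lit 2) true (nat_lit 10) true (nat_lit 14) false (nat_lit 1) true (nat_lit 15) true (nat_lit 11) (.s false (nat_lit 3) (nat_lit 47) (nat_lit 3) (nat_lit 2) (nat_lit 2) true (nat_lit 7) true (nat_lit 14) false (nat_lit 1) true (nat_lit 13) true (nat_lit 14) (.s true (nat_lit 3) (nat_lit 47) (nat_lit 5) (nat_lit 1) (nat_lit 2) true (nat_lit 5) true (nat_lit 14) false (nat_lit 1) true (nat_lit 11) true (nat_lit 15) (.s true (nat_lit 1) (nat_lit 47) (nat_lit 6) (nat_lit 0) (nat_lit 2) true (nat_lit 4) true (nat_lit 14) false (nat_lit 1) true (nat_lit 10) true (nat_lit 16) (.s false (nat_lit 2) (nat_lit 48) (nat_lit 0) (nat_lit 2) (nat_lit 4) true (nat_lit 8) true (nat_lit 12) false (nat_lit 2) true (nat_lit 16) true (nat_lit 14) (.s false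 (nat_lit 2) (nat_lit 48) (nat_lit 2) (nat_lit 3) (nat_lit 1) true (nat_lit 10) true (nat_lit 15) false (nat_lit 2) true (nat_lit 14) true (nat_lit 13) (.s false (nat_lit 2) (nat_lit 48) (nat_lit 2) (nat_lit 4) (nat_lit 0) true (nat_lit 11) true (nat_lit 16) false (nat_lit 2) true (nat_lit 14) true (nat_lit 12) dC2d_i466)))))))))))))))))))))))))

noncomputable def dC2d_i468 : IL := (.s false (nat_lit 1) (nat_lit 20) (nat_lit 1) (nat_lit 7) (nat_lit 3) true (nat_lit 8) true (nat_lit 13) true (nat_lit 3) true (nat_lit 15) true (nat_lit 9) (.s false (nat_lit 1) (nat_lit 20) (nat_lit 2) (nat_lit 1) (nat_lit 13) true (nat_lit 1) true (nat_lit 7) true (nat_lit 3) true (nat_lit 14) true (nat_lit 15) (.s false (nat_lit 2) (nat_lit 20) (nat_lit 2) (nat_lit 2) (nat_lit 8) true (nat_lit 2) true (nat_lit 8) true (nat_lit 3) true (nat_lit 14) true (nat_lit 14) (.s true (nat_lit 1) (nat_lit 20) (nat_lit 3) (nat_lit 7) (nat_lit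 1) true (nat_lit 8) true (nat_lit 15) true (nat_lit 3) true (nat_lit 13) true (nat_lit 9) (.s false (nat_lit 1) (nat_lit 20) (nat_lit 4) (nat_lit 7) (nat_lit 0) true (nat_lit 8) true (nat_lit 16) true (nat_lit 3) true (nat_lit 12) true (nat_lit 9) (.s true (nat_lit 3) (nat_lit 20) (nat_lit 6) (nat_lit 0) (nat_lit 6) true (nat_lit 0) true (nat_lit 10) true (nat_lit 3) true (nat_lit 10) true (nat_lit 16) (.s false (nat_lit 1) (nat_lit 20) (nat_lit 6) (nat_lit 2) (nat_lit 3) true (nat_lit 2) true (nat_lit 13) true (nat_lit 3) true (nat_lit 10) true (nat_lit 14) (.s false (nat_lit 3) (nat_lit 20) (nat_lit 7) (nat_lit 3) (nat_lit 1) true (nat_lit 4) true (nat_lit 15) true (nat_lit 3) true (nat_lit 9) true (nat_lit 13) (.s false (nat_lit 2) (nat_lit 20) (nat_lit 8) (nat_lit 2) (nat_lit 2) true (nat_lit 2) true (nat_lit 14) true (nat_lit 3) true (nat_lit 8) true (nat_lit 14) (.s false (nat_lit 3) (nat_lit 20) (nat_lit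 9) (nat_lit 2) (nat_lit 2) true (nat_lit 2) true (nat_lit 14) true (nat_lit 3) true (nat_lit 8) true (nat_lit 14) (.s false (nat_lit 2) (nat_lit 20) (nat_lit 12) (nat_lit 1) (nat_lit 2) true (nat_lit 1) true (nat_lit 14) true (nat_lit 3) true (nat_lit 7) true (nat_lit 15) (.s false (nat_lit 2) (nat_lit 20) (nat_lit 12) (nat_lit 2) (nat_lit 1) true (nat_lit 2) true (nat_lit 15) true (nat_lit 3) true (nat_lit 7) true (nat_lit 14) (.s false (nat_lit 1) (nat_lit 20) (nat_lit 15) (nat_lit 0) (nat_lit 2) true (nat_lit 0) true (nat_lit 14) true (nat_lit 3) true (nat_lit 6) true (nat_lit 16) (.s false (nat_lit 3) (nat_lit 24) (nat_lit 2) (nat_lit 2) (nat_lit 7) true (nat_lit 3) true (nat_lit 9) true (nat_lit 2) true (nat_lit 14) true (nat_lit 14) (.s true (nat_lit 3) (nat_lit 25) (nat_lit 2) (nat_lit 2) (nat_lit 7) true (nat_lit 3) true (nat_lit 9) true (nat_lit 2) true (nat_lit 14) true (nat_lit 14) (.s false (nat_lit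 3) (nat_lit 26) (nat_lit 2) (nat_lit 2) (nat_lit 7) true (nat_lit 3) true (nat_lit 9) true (nat_lit 2) true (nat_lit 14) true (nat_lit 14) (.s true (nat_lit 2) (nat_lit 27) (nat_lit 2) (nat_lit 2) (nat_lit 7) true (nat_lit 3) true (nat_lit 9) true (nat_lit 2) true (nat_lit 14) true (nat_lit 14) (.s true (nat_lit 3) (nat_lit 28) (nat_lit 2) (nat_lit 2) (nat_lit 7) true (nat_lit 3) true (nat_lit 9) true (nat_lit 2) true (nat_lit 14) true (nat_lit 14) (.s true (nat_lit 3) (nat_lit 26) (nat_lit 2) (nat_lit 7) (nat_lit 2) true (nat_lit 9) true (nat_lit 14) true (nat_lit 2) true (nat_lit 14) true (nat_lit 9) (.s true (nat_lit 3) (nat_lit 33) (nat_lit 1) (nat_lit 2) (nat_lit 7) true (nat_lit 4) true (nat_lit 9) true (nat_lit 1) true (nat_lit 15) true (nat_lit 14) (.s false (nat_lit 2) (nat_lit 34) (nat_lit 1) (nat_lit 2) (nat_lit 7) true (nat_lit 4) true (nat_lit 9) true (nat_lit 1) true (nat_lit 15) true (nat_lit 14)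 (.s true (nat_lit 2) (nat_lit 35) (nat_lit 1) (nat_lit 2) (nat_lit 7) true (nat_lit 4) true (nat_lit 9) true (nat_lit 1) true (nat_lit 15) true (nat_lit 14) (.s true (nat_lit 2) (nat_lit 33) (nat_lit 1) (nat_lit 7) (nat_lit 2) true (nat_lit 10) true (nat_lit 14) true (nat_lit 1) true (nat_lit 15) true (nat_lit 9) (.s false (nat_lit 1) (nat_lit 33) (nat_lit 2) (nat_lit 2) (nat_lit 6) true (nat_lit 4) true (nat_lit 10) true (nat_lit 1) true (nat_lit 14) true (nat_lit 14) (.s true (nat_lit 3) (nat_lit 34) (nat_lit 2) (nat_lit 2) (nat_lit 6) true (nat_lit 4) true (nat_lit 10) true (nat_lit 1) true (nat_lit 14) true (nat_lit 14) dC2d_i467)))))))))))))))))))))))))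

noncomputable def dC2d_i469 : IL := (.s true (nat_lit 3) (nat_lit 12) (nat_lit 7) (nat_lit 2) (nat_lit 6) false (nat_lit 1) true (nat_lit 10) true (nat_lit 7) true (nat_lit 9) true (nat_lit 14) (.s false (nat_lit 3) (nat_lit 11) (nat_lit 7) (nat_lit 7) (nat_lit 1) true (nat_lit 4) true (nat_lit 15) true (nat_lit 7) true (nat_lit 9) true (nat_lit 9) (.s true (nat_lit 1) (nat_lit 12) (nat_lit 7) (nat_lit 7) (nat_lit 1) true (nat_lit 4) true (nat_lit 15) true (nat_lit 7) true (nat_lit 9) true (nat_lit 9) (.s false (nat_lit 1) (nat_lit 15) (nat_lit 7) (nat_lit 0) (nat_lit 7) false (nat_lit 2) true (nat_lit 9) true (nat_lit 6) true (nat_lit 9) true (nat_lit 16) (.s true (nat_lit 3) (nat_lit 14) (nat_lit 7) (nat_lit 7) (nat_lit 0) true (nat_lit 5) true (nat_lit 16) true (nat_lit 6) true (nat_lit 9) true (nat_lit 9) (.s true (nat_lit 3) (nat_lit 17) (nat_lit 2) (nat_lit 2) (nat_lit 14) true (nat_lit 0) true (nat_lit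 6) true (nat_lit 5) true (nat_lit 14) true (nat_lit 14) (.s true (nat_lit 3) (nat_lit 16) (nat_lit 2) (nat_lit 4) (nat_lit 7) true (nat_lit 3) true (nat_lit 9) true (nat_lit 5) true (nat_lit 14) true (nat_lit 12) (.s false (nat_lit 3) (nat_lit 17) (nat_lit 2) (nat_lit 14) (nat_lit 2) true (nat_lit 9) true (nat_lit 14) true (nat_lit 5) true (nat_lit 14) true (nat_lit 6) (.s true (nat_lit 1) (nat_lit 16) (nat_lit 15) (nat_lit 2) (nat_lit 2) true (nat_lit 0) true (nat_lit 14) true (nat_lit 5) true (nat_lit 6) true (nat_lit 14) (.s false (nat_lit 3) (nat_lit 17) (nat_lit 14) (nat_lit 2) (nat_lit 2) true (nat_lit 0) true (nat_lit 14) true (nat_lit 5) true (nat_lit 6) true (nat_lit 14) (.s true (nat_lit 2) (nat_lit 17) (nat_lit 15) (nat_lit 2) (nat_lit 2) true (nat_lit 0) true (nat_lit 14) true (nat_lit 5) true (nat_lit 6) true (nat_lit 14) (.s false (nat_lit 3) (nat_lit 18) (nat_lit 2) (nat_lit 2) (nat_lit 11) true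 (nat_lit 1) true (nat_lit 7) true (nat_lit 4) true (nat_lit 14) true (nat_lit 14) (.s false (nat_lit 3) (nat_lit 18) (nat_lit 2) (nat_lit 2) (nat_lit 13) true (nat_lit 1) true (nat_lit 7) true (nat_lit 4) true (nat_lit 14) true (nat_lit 14) (.s false (nat_lit 1) (nat_lit 19) (nat_lit 2) (nat_lit 2) (nat_lit 12) true (nat_lit 1) true (nat_lit 7) true (nat_lit 4) true (nat_lit 14) true (nat_lit 14) (.s true (nat_lit 1) (nat_lit 19) (nat_lit 2) (nat_lit 2) (nat_lit 13) true (nat_lit 1) true (nat_lit 7) true (nat_lit 4) true (nat_lit 14) true (nat_lit 14) (.s true (nat_lit 3) (nat_lit 18) (nat_lit 2) (nat_lit 11) (nat_lit 2) true (nat_lit 9) true (nat_lit 14) true (nat_lit 4) true (nat_lit 14) true (nat_lit 7) (.s true (nat_lit 3) (nat_lit 18) (nat_lit 2) (nat_lit 13) (nat_lit 2) true (nat_lit 9) true (nat_lit 14) true (nat_lit 4) true (nat_lit 14) true (nat_lit 7) (.s true (nat_lit 3) (nat_lit 19) (nat_lit 2) (nat_lit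 11) (nat_lit 2) true (nat_lit 9) true (nat_lit 14) true (nat_lit 4) true (nat_lit 14) true (nat_lit 7) (.s true (nat_lit 1) (nat_lit 19) (nat_lit 2) (nat_lit 12) (nat_lit 2) true (nat_lit 9) true (nat_lit 14) true (nat_lit 4) true (nat_lit 14) true (nat_lit 7) (.s true (nat_lit 2) (nat_lit 18) (nat_lit 12) (nat_lit 2) (nat_lit 2) true (nat_lit 1) true (nat_lit 14) true (nat_lit 4) true (nat_lit 7) true (nat_lit 14) (.s true (nat_lit 1) (nat_lit 19) (nat_lit 11) (nat_lit 2) (nat_lit 2) true (nat_lit 1) true (nat_lit 14) true (nat_lit 4) true (nat_lit 7) true (nat_lit 14) (.s false (nat_lit 1) (nat_lit 19) (nat_lit 13) (nat_lit 2) (nat_lit 2) true (nat_lit 1) true (nat_lit 14) true (nat_lit 4) true (nat_lit 7) true (nat_lit 14) (.s true (nat_lit 3) (nat_lit 20) (nat_lit 0) (nat_lit 6) (nat_lit 6) true (nat_lit 7) true (nat_lit 10) true (nat_lit 3) true (nat_lit 16) true (nat_lit 10) (.s false (nat_lit 2) (nat_lit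 20) (nat_lit 1) (nat_lit 2) (nat_lit 11) true (nat_lit 2) true (nat_lit 7) true (nat_lit 3) true (nat_lit 15) true (nat_lit 14) (.s true (nat_lit 3) (nat_lit 20) (nat_lit 1) (nat_lit 3) (nat_lit 7) true (nat_lit 4) true (nat_lit 9) true (nat_lit 3) true (nat_lit 15) true (nat_lit 13) dC2d_i468)))))))))))))))))))))))))

noncomputable def dC2d_i470 : IL := (.e true (nat_lit 3) (nat_lit 264) (nat_lit 2) (nat_lit 14) (.e true (nat_lit 2) (nat_lit 267) (nat_lit 2) (nat_lit 14) (.e true (nat_lit 1) (nat_lit 64) (nat_lit 20) (nat_lit 3) (.e true (nat_lit 1) (nat_lit 69) (nat_lit 20) (nat_lit 3) (.e false (nat_lit 1) (nat_lit 73) (nat_lit 20) (nat_lit 3) (.e true (nat_lit 2) (nat_lit 325) (nat_lit 0) (nat_lit 16) (.e true (nat_lit 2) (nat_lit 329) (nat_lit 0) (nat_lit 16) (.e false (nat_lit 3) (nat_lit 326) (nat_lit 0) (nat_lit 16) (.e false (nat_lit 3) (nat_lit 327) (nat_lit 0) (nat_lit 16) (.e true (nat_lit 1) (nat_lit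 328) (nat_lit 0) (nat_lit 16) (.e true (nat_lit 3) (nat_lit 330) (nat_lit 0) (nat_lit 16) (.e true (nat_lit 2) (nat_lit 331) (nat_lit 0) (nat_lit 16) (.e false (nat_lit 3) (nat_lit 324) (nat_lit 0) (nat_lit 16) (.e true (nat_lit 1) (nat_lit 333) (nat_lit 0) (nat_lit 16) (.e false (nat_lit 3) (nat_lit 307) (nat_lit 1) (nat_lit 15) (.e true (nat_lit 1) (nat_lit 310) (nat_lit 1) (nat_lit 15) (.e false (nat_lit 3) (nat_lit 311) (nat_lit 1) (nat_lit 15) (.e false (nat_lit 3) (nat_lit 312) (nat_lit 1) (nat_lit 15) (.e true (nat_lit 3) (nat_lit 313) (nat_lit 1) (nat_lit 15) (.e true (nat_lit 1) (nat_lit 314) (nat_lit 1) (nat_lit 15) (.e false (nat_lit 3) (nat_lit 315) (nat_lit 1) (nat_lit 15) (.e false (nat_lit 2) (nat_lit 308) (nat_lit 1) (nat_lit 15) (.e false (nat_lit 2) (nat_lit 306) (nat_lit 1) (nat_lit 15) (.e false (nat_lit 1) (nat_lit 318) (nat_lit 1) (nat_lit 15) (.u (nat_lit 2) (.n (nat_lit 0) (nat_lit 1) (.n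 (nat_lit 1) (nat_lit 4) (.n (nat_lit 2) (nat_lit 2) (.n (nat_lit 3) (nat_lit 1) (.n (nat_lit 4) (nat_lit 2) (.n (nat_lit 6) (nat_lit 2) (.n (nat_lit 7) (nat_lit 3) (.p (nat_lit 8) (nat_lit 3) (.p (nat_lit 9) (nat_lit 4) (.p (nat_lit 10) (nat_lit 3) (.p (nat_lit 11) (nat_lit 4) (.p (nat_lit 13) (nat_lit 3) (.p (nat_lit 14) (nat_lit 2) (.p (nat_lit 17) (nat_lit 3) (.p (nat_lit 18) (nat_lit 2) (.n (nat_lit 19) (nat_lit 3) (.n (nat_lit 21) (nat_lit 2) (.p (nat_lit 23) (nat_lit 2) (.p (nat_lit 25) (nat_lit 1) (.p (nat_lit 29) (nat_lit 1) (.p (nat_lit 34) (nat_lit 2) (.n (nat_lit 35) (nat_lit 3) (.p (nat_lit 38) (nat_lit 3) (.n (nat_lit 205) (nat_lit 1) (.p (nat_lit 206) (nat_lit 1) (.n (nat_lit 207) (nat_lit 5) (.n (nat_lit 208) (nat_lit 1) (.p (nat_lit 209) (nat_lit 6) (.p (nat_lit 210) (nat_lit 1) (.n (nat_lit 211) (nat_lit 2) (.p (nat_lit 212) (nat_lit 2) (.p (nat_lit 213) (nat_lit 2) (.p (nat_lit 214) (nat_lit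 2) (.n (nat_lit 215) (nat_lit 1) (.p (nat_lit 216) (nat_lit 2) (.n (nat_lit 217) (nat_lit 2) (.n (nat_lit 218) (nat_lit 1) (.n (nat_lit 219) (nat_lit 1) (.p (nat_lit 221) (nat_lit 1) (.n (nat_lit 222) (nat_lit 5) (.p (nat_lit 223) (nat_lit 2) (.n (nat_lit 224) (nat_lit 2) (.p (nat_lit 225) (nat_lit 2) (.p (nat_lit 228) (nat_lit 1) (.n (nat_lit 229) (nat_lit 2) (.n (nat_lit 231) (nat_lit 1) (.p (nat_lit 232) (nat_lit 2) (.n (nat_lit 234) (nat_lit 1) (.n (nat_lit 235) (nat_lit 1) (.p (nat_lit 237) (nat_lit 1) (.n (nat_lit 238) (nat_lit 2) (.p (nat_lit 240) (nat_lit 1) (.n (nat_lit 241) (nat_lit 1) (.n (nat_lit 243) (nat_lit 1) (.n (nat_lit 244) (nat_lit 1) (.p (nat_lit 246) (nat_lit 1) (.p (nat_lit 249) (nat_lit 1) (.n (nat_lit 263) (nat_lit 1) (.p (nat_lit 266) (nat_lit 1) .z))))))))))))))))))))))))))))))))))))))))))))))))))))))))))) .nil)))))))))))))))))))))))))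

noncomputable def dC2d_i471 : IL := (.e true (nat_lit 1) (nat_lit 145) (nat_lit 7) (nat_lit 9) (.e true (nat_lit 2) (nat_lit 252) (nat_lit 2) (nat_lit 14) (.e true (nat_lit 1) (nat_lit 254) (nat_lit 2) (nat_lit 14) (.e true (nat_lit 3) (nat_lit 255) (nat_lit 2) (nat_lit 14) (.e false (nat_lit 1) (nat_lit 256) (nat_lit 2) (nat_lit 14) (.e true (nat_lit 2) (nat_lit 258) (nat_lit 2) (nat_lit 14) (.e false (nat_lit 3) (nat_lit 259) (nat_lit 2) (nat_lit 14) (.e true (nat_lit 3) (nat_lit 260) (nat_lit 2) (nat_lit 14) (.e false (nat_lit 3) (nat_lit 261) (nat_lit 2) (nat_lit 14) (.e true (nat_lit 2) (nat_lit 263) (nat_lit 2) (nat_lit 14) (.e false (nat_lit 3) (nat_lit 265) (nat_lit 2) (nat_lit 14) (.e true (nat_lit 2) (nat_lit 266) (nat_lit 2) (nat_lit 14) (.e true (nat_lit 2) (nat_lit 269) (nat_lit 2) (nat_lit 14) (.e false (nat_lit 2) (nat_lit 270) (nat_lit 2) (nat_lit 14) (.e true (nat_lit 2) (nat_lit 272) (nat_lit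 2) (nat_lit 14) (.e true (nat_lit 3) (nat_lit 273) (nat_lit 2) (nat_lit 14) (.e false (nat_lit 2) (nat_lit 274) (nat_lit 2) (nat_lit 14) (.e false (nat_lit 3) (nat_lit 275) (nat_lit 2) (nat_lit 14) (.e true (nat_lit 3) (nat_lit 277) (nat_lit 2) (nat_lit 14) (.e false (nat_lit 2) (nat_lit 279) (nat_lit 2) (nat_lit 14) (.e true (nat_lit 2) (nat_lit 283) (nat_lit 2) (nat_lit 14) (.e false (nat_lit 1) (nat_lit 284) (nat_lit 2) (nat_lit 14) (.e false (nat_lit 3) (nat_lit 285) (nat_lit 2) (nat_lit 14) (.e true (nat_lit 3) (nat_lit 286) (nat_lit 2) (nat_lit 14) (.e true (nat_lit 2) (nat_lit 288) (nat_lit 2) (nat_lit 14) dC2d_i470)))))))))))))))))))))))))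

noncomputable def dC2d_i472 : IL := (.s true (nat_lit 1) (nat_lit 20) (nat_lit 10) (nat_lit 2) (nat_lit 2) true (nat_lit 1) true (nat_lit 9) true (nat_lit 2) true (nat_lit 5) true (nat_lit 9) (.s false (nat_lit 1) (nat_lit 20) (nat_lit 14) (nat_lit 2) (nat_lit 1) true (nat_lit 1) true (nat_lit 10) true (nat_lit 2) true (nat_lit 4) true (nat_lit 9) (.s false (nat_lit 1) (nat_lit 39) (nat_lit 2) (nat_lit 2) (nat_lit 6) true (nat_lit 3) true (nat_lit 7) true (nat_lit 0) true (nat_lit 9) true (nat_lit 9) (.s true (nat_lit 1) (nat_lit 39) (nat_lit 2) (nat_lit 7) (nat_lit 1) true (nat_lit 7) true (nat_lit 10) true (nat_lit 0) true (nat_lit 9) true (nat_lit 6) (.s true (nat_lit 1) (nat_lit 39) (nat_lit 6) (nat_lit 2) (nat_lit 2) true (nat_lit 3) true (nat_lit 9) true (nat_lit 0) true (nat_lit 7) true (nat_lit 9) (.s false (nat_lit 1) (nat_lit 77) (nat_lit 2) (nat_lit 2) (nat_lit 2) true (nat_lit 6) true (nat_lit 9)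 false (nat_lit 2) true (nat_lit 9) true (nat_lit 9) (.s true (nat_lit 1) (nat_lit 91) (nat_lit 1) (nat_lit 2) (nat_lit 2) true (nat_lit 7) true (nat_lit 9) false (nat_lit 3) true (nat_lit 10) true (nat_lit 9) (.s true (nat_lit 1) (nat_lit 96) (nat_lit 2) (nat_lit 2) (nat_lit 1) true (nat_lit 7) true (nat_lit 10) false (nat_lit 3) true (nat_lit 9) true (nat_lit 9) (.e false (nat_lit 2) (nat_lit 289) (nat_lit 2) (nat_lit 9) (.e true (nat_lit 3) (nat_lit 291) (nat_lit 2) (nat_lit 9) (.e false (nat_lit 1) (nat_lit 292) (nat_lit 2) (nat_lit 9) (.e false (nat_lit 2) (nat_lit 293) (nat_lit 2) (nat_lit 9) (.e true (nat_lit 2) (nat_lit 294) (nat_lit 2) (nat_lit 9) (.e false (nat_lit 3) (nat_lit 295) (nat_lit 2) (nat_lit 9) (.e false (nat_lit 3) (nat_lit 297) (nat_lit 2) (nat_lit 9) (.e true (nat_lit 1) (nat_lit 298) (nat_lit 2) (nat_lit 9) (.e true (nat_lit 1) (nat_lit 300) (nat_lit 2) (nat_lit 9) (.e false (nat_lit 1)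 (nat_lit 301) (nat_lit 2) (nat_lit 9) (.e true (nat_lit 1) (nat_lit 303) (nat_lit 2) (nat_lit 9) (.e false (nat_lit 1) (nat_lit 304) (nat_lit 2) (nat_lit 9) (.e true (nat_lit 2) (nat_lit 296) (nat_lit 2) (nat_lit 9) (.e true (nat_lit 3) (nat_lit 299) (nat_lit 2) (nat_lit 9) (.e false (nat_lit 1) (nat_lit 190) (nat_lit 6) (nat_lit 7) (.e true (nat_lit 1) (nat_lit 79) (nat_lit 20) (nat_lit 2) (.u (nat_lit 2) (.p (nat_lit 1) (nat_lit 1) (.n (nat_lit 2) (nat_lit 1) (.n (nat_lit 3) (nat_lit 1) (.p (nat_lit 4) (nat_lit 1) (.p (nat_lit 5) (nat_lit 1) (.n (nat_lit 6) (nat_lit 1) (.p (nat_lit 8) (nat_lit 1) (.n (nat_lit 9) (nat_lit 1) (.p (nat_lit 14) (nat_lit 1) (.n (nat_lit 82) (nat_lit 1) (.p (nat_lit 83) (nat_lit 1) (.n (nat_lit 84) (nat_lit 1) (.p (nat_lit 85) (nat_lit 1) (.n (nat_lit 86) (nat_lit 2) (.p (nat_lit 89) (nat_lit 2) (.p (nat_lit 90) (nat_lit 1) (.p (nat_lit 91) (nat_lit 1) (.n (nat_lit 92) (nat_lit 1)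 (.n (nat_lit 94) (nat_lit 1) .z))))))))))))))))))) .nil)))))))))))))))))))))))))

noncomputable def dC2d_t0 : Tr := (.nd (.nd (.nd (.nd (.nd (.nd (.nd .leaf (nat_lit 164864) (nat_lit 544) (.p (nat_lit 205) (nat_lit 1) (.p (nat_lit 206) (nat_lit 2) (.p (nat_lit 207) (nat_lit 1) (.n (nat_lit 208) (nat_lit 2) (.p (nat_lit 210) (nat_lit 1) (.p (nat_lit 211) (nat_lit 1) (.p (nat_lit 212) (nat_lit 2) (.n (nat_lit 213) (nat_lit 2) (.n (nat_lit 214) (nat_lit 3) (.n (nat_lit 215) (nat_lit 2) (.n (nat_lit 216) (nat_lit 1) (.n (nat_lit 217) (nat_lit 1) (.p (nat_lit 219) (nat_lit 1) (.p (nat_lit 220) (nat_lit 1) (.n (nat_lit 221) (nat_lit 2) (.p (nat_lit 222) (nat_lit 1) (.p (nat_lit 224) (nat_lit 2) (.n (nat_lit 225) (nat_lit 1) (.n (nat_lit 226) (nat_lit 1) (.p (nat_lit 227) (nat_lit 3) (.p (nat_lit 228) (nat_lit 2) (.n (nat_lit 229) (nat_lit 2) (.n (nat_lit 230) (nat_lit 1) (.n (nat_lit 231) (nat_lit 3) (.p (nat_lit 232) (nat_lit 3) (.p (nat_lit 234) (nat_lit 1) (.n (nat_lit 235) (nat_lit 2) (.p (nat_lit 237) (nat_lit 2) (.p (nat_lit 239) (nat_lit 2) (.p (nat_lit 241) (nat_lit 2) (.p (nat_lit 242) (nat_lit 3) (.p (nat_lit 244) (nat_lit 3) (.n (nat_lit 246) (nat_lit 3) (.p (nat_lit 248) (nat_lit 1) (.n (nat_lit 249) (nat_lit 3) (.p (nat_lit 251) (nat_lit 2) .z)))))))))))))))))))))))))))))))))))) (.ct dC2d_c307 (nat_lit 1) (nat_lit 14) (.s false (nat_lit 1) (nat_lit 19) (nat_lit 1) (nat_lit 0) (nat_lit 6) true (nat_lit 3) true (nat_lit 8) true (nat_lit 1) true (nat_lit 13) true (nat_lit 14) (.s true (nat_lit 3) (nat_lit 19) (nat_lit 2) (nat_lit 4) (nat_lit 0) true (nat_lit 9) true (nat_lit 14) true (nat_lit 1) true (nat_lit 12) true (nat_lit 10) (.s true (nat_lit 1) (nat_lit 39) (nat_lit 2) (nat_lit 0) (nat_lit 1) true (nat_lit 8) true (nat_lit 13) false (nat_lit 4) true (nat_lit 12) true (nat_lit 14) (.e true (nat_lit 2) (nat_lit 33) (nat_lit 15) (nat_lit 3) dC2d_i2))))) .leaf) (nat_lit 164866) (nat_lit 696) (.p (nat_lit 292) (nat_lit 1) .z) .df .leaf) (nat_lit 164869) (nat_lit 1147) (.p (nat_lit 336) (nat_lit 1) (.p (nat_lit 337) (nat_lit 2) (.p (nat_lit 338) (nat_lit 1) (.n (nat_lit 339) (nat_lit 3) (.n (nat_lit 340) (nat_lit 2) (.n (nat_lit 341) (nat_lit 1) (.p (nat_lit 343) (nat_lit 2) (.p (nat_lit 344) (nat_lit 2) (.n (nat_lit 345) (nat_lit 3) (.p (nat_lit 346) (nat_lit 1) (.p (nat_lit 347) (nat_lit 3) (.n (nat_lit 348) (nat_lit 2) (.n (nat_lit 349) (nat_lit 3) (.n (nat_lit 351) (nat_lit 1) (.p (nat_lit 352) (nat_lit 1) (.n (nat_lit 353) (nat_lit 3) (.p (nat_lit 354) (nat_lit 2) (.p (nat_lit 356) (nat_lit 3) (.p (nat_lit 357) (nat_lit 2) (.p (nat_lit 358) (nat_lit 2) (.n (nat_lit 359) (nat_lit 1) (.p (nat_lit 360) (nat_lit 2) (.n (nat_lit 361) (nat_lit 2) (.p (nat_lit 362) (nat_lit 3) (.p (nat_lit 363) (nat_lit 1) (.n (nat_lit 365) (nat_lit 2) (.n (nat_lit 366) (nat_lit 1) (.p (nat_lit 367) (nat_lit 2) (.n (nat_lit 368) (nat_lit 2) (.n (nat_lit 369) (nat_lit 3) (.p (nat_lit 370) (nat_lit 3) (.p (nat_lit 371) (nat_lit 1) (.n (nat_lit 372) (nat_lit 2) (.n (nat_lit 373) (nat_lit 1) (.n (nat_lit 375) (nat_lit 2) (.n (nat_lit 376) (nat_lit 1) (.n (nat_lit 377) (nat_lit 2) (.n (nat_lit 378) (nat_lit 2) (.p (nat_lit 379) (nat_lit 1) (.n (nat_lit 380) (nat_lit 2) (.n (nat_lit 381) (nat_lit 2) (.n (nat_lit 382) (nat_lit 3) (.n (nat_lit 383) (nat_lit 1) (.n (nat_lit 384) (nat_lit 3) (.n (nat_lit 385) (nat_lit 3) (.p (nat_lit 386) (nat_lit 2) (.n (nat_lit 388) (nat_lit 2) (.n (nat_lit 389) (nat_lit 2) (.p (nat_lit 390) (nat_lit 1) (.p (nat_lit 391) (nat_lit 3) (.n (nat_lit 393) (nat_lit 3) (.n (nat_lit 395) (nat_lit 2) (.p (nat_lit 396) (nat_lit 3) .z))))))))))))))))))))))))))))))))))))))))))))))))))))) (.ct dC2d_c308 (nat_lit 1) (nat_lit 13) (.s true (nat_lit 1) (nat_lit 77) (nat_lit 0) (nat_lit 2) (nat_lit 2) true (nat_lit 13) true (nat_lit 16) false (nat_lit 6) true (nat_lit 18) true (nat_lit 16) (.e false (nat_lit 1) (nat_lit 208) (nat_lit 2) (nat_lit 16) (.e false (nat_lit 3) (nat_lit 209) (nat_lit 2) (nat_lit 16) (.e false (nat_lit 2) (nat_lit 211) (nat_lit 2) (nat_lit 16) (.e true (nat_lit 1) (nat_lit 213) (nat_lit 2) (nat_lit 16) (.e false (nat_lit 1) (nat_lit 214) (nat_lit 2) (nat_lit 16) (.e true (nat_lit 2) (nat_lit 217) (nat_lit 2) (nat_lit 16) (.e true (nat_lit 3) (nat_lit 218) (nat_lit 2) (nat_lit 16) (.e true (nat_lit 3) (nat_lit 219) (nat_lit 2) (nat_lit 16) (.e true (nat_lit 2) (nat_lit 220) (nat_lit 2) (nat_lit 16) (.e true (nat_lit 2) (nat_lit 221) (nat_lit 2) (nat_lit 16) (.e false (nat_lit 2) (nat_lit 222) (nat_lit 2) (nat_lit 16) (.e false (nat_lit 3) (nat_lit 224) (nat_lit 2) (nat_lit 16) (.e true (nat_lit 2) (nat_lit 225) (nat_lit 2) (nat_lit 16) (.e true (nat_lit 2) (nat_lit 226) (nat_lit 2) (nat_lit 16) (.e true (nat_lit 2) (nat_lit 227) (nat_lit 2) (nat_lit 16) (.e true (nat_lit 3) (nat_lit 229) (nat_lit 2) (nat_lit 16) (.e true (nat_lit 3) (nat_lit 230) (nat_lit 2) (nat_lit 16) (.e true (nat_lit 1) (nat_lit 77) (nat_lit 16) (nat_lit 6) (.e true (nat_lit 2) (nat_lit 289) (nat_lit 0) (nat_lit 18) (.e false (nat_lit 2) (nat_lit 290) (nat_lit 0) (nat_lit 18) (.e false (nat_lit 3) (nat_lit 291) (nat_lit 0) (nat_lit 18) (.e false (nat_lit 3) (nat_lit 293) (nat_lit 0) (nat_lit 18) (.e false (nat_lit 3) (nat_lit 294) (nat_lit 0) (nat_lit 18) dC2d_i3))))))))))))))))))))))))) (.nd (.nd .leaf (nat_lit 164871) (nat_lit 1430) (.p (nat_lit 436) (nat_lit 3) (.p (nat_lit 437) (nat_lit 1) (.p (nat_lit 438) (nat_lit 2) (.p (nat_lit 440) (nat_lit 3) (.n (nat_lit 441) (nat_lit 3) (.n (nat_lit 442) (nat_lit 1) (.p (nat_lit 443) (nat_lit 3) (.p (nat_lit 444) (nat_lit 3) (.p (nat_lit 447) (nat_lit 3) (.n (nat_lit 448) (nat_lit 1) (.p (nat_lit 450) (nat_lit 3) .z))))))))))) (.ct dC2d_c53 (nat_lit 1) (nat_lit 6) (.s true (nat_lit 1) (nat_lit 39) (nat_lit 2) (nat_lit 7) (nat_lit 1) true (nat_lit 7) true (nat_lit 10) true (nat_lit 0) true (nat_lit 9) true (nat_lit 6) (.s true (nat_lit 1) (nat_lit 46) (nat_lit 1) (nat_lit 2) (nat_lit 6) true (nat_lit 4) true (nat_lit 7) false (nat_lit 0) true (nat_lit 10) true (nat_lit 9) (.s true (nat_lit 1) (nat_lit 47) (nat_lit 2) (nat_lit 4) (nat_lit 2) true (nat_lit 6) true (nat_lit 9) false (nat_lit 0) true (nat_lit 9) true (nat_lit 8) (.s false (nat_lit 1) (nat_lit 102) (nat_lit 1) (nat_lit 2) (nat_lit 1) true (nat_lit 8) true (nat_lit 10) false (nat_lit 4) true (nat_lit 10) true (nat_lit 9) (.s false (nat_lit 1) (nat_lit 104) (nat_lit 1) (nat_lit 2) (nat_lit 1) true (nat_lit 8) true (nat_lit 10) false (nat_lit 4) true (nat_lit 10) true (nat_lit 9) (.e false (nat_lit 1) (nat_lit 194) (nat_lit 6) (nat_lit 7) (.e true (nat_lit 1) (nat_lit 334) (nat_lit 1) (nat_lit 10) (.e false (nat_lit 1) (nat_lit 290) (nat_lit 2) (nat_lit 9) (.e true (nat_lit 1) (nat_lit 292) (nat_lit 2) (nat_lit 9) (.e true (nat_lit 2) (nat_lit 293) (nat_lit 2) (nat_lit 9) (.e true (nat_lit 1) (nat_lit 294) (nat_lit 2) (nat_lit 9) dC2d_i4)))))))))))) .leaf) (nat_lit 165888) (nat_lit 527) (.p (nat_lit 205) (nat_lit 1) (.p (nat_lit 206) (nat_lit 3) (.p (nat_lit 207) (nat_lit 3) (.n (nat_lit 208) (nat_lit 2) (.p (nat_lit 210) (nat_lit 1) (.p (nat_lit 211) (nat_lit 2) (.n (nat_lit 212) (nat_lit 2) (.p (nat_lit 214) (nat_lit 1) (.p (nat_lit 215) (nat_lit 3) (.n (nat_lit 216) (nat_lit 3) (.p (nat_lit 218) (nat_lit 1) (.n (nat_lit 219) (nat_lit 1) (.p (nat_lit 220) (nat_lit 1) (.p (nat_lit 222) (nat_lit 2) (.n (nat_lit 224) (nat_lit 1) (.n (nat_lit 225) (nat_lit 2) (.n (nat_lit 226) (nat_lit 2) (.p (nat_lit 227) (nat_lit 2) (.p (nat_lit 228) (nat_lit 2) (.n (nat_lit 229) (nat_lit 3) (.p (nat_lit 230) (nat_lit 3) (.n (nat_lit 231) (nat_lit 3) (.n (nat_lit 232) (nat_lit 2) (.p (nat_lit 234) (nat_lit 2) (.p (nat_lit 235) (nat_lit 1) (.n (nat_lit 237) (nat_lit 1) (.n (nat_lit 239) (nat_lit 1) (.n (nat_lit 241) (nat_lit 1) (.n (nat_lit 242) (nat_lit 2) (.n (nat_lit 243) (nat_lit 1) (.n (nat_lit 244) (nat_lit 1) (.n (nat_lit 245) (nat_lit 3) (.n (nat_lit 246) (nat_lit 3) (.n (nat_lit 248) (nat_lit 3) (.n (nat_lit 249) (nat_lit 3) (.n (nat_lit 251) (nat_lit 1) .z)))))))))))))))))))))))))))))))))))) (.ct dC2d_c307 (nat_lit 1) (nat_lit 14) (.s true (nat_lit 1) (nat_lit 40) (nat_lit 2) (nat_lit 0) (nat_lit 1) true (nat_lit 8) true (nat_lit 13) false (nat_lit 4) true (nat_lit 12) true (nat_lit 14) (.e false (nat_lit 1) (nat_lit 71) (nat_lit 6) (nat_lit 8) (.e true (nat_lit 1) (nat_lit 151) (nat_lit 1) (nat_lit 13) (.e false (nat_lit 1) (nat_lit 40) (nat_lit 12) (nat_lit 4) (.e false (nat_lit 3) (nat_lit 107) (nat_lit 2) (nat_lit 12) (.e false (nat_lit 3) (nat_lit 108) (nat_lit 2) (nat_lit 12) (.e true (nat_lit 3) (nat_lit 109) (nat_lit 2) (nat_lit 12) (.e false (nat_lit 3) (nat_lit 110) (nat_lit 2) (nat_lit 12) (.e true (nat_lit 3) (nat_lit 112) (nat_lit 2) (nat_lit 12) (.e false (nat_lit 3) (nat_lit 114) (nat_lit 2) (nat_lit 12) (.e true (nat_lit 1) (nat_lit 117) (nat_lit 2) (nat_lit 12) (.e true (nat_lit 3) (nat_lit 119) (nat_lit 2) (nat_lit 12) (.e false (nat_lit 3) (nat_lit 123) (nat_lit 2) (nat_lit 12) (.e true (nat_lit 3) (nat_lit 126) (nat_lit 2) (nat_lit 12) (.e false (nat_lit 3) (nat_lit 127) (nat_lit 2) (nat_lit 12) (.e false (nat_lit 1) (nat_lit 128) (nat_lit 2) (nat_lit 12) (.u (nat_lit 2) (.p (nat_lit 4) (nat_lit 1) (.n (nat_lit 6) (nat_lit 1) (.p (nat_lit 8) (nat_lit 1) (.p (nat_lit 11) (nat_lit 1) (.n (nat_lit 20) (nat_lit 1) (.p (nat_lit 21) (nat_lit 1) (.p (nat_lit 40) (nat_lit 1) (.p (nat_lit 41) (nat_lit 1) .z)))))))) .nil)))))))))))))))))) .leaf)) (nat_lit 165890) (nat_lit 697) (.p (nat_lit 293) (nat_lit 1) .z) .df (.nd (.nd (.nd .leaf (nat_lit 165893) (nat_lit 1143) (.p (nat_lit 335) (nat_lit 2) (.p (nat_lit 336) (nat_lit 1) (.p (nat_lit 337) (nat_lit 2) (.n (nat_lit 338) (nat_lit 2) (.p (nat_lit 339) (nat_lit 2) (.n (nat_lit 340) (nat_lit 3) (.p (nat_lit 341) (nat_lit 1) (.n (nat_lit 342) (nat_lit 1) (.p (nat_lit 343) (nat_lit 2) (.p (nat_lit 344) (nat_lit 2) (.n (nat_lit 345) (nat_lit 3) (.p (nat_lit 346) (nat_lit 1) (.p (nat_lit 347) (nat_lit 2) (.p (nat_lit 348) (nat_lit 1) (.p (nat_lit 349) (nat_lit 1) (.n (nat_lit 350) (nat_lit 2) (.p (nat_lit 351) (nat_lit 3) (.n (nat_lit 352) (nat_lit 1) (.n (nat_lit 353) (nat_lit 1) (.n (nat_lit 354) (nat_lit 1) (.p (nat_lit 355) (nat_lit 3) (.n (nat_lit 356) (nat_lit 1) (.p (nat_lit 357) (nat_lit 2) (.p (nat_lit 358) (nat_lit 3) (.n (nat_lit 360) (nat_lit 2) (.p (nat_lit 361) (nat_lit 2) (.n (nat_lit 362) (nat_lit 3) (.p (nat_lit 363) (nat_lit 2) (.p (nat_lit 364) (nat_lit 1) (.p (nat_lit 365) (nat_lit 1) (.p (nat_lit 367) (nat_lit 2) (.n (nat_lit 368) (nat_lit 2) (.p (nat_lit 369) (nat_lit 2) (.p (nat_lit 370) (nat_lit 3) (.p (nat_lit 371) (nat_lit 3) (.n (nat_lit 372) (nat_lit 1) (.n (nat_lit 374) (nat_lit 1) (.p (nat_lit 375) (nat_lit 1) (.n (nat_lit 376) (nat_lit 3) (.p (nat_lit 377) (nat_lit 1) (.p (nat_lit 378) (nat_lit 1) (.p (nat_lit 379) (nat_lit 3) (.n (nat_lit 380) (nat_lit 3) (.p (nat_lit 381) (nat_lit 3) (.n (nat_lit 382) (nat_lit 3) (.p (nat_lit 383) (nat_lit 1) (.n (nat_lit 384) (nat_lit 2) (.n (nat_lit 385) (nat_lit 2) (.n (nat_lit 386) (nat_lit 1) (.p (nat_lit 388) (nat_lit 1) (.p (nat_lit 389) (nat_lit 1) (.p (nat_lit 390) (nat_lit 3) (.p (nat_lit 391) (nat_lit 2) (.n (nat_lit 393) (nat_lit 2) (.p (nat_lit 395) (nat_lit 1) (.p (nat_lit 396) (nat_lit 2) .z)))))))))))))))))))))))))))))))))))))))))))))))))))))))) (.ct dC2d_c308 (nat_lit 1) (nat_lit 13) (.s true (nat_lit 1) (nat_lit 78) (nat_lit 2) (nat_lit 2) (nat_lit 0) true (nat_lit 13) true (nat_lit 18) false (nat_lit 6) true (nat_lit 16) true (nat_lit 16) (.e true (nat_lit 1) (nat_lit 293) (nat_lit 0) (nat_lit 18) (.e false (nat_lit 1) (nat_lit 78) (nat_lit 17) (nat_lit 6) (.e true (nat_lit 3) (nat_lit 206) (nat_lit 2) (nat_lit 16) (.e false (nat_lit 3) (nat_lit 207) (nat_lit 2) (nat_lit 16) (.e true (nat_lit 1) (nat_lit 208) (nat_lit 2) (nat_lit 16) (.e false (nat_lit 3) (nat_lit 209) (nat_lit 2) (nat_lit 16) (.e false (nat_lit 3) (nat_lit 210) (nat_lit 2) (nat_lit 16) (.e true (nat_lit 2) (nat_lit 211) (nat_lit 2) (nat_lit 16) (.e true (nat_lit 3) (nat_lit 214) (nat_lit 2) (nat_lit 16) (.e true (nat_lit 1) (nat_lit 215) (nat_lit 2) (nat_lit 16) (.e true (nat_lit 2) (nat_lit 216) (nat_lit 2) (nat_lit 16) (.e false (nat_lit 1) (nat_lit 218) (nat_lit 2) (nat_lit 16) dC2d_i5)))))))))))))) .leaf) (nat_lit 165895) (nat_lit 1418) (.n (nat_lit 436) (nat_lit 1) (.p (nat_lit 437) (nat_lit 1) (.p (nat_lit 438) (nat_lit 2) (.p (nat_lit 439) (nat_lit 2) (.n (nat_lit 440) (nat_lit 1) (.p (nat_lit 441) (nat_lit 3) (.n (nat_lit 443) (nat_lit 1) (.p (nat_lit 444) (nat_lit 3) (.n (nat_lit 447) (nat_lit 2) (.p (nat_lit 448) (nat_lit 3) (.n (nat_lit 450) (nat_lit 2) .z))))))))))) (.ct dC2d_c53 (nat_lit 1) (nat_lit 6) (.s true (nat_lit 2) (nat_lit 20) (nat_lit 2) (nat_lit 14) (nat_lit 1) true (nat_lit 7) true (nat_lit 10) true (nat_lit 2) true (nat_lit 9) true (nat_lit 4) (.s true (nat_lit 1) (nat_lit 40) (nat_lit 1) (nat_lit 2) (nat_lit 7) true (nat_lit 3) true (nat_lit 6) true (nat_lit 0) true (nat_lit 10) true (nat_lit 9) (.s true (nat_lit 1) (nat_lit 40) (nat_lit 2) (nat_lit 2) (nat_lit 6) true (nat_lit 3) true (nat_lit 7) true (nat_lit 0) true (nat_lit 9) true (nat_lit 9) (.s true (nat_lit 2) (nat_lit 39) (nat_lit 2) (nat_lit 7) (nat_lit 1) true (nat_lit 7) true (nat_lit 10) true (nat_lit 0) true (nat_lit 9) true (nat_lit 6) (.s true (nat_lit 2) (nat_lit 47) (nat_lit 2) (nat_lit 4) (nat_lit 2) true (nat_lit 6) true (nat_lit 9) false (nat_lit 0) true (nat_lit 9) true (nat_lit 8) (.s false (nat_lit 2) (nat_lit 77) (nat_lit 2) (nat_lit 2) (nat_lit 2) true (nat_lit 6) true (nat_lit 9) false (nat_lit 2) true (nat_lit 9) true (nat_lit 9) (.s false (nat_lit 1) (nat_lit 92) (nat_lit 2) (nat_lit 2) (nat_lit 1) true (nat_lit 7) true (nat_lit 10) false (nat_lit 3) true (nat_lit 9) true (nat_lit 9) dC2d_i6)))))))) .leaf) (nat_lit 166912) (nat_lit 548) (.p (nat_lit 205) (nat_lit 1) (.p (nat_lit 206) (nat_lit 3) (.p (nat_lit 207) (nat_lit 3) (.n (nat_lit 208) (nat_lit 3) (.p (nat_lit 209) (nat_lit 1) (.n (nat_lit 211) (nat_lit 1) (.p (nat_lit 212) (nat_lit 2) (.p (nat_lit 213) (nat_lit 1) (.n (nat_lit 214) (nat_lit 2) (.p (nat_lit 215) (nat_lit 1) (.n (nat_lit 217) (nat_lit 3) (.p (nat_lit 219) (nat_lit 3) (.n (nat_lit 221) (nat_lit 3) (.p (nat_lit 225) (nat_lit 3) (.p (nat_lit 227) (nat_lit 1) (.p (nat_lit 228) (nat_lit 2) (.n (nat_lit 229) (nat_lit 3) (.p (nat_lit 230) (nat_lit 2) (.n (nat_lit 242) (nat_lit 3) (.n (nat_lit 243) (nat_lit 2) (.p (nat_lit 245) (nat_lit 2) (.n (nat_lit 246) (nat_lit 1) (.p (nat_lit 247) (nat_lit 2) (.n (nat_lit 248) (nat_lit 2) (.p (nat_lit 249) (nat_lit 3) (.n (nat_lit 251) (nat_lit 3) .z)))))))))))))))))))))))))) (.ct dC2d_c307 (nat_lit 1) (nat_lit 14) (.s true (nat_lit 1) (nat_lit 10) (nat_lit 0) (nat_lit 7) (nat_lit 2) true (nat_lit 9) true (nat_lit 12) true (nat_lit 5) true (nat_lit 14) true (nat_lit 7) (.e true (nat_lit 1) (nat_lit 79) (nat_lit 5) (nat_lit 9) (.e true (nat_lit 1) (nat_lit 130) (nat_lit 2) (nat_lit 12) (.e true (nat_lit 1) (nat_lit 43) (nat_lit 10) (nat_lit 5) (.e false (nat_lit 1) (nat_lit 167) (nat_lit 0) (nat_lit 14) (.e true (nat_lit 1) (nat_lit 49) (nat_lit 7) (nat_lit 7) (.e false (nat_lit 1) (nat_lit 50) (nat_lit 7) (nat_lit 7) (.e false (nat_lit 1) (nat_lit 52) (nat_lit 7) (nat_lit 7) (.e false (nat_lit 1) (nat_lit 56) (nat_lit 7) (nat_lit 7) (.e true (nat_lit 1) (nat_lit 58) (nat_lit 7) (nat_lit 7) (.e true (nat_lit 2) (nat_lit 59) (nat_lit 7) (nat_lit 7) (.u (nat_lit 2) (.p (nat_lit 3) (nat_lit 1) (.n (nat_lit 4) (nat_lit 1) (.n (nat_lit 8) (nat_lit 1) (.n (nat_lit 10) (nat_lit 1) (.p (nat_lit 12) (nat_lit 1) (.n (nat_lit 14) (nat_lit 1) (.p (nat_lit 16) (nat_lit 1) (.n (nat_lit 20) (nat_lit 1) (.n (nat_lit 25) (nat_lit 1) (.n (nat_lit 42) (nat_lit 1) .z)))))))))) .nil))))))))))))) (.nd (.nd .leaf (nat_lit 166914) (nat_lit 698) (.p (nat_lit 294) (nat_lit 1) .z) .df .leaf) (nat_lit 166917) (nat_lit 1063) (.n (nat_lit 335) (nat_lit 2) (.p (nat_lit 336) (nat_lit 3) (.n (nat_lit 337) (nat_lit 1) (.p (nat_lit 338) (nat_lit 1) (.p (nat_lit 339) (nat_lit 2) (.p (nat_lit 340) (nat_lit 1) (.p (nat_lit 341) (nat_lit 3) (.p (nat_lit 342) (nat_lit 1) (.n (nat_lit 343) (nat_lit 3) (.p (nat_lit 344) (nat_lit 3) (.n (nat_lit 345) (nat_lit 2) (.n (nat_lit 346) (nat_lit 1) (.p (nat_lit 347) (nat_lit 3) (.p (nat_lit 351) (nat_lit 1) (.p (nat_lit 353) (nat_lit 2) (.p (nat_lit 354) (nat_lit 1) (.n (nat_lit 355) (nat_lit 2) (.p (nat_lit 356) (nat_lit 1) (.n (nat_lit 357) (nat_lit 1) (.p (nat_lit 358) (nat_lit 1) (.p (nat_lit 359) (nat_lit 2) (.p (nat_lit 360) (nat_lit 2) (.n (nat_lit 361) (nat_lit 1) (.p (nat_lit 363) (nat_lit 3) (.n (nat_lit 364) (nat_lit 3) (.p (nat_lit 366) (nat_lit 1) (.n (nat_lit 367) (nat_lit 2) (.p (nat_lit 368) (nat_lit 3) (.n (nat_lit 369) (nat_lit 3) (.p (nat_lit 370) (nat_lit 3) (.p (nat_lit 371) (nat_lit 3) (.p (nat_lit 372) (nat_lit 2) (.n (nat_lit 373) (nat_lit 3) (.n (nat_lit 374) (nat_lit 1) (.n (nat_lit 380) (nat_lit 1) (.n (nat_lit 381) (nat_lit 3) (.p (nat_lit 382) (nat_lit 1) (.p (nat_lit 383) (nat_lit 3) .z)))))))))))))))))))))))))))))))))))))) (.ct dC2d_c308 (nat_lit 1) (nat_lit 13) (.s true (nat_lit 3) (nat_lit 10) (nat_lit 2) (nat_lit 5) (nat_lit 7) true (nat_lit 4) true (nat_lit 11) true (nat_lit 9) true (nat_lit 16) true (nat_lit 13) dC2d_i8)) .leaf))) (nat_lit 166919) (nat_lit 1396) (.p (nat_lit 450) (nat_lit 1) .z) .df (.nd (.nd (.nd (.nd .leaf (nat_lit 167936) (nat_lit 528) (.n (nat_lit 205) (nat_lit 1) (.p (nat_lit 206) (nat_lit 2) (.p (nat_lit 207) (nat_lit 2) (.p (nat_lit 208) (nat_lit 3) (.p (nat_lit 210) (nat_lit 3) (.n (nat_lit 212) (nat_lit 1) (.n (nat_lit 214) (nat_lit 1) (.p (nat_lit 215) (nat_lit 1) (.p (nat_lit 216) (nat_lit 3) (.p (nat_lit 217) (nat_lit 1) (.n (nat_lit 218) (nat_lit 1) (.p (nat_lit 219) (nat_lit 1) (.n (nat_lit 221) (nat_lit 1) (.n (nat_lit 225) (nat_lit 1) (.p (nat_lit 226) (nat_lit 1) (.n (nat_lit 227) (nat_lit 3) (.p (nat_lit 228) (nat_lit 2) (.n (nat_lit 229) (nat_lit 2) (.n (nat_lit 230) (nat_lit 2) (.n (nat_lit 231) (nat_lit 3) (.p (nat_lit 232) (nat_lit 2) (.p (nat_lit 234) (nat_lit 3) (.n (nat_lit 238) (nat_lit 1) (.p (nat_lit 241) (nat_lit 1) (.n (nat_lit 242) (nat_lit 2) (.n (nat_lit 243) (nat_lit 1) (.p (nat_lit 244) (nat_lit 2) (.n (nat_lit 245) (nat_lit 2) (.p (nat_lit 246) (nat_lit 2) (.p (nat_lit 247) (nat_lit 1) (.p (nat_lit 248) (nat_lit 2) (.p (nat_lit 250) (nat_lit 1) (.p (nat_lit 251) (nat_lit 1) .z))))))))))))))))))))))))))))))))) (.ct dC2d_c307 (nat_lit 1) (nat_lit 14) (.s true (nat_lit 1) (nat_lit 40) (nat_lit 1) (nat_lit 0) (nat_lit 2) true (nat_lit 8) true (nat_lit 12) false (nat_lit 4) true (nat_lit 13) true (nat_lit 14) (.e false (nat_lit 1) (nat_lit 71) (nat_lit 6) (nat_lit 8) (.e true (nat_lit 3) (nat_lit 106) (nat_lit 2) (nat_lit 12) (.e true (nat_lit 1) (nat_lit 107) (nat_lit 2) (nat_lit 12) (.e true (nat_lit 1) (nat_lit 108) (nat_lit 2) (nat_lit 12) (.e true (nat_lit 3) (nat_lit 112) (nat_lit 2) (nat_lit 12) (.e false (nat_lit 2) (nat_lit 113) (nat_lit 2) (nat_lit 12) (.e false (nat_lit 3) (nat_lit 114) (nat_lit 2) (nat_lit 12) (.e true (nat_lit 2) (nat_lit 115) (nat_lit 2) (nat_lit 12) (.e false (nat_lit 2) (nat_lit 118) (nat_lit 2) (nat_lit 12) (.e false (nat_lit 2) (nat_lit 119) (nat_lit 2) (nat_lit 12) (.e false (nat_lit 1) (nat_lit 120) (nat_lit 2) (nat_lit 12) (.e false (nat_lit 1) (nat_lit 121) (nat_lit 2) (nat_lit 12) (.e true (nat_lit 2) (nat_lit 122) (nat_lit 2) (nat_lit 12) (.e false (nat_lit 3) (nat_lit 123) (nat_lit 2) (nat_lit 12) (.e false (nat_lit 1) (nat_lit 125) (nat_lit 2) (nat_lit 12) (.e true (nat_lit 3) (nat_lit 126) (nat_lit 2) (nat_lit 12) (.e true (nat_lit 3) (nat_lit 127) (nat_lit 2) (nat_lit 12) (.e false (nat_lit 1) (nat_lit 128) (nat_lit 2) (nat_lit 12) (.e false (nat_lit 3) (nat_lit 130) (nat_lit 2) (nat_lit 12) (.e true (nat_lit 3) (nat_lit 131) (nat_lit 2) (nat_lit 12) (.e false (nat_lit 1) (nat_lit 40) (nat_lit 11) (nat_lit 4) (.e false (nat_lit 1) (nat_lit 156) (nat_lit 1) (nat_lit 13) (.u (nat_lit 2) (.n (nat_lit 6) (nat_lit 1) (.p (nat_lit 8) (nat_lit 1) (.n (nat_lit 20) (nat_lit 1) (.p (nat_lit 40) (nat_lit 1) .z)))) .nil))))))))))))))))))))))))) .leaf) (nat_lit 167938) (nat_lit 699) (.p (nat_lit 295) (nat_lit 1) .z) .df .leaf) (nat_lit 167941) (nat_lit 1101) (.p (nat_lit 335) (nat_lit 2) (.p (nat_lit 340) (nat_lit 3) (.p (nat_lit 341) (nat_lit 2) (.n (nat_lit 342) (nat_lit 1) (.n (nat_lit 343) (nat_lit 1) (.p (nat_lit 344) (nat_lit 3) (.p (nat_lit 345) (nat_lit 3) (.p (nat_lit 346) (nat_lit 3) (.n (nat_lit 347) (nat_lit 3) (.n (nat_lit 349) (nat_lit 2) (.n (nat_lit 350) (nat_lit 2) (.n (nat_lit 351) (nat_lit 1) (.n (nat_lit 352) (nat_lit 3) (.p (nat_lit 353) (nat_lit 2) (.n (nat_lit 355) (nat_lit 1) (.n (nat_lit 358) (nat_lit 3) (.n (nat_lit 359) (nat_lit 3) (.n (nat_lit 360) (nat_lit 3) (.p (nat_lit 361) (nat_lit 1) (.n (nat_lit 362) (nat_lit 1) (.p (nat_lit 364) (nat_lit 3) (.p (nat_lit 366) (nat_lit 1) (.p (nat_lit 367) (nat_lit 2) (.p (nat_lit 369) (nat_lit 3) (.n (nat_lit 370) (nat_lit 2) (.n (nat_lit 371) (nat_lit 1) (.n (nat_lit 372) (nat_lit 3) (.p (nat_lit 373) (nat_lit 1) (.p (nat_lit 374) (nat_lit 1) (.p (nat_lit 376) (nat_lit 1) (.p (nat_lit 379) (nat_lit 1) (.p (nat_lit 382) (nat_lit 3) (.p (nat_lit 383) (nat_lit 2) (.p (nat_lit 385) (nat_lit 1) (.n (nat_lit 388) (nat_lit 1) (.n (nat_lit 396) (nat_lit 1) .z)))))))))))))))))))))))))))))))))))) (.ct dC2d_c308 (nat_lit 1) (nat_lit 13) (.s true (nat_lit 1) (nat_lit 15) (nat_lit 2) (nat_lit 13) (nat_lit 2) true (nat_lit 11) true (nat_lit 16) true (nat_lit 7) true (nat_lit 16) true (nat_lit 8) (.s false (nat_lit 1) (nat_lit 35) (nat_lit 1) (nat_lit 2) (nat_lit 6) true (nat_lit 7) true (nat_lit 12) true (nat_lit 0) true (nat_lit 17) true (nat_lit 16) (.s true (nat_lit 1) (nat_lit 92) (nat_lit 2) (nat_lit 1) (nat_lit 0) true (nat_lit 13) true (nat_lit 18) false (nat_lit 8) true (nat_lit 16) true (nat_lit 17) (.e false (nat_lit 3) (nat_lit 106) (nat_lit 7) (nat_lit 11) (.e false (nat_lit 1) (nat_lit 108) (nat_lit 7) (nat_lit 11) (.e true (nat_lit 1) (nat_lit 110) (nat_lit 7) (nat_lit 11) (.e true (nat_lit 3) (nat_lit 112) (nat_lit 7) (nat_lit 11) (.e true (nat_lit 1) (nat_lit 113) (nat_lit 7) (nat_lit 11) (.e false (nat_lit 3) (nat_lit 114) (nat_lit 7) (nat_lit 11) (.e false (nat_lit 2) (nat_lit 115) (nat_lit 7) (nat_lit 11) (.e true (nat_lit 1) (nat_lit 116) (nat_lit 7) (nat_lit 11) (.e true (nat_lit 2) (nat_lit 117) (nat_lit 7) (nat_lit 11) (.e false (nat_lit 1) (nat_lit 118) (nat_lit 7) (nat_lit 11) (.e true (nat_lit 2) (nat_lit 120) (nat_lit 7) (nat_lit 11) (.e true (nat_lit 1) (nat_lit 121) (nat_lit 7) (nat_lit 11) (.e false (nat_lit 3) (nat_lit 122) (nat_lit 7) (nat_lit 11) dC2d_i11))))))))))))))))) (.nd (.nd .leaf (nat_lit 167943) (nat_lit 1408) (.p (nat_lit 436) (nat_lit 2) (.n (nat_lit 437) (nat_lit 2) (.p (nat_lit 438) (nat_lit 3) (.p (nat_lit 439) (nat_lit 2) (.n (nat_lit 440) (nat_lit 3) (.n (nat_lit 441) (nat_lit 2) (.n (nat_lit 442) (nat_lit 1) (.p (nat_lit 443) (nat_lit 1) (.p (nat_lit 444) (nat_lit 1) (.n (nat_lit 447) (nat_lit 2) (.p (nat_lit 448) (nat_lit 3) (.n (nat_lit 450) (nat_lit 2) .z)))))))))))) (.ct dC2d_c53 (nat_lit 1) (nat_lit 6) (.s true (nat_lit 2) (nat_lit 14) (nat_lit 7) (nat_lit 7) (nat_lit 1) true (nat_lit 3) true (nat_lit 10) true (nat_lit 4) true (nat_lit 6) true (nat_lit 6) (.s true (nat_lit 2) (nat_lit 96) (nat_lit 1) (nat_lit 2) (nat_lit 2) true (nat_lit 7) true (nat_lit 9) false (nat_lit 3) true (nat_lit 10) true (nat_lit 9) (.s false (nat_lit 2) (nat_lit 96) (nat_lit 2) (nat_lit 1) (nat_lit 2) true (nat_lit 6) true (nat_lit 9) false (nat_lit 3) true (nat_lit 9) true (nat_lit 10) (.s false (nat_lit 2) (nat_lit 96) (nat_lit 2) (nat_lit 2) (nat_lit 1) true (nat_lit 7) true (nat_lit 10) false (nat_lit 3) true (nat_lit 9) true (nat_lit 9) (.e false (nat_lit 1) (nat_lit 165) (nat_lit 7) (nat_lit 6) (.e true (nat_lit 3) (nat_lit 167) (nat_lit 7) (nat_lit 6) (.e true (nat_lit 1) (nat_lit 297) (nat_lit 2) (nat_lit 9) (.e false (nat_lit 1) (nat_lit 289) (nat_lit 2) (nat_lit 9) (.e true (nat_lit 2) (nat_lit 290) (nat_lit 2) (nat_lit 9) (.e false (nat_lit 2) (nat_lit 291) (nat_lit 2) (nat_lit 9) (.e false (nat_lit 1) (nat_lit 292) (nat_lit 2) (nat_lit 9) (.e false (nat_lit 2) (nat_lit 293) (nat_lit 2) (nat_lit 9) (.e true (nat_lit 2) (nat_lit 294) (nat_lit 2) (nat_lit 9) (.e true (nat_lit 2) (nat_lit 295) (nat_lit 2) (nat_lit 9) (.e true (nat_lit 2) (nat_lit 296) (nat_lit 2) (nat_lit 9) (.e false (nat_lit 2) (nat_lit 298) (nat_lit 2) (nat_lit 9) (.e false (nat_lit 2) (nat_lit 303) (nat_lit 2) (nat_lit 9) (.e true (nat_lit 2) (nat_lit 304) (nat_lit 2) (nat_lit 9) (.u (nat_lit 2) (.p (nat_lit 5) (nat_lit 1) (.n (nat_lit 7) (nat_lit 1) (.n (nat_lit 8) (nat_lit 1) (.p (nat_lit 14) (nat_lit 1) (.n (nat_lit 60) (nat_lit 1) (.p (nat_lit 61) (nat_lit 1) (.p (nat_lit 63) (nat_lit 1) (.p (nat_lit 80) (nat_lit 1) (.n (nat_lit 81) (nat_lit 2) (.n (nat_lit 82) (nat_lit 2) (.p (nat_lit 83) (nat_lit 1) (.n (nat_lit 84) (nat_lit 2) (.p (nat_lit 85) (nat_lit 2) (.n (nat_lit 86) (nat_lit 2) (.n (nat_lit 87) (nat_lit 2) (.n (nat_lit 88) (nat_lit 1) (.p (nat_lit 89) (nat_lit 2) (.p (nat_lit 94) (nat_lit 2) (.n (nat_lit 95) (nat_lit 2) .z))))))))))))))))))) .nil)))))))))))))))))))) .leaf) (nat_lit 168960) (nat_lit 531) (.n (nat_lit 205) (nat_lit 2) (.n (nat_lit 206) (nat_lit 3) (.p (nat_lit 207) (nat_lit 2) (.n (nat_lit 208) (nat_lit 1) (.n (nat_lit 209) (nat_lit 3) (.p (nat_lit 210) (nat_lit 3) (.p (nat_lit 212) (nat_lit 3) (.n (nat_lit 213) (nat_lit 2) (.n (nat_lit 215) (nat_lit 2) (.n (nat_lit 216) (nat_lit 3) (.p (nat_lit 217) (nat_lit 1) (.n (nat_lit 218) (nat_lit 2) (.n (nat_lit 219) (nat_lit 3) (.n (nat_lit 220) (nat_lit 2) (.n (nat_lit 221) (nat_lit 2) (.p (nat_lit 222) (nat_lit 2) (.n (nat_lit 225) (nat_lit 3) (.n (nat_lit 226) (nat_lit 3) (.p (nat_lit 228) (nat_lit 2) (.n (nat_lit 230) (nat_lit 1) (.n (nat_lit 231) (nat_lit 3) (.p (nat_lit 232) (nat_lit 2) (.p (nat_lit 234) (nat_lit 1) (.p (nat_lit 238) (nat_lit 1) (.n (nat_lit 241) (nat_lit 1) (.n (nat_lit 242) (nat_lit 1) (.p (nat_lit 243) (nat_lit 2) (.p (nat_lit 244) (nat_lit 3) (.p (nat_lit 246) (nat_lit 3) (.n (nat_lit 247) (nat_lit 3) (.n (nat_lit 248) (nat_lit 2) (.p (nat_lit 249) (nat_lit 2) (.p (nat_lit 250) (nat_lit 3) (.n (nat_lit 251) (nat_lit 1) .z)))))))))))))))))))))))))))))))))) (.ct dC2d_c307 (nat_lit 1) (nat_lit 14) (.s true (nat_lit 1) (nat_lit 41) (nat_lit 1) (nat_lit 0) (nat_lit 2) true (nat_lit 8) true (nat_lit 12) false (nat_lit 4) true (nat_lit 13) true (nat_lit 14) (.e false (nat_lit 1) (nat_lit 61) (nat_lit 6) (nat_lit 8) (.e true (nat_lit 1) (nat_lit 63) (nat_lit 6) (nat_lit 8) (.e false (nat_lit 1) (nat_lit 64) (nat_lit 6) (nat_lit 8) (.e false (nat_lit 1) (nat_lit 66) (nat_lit 6) (nat_lit 8) (.e true (nat_lit 1) (nat_lit 71) (nat_lit 6) (nat_lit 8) (.e true (nat_lit 1) (nat_lit 72) (nat_lit 6) (nat_lit 8) (.e true (nat_lit 1) (nat_lit 73) (nat_lit 6) (nat_lit 8) (.e true (nat_lit 1) (nat_lit 106) (nat_lit 2) (nat_lit 12) (.e true (nat_lit 3) (nat_lit 109) (nat_lit 2) (nat_lit 12) (.e false (nat_lit 3) (nat_lit 110) (nat_lit 2) (nat_lit 12) (.e true (nat_lit 2) (nat_lit 112) (nat_lit 2) (nat_lit 12) (.e true (nat_lit 1) (nat_lit 113) (nat_lit 2) (nat_lit 12) (.e false (nat_lit 2) (nat_lit 114) (nat_lit 2) (nat_lit 12) (.e false (nat_lit 1) (nat_lit 115) (nat_lit 2) (nat_lit 12) (.e true (nat_lit 2) (nat_lit 118) (nat_lit 2) (nat_lit 12) (.e false (nat_lit 1) (nat_lit 120) (nat_lit 2) (nat_lit 12) (.e true (nat_lit 1) (nat_lit 122) (nat_lit 2) (nat_lit 12) (.e false (nat_lit 1) (nat_lit 128) (nat_lit 2) (nat_lit 12) dC2d_i12)))))))))))))))))))) .leaf)) (nat_lit 168962) (nat_lit 700) (.p (nat_lit 296) (nat_lit 1) .z) .df (.nd (.nd (.nd .leaf (nat_lit 168965) (nat_lit 1104) (.n (nat_lit 335) (nat_lit 3) (.n (nat_lit 336) (nat_lit 1) (.n (nat_lit 337) (nat_lit 2) (.n (nat_lit 338) (nat_lit 2) (.p (nat_lit 339) (nat_lit 3) (.n (nat_lit 340) (nat_lit 2) (.p (nat_lit 341) (nat_lit 1) (.p (nat_lit 342) (nat_lit 2) (.n (nat_lit 343) (nat_lit 2) (.n (nat_lit 344) (nat_lit 2) (.p (nat_lit 345) (nat_lit 1) (.p (nat_lit 346) (nat_lit 1) (.n (nat_lit 347) (nat_lit 1) (.n (nat_lit 349) (nat_lit 3) (.n (nat_lit 351) (nat_lit 1) (.p (nat_lit 352) (nat_lit 1) (.p (nat_lit 353) (nat_lit 2) (.p (nat_lit 354) (nat_lit 1) (.n (nat_lit 356) (nat_lit 1) (.p (nat_lit 357) (nat_lit 1) (.p (nat_lit 358) (nat_lit 1) (.p (nat_lit 359) (nat_lit 3) (.n (nat_lit 360) (nat_lit 1) (.n (nat_lit 361) (nat_lit 3) (.n (nat_lit 363) (nat_lit 1) (.p (nat_lit 364) (nat_lit 2) (.n (nat_lit 366) (nat_lit 2) (.n (nat_lit 367) (nat_lit 1) (.p (nat_lit 368) (nat_lit 2) (.n (nat_lit 369) (nat_lit 2) (.p (nat_lit 371) (nat_lit 2) (.n (nat_lit 372) (nat_lit 2) (.n (nat_lit 373) (nat_lit 3) (.p (nat_lit 374) (nat_lit 1) (.n (nat_lit 376) (nat_lit 1) (.n (nat_lit 379) (nat_lit 1) (.n (nat_lit 380) (nat_lit 1) (.n (nat_lit 381) (nat_lit 3) (.n (nat_lit 382) (nat_lit 2) (.p (nat_lit 383) (nat_lit 1) (.n (nat_lit 385) (nat_lit 1) (.p (nat_lit 388) (nat_lit 1) (.p (nat_lit 396) (nat_lit 1) .z))))))))))))))))))))))))))))))))))))))))))) (.ct dC2d_c308 (nat_lit 1) (nat_lit 13) (.s true (nat_lit 3) (nat_lit 47) (nat_lit 5) (nat_lit 1) (nat_lit 1) true (nat_lit 8) true (nat_lit 17) false (nat_lit 2) true (nat_lit 13) true (nat_lit 17) (.e true (nat_lit 1) (nat_lit 91) (nat_lit 12) (nat_lit 8) (.e true (nat_lit 1) (nat_lit 92) (nat_lit 12) (nat_lit 8) (.e true (nat_lit 3) (nat_lit 93) (nat_lit 12) (nat_lit 8) (.e true (nat_lit 1) (nat_lit 94) (nat_lit 12) (nat_lit 8) (.e false (nat_lit 3) (nat_lit 95) (nat_lit 12) (nat_lit 8) (.e false (nat_lit 1) (nat_lit 96) (nat_lit 12) (nat_lit 8) (.e false (nat_lit 3) (nat_lit 253) (nat_lit 1) (nat_lit 17) (.e false (nat_lit 3) (nat_lit 256) (nat_lit 1) (nat_lit 17) (.e false (nat_lit 3) (nat_lit 258) (nat_lit 1) (nat_lit 17) (.e false (nat_lit 3) (nat_lit 259) (nat_lit 1) (nat_lit 17) (.e true (nat_lit 3) (nat_lit 260) (nat_lit 1) (nat_lit 17) (.e true (nat_lit 1) (nat_lit 261) (nat_lit 1) (nat_lit 17) dC2d_i13)))))))))))))) .leaf) (nat_lit 168967) (nat_lit 1404) (.p (nat_lit 436) (nat_lit 3) (.p (nat_lit 437) (nat_lit 2) (.n (nat_lit 438) (nat_lit 3) (.n (nat_lit 439) (nat_lit 3) (.p (nat_lit 440) (nat_lit 1) (.p (nat_lit 441) (nat_lit 3) (.p (nat_lit 442) (nat_lit 3) (.n (nat_lit 443) (nat_lit 3) (.n (nat_lit 444) (nat_lit 2) (.n (nat_lit 447) (nat_lit 2) (.p (nat_lit 448) (nat_lit 3) (.p (nat_lit 450) (nat_lit 3) .z)))))))))))) (.ct dC2d_c53 (nat_lit 1) (nat_lit 6) (.s true (nat_lit 2) (nat_lit 14) (nat_lit 7) (nat_lit 2) (nat_lit 6) false (nat_lit 0) true (nat_lit 7) true (nat_lit 4) true (nat_lit 6) true (nat_lit 9) (.s true (nat_lit 3) (nat_lit 14) (nat_lit 7) (nat_lit 7) (nat_lit 1) true (nat_lit 3) true (nat_lit 10) true (nat_lit 4) true (nat_lit 6) true (nat_lit 6) (.s true (nat_lit 2) (nat_lit 19) (nat_lit 2) (nat_lit 2) (nat_lit 14) true (nat_lit 0) true (nat_lit 4) true (nat_lit 3) true (nat_lit 9) true (nat_lit 9) (.s false (nat_lit 2) (nat_lit 18) (nat_lit 2) (nat_lit 4) (nat_lit 7) true (nat_lit 2) true (nat_lit 6) true (nat_lit 3) true (nat_lit 9) true (nat_lit 8) (.s false (nat_lit 3) (nat_lit 18) (nat_lit 2) (nat_lit 15) (nat_lit 2) true (nat_lit 6) true (nat_lit 9) true (nat_lit 3) true (nat_lit 9) true (nat_lit 4) (.s false (nat_lit 2) (nat_lit 19) (nat_lit 6) (nat_lit 6) (nat_lit 2) true (nat_lit 3) true (nat_lit 9) true (nat_lit 3) true (nat_lit 7) true (nat_lit 7) (.s false (nat_lit 2) (nat_lit 18) (nat_lit 14) (nat_lit 2) (nat_lit 2) true (nat_lit 0) true (nat_lit 9) true (nat_lit 3) true (nat_lit 4) true (nat_lit 9) (.s true (nat_lit 2) (nat_lit 20) (nat_lit 1) (nat_lit 14) (nat_lit 2) true (nat_lit 7) true (nat_lit 9) true (nat_lit 2) true (nat_lit 10) true (nat_lit 4) (.s false (nat_lit 2) (nat_lit 20) (nat_lit 2) (nat_lit 2) (nat_lit 10) true (nat_lit 1) true (nat_lit 5) true (nat_lit 2) true (nat_lit 9) true (nat_lit 9) (.s false (nat_lit 3) (nat_lit 20) (nat_lit 2) (nat_lit 6) (nat_lit 4) true (nat_lit 4) true (nat_lit 8) true (nat_lit 2) true (nat_lit 9) true (nat_lit 7) (.s true (nat_lit 3) (nat_lit 20) (nat_lit 2) (nat_lit 14) (nat_lit 1) true (nat_lit 7) true (nat_lit 10) true (nat_lit 2) true (nat_lit 9) true (nat_lit 4) dC2d_i15)))))))))))) .leaf) (nat_lit 169984) (nat_lit 560) (.n (nat_lit 205) (nat_lit 2) (.n (nat_lit 207) (nat_lit 1) (.n (nat_lit 209) (nat_lit 3) (.n (nat_lit 212) (nat_lit 1) (.p (nat_lit 213) (nat_lit 3) (.n (nat_lit 214) (nat_lit 3) (.p (nat_lit 215) (nat_lit 1) (.n (nat_lit 216) (nat_lit 3) (.p (nat_lit 217) (nat_lit 3) (.n (nat_lit 218) (nat_lit 2) (.p (nat_lit 219) (nat_lit 3) (.p (nat_lit 220) (nat_lit 3) (.p (nat_lit 221) (nat_lit 1) (.n (nat_lit 222) (nat_lit 3) (.n (nat_lit 225) (nat_lit 1) (.n (nat_lit 226) (nat_lit 1) (.p (nat_lit 227) (nat_lit 2) (.n (nat_lit 228) (nat_lit 2) (.p (nat_lit 234) (nat_lit 3) (.n (nat_lit 238) (nat_lit 3) (.p (nat_lit 241) (nat_lit 3) (.n (nat_lit 242) (nat_lit 2) (.p (nat_lit 243) (nat_lit 1) (.p (nat_lit 244) (nat_lit 2) (.n (nat_lit 245) (nat_lit 2) (.p (nat_lit 246) (nat_lit 3) (.n (nat_lit 247) (nat_lit 3) (.n (nat_lit 248) (nat_lit 2) (.p (nat_lit 249) (nat_lit 1) (.n (nat_lit 250) (nat_lit 3) (.n (nat_lit 251) (nat_lit 1) .z))))))))))))))))))))))))))))))) (.ct dC2d_c307 (nat_lit 1) (nat_lit 14) (.s true (nat_lit 1) (nat_lit 31) (nat_lit 0) (nat_lit 2) (nat_lit 2) true (nat_lit 9) true (nat_lit 12) false (nat_lit 2) true (nat_lit 14) true (nat_lit 12) (.e true (nat_lit 1) (nat_lit 75) (nat_lit 5) (nat_lit 9) (.e false (nat_lit 3) (nat_lit 106) (nat_lit 2) (nat_lit 12) (.e true (nat_lit 2) (nat_lit 107) (nat_lit 2) (nat_lit 12) (.e false (nat_lit 3) (nat_lit 109) (nat_lit 2) (nat_lit 12) (.e false (nat_lit 1) (nat_lit 111) (nat_lit 2) (nat_lit 12) (.e false (nat_lit 1) (nat_lit 114) (nat_lit 2) (nat_lit 12) (.e true (nat_lit 1) (nat_lit 116) (nat_lit 2) (nat_lit 12) (.e true (nat_lit 1) (nat_lit 31) (nat_lit 16) (nat_lit 2) (.e true (nat_lit 2) (nat_lit 158) (nat_lit 0) (nat_lit 14) (.e false (nat_lit 3) (nat_lit 160) (nat_lit 0) (nat_lit 14) dC2d_i16)))))))))))) (.nd .leaf (nat_lit 169986) (nat_lit 701) (.p (nat_lit 297) (nat_lit 1) .z) .df .leaf)))) (nat_lit 169989) (nat_lit 1103) (.n (nat_lit 335) (nat_lit 3) (.n (nat_lit 336) (nat_lit 1) (.n (nat_lit 337) (nat_lit 2) (.p (nat_lit 340) (nat_lit 2) (.n (nat_lit 341) (nat_lit 2) (.p (nat_lit 342) (nat_lit 2) (.n (nat_lit 343) (nat_lit 1) (.p (nat_lit 344) (nat_lit 2) (.n (nat_lit 345) (nat_lit 2) (.p (nat_lit 346) (nat_lit 2) (.n (nat_lit 347) (nat_lit 1) (.n (nat_lit 349) (nat_lit 2) (.n (nat_lit 350) (nat_lit 3) (.n (nat_lit 351) (nat_lit 2) (.n (nat_lit 352) (nat_lit 2) (.p (nat_lit 353) (nat_lit 1) (.n (nat_lit 354) (nat_lit 3) (.p (nat_lit 355) (nat_lit 1) (.n (nat_lit 359) (nat_lit 1) (.n (nat_lit 360) (nat_lit 2) (.n (nat_lit 361) (nat_lit 2) (.p (nat_lit 362) (nat_lit 3) (.p (nat_lit 363) (nat_lit 2) (.n (nat_lit 364) (nat_lit 2) (.p (nat_lit 366) (nat_lit 1) (.p (nat_lit 367) (nat_lit 1) (.n (nat_lit 368) (nat_lit 3) (.n (nat_lit 370) (nat_lit 3) (.n (nat_lit 371) (nat_lit 3) (.p (nat_lit 372) (nat_lit 2) (.n (nat_lit 373) (nat_lit 1) (.p (nat_lit 374) (nat_lit 2) (.p (nat_lit 376) (nat_lit 3) (.p (nat_lit 379) (nat_lit 3) (.p (nat_lit 380) (nat_lit 2) (.n (nat_lit 381) (nat_lit 1) (.p (nat_lit 385) (nat_lit 3) (.n (nat_lit 388) (nat_lit 3) (.n (nat_lit 396) (nat_lit 3) .z))))))))))))))))))))))))))))))))))))))) (.ct dC2d_c308 (nat_lit 1) (nat_lit 13) (.s false (nat_lit 1) (nat_lit 13) (nat_lit 2) (nat_lit 4) (nat_lit 7) true (nat_lit 4) true (nat_lit 11) true (nat_lit 8) true (nat_lit 16) true (nat_lit 14) dC2d_i20)) (.nd (.nd (.nd (.nd (.nd .leaf (nat_lit 169991) (nat_lit 1413) (.p (nat_lit 436) (nat_lit 3) (.p (nat_lit 437) (nat_lit 1) (.p (nat_lit 438) (nat_lit 2) (.p (nat_lit 439) (nat_lit 3) (.n (nat_lit 440) (nat_lit 1) (.p (nat_lit 441) (nat_lit 3) (.p (nat_lit 442) (nat_lit 3) (.p (nat_lit 443) (nat_lit 2) (.n (nat_lit 444) (nat_lit 1) .z))))))))) (.ct dC2d_c53 (nat_lit 1) (nat_lit 6) (.s true (nat_lit 1) (nat_lit 96) (nat_lit 2) (nat_lit 1) (nat_lit 2) true (nat_lit 6) true (nat_lit 9) false (nat_lit 3) true (nat_lit 9) true (nat_lit 10) (.e true (nat_lit 2) (nat_lit 289) (nat_lit 2) (nat_lit 9) (.e true (nat_lit 3) (nat_lit 290) (nat_lit 2) (nat_lit 9) (.e false (nat_lit 3) (nat_lit 291) (nat_lit 2) (nat_lit 9) (.e true (nat_lit 2) (nat_lit 292) (nat_lit 2) (nat_lit 9) (.e false (nat_lit 3) (nat_lit 293) (nat_lit 2) (nat_lit 9) (.e true (nat_lit 3) (nat_lit 294) (nat_lit 2) (nat_lit 9) (.e true (nat_lit 3) (nat_lit 295) (nat_lit 2) (nat_lit 9) (.e true (nat_lit 3) (nat_lit 296) (nat_lit 2) (nat_lit 9) (.e false (nat_lit 3) (nat_lit 298) (nat_lit 2) (nat_lit 9) (.e false (nat_lit 3) (nat_lit 303) (nat_lit 2) (nat_lit 9) (.e true (nat_lit 3) (nat_lit 304) (nat_lit 2) (nat_lit 9) (.e false (nat_lit 1) (nat_lit 96) (nat_lit 18) (nat_lit 3) (.e false (nat_lit 1) (nat_lit 297) (nat_lit 2) (nat_lit 9) (.e false (nat_lit 1) (nat_lit 329) (nat_lit 1) (nat_lit 10) (.u (nat_lit 2) (.n (nat_lit 0) (nat_lit 1) (.n (nat_lit 1) (nat_lit 1) (.p (nat_lit 2) (nat_lit 1) (.n (nat_lit 4) (nat_lit 1) (.n (nat_lit 6) (nat_lit 1) (.p (nat_lit 8) (nat_lit 1) (.p (nat_lit 81) (nat_lit 1) (.p (nat_lit 86) (nat_lit 1) (.p (nat_lit 87) (nat_lit 1) (.n (nat_lit 89) (nat_lit 1) (.n (nat_lit 94) (nat_lit 1) (.p (nat_lit 95) (nat_lit 1) .z)))))))))))) .nil))))))))))))))))) .leaf) (nat_lit 171008) (nat_lit 541) (.p (nat_lit 206) (nat_lit 2) (.p (nat_lit 207) (nat_lit 2) (.n (nat_lit 208) (nat_lit 3) (.p (nat_lit 209) (nat_lit 1) (.p (nat_lit 211) (nat_lit 2) (.p (nat_lit 212) (nat_lit 3) (.n (nat_lit 213) (nat_lit 2) (.n (nat_lit 214) (nat_lit 3) (.n (nat_lit 215) (nat_lit 3) (.n (nat_lit 216) (nat_lit 1) (.p (nat_lit 217) (nat_lit 2) (.p (nat_lit 219) (nat_lit 2) (.n (nat_lit 221) (nat_lit 2) (.n (nat_lit 225) (nat_lit 3) (.n (nat_lit 227) (nat_lit 2) (.p (nat_lit 228) (nat_lit 2) (.n (nat_lit 229) (nat_lit 1) (.n (nat_lit 230) (nat_lit 3) (.p (nat_lit 245) (nat_lit 3) (.p (nat_lit 246) (nat_lit 2) (.n (nat_lit 247) (nat_lit 2) (.n (nat_lit 248) (nat_lit 3) (.p (nat_lit 249) (nat_lit 3) (.p (nat_lit 251) (nat_lit 3) .z)))))))))))))))))))))))) (.ct dC2d_c307 (nat_lit 1) (nat_lit 14) (.s true (nat_lit 1) (nat_lit 10) (nat_lit 2) (nat_lit 7) (nat_lit 0) true (nat_lit 9) true (nat_lit 14) true (nat_lit 5) true (nat_lit 12) true (nat_lit 7) (.e false (nat_lit 1) (nat_lit 79) (nat_lit 5) (nat_lit 9) (.e true (nat_lit 1) (nat_lit 44) (nat_lit 10) (nat_lit 5) (.e false (nat_lit 2) (nat_lit 106) (nat_lit 2) (nat_lit 12) (.e true (nat_lit 2) (nat_lit 107) (nat_lit 2) (nat_lit 12) (.e true (nat_lit 1) (nat_lit 108) (nat_lit 2) (nat_lit 12) (.e true (nat_lit 3) (nat_lit 109) (nat_lit 2) (nat_lit 12) (.e false (nat_lit 1) (nat_lit 110) (nat_lit 2) (nat_lit 12) (.e false (nat_lit 1) (nat_lit 112) (nat_lit 2) (nat_lit 12) (.e true (nat_lit 1) (nat_lit 113) (nat_lit 2) (nat_lit 12) (.e true (nat_lit 1) (nat_lit 114) (nat_lit 2) (nat_lit 12) (.e false (nat_lit 1) (nat_lit 115) (nat_lit 2) (nat_lit 12) (.e false (nat_lit 3) (nat_lit 116) (nat_lit 2) (nat_lit 12) (.e false (nat_lit 2) (nat_lit 117) (nat_lit 2) (nat_lit 12) (.e false (nat_lit 1) (nat_lit 118) (nat_lit 2) (nat_lit 12) (.e true (nat_lit 2) (nat_lit 120) (nat_lit 2) (nat_lit 12) (.e false (nat_lit 2) (nat_lit 122) (nat_lit 2) (nat_lit 12) (.e true (nat_lit 1) (nat_lit 131) (nat_lit 2) (nat_lit 12) (.e false (nat_lit 1) (nat_lit 51) (nat_lit 7) (nat_lit 7) (.u (nat_lit 2) (.n (nat_lit 1) (nat_lit 1) (.p (nat_lit 10) (nat_lit 1) (.n (nat_lit 12) (nat_lit 1) (.p (nat_lit 42) (nat_lit 1) .z)))) .nil))))))))))))))))))))) .leaf) (nat_lit 171010) (nat_lit 702) (.p (nat_lit 298) (nat_lit 1) .z) .df (.nd (.nd .leaf (nat_lit 171013) (nat_lit 1059) (.n (nat_lit 335) (nat_lit 2) (.n (nat_lit 336) (nat_lit 1) (.n (nat_lit 337) (nat_lit 2) (.n (nat_lit 338) (nat_lit 2) (.p (nat_lit 339) (nat_lit 3) (.p (nat_lit 340) (nat_lit 2) (.n (nat_lit 341) (nat_lit 2) (.p (nat_lit 342) (nat_lit 1) (.p (nat_lit 343) (nat_lit 1) (.n (nat_lit 344) (nat_lit 3) (.n (nat_lit 345) (nat_lit 2) (.n (nat_lit 346) (nat_lit 2) (.p (nat_lit 347) (nat_lit 2) (.p (nat_lit 349) (nat_lit 2) (.n (nat_lit 350) (nat_lit 2) (.n (nat_lit 351) (nat_lit 1) (.n (nat_lit 352) (nat_lit 2) (.n (nat_lit 353) (nat_lit 1) (.n (nat_lit 354) (nat_lit 3) (.p (nat_lit 355) (nat_lit 3) (.p (nat_lit 358) (nat_lit 3) (.p (nat_lit 359) (nat_lit 3) (.p (nat_lit 360) (nat_lit 1) (.n (nat_lit 363) (nat_lit 3) (.p (nat_lit 364) (nat_lit 1) (.p (nat_lit 366) (nat_lit 1) (.p (nat_lit 367) (nat_lit 3) (.p (nat_lit 368) (nat_lit 1) (.n (nat_lit 369) (nat_lit 1) (.p (nat_lit 370) (nat_lit 3) (.n (nat_lit 371) (nat_lit 2) (.p (nat_lit 372) (nat_lit 3) (.n (nat_lit 373) (nat_lit 1) (.p (nat_lit 374) (nat_lit 3) (.p (nat_lit 380) (nat_lit 3) (.p (nat_lit 381) (nat_lit 2) (.n (nat_lit 382) (nat_lit 3) (.n (nat_lit 383) (nat_lit 2) .z)))))))))))))))))))))))))))))))))))))) (.ct dC2d_c308 (nat_lit 1) (nat_lit 13) (.s true (nat_lit 1) (nat_lit 10) (nat_lit 7) (nat_lit 5) (nat_lit 2) true (nat_lit 4) true (nat_lit 16) true (nat_lit 9) true (nat_lit 11) true (nat_lit 13) (.e false (nat_lit 1) (nat_lit 49) (nat_lit 20) (nat_lit 4) (.e true (nat_lit 1) (nat_lit 50) (nat_lit 20) (nat_lit 4) (.e true (nat_lit 2) (nat_lit 52) (nat_lit 20) (nat_lit 4) (.e false (nat_lit 1) (nat_lit 55) (nat_lit 20) (nat_lit 4) (.e true (nat_lit 1) (nat_lit 57) (nat_lit 20) (nat_lit 4) (.e false (nat_lit 1) (nat_lit 59) (nat_lit 20) (nat_lit 4) (.e false (nat_lit 1) (nat_lit 205) (nat_lit 2) (nat_lit 16) (.e false (nat_lit 1) (nat_lit 208) (nat_lit 2) (nat_lit 16) (.e true (nat_lit 1) (nat_lit 209) (nat_lit 2) (nat_lit 16) (.e false (nat_lit 1) (nat_lit 211) (nat_lit 2) (nat_lit 16) (.e true (nat_lit 3) (nat_lit 212) (nat_lit 2) (nat_lit 16) (.e true (nat_lit 1) (nat_lit 213) (nat_lit 2) (nat_lit 16) (.e false (nat_lit 3) (nat_lit 214) (nat_lit 2) (nat_lit 16) (.e true (nat_lit 3) (nat_lit 215) (nat_lit 2) (nat_lit 16) (.e false (nat_lit 3) (nat_lit 217) (nat_lit 2) (nat_lit 16) (.e true (nat_lit 3) (nat_lit 219) (nat_lit 2) (nat_lit 16) dC2d_i21)))))))))))))))))) .leaf) (nat_lit 171015) (nat_lit 1397) (.p (nat_lit 444) (nat_lit 2) .z) (.ct dC2d_c53 (nat_lit 1) (nat_lit 6) (.s true (nat_lit 1) (nat_lit 10) (nat_lit 7) (nat_lit 2) (nat_lit 7) false (nat_lit 1) true (nat_lit 6) true (nat_lit 5) true (nat_lit 6) true (nat_lit 9) (.e false (nat_lit 2) (nat_lit 298) (nat_lit 2) (nat_lit 9) .nil))) .leaf)) (nat_lit 172032) (nat_lit 510) (.p (nat_lit 205) (nat_lit 3) (.p (nat_lit 206) (nat_lit 1) (.n (nat_lit 207) (nat_lit 3) (.n (nat_lit 209) (nat_lit 2) (.p (nat_lit 210) (nat_lit 2) (.p (nat_lit 211) (nat_lit 3) (.n (nat_lit 213) (nat_lit 2) (.n (nat_lit 214) (nat_lit 3) (.p (nat_lit 215) (nat_lit 1) (.p (nat_lit 216) (nat_lit 2) (.p (nat_lit 217) (nat_lit 2) (.p (nat_lit 218) (nat_lit 3) (.n (nat_lit 219) (nat_lit 3) (.p (nat_lit 220) (nat_lit 2) (.p (nat_lit 221) (nat_lit 1) (.n (nat_lit 222) (nat_lit 3) (.p (nat_lit 224) (nat_lit 1) (.p (nat_lit 226) (nat_lit 2) (.n (nat_lit 227) (nat_lit 1) (.n (nat_lit 228) (nat_lit 2) (.n (nat_lit 229) (nat_lit 1) (.n (nat_lit 230) (nat_lit 2) (.p (nat_lit 231) (nat_lit 2) (.n (nat_lit 232) (nat_lit 2) (.n (nat_lit 234) (nat_lit 3) (.n (nat_lit 235) (nat_lit 1) (.p (nat_lit 237) (nat_lit 1) (.p (nat_lit 238) (nat_lit 1) (.p (nat_lit 239) (nat_lit 1) (.n (nat_lit 242) (nat_lit 1) (.p (nat_lit 243) (nat_lit 3) (.n (nat_lit 244) (nat_lit 2) (.p (nat_lit 245) (nat_lit 1) (.n (nat_lit 247) (nat_lit 2) (.p (nat_lit 248) (nat_lit 2) (.n (nat_lit 249) (nat_lit 2) (.n (nat_lit 250) (nat_lit 3) (.p (nat_lit 251) (nat_lit 3) .z)))))))))))))))))))))))))))))))))))))) (.ct dC2d_c307 (nat_lit 1) (nat_lit 14) (.s false (nat_lit 1) (nat_lit 41) (nat_lit 0) (nat_lit 2) (nat_lit 1) true (nat_lit 11) true (nat_lit 13) false (nat_lit 4) true (nat_lit 14) true (nat_lit 12) (.e false (nat_lit 1) (nat_lit 93) (nat_lit 3) (nat_lit 11) (.e false (nat_lit 1) (nat_lit 133) (nat_lit 1) (nat_lit 13) (.e true (nat_lit 1) (nat_lit 135) (nat_lit 1) (nat_lit 13) (.e false (nat_lit 1) (nat_lit 136) (nat_lit 1) (nat_lit 13) (.e false (nat_lit 1) (nat_lit 138) (nat_lit 1) (nat_lit 13) dC2d_i22))))))) (.nd (.nd (.nd .leaf (nat_lit 172034) (nat_lit 733) (.p (nat_lit 289) (nat_lit 3) (.p (nat_lit 290) (nat_lit 1) (.n (nat_lit 291) (nat_lit 1) (.p (nat_lit 292) (nat_lit 3) (.n (nat_lit 293) (nat_lit 2) (.n (nat_lit 294) (nat_lit 2) (.p (nat_lit 295) (nat_lit 3) (.p (nat_lit 297) (nat_lit 1) (.n (nat_lit 298) (nat_lit 1) (.n (nat_lit 303) (nat_lit 1) (.p (nat_lit 304) (nat_lit 1) .z))))))))))) (.ct dC2d_c52 (nat_lit 1) (nat_lit 7) (.s false (nat_lit 1) (nat_lit 39) (nat_lit 2) (nat_lit 2) (nat_lit 1) true (nat_lit 5) true (nat_lit 8) false (nat_lit 1) true (nat_lit 7) true (nat_lit 7) (.e false (nat_lit 1) (nat_lit 91) (nat_lit 6) (nat_lit 5) (.e false (nat_lit 1) (nat_lit 185) (nat_lit 1) (nat_lit 8) (.e true (nat_lit 1) (nat_lit 39) (nat_lit 19) (nat_lit 1) (.e false (nat_lit 1) (nat_lit 158) (nat_lit 2) (nat_lit 7) (.e false (nat_lit 1) (nat_lit 159) (nat_lit 2) (nat_lit 7) (.e false (nat_lit 2) (nat_lit 160) (nat_lit 2) (nat_lit 7) (.e true (nat_lit 3) (nat_lit 161) (nat_lit 2) (nat_lit 7) (.e true (nat_lit 3) (nat_lit 162) (nat_lit 2) (nat_lit 7) (.e false (nat_lit 2) (nat_lit 163) (nat_lit 2) (nat_lit 7) (.e false (nat_lit 1) (nat_lit 164) (nat_lit 2) (nat_lit 7) (.u (nat_lit 2) (.n (nat_lit 3) (nat_lit 1) (.p (nat_lit 5) (nat_lit 1) .z)) .nil))))))))))))) .leaf) (nat_lit 172037) (nat_lit 1145) (.p (nat_lit 335) (nat_lit 3) (.p (nat_lit 336) (nat_lit 3) (.n (nat_lit 337) (nat_lit 1) (.p (nat_lit 338) (nat_lit 1) (.p (nat_lit 339) (nat_lit 3) (.p (nat_lit 340) (nat_lit 1) (.n (nat_lit 341) (nat_lit 2) (.p (nat_lit 342) (nat_lit 1) (.p (nat_lit 343) (nat_lit 3) (.p (nat_lit 344) (nat_lit 1) (.n (nat_lit 345) (nat_lit 3) (.p (nat_lit 346) (nat_lit 3) (.n (nat_lit 348) (nat_lit 1) (.n (nat_lit 349) (nat_lit 3) (.p (nat_lit 350) (nat_lit 3) (.n (nat_lit 352) (nat_lit 2) (.n (nat_lit 353) (nat_lit 3) (.n (nat_lit 354) (nat_lit 1) (.n (nat_lit 355) (nat_lit 1) (.n (nat_lit 356) (nat_lit 2) (.p (nat_lit 357) (nat_lit 1) (.n (nat_lit 359) (nat_lit 2) (.n (nat_lit 360) (nat_lit 3) (.n (nat_lit 361) (nat_lit 1) (.n (nat_lit 362) (nat_lit 3) (.n (nat_lit 364) (nat_lit 3) (.n (nat_lit 365) (nat_lit 1) (.n (nat_lit 367) (nat_lit 1) (.p (nat_lit 369) (nat_lit 1) (.p (nat_lit 370) (nat_lit 2) (.p (nat_lit 371) (nat_lit 3) (.p (nat_lit 372) (nat_lit 2) (.p (nat_lit 373) (nat_lit 1) (.p (nat_lit 374) (nat_lit 2) (.n (nat_lit 375) (nat_lit 1) (.p (nat_lit 376) (nat_lit 2) (.n (nat_lit 377) (nat_lit 1) (.n (nat_lit 378) (nat_lit 1) (.p (nat_lit 379) (nat_lit 3) (.n (nat_lit 380) (nat_lit 3) (.n (nat_lit 382) (nat_lit 1) (.p (nat_lit 383) (nat_lit 1) (.p (nat_lit 384) (nat_lit 2) (.p (nat_lit 385) (nat_lit 1) (.p (nat_lit 386) (nat_lit 1) (.n (nat_lit 389) (nat_lit 1) (.n (nat_lit 390) (nat_lit 3) (.n (nat_lit 391) (nat_lit 2) (.p (nat_lit 393) (nat_lit 2) (.n (nat_lit 395) (nat_lit 1) (.n (nat_lit 396) (nat_lit 1) .z))))))))))))))))))))))))))))))))))))))))))))))))))) (.ct dC2d_c308 (nat_lit 1) (nat_lit 13) (.s true (nat_lit 1) (nat_lit 46) (nat_lit 1) (nat_lit 1) (nat_lit 5) true (nat_lit 8) true (nat_lit 13) false (nat_lit 2) true (nat_lit 17) true (nat_lit 17) (.e true (nat_lit 1) (nat_lit 95) (nat_lit 12) (nat_lit 8) (.e false (nat_lit 1) (nat_lit 158) (nat_lit 5) (nat_lit 13) (.e false (nat_lit 2) (nat_lit 160) (nat_lit 5) (nat_lit 13) (.e true (nat_lit 3) (nat_lit 162) (nat_lit 5) (nat_lit 13) (.e false (nat_lit 2) (nat_lit 163) (nat_lit 5) (nat_lit 13) (.e true (nat_lit 2) (nat_lit 164) (nat_lit 5) (nat_lit 13) (.e false (nat_lit 1) (nat_lit 165) (nat_lit 5) (nat_lit 13) (.e false (nat_lit 1) (nat_lit 167) (nat_lit 5) (nat_lit 13) (.e true (nat_lit 1) (nat_lit 46) (nat_lit 24) (nat_lit 2) (.e false (nat_lit 1) (nat_lit 46) (nat_lit 26) (nat_lit 2) (.e true (nat_lit 1) (nat_lit 46) (nat_lit 28) (nat_lit 2) (.e true (nat_lit 1) (nat_lit 46) (nat_lit 29) (nat_lit 2) (.e false (nat_lit 2) (nat_lit 252) (nat_lit 1) (nat_lit 17) (.e true (nat_lit 1) (nat_lit 253) (nat_lit 1) (nat_lit 17) (.e true (nat_lit 1) (nat_lit 254) (nat_lit 1) (nat_lit 17) (.e true (nat_lit 3) (nat_lit 255) (nat_lit 1) (nat_lit 17) (.e true (nat_lit 1) (nat_lit 256) (nat_lit 1) (nat_lit 17) (.e false (nat_lit 2) (nat_lit 257) (nat_lit 1) (nat_lit 17) dC2d_i23)))))))))))))))))))) .leaf) (nat_lit 172039) (nat_lit 1422) (.p (nat_lit 436) (nat_lit 3) (.p (nat_lit 437) (nat_lit 3) (.n (nat_lit 438) (nat_lit 1) (.p (nat_lit 439) (nat_lit 1) (.p (nat_lit 441) (nat_lit 3) (.n (nat_lit 442) (nat_lit 2) (.p (nat_lit 450) (nat_lit 2) .z))))))) (.ct dC2d_c53 (nat_lit 1) (nat_lit 6) (.s true (nat_lit 3) (nat_lit 40) (nat_lit 2) (nat_lit 1) (nat_lit 7) true (nat_lit 2) true (nat_lit 6) true (nat_lit 0) true (nat_lit 9) true (nat_lit 10) (.s true (nat_lit 3) (nat_lit 40) (nat_lit 2) (nat_lit 2) (nat_lit 6) true (nat_lit 3) true (nat_lit 7) true (nat_lit 0) true (nat_lit 9) true (nat_lit 9) (.s false (nat_lit 1) (nat_lit 41) (nat_lit 2) (nat_lit 6) (nat_lit 2) true (nat_lit 6) true (nat_lit 9) true (nat_lit 0) true (nat_lit 9) true (nat_lit 7) (.s false (nat_lit 1) (nat_lit 41) (nat_lit 6) (nat_lit 2) (nat_lit 2) true (nat_lit 3) true (nat_lit 9) true (nat_lit 0) true (nat_lit 7) true (nat_lit 9) (.s true (nat_lit 1) (nat_lit 47) (nat_lit 1) (nat_lit 2) (nat_lit 6) true (nat_lit 4) true (nat_lit 7) false (nat_lit 0) true (nat_lit 10) true (nat_lit 9) (.s true (nat_lit 3) (nat_lit 92) (nat_lit 1) (nat_lit 2) (nat_lit 2) true (nat_lit 7) true (nat_lit 9) false (nat_lit 3) true (nat_lit 10) true (nat_lit 9) (.s true (nat_lit 2) (nat_lit 93) (nat_lit 1) (nat_lit 2) (nat_lit 2) true (nat_lit 7) true (nat_lit 9) false (nat_lit 3) true (nat_lit 10) true (nat_lit 9) (.s false (nat_lit 1) (nat_lit 103) (nat_lit 2) (nat_lit 1) (nat_lit 1) true (nat_lit 7) true (nat_lit 10) false (nat_lit 4) true (nat_lit 9) true (nat_lit 10) (.e false (nat_lit 3) (nat_lit 78) (nat_lit 20) (nat_lit 2) dC2d_i24)))))))))) (.nd (.nd .leaf (nat_lit 173057) (nat_lit 587) (.p (nat_lit 278) (nat_lit 1) .z) .df .leaf) (nat_lit 173058) (nat_lit 746) (.p (nat_lit 305) (nat_lit 1) .z) .df .leaf))) (nat_lit 173060) (nat_lit 986) (.p (nat_lit 335) (nat_lit 1) (.p (nat_lit 336) (nat_lit 1) (.p (nat_lit 337) (nat_lit 2) (.p (nat_lit 341) (nat_lit 1) (.p (nat_lit 342) (nat_lit 2) (.n (nat_lit 343) (nat_lit 2) (.p (nat_lit 344) (nat_lit 2) (.n (nat_lit 345) (nat_lit 1) (.p (nat_lit 347) (nat_lit 2) (.n (nat_lit 349) (nat_lit 2) (.p (nat_lit 350) (nat_lit 1) (.p (nat_lit 375) (nat_lit 2) .z)))))))))))) (.ct dC2d_c308 (nat_lit 1) (nat_lit 14) (.s false (nat_lit 1) (nat_lit 33) (nat_lit 1) (nat_lit 2) (nat_lit 6) true (nat_lit 7) true (nat_lit 12) true (nat_lit 0) true (nat_lit 17) true (nat_lit 16) (.s true (nat_lit 1) (nat_lit 80) (nat_lit 1) (nat_lit 2) (nat_lit 1) true (nat_lit 14) true (nat_lit 17) false (nat_lit 7) true (nat_lit 17) true (nat_lit 16) (.e false (nat_lit 1) (nat_lit 138) (nat_lit 6) (nat_lit 12) (.e false (nat_lit 3) (nat_lit 254) (nat_lit 1) (nat_lit 17) (.e false (nat_lit 1) (nat_lit 258) (nat_lit 1) (nat_lit 17) (.e false (nat_lit 1) (nat_lit 264) (nat_lit 1) (nat_lit 17) (.e true (nat_lit 2) (nat_lit 265) (nat_lit 1) (nat_lit 17) (.e false (nat_lit 1) (nat_lit 266) (nat_lit 1) (nat_lit 17) (.e true (nat_lit 1) (nat_lit 269) (nat_lit 1) (nat_lit 17) (.e true (nat_lit 1) (nat_lit 272) (nat_lit 1) (nat_lit 17) (.e true (nat_lit 3) (nat_lit 274) (nat_lit 1) (nat_lit 17) (.e false (nat_lit 1) (nat_lit 278) (nat_lit 1) (nat_lit 17) (.e true (nat_lit 1) (nat_lit 285) (nat_lit 1) (nat_lit 17) (.e true (nat_lit 1) (nat_lit 235) (nat_lit 2) (nat_lit 16) (.e true (nat_lit 2) (nat_lit 205) (nat_lit 2) (nat_lit 16) (.e false (nat_lit 1) (nat_lit 206) (nat_lit 2) (nat_lit 16) (.e true (nat_lit 2) (nat_lit 207) (nat_lit 2) (nat_lit 16) (.e false (nat_lit 3) (nat_lit 208) (nat_lit 2) (nat_lit 16) (.e false (nat_lit 1) (nat_lit 209) (nat_lit 2) (nat_lit 16) (.e true (nat_lit 1) (nat_lit 211) (nat_lit 2) (nat_lit 16) dC2d_i25))))))))))))))))))))) (.nd (.nd (.nd (.nd .leaf (nat_lit 173062) (nat_lit 1377) (.p (nat_lit 397) (nat_lit 2) (.p (nat_lit 398) (nat_lit 1) (.n (nat_lit 399) (nat_lit 1) (.n (nat_lit 400) (nat_lit 3) (.n (nat_lit 403) (nat_lit 3) (.p (nat_lit 404) (nat_lit 3) (.p (nat_lit 405) (nat_lit 2) (.n (nat_lit 406) (nat_lit 2) (.p (nat_lit 407) (nat_lit 3) (.p (nat_lit 408) (nat_lit 3) (.n (nat_lit 409) (nat_lit 2) (.n (nat_lit 410) (nat_lit 3) (.p (nat_lit 411) (nat_lit 1) (.n (nat_lit 412) (nat_lit 2) (.n (nat_lit 415) (nat_lit 2) (.n (nat_lit 416) (nat_lit 2) (.p (nat_lit 417) (nat_lit 1) (.n (nat_lit 418) (nat_lit 2) (.p (nat_lit 419) (nat_lit 1) (.n (nat_lit 420) (nat_lit 2) (.p (nat_lit 421) (nat_lit 2) (.n (nat_lit 422) (nat_lit 1) (.p (nat_lit 424) (nat_lit 2) (.p (nat_lit 427) (nat_lit 2) (.n (nat_lit 431) (nat_lit 2) (.p (nat_lit 435) (nat_lit 2) .z)))))))))))))))))))))))))) (.ct dC2d_c293 (nat_lit 1) (nat_lit 10) (.s true (nat_lit 1) (nat_lit 80) (nat_lit 2) (nat_lit 2) (nat_lit 1) true (nat_lit 10) true (nat_lit 15) false (nat_lit 4) true (nat_lit 14) true (nat_lit 14) (.e true (nat_lit 1) (nat_lit 305) (nat_lit 1) (nat_lit 15) (.e false (nat_lit 1) (nat_lit 80) (nat_lit 19) (nat_lit 4) (.e false (nat_lit 1) (nat_lit 287) (nat_lit 2) (nat_lit 14) (.e false (nat_lit 1) (nat_lit 266) (nat_lit 2) (nat_lit 14) (.u (nat_lit 2) (.p (nat_lit 3) (nat_lit 1) (.n (nat_lit 7) (nat_lit 1) (.n (nat_lit 8) (nat_lit 1) (.p (nat_lit 13) (nat_lit 1) (.p (nat_lit 15) (nat_lit 1) (.p (nat_lit 34) (nat_lit 1) .z)))))) .nil))))))) .leaf) (nat_lit 174081) (nat_lit 588) (.p (nat_lit 279) (nat_lit 1) .z) .df .leaf) (nat_lit 174082) (nat_lit 747) (.p (nat_lit 306) (nat_lit 1) .z) .df (.nd (.nd .leaf (nat_lit 174084) (nat_lit 913) (.p (nat_lit 335) (nat_lit 1) (.p (nat_lit 336) (nat_lit 2) (.n (nat_lit 337) (nat_lit 3) (.p (nat_lit 338) (nat_lit 1) (.p (nat_lit 339) (nat_lit 2) (.p (nat_lit 340) (nat_lit 2) (.p (nat_lit 341) (nat_lit 3) (.n (nat_lit 342) (nat_lit 1) (.p (nat_lit 343) (nat_lit 1) (.p (nat_lit 344) (nat_lit 1) (.p (nat_lit 345) (nat_lit 1) (.p (nat_lit 346) (nat_lit 2) (.n (nat_lit 349) (nat_lit 1) (.p (nat_lit 350) (nat_lit 2) (.n (nat_lit 351) (nat_lit 3) (.n (nat_lit 354) (nat_lit 3) (.p (nat_lit 355) (nat_lit 3) (.n (nat_lit 356) (nat_lit 2) (.p (nat_lit 357) (nat_lit 2) (.p (nat_lit 358) (nat_lit 3) (.p (nat_lit 359) (nat_lit 3) (.n (nat_lit 360) (nat_lit 3) (.n (nat_lit 362) (nat_lit 2) (.n (nat_lit 364) (nat_lit 2) (.p (nat_lit 366) (nat_lit 3) (.p (nat_lit 367) (nat_lit 1) (.n (nat_lit 368) (nat_lit 2) (.p (nat_lit 369) (nat_lit 3) (.n (nat_lit 370) (nat_lit 2) (.p (nat_lit 371) (nat_lit 3) (.n (nat_lit 372) (nat_lit 2) (.p (nat_lit 373) (nat_lit 2) (.p (nat_lit 374) (nat_lit 3) (.p (nat_lit 376) (nat_lit 2) (.n (nat_lit 380) (nat_lit 1) (.n (nat_lit 381) (nat_lit 3) (.n (nat_lit 382) (nat_lit 3) (.n (nat_lit 383) (nat_lit 2) .z)))))))))))))))))))))))))))))))))))))) (.ct dC2d_c308 (nat_lit 1) (nat_lit 14) (.s false (nat_lit 3) (nat_lit 7) (nat_lit 3) (nat_lit 4) (nat_lit 7) true (nat_lit 0) true (nat_lit 11) true (nat_lit 11) true (nat_lit 15) true (nat_lit 14) (.s true (nat_lit 3) (nat_lit 7) (nat_lit 3) (nat_lit 7) (nat_lit 4) true (nat_lit 3) true (nat_lit 14) true (nat_lit 11) true (nat_lit 15) true (nat_lit 11) (.s true (nat_lit 3) (nat_lit 8) (nat_lit 1) (nat_lit 7) (nat_lit 7) true (nat_lit 5) true (nat_lit 11) true (nat_lit 10) true (nat_lit 17) true (nat_lit 11) (.s false (nat_lit 3) (nat_lit 9) (nat_lit 6) (nat_lit 2) (nat_lit 7) false (nat_lit 2) true (nat_lit 11) true (nat_lit 10) true (nat_lit 12) true (nat_lit 16) (.s true (nat_lit 1) (nat_lit 9) (nat_lit 7) (nat_lit 1) (nat_lit 7) false (nat_lit 3) true (nat_lit 11) true (nat_lit 10) true (nat_lit 11) true (nat_lit 17) (.s true (nat_lit 1) (nat_lit 8) (nat_lit 7) (nat_lit 2) (nat_lit 6) false (nat_lit 2) true (nat_lit 12) true (nat_lit 10) true (nat_lit 11) true (nat_lit 16) (.s false (nat_lit 3) (nat_lit 9) (nat_lit 7) (nat_lit 2) (nat_lit 6) false (nat_lit 2) true (nat_lit 12) true (nat_lit 10) true (nat_lit 11) true (nat_lit 16) dC2d_i34)))))))) .leaf) (nat_lit 174086) (nat_lit 1266) (.p (nat_lit 397) (nat_lit 2) (.p (nat_lit 398) (nat_lit 3) (.p (nat_lit 399) (nat_lit 1) (.p (nat_lit 400) (nat_lit 1) (.n (nat_lit 401) (nat_lit 1) (.n (nat_lit 402) (nat_lit 1) (.n (nat_lit 403) (nat_lit 3) (.p (nat_lit 404) (nat_lit 1) (.n (nat_lit 405) (nat_lit 3) (.n (nat_lit 406) (nat_lit 1) (.n (nat_lit 407) (nat_lit 3) (.p (nat_lit 408) (nat_lit 3) (.n (nat_lit 409) (nat_lit 3) (.p (nat_lit 411) (nat_lit 2) (.p (nat_lit 412) (nat_lit 2) (.p (nat_lit 413) (nat_lit 2) (.n (nat_lit 414) (nat_lit 2) (.n (nat_lit 415) (nat_lit 3) (.n (nat_lit 416) (nat_lit 2) (.p (nat_lit 418) (nat_lit 1) (.n (nat_lit 420) (nat_lit 3) (.n (nat_lit 421) (nat_lit 2) (.p (nat_lit 431) (nat_lit 2) (.p (nat_lit 433) (nat_lit 1) (.n (nat_lit 435) (nat_lit 1) .z))))))))))))))))))))))))) (.ct dC2d_c293 (nat_lit 1) (nat_lit 10) (.s true (nat_lit 1) (nat_lit 81) (nat_lit 1) (nat_lit 2) (nat_lit 2) true (nat_lit 10) true (nat_lit 14) false (nat_lit 4) true (nat_lit 15) true (nat_lit 14) (.e true (nat_lit 1) (nat_lit 267) (nat_lit 2) (nat_lit 14) (.e false (nat_lit 1) (nat_lit 81) (nat_lit 18) (nat_lit 4) (.e false (nat_lit 1) (nat_lit 322) (nat_lit 1) (nat_lit 15) (.e false (nat_lit 1) (nat_lit 279) (nat_lit 2) (nat_lit 14) (.u (nat_lit 2) (.n (nat_lit 1) (nat_lit 1) (.p (nat_lit 6) (nat_lit 1) (.p (nat_lit 8) (nat_lit 1) .z))) .nil))))))) .leaf)) (nat_lit 175105) (nat_lit 627) (.p (nat_lit 252) (nat_lit 1) (.n (nat_lit 253) (nat_lit 2) (.p (nat_lit 254) (nat_lit 3) (.p (nat_lit 255) (nat_lit 3) (.n (nat_lit 256) (nat_lit 2) (.n (nat_lit 257) (nat_lit 3) (.p (nat_lit 258) (nat_lit 1) (.n (nat_lit 259) (nat_lit 3) (.p (nat_lit 260) (nat_lit 3) (.p (nat_lit 261) (nat_lit 3) (.p (nat_lit 262) (nat_lit 2) (.p (nat_lit 264) (nat_lit 2) (.p (nat_lit 266) (nat_lit 2) (.n (nat_lit 267) (nat_lit 1) (.p (nat_lit 269) (nat_lit 2) (.n (nat_lit 270) (nat_lit 3) (.p (nat_lit 272) (nat_lit 2) (.n (nat_lit 274) (nat_lit 3) (.p (nat_lit 275) (nat_lit 2) (.p (nat_lit 279) (nat_lit 1) (.p (nat_lit 283) (nat_lit 1) (.n (nat_lit 285) (nat_lit 1) (.n (nat_lit 286) (nat_lit 1) (.p (nat_lit 287) (nat_lit 1) .z)))))))))))))))))))))))) (.ct dC2d_c292 (nat_lit 1) (nat_lit 12) (.s false (nat_lit 1) (nat_lit 20) (nat_lit 3) (nat_lit 2) (nat_lit 1) true (nat_lit 5) true (nat_lit 12) true (nat_lit 0) true (nat_lit 10) true (nat_lit 11) (.e false (nat_lit 1) (nat_lit 48) (nat_lit 8) (nat_lit 5) (.e false (nat_lit 1) (nat_lit 170) (nat_lit 1) (nat_lit 12) (.e true (nat_lit 1) (nat_lit 172) (nat_lit 1) (nat_lit 12) (.e true (nat_lit 1) (nat_lit 174) (nat_lit 1) (nat_lit 12) (.e false (nat_lit 1) (nat_lit 177) (nat_lit 1) (nat_lit 12) (.e true (nat_lit 1) (nat_lit 26) (nat_lit 20) (nat_lit 0) (.e false (nat_lit 1) (nat_lit 102) (nat_lit 3) (nat_lit 10) (.e true (nat_lit 1) (nat_lit 103) (nat_lit 3) (nat_lit 10) (.e false (nat_lit 1) (nat_lit 104) (nat_lit 3) (nat_lit 10) (.e false (nat_lit 2) (nat_lit 134) (nat_lit 2) (nat_lit 11) (.e true (nat_lit 2) (nat_lit 138) (nat_lit 2) (nat_lit 11) (.e false (nat_lit 1) (nat_lit 144) (nat_lit 2) (nat_lit 11) (.e true (nat_lit 1) (nat_lit 149) (nat_lit 2) (nat_lit 11) (.e true (nat_lit 1) (nat_lit 157) (nat_lit 2) (nat_lit 11) (.u (nat_lit 2) (.n (nat_lit 3) (nat_lit 1) (.p (nat_lit 5) (nat_lit 1) (.n (nat_lit 6) (nat_lit 1) (.p (nat_lit 13) (nat_lit 1) (.n (nat_lit 14) (nat_lit 1) (.n (nat_lit 20) (nat_lit 1) (.p (nat_lit 22) (nat_lit 1) (.p (nat_lit 25) (nat_lit 1) .z)))))))) .nil))))))))))))))))) (.nd (.nd (.nd .leaf (nat_lit 175106) (nat_lit 748) (.p (nat_lit 307) (nat_lit 1) .z) .df .leaf) (nat_lit 175108) (nat_lit 1097) (.n (nat_lit 335) (nat_lit 2) (.n (nat_lit 336) (nat_lit 3) (.p (nat_lit 337) (nat_lit 1) (.p (nat_lit 338) (nat_lit 1) (.p (nat_lit 339) (nat_lit 2) (.p (nat_lit 340) (nat_lit 1) (.p (nat_lit 341) (nat_lit 2) (.n (nat_lit 342) (nat_lit 3) (.p (nat_lit 343) (nat_lit 3) (.p (nat_lit 344) (nat_lit 3) (.p (nat_lit 346) (nat_lit 1) (.p (nat_lit 347) (nat_lit 1) (.p (nat_lit 349) (nat_lit 1) (.p (nat_lit 350) (nat_lit 2) (.n (nat_lit 351) (nat_lit 1) (.n (nat_lit 352) (nat_lit 3) (.n (nat_lit 353) (nat_lit 1) (.p (nat_lit 354) (nat_lit 1) (.n (nat_lit 355) (nat_lit 1) (.n (nat_lit 356) (nat_lit 3) (.p (nat_lit 357) (nat_lit 3) (.p (nat_lit 358) (nat_lit 2) (.n (nat_lit 360) (nat_lit 2) (.n (nat_lit 361) (nat_lit 3) (.p (nat_lit 362) (nat_lit 2) (.n (nat_lit 363) (nat_lit 1) (.n (nat_lit 368) (nat_lit 3) (.n (nat_lit 369) (nat_lit 2) (.n (nat_lit 370) (nat_lit 3) (.n (nat_lit 371) (nat_lit 3) (.n (nat_lit 372) (nat_lit 2) (.p (nat_lit 373) (nat_lit 3) (.p (nat_lit 374) (nat_lit 3) (.p (nat_lit 375) (nat_lit 2) (.p (nat_lit 376) (nat_lit 2) (.n (nat_lit 380) (nat_lit 1) (.n (nat_lit 381) (nat_lit 3) (.n (nat_lit 382) (nat_lit 2) (.p (nat_lit 383) (nat_lit 1) .z))))))))))))))))))))))))))))))))))))))) (.ct dC2d_c308 (nat_lit 1) (nat_lit 14) (.s false (nat_lit 1) (nat_lit 35) (nat_lit 1) (nat_lit 2) (nat_lit 6) true (nat_lit 7) true (nat_lit 12) true (nat_lit 0) true (nat_lit 17) true (nat_lit 16) (.s true (nat_lit 1) (nat_lit 82) (nat_lit 1) (nat_lit 2) (nat_lit 1) true (nat_lit 14) true (nat_lit 17) false (nat_lit 7) true (nat_lit 17) true (nat_lit 16) (.e false (nat_lit 1) (nat_lit 140) (nat_lit 6) (nat_lit 12) (.e true (nat_lit 1) (nat_lit 253) (nat_lit 1) (nat_lit 17) (.e true (nat_lit 2) (nat_lit 254) (nat_lit 1) (nat_lit 17) (.e false (nat_lit 3) (nat_lit 255) (nat_lit 1) (nat_lit 17) (.e true (nat_lit 1) (nat_lit 256) (nat_lit 1) (nat_lit 17) (.e true (nat_lit 2) (nat_lit 257) (nat_lit 1) (nat_lit 17) (.e false (nat_lit 2) (nat_lit 259) (nat_lit 1) (nat_lit 17) (.e true (nat_lit 3) (nat_lit 260) (nat_lit 1) (nat_lit 17) (.e true (nat_lit 3) (nat_lit 261) (nat_lit 1) (nat_lit 17) (.e true (nat_lit 2) (nat_lit 262) (nat_lit 1) (nat_lit 17) (.e true (nat_lit 3) (nat_lit 263) (nat_lit 1) (nat_lit 17) (.e false (nat_lit 3) (nat_lit 264) (nat_lit 1) (nat_lit 17) (.e false (nat_lit 3) (nat_lit 265) (nat_lit 1) (nat_lit 17) (.e true (nat_lit 3) (nat_lit 266) (nat_lit 1) (nat_lit 17) (.e true (nat_lit 3) (nat_lit 267) (nat_lit 1) (nat_lit 17) (.e true (nat_lit 3) (nat_lit 269) (nat_lit 1) (nat_lit 17) dC2d_i36))))))))))))))))))) .leaf) (nat_lit 175110) (nat_lit 1380) (.p (nat_lit 397) (nat_lit 3) (.p (nat_lit 398) (nat_lit 1) (.p (nat_lit 399) (nat_lit 1) (.p (nat_lit 400) (nat_lit 2) (.p (nat_lit 401) (nat_lit 3) (.n (nat_lit 402) (nat_lit 2) (.n (nat_lit 403) (nat_lit 1) (.p (nat_lit 404) (nat_lit 2) (.p (nat_lit 405) (nat_lit 3) (.n (nat_lit 406) (nat_lit 3) (.n (nat_lit 407) (nat_lit 1) (.p (nat_lit 408) (nat_lit 2) (.n (nat_lit 410) (nat_lit 1) (.n (nat_lit 411) (nat_lit 2) (.p (nat_lit 413) (nat_lit 2) (.n (nat_lit 414) (nat_lit 1) (.p (nat_lit 415) (nat_lit 1) (.p (nat_lit 417) (nat_lit 1) (.p (nat_lit 418) (nat_lit 2) (.p (nat_lit 419) (nat_lit 1) (.n (nat_lit 420) (nat_lit 2) (.p (nat_lit 421) (nat_lit 2) (.n (nat_lit 422) (nat_lit 1) (.p (nat_lit 424) (nat_lit 2) (.p (nat_lit 427) (nat_lit 2) (.n (nat_lit 431) (nat_lit 1) (.n (nat_lit 432) (nat_lit 1) (.p (nat_lit 433) (nat_lit 1) (.n (nat_lit 435) (nat_lit 1) .z))))))))))))))))))))))))))))) (.ct dC2d_c293 (nat_lit 1) (nat_lit 10) (.s true (nat_lit 1) (nat_lit 35) (nat_lit 2) (nat_lit 2) (nat_lit 6) true (nat_lit 4) true (nat_lit 10) true (nat_lit 1) true (nat_lit 14) true (nat_lit 14) (.e false (nat_lit 1) (nat_lit 82) (nat_lit 18) (nat_lit 4) (.e true (nat_lit 1) (nat_lit 46) (nat_lit 35) (nat_lit 1) (.e false (nat_lit 1) (nat_lit 47) (nat_lit 35) (nat_lit 1) dC2d_i37))))) (.nd .leaf (nat_lit 176129) (nat_lit 589) (.p (nat_lit 280) (nat_lit 1) .z) .df .leaf))))) (nat_lit 176130) (nat_lit 749) (.p (nat_lit 308) (nat_lit 1) .z) .df (.nd (.nd (.nd (.nd (.nd (.nd .leaf (nat_lit 176132) (nat_lit 1153) (.p (nat_lit 335) (nat_lit 2) (.n (nat_lit 336) (nat_lit 3) (.p (nat_lit 337) (nat_lit 1) (.n (nat_lit 338) (nat_lit 1) (.n (nat_lit 339) (nat_lit 2) (.n (nat_lit 340) (nat_lit 3) (.p (nat_lit 342) (nat_lit 3) (.p (nat_lit 343) (nat_lit 1) (.n (nat_lit 344) (nat_lit 3) (.n (nat_lit 346) (nat_lit 3) (.n (nat_lit 347) (nat_lit 3) (.n (nat_lit 349) (nat_lit 3) (.n (nat_lit 350) (nat_lit 3) (.p (nat_lit 351) (nat_lit 2) (.p (nat_lit 352) (nat_lit 2) (.n (nat_lit 355) (nat_lit 1) (.p (nat_lit 356) (nat_lit 2) (.n (nat_lit 357) (nat_lit 2) (.p (nat_lit 358) (nat_lit 2) (.n (nat_lit 359) (nat_lit 3) (.n (nat_lit 360) (nat_lit 1) (.p (nat_lit 361) (nat_lit 2) (.n (nat_lit 362) (nat_lit 1) (.n (nat_lit 363) (nat_lit 3) (.p (nat_lit 364) (nat_lit 3) (.n (nat_lit 366) (nat_lit 3) (.p (nat_lit 367) (nat_lit 2) (.n (nat_lit 368) (nat_lit 3) (.n (nat_lit 370) (nat_lit 3) (.n (nat_lit 371) (nat_lit 3) (.n (nat_lit 372) (nat_lit 1) (.p (nat_lit 373) (nat_lit 3) (.n (nat_lit 374) (nat_lit 1) (.p (nat_lit 377) (nat_lit 2) (.p (nat_lit 380) (nat_lit 3) (.p (nat_lit 381) (nat_lit 2) .z)))))))))))))))))))))))))))))))))))) (.ct dC2d_c308 (nat_lit 1) (nat_lit 14) (.s true (nat_lit 1) (nat_lit 83) (nat_lit 1) (nat_lit 2) (nat_lit 1) true (nat_lit 14) true (nat_lit 17) false (nat_lit 7) true (nat_lit 17) true (nat_lit 16) (.e false (nat_lit 1) (nat_lit 83) (nat_lit 15) (nat_lit 7) (.e false (nat_lit 1) (nat_lit 253) (nat_lit 1) (nat_lit 17) (.e true (nat_lit 2) (nat_lit 254) (nat_lit 1) (nat_lit 17) (.e true (nat_lit 3) (nat_lit 255) (nat_lit 1) (nat_lit 17) (.e false (nat_lit 2) (nat_lit 256) (nat_lit 1) (nat_lit 17) dC2d_i38))))))) .leaf) (nat_lit 176134) (nat_lit 1364) (.n (nat_lit 397) (nat_lit 2) (.p (nat_lit 399) (nat_lit 2) (.n (nat_lit 400) (nat_lit 3) (.p (nat_lit 401) (nat_lit 3) (.p (nat_lit 402) (nat_lit 3) (.n (nat_lit 403) (nat_lit 1) (.p (nat_lit 404) (nat_lit 1) (.p (nat_lit 405) (nat_lit 1) (.p (nat_lit 407) (nat_lit 3) (.p (nat_lit 408) (nat_lit 3) (.n (nat_lit 409) (nat_lit 2) (.n (nat_lit 412) (nat_lit 2) (.n (nat_lit 413) (nat_lit 1) (.p (nat_lit 414) (nat_lit 2) (.n (nat_lit 415) (nat_lit 3) (.p (nat_lit 416) (nat_lit 2) (.p (nat_lit 417) (nat_lit 1) (.p (nat_lit 418) (nat_lit 2) (.p (nat_lit 419) (nat_lit 1) (.n (nat_lit 420) (nat_lit 3) (.n (nat_lit 422) (nat_lit 1) (.n (nat_lit 423) (nat_lit 1) (.p (nat_lit 424) (nat_lit 1) (.p (nat_lit 427) (nat_lit 2) (.p (nat_lit 428) (nat_lit 1) (.p (nat_lit 430) (nat_lit 1) (.n (nat_lit 432) (nat_lit 1) .z))))))))))))))))))))))))))) (.ct dC2d_c293 (nat_lit 1) (nat_lit 10) (.s true (nat_lit 1) (nat_lit 83) (nat_lit 1) (nat_lit 2) (nat_lit 2) true (nat_lit 10) true (nat_lit 14) false (nat_lit 4) true (nat_lit 15) true (nat_lit 14) (.e true (nat_lit 1) (nat_lit 268) (nat_lit 2) (nat_lit 14) (.e false (nat_lit 1) (nat_lit 83) (nat_lit 18) (nat_lit 4) (.e true (nat_lit 2) (nat_lit 305) (nat_lit 1) (nat_lit 15) (.e true (nat_lit 1) (nat_lit 306) (nat_lit 1) (nat_lit 15) (.e false (nat_lit 3) (nat_lit 307) (nat_lit 1) (nat_lit 15) (.e false (nat_lit 3) (nat_lit 308) (nat_lit 1) (nat_lit 15) (.e false (nat_lit 2) (nat_lit 309) (nat_lit 1) (nat_lit 15) (.e true (nat_lit 2) (nat_lit 310) (nat_lit 1) (nat_lit 15) (.e true (nat_lit 1) (nat_lit 313) (nat_lit 1) (nat_lit 15) (.e false (nat_lit 1) (nat_lit 314) (nat_lit 1) (nat_lit 15) (.e true (nat_lit 2) (nat_lit 315) (nat_lit 1) (nat_lit 15) (.e true (nat_lit 1) (nat_lit 317) (nat_lit 1) (nat_lit 15) (.e false (nat_lit 1) (nat_lit 322) (nat_lit 1) (nat_lit 15) (.e false (nat_lit 1) (nat_lit 280) (nat_lit 2) (nat_lit 14) (.u (nat_lit 2) (.n (nat_lit 1) (nat_lit 1) (.n (nat_lit 2) (nat_lit 1) (.p (nat_lit 3) (nat_lit 1) (.n (nat_lit 4) (nat_lit 1) (.n (nat_lit 10) (nat_lit 1) (.p (nat_lit 12) (nat_lit 1) (.p (nat_lit 15) (nat_lit 1) (.p (nat_lit 16) (nat_lit 1) (.n (nat_lit 17) (nat_lit 1) (.p (nat_lit 18) (nat_lit 1) (.n (nat_lit 19) (nat_lit 1) .z))))))))))) .nil))))))))))))))))) .leaf) (nat_lit 177153) (nat_lit 634) (.p (nat_lit 252) (nat_lit 3) (.p (nat_lit 253) (nat_lit 3) (.n (nat_lit 254) (nat_lit 3) (.n (nat_lit 255) (nat_lit 3) (.n (nat_lit 256) (nat_lit 2) (.p (nat_lit 257) (nat_lit 1) (.p (nat_lit 258) (nat_lit 3) (.p (nat_lit 261) (nat_lit 1) (.n (nat_lit 263) (nat_lit 2) (.n (nat_lit 265) (nat_lit 3) (.p (nat_lit 266) (nat_lit 1) (.n (nat_lit 267) (nat_lit 2) (.n (nat_lit 270) (nat_lit 3) (.p (nat_lit 271) (nat_lit 3) (.p (nat_lit 272) (nat_lit 3) (.p (nat_lit 273) (nat_lit 3) (.n (nat_lit 275) (nat_lit 3) (.n (nat_lit 276) (nat_lit 3) (.n (nat_lit 277) (nat_lit 3) (.n (nat_lit 279) (nat_lit 1) (.p (nat_lit 280) (nat_lit 2) (.p (nat_lit 283) (nat_lit 1) (.n (nat_lit 286) (nat_lit 2) (.p (nat_lit 288) (nat_lit 1) .z)))))))))))))))))))))))) (.ct dC2d_c292 (nat_lit 1) (nat_lit 12) (.s false (nat_lit 1) (nat_lit 7) (nat_lit 4) (nat_lit 2) (nat_lit 5) false (nat_lit 0) true (nat_lit 8) true (nat_lit 6) true (nat_lit 9) true (nat_lit 11) (.s false (nat_lit 1) (nat_lit 12) (nat_lit 2) (nat_lit 6) (nat_lit 2) true (nat_lit 6) true (nat_lit 11) true (nat_lit 4) true (nat_lit 11) true (nat_lit 7) (.s true (nat_lit 1) (nat_lit 12) (nat_lit 2) (nat_lit 7) (nat_lit 1) true (nat_lit 7) true (nat_lit 12) true (nat_lit 4) true (nat_lit 11) true (nat_lit 6) (.s false (nat_lit 1) (nat_lit 12) (nat_lit 6) (nat_lit 2) (nat_lit 2) true (nat_lit 1) true (nat_lit 11) true (nat_lit 4) true (nat_lit 7) true (nat_lit 11) dC2d_i40))))) (.nd (.nd .leaf (nat_lit 177154) (nat_lit 750) (.p (nat_lit 309) (nat_lit 1) .z) .df .leaf) (nat_lit 177156) (nat_lit 1156) (.n (nat_lit 335) (nat_lit 1) (.n (nat_lit 336) (nat_lit 1) (.n (nat_lit 337) (nat_lit 2) (.n (nat_lit 338) (nat_lit 1) (.n (nat_lit 339) (nat_lit 2) (.n (nat_lit 340) (nat_lit 1) (.p (nat_lit 341) (nat_lit 2) (.n (nat_lit 342) (nat_lit 3) (.p (nat_lit 343) (nat_lit 3) (.n (nat_lit 344) (nat_lit 1) (.p (nat_lit 345) (nat_lit 2) (.n (nat_lit 346) (nat_lit 2) (.p (nat_lit 347) (nat_lit 1) (.p (nat_lit 349) (nat_lit 3) (.p (nat_lit 350) (nat_lit 1) (.n (nat_lit 351) (nat_lit 2) (.p (nat_lit 352) (nat_lit 2) (.n (nat_lit 353) (nat_lit 3) (.n (nat_lit 354) (nat_lit 1) (.n (nat_lit 355) (nat_lit 3) (.n (nat_lit 356) (nat_lit 3) (.p (nat_lit 357) (nat_lit 3) (.n (nat_lit 358) (nat_lit 3) (.n (nat_lit 359) (nat_lit 1) (.p (nat_lit 360) (nat_lit 1) (.p (nat_lit 361) (nat_lit 1) (.p (nat_lit 362) (nat_lit 3) (.n (nat_lit 363) (nat_lit 2) (.p (nat_lit 366) (nat_lit 1) (.p (nat_lit 368) (nat_lit 1) (.p (nat_lit 369) (nat_lit 3) (.p (nat_lit 370) (nat_lit 1) (.p (nat_lit 371) (nat_lit 1) (.p (nat_lit 372) (nat_lit 1) (.n (nat_lit 373) (nat_lit 1) (.n (nat_lit 377) (nat_lit 3) (.p (nat_lit 380) (nat_lit 1) (.p (nat_lit 381) (nat_lit 3) .z)))))))))))))))))))))))))))))))))))))) (.ct dC2d_c308 (nat_lit 1) (nat_lit 14) (.s false (nat_lit 2) (nat_lit 99) (nat_lit 1) (nat_lit 1) (nat_lit 1) true (nat_lit 14) true (nat_lit 17) false (nat_lit 9) true (nat_lit 17) true (nat_lit 17) (.e true (nat_lit 1) (nat_lit 169) (nat_lit 4) (nat_lit 14) (.e false (nat_lit 1) (nat_lit 170) (nat_lit 4) (nat_lit 14) (.e true (nat_lit 2) (nat_lit 171) (nat_lit 4) (nat_lit 14) (.e true (nat_lit 2) (nat_lit 172) (nat_lit 4) (nat_lit 14) (.e false (nat_lit 1) (nat_lit 174) (nat_lit 4) (nat_lit 14) (.e false (nat_lit 2) (nat_lit 175) (nat_lit 4) (nat_lit 14) (.e false (nat_lit 2) (nat_lit 176) (nat_lit 4) (nat_lit 14) (.e true (nat_lit 3) (nat_lit 177) (nat_lit 4) (nat_lit 14) (.e false (nat_lit 3) (nat_lit 178) (nat_lit 4) (nat_lit 14) (.e true (nat_lit 2) (nat_lit 179) (nat_lit 4) (nat_lit 14) (.e true (nat_lit 2) (nat_lit 181) (nat_lit 4) (nat_lit 14) (.e false (nat_lit 2) (nat_lit 182) (nat_lit 4) (nat_lit 14) (.e false (nat_lit 2) (nat_lit 252) (nat_lit 1) (nat_lit 17) (.e true (nat_lit 2) (nat_lit 253) (nat_lit 1) (nat_lit 17) (.e false (nat_lit 3) (nat_lit 254) (nat_lit 1) (nat_lit 17) (.e false (nat_lit 1) (nat_lit 255) (nat_lit 1) (nat_lit 17) (.e false (nat_lit 1) (nat_lit 256) (nat_lit 1) (nat_lit 17) dC2d_i41))))))))))))))))))) .leaf)) (nat_lit 178177) (nat_lit 626) (.p (nat_lit 253) (nat_lit 3) (.n (nat_lit 254) (nat_lit 3) (.p (nat_lit 255) (nat_lit 3) (.p (nat_lit 256) (nat_lit 2) (.n (nat_lit 257) (nat_lit 3) (.p (nat_lit 258) (nat_lit 1) (.p (nat_lit 259) (nat_lit 3) (.n (nat_lit 260) (nat_lit 3) (.n (nat_lit 261) (nat_lit 3) (.n (nat_lit 262) (nat_lit 2) (.n (nat_lit 264) (nat_lit 2) (.n (nat_lit 265) (nat_lit 2) (.p (nat_lit 266) (nat_lit 2) (.p (nat_lit 267) (nat_lit 1) (.n (nat_lit 269) (nat_lit 1) (.p (nat_lit 270) (nat_lit 3) (.p (nat_lit 272) (nat_lit 3) (.n (nat_lit 274) (nat_lit 1) (.n (nat_lit 275) (nat_lit 2) (.p (nat_lit 278) (nat_lit 1) (.n (nat_lit 280) (nat_lit 1) (.n (nat_lit 285) (nat_lit 1) (.p (nat_lit 286) (nat_lit 1) .z))))))))))))))))))))))) (.ct dC2d_c292 (nat_lit 1) (nat_lit 12) (.s false (nat_lit 2) (nat_lit 7) (nat_lit 0) (nat_lit 7) (nat_lit 4) true (nat_lit 5) true (nat_lit 9) true (nat_lit 6) true (nat_lit 13) true (nat_lit 6) (.s true (nat_lit 1) (nat_lit 9) (nat_lit 2) (nat_lit 7) (nat_lit 2) true (nat_lit 6) true (nat_lit 11) true (nat_lit 5) true (nat_lit 11) true (nat_lit 6) (.s false (nat_lit 3) (nat_lit 9) (nat_lit 7) (nat_lit 2) (nat_lit 2) true (nat_lit 0) true (nat_lit 11) true (nat_lit 5) true (nat_lit 6) true (nat_lit 11) (.s false (nat_lit 3) (nat_lit 13) (nat_lit 2) (nat_lit 1) (nat_lit 7) true (nat_lit 0) true (nat_lit 6) true (nat_lit 4) true (nat_lit 11) true (nat_lit 12) (.s false (nat_lit 3) (nat_lit 13) (nat_lit 2) (nat_lit 2) (nat_lit 6) true (nat_lit 1) true (nat_lit 7) true (nat_lit 4) true (nat_lit 11) true (nat_lit 11) (.s true (nat_lit 1) (nat_lit 12) (nat_lit 7) (nat_lit 2) (nat_lit 1) true (nat_lit 1) true (nat_lit 12) true (nat_lit 4) true (nat_lit 6) true (nat_lit 11) (.s false (nat_lit 3) (nat_lit 17) (nat_lit 2) (nat_lit 4) (nat_lit 2) true (nat_lit 6) true (nat_lit 11) true (nat_lit 2) true (nat_lit 11) true (nat_lit 9) (.s false (nat_lit 3) (nat_lit 20) (nat_lit 0) (nat_lit 2) (nat_lit 4) true (nat_lit 5) true (nat_lit 9) true (nat_lit 0) true (nat_lit 13) true (nat_lit 11) (.s true (nat_lit 3) (nat_lit 20) (nat_lit 1) (nat_lit 6) (nat_lit 0) true (nat_lit 10) true (nat_lit 13) true (nat_lit 0) true (nat_lit 12) true (nat_lit 7) (.s false (nat_lit 2) (nat_lit 20) (nat_lit 2) (nat_lit 1) (nat_lit 3) true (nat_lit 4) true (nat_lit 10) true (nat_lit 0) true (nat_lit 11) true (nat_lit 12) (.s true (nat_lit 3) (nat_lit 20) (nat_lit 2) (nat_lit 3) (nat_lit 1) true (nat_lit 7) true (nat_lit 12) true (nat_lit 0) true (nat_lit 11) true (nat_lit 10) (.s false (nat_lit 3) (nat_lit 20) (nat_lit 6) (nat_lit 0) (nat_lit 1) true (nat_lit 3) true (nat_lit 12) true (nat_lit 0) true (nat_lit 7) true (nat_lit 13) (.s true (nat_lit 3) (nat_lit 34) (nat_lit 1) (nat_lit 2) (nat_lit 2) true (nat_lit 7) true (nat_lit 11) false (nat_lit 1) true (nat_lit 12) true (nat_lit 11) (.s true (nat_lit 3) (nat_lit 35) (nat_lit 1) (nat_lit 2) (nat_lit 2) true (nat_lit 7) true (nat_lit 11) false (nat_lit 1) true (nat_lit 12) true (nat_lit 11) (.s false (nat_lit 3) (nat_lit 34) (nat_lit 2) (nat_lit 1) (nat_lit 2) true (nat_lit 6) true (nat_lit 11) false (nat_lit 1) true (nat_lit 11) true (nat_lit 12) dC2d_i43)))))))))))))))) (.nd (.nd (.nd .leaf (nat_lit 178178) (nat_lit 751) (.p (nat_lit 310) (nat_lit 1) .z) .df .leaf) (nat_lit 178180) (nat_lit 1154) (.n (nat_lit 335) (nat_lit 2) (.n (nat_lit 336) (nat_lit 3) (.p (nat_lit 337) (nat_lit 1) (.n (nat_lit 338) (nat_lit 1) (.n (nat_lit 339) (nat_lit 2) (.p (nat_lit 340) (nat_lit 1) (.n (nat_lit 341) (nat_lit 3) (.p (nat_lit 342) (nat_lit 2) (.n (nat_lit 343) (nat_lit 3) (.p (nat_lit 345) (nat_lit 3) (.p (nat_lit 346) (nat_lit 2) (.p (nat_lit 347) (nat_lit 3) (.n (nat_lit 350) (nat_lit 1) (.n (nat_lit 351) (nat_lit 2) (.n (nat_lit 353) (nat_lit 2) (.p (nat_lit 354) (nat_lit 1) (.n (nat_lit 356) (nat_lit 2) (.p (nat_lit 357) (nat_lit 2) (.n (nat_lit 358) (nat_lit 3) (.p (nat_lit 359) (nat_lit 3) (.p (nat_lit 360) (nat_lit 2) (.n (nat_lit 361) (nat_lit 3) (.p (nat_lit 362) (nat_lit 3) (.n (nat_lit 363) (nat_lit 3) (.n (nat_lit 364) (nat_lit 3) (.n (nat_lit 366) (nat_lit 1) (.n (nat_lit 367) (nat_lit 2) (.p (nat_lit 368) (nat_lit 1) (.n (nat_lit 369) (nat_lit 2) (.p (nat_lit 370) (nat_lit 2) (.p (nat_lit 371) (nat_lit 3) (.n (nat_lit 372) (nat_lit 3) (.n (nat_lit 373) (nat_lit 1) (.p (nat_lit 374) (nat_lit 1) (.p (nat_lit 375) (nat_lit 2) (.n (nat_lit 377) (nat_lit 2) (.p (nat_lit 380) (nat_lit 1) (.p (nat_lit 381) (nat_lit 3) (.p (nat_lit 382) (nat_lit 2) (.n (nat_lit 383) (nat_lit 1) .z)))))))))))))))))))))))))))))))))))))))) (.ct dC2d_c308 (nat_lit 1) (nat_lit 14) (.s false (nat_lit 1) (nat_lit 48) (nat_lit 4) (nat_lit 0) (nat_lit 1) true (nat_lit 9) true (nat_lit 17) false (nat_lit 3) true (nat_lit 14) true (nat_lit 18) (.e true (nat_lit 1) (nat_lit 98) (nat_lit 10) (nat_lit 9) (.e false (nat_lit 1) (nat_lit 100) (nat_lit 10) (nat_lit 9) (.e false (nat_lit 1) (nat_lit 252) (nat_lit 1) (nat_lit 17) (.e true (nat_lit 1) (nat_lit 253) (nat_lit 1) (nat_lit 17) (.e true (nat_lit 1) (nat_lit 254) (nat_lit 1) (nat_lit 17) (.e true (nat_lit 3) (nat_lit 255) (nat_lit 1) (nat_lit 17) (.e false (nat_lit 2) (nat_lit 256) (nat_lit 1) (nat_lit 17) (.e true (nat_lit 1) (nat_lit 258) (nat_lit 1) (nat_lit 17) (.e false (nat_lit 1) (nat_lit 259) (nat_lit 1) (nat_lit 17) (.e true (nat_lit 1) (nat_lit 260) (nat_lit 1) (nat_lit 17) (.e false (nat_lit 2) (nat_lit 261) (nat_lit 1) (nat_lit 17) (.e true (nat_lit 3) (nat_lit 262) (nat_lit 1) (nat_lit 17) (.e false (nat_lit 1) (nat_lit 263) (nat_lit 1) (nat_lit 17) (.e false (nat_lit 3) (nat_lit 264) (nat_lit 1) (nat_lit 17) (.e false (nat_lit 1) (nat_lit 265) (nat_lit 1) (nat_lit 17) (.e true (nat_lit 3) (nat_lit 266) (nat_lit 1) (nat_lit 17) dC2d_i44)))))))))))))))))) .leaf) (nat_lit 178182) (nat_lit 1381) (.n (nat_lit 397) (nat_lit 3) (.n (nat_lit 398) (nat_lit 2) (.n (nat_lit 399) (nat_lit 1) (.n (nat_lit 401) (nat_lit 2) (.n (nat_lit 402) (nat_lit 1) (.n (nat_lit 403) (nat_lit 3) (.p (nat_lit 404) (nat_lit 1) (.p (nat_lit 405) (nat_lit 3) (.n (nat_lit 406) (nat_lit 3) (.p (nat_lit 407) (nat_lit 1) (.p (nat_lit 408) (nat_lit 1) (.n (nat_lit 410) (nat_lit 3) (.p (nat_lit 411) (nat_lit 1) (.p (nat_lit 413) (nat_lit 1) (.n (nat_lit 414) (nat_lit 3) (.n (nat_lit 415) (nat_lit 1) (.n (nat_lit 416) (nat_lit 3) (.p (nat_lit 418) (nat_lit 3) (.p (nat_lit 420) (nat_lit 1) (.p (nat_lit 421) (nat_lit 1) (.p (nat_lit 423) (nat_lit 1) (.p (nat_lit 424) (nat_lit 1) (.n (nat_lit 428) (nat_lit 1) (.n (nat_lit 430) (nat_lit 1) (.n (nat_lit 431) (nat_lit 3) (.p (nat_lit 432) (nat_lit 2) (.p (nat_lit 435) (nat_lit 2) .z))))))))))))))))))))))))))) (.ct dC2d_c293 (nat_lit 1) (nat_lit 10) (.s false (nat_lit 1) (nat_lit 48) (nat_lit 2) (nat_lit 3) (nat_lit 1) true (nat_lit 10) true (nat_lit 15) false (nat_lit 2) true (nat_lit 14) true (nat_lit 13) (.e false (nat_lit 1) (nat_lit 170) (nat_lit 6) (nat_lit 10) (.e true (nat_lit 1) (nat_lit 171) (nat_lit 6) (nat_lit 10) (.e true (nat_lit 1) (nat_lit 172) (nat_lit 6) (nat_lit 10) (.e false (nat_lit 1) (nat_lit 181) (nat_lit 6) (nat_lit 10) (.e false (nat_lit 3) (nat_lit 305) (nat_lit 1) (nat_lit 15) (.e false (nat_lit 2) (nat_lit 306) (nat_lit 1) (nat_lit 15) (.e true (nat_lit 2) (nat_lit 307) (nat_lit 1) (nat_lit 15) (.e false (nat_lit 1) (nat_lit 308) (nat_lit 1) (nat_lit 15) (.e true (nat_lit 2) (nat_lit 309) (nat_lit 1) (nat_lit 15) (.e false (nat_lit 3) (nat_lit 310) (nat_lit 1) (nat_lit 15) (.e false (nat_lit 1) (nat_lit 311) (nat_lit 1) (nat_lit 15) (.e false (nat_lit 1) (nat_lit 312) (nat_lit 1) (nat_lit 15) (.e true (nat_lit 1) (nat_lit 313) (nat_lit 1) (nat_lit 15) (.e false (nat_lit 2) (nat_lit 314) (nat_lit 1) (nat_lit 15) (.e false (nat_lit 3) (nat_lit 315) (nat_lit 1) (nat_lit 15) (.e true (nat_lit 1) (nat_lit 318) (nat_lit 1) (nat_lit 15) (.e false (nat_lit 1) (nat_lit 321) (nat_lit 1) (nat_lit 15) (.e true (nat_lit 1) (nat_lit 322) (nat_lit 1) (nat_lit 15) (.e true (nat_lit 1) (nat_lit 48) (nat_lit 26) (nat_lit 2) (.e false (nat_lit 1) (nat_lit 264) (nat_lit 2) (nat_lit 14) (.e true (nat_lit 1) (nat_lit 283) (nat_lit 2) (nat_lit 14) (.e true (nat_lit 1) (nat_lit 202) (nat_lit 3) (nat_lit 13) (.u (nat_lit 2) (.p (nat_lit 0) (nat_lit 1) (.p (nat_lit 2) (nat_lit 1) (.n (nat_lit 8) (nat_lit 2) (.n (nat_lit 10) (nat_lit 1) (.n (nat_lit 11) (nat_lit 1) (.p (nat_lit 12) (nat_lit 2) (.p (nat_lit 14) (nat_lit 1) (.n (nat_lit 17) (nat_lit 1) (.n (nat_lit 18) (nat_lit 1) (.n (nat_lit 21) (nat_lit 1) (.p (nat_lit 23) (nat_lit 1) (.n (nat_lit 24) (nat_lit 1) (.n (nat_lit 27) (nat_lit 1) (.n (nat_lit 30) (nat_lit 1) (.p (nat_lit 34) (nat_lit 1) .z))))))))))))))) .nil))))))))))))))))))))))))) (.nd (.nd .leaf (nat_lit 179201) (nat_lit 590) (.p (nat_lit 281) (nat_lit 1) .z) .df .leaf) (nat_lit 179202) (nat_lit 752) (.p (nat_lit 311) (nat_lit 1) .z) .df .leaf))) (nat_lit 179204) (nat_lit 1155) (.p (nat_lit 335) (nat_lit 3) (.p (nat_lit 336) (nat_lit 3) (.n (nat_lit 337) (nat_lit 1) (.p (nat_lit 338) (nat_lit 2) (.n (nat_lit 339) (nat_lit 3) (.p (nat_lit 340) (nat_lit 2) (.n (nat_lit 341) (nat_lit 1) (.p (nat_lit 342) (nat_lit 1) (.p (nat_lit 343) (nat_lit 3) (.p (nat_lit 344) (nat_lit 3) (.n (nat_lit 345) (nat_lit 3) (.n (nat_lit 346) (nat_lit 3) (.p (nat_lit 347) (nat_lit 3) (.p (nat_lit 349) (nat_lit 2) (.p (nat_lit 350) (nat_lit 1) (.n (nat_lit 351) (nat_lit 2) (.n (nat_lit 352) (nat_lit 2) (.n (nat_lit 353) (nat_lit 3) (.p (nat_lit 354) (nat_lit 2) (.p (nat_lit 355) (nat_lit 2) (.n (nat_lit 356) (nat_lit 1) (.p (nat_lit 357) (nat_lit 1) (.p (nat_lit 358) (nat_lit 2) (.n (nat_lit 359) (nat_lit 3) (.n (nat_lit 360) (nat_lit 2) (.n (nat_lit 361) (nat_lit 2) (.n (nat_lit 362) (nat_lit 2) (.n (nat_lit 363) (nat_lit 3) (.n (nat_lit 364) (nat_lit 1) (.p (nat_lit 366) (nat_lit 3) (.n (nat_lit 367) (nat_lit 3) (.n (nat_lit 368) (nat_lit 2) (.p (nat_lit 369) (nat_lit 1) (.n (nat_lit 370) (nat_lit 2) (.p (nat_lit 371) (nat_lit 2) (.n (nat_lit 372) (nat_lit 2) (.p (nat_lit 373) (nat_lit 2) (.n (nat_lit 374) (nat_lit 2) (.p (nat_lit 378) (nat_lit 2) (.p (nat_lit 380) (nat_lit 2) (.n (nat_lit 381) (nat_lit 1) (.p (nat_lit 382) (nat_lit 1) (.p (nat_lit 383) (nat_lit 3) .z))))))))))))))))))))))))))))))))))))))))))) (.ct dC2d_c308 (nat_lit 1) (nat_lit 14) (.s true (nat_lit 3) (nat_lit 48) (nat_lit 1) (nat_lit 0) (nat_lit 4) true (nat_lit 9) true (nat_lit 14) false (nat_lit 3) true (nat_lit 17) true (nat_lit 18) (.e true (nat_lit 3) (nat_lit 98) (nat_lit 10) (nat_lit 9) (.e false (nat_lit 3) (nat_lit 100) (nat_lit 10) (nat_lit 9) (.e false (nat_lit 3) (nat_lit 169) (nat_lit 4) (nat_lit 14) (.e false (nat_lit 3) (nat_lit 171) (nat_lit 4) (nat_lit 14) (.e true (nat_lit 2) (nat_lit 172) (nat_lit 4) (nat_lit 14) (.e true (nat_lit 1) (nat_lit 174) (nat_lit 4) (nat_lit 14) (.e true (nat_lit 1) (nat_lit 176) (nat_lit 4) (nat_lit 14) (.e true (nat_lit 3) (nat_lit 177) (nat_lit 4) (nat_lit 14) (.e false (nat_lit 2) (nat_lit 179) (nat_lit 4) (nat_lit 14) (.e false (nat_lit 3) (nat_lit 181) (nat_lit 4) (nat_lit 14) dC2d_i45)))))))))))) (.nd (.nd (.nd (.nd .leaf (nat_lit 179206) (nat_lit 1345) (.n (nat_lit 397) (nat_lit 1) (.n (nat_lit 398) (nat_lit 3) (.p (nat_lit 399) (nat_lit 3) (.p (nat_lit 400) (nat_lit 3) (.n (nat_lit 401) (nat_lit 2) (.n (nat_lit 402) (nat_lit 1) (.p (nat_lit 403) (nat_lit 3) (.n (nat_lit 404) (nat_lit 2) (.p (nat_lit 406) (nat_lit 2) (.p (nat_lit 407) (nat_lit 3) (.n (nat_lit 408) (nat_lit 2) (.p (nat_lit 409) (nat_lit 2) (.p (nat_lit 410) (nat_lit 3) (.n (nat_lit 411) (nat_lit 1) (.p (nat_lit 412) (nat_lit 3) (.p (nat_lit 413) (nat_lit 2) (.n (nat_lit 414) (nat_lit 3) (.p (nat_lit 415) (nat_lit 3) (.p (nat_lit 416) (nat_lit 3) (.p (nat_lit 418) (nat_lit 3) (.p (nat_lit 420) (nat_lit 3) (.n (nat_lit 421) (nat_lit 3) (.n (nat_lit 431) (nat_lit 3) (.p (nat_lit 432) (nat_lit 3) (.p (nat_lit 434) (nat_lit 1) (.p (nat_lit 435) (nat_lit 1) .z)))))))))))))))))))))))))) (.ct dC2d_c293 (nat_lit 1) (nat_lit 10) (.s true (nat_lit 1) (nat_lit 86) (nat_lit 1) (nat_lit 2) (nat_lit 2) true (nat_lit 10) true (nat_lit 14) false (nat_lit 4) true (nat_lit 15) true (nat_lit 14) (.e false (nat_lit 1) (nat_lit 252) (nat_lit 2) (nat_lit 14) (.e true (nat_lit 1) (nat_lit 254) (nat_lit 2) (nat_lit 14) (.e true (nat_lit 2) (nat_lit 255) (nat_lit 2) (nat_lit 14) (.e true (nat_lit 2) (nat_lit 256) (nat_lit 2) (nat_lit 14) (.e true (nat_lit 1) (nat_lit 257) (nat_lit 2) (nat_lit 14) (.e false (nat_lit 3) (nat_lit 261) (nat_lit 2) (nat_lit 14) (.e true (nat_lit 3) (nat_lit 264) (nat_lit 2) (nat_lit 14) dC2d_i46))))))))) .leaf) (nat_lit 180225) (nat_lit 630) (.p (nat_lit 255) (nat_lit 2) (.p (nat_lit 256) (nat_lit 1) (.p (nat_lit 257) (nat_lit 2) (.n (nat_lit 258) (nat_lit 3) (.p (nat_lit 261) (nat_lit 2) (.p (nat_lit 262) (nat_lit 3) (.p (nat_lit 263) (nat_lit 1) (.p (nat_lit 264) (nat_lit 1) (.p (nat_lit 265) (nat_lit 3) (.n (nat_lit 266) (nat_lit 1) (.p (nat_lit 267) (nat_lit 2) (.p (nat_lit 269) (nat_lit 1) (.p (nat_lit 270) (nat_lit 3) (.p (nat_lit 272) (nat_lit 2) (.p (nat_lit 274) (nat_lit 2) (.p (nat_lit 275) (nat_lit 1) (.p (nat_lit 277) (nat_lit 1) (.p (nat_lit 279) (nat_lit 2) (.n (nat_lit 280) (nat_lit 1) (.n (nat_lit 281) (nat_lit 1) (.n (nat_lit 283) (nat_lit 2) (.p (nat_lit 285) (nat_lit 2) (.p (nat_lit 287) (nat_lit 1) (.n (nat_lit 288) (nat_lit 1) .z)))))))))))))))))))))))) (.ct dC2d_c292 (nat_lit 1) (nat_lit 12) dC2d_i49) .leaf) (nat_lit 180226) (nat_lit 753) (.p (nat_lit 312) (nat_lit 1) .z) .df (.nd (.nd .leaf (nat_lit 180228) (nat_lit 1107) (.p (nat_lit 335) (nat_lit 1) (.p (nat_lit 336) (nat_lit 3) (.n (nat_lit 337) (nat_lit 1) (.p (nat_lit 338) (nat_lit 2) (.n (nat_lit 339) (nat_lit 3) (.p (nat_lit 341) (nat_lit 2) (.n (nat_lit 343) (nat_lit 3) (.p (nat_lit 344) (nat_lit 2) (.n (nat_lit 345) (nat_lit 3) (.n (nat_lit 347) (nat_lit 1) (.n (nat_lit 349) (nat_lit 3) (.p (nat_lit 350) (nat_lit 1) (.n (nat_lit 351) (nat_lit 2) (.n (nat_lit 352) (nat_lit 2) (.p (nat_lit 354) (nat_lit 1) (.n (nat_lit 355) (nat_lit 3) (.p (nat_lit 356) (nat_lit 3) (.n (nat_lit 357) (nat_lit 3) (.n (nat_lit 358) (nat_lit 3) (.p (nat_lit 359) (nat_lit 1) (.p (nat_lit 361) (nat_lit 2) (.n (nat_lit 362) (nat_lit 2) (.n (nat_lit 363) (nat_lit 1) (.n (nat_lit 364) (nat_lit 3) (.p (nat_lit 366) (nat_lit 2) (.n (nat_lit 367) (nat_lit 2) (.n (nat_lit 368) (nat_lit 1) (.n (nat_lit 370) (nat_lit 2) (.n (nat_lit 371) (nat_lit 3) (.n (nat_lit 372) (nat_lit 3) (.p (nat_lit 373) (nat_lit 1) (.n (nat_lit 374) (nat_lit 2) (.p (nat_lit 375) (nat_lit 2) (.p (nat_lit 376) (nat_lit 2) (.n (nat_lit 377) (nat_lit 2) (.n (nat_lit 378) (nat_lit 2) (.n (nat_lit 380) (nat_lit 1) (.n (nat_lit 381) (nat_lit 3) (.n (nat_lit 382) (nat_lit 2) (.p (nat_lit 383) (nat_lit 1) .z)))))))))))))))))))))))))))))))))))))))) (.ct dC2d_c308 (nat_lit 1) (nat_lit 14) (.s false (nat_lit 1) (nat_lit 46) (nat_lit 1) (nat_lit 1) (nat_lit 5) true (nat_lit 8) true (nat_lit 13) false (nat_lit 2) true (nat_lit 17) true (nat_lit 17) (.s false (nat_lit 1) (nat_lit 45) (nat_lit 2) (nat_lit 4) (nat_lit 0) true (nat_lit 13) true (nat_lit 18) false (nat_lit 2) true (nat_lit 16) true (nat_lit 14) (.s false (nat_lit 1) (nat_lit 46) (nat_lit 5) (nat_lit 1) (nat_lit 1) true (nat_lit 8) true (nat_lit 17) false (nat_lit 2) true (nat_lit 13) true (nat_lit 17) (.e false (nat_lit 2) (nat_lit 95) (nat_lit 12) (nat_lit 8) (.e true (nat_lit 1) (nat_lit 158) (nat_lit 5) (nat_lit 13) (.e true (nat_lit 1) (nat_lit 163) (nat_lit 5) (nat_lit 13) (.e false (nat_lit 3) (nat_lit 164) (nat_lit 5) (nat_lit 13) dC2d_i52)))))))) .leaf) (nat_lit 181249) (nat_lit 606) (.p (nat_lit 254) (nat_lit 1) (.n (nat_lit 258) (nat_lit 1) (.p (nat_lit 265) (nat_lit 1) (.n (nat_lit 266) (nat_lit 1) (.p (nat_lit 278) (nat_lit 1) (.n (nat_lit 285) (nat_lit 1) (.p (nat_lit 287) (nat_lit 1) .z))))))) (.ct dC2d_c292 (nat_lit 1) (nat_lit 12) (.s true (nat_lit 1) (nat_lit 11) (nat_lit 1) (nat_lit 2) (nat_lit 7) true (nat_lit 1) true (nat_lit 6) true (nat_lit 4) true (nat_lit 12) true (nat_lit 11) (.s true (nat_lit 1) (nat_lit 11) (nat_lit 2) (nat_lit 2) (nat_lit 6) true (nat_lit 1) true (nat_lit 7) true (nat_lit 4) true (nat_lit 11) true (nat_lit 11) (.s false (nat_lit 1) (nat_lit 33) (nat_lit 1) (nat_lit 2) (nat_lit 2) true (nat_lit 7) true (nat_lit 11) false (nat_lit 1) true (nat_lit 12) true (nat_lit 11) (.e false (nat_lit 1) (nat_lit 33) (nat_lit 19) (nat_lit 1) (.e true (nat_lit 1) (nat_lit 62) (nat_lit 7) (nat_lit 6) (.e false (nat_lit 1) (nat_lit 149) (nat_lit 2) (nat_lit 11) (.e false (nat_lit 2) (nat_lit 138) (nat_lit 2) (nat_lit 11) (.e true (nat_lit 2) (nat_lit 146) (nat_lit 2) (nat_lit 11) (.e false (nat_lit 1) (nat_lit 154) (nat_lit 2) (nat_lit 11) .nil)))))))))) .leaf)) (nat_lit 181250) (nat_lit 754) (.p (nat_lit 313) (nat_lit 1) .z) .df (.nd (.nd (.nd .leaf (nat_lit 181252) (nat_lit 1062) (.n (nat_lit 335) (nat_lit 2) (.p (nat_lit 336) (nat_lit 1) (.p (nat_lit 337) (nat_lit 2) (.p (nat_lit 338) (nat_lit 1) (.p (nat_lit 339) (nat_lit 2) (.p (nat_lit 340) (nat_lit 2) (.p (nat_lit 341) (nat_lit 3) (.p (nat_lit 342) (nat_lit 3) (.n (nat_lit 344) (nat_lit 2) (.p (nat_lit 346) (nat_lit 2) (.p (nat_lit 347) (nat_lit 2) (.n (nat_lit 349) (nat_lit 3) (.n (nat_lit 350) (nat_lit 2) (.n (nat_lit 352) (nat_lit 2) (.p (nat_lit 353) (nat_lit 3) (.n (nat_lit 354) (nat_lit 3) (.n (nat_lit 355) (nat_lit 1) (.n (nat_lit 356) (nat_lit 2) (.p (nat_lit 357) (nat_lit 2) (.n (nat_lit 359) (nat_lit 2) (.p (nat_lit 360) (nat_lit 3) (.p (nat_lit 361) (nat_lit 1) (.p (nat_lit 362) (nat_lit 3) (.p (nat_lit 363) (nat_lit 3) (.p (nat_lit 364) (nat_lit 1) (.n (nat_lit 366) (nat_lit 3) (.p (nat_lit 367) (nat_lit 3) (.n (nat_lit 369) (nat_lit 3) (.p (nat_lit 370) (nat_lit 1) (.p (nat_lit 371) (nat_lit 2) (.p (nat_lit 372) (nat_lit 1) (.p (nat_lit 374) (nat_lit 2) (.n (nat_lit 375) (nat_lit 3) (.p (nat_lit 380) (nat_lit 3) (.p (nat_lit 381) (nat_lit 2) (.n (nat_lit 382) (nat_lit 3) (.n (nat_lit 383) (nat_lit 2) .z))))))))))))))))))))))))))))))))))))) (.ct dC2d_c308 (nat_lit 1) (nat_lit 14) (.s true (nat_lit 3) (nat_lit 7) (nat_lit 3) (nat_lit 7) (nat_lit 4) true (nat_lit 3) true (nat_lit 14) true (nat_lit 11) true (nat_lit 15) true (nat_lit 11) (.e true (nat_lit 2) (nat_lit 119) (nat_lit 7) (nat_lit 11) (.e false (nat_lit 2) (nat_lit 123) (nat_lit 7) (nat_lit 11) (.e false (nat_lit 2) (nat_lit 127) (nat_lit 7) (nat_lit 11) (.e false (nat_lit 3) (nat_lit 130) (nat_lit 7) (nat_lit 11) (.e false (nat_lit 3) (nat_lit 129) (nat_lit 7) (nat_lit 11) (.e true (nat_lit 1) (nat_lit 190) (nat_lit 3) (nat_lit 15) (.u (nat_lit 2) (.p (nat_lit 0) (nat_lit 2) (.p (nat_lit 2) (nat_lit 1) (.n (nat_lit 4) (nat_lit 1) (.n (nat_lit 6) (nat_lit 3) (.p (nat_lit 7) (nat_lit 1) (.n (nat_lit 8) (nat_lit 4) (.n (nat_lit 10) (nat_lit 2) (.p (nat_lit 15) (nat_lit 1) (.p (nat_lit 16) (nat_lit 1) (.n (nat_lit 18) (nat_lit 2) (.p (nat_lit 19) (nat_lit 2) (.p (nat_lit 21) (nat_lit 3) (.n (nat_lit 22) (nat_lit 3) (.p (nat_lit 26) (nat_lit 3) (.n (nat_lit 29) (nat_lit 1) (.n (nat_lit 32) (nat_lit 2) (.n (nat_lit 35) (nat_lit 2) (.n (nat_lit 36) (nat_lit 5) (.n (nat_lit 37) (nat_lit 2) (.p (nat_lit 39) (nat_lit 2) (.p (nat_lit 40) (nat_lit 1) (.n (nat_lit 44) (nat_lit 1) (.n (nat_lit 45) (nat_lit 1) (.n (nat_lit 47) (nat_lit 1) (.p (nat_lit 48) (nat_lit 1) (.n (nat_lit 224) (nat_lit 3) (.n (nat_lit 226) (nat_lit 4) (.p (nat_lit 229) (nat_lit 3) (.p (nat_lit 230) (nat_lit 4) (.p (nat_lit 234) (nat_lit 7) (.p (nat_lit 284) (nat_lit 1) (.p (nat_lit 297) (nat_lit 1) .z)))))))))))))))))))))))))))))))) .nil))))))))) .leaf) (nat_lit 181254) (nat_lit 1358) (.n (nat_lit 397) (nat_lit 2) (.n (nat_lit 398) (nat_lit 1) (.p (nat_lit 399) (nat_lit 1) (.n (nat_lit 400) (nat_lit 3) (.n (nat_lit 401) (nat_lit 2) (.n (nat_lit 402) (nat_lit 2) (.p (nat_lit 403) (nat_lit 3) (.n (nat_lit 405) (nat_lit 3) (.p (nat_lit 406) (nat_lit 3) (.p (nat_lit 407) (nat_lit 3) (.n (nat_lit 409) (nat_lit 2) (.n (nat_lit 410) (nat_lit 3) (.n (nat_lit 412) (nat_lit 1) (.p (nat_lit 413) (nat_lit 3) (.n (nat_lit 414) (nat_lit 1) (.n (nat_lit 415) (nat_lit 1) (.p (nat_lit 416) (nat_lit 1) (.p (nat_lit 417) (nat_lit 2) (.n (nat_lit 418) (nat_lit 2) (.p (nat_lit 419) (nat_lit 2) (.p (nat_lit 420) (nat_lit 1) (.n (nat_lit 422) (nat_lit 2) (.n (nat_lit 424) (nat_lit 3) (.n (nat_lit 427) (nat_lit 3) (.p (nat_lit 431) (nat_lit 3) (.p (nat_lit 435) (nat_lit 3) .z)))))))))))))))))))))))))) (.ct dC2d_c293 (nat_lit 1) (nat_lit 10) (.s true (nat_lit 3) (nat_lit 7) (nat_lit 3) (nat_lit 7) (nat_lit 6) true (nat_lit 2) true (nat_lit 10) true (nat_lit 9) true (nat_lit 13) true (nat_lit 9) (.e false (nat_lit 3) (nat_lit 133) (nat_lit 7) (nat_lit 9) (.e true (nat_lit 3) (nat_lit 135) (nat_lit 7) (nat_lit 9) (.e false (nat_lit 3) (nat_lit 132) (nat_lit 7) (nat_lit 9) (.e false (nat_lit 3) (nat_lit 134) (nat_lit 7) (nat_lit 9) (.e false (nat_lit 3) (nat_lit 137) (nat_lit 7) (nat_lit 9) (.e true (nat_lit 3) (nat_lit 145) (nat_lit 7) (nat_lit 9) (.e true (nat_lit 3) (nat_lit 152) (nat_lit 7) (nat_lit 9) (.e true (nat_lit 3) (nat_lit 138) (nat_lit 7) (nat_lit 9) (.e false (nat_lit 3) (nat_lit 157) (nat_lit 7) (nat_lit 9) (.e false (nat_lit 1) (nat_lit 201) (nat_lit 3) (nat_lit 13) (.e true (nat_lit 1) (nat_lit 202) (nat_lit 3) (nat_lit 13) (.e true (nat_lit 3) (nat_lit 149) (nat_lit 7) (nat_lit 9) (.u (nat_lit 2) (.p (nat_lit 0) (nat_lit 2) (.p (nat_lit 1) (nat_lit 1) (.p (nat_lit 2) (nat_lit 2) (.n (nat_lit 3) (nat_lit 3) (.n (nat_lit 4) (nat_lit 1) (.p (nat_lit 5) (nat_lit 2) (.n (nat_lit 6) (nat_lit 4) (.n (nat_lit 7) (nat_lit 3) (.p (nat_lit 8) (nat_lit 1) (.p (nat_lit 9) (nat_lit 3) (.p (nat_lit 11) (nat_lit 6) (.n (nat_lit 13) (nat_lit 1) (.p (nat_lit 14) (nat_lit 3) (.p (nat_lit 15) (nat_lit 1) (.p (nat_lit 16) (nat_lit 1) (.n (nat_lit 18) (nat_lit 3) (.n (nat_lit 19) (nat_lit 4) (.n (nat_lit 23) (nat_lit 1) (.n (nat_lit 24) (nat_lit 1) (.n (nat_lit 25) (nat_lit 1) (.p (nat_lit 30) (nat_lit 3) (.n (nat_lit 34) (nat_lit 5) (.n (nat_lit 38) (nat_lit 1) (.p (nat_lit 144) (nat_lit 3) (.n (nat_lit 151) (nat_lit 3) (.n (nat_lit 161) (nat_lit 3) (.n (nat_lit 164) (nat_lit 3) (.n (nat_lit 165) (nat_lit 3) (.p (nat_lit 166) (nat_lit 3) (.p (nat_lit 176) (nat_lit 1) (.n (nat_lit 200) (nat_lit 1) (.p (nat_lit 201) (nat_lit 1) .z)))))))))))))))))))))))))))))))) .nil))))))))))))))) .leaf) (nat_lit 182273) (nat_lit 607) (.n (nat_lit 253) (nat_lit 1) (.p (nat_lit 255) (nat_lit 2) (.n (nat_lit 258) (nat_lit 1) (.n (nat_lit 259) (nat_lit 1) (.p (nat_lit 260) (nat_lit 1) (.p (nat_lit 264) (nat_lit 1) (.n (nat_lit 267) (nat_lit 1) (.p (nat_lit 279) (nat_lit 1) (.n (nat_lit 286) (nat_lit 1) (.p (nat_lit 288) (nat_lit 1) .z)))))))))) (.ct dC2d_c292 (nat_lit 1) (nat_lit 12) (.s false (nat_lit 1) (nat_lit 12) (nat_lit 2) (nat_lit 1) (nat_lit 7) true (nat_lit 0) true (nat_lit 6) true (nat_lit 4) true (nat_lit 11) true (nat_lit 12) (.s false (nat_lit 1) (nat_lit 12) (nat_lit 2) (nat_lit 2) (nat_lit 6) true (nat_lit 1) true (nat_lit 7) true (nat_lit 4) true (nat_lit 11) true (nat_lit 11) (.s true (nat_lit 1) (nat_lit 34) (nat_lit 2) (nat_lit 1) (nat_lit 2) true (nat_lit 6) true (nat_lit 11) false (nat_lit 1) true (nat_lit 11) true (nat_lit 12) (.e true (nat_lit 1) (nat_lit 27) (nat_lit 20) (nat_lit 0) (.e true (nat_lit 1) (nat_lit 133) (nat_lit 2) (nat_lit 11) (.e false (nat_lit 2) (nat_lit 135) (nat_lit 2) (nat_lit 11) (.e true (nat_lit 1) (nat_lit 138) (nat_lit 2) (nat_lit 11) (.e true (nat_lit 1) (nat_lit 139) (nat_lit 2) (nat_lit 11) (.e false (nat_lit 1) (nat_lit 140) (nat_lit 2) (nat_lit 11) (.e false (nat_lit 1) (nat_lit 144) (nat_lit 2) (nat_lit 11) (.e true (nat_lit 1) (nat_lit 155) (nat_lit 2) (nat_lit 11) (.e false (nat_lit 1) (nat_lit 81) (nat_lit 6) (nat_lit 7) (.e true (nat_lit 1) (nat_lit 147) (nat_lit 2) (nat_lit 11) (.e false (nat_lit 1) (nat_lit 170) (nat_lit 1) (nat_lit 12) (.u (nat_lit 2) (.n (nat_lit 120) (nat_lit 1) .z) .nil)))))))))))))))) (.nd .leaf (nat_lit 182274) (nat_lit 755) (.p (nat_lit 314) (nat_lit 1) .z) .df .leaf)))) (nat_lit 182276) (nat_lit 1081) (.n (nat_lit 336) (nat_lit 1) (.n (nat_lit 337) (nat_lit 2) (.n (nat_lit 338) (nat_lit 2) (.p (nat_lit 339) (nat_lit 3) (.n (nat_lit 340) (nat_lit 2) (.n (nat_lit 341) (nat_lit 3) (.p (nat_lit 342) (nat_lit 1) (.n (nat_lit 343) (nat_lit 1) (.n (nat_lit 344) (nat_lit 3) (.p (nat_lit 345) (nat_lit 3) (.p (nat_lit 347) (nat_lit 1) (.n (nat_lit 349) (nat_lit 1) (.p (nat_lit 350) (nat_lit 1) (.p (nat_lit 351) (nat_lit 1) (.n (nat_lit 352) (nat_lit 2) (.p (nat_lit 353) (nat_lit 3) (.p (nat_lit 354) (nat_lit 3) (.p (nat_lit 355) (nat_lit 2) (.n (nat_lit 356) (nat_lit 3) (.p (nat_lit 357) (nat_lit 3) (.n (nat_lit 358) (nat_lit 3) (.n (nat_lit 359) (nat_lit 3) (.n (nat_lit 360) (nat_lit 3) (.n (nat_lit 361) (nat_lit 2) (.p (nat_lit 362) (nat_lit 1) (.p (nat_lit 363) (nat_lit 3) (.p (nat_lit 364) (nat_lit 3) (.p (nat_lit 367) (nat_lit 2) (.p (nat_lit 368) (nat_lit 1) (.p (nat_lit 369) (nat_lit 3) (.p (nat_lit 370) (nat_lit 2) (.p (nat_lit 371) (nat_lit 3) (.n (nat_lit 372) (nat_lit 2) (.n (nat_lit 373) (nat_lit 1) (.n (nat_lit 374) (nat_lit 2) (.n (nat_lit 376) (nat_lit 3) (.p (nat_lit 380) (nat_lit 1) (.p (nat_lit 381) (nat_lit 3) (.n (nat_lit 382) (nat_lit 1) (.n (nat_lit 383) (nat_lit 3) .z)))))))))))))))))))))))))))))))))))))))) (.ct dC2d_c308 (nat_lit 1) (nat_lit 14) (.s false (nat_lit 1) (nat_lit 12) (nat_lit 4) (nat_lit 2) (nat_lit 7) false (nat_lit 0) true (nat_lit 11) true (nat_lit 8) true (nat_lit 14) true (nat_lit 16) (.e true (nat_lit 2) (nat_lit 40) (nat_lit 34) (nat_lit 0) (.e false (nat_lit 2) (nat_lit 41) (nat_lit 34) (nat_lit 0) (.e false (nat_lit 1) (nat_lit 106) (nat_lit 7) (nat_lit 11) (.e true (nat_lit 1) (nat_lit 107) (nat_lit 7) (nat_lit 11) (.e true (nat_lit 1) (nat_lit 109) (nat_lit 7) (nat_lit 11) (.e true (nat_lit 1) (nat_lit 111) (nat_lit 7) (nat_lit 11) (.e false (nat_lit 1) (nat_lit 112) (nat_lit 7) (nat_lit 11) (.e false (nat_lit 1) (nat_lit 113) (nat_lit 7) (nat_lit 11) (.e false (nat_lit 1) (nat_lit 116) (nat_lit 7) (nat_lit 11) (.e false (nat_lit 1) (nat_lit 96) (nat_lit 12) (nat_lit 8) (.e false (nat_lit 1) (nat_lit 182) (nat_lit 4) (nat_lit 14) (.e true (nat_lit 3) (nat_lit 205) (nat_lit 2) (nat_lit 16) (.e false (nat_lit 2) (nat_lit 206) (nat_lit 2) (nat_lit 16) (.e true (nat_lit 3) (nat_lit 207) (nat_lit 2) (nat_lit 16) (.e false (nat_lit 3) (nat_lit 208) (nat_lit 2) (nat_lit 16) (.e false (nat_lit 3) (nat_lit 209) (nat_lit 2) (nat_lit 16) (.e false (nat_lit 2) (nat_lit 210) (nat_lit 2) (nat_lit 16) (.e true (nat_lit 2) (nat_lit 211) (nat_lit 2) (nat_lit 16) (.e true (nat_lit 1) (nat_lit 212) (nat_lit 2) (nat_lit 16) (.e true (nat_lit 2) (nat_lit 213) (nat_lit 2) (nat_lit 16) (.e true (nat_lit 1) (nat_lit 214) (nat_lit 2) (nat_lit 16) (.e true (nat_lit 2) (nat_lit 217) (nat_lit 2) (nat_lit 16) dC2d_i53)))))))))))))))))))))))) (.nd (.nd (.nd (.nd (.nd .leaf (nat_lit 182278) (nat_lit 1280) (.p (nat_lit 397) (nat_lit 1) (.n (nat_lit 398) (nat_lit 2) (.p (nat_lit 400) (nat_lit 2) (.n (nat_lit 401) (nat_lit 2) (.n (nat_lit 402) (nat_lit 2) (.n (nat_lit 403) (nat_lit 1) (.p (nat_lit 404) (nat_lit 1) (.p (nat_lit 405) (nat_lit 1) (.p (nat_lit 406) (nat_lit 1) (.n (nat_lit 407) (nat_lit 3) (.p (nat_lit 408) (nat_lit 3) (.p (nat_lit 409) (nat_lit 1) (.n (nat_lit 410) (nat_lit 1) (.p (nat_lit 411) (nat_lit 3) (.p (nat_lit 412) (nat_lit 3) (.p (nat_lit 413) (nat_lit 3) (.p (nat_lit 414) (nat_lit 3) (.n (nat_lit 415) (nat_lit 3) (.p (nat_lit 416) (nat_lit 1) (.n (nat_lit 418) (nat_lit 2) (.p (nat_lit 420) (nat_lit 3) (.n (nat_lit 421) (nat_lit 2) (.n (nat_lit 431) (nat_lit 2) (.n (nat_lit 432) (nat_lit 2) (.p (nat_lit 433) (nat_lit 2) (.n (nat_lit 435) (nat_lit 2) .z)))))))))))))))))))))))))) (.ct dC2d_c293 (nat_lit 1) (nat_lit 10) (.s false (nat_lit 1) (nat_lit 20) (nat_lit 2) (nat_lit 12) (nat_lit 1) true (nat_lit 10) true (nat_lit 15) true (nat_lit 3) true (nat_lit 14) true (nat_lit 7) (.e false (nat_lit 1) (nat_lit 182) (nat_lit 6) (nat_lit 10) (.e true (nat_lit 1) (nat_lit 314) (nat_lit 1) (nat_lit 15) (.e false (nat_lit 1) (nat_lit 322) (nat_lit 1) (nat_lit 15) (.e true (nat_lit 1) (nat_lit 67) (nat_lit 20) (nat_lit 3) (.e true (nat_lit 1) (nat_lit 275) (nat_lit 2) (nat_lit 14) (.e false (nat_lit 1) (nat_lit 286) (nat_lit 2) (nat_lit 14) (.e false (nat_lit 1) (nat_lit 103) (nat_lit 12) (nat_lit 7) (.u (nat_lit 2) (.p (nat_lit 4) (nat_lit 1) (.p (nat_lit 6) (nat_lit 1) (.n (nat_lit 8) (nat_lit 1) (.n (nat_lit 9) (nat_lit 1) (.n (nat_lit 11) (nat_lit 1) (.n (nat_lit 12) (nat_lit 1) (.n (nat_lit 13) (nat_lit 1) (.n (nat_lit 17) (nat_lit 1) (.n (nat_lit 19) (nat_lit 1) (.p (nat_lit 21) (nat_lit 1) (.n (nat_lit 23) (nat_lit 1) (.p (nat_lit 35) (nat_lit 1) .z)))))))))))) .nil)))))))))) .leaf) (nat_lit 183297) (nat_lit 622) (.p (nat_lit 252) (nat_lit 3) (.n (nat_lit 253) (nat_lit 2) (.p (nat_lit 254) (nat_lit 2) (.n (nat_lit 255) (nat_lit 1) (.n (nat_lit 256) (nat_lit 1) (.p (nat_lit 257) (nat_lit 1) (.n (nat_lit 258) (nat_lit 3) (.n (nat_lit 259) (nat_lit 2) (.p (nat_lit 260) (nat_lit 2) (.p (nat_lit 261) (nat_lit 2) (.p (nat_lit 262) (nat_lit 3) (.p (nat_lit 263) (nat_lit 1) (.n (nat_lit 264) (nat_lit 1) (.p (nat_lit 265) (nat_lit 1) (.n (nat_lit 266) (nat_lit 2) (.p (nat_lit 267) (nat_lit 1) (.n (nat_lit 269) (nat_lit 2) (.n (nat_lit 270) (nat_lit 1) (.p (nat_lit 272) (nat_lit 1) (.n (nat_lit 275) (nat_lit 2) (.p (nat_lit 277) (nat_lit 1) (.p (nat_lit 278) (nat_lit 1) (.p (nat_lit 279) (nat_lit 1) (.p (nat_lit 283) (nat_lit 1) (.n (nat_lit 285) (nat_lit 2) (.n (nat_lit 286) (nat_lit 1) (.p (nat_lit 287) (nat_lit 1) (.p (nat_lit 288) (nat_lit 1) .z)))))))))))))))))))))))))))) (.ct dC2d_c292 (nat_lit 1) (nat_lit 12) (.s false (nat_lit 2) (nat_lit 7) (nat_lit 0) (nat_lit 6) (nat_lit 6) true (nat_lit 4) true (nat_lit 7) true (nat_lit 6) true (nat_lit 13) true (nat_lit 7) (.s true (nat_lit 3) (nat_lit 7) (nat_lit 2) (nat_lit 6) (nat_lit 3) true (nat_lit 4) true (nat_lit 10) true (nat_lit 6) true (nat_lit 11) true (nat_lit 7) (.s false (nat_lit 1) (nat_lit 9) (nat_lit 7) (nat_lit 2) (nat_lit 2) true (nat_lit 0) true (nat_lit 11) true (nat_lit 5) true (nat_lit 6) true (nat_lit 11) (.s false (nat_lit 2) (nat_lit 13) (nat_lit 1) (nat_lit 2) (nat_lit 7) true (nat_lit 1) true (nat_lit 6) true (nat_lit 4) true (nat_lit 12) true (nat_lit 11) (.s true (nat_lit 2) (nat_lit 13) (nat_lit 2) (nat_lit 6) (nat_lit 2) true (nat_lit 6) true (nat_lit 11) true (nat_lit 4) true (nat_lit 11) true (nat_lit 7) (.s true (nat_lit 3) (nat_lit 12) (nat_lit 2) (nat_lit 7) (nat_lit 1) true (nat_lit 7) true (nat_lit 12) true (nat_lit 4) true (nat_lit 11) true (nat_lit 6) (.s true (nat_lit 2) (nat_lit 13) (nat_lit 6) (nat_lit 2) (nat_lit 2) true (nat_lit 1) true (nat_lit 11) true (nat_lit 4) true (nat_lit 7) true (nat_lit 11) (.s true (nat_lit 3) (nat_lit 12) (nat_lit 7) (nat_lit 2) (nat_lit 1) true (nat_lit 1) true (nat_lit 12) true (nat_lit 4) true (nat_lit 6) true (nat_lit 11) (.s false (nat_lit 3) (nat_lit 15) (nat_lit 0) (nat_lit 2) (nat_lit 7) true (nat_lit 2) true (nat_lit 6) true (nat_lit 3) true (nat_lit 13) true (nat_lit 11) (.s true (nat_lit 3) (nat_lit 15) (nat_lit 2) (nat_lit 0) (nat_lit 7) true (nat_lit 0) true (nat_lit 6) true (nat_lit 3) true (nat_lit 11) true (nat_lit 13) (.s true (nat_lit 3) (nat_lit 15) (nat_lit 2) (nat_lit 2) (nat_lit 5) true (nat_lit 2) true (nat_lit 8) true (nat_lit 3) true (nat_lit 11) true (nat_lit 11) (.s false (nat_lit 3) (nat_lit 14) (nat_lit 2) (nat_lit 5) (nat_lit 2) true (nat_lit 6) true (nat_lit 11) true (nat_lit 3) true (nat_lit 11) true (nat_lit 8) (.s false (nat_lit 3) (nat_lit 14) (nat_lit 2) (nat_lit 7) (nat_lit 0) true (nat_lit 8) true (nat_lit 13) true (nat_lit 3) true (nat_lit 11) true (nat_lit 6) (.s false (nat_lit 3) (nat_lit 14) (nat_lit 5) (nat_lit 2) (nat_lit 2) true (nat_lit 2) true (nat_lit 11) true (nat_lit 3) true (nat_lit 8) true (nat_lit 11) (.s false (nat_lit 3) (nat_lit 17) (nat_lit 1) (nat_lit 2) (nat_lit 6) true (nat_lit 3) true (nat_lit 7) true (nat_lit 2) true (nat_lit 12) true (nat_lit 11) dC2d_i56)))))))))))))))) .leaf) (nat_lit 183298) (nat_lit 756) (.p (nat_lit 315) (nat_lit 1) .z) .df (.nd (.nd .leaf (nat_lit 183300) (nat_lit 1102) (.n (nat_lit 335) (nat_lit 2) (.n (nat_lit 336) (nat_lit 3) (.p (nat_lit 337) (nat_lit 1) (.p (nat_lit 338) (nat_lit 3) (.n (nat_lit 339) (nat_lit 1) (.p (nat_lit 341) (nat_lit 3) (.n (nat_lit 342) (nat_lit 1) (.p (nat_lit 343) (nat_lit 1) (.p (nat_lit 344) (nat_lit 3) (.p (nat_lit 345) (nat_lit 2) (.p (nat_lit 346) (nat_lit 1) (.n (nat_lit 347) (nat_lit 3) (.p (nat_lit 350) (nat_lit 2) (.p (nat_lit 351) (nat_lit 3) (.n (nat_lit 352) (nat_lit 1) (.p (nat_lit 353) (nat_lit 2) (.n (nat_lit 354) (nat_lit 2) (.n (nat_lit 355) (nat_lit 2) (.p (nat_lit 356) (nat_lit 2) (.n (nat_lit 357) (nat_lit 2) (.n (nat_lit 360) (nat_lit 2) (.n (nat_lit 361) (nat_lit 2) (.p (nat_lit 362) (nat_lit 3) (.n (nat_lit 363) (nat_lit 3) (.p (nat_lit 366) (nat_lit 1) (.p (nat_lit 368) (nat_lit 2) (.p (nat_lit 369) (nat_lit 2) (.n (nat_lit 370) (nat_lit 3) (.n (nat_lit 372) (nat_lit 3) (.n (nat_lit 373) (nat_lit 2) (.p (nat_lit 374) (nat_lit 3) (.n (nat_lit 375) (nat_lit 3) (.n (nat_lit 376) (nat_lit 3) (.p (nat_lit 380) (nat_lit 1) (.p (nat_lit 381) (nat_lit 3) (.n (nat_lit 382) (nat_lit 1) (.n (nat_lit 383) (nat_lit 3) .z))))))))))))))))))))))))))))))))))))) (.ct dC2d_c308 (nat_lit 1) (nat_lit 14) (.s false (nat_lit 1) (nat_lit 15) (nat_lit 2) (nat_lit 2) (nat_lit 13) true (nat_lit 0) true (nat_lit 8) true (nat_lit 7) true (nat_lit 16) true (nat_lit 16) (.s true (nat_lit 1) (nat_lit 15) (nat_lit 2) (nat_lit 13) (nat_lit 2) true (nat_lit 11) true (nat_lit 16) true (nat_lit 7) true (nat_lit 16) true (nat_lit 8) (.s false (nat_lit 1) (nat_lit 35) (nat_lit 1) (nat_lit 2) (nat_lit 6) true (nat_lit 7) true (nat_lit 12) true (nat_lit 0) true (nat_lit 17) true (nat_lit 16) (.s true (nat_lit 1) (nat_lit 90) (nat_lit 1) (nat_lit 2) (nat_lit 1) true (nat_lit 14) true (nat_lit 17) false (nat_lit 7) true (nat_lit 17) true (nat_lit 16) (.e true (nat_lit 1) (nat_lit 40) (nat_lit 35) (nat_lit 0) (.e true (nat_lit 3) (nat_lit 205) (nat_lit 2) (nat_lit 16) (.e false (nat_lit 1) (nat_lit 206) (nat_lit 2) (nat_lit 16) (.e true (nat_lit 1) (nat_lit 207) (nat_lit 2) (nat_lit 16) (.e false (nat_lit 1) (nat_lit 209) (nat_lit 2) (nat_lit 16) (.e true (nat_lit 1) (nat_lit 210) (nat_lit 2) (nat_lit 16) (.e true (nat_lit 2) (nat_lit 211) (nat_lit 2) (nat_lit 16) dC2d_i59)))))))))))) .leaf) (nat_lit 184321) (nat_lit 591) (.p (nat_lit 282) (nat_lit 1) .z) .df .leaf)) (nat_lit 184322) (nat_lit 757) (.p (nat_lit 316) (nat_lit 1) .z) .df (.nd (.nd (.nd .leaf (nat_lit 184326) (nat_lit 1340) (.n (nat_lit 399) (nat_lit 1) (.n (nat_lit 400) (nat_lit 1) (.n (nat_lit 401) (nat_lit 2) (.n (nat_lit 403) (nat_lit 1) (.p (nat_lit 404) (nat_lit 2) (.n (nat_lit 405) (nat_lit 3) (.p (nat_lit 406) (nat_lit 3) (.n (nat_lit 407) (nat_lit 2) (.p (nat_lit 408) (nat_lit 2) (.n (nat_lit 409) (nat_lit 1) (.n (nat_lit 410) (nat_lit 2) (.n (nat_lit 411) (nat_lit 3) (.n (nat_lit 412) (nat_lit 2) (.n (nat_lit 413) (nat_lit 2) (.p (nat_lit 414) (nat_lit 2) (.p (nat_lit 415) (nat_lit 3) (.p (nat_lit 416) (nat_lit 2) (.p (nat_lit 417) (nat_lit 1) (.p (nat_lit 418) (nat_lit 3) (.p (nat_lit 419) (nat_lit 1) (.p (nat_lit 420) (nat_lit 1) (.p (nat_lit 421) (nat_lit 2) (.n (nat_lit 423) (nat_lit 1) (.p (nat_lit 430) (nat_lit 2) (.n (nat_lit 432) (nat_lit 3) (.p (nat_lit 435) (nat_lit 2) .z)))))))))))))))))))))))))) (.ct dC2d_c293 (nat_lit 1) (nat_lit 10) (.s true (nat_lit 1) (nat_lit 97) (nat_lit 1) (nat_lit 1) (nat_lit 2) true (nat_lit 10) true (nat_lit 14) false (nat_lit 6) true (nat_lit 15) true (nat_lit 15) (.e true (nat_lit 1) (nat_lit 282) (nat_lit 2) (nat_lit 14) (.e false (nat_lit 1) (nat_lit 97) (nat_lit 14) (nat_lit 6) (.e true (nat_lit 3) (nat_lit 305) (nat_lit 1) (nat_lit 15) (.e false (nat_lit 3) (nat_lit 307) (nat_lit 1) (nat_lit 15) (.e false (nat_lit 2) (nat_lit 308) (nat_lit 1) (nat_lit 15) (.e false (nat_lit 3) (nat_lit 309) (nat_lit 1) (nat_lit 15) (.e false (nat_lit 1) (nat_lit 311) (nat_lit 1) (nat_lit 15) (.e false (nat_lit 1) (nat_lit 312) (nat_lit 1) (nat_lit 15) (.e true (nat_lit 1) (nat_lit 313) (nat_lit 1) (nat_lit 15) (.e false (nat_lit 1) (nat_lit 314) (nat_lit 1) (nat_lit 15) (.e true (nat_lit 3) (nat_lit 315) (nat_lit 1) (nat_lit 15) (.e false (nat_lit 1) (nat_lit 316) (nat_lit 1) (nat_lit 15) (.e true (nat_lit 1) (nat_lit 317) (nat_lit 1) (nat_lit 15) (.e false (nat_lit 1) (nat_lit 320) (nat_lit 1) (nat_lit 15) (.e false (nat_lit 1) (nat_lit 321) (nat_lit 1) (nat_lit 15) (.e false (nat_lit 1) (nat_lit 322) (nat_lit 1) (nat_lit 15) (.u (nat_lit 2) (.n (nat_lit 1) (nat_lit 1) (.n (nat_lit 2) (nat_lit 1) (.p (nat_lit 3) (nat_lit 1) (.p (nat_lit 5) (nat_lit 1) (.p (nat_lit 8) (nat_lit 2) (.n (nat_lit 9) (nat_lit 1) (.p (nat_lit 14) (nat_lit 1) (.n (nat_lit 17) (nat_lit 2) (.n (nat_lit 18) (nat_lit 1) (.n (nat_lit 19) (nat_lit 1) (.n (nat_lit 21) (nat_lit 1) (.n (nat_lit 33) (nat_lit 1) (.p (nat_lit 35) (nat_lit 1) (.n (nat_lit 38) (nat_lit 1) .z)))))))))))))) .nil))))))))))))))))))) .leaf) (nat_lit 185345) (nat_lit 608) (.p (nat_lit 254) (nat_lit 3) (.p (nat_lit 258) (nat_lit 2) (.p (nat_lit 264) (nat_lit 1) (.n (nat_lit 265) (nat_lit 2) (.p (nat_lit 266) (nat_lit 1) (.n (nat_lit 269) (nat_lit 1) (.n (nat_lit 272) (nat_lit 1) (.n (nat_lit 274) (nat_lit 3) (.p (nat_lit 278) (nat_lit 1) (.n (nat_lit 285) (nat_lit 1) (.p (nat_lit 287) (nat_lit 1) .z))))))))))) (.ct dC2d_c292 (nat_lit 1) (nat_lit 12) (.s false (nat_lit 3) (nat_lit 7) (nat_lit 1) (nat_lit 7) (nat_lit 3) true (nat_lit 5) true (nat_lit 10) true (nat_lit 6) true (nat_lit 12) true (nat_lit 6) (.s true (nat_lit 1) (nat_lit 19) (nat_lit 2) (nat_lit 3) (nat_lit 2) true (nat_lit 6) true (nat_lit 11) true (nat_lit 1) true (nat_lit 11) true (nat_lit 10) (.s true (nat_lit 1) (nat_lit 20) (nat_lit 1) (nat_lit 2) (nat_lit 3) true (nat_lit 5) true (nat_lit 10) true (nat_lit 0) true (nat_lit 12) true (nat_lit 11) (.s true (nat_lit 1) (nat_lit 29) (nat_lit 2) (nat_lit 2) (nat_lit 2) true (nat_lit 6) true (nat_lit 11) false (nat_lit 0) true (nat_lit 11) true (nat_lit 11) (.e false (nat_lit 1) (nat_lit 60) (nat_lit 7) (nat_lit 6) (.e false (nat_lit 1) (nat_lit 61) (nat_lit 7) (nat_lit 6) (.e true (nat_lit 1) (nat_lit 63) (nat_lit 7) (nat_lit 6) (.e false (nat_lit 3) (nat_lit 72) (nat_lit 7) (nat_lit 6) (.e false (nat_lit 1) (nat_lit 33) (nat_lit 19) (nat_lit 1) (.e false (nat_lit 2) (nat_lit 134) (nat_lit 2) (nat_lit 11) (.e true (nat_lit 2) (nat_lit 138) (nat_lit 2) (nat_lit 11) (.e true (nat_lit 3) (nat_lit 145) (nat_lit 2) (nat_lit 11) (.e true (nat_lit 3) (nat_lit 154) (nat_lit 2) (nat_lit 11) (.e true (nat_lit 1) (nat_lit 48) (nat_lit 8) (nat_lit 5) (.e true (nat_lit 1) (nat_lit 25) (nat_lit 20) (nat_lit 0) (.e true (nat_lit 1) (nat_lit 26) (nat_lit 20) (nat_lit 0) (.e false (nat_lit 1) (nat_lit 27) (nat_lit 20) (nat_lit 0) (.e true (nat_lit 1) (nat_lit 153) (nat_lit 2) (nat_lit 11) (.e false (nat_lit 1) (nat_lit 155) (nat_lit 2) (nat_lit 11) (.u (nat_lit 2) (.n (nat_lit 6) (nat_lit 1) (.p (nat_lit 20) (nat_lit 1) (.p (nat_lit 80) (nat_lit 1) (.n (nat_lit 84) (nat_lit 1) (.n (nat_lit 91) (nat_lit 1) (.p (nat_lit 114) (nat_lit 1) (.n (nat_lit 115) (nat_lit 1) (.p (nat_lit 130) (nat_lit 1) (.p (nat_lit 132) (nat_lit 1) (.p (nat_lit 151) (nat_lit 1) .z)))))))))) .nil))))))))))))))))))))) .leaf) (nat_lit 185346) (nat_lit 772) (.p (nat_lit 313) (nat_lit 1) .z) (.ct dC2d_c277 (nat_lit 1) (nat_lit 8) (.s false (nat_lit 2) (nat_lit 11) (nat_lit 2) (nat_lit 2) (nat_lit 7) true (nat_lit 0) true (nat_lit 4) true (nat_lit 3) true (nat_lit 8) true (nat_lit 8) (.s true (nat_lit 2) (nat_lit 11) (nat_lit 2) (nat_lit 7) (nat_lit 2) true (nat_lit 4) true (nat_lit 8) true (nat_lit 3) true (nat_lit 8) true (nat_lit 4) (.s true (nat_lit 2) (nat_lit 11) (nat_lit 7) (nat_lit 2) (nat_lit 2) true (nat_lit 0) true (nat_lit 8) true (nat_lit 3) true (nat_lit 4) true (nat_lit 8) (.e true (nat_lit 3) (nat_lit 88) (nat_lit 7) (nat_lit 4) (.u (nat_lit 2) (.n (nat_lit 8) (nat_lit 1) (.p (nat_lit 48) (nat_lit 1) (.n (nat_lit 72) (nat_lit 1) .z))) .nil)))))) (.nd .leaf (nat_lit 185348) (nat_lit 1048) (.p (nat_lit 338) (nat_lit 2) (.n (nat_lit 339) (nat_lit 3) (.p (nat_lit 340) (nat_lit 1) (.n (nat_lit 341) (nat_lit 2) (.p (nat_lit 342) (nat_lit 2) (.n (nat_lit 343) (nat_lit 1) (.n (nat_lit 345) (nat_lit 2) (.p (nat_lit 346) (nat_lit 3) (.n (nat_lit 349) (nat_lit 3) (.p (nat_lit 350) (nat_lit 3) (.n (nat_lit 351) (nat_lit 1) (.n (nat_lit 352) (nat_lit 1) (.n (nat_lit 353) (nat_lit 3) (.p (nat_lit 354) (nat_lit 2) (.p (nat_lit 356) (nat_lit 3) (.n (nat_lit 357) (nat_lit 3) (.p (nat_lit 358) (nat_lit 1) (.n (nat_lit 361) (nat_lit 2) (.p (nat_lit 362) (nat_lit 2) (.p (nat_lit 363) (nat_lit 3) (.p (nat_lit 364) (nat_lit 2) (.p (nat_lit 366) (nat_lit 2) (.n (nat_lit 367) (nat_lit 1) (.p (nat_lit 368) (nat_lit 1) (.p (nat_lit 370) (nat_lit 1) (.p (nat_lit 371) (nat_lit 1) (.p (nat_lit 372) (nat_lit 1) (.n (nat_lit 373) (nat_lit 1) (.n (nat_lit 375) (nat_lit 3) (.n (nat_lit 380) (nat_lit 3) (.n (nat_lit 381) (nat_lit 2) (.p (nat_lit 382) (nat_lit 3) (.p (nat_lit 383) (nat_lit 2) .z))))))))))))))))))))))))))))))))) (.ct dC2d_c308 (nat_lit 1) (nat_lit 14) (.s false (nat_lit 1) (nat_lit 33) (nat_lit 1) (nat_lit 7) (nat_lit 1) true (nat_lit 14) true (nat_lit 17) true (nat_lit 0) true (nat_lit 17) true (nat_lit 11) (.e true (nat_lit 3) (nat_lit 254) (nat_lit 1) (nat_lit 17) (.e true (nat_lit 2) (nat_lit 258) (nat_lit 1) (nat_lit 17) (.e true (nat_lit 1) (nat_lit 264) (nat_lit 1) (nat_lit 17) (.e false (nat_lit 2) (nat_lit 265) (nat_lit 1) (nat_lit 17) (.e true (nat_lit 3) (nat_lit 266) (nat_lit 1) (nat_lit 17) (.e false (nat_lit 1) (nat_lit 269) (nat_lit 1) (nat_lit 17) (.e false (nat_lit 1) (nat_lit 272) (nat_lit 1) (nat_lit 17) (.e false (nat_lit 3) (nat_lit 274) (nat_lit 1) (nat_lit 17) (.e false (nat_lit 1) (nat_lit 285) (nat_lit 1) (nat_lit 17) (.e false (nat_lit 1) (nat_lit 39) (nat_lit 33) (nat_lit 0) (.e true (nat_lit 1) (nat_lit 40) (nat_lit 33) (nat_lit 0) (.e true (nat_lit 1) (nat_lit 41) (nat_lit 33) (nat_lit 0) (.e false (nat_lit 1) (nat_lit 278) (nat_lit 1) (nat_lit 17) (.e false (nat_lit 1) (nat_lit 287) (nat_lit 1) (nat_lit 17) (.e false (nat_lit 1) (nat_lit 123) (nat_lit 7) (nat_lit 11) (.u (nat_lit 2) (.p (nat_lit 0) (nat_lit 1) (.p (nat_lit 4) (nat_lit 1) (.p (nat_lit 8) (nat_lit 1) (.n (nat_lit 10) (nat_lit 1) (.n (nat_lit 18) (nat_lit 1) (.n (nat_lit 20) (nat_lit 1) (.n (nat_lit 21) (nat_lit 1) (.p (nat_lit 22) (nat_lit 1) (.p (nat_lit 24) (nat_lit 1) (.p (nat_lit 25) (nat_lit 1) (.n (nat_lit 27) (nat_lit 1) (.p (nat_lit 28) (nat_lit 1) (.n (nat_lit 32) (nat_lit 1) (.n (nat_lit 34) (nat_lit 1) (.n (nat_lit 36) (nat_lit 2) (.n (nat_lit 39) (nat_lit 1) (.p (nat_lit 40) (nat_lit 1) (.n (nat_lit 47) (nat_lit 1) (.p (nat_lit 351) (nat_lit 1) (.p (nat_lit 363) (nat_lit 1) (.n (nat_lit 371) (nat_lit 1) .z))))))))))))))))))))) .nil)))))))))))))))))) .leaf))) (nat_lit 185350) (nat_lit 1359) (.n (nat_lit 397) (nat_lit 3) (.n (nat_lit 398) (nat_lit 2) (.p (nat_lit 399) (nat_lit 3) (.n (nat_lit 400) (nat_lit 1) (.p (nat_lit 401) (nat_lit 3) (.p (nat_lit 402) (nat_lit 2) (.n (nat_lit 403) (nat_lit 1) (.p (nat_lit 404) (nat_lit 3) (.n (nat_lit 405) (nat_lit 2) (.n (nat_lit 406) (nat_lit 3) (.n (nat_lit 407) (nat_lit 3) (.n (nat_lit 408) (nat_lit 2) (.p (nat_lit 409) (nat_lit 2) (.n (nat_lit 410) (nat_lit 2) (.n (nat_lit 412) (nat_lit 2) (.p (nat_lit 413) (nat_lit 2) (.n (nat_lit 414) (nat_lit 3) (.n (nat_lit 415) (nat_lit 3) (.n (nat_lit 416) (nat_lit 3) (.p (nat_lit 417) (nat_lit 2) (.n (nat_lit 418) (nat_lit 2) (.p (nat_lit 419) (nat_lit 2) (.p (nat_lit 420) (nat_lit 3) (.p (nat_lit 421) (nat_lit 2) (.n (nat_lit 422) (nat_lit 2) (.n (nat_lit 424) (nat_lit 3) (.n (nat_lit 427) (nat_lit 3) (.p (nat_lit 431) (nat_lit 2) (.p (nat_lit 435) (nat_lit 2) .z))))))))))))))))))))))))))))) (.ct dC2d_c293 (nat_lit 1) (nat_lit 10) (.s true (nat_lit 1) (nat_lit 20) (nat_lit 2) (nat_lit 11) (nat_lit 1) true (nat_lit 10) true (nat_lit 15) true (nat_lit 3) true (nat_lit 14) true (nat_lit 7) (.e false (nat_lit 1) (nat_lit 177) (nat_lit 6) (nat_lit 10) (.e false (nat_lit 3) (nat_lit 305) (nat_lit 1) (nat_lit 15) (.e false (nat_lit 2) (nat_lit 306) (nat_lit 1) (nat_lit 15) (.e true (nat_lit 2) (nat_lit 307) (nat_lit 1) (nat_lit 15) (.e false (nat_lit 1) (nat_lit 308) (nat_lit 1) (nat_lit 15) (.e true (nat_lit 2) (nat_lit 309) (nat_lit 1) (nat_lit 15) (.e false (nat_lit 3) (nat_lit 310) (nat_lit 1) (nat_lit 15) (.e false (nat_lit 1) (nat_lit 311) (nat_lit 1) (nat_lit 15) (.e false (nat_lit 1) (nat_lit 312) (nat_lit 1) (nat_lit 15) (.e false (nat_lit 1) (nat_lit 313) (nat_lit 1) (nat_lit 15) (.e true (nat_lit 2) (nat_lit 314) (nat_lit 1) (nat_lit 15) (.e true (nat_lit 1) (nat_lit 317) (nat_lit 1) (nat_lit 15) (.e false (nat_lit 1) (nat_lit 321) (nat_lit 1) (nat_lit 15) (.e true (nat_lit 1) (nat_lit 322) (nat_lit 1) (nat_lit 15) (.e false (nat_lit 1) (nat_lit 66) (nat_lit 20) (nat_lit 3) (.e false (nat_lit 1) (nat_lit 274) (nat_lit 2) (nat_lit 14) (.e true (nat_lit 1) (nat_lit 285) (nat_lit 2) (nat_lit 14) (.e true (nat_lit 1) (nat_lit 103) (nat_lit 11) (nat_lit 7) (.u (nat_lit 2) (.p (nat_lit 0) (nat_lit 1) (.n (nat_lit 2) (nat_lit 1) (.n (nat_lit 4) (nat_lit 1) (.n (nat_lit 6) (nat_lit 1) (.n (nat_lit 7) (nat_lit 1) (.p (nat_lit 10) (nat_lit 1) (.n (nat_lit 13) (nat_lit 1) (.p (nat_lit 15) (nat_lit 1) (.p (nat_lit 16) (nat_lit 1) (.p (nat_lit 17) (nat_lit 1) (.n (nat_lit 23) (nat_lit 1) .z))))))))))) .nil))))))))))))))))))))) (.nd (.nd (.nd (.nd .leaf (nat_lit 186369) (nat_lit 631) (.n (nat_lit 252) (nat_lit 1) (.n (nat_lit 254) (nat_lit 3) (.p (nat_lit 255) (nat_lit 1) (.n (nat_lit 256) (nat_lit 3) (.n (nat_lit 258) (nat_lit 3) (.n (nat_lit 259) (nat_lit 3) (.p (nat_lit 260) (nat_lit 3) (.n (nat_lit 261) (nat_lit 3) (.n (nat_lit 263) (nat_lit 3) (.n (nat_lit 264) (nat_lit 3) (.p (nat_lit 265) (nat_lit 3) (.p (nat_lit 267) (nat_lit 1) (.n (nat_lit 270) (nat_lit 1) (.p (nat_lit 272) (nat_lit 2) (.n (nat_lit 274) (nat_lit 2) (.p (nat_lit 275) (nat_lit 2) (.p (nat_lit 279) (nat_lit 1) (.n (nat_lit 286) (nat_lit 1) (.p (nat_lit 288) (nat_lit 1) .z))))))))))))))))))) (.ct dC2d_c292 (nat_lit 1) (nat_lit 12) (.s true (nat_lit 2) (nat_lit 7) (nat_lit 0) (nat_lit 7) (nat_lit 4) true (nat_lit 5) true (nat_lit 9) true (nat_lit 6) true (nat_lit 13) true (nat_lit 6) (.s false (nat_lit 3) (nat_lit 9) (nat_lit 2) (nat_lit 7) (nat_lit 2) true (nat_lit 6) true (nat_lit 11) true (nat_lit 5) true (nat_lit 11) true (nat_lit 6) (.s true (nat_lit 1) (nat_lit 9) (nat_lit 7) (nat_lit 2) (nat_lit 2) true (nat_lit 0) true (nat_lit 11) true (nat_lit 5) true (nat_lit 6) true (nat_lit 11) (.s false (nat_lit 3) (nat_lit 13) (nat_lit 1) (nat_lit 2) (nat_lit 7) true (nat_lit 1) true (nat_lit 6) true (nat_lit 4) true (nat_lit 12) true (nat_lit 11) (.s true (nat_lit 3) (nat_lit 13) (nat_lit 2) (nat_lit 1) (nat_lit 7) true (nat_lit 0) true (nat_lit 6) true (nat_lit 4) true (nat_lit 11) true (nat_lit 12) (.s true (nat_lit 3) (nat_lit 14) (nat_lit 0) (nat_lit 2) (nat_lit 7) true (nat_lit 2) true (nat_lit 6) true (nat_lit 3) true (nat_lit 13) true (nat_lit 11) (.s false (nat_lit 3) (nat_lit 14) (nat_lit 2) (nat_lit 2) (nat_lit 5) true (nat_lit 2) true (nat_lit 8) true (nat_lit 3) true (nat_lit 11) true (nat_lit 11) (.s false (nat_lit 3) (nat_lit 14) (nat_lit 2) (nat_lit 7) (nat_lit 0) true (nat_lit 8) true (nat_lit 13) true (nat_lit 3) true (nat_lit 11) true (nat_lit 6) (.s true (nat_lit 3) (nat_lit 14) (nat_lit 5) (nat_lit 2) (nat_lit 2) true (nat_lit 2) true (nat_lit 11) true (nat_lit 3) true (nat_lit 8) true (nat_lit 11) (.s false (nat_lit 3) (nat_lit 16) (nat_lit 4) (nat_lit 2) (nat_lit 2) true (nat_lit 3) true (nat_lit 11) true (nat_lit 2) true (nat_lit 9) true (nat_lit 11) dC2d_i61))))))))))) .leaf) (nat_lit 186370) (nat_lit 758) (.p (nat_lit 317) (nat_lit 1) .z) .df .leaf) (nat_lit 186372) (nat_lit 1004) (.p (nat_lit 335) (nat_lit 2) (.n (nat_lit 336) (nat_lit 1) (.n (nat_lit 337) (nat_lit 2) (.p (nat_lit 338) (nat_lit 1) (.p (nat_lit 339) (nat_lit 2) (.p (nat_lit 340) (nat_lit 1) (.p (nat_lit 342) (nat_lit 2) (.p (nat_lit 343) (nat_lit 3) (.n (nat_lit 344) (nat_lit 2) (.n (nat_lit 345) (nat_lit 2) (.n (nat_lit 346) (nat_lit 3) (.p (nat_lit 347) (nat_lit 1) (.p (nat_lit 349) (nat_lit 2) (.p (nat_lit 350) (nat_lit 2) (.n (nat_lit 351) (nat_lit 2) (.p (nat_lit 352) (nat_lit 2) (.n (nat_lit 353) (nat_lit 3) (.n (nat_lit 354) (nat_lit 1) (.n (nat_lit 355) (nat_lit 3) (.n (nat_lit 356) (nat_lit 3) (.p (nat_lit 357) (nat_lit 3) (.n (nat_lit 358) (nat_lit 1) (.p (nat_lit 359) (nat_lit 2) (.p (nat_lit 360) (nat_lit 2) (.p (nat_lit 361) (nat_lit 2) (.n (nat_lit 362) (nat_lit 2) (.p (nat_lit 366) (nat_lit 2) (.p (nat_lit 368) (nat_lit 1) (.n (nat_lit 369) (nat_lit 3) (.p (nat_lit 370) (nat_lit 1) (.n (nat_lit 371) (nat_lit 2) (.p (nat_lit 372) (nat_lit 1) (.n (nat_lit 373) (nat_lit 1) (.p (nat_lit 374) (nat_lit 2) (.n (nat_lit 376) (nat_lit 3) (.p (nat_lit 380) (nat_lit 1) (.p (nat_lit 381) (nat_lit 3) (.n (nat_lit 382) (nat_lit 1) (.n (nat_lit 383) (nat_lit 3) .z))))))))))))))))))))))))))))))))))))))) (.ct dC2d_c308 (nat_lit 1) (nat_lit 14) (.s false (nat_lit 1) (nat_lit 14) (nat_lit 2) (nat_lit 2) (nat_lit 12) true (nat_lit 0) true (nat_lit 8) true (nat_lit 7) true (nat_lit 16) true (nat_lit 16) (.s true (nat_lit 1) (nat_lit 15) (nat_lit 2) (nat_lit 2) (nat_lit 12) true (nat_lit 0) true (nat_lit 8) true (nat_lit 7) true (nat_lit 16) true (nat_lit 16) (.s false (nat_lit 1) (nat_lit 19) (nat_lit 1) (nat_lit 2) (nat_lit 12) true (nat_lit 2) true (nat_lit 8) true (nat_lit 5) true (nat_lit 17) true (nat_lit 16) (.s true (nat_lit 1) (nat_lit 18) (nat_lit 2) (nat_lit 12) (nat_lit 1) true (nat_lit 12) true (nat_lit 17) true (nat_lit 5) true (nat_lit 16) true (nat_lit 8) (.s false (nat_lit 1) (nat_lit 34) (nat_lit 1) (nat_lit 7) (nat_lit 1) true (nat_lit 14) true (nat_lit 17) true (nat_lit 0) true (nat_lit 17) true (nat_lit 11) (.s false (nat_lit 1) (nat_lit 61) (nat_lit 2) (nat_lit 2) (nat_lit 1) true (nat_lit 12) true (nat_lit 17) false (nat_lit 5) true (nat_lit 16) true (nat_lit 16) (.s true (nat_lit 1) (nat_lit 68) (nat_lit 2) (nat_lit 2) (nat_lit 1) true (nat_lit 12) true (nat_lit 17) false (nat_lit 5) true (nat_lit 16) true (nat_lit 16) (.s true (nat_lit 1) (nat_lit 89) (nat_lit 1) (nat_lit 1) (nat_lit 2) true (nat_lit 12) true (nat_lit 16) false (nat_lit 7) true (nat_lit 17) true (nat_lit 17) (.s false (nat_lit 1) (nat_lit 89) (nat_lit 2) (nat_lit 1) (nat_lit 1) true (nat_lit 12) true (nat_lit 17) false (nat_lit 7) true (nat_lit 16) true (nat_lit 17) (.e false (nat_lit 3) (nat_lit 206) (nat_lit 2) (nat_lit 16) (.e true (nat_lit 2) (nat_lit 208) (nat_lit 2) (nat_lit 16) (.e true (nat_lit 1) (nat_lit 209) (nat_lit 2) (nat_lit 16) (.e false (nat_lit 3) (nat_lit 210) (nat_lit 2) (nat_lit 16) (.e true (nat_lit 2) (nat_lit 211) (nat_lit 2) (nat_lit 16) (.e true (nat_lit 1) (nat_lit 212) (nat_lit 2) (nat_lit 16) (.e false (nat_lit 3) (nat_lit 213) (nat_lit 2) (nat_lit 16) (.e true (nat_lit 2) (nat_lit 214) (nat_lit 2) (nat_lit 16) (.e false (nat_lit 3) (nat_lit 217) (nat_lit 2) (nat_lit 16) (.e false (nat_lit 2) (nat_lit 218) (nat_lit 2) (nat_lit 16) dC2d_i63)))))))))))))))))))) (.nd (.nd .leaf (nat_lit 186374) (nat_lit 1263) (.n (nat_lit 398) (nat_lit 1) (.p (nat_lit 399) (nat_lit 2) (.p (nat_lit 401) (nat_lit 2) (.n (nat_lit 402) (nat_lit 3) (.p (nat_lit 403) (nat_lit 3) (.n (nat_lit 404) (nat_lit 3) (.n (nat_lit 405) (nat_lit 3) (.n (nat_lit 407) (nat_lit 2) (.p (nat_lit 408) (nat_lit 1) (.n (nat_lit 409) (nat_lit 3) (.p (nat_lit 410) (nat_lit 1) (.n (nat_lit 412) (nat_lit 1) (.n (nat_lit 413) (nat_lit 1) (.p (nat_lit 415) (nat_lit 2) (.n (nat_lit 416) (nat_lit 3) (.p (nat_lit 418) (nat_lit 3) (.n (nat_lit 420) (nat_lit 3) (.n (nat_lit 421) (nat_lit 1) (.n (nat_lit 431) (nat_lit 2) (.p (nat_lit 433) (nat_lit 2) (.n (nat_lit 435) (nat_lit 3) .z))))))))))))))))))))) (.ct dC2d_c293 (nat_lit 1) (nat_lit 10) (.s false (nat_lit 1) (nat_lit 34) (nat_lit 1) (nat_lit 7) (nat_lit 2) true (nat_lit 10) true (nat_lit 14) true (nat_lit 1) true (nat_lit 15) true (nat_lit 9) (.s false (nat_lit 1) (nat_lit 34) (nat_lit 2) (nat_lit 2) (nat_lit 6) true (nat_lit 4) true (nat_lit 10) true (nat_lit 1) true (nat_lit 14) true (nat_lit 14) (.s true (nat_lit 1) (nat_lit 81) (nat_lit 1) (nat_lit 2) (nat_lit 2) true (nat_lit 10) true (nat_lit 14) false (nat_lit 4) true (nat_lit 15) true (nat_lit 14) (.e true (nat_lit 2) (nat_lit 267) (nat_lit 2) (nat_lit 14) (.e true (nat_lit 1) (nat_lit 317) (nat_lit 1) (nat_lit 15) (.e false (nat_lit 2) (nat_lit 322) (nat_lit 1) (nat_lit 15) (.e false (nat_lit 1) (nat_lit 147) (nat_lit 7) (nat_lit 9) (.e true (nat_lit 1) (nat_lit 47) (nat_lit 34) (nat_lit 1) (.e false (nat_lit 2) (nat_lit 279) (nat_lit 2) (nat_lit 14) (.u (nat_lit 2) (.n (nat_lit 2) (nat_lit 1) (.p (nat_lit 3) (nat_lit 1) (.n (nat_lit 4) (nat_lit 1) (.p (nat_lit 5) (nat_lit 2) (.p (nat_lit 7) (nat_lit 1) (.p (nat_lit 8) (nat_lit 1) (.p (nat_lit 10) (nat_lit 1) (.p (nat_lit 15) (nat_lit 1) (.p (nat_lit 16) (nat_lit 1) (.n (nat_lit 17) (nat_lit 1) (.n (nat_lit 18) (nat_lit 1) (.p (nat_lit 19) (nat_lit 1) (.n (nat_lit 21) (nat_lit 1) (.p (nat_lit 24) (nat_lit 1) (.p (nat_lit 34) (nat_lit 1) (.n (nat_lit 210) (nat_lit 1) (.p (nat_lit 212) (nat_lit 1) (.p (nat_lit 219) (nat_lit 1) .z)))))))))))))))))) .nil))))))))))) .leaf) (nat_lit 187393) (nat_lit 644) (.n (nat_lit 253) (nat_lit 1) (.n (nat_lit 254) (nat_lit 2) (.p (nat_lit 255) (nat_lit 3) (.n (nat_lit 256) (nat_lit 1) (.n (nat_lit 257) (nat_lit 2) (.p (nat_lit 258) (nat_lit 1) (.p (nat_lit 259) (nat_lit 2) (.n (nat_lit 260) (nat_lit 2) (.n (nat_lit 261) (nat_lit 3) (.n (nat_lit 262) (nat_lit 2) (.n (nat_lit 263) (nat_lit 3) (.p (nat_lit 264) (nat_lit 3) (.p (nat_lit 265) (nat_lit 3) (.n (nat_lit 266) (nat_lit 3) (.n (nat_lit 267) (nat_lit 3) (.n (nat_lit 269) (nat_lit 3) (.p (nat_lit 270) (nat_lit 1) (.p (nat_lit 271) (nat_lit 3) (.n (nat_lit 272) (nat_lit 2) (.n (nat_lit 273) (nat_lit 3) (.p (nat_lit 274) (nat_lit 2) (.p (nat_lit 275) (nat_lit 1) (.n (nat_lit 276) (nat_lit 3) (.p (nat_lit 277) (nat_lit 3) (.p (nat_lit 278) (nat_lit 1) (.p (nat_lit 279) (nat_lit 1) (.n (nat_lit 283) (nat_lit 3) (.p (nat_lit 285) (nat_lit 2) (.n (nat_lit 286) (nat_lit 1) (.p (nat_lit 287) (nat_lit 1) (.p (nat_lit 288) (nat_lit 1) .z))))))))))))))))))))))))))))))) (.ct dC2d_c292 (nat_lit 1) (nat_lit 12) (.s true (nat_lit 3) (nat_lit 7) (nat_lit 0) (nat_lit 6) (nat_lit 6) true (nat_lit 4) true (nat_lit 7) true (nat_lit 6) true (nat_lit 13) true (nat_lit 7) (.s false (nat_lit 3) (nat_lit 13) (nat_lit 2) (nat_lit 7) (nat_lit 1) true (nat_lit 7) true (nat_lit 12) true (nat_lit 4) true (nat_lit 11) true (nat_lit 6) (.s false (nat_lit 3) (nat_lit 13) (nat_lit 7) (nat_lit 1) (nat_lit 2) true (nat_lit 0) true (nat_lit 11) true (nat_lit 4) true (nat_lit 6) true (nat_lit 12) (.e true (nat_lit 1) (nat_lit 80) (nat_lit 6) (nat_lit 7) (.e false (nat_lit 1) (nat_lit 81) (nat_lit 6) (nat_lit 7) dC2d_i64)))))) .leaf)) (nat_lit 187394) (nat_lit 759) (.p (nat_lit 318) (nat_lit 1) .z) .df (.nd (.nd (.nd .leaf (nat_lit 187396) (nat_lit 1096) (.n (nat_lit 335) (nat_lit 3) (.p (nat_lit 336) (nat_lit 3) (.n (nat_lit 337) (nat_lit 1) (.n (nat_lit 338) (nat_lit 2) (.p (nat_lit 339) (nat_lit 3) (.p (nat_lit 340) (nat_lit 3) (.p (nat_lit 341) (nat_lit 3) (.n (nat_lit 343) (nat_lit 1) (.n (nat_lit 344) (nat_lit 3) (.p (nat_lit 345) (nat_lit 2) (.p (nat_lit 346) (nat_lit 3) (.n (nat_lit 347) (nat_lit 1) (.p (nat_lit 349) (nat_lit 1) (.n (nat_lit 350) (nat_lit 1) (.n (nat_lit 351) (nat_lit 1) (.p (nat_lit 352) (nat_lit 1) (.n (nat_lit 353) (nat_lit 2) (.p (nat_lit 355) (nat_lit 1) (.n (nat_lit 356) (nat_lit 3) (.p (nat_lit 357) (nat_lit 3) (.p (nat_lit 359) (nat_lit 2) (.p (nat_lit 360) (nat_lit 1) (.p (nat_lit 361) (nat_lit 1) (.p (nat_lit 363) (nat_lit 3) (.n (nat_lit 364) (nat_lit 3) (.n (nat_lit 366) (nat_lit 3) (.n (nat_lit 367) (nat_lit 2) (.p (nat_lit 368) (nat_lit 3) (.n (nat_lit 369) (nat_lit 2) (.n (nat_lit 370) (nat_lit 2) (.p (nat_lit 371) (nat_lit 3) (.n (nat_lit 372) (nat_lit 3) (.n (nat_lit 373) (nat_lit 3) (.p (nat_lit 374) (nat_lit 2) (.n (nat_lit 375) (nat_lit 3) (.n (nat_lit 376) (nat_lit 3) (.n (nat_lit 380) (nat_lit 2) (.p (nat_lit 381) (nat_lit 1) (.p (nat_lit 382) (nat_lit 2) (.n (nat_lit 383) (nat_lit 1) .z)))))))))))))))))))))))))))))))))))))))) (.ct dC2d_c308 (nat_lit 1) (nat_lit 14) (.s false (nat_lit 1) (nat_lit 35) (nat_lit 1) (nat_lit 7) (nat_lit 1) true (nat_lit 14) true (nat_lit 17) true (nat_lit 0) true (nat_lit 17) true (nat_lit 11) (.s false (nat_lit 1) (nat_lit 35) (nat_lit 7) (nat_lit 1) (nat_lit 1) true (nat_lit 5) true (nat_lit 17) true (nat_lit 0) true (nat_lit 11) true (nat_lit 17) dC2d_i66))) .leaf) (nat_lit 188417) (nat_lit 661) (.p (nat_lit 252) (nat_lit 3) (.p (nat_lit 253) (nat_lit 3) (.p (nat_lit 255) (nat_lit 3) (.n (nat_lit 256) (nat_lit 1) (.p (nat_lit 258) (nat_lit 3) (.p (nat_lit 261) (nat_lit 1) (.p (nat_lit 262) (nat_lit 1) (.n (nat_lit 263) (nat_lit 3) (.n (nat_lit 264) (nat_lit 2) (.n (nat_lit 265) (nat_lit 2) (.n (nat_lit 266) (nat_lit 2) (.n (nat_lit 267) (nat_lit 1) (.p (nat_lit 269) (nat_lit 2) (.n (nat_lit 271) (nat_lit 1) (.n (nat_lit 272) (nat_lit 2) (.n (nat_lit 273) (nat_lit 1) (.n (nat_lit 274) (nat_lit 2) (.p (nat_lit 276) (nat_lit 1) (.p (nat_lit 277) (nat_lit 1) (.n (nat_lit 279) (nat_lit 1) (.p (nat_lit 281) (nat_lit 1) (.p (nat_lit 282) (nat_lit 1) (.p (nat_lit 283) (nat_lit 1) (.n (nat_lit 285) (nat_lit 1) (.n (nat_lit 286) (nat_lit 1) (.p (nat_lit 288) (nat_lit 1) .z)))))))))))))))))))))))))) (.ct dC2d_c292 (nat_lit 1) (nat_lit 12) (.s true (nat_lit 1) (nat_lit 45) (nat_lit 1) (nat_lit 2) (nat_lit 0) true (nat_lit 10) true (nat_lit 13) false (nat_lit 4) true (nat_lit 12) true (nat_lit 11) (.e true (nat_lit 1) (nat_lit 101) (nat_lit 3) (nat_lit 10) (.e true (nat_lit 1) (nat_lit 188) (nat_lit 0) (nat_lit 13) (.e false (nat_lit 1) (nat_lit 45) (nat_lit 13) (nat_lit 4) (.e false (nat_lit 2) (nat_lit 169) (nat_lit 1) (nat_lit 12) (.e true (nat_lit 1) (nat_lit 170) (nat_lit 1) (nat_lit 12) (.e false (nat_lit 1) (nat_lit 171) (nat_lit 1) (nat_lit 12) (.e false (nat_lit 3) (nat_lit 172) (nat_lit 1) (nat_lit 12) (.e true (nat_lit 2) (nat_lit 173) (nat_lit 1) (nat_lit 12) (.e false (nat_lit 2) (nat_lit 174) (nat_lit 1) (nat_lit 12) dC2d_i67))))))))))) .leaf) (nat_lit 188418) (nat_lit 773) (.p (nat_lit 305) (nat_lit 3) (.p (nat_lit 306) (nat_lit 2) (.n (nat_lit 307) (nat_lit 2) (.n (nat_lit 308) (nat_lit 2) (.n (nat_lit 309) (nat_lit 3) (.n (nat_lit 310) (nat_lit 3) (.p (nat_lit 311) (nat_lit 3) (.p (nat_lit 312) (nat_lit 2) (.n (nat_lit 313) (nat_lit 3) (.n (nat_lit 314) (nat_lit 3) (.p (nat_lit 315) (nat_lit 3) (.p (nat_lit 316) (nat_lit 1) (.n (nat_lit 317) (nat_lit 1) .z))))))))))))) (.ct dC2d_c277 (nat_lit 1) (nat_lit 8) (.s true (nat_lit 3) (nat_lit 7) (nat_lit 5) (nat_lit 2) (nat_lit 6) false (nat_lit 0) true (nat_lit 5) true (nat_lit 4) true (nat_lit 6) true (nat_lit 8) (.s false (nat_lit 1) (nat_lit 11) (nat_lit 2) (nat_lit 2) (nat_lit 7) true (nat_lit 0) true (nat_lit 4) true (nat_lit 3) true (nat_lit 8) true (nat_lit 8) (.s true (nat_lit 2) (nat_lit 17) (nat_lit 6) (nat_lit 2) (nat_lit 2) true (nat_lit 1) true (nat_lit 8) true (nat_lit 2) true (nat_lit 5) true (nat_lit 8) (.s false (nat_lit 2) (nat_lit 18) (nat_lit 0) (nat_lit 2) (nat_lit 7) true (nat_lit 2) true (nat_lit 4) true (nat_lit 1) true (nat_lit 10) true (nat_lit 8) (.s false (nat_lit 3) (nat_lit 18) (nat_lit 2) (nat_lit 2) (nat_lit 5) true (nat_lit 2) true (nat_lit 6) true (nat_lit 1) true (nat_lit 8) true (nat_lit 8) (.s false (nat_lit 3) (nat_lit 19) (nat_lit 2) (nat_lit 2) (nat_lit 5) true (nat_lit 2) true (nat_lit 6) true (nat_lit 1) true (nat_lit 8) true (nat_lit 8) (.s false (nat_lit 3) (nat_lit 18) (nat_lit 2) (nat_lit 5) (nat_lit 2) true (nat_lit 4) true (nat_lit 8) true (nat_lit 1) true (nat_lit 8) true (nat_lit 6) (.s true (nat_lit 3) (nat_lit 18) (nat_lit 5) (nat_lit 2) (nat_lit 2) true (nat_lit 2) true (nat_lit 8) true (nat_lit 1) true (nat_lit 6) true (nat_lit 8) (.s false (nat_lit 3) (nat_lit 19) (nat_lit 7) (nat_lit 0) (nat_lit 2) true (nat_lit 0) true (nat_lit 8) true (nat_lit 1) true (nat_lit 4) true (nat_lit 10) (.s false (nat_lit 2) (nat_lit 20) (nat_lit 0) (nat_lit 2) (nat_lit 6) true (nat_lit 3) true (nat_lit 5) true (nat_lit 0) true (nat_lit 10) true (nat_lit 8) (.s false (nat_lit 2) (nat_lit 20) (nat_lit 0) (nat_lit 6) (nat_lit 2) true (nat_lit 6) true (nat_lit 8) true (nat_lit 0) true (nat_lit 10) true (nat_lit 5) (.s true (nat_lit 1) (nat_lit 20) (nat_lit 0) (nat_lit 7) (nat_lit 1) true (nat_lit 7) true (nat_lit 9) true (nat_lit 0) true (nat_lit 10) true (nat_lit 4) (.s false (nat_lit 2) (nat_lit 20) (nat_lit 1) (nat_lit 2) (nat_lit 5) true (nat_lit 3) true (nat_lit 6) true (nat_lit 0) true (nat_lit 9) true (nat_lit 8) (.s false (nat_lit 3) (nat_lit 20) (nat_lit 2) (nat_lit 0) (nat_lit 6) true (nat_lit 1) true (nat_lit 5) true (nat_lit 0) true (nat_lit 8) true (nat_lit 10) (.s false (nat_lit 1) (nat_lit 20) (nat_lit 6) (nat_lit 2) (nat_lit 0) true (nat_lit 3) true (nat_lit 10) true (nat_lit 0) true (nat_lit 5) true (nat_lit 8) (.s true (nat_lit 3) (nat_lit 36) (nat_lit 2) (nat_lit 2) (nat_lit 2) true (nat_lit 4) true (nat_lit 8) false (nat_lit 0) true (nat_lit 8) true (nat_lit 8) (.s false (nat_lit 1) (nat_lit 37) (nat_lit 2) (nat_lit 2) (nat_lit 2) true (nat_lit 4) true (nat_lit 8) false (nat_lit 0) true (nat_lit 8) true (nat_lit 8) (.s false (nat_lit 1) (nat_lit 38) (nat_lit 2) (nat_lit 2) (nat_lit 2) true (nat_lit 4) true (nat_lit 8) false (nat_lit 0) true (nat_lit 8) true (nat_lit 8) (.s false (nat_lit 1) (nat_lit 44) (nat_lit 1) (nat_lit 2) (nat_lit 2) true (nat_lit 5) true (nat_lit 8) false (nat_lit 1) true (nat_lit 9) true (nat_lit 8) (.s false (nat_lit 3) (nat_lit 44) (nat_lit 2) (nat_lit 2) (nat_lit 1) true (nat_lit 5) true (nat_lit 9) false (nat_lit 1) true (nat_lit 8) true (nat_lit 8) (.s true (nat_lit 3) (nat_lit 46) (nat_lit 0) (nat_lit 2) (nat_lit 2) true (nat_lit 6) true (nat_lit 8) false (nat_lit 2) true (nat_lit 10) true (nat_lit 8) (.s false (nat_lit 3) (nat_lit 47) (nat_lit 0) (nat_lit 2) (nat_lit 2) true (nat_lit 6) true (nat_lit 8) false (nat_lit 2) true (nat_lit 10) true (nat_lit 8) (.s false (nat_lit 3) (nat_lit 47) (nat_lit 2) (nat_lit 0) (nat_lit 2) true (nat_lit 4) true (nat_lit 8) false (nat_lit 2) true (nat_lit 8) true (nat_lit 10) (.s false (nat_lit 2) (nat_lit 48) (nat_lit 2) (nat_lit 0) (nat_lit 1) true (nat_lit 5) true (nat_lit 9) false (nat_lit 3) true (nat_lit 8) true (nat_lit 10) dC2d_i68))))))))))))))))))))))))) (.nd .leaf (nat_lit 189440) (nat_lit 685) (.p (nat_lit 252) (nat_lit 3) (.n (nat_lit 253) (nat_lit 2) (.n (nat_lit 254) (nat_lit 2) (.n (nat_lit 256) (nat_lit 3) (.p (nat_lit 257) (nat_lit 3) (.p (nat_lit 258) (nat_lit 2) (.n (nat_lit 259) (nat_lit 3) (.p (nat_lit 260) (nat_lit 3) (.n (nat_lit 261) (nat_lit 3) (.n (nat_lit 262) (nat_lit 3) (.n (nat_lit 264) (nat_lit 2) (.p (nat_lit 265) (nat_lit 3) (.n (nat_lit 266) (nat_lit 2) (.p (nat_lit 267) (nat_lit 2) (.n (nat_lit 270) (nat_lit 2) (.p (nat_lit 271) (nat_lit 1) (.p (nat_lit 272) (nat_lit 3) (.p (nat_lit 273) (nat_lit 2) (.n (nat_lit 274) (nat_lit 1) (.p (nat_lit 275) (nat_lit 1) (.n (nat_lit 276) (nat_lit 1) (.n (nat_lit 277) (nat_lit 1) (.n (nat_lit 279) (nat_lit 2) (.p (nat_lit 282) (nat_lit 2) (.n (nat_lit 283) (nat_lit 3) (.p (nat_lit 284) (nat_lit 1) (.p (nat_lit 285) (nat_lit 3) (.n (nat_lit 286) (nat_lit 1) (.p (nat_lit 288) (nat_lit 2) .z))))))))))))))))))))))))))))) (.ct dC2d_c292 (nat_lit 1) (nat_lit 13) (.s true (nat_lit 1) (nat_lit 39) (nat_lit 2) (nat_lit 0) (nat_lit 2) true (nat_lit 6) true (nat_lit 11) false (nat_lit 2) true (nat_lit 11) true (nat_lit 13) (.e false (nat_lit 1) (nat_lit 70) (nat_lit 7) (nat_lit 6) (.e true (nat_lit 2) (nat_lit 134) (nat_lit 2) (nat_lit 11) (.e true (nat_lit 2) (nat_lit 135) (nat_lit 2) (nat_lit 11) (.e false (nat_lit 2) (nat_lit 141) (nat_lit 2) (nat_lit 11) (.e false (nat_lit 2) (nat_lit 143) (nat_lit 2) (nat_lit 11) (.e false (nat_lit 3) (nat_lit 144) (nat_lit 2) (nat_lit 11) (.e false (nat_lit 2) (nat_lit 145) (nat_lit 2) (nat_lit 11) (.e false (nat_lit 2) (nat_lit 147) (nat_lit 2) (nat_lit 11) (.e false (nat_lit 1) (nat_lit 149) (nat_lit 2) (nat_lit 11) (.e true (nat_lit 1) (nat_lit 150) (nat_lit 2) (nat_lit 11) (.e true (nat_lit 3) (nat_lit 151) (nat_lit 2) (nat_lit 11) (.e true (nat_lit 1) (nat_lit 152) (nat_lit 2) (nat_lit 11) (.e true (nat_lit 3) (nat_lit 154) (nat_lit 2) (nat_lit 11) (.e true (nat_lit 1) (nat_lit 155) (nat_lit 2) (nat_lit 11) (.e false (nat_lit 3) (nat_lit 156) (nat_lit 2) (nat_lit 11) (.e false (nat_lit 1) (nat_lit 157) (nat_lit 2) (nat_lit 11) (.e false (nat_lit 1) (nat_lit 39) (nat_lit 16) (nat_lit 2) (.e true (nat_lit 3) (nat_lit 132) (nat_lit 2) (nat_lit 11) (.e true (nat_lit 3) (nat_lit 136) (nat_lit 2) (nat_lit 11) (.e true (nat_lit 2) (nat_lit 138) (nat_lit 2) (nat_lit 11) (.e false (nat_lit 1) (nat_lit 142) (nat_lit 2) (nat_lit 11) (.e true (nat_lit 2) (nat_lit 153) (nat_lit 2) (nat_lit 11) (.u (nat_lit 2) (.n (nat_lit 0) (nat_lit 1) (.p (nat_lit 1) (nat_lit 1) (.n (nat_lit 5) (nat_lit 1) (.p (nat_lit 9) (nat_lit 1) (.p (nat_lit 119) (nat_lit 1) (.p (nat_lit 120) (nat_lit 1) (.n (nat_lit 129) (nat_lit 1) .z))))))) .nil))))))))))))))))))))))))) .leaf))))))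

noncomputable def dC2d_t1 : Tr := (.nd (.nd (.nd (.nd (.nd (.nd (.nd .leaf (nat_lit 189442) (nat_lit 813) (.p (nat_lit 324) (nat_lit 1) .z) .df .leaf) (nat_lit 189443) (nat_lit 1060) (.n (nat_lit 335) (nat_lit 2) (.p (nat_lit 336) (nat_lit 3) (.n (nat_lit 337) (nat_lit 1) (.p (nat_lit 341) (nat_lit 3) (.n (nat_lit 342) (nat_lit 1) (.p (nat_lit 343) (nat_lit 1) (.n (nat_lit 344) (nat_lit 1) (.n (nat_lit 345) (nat_lit 2) (.n (nat_lit 347) (nat_lit 1) (.p (nat_lit 349) (nat_lit 2) (.p (nat_lit 350) (nat_lit 2) (.n (nat_lit 351) (nat_lit 1) (.p (nat_lit 353) (nat_lit 1) (.n (nat_lit 355) (nat_lit 2) (.n (nat_lit 356) (nat_lit 2) (.p (nat_lit 357) (nat_lit 2) (.n (nat_lit 358) (nat_lit 1) (.n (nat_lit 359) (nat_lit 1) (.p (nat_lit 360) (nat_lit 1) (.p (nat_lit 361) (nat_lit 2) (.n (nat_lit 362) (nat_lit 2) (.p (nat_lit 363) (nat_lit 3) (.p (nat_lit 364) (nat_lit 2) (.n (nat_lit 366) (nat_lit 3) (.n (nat_lit 367) (nat_lit 1) (.p (nat_lit 369) (nat_lit 1) (.n (nat_lit 370) (nat_lit 2) (.n (nat_lit 371) (nat_lit 1) (.p (nat_lit 372) (nat_lit 3) (.p (nat_lit 374) (nat_lit 2) (.n (nat_lit 379) (nat_lit 2) .z))))))))))))))))))))))))))))))) (.ct dC2d_c308 (nat_lit 1) (nat_lit 15) (.s false (nat_lit 1) (nat_lit 39) (nat_lit 2) (nat_lit 3) (nat_lit 2) true (nat_lit 11) true (nat_lit 16) false (nat_lit 0) true (nat_lit 16) true (nat_lit 15) (.e false (nat_lit 1) (nat_lit 106) (nat_lit 7) (nat_lit 11) (.e true (nat_lit 1) (nat_lit 107) (nat_lit 7) (nat_lit 11) (.e true (nat_lit 1) (nat_lit 108) (nat_lit 7) (nat_lit 11) (.e true (nat_lit 1) (nat_lit 110) (nat_lit 7) (nat_lit 11) (.e false (nat_lit 1) (nat_lit 112) (nat_lit 7) (nat_lit 11) (.e true (nat_lit 1) (nat_lit 114) (nat_lit 7) (nat_lit 11) (.e false (nat_lit 1) (nat_lit 116) (nat_lit 7) (nat_lit 11) (.e true (nat_lit 1) (nat_lit 117) (nat_lit 7) (nat_lit 11) (.e false (nat_lit 1) (nat_lit 118) (nat_lit 7) (nat_lit 11) (.e true (nat_lit 1) (nat_lit 119) (nat_lit 7) (nat_lit 11) (.e true (nat_lit 1) (nat_lit 120) (nat_lit 7) (nat_lit 11) (.e false (nat_lit 1) (nat_lit 122) (nat_lit 7) (nat_lit 11) (.e false (nat_lit 1) (nat_lit 123) (nat_lit 7) (nat_lit 11) (.e false (nat_lit 1) (nat_lit 127) (nat_lit 7) (nat_lit 11) (.e false (nat_lit 1) (nat_lit 128) (nat_lit 7) (nat_lit 11) (.e true (nat_lit 1) (nat_lit 129) (nat_lit 7) (nat_lit 11) (.e true (nat_lit 1) (nat_lit 130) (nat_lit 7) (nat_lit 11) (.e false (nat_lit 2) (nat_lit 205) (nat_lit 2) (nat_lit 16) (.e true (nat_lit 2) (nat_lit 210) (nat_lit 2) (nat_lit 16) (.e true (nat_lit 3) (nat_lit 211) (nat_lit 2) (nat_lit 16) (.e false (nat_lit 1) (nat_lit 213) (nat_lit 2) (nat_lit 16) dC2d_i69))))))))))))))))))))))) .leaf) (nat_lit 189445) (nat_lit 1333) (.n (nat_lit 397) (nat_lit 3) (.p (nat_lit 398) (nat_lit 1) (.p (nat_lit 399) (nat_lit 2) (.p (nat_lit 400) (nat_lit 2) (.p (nat_lit 401) (nat_lit 1) (.p (nat_lit 402) (nat_lit 3) (.p (nat_lit 403) (nat_lit 2) (.p (nat_lit 404) (nat_lit 1) (.n (nat_lit 406) (nat_lit 3) (.p (nat_lit 407) (nat_lit 1) (.p (nat_lit 408) (nat_lit 3) (.p (nat_lit 409) (nat_lit 2) (.p (nat_lit 410) (nat_lit 3) (.p (nat_lit 411) (nat_lit 3) (.n (nat_lit 412) (nat_lit 2) (.n (nat_lit 413) (nat_lit 2) (.n (nat_lit 414) (nat_lit 3) (.n (nat_lit 416) (nat_lit 3) (.p (nat_lit 418) (nat_lit 2) (.n (nat_lit 419) (nat_lit 2) (.n (nat_lit 420) (nat_lit 2) (.n (nat_lit 421) (nat_lit 3) (.p (nat_lit 423) (nat_lit 2) (.n (nat_lit 424) (nat_lit 3) (.p (nat_lit 426) (nat_lit 3) (.p (nat_lit 430) (nat_lit 3) (.n (nat_lit 431) (nat_lit 3) (.p (nat_lit 432) (nat_lit 2) (.n (nat_lit 435) (nat_lit 3) .z))))))))))))))))))))))))))))) (.ct dC2d_c293 (nat_lit 1) (nat_lit 11) (.s true (nat_lit 1) (nat_lit 91) (nat_lit 2) (nat_lit 2) (nat_lit 0) true (nat_lit 11) true (nat_lit 16) false (nat_lit 5) true (nat_lit 14) true (nat_lit 14) (.e true (nat_lit 1) (nat_lit 324) (nat_lit 0) (nat_lit 16) (.e false (nat_lit 1) (nat_lit 91) (nat_lit 17) (nat_lit 5) (.e true (nat_lit 2) (nat_lit 252) (nat_lit 2) (nat_lit 14) (.e true (nat_lit 3) (nat_lit 253) (nat_lit 2) (nat_lit 14) (.e true (nat_lit 2) (nat_lit 255) (nat_lit 2) (nat_lit 14) dC2d_i70))))))) (.nd (.nd .leaf (nat_lit 189446) (nat_lit 1439) (.n (nat_lit 436) (nat_lit 2) (.p (nat_lit 445) (nat_lit 1) (.p (nat_lit 447) (nat_lit 1) .z))) (.ct dC2d_c53 (nat_lit 1) (nat_lit 7) (.s true (nat_lit 1) (nat_lit 91) (nat_lit 2) (nat_lit 2) (nat_lit 1) true (nat_lit 7) true (nat_lit 10) false (nat_lit 3) true (nat_lit 9) true (nat_lit 9) (.e true (nat_lit 1) (nat_lit 324) (nat_lit 1) (nat_lit 10) (.e false (nat_lit 1) (nat_lit 91) (nat_lit 19) (nat_lit 3) (.e false (nat_lit 1) (nat_lit 289) (nat_lit 2) (nat_lit 9) (.e true (nat_lit 2) (nat_lit 290) (nat_lit 2) (nat_lit 9) (.e false (nat_lit 2) (nat_lit 291) (nat_lit 2) (nat_lit 9) (.e true (nat_lit 2) (nat_lit 294) (nat_lit 2) (nat_lit 9) (.e true (nat_lit 3) (nat_lit 295) (nat_lit 2) (nat_lit 9) (.e true (nat_lit 2) (nat_lit 297) (nat_lit 2) (nat_lit 9) (.e true (nat_lit 1) (nat_lit 299) (nat_lit 2) (nat_lit 9) (.e true (nat_lit 2) (nat_lit 300) (nat_lit 2) (nat_lit 9) (.e false (nat_lit 2) (nat_lit 301) (nat_lit 2) (nat_lit 9) (.e false (nat_lit 3) (nat_lit 303) (nat_lit 2) (nat_lit 9) (.e true (nat_lit 2) (nat_lit 304) (nat_lit 2) (nat_lit 9) (.e false (nat_lit 3) (nat_lit 292) (nat_lit 2) (nat_lit 9) (.e true (nat_lit 1) (nat_lit 293) (nat_lit 2) (nat_lit 9) (.e false (nat_lit 2) (nat_lit 296) (nat_lit 2) (nat_lit 9) (.u (nat_lit 2) (.p (nat_lit 1) (nat_lit 1) (.p (nat_lit 3) (nat_lit 1) (.n (nat_lit 4) (nat_lit 2) (.p (nat_lit 5) (nat_lit 2) (.n (nat_lit 7) (nat_lit 1) (.n (nat_lit 9) (nat_lit 2) (.p (nat_lit 14) (nat_lit 1) (.n (nat_lit 83) (nat_lit 1) (.p (nat_lit 85) (nat_lit 1) .z))))))))) .nil))))))))))))))))))) .leaf) (nat_lit 190464) (nat_lit 666) (.n (nat_lit 252) (nat_lit 1) (.n (nat_lit 253) (nat_lit 2) (.n (nat_lit 254) (nat_lit 1) (.n (nat_lit 255) (nat_lit 2) (.p (nat_lit 256) (nat_lit 1) (.p (nat_lit 258) (nat_lit 3) (.n (nat_lit 259) (nat_lit 2) (.p (nat_lit 260) (nat_lit 2) (.p (nat_lit 261) (nat_lit 3) (.n (nat_lit 262) (nat_lit 3) (.n (nat_lit 263) (nat_lit 1) (.p (nat_lit 264) (nat_lit 2) (.n (nat_lit 265) (nat_lit 1) (.p (nat_lit 266) (nat_lit 1) (.p (nat_lit 267) (nat_lit 3) (.p (nat_lit 269) (nat_lit 3) (.p (nat_lit 270) (nat_lit 2) (.p (nat_lit 272) (nat_lit 2) (.p (nat_lit 273) (nat_lit 1) (.p (nat_lit 274) (nat_lit 3) (.n (nat_lit 275) (nat_lit 3) (.n (nat_lit 282) (nat_lit 1) (.p (nat_lit 284) (nat_lit 1) (.p (nat_lit 285) (nat_lit 1) .z)))))))))))))))))))))))) (.ct dC2d_c292 (nat_lit 1) (nat_lit 13) (.s true (nat_lit 1) (nat_lit 40) (nat_lit 2) (nat_lit 0) (nat_lit 2) true (nat_lit 6) true (nat_lit 11) false (nat_lit 2) true (nat_lit 11) true (nat_lit 13) (.e false (nat_lit 1) (nat_lit 71) (nat_lit 7) (nat_lit 6) (.e true (nat_lit 1) (nat_lit 151) (nat_lit 2) (nat_lit 11) (.e false (nat_lit 1) (nat_lit 40) (nat_lit 16) (nat_lit 2) (.e false (nat_lit 1) (nat_lit 156) (nat_lit 2) (nat_lit 11) (.u (nat_lit 2) (.p (nat_lit 2) (nat_lit 1) (.p (nat_lit 3) (nat_lit 1) (.n (nat_lit 6) (nat_lit 1) (.n (nat_lit 9) (nat_lit 1) (.p (nat_lit 10) (nat_lit 1) (.n (nat_lit 20) (nat_lit 1) .z)))))) .nil))))))) .leaf)) (nat_lit 190465) (nat_lit 704) (.p (nat_lit 300) (nat_lit 1) .z) .df (.nd (.nd (.nd .leaf (nat_lit 190466) (nat_lit 814) (.p (nat_lit 325) (nat_lit 1) .z) .df .leaf) (nat_lit 190467) (nat_lit 1057) (.n (nat_lit 335) (nat_lit 2) (.n (nat_lit 336) (nat_lit 2) (.p (nat_lit 337) (nat_lit 3) (.p (nat_lit 338) (nat_lit 3) (.n (nat_lit 339) (nat_lit 1) (.n (nat_lit 342) (nat_lit 2) (.n (nat_lit 343) (nat_lit 3) (.n (nat_lit 344) (nat_lit 3) (.n (nat_lit 345) (nat_lit 2) (.p (nat_lit 346) (nat_lit 3) (.n (nat_lit 347) (nat_lit 1) (.p (nat_lit 349) (nat_lit 3) (.n (nat_lit 350) (nat_lit 1) (.p (nat_lit 352) (nat_lit 1) (.p (nat_lit 353) (nat_lit 1) (.n (nat_lit 354) (nat_lit 3) (.p (nat_lit 356) (nat_lit 3) (.n (nat_lit 357) (nat_lit 3) (.n (nat_lit 358) (nat_lit 1) (.p (nat_lit 359) (nat_lit 1) (.n (nat_lit 360) (nat_lit 3) (.n (nat_lit 361) (nat_lit 2) (.p (nat_lit 362) (nat_lit 2) (.n (nat_lit 363) (nat_lit 1) (.n (nat_lit 364) (nat_lit 3) (.p (nat_lit 366) (nat_lit 3) (.n (nat_lit 367) (nat_lit 2) (.p (nat_lit 368) (nat_lit 2) (.p (nat_lit 371) (nat_lit 3) (.n (nat_lit 372) (nat_lit 3) (.n (nat_lit 373) (nat_lit 2) (.n (nat_lit 374) (nat_lit 1) (.p (nat_lit 379) (nat_lit 1) (.n (nat_lit 380) (nat_lit 1) (.n (nat_lit 381) (nat_lit 3) (.n (nat_lit 382) (nat_lit 3) (.n (nat_lit 383) (nat_lit 2) .z))))))))))))))))))))))))))))))))))))) (.ct dC2d_c308 (nat_lit 1) (nat_lit 15) (.s false (nat_lit 1) (nat_lit 40) (nat_lit 2) (nat_lit 3) (nat_lit 2) true (nat_lit 11) true (nat_lit 16) false (nat_lit 0) true (nat_lit 16) true (nat_lit 15) (.e false (nat_lit 3) (nat_lit 107) (nat_lit 7) (nat_lit 11) (.e false (nat_lit 3) (nat_lit 108) (nat_lit 7) (nat_lit 11) (.e true (nat_lit 3) (nat_lit 109) (nat_lit 7) (nat_lit 11) (.e false (nat_lit 3) (nat_lit 110) (nat_lit 7) (nat_lit 11) (.e true (nat_lit 3) (nat_lit 112) (nat_lit 7) (nat_lit 11) (.e false (nat_lit 3) (nat_lit 114) (nat_lit 7) (nat_lit 11) (.e true (nat_lit 1) (nat_lit 117) (nat_lit 7) (nat_lit 11) (.e true (nat_lit 3) (nat_lit 119) (nat_lit 7) (nat_lit 11) (.e false (nat_lit 3) (nat_lit 123) (nat_lit 7) (nat_lit 11) (.e true (nat_lit 3) (nat_lit 126) (nat_lit 7) (nat_lit 11) (.e false (nat_lit 3) (nat_lit 127) (nat_lit 7) (nat_lit 11) (.e false (nat_lit 1) (nat_lit 128) (nat_lit 7) (nat_lit 11) (.e false (nat_lit 2) (nat_lit 205) (nat_lit 2) (nat_lit 16) (.e false (nat_lit 1) (nat_lit 206) (nat_lit 2) (nat_lit 16) (.e true (nat_lit 2) (nat_lit 207) (nat_lit 2) (nat_lit 16) (.e false (nat_lit 3) (nat_lit 209) (nat_lit 2) (nat_lit 16) (.e true (nat_lit 2) (nat_lit 211) (nat_lit 2) (nat_lit 16) (.e false (nat_lit 1) (nat_lit 213) (nat_lit 2) (nat_lit 16) dC2d_i71)))))))))))))))))))) .leaf) (nat_lit 190469) (nat_lit 1309) (.p (nat_lit 397) (nat_lit 1) (.n (nat_lit 398) (nat_lit 1) (.n (nat_lit 399) (nat_lit 3) (.n (nat_lit 400) (nat_lit 2) (.n (nat_lit 401) (nat_lit 1) (.p (nat_lit 403) (nat_lit 1) (.n (nat_lit 404) (nat_lit 3) (.n (nat_lit 408) (nat_lit 2) (.n (nat_lit 409) (nat_lit 1) (.n (nat_lit 410) (nat_lit 2) (.n (nat_lit 411) (nat_lit 3) (.n (nat_lit 412) (nat_lit 2) (.n (nat_lit 413) (nat_lit 2) (.p (nat_lit 414) (nat_lit 2) (.n (nat_lit 415) (nat_lit 3) (.n (nat_lit 416) (nat_lit 1) (.n (nat_lit 418) (nat_lit 1) (.p (nat_lit 419) (nat_lit 1) (.n (nat_lit 420) (nat_lit 2) (.n (nat_lit 421) (nat_lit 1) (.n (nat_lit 423) (nat_lit 1) (.n (nat_lit 424) (nat_lit 2) (.p (nat_lit 426) (nat_lit 2) (.p (nat_lit 430) (nat_lit 2) (.p (nat_lit 431) (nat_lit 1) (.p (nat_lit 432) (nat_lit 2) (.n (nat_lit 435) (nat_lit 1) .z))))))))))))))))))))))))))) (.ct dC2d_c293 (nat_lit 1) (nat_lit 11) (.s true (nat_lit 1) (nat_lit 92) (nat_lit 0) (nat_lit 2) (nat_lit 2) true (nat_lit 11) true (nat_lit 14) false (nat_lit 5) true (nat_lit 16) true (nat_lit 14) (.e true (nat_lit 1) (nat_lit 271) (nat_lit 2) (nat_lit 14) (.e true (nat_lit 1) (nat_lit 92) (nat_lit 16) (nat_lit 5) (.e true (nat_lit 2) (nat_lit 324) (nat_lit 0) (nat_lit 16) (.e true (nat_lit 2) (nat_lit 325) (nat_lit 0) (nat_lit 16) (.e true (nat_lit 3) (nat_lit 326) (nat_lit 0) (nat_lit 16) (.e false (nat_lit 3) (nat_lit 327) (nat_lit 0) (nat_lit 16) (.e true (nat_lit 3) (nat_lit 328) (nat_lit 0) (nat_lit 16) (.e true (nat_lit 1) (nat_lit 330) (nat_lit 0) (nat_lit 16) (.e false (nat_lit 1) (nat_lit 333) (nat_lit 0) (nat_lit 16) (.e false (nat_lit 1) (nat_lit 334) (nat_lit 0) (nat_lit 16) dC2d_i72)))))))))))) (.nd (.nd .leaf (nat_lit 190470) (nat_lit 1448) (.n (nat_lit 436) (nat_lit 3) (.n (nat_lit 439) (nat_lit 2) (.p (nat_lit 440) (nat_lit 3) (.n (nat_lit 441) (nat_lit 3) (.p (nat_lit 442) (nat_lit 2) (.n (nat_lit 443) (nat_lit 3) (.n (nat_lit 444) (nat_lit 3) (.p (nat_lit 445) (nat_lit 3) (.p (nat_lit 447) (nat_lit 2) (.n (nat_lit 448) (nat_lit 2) (.n (nat_lit 450) (nat_lit 1) .z))))))))))) (.ct dC2d_c53 (nat_lit 1) (nat_lit 7) (.s true (nat_lit 1) (nat_lit 92) (nat_lit 1) (nat_lit 2) (nat_lit 2) true (nat_lit 7) true (nat_lit 9) false (nat_lit 3) true (nat_lit 10) true (nat_lit 9) (.e true (nat_lit 1) (nat_lit 295) (nat_lit 2) (nat_lit 9) (.e false (nat_lit 1) (nat_lit 92) (nat_lit 18) (nat_lit 3) (.e true (nat_lit 2) (nat_lit 324) (nat_lit 1) (nat_lit 10) (.e true (nat_lit 2) (nat_lit 325) (nat_lit 1) (nat_lit 10) (.e true (nat_lit 3) (nat_lit 326) (nat_lit 1) (nat_lit 10) (.e false (nat_lit 3) (nat_lit 327) (nat_lit 1) (nat_lit 10) (.e true (nat_lit 3) (nat_lit 328) (nat_lit 1) (nat_lit 10) (.e true (nat_lit 1) (nat_lit 330) (nat_lit 1) (nat_lit 10) (.e false (nat_lit 1) (nat_lit 333) (nat_lit 1) (nat_lit 10) (.e false (nat_lit 1) (nat_lit 334) (nat_lit 1) (nat_lit 10) (.e false (nat_lit 1) (nat_lit 300) (nat_lit 2) (nat_lit 9) (.u (nat_lit 2) (.p (nat_lit 0) (nat_lit 1) (.n (nat_lit 2) (nat_lit 2) (.p (nat_lit 3) (nat_lit 1) (.n (nat_lit 4) (nat_lit 2) (.n (nat_lit 5) (nat_lit 1) (.p (nat_lit 6) (nat_lit 2) (.p (nat_lit 7) (nat_lit 1) (.n (nat_lit 8) (nat_lit 2) (.n (nat_lit 11) (nat_lit 3) (.p (nat_lit 13) (nat_lit 1) .z)))))))))) .nil)))))))))))))) .leaf) (nat_lit 191488) (nat_lit 668) (.p (nat_lit 252) (nat_lit 3) (.p (nat_lit 253) (nat_lit 1) (.n (nat_lit 254) (nat_lit 2) (.p (nat_lit 255) (nat_lit 1) (.n (nat_lit 256) (nat_lit 3) (.p (nat_lit 257) (nat_lit 3) (.p (nat_lit 258) (nat_lit 1) (.p (nat_lit 259) (nat_lit 3) (.n (nat_lit 260) (nat_lit 3) (.p (nat_lit 261) (nat_lit 2) (.p (nat_lit 262) (nat_lit 3) (.p (nat_lit 264) (nat_lit 1) (.p (nat_lit 266) (nat_lit 2) (.n (nat_lit 267) (nat_lit 1) (.n (nat_lit 269) (nat_lit 1) (.n (nat_lit 271) (nat_lit 1) (.p (nat_lit 272) (nat_lit 1) (.n (nat_lit 274) (nat_lit 3) (.n (nat_lit 275) (nat_lit 3) (.p (nat_lit 276) (nat_lit 1) (.n (nat_lit 279) (nat_lit 1) (.p (nat_lit 282) (nat_lit 1) (.n (nat_lit 283) (nat_lit 1) (.p (nat_lit 284) (nat_lit 1) (.p (nat_lit 285) (nat_lit 2) (.n (nat_lit 286) (nat_lit 1) (.p (nat_lit 288) (nat_lit 1) .z))))))))))))))))))))))))))) (.ct dC2d_c292 (nat_lit 1) (nat_lit 13) (.s true (nat_lit 1) (nat_lit 41) (nat_lit 2) (nat_lit 0) (nat_lit 2) true (nat_lit 6) true (nat_lit 11) false (nat_lit 2) true (nat_lit 11) true (nat_lit 13) (.e false (nat_lit 1) (nat_lit 61) (nat_lit 7) (nat_lit 6) (.e true (nat_lit 1) (nat_lit 63) (nat_lit 7) (nat_lit 6) (.e false (nat_lit 1) (nat_lit 64) (nat_lit 7) (nat_lit 6) (.e false (nat_lit 1) (nat_lit 66) (nat_lit 7) (nat_lit 6) (.e true (nat_lit 1) (nat_lit 71) (nat_lit 7) (nat_lit 6) (.e true (nat_lit 1) (nat_lit 72) (nat_lit 7) (nat_lit 6) (.e true (nat_lit 1) (nat_lit 73) (nat_lit 7) (nat_lit 6) dC2d_i73))))))))) .leaf))) (nat_lit 191489) (nat_lit 705) (.p (nat_lit 301) (nat_lit 1) .z) .df (.nd (.nd (.nd (.nd .leaf (nat_lit 191490) (nat_lit 815) (.p (nat_lit 326) (nat_lit 1) .z) .df .leaf) (nat_lit 191491) (nat_lit 1012) (.p (nat_lit 335) (nat_lit 2) (.p (nat_lit 336) (nat_lit 2) (.n (nat_lit 337) (nat_lit 3) (.n (nat_lit 338) (nat_lit 2) (.p (nat_lit 339) (nat_lit 3) (.n (nat_lit 340) (nat_lit 1) (.n (nat_lit 341) (nat_lit 2) (.p (nat_lit 342) (nat_lit 3) (.n (nat_lit 343) (nat_lit 3) (.n (nat_lit 344) (nat_lit 2) (.p (nat_lit 345) (nat_lit 2) (.p (nat_lit 346) (nat_lit 2) (.n (nat_lit 347) (nat_lit 1) (.p (nat_lit 349) (nat_lit 1) (.n (nat_lit 350) (nat_lit 3) (.p (nat_lit 351) (nat_lit 3) (.n (nat_lit 352) (nat_lit 2) (.n (nat_lit 353) (nat_lit 1) (.p (nat_lit 354) (nat_lit 2) (.p (nat_lit 355) (nat_lit 3) (.p (nat_lit 356) (nat_lit 1) (.n (nat_lit 357) (nat_lit 1) (.p (nat_lit 358) (nat_lit 2) (.n (nat_lit 359) (nat_lit 3) (.p (nat_lit 361) (nat_lit 2) (.n (nat_lit 362) (nat_lit 3) (.p (nat_lit 363) (nat_lit 3) (.p (nat_lit 364) (nat_lit 3) (.n (nat_lit 366) (nat_lit 1) (.p (nat_lit 367) (nat_lit 2) (.n (nat_lit 368) (nat_lit 2) (.p (nat_lit 370) (nat_lit 3) (.n (nat_lit 372) (nat_lit 3) (.p (nat_lit 373) (nat_lit 2) (.n (nat_lit 374) (nat_lit 3) (.n (nat_lit 379) (nat_lit 1) (.n (nat_lit 380) (nat_lit 3) (.n (nat_lit 381) (nat_lit 2) (.n (nat_lit 382) (nat_lit 1) (.n (nat_lit 383) (nat_lit 3) .z)))))))))))))))))))))))))))))))))))))))) (.ct dC2d_c308 (nat_lit 1) (nat_lit 15) (.s false (nat_lit 1) (nat_lit 18) (nat_lit 1) (nat_lit 2) (nat_lit 11) true (nat_lit 2) true (nat_lit 8) true (nat_lit 5) true (nat_lit 17) true (nat_lit 16) (.s true (nat_lit 1) (nat_lit 93) (nat_lit 0) (nat_lit 1) (nat_lit 2) true (nat_lit 13) true (nat_lit 16) false (nat_lit 8) true (nat_lit 18) true (nat_lit 17) dC2d_i76))) .leaf) (nat_lit 191493) (nat_lit 1310) (.n (nat_lit 397) (nat_lit 2) (.p (nat_lit 399) (nat_lit 3) (.n (nat_lit 400) (nat_lit 1) (.n (nat_lit 401) (nat_lit 2) (.n (nat_lit 402) (nat_lit 2) (.p (nat_lit 403) (nat_lit 1) (.p (nat_lit 404) (nat_lit 3) (.n (nat_lit 405) (nat_lit 3) (.n (nat_lit 406) (nat_lit 3) (.p (nat_lit 407) (nat_lit 3) (.p (nat_lit 408) (nat_lit 3) (.p (nat_lit 410) (nat_lit 3) (.p (nat_lit 411) (nat_lit 1) (.n (nat_lit 412) (nat_lit 2) (.n (nat_lit 413) (nat_lit 2) (.n (nat_lit 414) (nat_lit 3) (.n (nat_lit 415) (nat_lit 2) (.n (nat_lit 419) (nat_lit 1) (.n (nat_lit 421) (nat_lit 1) (.p (nat_lit 423) (nat_lit 1) (.p (nat_lit 424) (nat_lit 2) (.n (nat_lit 426) (nat_lit 2) (.n (nat_lit 430) (nat_lit 2) (.p (nat_lit 431) (nat_lit 1) (.p (nat_lit 432) (nat_lit 1) (.p (nat_lit 435) (nat_lit 2) .z)))))))))))))))))))))))))) (.ct dC2d_c293 (nat_lit 1) (nat_lit 11) (.s false (nat_lit 3) (nat_lit 48) (nat_lit 5) (nat_lit 1) (nat_lit 1) true (nat_lit 7) true (nat_lit 15) false (nat_lit 2) true (nat_lit 11) true (nat_lit 15) (.e false (nat_lit 3) (nat_lit 102) (nat_lit 12) (nat_lit 7) (.e false (nat_lit 3) (nat_lit 104) (nat_lit 12) (nat_lit 7) (.e true (nat_lit 1) (nat_lit 306) (nat_lit 1) (nat_lit 15) (.e false (nat_lit 3) (nat_lit 307) (nat_lit 1) (nat_lit 15) (.e true (nat_lit 3) (nat_lit 308) (nat_lit 1) (nat_lit 15) (.e true (nat_lit 3) (nat_lit 311) (nat_lit 1) (nat_lit 15) (.e true (nat_lit 3) (nat_lit 312) (nat_lit 1) (nat_lit 15) (.e false (nat_lit 1) (nat_lit 313) (nat_lit 1) (nat_lit 15) (.e false (nat_lit 3) (nat_lit 315) (nat_lit 1) (nat_lit 15) (.e false (nat_lit 1) (nat_lit 317) (nat_lit 1) (nat_lit 15) (.e true (nat_lit 3) (nat_lit 48) (nat_lit 27) (nat_lit 2) (.e false (nat_lit 1) (nat_lit 186) (nat_lit 5) (nat_lit 11) (.e true (nat_lit 3) (nat_lit 194) (nat_lit 5) (nat_lit 11) (.e false (nat_lit 3) (nat_lit 318) (nat_lit 1) (nat_lit 15) (.e false (nat_lit 3) (nat_lit 322) (nat_lit 1) (nat_lit 15) (.e false (nat_lit 1) (nat_lit 314) (nat_lit 1) (nat_lit 15) (.u (nat_lit 2) (.n (nat_lit 0) (nat_lit 3) (.n (nat_lit 1) (nat_lit 3) (.n (nat_lit 2) (nat_lit 3) (.n (nat_lit 3) (nat_lit 3) (.n (nat_lit 4) (nat_lit 2) (.p (nat_lit 5) (nat_lit 2) (.p (nat_lit 6) (nat_lit 3) (.n (nat_lit 7) (nat_lit 3) (.p (nat_lit 8) (nat_lit 2) (.n (nat_lit 9) (nat_lit 1) (.p (nat_lit 10) (nat_lit 1) (.n (nat_lit 11) (nat_lit 2) (.n (nat_lit 12) (nat_lit 1) (.n (nat_lit 13) (nat_lit 1) (.n (nat_lit 14) (nat_lit 4) (.p (nat_lit 15) (nat_lit 2) (.p (nat_lit 16) (nat_lit 2) (.p (nat_lit 17) (nat_lit 3) (.n (nat_lit 18) (nat_lit 3) (.p (nat_lit 21) (nat_lit 2) (.n (nat_lit 22) (nat_lit 1) (.n (nat_lit 23) (nat_lit 2) (.n (nat_lit 24) (nat_lit 3) (.p (nat_lit 26) (nat_lit 1) (.n (nat_lit 27) (nat_lit 1) (.p (nat_lit 29) (nat_lit 1) (.p (nat_lit 33) (nat_lit 1) (.p (nat_lit 34) (nat_lit 3) (.p (nat_lit 35) (nat_lit 1) (.n (nat_lit 185) (nat_lit 1) (.p (nat_lit 186) (nat_lit 1) (.n (nat_lit 241) (nat_lit 3) (.p (nat_lit 242) (nat_lit 1) (.p (nat_lit 243) (nat_lit 3) (.p (nat_lit 244) (nat_lit 3) (.p (nat_lit 245) (nat_lit 3) (.p (nat_lit 249) (nat_lit 2) (.n (nat_lit 250) (nat_lit 1) (.n (nat_lit 251) (nat_lit 3) (.n (nat_lit 253) (nat_lit 1) .z)))))))))))))))))))))))))))))))))))))))) .nil))))))))))))))))))) (.nd (.nd .leaf (nat_lit 192512) (nat_lit 660) (.p (nat_lit 252) (nat_lit 2) (.p (nat_lit 253) (nat_lit 2) (.p (nat_lit 254) (nat_lit 3) (.p (nat_lit 255) (nat_lit 3) (.n (nat_lit 256) (nat_lit 2) (.p (nat_lit 257) (nat_lit 2) (.p (nat_lit 258) (nat_lit 1) (.p (nat_lit 259) (nat_lit 3) (.p (nat_lit 260) (nat_lit 3) (.n (nat_lit 261) (nat_lit 2) (.p (nat_lit 262) (nat_lit 1) (.p (nat_lit 263) (nat_lit 2) (.p (nat_lit 264) (nat_lit 3) (.p (nat_lit 265) (nat_lit 1) (.n (nat_lit 266) (nat_lit 3) (.n (nat_lit 267) (nat_lit 1) (.n (nat_lit 268) (nat_lit 1) (.p (nat_lit 270) (nat_lit 1) (.n (nat_lit 271) (nat_lit 2) (.n (nat_lit 273) (nat_lit 1) (.p (nat_lit 274) (nat_lit 3) (.p (nat_lit 275) (nat_lit 2) (.p (nat_lit 276) (nat_lit 3) (.p (nat_lit 277) (nat_lit 1) (.p (nat_lit 279) (nat_lit 1) (.p (nat_lit 280) (nat_lit 1) (.n (nat_lit 281) (nat_lit 1) (.n (nat_lit 282) (nat_lit 1) (.p (nat_lit 283) (nat_lit 3) (.p (nat_lit 284) (nat_lit 1) (.n (nat_lit 285) (nat_lit 2) (.n (nat_lit 286) (nat_lit 1) (.p (nat_lit 288) (nat_lit 1) .z))))))))))))))))))))))))))))))))) (.ct dC2d_c292 (nat_lit 1) (nat_lit 13) (.s true (nat_lit 1) (nat_lit 45) (nat_lit 2) (nat_lit 0) (nat_lit 1) true (nat_lit 7) true (nat_lit 12) false (nat_lit 4) true (nat_lit 11) true (nat_lit 13) (.e false (nat_lit 1) (nat_lit 87) (nat_lit 6) (nat_lit 7) dC2d_i77))) .leaf) (nat_lit 192513) (nat_lit 706) (.p (nat_lit 302) (nat_lit 1) .z) .df .leaf)) (nat_lit 192514) (nat_lit 816) (.p (nat_lit 327) (nat_lit 1) .z) .df (.nd (.nd (.nd .leaf (nat_lit 192517) (nat_lit 1365) (.n (nat_lit 397) (nat_lit 2) (.n (nat_lit 399) (nat_lit 1) (.p (nat_lit 400) (nat_lit 1) (.n (nat_lit 402) (nat_lit 3) (.n (nat_lit 403) (nat_lit 1) (.p (nat_lit 404) (nat_lit 1) (.p (nat_lit 405) (nat_lit 1) (.n (nat_lit 406) (nat_lit 3) (.p (nat_lit 408) (nat_lit 2) (.p (nat_lit 409) (nat_lit 1) (.n (nat_lit 410) (nat_lit 2) (.p (nat_lit 411) (nat_lit 3) (.n (nat_lit 413) (nat_lit 1) (.p (nat_lit 416) (nat_lit 2) (.n (nat_lit 417) (nat_lit 1) (.p (nat_lit 418) (nat_lit 1) (.n (nat_lit 420) (nat_lit 1) (.p (nat_lit 421) (nat_lit 2) (.p (nat_lit 422) (nat_lit 2) (.p (nat_lit 423) (nat_lit 2) (.n (nat_lit 424) (nat_lit 1) (.p (nat_lit 425) (nat_lit 1) (.n (nat_lit 426) (nat_lit 1) (.p (nat_lit 427) (nat_lit 3) (.n (nat_lit 428) (nat_lit 3) (.p (nat_lit 429) (nat_lit 1) (.n (nat_lit 431) (nat_lit 2) (.p (nat_lit 432) (nat_lit 3) (.n (nat_lit 433) (nat_lit 2) (.p (nat_lit 434) (nat_lit 1) (.p (nat_lit 435) (nat_lit 1) .z))))))))))))))))))))))))))))))) (.ct dC2d_c293 (nat_lit 1) (nat_lit 11) (.s true (nat_lit 1) (nat_lit 94) (nat_lit 2) (nat_lit 2) (nat_lit 0) true (nat_lit 11) true (nat_lit 16) false (nat_lit 5) true (nat_lit 14) true (nat_lit 14) (.e true (nat_lit 1) (nat_lit 327) (nat_lit 0) (nat_lit 16) (.e false (nat_lit 1) (nat_lit 94) (nat_lit 17) (nat_lit 5) dC2d_i78)))) .leaf) (nat_lit 193536) (nat_lit 691) (.n (nat_lit 252) (nat_lit 2) (.p (nat_lit 253) (nat_lit 3) (.n (nat_lit 254) (nat_lit 3) (.p (nat_lit 255) (nat_lit 2) (.n (nat_lit 256) (nat_lit 3) (.n (nat_lit 257) (nat_lit 2) (.p (nat_lit 258) (nat_lit 1) (.p (nat_lit 259) (nat_lit 3) (.n (nat_lit 260) (nat_lit 1) (.n (nat_lit 261) (nat_lit 1) (.n (nat_lit 262) (nat_lit 2) (.n (nat_lit 263) (nat_lit 2) (.n (nat_lit 264) (nat_lit 3) (.n (nat_lit 265) (nat_lit 3) (.n (nat_lit 266) (nat_lit 1) (.n (nat_lit 267) (nat_lit 1) (.p (nat_lit 268) (nat_lit 2) (.p (nat_lit 269) (nat_lit 1) (.n (nat_lit 270) (nat_lit 1) (.n (nat_lit 271) (nat_lit 3) (.p (nat_lit 272) (nat_lit 1) (.n (nat_lit 273) (nat_lit 2) (.p (nat_lit 276) (nat_lit 1) (.n (nat_lit 277) (nat_lit 1) (.n (nat_lit 279) (nat_lit 3) (.n (nat_lit 280) (nat_lit 2) (.p (nat_lit 281) (nat_lit 2) (.p (nat_lit 282) (nat_lit 2) (.n (nat_lit 283) (nat_lit 1) (.p (nat_lit 284) (nat_lit 1) (.p (nat_lit 285) (nat_lit 3) (.n (nat_lit 288) (nat_lit 1) .z)))))))))))))))))))))))))))))))) (.ct dC2d_c292 (nat_lit 1) (nat_lit 13) (.s false (nat_lit 1) (nat_lit 15) (nat_lit 2) (nat_lit 0) (nat_lit 7) true (nat_lit 0) true (nat_lit 6) true (nat_lit 3) true (nat_lit 11) true (nat_lit 13) (.e false (nat_lit 1) (nat_lit 29) (nat_lit 20) (nat_lit 0) (.e false (nat_lit 1) (nat_lit 71) (nat_lit 7) (nat_lit 6) (.e true (nat_lit 1) (nat_lit 43) (nat_lit 15) (nat_lit 3) (.e true (nat_lit 1) (nat_lit 44) (nat_lit 15) (nat_lit 3) (.e true (nat_lit 1) (nat_lit 136) (nat_lit 2) (nat_lit 11) (.e true (nat_lit 1) (nat_lit 137) (nat_lit 2) (nat_lit 11) (.e true (nat_lit 1) (nat_lit 141) (nat_lit 2) (nat_lit 11) (.e false (nat_lit 1) (nat_lit 145) (nat_lit 2) (nat_lit 11) (.e false (nat_lit 1) (nat_lit 151) (nat_lit 2) (nat_lit 11) (.e false (nat_lit 1) (nat_lit 156) (nat_lit 2) (nat_lit 11) (.e true (nat_lit 1) (nat_lit 185) (nat_lit 0) (nat_lit 13) (.e false (nat_lit 2) (nat_lit 186) (nat_lit 0) (nat_lit 13) (.e false (nat_lit 2) (nat_lit 187) (nat_lit 0) (nat_lit 13) (.e true (nat_lit 2) (nat_lit 188) (nat_lit 0) (nat_lit 13) (.e false (nat_lit 1) (nat_lit 190) (nat_lit 0) (nat_lit 13) (.u (nat_lit 2) (.p (nat_lit 0) (nat_lit 1) (.n (nat_lit 1) (nat_lit 1) (.n (nat_lit 2) (nat_lit 1) (.n (nat_lit 3) (nat_lit 1) (.p (nat_lit 5) (nat_lit 1) (.n (nat_lit 7) (nat_lit 1) (.n (nat_lit 8) (nat_lit 1) (.p (nat_lit 9) (nat_lit 2) (.p (nat_lit 12) (nat_lit 1) (.n (nat_lit 13) (nat_lit 1) (.p (nat_lit 14) (nat_lit 2) (.p (nat_lit 15) (nat_lit 1) (.p (nat_lit 17) (nat_lit 1) (.p (nat_lit 18) (nat_lit 1) (.p (nat_lit 19) (nat_lit 1) (.n (nat_lit 20) (nat_lit 1) (.n (nat_lit 23) (nat_lit 3) (.n (nat_lit 24) (nat_lit 1) (.n (nat_lit 30) (nat_lit 1) (.n (nat_lit 31) (nat_lit 1) .z)))))))))))))))))))) .nil)))))))))))))))))) .leaf) (nat_lit 193537) (nat_lit 716) (.p (nat_lit 289) (nat_lit 1) (.p (nat_lit 291) (nat_lit 2) (.n (nat_lit 292) (nat_lit 1) (.n (nat_lit 293) (nat_lit 2) (.p (nat_lit 294) (nat_lit 2) (.n (nat_lit 295) (nat_lit 3) (.p (nat_lit 296) (nat_lit 3) (.p (nat_lit 297) (nat_lit 2) (.n (nat_lit 298) (nat_lit 3) (.n (nat_lit 299) (nat_lit 1) (.p (nat_lit 300) (nat_lit 1) (.p (nat_lit 301) (nat_lit 3) (.n (nat_lit 302) (nat_lit 2) (.p (nat_lit 303) (nat_lit 3) (.n (nat_lit 304) (nat_lit 3) .z))))))))))))))) (.ct dC2d_c52 (nat_lit 1) (nat_lit 8) (.s true (nat_lit 3) (nat_lit 7) (nat_lit 2) (nat_lit 6) (nat_lit 4) true (nat_lit 2) true (nat_lit 6) true (nat_lit 4) true (nat_lit 7) true (nat_lit 5) (.s false (nat_lit 1) (nat_lit 7) (nat_lit 4) (nat_lit 6) (nat_lit 2) true (nat_lit 2) true (nat_lit 7) true (nat_lit 4) true (nat_lit 6) true (nat_lit 5) (.s true (nat_lit 1) (nat_lit 7) (nat_lit 6) (nat_lit 4) (nat_lit 2) true (nat_lit 1) true (nat_lit 7) true (nat_lit 4) true (nat_lit 5) true (nat_lit 6) (.s false (nat_lit 1) (nat_lit 14) (nat_lit 2) (nat_lit 1) (nat_lit 7) true (nat_lit 0) true (nat_lit 4) true (nat_lit 2) true (nat_lit 7) true (nat_lit 8) (.s false (nat_lit 2) (nat_lit 15) (nat_lit 2) (nat_lit 2) (nat_lit 6) true (nat_lit 1) true (nat_lit 5) true (nat_lit 2) true (nat_lit 7) true (nat_lit 7) (.s true (nat_lit 1) (nat_lit 14) (nat_lit 6) (nat_lit 2) (nat_lit 2) true (nat_lit 1) true (nat_lit 7) true (nat_lit 2) true (nat_lit 5) true (nat_lit 7) (.s true (nat_lit 2) (nat_lit 18) (nat_lit 2) (nat_lit 1) (nat_lit 6) true (nat_lit 1) true (nat_lit 5) true (nat_lit 1) true (nat_lit 7) true (nat_lit 8) (.s false (nat_lit 2) (nat_lit 19) (nat_lit 2) (nat_lit 2) (nat_lit 4) true (nat_lit 2) true (nat_lit 6) true (nat_lit 1) true (nat_lit 7) true (nat_lit 7) (.s true (nat_lit 1) (nat_lit 18) (nat_lit 4) (nat_lit 2) (nat_lit 2) true (nat_lit 2) true (nat_lit 7) true (nat_lit 1) true (nat_lit 6) true (nat_lit 7) (.s true (nat_lit 1) (nat_lit 20) (nat_lit 1) (nat_lit 2) (nat_lit 4) true (nat_lit 3) true (nat_lit 6) true (nat_lit 0) true (nat_lit 8) true (nat_lit 7) (.s false (nat_lit 2) (nat_lit 20) (nat_lit 1) (nat_lit 4) (nat_lit 2) true (nat_lit 5) true (nat_lit 7) true (nat_lit 0) true (nat_lit 8) true (nat_lit 6) (.s true (nat_lit 2) (nat_lit 20) (nat_lit 2) (nat_lit 1) (nat_lit 4) true (nat_lit 2) true (nat_lit 6) true (nat_lit 0) true (nat_lit 7) true (nat_lit 8) (.s true (nat_lit 3) (nat_lit 39) (nat_lit 1) (nat_lit 2) (nat_lit 2) true (nat_lit 5) true (nat_lit 7) false (nat_lit 1) true (nat_lit 8) true (nat_lit 7) (.s false (nat_lit 3) (nat_lit 39) (nat_lit 2) (nat_lit 1) (nat_lit 2) true (nat_lit 4) true (nat_lit 7) false (nat_lit 1) true (nat_lit 7) true (nat_lit 8) (.s true (nat_lit 3) (nat_lit 40) (nat_lit 2) (nat_lit 2) (nat_lit 1) true (nat_lit 5) true (nat_lit 8) false (nat_lit 1) true (nat_lit 7) true (nat_lit 7) (.s false (nat_lit 3) (nat_lit 41) (nat_lit 2) (nat_lit 2) (nat_lit 1) true (nat_lit 5) true (nat_lit 8) false (nat_lit 1) true (nat_lit 7) true (nat_lit 7) (.s false (nat_lit 3) (nat_lit 47) (nat_lit 1) (nat_lit 2) (nat_lit 1) true (nat_lit 6) true (nat_lit 8) false (nat_lit 2) true (nat_lit 8) true (nat_lit 7) (.s false (nat_lit 2) (nat_lit 46) (nat_lit 2) (nat_lit 1) (nat_lit 1) true (nat_lit 5) true (nat_lit 8) false (nat_lit 2) true (nat_lit 7) true (nat_lit 8) dC2d_i79))))))))))))))))))) (.nd .leaf (nat_lit 193538) (nat_lit 817) (.p (nat_lit 328) (nat_lit 1) .z) .df .leaf)))) (nat_lit 193541) (nat_lit 1366) (.p (nat_lit 397) (nat_lit 3) (.n (nat_lit 398) (nat_lit 1) (.n (nat_lit 399) (nat_lit 1) (.p (nat_lit 400) (nat_lit 1) (.p (nat_lit 401) (nat_lit 1) (.p (nat_lit 402) (nat_lit 1) (.n (nat_lit 404) (nat_lit 1) (.n (nat_lit 405) (nat_lit 3) (.p (nat_lit 406) (nat_lit 2) (.n (nat_lit 407) (nat_lit 1) (.n (nat_lit 408) (nat_lit 2) (.n (nat_lit 409) (nat_lit 3) (.p (nat_lit 410) (nat_lit 3) (.p (nat_lit 411) (nat_lit 3) (.p (nat_lit 412) (nat_lit 2) (.n (nat_lit 413) (nat_lit 3) (.p (nat_lit 414) (nat_lit 1) (.n (nat_lit 415) (nat_lit 3) (.n (nat_lit 416) (nat_lit 1) (.p (nat_lit 417) (nat_lit 2) (.n (nat_lit 420) (nat_lit 1) (.n (nat_lit 421) (nat_lit 1) (.p (nat_lit 422) (nat_lit 3) (.p (nat_lit 423) (nat_lit 3) (.p (nat_lit 424) (nat_lit 2) (.n (nat_lit 425) (nat_lit 2) (.p (nat_lit 426) (nat_lit 2) (.p (nat_lit 427) (nat_lit 1) (.n (nat_lit 428) (nat_lit 1) (.n (nat_lit 429) (nat_lit 2) (.p (nat_lit 431) (nat_lit 1) (.n (nat_lit 432) (nat_lit 3) (.n (nat_lit 433) (nat_lit 3) (.n (nat_lit 434) (nat_lit 2) (.p (nat_lit 435) (nat_lit 1) .z))))))))))))))))))))))))))))))))))) (.ct dC2d_c293 (nat_lit 1) (nat_lit 11) (.s true (nat_lit 1) (nat_lit 48) (nat_lit 1) (nat_lit 5) (nat_lit 1) true (nat_lit 12) true (nat_lit 15) false (nat_lit 2) true (nat_lit 15) true (nat_lit 11) (.e true (nat_lit 1) (nat_lit 197) (nat_lit 4) (nat_lit 12) (.e false (nat_lit 1) (nat_lit 198) (nat_lit 4) (nat_lit 12) (.e true (nat_lit 1) (nat_lit 199) (nat_lit 4) (nat_lit 12) (.e true (nat_lit 3) (nat_lit 307) (nat_lit 1) (nat_lit 15) (.e false (nat_lit 2) (nat_lit 308) (nat_lit 1) (nat_lit 15) (.e true (nat_lit 1) (nat_lit 310) (nat_lit 1) (nat_lit 15) (.e true (nat_lit 3) (nat_lit 313) (nat_lit 1) (nat_lit 15) (.e true (nat_lit 2) (nat_lit 315) (nat_lit 1) (nat_lit 15) (.e false (nat_lit 1) (nat_lit 318) (nat_lit 1) (nat_lit 15) (.e false (nat_lit 2) (nat_lit 322) (nat_lit 1) (nat_lit 15) (.e true (nat_lit 2) (nat_lit 305) (nat_lit 1) (nat_lit 15) (.e false (nat_lit 2) (nat_lit 309) (nat_lit 1) (nat_lit 15) (.e true (nat_lit 3) (nat_lit 314) (nat_lit 1) (nat_lit 15) (.e false (nat_lit 1) (nat_lit 48) (nat_lit 27) (nat_lit 2) (.e true (nat_lit 1) (nat_lit 185) (nat_lit 5) (nat_lit 11) (.e false (nat_lit 1) (nat_lit 186) (nat_lit 5) (nat_lit 11) (.e false (nat_lit 3) (nat_lit 187) (nat_lit 5) (nat_lit 11) (.e true (nat_lit 2) (nat_lit 188) (nat_lit 5) (nat_lit 11) (.e false (nat_lit 1) (nat_lit 193) (nat_lit 5) (nat_lit 11) (.u (nat_lit 2) (.n (nat_lit 1) (nat_lit 1) (.p (nat_lit 2) (nat_lit 1) (.n (nat_lit 3) (nat_lit 1) (.n (nat_lit 4) (nat_lit 2) (.n (nat_lit 5) (nat_lit 1) (.p (nat_lit 6) (nat_lit 1) (.p (nat_lit 7) (nat_lit 1) (.n (nat_lit 8) (nat_lit 1) (.n (nat_lit 9) (nat_lit 1) (.p (nat_lit 10) (nat_lit 1) (.p (nat_lit 11) (nat_lit 1) (.n (nat_lit 14) (nat_lit 3) (.n (nat_lit 15) (nat_lit 1) (.n (nat_lit 18) (nat_lit 2) (.n (nat_lit 19) (nat_lit 1) (.p (nat_lit 23) (nat_lit 1) (.n (nat_lit 24) (nat_lit 1) (.n (nat_lit 25) (nat_lit 1) (.n (nat_lit 26) (nat_lit 1) (.p (nat_lit 27) (nat_lit 1) (.n (nat_lit 29) (nat_lit 1) (.n (nat_lit 30) (nat_lit 1) (.p (nat_lit 31) (nat_lit 1) (.n (nat_lit 33) (nat_lit 1) (.p (nat_lit 34) (nat_lit 2) (.p (nat_lit 35) (nat_lit 1) (.p (nat_lit 36) (nat_lit 1) (.p (nat_lit 38) (nat_lit 1) (.p (nat_lit 243) (nat_lit 1) (.p (nat_lit 249) (nat_lit 1) .z)))))))))))))))))))))))))))))) .nil)))))))))))))))))))))) (.nd (.nd (.nd (.nd (.nd .leaf (nat_lit 193542) (nat_lit 1423) (.p (nat_lit 439) (nat_lit 2) (.n (nat_lit 440) (nat_lit 3) (.n (nat_lit 441) (nat_lit 2) (.n (nat_lit 442) (nat_lit 1) (.n (nat_lit 443) (nat_lit 2) (.p (nat_lit 444) (nat_lit 1) (.n (nat_lit 446) (nat_lit 2) (.n (nat_lit 447) (nat_lit 2) (.p (nat_lit 448) (nat_lit 3) (.n (nat_lit 449) (nat_lit 2) (.p (nat_lit 450) (nat_lit 3) .z))))))))))) (.ct dC2d_c53 (nat_lit 1) (nat_lit 7) (.s false (nat_lit 1) (nat_lit 18) (nat_lit 2) (nat_lit 1) (nat_lit 18) false (nat_lit 0) true (nat_lit 3) true (nat_lit 3) true (nat_lit 9) true (nat_lit 10) (.s false (nat_lit 1) (nat_lit 20) (nat_lit 2) (nat_lit 15) (nat_lit 1) true (nat_lit 7) true (nat_lit 10) true (nat_lit 2) true (nat_lit 9) true (nat_lit 4) (.s false (nat_lit 1) (nat_lit 40) (nat_lit 2) (nat_lit 1) (nat_lit 7) true (nat_lit 2) true (nat_lit 6) true (nat_lit 0) true (nat_lit 9) true (nat_lit 10) (.s false (nat_lit 1) (nat_lit 40) (nat_lit 2) (nat_lit 2) (nat_lit 6) true (nat_lit 3) true (nat_lit 7) true (nat_lit 0) true (nat_lit 9) true (nat_lit 9) (.s true (nat_lit 1) (nat_lit 41) (nat_lit 2) (nat_lit 6) (nat_lit 2) true (nat_lit 6) true (nat_lit 9) true (nat_lit 0) true (nat_lit 9) true (nat_lit 7) (.s true (nat_lit 1) (nat_lit 46) (nat_lit 1) (nat_lit 2) (nat_lit 6) true (nat_lit 4) true (nat_lit 7) false (nat_lit 0) true (nat_lit 10) true (nat_lit 9) (.s true (nat_lit 1) (nat_lit 46) (nat_lit 2) (nat_lit 1) (nat_lit 6) true (nat_lit 3) true (nat_lit 7) false (nat_lit 0) true (nat_lit 9) true (nat_lit 10) (.s true (nat_lit 1) (nat_lit 91) (nat_lit 1) (nat_lit 2) (nat_lit 2) true (nat_lit 7) true (nat_lit 9) false (nat_lit 3) true (nat_lit 10) true (nat_lit 9) (.s false (nat_lit 1) (nat_lit 92) (nat_lit 1) (nat_lit 2) (nat_lit 2) true (nat_lit 7) true (nat_lit 9) false (nat_lit 3) true (nat_lit 10) true (nat_lit 9) (.s false (nat_lit 1) (nat_lit 93) (nat_lit 1) (nat_lit 2) (nat_lit 2) true (nat_lit 7) true (nat_lit 9) false (nat_lit 3) true (nat_lit 10) true (nat_lit 9) (.s false (nat_lit 1) (nat_lit 102) (nat_lit 2) (nat_lit 1) (nat_lit 1) true (nat_lit 7) true (nat_lit 10) false (nat_lit 4) true (nat_lit 9) true (nat_lit 10) (.s true (nat_lit 1) (nat_lit 103) (nat_lit 2) (nat_lit 1) (nat_lit 1) true (nat_lit 7) true (nat_lit 10) false (nat_lit 4) true (nat_lit 9) true (nat_lit 10) (.e false (nat_lit 1) (nat_lit 96) (nat_lit 18) (nat_lit 3) (.e false (nat_lit 3) (nat_lit 289) (nat_lit 2) (nat_lit 9) (.e true (nat_lit 2) (nat_lit 290) (nat_lit 2) (nat_lit 9) (.e false (nat_lit 1) (nat_lit 291) (nat_lit 2) (nat_lit 9) (.e true (nat_lit 3) (nat_lit 292) (nat_lit 2) (nat_lit 9) dC2d_i80)))))))))))))))))) .leaf) (nat_lit 194560) (nat_lit 683) (.n (nat_lit 252) (nat_lit 1) (.p (nat_lit 253) (nat_lit 3) (.n (nat_lit 258) (nat_lit 2) (.p (nat_lit 259) (nat_lit 1) (.n (nat_lit 260) (nat_lit 1) (.n (nat_lit 261) (nat_lit 2) (.n (nat_lit 264) (nat_lit 3) (.p (nat_lit 265) (nat_lit 1) (.n (nat_lit 266) (nat_lit 1) (.p (nat_lit 267) (nat_lit 1) (.p (nat_lit 269) (nat_lit 2) (.p (nat_lit 270) (nat_lit 2) (.n (nat_lit 271) (nat_lit 3) (.n (nat_lit 272) (nat_lit 1) (.n (nat_lit 273) (nat_lit 3) (.p (nat_lit 274) (nat_lit 1) (.p (nat_lit 275) (nat_lit 2) (.p (nat_lit 276) (nat_lit 3) (.n (nat_lit 277) (nat_lit 2) (.n (nat_lit 279) (nat_lit 2) (.n (nat_lit 282) (nat_lit 3) (.p (nat_lit 283) (nat_lit 3) (.n (nat_lit 285) (nat_lit 3) (.n (nat_lit 286) (nat_lit 2) (.p (nat_lit 288) (nat_lit 2) .z))))))))))))))))))))))))) (.ct dC2d_c292 (nat_lit 1) (nat_lit 13) (.s true (nat_lit 1) (nat_lit 20) (nat_lit 2) (nat_lit 0) (nat_lit 4) true (nat_lit 3) true (nat_lit 9) true (nat_lit 0) true (nat_lit 11) true (nat_lit 13) (.e true (nat_lit 1) (nat_lit 44) (nat_lit 14) (nat_lit 3) (.e true (nat_lit 1) (nat_lit 98) (nat_lit 4) (nat_lit 9) (.e false (nat_lit 1) (nat_lit 100) (nat_lit 4) (nat_lit 9) (.e false (nat_lit 1) (nat_lit 24) (nat_lit 20) (nat_lit 0) (.e true (nat_lit 1) (nat_lit 26) (nat_lit 20) (nat_lit 0) (.e false (nat_lit 1) (nat_lit 28) (nat_lit 20) (nat_lit 0) (.e false (nat_lit 1) (nat_lit 29) (nat_lit 20) (nat_lit 0) (.e true (nat_lit 2) (nat_lit 132) (nat_lit 2) (nat_lit 11) (.e true (nat_lit 1) (nat_lit 134) (nat_lit 2) (nat_lit 11) (.e false (nat_lit 2) (nat_lit 136) (nat_lit 2) (nat_lit 11) (.e true (nat_lit 2) (nat_lit 137) (nat_lit 2) (nat_lit 11) (.e false (nat_lit 2) (nat_lit 138) (nat_lit 2) (nat_lit 11) (.e false (nat_lit 1) (nat_lit 139) (nat_lit 2) (nat_lit 11) (.e true (nat_lit 1) (nat_lit 140) (nat_lit 2) (nat_lit 11) (.e true (nat_lit 1) (nat_lit 142) (nat_lit 2) (nat_lit 11) (.e true (nat_lit 2) (nat_lit 143) (nat_lit 2) (nat_lit 11) (.e true (nat_lit 2) (nat_lit 144) (nat_lit 2) (nat_lit 11) (.e true (nat_lit 1) (nat_lit 145) (nat_lit 2) (nat_lit 11) (.e false (nat_lit 1) (nat_lit 153) (nat_lit 2) (nat_lit 11) (.e true (nat_lit 2) (nat_lit 186) (nat_lit 0) (nat_lit 13) (.e false (nat_lit 2) (nat_lit 187) (nat_lit 0) (nat_lit 13) (.u (nat_lit 2) (.p (nat_lit 0) (nat_lit 1) (.p (nat_lit 3) (nat_lit 2) (.n (nat_lit 4) (nat_lit 1) (.p (nat_lit 5) (nat_lit 1) (.p (nat_lit 7) (nat_lit 1) (.n (nat_lit 8) (nat_lit 1) (.n (nat_lit 9) (nat_lit 1) (.p (nat_lit 12) (nat_lit 1) (.n (nat_lit 15) (nat_lit 1) (.n (nat_lit 17) (nat_lit 1) (.n (nat_lit 18) (nat_lit 1) (.p (nat_lit 19) (nat_lit 1) (.n (nat_lit 20) (nat_lit 1) (.n (nat_lit 22) (nat_lit 2) (.n (nat_lit 24) (nat_lit 1) (.p (nat_lit 25) (nat_lit 1) (.p (nat_lit 30) (nat_lit 1) .z))))))))))))))))) .nil)))))))))))))))))))))))) .leaf) (nat_lit 194561) (nat_lit 718) (.p (nat_lit 289) (nat_lit 3) (.n (nat_lit 290) (nat_lit 2) (.n (nat_lit 291) (nat_lit 1) (.n (nat_lit 292) (nat_lit 1) (.n (nat_lit 293) (nat_lit 2) (.p (nat_lit 294) (nat_lit 1) (.n (nat_lit 295) (nat_lit 2) (.n (nat_lit 296) (nat_lit 2) (.p (nat_lit 298) (nat_lit 3) (.n (nat_lit 300) (nat_lit 2) (.p (nat_lit 301) (nat_lit 2) (.p (nat_lit 303) (nat_lit 1) (.n (nat_lit 304) (nat_lit 1) .z))))))))))))) (.ct dC2d_c52 (nat_lit 1) (nat_lit 8) (.s false (nat_lit 3) (nat_lit 7) (nat_lit 4) (nat_lit 2) (nat_lit 6) false (nat_lit 0) true (nat_lit 5) true (nat_lit 4) true (nat_lit 6) true (nat_lit 7) (.s false (nat_lit 3) (nat_lit 7) (nat_lit 4) (nat_lit 6) (nat_lit 2) true (nat_lit 2) true (nat_lit 7) true (nat_lit 4) true (nat_lit 6) true (nat_lit 5) (.s true (nat_lit 3) (nat_lit 14) (nat_lit 2) (nat_lit 7) (nat_lit 1) true (nat_lit 5) true (nat_lit 8) true (nat_lit 2) true (nat_lit 7) true (nat_lit 4) (.s false (nat_lit 3) (nat_lit 14) (nat_lit 7) (nat_lit 1) (nat_lit 2) true (nat_lit 0) true (nat_lit 7) true (nat_lit 2) true (nat_lit 4) true (nat_lit 8) (.s false (nat_lit 1) (nat_lit 20) (nat_lit 1) (nat_lit 2) (nat_lit 4) true (nat_lit 3) true (nat_lit 6) true (nat_lit 0) true (nat_lit 8) true (nat_lit 7) dC2d_i81)))))) (.nd (.nd .leaf (nat_lit 194562) (nat_lit 818) (.p (nat_lit 329) (nat_lit 1) .z) .df .leaf) (nat_lit 194563) (nat_lit 1061) (.n (nat_lit 335) (nat_lit 1) (.p (nat_lit 336) (nat_lit 2) (.n (nat_lit 337) (nat_lit 3) (.n (nat_lit 338) (nat_lit 2) (.p (nat_lit 339) (nat_lit 3) (.n (nat_lit 340) (nat_lit 3) (.p (nat_lit 341) (nat_lit 1) (.p (nat_lit 342) (nat_lit 1) (.p (nat_lit 344) (nat_lit 1) (.p (nat_lit 345) (nat_lit 1) (.n (nat_lit 346) (nat_lit 2) (.n (nat_lit 349) (nat_lit 2) (.n (nat_lit 350) (nat_lit 3) (.n (nat_lit 351) (nat_lit 1) (.p (nat_lit 352) (nat_lit 3) (.p (nat_lit 353) (nat_lit 3) (.p (nat_lit 354) (nat_lit 2) (.p (nat_lit 356) (nat_lit 2) (.n (nat_lit 357) (nat_lit 2) (.n (nat_lit 358) (nat_lit 1) (.p (nat_lit 359) (nat_lit 1) (.p (nat_lit 360) (nat_lit 2) (.n (nat_lit 361) (nat_lit 1) (.p (nat_lit 363) (nat_lit 1) (.p (nat_lit 364) (nat_lit 1) (.n (nat_lit 366) (nat_lit 2) (.p (nat_lit 367) (nat_lit 3) (.p (nat_lit 369) (nat_lit 2) (.n (nat_lit 371) (nat_lit 3) (.p (nat_lit 372) (nat_lit 3) (.p (nat_lit 374) (nat_lit 2) (.p (nat_lit 379) (nat_lit 3) (.n (nat_lit 380) (nat_lit 3) (.n (nat_lit 381) (nat_lit 2) (.p (nat_lit 382) (nat_lit 3) (.p (nat_lit 383) (nat_lit 2) .z)))))))))))))))))))))))))))))))))))) (.ct dC2d_c308 (nat_lit 1) (nat_lit 15) (.s false (nat_lit 3) (nat_lit 20) (nat_lit 3) (nat_lit 1) (nat_lit 6) true (nat_lit 2) true (nat_lit 12) true (nat_lit 4) true (nat_lit 15) true (nat_lit 17) (.e false (nat_lit 3) (nat_lit 47) (nat_lit 25) (nat_lit 2) (.e false (nat_lit 3) (nat_lit 47) (nat_lit 26) (nat_lit 2) (.e true (nat_lit 3) (nat_lit 47) (nat_lit 27) (nat_lit 2) (.e false (nat_lit 3) (nat_lit 47) (nat_lit 29) (nat_lit 2) (.e true (nat_lit 3) (nat_lit 132) (nat_lit 6) (nat_lit 12) (.e true (nat_lit 3) (nat_lit 133) (nat_lit 6) (nat_lit 12) dC2d_i82)))))))) .leaf)) (nat_lit 194565) (nat_lit 1304) (.n (nat_lit 397) (nat_lit 1) (.p (nat_lit 398) (nat_lit 3) (.p (nat_lit 399) (nat_lit 1) (.n (nat_lit 400) (nat_lit 1) (.p (nat_lit 401) (nat_lit 3) (.p (nat_lit 402) (nat_lit 1) (.n (nat_lit 403) (nat_lit 1) (.p (nat_lit 404) (nat_lit 3) (.n (nat_lit 406) (nat_lit 3) (.p (nat_lit 407) (nat_lit 1) (.p (nat_lit 408) (nat_lit 2) (.p (nat_lit 409) (nat_lit 3) (.n (nat_lit 410) (nat_lit 2) (.p (nat_lit 411) (nat_lit 3) (.p (nat_lit 412) (nat_lit 3) (.p (nat_lit 413) (nat_lit 3) (.p (nat_lit 415) (nat_lit 3) (.p (nat_lit 416) (nat_lit 2) (.n (nat_lit 418) (nat_lit 1) (.p (nat_lit 419) (nat_lit 3) (.p (nat_lit 420) (nat_lit 2) (.n (nat_lit 421) (nat_lit 2) (.n (nat_lit 423) (nat_lit 3) (.p (nat_lit 424) (nat_lit 1) (.n (nat_lit 426) (nat_lit 1) (.n (nat_lit 430) (nat_lit 1) (.n (nat_lit 431) (nat_lit 3) .z))))))))))))))))))))))))))) (.ct dC2d_c293 (nat_lit 1) (nat_lit 11) (.s false (nat_lit 1) (nat_lit 20) (nat_lit 2) (nat_lit 14) (nat_lit 0) true (nat_lit 11) true (nat_lit 16) true (nat_lit 3) true (nat_lit 14) true (nat_lit 6) (.e false (nat_lit 1) (nat_lit 194) (nat_lit 5) (nat_lit 11) (.e true (nat_lit 1) (nat_lit 329) (nat_lit 0) (nat_lit 16) dC2d_i83)))) (.nd (.nd (.nd .leaf (nat_lit 194566) (nat_lit 1402) (.n (nat_lit 436) (nat_lit 1) (.p (nat_lit 437) (nat_lit 3) (.n (nat_lit 438) (nat_lit 1) (.n (nat_lit 439) (nat_lit 3) (.p (nat_lit 440) (nat_lit 1) (.p (nat_lit 441) (nat_lit 1) (.n (nat_lit 442) (nat_lit 2) (.n (nat_lit 443) (nat_lit 1) (.p (nat_lit 444) (nat_lit 2) (.p (nat_lit 445) (nat_lit 2) (.n (nat_lit 447) (nat_lit 1) (.p (nat_lit 448) (nat_lit 1) (.p (nat_lit 450) (nat_lit 3) .z))))))))))))) (.ct dC2d_c53 (nat_lit 1) (nat_lit 7) (.s true (nat_lit 3) (nat_lit 14) (nat_lit 7) (nat_lit 1) (nat_lit 7) false (nat_lit 1) true (nat_lit 6) true (nat_lit 4) true (nat_lit 6) true (nat_lit 10) (.s true (nat_lit 2) (nat_lit 18) (nat_lit 2) (nat_lit 2) (nat_lit 14) true (nat_lit 0) true (nat_lit 4) true (nat_lit 3) true (nat_lit 9) true (nat_lit 9) (.s true (nat_lit 1) (nat_lit 19) (nat_lit 2) (nat_lit 2) (nat_lit 14) true (nat_lit 0) true (nat_lit 4) true (nat_lit 3) true (nat_lit 9) true (nat_lit 9) (.s false (nat_lit 3) (nat_lit 18) (nat_lit 2) (nat_lit 14) (nat_lit 2) true (nat_lit 6) true (nat_lit 9) true (nat_lit 3) true (nat_lit 9) true (nat_lit 4) (.s true (nat_lit 1) (nat_lit 19) (nat_lit 4) (nat_lit 7) (nat_lit 2) true (nat_lit 4) true (nat_lit 9) true (nat_lit 3) true (nat_lit 8) true (nat_lit 6) (.s false (nat_lit 3) (nat_lit 18) (nat_lit 14) (nat_lit 2) (nat_lit 2) true (nat_lit 0) true (nat_lit 9) true (nat_lit 3) true (nat_lit 4) true (nat_lit 9) (.s false (nat_lit 3) (nat_lit 19) (nat_lit 14) (nat_lit 2) (nat_lit 2) true (nat_lit 0) true (nat_lit 9) true (nat_lit 3) true (nat_lit 4) true (nat_lit 9) (.s false (nat_lit 1) (nat_lit 19) (nat_lit 15) (nat_lit 2) (nat_lit 2) true (nat_lit 0) true (nat_lit 9) true (nat_lit 3) true (nat_lit 4) true (nat_lit 9) (.s false (nat_lit 3) (nat_lit 20) (nat_lit 1) (nat_lit 14) (nat_lit 2) true (nat_lit 7) true (nat_lit 9) true (nat_lit 2) true (nat_lit 10) true (nat_lit 4) (.s false (nat_lit 3) (nat_lit 20) (nat_lit 2) (nat_lit 2) (nat_lit 10) true (nat_lit 1) true (nat_lit 5) true (nat_lit 2) true (nat_lit 9) true (nat_lit 9) (.s false (nat_lit 1) (nat_lit 20) (nat_lit 2) (nat_lit 6) (nat_lit 4) true (nat_lit 4) true (nat_lit 8) true (nat_lit 2) true (nat_lit 9) true (nat_lit 7) (.s true (nat_lit 1) (nat_lit 20) (nat_lit 2) (nat_lit 14) (nat_lit 1) true (nat_lit 7) true (nat_lit 10) true (nat_lit 2) true (nat_lit 9) true (nat_lit 4) (.s false (nat_lit 2) (nat_lit 20) (nat_lit 2) (nat_lit 15) (nat_lit 1) true (nat_lit 7) true (nat_lit 10) true (nat_lit 2) true (nat_lit 9) true (nat_lit 4) (.s true (nat_lit 1) (nat_lit 20) (nat_lit 4) (nat_lit 1) (nat_lit 7) true (nat_lit 0) true (nat_lit 6) true (nat_lit 2) true (nat_lit 8) true (nat_lit 10) (.s false (nat_lit 1) (nat_lit 20) (nat_lit 4) (nat_lit 2) (nat_lit 6) true (nat_lit 1) true (nat_lit 7) true (nat_lit 2) true (nat_lit 8) true (nat_lit 9) (.s false (nat_lit 2) (nat_lit 20) (nat_lit 6) (nat_lit 2) (nat_lit 4) true (nat_lit 1) true (nat_lit 8) true (nat_lit 2) true (nat_lit 7) true (nat_lit 9) (.s true (nat_lit 1) (nat_lit 20) (nat_lit 10) (nat_lit 2) (nat_lit 2) true (nat_lit 1) true (nat_lit 9) true (nat_lit 2) true (nat_lit 5) true (nat_lit 9) (.s true (nat_lit 3) (nat_lit 20) (nat_lit 14) (nat_lit 1) (nat_lit 2) true (nat_lit 0) true (nat_lit 9) true (nat_lit 2) true (nat_lit 4) true (nat_lit 10) (.s false (nat_lit 3) (nat_lit 20) (nat_lit 14) (nat_lit 2) (nat_lit 1) true (nat_lit 1) true (nat_lit 10) true (nat_lit 2) true (nat_lit 4) true (nat_lit 9) (.s true (nat_lit 3) (nat_lit 30) (nat_lit 2) (nat_lit 2) (nat_lit 7) true (nat_lit 2) true (nat_lit 6) true (nat_lit 1) true (nat_lit 9) true (nat_lit 9) (.s false (nat_lit 1) (nat_lit 31) (nat_lit 2) (nat_lit 2) (nat_lit 7) true (nat_lit 2) true (nat_lit 6) true (nat_lit 1) true (nat_lit 9) true (nat_lit 9) (.s true (nat_lit 3) (nat_lit 32) (nat_lit 2) (nat_lit 7) (nat_lit 2) true (nat_lit 6) true (nat_lit 9) true (nat_lit 1) true (nat_lit 9) true (nat_lit 6) (.s true (nat_lit 3) (nat_lit 32) (nat_lit 7) (nat_lit 2) (nat_lit 2) true (nat_lit 2) true (nat_lit 9) true (nat_lit 1) true (nat_lit 6) true (nat_lit 9) dC2d_i85)))))))))))))))))))))))) .leaf) (nat_lit 195584) (nat_lit 670) (.p (nat_lit 252) (nat_lit 2) (.n (nat_lit 254) (nat_lit 2) (.n (nat_lit 255) (nat_lit 3) (.n (nat_lit 256) (nat_lit 3) (.n (nat_lit 257) (nat_lit 3) (.n (nat_lit 258) (nat_lit 3) (.p (nat_lit 259) (nat_lit 1) (.n (nat_lit 260) (nat_lit 1) (.n (nat_lit 261) (nat_lit 1) (.p (nat_lit 262) (nat_lit 2) (.p (nat_lit 263) (nat_lit 1) (.p (nat_lit 264) (nat_lit 2) (.p (nat_lit 265) (nat_lit 3) (.n (nat_lit 266) (nat_lit 3) (.p (nat_lit 267) (nat_lit 1) (.p (nat_lit 269) (nat_lit 1) (.p (nat_lit 270) (nat_lit 3) (.p (nat_lit 271) (nat_lit 2) (.p (nat_lit 272) (nat_lit 3) (.p (nat_lit 273) (nat_lit 3) (.p (nat_lit 274) (nat_lit 3) (.p (nat_lit 275) (nat_lit 1) (.n (nat_lit 276) (nat_lit 2) (.p (nat_lit 278) (nat_lit 1) (.n (nat_lit 280) (nat_lit 2) (.p (nat_lit 282) (nat_lit 1) (.p (nat_lit 283) (nat_lit 2) (.p (nat_lit 284) (nat_lit 1) (.n (nat_lit 285) (nat_lit 2) (.p (nat_lit 287) (nat_lit 1) .z)))))))))))))))))))))))))))))) (.ct dC2d_c292 (nat_lit 1) (nat_lit 13) (.s true (nat_lit 1) (nat_lit 45) (nat_lit 2) (nat_lit 1) (nat_lit 0) true (nat_lit 8) true (nat_lit 13) false (nat_lit 4) true (nat_lit 11) true (nat_lit 12) (.e true (nat_lit 1) (nat_lit 94) (nat_lit 5) (nat_lit 8) (.e false (nat_lit 1) (nat_lit 45) (nat_lit 13) (nat_lit 4) (.e false (nat_lit 1) (nat_lit 132) (nat_lit 2) (nat_lit 11) (.e false (nat_lit 2) (nat_lit 133) (nat_lit 2) (nat_lit 11) (.e true (nat_lit 2) (nat_lit 135) (nat_lit 2) (nat_lit 11) (.e false (nat_lit 2) (nat_lit 137) (nat_lit 2) (nat_lit 11) (.e true (nat_lit 1) (nat_lit 144) (nat_lit 2) (nat_lit 11) (.e false (nat_lit 1) (nat_lit 145) (nat_lit 2) (nat_lit 11) (.e false (nat_lit 1) (nat_lit 146) (nat_lit 2) (nat_lit 11) (.e true (nat_lit 1) (nat_lit 152) (nat_lit 2) (nat_lit 11) (.e true (nat_lit 1) (nat_lit 154) (nat_lit 2) (nat_lit 11) (.e false (nat_lit 1) (nat_lit 157) (nat_lit 2) (nat_lit 11) (.e false (nat_lit 1) (nat_lit 176) (nat_lit 1) (nat_lit 12) (.u (nat_lit 2) (.p (nat_lit 1) (nat_lit 1) (.p (nat_lit 2) (nat_lit 1) (.p (nat_lit 3) (nat_lit 1) (.p (nat_lit 4) (nat_lit 1) (.p (nat_lit 5) (nat_lit 1) (.n (nat_lit 7) (nat_lit 1) (.p (nat_lit 9) (nat_lit 1) (.p (nat_lit 14) (nat_lit 1) (.p (nat_lit 15) (nat_lit 1) (.n (nat_lit 22) (nat_lit 1) (.n (nat_lit 31) (nat_lit 1) (.p (nat_lit 33) (nat_lit 1) .z)))))))))))) .nil)))))))))))))))) .leaf) (nat_lit 195585) (nat_lit 742) (.n (nat_lit 289) (nat_lit 2) (.p (nat_lit 290) (nat_lit 3) (.p (nat_lit 291) (nat_lit 1) (.n (nat_lit 292) (nat_lit 1) (.p (nat_lit 293) (nat_lit 3) (.p (nat_lit 294) (nat_lit 1) (.p (nat_lit 296) (nat_lit 3) (.p (nat_lit 297) (nat_lit 1) (.p (nat_lit 298) (nat_lit 2) (.p (nat_lit 300) (nat_lit 1) (.p (nat_lit 303) (nat_lit 3) (.n (nat_lit 304) (nat_lit 3) .z)))))))))))) (.ct dC2d_c52 (nat_lit 1) (nat_lit 8) (.s true (nat_lit 1) (nat_lit 45) (nat_lit 2) (nat_lit 1) (nat_lit 1) true (nat_lit 5) true (nat_lit 8) false (nat_lit 2) true (nat_lit 7) true (nat_lit 8) (.e true (nat_lit 1) (nat_lit 94) (nat_lit 6) (nat_lit 5) (.e false (nat_lit 1) (nat_lit 45) (nat_lit 15) (nat_lit 2) (.e true (nat_lit 2) (nat_lit 159) (nat_lit 2) (nat_lit 7) (.e true (nat_lit 2) (nat_lit 160) (nat_lit 2) (nat_lit 7) (.e false (nat_lit 2) (nat_lit 161) (nat_lit 2) (nat_lit 7) (.e false (nat_lit 3) (nat_lit 162) (nat_lit 2) (nat_lit 7) (.e true (nat_lit 1) (nat_lit 163) (nat_lit 2) (nat_lit 7) (.e false (nat_lit 1) (nat_lit 164) (nat_lit 2) (nat_lit 7) (.e true (nat_lit 2) (nat_lit 165) (nat_lit 2) (nat_lit 7) (.e false (nat_lit 1) (nat_lit 166) (nat_lit 2) (nat_lit 7) (.e false (nat_lit 1) (nat_lit 168) (nat_lit 2) (nat_lit 7) (.e false (nat_lit 1) (nat_lit 188) (nat_lit 1) (nat_lit 8) (.u (nat_lit 2) (.p (nat_lit 3) (nat_lit 1) (.n (nat_lit 5) (nat_lit 1) (.p (nat_lit 6) (nat_lit 1) (.n (nat_lit 7) (nat_lit 1) (.n (nat_lit 14) (nat_lit 1) (.p (nat_lit 15) (nat_lit 1) .z)))))) .nil))))))))))))))) (.nd (.nd .leaf (nat_lit 195586) (nat_lit 819) (.p (nat_lit 330) (nat_lit 1) .z) .df .leaf) (nat_lit 195587) (nat_lit 1032) (.p (nat_lit 335) (nat_lit 1) (.p (nat_lit 336) (nat_lit 1) (.p (nat_lit 337) (nat_lit 2) (.p (nat_lit 338) (nat_lit 1) (.p (nat_lit 340) (nat_lit 1) (.n (nat_lit 341) (nat_lit 2) (.p (nat_lit 342) (nat_lit 2) (.n (nat_lit 343) (nat_lit 1) (.p (nat_lit 345) (nat_lit 1) (.n (nat_lit 346) (nat_lit 2) (.p (nat_lit 347) (nat_lit 2) (.n (nat_lit 349) (nat_lit 1) (.n (nat_lit 351) (nat_lit 3) (.n (nat_lit 352) (nat_lit 1) (.n (nat_lit 353) (nat_lit 1) (.p (nat_lit 354) (nat_lit 3) (.n (nat_lit 355) (nat_lit 3) (.n (nat_lit 356) (nat_lit 1) (.p (nat_lit 357) (nat_lit 1) (.n (nat_lit 358) (nat_lit 2) (.n (nat_lit 359) (nat_lit 1) (.p (nat_lit 360) (nat_lit 1) (.n (nat_lit 361) (nat_lit 1) (.n (nat_lit 362) (nat_lit 1) (.p (nat_lit 363) (nat_lit 3) (.n (nat_lit 364) (nat_lit 3) (.p (nat_lit 366) (nat_lit 2) (.n (nat_lit 367) (nat_lit 2) (.p (nat_lit 368) (nat_lit 2) (.n (nat_lit 369) (nat_lit 2) (.n (nat_lit 371) (nat_lit 1) (.p (nat_lit 372) (nat_lit 3) (.n (nat_lit 373) (nat_lit 2) (.n (nat_lit 375) (nat_lit 2) (.p (nat_lit 377) (nat_lit 2) (.n (nat_lit 379) (nat_lit 1) (.p (nat_lit 380) (nat_lit 3) (.p (nat_lit 381) (nat_lit 2) .z)))))))))))))))))))))))))))))))))))))) (.ct dC2d_c308 (nat_lit 1) (nat_lit 15) (.s true (nat_lit 1) (nat_lit 101) (nat_lit 0) (nat_lit 1) (nat_lit 1) true (nat_lit 15) true (nat_lit 17) false (nat_lit 10) true (nat_lit 18) true (nat_lit 17) (.e true (nat_lit 2) (nat_lit 278) (nat_lit 1) (nat_lit 17) (.e false (nat_lit 2) (nat_lit 252) (nat_lit 1) (nat_lit 17) (.e false (nat_lit 3) (nat_lit 253) (nat_lit 1) (nat_lit 17) (.e false (nat_lit 2) (nat_lit 254) (nat_lit 1) (nat_lit 17) (.e true (nat_lit 1) (nat_lit 257) (nat_lit 1) (nat_lit 17) (.e true (nat_lit 3) (nat_lit 258) (nat_lit 1) (nat_lit 17) (.e true (nat_lit 2) (nat_lit 261) (nat_lit 1) (nat_lit 17) (.e true (nat_lit 3) (nat_lit 262) (nat_lit 1) (nat_lit 17) (.e false (nat_lit 1) (nat_lit 264) (nat_lit 1) (nat_lit 17) (.e false (nat_lit 1) (nat_lit 266) (nat_lit 1) (nat_lit 17) (.e true (nat_lit 1) (nat_lit 269) (nat_lit 1) (nat_lit 17) (.e false (nat_lit 1) (nat_lit 272) (nat_lit 1) (nat_lit 17) (.e false (nat_lit 1) (nat_lit 275) (nat_lit 1) (nat_lit 17) (.e true (nat_lit 3) (nat_lit 283) (nat_lit 1) (nat_lit 17) (.e true (nat_lit 3) (nat_lit 285) (nat_lit 1) (nat_lit 17) (.e true (nat_lit 3) (nat_lit 280) (nat_lit 1) (nat_lit 17) (.e true (nat_lit 3) (nat_lit 265) (nat_lit 1) (nat_lit 17) dC2d_i86))))))))))))))))))) .leaf))) (nat_lit 195589) (nat_lit 1374) (.p (nat_lit 397) (nat_lit 3) (.p (nat_lit 398) (nat_lit 1) (.p (nat_lit 400) (nat_lit 3) (.n (nat_lit 401) (nat_lit 3) (.n (nat_lit 402) (nat_lit 1) (.n (nat_lit 404) (nat_lit 3) (.n (nat_lit 405) (nat_lit 2) (.p (nat_lit 406) (nat_lit 1) (.p (nat_lit 407) (nat_lit 1) (.n (nat_lit 408) (nat_lit 3) (.p (nat_lit 409) (nat_lit 1) (.n (nat_lit 410) (nat_lit 2) (.n (nat_lit 411) (nat_lit 1) (.n (nat_lit 413) (nat_lit 2) (.p (nat_lit 414) (nat_lit 3) (.n (nat_lit 415) (nat_lit 2) (.p (nat_lit 418) (nat_lit 3) (.n (nat_lit 419) (nat_lit 1) (.n (nat_lit 420) (nat_lit 3) (.n (nat_lit 421) (nat_lit 2) (.n (nat_lit 423) (nat_lit 1) (.p (nat_lit 428) (nat_lit 2) (.p (nat_lit 431) (nat_lit 3) (.p (nat_lit 435) (nat_lit 2) .z)))))))))))))))))))))))) (.ct dC2d_c293 (nat_lit 1) (nat_lit 11) (.s true (nat_lit 1) (nat_lit 45) (nat_lit 5) (nat_lit 2) (nat_lit 1) true (nat_lit 7) true (nat_lit 15) false (nat_lit 1) true (nat_lit 11) true (nat_lit 14) dC2d_i88)) (.nd (.nd (.nd (.nd .leaf (nat_lit 195590) (nat_lit 1428) (.p (nat_lit 436) (nat_lit 1) (.p (nat_lit 437) (nat_lit 2) (.p (nat_lit 438) (nat_lit 2) (.p (nat_lit 439) (nat_lit 2) (.n (nat_lit 440) (nat_lit 1) (.p (nat_lit 441) (nat_lit 1) (.p (nat_lit 442) (nat_lit 3) (.p (nat_lit 443) (nat_lit 2) (.p (nat_lit 444) (nat_lit 2) (.n (nat_lit 445) (nat_lit 3) (.n (nat_lit 447) (nat_lit 2) (.p (nat_lit 449) (nat_lit 2) .z)))))))))))) (.ct dC2d_c53 (nat_lit 1) (nat_lit 7) (.s true (nat_lit 1) (nat_lit 45) (nat_lit 2) (nat_lit 1) (nat_lit 6) true (nat_lit 3) true (nat_lit 7) false (nat_lit 0) true (nat_lit 9) true (nat_lit 10) (.e false (nat_lit 1) (nat_lit 94) (nat_lit 18) (nat_lit 3) (.e true (nat_lit 2) (nat_lit 289) (nat_lit 2) (nat_lit 9) (.e false (nat_lit 1) (nat_lit 290) (nat_lit 2) (nat_lit 9) (.e false (nat_lit 2) (nat_lit 291) (nat_lit 2) (nat_lit 9) (.e false (nat_lit 2) (nat_lit 292) (nat_lit 2) (nat_lit 9) (.e false (nat_lit 3) (nat_lit 293) (nat_lit 2) (nat_lit 9) (.e false (nat_lit 1) (nat_lit 295) (nat_lit 2) (nat_lit 9) (.e false (nat_lit 1) (nat_lit 298) (nat_lit 2) (nat_lit 9) (.e true (nat_lit 1) (nat_lit 299) (nat_lit 2) (nat_lit 9) (.e false (nat_lit 1) (nat_lit 301) (nat_lit 2) (nat_lit 9) (.e true (nat_lit 1) (nat_lit 303) (nat_lit 2) (nat_lit 9) (.e false (nat_lit 2) (nat_lit 304) (nat_lit 2) (nat_lit 9) (.e false (nat_lit 2) (nat_lit 325) (nat_lit 1) (nat_lit 10) (.e false (nat_lit 3) (nat_lit 326) (nat_lit 1) (nat_lit 10) (.e true (nat_lit 3) (nat_lit 327) (nat_lit 1) (nat_lit 10) (.e true (nat_lit 2) (nat_lit 328) (nat_lit 1) (nat_lit 10) (.e true (nat_lit 2) (nat_lit 329) (nat_lit 1) (nat_lit 10) (.e true (nat_lit 2) (nat_lit 330) (nat_lit 1) (nat_lit 10) (.e false (nat_lit 2) (nat_lit 331) (nat_lit 1) (nat_lit 10) (.u (nat_lit 2) (.n (nat_lit 0) (nat_lit 2) (.n (nat_lit 2) (nat_lit 1) (.n (nat_lit 3) (nat_lit 1) (.p (nat_lit 4) (nat_lit 2) (.n (nat_lit 7) (nat_lit 1) (.p (nat_lit 8) (nat_lit 1) (.n (nat_lit 9) (nat_lit 1) (.p (nat_lit 11) (nat_lit 1) (.n (nat_lit 12) (nat_lit 1) (.p (nat_lit 14) (nat_lit 1) (.p (nat_lit 100) (nat_lit 1) (.p (nat_lit 102) (nat_lit 1) (.n (nat_lit 103) (nat_lit 1) .z))))))))))))) .nil)))))))))))))))))))))) .leaf) (nat_lit 196608) (nat_lit 682) (.n (nat_lit 253) (nat_lit 2) (.p (nat_lit 255) (nat_lit 3) (.n (nat_lit 256) (nat_lit 1) (.p (nat_lit 257) (nat_lit 3) (.n (nat_lit 258) (nat_lit 3) (.n (nat_lit 259) (nat_lit 1) (.p (nat_lit 260) (nat_lit 1) (.p (nat_lit 261) (nat_lit 1) (.n (nat_lit 262) (nat_lit 2) (.p (nat_lit 263) (nat_lit 3) (.p (nat_lit 264) (nat_lit 1) (.n (nat_lit 265) (nat_lit 1) (.p (nat_lit 266) (nat_lit 2) (.n (nat_lit 269) (nat_lit 3) (.p (nat_lit 270) (nat_lit 3) (.p (nat_lit 271) (nat_lit 1) (.n (nat_lit 272) (nat_lit 1) (.p (nat_lit 273) (nat_lit 2) (.p (nat_lit 275) (nat_lit 3) (.n (nat_lit 276) (nat_lit 1) (.n (nat_lit 277) (nat_lit 3) (.n (nat_lit 278) (nat_lit 2) (.n (nat_lit 279) (nat_lit 1) (.n (nat_lit 280) (nat_lit 3) (.n (nat_lit 282) (nat_lit 2) (.p (nat_lit 284) (nat_lit 1) (.n (nat_lit 285) (nat_lit 3) (.n (nat_lit 286) (nat_lit 2) (.n (nat_lit 287) (nat_lit 2) (.p (nat_lit 288) (nat_lit 1) .z)))))))))))))))))))))))))))))) (.ct dC2d_c292 (nat_lit 1) (nat_lit 13) (.s true (nat_lit 1) (nat_lit 46) (nat_lit 2) (nat_lit 1) (nat_lit 0) true (nat_lit 8) true (nat_lit 13) false (nat_lit 4) true (nat_lit 11) true (nat_lit 12) (.e true (nat_lit 1) (nat_lit 95) (nat_lit 5) (nat_lit 8) (.e false (nat_lit 1) (nat_lit 46) (nat_lit 13) (nat_lit 4) (.e true (nat_lit 1) (nat_lit 157) (nat_lit 2) (nat_lit 11) (.e false (nat_lit 1) (nat_lit 171) (nat_lit 1) (nat_lit 12) (.e true (nat_lit 1) (nat_lit 172) (nat_lit 1) (nat_lit 12) (.e false (nat_lit 1) (nat_lit 173) (nat_lit 1) (nat_lit 12) (.e false (nat_lit 1) (nat_lit 175) (nat_lit 1) (nat_lit 12) (.e true (nat_lit 1) (nat_lit 176) (nat_lit 1) (nat_lit 12) (.e true (nat_lit 1) (nat_lit 177) (nat_lit 1) (nat_lit 12) (.e true (nat_lit 1) (nat_lit 178) (nat_lit 1) (nat_lit 12) (.u (nat_lit 2) (.p (nat_lit 1) (nat_lit 1) (.n (nat_lit 3) (nat_lit 1) (.n (nat_lit 4) (nat_lit 1) (.n (nat_lit 5) (nat_lit 1) (.p (nat_lit 6) (nat_lit 2) (.p (nat_lit 10) (nat_lit 1) (.n (nat_lit 11) (nat_lit 1) (.p (nat_lit 17) (nat_lit 1) (.n (nat_lit 18) (nat_lit 2) (.p (nat_lit 20) (nat_lit 1) (.p (nat_lit 28) (nat_lit 1) .z))))))))))) .nil))))))))))))) .leaf) (nat_lit 196609) (nat_lit 714) (.p (nat_lit 289) (nat_lit 3) (.n (nat_lit 290) (nat_lit 1) (.n (nat_lit 291) (nat_lit 1) (.n (nat_lit 292) (nat_lit 2) (.n (nat_lit 295) (nat_lit 2) (.p (nat_lit 296) (nat_lit 3) (.n (nat_lit 297) (nat_lit 3) (.p (nat_lit 298) (nat_lit 2) (.n (nat_lit 299) (nat_lit 1) (.n (nat_lit 300) (nat_lit 1) (.p (nat_lit 301) (nat_lit 3) (.n (nat_lit 303) (nat_lit 2) (.p (nat_lit 304) (nat_lit 2) .z))))))))))))) (.ct dC2d_c52 (nat_lit 1) (nat_lit 8) (.s false (nat_lit 3) (nat_lit 7) (nat_lit 2) (nat_lit 6) (nat_lit 4) true (nat_lit 2) true (nat_lit 6) true (nat_lit 4) true (nat_lit 7) true (nat_lit 5) (.s false (nat_lit 1) (nat_lit 7) (nat_lit 4) (nat_lit 6) (nat_lit 2) true (nat_lit 2) true (nat_lit 7) true (nat_lit 4) true (nat_lit 6) true (nat_lit 5) (.s false (nat_lit 2) (nat_lit 7) (nat_lit 6) (nat_lit 4) (nat_lit 2) true (nat_lit 1) true (nat_lit 7) true (nat_lit 4) true (nat_lit 5) true (nat_lit 6) (.s true (nat_lit 3) (nat_lit 14) (nat_lit 2) (nat_lit 7) (nat_lit 1) true (nat_lit 5) true (nat_lit 8) true (nat_lit 2) true (nat_lit 7) true (nat_lit 4) (.s false (nat_lit 3) (nat_lit 14) (nat_lit 6) (nat_lit 2) (nat_lit 2) true (nat_lit 1) true (nat_lit 7) true (nat_lit 2) true (nat_lit 5) true (nat_lit 7) (.s false (nat_lit 1) (nat_lit 18) (nat_lit 2) (nat_lit 1) (nat_lit 6) true (nat_lit 1) true (nat_lit 5) true (nat_lit 1) true (nat_lit 7) true (nat_lit 8) (.s false (nat_lit 3) (nat_lit 19) (nat_lit 2) (nat_lit 1) (nat_lit 6) true (nat_lit 1) true (nat_lit 5) true (nat_lit 1) true (nat_lit 7) true (nat_lit 8) (.s true (nat_lit 2) (nat_lit 19) (nat_lit 2) (nat_lit 2) (nat_lit 4) true (nat_lit 2) true (nat_lit 6) true (nat_lit 1) true (nat_lit 7) true (nat_lit 7) dC2d_i89))))))))) (.nd (.nd .leaf (nat_lit 196610) (nat_lit 820) (.p (nat_lit 331) (nat_lit 1) .z) .df .leaf) (nat_lit 196611) (nat_lit 1030) (.n (nat_lit 335) (nat_lit 2) (.p (nat_lit 336) (nat_lit 2) (.n (nat_lit 337) (nat_lit 3) (.n (nat_lit 338) (nat_lit 2) (.n (nat_lit 345) (nat_lit 3) (.p (nat_lit 346) (nat_lit 3) (.n (nat_lit 347) (nat_lit 3) (.p (nat_lit 349) (nat_lit 2) (.p (nat_lit 350) (nat_lit 1) (.n (nat_lit 351) (nat_lit 2) (.p (nat_lit 352) (nat_lit 2) (.n (nat_lit 354) (nat_lit 3) (.p (nat_lit 356) (nat_lit 2) (.n (nat_lit 357) (nat_lit 2) (.p (nat_lit 358) (nat_lit 3) (.p (nat_lit 359) (nat_lit 1) (.n (nat_lit 361) (nat_lit 3) (.p (nat_lit 362) (nat_lit 3) (.p (nat_lit 363) (nat_lit 1) (.p (nat_lit 364) (nat_lit 1) (.p (nat_lit 367) (nat_lit 3) (.n (nat_lit 368) (nat_lit 2) (.n (nat_lit 369) (nat_lit 1) (.p (nat_lit 370) (nat_lit 3) (.n (nat_lit 371) (nat_lit 1) (.n (nat_lit 372) (nat_lit 3) (.p (nat_lit 373) (nat_lit 2) (.n (nat_lit 374) (nat_lit 3) (.n (nat_lit 375) (nat_lit 3) (.p (nat_lit 377) (nat_lit 3) (.p (nat_lit 379) (nat_lit 2) (.p (nat_lit 380) (nat_lit 2) (.n (nat_lit 381) (nat_lit 1) (.n (nat_lit 382) (nat_lit 3) (.n (nat_lit 383) (nat_lit 2) .z))))))))))))))))))))))))))))))))))) (.ct dC2d_c308 (nat_lit 1) (nat_lit 15) (.s true (nat_lit 1) (nat_lit 102) (nat_lit 0) (nat_lit 1) (nat_lit 1) true (nat_lit 15) true (nat_lit 17) false (nat_lit 10) true (nat_lit 18) true (nat_lit 17) (.e false (nat_lit 2) (nat_lit 252) (nat_lit 1) (nat_lit 17) (.e true (nat_lit 3) (nat_lit 255) (nat_lit 1) (nat_lit 17) (.e true (nat_lit 3) (nat_lit 257) (nat_lit 1) (nat_lit 17) (.e false (nat_lit 2) (nat_lit 258) (nat_lit 1) (nat_lit 17) (.e false (nat_lit 1) (nat_lit 266) (nat_lit 1) (nat_lit 17) (.e true (nat_lit 3) (nat_lit 274) (nat_lit 1) (nat_lit 17) (.e false (nat_lit 2) (nat_lit 279) (nat_lit 1) (nat_lit 17) (.e false (nat_lit 3) (nat_lit 283) (nat_lit 1) (nat_lit 17) (.e true (nat_lit 1) (nat_lit 280) (nat_lit 1) (nat_lit 17) (.e false (nat_lit 2) (nat_lit 265) (nat_lit 1) (nat_lit 17) (.e true (nat_lit 3) (nat_lit 256) (nat_lit 1) (nat_lit 17) (.e true (nat_lit 1) (nat_lit 264) (nat_lit 1) (nat_lit 17) (.e false (nat_lit 3) (nat_lit 270) (nat_lit 1) (nat_lit 17) (.e true (nat_lit 1) (nat_lit 275) (nat_lit 1) (nat_lit 17) (.e true (nat_lit 2) (nat_lit 288) (nat_lit 1) (nat_lit 17) (.e false (nat_lit 1) (nat_lit 259) (nat_lit 1) (nat_lit 17) (.e true (nat_lit 1) (nat_lit 260) (nat_lit 1) (nat_lit 17) (.e true (nat_lit 3) (nat_lit 282) (nat_lit 1) (nat_lit 17) dC2d_i90)))))))))))))))))))) .leaf)) (nat_lit 196613) (nat_lit 1356) (.p (nat_lit 397) (nat_lit 2) (.p (nat_lit 399) (nat_lit 1) (.p (nat_lit 400) (nat_lit 3) (.n (nat_lit 401) (nat_lit 2) (.n (nat_lit 402) (nat_lit 3) (.n (nat_lit 403) (nat_lit 1) (.p (nat_lit 404) (nat_lit 3) (.p (nat_lit 406) (nat_lit 3) (.n (nat_lit 408) (nat_lit 3) (.p (nat_lit 409) (nat_lit 3) (.n (nat_lit 412) (nat_lit 1) (.p (nat_lit 413) (nat_lit 3) (.p (nat_lit 414) (nat_lit 3) (.p (nat_lit 415) (nat_lit 3) (.n (nat_lit 416) (nat_lit 1) (.p (nat_lit 419) (nat_lit 2) (.p (nat_lit 420) (nat_lit 2) (.n (nat_lit 421) (nat_lit 1) (.p (nat_lit 423) (nat_lit 2) (.p (nat_lit 428) (nat_lit 3) (.n (nat_lit 431) (nat_lit 3) (.n (nat_lit 432) (nat_lit 1) (.n (nat_lit 435) (nat_lit 1) .z))))))))))))))))))))))) (.ct dC2d_c293 (nat_lit 1) (nat_lit 11) (.s false (nat_lit 3) (nat_lit 19) (nat_lit 7) (nat_lit 1) (nat_lit 5) false (nat_lit 0) true (nat_lit 11) true (nat_lit 4) true (nat_lit 9) true (nat_lit 15) (.e false (nat_lit 3) (nat_lit 43) (nat_lit 39) (nat_lit 0) (.e false (nat_lit 3) (nat_lit 44) (nat_lit 39) (nat_lit 0) (.e true (nat_lit 3) (nat_lit 43) (nat_lit 40) (nat_lit 0) (.e true (nat_lit 3) (nat_lit 44) (nat_lit 40) (nat_lit 0) (.e true (nat_lit 3) (nat_lit 43) (nat_lit 41) (nat_lit 0) (.e true (nat_lit 3) (nat_lit 44) (nat_lit 41) (nat_lit 0) (.e false (nat_lit 1) (nat_lit 193) (nat_lit 5) (nat_lit 11) (.e true (nat_lit 1) (nat_lit 80) (nat_lit 19) (nat_lit 4) (.e true (nat_lit 2) (nat_lit 81) (nat_lit 19) (nat_lit 4) dC2d_i91))))))))))) (.nd (.nd (.nd .leaf (nat_lit 197632) (nat_lit 692) (.n (nat_lit 252) (nat_lit 1) (.p (nat_lit 253) (nat_lit 1) (.p (nat_lit 254) (nat_lit 3) (.n (nat_lit 255) (nat_lit 2) (.n (nat_lit 256) (nat_lit 2) (.n (nat_lit 257) (nat_lit 2) (.n (nat_lit 258) (nat_lit 1) (.n (nat_lit 259) (nat_lit 2) (.p (nat_lit 260) (nat_lit 2) (.p (nat_lit 261) (nat_lit 1) (.p (nat_lit 262) (nat_lit 1) (.n (nat_lit 263) (nat_lit 3) (.p (nat_lit 264) (nat_lit 3) (.p (nat_lit 265) (nat_lit 2) (.p (nat_lit 266) (nat_lit 2) (.p (nat_lit 267) (nat_lit 1) (.p (nat_lit 269) (nat_lit 1) (.p (nat_lit 270) (nat_lit 3) (.n (nat_lit 271) (nat_lit 1) (.p (nat_lit 272) (nat_lit 3) (.p (nat_lit 274) (nat_lit 1) (.n (nat_lit 275) (nat_lit 3) (.p (nat_lit 276) (nat_lit 1) (.p (nat_lit 277) (nat_lit 2) (.p (nat_lit 283) (nat_lit 3) (.p (nat_lit 284) (nat_lit 1) (.n (nat_lit 285) (nat_lit 1) (.n (nat_lit 286) (nat_lit 1) .z)))))))))))))))))))))))))))) (.ct dC2d_c292 (nat_lit 1) (nat_lit 13) (.s false (nat_lit 1) (nat_lit 40) (nat_lit 0) (nat_lit 2) (nat_lit 2) true (nat_lit 8) true (nat_lit 11) false (nat_lit 2) true (nat_lit 13) true (nat_lit 11) (.e false (nat_lit 1) (nat_lit 92) (nat_lit 5) (nat_lit 8) (.e false (nat_lit 1) (nat_lit 143) (nat_lit 2) (nat_lit 11) (.e false (nat_lit 1) (nat_lit 40) (nat_lit 16) (nat_lit 2) (.e true (nat_lit 2) (nat_lit 185) (nat_lit 0) (nat_lit 13) (.e true (nat_lit 3) (nat_lit 186) (nat_lit 0) (nat_lit 13) (.e false (nat_lit 2) (nat_lit 187) (nat_lit 0) (nat_lit 13) (.e true (nat_lit 2) (nat_lit 188) (nat_lit 0) (nat_lit 13) (.e true (nat_lit 1) (nat_lit 189) (nat_lit 0) (nat_lit 13) (.e false (nat_lit 3) (nat_lit 190) (nat_lit 0) (nat_lit 13) (.e true (nat_lit 1) (nat_lit 194) (nat_lit 0) (nat_lit 13) (.e false (nat_lit 1) (nat_lit 151) (nat_lit 2) (nat_lit 11) (.u (nat_lit 2) (.n (nat_lit 0) (nat_lit 1) (.p (nat_lit 1) (nat_lit 2) (.p (nat_lit 4) (nat_lit 1) (.n (nat_lit 6) (nat_lit 3) (.p (nat_lit 7) (nat_lit 2) (.n (nat_lit 8) (nat_lit 4) (.n (nat_lit 9) (nat_lit 1) (.p (nat_lit 10) (nat_lit 3) (.n (nat_lit 12) (nat_lit 2) (.n (nat_lit 13) (nat_lit 1) (.p (nat_lit 14) (nat_lit 2) (.n (nat_lit 15) (nat_lit 1) (.n (nat_lit 17) (nat_lit 1) (.n (nat_lit 20) (nat_lit 3) (.n (nat_lit 21) (nat_lit 1) (.n (nat_lit 22) (nat_lit 3) (.p (nat_lit 23) (nat_lit 1) (.p (nat_lit 24) (nat_lit 1) (.n (nat_lit 25) (nat_lit 1) (.n (nat_lit 30) (nat_lit 1) (.n (nat_lit 32) (nat_lit 1) (.n (nat_lit 33) (nat_lit 1) .z)))))))))))))))))))))) .nil)))))))))))))) .leaf) (nat_lit 197633) (nat_lit 715) (.n (nat_lit 289) (nat_lit 3) (.n (nat_lit 290) (nat_lit 2) (.p (nat_lit 291) (nat_lit 1) (.n (nat_lit 292) (nat_lit 2) (.p (nat_lit 293) (nat_lit 3) (.p (nat_lit 294) (nat_lit 1) (.p (nat_lit 295) (nat_lit 1) (.p (nat_lit 296) (nat_lit 2) (.n (nat_lit 297) (nat_lit 2) (.p (nat_lit 298) (nat_lit 1) (.n (nat_lit 299) (nat_lit 1) (.p (nat_lit 301) (nat_lit 2) (.n (nat_lit 303) (nat_lit 3) (.p (nat_lit 304) (nat_lit 3) .z)))))))))))))) (.ct dC2d_c52 (nat_lit 1) (nat_lit 8) (.s false (nat_lit 1) (nat_lit 7) (nat_lit 2) (nat_lit 6) (nat_lit 4) true (nat_lit 2) true (nat_lit 6) true (nat_lit 4) true (nat_lit 7) true (nat_lit 5) (.s false (nat_lit 3) (nat_lit 7) (nat_lit 4) (nat_lit 6) (nat_lit 2) true (nat_lit 2) true (nat_lit 7) true (nat_lit 4) true (nat_lit 6) true (nat_lit 5) (.s true (nat_lit 2) (nat_lit 14) (nat_lit 2) (nat_lit 1) (nat_lit 7) true (nat_lit 0) true (nat_lit 4) true (nat_lit 2) true (nat_lit 7) true (nat_lit 8) (.s false (nat_lit 1) (nat_lit 14) (nat_lit 2) (nat_lit 7) (nat_lit 1) true (nat_lit 5) true (nat_lit 8) true (nat_lit 2) true (nat_lit 7) true (nat_lit 4) (.s false (nat_lit 1) (nat_lit 14) (nat_lit 7) (nat_lit 1) (nat_lit 2) true (nat_lit 0) true (nat_lit 7) true (nat_lit 2) true (nat_lit 4) true (nat_lit 8) (.s false (nat_lit 2) (nat_lit 18) (nat_lit 1) (nat_lit 7) (nat_lit 1) true (nat_lit 6) true (nat_lit 8) true (nat_lit 1) true (nat_lit 8) true (nat_lit 4) (.s true (nat_lit 2) (nat_lit 18) (nat_lit 2) (nat_lit 1) (nat_lit 6) true (nat_lit 1) true (nat_lit 5) true (nat_lit 1) true (nat_lit 7) true (nat_lit 8) (.s true (nat_lit 1) (nat_lit 20) (nat_lit 1) (nat_lit 2) (nat_lit 4) true (nat_lit 3) true (nat_lit 6) true (nat_lit 0) true (nat_lit 8) true (nat_lit 7) dC2d_i92))))))))) .leaf) (nat_lit 197634) (nat_lit 832) (.n (nat_lit 324) (nat_lit 1) (.p (nat_lit 326) (nat_lit 2) (.n (nat_lit 327) (nat_lit 3) (.p (nat_lit 328) (nat_lit 2) (.p (nat_lit 330) (nat_lit 3) (.n (nat_lit 331) (nat_lit 2) .z)))))) (.ct dC2d_c37 (nat_lit 1) (nat_lit 6) (.s false (nat_lit 1) (nat_lit 7) (nat_lit 6) (nat_lit 6) (nat_lit 2) true (nat_lit 1) true (nat_lit 6) true (nat_lit 3) true (nat_lit 4) true (nat_lit 4) (.s true (nat_lit 3) (nat_lit 19) (nat_lit 1) (nat_lit 7) (nat_lit 2) true (nat_lit 4) true (nat_lit 6) true (nat_lit 1) true (nat_lit 7) true (nat_lit 3) (.s false (nat_lit 1) (nat_lit 18) (nat_lit 6) (nat_lit 2) (nat_lit 2) true (nat_lit 1) true (nat_lit 6) true (nat_lit 1) true (nat_lit 4) true (nat_lit 6) (.s false (nat_lit 1) (nat_lit 20) (nat_lit 2) (nat_lit 1) (nat_lit 6) true (nat_lit 1) true (nat_lit 4) true (nat_lit 0) true (nat_lit 6) true (nat_lit 7) (.s true (nat_lit 1) (nat_lit 46) (nat_lit 1) (nat_lit 2) (nat_lit 2) true (nat_lit 4) true (nat_lit 6) false (nat_lit 1) true (nat_lit 7) true (nat_lit 6) (.s true (nat_lit 2) (nat_lit 48) (nat_lit 1) (nat_lit 1) (nat_lit 2) true (nat_lit 4) true (nat_lit 6) false (nat_lit 2) true (nat_lit 7) true (nat_lit 7) (.e true (nat_lit 1) (nat_lit 185) (nat_lit 2) (nat_lit 6) (.e true (nat_lit 3) (nat_lit 186) (nat_lit 2) (nat_lit 6) (.e false (nat_lit 3) (nat_lit 187) (nat_lit 2) (nat_lit 6) (.e false (nat_lit 3) (nat_lit 188) (nat_lit 2) (nat_lit 6) (.e true (nat_lit 3) (nat_lit 189) (nat_lit 2) (nat_lit 6) (.e false (nat_lit 1) (nat_lit 192) (nat_lit 2) (nat_lit 6) (.e true (nat_lit 2) (nat_lit 102) (nat_lit 6) (nat_lit 4) (.e true (nat_lit 3) (nat_lit 194) (nat_lit 2) (nat_lit 6) (.e false (nat_lit 3) (nat_lit 46) (nat_lit 19) (nat_lit 1) (.e true (nat_lit 3) (nat_lit 95) (nat_lit 7) (nat_lit 3) (.e true (nat_lit 1) (nat_lit 191) (nat_lit 2) (nat_lit 6) (.e false (nat_lit 2) (nat_lit 201) (nat_lit 1) (nat_lit 7) (.e false (nat_lit 2) (nat_lit 48) (nat_lit 14) (nat_lit 2) (.u (nat_lit 2) (.p (nat_lit 0) (nat_lit 1) (.n (nat_lit 1) (nat_lit 1) (.p (nat_lit 2) (nat_lit 3) (.n (nat_lit 3) (nat_lit 2) (.p (nat_lit 4) (nat_lit 1) (.p (nat_lit 5) (nat_lit 1) (.p (nat_lit 29) (nat_lit 1) (.n (nat_lit 30) (nat_lit 1) (.n (nat_lit 33) (nat_lit 2) (.n (nat_lit 34) (nat_lit 2) (.p (nat_lit 35) (nat_lit 1) (.n (nat_lit 36) (nat_lit 2) (.p (nat_lit 38) (nat_lit 3) (.n (nat_lit 41) (nat_lit 1) .z)))))))))))))) .nil))))))))))))))))))))) (.nd .leaf (nat_lit 197635) (nat_lit 1028) (.n (nat_lit 335) (nat_lit 3) (.p (nat_lit 336) (nat_lit 1) (.p (nat_lit 337) (nat_lit 2) (.n (nat_lit 338) (nat_lit 3) (.p (nat_lit 339) (nat_lit 1) (.n (nat_lit 340) (nat_lit 2) (.p (nat_lit 341) (nat_lit 1) (.p (nat_lit 342) (nat_lit 1) (.p (nat_lit 344) (nat_lit 3) (.p (nat_lit 346) (nat_lit 3) (.p (nat_lit 347) (nat_lit 3) (.p (nat_lit 349) (nat_lit 1) (.n (nat_lit 350) (nat_lit 1) (.p (nat_lit 351) (nat_lit 1) (.p (nat_lit 352) (nat_lit 1) (.n (nat_lit 353) (nat_lit 1) (.p (nat_lit 354) (nat_lit 2) (.p (nat_lit 355) (nat_lit 3) (.p (nat_lit 356) (nat_lit 2) (.n (nat_lit 357) (nat_lit 2) (.p (nat_lit 359) (nat_lit 3) (.p (nat_lit 360) (nat_lit 2) (.p (nat_lit 361) (nat_lit 1) (.p (nat_lit 362) (nat_lit 1) (.p (nat_lit 366) (nat_lit 1) (.n (nat_lit 368) (nat_lit 3) (.n (nat_lit 369) (nat_lit 1) (.p (nat_lit 370) (nat_lit 2) (.p (nat_lit 371) (nat_lit 2) (.n (nat_lit 372) (nat_lit 1) (.p (nat_lit 373) (nat_lit 3) (.p (nat_lit 374) (nat_lit 1) (.n (nat_lit 380) (nat_lit 2) (.p (nat_lit 381) (nat_lit 1) (.p (nat_lit 382) (nat_lit 1) (.p (nat_lit 383) (nat_lit 3) .z)))))))))))))))))))))))))))))))))))) (.ct dC2d_c308 (nat_lit 1) (nat_lit 15) (.s true (nat_lit 1) (nat_lit 103) (nat_lit 0) (nat_lit 1) (nat_lit 1) true (nat_lit 15) true (nat_lit 17) false (nat_lit 10) true (nat_lit 18) true (nat_lit 17) (.e true (nat_lit 2) (nat_lit 252) (nat_lit 1) (nat_lit 17) (.e false (nat_lit 1) (nat_lit 253) (nat_lit 1) (nat_lit 17) (.e true (nat_lit 1) (nat_lit 255) (nat_lit 1) (nat_lit 17) (.e true (nat_lit 3) (nat_lit 256) (nat_lit 1) (nat_lit 17) (.e false (nat_lit 3) (nat_lit 258) (nat_lit 1) (nat_lit 17) (.e true (nat_lit 3) (nat_lit 259) (nat_lit 1) (nat_lit 17) (.e false (nat_lit 3) (nat_lit 260) (nat_lit 1) (nat_lit 17) (.e false (nat_lit 2) (nat_lit 261) (nat_lit 1) (nat_lit 17) (.e false (nat_lit 2) (nat_lit 262) (nat_lit 1) (nat_lit 17) (.e true (nat_lit 3) (nat_lit 264) (nat_lit 1) (nat_lit 17) (.e false (nat_lit 1) (nat_lit 267) (nat_lit 1) (nat_lit 17) (.e true (nat_lit 2) (nat_lit 269) (nat_lit 1) (nat_lit 17) dC2d_i93)))))))))))))) .leaf))))) (nat_lit 197637) (nat_lit 1278) (.n (nat_lit 397) (nat_lit 2) (.p (nat_lit 398) (nat_lit 2) (.p (nat_lit 399) (nat_lit 1) (.p (nat_lit 400) (nat_lit 3) (.n (nat_lit 401) (nat_lit 3) (.n (nat_lit 402) (nat_lit 2) (.p (nat_lit 403) (nat_lit 2) (.n (nat_lit 404) (nat_lit 2) (.n (nat_lit 405) (nat_lit 2) (.n (nat_lit 406) (nat_lit 3) (.p (nat_lit 407) (nat_lit 2) (.p (nat_lit 408) (nat_lit 1) (.p (nat_lit 409) (nat_lit 2) (.n (nat_lit 410) (nat_lit 1) (.n (nat_lit 411) (nat_lit 1) (.p (nat_lit 412) (nat_lit 1) (.p (nat_lit 413) (nat_lit 1) (.p (nat_lit 414) (nat_lit 2) (.n (nat_lit 415) (nat_lit 1) (.p (nat_lit 416) (nat_lit 3) (.p (nat_lit 418) (nat_lit 3) (.n (nat_lit 420) (nat_lit 2) (.n (nat_lit 421) (nat_lit 3) (.p (nat_lit 432) (nat_lit 1) (.p (nat_lit 435) (nat_lit 1) .z))))))))))))))))))))))))) (.ct dC2d_c293 (nat_lit 1) (nat_lit 11) (.s true (nat_lit 1) (nat_lit 103) (nat_lit 2) (nat_lit 1) (nat_lit 0) true (nat_lit 11) true (nat_lit 16) false (nat_lit 7) true (nat_lit 14) true (nat_lit 15) (.e false (nat_lit 2) (nat_lit 325) (nat_lit 0) (nat_lit 16) (.e true (nat_lit 1) (nat_lit 326) (nat_lit 0) (nat_lit 16) (.e false (nat_lit 1) (nat_lit 327) (nat_lit 0) (nat_lit 16) (.e true (nat_lit 2) (nat_lit 328) (nat_lit 0) (nat_lit 16) (.e true (nat_lit 3) (nat_lit 329) (nat_lit 0) (nat_lit 16) (.e true (nat_lit 2) (nat_lit 330) (nat_lit 0) (nat_lit 16) (.e false (nat_lit 2) (nat_lit 331) (nat_lit 0) (nat_lit 16) (.e true (nat_lit 1) (nat_lit 333) (nat_lit 0) (nat_lit 16) (.e false (nat_lit 1) (nat_lit 103) (nat_lit 13) (nat_lit 7) (.e true (nat_lit 3) (nat_lit 252) (nat_lit 2) (nat_lit 14) (.e true (nat_lit 1) (nat_lit 254) (nat_lit 2) (nat_lit 14) (.e true (nat_lit 1) (nat_lit 255) (nat_lit 2) (nat_lit 14) (.e true (nat_lit 2) (nat_lit 256) (nat_lit 2) (nat_lit 14) (.e true (nat_lit 3) (nat_lit 257) (nat_lit 2) (nat_lit 14) (.e true (nat_lit 3) (nat_lit 258) (nat_lit 2) (nat_lit 14) (.e true (nat_lit 2) (nat_lit 259) (nat_lit 2) (nat_lit 14) (.e false (nat_lit 2) (nat_lit 260) (nat_lit 2) (nat_lit 14) (.e true (nat_lit 1) (nat_lit 261) (nat_lit 2) (nat_lit 14) (.e true (nat_lit 2) (nat_lit 262) (nat_lit 2) (nat_lit 14) (.e false (nat_lit 1) (nat_lit 265) (nat_lit 2) (nat_lit 14) (.e true (nat_lit 2) (nat_lit 266) (nat_lit 2) (nat_lit 14) dC2d_i94))))))))))))))))))))))) (.nd (.nd (.nd (.nd (.nd (.nd .leaf (nat_lit 198656) (nat_lit 673) (.p (nat_lit 252) (nat_lit 2) (.n (nat_lit 253) (nat_lit 2) (.n (nat_lit 254) (nat_lit 3) (.p (nat_lit 255) (nat_lit 3) (.p (nat_lit 256) (nat_lit 1) (.p (nat_lit 258) (nat_lit 2) (.n (nat_lit 259) (nat_lit 3) (.p (nat_lit 260) (nat_lit 3) (.p (nat_lit 262) (nat_lit 2) (.p (nat_lit 263) (nat_lit 3) (.p (nat_lit 264) (nat_lit 1) (.p (nat_lit 265) (nat_lit 3) (.n (nat_lit 266) (nat_lit 1) (.n (nat_lit 267) (nat_lit 2) (.p (nat_lit 269) (nat_lit 1) (.p (nat_lit 272) (nat_lit 2) (.n (nat_lit 273) (nat_lit 2) (.p (nat_lit 274) (nat_lit 2) (.n (nat_lit 277) (nat_lit 3) (.n (nat_lit 279) (nat_lit 2) (.n (nat_lit 282) (nat_lit 3) (.p (nat_lit 283) (nat_lit 3) (.n (nat_lit 285) (nat_lit 3) (.n (nat_lit 286) (nat_lit 2) (.p (nat_lit 288) (nat_lit 2) .z))))))))))))))))))))))))) (.ct dC2d_c292 (nat_lit 1) (nat_lit 13) (.s false (nat_lit 1) (nat_lit 39) (nat_lit 0) (nat_lit 2) (nat_lit 2) true (nat_lit 8) true (nat_lit 11) false (nat_lit 2) true (nat_lit 13) true (nat_lit 11) (.e false (nat_lit 1) (nat_lit 91) (nat_lit 5) (nat_lit 8) (.e false (nat_lit 1) (nat_lit 142) (nat_lit 2) (nat_lit 11) (.e false (nat_lit 1) (nat_lit 39) (nat_lit 16) (nat_lit 2) (.e false (nat_lit 3) (nat_lit 133) (nat_lit 2) (nat_lit 11) (.e true (nat_lit 3) (nat_lit 134) (nat_lit 2) (nat_lit 11) (.e true (nat_lit 3) (nat_lit 135) (nat_lit 2) (nat_lit 11) (.e true (nat_lit 1) (nat_lit 137) (nat_lit 2) (nat_lit 11) (.e false (nat_lit 1) (nat_lit 139) (nat_lit 2) (nat_lit 11) (.e true (nat_lit 1) (nat_lit 140) (nat_lit 2) (nat_lit 11) (.e true (nat_lit 3) (nat_lit 141) (nat_lit 2) (nat_lit 11) (.e false (nat_lit 1) (nat_lit 143) (nat_lit 2) (nat_lit 11) (.e false (nat_lit 2) (nat_lit 144) (nat_lit 2) (nat_lit 11) (.e true (nat_lit 1) (nat_lit 145) (nat_lit 2) (nat_lit 11) (.e true (nat_lit 2) (nat_lit 147) (nat_lit 2) (nat_lit 11) (.e false (nat_lit 1) (nat_lit 149) (nat_lit 2) (nat_lit 11) (.e false (nat_lit 1) (nat_lit 150) (nat_lit 2) (nat_lit 11) (.e false (nat_lit 1) (nat_lit 151) (nat_lit 2) (nat_lit 11) (.e true (nat_lit 1) (nat_lit 152) (nat_lit 2) (nat_lit 11) (.e false (nat_lit 1) (nat_lit 154) (nat_lit 2) (nat_lit 11) (.e false (nat_lit 2) (nat_lit 155) (nat_lit 2) (nat_lit 11) (.e true (nat_lit 3) (nat_lit 156) (nat_lit 2) (nat_lit 11) (.e false (nat_lit 1) (nat_lit 157) (nat_lit 2) (nat_lit 11) (.u (nat_lit 2) (.p (nat_lit 1) (nat_lit 1) (.n (nat_lit 3) (nat_lit 1) (.n (nat_lit 10) (nat_lit 1) (.n (nat_lit 13) (nat_lit 1) (.p (nat_lit 23) (nat_lit 1) (.n (nat_lit 24) (nat_lit 1) (.p (nat_lit 30) (nat_lit 1) (.n (nat_lit 31) (nat_lit 1) (.p (nat_lit 33) (nat_lit 1) .z))))))))) .nil))))))))))))))))))))))))) .leaf) (nat_lit 198657) (nat_lit 722) (.n (nat_lit 289) (nat_lit 3) (.p (nat_lit 290) (nat_lit 3) (.p (nat_lit 291) (nat_lit 1) (.p (nat_lit 295) (nat_lit 3) (.p (nat_lit 296) (nat_lit 3) (.p (nat_lit 298) (nat_lit 3) (.n (nat_lit 300) (nat_lit 2) (.p (nat_lit 301) (nat_lit 2) (.p (nat_lit 303) (nat_lit 3) (.n (nat_lit 304) (nat_lit 3) .z)))))))))) (.ct dC2d_c52 (nat_lit 1) (nat_lit 8) (.s true (nat_lit 1) (nat_lit 19) (nat_lit 7) (nat_lit 1) (nat_lit 1) true (nat_lit 1) true (nat_lit 8) true (nat_lit 1) true (nat_lit 4) true (nat_lit 8) (.e true (nat_lit 2) (nat_lit 192) (nat_lit 1) (nat_lit 8) (.e false (nat_lit 2) (nat_lit 74) (nat_lit 7) (nat_lit 4) (.e false (nat_lit 2) (nat_lit 75) (nat_lit 7) (nat_lit 4) (.e true (nat_lit 3) (nat_lit 76) (nat_lit 7) (nat_lit 4) (.e false (nat_lit 3) (nat_lit 77) (nat_lit 7) (nat_lit 4) (.e false (nat_lit 3) (nat_lit 78) (nat_lit 7) (nat_lit 4) (.e false (nat_lit 3) (nat_lit 79) (nat_lit 7) (nat_lit 4) (.e false (nat_lit 3) (nat_lit 185) (nat_lit 1) (nat_lit 8) (.e false (nat_lit 1) (nat_lit 186) (nat_lit 1) (nat_lit 8) (.e true (nat_lit 3) (nat_lit 187) (nat_lit 1) (nat_lit 8) (.e false (nat_lit 3) (nat_lit 188) (nat_lit 1) (nat_lit 8) (.e true (nat_lit 2) (nat_lit 189) (nat_lit 1) (nat_lit 8) (.e true (nat_lit 2) (nat_lit 190) (nat_lit 1) (nat_lit 8) (.u (nat_lit 2) (.n (nat_lit 0) (nat_lit 2) (.p (nat_lit 1) (nat_lit 3) (.n (nat_lit 2) (nat_lit 1) (.n (nat_lit 3) (nat_lit 1) (.p (nat_lit 4) (nat_lit 2) (.p (nat_lit 6) (nat_lit 2) (.n (nat_lit 7) (nat_lit 2) (.p (nat_lit 8) (nat_lit 2) (.n (nat_lit 9) (nat_lit 1) (.p (nat_lit 10) (nat_lit 1) (.p (nat_lit 11) (nat_lit 1) (.n (nat_lit 12) (nat_lit 3) (.p (nat_lit 13) (nat_lit 1) (.n (nat_lit 14) (nat_lit 2) (.n (nat_lit 59) (nat_lit 1) (.n (nat_lit 60) (nat_lit 1) (.p (nat_lit 61) (nat_lit 1) (.n (nat_lit 62) (nat_lit 1) (.p (nat_lit 64) (nat_lit 1) .z))))))))))))))))))) .nil)))))))))))))))) .leaf) (nat_lit 198658) (nat_lit 825) (.p (nat_lit 329) (nat_lit 1) .z) (.ct dC2d_c37 (nat_lit 1) (nat_lit 6) (.s false (nat_lit 2) (nat_lit 14) (nat_lit 2) (nat_lit 2) (nat_lit 7) true (nat_lit 0) true (nat_lit 3) true (nat_lit 2) true (nat_lit 6) true (nat_lit 6) (.s true (nat_lit 2) (nat_lit 14) (nat_lit 2) (nat_lit 7) (nat_lit 2) true (nat_lit 3) true (nat_lit 6) true (nat_lit 2) true (nat_lit 6) true (nat_lit 3) (.s true (nat_lit 2) (nat_lit 14) (nat_lit 7) (nat_lit 2) (nat_lit 2) true (nat_lit 0) true (nat_lit 6) true (nat_lit 2) true (nat_lit 3) true (nat_lit 6) (.e true (nat_lit 3) (nat_lit 96) (nat_lit 7) (nat_lit 3) (.u (nat_lit 2) (.n (nat_lit 5) (nat_lit 1) (.p (nat_lit 27) (nat_lit 1) (.n (nat_lit 42) (nat_lit 1) .z))) .nil)))))) (.nd (.nd .leaf (nat_lit 198659) (nat_lit 1058) (.p (nat_lit 336) (nat_lit 1) (.p (nat_lit 337) (nat_lit 2) (.n (nat_lit 338) (nat_lit 2) (.p (nat_lit 339) (nat_lit 3) (.n (nat_lit 340) (nat_lit 1) (.n (nat_lit 341) (nat_lit 1) (.n (nat_lit 342) (nat_lit 1) (.p (nat_lit 344) (nat_lit 2) (.p (nat_lit 345) (nat_lit 1) (.p (nat_lit 346) (nat_lit 1) (.p (nat_lit 347) (nat_lit 3) (.n (nat_lit 349) (nat_lit 3) (.n (nat_lit 350) (nat_lit 3) (.p (nat_lit 351) (nat_lit 1) (.n (nat_lit 352) (nat_lit 1) (.n (nat_lit 353) (nat_lit 1) (.n (nat_lit 354) (nat_lit 1) (.n (nat_lit 355) (nat_lit 1) (.p (nat_lit 358) (nat_lit 3) (.n (nat_lit 359) (nat_lit 2) (.n (nat_lit 360) (nat_lit 3) (.p (nat_lit 362) (nat_lit 1) (.n (nat_lit 363) (nat_lit 2) (.p (nat_lit 364) (nat_lit 3) (.n (nat_lit 366) (nat_lit 1) (.p (nat_lit 367) (nat_lit 2) (.p (nat_lit 368) (nat_lit 3) (.p (nat_lit 369) (nat_lit 3) (.n (nat_lit 370) (nat_lit 2) (.n (nat_lit 371) (nat_lit 2) (.n (nat_lit 372) (nat_lit 2) (.n (nat_lit 373) (nat_lit 3) (.n (nat_lit 374) (nat_lit 2) (.p (nat_lit 379) (nat_lit 3) (.p (nat_lit 380) (nat_lit 3) (.p (nat_lit 381) (nat_lit 2) (.n (nat_lit 382) (nat_lit 3) (.n (nat_lit 383) (nat_lit 2) .z)))))))))))))))))))))))))))))))))))))) (.ct dC2d_c308 (nat_lit 1) (nat_lit 15) (.s false (nat_lit 1) (nat_lit 48) (nat_lit 3) (nat_lit 1) (nat_lit 1) true (nat_lit 10) true (nat_lit 17) false (nat_lit 3) true (nat_lit 15) true (nat_lit 17) (.e false (nat_lit 1) (nat_lit 102) (nat_lit 8) (nat_lit 10) (.e false (nat_lit 1) (nat_lit 104) (nat_lit 8) (nat_lit 10) (.e false (nat_lit 2) (nat_lit 252) (nat_lit 1) (nat_lit 17) (.e true (nat_lit 2) (nat_lit 253) (nat_lit 1) (nat_lit 17) (.e false (nat_lit 1) (nat_lit 255) (nat_lit 1) (nat_lit 17) (.e false (nat_lit 2) (nat_lit 257) (nat_lit 1) (nat_lit 17) dC2d_i95)))))))) .leaf) (nat_lit 198661) (nat_lit 1303) (.p (nat_lit 397) (nat_lit 2) (.p (nat_lit 398) (nat_lit 3) (.p (nat_lit 399) (nat_lit 1) (.p (nat_lit 400) (nat_lit 1) (.p (nat_lit 401) (nat_lit 3) (.n (nat_lit 402) (nat_lit 2) (.n (nat_lit 403) (nat_lit 1) (.n (nat_lit 405) (nat_lit 2) (.p (nat_lit 406) (nat_lit 2) (.p (nat_lit 408) (nat_lit 3) (.n (nat_lit 409) (nat_lit 3) (.p (nat_lit 410) (nat_lit 1) (.p (nat_lit 411) (nat_lit 2) (.n (nat_lit 412) (nat_lit 3) (.n (nat_lit 413) (nat_lit 3) (.n (nat_lit 414) (nat_lit 1) (.p (nat_lit 415) (nat_lit 1) (.p (nat_lit 416) (nat_lit 1) (.n (nat_lit 418) (nat_lit 2) (.p (nat_lit 419) (nat_lit 3) (.p (nat_lit 420) (nat_lit 3) (.n (nat_lit 421) (nat_lit 1) (.n (nat_lit 423) (nat_lit 3) (.p (nat_lit 424) (nat_lit 1) (.n (nat_lit 426) (nat_lit 1) (.n (nat_lit 430) (nat_lit 1) (.n (nat_lit 432) (nat_lit 3) (.n (nat_lit 435) (nat_lit 1) .z)))))))))))))))))))))))))))) (.ct dC2d_c293 (nat_lit 1) (nat_lit 11) (.s false (nat_lit 1) (nat_lit 39) (nat_lit 2) (nat_lit 7) (nat_lit 0) true (nat_lit 11) true (nat_lit 16) true (nat_lit 0) true (nat_lit 14) true (nat_lit 9) (.e false (nat_lit 1) (nat_lit 334) (nat_lit 0) (nat_lit 16) (.e true (nat_lit 1) (nat_lit 44) (nat_lit 39) (nat_lit 0) (.e true (nat_lit 2) (nat_lit 252) (nat_lit 2) (nat_lit 14) (.e false (nat_lit 3) (nat_lit 254) (nat_lit 2) (nat_lit 14) (.e true (nat_lit 1) (nat_lit 255) (nat_lit 2) (nat_lit 14) (.e true (nat_lit 2) (nat_lit 256) (nat_lit 2) (nat_lit 14) (.e false (nat_lit 2) (nat_lit 257) (nat_lit 2) (nat_lit 14) (.e false (nat_lit 1) (nat_lit 258) (nat_lit 2) (nat_lit 14) (.e true (nat_lit 2) (nat_lit 259) (nat_lit 2) (nat_lit 14) dC2d_i96))))))))))) .leaf)) (nat_lit 198662) (nat_lit 1416) (.n (nat_lit 436) (nat_lit 2) (.p (nat_lit 437) (nat_lit 3) (.n (nat_lit 438) (nat_lit 1) (.n (nat_lit 439) (nat_lit 2) (.p (nat_lit 440) (nat_lit 3) (.n (nat_lit 442) (nat_lit 3) (.n (nat_lit 443) (nat_lit 1) (.n (nat_lit 444) (nat_lit 3) (.p (nat_lit 445) (nat_lit 2) (.n (nat_lit 447) (nat_lit 1) (.p (nat_lit 448) (nat_lit 1) (.n (nat_lit 450) (nat_lit 3) .z)))))))))))) (.ct dC2d_c53 (nat_lit 1) (nat_lit 7) (.s false (nat_lit 3) (nat_lit 19) (nat_lit 4) (nat_lit 7) (nat_lit 2) true (nat_lit 4) true (nat_lit 9) true (nat_lit 3) true (nat_lit 8) true (nat_lit 6) (.s true (nat_lit 1) (nat_lit 18) (nat_lit 14) (nat_lit 2) (nat_lit 2) true (nat_lit 0) true (nat_lit 9) true (nat_lit 3) true (nat_lit 4) true (nat_lit 9) (.s false (nat_lit 3) (nat_lit 20) (nat_lit 1) (nat_lit 4) (nat_lit 7) true (nat_lit 3) true (nat_lit 6) true (nat_lit 2) true (nat_lit 10) true (nat_lit 8) (.s false (nat_lit 1) (nat_lit 20) (nat_lit 1) (nat_lit 14) (nat_lit 2) true (nat_lit 7) true (nat_lit 9) true (nat_lit 2) true (nat_lit 10) true (nat_lit 4) (.s true (nat_lit 1) (nat_lit 31) (nat_lit 2) (nat_lit 2) (nat_lit 7) true (nat_lit 2) true (nat_lit 6) true (nat_lit 1) true (nat_lit 9) true (nat_lit 9) (.s false (nat_lit 1) (nat_lit 39) (nat_lit 2) (nat_lit 7) (nat_lit 1) true (nat_lit 7) true (nat_lit 10) true (nat_lit 0) true (nat_lit 9) true (nat_lit 6) (.s false (nat_lit 1) (nat_lit 39) (nat_lit 6) (nat_lit 2) (nat_lit 2) true (nat_lit 3) true (nat_lit 9) true (nat_lit 0) true (nat_lit 7) true (nat_lit 9) (.s true (nat_lit 1) (nat_lit 47) (nat_lit 4) (nat_lit 2) (nat_lit 2) true (nat_lit 4) true (nat_lit 9) false (nat_lit 0) true (nat_lit 8) true (nat_lit 9) (.e true (nat_lit 2) (nat_lit 303) (nat_lit 2) (nat_lit 9) (.e true (nat_lit 1) (nat_lit 304) (nat_lit 2) (nat_lit 9) dC2d_i97))))))))))) (.nd (.nd (.nd .leaf (nat_lit 199681) (nat_lit 760) (.p (nat_lit 319) (nat_lit 1) .z) .df .leaf) (nat_lit 199684) (nat_lit 1342) (.p (nat_lit 397) (nat_lit 1) (.n (nat_lit 398) (nat_lit 2) (.p (nat_lit 399) (nat_lit 1) (.n (nat_lit 401) (nat_lit 1) (.n (nat_lit 402) (nat_lit 1) (.n (nat_lit 404) (nat_lit 3) (.n (nat_lit 405) (nat_lit 2) (.p (nat_lit 406) (nat_lit 1) (.p (nat_lit 407) (nat_lit 1) (.n (nat_lit 408) (nat_lit 1) (.p (nat_lit 419) (nat_lit 2) (.p (nat_lit 420) (nat_lit 3) (.p (nat_lit 421) (nat_lit 2) .z))))))))))))) (.ct dC2d_c293 (nat_lit 1) (nat_lit 12) (.s true (nat_lit 1) (nat_lit 97) (nat_lit 1) (nat_lit 2) (nat_lit 1) true (nat_lit 12) true (nat_lit 15) false (nat_lit 6) true (nat_lit 15) true (nat_lit 14) (.e false (nat_lit 1) (nat_lit 97) (nat_lit 15) (nat_lit 6) (.e true (nat_lit 3) (nat_lit 305) (nat_lit 1) (nat_lit 15) (.e false (nat_lit 3) (nat_lit 307) (nat_lit 1) (nat_lit 15) (.e false (nat_lit 2) (nat_lit 308) (nat_lit 1) (nat_lit 15) (.e false (nat_lit 3) (nat_lit 309) (nat_lit 1) (nat_lit 15) (.e false (nat_lit 1) (nat_lit 311) (nat_lit 1) (nat_lit 15) (.e false (nat_lit 1) (nat_lit 312) (nat_lit 1) (nat_lit 15) (.e true (nat_lit 1) (nat_lit 313) (nat_lit 1) (nat_lit 15) (.e false (nat_lit 1) (nat_lit 314) (nat_lit 1) (nat_lit 15) (.e true (nat_lit 3) (nat_lit 315) (nat_lit 1) (nat_lit 15) (.e true (nat_lit 1) (nat_lit 317) (nat_lit 1) (nat_lit 15) (.e true (nat_lit 1) (nat_lit 319) (nat_lit 1) (nat_lit 15) (.e false (nat_lit 1) (nat_lit 320) (nat_lit 1) (nat_lit 15) (.e false (nat_lit 1) (nat_lit 321) (nat_lit 1) (nat_lit 15) (.e false (nat_lit 1) (nat_lit 322) (nat_lit 1) (nat_lit 15) (.e false (nat_lit 1) (nat_lit 282) (nat_lit 2) (nat_lit 14) (.u (nat_lit 2) (.n (nat_lit 1) (nat_lit 1) (.n (nat_lit 2) (nat_lit 1) (.n (nat_lit 4) (nat_lit 1) (.p (nat_lit 5) (nat_lit 1) (.p (nat_lit 6) (nat_lit 1) (.p (nat_lit 8) (nat_lit 1) (.n (nat_lit 10) (nat_lit 1) (.p (nat_lit 11) (nat_lit 1) (.p (nat_lit 14) (nat_lit 1) (.n (nat_lit 18) (nat_lit 1) (.n (nat_lit 19) (nat_lit 1) .z))))))))))) .nil))))))))))))))))))) .leaf) (nat_lit 200705) (nat_lit 761) (.p (nat_lit 320) (nat_lit 1) .z) .df (.nd (.nd .leaf (nat_lit 200708) (nat_lit 1336) (.p (nat_lit 397) (nat_lit 1) (.n (nat_lit 399) (nat_lit 1) (.p (nat_lit 400) (nat_lit 3) (.p (nat_lit 401) (nat_lit 1) (.n (nat_lit 402) (nat_lit 1) (.n (nat_lit 403) (nat_lit 1) (.n (nat_lit 404) (nat_lit 2) (.n (nat_lit 405) (nat_lit 1) (.n (nat_lit 406) (nat_lit 1) (.n (nat_lit 407) (nat_lit 3) (.p (nat_lit 409) (nat_lit 1) (.p (nat_lit 410) (nat_lit 1) (.p (nat_lit 411) (nat_lit 2) (.p (nat_lit 412) (nat_lit 1) (.p (nat_lit 413) (nat_lit 1) (.n (nat_lit 414) (nat_lit 1) (.p (nat_lit 415) (nat_lit 1) (.n (nat_lit 416) (nat_lit 3) (.p (nat_lit 418) (nat_lit 3) (.n (nat_lit 419) (nat_lit 3) (.n (nat_lit 420) (nat_lit 2) (.n (nat_lit 432) (nat_lit 3) .z)))))))))))))))))))))) (.ct dC2d_c293 (nat_lit 1) (nat_lit 12) (.s true (nat_lit 1) (nat_lit 43) (nat_lit 2) (nat_lit 2) (nat_lit 4) true (nat_lit 6) true (nat_lit 12) false (nat_lit 0) true (nat_lit 14) true (nat_lit 14) (.e false (nat_lit 1) (nat_lit 98) (nat_lit 14) (nat_lit 6) (.e false (nat_lit 2) (nat_lit 43) (nat_lit 40) (nat_lit 0) (.e true (nat_lit 2) (nat_lit 43) (nat_lit 41) (nat_lit 0) (.e true (nat_lit 1) (nat_lit 252) (nat_lit 2) (nat_lit 14) (.e false (nat_lit 1) (nat_lit 254) (nat_lit 2) (nat_lit 14) (.e false (nat_lit 2) (nat_lit 255) (nat_lit 2) (nat_lit 14) (.e false (nat_lit 2) (nat_lit 257) (nat_lit 2) (nat_lit 14) dC2d_i98))))))))) .leaf) (nat_lit 201729) (nat_lit 762) (.p (nat_lit 321) (nat_lit 1) .z) .df .leaf))) (nat_lit 201732) (nat_lit 1293) (.n (nat_lit 397) (nat_lit 2) (.p (nat_lit 398) (nat_lit 3) (.p (nat_lit 399) (nat_lit 3) (.n (nat_lit 401) (nat_lit 3) (.n (nat_lit 404) (nat_lit 2) (.p (nat_lit 405) (nat_lit 1) (.n (nat_lit 406) (nat_lit 1) (.n (nat_lit 407) (nat_lit 2) (.n (nat_lit 408) (nat_lit 3) (.n (nat_lit 409) (nat_lit 2) (.p (nat_lit 410) (nat_lit 3) (.p (nat_lit 411) (nat_lit 3) (.p (nat_lit 412) (nat_lit 1) (.p (nat_lit 413) (nat_lit 1) (.n (nat_lit 414) (nat_lit 2) (.p (nat_lit 416) (nat_lit 3) (.n (nat_lit 418) (nat_lit 1) (.n (nat_lit 420) (nat_lit 3) (.p (nat_lit 421) (nat_lit 2) (.n (nat_lit 431) (nat_lit 1) (.n (nat_lit 432) (nat_lit 3) (.n (nat_lit 435) (nat_lit 2) .z)))))))))))))))))))))) (.ct dC2d_c293 (nat_lit 1) (nat_lit 12) (.s true (nat_lit 1) (nat_lit 99) (nat_lit 1) (nat_lit 2) (nat_lit 1) true (nat_lit 12) true (nat_lit 15) false (nat_lit 6) true (nat_lit 15) true (nat_lit 14) (.e false (nat_lit 3) (nat_lit 305) (nat_lit 1) (nat_lit 15) (.e false (nat_lit 2) (nat_lit 306) (nat_lit 1) (nat_lit 15) (.e true (nat_lit 2) (nat_lit 307) (nat_lit 1) (nat_lit 15) (.e false (nat_lit 1) (nat_lit 308) (nat_lit 1) (nat_lit 15) (.e true (nat_lit 2) (nat_lit 309) (nat_lit 1) (nat_lit 15) (.e false (nat_lit 3) (nat_lit 310) (nat_lit 1) (nat_lit 15) (.e false (nat_lit 1) (nat_lit 311) (nat_lit 1) (nat_lit 15) (.e false (nat_lit 1) (nat_lit 312) (nat_lit 1) (nat_lit 15) (.e false (nat_lit 1) (nat_lit 313) (nat_lit 1) (nat_lit 15) (.e true (nat_lit 2) (nat_lit 314) (nat_lit 1) (nat_lit 15) (.e true (nat_lit 2) (nat_lit 317) (nat_lit 1) (nat_lit 15) (.e false (nat_lit 1) (nat_lit 99) (nat_lit 15) (nat_lit 6) dC2d_i99)))))))))))))) (.nd (.nd (.nd (.nd .leaf (nat_lit 202753) (nat_lit 805) (.p (nat_lit 305) (nat_lit 2) (.n (nat_lit 306) (nat_lit 2) (.n (nat_lit 307) (nat_lit 1) (.n (nat_lit 308) (nat_lit 2) (.n (nat_lit 309) (nat_lit 2) (.n (nat_lit 310) (nat_lit 1) (.p (nat_lit 311) (nat_lit 2) (.p (nat_lit 312) (nat_lit 2) (.n (nat_lit 313) (nat_lit 3) (.p (nat_lit 314) (nat_lit 2) (.p (nat_lit 315) (nat_lit 3) (.n (nat_lit 318) (nat_lit 1) (.p (nat_lit 321) (nat_lit 1) .z))))))))))))) (.ct dC2d_c277 (nat_lit 1) (nat_lit 9) (.s true (nat_lit 1) (nat_lit 42) (nat_lit 1) (nat_lit 2) (nat_lit 2) true (nat_lit 5) true (nat_lit 8) false (nat_lit 1) true (nat_lit 9) true (nat_lit 8) (.e true (nat_lit 1) (nat_lit 97) (nat_lit 6) (nat_lit 5) (.e true (nat_lit 1) (nat_lit 175) (nat_lit 2) (nat_lit 8) (.e false (nat_lit 1) (nat_lit 42) (nat_lit 18) (nat_lit 1) (.e false (nat_lit 1) (nat_lit 196) (nat_lit 1) (nat_lit 9) (.e false (nat_lit 2) (nat_lit 197) (nat_lit 1) (nat_lit 9) (.e false (nat_lit 1) (nat_lit 199) (nat_lit 1) (nat_lit 9) (.e false (nat_lit 1) (nat_lit 180) (nat_lit 2) (nat_lit 8) .nil))))))))) .leaf) (nat_lit 202756) (nat_lit 1245) (.n (nat_lit 397) (nat_lit 3) (.n (nat_lit 400) (nat_lit 2) (.p (nat_lit 401) (nat_lit 2) (.n (nat_lit 402) (nat_lit 1) (.n (nat_lit 403) (nat_lit 1) (.n (nat_lit 404) (nat_lit 2) (.n (nat_lit 405) (nat_lit 1) (.n (nat_lit 406) (nat_lit 1) (.n (nat_lit 407) (nat_lit 2) (.p (nat_lit 408) (nat_lit 1) (.p (nat_lit 410) (nat_lit 2) (.n (nat_lit 411) (nat_lit 3) (.p (nat_lit 414) (nat_lit 3) (.p (nat_lit 415) (nat_lit 2) (.n (nat_lit 416) (nat_lit 1) (.p (nat_lit 418) (nat_lit 3) (.p (nat_lit 420) (nat_lit 3) (.p (nat_lit 421) (nat_lit 1) (.p (nat_lit 431) (nat_lit 3) (.n (nat_lit 435) (nat_lit 1) .z)))))))))))))))))))) (.ct dC2d_c293 (nat_lit 1) (nat_lit 12) dC2d_i100) .leaf) (nat_lit 203777) (nat_lit 788) (.n (nat_lit 305) (nat_lit 3) (.p (nat_lit 307) (nat_lit 3) (.p (nat_lit 308) (nat_lit 2) (.p (nat_lit 309) (nat_lit 3) (.p (nat_lit 311) (nat_lit 1) (.p (nat_lit 312) (nat_lit 1) (.n (nat_lit 313) (nat_lit 2) (.p (nat_lit 314) (nat_lit 2) (.n (nat_lit 315) (nat_lit 1) (.n (nat_lit 317) (nat_lit 2) (.n (nat_lit 318) (nat_lit 1) .z))))))))))) (.ct dC2d_c277 (nat_lit 1) (nat_lit 9) (.s true (nat_lit 1) (nat_lit 20) (nat_lit 0) (nat_lit 7) (nat_lit 1) true (nat_lit 7) true (nat_lit 9) true (nat_lit 0) true (nat_lit 10) true (nat_lit 4) (.e true (nat_lit 1) (nat_lit 37) (nat_lit 20) (nat_lit 0) (.e false (nat_lit 1) (nat_lit 204) (nat_lit 0) (nat_lit 10) (.e false (nat_lit 2) (nat_lit 82) (nat_lit 7) (nat_lit 4) (.e false (nat_lit 1) (nat_lit 84) (nat_lit 7) (nat_lit 4) (.e false (nat_lit 2) (nat_lit 85) (nat_lit 7) (nat_lit 4) (.e true (nat_lit 1) (nat_lit 88) (nat_lit 7) (nat_lit 4) (.e true (nat_lit 1) (nat_lit 90) (nat_lit 7) (nat_lit 4) (.u (nat_lit 2) (.p (nat_lit 0) (nat_lit 1) (.p (nat_lit 3) (nat_lit 1) (.n (nat_lit 4) (nat_lit 1) .z))) .nil)))))))))) (.nd (.nd .leaf (nat_lit 203780) (nat_lit 1299) (.n (nat_lit 397) (nat_lit 3) (.n (nat_lit 398) (nat_lit 1) (.n (nat_lit 399) (nat_lit 3) (.p (nat_lit 400) (nat_lit 1) (.p (nat_lit 402) (nat_lit 3) (.p (nat_lit 403) (nat_lit 1) (.n (nat_lit 404) (nat_lit 1) (.n (nat_lit 405) (nat_lit 1) (.p (nat_lit 406) (nat_lit 2) (.p (nat_lit 408) (nat_lit 1) (.p (nat_lit 409) (nat_lit 3) (.p (nat_lit 411) (nat_lit 3) (.n (nat_lit 414) (nat_lit 3) (.p (nat_lit 415) (nat_lit 3) (.p (nat_lit 420) (nat_lit 2) (.p (nat_lit 421) (nat_lit 2) (.n (nat_lit 431) (nat_lit 3) (.n (nat_lit 432) (nat_lit 1) (.p (nat_lit 435) (nat_lit 1) .z))))))))))))))))))) (.ct dC2d_c293 (nat_lit 1) (nat_lit 12) (.s false (nat_lit 1) (nat_lit 48) (nat_lit 4) (nat_lit 2) (nat_lit 0) true (nat_lit 8) true (nat_lit 16) false (nat_lit 2) true (nat_lit 12) true (nat_lit 14) (.e true (nat_lit 1) (nat_lit 105) (nat_lit 9) (nat_lit 8) (.e false (nat_lit 2) (nat_lit 325) (nat_lit 0) (nat_lit 16) (.e true (nat_lit 2) (nat_lit 326) (nat_lit 0) (nat_lit 16) (.e false (nat_lit 1) (nat_lit 329) (nat_lit 0) (nat_lit 16) (.e true (nat_lit 1) (nat_lit 48) (nat_lit 24) (nat_lit 2) (.e true (nat_lit 1) (nat_lit 48) (nat_lit 25) (nat_lit 2) (.e true (nat_lit 1) (nat_lit 48) (nat_lit 26) (nat_lit 2) (.e false (nat_lit 2) (nat_lit 48) (nat_lit 27) (nat_lit 2) (.e false (nat_lit 1) (nat_lit 48) (nat_lit 28) (nat_lit 2) (.e true (nat_lit 1) (nat_lit 48) (nat_lit 29) (nat_lit 2) (.e true (nat_lit 1) (nat_lit 197) (nat_lit 4) (nat_lit 12) (.e false (nat_lit 1) (nat_lit 198) (nat_lit 4) (nat_lit 12) dC2d_i101)))))))))))))) .leaf) (nat_lit 204800) (nat_lit 799) (.n (nat_lit 305) (nat_lit 1) (.p (nat_lit 306) (nat_lit 2) (.p (nat_lit 307) (nat_lit 1) (.p (nat_lit 308) (nat_lit 2) (.p (nat_lit 309) (nat_lit 1) (.n (nat_lit 311) (nat_lit 3) (.n (nat_lit 312) (nat_lit 1) (.p (nat_lit 313) (nat_lit 3) (.n (nat_lit 314) (nat_lit 3) (.p (nat_lit 315) (nat_lit 3) (.p (nat_lit 316) (nat_lit 1) (.p (nat_lit 318) (nat_lit 1) (.n (nat_lit 319) (nat_lit 1) (.p (nat_lit 320) (nat_lit 1) (.p (nat_lit 321) (nat_lit 1) (.p (nat_lit 322) (nat_lit 1) (.p (nat_lit 323) (nat_lit 1) .z))))))))))))))))) (.ct dC2d_c277 (nat_lit 1) (nat_lit 10) (.s true (nat_lit 1) (nat_lit 45) (nat_lit 2) (nat_lit 0) (nat_lit 2) true (nat_lit 4) true (nat_lit 8) false (nat_lit 2) true (nat_lit 8) true (nat_lit 10) (.e false (nat_lit 1) (nat_lit 87) (nat_lit 7) (nat_lit 4) (.e false (nat_lit 1) (nat_lit 169) (nat_lit 2) (nat_lit 8) (.e false (nat_lit 3) (nat_lit 170) (nat_lit 2) (nat_lit 8) (.e true (nat_lit 3) (nat_lit 171) (nat_lit 2) (nat_lit 8) (.e false (nat_lit 2) (nat_lit 172) (nat_lit 2) (nat_lit 8) (.e true (nat_lit 1) (nat_lit 173) (nat_lit 2) (nat_lit 8) (.e true (nat_lit 3) (nat_lit 174) (nat_lit 2) (nat_lit 8) (.e false (nat_lit 2) (nat_lit 175) (nat_lit 2) (nat_lit 8) (.e false (nat_lit 2) (nat_lit 176) (nat_lit 2) (nat_lit 8) (.e true (nat_lit 1) (nat_lit 180) (nat_lit 2) (nat_lit 8) (.e false (nat_lit 1) (nat_lit 182) (nat_lit 2) (nat_lit 8) (.e false (nat_lit 1) (nat_lit 183) (nat_lit 2) (nat_lit 8) (.e false (nat_lit 1) (nat_lit 45) (nat_lit 16) (nat_lit 2) (.e false (nat_lit 1) (nat_lit 184) (nat_lit 2) (nat_lit 8) (.u (nat_lit 2) (.n (nat_lit 2) (nat_lit 1) (.n (nat_lit 5) (nat_lit 1) (.p (nat_lit 6) (nat_lit 1) (.p (nat_lit 7) (nat_lit 1) (.n (nat_lit 8) (nat_lit 1) (.n (nat_lit 63) (nat_lit 1) (.n (nat_lit 66) (nat_lit 1) (.n (nat_lit 67) (nat_lit 1) .z)))))))) .nil))))))))))))))))) .leaf)) (nat_lit 204801) (nat_lit 821) (.p (nat_lit 332) (nat_lit 1) .z) .df (.nd (.nd (.nd .leaf (nat_lit 205824) (nat_lit 812) (.n (nat_lit 305) (nat_lit 1) (.n (nat_lit 306) (nat_lit 3) (.p (nat_lit 307) (nat_lit 3) (.p (nat_lit 308) (nat_lit 1) (.p (nat_lit 309) (nat_lit 1) (.n (nat_lit 310) (nat_lit 2) (.n (nat_lit 311) (nat_lit 2) (.p (nat_lit 312) (nat_lit 1) (.p (nat_lit 313) (nat_lit 1) (.n (nat_lit 314) (nat_lit 3) (.n (nat_lit 315) (nat_lit 1) (.n (nat_lit 316) (nat_lit 2) (.p (nat_lit 317) (nat_lit 3) (.p (nat_lit 318) (nat_lit 1) (.n (nat_lit 320) (nat_lit 1) (.n (nat_lit 321) (nat_lit 2) (.p (nat_lit 322) (nat_lit 1) (.p (nat_lit 323) (nat_lit 1) .z)))))))))))))))))) (.ct dC2d_c277 (nat_lit 1) (nat_lit 10) (.s true (nat_lit 1) (nat_lit 46) (nat_lit 2) (nat_lit 2) (nat_lit 0) true (nat_lit 6) true (nat_lit 10) false (nat_lit 2) true (nat_lit 8) true (nat_lit 8) (.e true (nat_lit 1) (nat_lit 102) (nat_lit 5) (nat_lit 6) (.e false (nat_lit 1) (nat_lit 46) (nat_lit 17) (nat_lit 2) (.e true (nat_lit 2) (nat_lit 169) (nat_lit 2) (nat_lit 8) (.e false (nat_lit 3) (nat_lit 170) (nat_lit 2) (nat_lit 8) (.e true (nat_lit 2) (nat_lit 172) (nat_lit 2) (nat_lit 8) (.e false (nat_lit 3) (nat_lit 173) (nat_lit 2) (nat_lit 8) (.e true (nat_lit 3) (nat_lit 176) (nat_lit 2) (nat_lit 8) (.e true (nat_lit 2) (nat_lit 177) (nat_lit 2) (nat_lit 8) (.e false (nat_lit 3) (nat_lit 179) (nat_lit 2) (nat_lit 8) (.e false (nat_lit 1) (nat_lit 180) (nat_lit 2) (nat_lit 8) (.e true (nat_lit 2) (nat_lit 182) (nat_lit 2) (nat_lit 8) (.e false (nat_lit 1) (nat_lit 184) (nat_lit 2) (nat_lit 8) (.e false (nat_lit 1) (nat_lit 171) (nat_lit 2) (nat_lit 8) (.u (nat_lit 2) (.p (nat_lit 1) (nat_lit 2) (.n (nat_lit 3) (nat_lit 1) (.n (nat_lit 5) (nat_lit 1) (.p (nat_lit 10) (nat_lit 1) (.p (nat_lit 11) (nat_lit 1) (.n (nat_lit 12) (nat_lit 1) .z)))))) .nil)))))))))))))))) .leaf) (nat_lit 205825) (nat_lit 822) (.p (nat_lit 333) (nat_lit 1) .z) .df .leaf) (nat_lit 205827) (nat_lit 1357) (.n (nat_lit 397) (nat_lit 1) (.n (nat_lit 399) (nat_lit 2) (.p (nat_lit 400) (nat_lit 3) (.n (nat_lit 401) (nat_lit 2) (.p (nat_lit 402) (nat_lit 1) (.p (nat_lit 403) (nat_lit 2) (.p (nat_lit 404) (nat_lit 1) (.n (nat_lit 405) (nat_lit 2) (.p (nat_lit 406) (nat_lit 1) (.p (nat_lit 407) (nat_lit 1) (.p (nat_lit 408) (nat_lit 3) (.p (nat_lit 409) (nat_lit 1) (.n (nat_lit 410) (nat_lit 3) (.p (nat_lit 411) (nat_lit 3) (.n (nat_lit 412) (nat_lit 1) (.p (nat_lit 413) (nat_lit 3) (.n (nat_lit 414) (nat_lit 1) (.n (nat_lit 415) (nat_lit 3) (.n (nat_lit 416) (nat_lit 1) (.p (nat_lit 417) (nat_lit 2) (.n (nat_lit 418) (nat_lit 2) (.p (nat_lit 419) (nat_lit 2) (.p (nat_lit 420) (nat_lit 1) (.n (nat_lit 421) (nat_lit 1) (.n (nat_lit 431) (nat_lit 3) .z))))))))))))))))))))))))) (.ct dC2d_c293 (nat_lit 1) (nat_lit 13) (.s false (nat_lit 3) (nat_lit 46) (nat_lit 0) (nat_lit 7) (nat_lit 1) true (nat_lit 13) true (nat_lit 15) false (nat_lit 1) true (nat_lit 16) true (nat_lit 9) dC2d_i103)) (.nd .leaf (nat_lit 206848) (nat_lit 806) (.p (nat_lit 305) (nat_lit 3) (.p (nat_lit 306) (nat_lit 2) (.n (nat_lit 307) (nat_lit 2) (.n (nat_lit 308) (nat_lit 3) (.n (nat_lit 309) (nat_lit 3) (.n (nat_lit 311) (nat_lit 2) (.n (nat_lit 312) (nat_lit 2) (.p (nat_lit 314) (nat_lit 2) (.p (nat_lit 315) (nat_lit 2) (.p (nat_lit 317) (nat_lit 1) (.p (nat_lit 318) (nat_lit 1) (.n (nat_lit 321) (nat_lit 1) (.p (nat_lit 322) (nat_lit 1) (.p (nat_lit 323) (nat_lit 1) .z)))))))))))))) (.ct dC2d_c277 (nat_lit 1) (nat_lit 10) (.s true (nat_lit 1) (nat_lit 48) (nat_lit 2) (nat_lit 0) (nat_lit 1) true (nat_lit 5) true (nat_lit 9) false (nat_lit 3) true (nat_lit 8) true (nat_lit 10) (.e false (nat_lit 1) (nat_lit 98) (nat_lit 6) (nat_lit 5) (.e true (nat_lit 1) (nat_lit 100) (nat_lit 6) (nat_lit 5) (.e true (nat_lit 1) (nat_lit 198) (nat_lit 1) (nat_lit 9) (.e false (nat_lit 1) (nat_lit 48) (nat_lit 12) (nat_lit 3) (.e false (nat_lit 1) (nat_lit 170) (nat_lit 2) (nat_lit 8) (.e true (nat_lit 1) (nat_lit 171) (nat_lit 2) (nat_lit 8) (.e true (nat_lit 1) (nat_lit 172) (nat_lit 2) (nat_lit 8) (.e true (nat_lit 1) (nat_lit 174) (nat_lit 2) (nat_lit 8) (.e false (nat_lit 1) (nat_lit 181) (nat_lit 2) (nat_lit 8) (.u (nat_lit 2) (.n (nat_lit 0) (nat_lit 1) (.p (nat_lit 4) (nat_lit 1) (.p (nat_lit 8) (nat_lit 1) (.n (nat_lit 9) (nat_lit 1) .z)))) .nil)))))))))))) .leaf)))) (nat_lit 206849) (nat_lit 837) (.n (nat_lit 325) (nat_lit 2) (.p (nat_lit 326) (nat_lit 1) (.n (nat_lit 327) (nat_lit 1) (.p (nat_lit 328) (nat_lit 2) (.p (nat_lit 329) (nat_lit 3) (.p (nat_lit 330) (nat_lit 2) (.n (nat_lit 331) (nat_lit 2) (.p (nat_lit 333) (nat_lit 1) .z)))))))) (.ct dC2d_c37 (nat_lit 1) (nat_lit 7) (.s false (nat_lit 3) (nat_lit 46) (nat_lit 1) (nat_lit 2) (nat_lit 2) true (nat_lit 4) true (nat_lit 6) false (nat_lit 1) true (nat_lit 7) true (nat_lit 6) (.e false (nat_lit 3) (nat_lit 102) (nat_lit 6) (nat_lit 4) (.e false (nat_lit 3) (nat_lit 189) (nat_lit 2) (nat_lit 6) (.e true (nat_lit 3) (nat_lit 46) (nat_lit 18) (nat_lit 1) (.e false (nat_lit 1) (nat_lit 201) (nat_lit 1) (nat_lit 7) (.e true (nat_lit 3) (nat_lit 204) (nat_lit 1) (nat_lit 7) (.e true (nat_lit 3) (nat_lit 192) (nat_lit 2) (nat_lit 6) (.u (nat_lit 2) (.n (nat_lit 0) (nat_lit 3) (.n (nat_lit 1) (nat_lit 1) (.n (nat_lit 2) (nat_lit 1) (.p (nat_lit 3) (nat_lit 1) (.n (nat_lit 4) (nat_lit 2) (.p (nat_lit 6) (nat_lit 1) (.n (nat_lit 7) (nat_lit 1) (.n (nat_lit 44) (nat_lit 1) (.p (nat_lit 45) (nat_lit 1) .z))))))))) .nil))))))))) (.nd (.nd (.nd (.nd (.nd .leaf (nat_lit 206851) (nat_lit 1275) (.n (nat_lit 397) (nat_lit 1) (.n (nat_lit 399) (nat_lit 2) (.p (nat_lit 400) (nat_lit 3) (.n (nat_lit 401) (nat_lit 2) (.p (nat_lit 402) (nat_lit 1) (.p (nat_lit 403) (nat_lit 3) (.n (nat_lit 404) (nat_lit 2) (.p (nat_lit 406) (nat_lit 1) (.n (nat_lit 407) (nat_lit 2) (.p (nat_lit 408) (nat_lit 3) (.n (nat_lit 409) (nat_lit 3) (.p (nat_lit 410) (nat_lit 1) (.n (nat_lit 412) (nat_lit 1) (.n (nat_lit 413) (nat_lit 1) (.p (nat_lit 414) (nat_lit 3) (.p (nat_lit 415) (nat_lit 1) (.n (nat_lit 416) (nat_lit 1) (.n (nat_lit 420) (nat_lit 2) (.p (nat_lit 421) (nat_lit 3) (.p (nat_lit 431) (nat_lit 2) (.n (nat_lit 435) (nat_lit 2) .z))))))))))))))))))))) (.ct dC2d_c293 (nat_lit 1) (nat_lit 13) (.s false (nat_lit 1) (nat_lit 48) (nat_lit 3) (nat_lit 1) (nat_lit 2) true (nat_lit 7) true (nat_lit 14) false (nat_lit 2) true (nat_lit 13) true (nat_lit 15) (.e false (nat_lit 1) (nat_lit 102) (nat_lit 11) (nat_lit 7) (.e false (nat_lit 1) (nat_lit 104) (nat_lit 11) (nat_lit 7) (.e true (nat_lit 1) (nat_lit 252) (nat_lit 2) (nat_lit 14) (.e true (nat_lit 1) (nat_lit 253) (nat_lit 2) (nat_lit 14) (.e false (nat_lit 1) (nat_lit 255) (nat_lit 2) (nat_lit 14) (.e true (nat_lit 1) (nat_lit 257) (nat_lit 2) (nat_lit 14) (.e true (nat_lit 3) (nat_lit 266) (nat_lit 2) (nat_lit 14) dC2d_i104))))))))) .leaf) (nat_lit 206852) (nat_lit 1434) (.p (nat_lit 436) (nat_lit 2) (.n (nat_lit 437) (nat_lit 2) (.p (nat_lit 438) (nat_lit 3) (.p (nat_lit 439) (nat_lit 3) (.n (nat_lit 440) (nat_lit 1) (.p (nat_lit 441) (nat_lit 2) (.p (nat_lit 442) (nat_lit 2) (.n (nat_lit 444) (nat_lit 1) (.n (nat_lit 447) (nat_lit 3) (.p (nat_lit 448) (nat_lit 1) .z)))))))))) (.ct dC2d_c53 (nat_lit 1) (nat_lit 8) (.s true (nat_lit 1) (nat_lit 47) (nat_lit 2) (nat_lit 4) (nat_lit 2) true (nat_lit 6) true (nat_lit 9) false (nat_lit 0) true (nat_lit 9) true (nat_lit 8) (.e true (nat_lit 1) (nat_lit 163) (nat_lit 7) (nat_lit 6) (.e true (nat_lit 2) (nat_lit 164) (nat_lit 7) (nat_lit 6) (.e false (nat_lit 2) (nat_lit 165) (nat_lit 7) (nat_lit 6) (.e true (nat_lit 1) (nat_lit 166) (nat_lit 7) (nat_lit 6) (.e false (nat_lit 1) (nat_lit 167) (nat_lit 7) (nat_lit 6) (.e true (nat_lit 1) (nat_lit 289) (nat_lit 2) (nat_lit 9) (.e false (nat_lit 1) (nat_lit 290) (nat_lit 2) (nat_lit 9) (.e true (nat_lit 2) (nat_lit 291) (nat_lit 2) (nat_lit 9) (.e false (nat_lit 1) (nat_lit 294) (nat_lit 2) (nat_lit 9) (.e false (nat_lit 3) (nat_lit 295) (nat_lit 2) (nat_lit 9) (.e true (nat_lit 1) (nat_lit 296) (nat_lit 2) (nat_lit 9) (.e true (nat_lit 1) (nat_lit 303) (nat_lit 2) (nat_lit 9) (.e true (nat_lit 1) (nat_lit 304) (nat_lit 2) (nat_lit 9) (.e true (nat_lit 1) (nat_lit 47) (nat_lit 39) (nat_lit 0) (.e false (nat_lit 1) (nat_lit 297) (nat_lit 2) (nat_lit 9) (.e false (nat_lit 2) (nat_lit 298) (nat_lit 2) (nat_lit 9) (.u (nat_lit 2) (.n (nat_lit 0) (nat_lit 1) (.p (nat_lit 1) (nat_lit 1) (.n (nat_lit 2) (nat_lit 2) (.n (nat_lit 3) (nat_lit 2) (.p (nat_lit 4) (nat_lit 1) (.p (nat_lit 5) (nat_lit 1) (.n (nat_lit 7) (nat_lit 1) (.p (nat_lit 14) (nat_lit 1) .z)))))))) .nil))))))))))))))))))) .leaf) (nat_lit 207872) (nat_lit 809) (.n (nat_lit 305) (nat_lit 2) (.n (nat_lit 306) (nat_lit 1) (.n (nat_lit 307) (nat_lit 2) (.p (nat_lit 308) (nat_lit 3) (.p (nat_lit 309) (nat_lit 2) (.p (nat_lit 313) (nat_lit 3) (.n (nat_lit 314) (nat_lit 2) (.n (nat_lit 315) (nat_lit 3) (.p (nat_lit 318) (nat_lit 1) (.n (nat_lit 321) (nat_lit 1) (.p (nat_lit 322) (nat_lit 1) (.p (nat_lit 323) (nat_lit 1) .z)))))))))))) (.ct dC2d_c277 (nat_lit 1) (nat_lit 10) (.s true (nat_lit 1) (nat_lit 48) (nat_lit 2) (nat_lit 1) (nat_lit 0) true (nat_lit 6) true (nat_lit 10) false (nat_lit 3) true (nat_lit 8) true (nat_lit 9) (.e true (nat_lit 1) (nat_lit 102) (nat_lit 5) (nat_lit 6) (.e true (nat_lit 1) (nat_lit 104) (nat_lit 5) (nat_lit 6) (.e false (nat_lit 1) (nat_lit 48) (nat_lit 13) (nat_lit 3) (.e true (nat_lit 1) (nat_lit 170) (nat_lit 2) (nat_lit 8) (.e false (nat_lit 1) (nat_lit 171) (nat_lit 2) (nat_lit 8) (.e false (nat_lit 1) (nat_lit 172) (nat_lit 2) (nat_lit 8) (.e false (nat_lit 1) (nat_lit 174) (nat_lit 2) (nat_lit 8) (.e true (nat_lit 1) (nat_lit 181) (nat_lit 2) (nat_lit 8) (.e true (nat_lit 1) (nat_lit 197) (nat_lit 1) (nat_lit 9) (.u (nat_lit 2) (.p (nat_lit 2) (nat_lit 1) .z) .nil)))))))))))) (.nd (.nd .leaf (nat_lit 207873) (nat_lit 842) (.n (nat_lit 325) (nat_lit 3) (.p (nat_lit 326) (nat_lit 2) (.p (nat_lit 327) (nat_lit 3) (.n (nat_lit 328) (nat_lit 3) (.n (nat_lit 329) (nat_lit 1) (.n (nat_lit 330) (nat_lit 2) (.p (nat_lit 331) (nat_lit 3) (.p (nat_lit 333) (nat_lit 1) .z)))))))) (.ct dC2d_c37 (nat_lit 1) (nat_lit 7) (.s true (nat_lit 1) (nat_lit 45) (nat_lit 1) (nat_lit 2) (nat_lit 2) true (nat_lit 4) true (nat_lit 6) false (nat_lit 1) true (nat_lit 7) true (nat_lit 6) (.e true (nat_lit 1) (nat_lit 101) (nat_lit 6) (nat_lit 4) (.e true (nat_lit 1) (nat_lit 188) (nat_lit 2) (nat_lit 6) (.e false (nat_lit 1) (nat_lit 45) (nat_lit 18) (nat_lit 1) (.e true (nat_lit 1) (nat_lit 201) (nat_lit 1) (nat_lit 7) (.e false (nat_lit 2) (nat_lit 202) (nat_lit 1) (nat_lit 7) (.e false (nat_lit 1) (nat_lit 204) (nat_lit 1) (nat_lit 7) (.e false (nat_lit 1) (nat_lit 191) (nat_lit 2) (nat_lit 6) (.u (nat_lit 2) (.p (nat_lit 4) (nat_lit 1) (.p (nat_lit 5) (nat_lit 1) (.p (nat_lit 6) (nat_lit 1) (.n (nat_lit 7) (nat_lit 1) .z)))) .nil)))))))))) .leaf) (nat_lit 207875) (nat_lit 1273) (.n (nat_lit 397) (nat_lit 2) (.n (nat_lit 398) (nat_lit 1) (.p (nat_lit 399) (nat_lit 3) (.n (nat_lit 401) (nat_lit 1) (.p (nat_lit 402) (nat_lit 2) (.p (nat_lit 403) (nat_lit 1) (.p (nat_lit 404) (nat_lit 1) (.n (nat_lit 405) (nat_lit 2) (.n (nat_lit 407) (nat_lit 1) (.n (nat_lit 408) (nat_lit 2) (.p (nat_lit 409) (nat_lit 1) (.n (nat_lit 411) (nat_lit 3) (.n (nat_lit 412) (nat_lit 3) (.n (nat_lit 413) (nat_lit 3) (.n (nat_lit 414) (nat_lit 2) (.n (nat_lit 415) (nat_lit 3) (.n (nat_lit 418) (nat_lit 1) (.p (nat_lit 420) (nat_lit 3) (.p (nat_lit 421) (nat_lit 1) (.p (nat_lit 431) (nat_lit 3) (.n (nat_lit 435) (nat_lit 1) .z))))))))))))))))))))) (.ct dC2d_c293 (nat_lit 1) (nat_lit 13) (.s true (nat_lit 1) (nat_lit 105) (nat_lit 0) (nat_lit 1) (nat_lit 1) true (nat_lit 13) true (nat_lit 15) false (nat_lit 8) true (nat_lit 16) true (nat_lit 15) (.e false (nat_lit 3) (nat_lit 306) (nat_lit 1) (nat_lit 15) (.e false (nat_lit 3) (nat_lit 307) (nat_lit 1) (nat_lit 15) (.e true (nat_lit 1) (nat_lit 308) (nat_lit 1) (nat_lit 15) (.e false (nat_lit 1) (nat_lit 310) (nat_lit 1) (nat_lit 15) (.e true (nat_lit 2) (nat_lit 311) (nat_lit 1) (nat_lit 15) (.e true (nat_lit 2) (nat_lit 312) (nat_lit 1) (nat_lit 15) (.e true (nat_lit 1) (nat_lit 105) (nat_lit 8) (nat_lit 8) (.e true (nat_lit 3) (nat_lit 324) (nat_lit 0) (nat_lit 16) (.e false (nat_lit 3) (nat_lit 325) (nat_lit 0) (nat_lit 16) (.e false (nat_lit 2) (nat_lit 326) (nat_lit 0) (nat_lit 16) (.e true (nat_lit 1) (nat_lit 329) (nat_lit 0) (nat_lit 16) (.e false (nat_lit 1) (nat_lit 330) (nat_lit 0) (nat_lit 16) (.e true (nat_lit 3) (nat_lit 331) (nat_lit 0) (nat_lit 16) (.e false (nat_lit 1) (nat_lit 334) (nat_lit 0) (nat_lit 16) (.e true (nat_lit 1) (nat_lit 322) (nat_lit 1) (nat_lit 15) (.e true (nat_lit 1) (nat_lit 323) (nat_lit 1) (nat_lit 15) (.u (nat_lit 2) (.p (nat_lit 1) (nat_lit 1) (.n (nat_lit 5) (nat_lit 1) (.n (nat_lit 7) (nat_lit 1) (.p (nat_lit 10) (nat_lit 1) (.p (nat_lit 11) (nat_lit 1) (.p (nat_lit 17) (nat_lit 1) (.p (nat_lit 18) (nat_lit 1) .z))))))) .nil))))))))))))))))))) .leaf)) (nat_lit 208896) (nat_lit 785) (.n (nat_lit 305) (nat_lit 3) (.n (nat_lit 306) (nat_lit 1) (.n (nat_lit 307) (nat_lit 3) (.p (nat_lit 308) (nat_lit 3) (.p (nat_lit 309) (nat_lit 3) (.p (nat_lit 310) (nat_lit 1) (.p (nat_lit 311) (nat_lit 1) (.p (nat_lit 312) (nat_lit 1) (.p (nat_lit 313) (nat_lit 2) (.n (nat_lit 314) (nat_lit 1) (.p (nat_lit 315) (nat_lit 2) (.n (nat_lit 317) (nat_lit 1) (.n (nat_lit 318) (nat_lit 2) .z))))))))))))) (.ct dC2d_c277 (nat_lit 1) (nat_lit 10) (.s false (nat_lit 1) (nat_lit 20) (nat_lit 0) (nat_lit 2) (nat_lit 6) true (nat_lit 3) true (nat_lit 5) true (nat_lit 0) true (nat_lit 10) true (nat_lit 8) (.s false (nat_lit 1) (nat_lit 20) (nat_lit 7) (nat_lit 0) (nat_lit 1) true (nat_lit 1) true (nat_lit 9) true (nat_lit 0) true (nat_lit 4) true (nat_lit 10) (.s false (nat_lit 1) (nat_lit 48) (nat_lit 0) (nat_lit 2) (nat_lit 1) true (nat_lit 7) true (nat_lit 9) false (nat_lit 3) true (nat_lit 10) true (nat_lit 8) (.e false (nat_lit 1) (nat_lit 48) (nat_lit 13) (nat_lit 3) dC2d_i105))))) (.nd (.nd (.nd .leaf (nat_lit 208897) (nat_lit 836) (.p (nat_lit 324) (nat_lit 2) (.n (nat_lit 325) (nat_lit 1) (.n (nat_lit 329) (nat_lit 3) (.n (nat_lit 330) (nat_lit 3) (.p (nat_lit 331) (nat_lit 2) .z))))) (.ct dC2d_c37 (nat_lit 1) (nat_lit 7) (.s false (nat_lit 1) (nat_lit 47) (nat_lit 1) (nat_lit 2) (nat_lit 2) true (nat_lit 4) true (nat_lit 6) false (nat_lit 1) true (nat_lit 7) true (nat_lit 6) (.e false (nat_lit 1) (nat_lit 103) (nat_lit 6) (nat_lit 4) (.e true (nat_lit 2) (nat_lit 185) (nat_lit 2) (nat_lit 6) (.e true (nat_lit 2) (nat_lit 186) (nat_lit 2) (nat_lit 6) (.e false (nat_lit 1) (nat_lit 187) (nat_lit 2) (nat_lit 6) (.e true (nat_lit 2) (nat_lit 188) (nat_lit 2) (nat_lit 6) (.e true (nat_lit 1) (nat_lit 189) (nat_lit 2) (nat_lit 6) (.e false (nat_lit 2) (nat_lit 190) (nat_lit 2) (nat_lit 6) (.e true (nat_lit 1) (nat_lit 47) (nat_lit 18) (nat_lit 1) (.e true (nat_lit 1) (nat_lit 193) (nat_lit 2) (nat_lit 6) (.u (nat_lit 2) (.p (nat_lit 5) (nat_lit 1) .z) .nil)))))))))))) .leaf) (nat_lit 208899) (nat_lit 1256) (.n (nat_lit 398) (nat_lit 1) (.n (nat_lit 399) (nat_lit 3) (.n (nat_lit 400) (nat_lit 1) (.p (nat_lit 402) (nat_lit 3) (.n (nat_lit 403) (nat_lit 3) (.p (nat_lit 405) (nat_lit 1) (.n (nat_lit 406) (nat_lit 2) (.p (nat_lit 407) (nat_lit 2) (.n (nat_lit 408) (nat_lit 1) (.n (nat_lit 409) (nat_lit 1) (.p (nat_lit 410) (nat_lit 2) (.p (nat_lit 411) (nat_lit 2) (.p (nat_lit 412) (nat_lit 1) (.p (nat_lit 413) (nat_lit 1) (.n (nat_lit 415) (nat_lit 1) (.n (nat_lit 416) (nat_lit 1) (.p (nat_lit 418) (nat_lit 1) (.n (nat_lit 431) (nat_lit 2) (.p (nat_lit 435) (nat_lit 1) .z))))))))))))))))))) (.ct dC2d_c293 (nat_lit 1) (nat_lit 13) (.s false (nat_lit 1) (nat_lit 47) (nat_lit 3) (nat_lit 2) (nat_lit 2) true (nat_lit 7) true (nat_lit 14) false (nat_lit 1) true (nat_lit 13) true (nat_lit 14) (.e false (nat_lit 1) (nat_lit 103) (nat_lit 11) (nat_lit 7) (.e true (nat_lit 3) (nat_lit 254) (nat_lit 2) (nat_lit 14) (.e true (nat_lit 1) (nat_lit 258) (nat_lit 2) (nat_lit 14) dC2d_i106))))) .leaf) (nat_lit 208900) (nat_lit 1415) (.p (nat_lit 436) (nat_lit 3) (.n (nat_lit 439) (nat_lit 3) (.p (nat_lit 440) (nat_lit 1) (.n (nat_lit 442) (nat_lit 1) (.p (nat_lit 443) (nat_lit 2) (.n (nat_lit 444) (nat_lit 3) .z)))))) (.ct dC2d_c53 (nat_lit 1) (nat_lit 8) (.s false (nat_lit 1) (nat_lit 20) (nat_lit 2) (nat_lit 2) (nat_lit 10) true (nat_lit 1) true (nat_lit 5) true (nat_lit 2) true (nat_lit 9) true (nat_lit 9) (.s false (nat_lit 1) (nat_lit 48) (nat_lit 1) (nat_lit 2) (nat_lit 4) true (nat_lit 5) true (nat_lit 8) false (nat_lit 1) true (nat_lit 10) true (nat_lit 9) (.s false (nat_lit 1) (nat_lit 48) (nat_lit 4) (nat_lit 2) (nat_lit 1) true (nat_lit 5) true (nat_lit 10) false (nat_lit 1) true (nat_lit 8) true (nat_lit 9) (.s true (nat_lit 1) (nat_lit 105) (nat_lit 1) (nat_lit 1) (nat_lit 1) true (nat_lit 8) true (nat_lit 10) false (nat_lit 5) true (nat_lit 10) true (nat_lit 10) (.e false (nat_lit 1) (nat_lit 79) (nat_lit 20) (nat_lit 2) (.e true (nat_lit 2) (nat_lit 298) (nat_lit 2) (nat_lit 9) (.e false (nat_lit 2) (nat_lit 303) (nat_lit 2) (nat_lit 9) (.e false (nat_lit 1) (nat_lit 329) (nat_lit 1) (nat_lit 10) (.e true (nat_lit 2) (nat_lit 325) (nat_lit 1) (nat_lit 10) (.e false (nat_lit 1) (nat_lit 330) (nat_lit 1) (nat_lit 10) (.e true (nat_lit 3) (nat_lit 331) (nat_lit 1) (nat_lit 10) (.e true (nat_lit 3) (nat_lit 324) (nat_lit 1) (nat_lit 10) (.u (nat_lit 2) (.n (nat_lit 1) (nat_lit 1) (.p (nat_lit 3) (nat_lit 2) (.n (nat_lit 6) (nat_lit 1) (.n (nat_lit 7) (nat_lit 1) (.n (nat_lit 8) (nat_lit 1) (.p (nat_lit 9) (nat_lit 1) (.n (nat_lit 11) (nat_lit 1) (.n (nat_lit 12) (nat_lit 1) (.n (nat_lit 13) (nat_lit 1) (.n (nat_lit 14) (nat_lit 1) (.p (nat_lit 80) (nat_lit 1) (.n (nat_lit 86) (nat_lit 1) (.n (nat_lit 89) (nat_lit 1) (.p (nat_lit 97) (nat_lit 1) .z)))))))))))))) .nil)))))))))))))) (.nd .leaf (nat_lit 209922) (nat_lit 895) (.p (nat_lit 380) (nat_lit 1) .z) .df .leaf))) (nat_lit 210946) (nat_lit 896) (.p (nat_lit 381) (nat_lit 1) .z) .df (.nd (.nd (.nd (.nd .leaf (nat_lit 211970) (nat_lit 917) (.p (nat_lit 335) (nat_lit 2) (.n (nat_lit 336) (nat_lit 3) (.p (nat_lit 337) (nat_lit 1) (.n (nat_lit 338) (nat_lit 2) (.p (nat_lit 339) (nat_lit 3) (.p (nat_lit 340) (nat_lit 1) (.p (nat_lit 341) (nat_lit 1) (.p (nat_lit 342) (nat_lit 1) (.p (nat_lit 346) (nat_lit 2) (.p (nat_lit 347) (nat_lit 2) (.p (nat_lit 349) (nat_lit 2) (.n (nat_lit 350) (nat_lit 1) (.n (nat_lit 352) (nat_lit 3) (.p (nat_lit 353) (nat_lit 2) (.n (nat_lit 354) (nat_lit 3) (.n (nat_lit 356) (nat_lit 2) (.p (nat_lit 357) (nat_lit 2) (.n (nat_lit 358) (nat_lit 1) (.n (nat_lit 360) (nat_lit 2) (.n (nat_lit 362) (nat_lit 3) (.n (nat_lit 366) (nat_lit 1) (.p (nat_lit 368) (nat_lit 1) (.n (nat_lit 369) (nat_lit 3) (.p (nat_lit 370) (nat_lit 1) (.n (nat_lit 371) (nat_lit 2) (.p (nat_lit 372) (nat_lit 2) (.n (nat_lit 373) (nat_lit 1) (.n (nat_lit 374) (nat_lit 1) (.p (nat_lit 380) (nat_lit 3) (.p (nat_lit 381) (nat_lit 2) .z)))))))))))))))))))))))))))))) (.ct dC2d_c308 (nat_lit 1) (nat_lit 16) (.s false (nat_lit 1) (nat_lit 7) (nat_lit 3) (nat_lit 6) (nat_lit 6) true (nat_lit 2) true (nat_lit 12) true (nat_lit 11) true (nat_lit 15) true (nat_lit 12) (.s false (nat_lit 1) (nat_lit 7) (nat_lit 3) (nat_lit 7) (nat_lit 4) true (nat_lit 3) true (nat_lit 14) true (nat_lit 11) true (nat_lit 15) true (nat_lit 11) (.s false (nat_lit 1) (nat_lit 7) (nat_lit 6) (nat_lit 3) (nat_lit 6) false (nat_lit 0) true (nat_lit 12) true (nat_lit 11) true (nat_lit 12) true (nat_lit 15) (.s false (nat_lit 2) (nat_lit 8) (nat_lit 1) (nat_lit 7) (nat_lit 7) true (nat_lit 5) true (nat_lit 11) true (nat_lit 10) true (nat_lit 17) true (nat_lit 11) (.s false (nat_lit 1) (nat_lit 9) (nat_lit 6) (nat_lit 2) (nat_lit 7) false (nat_lit 2) true (nat_lit 11) true (nat_lit 10) true (nat_lit 12) true (nat_lit 16) (.s false (nat_lit 3) (nat_lit 8) (nat_lit 6) (nat_lit 7) (nat_lit 2) true (nat_lit 5) true (nat_lit 16) true (nat_lit 10) true (nat_lit 12) true (nat_lit 11) dC2d_i116))))))) .leaf) (nat_lit 212994) (nat_lit 897) (.p (nat_lit 382) (nat_lit 1) .z) .df .leaf) (nat_lit 214018) (nat_lit 898) (.p (nat_lit 383) (nat_lit 1) .z) .df (.nd (.nd .leaf (nat_lit 215042) (nat_lit 899) (.p (nat_lit 384) (nat_lit 1) .z) .df .leaf) (nat_lit 216066) (nat_lit 900) (.p (nat_lit 385) (nat_lit 1) .z) .df .leaf)) (nat_lit 217090) (nat_lit 920) (.n (nat_lit 336) (nat_lit 2) (.p (nat_lit 337) (nat_lit 3) (.n (nat_lit 338) (nat_lit 3) (.p (nat_lit 339) (nat_lit 1) (.p (nat_lit 340) (nat_lit 1) (.n (nat_lit 341) (nat_lit 3) (.n (nat_lit 342) (nat_lit 2) (.n (nat_lit 343) (nat_lit 2) (.p (nat_lit 344) (nat_lit 1) (.n (nat_lit 345) (nat_lit 2) (.p (nat_lit 346) (nat_lit 2) (.n (nat_lit 347) (nat_lit 1) (.n (nat_lit 349) (nat_lit 3) (.p (nat_lit 350) (nat_lit 3) (.p (nat_lit 351) (nat_lit 1) (.n (nat_lit 353) (nat_lit 3) (.p (nat_lit 354) (nat_lit 2) (.p (nat_lit 355) (nat_lit 1) (.n (nat_lit 356) (nat_lit 1) (.p (nat_lit 357) (nat_lit 1) (.p (nat_lit 358) (nat_lit 3) (.p (nat_lit 359) (nat_lit 1) (.n (nat_lit 360) (nat_lit 3) (.p (nat_lit 361) (nat_lit 1) (.p (nat_lit 362) (nat_lit 3) (.p (nat_lit 364) (nat_lit 2) (.n (nat_lit 366) (nat_lit 3) (.n (nat_lit 367) (nat_lit 1) (.p (nat_lit 368) (nat_lit 1) (.p (nat_lit 369) (nat_lit 1) (.p (nat_lit 370) (nat_lit 1) (.n (nat_lit 371) (nat_lit 1) (.n (nat_lit 372) (nat_lit 3) (.n (nat_lit 373) (nat_lit 1) (.n (nat_lit 374) (nat_lit 3) (.p (nat_lit 380) (nat_lit 1) (.p (nat_lit 381) (nat_lit 3) (.n (nat_lit 382) (nat_lit 3) (.n (nat_lit 383) (nat_lit 2) (.p (nat_lit 384) (nat_lit 1) (.p (nat_lit 385) (nat_lit 1) .z))))))))))))))))))))))))))))))))))))))))) (.ct dC2d_c308 (nat_lit 1) (nat_lit 16) (.s false (nat_lit 2) (nat_lit 7) (nat_lit 3) (nat_lit 4) (nat_lit 7) true (nat_lit 0) true (nat_lit 11) true (nat_lit 11) true (nat_lit 15) true (nat_lit 14) (.s false (nat_lit 2) (nat_lit 7) (nat_lit 3) (nat_lit 7) (nat_lit 4) true (nat_lit 3) true (nat_lit 14) true (nat_lit 11) true (nat_lit 15) true (nat_lit 11) (.s false (nat_lit 1) (nat_lit 8) (nat_lit 1) (nat_lit 7) (nat_lit 7) true (nat_lit 5) true (nat_lit 11) true (nat_lit 10) true (nat_lit 17) true (nat_lit 11) (.s false (nat_lit 1) (nat_lit 8) (nat_lit 6) (nat_lit 7) (nat_lit 2) true (nat_lit 5) true (nat_lit 16) true (nat_lit 10) true (nat_lit 12) true (nat_lit 11) (.s true (nat_lit 3) (nat_lit 9) (nat_lit 7) (nat_lit 1) (nat_lit 7) false (nat_lit 3) true (nat_lit 11) true (nat_lit 10) true (nat_lit 11) true (nat_lit 17) (.s false (nat_lit 2) (nat_lit 8) (nat_lit 7) (nat_lit 6) (nat_lit 2) true (nat_lit 4) true (nat_lit 16) true (nat_lit 10) true (nat_lit 11) true (nat_lit 12) dC2d_i126))))))) (.nd (.nd (.nd .leaf (nat_lit 218114) (nat_lit 921) (.p (nat_lit 335) (nat_lit 2) (.n (nat_lit 336) (nat_lit 2) (.p (nat_lit 337) (nat_lit 3) (.p (nat_lit 338) (nat_lit 2) (.n (nat_lit 339) (nat_lit 3) (.n (nat_lit 340) (nat_lit 1) (.p (nat_lit 341) (nat_lit 3) (.p (nat_lit 342) (nat_lit 1) (.n (nat_lit 343) (nat_lit 3) (.n (nat_lit 344) (nat_lit 1) (.p (nat_lit 345) (nat_lit 2) (.n (nat_lit 346) (nat_lit 2) (.p (nat_lit 347) (nat_lit 1) (.n (nat_lit 349) (nat_lit 3) (.p (nat_lit 350) (nat_lit 1) (.n (nat_lit 351) (nat_lit 1) (.p (nat_lit 352) (nat_lit 3) (.n (nat_lit 353) (nat_lit 1) (.n (nat_lit 355) (nat_lit 1) (.n (nat_lit 356) (nat_lit 1) (.p (nat_lit 357) (nat_lit 1) (.n (nat_lit 358) (nat_lit 1) (.n (nat_lit 359) (nat_lit 2) (.p (nat_lit 360) (nat_lit 3) (.n (nat_lit 361) (nat_lit 3) (.p (nat_lit 366) (nat_lit 3) (.n (nat_lit 368) (nat_lit 1) (.p (nat_lit 369) (nat_lit 2) (.n (nat_lit 370) (nat_lit 1) (.n (nat_lit 371) (nat_lit 2) (.n (nat_lit 372) (nat_lit 1) (.p (nat_lit 373) (nat_lit 1) (.p (nat_lit 374) (nat_lit 3) (.n (nat_lit 380) (nat_lit 1) (.n (nat_lit 381) (nat_lit 3) (.p (nat_lit 382) (nat_lit 3) (.n (nat_lit 383) (nat_lit 2) (.p (nat_lit 385) (nat_lit 1) .z)))))))))))))))))))))))))))))))))))))) (.ct dC2d_c308 (nat_lit 1) (nat_lit 16) (.s true (nat_lit 2) (nat_lit 7) (nat_lit 3) (nat_lit 7) (nat_lit 4) true (nat_lit 3) true (nat_lit 14) true (nat_lit 11) true (nat_lit 15) true (nat_lit 11) (.s false (nat_lit 2) (nat_lit 7) (nat_lit 6) (nat_lit 3) (nat_lit 6) false (nat_lit 0) true (nat_lit 12) true (nat_lit 11) true (nat_lit 12) true (nat_lit 15) (.s false (nat_lit 2) (nat_lit 8) (nat_lit 1) (nat_lit 7) (nat_lit 7) true (nat_lit 5) true (nat_lit 11) true (nat_lit 10) true (nat_lit 17) true (nat_lit 11) (.s false (nat_lit 2) (nat_lit 8) (nat_lit 6) (nat_lit 7) (nat_lit 2) true (nat_lit 5) true (nat_lit 16) true (nat_lit 10) true (nat_lit 12) true (nat_lit 11) (.s true (nat_lit 3) (nat_lit 8) (nat_lit 7) (nat_lit 6) (nat_lit 2) true (nat_lit 4) true (nat_lit 16) true (nat_lit 10) true (nat_lit 11) true (nat_lit 12) (.s true (nat_lit 3) (nat_lit 8) (nat_lit 7) (nat_lit 7) (nat_lit 1) true (nat_lit 5) true (nat_lit 17) true (nat_lit 10) true (nat_lit 11) true (nat_lit 11) (.s true (nat_lit 3) (nat_lit 10) (nat_lit 5) (nat_lit 7) (nat_lit 2) true (nat_lit 6) true (nat_lit 16) true (nat_lit 9) true (nat_lit 13) true (nat_lit 11) (.s false (nat_lit 2) (nat_lit 10) (nat_lit 7) (nat_lit 0) (nat_lit 7) false (nat_lit 3) true (nat_lit 11) true (nat_lit 9) true (nat_lit 11) true (nat_lit 18) (.s false (nat_lit 2) (nat_lit 11) (nat_lit 1) (nat_lit 7) (nat_lit 6) true (nat_lit 7) true (nat_lit 12) true (nat_lit 8) true (nat_lit 17) true (nat_lit 11) (.s true (nat_lit 2) (nat_lit 12) (nat_lit 2) (nat_lit 4) (nat_lit 7) true (nat_lit 4) true (nat_lit 11) true (nat_lit 8) true (nat_lit 16) true (nat_lit 14) (.s false (nat_lit 2) (nat_lit 12) (nat_lit 2) (nat_lit 6) (nat_lit 6) true (nat_lit 5) true (nat_lit 12) true (nat_lit 8) true (nat_lit 16) true (nat_lit 12) (.s false (nat_lit 1) (nat_lit 12) (nat_lit 2) (nat_lit 7) (nat_lit 4) true (nat_lit 7) true (nat_lit 14) true (nat_lit 8) true (nat_lit 16) true (nat_lit 11) (.s true (nat_lit 3) (nat_lit 11) (nat_lit 6) (nat_lit 1) (nat_lit 7) false (nat_lit 2) true (nat_lit 11) true (nat_lit 8) true (nat_lit 12) true (nat_lit 17) (.s true (nat_lit 1) (nat_lit 12) (nat_lit 6) (nat_lit 2) (nat_lit 6) false (nat_lit 0) true (nat_lit 12) true (nat_lit 8) true (nat_lit 12) true (nat_lit 16) (.s false (nat_lit 3) (nat_lit 11) (nat_lit 6) (nat_lit 6) (nat_lit 2) true (nat_lit 5) true (nat_lit 16) true (nat_lit 8) true (nat_lit 12) true (nat_lit 12) (.s false (nat_lit 3) (nat_lit 11) (nat_lit 6) (nat_lit 7) (nat_lit 1) true (nat_lit 7) true (nat_lit 17) true (nat_lit 8) true (nat_lit 12) true (nat_lit 11) (.s true (nat_lit 3) (nat_lit 11) (nat_lit 7) (nat_lit 1) (nat_lit 6) false (nat_lit 2) true (nat_lit 12) true (nat_lit 8) true (nat_lit 11) true (nat_lit 17) dC2d_i135)))))))))))))))))) .leaf) (nat_lit 219138) (nat_lit 950) (.p (nat_lit 335) (nat_lit 1) (.p (nat_lit 336) (nat_lit 3) (.n (nat_lit 337) (nat_lit 1) (.n (nat_lit 338) (nat_lit 1) (.n (nat_lit 339) (nat_lit 2) (.p (nat_lit 340) (nat_lit 1) (.p (nat_lit 341) (nat_lit 3) (.n (nat_lit 342) (nat_lit 2) (.p (nat_lit 343) (nat_lit 3) (.p (nat_lit 344) (nat_lit 2) (.p (nat_lit 346) (nat_lit 3) (.p (nat_lit 347) (nat_lit 3) (.p (nat_lit 351) (nat_lit 3) (.p (nat_lit 352) (nat_lit 1) (.n (nat_lit 353) (nat_lit 3) (.n (nat_lit 354) (nat_lit 2) (.n (nat_lit 355) (nat_lit 2) (.n (nat_lit 356) (nat_lit 1) (.p (nat_lit 357) (nat_lit 1) (.p (nat_lit 358) (nat_lit 1) (.n (nat_lit 360) (nat_lit 1) (.n (nat_lit 361) (nat_lit 1) (.n (nat_lit 362) (nat_lit 2) (.n (nat_lit 363) (nat_lit 2) (.n (nat_lit 364) (nat_lit 3) (.n (nat_lit 367) (nat_lit 2) (.p (nat_lit 368) (nat_lit 2) (.p (nat_lit 369) (nat_lit 1) (.p (nat_lit 370) (nat_lit 2) (.p (nat_lit 371) (nat_lit 2) (.p (nat_lit 372) (nat_lit 2) (.n (nat_lit 373) (nat_lit 2) (.n (nat_lit 374) (nat_lit 1) (.p (nat_lit 380) (nat_lit 1) (.n (nat_lit 381) (nat_lit 1) (.p (nat_lit 382) (nat_lit 1) (.n (nat_lit 383) (nat_lit 1) (.p (nat_lit 384) (nat_lit 1) (.p (nat_lit 385) (nat_lit 1) .z))))))))))))))))))))))))))))))))))))))) (.ct dC2d_c308 (nat_lit 1) (nat_lit 16) (.s true (nat_lit 2) (nat_lit 8) (nat_lit 2) (nat_lit 7) (nat_lit 6) true (nat_lit 5) true (nat_lit 12) true (nat_lit 10) true (nat_lit 16) true (nat_lit 11) (.s false (nat_lit 1) (nat_lit 8) (nat_lit 6) (nat_lit 2) (nat_lit 7) false (nat_lit 2) true (nat_lit 11) true (nat_lit 10) true (nat_lit 12) true (nat_lit 16) (.s false (nat_lit 3) (nat_lit 9) (nat_lit 7) (nat_lit 1) (nat_lit 7) false (nat_lit 3) true (nat_lit 11) true (nat_lit 10) true (nat_lit 11) true (nat_lit 17) (.s false (nat_lit 2) (nat_lit 9) (nat_lit 7) (nat_lit 6) (nat_lit 2) true (nat_lit 4) true (nat_lit 16) true (nat_lit 10) true (nat_lit 11) true (nat_lit 12) (.s false (nat_lit 1) (nat_lit 10) (nat_lit 7) (nat_lit 0) (nat_lit 7) false (nat_lit 3) true (nat_lit 11) true (nat_lit 9) true (nat_lit 11) true (nat_lit 18) (.s false (nat_lit 2) (nat_lit 11) (nat_lit 6) (nat_lit 6) (nat_lit 2) true (nat_lit 5) true (nat_lit 16) true (nat_lit 8) true (nat_lit 12) true (nat_lit 12) (.s false (nat_lit 2) (nat_lit 12) (nat_lit 6) (nat_lit 6) (nat_lit 2) true (nat_lit 5) true (nat_lit 16) true (nat_lit 8) true (nat_lit 12) true (nat_lit 12) (.s false (nat_lit 2) (nat_lit 17) (nat_lit 2) (nat_lit 2) (nat_lit 10) true (nat_lit 1) true (nat_lit 9) true (nat_lit 6) true (nat_lit 16) true (nat_lit 16) (.s true (nat_lit 3) (nat_lit 16) (nat_lit 10) (nat_lit 2) (nat_lit 2) true (nat_lit 1) true (nat_lit 16) true (nat_lit 6) true (nat_lit 9) true (nat_lit 16) (.s true (nat_lit 3) (nat_lit 18) (nat_lit 1) (nat_lit 2) (nat_lit 11) true (nat_lit 2) true (nat_lit 8) true (nat_lit 5) true (nat_lit 17) true (nat_lit 16) (.s false (nat_lit 3) (nat_lit 19) (nat_lit 1) (nat_lit 11) (nat_lit 2) true (nat_lit 12) true (nat_lit 16) true (nat_lit 5) true (nat_lit 17) true (nat_lit 8) (.s true (nat_lit 3) (nat_lit 19) (nat_lit 2) (nat_lit 1) (nat_lit 11) true (nat_lit 0) true (nat_lit 8) true (nat_lit 5) true (nat_lit 16) true (nat_lit 17) (.s false (nat_lit 2) (nat_lit 19) (nat_lit 2) (nat_lit 2) (nat_lit 8) true (nat_lit 2) true (nat_lit 10) true (nat_lit 5) true (nat_lit 16) true (nat_lit 16) (.s false (nat_lit 3) (nat_lit 18) (nat_lit 2) (nat_lit 11) (nat_lit 1) true (nat_lit 12) true (nat_lit 17) true (nat_lit 5) true (nat_lit 16) true (nat_lit 8) (.s false (nat_lit 2) (nat_lit 18) (nat_lit 8) (nat_lit 2) (nat_lit 2) true (nat_lit 2) true (nat_lit 16) true (nat_lit 5) true (nat_lit 10) true (nat_lit 16) (.s false (nat_lit 1) (nat_lit 19) (nat_lit 9) (nat_lit 2) (nat_lit 2) true (nat_lit 2) true (nat_lit 16) true (nat_lit 5) true (nat_lit 10) true (nat_lit 16) dC2d_i141))))))))))))))))) .leaf) (nat_lit 220162) (nat_lit 939) (.p (nat_lit 335) (nat_lit 1) (.p (nat_lit 336) (nat_lit 1) (.p (nat_lit 337) (nat_lit 2) (.p (nat_lit 338) (nat_lit 1) (.p (nat_lit 339) (nat_lit 2) (.p (nat_lit 340) (nat_lit 3) (.n (nat_lit 341) (nat_lit 1) (.p (nat_lit 342) (nat_lit 2) (.p (nat_lit 343) (nat_lit 1) (.n (nat_lit 344) (nat_lit 1) (.p (nat_lit 345) (nat_lit 1) (.n (nat_lit 347) (nat_lit 2) (.p (nat_lit 349) (nat_lit 2) (.n (nat_lit 353) (nat_lit 2) (.p (nat_lit 354) (nat_lit 3) (.n (nat_lit 355) (nat_lit 2) (.p (nat_lit 356) (nat_lit 3) (.n (nat_lit 357) (nat_lit 3) (.n (nat_lit 358) (nat_lit 1) (.p (nat_lit 359) (nat_lit 1) (.p (nat_lit 360) (nat_lit 2) (.n (nat_lit 361) (nat_lit 1) (.n (nat_lit 362) (nat_lit 1) (.n (nat_lit 363) (nat_lit 3) (.n (nat_lit 364) (nat_lit 3) (.n (nat_lit 366) (nat_lit 2) (.n (nat_lit 367) (nat_lit 2) (.n (nat_lit 368) (nat_lit 1) (.p (nat_lit 369) (nat_lit 3) (.n (nat_lit 370) (nat_lit 1) (.n (nat_lit 371) (nat_lit 2) (.p (nat_lit 372) (nat_lit 3) (.p (nat_lit 373) (nat_lit 1) (.p (nat_lit 380) (nat_lit 2) (.p (nat_lit 381) (nat_lit 3) (.p (nat_lit 382) (nat_lit 1) .z)))))))))))))))))))))))))))))))))))) (.ct dC2d_c308 (nat_lit 1) (nat_lit 16) (.s false (nat_lit 2) (nat_lit 7) (nat_lit 3) (nat_lit 7) (nat_lit 4) true (nat_lit 3) true (nat_lit 14) true (nat_lit 11) true (nat_lit 15) true (nat_lit 11) (.s true (nat_lit 1) (nat_lit 8) (nat_lit 1) (nat_lit 7) (nat_lit 7) true (nat_lit 5) true (nat_lit 11) true (nat_lit 10) true (nat_lit 17) true (nat_lit 11) (.s true (nat_lit 2) (nat_lit 8) (nat_lit 2) (nat_lit 7) (nat_lit 6) true (nat_lit 5) true (nat_lit 12) true (nat_lit 10) true (nat_lit 16) true (nat_lit 11) (.s false (nat_lit 3) (nat_lit 8) (nat_lit 6) (nat_lit 2) (nat_lit 7) false (nat_lit 2) true (nat_lit 11) true (nat_lit 10) true (nat_lit 12) true (nat_lit 16) (.s true (nat_lit 1) (nat_lit 9) (nat_lit 7) (nat_lit 1) (nat_lit 7) false (nat_lit 3) true (nat_lit 11) true (nat_lit 10) true (nat_lit 11) true (nat_lit 17) (.s false (nat_lit 1) (nat_lit 9) (nat_lit 7) (nat_lit 6) (nat_lit 2) true (nat_lit 4) true (nat_lit 16) true (nat_lit 10) true (nat_lit 11) true (nat_lit 12) (.s false (nat_lit 3) (nat_lit 8) (nat_lit 7) (nat_lit 7) (nat_lit 1) true (nat_lit 5) true (nat_lit 17) true (nat_lit 10) true (nat_lit 11) true (nat_lit 11) (.s true (nat_lit 3) (nat_lit 10) (nat_lit 5) (nat_lit 2) (nat_lit 7) false (nat_lit 1) true (nat_lit 11) true (nat_lit 9) true (nat_lit 13) true (nat_lit 16) (.s true (nat_lit 2) (nat_lit 10) (nat_lit 5) (nat_lit 7) (nat_lit 2) true (nat_lit 6) true (nat_lit 16) true (nat_lit 9) true (nat_lit 13) true (nat_lit 11) dC2d_i150)))))))))) (.nd .leaf (nat_lit 221186) (nat_lit 926) (.n (nat_lit 335) (nat_lit 1) (.n (nat_lit 336) (nat_lit 2) (.p (nat_lit 337) (nat_lit 3) (.n (nat_lit 338) (nat_lit 3) (.p (nat_lit 341) (nat_lit 2) (.p (nat_lit 342) (nat_lit 1) (.p (nat_lit 343) (nat_lit 2) (.p (nat_lit 344) (nat_lit 3) (.n (nat_lit 345) (nat_lit 2) (.p (nat_lit 346) (nat_lit 1) (.p (nat_lit 347) (nat_lit 1) (.p (nat_lit 349) (nat_lit 1) (.n (nat_lit 350) (nat_lit 1) (.n (nat_lit 351) (nat_lit 2) (.p (nat_lit 352) (nat_lit 2) (.n (nat_lit 354) (nat_lit 3) (.p (nat_lit 355) (nat_lit 3) (.n (nat_lit 356) (nat_lit 1) (.p (nat_lit 357) (nat_lit 1) (.n (nat_lit 358) (nat_lit 3) (.p (nat_lit 359) (nat_lit 1) (.n (nat_lit 360) (nat_lit 1) (.p (nat_lit 361) (nat_lit 1) (.n (nat_lit 362) (nat_lit 3) (.p (nat_lit 363) (nat_lit 3) (.p (nat_lit 366) (nat_lit 1) (.p (nat_lit 369) (nat_lit 3) (.n (nat_lit 372) (nat_lit 3) (.n (nat_lit 374) (nat_lit 1) (.p (nat_lit 375) (nat_lit 3) (.p (nat_lit 377) (nat_lit 1) (.p (nat_lit 379) (nat_lit 3) (.n (nat_lit 380) (nat_lit 2) (.p (nat_lit 381) (nat_lit 3) (.n (nat_lit 382) (nat_lit 3) (.n (nat_lit 383) (nat_lit 2) .z)))))))))))))))))))))))))))))))))))) (.ct dC2d_c308 (nat_lit 1) (nat_lit 16) (.s false (nat_lit 1) (nat_lit 7) (nat_lit 3) (nat_lit 7) (nat_lit 4) true (nat_lit 3) true (nat_lit 14) true (nat_lit 11) true (nat_lit 15) true (nat_lit 11) (.s false (nat_lit 3) (nat_lit 7) (nat_lit 4) (nat_lit 3) (nat_lit 7) false (nat_lit 0) true (nat_lit 11) true (nat_lit 11) true (nat_lit 14) true (nat_lit 15) (.s true (nat_lit 1) (nat_lit 8) (nat_lit 2) (nat_lit 6) (nat_lit 7) true (nat_lit 4) true (nat_lit 11) true (nat_lit 10) true (nat_lit 16) true (nat_lit 12) (.s false (nat_lit 1) (nat_lit 9) (nat_lit 7) (nat_lit 1) (nat_lit 7) false (nat_lit 3) true (nat_lit 11) true (nat_lit 10) true (nat_lit 11) true (nat_lit 17) (.s true (nat_lit 2) (nat_lit 8) (nat_lit 7) (nat_lit 2) (nat_lit 6) false (nat_lit 2) true (nat_lit 12) true (nat_lit 10) true (nat_lit 11) true (nat_lit 16) (.s true (nat_lit 2) (nat_lit 10) (nat_lit 5) (nat_lit 2) (nat_lit 7) false (nat_lit 1) true (nat_lit 11) true (nat_lit 9) true (nat_lit 13) true (nat_lit 16) (.s true (nat_lit 1) (nat_lit 10) (nat_lit 5) (nat_lit 7) (nat_lit 2) true (nat_lit 6) true (nat_lit 16) true (nat_lit 9) true (nat_lit 13) true (nat_lit 11) (.s true (nat_lit 3) (nat_lit 10) (nat_lit 7) (nat_lit 0) (nat_lit 7) false (nat_lit 3) true (nat_lit 11) true (nat_lit 9) true (nat_lit 11) true (nat_lit 18) (.s true (nat_lit 2) (nat_lit 10) (nat_lit 7) (nat_lit 2) (nat_lit 5) false (nat_lit 1) true (nat_lit 13) true (nat_lit 9) true (nat_lit 11) true (nat_lit 16) (.s false (nat_lit 1) (nat_lit 11) (nat_lit 1) (nat_lit 7) (nat_lit 6) true (nat_lit 7) true (nat_lit 12) true (nat_lit 8) true (nat_lit 17) true (nat_lit 11) dC2d_i159))))))))))) .leaf))))))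

noncomputable def dC2d_t2 : Tr := (.nd dC2d_t0 (nat_lit 189441) (nat_lit 703) (.p (nat_lit 299) (nat_lit 1) .z) .df dC2d_t1)

noncomputable def dC2d_t3 : Tr := (.nd (.nd (.nd (.nd (.nd (.nd (.nd .leaf (nat_lit 223234) (nat_lit 901) (.p (nat_lit 386) (nat_lit 1) .z) .df .leaf) (nat_lit 224258) (nat_lit 902) (.p (nat_lit 387) (nat_lit 1) .z) .df .leaf) (nat_lit 225282) (nat_lit 935) (.p (nat_lit 335) (nat_lit 3) (.p (nat_lit 336) (nat_lit 2) (.n (nat_lit 337) (nat_lit 3) (.p (nat_lit 338) (nat_lit 2) (.n (nat_lit 339) (nat_lit 3) (.p (nat_lit 340) (nat_lit 2) (.n (nat_lit 341) (nat_lit 2) (.n (nat_lit 342) (nat_lit 3) (.p (nat_lit 343) (nat_lit 2) (.n (nat_lit 344) (nat_lit 1) (.p (nat_lit 346) (nat_lit 2) (.p (nat_lit 347) (nat_lit 2) (.n (nat_lit 349) (nat_lit 2) (.p (nat_lit 350) (nat_lit 2) (.n (nat_lit 351) (nat_lit 3) (.n (nat_lit 352) (nat_lit 1) (.n (nat_lit 353) (nat_lit 2) (.p (nat_lit 355) (nat_lit 2) (.p (nat_lit 356) (nat_lit 3) (.n (nat_lit 357) (nat_lit 3) (.n (nat_lit 358) (nat_lit 1) (.p (nat_lit 359) (nat_lit 3) (.p (nat_lit 360) (nat_lit 2) (.n (nat_lit 361) (nat_lit 2) (.n (nat_lit 362) (nat_lit 3) (.p (nat_lit 363) (nat_lit 3) (.n (nat_lit 364) (nat_lit 2) (.p (nat_lit 366) (nat_lit 3) (.p (nat_lit 367) (nat_lit 1) (.p (nat_lit 368) (nat_lit 3) (.n (nat_lit 369) (nat_lit 3) (.p (nat_lit 370) (nat_lit 3) (.p (nat_lit 371) (nat_lit 3) (.n (nat_lit 372) (nat_lit 2) (.n (nat_lit 373) (nat_lit 3) (.p (nat_lit 374) (nat_lit 1) (.n (nat_lit 380) (nat_lit 2) (.p (nat_lit 381) (nat_lit 1) (.p (nat_lit 386) (nat_lit 1) (.p (nat_lit 387) (nat_lit 1) .z)))))))))))))))))))))))))))))))))))))))) (.ct dC2d_c308 (nat_lit 1) (nat_lit 16) (.s true (nat_lit 2) (nat_lit 7) (nat_lit 3) (nat_lit 7) (nat_lit 4) true (nat_lit 3) true (nat_lit 14) true (nat_lit 11) true (nat_lit 15) true (nat_lit 11) (.s true (nat_lit 2) (nat_lit 8) (nat_lit 1) (nat_lit 7) (nat_lit 7) true (nat_lit 5) true (nat_lit 11) true (nat_lit 10) true (nat_lit 17) true (nat_lit 11) (.s false (nat_lit 2) (nat_lit 8) (nat_lit 6) (nat_lit 2) (nat_lit 7) false (nat_lit 2) true (nat_lit 11) true (nat_lit 10) true (nat_lit 12) true (nat_lit 16) dC2d_i174)))) (.nd (.nd .leaf (nat_lit 226306) (nat_lit 941) (.p (nat_lit 335) (nat_lit 3) (.p (nat_lit 338) (nat_lit 2) (.n (nat_lit 339) (nat_lit 2) (.n (nat_lit 340) (nat_lit 2) (.p (nat_lit 341) (nat_lit 1) (.p (nat_lit 342) (nat_lit 1) (.n (nat_lit 346) (nat_lit 1) (.p (nat_lit 347) (nat_lit 3) (.n (nat_lit 349) (nat_lit 1) (.n (nat_lit 350) (nat_lit 1) (.p (nat_lit 351) (nat_lit 3) (.n (nat_lit 353) (nat_lit 2) (.n (nat_lit 355) (nat_lit 3) (.n (nat_lit 356) (nat_lit 1) (.p (nat_lit 357) (nat_lit 1) (.p (nat_lit 358) (nat_lit 1) (.p (nat_lit 359) (nat_lit 3) (.n (nat_lit 360) (nat_lit 1) (.p (nat_lit 361) (nat_lit 2) (.p (nat_lit 363) (nat_lit 1) (.n (nat_lit 364) (nat_lit 1) (.n (nat_lit 366) (nat_lit 1) (.n (nat_lit 367) (nat_lit 3) (.p (nat_lit 368) (nat_lit 1) (.p (nat_lit 370) (nat_lit 1) (.p (nat_lit 372) (nat_lit 1) (.n (nat_lit 373) (nat_lit 1) (.p (nat_lit 374) (nat_lit 3) (.n (nat_lit 375) (nat_lit 3) (.n (nat_lit 377) (nat_lit 1) (.n (nat_lit 379) (nat_lit 3) (.n (nat_lit 380) (nat_lit 2) (.n (nat_lit 381) (nat_lit 1) (.p (nat_lit 382) (nat_lit 3) (.p (nat_lit 383) (nat_lit 2) (.p (nat_lit 387) (nat_lit 1) .z)))))))))))))))))))))))))))))))))))) (.ct dC2d_c308 (nat_lit 1) (nat_lit 16) (.s false (nat_lit 3) (nat_lit 7) (nat_lit 3) (nat_lit 7) (nat_lit 4) true (nat_lit 3) true (nat_lit 14) true (nat_lit 11) true (nat_lit 15) true (nat_lit 11) (.s true (nat_lit 1) (nat_lit 8) (nat_lit 2) (nat_lit 7) (nat_lit 6) true (nat_lit 5) true (nat_lit 12) true (nat_lit 10) true (nat_lit 16) true (nat_lit 11) (.s false (nat_lit 3) (nat_lit 8) (nat_lit 6) (nat_lit 2) (nat_lit 7) false (nat_lit 2) true (nat_lit 11) true (nat_lit 10) true (nat_lit 12) true (nat_lit 16) (.s true (nat_lit 3) (nat_lit 9) (nat_lit 7) (nat_lit 1) (nat_lit 7) false (nat_lit 3) true (nat_lit 11) true (nat_lit 10) true (nat_lit 11) true (nat_lit 17) (.s true (nat_lit 2) (nat_lit 9) (nat_lit 7) (nat_lit 6) (nat_lit 2) true (nat_lit 4) true (nat_lit 16) true (nat_lit 10) true (nat_lit 11) true (nat_lit 12) (.s true (nat_lit 2) (nat_lit 10) (nat_lit 5) (nat_lit 2) (nat_lit 7) false (nat_lit 1) true (nat_lit 11) true (nat_lit 9) true (nat_lit 13) true (nat_lit 16) (.s false (nat_lit 2) (nat_lit 10) (nat_lit 7) (nat_lit 0) (nat_lit 7) false (nat_lit 3) true (nat_lit 11) true (nat_lit 9) true (nat_lit 11) true (nat_lit 18) (.s true (nat_lit 3) (nat_lit 11) (nat_lit 1) (nat_lit 7) (nat_lit 6) true (nat_lit 7) true (nat_lit 12) true (nat_lit 8) true (nat_lit 17) true (nat_lit 11) (.s false (nat_lit 1) (nat_lit 11) (nat_lit 2) (nat_lit 6) (nat_lit 6) true (nat_lit 5) true (nat_lit 12) true (nat_lit 8) true (nat_lit 16) true (nat_lit 12) (.s false (nat_lit 1) (nat_lit 12) (nat_lit 2) (nat_lit 7) (nat_lit 4) true (nat_lit 7) true (nat_lit 14) true (nat_lit 8) true (nat_lit 16) true (nat_lit 11) (.s false (nat_lit 2) (nat_lit 12) (nat_lit 4) (nat_lit 2) (nat_lit 7) false (nat_lit 0) true (nat_lit 11) true (nat_lit 8) true (nat_lit 14) true (nat_lit 16) (.s false (nat_lit 3) (nat_lit 11) (nat_lit 6) (nat_lit 6) (nat_lit 2) true (nat_lit 5) true (nat_lit 16) true (nat_lit 8) true (nat_lit 12) true (nat_lit 12) dC2d_i182))))))))))))) .leaf) (nat_lit 227330) (nat_lit 972) (.n (nat_lit 335) (nat_lit 2) (.p (nat_lit 336) (nat_lit 3) (.n (nat_lit 337) (nat_lit 1) (.p (nat_lit 338) (nat_lit 3) (.n (nat_lit 339) (nat_lit 1) (.n (nat_lit 340) (nat_lit 2) (.n (nat_lit 341) (nat_lit 3) (.p (nat_lit 343) (nat_lit 1) (.p (nat_lit 344) (nat_lit 1) (.p (nat_lit 345) (nat_lit 2) (.p (nat_lit 346) (nat_lit 3) (.p (nat_lit 347) (nat_lit 3) (.n (nat_lit 349) (nat_lit 3) (.p (nat_lit 350) (nat_lit 1) (.n (nat_lit 351) (nat_lit 2) (.p (nat_lit 352) (nat_lit 2) (.p (nat_lit 353) (nat_lit 2) (.p (nat_lit 354) (nat_lit 3) (.p (nat_lit 356) (nat_lit 1) (.n (nat_lit 357) (nat_lit 1) (.p (nat_lit 358) (nat_lit 3) (.p (nat_lit 359) (nat_lit 2) (.p (nat_lit 360) (nat_lit 1) (.p (nat_lit 361) (nat_lit 3) (.p (nat_lit 362) (nat_lit 1) (.n (nat_lit 363) (nat_lit 2) (.p (nat_lit 364) (nat_lit 3) (.n (nat_lit 366) (nat_lit 1) (.p (nat_lit 367) (nat_lit 2) (.p (nat_lit 369) (nat_lit 1) (.n (nat_lit 371) (nat_lit 2) (.n (nat_lit 374) (nat_lit 2) (.n (nat_lit 375) (nat_lit 3) (.p (nat_lit 379) (nat_lit 3) (.p (nat_lit 381) (nat_lit 2) (.p (nat_lit 382) (nat_lit 2) (.n (nat_lit 383) (nat_lit 1) .z))))))))))))))))))))))))))))))))))))) (.ct dC2d_c308 (nat_lit 1) (nat_lit 16) dC2d_i186) .leaf)) (nat_lit 228354) (nat_lit 903) (.p (nat_lit 388) (nat_lit 1) .z) .df (.nd (.nd (.nd .leaf (nat_lit 229378) (nat_lit 904) (.p (nat_lit 389) (nat_lit 1) .z) .df .leaf) (nat_lit 230402) (nat_lit 961) (.n (nat_lit 335) (nat_lit 3) (.n (nat_lit 336) (nat_lit 1) (.n (nat_lit 337) (nat_lit 2) (.n (nat_lit 338) (nat_lit 3) (.n (nat_lit 339) (nat_lit 1) (.p (nat_lit 340) (nat_lit 1) (.p (nat_lit 341) (nat_lit 2) (.p (nat_lit 342) (nat_lit 1) (.p (nat_lit 343) (nat_lit 2) (.n (nat_lit 344) (nat_lit 3) (.p (nat_lit 345) (nat_lit 2) (.n (nat_lit 346) (nat_lit 2) (.p (nat_lit 349) (nat_lit 1) (.n (nat_lit 351) (nat_lit 2) (.n (nat_lit 352) (nat_lit 3) (.p (nat_lit 354) (nat_lit 3) (.n (nat_lit 355) (nat_lit 2) (.n (nat_lit 356) (nat_lit 2) (.p (nat_lit 357) (nat_lit 2) (.p (nat_lit 358) (nat_lit 3) (.n (nat_lit 359) (nat_lit 2) (.p (nat_lit 361) (nat_lit 1) (.p (nat_lit 362) (nat_lit 3) (.p (nat_lit 364) (nat_lit 3) (.p (nat_lit 366) (nat_lit 3) (.p (nat_lit 367) (nat_lit 2) (.n (nat_lit 368) (nat_lit 1) (.p (nat_lit 369) (nat_lit 1) (.n (nat_lit 370) (nat_lit 1) (.p (nat_lit 373) (nat_lit 1) (.p (nat_lit 374) (nat_lit 3) (.n (nat_lit 375) (nat_lit 1) (.p (nat_lit 377) (nat_lit 2) (.n (nat_lit 379) (nat_lit 1) (.p (nat_lit 380) (nat_lit 3) (.n (nat_lit 381) (nat_lit 1) (.p (nat_lit 382) (nat_lit 2) (.n (nat_lit 383) (nat_lit 1) .z)))))))))))))))))))))))))))))))))))))) (.ct dC2d_c308 (nat_lit 1) (nat_lit 16) (.s false (nat_lit 1) (nat_lit 8) (nat_lit 6) (nat_lit 2) (nat_lit 7) false (nat_lit 2) true (nat_lit 11) true (nat_lit 10) true (nat_lit 12) true (nat_lit 16) (.s true (nat_lit 1) (nat_lit 19) (nat_lit 2) (nat_lit 2) (nat_lit 8) true (nat_lit 2) true (nat_lit 10) true (nat_lit 5) true (nat_lit 16) true (nat_lit 16) (.s false (nat_lit 1) (nat_lit 20) (nat_lit 2) (nat_lit 1) (nat_lit 8) true (nat_lit 2) true (nat_lit 10) true (nat_lit 4) true (nat_lit 16) true (nat_lit 17) (.s true (nat_lit 1) (nat_lit 59) (nat_lit 2) (nat_lit 2) (nat_lit 2) true (nat_lit 11) true (nat_lit 16) false (nat_lit 4) true (nat_lit 16) true (nat_lit 16) (.s false (nat_lit 1) (nat_lit 72) (nat_lit 2) (nat_lit 2) (nat_lit 1) true (nat_lit 12) true (nat_lit 17) false (nat_lit 5) true (nat_lit 16) true (nat_lit 16) (.e false (nat_lit 2) (nat_lit 104) (nat_lit 8) (nat_lit 10) (.e false (nat_lit 1) (nat_lit 152) (nat_lit 6) (nat_lit 12) (.e false (nat_lit 1) (nat_lit 205) (nat_lit 2) (nat_lit 16) (.e true (nat_lit 2) (nat_lit 208) (nat_lit 2) (nat_lit 16) (.e false (nat_lit 1) (nat_lit 215) (nat_lit 2) (nat_lit 16) (.e false (nat_lit 1) (nat_lit 216) (nat_lit 2) (nat_lit 16) (.e true (nat_lit 1) (nat_lit 227) (nat_lit 2) (nat_lit 16) (.e true (nat_lit 1) (nat_lit 242) (nat_lit 2) (nat_lit 16) (.e false (nat_lit 3) (nat_lit 251) (nat_lit 2) (nat_lit 16) (.e false (nat_lit 1) (nat_lit 248) (nat_lit 2) (nat_lit 16) (.e true (nat_lit 1) (nat_lit 245) (nat_lit 2) (nat_lit 16) (.e false (nat_lit 1) (nat_lit 272) (nat_lit 1) (nat_lit 17) (.u (nat_lit 2) (.p (nat_lit 2) (nat_lit 1) (.n (nat_lit 6) (nat_lit 2) (.n (nat_lit 7) (nat_lit 1) (.n (nat_lit 8) (nat_lit 2) (.p (nat_lit 9) (nat_lit 3) (.n (nat_lit 10) (nat_lit 1) (.n (nat_lit 12) (nat_lit 1) (.p (nat_lit 14) (nat_lit 2) (.p (nat_lit 16) (nat_lit 1) (.n (nat_lit 18) (nat_lit 1) (.n (nat_lit 19) (nat_lit 2) (.p (nat_lit 20) (nat_lit 2) (.p (nat_lit 21) (nat_lit 1) (.n (nat_lit 22) (nat_lit 1) (.n (nat_lit 24) (nat_lit 1) (.p (nat_lit 25) (nat_lit 1) (.n (nat_lit 27) (nat_lit 1) (.p (nat_lit 29) (nat_lit 1) (.n (nat_lit 31) (nat_lit 3) (.p (nat_lit 32) (nat_lit 2) (.p (nat_lit 33) (nat_lit 1) (.n (nat_lit 34) (nat_lit 1) (.p (nat_lit 35) (nat_lit 1) (.n (nat_lit 37) (nat_lit 2) (.n (nat_lit 38) (nat_lit 1) (.n (nat_lit 39) (nat_lit 1) (.n (nat_lit 42) (nat_lit 1) (.n (nat_lit 45) (nat_lit 1) (.n (nat_lit 47) (nat_lit 1) (.n (nat_lit 48) (nat_lit 1) (.p (nat_lit 302) (nat_lit 1) (.p (nat_lit 305) (nat_lit 1) (.p (nat_lit 312) (nat_lit 1) (.n (nat_lit 322) (nat_lit 1) (.n (nat_lit 324) (nat_lit 1) .z))))))))))))))))))))))))))))))))))) .nil))))))))))))))))))) .leaf) (nat_lit 231426) (nat_lit 927) (.n (nat_lit 335) (nat_lit 1) (.p (nat_lit 336) (nat_lit 3) (.n (nat_lit 337) (nat_lit 1) (.n (nat_lit 340) (nat_lit 3) (.n (nat_lit 341) (nat_lit 2) (.p (nat_lit 342) (nat_lit 3) (.n (nat_lit 343) (nat_lit 3) (.p (nat_lit 344) (nat_lit 2) (.p (nat_lit 345) (nat_lit 1) (.p (nat_lit 346) (nat_lit 1) (.p (nat_lit 347) (nat_lit 3) (.n (nat_lit 349) (nat_lit 3) (.n (nat_lit 352) (nat_lit 2) (.p (nat_lit 353) (nat_lit 3) (.p (nat_lit 354) (nat_lit 3) (.p (nat_lit 355) (nat_lit 2) (.n (nat_lit 356) (nat_lit 3) (.p (nat_lit 357) (nat_lit 3) (.p (nat_lit 358) (nat_lit 2) (.p (nat_lit 359) (nat_lit 2) (.n (nat_lit 361) (nat_lit 1) (.p (nat_lit 362) (nat_lit 3) (.p (nat_lit 363) (nat_lit 3) (.n (nat_lit 364) (nat_lit 1) (.n (nat_lit 367) (nat_lit 3) (.p (nat_lit 369) (nat_lit 2) (.n (nat_lit 371) (nat_lit 1) (.n (nat_lit 372) (nat_lit 2) (.n (nat_lit 374) (nat_lit 2) (.n (nat_lit 375) (nat_lit 3) (.p (nat_lit 379) (nat_lit 3) (.n (nat_lit 380) (nat_lit 1) (.n (nat_lit 381) (nat_lit 1) (.n (nat_lit 382) (nat_lit 3) (.n (nat_lit 383) (nat_lit 2) (.p (nat_lit 386) (nat_lit 1) .z)))))))))))))))))))))))))))))))))))) (.ct dC2d_c308 (nat_lit 1) (nat_lit 16) (.s false (nat_lit 3) (nat_lit 7) (nat_lit 3) (nat_lit 7) (nat_lit 4) true (nat_lit 3) true (nat_lit 14) true (nat_lit 11) true (nat_lit 15) true (nat_lit 11) (.s true (nat_lit 3) (nat_lit 7) (nat_lit 6) (nat_lit 6) (nat_lit 3) true (nat_lit 2) true (nat_lit 15) true (nat_lit 11) true (nat_lit 12) true (nat_lit 12) (.s false (nat_lit 1) (nat_lit 8) (nat_lit 1) (nat_lit 7) (nat_lit 7) true (nat_lit 5) true (nat_lit 11) true (nat_lit 10) true (nat_lit 17) true (nat_lit 11) (.s true (nat_lit 2) (nat_lit 8) (nat_lit 2) (nat_lit 6) (nat_lit 7) true (nat_lit 4) true (nat_lit 11) true (nat_lit 10) true (nat_lit 16) true (nat_lit 12) (.s false (nat_lit 2) (nat_lit 8) (nat_lit 6) (nat_lit 2) (nat_lit 7) false (nat_lit 2) true (nat_lit 11) true (nat_lit 10) true (nat_lit 12) true (nat_lit 16) (.s true (nat_lit 2) (nat_lit 9) (nat_lit 6) (nat_lit 7) (nat_lit 2) true (nat_lit 5) true (nat_lit 16) true (nat_lit 10) true (nat_lit 12) true (nat_lit 11) (.s false (nat_lit 3) (nat_lit 9) (nat_lit 7) (nat_lit 1) (nat_lit 7) false (nat_lit 3) true (nat_lit 11) true (nat_lit 10) true (nat_lit 11) true (nat_lit 17) (.s false (nat_lit 1) (nat_lit 10) (nat_lit 5) (nat_lit 2) (nat_lit 7) false (nat_lit 1) true (nat_lit 11) true (nat_lit 9) true (nat_lit 13) true (nat_lit 16) (.s false (nat_lit 2) (nat_lit 11) (nat_lit 6) (nat_lit 2) (nat_lit 6) false (nat_lit 0) true (nat_lit 12) true (nat_lit 8) true (nat_lit 12) true (nat_lit 16) (.s false (nat_lit 2) (nat_lit 11) (nat_lit 6) (nat_lit 6) (nat_lit 2) true (nat_lit 5) true (nat_lit 16) true (nat_lit 8) true (nat_lit 12) true (nat_lit 12) (.s true (nat_lit 2) (nat_lit 12) (nat_lit 6) (nat_lit 6) (nat_lit 2) true (nat_lit 5) true (nat_lit 16) true (nat_lit 8) true (nat_lit 12) true (nat_lit 12) (.s false (nat_lit 1) (nat_lit 11) (nat_lit 7) (nat_lit 1) (nat_lit 6) false (nat_lit 2) true (nat_lit 12) true (nat_lit 8) true (nat_lit 11) true (nat_lit 17) dC2d_i194))))))))))))) (.nd (.nd .leaf (nat_lit 232450) (nat_lit 916) (.p (nat_lit 335) (nat_lit 3) (.p (nat_lit 336) (nat_lit 2) (.n (nat_lit 337) (nat_lit 3) (.p (nat_lit 338) (nat_lit 3) (.n (nat_lit 339) (nat_lit 1) (.p (nat_lit 340) (nat_lit 1) (.p (nat_lit 341) (nat_lit 3) (.n (nat_lit 342) (nat_lit 2) (.p (nat_lit 343) (nat_lit 3) (.p (nat_lit 344) (nat_lit 2) (.p (nat_lit 345) (nat_lit 3) (.n (nat_lit 346) (nat_lit 1) (.p (nat_lit 349) (nat_lit 1) (.p (nat_lit 351) (nat_lit 1) (.p (nat_lit 352) (nat_lit 2) (.p (nat_lit 353) (nat_lit 3) (.p (nat_lit 354) (nat_lit 1) (.n (nat_lit 355) (nat_lit 2) (.n (nat_lit 356) (nat_lit 3) (.p (nat_lit 357) (nat_lit 3) (.p (nat_lit 358) (nat_lit 1) (.p (nat_lit 359) (nat_lit 3) (.p (nat_lit 360) (nat_lit 2) (.p (nat_lit 361) (nat_lit 1) (.p (nat_lit 362) (nat_lit 3) (.n (nat_lit 363) (nat_lit 1) (.n (nat_lit 364) (nat_lit 1) (.p (nat_lit 366) (nat_lit 3) (.n (nat_lit 367) (nat_lit 3) (.n (nat_lit 368) (nat_lit 2) (.p (nat_lit 369) (nat_lit 1) (.n (nat_lit 370) (nat_lit 2) (.p (nat_lit 371) (nat_lit 1) (.n (nat_lit 372) (nat_lit 3) (.p (nat_lit 373) (nat_lit 2) (.n (nat_lit 374) (nat_lit 1) (.n (nat_lit 380) (nat_lit 2) (.p (nat_lit 381) (nat_lit 2) (.n (nat_lit 382) (nat_lit 2) (.p (nat_lit 383) (nat_lit 1) .z)))))))))))))))))))))))))))))))))))))))) (.ct dC2d_c308 (nat_lit 1) (nat_lit 16) (.s false (nat_lit 2) (nat_lit 7) (nat_lit 3) (nat_lit 4) (nat_lit 7) true (nat_lit 0) true (nat_lit 11) true (nat_lit 11) true (nat_lit 15) true (nat_lit 14) (.s false (nat_lit 2) (nat_lit 7) (nat_lit 3) (nat_lit 7) (nat_lit 4) true (nat_lit 3) true (nat_lit 14) true (nat_lit 11) true (nat_lit 15) true (nat_lit 11) (.s true (nat_lit 1) (nat_lit 8) (nat_lit 1) (nat_lit 7) (nat_lit 7) true (nat_lit 5) true (nat_lit 11) true (nat_lit 10) true (nat_lit 17) true (nat_lit 11) (.s true (nat_lit 3) (nat_lit 8) (nat_lit 2) (nat_lit 6) (nat_lit 7) true (nat_lit 4) true (nat_lit 11) true (nat_lit 10) true (nat_lit 16) true (nat_lit 12) (.s false (nat_lit 3) (nat_lit 9) (nat_lit 6) (nat_lit 2) (nat_lit 7) false (nat_lit 2) true (nat_lit 11) true (nat_lit 10) true (nat_lit 12) true (nat_lit 16) (.s true (nat_lit 2) (nat_lit 8) (nat_lit 6) (nat_lit 7) (nat_lit 2) true (nat_lit 5) true (nat_lit 16) true (nat_lit 10) true (nat_lit 12) true (nat_lit 11) (.s false (nat_lit 3) (nat_lit 9) (nat_lit 7) (nat_lit 1) (nat_lit 7) false (nat_lit 3) true (nat_lit 11) true (nat_lit 10) true (nat_lit 11) true (nat_lit 17) (.s true (nat_lit 3) (nat_lit 8) (nat_lit 7) (nat_lit 2) (nat_lit 6) false (nat_lit 2) true (nat_lit 12) true (nat_lit 10) true (nat_lit 11) true (nat_lit 16) (.s false (nat_lit 1) (nat_lit 9) (nat_lit 7) (nat_lit 2) (nat_lit 6) false (nat_lit 2) true (nat_lit 12) true (nat_lit 10) true (nat_lit 11) true (nat_lit 16) (.s true (nat_lit 2) (nat_lit 8) (nat_lit 7) (nat_lit 7) (nat_lit 1) true (nat_lit 5) true (nat_lit 17) true (nat_lit 10) true (nat_lit 11) true (nat_lit 11) (.s false (nat_lit 3) (nat_lit 10) (nat_lit 7) (nat_lit 0) (nat_lit 7) false (nat_lit 3) true (nat_lit 11) true (nat_lit 9) true (nat_lit 11) true (nat_lit 18) (.s true (nat_lit 1) (nat_lit 10) (nat_lit 7) (nat_lit 5) (nat_lit 2) true (nat_lit 4) true (nat_lit 16) true (nat_lit 9) true (nat_lit 11) true (nat_lit 13) (.s false (nat_lit 1) (nat_lit 11) (nat_lit 1) (nat_lit 6) (nat_lit 7) true (nat_lit 5) true (nat_lit 11) true (nat_lit 8) true (nat_lit 17) true (nat_lit 12) (.s true (nat_lit 1) (nat_lit 11) (nat_lit 1) (nat_lit 7) (nat_lit 6) true (nat_lit 7) true (nat_lit 12) true (nat_lit 8) true (nat_lit 17) true (nat_lit 11) (.s false (nat_lit 3) (nat_lit 11) (nat_lit 2) (nat_lit 6) (nat_lit 6) true (nat_lit 5) true (nat_lit 12) true (nat_lit 8) true (nat_lit 16) true (nat_lit 12) (.s true (nat_lit 3) (nat_lit 12) (nat_lit 2) (nat_lit 6) (nat_lit 6) true (nat_lit 5) true (nat_lit 12) true (nat_lit 8) true (nat_lit 16) true (nat_lit 12) (.s false (nat_lit 3) (nat_lit 11) (nat_lit 6) (nat_lit 6) (nat_lit 2) true (nat_lit 5) true (nat_lit 16) true (nat_lit 8) true (nat_lit 12) true (nat_lit 12) (.s false (nat_lit 3) (nat_lit 14) (nat_lit 2) (nat_lit 2) (nat_lit 11) true (nat_lit 0) true (nat_lit 8) true (nat_lit 7) true (nat_lit 16) true (nat_lit 16) dC2d_i203))))))))))))))))))) .leaf) (nat_lit 233474) (nat_lit 951) (.p (nat_lit 335) (nat_lit 2) (.p (nat_lit 336) (nat_lit 3) (.n (nat_lit 337) (nat_lit 1) (.n (nat_lit 338) (nat_lit 1) (.n (nat_lit 339) (nat_lit 2) (.p (nat_lit 340) (nat_lit 2) (.p (nat_lit 341) (nat_lit 2) (.n (nat_lit 342) (nat_lit 3) (.p (nat_lit 343) (nat_lit 3) (.n (nat_lit 344) (nat_lit 2) (.n (nat_lit 345) (nat_lit 3) (.p (nat_lit 346) (nat_lit 2) (.p (nat_lit 347) (nat_lit 1) (.p (nat_lit 349) (nat_lit 2) (.p (nat_lit 350) (nat_lit 2) (.n (nat_lit 351) (nat_lit 1) (.p (nat_lit 352) (nat_lit 3) (.p (nat_lit 353) (nat_lit 1) (.n (nat_lit 354) (nat_lit 1) (.p (nat_lit 355) (nat_lit 2) (.n (nat_lit 356) (nat_lit 2) (.p (nat_lit 357) (nat_lit 2) (.n (nat_lit 358) (nat_lit 2) (.n (nat_lit 360) (nat_lit 1) (.n (nat_lit 361) (nat_lit 3) (.p (nat_lit 362) (nat_lit 1) (.n (nat_lit 363) (nat_lit 2) (.n (nat_lit 364) (nat_lit 1) (.n (nat_lit 366) (nat_lit 1) (.n (nat_lit 367) (nat_lit 3) (.n (nat_lit 368) (nat_lit 1) (.n (nat_lit 369) (nat_lit 3) (.n (nat_lit 371) (nat_lit 2) (.p (nat_lit 372) (nat_lit 2) (.p (nat_lit 373) (nat_lit 1) (.n (nat_lit 374) (nat_lit 2) (.p (nat_lit 380) (nat_lit 3) (.n (nat_lit 381) (nat_lit 3) (.p (nat_lit 382) (nat_lit 3) (.p (nat_lit 383) (nat_lit 2) .z)))))))))))))))))))))))))))))))))))))))) (.ct dC2d_c308 (nat_lit 1) (nat_lit 16) (.s true (nat_lit 2) (nat_lit 7) (nat_lit 3) (nat_lit 7) (nat_lit 4) true (nat_lit 3) true (nat_lit 14) true (nat_lit 11) true (nat_lit 15) true (nat_lit 11) (.s true (nat_lit 2) (nat_lit 8) (nat_lit 2) (nat_lit 7) (nat_lit 6) true (nat_lit 5) true (nat_lit 12) true (nat_lit 10) true (nat_lit 16) true (nat_lit 11) (.s true (nat_lit 2) (nat_lit 8) (nat_lit 6) (nat_lit 2) (nat_lit 7) false (nat_lit 2) true (nat_lit 11) true (nat_lit 10) true (nat_lit 12) true (nat_lit 16) (.s false (nat_lit 2) (nat_lit 9) (nat_lit 7) (nat_lit 6) (nat_lit 2) true (nat_lit 4) true (nat_lit 16) true (nat_lit 10) true (nat_lit 11) true (nat_lit 12) (.s true (nat_lit 1) (nat_lit 11) (nat_lit 6) (nat_lit 6) (nat_lit 2) true (nat_lit 5) true (nat_lit 16) true (nat_lit 8) true (nat_lit 12) true (nat_lit 12) (.s false (nat_lit 1) (nat_lit 12) (nat_lit 6) (nat_lit 6) (nat_lit 2) true (nat_lit 5) true (nat_lit 16) true (nat_lit 8) true (nat_lit 12) true (nat_lit 12) (.s false (nat_lit 3) (nat_lit 14) (nat_lit 11) (nat_lit 2) (nat_lit 2) true (nat_lit 0) true (nat_lit 16) true (nat_lit 7) true (nat_lit 8) true (nat_lit 16) (.s true (nat_lit 3) (nat_lit 19) (nat_lit 1) (nat_lit 11) (nat_lit 2) true (nat_lit 12) true (nat_lit 16) true (nat_lit 5) true (nat_lit 17) true (nat_lit 8) (.s false (nat_lit 3) (nat_lit 19) (nat_lit 2) (nat_lit 1) (nat_lit 11) true (nat_lit 0) true (nat_lit 8) true (nat_lit 5) true (nat_lit 16) true (nat_lit 17) (.s true (nat_lit 3) (nat_lit 19) (nat_lit 2) (nat_lit 2) (nat_lit 8) true (nat_lit 2) true (nat_lit 10) true (nat_lit 5) true (nat_lit 16) true (nat_lit 16) (.s false (nat_lit 3) (nat_lit 18) (nat_lit 8) (nat_lit 2) (nat_lit 2) true (nat_lit 2) true (nat_lit 16) true (nat_lit 5) true (nat_lit 10) true (nat_lit 16) (.s false (nat_lit 2) (nat_lit 19) (nat_lit 9) (nat_lit 2) (nat_lit 2) true (nat_lit 2) true (nat_lit 16) true (nat_lit 5) true (nat_lit 10) true (nat_lit 16) (.s false (nat_lit 3) (nat_lit 20) (nat_lit 2) (nat_lit 8) (nat_lit 1) true (nat_lit 12) true (nat_lit 17) true (nat_lit 4) true (nat_lit 16) true (nat_lit 10) (.s true (nat_lit 2) (nat_lit 22) (nat_lit 2) (nat_lit 2) (nat_lit 7) true (nat_lit 4) true (nat_lit 11) true (nat_lit 3) true (nat_lit 16) true (nat_lit 16) (.s true (nat_lit 2) (nat_lit 23) (nat_lit 2) (nat_lit 2) (nat_lit 7) true (nat_lit 4) true (nat_lit 11) true (nat_lit 3) true (nat_lit 16) true (nat_lit 16) (.s false (nat_lit 3) (nat_lit 24) (nat_lit 1) (nat_lit 7) (nat_lit 2) true (nat_lit 12) true (nat_lit 16) true (nat_lit 2) true (nat_lit 17) true (nat_lit 11) (.s false (nat_lit 3) (nat_lit 25) (nat_lit 1) (nat_lit 7) (nat_lit 2) true (nat_lit 12) true (nat_lit 16) true (nat_lit 2) true (nat_lit 17) true (nat_lit 11) (.s true (nat_lit 3) (nat_lit 24) (nat_lit 2) (nat_lit 1) (nat_lit 7) true (nat_lit 4) true (nat_lit 11) true (nat_lit 2) true (nat_lit 16) true (nat_lit 17) (.s true (nat_lit 2) (nat_lit 24) (nat_lit 2) (nat_lit 2) (nat_lit 6) true (nat_lit 5) true (nat_lit 12) true (nat_lit 2) true (nat_lit 16) true (nat_lit 16) (.s true (nat_lit 2) (nat_lit 25) (nat_lit 2) (nat_lit 2) (nat_lit 6) true (nat_lit 5) true (nat_lit 12) true (nat_lit 2) true (nat_lit 16) true (nat_lit 16) (.s false (nat_lit 2) (nat_lit 25) (nat_lit 2) (nat_lit 7) (nat_lit 1) true (nat_lit 12) true (nat_lit 17) true (nat_lit 2) true (nat_lit 16) true (nat_lit 11) dC2d_i208)))))))))))))))))))))) .leaf))) (nat_lit 234498) (nat_lit 918) (.n (nat_lit 335) (nat_lit 3) (.n (nat_lit 336) (nat_lit 2) (.p (nat_lit 337) (nat_lit 3) (.p (nat_lit 338) (nat_lit 1) (.p (nat_lit 339) (nat_lit 2) (.p (nat_lit 340) (nat_lit 2) (.n (nat_lit 341) (nat_lit 1) (.n (nat_lit 342) (nat_lit 1) (.n (nat_lit 344) (nat_lit 1) (.n (nat_lit 345) (nat_lit 3) (.n (nat_lit 346) (nat_lit 1) (.n (nat_lit 347) (nat_lit 2) (.p (nat_lit 349) (nat_lit 1) (.n (nat_lit 350) (nat_lit 1) (.n (nat_lit 352) (nat_lit 3) (.p (nat_lit 353) (nat_lit 2) (.p (nat_lit 355) (nat_lit 2) (.n (nat_lit 358) (nat_lit 1) (.n (nat_lit 359) (nat_lit 2) (.p (nat_lit 360) (nat_lit 1) (.p (nat_lit 361) (nat_lit 2) (.n (nat_lit 362) (nat_lit 2) (.p (nat_lit 363) (nat_lit 1) (.n (nat_lit 364) (nat_lit 1) (.n (nat_lit 366) (nat_lit 1) (.n (nat_lit 367) (nat_lit 3) (.p (nat_lit 368) (nat_lit 1) (.p (nat_lit 369) (nat_lit 2) (.n (nat_lit 371) (nat_lit 3) (.n (nat_lit 372) (nat_lit 3) (.n (nat_lit 373) (nat_lit 1) (.p (nat_lit 374) (nat_lit 3) .z)))))))))))))))))))))))))))))))) (.ct dC2d_c308 (nat_lit 1) (nat_lit 16) (.s false (nat_lit 3) (nat_lit 7) (nat_lit 3) (nat_lit 7) (nat_lit 4) true (nat_lit 3) true (nat_lit 14) true (nat_lit 11) true (nat_lit 15) true (nat_lit 11) (.s false (nat_lit 3) (nat_lit 8) (nat_lit 1) (nat_lit 7) (nat_lit 7) true (nat_lit 5) true (nat_lit 11) true (nat_lit 10) true (nat_lit 17) true (nat_lit 11) (.s true (nat_lit 1) (nat_lit 9) (nat_lit 6) (nat_lit 2) (nat_lit 7) false (nat_lit 2) true (nat_lit 11) true (nat_lit 10) true (nat_lit 12) true (nat_lit 16) (.s false (nat_lit 1) (nat_lit 9) (nat_lit 7) (nat_lit 2) (nat_lit 6) false (nat_lit 2) true (nat_lit 12) true (nat_lit 10) true (nat_lit 11) true (nat_lit 16) (.s false (nat_lit 3) (nat_lit 8) (nat_lit 7) (nat_lit 6) (nat_lit 2) true (nat_lit 4) true (nat_lit 16) true (nat_lit 10) true (nat_lit 11) true (nat_lit 12) (.s true (nat_lit 2) (nat_lit 8) (nat_lit 7) (nat_lit 7) (nat_lit 1) true (nat_lit 5) true (nat_lit 17) true (nat_lit 10) true (nat_lit 11) true (nat_lit 11) (.s false (nat_lit 3) (nat_lit 10) (nat_lit 5) (nat_lit 7) (nat_lit 2) true (nat_lit 6) true (nat_lit 16) true (nat_lit 9) true (nat_lit 13) true (nat_lit 11) (.s true (nat_lit 2) (nat_lit 10) (nat_lit 7) (nat_lit 0) (nat_lit 7) false (nat_lit 3) true (nat_lit 11) true (nat_lit 9) true (nat_lit 11) true (nat_lit 18) (.s true (nat_lit 3) (nat_lit 10) (nat_lit 7) (nat_lit 7) (nat_lit 0) true (nat_lit 6) true (nat_lit 18) true (nat_lit 9) true (nat_lit 11) true (nat_lit 11) (.s true (nat_lit 3) (nat_lit 11) (nat_lit 1) (nat_lit 7) (nat_lit 6) true (nat_lit 7) true (nat_lit 12) true (nat_lit 8) true (nat_lit 17) true (nat_lit 11) (.s true (nat_lit 1) (nat_lit 11) (nat_lit 4) (nat_lit 7) (nat_lit 2) true (nat_lit 7) true (nat_lit 16) true (nat_lit 8) true (nat_lit 14) true (nat_lit 11) (.s false (nat_lit 2) (nat_lit 12) (nat_lit 6) (nat_lit 2) (nat_lit 6) false (nat_lit 0) true (nat_lit 12) true (nat_lit 8) true (nat_lit 12) true (nat_lit 16) dC2d_i217))))))))))))) (.nd (.nd (.nd (.nd .leaf (nat_lit 235522) (nat_lit 915) (.n (nat_lit 336) (nat_lit 3) (.p (nat_lit 337) (nat_lit 1) (.p (nat_lit 338) (nat_lit 3) (.n (nat_lit 339) (nat_lit 3) (.n (nat_lit 340) (nat_lit 1) (.p (nat_lit 341) (nat_lit 1) (.p (nat_lit 342) (nat_lit 2) (.n (nat_lit 343) (nat_lit 2) (.n (nat_lit 344) (nat_lit 2) (.n (nat_lit 345) (nat_lit 1) (.p (nat_lit 346) (nat_lit 3) (.n (nat_lit 347) (nat_lit 3) (.n (nat_lit 349) (nat_lit 1) (.n (nat_lit 350) (nat_lit 1) (.p (nat_lit 351) (nat_lit 2) (.p (nat_lit 352) (nat_lit 2) (.p (nat_lit 354) (nat_lit 2) (.n (nat_lit 355) (nat_lit 1) (.p (nat_lit 356) (nat_lit 2) (.n (nat_lit 357) (nat_lit 2) (.p (nat_lit 358) (nat_lit 2) (.n (nat_lit 360) (nat_lit 3) (.p (nat_lit 361) (nat_lit 2) (.n (nat_lit 362) (nat_lit 2) (.p (nat_lit 363) (nat_lit 1) (.p (nat_lit 364) (nat_lit 1) (.n (nat_lit 366) (nat_lit 2) (.p (nat_lit 367) (nat_lit 3) (.n (nat_lit 368) (nat_lit 2) (.p (nat_lit 369) (nat_lit 2) (.n (nat_lit 370) (nat_lit 1) (.n (nat_lit 371) (nat_lit 2) (.n (nat_lit 372) (nat_lit 2) (.p (nat_lit 373) (nat_lit 2) (.p (nat_lit 374) (nat_lit 2) (.n (nat_lit 375) (nat_lit 1) (.p (nat_lit 377) (nat_lit 2) (.n (nat_lit 379) (nat_lit 1) (.p (nat_lit 380) (nat_lit 1) (.p (nat_lit 383) (nat_lit 1) .z)))))))))))))))))))))))))))))))))))))))) (.ct dC2d_c308 (nat_lit 1) (nat_lit 16) dC2d_i226) .leaf) (nat_lit 236546) (nat_lit 905) (.p (nat_lit 390) (nat_lit 1) .z) .df .leaf) (nat_lit 237570) (nat_lit 952) (.n (nat_lit 335) (nat_lit 2) (.n (nat_lit 340) (nat_lit 3) (.p (nat_lit 341) (nat_lit 1) (.n (nat_lit 342) (nat_lit 3) (.p (nat_lit 343) (nat_lit 1) (.p (nat_lit 344) (nat_lit 2) (.p (nat_lit 345) (nat_lit 2) (.p (nat_lit 346) (nat_lit 3) (.n (nat_lit 347) (nat_lit 1) (.n (nat_lit 349) (nat_lit 2) (.p (nat_lit 350) (nat_lit 1) (.p (nat_lit 352) (nat_lit 1) (.p (nat_lit 353) (nat_lit 3) (.p (nat_lit 356) (nat_lit 1) (.n (nat_lit 357) (nat_lit 1) (.p (nat_lit 358) (nat_lit 3) (.n (nat_lit 359) (nat_lit 2) (.n (nat_lit 360) (nat_lit 3) (.n (nat_lit 361) (nat_lit 3) (.n (nat_lit 362) (nat_lit 1) (.p (nat_lit 363) (nat_lit 1) (.n (nat_lit 364) (nat_lit 1) (.n (nat_lit 367) (nat_lit 3) (.p (nat_lit 368) (nat_lit 2) (.p (nat_lit 370) (nat_lit 2) (.p (nat_lit 371) (nat_lit 2) (.n (nat_lit 372) (nat_lit 2) (.n (nat_lit 373) (nat_lit 2) (.n (nat_lit 374) (nat_lit 3) (.n (nat_lit 382) (nat_lit 2) (.p (nat_lit 383) (nat_lit 1) (.p (nat_lit 390) (nat_lit 2) .z)))))))))))))))))))))))))))))))) (.ct dC2d_c308 (nat_lit 1) (nat_lit 16) dC2d_i227) (.nd (.nd .leaf (nat_lit 238594) (nat_lit 906) (.p (nat_lit 391) (nat_lit 1) .z) .df .leaf) (nat_lit 239618) (nat_lit 907) (.p (nat_lit 392) (nat_lit 1) .z) .df .leaf)) (nat_lit 240642) (nat_lit 908) (.p (nat_lit 393) (nat_lit 1) .z) .df (.nd (.nd (.nd .leaf (nat_lit 241666) (nat_lit 909) (.p (nat_lit 394) (nat_lit 1) .z) .df .leaf) (nat_lit 242690) (nat_lit 910) (.p (nat_lit 395) (nat_lit 1) .z) .df .leaf) (nat_lit 243714) (nat_lit 1131) (.n (nat_lit 335) (nat_lit 2) (.p (nat_lit 336) (nat_lit 1) (.p (nat_lit 337) (nat_lit 2) (.p (nat_lit 338) (nat_lit 3) (.n (nat_lit 339) (nat_lit 2) (.n (nat_lit 344) (nat_lit 3) (.p (nat_lit 345) (nat_lit 2) (.n (nat_lit 346) (nat_lit 2) (.n (nat_lit 347) (nat_lit 3) (.p (nat_lit 348) (nat_lit 1) (.p (nat_lit 349) (nat_lit 1) (.p (nat_lit 350) (nat_lit 2) (.p (nat_lit 351) (nat_lit 2) (.p (nat_lit 352) (nat_lit 2) (.n (nat_lit 353) (nat_lit 2) (.p (nat_lit 355) (nat_lit 3) (.n (nat_lit 356) (nat_lit 1) (.p (nat_lit 357) (nat_lit 2) (.n (nat_lit 358) (nat_lit 2) (.p (nat_lit 359) (nat_lit 3) (.n (nat_lit 360) (nat_lit 3) (.p (nat_lit 361) (nat_lit 3) (.n (nat_lit 362) (nat_lit 2) (.n (nat_lit 364) (nat_lit 2) (.p (nat_lit 365) (nat_lit 1) (.n (nat_lit 366) (nat_lit 1) (.n (nat_lit 369) (nat_lit 1) (.p (nat_lit 371) (nat_lit 2) (.p (nat_lit 372) (nat_lit 1) (.n (nat_lit 373) (nat_lit 1) (.n (nat_lit 374) (nat_lit 3) (.p (nat_lit 375) (nat_lit 2) (.n (nat_lit 376) (nat_lit 2) (.p (nat_lit 378) (nat_lit 1) (.n (nat_lit 379) (nat_lit 3) (.p (nat_lit 380) (nat_lit 3) (.p (nat_lit 383) (nat_lit 3) (.n (nat_lit 384) (nat_lit 1) (.n (nat_lit 386) (nat_lit 1) (.p (nat_lit 390) (nat_lit 2) (.p (nat_lit 391) (nat_lit 2) (.n (nat_lit 393) (nat_lit 1) .z)))))))))))))))))))))))))))))))))))))))))) (.ct dC2d_c308 (nat_lit 1) (nat_lit 16) (.s false (nat_lit 1) (nat_lit 18) (nat_lit 1) (nat_lit 2) (nat_lit 11) true (nat_lit 2) true (nat_lit 8) true (nat_lit 5) true (nat_lit 17) true (nat_lit 16) (.e true (nat_lit 1) (nat_lit 45) (nat_lit 26) (nat_lit 2) (.e false (nat_lit 1) (nat_lit 93) (nat_lit 11) (nat_lit 8) (.e true (nat_lit 1) (nat_lit 73) (nat_lit 18) (nat_lit 5) (.e false (nat_lit 3) (nat_lit 254) (nat_lit 1) (nat_lit 17) (.e false (nat_lit 1) (nat_lit 258) (nat_lit 1) (nat_lit 17) (.e false (nat_lit 1) (nat_lit 264) (nat_lit 1) (nat_lit 17) (.e true (nat_lit 2) (nat_lit 265) (nat_lit 1) (nat_lit 17) (.e false (nat_lit 2) (nat_lit 266) (nat_lit 1) (nat_lit 17) (.e true (nat_lit 1) (nat_lit 269) (nat_lit 1) (nat_lit 17) (.e true (nat_lit 1) (nat_lit 272) (nat_lit 1) (nat_lit 17) dC2d_i228)))))))))))) (.nd .leaf (nat_lit 244738) (nat_lit 911) (.p (nat_lit 396) (nat_lit 1) .z) .df .leaf)))) (nat_lit 245762) (nat_lit 1151) (.p (nat_lit 335) (nat_lit 3) (.n (nat_lit 336) (nat_lit 2) (.p (nat_lit 337) (nat_lit 2) (.n (nat_lit 338) (nat_lit 1) (.p (nat_lit 339) (nat_lit 3) (.n (nat_lit 342) (nat_lit 3) (.p (nat_lit 343) (nat_lit 2) (.n (nat_lit 344) (nat_lit 3) (.p (nat_lit 345) (nat_lit 1) (.p (nat_lit 346) (nat_lit 3) (.n (nat_lit 347) (nat_lit 1) (.p (nat_lit 348) (nat_lit 2) (.n (nat_lit 349) (nat_lit 3) (.n (nat_lit 350) (nat_lit 3) (.n (nat_lit 351) (nat_lit 3) (.p (nat_lit 352) (nat_lit 3) (.p (nat_lit 353) (nat_lit 3) (.n (nat_lit 354) (nat_lit 2) (.p (nat_lit 355) (nat_lit 1) (.n (nat_lit 356) (nat_lit 3) (.n (nat_lit 357) (nat_lit 2) (.p (nat_lit 359) (nat_lit 3) (.p (nat_lit 360) (nat_lit 2) (.n (nat_lit 361) (nat_lit 1) (.p (nat_lit 363) (nat_lit 3) (.p (nat_lit 365) (nat_lit 2) (.p (nat_lit 366) (nat_lit 2) (.n (nat_lit 367) (nat_lit 2) (.n (nat_lit 368) (nat_lit 3) (.n (nat_lit 369) (nat_lit 1) (.n (nat_lit 370) (nat_lit 3) (.p (nat_lit 372) (nat_lit 3) (.p (nat_lit 374) (nat_lit 3) (.p (nat_lit 375) (nat_lit 3) (.p (nat_lit 376) (nat_lit 1) (.p (nat_lit 378) (nat_lit 3) (.p (nat_lit 379) (nat_lit 1) (.n (nat_lit 380) (nat_lit 3) (.p (nat_lit 381) (nat_lit 1) (.n (nat_lit 382) (nat_lit 1) (.n (nat_lit 383) (nat_lit 1) (.n (nat_lit 384) (nat_lit 3) (.n (nat_lit 386) (nat_lit 2) (.p (nat_lit 387) (nat_lit 1) (.p (nat_lit 388) (nat_lit 1) (.n (nat_lit 390) (nat_lit 1) (.n (nat_lit 391) (nat_lit 3) (.n (nat_lit 392) (nat_lit 2) (.n (nat_lit 393) (nat_lit 3) (.p (nat_lit 395) (nat_lit 1) (.p (nat_lit 396) (nat_lit 2) .z))))))))))))))))))))))))))))))))))))))))))))))))))) (.ct dC2d_c308 (nat_lit 1) (nat_lit 16) (.s false (nat_lit 1) (nat_lit 76) (nat_lit 2) (nat_lit 2) (nat_lit 0) true (nat_lit 13) true (nat_lit 18) false (nat_lit 6) true (nat_lit 16) true (nat_lit 16) (.e false (nat_lit 1) (nat_lit 160) (nat_lit 5) (nat_lit 13) (.e false (nat_lit 1) (nat_lit 291) (nat_lit 0) (nat_lit 18) (.e true (nat_lit 1) (nat_lit 76) (nat_lit 17) (nat_lit 6) (.e true (nat_lit 1) (nat_lit 205) (nat_lit 2) (nat_lit 16) (.e false (nat_lit 1) (nat_lit 207) (nat_lit 2) (nat_lit 16) (.e false (nat_lit 3) (nat_lit 210) (nat_lit 2) (nat_lit 16) (.e false (nat_lit 1) (nat_lit 211) (nat_lit 2) (nat_lit 16) (.e false (nat_lit 1) (nat_lit 213) (nat_lit 2) (nat_lit 16) (.e false (nat_lit 2) (nat_lit 214) (nat_lit 2) (nat_lit 16) (.e true (nat_lit 3) (nat_lit 215) (nat_lit 2) (nat_lit 16) (.e false (nat_lit 2) (nat_lit 216) (nat_lit 2) (nat_lit 16) (.e false (nat_lit 3) (nat_lit 218) (nat_lit 2) (nat_lit 16) dC2d_i229)))))))))))))) (.nd (.nd (.nd (.nd (.nd .leaf (nat_lit 246786) (nat_lit 1138) (.n (nat_lit 335) (nat_lit 1) (.n (nat_lit 336) (nat_lit 3) (.p (nat_lit 337) (nat_lit 1) (.n (nat_lit 338) (nat_lit 1) (.n (nat_lit 339) (nat_lit 3) (.n (nat_lit 340) (nat_lit 2) (.n (nat_lit 341) (nat_lit 2) (.p (nat_lit 342) (nat_lit 2) (.n (nat_lit 343) (nat_lit 3) (.p (nat_lit 345) (nat_lit 2) (.p (nat_lit 346) (nat_lit 1) (.p (nat_lit 347) (nat_lit 3) (.p (nat_lit 348) (nat_lit 1) (.n (nat_lit 349) (nat_lit 1) (.p (nat_lit 352) (nat_lit 2) (.n (nat_lit 353) (nat_lit 2) (.n (nat_lit 354) (nat_lit 3) (.n (nat_lit 355) (nat_lit 3) (.n (nat_lit 356) (nat_lit 3) (.n (nat_lit 357) (nat_lit 3) (.n (nat_lit 358) (nat_lit 2) (.p (nat_lit 359) (nat_lit 3) (.n (nat_lit 360) (nat_lit 1) (.p (nat_lit 361) (nat_lit 2) (.p (nat_lit 362) (nat_lit 2) (.n (nat_lit 363) (nat_lit 2) (.p (nat_lit 365) (nat_lit 1) (.n (nat_lit 367) (nat_lit 1) (.n (nat_lit 368) (nat_lit 2) (.n (nat_lit 369) (nat_lit 1) (.n (nat_lit 370) (nat_lit 3) (.p (nat_lit 371) (nat_lit 1) (.n (nat_lit 372) (nat_lit 1) (.n (nat_lit 374) (nat_lit 3) (.n (nat_lit 375) (nat_lit 2) (.n (nat_lit 376) (nat_lit 3) (.p (nat_lit 378) (nat_lit 1) (.p (nat_lit 380) (nat_lit 1) (.p (nat_lit 381) (nat_lit 3) (.p (nat_lit 382) (nat_lit 1) (.n (nat_lit 383) (nat_lit 1) (.n (nat_lit 384) (nat_lit 2) (.n (nat_lit 385) (nat_lit 1) (.n (nat_lit 386) (nat_lit 1) (.p (nat_lit 388) (nat_lit 1) (.p (nat_lit 390) (nat_lit 2) (.p (nat_lit 391) (nat_lit 2) (.n (nat_lit 393) (nat_lit 1) (.p (nat_lit 396) (nat_lit 1) .z))))))))))))))))))))))))))))))))))))))))))))))))) (.ct dC2d_c308 (nat_lit 1) (nat_lit 16) (.s true (nat_lit 1) (nat_lit 92) (nat_lit 0) (nat_lit 1) (nat_lit 2) true (nat_lit 13) true (nat_lit 16) false (nat_lit 8) true (nat_lit 18) true (nat_lit 17) (.e true (nat_lit 1) (nat_lit 164) (nat_lit 5) (nat_lit 13) (.e true (nat_lit 1) (nat_lit 92) (nat_lit 11) (nat_lit 8) (.e true (nat_lit 2) (nat_lit 289) (nat_lit 0) (nat_lit 18) (.e true (nat_lit 1) (nat_lit 290) (nat_lit 0) (nat_lit 18) (.e false (nat_lit 3) (nat_lit 291) (nat_lit 0) (nat_lit 18) (.e true (nat_lit 3) (nat_lit 292) (nat_lit 0) (nat_lit 18) (.e false (nat_lit 1) (nat_lit 293) (nat_lit 0) (nat_lit 18) (.e false (nat_lit 2) (nat_lit 295) (nat_lit 0) (nat_lit 18) (.e false (nat_lit 2) (nat_lit 297) (nat_lit 0) (nat_lit 18) (.e true (nat_lit 1) (nat_lit 299) (nat_lit 0) (nat_lit 18) (.e false (nat_lit 1) (nat_lit 301) (nat_lit 0) (nat_lit 18) (.e true (nat_lit 2) (nat_lit 303) (nat_lit 0) (nat_lit 18) (.e false (nat_lit 3) (nat_lit 304) (nat_lit 0) (nat_lit 18) dC2d_i230))))))))))))))) .leaf) (nat_lit 247810) (nat_lit 933) (.p (nat_lit 335) (nat_lit 2) (.n (nat_lit 338) (nat_lit 3) (.p (nat_lit 339) (nat_lit 1) (.p (nat_lit 340) (nat_lit 3) (.p (nat_lit 341) (nat_lit 1) (.p (nat_lit 343) (nat_lit 2) (.n (nat_lit 344) (nat_lit 3) (.n (nat_lit 345) (nat_lit 2) (.p (nat_lit 346) (nat_lit 2) (.n (nat_lit 347) (nat_lit 1) (.n (nat_lit 349) (nat_lit 2) (.n (nat_lit 350) (nat_lit 1) (.n (nat_lit 351) (nat_lit 2) (.p (nat_lit 352) (nat_lit 3) (.n (nat_lit 353) (nat_lit 1) (.n (nat_lit 354) (nat_lit 1) (.p (nat_lit 356) (nat_lit 2) (.n (nat_lit 357) (nat_lit 2) (.n (nat_lit 358) (nat_lit 2) (.n (nat_lit 360) (nat_lit 2) (.n (nat_lit 361) (nat_lit 1) (.p (nat_lit 362) (nat_lit 1) (.n (nat_lit 363) (nat_lit 1) (.n (nat_lit 364) (nat_lit 3) (.n (nat_lit 366) (nat_lit 1) (.n (nat_lit 367) (nat_lit 2) (.p (nat_lit 369) (nat_lit 3) (.n (nat_lit 371) (nat_lit 1) (.p (nat_lit 372) (nat_lit 3) (.p (nat_lit 374) (nat_lit 2) (.p (nat_lit 380) (nat_lit 1) (.p (nat_lit 381) (nat_lit 3) (.p (nat_lit 390) (nat_lit 2) .z))))))))))))))))))))))))))))))))) (.ct dC2d_c308 (nat_lit 1) (nat_lit 16) (.s true (nat_lit 3) (nat_lit 7) (nat_lit 3) (nat_lit 7) (nat_lit 4) true (nat_lit 3) true (nat_lit 14) true (nat_lit 11) true (nat_lit 15) true (nat_lit 11) (.s true (nat_lit 1) (nat_lit 8) (nat_lit 1) (nat_lit 7) (nat_lit 7) true (nat_lit 5) true (nat_lit 11) true (nat_lit 10) true (nat_lit 17) true (nat_lit 11) (.s false (nat_lit 1) (nat_lit 8) (nat_lit 2) (nat_lit 6) (nat_lit 7) true (nat_lit 4) true (nat_lit 11) true (nat_lit 10) true (nat_lit 16) true (nat_lit 12) (.s false (nat_lit 1) (nat_lit 9) (nat_lit 6) (nat_lit 2) (nat_lit 7) false (nat_lit 2) true (nat_lit 11) true (nat_lit 10) true (nat_lit 12) true (nat_lit 16) (.s false (nat_lit 1) (nat_lit 9) (nat_lit 7) (nat_lit 1) (nat_lit 7) false (nat_lit 3) true (nat_lit 11) true (nat_lit 10) true (nat_lit 11) true (nat_lit 17) (.s false (nat_lit 1) (nat_lit 9) (nat_lit 7) (nat_lit 2) (nat_lit 6) false (nat_lit 2) true (nat_lit 12) true (nat_lit 10) true (nat_lit 11) true (nat_lit 16) (.s false (nat_lit 3) (nat_lit 10) (nat_lit 5) (nat_lit 2) (nat_lit 7) false (nat_lit 1) true (nat_lit 11) true (nat_lit 9) true (nat_lit 13) true (nat_lit 16) (.s false (nat_lit 3) (nat_lit 10) (nat_lit 5) (nat_lit 7) (nat_lit 2) true (nat_lit 6) true (nat_lit 16) true (nat_lit 9) true (nat_lit 13) true (nat_lit 11) (.s false (nat_lit 2) (nat_lit 10) (nat_lit 7) (nat_lit 0) (nat_lit 7) false (nat_lit 3) true (nat_lit 11) true (nat_lit 9) true (nat_lit 11) true (nat_lit 18) (.s false (nat_lit 1) (nat_lit 11) (nat_lit 1) (nat_lit 7) (nat_lit 6) true (nat_lit 7) true (nat_lit 12) true (nat_lit 8) true (nat_lit 17) true (nat_lit 11) (.s false (nat_lit 1) (nat_lit 11) (nat_lit 2) (nat_lit 6) (nat_lit 6) true (nat_lit 5) true (nat_lit 12) true (nat_lit 8) true (nat_lit 16) true (nat_lit 12) (.s false (nat_lit 1) (nat_lit 11) (nat_lit 4) (nat_lit 7) (nat_lit 2) true (nat_lit 7) true (nat_lit 16) true (nat_lit 8) true (nat_lit 14) true (nat_lit 11) (.s true (nat_lit 1) (nat_lit 11) (nat_lit 6) (nat_lit 1) (nat_lit 7) false (nat_lit 2) true (nat_lit 11) true (nat_lit 8) true (nat_lit 12) true (nat_lit 17) (.s true (nat_lit 1) (nat_lit 11) (nat_lit 6) (nat_lit 7) (nat_lit 1) true (nat_lit 7) true (nat_lit 17) true (nat_lit 8) true (nat_lit 12) true (nat_lit 11) (.s true (nat_lit 3) (nat_lit 11) (nat_lit 7) (nat_lit 1) (nat_lit 6) false (nat_lit 2) true (nat_lit 12) true (nat_lit 8) true (nat_lit 11) true (nat_lit 17) dC2d_i237)))))))))))))))) .leaf) (nat_lit 248834) (nat_lit 943) (.p (nat_lit 335) (nat_lit 3) (.n (nat_lit 336) (nat_lit 3) (.p (nat_lit 337) (nat_lit 1) (.p (nat_lit 338) (nat_lit 1) (.p (nat_lit 339) (nat_lit 2) (.n (nat_lit 341) (nat_lit 2) (.n (nat_lit 342) (nat_lit 2) (.p (nat_lit 344) (nat_lit 2) (.p (nat_lit 350) (nat_lit 3) (.n (nat_lit 351) (nat_lit 1) (.p (nat_lit 352) (nat_lit 2) (.n (nat_lit 353) (nat_lit 2) (.n (nat_lit 355) (nat_lit 1) (.p (nat_lit 356) (nat_lit 3) (.n (nat_lit 357) (nat_lit 3) (.n (nat_lit 358) (nat_lit 3) (.p (nat_lit 359) (nat_lit 2) (.p (nat_lit 360) (nat_lit 3) (.n (nat_lit 361) (nat_lit 3) (.n (nat_lit 362) (nat_lit 1) (.n (nat_lit 363) (nat_lit 1) (.n (nat_lit 364) (nat_lit 1) (.n (nat_lit 367) (nat_lit 3) (.n (nat_lit 368) (nat_lit 2) (.p (nat_lit 369) (nat_lit 1) (.n (nat_lit 370) (nat_lit 1) (.n (nat_lit 371) (nat_lit 1) (.p (nat_lit 373) (nat_lit 2) (.p (nat_lit 374) (nat_lit 3) (.p (nat_lit 380) (nat_lit 1) (.p (nat_lit 381) (nat_lit 3) (.p (nat_lit 382) (nat_lit 1) (.p (nat_lit 383) (nat_lit 3) (.n (nat_lit 390) (nat_lit 3) .z)))))))))))))))))))))))))))))))))) (.ct dC2d_c308 (nat_lit 1) (nat_lit 16) (.s true (nat_lit 3) (nat_lit 7) (nat_lit 3) (nat_lit 7) (nat_lit 4) true (nat_lit 3) true (nat_lit 14) true (nat_lit 11) true (nat_lit 15) true (nat_lit 11) (.s false (nat_lit 1) (nat_lit 8) (nat_lit 2) (nat_lit 7) (nat_lit 6) true (nat_lit 5) true (nat_lit 12) true (nat_lit 10) true (nat_lit 16) true (nat_lit 11) (.s false (nat_lit 2) (nat_lit 9) (nat_lit 7) (nat_lit 1) (nat_lit 7) false (nat_lit 3) true (nat_lit 11) true (nat_lit 10) true (nat_lit 11) true (nat_lit 17) (.s false (nat_lit 3) (nat_lit 11) (nat_lit 1) (nat_lit 7) (nat_lit 6) true (nat_lit 7) true (nat_lit 12) true (nat_lit 8) true (nat_lit 17) true (nat_lit 11) (.s true (nat_lit 3) (nat_lit 11) (nat_lit 2) (nat_lit 6) (nat_lit 6) true (nat_lit 5) true (nat_lit 12) true (nat_lit 8) true (nat_lit 16) true (nat_lit 12) (.s false (nat_lit 1) (nat_lit 14) (nat_lit 2) (nat_lit 2) (nat_lit 11) true (nat_lit 0) true (nat_lit 8) true (nat_lit 7) true (nat_lit 16) true (nat_lit 16) dC2d_i243))))))) (.nd (.nd .leaf (nat_lit 249858) (nat_lit 934) (.p (nat_lit 336) (nat_lit 1) (.p (nat_lit 337) (nat_lit 2) (.p (nat_lit 338) (nat_lit 3) (.n (nat_lit 339) (nat_lit 1) (.n (nat_lit 340) (nat_lit 3) (.n (nat_lit 341) (nat_lit 2) (.p (nat_lit 342) (nat_lit 2) (.n (nat_lit 343) (nat_lit 1) (.p (nat_lit 344) (nat_lit 2) (.p (nat_lit 346) (nat_lit 1) (.p (nat_lit 347) (nat_lit 1) (.n (nat_lit 349) (nat_lit 3) (.n (nat_lit 350) (nat_lit 3) (.p (nat_lit 351) (nat_lit 3) (.p (nat_lit 353) (nat_lit 3) (.p (nat_lit 354) (nat_lit 2) (.n (nat_lit 356) (nat_lit 2) (.p (nat_lit 357) (nat_lit 2) (.p (nat_lit 358) (nat_lit 2) (.p (nat_lit 359) (nat_lit 2) (.n (nat_lit 360) (nat_lit 2) (.p (nat_lit 361) (nat_lit 3) (.p (nat_lit 362) (nat_lit 3) (.n (nat_lit 363) (nat_lit 3) (.p (nat_lit 364) (nat_lit 2) (.n (nat_lit 366) (nat_lit 2) (.n (nat_lit 367) (nat_lit 1) (.p (nat_lit 368) (nat_lit 1) (.n (nat_lit 369) (nat_lit 2) (.p (nat_lit 370) (nat_lit 1) (.n (nat_lit 371) (nat_lit 1) (.p (nat_lit 372) (nat_lit 1) (.n (nat_lit 373) (nat_lit 1) (.n (nat_lit 380) (nat_lit 1) (.n (nat_lit 381) (nat_lit 3) (.p (nat_lit 382) (nat_lit 2) (.n (nat_lit 383) (nat_lit 1) (.p (nat_lit 392) (nat_lit 2) .z)))))))))))))))))))))))))))))))))))))) (.ct dC2d_c308 (nat_lit 1) (nat_lit 16) (.s false (nat_lit 3) (nat_lit 7) (nat_lit 3) (nat_lit 7) (nat_lit 4) true (nat_lit 3) true (nat_lit 14) true (nat_lit 11) true (nat_lit 15) true (nat_lit 11) (.s true (nat_lit 2) (nat_lit 8) (nat_lit 1) (nat_lit 7) (nat_lit 7) true (nat_lit 5) true (nat_lit 11) true (nat_lit 10) true (nat_lit 17) true (nat_lit 11) (.s false (nat_lit 1) (nat_lit 9) (nat_lit 2) (nat_lit 6) (nat_lit 7) true (nat_lit 4) true (nat_lit 11) true (nat_lit 10) true (nat_lit 16) true (nat_lit 12) (.s false (nat_lit 3) (nat_lit 8) (nat_lit 2) (nat_lit 7) (nat_lit 6) true (nat_lit 5) true (nat_lit 12) true (nat_lit 10) true (nat_lit 16) true (nat_lit 11) (.s true (nat_lit 3) (nat_lit 8) (nat_lit 6) (nat_lit 2) (nat_lit 7) false (nat_lit 2) true (nat_lit 11) true (nat_lit 10) true (nat_lit 12) true (nat_lit 16) dC2d_i252)))))) .leaf) (nat_lit 250882) (nat_lit 957) (.n (nat_lit 335) (nat_lit 1) (.n (nat_lit 336) (nat_lit 3) (.p (nat_lit 337) (nat_lit 1) (.n (nat_lit 340) (nat_lit 3) (.n (nat_lit 341) (nat_lit 1) (.p (nat_lit 342) (nat_lit 1) (.p (nat_lit 343) (nat_lit 3) (.p (nat_lit 344) (nat_lit 1) (.p (nat_lit 345) (nat_lit 1) (.p (nat_lit 346) (nat_lit 2) (.n (nat_lit 349) (nat_lit 3) (.p (nat_lit 350) (nat_lit 3) (.n (nat_lit 351) (nat_lit 3) (.n (nat_lit 352) (nat_lit 2) (.p (nat_lit 353) (nat_lit 1) (.n (nat_lit 354) (nat_lit 3) (.n (nat_lit 355) (nat_lit 2) (.p (nat_lit 356) (nat_lit 3) (.n (nat_lit 357) (nat_lit 3) (.p (nat_lit 358) (nat_lit 1) (.p (nat_lit 359) (nat_lit 2) (.p (nat_lit 360) (nat_lit 2) (.n (nat_lit 361) (nat_lit 3) (.n (nat_lit 362) (nat_lit 2) (.p (nat_lit 363) (nat_lit 2) (.p (nat_lit 364) (nat_lit 2) (.p (nat_lit 366) (nat_lit 3) (.n (nat_lit 367) (nat_lit 1) (.p (nat_lit 368) (nat_lit 3) (.p (nat_lit 369) (nat_lit 1) (.p (nat_lit 370) (nat_lit 3) (.n (nat_lit 371) (nat_lit 2) (.p (nat_lit 372) (nat_lit 2) (.n (nat_lit 373) (nat_lit 3) (.n (nat_lit 374) (nat_lit 3) (.p (nat_lit 380) (nat_lit 1) (.n (nat_lit 381) (nat_lit 3) (.p (nat_lit 382) (nat_lit 2) (.n (nat_lit 383) (nat_lit 1) .z))))))))))))))))))))))))))))))))))))))) (.ct dC2d_c308 (nat_lit 1) (nat_lit 16) (.s true (nat_lit 1) (nat_lit 7) (nat_lit 3) (nat_lit 7) (nat_lit 4) true (nat_lit 3) true (nat_lit 14) true (nat_lit 11) true (nat_lit 15) true (nat_lit 11) (.s true (nat_lit 3) (nat_lit 8) (nat_lit 1) (nat_lit 7) (nat_lit 7) true (nat_lit 5) true (nat_lit 11) true (nat_lit 10) true (nat_lit 17) true (nat_lit 11) (.s false (nat_lit 3) (nat_lit 8) (nat_lit 2) (nat_lit 7) (nat_lit 6) true (nat_lit 5) true (nat_lit 12) true (nat_lit 10) true (nat_lit 16) true (nat_lit 11) (.s false (nat_lit 3) (nat_lit 8) (nat_lit 6) (nat_lit 2) (nat_lit 7) false (nat_lit 2) true (nat_lit 11) true (nat_lit 10) true (nat_lit 12) true (nat_lit 16) (.s false (nat_lit 1) (nat_lit 11) (nat_lit 6) (nat_lit 6) (nat_lit 2) true (nat_lit 5) true (nat_lit 16) true (nat_lit 8) true (nat_lit 12) true (nat_lit 12) (.s false (nat_lit 3) (nat_lit 15) (nat_lit 2) (nat_lit 2) (nat_lit 11) true (nat_lit 0) true (nat_lit 8) true (nat_lit 7) true (nat_lit 16) true (nat_lit 16) (.s false (nat_lit 2) (nat_lit 18) (nat_lit 1) (nat_lit 2) (nat_lit 11) true (nat_lit 2) true (nat_lit 8) true (nat_lit 5) true (nat_lit 17) true (nat_lit 16) (.s false (nat_lit 2) (nat_lit 18) (nat_lit 2) (nat_lit 11) (nat_lit 1) true (nat_lit 12) true (nat_lit 17) true (nat_lit 5) true (nat_lit 16) true (nat_lit 8) (.s true (nat_lit 1) (nat_lit 18) (nat_lit 8) (nat_lit 2) (nat_lit 2) true (nat_lit 2) true (nat_lit 16) true (nat_lit 5) true (nat_lit 10) true (nat_lit 16) (.s false (nat_lit 2) (nat_lit 20) (nat_lit 11) (nat_lit 1) (nat_lit 1) true (nat_lit 2) true (nat_lit 17) true (nat_lit 4) true (nat_lit 8) true (nat_lit 17) (.s true (nat_lit 2) (nat_lit 21) (nat_lit 2) (nat_lit 2) (nat_lit 7) true (nat_lit 4) true (nat_lit 11) true (nat_lit 3) true (nat_lit 16) true (nat_lit 16) (.s false (nat_lit 2) (nat_lit 21) (nat_lit 2) (nat_lit 7) (nat_lit 2) true (nat_lit 11) true (nat_lit 16) true (nat_lit 3) true (nat_lit 16) true (nat_lit 11) (.s false (nat_lit 2) (nat_lit 21) (nat_lit 7) (nat_lit 2) (nat_lit 2) true (nat_lit 4) true (nat_lit 16) true (nat_lit 3) true (nat_lit 11) true (nat_lit 16) (.s true (nat_lit 2) (nat_lit 26) (nat_lit 1) (nat_lit 7) (nat_lit 2) true (nat_lit 12) true (nat_lit 16) true (nat_lit 2) true (nat_lit 17) true (nat_lit 11) (.s false (nat_lit 1) (nat_lit 24) (nat_lit 2) (nat_lit 2) (nat_lit 6) true (nat_lit 5) true (nat_lit 12) true (nat_lit 2) true (nat_lit 16) true (nat_lit 16) (.s true (nat_lit 2) (nat_lit 26) (nat_lit 2) (nat_lit 2) (nat_lit 6) true (nat_lit 5) true (nat_lit 12) true (nat_lit 2) true (nat_lit 16) true (nat_lit 16) (.s true (nat_lit 1) (nat_lit 24) (nat_lit 6) (nat_lit 2) (nat_lit 2) true (nat_lit 5) true (nat_lit 16) true (nat_lit 2) true (nat_lit 12) true (nat_lit 16) (.s false (nat_lit 2) (nat_lit 26) (nat_lit 6) (nat_lit 2) (nat_lit 2) true (nat_lit 5) true (nat_lit 16) true (nat_lit 2) true (nat_lit 12) true (nat_lit 16) (.s false (nat_lit 1) (nat_lit 33) (nat_lit 1) (nat_lit 1) (nat_lit 7) true (nat_lit 5) true (nat_lit 11) true (nat_lit 0) true (nat_lit 17) true (nat_lit 17) (.s false (nat_lit 2) (nat_lit 33) (nat_lit 1) (nat_lit 7) (nat_lit 1) true (nat_lit 14) true (nat_lit 17) true (nat_lit 0) true (nat_lit 17) true (nat_lit 11) dC2d_i256))))))))))))))))))))) .leaf)) (nat_lit 251906) (nat_lit 922) (.n (nat_lit 335) (nat_lit 2) (.n (nat_lit 336) (nat_lit 2) (.p (nat_lit 337) (nat_lit 3) (.p (nat_lit 338) (nat_lit 3) (.n (nat_lit 339) (nat_lit 1) (.n (nat_lit 340) (nat_lit 2) (.p (nat_lit 341) (nat_lit 2) (.p (nat_lit 342) (nat_lit 1) (.p (nat_lit 343) (nat_lit 2) (.n (nat_lit 344) (nat_lit 2) (.p (nat_lit 345) (nat_lit 2) (.n (nat_lit 346) (nat_lit 1) (.p (nat_lit 347) (nat_lit 2) (.n (nat_lit 350) (nat_lit 3) (.n (nat_lit 351) (nat_lit 2) (.n (nat_lit 352) (nat_lit 3) (.p (nat_lit 353) (nat_lit 2) (.n (nat_lit 354) (nat_lit 2) (.n (nat_lit 356) (nat_lit 2) (.p (nat_lit 357) (nat_lit 2) (.p (nat_lit 358) (nat_lit 1) (.n (nat_lit 363) (nat_lit 2) (.p (nat_lit 364) (nat_lit 3) (.n (nat_lit 366) (nat_lit 1) (.p (nat_lit 367) (nat_lit 2) (.p (nat_lit 368) (nat_lit 1) (.n (nat_lit 369) (nat_lit 3) (.p (nat_lit 370) (nat_lit 2) (.p (nat_lit 371) (nat_lit 2) (.n (nat_lit 372) (nat_lit 2) (.n (nat_lit 373) (nat_lit 1) (.n (nat_lit 374) (nat_lit 2) (.p (nat_lit 380) (nat_lit 2) (.p (nat_lit 381) (nat_lit 1) (.n (nat_lit 382) (nat_lit 3) (.n (nat_lit 383) (nat_lit 2) .z)))))))))))))))))))))))))))))))))))) (.ct dC2d_c308 (nat_lit 1) (nat_lit 16) (.s false (nat_lit 3) (nat_lit 7) (nat_lit 3) (nat_lit 7) (nat_lit 4) true (nat_lit 3) true (nat_lit 14) true (nat_lit 11) true (nat_lit 15) true (nat_lit 11) (.s true (nat_lit 2) (nat_lit 8) (nat_lit 1) (nat_lit 7) (nat_lit 7) true (nat_lit 5) true (nat_lit 11) true (nat_lit 10) true (nat_lit 17) true (nat_lit 11) (.s false (nat_lit 2) (nat_lit 8) (nat_lit 6) (nat_lit 7) (nat_lit 2) true (nat_lit 5) true (nat_lit 16) true (nat_lit 10) true (nat_lit 12) true (nat_lit 11) (.s false (nat_lit 1) (nat_lit 9) (nat_lit 6) (nat_lit 7) (nat_lit 2) true (nat_lit 5) true (nat_lit 16) true (nat_lit 10) true (nat_lit 12) true (nat_lit 11) (.s false (nat_lit 1) (nat_lit 9) (nat_lit 7) (nat_lit 1) (nat_lit 7) false (nat_lit 3) true (nat_lit 11) true (nat_lit 10) true (nat_lit 11) true (nat_lit 17) (.s true (nat_lit 2) (nat_lit 9) (nat_lit 7) (nat_lit 2) (nat_lit 6) false (nat_lit 2) true (nat_lit 12) true (nat_lit 10) true (nat_lit 11) true (nat_lit 16) (.s true (nat_lit 3) (nat_lit 8) (nat_lit 7) (nat_lit 6) (nat_lit 2) true (nat_lit 4) true (nat_lit 16) true (nat_lit 10) true (nat_lit 11) true (nat_lit 12) (.s false (nat_lit 2) (nat_lit 8) (nat_lit 7) (nat_lit 7) (nat_lit 1) true (nat_lit 5) true (nat_lit 17) true (nat_lit 10) true (nat_lit 11) true (nat_lit 11) (.s false (nat_lit 1) (nat_lit 10) (nat_lit 5) (nat_lit 7) (nat_lit 2) true (nat_lit 6) true (nat_lit 16) true (nat_lit 9) true (nat_lit 13) true (nat_lit 11) (.s false (nat_lit 3) (nat_lit 10) (nat_lit 7) (nat_lit 0) (nat_lit 7) false (nat_lit 3) true (nat_lit 11) true (nat_lit 9) true (nat_lit 11) true (nat_lit 18) (.s false (nat_lit 1) (nat_lit 11) (nat_lit 2) (nat_lit 6) (nat_lit 6) true (nat_lit 5) true (nat_lit 12) true (nat_lit 8) true (nat_lit 16) true (nat_lit 12) (.s false (nat_lit 1) (nat_lit 12) (nat_lit 2) (nat_lit 7) (nat_lit 4) true (nat_lit 7) true (nat_lit 14) true (nat_lit 8) true (nat_lit 16) true (nat_lit 11) (.s true (nat_lit 2) (nat_lit 11) (nat_lit 6) (nat_lit 6) (nat_lit 2) true (nat_lit 5) true (nat_lit 16) true (nat_lit 8) true (nat_lit 12) true (nat_lit 12) (.s true (nat_lit 1) (nat_lit 11) (nat_lit 7) (nat_lit 1) (nat_lit 6) false (nat_lit 2) true (nat_lit 12) true (nat_lit 8) true (nat_lit 11) true (nat_lit 17) (.s false (nat_lit 3) (nat_lit 11) (nat_lit 7) (nat_lit 4) (nat_lit 2) true (nat_lit 4) true (nat_lit 16) true (nat_lit 8) true (nat_lit 11) true (nat_lit 14) (.s false (nat_lit 3) (nat_lit 15) (nat_lit 2) (nat_lit 2) (nat_lit 11) true (nat_lit 0) true (nat_lit 8) true (nat_lit 7) true (nat_lit 16) true (nat_lit 16) (.s false (nat_lit 1) (nat_lit 14) (nat_lit 3) (nat_lit 7) (nat_lit 2) true (nat_lit 8) true (nat_lit 16) true (nat_lit 7) true (nat_lit 15) true (nat_lit 11) (.s true (nat_lit 1) (nat_lit 15) (nat_lit 7) (nat_lit 3) (nat_lit 2) true (nat_lit 4) true (nat_lit 16) true (nat_lit 7) true (nat_lit 11) true (nat_lit 15) dC2d_i265))))))))))))))))))) (.nd (.nd (.nd .leaf (nat_lit 252930) (nat_lit 937) (.n (nat_lit 336) (nat_lit 1) (.n (nat_lit 337) (nat_lit 2) (.n (nat_lit 341) (nat_lit 1) (.n (nat_lit 342) (nat_lit 2) (.p (nat_lit 343) (nat_lit 2) (.n (nat_lit 344) (nat_lit 1) (.p (nat_lit 345) (nat_lit 1) (.n (nat_lit 347) (nat_lit 2) (.n (nat_lit 349) (nat_lit 3) (.n (nat_lit 350) (nat_lit 3) (.n (nat_lit 351) (nat_lit 2) (.n (nat_lit 352) (nat_lit 1) (.n (nat_lit 353) (nat_lit 3) (.n (nat_lit 355) (nat_lit 3) (.p (nat_lit 356) (nat_lit 1) (.n (nat_lit 357) (nat_lit 1) (.p (nat_lit 358) (nat_lit 2) (.n (nat_lit 359) (nat_lit 3) (.n (nat_lit 360) (nat_lit 3) (.n (nat_lit 361) (nat_lit 2) (.n (nat_lit 362) (nat_lit 2) (.p (nat_lit 363) (nat_lit 2) (.n (nat_lit 364) (nat_lit 1) (.n (nat_lit 366) (nat_lit 3) (.n (nat_lit 367) (nat_lit 3) (.n (nat_lit 368) (nat_lit 1) (.p (nat_lit 369) (nat_lit 1) (.n (nat_lit 370) (nat_lit 1) (.p (nat_lit 371) (nat_lit 2) (.p (nat_lit 372) (nat_lit 2) (.p (nat_lit 373) (nat_lit 1) (.n (nat_lit 374) (nat_lit 2) .z)))))))))))))))))))))))))))))))) (.ct dC2d_c308 (nat_lit 1) (nat_lit 16) (.s false (nat_lit 2) (nat_lit 7) (nat_lit 3) (nat_lit 7) (nat_lit 4) true (nat_lit 3) true (nat_lit 14) true (nat_lit 11) true (nat_lit 15) true (nat_lit 11) (.s true (nat_lit 2) (nat_lit 7) (nat_lit 6) (nat_lit 6) (nat_lit 3) true (nat_lit 2) true (nat_lit 15) true (nat_lit 11) true (nat_lit 12) true (nat_lit 12) (.s true (nat_lit 3) (nat_lit 8) (nat_lit 1) (nat_lit 7) (nat_lit 7) true (nat_lit 5) true (nat_lit 11) true (nat_lit 10) true (nat_lit 17) true (nat_lit 11) (.s false (nat_lit 1) (nat_lit 8) (nat_lit 2) (nat_lit 7) (nat_lit 6) true (nat_lit 5) true (nat_lit 12) true (nat_lit 10) true (nat_lit 16) true (nat_lit 11) (.s true (nat_lit 1) (nat_lit 8) (nat_lit 6) (nat_lit 2) (nat_lit 7) false (nat_lit 2) true (nat_lit 11) true (nat_lit 10) true (nat_lit 12) true (nat_lit 16) (.s true (nat_lit 2) (nat_lit 9) (nat_lit 7) (nat_lit 1) (nat_lit 7) false (nat_lit 3) true (nat_lit 11) true (nat_lit 10) true (nat_lit 11) true (nat_lit 17) (.s false (nat_lit 1) (nat_lit 9) (nat_lit 7) (nat_lit 6) (nat_lit 2) true (nat_lit 4) true (nat_lit 16) true (nat_lit 10) true (nat_lit 11) true (nat_lit 12) (.s false (nat_lit 1) (nat_lit 10) (nat_lit 5) (nat_lit 2) (nat_lit 7) false (nat_lit 1) true (nat_lit 11) true (nat_lit 9) true (nat_lit 13) true (nat_lit 16) (.s false (nat_lit 1) (nat_lit 10) (nat_lit 5) (nat_lit 7) (nat_lit 2) true (nat_lit 6) true (nat_lit 16) true (nat_lit 9) true (nat_lit 13) true (nat_lit 11) (.s false (nat_lit 3) (nat_lit 10) (nat_lit 7) (nat_lit 0) (nat_lit 7) false (nat_lit 3) true (nat_lit 11) true (nat_lit 9) true (nat_lit 11) true (nat_lit 18) (.s true (nat_lit 3) (nat_lit 11) (nat_lit 1) (nat_lit 7) (nat_lit 6) true (nat_lit 7) true (nat_lit 12) true (nat_lit 8) true (nat_lit 17) true (nat_lit 11) (.s true (nat_lit 2) (nat_lit 12) (nat_lit 2) (nat_lit 7) (nat_lit 4) true (nat_lit 7) true (nat_lit 14) true (nat_lit 8) true (nat_lit 16) true (nat_lit 11) (.s true (nat_lit 3) (nat_lit 11) (nat_lit 6) (nat_lit 6) (nat_lit 2) true (nat_lit 5) true (nat_lit 16) true (nat_lit 8) true (nat_lit 12) true (nat_lit 12) (.s false (nat_lit 3) (nat_lit 11) (nat_lit 7) (nat_lit 1) (nat_lit 6) false (nat_lit 2) true (nat_lit 12) true (nat_lit 8) true (nat_lit 11) true (nat_lit 17) dC2d_i274))))))))))))))) .leaf) (nat_lit 253954) (nat_lit 947) (.n (nat_lit 336) (nat_lit 3) (.p (nat_lit 337) (nat_lit 1) (.p (nat_lit 338) (nat_lit 1) (.p (nat_lit 339) (nat_lit 2) (.p (nat_lit 340) (nat_lit 2) (.n (nat_lit 342) (nat_lit 3) (.n (nat_lit 343) (nat_lit 1) (.p (nat_lit 344) (nat_lit 3) (.n (nat_lit 345) (nat_lit 1) (.n (nat_lit 346) (nat_lit 3) (.n (nat_lit 347) (nat_lit 1) (.p (nat_lit 349) (nat_lit 1) (.n (nat_lit 350) (nat_lit 1) (.n (nat_lit 351) (nat_lit 3) (.n (nat_lit 352) (nat_lit 3) (.n (nat_lit 353) (nat_lit 2) (.n (nat_lit 354) (nat_lit 3) (.p (nat_lit 355) (nat_lit 2) (.p (nat_lit 356) (nat_lit 3) (.n (nat_lit 357) (nat_lit 3) (.n (nat_lit 359) (nat_lit 3) (.p (nat_lit 360) (nat_lit 2) (.n (nat_lit 361) (nat_lit 1) (.n (nat_lit 362) (nat_lit 1) (.n (nat_lit 363) (nat_lit 1) (.n (nat_lit 364) (nat_lit 2) (.p (nat_lit 366) (nat_lit 3) (.p (nat_lit 367) (nat_lit 1) (.n (nat_lit 368) (nat_lit 1) (.p (nat_lit 369) (nat_lit 3) (.n (nat_lit 370) (nat_lit 1) (.n (nat_lit 371) (nat_lit 3) (.n (nat_lit 372) (nat_lit 3) (.p (nat_lit 373) (nat_lit 1) (.n (nat_lit 374) (nat_lit 1) (.n (nat_lit 380) (nat_lit 1) (.n (nat_lit 381) (nat_lit 3) (.n (nat_lit 382) (nat_lit 3) (.n (nat_lit 383) (nat_lit 1) .z))))))))))))))))))))))))))))))))))))))) (.ct dC2d_c308 (nat_lit 1) (nat_lit 16) (.s true (nat_lit 1) (nat_lit 8) (nat_lit 6) (nat_lit 2) (nat_lit 7) false (nat_lit 2) true (nat_lit 11) true (nat_lit 10) true (nat_lit 12) true (nat_lit 16) (.s true (nat_lit 3) (nat_lit 8) (nat_lit 6) (nat_lit 7) (nat_lit 2) true (nat_lit 5) true (nat_lit 16) true (nat_lit 10) true (nat_lit 12) true (nat_lit 11) (.s false (nat_lit 2) (nat_lit 9) (nat_lit 7) (nat_lit 1) (nat_lit 7) false (nat_lit 3) true (nat_lit 11) true (nat_lit 10) true (nat_lit 11) true (nat_lit 17) (.s false (nat_lit 1) (nat_lit 9) (nat_lit 7) (nat_lit 6) (nat_lit 2) true (nat_lit 4) true (nat_lit 16) true (nat_lit 10) true (nat_lit 11) true (nat_lit 12) (.s false (nat_lit 2) (nat_lit 8) (nat_lit 7) (nat_lit 7) (nat_lit 1) true (nat_lit 5) true (nat_lit 17) true (nat_lit 10) true (nat_lit 11) true (nat_lit 11) (.s false (nat_lit 3) (nat_lit 11) (nat_lit 1) (nat_lit 7) (nat_lit 6) true (nat_lit 7) true (nat_lit 12) true (nat_lit 8) true (nat_lit 17) true (nat_lit 11) (.s true (nat_lit 1) (nat_lit 11) (nat_lit 6) (nat_lit 6) (nat_lit 2) true (nat_lit 5) true (nat_lit 16) true (nat_lit 8) true (nat_lit 12) true (nat_lit 12) (.s false (nat_lit 3) (nat_lit 11) (nat_lit 7) (nat_lit 4) (nat_lit 2) true (nat_lit 4) true (nat_lit 16) true (nat_lit 8) true (nat_lit 11) true (nat_lit 14) (.s false (nat_lit 1) (nat_lit 15) (nat_lit 2) (nat_lit 11) (nat_lit 2) true (nat_lit 11) true (nat_lit 16) true (nat_lit 7) true (nat_lit 16) true (nat_lit 8) (.s false (nat_lit 2) (nat_lit 18) (nat_lit 1) (nat_lit 2) (nat_lit 12) true (nat_lit 2) true (nat_lit 8) true (nat_lit 5) true (nat_lit 17) true (nat_lit 16) (.s true (nat_lit 1) (nat_lit 19) (nat_lit 1) (nat_lit 2) (nat_lit 12) true (nat_lit 2) true (nat_lit 8) true (nat_lit 5) true (nat_lit 17) true (nat_lit 16) (.s true (nat_lit 2) (nat_lit 18) (nat_lit 1) (nat_lit 12) (nat_lit 2) true (nat_lit 12) true (nat_lit 16) true (nat_lit 5) true (nat_lit 17) true (nat_lit 8) (.s false (nat_lit 2) (nat_lit 18) (nat_lit 2) (nat_lit 1) (nat_lit 12) true (nat_lit 0) true (nat_lit 8) true (nat_lit 5) true (nat_lit 16) true (nat_lit 17) (.s false (nat_lit 2) (nat_lit 18) (nat_lit 2) (nat_lit 2) (nat_lit 8) true (nat_lit 2) true (nat_lit 10) true (nat_lit 5) true (nat_lit 16) true (nat_lit 16) (.s true (nat_lit 2) (nat_lit 18) (nat_lit 2) (nat_lit 8) (nat_lit 2) true (nat_lit 11) true (nat_lit 16) true (nat_lit 5) true (nat_lit 16) true (nat_lit 10) (.s true (nat_lit 1) (nat_lit 18) (nat_lit 2) (nat_lit 11) (nat_lit 1) true (nat_lit 12) true (nat_lit 17) true (nat_lit 5) true (nat_lit 16) true (nat_lit 8) (.s true (nat_lit 2) (nat_lit 18) (nat_lit 2) (nat_lit 12) (nat_lit 1) true (nat_lit 12) true (nat_lit 17) true (nat_lit 5) true (nat_lit 16) true (nat_lit 8) (.s false (nat_lit 1) (nat_lit 19) (nat_lit 2) (nat_lit 12) (nat_lit 1) true (nat_lit 12) true (nat_lit 17) true (nat_lit 5) true (nat_lit 16) true (nat_lit 8) (.s true (nat_lit 2) (nat_lit 18) (nat_lit 8) (nat_lit 2) (nat_lit 2) true (nat_lit 2) true (nat_lit 16) true (nat_lit 5) true (nat_lit 10) true (nat_lit 16) (.s true (nat_lit 1) (nat_lit 18) (nat_lit 9) (nat_lit 2) (nat_lit 2) true (nat_lit 2) true (nat_lit 16) true (nat_lit 5) true (nat_lit 10) true (nat_lit 16) (.s true (nat_lit 3) (nat_lit 19) (nat_lit 9) (nat_lit 2) (nat_lit 2) true (nat_lit 2) true (nat_lit 16) true (nat_lit 5) true (nat_lit 10) true (nat_lit 16) (.s true (nat_lit 3) (nat_lit 19) (nat_lit 11) (nat_lit 2) (nat_lit 1) true (nat_lit 2) true (nat_lit 17) true (nat_lit 5) true (nat_lit 8) true (nat_lit 16) dC2d_i280))))))))))))))))))))))) .leaf) (nat_lit 254978) (nat_lit 929) (.n (nat_lit 336) (nat_lit 2) (.p (nat_lit 337) (nat_lit 3) (.n (nat_lit 338) (nat_lit 3) (.p (nat_lit 339) (nat_lit 1) (.p (nat_lit 341) (nat_lit 1) (.p (nat_lit 343) (nat_lit 2) (.n (nat_lit 344) (nat_lit 3) (.n (nat_lit 345) (nat_lit 1) (.p (nat_lit 346) (nat_lit 3) (.n (nat_lit 347) (nat_lit 2) (.p (nat_lit 349) (nat_lit 1) (.p (nat_lit 350) (nat_lit 2) (.n (nat_lit 351) (nat_lit 3) (.p (nat_lit 353) (nat_lit 1) (.n (nat_lit 354) (nat_lit 1) (.n (nat_lit 355) (nat_lit 1) (.p (nat_lit 356) (nat_lit 3) (.n (nat_lit 357) (nat_lit 3) (.n (nat_lit 358) (nat_lit 1) (.p (nat_lit 359) (nat_lit 2) (.p (nat_lit 361) (nat_lit 2) (.p (nat_lit 362) (nat_lit 1) (.n (nat_lit 363) (nat_lit 1) (.p (nat_lit 364) (nat_lit 2) (.p (nat_lit 366) (nat_lit 2) (.n (nat_lit 367) (nat_lit 1) (.p (nat_lit 368) (nat_lit 3) (.n (nat_lit 369) (nat_lit 1) (.n (nat_lit 370) (nat_lit 3) (.n (nat_lit 371) (nat_lit 1) (.n (nat_lit 373) (nat_lit 3) (.n (nat_lit 374) (nat_lit 2) (.n (nat_lit 380) (nat_lit 3) (.n (nat_lit 381) (nat_lit 2) (.p (nat_lit 382) (nat_lit 2) (.p (nat_lit 383) (nat_lit 1) .z)))))))))))))))))))))))))))))))))))) (.ct dC2d_c308 (nat_lit 1) (nat_lit 16) (.s false (nat_lit 3) (nat_lit 7) (nat_lit 3) (nat_lit 7) (nat_lit 4) true (nat_lit 3) true (nat_lit 14) true (nat_lit 11) true (nat_lit 15) true (nat_lit 11) (.s false (nat_lit 2) (nat_lit 7) (nat_lit 4) (nat_lit 3) (nat_lit 7) false (nat_lit 0) true (nat_lit 11) true (nat_lit 11) true (nat_lit 14) true (nat_lit 15) (.s true (nat_lit 2) (nat_lit 8) (nat_lit 1) (nat_lit 7) (nat_lit 7) true (nat_lit 5) true (nat_lit 11) true (nat_lit 10) true (nat_lit 17) true (nat_lit 11) (.s true (nat_lit 2) (nat_lit 8) (nat_lit 2) (nat_lit 7) (nat_lit 6) true (nat_lit 5) true (nat_lit 12) true (nat_lit 10) true (nat_lit 16) true (nat_lit 11) (.s true (nat_lit 2) (nat_lit 8) (nat_lit 6) (nat_lit 2) (nat_lit 7) false (nat_lit 2) true (nat_lit 11) true (nat_lit 10) true (nat_lit 12) true (nat_lit 16) (.s true (nat_lit 2) (nat_lit 9) (nat_lit 7) (nat_lit 1) (nat_lit 7) false (nat_lit 3) true (nat_lit 11) true (nat_lit 10) true (nat_lit 11) true (nat_lit 17) dC2d_i289))))))) (.nd (.nd .leaf (nat_lit 256002) (nat_lit 925) (.p (nat_lit 335) (nat_lit 3) (.n (nat_lit 336) (nat_lit 1) (.n (nat_lit 337) (nat_lit 2) (.n (nat_lit 338) (nat_lit 2) (.p (nat_lit 339) (nat_lit 3) (.p (nat_lit 340) (nat_lit 2) (.n (nat_lit 341) (nat_lit 1) (.p (nat_lit 342) (nat_lit 1) (.p (nat_lit 343) (nat_lit 3) (.n (nat_lit 345) (nat_lit 3) (.n (nat_lit 346) (nat_lit 2) (.n (nat_lit 347) (nat_lit 3) (.n (nat_lit 349) (nat_lit 1) (.n (nat_lit 350) (nat_lit 3) (.n (nat_lit 351) (nat_lit 1) (.p (nat_lit 352) (nat_lit 2) (.p (nat_lit 354) (nat_lit 3) (.p (nat_lit 355) (nat_lit 1) (.n (nat_lit 356) (nat_lit 3) (.p (nat_lit 357) (nat_lit 3) (.n (nat_lit 358) (nat_lit 2) (.n (nat_lit 359) (nat_lit 3) (.n (nat_lit 361) (nat_lit 2) (.p (nat_lit 362) (nat_lit 2) (.n (nat_lit 364) (nat_lit 1) (.p (nat_lit 366) (nat_lit 2) (.n (nat_lit 367) (nat_lit 3) (.n (nat_lit 368) (nat_lit 1) (.n (nat_lit 369) (nat_lit 1) (.n (nat_lit 370) (nat_lit 1) (.p (nat_lit 371) (nat_lit 1) (.p (nat_lit 372) (nat_lit 1) (.p (nat_lit 373) (nat_lit 1) (.p (nat_lit 374) (nat_lit 2) (.p (nat_lit 380) (nat_lit 2) (.n (nat_lit 381) (nat_lit 1) (.n (nat_lit 382) (nat_lit 1) (.n (nat_lit 383) (nat_lit 3) (.p (nat_lit 385) (nat_lit 2) .z))))))))))))))))))))))))))))))))))))))) (.ct dC2d_c308 (nat_lit 1) (nat_lit 16) (.s false (nat_lit 2) (nat_lit 7) (nat_lit 3) (nat_lit 7) (nat_lit 4) true (nat_lit 3) true (nat_lit 14) true (nat_lit 11) true (nat_lit 15) true (nat_lit 11) (.s false (nat_lit 1) (nat_lit 7) (nat_lit 4) (nat_lit 3) (nat_lit 7) false (nat_lit 0) true (nat_lit 11) true (nat_lit 11) true (nat_lit 14) true (nat_lit 15) dC2d_i299))) .leaf) (nat_lit 257026) (nat_lit 936) (.n (nat_lit 335) (nat_lit 1) (.p (nat_lit 336) (nat_lit 2) (.n (nat_lit 337) (nat_lit 3) (.n (nat_lit 338) (nat_lit 1) (.n (nat_lit 339) (nat_lit 2) (.p (nat_lit 340) (nat_lit 2) (.n (nat_lit 341) (nat_lit 3) (.n (nat_lit 342) (nat_lit 3) (.p (nat_lit 344) (nat_lit 3) (.p (nat_lit 345) (nat_lit 1) (.n (nat_lit 346) (nat_lit 1) (.n (nat_lit 347) (nat_lit 3) (.p (nat_lit 349) (nat_lit 2) (.p (nat_lit 350) (nat_lit 3) (.n (nat_lit 352) (nat_lit 1) (.n (nat_lit 354) (nat_lit 2) (.p (nat_lit 355) (nat_lit 2) (.p (nat_lit 356) (nat_lit 3) (.n (nat_lit 357) (nat_lit 3) (.p (nat_lit 359) (nat_lit 1) (.p (nat_lit 361) (nat_lit 1) (.p (nat_lit 362) (nat_lit 1) (.n (nat_lit 363) (nat_lit 1) (.p (nat_lit 364) (nat_lit 3) (.n (nat_lit 366) (nat_lit 3) (.p (nat_lit 367) (nat_lit 2) (.p (nat_lit 368) (nat_lit 2) (.n (nat_lit 369) (nat_lit 3) (.p (nat_lit 370) (nat_lit 2) (.p (nat_lit 371) (nat_lit 3) (.n (nat_lit 372) (nat_lit 2) (.n (nat_lit 373) (nat_lit 2) (.n (nat_lit 380) (nat_lit 3) (.n (nat_lit 381) (nat_lit 1) (.p (nat_lit 382) (nat_lit 2) .z))))))))))))))))))))))))))))))))))) (.ct dC2d_c308 (nat_lit 1) (nat_lit 16) (.s true (nat_lit 2) (nat_lit 7) (nat_lit 3) (nat_lit 7) (nat_lit 4) true (nat_lit 3) true (nat_lit 14) true (nat_lit 11) true (nat_lit 15) true (nat_lit 11) (.s false (nat_lit 1) (nat_lit 7) (nat_lit 4) (nat_lit 3) (nat_lit 7) false (nat_lit 0) true (nat_lit 11) true (nat_lit 11) true (nat_lit 14) true (nat_lit 15) (.s true (nat_lit 1) (nat_lit 8) (nat_lit 2) (nat_lit 7) (nat_lit 6) true (nat_lit 5) true (nat_lit 12) true (nat_lit 10) true (nat_lit 16) true (nat_lit 11) (.s false (nat_lit 3) (nat_lit 8) (nat_lit 6) (nat_lit 2) (nat_lit 7) false (nat_lit 2) true (nat_lit 11) true (nat_lit 10) true (nat_lit 12) true (nat_lit 16) (.s true (nat_lit 3) (nat_lit 9) (nat_lit 7) (nat_lit 1) (nat_lit 7) false (nat_lit 3) true (nat_lit 11) true (nat_lit 10) true (nat_lit 11) true (nat_lit 17) (.s false (nat_lit 1) (nat_lit 8) (nat_lit 7) (nat_lit 7) (nat_lit 1) true (nat_lit 5) true (nat_lit 17) true (nat_lit 10) true (nat_lit 11) true (nat_lit 11) (.s false (nat_lit 3) (nat_lit 11) (nat_lit 1) (nat_lit 7) (nat_lit 6) true (nat_lit 7) true (nat_lit 12) true (nat_lit 8) true (nat_lit 17) true (nat_lit 11) (.s true (nat_lit 1) (nat_lit 11) (nat_lit 6) (nat_lit 6) (nat_lit 2) true (nat_lit 5) true (nat_lit 16) true (nat_lit 8) true (nat_lit 12) true (nat_lit 12) (.s true (nat_lit 2) (nat_lit 12) (nat_lit 6) (nat_lit 6) (nat_lit 2) true (nat_lit 5) true (nat_lit 16) true (nat_lit 8) true (nat_lit 12) true (nat_lit 12) (.s true (nat_lit 1) (nat_lit 14) (nat_lit 2) (nat_lit 2) (nat_lit 11) true (nat_lit 0) true (nat_lit 8) true (nat_lit 7) true (nat_lit 16) true (nat_lit 16) (.s true (nat_lit 3) (nat_lit 14) (nat_lit 2) (nat_lit 3) (nat_lit 7) true (nat_lit 4) true (nat_lit 11) true (nat_lit 7) true (nat_lit 16) true (nat_lit 15) (.s true (nat_lit 1) (nat_lit 14) (nat_lit 2) (nat_lit 7) (nat_lit 3) true (nat_lit 8) true (nat_lit 15) true (nat_lit 7) true (nat_lit 16) true (nat_lit 11) (.s false (nat_lit 2) (nat_lit 14) (nat_lit 2) (nat_lit 11) (nat_lit 2) true (nat_lit 11) true (nat_lit 16) true (nat_lit 7) true (nat_lit 16) true (nat_lit 8) (.s true (nat_lit 3) (nat_lit 14) (nat_lit 11) (nat_lit 2) (nat_lit 2) true (nat_lit 0) true (nat_lit 16) true (nat_lit 7) true (nat_lit 8) true (nat_lit 16) dC2d_i306))))))))))))))) .leaf))) (nat_lit 258049) (nat_lit 864) (.p (nat_lit 349) (nat_lit 1) .z) .df (.nd (.nd (.nd (.nd .leaf (nat_lit 258050) (nat_lit 1183) (.p (nat_lit 420) (nat_lit 1) .z) .df .leaf) (nat_lit 259073) (nat_lit 865) (.p (nat_lit 350) (nat_lit 1) .z) .df .leaf) (nat_lit 259074) (nat_lit 1184) (.p (nat_lit 421) (nat_lit 1) .z) .df (.nd (.nd .leaf (nat_lit 260097) (nat_lit 866) (.p (nat_lit 351) (nat_lit 1) .z) .df .leaf) (nat_lit 260098) (nat_lit 1185) (.p (nat_lit 422) (nat_lit 1) .z) .df .leaf)) (nat_lit 261121) (nat_lit 867) (.p (nat_lit 352) (nat_lit 1) .z) .df (.nd (.nd (.nd .leaf (nat_lit 261122) (nat_lit 1186) (.p (nat_lit 423) (nat_lit 1) .z) .df .leaf) (nat_lit 262145) (nat_lit 868) (.p (nat_lit 353) (nat_lit 1) .z) .df .leaf) (nat_lit 262146) (nat_lit 1252) (.n (nat_lit 397) (nat_lit 1) (.n (nat_lit 398) (nat_lit 3) (.p (nat_lit 399) (nat_lit 3) (.n (nat_lit 401) (nat_lit 2) (.p (nat_lit 402) (nat_lit 3) (.n (nat_lit 403) (nat_lit 3) (.p (nat_lit 404) (nat_lit 3) (.p (nat_lit 405) (nat_lit 3) (.p (nat_lit 406) (nat_lit 2) (.p (nat_lit 408) (nat_lit 1) (.p (nat_lit 410) (nat_lit 2) (.p (nat_lit 411) (nat_lit 1) (.p (nat_lit 412) (nat_lit 3) (.p (nat_lit 413) (nat_lit 3) (.n (nat_lit 414) (nat_lit 2) (.p (nat_lit 415) (nat_lit 3) (.n (nat_lit 416) (nat_lit 2) (.n (nat_lit 418) (nat_lit 3) (.p (nat_lit 421) (nat_lit 3) (.p (nat_lit 422) (nat_lit 1) (.p (nat_lit 423) (nat_lit 1) (.n (nat_lit 431) (nat_lit 2) (.p (nat_lit 435) (nat_lit 3) .z))))))))))))))))))))))) (.ct dC2d_c293 (nat_lit 1) (nat_lit 14) (.s false (nat_lit 3) (nat_lit 12) (nat_lit 1) (nat_lit 7) (nat_lit 7) true (nat_lit 4) true (nat_lit 9) true (nat_lit 7) true (nat_lit 15) true (nat_lit 9) (.s false (nat_lit 1) (nat_lit 12) (nat_lit 6) (nat_lit 2) (nat_lit 7) false (nat_lit 1) true (nat_lit 9) true (nat_lit 7) true (nat_lit 10) true (nat_lit 14) (.s false (nat_lit 3) (nat_lit 12) (nat_lit 7) (nat_lit 7) (nat_lit 1) true (nat_lit 4) true (nat_lit 15) true (nat_lit 7) true (nat_lit 9) true (nat_lit 9) (.s true (nat_lit 1) (nat_lit 18) (nat_lit 2) (nat_lit 2) (nat_lit 12) true (nat_lit 1) true (nat_lit 7) true (nat_lit 4) true (nat_lit 14) true (nat_lit 14) (.s false (nat_lit 1) (nat_lit 18) (nat_lit 2) (nat_lit 12) (nat_lit 2) true (nat_lit 9) true (nat_lit 14) true (nat_lit 4) true (nat_lit 14) true (nat_lit 7) (.s false (nat_lit 3) (nat_lit 20) (nat_lit 1) (nat_lit 2) (nat_lit 13) true (nat_lit 2) true (nat_lit 7) true (nat_lit 3) true (nat_lit 15) true (nat_lit 14) (.s false (nat_lit 3) (nat_lit 20) (nat_lit 1) (nat_lit 13) (nat_lit 2) true (nat_lit 10) true (nat_lit 14) true (nat_lit 3) true (nat_lit 15) true (nat_lit 7) (.s true (nat_lit 3) (nat_lit 20) (nat_lit 2) (nat_lit 13) (nat_lit 1) true (nat_lit 10) true (nat_lit 15) true (nat_lit 3) true (nat_lit 14) true (nat_lit 7) (.s true (nat_lit 3) (nat_lit 20) (nat_lit 7) (nat_lit 1) (nat_lit 3) true (nat_lit 1) true (nat_lit 13) true (nat_lit 3) true (nat_lit 9) true (nat_lit 15) (.s true (nat_lit 3) (nat_lit 20) (nat_lit 9) (nat_lit 2) (nat_lit 2) true (nat_lit 2) true (nat_lit 14) true (nat_lit 3) true (nat_lit 8) true (nat_lit 14) (.s true (nat_lit 1) (nat_lit 20) (nat_lit 12) (nat_lit 1) (nat_lit 2) true (nat_lit 1) true (nat_lit 14) true (nat_lit 3) true (nat_lit 7) true (nat_lit 15) (.s false (nat_lit 3) (nat_lit 20) (nat_lit 15) (nat_lit 2) (nat_lit 0) true (nat_lit 2) true (nat_lit 16) true (nat_lit 3) true (nat_lit 6) true (nat_lit 14) (.s true (nat_lit 3) (nat_lit 28) (nat_lit 2) (nat_lit 2) (nat_lit 7) true (nat_lit 3) true (nat_lit 9) true (nat_lit 2) true (nat_lit 14) true (nat_lit 14) (.s false (nat_lit 1) (nat_lit 34) (nat_lit 1) (nat_lit 7) (nat_lit 2) true (nat_lit 10) true (nat_lit 14) true (nat_lit 1) true (nat_lit 15) true (nat_lit 9) (.s false (nat_lit 2) (nat_lit 34) (nat_lit 2) (nat_lit 2) (nat_lit 6) true (nat_lit 4) true (nat_lit 10) true (nat_lit 1) true (nat_lit 14) true (nat_lit 14) (.s false (nat_lit 1) (nat_lit 34) (nat_lit 2) (nat_lit 6) (nat_lit 2) true (nat_lit 9) true (nat_lit 14) true (nat_lit 1) true (nat_lit 14) true (nat_lit 10) (.s false (nat_lit 3) (nat_lit 47) (nat_lit 2) (nat_lit 2) (nat_lit 3) true (nat_lit 7) true (nat_lit 13) false (nat_lit 1) true (nat_lit 14) true (nat_lit 14) (.s true (nat_lit 3) (nat_lit 48) (nat_lit 1) (nat_lit 2) (nat_lit 3) true (nat_lit 8) true (nat_lit 13) false (nat_lit 2) true (nat_lit 15) true (nat_lit 14) (.s false (nat_lit 3) (nat_lit 48) (nat_lit 1) (nat_lit 5) (nat_lit 1) true (nat_lit 12) true (nat_lit 15) false (nat_lit 2) true (nat_lit 15) true (nat_lit 11) (.s true (nat_lit 3) (nat_lit 48) (nat_lit 2) (nat_lit 0) (nat_lit 4) true (nat_lit 6) true (nat_lit 12) false (nat_lit 2) true (nat_lit 14) true (nat_lit 16) (.s true (nat_lit 3) (nat_lit 48) (nat_lit 2) (nat_lit 1) (nat_lit 3) true (nat_lit 7) true (nat_lit 13) false (nat_lit 2) true (nat_lit 14) true (nat_lit 15) dC2d_i309)))))))))))))))))))))) (.nd .leaf (nat_lit 263169) (nat_lit 869) (.p (nat_lit 354) (nat_lit 1) .z) .df .leaf))))) (nat_lit 263170) (nat_lit 1209) (.p (nat_lit 397) (nat_lit 2) (.n (nat_lit 398) (nat_lit 1) (.n (nat_lit 399) (nat_lit 2) (.p (nat_lit 400) (nat_lit 3) (.n (nat_lit 401) (nat_lit 2) (.p (nat_lit 402) (nat_lit 1) (.p (nat_lit 406) (nat_lit 2) (.p (nat_lit 407) (nat_lit 1) (.p (nat_lit 408) (nat_lit 2) (.p (nat_lit 409) (nat_lit 2) (.p (nat_lit 410) (nat_lit 1) (.n (nat_lit 411) (nat_lit 2) (.n (nat_lit 412) (nat_lit 1) (.n (nat_lit 413) (nat_lit 1) (.p (nat_lit 414) (nat_lit 1) (.n (nat_lit 415) (nat_lit 3) (.p (nat_lit 416) (nat_lit 2) (.p (nat_lit 420) (nat_lit 2) (.p (nat_lit 421) (nat_lit 2) (.p (nat_lit 423) (nat_lit 1) .z)))))))))))))))))))) (.ct dC2d_c293 (nat_lit 1) (nat_lit 14) (.s false (nat_lit 3) (nat_lit 11) (nat_lit 1) (nat_lit 7) (nat_lit 7) true (nat_lit 4) true (nat_lit 9) true (nat_lit 7) true (nat_lit 15) true (nat_lit 9) (.s false (nat_lit 3) (nat_lit 12) (nat_lit 1) (nat_lit 7) (nat_lit 7) true (nat_lit 4) true (nat_lit 9) true (nat_lit 7) true (nat_lit 15) true (nat_lit 9) (.s true (nat_lit 2) (nat_lit 11) (nat_lit 2) (nat_lit 7) (nat_lit 6) true (nat_lit 4) true (nat_lit 10) true (nat_lit 7) true (nat_lit 14) true (nat_lit 9) (.s true (nat_lit 2) (nat_lit 12) (nat_lit 2) (nat_lit 7) (nat_lit 6) true (nat_lit 4) true (nat_lit 10) true (nat_lit 7) true (nat_lit 14) true (nat_lit 9) (.s true (nat_lit 3) (nat_lit 13) (nat_lit 2) (nat_lit 7) (nat_lit 6) true (nat_lit 4) true (nat_lit 10) true (nat_lit 7) true (nat_lit 14) true (nat_lit 9) (.s true (nat_lit 1) (nat_lit 11) (nat_lit 7) (nat_lit 2) (nat_lit 6) false (nat_lit 1) true (nat_lit 10) true (nat_lit 7) true (nat_lit 9) true (nat_lit 14) (.s false (nat_lit 1) (nat_lit 11) (nat_lit 7) (nat_lit 7) (nat_lit 1) true (nat_lit 4) true (nat_lit 15) true (nat_lit 7) true (nat_lit 9) true (nat_lit 9) (.s true (nat_lit 2) (nat_lit 12) (nat_lit 7) (nat_lit 7) (nat_lit 1) true (nat_lit 4) true (nat_lit 15) true (nat_lit 7) true (nat_lit 9) true (nat_lit 9) (.s false (nat_lit 3) (nat_lit 14) (nat_lit 2) (nat_lit 7) (nat_lit 5) true (nat_lit 5) true (nat_lit 11) true (nat_lit 6) true (nat_lit 14) true (nat_lit 9) (.s true (nat_lit 1) (nat_lit 14) (nat_lit 5) (nat_lit 2) (nat_lit 7) false (nat_lit 0) true (nat_lit 9) true (nat_lit 6) true (nat_lit 11) true (nat_lit 14) (.s true (nat_lit 1) (nat_lit 15) (nat_lit 7) (nat_lit 0) (nat_lit 7) false (nat_lit 2) true (nat_lit 9) true (nat_lit 6) true (nat_lit 9) true (nat_lit 16) (.s false (nat_lit 1) (nat_lit 16) (nat_lit 2) (nat_lit 2) (nat_lit 14) true (nat_lit 0) true (nat_lit 6) true (nat_lit 5) true (nat_lit 14) true (nat_lit 14) (.s true (nat_lit 3) (nat_lit 17) (nat_lit 2) (nat_lit 2) (nat_lit 14) true (nat_lit 0) true (nat_lit 6) true (nat_lit 5) true (nat_lit 14) true (nat_lit 14) (.s true (nat_lit 2) (nat_lit 16) (nat_lit 2) (nat_lit 6) (nat_lit 6) true (nat_lit 4) true (nat_lit 10) true (nat_lit 5) true (nat_lit 14) true (nat_lit 10) (.s false (nat_lit 1) (nat_lit 16) (nat_lit 2) (nat_lit 15) (nat_lit 2) true (nat_lit 9) true (nat_lit 14) true (nat_lit 5) true (nat_lit 14) true (nat_lit 6) (.s false (nat_lit 2) (nat_lit 17) (nat_lit 2) (nat_lit 15) (nat_lit 2) true (nat_lit 9) true (nat_lit 14) true (nat_lit 5) true (nat_lit 14) true (nat_lit 6) (.s true (nat_lit 3) (nat_lit 17) (nat_lit 7) (nat_lit 2) (nat_lit 4) true (nat_lit 0) true (nat_lit 12) true (nat_lit 5) true (nat_lit 9) true (nat_lit 14) (.s false (nat_lit 3) (nat_lit 16) (nat_lit 14) (nat_lit 2) (nat_lit 2) true (nat_lit 0) true (nat_lit 14) true (nat_lit 5) true (nat_lit 6) true (nat_lit 14) (.s false (nat_lit 3) (nat_lit 16) (nat_lit 15) (nat_lit 2) (nat_lit 2) true (nat_lit 0) true (nat_lit 14) true (nat_lit 5) true (nat_lit 6) true (nat_lit 14) (.s false (nat_lit 3) (nat_lit 17) (nat_lit 14) (nat_lit 2) (nat_lit 2) true (nat_lit 0) true (nat_lit 14) true (nat_lit 5) true (nat_lit 6) true (nat_lit 14) (.s true (nat_lit 2) (nat_lit 19) (nat_lit 2) (nat_lit 2) (nat_lit 12) true (nat_lit 1) true (nat_lit 7) true (nat_lit 4) true (nat_lit 14) true (nat_lit 14) dC2d_i315)))))))))))))))))))))) (.nd (.nd (.nd (.nd (.nd (.nd .leaf (nat_lit 264193) (nat_lit 870) (.p (nat_lit 355) (nat_lit 1) .z) .df .leaf) (nat_lit 264194) (nat_lit 1187) (.p (nat_lit 424) (nat_lit 1) .z) .df .leaf) (nat_lit 265217) (nat_lit 871) (.p (nat_lit 356) (nat_lit 1) .z) .df (.nd (.nd .leaf (nat_lit 265218) (nat_lit 1188) (.p (nat_lit 425) (nat_lit 1) .z) .df .leaf) (nat_lit 266241) (nat_lit 872) (.p (nat_lit 357) (nat_lit 1) .z) .df .leaf)) (nat_lit 266242) (nat_lit 1254) (.n (nat_lit 397) (nat_lit 3) (.n (nat_lit 400) (nat_lit 2) (.n (nat_lit 401) (nat_lit 1) (.n (nat_lit 402) (nat_lit 2) (.n (nat_lit 403) (nat_lit 3) (.p (nat_lit 404) (nat_lit 2) (.n (nat_lit 406) (nat_lit 3) (.p (nat_lit 407) (nat_lit 3) (.p (nat_lit 408) (nat_lit 1) (.p (nat_lit 409) (nat_lit 3) (.p (nat_lit 410) (nat_lit 2) (.n (nat_lit 415) (nat_lit 3) (.n (nat_lit 416) (nat_lit 2) (.p (nat_lit 418) (nat_lit 3) (.p (nat_lit 420) (nat_lit 2) (.n (nat_lit 421) (nat_lit 2) (.p (nat_lit 424) (nat_lit 1) (.p (nat_lit 425) (nat_lit 1) (.p (nat_lit 432) (nat_lit 3) (.p (nat_lit 435) (nat_lit 1) .z)))))))))))))))))))) (.ct dC2d_c293 (nat_lit 1) (nat_lit 14) (.s false (nat_lit 3) (nat_lit 47) (nat_lit 3) (nat_lit 2) (nat_lit 2) true (nat_lit 7) true (nat_lit 14) false (nat_lit 1) true (nat_lit 13) true (nat_lit 14) (.s true (nat_lit 3) (nat_lit 48) (nat_lit 1) (nat_lit 2) (nat_lit 3) true (nat_lit 8) true (nat_lit 13) false (nat_lit 2) true (nat_lit 15) true (nat_lit 14) (.s false (nat_lit 3) (nat_lit 48) (nat_lit 2) (nat_lit 1) (nat_lit 3) true (nat_lit 7) true (nat_lit 13) false (nat_lit 2) true (nat_lit 14) true (nat_lit 15) (.s true (nat_lit 3) (nat_lit 48) (nat_lit 3) (nat_lit 1) (nat_lit 2) true (nat_lit 7) true (nat_lit 14) false (nat_lit 2) true (nat_lit 13) true (nat_lit 15) (.e false (nat_lit 3) (nat_lit 103) (nat_lit 11) (nat_lit 7) (.e true (nat_lit 2) (nat_lit 254) (nat_lit 2) (nat_lit 14) (.e true (nat_lit 3) (nat_lit 258) (nat_lit 2) (nat_lit 14) (.e false (nat_lit 1) (nat_lit 269) (nat_lit 2) (nat_lit 14) (.e true (nat_lit 2) (nat_lit 277) (nat_lit 2) (nat_lit 14) (.e true (nat_lit 3) (nat_lit 47) (nat_lit 33) (nat_lit 1) (.e true (nat_lit 2) (nat_lit 252) (nat_lit 2) (nat_lit 14) (.e true (nat_lit 3) (nat_lit 255) (nat_lit 2) (nat_lit 14) (.e false (nat_lit 1) (nat_lit 256) (nat_lit 2) (nat_lit 14) (.e true (nat_lit 2) (nat_lit 257) (nat_lit 2) (nat_lit 14) (.e false (nat_lit 1) (nat_lit 259) (nat_lit 2) (nat_lit 14) (.e true (nat_lit 3) (nat_lit 261) (nat_lit 2) (nat_lit 14) dC2d_i316))))))))))))))))) (.nd (.nd (.nd .leaf (nat_lit 267265) (nat_lit 873) (.p (nat_lit 358) (nat_lit 1) .z) .df .leaf) (nat_lit 267266) (nat_lit 1189) (.p (nat_lit 426) (nat_lit 1) .z) .df .leaf) (nat_lit 268289) (nat_lit 874) (.p (nat_lit 359) (nat_lit 1) .z) .df (.nd (.nd .leaf (nat_lit 268290) (nat_lit 1239) (.n (nat_lit 398) (nat_lit 2) (.n (nat_lit 399) (nat_lit 2) (.n (nat_lit 400) (nat_lit 3) (.n (nat_lit 401) (nat_lit 3) (.p (nat_lit 402) (nat_lit 3) (.n (nat_lit 404) (nat_lit 1) (.n (nat_lit 405) (nat_lit 3) (.n (nat_lit 406) (nat_lit 3) (.p (nat_lit 408) (nat_lit 3) (.n (nat_lit 409) (nat_lit 3) (.p (nat_lit 410) (nat_lit 1) (.p (nat_lit 411) (nat_lit 3) (.p (nat_lit 412) (nat_lit 3) (.p (nat_lit 413) (nat_lit 3) (.n (nat_lit 414) (nat_lit 3) (.n (nat_lit 415) (nat_lit 3) (.n (nat_lit 416) (nat_lit 2) (.p (nat_lit 418) (nat_lit 2) (.n (nat_lit 420) (nat_lit 2) (.n (nat_lit 421) (nat_lit 1) (.n (nat_lit 424) (nat_lit 2) (.p (nat_lit 426) (nat_lit 2) (.n (nat_lit 432) (nat_lit 2) .z))))))))))))))))))))))) (.ct dC2d_c293 (nat_lit 1) (nat_lit 14) dC2d_i321) .leaf) (nat_lit 269313) (nat_lit 875) (.p (nat_lit 360) (nat_lit 1) .z) .df .leaf))) (nat_lit 269314) (nat_lit 1210) (.n (nat_lit 397) (nat_lit 1) (.p (nat_lit 398) (nat_lit 3) (.p (nat_lit 399) (nat_lit 2) (.n (nat_lit 400) (nat_lit 2) (.n (nat_lit 401) (nat_lit 3) (.p (nat_lit 402) (nat_lit 3) (.n (nat_lit 403) (nat_lit 2) (.p (nat_lit 405) (nat_lit 3) (.n (nat_lit 407) (nat_lit 1) (.n (nat_lit 408) (nat_lit 2) (.n (nat_lit 409) (nat_lit 1) (.n (nat_lit 410) (nat_lit 2) (.n (nat_lit 411) (nat_lit 2) (.n (nat_lit 412) (nat_lit 3) (.n (nat_lit 413) (nat_lit 3) (.n (nat_lit 414) (nat_lit 1) (.p (nat_lit 415) (nat_lit 2) (.p (nat_lit 416) (nat_lit 3) (.n (nat_lit 418) (nat_lit 2) (.n (nat_lit 420) (nat_lit 3) (.n (nat_lit 421) (nat_lit 2) (.p (nat_lit 424) (nat_lit 1) (.n (nat_lit 426) (nat_lit 1) (.n (nat_lit 431) (nat_lit 1) (.n (nat_lit 432) (nat_lit 2) (.n (nat_lit 435) (nat_lit 3) .z)))))))))))))))))))))))))) (.ct dC2d_c293 (nat_lit 1) (nat_lit 14) (.s false (nat_lit 1) (nat_lit 7) (nat_lit 3) (nat_lit 7) (nat_lit 6) true (nat_lit 2) true (nat_lit 10) true (nat_lit 9) true (nat_lit 13) true (nat_lit 9) (.s true (nat_lit 1) (nat_lit 11) (nat_lit 1) (nat_lit 7) (nat_lit 7) true (nat_lit 4) true (nat_lit 9) true (nat_lit 7) true (nat_lit 15) true (nat_lit 9) (.s true (nat_lit 2) (nat_lit 12) (nat_lit 1) (nat_lit 7) (nat_lit 7) true (nat_lit 4) true (nat_lit 9) true (nat_lit 7) true (nat_lit 15) true (nat_lit 9) (.s false (nat_lit 3) (nat_lit 11) (nat_lit 2) (nat_lit 6) (nat_lit 7) true (nat_lit 3) true (nat_lit 9) true (nat_lit 7) true (nat_lit 14) true (nat_lit 10) (.s true (nat_lit 1) (nat_lit 11) (nat_lit 2) (nat_lit 7) (nat_lit 6) true (nat_lit 4) true (nat_lit 10) true (nat_lit 7) true (nat_lit 14) true (nat_lit 9) (.s false (nat_lit 2) (nat_lit 13) (nat_lit 2) (nat_lit 7) (nat_lit 6) true (nat_lit 4) true (nat_lit 10) true (nat_lit 7) true (nat_lit 14) true (nat_lit 9) (.s true (nat_lit 3) (nat_lit 12) (nat_lit 6) (nat_lit 2) (nat_lit 7) false (nat_lit 1) true (nat_lit 9) true (nat_lit 7) true (nat_lit 10) true (nat_lit 14) (.s true (nat_lit 3) (nat_lit 11) (nat_lit 7) (nat_lit 7) (nat_lit 1) true (nat_lit 4) true (nat_lit 15) true (nat_lit 7) true (nat_lit 9) true (nat_lit 9) (.s true (nat_lit 2) (nat_lit 12) (nat_lit 7) (nat_lit 7) (nat_lit 1) true (nat_lit 4) true (nat_lit 15) true (nat_lit 7) true (nat_lit 9) true (nat_lit 9) (.s true (nat_lit 1) (nat_lit 14) (nat_lit 7) (nat_lit 0) (nat_lit 7) false (nat_lit 2) true (nat_lit 9) true (nat_lit 6) true (nat_lit 9) true (nat_lit 16) (.s false (nat_lit 2) (nat_lit 15) (nat_lit 7) (nat_lit 0) (nat_lit 7) false (nat_lit 2) true (nat_lit 9) true (nat_lit 6) true (nat_lit 9) true (nat_lit 16) (.s false (nat_lit 2) (nat_lit 17) (nat_lit 2) (nat_lit 2) (nat_lit 14) true (nat_lit 0) true (nat_lit 6) true (nat_lit 5) true (nat_lit 14) true (nat_lit 14) (.s true (nat_lit 3) (nat_lit 17) (nat_lit 2) (nat_lit 15) (nat_lit 2) true (nat_lit 9) true (nat_lit 14) true (nat_lit 5) true (nat_lit 14) true (nat_lit 6) (.s false (nat_lit 3) (nat_lit 19) (nat_lit 2) (nat_lit 2) (nat_lit 11) true (nat_lit 1) true (nat_lit 7) true (nat_lit 4) true (nat_lit 14) true (nat_lit 14) (.s true (nat_lit 1) (nat_lit 18) (nat_lit 2) (nat_lit 3) (nat_lit 7) true (nat_lit 3) true (nat_lit 9) true (nat_lit 4) true (nat_lit 14) true (nat_lit 13) (.s true (nat_lit 1) (nat_lit 19) (nat_lit 2) (nat_lit 12) (nat_lit 2) true (nat_lit 9) true (nat_lit 14) true (nat_lit 4) true (nat_lit 14) true (nat_lit 7) (.s false (nat_lit 2) (nat_lit 18) (nat_lit 11) (nat_lit 2) (nat_lit 2) true (nat_lit 1) true (nat_lit 14) true (nat_lit 4) true (nat_lit 7) true (nat_lit 14) (.s false (nat_lit 3) (nat_lit 19) (nat_lit 12) (nat_lit 2) (nat_lit 2) true (nat_lit 1) true (nat_lit 14) true (nat_lit 4) true (nat_lit 7) true (nat_lit 14) (.s true (nat_lit 3) (nat_lit 20) (nat_lit 0) (nat_lit 2) (nat_lit 15) true (nat_lit 2) true (nat_lit 6) true (nat_lit 3) true (nat_lit 16) true (nat_lit 14) (.s true (nat_lit 2) (nat_lit 20) (nat_lit 1) (nat_lit 2) (nat_lit 12) true (nat_lit 2) true (nat_lit 7) true (nat_lit 3) true (nat_lit 15) true (nat_lit 14) (.s true (nat_lit 3) (nat_lit 20) (nat_lit 1) (nat_lit 2) (nat_lit 13) true (nat_lit 2) true (nat_lit 7) true (nat_lit 3) true (nat_lit 15) true (nat_lit 14) dC2d_i326)))))))))))))))))))))) (.nd (.nd (.nd (.nd .leaf (nat_lit 270337) (nat_lit 876) (.p (nat_lit 361) (nat_lit 1) .z) .df .leaf) (nat_lit 270338) (nat_lit 1208) (.p (nat_lit 398) (nat_lit 2) (.p (nat_lit 400) (nat_lit 2) (.n (nat_lit 402) (nat_lit 1) (.p (nat_lit 403) (nat_lit 3) (.p (nat_lit 404) (nat_lit 2) (.n (nat_lit 405) (nat_lit 2) (.n (nat_lit 406) (nat_lit 1) (.n (nat_lit 407) (nat_lit 2) (.p (nat_lit 408) (nat_lit 2) (.p (nat_lit 409) (nat_lit 1) (.p (nat_lit 410) (nat_lit 3) (.n (nat_lit 415) (nat_lit 3) (.p (nat_lit 416) (nat_lit 2) (.p (nat_lit 418) (nat_lit 1) (.p (nat_lit 420) (nat_lit 2) (.p (nat_lit 421) (nat_lit 2) (.n (nat_lit 435) (nat_lit 1) .z))))))))))))))))) (.ct dC2d_c293 (nat_lit 1) (nat_lit 14) (.s true (nat_lit 1) (nat_lit 12) (nat_lit 1) (nat_lit 7) (nat_lit 7) true (nat_lit 4) true (nat_lit 9) true (nat_lit 7) true (nat_lit 15) true (nat_lit 9) (.s false (nat_lit 2) (nat_lit 11) (nat_lit 2) (nat_lit 6) (nat_lit 7) true (nat_lit 3) true (nat_lit 9) true (nat_lit 7) true (nat_lit 14) true (nat_lit 10) (.s true (nat_lit 1) (nat_lit 12) (nat_lit 6) (nat_lit 2) (nat_lit 7) false (nat_lit 1) true (nat_lit 9) true (nat_lit 7) true (nat_lit 10) true (nat_lit 14) (.s false (nat_lit 1) (nat_lit 13) (nat_lit 6) (nat_lit 7) (nat_lit 2) true (nat_lit 4) true (nat_lit 14) true (nat_lit 7) true (nat_lit 10) true (nat_lit 9) (.s true (nat_lit 1) (nat_lit 11) (nat_lit 7) (nat_lit 2) (nat_lit 6) false (nat_lit 1) true (nat_lit 10) true (nat_lit 7) true (nat_lit 9) true (nat_lit 14) (.s false (nat_lit 2) (nat_lit 11) (nat_lit 7) (nat_lit 7) (nat_lit 1) true (nat_lit 4) true (nat_lit 15) true (nat_lit 7) true (nat_lit 9) true (nat_lit 9) (.s true (nat_lit 3) (nat_lit 12) (nat_lit 7) (nat_lit 7) (nat_lit 1) true (nat_lit 4) true (nat_lit 15) true (nat_lit 7) true (nat_lit 9) true (nat_lit 9) (.s false (nat_lit 3) (nat_lit 15) (nat_lit 7) (nat_lit 0) (nat_lit 7) false (nat_lit 2) true (nat_lit 9) true (nat_lit 6) true (nat_lit 9) true (nat_lit 16) (.s true (nat_lit 3) (nat_lit 16) (nat_lit 2) (nat_lit 6) (nat_lit 6) true (nat_lit 4) true (nat_lit 10) true (nat_lit 5) true (nat_lit 14) true (nat_lit 10) (.s true (nat_lit 1) (nat_lit 17) (nat_lit 2) (nat_lit 15) (nat_lit 2) true (nat_lit 9) true (nat_lit 14) true (nat_lit 5) true (nat_lit 14) true (nat_lit 6) (.s false (nat_lit 3) (nat_lit 17) (nat_lit 4) (nat_lit 2) (nat_lit 7) true (nat_lit 0) true (nat_lit 9) true (nat_lit 5) true (nat_lit 12) true (nat_lit 14) (.s true (nat_lit 2) (nat_lit 17) (nat_lit 6) (nat_lit 6) (nat_lit 2) true (nat_lit 4) true (nat_lit 14) true (nat_lit 5) true (nat_lit 10) true (nat_lit 10) (.s true (nat_lit 2) (nat_lit 16) (nat_lit 15) (nat_lit 2) (nat_lit 2) true (nat_lit 0) true (nat_lit 14) true (nat_lit 5) true (nat_lit 6) true (nat_lit 14) (.s true (nat_lit 1) (nat_lit 17) (nat_lit 15) (nat_lit 2) (nat_lit 2) true (nat_lit 0) true (nat_lit 14) true (nat_lit 5) true (nat_lit 6) true (nat_lit 14) (.s true (nat_lit 2) (nat_lit 19) (nat_lit 1) (nat_lit 16) (nat_lit 2) true (nat_lit 10) true (nat_lit 14) true (nat_lit 4) true (nat_lit 15) true (nat_lit 5) (.s true (nat_lit 2) (nat_lit 19) (nat_lit 1) (nat_lit 17) (nat_lit 2) true (nat_lit 10) true (nat_lit 14) true (nat_lit 4) true (nat_lit 15) true (nat_lit 5) (.s false (nat_lit 1) (nat_lit 18) (nat_lit 2) (nat_lit 2) (nat_lit 11) true (nat_lit 1) true (nat_lit 7) true (nat_lit 4) true (nat_lit 14) true (nat_lit 14) (.s false (nat_lit 2) (nat_lit 19) (nat_lit 2) (nat_lit 2) (nat_lit 12) true (nat_lit 1) true (nat_lit 7) true (nat_lit 4) true (nat_lit 14) true (nat_lit 14) (.s true (nat_lit 2) (nat_lit 18) (nat_lit 2) (nat_lit 3) (nat_lit 7) true (nat_lit 3) true (nat_lit 9) true (nat_lit 4) true (nat_lit 14) true (nat_lit 13) (.s true (nat_lit 3) (nat_lit 19) (nat_lit 2) (nat_lit 11) (nat_lit 2) true (nat_lit 9) true (nat_lit 14) true (nat_lit 4) true (nat_lit 14) true (nat_lit 7) (.s false (nat_lit 2) (nat_lit 19) (nat_lit 2) (nat_lit 12) (nat_lit 2) true (nat_lit 9) true (nat_lit 14) true (nat_lit 4) true (nat_lit 14) true (nat_lit 7) (.s false (nat_lit 2) (nat_lit 19) (nat_lit 3) (nat_lit 7) (nat_lit 2) true (nat_lit 7) true (nat_lit 14) true (nat_lit 4) true (nat_lit 13) true (nat_lit 9) dC2d_i331))))))))))))))))))))))) .leaf) (nat_lit 271361) (nat_lit 877) (.p (nat_lit 362) (nat_lit 1) .z) .df (.nd (.nd .leaf (nat_lit 271362) (nat_lit 1206) (.n (nat_lit 397) (nat_lit 1) (.n (nat_lit 399) (nat_lit 2) (.n (nat_lit 400) (nat_lit 3) (.p (nat_lit 401) (nat_lit 3) (.n (nat_lit 402) (nat_lit 1) (.p (nat_lit 403) (nat_lit 1) (.p (nat_lit 405) (nat_lit 2) (.p (nat_lit 406) (nat_lit 1) (.n (nat_lit 407) (nat_lit 3) (.n (nat_lit 408) (nat_lit 1) (.p (nat_lit 409) (nat_lit 1) (.p (nat_lit 410) (nat_lit 3) (.p (nat_lit 411) (nat_lit 3) (.n (nat_lit 412) (nat_lit 3) (.n (nat_lit 413) (nat_lit 3) (.p (nat_lit 414) (nat_lit 3) (.p (nat_lit 415) (nat_lit 3) (.n (nat_lit 416) (nat_lit 3) (.p (nat_lit 420) (nat_lit 2) (.n (nat_lit 421) (nat_lit 3) (.p (nat_lit 422) (nat_lit 1) (.p (nat_lit 424) (nat_lit 1) (.p (nat_lit 431) (nat_lit 2) .z))))))))))))))))))))))) (.ct dC2d_c293 (nat_lit 1) (nat_lit 14) (.s true (nat_lit 1) (nat_lit 7) (nat_lit 3) (nat_lit 7) (nat_lit 6) true (nat_lit 2) true (nat_lit 10) true (nat_lit 9) true (nat_lit 13) true (nat_lit 9) (.s false (nat_lit 1) (nat_lit 12) (nat_lit 1) (nat_lit 7) (nat_lit 7) true (nat_lit 4) true (nat_lit 9) true (nat_lit 7) true (nat_lit 15) true (nat_lit 9) (.s false (nat_lit 3) (nat_lit 11) (nat_lit 2) (nat_lit 6) (nat_lit 7) true (nat_lit 3) true (nat_lit 9) true (nat_lit 7) true (nat_lit 14) true (nat_lit 10) (.s true (nat_lit 2) (nat_lit 12) (nat_lit 6) (nat_lit 2) (nat_lit 7) false (nat_lit 1) true (nat_lit 9) true (nat_lit 7) true (nat_lit 10) true (nat_lit 14) (.s true (nat_lit 2) (nat_lit 13) (nat_lit 7) (nat_lit 1) (nat_lit 7) false (nat_lit 2) true (nat_lit 9) true (nat_lit 7) true (nat_lit 9) true (nat_lit 15) (.s true (nat_lit 1) (nat_lit 11) (nat_lit 7) (nat_lit 2) (nat_lit 6) false (nat_lit 1) true (nat_lit 10) true (nat_lit 7) true (nat_lit 9) true (nat_lit 14) (.s false (nat_lit 1) (nat_lit 12) (nat_lit 7) (nat_lit 7) (nat_lit 1) true (nat_lit 4) true (nat_lit 15) true (nat_lit 7) true (nat_lit 9) true (nat_lit 9) (.s false (nat_lit 1) (nat_lit 14) (nat_lit 2) (nat_lit 7) (nat_lit 5) true (nat_lit 5) true (nat_lit 11) true (nat_lit 6) true (nat_lit 14) true (nat_lit 9) dC2d_i337))))))))) .leaf) (nat_lit 272385) (nat_lit 878) (.p (nat_lit 363) (nat_lit 1) .z) .df .leaf)) (nat_lit 272386) (nat_lit 1190) (.p (nat_lit 427) (nat_lit 1) .z) .df (.nd (.nd (.nd .leaf (nat_lit 273409) (nat_lit 879) (.p (nat_lit 364) (nat_lit 1) .z) .df .leaf) (nat_lit 273410) (nat_lit 1191) (.p (nat_lit 428) (nat_lit 1) .z) .df .leaf) (nat_lit 274433) (nat_lit 880) (.p (nat_lit 365) (nat_lit 1) .z) .df (.nd .leaf (nat_lit 274434) (nat_lit 1192) (.p (nat_lit 429) (nat_lit 1) .z) .df .leaf)))) (nat_lit 275457) (nat_lit 881) (.p (nat_lit 366) (nat_lit 1) .z) .df (.nd (.nd (.nd (.nd (.nd .leaf (nat_lit 275458) (nat_lit 1224) (.p (nat_lit 397) (nat_lit 3) (.p (nat_lit 399) (nat_lit 3) (.p (nat_lit 401) (nat_lit 2) (.n (nat_lit 402) (nat_lit 1) (.p (nat_lit 403) (nat_lit 2) (.n (nat_lit 405) (nat_lit 3) (.p (nat_lit 406) (nat_lit 2) (.n (nat_lit 407) (nat_lit 3) (.n (nat_lit 408) (nat_lit 1) (.n (nat_lit 409) (nat_lit 3) (.n (nat_lit 410) (nat_lit 3) (.n (nat_lit 412) (nat_lit 2) (.n (nat_lit 413) (nat_lit 2) (.n (nat_lit 414) (nat_lit 1) (.n (nat_lit 415) (nat_lit 2) (.p (nat_lit 416) (nat_lit 2) (.p (nat_lit 418) (nat_lit 3) (.n (nat_lit 420) (nat_lit 3) (.n (nat_lit 421) (nat_lit 1) (.p (nat_lit 427) (nat_lit 2) (.n (nat_lit 431) (nat_lit 2) (.n (nat_lit 435) (nat_lit 3) .z)))))))))))))))))))))) (.ct dC2d_c293 (nat_lit 1) (nat_lit 14) (.s true (nat_lit 2) (nat_lit 7) (nat_lit 3) (nat_lit 7) (nat_lit 6) true (nat_lit 2) true (nat_lit 10) true (nat_lit 9) true (nat_lit 13) true (nat_lit 9) (.s false (nat_lit 2) (nat_lit 11) (nat_lit 1) (nat_lit 7) (nat_lit 7) true (nat_lit 4) true (nat_lit 9) true (nat_lit 7) true (nat_lit 15) true (nat_lit 9) dC2d_i339))) .leaf) (nat_lit 276481) (nat_lit 882) (.p (nat_lit 367) (nat_lit 1) .z) .df .leaf) (nat_lit 276482) (nat_lit 1214) (.n (nat_lit 397) (nat_lit 1) (.p (nat_lit 398) (nat_lit 2) (.n (nat_lit 399) (nat_lit 2) (.n (nat_lit 400) (nat_lit 2) (.p (nat_lit 401) (nat_lit 1) (.p (nat_lit 402) (nat_lit 1) (.n (nat_lit 403) (nat_lit 3) (.p (nat_lit 404) (nat_lit 1) (.n (nat_lit 405) (nat_lit 3) (.n (nat_lit 406) (nat_lit 3) (.p (nat_lit 407) (nat_lit 1) (.p (nat_lit 410) (nat_lit 1) (.p (nat_lit 411) (nat_lit 3) (.n (nat_lit 412) (nat_lit 1) (.n (nat_lit 413) (nat_lit 1) (.p (nat_lit 414) (nat_lit 3) (.n (nat_lit 415) (nat_lit 1) (.p (nat_lit 416) (nat_lit 3) (.n (nat_lit 418) (nat_lit 2) (.p (nat_lit 420) (nat_lit 1) (.p (nat_lit 421) (nat_lit 3) (.p (nat_lit 428) (nat_lit 2) (.p (nat_lit 431) (nat_lit 3) (.n (nat_lit 432) (nat_lit 1) (.p (nat_lit 435) (nat_lit 3) .z))))))))))))))))))))))))) (.ct dC2d_c293 (nat_lit 1) (nat_lit 14) (.s true (nat_lit 1) (nat_lit 11) (nat_lit 1) (nat_lit 7) (nat_lit 7) true (nat_lit 4) true (nat_lit 9) true (nat_lit 7) true (nat_lit 15) true (nat_lit 9) (.s false (nat_lit 3) (nat_lit 12) (nat_lit 1) (nat_lit 7) (nat_lit 7) true (nat_lit 4) true (nat_lit 9) true (nat_lit 7) true (nat_lit 15) true (nat_lit 9) (.s true (nat_lit 2) (nat_lit 13) (nat_lit 2) (nat_lit 7) (nat_lit 6) true (nat_lit 4) true (nat_lit 10) true (nat_lit 7) true (nat_lit 14) true (nat_lit 9) (.s true (nat_lit 1) (nat_lit 12) (nat_lit 6) (nat_lit 2) (nat_lit 7) false (nat_lit 1) true (nat_lit 9) true (nat_lit 7) true (nat_lit 10) true (nat_lit 14) (.s true (nat_lit 1) (nat_lit 12) (nat_lit 7) (nat_lit 2) (nat_lit 6) false (nat_lit 1) true (nat_lit 10) true (nat_lit 7) true (nat_lit 9) true (nat_lit 14) (.s false (nat_lit 1) (nat_lit 13) (nat_lit 7) (nat_lit 2) (nat_lit 6) false (nat_lit 1) true (nat_lit 10) true (nat_lit 7) true (nat_lit 9) true (nat_lit 14) (.s true (nat_lit 3) (nat_lit 11) (nat_lit 7) (nat_lit 7) (nat_lit 1) true (nat_lit 4) true (nat_lit 15) true (nat_lit 7) true (nat_lit 9) true (nat_lit 9) (.s false (nat_lit 2) (nat_lit 12) (nat_lit 7) (nat_lit 7) (nat_lit 1) true (nat_lit 4) true (nat_lit 15) true (nat_lit 7) true (nat_lit 9) true (nat_lit 9) (.s true (nat_lit 2) (nat_lit 15) (nat_lit 5) (nat_lit 2) (nat_lit 7) false (nat_lit 0) true (nat_lit 9) true (nat_lit 6) true (nat_lit 11) true (nat_lit 14) (.s true (nat_lit 3) (nat_lit 14) (nat_lit 7) (nat_lit 5) (nat_lit 2) true (nat_lit 3) true (nat_lit 14) true (nat_lit 6) true (nat_lit 9) true (nat_lit 11) (.s false (nat_lit 1) (nat_lit 17) (nat_lit 2) (nat_lit 2) (nat_lit 14) true (nat_lit 0) true (nat_lit 6) true (nat_lit 5) true (nat_lit 14) true (nat_lit 14) (.s false (nat_lit 1) (nat_lit 17) (nat_lit 2) (nat_lit 2) (nat_lit 15) true (nat_lit 0) true (nat_lit 6) true (nat_lit 5) true (nat_lit 14) true (nat_lit 14) (.s true (nat_lit 1) (nat_lit 16) (nat_lit 2) (nat_lit 6) (nat_lit 6) true (nat_lit 4) true (nat_lit 10) true (nat_lit 5) true (nat_lit 14) true (nat_lit 10) (.s true (nat_lit 2) (nat_lit 17) (nat_lit 2) (nat_lit 15) (nat_lit 2) true (nat_lit 9) true (nat_lit 14) true (nat_lit 5) true (nat_lit 14) true (nat_lit 6) (.s false (nat_lit 1) (nat_lit 16) (nat_lit 15) (nat_lit 2) (nat_lit 2) true (nat_lit 0) true (nat_lit 14) true (nat_lit 5) true (nat_lit 6) true (nat_lit 14) (.s false (nat_lit 2) (nat_lit 17) (nat_lit 14) (nat_lit 2) (nat_lit 2) true (nat_lit 0) true (nat_lit 14) true (nat_lit 5) true (nat_lit 6) true (nat_lit 14) (.s false (nat_lit 3) (nat_lit 18) (nat_lit 2) (nat_lit 0) (nat_lit 19) false (nat_lit 1) true (nat_lit 4) true (nat_lit 4) true (nat_lit 14) true (nat_lit 16) (.s false (nat_lit 3) (nat_lit 18) (nat_lit 2) (nat_lit 2) (nat_lit 11) true (nat_lit 1) true (nat_lit 7) true (nat_lit 4) true (nat_lit 14) true (nat_lit 14) (.s true (nat_lit 1) (nat_lit 18) (nat_lit 2) (nat_lit 2) (nat_lit 13) true (nat_lit 1) true (nat_lit 7) true (nat_lit 4) true (nat_lit 14) true (nat_lit 14) (.s false (nat_lit 2) (nat_lit 19) (nat_lit 2) (nat_lit 2) (nat_lit 11) true (nat_lit 1) true (nat_lit 7) true (nat_lit 4) true (nat_lit 14) true (nat_lit 14) (.s true (nat_lit 2) (nat_lit 19) (nat_lit 2) (nat_lit 2) (nat_lit 12) true (nat_lit 1) true (nat_lit 7) true (nat_lit 4) true (nat_lit 14) true (nat_lit 14) (.s false (nat_lit 3) (nat_lit 19) (nat_lit 2) (nat_lit 2) (nat_lit 13) true (nat_lit 1) true (nat_lit 7) true (nat_lit 4) true (nat_lit 14) true (nat_lit 14) (.s true (nat_lit 3) (nat_lit 18) (nat_lit 2) (nat_lit 11) (nat_lit 2) true (nat_lit 9) true (nat_lit 14) true (nat_lit 4) true (nat_lit 14) true (nat_lit 7) dC2d_i345)))))))))))))))))))))))) (.nd (.nd .leaf (nat_lit 277505) (nat_lit 883) (.p (nat_lit 368) (nat_lit 1) .z) .df .leaf) (nat_lit 277506) (nat_lit 1193) (.p (nat_lit 430) (nat_lit 1) .z) .df .leaf)) (nat_lit 278529) (nat_lit 884) (.p (nat_lit 369) (nat_lit 1) .z) .df (.nd (.nd (.nd .leaf (nat_lit 278530) (nat_lit 1194) (.p (nat_lit 431) (nat_lit 1) .z) .df .leaf) (nat_lit 279553) (nat_lit 885) (.p (nat_lit 370) (nat_lit 1) .z) .df .leaf) (nat_lit 279554) (nat_lit 1195) (.p (nat_lit 432) (nat_lit 1) .z) .df (.nd .leaf (nat_lit 280577) (nat_lit 886) (.p (nat_lit 371) (nat_lit 1) .z) .df .leaf))) (nat_lit 280578) (nat_lit 1212) (.p (nat_lit 397) (nat_lit 1) (.p (nat_lit 398) (nat_lit 3) (.n (nat_lit 400) (nat_lit 1) (.n (nat_lit 401) (nat_lit 3) (.n (nat_lit 403) (nat_lit 1) (.n (nat_lit 404) (nat_lit 1) (.p (nat_lit 405) (nat_lit 2) (.n (nat_lit 407) (nat_lit 1) (.p (nat_lit 408) (nat_lit 3) (.n (nat_lit 409) (nat_lit 2) (.p (nat_lit 410) (nat_lit 2) (.p (nat_lit 411) (nat_lit 1) (.p (nat_lit 412) (nat_lit 1) (.p (nat_lit 413) (nat_lit 1) (.p (nat_lit 414) (nat_lit 3) (.n (nat_lit 415) (nat_lit 3) (.n (nat_lit 416) (nat_lit 3) (.p (nat_lit 418) (nat_lit 1) (.p (nat_lit 421) (nat_lit 2) (.p (nat_lit 422) (nat_lit 2) (.n (nat_lit 435) (nat_lit 1) .z))))))))))))))))))))) (.ct dC2d_c293 (nat_lit 1) (nat_lit 14) (.s false (nat_lit 1) (nat_lit 7) (nat_lit 3) (nat_lit 7) (nat_lit 6) true (nat_lit 2) true (nat_lit 10) true (nat_lit 9) true (nat_lit 13) true (nat_lit 9) (.s true (nat_lit 2) (nat_lit 11) (nat_lit 1) (nat_lit 7) (nat_lit 7) true (nat_lit 4) true (nat_lit 9) true (nat_lit 7) true (nat_lit 15) true (nat_lit 9) (.s true (nat_lit 3) (nat_lit 12) (nat_lit 1) (nat_lit 7) (nat_lit 7) true (nat_lit 4) true (nat_lit 9) true (nat_lit 7) true (nat_lit 15) true (nat_lit 9) (.s true (nat_lit 3) (nat_lit 11) (nat_lit 2) (nat_lit 7) (nat_lit 6) true (nat_lit 4) true (nat_lit 10) true (nat_lit 7) true (nat_lit 14) true (nat_lit 9) (.s true (nat_lit 1) (nat_lit 12) (nat_lit 6) (nat_lit 2) (nat_lit 7) false (nat_lit 1) true (nat_lit 9) true (nat_lit 7) true (nat_lit 10) true (nat_lit 14) (.s true (nat_lit 3) (nat_lit 11) (nat_lit 7) (nat_lit 2) (nat_lit 6) false (nat_lit 1) true (nat_lit 10) true (nat_lit 7) true (nat_lit 9) true (nat_lit 14) (.s true (nat_lit 3) (nat_lit 11) (nat_lit 7) (nat_lit 7) (nat_lit 1) true (nat_lit 4) true (nat_lit 15) true (nat_lit 7) true (nat_lit 9) true (nat_lit 9) (.s false (nat_lit 2) (nat_lit 12) (nat_lit 7) (nat_lit 7) (nat_lit 1) true (nat_lit 4) true (nat_lit 15) true (nat_lit 7) true (nat_lit 9) true (nat_lit 9) (.s true (nat_lit 1) (nat_lit 15) (nat_lit 5) (nat_lit 7) (nat_lit 2) true (nat_lit 5) true (nat_lit 14) true (nat_lit 6) true (nat_lit 11) true (nat_lit 9) (.s false (nat_lit 3) (nat_lit 15) (nat_lit 7) (nat_lit 0) (nat_lit 7) false (nat_lit 2) true (nat_lit 9) true (nat_lit 6) true (nat_lit 9) true (nat_lit 16) (.s false (nat_lit 2) (nat_lit 16) (nat_lit 2) (nat_lit 2) (nat_lit 15) true (nat_lit 0) true (nat_lit 6) true (nat_lit 5) true (nat_lit 14) true (nat_lit 14) (.s true (nat_lit 1) (nat_lit 17) (nat_lit 2) (nat_lit 2) (nat_lit 14) true (nat_lit 0) true (nat_lit 6) true (nat_lit 5) true (nat_lit 14) true (nat_lit 14) (.s false (nat_lit 2) (nat_lit 16) (nat_lit 2) (nat_lit 6) (nat_lit 6) true (nat_lit 4) true (nat_lit 10) true (nat_lit 5) true (nat_lit 14) true (nat_lit 10) (.s true (nat_lit 2) (nat_lit 16) (nat_lit 15) (nat_lit 2) (nat_lit 2) true (nat_lit 0) true (nat_lit 14) true (nat_lit 5) true (nat_lit 6) true (nat_lit 14) (.s true (nat_lit 3) (nat_lit 17) (nat_lit 15) (nat_lit 2) (nat_lit 2) true (nat_lit 0) true (nat_lit 14) true (nat_lit 5) true (nat_lit 6) true (nat_lit 14) (.s false (nat_lit 3) (nat_lit 18) (nat_lit 2) (nat_lit 2) (nat_lit 11) true (nat_lit 1) true (nat_lit 7) true (nat_lit 4) true (nat_lit 14) true (nat_lit 14) (.s true (nat_lit 1) (nat_lit 18) (nat_lit 2) (nat_lit 2) (nat_lit 13) true (nat_lit 1) true (nat_lit 7) true (nat_lit 4) true (nat_lit 14) true (nat_lit 14) (.s false (nat_lit 2) (nat_lit 19) (nat_lit 2) (nat_lit 2) (nat_lit 12) true (nat_lit 1) true (nat_lit 7) true (nat_lit 4) true (nat_lit 14) true (nat_lit 14) (.s true (nat_lit 3) (nat_lit 19) (nat_lit 2) (nat_lit 2) (nat_lit 13) true (nat_lit 1) true (nat_lit 7) true (nat_lit 4) true (nat_lit 14) true (nat_lit 14) (.s true (nat_lit 3) (nat_lit 18) (nat_lit 2) (nat_lit 3) (nat_lit 7) true (nat_lit 3) true (nat_lit 9) true (nat_lit 4) true (nat_lit 14) true (nat_lit 13) (.s true (nat_lit 1) (nat_lit 19) (nat_lit 2) (nat_lit 12) (nat_lit 2) true (nat_lit 9) true (nat_lit 14) true (nat_lit 4) true (nat_lit 14) true (nat_lit 7) (.s false (nat_lit 1) (nat_lit 19) (nat_lit 7) (nat_lit 3) (nat_lit 2) true (nat_lit 3) true (nat_lit 14) true (nat_lit 4) true (nat_lit 9) true (nat_lit 13) (.s true (nat_lit 1) (nat_lit 18) (nat_lit 11) (nat_lit 2) (nat_lit 2) true (nat_lit 1) true (nat_lit 14) true (nat_lit 4) true (nat_lit 7) true (nat_lit 14) (.s true (nat_lit 2) (nat_lit 18) (nat_lit 12) (nat_lit 2) (nat_lit 2) true (nat_lit 1) true (nat_lit 14) true (nat_lit 4) true (nat_lit 7) true (nat_lit 14) dC2d_i351))))))))))))))))))))))))) (.nd (.nd (.nd (.nd .leaf (nat_lit 281601) (nat_lit 887) (.p (nat_lit 372) (nat_lit 1) .z) .df .leaf) (nat_lit 281602) (nat_lit 1218) (.n (nat_lit 397) (nat_lit 2) (.n (nat_lit 398) (nat_lit 3) (.n (nat_lit 399) (nat_lit 3) (.p (nat_lit 400) (nat_lit 2) (.n (nat_lit 401) (nat_lit 2) (.n (nat_lit 403) (nat_lit 1) (.p (nat_lit 404) (nat_lit 1) (.p (nat_lit 405) (nat_lit 1) (.p (nat_lit 406) (nat_lit 1) (.p (nat_lit 407) (nat_lit 1) (.p (nat_lit 408) (nat_lit 2) (.p (nat_lit 409) (nat_lit 3) (.p (nat_lit 410) (nat_lit 2) (.n (nat_lit 411) (nat_lit 1) (.p (nat_lit 412) (nat_lit 1) (.p (nat_lit 413) (nat_lit 1) (.n (nat_lit 414) (nat_lit 2) (.p (nat_lit 415) (nat_lit 1) (.p (nat_lit 416) (nat_lit 3) (.p (nat_lit 418) (nat_lit 1) (.n (nat_lit 420) (nat_lit 1) (.p (nat_lit 421) (nat_lit 1) (.p (nat_lit 423) (nat_lit 2) (.n (nat_lit 431) (nat_lit 2) (.n (nat_lit 432) (nat_lit 3) (.p (nat_lit 435) (nat_lit 2) .z)))))))))))))))))))))))))) (.ct dC2d_c293 (nat_lit 1) (nat_lit 14) dC2d_i357) .leaf) (nat_lit 282625) (nat_lit 888) (.p (nat_lit 373) (nat_lit 1) .z) .df (.nd (.nd .leaf (nat_lit 282626) (nat_lit 1253) (.n (nat_lit 397) (nat_lit 1) (.p (nat_lit 398) (nat_lit 1) (.p (nat_lit 399) (nat_lit 1) (.n (nat_lit 400) (nat_lit 1) (.p (nat_lit 401) (nat_lit 1) (.p (nat_lit 402) (nat_lit 1) (.n (nat_lit 403) (nat_lit 1) (.n (nat_lit 404) (nat_lit 3) (.p (nat_lit 405) (nat_lit 3) (.p (nat_lit 406) (nat_lit 2) (.n (nat_lit 407) (nat_lit 1) (.n (nat_lit 408) (nat_lit 1) (.p (nat_lit 409) (nat_lit 2) (.n (nat_lit 410) (nat_lit 1) (.p (nat_lit 411) (nat_lit 2) (.n (nat_lit 412) (nat_lit 2) (.n (nat_lit 413) (nat_lit 2) (.p (nat_lit 414) (nat_lit 1) (.p (nat_lit 418) (nat_lit 2) (.p (nat_lit 421) (nat_lit 1) (.n (nat_lit 424) (nat_lit 1) (.p (nat_lit 426) (nat_lit 1) (.p (nat_lit 430) (nat_lit 1) (.n (nat_lit 431) (nat_lit 2) (.n (nat_lit 432) (nat_lit 2) (.p (nat_lit 435) (nat_lit 1) .z)))))))))))))))))))))))))) (.ct dC2d_c293 (nat_lit 1) (nat_lit 14) (.s true (nat_lit 1) (nat_lit 20) (nat_lit 1) (nat_lit 13) (nat_lit 2) true (nat_lit 10) true (nat_lit 14) true (nat_lit 3) true (nat_lit 15) true (nat_lit 7) (.s false (nat_lit 1) (nat_lit 20) (nat_lit 2) (nat_lit 13) (nat_lit 1) true (nat_lit 10) true (nat_lit 15) true (nat_lit 3) true (nat_lit 14) true (nat_lit 7) (.s false (nat_lit 1) (nat_lit 28) (nat_lit 2) (nat_lit 2) (nat_lit 7) true (nat_lit 3) true (nat_lit 9) true (nat_lit 2) true (nat_lit 14) true (nat_lit 14) (.s true (nat_lit 1) (nat_lit 48) (nat_lit 1) (nat_lit 2) (nat_lit 3) true (nat_lit 8) true (nat_lit 13) false (nat_lit 2) true (nat_lit 15) true (nat_lit 14) (.s false (nat_lit 1) (nat_lit 48) (nat_lit 2) (nat_lit 1) (nat_lit 3) true (nat_lit 7) true (nat_lit 13) false (nat_lit 2) true (nat_lit 14) true (nat_lit 15) (.s true (nat_lit 1) (nat_lit 68) (nat_lit 2) (nat_lit 2) (nat_lit 2) true (nat_lit 9) true (nat_lit 14) false (nat_lit 3) true (nat_lit 14) true (nat_lit 14) (.s false (nat_lit 1) (nat_lit 102) (nat_lit 0) (nat_lit 1) (nat_lit 2) true (nat_lit 11) true (nat_lit 14) false (nat_lit 7) true (nat_lit 16) true (nat_lit 15) (.s false (nat_lit 1) (nat_lit 104) (nat_lit 0) (nat_lit 1) (nat_lit 2) true (nat_lit 11) true (nat_lit 14) false (nat_lit 7) true (nat_lit 16) true (nat_lit 15) (.s false (nat_lit 1) (nat_lit 103) (nat_lit 1) (nat_lit 2) (nat_lit 0) true (nat_lit 13) true (nat_lit 16) false (nat_lit 7) true (nat_lit 15) true (nat_lit 14) dC2d_i359)))))))))) .leaf) (nat_lit 283649) (nat_lit 889) (.p (nat_lit 374) (nat_lit 1) .z) .df .leaf)) (nat_lit 283650) (nat_lit 1227) (.n (nat_lit 397) (nat_lit 1) (.p (nat_lit 398) (nat_lit 3) (.p (nat_lit 399) (nat_lit 1) (.n (nat_lit 400) (nat_lit 2) (.n (nat_lit 402) (nat_lit 1) (.p (nat_lit 403) (nat_lit 3) (.p (nat_lit 404) (nat_lit 1) (.p (nat_lit 405) (nat_lit 2) (.n (nat_lit 406) (nat_lit 1) (.n (nat_lit 407) (nat_lit 1) (.p (nat_lit 409) (nat_lit 2) (.p (nat_lit 410) (nat_lit 3) (.p (nat_lit 411) (nat_lit 3) (.n (nat_lit 412) (nat_lit 2) (.n (nat_lit 413) (nat_lit 2) (.p (nat_lit 414) (nat_lit 2) (.n (nat_lit 418) (nat_lit 2) (.n (nat_lit 420) (nat_lit 3) (.p (nat_lit 421) (nat_lit 2) (.p (nat_lit 422) (nat_lit 2) (.n (nat_lit 424) (nat_lit 2) (.n (nat_lit 427) (nat_lit 2) (.p (nat_lit 435) (nat_lit 2) .z))))))))))))))))))))))) (.ct dC2d_c293 (nat_lit 1) (nat_lit 14) (.s true (nat_lit 3) (nat_lit 11) (nat_lit 2) (nat_lit 7) (nat_lit 6) true (nat_lit 4) true (nat_lit 10) true (nat_lit 7) true (nat_lit 14) true (nat_lit 9) (.s true (nat_lit 3) (nat_lit 11) (nat_lit 7) (nat_lit 1) (nat_lit 7) false (nat_lit 2) true (nat_lit 9) true (nat_lit 7) true (nat_lit 9) true (nat_lit 15) (.s false (nat_lit 3) (nat_lit 18) (nat_lit 2) (nat_lit 3) (nat_lit 7) true (nat_lit 3) true (nat_lit 9) true (nat_lit 4) true (nat_lit 14) true (nat_lit 13) dC2d_i361)))) (.nd (.nd (.nd .leaf (nat_lit 284673) (nat_lit 890) (.p (nat_lit 375) (nat_lit 1) .z) .df .leaf) (nat_lit 284674) (nat_lit 1375) (.p (nat_lit 397) (nat_lit 1) (.p (nat_lit 398) (nat_lit 3) (.n (nat_lit 399) (nat_lit 2) (.n (nat_lit 400) (nat_lit 3) (.p (nat_lit 401) (nat_lit 1) (.p (nat_lit 402) (nat_lit 1) (.n (nat_lit 403) (nat_lit 3) (.n (nat_lit 404) (nat_lit 1) (.n (nat_lit 405) (nat_lit 3) (.p (nat_lit 406) (nat_lit 2) (.p (nat_lit 407) (nat_lit 1) (.n (nat_lit 408) (nat_lit 2) (.n (nat_lit 409) (nat_lit 2) (.n (nat_lit 410) (nat_lit 3) (.p (nat_lit 411) (nat_lit 1) (.n (nat_lit 412) (nat_lit 2) (.n (nat_lit 415) (nat_lit 2) (.n (nat_lit 416) (nat_lit 2) (.p (nat_lit 417) (nat_lit 1) (.n (nat_lit 418) (nat_lit 2) (.p (nat_lit 419) (nat_lit 1) (.n (nat_lit 420) (nat_lit 3) (.n (nat_lit 421) (nat_lit 1) (.n (nat_lit 422) (nat_lit 1) (.p (nat_lit 424) (nat_lit 2) (.p (nat_lit 427) (nat_lit 2) (.n (nat_lit 431) (nat_lit 2) (.p (nat_lit 435) (nat_lit 2) .z)))))))))))))))))))))))))))) (.ct dC2d_c293 (nat_lit 1) (nat_lit 14) (.s false (nat_lit 1) (nat_lit 18) (nat_lit 0) (nat_lit 18) (nat_lit 2) true (nat_lit 11) true (nat_lit 14) true (nat_lit 4) true (nat_lit 16) true (nat_lit 4) (.e false (nat_lit 3) (nat_lit 185) (nat_lit 5) (nat_lit 11) (.e false (nat_lit 1) (nat_lit 186) (nat_lit 5) (nat_lit 11) (.e true (nat_lit 3) (nat_lit 187) (nat_lit 5) (nat_lit 11) (.e true (nat_lit 3) (nat_lit 188) (nat_lit 5) (nat_lit 11) (.e false (nat_lit 2) (nat_lit 189) (nat_lit 5) (nat_lit 11) (.e true (nat_lit 3) (nat_lit 190) (nat_lit 5) (nat_lit 11) (.e true (nat_lit 1) (nat_lit 191) (nat_lit 5) (nat_lit 11) (.e false (nat_lit 1) (nat_lit 193) (nat_lit 5) (nat_lit 11) (.e false (nat_lit 1) (nat_lit 194) (nat_lit 5) (nat_lit 11) (.e false (nat_lit 1) (nat_lit 252) (nat_lit 2) (nat_lit 14) (.e false (nat_lit 2) (nat_lit 253) (nat_lit 2) (nat_lit 14) (.e false (nat_lit 2) (nat_lit 254) (nat_lit 2) (nat_lit 14) (.e true (nat_lit 3) (nat_lit 255) (nat_lit 2) (nat_lit 14) (.e false (nat_lit 3) (nat_lit 256) (nat_lit 2) (nat_lit 14) (.e true (nat_lit 1) (nat_lit 258) (nat_lit 2) (nat_lit 14) (.e true (nat_lit 3) (nat_lit 259) (nat_lit 2) (nat_lit 14) (.e false (nat_lit 3) (nat_lit 260) (nat_lit 2) (nat_lit 14) (.e true (nat_lit 1) (nat_lit 263) (nat_lit 2) (nat_lit 14) (.e false (nat_lit 1) (nat_lit 264) (nat_lit 2) (nat_lit 14) (.e true (nat_lit 2) (nat_lit 265) (nat_lit 2) (nat_lit 14) dC2d_i362)))))))))))))))))))))) .leaf) (nat_lit 285697) (nat_lit 891) (.p (nat_lit 376) (nat_lit 1) .z) .df (.nd .leaf (nat_lit 285698) (nat_lit 1196) (.p (nat_lit 433) (nat_lit 1) .z) .df .leaf))))))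

noncomputable def dC2d_t4 : Tr := (.nd (.nd (.nd (.nd (.nd (.nd (.nd .leaf (nat_lit 286722) (nat_lit 1363) (.p (nat_lit 397) (nat_lit 2) (.n (nat_lit 398) (nat_lit 2) (.p (nat_lit 399) (nat_lit 2) (.p (nat_lit 400) (nat_lit 1) (.n (nat_lit 401) (nat_lit 3) (.n (nat_lit 402) (nat_lit 1) (.n (nat_lit 403) (nat_lit 3) (.n (nat_lit 404) (nat_lit 3) (.n (nat_lit 405) (nat_lit 1) (.n (nat_lit 407) (nat_lit 2) (.p (nat_lit 408) (nat_lit 1) (.p (nat_lit 409) (nat_lit 1) (.n (nat_lit 410) (nat_lit 1) (.p (nat_lit 413) (nat_lit 1) (.p (nat_lit 414) (nat_lit 2) (.p (nat_lit 415) (nat_lit 3) (.n (nat_lit 416) (nat_lit 2) (.p (nat_lit 417) (nat_lit 1) (.n (nat_lit 418) (nat_lit 1) (.p (nat_lit 419) (nat_lit 1) (.n (nat_lit 420) (nat_lit 2) (.n (nat_lit 422) (nat_lit 1) (.n (nat_lit 423) (nat_lit 1) (.p (nat_lit 424) (nat_lit 1) (.p (nat_lit 427) (nat_lit 2) (.p (nat_lit 428) (nat_lit 1) (.p (nat_lit 430) (nat_lit 1) (.n (nat_lit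 431) (nat_lit 3) (.p (nat_lit 432) (nat_lit 2) .z))))))))))))))))))))))))))))) (.ct dC2d_c293 (nat_lit 1) (nat_lit 14) (.s true (nat_lit 3) (nat_lit 18) (nat_lit 17) (nat_lit 1) (nat_lit 2) false (nat_lit 0) true (nat_lit 14) true (nat_lit 4) true (nat_lit 5) true (nat_lit 15) (.e true (nat_lit 3) (nat_lit 43) (nat_lit 41) (nat_lit 0) (.e false (nat_lit 3) (nat_lit 252) (nat_lit 2) (nat_lit 14) (.e true (nat_lit 3) (nat_lit 253) (nat_lit 2) (nat_lit 14) (.e false (nat_lit 2) (nat_lit 257) (nat_lit 2) (nat_lit 14) (.e false (nat_lit 3) (nat_lit 258) (nat_lit 2) (nat_lit 14) (.e false (nat_lit 3) (nat_lit 259) (nat_lit 2) (nat_lit 14) (.e true (nat_lit 3) (nat_lit 260) (nat_lit 2) (nat_lit 14) (.e false (nat_lit 2) (nat_lit 262) (nat_lit 2) (nat_lit 14) (.e false (nat_lit 3) (nat_lit 264) (nat_lit 2) (nat_lit 14) (.e false (nat_lit 1) (nat_lit 272) (nat_lit 2) (nat_lit 14) (.e false (nat_lit 2) (nat_lit 275) (nat_lit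 2) (nat_lit 14) (.e false (nat_lit 1) (nat_lit 263) (nat_lit 2) (nat_lit 14) (.e true (nat_lit 1) (nat_lit 265) (nat_lit 2) (nat_lit 14) (.e true (nat_lit 3) (nat_lit 271) (nat_lit 2) (nat_lit 14) (.e false (nat_lit 3) (nat_lit 276) (nat_lit 2) (nat_lit 14) (.e false (nat_lit 1) (nat_lit 261) (nat_lit 2) (nat_lit 14) (.e true (nat_lit 1) (nat_lit 283) (nat_lit 2) (nat_lit 14) (.e false (nat_lit 1) (nat_lit 285) (nat_lit 2) (nat_lit 14) (.e false (nat_lit 1) (nat_lit 282) (nat_lit 2) (nat_lit 14) (.e true (nat_lit 2) (nat_lit 274) (nat_lit 2) (nat_lit 14) (.e true (nat_lit 2) (nat_lit 255) (nat_lit 2) (nat_lit 14) dC2d_i363))))))))))))))))))))))) .leaf) (nat_lit 287745) (nat_lit 893) (.p (nat_lit 378) (nat_lit 1) .z) .df .leaf) (nat_lit 287746) (nat_lit 1197) (.p (nat_lit 434) (nat_lit 1) .z) .df (.nd (.nd .leaf (nat_lit 288769) (nat_lit 894) (.p (nat_lit 379) (nat_lit 1) .z) .df .leaf) (nat_lit 288770) (nat_lit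 1211) (.n (nat_lit 397) (nat_lit 1) (.p (nat_lit 398) (nat_lit 1) (.p (nat_lit 399) (nat_lit 2) (.n (nat_lit 400) (nat_lit 2) (.n (nat_lit 401) (nat_lit 1) (.n (nat_lit 402) (nat_lit 3) (.p (nat_lit 403) (nat_lit 3) (.n (nat_lit 404) (nat_lit 2) (.p (nat_lit 406) (nat_lit 3) (.n (nat_lit 407) (nat_lit 1) (.p (nat_lit 408) (nat_lit 2) (.p (nat_lit 409) (nat_lit 1) (.p (nat_lit 410) (nat_lit 2) (.n (nat_lit 412) (nat_lit 2) (.n (nat_lit 413) (nat_lit 2) (.p (nat_lit 414) (nat_lit 3) (.n (nat_lit 415) (nat_lit 2) (.n (nat_lit 416) (nat_lit 3) (.p (nat_lit 418) (nat_lit 2) (.p (nat_lit 419) (nat_lit 1) (.n (nat_lit 423) (nat_lit 1) (.p (nat_lit 430) (nat_lit 2) (.n (nat_lit 431) (nat_lit 3) (.n (nat_lit 432) (nat_lit 3) (.p (nat_lit 435) (nat_lit 3) .z))))))))))))))))))))))))) (.ct dC2d_c293 (nat_lit 1) (nat_lit 14) (.s true (nat_lit 1) (nat_lit 7) (nat_lit 3) (nat_lit 7) (nat_lit 6) true (nat_lit 2) true (nat_lit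 10) true (nat_lit 9) true (nat_lit 13) true (nat_lit 9) (.s false (nat_lit 3) (nat_lit 7) (nat_lit 5) (nat_lit 4) (nat_lit 7) false (nat_lit 0) true (nat_lit 9) true (nat_lit 9) true (nat_lit 11) true (nat_lit 12) (.s true (nat_lit 3) (nat_lit 11) (nat_lit 1) (nat_lit 7) (nat_lit 7) true (nat_lit 4) true (nat_lit 9) true (nat_lit 7) true (nat_lit 15) true (nat_lit 9) (.s false (nat_lit 2) (nat_lit 11) (nat_lit 2) (nat_lit 7) (nat_lit 6) true (nat_lit 4) true (nat_lit 10) true (nat_lit 7) true (nat_lit 14) true (nat_lit 9) (.s false (nat_lit 2) (nat_lit 12) (nat_lit 6) (nat_lit 2) (nat_lit 7) false (nat_lit 1) true (nat_lit 9) true (nat_lit 7) true (nat_lit 10) true (nat_lit 14) (.s true (nat_lit 2) (nat_lit 14) (nat_lit 0) (nat_lit 7) (nat_lit 7) true (nat_lit 5) true (nat_lit 9) true (nat_lit 6) true (nat_lit 16) true (nat_lit 9) (.s false (nat_lit 3) (nat_lit 14) (nat_lit 2) (nat_lit 5) (nat_lit 7) true (nat_lit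 3) true (nat_lit 9) true (nat_lit 6) true (nat_lit 14) true (nat_lit 11) (.s false (nat_lit 1) (nat_lit 14) (nat_lit 7) (nat_lit 2) (nat_lit 5) false (nat_lit 0) true (nat_lit 11) true (nat_lit 6) true (nat_lit 9) true (nat_lit 14) (.s false (nat_lit 2) (nat_lit 16) (nat_lit 2) (nat_lit 2) (nat_lit 15) true (nat_lit 0) true (nat_lit 6) true (nat_lit 5) true (nat_lit 14) true (nat_lit 14) (.s true (nat_lit 3) (nat_lit 17) (nat_lit 2) (nat_lit 2) (nat_lit 14) true (nat_lit 0) true (nat_lit 6) true (nat_lit 5) true (nat_lit 14) true (nat_lit 14) (.s true (nat_lit 1) (nat_lit 17) (nat_lit 2) (nat_lit 2) (nat_lit 15) true (nat_lit 0) true (nat_lit 6) true (nat_lit 5) true (nat_lit 14) true (nat_lit 14) (.s false (nat_lit 2) (nat_lit 16) (nat_lit 2) (nat_lit 6) (nat_lit 6) true (nat_lit 4) true (nat_lit 10) true (nat_lit 5) true (nat_lit 14) true (nat_lit 10) (.s true (nat_lit 3) (nat_lit 17) (nat_lit 2) (nat_lit 15)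 (nat_lit 2) true (nat_lit 9) true (nat_lit 14) true (nat_lit 5) true (nat_lit 14) true (nat_lit 6) (.s true (nat_lit 1) (nat_lit 16) (nat_lit 14) (nat_lit 2) (nat_lit 2) true (nat_lit 0) true (nat_lit 14) true (nat_lit 5) true (nat_lit 6) true (nat_lit 14) (.s false (nat_lit 2) (nat_lit 16) (nat_lit 15) (nat_lit 2) (nat_lit 2) true (nat_lit 0) true (nat_lit 14) true (nat_lit 5) true (nat_lit 6) true (nat_lit 14) (.s true (nat_lit 1) (nat_lit 17) (nat_lit 14) (nat_lit 2) (nat_lit 2) true (nat_lit 0) true (nat_lit 14) true (nat_lit 5) true (nat_lit 6) true (nat_lit 14) (.s false (nat_lit 2) (nat_lit 18) (nat_lit 2) (nat_lit 2) (nat_lit 11) true (nat_lit 1) true (nat_lit 7) true (nat_lit 4) true (nat_lit 14) true (nat_lit 14) dC2d_i369)))))))))))))))))) .leaf)) (nat_lit 289793) (nat_lit 970) (.n (nat_lit 335) (nat_lit 1) (.p (nat_lit 336) (nat_lit 2) (.n (nat_lit 337) (nat_lit 3) (.p (nat_lit 338) (nat_lit 2) (.n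 (nat_lit 339) (nat_lit 3) (.n (nat_lit 340) (nat_lit 2) (.n (nat_lit 341) (nat_lit 3) (.p (nat_lit 343) (nat_lit 1) (.n (nat_lit 344) (nat_lit 1) (.n (nat_lit 345) (nat_lit 3) (.n (nat_lit 346) (nat_lit 2) (.n (nat_lit 347) (nat_lit 3) (.p (nat_lit 349) (nat_lit 2) (.p (nat_lit 350) (nat_lit 2) (.n (nat_lit 351) (nat_lit 1) (.n (nat_lit 352) (nat_lit 3) (.p (nat_lit 353) (nat_lit 1) (.n (nat_lit 355) (nat_lit 3) (.p (nat_lit 356) (nat_lit 1) (.n (nat_lit 357) (nat_lit 1) (.n (nat_lit 358) (nat_lit 3) (.p (nat_lit 359) (nat_lit 2) (.n (nat_lit 360) (nat_lit 3) (.n (nat_lit 361) (nat_lit 2) (.p (nat_lit 362) (nat_lit 3) (.n (nat_lit 363) (nat_lit 1) (.n (nat_lit 364) (nat_lit 2) (.p (nat_lit 366) (nat_lit 2) (.p (nat_lit 367) (nat_lit 1) (.n (nat_lit 368) (nat_lit 3) (.p (nat_lit 369) (nat_lit 3) (.n (nat_lit 370) (nat_lit 3) (.n (nat_lit 371) (nat_lit 3) (.p (nat_lit 372) (nat_lit 1) (.p (nat_lit 373) (nat_lit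 3) (.n (nat_lit 374) (nat_lit 2) .z)))))))))))))))))))))))))))))))))))) (.ct dC2d_c308 (nat_lit 1) (nat_lit 17) dC2d_i372) (.nd (.nd (.nd .leaf (nat_lit 289794) (nat_lit 1203) (.p (nat_lit 431) (nat_lit 1) .z) (.ct dC2d_c293 (nat_lit 1) (nat_lit 14) (.s false (nat_lit 3) (nat_lit 20) (nat_lit 8) (nat_lit 2) (nat_lit 2) true (nat_lit 2) true (nat_lit 14) true (nat_lit 3) true (nat_lit 8) true (nat_lit 14) (.s false (nat_lit 3) (nat_lit 24) (nat_lit 7) (nat_lit 2) (nat_lit 2) true (nat_lit 3) true (nat_lit 14) true (nat_lit 2) true (nat_lit 9) true (nat_lit 14) (.e true (nat_lit 3) (nat_lit 152) (nat_lit 7) (nat_lit 9) (.u (nat_lit 2) (.n (nat_lit 34) (nat_lit 1) (.p (nat_lit 235) (nat_lit 1) .z)) .nil))))) .leaf) (nat_lit 290817) (nat_lit 942) (.n (nat_lit 335) (nat_lit 2) (.p (nat_lit 336) (nat_lit 3) (.n (nat_lit 337) (nat_lit 1) (.n (nat_lit 338) (nat_lit 3) (.p (nat_lit 339) (nat_lit 1) (.p (nat_lit 340) (nat_lit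 3) (.n (nat_lit 342) (nat_lit 2) (.n (nat_lit 343) (nat_lit 3) (.p (nat_lit 344) (nat_lit 3) (.p (nat_lit 345) (nat_lit 2) (.p (nat_lit 346) (nat_lit 3) (.n (nat_lit 347) (nat_lit 1) (.n (nat_lit 349) (nat_lit 3) (.p (nat_lit 350) (nat_lit 2) (.p (nat_lit 352) (nat_lit 1) (.p (nat_lit 353) (nat_lit 2) (.n (nat_lit 354) (nat_lit 1) (.p (nat_lit 355) (nat_lit 2) (.n (nat_lit 356) (nat_lit 1) (.p (nat_lit 357) (nat_lit 1) (.n (nat_lit 358) (nat_lit 1) (.n (nat_lit 359) (nat_lit 1) (.n (nat_lit 360) (nat_lit 1) (.p (nat_lit 361) (nat_lit 1) (.n (nat_lit 362) (nat_lit 1) (.p (nat_lit 363) (nat_lit 2) (.n (nat_lit 364) (nat_lit 1) (.p (nat_lit 366) (nat_lit 3) (.n (nat_lit 367) (nat_lit 3) (.n (nat_lit 368) (nat_lit 2) (.p (nat_lit 369) (nat_lit 1) (.n (nat_lit 370) (nat_lit 1) (.n (nat_lit 371) (nat_lit 1) (.n (nat_lit 372) (nat_lit 1) (.p (nat_lit 373) (nat_lit 2) (.n (nat_lit 374) (nat_lit 3) .z))))))))))))))))))))))))))))))))))))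 (.ct dC2d_c308 (nat_lit 1) (nat_lit 17) (.s true (nat_lit 3) (nat_lit 7) (nat_lit 3) (nat_lit 7) (nat_lit 4) true (nat_lit 3) true (nat_lit 14) true (nat_lit 11) true (nat_lit 15) true (nat_lit 11) (.s true (nat_lit 2) (nat_lit 7) (nat_lit 6) (nat_lit 5) (nat_lit 4) true (nat_lit 1) true (nat_lit 14) true (nat_lit 11) true (nat_lit 12) true (nat_lit 13) dC2d_i382))) .leaf) (nat_lit 290818) (nat_lit 1202) (.p (nat_lit 432) (nat_lit 1) .z) (.ct dC2d_c293 (nat_lit 1) (nat_lit 14) (.s false (nat_lit 3) (nat_lit 20) (nat_lit 9) (nat_lit 2) (nat_lit 2) true (nat_lit 2) true (nat_lit 14) true (nat_lit 3) true (nat_lit 8) true (nat_lit 14) (.s false (nat_lit 3) (nat_lit 25) (nat_lit 7) (nat_lit 2) (nat_lit 2) true (nat_lit 3) true (nat_lit 14) true (nat_lit 2) true (nat_lit 9) true (nat_lit 14) (.e true (nat_lit 3) (nat_lit 153) (nat_lit 7) (nat_lit 9) (.u (nat_lit 2) (.n (nat_lit 35) (nat_lit 1) (.p (nat_lit 236) (nat_lit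 1) .z)) .nil))))) (.nd (.nd .leaf (nat_lit 291841) (nat_lit 931) (.p (nat_lit 335) (nat_lit 1) (.n (nat_lit 336) (nat_lit 3) (.p (nat_lit 337) (nat_lit 1) (.n (nat_lit 338) (nat_lit 2) (.p (nat_lit 339) (nat_lit 3) (.p (nat_lit 340) (nat_lit 2) (.p (nat_lit 341) (nat_lit 2) (.n (nat_lit 342) (nat_lit 2) (.p (nat_lit 343) (nat_lit 1) (.n (nat_lit 344) (nat_lit 1) (.n (nat_lit 345) (nat_lit 3) (.p (nat_lit 346) (nat_lit 2) (.p (nat_lit 347) (nat_lit 1) (.p (nat_lit 349) (nat_lit 1) (.n (nat_lit 350) (nat_lit 3) (.n (nat_lit 351) (nat_lit 1) (.n (nat_lit 352) (nat_lit 3) (.n (nat_lit 353) (nat_lit 1) (.n (nat_lit 354) (nat_lit 1) (.n (nat_lit 356) (nat_lit 1) (.p (nat_lit 357) (nat_lit 1) (.p (nat_lit 358) (nat_lit 3) (.n (nat_lit 359) (nat_lit 2) (.p (nat_lit 360) (nat_lit 3) (.n (nat_lit 361) (nat_lit 2) (.p (nat_lit 362) (nat_lit 1) (.p (nat_lit 363) (nat_lit 2) (.p (nat_lit 364) (nat_lit 2) (.n (nat_lit 366)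 (nat_lit 2) (.n (nat_lit 367) (nat_lit 1) (.p (nat_lit 368) (nat_lit 3) (.n (nat_lit 369) (nat_lit 3) (.p (nat_lit 370) (nat_lit 3) (.n (nat_lit 371) (nat_lit 1) (.n (nat_lit 372) (nat_lit 1) (.n (nat_lit 373) (nat_lit 3) (.n (nat_lit 374) (nat_lit 1) .z))))))))))))))))))))))))))))))))))))) (.ct dC2d_c308 (nat_lit 1) (nat_lit 17) (.s false (nat_lit 2) (nat_lit 7) (nat_lit 3) (nat_lit 7) (nat_lit 4) true (nat_lit 3) true (nat_lit 14) true (nat_lit 11) true (nat_lit 15) true (nat_lit 11) (.s false (nat_lit 2) (nat_lit 8) (nat_lit 1) (nat_lit 7) (nat_lit 7) true (nat_lit 5) true (nat_lit 11) true (nat_lit 10) true (nat_lit 17) true (nat_lit 11) (.s true (nat_lit 2) (nat_lit 8) (nat_lit 6) (nat_lit 2) (nat_lit 7) false (nat_lit 2) true (nat_lit 11) true (nat_lit 10) true (nat_lit 12) true (nat_lit 16) (.s true (nat_lit 1) (nat_lit 9) (nat_lit 6) (nat_lit 2) (nat_lit 7) false (nat_lit 2) true (nat_lit 11) true (nat_lit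 10) true (nat_lit 12) true (nat_lit 16) (.s true (nat_lit 2) (nat_lit 9) (nat_lit 7) (nat_lit 1) (nat_lit 7) false (nat_lit 3) true (nat_lit 11) true (nat_lit 10) true (nat_lit 11) true (nat_lit 17) (.s true (nat_lit 3) (nat_lit 9) (nat_lit 7) (nat_lit 6) (nat_lit 2) true (nat_lit 4) true (nat_lit 16) true (nat_lit 10) true (nat_lit 11) true (nat_lit 12) (.s true (nat_lit 3) (nat_lit 10) (nat_lit 0) (nat_lit 7) (nat_lit 7) true (nat_lit 6) true (nat_lit 11) true (nat_lit 9) true (nat_lit 18) true (nat_lit 11) (.s false (nat_lit 3) (nat_lit 10) (nat_lit 5) (nat_lit 2) (nat_lit 7) false (nat_lit 1) true (nat_lit 11) true (nat_lit 9) true (nat_lit 13) true (nat_lit 16) (.s false (nat_lit 3) (nat_lit 10) (nat_lit 7) (nat_lit 0) (nat_lit 7) false (nat_lit 3) true (nat_lit 11) true (nat_lit 9) true (nat_lit 11) true (nat_lit 18) dC2d_i391)))))))))) .leaf) (nat_lit 291842) (nat_lit 1204) (.p (nat_lit 397) (nat_lit 1)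 (.p (nat_lit 398) (nat_lit 3) (.p (nat_lit 399) (nat_lit 3) (.p (nat_lit 400) (nat_lit 1) (.n (nat_lit 402) (nat_lit 3) (.p (nat_lit 403) (nat_lit 1) (.n (nat_lit 404) (nat_lit 1) (.n (nat_lit 405) (nat_lit 1) (.p (nat_lit 406) (nat_lit 2) (.p (nat_lit 407) (nat_lit 2) (.p (nat_lit 408) (nat_lit 2) (.p (nat_lit 410) (nat_lit 3) (.p (nat_lit 411) (nat_lit 1) (.n (nat_lit 412) (nat_lit 2) (.n (nat_lit 413) (nat_lit 2) (.n (nat_lit 415) (nat_lit 3) (.n (nat_lit 416) (nat_lit 3) (.n (nat_lit 418) (nat_lit 2) (.p (nat_lit 420) (nat_lit 3) (.n (nat_lit 421) (nat_lit 2) (.p (nat_lit 422) (nat_lit 2) (.p (nat_lit 435) (nat_lit 2) .z)))))))))))))))))))))) (.ct dC2d_c293 (nat_lit 1) (nat_lit 14) (.s true (nat_lit 1) (nat_lit 7) (nat_lit 3) (nat_lit 7) (nat_lit 6) true (nat_lit 2) true (nat_lit 10) true (nat_lit 9) true (nat_lit 13) true (nat_lit 9) (.s true (nat_lit 1) (nat_lit 7) (nat_lit 4) (nat_lit 7) (nat_lit 5) true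 (nat_lit 2) true (nat_lit 11) true (nat_lit 9) true (nat_lit 12) true (nat_lit 9) (.s false (nat_lit 2) (nat_lit 11) (nat_lit 1) (nat_lit 7) (nat_lit 7) true (nat_lit 4) true (nat_lit 9) true (nat_lit 7) true (nat_lit 15) true (nat_lit 9) (.s true (nat_lit 1) (nat_lit 12) (nat_lit 1) (nat_lit 7) (nat_lit 7) true (nat_lit 4) true (nat_lit 9) true (nat_lit 7) true (nat_lit 15) true (nat_lit 9) (.s true (nat_lit 3) (nat_lit 11) (nat_lit 2) (nat_lit 7) (nat_lit 6) true (nat_lit 4) true (nat_lit 10) true (nat_lit 7) true (nat_lit 14) true (nat_lit 9) (.s false (nat_lit 1) (nat_lit 12) (nat_lit 2) (nat_lit 7) (nat_lit 6) true (nat_lit 4) true (nat_lit 10) true (nat_lit 7) true (nat_lit 14) true (nat_lit 9) (.s false (nat_lit 3) (nat_lit 12) (nat_lit 6) (nat_lit 2) (nat_lit 7) false (nat_lit 1) true (nat_lit 9) true (nat_lit 7) true (nat_lit 10) true (nat_lit 14) (.s false (nat_lit 1) (nat_lit 13) (nat_lit 7) (nat_lit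 1) (nat_lit 7) false (nat_lit 2) true (nat_lit 9) true (nat_lit 7) true (nat_lit 9) true (nat_lit 15) (.s true (nat_lit 3) (nat_lit 13) (nat_lit 7) (nat_lit 2) (nat_lit 6) false (nat_lit 1) true (nat_lit 10) true (nat_lit 7) true (nat_lit 9) true (nat_lit 14) (.s false (nat_lit 2) (nat_lit 11) (nat_lit 7) (nat_lit 7) (nat_lit 1) true (nat_lit 4) true (nat_lit 15) true (nat_lit 7) true (nat_lit 9) true (nat_lit 9) (.s false (nat_lit 2) (nat_lit 12) (nat_lit 7) (nat_lit 7) (nat_lit 1) true (nat_lit 4) true (nat_lit 15) true (nat_lit 7) true (nat_lit 9) true (nat_lit 9) (.s false (nat_lit 2) (nat_lit 15) (nat_lit 2) (nat_lit 5) (nat_lit 7) true (nat_lit 3) true (nat_lit 9) true (nat_lit 6) true (nat_lit 14) true (nat_lit 11) (.s true (nat_lit 1) (nat_lit 17) (nat_lit 2) (nat_lit 2) (nat_lit 14) true (nat_lit 0) true (nat_lit 6) true (nat_lit 5) true (nat_lit 14) true (nat_lit 14) (.s false (nat_lit 3) (nat_lit 16)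 (nat_lit 2) (nat_lit 6) (nat_lit 6) true (nat_lit 4) true (nat_lit 10) true (nat_lit 5) true (nat_lit 14) true (nat_lit 10) (.s false (nat_lit 1) (nat_lit 17) (nat_lit 2) (nat_lit 7) (nat_lit 4) true (nat_lit 6) true (nat_lit 12) true (nat_lit 5) true (nat_lit 14) true (nat_lit 9) (.s true (nat_lit 3) (nat_lit 16) (nat_lit 2) (nat_lit 15) (nat_lit 2) true (nat_lit 9) true (nat_lit 14) true (nat_lit 5) true (nat_lit 14) true (nat_lit 6) (.s false (nat_lit 2) (nat_lit 16) (nat_lit 15) (nat_lit 2) (nat_lit 2) true (nat_lit 0) true (nat_lit 14) true (nat_lit 5) true (nat_lit 6) true (nat_lit 14) (.s false (nat_lit 3) (nat_lit 17) (nat_lit 14) (nat_lit 2) (nat_lit 2) true (nat_lit 0) true (nat_lit 14) true (nat_lit 5) true (nat_lit 6) true (nat_lit 14) (.s true (nat_lit 2) (nat_lit 18) (nat_lit 0) (nat_lit 2) (nat_lit 18) true (nat_lit 1) true (nat_lit 4) true (nat_lit 4) true (nat_lit 16) true (nat_lit 14) (.s false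 (nat_lit 2) (nat_lit 18) (nat_lit 2) (nat_lit 0) (nat_lit 18) false (nat_lit 1) true (nat_lit 4) true (nat_lit 4) true (nat_lit 14) true (nat_lit 16) dC2d_i397))))))))))))))))))))) .leaf))) (nat_lit 292865) (nat_lit 946) (.p (nat_lit 336) (nat_lit 3) (.n (nat_lit 337) (nat_lit 1) (.p (nat_lit 341) (nat_lit 3) (.n (nat_lit 342) (nat_lit 1) (.p (nat_lit 343) (nat_lit 1) (.n (nat_lit 344) (nat_lit 1) (.n (nat_lit 345) (nat_lit 3) (.n (nat_lit 347) (nat_lit 1) (.p (nat_lit 349) (nat_lit 2) (.p (nat_lit 351) (nat_lit 3) (.p (nat_lit 352) (nat_lit 1) (.p (nat_lit 353) (nat_lit 1) (.n (nat_lit 354) (nat_lit 3) (.p (nat_lit 355) (nat_lit 1) (.p (nat_lit 356) (nat_lit 2) (.n (nat_lit 357) (nat_lit 2) (.p (nat_lit 358) (nat_lit 3) (.p (nat_lit 359) (nat_lit 1) (.n (nat_lit 360) (nat_lit 1) (.n (nat_lit 361) (nat_lit 3) (.p (nat_lit 362) (nat_lit 2) (.p (nat_lit 363) (nat_lit 2) (.p (nat_lit 364) (nat_lit 3) (.p (nat_lit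 366) (nat_lit 1) (.p (nat_lit 367) (nat_lit 2) (.n (nat_lit 368) (nat_lit 1) (.p (nat_lit 369) (nat_lit 2) (.n (nat_lit 370) (nat_lit 1) (.p (nat_lit 371) (nat_lit 2) (.n (nat_lit 372) (nat_lit 2) (.p (nat_lit 373) (nat_lit 1) (.p (nat_lit 374) (nat_lit 2) .z)))))))))))))))))))))))))))))))) (.ct dC2d_c308 (nat_lit 1) (nat_lit 17) (.s true (nat_lit 2) (nat_lit 8) (nat_lit 2) (nat_lit 7) (nat_lit 6) true (nat_lit 5) true (nat_lit 12) true (nat_lit 10) true (nat_lit 16) true (nat_lit 11) (.s true (nat_lit 3) (nat_lit 8) (nat_lit 6) (nat_lit 2) (nat_lit 7) false (nat_lit 2) true (nat_lit 11) true (nat_lit 10) true (nat_lit 12) true (nat_lit 16) (.s false (nat_lit 1) (nat_lit 9) (nat_lit 7) (nat_lit 1) (nat_lit 7) false (nat_lit 3) true (nat_lit 11) true (nat_lit 10) true (nat_lit 11) true (nat_lit 17) (.s true (nat_lit 3) (nat_lit 10) (nat_lit 5) (nat_lit 2) (nat_lit 7) false (nat_lit 1) true (nat_lit 11) true (nat_lit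 9) true (nat_lit 13) true (nat_lit 16) (.s true (nat_lit 1) (nat_lit 10) (nat_lit 7) (nat_lit 0) (nat_lit 7) false (nat_lit 3) true (nat_lit 11) true (nat_lit 9) true (nat_lit 11) true (nat_lit 18) (.s false (nat_lit 2) (nat_lit 10) (nat_lit 7) (nat_lit 7) (nat_lit 0) true (nat_lit 6) true (nat_lit 18) true (nat_lit 9) true (nat_lit 11) true (nat_lit 11) (.s false (nat_lit 3) (nat_lit 12) (nat_lit 1) (nat_lit 6) (nat_lit 7) true (nat_lit 5) true (nat_lit 11) true (nat_lit 8) true (nat_lit 17) true (nat_lit 12) (.s false (nat_lit 1) (nat_lit 11) (nat_lit 1) (nat_lit 7) (nat_lit 6) true (nat_lit 7) true (nat_lit 12) true (nat_lit 8) true (nat_lit 17) true (nat_lit 11) (.s true (nat_lit 1) (nat_lit 11) (nat_lit 6) (nat_lit 6) (nat_lit 2) true (nat_lit 5) true (nat_lit 16) true (nat_lit 8) true (nat_lit 12) true (nat_lit 12) (.s true (nat_lit 3) (nat_lit 12) (nat_lit 6) (nat_lit 6) (nat_lit 2) true (nat_lit 5) true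 (nat_lit 16) true (nat_lit 8) true (nat_lit 12) true (nat_lit 12) (.s true (nat_lit 1) (nat_lit 15) (nat_lit 2) (nat_lit 2) (nat_lit 12) true (nat_lit 0) true (nat_lit 8) true (nat_lit 7) true (nat_lit 16) true (nat_lit 16) (.s false (nat_lit 1) (nat_lit 15) (nat_lit 2) (nat_lit 11) (nat_lit 2) true (nat_lit 11) true (nat_lit 16) true (nat_lit 7) true (nat_lit 16) true (nat_lit 8) (.s true (nat_lit 3) (nat_lit 14) (nat_lit 12) (nat_lit 2) (nat_lit 2) true (nat_lit 0) true (nat_lit 16) true (nat_lit 7) true (nat_lit 8) true (nat_lit 16) (.s false (nat_lit 2) (nat_lit 16) (nat_lit 10) (nat_lit 2) (nat_lit 2) true (nat_lit 1) true (nat_lit 16) true (nat_lit 6) true (nat_lit 9) true (nat_lit 16) (.s true (nat_lit 3) (nat_lit 18) (nat_lit 1) (nat_lit 0) (nat_lit 18) false (nat_lit 0) true (nat_lit 5) true (nat_lit 5) true (nat_lit 17) true (nat_lit 18) (.s true (nat_lit 2) (nat_lit 18) (nat_lit 1) (nat_lit 2) (nat_lit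 11) true (nat_lit 2) true (nat_lit 8) true (nat_lit 5) true (nat_lit 17) true (nat_lit 16) (.s false (nat_lit 1) (nat_lit 18) (nat_lit 1) (nat_lit 2) (nat_lit 12) true (nat_lit 2) true (nat_lit 8) true (nat_lit 5) true (nat_lit 17) true (nat_lit 16) (.s false (nat_lit 3) (nat_lit 19) (nat_lit 1) (nat_lit 2) (nat_lit 12) true (nat_lit 2) true (nat_lit 8) true (nat_lit 5) true (nat_lit 17) true (nat_lit 16) dC2d_i404))))))))))))))))))) (.nd (.nd (.nd (.nd .leaf (nat_lit 292866) (nat_lit 1248) (.p (nat_lit 397) (nat_lit 3) (.p (nat_lit 398) (nat_lit 1) (.p (nat_lit 400) (nat_lit 2) (.p (nat_lit 401) (nat_lit 3) (.n (nat_lit 403) (nat_lit 1) (.p (nat_lit 404) (nat_lit 2) (.n (nat_lit 405) (nat_lit 3) (.n (nat_lit 406) (nat_lit 2) (.n (nat_lit 407) (nat_lit 2) (.n (nat_lit 408) (nat_lit 3) (.n (nat_lit 409) (nat_lit 1) (.n (nat_lit 410) (nat_lit 1) (.p (nat_lit 411) (nat_lit 1) (.p (nat_lit 412) (nat_lit 3) (.p (nat_lit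 413) (nat_lit 3) (.n (nat_lit 414) (nat_lit 2) (.p (nat_lit 415) (nat_lit 2) (.p (nat_lit 416) (nat_lit 3) (.p (nat_lit 418) (nat_lit 3) (.p (nat_lit 421) (nat_lit 2) (.p (nat_lit 423) (nat_lit 2) (.n (nat_lit 431) (nat_lit 3) (.p (nat_lit 432) (nat_lit 2) (.p (nat_lit 435) (nat_lit 2) .z)))))))))))))))))))))))) (.ct dC2d_c293 (nat_lit 1) (nat_lit 14) (.s false (nat_lit 2) (nat_lit 12) (nat_lit 1) (nat_lit 7) (nat_lit 7) true (nat_lit 4) true (nat_lit 9) true (nat_lit 7) true (nat_lit 15) true (nat_lit 9) (.s true (nat_lit 1) (nat_lit 12) (nat_lit 2) (nat_lit 6) (nat_lit 7) true (nat_lit 3) true (nat_lit 9) true (nat_lit 7) true (nat_lit 14) true (nat_lit 10) (.s false (nat_lit 3) (nat_lit 12) (nat_lit 7) (nat_lit 2) (nat_lit 6) false (nat_lit 1) true (nat_lit 10) true (nat_lit 7) true (nat_lit 9) true (nat_lit 14) (.s true (nat_lit 3) (nat_lit 12) (nat_lit 7) (nat_lit 7) (nat_lit 1) true (nat_lit 4) true (nat_lit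 15) true (nat_lit 7) true (nat_lit 9) true (nat_lit 9) (.s true (nat_lit 2) (nat_lit 19) (nat_lit 2) (nat_lit 2) (nat_lit 12) true (nat_lit 1) true (nat_lit 7) true (nat_lit 4) true (nat_lit 14) true (nat_lit 14) (.s true (nat_lit 3) (nat_lit 19) (nat_lit 2) (nat_lit 2) (nat_lit 13) true (nat_lit 1) true (nat_lit 7) true (nat_lit 4) true (nat_lit 14) true (nat_lit 14) (.s false (nat_lit 3) (nat_lit 18) (nat_lit 13) (nat_lit 2) (nat_lit 2) true (nat_lit 1) true (nat_lit 14) true (nat_lit 4) true (nat_lit 7) true (nat_lit 14) (.s true (nat_lit 3) (nat_lit 20) (nat_lit 1) (nat_lit 12) (nat_lit 2) true (nat_lit 10) true (nat_lit 14) true (nat_lit 3) true (nat_lit 15) true (nat_lit 7) (.s false (nat_lit 1) (nat_lit 20) (nat_lit 1) (nat_lit 13) (nat_lit 2) true (nat_lit 10) true (nat_lit 14) true (nat_lit 3) true (nat_lit 15) true (nat_lit 7) (.s true (nat_lit 2) (nat_lit 20) (nat_lit 2) (nat_lit 1) (nat_lit 12) true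 (nat_lit 1) true (nat_lit 7) true (nat_lit 3) true (nat_lit 14) true (nat_lit 15) (.s false (nat_lit 2) (nat_lit 20) (nat_lit 2) (nat_lit 13) (nat_lit 1) true (nat_lit 10) true (nat_lit 15) true (nat_lit 3) true (nat_lit 14) true (nat_lit 7) (.s false (nat_lit 3) (nat_lit 20) (nat_lit 13) (nat_lit 1) (nat_lit 2) true (nat_lit 1) true (nat_lit 14) true (nat_lit 3) true (nat_lit 7) true (nat_lit 15) (.s true (nat_lit 1) (nat_lit 25) (nat_lit 2) (nat_lit 2) (nat_lit 7) true (nat_lit 3) true (nat_lit 9) true (nat_lit 2) true (nat_lit 14) true (nat_lit 14) (.s true (nat_lit 1) (nat_lit 27) (nat_lit 2) (nat_lit 2) (nat_lit 7) true (nat_lit 3) true (nat_lit 9) true (nat_lit 2) true (nat_lit 14) true (nat_lit 14) (.s false (nat_lit 2) (nat_lit 28) (nat_lit 2) (nat_lit 2) (nat_lit 7) true (nat_lit 3) true (nat_lit 9) true (nat_lit 2) true (nat_lit 14) true (nat_lit 14) dC2d_i407)))))))))))))))) .leaf) (nat_lit 293889)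 (nat_lit 956) (.p (nat_lit 335) (nat_lit 3) (.n (nat_lit 336) (nat_lit 1) (.n (nat_lit 337) (nat_lit 2) (.p (nat_lit 338) (nat_lit 1) (.p (nat_lit 339) (nat_lit 2) (.n (nat_lit 340) (nat_lit 1) (.p (nat_lit 342) (nat_lit 3) (.p (nat_lit 343) (nat_lit 1) (.n (nat_lit 344) (nat_lit 1) (.n (nat_lit 345) (nat_lit 3) (.n (nat_lit 346) (nat_lit 1) (.n (nat_lit 347) (nat_lit 2) (.n (nat_lit 349) (nat_lit 1) (.p (nat_lit 350) (nat_lit 3) (.p (nat_lit 351) (nat_lit 1) (.n (nat_lit 353) (nat_lit 3) (.p (nat_lit 354) (nat_lit 2) (.p (nat_lit 355) (nat_lit 3) (.n (nat_lit 356) (nat_lit 3) (.p (nat_lit 357) (nat_lit 3) (.p (nat_lit 358) (nat_lit 2) (.p (nat_lit 359) (nat_lit 1) (.p (nat_lit 360) (nat_lit 2) (.p (nat_lit 361) (nat_lit 1) (.n (nat_lit 364) (nat_lit 1) (.p (nat_lit 366) (nat_lit 1) (.n (nat_lit 367) (nat_lit 3) (.p (nat_lit 368) (nat_lit 2) (.p (nat_lit 369) (nat_lit 1) (.p (nat_lit 370) (nat_lit 2) (.n (nat_lit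 371) (nat_lit 3) (.n (nat_lit 372) (nat_lit 3) (.n (nat_lit 373) (nat_lit 2) (.n (nat_lit 374) (nat_lit 3) (.p (nat_lit 375) (nat_lit 1) .z))))))))))))))))))))))))))))))))))) (.ct dC2d_c308 (nat_lit 1) (nat_lit 17) (.s false (nat_lit 1) (nat_lit 8) (nat_lit 6) (nat_lit 2) (nat_lit 7) false (nat_lit 2) true (nat_lit 11) true (nat_lit 10) true (nat_lit 12) true (nat_lit 16) (.s false (nat_lit 1) (nat_lit 9) (nat_lit 7) (nat_lit 1) (nat_lit 7) false (nat_lit 3) true (nat_lit 11) true (nat_lit 10) true (nat_lit 11) true (nat_lit 17) (.s false (nat_lit 3) (nat_lit 10) (nat_lit 7) (nat_lit 5) (nat_lit 2) true (nat_lit 4) true (nat_lit 16) true (nat_lit 9) true (nat_lit 11) true (nat_lit 13) (.s true (nat_lit 3) (nat_lit 17) (nat_lit 2) (nat_lit 2) (nat_lit 10) true (nat_lit 1) true (nat_lit 9) true (nat_lit 6) true (nat_lit 16) true (nat_lit 16) (.s false (nat_lit 1) (nat_lit 16) (nat_lit 10) (nat_lit 2) (nat_lit 2)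 true (nat_lit 1) true (nat_lit 16) true (nat_lit 6) true (nat_lit 9) true (nat_lit 16) (.s false (nat_lit 1) (nat_lit 18) (nat_lit 2) (nat_lit 2) (nat_lit 8) true (nat_lit 2) true (nat_lit 10) true (nat_lit 5) true (nat_lit 16) true (nat_lit 16) (.s true (nat_lit 2) (nat_lit 19) (nat_lit 2) (nat_lit 2) (nat_lit 8) true (nat_lit 2) true (nat_lit 10) true (nat_lit 5) true (nat_lit 16) true (nat_lit 16) (.s false (nat_lit 1) (nat_lit 18) (nat_lit 2) (nat_lit 9) (nat_lit 2) true (nat_lit 11) true (nat_lit 16) true (nat_lit 5) true (nat_lit 16) true (nat_lit 10) (.s true (nat_lit 1) (nat_lit 19) (nat_lit 2) (nat_lit 9) (nat_lit 2) true (nat_lit 11) true (nat_lit 16) true (nat_lit 5) true (nat_lit 16) true (nat_lit 10) (.s false (nat_lit 3) (nat_lit 18) (nat_lit 8) (nat_lit 2) (nat_lit 2) true (nat_lit 2) true (nat_lit 16) true (nat_lit 5) true (nat_lit 10) true (nat_lit 16) (.s false (nat_lit 3) (nat_lit 20) (nat_lit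 0) (nat_lit 10) (nat_lit 2) true (nat_lit 13) true (nat_lit 16) true (nat_lit 4) true (nat_lit 18) true (nat_lit 9) (.s true (nat_lit 3) (nat_lit 20) (nat_lit 1) (nat_lit 8) (nat_lit 2) true (nat_lit 12) true (nat_lit 16) true (nat_lit 4) true (nat_lit 17) true (nat_lit 10) (.s false (nat_lit 1) (nat_lit 20) (nat_lit 2) (nat_lit 1) (nat_lit 8) true (nat_lit 2) true (nat_lit 10) true (nat_lit 4) true (nat_lit 16) true (nat_lit 17) (.s false (nat_lit 3) (nat_lit 20) (nat_lit 2) (nat_lit 8) (nat_lit 1) true (nat_lit 12) true (nat_lit 17) true (nat_lit 4) true (nat_lit 16) true (nat_lit 10) (.s true (nat_lit 3) (nat_lit 20) (nat_lit 8) (nat_lit 1) (nat_lit 2) true (nat_lit 2) true (nat_lit 16) true (nat_lit 4) true (nat_lit 10) true (nat_lit 17) (.s true (nat_lit 1) (nat_lit 20) (nat_lit 9) (nat_lit 1) (nat_lit 2) true (nat_lit 2) true (nat_lit 16) true (nat_lit 4) true (nat_lit 10) true (nat_lit 17) dC2d_i411)))))))))))))))))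 .leaf) (nat_lit 293890) (nat_lit 1376) (.n (nat_lit 398) (nat_lit 2) (.p (nat_lit 399) (nat_lit 2) (.p (nat_lit 400) (nat_lit 3) (.n (nat_lit 401) (nat_lit 3) (.p (nat_lit 402) (nat_lit 1) (.n (nat_lit 403) (nat_lit 3) (.n (nat_lit 404) (nat_lit 1) (.n (nat_lit 405) (nat_lit 3) (.p (nat_lit 406) (nat_lit 1) (.p (nat_lit 408) (nat_lit 3) (.n (nat_lit 409) (nat_lit 2) (.p (nat_lit 410) (nat_lit 2) (.n (nat_lit 411) (nat_lit 1) (.p (nat_lit 412) (nat_lit 3) (.n (nat_lit 413) (nat_lit 2) (.p (nat_lit 414) (nat_lit 3) (.p (nat_lit 416) (nat_lit 1) (.p (nat_lit 417) (nat_lit 1) (.n (nat_lit 418) (nat_lit 1) (.p (nat_lit 419) (nat_lit 1) (.n (nat_lit 420) (nat_lit 1) (.p (nat_lit 421) (nat_lit 3) (.n (nat_lit 422) (nat_lit 1) (.p (nat_lit 424) (nat_lit 2) (.p (nat_lit 427) (nat_lit 3) (.p (nat_lit 431) (nat_lit 2) (.p (nat_lit 435) (nat_lit 1) .z))))))))))))))))))))))))))) (.ct dC2d_c293 (nat_lit 1) (nat_lit 14) (.s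 false (nat_lit 1) (nat_lit 80) (nat_lit 2) (nat_lit 1) (nat_lit 2) true (nat_lit 9) true (nat_lit 14) false (nat_lit 4) true (nat_lit 14) true (nat_lit 15) (.e false (nat_lit 1) (nat_lit 146) (nat_lit 7) (nat_lit 9) (.e false (nat_lit 1) (nat_lit 278) (nat_lit 2) (nat_lit 14) (.e true (nat_lit 1) (nat_lit 80) (nat_lit 18) (nat_lit 4) (.e true (nat_lit 1) (nat_lit 305) (nat_lit 1) (nat_lit 15) (.u (nat_lit 2) (.n (nat_lit 2) (nat_lit 1) (.n (nat_lit 3) (nat_lit 1) (.p (nat_lit 4) (nat_lit 1) (.n (nat_lit 13) (nat_lit 1) (.n (nat_lit 15) (nat_lit 1) (.n (nat_lit 24) (nat_lit 1) (.n (nat_lit 34) (nat_lit 1) .z))))))) .nil))))))) (.nd (.nd .leaf (nat_lit 294913) (nat_lit 944) (.n (nat_lit 335) (nat_lit 2) (.p (nat_lit 336) (nat_lit 2) (.n (nat_lit 337) (nat_lit 3) (.n (nat_lit 338) (nat_lit 3) (.p (nat_lit 339) (nat_lit 1) (.p (nat_lit 340) (nat_lit 3) (.n (nat_lit 341) (nat_lit 1) (.p (nat_lit 342) (nat_lit 3) (.n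 (nat_lit 343) (nat_lit 1) (.p (nat_lit 344) (nat_lit 1) (.p (nat_lit 345) (nat_lit 3) (.p (nat_lit 346) (nat_lit 3) (.n (nat_lit 347) (nat_lit 3) (.n (nat_lit 349) (nat_lit 2) (.p (nat_lit 350) (nat_lit 3) (.p (nat_lit 351) (nat_lit 3) (.n (nat_lit 354) (nat_lit 1) (.p (nat_lit 355) (nat_lit 2) (.p (nat_lit 358) (nat_lit 2) (.p (nat_lit 359) (nat_lit 2) (.p (nat_lit 360) (nat_lit 1) (.n (nat_lit 361) (nat_lit 2) (.n (nat_lit 362) (nat_lit 3) (.p (nat_lit 363) (nat_lit 2) (.p (nat_lit 364) (nat_lit 1) (.p (nat_lit 366) (nat_lit 3) (.n (nat_lit 368) (nat_lit 2) (.n (nat_lit 369) (nat_lit 3) (.n (nat_lit 370) (nat_lit 2) (.p (nat_lit 371) (nat_lit 3) (.n (nat_lit 372) (nat_lit 3) (.p (nat_lit 373) (nat_lit 2) (.n (nat_lit 374) (nat_lit 3) (.p (nat_lit 376) (nat_lit 1) .z)))))))))))))))))))))))))))))))))) (.ct dC2d_c308 (nat_lit 1) (nat_lit 17) (.s true (nat_lit 1) (nat_lit 8) (nat_lit 2) (nat_lit 7) (nat_lit 6) true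 (nat_lit 5) true (nat_lit 12) true (nat_lit 10) true (nat_lit 16) true (nat_lit 11) (.s true (nat_lit 3) (nat_lit 8) (nat_lit 6) (nat_lit 2) (nat_lit 7) false (nat_lit 2) true (nat_lit 11) true (nat_lit 10) true (nat_lit 12) true (nat_lit 16) (.s false (nat_lit 3) (nat_lit 9) (nat_lit 7) (nat_lit 1) (nat_lit 7) false (nat_lit 3) true (nat_lit 11) true (nat_lit 10) true (nat_lit 11) true (nat_lit 17) (.s true (nat_lit 1) (nat_lit 9) (nat_lit 7) (nat_lit 6) (nat_lit 2) true (nat_lit 4) true (nat_lit 16) true (nat_lit 10) true (nat_lit 11) true (nat_lit 12) (.s true (nat_lit 2) (nat_lit 11) (nat_lit 1) (nat_lit 7) (nat_lit 6) true (nat_lit 7) true (nat_lit 12) true (nat_lit 8) true (nat_lit 17) true (nat_lit 11) (.s false (nat_lit 1) (nat_lit 12) (nat_lit 2) (nat_lit 7) (nat_lit 4) true (nat_lit 7) true (nat_lit 14) true (nat_lit 8) true (nat_lit 16) true (nat_lit 11) (.s false (nat_lit 2) (nat_lit 12) (nat_lit 6)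 (nat_lit 6) (nat_lit 2) true (nat_lit 5) true (nat_lit 16) true (nat_lit 8) true (nat_lit 12) true (nat_lit 12) (.s false (nat_lit 1) (nat_lit 14) (nat_lit 2) (nat_lit 2) (nat_lit 11) true (nat_lit 0) true (nat_lit 8) true (nat_lit 7) true (nat_lit 16) true (nat_lit 16) (.s false (nat_lit 1) (nat_lit 14) (nat_lit 2) (nat_lit 2) (nat_lit 12) true (nat_lit 0) true (nat_lit 8) true (nat_lit 7) true (nat_lit 16) true (nat_lit 16) (.s false (nat_lit 2) (nat_lit 14) (nat_lit 2) (nat_lit 2) (nat_lit 13) true (nat_lit 0) true (nat_lit 8) true (nat_lit 7) true (nat_lit 16) true (nat_lit 16) (.s false (nat_lit 2) (nat_lit 15) (nat_lit 2) (nat_lit 2) (nat_lit 13) true (nat_lit 0) true (nat_lit 8) true (nat_lit 7) true (nat_lit 16) true (nat_lit 16) (.s true (nat_lit 2) (nat_lit 14) (nat_lit 12) (nat_lit 2) (nat_lit 2) true (nat_lit 0) true (nat_lit 16) true (nat_lit 7) true (nat_lit 8) true (nat_lit 16) (.s false (nat_lit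 3) (nat_lit 14) (nat_lit 13) (nat_lit 2) (nat_lit 2) true (nat_lit 0) true (nat_lit 16) true (nat_lit 7) true (nat_lit 8) true (nat_lit 16) dC2d_i421)))))))))))))) .leaf) (nat_lit 294914) (nat_lit 1264) (.p (nat_lit 397) (nat_lit 3) (.p (nat_lit 398) (nat_lit 3) (.p (nat_lit 399) (nat_lit 3) (.p (nat_lit 400) (nat_lit 3) (.n (nat_lit 402) (nat_lit 2) (.n (nat_lit 403) (nat_lit 3) (.p (nat_lit 404) (nat_lit 1) (.n (nat_lit 405) (nat_lit 3) (.p (nat_lit 406) (nat_lit 1) (.n (nat_lit 407) (nat_lit 3) (.n (nat_lit 408) (nat_lit 1) (.p (nat_lit 409) (nat_lit 2) (.n (nat_lit 410) (nat_lit 1) (.n (nat_lit 411) (nat_lit 2) (.p (nat_lit 412) (nat_lit 2) (.p (nat_lit 413) (nat_lit 2) (.n (nat_lit 414) (nat_lit 2) (.n (nat_lit 415) (nat_lit 1) (.n (nat_lit 416) (nat_lit 3) (.n (nat_lit 418) (nat_lit 2) (.p (nat_lit 420) (nat_lit 3) (.n (nat_lit 421) (nat_lit 2) (.p (nat_lit 428) (nat_lit 1) (.n (nat_lit 432) (nat_lit 3)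 (.p (nat_lit 433) (nat_lit 1) (.n (nat_lit 435) (nat_lit 2) .z)))))))))))))))))))))))))) (.ct dC2d_c293 (nat_lit 1) (nat_lit 14) (.s true (nat_lit 1) (nat_lit 34) (nat_lit 2) (nat_lit 7) (nat_lit 1) true (nat_lit 10) true (nat_lit 15) true (nat_lit 1) true (nat_lit 14) true (nat_lit 9) (.e false (nat_lit 1) (nat_lit 182) (nat_lit 6) (nat_lit 10) (.e true (nat_lit 1) (nat_lit 322) (nat_lit 1) (nat_lit 15) (.e false (nat_lit 1) (nat_lit 47) (nat_lit 34) (nat_lit 1) (.e false (nat_lit 1) (nat_lit 253) (nat_lit 2) (nat_lit 14) (.e true (nat_lit 2) (nat_lit 255) (nat_lit 2) (nat_lit 14) (.e false (nat_lit 1) (nat_lit 258) (nat_lit 2) (nat_lit 14) (.e false (nat_lit 3) (nat_lit 259) (nat_lit 2) (nat_lit 14) (.e true (nat_lit 1) (nat_lit 260) (nat_lit 2) (nat_lit 14) (.e true (nat_lit 1) (nat_lit 264) (nat_lit 2) (nat_lit 14) (.e true (nat_lit 1) (nat_lit 267) (nat_lit 2) (nat_lit 14) (.e false (nat_lit 1) (nat_lit 270)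 (nat_lit 2) (nat_lit 14) (.e false (nat_lit 1) (nat_lit 275) (nat_lit 2) (nat_lit 14) (.e true (nat_lit 1) (nat_lit 279) (nat_lit 2) (nat_lit 14) (.e true (nat_lit 1) (nat_lit 139) (nat_lit 7) (nat_lit 9) (.u (nat_lit 2) (.n (nat_lit 0) (nat_lit 1) (.n (nat_lit 1) (nat_lit 1) (.n (nat_lit 2) (nat_lit 1) (.n (nat_lit 3) (nat_lit 1) (.p (nat_lit 4) (nat_lit 1) (.n (nat_lit 7) (nat_lit 1) (.n (nat_lit 12) (nat_lit 1) (.p (nat_lit 14) (nat_lit 1) (.n (nat_lit 15) (nat_lit 1) (.n (nat_lit 16) (nat_lit 1) (.p (nat_lit 18) (nat_lit 2) (.p (nat_lit 19) (nat_lit 1) (.n (nat_lit 23) (nat_lit 1) (.n (nat_lit 34) (nat_lit 1) (.n (nat_lit 35) (nat_lit 1) (.p (nat_lit 38) (nat_lit 1) .z)))))))))))))))) .nil))))))))))))))))) .leaf)) (nat_lit 295936) (nat_lit 850) (.p (nat_lit 335) (nat_lit 1) .z) .df (.nd (.nd (.nd .leaf (nat_lit 295938) (nat_lit 1382) (.p (nat_lit 436) (nat_lit 1) .z) .df .leaf) (nat_lit 296960) (nat_lit 851)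 (.p (nat_lit 336) (nat_lit 1) .z) .df .leaf) (nat_lit 296962) (nat_lit 1383) (.p (nat_lit 437) (nat_lit 1) .z) .df (.nd .leaf (nat_lit 297984) (nat_lit 852) (.p (nat_lit 337) (nat_lit 1) .z) .df .leaf)))) (nat_lit 297986) (nat_lit 1384) (.p (nat_lit 438) (nat_lit 1) .z) .df (.nd (.nd (.nd (.nd (.nd .leaf (nat_lit 299008) (nat_lit 853) (.p (nat_lit 338) (nat_lit 1) .z) .df .leaf) (nat_lit 299010) (nat_lit 1385) (.p (nat_lit 439) (nat_lit 1) .z) .df .leaf) (nat_lit 300032) (nat_lit 854) (.p (nat_lit 339) (nat_lit 1) .z) .df (.nd (.nd .leaf (nat_lit 300034) (nat_lit 1386) (.p (nat_lit 440) (nat_lit 1) .z) .df .leaf) (nat_lit 301056) (nat_lit 855) (.p (nat_lit 340) (nat_lit 1) .z) .df .leaf)) (nat_lit 301058) (nat_lit 1400) (.n (nat_lit 450) (nat_lit 1) .z) (.ct dC2d_c53 (nat_lit 1) (nat_lit 9) (.s true (nat_lit 3) (nat_lit 14) (nat_lit 7) (nat_lit 7) (nat_lit 1) true (nat_lit 3) true (nat_lit 10) true (nat_lit 4)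 true (nat_lit 6) true (nat_lit 6) (.s false (nat_lit 3) (nat_lit 18) (nat_lit 14) (nat_lit 2) (nat_lit 2) true (nat_lit 0) true (nat_lit 9) true (nat_lit 3) true (nat_lit 4) true (nat_lit 9) dC2d_i422))) (.nd (.nd (.nd .leaf (nat_lit 302080) (nat_lit 856) (.p (nat_lit 341) (nat_lit 1) .z) .df .leaf) (nat_lit 302082) (nat_lit 1387) (.p (nat_lit 441) (nat_lit 1) .z) .df .leaf) (nat_lit 303104) (nat_lit 857) (.p (nat_lit 342) (nat_lit 1) .z) .df (.nd .leaf (nat_lit 303106) (nat_lit 1388) (.p (nat_lit 442) (nat_lit 1) .z) .df .leaf))) (nat_lit 304128) (nat_lit 858) (.p (nat_lit 343) (nat_lit 1) .z) .df (.nd (.nd (.nd (.nd .leaf (nat_lit 304130) (nat_lit 1389) (.p (nat_lit 443) (nat_lit 1) .z) .df .leaf) (nat_lit 305152) (nat_lit 859) (.p (nat_lit 344) (nat_lit 1) .z) .df .leaf) (nat_lit 305154) (nat_lit 1390) (.p (nat_lit 444) (nat_lit 1) .z) .df (.nd (.nd .leaf (nat_lit 306176) (nat_lit 860) (.p (nat_lit 345) (nat_lit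 1) .z) .df .leaf) (nat_lit 306178) (nat_lit 1391) (.p (nat_lit 445) (nat_lit 1) .z) .df .leaf)) (nat_lit 307200) (nat_lit 861) (.p (nat_lit 346) (nat_lit 1) .z) .df (.nd (.nd (.nd .leaf (nat_lit 307202) (nat_lit 1405) (.n (nat_lit 436) (nat_lit 1) (.n (nat_lit 437) (nat_lit 3) (.p (nat_lit 438) (nat_lit 1) (.p (nat_lit 439) (nat_lit 1) (.p (nat_lit 440) (nat_lit 2) (.n (nat_lit 441) (nat_lit 2) (.p (nat_lit 443) (nat_lit 3) (.n (nat_lit 444) (nat_lit 2) (.p (nat_lit 445) (nat_lit 3) (.n (nat_lit 450) (nat_lit 1) .z)))))))))) (.ct dC2d_c53 (nat_lit 1) (nat_lit 9) (.s true (nat_lit 1) (nat_lit 7) (nat_lit 4) (nat_lit 6) (nat_lit 7) true (nat_lit 0) true (nat_lit 6) true (nat_lit 6) true (nat_lit 8) true (nat_lit 7) (.s true (nat_lit 1) (nat_lit 15) (nat_lit 7) (nat_lit 1) (nat_lit 7) false (nat_lit 1) true (nat_lit 6) true (nat_lit 4) true (nat_lit 6) true (nat_lit 10) (.s true (nat_lit 2) (nat_lit 14) (nat_lit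 7) (nat_lit 7) (nat_lit 1) true (nat_lit 3) true (nat_lit 10) true (nat_lit 4) true (nat_lit 6) true (nat_lit 6) (.s true (nat_lit 1) (nat_lit 19) (nat_lit 2) (nat_lit 2) (nat_lit 14) true (nat_lit 0) true (nat_lit 4) true (nat_lit 3) true (nat_lit 9) true (nat_lit 9) (.s false (nat_lit 3) (nat_lit 18) (nat_lit 4) (nat_lit 2) (nat_lit 7) true (nat_lit 0) true (nat_lit 6) true (nat_lit 3) true (nat_lit 8) true (nat_lit 9) (.s true (nat_lit 2) (nat_lit 18) (nat_lit 14) (nat_lit 2) (nat_lit 2) true (nat_lit 0) true (nat_lit 9) true (nat_lit 3) true (nat_lit 4) true (nat_lit 9) dC2d_i424))))))) .leaf) (nat_lit 308224) (nat_lit 862) (.p (nat_lit 347) (nat_lit 1) .z) .df .leaf) (nat_lit 308226) (nat_lit 1401) (.p (nat_lit 437) (nat_lit 3) (.n (nat_lit 438) (nat_lit 1) (.p (nat_lit 441) (nat_lit 3) (.n (nat_lit 442) (nat_lit 1) (.p (nat_lit 443) (nat_lit 1) (.n (nat_lit 444) (nat_lit 1) (.n (nat_lit 445) (nat_lit 3)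 .z))))))) (.ct dC2d_c53 (nat_lit 1) (nat_lit 9) (.s true (nat_lit 3) (nat_lit 15) (nat_lit 2) (nat_lit 6) (nat_lit 7) true (nat_lit 2) true (nat_lit 6) true (nat_lit 4) true (nat_lit 9) true (nat_lit 7) (.s false (nat_lit 2) (nat_lit 14) (nat_lit 6) (nat_lit 2) (nat_lit 7) false (nat_lit 0) true (nat_lit 6) true (nat_lit 4) true (nat_lit 7) true (nat_lit 9) (.s true (nat_lit 1) (nat_lit 15) (nat_lit 7) (nat_lit 7) (nat_lit 1) true (nat_lit 3) true (nat_lit 10) true (nat_lit 4) true (nat_lit 6) true (nat_lit 6) (.s true (nat_lit 2) (nat_lit 18) (nat_lit 2) (nat_lit 2) (nat_lit 14) true (nat_lit 0) true (nat_lit 4) true (nat_lit 3) true (nat_lit 9) true (nat_lit 9) (.s false (nat_lit 2) (nat_lit 19) (nat_lit 2) (nat_lit 2) (nat_lit 14) true (nat_lit 0) true (nat_lit 4) true (nat_lit 3) true (nat_lit 9) true (nat_lit 9) (.s true (nat_lit 2) (nat_lit 18) (nat_lit 2) (nat_lit 7) (nat_lit 4) true (nat_lit 4) true (nat_lit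 8) true (nat_lit 3) true (nat_lit 9) true (nat_lit 6) (.s true (nat_lit 3) (nat_lit 18) (nat_lit 7) (nat_lit 6) (nat_lit 1) true (nat_lit 3) true (nat_lit 10) true (nat_lit 3) true (nat_lit 6) true (nat_lit 7) (.s true (nat_lit 1) (nat_lit 18) (nat_lit 14) (nat_lit 2) (nat_lit 2) true (nat_lit 0) true (nat_lit 9) true (nat_lit 3) true (nat_lit 4) true (nat_lit 9) (.s true (nat_lit 3) (nat_lit 18) (nat_lit 15) (nat_lit 2) (nat_lit 2) true (nat_lit 0) true (nat_lit 9) true (nat_lit 3) true (nat_lit 4) true (nat_lit 9) (.s false (nat_lit 2) (nat_lit 19) (nat_lit 14) (nat_lit 2) (nat_lit 2) true (nat_lit 0) true (nat_lit 9) true (nat_lit 3) true (nat_lit 4) true (nat_lit 9) (.s true (nat_lit 3) (nat_lit 20) (nat_lit 2) (nat_lit 2) (nat_lit 10) true (nat_lit 1) true (nat_lit 5) true (nat_lit 2) true (nat_lit 9) true (nat_lit 9) (.s false (nat_lit 3) (nat_lit 20) (nat_lit 2) (nat_lit 14) (nat_lit 1) true (nat_lit 7)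 true (nat_lit 10) true (nat_lit 2) true (nat_lit 9) true (nat_lit 4) (.s false (nat_lit 3) (nat_lit 20) (nat_lit 2) (nat_lit 15) (nat_lit 1) true (nat_lit 7) true (nat_lit 10) true (nat_lit 2) true (nat_lit 9) true (nat_lit 4) (.s false (nat_lit 1) (nat_lit 20) (nat_lit 6) (nat_lit 2) (nat_lit 4) true (nat_lit 1) true (nat_lit 8) true (nat_lit 2) true (nat_lit 7) true (nat_lit 9) (.s false (nat_lit 1) (nat_lit 20) (nat_lit 10) (nat_lit 2) (nat_lit 2) true (nat_lit 1) true (nat_lit 9) true (nat_lit 2) true (nat_lit 5) true (nat_lit 9) (.s false (nat_lit 3) (nat_lit 20) (nat_lit 14) (nat_lit 2) (nat_lit 1) true (nat_lit 1) true (nat_lit 10) true (nat_lit 2) true (nat_lit 4) true (nat_lit 9) (.s true (nat_lit 3) (nat_lit 20) (nat_lit 18) (nat_lit 1) (nat_lit 1) true (nat_lit 0) true (nat_lit 10) true (nat_lit 2) true (nat_lit 3) true (nat_lit 10) dC2d_i426)))))))))))))))))) (.nd .leaf (nat_lit 309248) (nat_lit 863)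 (.p (nat_lit 348) (nat_lit 1) .z) .df .leaf))))) (nat_lit 309250) (nat_lit 1392) (.p (nat_lit 446) (nat_lit 1) .z) .df (.nd (.nd (.nd (.nd (.nd (.nd .leaf (nat_lit 310272) (nat_lit 919) (.p (nat_lit 335) (nat_lit 2) (.n (nat_lit 338) (nat_lit 2) (.p (nat_lit 339) (nat_lit 3) (.n (nat_lit 340) (nat_lit 2) (.n (nat_lit 341) (nat_lit 2) (.p (nat_lit 342) (nat_lit 2) (.n (nat_lit 343) (nat_lit 1) (.p (nat_lit 346) (nat_lit 2) (.p (nat_lit 347) (nat_lit 2) .z))))))))) (.ct dC2d_c308 (nat_lit 1) (nat_lit 18) (.s false (nat_lit 1) (nat_lit 7) (nat_lit 3) (nat_lit 7) (nat_lit 4) true (nat_lit 3) true (nat_lit 14) true (nat_lit 11) true (nat_lit 15) true (nat_lit 11) (.s true (nat_lit 1) (nat_lit 8) (nat_lit 1) (nat_lit 7) (nat_lit 7) true (nat_lit 5) true (nat_lit 11) true (nat_lit 10) true (nat_lit 17) true (nat_lit 11) (.s false (nat_lit 2) (nat_lit 8) (nat_lit 6) (nat_lit 7) (nat_lit 2) true (nat_lit 5) true (nat_lit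 16) true (nat_lit 10) true (nat_lit 12) true (nat_lit 11) (.s false (nat_lit 1) (nat_lit 9) (nat_lit 7) (nat_lit 1) (nat_lit 7) false (nat_lit 3) true (nat_lit 11) true (nat_lit 10) true (nat_lit 11) true (nat_lit 17) (.s true (nat_lit 1) (nat_lit 8) (nat_lit 7) (nat_lit 6) (nat_lit 2) true (nat_lit 4) true (nat_lit 16) true (nat_lit 10) true (nat_lit 11) true (nat_lit 12) (.s true (nat_lit 1) (nat_lit 10) (nat_lit 5) (nat_lit 7) (nat_lit 2) true (nat_lit 6) true (nat_lit 16) true (nat_lit 9) true (nat_lit 13) true (nat_lit 11) (.s false (nat_lit 1) (nat_lit 10) (nat_lit 7) (nat_lit 0) (nat_lit 7) false (nat_lit 3) true (nat_lit 11) true (nat_lit 9) true (nat_lit 11) true (nat_lit 18) (.s false (nat_lit 1) (nat_lit 10) (nat_lit 7) (nat_lit 5) (nat_lit 2) true (nat_lit 4) true (nat_lit 16) true (nat_lit 9) true (nat_lit 11) true (nat_lit 13) (.s true (nat_lit 3) (nat_lit 11) (nat_lit 1) (nat_lit 7) (nat_lit 6)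 true (nat_lit 7) true (nat_lit 12) true (nat_lit 8) true (nat_lit 17) true (nat_lit 11) (.s true (nat_lit 3) (nat_lit 11) (nat_lit 2) (nat_lit 6) (nat_lit 6) true (nat_lit 5) true (nat_lit 12) true (nat_lit 8) true (nat_lit 16) true (nat_lit 12) (.s false (nat_lit 1) (nat_lit 14) (nat_lit 2) (nat_lit 3) (nat_lit 7) true (nat_lit 4) true (nat_lit 11) true (nat_lit 7) true (nat_lit 16) true (nat_lit 15) (.s false (nat_lit 1) (nat_lit 16) (nat_lit 2) (nat_lit 1) (nat_lit 14) false (nat_lit 0) true (nat_lit 7) true (nat_lit 6) true (nat_lit 16) true (nat_lit 17) (.s false (nat_lit 2) (nat_lit 16) (nat_lit 2) (nat_lit 2) (nat_lit 10) true (nat_lit 1) true (nat_lit 9) true (nat_lit 6) true (nat_lit 16) true (nat_lit 16) (.s true (nat_lit 3) (nat_lit 16) (nat_lit 2) (nat_lit 10) (nat_lit 2) true (nat_lit 11) true (nat_lit 16) true (nat_lit 6) true (nat_lit 16) true (nat_lit 9) (.s false (nat_lit 2) (nat_lit 16) (nat_lit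 2) (nat_lit 15) (nat_lit 1) true (nat_lit 12) true (nat_lit 17) true (nat_lit 6) true (nat_lit 16) true (nat_lit 7) (.s true (nat_lit 2) (nat_lit 18) (nat_lit 0) (nat_lit 1) (nat_lit 18) true (nat_lit 0) true (nat_lit 5) true (nat_lit 5) true (nat_lit 18) true (nat_lit 17) dC2d_i434))))))))))))))))) .leaf) (nat_lit 310274) (nat_lit 1399) (.p (nat_lit 444) (nat_lit 1) .z) (.ct dC2d_c53 (nat_lit 1) (nat_lit 9) (.s true (nat_lit 3) (nat_lit 20) (nat_lit 10) (nat_lit 2) (nat_lit 2) true (nat_lit 1) true (nat_lit 9) true (nat_lit 2) true (nat_lit 5) true (nat_lit 9) (.s false (nat_lit 3) (nat_lit 30) (nat_lit 7) (nat_lit 2) (nat_lit 2) true (nat_lit 2) true (nat_lit 9) true (nat_lit 1) true (nat_lit 6) true (nat_lit 9) (.e true (nat_lit 3) (nat_lit 167) (nat_lit 7) (nat_lit 6) (.u (nat_lit 2) (.n (nat_lit 8) (nat_lit 1) (.p (nat_lit 94) (nat_lit 1) .z)) .nil))))) .leaf) (nat_lit 311296) (nat_lit 940) (.p (nat_lit 335)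 (nat_lit 1) (.p (nat_lit 337) (nat_lit 3) (.n (nat_lit 338) (nat_lit 2) (.p (nat_lit 339) (nat_lit 3) (.n (nat_lit 341) (nat_lit 3) (.n (nat_lit 342) (nat_lit 1) (.p (nat_lit 343) (nat_lit 3) (.n (nat_lit 344) (nat_lit 1) (.p (nat_lit 345) (nat_lit 1) (.n (nat_lit 347) (nat_lit 2) .z)))))))))) (.ct dC2d_c308 (nat_lit 1) (nat_lit 18) (.s true (nat_lit 3) (nat_lit 7) (nat_lit 3) (nat_lit 7) (nat_lit 4) true (nat_lit 3) true (nat_lit 14) true (nat_lit 11) true (nat_lit 15) true (nat_lit 11) (.s false (nat_lit 2) (nat_lit 8) (nat_lit 2) (nat_lit 7) (nat_lit 6) true (nat_lit 5) true (nat_lit 12) true (nat_lit 10) true (nat_lit 16) true (nat_lit 11) (.s false (nat_lit 2) (nat_lit 8) (nat_lit 6) (nat_lit 2) (nat_lit 7) false (nat_lit 2) true (nat_lit 11) true (nat_lit 10) true (nat_lit 12) true (nat_lit 16) (.s false (nat_lit 1) (nat_lit 9) (nat_lit 7) (nat_lit 1) (nat_lit 7) false (nat_lit 3) true (nat_lit 11) true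 (nat_lit 10) true (nat_lit 11) true (nat_lit 17) (.s false (nat_lit 2) (nat_lit 10) (nat_lit 5) (nat_lit 2) (nat_lit 7) false (nat_lit 1) true (nat_lit 11) true (nat_lit 9) true (nat_lit 13) true (nat_lit 16) (.s true (nat_lit 1) (nat_lit 10) (nat_lit 5) (nat_lit 7) (nat_lit 2) true (nat_lit 6) true (nat_lit 16) true (nat_lit 9) true (nat_lit 13) true (nat_lit 11) (.s true (nat_lit 3) (nat_lit 10) (nat_lit 7) (nat_lit 0) (nat_lit 7) false (nat_lit 3) true (nat_lit 11) true (nat_lit 9) true (nat_lit 11) true (nat_lit 18) (.s true (nat_lit 3) (nat_lit 11) (nat_lit 1) (nat_lit 7) (nat_lit 6) true (nat_lit 7) true (nat_lit 12) true (nat_lit 8) true (nat_lit 17) true (nat_lit 11) dC2d_i442))))))))) (.nd (.nd .leaf (nat_lit 311298) (nat_lit 1407) (.p (nat_lit 436) (nat_lit 1) (.p (nat_lit 437) (nat_lit 1) (.n (nat_lit 438) (nat_lit 2) (.n (nat_lit 439) (nat_lit 2) (.p (nat_lit 440) (nat_lit 3) (.n (nat_lit 441) (nat_lit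 2) (.p (nat_lit 442) (nat_lit 1) (.p (nat_lit 443) (nat_lit 1) (.p (nat_lit 444) (nat_lit 1) .z))))))))) (.ct dC2d_c53 (nat_lit 1) (nat_lit 9) (.s false (nat_lit 3) (nat_lit 14) (nat_lit 7) (nat_lit 7) (nat_lit 1) true (nat_lit 3) true (nat_lit 10) true (nat_lit 4) true (nat_lit 6) true (nat_lit 6) (.s false (nat_lit 3) (nat_lit 19) (nat_lit 4) (nat_lit 7) (nat_lit 2) true (nat_lit 4) true (nat_lit 9) true (nat_lit 3) true (nat_lit 8) true (nat_lit 6) (.s true (nat_lit 1) (nat_lit 18) (nat_lit 14) (nat_lit 2) (nat_lit 2) true (nat_lit 0) true (nat_lit 9) true (nat_lit 3) true (nat_lit 4) true (nat_lit 9) (.s false (nat_lit 2) (nat_lit 20) (nat_lit 1) (nat_lit 4) (nat_lit 7) true (nat_lit 3) true (nat_lit 6) true (nat_lit 2) true (nat_lit 10) true (nat_lit 8) (.s false (nat_lit 3) (nat_lit 20) (nat_lit 2) (nat_lit 2) (nat_lit 10) true (nat_lit 1) true (nat_lit 5) true (nat_lit 2) true (nat_lit 9) true (nat_lit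 9) (.s true (nat_lit 1) (nat_lit 20) (nat_lit 2) (nat_lit 6) (nat_lit 4) true (nat_lit 4) true (nat_lit 8) true (nat_lit 2) true (nat_lit 9) true (nat_lit 7) (.s false (nat_lit 2) (nat_lit 20) (nat_lit 6) (nat_lit 2) (nat_lit 4) true (nat_lit 1) true (nat_lit 8) true (nat_lit 2) true (nat_lit 7) true (nat_lit 9) (.s false (nat_lit 3) (nat_lit 20) (nat_lit 10) (nat_lit 2) (nat_lit 2) true (nat_lit 1) true (nat_lit 9) true (nat_lit 2) true (nat_lit 5) true (nat_lit 9) (.s false (nat_lit 1) (nat_lit 20) (nat_lit 14) (nat_lit 1) (nat_lit 2) true (nat_lit 0) true (nat_lit 9) true (nat_lit 2) true (nat_lit 4) true (nat_lit 10) (.s true (nat_lit 3) (nat_lit 20) (nat_lit 14) (nat_lit 2) (nat_lit 1) true (nat_lit 1) true (nat_lit 10) true (nat_lit 2) true (nat_lit 4) true (nat_lit 9) (.s true (nat_lit 1) (nat_lit 31) (nat_lit 2) (nat_lit 2) (nat_lit 7) true (nat_lit 2) true (nat_lit 6) true (nat_lit 1) true (nat_lit 9)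 true (nat_lit 9) (.s false (nat_lit 1) (nat_lit 39) (nat_lit 2) (nat_lit 7) (nat_lit 1) true (nat_lit 7) true (nat_lit 10) true (nat_lit 0) true (nat_lit 9) true (nat_lit 6) (.s false (nat_lit 1) (nat_lit 39) (nat_lit 6) (nat_lit 2) (nat_lit 2) true (nat_lit 3) true (nat_lit 9) true (nat_lit 0) true (nat_lit 7) true (nat_lit 9) (.s true (nat_lit 3) (nat_lit 48) (nat_lit 1) (nat_lit 2) (nat_lit 4) true (nat_lit 5) true (nat_lit 8) false (nat_lit 1) true (nat_lit 10) true (nat_lit 9) (.s false (nat_lit 3) (nat_lit 48) (nat_lit 4) (nat_lit 2) (nat_lit 1) true (nat_lit 5) true (nat_lit 10) false (nat_lit 1) true (nat_lit 8) true (nat_lit 9) dC2d_i443)))))))))))))))) .leaf) (nat_lit 312321) (nat_lit 1169) (.p (nat_lit 406) (nat_lit 1) .z) .df .leaf)) (nat_lit 313345) (nat_lit 1170) (.p (nat_lit 407) (nat_lit 1) .z) .df (.nd (.nd (.nd .leaf (nat_lit 314369) (nat_lit 1171) (.p (nat_lit 408) (nat_lit 1) .z) .df .leaf)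 (nat_lit 315393) (nat_lit 1172) (.p (nat_lit 409) (nat_lit 1) .z) .df .leaf) (nat_lit 316417) (nat_lit 1173) (.p (nat_lit 410) (nat_lit 1) .z) .df (.nd (.nd .leaf (nat_lit 317441) (nat_lit 1174) (.p (nat_lit 411) (nat_lit 1) .z) .df .leaf) (nat_lit 318465) (nat_lit 1175) (.p (nat_lit 412) (nat_lit 1) .z) .df .leaf))) (nat_lit 319489) (nat_lit 1176) (.p (nat_lit 413) (nat_lit 1) .z) .df (.nd (.nd (.nd (.nd .leaf (nat_lit 320513) (nat_lit 1177) (.p (nat_lit 414) (nat_lit 1) .z) .df .leaf) (nat_lit 321537) (nat_lit 1178) (.p (nat_lit 415) (nat_lit 1) .z) .df .leaf) (nat_lit 322561) (nat_lit 1179) (.p (nat_lit 416) (nat_lit 1) .z) .df (.nd (.nd .leaf (nat_lit 323585) (nat_lit 1180) (.p (nat_lit 417) (nat_lit 1) .z) .df .leaf) (nat_lit 324609) (nat_lit 1220) (.p (nat_lit 398) (nat_lit 1) (.p (nat_lit 399) (nat_lit 3) (.p (nat_lit 400) (nat_lit 1) (.n (nat_lit 402) (nat_lit 3) (.p (nat_lit 403) (nat_lit 3) (.n (nat_lit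 405) (nat_lit 1) (.p (nat_lit 406) (nat_lit 2) (.n (nat_lit 407) (nat_lit 1) (.n (nat_lit 410) (nat_lit 2) (.n (nat_lit 411) (nat_lit 3) (.n (nat_lit 412) (nat_lit 1) (.n (nat_lit 413) (nat_lit 1) (.p (nat_lit 414) (nat_lit 3) (.n (nat_lit 415) (nat_lit 3) (.n (nat_lit 416) (nat_lit 2) .z))))))))))))))) (.ct dC2d_c293 (nat_lit 1) (nat_lit 15) (.s false (nat_lit 2) (nat_lit 11) (nat_lit 1) (nat_lit 7) (nat_lit 7) true (nat_lit 4) true (nat_lit 9) true (nat_lit 7) true (nat_lit 15) true (nat_lit 9) (.s false (nat_lit 1) (nat_lit 11) (nat_lit 2) (nat_lit 7) (nat_lit 6) true (nat_lit 4) true (nat_lit 10) true (nat_lit 7) true (nat_lit 14) true (nat_lit 9) dC2d_i449))) .leaf)) (nat_lit 325633) (nat_lit 1181) (.p (nat_lit 418) (nat_lit 1) .z) .df (.nd (.nd (.nd .leaf (nat_lit 326657) (nat_lit 1182) (.p (nat_lit 419) (nat_lit 1) .z) .df .leaf) (nat_lit 327681) (nat_lit 1337) (.n (nat_lit 397) (nat_lit 1) (.n (nat_lit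 398) (nat_lit 2) (.n (nat_lit 399) (nat_lit 2) (.p (nat_lit 400) (nat_lit 1) (.n (nat_lit 401) (nat_lit 2) (.p (nat_lit 402) (nat_lit 2) (.p (nat_lit 403) (nat_lit 3) (.p (nat_lit 404) (nat_lit 1) (.p (nat_lit 405) (nat_lit 2) (.p (nat_lit 406) (nat_lit 1) (.p (nat_lit 407) (nat_lit 1) (.n (nat_lit 408) (nat_lit 1) (.n (nat_lit 409) (nat_lit 1) (.p (nat_lit 411) (nat_lit 2) (.n (nat_lit 412) (nat_lit 3) (.n (nat_lit 413) (nat_lit 3) (.n (nat_lit 414) (nat_lit 3) (.n (nat_lit 415) (nat_lit 2) (.p (nat_lit 419) (nat_lit 2) .z))))))))))))))))))) (.ct dC2d_c293 (nat_lit 1) (nat_lit 15) (.s false (nat_lit 1) (nat_lit 98) (nat_lit 1) (nat_lit 2) (nat_lit 1) true (nat_lit 12) true (nat_lit 15) false (nat_lit 6) true (nat_lit 15) true (nat_lit 14) (.e false (nat_lit 1) (nat_lit 196) (nat_lit 4) (nat_lit 12) (.e false (nat_lit 2) (nat_lit 305) (nat_lit 1) (nat_lit 15) (.e false (nat_lit 1) (nat_lit 307) (nat_lit 1) (nat_lit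 15) (.e true (nat_lit 1) (nat_lit 309) (nat_lit 1) (nat_lit 15) (.e true (nat_lit 2) (nat_lit 310) (nat_lit 1) (nat_lit 15) (.e true (nat_lit 1) (nat_lit 311) (nat_lit 1) (nat_lit 15) (.e true (nat_lit 1) (nat_lit 312) (nat_lit 1) (nat_lit 15) (.e false (nat_lit 2) (nat_lit 314) (nat_lit 1) (nat_lit 15) (.e false (nat_lit 1) (nat_lit 315) (nat_lit 1) (nat_lit 15) (.e true (nat_lit 2) (nat_lit 317) (nat_lit 1) (nat_lit 15) (.e true (nat_lit 1) (nat_lit 308) (nat_lit 1) (nat_lit 15) (.e true (nat_lit 1) (nat_lit 98) (nat_lit 15) (nat_lit 6) (.e true (nat_lit 1) (nat_lit 321) (nat_lit 1) (nat_lit 15) (.e true (nat_lit 1) (nat_lit 323) (nat_lit 1) (nat_lit 15) dC2d_i450)))))))))))))))) .leaf) (nat_lit 328705) (nat_lit 1226) (.p (nat_lit 397) (nat_lit 3) (.n (nat_lit 398) (nat_lit 3) (.p (nat_lit 400) (nat_lit 2) (.n (nat_lit 401) (nat_lit 1) (.n (nat_lit 403) (nat_lit 1) (.n (nat_lit 404) (nat_lit 3) (.p (nat_lit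 405) (nat_lit 3) (.p (nat_lit 406) (nat_lit 1) (.n (nat_lit 407) (nat_lit 3) (.p (nat_lit 408) (nat_lit 2) (.p (nat_lit 409) (nat_lit 3) (.n (nat_lit 410) (nat_lit 2) (.n (nat_lit 412) (nat_lit 1) (.n (nat_lit 413) (nat_lit 1) (.p (nat_lit 414) (nat_lit 2) (.n (nat_lit 415) (nat_lit 3) (.n (nat_lit 416) (nat_lit 3) .z))))))))))))))))) (.ct dC2d_c293 (nat_lit 1) (nat_lit 15) (.s true (nat_lit 3) (nat_lit 11) (nat_lit 7) (nat_lit 2) (nat_lit 6) false (nat_lit 1) true (nat_lit 10) true (nat_lit 7) true (nat_lit 9) true (nat_lit 14) (.s false (nat_lit 3) (nat_lit 20) (nat_lit 2) (nat_lit 1) (nat_lit 11) true (nat_lit 1) true (nat_lit 7) true (nat_lit 3) true (nat_lit 14) true (nat_lit 15) (.s true (nat_lit 3) (nat_lit 20) (nat_lit 2) (nat_lit 11) (nat_lit 1) true (nat_lit 10) true (nat_lit 15) true (nat_lit 3) true (nat_lit 14) true (nat_lit 7) (.s false (nat_lit 1) (nat_lit 20) (nat_lit 11) (nat_lit 2) (nat_lit 1)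 true (nat_lit 2) true (nat_lit 15) true (nat_lit 3) true (nat_lit 7) true (nat_lit 14) (.s true (nat_lit 3) (nat_lit 33) (nat_lit 1) (nat_lit 7) (nat_lit 2) true (nat_lit 10) true (nat_lit 14) true (nat_lit 1) true (nat_lit 15) true (nat_lit 9) dC2d_i451)))))) (.nd .leaf (nat_lit 329729) (nat_lit 1222) (.n (nat_lit 397) (nat_lit 1) (.n (nat_lit 398) (nat_lit 2) (.n (nat_lit 399) (nat_lit 2) (.p (nat_lit 400) (nat_lit 1) (.n (nat_lit 401) (nat_lit 2) (.p (nat_lit 402) (nat_lit 2) (.p (nat_lit 403) (nat_lit 3) (.p (nat_lit 404) (nat_lit 1) (.p (nat_lit 405) (nat_lit 2) (.p (nat_lit 406) (nat_lit 2) (.n (nat_lit 407) (nat_lit 1) (.p (nat_lit 408) (nat_lit 1) (.n (nat_lit 409) (nat_lit 2) (.n (nat_lit 410) (nat_lit 2) (.p (nat_lit 412) (nat_lit 1) (.p (nat_lit 413) (nat_lit 1) (.n (nat_lit 414) (nat_lit 1) (.n (nat_lit 415) (nat_lit 2) (.n (nat_lit 416) (nat_lit 1) .z))))))))))))))))))) (.ct dC2d_c293 (nat_lit 1)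 (nat_lit 15) (.s true (nat_lit 3) (nat_lit 11) (nat_lit 1) (nat_lit 7) (nat_lit 7) true (nat_lit 4) true (nat_lit 9) true (nat_lit 7) true (nat_lit 15) true (nat_lit 9) (.s false (nat_lit 3) (nat_lit 11) (nat_lit 2) (nat_lit 7) (nat_lit 6) true (nat_lit 4) true (nat_lit 10) true (nat_lit 7) true (nat_lit 14) true (nat_lit 9) (.s true (nat_lit 2) (nat_lit 11) (nat_lit 7) (nat_lit 7) (nat_lit 1) true (nat_lit 4) true (nat_lit 15) true (nat_lit 7) true (nat_lit 9) true (nat_lit 9) (.s false (nat_lit 2) (nat_lit 18) (nat_lit 2) (nat_lit 2) (nat_lit 11) true (nat_lit 1) true (nat_lit 7) true (nat_lit 4) true (nat_lit 14) true (nat_lit 14) (.s true (nat_lit 1) (nat_lit 19) (nat_lit 2) (nat_lit 2) (nat_lit 11) true (nat_lit 1) true (nat_lit 7) true (nat_lit 4) true (nat_lit 14) true (nat_lit 14) (.s false (nat_lit 1) (nat_lit 18) (nat_lit 11) (nat_lit 2) (nat_lit 2) true (nat_lit 1) true (nat_lit 14) true (nat_lit 4)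 true (nat_lit 7) true (nat_lit 14) (.s false (nat_lit 1) (nat_lit 20) (nat_lit 0) (nat_lit 2) (nat_lit 15) true (nat_lit 2) true (nat_lit 6) true (nat_lit 3) true (nat_lit 16) true (nat_lit 14) (.s false (nat_lit 3) (nat_lit 20) (nat_lit 1) (nat_lit 7) (nat_lit 3) true (nat_lit 8) true (nat_lit 13) true (nat_lit 3) true (nat_lit 15) true (nat_lit 9) (.s false (nat_lit 1) (nat_lit 20) (nat_lit 2) (nat_lit 0) (nat_lit 15) true (nat_lit 0) true (nat_lit 6) true (nat_lit 3) true (nat_lit 14) true (nat_lit 16) (.s false (nat_lit 1) (nat_lit 20) (nat_lit 2) (nat_lit 1) (nat_lit 11) true (nat_lit 1) true (nat_lit 7) true (nat_lit 3) true (nat_lit 14) true (nat_lit 15) (.s true (nat_lit 1) (nat_lit 20) (nat_lit 2) (nat_lit 2) (nat_lit 8) true (nat_lit 2) true (nat_lit 8) true (nat_lit 3) true (nat_lit 14) true (nat_lit 14) (.s false (nat_lit 3) (nat_lit 20) (nat_lit 2) (nat_lit 3) (nat_lit 6) true (nat_lit 4) true (nat_lit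 10) true (nat_lit 3) true (nat_lit 14) true (nat_lit 13) (.s false (nat_lit 3) (nat_lit 20) (nat_lit 3) (nat_lit 7) (nat_lit 1) true (nat_lit 8) true (nat_lit 15) true (nat_lit 3) true (nat_lit 13) true (nat_lit 9) (.s true (nat_lit 1) (nat_lit 20) (nat_lit 6) (nat_lit 2) (nat_lit 3) true (nat_lit 2) true (nat_lit 13) true (nat_lit 3) true (nat_lit 10) true (nat_lit 14) (.s false (nat_lit 2) (nat_lit 20) (nat_lit 8) (nat_lit 2) (nat_lit 2) true (nat_lit 2) true (nat_lit 14) true (nat_lit 3) true (nat_lit 8) true (nat_lit 14) (.s true (nat_lit 1) (nat_lit 20) (nat_lit 9) (nat_lit 2) (nat_lit 2) true (nat_lit 2) true (nat_lit 14) true (nat_lit 3) true (nat_lit 8) true (nat_lit 14) (.s true (nat_lit 2) (nat_lit 20) (nat_lit 11) (nat_lit 1) (nat_lit 2) true (nat_lit 1) true (nat_lit 14) true (nat_lit 3) true (nat_lit 7) true (nat_lit 15) (.s true (nat_lit 1) (nat_lit 20) (nat_lit 15) (nat_lit 0) (nat_lit 2) true (nat_lit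 0) true (nat_lit 14) true (nat_lit 3) true (nat_lit 6) true (nat_lit 16) (.s false (nat_lit 1) (nat_lit 24) (nat_lit 2) (nat_lit 2) (nat_lit 7) true (nat_lit 3) true (nat_lit 9) true (nat_lit 2) true (nat_lit 14) true (nat_lit 14) dC2d_i454)))))))))))))))))))) .leaf)))) (nat_lit 330753) (nat_lit 1244) (.p (nat_lit 397) (nat_lit 1) (.p (nat_lit 398) (nat_lit 3) (.n (nat_lit 399) (nat_lit 2) (.p (nat_lit 401) (nat_lit 2) (.p (nat_lit 402) (nat_lit 2) (.n (nat_lit 404) (nat_lit 1) (.n (nat_lit 405) (nat_lit 3) (.p (nat_lit 407) (nat_lit 1) (.n (nat_lit 409) (nat_lit 3) (.p (nat_lit 411) (nat_lit 2) (.p (nat_lit 412) (nat_lit 2) (.p (nat_lit 413) (nat_lit 2) (.n (nat_lit 414) (nat_lit 3) (.p (nat_lit 415) (nat_lit 1) (.p (nat_lit 416) (nat_lit 1) (.p (nat_lit 418) (nat_lit 1) .z)))))))))))))))) (.ct dC2d_c293 (nat_lit 1) (nat_lit 15) (.s false (nat_lit 3) (nat_lit 12) (nat_lit 6) (nat_lit 2) (nat_lit 7) false (nat_lit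 1) true (nat_lit 9) true (nat_lit 7) true (nat_lit 10) true (nat_lit 14) (.s true (nat_lit 3) (nat_lit 12) (nat_lit 7) (nat_lit 7) (nat_lit 1) true (nat_lit 4) true (nat_lit 15) true (nat_lit 7) true (nat_lit 9) true (nat_lit 9) (.s true (nat_lit 1) (nat_lit 18) (nat_lit 2) (nat_lit 2) (nat_lit 11) true (nat_lit 1) true (nat_lit 7) true (nat_lit 4) true (nat_lit 14) true (nat_lit 14) (.s false (nat_lit 3) (nat_lit 18) (nat_lit 2) (nat_lit 2) (nat_lit 12) true (nat_lit 1) true (nat_lit 7) true (nat_lit 4) true (nat_lit 14) true (nat_lit 14) (.s true (nat_lit 1) (nat_lit 19) (nat_lit 2) (nat_lit 2) (nat_lit 12) true (nat_lit 1) true (nat_lit 7) true (nat_lit 4) true (nat_lit 14) true (nat_lit 14) (.s false (nat_lit 1) (nat_lit 19) (nat_lit 2) (nat_lit 2) (nat_lit 13) true (nat_lit 1) true (nat_lit 7) true (nat_lit 4) true (nat_lit 14) true (nat_lit 14) (.s true (nat_lit 3) (nat_lit 18) (nat_lit 2) (nat_lit 12) (nat_lit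 2) true (nat_lit 9) true (nat_lit 14) true (nat_lit 4) true (nat_lit 14) true (nat_lit 7) (.s false (nat_lit 3) (nat_lit 18) (nat_lit 13) (nat_lit 2) (nat_lit 2) true (nat_lit 1) true (nat_lit 14) true (nat_lit 4) true (nat_lit 7) true (nat_lit 14) (.s false (nat_lit 1) (nat_lit 20) (nat_lit 1) (nat_lit 12) (nat_lit 2) true (nat_lit 10) true (nat_lit 14) true (nat_lit 3) true (nat_lit 15) true (nat_lit 7) (.s false (nat_lit 2) (nat_lit 20) (nat_lit 1) (nat_lit 13) (nat_lit 2) true (nat_lit 10) true (nat_lit 14) true (nat_lit 3) true (nat_lit 15) true (nat_lit 7) (.s true (nat_lit 3) (nat_lit 20) (nat_lit 2) (nat_lit 13) (nat_lit 1) true (nat_lit 10) true (nat_lit 15) true (nat_lit 3) true (nat_lit 14) true (nat_lit 7) (.s false (nat_lit 3) (nat_lit 20) (nat_lit 13) (nat_lit 1) (nat_lit 2) true (nat_lit 1) true (nat_lit 14) true (nat_lit 3) true (nat_lit 7) true (nat_lit 15) (.s false (nat_lit 1) (nat_lit 27) (nat_lit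 2) (nat_lit 2) (nat_lit 7) true (nat_lit 3) true (nat_lit 9) true (nat_lit 2) true (nat_lit 14) true (nat_lit 14) (.s false (nat_lit 1) (nat_lit 28) (nat_lit 2) (nat_lit 2) (nat_lit 7) true (nat_lit 3) true (nat_lit 9) true (nat_lit 2) true (nat_lit 14) true (nat_lit 14) (.s true (nat_lit 2) (nat_lit 27) (nat_lit 2) (nat_lit 7) (nat_lit 2) true (nat_lit 9) true (nat_lit 14) true (nat_lit 2) true (nat_lit 14) true (nat_lit 9) (.s true (nat_lit 2) (nat_lit 27) (nat_lit 7) (nat_lit 2) (nat_lit 2) true (nat_lit 3) true (nat_lit 14) true (nat_lit 2) true (nat_lit 9) true (nat_lit 14) (.s true (nat_lit 3) (nat_lit 34) (nat_lit 1) (nat_lit 7) (nat_lit 2) true (nat_lit 10) true (nat_lit 14) true (nat_lit 1) true (nat_lit 15) true (nat_lit 9) (.s true (nat_lit 1) (nat_lit 34) (nat_lit 2) (nat_lit 2) (nat_lit 6) true (nat_lit 4) true (nat_lit 10) true (nat_lit 1) true (nat_lit 14) true (nat_lit 14) (.s false (nat_lit 1)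 (nat_lit 35) (nat_lit 2) (nat_lit 2) (nat_lit 6) true (nat_lit 4) true (nat_lit 10) true (nat_lit 1) true (nat_lit 14) true (nat_lit 14) dC2d_i457)))))))))))))))))))) (.nd (.nd (.nd (.nd (.nd .leaf (nat_lit 331776) (nat_lit 1160) (.p (nat_lit 397) (nat_lit 1) .z) .df .leaf) (nat_lit 331777) (nat_lit 1393) (.p (nat_lit 447) (nat_lit 1) .z) .df .leaf) (nat_lit 332800) (nat_lit 1161) (.p (nat_lit 398) (nat_lit 1) .z) .df (.nd (.nd .leaf (nat_lit 332801) (nat_lit 1394) (.p (nat_lit 448) (nat_lit 1) .z) .df .leaf) (nat_lit 333824) (nat_lit 1162) (.p (nat_lit 399) (nat_lit 1) .z) .df .leaf)) (nat_lit 333825) (nat_lit 1420) (.n (nat_lit 436) (nat_lit 2) (.n (nat_lit 437) (nat_lit 2) (.p (nat_lit 438) (nat_lit 3) (.p (nat_lit 439) (nat_lit 1) (.p (nat_lit 440) (nat_lit 2) (.n (nat_lit 442) (nat_lit 2) (.n (nat_lit 443) (nat_lit 3) (.p (nat_lit 444) (nat_lit 2) (.p (nat_lit 447) (nat_lit 3) (.n (nat_lit 448) (nat_lit 2)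 (.n (nat_lit 450) (nat_lit 1) .z))))))))))) (.ct dC2d_c53 (nat_lit 1) (nat_lit 10) (.s false (nat_lit 1) (nat_lit 18) (nat_lit 2) (nat_lit 2) (nat_lit 14) true (nat_lit 0) true (nat_lit 4) true (nat_lit 3) true (nat_lit 9) true (nat_lit 9) (.s false (nat_lit 1) (nat_lit 19) (nat_lit 2) (nat_lit 2) (nat_lit 14) true (nat_lit 0) true (nat_lit 4) true (nat_lit 3) true (nat_lit 9) true (nat_lit 9) (.s true (nat_lit 3) (nat_lit 18) (nat_lit 2) (nat_lit 7) (nat_lit 4) true (nat_lit 4) true (nat_lit 8) true (nat_lit 3) true (nat_lit 9) true (nat_lit 6) (.s true (nat_lit 3) (nat_lit 18) (nat_lit 2) (nat_lit 14) (nat_lit 2) true (nat_lit 6) true (nat_lit 9) true (nat_lit 3) true (nat_lit 9) true (nat_lit 4) (.s false (nat_lit 3) (nat_lit 18) (nat_lit 14) (nat_lit 2) (nat_lit 2) true (nat_lit 0) true (nat_lit 9) true (nat_lit 3) true (nat_lit 4) true (nat_lit 9) (.s true (nat_lit 3) (nat_lit 20) (nat_lit 1) (nat_lit 7)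 (nat_lit 4) true (nat_lit 5) true (nat_lit 8) true (nat_lit 2) true (nat_lit 10) true (nat_lit 6) (.s false (nat_lit 1) (nat_lit 20) (nat_lit 1) (nat_lit 14) (nat_lit 2) true (nat_lit 7) true (nat_lit 9) true (nat_lit 2) true (nat_lit 10) true (nat_lit 4) (.s false (nat_lit 1) (nat_lit 30) (nat_lit 2) (nat_lit 2) (nat_lit 7) true (nat_lit 2) true (nat_lit 6) true (nat_lit 1) true (nat_lit 9) true (nat_lit 9) (.s false (nat_lit 2) (nat_lit 32) (nat_lit 2) (nat_lit 7) (nat_lit 2) true (nat_lit 6) true (nat_lit 9) true (nat_lit 1) true (nat_lit 9) true (nat_lit 6) (.s false (nat_lit 2) (nat_lit 32) (nat_lit 7) (nat_lit 2) (nat_lit 2) true (nat_lit 2) true (nat_lit 9) true (nat_lit 1) true (nat_lit 6) true (nat_lit 9) (.s true (nat_lit 1) (nat_lit 39) (nat_lit 2) (nat_lit 2) (nat_lit 6) true (nat_lit 3) true (nat_lit 7) true (nat_lit 0) true (nat_lit 9) true (nat_lit 9) (.s false (nat_lit 1) (nat_lit 39) (nat_lit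 2) (nat_lit 7) (nat_lit 1) true (nat_lit 7) true (nat_lit 10) true (nat_lit 0) true (nat_lit 9) true (nat_lit 6) (.s true (nat_lit 3) (nat_lit 45) (nat_lit 4) (nat_lit 2) (nat_lit 2) true (nat_lit 4) true (nat_lit 9) false (nat_lit 0) true (nat_lit 8) true (nat_lit 9) (.s true (nat_lit 2) (nat_lit 77) (nat_lit 2) (nat_lit 2) (nat_lit 2) true (nat_lit 6) true (nat_lit 9) false (nat_lit 2) true (nat_lit 9) true (nat_lit 9) (.s false (nat_lit 1) (nat_lit 91) (nat_lit 1) (nat_lit 2) (nat_lit 2) true (nat_lit 7) true (nat_lit 9) false (nat_lit 3) true (nat_lit 10) true (nat_lit 9) (.s false (nat_lit 1) (nat_lit 93) (nat_lit 2) (nat_lit 1) (nat_lit 2) true (nat_lit 6) true (nat_lit 9) false (nat_lit 3) true (nat_lit 9) true (nat_lit 10) (.e true (nat_lit 3) (nat_lit 96) (nat_lit 18) (nat_lit 3) (.e true (nat_lit 3) (nat_lit 290) (nat_lit 2) (nat_lit 9) (.e true (nat_lit 1) (nat_lit 292) (nat_lit 2) (nat_lit 9) dC2d_i458))))))))))))))))))))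 (.nd (.nd (.nd .leaf (nat_lit 334848) (nat_lit 1163) (.p (nat_lit 400) (nat_lit 1) .z) .df .leaf) (nat_lit 334849) (nat_lit 1395) (.p (nat_lit 449) (nat_lit 1) .z) .df .leaf) (nat_lit 335872) (nat_lit 1164) (.p (nat_lit 401) (nat_lit 1) .z) .df (.nd .leaf (nat_lit 335873) (nat_lit 1427) (.p (nat_lit 437) (nat_lit 1) (.p (nat_lit 438) (nat_lit 2) (.n (nat_lit 439) (nat_lit 3) (.p (nat_lit 440) (nat_lit 1) (.p (nat_lit 441) (nat_lit 2) (.n (nat_lit 442) (nat_lit 3) (.p (nat_lit 443) (nat_lit 3) (.p (nat_lit 444) (nat_lit 1) (.p (nat_lit 447) (nat_lit 1) (.p (nat_lit 448) (nat_lit 2) (.n (nat_lit 449) (nat_lit 2) (.p (nat_lit 450) (nat_lit 1) .z)))))))))))) (.ct dC2d_c53 (nat_lit 1) (nat_lit 10) (.s false (nat_lit 3) (nat_lit 19) (nat_lit 2) (nat_lit 2) (nat_lit 14) true (nat_lit 0) true (nat_lit 4) true (nat_lit 3) true (nat_lit 9) true (nat_lit 9) (.s false (nat_lit 1) (nat_lit 18) (nat_lit 15) (nat_lit 2) (nat_lit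 2) true (nat_lit 0) true (nat_lit 9) true (nat_lit 3) true (nat_lit 4) true (nat_lit 9) (.s true (nat_lit 1) (nat_lit 20) (nat_lit 1) (nat_lit 14) (nat_lit 2) true (nat_lit 7) true (nat_lit 9) true (nat_lit 2) true (nat_lit 10) true (nat_lit 4) (.s false (nat_lit 1) (nat_lit 31) (nat_lit 2) (nat_lit 2) (nat_lit 7) true (nat_lit 2) true (nat_lit 6) true (nat_lit 1) true (nat_lit 9) true (nat_lit 9) (.s true (nat_lit 2) (nat_lit 32) (nat_lit 2) (nat_lit 7) (nat_lit 2) true (nat_lit 6) true (nat_lit 9) true (nat_lit 1) true (nat_lit 9) true (nat_lit 6) (.s true (nat_lit 2) (nat_lit 32) (nat_lit 7) (nat_lit 2) (nat_lit 2) true (nat_lit 2) true (nat_lit 9) true (nat_lit 1) true (nat_lit 6) true (nat_lit 9) (.s true (nat_lit 1) (nat_lit 40) (nat_lit 2) (nat_lit 1) (nat_lit 7) true (nat_lit 2) true (nat_lit 6) true (nat_lit 0) true (nat_lit 9) true (nat_lit 10) (.s false (nat_lit 1) (nat_lit 39) (nat_lit 2) (nat_lit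 2) (nat_lit 6) true (nat_lit 3) true (nat_lit 7) true (nat_lit 0) true (nat_lit 9) true (nat_lit 9) (.s true (nat_lit 1) (nat_lit 40) (nat_lit 2) (nat_lit 2) (nat_lit 6) true (nat_lit 3) true (nat_lit 7) true (nat_lit 0) true (nat_lit 9) true (nat_lit 9) (.s false (nat_lit 1) (nat_lit 40) (nat_lit 2) (nat_lit 6) (nat_lit 2) true (nat_lit 6) true (nat_lit 9) true (nat_lit 0) true (nat_lit 9) true (nat_lit 7) (.s true (nat_lit 1) (nat_lit 39) (nat_lit 2) (nat_lit 7) (nat_lit 1) true (nat_lit 7) true (nat_lit 10) true (nat_lit 0) true (nat_lit 9) true (nat_lit 6) (.s true (nat_lit 3) (nat_lit 46) (nat_lit 4) (nat_lit 2) (nat_lit 2) true (nat_lit 4) true (nat_lit 9) false (nat_lit 0) true (nat_lit 8) true (nat_lit 9) (.s true (nat_lit 1) (nat_lit 91) (nat_lit 1) (nat_lit 2) (nat_lit 2) true (nat_lit 7) true (nat_lit 9) false (nat_lit 3) true (nat_lit 10) true (nat_lit 9) (.s true (nat_lit 1) (nat_lit 104) (nat_lit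 1) (nat_lit 2) (nat_lit 1) true (nat_lit 8) true (nat_lit 10) false (nat_lit 4) true (nat_lit 10) true (nat_lit 9) (.e false (nat_lit 3) (nat_lit 96) (nat_lit 19) (nat_lit 3) (.e false (nat_lit 1) (nat_lit 289) (nat_lit 2) (nat_lit 9) (.e false (nat_lit 2) (nat_lit 291) (nat_lit 2) (nat_lit 9) (.e false (nat_lit 1) (nat_lit 292) (nat_lit 2) (nat_lit 9) (.e true (nat_lit 3) (nat_lit 293) (nat_lit 2) (nat_lit 9) (.e false (nat_lit 1) (nat_lit 294) (nat_lit 2) (nat_lit 9) (.e false (nat_lit 2) (nat_lit 295) (nat_lit 2) (nat_lit 9) (.e false (nat_lit 3) (nat_lit 297) (nat_lit 2) (nat_lit 9) dC2d_i459))))))))))))))))))))))) .leaf))) (nat_lit 336896) (nat_lit 1165) (.p (nat_lit 402) (nat_lit 1) .z) .df (.nd (.nd (.nd (.nd .leaf (nat_lit 336897) (nat_lit 1411) (.p (nat_lit 436) (nat_lit 1) (.p (nat_lit 437) (nat_lit 1) (.p (nat_lit 438) (nat_lit 2) (.n (nat_lit 439) (nat_lit 1) (.n (nat_lit 440) (nat_lit 2) (.n (nat_lit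 441) (nat_lit 2) (.p (nat_lit 442) (nat_lit 1) (.p (nat_lit 443) (nat_lit 1) (.p (nat_lit 444) (nat_lit 1) (.n (nat_lit 447) (nat_lit 1) (.p (nat_lit 448) (nat_lit 1) (.n (nat_lit 450) (nat_lit 2) .z)))))))))))) (.ct dC2d_c53 (nat_lit 1) (nat_lit 10) (.s false (nat_lit 3) (nat_lit 14) (nat_lit 7) (nat_lit 7) (nat_lit 1) true (nat_lit 3) true (nat_lit 10) true (nat_lit 4) true (nat_lit 6) true (nat_lit 6) (.s false (nat_lit 3) (nat_lit 20) (nat_lit 2) (nat_lit 2) (nat_lit 10) true (nat_lit 1) true (nat_lit 5) true (nat_lit 2) true (nat_lit 9) true (nat_lit 9) dC2d_i460))) .leaf) (nat_lit 337920) (nat_lit 1166) (.p (nat_lit 403) (nat_lit 1) .z) .df .leaf) (nat_lit 337921) (nat_lit 1403) (.p (nat_lit 436) (nat_lit 2) (.n (nat_lit 437) (nat_lit 2) (.p (nat_lit 438) (nat_lit 1) (.p (nat_lit 439) (nat_lit 3) (.p (nat_lit 440) (nat_lit 3) (.n (nat_lit 441) (nat_lit 1) (.n (nat_lit 443) (nat_lit 3) (.p (nat_lit 445) (nat_lit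 1) (.p (nat_lit 447) (nat_lit 3) (.p (nat_lit 448) (nat_lit 3) (.p (nat_lit 449) (nat_lit 2) (.n (nat_lit 450) (nat_lit 3) .z)))))))))))) (.ct dC2d_c53 (nat_lit 1) (nat_lit 10) (.s false (nat_lit 1) (nat_lit 14) (nat_lit 2) (nat_lit 7) (nat_lit 6) true (nat_lit 3) true (nat_lit 7) true (nat_lit 4) true (nat_lit 9) true (nat_lit 6) (.s true (nat_lit 3) (nat_lit 14) (nat_lit 7) (nat_lit 2) (nat_lit 6) false (nat_lit 0) true (nat_lit 7) true (nat_lit 4) true (nat_lit 6) true (nat_lit 9) (.s false (nat_lit 1) (nat_lit 14) (nat_lit 7) (nat_lit 7) (nat_lit 1) true (nat_lit 3) true (nat_lit 10) true (nat_lit 4) true (nat_lit 6) true (nat_lit 6) (.s true (nat_lit 1) (nat_lit 18) (nat_lit 2) (nat_lit 2) (nat_lit 14) true (nat_lit 0) true (nat_lit 4) true (nat_lit 3) true (nat_lit 9) true (nat_lit 9) (.s false (nat_lit 2) (nat_lit 19) (nat_lit 2) (nat_lit 2) (nat_lit 14) true (nat_lit 0) true (nat_lit 4) true (nat_lit 3)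 true (nat_lit 9) true (nat_lit 9) (.s true (nat_lit 1) (nat_lit 18) (nat_lit 2) (nat_lit 4) (nat_lit 7) true (nat_lit 2) true (nat_lit 6) true (nat_lit 3) true (nat_lit 9) true (nat_lit 8) (.s true (nat_lit 1) (nat_lit 18) (nat_lit 2) (nat_lit 14) (nat_lit 2) true (nat_lit 6) true (nat_lit 9) true (nat_lit 3) true (nat_lit 9) true (nat_lit 4) (.s false (nat_lit 3) (nat_lit 18) (nat_lit 14) (nat_lit 2) (nat_lit 2) true (nat_lit 0) true (nat_lit 9) true (nat_lit 3) true (nat_lit 4) true (nat_lit 9) (.s false (nat_lit 3) (nat_lit 18) (nat_lit 15) (nat_lit 2) (nat_lit 2) true (nat_lit 0) true (nat_lit 9) true (nat_lit 3) true (nat_lit 4) true (nat_lit 9) (.s true (nat_lit 3) (nat_lit 19) (nat_lit 15) (nat_lit 2) (nat_lit 2) true (nat_lit 0) true (nat_lit 9) true (nat_lit 3) true (nat_lit 4) true (nat_lit 9) (.s false (nat_lit 3) (nat_lit 20) (nat_lit 1) (nat_lit 14) (nat_lit 2) true (nat_lit 7) true (nat_lit 9) true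 (nat_lit 2) true (nat_lit 10) true (nat_lit 4) (.s false (nat_lit 3) (nat_lit 20) (nat_lit 2) (nat_lit 2) (nat_lit 10) true (nat_lit 1) true (nat_lit 5) true (nat_lit 2) true (nat_lit 9) true (nat_lit 9) (.s false (nat_lit 2) (nat_lit 20) (nat_lit 2) (nat_lit 6) (nat_lit 4) true (nat_lit 4) true (nat_lit 8) true (nat_lit 2) true (nat_lit 9) true (nat_lit 7) (.s true (nat_lit 1) (nat_lit 20) (nat_lit 2) (nat_lit 14) (nat_lit 1) true (nat_lit 7) true (nat_lit 10) true (nat_lit 2) true (nat_lit 9) true (nat_lit 4) (.s true (nat_lit 1) (nat_lit 20) (nat_lit 6) (nat_lit 2) (nat_lit 4) true (nat_lit 1) true (nat_lit 8) true (nat_lit 2) true (nat_lit 7) true (nat_lit 9) dC2d_i462)))))))))))))))) (.nd (.nd .leaf (nat_lit 338944) (nat_lit 1167) (.p (nat_lit 404) (nat_lit 1) .z) .df .leaf) (nat_lit 338945) (nat_lit 1406) (.p (nat_lit 437) (nat_lit 2) (.p (nat_lit 438) (nat_lit 1) (.n (nat_lit 439) (nat_lit 3) (.n (nat_lit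 441) (nat_lit 1) (.p (nat_lit 442) (nat_lit 3) (.p (nat_lit 443) (nat_lit 1) (.p (nat_lit 444) (nat_lit 3) (.n (nat_lit 445) (nat_lit 2) (.p (nat_lit 447) (nat_lit 2) (.p (nat_lit 448) (nat_lit 3) (.p (nat_lit 449) (nat_lit 3) (.p (nat_lit 450) (nat_lit 1) .z)))))))))))) (.ct dC2d_c53 (nat_lit 1) (nat_lit 10) (.s true (nat_lit 3) (nat_lit 19) (nat_lit 2) (nat_lit 2) (nat_lit 14) true (nat_lit 0) true (nat_lit 4) true (nat_lit 3) true (nat_lit 9) true (nat_lit 9) (.s false (nat_lit 3) (nat_lit 18) (nat_lit 14) (nat_lit 2) (nat_lit 2) true (nat_lit 0) true (nat_lit 9) true (nat_lit 3) true (nat_lit 4) true (nat_lit 9) (.s true (nat_lit 2) (nat_lit 20) (nat_lit 2) (nat_lit 2) (nat_lit 10) true (nat_lit 1) true (nat_lit 5) true (nat_lit 2) true (nat_lit 9) true (nat_lit 9) (.s false (nat_lit 2) (nat_lit 20) (nat_lit 2) (nat_lit 14) (nat_lit 1) true (nat_lit 7) true (nat_lit 10) true (nat_lit 2) true (nat_lit 9) true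 (nat_lit 4) (.s true (nat_lit 3) (nat_lit 20) (nat_lit 6) (nat_lit 2) (nat_lit 4) true (nat_lit 1) true (nat_lit 8) true (nat_lit 2) true (nat_lit 7) true (nat_lit 9) (.s true (nat_lit 3) (nat_lit 20) (nat_lit 10) (nat_lit 2) (nat_lit 2) true (nat_lit 1) true (nat_lit 9) true (nat_lit 2) true (nat_lit 5) true (nat_lit 9) (.s false (nat_lit 3) (nat_lit 20) (nat_lit 14) (nat_lit 2) (nat_lit 1) true (nat_lit 1) true (nat_lit 10) true (nat_lit 2) true (nat_lit 4) true (nat_lit 9) (.s false (nat_lit 3) (nat_lit 39) (nat_lit 2) (nat_lit 2) (nat_lit 6) true (nat_lit 3) true (nat_lit 7) true (nat_lit 0) true (nat_lit 9) true (nat_lit 9) (.s false (nat_lit 2) (nat_lit 39) (nat_lit 2) (nat_lit 7) (nat_lit 1) true (nat_lit 7) true (nat_lit 10) true (nat_lit 0) true (nat_lit 9) true (nat_lit 6) (.s true (nat_lit 3) (nat_lit 39) (nat_lit 6) (nat_lit 2) (nat_lit 2) true (nat_lit 3) true (nat_lit 9) true (nat_lit 0) true (nat_lit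 7) true (nat_lit 9) (.s false (nat_lit 2) (nat_lit 47) (nat_lit 4) (nat_lit 2) (nat_lit 2) true (nat_lit 4) true (nat_lit 9) false (nat_lit 0) true (nat_lit 8) true (nat_lit 9) dC2d_i463)))))))))))) .leaf)) (nat_lit 339968) (nat_lit 1168) (.p (nat_lit 405) (nat_lit 1) .z) .df (.nd (.nd (.nd .leaf (nat_lit 340992) (nat_lit 1213) (.n (nat_lit 397) (nat_lit 3) (.p (nat_lit 398) (nat_lit 2) (.p (nat_lit 400) (nat_lit 3) (.p (nat_lit 401) (nat_lit 1) (.p (nat_lit 402) (nat_lit 3) (.n (nat_lit 403) (nat_lit 3) (.n (nat_lit 404) (nat_lit 3) (.n (nat_lit 405) (nat_lit 3) .z)))))))) (.ct dC2d_c293 (nat_lit 1) (nat_lit 16) (.s false (nat_lit 2) (nat_lit 9) (nat_lit 2) (nat_lit 7) (nat_lit 7) true (nat_lit 3) true (nat_lit 9) true (nat_lit 8) true (nat_lit 14) true (nat_lit 9) (.s false (nat_lit 3) (nat_lit 11) (nat_lit 1) (nat_lit 7) (nat_lit 7) true (nat_lit 4) true (nat_lit 9) true (nat_lit 7) true (nat_lit 15) true (nat_lit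 9) (.s false (nat_lit 1) (nat_lit 13) (nat_lit 2) (nat_lit 7) (nat_lit 6) true (nat_lit 4) true (nat_lit 10) true (nat_lit 7) true (nat_lit 14) true (nat_lit 9) (.s true (nat_lit 2) (nat_lit 12) (nat_lit 6) (nat_lit 2) (nat_lit 7) false (nat_lit 1) true (nat_lit 9) true (nat_lit 7) true (nat_lit 10) true (nat_lit 14) (.s true (nat_lit 2) (nat_lit 13) (nat_lit 7) (nat_lit 1) (nat_lit 7) false (nat_lit 2) true (nat_lit 9) true (nat_lit 7) true (nat_lit 9) true (nat_lit 15) dC2d_i469)))))) .leaf) (nat_lit 340993) (nat_lit 1447) (.n (nat_lit 436) (nat_lit 2) (.n (nat_lit 437) (nat_lit 2) (.p (nat_lit 438) (nat_lit 1) (.p (nat_lit 439) (nat_lit 1) (.n (nat_lit 440) (nat_lit 1) (.p (nat_lit 441) (nat_lit 1) (.p (nat_lit 442) (nat_lit 1) (.n (nat_lit 443) (nat_lit 1) (.n (nat_lit 444) (nat_lit 2) (.p (nat_lit 445) (nat_lit 1) (.p (nat_lit 447) (nat_lit 1) (.p (nat_lit 450) (nat_lit 2) .z)))))))))))) (.ct dC2d_c53 (nat_lit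 1) (nat_lit 10) (.s false (nat_lit 1) (nat_lit 101) (nat_lit 1) (nat_lit 1) (nat_lit 2) true (nat_lit 7) true (nat_lit 9) false (nat_lit 4) true (nat_lit 10) true (nat_lit 10) (.e false (nat_lit 1) (nat_lit 191) (nat_lit 6) (nat_lit 7) (.e true (nat_lit 2) (nat_lit 289) (nat_lit 2) (nat_lit 9) (.e false (nat_lit 3) (nat_lit 290) (nat_lit 2) (nat_lit 9) (.e false (nat_lit 1) (nat_lit 291) (nat_lit 2) (nat_lit 9) (.e true (nat_lit 1) (nat_lit 292) (nat_lit 2) (nat_lit 9) (.e false (nat_lit 3) (nat_lit 293) (nat_lit 2) (nat_lit 9) (.e false (nat_lit 1) (nat_lit 294) (nat_lit 2) (nat_lit 9) (.e false (nat_lit 3) (nat_lit 296) (nat_lit 2) (nat_lit 9) (.e false (nat_lit 1) (nat_lit 297) (nat_lit 2) (nat_lit 9) (.e false (nat_lit 2) (nat_lit 298) (nat_lit 2) (nat_lit 9) (.e false (nat_lit 1) (nat_lit 300) (nat_lit 2) (nat_lit 9) (.e false (nat_lit 3) (nat_lit 303) (nat_lit 2) (nat_lit 9) (.e true (nat_lit 3) (nat_lit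 304) (nat_lit 2) (nat_lit 9) (.e true (nat_lit 1) (nat_lit 101) (nat_lit 14) (nat_lit 4) (.e true (nat_lit 1) (nat_lit 324) (nat_lit 1) (nat_lit 10) (.e true (nat_lit 3) (nat_lit 326) (nat_lit 1) (nat_lit 10) (.e false (nat_lit 3) (nat_lit 327) (nat_lit 1) (nat_lit 10) (.e false (nat_lit 1) (nat_lit 330) (nat_lit 1) (nat_lit 10) (.e true (nat_lit 1) (nat_lit 334) (nat_lit 1) (nat_lit 10) (.u (nat_lit 2) (.p (nat_lit 3) (nat_lit 1) (.n (nat_lit 4) (nat_lit 1) (.p (nat_lit 6) (nat_lit 1) (.p (nat_lit 7) (nat_lit 1) (.n (nat_lit 11) (nat_lit 1) (.p (nat_lit 12) (nat_lit 1) (.p (nat_lit 13) (nat_lit 1) .z))))))) .nil)))))))))))))))))))))) .leaf) (nat_lit 342016) (nat_lit 1272) (.p (nat_lit 397) (nat_lit 1) (.p (nat_lit 398) (nat_lit 1) (.p (nat_lit 401) (nat_lit 2) (.p (nat_lit 402) (nat_lit 2) (.n (nat_lit 404) (nat_lit 1) (.n (nat_lit 405) (nat_lit 3) .z)))))) (.ct dC2d_c293 (nat_lit 1) (nat_lit 16) (.s false (nat_lit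 1) (nat_lit 17) (nat_lit 2) (nat_lit 15) (nat_lit 2) true (nat_lit 9) true (nat_lit 14) true (nat_lit 5) true (nat_lit 14) true (nat_lit 6) (.s true (nat_lit 1) (nat_lit 16) (nat_lit 15) (nat_lit 2) (nat_lit 2) true (nat_lit 0) true (nat_lit 14) true (nat_lit 5) true (nat_lit 6) true (nat_lit 14) (.s false (nat_lit 1) (nat_lit 20) (nat_lit 2) (nat_lit 0) (nat_lit 15) true (nat_lit 0) true (nat_lit 6) true (nat_lit 3) true (nat_lit 14) true (nat_lit 16) (.s true (nat_lit 1) (nat_lit 20) (nat_lit 15) (nat_lit 0) (nat_lit 2) true (nat_lit 0) true (nat_lit 14) true (nat_lit 3) true (nat_lit 6) true (nat_lit 16) (.s true (nat_lit 1) (nat_lit 29) (nat_lit 2) (nat_lit 2) (nat_lit 7) true (nat_lit 3) true (nat_lit 9) true (nat_lit 2) true (nat_lit 14) true (nat_lit 14) (.s false (nat_lit 1) (nat_lit 40) (nat_lit 2) (nat_lit 5) (nat_lit 2) true (nat_lit 9) true (nat_lit 14) true (nat_lit 0) true (nat_lit 14) true (nat_lit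 11) (.s true (nat_lit 1) (nat_lit 92) (nat_lit 2) (nat_lit 0) (nat_lit 2) true (nat_lit 9) true (nat_lit 14) false (nat_lit 5) true (nat_lit 14) true (nat_lit 16) (.s false (nat_lit 1) (nat_lit 92) (nat_lit 2) (nat_lit 2) (nat_lit 0) true (nat_lit 11) true (nat_lit 16) false (nat_lit 5) true (nat_lit 14) true (nat_lit 14) (.s true (nat_lit 1) (nat_lit 98) (nat_lit 1) (nat_lit 2) (nat_lit 1) true (nat_lit 12) true (nat_lit 15) false (nat_lit 6) true (nat_lit 15) true (nat_lit 14) (.s true (nat_lit 1) (nat_lit 99) (nat_lit 1) (nat_lit 2) (nat_lit 1) true (nat_lit 12) true (nat_lit 15) false (nat_lit 6) true (nat_lit 15) true (nat_lit 14) (.s false (nat_lit 1) (nat_lit 100) (nat_lit 1) (nat_lit 2) (nat_lit 1) true (nat_lit 12) true (nat_lit 15) false (nat_lit 6) true (nat_lit 15) true (nat_lit 14) (.e false (nat_lit 1) (nat_lit 136) (nat_lit 7) (nat_lit 9) (.e false (nat_lit 1) (nat_lit 141) (nat_lit 7) (nat_lit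 9) dC2d_i471)))))))))))))) (.nd .leaf (nat_lit 342017) (nat_lit 1410) (.p (nat_lit 436) (nat_lit 3) (.p (nat_lit 437) (nat_lit 3) (.n (nat_lit 438) (nat_lit 1) (.p (nat_lit 439) (nat_lit 2) (.n (nat_lit 440) (nat_lit 3) (.p (nat_lit 442) (nat_lit 3) (.p (nat_lit 443) (nat_lit 1) (.n (nat_lit 444) (nat_lit 3) (.n (nat_lit 447) (nat_lit 1) (.p (nat_lit 448) (nat_lit 1) (.n (nat_lit 450) (nat_lit 2) .z))))))))))) (.ct dC2d_c53 (nat_lit 1) (nat_lit 10) (.s true (nat_lit 1) (nat_lit 19) (nat_lit 2) (nat_lit 2) (nat_lit 14) true (nat_lit 0) true (nat_lit 4) true (nat_lit 3) true (nat_lit 9) true (nat_lit 9) (.s false (nat_lit 1) (nat_lit 18) (nat_lit 14) (nat_lit 2) (nat_lit 2) true (nat_lit 0) true (nat_lit 9) true (nat_lit 3) true (nat_lit 4) true (nat_lit 9) (.s true (nat_lit 1) (nat_lit 20) (nat_lit 2) (nat_lit 14) (nat_lit 1) true (nat_lit 7) true (nat_lit 10) true (nat_lit 2) true (nat_lit 9) true (nat_lit 4)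 (.s true (nat_lit 1) (nat_lit 20) (nat_lit 6) (nat_lit 2) (nat_lit 4) true (nat_lit 1) true (nat_lit 8) true (nat_lit 2) true (nat_lit 7) true (nat_lit 9) dC2d_i472))))) .leaf))))))

noncomputable def dC2d_t5 : Tr := (.nd dC2d_t3 (nat_lit 286721) (nat_lit 892) (.p (nat_lit 377) (nat_lit 1) .z) .df dC2d_t4)

noncomputable def dC2d_t6 : Tr := (.nd dC2d_t2 (nat_lit 222210) (nat_lit 948) (.n (nat_lit 335) (nat_lit 2) (.n (nat_lit 336) (nat_lit 2) (.p (nat_lit 337) (nat_lit 3) (.p (nat_lit 338) (nat_lit 3) (.n (nat_lit 339) (nat_lit 3) (.p (nat_lit 340) (nat_lit 3) (.p (nat_lit 341) (nat_lit 3) (.n (nat_lit 342) (nat_lit 3) (.n (nat_lit 343) (nat_lit 2) (.n (nat_lit 345) (nat_lit 1) (.n (nat_lit 346) (nat_lit 3) (.n (nat_lit 347) (nat_lit 2) (.p (nat_lit 349) (nat_lit 2) (.n (nat_lit 350) (nat_lit 2) (.p (nat_lit 351) (nat_lit 3) (.n (nat_lit 352) (nat_lit 2) (.n (nat_lit 353) (nat_lit 3) (.n (nat_lit 354) (nat_lit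 2) (.n (nat_lit 356) (nat_lit 2) (.p (nat_lit 357) (nat_lit 2) (.p (nat_lit 358) (nat_lit 1) (.n (nat_lit 359) (nat_lit 1) (.n (nat_lit 361) (nat_lit 3) (.p (nat_lit 362) (nat_lit 1) (.p (nat_lit 363) (nat_lit 2) (.p (nat_lit 364) (nat_lit 2) (.p (nat_lit 366) (nat_lit 1) (.n (nat_lit 367) (nat_lit 1) (.n (nat_lit 368) (nat_lit 1) (.n (nat_lit 369) (nat_lit 3) (.n (nat_lit 370) (nat_lit 1) (.p (nat_lit 371) (nat_lit 1) (.p (nat_lit 373) (nat_lit 1) (.p (nat_lit 374) (nat_lit 2) (.n (nat_lit 375) (nat_lit 1) (.p (nat_lit 377) (nat_lit 2) (.n (nat_lit 379) (nat_lit 1) (.n (nat_lit 380) (nat_lit 2) (.n (nat_lit 381) (nat_lit 2) (.n (nat_lit 382) (nat_lit 3) (.n (nat_lit 383) (nat_lit 2) .z))))))))))))))))))))))))))))))))))))))))) (.ct dC2d_c308 (nat_lit 1) (nat_lit 16) dC2d_i165) dC2d_t5)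

end Pool.Agent.MalP.Chk7
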