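import Pool.Agent.MalP.P7.Chk4
import Pool.Agent.MalP.P7.Ex7
import Pool.Agent.MalP.P7.CertC2a
import Pool.Agent.MalP.P7.CertC2b
import Pool.Agent.MalP.P7.CertC2c
import Pool.Agent.MalP.P7.CertC2d

/-! # Certificate of zC2Ex -/

set_option autoImplicit false
set_option maxRecDepth 100000

namespace Pool.Agent.MalP

universe u

namespace Chk7

noncomputable def dC2_c277 : Cm := .mk (nat_lit 746) (nat_lit 277) (nat_lit 305) (nat_lit 19) (.c (nat_lit 33) (nat_lit 6) (nat_lit 20) (nat_lit 1) (nat_lit 19) (.c (nat_lit 42) (nat_lit 3) (nat_lit 18) (nat_lit 2) (nat_lit 25) (.c (nat_lit 45) (nat_lit 3) (nat_lit 16) (nat_lit 2) (nat_lit 31) (.c (nat_lit 48) (nat_lit 1) (nat_lit 11) (nat_lit 3) (nat_lit 37) (.c (nat_lit 80) (nat_lit 11) (nat_lit 7) (nat_lit 1) (nat_lit 40) (.c (nat_lit 97) (nat_lit 4) (nat_lit 6) (nat_lit 1) (nat_lit 51) (.c (nat_lit 101) (nat_lit 4) (nat_lit 5) (nat_lit 1) (nat_lit 55) (.c (nat_lit 105) (nat_lit 1) (nat_lit 3) (nat_lit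 1) (nat_lit 59) (.c (nat_lit 169) (nat_lit 16) (nat_lit 2) (nat_lit 1) (nat_lit 60) (.c (nat_lit 195) (nat_lit 5) (nat_lit 1) (nat_lit 1) (nat_lit 76) (.c (nat_lit 200) (nat_lit 5) (nat_lit 0) (nat_lit 1) (nat_lit 81) .nil)))))))))))

noncomputable def dC2_i0 : IL := (.e true (nat_lit 1) (nat_lit 324) (nat_lit 1) (nat_lit 10) (.e true (nat_lit 3) (nat_lit 325) (nat_lit 1) (nat_lit 10) (.e true (nat_lit 2) (nat_lit 330) (nat_lit 1) (nat_lit 10) (.e false (nat_lit 2) (nat_lit 329) (nat_lit 1) (nat_lit 10) (.e true (nat_lit 1) (nat_lit 331) (nat_lit 1) (nat_lit 10) (.e false (nat_lit 1) (nat_lit 96) (nat_lit 19) (nat_lit 3) (.e true (nat_lit 1) (nat_lit 290) (nat_lit 2) (nat_lit 9) (.e false (nat_lit 1) (nat_lit 292) (nat_lit 2) (nat_lit 9) (.e true (nat_lit 1) (nat_lit 293) (nat_lit 2) (nat_lit 9) (.e false (nat_lit 3) (nat_lit 294) (nat_lit 2) (nat_lit 9) (.e true (nat_lit 2) (nat_lit 295) (nat_lit 2) (nat_lit 9) (.e false (nat_lit 1) (nat_lit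 297) (nat_lit 2) (nat_lit 9) (.e false (nat_lit 1) (nat_lit 298) (nat_lit 2) (nat_lit 9) (.e true (nat_lit 3) (nat_lit 300) (nat_lit 2) (nat_lit 9) (.e true (nat_lit 2) (nat_lit 303) (nat_lit 2) (nat_lit 9) (.e true (nat_lit 1) (nat_lit 304) (nat_lit 2) (nat_lit 9) (.e true (nat_lit 1) (nat_lit 296) (nat_lit 2) (nat_lit 9) (.e false (nat_lit 2) (nat_lit 163) (nat_lit 7) (nat_lit 6) (.e true (nat_lit 2) (nat_lit 167) (nat_lit 7) (nat_lit 6) (.e false (nat_lit 1) (nat_lit 190) (nat_lit 6) (nat_lit 7) (.e true (nat_lit 1) (nat_lit 334) (nat_lit 1) (nat_lit 10) (.e false (nat_lit 1) (nat_lit 104) (nat_lit 14) (nat_lit 4) (.e true (nat_lit 2) (nat_lit 204) (nat_lit 4) (nat_lit 8) (.e false (nat_lit 3) (nat_lit 78) (nat_lit 20) (nat_lit 2) (.u (nat_lit 2) (.n (nat_lit 0) (nat_lit 2) (.n (nat_lit 1) (nat_lit 1) (.p (nat_lit 2) (nat_lit 1) (.n (nat_lit 3) (nat_lit 1) (.n (nat_lit 4) (nat_lit 2) (.n (nat_lit 5) (nat_lit 1) (.n (nat_lit 6) (nat_lit 4)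 (.n (nat_lit 7) (nat_lit 1) (.p (nat_lit 8) (nat_lit 1) (.n (nat_lit 9) (nat_lit 1) (.n (nat_lit 11) (nat_lit 2) (.n (nat_lit 12) (nat_lit 1) (.n (nat_lit 13) (nat_lit 1) (.n (nat_lit 14) (nat_lit 1) (.n (nat_lit 20) (nat_lit 1) (.p (nat_lit 23) (nat_lit 1) (.p (nat_lit 40) (nat_lit 1) (.n (nat_lit 41) (nat_lit 1) (.p (nat_lit 55) (nat_lit 1) (.p (nat_lit 56) (nat_lit 1) (.n (nat_lit 57) (nat_lit 1) (.n (nat_lit 58) (nat_lit 1) (.n (nat_lit 80) (nat_lit 2) (.p (nat_lit 81) (nat_lit 5) (.n (nat_lit 82) (nat_lit 3) (.n (nat_lit 83) (nat_lit 5) (.p (nat_lit 85) (nat_lit 3) (.n (nat_lit 87) (nat_lit 1) (.p (nat_lit 88) (nat_lit 7) (.n (nat_lit 89) (nat_lit 3) (.n (nat_lit 90) (nat_lit 1) (.p (nat_lit 91) (nat_lit 1) (.p (nat_lit 92) (nat_lit 2) (.n (nat_lit 94) (nat_lit 4) (.n (nat_lit 95) (nat_lit 4) (.n (nat_lit 96) (nat_lit 1) (.p (nat_lit 97) (nat_lit 1) (.n (nat_lit 98) (nat_lit 3) (.p (nat_lit 99) (nat_lit 3) (.n (nat_lit 101) (nat_lit 1) (.p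 (nat_lit 102) (nat_lit 8) (.p (nat_lit 103) (nat_lit 3) .z)))))))))))))))))))))))))))))))))))))))))) .nil)))))))))))))))))))))))))

noncomputable def dC2_c53 : Cm := .mk (nat_lit 1382) (nat_lit 53) (nat_lit 436) (nat_lit 15) (.c (nat_lit 45) (nat_lit 3) (nat_lit 39) (nat_lit 3) (nat_lit 15) (.c (nat_lit 48) (nat_lit 1) (nat_lit 30) (nat_lit 3) (nat_lit 24) (.c (nat_lit 74) (nat_lit 6) (nat_lit 20) (nat_lit 1) (nat_lit 27) (.c (nat_lit 91) (nat_lit 6) (nat_lit 18) (nat_lit 2) (nat_lit 33) (.c (nat_lit 101) (nat_lit 4) (nat_lit 14) (nat_lit 2) (nat_lit 45) (.c (nat_lit 105) (nat_lit 1) (nat_lit 10) (nat_lit 1) (nat_lit 53) (.c (nat_lit 158) (nat_lit 11) (nat_lit 7) (nat_lit 1) (nat_lit 54) (.c (nat_lit 185) (nat_lit 10) (nat_lit 6) (nat_lit 1) (nat_lit 65) (.c (nat_lit 200) (nat_lit 5) (nat_lit 4) (nat_lit 1) (nat_lit 75) (.c (nat_lit 289) (nat_lit 16) (nat_lit 2) (nat_lit 1) (nat_lit 80) (.c (nat_lit 324) (nat_lit 11) (nat_lit 1) (nat_lit 1) (nat_lit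 96) .nil)))))))))))

noncomputable def dC2_t0 : Tr := (.nd dC2a_t6 (nat_lit 44051) (nat_lit 793) (.p (nat_lit 305) (nat_lit 2) (.p (nat_lit 306) (nat_lit 3) (.n (nat_lit 307) (nat_lit 1) (.n (nat_lit 308) (nat_lit 2) (.n (nat_lit 309) (nat_lit 3) (.n (nat_lit 310) (nat_lit 2) (.n (nat_lit 311) (nat_lit 3) (.p (nat_lit 312) (nat_lit 1) (.p (nat_lit 313) (nat_lit 1) (.p (nat_lit 314) (nat_lit 2) (.n (nat_lit 315) (nat_lit 1) (.p (nat_lit 317) (nat_lit 1) (.n (nat_lit 318) (nat_lit 1) (.p (nat_lit 320) (nat_lit 2) (.p (nat_lit 321) (nat_lit 1) (.p (nat_lit 323) (nat_lit 1) .z)))))))))))))))) (.ct dC2_c277 (nat_lit 1) (nat_lit 1) (.s false (nat_lit 1) (nat_lit 43) (nat_lit 2) (nat_lit 2) (nat_lit 1) true (nat_lit 5) true (nat_lit 9) false (nat_lit 1) true (nat_lit 8) true (nat_lit 8) (.e false (nat_lit 1) (nat_lit 98) (nat_lit 6) (nat_lit 5) (.e false (nat_lit 1) (nat_lit 196) (nat_lit 1) (nat_lit 9) (.e false (nat_lit 1) (nat_lit 169) (nat_lit 2)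 (nat_lit 8) (.e true (nat_lit 2) (nat_lit 170) (nat_lit 2) (nat_lit 8) (.e true (nat_lit 3) (nat_lit 172) (nat_lit 2) (nat_lit 8) (.e true (nat_lit 2) (nat_lit 173) (nat_lit 2) (nat_lit 8) (.e true (nat_lit 1) (nat_lit 174) (nat_lit 2) (nat_lit 8) (.e true (nat_lit 2) (nat_lit 175) (nat_lit 2) (nat_lit 8) (.e false (nat_lit 2) (nat_lit 177) (nat_lit 2) (nat_lit 8) (.e false (nat_lit 2) (nat_lit 178) (nat_lit 2) (nat_lit 8) (.e true (nat_lit 1) (nat_lit 180) (nat_lit 2) (nat_lit 8) (.e false (nat_lit 1) (nat_lit 182) (nat_lit 2) (nat_lit 8) (.e true (nat_lit 1) (nat_lit 183) (nat_lit 2) (nat_lit 8) (.e true (nat_lit 1) (nat_lit 184) (nat_lit 2) (nat_lit 8) (.e true (nat_lit 1) (nat_lit 171) (nat_lit 2) (nat_lit 8) (.e false (nat_lit 1) (nat_lit 176) (nat_lit 2) (nat_lit 8) (.e true (nat_lit 1) (nat_lit 179) (nat_lit 2) (nat_lit 8) (.u (nat_lit 2) (.n (nat_lit 0) (nat_lit 1) (.n (nat_lit 1) (nat_lit 1) (.p (nat_lit 4) (nat_lit 1) (.p (nat_lit 5)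 (nat_lit 1) (.p (nat_lit 8) (nat_lit 1) (.p (nat_lit 61) (nat_lit 1) (.p (nat_lit 63) (nat_lit 1) .z))))))) .nil)))))))))))))))))))) dC2b_t6)

noncomputable def dC2_t1 : Tr := (.nd dC2c_t6 (nat_lit 163847) (nat_lit 1424) (.n (nat_lit 436) (nat_lit 2) (.n (nat_lit 437) (nat_lit 1) (.n (nat_lit 439) (nat_lit 2) (.p (nat_lit 440) (nat_lit 3) (.n (nat_lit 441) (nat_lit 1) (.p (nat_lit 442) (nat_lit 2) (.p (nat_lit 443) (nat_lit 1) (.n (nat_lit 444) (nat_lit 2) (.n (nat_lit 447) (nat_lit 2) (.p (nat_lit 448) (nat_lit 3) .z)))))))))) (.ct dC2_c53 (nat_lit 1) (nat_lit 6) (.s false (nat_lit 3) (nat_lit 15) (nat_lit 7) (nat_lit 1) (nat_lit 7) false (nat_lit 1) true (nat_lit 6) true (nat_lit 4) true (nat_lit 6) true (nat_lit 10) (.s true (nat_lit 1) (nat_lit 19) (nat_lit 2) (nat_lit 2) (nat_lit 14) true (nat_lit 0) true (nat_lit 4) true (nat_lit 3) true (nat_lit 9) true (nat_lit 9) (.s true (nat_lit 3) (nat_lit 19) (nat_lit 15) (nat_lit 2) (nat_lit 2)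 true (nat_lit 0) true (nat_lit 9) true (nat_lit 3) true (nat_lit 4) true (nat_lit 9) (.s true (nat_lit 2) (nat_lit 20) (nat_lit 1) (nat_lit 4) (nat_lit 7) true (nat_lit 3) true (nat_lit 6) true (nat_lit 2) true (nat_lit 10) true (nat_lit 8) (.s true (nat_lit 1) (nat_lit 20) (nat_lit 1) (nat_lit 14) (nat_lit 2) true (nat_lit 7) true (nat_lit 9) true (nat_lit 2) true (nat_lit 10) true (nat_lit 4) (.s true (nat_lit 2) (nat_lit 20) (nat_lit 4) (nat_lit 1) (nat_lit 7) true (nat_lit 0) true (nat_lit 6) true (nat_lit 2) true (nat_lit 8) true (nat_lit 10) (.s false (nat_lit 1) (nat_lit 31) (nat_lit 2) (nat_lit 2) (nat_lit 7) true (nat_lit 2) true (nat_lit 6) true (nat_lit 1) true (nat_lit 9) true (nat_lit 9) (.s true (nat_lit 3) (nat_lit 40) (nat_lit 2) (nat_lit 1) (nat_lit 7) true (nat_lit 2) true (nat_lit 6) true (nat_lit 0) true (nat_lit 9) true (nat_lit 10) (.s false (nat_lit 1) (nat_lit 39) (nat_lit 2) (nat_lit 2) (nat_lit 6) true (nat_lit 3) true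 (nat_lit 7) true (nat_lit 0) true (nat_lit 9) true (nat_lit 9) (.s true (nat_lit 1) (nat_lit 39) (nat_lit 2) (nat_lit 7) (nat_lit 1) true (nat_lit 7) true (nat_lit 10) true (nat_lit 0) true (nat_lit 9) true (nat_lit 6) (.s false (nat_lit 3) (nat_lit 41) (nat_lit 7) (nat_lit 2) (nat_lit 1) true (nat_lit 3) true (nat_lit 10) true (nat_lit 0) true (nat_lit 6) true (nat_lit 9) (.s true (nat_lit 1) (nat_lit 91) (nat_lit 1) (nat_lit 2) (nat_lit 2) true (nat_lit 7) true (nat_lit 9) false (nat_lit 3) true (nat_lit 10) true (nat_lit 9) (.e true (nat_lit 2) (nat_lit 162) (nat_lit 7) (nat_lit 6) (.e false (nat_lit 2) (nat_lit 164) (nat_lit 7) (nat_lit 6) (.e true (nat_lit 2) (nat_lit 165) (nat_lit 7) (nat_lit 6) (.e true (nat_lit 2) (nat_lit 166) (nat_lit 7) (nat_lit 6) dC2_i0))))))))))))))))) dC2d_t6)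

noncomputable def dC2_t2 : Tr := (.nd dC2_t0 (nat_lit 88071) (nat_lit 795) (.n (nat_lit 305) (nat_lit 2) (.n (nat_lit 307) (nat_lit 3) (.p (nat_lit 308) (nat_lit 3) (.p (nat_lit 309) (nat_lit 2) (.p (nat_lit 310) (nat_lit 3) (.n (nat_lit 311) (nat_lit 1) (.n (nat_lit 312) (nat_lit 3) (.p (nat_lit 313) (nat_lit 2) (.n (nat_lit 314) (nat_lit 2) (.n (nat_lit 315) (nat_lit 3) (.p (nat_lit 322) (nat_lit 1) .z))))))))))) (.ct dC2_c277 (nat_lit 1) (nat_lit 4) (.s true (nat_lit 1) (nat_lit 7) (nat_lit 1) (nat_lit 5) (nat_lit 7) true (nat_lit 1) true (nat_lit 4) true (nat_lit 4) true (nat_lit 9) true (nat_lit 6) (.e true (nat_lit 1) (nat_lit 43) (nat_lit 19) (nat_lit 1) (.e true (nat_lit 1) (nat_lit 44) (nat_lit 19) (nat_lit 1) (.e true (nat_lit 2) (nat_lit 80) (nat_lit 7) (nat_lit 4) (.e false (nat_lit 3) (nat_lit 81) (nat_lit 7) (nat_lit 4) (.e false (nat_lit 2) (nat_lit 84) (nat_lit 7) (nat_lit 4) (.e false (nat_lit 3) (nat_lit 85) (nat_lit 7) (nat_lit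 4) (.e false (nat_lit 1) (nat_lit 87) (nat_lit 7) (nat_lit 4) (.e true (nat_lit 1) (nat_lit 90) (nat_lit 7) (nat_lit 4) (.e true (nat_lit 1) (nat_lit 89) (nat_lit 7) (nat_lit 4) (.e false (nat_lit 2) (nat_lit 196) (nat_lit 1) (nat_lit 9) (.e false (nat_lit 2) (nat_lit 197) (nat_lit 1) (nat_lit 9) (.u (nat_lit 2) (.p (nat_lit 0) (nat_lit 2) (.p (nat_lit 2) (nat_lit 1) (.p (nat_lit 3) (nat_lit 2) (.n (nat_lit 4) (nat_lit 2) (.p (nat_lit 5) (nat_lit 1) (.p (nat_lit 6) (nat_lit 1) (.p (nat_lit 7) (nat_lit 1) (.n (nat_lit 8) (nat_lit 1) (.n (nat_lit 9) (nat_lit 1) (.n (nat_lit 10) (nat_lit 1) .z)))))))))) .nil)))))))))))))) dC2_t1)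

noncomputable def dC2_cl : CL := (.c (nat_lit 256) (nat_lit 0) (nat_lit 1) (.c (nat_lit 16) (nat_lit 1) (nat_lit 1) (.c (nat_lit 1) (nat_lit 2) (nat_lit 1) (.c (nat_lit 272) (nat_lit 3) (nat_lit 1) (.c (nat_lit 32) (nat_lit 4) (nat_lit 1) (.c (nat_lit 257) (nat_lit 5) (nat_lit 1) (.c (nat_lit 17) (nat_lit 6) (nat_lit 1) (.c (nat_lit 2) (nat_lit 7) (nat_lit 1) (.c (nat_lit 288) (nat_lit 8) (nat_lit 2) (.c (nat_lit 48) (nat_lit 10) (nat_lit 1) (.c (nat_lit 273) (nat_lit 11) (nat_lit 3) (.c (nat_lit 33) (nat_lit 14) (nat_lit 2) (.c (nat_lit 258) (nat_lit 16) (nat_lit 2) (.c (nat_lit 18) (nat_lit 18) (nat_lit 2) (.c (nat_lit 3) (nat_lit 20) (nat_lit 1) (.c (nat_lit 304) (nat_lit 21) (nat_lit 3) (.c (nat_lit 289) (nat_lit 24) (nat_lit 6) (.c (nat_lit 49) (nat_lit 30) (nat_lit 3) (.c (nat_lit 274) (nat_lit 33) (nat_lit 6) (.c (nat_lit 34) (nat_lit 39) (nat_lit 3) (.c (nat_lit 259) (nat_lit 42) (nat_lit 3) (.c (nat_lit 19) (nat_lit 45) (nat_lit 3)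 (.c (nat_lit 4) (nat_lit 48) (nat_lit 1) (.c (nat_lit 305) (nat_lit 49) (nat_lit 11) (.c (nat_lit 290) (nat_lit 60) (nat_lit 14) (.c (nat_lit 50) (nat_lit 74) (nat_lit 6) (.c (nat_lit 275) (nat_lit 80) (nat_lit 11) (.c (nat_lit 35) (nat_lit 91) (nat_lit 6) (.c (nat_lit 260) (nat_lit 97) (nat_lit 4) (.c (nat_lit 20) (nat_lit 101) (nat_lit 4) (.c (nat_lit 5) (nat_lit 105) (nat_lit 1) (.c (nat_lit 306) (nat_lit 106) (nat_lit 26) (.c (nat_lit 291) (nat_lit 132) (nat_lit 26) (.c (nat_lit 51) (nat_lit 158) (nat_lit 11) (.c (nat_lit 276) (nat_lit 169) (nat_lit 16) (.c (nat_lit 36) (nat_lit 185) (nat_lit 10) (.c (nat_lit 261) (nat_lit 195) (nat_lit 5) (.c (nat_lit 21) (nat_lit 200) (nat_lit 5) (.c (nat_lit 307) (nat_lit 205) (nat_lit 47) (.c (nat_lit 292) (nat_lit 252) (nat_lit 37) (.c (nat_lit 52) (nat_lit 289) (nat_lit 16) (.c (nat_lit 277) (nat_lit 305) (nat_lit 19) (.c (nat_lit 37) (nat_lit 324) (nat_lit 11) (.c (nat_lit 308) (nat_lit 335) (nat_lit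 62) (.c (nat_lit 293) (nat_lit 397) (nat_lit 39) (.c (nat_lit 53) (nat_lit 436) (nat_lit 15) .nil))))))))))))))))))))))))))))))))))))))))))))))

noncomputable def dC2_D : Dt := ⟨(nat_lit 16777216), (nat_lit 8388608), (nat_lit 1), (nat_lit 451), (nat_lit 44410840529848000715924013186396241473174147697981168629582551308141391797107970848265829547222588385080375496865606440849553455443502946271621707211285953211469495346442180337856776988455513567536820702434969829837676681879413497692932224457927035376824135189425122684036407019162802113881367947040805185850812025336659144852895706480370479605429177183228559598815085101268997246311006186399908886759944526654838678453074433217242209941160215383484432988743942989740692492359733911912122341229968985807078584023660559292844494843401130532956774504273505709743858567473036537961183061594198872340772087453970757051424827693437735215054393226975519078349993307297863565821923150192490216548817265999587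11777660488252497201902189531712749138447726749994408617496122598362829162904315170159657839925707450153402007570669768648966302641532785573604368119407805685864140705030430002328547015557160390664345220324993331108382307478680360986813892167017772300611296706276275799328887677636331701898806197446590007604800849871215262392638144239171738736949829870725953673399917004740509422254388951560193777856349163095699936413617979347475088696630634752589157041239177324476812613956721391770891971688212740044484427105818147021803501023343105253759594509593855805277876315843647259933879594969757273367983679410672300067165065415911394904869195152243249929779394674344282052837228613151877674741779652954322562404368942718209044596706744108652351622170795847563046621381415288523261158808908656288431584895306612976045587456840439701998184201930348927377409027501091844930505768168836108777866600837832394278589986468741980116294679749694870117370552211560788105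81128928557721026623230601719284548443714463621762134626886945803184124510440876941026008556605604224219612589289934480556354660817439682807090618897002105106663732069918865773766548298014090577975017264514984799591085018996945492117273952095719794226058723202072093523748308619823493337290852040637285433229007072963827394298790502206974472965334202870727179399901404419430434750828839952120672469644364863985273260399946053631758832525565638879610816782763084976981041522691010102138216373002820763175424639876069329178342257747168275052778625155188424116692064154981613724058473569892127067342045993120954971870330420964774316834331585200716725549267144912705589960000371560437028068877111072140145593852181453807079013703310343597117953039286723183672593412487624748935703485876604870827875162318325614179383237671887785294533461957383799686290887710970025472865438855933024415358509687758968159169225702189678469851609351751160301031471919453255462977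55217599214812805289205126961235428926152836892663418261947252608319485241826400653739667959011589073655991869388613373650833215791570732482128553125603870912089928669019624263423593230075282453237972887471764700466648007788619428123472612326332225165100041999550310540198333510826134963144828870358649599908367160245013505678041963186879041854543730884572901920019171571250687629718969969374840639515102886711118452357097592506362130222441885519650287846661682907363834185257430300381132113000478124019327810574185711279966843183015042054595738207525248887672883451103075275221692622867501904251753621606853348138056165460259072142289120788485), (nat_lit 177450860423732151013018507785157322844204582246087173225750700397766535420569918441080126173977805123423859805786428375382070445102), dC2_t2, dC2_cl⟩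

noncomputable def dC2_gs : BL := (.c (nat_lit 49) (nat_lit 11) (nat_lit 48) (nat_lit 1) (nat_lit 0) (.c (nat_lit 60) (nat_lit 14) (nat_lit 45) (nat_lit 3) (nat_lit 11) (.c (nat_lit 74) (nat_lit 6) (nat_lit 42) (nat_lit 3) (nat_lit 53) (.c (nat_lit 80) (nat_lit 11) (nat_lit 39) (nat_lit 3) (nat_lit 71) (.c (nat_lit 91) (nat_lit 6) (nat_lit 33) (nat_lit 6) (nat_lit 104) (.c (nat_lit 97) (nat_lit 4) (nat_lit 30) (nat_lit 3) (nat_lit 140) (.c (nat_lit 101) (nat_lit 4) (nat_lit 24) (nat_lit 6) (nat_lit 152) (.c (nat_lit 105) (nat_lit 1) (nat_lit 21) (nat_lit 3) (nat_lit 176) (.c (nat_lit 106) (nat_lit 26) (nat_lit 20) (nat_lit 1) (nat_lit 179) (.c (nat_lit 132) (nat_lit 26) (nat_lit 18) (nat_lit 2) (nat_lit 205) (.c (nat_lit 158) (nat_lit 11) (nat_lit 16) (nat_lit 2) (nat_lit 257) (.c (nat_lit 169) (nat_lit 16) (nat_lit 14) (nat_lit 2) (nat_lit 279) (.c (nat_lit 185) (nat_lit 10) (nat_lit 11) (nat_lit 3) (nat_lit 311) (.c (nat_lit 195) (nat_lit 5)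 (nat_lit 10) (nat_lit 1) (nat_lit 341) (.c (nat_lit 200) (nat_lit 5) (nat_lit 8) (nat_lit 2) (nat_lit 346) (.c (nat_lit 205) (nat_lit 47) (nat_lit 7) (nat_lit 1) (nat_lit 356) (.c (nat_lit 252) (nat_lit 37) (nat_lit 6) (nat_lit 1) (nat_lit 403) (.c (nat_lit 289) (nat_lit 16) (nat_lit 5) (nat_lit 1) (nat_lit 440) (.c (nat_lit 305) (nat_lit 19) (nat_lit 4) (nat_lit 1) (nat_lit 456) (.c (nat_lit 324) (nat_lit 11) (nat_lit 3) (nat_lit 1) (nat_lit 475) (.c (nat_lit 335) (nat_lit 62) (nat_lit 2) (nat_lit 1) (nat_lit 486) (.c (nat_lit 397) (nat_lit 39) (nat_lit 1) (nat_lit 1) (nat_lit 548) (.c (nat_lit 436) (nat_lit 15) (nat_lit 0) (nat_lit 1) (nat_lit 587) .nil)))))))))))))))))))))))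

noncomputable def dC2_i1 : IL := (.s false (nat_lit 3) (nat_lit 134) (nat_lit 2) (nat_lit 2) (nat_lit 1) true (nat_lit 16) true (nat_lit 21) false (nat_lit 9) true (nat_lit 20) true (nat_lit 20) (.s false (nat_lit 3) (nat_lit 135) (nat_lit 2) (nat_lit 2) (nat_lit 1) true (nat_lit 16) true (nat_lit 21) false (nat_lit 9) true (nat_lit 20) true (nat_lit 20) (.s true (nat_lit 3) (nat_lit 137) (nat_lit 2) (nat_lit 2) (nat_lit 1) true (nat_lit 16) true (nat_lit 21) false (nat_lit 9) true (nat_lit 20) true (nat_lit 20) (.s false (nat_lit 2) (nat_lit 138) (nat_lit 2) (nat_lit 2) (nat_lit 1) true (nat_lit 16) true (nat_lit 21) false (nat_lit 9) true (nat_lit 20) true (nat_lit 20) (.s false (nat_lit 3) (nat_lit 145) (nat_lit 2) (nat_lit 2) (nat_lit 1) true (nat_lit 16) true (nat_lit 21) false (nat_lit 9) true (nat_lit 20) true (nat_lit 20) (.s false (nat_lit 1) (nat_lit 146) (nat_lit 2) (nat_lit 2) (nat_lit 1) true (nat_lit 16) true (nat_lit 21) false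 (nat_lit 9) true (nat_lit 20) true (nat_lit 20) (.s false (nat_lit 3) (nat_lit 149) (nat_lit 2) (nat_lit 2) (nat_lit 1) true (nat_lit 16) true (nat_lit 21) false (nat_lit 9) true (nat_lit 20) true (nat_lit 20) (.s true (nat_lit 1) (nat_lit 152) (nat_lit 2) (nat_lit 2) (nat_lit 1) true (nat_lit 16) true (nat_lit 21) false (nat_lit 9) true (nat_lit 20) true (nat_lit 20) (.s true (nat_lit 1) (nat_lit 154) (nat_lit 2) (nat_lit 2) (nat_lit 1) true (nat_lit 16) true (nat_lit 21) false (nat_lit 9) true (nat_lit 20) true (nat_lit 20) (.s true (nat_lit 2) (nat_lit 155) (nat_lit 2) (nat_lit 2) (nat_lit 1) true (nat_lit 16) true (nat_lit 21) false (nat_lit 9) true (nat_lit 20) true (nat_lit 20) (.s true (nat_lit 3) (nat_lit 157) (nat_lit 2) (nat_lit 2) (nat_lit 1) true (nat_lit 16) true (nat_lit 21) false (nat_lit 9) true (nat_lit 20) true (nat_lit 20) (.s true (nat_lit 1) (nat_lit 158) (nat_lit 0) (nat_lit 2) (nat_lit 2) true (nat_lit 17) true (nat_lit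 20) false (nat_lit 10) true (nat_lit 22) true (nat_lit 20) (.s true (nat_lit 2) (nat_lit 163) (nat_lit 0) (nat_lit 2) (nat_lit 2) true (nat_lit 17) true (nat_lit 20) false (nat_lit 10) true (nat_lit 22) true (nat_lit 20) (.s false (nat_lit 2) (nat_lit 167) (nat_lit 0) (nat_lit 2) (nat_lit 2) true (nat_lit 17) true (nat_lit 20) false (nat_lit 10) true (nat_lit 22) true (nat_lit 20) (.s false (nat_lit 2) (nat_lit 167) (nat_lit 2) (nat_lit 0) (nat_lit 2) true (nat_lit 15) true (nat_lit 20) false (nat_lit 10) true (nat_lit 20) true (nat_lit 22) (.s true (nat_lit 1) (nat_lit 181) (nat_lit 1) (nat_lit 2) (nat_lit 1) true (nat_lit 18) true (nat_lit 21) false (nat_lit 11) true (nat_lit 21) true (nat_lit 20) (.s true (nat_lit 2) (nat_lit 169) (nat_lit 2) (nat_lit 1) (nat_lit 1) true (nat_lit 16) true (nat_lit 21) false (nat_lit 11) true (nat_lit 20) true (nat_lit 21) (.s false (nat_lit 1) (nat_lit 181) (nat_lit 2) (nat_lit 1) (nat_lit 1) true (nat_lit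 16) true (nat_lit 21) false (nat_lit 11) true (nat_lit 20) true (nat_lit 21) (.s true (nat_lit 1) (nat_lit 204) (nat_lit 0) (nat_lit 1) (nat_lit 1) true (nat_lit 19) true (nat_lit 21) false (nat_lit 14) true (nat_lit 22) true (nat_lit 21) (.s true (nat_lit 1) (nat_lit 204) (nat_lit 1) (nat_lit 0) (nat_lit 1) true (nat_lit 18) true (nat_lit 21) false (nat_lit 14) true (nat_lit 21) true (nat_lit 22) (.s true (nat_lit 1) (nat_lit 204) (nat_lit 1) (nat_lit 1) (nat_lit 0) true (nat_lit 19) true (nat_lit 22) false (nat_lit 14) true (nat_lit 21) true (nat_lit 21) (.u (nat_lit 2) (.n (nat_lit 25) (nat_lit 1) (.p (nat_lit 26) (nat_lit 1) (.p (nat_lit 30) (nat_lit 1) (.n (nat_lit 31) (nat_lit 1) (.n (nat_lit 38) (nat_lit 1) (.n (nat_lit 44) (nat_lit 1) (.p (nat_lit 45) (nat_lit 1) (.p (nat_lit 52) (nat_lit 1) (.n (nat_lit 53) (nat_lit 1) (.n (nat_lit 67) (nat_lit 1) (.p (nat_lit 68) (nat_lit 1) (.p (nat_lit 69) (nat_lit 1) (.n (nat_lit 153) (nat_lit 1)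 (.p (nat_lit 154) (nat_lit 1) (.n (nat_lit 155) (nat_lit 1) (.p (nat_lit 157) (nat_lit 1) (.n (nat_lit 158) (nat_lit 1) (.p (nat_lit 165) (nat_lit 1) (.n (nat_lit 166) (nat_lit 1) (.p (nat_lit 179) (nat_lit 2) (.p (nat_lit 181) (nat_lit 1) (.p (nat_lit 182) (nat_lit 2) (.n (nat_lit 183) (nat_lit 2) (.p (nat_lit 185) (nat_lit 1) (.n (nat_lit 186) (nat_lit 1) (.n (nat_lit 187) (nat_lit 1) (.p (nat_lit 188) (nat_lit 2) (.p (nat_lit 189) (nat_lit 2) (.p (nat_lit 190) (nat_lit 2) (.p (nat_lit 191) (nat_lit 1) (.p (nat_lit 192) (nat_lit 3) (.p (nat_lit 193) (nat_lit 2) (.n (nat_lit 195) (nat_lit 7) (.n (nat_lit 196) (nat_lit 4) (.p (nat_lit 198) (nat_lit 1) (.p (nat_lit 199) (nat_lit 2) (.n (nat_lit 200) (nat_lit 6) (.n (nat_lit 202) (nat_lit 1) (.n (nat_lit 203) (nat_lit 2) (.n (nat_lit 207) (nat_lit 2) (.p (nat_lit 211) (nat_lit 2) (.n (nat_lit 217) (nat_lit 1) (.n (nat_lit 218) (nat_lit 1) (.p (nat_lit 222) (nat_lit 1) (.p (nat_lit 227) (nat_lit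 1) (.p (nat_lit 232) (nat_lit 1) (.p (nat_lit 233) (nat_lit 1) (.n (nat_lit 237) (nat_lit 1) (.n (nat_lit 248) (nat_lit 1) (.n (nat_lit 252) (nat_lit 1) (.p (nat_lit 254) (nat_lit 1) (.p (nat_lit 262) (nat_lit 1) (.n (nat_lit 311) (nat_lit 3) (.p (nat_lit 313) (nat_lit 4) (.n (nat_lit 314) (nat_lit 4) (.p (nat_lit 316) (nat_lit 2) (.n (nat_lit 350) (nat_lit 1) (.p (nat_lit 352) (nat_lit 1) (.n (nat_lit 353) (nat_lit 1) (.n (nat_lit 356) (nat_lit 5) .z)))))))))))))))))))))))))))))))))))))))))))))))))))))))))))) (.u (nat_lit 2) (.p (nat_lit 357) (nat_lit 3) (.n (nat_lit 358) (nat_lit 18) (.p (nat_lit 359) (nat_lit 2) (.p (nat_lit 360) (nat_lit 5) (.p (nat_lit 361) (nat_lit 3) (.n (nat_lit 362) (nat_lit 8) (.n (nat_lit 363) (nat_lit 4) (.p (nat_lit 364) (nat_lit 4) (.n (nat_lit 365) (nat_lit 8) (.n (nat_lit 366) (nat_lit 2) (.n (nat_lit 367) (nat_lit 7) (.n (nat_lit 368) (nat_lit 10) (.n (nat_lit 369) (nat_lit 5) (.n (nat_lit 370) (nat_lit 8) (.p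 (nat_lit 371) (nat_lit 2) (.n (nat_lit 372) (nat_lit 3) (.n (nat_lit 373) (nat_lit 6) (.n (nat_lit 376) (nat_lit 3) (.p (nat_lit 377) (nat_lit 4) (.n (nat_lit 378) (nat_lit 3) (.p (nat_lit 379) (nat_lit 3) (.p (nat_lit 380) (nat_lit 2) (.p (nat_lit 381) (nat_lit 12) (.n (nat_lit 382) (nat_lit 6) (.p (nat_lit 383) (nat_lit 7) (.p (nat_lit 384) (nat_lit 1) (.n (nat_lit 385) (nat_lit 3) (.n (nat_lit 386) (nat_lit 1) (.n (nat_lit 389) (nat_lit 3) (.p (nat_lit 393) (nat_lit 9) (.p (nat_lit 394) (nat_lit 3) (.p (nat_lit 395) (nat_lit 2) (.p (nat_lit 396) (nat_lit 7) (.n (nat_lit 398) (nat_lit 3) (.n (nat_lit 399) (nat_lit 18) (.n (nat_lit 400) (nat_lit 2) (.n (nat_lit 402) (nat_lit 11) (.p (nat_lit 403) (nat_lit 1) (.p (nat_lit 404) (nat_lit 1) (.p (nat_lit 405) (nat_lit 7) (.n (nat_lit 406) (nat_lit 2) (.n (nat_lit 407) (nat_lit 2) (.n (nat_lit 410) (nat_lit 2) (.p (nat_lit 411) (nat_lit 2) (.n (nat_lit 413) (nat_lit 1) (.n (nat_lit 414) (nat_lit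 1) (.n (nat_lit 415) (nat_lit 2) (.n (nat_lit 416) (nat_lit 1) (.p (nat_lit 417) (nat_lit 6) (.n (nat_lit 418) (nat_lit 3) (.n (nat_lit 420) (nat_lit 1) (.p (nat_lit 421) (nat_lit 1) (.n (nat_lit 422) (nat_lit 2) (.n (nat_lit 423) (nat_lit 2) (.n (nat_lit 424) (nat_lit 2) (.n (nat_lit 425) (nat_lit 2) (.p (nat_lit 426) (nat_lit 1) (.p (nat_lit 427) (nat_lit 2) (.p (nat_lit 428) (nat_lit 2) (.p (nat_lit 434) (nat_lit 1) .z)))))))))))))))))))))))))))))))))))))))))))))))))))))))))))) (.u (nat_lit 2) (.n (nat_lit 440) (nat_lit 1) (.p (nat_lit 445) (nat_lit 1) (.n (nat_lit 449) (nat_lit 1) (.n (nat_lit 454) (nat_lit 1) (.p (nat_lit 458) (nat_lit 3) (.p (nat_lit 459) (nat_lit 3) (.n (nat_lit 464) (nat_lit 1) (.p (nat_lit 465) (nat_lit 3) (.n (nat_lit 466) (nat_lit 3) (.n (nat_lit 475) (nat_lit 2) (.p (nat_lit 476) (nat_lit 1) (.p (nat_lit 480) (nat_lit 3) (.n (nat_lit 481) (nat_lit 5) (.n (nat_lit 482) (nat_lit 8) (.p (nat_lit 486) (nat_lit 20) (.n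 (nat_lit 487) (nat_lit 36) (.p (nat_lit 488) (nat_lit 69) (.n (nat_lit 489) (nat_lit 34) (.p (nat_lit 490) (nat_lit 29) (.n (nat_lit 491) (nat_lit 15) (.p (nat_lit 492) (nat_lit 6) (.n (nat_lit 493) (nat_lit 7) (.n (nat_lit 494) (nat_lit 41) (.p (nat_lit 495) (nat_lit 50) (.n (nat_lit 496) (nat_lit 78) (.p (nat_lit 497) (nat_lit 16) (.p (nat_lit 498) (nat_lit 14) (.n (nat_lit 499) (nat_lit 6) (.p (nat_lit 500) (nat_lit 6) (.p (nat_lit 501) (nat_lit 2) (.p (nat_lit 502) (nat_lit 42) (.n (nat_lit 503) (nat_lit 9) (.p (nat_lit 504) (nat_lit 20) (.n (nat_lit 505) (nat_lit 46) (.p (nat_lit 506) (nat_lit 29) (.n (nat_lit 507) (nat_lit 70) (.p (nat_lit 508) (nat_lit 70) (.n (nat_lit 509) (nat_lit 49) (.p (nat_lit 510) (nat_lit 27) (.n (nat_lit 511) (nat_lit 17) (.n (nat_lit 512) (nat_lit 45) (.p (nat_lit 513) (nat_lit 16) (.p (nat_lit 514) (nat_lit 43) (.n (nat_lit 515) (nat_lit 12) (.n (nat_lit 516) (nat_lit 6) (.n (nat_lit 517) (nat_lit 22) (.n (nat_lit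 518) (nat_lit 93) (.p (nat_lit 519) (nat_lit 15) (.n (nat_lit 520) (nat_lit 21) (.p (nat_lit 521) (nat_lit 20) (.n (nat_lit 522) (nat_lit 46) (.n (nat_lit 523) (nat_lit 49) (.n (nat_lit 524) (nat_lit 14) (.n (nat_lit 525) (nat_lit 1) (.p (nat_lit 526) (nat_lit 5) (.p (nat_lit 527) (nat_lit 4) (.n (nat_lit 528) (nat_lit 10) (.n (nat_lit 529) (nat_lit 6) (.p (nat_lit 530) (nat_lit 13) (.n (nat_lit 531) (nat_lit 16) .z)))))))))))))))))))))))))))))))))))))))))))))))))))))))))))) (.u (nat_lit 2) (.p (nat_lit 532) (nat_lit 14) (.n (nat_lit 533) (nat_lit 52) (.n (nat_lit 534) (nat_lit 9) (.p (nat_lit 535) (nat_lit 10) (.p (nat_lit 536) (nat_lit 1) (.p (nat_lit 537) (nat_lit 7) (.n (nat_lit 538) (nat_lit 10) (.n (nat_lit 541) (nat_lit 3) (.n (nat_lit 542) (nat_lit 7) (.p (nat_lit 543) (nat_lit 2) (.p (nat_lit 544) (nat_lit 2) (.p (nat_lit 548) (nat_lit 8) (.p (nat_lit 549) (nat_lit 6) (.p (nat_lit 550) (nat_lit 11) (.n (nat_lit 551) (nat_lit 18) (.n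 (nat_lit 552) (nat_lit 2) (.p (nat_lit 553) (nat_lit 9) (.p (nat_lit 554) (nat_lit 6) (.n (nat_lit 555) (nat_lit 20) (.p (nat_lit 556) (nat_lit 7) (.p (nat_lit 557) (nat_lit 1) (.n (nat_lit 558) (nat_lit 15) (.p (nat_lit 559) (nat_lit 3) (.n (nat_lit 560) (nat_lit 3) (.n (nat_lit 561) (nat_lit 1) (.p (nat_lit 562) (nat_lit 17) (.n (nat_lit 563) (nat_lit 4) (.p (nat_lit 564) (nat_lit 2) (.p (nat_lit 565) (nat_lit 4) (.n (nat_lit 566) (nat_lit 3) (.n (nat_lit 567) (nat_lit 7) (.p (nat_lit 568) (nat_lit 1) (.p (nat_lit 569) (nat_lit 10) (.p (nat_lit 570) (nat_lit 1) (.n (nat_lit 571) (nat_lit 7) (.p (nat_lit 572) (nat_lit 15) (.p (nat_lit 573) (nat_lit 4) (.n (nat_lit 575) (nat_lit 6) (.p (nat_lit 577) (nat_lit 3) (.n (nat_lit 578) (nat_lit 5) (.p (nat_lit 582) (nat_lit 2) (.n (nat_lit 583) (nat_lit 5) (.n (nat_lit 586) (nat_lit 11) (.p (nat_lit 587) (nat_lit 2) (.n (nat_lit 588) (nat_lit 6) (.p (nat_lit 589) (nat_lit 3) (.p (nat_lit 590) (nat_lit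 3) (.p (nat_lit 591) (nat_lit 3) (.n (nat_lit 592) (nat_lit 2) (.n (nat_lit 594) (nat_lit 3) (.n (nat_lit 595) (nat_lit 2) (.p (nat_lit 596) (nat_lit 2) (.p (nat_lit 598) (nat_lit 3) (.p (nat_lit 599) (nat_lit 1) (.n (nat_lit 601) (nat_lit 7) .z))))))))))))))))))))))))))))))))))))))))))))))))))))))) .nil)))))))))))))))))))))))))

noncomputable def dC2_i2 : IL := (.s false (nat_lit 3) (nat_lit 88) (nat_lit 2) (nat_lit 6) (nat_lit 1) true (nat_lit 16) true (nat_lit 21) false (nat_lit 3) true (nat_lit 20) true (nat_lit 16) (.s false (nat_lit 1) (nat_lit 80) (nat_lit 6) (nat_lit 1) (nat_lit 2) true (nat_lit 9) true (nat_lit 20) false (nat_lit 3) true (nat_lit 16) true (nat_lit 21) (.s false (nat_lit 3) (nat_lit 117) (nat_lit 2) (nat_lit 2) (nat_lit 2) true (nat_lit 15) true (nat_lit 20) false (nat_lit 8) true (nat_lit 20) true (nat_lit 20) (.s false (nat_lit 2) (nat_lit 119) (nat_lit 2) (nat_lit 2) (nat_lit 2) true (nat_lit 15) true (nat_lit 20)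 false (nat_lit 8) true (nat_lit 20) true (nat_lit 20) (.s false (nat_lit 1) (nat_lit 122) (nat_lit 2) (nat_lit 2) (nat_lit 2) true (nat_lit 15) true (nat_lit 20) false (nat_lit 8) true (nat_lit 20) true (nat_lit 20) (.s true (nat_lit 2) (nat_lit 123) (nat_lit 2) (nat_lit 2) (nat_lit 2) true (nat_lit 15) true (nat_lit 20) false (nat_lit 8) true (nat_lit 20) true (nat_lit 20) (.s true (nat_lit 1) (nat_lit 127) (nat_lit 2) (nat_lit 2) (nat_lit 2) true (nat_lit 15) true (nat_lit 20) false (nat_lit 8) true (nat_lit 20) true (nat_lit 20) (.s true (nat_lit 1) (nat_lit 133) (nat_lit 1) (nat_lit 2) (nat_lit 2) true (nat_lit 16) true (nat_lit 20) false (nat_lit 9) true (nat_lit 21) true (nat_lit 20) (.s false (nat_lit 2) (nat_lit 135) (nat_lit 1) (nat_lit 2) (nat_lit 2) true (nat_lit 16) true (nat_lit 20) false (nat_lit 9) true (nat_lit 21) true (nat_lit 20) (.s false (nat_lit 1) (nat_lit 137) (nat_lit 1) (nat_lit 2) (nat_lit 2) true (nat_lit 16) true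 (nat_lit 20) false (nat_lit 9) true (nat_lit 21) true (nat_lit 20) (.s false (nat_lit 1) (nat_lit 138) (nat_lit 1) (nat_lit 2) (nat_lit 2) true (nat_lit 16) true (nat_lit 20) false (nat_lit 9) true (nat_lit 21) true (nat_lit 20) (.s true (nat_lit 1) (nat_lit 144) (nat_lit 1) (nat_lit 2) (nat_lit 2) true (nat_lit 16) true (nat_lit 20) false (nat_lit 9) true (nat_lit 21) true (nat_lit 20) (.s true (nat_lit 2) (nat_lit 145) (nat_lit 1) (nat_lit 2) (nat_lit 2) true (nat_lit 16) true (nat_lit 20) false (nat_lit 9) true (nat_lit 21) true (nat_lit 20) (.s true (nat_lit 2) (nat_lit 149) (nat_lit 1) (nat_lit 2) (nat_lit 2) true (nat_lit 16) true (nat_lit 20) false (nat_lit 9) true (nat_lit 21) true (nat_lit 20) (.s true (nat_lit 2) (nat_lit 154) (nat_lit 1) (nat_lit 2) (nat_lit 2) true (nat_lit 16) true (nat_lit 20) false (nat_lit 9) true (nat_lit 21) true (nat_lit 20) (.s false (nat_lit 2) (nat_lit 157) (nat_lit 1) (nat_lit 2) (nat_lit 2) true (nat_lit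 16) true (nat_lit 20) false (nat_lit 9) true (nat_lit 21) true (nat_lit 20) (.s false (nat_lit 1) (nat_lit 133) (nat_lit 2) (nat_lit 1) (nat_lit 2) true (nat_lit 15) true (nat_lit 20) false (nat_lit 9) true (nat_lit 20) true (nat_lit 21) (.s false (nat_lit 3) (nat_lit 134) (nat_lit 2) (nat_lit 1) (nat_lit 2) true (nat_lit 15) true (nat_lit 20) false (nat_lit 9) true (nat_lit 20) true (nat_lit 21) (.s true (nat_lit 1) (nat_lit 138) (nat_lit 2) (nat_lit 1) (nat_lit 2) true (nat_lit 15) true (nat_lit 20) false (nat_lit 9) true (nat_lit 20) true (nat_lit 21) (.s true (nat_lit 3) (nat_lit 146) (nat_lit 2) (nat_lit 1) (nat_lit 2) true (nat_lit 15) true (nat_lit 20) false (nat_lit 9) true (nat_lit 20) true (nat_lit 21) (.s false (nat_lit 2) (nat_lit 153) (nat_lit 2) (nat_lit 1) (nat_lit 2) true (nat_lit 15) true (nat_lit 20) false (nat_lit 9) true (nat_lit 20) true (nat_lit 21) (.s false (nat_lit 1) (nat_lit 154) (nat_lit 2) (nat_lit 1) (nat_lit 2)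 true (nat_lit 15) true (nat_lit 20) false (nat_lit 9) true (nat_lit 20) true (nat_lit 21) (.s true (nat_lit 3) (nat_lit 155) (nat_lit 2) (nat_lit 1) (nat_lit 2) true (nat_lit 15) true (nat_lit 20) false (nat_lit 9) true (nat_lit 20) true (nat_lit 21) (.s true (nat_lit 3) (nat_lit 132) (nat_lit 2) (nat_lit 2) (nat_lit 1) true (nat_lit 16) true (nat_lit 21) false (nat_lit 9) true (nat_lit 20) true (nat_lit 20) (.s true (nat_lit 2) (nat_lit 133) (nat_lit 2) (nat_lit 2) (nat_lit 1) true (nat_lit 16) true (nat_lit 21) false (nat_lit 9) true (nat_lit 20) true (nat_lit 20) dC2_i1)))))))))))))))))))))))))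

noncomputable def dC2_i3 : IL := (.s false (nat_lit 3) (nat_lit 63) (nat_lit 6) (nat_lit 2) (nat_lit 2) true (nat_lit 9) true (nat_lit 20) false (nat_lit 1) true (nat_lit 16) true (nat_lit 20) (.s false (nat_lit 1) (nat_lit 66) (nat_lit 6) (nat_lit 2) (nat_lit 2) true (nat_lit 9) true (nat_lit 20) false (nat_lit 1) true (nat_lit 16) true (nat_lit 20) (.s true (nat_lit 2) (nat_lit 73) (nat_lit 6) (nat_lit 2) (nat_lit 2) true (nat_lit 9) true (nat_lit 20) false (nat_lit 1) true (nat_lit 16) true (nat_lit 20) (.s false (nat_lit 1) (nat_lit 60) (nat_lit 7) (nat_lit 1) (nat_lit 2) true (nat_lit 8) true (nat_lit 20) false (nat_lit 1) true (nat_lit 15) true (nat_lit 21) (.s false (nat_lit 1) (nat_lit 66) (nat_lit 7) (nat_lit 1) (nat_lit 2) true (nat_lit 8) true (nat_lit 20) false (nat_lit 1) true (nat_lit 15) true (nat_lit 21) (.s false (nat_lit 1) (nat_lit 72) (nat_lit 7) (nat_lit 1) (nat_lit 2) true (nat_lit 8) true (nat_lit 20) false (nat_lit 1)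 true (nat_lit 15) true (nat_lit 21) (.s false (nat_lit 3) (nat_lit 60) (nat_lit 7) (nat_lit 2) (nat_lit 1) true (nat_lit 9) true (nat_lit 21) false (nat_lit 1) true (nat_lit 15) true (nat_lit 20) (.s true (nat_lit 1) (nat_lit 63) (nat_lit 7) (nat_lit 2) (nat_lit 1) true (nat_lit 9) true (nat_lit 21) false (nat_lit 1) true (nat_lit 15) true (nat_lit 20) (.s false (nat_lit 1) (nat_lit 79) (nat_lit 0) (nat_lit 7) (nat_lit 2) true (nat_lit 17) true (nat_lit 20) false (nat_lit 2) true (nat_lit 22) true (nat_lit 15) (.s true (nat_lit 3) (nat_lit 74) (nat_lit 2) (nat_lit 2) (nat_lit 5) true (nat_lit 10) true (nat_lit 17) false (nat_lit 2) true (nat_lit 20) true (nat_lit 20) (.s false (nat_lit 3) (nat_lit 79) (nat_lit 2) (nat_lit 2) (nat_lit 5) true (nat_lit 10) true (nat_lit 17) false (nat_lit 2) true (nat_lit 20) true (nat_lit 20) (.s false (nat_lit 3) (nat_lit 74) (nat_lit 2) (nat_lit 5) (nat_lit 2) true (nat_lit 15) true (nat_lit 20) false (nat_lit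 2) true (nat_lit 20) true (nat_lit 17) (.s true (nat_lit 3) (nat_lit 79) (nat_lit 2) (nat_lit 5) (nat_lit 2) true (nat_lit 15) true (nat_lit 20) false (nat_lit 2) true (nat_lit 20) true (nat_lit 17) (.s false (nat_lit 3) (nat_lit 74) (nat_lit 5) (nat_lit 2) (nat_lit 2) true (nat_lit 10) true (nat_lit 20) false (nat_lit 2) true (nat_lit 17) true (nat_lit 20) (.s false (nat_lit 3) (nat_lit 79) (nat_lit 5) (nat_lit 2) (nat_lit 2) true (nat_lit 10) true (nat_lit 20) false (nat_lit 2) true (nat_lit 17) true (nat_lit 20) (.s true (nat_lit 3) (nat_lit 74) (nat_lit 7) (nat_lit 0) (nat_lit 2) true (nat_lit 8) true (nat_lit 20) false (nat_lit 2) true (nat_lit 15) true (nat_lit 22) (.s false (nat_lit 2) (nat_lit 79) (nat_lit 7) (nat_lit 0) (nat_lit 2) true (nat_lit 8) true (nat_lit 20) false (nat_lit 2) true (nat_lit 15) true (nat_lit 22) (.s false (nat_lit 2) (nat_lit 80) (nat_lit 1) (nat_lit 2) (nat_lit 6) true (nat_lit 11) true (nat_lit 16) false (nat_lit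 3) true (nat_lit 21) true (nat_lit 20) (.s false (nat_lit 1) (nat_lit 80) (nat_lit 1) (nat_lit 6) (nat_lit 2) true (nat_lit 16) true (nat_lit 20) false (nat_lit 3) true (nat_lit 21) true (nat_lit 16) (.s false (nat_lit 1) (nat_lit 80) (nat_lit 2) (nat_lit 1) (nat_lit 6) true (nat_lit 9) true (nat_lit 16) false (nat_lit 3) true (nat_lit 20) true (nat_lit 21) (.s false (nat_lit 1) (nat_lit 88) (nat_lit 2) (nat_lit 1) (nat_lit 6) true (nat_lit 9) true (nat_lit 16) false (nat_lit 3) true (nat_lit 20) true (nat_lit 21) (.s true (nat_lit 2) (nat_lit 81) (nat_lit 2) (nat_lit 6) (nat_lit 1) true (nat_lit 16) true (nat_lit 21) false (nat_lit 3) true (nat_lit 20) true (nat_lit 16) (.s false (nat_lit 2) (nat_lit 82) (nat_lit 2) (nat_lit 6) (nat_lit 1) true (nat_lit 16) true (nat_lit 21) false (nat_lit 3) true (nat_lit 20) true (nat_lit 16) (.s false (nat_lit 2) (nat_lit 83) (nat_lit 2) (nat_lit 6) (nat_lit 1) true (nat_lit 16) true (nat_lit 21) false (nat_lit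 3) true (nat_lit 20) true (nat_lit 16) (.s false (nat_lit 2) (nat_lit 85) (nat_lit 2) (nat_lit 6) (nat_lit 1) true (nat_lit 16) true (nat_lit 21) false (nat_lit 3) true (nat_lit 20) true (nat_lit 16) dC2_i2)))))))))))))))))))))))))

noncomputable def dC2_i4 : IL := (.s true (nat_lit 1) (nat_lit 59) (nat_lit 2) (nat_lit 2) (nat_lit 7) true (nat_lit 8) true (nat_lit 15) false (nat_lit 0) true (nat_lit 20) true (nat_lit 20) (.s false (nat_lit 3) (nat_lit 53) (nat_lit 2) (nat_lit 7) (nat_lit 2) true (nat_lit 15) true (nat_lit 20) false (nat_lit 0) true (nat_lit 20) true (nat_lit 15) (.s false (nat_lit 2) (nat_lit 54) (nat_lit 2) (nat_lit 7) (nat_lit 2) true (nat_lit 15) true (nat_lit 20) false (nat_lit 0) true (nat_lit 20) true (nat_lit 15) (.s false (nat_lit 2) (nat_lit 55) (nat_lit 2) (nat_lit 7) (nat_lit 2) true (nat_lit 15) true (nat_lit 20) false (nat_lit 0) true (nat_lit 20) true (nat_lit 15) (.s false (nat_lit 1) (nat_lit 51) (nat_lit 7) (nat_lit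 2) (nat_lit 2) true (nat_lit 8) true (nat_lit 20) false (nat_lit 0) true (nat_lit 15) true (nat_lit 20) (.s false (nat_lit 1) (nat_lit 53) (nat_lit 7) (nat_lit 2) (nat_lit 2) true (nat_lit 8) true (nat_lit 20) false (nat_lit 0) true (nat_lit 15) true (nat_lit 20) (.s false (nat_lit 2) (nat_lit 55) (nat_lit 7) (nat_lit 2) (nat_lit 2) true (nat_lit 8) true (nat_lit 20) false (nat_lit 0) true (nat_lit 15) true (nat_lit 20) (.s true (nat_lit 2) (nat_lit 62) (nat_lit 1) (nat_lit 2) (nat_lit 7) true (nat_lit 9) true (nat_lit 15) false (nat_lit 1) true (nat_lit 21) true (nat_lit 20) (.s false (nat_lit 3) (nat_lit 65) (nat_lit 1) (nat_lit 2) (nat_lit 7) true (nat_lit 9) true (nat_lit 15) false (nat_lit 1) true (nat_lit 21) true (nat_lit 20) (.s true (nat_lit 3) (nat_lit 66) (nat_lit 1) (nat_lit 2) (nat_lit 7) true (nat_lit 9) true (nat_lit 15) false (nat_lit 1) true (nat_lit 21) true (nat_lit 20) (.s true (nat_lit 2) (nat_lit 73) (nat_lit 1) (nat_lit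 2) (nat_lit 7) true (nat_lit 9) true (nat_lit 15) false (nat_lit 1) true (nat_lit 21) true (nat_lit 20) (.s true (nat_lit 3) (nat_lit 60) (nat_lit 1) (nat_lit 7) (nat_lit 2) true (nat_lit 16) true (nat_lit 20) false (nat_lit 1) true (nat_lit 21) true (nat_lit 15) (.s true (nat_lit 2) (nat_lit 65) (nat_lit 1) (nat_lit 7) (nat_lit 2) true (nat_lit 16) true (nat_lit 20) false (nat_lit 1) true (nat_lit 21) true (nat_lit 15) (.s true (nat_lit 3) (nat_lit 66) (nat_lit 1) (nat_lit 7) (nat_lit 2) true (nat_lit 16) true (nat_lit 20) false (nat_lit 1) true (nat_lit 21) true (nat_lit 15) (.s false (nat_lit 1) (nat_lit 73) (nat_lit 1) (nat_lit 7) (nat_lit 2) true (nat_lit 16) true (nat_lit 20) false (nat_lit 1) true (nat_lit 21) true (nat_lit 15) (.s true (nat_lit 3) (nat_lit 60) (nat_lit 2) (nat_lit 1) (nat_lit 7) true (nat_lit 8) true (nat_lit 15) false (nat_lit 1) true (nat_lit 20) true (nat_lit 21) (.s true (nat_lit 3) (nat_lit 63) (nat_lit 2) (nat_lit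 1) (nat_lit 7) true (nat_lit 8) true (nat_lit 15) false (nat_lit 1) true (nat_lit 20) true (nat_lit 21) (.s false (nat_lit 3) (nat_lit 65) (nat_lit 2) (nat_lit 1) (nat_lit 7) true (nat_lit 8) true (nat_lit 15) false (nat_lit 1) true (nat_lit 20) true (nat_lit 21) (.s true (nat_lit 2) (nat_lit 62) (nat_lit 2) (nat_lit 2) (nat_lit 6) true (nat_lit 9) true (nat_lit 16) false (nat_lit 1) true (nat_lit 20) true (nat_lit 20) (.s true (nat_lit 2) (nat_lit 63) (nat_lit 2) (nat_lit 2) (nat_lit 6) true (nat_lit 9) true (nat_lit 16) false (nat_lit 1) true (nat_lit 20) true (nat_lit 20) (.s true (nat_lit 1) (nat_lit 65) (nat_lit 2) (nat_lit 2) (nat_lit 6) true (nat_lit 9) true (nat_lit 16) false (nat_lit 1) true (nat_lit 20) true (nat_lit 20) (.s false (nat_lit 1) (nat_lit 72) (nat_lit 2) (nat_lit 2) (nat_lit 6) true (nat_lit 9) true (nat_lit 16) false (nat_lit 1) true (nat_lit 20) true (nat_lit 20) (.s true (nat_lit 2) (nat_lit 73) (nat_lit 2) (nat_lit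 7) (nat_lit 1) true (nat_lit 16) true (nat_lit 21) false (nat_lit 1) true (nat_lit 20) true (nat_lit 15) (.s false (nat_lit 1) (nat_lit 61) (nat_lit 6) (nat_lit 2) (nat_lit 2) true (nat_lit 9) true (nat_lit 20) false (nat_lit 1) true (nat_lit 16) true (nat_lit 20) (.s false (nat_lit 1) (nat_lit 62) (nat_lit 6) (nat_lit 2) (nat_lit 2) true (nat_lit 9) true (nat_lit 20) false (nat_lit 1) true (nat_lit 16) true (nat_lit 20) dC2_i3)))))))))))))))))))))))))

noncomputable def dC2_i5 : IL := (.s true (nat_lit 1) (nat_lit 27) (nat_lit 19) (nat_lit 2) (nat_lit 2) true (nat_lit 1) true (nat_lit 20) true (nat_lit 6) true (nat_lit 9) true (nat_lit 20) (.s false (nat_lit 3) (nat_lit 30) (nat_lit 0) (nat_lit 2) (nat_lit 20) true (nat_lit 2) true (nat_lit 8) true (nat_lit 5) true (nat_lit 22) true (nat_lit 20) (.s false (nat_lit 1) (nat_lit 30) (nat_lit 2) (nat_lit 2) (nat_lit 16) true (nat_lit 2) true (nat_lit 10) true (nat_lit 5) true (nat_lit 20) true (nat_lit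 20) (.s false (nat_lit 1) (nat_lit 30) (nat_lit 2) (nat_lit 5) (nat_lit 7) true (nat_lit 8) true (nat_lit 15) true (nat_lit 5) true (nat_lit 20) true (nat_lit 17) (.s true (nat_lit 3) (nat_lit 30) (nat_lit 2) (nat_lit 7) (nat_lit 5) true (nat_lit 10) true (nat_lit 17) true (nat_lit 5) true (nat_lit 20) true (nat_lit 15) (.s false (nat_lit 1) (nat_lit 30) (nat_lit 7) (nat_lit 0) (nat_lit 7) true (nat_lit 0) true (nat_lit 15) true (nat_lit 5) true (nat_lit 15) true (nat_lit 22) (.s false (nat_lit 2) (nat_lit 30) (nat_lit 7) (nat_lit 5) (nat_lit 2) true (nat_lit 8) true (nat_lit 20) true (nat_lit 5) true (nat_lit 15) true (nat_lit 17) (.s false (nat_lit 2) (nat_lit 33) (nat_lit 1) (nat_lit 1) (nat_lit 20) true (nat_lit 1) true (nat_lit 8) true (nat_lit 4) true (nat_lit 21) true (nat_lit 21) (.s true (nat_lit 2) (nat_lit 33) (nat_lit 1) (nat_lit 18) (nat_lit 2) true (nat_lit 16) true (nat_lit 20) true (nat_lit 4) true (nat_lit 21) true (nat_lit 9)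 (.s true (nat_lit 2) (nat_lit 40) (nat_lit 0) (nat_lit 1) (nat_lit 20) true (nat_lit 2) true (nat_lit 8) true (nat_lit 3) true (nat_lit 22) true (nat_lit 21) (.s false (nat_lit 2) (nat_lit 41) (nat_lit 0) (nat_lit 1) (nat_lit 20) true (nat_lit 2) true (nat_lit 8) true (nat_lit 3) true (nat_lit 22) true (nat_lit 21) (.s false (nat_lit 2) (nat_lit 41) (nat_lit 2) (nat_lit 2) (nat_lit 11) true (nat_lit 4) true (nat_lit 12) true (nat_lit 3) true (nat_lit 20) true (nat_lit 20) (.s true (nat_lit 1) (nat_lit 45) (nat_lit 1) (nat_lit 2) (nat_lit 11) true (nat_lit 6) true (nat_lit 12) true (nat_lit 1) true (nat_lit 21) true (nat_lit 20) (.s false (nat_lit 3) (nat_lit 47) (nat_lit 1) (nat_lit 3) (nat_lit 7) true (nat_lit 9) true (nat_lit 15) true (nat_lit 1) true (nat_lit 21) true (nat_lit 19) (.s true (nat_lit 1) (nat_lit 45) (nat_lit 2) (nat_lit 11) (nat_lit 1) true (nat_lit 16) true (nat_lit 21) true (nat_lit 1) true (nat_lit 20) true (nat_lit 12) (.s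 true (nat_lit 2) (nat_lit 48) (nat_lit 11) (nat_lit 1) (nat_lit 1) true (nat_lit 6) true (nat_lit 21) true (nat_lit 0) true (nat_lit 12) true (nat_lit 21) (.s false (nat_lit 2) (nat_lit 50) (nat_lit 2) (nat_lit 2) (nat_lit 7) true (nat_lit 8) true (nat_lit 15) false (nat_lit 0) true (nat_lit 20) true (nat_lit 20) (.s true (nat_lit 3) (nat_lit 51) (nat_lit 2) (nat_lit 2) (nat_lit 7) true (nat_lit 8) true (nat_lit 15) false (nat_lit 0) true (nat_lit 20) true (nat_lit 20) (.s true (nat_lit 1) (nat_lit 52) (nat_lit 2) (nat_lit 2) (nat_lit 7) true (nat_lit 8) true (nat_lit 15) false (nat_lit 0) true (nat_lit 20) true (nat_lit 20) (.s false (nat_lit 2) (nat_lit 53) (nat_lit 2) (nat_lit 2) (nat_lit 7) true (nat_lit 8) true (nat_lit 15) false (nat_lit 0) true (nat_lit 20) true (nat_lit 20) (.s false (nat_lit 1) (nat_lit 54) (nat_lit 2) (nat_lit 2) (nat_lit 7) true (nat_lit 8) true (nat_lit 15) false (nat_lit 0) true (nat_lit 20) true (nat_lit 20) (.s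 true (nat_lit 3) (nat_lit 55) (nat_lit 2) (nat_lit 2) (nat_lit 7) true (nat_lit 8) true (nat_lit 15) false (nat_lit 0) true (nat_lit 20) true (nat_lit 20) (.s true (nat_lit 3) (nat_lit 56) (nat_lit 2) (nat_lit 2) (nat_lit 7) true (nat_lit 8) true (nat_lit 15) false (nat_lit 0) true (nat_lit 20) true (nat_lit 20) (.s false (nat_lit 1) (nat_lit 57) (nat_lit 2) (nat_lit 2) (nat_lit 7) true (nat_lit 8) true (nat_lit 15) false (nat_lit 0) true (nat_lit 20) true (nat_lit 20) (.s true (nat_lit 2) (nat_lit 58) (nat_lit 2) (nat_lit 2) (nat_lit 7) true (nat_lit 8) true (nat_lit 15) false (nat_lit 0) true (nat_lit 20) true (nat_lit 20) dC2_i4)))))))))))))))))))))))))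

noncomputable def dC2_i6 : IL := (.s true (nat_lit 2) (nat_lit 25) (nat_lit 2) (nat_lit 1) (nat_lit 20) true (nat_lit 0) true (nat_lit 8) true (nat_lit 6) true (nat_lit 20) true (nat_lit 21) (.s false (nat_lit 2) (nat_lit 25) (nat_lit 2) (nat_lit 2) (nat_lit 19) true (nat_lit 1) true (nat_lit 9) true (nat_lit 6) true (nat_lit 20) true (nat_lit 20) (.s false (nat_lit 2) (nat_lit 26) (nat_lit 2) (nat_lit 2) (nat_lit 19) true (nat_lit 1) true (nat_lit 9) true (nat_lit 6) true (nat_lit 20) true (nat_lit 20) (.s false (nat_lit 2) (nat_lit 27) (nat_lit 2) (nat_lit 2) (nat_lit 19) true (nat_lit 1) true (nat_lit 9) true (nat_lit 6) true (nat_lit 20) true (nat_lit 20) (.s false (nat_lit 1) (nat_lit 26) (nat_lit 2) (nat_lit 6) (nat_lit 7) true (nat_lit 8) true (nat_lit 15) true (nat_lit 6) true (nat_lit 20) true (nat_lit 16) (.s false (nat_lit 2) (nat_lit 29) (nat_lit 2) (nat_lit 6) (nat_lit 7) true (nat_lit 8) true (nat_lit 15) true (nat_lit 6) true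 (nat_lit 20) true (nat_lit 16) (.s false (nat_lit 1) (nat_lit 24) (nat_lit 2) (nat_lit 7) (nat_lit 6) true (nat_lit 9) true (nat_lit 16) true (nat_lit 6) true (nat_lit 20) true (nat_lit 15) (.s true (nat_lit 1) (nat_lit 25) (nat_lit 2) (nat_lit 18) (nat_lit 2) true (nat_lit 15) true (nat_lit 20) true (nat_lit 6) true (nat_lit 20) true (nat_lit 9) (.s true (nat_lit 3) (nat_lit 25) (nat_lit 2) (nat_lit 19) (nat_lit 2) true (nat_lit 15) true (nat_lit 20) true (nat_lit 6) true (nat_lit 20) true (nat_lit 9) (.s false (nat_lit 1) (nat_lit 26) (nat_lit 2) (nat_lit 19) (nat_lit 2) true (nat_lit 15) true (nat_lit 20) true (nat_lit 6) true (nat_lit 20) true (nat_lit 9) (.s true (nat_lit 3) (nat_lit 27) (nat_lit 2) (nat_lit 18) (nat_lit 2) true (nat_lit 15) true (nat_lit 20) true (nat_lit 6) true (nat_lit 20) true (nat_lit 9) (.s false (nat_lit 3) (nat_lit 26) (nat_lit 2) (nat_lit 20) (nat_lit 1) true (nat_lit 16) true (nat_lit 21) true (nat_lit 6) true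 (nat_lit 20) true (nat_lit 8) (.s false (nat_lit 2) (nat_lit 25) (nat_lit 6) (nat_lit 2) (nat_lit 7) true (nat_lit 1) true (nat_lit 15) true (nat_lit 6) true (nat_lit 16) true (nat_lit 20) (.s false (nat_lit 1) (nat_lit 24) (nat_lit 6) (nat_lit 7) (nat_lit 2) true (nat_lit 9) true (nat_lit 20) true (nat_lit 6) true (nat_lit 16) true (nat_lit 15) (.s true (nat_lit 2) (nat_lit 29) (nat_lit 7) (nat_lit 2) (nat_lit 6) true (nat_lit 1) true (nat_lit 16) true (nat_lit 6) true (nat_lit 15) true (nat_lit 20) (.s true (nat_lit 1) (nat_lit 25) (nat_lit 7) (nat_lit 6) (nat_lit 2) true (nat_lit 8) true (nat_lit 20) true (nat_lit 6) true (nat_lit 15) true (nat_lit 16) (.s false (nat_lit 1) (nat_lit 24) (nat_lit 7) (nat_lit 7) (nat_lit 1) true (nat_lit 9) true (nat_lit 21) true (nat_lit 6) true (nat_lit 15) true (nat_lit 15) (.s false (nat_lit 3) (nat_lit 25) (nat_lit 7) (nat_lit 7) (nat_lit 1) true (nat_lit 9) true (nat_lit 21) true (nat_lit 6) true (nat_lit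 15) true (nat_lit 15) (.s true (nat_lit 3) (nat_lit 27) (nat_lit 7) (nat_lit 7) (nat_lit 1) true (nat_lit 9) true (nat_lit 21) true (nat_lit 6) true (nat_lit 15) true (nat_lit 15) (.s false (nat_lit 1) (nat_lit 29) (nat_lit 7) (nat_lit 7) (nat_lit 1) true (nat_lit 9) true (nat_lit 21) true (nat_lit 6) true (nat_lit 15) true (nat_lit 15) (.s false (nat_lit 1) (nat_lit 25) (nat_lit 18) (nat_lit 2) (nat_lit 2) true (nat_lit 1) true (nat_lit 20) true (nat_lit 6) true (nat_lit 9) true (nat_lit 20) (.s false (nat_lit 3) (nat_lit 25) (nat_lit 19) (nat_lit 2) (nat_lit 2) true (nat_lit 1) true (nat_lit 20) true (nat_lit 6) true (nat_lit 9) true (nat_lit 20) (.s false (nat_lit 1) (nat_lit 26) (nat_lit 18) (nat_lit 2) (nat_lit 2) true (nat_lit 1) true (nat_lit 20) true (nat_lit 6) true (nat_lit 9) true (nat_lit 20) (.s true (nat_lit 2) (nat_lit 26) (nat_lit 19) (nat_lit 2) (nat_lit 2) true (nat_lit 1) true (nat_lit 20) true (nat_lit 6) true (nat_lit 9)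 true (nat_lit 20) (.s false (nat_lit 3) (nat_lit 27) (nat_lit 18) (nat_lit 2) (nat_lit 2) true (nat_lit 1) true (nat_lit 20) true (nat_lit 6) true (nat_lit 9) true (nat_lit 20) dC2_i5)))))))))))))))))))))))))

noncomputable def dC2_i7 : IL := (.s true (nat_lit 3) (nat_lit 20) (nat_lit 1) (nat_lit 7) (nat_lit 8) true (nat_lit 7) true (nat_lit 14) true (nat_lit 8) true (nat_lit 21) true (nat_lit 15) (.s true (nat_lit 1) (nat_lit 20) (nat_lit 1) (nat_lit 8) (nat_lit 7) true (nat_lit 9) true (nat_lit 15) true (nat_lit 8) true (nat_lit 21) true (nat_lit 14) (.s true (nat_lit 2) (nat_lit 20) (nat_lit 2) (nat_lit 4) (nat_lit 11) true (nat_lit 4) true (nat_lit 12) true (nat_lit 8) true (nat_lit 20) true (nat_lit 18) (.s true (nat_lit 3) (nat_lit 20) (nat_lit 2) (nat_lit 10) (nat_lit 5) true (nat_lit 10) true (nat_lit 17) true (nat_lit 8) true (nat_lit 20) true (nat_lit 13) (.s true (nat_lit 3) (nat_lit 20) (nat_lit 3) (nat_lit 7) (nat_lit 4) true (nat_lit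 7) true (nat_lit 18) true (nat_lit 8) true (nat_lit 19) true (nat_lit 15) (.s true (nat_lit 3) (nat_lit 20) (nat_lit 4) (nat_lit 7) (nat_lit 3) true (nat_lit 7) true (nat_lit 19) true (nat_lit 8) true (nat_lit 18) true (nat_lit 15) (.s true (nat_lit 1) (nat_lit 20) (nat_lit 6) (nat_lit 1) (nat_lit 11) false (nat_lit 1) true (nat_lit 12) true (nat_lit 8) true (nat_lit 16) true (nat_lit 21) (.s true (nat_lit 3) (nat_lit 20) (nat_lit 6) (nat_lit 8) (nat_lit 2) true (nat_lit 9) true (nat_lit 20) true (nat_lit 8) true (nat_lit 16) true (nat_lit 14) (.s false (nat_lit 1) (nat_lit 20) (nat_lit 7) (nat_lit 3) (nat_lit 4) true (nat_lit 3) true (nat_lit 18) true (nat_lit 8) true (nat_lit 15) true (nat_lit 19) (.s false (nat_lit 2) (nat_lit 20) (nat_lit 7) (nat_lit 8) (nat_lit 1) true (nat_lit 9) true (nat_lit 21) true (nat_lit 8) true (nat_lit 15) true (nat_lit 14) (.s true (nat_lit 2) (nat_lit 20) (nat_lit 9) (nat_lit 1) (nat_lit 7) false (nat_lit 1)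 true (nat_lit 15) true (nat_lit 8) true (nat_lit 14) true (nat_lit 21) (.s true (nat_lit 1) (nat_lit 20) (nat_lit 8) (nat_lit 6) (nat_lit 2) true (nat_lit 6) true (nat_lit 20) true (nat_lit 8) true (nat_lit 14) true (nat_lit 16) (.s false (nat_lit 2) (nat_lit 20) (nat_lit 8) (nat_lit 7) (nat_lit 1) true (nat_lit 7) true (nat_lit 21) true (nat_lit 8) true (nat_lit 14) true (nat_lit 15) (.s true (nat_lit 1) (nat_lit 20) (nat_lit 19) (nat_lit 0) (nat_lit 4) false (nat_lit 2) true (nat_lit 18) true (nat_lit 8) true (nat_lit 9) true (nat_lit 22) (.s false (nat_lit 2) (nat_lit 20) (nat_lit 18) (nat_lit 1) (nat_lit 3) false (nat_lit 1) true (nat_lit 19) true (nat_lit 8) true (nat_lit 9) true (nat_lit 21) (.s false (nat_lit 1) (nat_lit 23) (nat_lit 2) (nat_lit 2) (nat_lit 20) true (nat_lit 0) true (nat_lit 8) true (nat_lit 7) true (nat_lit 20) true (nat_lit 20) (.s false (nat_lit 2) (nat_lit 21) (nat_lit 2) (nat_lit 7) (nat_lit 7) true (nat_lit 8) true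 (nat_lit 15) true (nat_lit 7) true (nat_lit 20) true (nat_lit 15) (.s true (nat_lit 2) (nat_lit 22) (nat_lit 2) (nat_lit 7) (nat_lit 7) true (nat_lit 8) true (nat_lit 15) true (nat_lit 7) true (nat_lit 20) true (nat_lit 15) (.s true (nat_lit 1) (nat_lit 23) (nat_lit 2) (nat_lit 7) (nat_lit 7) true (nat_lit 8) true (nat_lit 15) true (nat_lit 7) true (nat_lit 20) true (nat_lit 15) (.s false (nat_lit 2) (nat_lit 22) (nat_lit 7) (nat_lit 2) (nat_lit 7) true (nat_lit 0) true (nat_lit 15) true (nat_lit 7) true (nat_lit 15) true (nat_lit 20) (.s true (nat_lit 3) (nat_lit 24) (nat_lit 1) (nat_lit 7) (nat_lit 7) true (nat_lit 9) true (nat_lit 15) true (nat_lit 6) true (nat_lit 21) true (nat_lit 15) (.s true (nat_lit 2) (nat_lit 26) (nat_lit 1) (nat_lit 7) (nat_lit 7) true (nat_lit 9) true (nat_lit 15) true (nat_lit 6) true (nat_lit 21) true (nat_lit 15) (.s false (nat_lit 1) (nat_lit 27) (nat_lit 1) (nat_lit 7) (nat_lit 7) true (nat_lit 9) true (nat_lit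 15) true (nat_lit 6) true (nat_lit 21) true (nat_lit 15) (.s false (nat_lit 1) (nat_lit 29) (nat_lit 1) (nat_lit 7) (nat_lit 7) true (nat_lit 9) true (nat_lit 15) true (nat_lit 6) true (nat_lit 21) true (nat_lit 15) (.s false (nat_lit 1) (nat_lit 27) (nat_lit 1) (nat_lit 20) (nat_lit 2) true (nat_lit 16) true (nat_lit 20) true (nat_lit 6) true (nat_lit 21) true (nat_lit 8) dC2_i6)))))))))))))))))))))))))

noncomputable def dC2_il : IL := (.s false (nat_lit 3) (nat_lit 9) (nat_lit 7) (nat_lit 6) (nat_lit 7) true (nat_lit 0) true (nat_lit 15) true (nat_lit 14) true (nat_lit 15) true (nat_lit 16) (.s true (nat_lit 2) (nat_lit 8) (nat_lit 7) (nat_lit 7) (nat_lit 6) true (nat_lit 1) true (nat_lit 16) true (nat_lit 14) true (nat_lit 15) true (nat_lit 15) (.s false (nat_lit 2) (nat_lit 9) (nat_lit 7) (nat_lit 7) (nat_lit 6) true (nat_lit 1) true (nat_lit 16) true (nat_lit 14) true (nat_lit 15) true (nat_lit 15) (.s true (nat_lit 2) (nat_lit 10) (nat_lit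 7) (nat_lit 7) (nat_lit 5) true (nat_lit 2) true (nat_lit 17) true (nat_lit 13) true (nat_lit 15) true (nat_lit 15) (.s true (nat_lit 3) (nat_lit 11) (nat_lit 6) (nat_lit 6) (nat_lit 7) true (nat_lit 1) true (nat_lit 15) true (nat_lit 12) true (nat_lit 16) true (nat_lit 16) (.s false (nat_lit 3) (nat_lit 11) (nat_lit 7) (nat_lit 4) (nat_lit 7) true (nat_lit 0) true (nat_lit 15) true (nat_lit 12) true (nat_lit 15) true (nat_lit 18) (.s false (nat_lit 3) (nat_lit 11) (nat_lit 7) (nat_lit 6) (nat_lit 6) true (nat_lit 1) true (nat_lit 16) true (nat_lit 12) true (nat_lit 15) true (nat_lit 16) (.s true (nat_lit 3) (nat_lit 18) (nat_lit 2) (nat_lit 7) (nat_lit 8) true (nat_lit 6) true (nat_lit 14) true (nat_lit 9) true (nat_lit 20) true (nat_lit 15) (.s true (nat_lit 2) (nat_lit 18) (nat_lit 2) (nat_lit 8) (nat_lit 7) true (nat_lit 8) true (nat_lit 15) true (nat_lit 9) true (nat_lit 20) true (nat_lit 14) (.s false (nat_lit 3) (nat_lit 18) (nat_lit 2)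 (nat_lit 9) (nat_lit 7) true (nat_lit 8) true (nat_lit 15) true (nat_lit 9) true (nat_lit 20) true (nat_lit 14) (.s true (nat_lit 1) (nat_lit 19) (nat_lit 2) (nat_lit 11) (nat_lit 6) true (nat_lit 9) true (nat_lit 16) true (nat_lit 9) true (nat_lit 20) true (nat_lit 12) (.s false (nat_lit 3) (nat_lit 18) (nat_lit 6) (nat_lit 2) (nat_lit 11) false (nat_lit 1) true (nat_lit 12) true (nat_lit 9) true (nat_lit 16) true (nat_lit 20) (.s false (nat_lit 3) (nat_lit 18) (nat_lit 7) (nat_lit 1) (nat_lit 11) false (nat_lit 3) true (nat_lit 12) true (nat_lit 9) true (nat_lit 15) true (nat_lit 21) (.s true (nat_lit 1) (nat_lit 19) (nat_lit 7) (nat_lit 2) (nat_lit 9) false (nat_lit 1) true (nat_lit 14) true (nat_lit 9) true (nat_lit 15) true (nat_lit 20) (.s true (nat_lit 1) (nat_lit 18) (nat_lit 7) (nat_lit 8) (nat_lit 2) true (nat_lit 8) true (nat_lit 20) true (nat_lit 9) true (nat_lit 15) true (nat_lit 14) (.s false (nat_lit 1) (nat_lit 19) (nat_lit 9)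 (nat_lit 2) (nat_lit 7) false (nat_lit 1) true (nat_lit 15) true (nat_lit 9) true (nat_lit 14) true (nat_lit 20) (.s false (nat_lit 2) (nat_lit 18) (nat_lit 8) (nat_lit 7) (nat_lit 2) true (nat_lit 6) true (nat_lit 20) true (nat_lit 9) true (nat_lit 14) true (nat_lit 15) (.s false (nat_lit 2) (nat_lit 20) (nat_lit 1) (nat_lit 3) (nat_lit 18) true (nat_lit 3) true (nat_lit 9) true (nat_lit 8) true (nat_lit 21) true (nat_lit 19) dC2_i7))))))))))))))))))

theorem dC2_chk : chk 5 ids7 dC2_D par2 (clsL [0,0,0,0,0,1,1,1,2]) zC2Ex (.c (nat_lit 2) (nat_lit 1) (.c (nat_lit 2) (nat_lit 1) (.c (nat_lit 2) (nat_lit 1) (.c (nat_lit 2) (nat_lit 1) (.c (nat_lit 2) (nat_lit 1) (.c (nat_lit 1) (nat_lit 16) (.c (nat_lit 1) (nat_lit 16) (.c (nat_lit 1) (nat_lit 16) (.c (nat_lit 0) (nat_lit 256) .nil))))))))) (nat_lit 1453) (nat_lit 309) (nat_lit 1) dC2_gs dC2_il = true := by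
  decide +kernel

end Chk7

/-- certificate of `zC2Ex` -/
theorem cert_zC2Ex : Cert.{u} 5 ids7 par2 (clsL [0,0,0,0,0,1,1,1,2]) zC2Ex :=
  Chk7.chk_sound _ _ (by simp [ids7]) (by simp [ids7]) _ _ _ _ _ _ _ _ _ _ Chk7.dC2_chk

end Pool.Agent.MalP
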