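import Pool.Agent.MalP.P7.Chk4
import Pool.Agent.MalP.P7.Ex7

/-! # Certificate of zDEx -/

set_option autoImplicit false
set_option maxRecDepth 100000

namespace Pool.Agent.MalP

universe u

namespace Chk7

noncomputable def dD_c289 : Cm := .mk (nat_lit 14) (nat_lit 289) (nat_lit 17) (nat_lit 4) (.c (nat_lit 5) (nat_lit 1) (nat_lit 3) (nat_lit 1) (nat_lit 4) (.c (nat_lit 7) (nat_lit 1) (nat_lit 2) (nat_lit 1) (nat_lit 5) (.c (nat_lit 8) (nat_lit 3) (nat_lit 1) (nat_lit 1) (nat_lit 6) (.c (nat_lit 11) (nat_lit 1) (nat_lit 0) (nat_lit 1) (nat_lit 9) (.c (nat_lit 2032) (nat_lit 0) (nat_lit 4) (nat_lit 1) (nat_lit 10) .nil)))))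

noncomputable def dD_c274 : Cm := .mk (nat_lit 20) (nat_lit 274) (nat_lit 21) (nat_lit 6) (.c (nat_lit 5) (nat_lit 1) (nat_lit 4) (nat_lit 1) (nat_lit 6) (.c (nat_lit 6) (nat_lit 1) (nat_lit 3) (nat_lit 1) (nat_lit 7) (.c (nat_lit 8) (nat_lit 3) (nat_lit 2) (nat_lit 1) (nat_lit 8) (.c (nat_lit 12) (nat_lit 2) (nat_lit 1) (nat_lit 1) (nat_lit 11) (.c (nat_lit 14) (nat_lit 2) (nat_lit 0) (nat_lit 1) (nat_lit 13) .nil)))))

noncomputable def dD_c34 : Cm := .mk (nat_lit 29) (nat_lit 34) (nat_lit 27) (nat_lit 3) (.c (nat_lit 5) (nat_lit 1) (nat_lit 5) (nat_lit 1) (nat_lit 3) (.c (nat_lit 11) (nat_lit 1) (nat_lit 2) (nat_lit 1) (nat_lit 4) (.c (nat_lit 14) (nat_lit 2) (nat_lit 1) (nat_lit 1) (nat_lit 5) (.c (nat_lit 2032) (nat_lit 0) (nat_lit 6) (nat_lit 1) (nat_lit 7) .nil))))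

noncomputable def dD_c259 : Cm := .mk (nat_lit 33) (nat_lit 259) (nat_lit 30) (nat_lit 3) (.c (nat_lit 6) (nat_lit 1) (nat_lit 4) (nat_lit 1) (nat_lit 3) (.c (nat_lit 12) (nat_lit 2) (nat_lit 2) (nat_lit 1) (nat_lit 4) (.c (nat_lit 16) (nat_lit 1) (nat_lit 0) (nat_lit 1) (nat_lit 6) .nil)))

noncomputable def dD_c19 : Cm := .mk (nat_lit 37) (nat_lit 19) (nat_lit 33) (nat_lit 3) (.c (nat_lit 6) (nat_lit 1) (nat_lit 5) (nat_lit 1) (nat_lit 3) (.c (nat_lit 14) (nat_lit 2) (nat_lit 2) (nat_lit 1) (nat_lit 4) (.c (nat_lit 16) (nat_lit 1) (nat_lit 1) (nat_lit 1) (nat_lit 6) .nil)))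

noncomputable def dD_c290 : Cm := .mk (nat_lit 42) (nat_lit 290) (nat_lit 37) (nat_lit 11) (.c (nat_lit 7) (nat_lit 1) (nat_lit 6) (nat_lit 1) (nat_lit 11) (.c (nat_lit 8) (nat_lit 3) (nat_lit 5) (nat_lit 1) (nat_lit 12) (.c (nat_lit 11) (nat_lit 1) (nat_lit 4) (nat_lit 1) (nat_lit 15) (.c (nat_lit 14) (nat_lit 2) (nat_lit 3) (nat_lit 1) (nat_lit 16) (.c (nat_lit 17) (nat_lit 4) (nat_lit 2) (nat_lit 1) (nat_lit 18) (.c (nat_lit 21) (nat_lit 6) (nat_lit 1) (nat_lit 1) (nat_lit 22) (.c (nat_lit 27) (nat_lit 3) (nat_lit 0) (nat_lit 1) (nat_lit 28) (.c (nat_lit 2032) (nat_lit 0) (nat_lit 12) (nat_lit 2) (nat_lit 31) .nil))))))))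

noncomputable def dD_c35 : Cm := .mk (nat_lit 82) (nat_lit 35) (nat_lit 59) (nat_lit 5) (.c (nat_lit 11) (nat_lit 1) (nat_lit 6) (nat_lit 1) (nat_lit 5) (.c (nat_lit 14) (nat_lit 2) (nat_lit 5) (nat_lit 1) (nat_lit 6) (.c (nat_lit 27) (nat_lit 3) (nat_lit 2) (nat_lit 1) (nat_lit 8) (.c (nat_lit 33) (nat_lit 3) (nat_lit 1) (nat_lit 1) (nat_lit 11) (.c (nat_lit 2032) (nat_lit 0) (nat_lit 16) (nat_lit 1) (nat_lit 14) .nil)))))

noncomputable def dD_c275 : Cm := .mk (nat_lit 62) (nat_lit 275) (nat_lit 48) (nat_lit 11) (.c (nat_lit 8) (nat_lit 3) (nat_lit 6) (nat_lit 1) (nat_lit 11) (.c (nat_lit 12) (nat_lit 2) (nat_lit 5) (nat_lit 1) (nat_lit 14) (.c (nat_lit 14) (nat_lit 2) (nat_lit 4) (nat_lit 1) (nat_lit 16) (.c (nat_lit 16) (nat_lit 1) (nat_lit 3) (nat_lit 1) (nat_lit 18) (.c (nat_lit 21) (nat_lit 6) (nat_lit 2) (nat_lit 1) (nat_lit 19) (.c (nat_lit 30) (nat_lit 3) (nat_lit 1)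 (nat_lit 1) (nat_lit 25) (.c (nat_lit 33) (nat_lit 3) (nat_lit 0) (nat_lit 1) (nat_lit 28) .nil)))))))

noncomputable def dD_c291 : Cm := .mk (nat_lit 107) (nat_lit 291) (nat_lit 73) (nat_lit 21) (.c (nat_lit 12) (nat_lit 2) (nat_lit 11) (nat_lit 1) (nat_lit 21) (.c (nat_lit 14) (nat_lit 2) (nat_lit 8) (nat_lit 3) (nat_lit 23) (.c (nat_lit 16) (nat_lit 1) (nat_lit 7) (nat_lit 1) (nat_lit 29) (.c (nat_lit 17) (nat_lit 4) (nat_lit 6) (nat_lit 1) (nat_lit 30) (.c (nat_lit 21) (nat_lit 6) (nat_lit 5) (nat_lit 1) (nat_lit 34) (.c (nat_lit 27) (nat_lit 3) (nat_lit 4) (nat_lit 1) (nat_lit 40) (.c (nat_lit 33) (nat_lit 3) (nat_lit 3) (nat_lit 1) (nat_lit 43) (.c (nat_lit 37) (nat_lit 11) (nat_lit 2) (nat_lit 1) (nat_lit 46) (.c (nat_lit 48) (nat_lit 11) (nat_lit 1) (nat_lit 1) (nat_lit 57) (.c (nat_lit 59) (nat_lit 5) (nat_lit 0) (nat_lit 1) (nat_lit 68) (.c (nat_lit 2032) (nat_lit 0)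 (nat_lit 30) (nat_lit 3) (nat_lit 73) .nil)))))))))))

noncomputable def dD_c260 : Cm := .mk (nat_lit 91) (nat_lit 260) (nat_lit 64) (nat_lit 4) (.c (nat_lit 12) (nat_lit 2) (nat_lit 6) (nat_lit 1) (nat_lit 4) (.c (nat_lit 16) (nat_lit 1) (nat_lit 4) (nat_lit 1) (nat_lit 6) (.c (nat_lit 30) (nat_lit 3) (nat_lit 2) (nat_lit 1) (nat_lit 7) (.c (nat_lit 36) (nat_lit 1) (nat_lit 0) (nat_lit 1) (nat_lit 10) .nil))))

noncomputable def dD_c276 : Cm := .mk (nat_lit 159) (nat_lit 276) (nat_lit 94) (nat_lit 16) (.c (nat_lit 14) (nat_lit 2) (nat_lit 12) (nat_lit 2) (nat_lit 16) (.c (nat_lit 16) (nat_lit 1) (nat_lit 8) (nat_lit 3) (nat_lit 20) (.c (nat_lit 21) (nat_lit 6) (nat_lit 6) (nat_lit 1) (nat_lit 23) (.c (nat_lit 30) (nat_lit 3) (nat_lit 5) (nat_lit 1) (nat_lit 29) (.c (nat_lit 33) (nat_lit 3) (nat_lit 4) (nat_lit 1) (nat_lit 32) (.c (nat_lit 36) (nat_lit 1) (nat_lit 3) (nat_lit 1)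 (nat_lit 35) (.c (nat_lit 48) (nat_lit 11) (nat_lit 2) (nat_lit 1) (nat_lit 36) (.c (nat_lit 64) (nat_lit 4) (nat_lit 1) (nat_lit 1) (nat_lit 47) (.c (nat_lit 68) (nat_lit 4) (nat_lit 0) (nat_lit 1) (nat_lit 51) .nil)))))))))

noncomputable def dD_c20 : Cm := .mk (nat_lit 98) (nat_lit 20) (nat_lit 68) (nat_lit 4) (.c (nat_lit 14) (nat_lit 2) (nat_lit 6) (nat_lit 1) (nat_lit 4) (.c (nat_lit 16) (nat_lit 1) (nat_lit 5) (nat_lit 1) (nat_lit 6) (.c (nat_lit 33) (nat_lit 3) (nat_lit 2) (nat_lit 1) (nat_lit 7) (.c (nat_lit 36) (nat_lit 1) (nat_lit 1) (nat_lit 1) (nat_lit 10) .nil))))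

noncomputable def dD_c36 : Cm := .mk (nat_lit 198) (nat_lit 36) (nat_lit 110) (nat_lit 6) (.c (nat_lit 14) (nat_lit 2) (nat_lit 14) (nat_lit 2) (nat_lit 6) (.c (nat_lit 16) (nat_lit 1) (nat_lit 11) (nat_lit 1) (nat_lit 10) (.c (nat_lit 27) (nat_lit 3) (nat_lit 6) (nat_lit 1) (nat_lit 11) (.c (nat_lit 33) (nat_lit 3) (nat_lit 5) (nat_lit 1) (nat_lit 14) (.c (nat_lit 59) (nat_lit 5) (nat_lit 2) (nat_lit 1) (nat_lit 17) (.c (nat_lit 68) (nat_lit 4) (nat_lit 1) (nat_lit 1) (nat_lit 22) (.c (nat_lit 2032) (nat_lit 0) (nat_lit 36) (nat_lit 1) (nat_lit 26) .nil)))))))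

noncomputable def dD_c5 : Cm := .mk (nat_lit 105) (nat_lit 5) (nat_lit 72) (nat_lit 1) (.c (nat_lit 16) (nat_lit 1) (nat_lit 6) (nat_lit 1) (nat_lit 1) (.c (nat_lit 36) (nat_lit 1) (nat_lit 2) (nat_lit 1) (nat_lit 2) .nil))

noncomputable def dD_c261 : Cm := .mk (nat_lit 215) (nat_lit 261) (nat_lit 116) (nat_lit 5) (.c (nat_lit 16) (nat_lit 1) (nat_lit 12) (nat_lit 2) (nat_lit 5) (.c (nat_lit 30) (nat_lit 3) (nat_lit 6) (nat_lit 1) (nat_lit 7) (.c (nat_lit 36) (nat_lit 1) (nat_lit 4) (nat_lit 1) (nat_lit 10) (.c (nat_lit 64) (nat_lit 4) (nat_lit 2) (nat_lit 1) (nat_lit 11) (.c (nat_lit 72) (nat_lit 1) (nat_lit 0) (nat_lit 1) (nat_lit 15) .nil)))))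

noncomputable def dD_c21 : Cm := .mk (nat_lit 226) (nat_lit 21) (nat_lit 121) (nat_lit 5) (.c (nat_lit 16) (nat_lit 1) (nat_lit 14) (nat_lit 2) (nat_lit 5) (.c (nat_lit 33) (nat_lit 3) (nat_lit 6) (nat_lit 1) (nat_lit 7) (.c (nat_lit 36) (nat_lit 1) (nat_lit 5) (nat_lit 1) (nat_lit 10) (.c (nat_lit 68) (nat_lit 4) (nat_lit 2) (nat_lit 1) (nat_lit 11) (.c (nat_lit 72) (nat_lit 1) (nat_lit 1) (nat_lit 1) (nat_lit 15) .nil)))))

noncomputable def dD_c292 : Cm := .mk (nat_lit 237) (nat_lit 292) (nat_lit 126) (nat_lit 30) (.c (nat_lit 17) (nat_lit 4) (nat_lit 16) (nat_lit 1) (nat_lit 30) (.c (nat_lit 21) (nat_lit 6) (nat_lit 14) (nat_lit 2) (nat_lit 34) (.c (nat_lit 27) (nat_lit 3) (nat_lit 12) (nat_lit 2) (nat_lit 46) (.c (nat_lit 30) (nat_lit 3) (nat_lit 11) (nat_lit 1) (nat_lit 52) (.c (nat_lit 33) (nat_lit 3) (nat_lit 8) (nat_lit 3) (nat_lit 55) (.c (nat_lit 36) (nat_lit 1) (nat_lit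 7) (nat_lit 1) (nat_lit 64) (.c (nat_lit 37) (nat_lit 11) (nat_lit 6) (nat_lit 1) (nat_lit 65) (.c (nat_lit 48) (nat_lit 11) (nat_lit 5) (nat_lit 1) (nat_lit 76) (.c (nat_lit 59) (nat_lit 5) (nat_lit 4) (nat_lit 1) (nat_lit 87) (.c (nat_lit 68) (nat_lit 4) (nat_lit 3) (nat_lit 1) (nat_lit 92) (.c (nat_lit 73) (nat_lit 21) (nat_lit 2) (nat_lit 1) (nat_lit 96) (.c (nat_lit 94) (nat_lit 16) (nat_lit 1) (nat_lit 1) (nat_lit 117) (.c (nat_lit 110) (nat_lit 6) (nat_lit 0) (nat_lit 1) (nat_lit 133) (.c (nat_lit 2032) (nat_lit 0) (nat_lit 64) (nat_lit 4) (nat_lit 139) .nil))))))))))))))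

noncomputable def dD_c277 : Cm := .mk (nat_lit 340) (nat_lit 277) (nat_lit 156) (nat_lit 19) (.c (nat_lit 21) (nat_lit 6) (nat_lit 16) (nat_lit 1) (nat_lit 19) (.c (nat_lit 30) (nat_lit 3) (nat_lit 14) (nat_lit 2) (nat_lit 25) (.c (nat_lit 33) (nat_lit 3) (nat_lit 12) (nat_lit 2) (nat_lit 31) (.c (nat_lit 36) (nat_lit 1) (nat_lit 8) (nat_lit 3) (nat_lit 37) (.c (nat_lit 48) (nat_lit 11) (nat_lit 6) (nat_lit 1) (nat_lit 40) (.c (nat_lit 64) (nat_lit 4) (nat_lit 5) (nat_lit 1) (nat_lit 51) (.c (nat_lit 68) (nat_lit 4) (nat_lit 4) (nat_lit 1) (nat_lit 55) (.c (nat_lit 72) (nat_lit 1) (nat_lit 3) (nat_lit 1) (nat_lit 59) (.c (nat_lit 94) (nat_lit 16) (nat_lit 2) (nat_lit 1) (nat_lit 60) (.c (nat_lit 116) (nat_lit 5) (nat_lit 1) (nat_lit 1) (nat_lit 76) (.c (nat_lit 121) (nat_lit 5) (nat_lit 0) (nat_lit 1) (nat_lit 81) .nil)))))))))))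

noncomputable def dD_i0 : IL := (.s true (nat_lit 1) (nat_lit 14) (nat_lit 2) (nat_lit 4) (nat_lit 1) true (nat_lit 7) true (nat_lit 11) true (nat_lit 1) true (nat_lit 10) true (nat_lit 8) (.e false (nat_lit 1) (nat_lit 48) (nat_lit 5) (nat_lit 7) (.e false (nat_lit 1) (nat_lit 49) (nat_lit 5) (nat_lit 7) (.e false (nat_lit 1) (nat_lit 51) (nat_lit 5) (nat_lit 7) (.e true (nat_lit 1) (nat_lit 52) (nat_lit 5) (nat_lit 7) (.e false (nat_lit 1) (nat_lit 53) (nat_lit 5) (nat_lit 7) (.e false (nat_lit 1) (nat_lit 54) (nat_lit 5) (nat_lit 7) (.e true (nat_lit 1) (nat_lit 57) (nat_lit 5) (nat_lit 7) (.e true (nat_lit 2) (nat_lit 94) (nat_lit 1) (nat_lit 11) (.e true (nat_lit 1) (nat_lit 95) (nat_lit 1) (nat_lit 11) (.e false (nat_lit 1) (nat_lit 96) (nat_lit 1) (nat_lit 11) (.e true (nat_lit 3) (nat_lit 97) (nat_lit 1) (nat_lit 11) (.e false (nat_lit 2) (nat_lit 98) (nat_lit 1) (nat_lit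 11) (.e false (nat_lit 2) (nat_lit 99) (nat_lit 1) (nat_lit 11) (.e false (nat_lit 3) (nat_lit 100) (nat_lit 1) (nat_lit 11) (.e false (nat_lit 3) (nat_lit 101) (nat_lit 1) (nat_lit 11) (.e false (nat_lit 3) (nat_lit 103) (nat_lit 1) (nat_lit 11) (.e false (nat_lit 3) (nat_lit 104) (nat_lit 1) (nat_lit 11) (.e false (nat_lit 1) (nat_lit 109) (nat_lit 1) (nat_lit 11) (.e false (nat_lit 1) (nat_lit 78) (nat_lit 2) (nat_lit 10) (.e true (nat_lit 1) (nat_lit 83) (nat_lit 2) (nat_lit 10) (.e false (nat_lit 1) (nat_lit 85) (nat_lit 2) (nat_lit 10) (.e true (nat_lit 1) (nat_lit 92) (nat_lit 2) (nat_lit 10) (.e false (nat_lit 1) (nat_lit 60) (nat_lit 4) (nat_lit 8) (.u (nat_lit 2) (.p (nat_lit 0) (nat_lit 2) (.n (nat_lit 1) (nat_lit 1) (.p (nat_lit 2) (nat_lit 2) (.n (nat_lit 3) (nat_lit 5) (.n (nat_lit 4) (nat_lit 1) (.n (nat_lit 5) (nat_lit 1) (.n (nat_lit 6) (nat_lit 4) (.p (nat_lit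 7) (nat_lit 5) (.n (nat_lit 11) (nat_lit 2) (.p (nat_lit 12) (nat_lit 4) (.p (nat_lit 14) (nat_lit 2) (.p (nat_lit 15) (nat_lit 2) (.p (nat_lit 17) (nat_lit 1) (.p (nat_lit 18) (nat_lit 1) (.n (nat_lit 20) (nat_lit 3) (.n (nat_lit 21) (nat_lit 1) (.p (nat_lit 22) (nat_lit 2) (.p (nat_lit 23) (nat_lit 1) (.n (nat_lit 26) (nat_lit 1) (.n (nat_lit 27) (nat_lit 3) (.n (nat_lit 29) (nat_lit 1) .z))))))))))))))))))))) .nil)))))))))))))))))))))))))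

noncomputable def dD_i1 : IL := (.e true (nat_lit 1) (nat_lit 21) (nat_lit 5) (nat_lit 4) (.e true (nat_lit 2) (nat_lit 22) (nat_lit 5) (nat_lit 4) (.e true (nat_lit 2) (nat_lit 42) (nat_lit 2) (nat_lit 7) (.e true (nat_lit 2) (nat_lit 47) (nat_lit 2) (nat_lit 7) (.e false (nat_lit 2) (nat_lit 48) (nat_lit 1) (nat_lit 8) (.e false (nat_lit 3) (nat_lit 49) (nat_lit 1) (nat_lit 8) (.e true (nat_lit 1) (nat_lit 15) (nat_lit 8) (nat_lit 1) (.e true (nat_lit 3) (nat_lit 35) (nat_lit 3) (nat_lit 6) (.e true (nat_lit 1) (nat_lit 17) (nat_lit 6) (nat_lit 3) (.e true (nat_lit 1) (nat_lit 19) (nat_lit 6) (nat_lit 3) (.e true (nat_lit 1) (nat_lit 20) (nat_lit 6) (nat_lit 3) (.e false (nat_lit 1) (nat_lit 51) (nat_lit 1) (nat_lit 8) (.e false (nat_lit 2) (nat_lit 15) (nat_lit 9) (nat_lit 1) (.e false (nat_lit 1) (nat_lit 57) (nat_lit 1) (nat_lit 8) (.e true (nat_lit 3) (nat_lit 37) (nat_lit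 2) (nat_lit 7) (.e false (nat_lit 3) (nat_lit 40) (nat_lit 2) (nat_lit 7) (.e true (nat_lit 2) (nat_lit 56) (nat_lit 1) (nat_lit 8) (.e true (nat_lit 2) (nat_lit 39) (nat_lit 2) (nat_lit 7) (.e true (nat_lit 1) (nat_lit 14) (nat_lit 8) (nat_lit 1) (.e true (nat_lit 1) (nat_lit 33) (nat_lit 3) (nat_lit 6) (.e true (nat_lit 1) (nat_lit 14) (nat_lit 9) (nat_lit 1) (.e true (nat_lit 1) (nat_lit 44) (nat_lit 2) (nat_lit 7) (.e true (nat_lit 1) (nat_lit 46) (nat_lit 2) (nat_lit 7) (.e true (nat_lit 2) (nat_lit 16) (nat_lit 7) (nat_lit 2) (.u (nat_lit 2) (.n (nat_lit 0) (nat_lit 1) (.p (nat_lit 2) (nat_lit 1) (.p (nat_lit 4) (nat_lit 1) (.p (nat_lit 5) (nat_lit 1) (.n (nat_lit 8) (nat_lit 1) (.n (nat_lit 10) (nat_lit 1) (.p (nat_lit 11) (nat_lit 1) (.p (nat_lit 12) (nat_lit 1) (.n (nat_lit 14) (nat_lit 1) (.p (nat_lit 17) (nat_lit 1) (.n (nat_lit 19) (nat_lit 1) (.p (nat_lit 46) (nat_lit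 1) (.n (nat_lit 57) (nat_lit 1) (.n (nat_lit 58) (nat_lit 1) (.p (nat_lit 59) (nat_lit 1) (.p (nat_lit 65) (nat_lit 1) .z)))))))))))))))) .nil)))))))))))))))))))))))))

noncomputable def dD_c37 : Cm := .mk (nat_lit 402) (nat_lit 37) (nat_lit 175) (nat_lit 8) (.c (nat_lit 27) (nat_lit 3) (nat_lit 16) (nat_lit 1) (nat_lit 8) (.c (nat_lit 33) (nat_lit 3) (nat_lit 14) (nat_lit 2) (nat_lit 11) (.c (nat_lit 36) (nat_lit 1) (nat_lit 11) (nat_lit 1) (nat_lit 17) (.c (nat_lit 59) (nat_lit 5) (nat_lit 6) (nat_lit 1) (nat_lit 18) (.c (nat_lit 68) (nat_lit 4) (nat_lit 5) (nat_lit 1) (nat_lit 23) (.c (nat_lit 110) (nat_lit 6) (nat_lit 2) (nat_lit 1) (nat_lit 27) (.c (nat_lit 121) (nat_lit 5) (nat_lit 1) (nat_lit 1) (nat_lit 33) (.c (nat_lit 2032) (nat_lit 0) (nat_lit 72) (nat_lit 1) (nat_lit 38) .nil))))))))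

noncomputable def dD_i2 : IL := (.e true (nat_lit 3) (nat_lit 100) (nat_lit 1) (nat_lit 11) (.e true (nat_lit 3) (nat_lit 101) (nat_lit 1) (nat_lit 11) (.e true (nat_lit 3) (nat_lit 103) (nat_lit 1) (nat_lit 11) (.e true (nat_lit 3) (nat_lit 104) (nat_lit 1) (nat_lit 11) (.e true (nat_lit 1) (nat_lit 109) (nat_lit 1) (nat_lit 11) (.e false (nat_lit 1) (nat_lit 73) (nat_lit 2) (nat_lit 10) (.e false (nat_lit 3) (nat_lit 74) (nat_lit 2) (nat_lit 10) (.e false (nat_lit 3) (nat_lit 75) (nat_lit 2) (nat_lit 10) (.e true (nat_lit 2) (nat_lit 76) (nat_lit 2) (nat_lit 10) (.e false (nat_lit 2) (nat_lit 77) (nat_lit 2) (nat_lit 10) (.e false (nat_lit 2) (nat_lit 78) (nat_lit 2) (nat_lit 10) (.e true (nat_lit 2) (nat_lit 79) (nat_lit 2) (nat_lit 10) (.e false (nat_lit 3) (nat_lit 80) (nat_lit 2) (nat_lit 10) (.e true (nat_lit 3) (nat_lit 82) (nat_lit 2) (nat_lit 10) (.e true (nat_lit 3)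 (nat_lit 83) (nat_lit 2) (nat_lit 10) (.e false (nat_lit 1) (nat_lit 84) (nat_lit 2) (nat_lit 10) (.e false (nat_lit 1) (nat_lit 85) (nat_lit 2) (nat_lit 10) (.e true (nat_lit 1) (nat_lit 86) (nat_lit 2) (nat_lit 10) (.e false (nat_lit 3) (nat_lit 87) (nat_lit 2) (nat_lit 10) (.e false (nat_lit 1) (nat_lit 89) (nat_lit 2) (nat_lit 10) (.e true (nat_lit 2) (nat_lit 90) (nat_lit 2) (nat_lit 10) (.e false (nat_lit 3) (nat_lit 91) (nat_lit 2) (nat_lit 10) (.e true (nat_lit 2) (nat_lit 92) (nat_lit 2) (nat_lit 10) (.e false (nat_lit 3) (nat_lit 93) (nat_lit 2) (nat_lit 10) (.u (nat_lit 2) (.p (nat_lit 1) (nat_lit 2) (.n (nat_lit 2) (nat_lit 1) (.p (nat_lit 3) (nat_lit 4) (.p (nat_lit 4) (nat_lit 1) (.p (nat_lit 5) (nat_lit 1) (.p (nat_lit 6) (nat_lit 2) (.n (nat_lit 7) (nat_lit 2) (.n (nat_lit 8) (nat_lit 1) (.n (nat_lit 10) (nat_lit 1) (.n (nat_lit 12) (nat_lit 4) (.n (nat_lit 14)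 (nat_lit 1) (.n (nat_lit 15) (nat_lit 2) (.p (nat_lit 20) (nat_lit 3) (.p (nat_lit 21) (nat_lit 1) (.n (nat_lit 22) (nat_lit 2) (.n (nat_lit 23) (nat_lit 1) (.p (nat_lit 26) (nat_lit 1) (.p (nat_lit 27) (nat_lit 1) (.p (nat_lit 29) (nat_lit 1) .z))))))))))))))))))) .nil)))))))))))))))))))))))))

noncomputable def dD_i3 : IL := (.e false (nat_lit 2) (nat_lit 75) (nat_lit 2) (nat_lit 10) (.e true (nat_lit 3) (nat_lit 77) (nat_lit 2) (nat_lit 10) (.e true (nat_lit 3) (nat_lit 82) (nat_lit 2) (nat_lit 10) (.e false (nat_lit 2) (nat_lit 87) (nat_lit 2) (nat_lit 10) (.e true (nat_lit 2) (nat_lit 90) (nat_lit 2) (nat_lit 10) (.e true (nat_lit 1) (nat_lit 92) (nat_lit 2) (nat_lit 10) (.e true (nat_lit 2) (nat_lit 93) (nat_lit 2) (nat_lit 10) (.e false (nat_lit 3) (nat_lit 78) (nat_lit 2) (nat_lit 10) (.e false (nat_lit 1) (nat_lit 79) (nat_lit 2) (nat_lit 10) (.e true (nat_lit 1) (nat_lit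 80) (nat_lit 2) (nat_lit 10) (.e true (nat_lit 1) (nat_lit 81) (nat_lit 2) (nat_lit 10) (.e false (nat_lit 3) (nat_lit 84) (nat_lit 2) (nat_lit 10) (.e false (nat_lit 3) (nat_lit 85) (nat_lit 2) (nat_lit 10) (.e true (nat_lit 3) (nat_lit 91) (nat_lit 2) (nat_lit 10) (.e false (nat_lit 2) (nat_lit 83) (nat_lit 2) (nat_lit 10) (.e false (nat_lit 2) (nat_lit 88) (nat_lit 2) (nat_lit 10) (.e true (nat_lit 1) (nat_lit 19) (nat_lit 16) (nat_lit 0) (.e false (nat_lit 3) (nat_lit 106) (nat_lit 1) (nat_lit 11) (.e false (nat_lit 3) (nat_lit 48) (nat_lit 5) (nat_lit 7) (.e true (nat_lit 2) (nat_lit 21) (nat_lit 15) (nat_lit 1) (.e true (nat_lit 3) (nat_lit 35) (nat_lit 8) (nat_lit 4) (.e true (nat_lit 3) (nat_lit 17) (nat_lit 16) (nat_lit 0) (.e true (nat_lit 2) (nat_lit 71) (nat_lit 3) (nat_lit 9) (.e true (nat_lit 2) (nat_lit 36) (nat_lit 7) (nat_lit 5) (.u (nat_lit 2) (.n (nat_lit 0)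 (nat_lit 1) (.p (nat_lit 4) (nat_lit 4) (.p (nat_lit 8) (nat_lit 1) (.n (nat_lit 9) (nat_lit 3) (.n (nat_lit 11) (nat_lit 1) (.n (nat_lit 12) (nat_lit 1) (.n (nat_lit 15) (nat_lit 1) (.p (nat_lit 17) (nat_lit 1) (.p (nat_lit 18) (nat_lit 1) (.n (nat_lit 20) (nat_lit 1) (.n (nat_lit 22) (nat_lit 1) (.n (nat_lit 26) (nat_lit 1) (.p (nat_lit 27) (nat_lit 2) (.p (nat_lit 29) (nat_lit 1) (.n (nat_lit 44) (nat_lit 1) (.n (nat_lit 65) (nat_lit 1) (.n (nat_lit 66) (nat_lit 1) (.n (nat_lit 68) (nat_lit 1) (.n (nat_lit 69) (nat_lit 1) (.p (nat_lit 73) (nat_lit 1) (.n (nat_lit 76) (nat_lit 1) (.n (nat_lit 77) (nat_lit 1) (.n (nat_lit 79) (nat_lit 1) (.p (nat_lit 80) (nat_lit 1) (.n (nat_lit 81) (nat_lit 1) (.p (nat_lit 87) (nat_lit 1) (.p (nat_lit 88) (nat_lit 1) (.n (nat_lit 91) (nat_lit 1) (.n (nat_lit 93) (nat_lit 1) (.n (nat_lit 94) (nat_lit 1) (.p (nat_lit 95) (nat_lit 1) (.n (nat_lit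 98) (nat_lit 4) (.p (nat_lit 99) (nat_lit 5) (.n (nat_lit 100) (nat_lit 2) (.p (nat_lit 101) (nat_lit 1) (.n (nat_lit 102) (nat_lit 4) (.p (nat_lit 103) (nat_lit 5) (.p (nat_lit 104) (nat_lit 5) (.n (nat_lit 105) (nat_lit 3) (.n (nat_lit 106) (nat_lit 3) (.n (nat_lit 111) (nat_lit 3) (.p (nat_lit 113) (nat_lit 1) (.n (nat_lit 114) (nat_lit 1) (.n (nat_lit 115) (nat_lit 2) (.p (nat_lit 116) (nat_lit 3) (.p (nat_lit 117) (nat_lit 5) (.p (nat_lit 118) (nat_lit 6) (.p (nat_lit 120) (nat_lit 1) (.p (nat_lit 121) (nat_lit 3) (.p (nat_lit 122) (nat_lit 8) (.p (nat_lit 123) (nat_lit 1) (.p (nat_lit 124) (nat_lit 1) (.p (nat_lit 125) (nat_lit 2) (.n (nat_lit 126) (nat_lit 2) (.n (nat_lit 127) (nat_lit 3) (.n (nat_lit 129) (nat_lit 2) .z)))))))))))))))))))))))))))))))))))))))))))))))))))))))) .nil)))))))))))))))))))))))))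

noncomputable def dD_i4 : IL := (.s false (nat_lit 3) (nat_lit 23) (nat_lit 1) (nat_lit 2) (nat_lit 2) true (nat_lit 7) true (nat_lit 10) false (nat_lit 1) true (nat_lit 11) true (nat_lit 10) (.s true (nat_lit 2) (nat_lit 24) (nat_lit 1) (nat_lit 2) (nat_lit 2) true (nat_lit 7) true (nat_lit 10) false (nat_lit 1) true (nat_lit 11) true (nat_lit 10) (.s true (nat_lit 3) (nat_lit 26) (nat_lit 1) (nat_lit 2) (nat_lit 2) true (nat_lit 7) true (nat_lit 10) false (nat_lit 1) true (nat_lit 11) true (nat_lit 10) (.s true (nat_lit 1) (nat_lit 22) (nat_lit 2) (nat_lit 1) (nat_lit 2) true (nat_lit 6) true (nat_lit 10) false (nat_lit 1) true (nat_lit 10) true (nat_lit 11) (.s true (nat_lit 2) (nat_lit 24) (nat_lit 2) (nat_lit 1) (nat_lit 2) true (nat_lit 6) true (nat_lit 10) false (nat_lit 1) true (nat_lit 10) true (nat_lit 11) (.s true (nat_lit 3) (nat_lit 26) (nat_lit 2) (nat_lit 1) (nat_lit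 2) true (nat_lit 6) true (nat_lit 10) false (nat_lit 1) true (nat_lit 10) true (nat_lit 11) (.s false (nat_lit 2) (nat_lit 22) (nat_lit 2) (nat_lit 2) (nat_lit 1) true (nat_lit 7) true (nat_lit 11) false (nat_lit 1) true (nat_lit 10) true (nat_lit 10) (.s true (nat_lit 1) (nat_lit 24) (nat_lit 2) (nat_lit 2) (nat_lit 1) true (nat_lit 7) true (nat_lit 11) false (nat_lit 1) true (nat_lit 10) true (nat_lit 10) (.s false (nat_lit 3) (nat_lit 25) (nat_lit 2) (nat_lit 2) (nat_lit 1) true (nat_lit 7) true (nat_lit 11) false (nat_lit 1) true (nat_lit 10) true (nat_lit 10) (.s true (nat_lit 2) (nat_lit 29) (nat_lit 2) (nat_lit 0) (nat_lit 2) true (nat_lit 6) true (nat_lit 10) false (nat_lit 2) true (nat_lit 10) true (nat_lit 12) (.s false (nat_lit 2) (nat_lit 29) (nat_lit 2) (nat_lit 2) (nat_lit 0) true (nat_lit 8) true (nat_lit 12) false (nat_lit 2) true (nat_lit 10) true (nat_lit 10)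 (.s true (nat_lit 2) (nat_lit 36) (nat_lit 0) (nat_lit 1) (nat_lit 1) true (nat_lit 9) true (nat_lit 11) false (nat_lit 5) true (nat_lit 12) true (nat_lit 11) (.e true (nat_lit 2) (nat_lit 94) (nat_lit 1) (nat_lit 11) (.e true (nat_lit 3) (nat_lit 95) (nat_lit 1) (nat_lit 11) (.e false (nat_lit 1) (nat_lit 98) (nat_lit 1) (nat_lit 11) (.e true (nat_lit 1) (nat_lit 104) (nat_lit 1) (nat_lit 11) (.e true (nat_lit 2) (nat_lit 100) (nat_lit 1) (nat_lit 11) (.e true (nat_lit 2) (nat_lit 101) (nat_lit 1) (nat_lit 11) (.e true (nat_lit 3) (nat_lit 37) (nat_lit 6) (nat_lit 6) (.e false (nat_lit 3) (nat_lit 39) (nat_lit 6) (nat_lit 6) (.e true (nat_lit 2) (nat_lit 41) (nat_lit 6) (nat_lit 6) (.e true (nat_lit 3) (nat_lit 46) (nat_lit 6) (nat_lit 6) (.e false (nat_lit 2) (nat_lit 102) (nat_lit 1) (nat_lit 11) (.e true (nat_lit 1) (nat_lit 38) (nat_lit 6) (nat_lit 6) (.e true (nat_lit 2)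 (nat_lit 74) (nat_lit 2) (nat_lit 10) dD_i3)))))))))))))))))))))))))

noncomputable def dD_i5 : IL := (.s true (nat_lit 2) (nat_lit 20) (nat_lit 2) (nat_lit 2) (nat_lit 2) true (nat_lit 6) true (nat_lit 10) false (nat_lit 0) true (nat_lit 10) true (nat_lit 10) (.e true (nat_lit 2) (nat_lit 38) (nat_lit 6) (nat_lit 6) (.e false (nat_lit 3) (nat_lit 102) (nat_lit 1) (nat_lit 11) (.e true (nat_lit 2) (nat_lit 106) (nat_lit 1) (nat_lit 11) (.e false (nat_lit 2) (nat_lit 87) (nat_lit 2) (nat_lit 10) (.e false (nat_lit 3) (nat_lit 74) (nat_lit 2) (nat_lit 10) (.e false (nat_lit 1) (nat_lit 77) (nat_lit 2) (nat_lit 10) (.e false (nat_lit 2) (nat_lit 82) (nat_lit 2) (nat_lit 10) (.e true (nat_lit 3) (nat_lit 84) (nat_lit 2) (nat_lit 10) (.e true (nat_lit 1) (nat_lit 91) (nat_lit 2) (nat_lit 10) (.e true (nat_lit 1) (nat_lit 48) (nat_lit 5) (nat_lit 7) (.e true (nat_lit 1) (nat_lit 21)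 (nat_lit 14) (nat_lit 1) (.e true (nat_lit 3) (nat_lit 37) (nat_lit 6) (nat_lit 6) (.e true (nat_lit 2) (nat_lit 39) (nat_lit 6) (nat_lit 6) (.e true (nat_lit 2) (nat_lit 41) (nat_lit 6) (nat_lit 6) (.e true (nat_lit 1) (nat_lit 93) (nat_lit 2) (nat_lit 10) (.e true (nat_lit 2) (nat_lit 73) (nat_lit 2) (nat_lit 10) (.e false (nat_lit 1) (nat_lit 75) (nat_lit 2) (nat_lit 10) (.e true (nat_lit 1) (nat_lit 76) (nat_lit 2) (nat_lit 10) (.e true (nat_lit 2) (nat_lit 36) (nat_lit 7) (nat_lit 5) (.e true (nat_lit 2) (nat_lit 17) (nat_lit 16) (nat_lit 0) (.e false (nat_lit 2) (nat_lit 19) (nat_lit 16) (nat_lit 0) (.e true (nat_lit 2) (nat_lit 90) (nat_lit 2) (nat_lit 10) (.e false (nat_lit 2) (nat_lit 92) (nat_lit 2) (nat_lit 10) (.u (nat_lit 2) (.p (nat_lit 1) (nat_lit 2) (.n (nat_lit 4) (nat_lit 1) (.p (nat_lit 9) (nat_lit 1) (.p (nat_lit 11) (nat_lit 1) (.n (nat_lit 18) (nat_lit 2)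 (.n (nat_lit 26) (nat_lit 1) (.p (nat_lit 65) (nat_lit 1) (.n (nat_lit 97) (nat_lit 1) (.n (nat_lit 100) (nat_lit 1) (.p (nat_lit 105) (nat_lit 1) (.n (nat_lit 114) (nat_lit 1) .z))))))))))) .nil)))))))))))))))))))))))))

noncomputable def dD_i6 : IL := (.s true (nat_lit 3) (nat_lit 32) (nat_lit 2) (nat_lit 1) (nat_lit 2) true (nat_lit 4) true (nat_lit 8) false (nat_lit 1) true (nat_lit 8) true (nat_lit 9) (.e true (nat_lit 3) (nat_lit 32) (nat_lit 15) (nat_lit 1) (.e true (nat_lit 2) (nat_lit 50) (nat_lit 6) (nat_lit 4) (.e false (nat_lit 1) (nat_lit 56) (nat_lit 6) (nat_lit 4) (.e false (nat_lit 3) (nat_lit 58) (nat_lit 6) (nat_lit 4) (.e true (nat_lit 3) (nat_lit 22) (nat_lit 16) (nat_lit 0) (.e false (nat_lit 3) (nat_lit 23) (nat_lit 16) (nat_lit 0) (.e false (nat_lit 1) (nat_lit 97) (nat_lit 2) (nat_lit 8) (.e true (nat_lit 1) (nat_lit 94) (nat_lit 2) (nat_lit 8) (.e true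 (nat_lit 3) (nat_lit 96) (nat_lit 2) (nat_lit 8) (.e true (nat_lit 3) (nat_lit 98) (nat_lit 2) (nat_lit 8) (.e true (nat_lit 3) (nat_lit 99) (nat_lit 2) (nat_lit 8) (.e false (nat_lit 1) (nat_lit 100) (nat_lit 2) (nat_lit 8) (.e false (nat_lit 1) (nat_lit 101) (nat_lit 2) (nat_lit 8) (.e true (nat_lit 3) (nat_lit 102) (nat_lit 2) (nat_lit 8) (.e false (nat_lit 3) (nat_lit 104) (nat_lit 2) (nat_lit 8) (.e false (nat_lit 3) (nat_lit 107) (nat_lit 2) (nat_lit 8) (.e true (nat_lit 1) (nat_lit 108) (nat_lit 2) (nat_lit 8) (.e true (nat_lit 3) (nat_lit 66) (nat_lit 5) (nat_lit 5) (.e true (nat_lit 1) (nat_lit 95) (nat_lit 2) (nat_lit 8) (.e true (nat_lit 1) (nat_lit 106) (nat_lit 2) (nat_lit 8) (.e false (nat_lit 2) (nat_lit 49) (nat_lit 6) (nat_lit 4) (.e true (nat_lit 3) (nat_lit 57) (nat_lit 6) (nat_lit 4) (.e true (nat_lit 3) (nat_lit 118) (nat_lit 1) (nat_lit 9) (.u (nat_lit 2)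 (.n (nat_lit 0) (nat_lit 1) (.p (nat_lit 2) (nat_lit 2) (.n (nat_lit 3) (nat_lit 1) (.p (nat_lit 4) (nat_lit 1) (.p (nat_lit 8) (nat_lit 1) (.n (nat_lit 9) (nat_lit 1) (.p (nat_lit 12) (nat_lit 1) (.n (nat_lit 13) (nat_lit 1) (.n (nat_lit 16) (nat_lit 1) (.p (nat_lit 18) (nat_lit 1) (.p (nat_lit 40) (nat_lit 1) (.p (nat_lit 41) (nat_lit 1) (.n (nat_lit 42) (nat_lit 1) (.n (nat_lit 48) (nat_lit 1) (.n (nat_lit 60) (nat_lit 2) (.n (nat_lit 61) (nat_lit 5) (.n (nat_lit 63) (nat_lit 1) (.n (nat_lit 64) (nat_lit 3) (.n (nat_lit 65) (nat_lit 3) (.p (nat_lit 66) (nat_lit 2) (.p (nat_lit 67) (nat_lit 2) (.p (nat_lit 72) (nat_lit 1) (.p (nat_lit 74) (nat_lit 1) .z))))))))))))))))))))))) .nil)))))))))))))))))))))))))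

noncomputable def dD_i7 : IL := (.e false (nat_lit 2) (nat_lit 80) (nat_lit 2) (nat_lit 10) (.e true (nat_lit 2) (nat_lit 81) (nat_lit 2) (nat_lit 10) (.e false (nat_lit 3) (nat_lit 83) (nat_lit 2) (nat_lit 10) (.e false (nat_lit 1) (nat_lit 87) (nat_lit 2) (nat_lit 10) (.e false (nat_lit 1) (nat_lit 88) (nat_lit 2) (nat_lit 10) (.e false (nat_lit 2) (nat_lit 90) (nat_lit 2) (nat_lit 10) (.e true (nat_lit 1) (nat_lit 93) (nat_lit 2) (nat_lit 10) (.e true (nat_lit 1) (nat_lit 20) (nat_lit 16) (nat_lit 0) (.e false (nat_lit 1) (nat_lit 38) (nat_lit 6) (nat_lit 6) (.e false (nat_lit 1) (nat_lit 46) (nat_lit 6) (nat_lit 6) (.e true (nat_lit 1) (nat_lit 78) (nat_lit 2) (nat_lit 10) (.e true (nat_lit 3) (nat_lit 82) (nat_lit 2) (nat_lit 10) (.e true (nat_lit 3) (nat_lit 85) (nat_lit 2) (nat_lit 10) (.e true (nat_lit 2) (nat_lit 95) (nat_lit 1) (nat_lit 11) (.e true (nat_lit 1) (nat_lit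 69) (nat_lit 3) (nat_lit 9) (.e false (nat_lit 1) (nat_lit 71) (nat_lit 3) (nat_lit 9) (.e true (nat_lit 2) (nat_lit 94) (nat_lit 1) (nat_lit 11) (.e true (nat_lit 1) (nat_lit 99) (nat_lit 1) (nat_lit 11) (.e false (nat_lit 2) (nat_lit 102) (nat_lit 1) (nat_lit 11) (.e false (nat_lit 2) (nat_lit 103) (nat_lit 1) (nat_lit 11) (.e true (nat_lit 2) (nat_lit 106) (nat_lit 1) (nat_lit 11) (.e false (nat_lit 1) (nat_lit 97) (nat_lit 1) (nat_lit 11) (.e true (nat_lit 1) (nat_lit 36) (nat_lit 7) (nat_lit 5) (.e false (nat_lit 1) (nat_lit 96) (nat_lit 1) (nat_lit 11) (.u (nat_lit 2) (.n (nat_lit 0) (nat_lit 1) (.n (nat_lit 1) (nat_lit 1) (.n (nat_lit 2) (nat_lit 2) (.p (nat_lit 3) (nat_lit 1) (.n (nat_lit 4) (nat_lit 1) (.n (nat_lit 5) (nat_lit 1) (.n (nat_lit 6) (nat_lit 1) (.p (nat_lit 7) (nat_lit 1) (.p (nat_lit 9) (nat_lit 1) (.p (nat_lit 10) (nat_lit 1) (.p (nat_lit 11) (nat_lit 2)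 (.n (nat_lit 18) (nat_lit 2) (.n (nat_lit 26) (nat_lit 1) (.p (nat_lit 27) (nat_lit 1) (.n (nat_lit 106) (nat_lit 1) (.p (nat_lit 116) (nat_lit 1) .z)))))))))))))))) .nil)))))))))))))))))))))))))

noncomputable def dD_i8 : IL := (.s true (nat_lit 1) (nat_lit 10) (nat_lit 2) (nat_lit 1) (nat_lit 6) true (nat_lit 0) true (nat_lit 6) true (nat_lit 4) true (nat_lit 10) true (nat_lit 11) (.s true (nat_lit 1) (nat_lit 10) (nat_lit 2) (nat_lit 2) (nat_lit 5) true (nat_lit 1) true (nat_lit 7) true (nat_lit 4) true (nat_lit 10) true (nat_lit 10) (.s true (nat_lit 1) (nat_lit 23) (nat_lit 2) (nat_lit 1) (nat_lit 2) true (nat_lit 6) true (nat_lit 10) false (nat_lit 1) true (nat_lit 10) true (nat_lit 11) (.e true (nat_lit 1) (nat_lit 20) (nat_lit 16) (nat_lit 0) (.e true (nat_lit 2) (nat_lit 73) (nat_lit 2) (nat_lit 10) (.e true (nat_lit 3) (nat_lit 74) (nat_lit 2) (nat_lit 10) (.e false (nat_lit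 3) (nat_lit 75) (nat_lit 2) (nat_lit 10) (.e true (nat_lit 2) (nat_lit 76) (nat_lit 2) (nat_lit 10) (.e false (nat_lit 2) (nat_lit 77) (nat_lit 2) (nat_lit 10) (.e false (nat_lit 1) (nat_lit 78) (nat_lit 2) (nat_lit 10) (.e false (nat_lit 2) (nat_lit 79) (nat_lit 2) (nat_lit 10) (.e true (nat_lit 2) (nat_lit 80) (nat_lit 2) (nat_lit 10) (.e false (nat_lit 3) (nat_lit 81) (nat_lit 2) (nat_lit 10) (.e false (nat_lit 1) (nat_lit 82) (nat_lit 2) (nat_lit 10) (.e false (nat_lit 2) (nat_lit 83) (nat_lit 2) (nat_lit 10) (.e false (nat_lit 3) (nat_lit 87) (nat_lit 2) (nat_lit 10) (.e true (nat_lit 3) (nat_lit 91) (nat_lit 2) (nat_lit 10) (.e true (nat_lit 1) (nat_lit 92) (nat_lit 2) (nat_lit 10) (.e true (nat_lit 2) (nat_lit 93) (nat_lit 2) (nat_lit 10) (.e false (nat_lit 1) (nat_lit 104) (nat_lit 1) (nat_lit 11) (.e true (nat_lit 1) (nat_lit 84) (nat_lit 2) (nat_lit 10) (.e true (nat_lit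 1) (nat_lit 85) (nat_lit 2) (nat_lit 10) (.e false (nat_lit 1) (nat_lit 90) (nat_lit 2) (nat_lit 10) (.e true (nat_lit 1) (nat_lit 96) (nat_lit 1) (nat_lit 11) (.u (nat_lit 2) (.n (nat_lit 3) (nat_lit 1) (.p (nat_lit 14) (nat_lit 1) (.n (nat_lit 18) (nat_lit 1) (.n (nat_lit 26) (nat_lit 1) (.p (nat_lit 99) (nat_lit 1) (.n (nat_lit 106) (nat_lit 1) (.n (nat_lit 110) (nat_lit 1) (.p (nat_lit 114) (nat_lit 1) (.p (nat_lit 116) (nat_lit 1) .z))))))))) .nil)))))))))))))))))))))))))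

noncomputable def dD_i9 : IL := (.e true (nat_lit 2) (nat_lit 76) (nat_lit 2) (nat_lit 10) (.e false (nat_lit 2) (nat_lit 77) (nat_lit 2) (nat_lit 10) (.e true (nat_lit 1) (nat_lit 78) (nat_lit 2) (nat_lit 10) (.e true (nat_lit 1) (nat_lit 79) (nat_lit 2) (nat_lit 10) (.e false (nat_lit 3) (nat_lit 82) (nat_lit 2) (nat_lit 10) (.e false (nat_lit 1) (nat_lit 83) (nat_lit 2) (nat_lit 10) (.e true (nat_lit 1) (nat_lit 87) (nat_lit 2) (nat_lit 10) (.e true (nat_lit 1) (nat_lit 89) (nat_lit 2) (nat_lit 10) (.e false (nat_lit 1) (nat_lit 90) (nat_lit 2) (nat_lit 10) (.e true (nat_lit 1) (nat_lit 91) (nat_lit 2) (nat_lit 10) (.e false (nat_lit 1) (nat_lit 92) (nat_lit 2) (nat_lit 10) (.e true (nat_lit 1) (nat_lit 93) (nat_lit 2) (nat_lit 10) (.e true (nat_lit 1) (nat_lit 30) (nat_lit 11) (nat_lit 3) (.e false (nat_lit 1) (nat_lit 94) (nat_lit 1) (nat_lit 11) (.e false (nat_lit 1) (nat_lit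 95) (nat_lit 1) (nat_lit 11) (.e true (nat_lit 1) (nat_lit 98) (nat_lit 1) (nat_lit 11) (.e false (nat_lit 2) (nat_lit 99) (nat_lit 1) (nat_lit 11) (.e false (nat_lit 1) (nat_lit 101) (nat_lit 1) (nat_lit 11) (.e true (nat_lit 1) (nat_lit 104) (nat_lit 1) (nat_lit 11) (.e true (nat_lit 3) (nat_lit 81) (nat_lit 2) (nat_lit 10) (.e true (nat_lit 3) (nat_lit 84) (nat_lit 2) (nat_lit 10) (.e true (nat_lit 1) (nat_lit 85) (nat_lit 2) (nat_lit 10) (.e false (nat_lit 1) (nat_lit 86) (nat_lit 2) (nat_lit 10) (.e true (nat_lit 3) (nat_lit 88) (nat_lit 2) (nat_lit 10) (.u (nat_lit 2) (.n (nat_lit 1) (nat_lit 1) (.p (nat_lit 2) (nat_lit 1) (.p (nat_lit 4) (nat_lit 2) (.p (nat_lit 5) (nat_lit 1) (.p (nat_lit 6) (nat_lit 1) (.n (nat_lit 7) (nat_lit 1) (.n (nat_lit 8) (nat_lit 1) (.n (nat_lit 10) (nat_lit 1) (.p (nat_lit 11) (nat_lit 1) (.n (nat_lit 17) (nat_lit 1) (.p (nat_lit 20) (nat_lit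 1) .z))))))))))) .nil)))))))))))))))))))))))))

noncomputable def dD_i10 : IL := (.e false (nat_lit 3) (nat_lit 95) (nat_lit 1) (nat_lit 11) (.e false (nat_lit 3) (nat_lit 98) (nat_lit 1) (nat_lit 11) (.e false (nat_lit 3) (nat_lit 99) (nat_lit 1) (nat_lit 11) (.e false (nat_lit 1) (nat_lit 102) (nat_lit 1) (nat_lit 11) (.e false (nat_lit 1) (nat_lit 103) (nat_lit 1) (nat_lit 11) (.e true (nat_lit 1) (nat_lit 73) (nat_lit 2) (nat_lit 10) (.e true (nat_lit 1) (nat_lit 74) (nat_lit 2) (nat_lit 10) (.e false (nat_lit 1) (nat_lit 76) (nat_lit 2) (nat_lit 10) (.e true (nat_lit 3) (nat_lit 77) (nat_lit 2) (nat_lit 10) (.e true (nat_lit 1) (nat_lit 78) (nat_lit 2) (nat_lit 10) (.e true (nat_lit 3) (nat_lit 79) (nat_lit 2) (nat_lit 10) (.e false (nat_lit 3) (nat_lit 80) (nat_lit 2) (nat_lit 10) (.e false (nat_lit 3) (nat_lit 81) (nat_lit 2) (nat_lit 10) (.e true (nat_lit 2) (nat_lit 82)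 (nat_lit 2) (nat_lit 10) (.e true (nat_lit 2) (nat_lit 85) (nat_lit 2) (nat_lit 10) (.e false (nat_lit 1) (nat_lit 88) (nat_lit 2) (nat_lit 10) (.e false (nat_lit 2) (nat_lit 90) (nat_lit 2) (nat_lit 10) (.e true (nat_lit 3) (nat_lit 91) (nat_lit 2) (nat_lit 10) (.e false (nat_lit 1) (nat_lit 92) (nat_lit 2) (nat_lit 10) (.e false (nat_lit 1) (nat_lit 93) (nat_lit 2) (nat_lit 10) (.e true (nat_lit 2) (nat_lit 75) (nat_lit 2) (nat_lit 10) (.e true (nat_lit 2) (nat_lit 86) (nat_lit 2) (nat_lit 10) (.e true (nat_lit 1) (nat_lit 87) (nat_lit 2) (nat_lit 10) (.e false (nat_lit 1) (nat_lit 104) (nat_lit 1) (nat_lit 11) (.u (nat_lit 2) (.n (nat_lit 0) (nat_lit 1) (.p (nat_lit 2) (nat_lit 1) (.n (nat_lit 3) (nat_lit 3) (.n (nat_lit 4) (nat_lit 1) (.n (nat_lit 5) (nat_lit 1) (.n (nat_lit 6) (nat_lit 2) (.p (nat_lit 7) (nat_lit 2) (.p (nat_lit 8) (nat_lit 1) (.n (nat_lit 9) (nat_lit 2) (.n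 (nat_lit 10) (nat_lit 1) (.n (nat_lit 11) (nat_lit 1) (.p (nat_lit 14) (nat_lit 2) (.n (nat_lit 15) (nat_lit 1) (.p (nat_lit 17) (nat_lit 1) (.n (nat_lit 20) (nat_lit 2) (.p (nat_lit 22) (nat_lit 1) (.p (nat_lit 23) (nat_lit 1) (.p (nat_lit 27) (nat_lit 1) (.p (nat_lit 97) (nat_lit 1) (.p (nat_lit 100) (nat_lit 2) (.p (nat_lit 101) (nat_lit 1) (.p (nat_lit 102) (nat_lit 1) (.n (nat_lit 104) (nat_lit 1) (.p (nat_lit 108) (nat_lit 1) (.p (nat_lit 110) (nat_lit 1) (.n (nat_lit 113) (nat_lit 2) (.p (nat_lit 114) (nat_lit 2) (.n (nat_lit 115) (nat_lit 1) (.n (nat_lit 116) (nat_lit 1) (.n (nat_lit 117) (nat_lit 1) (.n (nat_lit 118) (nat_lit 1) (.n (nat_lit 122) (nat_lit 1) .z)))))))))))))))))))))))))))))))) .nil)))))))))))))))))))))))))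

noncomputable def dD_i11 : IL := (.e true (nat_lit 2) (nat_lit 21) (nat_lit 5) (nat_lit 4) (.e true (nat_lit 2) (nat_lit 22) (nat_lit 5) (nat_lit 4) (.e true (nat_lit 2) (nat_lit 26) (nat_lit 5) (nat_lit 4) (.e true (nat_lit 2) (nat_lit 38) (nat_lit 2) (nat_lit 7) (.e false (nat_lit 3) (nat_lit 39) (nat_lit 2) (nat_lit 7) (.e false (nat_lit 3) (nat_lit 40) (nat_lit 2) (nat_lit 7) (.e true (nat_lit 3) (nat_lit 41) (nat_lit 2) (nat_lit 7) (.e true (nat_lit 3) (nat_lit 45) (nat_lit 2) (nat_lit 7) (.e false (nat_lit 1) (nat_lit 46) (nat_lit 2) (nat_lit 7) (.e true (nat_lit 2) (nat_lit 37) (nat_lit 2) (nat_lit 7) (.e false (nat_lit 2) (nat_lit 42) (nat_lit 2) (nat_lit 7) (.e true (nat_lit 3) (nat_lit 15) (nat_lit 8) (nat_lit 1) (.e true (nat_lit 3) (nat_lit 35) (nat_lit 3) (nat_lit 6) (.e true (nat_lit 3) (nat_lit 17) (nat_lit 6) (nat_lit 3) (.e false (nat_lit 1) (nat_lit 49) (nat_lit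 1) (nat_lit 8) (.e false (nat_lit 3) (nat_lit 51) (nat_lit 1) (nat_lit 8) (.e false (nat_lit 3) (nat_lit 15) (nat_lit 9) (nat_lit 1) (.e true (nat_lit 1) (nat_lit 57) (nat_lit 1) (nat_lit 8) (.e true (nat_lit 2) (nat_lit 48) (nat_lit 1) (nat_lit 8) (.e false (nat_lit 3) (nat_lit 43) (nat_lit 2) (nat_lit 7) (.e false (nat_lit 2) (nat_lit 44) (nat_lit 2) (nat_lit 7) (.e false (nat_lit 2) (nat_lit 56) (nat_lit 1) (nat_lit 8) (.e true (nat_lit 2) (nat_lit 33) (nat_lit 3) (nat_lit 6) (.e true (nat_lit 2) (nat_lit 14) (nat_lit 9) (nat_lit 1) (.u (nat_lit 2) (.n (nat_lit 0) (nat_lit 1) (.n (nat_lit 1) (nat_lit 1) (.p (nat_lit 2) (nat_lit 2) (.p (nat_lit 5) (nat_lit 2) (.p (nat_lit 7) (nat_lit 1) (.n (nat_lit 8) (nat_lit 1) (.p (nat_lit 9) (nat_lit 1) (.n (nat_lit 10) (nat_lit 1) (.p (nat_lit 11) (nat_lit 1) (.p (nat_lit 12) (nat_lit 1) (.n (nat_lit 14) (nat_lit 1) (.p (nat_lit 17) (nat_lit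 1) (.n (nat_lit 19) (nat_lit 1) (.n (nat_lit 27) (nat_lit 1) (.p (nat_lit 46) (nat_lit 1) (.n (nat_lit 48) (nat_lit 1) (.p (nat_lit 49) (nat_lit 1) (.n (nat_lit 51) (nat_lit 1) (.n (nat_lit 53) (nat_lit 1) (.p (nat_lit 54) (nat_lit 1) (.n (nat_lit 56) (nat_lit 1) .z))))))))))))))))))))) .nil)))))))))))))))))))))))))

noncomputable def dD_i12 : IL := (.s false (nat_lit 3) (nat_lit 24) (nat_lit 2) (nat_lit 2) (nat_lit 2) true (nat_lit 4) true (nat_lit 8) false (nat_lit 0) true (nat_lit 8) true (nat_lit 8) (.s false (nat_lit 3) (nat_lit 25) (nat_lit 2) (nat_lit 2) (nat_lit 2) true (nat_lit 4) true (nat_lit 8) false (nat_lit 0) true (nat_lit 8) true (nat_lit 8) (.s true (nat_lit 3) (nat_lit 26) (nat_lit 2) (nat_lit 2) (nat_lit 2) true (nat_lit 4) true (nat_lit 8) false (nat_lit 0) true (nat_lit 8) true (nat_lit 8) (.e true (nat_lit 1) (nat_lit 48) (nat_lit 6) (nat_lit 4) (.e false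 (nat_lit 3) (nat_lit 49) (nat_lit 6) (nat_lit 4) (.e true (nat_lit 3) (nat_lit 57) (nat_lit 6) (nat_lit 4) (.e false (nat_lit 1) (nat_lit 21) (nat_lit 16) (nat_lit 0) (.e true (nat_lit 3) (nat_lit 22) (nat_lit 16) (nat_lit 0) (.e false (nat_lit 1) (nat_lit 94) (nat_lit 2) (nat_lit 8) (.e false (nat_lit 2) (nat_lit 97) (nat_lit 2) (nat_lit 8) (.e true (nat_lit 1) (nat_lit 98) (nat_lit 2) (nat_lit 8) (.e true (nat_lit 3) (nat_lit 100) (nat_lit 2) (nat_lit 8) (.e true (nat_lit 2) (nat_lit 101) (nat_lit 2) (nat_lit 8) (.e true (nat_lit 2) (nat_lit 103) (nat_lit 2) (nat_lit 8) (.e false (nat_lit 3) (nat_lit 104) (nat_lit 2) (nat_lit 8) (.e false (nat_lit 1) (nat_lit 105) (nat_lit 2) (nat_lit 8) (.e true (nat_lit 3) (nat_lit 107) (nat_lit 2) (nat_lit 8) (.e true (nat_lit 1) (nat_lit 109) (nat_lit 2) (nat_lit 8) (.e true (nat_lit 2) (nat_lit 96) (nat_lit 2) (nat_lit 8) (.e true (nat_lit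 3) (nat_lit 99) (nat_lit 2) (nat_lit 8) (.e true (nat_lit 3) (nat_lit 108) (nat_lit 2) (nat_lit 8) (.e false (nat_lit 3) (nat_lit 23) (nat_lit 16) (nat_lit 0) (.e false (nat_lit 3) (nat_lit 50) (nat_lit 6) (nat_lit 4) (.e false (nat_lit 3) (nat_lit 56) (nat_lit 6) (nat_lit 4) (.u (nat_lit 2) (.n (nat_lit 2) (nat_lit 1) (.p (nat_lit 3) (nat_lit 1) (.n (nat_lit 5) (nat_lit 1) (.p (nat_lit 8) (nat_lit 1) (.n (nat_lit 9) (nat_lit 1) (.p (nat_lit 10) (nat_lit 1) (.n (nat_lit 12) (nat_lit 1) (.n (nat_lit 13) (nat_lit 1) (.p (nat_lit 18) (nat_lit 1) (.n (nat_lit 19) (nat_lit 1) (.p (nat_lit 40) (nat_lit 1) (.n (nat_lit 43) (nat_lit 1) (.p (nat_lit 45) (nat_lit 2) (.n (nat_lit 46) (nat_lit 1) (.p (nat_lit 47) (nat_lit 1) (.p (nat_lit 49) (nat_lit 1) (.n (nat_lit 50) (nat_lit 1) (.p (nat_lit 52) (nat_lit 1) (.p (nat_lit 53) (nat_lit 1) (.n (nat_lit 56) (nat_lit 1) (.n (nat_lit 57) (nat_lit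 1) (.n (nat_lit 60) (nat_lit 1) (.n (nat_lit 61) (nat_lit 2) (.n (nat_lit 63) (nat_lit 2) (.p (nat_lit 64) (nat_lit 1) (.n (nat_lit 65) (nat_lit 1) (.p (nat_lit 66) (nat_lit 1) (.n (nat_lit 68) (nat_lit 2) (.n (nat_lit 69) (nat_lit 1) (.n (nat_lit 70) (nat_lit 2) (.p (nat_lit 71) (nat_lit 1) (.p (nat_lit 73) (nat_lit 2) (.p (nat_lit 75) (nat_lit 1) .z))))))))))))))))))))))))))))))))) .nil)))))))))))))))))))))))))

noncomputable def dD_i13 : IL := (.e false (nat_lit 1) (nat_lit 82) (nat_lit 2) (nat_lit 10) (.e true (nat_lit 1) (nat_lit 83) (nat_lit 2) (nat_lit 10) (.e true (nat_lit 2) (nat_lit 84) (nat_lit 2) (nat_lit 10) (.e true (nat_lit 1) (nat_lit 85) (nat_lit 2) (nat_lit 10) (.e false (nat_lit 1) (nat_lit 86) (nat_lit 2) (nat_lit 10) (.e false (nat_lit 3) (nat_lit 87) (nat_lit 2) (nat_lit 10) (.e true (nat_lit 1) (nat_lit 89) (nat_lit 2) (nat_lit 10) (.e true (nat_lit 3) (nat_lit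 90) (nat_lit 2) (nat_lit 10) (.e false (nat_lit 2) (nat_lit 91) (nat_lit 2) (nat_lit 10) (.e false (nat_lit 2) (nat_lit 92) (nat_lit 2) (nat_lit 10) (.e true (nat_lit 2) (nat_lit 93) (nat_lit 2) (nat_lit 10) (.e false (nat_lit 1) (nat_lit 33) (nat_lit 8) (nat_lit 4) (.e true (nat_lit 2) (nat_lit 94) (nat_lit 1) (nat_lit 11) (.e true (nat_lit 1) (nat_lit 95) (nat_lit 1) (nat_lit 11) (.e false (nat_lit 1) (nat_lit 96) (nat_lit 1) (nat_lit 11) (.e true (nat_lit 3) (nat_lit 97) (nat_lit 1) (nat_lit 11) (.e false (nat_lit 2) (nat_lit 98) (nat_lit 1) (nat_lit 11) (.e false (nat_lit 2) (nat_lit 99) (nat_lit 1) (nat_lit 11) (.e false (nat_lit 3) (nat_lit 100) (nat_lit 1) (nat_lit 11) (.e false (nat_lit 3) (nat_lit 101) (nat_lit 1) (nat_lit 11) (.e false (nat_lit 3) (nat_lit 103) (nat_lit 1) (nat_lit 11) (.e false (nat_lit 3) (nat_lit 104) (nat_lit 1) (nat_lit 11) (.e false (nat_lit 1)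 (nat_lit 109) (nat_lit 1) (nat_lit 11) (.e false (nat_lit 1) (nat_lit 114) (nat_lit 0) (nat_lit 12) (.u (nat_lit 2) (.n (nat_lit 1) (nat_lit 1) (.p (nat_lit 2) (nat_lit 2) (.n (nat_lit 3) (nat_lit 5) (.p (nat_lit 4) (nat_lit 1) (.n (nat_lit 5) (nat_lit 2) (.n (nat_lit 6) (nat_lit 3) (.p (nat_lit 7) (nat_lit 3) (.n (nat_lit 9) (nat_lit 1) (.p (nat_lit 10) (nat_lit 1) (.p (nat_lit 12) (nat_lit 3) (.p (nat_lit 14) (nat_lit 2) (.p (nat_lit 15) (nat_lit 1) (.n (nat_lit 20) (nat_lit 3) (.n (nat_lit 21) (nat_lit 1) (.p (nat_lit 22) (nat_lit 2) (.p (nat_lit 23) (nat_lit 1) (.n (nat_lit 26) (nat_lit 1) (.n (nat_lit 27) (nat_lit 2) (.n (nat_lit 29) (nat_lit 1) .z))))))))))))))))))) .nil)))))))))))))))))))))))))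

noncomputable def dD_i14 : IL := (.s false (nat_lit 1) (nat_lit 6) (nat_lit 4) (nat_lit 2) (nat_lit 5) false (nat_lit 0) true (nat_lit 5) true (nat_lit 4) true (nat_lit 6) true (nat_lit 8) (.s true (nat_lit 1) (nat_lit 12) (nat_lit 5) (nat_lit 2) (nat_lit 2) true (nat_lit 1) true (nat_lit 8) true (nat_lit 2) true (nat_lit 5) true (nat_lit 8) (.s false (nat_lit 1) (nat_lit 14) (nat_lit 4) (nat_lit 2) (nat_lit 2) true (nat_lit 2) true (nat_lit 8) true (nat_lit 1) true (nat_lit 6) true (nat_lit 8) (.s true (nat_lit 1) (nat_lit 16) (nat_lit 5) (nat_lit 2) (nat_lit 0) true (nat_lit 3) true (nat_lit 10) true (nat_lit 0) true (nat_lit 5) true (nat_lit 8) (.s true (nat_lit 1) (nat_lit 25) (nat_lit 2) (nat_lit 2) (nat_lit 2) true (nat_lit 4) true (nat_lit 8) false (nat_lit 0) true (nat_lit 8) true (nat_lit 8) (.e false (nat_lit 1) (nat_lit 21) (nat_lit 16) (nat_lit 0) (.e false (nat_lit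 1) (nat_lit 22) (nat_lit 16) (nat_lit 0) (.e true (nat_lit 1) (nat_lit 48) (nat_lit 6) (nat_lit 4) (.e true (nat_lit 1) (nat_lit 49) (nat_lit 6) (nat_lit 4) (.e true (nat_lit 2) (nat_lit 53) (nat_lit 6) (nat_lit 4) (.e false (nat_lit 1) (nat_lit 58) (nat_lit 6) (nat_lit 4) (.e false (nat_lit 2) (nat_lit 94) (nat_lit 2) (nat_lit 8) (.e true (nat_lit 2) (nat_lit 95) (nat_lit 2) (nat_lit 8) (.e true (nat_lit 3) (nat_lit 97) (nat_lit 2) (nat_lit 8) (.e true (nat_lit 2) (nat_lit 98) (nat_lit 2) (nat_lit 8) (.e false (nat_lit 1) (nat_lit 101) (nat_lit 2) (nat_lit 8) (.e true (nat_lit 2) (nat_lit 103) (nat_lit 2) (nat_lit 8) (.e true (nat_lit 2) (nat_lit 104) (nat_lit 2) (nat_lit 8) (.e true (nat_lit 1) (nat_lit 105) (nat_lit 2) (nat_lit 8) (.e false (nat_lit 1) (nat_lit 109) (nat_lit 2) (nat_lit 8) (.e false (nat_lit 2) (nat_lit 96) (nat_lit 2) (nat_lit 8) (.e true (nat_lit 2) (nat_lit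 99) (nat_lit 2) (nat_lit 8) (.e true (nat_lit 1) (nat_lit 36) (nat_lit 10) (nat_lit 3) (.e false (nat_lit 1) (nat_lit 106) (nat_lit 2) (nat_lit 8) (.u (nat_lit 2) (.p (nat_lit 0) (nat_lit 1) (.n (nat_lit 1) (nat_lit 1) (.n (nat_lit 4) (nat_lit 1) (.n (nat_lit 8) (nat_lit 1) (.p (nat_lit 60) (nat_lit 1) (.p (nat_lit 61) (nat_lit 1) (.n (nat_lit 64) (nat_lit 1) (.p (nat_lit 65) (nat_lit 1) (.p (nat_lit 66) (nat_lit 1) (.p (nat_lit 67) (nat_lit 1) (.p (nat_lit 69) (nat_lit 2) (.p (nat_lit 70) (nat_lit 2) .z)))))))))))) .nil)))))))))))))))))))))))))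

noncomputable def dD_i15 : IL := (.e true (nat_lit 3) (nat_lit 87) (nat_lit 2) (nat_lit 10) (.e true (nat_lit 2) (nat_lit 88) (nat_lit 2) (nat_lit 10) (.e true (nat_lit 2) (nat_lit 90) (nat_lit 2) (nat_lit 10) (.e false (nat_lit 1) (nat_lit 91) (nat_lit 2) (nat_lit 10) (.e false (nat_lit 1) (nat_lit 92) (nat_lit 2) (nat_lit 10) (.e true (nat_lit 2) (nat_lit 93) (nat_lit 2) (nat_lit 10) (.e true (nat_lit 1) (nat_lit 62) (nat_lit 4) (nat_lit 8) (.e true (nat_lit 2) (nat_lit 86) (nat_lit 2) (nat_lit 10) (.e true (nat_lit 2) (nat_lit 48) (nat_lit 5) (nat_lit 7) (.e true (nat_lit 3) (nat_lit 49) (nat_lit 5) (nat_lit 7) (.e false (nat_lit 2) (nat_lit 52) (nat_lit 5) (nat_lit 7) (.e true (nat_lit 3) (nat_lit 53) (nat_lit 5) (nat_lit 7) (.e false (nat_lit 1) (nat_lit 54) (nat_lit 5) (nat_lit 7) (.e true (nat_lit 2) (nat_lit 89) (nat_lit 2) (nat_lit 10) (.e false (nat_lit 1) (nat_lit 22)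 (nat_lit 15) (nat_lit 1) (.e false (nat_lit 1) (nat_lit 94) (nat_lit 1) (nat_lit 11) (.e false (nat_lit 1) (nat_lit 95) (nat_lit 1) (nat_lit 11) (.e false (nat_lit 1) (nat_lit 97) (nat_lit 1) (nat_lit 11) (.e true (nat_lit 1) (nat_lit 98) (nat_lit 1) (nat_lit 11) (.e false (nat_lit 2) (nat_lit 99) (nat_lit 1) (nat_lit 11) (.e false (nat_lit 1) (nat_lit 101) (nat_lit 1) (nat_lit 11) (.e true (nat_lit 1) (nat_lit 104) (nat_lit 1) (nat_lit 11) (.e true (nat_lit 1) (nat_lit 105) (nat_lit 1) (nat_lit 11) (.e true (nat_lit 1) (nat_lit 109) (nat_lit 1) (nat_lit 11) (.u (nat_lit 2) (.n (nat_lit 0) (nat_lit 1) (.n (nat_lit 1) (nat_lit 2) (.p (nat_lit 4) (nat_lit 3) (.p (nat_lit 5) (nat_lit 2) (.p (nat_lit 6) (nat_lit 3) (.n (nat_lit 7) (nat_lit 3) (.n (nat_lit 8) (nat_lit 4) (.n (nat_lit 9) (nat_lit 2) (.p (nat_lit 10) (nat_lit 1) (.p (nat_lit 11) (nat_lit 2) (.n (nat_lit 12) (nat_lit 1)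 (.n (nat_lit 13) (nat_lit 1) (.n (nat_lit 14) (nat_lit 1) (.n (nat_lit 15) (nat_lit 1) (.n (nat_lit 17) (nat_lit 2) (.p (nat_lit 20) (nat_lit 2) (.p (nat_lit 27) (nat_lit 1) (.p (nat_lit 28) (nat_lit 2) (.n (nat_lit 99) (nat_lit 1) (.n (nat_lit 103) (nat_lit 1) (.n (nat_lit 105) (nat_lit 1) (.n (nat_lit 107) (nat_lit 1) (.p (nat_lit 110) (nat_lit 1) (.n (nat_lit 114) (nat_lit 1) .z)))))))))))))))))))))))) .nil)))))))))))))))))))))))))

noncomputable def dD_i16 : IL := (.e false (nat_lit 2) (nat_lit 99) (nat_lit 1) (nat_lit 11) (.e false (nat_lit 1) (nat_lit 101) (nat_lit 1) (nat_lit 11) (.e true (nat_lit 1) (nat_lit 104) (nat_lit 1) (nat_lit 11) (.e true (nat_lit 1) (nat_lit 105) (nat_lit 1) (nat_lit 11) (.e true (nat_lit 1) (nat_lit 109) (nat_lit 1) (nat_lit 11) (.e true (nat_lit 3) (nat_lit 84) (nat_lit 2) (nat_lit 10) (.e false (nat_lit 2) (nat_lit 73) (nat_lit 2) (nat_lit 10)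 (.e false (nat_lit 1) (nat_lit 74) (nat_lit 2) (nat_lit 10) (.e true (nat_lit 1) (nat_lit 76) (nat_lit 2) (nat_lit 10) (.e false (nat_lit 3) (nat_lit 77) (nat_lit 2) (nat_lit 10) (.e true (nat_lit 1) (nat_lit 78) (nat_lit 2) (nat_lit 10) (.e true (nat_lit 1) (nat_lit 79) (nat_lit 2) (nat_lit 10) (.e true (nat_lit 3) (nat_lit 82) (nat_lit 2) (nat_lit 10) (.e true (nat_lit 3) (nat_lit 86) (nat_lit 2) (nat_lit 10) (.e true (nat_lit 2) (nat_lit 87) (nat_lit 2) (nat_lit 10) (.e false (nat_lit 3) (nat_lit 88) (nat_lit 2) (nat_lit 10) (.e true (nat_lit 2) (nat_lit 91) (nat_lit 2) (nat_lit 10) (.e false (nat_lit 1) (nat_lit 92) (nat_lit 2) (nat_lit 10) (.e true (nat_lit 1) (nat_lit 83) (nat_lit 2) (nat_lit 10) (.e true (nat_lit 2) (nat_lit 89) (nat_lit 2) (nat_lit 10) (.e true (nat_lit 1) (nat_lit 85) (nat_lit 2) (nat_lit 10) (.e false (nat_lit 2) (nat_lit 75) (nat_lit 2) (nat_lit 10)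 (.e true (nat_lit 1) (nat_lit 80) (nat_lit 2) (nat_lit 10) (.e true (nat_lit 3) (nat_lit 81) (nat_lit 2) (nat_lit 10) (.u (nat_lit 2) (.p (nat_lit 0) (nat_lit 1) (.n (nat_lit 1) (nat_lit 1) (.p (nat_lit 2) (nat_lit 1) (.p (nat_lit 4) (nat_lit 3) (.p (nat_lit 5) (nat_lit 1) (.p (nat_lit 6) (nat_lit 2) (.n (nat_lit 7) (nat_lit 1) (.n (nat_lit 8) (nat_lit 3) (.n (nat_lit 10) (nat_lit 3) (.p (nat_lit 11) (nat_lit 1) (.n (nat_lit 26) (nat_lit 1) (.n (nat_lit 96) (nat_lit 1) (.n (nat_lit 97) (nat_lit 1) (.n (nat_lit 100) (nat_lit 1) (.p (nat_lit 105) (nat_lit 1) (.p (nat_lit 109) (nat_lit 1) (.n (nat_lit 111) (nat_lit 1) (.p (nat_lit 113) (nat_lit 1) (.n (nat_lit 114) (nat_lit 1) .z))))))))))))))))))) .nil)))))))))))))))))))))))))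

noncomputable def dD_i17 : IL := (.s false (nat_lit 1) (nat_lit 5) (nat_lit 2) (nat_lit 4) (nat_lit 2) true (nat_lit 2) true (nat_lit 6) true (nat_lit 3) true (nat_lit 6) true (nat_lit 4) (.s true (nat_lit 3) (nat_lit 6) (nat_lit 0) (nat_lit 2) (nat_lit 5) true (nat_lit 1) true (nat_lit 3) true (nat_lit 2) true (nat_lit 8) true (nat_lit 6) (.s true (nat_lit 3) (nat_lit 6) (nat_lit 1) (nat_lit 4) (nat_lit 2) true (nat_lit 3) true (nat_lit 6) true (nat_lit 2) true (nat_lit 7) true (nat_lit 4) (.s false (nat_lit 1) (nat_lit 12) (nat_lit 1) (nat_lit 2) (nat_lit 2) true (nat_lit 3) true (nat_lit 6) true (nat_lit 0) true (nat_lit 7) true (nat_lit 6) (.s true (nat_lit 3) (nat_lit 13) (nat_lit 2) (nat_lit 1) (nat_lit 2) true (nat_lit 2) true (nat_lit 6) true (nat_lit 0) true (nat_lit 6) true (nat_lit 7) (.s true (nat_lit 3) (nat_lit 14) (nat_lit 0) (nat_lit 2) (nat_lit 2) true (nat_lit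 4) true (nat_lit 6) false (nat_lit 0) true (nat_lit 8) true (nat_lit 6) (.s false (nat_lit 3) (nat_lit 14) (nat_lit 2) (nat_lit 0) (nat_lit 2) true (nat_lit 2) true (nat_lit 6) false (nat_lit 0) true (nat_lit 6) true (nat_lit 8) (.s true (nat_lit 3) (nat_lit 14) (nat_lit 2) (nat_lit 2) (nat_lit 0) true (nat_lit 4) true (nat_lit 8) false (nat_lit 0) true (nat_lit 6) true (nat_lit 6) (.s true (nat_lit 3) (nat_lit 16) (nat_lit 1) (nat_lit 0) (nat_lit 2) true (nat_lit 3) true (nat_lit 6) false (nat_lit 1) true (nat_lit 7) true (nat_lit 8) (.s true (nat_lit 3) (nat_lit 16) (nat_lit 2) (nat_lit 1) (nat_lit 0) true (nat_lit 4) true (nat_lit 8) false (nat_lit 1) true (nat_lit 6) true (nat_lit 7) (.e false (nat_lit 3) (nat_lit 21) (nat_lit 6) (nat_lit 2) (.e true (nat_lit 1) (nat_lit 22) (nat_lit 6) (nat_lit 2) (.e false (nat_lit 3) (nat_lit 48) (nat_lit 2) (nat_lit 6) (.e false (nat_lit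 3) (nat_lit 49) (nat_lit 2) (nat_lit 6) (.e true (nat_lit 1) (nat_lit 51) (nat_lit 2) (nat_lit 6) (.e false (nat_lit 3) (nat_lit 52) (nat_lit 2) (nat_lit 6) (.e false (nat_lit 3) (nat_lit 53) (nat_lit 2) (nat_lit 6) (.e true (nat_lit 1) (nat_lit 54) (nat_lit 2) (nat_lit 6) (.e false (nat_lit 2) (nat_lit 57) (nat_lit 2) (nat_lit 6) (.e true (nat_lit 1) (nat_lit 55) (nat_lit 2) (nat_lit 6) (.e false (nat_lit 1) (nat_lit 58) (nat_lit 2) (nat_lit 6) (.e false (nat_lit 1) (nat_lit 50) (nat_lit 2) (nat_lit 6) (.e true (nat_lit 2) (nat_lit 56) (nat_lit 2) (nat_lit 6) (.e false (nat_lit 3) (nat_lit 16) (nat_lit 8) (nat_lit 1) (.u (nat_lit 2) (.n (nat_lit 8) (nat_lit 1) (.p (nat_lit 12) (nat_lit 1) (.n (nat_lit 16) (nat_lit 1) (.n (nat_lit 23) (nat_lit 1) (.p (nat_lit 27) (nat_lit 1) (.n (nat_lit 28) (nat_lit 1) (.n (nat_lit 32) (nat_lit 1) (.p (nat_lit 36) (nat_lit 1) (.p (nat_lit 37)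 (nat_lit 1) (.n (nat_lit 38) (nat_lit 1) (.p (nat_lit 39) (nat_lit 1) (.n (nat_lit 40) (nat_lit 1) (.p (nat_lit 42) (nat_lit 1) (.n (nat_lit 44) (nat_lit 1) (.n (nat_lit 45) (nat_lit 1) (.p (nat_lit 49) (nat_lit 1) (.n (nat_lit 50) (nat_lit 1) .z))))))))))))))))) .nil)))))))))))))))))))))))))

noncomputable def dD_i18 : IL := (.s false (nat_lit 3) (nat_lit 31) (nat_lit 2) (nat_lit 2) (nat_lit 1) true (nat_lit 5) true (nat_lit 9) false (nat_lit 1) true (nat_lit 8) true (nat_lit 8) (.s false (nat_lit 3) (nat_lit 32) (nat_lit 2) (nat_lit 2) (nat_lit 1) true (nat_lit 5) true (nat_lit 9) false (nat_lit 1) true (nat_lit 8) true (nat_lit 8) (.s true (nat_lit 3) (nat_lit 35) (nat_lit 0) (nat_lit 2) (nat_lit 2) true (nat_lit 6) true (nat_lit 8) false (nat_lit 2) true (nat_lit 10) true (nat_lit 8) (.s false (nat_lit 3) (nat_lit 36) (nat_lit 2) (nat_lit 0) (nat_lit 1) true (nat_lit 5) true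 (nat_lit 9) false (nat_lit 3) true (nat_lit 8) true (nat_lit 10) (.s true (nat_lit 3) (nat_lit 36) (nat_lit 2) (nat_lit 1) (nat_lit 0) true (nat_lit 6) true (nat_lit 10) false (nat_lit 3) true (nat_lit 8) true (nat_lit 9) (.e false (nat_lit 3) (nat_lit 22) (nat_lit 16) (nat_lit 0) (.e true (nat_lit 3) (nat_lit 49) (nat_lit 6) (nat_lit 4) (.e false (nat_lit 3) (nat_lit 57) (nat_lit 6) (nat_lit 4) (.e false (nat_lit 2) (nat_lit 97) (nat_lit 2) (nat_lit 8) (.e true (nat_lit 3) (nat_lit 99) (nat_lit 2) (nat_lit 8) (.e true (nat_lit 2) (nat_lit 100) (nat_lit 2) (nat_lit 8) (.e false (nat_lit 1) (nat_lit 102) (nat_lit 2) (nat_lit 8) (.e true (nat_lit 1) (nat_lit 105) (nat_lit 2) (nat_lit 8) (.e false (nat_lit 2) (nat_lit 107) (nat_lit 2) (nat_lit 8) (.e false (nat_lit 1) (nat_lit 109) (nat_lit 2) (nat_lit 8) (.e true (nat_lit 3) (nat_lit 101) (nat_lit 2) (nat_lit 8) (.e true (nat_lit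 2) (nat_lit 104) (nat_lit 2) (nat_lit 8) (.e true (nat_lit 2) (nat_lit 94) (nat_lit 2) (nat_lit 8) (.e false (nat_lit 1) (nat_lit 95) (nat_lit 2) (nat_lit 8) (.e false (nat_lit 2) (nat_lit 98) (nat_lit 2) (nat_lit 8) (.e false (nat_lit 2) (nat_lit 96) (nat_lit 2) (nat_lit 8) (.e true (nat_lit 3) (nat_lit 108) (nat_lit 2) (nat_lit 8) (.e false (nat_lit 3) (nat_lit 23) (nat_lit 16) (nat_lit 0) (.e false (nat_lit 3) (nat_lit 36) (nat_lit 10) (nat_lit 3) (.u (nat_lit 2) (.p (nat_lit 2) (nat_lit 1) (.n (nat_lit 6) (nat_lit 1) (.n (nat_lit 7) (nat_lit 1) (.n (nat_lit 10) (nat_lit 1) (.p (nat_lit 12) (nat_lit 1) (.n (nat_lit 13) (nat_lit 1) (.p (nat_lit 18) (nat_lit 1) (.p (nat_lit 53) (nat_lit 1) (.p (nat_lit 54) (nat_lit 1) (.n (nat_lit 58) (nat_lit 1) (.p (nat_lit 60) (nat_lit 3) (.p (nat_lit 61) (nat_lit 4) (.n (nat_lit 62) (nat_lit 1) (.n (nat_lit 63) (nat_lit 9) (.n (nat_lit 64)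 (nat_lit 3) (.n (nat_lit 65) (nat_lit 3) (.n (nat_lit 66) (nat_lit 2) (.p (nat_lit 67) (nat_lit 1) (.n (nat_lit 68) (nat_lit 1) (.p (nat_lit 69) (nat_lit 7) (.p (nat_lit 70) (nat_lit 4) (.p (nat_lit 71) (nat_lit 1) (.p (nat_lit 73) (nat_lit 1) (.p (nat_lit 75) (nat_lit 1) .z)))))))))))))))))))))))) .nil)))))))))))))))))))))))))

noncomputable def dD_i19 : IL := (.e true (nat_lit 2) (nat_lit 83) (nat_lit 2) (nat_lit 10) (.e true (nat_lit 3) (nat_lit 87) (nat_lit 2) (nat_lit 10) (.e true (nat_lit 1) (nat_lit 88) (nat_lit 2) (nat_lit 10) (.e true (nat_lit 1) (nat_lit 90) (nat_lit 2) (nat_lit 10) (.e false (nat_lit 3) (nat_lit 91) (nat_lit 2) (nat_lit 10) (.e false (nat_lit 3) (nat_lit 93) (nat_lit 2) (nat_lit 10) (.e false (nat_lit 3) (nat_lit 92) (nat_lit 2) (nat_lit 10) (.e false (nat_lit 2) (nat_lit 82) (nat_lit 2) (nat_lit 10) (.e false (nat_lit 2) (nat_lit 78) (nat_lit 2) (nat_lit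 10) (.e true (nat_lit 2) (nat_lit 84) (nat_lit 2) (nat_lit 10) (.e false (nat_lit 2) (nat_lit 85) (nat_lit 2) (nat_lit 10) (.e false (nat_lit 1) (nat_lit 89) (nat_lit 2) (nat_lit 10) (.e false (nat_lit 1) (nat_lit 30) (nat_lit 11) (nat_lit 3) (.e false (nat_lit 2) (nat_lit 95) (nat_lit 1) (nat_lit 11) (.e true (nat_lit 2) (nat_lit 86) (nat_lit 2) (nat_lit 10) (.e false (nat_lit 2) (nat_lit 48) (nat_lit 5) (nat_lit 7) (.e true (nat_lit 3) (nat_lit 21) (nat_lit 14) (nat_lit 1) (.e false (nat_lit 2) (nat_lit 35) (nat_lit 8) (nat_lit 4) (.e false (nat_lit 2) (nat_lit 17) (nat_lit 16) (nat_lit 0) (.e true (nat_lit 3) (nat_lit 71) (nat_lit 3) (nat_lit 9) (.e true (nat_lit 3) (nat_lit 19) (nat_lit 16) (nat_lit 0) (.e true (nat_lit 3) (nat_lit 33) (nat_lit 8) (nat_lit 4) (.e false (nat_lit 1) (nat_lit 36) (nat_lit 7) (nat_lit 5) (.u (nat_lit 2) (.p (nat_lit 0) (nat_lit 4) (.p (nat_lit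 2) (nat_lit 2) (.n (nat_lit 3) (nat_lit 1) (.n (nat_lit 4) (nat_lit 3) (.p (nat_lit 5) (nat_lit 1) (.n (nat_lit 8) (nat_lit 2) (.p (nat_lit 9) (nat_lit 3) (.n (nat_lit 11) (nat_lit 1) (.p (nat_lit 12) (nat_lit 2) (.p (nat_lit 14) (nat_lit 3) (.p (nat_lit 15) (nat_lit 1) (.p (nat_lit 18) (nat_lit 1) (.p (nat_lit 19) (nat_lit 1) (.n (nat_lit 21) (nat_lit 1) (.p (nat_lit 22) (nat_lit 1) (.n (nat_lit 24) (nat_lit 1) (.n (nat_lit 27) (nat_lit 3) (.p (nat_lit 41) (nat_lit 1) (.n (nat_lit 44) (nat_lit 1) (.n (nat_lit 46) (nat_lit 1) (.p (nat_lit 65) (nat_lit 1) (.p (nat_lit 66) (nat_lit 2) (.n (nat_lit 67) (nat_lit 1) (.p (nat_lit 68) (nat_lit 1) (.p (nat_lit 69) (nat_lit 1) (.n (nat_lit 71) (nat_lit 1) (.n (nat_lit 72) (nat_lit 1) (.n (nat_lit 73) (nat_lit 1) (.p (nat_lit 74) (nat_lit 1) (.p (nat_lit 75) (nat_lit 1) (.n (nat_lit 76) (nat_lit 1) (.n (nat_lit 77) (nat_lit 2) (.p (nat_lit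 79) (nat_lit 1) (.p (nat_lit 80) (nat_lit 1) (.n (nat_lit 81) (nat_lit 1) (.p (nat_lit 82) (nat_lit 1) (.n (nat_lit 85) (nat_lit 1) (.p (nat_lit 86) (nat_lit 1) (.p (nat_lit 92) (nat_lit 1) (.p (nat_lit 93) (nat_lit 2) (.p (nat_lit 94) (nat_lit 2) (.p (nat_lit 96) (nat_lit 4) (.p (nat_lit 97) (nat_lit 9) (.p (nat_lit 98) (nat_lit 6) (.p (nat_lit 100) (nat_lit 7) (.n (nat_lit 101) (nat_lit 1) (.n (nat_lit 102) (nat_lit 7) (.p (nat_lit 103) (nat_lit 7) (.n (nat_lit 104) (nat_lit 5) (.n (nat_lit 105) (nat_lit 4) (.n (nat_lit 107) (nat_lit 5) (.n (nat_lit 108) (nat_lit 2) (.p (nat_lit 109) (nat_lit 1) (.p (nat_lit 110) (nat_lit 3) (.n (nat_lit 111) (nat_lit 2) (.n (nat_lit 113) (nat_lit 8) (.p (nat_lit 114) (nat_lit 7) (.n (nat_lit 117) (nat_lit 2) (.n (nat_lit 118) (nat_lit 3) (.n (nat_lit 119) (nat_lit 1) .z)))))))))))))))))))))))))))))))))))))))))))))))))))))))))))) (.u (nat_lit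 2) (.p (nat_lit 120) (nat_lit 3) (.n (nat_lit 122) (nat_lit 4) (.n (nat_lit 123) (nat_lit 3) (.n (nat_lit 124) (nat_lit 3) (.n (nat_lit 126) (nat_lit 4) (.n (nat_lit 127) (nat_lit 3) (.n (nat_lit 128) (nat_lit 1) (.n (nat_lit 130) (nat_lit 1) (.n (nat_lit 132) (nat_lit 1) (.n (nat_lit 137) (nat_lit 1) .z)))))))))) .nil)))))))))))))))))))))))))

noncomputable def dD_i20 : IL := (.s false (nat_lit 2) (nat_lit 32) (nat_lit 1) (nat_lit 2) (nat_lit 1) false (nat_lit 13) true (nat_lit 11) false (nat_lit 3) true (nat_lit 11) true (nat_lit 10) (.s false (nat_lit 2) (nat_lit 33) (nat_lit 0) (nat_lit 2) (nat_lit 1) true (nat_lit 9) true (nat_lit 11) false (nat_lit 4) true (nat_lit 12) true (nat_lit 10) (.s false (nat_lit 3) (nat_lit 33) (nat_lit 1) (nat_lit 0) (nat_lit 2) true (nat_lit 7) true (nat_lit 10) false (nat_lit 4) true (nat_lit 11) true (nat_lit 12) (.s true (nat_lit 3) (nat_lit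 33) (nat_lit 1) (nat_lit 2) (nat_lit 0) true (nat_lit 9) true (nat_lit 12) false (nat_lit 4) true (nat_lit 11) true (nat_lit 10) (.s true (nat_lit 3) (nat_lit 33) (nat_lit 2) (nat_lit 1) (nat_lit 0) true (nat_lit 8) true (nat_lit 12) false (nat_lit 4) true (nat_lit 10) true (nat_lit 11) (.s false (nat_lit 1) (nat_lit 36) (nat_lit 0) (nat_lit 1) (nat_lit 1) true (nat_lit 9) true (nat_lit 11) false (nat_lit 5) true (nat_lit 12) true (nat_lit 11) (.e false (nat_lit 2) (nat_lit 37) (nat_lit 6) (nat_lit 6) (.e false (nat_lit 1) (nat_lit 39) (nat_lit 6) (nat_lit 6) (.e false (nat_lit 1) (nat_lit 41) (nat_lit 6) (nat_lit 6) (.e false (nat_lit 2) (nat_lit 46) (nat_lit 6) (nat_lit 6) (.e true (nat_lit 2) (nat_lit 102) (nat_lit 1) (nat_lit 11) (.e true (nat_lit 2) (nat_lit 38) (nat_lit 6) (nat_lit 6) (.e true (nat_lit 1) (nat_lit 45) (nat_lit 6) (nat_lit 6) (.e false (nat_lit 3) (nat_lit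 21) (nat_lit 15) (nat_lit 1) (.e true (nat_lit 1) (nat_lit 97) (nat_lit 1) (nat_lit 11) (.e true (nat_lit 3) (nat_lit 100) (nat_lit 1) (nat_lit 11) (.e true (nat_lit 1) (nat_lit 109) (nat_lit 1) (nat_lit 11) (.e false (nat_lit 3) (nat_lit 101) (nat_lit 1) (nat_lit 11) (.e false (nat_lit 1) (nat_lit 104) (nat_lit 1) (nat_lit 11) (.e false (nat_lit 1) (nat_lit 73) (nat_lit 2) (nat_lit 10) (.e true (nat_lit 3) (nat_lit 74) (nat_lit 2) (nat_lit 10) (.e false (nat_lit 1) (nat_lit 75) (nat_lit 2) (nat_lit 10) (.e false (nat_lit 2) (nat_lit 76) (nat_lit 2) (nat_lit 10) (.e true (nat_lit 1) (nat_lit 77) (nat_lit 2) (nat_lit 10) (.e false (nat_lit 1) (nat_lit 79) (nat_lit 2) (nat_lit 10) dD_i19)))))))))))))))))))))))))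

noncomputable def dD_i21 : IL := (.s true (nat_lit 1) (nat_lit 15) (nat_lit 1) (nat_lit 2) (nat_lit 4) true (nat_lit 4) true (nat_lit 8) true (nat_lit 1) true (nat_lit 11) true (nat_lit 10) (.s true (nat_lit 3) (nat_lit 14) (nat_lit 1) (nat_lit 4) (nat_lit 2) true (nat_lit 7) true (nat_lit 10) true (nat_lit 1) true (nat_lit 11) true (nat_lit 8) (.s true (nat_lit 2) (nat_lit 15) (nat_lit 1) (nat_lit 4) (nat_lit 2) true (nat_lit 7) true (nat_lit 10) true (nat_lit 1) true (nat_lit 11) true (nat_lit 8) (.s false (nat_lit 1) (nat_lit 14) (nat_lit 2) (nat_lit 1) (nat_lit 4) true (nat_lit 2) true (nat_lit 8) true (nat_lit 1) true (nat_lit 10) true (nat_lit 11) (.s false (nat_lit 2) (nat_lit 14) (nat_lit 2) (nat_lit 3) (nat_lit 2) true (nat_lit 6) true (nat_lit 10) true (nat_lit 1) true (nat_lit 10) true (nat_lit 9) (.s true (nat_lit 1) (nat_lit 15) (nat_lit 2) (nat_lit 3) (nat_lit 2)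 true (nat_lit 6) true (nat_lit 10) true (nat_lit 1) true (nat_lit 10) true (nat_lit 9) (.s true (nat_lit 1) (nat_lit 15) (nat_lit 2) (nat_lit 5) (nat_lit 0) true (nat_lit 8) true (nat_lit 12) true (nat_lit 1) true (nat_lit 10) true (nat_lit 7) (.s true (nat_lit 2) (nat_lit 16) (nat_lit 3) (nat_lit 1) (nat_lit 2) true (nat_lit 4) true (nat_lit 10) true (nat_lit 0) true (nat_lit 9) true (nat_lit 11) (.s false (nat_lit 3) (nat_lit 16) (nat_lit 4) (nat_lit 1) (nat_lit 1) true (nat_lit 4) true (nat_lit 11) true (nat_lit 0) true (nat_lit 8) true (nat_lit 11) (.s true (nat_lit 2) (nat_lit 22) (nat_lit 1) (nat_lit 2) (nat_lit 2) true (nat_lit 7) true (nat_lit 10) false (nat_lit 1) true (nat_lit 11) true (nat_lit 10) (.s false (nat_lit 1) (nat_lit 23) (nat_lit 1) (nat_lit 2) (nat_lit 2) true (nat_lit 7) true (nat_lit 10) false (nat_lit 1) true (nat_lit 11) true (nat_lit 10) (.s false (nat_lit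 1) (nat_lit 25) (nat_lit 1) (nat_lit 2) (nat_lit 2) true (nat_lit 7) true (nat_lit 10) false (nat_lit 1) true (nat_lit 11) true (nat_lit 10) (.s true (nat_lit 1) (nat_lit 22) (nat_lit 2) (nat_lit 1) (nat_lit 2) true (nat_lit 6) true (nat_lit 10) false (nat_lit 1) true (nat_lit 10) true (nat_lit 11) (.s false (nat_lit 2) (nat_lit 24) (nat_lit 2) (nat_lit 1) (nat_lit 2) true (nat_lit 6) true (nat_lit 10) false (nat_lit 1) true (nat_lit 10) true (nat_lit 11) (.s false (nat_lit 2) (nat_lit 25) (nat_lit 2) (nat_lit 1) (nat_lit 2) true (nat_lit 6) true (nat_lit 10) false (nat_lit 1) true (nat_lit 10) true (nat_lit 11) (.s true (nat_lit 1) (nat_lit 26) (nat_lit 2) (nat_lit 1) (nat_lit 2) true (nat_lit 6) true (nat_lit 10) false (nat_lit 1) true (nat_lit 10) true (nat_lit 11) (.s true (nat_lit 3) (nat_lit 22) (nat_lit 2) (nat_lit 2) (nat_lit 1) true (nat_lit 7) true (nat_lit 11) false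 (nat_lit 1) true (nat_lit 10) true (nat_lit 10) (.s true (nat_lit 2) (nat_lit 23) (nat_lit 2) (nat_lit 2) (nat_lit 1) true (nat_lit 7) true (nat_lit 11) false (nat_lit 1) true (nat_lit 10) true (nat_lit 10) (.s false (nat_lit 3) (nat_lit 24) (nat_lit 2) (nat_lit 2) (nat_lit 1) true (nat_lit 7) true (nat_lit 11) false (nat_lit 1) true (nat_lit 10) true (nat_lit 10) (.s false (nat_lit 2) (nat_lit 25) (nat_lit 2) (nat_lit 2) (nat_lit 1) true (nat_lit 7) true (nat_lit 11) false (nat_lit 1) true (nat_lit 10) true (nat_lit 10) (.s false (nat_lit 1) (nat_lit 26) (nat_lit 2) (nat_lit 2) (nat_lit 1) true (nat_lit 7) true (nat_lit 11) false (nat_lit 1) true (nat_lit 10) true (nat_lit 10) (.s false (nat_lit 3) (nat_lit 27) (nat_lit 2) (nat_lit 0) (nat_lit 2) true (nat_lit 6) true (nat_lit 10) false (nat_lit 2) true (nat_lit 10) true (nat_lit 12) (.s true (nat_lit 1) (nat_lit 28) (nat_lit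 2) (nat_lit 0) (nat_lit 2) true (nat_lit 6) true (nat_lit 10) false (nat_lit 2) true (nat_lit 10) true (nat_lit 12) (.s false (nat_lit 2) (nat_lit 30) (nat_lit 1) (nat_lit 1) (nat_lit 2) true (nat_lit 7) true (nat_lit 10) false (nat_lit 3) true (nat_lit 11) true (nat_lit 11) (.s false (nat_lit 2) (nat_lit 31) (nat_lit 1) (nat_lit 2) (nat_lit 1) false (nat_lit 13) true (nat_lit 11) false (nat_lit 3) true (nat_lit 11) true (nat_lit 10) dD_i20)))))))))))))))))))))))))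

noncomputable def dD_i22 : IL := (.e false (nat_lit 3) (nat_lit 82) (nat_lit 2) (nat_lit 10) (.e true (nat_lit 1) (nat_lit 83) (nat_lit 2) (nat_lit 10) (.e true (nat_lit 2) (nat_lit 87) (nat_lit 2) (nat_lit 10) (.e false (nat_lit 1) (nat_lit 88) (nat_lit 2) (nat_lit 10) (.e false (nat_lit 2) (nat_lit 91) (nat_lit 2) (nat_lit 10) (.e false (nat_lit 3) (nat_lit 92) (nat_lit 2) (nat_lit 10) (.e false (nat_lit 3) (nat_lit 104) (nat_lit 1) (nat_lit 11) (.e true (nat_lit 2) (nat_lit 85) (nat_lit 2) (nat_lit 10) (.e true (nat_lit 1) (nat_lit 84) (nat_lit 2) (nat_lit 10) (.e false (nat_lit 2) (nat_lit 95) (nat_lit 1) (nat_lit 11) (.e false (nat_lit 1) (nat_lit 97) (nat_lit 1) (nat_lit 11) (.e true (nat_lit 3) (nat_lit 98) (nat_lit 1) (nat_lit 11) (.e true (nat_lit 1) (nat_lit 101) (nat_lit 1) (nat_lit 11) (.e true (nat_lit 3) (nat_lit 102) (nat_lit 1) (nat_lit 11) (.e true (nat_lit 1)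 (nat_lit 100) (nat_lit 1) (nat_lit 11) (.e true (nat_lit 3) (nat_lit 106) (nat_lit 1) (nat_lit 11) (.e true (nat_lit 2) (nat_lit 35) (nat_lit 8) (nat_lit 4) (.e false (nat_lit 2) (nat_lit 17) (nat_lit 16) (nat_lit 0) (.e false (nat_lit 1) (nat_lit 56) (nat_lit 5) (nat_lit 7) (.e false (nat_lit 1) (nat_lit 18) (nat_lit 16) (nat_lit 0) (.e true (nat_lit 1) (nat_lit 70) (nat_lit 3) (nat_lit 9) (.e false (nat_lit 1) (nat_lit 39) (nat_lit 6) (nat_lit 6) (.e true (nat_lit 1) (nat_lit 41) (nat_lit 6) (nat_lit 6) (.e false (nat_lit 2) (nat_lit 36) (nat_lit 7) (nat_lit 5) (.u (nat_lit 2) (.p (nat_lit 0) (nat_lit 3) (.p (nat_lit 1) (nat_lit 4) (.n (nat_lit 3) (nat_lit 1) (.n (nat_lit 5) (nat_lit 2) (.p (nat_lit 6) (nat_lit 1) (.n (nat_lit 7) (nat_lit 1) (.p (nat_lit 9) (nat_lit 2) (.p (nat_lit 10) (nat_lit 2) (.n (nat_lit 11) (nat_lit 1) (.p (nat_lit 12) (nat_lit 1) (.n (nat_lit 14) (nat_lit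 3) (.p (nat_lit 15) (nat_lit 2) (.p (nat_lit 17) (nat_lit 1) (.p (nat_lit 22) (nat_lit 1) (.n (nat_lit 23) (nat_lit 1) (.p (nat_lit 26) (nat_lit 1) (.n (nat_lit 27) (nat_lit 5) (.n (nat_lit 29) (nat_lit 2) (.n (nat_lit 65) (nat_lit 2) (.n (nat_lit 66) (nat_lit 1) (.n (nat_lit 68) (nat_lit 1) (.p (nat_lit 70) (nat_lit 1) (.p (nat_lit 71) (nat_lit 2) (.p (nat_lit 73) (nat_lit 1) (.n (nat_lit 75) (nat_lit 1) (.n (nat_lit 96) (nat_lit 2) (.n (nat_lit 97) (nat_lit 1) (.n (nat_lit 98) (nat_lit 3) (.p (nat_lit 99) (nat_lit 1) (.n (nat_lit 102) (nat_lit 2) (.p (nat_lit 103) (nat_lit 4) (.n (nat_lit 105) (nat_lit 3) (.p (nat_lit 106) (nat_lit 3) (.n (nat_lit 107) (nat_lit 1) (.p (nat_lit 110) (nat_lit 3) (.n (nat_lit 111) (nat_lit 1) (.n (nat_lit 113) (nat_lit 1) (.n (nat_lit 114) (nat_lit 4) (.n (nat_lit 115) (nat_lit 2) (.n (nat_lit 116) (nat_lit 2) (.n (nat_lit 117) (nat_lit 2) (.n (nat_lit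 118) (nat_lit 2) (.p (nat_lit 120) (nat_lit 1) (.n (nat_lit 121) (nat_lit 2) (.n (nat_lit 122) (nat_lit 2) (.p (nat_lit 123) (nat_lit 1) (.p (nat_lit 124) (nat_lit 1) (.n (nat_lit 125) (nat_lit 2) (.n (nat_lit 126) (nat_lit 1) (.p (nat_lit 129) (nat_lit 2) (.p (nat_lit 130) (nat_lit 1) (.n (nat_lit 131) (nat_lit 1) .z)))))))))))))))))))))))))))))))))))))))))))))))))))) .nil)))))))))))))))))))))))))

noncomputable def dD_i23 : IL := (.s false (nat_lit 1) (nat_lit 16) (nat_lit 2) (nat_lit 3) (nat_lit 1) true (nat_lit 7) true (nat_lit 11) true (nat_lit 0) true (nat_lit 10) true (nat_lit 9) (.s true (nat_lit 1) (nat_lit 16) (nat_lit 4) (nat_lit 1) (nat_lit 1) true (nat_lit 4) true (nat_lit 11) true (nat_lit 0) true (nat_lit 8) true (nat_lit 11) (.s false (nat_lit 2) (nat_lit 22) (nat_lit 1) (nat_lit 2) (nat_lit 2) true (nat_lit 7) true (nat_lit 10) false (nat_lit 1) true (nat_lit 11)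 true (nat_lit 10) (.s true (nat_lit 2) (nat_lit 23) (nat_lit 1) (nat_lit 2) (nat_lit 2) true (nat_lit 7) true (nat_lit 10) false (nat_lit 1) true (nat_lit 11) true (nat_lit 10) (.s true (nat_lit 3) (nat_lit 25) (nat_lit 1) (nat_lit 2) (nat_lit 2) true (nat_lit 7) true (nat_lit 10) false (nat_lit 1) true (nat_lit 11) true (nat_lit 10) (.s true (nat_lit 1) (nat_lit 26) (nat_lit 1) (nat_lit 2) (nat_lit 2) true (nat_lit 7) true (nat_lit 10) false (nat_lit 1) true (nat_lit 11) true (nat_lit 10) (.s false (nat_lit 1) (nat_lit 22) (nat_lit 2) (nat_lit 1) (nat_lit 2) true (nat_lit 6) true (nat_lit 10) false (nat_lit 1) true (nat_lit 10) true (nat_lit 11) (.s true (nat_lit 1) (nat_lit 23) (nat_lit 2) (nat_lit 1) (nat_lit 2) true (nat_lit 6) true (nat_lit 10) false (nat_lit 1) true (nat_lit 10) true (nat_lit 11) (.s true (nat_lit 3) (nat_lit 25) (nat_lit 2) (nat_lit 1) (nat_lit 2) true (nat_lit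 6) true (nat_lit 10) false (nat_lit 1) true (nat_lit 10) true (nat_lit 11) (.s true (nat_lit 1) (nat_lit 26) (nat_lit 2) (nat_lit 1) (nat_lit 2) true (nat_lit 6) true (nat_lit 10) false (nat_lit 1) true (nat_lit 10) true (nat_lit 11) (.s false (nat_lit 1) (nat_lit 24) (nat_lit 2) (nat_lit 2) (nat_lit 1) true (nat_lit 7) true (nat_lit 11) false (nat_lit 1) true (nat_lit 10) true (nat_lit 10) (.s false (nat_lit 3) (nat_lit 25) (nat_lit 2) (nat_lit 2) (nat_lit 1) true (nat_lit 7) true (nat_lit 11) false (nat_lit 1) true (nat_lit 10) true (nat_lit 10) (.s false (nat_lit 2) (nat_lit 36) (nat_lit 0) (nat_lit 1) (nat_lit 1) true (nat_lit 9) true (nat_lit 11) false (nat_lit 5) true (nat_lit 12) true (nat_lit 11) (.e false (nat_lit 3) (nat_lit 20) (nat_lit 16) (nat_lit 0) (.e true (nat_lit 2) (nat_lit 38) (nat_lit 6) (nat_lit 6) (.e true (nat_lit 2) (nat_lit 46) (nat_lit 6) (nat_lit 6)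 (.e true (nat_lit 3) (nat_lit 73) (nat_lit 2) (nat_lit 10) (.e false (nat_lit 1) (nat_lit 74) (nat_lit 2) (nat_lit 10) (.e false (nat_lit 3) (nat_lit 75) (nat_lit 2) (nat_lit 10) (.e true (nat_lit 2) (nat_lit 76) (nat_lit 2) (nat_lit 10) (.e false (nat_lit 3) (nat_lit 77) (nat_lit 2) (nat_lit 10) (.e true (nat_lit 2) (nat_lit 78) (nat_lit 2) (nat_lit 10) (.e true (nat_lit 2) (nat_lit 79) (nat_lit 2) (nat_lit 10) (.e false (nat_lit 2) (nat_lit 80) (nat_lit 2) (nat_lit 10) (.e true (nat_lit 3) (nat_lit 81) (nat_lit 2) (nat_lit 10) dD_i22)))))))))))))))))))))))))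

noncomputable def dD_i24 : IL := (.e true (nat_lit 2) (nat_lit 90) (nat_lit 2) (nat_lit 10) (.e true (nat_lit 1) (nat_lit 91) (nat_lit 2) (nat_lit 10) (.e true (nat_lit 2) (nat_lit 93) (nat_lit 2) (nat_lit 10) (.e true (nat_lit 2) (nat_lit 92) (nat_lit 2) (nat_lit 10) (.e true (nat_lit 1) (nat_lit 78) (nat_lit 2) (nat_lit 10) (.e false (nat_lit 2) (nat_lit 85) (nat_lit 2) (nat_lit 10) (.e true (nat_lit 1) (nat_lit 84) (nat_lit 2) (nat_lit 10) (.e false (nat_lit 2) (nat_lit 89) (nat_lit 2) (nat_lit 10) (.e false (nat_lit 2) (nat_lit 30) (nat_lit 11) (nat_lit 3) (.e true (nat_lit 3) (nat_lit 94) (nat_lit 1) (nat_lit 11) (.e false (nat_lit 2) (nat_lit 97) (nat_lit 1) (nat_lit 11) (.e true (nat_lit 3) (nat_lit 100) (nat_lit 1) (nat_lit 11) (.e true (nat_lit 1) (nat_lit 106) (nat_lit 1) (nat_lit 11) (.e false (nat_lit 1) (nat_lit 109) (nat_lit 1) (nat_lit 11) (.e false (nat_lit 3)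 (nat_lit 86) (nat_lit 2) (nat_lit 10) (.e true (nat_lit 3) (nat_lit 21) (nat_lit 15) (nat_lit 1) (.e false (nat_lit 3) (nat_lit 21) (nat_lit 14) (nat_lit 1) (.e false (nat_lit 3) (nat_lit 71) (nat_lit 3) (nat_lit 9) (.e false (nat_lit 3) (nat_lit 114) (nat_lit 0) (nat_lit 12) (.e false (nat_lit 3) (nat_lit 36) (nat_lit 7) (nat_lit 5) (.e false (nat_lit 3) (nat_lit 17) (nat_lit 16) (nat_lit 0) (.e false (nat_lit 1) (nat_lit 35) (nat_lit 8) (nat_lit 4) (.e false (nat_lit 3) (nat_lit 33) (nat_lit 8) (nat_lit 4) (.u (nat_lit 2) (.n (nat_lit 0) (nat_lit 4) (.n (nat_lit 1) (nat_lit 4) (.p (nat_lit 3) (nat_lit 1) (.p (nat_lit 4) (nat_lit 5) (.n (nat_lit 6) (nat_lit 1) (.n (nat_lit 8) (nat_lit 3) (.n (nat_lit 11) (nat_lit 1) (.n (nat_lit 12) (nat_lit 3) (.p (nat_lit 13) (nat_lit 1) (.n (nat_lit 14) (nat_lit 3) (.n (nat_lit 15) (nat_lit 3) (.n (nat_lit 17) (nat_lit 3) (.n (nat_lit 18) (nat_lit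 2) (.p (nat_lit 20) (nat_lit 1) (.n (nat_lit 21) (nat_lit 1) (.n (nat_lit 22) (nat_lit 1) (.p (nat_lit 23) (nat_lit 1) (.n (nat_lit 24) (nat_lit 1) (.p (nat_lit 26) (nat_lit 1) (.p (nat_lit 27) (nat_lit 3) (.n (nat_lit 28) (nat_lit 1) (.p (nat_lit 29) (nat_lit 1) (.p (nat_lit 44) (nat_lit 1) (.n (nat_lit 66) (nat_lit 1) (.n (nat_lit 68) (nat_lit 1) (.n (nat_lit 69) (nat_lit 1) (.n (nat_lit 83) (nat_lit 1) (.n (nat_lit 92) (nat_lit 1) (.p (nat_lit 93) (nat_lit 1) (.p (nat_lit 94) (nat_lit 1) (.n (nat_lit 95) (nat_lit 1) (.p (nat_lit 97) (nat_lit 1) (.p (nat_lit 98) (nat_lit 5) (.n (nat_lit 99) (nat_lit 1) (.p (nat_lit 100) (nat_lit 2) (.p (nat_lit 101) (nat_lit 1) (.p (nat_lit 102) (nat_lit 4) (.n (nat_lit 103) (nat_lit 4) (.n (nat_lit 104) (nat_lit 3) (.p (nat_lit 105) (nat_lit 4) (.n (nat_lit 106) (nat_lit 2) (.p (nat_lit 107) (nat_lit 1) (.p (nat_lit 108) (nat_lit 1) (.n (nat_lit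 109) (nat_lit 2) (.n (nat_lit 110) (nat_lit 1) (.p (nat_lit 111) (nat_lit 3) (.n (nat_lit 112) (nat_lit 1) (.p (nat_lit 113) (nat_lit 1) (.p (nat_lit 114) (nat_lit 2) (.p (nat_lit 115) (nat_lit 2) (.p (nat_lit 116) (nat_lit 2) (.n (nat_lit 117) (nat_lit 3) (.n (nat_lit 118) (nat_lit 3) (.p (nat_lit 119) (nat_lit 1) (.n (nat_lit 120) (nat_lit 1) (.n (nat_lit 121) (nat_lit 1) (.n (nat_lit 122) (nat_lit 1) (.p (nat_lit 123) (nat_lit 4) (.p (nat_lit 124) (nat_lit 4) (.n (nat_lit 125) (nat_lit 1) .z)))))))))))))))))))))))))))))))))))))))))))))))))))))))))))) (.u (nat_lit 2) (.p (nat_lit 126) (nat_lit 2) (.p (nat_lit 127) (nat_lit 3) (.p (nat_lit 129) (nat_lit 1) .z))) .nil)))))))))))))))))))))))))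

noncomputable def dD_i25 : IL := (.s true (nat_lit 2) (nat_lit 29) (nat_lit 2) (nat_lit 0) (nat_lit 2) true (nat_lit 6) true (nat_lit 10) false (nat_lit 2) true (nat_lit 10) true (nat_lit 12) (.s true (nat_lit 2) (nat_lit 30) (nat_lit 1) (nat_lit 1) (nat_lit 2) true (nat_lit 7) true (nat_lit 10) false (nat_lit 3) true (nat_lit 11) true (nat_lit 11) (.s false (nat_lit 2) (nat_lit 32) (nat_lit 1) (nat_lit 1) (nat_lit 2) true (nat_lit 7) true (nat_lit 10) false (nat_lit 3) true (nat_lit 11) true (nat_lit 11) (.s true (nat_lit 2) (nat_lit 33) (nat_lit 0) (nat_lit 2) (nat_lit 1) true (nat_lit 9) true (nat_lit 11) false (nat_lit 4) true (nat_lit 12) true (nat_lit 10) (.s true (nat_lit 3) (nat_lit 33) (nat_lit 1) (nat_lit 0) (nat_lit 2) true (nat_lit 7) true (nat_lit 10) false (nat_lit 4) true (nat_lit 11) true (nat_lit 12) (.s false (nat_lit 2) (nat_lit 33) (nat_lit 1) (nat_lit 2) (nat_lit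 0) true (nat_lit 9) true (nat_lit 12) false (nat_lit 4) true (nat_lit 11) true (nat_lit 10) (.s false (nat_lit 2) (nat_lit 33) (nat_lit 2) (nat_lit 1) (nat_lit 0) true (nat_lit 8) true (nat_lit 12) false (nat_lit 4) true (nat_lit 10) true (nat_lit 11) (.s false (nat_lit 1) (nat_lit 36) (nat_lit 0) (nat_lit 1) (nat_lit 1) true (nat_lit 9) true (nat_lit 11) false (nat_lit 5) true (nat_lit 12) true (nat_lit 11) (.e true (nat_lit 3) (nat_lit 37) (nat_lit 6) (nat_lit 6) (.e false (nat_lit 3) (nat_lit 39) (nat_lit 6) (nat_lit 6) (.e false (nat_lit 1) (nat_lit 41) (nat_lit 6) (nat_lit 6) (.e true (nat_lit 1) (nat_lit 46) (nat_lit 6) (nat_lit 6) (.e false (nat_lit 3) (nat_lit 45) (nat_lit 6) (nat_lit 6) (.e true (nat_lit 1) (nat_lit 102) (nat_lit 1) (nat_lit 11) (.e false (nat_lit 3) (nat_lit 38) (nat_lit 6) (nat_lit 6) (.e true (nat_lit 3) (nat_lit 104) (nat_lit 1) (nat_lit 11) (.e true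 (nat_lit 1) (nat_lit 74) (nat_lit 2) (nat_lit 10) (.e true (nat_lit 2) (nat_lit 75) (nat_lit 2) (nat_lit 10) (.e true (nat_lit 1) (nat_lit 76) (nat_lit 2) (nat_lit 10) (.e false (nat_lit 1) (nat_lit 77) (nat_lit 2) (nat_lit 10) (.e true (nat_lit 3) (nat_lit 79) (nat_lit 2) (nat_lit 10) (.e true (nat_lit 2) (nat_lit 80) (nat_lit 2) (nat_lit 10) (.e true (nat_lit 3) (nat_lit 83) (nat_lit 2) (nat_lit 10) (.e false (nat_lit 1) (nat_lit 87) (nat_lit 2) (nat_lit 10) (.e true (nat_lit 1) (nat_lit 88) (nat_lit 2) (nat_lit 10) dD_i24)))))))))))))))))))))))))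

noncomputable def dD_i26 : IL := (.s true (nat_lit 2) (nat_lit 10) (nat_lit 1) (nat_lit 2) (nat_lit 6) true (nat_lit 1) true (nat_lit 6) true (nat_lit 4) true (nat_lit 11) true (nat_lit 10) (.s false (nat_lit 1) (nat_lit 9) (nat_lit 1) (nat_lit 6) (nat_lit 2) true (nat_lit 7) true (nat_lit 10) true (nat_lit 4) true (nat_lit 11) true (nat_lit 6) (.s false (nat_lit 2) (nat_lit 10) (nat_lit 1) (nat_lit 6) (nat_lit 2) true (nat_lit 7) true (nat_lit 10) true (nat_lit 4) true (nat_lit 11) true (nat_lit 6) (.s true (nat_lit 2) (nat_lit 9) (nat_lit 2) (nat_lit 5) (nat_lit 2) true (nat_lit 6) true (nat_lit 10) true (nat_lit 4) true (nat_lit 10) true (nat_lit 7) (.s true (nat_lit 1) (nat_lit 9) (nat_lit 2) (nat_lit 6) (nat_lit 1) true (nat_lit 7) true (nat_lit 11) true (nat_lit 4) true (nat_lit 10) true (nat_lit 6) (.s false (nat_lit 2) (nat_lit 10) (nat_lit 2) (nat_lit 6) (nat_lit 1) true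 (nat_lit 7) true (nat_lit 11) true (nat_lit 4) true (nat_lit 10) true (nat_lit 6) (.s false (nat_lit 1) (nat_lit 9) (nat_lit 6) (nat_lit 1) (nat_lit 2) true (nat_lit 0) true (nat_lit 10) true (nat_lit 4) true (nat_lit 6) true (nat_lit 11) (.s true (nat_lit 2) (nat_lit 11) (nat_lit 2) (nat_lit 4) (nat_lit 2) true (nat_lit 6) true (nat_lit 10) true (nat_lit 3) true (nat_lit 10) true (nat_lit 8) (.s false (nat_lit 2) (nat_lit 13) (nat_lit 1) (nat_lit 1) (nat_lit 6) true (nat_lit 1) true (nat_lit 6) true (nat_lit 2) true (nat_lit 11) true (nat_lit 11) (.s true (nat_lit 2) (nat_lit 14) (nat_lit 0) (nat_lit 5) (nat_lit 2) true (nat_lit 8) true (nat_lit 10) true (nat_lit 1) true (nat_lit 12) true (nat_lit 7) (.s true (nat_lit 2) (nat_lit 15) (nat_lit 1) (nat_lit 4) (nat_lit 2) true (nat_lit 7) true (nat_lit 10) true (nat_lit 1) true (nat_lit 11) true (nat_lit 8) (.s false (nat_lit 2)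 (nat_lit 15) (nat_lit 2) (nat_lit 1) (nat_lit 4) true (nat_lit 2) true (nat_lit 8) true (nat_lit 1) true (nat_lit 10) true (nat_lit 11) (.s true (nat_lit 3) (nat_lit 14) (nat_lit 2) (nat_lit 3) (nat_lit 2) true (nat_lit 6) true (nat_lit 10) true (nat_lit 1) true (nat_lit 10) true (nat_lit 9) (.s false (nat_lit 1) (nat_lit 15) (nat_lit 2) (nat_lit 3) (nat_lit 2) true (nat_lit 6) true (nat_lit 10) true (nat_lit 1) true (nat_lit 10) true (nat_lit 9) (.s true (nat_lit 2) (nat_lit 16) (nat_lit 0) (nat_lit 5) (nat_lit 1) true (nat_lit 9) true (nat_lit 11) true (nat_lit 0) true (nat_lit 12) true (nat_lit 7) (.s true (nat_lit 2) (nat_lit 16) (nat_lit 1) (nat_lit 1) (nat_lit 4) true (nat_lit 4) true (nat_lit 8) true (nat_lit 0) true (nat_lit 11) true (nat_lit 11) (.s false (nat_lit 2) (nat_lit 16) (nat_lit 1) (nat_lit 2) (nat_lit 3) true (nat_lit 5) true (nat_lit 9) true (nat_lit 0) true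 (nat_lit 11) true (nat_lit 10) (.s true (nat_lit 1) (nat_lit 16) (nat_lit 3) (nat_lit 1) (nat_lit 2) true (nat_lit 4) true (nat_lit 10) true (nat_lit 0) true (nat_lit 9) true (nat_lit 11) (.s true (nat_lit 3) (nat_lit 16) (nat_lit 4) (nat_lit 1) (nat_lit 1) true (nat_lit 4) true (nat_lit 11) true (nat_lit 0) true (nat_lit 8) true (nat_lit 11) (.s true (nat_lit 2) (nat_lit 23) (nat_lit 1) (nat_lit 2) (nat_lit 2) true (nat_lit 7) true (nat_lit 10) false (nat_lit 1) true (nat_lit 11) true (nat_lit 10) (.s false (nat_lit 3) (nat_lit 25) (nat_lit 1) (nat_lit 2) (nat_lit 2) true (nat_lit 7) true (nat_lit 10) false (nat_lit 1) true (nat_lit 11) true (nat_lit 10) (.s false (nat_lit 3) (nat_lit 25) (nat_lit 2) (nat_lit 1) (nat_lit 2) true (nat_lit 6) true (nat_lit 10) false (nat_lit 1) true (nat_lit 10) true (nat_lit 11) (.s true (nat_lit 2) (nat_lit 22) (nat_lit 2) (nat_lit 2) (nat_lit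 1) true (nat_lit 7) true (nat_lit 11) false (nat_lit 1) true (nat_lit 10) true (nat_lit 10) (.s true (nat_lit 2) (nat_lit 24) (nat_lit 2) (nat_lit 2) (nat_lit 1) true (nat_lit 7) true (nat_lit 11) false (nat_lit 1) true (nat_lit 10) true (nat_lit 10) (.s true (nat_lit 3) (nat_lit 25) (nat_lit 2) (nat_lit 2) (nat_lit 1) true (nat_lit 7) true (nat_lit 11) false (nat_lit 1) true (nat_lit 10) true (nat_lit 10) dD_i25)))))))))))))))))))))))))

noncomputable def dD_i27 : IL := (.e false (nat_lit 2) (nat_lit 81) (nat_lit 2) (nat_lit 10) (.e false (nat_lit 3) (nat_lit 83) (nat_lit 2) (nat_lit 10) (.e true (nat_lit 1) (nat_lit 87) (nat_lit 2) (nat_lit 10) (.e true (nat_lit 1) (nat_lit 88) (nat_lit 2) (nat_lit 10) (.e true (nat_lit 2) (nat_lit 90) (nat_lit 2) (nat_lit 10) (.e false (nat_lit 1) (nat_lit 93) (nat_lit 2) (nat_lit 10) (.e true (nat_lit 1) (nat_lit 19) (nat_lit 16) (nat_lit 0)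 (.e false (nat_lit 2) (nat_lit 78) (nat_lit 2) (nat_lit 10) (.e true (nat_lit 1) (nat_lit 92) (nat_lit 2) (nat_lit 10) (.e false (nat_lit 1) (nat_lit 20) (nat_lit 16) (nat_lit 0) (.e true (nat_lit 1) (nat_lit 38) (nat_lit 6) (nat_lit 6) (.e true (nat_lit 1) (nat_lit 46) (nat_lit 6) (nat_lit 6) (.e false (nat_lit 3) (nat_lit 82) (nat_lit 2) (nat_lit 10) (.e false (nat_lit 2) (nat_lit 85) (nat_lit 2) (nat_lit 10) (.e false (nat_lit 1) (nat_lit 69) (nat_lit 3) (nat_lit 9) (.e true (nat_lit 1) (nat_lit 71) (nat_lit 3) (nat_lit 9) (.e false (nat_lit 2) (nat_lit 94) (nat_lit 1) (nat_lit 11) (.e false (nat_lit 1) (nat_lit 95) (nat_lit 1) (nat_lit 11) (.e false (nat_lit 1) (nat_lit 99) (nat_lit 1) (nat_lit 11) (.e true (nat_lit 2) (nat_lit 102) (nat_lit 1) (nat_lit 11) (.e false (nat_lit 2) (nat_lit 106) (nat_lit 1) (nat_lit 11) (.e true (nat_lit 1) (nat_lit 97) (nat_lit 1) (nat_lit 11)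 (.e false (nat_lit 1) (nat_lit 36) (nat_lit 7) (nat_lit 5) (.e true (nat_lit 1) (nat_lit 96) (nat_lit 1) (nat_lit 11) (.u (nat_lit 2) (.p (nat_lit 0) (nat_lit 1) (.p (nat_lit 1) (nat_lit 1) (.p (nat_lit 2) (nat_lit 2) (.n (nat_lit 3) (nat_lit 1) (.p (nat_lit 4) (nat_lit 1) (.p (nat_lit 5) (nat_lit 1) (.p (nat_lit 6) (nat_lit 1) (.n (nat_lit 7) (nat_lit 1) (.n (nat_lit 9) (nat_lit 1) (.n (nat_lit 11) (nat_lit 2) (.p (nat_lit 18) (nat_lit 2) (.p (nat_lit 26) (nat_lit 1) (.n (nat_lit 27) (nat_lit 1) (.n (nat_lit 116) (nat_lit 1) .z)))))))))))))) .nil)))))))))))))))))))))))))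

noncomputable def dD_i28 : IL := (.e false (nat_lit 3) (nat_lit 41) (nat_lit 6) (nat_lit 6) (.e true (nat_lit 3) (nat_lit 46) (nat_lit 6) (nat_lit 6) (.e false (nat_lit 1) (nat_lit 102) (nat_lit 1) (nat_lit 11) (.e true (nat_lit 2) (nat_lit 38) (nat_lit 6) (nat_lit 6) (.e true (nat_lit 2) (nat_lit 45) (nat_lit 6) (nat_lit 6) (.e false (nat_lit 2) (nat_lit 34) (nat_lit 8) (nat_lit 4) (.e false (nat_lit 2) (nat_lit 35) (nat_lit 8) (nat_lit 4) (.e true (nat_lit 2) (nat_lit 71) (nat_lit 3) (nat_lit 9) (.e true (nat_lit 3) (nat_lit 56) (nat_lit 5) (nat_lit 7) (.e true (nat_lit 3) (nat_lit 87) (nat_lit 2) (nat_lit 10) (.e true (nat_lit 2) (nat_lit 92) (nat_lit 2) (nat_lit 10) (.e false (nat_lit 2) (nat_lit 19) (nat_lit 16) (nat_lit 0) (.e true (nat_lit 3) (nat_lit 89) (nat_lit 2) (nat_lit 10) (.e true (nat_lit 3) (nat_lit 30) (nat_lit 11) (nat_lit 3) (.e true (nat_lit 3) (nat_lit 94)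 (nat_lit 1) (nat_lit 11) (.e false (nat_lit 2) (nat_lit 95) (nat_lit 1) (nat_lit 11) (.e false (nat_lit 3) (nat_lit 109) (nat_lit 1) (nat_lit 11) (.e true (nat_lit 3) (nat_lit 100) (nat_lit 1) (nat_lit 11) (.e false (nat_lit 3) (nat_lit 36) (nat_lit 7) (nat_lit 5) (.e true (nat_lit 1) (nat_lit 17) (nat_lit 16) (nat_lit 0) (.e true (nat_lit 1) (nat_lit 106) (nat_lit 1) (nat_lit 11) (.e true (nat_lit 1) (nat_lit 18) (nat_lit 16) (nat_lit 0) (.e false (nat_lit 3) (nat_lit 33) (nat_lit 8) (nat_lit 4) (.u (nat_lit 2) (.n (nat_lit 1) (nat_lit 2) (.p (nat_lit 4) (nat_lit 2) (.p (nat_lit 5) (nat_lit 1) (.n (nat_lit 9) (nat_lit 6) (.n (nat_lit 10) (nat_lit 1) (.n (nat_lit 11) (nat_lit 3) (.n (nat_lit 13) (nat_lit 1) (.n (nat_lit 14) (nat_lit 2) (.p (nat_lit 15) (nat_lit 1) (.p (nat_lit 17) (nat_lit 1) (.p (nat_lit 18) (nat_lit 4) (.n (nat_lit 19) (nat_lit 1) (.n (nat_lit 21) (nat_lit 1)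 (.n (nat_lit 27) (nat_lit 1) (.n (nat_lit 29) (nat_lit 1) (.p (nat_lit 39) (nat_lit 1) (.p (nat_lit 62) (nat_lit 1) (.n (nat_lit 64) (nat_lit 1) (.p (nat_lit 66) (nat_lit 1) (.p (nat_lit 67) (nat_lit 1) (.n (nat_lit 70) (nat_lit 1) (.p (nat_lit 74) (nat_lit 1) (.n (nat_lit 76) (nat_lit 1) (.n (nat_lit 77) (nat_lit 1) (.p (nat_lit 80) (nat_lit 1) (.n (nat_lit 81) (nat_lit 1) (.n (nat_lit 88) (nat_lit 1) (.n (nat_lit 90) (nat_lit 1) (.p (nat_lit 91) (nat_lit 1) (.p (nat_lit 95) (nat_lit 1) (.p (nat_lit 97) (nat_lit 2) (.p (nat_lit 98) (nat_lit 1) (.n (nat_lit 99) (nat_lit 2) (.p (nat_lit 100) (nat_lit 1) (.n (nat_lit 101) (nat_lit 3) (.p (nat_lit 102) (nat_lit 4) (.n (nat_lit 103) (nat_lit 6) (.p (nat_lit 104) (nat_lit 3) (.p (nat_lit 105) (nat_lit 1) (.n (nat_lit 106) (nat_lit 3) (.n (nat_lit 107) (nat_lit 2) (.n (nat_lit 108) (nat_lit 1) (.p (nat_lit 109) (nat_lit 1) (.p (nat_lit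 110) (nat_lit 2) (.n (nat_lit 111) (nat_lit 1) (.n (nat_lit 112) (nat_lit 2) (.n (nat_lit 113) (nat_lit 5) (.n (nat_lit 114) (nat_lit 6) (.p (nat_lit 115) (nat_lit 4) (.n (nat_lit 116) (nat_lit 1) (.p (nat_lit 119) (nat_lit 1) (.n (nat_lit 120) (nat_lit 3) (.p (nat_lit 121) (nat_lit 3) (.p (nat_lit 122) (nat_lit 2) (.p (nat_lit 123) (nat_lit 1) (.p (nat_lit 124) (nat_lit 3) (.p (nat_lit 125) (nat_lit 1) (.p (nat_lit 126) (nat_lit 3) (.n (nat_lit 129) (nat_lit 1) (.p (nat_lit 131) (nat_lit 1) .z)))))))))))))))))))))))))))))))))))))))))))))))))))))))))))) (.u (nat_lit 2) (.n (nat_lit 133) (nat_lit 1) (.p (nat_lit 135) (nat_lit 1) (.p (nat_lit 136) (nat_lit 1) (.p (nat_lit 137) (nat_lit 1) (.p (nat_lit 138) (nat_lit 2) .z))))) .nil)))))))))))))))))))))))))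

noncomputable def dD_i29 : IL := (.s true (nat_lit 1) (nat_lit 34) (nat_lit 0) (nat_lit 1) (nat_lit 2) true (nat_lit 8) true (nat_lit 10) false (nat_lit 4) true (nat_lit 12) true (nat_lit 11) (.s false (nat_lit 1) (nat_lit 33) (nat_lit 0) (nat_lit 2) (nat_lit 1) true (nat_lit 9) true (nat_lit 11) false (nat_lit 4) true (nat_lit 12) true (nat_lit 10) (.s true (nat_lit 3) (nat_lit 33) (nat_lit 1) (nat_lit 0) (nat_lit 2) true (nat_lit 7) true (nat_lit 10) false (nat_lit 4) true (nat_lit 11) true (nat_lit 12) (.s true (nat_lit 3) (nat_lit 34) (nat_lit 2) (nat_lit 1) (nat_lit 0) true (nat_lit 8) true (nat_lit 12) false (nat_lit 4) true (nat_lit 10) true (nat_lit 11) (.s true (nat_lit 1) (nat_lit 36) (nat_lit 0) (nat_lit 1) (nat_lit 1) true (nat_lit 9) true (nat_lit 11) false (nat_lit 5) true (nat_lit 12) true (nat_lit 11) (.s false (nat_lit 2) (nat_lit 36) (nat_lit 1) (nat_lit 0) (nat_lit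 1) false (nat_lit 13) true (nat_lit 11) false (nat_lit 5) true (nat_lit 11) true (nat_lit 12) (.e false (nat_lit 3) (nat_lit 21) (nat_lit 14) (nat_lit 1) (.e false (nat_lit 1) (nat_lit 48) (nat_lit 5) (nat_lit 7) (.e false (nat_lit 3) (nat_lit 73) (nat_lit 2) (nat_lit 10) (.e false (nat_lit 3) (nat_lit 74) (nat_lit 2) (nat_lit 10) (.e true (nat_lit 2) (nat_lit 76) (nat_lit 2) (nat_lit 10) (.e false (nat_lit 1) (nat_lit 77) (nat_lit 2) (nat_lit 10) (.e false (nat_lit 1) (nat_lit 78) (nat_lit 2) (nat_lit 10) (.e true (nat_lit 3) (nat_lit 79) (nat_lit 2) (nat_lit 10) (.e true (nat_lit 2) (nat_lit 82) (nat_lit 2) (nat_lit 10) (.e true (nat_lit 1) (nat_lit 83) (nat_lit 2) (nat_lit 10) (.e false (nat_lit 1) (nat_lit 90) (nat_lit 2) (nat_lit 10) (.e true (nat_lit 2) (nat_lit 91) (nat_lit 2) (nat_lit 10) (.e false (nat_lit 2) (nat_lit 93) (nat_lit 2) (nat_lit 10) (.e true (nat_lit 2) (nat_lit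 75) (nat_lit 2) (nat_lit 10) (.e true (nat_lit 1) (nat_lit 86) (nat_lit 2) (nat_lit 10) (.e true (nat_lit 1) (nat_lit 81) (nat_lit 2) (nat_lit 10) (.e true (nat_lit 3) (nat_lit 84) (nat_lit 2) (nat_lit 10) (.e true (nat_lit 3) (nat_lit 37) (nat_lit 6) (nat_lit 6) (.e true (nat_lit 2) (nat_lit 39) (nat_lit 6) (nat_lit 6) dD_i28)))))))))))))))))))))))))

noncomputable def dD_i30 : IL := (.s false (nat_lit 3) (nat_lit 11) (nat_lit 2) (nat_lit 4) (nat_lit 2) true (nat_lit 6) true (nat_lit 10) true (nat_lit 3) true (nat_lit 10) true (nat_lit 8) (.s false (nat_lit 1) (nat_lit 12) (nat_lit 1) (nat_lit 1) (nat_lit 6) true (nat_lit 1) true (nat_lit 6) true (nat_lit 2) true (nat_lit 11) true (nat_lit 11) (.s false (nat_lit 1) (nat_lit 14) (nat_lit 0) (nat_lit 5) (nat_lit 2) true (nat_lit 8) true (nat_lit 10) true (nat_lit 1) true (nat_lit 12) true (nat_lit 7) (.s true (nat_lit 2) (nat_lit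 15) (nat_lit 1) (nat_lit 4) (nat_lit 2) true (nat_lit 7) true (nat_lit 10) true (nat_lit 1) true (nat_lit 11) true (nat_lit 8) (.s true (nat_lit 1) (nat_lit 14) (nat_lit 2) (nat_lit 3) (nat_lit 2) true (nat_lit 6) true (nat_lit 10) true (nat_lit 1) true (nat_lit 10) true (nat_lit 9) (.s false (nat_lit 2) (nat_lit 14) (nat_lit 2) (nat_lit 5) (nat_lit 0) true (nat_lit 8) true (nat_lit 12) true (nat_lit 1) true (nat_lit 10) true (nat_lit 7) (.s false (nat_lit 2) (nat_lit 14) (nat_lit 4) (nat_lit 2) (nat_lit 1) true (nat_lit 4) true (nat_lit 11) true (nat_lit 1) true (nat_lit 8) true (nat_lit 10) (.s true (nat_lit 1) (nat_lit 16) (nat_lit 1) (nat_lit 2) (nat_lit 3) true (nat_lit 5) true (nat_lit 9) true (nat_lit 0) true (nat_lit 11) true (nat_lit 10) (.s false (nat_lit 1) (nat_lit 16) (nat_lit 3) (nat_lit 1) (nat_lit 2) true (nat_lit 4) true (nat_lit 10) true (nat_lit 0) true (nat_lit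 9) true (nat_lit 11) (.s true (nat_lit 1) (nat_lit 16) (nat_lit 5) (nat_lit 1) (nat_lit 0) true (nat_lit 4) true (nat_lit 12) true (nat_lit 0) true (nat_lit 7) true (nat_lit 11) (.s true (nat_lit 1) (nat_lit 22) (nat_lit 1) (nat_lit 2) (nat_lit 2) true (nat_lit 7) true (nat_lit 10) false (nat_lit 1) true (nat_lit 11) true (nat_lit 10) (.s true (nat_lit 2) (nat_lit 23) (nat_lit 1) (nat_lit 2) (nat_lit 2) true (nat_lit 7) true (nat_lit 10) false (nat_lit 1) true (nat_lit 11) true (nat_lit 10) (.s false (nat_lit 2) (nat_lit 25) (nat_lit 1) (nat_lit 2) (nat_lit 2) true (nat_lit 7) true (nat_lit 10) false (nat_lit 1) true (nat_lit 11) true (nat_lit 10) (.s false (nat_lit 2) (nat_lit 26) (nat_lit 1) (nat_lit 2) (nat_lit 2) true (nat_lit 7) true (nat_lit 10) false (nat_lit 1) true (nat_lit 11) true (nat_lit 10) (.s false (nat_lit 3) (nat_lit 22) (nat_lit 2) (nat_lit 1) (nat_lit 2) true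 (nat_lit 6) true (nat_lit 10) false (nat_lit 1) true (nat_lit 10) true (nat_lit 11) (.s false (nat_lit 2) (nat_lit 24) (nat_lit 2) (nat_lit 1) (nat_lit 2) true (nat_lit 6) true (nat_lit 10) false (nat_lit 1) true (nat_lit 10) true (nat_lit 11) (.s true (nat_lit 1) (nat_lit 26) (nat_lit 2) (nat_lit 1) (nat_lit 2) true (nat_lit 6) true (nat_lit 10) false (nat_lit 1) true (nat_lit 10) true (nat_lit 11) (.s false (nat_lit 2) (nat_lit 22) (nat_lit 2) (nat_lit 2) (nat_lit 1) true (nat_lit 7) true (nat_lit 11) false (nat_lit 1) true (nat_lit 10) true (nat_lit 10) (.s false (nat_lit 2) (nat_lit 23) (nat_lit 2) (nat_lit 2) (nat_lit 1) true (nat_lit 7) true (nat_lit 11) false (nat_lit 1) true (nat_lit 10) true (nat_lit 10) (.s false (nat_lit 1) (nat_lit 24) (nat_lit 2) (nat_lit 2) (nat_lit 1) true (nat_lit 7) true (nat_lit 11) false (nat_lit 1) true (nat_lit 10) true (nat_lit 10) (.s false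 (nat_lit 3) (nat_lit 27) (nat_lit 2) (nat_lit 0) (nat_lit 2) true (nat_lit 6) true (nat_lit 10) false (nat_lit 2) true (nat_lit 10) true (nat_lit 12) (.s true (nat_lit 3) (nat_lit 32) (nat_lit 1) (nat_lit 1) (nat_lit 2) true (nat_lit 7) true (nat_lit 10) false (nat_lit 3) true (nat_lit 11) true (nat_lit 11) (.s true (nat_lit 1) (nat_lit 31) (nat_lit 1) (nat_lit 2) (nat_lit 1) false (nat_lit 13) true (nat_lit 11) false (nat_lit 3) true (nat_lit 11) true (nat_lit 10) (.s true (nat_lit 3) (nat_lit 32) (nat_lit 1) (nat_lit 2) (nat_lit 1) false (nat_lit 13) true (nat_lit 11) false (nat_lit 3) true (nat_lit 11) true (nat_lit 10) (.s false (nat_lit 2) (nat_lit 31) (nat_lit 2) (nat_lit 1) (nat_lit 1) true (nat_lit 7) true (nat_lit 11) false (nat_lit 3) true (nat_lit 10) true (nat_lit 11) dD_i29)))))))))))))))))))))))))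

noncomputable def dD_i31 : IL := (.e true (nat_lit 1) (nat_lit 84) (nat_lit 2) (nat_lit 10) (.e true (nat_lit 2) (nat_lit 85) (nat_lit 2) (nat_lit 10) (.e false (nat_lit 3) (nat_lit 37) (nat_lit 6) (nat_lit 6) (.e true (nat_lit 3) (nat_lit 41) (nat_lit 6) (nat_lit 6) (.e false (nat_lit 3) (nat_lit 39) (nat_lit 6) (nat_lit 6) (.e false (nat_lit 2) (nat_lit 94) (nat_lit 1) (nat_lit 11) (.e true (nat_lit 1) (nat_lit 97) (nat_lit 1) (nat_lit 11) (.e true (nat_lit 3) (nat_lit 98) (nat_lit 1) (nat_lit 11) (.e true (nat_lit 3) (nat_lit 100) (nat_lit 1) (nat_lit 11) (.e true (nat_lit 1) (nat_lit 101) (nat_lit 1) (nat_lit 11) (.e true (nat_lit 2) (nat_lit 109) (nat_lit 1) (nat_lit 11) (.e true (nat_lit 3) (nat_lit 21) (nat_lit 14) (nat_lit 1) (.e false (nat_lit 3) (nat_lit 35) (nat_lit 8) (nat_lit 4) (.e false (nat_lit 3) (nat_lit 69) (nat_lit 3) (nat_lit 9) (.e true (nat_lit 3) (nat_lit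 71) (nat_lit 3) (nat_lit 9) (.e true (nat_lit 3) (nat_lit 17) (nat_lit 16) (nat_lit 0) (.e true (nat_lit 1) (nat_lit 19) (nat_lit 16) (nat_lit 0) (.e false (nat_lit 3) (nat_lit 56) (nat_lit 5) (nat_lit 7) (.e false (nat_lit 3) (nat_lit 106) (nat_lit 1) (nat_lit 11) (.e false (nat_lit 3) (nat_lit 18) (nat_lit 16) (nat_lit 0) (.e true (nat_lit 3) (nat_lit 70) (nat_lit 3) (nat_lit 9) (.e false (nat_lit 3) (nat_lit 40) (nat_lit 6) (nat_lit 6) (.e true (nat_lit 3) (nat_lit 33) (nat_lit 8) (nat_lit 4) (.e true (nat_lit 3) (nat_lit 114) (nat_lit 0) (nat_lit 12) (.u (nat_lit 2) (.p (nat_lit 0) (nat_lit 5) (.p (nat_lit 1) (nat_lit 3) (.n (nat_lit 2) (nat_lit 1) (.p (nat_lit 3) (nat_lit 2) (.p (nat_lit 4) (nat_lit 1) (.p (nat_lit 5) (nat_lit 1) (.p (nat_lit 6) (nat_lit 2) (.n (nat_lit 7) (nat_lit 2) (.p (nat_lit 9) (nat_lit 1) (.n (nat_lit 10) (nat_lit 2) (.n (nat_lit 11) (nat_lit 3) (.p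 (nat_lit 14) (nat_lit 4) (.p (nat_lit 15) (nat_lit 1) (.n (nat_lit 17) (nat_lit 1) (.p (nat_lit 18) (nat_lit 2) (.p (nat_lit 20) (nat_lit 3) (.p (nat_lit 21) (nat_lit 2) (.n (nat_lit 22) (nat_lit 1) (.n (nat_lit 23) (nat_lit 2) (.n (nat_lit 26) (nat_lit 1) (.n (nat_lit 27) (nat_lit 1) (.p (nat_lit 28) (nat_lit 1) (.p (nat_lit 29) (nat_lit 1) (.p (nat_lit 32) (nat_lit 1) (.n (nat_lit 66) (nat_lit 1) (.n (nat_lit 74) (nat_lit 1) (.p (nat_lit 78) (nat_lit 1) (.p (nat_lit 82) (nat_lit 1) (.n (nat_lit 96) (nat_lit 1) (.n (nat_lit 97) (nat_lit 2) (.p (nat_lit 98) (nat_lit 5) (.n (nat_lit 99) (nat_lit 2) (.n (nat_lit 100) (nat_lit 6) (.n (nat_lit 101) (nat_lit 1) (.p (nat_lit 102) (nat_lit 4) (.n (nat_lit 103) (nat_lit 8) (.n (nat_lit 104) (nat_lit 3) (.p (nat_lit 105) (nat_lit 2) (.n (nat_lit 107) (nat_lit 7) (.n (nat_lit 108) (nat_lit 1) (.n (nat_lit 109) (nat_lit 1) (.p (nat_lit 110)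 (nat_lit 1) (.n (nat_lit 111) (nat_lit 4) (.n (nat_lit 112) (nat_lit 1) (.p (nat_lit 113) (nat_lit 6) (.n (nat_lit 114) (nat_lit 11) (.p (nat_lit 115) (nat_lit 2) (.p (nat_lit 116) (nat_lit 3) (.p (nat_lit 117) (nat_lit 4) (.p (nat_lit 118) (nat_lit 6) (.p (nat_lit 119) (nat_lit 1) (.p (nat_lit 120) (nat_lit 1) (.p (nat_lit 122) (nat_lit 3) (.p (nat_lit 124) (nat_lit 1) (.n (nat_lit 127) (nat_lit 1) .z))))))))))))))))))))))))))))))))))))))))))))))))))))))) .nil)))))))))))))))))))))))))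

noncomputable def dD_i32 : IL := (.s true (nat_lit 3) (nat_lit 26) (nat_lit 2) (nat_lit 1) (nat_lit 2) true (nat_lit 6) true (nat_lit 10) false (nat_lit 1) true (nat_lit 10) true (nat_lit 11) (.s false (nat_lit 3) (nat_lit 22) (nat_lit 2) (nat_lit 2) (nat_lit 1) true (nat_lit 7) true (nat_lit 11) false (nat_lit 1) true (nat_lit 10) true (nat_lit 10) (.s true (nat_lit 3) (nat_lit 28) (nat_lit 2) (nat_lit 0) (nat_lit 2) true (nat_lit 6) true (nat_lit 10) false (nat_lit 2) true (nat_lit 10) true (nat_lit 12) (.s false (nat_lit 3) (nat_lit 28) (nat_lit 2) (nat_lit 2) (nat_lit 0) true (nat_lit 8) true (nat_lit 12) false (nat_lit 2) true (nat_lit 10) true (nat_lit 10) (.s false (nat_lit 1) (nat_lit 30) (nat_lit 1) (nat_lit 1) (nat_lit 2) true (nat_lit 7) true (nat_lit 10) false (nat_lit 3) true (nat_lit 11) true (nat_lit 11) (.s true (nat_lit 3) (nat_lit 31) (nat_lit 1) (nat_lit 2)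 (nat_lit 1) false (nat_lit 13) true (nat_lit 11) false (nat_lit 3) true (nat_lit 11) true (nat_lit 10) (.s false (nat_lit 3) (nat_lit 33) (nat_lit 1) (nat_lit 0) (nat_lit 2) true (nat_lit 7) true (nat_lit 10) false (nat_lit 4) true (nat_lit 11) true (nat_lit 12) (.e true (nat_lit 2) (nat_lit 20) (nat_lit 16) (nat_lit 0) (.e false (nat_lit 1) (nat_lit 38) (nat_lit 6) (nat_lit 6) (.e false (nat_lit 1) (nat_lit 46) (nat_lit 6) (nat_lit 6) (.e true (nat_lit 3) (nat_lit 73) (nat_lit 2) (nat_lit 10) (.e false (nat_lit 1) (nat_lit 74) (nat_lit 2) (nat_lit 10) (.e true (nat_lit 3) (nat_lit 75) (nat_lit 2) (nat_lit 10) (.e true (nat_lit 2) (nat_lit 76) (nat_lit 2) (nat_lit 10) (.e true (nat_lit 3) (nat_lit 77) (nat_lit 2) (nat_lit 10) (.e true (nat_lit 1) (nat_lit 78) (nat_lit 2) (nat_lit 10) (.e true (nat_lit 1) (nat_lit 79) (nat_lit 2) (nat_lit 10) (.e false (nat_lit 1) (nat_lit 80) (nat_lit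 2) (nat_lit 10) (.e false (nat_lit 3) (nat_lit 83) (nat_lit 2) (nat_lit 10) (.e false (nat_lit 2) (nat_lit 87) (nat_lit 2) (nat_lit 10) (.e false (nat_lit 1) (nat_lit 88) (nat_lit 2) (nat_lit 10) (.e true (nat_lit 3) (nat_lit 91) (nat_lit 2) (nat_lit 10) (.e true (nat_lit 3) (nat_lit 92) (nat_lit 2) (nat_lit 10) (.e false (nat_lit 3) (nat_lit 93) (nat_lit 2) (nat_lit 10) (.e true (nat_lit 3) (nat_lit 104) (nat_lit 1) (nat_lit 11) dD_i31)))))))))))))))))))))))))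

noncomputable def dD_i33 : IL := (.s true (nat_lit 2) (nat_lit 36) (nat_lit 2) (nat_lit 1) (nat_lit 0) true (nat_lit 6) true (nat_lit 10) false (nat_lit 3) true (nat_lit 8) true (nat_lit 9) (.e true (nat_lit 2) (nat_lit 22) (nat_lit 16) (nat_lit 0) (.e false (nat_lit 2) (nat_lit 49) (nat_lit 6) (nat_lit 4) (.e true (nat_lit 2) (nat_lit 58) (nat_lit 6) (nat_lit 4) (.e false (nat_lit 3) (nat_lit 94) (nat_lit 2) (nat_lit 8) (.e true (nat_lit 2) (nat_lit 95) (nat_lit 2) (nat_lit 8) (.e true (nat_lit 2) (nat_lit 97) (nat_lit 2) (nat_lit 8) (.e true (nat_lit 3) (nat_lit 98) (nat_lit 2) (nat_lit 8) (.e true (nat_lit 3) (nat_lit 100) (nat_lit 2) (nat_lit 8) (.e true (nat_lit 2) (nat_lit 101) (nat_lit 2) (nat_lit 8) (.e true (nat_lit 3) (nat_lit 102) (nat_lit 2) (nat_lit 8) (.e false (nat_lit 3) (nat_lit 103) (nat_lit 2) (nat_lit 8) (.e true (nat_lit 2) (nat_lit 104) (nat_lit 2) (nat_lit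 8) (.e false (nat_lit 1) (nat_lit 105) (nat_lit 2) (nat_lit 8) (.e true (nat_lit 2) (nat_lit 107) (nat_lit 2) (nat_lit 8) (.e false (nat_lit 2) (nat_lit 96) (nat_lit 2) (nat_lit 8) (.e false (nat_lit 3) (nat_lit 106) (nat_lit 2) (nat_lit 8) (.e false (nat_lit 3) (nat_lit 99) (nat_lit 2) (nat_lit 8) (.e true (nat_lit 1) (nat_lit 108) (nat_lit 2) (nat_lit 8) (.e true (nat_lit 3) (nat_lit 57) (nat_lit 6) (nat_lit 4) (.e false (nat_lit 2) (nat_lit 23) (nat_lit 16) (nat_lit 0) (.e false (nat_lit 1) (nat_lit 36) (nat_lit 10) (nat_lit 3) (.e true (nat_lit 3) (nat_lit 50) (nat_lit 6) (nat_lit 4) (.e false (nat_lit 2) (nat_lit 56) (nat_lit 6) (nat_lit 4) (.u (nat_lit 2) (.p (nat_lit 8) (nat_lit 1) (.n (nat_lit 12) (nat_lit 1) (.n (nat_lit 13) (nat_lit 1) (.p (nat_lit 19) (nat_lit 1) (.p (nat_lit 20) (nat_lit 1) (.n (nat_lit 21) (nat_lit 1) (.n (nat_lit 23) (nat_lit 1) (.p (nat_lit 24) (nat_lit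 1) (.p (nat_lit 26) (nat_lit 1) (.p (nat_lit 27) (nat_lit 1) (.p (nat_lit 40) (nat_lit 1) (.p (nat_lit 41) (nat_lit 1) (.p (nat_lit 42) (nat_lit 1) (.n (nat_lit 44) (nat_lit 1) (.p (nat_lit 45) (nat_lit 1) (.n (nat_lit 52) (nat_lit 1) (.n (nat_lit 53) (nat_lit 2) (.n (nat_lit 57) (nat_lit 1) (.n (nat_lit 60) (nat_lit 3) (.p (nat_lit 61) (nat_lit 1) (.p (nat_lit 62) (nat_lit 3) (.p (nat_lit 63) (nat_lit 8) (.p (nat_lit 64) (nat_lit 4) (.p (nat_lit 65) (nat_lit 3) (.p (nat_lit 66) (nat_lit 7) (.p (nat_lit 67) (nat_lit 5) (.p (nat_lit 68) (nat_lit 3) (.p (nat_lit 70) (nat_lit 4) (.n (nat_lit 71) (nat_lit 2) (.n (nat_lit 72) (nat_lit 1) (.n (nat_lit 73) (nat_lit 2) (.p (nat_lit 74) (nat_lit 1) (.n (nat_lit 78) (nat_lit 1) (.n (nat_lit 83) (nat_lit 1) .z)))))))))))))))))))))))))))))))))) .nil)))))))))))))))))))))))))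

noncomputable def dD_i34 : IL := (.e true (nat_lit 1) (nat_lit 39) (nat_lit 6) (nat_lit 6) (.e false (nat_lit 1) (nat_lit 40) (nat_lit 6) (nat_lit 6) (.e true (nat_lit 1) (nat_lit 41) (nat_lit 6) (nat_lit 6) (.e false (nat_lit 2) (nat_lit 43) (nat_lit 6) (nat_lit 6) (.e true (nat_lit 1) (nat_lit 44) (nat_lit 6) (nat_lit 6) (.e false (nat_lit 1) (nat_lit 45) (nat_lit 6) (nat_lit 6) (.e true (nat_lit 1) (nat_lit 46) (nat_lit 6) (nat_lit 6) (.e true (nat_lit 2) (nat_lit 47) (nat_lit 6) (nat_lit 6) (.e true (nat_lit 2) (nat_lit 73) (nat_lit 2) (nat_lit 10) (.e true (nat_lit 2) (nat_lit 74) (nat_lit 2) (nat_lit 10) (.e true (nat_lit 2) (nat_lit 75) (nat_lit 2) (nat_lit 10) (.e false (nat_lit 2) (nat_lit 76) (nat_lit 2) (nat_lit 10) (.e true (nat_lit 2) (nat_lit 77) (nat_lit 2) (nat_lit 10) (.e true (nat_lit 2) (nat_lit 79) (nat_lit 2) (nat_lit 10) (.e false (nat_lit 1) (nat_lit 80)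 (nat_lit 2) (nat_lit 10) (.e true (nat_lit 1) (nat_lit 81) (nat_lit 2) (nat_lit 10) (.e false (nat_lit 2) (nat_lit 83) (nat_lit 2) (nat_lit 10) (.e false (nat_lit 1) (nat_lit 84) (nat_lit 2) (nat_lit 10) (.e true (nat_lit 1) (nat_lit 85) (nat_lit 2) (nat_lit 10) (.e true (nat_lit 3) (nat_lit 88) (nat_lit 2) (nat_lit 10) (.e false (nat_lit 1) (nat_lit 93) (nat_lit 2) (nat_lit 10) (.e false (nat_lit 1) (nat_lit 28) (nat_lit 12) (nat_lit 2) (.e true (nat_lit 1) (nat_lit 82) (nat_lit 2) (nat_lit 10) (.e false (nat_lit 2) (nat_lit 87) (nat_lit 2) (nat_lit 10) (.u (nat_lit 2) (.p (nat_lit 0) (nat_lit 1) (.p (nat_lit 3) (nat_lit 1) (.n (nat_lit 5) (nat_lit 1) (.p (nat_lit 8) (nat_lit 1) (.n (nat_lit 9) (nat_lit 1) (.n (nat_lit 10) (nat_lit 1) (.p (nat_lit 11) (nat_lit 2) (.n (nat_lit 12) (nat_lit 1) (.n (nat_lit 15) (nat_lit 1) (.n (nat_lit 17) (nat_lit 1) (.p (nat_lit 19) (nat_lit 1)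 (.p (nat_lit 20) (nat_lit 1) (.p (nat_lit 26) (nat_lit 2) (.p (nat_lit 27) (nat_lit 1) (.n (nat_lit 28) (nat_lit 1) (.p (nat_lit 98) (nat_lit 1) (.p (nat_lit 102) (nat_lit 1) (.n (nat_lit 107) (nat_lit 1) .z)))))))))))))))))) .nil)))))))))))))))))))))))))

noncomputable def dD_i35 : IL := (.s true (nat_lit 1) (nat_lit 29) (nat_lit 2) (nat_lit 0) (nat_lit 2) true (nat_lit 6) true (nat_lit 10) false (nat_lit 2) true (nat_lit 10) true (nat_lit 12) (.e true (nat_lit 2) (nat_lit 37) (nat_lit 6) (nat_lit 6) (.e true (nat_lit 3) (nat_lit 38) (nat_lit 6) (nat_lit 6) (.e true (nat_lit 1) (nat_lit 40) (nat_lit 6) (nat_lit 6) (.e true (nat_lit 2) (nat_lit 41) (nat_lit 6) (nat_lit 6) (.e false (nat_lit 1) (nat_lit 42) (nat_lit 6) (nat_lit 6) (.e false (nat_lit 2) (nat_lit 43) (nat_lit 6) (nat_lit 6) (.e false (nat_lit 2) (nat_lit 45) (nat_lit 6) (nat_lit 6) (.e true (nat_lit 2) (nat_lit 46)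 (nat_lit 6) (nat_lit 6) (.e true (nat_lit 1) (nat_lit 47) (nat_lit 6) (nat_lit 6) (.e false (nat_lit 3) (nat_lit 73) (nat_lit 2) (nat_lit 10) (.e false (nat_lit 3) (nat_lit 76) (nat_lit 2) (nat_lit 10) (.e false (nat_lit 3) (nat_lit 77) (nat_lit 2) (nat_lit 10) (.e false (nat_lit 2) (nat_lit 79) (nat_lit 2) (nat_lit 10) (.e false (nat_lit 3) (nat_lit 80) (nat_lit 2) (nat_lit 10) (.e false (nat_lit 1) (nat_lit 81) (nat_lit 2) (nat_lit 10) (.e true (nat_lit 2) (nat_lit 82) (nat_lit 2) (nat_lit 10) (.e true (nat_lit 2) (nat_lit 83) (nat_lit 2) (nat_lit 10) (.e true (nat_lit 2) (nat_lit 87) (nat_lit 2) (nat_lit 10) (.e false (nat_lit 2) (nat_lit 93) (nat_lit 2) (nat_lit 10) (.e false (nat_lit 1) (nat_lit 29) (nat_lit 12) (nat_lit 2) (.e false (nat_lit 1) (nat_lit 78) (nat_lit 2) (nat_lit 10) (.e false (nat_lit 2) (nat_lit 91) (nat_lit 2) (nat_lit 10) (.e true (nat_lit 2) (nat_lit 92)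 (nat_lit 2) (nat_lit 10) (.u (nat_lit 2) (.p (nat_lit 0) (nat_lit 1) (.n (nat_lit 2) (nat_lit 1) (.p (nat_lit 3) (nat_lit 2) (.p (nat_lit 4) (nat_lit 1) (.p (nat_lit 6) (nat_lit 1) (.p (nat_lit 8) (nat_lit 1) (.n (nat_lit 9) (nat_lit 3) (.n (nat_lit 10) (nat_lit 1) (.p (nat_lit 11) (nat_lit 1) (.n (nat_lit 14) (nat_lit 1) (.n (nat_lit 17) (nat_lit 1) (.p (nat_lit 20) (nat_lit 2) (.n (nat_lit 96) (nat_lit 1) (.n (nat_lit 100) (nat_lit 1) (.p (nat_lit 105) (nat_lit 1) (.p (nat_lit 110) (nat_lit 1) .z)))))))))))))))) .nil)))))))))))))))))))))))))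

noncomputable def dD_i36 : IL := (.e true (nat_lit 2) (nat_lit 80) (nat_lit 2) (nat_lit 10) (.e false (nat_lit 2) (nat_lit 81) (nat_lit 2) (nat_lit 10) (.e true (nat_lit 1) (nat_lit 82) (nat_lit 2) (nat_lit 10) (.e false (nat_lit 3) (nat_lit 84) (nat_lit 2) (nat_lit 10) (.e true (nat_lit 2) (nat_lit 85) (nat_lit 2) (nat_lit 10) (.e false (nat_lit 1) (nat_lit 86) (nat_lit 2) (nat_lit 10) (.e false (nat_lit 1) (nat_lit 87) (nat_lit 2) (nat_lit 10) (.e false (nat_lit 3) (nat_lit 90) (nat_lit 2) (nat_lit 10) (.e true (nat_lit 1) (nat_lit 91) (nat_lit 2) (nat_lit 10) (.e false (nat_lit 1) (nat_lit 92) (nat_lit 2) (nat_lit 10) (.e false (nat_lit 1) (nat_lit 93) (nat_lit 2) (nat_lit 10) (.e true (nat_lit 1) (nat_lit 97) (nat_lit 1) (nat_lit 11) (.e true (nat_lit 2) (nat_lit 100) (nat_lit 1) (nat_lit 11) (.e true (nat_lit 1) (nat_lit 101) (nat_lit 1) (nat_lit 11) (.e false (nat_lit 1)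 (nat_lit 102) (nat_lit 1) (nat_lit 11) (.e false (nat_lit 2) (nat_lit 103) (nat_lit 1) (nat_lit 11) (.e false (nat_lit 3) (nat_lit 104) (nat_lit 1) (nat_lit 11) (.e true (nat_lit 1) (nat_lit 105) (nat_lit 1) (nat_lit 11) (.e false (nat_lit 1) (nat_lit 68) (nat_lit 3) (nat_lit 9) (.e true (nat_lit 2) (nat_lit 99) (nat_lit 1) (nat_lit 11) (.e true (nat_lit 1) (nat_lit 109) (nat_lit 1) (nat_lit 11) (.e false (nat_lit 2) (nat_lit 77) (nat_lit 2) (nat_lit 10) (.e true (nat_lit 3) (nat_lit 83) (nat_lit 2) (nat_lit 10) (.e true (nat_lit 1) (nat_lit 114) (nat_lit 0) (nat_lit 12) (.u (nat_lit 2) (.p (nat_lit 0) (nat_lit 2) (.p (nat_lit 1) (nat_lit 2) (.n (nat_lit 2) (nat_lit 2) (.n (nat_lit 3) (nat_lit 2) (.n (nat_lit 4) (nat_lit 2) (.n (nat_lit 5) (nat_lit 3) (.n (nat_lit 6) (nat_lit 2) (.p (nat_lit 7) (nat_lit 2) (.p (nat_lit 8) (nat_lit 2) (.p (nat_lit 9) (nat_lit 2) (.p (nat_lit 10)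 (nat_lit 1) (.n (nat_lit 11) (nat_lit 3) (.p (nat_lit 12) (nat_lit 2) (.p (nat_lit 14) (nat_lit 1) (.p (nat_lit 15) (nat_lit 1) (.p (nat_lit 17) (nat_lit 3) (.n (nat_lit 20) (nat_lit 1) (.p (nat_lit 21) (nat_lit 1) (.p (nat_lit 22) (nat_lit 1) (.n (nat_lit 23) (nat_lit 1) (.n (nat_lit 27) (nat_lit 2) (.n (nat_lit 29) (nat_lit 1) (.p (nat_lit 96) (nat_lit 1) (.p (nat_lit 97) (nat_lit 1) (.n (nat_lit 102) (nat_lit 1) (.p (nat_lit 103) (nat_lit 1) (.n (nat_lit 113) (nat_lit 1) (.p (nat_lit 114) (nat_lit 1) (.p (nat_lit 120) (nat_lit 1) (.n (nat_lit 126) (nat_lit 1) (.n (nat_lit 127) (nat_lit 1) .z))))))))))))))))))))))))))))))) .nil)))))))))))))))))))))))))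

noncomputable def dD_i37 : IL := (.e true (nat_lit 1) (nat_lit 75) (nat_lit 2) (nat_lit 10) (.e false (nat_lit 1) (nat_lit 81) (nat_lit 2) (nat_lit 10) (.e true (nat_lit 3) (nat_lit 84) (nat_lit 2) (nat_lit 10) (.e false (nat_lit 3) (nat_lit 85) (nat_lit 2) (nat_lit 10) (.e false (nat_lit 3) (nat_lit 37) (nat_lit 6) (nat_lit 6) (.e false (nat_lit 1) (nat_lit 39) (nat_lit 6) (nat_lit 6) (.e true (nat_lit 1) (nat_lit 41) (nat_lit 6) (nat_lit 6) (.e true (nat_lit 2) (nat_lit 46) (nat_lit 6) (nat_lit 6) (.e false (nat_lit 3) (nat_lit 45) (nat_lit 6) (nat_lit 6) (.e false (nat_lit 2) (nat_lit 102) (nat_lit 1) (nat_lit 11) (.e false (nat_lit 3) (nat_lit 38) (nat_lit 6) (nat_lit 6) (.e true (nat_lit 2) (nat_lit 104) (nat_lit 1) (nat_lit 11) (.e true (nat_lit 1) (nat_lit 87) (nat_lit 2) (nat_lit 10) (.e false (nat_lit 3) (nat_lit 92) (nat_lit 2) (nat_lit 10) (.e false (nat_lit 3) (nat_lit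 19) (nat_lit 16) (nat_lit 0) (.e false (nat_lit 2) (nat_lit 94) (nat_lit 1) (nat_lit 11) (.e true (nat_lit 3) (nat_lit 95) (nat_lit 1) (nat_lit 11) (.e false (nat_lit 2) (nat_lit 97) (nat_lit 1) (nat_lit 11) (.e true (nat_lit 1) (nat_lit 109) (nat_lit 1) (nat_lit 11) (.e true (nat_lit 1) (nat_lit 100) (nat_lit 1) (nat_lit 11) (.e true (nat_lit 3) (nat_lit 106) (nat_lit 1) (nat_lit 11) (.e false (nat_lit 2) (nat_lit 35) (nat_lit 8) (nat_lit 4) (.e false (nat_lit 2) (nat_lit 17) (nat_lit 16) (nat_lit 0) (.e true (nat_lit 2) (nat_lit 71) (nat_lit 3) (nat_lit 9) (.u (nat_lit 2) (.p (nat_lit 0) (nat_lit 1) (.p (nat_lit 1) (nat_lit 1) (.p (nat_lit 3) (nat_lit 1) (.n (nat_lit 4) (nat_lit 1) (.p (nat_lit 5) (nat_lit 1) (.n (nat_lit 8) (nat_lit 1) (.n (nat_lit 10) (nat_lit 1) (.n (nat_lit 11) (nat_lit 1) (.p (nat_lit 17) (nat_lit 1) (.n (nat_lit 18) (nat_lit 1) (.p (nat_lit 20) (nat_lit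 1) (.n (nat_lit 22) (nat_lit 1) (.p (nat_lit 26) (nat_lit 1) (.p (nat_lit 27) (nat_lit 1) (.p (nat_lit 28) (nat_lit 1) (.p (nat_lit 35) (nat_lit 1) (.p (nat_lit 38) (nat_lit 1) (.n (nat_lit 65) (nat_lit 1) (.n (nat_lit 66) (nat_lit 1) (.p (nat_lit 70) (nat_lit 1) (.n (nat_lit 75) (nat_lit 1) (.p (nat_lit 77) (nat_lit 1) (.n (nat_lit 85) (nat_lit 1) (.p (nat_lit 97) (nat_lit 1) (.n (nat_lit 98) (nat_lit 2) (.p (nat_lit 101) (nat_lit 2) (.p (nat_lit 102) (nat_lit 3) (.p (nat_lit 104) (nat_lit 2) (.p (nat_lit 107) (nat_lit 2) (.p (nat_lit 108) (nat_lit 1) (.p (nat_lit 109) (nat_lit 1) (.p (nat_lit 110) (nat_lit 1) (.n (nat_lit 111) (nat_lit 1) (.n (nat_lit 113) (nat_lit 2) (.p (nat_lit 114) (nat_lit 4) (.n (nat_lit 115) (nat_lit 2) (.n (nat_lit 116) (nat_lit 3) (.p (nat_lit 117) (nat_lit 2) (.p (nat_lit 118) (nat_lit 2) (.n (nat_lit 120) (nat_lit 1) (.p (nat_lit 121) (nat_lit 1) (.p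 (nat_lit 122) (nat_lit 2) (.p (nat_lit 125) (nat_lit 1) (.p (nat_lit 131) (nat_lit 1) .z)))))))))))))))))))))))))))))))))))))))))))) .nil)))))))))))))))))))))))))

noncomputable def dD_i38 : IL := (.s true (nat_lit 2) (nat_lit 16) (nat_lit 3) (nat_lit 1) (nat_lit 2) true (nat_lit 4) true (nat_lit 10) true (nat_lit 0) true (nat_lit 9) true (nat_lit 11) (.s false (nat_lit 2) (nat_lit 22) (nat_lit 1) (nat_lit 2) (nat_lit 2) true (nat_lit 7) true (nat_lit 10) false (nat_lit 1) true (nat_lit 11) true (nat_lit 10) (.s false (nat_lit 3) (nat_lit 25) (nat_lit 1) (nat_lit 2) (nat_lit 2) true (nat_lit 7) true (nat_lit 10) false (nat_lit 1) true (nat_lit 11) true (nat_lit 10) (.s false (nat_lit 1) (nat_lit 26) (nat_lit 1) (nat_lit 2) (nat_lit 2) true (nat_lit 7) true (nat_lit 10) false (nat_lit 1) true (nat_lit 11) true (nat_lit 10) (.s true (nat_lit 2) (nat_lit 22) (nat_lit 2) (nat_lit 1)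 (nat_lit 2) true (nat_lit 6) true (nat_lit 10) false (nat_lit 1) true (nat_lit 10) true (nat_lit 11) (.s true (nat_lit 3) (nat_lit 25) (nat_lit 2) (nat_lit 1) (nat_lit 2) true (nat_lit 6) true (nat_lit 10) false (nat_lit 1) true (nat_lit 10) true (nat_lit 11) (.s false (nat_lit 1) (nat_lit 22) (nat_lit 2) (nat_lit 2) (nat_lit 1) true (nat_lit 7) true (nat_lit 11) false (nat_lit 1) true (nat_lit 10) true (nat_lit 10) (.s true (nat_lit 1) (nat_lit 24) (nat_lit 2) (nat_lit 2) (nat_lit 1) true (nat_lit 7) true (nat_lit 11) false (nat_lit 1) true (nat_lit 10) true (nat_lit 10) (.s true (nat_lit 2) (nat_lit 25) (nat_lit 2) (nat_lit 2) (nat_lit 1) true (nat_lit 7) true (nat_lit 11) false (nat_lit 1) true (nat_lit 10) true (nat_lit 10) (.s true (nat_lit 1) (nat_lit 26) (nat_lit 2) (nat_lit 2) (nat_lit 1) true (nat_lit 7) true (nat_lit 11) false (nat_lit 1) true (nat_lit 10) true (nat_lit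 10) (.s true (nat_lit 1) (nat_lit 30) (nat_lit 1) (nat_lit 1) (nat_lit 2) true (nat_lit 7) true (nat_lit 10) false (nat_lit 3) true (nat_lit 11) true (nat_lit 11) (.s true (nat_lit 1) (nat_lit 33) (nat_lit 2) (nat_lit 1) (nat_lit 0) true (nat_lit 8) true (nat_lit 12) false (nat_lit 4) true (nat_lit 10) true (nat_lit 11) (.e true (nat_lit 1) (nat_lit 21) (nat_lit 14) (nat_lit 1) (.e false (nat_lit 1) (nat_lit 48) (nat_lit 5) (nat_lit 7) (.e true (nat_lit 3) (nat_lit 73) (nat_lit 2) (nat_lit 10) (.e true (nat_lit 2) (nat_lit 74) (nat_lit 2) (nat_lit 10) (.e true (nat_lit 2) (nat_lit 77) (nat_lit 2) (nat_lit 10) (.e true (nat_lit 1) (nat_lit 79) (nat_lit 2) (nat_lit 10) (.e false (nat_lit 1) (nat_lit 80) (nat_lit 2) (nat_lit 10) (.e false (nat_lit 3) (nat_lit 82) (nat_lit 2) (nat_lit 10) (.e false (nat_lit 2) (nat_lit 83) (nat_lit 2) (nat_lit 10) (.e false (nat_lit 2) (nat_lit 88)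 (nat_lit 2) (nat_lit 10) (.e false (nat_lit 1) (nat_lit 90) (nat_lit 2) (nat_lit 10) (.e true (nat_lit 2) (nat_lit 91) (nat_lit 2) (nat_lit 10) (.e false (nat_lit 3) (nat_lit 93) (nat_lit 2) (nat_lit 10) dD_i37)))))))))))))))))))))))))

noncomputable def dD_i39 : IL := (.e false (nat_lit 1) (nat_lit 66) (nat_lit 5) (nat_lit 5) (.e false (nat_lit 1) (nat_lit 21) (nat_lit 16) (nat_lit 0) (.e false (nat_lit 1) (nat_lit 22) (nat_lit 16) (nat_lit 0) (.e false (nat_lit 1) (nat_lit 26) (nat_lit 16) (nat_lit 0) (.e true (nat_lit 3) (nat_lit 94) (nat_lit 2) (nat_lit 8) (.e false (nat_lit 2) (nat_lit 97) (nat_lit 2) (nat_lit 8) (.e true (nat_lit 1) (nat_lit 104) (nat_lit 2) (nat_lit 8) (.e false (nat_lit 2) (nat_lit 95) (nat_lit 2) (nat_lit 8) (.e true (nat_lit 3) (nat_lit 98) (nat_lit 2) (nat_lit 8) (.e true (nat_lit 3) (nat_lit 100) (nat_lit 2) (nat_lit 8) (.e false (nat_lit 3) (nat_lit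 103) (nat_lit 2) (nat_lit 8) (.e true (nat_lit 3) (nat_lit 101) (nat_lit 2) (nat_lit 8) (.e true (nat_lit 1) (nat_lit 32) (nat_lit 15) (nat_lit 1) (.e false (nat_lit 1) (nat_lit 49) (nat_lit 6) (nat_lit 4) (.e true (nat_lit 1) (nat_lit 50) (nat_lit 6) (nat_lit 4) (.e false (nat_lit 1) (nat_lit 51) (nat_lit 6) (nat_lit 4) (.e true (nat_lit 1) (nat_lit 53) (nat_lit 6) (nat_lit 4) (.e true (nat_lit 1) (nat_lit 56) (nat_lit 6) (nat_lit 4) (.e false (nat_lit 1) (nat_lit 72) (nat_lit 3) (nat_lit 7) (.e true (nat_lit 1) (nat_lit 118) (nat_lit 1) (nat_lit 9) (.e false (nat_lit 1) (nat_lit 36) (nat_lit 9) (nat_lit 3) (.e true (nat_lit 1) (nat_lit 96) (nat_lit 2) (nat_lit 8) (.e false (nat_lit 1) (nat_lit 106) (nat_lit 2) (nat_lit 8) (.e true (nat_lit 1) (nat_lit 108) (nat_lit 2) (nat_lit 8) (.u (nat_lit 2) (.n (nat_lit 0) (nat_lit 2) (.p (nat_lit 1) (nat_lit 1) (.n (nat_lit 2) (nat_lit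 1) (.p (nat_lit 3) (nat_lit 1) (.p (nat_lit 4) (nat_lit 1) (.p (nat_lit 5) (nat_lit 1) (.p (nat_lit 60) (nat_lit 1) (.n (nat_lit 63) (nat_lit 1) (.n (nat_lit 65) (nat_lit 1) (.p (nat_lit 70) (nat_lit 1) .z)))))))))) .nil)))))))))))))))))))))))))

noncomputable def dD_t0 : Tr := (.nd (.nd (.nd (.nd (.nd (.nd (.nd .leaf (nat_lit 1024) (nat_lit 0) (.p (nat_lit 3) (nat_lit 1) .z) .df .leaf) (nat_lit 2048) (nat_lit 1) (.p (nat_lit 4) (nat_lit 1) .z) .df (.nd .leaf (nat_lit 2049) (nat_lit 2) (.p (nat_lit 5) (nat_lit 1) .z) .df .leaf)) (nat_lit 2050) (nat_lit 3) (.p (nat_lit 6) (nat_lit 1) .z) .df (.nd (.nd .leaf (nat_lit 3073) (nat_lit 4) (.p (nat_lit 7) (nat_lit 1) .z) .df .leaf) (nat_lit 3074) (nat_lit 5) (.p (nat_lit 8) (nat_lit 1) .z) .df .leaf)) (nat_lit 4097) (nat_lit 6) (.p (nat_lit 9) (nat_lit 1) .z) .df (.nd (.nd (.nd .leaf (nat_lit 4098) (nat_lit 9) (.p (nat_lit 12) (nat_lit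 1) .z) .df .leaf) (nat_lit 5120) (nat_lit 7) (.p (nat_lit 10) (nat_lit 1) .z) .df (.nd .leaf (nat_lit 5121) (nat_lit 8) (.p (nat_lit 11) (nat_lit 1) .z) .df .leaf)) (nat_lit 5122) (nat_lit 11) (.p (nat_lit 14) (nat_lit 1) .z) .df (.nd (.nd .leaf (nat_lit 5123) (nat_lit 19) (.p (nat_lit 17) (nat_lit 1) (.n (nat_lit 19) (nat_lit 1) (.p (nat_lit 20) (nat_lit 1) .z))) (.ct dD_c289 (nat_lit 1) (nat_lit 0) (.s true (nat_lit 1) (nat_lit 2) (nat_lit 0) (nat_lit 1) (nat_lit 1) true (nat_lit 0) true (nat_lit 2) true (nat_lit 1) true (nat_lit 3) true (nat_lit 2) (.e true (nat_lit 1) (nat_lit 9) (nat_lit 1) (nat_lit 2) (.e false (nat_lit 1) (nat_lit 7) (nat_lit 2) (nat_lit 1) (.e false (nat_lit 1) (nat_lit 10) (nat_lit 1) (nat_lit 2) .nil))))) .leaf) (nat_lit 5124) (nat_lit 27) (.n (nat_lit 21) (nat_lit 1) (.n (nat_lit 22) (nat_lit 1) (.p (nat_lit 25) (nat_lit 1) (.n (nat_lit 26) (nat_lit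 1) .z)))) (.ct dD_c274 (nat_lit 1) (nat_lit 0) (.s true (nat_lit 1) (nat_lit 2) (nat_lit 0) (nat_lit 1) (nat_lit 2) true (nat_lit 0) true (nat_lit 2) true (nat_lit 2) true (nat_lit 4) true (nat_lit 3) (.e true (nat_lit 1) (nat_lit 9) (nat_lit 2) (nat_lit 2) (.e true (nat_lit 1) (nat_lit 8) (nat_lit 2) (nat_lit 2) (.e true (nat_lit 1) (nat_lit 14) (nat_lit 0) (nat_lit 4) (.e false (nat_lit 1) (nat_lit 13) (nat_lit 1) (nat_lit 3) .nil)))))) .leaf))) (nat_lit 5125) (nat_lit 32) (.n (nat_lit 27) (nat_lit 1) (.n (nat_lit 28) (nat_lit 1) (.p (nat_lit 29) (nat_lit 1) .z))) (.ct dD_c34 (nat_lit 1) (nat_lit 0) (.s true (nat_lit 1) (nat_lit 2) (nat_lit 1) (nat_lit 1) (nat_lit 2) true (nat_lit 0) true (nat_lit 1) true (nat_lit 1) true (nat_lit 2) true (nat_lit 2) (.e true (nat_lit 1) (nat_lit 11) (nat_lit 2) (nat_lit 1) (.e true (nat_lit 1) (nat_lit 14) (nat_lit 1) (nat_lit 2) (.e false (nat_lit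 1) (nat_lit 15) (nat_lit 1) (nat_lit 2) .nil))))) (.nd (.nd (.nd (.nd .leaf (nat_lit 6144) (nat_lit 10) (.p (nat_lit 13) (nat_lit 1) .z) .df .leaf) (nat_lit 6145) (nat_lit 12) (.p (nat_lit 15) (nat_lit 1) .z) .df (.nd .leaf (nat_lit 6146) (nat_lit 13) (.p (nat_lit 16) (nat_lit 1) .z) .df .leaf)) (nat_lit 6147) (nat_lit 26) (.n (nat_lit 22) (nat_lit 1) (.p (nat_lit 23) (nat_lit 1) (.n (nat_lit 24) (nat_lit 1) (.p (nat_lit 26) (nat_lit 1) .z)))) (.ct dD_c274 (nat_lit 1) (nat_lit 1) (.s true (nat_lit 1) (nat_lit 2) (nat_lit 0) (nat_lit 2) (nat_lit 1) true (nat_lit 1) true (nat_lit 3) true (nat_lit 2) true (nat_lit 4) true (nat_lit 2) (.e true (nat_lit 1) (nat_lit 12) (nat_lit 1) (nat_lit 3) (.e true (nat_lit 1) (nat_lit 9) (nat_lit 2) (nat_lit 2) (.e false (nat_lit 1) (nat_lit 14) (nat_lit 0) (nat_lit 4) (.e false (nat_lit 1) (nat_lit 10) (nat_lit 2) (nat_lit 2) .nil)))))) (.nd (.nd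 .leaf (nat_lit 6148) (nat_lit 36) (.n (nat_lit 31) (nat_lit 1) (.n (nat_lit 32) (nat_lit 1) .z)) (.ct dD_c259 (nat_lit 1) (nat_lit 0) (.s true (nat_lit 1) (nat_lit 2) (nat_lit 0) (nat_lit 2) (nat_lit 2) true (nat_lit 0) true (nat_lit 1) true (nat_lit 1) true (nat_lit 2) true (nat_lit 1) (.e true (nat_lit 1) (nat_lit 16) (nat_lit 0) (nat_lit 2) (.e true (nat_lit 1) (nat_lit 13) (nat_lit 2) (nat_lit 1) .nil)))) .leaf) (nat_lit 6149) (nat_lit 40) (.n (nat_lit 34) (nat_lit 1) (.n (nat_lit 35) (nat_lit 1) .z)) (.ct dD_c19 (nat_lit 1) (nat_lit 0) (.s true (nat_lit 1) (nat_lit 2) (nat_lit 1) (nat_lit 2) (nat_lit 2) true (nat_lit 0) true (nat_lit 1) true (nat_lit 1) true (nat_lit 2) true (nat_lit 1) (.e true (nat_lit 1) (nat_lit 16) (nat_lit 1) (nat_lit 2) (.e true (nat_lit 1) (nat_lit 15) (nat_lit 2) (nat_lit 1) .nil)))) .leaf)) (nat_lit 7170) (nat_lit 14) (.p (nat_lit 17) (nat_lit 1)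 .z) .df (.nd (.nd (.nd .leaf (nat_lit 7174) (nat_lit 50) (.p (nat_lit 45) (nat_lit 1) .z) .df .leaf) (nat_lit 8193) (nat_lit 15) (.p (nat_lit 18) (nat_lit 1) .z) .df .leaf) (nat_lit 8194) (nat_lit 20) (.p (nat_lit 21) (nat_lit 1) .z) .df (.nd (.nd .leaf (nat_lit 8197) (nat_lit 51) (.p (nat_lit 46) (nat_lit 1) .z) .df .leaf) (nat_lit 8198) (nat_lit 70) (.p (nat_lit 56) (nat_lit 1) .z) .df .leaf)))) (nat_lit 9217) (nat_lit 16) (.p (nat_lit 19) (nat_lit 1) .z) .df (.nd (.nd (.nd (.nd (.nd .leaf (nat_lit 9218) (nat_lit 21) (.p (nat_lit 22) (nat_lit 1) .z) .df .leaf) (nat_lit 9221) (nat_lit 52) (.p (nat_lit 47) (nat_lit 1) .z) .df (.nd .leaf (nat_lit 9222) (nat_lit 71) (.p (nat_lit 57) (nat_lit 1) .z) .df .leaf)) (nat_lit 10241) (nat_lit 17) (.p (nat_lit 20) (nat_lit 1) .z) .df (.nd (.nd .leaf (nat_lit 10242) (nat_lit 22) (.p (nat_lit 23) (nat_lit 1) .z) .df .leaf) (nat_lit 10245) (nat_lit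 58) (.n (nat_lit 37) (nat_lit 1) (.n (nat_lit 38) (nat_lit 1) (.n (nat_lit 41) (nat_lit 1) (.p (nat_lit 43) (nat_lit 1) (.n (nat_lit 44) (nat_lit 1) (.p (nat_lit 45) (nat_lit 1) (.n (nat_lit 47) (nat_lit 1) .z))))))) (.ct dD_c290 (nat_lit 1) (nat_lit 1) (.s false (nat_lit 1) (nat_lit 5) (nat_lit 2) (nat_lit 0) (nat_lit 1) true (nat_lit 1) true (nat_lit 5) true (nat_lit 1) true (nat_lit 4) true (nat_lit 6) (.e false (nat_lit 1) (nat_lit 26) (nat_lit 1) (nat_lit 5) (.e true (nat_lit 1) (nat_lit 9) (nat_lit 5) (nat_lit 1) (.e false (nat_lit 1) (nat_lit 17) (nat_lit 2) (nat_lit 4) (.e true (nat_lit 1) (nat_lit 19) (nat_lit 2) (nat_lit 4) (.e false (nat_lit 1) (nat_lit 20) (nat_lit 2) (nat_lit 4) (.e true (nat_lit 1) (nat_lit 27) (nat_lit 0) (nat_lit 6) .nil)))))))) .leaf)) (nat_lit 10246) (nat_lit 72) (.p (nat_lit 58) (nat_lit 1) .z) .df (.nd (.nd (.nd .leaf (nat_lit 11264) (nat_lit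 18) (.p (nat_lit 17) (nat_lit 1) (.n (nat_lit 18) (nat_lit 1) (.p (nat_lit 20) (nat_lit 1) .z))) (.ct dD_c289 (nat_lit 1) (nat_lit 3) (.s false (nat_lit 1) (nat_lit 2) (nat_lit 1) (nat_lit 0) (nat_lit 1) false (nat_lit 4) true (nat_lit 2) true (nat_lit 1) true (nat_lit 2) true (nat_lit 3) (.e false (nat_lit 1) (nat_lit 10) (nat_lit 1) (nat_lit 2) (.e false (nat_lit 1) (nat_lit 7) (nat_lit 2) (nat_lit 1) (.e true (nat_lit 1) (nat_lit 8) (nat_lit 1) (nat_lit 2) .nil))))) .leaf) (nat_lit 11266) (nat_lit 29) (.p (nat_lit 27) (nat_lit 1) .z) .df (.nd .leaf (nat_lit 11268) (nat_lit 55) (.n (nat_lit 42) (nat_lit 1) (.p (nat_lit 43) (nat_lit 1) (.n (nat_lit 47) (nat_lit 1) .z))) (.ct dD_c290 (nat_lit 1) (nat_lit 2) (.s false (nat_lit 1) (nat_lit 4) (nat_lit 2) (nat_lit 1) (nat_lit 1) true (nat_lit 1) true (nat_lit 5) true (nat_lit 2) true (nat_lit 4) true (nat_lit 5) (.e true (nat_lit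 1) (nat_lit 9) (nat_lit 5) (nat_lit 1) (.e false (nat_lit 1) (nat_lit 24) (nat_lit 1) (nat_lit 5) (.e true (nat_lit 1) (nat_lit 22) (nat_lit 1) (nat_lit 5) .nil))))) .leaf)) (nat_lit 11270) (nat_lit 89) (.p (nat_lit 59) (nat_lit 1) (.p (nat_lit 60) (nat_lit 1) (.n (nat_lit 61) (nat_lit 1) (.p (nat_lit 63) (nat_lit 1) .z)))) (.ct dD_c35 (nat_lit 1) (nat_lit 0) (.s false (nat_lit 1) (nat_lit 6) (nat_lit 1) (nat_lit 2) (nat_lit 1) false (nat_lit 4) true (nat_lit 3) true (nat_lit 0) true (nat_lit 3) true (nat_lit 2) (.e false (nat_lit 2) (nat_lit 34) (nat_lit 1) (nat_lit 3) (.e false (nat_lit 1) (nat_lit 35) (nat_lit 1) (nat_lit 3) (.e true (nat_lit 1) (nat_lit 29) (nat_lit 2) (nat_lit 2) .nil))))) (.nd (.nd .leaf (nat_lit 12289) (nat_lit 23) (.p (nat_lit 24) (nat_lit 1) .z) .df .leaf) (nat_lit 12290) (nat_lit 33) (.p (nat_lit 30) (nat_lit 1) .z) .df .leaf))) (nat_lit 12293) (nat_lit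 76) (.n (nat_lit 48) (nat_lit 1) (.n (nat_lit 49) (nat_lit 1) (.p (nat_lit 52) (nat_lit 1) (.n (nat_lit 53) (nat_lit 2) (.n (nat_lit 55) (nat_lit 1) (.p (nat_lit 58) (nat_lit 1) .z)))))) (.ct dD_c275 (nat_lit 1) (nat_lit 1) (.s true (nat_lit 1) (nat_lit 5) (nat_lit 2) (nat_lit 0) (nat_lit 2) true (nat_lit 0) true (nat_lit 4) true (nat_lit 1) true (nat_lit 4) true (nat_lit 6) (.e false (nat_lit 1) (nat_lit 10) (nat_lit 6) (nat_lit 0) (.e true (nat_lit 2) (nat_lit 26) (nat_lit 2) (nat_lit 4) (.e true (nat_lit 1) (nat_lit 21) (nat_lit 2) (nat_lit 4) (.e true (nat_lit 1) (nat_lit 22) (nat_lit 2) (nat_lit 4) (.e false (nat_lit 1) (nat_lit 25) (nat_lit 2) (nat_lit 4) (.e true (nat_lit 1) (nat_lit 33) (nat_lit 0) (nat_lit 6) .nil)))))))) (.nd (.nd (.nd (.nd .leaf (nat_lit 12294) (nat_lit 94) (.p (nat_lit 67) (nat_lit 1) .z) .df .leaf) (nat_lit 12299) (nat_lit 138) (.p (nat_lit 73) (nat_lit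 2) (.p (nat_lit 74) (nat_lit 2) (.n (nat_lit 75) (nat_lit 1) (.p (nat_lit 76) (nat_lit 1) (.p (nat_lit 77) (nat_lit 1) (.n (nat_lit 78) (nat_lit 1) (.p (nat_lit 79) (nat_lit 1) (.n (nat_lit 80) (nat_lit 1) (.p (nat_lit 82) (nat_lit 1) (.n (nat_lit 83) (nat_lit 1) (.n (nat_lit 87) (nat_lit 1) (.n (nat_lit 89) (nat_lit 1) (.n (nat_lit 90) (nat_lit 1) (.n (nat_lit 91) (nat_lit 1) (.p (nat_lit 92) (nat_lit 1) (.p (nat_lit 93) (nat_lit 1) .z)))))))))))))))) (.ct dD_c291 (nat_lit 1) (nat_lit 0) (.s true (nat_lit 1) (nat_lit 11) (nat_lit 2) (nat_lit 0) (nat_lit 2) true (nat_lit 3) true (nat_lit 7) true (nat_lit 0) true (nat_lit 7) true (nat_lit 9) (.e false (nat_lit 1) (nat_lit 17) (nat_lit 6) (nat_lit 3) (.e true (nat_lit 1) (nat_lit 18) (nat_lit 6) (nat_lit 3) (.e false (nat_lit 1) (nat_lit 20) (nat_lit 6) (nat_lit 3) (.e true (nat_lit 1) (nat_lit 44) (nat_lit 2) (nat_lit 7) (.e true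 (nat_lit 1) (nat_lit 42) (nat_lit 2) (nat_lit 7) (.e false (nat_lit 1) (nat_lit 43) (nat_lit 2) (nat_lit 7) (.e true (nat_lit 1) (nat_lit 47) (nat_lit 2) (nat_lit 7) (.e true (nat_lit 1) (nat_lit 59) (nat_lit 0) (nat_lit 9) .nil)))))))))) (.nd .leaf (nat_lit 13313) (nat_lit 24) (.p (nat_lit 25) (nat_lit 1) .z) .df .leaf)) (nat_lit 13314) (nat_lit 34) (.p (nat_lit 31) (nat_lit 1) .z) .df (.nd (.nd .leaf (nat_lit 13317) (nat_lit 75) (.p (nat_lit 48) (nat_lit 2) (.p (nat_lit 49) (nat_lit 2) (.p (nat_lit 50) (nat_lit 1) (.p (nat_lit 51) (nat_lit 1) (.n (nat_lit 52) (nat_lit 2) (.p (nat_lit 53) (nat_lit 2) (.p (nat_lit 54) (nat_lit 1) (.n (nat_lit 55) (nat_lit 1) (.n (nat_lit 57) (nat_lit 1) .z))))))))) (.ct dD_c275 (nat_lit 1) (nat_lit 1) (.s true (nat_lit 1) (nat_lit 5) (nat_lit 2) (nat_lit 2) (nat_lit 0) true (nat_lit 2) true (nat_lit 6) true (nat_lit 1) true (nat_lit 4) true (nat_lit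 4) (.e true (nat_lit 1) (nat_lit 14) (nat_lit 4) (nat_lit 2) (.e true (nat_lit 1) (nat_lit 33) (nat_lit 0) (nat_lit 6) (.e false (nat_lit 1) (nat_lit 21) (nat_lit 2) (nat_lit 4) (.e false (nat_lit 1) (nat_lit 22) (nat_lit 2) (nat_lit 4) (.e true (nat_lit 1) (nat_lit 25) (nat_lit 2) (nat_lit 4) (.e false (nat_lit 1) (nat_lit 26) (nat_lit 2) (nat_lit 4) (.e false (nat_lit 1) (nat_lit 23) (nat_lit 2) (nat_lit 4) .nil))))))))) .leaf) (nat_lit 13318) (nat_lit 96) (.p (nat_lit 65) (nat_lit 2) (.p (nat_lit 66) (nat_lit 2) .z)) (.ct dD_c260 (nat_lit 1) (nat_lit 0) (.s true (nat_lit 3) (nat_lit 6) (nat_lit 2) (nat_lit 0) (nat_lit 2) true (nat_lit 0) true (nat_lit 2) true (nat_lit 0) true (nat_lit 2) true (nat_lit 3) (.s false (nat_lit 3) (nat_lit 6) (nat_lit 2) (nat_lit 2) (nat_lit 0) true (nat_lit 1) true (nat_lit 3) true (nat_lit 0) true (nat_lit 2) true (nat_lit 2) (.e true (nat_lit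 2) (nat_lit 32) (nat_lit 2) (nat_lit 2) (.e true (nat_lit 3) (nat_lit 12) (nat_lit 6) (nat_lit 0) (.e true (nat_lit 2) (nat_lit 31) (nat_lit 2) (nat_lit 2) (.e false (nat_lit 3) (nat_lit 16) (nat_lit 4) (nat_lit 1) (.u (nat_lit 2) (.n (nat_lit 1) (nat_lit 1) (.n (nat_lit 2) (nat_lit 1) (.p (nat_lit 5) (nat_lit 1) (.n (nat_lit 8) (nat_lit 1) (.n (nat_lit 9) (nat_lit 1) .z))))) .nil)))))))) .leaf)) (nat_lit 13323) (nat_lit 156) (.n (nat_lit 73) (nat_lit 3) (.p (nat_lit 74) (nat_lit 2) (.p (nat_lit 76) (nat_lit 2) (.p (nat_lit 77) (nat_lit 2) (.p (nat_lit 78) (nat_lit 2) (.n (nat_lit 79) (nat_lit 3) (.p (nat_lit 80) (nat_lit 3) (.n (nat_lit 81) (nat_lit 3) (.p (nat_lit 82) (nat_lit 1) (.n (nat_lit 83) (nat_lit 3) (.n (nat_lit 84) (nat_lit 3) (.p (nat_lit 85) (nat_lit 2) (.n (nat_lit 88) (nat_lit 1) (.n (nat_lit 89) (nat_lit 2) (.n (nat_lit 90) (nat_lit 1) (.p (nat_lit 91) (nat_lit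 3) (.n (nat_lit 92) (nat_lit 1) (.n (nat_lit 93) (nat_lit 2) .z)))))))))))))))))) (.ct dD_c291 (nat_lit 1) (nat_lit 0) (.s true (nat_lit 1) (nat_lit 11) (nat_lit 2) (nat_lit 2) (nat_lit 0) true (nat_lit 5) true (nat_lit 9) true (nat_lit 0) true (nat_lit 7) true (nat_lit 7) (.e true (nat_lit 1) (nat_lit 27) (nat_lit 4) (nat_lit 5) (.e true (nat_lit 1) (nat_lit 59) (nat_lit 0) (nat_lit 9) (.e false (nat_lit 1) (nat_lit 42) (nat_lit 2) (nat_lit 7) (.e true (nat_lit 1) (nat_lit 43) (nat_lit 2) (nat_lit 7) (.e false (nat_lit 1) (nat_lit 47) (nat_lit 2) (nat_lit 7) (.e false (nat_lit 1) (nat_lit 37) (nat_lit 2) (nat_lit 7) (.e true (nat_lit 1) (nat_lit 38) (nat_lit 2) (nat_lit 7) (.e false (nat_lit 1) (nat_lit 40) (nat_lit 2) (nat_lit 7) (.u (nat_lit 2) (.p (nat_lit 0) (nat_lit 1) (.p (nat_lit 10) (nat_lit 1) .z)) .nil))))))))))) (.nd (.nd (.nd .leaf (nat_lit 14336) (nat_lit 25) (.p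 (nat_lit 26) (nat_lit 1) .z) .df .leaf) (nat_lit 14337) (nat_lit 30) (.p (nat_lit 28) (nat_lit 1) .z) .df .leaf) (nat_lit 14338) (nat_lit 37) (.p (nat_lit 33) (nat_lit 1) .z) .df (.nd (.nd .leaf (nat_lit 14339) (nat_lit 53) (.n (nat_lit 37) (nat_lit 1) (.n (nat_lit 38) (nat_lit 1) (.p (nat_lit 39) (nat_lit 1) (.n (nat_lit 40) (nat_lit 1) (.n (nat_lit 41) (nat_lit 1) (.p (nat_lit 45) (nat_lit 1) .z)))))) (.ct dD_c290 (nat_lit 1) (nat_lit 3) (.s true (nat_lit 1) (nat_lit 3) (nat_lit 2) (nat_lit 1) (nat_lit 2) true (nat_lit 0) true (nat_lit 4) true (nat_lit 3) true (nat_lit 4) true (nat_lit 5) (.e false (nat_lit 1) (nat_lit 7) (nat_lit 6) (nat_lit 0) (.e true (nat_lit 1) (nat_lit 18) (nat_lit 2) (nat_lit 4) (.e true (nat_lit 1) (nat_lit 17) (nat_lit 2) (nat_lit 4) (.e false (nat_lit 1) (nat_lit 19) (nat_lit 2) (nat_lit 4) (.e true (nat_lit 1) (nat_lit 20) (nat_lit 2) (nat_lit 4) (.e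 true (nat_lit 1) (nat_lit 21) (nat_lit 1) (nat_lit 5) .nil)))))))) .leaf) (nat_lit 14340) (nat_lit 74) (.n (nat_lit 48) (nat_lit 1) (.n (nat_lit 49) (nat_lit 1) (.n (nat_lit 51) (nat_lit 1) (.p (nat_lit 52) (nat_lit 1) (.n (nat_lit 53) (nat_lit 1) (.n (nat_lit 54) (nat_lit 1) (.p (nat_lit 57) (nat_lit 1) .z))))))) (.ct dD_c275 (nat_lit 1) (nat_lit 2) (.s true (nat_lit 1) (nat_lit 4) (nat_lit 2) (nat_lit 1) (nat_lit 2) true (nat_lit 0) true (nat_lit 4) true (nat_lit 2) true (nat_lit 4) true (nat_lit 5) (.e false (nat_lit 1) (nat_lit 9) (nat_lit 6) (nat_lit 0) (.e true (nat_lit 1) (nat_lit 24) (nat_lit 2) (nat_lit 4) (.e true (nat_lit 1) (nat_lit 21) (nat_lit 2) (nat_lit 4) (.e true (nat_lit 1) (nat_lit 22) (nat_lit 2) (nat_lit 4) (.e false (nat_lit 1) (nat_lit 25) (nat_lit 2) (nat_lit 4) (.e true (nat_lit 1) (nat_lit 26) (nat_lit 2) (nat_lit 4) (.e true (nat_lit 1) (nat_lit 30)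 (nat_lit 1) (nat_lit 5) .nil))))))))) .leaf))))) (nat_lit 14341) (nat_lit 90) (.n (nat_lit 60) (nat_lit 1) (.n (nat_lit 62) (nat_lit 1) (.p (nat_lit 63) (nat_lit 1) .z))) (.ct dD_c35 (nat_lit 1) (nat_lit 1) (.s true (nat_lit 1) (nat_lit 5) (nat_lit 2) (nat_lit 1) (nat_lit 2) true (nat_lit 0) true (nat_lit 2) true (nat_lit 1) true (nat_lit 2) true (nat_lit 3) (.e false (nat_lit 1) (nat_lit 11) (nat_lit 6) (nat_lit 0) (.e true (nat_lit 2) (nat_lit 28) (nat_lit 2) (nat_lit 2) (.e true (nat_lit 1) (nat_lit 27) (nat_lit 2) (nat_lit 2) (.e false (nat_lit 1) (nat_lit 29) (nat_lit 2) (nat_lit 2) (.e true (nat_lit 1) (nat_lit 33) (nat_lit 1) (nat_lit 3) .nil))))))) (.nd (.nd (.nd (.nd (.nd (.nd .leaf (nat_lit 14342) (nat_lit 101) (.p (nat_lit 71) (nat_lit 1) .z) .df .leaf) (nat_lit 14344) (nat_lit 129) (.n (nat_lit 77) (nat_lit 1) (.p (nat_lit 82) (nat_lit 1) (.n (nat_lit 84) (nat_lit 1)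 (.p (nat_lit 91) (nat_lit 1) .z)))) (.ct dD_c291 (nat_lit 1) (nat_lit 1) (.s true (nat_lit 1) (nat_lit 8) (nat_lit 2) (nat_lit 1) (nat_lit 2) true (nat_lit 3) true (nat_lit 7) true (nat_lit 1) true (nat_lit 7) true (nat_lit 8) (.e false (nat_lit 1) (nat_lit 18) (nat_lit 6) (nat_lit 3) (.e true (nat_lit 1) (nat_lit 41) (nat_lit 2) (nat_lit 7) (.e false (nat_lit 1) (nat_lit 46) (nat_lit 2) (nat_lit 7) (.e true (nat_lit 1) (nat_lit 48) (nat_lit 1) (nat_lit 8) .nil)))))) (.nd .leaf (nat_lit 14345) (nat_lit 135) (.n (nat_lit 78) (nat_lit 1) (.p (nat_lit 83) (nat_lit 1) (.n (nat_lit 85) (nat_lit 1) (.p (nat_lit 92) (nat_lit 1) .z)))) (.ct dD_c291 (nat_lit 1) (nat_lit 1) (.s true (nat_lit 1) (nat_lit 9) (nat_lit 2) (nat_lit 1) (nat_lit 2) true (nat_lit 3) true (nat_lit 7) true (nat_lit 1) true (nat_lit 7) true (nat_lit 8) (.e false (nat_lit 1) (nat_lit 19) (nat_lit 6) (nat_lit 3) (.e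 true (nat_lit 1) (nat_lit 42) (nat_lit 2) (nat_lit 7) (.e false (nat_lit 1) (nat_lit 47) (nat_lit 2) (nat_lit 7) (.e true (nat_lit 1) (nat_lit 49) (nat_lit 1) (nat_lit 8) .nil)))))) .leaf)) (nat_lit 14346) (nat_lit 143) (.p (nat_lit 74) (nat_lit 1) (.p (nat_lit 75) (nat_lit 1) (.n (nat_lit 76) (nat_lit 1) (.p (nat_lit 77) (nat_lit 2) (.n (nat_lit 78) (nat_lit 1) (.n (nat_lit 79) (nat_lit 3) (.p (nat_lit 80) (nat_lit 3) (.n (nat_lit 81) (nat_lit 2) (.n (nat_lit 82) (nat_lit 2) (.n (nat_lit 84) (nat_lit 1) (.n (nat_lit 85) (nat_lit 1) (.p (nat_lit 87) (nat_lit 1) (.n (nat_lit 90) (nat_lit 3) (.n (nat_lit 91) (nat_lit 3) (.p (nat_lit 92) (nat_lit 1) .z))))))))))))))) (.ct dD_c291 (nat_lit 1) (nat_lit 1) (.s true (nat_lit 1) (nat_lit 10) (nat_lit 2) (nat_lit 1) (nat_lit 2) true (nat_lit 3) true (nat_lit 7) true (nat_lit 1) true (nat_lit 7) true (nat_lit 8) (.e false (nat_lit 1) (nat_lit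 20) (nat_lit 6) (nat_lit 3) (.e true (nat_lit 1) (nat_lit 42) (nat_lit 2) (nat_lit 7) (.e false (nat_lit 1) (nat_lit 46) (nat_lit 2) (nat_lit 7) (.e true (nat_lit 1) (nat_lit 37) (nat_lit 2) (nat_lit 7) (.e true (nat_lit 1) (nat_lit 41) (nat_lit 2) (nat_lit 7) (.e false (nat_lit 1) (nat_lit 43) (nat_lit 2) (nat_lit 7) (.e true (nat_lit 1) (nat_lit 44) (nat_lit 2) (nat_lit 7) (.e false (nat_lit 1) (nat_lit 45) (nat_lit 2) (nat_lit 7) (.e true (nat_lit 1) (nat_lit 47) (nat_lit 2) (nat_lit 7) (.e true (nat_lit 1) (nat_lit 50) (nat_lit 1) (nat_lit 8) (.u (nat_lit 2) (.p (nat_lit 6) (nat_lit 1) (.n (nat_lit 7) (nat_lit 1) (.p (nat_lit 9) (nat_lit 1) .z))) .nil))))))))))))) (.nd (.nd .leaf (nat_lit 14348) (nat_lit 184) (.n (nat_lit 94) (nat_lit 2) (.n (nat_lit 95) (nat_lit 1) (.p (nat_lit 96) (nat_lit 1) (.p (nat_lit 97) (nat_lit 3) (.p (nat_lit 98) (nat_lit 2) (.p (nat_lit 100) (nat_lit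 1) (.p (nat_lit 101) (nat_lit 1) (.p (nat_lit 102) (nat_lit 1) (.n (nat_lit 103) (nat_lit 2) (.n (nat_lit 104) (nat_lit 1) (.n (nat_lit 105) (nat_lit 1) (.n (nat_lit 107) (nat_lit 1) .z)))))))))))) (.ct dD_c276 (nat_lit 1) (nat_lit 0) (.s false (nat_lit 1) (nat_lit 12) (nat_lit 1) (nat_lit 2) (nat_lit 2) true (nat_lit 3) true (nat_lit 6) true (nat_lit 0) true (nat_lit 7) true (nat_lit 6) (.e false (nat_lit 1) (nat_lit 30) (nat_lit 5) (nat_lit 3) (.e false (nat_lit 1) (nat_lit 51) (nat_lit 2) (nat_lit 6) (.e true (nat_lit 1) (nat_lit 67) (nat_lit 1) (nat_lit 7) (.e false (nat_lit 1) (nat_lit 54) (nat_lit 2) (nat_lit 6) .nil)))))) .leaf) (nat_lit 14349) (nat_lit 196) (.n (nat_lit 94) (nat_lit 3) (.n (nat_lit 95) (nat_lit 2) (.p (nat_lit 96) (nat_lit 1) (.p (nat_lit 98) (nat_lit 3) (.n (nat_lit 99) (nat_lit 3) (.n (nat_lit 100) (nat_lit 2) (.n (nat_lit 101) (nat_lit 1) (.p (nat_lit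 103) (nat_lit 2) (.p (nat_lit 104) (nat_lit 1) (.n (nat_lit 105) (nat_lit 1) (.n (nat_lit 107) (nat_lit 1) (.n (nat_lit 108) (nat_lit 1) (.n (nat_lit 109) (nat_lit 1) .z))))))))))))) (.ct dD_c276 (nat_lit 1) (nat_lit 0) (.s false (nat_lit 1) (nat_lit 14) (nat_lit 2) (nat_lit 2) (nat_lit 0) true (nat_lit 4) true (nat_lit 8) false (nat_lit 0) true (nat_lit 6) true (nat_lit 6) (.e false (nat_lit 1) (nat_lit 33) (nat_lit 4) (nat_lit 4) (.e false (nat_lit 1) (nat_lit 68) (nat_lit 0) (nat_lit 8) (.e true (nat_lit 1) (nat_lit 48) (nat_lit 2) (nat_lit 6) (.e true (nat_lit 1) (nat_lit 49) (nat_lit 2) (nat_lit 6) (.e true (nat_lit 1) (nat_lit 51) (nat_lit 2) (nat_lit 6) (.e false (nat_lit 1) (nat_lit 52) (nat_lit 2) (nat_lit 6) (.e true (nat_lit 2) (nat_lit 53) (nat_lit 2) (nat_lit 6) (.e true (nat_lit 1) (nat_lit 54) (nat_lit 2) (nat_lit 6) (.e false (nat_lit 1) (nat_lit 57) (nat_lit 2)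 (nat_lit 6) (.u (nat_lit 2) (.p (nat_lit 0) (nat_lit 1) (.n (nat_lit 4) (nat_lit 1) (.n (nat_lit 9) (nat_lit 1) (.n (nat_lit 10) (nat_lit 1) .z)))) .nil)))))))))))) .leaf)) (nat_lit 15360) (nat_lit 28) (.n (nat_lit 21) (nat_lit 2) (.n (nat_lit 22) (nat_lit 1) (.p (nat_lit 23) (nat_lit 1) (.p (nat_lit 24) (nat_lit 1) (.p (nat_lit 25) (nat_lit 1) (.n (nat_lit 26) (nat_lit 1) .z)))))) (.ct dD_c274 (nat_lit 1) (nat_lit 4) (.s false (nat_lit 1) (nat_lit 2) (nat_lit 1) (nat_lit 0) (nat_lit 2) false (nat_lit 0) true (nat_lit 2) true (nat_lit 2) true (nat_lit 3) true (nat_lit 4) (.e false (nat_lit 1) (nat_lit 5) (nat_lit 4) (nat_lit 0) (.e false (nat_lit 1) (nat_lit 10) (nat_lit 2) (nat_lit 2) (.e true (nat_lit 1) (nat_lit 8) (nat_lit 2) (nat_lit 2) (.e false (nat_lit 1) (nat_lit 12) (nat_lit 1) (nat_lit 3) .nil)))))) (.nd (.nd (.nd .leaf (nat_lit 15361) (nat_lit 31) (.p (nat_lit 29) (nat_lit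 1) .z) .df .leaf) (nat_lit 15362) (nat_lit 38) (.p (nat_lit 34) (nat_lit 1) .z) .df (.nd .leaf (nat_lit 15363) (nat_lit 54) (.p (nat_lit 37) (nat_lit 2) (.n (nat_lit 39) (nat_lit 1) (.p (nat_lit 40) (nat_lit 1) (.n (nat_lit 41) (nat_lit 1) (.n (nat_lit 46) (nat_lit 1) .z))))) (.ct dD_c290 (nat_lit 1) (nat_lit 3) (.s true (nat_lit 1) (nat_lit 3) (nat_lit 2) (nat_lit 2) (nat_lit 1) true (nat_lit 1) true (nat_lit 5) true (nat_lit 3) true (nat_lit 4) true (nat_lit 4) (.e true (nat_lit 1) (nat_lit 8) (nat_lit 5) (nat_lit 1) (.e true (nat_lit 1) (nat_lit 21) (nat_lit 1) (nat_lit 5) (.e false (nat_lit 2) (nat_lit 17) (nat_lit 2) (nat_lit 4) (.e true (nat_lit 1) (nat_lit 19) (nat_lit 2) (nat_lit 4) (.e false (nat_lit 1) (nat_lit 20) (nat_lit 2) (nat_lit 4) .nil))))))) .leaf)) (nat_lit 15364) (nat_lit 77) (.p (nat_lit 48) (nat_lit 2) (.p (nat_lit 49) (nat_lit 3) (.n (nat_lit 52) (nat_lit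 2) (.p (nat_lit 53) (nat_lit 3) (.n (nat_lit 54) (nat_lit 1) (.p (nat_lit 55) (nat_lit 1) (.n (nat_lit 58) (nat_lit 1) .z))))))) (.ct dD_c275 (nat_lit 1) (nat_lit 2) (.s true (nat_lit 1) (nat_lit 4) (nat_lit 2) (nat_lit 2) (nat_lit 1) true (nat_lit 1) true (nat_lit 5) true (nat_lit 2) true (nat_lit 4) true (nat_lit 4) (.e true (nat_lit 1) (nat_lit 12) (nat_lit 5) (nat_lit 1) (.e true (nat_lit 1) (nat_lit 30) (nat_lit 1) (nat_lit 5) (.e false (nat_lit 1) (nat_lit 21) (nat_lit 2) (nat_lit 4) (.e false (nat_lit 2) (nat_lit 22) (nat_lit 2) (nat_lit 4) (.e true (nat_lit 1) (nat_lit 25) (nat_lit 2) (nat_lit 4) (.e false (nat_lit 1) (nat_lit 26) (nat_lit 2) (nat_lit 4) .nil)))))))) (.nd (.nd .leaf (nat_lit 15365) (nat_lit 88) (.p (nat_lit 59) (nat_lit 2) (.p (nat_lit 60) (nat_lit 2) (.n (nat_lit 61) (nat_lit 1) (.n (nat_lit 63) (nat_lit 1) .z)))) (.ct dD_c35 (nat_lit 1) (nat_lit 1) (.s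 true (nat_lit 1) (nat_lit 6) (nat_lit 1) (nat_lit 1) (nat_lit 2) true (nat_lit 1) true (nat_lit 2) true (nat_lit 0) true (nat_lit 3) true (nat_lit 3) (.e true (nat_lit 1) (nat_lit 29) (nat_lit 2) (nat_lit 2) (.e false (nat_lit 1) (nat_lit 34) (nat_lit 1) (nat_lit 3) (.e false (nat_lit 2) (nat_lit 35) (nat_lit 1) (nat_lit 3) .nil))))) .leaf) (nat_lit 15366) (nat_lit 103) (.p (nat_lit 69) (nat_lit 2) (.p (nat_lit 70) (nat_lit 2) .z)) (.ct dD_c20 (nat_lit 1) (nat_lit 0) (.s true (nat_lit 3) (nat_lit 6) (nat_lit 2) (nat_lit 1) (nat_lit 2) true (nat_lit 0) true (nat_lit 2) true (nat_lit 0) true (nat_lit 2) true (nat_lit 3) (.s false (nat_lit 3) (nat_lit 6) (nat_lit 2) (nat_lit 2) (nat_lit 1) true (nat_lit 1) true (nat_lit 3) true (nat_lit 0) true (nat_lit 2) true (nat_lit 2) (.e true (nat_lit 2) (nat_lit 35) (nat_lit 2) (nat_lit 2) (.e true (nat_lit 3) (nat_lit 14) (nat_lit 6) (nat_lit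 0) (.e true (nat_lit 2) (nat_lit 34) (nat_lit 2) (nat_lit 2) (.e false (nat_lit 3) (nat_lit 16) (nat_lit 5) (nat_lit 1) (.u (nat_lit 2) (.n (nat_lit 1) (nat_lit 1) (.n (nat_lit 2) (nat_lit 1) (.p (nat_lit 5) (nat_lit 1) (.n (nat_lit 8) (nat_lit 1) (.n (nat_lit 9) (nat_lit 1) .z))))) .nil)))))))) .leaf))) (nat_lit 15368) (nat_lit 131) (.p (nat_lit 74) (nat_lit 2) (.p (nat_lit 77) (nat_lit 2) (.n (nat_lit 82) (nat_lit 2) (.n (nat_lit 87) (nat_lit 1) (.n (nat_lit 91) (nat_lit 1) .z))))) (.ct dD_c291 (nat_lit 1) (nat_lit 1) (.s true (nat_lit 1) (nat_lit 8) (nat_lit 2) (nat_lit 2) (nat_lit 1) true (nat_lit 4) true (nat_lit 8) true (nat_lit 1) true (nat_lit 7) true (nat_lit 7) (.e true (nat_lit 1) (nat_lit 21) (nat_lit 5) (nat_lit 4) (.e true (nat_lit 1) (nat_lit 48) (nat_lit 1) (nat_lit 8) (.e true (nat_lit 1) (nat_lit 46) (nat_lit 2) (nat_lit 7) (.e false (nat_lit 1) (nat_lit 38) (nat_lit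 2) (nat_lit 7) .nil)))))) (.nd (.nd (.nd (.nd .leaf (nat_lit 15369) (nat_lit 137) (.p (nat_lit 75) (nat_lit 2) (.p (nat_lit 78) (nat_lit 2) (.n (nat_lit 83) (nat_lit 2) (.n (nat_lit 88) (nat_lit 1) (.n (nat_lit 92) (nat_lit 1) .z))))) (.ct dD_c291 (nat_lit 1) (nat_lit 1) (.s true (nat_lit 1) (nat_lit 9) (nat_lit 2) (nat_lit 2) (nat_lit 1) true (nat_lit 4) true (nat_lit 8) true (nat_lit 1) true (nat_lit 7) true (nat_lit 7) (.e true (nat_lit 1) (nat_lit 22) (nat_lit 5) (nat_lit 4) (.e true (nat_lit 1) (nat_lit 49) (nat_lit 1) (nat_lit 8) (.e true (nat_lit 1) (nat_lit 47) (nat_lit 2) (nat_lit 7) (.e false (nat_lit 1) (nat_lit 39) (nat_lit 2) (nat_lit 7) .nil)))))) .leaf) (nat_lit 15370) (nat_lit 146) (.p (nat_lit 73) (nat_lit 3) (.n (nat_lit 74) (nat_lit 1) (.n (nat_lit 75) (nat_lit 1) (.p (nat_lit 76) (nat_lit 3) (.p (nat_lit 77) (nat_lit 2) (.p (nat_lit 78) (nat_lit 2) (.n (nat_lit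 79) (nat_lit 3) (.p (nat_lit 80) (nat_lit 3) (.p (nat_lit 81) (nat_lit 1) (.n (nat_lit 82) (nat_lit 3) (.n (nat_lit 83) (nat_lit 3) (.n (nat_lit 87) (nat_lit 2) (.n (nat_lit 88) (nat_lit 1) (.p (nat_lit 91) (nat_lit 2) (.n (nat_lit 92) (nat_lit 1) (.p (nat_lit 93) (nat_lit 3) .z)))))))))))))))) (.ct dD_c291 (nat_lit 1) (nat_lit 1) (.s true (nat_lit 1) (nat_lit 10) (nat_lit 2) (nat_lit 2) (nat_lit 1) true (nat_lit 4) true (nat_lit 8) true (nat_lit 1) true (nat_lit 7) true (nat_lit 7) (.e true (nat_lit 1) (nat_lit 23) (nat_lit 5) (nat_lit 4) (.e true (nat_lit 1) (nat_lit 50) (nat_lit 1) (nat_lit 8) (.e false (nat_lit 1) (nat_lit 37) (nat_lit 2) (nat_lit 7) (.e false (nat_lit 1) (nat_lit 38) (nat_lit 2) (nat_lit 7) (.e false (nat_lit 1) (nat_lit 41) (nat_lit 2) (nat_lit 7) (.e true (nat_lit 1) (nat_lit 43) (nat_lit 2) (nat_lit 7) (.e false (nat_lit 1) (nat_lit 44) (nat_lit 2) (nat_lit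 7) (.e true (nat_lit 1) (nat_lit 45) (nat_lit 2) (nat_lit 7) (.e false (nat_lit 1) (nat_lit 47) (nat_lit 2) (nat_lit 7) (.e false (nat_lit 1) (nat_lit 40) (nat_lit 2) (nat_lit 7) (.u (nat_lit 2) (.n (nat_lit 3) (nat_lit 1) (.p (nat_lit 6) (nat_lit 1) (.n (nat_lit 7) (nat_lit 1) (.n (nat_lit 8) (nat_lit 1) (.p (nat_lit 9) (nat_lit 1) (.p (nat_lit 10) (nat_lit 1) (.p (nat_lit 14) (nat_lit 1) (.n (nat_lit 18) (nat_lit 1) (.n (nat_lit 20) (nat_lit 1) .z))))))))) .nil))))))))))))) (.nd .leaf (nat_lit 15372) (nat_lit 178) (.p (nat_lit 94) (nat_lit 1) (.p (nat_lit 95) (nat_lit 1) (.p (nat_lit 97) (nat_lit 1) (.n (nat_lit 98) (nat_lit 1) (.p (nat_lit 99) (nat_lit 2) (.p (nat_lit 101) (nat_lit 1) (.n (nat_lit 104) (nat_lit 1) (.n (nat_lit 105) (nat_lit 1) (.n (nat_lit 109) (nat_lit 1) .z))))))))) (.ct dD_c276 (nat_lit 1) (nat_lit 0) (.s true (nat_lit 1) (nat_lit 12) (nat_lit 2) (nat_lit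 2) (nat_lit 1) true (nat_lit 3) true (nat_lit 7) true (nat_lit 0) true (nat_lit 6) true (nat_lit 6) (.e true (nat_lit 1) (nat_lit 30) (nat_lit 5) (nat_lit 3) (.e true (nat_lit 1) (nat_lit 64) (nat_lit 1) (nat_lit 7) (.e false (nat_lit 1) (nat_lit 48) (nat_lit 2) (nat_lit 6) (.e false (nat_lit 1) (nat_lit 49) (nat_lit 2) (nat_lit 6) (.e true (nat_lit 1) (nat_lit 52) (nat_lit 2) (nat_lit 6) (.e false (nat_lit 2) (nat_lit 53) (nat_lit 2) (nat_lit 6) (.e false (nat_lit 1) (nat_lit 55) (nat_lit 2) (nat_lit 6) (.e true (nat_lit 1) (nat_lit 58) (nat_lit 2) (nat_lit 6) (.e false (nat_lit 1) (nat_lit 51) (nat_lit 2) (nat_lit 6) .nil))))))))))) .leaf)) (nat_lit 15373) (nat_lit 192) (.n (nat_lit 94) (nat_lit 2) (.p (nat_lit 97) (nat_lit 2) (.p (nat_lit 98) (nat_lit 2) (.n (nat_lit 99) (nat_lit 2) (.n (nat_lit 100) (nat_lit 2) (.p (nat_lit 102) (nat_lit 3) (.p (nat_lit 103) (nat_lit 1) (.p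 (nat_lit 104) (nat_lit 1) (.n (nat_lit 105) (nat_lit 2) (.n (nat_lit 106) (nat_lit 1) (.n (nat_lit 107) (nat_lit 3) (.p (nat_lit 108) (nat_lit 1) (.n (nat_lit 109) (nat_lit 2) .z))))))))))))) (.ct dD_c276 (nat_lit 1) (nat_lit 0) (.s true (nat_lit 1) (nat_lit 13) (nat_lit 2) (nat_lit 2) (nat_lit 1) true (nat_lit 3) true (nat_lit 7) true (nat_lit 0) true (nat_lit 6) true (nat_lit 6) (.e true (nat_lit 1) (nat_lit 31) (nat_lit 5) (nat_lit 3) (.e true (nat_lit 1) (nat_lit 65) (nat_lit 1) (nat_lit 7) (.e true (nat_lit 2) (nat_lit 48) (nat_lit 2) (nat_lit 6) (.e true (nat_lit 2) (nat_lit 49) (nat_lit 2) (nat_lit 6) (.e true (nat_lit 1) (nat_lit 50) (nat_lit 2) (nat_lit 6) (.e true (nat_lit 1) (nat_lit 51) (nat_lit 2) (nat_lit 6) (.e false (nat_lit 3) (nat_lit 52) (nat_lit 2) (nat_lit 6) (.e true (nat_lit 2) (nat_lit 53) (nat_lit 2) (nat_lit 6) (.e true (nat_lit 1) (nat_lit 54) (nat_lit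 2) (nat_lit 6) (.e false (nat_lit 1) (nat_lit 55) (nat_lit 2) (nat_lit 6) (.e false (nat_lit 1) (nat_lit 57) (nat_lit 2) (nat_lit 6) (.u (nat_lit 2) (.n (nat_lit 1) (nat_lit 1) .z) .nil)))))))))))))) (.nd (.nd .leaf (nat_lit 15374) (nat_lit 208) (.p (nat_lit 110) (nat_lit 1) (.n (nat_lit 112) (nat_lit 3) (.n (nat_lit 113) (nat_lit 2) (.n (nat_lit 114) (nat_lit 1) (.n (nat_lit 115) (nat_lit 3) .z))))) (.ct dD_c36 (nat_lit 1) (nat_lit 0) (.s true (nat_lit 1) (nat_lit 14) (nat_lit 2) (nat_lit 2) (nat_lit 1) true (nat_lit 3) true (nat_lit 5) true (nat_lit 0) true (nat_lit 4) true (nat_lit 4) (.e true (nat_lit 1) (nat_lit 33) (nat_lit 5) (nat_lit 3) (.e true (nat_lit 1) (nat_lit 68) (nat_lit 1) (nat_lit 5) (.e false (nat_lit 2) (nat_lit 60) (nat_lit 2) (nat_lit 4) (.e false (nat_lit 1) (nat_lit 62) (nat_lit 2) (nat_lit 4) (.e true (nat_lit 1) (nat_lit 63) (nat_lit 2) (nat_lit 4) (.u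 (nat_lit 2) (.p (nat_lit 3) (nat_lit 1) .z) .nil)))))))) .leaf) (nat_lit 16384) (nat_lit 35) (.p (nat_lit 32) (nat_lit 1) .z) .df .leaf)) (nat_lit 16385) (nat_lit 39) (.p (nat_lit 35) (nat_lit 1) .z) .df (.nd (.nd (.nd .leaf (nat_lit 16386) (nat_lit 41) (.p (nat_lit 36) (nat_lit 1) .z) .df .leaf) (nat_lit 16387) (nat_lit 73) (.p (nat_lit 49) (nat_lit 1) (.n (nat_lit 50) (nat_lit 1) (.p (nat_lit 51) (nat_lit 1) (.n (nat_lit 53) (nat_lit 1) (.n (nat_lit 56) (nat_lit 1) .z))))) (.ct dD_c275 (nat_lit 1) (nat_lit 3) (.s true (nat_lit 1) (nat_lit 3) (nat_lit 2) (nat_lit 2) (nat_lit 2) true (nat_lit 0) true (nat_lit 4) true (nat_lit 3) true (nat_lit 4) true (nat_lit 4) (.e true (nat_lit 1) (nat_lit 8) (nat_lit 6) (nat_lit 0) (.e false (nat_lit 1) (nat_lit 22) (nat_lit 2) (nat_lit 4) (.e true (nat_lit 1) (nat_lit 23) (nat_lit 2) (nat_lit 4) (.e false (nat_lit 1) (nat_lit 24) (nat_lit 2)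 (nat_lit 4) (.e true (nat_lit 1) (nat_lit 26) (nat_lit 2) (nat_lit 4) .nil))))))) .leaf) (nat_lit 16388) (nat_lit 95) (.n (nat_lit 65) (nat_lit 1) (.n (nat_lit 66) (nat_lit 1) (.p (nat_lit 67) (nat_lit 1) .z))) (.ct dD_c260 (nat_lit 1) (nat_lit 1) (.s false (nat_lit 1) (nat_lit 4) (nat_lit 2) (nat_lit 2) (nat_lit 2) true (nat_lit 0) true (nat_lit 2) true (nat_lit 1) true (nat_lit 2) true (nat_lit 2) (.e false (nat_lit 1) (nat_lit 12) (nat_lit 6) (nat_lit 0) (.e true (nat_lit 1) (nat_lit 31) (nat_lit 2) (nat_lit 2) (.e true (nat_lit 1) (nat_lit 32) (nat_lit 2) (nat_lit 2) .nil))))) (.nd (.nd .leaf (nat_lit 16389) (nat_lit 102) (.n (nat_lit 69) (nat_lit 1) (.n (nat_lit 70) (nat_lit 1) (.p (nat_lit 71) (nat_lit 1) .z))) (.ct dD_c20 (nat_lit 1) (nat_lit 1) (.s false (nat_lit 1) (nat_lit 5) (nat_lit 2) (nat_lit 2) (nat_lit 2) true (nat_lit 0) true (nat_lit 2) true (nat_lit 1) true (nat_lit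 2) true (nat_lit 2) (.e false (nat_lit 1) (nat_lit 14) (nat_lit 6) (nat_lit 0) (.e true (nat_lit 1) (nat_lit 34) (nat_lit 2) (nat_lit 2) (.e true (nat_lit 1) (nat_lit 35) (nat_lit 2) (nat_lit 2) .nil))))) .leaf) (nat_lit 16390) (nat_lit 106) .z (.ct dD_c5 (nat_lit 1) (nat_lit 0) (.s false (nat_lit 3) (nat_lit 6) (nat_lit 2) (nat_lit 2) (nat_lit 2) true (nat_lit 0) true (nat_lit 1) true (nat_lit 0) true (nat_lit 1) true (nat_lit 1) (.u (nat_lit 2) (.p (nat_lit 1) (nat_lit 1) .z) .nil))) .leaf)))) (nat_lit 16391) (nat_lit 128) (.p (nat_lit 81) (nat_lit 1) (.n (nat_lit 90) (nat_lit 1) .z)) (.ct dD_c291 (nat_lit 1) (nat_lit 2) (.s true (nat_lit 1) (nat_lit 7) (nat_lit 2) (nat_lit 2) (nat_lit 2) true (nat_lit 3) true (nat_lit 7) true (nat_lit 2) true (nat_lit 7) true (nat_lit 7) (.e true (nat_lit 1) (nat_lit 17) (nat_lit 6) (nat_lit 3) (.e false (nat_lit 1) (nat_lit 45) (nat_lit 2)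 (nat_lit 7) .nil)))) (.nd (.nd (.nd (.nd (.nd .leaf (nat_lit 16392) (nat_lit 175) (.n (nat_lit 102) (nat_lit 1) (.p (nat_lit 106) (nat_lit 1) .z)) (.ct dD_c276 (nat_lit 1) (nat_lit 1) (.s false (nat_lit 1) (nat_lit 6) (nat_lit 3) (nat_lit 2) (nat_lit 2) true (nat_lit 1) true (nat_lit 6) true (nat_lit 2) true (nat_lit 5) true (nat_lit 6) (.e false (nat_lit 1) (nat_lit 21) (nat_lit 6) (nat_lit 2) (.e true (nat_lit 1) (nat_lit 56) (nat_lit 2) (nat_lit 6) .nil)))) .leaf) (nat_lit 16393) (nat_lit 176) (.n (nat_lit 103) (nat_lit 1) (.p (nat_lit 107) (nat_lit 1) .z)) (.ct dD_c276 (nat_lit 1) (nat_lit 1) (.s false (nat_lit 1) (nat_lit 9) (nat_lit 2) (nat_lit 2) (nat_lit 2) true (nat_lit 2) true (nat_lit 6) true (nat_lit 1) true (nat_lit 6) true (nat_lit 6) (.e false (nat_lit 1) (nat_lit 22) (nat_lit 6) (nat_lit 2) (.e true (nat_lit 1) (nat_lit 57) (nat_lit 2) (nat_lit 6) .nil)))) (.nd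 .leaf (nat_lit 16394) (nat_lit 177) (.n (nat_lit 104) (nat_lit 1) (.p (nat_lit 108) (nat_lit 1) .z)) (.ct dD_c276 (nat_lit 1) (nat_lit 1) (.s false (nat_lit 1) (nat_lit 10) (nat_lit 2) (nat_lit 2) (nat_lit 2) true (nat_lit 2) true (nat_lit 6) true (nat_lit 1) true (nat_lit 6) true (nat_lit 6) (.e false (nat_lit 1) (nat_lit 23) (nat_lit 6) (nat_lit 2) (.e true (nat_lit 1) (nat_lit 58) (nat_lit 2) (nat_lit 6) .nil)))) .leaf)) (nat_lit 16395) (nat_lit 213) (.p (nat_lit 111) (nat_lit 1) (.p (nat_lit 112) (nat_lit 1) (.n (nat_lit 114) (nat_lit 1) (.n (nat_lit 115) (nat_lit 1) .z)))) (.ct dD_c36 (nat_lit 1) (nat_lit 1) (.s false (nat_lit 1) (nat_lit 11) (nat_lit 2) (nat_lit 2) (nat_lit 2) true (nat_lit 2) true (nat_lit 4) true (nat_lit 1) true (nat_lit 4) true (nat_lit 4) (.e false (nat_lit 1) (nat_lit 27) (nat_lit 6) (nat_lit 2) (.e true (nat_lit 1) (nat_lit 59) (nat_lit 2) (nat_lit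 4) (.e true (nat_lit 1) (nat_lit 60) (nat_lit 2) (nat_lit 4) (.e false (nat_lit 1) (nat_lit 61) (nat_lit 2) (nat_lit 4) (.e true (nat_lit 1) (nat_lit 63) (nat_lit 2) (nat_lit 4) (.u (nat_lit 2) (.n (nat_lit 1) (nat_lit 1) .z) .nil)))))))) (.nd (.nd .leaf (nat_lit 16396) (nat_lit 224) (.n (nat_lit 118) (nat_lit 1) (.p (nat_lit 119) (nat_lit 1) (.n (nat_lit 120) (nat_lit 1) .z))) (.ct dD_c261 (nat_lit 1) (nat_lit 0) (.s true (nat_lit 1) (nat_lit 16) (nat_lit 0) (nat_lit 2) (nat_lit 2) true (nat_lit 2) true (nat_lit 3) false (nat_lit 0) true (nat_lit 4) true (nat_lit 3) (.e true (nat_lit 1) (nat_lit 36) (nat_lit 4) (nat_lit 2) (.e true (nat_lit 1) (nat_lit 66) (nat_lit 2) (nat_lit 3) (.e true (nat_lit 1) (nat_lit 65) (nat_lit 2) (nat_lit 3) (.e false (nat_lit 1) (nat_lit 67) (nat_lit 2) (nat_lit 3) .nil)))))) .leaf) (nat_lit 16397) (nat_lit 220) (.p (nat_lit 120) (nat_lit 1) .z) (.ct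 dD_c261 (nat_lit 1) (nat_lit 0) (.s true (nat_lit 1) (nat_lit 6) (nat_lit 0) (nat_lit 2) (nat_lit 6) true (nat_lit 0) true (nat_lit 1) true (nat_lit 1) true (nat_lit 4) true (nat_lit 3) (.e false (nat_lit 1) (nat_lit 32) (nat_lit 6) (nat_lit 1) .nil))) .leaf)) (nat_lit 16398) (nat_lit 235) (.n (nat_lit 123) (nat_lit 1) (.p (nat_lit 124) (nat_lit 1) (.n (nat_lit 125) (nat_lit 1) .z))) (.ct dD_c21 (nat_lit 1) (nat_lit 0) (.s true (nat_lit 1) (nat_lit 16) (nat_lit 1) (nat_lit 2) (nat_lit 2) true (nat_lit 2) true (nat_lit 3) false (nat_lit 0) true (nat_lit 4) true (nat_lit 3) (.e true (nat_lit 1) (nat_lit 36) (nat_lit 5) (nat_lit 2) (.e true (nat_lit 1) (nat_lit 70) (nat_lit 2) (nat_lit 3) (.e true (nat_lit 1) (nat_lit 69) (nat_lit 2) (nat_lit 3) (.e false (nat_lit 1) (nat_lit 71) (nat_lit 2) (nat_lit 3) .nil)))))) (.nd (.nd (.nd .leaf (nat_lit 16399) (nat_lit 231) (.p (nat_lit 125)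 (nat_lit 1) .z) (.ct dD_c21 (nat_lit 1) (nat_lit 0) (.s true (nat_lit 1) (nat_lit 6) (nat_lit 1) (nat_lit 2) (nat_lit 6) true (nat_lit 0) true (nat_lit 1) true (nat_lit 1) true (nat_lit 4) true (nat_lit 3) (.e false (nat_lit 1) (nat_lit 35) (nat_lit 6) (nat_lit 1) .nil))) .leaf) (nat_lit 17410) (nat_lit 42) (.p (nat_lit 37) (nat_lit 1) .z) .df .leaf) (nat_lit 17414) (nat_lit 124) (.p (nat_lit 90) (nat_lit 1) .z) .df (.nd (.nd .leaf (nat_lit 17424) (nat_lit 267) (.n (nat_lit 143) (nat_lit 1) (.p (nat_lit 152) (nat_lit 1) .z)) (.ct dD_c292 (nat_lit 1) (nat_lit 0) (.s false (nat_lit 1) (nat_lit 7) (nat_lit 2) (nat_lit 2) (nat_lit 6) true (nat_lit 0) true (nat_lit 6) true (nat_lit 5) true (nat_lit 10) true (nat_lit 10) (.e false (nat_lit 1) (nat_lit 37) (nat_lit 6) (nat_lit 6) (.e true (nat_lit 1) (nat_lit 90) (nat_lit 2) (nat_lit 10) .nil)))) .leaf) (nat_lit 18434) (nat_lit 43) (.p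 (nat_lit 38) (nat_lit 1) .z) .df .leaf))) (nat_lit 18438) (nat_lit 125) (.p (nat_lit 91) (nat_lit 1) .z) .df (.nd (.nd (.nd (.nd .leaf (nat_lit 18448) (nat_lit 268) (.n (nat_lit 144) (nat_lit 1) (.p (nat_lit 153) (nat_lit 1) .z)) (.ct dD_c292 (nat_lit 1) (nat_lit 0) (.s false (nat_lit 1) (nat_lit 18) (nat_lit 2) (nat_lit 2) (nat_lit 2) true (nat_lit 6) true (nat_lit 10) false (nat_lit 0) true (nat_lit 10) true (nat_lit 10) (.e false (nat_lit 1) (nat_lit 38) (nat_lit 6) (nat_lit 6) (.e true (nat_lit 1) (nat_lit 91) (nat_lit 2) (nat_lit 10) .nil)))) .leaf) (nat_lit 19458) (nat_lit 44) (.p (nat_lit 39) (nat_lit 1) .z) .df (.nd .leaf (nat_lit 19462) (nat_lit 126) (.p (nat_lit 92) (nat_lit 1) .z) .df .leaf)) (nat_lit 19472) (nat_lit 269) (.n (nat_lit 145) (nat_lit 1) (.p (nat_lit 154) (nat_lit 1) .z)) (.ct dD_c292 (nat_lit 1) (nat_lit 0) (.s false (nat_lit 1) (nat_lit 19) (nat_lit 2)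 (nat_lit 2) (nat_lit 2) true (nat_lit 6) true (nat_lit 10) false (nat_lit 0) true (nat_lit 10) true (nat_lit 10) (.e false (nat_lit 1) (nat_lit 39) (nat_lit 6) (nat_lit 6) (.e true (nat_lit 1) (nat_lit 92) (nat_lit 2) (nat_lit 10) .nil)))) (.nd (.nd .leaf (nat_lit 20482) (nat_lit 45) (.p (nat_lit 40) (nat_lit 1) .z) .df .leaf) (nat_lit 20486) (nat_lit 133) (.p (nat_lit 73) (nat_lit 2) (.p (nat_lit 74) (nat_lit 2) (.n (nat_lit 75) (nat_lit 1) (.p (nat_lit 76) (nat_lit 1) (.p (nat_lit 77) (nat_lit 1) (.p (nat_lit 82) (nat_lit 1) (.n (nat_lit 87) (nat_lit 1) (.n (nat_lit 90) (nat_lit 2) (.p (nat_lit 92) (nat_lit 1) (.p (nat_lit 93) (nat_lit 1) .z)))))))))) (.ct dD_c291 (nat_lit 1) (nat_lit 3) (.s false (nat_lit 1) (nat_lit 6) (nat_lit 1) (nat_lit 2) (nat_lit 3) true (nat_lit 2) true (nat_lit 6) true (nat_lit 3) true (nat_lit 8) true (nat_lit 7) (.e false (nat_lit 1) (nat_lit 16) (nat_lit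 7) (nat_lit 2) (.e false (nat_lit 1) (nat_lit 34) (nat_lit 3) (nat_lit 6) (.e true (nat_lit 1) (nat_lit 17) (nat_lit 6) (nat_lit 3) (.e false (nat_lit 1) (nat_lit 19) (nat_lit 6) (nat_lit 3) (.e true (nat_lit 1) (nat_lit 56) (nat_lit 1) (nat_lit 8) (.e false (nat_lit 2) (nat_lit 38) (nat_lit 2) (nat_lit 7) (.e false (nat_lit 1) (nat_lit 46) (nat_lit 2) (nat_lit 7) (.e false (nat_lit 2) (nat_lit 37) (nat_lit 2) (nat_lit 7) (.e true (nat_lit 1) (nat_lit 39) (nat_lit 2) (nat_lit 7) (.e false (nat_lit 1) (nat_lit 40) (nat_lit 2) (nat_lit 7) (.e false (nat_lit 1) (nat_lit 41) (nat_lit 2) (nat_lit 7) (.e true (nat_lit 1) (nat_lit 45) (nat_lit 2) (nat_lit 7) .nil)))))))))))))) .leaf)) (nat_lit 20496) (nat_lit 289) (.p (nat_lit 126) (nat_lit 1) (.p (nat_lit 127) (nat_lit 1) (.p (nat_lit 128) (nat_lit 2) (.n (nat_lit 129) (nat_lit 2) (.n (nat_lit 130) (nat_lit 3) (.p (nat_lit 134) (nat_lit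 1) (.p (nat_lit 135) (nat_lit 1) (.n (nat_lit 137) (nat_lit 1) (.n (nat_lit 140) (nat_lit 2) (.p (nat_lit 144) (nat_lit 1) (.n (nat_lit 145) (nat_lit 1) (.n (nat_lit 146) (nat_lit 1) (.p (nat_lit 152) (nat_lit 3) (.n (nat_lit 153) (nat_lit 3) (.p (nat_lit 154) (nat_lit 1) .z))))))))))))))) (.ct dD_c292 (nat_lit 1) (nat_lit 0) (.s false (nat_lit 1) (nat_lit 20) (nat_lit 2) (nat_lit 2) (nat_lit 2) true (nat_lit 6) true (nat_lit 10) false (nat_lit 0) true (nat_lit 10) true (nat_lit 10) (.e false (nat_lit 1) (nat_lit 40) (nat_lit 6) (nat_lit 6) (.e true (nat_lit 1) (nat_lit 76) (nat_lit 2) (nat_lit 10) (.e true (nat_lit 2) (nat_lit 73) (nat_lit 2) (nat_lit 10) (.e true (nat_lit 2) (nat_lit 74) (nat_lit 2) (nat_lit 10) (.e false (nat_lit 1) (nat_lit 75) (nat_lit 2) (nat_lit 10) (.e true (nat_lit 1) (nat_lit 77) (nat_lit 2) (nat_lit 10) (.e true (nat_lit 1) (nat_lit 82) (nat_lit 2) (nat_lit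 10) (.e false (nat_lit 1) (nat_lit 87) (nat_lit 2) (nat_lit 10) (.e false (nat_lit 2) (nat_lit 90) (nat_lit 2) (nat_lit 10) (.e true (nat_lit 1) (nat_lit 92) (nat_lit 2) (nat_lit 10) (.e true (nat_lit 1) (nat_lit 93) (nat_lit 2) (nat_lit 10) .nil))))))))))))) (.nd (.nd (.nd .leaf (nat_lit 21505) (nat_lit 46) (.p (nat_lit 41) (nat_lit 1) .z) .df .leaf) (nat_lit 21506) (nat_lit 62) (.p (nat_lit 48) (nat_lit 1) .z) .df .leaf) (nat_lit 21509) (nat_lit 130) (.n (nat_lit 74) (nat_lit 1) (.n (nat_lit 77) (nat_lit 2) (.p (nat_lit 82) (nat_lit 1) (.n (nat_lit 84) (nat_lit 1) (.p (nat_lit 87) (nat_lit 1) (.p (nat_lit 91) (nat_lit 1) .z)))))) (.ct dD_c291 (nat_lit 1) (nat_lit 4) (.s true (nat_lit 1) (nat_lit 8) (nat_lit 1) (nat_lit 2) (nat_lit 2) true (nat_lit 4) true (nat_lit 7) true (nat_lit 1) true (nat_lit 8) true (nat_lit 7) (.e true (nat_lit 1) (nat_lit 38) (nat_lit 2) (nat_lit 7) (.e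 false (nat_lit 1) (nat_lit 14) (nat_lit 8) (nat_lit 1) (.e false (nat_lit 1) (nat_lit 56) (nat_lit 1) (nat_lit 8) (.e true (nat_lit 1) (nat_lit 41) (nat_lit 2) (nat_lit 7) .nil)))))) (.nd (.nd .leaf (nat_lit 21510) (nat_lit 171) (.p (nat_lit 106) (nat_lit 1) .z) .df .leaf) (nat_lit 21518) (nat_lit 276) (.n (nat_lit 127) (nat_lit 3) (.p (nat_lit 130) (nat_lit 1) (.p (nat_lit 134) (nat_lit 1) (.n (nat_lit 135) (nat_lit 2) (.n (nat_lit 137) (nat_lit 2) (.p (nat_lit 140) (nat_lit 1) (.n (nat_lit 143) (nat_lit 1) (.p (nat_lit 144) (nat_lit 3) (.p (nat_lit 147) (nat_lit 1) (.p (nat_lit 153) (nat_lit 1) .z)))))))))) (.ct dD_c292 (nat_lit 1) (nat_lit 1) (.s true (nat_lit 1) (nat_lit 21) (nat_lit 1) (nat_lit 2) (nat_lit 2) true (nat_lit 7) true (nat_lit 10) false (nat_lit 1) true (nat_lit 11) true (nat_lit 10) (.e true (nat_lit 1) (nat_lit 48) (nat_lit 5) (nat_lit 7) (.e true (nat_lit 1)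 (nat_lit 77) (nat_lit 2) (nat_lit 10) (.e false (nat_lit 1) (nat_lit 106) (nat_lit 1) (nat_lit 11) (.e true (nat_lit 1) (nat_lit 84) (nat_lit 2) (nat_lit 10) .nil)))))) .leaf))))))

noncomputable def dD_t1 : Tr := (.nd (.nd (.nd (.nd (.nd (.nd (.nd .leaf (nat_lit 21520) (nat_lit 371) (.n (nat_lit 156) (nat_lit 3) (.p (nat_lit 157) (nat_lit 2) (.n (nat_lit 158) (nat_lit 2) (.n (nat_lit 159) (nat_lit 1) (.p (nat_lit 160) (nat_lit 2) (.p (nat_lit 161) (nat_lit 3) (.p (nat_lit 162) (nat_lit 1) (.p (nat_lit 163) (nat_lit 1) (.n (nat_lit 164) (nat_lit 1) (.n (nat_lit 165) (nat_lit 2) (.n (nat_lit 168) (nat_lit 1) (.p (nat_lit 172) (nat_lit 1) (.n (nat_lit 173) (nat_lit 1) .z))))))))))))) (.ct dD_c277 (nat_lit 1) (nat_lit 0) (.s false (nat_lit 1) (nat_lit 8) (nat_lit 2) (nat_lit 2) (nat_lit 6) true (nat_lit 0) true (nat_lit 4) true (nat_lit 3) true (nat_lit 8) true (nat_lit 8) (.e false (nat_lit 1) (nat_lit 48) (nat_lit 6) (nat_lit 4) (.e true (nat_lit 1) (nat_lit 106) (nat_lit 2) (nat_lit 8) .nil)))) .leaf) (nat_lit 22529) (nat_lit 47) (.p (nat_lit 42) (nat_lit 1) .z) .df (.nd .leaf (nat_lit 22530) (nat_lit 63) (.p (nat_lit 49) (nat_lit 1) .z) .df .leaf)) (nat_lit 22533) (nat_lit 136) (.n (nat_lit 75) (nat_lit 1) (.n (nat_lit 78) (nat_lit 2) (.p (nat_lit 83) (nat_lit 1) (.n (nat_lit 85) (nat_lit 1) (.p (nat_lit 88) (nat_lit 1) (.p (nat_lit 92) (nat_lit 1) .z)))))) (.ct dD_c291 (nat_lit 1) (nat_lit 4) (.s true (nat_lit 1) (nat_lit 9) (nat_lit 1) (nat_lit 2) (nat_lit 2) true (nat_lit 4) true (nat_lit 7) true (nat_lit 1) true (nat_lit 8) true (nat_lit 7) (.e true (nat_lit 1) (nat_lit 39) (nat_lit 2) (nat_lit 7) (.e false (nat_lit 1) (nat_lit 14) (nat_lit 9) (nat_lit 1) (.e false (nat_lit 1) (nat_lit 57) (nat_lit 1) (nat_lit 8) (.e true (nat_lit 1) (nat_lit 42) (nat_lit 2) (nat_lit 7) .nil)))))) (.nd (.nd .leaf (nat_lit 22534) (nat_lit 172) (.p (nat_lit 107) (nat_lit 1) .z) .df .leaf) (nat_lit 22542) (nat_lit 320) (.n (nat_lit 127) (nat_lit 2) (.n (nat_lit 128) (nat_lit 2) (.n (nat_lit 129) (nat_lit 1) (.n (nat_lit 130) (nat_lit 1) (.n (nat_lit 131) (nat_lit 1) (.p (nat_lit 132) (nat_lit 1) (.n (nat_lit 133) (nat_lit 1) (.n (nat_lit 135) (nat_lit 1) (.n (nat_lit 136) (nat_lit 2) (.p (nat_lit 137) (nat_lit 3) (.p (nat_lit 138) (nat_lit 2) (.p (nat_lit 140) (nat_lit 3) (.n (nat_lit 141) (nat_lit 1) (.p (nat_lit 143) (nat_lit 3) (.p (nat_lit 144) (nat_lit 3) (.n (nat_lit 146) (nat_lit 1) (.p (nat_lit 148) (nat_lit 1) (.p (nat_lit 152) (nat_lit 2) (.p (nat_lit 153) (nat_lit 2) (.n (nat_lit 154) (nat_lit 2) .z)))))))))))))))))))) (.ct dD_c292 (nat_lit 1) (nat_lit 1) (.s true (nat_lit 1) (nat_lit 22) (nat_lit 1) (nat_lit 2) (nat_lit 2) true (nat_lit 7) true (nat_lit 10) false (nat_lit 1) true (nat_lit 11) true (nat_lit 10) (.e true (nat_lit 1) (nat_lit 49) (nat_lit 5) (nat_lit 7) (.e true (nat_lit 1) (nat_lit 78) (nat_lit 2) (nat_lit 10) (.e false (nat_lit 1) (nat_lit 107) (nat_lit 1) (nat_lit 11) (.e true (nat_lit 1) (nat_lit 85) (nat_lit 2) (nat_lit 10) (.u (nat_lit 2) (.p (nat_lit 1) (nat_lit 1) (.p (nat_lit 3) (nat_lit 1) (.n (nat_lit 12) (nat_lit 1) (.n (nat_lit 14) (nat_lit 1) .z)))) .nil))))))) .leaf)) (nat_lit 22543) (nat_lit 305) (.n (nat_lit 126) (nat_lit 1) (.n (nat_lit 127) (nat_lit 2) (.n (nat_lit 128) (nat_lit 1) (.n (nat_lit 129) (nat_lit 3) (.p (nat_lit 130) (nat_lit 2) (.p (nat_lit 131) (nat_lit 2) (.n (nat_lit 132) (nat_lit 3) (.p (nat_lit 133) (nat_lit 3) (.p (nat_lit 135) (nat_lit 3) (.p (nat_lit 136) (nat_lit 2) (.n (nat_lit 137) (nat_lit 3) (.p (nat_lit 138) (nat_lit 1) (.p (nat_lit 140) (nat_lit 2) (.p (nat_lit 141) (nat_lit 3) (.n (nat_lit 144) (nat_lit 3) (.p (nat_lit 145) (nat_lit 1) (.n (nat_lit 146) (nat_lit 1) (.p (nat_lit 147) (nat_lit 1) (.p (nat_lit 148) (nat_lit 2) (.n (nat_lit 153) (nat_lit 1) (.n (nat_lit 154) (nat_lit 1) (.n (nat_lit 155) (nat_lit 1) .z)))))))))))))))))))))) (.ct dD_c292 (nat_lit 1) (nat_lit 1) (.s false (nat_lit 1) (nat_lit 22) (nat_lit 2) (nat_lit 2) (nat_lit 1) true (nat_lit 7) true (nat_lit 11) false (nat_lit 1) true (nat_lit 10) true (nat_lit 10) (.e false (nat_lit 1) (nat_lit 49) (nat_lit 5) (nat_lit 7) (.e false (nat_lit 1) (nat_lit 95) (nat_lit 1) (nat_lit 11) (.e true (nat_lit 1) (nat_lit 75) (nat_lit 2) (nat_lit 10) (.e true (nat_lit 3) (nat_lit 78) (nat_lit 2) (nat_lit 10) (.e false (nat_lit 1) (nat_lit 83) (nat_lit 2) (nat_lit 10) (.e true (nat_lit 1) (nat_lit 85) (nat_lit 2) (nat_lit 10) (.e false (nat_lit 1) (nat_lit 88) (nat_lit 2) (nat_lit 10) (.e false (nat_lit 1) (nat_lit 92) (nat_lit 2) (nat_lit 10) (.u (nat_lit 2) (.n (nat_lit 5) (nat_lit 1) .z) .nil))))))))))) (.nd (.nd (.nd .leaf (nat_lit 22544) (nat_lit 360) (.n (nat_lit 168) (nat_lit 1) (.p (nat_lit 173) (nat_lit 1) .z)) (.ct dD_c277 (nat_lit 1) (nat_lit 0) (.s false (nat_lit 1) (nat_lit 9) (nat_lit 2) (nat_lit 2) (nat_lit 6) true (nat_lit 0) true (nat_lit 4) true (nat_lit 3) true (nat_lit 8) true (nat_lit 8) (.e false (nat_lit 1) (nat_lit 49) (nat_lit 6) (nat_lit 4) (.e true (nat_lit 1) (nat_lit 107) (nat_lit 2) (nat_lit 8) .nil)))) .leaf) (nat_lit 23553) (nat_lit 59) (.n (nat_lit 38) (nat_lit 1) (.p (nat_lit 42) (nat_lit 1) (.n (nat_lit 46) (nat_lit 1) .z))) (.ct dD_c290 (nat_lit 1) (nat_lit 5) (.s false (nat_lit 1) (nat_lit 6) (nat_lit 0) (nat_lit 1) (nat_lit 1) true (nat_lit 3) true (nat_lit 5) true (nat_lit 0) true (nat_lit 6) true (nat_lit 5) (.e false (nat_lit 1) (nat_lit 15) (nat_lit 3) (nat_lit 3) (.e true (nat_lit 1) (nat_lit 7) (nat_lit 6) (nat_lit 0) (.e false (nat_lit 2) (nat_lit 21) (nat_lit 1) (nat_lit 5) (.e false (nat_lit 1) (nat_lit 22) (nat_lit 1) (nat_lit 5) (.e true (nat_lit 1) (nat_lit 24) (nat_lit 1) (nat_lit 5) (.e false (nat_lit 1) (nat_lit 26) (nat_lit 1) (nat_lit 5) .nil)))))))) (.nd .leaf (nat_lit 23554) (nat_lit 64) (.p (nat_lit 50) (nat_lit 1) .z) .df .leaf)) (nat_lit 23557) (nat_lit 145) (.n (nat_lit 73) (nat_lit 3) (.p (nat_lit 74) (nat_lit 1) (.p (nat_lit 75) (nat_lit 3) (.p (nat_lit 76) (nat_lit 3) (.p (nat_lit 77) (nat_lit 1) (.n (nat_lit 78) (nat_lit 2) (.n (nat_lit 79) (nat_lit 2) (.p (nat_lit 80) (nat_lit 2) (.p (nat_lit 81) (nat_lit 2) (.n (nat_lit 82) (nat_lit 1) (.n (nat_lit 83) (nat_lit 2) (.n (nat_lit 84) (nat_lit 1) (.n (nat_lit 85) (nat_lit 1) (.n (nat_lit 87) (nat_lit 3) (.p (nat_lit 88) (nat_lit 1) (.n (nat_lit 90) (nat_lit 1) (.p (nat_lit 91) (nat_lit 2) (.p (nat_lit 92) (nat_lit 1) (.p (nat_lit 93) (nat_lit 3) .z))))))))))))))))))) (.ct dD_c291 (nat_lit 1) (nat_lit 4) (.s true (nat_lit 1) (nat_lit 10) (nat_lit 1) (nat_lit 2) (nat_lit 2) true (nat_lit 4) true (nat_lit 7) true (nat_lit 1) true (nat_lit 8) true (nat_lit 7) (.e true (nat_lit 1) (nat_lit 40) (nat_lit 2) (nat_lit 7) (.e false (nat_lit 1) (nat_lit 14) (nat_lit 10) (nat_lit 1) (.e false (nat_lit 1) (nat_lit 58) (nat_lit 1) (nat_lit 8) (.e false (nat_lit 1) (nat_lit 38) (nat_lit 2) (nat_lit 7) (.e true (nat_lit 1) (nat_lit 42) (nat_lit 2) (nat_lit 7) (.e false (nat_lit 1) (nat_lit 46) (nat_lit 2) (nat_lit 7) (.u (nat_lit 2) (.n (nat_lit 3) (nat_lit 1) (.n (nat_lit 8) (nat_lit 1) (.p (nat_lit 14) (nat_lit 1) (.n (nat_lit 18) (nat_lit 1) .z)))) .nil))))))))) (.nd (.nd .leaf (nat_lit 23558) (nat_lit 173) (.p (nat_lit 108) (nat_lit 1) .z) .df .leaf) (nat_lit 23566) (nat_lit 324) (.n (nat_lit 127) (nat_lit 1) (.n (nat_lit 128) (nat_lit 2) (.n (nat_lit 129) (nat_lit 1) (.p (nat_lit 130) (nat_lit 3) (.n (nat_lit 131) (nat_lit 1) (.n (nat_lit 132) (nat_lit 1) (.p (nat_lit 133) (nat_lit 1) (.n (nat_lit 134) (nat_lit 3) (.n (nat_lit 135) (nat_lit 3) (.p (nat_lit 136) (nat_lit 2) (.n (nat_lit 137) (nat_lit 3) (.p (nat_lit 138) (nat_lit 2) (.n (nat_lit 140) (nat_lit 2) (.n (nat_lit 141) (nat_lit 1) (.p (nat_lit 143) (nat_lit 1) (.n (nat_lit 144) (nat_lit 2) (.p (nat_lit 146) (nat_lit 3) (.p (nat_lit 148) (nat_lit 1) (.p (nat_lit 152) (nat_lit 2) (.p (nat_lit 153) (nat_lit 1) (.n (nat_lit 154) (nat_lit 2) (.n (nat_lit 155) (nat_lit 1) .z)))))))))))))))))))))) (.ct dD_c292 (nat_lit 1) (nat_lit 1) (.s false (nat_lit 1) (nat_lit 23) (nat_lit 2) (nat_lit 1) (nat_lit 2) true (nat_lit 6) true (nat_lit 10) false (nat_lit 1) true (nat_lit 10) true (nat_lit 11) (.e false (nat_lit 1) (nat_lit 38) (nat_lit 6) (nat_lit 6) (.e true (nat_lit 1) (nat_lit 42) (nat_lit 6) (nat_lit 6) (.e false (nat_lit 1) (nat_lit 46) (nat_lit 6) (nat_lit 6) (.e true (nat_lit 3) (nat_lit 73) (nat_lit 2) (nat_lit 10) (.e false (nat_lit 2) (nat_lit 75) (nat_lit 2) (nat_lit 10) (.e true (nat_lit 1) (nat_lit 76) (nat_lit 2) (nat_lit 10) (.e true (nat_lit 3) (nat_lit 77) (nat_lit 2) (nat_lit 10) (.e true (nat_lit 1) (nat_lit 79) (nat_lit 2) (nat_lit 10) (.e false (nat_lit 1) (nat_lit 80) (nat_lit 2) (nat_lit 10) (.e false (nat_lit 1) (nat_lit 81) (nat_lit 2) (nat_lit 10) (.e true (nat_lit 2) (nat_lit 82) (nat_lit 2) (nat_lit 10) (.e false (nat_lit 1) (nat_lit 83) (nat_lit 2) (nat_lit 10) (.e false (nat_lit 2) (nat_lit 84) (nat_lit 2) (nat_lit 10) (.e false (nat_lit 2) (nat_lit 85) (nat_lit 2) (nat_lit 10) (.e false (nat_lit 1) (nat_lit 87) (nat_lit 2) (nat_lit 10) (.e false (nat_lit 2) (nat_lit 90) (nat_lit 2) (nat_lit 10) (.e false (nat_lit 1) (nat_lit 91) (nat_lit 2) (nat_lit 10) (.e true (nat_lit 2) (nat_lit 93) (nat_lit 2) (nat_lit 10) (.e false (nat_lit 2) (nat_lit 78) (nat_lit 2) (nat_lit 10) (.e true (nat_lit 1) (nat_lit 88) (nat_lit 2) (nat_lit 10) (.e true (nat_lit 1) (nat_lit 92) (nat_lit 2) (nat_lit 10) (.e false (nat_lit 1) (nat_lit 96) (nat_lit 1) (nat_lit 11) (.u (nat_lit 2) (.n (nat_lit 0) (nat_lit 1) (.n (nat_lit 4) (nat_lit 1) (.p (nat_lit 8) (nat_lit 1) (.p (nat_lit 11) (nat_lit 2) (.p (nat_lit 14) (nat_lit 1) (.p (nat_lit 17) (nat_lit 1) (.p (nat_lit 18) (nat_lit 1) (.n (nat_lit 20) (nat_lit 1) (.p (nat_lit 96) (nat_lit 1) (.n (nat_lit 98) (nat_lit 1) .z)))))))))) .nil))))))))))))))))))))))))) .leaf))) (nat_lit 23567) (nat_lit 298) (.n (nat_lit 126) (nat_lit 3) (.p (nat_lit 127) (nat_lit 1) (.p (nat_lit 128) (nat_lit 3) (.p (nat_lit 130) (nat_lit 3) (.p (nat_lit 131) (nat_lit 2) (.n (nat_lit 134) (nat_lit 1) (.n (nat_lit 135) (nat_lit 1) (.p (nat_lit 136) (nat_lit 3) (.n (nat_lit 137) (nat_lit 1) (.p (nat_lit 138) (nat_lit 1) (.p (nat_lit 140) (nat_lit 3) (.p (nat_lit 141) (nat_lit 3) (.p (nat_lit 143) (nat_lit 3) (.n (nat_lit 144) (nat_lit 1) (.p (nat_lit 145) (nat_lit 1) (.p (nat_lit 148) (nat_lit 2) (.p (nat_lit 152) (nat_lit 3) (.n (nat_lit 154) (nat_lit 1) (.n (nat_lit 155) (nat_lit 2) .z))))))))))))))))))) (.ct dD_c292 (nat_lit 1) (nat_lit 1) (.s false (nat_lit 1) (nat_lit 23) (nat_lit 2) (nat_lit 2) (nat_lit 1) true (nat_lit 7) true (nat_lit 11) false (nat_lit 1) true (nat_lit 10) true (nat_lit 10) (.e false (nat_lit 1) (nat_lit 50) (nat_lit 5) (nat_lit 7) (.e false (nat_lit 1) (nat_lit 96) (nat_lit 1) (nat_lit 11) (.e true (nat_lit 3) (nat_lit 73) (nat_lit 2) (nat_lit 10) (.e false (nat_lit 2) (nat_lit 74) (nat_lit 2) (nat_lit 10) (.e false (nat_lit 3) (nat_lit 75) (nat_lit 2) (nat_lit 10) (.e false (nat_lit 3) (nat_lit 76) (nat_lit 2) (nat_lit 10) (.e false (nat_lit 1) (nat_lit 77) (nat_lit 2) (nat_lit 10) (.e true (nat_lit 3) (nat_lit 78) (nat_lit 2) (nat_lit 10) (.e true (nat_lit 2) (nat_lit 79) (nat_lit 2) (nat_lit 10) (.e false (nat_lit 2) (nat_lit 80) (nat_lit 2) (nat_lit 10) (.e false (nat_lit 2) (nat_lit 81) (nat_lit 2) (nat_lit 10) (.e true (nat_lit 2) (nat_lit 83) (nat_lit 2) (nat_lit 10) (.e true (nat_lit 1) (nat_lit 84) (nat_lit 2) (nat_lit 10) (.e true (nat_lit 1) (nat_lit 85) (nat_lit 2) (nat_lit 10) (.e true (nat_lit 3) (nat_lit 87) (nat_lit 2) (nat_lit 10) (.e false (nat_lit 1) (nat_lit 88) (nat_lit 2) (nat_lit 10) (.e true (nat_lit 1) (nat_lit 90) (nat_lit 2) (nat_lit 10) (.e false (nat_lit 2) (nat_lit 91) (nat_lit 2) (nat_lit 10) (.e false (nat_lit 1) (nat_lit 92) (nat_lit 2) (nat_lit 10) (.e false (nat_lit 3) (nat_lit 93) (nat_lit 2) (nat_lit 10) (.u (nat_lit 2) (.p (nat_lit 3) (nat_lit 1) (.n (nat_lit 5) (nat_lit 1) (.p (nat_lit 8) (nat_lit 1) (.n (nat_lit 14) (nat_lit 1) (.p (nat_lit 18) (nat_lit 1) .z))))) .nil))))))))))))))))))))))) (.nd (.nd (.nd (.nd .leaf (nat_lit 23568) (nat_lit 361) (.n (nat_lit 169) (nat_lit 1) (.p (nat_lit 174) (nat_lit 1) .z)) (.ct dD_c277 (nat_lit 1) (nat_lit 0) (.s false (nat_lit 1) (nat_lit 10) (nat_lit 2) (nat_lit 2) (nat_lit 6) true (nat_lit 0) true (nat_lit 4) true (nat_lit 3) true (nat_lit 8) true (nat_lit 8) (.e false (nat_lit 1) (nat_lit 50) (nat_lit 6) (nat_lit 4) (.e true (nat_lit 1) (nat_lit 108) (nat_lit 2) (nat_lit 8) .nil)))) .leaf) (nat_lit 24577) (nat_lit 48) (.p (nat_lit 43) (nat_lit 1) .z) .df (.nd .leaf (nat_lit 24578) (nat_lit 65) (.p (nat_lit 51) (nat_lit 1) .z) .df .leaf)) (nat_lit 24581) (nat_lit 147) (.n (nat_lit 73) (nat_lit 2) (.n (nat_lit 74) (nat_lit 3) (.p (nat_lit 75) (nat_lit 3) (.n (nat_lit 76) (nat_lit 3) (.p (nat_lit 77) (nat_lit 1) (.n (nat_lit 79) (nat_lit 2) (.p (nat_lit 80) (nat_lit 1) (.n (nat_lit 81) (nat_lit 3) (.p (nat_lit 82) (nat_lit 2) (.p (nat_lit 83) (nat_lit 2) (.n (nat_lit 84) (nat_lit 3) (.n (nat_lit 85) (nat_lit 1) (.p (nat_lit 86) (nat_lit 1) (.n (nat_lit 88) (nat_lit 3) (.p (nat_lit 90) (nat_lit 2) (.n (nat_lit 93) (nat_lit 2) .z)))))))))))))))) (.ct dD_c291 (nat_lit 1) (nat_lit 4) (.s false (nat_lit 1) (nat_lit 6) (nat_lit 1) (nat_lit 3) (nat_lit 2) true (nat_lit 4) true (nat_lit 7) true (nat_lit 3) true (nat_lit 8) true (nat_lit 6) (.e true (nat_lit 1) (nat_lit 22) (nat_lit 5) (nat_lit 4) (.e false (nat_lit 1) (nat_lit 23) (nat_lit 5) (nat_lit 4) (.e false (nat_lit 1) (nat_lit 26) (nat_lit 5) (nat_lit 4) (.e false (nat_lit 2) (nat_lit 37) (nat_lit 2) (nat_lit 7) (.e true (nat_lit 1) (nat_lit 39) (nat_lit 2) (nat_lit 7) (.e false (nat_lit 1) (nat_lit 40) (nat_lit 2) (nat_lit 7) (.e true (nat_lit 1) (nat_lit 41) (nat_lit 2) (nat_lit 7) (.e true (nat_lit 1) (nat_lit 46) (nat_lit 2) (nat_lit 7) (.e true (nat_lit 1) (nat_lit 17) (nat_lit 6) (nat_lit 3) (.e false (nat_lit 1) (nat_lit 56) (nat_lit 1) (nat_lit 8) (.e true (nat_lit 1) (nat_lit 35) (nat_lit 3) (nat_lit 6) (.u (nat_lit 2) (.p (nat_lit 1) (nat_lit 1) (.p (nat_lit 3) (nat_lit 1) (.p (nat_lit 8) (nat_lit 1) (.n (nat_lit 9) (nat_lit 1) (.n (nat_lit 10) (nat_lit 1) (.n (nat_lit 17) (nat_lit 1) (.p (nat_lit 20) (nat_lit 1) .z))))))) .nil)))))))))))))) (.nd (.nd .leaf (nat_lit 24582) (nat_lit 185) (.n (nat_lit 94) (nat_lit 1) (.p (nat_lit 96) (nat_lit 1) (.p (nat_lit 97) (nat_lit 3) (.p (nat_lit 98) (nat_lit 1) (.p (nat_lit 99) (nat_lit 2) (.p (nat_lit 100) (nat_lit 2) (.p (nat_lit 101) (nat_lit 2) (.p (nat_lit 102) (nat_lit 1) (.n (nat_lit 103) (nat_lit 2) (.n (nat_lit 104) (nat_lit 2) (.n (nat_lit 107) (nat_lit 1) .z))))))))))) (.ct dD_c276 (nat_lit 1) (nat_lit 2) (.s false (nat_lit 1) (nat_lit 12) (nat_lit 2) (nat_lit 1) (nat_lit 2) true (nat_lit 2) true (nat_lit 6) true (nat_lit 0) true (nat_lit 6) true (nat_lit 7) (.e false (nat_lit 1) (nat_lit 54) (nat_lit 2) (nat_lit 6) (.e false (nat_lit 1) (nat_lit 14) (nat_lit 12) (nat_lit 0) (.e false (nat_lit 1) (nat_lit 48) (nat_lit 2) (nat_lit 6) (.e false (nat_lit 1) (nat_lit 49) (nat_lit 2) (nat_lit 6) (.e true (nat_lit 1) (nat_lit 52) (nat_lit 2) (nat_lit 6) (.e false (nat_lit 2) (nat_lit 53) (nat_lit 2) (nat_lit 6) (.e false (nat_lit 1) (nat_lit 55) (nat_lit 2) (nat_lit 6) (.e true (nat_lit 1) (nat_lit 58) (nat_lit 2) (nat_lit 6) (.e false (nat_lit 1) (nat_lit 64) (nat_lit 1) (nat_lit 7) .nil))))))))))) .leaf) (nat_lit 24590) (nat_lit 317) (.p (nat_lit 126) (nat_lit 1) (.p (nat_lit 127) (nat_lit 3) (.n (nat_lit 128) (nat_lit 1) (.p (nat_lit 129) (nat_lit 3) (.n (nat_lit 130) (nat_lit 1) (.n (nat_lit 132) (nat_lit 1) (.p (nat_lit 134) (nat_lit 3) (.p (nat_lit 135) (nat_lit 1) (.p (nat_lit 137) (nat_lit 1) (.p (nat_lit 138) (nat_lit 1) (.p (nat_lit 140) (nat_lit 3) (.p (nat_lit 141) (nat_lit 3) (.n (nat_lit 144) (nat_lit 3) (.p (nat_lit 149) (nat_lit 1) (.n (nat_lit 154) (nat_lit 1) .z))))))))))))))) (.ct dD_c292 (nat_lit 1) (nat_lit 1) dD_i0) .leaf)) (nat_lit 24591) (nat_lit 303) (.p (nat_lit 127) (nat_lit 2) (.n (nat_lit 128) (nat_lit 1) (.p (nat_lit 129) (nat_lit 2) (.n (nat_lit 130) (nat_lit 2) (.n (nat_lit 131) (nat_lit 1) (.p (nat_lit 132) (nat_lit 1) (.n (nat_lit 133) (nat_lit 3) (.p (nat_lit 134) (nat_lit 2) (.p (nat_lit 135) (nat_lit 1) (.p (nat_lit 136) (nat_lit 2) (.p (nat_lit 137) (nat_lit 3) (.p (nat_lit 140) (nat_lit 3) (.p (nat_lit 143) (nat_lit 3) (.n (nat_lit 144) (nat_lit 1) (.p (nat_lit 146) (nat_lit 3) (.n (nat_lit 147) (nat_lit 1) (.p (nat_lit 149) (nat_lit 2) (.n (nat_lit 152) (nat_lit 3) (.n (nat_lit 153) (nat_lit 2) (.p (nat_lit 155) (nat_lit 1) .z)))))))))))))))))))) (.ct dD_c292 (nat_lit 1) (nat_lit 1) (.s false (nat_lit 1) (nat_lit 24) (nat_lit 2) (nat_lit 2) (nat_lit 1) true (nat_lit 7) true (nat_lit 11) false (nat_lit 1) true (nat_lit 10) true (nat_lit 10) (.e false (nat_lit 1) (nat_lit 51) (nat_lit 5) (nat_lit 7) (.e false (nat_lit 1) (nat_lit 97) (nat_lit 1) (nat_lit 11) (.e true (nat_lit 2) (nat_lit 73) (nat_lit 2) (nat_lit 10) (.e true (nat_lit 3) (nat_lit 74) (nat_lit 2) (nat_lit 10) (.e false (nat_lit 3) (nat_lit 75) (nat_lit 2) (nat_lit 10) (.e true (nat_lit 3) (nat_lit 76) (nat_lit 2) (nat_lit 10) (.e false (nat_lit 1) (nat_lit 77) (nat_lit 2) (nat_lit 10) (.e true (nat_lit 3) (nat_lit 79) (nat_lit 2) (nat_lit 10) (.e false (nat_lit 1) (nat_lit 80) (nat_lit 2) (nat_lit 10) (.e true (nat_lit 3) (nat_lit 81) (nat_lit 2) (nat_lit 10) (.e false (nat_lit 2) (nat_lit 82) (nat_lit 2) (nat_lit 10) (.e false (nat_lit 2) (nat_lit 83) (nat_lit 2) (nat_lit 10) (.e true (nat_lit 3) (nat_lit 84) (nat_lit 2) (nat_lit 10) (.e true (nat_lit 1) (nat_lit 85) (nat_lit 2) (nat_lit 10) (.e false (nat_lit 1) (nat_lit 86) (nat_lit 2) (nat_lit 10) (.e true (nat_lit 3) (nat_lit 88) (nat_lit 2) (nat_lit 10) (.e false (nat_lit 2) (nat_lit 90) (nat_lit 2) (nat_lit 10) (.e true (nat_lit 2) (nat_lit 93) (nat_lit 2) (nat_lit 10) (.u (nat_lit 2) (.n (nat_lit 1) (nat_lit 1) (.p (nat_lit 2) (nat_lit 1) (.n (nat_lit 3) (nat_lit 1) (.n (nat_lit 6) (nat_lit 1) (.p (nat_lit 7) (nat_lit 1) (.n (nat_lit 8) (nat_lit 1) (.n (nat_lit 11) (nat_lit 1) (.n (nat_lit 20) (nat_lit 1) .z)))))))) .nil))))))))))))))))))))) (.nd (.nd (.nd .leaf (nat_lit 24592) (nat_lit 377) (.n (nat_lit 156) (nat_lit 1) (.p (nat_lit 157) (nat_lit 1) (.p (nat_lit 158) (nat_lit 3) (.p (nat_lit 160) (nat_lit 1) (.n (nat_lit 162) (nat_lit 2) (.n (nat_lit 163) (nat_lit 2) (.n (nat_lit 164) (nat_lit 2) (.p (nat_lit 165) (nat_lit 1) (.n (nat_lit 166) (nat_lit 3) (.p (nat_lit 168) (nat_lit 2) (.n (nat_lit 173) (nat_lit 1) .z))))))))))) (.ct dD_c277 (nat_lit 1) (nat_lit 0) (.s false (nat_lit 1) (nat_lit 24) (nat_lit 2) (nat_lit 2) (nat_lit 2) true (nat_lit 4) true (nat_lit 8) false (nat_lit 0) true (nat_lit 8) true (nat_lit 8) (.e false (nat_lit 1) (nat_lit 51) (nat_lit 6) (nat_lit 4) (.e true (nat_lit 3) (nat_lit 97) (nat_lit 2) (nat_lit 8) (.e false (nat_lit 1) (nat_lit 94) (nat_lit 2) (nat_lit 8) (.e true (nat_lit 1) (nat_lit 96) (nat_lit 2) (nat_lit 8) (.e true (nat_lit 1) (nat_lit 98) (nat_lit 2) (nat_lit 8) (.e true (nat_lit 2) (nat_lit 99) (nat_lit 2) (nat_lit 8) (.e true (nat_lit 2) (nat_lit 100) (nat_lit 2) (nat_lit 8) (.e true (nat_lit 2) (nat_lit 101) (nat_lit 2) (nat_lit 8) (.e true (nat_lit 1) (nat_lit 102) (nat_lit 2) (nat_lit 8) (.e false (nat_lit 2) (nat_lit 103) (nat_lit 2) (nat_lit 8) (.e false (nat_lit 2) (nat_lit 104) (nat_lit 2) (nat_lit 8) (.e false (nat_lit 1) (nat_lit 107) (nat_lit 2) (nat_lit 8) (.u (nat_lit 2) (.n (nat_lit 2) (nat_lit 1) (.p (nat_lit 10) (nat_lit 1) .z)) .nil))))))))))))))) .leaf) (nat_lit 25601) (nat_lit 57) (.n (nat_lit 37) (nat_lit 2) (.n (nat_lit 38) (nat_lit 1) (.n (nat_lit 40) (nat_lit 1) (.p (nat_lit 42) (nat_lit 1) (.p (nat_lit 43) (nat_lit 2) (.p (nat_lit 45) (nat_lit 1) (.n (nat_lit 47) (nat_lit 1) .z))))))) (.ct dD_c290 (nat_lit 1) (nat_lit 5) (.s true (nat_lit 1) (nat_lit 4) (nat_lit 1) (nat_lit 1) (nat_lit 2) true (nat_lit 1) true (nat_lit 4) true (nat_lit 2) true (nat_lit 5) true (nat_lit 5) (.e true (nat_lit 1) (nat_lit 9) (nat_lit 5) (nat_lit 1) (.e true (nat_lit 1) (nat_lit 19) (nat_lit 2) (nat_lit 4) (.e false (nat_lit 1) (nat_lit 21) (nat_lit 1) (nat_lit 5) (.e false (nat_lit 1) (nat_lit 22) (nat_lit 1) (nat_lit 5) (.e false (nat_lit 1) (nat_lit 26) (nat_lit 1) (nat_lit 5) (.e false (nat_lit 1) (nat_lit 24) (nat_lit 1) (nat_lit 5) .nil)))))))) .leaf) (nat_lit 25602) (nat_lit 66) (.p (nat_lit 52) (nat_lit 1) .z) .df (.nd (.nd .leaf (nat_lit 25605) (nat_lit 153) (.n (nat_lit 73) (nat_lit 2) (.n (nat_lit 74) (nat_lit 1) (.n (nat_lit 75) (nat_lit 3) (.p (nat_lit 77) (nat_lit 3) (.p (nat_lit 78) (nat_lit 2) (.p (nat_lit 79) (nat_lit 3) (.p (nat_lit 80) (nat_lit 2) (.n (nat_lit 81) (nat_lit 1) (.n (nat_lit 82) (nat_lit 2) (.p (nat_lit 83) (nat_lit 2) (.p (nat_lit 85) (nat_lit 2) (.p (nat_lit 86) (nat_lit 2) (.p (nat_lit 87) (nat_lit 3) (.n (nat_lit 88) (nat_lit 1) (.n (nat_lit 90) (nat_lit 3) (.p (nat_lit 91) (nat_lit 2) (.n (nat_lit 92) (nat_lit 3) (.n (nat_lit 93) (nat_lit 3) .z)))))))))))))))))) (.ct dD_c291 (nat_lit 1) (nat_lit 4) (.s true (nat_lit 1) (nat_lit 13) (nat_lit 1) (nat_lit 1) (nat_lit 2) true (nat_lit 4) true (nat_lit 7) false (nat_lit 0) true (nat_lit 8) true (nat_lit 8) (.e false (nat_lit 2) (nat_lit 37) (nat_lit 2) (nat_lit 7) (.e false (nat_lit 1) (nat_lit 38) (nat_lit 2) (nat_lit 7) (.e false (nat_lit 1) (nat_lit 40) (nat_lit 2) (nat_lit 7) (.e true (nat_lit 1) (nat_lit 42) (nat_lit 2) (nat_lit 7) (.e true (nat_lit 2) (nat_lit 43) (nat_lit 2) (nat_lit 7) (.e true (nat_lit 1) (nat_lit 45) (nat_lit 2) (nat_lit 7) (.e false (nat_lit 1) (nat_lit 47) (nat_lit 2) (nat_lit 7) (.e false (nat_lit 3) (nat_lit 48) (nat_lit 1) (nat_lit 8) (.e false (nat_lit 3) (nat_lit 49) (nat_lit 1) (nat_lit 8) (.e false (nat_lit 3) (nat_lit 52) (nat_lit 1) (nat_lit 8) (.e false (nat_lit 3) (nat_lit 53) (nat_lit 1) (nat_lit 8) (.e false (nat_lit 1) (nat_lit 57) (nat_lit 1) (nat_lit 8) (.e false (nat_lit 1) (nat_lit 56) (nat_lit 1) (nat_lit 8) (.e false (nat_lit 1) (nat_lit 58) (nat_lit 1) (nat_lit 8) (.u (nat_lit 2) (.p (nat_lit 0) (nat_lit 1) (.p (nat_lit 1) (nat_lit 1) (.p (nat_lit 2) (nat_lit 2) (.n (nat_lit 3) (nat_lit 1) (.p (nat_lit 4) (nat_lit 2) (.p (nat_lit 6) (nat_lit 2) (.n (nat_lit 7) (nat_lit 3) (.n (nat_lit 8) (nat_lit 3) (.p (nat_lit 9) (nat_lit 2) (.p (nat_lit 12) (nat_lit 1) (.p (nat_lit 13) (nat_lit 1) (.p (nat_lit 14) (nat_lit 1) (.n (nat_lit 17) (nat_lit 1) (.p (nat_lit 18) (nat_lit 2) (.n (nat_lit 57) (nat_lit 1) (.n (nat_lit 58) (nat_lit 1) (.n (nat_lit 62) (nat_lit 1) .z))))))))))))))))) .nil))))))))))))))))) .leaf) (nat_lit 25606) (nat_lit 197) (.p (nat_lit 94) (nat_lit 3) (.p (nat_lit 95) (nat_lit 3) (.n (nat_lit 98) (nat_lit 3) (.p (nat_lit 99) (nat_lit 3) (.n (nat_lit 102) (nat_lit 1) (.p (nat_lit 103) (nat_lit 1) (.p (nat_lit 104) (nat_lit 1) (.p (nat_lit 106) (nat_lit 1) (.p (nat_lit 107) (nat_lit 1) (.n (nat_lit 108) (nat_lit 1) .z)))))))))) (.ct dD_c276 (nat_lit 1) (nat_lit 2) (.s false (nat_lit 1) (nat_lit 13) (nat_lit 2) (nat_lit 1) (nat_lit 2) true (nat_lit 2) true (nat_lit 6) true (nat_lit 0) true (nat_lit 6) true (nat_lit 7) (.e false (nat_lit 3) (nat_lit 48) (nat_lit 2) (nat_lit 6) (.e false (nat_lit 3) (nat_lit 49) (nat_lit 2) (nat_lit 6) (.e false (nat_lit 3) (nat_lit 52) (nat_lit 2) (nat_lit 6) (.e false (nat_lit 3) (nat_lit 53) (nat_lit 2) (nat_lit 6) (.e false (nat_lit 1) (nat_lit 56) (nat_lit 2) (nat_lit 6) (.e false (nat_lit 1) (nat_lit 58) (nat_lit 2) (nat_lit 6) (.e false (nat_lit 1) (nat_lit 14) (nat_lit 13) (nat_lit 0) (.e false (nat_lit 1) (nat_lit 57) (nat_lit 2) (nat_lit 6) (.e false (nat_lit 1) (nat_lit 65) (nat_lit 1) (nat_lit 7) (.u (nat_lit 2) (.p (nat_lit 4) (nat_lit 1) (.n (nat_lit 36) (nat_lit 1) (.n (nat_lit 37) (nat_lit 1) (.n (nat_lit 41) (nat_lit 1) .z)))) .nil)))))))))))) .leaf)))) (nat_lit 25614) (nat_lit 331) (.p (nat_lit 126) (nat_lit 2) (.n (nat_lit 127) (nat_lit 1) (.n (nat_lit 129) (nat_lit 1) (.p (nat_lit 130) (nat_lit 1) (.n (nat_lit 131) (nat_lit 1) (.p (nat_lit 132) (nat_lit 1) (.n (nat_lit 133) (nat_lit 3) (.p (nat_lit 135) (nat_lit 1) (.p (nat_lit 136) (nat_lit 2) (.n (nat_lit 138) (nat_lit 1) (.p (nat_lit 140) (nat_lit 3) (.n (nat_lit 141) (nat_lit 3) (.n (nat_lit 143) (nat_lit 2) (.p (nat_lit 144) (nat_lit 2) (.p (nat_lit 146) (nat_lit 1) (.n (nat_lit 147) (nat_lit 1) (.p (nat_lit 149) (nat_lit 2) (.n (nat_lit 152) (nat_lit 2) (.p (nat_lit 154) (nat_lit 1) (.p (nat_lit 155) (nat_lit 1) .z)))))))))))))))))))) (.ct dD_c292 (nat_lit 1) (nat_lit 1) (.s false (nat_lit 1) (nat_lit 14) (nat_lit 0) (nat_lit 2) (nat_lit 5) true (nat_lit 4) true (nat_lit 7) true (nat_lit 1) true (nat_lit 12) true (nat_lit 10) (.e false (nat_lit 1) (nat_lit 33) (nat_lit 10) (nat_lit 4) (.e false (nat_lit 1) (nat_lit 53) (nat_lit 5) (nat_lit 7) (.e false (nat_lit 1) (nat_lit 21) (nat_lit 14) (nat_lit 1) (.e false (nat_lit 1) (nat_lit 22) (nat_lit 14) (nat_lit 1) (.e false (nat_lit 1) (nat_lit 26) (nat_lit 14) (nat_lit 1) (.e true (nat_lit 2) (nat_lit 74) (nat_lit 2) (nat_lit 10) (.e true (nat_lit 3) (nat_lit 77) (nat_lit 2) (nat_lit 10) (.e true (nat_lit 1) (nat_lit 78) (nat_lit 2) (nat_lit 10) (.e false (nat_lit 1) (nat_lit 79) (nat_lit 2) (nat_lit 10) (.e true (nat_lit 2) (nat_lit 80) (nat_lit 2) (nat_lit 10) (.e false (nat_lit 2) (nat_lit 81) (nat_lit 2) (nat_lit 10) (.e true (nat_lit 3) (nat_lit 83) (nat_lit 2) (nat_lit 10) (.e true (nat_lit 2) (nat_lit 84) (nat_lit 2) (nat_lit 10) (.e true (nat_lit 1) (nat_lit 85) (nat_lit 2) (nat_lit 10) (.e false (nat_lit 1) (nat_lit 86) (nat_lit 2) (nat_lit 10) (.e true (nat_lit 3) (nat_lit 90) (nat_lit 2) (nat_lit 10) (.e true (nat_lit 3) (nat_lit 91) (nat_lit 2) (nat_lit 10) (.e false (nat_lit 1) (nat_lit 92) (nat_lit 2) (nat_lit 10) (.e true (nat_lit 3) (nat_lit 82) (nat_lit 2) (nat_lit 10) (.e false (nat_lit 1) (nat_lit 87) (nat_lit 2) (nat_lit 10) (.e true (nat_lit 3) (nat_lit 73) (nat_lit 2) (nat_lit 10) (.u (nat_lit 2) (.n (nat_lit 0) (nat_lit 1) (.n (nat_lit 1) (nat_lit 1) (.n (nat_lit 4) (nat_lit 1) (.p (nat_lit 8) (nat_lit 1) (.n (nat_lit 10) (nat_lit 1) (.p (nat_lit 12) (nat_lit 1) (.p (nat_lit 15) (nat_lit 1) (.n (nat_lit 28) (nat_lit 1) (.p (nat_lit 98) (nat_lit 1) (.p (nat_lit 100) (nat_lit 1) (.n (nat_lit 101) (nat_lit 1) (.p (nat_lit 103) (nat_lit 1) (.p (nat_lit 105) (nat_lit 1) (.p (nat_lit 106) (nat_lit 1) (.p (nat_lit 114) (nat_lit 1) (.p (nat_lit 115) (nat_lit 1) (.n (nat_lit 116) (nat_lit 1) .z))))))))))))))))) .nil)))))))))))))))))))))))) (.nd (.nd (.nd (.nd (.nd .leaf (nat_lit 25615) (nat_lit 310) (.p (nat_lit 126) (nat_lit 3) (.p (nat_lit 128) (nat_lit 2) (.p (nat_lit 130) (nat_lit 2) (.p (nat_lit 131) (nat_lit 1) (.p (nat_lit 133) (nat_lit 3) (.n (nat_lit 134) (nat_lit 2) (.n (nat_lit 135) (nat_lit 1) (.n (nat_lit 136) (nat_lit 2) (.p (nat_lit 138) (nat_lit 2) (.n (nat_lit 140) (nat_lit 3) (.n (nat_lit 141) (nat_lit 1) (.p (nat_lit 143) (nat_lit 2) (.p (nat_lit 144) (nat_lit 1) (.n (nat_lit 145) (nat_lit 2) (.n (nat_lit 146) (nat_lit 3) (.n (nat_lit 147) (nat_lit 2) (.n (nat_lit 149) (nat_lit 3) (.p (nat_lit 153) (nat_lit 2) (.n (nat_lit 154) (nat_lit 3) (.p (nat_lit 155) (nat_lit 2) .z)))))))))))))))))))) (.ct dD_c292 (nat_lit 1) (nat_lit 1) (.s false (nat_lit 1) (nat_lit 25) (nat_lit 2) (nat_lit 2) (nat_lit 1) true (nat_lit 7) true (nat_lit 11) false (nat_lit 1) true (nat_lit 10) true (nat_lit 10) (.e false (nat_lit 1) (nat_lit 52) (nat_lit 5) (nat_lit 7) (.e false (nat_lit 1) (nat_lit 98) (nat_lit 1) (nat_lit 11) (.e true (nat_lit 3) (nat_lit 75) (nat_lit 2) (nat_lit 10) (.e false (nat_lit 3) (nat_lit 77) (nat_lit 2) (nat_lit 10) (.e false (nat_lit 1) (nat_lit 78) (nat_lit 2) (nat_lit 10) (.e false (nat_lit 1) (nat_lit 79) (nat_lit 2) (nat_lit 10) (.e false (nat_lit 2) (nat_lit 80) (nat_lit 2) (nat_lit 10) (.e true (nat_lit 2) (nat_lit 81) (nat_lit 2) (nat_lit 10) (.e true (nat_lit 2) (nat_lit 82) (nat_lit 2) (nat_lit 10) (.e false (nat_lit 3) (nat_lit 83) (nat_lit 2) (nat_lit 10) (.e false (nat_lit 2) (nat_lit 85) (nat_lit 2) (nat_lit 10) (.e false (nat_lit 2) (nat_lit 86) (nat_lit 2) (nat_lit 10) (.e false (nat_lit 3) (nat_lit 87) (nat_lit 2) (nat_lit 10) (.e true (nat_lit 1) (nat_lit 88) (nat_lit 2) (nat_lit 10) (.e true (nat_lit 3) (nat_lit 90) (nat_lit 2) (nat_lit 10) (.e false (nat_lit 2) (nat_lit 91) (nat_lit 2) (nat_lit 10) (.e true (nat_lit 3) (nat_lit 92) (nat_lit 2) (nat_lit 10) (.e true (nat_lit 3) (nat_lit 93) (nat_lit 2) (nat_lit 10) (.e false (nat_lit 1) (nat_lit 76) (nat_lit 2) (nat_lit 10) (.u (nat_lit 2) (.n (nat_lit 0) (nat_lit 1) (.n (nat_lit 2) (nat_lit 1) (.n (nat_lit 9) (nat_lit 1) (.p (nat_lit 10) (nat_lit 1) (.p (nat_lit 14) (nat_lit 1) (.n (nat_lit 17) (nat_lit 1) (.p (nat_lit 23) (nat_lit 1) (.p (nat_lit 28) (nat_lit 1) .z)))))))) .nil)))))))))))))))))))))) .leaf) (nat_lit 25616) (nat_lit 380) (.n (nat_lit 156) (nat_lit 2) (.p (nat_lit 158) (nat_lit 1) (.p (nat_lit 159) (nat_lit 1) (.p (nat_lit 160) (nat_lit 1) (.n (nat_lit 161) (nat_lit 2) (.n (nat_lit 162) (nat_lit 1) (.n (nat_lit 163) (nat_lit 1) (.p (nat_lit 164) (nat_lit 1) (.p (nat_lit 165) (nat_lit 2) (.p (nat_lit 166) (nat_lit 1) (.n (nat_lit 168) (nat_lit 3) (.p (nat_lit 169) (nat_lit 1) (.p (nat_lit 172) (nat_lit 1) (.n (nat_lit 174) (nat_lit 1) .z)))))))))))))) (.ct dD_c277 (nat_lit 1) (nat_lit 0) (.s true (nat_lit 1) (nat_lit 16) (nat_lit 6) (nat_lit 0) (nat_lit 1) true (nat_lit 1) true (nat_lit 9) true (nat_lit 0) true (nat_lit 4) true (nat_lit 10) (.e false (nat_lit 1) (nat_lit 32) (nat_lit 15) (nat_lit 1) (.e true (nat_lit 1) (nat_lit 49) (nat_lit 6) (nat_lit 4) (.e false (nat_lit 1) (nat_lit 50) (nat_lit 6) (nat_lit 4) (.e true (nat_lit 1) (nat_lit 51) (nat_lit 6) (nat_lit 4) (.e false (nat_lit 1) (nat_lit 53) (nat_lit 6) (nat_lit 4) (.e false (nat_lit 1) (nat_lit 56) (nat_lit 6) (nat_lit 4) (.e false (nat_lit 1) (nat_lit 125) (nat_lit 0) (nat_lit 10) (.u (nat_lit 2) (.p (nat_lit 0) (nat_lit 1) (.n (nat_lit 3) (nat_lit 1) (.n (nat_lit 4) (nat_lit 1) .z))) .nil)))))))))) (.nd .leaf (nat_lit 26625) (nat_lit 56) (.n (nat_lit 37) (nat_lit 2) (.n (nat_lit 38) (nat_lit 1) (.p (nat_lit 39) (nat_lit 1) (.n (nat_lit 40) (nat_lit 1) (.n (nat_lit 41) (nat_lit 1) (.p (nat_lit 43) (nat_lit 1) (.p (nat_lit 45) (nat_lit 1) .z))))))) (.ct dD_c290 (nat_lit 1) (nat_lit 5) (.s false (nat_lit 3) (nat_lit 3) (nat_lit 1) (nat_lit 2) (nat_lit 2) true (nat_lit 1) true (nat_lit 4) true (nat_lit 3) true (nat_lit 5) true (nat_lit 4) (.s false (nat_lit 3) (nat_lit 6) (nat_lit 0) (nat_lit 1) (nat_lit 1) true (nat_lit 3) true (nat_lit 5) true (nat_lit 0) true (nat_lit 6) true (nat_lit 5) (.e false (nat_lit 3) (nat_lit 8) (nat_lit 5) (nat_lit 1) (.e false (nat_lit 3) (nat_lit 17) (nat_lit 2) (nat_lit 4) (.e true (nat_lit 3) (nat_lit 14) (nat_lit 3) (nat_lit 3) (.e false (nat_lit 1) (nat_lit 24) (nat_lit 1) (nat_lit 5) (.e false (nat_lit 3) (nat_lit 18) (nat_lit 2) (nat_lit 4) (.e false (nat_lit 3) (nat_lit 15) (nat_lit 3) (nat_lit 3) (.e true (nat_lit 3) (nat_lit 7) (nat_lit 6) (nat_lit 0) (.e true (nat_lit 1) (nat_lit 21) (nat_lit 1) (nat_lit 5) (.u (nat_lit 2) (.p (nat_lit 0) (nat_lit 2) (.p (nat_lit 1) (nat_lit 1) (.n (nat_lit 2) (nat_lit 1) (.p (nat_lit 3) (nat_lit 1) (.n (nat_lit 8) (nat_lit 1) (.p (nat_lit 22) (nat_lit 1) (.n (nat_lit 25) (nat_lit 1) (.p (nat_lit 27) (nat_lit 1) .z)))))))) .nil)))))))))))) .leaf)) (nat_lit 26626) (nat_lit 67) (.p (nat_lit 53) (nat_lit 1) .z) .df (.nd (.nd .leaf (nat_lit 26629) (nat_lit 139) (.n (nat_lit 73) (nat_lit 1) (.p (nat_lit 74) (nat_lit 1) (.n (nat_lit 77) (nat_lit 1) (.n (nat_lit 80) (nat_lit 1) (.p (nat_lit 81) (nat_lit 3) (.n (nat_lit 82) (nat_lit 3) (.n (nat_lit 83) (nat_lit 2) (.n (nat_lit 84) (nat_lit 2) (.n (nat_lit 85) (nat_lit 1) (.p (nat_lit 86) (nat_lit 1) (.p (nat_lit 87) (nat_lit 3) (.n (nat_lit 88) (nat_lit 3) (.n (nat_lit 90) (nat_lit 3) (.n (nat_lit 91) (nat_lit 2) (.p (nat_lit 93) (nat_lit 1) .z))))))))))))))) (.ct dD_c291 (nat_lit 1) (nat_lit 4) (.s false (nat_lit 1) (nat_lit 5) (nat_lit 1) (nat_lit 4) (nat_lit 2) true (nat_lit 4) true (nat_lit 7) true (nat_lit 4) true (nat_lit 8) true (nat_lit 5) (.s true (nat_lit 1) (nat_lit 6) (nat_lit 2) (nat_lit 1) (nat_lit 3) true (nat_lit 1) true (nat_lit 6) true (nat_lit 3) true (nat_lit 7) true (nat_lit 8) (.s true (nat_lit 2) (nat_lit 6) (nat_lit 4) (nat_lit 1) (nat_lit 1) true (nat_lit 1) true (nat_lit 8) true (nat_lit 3) true (nat_lit 5) true (nat_lit 8) (.s true (nat_lit 1) (nat_lit 13) (nat_lit 1) (nat_lit 1) (nat_lit 2) true (nat_lit 4) true (nat_lit 7) false (nat_lit 0) true (nat_lit 8) true (nat_lit 8) (.s true (nat_lit 1) (nat_lit 14) (nat_lit 0) (nat_lit 1) (nat_lit 2) true (nat_lit 5) true (nat_lit 7) false (nat_lit 1) true (nat_lit 9) true (nat_lit 8) (.s true (nat_lit 1) (nat_lit 14) (nat_lit 0) (nat_lit 2) (nat_lit 1) true (nat_lit 6) true (nat_lit 8) false (nat_lit 1) true (nat_lit 9) true (nat_lit 7) (.s true (nat_lit 2) (nat_lit 16) (nat_lit 0) (nat_lit 1) (nat_lit 1) true (nat_lit 6) true (nat_lit 8) false (nat_lit 2) true (nat_lit 9) true (nat_lit 8) dD_i1)))))))) .leaf) (nat_lit 26630) (nat_lit 194) (.n (nat_lit 94) (nat_lit 1) (.p (nat_lit 96) (nat_lit 1) (.p (nat_lit 97) (nat_lit 3) (.p (nat_lit 98) (nat_lit 1) (.p (nat_lit 99) (nat_lit 2) (.p (nat_lit 100) (nat_lit 2) (.p (nat_lit 101) (nat_lit 2) (.n (nat_lit 102) (nat_lit 1) (.n (nat_lit 103) (nat_lit 2) (.n (nat_lit 104) (nat_lit 2) (.n (nat_lit 108) (nat_lit 1) .z))))))))))) (.ct dD_c276 (nat_lit 1) (nat_lit 2) (.s false (nat_lit 1) (nat_lit 6) (nat_lit 2) (nat_lit 3) (nat_lit 2) true (nat_lit 2) true (nat_lit 6) true (nat_lit 2) true (nat_lit 6) true (nat_lit 5) (.e false (nat_lit 1) (nat_lit 22) (nat_lit 6) (nat_lit 2) (.e true (nat_lit 1) (nat_lit 23) (nat_lit 6) (nat_lit 2) (.e false (nat_lit 1) (nat_lit 24) (nat_lit 6) (nat_lit 2) (.e false (nat_lit 1) (nat_lit 49) (nat_lit 2) (nat_lit 6) (.e true (nat_lit 1) (nat_lit 50) (nat_lit 2) (nat_lit 6) (.e false (nat_lit 1) (nat_lit 51) (nat_lit 2) (nat_lit 6) (.e true (nat_lit 1) (nat_lit 53) (nat_lit 2) (nat_lit 6) (.e true (nat_lit 2) (nat_lit 56) (nat_lit 2) (nat_lit 6) (.e true (nat_lit 1) (nat_lit 21) (nat_lit 6) (nat_lit 2) (.e false (nat_lit 1) (nat_lit 36) (nat_lit 3) (nat_lit 5) .nil)))))))))))) .leaf)) (nat_lit 26638) (nat_lit 327) (.n (nat_lit 126) (nat_lit 3) (.n (nat_lit 127) (nat_lit 1) (.p (nat_lit 129) (nat_lit 2) (.n (nat_lit 130) (nat_lit 1) (.p (nat_lit 132) (nat_lit 1) (.n (nat_lit 133) (nat_lit 2) (.n (nat_lit 134) (nat_lit 1) (.p (nat_lit 135) (nat_lit 1) (.p (nat_lit 136) (nat_lit 3) (.p (nat_lit 137) (nat_lit 3) (.p (nat_lit 138) (nat_lit 1) (.n (nat_lit 140) (nat_lit 1) (.p (nat_lit 141) (nat_lit 3) (.n (nat_lit 144) (nat_lit 1) (.p (nat_lit 146) (nat_lit 3) (.n (nat_lit 147) (nat_lit 1) (.p (nat_lit 149) (nat_lit 1) (.n (nat_lit 152) (nat_lit 3) (.n (nat_lit 153) (nat_lit 3) (.n (nat_lit 154) (nat_lit 1) .z)))))))))))))))))))) (.ct dD_c292 (nat_lit 1) (nat_lit 1) (.s true (nat_lit 1) (nat_lit 14) (nat_lit 2) (nat_lit 2) (nat_lit 3) true (nat_lit 4) true (nat_lit 9) true (nat_lit 1) true (nat_lit 10) true (nat_lit 10) (.e false (nat_lit 1) (nat_lit 33) (nat_lit 8) (nat_lit 4) (.e true (nat_lit 1) (nat_lit 68) (nat_lit 3) (nat_lit 9) (.e false (nat_lit 1) (nat_lit 22) (nat_lit 14) (nat_lit 1) (.e true (nat_lit 1) (nat_lit 23) (nat_lit 14) (nat_lit 1) (.e false (nat_lit 1) (nat_lit 24) (nat_lit 14) (nat_lit 1) (.e true (nat_lit 2) (nat_lit 77) (nat_lit 2) (nat_lit 10) (.e false (nat_lit 1) (nat_lit 82) (nat_lit 2) (nat_lit 10) (.e true (nat_lit 1) (nat_lit 84) (nat_lit 2) (nat_lit 10) (.e false (nat_lit 1) (nat_lit 91) (nat_lit 2) (nat_lit 10) (.e true (nat_lit 1) (nat_lit 73) (nat_lit 2) (nat_lit 10) (.e true (nat_lit 1) (nat_lit 74) (nat_lit 2) (nat_lit 10) (.e false (nat_lit 1) (nat_lit 75) (nat_lit 2) (nat_lit 10) (.e true (nat_lit 1) (nat_lit 76) (nat_lit 2) (nat_lit 10) (.e false (nat_lit 1) (nat_lit 81) (nat_lit 2) (nat_lit 10) (.u (nat_lit 2) (.n (nat_lit 4) (nat_lit 1) (.p (nat_lit 8) (nat_lit 1) (.n (nat_lit 10) (nat_lit 1) (.p (nat_lit 11) (nat_lit 1) (.p (nat_lit 14) (nat_lit 1) (.p (nat_lit 18) (nat_lit 1) (.n (nat_lit 20) (nat_lit 1) (.p (nat_lit 27) (nat_lit 1) .z)))))))) .nil))))))))))))))))) (.nd (.nd (.nd .leaf (nat_lit 26639) (nat_lit 306) (.n (nat_lit 126) (nat_lit 3) (.p (nat_lit 127) (nat_lit 3) (.p (nat_lit 128) (nat_lit 2) (.n (nat_lit 129) (nat_lit 1) (.n (nat_lit 131) (nat_lit 1) (.n (nat_lit 132) (nat_lit 2) (.p (nat_lit 134) (nat_lit 2) (.n (nat_lit 135) (nat_lit 3) (.p (nat_lit 136) (nat_lit 1) (.n (nat_lit 140) (nat_lit 1) (.n (nat_lit 143) (nat_lit 1) (.n (nat_lit 144) (nat_lit 3) (.p (nat_lit 146) (nat_lit 1) (.n (nat_lit 147) (nat_lit 2) (.p (nat_lit 149) (nat_lit 2) (.p (nat_lit 152) (nat_lit 3) (.n (nat_lit 153) (nat_lit 3) .z))))))))))))))))) (.ct dD_c292 (nat_lit 1) (nat_lit 1) (.s true (nat_lit 1) (nat_lit 6) (nat_lit 1) (nat_lit 3) (nat_lit 6) true (nat_lit 1) true (nat_lit 6) true (nat_lit 6) true (nat_lit 11) true (nat_lit 9) (.e false (nat_lit 1) (nat_lit 22) (nat_lit 15) (nat_lit 1) (.e true (nat_lit 1) (nat_lit 23) (nat_lit 15) (nat_lit 1) (.e false (nat_lit 1) (nat_lit 24) (nat_lit 15) (nat_lit 1) (.e true (nat_lit 2) (nat_lit 37) (nat_lit 6) (nat_lit 6) (.e false (nat_lit 1) (nat_lit 39) (nat_lit 6) (nat_lit 6) (.e true (nat_lit 1) (nat_lit 40) (nat_lit 6) (nat_lit 6) (.e false (nat_lit 1) (nat_lit 41) (nat_lit 6) (nat_lit 6) (.e false (nat_lit 1) (nat_lit 46) (nat_lit 6) (nat_lit 6) (.e false (nat_lit 1) (nat_lit 45) (nat_lit 6) (nat_lit 6) (.e true (nat_lit 2) (nat_lit 102) (nat_lit 1) (nat_lit 11) (.u (nat_lit 2) (.n (nat_lit 1) (nat_lit 1) (.n (nat_lit 2) (nat_lit 1) (.p (nat_lit 9) (nat_lit 1) (.p (nat_lit 14) (nat_lit 1) (.p (nat_lit 17) (nat_lit 1) (.n (nat_lit 26) (nat_lit 2) .z)))))) .nil))))))))))))) .leaf) (nat_lit 26640) (nat_lit 374) (.n (nat_lit 156) (nat_lit 1) (.p (nat_lit 157) (nat_lit 2) (.p (nat_lit 158) (nat_lit 2) (.p (nat_lit 159) (nat_lit 1) (.p (nat_lit 160) (nat_lit 1) (.n (nat_lit 161) (nat_lit 1) (.n (nat_lit 162) (nat_lit 2) (.n (nat_lit 163) (nat_lit 2) (.p (nat_lit 164) (nat_lit 2) (.n (nat_lit 165) (nat_lit 3) (.p (nat_lit 166) (nat_lit 1) (.p (nat_lit 169) (nat_lit 2) (.n (nat_lit 174) (nat_lit 1) .z))))))))))))) (.ct dD_c277 (nat_lit 1) (nat_lit 0) (.s false (nat_lit 1) (nat_lit 26) (nat_lit 2) (nat_lit 2) (nat_lit 2) true (nat_lit 4) true (nat_lit 8) false (nat_lit 0) true (nat_lit 8) true (nat_lit 8) (.e false (nat_lit 1) (nat_lit 53) (nat_lit 6) (nat_lit 4) (.e true (nat_lit 2) (nat_lit 99) (nat_lit 2) (nat_lit 8) (.e false (nat_lit 1) (nat_lit 94) (nat_lit 2) (nat_lit 8) (.e true (nat_lit 1) (nat_lit 96) (nat_lit 2) (nat_lit 8) (.e true (nat_lit 3) (nat_lit 97) (nat_lit 2) (nat_lit 8) (.e true (nat_lit 1) (nat_lit 98) (nat_lit 2) (nat_lit 8) (.e true (nat_lit 2) (nat_lit 100) (nat_lit 2) (nat_lit 8) (.e true (nat_lit 2) (nat_lit 101) (nat_lit 2) (nat_lit 8) (.e false (nat_lit 1) (nat_lit 102) (nat_lit 2) (nat_lit 8) (.e false (nat_lit 2) (nat_lit 103) (nat_lit 2) (nat_lit 8) (.e false (nat_lit 2) (nat_lit 104) (nat_lit 2) (nat_lit 8) (.e false (nat_lit 1) (nat_lit 108) (nat_lit 2) (nat_lit 8) (.u (nat_lit 2) (.n (nat_lit 3) (nat_lit 1) (.p (nat_lit 9) (nat_lit 1) .z)) .nil))))))))))))))) (.nd .leaf (nat_lit 27648) (nat_lit 49) (.p (nat_lit 44) (nat_lit 1) .z) .df .leaf)) (nat_lit 27650) (nat_lit 82) (.p (nat_lit 59) (nat_lit 1) .z) .df (.nd (.nd .leaf (nat_lit 27652) (nat_lit 155) (.n (nat_lit 73) (nat_lit 3) (.n (nat_lit 74) (nat_lit 3) (.n (nat_lit 76) (nat_lit 1) (.n (nat_lit 77) (nat_lit 2) (.n (nat_lit 78) (nat_lit 1) (.p (nat_lit 79) (nat_lit 2) (.n (nat_lit 80) (nat_lit 3) (.p (nat_lit 81) (nat_lit 3) (.n (nat_lit 82) (nat_lit 1) (.n (nat_lit 83) (nat_lit 3) (.p (nat_lit 84) (nat_lit 3) (.n (nat_lit 85) (nat_lit 2) (.p (nat_lit 88) (nat_lit 1) (.p (nat_lit 89) (nat_lit 1) (.p (nat_lit 90) (nat_lit 1) (.n (nat_lit 91) (nat_lit 3) (.p (nat_lit 92) (nat_lit 1) (.p (nat_lit 93) (nat_lit 2) .z)))))))))))))))))) (.ct dD_c291 (nat_lit 1) (nat_lit 5) (.s true (nat_lit 1) (nat_lit 11) (nat_lit 0) (nat_lit 2) (nat_lit 2) true (nat_lit 5) true (nat_lit 7) true (nat_lit 0) true (nat_lit 9) true (nat_lit 7) (.e true (nat_lit 1) (nat_lit 37) (nat_lit 2) (nat_lit 7) (.e false (nat_lit 1) (nat_lit 38) (nat_lit 2) (nat_lit 7) (.e true (nat_lit 1) (nat_lit 40) (nat_lit 2) (nat_lit 7) (.e false (nat_lit 1) (nat_lit 12) (nat_lit 11) (nat_lit 0) (.e false (nat_lit 1) (nat_lit 59) (nat_lit 0) (nat_lit 9) (.e false (nat_lit 1) (nat_lit 60) (nat_lit 0) (nat_lit 9) (.e true (nat_lit 1) (nat_lit 61) (nat_lit 0) (nat_lit 9) (.e false (nat_lit 1) (nat_lit 63) (nat_lit 0) (nat_lit 9) (.e true (nat_lit 1) (nat_lit 44) (nat_lit 2) (nat_lit 7) (.u (nat_lit 2) (.p (nat_lit 1) (nat_lit 1) (.p (nat_lit 4) (nat_lit 1) (.n (nat_lit 8) (nat_lit 1) (.p (nat_lit 9) (nat_lit 1) (.p (nat_lit 12) (nat_lit 1) (.n (nat_lit 13) (nat_lit 1) (.p (nat_lit 15) (nat_lit 1) .z))))))) .nil)))))))))))) .leaf) (nat_lit 27654) (nat_lit 212) (.n (nat_lit 111) (nat_lit 2) (.p (nat_lit 112) (nat_lit 3) (.n (nat_lit 113) (nat_lit 3) (.n (nat_lit 114) (nat_lit 1) (.p (nat_lit 115) (nat_lit 1) .z))))) (.ct dD_c36 (nat_lit 1) (nat_lit 2) (.s false (nat_lit 1) (nat_lit 6) (nat_lit 1) (nat_lit 5) (nat_lit 2) true (nat_lit 3) true (nat_lit 4) true (nat_lit 2) true (nat_lit 5) true (nat_lit 3) (.e true (nat_lit 1) (nat_lit 34) (nat_lit 5) (nat_lit 3) (.e false (nat_lit 2) (nat_lit 59) (nat_lit 2) (nat_lit 4) (.e false (nat_lit 2) (nat_lit 60) (nat_lit 2) (nat_lit 4) (.e true (nat_lit 1) (nat_lit 61) (nat_lit 2) (nat_lit 4) (.e true (nat_lit 1) (nat_lit 63) (nat_lit 2) (nat_lit 4) (.e false (nat_lit 1) (nat_lit 71) (nat_lit 1) (nat_lit 5) (.u (nat_lit 2) (.n (nat_lit 2) (nat_lit 1) (.p (nat_lit 3) (nat_lit 1) .z)) .nil))))))))) .leaf))) (nat_lit 27660) (nat_lit 333) (.p (nat_lit 126) (nat_lit 3) (.n (nat_lit 127) (nat_lit 2) (.p (nat_lit 128) (nat_lit 1) (.p (nat_lit 129) (nat_lit 2) (.p (nat_lit 131) (nat_lit 2) (.p (nat_lit 132) (nat_lit 3) (.n (nat_lit 133) (nat_lit 2) (.p (nat_lit 134) (nat_lit 1) (.p (nat_lit 135) (nat_lit 2) (.p (nat_lit 136) (nat_lit 1) (.p (nat_lit 137) (nat_lit 1) (.n (nat_lit 138) (nat_lit 2) (.n (nat_lit 139) (nat_lit 2) (.n (nat_lit 140) (nat_lit 2) (.p (nat_lit 141) (nat_lit 1) (.p (nat_lit 142) (nat_lit 2) (.p (nat_lit 143) (nat_lit 3) (.p (nat_lit 144) (nat_lit 1) (.n (nat_lit 145) (nat_lit 2) (.p (nat_lit 146) (nat_lit 1) (.p (nat_lit 147) (nat_lit 1) (.p (nat_lit 150) (nat_lit 1) (.n (nat_lit 151) (nat_lit 1) (.n (nat_lit 152) (nat_lit 3) (.p (nat_lit 153) (nat_lit 3) (.p (nat_lit 154) (nat_lit 2) (.n (nat_lit 155) (nat_lit 1) .z))))))))))))))))))))))))))) (.ct dD_c292 (nat_lit 1) (nat_lit 2) (.s true (nat_lit 1) (nat_lit 11) (nat_lit 4) (nat_lit 2) (nat_lit 2) true (nat_lit 2) true (nat_lit 10) true (nat_lit 3) true (nat_lit 8) true (nat_lit 10) (.e false (nat_lit 1) (nat_lit 79) (nat_lit 2) (nat_lit 10) (.e true (nat_lit 2) (nat_lit 83) (nat_lit 2) (nat_lit 10) (.e false (nat_lit 1) (nat_lit 30) (nat_lit 11) (nat_lit 3) (.e false (nat_lit 1) (nat_lit 59) (nat_lit 4) (nat_lit 8) (.e false (nat_lit 1) (nat_lit 60) (nat_lit 4) (nat_lit 8) (.e true (nat_lit 1) (nat_lit 61) (nat_lit 4) (nat_lit 8) (.e false (nat_lit 1) (nat_lit 63) (nat_lit 4) (nat_lit 8) (.e true (nat_lit 3) (nat_lit 73) (nat_lit 2) (nat_lit 10) (.e true (nat_lit 3) (nat_lit 74) (nat_lit 2) (nat_lit 10) (.e true (nat_lit 1) (nat_lit 76) (nat_lit 2) (nat_lit 10) (.e true (nat_lit 2) (nat_lit 77) (nat_lit 2) (nat_lit 10) (.e true (nat_lit 3) (nat_lit 80) (nat_lit 2) (nat_lit 10) (.e false (nat_lit 3) (nat_lit 81) (nat_lit 2) (nat_lit 10) (.e true (nat_lit 1) (nat_lit 82) (nat_lit 2) (nat_lit 10) (.e false (nat_lit 3) (nat_lit 84) (nat_lit 2) (nat_lit 10) (.e true (nat_lit 2) (nat_lit 85) (nat_lit 2) (nat_lit 10) (.e false (nat_lit 1) (nat_lit 88) (nat_lit 2) (nat_lit 10) (.e false (nat_lit 1) (nat_lit 89) (nat_lit 2) (nat_lit 10) (.e false (nat_lit 1) (nat_lit 90) (nat_lit 2) (nat_lit 10) (.e true (nat_lit 3) (nat_lit 91) (nat_lit 2) (nat_lit 10) (.e false (nat_lit 1) (nat_lit 92) (nat_lit 2) (nat_lit 10) (.e false (nat_lit 2) (nat_lit 93) (nat_lit 2) (nat_lit 10) (.u (nat_lit 2) (.n (nat_lit 0) (nat_lit 1) (.p (nat_lit 1) (nat_lit 1) (.p (nat_lit 4) (nat_lit 1) (.p (nat_lit 7) (nat_lit 1) (.n (nat_lit 8) (nat_lit 1) (.n (nat_lit 10) (nat_lit 1) (.p (nat_lit 13) (nat_lit 1) (.p (nat_lit 14) (nat_lit 1) (.n (nat_lit 15) (nat_lit 1) (.p (nat_lit 19) (nat_lit 1) (.n (nat_lit 20) (nat_lit 1) (.p (nat_lit 23) (nat_lit 1) (.p (nat_lit 26) (nat_lit 1) (.n (nat_lit 27) (nat_lit 2) .z)))))))))))))) .nil))))))))))))))))))))))))) (.nd (.nd (.nd (.nd .leaf (nat_lit 27664) (nat_lit 410) (.p (nat_lit 176) (nat_lit 2) (.n (nat_lit 177) (nat_lit 3) (.p (nat_lit 178) (nat_lit 3) (.p (nat_lit 179) (nat_lit 1) (.n (nat_lit 180) (nat_lit 1) (.p (nat_lit 181) (nat_lit 1) .z)))))) (.ct dD_c37 (nat_lit 1) (nat_lit 0) (.s false (nat_lit 1) (nat_lit 11) (nat_lit 2) (nat_lit 2) (nat_lit 6) true (nat_lit 0) true (nat_lit 3) true (nat_lit 2) true (nat_lit 5) true (nat_lit 5) (.e false (nat_lit 1) (nat_lit 59) (nat_lit 6) (nat_lit 3) (.e false (nat_lit 2) (nat_lit 111) (nat_lit 2) (nat_lit 5) (.e true (nat_lit 3) (nat_lit 112) (nat_lit 2) (nat_lit 5) (.e false (nat_lit 1) (nat_lit 114) (nat_lit 2) (nat_lit 5) (.e true (nat_lit 1) (nat_lit 115) (nat_lit 2) (nat_lit 5) (.e false (nat_lit 3) (nat_lit 113) (nat_lit 2) (nat_lit 5) (.u (nat_lit 2) (.n (nat_lit 28) (nat_lit 1) .z) .nil))))))))) .leaf) (nat_lit 28672) (nat_lit 60) (.n (nat_lit 38) (nat_lit 2) (.n (nat_lit 39) (nat_lit 1) (.p (nat_lit 40) (nat_lit 1) (.n (nat_lit 41) (nat_lit 1) (.p (nat_lit 43) (nat_lit 2) (.n (nat_lit 44) (nat_lit 1) (.p (nat_lit 45) (nat_lit 1) (.n (nat_lit 46) (nat_lit 1) (.n (nat_lit 47) (nat_lit 2) .z))))))))) (.ct dD_c290 (nat_lit 1) (nat_lit 6) (.s true (nat_lit 1) (nat_lit 5) (nat_lit 2) (nat_lit 1) (nat_lit 0) true (nat_lit 2) true (nat_lit 6) true (nat_lit 1) true (nat_lit 4) true (nat_lit 5) (.e false (nat_lit 1) (nat_lit 11) (nat_lit 4) (nat_lit 2) (.e false (nat_lit 1) (nat_lit 10) (nat_lit 5) (nat_lit 1) (.e false (nat_lit 1) (nat_lit 17) (nat_lit 2) (nat_lit 4) (.e true (nat_lit 1) (nat_lit 19) (nat_lit 2) (nat_lit 4) (.e false (nat_lit 1) (nat_lit 20) (nat_lit 2) (nat_lit 4) (.e false (nat_lit 1) (nat_lit 23) (nat_lit 1) (nat_lit 5) .nil)))))))) (.nd .leaf (nat_lit 28674) (nat_lit 83) (.p (nat_lit 60) (nat_lit 1) .z) .df .leaf)) (nat_lit 28676) (nat_lit 158) (.n (nat_lit 73) (nat_lit 1) (.n (nat_lit 74) (nat_lit 1) (.p (nat_lit 75) (nat_lit 2) (.n (nat_lit 76) (nat_lit 1) (.p (nat_lit 78) (nat_lit 3) (.p (nat_lit 79) (nat_lit 3) (.n (nat_lit 80) (nat_lit 2) (.n (nat_lit 81) (nat_lit 3) (.n (nat_lit 82) (nat_lit 1) (.n (nat_lit 84) (nat_lit 3) (.p (nat_lit 85) (nat_lit 2) (.n (nat_lit 86) (nat_lit 2) (.p (nat_lit 87) (nat_lit 2) (.p (nat_lit 89) (nat_lit 1) (.p (nat_lit 90) (nat_lit 1) (.n (nat_lit 91) (nat_lit 2) (.n (nat_lit 92) (nat_lit 3) (.p (nat_lit 93) (nat_lit 3) .z)))))))))))))))))) (.ct dD_c291 (nat_lit 1) (nat_lit 5) (.s false (nat_lit 1) (nat_lit 14) (nat_lit 2) (nat_lit 1) (nat_lit 0) true (nat_lit 5) true (nat_lit 9) false (nat_lit 1) true (nat_lit 7) true (nat_lit 8) (.e false (nat_lit 1) (nat_lit 62) (nat_lit 0) (nat_lit 9) (.e true (nat_lit 1) (nat_lit 14) (nat_lit 10) (nat_lit 1) (.e false (nat_lit 1) (nat_lit 37) (nat_lit 2) (nat_lit 7) (.e false (nat_lit 1) (nat_lit 38) (nat_lit 2) (nat_lit 7) (.e true (nat_lit 1) (nat_lit 39) (nat_lit 2) (nat_lit 7) (.e false (nat_lit 1) (nat_lit 40) (nat_lit 2) (nat_lit 7) (.e false (nat_lit 1) (nat_lit 41) (nat_lit 2) (nat_lit 7) (.e true (nat_lit 1) (nat_lit 45) (nat_lit 2) (nat_lit 7) (.e true (nat_lit 1) (nat_lit 53) (nat_lit 1) (nat_lit 8) (.u (nat_lit 2) (.n (nat_lit 2) (nat_lit 1) (.p (nat_lit 3) (nat_lit 1) (.n (nat_lit 4) (nat_lit 1) (.p (nat_lit 8) (nat_lit 1) (.p (nat_lit 11) (nat_lit 1) (.n (nat_lit 14) (nat_lit 1) (.p (nat_lit 17) (nat_lit 1) .z))))))) .nil)))))))))))) (.nd (.nd .leaf (nat_lit 28678) (nat_lit 207) (.p (nat_lit 110) (nat_lit 1) (.n (nat_lit 111) (nat_lit 2) (.n (nat_lit 112) (nat_lit 3) (.n (nat_lit 113) (nat_lit 2) (.p (nat_lit 114) (nat_lit 1) (.n (nat_lit 115) (nat_lit 2) .z)))))) (.ct dD_c36 (nat_lit 1) (nat_lit 2) (.s false (nat_lit 1) (nat_lit 14) (nat_lit 2) (nat_lit 1) (nat_lit 2) true (nat_lit 2) true (nat_lit 4) true (nat_lit 0) true (nat_lit 4) true (nat_lit 5) (.a true (nat_lit 3) (nat_lit 14) (nat_lit 14) (nat_lit 0) (nat_lit 0) (.e false (nat_lit 2) (nat_lit 62) (nat_lit 2) (nat_lit 4) (.e false (nat_lit 1) (nat_lit 60) (nat_lit 2) (nat_lit 4) (.e true (nat_lit 1) (nat_lit 63) (nat_lit 2) (nat_lit 4) (.e false (nat_lit 1) (nat_lit 68) (nat_lit 1) (nat_lit 5) (.u (nat_lit 2) (.p (nat_lit 3) (nat_lit 1) (.p (nat_lit 6) (nat_lit 1) .z)) .nil)))))))) .leaf) (nat_lit 28684) (nat_lit 335) (.p (nat_lit 126) (nat_lit 3) (.n (nat_lit 127) (nat_lit 1) (.p (nat_lit 128) (nat_lit 3) (.n (nat_lit 129) (nat_lit 3) (.p (nat_lit 130) (nat_lit 1) (.n (nat_lit 131) (nat_lit 1) (.n (nat_lit 132) (nat_lit 1) (.p (nat_lit 135) (nat_lit 3) (.p (nat_lit 136) (nat_lit 1) (.n (nat_lit 137) (nat_lit 1) (.n (nat_lit 138) (nat_lit 3) (.p (nat_lit 140) (nat_lit 3) (.n (nat_lit 141) (nat_lit 2) (.n (nat_lit 144) (nat_lit 3) (.p (nat_lit 146) (nat_lit 2) (.n (nat_lit 147) (nat_lit 2) (.p (nat_lit 149) (nat_lit 2) (.n (nat_lit 150) (nat_lit 1) (.n (nat_lit 151) (nat_lit 1) (.p (nat_lit 153) (nat_lit 2) (.n (nat_lit 154) (nat_lit 3) (.p (nat_lit 155) (nat_lit 2) .z)))))))))))))))))))))) (.ct dD_c292 (nat_lit 1) (nat_lit 2) (.s false (nat_lit 1) (nat_lit 14) (nat_lit 2) (nat_lit 1) (nat_lit 4) true (nat_lit 2) true (nat_lit 8) true (nat_lit 1) true (nat_lit 10) true (nat_lit 11) (.e false (nat_lit 1) (nat_lit 62) (nat_lit 4) (nat_lit 8) (.e true (nat_lit 1) (nat_lit 21) (nat_lit 14) (nat_lit 1) (.e true (nat_lit 1) (nat_lit 22) (nat_lit 14) (nat_lit 1) (.e false (nat_lit 1) (nat_lit 25) (nat_lit 14) (nat_lit 1) (.e true (nat_lit 1) (nat_lit 26) (nat_lit 14) (nat_lit 1) (.e false (nat_lit 1) (nat_lit 78) (nat_lit 2) (nat_lit 10) (.e true (nat_lit 1) (nat_lit 83) (nat_lit 2) (nat_lit 10) (.e false (nat_lit 1) (nat_lit 85) (nat_lit 2) (nat_lit 10) (.e true (nat_lit 1) (nat_lit 92) (nat_lit 2) (nat_lit 10) (.e true (nat_lit 1) (nat_lit 94) (nat_lit 1) (nat_lit 11) (.e true (nat_lit 1) (nat_lit 95) (nat_lit 1) (nat_lit 11) (.e true (nat_lit 1) (nat_lit 97) (nat_lit 1) (nat_lit 11) (.e false (nat_lit 1) (nat_lit 98) (nat_lit 1) (nat_lit 11) (.e true (nat_lit 1) (nat_lit 99) (nat_lit 1) (nat_lit 11) (.e true (nat_lit 1) (nat_lit 100) (nat_lit 1) (nat_lit 11) (.e false (nat_lit 1) (nat_lit 103) (nat_lit 1) (nat_lit 11) (.u (nat_lit 2) (.p (nat_lit 1) (nat_lit 1) (.n (nat_lit 2) (nat_lit 1) (.n (nat_lit 6) (nat_lit 1) (.p (nat_lit 7) (nat_lit 1) (.p (nat_lit 8) (nat_lit 1) (.n (nat_lit 11) (nat_lit 1) (.n (nat_lit 15) (nat_lit 1) (.n (nat_lit 17) (nat_lit 1) (.n (nat_lit 20) (nat_lit 1) (.p (nat_lit 28) (nat_lit 1) .z)))))))))) .nil))))))))))))))))))) .leaf)) (nat_lit 28688) (nat_lit 418) (.n (nat_lit 175) (nat_lit 3) (.p (nat_lit 176) (nat_lit 2) (.p (nat_lit 177) (nat_lit 3) (.p (nat_lit 178) (nat_lit 3) (.n (nat_lit 179) (nat_lit 2) (.n (nat_lit 180) (nat_lit 2) (.n (nat_lit 181) (nat_lit 1) .z))))))) (.ct dD_c37 (nat_lit 1) (nat_lit 0) (.s false (nat_lit 1) (nat_lit 28) (nat_lit 2) (nat_lit 2) (nat_lit 2) true (nat_lit 3) true (nat_lit 5) false (nat_lit 0) true (nat_lit 5) true (nat_lit 5) (.e false (nat_lit 1) (nat_lit 60) (nat_lit 6) (nat_lit 3) (.e false (nat_lit 2) (nat_lit 111) (nat_lit 2) (nat_lit 5) (.e true (nat_lit 1) (nat_lit 110) (nat_lit 2) (nat_lit 5) (.e false (nat_lit 3) (nat_lit 112) (nat_lit 2) (nat_lit 5) (.e false (nat_lit 2) (nat_lit 113) (nat_lit 2) (nat_lit 5) (.e true (nat_lit 1) (nat_lit 114) (nat_lit 2) (nat_lit 5) (.e false (nat_lit 2) (nat_lit 115) (nat_lit 2) (nat_lit 5) (.u (nat_lit 2) (.p (nat_lit 5) (nat_lit 1) .z) .nil)))))))))) (.nd (.nd (.nd .leaf (nat_lit 29696) (nat_lit 61) (.n (nat_lit 37) (nat_lit 2) (.n (nat_lit 38) (nat_lit 3) (.n (nat_lit 40) (nat_lit 1) (.n (nat_lit 41) (nat_lit 2) (.p (nat_lit 42) (nat_lit 1) (.p (nat_lit 43) (nat_lit 2) (.p (nat_lit 45) (nat_lit 2) (.n (nat_lit 46) (nat_lit 2) (.n (nat_lit 47) (nat_lit 1) .z))))))))) (.ct dD_c290 (nat_lit 1) (nat_lit 6) (.s false (nat_lit 1) (nat_lit 6) (nat_lit 1) (nat_lit 0) (nat_lit 1) false (nat_lit 7) true (nat_lit 5) true (nat_lit 0) true (nat_lit 5) true (nat_lit 6) (.e true (nat_lit 2) (nat_lit 21) (nat_lit 1) (nat_lit 5) (.e true (nat_lit 2) (nat_lit 22) (nat_lit 1) (nat_lit 5) (.e false (nat_lit 2) (nat_lit 23) (nat_lit 1) (nat_lit 5) (.e false (nat_lit 1) (nat_lit 25) (nat_lit 1) (nat_lit 5) (.e false (nat_lit 1) (nat_lit 7) (nat_lit 6) (nat_lit 0) .nil))))))) .leaf) (nat_lit 29698) (nat_lit 84) (.p (nat_lit 61) (nat_lit 1) .z) .df .leaf) (nat_lit 29700) (nat_lit 152) (.n (nat_lit 73) (nat_lit 2) (.n (nat_lit 74) (nat_lit 1) (.n (nat_lit 75) (nat_lit 2) (.p (nat_lit 76) (nat_lit 1) (.n (nat_lit 77) (nat_lit 3) (.p (nat_lit 78) (nat_lit 1) (.p (nat_lit 79) (nat_lit 1) (.p (nat_lit 80) (nat_lit 1) (.p (nat_lit 81) (nat_lit 3) (.p (nat_lit 82) (nat_lit 3) (.p (nat_lit 83) (nat_lit 1) (.p (nat_lit 84) (nat_lit 3) (.p (nat_lit 85) (nat_lit 1) (.p (nat_lit 86) (nat_lit 3) (.p (nat_lit 87) (nat_lit 2) (.n (nat_lit 88) (nat_lit 2) (.p (nat_lit 89) (nat_lit 2) (.p (nat_lit 91) (nat_lit 2) (.n (nat_lit 92) (nat_lit 2) .z))))))))))))))))))) (.ct dD_c291 (nat_lit 1) (nat_lit 5) (.s true (nat_lit 1) (nat_lit 6) (nat_lit 1) (nat_lit 1) (nat_lit 4) true (nat_lit 1) true (nat_lit 5) true (nat_lit 3) true (nat_lit 8) true (nat_lit 8) (.e true (nat_lit 1) (nat_lit 15) (nat_lit 9) (nat_lit 1) (.e false (nat_lit 2) (nat_lit 57) (nat_lit 1) (nat_lit 8) (.e true (nat_lit 1) (nat_lit 49) (nat_lit 1) (nat_lit 8) (.e true (nat_lit 2) (nat_lit 51) (nat_lit 1) (nat_lit 8) (.e false (nat_lit 1) (nat_lit 53) (nat_lit 1) (nat_lit 8) (.e true (nat_lit 1) (nat_lit 54) (nat_lit 1) (nat_lit 8) (.e false (nat_lit 1) (nat_lit 55) (nat_lit 1) (nat_lit 8) (.e true (nat_lit 1) (nat_lit 58) (nat_lit 1) (nat_lit 8) (.u (nat_lit 2) (.p (nat_lit 0) (nat_lit 1) (.p (nat_lit 1) (nat_lit 1) (.p (nat_lit 4) (nat_lit 1) (.n (nat_lit 9) (nat_lit 1) (.n (nat_lit 13) (nat_lit 1) (.p (nat_lit 15) (nat_lit 1) (.n (nat_lit 17) (nat_lit 1) (.p (nat_lit 18) (nat_lit 1) .z)))))))) .nil))))))))))) (.nd (.nd .leaf (nat_lit 29702) (nat_lit 210) (.p (nat_lit 110) (nat_lit 3) (.n (nat_lit 111) (nat_lit 3) (.p (nat_lit 112) (nat_lit 1) (.p (nat_lit 113) (nat_lit 1) (.n (nat_lit 115) (nat_lit 3) .z))))) (.ct dD_c36 (nat_lit 1) (nat_lit 2) (.s true (nat_lit 1) (nat_lit 6) (nat_lit 1) (nat_lit 1) (nat_lit 6) true (nat_lit 0) true (nat_lit 2) true (nat_lit 2) true (nat_lit 5) true (nat_lit 5) (.a false (nat_lit 3) (nat_lit 15) (nat_lit 15) (nat_lit 0) (nat_lit 0) (.e false (nat_lit 2) (nat_lit 69) (nat_lit 1) (nat_lit 5) (.e false (nat_lit 2) (nat_lit 70) (nat_lit 1) (nat_lit 5) (.u (nat_lit 2) (.n (nat_lit 0) (nat_lit 1) (.p (nat_lit 1) (nat_lit 1) (.n (nat_lit 2) (nat_lit 1) (.n (nat_lit 3) (nat_lit 1) (.n (nat_lit 5) (nat_lit 1) (.n (nat_lit 9) (nat_lit 1) .z)))))) .nil)))))) .leaf) (nat_lit 29708) (nat_lit 332) (.p (nat_lit 126) (nat_lit 3) (.n (nat_lit 127) (nat_lit 1) (.n (nat_lit 128) (nat_lit 1) (.p (nat_lit 129) (nat_lit 3) (.p (nat_lit 130) (nat_lit 2) (.n (nat_lit 131) (nat_lit 3) (.n (nat_lit 133) (nat_lit 2) (.p (nat_lit 134) (nat_lit 3) (.n (nat_lit 135) (nat_lit 3) (.n (nat_lit 136) (nat_lit 1) (.p (nat_lit 137) (nat_lit 2) (.n (nat_lit 138) (nat_lit 2) (.p (nat_lit 140) (nat_lit 1) (.p (nat_lit 141) (nat_lit 1) (.p (nat_lit 143) (nat_lit 2) (.p (nat_lit 146) (nat_lit 3) (.n (nat_lit 147) (nat_lit 3) (.n (nat_lit 149) (nat_lit 3) (.n (nat_lit 150) (nat_lit 2) (.n (nat_lit 151) (nat_lit 2) (.p (nat_lit 152) (nat_lit 2) (.n (nat_lit 153) (nat_lit 2) (.n (nat_lit 154) (nat_lit 3) (.p (nat_lit 155) (nat_lit 3) .z)))))))))))))))))))))))) (.ct dD_c292 (nat_lit 1) (nat_lit 2) (.s false (nat_lit 1) (nat_lit 12) (nat_lit 1) (nat_lit 6) (nat_lit 1) false (nat_lit 13) true (nat_lit 11) true (nat_lit 2) true (nat_lit 11) true (nat_lit 6) (.e false (nat_lit 1) (nat_lit 96) (nat_lit 1) (nat_lit 11) (.e true (nat_lit 3) (nat_lit 97) (nat_lit 1) (nat_lit 11) (.e true (nat_lit 3) (nat_lit 99) (nat_lit 1) (nat_lit 11) (.e false (nat_lit 2) (nat_lit 100) (nat_lit 1) (nat_lit 11) (.e false (nat_lit 3) (nat_lit 101) (nat_lit 1) (nat_lit 11) (.e false (nat_lit 1) (nat_lit 102) (nat_lit 1) (nat_lit 11) (.e true (nat_lit 2) (nat_lit 103) (nat_lit 1) (nat_lit 11) (.e true (nat_lit 3) (nat_lit 104) (nat_lit 1) (nat_lit 11) (.e true (nat_lit 1) (nat_lit 107) (nat_lit 1) (nat_lit 11) (.e false (nat_lit 1) (nat_lit 95) (nat_lit 1) (nat_lit 11) (.e true (nat_lit 1) (nat_lit 105) (nat_lit 1) (nat_lit 11) (.e true (nat_lit 1) (nat_lit 109) (nat_lit 1) (nat_lit 11) (.e true (nat_lit 1) (nat_lit 43) (nat_lit 6) (nat_lit 6) (.u (nat_lit 2) (.n (nat_lit 0) (nat_lit 1) (.n (nat_lit 1) (nat_lit 2) (.p (nat_lit 2) (nat_lit 1) (.p (nat_lit 3) (nat_lit 2) (.n (nat_lit 4) (nat_lit 1) (.p (nat_lit 5) (nat_lit 4) (.n (nat_lit 8) (nat_lit 1) (.p (nat_lit 9) (nat_lit 2) (.n (nat_lit 10) (nat_lit 1) (.p (nat_lit 11) (nat_lit 1) (.n (nat_lit 14) (nat_lit 2) (.n (nat_lit 15) (nat_lit 1) (.n (nat_lit 17) (nat_lit 3) (.p (nat_lit 18) (nat_lit 1) (.p (nat_lit 20) (nat_lit 1) (.n (nat_lit 22) (nat_lit 1) (.p (nat_lit 27) (nat_lit 1) (.p (nat_lit 28) (nat_lit 1) (.p (nat_lit 29) (nat_lit 1) (.p (nat_lit 120) (nat_lit 1) (.p (nat_lit 122) (nat_lit 1) .z))))))))))))))))))))) .nil)))))))))))))))) .leaf))))) (nat_lit 29709) (nat_lit 337) (.p (nat_lit 126) (nat_lit 2) (.p (nat_lit 127) (nat_lit 2) (.p (nat_lit 128) (nat_lit 3) (.n (nat_lit 129) (nat_lit 2) (.p (nat_lit 130) (nat_lit 1) (.n (nat_lit 131) (nat_lit 3) (.p (nat_lit 132) (nat_lit 3) (.p (nat_lit 134) (nat_lit 1) (.n (nat_lit 135) (nat_lit 1) (.p (nat_lit 136) (nat_lit 3) (.n (nat_lit 137) (nat_lit 3) (.p (nat_lit 140) (nat_lit 1) (.n (nat_lit 144) (nat_lit 3) (.n (nat_lit 145) (nat_lit 2) (.p (nat_lit 147) (nat_lit 1) (.p (nat_lit 149) (nat_lit 1) (.p (nat_lit 150) (nat_lit 3) (.p (nat_lit 151) (nat_lit 3) (.n (nat_lit 152) (nat_lit 2) (.n (nat_lit 153) (nat_lit 3) (.p (nat_lit 154) (nat_lit 3) (.n (nat_lit 155) (nat_lit 1) .z)))))))))))))))))))))) (.ct dD_c292 (nat_lit 1) (nat_lit 2) (.s false (nat_lit 1) (nat_lit 29) (nat_lit 2) (nat_lit 2) (nat_lit 0) true (nat_lit 8) true (nat_lit 12) false (nat_lit 2) true (nat_lit 10) true (nat_lit 10) (.e false (nat_lit 1) (nat_lit 61) (nat_lit 4) (nat_lit 8) (.e false (nat_lit 1) (nat_lit 112) (nat_lit 0) (nat_lit 12) (.e false (nat_lit 2) (nat_lit 74) (nat_lit 2) (nat_lit 10) (.e true (nat_lit 2) (nat_lit 75) (nat_lit 2) (nat_lit 10) (.e false (nat_lit 2) (nat_lit 76) (nat_lit 2) (nat_lit 10) (.e true (nat_lit 1) (nat_lit 77) (nat_lit 2) (nat_lit 10) (.e true (nat_lit 1) (nat_lit 79) (nat_lit 2) (nat_lit 10) (.e false (nat_lit 1) (nat_lit 80) (nat_lit 2) (nat_lit 10) (.e false (nat_lit 1) (nat_lit 81) (nat_lit 2) (nat_lit 10) (.e true (nat_lit 2) (nat_lit 82) (nat_lit 2) (nat_lit 10) (.e false (nat_lit 2) (nat_lit 83) (nat_lit 2) (nat_lit 10) (.e false (nat_lit 3) (nat_lit 84) (nat_lit 2) (nat_lit 10) (.e false (nat_lit 1) (nat_lit 85) (nat_lit 2) (nat_lit 10) (.e false (nat_lit 3) (nat_lit 86) (nat_lit 2) (nat_lit 10) (.e false (nat_lit 2) (nat_lit 87) (nat_lit 2) (nat_lit 10) (.e true (nat_lit 2) (nat_lit 88) (nat_lit 2) (nat_lit 10) (.e false (nat_lit 2) (nat_lit 89) (nat_lit 2) (nat_lit 10) (.e false (nat_lit 2) (nat_lit 91) (nat_lit 2) (nat_lit 10) (.e true (nat_lit 2) (nat_lit 92) (nat_lit 2) (nat_lit 10) (.u (nat_lit 2) (.n (nat_lit 6) (nat_lit 1) (.p (nat_lit 11) (nat_lit 1) (.p (nat_lit 18) (nat_lit 1) (.n (nat_lit 21) (nat_lit 1) (.n (nat_lit 23) (nat_lit 1) (.n (nat_lit 24) (nat_lit 1) (.n (nat_lit 25) (nat_lit 1) (.p (nat_lit 27) (nat_lit 1) (.n (nat_lit 28) (nat_lit 1) (.p (nat_lit 29) (nat_lit 1) (.p (nat_lit 105) (nat_lit 1) .z))))))))))) .nil)))))))))))))))))))))) (.nd (.nd (.nd (.nd (.nd (.nd .leaf (nat_lit 29712) (nat_lit 415) (.p (nat_lit 175) (nat_lit 1) (.n (nat_lit 176) (nat_lit 2) (.n (nat_lit 177) (nat_lit 1) (.n (nat_lit 178) (nat_lit 2) (.p (nat_lit 179) (nat_lit 1) (.p (nat_lit 180) (nat_lit 2) .z)))))) (.ct dD_c37 (nat_lit 1) (nat_lit 0) (.s false (nat_lit 1) (nat_lit 16) (nat_lit 1) (nat_lit 6) (nat_lit 1) false (nat_lit 7) true (nat_lit 6) true (nat_lit 0) true (nat_lit 6) true (nat_lit 3) (.e true (nat_lit 1) (nat_lit 59) (nat_lit 6) (nat_lit 3) (.e true (nat_lit 1) (nat_lit 60) (nat_lit 6) (nat_lit 3) (.e false (nat_lit 1) (nat_lit 63) (nat_lit 6) (nat_lit 3) (.u (nat_lit 2) (.n (nat_lit 5) (nat_lit 1) .z) .nil)))))) .leaf) (nat_lit 30721) (nat_lit 68) (.p (nat_lit 54) (nat_lit 1) .z) .df (.nd .leaf (nat_lit 30722) (nat_lit 91) (.p (nat_lit 64) (nat_lit 1) .z) .df .leaf)) (nat_lit 30725) (nat_lit 174) (.p (nat_lit 109) (nat_lit 1) .z) .df (.nd (.nd .leaf (nat_lit 30726) (nat_lit 225) (.p (nat_lit 117) (nat_lit 1) (.p (nat_lit 118) (nat_lit 2) (.n (nat_lit 119) (nat_lit 1) (.p (nat_lit 120) (nat_lit 1) .z)))) (.ct dD_c261 (nat_lit 1) (nat_lit 1) (.s true (nat_lit 1) (nat_lit 6) (nat_lit 4) (nat_lit 2) (nat_lit 2) true (nat_lit 0) true (nat_lit 3) true (nat_lit 1) true (nat_lit 2) true (nat_lit 3) (.e true (nat_lit 1) (nat_lit 16) (nat_lit 12) (nat_lit 0) (.e false (nat_lit 1) (nat_lit 67) (nat_lit 2) (nat_lit 3) .nil)))) .leaf) (nat_lit 30731) (nat_lit 271) (.n (nat_lit 127) (nat_lit 1) (.p (nat_lit 128) (nat_lit 2) (.n (nat_lit 129) (nat_lit 2) (.p (nat_lit 130) (nat_lit 2) (.n (nat_lit 131) (nat_lit 1) (.n (nat_lit 132) (nat_lit 1) (.n (nat_lit 134) (nat_lit 3) (.p (nat_lit 135) (nat_lit 3) (.p (nat_lit 136) (nat_lit 1) (.n (nat_lit 137) (nat_lit 3) (.n (nat_lit 138) (nat_lit 1) (.p (nat_lit 139) (nat_lit 2) (.n (nat_lit 140) (nat_lit 1) (.n (nat_lit 141) (nat_lit 3) (.n (nat_lit 142) (nat_lit 1) (.p (nat_lit 143) (nat_lit 1) (.n (nat_lit 144) (nat_lit 1) (.p (nat_lit 145) (nat_lit 1) (.n (nat_lit 146) (nat_lit 1) (.n (nat_lit 150) (nat_lit 1) (.p (nat_lit 151) (nat_lit 1) .z))))))))))))))))))))) (.ct dD_c292 (nat_lit 1) (nat_lit 3) (.s true (nat_lit 1) (nat_lit 30) (nat_lit 1) (nat_lit 2) (nat_lit 1) false (nat_lit 13) true (nat_lit 11) false (nat_lit 3) true (nat_lit 11) true (nat_lit 10) (.e true (nat_lit 1) (nat_lit 100) (nat_lit 1) (nat_lit 11) (.e false (nat_lit 1) (nat_lit 109) (nat_lit 1) (nat_lit 11) (.e true (nat_lit 1) (nat_lit 74) (nat_lit 2) (nat_lit 10) (.e false (nat_lit 2) (nat_lit 75) (nat_lit 2) (nat_lit 10) (.e true (nat_lit 2) (nat_lit 76) (nat_lit 2) (nat_lit 10) (.e false (nat_lit 2) (nat_lit 77) (nat_lit 2) (nat_lit 10) (.e true (nat_lit 1) (nat_lit 78) (nat_lit 2) (nat_lit 10) (.e true (nat_lit 1) (nat_lit 79) (nat_lit 2) (nat_lit 10) (.e true (nat_lit 3) (nat_lit 81) (nat_lit 2) (nat_lit 10) (.e false (nat_lit 3) (nat_lit 82) (nat_lit 2) (nat_lit 10) (.e false (nat_lit 1) (nat_lit 83) (nat_lit 2) (nat_lit 10) (.e true (nat_lit 3) (nat_lit 84) (nat_lit 2) (nat_lit 10) (.e true (nat_lit 1) (nat_lit 85) (nat_lit 2) (nat_lit 10) (.e false (nat_lit 2) (nat_lit 86) (nat_lit 2) (nat_lit 10) (.e true (nat_lit 1) (nat_lit 87) (nat_lit 2) (nat_lit 10) (.e true (nat_lit 3) (nat_lit 88) (nat_lit 2) (nat_lit 10) (.e true (nat_lit 1) (nat_lit 89) (nat_lit 2) (nat_lit 10) (.e false (nat_lit 1) (nat_lit 90) (nat_lit 2) (nat_lit 10) (.e true (nat_lit 1) (nat_lit 91) (nat_lit 2) (nat_lit 10) (.e false (nat_lit 1) (nat_lit 92) (nat_lit 2) (nat_lit 10) (.e true (nat_lit 1) (nat_lit 93) (nat_lit 2) (nat_lit 10) .nil))))))))))))))))))))))) .leaf)) (nat_lit 30734) (nat_lit 390) (.p (nat_lit 156) (nat_lit 2) (.p (nat_lit 157) (nat_lit 2) (.p (nat_lit 158) (nat_lit 1) (.n (nat_lit 159) (nat_lit 2) (.n (nat_lit 160) (nat_lit 2) (.p (nat_lit 161) (nat_lit 1) (.n (nat_lit 162) (nat_lit 3) (.n (nat_lit 163) (nat_lit 2) (.n (nat_lit 164) (nat_lit 2) (.n (nat_lit 165) (nat_lit 1) (.n (nat_lit 166) (nat_lit 1) (.n (nat_lit 168) (nat_lit 1) (.p (nat_lit 170) (nat_lit 1) (.n (nat_lit 173) (nat_lit 1) .z)))))))))))))) (.ct dD_c277 (nat_lit 1) (nat_lit 1) (.s false (nat_lit 1) (nat_lit 30) (nat_lit 2) (nat_lit 1) (nat_lit 2) true (nat_lit 4) true (nat_lit 8) false (nat_lit 1) true (nat_lit 8) true (nat_lit 9) (.e true (nat_lit 1) (nat_lit 54) (nat_lit 6) (nat_lit 4) (.e false (nat_lit 1) (nat_lit 105) (nat_lit 2) (nat_lit 8) (.e true (nat_lit 1) (nat_lit 109) (nat_lit 2) (nat_lit 8) (.e false (nat_lit 1) (nat_lit 116) (nat_lit 1) (nat_lit 9) (.u (nat_lit 2) (.n (nat_lit 0) (nat_lit 1) (.p (nat_lit 3) (nat_lit 1) (.p (nat_lit 4) (nat_lit 1) (.n (nat_lit 5) (nat_lit 1) (.p (nat_lit 6) (nat_lit 1) (.p (nat_lit 7) (nat_lit 1) (.p (nat_lit 8) (nat_lit 1) (.p (nat_lit 10) (nat_lit 1) .z)))))))) .nil))))))) (.nd (.nd (.nd .leaf (nat_lit 31745) (nat_lit 81) (.n (nat_lit 48) (nat_lit 2) (.n (nat_lit 49) (nat_lit 2) (.p (nat_lit 50) (nat_lit 1) (.p (nat_lit 51) (nat_lit 1) (.p (nat_lit 52) (nat_lit 1) (.n (nat_lit 53) (nat_lit 2) (.p (nat_lit 54) (nat_lit 1) (.n (nat_lit 55) (nat_lit 1) (.p (nat_lit 56) (nat_lit 1) (.p (nat_lit 58) (nat_lit 1) .z)))))))))) (.ct dD_c275 (nat_lit 1) (nat_lit 5) (.s true (nat_lit 1) (nat_lit 6) (nat_lit 1) (nat_lit 2) (nat_lit 0) true (nat_lit 3) true (nat_lit 6) true (nat_lit 0) true (nat_lit 5) true (nat_lit 4) (.e false (nat_lit 1) (nat_lit 16) (nat_lit 3) (nat_lit 3) (.e true (nat_lit 1) (nat_lit 34) (nat_lit 0) (nat_lit 6) (.e false (nat_lit 1) (nat_lit 10) (nat_lit 6) (nat_lit 0) (.e true (nat_lit 1) (nat_lit 32) (nat_lit 1) (nat_lit 5) (.e false (nat_lit 1) (nat_lit 25) (nat_lit 2) (nat_lit 4) .nil))))))) .leaf) (nat_lit 31746) (nat_lit 92) (.p (nat_lit 65) (nat_lit 1) .z) .df (.nd .leaf (nat_lit 31749) (nat_lit 188) (.n (nat_lit 94) (nat_lit 3) (.p (nat_lit 95) (nat_lit 3) (.n (nat_lit 97) (nat_lit 3) (.p (nat_lit 98) (nat_lit 3) (.n (nat_lit 99) (nat_lit 3) (.n (nat_lit 100) (nat_lit 1) (.n (nat_lit 102) (nat_lit 1) (.p (nat_lit 103) (nat_lit 2) (.p (nat_lit 105) (nat_lit 1) (.p (nat_lit 107) (nat_lit 1) (.n (nat_lit 108) (nat_lit 1) (.p (nat_lit 109) (nat_lit 1) .z)))))))))))) (.ct dD_c276 (nat_lit 1) (nat_lit 3) (.s false (nat_lit 1) (nat_lit 6) (nat_lit 1) (nat_lit 4) (nat_lit 2) true (nat_lit 3) true (nat_lit 6) true (nat_lit 2) true (nat_lit 7) true (nat_lit 4) (.e true (nat_lit 1) (nat_lit 32) (nat_lit 5) (nat_lit 3) (.e false (nat_lit 2) (nat_lit 48) (nat_lit 2) (nat_lit 6) (.e false (nat_lit 3) (nat_lit 49) (nat_lit 2) (nat_lit 6) (.e true (nat_lit 2) (nat_lit 52) (nat_lit 2) (nat_lit 6) (.e false (nat_lit 3) (nat_lit 53) (nat_lit 2) (nat_lit 6) (.e true (nat_lit 1) (nat_lit 54) (nat_lit 2) (nat_lit 6) (.e false (nat_lit 1) (nat_lit 55) (nat_lit 2) (nat_lit 6) (.e true (nat_lit 1) (nat_lit 58) (nat_lit 2) (nat_lit 6) (.e true (nat_lit 1) (nat_lit 22) (nat_lit 6) (nat_lit 2) (.e false (nat_lit 1) (nat_lit 67) (nat_lit 1) (nat_lit 7) (.e false (nat_lit 1) (nat_lit 35) (nat_lit 4) (nat_lit 4) (.u (nat_lit 2) (.p (nat_lit 0) (nat_lit 1) (.p (nat_lit 1) (nat_lit 1) (.p (nat_lit 3) (nat_lit 1) (.n (nat_lit 4) (nat_lit 1) (.p (nat_lit 5) (nat_lit 1) .z))))) .nil)))))))))))))) .leaf)) (nat_lit 31750) (nat_lit 221) (.p (nat_lit 117) (nat_lit 2) (.p (nat_lit 118) (nat_lit 2) (.n (nat_lit 120) (nat_lit 1) .z))) (.ct dD_c261 (nat_lit 1) (nat_lit 1) (.s false (nat_lit 1) (nat_lit 6) (nat_lit 0) (nat_lit 6) (nat_lit 2) true (nat_lit 2) true (nat_lit 3) true (nat_lit 1) true (nat_lit 4) true (nat_lit 1) (.e false (nat_lit 2) (nat_lit 65) (nat_lit 2) (nat_lit 3) (.e false (nat_lit 2) (nat_lit 66) (nat_lit 2) (nat_lit 3) (.e true (nat_lit 1) (nat_lit 32) (nat_lit 6) (nat_lit 1) .nil))))) (.nd (.nd .leaf (nat_lit 31759) (nat_lit 387) (.n (nat_lit 156) (nat_lit 2) (.p (nat_lit 157) (nat_lit 3) (.n (nat_lit 158) (nat_lit 1) (.p (nat_lit 159) (nat_lit 2) (.p (nat_lit 160) (nat_lit 3) (.n (nat_lit 161) (nat_lit 2) (.n (nat_lit 162) (nat_lit 3) (.p (nat_lit 163) (nat_lit 1) (.n (nat_lit 164) (nat_lit 1) (.p (nat_lit 165) (nat_lit 2) (.n (nat_lit 166) (nat_lit 1) (.p (nat_lit 168) (nat_lit 1) (.n (nat_lit 169) (nat_lit 1) (.p (nat_lit 171) (nat_lit 2) (.p (nat_lit 172) (nat_lit 1) (.p (nat_lit 174) (nat_lit 1) .z)))))))))))))))) (.ct dD_c277 (nat_lit 1) (nat_lit 1) (.s false (nat_lit 1) (nat_lit 31) (nat_lit 2) (nat_lit 2) (nat_lit 1) true (nat_lit 5) true (nat_lit 9) false (nat_lit 1) true (nat_lit 8) true (nat_lit 8) (.e false (nat_lit 1) (nat_lit 65) (nat_lit 5) (nat_lit 5) (.e false (nat_lit 1) (nat_lit 117) (nat_lit 1) (nat_lit 9) (.e true (nat_lit 1) (nat_lit 94) (nat_lit 2) (nat_lit 8) (.e true (nat_lit 2) (nat_lit 95) (nat_lit 2) (nat_lit 8) (.e false (nat_lit 3) (nat_lit 97) (nat_lit 2) (nat_lit 8) (.e false (nat_lit 2) (nat_lit 98) (nat_lit 2) (nat_lit 8) (.e true (nat_lit 1) (nat_lit 99) (nat_lit 2) (nat_lit 8) (.e true (nat_lit 2) (nat_lit 100) (nat_lit 2) (nat_lit 8) (.e true (nat_lit 2) (nat_lit 102) (nat_lit 2) (nat_lit 8) (.e false (nat_lit 2) (nat_lit 103) (nat_lit 2) (nat_lit 8) (.e false (nat_lit 1) (nat_lit 105) (nat_lit 2) (nat_lit 8) (.e false (nat_lit 1) (nat_lit 107) (nat_lit 2) (nat_lit 8) (.e true (nat_lit 1) (nat_lit 108) (nat_lit 2) (nat_lit 8) (.e false (nat_lit 1) (nat_lit 109) (nat_lit 2) (nat_lit 8) (.e true (nat_lit 1) (nat_lit 96) (nat_lit 2) (nat_lit 8) (.e false (nat_lit 1) (nat_lit 101) (nat_lit 2) (nat_lit 8) (.e true (nat_lit 1) (nat_lit 104) (nat_lit 2) (nat_lit 8) (.u (nat_lit 2) (.p (nat_lit 0) (nat_lit 1) (.n (nat_lit 1) (nat_lit 1) (.n (nat_lit 4) (nat_lit 1) (.p (nat_lit 5) (nat_lit 1) (.n (nat_lit 8) (nat_lit 1) (.p (nat_lit 61) (nat_lit 1) (.n (nat_lit 63) (nat_lit 1) .z))))))) .nil)))))))))))))))))))) .leaf) (nat_lit 32769) (nat_lit 80) (.p (nat_lit 48) (nat_lit 2) (.p (nat_lit 49) (nat_lit 3) (.n (nat_lit 50) (nat_lit 1) (.p (nat_lit 51) (nat_lit 1) (.n (nat_lit 52) (nat_lit 1) (.p (nat_lit 53) (nat_lit 1) (.n (nat_lit 56) (nat_lit 1) (.n (nat_lit 57) (nat_lit 1) .z)))))))) (.ct dD_c275 (nat_lit 1) (nat_lit 5) (.s false (nat_lit 1) (nat_lit 6) (nat_lit 0) (nat_lit 1) (nat_lit 2) true (nat_lit 2) true (nat_lit 4) true (nat_lit 0) true (nat_lit 6) true (nat_lit 5) (.e false (nat_lit 1) (nat_lit 15) (nat_lit 4) (nat_lit 2) (.e false (nat_lit 1) (nat_lit 25) (nat_lit 2) (nat_lit 4) (.e true (nat_lit 1) (nat_lit 8) (nat_lit 6) (nat_lit 0) (.e true (nat_lit 1) (nat_lit 34) (nat_lit 0) (nat_lit 6) (.e true (nat_lit 1) (nat_lit 35) (nat_lit 0) (nat_lit 6) .nil))))))) .leaf))) (nat_lit 32770) (nat_lit 93) (.p (nat_lit 66) (nat_lit 1) .z) .df (.nd (.nd (.nd (.nd .leaf (nat_lit 32773) (nat_lit 187) (.p (nat_lit 94) (nat_lit 3) (.n (nat_lit 95) (nat_lit 3) (.n (nat_lit 97) (nat_lit 3) (.n (nat_lit 98) (nat_lit 3) (.n (nat_lit 99) (nat_lit 1) (.p (nat_lit 100) (nat_lit 3) (.p (nat_lit 101) (nat_lit 3) (.p (nat_lit 103) (nat_lit 3) (.p (nat_lit 104) (nat_lit 3) (.p (nat_lit 108) (nat_lit 1) .z)))))))))) (.ct dD_c276 (nat_lit 1) (nat_lit 3) (.s false (nat_lit 1) (nat_lit 16) (nat_lit 2) (nat_lit 0) (nat_lit 1) true (nat_lit 3) true (nat_lit 7) false (nat_lit 1) true (nat_lit 6) true (nat_lit 8) (.e false (nat_lit 1) (nat_lit 65) (nat_lit 1) (nat_lit 7) (.e true (nat_lit 1) (nat_lit 67) (nat_lit 1) (nat_lit 7) (.e true (nat_lit 1) (nat_lit 16) (nat_lit 9) (nat_lit 1) (.e false (nat_lit 1) (nat_lit 49) (nat_lit 2) (nat_lit 6) (.e true (nat_lit 1) (nat_lit 50) (nat_lit 2) (nat_lit 6) (.e false (nat_lit 1) (nat_lit 51) (nat_lit 2) (nat_lit 6) (.e true (nat_lit 1) (nat_lit 53) (nat_lit 2) (nat_lit 6) (.e true (nat_lit 1) (nat_lit 56) (nat_lit 2) (nat_lit 6) (.e true (nat_lit 1) (nat_lit 70) (nat_lit 0) (nat_lit 8) (.u (nat_lit 2) (.p (nat_lit 1) (nat_lit 1) (.p (nat_lit 3) (nat_lit 1) (.n (nat_lit 9) (nat_lit 1) (.n (nat_lit 10) (nat_lit 1) .z)))) .nil)))))))))))) .leaf) (nat_lit 32774) (nat_lit 219) (.p (nat_lit 120) (nat_lit 1) .z) .df (.nd .leaf (nat_lit 32782) (nat_lit 383) (.n (nat_lit 156) (nat_lit 3) (.p (nat_lit 157) (nat_lit 2) (.n (nat_lit 158) (nat_lit 1) (.n (nat_lit 159) (nat_lit 2) (.p (nat_lit 160) (nat_lit 3) (.p (nat_lit 161) (nat_lit 3) (.n (nat_lit 164) (nat_lit 3) (.n (nat_lit 165) (nat_lit 2) (.n (nat_lit 166) (nat_lit 1) (.n (nat_lit 169) (nat_lit 2) (.p (nat_lit 174) (nat_lit 1) .z))))))))))) (.ct dD_c277 (nat_lit 1) (nat_lit 1) (.s true (nat_lit 1) (nat_lit 32) (nat_lit 1) (nat_lit 2) (nat_lit 2) true (nat_lit 5) true (nat_lit 8) false (nat_lit 1) true (nat_lit 9) true (nat_lit 8) (.e true (nat_lit 1) (nat_lit 66) (nat_lit 5) (nat_lit 5) (.e false (nat_lit 2) (nat_lit 94) (nat_lit 2) (nat_lit 8) (.e false (nat_lit 1) (nat_lit 95) (nat_lit 2) (nat_lit 8) (.e true (nat_lit 2) (nat_lit 98) (nat_lit 2) (nat_lit 8) (.e false (nat_lit 3) (nat_lit 99) (nat_lit 2) (nat_lit 8) (.e true (nat_lit 1) (nat_lit 102) (nat_lit 2) (nat_lit 8) (.e true (nat_lit 1) (nat_lit 103) (nat_lit 2) (nat_lit 8) (.e false (nat_lit 1) (nat_lit 120) (nat_lit 1) (nat_lit 9) (.e false (nat_lit 1) (nat_lit 100) (nat_lit 2) (nat_lit 8) (.e false (nat_lit 1) (nat_lit 101) (nat_lit 2) (nat_lit 8) (.e true (nat_lit 1) (nat_lit 104) (nat_lit 2) (nat_lit 8) (.e false (nat_lit 1) (nat_lit 106) (nat_lit 2) (nat_lit 8) (.e false (nat_lit 1) (nat_lit 107) (nat_lit 2) (nat_lit 8) (.u (nat_lit 2) (.p (nat_lit 0) (nat_lit 1) (.p (nat_lit 2) (nat_lit 1) (.n (nat_lit 4) (nat_lit 1) (.p (nat_lit 8) (nat_lit 1) (.n (nat_lit 60) (nat_lit 1) (.n (nat_lit 61) (nat_lit 1) (.n (nat_lit 65) (nat_lit 1) .z))))))) .nil)))))))))))))))) .leaf)) (nat_lit 32783) (nat_lit 369) (.p (nat_lit 156) (nat_lit 2) (.n (nat_lit 158) (nat_lit 2) (.p (nat_lit 159) (nat_lit 3) (.n (nat_lit 160) (nat_lit 3) (.n (nat_lit 161) (nat_lit 2) (.n (nat_lit 162) (nat_lit 2) (.n (nat_lit 163) (nat_lit 2) (.n (nat_lit 164) (nat_lit 1) (.p (nat_lit 166) (nat_lit 2) (.n (nat_lit 168) (nat_lit 1) (.p (nat_lit 169) (nat_lit 2) (.p (nat_lit 172) (nat_lit 1) (.n (nat_lit 174) (nat_lit 1) .z))))))))))))) (.ct dD_c277 (nat_lit 1) (nat_lit 1) (.s false (nat_lit 1) (nat_lit 32) (nat_lit 2) (nat_lit 2) (nat_lit 1) true (nat_lit 5) true (nat_lit 9) false (nat_lit 1) true (nat_lit 8) true (nat_lit 8) (.e false (nat_lit 1) (nat_lit 66) (nat_lit 5) (nat_lit 5) (.e false (nat_lit 1) (nat_lit 118) (nat_lit 1) (nat_lit 9) (.e false (nat_lit 1) (nat_lit 94) (nat_lit 2) (nat_lit 8) (.e false (nat_lit 1) (nat_lit 95) (nat_lit 2) (nat_lit 8) (.e false (nat_lit 3) (nat_lit 97) (nat_lit 2) (nat_lit 8) (.e true (nat_lit 2) (nat_lit 98) (nat_lit 2) (nat_lit 8) (.e true (nat_lit 2) (nat_lit 99) (nat_lit 2) (nat_lit 8) (.e false (nat_lit 3) (nat_lit 100) (nat_lit 2) (nat_lit 8) (.e false (nat_lit 3) (nat_lit 101) (nat_lit 2) (nat_lit 8) (.e true (nat_lit 3) (nat_lit 103) (nat_lit 2) (nat_lit 8) (.e false (nat_lit 3) (nat_lit 104) (nat_lit 2) (nat_lit 8) (.e false (nat_lit 1) (nat_lit 108) (nat_lit 2) (nat_lit 8) (.e false (nat_lit 1) (nat_lit 96) (nat_lit 2) (nat_lit 8) (.e false (nat_lit 1) (nat_lit 102) (nat_lit 2) (nat_lit 8) (.u (nat_lit 2) (.p (nat_lit 6) (nat_lit 1) (.p (nat_lit 7) (nat_lit 1) (.n (nat_lit 61) (nat_lit 1) (.n (nat_lit 63) (nat_lit 1) (.p (nat_lit 69) (nat_lit 1) .z))))) .nil))))))))))))))))) (.nd (.nd .leaf (nat_lit 33792) (nat_lit 69) (.p (nat_lit 55) (nat_lit 1) .z) .df .leaf) (nat_lit 33793) (nat_lit 85) (.p (nat_lit 62) (nat_lit 1) .z) .df .leaf)) (nat_lit 33794) (nat_lit 98) (.p (nat_lit 68) (nat_lit 1) .z) .df (.nd (.nd (.nd .leaf (nat_lit 33795) (nat_lit 134) (.p (nat_lit 73) (nat_lit 3) (.p (nat_lit 74) (nat_lit 2) (.n (nat_lit 75) (nat_lit 2) (.p (nat_lit 76) (nat_lit 2) (.n (nat_lit 81) (nat_lit 1) (.p (nat_lit 82) (nat_lit 1) (.n (nat_lit 84) (nat_lit 1) (.n (nat_lit 90) (nat_lit 1) (.p (nat_lit 91) (nat_lit 1) (.p (nat_lit 93) (nat_lit 1) .z)))))))))) (.ct dD_c291 (nat_lit 1) (nat_lit 6) (.s true (nat_lit 1) (nat_lit 5) (nat_lit 2) (nat_lit 3) (nat_lit 2) true (nat_lit 3) true (nat_lit 7) true (nat_lit 4) true (nat_lit 7) true (nat_lit 6) (.e false (nat_lit 1) (nat_lit 17) (nat_lit 6) (nat_lit 3) (.e true (nat_lit 1) (nat_lit 19) (nat_lit 6) (nat_lit 3) (.e false (nat_lit 1) (nat_lit 20) (nat_lit 6) (nat_lit 3) (.e false (nat_lit 1) (nat_lit 37) (nat_lit 2) (nat_lit 7) (.e false (nat_lit 1) (nat_lit 38) (nat_lit 2) (nat_lit 7) (.e true (nat_lit 1) (nat_lit 39) (nat_lit 2) (nat_lit 7) (.e false (nat_lit 1) (nat_lit 40) (nat_lit 2) (nat_lit 7) (.e false (nat_lit 1) (nat_lit 41) (nat_lit 2) (nat_lit 7) (.e true (nat_lit 1) (nat_lit 45) (nat_lit 2) (nat_lit 7) (.e false (nat_lit 1) (nat_lit 21) (nat_lit 5) (nat_lit 4) (.e true (nat_lit 1) (nat_lit 46) (nat_lit 2) (nat_lit 7) .nil))))))))))))) .leaf) (nat_lit 33796) (nat_lit 189) (.p (nat_lit 94) (nat_lit 2) (.p (nat_lit 95) (nat_lit 1) (.n (nat_lit 96) (nat_lit 1) (.p (nat_lit 97) (nat_lit 3) (.n (nat_lit 98) (nat_lit 2) (.n (nat_lit 99) (nat_lit 2) (.n (nat_lit 100) (nat_lit 3) (.n (nat_lit 101) (nat_lit 3) (.n (nat_lit 103) (nat_lit 3) (.n (nat_lit 104) (nat_lit 3) (.n (nat_lit 109) (nat_lit 1) .z))))))))))) (.ct dD_c276 (nat_lit 1) (nat_lit 4) (.s true (nat_lit 1) (nat_lit 5) (nat_lit 2) (nat_lit 2) (nat_lit 4) true (nat_lit 0) true (nat_lit 4) true (nat_lit 3) true (nat_lit 6) true (nat_lit 6) (.e true (nat_lit 1) (nat_lit 14) (nat_lit 12) (nat_lit 0) (.e true (nat_lit 1) (nat_lit 31) (nat_lit 5) (nat_lit 3) (.e true (nat_lit 1) (nat_lit 32) (nat_lit 5) (nat_lit 3) (.e false (nat_lit 1) (nat_lit 53) (nat_lit 2) (nat_lit 6) (.e false (nat_lit 1) (nat_lit 55) (nat_lit 2) (nat_lit 6) (.e true (nat_lit 1) (nat_lit 58) (nat_lit 2) (nat_lit 6) (.u (nat_lit 2) (.p (nat_lit 5) (nat_lit 1) .z) .nil))))))))) .leaf) (nat_lit 33797) (nat_lit 204) (.n (nat_lit 111) (nat_lit 1) (.n (nat_lit 113) (nat_lit 1) (.p (nat_lit 115) (nat_lit 1) .z))) (.ct dD_c36 (nat_lit 1) (nat_lit 3) (.s true (nat_lit 1) (nat_lit 14) (nat_lit 1) (nat_lit 2) (nat_lit 2) true (nat_lit 3) true (nat_lit 4) true (nat_lit 0) true (nat_lit 5) true (nat_lit 4) (.a true (nat_lit 3) (nat_lit 14) (nat_lit 14) (nat_lit 0) (nat_lit 0) (.e true (nat_lit 1) (nat_lit 60) (nat_lit 2) (nat_lit 4) (.e false (nat_lit 1) (nat_lit 71) (nat_lit 1) (nat_lit 5) (.e true (nat_lit 1) (nat_lit 62) (nat_lit 2) (nat_lit 4) (.u (nat_lit 2) (.p (nat_lit 6) (nat_lit 1) .z) .nil))))))) (.nd (.nd .leaf (nat_lit 33798) (nat_lit 236) (.p (nat_lit 122) (nat_lit 1) (.p (nat_lit 123) (nat_lit 2) (.n (nat_lit 124) (nat_lit 1) (.p (nat_lit 125) (nat_lit 1) .z)))) (.ct dD_c21 (nat_lit 1) (nat_lit 1) (.s true (nat_lit 1) (nat_lit 6) (nat_lit 5) (nat_lit 2) (nat_lit 2) true (nat_lit 0) true (nat_lit 3) true (nat_lit 1) true (nat_lit 2) true (nat_lit 3) (.e true (nat_lit 1) (nat_lit 16) (nat_lit 14) (nat_lit 0) (.e false (nat_lit 1) (nat_lit 71) (nat_lit 2) (nat_lit 3) .nil)))) .leaf) (nat_lit 33800) (nat_lit 281) (.n (nat_lit 126) (nat_lit 2) (.p (nat_lit 128) (nat_lit 1) (.n (nat_lit 129) (nat_lit 1) (.p (nat_lit 130) (nat_lit 2) (.p (nat_lit 134) (nat_lit 1) (.n (nat_lit 135) (nat_lit 3) (.p (nat_lit 137) (nat_lit 1) (.n (nat_lit 140) (nat_lit 3) (.p (nat_lit 143) (nat_lit 1) (.n (nat_lit 146) (nat_lit 1) (.n (nat_lit 155) (nat_lit 1) .z))))))))))) (.ct dD_c292 (nat_lit 1) (nat_lit 4) (.s false (nat_lit 1) (nat_lit 8) (nat_lit 2) (nat_lit 5) (nat_lit 2) true (nat_lit 6) true (nat_lit 10) true (nat_lit 4) true (nat_lit 10) true (nat_lit 7) (.e false (nat_lit 1) (nat_lit 46) (nat_lit 6) (nat_lit 6) (.e true (nat_lit 1) (nat_lit 74) (nat_lit 2) (nat_lit 10) (.e true (nat_lit 3) (nat_lit 77) (nat_lit 2) (nat_lit 10) (.e false (nat_lit 2) (nat_lit 82) (nat_lit 2) (nat_lit 10) (.e true (nat_lit 2) (nat_lit 84) (nat_lit 2) (nat_lit 10) (.e false (nat_lit 1) (nat_lit 87) (nat_lit 2) (nat_lit 10) (.e false (nat_lit 2) (nat_lit 91) (nat_lit 2) (nat_lit 10) (.e true (nat_lit 1) (nat_lit 48) (nat_lit 5) (nat_lit 7) (.u (nat_lit 2) (.n (nat_lit 4) (nat_lit 1) (.p (nat_lit 9) (nat_lit 1) (.p (nat_lit 14) (nat_lit 1) .z))) .nil))))))))))) .leaf)))) (nat_lit 33801) (nat_lit 323) (.p (nat_lit 126) (nat_lit 2) (.n (nat_lit 127) (nat_lit 3) (.n (nat_lit 128) (nat_lit 1) (.n (nat_lit 130) (nat_lit 2) (.p (nat_lit 131) (nat_lit 2) (.n (nat_lit 132) (nat_lit 2) (.p (nat_lit 133) (nat_lit 2) (.n (nat_lit 134) (nat_lit 1) (.n (nat_lit 135) (nat_lit 3) (.p (nat_lit 136) (nat_lit 3) (.p (nat_lit 138) (nat_lit 3) (.p (nat_lit 140) (nat_lit 3) (.n (nat_lit 141) (nat_lit 1) (.p (nat_lit 143) (nat_lit 1) (.n (nat_lit 144) (nat_lit 2) (.n (nat_lit 145) (nat_lit 1) (.p (nat_lit 146) (nat_lit 1) (.n (nat_lit 147) (nat_lit 1) (.n (nat_lit 148) (nat_lit 1) (.n (nat_lit 152) (nat_lit 3) (.n (nat_lit 153) (nat_lit 2) (.n (nat_lit 154) (nat_lit 3) (.p (nat_lit 155) (nat_lit 1) .z))))))))))))))))))))))) (.ct dD_c292 (nat_lit 1) (nat_lit 4) (.s false (nat_lit 1) (nat_lit 9) (nat_lit 5) (nat_lit 2) (nat_lit 2) true (nat_lit 1) true (nat_lit 10) true (nat_lit 4) true (nat_lit 7) true (nat_lit 10) (.e false (nat_lit 1) (nat_lit 22) (nat_lit 14) (nat_lit 1) (.e true (nat_lit 1) (nat_lit 57) (nat_lit 5) (nat_lit 7) (.e false (nat_lit 1) (nat_lit 75) (nat_lit 2) (nat_lit 10) (.e false (nat_lit 2) (nat_lit 78) (nat_lit 2) (nat_lit 10) (.e false (nat_lit 1) (nat_lit 85) (nat_lit 2) (nat_lit 10) (.e true (nat_lit 1) (nat_lit 88) (nat_lit 2) (nat_lit 10) (.e true (nat_lit 1) (nat_lit 92) (nat_lit 2) (nat_lit 10) (.u (nat_lit 2) (.n (nat_lit 10) (nat_lit 1) (.p (nat_lit 18) (nat_lit 1) (.p (nat_lit 26) (nat_lit 1) (.p (nat_lit 27) (nat_lit 1) .z)))) .nil)))))))))) (.nd (.nd (.nd (.nd (.nd .leaf (nat_lit 33802) (nat_lit 313) (.n (nat_lit 126) (nat_lit 2) (.n (nat_lit 127) (nat_lit 2) (.p (nat_lit 128) (nat_lit 2) (.n (nat_lit 129) (nat_lit 3) (.p (nat_lit 130) (nat_lit 1) (.p (nat_lit 131) (nat_lit 2) (.p (nat_lit 134) (nat_lit 3) (.p (nat_lit 135) (nat_lit 3) (.n (nat_lit 136) (nat_lit 1) (.n (nat_lit 137) (nat_lit 3) (.p (nat_lit 138) (nat_lit 3) (.n (nat_lit 140) (nat_lit 1) (.n (nat_lit 141) (nat_lit 1) (.n (nat_lit 143) (nat_lit 3) (.p (nat_lit 144) (nat_lit 1) (.n (nat_lit 145) (nat_lit 1) (.n (nat_lit 146) (nat_lit 1) (.n (nat_lit 148) (nat_lit 1) (.p (nat_lit 152) (nat_lit 2) (.p (nat_lit 153) (nat_lit 3) (.n (nat_lit 154) (nat_lit 3) (.p (nat_lit 155) (nat_lit 1) .z)))))))))))))))))))))) (.ct dD_c292 (nat_lit 1) (nat_lit 4) (.s true (nat_lit 1) (nat_lit 33) (nat_lit 1) (nat_lit 2) (nat_lit 0) true (nat_lit 9) true (nat_lit 12) false (nat_lit 4) true (nat_lit 11) true (nat_lit 10) (.e false (nat_lit 1) (nat_lit 68) (nat_lit 3) (nat_lit 9) (.e true (nat_lit 1) (nat_lit 113) (nat_lit 0) (nat_lit 12) (.e false (nat_lit 2) (nat_lit 94) (nat_lit 1) (nat_lit 11) (.e false (nat_lit 1) (nat_lit 95) (nat_lit 1) (nat_lit 11) (.e true (nat_lit 1) (nat_lit 96) (nat_lit 1) (nat_lit 11) (.e false (nat_lit 3) (nat_lit 97) (nat_lit 1) (nat_lit 11) (.e true (nat_lit 2) (nat_lit 98) (nat_lit 1) (nat_lit 11) (.e true (nat_lit 2) (nat_lit 99) (nat_lit 1) (nat_lit 11) dD_i2)))))))))) .leaf) (nat_lit 33804) (nat_lit 391) (.p (nat_lit 156) (nat_lit 3) (.n (nat_lit 157) (nat_lit 2) (.p (nat_lit 158) (nat_lit 1) (.n (nat_lit 159) (nat_lit 3) (.n (nat_lit 160) (nat_lit 3) (.p (nat_lit 162) (nat_lit 2) (.p (nat_lit 163) (nat_lit 3) (.n (nat_lit 164) (nat_lit 1) (.p (nat_lit 165) (nat_lit 3) (.p (nat_lit 166) (nat_lit 2) (.n (nat_lit 167) (nat_lit 1) (.n (nat_lit 170) (nat_lit 1) (.p (nat_lit 171) (nat_lit 1) (.p (nat_lit 172) (nat_lit 1) (.p (nat_lit 173) (nat_lit 1) .z))))))))))))))) (.ct dD_c277 (nat_lit 1) (nat_lit 2) (.s true (nat_lit 1) (nat_lit 12) (nat_lit 5) (nat_lit 2) (nat_lit 2) true (nat_lit 1) true (nat_lit 8) true (nat_lit 2) true (nat_lit 5) true (nat_lit 8) (.e true (nat_lit 1) (nat_lit 30) (nat_lit 14) (nat_lit 1) (.e false (nat_lit 1) (nat_lit 94) (nat_lit 2) (nat_lit 8) (.e false (nat_lit 1) (nat_lit 95) (nat_lit 2) (nat_lit 8) (.e true (nat_lit 1) (nat_lit 98) (nat_lit 2) (nat_lit 8) (.e false (nat_lit 2) (nat_lit 99) (nat_lit 2) (nat_lit 8) (.e false (nat_lit 1) (nat_lit 101) (nat_lit 2) (nat_lit 8) (.e true (nat_lit 1) (nat_lit 104) (nat_lit 2) (nat_lit 8) (.e false (nat_lit 1) (nat_lit 67) (nat_lit 5) (nat_lit 5) (.e false (nat_lit 1) (nat_lit 109) (nat_lit 2) (nat_lit 8) (.u (nat_lit 2) (.p (nat_lit 5) (nat_lit 1) (.n (nat_lit 10) (nat_lit 1) .z)) .nil)))))))))))) (.nd .leaf (nat_lit 33806) (nat_lit 411) (.n (nat_lit 175) (nat_lit 3) (.p (nat_lit 176) (nat_lit 2) (.p (nat_lit 177) (nat_lit 2) (.n (nat_lit 178) (nat_lit 2) (.p (nat_lit 180) (nat_lit 3) (.n (nat_lit 182) (nat_lit 3) .z)))))) (.ct dD_c37 (nat_lit 1) (nat_lit 1) (.s false (nat_lit 3) (nat_lit 14) (nat_lit 5) (nat_lit 2) (nat_lit 2) true (nat_lit 1) true (nat_lit 5) true (nat_lit 1) true (nat_lit 4) true (nat_lit 5) (.e false (nat_lit 2) (nat_lit 111) (nat_lit 2) (nat_lit 5) (.e true (nat_lit 2) (nat_lit 113) (nat_lit 2) (nat_lit 5) (.e true (nat_lit 3) (nat_lit 110) (nat_lit 2) (nat_lit 5) (.e false (nat_lit 2) (nat_lit 112) (nat_lit 2) (nat_lit 5) (.e false (nat_lit 3) (nat_lit 115) (nat_lit 2) (nat_lit 5) (.e true (nat_lit 3) (nat_lit 71) (nat_lit 5) (nat_lit 4) (.u (nat_lit 2) (.p (nat_lit 11) (nat_lit 1) (.p (nat_lit 28) (nat_lit 1) (.p (nat_lit 29) (nat_lit 1) (.n (nat_lit 30) (nat_lit 1) .z)))) .nil))))))))) .leaf)) (nat_lit 33807) (nat_lit 420) (.p (nat_lit 175) (nat_lit 2) (.n (nat_lit 176) (nat_lit 1) (.p (nat_lit 177) (nat_lit 3) (.n (nat_lit 178) (nat_lit 3) (.n (nat_lit 180) (nat_lit 3) (.p (nat_lit 181) (nat_lit 1) (.p (nat_lit 182) (nat_lit 1) .z))))))) (.ct dD_c37 (nat_lit 1) (nat_lit 1) (.s false (nat_lit 1) (nat_lit 14) (nat_lit 2) (nat_lit 5) (nat_lit 2) true (nat_lit 3) true (nat_lit 5) true (nat_lit 1) true (nat_lit 5) true (nat_lit 4) (.s true (nat_lit 1) (nat_lit 33) (nat_lit 2) (nat_lit 1) (nat_lit 2) true (nat_lit 3) true (nat_lit 5) false (nat_lit 1) true (nat_lit 5) true (nat_lit 6) (.s false (nat_lit 1) (nat_lit 33) (nat_lit 2) (nat_lit 2) (nat_lit 1) true (nat_lit 4) true (nat_lit 6) false (nat_lit 1) true (nat_lit 5) true (nat_lit 5) (.e true (nat_lit 1) (nat_lit 60) (nat_lit 6) (nat_lit 3) (.e false (nat_lit 1) (nat_lit 63) (nat_lit 6) (nat_lit 3) (.e true (nat_lit 3) (nat_lit 111) (nat_lit 2) (nat_lit 5) (.e false (nat_lit 3) (nat_lit 113) (nat_lit 2) (nat_lit 5) (.e false (nat_lit 3) (nat_lit 115) (nat_lit 2) (nat_lit 5) (.e false (nat_lit 2) (nat_lit 33) (nat_lit 14) (nat_lit 1) (.e true (nat_lit 1) (nat_lit 114) (nat_lit 2) (nat_lit 5) (.u (nat_lit 2) (.n (nat_lit 0) (nat_lit 1) (.p (nat_lit 5) (nat_lit 1) (.n (nat_lit 7) (nat_lit 1) (.n (nat_lit 30) (nat_lit 1) .z)))) .nil)))))))))))) (.nd (.nd .leaf (nat_lit 34816) (nat_lit 78) (.n (nat_lit 50) (nat_lit 1) (.n (nat_lit 51) (nat_lit 1) (.p (nat_lit 52) (nat_lit 1) (.n (nat_lit 54) (nat_lit 1) (.p (nat_lit 55) (nat_lit 1) (.n (nat_lit 56) (nat_lit 1) (.p (nat_lit 57) (nat_lit 1) .z))))))) (.ct dD_c275 (nat_lit 1) (nat_lit 6) (.s true (nat_lit 1) (nat_lit 4) (nat_lit 1) (nat_lit 2) (nat_lit 2) true (nat_lit 1) true (nat_lit 4) true (nat_lit 2) true (nat_lit 5) true (nat_lit 4) (.s true (nat_lit 1) (nat_lit 6) (nat_lit 1) (nat_lit 2) (nat_lit 0) true (nat_lit 3) true (nat_lit 6) true (nat_lit 0) true (nat_lit 5) true (nat_lit 4) (.e true (nat_lit 1) (nat_lit 12) (nat_lit 5) (nat_lit 1) (.e true (nat_lit 1) (nat_lit 22) (nat_lit 2) (nat_lit 4) (.e false (nat_lit 1) (nat_lit 14) (nat_lit 4) (nat_lit 2) (.e true (nat_lit 1) (nat_lit 24) (nat_lit 2) (nat_lit 4) (.e false (nat_lit 1) (nat_lit 16) (nat_lit 3) (nat_lit 3) (.e false (nat_lit 1) (nat_lit 10) (nat_lit 6) (nat_lit 0) (.e false (nat_lit 1) (nat_lit 25) (nat_lit 2) (nat_lit 4) .nil)))))))))) .leaf) (nat_lit 34817) (nat_lit 86) (.p (nat_lit 63) (nat_lit 1) .z) .df .leaf)) (nat_lit 34818) (nat_lit 99) (.p (nat_lit 69) (nat_lit 1) .z) .df (.nd (.nd (.nd .leaf (nat_lit 34819) (nat_lit 127) (.p (nat_lit 93) (nat_lit 1) .z) .df .leaf) (nat_lit 34820) (nat_lit 186) (.p (nat_lit 94) (nat_lit 2) (.p (nat_lit 95) (nat_lit 3) (.p (nat_lit 97) (nat_lit 1) (.n (nat_lit 98) (nat_lit 2) (.n (nat_lit 100) (nat_lit 1) (.n (nat_lit 101) (nat_lit 2) (.p (nat_lit 102) (nat_lit 1) (.p (nat_lit 103) (nat_lit 1) (.p (nat_lit 104) (nat_lit 3) (.n (nat_lit 105) (nat_lit 1) (.n (nat_lit 107) (nat_lit 2) (.n (nat_lit 109) (nat_lit 1) .z)))))))))))) (.ct dD_c276 (nat_lit 1) (nat_lit 4) (.s false (nat_lit 1) (nat_lit 5) (nat_lit 4) (nat_lit 2) (nat_lit 2) true (nat_lit 0) true (nat_lit 6) true (nat_lit 3) true (nat_lit 4) true (nat_lit 6) (.e false (nat_lit 1) (nat_lit 14) (nat_lit 12) (nat_lit 0) (.e true (nat_lit 1) (nat_lit 30) (nat_lit 5) (nat_lit 3) (.e true (nat_lit 1) (nat_lit 35) (nat_lit 4) (nat_lit 4) (.e false (nat_lit 1) (nat_lit 51) (nat_lit 2) (nat_lit 6) (.e false (nat_lit 1) (nat_lit 54) (nat_lit 2) (nat_lit 6) (.e true (nat_lit 1) (nat_lit 57) (nat_lit 2) (nat_lit 6) (.u (nat_lit 2) (.n (nat_lit 0) (nat_lit 1) (.n (nat_lit 1) (nat_lit 1) (.p (nat_lit 4) (nat_lit 1) (.n (nat_lit 9) (nat_lit 1) (.n (nat_lit 10) (nat_lit 1) .z))))) .nil))))))))) .leaf) (nat_lit 34821) (nat_lit 211) (.p (nat_lit 110) (nat_lit 3) (.p (nat_lit 111) (nat_lit 1) (.n (nat_lit 113) (nat_lit 1) (.p (nat_lit 114) (nat_lit 1) (.n (nat_lit 115) (nat_lit 2) .z))))) (.ct dD_c36 (nat_lit 1) (nat_lit 3) (.s true (nat_lit 1) (nat_lit 15) (nat_lit 2) (nat_lit 2) (nat_lit 1) true (nat_lit 3) true (nat_lit 5) true (nat_lit 0) true (nat_lit 4) true (nat_lit 4) (.a false (nat_lit 3) (nat_lit 15) (nat_lit 15) (nat_lit 0) (nat_lit 0) (.e true (nat_lit 1) (nat_lit 69) (nat_lit 1) (nat_lit 5) (.e true (nat_lit 2) (nat_lit 59) (nat_lit 2) (nat_lit 4) (.e true (nat_lit 2) (nat_lit 60) (nat_lit 2) (nat_lit 4) (.e false (nat_lit 2) (nat_lit 61) (nat_lit 2) (nat_lit 4) (.e false (nat_lit 1) (nat_lit 63) (nat_lit 2) (nat_lit 4) (.u (nat_lit 2) (.n (nat_lit 0) (nat_lit 1) (.p (nat_lit 2) (nat_lit 1) (.p (nat_lit 5) (nat_lit 1) (.n (nat_lit 9) (nat_lit 1) .z)))) .nil))))))))) (.nd (.nd .leaf (nat_lit 34822) (nat_lit 232) (.p (nat_lit 122) (nat_lit 2) (.p (nat_lit 123) (nat_lit 2) (.n (nat_lit 125) (nat_lit 1) .z))) (.ct dD_c21 (nat_lit 1) (nat_lit 1) (.s false (nat_lit 1) (nat_lit 6) (nat_lit 1) (nat_lit 6) (nat_lit 2) true (nat_lit 2) true (nat_lit 3) true (nat_lit 1) true (nat_lit 4) true (nat_lit 1) (.e false (nat_lit 2) (nat_lit 69) (nat_lit 2) (nat_lit 3) (.e false (nat_lit 2) (nat_lit 70) (nat_lit 2) (nat_lit 3) (.e true (nat_lit 1) (nat_lit 35) (nat_lit 6) (nat_lit 1) .nil))))) .leaf) (nat_lit 34824) (nat_lit 279) (.n (nat_lit 126) (nat_lit 2) (.n (nat_lit 127) (nat_lit 3) (.p (nat_lit 128) (nat_lit 1) (.n (nat_lit 129) (nat_lit 1) (.p (nat_lit 130) (nat_lit 3) (.n (nat_lit 135) (nat_lit 3) (.n (nat_lit 137) (nat_lit 3) (.p (nat_lit 140) (nat_lit 3) (.p (nat_lit 143) (nat_lit 2) (.p (nat_lit 144) (nat_lit 3) (.n (nat_lit 146) (nat_lit 1) (.n (nat_lit 147) (nat_lit 1) (.n (nat_lit 153) (nat_lit 2) (.n (nat_lit 155) (nat_lit 1) .z)))))))))))))) (.ct dD_c292 (nat_lit 1) (nat_lit 4) (.s false (nat_lit 1) (nat_lit 8) (nat_lit 6) (nat_lit 1) (nat_lit 2) true (nat_lit 0) true (nat_lit 10) true (nat_lit 4) true (nat_lit 6) true (nat_lit 11) (.e true (nat_lit 1) (nat_lit 18) (nat_lit 16) (nat_lit 0) (.e false (nat_lit 1) (nat_lit 87) (nat_lit 2) (nat_lit 10) (.e false (nat_lit 1) (nat_lit 46) (nat_lit 6) (nat_lit 6) (.e true (nat_lit 1) (nat_lit 106) (nat_lit 1) (nat_lit 11) (.u (nat_lit 2) (.p (nat_lit 1) (nat_lit 1) (.n (nat_lit 4) (nat_lit 1) (.p (nat_lit 9) (nat_lit 1) (.p (nat_lit 11) (nat_lit 1) (.n (nat_lit 18) (nat_lit 1) .z))))) .nil))))))) .leaf))) (nat_lit 34825) (nat_lit 308) (.p (nat_lit 126) (nat_lit 2) (.n (nat_lit 127) (nat_lit 1) (.p (nat_lit 128) (nat_lit 2) (.p (nat_lit 129) (nat_lit 1) (.n (nat_lit 130) (nat_lit 1) (.n (nat_lit 131) (nat_lit 2) (.n (nat_lit 132) (nat_lit 3) (.p (nat_lit 133) (nat_lit 3) (.n (nat_lit 134) (nat_lit 1) (.n (nat_lit 135) (nat_lit 2) (.p (nat_lit 136) (nat_lit 3) (.n (nat_lit 137) (nat_lit 3) (.p (nat_lit 138) (nat_lit 2) (.n (nat_lit 143) (nat_lit 2) (.p (nat_lit 144) (nat_lit 2) (.n (nat_lit 145) (nat_lit 2) (.p (nat_lit 146) (nat_lit 2) (.n (nat_lit 147) (nat_lit 1) (.n (nat_lit 148) (nat_lit 2) (.p (nat_lit 152) (nat_lit 2) (.p (nat_lit 153) (nat_lit 3) (.n (nat_lit 154) (nat_lit 2) (.p (nat_lit 155) (nat_lit 1) .z))))))))))))))))))))))) (.ct dD_c292 (nat_lit 1) (nat_lit 4) (.s true (nat_lit 1) (nat_lit 9) (nat_lit 1) (nat_lit 2) (nat_lit 6) true (nat_lit 1) true (nat_lit 6) true (nat_lit 4) true (nat_lit 11) true (nat_lit 10) (.s false (nat_lit 1) (nat_lit 9) (nat_lit 2) (nat_lit 6) (nat_lit 1) true (nat_lit 7) true (nat_lit 11) true (nat_lit 4) true (nat_lit 10) true (nat_lit 6) (.e true (nat_lit 1) (nat_lit 22) (nat_lit 15) (nat_lit 1) (.e true (nat_lit 2) (nat_lit 39) (nat_lit 6) (nat_lit 6) (.e false (nat_lit 1) (nat_lit 103) (nat_lit 1) (nat_lit 11) (.e true (nat_lit 1) (nat_lit 57) (nat_lit 5) (nat_lit 7) (.e false (nat_lit 2) (nat_lit 75) (nat_lit 2) (nat_lit 10) (.e false (nat_lit 2) (nat_lit 78) (nat_lit 2) (nat_lit 10) (.e true (nat_lit 2) (nat_lit 83) (nat_lit 2) (nat_lit 10) (.e true (nat_lit 1) (nat_lit 92) (nat_lit 2) (nat_lit 10) (.u (nat_lit 2) (.n (nat_lit 10) (nat_lit 1) .z) .nil)))))))))))) (.nd (.nd (.nd (.nd .leaf (nat_lit 34829) (nat_lit 388) (.n (nat_lit 156) (nat_lit 2) (.n (nat_lit 157) (nat_lit 3) (.n (nat_lit 158) (nat_lit 2) (.n (nat_lit 159) (nat_lit 1) (.p (nat_lit 160) (nat_lit 1) (.p (nat_lit 161) (nat_lit 3) (.p (nat_lit 162) (nat_lit 3) (.p (nat_lit 164) (nat_lit 3) (.n (nat_lit 166) (nat_lit 1) (.p (nat_lit 167) (nat_lit 3) (.p (nat_lit 168) (nat_lit 1) (.p (nat_lit 171) (nat_lit 2) (.p (nat_lit 172) (nat_lit 3) (.n (nat_lit 174) (nat_lit 1) .z)))))))))))))) (.ct dD_c277 (nat_lit 1) (nat_lit 2) (.s false (nat_lit 1) (nat_lit 13) (nat_lit 1) (nat_lit 2) (nat_lit 6) true (nat_lit 1) true (nat_lit 4) true (nat_lit 2) true (nat_lit 9) true (nat_lit 8) (.e false (nat_lit 1) (nat_lit 31) (nat_lit 15) (nat_lit 1) (.e false (nat_lit 1) (nat_lit 52) (nat_lit 6) (nat_lit 4) (.e true (nat_lit 1) (nat_lit 35) (nat_lit 13) (nat_lit 2) (.e true (nat_lit 1) (nat_lit 120) (nat_lit 1) (nat_lit 9) (.e false (nat_lit 2) (nat_lit 94) (nat_lit 2) (nat_lit 8) (.e true (nat_lit 3) (nat_lit 95) (nat_lit 2) (nat_lit 8) (.e true (nat_lit 2) (nat_lit 98) (nat_lit 2) (nat_lit 8) (.e false (nat_lit 2) (nat_lit 99) (nat_lit 2) (nat_lit 8) (.e true (nat_lit 2) (nat_lit 100) (nat_lit 2) (nat_lit 8) (.e true (nat_lit 2) (nat_lit 105) (nat_lit 2) (nat_lit 8) (.e true (nat_lit 2) (nat_lit 107) (nat_lit 2) (nat_lit 8) (.e true (nat_lit 2) (nat_lit 109) (nat_lit 2) (nat_lit 8) (.e false (nat_lit 2) (nat_lit 97) (nat_lit 2) (nat_lit 8) (.u (nat_lit 2) (.n (nat_lit 0) (nat_lit 1) (.p (nat_lit 1) (nat_lit 1) (.n (nat_lit 2) (nat_lit 1) (.p (nat_lit 3) (nat_lit 2) (.p (nat_lit 4) (nat_lit 1) (.n (nat_lit 5) (nat_lit 1) (.n (nat_lit 6) (nat_lit 1) (.p (nat_lit 10) (nat_lit 1) (.n (nat_lit 11) (nat_lit 1) (.n (nat_lit 12) (nat_lit 1) (.n (nat_lit 60) (nat_lit 2) (.n (nat_lit 61) (nat_lit 1) (.n (nat_lit 65) (nat_lit 2) .z))))))))))))) .nil)))))))))))))))) .leaf) (nat_lit 34831) (nat_lit 423) (.p (nat_lit 176) (nat_lit 2) (.n (nat_lit 177) (nat_lit 2) (.p (nat_lit 178) (nat_lit 3) (.p (nat_lit 179) (nat_lit 1) (.n (nat_lit 180) (nat_lit 1) (.p (nat_lit 182) (nat_lit 2) .z)))))) (.ct dD_c37 (nat_lit 1) (nat_lit 1) (.s true (nat_lit 1) (nat_lit 6) (nat_lit 5) (nat_lit 1) (nat_lit 6) false (nat_lit 1) true (nat_lit 3) true (nat_lit 3) true (nat_lit 4) true (nat_lit 6) (.e true (nat_lit 1) (nat_lit 35) (nat_lit 15) (nat_lit 1) (.e false (nat_lit 1) (nat_lit 61) (nat_lit 6) (nat_lit 3) (.e true (nat_lit 1) (nat_lit 63) (nat_lit 6) (nat_lit 3) (.e false (nat_lit 2) (nat_lit 69) (nat_lit 5) (nat_lit 4) (.e false (nat_lit 2) (nat_lit 70) (nat_lit 5) (nat_lit 4) (.u (nat_lit 2) (.p (nat_lit 1) (nat_lit 1) (.p (nat_lit 2) (nat_lit 1) (.n (nat_lit 5) (nat_lit 1) .z))) .nil)))))))) (.nd .leaf (nat_lit 35840) (nat_lit 79) (.p (nat_lit 50) (nat_lit 2) (.n (nat_lit 52) (nat_lit 1) (.p (nat_lit 53) (nat_lit 2) (.p (nat_lit 56) (nat_lit 1) (.n (nat_lit 58) (nat_lit 1) .z))))) (.ct dD_c275 (nat_lit 1) (nat_lit 6) (.s false (nat_lit 1) (nat_lit 5) (nat_lit 0) (nat_lit 2) (nat_lit 2) true (nat_lit 2) true (nat_lit 4) true (nat_lit 1) true (nat_lit 6) true (nat_lit 4) (.e false (nat_lit 1) (nat_lit 14) (nat_lit 4) (nat_lit 2) (.e false (nat_lit 1) (nat_lit 23) (nat_lit 2) (nat_lit 4) (.e true (nat_lit 1) (nat_lit 12) (nat_lit 5) (nat_lit 1) (.e true (nat_lit 1) (nat_lit 34) (nat_lit 0) (nat_lit 6) (.e false (nat_lit 1) (nat_lit 26) (nat_lit 2) (nat_lit 4) .nil))))))) .leaf)) (nat_lit 35841) (nat_lit 87) (.p (nat_lit 59) (nat_lit 1) (.p (nat_lit 60) (nat_lit 1) (.n (nat_lit 63) (nat_lit 1) .z))) (.ct dD_c35 (nat_lit 1) (nat_lit 3) (.s false (nat_lit 1) (nat_lit 5) (nat_lit 1) (nat_lit 2) (nat_lit 2) true (nat_lit 1) true (nat_lit 2) true (nat_lit 1) true (nat_lit 3) true (nat_lit 2) (.e false (nat_lit 1) (nat_lit 27) (nat_lit 2) (nat_lit 2) (.e true (nat_lit 1) (nat_lit 34) (nat_lit 1) (nat_lit 3) (.e false (nat_lit 1) (nat_lit 28) (nat_lit 2) (nat_lit 2) .nil))))) (.nd (.nd .leaf (nat_lit 35842) (nat_lit 100) (.p (nat_lit 70) (nat_lit 1) .z) .df .leaf) (nat_lit 35843) (nat_lit 132) (.n (nat_lit 74) (nat_lit 2) (.n (nat_lit 77) (nat_lit 2) (.p (nat_lit 81) (nat_lit 1) (.p (nat_lit 87) (nat_lit 1) (.n (nat_lit 93) (nat_lit 1) .z))))) (.ct dD_c291 (nat_lit 1) (nat_lit 6) (.s false (nat_lit 1) (nat_lit 5) (nat_lit 3) (nat_lit 2) (nat_lit 2) true (nat_lit 1) true (nat_lit 7) true (nat_lit 4) true (nat_lit 6) true (nat_lit 7) (.e true (nat_lit 1) (nat_lit 14) (nat_lit 8) (nat_lit 1) (.e false (nat_lit 1) (nat_lit 21) (nat_lit 5) (nat_lit 4) (.e true (nat_lit 1) (nat_lit 34) (nat_lit 3) (nat_lit 6) (.e true (nat_lit 1) (nat_lit 38) (nat_lit 2) (nat_lit 7) (.e true (nat_lit 1) (nat_lit 41) (nat_lit 2) (nat_lit 7) (.e false (nat_lit 1) (nat_lit 45) (nat_lit 2) (nat_lit 7) .nil)))))))) .leaf)) (nat_lit 35844) (nat_lit 180) (.p (nat_lit 94) (nat_lit 3) (.p (nat_lit 95) (nat_lit 3) (.p (nat_lit 96) (nat_lit 1) (.p (nat_lit 97) (nat_lit 3) (.n (nat_lit 98) (nat_lit 3) (.p (nat_lit 100) (nat_lit 3) (.p (nat_lit 101) (nat_lit 3) (.p (nat_lit 103) (nat_lit 3) (.p (nat_lit 104) (nat_lit 3) (.p (nat_lit 107) (nat_lit 1) .z)))))))))) (.ct dD_c276 (nat_lit 1) (nat_lit 4) (.s true (nat_lit 1) (nat_lit 5) (nat_lit 2) (nat_lit 4) (nat_lit 2) true (nat_lit 2) true (nat_lit 6) true (nat_lit 3) true (nat_lit 6) true (nat_lit 4) (.s false (nat_lit 1) (nat_lit 12) (nat_lit 2) (nat_lit 1) (nat_lit 2) true (nat_lit 2) true (nat_lit 6) true (nat_lit 0) true (nat_lit 6) true (nat_lit 7) (.s true (nat_lit 1) (nat_lit 14) (nat_lit 0) (nat_lit 2) (nat_lit 2) true (nat_lit 4) true (nat_lit 6) false (nat_lit 0) true (nat_lit 8) true (nat_lit 6) (.s true (nat_lit 1) (nat_lit 15) (nat_lit 2) (nat_lit 0) (nat_lit 2) true (nat_lit 2) true (nat_lit 6) false (nat_lit 0) true (nat_lit 6) true (nat_lit 8) (.s false (nat_lit 1) (nat_lit 16) (nat_lit 2) (nat_lit 1) (nat_lit 0) true (nat_lit 4) true (nat_lit 8) false (nat_lit 1) true (nat_lit 6) true (nat_lit 7) (.e true (nat_lit 1) (nat_lit 21) (nat_lit 6) (nat_lit 2) (.e true (nat_lit 2) (nat_lit 48) (nat_lit 2) (nat_lit 6) (.e true (nat_lit 2) (nat_lit 49) (nat_lit 2) (nat_lit 6) (.e false (nat_lit 1) (nat_lit 51) (nat_lit 2) (nat_lit 6) (.e false (nat_lit 1) (nat_lit 52) (nat_lit 2) (nat_lit 6) (.e false (nat_lit 1) (nat_lit 53) (nat_lit 2) (nat_lit 6) (.e false (nat_lit 2) (nat_lit 54) (nat_lit 2) (nat_lit 6) (.e true (nat_lit 2) (nat_lit 57) (nat_lit 2) (nat_lit 6) (.e false (nat_lit 1) (nat_lit 30) (nat_lit 5) (nat_lit 3) (.e false (nat_lit 1) (nat_lit 55) (nat_lit 2) (nat_lit 6) (.e true (nat_lit 3) (nat_lit 58) (nat_lit 2) (nat_lit 6) (.e false (nat_lit 1) (nat_lit 64) (nat_lit 1) (nat_lit 7) (.e false (nat_lit 1) (nat_lit 23) (nat_lit 6) (nat_lit 2) (.e false (nat_lit 2) (nat_lit 50) (nat_lit 2) (nat_lit 6) (.e false (nat_lit 2) (nat_lit 56) (nat_lit 2) (nat_lit 6) (.e false (nat_lit 1) (nat_lit 15) (nat_lit 12) (nat_lit 0) (.e true (nat_lit 1) (nat_lit 16) (nat_lit 10) (nat_lit 1) (.e true (nat_lit 1) (nat_lit 66) (nat_lit 1) (nat_lit 7) (.u (nat_lit 2) (.n (nat_lit 0) (nat_lit 1) (.n (nat_lit 1) (nat_lit 1) (.n (nat_lit 9) (nat_lit 1) (.n (nat_lit 10) (nat_lit 1) (.p (nat_lit 36) (nat_lit 1) (.p (nat_lit 37) (nat_lit 1) (.n (nat_lit 40) (nat_lit 1) (.p (nat_lit 41) (nat_lit 1) .z)))))))) .nil))))))))))))))))))))))))) (.nd (.nd (.nd .leaf (nat_lit 35845) (nat_lit 214) (.n (nat_lit 110) (nat_lit 3) (.n (nat_lit 111) (nat_lit 3) (.n (nat_lit 112) (nat_lit 2) (.n (nat_lit 113) (nat_lit 1) (.n (nat_lit 114) (nat_lit 1) (.n (nat_lit 115) (nat_lit 1) .z)))))) (.ct dD_c36 (nat_lit 1) (nat_lit 3) (.s false (nat_lit 1) (nat_lit 16) (nat_lit 2) (nat_lit 1) (nat_lit 1) true (nat_lit 3) true (nat_lit 5) false (nat_lit 1) true (nat_lit 4) true (nat_lit 5) (.e false (nat_lit 1) (nat_lit 69) (nat_lit 1) (nat_lit 5) (.e true (nat_lit 1) (nat_lit 71) (nat_lit 1) (nat_lit 5) (.e true (nat_lit 1) (nat_lit 16) (nat_lit 11) (nat_lit 1) (.e true (nat_lit 1) (nat_lit 70) (nat_lit 1) (nat_lit 5) (.u (nat_lit 2) (.p (nat_lit 0) (nat_lit 1) .z) .nil))))))) .leaf) (nat_lit 35846) (nat_lit 230) (.p (nat_lit 125) (nat_lit 1) .z) .df .leaf) (nat_lit 35848) (nat_lit 280) (.p (nat_lit 126) (nat_lit 2) (.n (nat_lit 127) (nat_lit 1) (.n (nat_lit 128) (nat_lit 1) (.p (nat_lit 129) (nat_lit 1) (.n (nat_lit 130) (nat_lit 3) (.n (nat_lit 134) (nat_lit 1) (.n (nat_lit 135) (nat_lit 2) (.n (nat_lit 137) (nat_lit 1) (.p (nat_lit 140) (nat_lit 3) (.n (nat_lit 143) (nat_lit 1) (.p (nat_lit 146) (nat_lit 1) (.p (nat_lit 153) (nat_lit 1) .z)))))))))))) (.ct dD_c292 (nat_lit 1) (nat_lit 4) (.s false (nat_lit 1) (nat_lit 8) (nat_lit 6) (nat_lit 2) (nat_lit 1) true (nat_lit 1) true (nat_lit 11) true (nat_lit 4) true (nat_lit 6) true (nat_lit 10) (.e true (nat_lit 1) (nat_lit 21) (nat_lit 15) (nat_lit 1) (.e false (nat_lit 1) (nat_lit 102) (nat_lit 1) (nat_lit 11) (.e true (nat_lit 1) (nat_lit 46) (nat_lit 6) (nat_lit 6) (.e true (nat_lit 1) (nat_lit 91) (nat_lit 2) (nat_lit 10) (.u (nat_lit 2) (.p (nat_lit 4) (nat_lit 1) (.n (nat_lit 14) (nat_lit 1) .z)) .nil))))))) (.nd (.nd .leaf (nat_lit 35850) (nat_lit 315) (.p (nat_lit 126) (nat_lit 1) (.n (nat_lit 127) (nat_lit 2) (.n (nat_lit 128) (nat_lit 3) (.n (nat_lit 129) (nat_lit 1) (.p (nat_lit 130) (nat_lit 2) (.n (nat_lit 131) (nat_lit 1) (.n (nat_lit 132) (nat_lit 1) (.p (nat_lit 133) (nat_lit 1) (.n (nat_lit 134) (nat_lit 2) (.n (nat_lit 135) (nat_lit 1) (.p (nat_lit 136) (nat_lit 3) (.n (nat_lit 137) (nat_lit 2) (.p (nat_lit 138) (nat_lit 2) (.n (nat_lit 140) (nat_lit 3) (.n (nat_lit 141) (nat_lit 1) (.n (nat_lit 143) (nat_lit 1) (.n (nat_lit 144) (nat_lit 1) (.p (nat_lit 145) (nat_lit 1) (.n (nat_lit 146) (nat_lit 3) (.n (nat_lit 152) (nat_lit 2) (.n (nat_lit 153) (nat_lit 1) (.n (nat_lit 154) (nat_lit 2) .z)))))))))))))))))))))) (.ct dD_c292 (nat_lit 1) (nat_lit 4) (.s false (nat_lit 1) (nat_lit 10) (nat_lit 2) (nat_lit 5) (nat_lit 2) true (nat_lit 6) true (nat_lit 10) true (nat_lit 4) true (nat_lit 10) true (nat_lit 7) (.s false (nat_lit 1) (nat_lit 10) (nat_lit 6) (nat_lit 2) (nat_lit 1) true (nat_lit 1) true (nat_lit 11) true (nat_lit 4) true (nat_lit 6) true (nat_lit 10) (.e false (nat_lit 2) (nat_lit 73) (nat_lit 2) (nat_lit 10) (.e true (nat_lit 2) (nat_lit 75) (nat_lit 2) (nat_lit 10) (.e false (nat_lit 1) (nat_lit 76) (nat_lit 2) (nat_lit 10) (.e false (nat_lit 2) (nat_lit 77) (nat_lit 2) (nat_lit 10) (.e true (nat_lit 3) (nat_lit 78) (nat_lit 2) (nat_lit 10) (.e false (nat_lit 2) (nat_lit 79) (nat_lit 2) (nat_lit 10) (.e true (nat_lit 2) (nat_lit 80) (nat_lit 2) (nat_lit 10) (.e false (nat_lit 3) (nat_lit 82) (nat_lit 2) (nat_lit 10) (.e true (nat_lit 2) (nat_lit 83) (nat_lit 2) (nat_lit 10) (.e true (nat_lit 2) (nat_lit 84) (nat_lit 2) (nat_lit 10) (.e true (nat_lit 2) (nat_lit 85) (nat_lit 2) (nat_lit 10) (.e true (nat_lit 1) (nat_lit 87) (nat_lit 2) (nat_lit 10) (.e false (nat_lit 1) (nat_lit 88) (nat_lit 2) (nat_lit 10) (.e true (nat_lit 2) (nat_lit 90) (nat_lit 2) (nat_lit 10) (.e true (nat_lit 1) (nat_lit 91) (nat_lit 2) (nat_lit 10) (.e false (nat_lit 1) (nat_lit 92) (nat_lit 2) (nat_lit 10) (.e false (nat_lit 2) (nat_lit 93) (nat_lit 2) (nat_lit 10) (.e true (nat_lit 1) (nat_lit 33) (nat_lit 10) (nat_lit 4) (.e true (nat_lit 1) (nat_lit 50) (nat_lit 5) (nat_lit 7) (.e true (nat_lit 1) (nat_lit 23) (nat_lit 15) (nat_lit 1) (.e false (nat_lit 1) (nat_lit 104) (nat_lit 1) (nat_lit 11) (.u (nat_lit 2) (.p (nat_lit 0) (nat_lit 1) (.p (nat_lit 1) (nat_lit 1) (.n (nat_lit 2) (nat_lit 1) (.n (nat_lit 4) (nat_lit 1) (.n (nat_lit 5) (nat_lit 1) (.n (nat_lit 10) (nat_lit 1) (.p (nat_lit 11) (nat_lit 1) (.n (nat_lit 12) (nat_lit 1) (.p (nat_lit 20) (nat_lit 1) (.n (nat_lit 26) (nat_lit 1) (.n (nat_lit 27) (nat_lit 1) (.p (nat_lit 28) (nat_lit 1) (.n (nat_lit 96) (nat_lit 1) (.p (nat_lit 98) (nat_lit 1) (.n (nat_lit 102) (nat_lit 1) (.p (nat_lit 103) (nat_lit 1) (.n (nat_lit 105) (nat_lit 1) .z))))))))))))))))) .nil))))))))))))))))))))))))) .leaf) (nat_lit 35852) (nat_lit 400) (.n (nat_lit 156) (nat_lit 3) (.p (nat_lit 157) (nat_lit 3) (.n (nat_lit 158) (nat_lit 2) (.n (nat_lit 159) (nat_lit 1) (.p (nat_lit 160) (nat_lit 3) (.p (nat_lit 161) (nat_lit 2) (.p (nat_lit 164) (nat_lit 3) (.n (nat_lit 165) (nat_lit 1) (.n (nat_lit 166) (nat_lit 2) (.n (nat_lit 168) (nat_lit 2) (.p (nat_lit 173) (nat_lit 1) .z))))))))))) (.ct dD_c277 (nat_lit 1) (nat_lit 2) (.s true (nat_lit 1) (nat_lit 35) (nat_lit 0) (nat_lit 2) (nat_lit 2) true (nat_lit 6) true (nat_lit 8) false (nat_lit 2) true (nat_lit 10) true (nat_lit 8) (.e true (nat_lit 1) (nat_lit 70) (nat_lit 4) (nat_lit 6) (.e true (nat_lit 1) (nat_lit 96) (nat_lit 2) (nat_lit 8) (.e true (nat_lit 2) (nat_lit 98) (nat_lit 2) (nat_lit 8) (.e false (nat_lit 2) (nat_lit 99) (nat_lit 2) (nat_lit 8) (.e false (nat_lit 1) (nat_lit 102) (nat_lit 2) (nat_lit 8) (.e true (nat_lit 1) (nat_lit 104) (nat_lit 2) (nat_lit 8) (.e false (nat_lit 1) (nat_lit 125) (nat_lit 0) (nat_lit 10) (.e false (nat_lit 2) (nat_lit 94) (nat_lit 2) (nat_lit 8) (.e false (nat_lit 2) (nat_lit 95) (nat_lit 2) (nat_lit 8) (.e false (nat_lit 1) (nat_lit 97) (nat_lit 2) (nat_lit 8) (.e false (nat_lit 1) (nat_lit 100) (nat_lit 2) (nat_lit 8) (.e false (nat_lit 1) (nat_lit 101) (nat_lit 2) (nat_lit 8) (.e true (nat_lit 1) (nat_lit 103) (nat_lit 2) (nat_lit 8) (.e true (nat_lit 1) (nat_lit 106) (nat_lit 2) (nat_lit 8) (.e false (nat_lit 1) (nat_lit 108) (nat_lit 2) (nat_lit 8) (.u (nat_lit 2) (.p (nat_lit 0) (nat_lit 1) (.n (nat_lit 4) (nat_lit 1) (.n (nat_lit 8) (nat_lit 1) (.n (nat_lit 65) (nat_lit 1) .z)))) .nil)))))))))))))))))) .leaf))))))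

noncomputable def dD_t2 : Tr := (.nd dD_t0 (nat_lit 21519) (nat_lit 270) (.n (nat_lit 127) (nat_lit 1) (.n (nat_lit 130) (nat_lit 3) (.p (nat_lit 135) (nat_lit 1) (.n (nat_lit 137) (nat_lit 1) (.p (nat_lit 140) (nat_lit 1) (.p (nat_lit 144) (nat_lit 1) (.p (nat_lit 147) (nat_lit 1) (.p (nat_lit 155) (nat_lit 1) .z)))))))) (.ct dD_c292 (nat_lit 1) (nat_lit 1) (.s false (nat_lit 1) (nat_lit 21) (nat_lit 2) (nat_lit 2) (nat_lit 1) true (nat_lit 7) true (nat_lit 11) false (nat_lit 1) true (nat_lit 10) true (nat_lit 10) (.e false (nat_lit 1) (nat_lit 48) (nat_lit 5) (nat_lit 7) (.e false (nat_lit 1) (nat_lit 94) (nat_lit 1) (nat_lit 11) (.e true (nat_lit 1) (nat_lit 74) (nat_lit 2) (nat_lit 10) (.e true (nat_lit 3) (nat_lit 77) (nat_lit 2) (nat_lit 10) (.e false (nat_lit 1) (nat_lit 82) (nat_lit 2) (nat_lit 10) (.e true (nat_lit 1) (nat_lit 84) (nat_lit 2) (nat_lit 10) (.e false (nat_lit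 1) (nat_lit 87) (nat_lit 2) (nat_lit 10) (.e false (nat_lit 1) (nat_lit 91) (nat_lit 2) (nat_lit 10) .nil)))))))))) dD_t1)

noncomputable def dD_t3 : Tr := (.nd (.nd (.nd (.nd (.nd (.nd (.nd .leaf (nat_lit 35855) (nat_lit 416) (.n (nat_lit 175) (nat_lit 2) (.n (nat_lit 176) (nat_lit 3) (.p (nat_lit 177) (nat_lit 2) (.n (nat_lit 178) (nat_lit 3) (.n (nat_lit 179) (nat_lit 2) (.p (nat_lit 180) (nat_lit 3) .z)))))) (.ct dD_c37 (nat_lit 1) (nat_lit 1) (.s false (nat_lit 1) (nat_lit 16) (nat_lit 6) (nat_lit 1) (nat_lit 1) true (nat_lit 1) true (nat_lit 6) true (nat_lit 0) true (nat_lit 3) true (nat_lit 6) (.e false (nat_lit 1) (nat_lit 29) (nat_lit 16) (nat_lit 0) (.e true (nat_lit 1) (nat_lit 125) (nat_lit 1) (nat_lit 6) .nil)))) .leaf) (nat_lit 36864) (nat_lit 97) (.p (nat_lit 65) (nat_lit 1) (.n (nat_lit 67) (nat_lit 1) .z)) (.ct dD_c260 (nat_lit 1) (nat_lit 3) (.s true (nat_lit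 1) (nat_lit 6) (nat_lit 2) (nat_lit 0) (nat_lit 2) true (nat_lit 0) true (nat_lit 2) true (nat_lit 0) true (nat_lit 2) true (nat_lit 3) (.e false (nat_lit 1) (nat_lit 13) (nat_lit 6) (nat_lit 0) (.e true (nat_lit 2) (nat_lit 32) (nat_lit 2) (nat_lit 2) (.e true (nat_lit 1) (nat_lit 12) (nat_lit 6) (nat_lit 0) (.e true (nat_lit 1) (nat_lit 31) (nat_lit 2) (nat_lit 2) .nil)))))) (.nd .leaf (nat_lit 36865) (nat_lit 104) (.p (nat_lit 69) (nat_lit 1) (.n (nat_lit 71) (nat_lit 1) .z)) (.ct dD_c20 (nat_lit 1) (nat_lit 3) (.s true (nat_lit 1) (nat_lit 6) (nat_lit 2) (nat_lit 1) (nat_lit 2) true (nat_lit 0) true (nat_lit 2) true (nat_lit 0) true (nat_lit 2) true (nat_lit 3) (.e false (nat_lit 1) (nat_lit 15) (nat_lit 6) (nat_lit 0) (.e true (nat_lit 2) (nat_lit 35) (nat_lit 2) (nat_lit 2) (.e true (nat_lit 1) (nat_lit 14) (nat_lit 6) (nat_lit 0) (.e true (nat_lit 1) (nat_lit 34) (nat_lit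 2) (nat_lit 2) .nil)))))) .leaf)) (nat_lit 36866) (nat_lit 105) (.p (nat_lit 72) (nat_lit 1) .z) .df (.nd (.nd .leaf (nat_lit 36867) (nat_lit 193) (.n (nat_lit 95) (nat_lit 1) (.p (nat_lit 96) (nat_lit 1) (.n (nat_lit 97) (nat_lit 1) (.p (nat_lit 99) (nat_lit 1) (.p (nat_lit 106) (nat_lit 1) .z))))) (.ct dD_c276 (nat_lit 1) (nat_lit 5) (.s true (nat_lit 1) (nat_lit 16) (nat_lit 0) (nat_lit 2) (nat_lit 1) true (nat_lit 5) true (nat_lit 7) false (nat_lit 1) true (nat_lit 8) true (nat_lit 6) (.e true (nat_lit 1) (nat_lit 66) (nat_lit 1) (nat_lit 7) (.e true (nat_lit 1) (nat_lit 16) (nat_lit 9) (nat_lit 1) (.e true (nat_lit 1) (nat_lit 69) (nat_lit 0) (nat_lit 8) (.e true (nat_lit 1) (nat_lit 70) (nat_lit 0) (nat_lit 8) (.e false (nat_lit 1) (nat_lit 71) (nat_lit 0) (nat_lit 8) (.e false (nat_lit 2) (nat_lit 50) (nat_lit 2) (nat_lit 6) (.e true (nat_lit 1) (nat_lit 52) (nat_lit 2)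 (nat_lit 6) (.e false (nat_lit 2) (nat_lit 53) (nat_lit 2) (nat_lit 6) (.e false (nat_lit 1) (nat_lit 56) (nat_lit 2) (nat_lit 6) (.e true (nat_lit 1) (nat_lit 58) (nat_lit 2) (nat_lit 6) (.u (nat_lit 2) (.n (nat_lit 4) (nat_lit 1) (.n (nat_lit 5) (nat_lit 1) .z)) .nil))))))))))))) .leaf) (nat_lit 36868) (nat_lit 222) (.p (nat_lit 118) (nat_lit 1) (.n (nat_lit 119) (nat_lit 1) (.p (nat_lit 120) (nat_lit 1) .z))) (.ct dD_c261 (nat_lit 1) (nat_lit 2) (.s true (nat_lit 2) (nat_lit 16) (nat_lit 0) (nat_lit 2) (nat_lit 2) true (nat_lit 2) true (nat_lit 3) false (nat_lit 0) true (nat_lit 4) true (nat_lit 3) (.s true (nat_lit 2) (nat_lit 16) (nat_lit 2) (nat_lit 0) (nat_lit 2) true (nat_lit 1) true (nat_lit 3) false (nat_lit 0) true (nat_lit 3) true (nat_lit 4) (.s false (nat_lit 1) (nat_lit 16) (nat_lit 2) (nat_lit 2) (nat_lit 0) true (nat_lit 2) true (nat_lit 4) false (nat_lit 0) true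 (nat_lit 3) true (nat_lit 3) (.e false (nat_lit 1) (nat_lit 66) (nat_lit 2) (nat_lit 3) (.e false (nat_lit 2) (nat_lit 32) (nat_lit 6) (nat_lit 1) (.e true (nat_lit 1) (nat_lit 72) (nat_lit 0) (nat_lit 4) (.e true (nat_lit 1) (nat_lit 16) (nat_lit 13) (nat_lit 0) (.u (nat_lit 2) (.n (nat_lit 12) (nat_lit 1) (.n (nat_lit 13) (nat_lit 1) (.p (nat_lit 14) (nat_lit 1) .z))) .nil))))))))) .leaf)) (nat_lit 36869) (nat_lit 233) (.p (nat_lit 123) (nat_lit 1) (.n (nat_lit 124) (nat_lit 1) (.p (nat_lit 125) (nat_lit 1) .z))) (.ct dD_c21 (nat_lit 1) (nat_lit 2) (.s true (nat_lit 2) (nat_lit 16) (nat_lit 1) (nat_lit 2) (nat_lit 2) true (nat_lit 2) true (nat_lit 3) false (nat_lit 0) true (nat_lit 4) true (nat_lit 3) (.s true (nat_lit 2) (nat_lit 16) (nat_lit 2) (nat_lit 1) (nat_lit 2) true (nat_lit 1) true (nat_lit 3) false (nat_lit 0) true (nat_lit 3) true (nat_lit 4) (.s false (nat_lit 1)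 (nat_lit 16) (nat_lit 2) (nat_lit 2) (nat_lit 1) true (nat_lit 2) true (nat_lit 4) false (nat_lit 0) true (nat_lit 3) true (nat_lit 3) (.e false (nat_lit 1) (nat_lit 70) (nat_lit 2) (nat_lit 3) (.e false (nat_lit 2) (nat_lit 35) (nat_lit 6) (nat_lit 1) (.e true (nat_lit 1) (nat_lit 72) (nat_lit 1) (nat_lit 4) (.e true (nat_lit 1) (nat_lit 16) (nat_lit 15) (nat_lit 0) (.u (nat_lit 2) (.n (nat_lit 12) (nat_lit 1) (.n (nat_lit 13) (nat_lit 1) (.p (nat_lit 14) (nat_lit 1) .z))) .nil))))))))) (.nd (.nd (.nd .leaf (nat_lit 36871) (nat_lit 273) (.n (nat_lit 134) (nat_lit 1) (.p (nat_lit 152) (nat_lit 1) .z)) (.ct dD_c292 (nat_lit 1) (nat_lit 5) (.s false (nat_lit 1) (nat_lit 7) (nat_lit 2) (nat_lit 6) (nat_lit 2) true (nat_lit 6) true (nat_lit 10) true (nat_lit 5) true (nat_lit 10) true (nat_lit 6) (.e true (nat_lit 1) (nat_lit 45) (nat_lit 6) (nat_lit 6) (.e false (nat_lit 2) (nat_lit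 90) (nat_lit 2) (nat_lit 10) (.e true (nat_lit 1) (nat_lit 81) (nat_lit 2) (nat_lit 10) (.e false (nat_lit 1) (nat_lit 37) (nat_lit 6) (nat_lit 6) .nil)))))) .leaf) (nat_lit 36872) (nat_lit 372) (.n (nat_lit 156) (nat_lit 3) (.p (nat_lit 157) (nat_lit 2) (.n (nat_lit 158) (nat_lit 2) (.n (nat_lit 159) (nat_lit 1) (.p (nat_lit 160) (nat_lit 2) (.p (nat_lit 161) (nat_lit 3) (.p (nat_lit 162) (nat_lit 1) (.p (nat_lit 163) (nat_lit 1) (.n (nat_lit 164) (nat_lit 1) (.n (nat_lit 165) (nat_lit 2) (.n (nat_lit 168) (nat_lit 1) (.p (nat_lit 172) (nat_lit 1) (.n (nat_lit 173) (nat_lit 1) .z))))))))))))) (.ct dD_c277 (nat_lit 1) (nat_lit 3) (.s false (nat_lit 1) (nat_lit 8) (nat_lit 2) (nat_lit 6) (nat_lit 2) true (nat_lit 4) true (nat_lit 8) true (nat_lit 3) true (nat_lit 8) true (nat_lit 4) (.e true (nat_lit 1) (nat_lit 56) (nat_lit 6) (nat_lit 4) (.e false (nat_lit 2) (nat_lit 106) (nat_lit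 2) (nat_lit 8) (.e true (nat_lit 1) (nat_lit 102) (nat_lit 2) (nat_lit 8) (.e false (nat_lit 1) (nat_lit 48) (nat_lit 6) (nat_lit 4) .nil)))))) (.nd .leaf (nat_lit 36873) (nat_lit 363) (.n (nat_lit 165) (nat_lit 1) (.p (nat_lit 173) (nat_lit 1) .z)) (.ct dD_c277 (nat_lit 1) (nat_lit 3) (.s false (nat_lit 1) (nat_lit 9) (nat_lit 2) (nat_lit 6) (nat_lit 2) true (nat_lit 4) true (nat_lit 8) true (nat_lit 3) true (nat_lit 8) true (nat_lit 4) (.e true (nat_lit 1) (nat_lit 57) (nat_lit 6) (nat_lit 4) (.e false (nat_lit 2) (nat_lit 107) (nat_lit 2) (nat_lit 8) (.e true (nat_lit 1) (nat_lit 103) (nat_lit 2) (nat_lit 8) (.e false (nat_lit 1) (nat_lit 49) (nat_lit 6) (nat_lit 4) .nil)))))) .leaf)) (nat_lit 36874) (nat_lit 365) (.n (nat_lit 166) (nat_lit 1) (.p (nat_lit 174) (nat_lit 1) .z)) (.ct dD_c277 (nat_lit 1) (nat_lit 3) (.s false (nat_lit 1) (nat_lit 10) (nat_lit 2) (nat_lit 6) (nat_lit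 2) true (nat_lit 4) true (nat_lit 8) true (nat_lit 3) true (nat_lit 8) true (nat_lit 4) (.e true (nat_lit 1) (nat_lit 58) (nat_lit 6) (nat_lit 4) (.e false (nat_lit 2) (nat_lit 108) (nat_lit 2) (nat_lit 8) (.e true (nat_lit 1) (nat_lit 104) (nat_lit 2) (nat_lit 8) (.e false (nat_lit 1) (nat_lit 50) (nat_lit 6) (nat_lit 4) .nil)))))) (.nd (.nd .leaf (nat_lit 36875) (nat_lit 419) (.p (nat_lit 176) (nat_lit 3) (.n (nat_lit 177) (nat_lit 2) (.p (nat_lit 178) (nat_lit 3) (.n (nat_lit 180) (nat_lit 2) (.p (nat_lit 181) (nat_lit 1) .z))))) (.ct dD_c37 (nat_lit 1) (nat_lit 2) (.s false (nat_lit 1) (nat_lit 11) (nat_lit 2) (nat_lit 6) (nat_lit 2) true (nat_lit 3) true (nat_lit 5) true (nat_lit 2) true (nat_lit 5) true (nat_lit 3) (.e true (nat_lit 1) (nat_lit 60) (nat_lit 6) (nat_lit 3) (.e false (nat_lit 1) (nat_lit 61) (nat_lit 6) (nat_lit 3) (.e true (nat_lit 1) (nat_lit 63) (nat_lit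 6) (nat_lit 3) (.e true (nat_lit 1) (nat_lit 111) (nat_lit 2) (nat_lit 5) (.e true (nat_lit 3) (nat_lit 112) (nat_lit 2) (nat_lit 5) (.e true (nat_lit 3) (nat_lit 113) (nat_lit 2) (nat_lit 5) (.e true (nat_lit 2) (nat_lit 114) (nat_lit 2) (nat_lit 5) (.u (nat_lit 2) (.n (nat_lit 3) (nat_lit 1) (.p (nat_lit 29) (nat_lit 1) .z)) .nil)))))))))) .leaf) (nat_lit 37890) (nat_lit 107) (.p (nat_lit 73) (nat_lit 1) .z) .df .leaf))) (nat_lit 37894) (nat_lit 263) (.p (nat_lit 152) (nat_lit 1) .z) .df (.nd (.nd (.nd (.nd .leaf (nat_lit 38914) (nat_lit 108) (.p (nat_lit 74) (nat_lit 1) .z) .df .leaf) (nat_lit 38918) (nat_lit 264) (.p (nat_lit 153) (nat_lit 1) .z) .df (.nd .leaf (nat_lit 39938) (nat_lit 109) (.p (nat_lit 75) (nat_lit 1) .z) .df .leaf)) (nat_lit 39942) (nat_lit 265) (.p (nat_lit 154) (nat_lit 1) .z) .df (.nd (.nd .leaf (nat_lit 40962) (nat_lit 110) (.p (nat_lit 76) (nat_lit 1)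 .z) .df .leaf) (nat_lit 40966) (nat_lit 288) (.p (nat_lit 126) (nat_lit 3) (.p (nat_lit 127) (nat_lit 3) (.p (nat_lit 128) (nat_lit 1) (.n (nat_lit 129) (nat_lit 1) (.n (nat_lit 130) (nat_lit 2) (.p (nat_lit 134) (nat_lit 1) (.p (nat_lit 135) (nat_lit 2) (.n (nat_lit 137) (nat_lit 1) (.n (nat_lit 140) (nat_lit 3) (.n (nat_lit 143) (nat_lit 2) (.p (nat_lit 144) (nat_lit 1) (.p (nat_lit 152) (nat_lit 3) (.n (nat_lit 153) (nat_lit 3) (.p (nat_lit 154) (nat_lit 1) .z)))))))))))))) (.ct dD_c292 (nat_lit 1) (nat_lit 6) (.s false (nat_lit 2) (nat_lit 6) (nat_lit 1) (nat_lit 5) (nat_lit 4) true (nat_lit 4) true (nat_lit 8) true (nat_lit 6) true (nat_lit 11) true (nat_lit 7) (.s true (nat_lit 2) (nat_lit 6) (nat_lit 1) (nat_lit 6) (nat_lit 3) true (nat_lit 5) true (nat_lit 9) true (nat_lit 6) true (nat_lit 11) true (nat_lit 6) (.s false (nat_lit 3) (nat_lit 10) (nat_lit 1) (nat_lit 6) (nat_lit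 2) true (nat_lit 7) true (nat_lit 10) true (nat_lit 4) true (nat_lit 11) true (nat_lit 6) (.s true (nat_lit 3) (nat_lit 10) (nat_lit 2) (nat_lit 2) (nat_lit 5) true (nat_lit 1) true (nat_lit 7) true (nat_lit 4) true (nat_lit 10) true (nat_lit 10) (.s false (nat_lit 2) (nat_lit 9) (nat_lit 2) (nat_lit 6) (nat_lit 1) true (nat_lit 7) true (nat_lit 11) true (nat_lit 4) true (nat_lit 10) true (nat_lit 6) (.s false (nat_lit 3) (nat_lit 10) (nat_lit 2) (nat_lit 6) (nat_lit 1) true (nat_lit 7) true (nat_lit 11) true (nat_lit 4) true (nat_lit 10) true (nat_lit 6) (.s true (nat_lit 2) (nat_lit 9) (nat_lit 6) (nat_lit 1) (nat_lit 2) true (nat_lit 0) true (nat_lit 10) true (nat_lit 4) true (nat_lit 6) true (nat_lit 11) (.s true (nat_lit 1) (nat_lit 12) (nat_lit 1) (nat_lit 1) (nat_lit 6) true (nat_lit 1) true (nat_lit 6) true (nat_lit 2) true (nat_lit 11) true (nat_lit 11) (.s true (nat_lit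 2) (nat_lit 13) (nat_lit 1) (nat_lit 1) (nat_lit 6) true (nat_lit 1) true (nat_lit 6) true (nat_lit 2) true (nat_lit 11) true (nat_lit 11) (.s false (nat_lit 2) (nat_lit 12) (nat_lit 1) (nat_lit 6) (nat_lit 1) false (nat_lit 13) true (nat_lit 11) true (nat_lit 2) true (nat_lit 11) true (nat_lit 6) (.s false (nat_lit 2) (nat_lit 13) (nat_lit 6) (nat_lit 1) (nat_lit 1) true (nat_lit 1) true (nat_lit 11) true (nat_lit 2) true (nat_lit 6) true (nat_lit 11) (.s true (nat_lit 2) (nat_lit 15) (nat_lit 1) (nat_lit 4) (nat_lit 2) true (nat_lit 7) true (nat_lit 10) true (nat_lit 1) true (nat_lit 11) true (nat_lit 8) (.s false (nat_lit 2) (nat_lit 15) (nat_lit 2) (nat_lit 3) (nat_lit 2) true (nat_lit 6) true (nat_lit 10) true (nat_lit 1) true (nat_lit 10) true (nat_lit 9) (.s true (nat_lit 3) (nat_lit 16) (nat_lit 1) (nat_lit 4) (nat_lit 1) false (nat_lit 13) true (nat_lit 11) true (nat_lit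 0) true (nat_lit 11) true (nat_lit 8) (.s false (nat_lit 3) (nat_lit 16) (nat_lit 3) (nat_lit 1) (nat_lit 2) true (nat_lit 4) true (nat_lit 10) true (nat_lit 0) true (nat_lit 9) true (nat_lit 11) (.s true (nat_lit 1) (nat_lit 22) (nat_lit 1) (nat_lit 2) (nat_lit 2) true (nat_lit 7) true (nat_lit 10) false (nat_lit 1) true (nat_lit 11) true (nat_lit 10) dD_i4))))))))))))))))) .leaf)) (nat_lit 41986) (nat_lit 111) (.p (nat_lit 77) (nat_lit 1) .z) .df (.nd (.nd (.nd .leaf (nat_lit 41990) (nat_lit 277) (.n (nat_lit 127) (nat_lit 3) (.p (nat_lit 130) (nat_lit 1) (.n (nat_lit 134) (nat_lit 1) (.p (nat_lit 135) (nat_lit 1) (.n (nat_lit 137) (nat_lit 3) (.n (nat_lit 140) (nat_lit 2) (.p (nat_lit 143) (nat_lit 1) (.p (nat_lit 144) (nat_lit 3) (.n (nat_lit 153) (nat_lit 1) .z))))))))) (.ct dD_c292 (nat_lit 1) (nat_lit 6) (.s false (nat_lit 1) (nat_lit 21) (nat_lit 2) (nat_lit 1) (nat_lit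 2) true (nat_lit 6) true (nat_lit 10) false (nat_lit 1) true (nat_lit 10) true (nat_lit 11) (.e false (nat_lit 2) (nat_lit 84) (nat_lit 2) (nat_lit 10) (.e true (nat_lit 1) (nat_lit 21) (nat_lit 14) (nat_lit 1) (.e false (nat_lit 1) (nat_lit 74) (nat_lit 2) (nat_lit 10) (.e false (nat_lit 2) (nat_lit 77) (nat_lit 2) (nat_lit 10) (.e true (nat_lit 1) (nat_lit 82) (nat_lit 2) (nat_lit 10) (.e true (nat_lit 1) (nat_lit 87) (nat_lit 2) (nat_lit 10) (.e true (nat_lit 1) (nat_lit 91) (nat_lit 2) (nat_lit 10) (.e false (nat_lit 1) (nat_lit 94) (nat_lit 1) (nat_lit 11) (.u (nat_lit 2) (.p (nat_lit 1) (nat_lit 1) (.p (nat_lit 11) (nat_lit 1) (.n (nat_lit 18) (nat_lit 1) .z))) .nil))))))))))) .leaf) (nat_lit 43010) (nat_lit 112) (.p (nat_lit 78) (nat_lit 1) .z) .df .leaf) (nat_lit 43014) (nat_lit 321) (.p (nat_lit 127) (nat_lit 2) (.p (nat_lit 128) (nat_lit 3) (.p (nat_lit 129) (nat_lit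 1) (.p (nat_lit 130) (nat_lit 1) (.p (nat_lit 131) (nat_lit 3) (.n (nat_lit 132) (nat_lit 1) (.p (nat_lit 133) (nat_lit 1) (.p (nat_lit 135) (nat_lit 1) (.p (nat_lit 136) (nat_lit 1) (.n (nat_lit 137) (nat_lit 3) (.n (nat_lit 140) (nat_lit 3) (.n (nat_lit 143) (nat_lit 3) (.n (nat_lit 144) (nat_lit 3) (.n (nat_lit 145) (nat_lit 1) (.p (nat_lit 146) (nat_lit 1) (.n (nat_lit 152) (nat_lit 2) (.n (nat_lit 153) (nat_lit 2) (.p (nat_lit 154) (nat_lit 2) .z)))))))))))))))))) (.ct dD_c292 (nat_lit 1) (nat_lit 6) (.s false (nat_lit 1) (nat_lit 22) (nat_lit 2) (nat_lit 1) (nat_lit 2) true (nat_lit 6) true (nat_lit 10) false (nat_lit 1) true (nat_lit 10) true (nat_lit 11) (.e false (nat_lit 2) (nat_lit 85) (nat_lit 2) (nat_lit 10) (.e true (nat_lit 1) (nat_lit 22) (nat_lit 14) (nat_lit 1) (.e false (nat_lit 1) (nat_lit 75) (nat_lit 2) (nat_lit 10) (.e false (nat_lit 2) (nat_lit 78) (nat_lit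 2) (nat_lit 10) (.e true (nat_lit 1) (nat_lit 83) (nat_lit 2) (nat_lit 10) (.e true (nat_lit 1) (nat_lit 88) (nat_lit 2) (nat_lit 10) (.e true (nat_lit 1) (nat_lit 92) (nat_lit 2) (nat_lit 10) (.e false (nat_lit 1) (nat_lit 95) (nat_lit 1) (nat_lit 11) .nil)))))))))) (.nd (.nd .leaf (nat_lit 44034) (nat_lit 113) (.p (nat_lit 79) (nat_lit 1) .z) .df .leaf) (nat_lit 44038) (nat_lit 318) (.p (nat_lit 126) (nat_lit 1) (.n (nat_lit 128) (nat_lit 2) (.p (nat_lit 132) (nat_lit 3) (.n (nat_lit 133) (nat_lit 1) (.n (nat_lit 135) (nat_lit 3) (.n (nat_lit 136) (nat_lit 2) (.p (nat_lit 137) (nat_lit 2) (.n (nat_lit 140) (nat_lit 3) (.n (nat_lit 143) (nat_lit 2) (.p (nat_lit 144) (nat_lit 3) (.p (nat_lit 146) (nat_lit 2) (.p (nat_lit 154) (nat_lit 1) .z)))))))))))) (.ct dD_c292 (nat_lit 1) (nat_lit 6) (.s false (nat_lit 1) (nat_lit 24) (nat_lit 2) (nat_lit 1) (nat_lit 2) true (nat_lit 6) true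 (nat_lit 10) false (nat_lit 1) true (nat_lit 10) true (nat_lit 11) (.e true (nat_lit 1) (nat_lit 24) (nat_lit 14) (nat_lit 1) (.e false (nat_lit 2) (nat_lit 73) (nat_lit 2) (nat_lit 10) (.e false (nat_lit 3) (nat_lit 74) (nat_lit 2) (nat_lit 10) (.e true (nat_lit 3) (nat_lit 75) (nat_lit 2) (nat_lit 10) (.e false (nat_lit 3) (nat_lit 76) (nat_lit 2) (nat_lit 10) (.e true (nat_lit 1) (nat_lit 77) (nat_lit 2) (nat_lit 10) (.e false (nat_lit 2) (nat_lit 79) (nat_lit 2) (nat_lit 10) (.e true (nat_lit 1) (nat_lit 80) (nat_lit 2) (nat_lit 10) (.e false (nat_lit 3) (nat_lit 81) (nat_lit 2) (nat_lit 10) (.e true (nat_lit 2) (nat_lit 82) (nat_lit 2) (nat_lit 10) (.e true (nat_lit 2) (nat_lit 83) (nat_lit 2) (nat_lit 10) (.e false (nat_lit 3) (nat_lit 84) (nat_lit 2) (nat_lit 10) (.e false (nat_lit 1) (nat_lit 85) (nat_lit 2) (nat_lit 10) (.e false (nat_lit 3) (nat_lit 88) (nat_lit 2) (nat_lit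 10) (.e true (nat_lit 2) (nat_lit 90) (nat_lit 2) (nat_lit 10) (.e false (nat_lit 2) (nat_lit 93) (nat_lit 2) (nat_lit 10) (.e false (nat_lit 1) (nat_lit 97) (nat_lit 1) (nat_lit 11) .nil))))))))))))))))))) .leaf)))) (nat_lit 45058) (nat_lit 114) (.p (nat_lit 80) (nat_lit 1) .z) .df (.nd (.nd (.nd (.nd (.nd .leaf (nat_lit 45062) (nat_lit 329) (.n (nat_lit 126) (nat_lit 3) (.n (nat_lit 127) (nat_lit 1) (.n (nat_lit 128) (nat_lit 2) (.n (nat_lit 129) (nat_lit 1) (.p (nat_lit 130) (nat_lit 1) (.p (nat_lit 131) (nat_lit 1) (.p (nat_lit 133) (nat_lit 2) (.n (nat_lit 134) (nat_lit 3) (.p (nat_lit 135) (nat_lit 3) (.n (nat_lit 136) (nat_lit 1) (.n (nat_lit 137) (nat_lit 2) (.n (nat_lit 140) (nat_lit 1) (.p (nat_lit 143) (nat_lit 2) (.p (nat_lit 144) (nat_lit 2) (.n (nat_lit 145) (nat_lit 1) (.p (nat_lit 146) (nat_lit 2) (.n (nat_lit 152) (nat_lit 3) (.n (nat_lit 153) (nat_lit 2) (.p (nat_lit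 154) (nat_lit 2) .z))))))))))))))))))) (.ct dD_c292 (nat_lit 1) (nat_lit 6) (.s true (nat_lit 1) (nat_lit 10) (nat_lit 6) (nat_lit 2) (nat_lit 1) true (nat_lit 1) true (nat_lit 11) true (nat_lit 4) true (nat_lit 6) true (nat_lit 10) (.e false (nat_lit 1) (nat_lit 23) (nat_lit 15) (nat_lit 1) (.e true (nat_lit 1) (nat_lit 104) (nat_lit 1) (nat_lit 11) (.e false (nat_lit 1) (nat_lit 35) (nat_lit 10) (nat_lit 4) (.e true (nat_lit 1) (nat_lit 37) (nat_lit 6) (nat_lit 6) (.e true (nat_lit 1) (nat_lit 38) (nat_lit 6) (nat_lit 6) (.e true (nat_lit 1) (nat_lit 41) (nat_lit 6) (nat_lit 6) (.e false (nat_lit 1) (nat_lit 43) (nat_lit 6) (nat_lit 6) (.e false (nat_lit 1) (nat_lit 45) (nat_lit 6) (nat_lit 6) (.e true (nat_lit 1) (nat_lit 47) (nat_lit 6) (nat_lit 6) (.e false (nat_lit 2) (nat_lit 73) (nat_lit 2) (nat_lit 10) (.e false (nat_lit 2) (nat_lit 74) (nat_lit 2) (nat_lit 10) (.e true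 (nat_lit 1) (nat_lit 75) (nat_lit 2) (nat_lit 10) (.e false (nat_lit 1) (nat_lit 76) (nat_lit 2) (nat_lit 10) (.e false (nat_lit 1) (nat_lit 77) (nat_lit 2) (nat_lit 10) (.e false (nat_lit 1) (nat_lit 82) (nat_lit 2) (nat_lit 10) (.e true (nat_lit 1) (nat_lit 87) (nat_lit 2) (nat_lit 10) (.e true (nat_lit 2) (nat_lit 90) (nat_lit 2) (nat_lit 10) (.e false (nat_lit 1) (nat_lit 92) (nat_lit 2) (nat_lit 10) (.e false (nat_lit 1) (nat_lit 93) (nat_lit 2) (nat_lit 10) (.u (nat_lit 2) (.p (nat_lit 3) (nat_lit 1) (.p (nat_lit 4) (nat_lit 1) (.n (nat_lit 9) (nat_lit 1) (.p (nat_lit 11) (nat_lit 1) (.n (nat_lit 17) (nat_lit 1) (.n (nat_lit 18) (nat_lit 1) (.p (nat_lit 19) (nat_lit 1) (.p (nat_lit 26) (nat_lit 1) (.p (nat_lit 27) (nat_lit 1) (.n (nat_lit 28) (nat_lit 1) .z)))))))))) .nil)))))))))))))))))))))) .leaf) (nat_lit 46082) (nat_lit 115) (.p (nat_lit 81) (nat_lit 1) .z) .df (.nd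 .leaf (nat_lit 46086) (nat_lit 272) (.p (nat_lit 143) (nat_lit 2) .z) (.ct dD_c292 (nat_lit 1) (nat_lit 6) (.s true (nat_lit 3) (nat_lit 7) (nat_lit 2) (nat_lit 6) (nat_lit 2) true (nat_lit 6) true (nat_lit 10) true (nat_lit 5) true (nat_lit 10) true (nat_lit 6) (.s true (nat_lit 3) (nat_lit 7) (nat_lit 6) (nat_lit 2) (nat_lit 2) true (nat_lit 0) true (nat_lit 10) true (nat_lit 5) true (nat_lit 6) true (nat_lit 10) (.e true (nat_lit 2) (nat_lit 90) (nat_lit 2) (nat_lit 10) (.e true (nat_lit 3) (nat_lit 37) (nat_lit 6) (nat_lit 6) (.e false (nat_lit 3) (nat_lit 17) (nat_lit 16) (nat_lit 0) (.u (nat_lit 2) (.n (nat_lit 17) (nat_lit 1) (.p (nat_lit 73) (nat_lit 1) (.n (nat_lit 113) (nat_lit 1) .z))) .nil))))))) .leaf)) (nat_lit 47106) (nat_lit 116) (.p (nat_lit 82) (nat_lit 1) .z) .df (.nd (.nd .leaf (nat_lit 47110) (nat_lit 278) (.n (nat_lit 126) (nat_lit 2) (.p (nat_lit 127) (nat_lit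 1) (.p (nat_lit 128) (nat_lit 1) (.n (nat_lit 129) (nat_lit 1) (.n (nat_lit 130) (nat_lit 2) (.p (nat_lit 134) (nat_lit 1) (.p (nat_lit 135) (nat_lit 2) (.p (nat_lit 137) (nat_lit 3) (.p (nat_lit 140) (nat_lit 3) (.p (nat_lit 143) (nat_lit 1) (.n (nat_lit 144) (nat_lit 2) (.n (nat_lit 146) (nat_lit 1) .z)))))))))))) (.ct dD_c292 (nat_lit 1) (nat_lit 6) (.s true (nat_lit 1) (nat_lit 8) (nat_lit 1) (nat_lit 2) (nat_lit 6) true (nat_lit 1) true (nat_lit 6) true (nat_lit 4) true (nat_lit 11) true (nat_lit 10) (.s false (nat_lit 1) (nat_lit 8) (nat_lit 2) (nat_lit 5) (nat_lit 2) true (nat_lit 6) true (nat_lit 10) true (nat_lit 4) true (nat_lit 10) true (nat_lit 7) (.s false (nat_lit 1) (nat_lit 8) (nat_lit 2) (nat_lit 6) (nat_lit 1) true (nat_lit 7) true (nat_lit 11) true (nat_lit 4) true (nat_lit 10) true (nat_lit 6) (.s true (nat_lit 1) (nat_lit 8) (nat_lit 5) (nat_lit 2) (nat_lit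 2) true (nat_lit 1) true (nat_lit 10) true (nat_lit 4) true (nat_lit 7) true (nat_lit 10) (.s true (nat_lit 2) (nat_lit 15) (nat_lit 2) (nat_lit 3) (nat_lit 2) true (nat_lit 6) true (nat_lit 10) true (nat_lit 1) true (nat_lit 10) true (nat_lit 9) (.s true (nat_lit 1) (nat_lit 15) (nat_lit 3) (nat_lit 2) (nat_lit 2) true (nat_lit 4) true (nat_lit 10) true (nat_lit 1) true (nat_lit 9) true (nat_lit 10) (.s true (nat_lit 2) (nat_lit 16) (nat_lit 1) (nat_lit 2) (nat_lit 3) true (nat_lit 5) true (nat_lit 9) true (nat_lit 0) true (nat_lit 11) true (nat_lit 10) dD_i5)))))))) .leaf) (nat_lit 48130) (nat_lit 117) (.p (nat_lit 83) (nat_lit 1) .z) .df .leaf)) (nat_lit 48134) (nat_lit 322) (.p (nat_lit 126) (nat_lit 1) (.p (nat_lit 127) (nat_lit 2) (.n (nat_lit 129) (nat_lit 3) (.p (nat_lit 131) (nat_lit 3) (.p (nat_lit 132) (nat_lit 2) (.n (nat_lit 133) (nat_lit 2) (.n (nat_lit 134) (nat_lit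 1) (.p (nat_lit 136) (nat_lit 2) (.n (nat_lit 137) (nat_lit 3) (.n (nat_lit 140) (nat_lit 2) (.p (nat_lit 143) (nat_lit 1) (.p (nat_lit 144) (nat_lit 2) (.n (nat_lit 145) (nat_lit 3) (.n (nat_lit 152) (nat_lit 3) (.n (nat_lit 153) (nat_lit 3) (.p (nat_lit 154) (nat_lit 3) .z)))))))))))))))) (.ct dD_c292 (nat_lit 1) (nat_lit 6) (.s true (nat_lit 1) (nat_lit 9) (nat_lit 6) (nat_lit 1) (nat_lit 2) true (nat_lit 0) true (nat_lit 10) true (nat_lit 4) true (nat_lit 6) true (nat_lit 11) (.e false (nat_lit 1) (nat_lit 19) (nat_lit 16) (nat_lit 0) (.e true (nat_lit 1) (nat_lit 88) (nat_lit 2) (nat_lit 10) (.e false (nat_lit 1) (nat_lit 34) (nat_lit 9) (nat_lit 4) (.e false (nat_lit 1) (nat_lit 107) (nat_lit 1) (nat_lit 11) (.u (nat_lit 2) (.p (nat_lit 3) (nat_lit 1) (.n (nat_lit 5) (nat_lit 1) (.n (nat_lit 6) (nat_lit 1) (.p (nat_lit 7) (nat_lit 1) (.p (nat_lit 26) (nat_lit 1) (.p (nat_lit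 27) (nat_lit 1) (.n (nat_lit 28) (nat_lit 1) .z))))))) .nil))))))) (.nd (.nd (.nd .leaf (nat_lit 49153) (nat_lit 118) (.p (nat_lit 84) (nat_lit 1) .z) .df .leaf) (nat_lit 49154) (nat_lit 159) (.p (nat_lit 94) (nat_lit 1) .z) .df (.nd .leaf (nat_lit 49157) (nat_lit 266) (.p (nat_lit 155) (nat_lit 1) .z) .df .leaf)) (nat_lit 49158) (nat_lit 370) (.n (nat_lit 156) (nat_lit 3) (.p (nat_lit 157) (nat_lit 2) (.n (nat_lit 158) (nat_lit 2) (.n (nat_lit 159) (nat_lit 1) (.p (nat_lit 160) (nat_lit 2) (.p (nat_lit 161) (nat_lit 3) (.p (nat_lit 162) (nat_lit 1) (.p (nat_lit 163) (nat_lit 1) (.n (nat_lit 165) (nat_lit 2) (.n (nat_lit 168) (nat_lit 1) (.p (nat_lit 172) (nat_lit 1) (.n (nat_lit 173) (nat_lit 1) .z)))))))))))) (.ct dD_c277 (nat_lit 1) (nat_lit 4) (.s true (nat_lit 3) (nat_lit 16) (nat_lit 1) (nat_lit 0) (nat_lit 6) true (nat_lit 1) true (nat_lit 4) true (nat_lit 0) true (nat_lit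 9) true (nat_lit 10) (.s true (nat_lit 3) (nat_lit 24) (nat_lit 2) (nat_lit 2) (nat_lit 2) true (nat_lit 4) true (nat_lit 8) false (nat_lit 0) true (nat_lit 8) true (nat_lit 8) (.s false (nat_lit 3) (nat_lit 26) (nat_lit 2) (nat_lit 2) (nat_lit 2) true (nat_lit 4) true (nat_lit 8) false (nat_lit 0) true (nat_lit 8) true (nat_lit 8) (.s true (nat_lit 3) (nat_lit 32) (nat_lit 1) (nat_lit 2) (nat_lit 2) true (nat_lit 5) true (nat_lit 8) false (nat_lit 1) true (nat_lit 9) true (nat_lit 8) dD_i6))))) (.nd (.nd .leaf (nat_lit 50177) (nat_lit 119) (.p (nat_lit 85) (nat_lit 1) .z) .df .leaf) (nat_lit 50178) (nat_lit 160) (.p (nat_lit 95) (nat_lit 1) .z) .df .leaf))) (nat_lit 50181) (nat_lit 304) (.n (nat_lit 126) (nat_lit 1) (.n (nat_lit 127) (nat_lit 2) (.n (nat_lit 129) (nat_lit 3) (.p (nat_lit 130) (nat_lit 2) (.n (nat_lit 131) (nat_lit 2) (.n (nat_lit 132) (nat_lit 3) (.p (nat_lit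 133) (nat_lit 3) (.p (nat_lit 135) (nat_lit 3) (.p (nat_lit 136) (nat_lit 1) (.n (nat_lit 137) (nat_lit 3) (.p (nat_lit 138) (nat_lit 2) (.p (nat_lit 140) (nat_lit 2) (.p (nat_lit 141) (nat_lit 2) (.n (nat_lit 144) (nat_lit 3) (.n (nat_lit 146) (nat_lit 1) (.p (nat_lit 147) (nat_lit 1) (.p (nat_lit 148) (nat_lit 1) (.n (nat_lit 153) (nat_lit 1) (.n (nat_lit 154) (nat_lit 1) (.n (nat_lit 155) (nat_lit 1) .z)))))))))))))))))))) (.ct dD_c292 (nat_lit 1) (nat_lit 7) (.s true (nat_lit 1) (nat_lit 10) (nat_lit 1) (nat_lit 2) (nat_lit 6) true (nat_lit 1) true (nat_lit 6) true (nat_lit 4) true (nat_lit 11) true (nat_lit 10) (.s true (nat_lit 1) (nat_lit 10) (nat_lit 2) (nat_lit 1) (nat_lit 6) true (nat_lit 0) true (nat_lit 6) true (nat_lit 4) true (nat_lit 10) true (nat_lit 11) (.s true (nat_lit 1) (nat_lit 22) (nat_lit 1) (nat_lit 2) (nat_lit 2) true (nat_lit 7) true (nat_lit 10) false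 (nat_lit 1) true (nat_lit 11) true (nat_lit 10) (.s true (nat_lit 1) (nat_lit 22) (nat_lit 2) (nat_lit 1) (nat_lit 2) true (nat_lit 6) true (nat_lit 10) false (nat_lit 1) true (nat_lit 10) true (nat_lit 11) (.s true (nat_lit 1) (nat_lit 36) (nat_lit 0) (nat_lit 1) (nat_lit 1) true (nat_lit 9) true (nat_lit 11) false (nat_lit 5) true (nat_lit 12) true (nat_lit 11) (.e true (nat_lit 1) (nat_lit 23) (nat_lit 15) (nat_lit 1) (.e true (nat_lit 1) (nat_lit 40) (nat_lit 6) (nat_lit 6) (.e true (nat_lit 2) (nat_lit 74) (nat_lit 2) (nat_lit 10) (.e false (nat_lit 1) (nat_lit 76) (nat_lit 2) (nat_lit 10) (.e false (nat_lit 1) (nat_lit 77) (nat_lit 2) (nat_lit 10) (.e true (nat_lit 2) (nat_lit 79) (nat_lit 2) (nat_lit 10) dD_i7)))))))))))) (.nd (.nd (.nd (.nd .leaf (nat_lit 50182) (nat_lit 357) (.p (nat_lit 173) (nat_lit 1) .z) .df .leaf) (nat_lit 51201) (nat_lit 142) (.p (nat_lit 73) (nat_lit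 1) (.p (nat_lit 74) (nat_lit 1) (.n (nat_lit 75) (nat_lit 2) (.p (nat_lit 76) (nat_lit 2) (.n (nat_lit 77) (nat_lit 2) (.n (nat_lit 79) (nat_lit 3) (.p (nat_lit 80) (nat_lit 3) (.p (nat_lit 81) (nat_lit 3) (.n (nat_lit 82) (nat_lit 3) (.n (nat_lit 83) (nat_lit 1) (.p (nat_lit 84) (nat_lit 1) (.p (nat_lit 85) (nat_lit 1) (.n (nat_lit 87) (nat_lit 2) (.p (nat_lit 90) (nat_lit 1) (.p (nat_lit 91) (nat_lit 3) (.p (nat_lit 93) (nat_lit 1) .z)))))))))))))))) (.ct dD_c291 (nat_lit 1) (nat_lit 8) (.s false (nat_lit 1) (nat_lit 6) (nat_lit 2) (nat_lit 1) (nat_lit 3) true (nat_lit 1) true (nat_lit 6) true (nat_lit 3) true (nat_lit 7) true (nat_lit 8) (.e false (nat_lit 1) (nat_lit 15) (nat_lit 8) (nat_lit 1) (.e false (nat_lit 1) (nat_lit 35) (nat_lit 3) (nat_lit 6) (.e false (nat_lit 1) (nat_lit 17) (nat_lit 6) (nat_lit 3) (.e true (nat_lit 1) (nat_lit 19) (nat_lit 6) (nat_lit 3) (.e false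 (nat_lit 1) (nat_lit 20) (nat_lit 6) (nat_lit 3) (.e true (nat_lit 1) (nat_lit 45) (nat_lit 2) (nat_lit 7) (.e false (nat_lit 1) (nat_lit 49) (nat_lit 1) (nat_lit 8) (.e false (nat_lit 1) (nat_lit 51) (nat_lit 1) (nat_lit 8) (.e true (nat_lit 1) (nat_lit 53) (nat_lit 1) (nat_lit 8) (.u (nat_lit 2) (.n (nat_lit 18) (nat_lit 1) .z) .nil)))))))))))) (.nd .leaf (nat_lit 51202) (nat_lit 161) (.p (nat_lit 96) (nat_lit 1) .z) .df .leaf)) (nat_lit 51205) (nat_lit 297) (.p (nat_lit 126) (nat_lit 2) (.n (nat_lit 127) (nat_lit 1) (.p (nat_lit 128) (nat_lit 2) (.p (nat_lit 129) (nat_lit 2) (.n (nat_lit 131) (nat_lit 2) (.p (nat_lit 132) (nat_lit 3) (.n (nat_lit 133) (nat_lit 3) (.p (nat_lit 134) (nat_lit 2) (.p (nat_lit 135) (nat_lit 1) (.p (nat_lit 136) (nat_lit 3) (.n (nat_lit 137) (nat_lit 3) (.p (nat_lit 138) (nat_lit 2) (.p (nat_lit 140) (nat_lit 1) (.p (nat_lit 141) (nat_lit 2) (.p (nat_lit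 143) (nat_lit 2) (.p (nat_lit 144) (nat_lit 1) (.n (nat_lit 146) (nat_lit 3) (.p (nat_lit 148) (nat_lit 1) (.p (nat_lit 152) (nat_lit 3) (.p (nat_lit 153) (nat_lit 2) (.n (nat_lit 154) (nat_lit 1) (.n (nat_lit 155) (nat_lit 1) .z)))))))))))))))))))))) (.ct dD_c292 (nat_lit 1) (nat_lit 7) dD_i8) (.nd (.nd .leaf (nat_lit 51206) (nat_lit 358) (.p (nat_lit 174) (nat_lit 1) .z) .df .leaf) (nat_lit 52225) (nat_lit 120) (.p (nat_lit 86) (nat_lit 1) .z) .df .leaf)) (nat_lit 52226) (nat_lit 162) (.p (nat_lit 97) (nat_lit 1) .z) .df (.nd (.nd (.nd .leaf (nat_lit 52229) (nat_lit 302) (.p (nat_lit 126) (nat_lit 2) (.n (nat_lit 127) (nat_lit 2) (.p (nat_lit 128) (nat_lit 3) (.n (nat_lit 129) (nat_lit 2) (.n (nat_lit 130) (nat_lit 3) (.n (nat_lit 131) (nat_lit 1) (.n (nat_lit 132) (nat_lit 3) (.p (nat_lit 133) (nat_lit 3) (.n (nat_lit 134) (nat_lit 2) (.n (nat_lit 135) (nat_lit 1) (.n (nat_lit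 137) (nat_lit 1) (.p (nat_lit 138) (nat_lit 1) (.n (nat_lit 139) (nat_lit 1) (.p (nat_lit 140) (nat_lit 3) (.p (nat_lit 141) (nat_lit 3) (.p (nat_lit 143) (nat_lit 1) (.n (nat_lit 144) (nat_lit 1) (.n (nat_lit 146) (nat_lit 2) (.n (nat_lit 147) (nat_lit 1) (.p (nat_lit 149) (nat_lit 1) (.n (nat_lit 152) (nat_lit 3) (.n (nat_lit 153) (nat_lit 2) (.p (nat_lit 155) (nat_lit 1) .z))))))))))))))))))))))) (.ct dD_c292 (nat_lit 1) (nat_lit 7) (.s false (nat_lit 1) (nat_lit 12) (nat_lit 2) (nat_lit 5) (nat_lit 1) true (nat_lit 7) true (nat_lit 11) true (nat_lit 2) true (nat_lit 10) true (nat_lit 7) (.s true (nat_lit 1) (nat_lit 12) (nat_lit 5) (nat_lit 2) (nat_lit 1) true (nat_lit 3) true (nat_lit 11) true (nat_lit 2) true (nat_lit 7) true (nat_lit 10) (.e false (nat_lit 1) (nat_lit 109) (nat_lit 1) (nat_lit 11) (.e true (nat_lit 1) (nat_lit 74) (nat_lit 2) (nat_lit 10) (.e false (nat_lit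 2) (nat_lit 75) (nat_lit 2) (nat_lit 10) dD_i9)))))) .leaf) (nat_lit 52230) (nat_lit 376) (.n (nat_lit 156) (nat_lit 2) (.p (nat_lit 157) (nat_lit 1) (.n (nat_lit 158) (nat_lit 3) (.p (nat_lit 159) (nat_lit 3) (.p (nat_lit 160) (nat_lit 2) (.p (nat_lit 161) (nat_lit 2) (.n (nat_lit 164) (nat_lit 1) (.n (nat_lit 165) (nat_lit 1) (.p (nat_lit 166) (nat_lit 2) (.p (nat_lit 168) (nat_lit 1) (.n (nat_lit 173) (nat_lit 1) .z))))))))))) (.ct dD_c277 (nat_lit 1) (nat_lit 4) (.s false (nat_lit 3) (nat_lit 6) (nat_lit 2) (nat_lit 3) (nat_lit 6) true (nat_lit 0) true (nat_lit 4) true (nat_lit 4) true (nat_lit 8) true (nat_lit 7) (.s true (nat_lit 3) (nat_lit 16) (nat_lit 0) (nat_lit 6) (nat_lit 1) true (nat_lit 7) true (nat_lit 9) true (nat_lit 0) true (nat_lit 10) true (nat_lit 4) (.s true (nat_lit 3) (nat_lit 16) (nat_lit 1) (nat_lit 6) (nat_lit 0) true (nat_lit 7) true (nat_lit 10) true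 (nat_lit 0) true (nat_lit 9) true (nat_lit 4) (.s true (nat_lit 1) (nat_lit 25) (nat_lit 2) (nat_lit 2) (nat_lit 2) true (nat_lit 4) true (nat_lit 8) false (nat_lit 0) true (nat_lit 8) true (nat_lit 8) (.e false (nat_lit 1) (nat_lit 22) (nat_lit 16) (nat_lit 0) (.e true (nat_lit 1) (nat_lit 23) (nat_lit 16) (nat_lit 0) (.e true (nat_lit 2) (nat_lit 49) (nat_lit 6) (nat_lit 4) (.e true (nat_lit 1) (nat_lit 53) (nat_lit 6) (nat_lit 4) (.e false (nat_lit 1) (nat_lit 56) (nat_lit 6) (nat_lit 4) (.e true (nat_lit 2) (nat_lit 102) (nat_lit 2) (nat_lit 8) (.e true (nat_lit 3) (nat_lit 58) (nat_lit 6) (nat_lit 4) (.e false (nat_lit 1) (nat_lit 21) (nat_lit 16) (nat_lit 0) (.e true (nat_lit 1) (nat_lit 48) (nat_lit 6) (nat_lit 4) (.e true (nat_lit 3) (nat_lit 57) (nat_lit 6) (nat_lit 4) (.e true (nat_lit 3) (nat_lit 98) (nat_lit 2) (nat_lit 8) (.e false (nat_lit 3) (nat_lit 94) (nat_lit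 2) (nat_lit 8) (.e false (nat_lit 3) (nat_lit 95) (nat_lit 2) (nat_lit 8) (.e false (nat_lit 3) (nat_lit 99) (nat_lit 2) (nat_lit 8) (.e false (nat_lit 1) (nat_lit 103) (nat_lit 2) (nat_lit 8) (.e false (nat_lit 1) (nat_lit 104) (nat_lit 2) (nat_lit 8) (.e false (nat_lit 1) (nat_lit 106) (nat_lit 2) (nat_lit 8) (.e false (nat_lit 1) (nat_lit 107) (nat_lit 2) (nat_lit 8) (.e true (nat_lit 1) (nat_lit 108) (nat_lit 2) (nat_lit 8) (.u (nat_lit 2) (.p (nat_lit 0) (nat_lit 1) (.n (nat_lit 4) (nat_lit 1) (.n (nat_lit 12) (nat_lit 1) (.n (nat_lit 13) (nat_lit 1) (.n (nat_lit 19) (nat_lit 1) (.n (nat_lit 20) (nat_lit 1) (.p (nat_lit 21) (nat_lit 1) (.p (nat_lit 23) (nat_lit 1) (.p (nat_lit 40) (nat_lit 1) (.p (nat_lit 41) (nat_lit 2) (.p (nat_lit 43) (nat_lit 1) (.n (nat_lit 44) (nat_lit 1) (.p (nat_lit 45) (nat_lit 1) (.n (nat_lit 48) (nat_lit 1) (.p (nat_lit 68) (nat_lit 1) .z)))))))))))))))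 .nil))))))))))))))))))))))))) .leaf) (nat_lit 53249) (nat_lit 141) (.p (nat_lit 73) (nat_lit 1) (.p (nat_lit 74) (nat_lit 1) (.p (nat_lit 75) (nat_lit 2) (.n (nat_lit 76) (nat_lit 1) (.p (nat_lit 77) (nat_lit 3) (.p (nat_lit 78) (nat_lit 1) (.p (nat_lit 79) (nat_lit 3) (.n (nat_lit 80) (nat_lit 3) (.n (nat_lit 81) (nat_lit 3) (.p (nat_lit 82) (nat_lit 2) (.p (nat_lit 85) (nat_lit 2) (.p (nat_lit 86) (nat_lit 2) (.p (nat_lit 87) (nat_lit 1) (.n (nat_lit 88) (nat_lit 1) (.n (nat_lit 90) (nat_lit 2) (.p (nat_lit 91) (nat_lit 3) (.n (nat_lit 92) (nat_lit 1) (.n (nat_lit 93) (nat_lit 1) .z)))))))))))))))))) (.ct dD_c291 (nat_lit 1) (nat_lit 8) (.s false (nat_lit 3) (nat_lit 6) (nat_lit 4) (nat_lit 1) (nat_lit 1) true (nat_lit 1) true (nat_lit 8) true (nat_lit 3) true (nat_lit 5) true (nat_lit 8) (.e true (nat_lit 3) (nat_lit 15) (nat_lit 9) (nat_lit 1) (.e false (nat_lit 2) (nat_lit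 49) (nat_lit 1) (nat_lit 8) (.e false (nat_lit 1) (nat_lit 51) (nat_lit 1) (nat_lit 8) (.e false (nat_lit 1) (nat_lit 53) (nat_lit 1) (nat_lit 8) (.e false (nat_lit 3) (nat_lit 57) (nat_lit 1) (nat_lit 8) (.e false (nat_lit 3) (nat_lit 19) (nat_lit 6) (nat_lit 3) (.e false (nat_lit 1) (nat_lit 48) (nat_lit 1) (nat_lit 8) (.u (nat_lit 2) (.n (nat_lit 2) (nat_lit 1) (.n (nat_lit 5) (nat_lit 1) (.p (nat_lit 10) (nat_lit 1) (.p (nat_lit 15) (nat_lit 1) (.p (nat_lit 19) (nat_lit 1) (.n (nat_lit 57) (nat_lit 1) (.n (nat_lit 58) (nat_lit 2) (.n (nat_lit 60) (nat_lit 1) (.p (nat_lit 61) (nat_lit 1) (.n (nat_lit 62) (nat_lit 1) .z)))))))))) .nil)))))))))) (.nd (.nd .leaf (nat_lit 53250) (nat_lit 163) (.p (nat_lit 98) (nat_lit 1) .z) .df .leaf) (nat_lit 53253) (nat_lit 309) (.n (nat_lit 126) (nat_lit 1) (.n (nat_lit 127) (nat_lit 1) (.n (nat_lit 128) (nat_lit 2) (.p (nat_lit 129) (nat_lit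 1) (.p (nat_lit 130) (nat_lit 2) (.p (nat_lit 132) (nat_lit 2) (.n (nat_lit 133) (nat_lit 2) (.n (nat_lit 134) (nat_lit 2) (.n (nat_lit 135) (nat_lit 3) (.p (nat_lit 136) (nat_lit 3) (.p (nat_lit 137) (nat_lit 2) (.p (nat_lit 138) (nat_lit 1) (.n (nat_lit 139) (nat_lit 2) (.p (nat_lit 141) (nat_lit 3) (.n (nat_lit 143) (nat_lit 2) (.n (nat_lit 144) (nat_lit 2) (.p (nat_lit 145) (nat_lit 1) (.p (nat_lit 146) (nat_lit 3) (.n (nat_lit 147) (nat_lit 1) (.p (nat_lit 149) (nat_lit 2) (.n (nat_lit 152) (nat_lit 1) (.n (nat_lit 153) (nat_lit 1) (.p (nat_lit 154) (nat_lit 3) (.p (nat_lit 155) (nat_lit 1) .z)))))))))))))))))))))))) (.ct dD_c292 (nat_lit 1) (nat_lit 7) (.s false (nat_lit 1) (nat_lit 13) (nat_lit 2) (nat_lit 5) (nat_lit 1) true (nat_lit 7) true (nat_lit 11) true (nat_lit 2) true (nat_lit 10) true (nat_lit 7) (.s true (nat_lit 1) (nat_lit 13) (nat_lit 5) (nat_lit 2) (nat_lit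 1) true (nat_lit 3) true (nat_lit 11) true (nat_lit 2) true (nat_lit 7) true (nat_lit 10) (.s false (nat_lit 1) (nat_lit 31) (nat_lit 1) (nat_lit 2) (nat_lit 1) false (nat_lit 13) true (nat_lit 11) false (nat_lit 3) true (nat_lit 11) true (nat_lit 10) (.e false (nat_lit 3) (nat_lit 94) (nat_lit 1) (nat_lit 11) dD_i10))))) .leaf))))) (nat_lit 53254) (nat_lit 381) (.p (nat_lit 156) (nat_lit 1) (.p (nat_lit 157) (nat_lit 3) (.p (nat_lit 158) (nat_lit 1) (.p (nat_lit 159) (nat_lit 1) (.n (nat_lit 160) (nat_lit 2) (.p (nat_lit 161) (nat_lit 1) (.n (nat_lit 162) (nat_lit 1) (.n (nat_lit 163) (nat_lit 1) (.p (nat_lit 164) (nat_lit 1) (.p (nat_lit 165) (nat_lit 3) (.p (nat_lit 166) (nat_lit 2) (.n (nat_lit 168) (nat_lit 2) (.p (nat_lit 172) (nat_lit 1) (.n (nat_lit 174) (nat_lit 1) .z)))))))))))))) (.ct dD_c277 (nat_lit 1) (nat_lit 4) (.s true (nat_lit 1) (nat_lit 25) (nat_lit 2) (nat_lit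 2) (nat_lit 2) true (nat_lit 4) true (nat_lit 8) false (nat_lit 0) true (nat_lit 8) true (nat_lit 8) (.e true (nat_lit 3) (nat_lit 98) (nat_lit 2) (nat_lit 8) (.e false (nat_lit 1) (nat_lit 25) (nat_lit 16) (nat_lit 0) (.e false (nat_lit 3) (nat_lit 94) (nat_lit 2) (nat_lit 8) (.e false (nat_lit 3) (nat_lit 95) (nat_lit 2) (nat_lit 8) (.e false (nat_lit 3) (nat_lit 99) (nat_lit 2) (nat_lit 8) (.e true (nat_lit 1) (nat_lit 102) (nat_lit 2) (nat_lit 8) (.e false (nat_lit 1) (nat_lit 103) (nat_lit 2) (nat_lit 8) (.e false (nat_lit 1) (nat_lit 104) (nat_lit 2) (nat_lit 8) (.e false (nat_lit 1) (nat_lit 106) (nat_lit 2) (nat_lit 8) (.e false (nat_lit 1) (nat_lit 107) (nat_lit 2) (nat_lit 8) (.e true (nat_lit 1) (nat_lit 108) (nat_lit 2) (nat_lit 8) .nil))))))))))))) (.nd (.nd (.nd (.nd (.nd (.nd .leaf (nat_lit 54273) (nat_lit 140) (.p (nat_lit 73) (nat_lit 1) (.p (nat_lit 74) (nat_lit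 1) (.p (nat_lit 75) (nat_lit 1) (.n (nat_lit 76) (nat_lit 1) (.p (nat_lit 77) (nat_lit 3) (.p (nat_lit 79) (nat_lit 3) (.n (nat_lit 80) (nat_lit 3) (.n (nat_lit 81) (nat_lit 3) (.p (nat_lit 82) (nat_lit 2) (.p (nat_lit 83) (nat_lit 1) (.n (nat_lit 84) (nat_lit 1) (.p (nat_lit 86) (nat_lit 1) (.p (nat_lit 87) (nat_lit 1) (.n (nat_lit 90) (nat_lit 2) (.p (nat_lit 91) (nat_lit 3) (.n (nat_lit 93) (nat_lit 1) .z)))))))))))))))) (.ct dD_c291 (nat_lit 1) (nat_lit 8) (.s true (nat_lit 2) (nat_lit 5) (nat_lit 0) (nat_lit 2) (nat_lit 5) true (nat_lit 1) true (nat_lit 4) true (nat_lit 4) true (nat_lit 9) true (nat_lit 7) (.s true (nat_lit 3) (nat_lit 6) (nat_lit 2) (nat_lit 1) (nat_lit 3) true (nat_lit 1) true (nat_lit 6) true (nat_lit 3) true (nat_lit 7) true (nat_lit 8) (.s true (nat_lit 3) (nat_lit 6) (nat_lit 4) (nat_lit 1) (nat_lit 1) true (nat_lit 1) true (nat_lit 8) true (nat_lit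 3) true (nat_lit 5) true (nat_lit 8) (.s false (nat_lit 2) (nat_lit 10) (nat_lit 1) (nat_lit 2) (nat_lit 2) true (nat_lit 4) true (nat_lit 7) true (nat_lit 1) true (nat_lit 8) true (nat_lit 7) (.s true (nat_lit 3) (nat_lit 10) (nat_lit 2) (nat_lit 1) (nat_lit 2) true (nat_lit 3) true (nat_lit 7) true (nat_lit 1) true (nat_lit 7) true (nat_lit 8) (.s true (nat_lit 2) (nat_lit 13) (nat_lit 1) (nat_lit 1) (nat_lit 2) true (nat_lit 4) true (nat_lit 7) false (nat_lit 0) true (nat_lit 8) true (nat_lit 8) (.s true (nat_lit 2) (nat_lit 14) (nat_lit 0) (nat_lit 2) (nat_lit 1) true (nat_lit 6) true (nat_lit 8) false (nat_lit 1) true (nat_lit 9) true (nat_lit 7) dD_i11)))))))) .leaf) (nat_lit 54274) (nat_lit 164) (.p (nat_lit 99) (nat_lit 1) .z) .df (.nd .leaf (nat_lit 54277) (nat_lit 307) (.p (nat_lit 126) (nat_lit 3) (.p (nat_lit 127) (nat_lit 2) (.p (nat_lit 129) (nat_lit 1) (.n (nat_lit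 130) (nat_lit 3) (.n (nat_lit 131) (nat_lit 1) (.n (nat_lit 132) (nat_lit 2) (.p (nat_lit 133) (nat_lit 2) (.p (nat_lit 134) (nat_lit 2) (.p (nat_lit 135) (nat_lit 3) (.n (nat_lit 136) (nat_lit 2) (.p (nat_lit 137) (nat_lit 1) (.p (nat_lit 138) (nat_lit 1) (.n (nat_lit 139) (nat_lit 1) (.p (nat_lit 141) (nat_lit 3) (.p (nat_lit 143) (nat_lit 2) (.n (nat_lit 144) (nat_lit 1) (.n (nat_lit 147) (nat_lit 1) (.p (nat_lit 149) (nat_lit 1) (.n (nat_lit 152) (nat_lit 3) (.n (nat_lit 153) (nat_lit 3) .z)))))))))))))))))))) (.ct dD_c292 (nat_lit 1) (nat_lit 7) (.s true (nat_lit 1) (nat_lit 26) (nat_lit 2) (nat_lit 2) (nat_lit 1) true (nat_lit 7) true (nat_lit 11) false (nat_lit 1) true (nat_lit 10) true (nat_lit 10) (.e true (nat_lit 1) (nat_lit 99) (nat_lit 1) (nat_lit 11) (.e false (nat_lit 1) (nat_lit 26) (nat_lit 15) (nat_lit 1) (.e true (nat_lit 1) (nat_lit 73) (nat_lit 2) (nat_lit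 10) (.e true (nat_lit 2) (nat_lit 74) (nat_lit 2) (nat_lit 10) (.e false (nat_lit 1) (nat_lit 80) (nat_lit 2) (nat_lit 10) (.e true (nat_lit 2) (nat_lit 81) (nat_lit 2) (nat_lit 10) (.e false (nat_lit 3) (nat_lit 82) (nat_lit 2) (nat_lit 10) (.e false (nat_lit 2) (nat_lit 83) (nat_lit 2) (nat_lit 10) (.e false (nat_lit 2) (nat_lit 84) (nat_lit 2) (nat_lit 10) (.e false (nat_lit 1) (nat_lit 85) (nat_lit 2) (nat_lit 10) (.e true (nat_lit 1) (nat_lit 86) (nat_lit 2) (nat_lit 10) (.e true (nat_lit 3) (nat_lit 87) (nat_lit 2) (nat_lit 10) (.e false (nat_lit 3) (nat_lit 88) (nat_lit 2) (nat_lit 10) (.e false (nat_lit 3) (nat_lit 90) (nat_lit 2) (nat_lit 10) (.e false (nat_lit 2) (nat_lit 91) (nat_lit 2) (nat_lit 10) (.e true (nat_lit 1) (nat_lit 93) (nat_lit 2) (nat_lit 10) (.e false (nat_lit 1) (nat_lit 75) (nat_lit 2) (nat_lit 10) (.e true (nat_lit 1) (nat_lit 76) (nat_lit 2) (nat_lit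 10) (.e false (nat_lit 1) (nat_lit 79) (nat_lit 2) (nat_lit 10) (.u (nat_lit 2) (.n (nat_lit 0) (nat_lit 1) (.p (nat_lit 10) (nat_lit 1) (.n (nat_lit 14) (nat_lit 1) (.p (nat_lit 26) (nat_lit 1) .z)))) .nil)))))))))))))))))))))) .leaf)) (nat_lit 54278) (nat_lit 373) (.n (nat_lit 156) (nat_lit 2) (.p (nat_lit 157) (nat_lit 2) (.p (nat_lit 158) (nat_lit 3) (.n (nat_lit 159) (nat_lit 3) (.p (nat_lit 160) (nat_lit 2) (.p (nat_lit 161) (nat_lit 1) (.p (nat_lit 164) (nat_lit 1) (.p (nat_lit 165) (nat_lit 2) (.n (nat_lit 166) (nat_lit 1) (.p (nat_lit 169) (nat_lit 1) (.n (nat_lit 174) (nat_lit 1) .z))))))))))) (.ct dD_c277 (nat_lit 1) (nat_lit 4) (.s true (nat_lit 3) (nat_lit 6) (nat_lit 1) (nat_lit 6) (nat_lit 4) true (nat_lit 3) true (nat_lit 6) true (nat_lit 4) true (nat_lit 9) true (nat_lit 4) (.s true (nat_lit 1) (nat_lit 6) (nat_lit 4) (nat_lit 2) (nat_lit 5) false (nat_lit 0) true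 (nat_lit 5) true (nat_lit 4) true (nat_lit 6) true (nat_lit 8) (.s false (nat_lit 1) (nat_lit 6) (nat_lit 5) (nat_lit 2) (nat_lit 4) false (nat_lit 0) true (nat_lit 6) true (nat_lit 4) true (nat_lit 5) true (nat_lit 8) (.s true (nat_lit 3) (nat_lit 13) (nat_lit 2) (nat_lit 6) (nat_lit 1) true (nat_lit 5) true (nat_lit 9) true (nat_lit 2) true (nat_lit 8) true (nat_lit 4) (.s false (nat_lit 1) (nat_lit 12) (nat_lit 5) (nat_lit 2) (nat_lit 2) true (nat_lit 1) true (nat_lit 8) true (nat_lit 2) true (nat_lit 5) true (nat_lit 8) (.s true (nat_lit 1) (nat_lit 14) (nat_lit 4) (nat_lit 2) (nat_lit 2) true (nat_lit 2) true (nat_lit 8) true (nat_lit 1) true (nat_lit 6) true (nat_lit 8) (.s false (nat_lit 3) (nat_lit 16) (nat_lit 6) (nat_lit 1) (nat_lit 0) true (nat_lit 2) true (nat_lit 10) true (nat_lit 0) true (nat_lit 4) true (nat_lit 9) dD_i12)))))))) (.nd (.nd .leaf (nat_lit 55297) (nat_lit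 148) (.n (nat_lit 74) (nat_lit 1) (.p (nat_lit 75) (nat_lit 2) (.n (nat_lit 76) (nat_lit 2) (.p (nat_lit 77) (nat_lit 2) (.n (nat_lit 78) (nat_lit 1) (.n (nat_lit 79) (nat_lit 1) (.n (nat_lit 81) (nat_lit 3) (.p (nat_lit 82) (nat_lit 3) (.p (nat_lit 83) (nat_lit 1) (.n (nat_lit 84) (nat_lit 3) (.n (nat_lit 85) (nat_lit 1) (.p (nat_lit 86) (nat_lit 2) (.n (nat_lit 87) (nat_lit 1) (.n (nat_lit 88) (nat_lit 3) (.n (nat_lit 89) (nat_lit 1) (.p (nat_lit 90) (nat_lit 1) (.n (nat_lit 91) (nat_lit 1) (.p (nat_lit 92) (nat_lit 1) (.n (nat_lit 93) (nat_lit 1) .z))))))))))))))))))) (.ct dD_c291 (nat_lit 1) (nat_lit 8) (.s true (nat_lit 1) (nat_lit 12) (nat_lit 2) (nat_lit 1) (nat_lit 1) true (nat_lit 4) true (nat_lit 8) false (nat_lit 0) true (nat_lit 7) true (nat_lit 8) (.e false (nat_lit 1) (nat_lit 24) (nat_lit 5) (nat_lit 4) (.e false (nat_lit 1) (nat_lit 12) (nat_lit 11) (nat_lit 0)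 (.e false (nat_lit 1) (nat_lit 51) (nat_lit 1) (nat_lit 8) .nil))))) .leaf) (nat_lit 55298) (nat_lit 165) (.p (nat_lit 100) (nat_lit 1) .z) .df .leaf)) (nat_lit 55301) (nat_lit 294) (.p (nat_lit 126) (nat_lit 1) (.p (nat_lit 127) (nat_lit 1) (.n (nat_lit 128) (nat_lit 1) (.n (nat_lit 129) (nat_lit 2) (.p (nat_lit 130) (nat_lit 3) (.p (nat_lit 131) (nat_lit 2) (.n (nat_lit 132) (nat_lit 1) (.p (nat_lit 133) (nat_lit 2) (.n (nat_lit 134) (nat_lit 1) (.p (nat_lit 135) (nat_lit 2) (.p (nat_lit 136) (nat_lit 2) (.n (nat_lit 137) (nat_lit 2) (.n (nat_lit 138) (nat_lit 1) (.n (nat_lit 139) (nat_lit 2) (.n (nat_lit 140) (nat_lit 2) (.n (nat_lit 141) (nat_lit 3) (.p (nat_lit 142) (nat_lit 1) (.p (nat_lit 143) (nat_lit 1) (.n (nat_lit 145) (nat_lit 1) (.n (nat_lit 146) (nat_lit 1) (.p (nat_lit 147) (nat_lit 1) (.p (nat_lit 150) (nat_lit 1) (.n (nat_lit 152) (nat_lit 1) (.n (nat_lit 153)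 (nat_lit 2) (.p (nat_lit 154) (nat_lit 1) (.n (nat_lit 155) (nat_lit 1) .z)))))))))))))))))))))))))) (.ct dD_c292 (nat_lit 1) (nat_lit 7) (.s false (nat_lit 1) (nat_lit 30) (nat_lit 2) (nat_lit 1) (nat_lit 1) true (nat_lit 7) true (nat_lit 11) false (nat_lit 3) true (nat_lit 10) true (nat_lit 11) (.e false (nat_lit 1) (nat_lit 105) (nat_lit 1) (nat_lit 11) (.e true (nat_lit 1) (nat_lit 30) (nat_lit 11) (nat_lit 3) (.e true (nat_lit 1) (nat_lit 100) (nat_lit 1) (nat_lit 11) (.u (nat_lit 2) (.p (nat_lit 3) (nat_lit 1) (.n (nat_lit 4) (nat_lit 1) (.p (nat_lit 8) (nat_lit 1) (.n (nat_lit 9) (nat_lit 1) (.p (nat_lit 11) (nat_lit 1) (.p (nat_lit 15) (nat_lit 1) .z)))))) .nil)))))) (.nd (.nd (.nd .leaf (nat_lit 55302) (nat_lit 389) (.p (nat_lit 156) (nat_lit 2) (.n (nat_lit 158) (nat_lit 3) (.n (nat_lit 159) (nat_lit 3) (.n (nat_lit 160) (nat_lit 2) (.p (nat_lit 161) (nat_lit 3) (.n (nat_lit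 162) (nat_lit 1) (.n (nat_lit 163) (nat_lit 3) (.n (nat_lit 164) (nat_lit 2) (.n (nat_lit 165) (nat_lit 2) (.n (nat_lit 166) (nat_lit 3) (.p (nat_lit 173) (nat_lit 1) .z))))))))))) (.ct dD_c277 (nat_lit 1) (nat_lit 4) (.s false (nat_lit 1) (nat_lit 6) (nat_lit 1) (nat_lit 4) (nat_lit 6) true (nat_lit 1) true (nat_lit 4) true (nat_lit 4) true (nat_lit 9) true (nat_lit 6) (.e true (nat_lit 1) (nat_lit 31) (nat_lit 15) (nat_lit 1) (.e true (nat_lit 1) (nat_lit 32) (nat_lit 15) (nat_lit 1) (.e false (nat_lit 2) (nat_lit 48) (nat_lit 6) (nat_lit 4) (.e false (nat_lit 3) (nat_lit 49) (nat_lit 6) (nat_lit 4) (.e true (nat_lit 2) (nat_lit 52) (nat_lit 6) (nat_lit 4) (.e false (nat_lit 3) (nat_lit 53) (nat_lit 6) (nat_lit 4) (.e false (nat_lit 1) (nat_lit 55) (nat_lit 6) (nat_lit 4) (.e true (nat_lit 1) (nat_lit 58) (nat_lit 6) (nat_lit 4) (.e true (nat_lit 1) (nat_lit 57) (nat_lit 6) (nat_lit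 4) (.e false (nat_lit 2) (nat_lit 117) (nat_lit 1) (nat_lit 9) (.e false (nat_lit 2) (nat_lit 118) (nat_lit 1) (nat_lit 9) (.u (nat_lit 2) (.n (nat_lit 0) (nat_lit 2) (.p (nat_lit 2) (nat_lit 1) (.n (nat_lit 3) (nat_lit 2) (.p (nat_lit 4) (nat_lit 2) (.p (nat_lit 5) (nat_lit 1) (.p (nat_lit 6) (nat_lit 1) (.p (nat_lit 7) (nat_lit 1) (.p (nat_lit 8) (nat_lit 1) (.n (nat_lit 9) (nat_lit 1) (.n (nat_lit 10) (nat_lit 1) .z)))))))))) .nil)))))))))))))) .leaf) (nat_lit 56321) (nat_lit 149) (.p (nat_lit 73) (nat_lit 1) (.p (nat_lit 74) (nat_lit 3) (.p (nat_lit 75) (nat_lit 3) (.n (nat_lit 76) (nat_lit 2) (.p (nat_lit 77) (nat_lit 2) (.p (nat_lit 78) (nat_lit 2) (.n (nat_lit 79) (nat_lit 2) (.p (nat_lit 80) (nat_lit 3) (.n (nat_lit 82) (nat_lit 3) (.n (nat_lit 83) (nat_lit 3) (.p (nat_lit 84) (nat_lit 1) (.p (nat_lit 85) (nat_lit 1) (.n (nat_lit 86) (nat_lit 1) (.p (nat_lit 87) (nat_lit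 3) (.p (nat_lit 89) (nat_lit 1) (.n (nat_lit 90) (nat_lit 2) (.p (nat_lit 91) (nat_lit 3) (.n (nat_lit 92) (nat_lit 2) (.p (nat_lit 93) (nat_lit 3) .z))))))))))))))))))) (.ct dD_c291 (nat_lit 1) (nat_lit 8) (.s true (nat_lit 1) (nat_lit 12) (nat_lit 1) (nat_lit 2) (nat_lit 1) false (nat_lit 10) true (nat_lit 8) false (nat_lit 0) true (nat_lit 8) true (nat_lit 7) (.e true (nat_lit 1) (nat_lit 51) (nat_lit 1) (nat_lit 8) (.e true (nat_lit 1) (nat_lit 12) (nat_lit 11) (nat_lit 0) (.e true (nat_lit 1) (nat_lit 48) (nat_lit 1) (nat_lit 8) (.e true (nat_lit 1) (nat_lit 49) (nat_lit 1) (nat_lit 8) (.e false (nat_lit 1) (nat_lit 52) (nat_lit 1) (nat_lit 8) (.e true (nat_lit 2) (nat_lit 53) (nat_lit 1) (nat_lit 8) (.e false (nat_lit 1) (nat_lit 58) (nat_lit 1) (nat_lit 8) (.e false (nat_lit 1) (nat_lit 43) (nat_lit 2) (nat_lit 7) (.u (nat_lit 2) (.n (nat_lit 0) (nat_lit 1) (.n (nat_lit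 1) (nat_lit 1) (.n (nat_lit 4) (nat_lit 1) (.p (nat_lit 17) (nat_lit 1) (.n (nat_lit 18) (nat_lit 1) .z))))) .nil))))))))))) (.nd .leaf (nat_lit 56322) (nat_lit 166) (.p (nat_lit 101) (nat_lit 1) .z) .df .leaf)) (nat_lit 56325) (nat_lit 300) (.p (nat_lit 126) (nat_lit 1) (.n (nat_lit 127) (nat_lit 1) (.n (nat_lit 128) (nat_lit 3) (.p (nat_lit 129) (nat_lit 1) (.n (nat_lit 130) (nat_lit 3) (.p (nat_lit 131) (nat_lit 2) (.n (nat_lit 133) (nat_lit 1) (.p (nat_lit 134) (nat_lit 3) (.p (nat_lit 135) (nat_lit 2) (.p (nat_lit 136) (nat_lit 3) (.n (nat_lit 137) (nat_lit 3) (.p (nat_lit 139) (nat_lit 1) (.n (nat_lit 140) (nat_lit 1) (.p (nat_lit 141) (nat_lit 3) (.n (nat_lit 142) (nat_lit 1) (.n (nat_lit 143) (nat_lit 3) (.p (nat_lit 144) (nat_lit 2) (.p (nat_lit 145) (nat_lit 2) (.p (nat_lit 146) (nat_lit 3) (.n (nat_lit 147) (nat_lit 1) (.p (nat_lit 148) (nat_lit 1) (.p (nat_lit 149)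 (nat_lit 1) (.n (nat_lit 150) (nat_lit 1) (.p (nat_lit 152) (nat_lit 1) (.p (nat_lit 153) (nat_lit 1) (.p (nat_lit 154) (nat_lit 2) .z)))))))))))))))))))))))))) (.ct dD_c292 (nat_lit 1) (nat_lit 7) (.s true (nat_lit 1) (nat_lit 33) (nat_lit 1) (nat_lit 0) (nat_lit 2) true (nat_lit 7) true (nat_lit 10) false (nat_lit 4) true (nat_lit 11) true (nat_lit 12) (.e false (nat_lit 1) (nat_lit 73) (nat_lit 2) (nat_lit 10) (.e false (nat_lit 2) (nat_lit 75) (nat_lit 2) (nat_lit 10) (.e true (nat_lit 3) (nat_lit 76) (nat_lit 2) (nat_lit 10) (.e false (nat_lit 3) (nat_lit 77) (nat_lit 2) (nat_lit 10) (.e true (nat_lit 2) (nat_lit 78) (nat_lit 2) (nat_lit 10) (.e true (nat_lit 3) (nat_lit 79) (nat_lit 2) (nat_lit 10) (.e false (nat_lit 2) (nat_lit 80) (nat_lit 2) (nat_lit 10) dD_i13))))))))) (.nd (.nd .leaf (nat_lit 56326) (nat_lit 375) (.p (nat_lit 156) (nat_lit 2) (.n (nat_lit 157) (nat_lit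 1) (.n (nat_lit 158) (nat_lit 2) (.p (nat_lit 159) (nat_lit 1) (.n (nat_lit 160) (nat_lit 2) (.n (nat_lit 161) (nat_lit 1) (.n (nat_lit 162) (nat_lit 3) (.n (nat_lit 163) (nat_lit 1) (.p (nat_lit 164) (nat_lit 2) (.n (nat_lit 165) (nat_lit 3) (.n (nat_lit 166) (nat_lit 2) (.p (nat_lit 174) (nat_lit 1) .z)))))))))))) (.ct dD_c277 (nat_lit 1) (nat_lit 4) dD_i14) .leaf) (nat_lit 57345) (nat_lit 121) (.p (nat_lit 87) (nat_lit 1) .z) .df .leaf))) (nat_lit 57346) (nat_lit 167) (.p (nat_lit 102) (nat_lit 1) .z) .df (.nd (.nd (.nd (.nd .leaf (nat_lit 57349) (nat_lit 282) (.p (nat_lit 126) (nat_lit 2) (.n (nat_lit 127) (nat_lit 2) (.n (nat_lit 128) (nat_lit 1) (.p (nat_lit 129) (nat_lit 1) (.p (nat_lit 130) (nat_lit 1) (.p (nat_lit 135) (nat_lit 1) (.n (nat_lit 137) (nat_lit 2) (.p (nat_lit 140) (nat_lit 3) (.n (nat_lit 143) (nat_lit 2) (.p (nat_lit 144) (nat_lit 2) (.p (nat_lit 146) (nat_lit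 1) (.p (nat_lit 147) (nat_lit 1) (.p (nat_lit 153) (nat_lit 1) (.p (nat_lit 155) (nat_lit 1) .z)))))))))))))) (.ct dD_c292 (nat_lit 1) (nat_lit 7) (.s false (nat_lit 1) (nat_lit 8) (nat_lit 5) (nat_lit 2) (nat_lit 2) true (nat_lit 1) true (nat_lit 10) true (nat_lit 4) true (nat_lit 7) true (nat_lit 10) (.e false (nat_lit 1) (nat_lit 21) (nat_lit 14) (nat_lit 1) (.e true (nat_lit 1) (nat_lit 33) (nat_lit 8) (nat_lit 4) (.e false (nat_lit 1) (nat_lit 74) (nat_lit 2) (nat_lit 10) (.e false (nat_lit 2) (nat_lit 77) (nat_lit 2) (nat_lit 10) (.e false (nat_lit 1) (nat_lit 84) (nat_lit 2) (nat_lit 10) (.e true (nat_lit 1) (nat_lit 87) (nat_lit 2) (nat_lit 10) (.e true (nat_lit 1) (nat_lit 91) (nat_lit 2) (nat_lit 10) .nil))))))))) .leaf) (nat_lit 57350) (nat_lit 359) (.p (nat_lit 164) (nat_lit 2) .z) (.ct dD_c277 (nat_lit 1) (nat_lit 4) (.s true (nat_lit 1) (nat_lit 6) (nat_lit 2) (nat_lit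 6) (nat_lit 3) true (nat_lit 3) true (nat_lit 7) true (nat_lit 4) true (nat_lit 8) true (nat_lit 4) (.e false (nat_lit 2) (nat_lit 102) (nat_lit 2) (nat_lit 8) .nil))) (.nd .leaf (nat_lit 58369) (nat_lit 122) (.p (nat_lit 88) (nat_lit 1) .z) .df .leaf)) (nat_lit 58370) (nat_lit 168) (.p (nat_lit 103) (nat_lit 1) .z) .df (.nd (.nd .leaf (nat_lit 58373) (nat_lit 301) (.n (nat_lit 126) (nat_lit 2) (.p (nat_lit 127) (nat_lit 1) (.n (nat_lit 129) (nat_lit 1) (.p (nat_lit 130) (nat_lit 1) (.n (nat_lit 131) (nat_lit 1) (.p (nat_lit 132) (nat_lit 3) (.n (nat_lit 133) (nat_lit 3) (.p (nat_lit 134) (nat_lit 1) (.p (nat_lit 135) (nat_lit 2) (.p (nat_lit 136) (nat_lit 2) (.p (nat_lit 137) (nat_lit 3) (.n (nat_lit 141) (nat_lit 1) (.p (nat_lit 143) (nat_lit 2) (.n (nat_lit 144) (nat_lit 2) (.n (nat_lit 146) (nat_lit 2) (.p (nat_lit 147) (nat_lit 1) (.p (nat_lit 148) (nat_lit 2) (.n (nat_lit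 152) (nat_lit 2) (.n (nat_lit 153) (nat_lit 3) (.p (nat_lit 154) (nat_lit 1) (.n (nat_lit 155) (nat_lit 1) .z))))))))))))))))))))) (.ct dD_c292 (nat_lit 1) (nat_lit 7) (.s false (nat_lit 1) (nat_lit 9) (nat_lit 2) (nat_lit 6) (nat_lit 1) true (nat_lit 7) true (nat_lit 11) true (nat_lit 4) true (nat_lit 10) true (nat_lit 6) (.s false (nat_lit 1) (nat_lit 16) (nat_lit 4) (nat_lit 1) (nat_lit 1) true (nat_lit 4) true (nat_lit 11) true (nat_lit 0) true (nat_lit 8) true (nat_lit 11) (.e false (nat_lit 2) (nat_lit 75) (nat_lit 2) (nat_lit 10) (.e false (nat_lit 2) (nat_lit 78) (nat_lit 2) (nat_lit 10) (.e true (nat_lit 2) (nat_lit 83) (nat_lit 2) (nat_lit 10) (.e true (nat_lit 1) (nat_lit 88) (nat_lit 2) (nat_lit 10) (.e true (nat_lit 1) (nat_lit 92) (nat_lit 2) (nat_lit 10) (.e true (nat_lit 1) (nat_lit 39) (nat_lit 6) (nat_lit 6) (.e false (nat_lit 1) (nat_lit 99) (nat_lit 1) (nat_lit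 11) (.e false (nat_lit 3) (nat_lit 100) (nat_lit 1) (nat_lit 11) (.e false (nat_lit 3) (nat_lit 97) (nat_lit 1) (nat_lit 11) (.e true (nat_lit 2) (nat_lit 96) (nat_lit 1) (nat_lit 11) (.e false (nat_lit 3) (nat_lit 101) (nat_lit 1) (nat_lit 11) (.e true (nat_lit 1) (nat_lit 102) (nat_lit 1) (nat_lit 11) (.e true (nat_lit 1) (nat_lit 103) (nat_lit 1) (nat_lit 11) (.e true (nat_lit 2) (nat_lit 104) (nat_lit 1) (nat_lit 11) (.e true (nat_lit 1) (nat_lit 19) (nat_lit 16) (nat_lit 0) (.u (nat_lit 2) (.p (nat_lit 0) (nat_lit 1) (.n (nat_lit 1) (nat_lit 2) (.p (nat_lit 2) (nat_lit 3) (.p (nat_lit 5) (nat_lit 3) (.n (nat_lit 8) (nat_lit 2) (.n (nat_lit 10) (nat_lit 3) (.n (nat_lit 17) (nat_lit 3) (.p (nat_lit 20) (nat_lit 1) (.n (nat_lit 21) (nat_lit 1) (.n (nat_lit 22) (nat_lit 1) (.p (nat_lit 23) (nat_lit 1) (.p (nat_lit 27) (nat_lit 1) (.p (nat_lit 29) (nat_lit 1) (.n (nat_lit 117)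 (nat_lit 1) (.n (nat_lit 118) (nat_lit 1) (.n (nat_lit 120) (nat_lit 1) (.n (nat_lit 122) (nat_lit 1) (.n (nat_lit 123) (nat_lit 1) (.n (nat_lit 124) (nat_lit 1) .z))))))))))))))))))) .nil))))))))))))))))))) .leaf) (nat_lit 58374) (nat_lit 362) (.p (nat_lit 168) (nat_lit 2) .z) (.ct dD_c277 (nat_lit 1) (nat_lit 4) (.s true (nat_lit 3) (nat_lit 9) (nat_lit 2) (nat_lit 6) (nat_lit 2) true (nat_lit 4) true (nat_lit 8) true (nat_lit 3) true (nat_lit 8) true (nat_lit 4) (.s true (nat_lit 3) (nat_lit 9) (nat_lit 6) (nat_lit 2) (nat_lit 2) true (nat_lit 0) true (nat_lit 8) true (nat_lit 3) true (nat_lit 4) true (nat_lit 8) (.e true (nat_lit 2) (nat_lit 107) (nat_lit 2) (nat_lit 8) (.e true (nat_lit 3) (nat_lit 49) (nat_lit 6) (nat_lit 4) (.e false (nat_lit 3) (nat_lit 22) (nat_lit 16) (nat_lit 0) (.u (nat_lit 2) (.n (nat_lit 12) (nat_lit 1) (.p (nat_lit 49) (nat_lit 1) (.n (nat_lit 73)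 (nat_lit 1) .z))) .nil))))))) .leaf)) (nat_lit 59393) (nat_lit 144) (.n (nat_lit 73) (nat_lit 3) (.n (nat_lit 74) (nat_lit 1) (.p (nat_lit 75) (nat_lit 2) (.n (nat_lit 76) (nat_lit 2) (.n (nat_lit 77) (nat_lit 1) (.p (nat_lit 79) (nat_lit 1) (.n (nat_lit 80) (nat_lit 1) (.n (nat_lit 81) (nat_lit 3) (.n (nat_lit 83) (nat_lit 2) (.p (nat_lit 87) (nat_lit 3) (.p (nat_lit 88) (nat_lit 1) (.p (nat_lit 90) (nat_lit 2) (.n (nat_lit 91) (nat_lit 2) (.p (nat_lit 93) (nat_lit 3) .z)))))))))))))) (.ct dD_c291 (nat_lit 1) (nat_lit 8) (.s true (nat_lit 1) (nat_lit 16) (nat_lit 0) (nat_lit 1) (nat_lit 1) true (nat_lit 6) true (nat_lit 8) false (nat_lit 2) true (nat_lit 9) true (nat_lit 8) (.e true (nat_lit 1) (nat_lit 35) (nat_lit 3) (nat_lit 6) (.e true (nat_lit 2) (nat_lit 48) (nat_lit 1) (nat_lit 8) (.e true (nat_lit 3) (nat_lit 49) (nat_lit 1) (nat_lit 8) (.e false (nat_lit 3) (nat_lit 50)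 (nat_lit 1) (nat_lit 8) (.e true (nat_lit 1) (nat_lit 51) (nat_lit 1) (nat_lit 8) (.e false (nat_lit 1) (nat_lit 53) (nat_lit 1) (nat_lit 8) (.e false (nat_lit 2) (nat_lit 56) (nat_lit 1) (nat_lit 8) (.e false (nat_lit 1) (nat_lit 57) (nat_lit 1) (nat_lit 8) (.e true (nat_lit 1) (nat_lit 16) (nat_lit 7) (nat_lit 2) (.u (nat_lit 2) (.p (nat_lit 0) (nat_lit 1) (.p (nat_lit 1) (nat_lit 1) (.n (nat_lit 2) (nat_lit 1) (.p (nat_lit 3) (nat_lit 1) (.n (nat_lit 6) (nat_lit 1) (.p (nat_lit 7) (nat_lit 1) (.p (nat_lit 8) (nat_lit 1) (.n (nat_lit 9) (nat_lit 1) (.n (nat_lit 14) (nat_lit 1) (.p (nat_lit 18) (nat_lit 2) .z)))))))))) .nil)))))))))))) (.nd (.nd (.nd .leaf (nat_lit 59394) (nat_lit 169) (.p (nat_lit 104) (nat_lit 1) .z) .df .leaf) (nat_lit 59397) (nat_lit 326) (.n (nat_lit 126) (nat_lit 3) (.n (nat_lit 127) (nat_lit 1) (.n (nat_lit 129) (nat_lit 1) (.n (nat_lit 131) (nat_lit 1)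 (.p (nat_lit 132) (nat_lit 2) (.n (nat_lit 133) (nat_lit 2) (.p (nat_lit 135) (nat_lit 2) (.n (nat_lit 136) (nat_lit 3) (.p (nat_lit 137) (nat_lit 1) (.p (nat_lit 140) (nat_lit 2) (.n (nat_lit 141) (nat_lit 1) (.n (nat_lit 143) (nat_lit 2) (.p (nat_lit 144) (nat_lit 2) (.p (nat_lit 146) (nat_lit 1) (.p (nat_lit 148) (nat_lit 2) (.n (nat_lit 153) (nat_lit 2) (.p (nat_lit 154) (nat_lit 1) (.n (nat_lit 155) (nat_lit 2) .z)))))))))))))))))) (.ct dD_c292 (nat_lit 1) (nat_lit 7) (.s false (nat_lit 1) (nat_lit 10) (nat_lit 2) (nat_lit 6) (nat_lit 1) true (nat_lit 7) true (nat_lit 11) true (nat_lit 4) true (nat_lit 10) true (nat_lit 6) (.e false (nat_lit 1) (nat_lit 108) (nat_lit 1) (nat_lit 11) (.e false (nat_lit 1) (nat_lit 35) (nat_lit 10) (nat_lit 4) (.e false (nat_lit 3) (nat_lit 73) (nat_lit 2) (nat_lit 10) (.e true (nat_lit 1) (nat_lit 74) (nat_lit 2) (nat_lit 10) (.e true (nat_lit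 1) (nat_lit 75) (nat_lit 2) (nat_lit 10) (.e false (nat_lit 3) (nat_lit 76) (nat_lit 2) (nat_lit 10) (.e false (nat_lit 2) (nat_lit 77) (nat_lit 2) (nat_lit 10) (.e false (nat_lit 2) (nat_lit 78) (nat_lit 2) (nat_lit 10) (.e true (nat_lit 3) (nat_lit 79) (nat_lit 2) (nat_lit 10) (.e false (nat_lit 3) (nat_lit 80) (nat_lit 2) (nat_lit 10) (.e false (nat_lit 1) (nat_lit 81) (nat_lit 2) (nat_lit 10) (.e true (nat_lit 3) (nat_lit 82) (nat_lit 2) (nat_lit 10) (.e true (nat_lit 3) (nat_lit 83) (nat_lit 2) (nat_lit 10) (.e true (nat_lit 2) (nat_lit 87) (nat_lit 2) (nat_lit 10) (.e true (nat_lit 1) (nat_lit 88) (nat_lit 2) (nat_lit 10) (.e false (nat_lit 2) (nat_lit 91) (nat_lit 2) (nat_lit 10) (.e true (nat_lit 1) (nat_lit 92) (nat_lit 2) (nat_lit 10) (.e false (nat_lit 3) (nat_lit 93) (nat_lit 2) (nat_lit 10) (.e true (nat_lit 1) (nat_lit 40) (nat_lit 6) (nat_lit 6) (.u (nat_lit 2) (.p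 (nat_lit 0) (nat_lit 1) (.n (nat_lit 1) (nat_lit 1) (.n (nat_lit 2) (nat_lit 1) (.p (nat_lit 3) (nat_lit 1) (.p (nat_lit 4) (nat_lit 1) (.n (nat_lit 6) (nat_lit 1) (.p (nat_lit 7) (nat_lit 1) (.n (nat_lit 9) (nat_lit 1) (.n (nat_lit 14) (nat_lit 1) (.n (nat_lit 26) (nat_lit 1) (.p (nat_lit 27) (nat_lit 1) (.n (nat_lit 28) (nat_lit 1) .z)))))))))))) .nil)))))))))))))))))))))) .leaf) (nat_lit 59398) (nat_lit 364) (.p (nat_lit 169) (nat_lit 2) .z) (.ct dD_c277 (nat_lit 1) (nat_lit 4) (.s true (nat_lit 3) (nat_lit 10) (nat_lit 2) (nat_lit 6) (nat_lit 2) true (nat_lit 4) true (nat_lit 8) true (nat_lit 3) true (nat_lit 8) true (nat_lit 4) (.s true (nat_lit 3) (nat_lit 10) (nat_lit 6) (nat_lit 2) (nat_lit 2) true (nat_lit 0) true (nat_lit 8) true (nat_lit 3) true (nat_lit 4) true (nat_lit 8) (.e true (nat_lit 2) (nat_lit 108) (nat_lit 2) (nat_lit 8) (.e true (nat_lit 3) (nat_lit 50) (nat_lit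 6) (nat_lit 4) (.e false (nat_lit 3) (nat_lit 23) (nat_lit 16) (nat_lit 0) (.u (nat_lit 2) (.n (nat_lit 13) (nat_lit 1) (.p (nat_lit 50) (nat_lit 1) (.n (nat_lit 74) (nat_lit 1) .z))) .nil))))))) (.nd (.nd .leaf (nat_lit 60416) (nat_lit 123) (.p (nat_lit 89) (nat_lit 1) .z) .df .leaf) (nat_lit 60418) (nat_lit 198) (.p (nat_lit 110) (nat_lit 1) .z) .df .leaf)))) (nat_lit 60420) (nat_lit 328) (.n (nat_lit 126) (nat_lit 1) (.p (nat_lit 127) (nat_lit 3) (.n (nat_lit 128) (nat_lit 1) (.n (nat_lit 129) (nat_lit 3) (.p (nat_lit 130) (nat_lit 3) (.n (nat_lit 132) (nat_lit 1) (.p (nat_lit 133) (nat_lit 3) (.n (nat_lit 136) (nat_lit 3) (.n (nat_lit 138) (nat_lit 1) (.n (nat_lit 139) (nat_lit 2) (.p (nat_lit 140) (nat_lit 2) (.n (nat_lit 141) (nat_lit 3) (.p (nat_lit 142) (nat_lit 1) (.n (nat_lit 143) (nat_lit 1) (.p (nat_lit 144) (nat_lit 1) (.n (nat_lit 145) (nat_lit 2) (.n (nat_lit 146)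 (nat_lit 2) (.p (nat_lit 150) (nat_lit 1) (.n (nat_lit 151) (nat_lit 1) (.n (nat_lit 152) (nat_lit 2) (.n (nat_lit 153) (nat_lit 2) (.p (nat_lit 154) (nat_lit 3) .z)))))))))))))))))))))) (.ct dD_c292 (nat_lit 1) (nat_lit 8) (.s false (nat_lit 1) (nat_lit 11) (nat_lit 2) (nat_lit 4) (nat_lit 2) true (nat_lit 6) true (nat_lit 10) true (nat_lit 3) true (nat_lit 10) true (nat_lit 8) (.e true (nat_lit 1) (nat_lit 42) (nat_lit 6) (nat_lit 6) (.e false (nat_lit 1) (nat_lit 43) (nat_lit 6) (nat_lit 6) (.e true (nat_lit 1) (nat_lit 47) (nat_lit 6) (nat_lit 6) (.e true (nat_lit 1) (nat_lit 73) (nat_lit 2) (nat_lit 10) (.e true (nat_lit 1) (nat_lit 74) (nat_lit 2) (nat_lit 10) (.e true (nat_lit 1) (nat_lit 77) (nat_lit 2) (nat_lit 10) (.e true (nat_lit 2) (nat_lit 78) (nat_lit 2) (nat_lit 10) (.e false (nat_lit 3) (nat_lit 79) (nat_lit 2) (nat_lit 10) (.e false (nat_lit 3) (nat_lit 80) (nat_lit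 2) (nat_lit 10) (.e false (nat_lit 3) (nat_lit 81) (nat_lit 2) (nat_lit 10) (.e false (nat_lit 3) (nat_lit 83) (nat_lit 2) (nat_lit 10) (.e false (nat_lit 3) (nat_lit 84) (nat_lit 2) (nat_lit 10) (.e true (nat_lit 2) (nat_lit 85) (nat_lit 2) (nat_lit 10) (.e false (nat_lit 1) (nat_lit 88) (nat_lit 2) (nat_lit 10) (.e false (nat_lit 3) (nat_lit 91) (nat_lit 2) (nat_lit 10) (.e false (nat_lit 2) (nat_lit 92) (nat_lit 2) (nat_lit 10) (.e false (nat_lit 3) (nat_lit 93) (nat_lit 2) (nat_lit 10) (.e true (nat_lit 1) (nat_lit 30) (nat_lit 11) (nat_lit 3) (.e true (nat_lit 1) (nat_lit 75) (nat_lit 2) (nat_lit 10) (.e true (nat_lit 1) (nat_lit 87) (nat_lit 2) (nat_lit 10) (.u (nat_lit 2) (.n (nat_lit 1) (nat_lit 1) (.n (nat_lit 2) (nat_lit 1) (.p (nat_lit 3) (nat_lit 1) (.n (nat_lit 4) (nat_lit 1) (.n (nat_lit 5) (nat_lit 1) (.p (nat_lit 6) (nat_lit 1) (.p (nat_lit 8) (nat_lit 1) (.n (nat_lit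 9) (nat_lit 1) (.p (nat_lit 11) (nat_lit 2) (.p (nat_lit 15) (nat_lit 1) (.p (nat_lit 18) (nat_lit 1) (.p (nat_lit 19) (nat_lit 1) (.p (nat_lit 20) (nat_lit 1) (.p (nat_lit 26) (nat_lit 1) (.p (nat_lit 27) (nat_lit 1) (.n (nat_lit 28) (nat_lit 1) (.n (nat_lit 103) (nat_lit 1) (.n (nat_lit 106) (nat_lit 1) (.n (nat_lit 114) (nat_lit 1) .z))))))))))))))))))) .nil))))))))))))))))))))))) (.nd (.nd (.nd (.nd (.nd .leaf (nat_lit 60422) (nat_lit 408) (.p (nat_lit 181) (nat_lit 1) .z) .df .leaf) (nat_lit 61440) (nat_lit 150) (.p (nat_lit 73) (nat_lit 1) (.p (nat_lit 74) (nat_lit 1) (.n (nat_lit 75) (nat_lit 3) (.n (nat_lit 76) (nat_lit 3) (.p (nat_lit 77) (nat_lit 2) (.p (nat_lit 78) (nat_lit 3) (.n (nat_lit 79) (nat_lit 2) (.n (nat_lit 80) (nat_lit 3) (.n (nat_lit 81) (nat_lit 2) (.n (nat_lit 83) (nat_lit 2) (.p (nat_lit 84) (nat_lit 3) (.p (nat_lit 85) (nat_lit 3) (.n (nat_lit 86) (nat_lit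 2) (.p (nat_lit 88) (nat_lit 3) (.p (nat_lit 89) (nat_lit 1) (.p (nat_lit 90) (nat_lit 1) (.n (nat_lit 91) (nat_lit 2) (.n (nat_lit 92) (nat_lit 3) (.p (nat_lit 93) (nat_lit 2) .z))))))))))))))))))) (.ct dD_c291 (nat_lit 1) (nat_lit 9) (.s false (nat_lit 1) (nat_lit 14) (nat_lit 2) (nat_lit 0) (nat_lit 1) true (nat_lit 4) true (nat_lit 8) false (nat_lit 1) true (nat_lit 7) true (nat_lit 9) (.e true (nat_lit 1) (nat_lit 26) (nat_lit 5) (nat_lit 4) (.e false (nat_lit 1) (nat_lit 55) (nat_lit 1) (nat_lit 8) (.e true (nat_lit 1) (nat_lit 14) (nat_lit 9) (nat_lit 1) (.e true (nat_lit 1) (nat_lit 37) (nat_lit 2) (nat_lit 7) (.e true (nat_lit 1) (nat_lit 38) (nat_lit 2) (nat_lit 7) (.e false (nat_lit 1) (nat_lit 39) (nat_lit 2) (nat_lit 7) (.e true (nat_lit 1) (nat_lit 40) (nat_lit 2) (nat_lit 7) (.e true (nat_lit 1) (nat_lit 41) (nat_lit 2) (nat_lit 7) (.e false (nat_lit 1) (nat_lit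 45) (nat_lit 2) (nat_lit 7) (.u (nat_lit 2) (.p (nat_lit 2) (nat_lit 1) (.p (nat_lit 7) (nat_lit 1) (.p (nat_lit 18) (nat_lit 1) .z))) .nil)))))))))))) (.nd .leaf (nat_lit 61442) (nat_lit 199) (.p (nat_lit 111) (nat_lit 1) .z) .df .leaf)) (nat_lit 61444) (nat_lit 316) (.p (nat_lit 126) (nat_lit 3) (.p (nat_lit 127) (nat_lit 3) (.p (nat_lit 128) (nat_lit 2) (.p (nat_lit 129) (nat_lit 3) (.p (nat_lit 131) (nat_lit 2) (.p (nat_lit 132) (nat_lit 2) (.p (nat_lit 133) (nat_lit 3) (.n (nat_lit 134) (nat_lit 2) (.n (nat_lit 135) (nat_lit 2) (.n (nat_lit 136) (nat_lit 3) (.n (nat_lit 137) (nat_lit 1) (.p (nat_lit 138) (nat_lit 1) (.p (nat_lit 139) (nat_lit 2) (.p (nat_lit 140) (nat_lit 2) (.p (nat_lit 141) (nat_lit 2) (.n (nat_lit 142) (nat_lit 1) (.p (nat_lit 143) (nat_lit 1) (.p (nat_lit 144) (nat_lit 3) (.p (nat_lit 145) (nat_lit 3) (.n (nat_lit 146) (nat_lit 1) (.n (nat_lit 147) (nat_lit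 1) (.p (nat_lit 149) (nat_lit 2) (.n (nat_lit 150) (nat_lit 1) (.n (nat_lit 151) (nat_lit 1) (.p (nat_lit 152) (nat_lit 3) (.n (nat_lit 153) (nat_lit 3) (.n (nat_lit 154) (nat_lit 2) (.p (nat_lit 155) (nat_lit 1) .z)))))))))))))))))))))))))))) (.ct dD_c292 (nat_lit 1) (nat_lit 8) (.s false (nat_lit 1) (nat_lit 10) (nat_lit 5) (nat_lit 2) (nat_lit 2) true (nat_lit 1) true (nat_lit 10) true (nat_lit 4) true (nat_lit 7) true (nat_lit 10) (.s false (nat_lit 1) (nat_lit 14) (nat_lit 0) (nat_lit 5) (nat_lit 2) true (nat_lit 8) true (nat_lit 10) true (nat_lit 1) true (nat_lit 12) true (nat_lit 7) (.s true (nat_lit 1) (nat_lit 15) (nat_lit 1) (nat_lit 4) (nat_lit 2) true (nat_lit 7) true (nat_lit 10) true (nat_lit 1) true (nat_lit 11) true (nat_lit 8) (.e false (nat_lit 3) (nat_lit 73) (nat_lit 2) (nat_lit 10) (.e false (nat_lit 2) (nat_lit 79) (nat_lit 2) (nat_lit 10) (.e false (nat_lit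 2) (nat_lit 80) (nat_lit 2) (nat_lit 10) (.e true (nat_lit 1) (nat_lit 81) (nat_lit 2) (nat_lit 10) (.e true (nat_lit 2) (nat_lit 83) (nat_lit 2) (nat_lit 10) (.e true (nat_lit 1) (nat_lit 33) (nat_lit 10) (nat_lit 4) (.e true (nat_lit 1) (nat_lit 75) (nat_lit 2) (nat_lit 10) (.e false (nat_lit 3) (nat_lit 76) (nat_lit 2) (nat_lit 10) (.e false (nat_lit 1) (nat_lit 78) (nat_lit 2) (nat_lit 10) (.e false (nat_lit 2) (nat_lit 82) (nat_lit 2) (nat_lit 10) (.e false (nat_lit 3) (nat_lit 84) (nat_lit 2) (nat_lit 10) (.e true (nat_lit 1) (nat_lit 85) (nat_lit 2) (nat_lit 10) dD_i15)))))))))))))))) (.nd (.nd .leaf (nat_lit 61446) (nat_lit 414) (.n (nat_lit 175) (nat_lit 2) (.p (nat_lit 178) (nat_lit 1) (.n (nat_lit 179) (nat_lit 1) (.p (nat_lit 180) (nat_lit 3) (.n (nat_lit 181) (nat_lit 1) .z))))) (.ct dD_c37 (nat_lit 1) (nat_lit 3) (.s false (nat_lit 2) (nat_lit 11) (nat_lit 2) (nat_lit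 6) (nat_lit 2) true (nat_lit 3) true (nat_lit 5) true (nat_lit 2) true (nat_lit 5) true (nat_lit 3) (.s false (nat_lit 2) (nat_lit 11) (nat_lit 6) (nat_lit 2) (nat_lit 2) true (nat_lit 0) true (nat_lit 5) true (nat_lit 2) true (nat_lit 3) true (nat_lit 5) (.s true (nat_lit 3) (nat_lit 16) (nat_lit 1) (nat_lit 6) (nat_lit 1) false (nat_lit 7) true (nat_lit 6) true (nat_lit 0) true (nat_lit 6) true (nat_lit 3) (.s false (nat_lit 3) (nat_lit 29) (nat_lit 2) (nat_lit 2) (nat_lit 2) true (nat_lit 3) true (nat_lit 5) false (nat_lit 0) true (nat_lit 5) true (nat_lit 5) (.e false (nat_lit 1) (nat_lit 59) (nat_lit 6) (nat_lit 3) (.e true (nat_lit 3) (nat_lit 111) (nat_lit 2) (nat_lit 5) (.e false (nat_lit 1) (nat_lit 112) (nat_lit 2) (nat_lit 5) (.e false (nat_lit 1) (nat_lit 114) (nat_lit 2) (nat_lit 5) (.e false (nat_lit 1) (nat_lit 115) (nat_lit 2) (nat_lit 5) (.e true (nat_lit 2) (nat_lit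 27) (nat_lit 16) (nat_lit 0) (.e true (nat_lit 2) (nat_lit 110) (nat_lit 2) (nat_lit 5) (.u (nat_lit 2) (.n (nat_lit 1) (nat_lit 1) (.p (nat_lit 2) (nat_lit 1) (.n (nat_lit 3) (nat_lit 1) (.p (nat_lit 20) (nat_lit 1) (.n (nat_lit 22) (nat_lit 1) (.n (nat_lit 27) (nat_lit 1) (.p (nat_lit 28) (nat_lit 2) (.p (nat_lit 29) (nat_lit 2) (.n (nat_lit 30) (nat_lit 3) (.n (nat_lit 31) (nat_lit 1) (.p (nat_lit 32) (nat_lit 2) .z))))))))))) .nil))))))))))))) .leaf) (nat_lit 62464) (nat_lit 154) (.p (nat_lit 73) (nat_lit 2) (.n (nat_lit 74) (nat_lit 1) (.n (nat_lit 75) (nat_lit 2) (.n (nat_lit 76) (nat_lit 2) (.p (nat_lit 77) (nat_lit 1) (.n (nat_lit 79) (nat_lit 1) (.n (nat_lit 80) (nat_lit 2) (.p (nat_lit 81) (nat_lit 2) (.n (nat_lit 82) (nat_lit 2) (.p (nat_lit 83) (nat_lit 3) (.p (nat_lit 84) (nat_lit 3) (.p (nat_lit 85) (nat_lit 1) (.p (nat_lit 86) (nat_lit 3) (.n (nat_lit 87) (nat_lit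 3) (.n (nat_lit 88) (nat_lit 2) (.p (nat_lit 89) (nat_lit 2) (.n (nat_lit 93) (nat_lit 2) .z))))))))))))))))) (.ct dD_c291 (nat_lit 1) (nat_lit 9) (.s true (nat_lit 1) (nat_lit 5) (nat_lit 2) (nat_lit 0) (nat_lit 5) false (nat_lit 1) true (nat_lit 4) true (nat_lit 4) true (nat_lit 7) true (nat_lit 9) (.e true (nat_lit 1) (nat_lit 14) (nat_lit 10) (nat_lit 1) (.e false (nat_lit 1) (nat_lit 21) (nat_lit 5) (nat_lit 4) (.e false (nat_lit 1) (nat_lit 22) (nat_lit 5) (nat_lit 4) (.e true (nat_lit 1) (nat_lit 25) (nat_lit 5) (nat_lit 4) (.e true (nat_lit 1) (nat_lit 37) (nat_lit 2) (nat_lit 7) (.e true (nat_lit 1) (nat_lit 38) (nat_lit 2) (nat_lit 7) (.e true (nat_lit 1) (nat_lit 41) (nat_lit 2) (nat_lit 7) (.e false (nat_lit 1) (nat_lit 43) (nat_lit 2) (nat_lit 7) (.e true (nat_lit 1) (nat_lit 44) (nat_lit 2) (nat_lit 7) (.e false (nat_lit 1) (nat_lit 45) (nat_lit 2) (nat_lit 7) (.e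 true (nat_lit 1) (nat_lit 47) (nat_lit 2) (nat_lit 7) (.e false (nat_lit 1) (nat_lit 59) (nat_lit 0) (nat_lit 9) (.e false (nat_lit 1) (nat_lit 60) (nat_lit 0) (nat_lit 9) (.u (nat_lit 2) (.n (nat_lit 4) (nat_lit 1) (.n (nat_lit 7) (nat_lit 1) (.p (nat_lit 9) (nat_lit 1) (.n (nat_lit 10) (nat_lit 1) (.n (nat_lit 13) (nat_lit 1) (.p (nat_lit 15) (nat_lit 1) (.p (nat_lit 17) (nat_lit 1) (.p (nat_lit 20) (nat_lit 1) .z)))))))) .nil)))))))))))))))) .leaf)) (nat_lit 62466) (nat_lit 200) (.p (nat_lit 112) (nat_lit 1) .z) .df (.nd (.nd (.nd .leaf (nat_lit 62468) (nat_lit 311) (.p (nat_lit 126) (nat_lit 1) (.p (nat_lit 128) (nat_lit 3) (.n (nat_lit 129) (nat_lit 3) (.n (nat_lit 130) (nat_lit 1) (.n (nat_lit 131) (nat_lit 1) (.n (nat_lit 132) (nat_lit 1) (.n (nat_lit 133) (nat_lit 3) (.p (nat_lit 134) (nat_lit 3) (.n (nat_lit 135) (nat_lit 2) (.p (nat_lit 136) (nat_lit 2) (.p (nat_lit 137)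 (nat_lit 1) (.p (nat_lit 138) (nat_lit 1) (.n (nat_lit 139) (nat_lit 3) (.n (nat_lit 140) (nat_lit 1) (.p (nat_lit 141) (nat_lit 1) (.n (nat_lit 142) (nat_lit 2) (.n (nat_lit 143) (nat_lit 3) (.p (nat_lit 144) (nat_lit 2) (.p (nat_lit 146) (nat_lit 2) (.n (nat_lit 147) (nat_lit 3) (.n (nat_lit 149) (nat_lit 3) (.n (nat_lit 150) (nat_lit 2) (.n (nat_lit 151) (nat_lit 2) (.p (nat_lit 153) (nat_lit 3) (.n (nat_lit 154) (nat_lit 1) (.p (nat_lit 155) (nat_lit 3) .z)))))))))))))))))))))))))) (.ct dD_c292 (nat_lit 1) (nat_lit 8) (.s true (nat_lit 1) (nat_lit 15) (nat_lit 1) (nat_lit 2) (nat_lit 4) true (nat_lit 4) true (nat_lit 8) true (nat_lit 1) true (nat_lit 11) true (nat_lit 10) (.e true (nat_lit 1) (nat_lit 34) (nat_lit 9) (nat_lit 4) (.e true (nat_lit 1) (nat_lit 21) (nat_lit 15) (nat_lit 1) (.e true (nat_lit 1) (nat_lit 22) (nat_lit 15) (nat_lit 1) (.e false (nat_lit 1) (nat_lit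 25) (nat_lit 15) (nat_lit 1) (.e true (nat_lit 1) (nat_lit 26) (nat_lit 15) (nat_lit 1) (.e false (nat_lit 1) (nat_lit 94) (nat_lit 1) (nat_lit 11) (.e false (nat_lit 1) (nat_lit 95) (nat_lit 1) (nat_lit 11) (.e false (nat_lit 1) (nat_lit 97) (nat_lit 1) (nat_lit 11) (.e true (nat_lit 1) (nat_lit 98) (nat_lit 1) (nat_lit 11) dD_i16))))))))))) .leaf) (nat_lit 62470) (nat_lit 417) (.n (nat_lit 175) (nat_lit 3) (.p (nat_lit 176) (nat_lit 2) (.n (nat_lit 178) (nat_lit 1) (.p (nat_lit 179) (nat_lit 1) (.n (nat_lit 180) (nat_lit 1) .z))))) (.ct dD_c37 (nat_lit 1) (nat_lit 3) (.s true (nat_lit 1) (nat_lit 29) (nat_lit 2) (nat_lit 2) (nat_lit 2) true (nat_lit 3) true (nat_lit 5) false (nat_lit 0) true (nat_lit 5) true (nat_lit 5) (.e false (nat_lit 1) (nat_lit 112) (nat_lit 2) (nat_lit 5) (.e false (nat_lit 1) (nat_lit 29) (nat_lit 16) (nat_lit 0) (.e false (nat_lit 3) (nat_lit 110) (nat_lit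 2) (nat_lit 5) (.e true (nat_lit 3) (nat_lit 111) (nat_lit 2) (nat_lit 5) (.e false (nat_lit 1) (nat_lit 113) (nat_lit 2) (nat_lit 5) (.e true (nat_lit 3) (nat_lit 115) (nat_lit 2) (nat_lit 5) (.u (nat_lit 2) (.p (nat_lit 0) (nat_lit 1) (.n (nat_lit 1) (nat_lit 1) .z)) .nil))))))))) .leaf) (nat_lit 63488) (nat_lit 157) (.n (nat_lit 73) (nat_lit 1) (.n (nat_lit 75) (nat_lit 2) (.p (nat_lit 76) (nat_lit 3) (.n (nat_lit 77) (nat_lit 3) (.p (nat_lit 78) (nat_lit 2) (.p (nat_lit 79) (nat_lit 3) (.n (nat_lit 80) (nat_lit 2) (.n (nat_lit 82) (nat_lit 1) (.p (nat_lit 83) (nat_lit 1) (.p (nat_lit 84) (nat_lit 2) (.p (nat_lit 85) (nat_lit 1) (.n (nat_lit 86) (nat_lit 1) (.n (nat_lit 87) (nat_lit 3) (.p (nat_lit 89) (nat_lit 1) (.p (nat_lit 90) (nat_lit 3) (.n (nat_lit 91) (nat_lit 2) (.n (nat_lit 92) (nat_lit 2) (.p (nat_lit 93) (nat_lit 2) .z)))))))))))))))))) (.ct dD_c291 (nat_lit 1) (nat_lit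 9) (.s true (nat_lit 1) (nat_lit 14) (nat_lit 0) (nat_lit 2) (nat_lit 1) true (nat_lit 6) true (nat_lit 8) false (nat_lit 1) true (nat_lit 9) true (nat_lit 7) (.e true (nat_lit 1) (nat_lit 33) (nat_lit 3) (nat_lit 6) (.e true (nat_lit 1) (nat_lit 53) (nat_lit 1) (nat_lit 8) (.e true (nat_lit 1) (nat_lit 14) (nat_lit 9) (nat_lit 1) (.e true (nat_lit 1) (nat_lit 60) (nat_lit 0) (nat_lit 9) (.e false (nat_lit 1) (nat_lit 63) (nat_lit 0) (nat_lit 9) (.e true (nat_lit 2) (nat_lit 38) (nat_lit 2) (nat_lit 7) (.e true (nat_lit 1) (nat_lit 39) (nat_lit 2) (nat_lit 7) (.e false (nat_lit 1) (nat_lit 40) (nat_lit 2) (nat_lit 7) (.e true (nat_lit 1) (nat_lit 41) (nat_lit 2) (nat_lit 7) (.e false (nat_lit 2) (nat_lit 43) (nat_lit 2) (nat_lit 7) (.e true (nat_lit 1) (nat_lit 44) (nat_lit 2) (nat_lit 7) (.e false (nat_lit 1) (nat_lit 45) (nat_lit 2) (nat_lit 7) (.e true (nat_lit 1) (nat_lit 46)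 (nat_lit 2) (nat_lit 7) (.e true (nat_lit 2) (nat_lit 47) (nat_lit 2) (nat_lit 7) (.u (nat_lit 2) (.n (nat_lit 0) (nat_lit 1) (.n (nat_lit 1) (nat_lit 1) (.p (nat_lit 2) (nat_lit 1) (.n (nat_lit 5) (nat_lit 1) (.p (nat_lit 7) (nat_lit 1) (.p (nat_lit 8) (nat_lit 1) (.p (nat_lit 19) (nat_lit 1) (.n (nat_lit 20) (nat_lit 1) .z)))))))) .nil))))))))))))))))) (.nd (.nd .leaf (nat_lit 63490) (nat_lit 201) (.p (nat_lit 113) (nat_lit 1) .z) .df .leaf) (nat_lit 63492) (nat_lit 314) (.p (nat_lit 126) (nat_lit 2) (.p (nat_lit 127) (nat_lit 1) (.n (nat_lit 128) (nat_lit 2) (.p (nat_lit 129) (nat_lit 1) (.p (nat_lit 130) (nat_lit 3) (.p (nat_lit 131) (nat_lit 1) (.p (nat_lit 134) (nat_lit 3) (.n (nat_lit 135) (nat_lit 3) (.n (nat_lit 136) (nat_lit 2) (.p (nat_lit 137) (nat_lit 2) (.n (nat_lit 138) (nat_lit 2) (.p (nat_lit 140) (nat_lit 3) (.n (nat_lit 141) (nat_lit 3) (.n (nat_lit 143) (nat_lit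 3) (.p (nat_lit 144) (nat_lit 2) (.p (nat_lit 145) (nat_lit 1) (.n (nat_lit 147) (nat_lit 1) (.p (nat_lit 149) (nat_lit 1) (.n (nat_lit 151) (nat_lit 1) (.n (nat_lit 152) (nat_lit 1) (.n (nat_lit 154) (nat_lit 1) (.p (nat_lit 155) (nat_lit 1) .z)))))))))))))))))))))) (.ct dD_c292 (nat_lit 1) (nat_lit 8) (.s false (nat_lit 1) (nat_lit 33) (nat_lit 2) (nat_lit 1) (nat_lit 0) true (nat_lit 8) true (nat_lit 12) false (nat_lit 4) true (nat_lit 10) true (nat_lit 11) (.e false (nat_lit 1) (nat_lit 114) (nat_lit 0) (nat_lit 12) (.e true (nat_lit 1) (nat_lit 33) (nat_lit 10) (nat_lit 4) (.e true (nat_lit 3) (nat_lit 73) (nat_lit 2) (nat_lit 10) (.e true (nat_lit 2) (nat_lit 74) (nat_lit 2) (nat_lit 10) (.e false (nat_lit 2) (nat_lit 75) (nat_lit 2) (nat_lit 10) (.e true (nat_lit 2) (nat_lit 76) (nat_lit 2) (nat_lit 10) (.e false (nat_lit 1) (nat_lit 81) (nat_lit 2) (nat_lit 10) (.e true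 (nat_lit 1) (nat_lit 82) (nat_lit 2) (nat_lit 10) (.e false (nat_lit 1) (nat_lit 84) (nat_lit 2) (nat_lit 10) (.e false (nat_lit 1) (nat_lit 90) (nat_lit 2) (nat_lit 10) (.e true (nat_lit 1) (nat_lit 91) (nat_lit 2) (nat_lit 10) (.e true (nat_lit 1) (nat_lit 93) (nat_lit 2) (nat_lit 10) (.e true (nat_lit 1) (nat_lit 101) (nat_lit 1) (nat_lit 11) (.u (nat_lit 2) (.n (nat_lit 0) (nat_lit 1) (.n (nat_lit 5) (nat_lit 1) (.n (nat_lit 8) (nat_lit 1) (.p (nat_lit 10) (nat_lit 1) (.n (nat_lit 12) (nat_lit 1) (.p (nat_lit 17) (nat_lit 1) (.n (nat_lit 18) (nat_lit 1) .z))))))) .nil)))))))))))))))) .leaf))) (nat_lit 64512) (nat_lit 151) (.n (nat_lit 73) (nat_lit 3) (.n (nat_lit 74) (nat_lit 1) (.p (nat_lit 75) (nat_lit 2) (.p (nat_lit 77) (nat_lit 3) (.n (nat_lit 78) (nat_lit 3) (.p (nat_lit 79) (nat_lit 2) (.p (nat_lit 82) (nat_lit 3) (.p (nat_lit 83) (nat_lit 3) (.p (nat_lit 84) (nat_lit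 3) (.p (nat_lit 85) (nat_lit 3) (.n (nat_lit 86) (nat_lit 2) (.n (nat_lit 87) (nat_lit 2) (.p (nat_lit 88) (nat_lit 3) (.p (nat_lit 89) (nat_lit 2) (.p (nat_lit 90) (nat_lit 1) (.p (nat_lit 92) (nat_lit 3) (.n (nat_lit 93) (nat_lit 3) .z))))))))))))))))) (.ct dD_c291 (nat_lit 1) (nat_lit 9) (.s false (nat_lit 1) (nat_lit 16) (nat_lit 1) (nat_lit 1) (nat_lit 0) true (nat_lit 6) true (nat_lit 9) false (nat_lit 2) true (nat_lit 8) true (nat_lit 8) (.e true (nat_lit 1) (nat_lit 35) (nat_lit 3) (nat_lit 6) (.e false (nat_lit 1) (nat_lit 59) (nat_lit 0) (nat_lit 9) (.e false (nat_lit 1) (nat_lit 60) (nat_lit 0) (nat_lit 9) (.e false (nat_lit 3) (nat_lit 49) (nat_lit 1) (nat_lit 8) (.e false (nat_lit 2) (nat_lit 50) (nat_lit 1) (nat_lit 8) (.e true (nat_lit 2) (nat_lit 51) (nat_lit 1) (nat_lit 8) (.e false (nat_lit 2) (nat_lit 56) (nat_lit 1) (nat_lit 8) (.e true (nat_lit 2) (nat_lit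 48) (nat_lit 1) (nat_lit 8) (.e false (nat_lit 1) (nat_lit 52) (nat_lit 1) (nat_lit 8) (.e false (nat_lit 1) (nat_lit 57) (nat_lit 1) (nat_lit 8) (.u (nat_lit 2) (.p (nat_lit 0) (nat_lit 1) (.p (nat_lit 1) (nat_lit 1) (.n (nat_lit 2) (nat_lit 1) (.p (nat_lit 5) (nat_lit 1) (.n (nat_lit 6) (nat_lit 1) (.n (nat_lit 9) (nat_lit 1) (.n (nat_lit 10) (nat_lit 1) (.p (nat_lit 12) (nat_lit 1) (.p (nat_lit 18) (nat_lit 1) (.n (nat_lit 19) (nat_lit 1) (.p (nat_lit 20) (nat_lit 1) (.n (nat_lit 58) (nat_lit 1) .z)))))))))))) .nil))))))))))))) (.nd (.nd (.nd (.nd .leaf (nat_lit 64514) (nat_lit 206) (.n (nat_lit 110) (nat_lit 1) (.p (nat_lit 111) (nat_lit 3) (.p (nat_lit 112) (nat_lit 3) (.n (nat_lit 113) (nat_lit 3) (.p (nat_lit 115) (nat_lit 2) .z))))) (.ct dD_c36 (nat_lit 1) (nat_lit 4) (.s true (nat_lit 2) (nat_lit 6) (nat_lit 2) (nat_lit 5) (nat_lit 1) true (nat_lit 3) true (nat_lit 5)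 true (nat_lit 2) true (nat_lit 4) true (nat_lit 3) (.s false (nat_lit 3) (nat_lit 15) (nat_lit 1) (nat_lit 2) (nat_lit 2) true (nat_lit 3) true (nat_lit 4) true (nat_lit 0) true (nat_lit 5) true (nat_lit 4) (.s true (nat_lit 2) (nat_lit 14) (nat_lit 2) (nat_lit 1) (nat_lit 2) true (nat_lit 2) true (nat_lit 4) true (nat_lit 0) true (nat_lit 4) true (nat_lit 5) (.s true (nat_lit 3) (nat_lit 14) (nat_lit 2) (nat_lit 2) (nat_lit 1) true (nat_lit 3) true (nat_lit 5) true (nat_lit 0) true (nat_lit 4) true (nat_lit 4) (.s true (nat_lit 2) (nat_lit 16) (nat_lit 1) (nat_lit 1) (nat_lit 2) true (nat_lit 3) true (nat_lit 4) false (nat_lit 1) true (nat_lit 5) true (nat_lit 5) (.a true (nat_lit 3) (nat_lit 14) (nat_lit 15) (nat_lit 0) (nat_lit 0) (.a true (nat_lit 1) (nat_lit 14) (nat_lit 14) (nat_lit 0) (nat_lit 0) (.e true (nat_lit 2) (nat_lit 70) (nat_lit 1) (nat_lit 5) (.e false (nat_lit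 1) (nat_lit 71) (nat_lit 1) (nat_lit 5) (.e true (nat_lit 3) (nat_lit 60) (nat_lit 2) (nat_lit 4) (.e false (nat_lit 1) (nat_lit 61) (nat_lit 2) (nat_lit 4) (.e true (nat_lit 1) (nat_lit 62) (nat_lit 2) (nat_lit 4) (.e false (nat_lit 2) (nat_lit 68) (nat_lit 1) (nat_lit 5) (.e true (nat_lit 3) (nat_lit 33) (nat_lit 5) (nat_lit 3) (.u (nat_lit 2) (.p (nat_lit 0) (nat_lit 1) (.n (nat_lit 1) (nat_lit 1) (.p (nat_lit 3) (nat_lit 1) (.p (nat_lit 15) (nat_lit 1) (.p (nat_lit 18) (nat_lit 1) (.p (nat_lit 21) (nat_lit 1) (.n (nat_lit 22) (nat_lit 1) (.n (nat_lit 25) (nat_lit 1) .z)))))))) .nil)))))))))))))))) .leaf) (nat_lit 64516) (nat_lit 330) (.n (nat_lit 126) (nat_lit 2) (.p (nat_lit 127) (nat_lit 3) (.p (nat_lit 128) (nat_lit 1) (.p (nat_lit 129) (nat_lit 2) (.p (nat_lit 130) (nat_lit 3) (.p (nat_lit 132) (nat_lit 1) (.n (nat_lit 133) (nat_lit 1) (.n (nat_lit 134) (nat_lit 1) (.p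 (nat_lit 136) (nat_lit 3) (.p (nat_lit 137) (nat_lit 3) (.p (nat_lit 138) (nat_lit 2) (.p (nat_lit 140) (nat_lit 1) (.n (nat_lit 141) (nat_lit 2) (.n (nat_lit 143) (nat_lit 2) (.p (nat_lit 144) (nat_lit 3) (.p (nat_lit 145) (nat_lit 2) (.n (nat_lit 146) (nat_lit 2) (.n (nat_lit 147) (nat_lit 1) (.p (nat_lit 149) (nat_lit 2) (.n (nat_lit 151) (nat_lit 2) (.p (nat_lit 152) (nat_lit 3) (.n (nat_lit 153) (nat_lit 3) (.p (nat_lit 155) (nat_lit 1) .z))))))))))))))))))))))) (.ct dD_c292 (nat_lit 1) (nat_lit 8) (.s true (nat_lit 1) (nat_lit 14) (nat_lit 0) (nat_lit 5) (nat_lit 2) true (nat_lit 8) true (nat_lit 10) true (nat_lit 1) true (nat_lit 12) true (nat_lit 7) (.e false (nat_lit 1) (nat_lit 60) (nat_lit 4) (nat_lit 8) (.e false (nat_lit 1) (nat_lit 62) (nat_lit 4) (nat_lit 8) (.e false (nat_lit 1) (nat_lit 73) (nat_lit 2) (nat_lit 10) (.e true (nat_lit 1) (nat_lit 74) (nat_lit 2)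 (nat_lit 10) (.e false (nat_lit 1) (nat_lit 77) (nat_lit 2) (nat_lit 10) (.e false (nat_lit 1) (nat_lit 80) (nat_lit 2) (nat_lit 10) (.e true (nat_lit 3) (nat_lit 81) (nat_lit 2) (nat_lit 10) (.e false (nat_lit 3) (nat_lit 82) (nat_lit 2) (nat_lit 10) (.e false (nat_lit 2) (nat_lit 83) (nat_lit 2) (nat_lit 10) (.e false (nat_lit 2) (nat_lit 84) (nat_lit 2) (nat_lit 10) (.e false (nat_lit 1) (nat_lit 85) (nat_lit 2) (nat_lit 10) (.e true (nat_lit 1) (nat_lit 86) (nat_lit 2) (nat_lit 10) (.e true (nat_lit 3) (nat_lit 87) (nat_lit 2) (nat_lit 10) (.e false (nat_lit 3) (nat_lit 88) (nat_lit 2) (nat_lit 10) (.e false (nat_lit 3) (nat_lit 90) (nat_lit 2) (nat_lit 10) (.e false (nat_lit 2) (nat_lit 91) (nat_lit 2) (nat_lit 10) (.e true (nat_lit 1) (nat_lit 93) (nat_lit 2) (nat_lit 10) (.e false (nat_lit 1) (nat_lit 23) (nat_lit 14) (nat_lit 1) (.e true (nat_lit 1) (nat_lit 55) (nat_lit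 5) (nat_lit 7) (.u (nat_lit 2) (.p (nat_lit 0) (nat_lit 1) (.p (nat_lit 4) (nat_lit 1) (.p (nat_lit 7) (nat_lit 1) (.n (nat_lit 8) (nat_lit 1) (.n (nat_lit 9) (nat_lit 1) (.n (nat_lit 10) (nat_lit 1) (.p (nat_lit 17) (nat_lit 1) (.n (nat_lit 28) (nat_lit 1) .z)))))))) .nil)))))))))))))))))))))) (.nd .leaf (nat_lit 64518) (nat_lit 413) (.n (nat_lit 175) (nat_lit 1) (.n (nat_lit 176) (nat_lit 2) (.n (nat_lit 177) (nat_lit 1) (.n (nat_lit 178) (nat_lit 1) (.n (nat_lit 180) (nat_lit 2) .z))))) (.ct dD_c37 (nat_lit 1) (nat_lit 3) (.s false (nat_lit 1) (nat_lit 15) (nat_lit 2) (nat_lit 2) (nat_lit 5) true (nat_lit 1) true (nat_lit 4) true (nat_lit 1) true (nat_lit 5) true (nat_lit 5) (.s false (nat_lit 1) (nat_lit 16) (nat_lit 1) (nat_lit 5) (nat_lit 2) true (nat_lit 4) true (nat_lit 5) true (nat_lit 0) true (nat_lit 6) true (nat_lit 4) (.s false (nat_lit 1) (nat_lit 16) (nat_lit 5)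 (nat_lit 1) (nat_lit 2) true (nat_lit 1) true (nat_lit 5) true (nat_lit 0) true (nat_lit 4) true (nat_lit 6) (.s false (nat_lit 1) (nat_lit 35) (nat_lit 1) (nat_lit 2) (nat_lit 2) true (nat_lit 4) true (nat_lit 5) false (nat_lit 1) true (nat_lit 6) true (nat_lit 5) (.s false (nat_lit 1) (nat_lit 34) (nat_lit 2) (nat_lit 1) (nat_lit 2) true (nat_lit 3) true (nat_lit 5) false (nat_lit 1) true (nat_lit 5) true (nat_lit 6) (.s true (nat_lit 1) (nat_lit 34) (nat_lit 2) (nat_lit 2) (nat_lit 1) true (nat_lit 4) true (nat_lit 6) false (nat_lit 1) true (nat_lit 5) true (nat_lit 5) (.s true (nat_lit 1) (nat_lit 35) (nat_lit 2) (nat_lit 2) (nat_lit 1) true (nat_lit 4) true (nat_lit 6) false (nat_lit 1) true (nat_lit 5) true (nat_lit 5) (.s true (nat_lit 1) (nat_lit 36) (nat_lit 1) (nat_lit 1) (nat_lit 2) true (nat_lit 4) true (nat_lit 5) false (nat_lit 2) true (nat_lit 6) true (nat_lit 6)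 (.e true (nat_lit 1) (nat_lit 110) (nat_lit 2) (nat_lit 5) (.e true (nat_lit 1) (nat_lit 112) (nat_lit 2) (nat_lit 5) (.e true (nat_lit 1) (nat_lit 113) (nat_lit 2) (nat_lit 5) (.e true (nat_lit 2) (nat_lit 115) (nat_lit 2) (nat_lit 5) (.e true (nat_lit 2) (nat_lit 111) (nat_lit 2) (nat_lit 5) (.u (nat_lit 2) (.n (nat_lit 27) (nat_lit 1) (.p (nat_lit 29) (nat_lit 1) (.p (nat_lit 30) (nat_lit 1) (.p (nat_lit 32) (nat_lit 2) .z)))) .nil))))))))))))))) .leaf)) (nat_lit 65537) (nat_lit 170) (.p (nat_lit 105) (nat_lit 1) .z) .df (.nd (.nd .leaf (nat_lit 65538) (nat_lit 215) (.p (nat_lit 116) (nat_lit 1) .z) .df .leaf) (nat_lit 65541) (nat_lit 394) (.p (nat_lit 156) (nat_lit 3) (.p (nat_lit 158) (nat_lit 3) (.n (nat_lit 159) (nat_lit 2) (.n (nat_lit 160) (nat_lit 3) (.p (nat_lit 162) (nat_lit 1) (.p (nat_lit 163) (nat_lit 1) (.p (nat_lit 164) (nat_lit 1) (.p (nat_lit 165) (nat_lit 1)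 (.n (nat_lit 166) (nat_lit 3) (.n (nat_lit 167) (nat_lit 1) (.n (nat_lit 168) (nat_lit 1) (.n (nat_lit 170) (nat_lit 1) (.p (nat_lit 171) (nat_lit 1) (.p (nat_lit 172) (nat_lit 1) (.p (nat_lit 173) (nat_lit 1) .z))))))))))))))) (.ct dD_c277 (nat_lit 1) (nat_lit 5) (.s false (nat_lit 1) (nat_lit 12) (nat_lit 2) (nat_lit 5) (nat_lit 2) true (nat_lit 4) true (nat_lit 8) true (nat_lit 2) true (nat_lit 8) true (nat_lit 5) (.e true (nat_lit 1) (nat_lit 48) (nat_lit 6) (nat_lit 4) (.e true (nat_lit 1) (nat_lit 49) (nat_lit 6) (nat_lit 4) (.e false (nat_lit 1) (nat_lit 52) (nat_lit 6) (nat_lit 4) (.e true (nat_lit 2) (nat_lit 53) (nat_lit 6) (nat_lit 4) (.e true (nat_lit 1) (nat_lit 55) (nat_lit 6) (nat_lit 4) (.e false (nat_lit 1) (nat_lit 58) (nat_lit 6) (nat_lit 4) (.e false (nat_lit 1) (nat_lit 109) (nat_lit 2) (nat_lit 8) (.e false (nat_lit 1) (nat_lit 33) (nat_lit 12) (nat_lit 2)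 (.e true (nat_lit 2) (nat_lit 94) (nat_lit 2) (nat_lit 8) (.e true (nat_lit 1) (nat_lit 95) (nat_lit 2) (nat_lit 8) (.e false (nat_lit 1) (nat_lit 96) (nat_lit 2) (nat_lit 8) (.e false (nat_lit 3) (nat_lit 97) (nat_lit 2) (nat_lit 8) (.e false (nat_lit 2) (nat_lit 98) (nat_lit 2) (nat_lit 8) (.e false (nat_lit 1) (nat_lit 100) (nat_lit 2) (nat_lit 8) (.e false (nat_lit 1) (nat_lit 101) (nat_lit 2) (nat_lit 8) (.e false (nat_lit 1) (nat_lit 102) (nat_lit 2) (nat_lit 8) (.e true (nat_lit 2) (nat_lit 103) (nat_lit 2) (nat_lit 8) (.e true (nat_lit 1) (nat_lit 104) (nat_lit 2) (nat_lit 8) (.e true (nat_lit 1) (nat_lit 105) (nat_lit 2) (nat_lit 8) (.e true (nat_lit 1) (nat_lit 107) (nat_lit 2) (nat_lit 8) (.u (nat_lit 2) (.p (nat_lit 0) (nat_lit 1) (.n (nat_lit 1) (nat_lit 1) (.p (nat_lit 3) (nat_lit 1) (.n (nat_lit 4) (nat_lit 1) (.n (nat_lit 8) (nat_lit 1) (.p (nat_lit 9) (nat_lit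 1) (.p (nat_lit 10) (nat_lit 1) .z))))))) .nil))))))))))))))))))))))) .leaf)) (nat_lit 66561) (nat_lit 181) (.p (nat_lit 94) (nat_lit 3) (.p (nat_lit 95) (nat_lit 2) (.n (nat_lit 96) (nat_lit 1) (.n (nat_lit 98) (nat_lit 2) (.p (nat_lit 99) (nat_lit 3) (.p (nat_lit 100) (nat_lit 2) (.p (nat_lit 101) (nat_lit 1) (.n (nat_lit 102) (nat_lit 2) (.n (nat_lit 103) (nat_lit 2) (.n (nat_lit 104) (nat_lit 1) (.p (nat_lit 105) (nat_lit 1) (.p (nat_lit 106) (nat_lit 1) (.p (nat_lit 107) (nat_lit 2) (.p (nat_lit 109) (nat_lit 1) .z)))))))))))))) (.ct dD_c276 (nat_lit 1) (nat_lit 7) (.s false (nat_lit 1) (nat_lit 5) (nat_lit 4) (nat_lit 2) (nat_lit 2) true (nat_lit 0) true (nat_lit 6) true (nat_lit 3) true (nat_lit 4) true (nat_lit 6) (.s false (nat_lit 1) (nat_lit 6) (nat_lit 4) (nat_lit 1) (nat_lit 2) true (nat_lit 0) true (nat_lit 6) true (nat_lit 2) true (nat_lit 4) true (nat_lit 7) (.s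 false (nat_lit 1) (nat_lit 12) (nat_lit 1) (nat_lit 2) (nat_lit 2) true (nat_lit 3) true (nat_lit 6) true (nat_lit 0) true (nat_lit 7) true (nat_lit 6) (.e true (nat_lit 1) (nat_lit 49) (nat_lit 2) (nat_lit 6) (.e false (nat_lit 1) (nat_lit 53) (nat_lit 2) (nat_lit 6) (.e false (nat_lit 1) (nat_lit 54) (nat_lit 2) (nat_lit 6) (.e true (nat_lit 1) (nat_lit 15) (nat_lit 12) (nat_lit 0) (.e false (nat_lit 1) (nat_lit 55) (nat_lit 2) (nat_lit 6) (.e true (nat_lit 1) (nat_lit 58) (nat_lit 2) (nat_lit 6) (.e false (nat_lit 1) (nat_lit 22) (nat_lit 6) (nat_lit 2) (.e true (nat_lit 1) (nat_lit 66) (nat_lit 1) (nat_lit 7) (.u (nat_lit 2) (.n (nat_lit 0) (nat_lit 1) (.n (nat_lit 1) (nat_lit 1) (.n (nat_lit 5) (nat_lit 1) .z))) .nil))))))))))))) (.nd (.nd (.nd .leaf (nat_lit 66562) (nat_lit 216) (.p (nat_lit 117) (nat_lit 1) .z) .df .leaf) (nat_lit 66565) (nat_lit 385) (.p (nat_lit 156) (nat_lit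 3) (.n (nat_lit 158) (nat_lit 2) (.p (nat_lit 159) (nat_lit 1) (.n (nat_lit 160) (nat_lit 3) (.p (nat_lit 161) (nat_lit 3) (.p (nat_lit 162) (nat_lit 2) (.p (nat_lit 163) (nat_lit 2) (.n (nat_lit 164) (nat_lit 3) (.n (nat_lit 165) (nat_lit 3) (.p (nat_lit 166) (nat_lit 3) (.n (nat_lit 167) (nat_lit 2) (.n (nat_lit 168) (nat_lit 1) (.p (nat_lit 171) (nat_lit 1) (.p (nat_lit 172) (nat_lit 1) (.p (nat_lit 174) (nat_lit 1) .z))))))))))))))) (.ct dD_c277 (nat_lit 1) (nat_lit 5) (.s true (nat_lit 3) (nat_lit 13) (nat_lit 2) (nat_lit 6) (nat_lit 1) true (nat_lit 5) true (nat_lit 9) true (nat_lit 2) true (nat_lit 8) true (nat_lit 4) (.e true (nat_lit 1) (nat_lit 66) (nat_lit 5) (nat_lit 5) (.e false (nat_lit 1) (nat_lit 117) (nat_lit 1) (nat_lit 9) (.e false (nat_lit 1) (nat_lit 118) (nat_lit 1) (nat_lit 9) (.e false (nat_lit 3) (nat_lit 120) (nat_lit 1) (nat_lit 9) (.e false (nat_lit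 3) (nat_lit 35) (nat_lit 13) (nat_lit 2) (.e true (nat_lit 1) (nat_lit 94) (nat_lit 2) (nat_lit 8) (.e false (nat_lit 1) (nat_lit 97) (nat_lit 2) (nat_lit 8) (.e false (nat_lit 1) (nat_lit 98) (nat_lit 2) (nat_lit 8) (.e true (nat_lit 1) (nat_lit 99) (nat_lit 2) (nat_lit 8) (.e true (nat_lit 1) (nat_lit 100) (nat_lit 2) (nat_lit 8) (.e true (nat_lit 2) (nat_lit 102) (nat_lit 2) (nat_lit 8) (.e true (nat_lit 3) (nat_lit 103) (nat_lit 2) (nat_lit 8) (.e true (nat_lit 3) (nat_lit 104) (nat_lit 2) (nat_lit 8) (.e true (nat_lit 1) (nat_lit 105) (nat_lit 2) (nat_lit 8) (.e false (nat_lit 3) (nat_lit 106) (nat_lit 2) (nat_lit 8) (.e false (nat_lit 2) (nat_lit 107) (nat_lit 2) (nat_lit 8) (.e true (nat_lit 3) (nat_lit 108) (nat_lit 2) (nat_lit 8) (.e true (nat_lit 1) (nat_lit 109) (nat_lit 2) (nat_lit 8) (.e false (nat_lit 3) (nat_lit 52) (nat_lit 6) (nat_lit 4) (.u (nat_lit 2) (.p (nat_lit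 0) (nat_lit 1) (.p (nat_lit 1) (nat_lit 3) (.p (nat_lit 2) (nat_lit 3) (.n (nat_lit 3) (nat_lit 1) (.n (nat_lit 4) (nat_lit 1) (.n (nat_lit 5) (nat_lit 1) (.p (nat_lit 6) (nat_lit 1) (.p (nat_lit 7) (nat_lit 1) (.p (nat_lit 8) (nat_lit 3) (.p (nat_lit 10) (nat_lit 1) (.n (nat_lit 13) (nat_lit 1) (.p (nat_lit 52) (nat_lit 1) (.p (nat_lit 53) (nat_lit 1) (.p (nat_lit 60) (nat_lit 1) (.n (nat_lit 63) (nat_lit 1) (.n (nat_lit 64) (nat_lit 1) (.p (nat_lit 65) (nat_lit 1) (.p (nat_lit 66) (nat_lit 1) (.n (nat_lit 68) (nat_lit 1) (.p (nat_lit 71) (nat_lit 1) (.p (nat_lit 73) (nat_lit 1) (.p (nat_lit 75) (nat_lit 1) (.n (nat_lit 77) (nat_lit 1) (.n (nat_lit 78) (nat_lit 1) .z)))))))))))))))))))))))) .nil)))))))))))))))))))))) .leaf) (nat_lit 67585) (nat_lit 179) (.p (nat_lit 94) (nat_lit 3) (.p (nat_lit 95) (nat_lit 3) (.p (nat_lit 96) (nat_lit 1) (.n (nat_lit 97) (nat_lit 1) (.p (nat_lit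 98) (nat_lit 3) (.p (nat_lit 99) (nat_lit 3) (.n (nat_lit 100) (nat_lit 1) (.n (nat_lit 101) (nat_lit 1) (.p (nat_lit 102) (nat_lit 2) (.p (nat_lit 103) (nat_lit 2) (.p (nat_lit 104) (nat_lit 1) (.n (nat_lit 106) (nat_lit 1) (.n (nat_lit 107) (nat_lit 1) .z))))))))))))) (.ct dD_c276 (nat_lit 1) (nat_lit 7) dD_i17) (.nd (.nd .leaf (nat_lit 67586) (nat_lit 217) (.p (nat_lit 118) (nat_lit 1) .z) .df .leaf) (nat_lit 67589) (nat_lit 368) (.p (nat_lit 156) (nat_lit 1) (.n (nat_lit 157) (nat_lit 1) (.n (nat_lit 158) (nat_lit 3) (.n (nat_lit 160) (nat_lit 1) (.p (nat_lit 162) (nat_lit 2) (.p (nat_lit 163) (nat_lit 2) (.n (nat_lit 164) (nat_lit 2) (.p (nat_lit 165) (nat_lit 3) (.n (nat_lit 166) (nat_lit 1) (.n (nat_lit 168) (nat_lit 1) (.p (nat_lit 169) (nat_lit 1) (.n (nat_lit 174) (nat_lit 1) .z)))))))))))) (.ct dD_c277 (nat_lit 1) (nat_lit 5) (.s false (nat_lit 3) (nat_lit 6) (nat_lit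 5) (nat_lit 2) (nat_lit 4) false (nat_lit 0) true (nat_lit 6) true (nat_lit 4) true (nat_lit 5) true (nat_lit 8) (.s false (nat_lit 3) (nat_lit 8) (nat_lit 2) (nat_lit 2) (nat_lit 6) true (nat_lit 0) true (nat_lit 4) true (nat_lit 3) true (nat_lit 8) true (nat_lit 8) (.s false (nat_lit 3) (nat_lit 12) (nat_lit 2) (nat_lit 1) (nat_lit 6) true (nat_lit 0) true (nat_lit 4) true (nat_lit 2) true (nat_lit 8) true (nat_lit 9) (.s true (nat_lit 1) (nat_lit 12) (nat_lit 5) (nat_lit 2) (nat_lit 2) true (nat_lit 1) true (nat_lit 8) true (nat_lit 2) true (nat_lit 5) true (nat_lit 8) (.s true (nat_lit 3) (nat_lit 15) (nat_lit 2) (nat_lit 2) (nat_lit 4) true (nat_lit 2) true (nat_lit 6) true (nat_lit 1) true (nat_lit 8) true (nat_lit 8) (.s false (nat_lit 1) (nat_lit 14) (nat_lit 4) (nat_lit 2) (nat_lit 2) true (nat_lit 2) true (nat_lit 8) true (nat_lit 1) true (nat_lit 6) true (nat_lit 8)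 (.s true (nat_lit 3) (nat_lit 16) (nat_lit 0) (nat_lit 5) (nat_lit 2) true (nat_lit 6) true (nat_lit 8) true (nat_lit 0) true (nat_lit 10) true (nat_lit 5) (.s false (nat_lit 3) (nat_lit 16) (nat_lit 1) (nat_lit 2) (nat_lit 4) true (nat_lit 3) true (nat_lit 6) true (nat_lit 0) true (nat_lit 9) true (nat_lit 8) (.s false (nat_lit 3) (nat_lit 16) (nat_lit 2) (nat_lit 0) (nat_lit 5) true (nat_lit 1) true (nat_lit 5) true (nat_lit 0) true (nat_lit 8) true (nat_lit 10) (.s false (nat_lit 3) (nat_lit 24) (nat_lit 2) (nat_lit 2) (nat_lit 2) true (nat_lit 4) true (nat_lit 8) false (nat_lit 0) true (nat_lit 8) true (nat_lit 8) (.s true (nat_lit 3) (nat_lit 25) (nat_lit 2) (nat_lit 2) (nat_lit 2) true (nat_lit 4) true (nat_lit 8) false (nat_lit 0) true (nat_lit 8) true (nat_lit 8) (.s false (nat_lit 3) (nat_lit 26) (nat_lit 2) (nat_lit 2) (nat_lit 2) true (nat_lit 4) true (nat_lit 8) false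 (nat_lit 0) true (nat_lit 8) true (nat_lit 8) (.s false (nat_lit 3) (nat_lit 32) (nat_lit 1) (nat_lit 2) (nat_lit 2) true (nat_lit 5) true (nat_lit 8) false (nat_lit 1) true (nat_lit 9) true (nat_lit 8) dD_i18)))))))))))))) .leaf))))))

noncomputable def dD_t4 : Tr := (.nd (.nd (.nd (.nd (.nd (.nd (.nd .leaf (nat_lit 68610) (nat_lit 223) (.p (nat_lit 117) (nat_lit 1) (.p (nat_lit 118) (nat_lit 1) .z)) (.ct dD_c261 (nat_lit 1) (nat_lit 3) (.s true (nat_lit 1) (nat_lit 16) (nat_lit 2) (nat_lit 2) (nat_lit 0) true (nat_lit 2) true (nat_lit 4) false (nat_lit 0) true (nat_lit 3) true (nat_lit 3) (.e true (nat_lit 1) (nat_lit 36) (nat_lit 4) (nat_lit 2) (.e true (nat_lit 1) (nat_lit 72) (nat_lit 0) (nat_lit 4) (.e false (nat_lit 1) (nat_lit 16) (nat_lit 13) (nat_lit 0) (.e false (nat_lit 1) (nat_lit 65) (nat_lit 2) (nat_lit 3) (.e false (nat_lit 2) (nat_lit 66) (nat_lit 2) (nat_lit 3)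 .nil))))))) .leaf) (nat_lit 68613) (nat_lit 386) (.p (nat_lit 156) (nat_lit 1) (.p (nat_lit 157) (nat_lit 1) (.n (nat_lit 159) (nat_lit 3) (.n (nat_lit 160) (nat_lit 1) (.p (nat_lit 161) (nat_lit 3) (.p (nat_lit 162) (nat_lit 2) (.p (nat_lit 163) (nat_lit 2) (.n (nat_lit 165) (nat_lit 1) (.n (nat_lit 166) (nat_lit 2) (.n (nat_lit 167) (nat_lit 2) (.n (nat_lit 168) (nat_lit 2) (.p (nat_lit 171) (nat_lit 1) (.p (nat_lit 172) (nat_lit 1) .z))))))))))))) (.ct dD_c277 (nat_lit 1) (nat_lit 5) (.s false (nat_lit 1) (nat_lit 16) (nat_lit 2) (nat_lit 0) (nat_lit 5) true (nat_lit 1) true (nat_lit 5) true (nat_lit 0) true (nat_lit 8) true (nat_lit 10) (.e true (nat_lit 1) (nat_lit 32) (nat_lit 14) (nat_lit 1) (.e false (nat_lit 1) (nat_lit 65) (nat_lit 5) (nat_lit 5) (.e true (nat_lit 1) (nat_lit 21) (nat_lit 16) (nat_lit 0) (.e true (nat_lit 1) (nat_lit 22) (nat_lit 16) (nat_lit 0) (.e false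 (nat_lit 1) (nat_lit 25) (nat_lit 16) (nat_lit 0) (.e true (nat_lit 1) (nat_lit 26) (nat_lit 16) (nat_lit 0) (.e false (nat_lit 1) (nat_lit 104) (nat_lit 2) (nat_lit 8) (.e true (nat_lit 1) (nat_lit 108) (nat_lit 2) (nat_lit 8) (.u (nat_lit 2) (.p (nat_lit 0) (nat_lit 1) (.n (nat_lit 1) (nat_lit 1) (.p (nat_lit 3) (nat_lit 1) (.n (nat_lit 4) (nat_lit 1) (.n (nat_lit 5) (nat_lit 1) (.p (nat_lit 9) (nat_lit 1) (.p (nat_lit 10) (nat_lit 1) .z))))))) .nil))))))))))) (.nd .leaf (nat_lit 69632) (nat_lit 195) (.p (nat_lit 94) (nat_lit 3) (.n (nat_lit 95) (nat_lit 2) (.p (nat_lit 96) (nat_lit 2) (.n (nat_lit 97) (nat_lit 2) (.n (nat_lit 98) (nat_lit 3) (.p (nat_lit 99) (nat_lit 1) (.p (nat_lit 100) (nat_lit 2) (.p (nat_lit 101) (nat_lit 2) (.n (nat_lit 103) (nat_lit 3) (.n (nat_lit 104) (nat_lit 3) (.n (nat_lit 105) (nat_lit 1) (.n (nat_lit 107) (nat_lit 1) (.n (nat_lit 108) (nat_lit 1)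 .z))))))))))))) (.ct dD_c276 (nat_lit 1) (nat_lit 8) (.s true (nat_lit 1) (nat_lit 14) (nat_lit 2) (nat_lit 0) (nat_lit 2) true (nat_lit 2) true (nat_lit 6) false (nat_lit 0) true (nat_lit 6) true (nat_lit 8) (.e false (nat_lit 1) (nat_lit 26) (nat_lit 6) (nat_lit 2) (.e true (nat_lit 1) (nat_lit 55) (nat_lit 2) (nat_lit 6) (.e false (nat_lit 1) (nat_lit 14) (nat_lit 12) (nat_lit 0) (.e true (nat_lit 1) (nat_lit 48) (nat_lit 2) (nat_lit 6) (.e true (nat_lit 1) (nat_lit 49) (nat_lit 2) (nat_lit 6) (.e true (nat_lit 1) (nat_lit 51) (nat_lit 2) (nat_lit 6) (.e false (nat_lit 1) (nat_lit 52) (nat_lit 2) (nat_lit 6) (.e true (nat_lit 1) (nat_lit 53) (nat_lit 2) (nat_lit 6) (.e true (nat_lit 1) (nat_lit 54) (nat_lit 2) (nat_lit 6) (.e false (nat_lit 1) (nat_lit 57) (nat_lit 2) (nat_lit 6) (.u (nat_lit 2) (.n (nat_lit 0) (nat_lit 1) (.p (nat_lit 3) (nat_lit 1) (.p (nat_lit 4) (nat_lit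 1) .z))) .nil))))))))))))) .leaf)) (nat_lit 69633) (nat_lit 202) (.p (nat_lit 114) (nat_lit 1) .z) .df (.nd (.nd .leaf (nat_lit 69634) (nat_lit 226) (.p (nat_lit 121) (nat_lit 1) .z) .df .leaf) (nat_lit 69635) (nat_lit 292) (.p (nat_lit 126) (nat_lit 1) (.p (nat_lit 127) (nat_lit 2) (.p (nat_lit 128) (nat_lit 1) (.n (nat_lit 129) (nat_lit 1) (.p (nat_lit 130) (nat_lit 3) (.p (nat_lit 134) (nat_lit 2) (.n (nat_lit 137) (nat_lit 3) (.n (nat_lit 140) (nat_lit 1) (.p (nat_lit 143) (nat_lit 3) (.n (nat_lit 144) (nat_lit 3) (.n (nat_lit 146) (nat_lit 1) (.p (nat_lit 147) (nat_lit 1) (.p (nat_lit 152) (nat_lit 3) (.n (nat_lit 153) (nat_lit 3) .z)))))))))))))) (.ct dD_c292 (nat_lit 1) (nat_lit 9) (.s true (nat_lit 1) (nat_lit 14) (nat_lit 2) (nat_lit 3) (nat_lit 2) true (nat_lit 6) true (nat_lit 10) true (nat_lit 1) true (nat_lit 10) true (nat_lit 9) (.e true (nat_lit 1) (nat_lit 37) (nat_lit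 6) (nat_lit 6) (.e true (nat_lit 1) (nat_lit 38) (nat_lit 6) (nat_lit 6) (.e false (nat_lit 1) (nat_lit 39) (nat_lit 6) (nat_lit 6) (.e true (nat_lit 1) (nat_lit 40) (nat_lit 6) (nat_lit 6) (.e true (nat_lit 1) (nat_lit 41) (nat_lit 6) (nat_lit 6) (.e false (nat_lit 1) (nat_lit 45) (nat_lit 6) (nat_lit 6) (.e true (nat_lit 3) (nat_lit 73) (nat_lit 2) (nat_lit 10) (.e true (nat_lit 2) (nat_lit 74) (nat_lit 2) (nat_lit 10) (.e false (nat_lit 2) (nat_lit 75) (nat_lit 2) (nat_lit 10) (.e true (nat_lit 2) (nat_lit 76) (nat_lit 2) (nat_lit 10) (.e false (nat_lit 1) (nat_lit 81) (nat_lit 2) (nat_lit 10) (.e true (nat_lit 2) (nat_lit 82) (nat_lit 2) (nat_lit 10) (.e false (nat_lit 2) (nat_lit 84) (nat_lit 2) (nat_lit 10) (.e false (nat_lit 1) (nat_lit 90) (nat_lit 2) (nat_lit 10) (.e true (nat_lit 2) (nat_lit 91) (nat_lit 2) (nat_lit 10) (.e true (nat_lit 1) (nat_lit 93) (nat_lit 2) (nat_lit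 10) (.e false (nat_lit 1) (nat_lit 21) (nat_lit 14) (nat_lit 1) (.e false (nat_lit 1) (nat_lit 77) (nat_lit 2) (nat_lit 10) (.u (nat_lit 2) (.n (nat_lit 0) (nat_lit 1) (.n (nat_lit 1) (nat_lit 1) (.n (nat_lit 9) (nat_lit 1) (.p (nat_lit 11) (nat_lit 1) (.p (nat_lit 14) (nat_lit 1) (.n (nat_lit 26) (nat_lit 1) (.p (nat_lit 27) (nat_lit 1) .z))))))) .nil))))))))))))))))))))) .leaf)) (nat_lit 70656) (nat_lit 191) (.n (nat_lit 94) (nat_lit 1) (.p (nat_lit 96) (nat_lit 1) (.p (nat_lit 97) (nat_lit 2) (.p (nat_lit 99) (nat_lit 1) (.p (nat_lit 101) (nat_lit 1) (.p (nat_lit 102) (nat_lit 2) (.n (nat_lit 104) (nat_lit 1) (.n (nat_lit 105) (nat_lit 1) (.n (nat_lit 106) (nat_lit 1) (.n (nat_lit 107) (nat_lit 1) (.p (nat_lit 108) (nat_lit 1) (.n (nat_lit 109) (nat_lit 1) .z)))))))))))) (.ct dD_c276 (nat_lit 1) (nat_lit 8) (.s true (nat_lit 1) (nat_lit 16) (nat_lit 2) (nat_lit 1) (nat_lit 0)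 true (nat_lit 4) true (nat_lit 8) false (nat_lit 1) true (nat_lit 6) true (nat_lit 7) (.e false (nat_lit 1) (nat_lit 35) (nat_lit 4) (nat_lit 4) (.e false (nat_lit 1) (nat_lit 71) (nat_lit 0) (nat_lit 8) (.e false (nat_lit 1) (nat_lit 16) (nat_lit 10) (nat_lit 1) (.e false (nat_lit 1) (nat_lit 49) (nat_lit 2) (nat_lit 6) (.e true (nat_lit 1) (nat_lit 50) (nat_lit 2) (nat_lit 6) (.e false (nat_lit 1) (nat_lit 51) (nat_lit 2) (nat_lit 6) (.e true (nat_lit 1) (nat_lit 53) (nat_lit 2) (nat_lit 6) (.e true (nat_lit 1) (nat_lit 56) (nat_lit 2) (nat_lit 6) (.e false (nat_lit 1) (nat_lit 66) (nat_lit 1) (nat_lit 7) (.u (nat_lit 2) (.p (nat_lit 0) (nat_lit 1) (.p (nat_lit 1) (nat_lit 1) (.p (nat_lit 9) (nat_lit 1) (.p (nat_lit 10) (nat_lit 1) .z)))) .nil)))))))))))) (.nd (.nd (.nd .leaf (nat_lit 70657) (nat_lit 209) (.p (nat_lit 110) (nat_lit 1) (.n (nat_lit 112) (nat_lit 2) (.n (nat_lit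 113) (nat_lit 2) (.n (nat_lit 114) (nat_lit 1) (.n (nat_lit 115) (nat_lit 3) .z))))) (.ct dD_c36 (nat_lit 1) (nat_lit 5) (.s true (nat_lit 3) (nat_lit 5) (nat_lit 2) (nat_lit 2) (nat_lit 5) true (nat_lit 0) true (nat_lit 3) true (nat_lit 3) true (nat_lit 4) true (nat_lit 4) (.s true (nat_lit 3) (nat_lit 6) (nat_lit 5) (nat_lit 2) (nat_lit 1) true (nat_lit 1) true (nat_lit 5) true (nat_lit 2) true (nat_lit 3) true (nat_lit 4) (.s false (nat_lit 3) (nat_lit 16) (nat_lit 1) (nat_lit 2) (nat_lit 1) false (nat_lit 6) true (nat_lit 5) false (nat_lit 1) true (nat_lit 5) true (nat_lit 4) (.a false (nat_lit 2) (nat_lit 14) (nat_lit 14) (nat_lit 0) (nat_lit 0) (.e true (nat_lit 3) (nat_lit 33) (nat_lit 5) (nat_lit 3) (.e false (nat_lit 3) (nat_lit 60) (nat_lit 2) (nat_lit 4) (.e false (nat_lit 3) (nat_lit 62) (nat_lit 2) (nat_lit 4) (.e true (nat_lit 3) (nat_lit 63) (nat_lit 2) (nat_lit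 4) (.e false (nat_lit 2) (nat_lit 70) (nat_lit 1) (nat_lit 5) (.e true (nat_lit 3) (nat_lit 28) (nat_lit 6) (nat_lit 2) (.e true (nat_lit 3) (nat_lit 71) (nat_lit 1) (nat_lit 5) (.u (nat_lit 2) (.n (nat_lit 0) (nat_lit 1) (.p (nat_lit 1) (nat_lit 1) (.p (nat_lit 3) (nat_lit 3) (.n (nat_lit 5) (nat_lit 1) (.n (nat_lit 6) (nat_lit 1) (.p (nat_lit 23) (nat_lit 1) (.p (nat_lit 24) (nat_lit 1) .z))))))) .nil))))))))))))) .leaf) (nat_lit 70658) (nat_lit 227) (.p (nat_lit 122) (nat_lit 1) .z) .df (.nd .leaf (nat_lit 70659) (nat_lit 290) (.n (nat_lit 126) (nat_lit 2) (.p (nat_lit 127) (nat_lit 2) (.p (nat_lit 130) (nat_lit 1) (.p (nat_lit 134) (nat_lit 1) (.p (nat_lit 135) (nat_lit 2) (.n (nat_lit 137) (nat_lit 2) (.n (nat_lit 140) (nat_lit 2) (.p (nat_lit 143) (nat_lit 3) (.p (nat_lit 144) (nat_lit 2) (.p (nat_lit 147) (nat_lit 1) (.n (nat_lit 152) (nat_lit 2) (.n (nat_lit 153) (nat_lit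 2) (.p (nat_lit 155) (nat_lit 1) .z))))))))))))) (.ct dD_c292 (nat_lit 1) (nat_lit 9) (.s true (nat_lit 1) (nat_lit 15) (nat_lit 2) (nat_lit 3) (nat_lit 2) true (nat_lit 6) true (nat_lit 10) true (nat_lit 1) true (nat_lit 10) true (nat_lit 9) (.e false (nat_lit 2) (nat_lit 37) (nat_lit 6) (nat_lit 6) (.e true (nat_lit 1) (nat_lit 39) (nat_lit 6) (nat_lit 6) (.e false (nat_lit 1) (nat_lit 40) (nat_lit 6) (nat_lit 6) (.e true (nat_lit 1) (nat_lit 41) (nat_lit 6) (nat_lit 6) (.e true (nat_lit 1) (nat_lit 46) (nat_lit 6) (nat_lit 6) (.e true (nat_lit 1) (nat_lit 93) (nat_lit 2) (nat_lit 10) (.e false (nat_lit 1) (nat_lit 21) (nat_lit 15) (nat_lit 1) (.e true (nat_lit 2) (nat_lit 74) (nat_lit 2) (nat_lit 10) (.e true (nat_lit 2) (nat_lit 77) (nat_lit 2) (nat_lit 10) (.e false (nat_lit 2) (nat_lit 82) (nat_lit 2) (nat_lit 10) (.e false (nat_lit 1) (nat_lit 87) (nat_lit 2) (nat_lit 10)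 (.e false (nat_lit 1) (nat_lit 91) (nat_lit 2) (nat_lit 10) (.u (nat_lit 2) (.p (nat_lit 0) (nat_lit 1) (.n (nat_lit 4) (nat_lit 1) (.n (nat_lit 17) (nat_lit 1) (.p (nat_lit 26) (nat_lit 1) .z)))) .nil))))))))))))))) .leaf)) (nat_lit 70660) (nat_lit 398) (.p (nat_lit 157) (nat_lit 3) (.p (nat_lit 158) (nat_lit 2) (.p (nat_lit 159) (nat_lit 1) (.n (nat_lit 161) (nat_lit 3) (.n (nat_lit 162) (nat_lit 2) (.p (nat_lit 163) (nat_lit 2) (.n (nat_lit 164) (nat_lit 3) (.n (nat_lit 166) (nat_lit 1) (.p (nat_lit 169) (nat_lit 1) (.p (nat_lit 171) (nat_lit 1) (.p (nat_lit 172) (nat_lit 1) (.p (nat_lit 173) (nat_lit 1) .z)))))))))))) (.ct dD_c277 (nat_lit 1) (nat_lit 6) (.s false (nat_lit 1) (nat_lit 16) (nat_lit 4) (nat_lit 2) (nat_lit 1) true (nat_lit 3) true (nat_lit 9) true (nat_lit 0) true (nat_lit 6) true (nat_lit 8) (.e false (nat_lit 1) (nat_lit 36) (nat_lit 9) (nat_lit 3) (.e false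 (nat_lit 1) (nat_lit 24) (nat_lit 16) (nat_lit 0) (.e true (nat_lit 1) (nat_lit 70) (nat_lit 4) (nat_lit 6) (.e false (nat_lit 1) (nat_lit 71) (nat_lit 4) (nat_lit 6) (.e true (nat_lit 3) (nat_lit 94) (nat_lit 2) (nat_lit 8) (.e true (nat_lit 3) (nat_lit 95) (nat_lit 2) (nat_lit 8) (.e true (nat_lit 1) (nat_lit 96) (nat_lit 2) (nat_lit 8) (.e true (nat_lit 3) (nat_lit 97) (nat_lit 2) (nat_lit 8) (.e false (nat_lit 3) (nat_lit 98) (nat_lit 2) (nat_lit 8) (.e true (nat_lit 3) (nat_lit 100) (nat_lit 2) (nat_lit 8) (.e true (nat_lit 3) (nat_lit 101) (nat_lit 2) (nat_lit 8) (.e true (nat_lit 3) (nat_lit 103) (nat_lit 2) (nat_lit 8) (.e true (nat_lit 3) (nat_lit 104) (nat_lit 2) (nat_lit 8) (.e true (nat_lit 1) (nat_lit 107) (nat_lit 2) (nat_lit 8) (.u (nat_lit 2) (.n (nat_lit 0) (nat_lit 1) (.p (nat_lit 4) (nat_lit 1) (.n (nat_lit 6) (nat_lit 1) (.n (nat_lit 7) (nat_lit 1) (.n (nat_lit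 10) (nat_lit 1) .z))))) .nil))))))))))))))))) (.nd (.nd .leaf (nat_lit 70661) (nat_lit 421) (.n (nat_lit 175) (nat_lit 3) (.p (nat_lit 178) (nat_lit 2) (.n (nat_lit 179) (nat_lit 1) (.p (nat_lit 181) (nat_lit 1) (.p (nat_lit 182) (nat_lit 1) .z))))) (.ct dD_c37 (nat_lit 1) (nat_lit 4) (.s false (nat_lit 1) (nat_lit 15) (nat_lit 2) (nat_lit 5) (nat_lit 2) true (nat_lit 3) true (nat_lit 5) true (nat_lit 1) true (nat_lit 5) true (nat_lit 4) (.e false (nat_lit 2) (nat_lit 59) (nat_lit 6) (nat_lit 3) (.e false (nat_lit 2) (nat_lit 60) (nat_lit 6) (nat_lit 3) (.e true (nat_lit 1) (nat_lit 61) (nat_lit 6) (nat_lit 3) (.e true (nat_lit 1) (nat_lit 63) (nat_lit 6) (nat_lit 3) (.e false (nat_lit 2) (nat_lit 110) (nat_lit 2) (nat_lit 5) (.e false (nat_lit 1) (nat_lit 111) (nat_lit 2) (nat_lit 5) (.e false (nat_lit 1) (nat_lit 113) (nat_lit 2) (nat_lit 5) (.e false (nat_lit 2) (nat_lit 114)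 (nat_lit 2) (nat_lit 5) (.e false (nat_lit 1) (nat_lit 115) (nat_lit 2) (nat_lit 5) (.e false (nat_lit 1) (nat_lit 33) (nat_lit 15) (nat_lit 1) (.e false (nat_lit 3) (nat_lit 112) (nat_lit 2) (nat_lit 5) (.u (nat_lit 2) (.p (nat_lit 0) (nat_lit 1) (.p (nat_lit 2) (nat_lit 1) (.p (nat_lit 5) (nat_lit 1) .z))) .nil)))))))))))))) .leaf) (nat_lit 71680) (nat_lit 182) (.n (nat_lit 94) (nat_lit 2) (.n (nat_lit 95) (nat_lit 2) (.n (nat_lit 96) (nat_lit 1) (.n (nat_lit 97) (nat_lit 1) (.p (nat_lit 98) (nat_lit 3) (.p (nat_lit 99) (nat_lit 3) (.n (nat_lit 100) (nat_lit 1) (.n (nat_lit 101) (nat_lit 1) (.n (nat_lit 102) (nat_lit 2) (.p (nat_lit 103) (nat_lit 1) (.p (nat_lit 104) (nat_lit 2) (.p (nat_lit 106) (nat_lit 1) (.n (nat_lit 108) (nat_lit 1) .z))))))))))))) (.ct dD_c276 (nat_lit 1) (nat_lit 8) (.s false (nat_lit 1) (nat_lit 16) (nat_lit 1) (nat_lit 0) (nat_lit 2) true (nat_lit 3)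 true (nat_lit 6) false (nat_lit 1) true (nat_lit 7) true (nat_lit 8) (.s false (nat_lit 1) (nat_lit 16) (nat_lit 2) (nat_lit 0) (nat_lit 1) true (nat_lit 3) true (nat_lit 7) false (nat_lit 1) true (nat_lit 6) true (nat_lit 8) (.s false (nat_lit 1) (nat_lit 16) (nat_lit 2) (nat_lit 1) (nat_lit 0) true (nat_lit 4) true (nat_lit 8) false (nat_lit 1) true (nat_lit 6) true (nat_lit 7) (.e false (nat_lit 2) (nat_lit 50) (nat_lit 2) (nat_lit 6) (.e true (nat_lit 1) (nat_lit 52) (nat_lit 2) (nat_lit 6) (.e false (nat_lit 2) (nat_lit 53) (nat_lit 2) (nat_lit 6) (.e false (nat_lit 1) (nat_lit 56) (nat_lit 2) (nat_lit 6) (.e true (nat_lit 1) (nat_lit 58) (nat_lit 2) (nat_lit 6) (.e true (nat_lit 1) (nat_lit 16) (nat_lit 8) (nat_lit 1) (.e true (nat_lit 2) (nat_lit 66) (nat_lit 1) (nat_lit 7) (.e true (nat_lit 1) (nat_lit 16) (nat_lit 9) (nat_lit 1) (.e true (nat_lit 1) (nat_lit 35) (nat_lit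 4) (nat_lit 4) (.e true (nat_lit 1) (nat_lit 16) (nat_lit 10) (nat_lit 1) (.u (nat_lit 2) (.n (nat_lit 0) (nat_lit 1) (.n (nat_lit 1) (nat_lit 1) (.n (nat_lit 4) (nat_lit 1) (.n (nat_lit 5) (nat_lit 1) (.n (nat_lit 9) (nat_lit 1) (.n (nat_lit 10) (nat_lit 1) .z)))))) .nil))))))))))))))) .leaf))) (nat_lit 71681) (nat_lit 205) (.n (nat_lit 110) (nat_lit 3) (.p (nat_lit 111) (nat_lit 2) (.n (nat_lit 112) (nat_lit 1) (.n (nat_lit 113) (nat_lit 1) (.p (nat_lit 114) (nat_lit 1) (.n (nat_lit 115) (nat_lit 2) .z)))))) (.ct dD_c36 (nat_lit 1) (nat_lit 5) (.s false (nat_lit 3) (nat_lit 5) (nat_lit 2) (nat_lit 2) (nat_lit 5) true (nat_lit 0) true (nat_lit 3) true (nat_lit 3) true (nat_lit 4) true (nat_lit 4) (.s true (nat_lit 3) (nat_lit 6) (nat_lit 1) (nat_lit 5) (nat_lit 2) true (nat_lit 3) true (nat_lit 4) true (nat_lit 2) true (nat_lit 5) true (nat_lit 3) (.s true (nat_lit 3) (nat_lit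 11) (nat_lit 2) (nat_lit 2) (nat_lit 2) true (nat_lit 2) true (nat_lit 4) true (nat_lit 1) true (nat_lit 4) true (nat_lit 4) (.s true (nat_lit 1) (nat_lit 15) (nat_lit 1) (nat_lit 2) (nat_lit 2) true (nat_lit 3) true (nat_lit 4) true (nat_lit 0) true (nat_lit 5) true (nat_lit 4) (.s false (nat_lit 1) (nat_lit 14) (nat_lit 2) (nat_lit 2) (nat_lit 1) true (nat_lit 3) true (nat_lit 5) true (nat_lit 0) true (nat_lit 4) true (nat_lit 4) (.s false (nat_lit 2) (nat_lit 15) (nat_lit 2) (nat_lit 2) (nat_lit 1) true (nat_lit 3) true (nat_lit 5) true (nat_lit 0) true (nat_lit 4) true (nat_lit 4) (.s false (nat_lit 3) (nat_lit 16) (nat_lit 2) (nat_lit 1) (nat_lit 1) true (nat_lit 3) true (nat_lit 5) false (nat_lit 1) true (nat_lit 4) true (nat_lit 5) (.a true (nat_lit 2) (nat_lit 14) (nat_lit 14) (nat_lit 0) (nat_lit 0) (.a false (nat_lit 1) (nat_lit 14) (nat_lit 15) (nat_lit 0) (nat_lit 0)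 (.a false (nat_lit 1) (nat_lit 15) (nat_lit 15) (nat_lit 0) (nat_lit 0) (.e true (nat_lit 3) (nat_lit 33) (nat_lit 5) (nat_lit 3) (.e true (nat_lit 1) (nat_lit 60) (nat_lit 2) (nat_lit 4) (.e false (nat_lit 3) (nat_lit 62) (nat_lit 2) (nat_lit 4) (.e true (nat_lit 3) (nat_lit 59) (nat_lit 2) (nat_lit 4) (.e true (nat_lit 1) (nat_lit 61) (nat_lit 2) (nat_lit 4) (.e false (nat_lit 1) (nat_lit 71) (nat_lit 1) (nat_lit 5) (.e false (nat_lit 1) (nat_lit 68) (nat_lit 1) (nat_lit 5) (.u (nat_lit 2) (.p (nat_lit 3) (nat_lit 1) (.p (nat_lit 6) (nat_lit 1) (.p (nat_lit 14) (nat_lit 1) (.p (nat_lit 15) (nat_lit 1) (.p (nat_lit 17) (nat_lit 1) (.n (nat_lit 19) (nat_lit 1) (.n (nat_lit 20) (nat_lit 1) (.p (nat_lit 21) (nat_lit 1) (.p (nat_lit 23) (nat_lit 1) (.n (nat_lit 25) (nat_lit 1) .z)))))))))) .nil))))))))))))))))))) (.nd (.nd (.nd (.nd .leaf (nat_lit 71682) (nat_lit 228) (.p (nat_lit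 123) (nat_lit 1) .z) .df .leaf) (nat_lit 71683) (nat_lit 291) (.n (nat_lit 126) (nat_lit 3) (.n (nat_lit 127) (nat_lit 1) (.n (nat_lit 128) (nat_lit 1) (.p (nat_lit 129) (nat_lit 1) (.n (nat_lit 130) (nat_lit 1) (.n (nat_lit 134) (nat_lit 1) (.p (nat_lit 135) (nat_lit 3) (.p (nat_lit 137) (nat_lit 3) (.p (nat_lit 140) (nat_lit 1) (.p (nat_lit 143) (nat_lit 3) (.n (nat_lit 144) (nat_lit 3) (.p (nat_lit 146) (nat_lit 1) (.p (nat_lit 152) (nat_lit 2) (.p (nat_lit 153) (nat_lit 3) .z)))))))))))))) (.ct dD_c292 (nat_lit 1) (nat_lit 9) (.s true (nat_lit 3) (nat_lit 15) (nat_lit 3) (nat_lit 2) (nat_lit 2) true (nat_lit 4) true (nat_lit 10) true (nat_lit 1) true (nat_lit 9) true (nat_lit 10) (.e false (nat_lit 3) (nat_lit 34) (nat_lit 8) (nat_lit 4) (.e false (nat_lit 1) (nat_lit 73) (nat_lit 2) (nat_lit 10) (.e false (nat_lit 3) (nat_lit 75) (nat_lit 2) (nat_lit 10) (.e true (nat_lit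 3) (nat_lit 76) (nat_lit 2) (nat_lit 10) (.e false (nat_lit 3) (nat_lit 77) (nat_lit 2) (nat_lit 10) (.e false (nat_lit 3) (nat_lit 82) (nat_lit 2) (nat_lit 10) (.e true (nat_lit 3) (nat_lit 21) (nat_lit 15) (nat_lit 1) (.e true (nat_lit 1) (nat_lit 69) (nat_lit 3) (nat_lit 9) (.e true (nat_lit 3) (nat_lit 93) (nat_lit 2) (nat_lit 10) (.u (nat_lit 2) (.n (nat_lit 1) (nat_lit 1) (.p (nat_lit 2) (nat_lit 1) (.n (nat_lit 3) (nat_lit 1) (.p (nat_lit 4) (nat_lit 3) (.n (nat_lit 9) (nat_lit 2) (.n (nat_lit 11) (nat_lit 1) (.p (nat_lit 14) (nat_lit 1) (.p (nat_lit 18) (nat_lit 1) (.n (nat_lit 20) (nat_lit 1) (.n (nat_lit 21) (nat_lit 1) (.n (nat_lit 27) (nat_lit 1) (.n (nat_lit 29) (nat_lit 1) (.p (nat_lit 93) (nat_lit 1) (.p (nat_lit 94) (nat_lit 1) (.n (nat_lit 96) (nat_lit 1) .z))))))))))))))) .nil)))))))))))) (.nd .leaf (nat_lit 71684) (nat_lit 397) (.p (nat_lit 156) (nat_lit 1) (.n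 (nat_lit 157) (nat_lit 2) (.n (nat_lit 158) (nat_lit 2) (.n (nat_lit 159) (nat_lit 1) (.n (nat_lit 160) (nat_lit 1) (.p (nat_lit 161) (nat_lit 1) (.p (nat_lit 162) (nat_lit 2) (.p (nat_lit 163) (nat_lit 2) (.p (nat_lit 164) (nat_lit 2) (.n (nat_lit 165) (nat_lit 1) (.p (nat_lit 166) (nat_lit 3) (.p (nat_lit 168) (nat_lit 1) (.n (nat_lit 169) (nat_lit 1) (.n (nat_lit 173) (nat_lit 1) .z)))))))))))))) (.ct dD_c277 (nat_lit 1) (nat_lit 6) (.s true (nat_lit 1) (nat_lit 35) (nat_lit 2) (nat_lit 2) (nat_lit 0) true (nat_lit 6) true (nat_lit 10) false (nat_lit 2) true (nat_lit 8) true (nat_lit 8) (.e true (nat_lit 1) (nat_lit 123) (nat_lit 0) (nat_lit 10) (.e false (nat_lit 1) (nat_lit 35) (nat_lit 13) (nat_lit 2) (.e true (nat_lit 3) (nat_lit 94) (nat_lit 2) (nat_lit 8) (.e true (nat_lit 3) (nat_lit 95) (nat_lit 2) (nat_lit 8) (.e false (nat_lit 1) (nat_lit 96) (nat_lit 2) (nat_lit 8)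 (.e true (nat_lit 3) (nat_lit 97) (nat_lit 2) (nat_lit 8) (.e false (nat_lit 2) (nat_lit 98) (nat_lit 2) (nat_lit 8) (.e true (nat_lit 3) (nat_lit 100) (nat_lit 2) (nat_lit 8) (.e true (nat_lit 3) (nat_lit 101) (nat_lit 2) (nat_lit 8) (.e true (nat_lit 3) (nat_lit 103) (nat_lit 2) (nat_lit 8) (.e false (nat_lit 3) (nat_lit 104) (nat_lit 2) (nat_lit 8) (.e true (nat_lit 1) (nat_lit 107) (nat_lit 2) (nat_lit 8) (.e false (nat_lit 2) (nat_lit 99) (nat_lit 2) (nat_lit 8) (.e false (nat_lit 1) (nat_lit 102) (nat_lit 2) (nat_lit 8) (.u (nat_lit 2) (.p (nat_lit 2) (nat_lit 1) (.n (nat_lit 3) (nat_lit 1) (.n (nat_lit 9) (nat_lit 1) (.n (nat_lit 70) (nat_lit 1) .z)))) .nil))))))))))))))))) .leaf)) (nat_lit 71685) (nat_lit 422) (.p (nat_lit 175) (nat_lit 3) (.p (nat_lit 176) (nat_lit 1) (.p (nat_lit 177) (nat_lit 3) (.n (nat_lit 178) (nat_lit 2) (.n (nat_lit 180) (nat_lit 3) (.n (nat_lit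 181) (nat_lit 1) .z)))))) (.ct dD_c37 (nat_lit 1) (nat_lit 4) (.s false (nat_lit 1) (nat_lit 16) (nat_lit 5) (nat_lit 2) (nat_lit 1) true (nat_lit 2) true (nat_lit 6) true (nat_lit 0) true (nat_lit 4) true (nat_lit 5) (.e false (nat_lit 1) (nat_lit 36) (nat_lit 11) (nat_lit 2) (.e false (nat_lit 1) (nat_lit 28) (nat_lit 16) (nat_lit 0) (.e true (nat_lit 1) (nat_lit 69) (nat_lit 5) (nat_lit 4) (.e false (nat_lit 1) (nat_lit 71) (nat_lit 5) (nat_lit 4) (.e false (nat_lit 3) (nat_lit 110) (nat_lit 2) (nat_lit 5) (.e false (nat_lit 3) (nat_lit 111) (nat_lit 2) (nat_lit 5) (.e false (nat_lit 2) (nat_lit 112) (nat_lit 2) (nat_lit 5) (.e false (nat_lit 1) (nat_lit 113) (nat_lit 2) (nat_lit 5) (.e false (nat_lit 1) (nat_lit 114) (nat_lit 2) (nat_lit 5) (.e false (nat_lit 1) (nat_lit 115) (nat_lit 2) (nat_lit 5) (.u (nat_lit 2) (.p (nat_lit 1) (nat_lit 1) (.p (nat_lit 3) (nat_lit 1) .z))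 .nil))))))))))))) (.nd (.nd .leaf (nat_lit 72704) (nat_lit 190) (.n (nat_lit 97) (nat_lit 1) (.n (nat_lit 99) (nat_lit 1) (.n (nat_lit 100) (nat_lit 2) (.n (nat_lit 101) (nat_lit 1) (.p (nat_lit 102) (nat_lit 1) (.p (nat_lit 103) (nat_lit 2) (.p (nat_lit 104) (nat_lit 3) (.n (nat_lit 105) (nat_lit 1) (.n (nat_lit 107) (nat_lit 1) (.n (nat_lit 109) (nat_lit 1) .z)))))))))) (.ct dD_c276 (nat_lit 1) (nat_lit 8) (.s false (nat_lit 1) (nat_lit 14) (nat_lit 0) (nat_lit 2) (nat_lit 2) true (nat_lit 4) true (nat_lit 6) false (nat_lit 0) true (nat_lit 8) true (nat_lit 6) (.e false (nat_lit 1) (nat_lit 33) (nat_lit 4) (nat_lit 4) (.e false (nat_lit 1) (nat_lit 53) (nat_lit 2) (nat_lit 6) (.e false (nat_lit 1) (nat_lit 14) (nat_lit 12) (nat_lit 0) (.e false (nat_lit 1) (nat_lit 55) (nat_lit 2) (nat_lit 6) (.u (nat_lit 2) (.p (nat_lit 3) (nat_lit 1) (.n (nat_lit 9) (nat_lit 1) (.n (nat_lit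 10) (nat_lit 1) .z))) .nil))))))) .leaf) (nat_lit 72705) (nat_lit 203) (.p (nat_lit 115) (nat_lit 1) .z) .df .leaf)) (nat_lit 72706) (nat_lit 234) (.p (nat_lit 122) (nat_lit 1) (.p (nat_lit 123) (nat_lit 1) .z)) (.ct dD_c21 (nat_lit 1) (nat_lit 3) (.s true (nat_lit 1) (nat_lit 16) (nat_lit 2) (nat_lit 2) (nat_lit 1) true (nat_lit 2) true (nat_lit 4) false (nat_lit 0) true (nat_lit 3) true (nat_lit 3) (.e true (nat_lit 1) (nat_lit 36) (nat_lit 5) (nat_lit 2) (.e true (nat_lit 1) (nat_lit 72) (nat_lit 1) (nat_lit 4) (.e false (nat_lit 1) (nat_lit 16) (nat_lit 15) (nat_lit 0) (.e false (nat_lit 1) (nat_lit 69) (nat_lit 2) (nat_lit 3) (.e false (nat_lit 2) (nat_lit 70) (nat_lit 2) (nat_lit 3) .nil))))))) (.nd (.nd (.nd .leaf (nat_lit 72707) (nat_lit 283) (.n (nat_lit 126) (nat_lit 3) (.n (nat_lit 127) (nat_lit 2) (.n (nat_lit 128) (nat_lit 2) (.p (nat_lit 129) (nat_lit 2) (.n (nat_lit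 130) (nat_lit 2) (.p (nat_lit 135) (nat_lit 2) (.p (nat_lit 137) (nat_lit 3) (.n (nat_lit 140) (nat_lit 3) (.n (nat_lit 143) (nat_lit 3) (.n (nat_lit 144) (nat_lit 3) (.p (nat_lit 146) (nat_lit 2) (.p (nat_lit 147) (nat_lit 1) (.p (nat_lit 153) (nat_lit 1) (.p (nat_lit 155) (nat_lit 1) .z)))))))))))))) (.ct dD_c292 (nat_lit 1) (nat_lit 9) (.s false (nat_lit 1) (nat_lit 14) (nat_lit 3) (nat_lit 2) (nat_lit 2) true (nat_lit 4) true (nat_lit 10) true (nat_lit 1) true (nat_lit 9) true (nat_lit 10) (.e true (nat_lit 1) (nat_lit 33) (nat_lit 8) (nat_lit 4) (.e false (nat_lit 2) (nat_lit 73) (nat_lit 2) (nat_lit 10) (.e false (nat_lit 1) (nat_lit 74) (nat_lit 2) (nat_lit 10) (.e true (nat_lit 1) (nat_lit 75) (nat_lit 2) (nat_lit 10) (.e false (nat_lit 1) (nat_lit 76) (nat_lit 2) (nat_lit 10) (.e true (nat_lit 1) (nat_lit 77) (nat_lit 2) (nat_lit 10) (.e false (nat_lit 1) (nat_lit 21)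 (nat_lit 14) (nat_lit 1) (.e false (nat_lit 1) (nat_lit 82) (nat_lit 2) (nat_lit 10) (.e true (nat_lit 1) (nat_lit 84) (nat_lit 2) (nat_lit 10) (.e true (nat_lit 1) (nat_lit 90) (nat_lit 2) (nat_lit 10) (.e false (nat_lit 1) (nat_lit 91) (nat_lit 2) (nat_lit 10) (.e false (nat_lit 1) (nat_lit 93) (nat_lit 2) (nat_lit 10) (.u (nat_lit 2) (.p (nat_lit 0) (nat_lit 1) (.n (nat_lit 11) (nat_lit 1) (.p (nat_lit 14) (nat_lit 1) (.p (nat_lit 18) (nat_lit 1) .z)))) .nil))))))))))))))) .leaf) (nat_lit 72708) (nat_lit 392) (.n (nat_lit 156) (nat_lit 2) (.p (nat_lit 157) (nat_lit 3) (.n (nat_lit 158) (nat_lit 2) (.p (nat_lit 159) (nat_lit 3) (.p (nat_lit 160) (nat_lit 2) (.n (nat_lit 161) (nat_lit 2) (.n (nat_lit 162) (nat_lit 2) (.p (nat_lit 163) (nat_lit 2) (.p (nat_lit 164) (nat_lit 1) (.p (nat_lit 165) (nat_lit 2) (.p (nat_lit 166) (nat_lit 1) (.p (nat_lit 171) (nat_lit 1) (.p (nat_lit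 172) (nat_lit 1) .z))))))))))))) (.ct dD_c277 (nat_lit 1) (nat_lit 6) (.s false (nat_lit 1) (nat_lit 14) (nat_lit 4) (nat_lit 2) (nat_lit 2) true (nat_lit 2) true (nat_lit 8) true (nat_lit 1) true (nat_lit 6) true (nat_lit 8) (.e false (nat_lit 1) (nat_lit 33) (nat_lit 12) (nat_lit 2) (.e true (nat_lit 3) (nat_lit 94) (nat_lit 2) (nat_lit 8) (.e true (nat_lit 2) (nat_lit 95) (nat_lit 2) (nat_lit 8) (.e false (nat_lit 3) (nat_lit 97) (nat_lit 2) (nat_lit 8) (.e false (nat_lit 3) (nat_lit 98) (nat_lit 2) (nat_lit 8) (.e false (nat_lit 1) (nat_lit 99) (nat_lit 2) (nat_lit 8) (.e false (nat_lit 2) (nat_lit 100) (nat_lit 2) (nat_lit 8) (.e true (nat_lit 3) (nat_lit 103) (nat_lit 2) (nat_lit 8) (.e false (nat_lit 1) (nat_lit 30) (nat_lit 14) (nat_lit 1) (.e false (nat_lit 1) (nat_lit 96) (nat_lit 2) (nat_lit 8) (.e false (nat_lit 3) (nat_lit 101) (nat_lit 2) (nat_lit 8) (.e false (nat_lit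 3) (nat_lit 104) (nat_lit 2) (nat_lit 8) (.e false (nat_lit 1) (nat_lit 109) (nat_lit 2) (nat_lit 8) (.u (nat_lit 2) (.p (nat_lit 0) (nat_lit 1) (.n (nat_lit 1) (nat_lit 1) (.p (nat_lit 2) (nat_lit 1) (.n (nat_lit 3) (nat_lit 1) (.n (nat_lit 4) (nat_lit 1) (.p (nat_lit 5) (nat_lit 1) (.n (nat_lit 8) (nat_lit 1) (.n (nat_lit 63) (nat_lit 1) (.p (nat_lit 69) (nat_lit 1) .z))))))))) .nil)))))))))))))))) .leaf) (nat_lit 72709) (nat_lit 409) (.p (nat_lit 182) (nat_lit 1) .z) .df (.nd (.nd .leaf (nat_lit 73728) (nat_lit 218) (.p (nat_lit 119) (nat_lit 1) .z) .df .leaf) (nat_lit 73729) (nat_lit 229) (.p (nat_lit 124) (nat_lit 1) .z) .df .leaf)))) (nat_lit 73731) (nat_lit 378) (.n (nat_lit 156) (nat_lit 3) (.p (nat_lit 157) (nat_lit 2) (.n (nat_lit 158) (nat_lit 2) (.n (nat_lit 159) (nat_lit 1) (.p (nat_lit 160) (nat_lit 2) (.p (nat_lit 161) (nat_lit 3) (.p (nat_lit 162) (nat_lit 1) (.p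 (nat_lit 163) (nat_lit 1) (.p (nat_lit 164) (nat_lit 1) (.p (nat_lit 165) (nat_lit 2) (.p (nat_lit 166) (nat_lit 3) (.n (nat_lit 169) (nat_lit 1) (.p (nat_lit 172) (nat_lit 1) (.n (nat_lit 173) (nat_lit 1) .z)))))))))))))) (.ct dD_c277 (nat_lit 1) (nat_lit 7) (.s true (nat_lit 1) (nat_lit 16) (nat_lit 2) (nat_lit 3) (nat_lit 2) true (nat_lit 4) true (nat_lit 8) true (nat_lit 0) true (nat_lit 8) true (nat_lit 7) (.e false (nat_lit 1) (nat_lit 49) (nat_lit 6) (nat_lit 4) (.e true (nat_lit 1) (nat_lit 50) (nat_lit 6) (nat_lit 4) (.e false (nat_lit 1) (nat_lit 51) (nat_lit 6) (nat_lit 4) (.e true (nat_lit 1) (nat_lit 53) (nat_lit 6) (nat_lit 4) (.e true (nat_lit 1) (nat_lit 56) (nat_lit 6) (nat_lit 4) (.e false (nat_lit 1) (nat_lit 95) (nat_lit 2) (nat_lit 8) (.e true (nat_lit 1) (nat_lit 96) (nat_lit 2) (nat_lit 8) (.e false (nat_lit 1) (nat_lit 97) (nat_lit 2) (nat_lit 8) (.e true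 (nat_lit 1) (nat_lit 99) (nat_lit 2) (nat_lit 8) (.e true (nat_lit 2) (nat_lit 106) (nat_lit 2) (nat_lit 8) (.e false (nat_lit 1) (nat_lit 21) (nat_lit 16) (nat_lit 0) (.e false (nat_lit 1) (nat_lit 102) (nat_lit 2) (nat_lit 8) (.u (nat_lit 2) (.n (nat_lit 2) (nat_lit 1) (.p (nat_lit 3) (nat_lit 1) (.n (nat_lit 8) (nat_lit 1) (.n (nat_lit 9) (nat_lit 1) .z)))) .nil))))))))))))))) (.nd (.nd (.nd (.nd (.nd .leaf (nat_lit 74754) (nat_lit 237) (.p (nat_lit 126) (nat_lit 1) .z) .df .leaf) (nat_lit 75778) (nat_lit 238) (.p (nat_lit 127) (nat_lit 1) .z) .df (.nd .leaf (nat_lit 76802) (nat_lit 239) (.p (nat_lit 128) (nat_lit 1) .z) .df .leaf)) (nat_lit 77826) (nat_lit 240) (.p (nat_lit 129) (nat_lit 1) .z) .df (.nd (.nd .leaf (nat_lit 78850) (nat_lit 241) (.p (nat_lit 130) (nat_lit 1) .z) .df .leaf) (nat_lit 79874) (nat_lit 242) (.p (nat_lit 131) (nat_lit 1) .z) .df .leaf)) (nat_lit 80898)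 (nat_lit 243) (.p (nat_lit 132) (nat_lit 1) .z) .df (.nd (.nd (.nd .leaf (nat_lit 81922) (nat_lit 244) (.p (nat_lit 133) (nat_lit 1) .z) .df .leaf) (nat_lit 82946) (nat_lit 245) (.p (nat_lit 134) (nat_lit 1) .z) .df (.nd .leaf (nat_lit 83970) (nat_lit 246) (.p (nat_lit 135) (nat_lit 1) .z) .df .leaf)) (nat_lit 84994) (nat_lit 247) (.p (nat_lit 136) (nat_lit 1) .z) .df (.nd (.nd .leaf (nat_lit 86018) (nat_lit 248) (.p (nat_lit 137) (nat_lit 1) .z) .df .leaf) (nat_lit 87042) (nat_lit 249) (.p (nat_lit 138) (nat_lit 1) .z) .df .leaf))) (nat_lit 88066) (nat_lit 250) (.p (nat_lit 139) (nat_lit 1) .z) .df (.nd (.nd (.nd (.nd .leaf (nat_lit 89090) (nat_lit 251) (.p (nat_lit 140) (nat_lit 1) .z) .df .leaf) (nat_lit 90114) (nat_lit 252) (.p (nat_lit 141) (nat_lit 1) .z) .df (.nd .leaf (nat_lit 91138) (nat_lit 253) (.p (nat_lit 142) (nat_lit 1) .z) .df .leaf)) (nat_lit 92162) (nat_lit 254)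 (.p (nat_lit 143) (nat_lit 1) .z) .df (.nd (.nd .leaf (nat_lit 93186) (nat_lit 255) (.p (nat_lit 144) (nat_lit 1) .z) .df .leaf) (nat_lit 94210) (nat_lit 256) (.p (nat_lit 145) (nat_lit 1) .z) .df .leaf)) (nat_lit 95234) (nat_lit 257) (.p (nat_lit 146) (nat_lit 1) .z) .df (.nd (.nd (.nd .leaf (nat_lit 96257) (nat_lit 258) (.p (nat_lit 147) (nat_lit 1) .z) .df .leaf) (nat_lit 96258) (nat_lit 340) (.p (nat_lit 156) (nat_lit 1) .z) .df .leaf) (nat_lit 97281) (nat_lit 259) (.p (nat_lit 148) (nat_lit 1) .z) .df (.nd (.nd .leaf (nat_lit 97282) (nat_lit 341) (.p (nat_lit 157) (nat_lit 1) .z) .df .leaf) (nat_lit 98305) (nat_lit 296) (.n (nat_lit 126) (nat_lit 2) (.n (nat_lit 128) (nat_lit 2) (.p (nat_lit 129) (nat_lit 2) (.p (nat_lit 130) (nat_lit 2) (.n (nat_lit 132) (nat_lit 1) (.p (nat_lit 133) (nat_lit 1) (.p (nat_lit 134) (nat_lit 2) (.n (nat_lit 135) (nat_lit 2) (.p (nat_lit 136)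 (nat_lit 2) (.p (nat_lit 137) (nat_lit 3) (.n (nat_lit 140) (nat_lit 2) (.p (nat_lit 143) (nat_lit 2) (.p (nat_lit 144) (nat_lit 3) (.p (nat_lit 148) (nat_lit 1) (.n (nat_lit 153) (nat_lit 2) (.n (nat_lit 155) (nat_lit 1) .z)))))))))))))))) (.ct dD_c292 (nat_lit 1) (nat_lit 11) (.s false (nat_lit 1) (nat_lit 16) (nat_lit 3) (nat_lit 2) (nat_lit 1) true (nat_lit 5) true (nat_lit 11) true (nat_lit 0) true (nat_lit 9) true (nat_lit 10) (.e true (nat_lit 1) (nat_lit 36) (nat_lit 7) (nat_lit 5) (.e false (nat_lit 1) (nat_lit 95) (nat_lit 1) (nat_lit 11) (.e false (nat_lit 1) (nat_lit 97) (nat_lit 1) (nat_lit 11) (.e true (nat_lit 1) (nat_lit 99) (nat_lit 1) (nat_lit 11) (.e true (nat_lit 1) (nat_lit 102) (nat_lit 1) (nat_lit 11) (.e true (nat_lit 1) (nat_lit 18) (nat_lit 16) (nat_lit 0) (.e false (nat_lit 1) (nat_lit 69) (nat_lit 3) (nat_lit 9) (.e false (nat_lit 1) (nat_lit 70) (nat_lit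 3) (nat_lit 9) (.e true (nat_lit 1) (nat_lit 71) (nat_lit 3) (nat_lit 9) (.e false (nat_lit 2) (nat_lit 74) (nat_lit 2) (nat_lit 10) (.e false (nat_lit 2) (nat_lit 77) (nat_lit 2) (nat_lit 10) (.e true (nat_lit 1) (nat_lit 81) (nat_lit 2) (nat_lit 10) (.e true (nat_lit 1) (nat_lit 87) (nat_lit 2) (nat_lit 10) (.e false (nat_lit 1) (nat_lit 93) (nat_lit 2) (nat_lit 10) (.u (nat_lit 2) (.p (nat_lit 1) (nat_lit 1) (.p (nat_lit 9) (nat_lit 1) (.n (nat_lit 11) (nat_lit 1) (.p (nat_lit 17) (nat_lit 1) .z)))) .nil))))))))))))))))) .leaf))))) (nat_lit 98306) (nat_lit 342) (.p (nat_lit 158) (nat_lit 1) .z) .df (.nd (.nd (.nd (.nd (.nd (.nd .leaf (nat_lit 99329) (nat_lit 260) (.p (nat_lit 149) (nat_lit 1) .z) .df .leaf) (nat_lit 99330) (nat_lit 343) (.p (nat_lit 159) (nat_lit 1) .z) .df (.nd .leaf (nat_lit 100353) (nat_lit 287) (.n (nat_lit 126) (nat_lit 3) (.p (nat_lit 127) (nat_lit 1)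 (.n (nat_lit 129) (nat_lit 2) (.n (nat_lit 130) (nat_lit 3) (.n (nat_lit 132) (nat_lit 3) (.p (nat_lit 133) (nat_lit 3) (.p (nat_lit 134) (nat_lit 2) (.n (nat_lit 135) (nat_lit 3) (.n (nat_lit 136) (nat_lit 1) (.n (nat_lit 137) (nat_lit 2) (.n (nat_lit 138) (nat_lit 1) (.p (nat_lit 140) (nat_lit 1) (.n (nat_lit 141) (nat_lit 3) (.p (nat_lit 144) (nat_lit 1) (.n (nat_lit 146) (nat_lit 3) (.n (nat_lit 147) (nat_lit 1) (.p (nat_lit 149) (nat_lit 2) (.p (nat_lit 152) (nat_lit 1) (.p (nat_lit 153) (nat_lit 3) (.p (nat_lit 154) (nat_lit 1) (.p (nat_lit 155) (nat_lit 1) .z))))))))))))))))))))) (.ct dD_c292 (nat_lit 1) (nat_lit 11) (.s false (nat_lit 3) (nat_lit 6) (nat_lit 1) (nat_lit 6) (nat_lit 3) true (nat_lit 5) true (nat_lit 9) true (nat_lit 6) true (nat_lit 11) true (nat_lit 6) (.s true (nat_lit 3) (nat_lit 6) (nat_lit 5) (nat_lit 1) (nat_lit 4) false (nat_lit 1) true (nat_lit 8)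 true (nat_lit 6) true (nat_lit 7) true (nat_lit 11) (.s true (nat_lit 2) (nat_lit 10) (nat_lit 1) (nat_lit 2) (nat_lit 6) true (nat_lit 1) true (nat_lit 6) true (nat_lit 4) true (nat_lit 11) true (nat_lit 10) (.s false (nat_lit 1) (nat_lit 9) (nat_lit 1) (nat_lit 6) (nat_lit 2) true (nat_lit 7) true (nat_lit 10) true (nat_lit 4) true (nat_lit 11) true (nat_lit 6) (.s true (nat_lit 1) (nat_lit 10) (nat_lit 1) (nat_lit 6) (nat_lit 2) true (nat_lit 7) true (nat_lit 10) true (nat_lit 4) true (nat_lit 11) true (nat_lit 6) (.s false (nat_lit 3) (nat_lit 10) (nat_lit 2) (nat_lit 2) (nat_lit 5) true (nat_lit 1) true (nat_lit 7) true (nat_lit 4) true (nat_lit 10) true (nat_lit 10) (.s false (nat_lit 3) (nat_lit 9) (nat_lit 2) (nat_lit 5) (nat_lit 2) true (nat_lit 6) true (nat_lit 10) true (nat_lit 4) true (nat_lit 10) true (nat_lit 7) (.s false (nat_lit 3) (nat_lit 10) (nat_lit 2) (nat_lit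 5) (nat_lit 2) true (nat_lit 6) true (nat_lit 10) true (nat_lit 4) true (nat_lit 10) true (nat_lit 7) (.s false (nat_lit 3) (nat_lit 9) (nat_lit 2) (nat_lit 6) (nat_lit 1) true (nat_lit 7) true (nat_lit 11) true (nat_lit 4) true (nat_lit 10) true (nat_lit 6) (.s true (nat_lit 1) (nat_lit 10) (nat_lit 2) (nat_lit 6) (nat_lit 1) true (nat_lit 7) true (nat_lit 11) true (nat_lit 4) true (nat_lit 10) true (nat_lit 6) (.s true (nat_lit 1) (nat_lit 9) (nat_lit 5) (nat_lit 2) (nat_lit 2) true (nat_lit 1) true (nat_lit 10) true (nat_lit 4) true (nat_lit 7) true (nat_lit 10) (.s true (nat_lit 3) (nat_lit 10) (nat_lit 5) (nat_lit 2) (nat_lit 2) true (nat_lit 1) true (nat_lit 10) true (nat_lit 4) true (nat_lit 7) true (nat_lit 10) (.s true (nat_lit 2) (nat_lit 11) (nat_lit 2) (nat_lit 2) (nat_lit 4) true (nat_lit 2) true (nat_lit 8) true (nat_lit 3) true (nat_lit 10) true (nat_lit 10) (.s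 true (nat_lit 1) (nat_lit 11) (nat_lit 2) (nat_lit 4) (nat_lit 2) true (nat_lit 6) true (nat_lit 10) true (nat_lit 3) true (nat_lit 10) true (nat_lit 8) (.s false (nat_lit 3) (nat_lit 12) (nat_lit 1) (nat_lit 1) (nat_lit 6) true (nat_lit 1) true (nat_lit 6) true (nat_lit 2) true (nat_lit 11) true (nat_lit 11) (.s true (nat_lit 2) (nat_lit 12) (nat_lit 5) (nat_lit 1) (nat_lit 2) true (nat_lit 1) true (nat_lit 10) true (nat_lit 2) true (nat_lit 7) true (nat_lit 11) (.s false (nat_lit 1) (nat_lit 14) (nat_lit 0) (nat_lit 5) (nat_lit 2) true (nat_lit 8) true (nat_lit 10) true (nat_lit 1) true (nat_lit 12) true (nat_lit 7) (.s false (nat_lit 3) (nat_lit 15) (nat_lit 0) (nat_lit 6) (nat_lit 1) true (nat_lit 9) true (nat_lit 11) true (nat_lit 1) true (nat_lit 12) true (nat_lit 6) dD_i21))))))))))))))))))) .leaf)) (nat_lit 100354) (nat_lit 344) (.p (nat_lit 160) (nat_lit 1) .z) .df (.nd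 (.nd .leaf (nat_lit 101377) (nat_lit 295) (.n (nat_lit 127) (nat_lit 1) (.p (nat_lit 128) (nat_lit 3) (.n (nat_lit 129) (nat_lit 3) (.p (nat_lit 130) (nat_lit 3) (.p (nat_lit 132) (nat_lit 1) (.n (nat_lit 133) (nat_lit 1) (.n (nat_lit 134) (nat_lit 2) (.n (nat_lit 135) (nat_lit 3) (.n (nat_lit 136) (nat_lit 2) (.p (nat_lit 137) (nat_lit 1) (.p (nat_lit 140) (nat_lit 3) (.n (nat_lit 147) (nat_lit 1) (.p (nat_lit 149) (nat_lit 1) (.n (nat_lit 152) (nat_lit 1) .z)))))))))))))) (.ct dD_c292 (nat_lit 1) (nat_lit 11) (.s false (nat_lit 1) (nat_lit 10) (nat_lit 2) (nat_lit 1) (nat_lit 6) true (nat_lit 0) true (nat_lit 6) true (nat_lit 4) true (nat_lit 10) true (nat_lit 11) (.s true (nat_lit 1) (nat_lit 9) (nat_lit 2) (nat_lit 2) (nat_lit 5) true (nat_lit 1) true (nat_lit 7) true (nat_lit 4) true (nat_lit 10) true (nat_lit 10) (.s false (nat_lit 1) (nat_lit 10) (nat_lit 2) (nat_lit 2)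 (nat_lit 5) true (nat_lit 1) true (nat_lit 7) true (nat_lit 4) true (nat_lit 10) true (nat_lit 10) (.s true (nat_lit 1) (nat_lit 9) (nat_lit 6) (nat_lit 1) (nat_lit 2) true (nat_lit 0) true (nat_lit 10) true (nat_lit 4) true (nat_lit 6) true (nat_lit 11) (.s false (nat_lit 1) (nat_lit 12) (nat_lit 1) (nat_lit 1) (nat_lit 6) true (nat_lit 1) true (nat_lit 6) true (nat_lit 2) true (nat_lit 11) true (nat_lit 11) (.s false (nat_lit 3) (nat_lit 13) (nat_lit 1) (nat_lit 1) (nat_lit 6) true (nat_lit 1) true (nat_lit 6) true (nat_lit 2) true (nat_lit 11) true (nat_lit 11) (.s true (nat_lit 2) (nat_lit 16) (nat_lit 2) (nat_lit 1) (nat_lit 3) true (nat_lit 4) true (nat_lit 9) true (nat_lit 0) true (nat_lit 10) true (nat_lit 11) dD_i23)))))))) .leaf) (nat_lit 101378) (nat_lit 345) (.p (nat_lit 161) (nat_lit 1) .z) .df .leaf)) (nat_lit 102401) (nat_lit 261) (.p (nat_lit 150) (nat_lit 1) .z)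 .df (.nd (.nd (.nd .leaf (nat_lit 102402) (nat_lit 346) (.p (nat_lit 162) (nat_lit 1) .z) .df .leaf) (nat_lit 103425) (nat_lit 286) (.p (nat_lit 126) (nat_lit 2) (.n (nat_lit 127) (nat_lit 3) (.p (nat_lit 128) (nat_lit 3) (.n (nat_lit 129) (nat_lit 1) (.n (nat_lit 130) (nat_lit 1) (.p (nat_lit 131) (nat_lit 3) (.n (nat_lit 132) (nat_lit 1) (.p (nat_lit 133) (nat_lit 1) (.n (nat_lit 134) (nat_lit 1) (.p (nat_lit 135) (nat_lit 1) (.n (nat_lit 136) (nat_lit 1) (.p (nat_lit 137) (nat_lit 2) (.p (nat_lit 138) (nat_lit 3) (.n (nat_lit 140) (nat_lit 1) (.p (nat_lit 141) (nat_lit 2) (.n (nat_lit 143) (nat_lit 3) (.p (nat_lit 144) (nat_lit 1) (.n (nat_lit 147) (nat_lit 1) (.p (nat_lit 148) (nat_lit 1) (.p (nat_lit 149) (nat_lit 1) (.n (nat_lit 150) (nat_lit 1) (.n (nat_lit 152) (nat_lit 1) (.n (nat_lit 153) (nat_lit 2) (.p (nat_lit 154) (nat_lit 1) .z)))))))))))))))))))))))) (.ct dD_c292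 (nat_lit 1) (nat_lit 11) (.s false (nat_lit 2) (nat_lit 6) (nat_lit 1) (nat_lit 3) (nat_lit 6) true (nat_lit 1) true (nat_lit 6) true (nat_lit 6) true (nat_lit 11) true (nat_lit 9) (.s false (nat_lit 1) (nat_lit 6) (nat_lit 1) (nat_lit 6) (nat_lit 3) true (nat_lit 5) true (nat_lit 9) true (nat_lit 6) true (nat_lit 11) true (nat_lit 6) dD_i26))) (.nd .leaf (nat_lit 103426) (nat_lit 347) (.p (nat_lit 163) (nat_lit 1) .z) .df .leaf)) (nat_lit 104449) (nat_lit 274) (.n (nat_lit 127) (nat_lit 1) (.n (nat_lit 130) (nat_lit 1) (.p (nat_lit 135) (nat_lit 1) (.p (nat_lit 137) (nat_lit 1) (.p (nat_lit 147) (nat_lit 1) (.p (nat_lit 153) (nat_lit 1) (.p (nat_lit 155) (nat_lit 1) .z))))))) (.ct dD_c292 (nat_lit 1) (nat_lit 11) (.s false (nat_lit 1) (nat_lit 8) (nat_lit 1) (nat_lit 2) (nat_lit 6) true (nat_lit 1) true (nat_lit 6) true (nat_lit 4) true (nat_lit 11) true (nat_lit 10) (.s true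 (nat_lit 1) (nat_lit 8) (nat_lit 2) (nat_lit 2) (nat_lit 5) true (nat_lit 1) true (nat_lit 7) true (nat_lit 4) true (nat_lit 10) true (nat_lit 10) (.s false (nat_lit 1) (nat_lit 21) (nat_lit 1) (nat_lit 2) (nat_lit 2) true (nat_lit 7) true (nat_lit 10) false (nat_lit 1) true (nat_lit 11) true (nat_lit 10) (.e false (nat_lit 1) (nat_lit 21) (nat_lit 15) (nat_lit 1) (.e false (nat_lit 1) (nat_lit 38) (nat_lit 6) (nat_lit 6) (.e true (nat_lit 1) (nat_lit 87) (nat_lit 2) (nat_lit 10) (.e false (nat_lit 2) (nat_lit 77) (nat_lit 2) (nat_lit 10) (.e false (nat_lit 2) (nat_lit 84) (nat_lit 2) (nat_lit 10) (.e true (nat_lit 1) (nat_lit 91) (nat_lit 2) (nat_lit 10) .nil)))))))))) (.nd (.nd .leaf (nat_lit 104450) (nat_lit 348) (.p (nat_lit 164) (nat_lit 1) .z) .df .leaf) (nat_lit 105473) (nat_lit 299) (.n (nat_lit 126) (nat_lit 1) (.n (nat_lit 127) (nat_lit 2) (.n (nat_lit 128) (nat_lit 1)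 (.n (nat_lit 129) (nat_lit 3) (.p (nat_lit 130) (nat_lit 2) (.n (nat_lit 131) (nat_lit 3) (.n (nat_lit 132) (nat_lit 3) (.p (nat_lit 133) (nat_lit 3) (.p (nat_lit 135) (nat_lit 3) (.p (nat_lit 136) (nat_lit 2) (.n (nat_lit 137) (nat_lit 3) (.p (nat_lit 138) (nat_lit 3) (.p (nat_lit 140) (nat_lit 2) (.p (nat_lit 141) (nat_lit 2) (.n (nat_lit 144) (nat_lit 3) (.n (nat_lit 146) (nat_lit 1) (.p (nat_lit 147) (nat_lit 1) (.p (nat_lit 148) (nat_lit 2) (.n (nat_lit 153) (nat_lit 1) (.n (nat_lit 155) (nat_lit 1) .z)))))))))))))))))))) (.ct dD_c292 (nat_lit 1) (nat_lit 11) (.s false (nat_lit 1) (nat_lit 10) (nat_lit 1) (nat_lit 2) (nat_lit 6) true (nat_lit 1) true (nat_lit 6) true (nat_lit 4) true (nat_lit 11) true (nat_lit 10) (.s true (nat_lit 1) (nat_lit 9) (nat_lit 2) (nat_lit 1) (nat_lit 6) true (nat_lit 0) true (nat_lit 6) true (nat_lit 4) true (nat_lit 10) true (nat_lit 11) (.s false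 (nat_lit 1) (nat_lit 10) (nat_lit 2) (nat_lit 1) (nat_lit 6) true (nat_lit 0) true (nat_lit 6) true (nat_lit 4) true (nat_lit 10) true (nat_lit 11) (.s true (nat_lit 1) (nat_lit 9) (nat_lit 2) (nat_lit 2) (nat_lit 5) true (nat_lit 1) true (nat_lit 7) true (nat_lit 4) true (nat_lit 10) true (nat_lit 10) (.s false (nat_lit 1) (nat_lit 22) (nat_lit 1) (nat_lit 2) (nat_lit 2) true (nat_lit 7) true (nat_lit 10) false (nat_lit 1) true (nat_lit 11) true (nat_lit 10) (.s false (nat_lit 1) (nat_lit 36) (nat_lit 0) (nat_lit 1) (nat_lit 1) true (nat_lit 9) true (nat_lit 11) false (nat_lit 5) true (nat_lit 12) true (nat_lit 11) (.e false (nat_lit 1) (nat_lit 23) (nat_lit 15) (nat_lit 1) (.e false (nat_lit 1) (nat_lit 40) (nat_lit 6) (nat_lit 6) (.e false (nat_lit 2) (nat_lit 74) (nat_lit 2) (nat_lit 10) (.e false (nat_lit 1) (nat_lit 75) (nat_lit 2) (nat_lit 10) (.e true (nat_lit 1) (nat_lit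 76) (nat_lit 2) (nat_lit 10) (.e true (nat_lit 1) (nat_lit 77) (nat_lit 2) (nat_lit 10) (.e false (nat_lit 2) (nat_lit 79) (nat_lit 2) (nat_lit 10) (.e true (nat_lit 2) (nat_lit 80) (nat_lit 2) (nat_lit 10) dD_i27))))))))))))))) .leaf))) (nat_lit 105474) (nat_lit 349) (.p (nat_lit 165) (nat_lit 1) .z) .df (.nd (.nd (.nd (.nd .leaf (nat_lit 106497) (nat_lit 284) (.p (nat_lit 126) (nat_lit 3) (.p (nat_lit 127) (nat_lit 3) (.n (nat_lit 128) (nat_lit 1) (.n (nat_lit 129) (nat_lit 3) (.n (nat_lit 130) (nat_lit 3) (.n (nat_lit 131) (nat_lit 3) (.p (nat_lit 134) (nat_lit 2) (.n (nat_lit 135) (nat_lit 1) (.p (nat_lit 136) (nat_lit 3) (.p (nat_lit 138) (nat_lit 3) (.p (nat_lit 140) (nat_lit 1) (.p (nat_lit 141) (nat_lit 2) (.p (nat_lit 143) (nat_lit 3) (.p (nat_lit 144) (nat_lit 1) (.n (nat_lit 146) (nat_lit 2) (.p (nat_lit 148) (nat_lit 2) (.n (nat_lit 152) (nat_lit 1) (.n (nat_lit 153)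 (nat_lit 3) (.n (nat_lit 155) (nat_lit 2) .z))))))))))))))))))) (.ct dD_c292 (nat_lit 1) (nat_lit 11) (.s false (nat_lit 2) (nat_lit 5) (nat_lit 4) (nat_lit 2) (nat_lit 5) false (nat_lit 1) true (nat_lit 7) true (nat_lit 7) true (nat_lit 8) true (nat_lit 10) (.s false (nat_lit 1) (nat_lit 6) (nat_lit 1) (nat_lit 6) (nat_lit 3) true (nat_lit 5) true (nat_lit 9) true (nat_lit 6) true (nat_lit 11) true (nat_lit 6) (.s false (nat_lit 3) (nat_lit 6) (nat_lit 3) (nat_lit 5) (nat_lit 2) true (nat_lit 4) true (nat_lit 10) true (nat_lit 6) true (nat_lit 9) true (nat_lit 7) (.s false (nat_lit 2) (nat_lit 10) (nat_lit 1) (nat_lit 2) (nat_lit 6) true (nat_lit 1) true (nat_lit 6) true (nat_lit 4) true (nat_lit 11) true (nat_lit 10) (.s true (nat_lit 1) (nat_lit 9) (nat_lit 1) (nat_lit 6) (nat_lit 2) true (nat_lit 7) true (nat_lit 10) true (nat_lit 4) true (nat_lit 11) true (nat_lit 6) (.s false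 (nat_lit 2) (nat_lit 10) (nat_lit 1) (nat_lit 6) (nat_lit 2) true (nat_lit 7) true (nat_lit 10) true (nat_lit 4) true (nat_lit 11) true (nat_lit 6) (.s false (nat_lit 1) (nat_lit 9) (nat_lit 2) (nat_lit 5) (nat_lit 2) true (nat_lit 6) true (nat_lit 10) true (nat_lit 4) true (nat_lit 10) true (nat_lit 7) (.s true (nat_lit 3) (nat_lit 10) (nat_lit 2) (nat_lit 5) (nat_lit 2) true (nat_lit 6) true (nat_lit 10) true (nat_lit 4) true (nat_lit 10) true (nat_lit 7) (.s true (nat_lit 3) (nat_lit 10) (nat_lit 2) (nat_lit 6) (nat_lit 1) true (nat_lit 7) true (nat_lit 11) true (nat_lit 4) true (nat_lit 10) true (nat_lit 6) (.s false (nat_lit 2) (nat_lit 9) (nat_lit 5) (nat_lit 2) (nat_lit 2) true (nat_lit 1) true (nat_lit 10) true (nat_lit 4) true (nat_lit 7) true (nat_lit 10) (.s false (nat_lit 3) (nat_lit 10) (nat_lit 5) (nat_lit 2) (nat_lit 2) true (nat_lit 1) true (nat_lit 10) true (nat_lit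 4) true (nat_lit 7) true (nat_lit 10) (.s true (nat_lit 1) (nat_lit 9) (nat_lit 6) (nat_lit 1) (nat_lit 2) true (nat_lit 0) true (nat_lit 10) true (nat_lit 4) true (nat_lit 6) true (nat_lit 11) (.s false (nat_lit 3) (nat_lit 11) (nat_lit 2) (nat_lit 2) (nat_lit 4) true (nat_lit 2) true (nat_lit 8) true (nat_lit 3) true (nat_lit 10) true (nat_lit 10) dD_i30)))))))))))))) .leaf) (nat_lit 106498) (nat_lit 350) (.p (nat_lit 166) (nat_lit 1) .z) .df (.nd .leaf (nat_lit 107521) (nat_lit 293) (.p (nat_lit 126) (nat_lit 1) (.p (nat_lit 128) (nat_lit 1) (.p (nat_lit 129) (nat_lit 3) (.n (nat_lit 130) (nat_lit 2) (.p (nat_lit 131) (nat_lit 1) (.n (nat_lit 132) (nat_lit 2) (.p (nat_lit 133) (nat_lit 2) (.p (nat_lit 134) (nat_lit 3) (.n (nat_lit 135) (nat_lit 2) (.p (nat_lit 136) (nat_lit 3) (.p (nat_lit 137) (nat_lit 2) (.n (nat_lit 138) (nat_lit 2) (.n (nat_lit 140) (nat_lit 3) (.p (nat_lit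 141) (nat_lit 1) (.p (nat_lit 143) (nat_lit 2) (.n (nat_lit 144) (nat_lit 1) (.n (nat_lit 146) (nat_lit 2) (.p (nat_lit 147) (nat_lit 1) (.p (nat_lit 150) (nat_lit 1) (.p (nat_lit 151) (nat_lit 1) (.n (nat_lit 152) (nat_lit 1) (.n (nat_lit 153) (nat_lit 2) (.p (nat_lit 154) (nat_lit 1) (.n (nat_lit 155) (nat_lit 1) .z)))))))))))))))))))))))) (.ct dD_c292 (nat_lit 1) (nat_lit 11) (.s false (nat_lit 1) (nat_lit 10) (nat_lit 2) (nat_lit 1) (nat_lit 6) true (nat_lit 0) true (nat_lit 6) true (nat_lit 4) true (nat_lit 10) true (nat_lit 11) (.s false (nat_lit 1) (nat_lit 10) (nat_lit 2) (nat_lit 2) (nat_lit 5) true (nat_lit 1) true (nat_lit 7) true (nat_lit 4) true (nat_lit 10) true (nat_lit 10) (.s true (nat_lit 3) (nat_lit 10) (nat_lit 2) (nat_lit 5) (nat_lit 2) true (nat_lit 6) true (nat_lit 10) true (nat_lit 4) true (nat_lit 10) true (nat_lit 7) (.s true (nat_lit 3) (nat_lit 9) (nat_lit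 2) (nat_lit 6) (nat_lit 1) true (nat_lit 7) true (nat_lit 11) true (nat_lit 4) true (nat_lit 10) true (nat_lit 6) (.s false (nat_lit 3) (nat_lit 10) (nat_lit 5) (nat_lit 2) (nat_lit 2) true (nat_lit 1) true (nat_lit 10) true (nat_lit 4) true (nat_lit 7) true (nat_lit 10) (.s false (nat_lit 3) (nat_lit 13) (nat_lit 5) (nat_lit 2) (nat_lit 1) true (nat_lit 3) true (nat_lit 11) true (nat_lit 2) true (nat_lit 7) true (nat_lit 10) (.s false (nat_lit 3) (nat_lit 14) (nat_lit 0) (nat_lit 5) (nat_lit 2) true (nat_lit 8) true (nat_lit 10) true (nat_lit 1) true (nat_lit 12) true (nat_lit 7) (.s true (nat_lit 3) (nat_lit 15) (nat_lit 1) (nat_lit 4) (nat_lit 2) true (nat_lit 7) true (nat_lit 10) true (nat_lit 1) true (nat_lit 11) true (nat_lit 8) (.s false (nat_lit 3) (nat_lit 14) (nat_lit 2) (nat_lit 1) (nat_lit 4) true (nat_lit 2) true (nat_lit 8) true (nat_lit 1) true (nat_lit 10) true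 (nat_lit 11) (.s false (nat_lit 3) (nat_lit 16) (nat_lit 2) (nat_lit 1) (nat_lit 3) true (nat_lit 4) true (nat_lit 9) true (nat_lit 0) true (nat_lit 10) true (nat_lit 11) (.s false (nat_lit 3) (nat_lit 16) (nat_lit 2) (nat_lit 3) (nat_lit 1) true (nat_lit 7) true (nat_lit 11) true (nat_lit 0) true (nat_lit 10) true (nat_lit 9) (.s true (nat_lit 3) (nat_lit 16) (nat_lit 4) (nat_lit 1) (nat_lit 1) true (nat_lit 4) true (nat_lit 11) true (nat_lit 0) true (nat_lit 8) true (nat_lit 11) (.s false (nat_lit 3) (nat_lit 22) (nat_lit 1) (nat_lit 2) (nat_lit 2) true (nat_lit 7) true (nat_lit 10) false (nat_lit 1) true (nat_lit 11) true (nat_lit 10) (.s true (nat_lit 3) (nat_lit 23) (nat_lit 1) (nat_lit 2) (nat_lit 2) true (nat_lit 7) true (nat_lit 10) false (nat_lit 1) true (nat_lit 11) true (nat_lit 10) (.s true (nat_lit 2) (nat_lit 23) (nat_lit 2) (nat_lit 1) (nat_lit 2) true (nat_lit 6)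 true (nat_lit 10) false (nat_lit 1) true (nat_lit 10) true (nat_lit 11) (.s false (nat_lit 3) (nat_lit 25) (nat_lit 2) (nat_lit 1) (nat_lit 2) true (nat_lit 6) true (nat_lit 10) false (nat_lit 1) true (nat_lit 10) true (nat_lit 11) dD_i32))))))))))))))))) .leaf)) (nat_lit 107522) (nat_lit 351) (.p (nat_lit 167) (nat_lit 1) .z) .df (.nd (.nd .leaf (nat_lit 108545) (nat_lit 275) (.n (nat_lit 127) (nat_lit 3) (.p (nat_lit 130) (nat_lit 2) (.p (nat_lit 134) (nat_lit 1) (.n (nat_lit 135) (nat_lit 2) (.n (nat_lit 137) (nat_lit 1) (.p (nat_lit 140) (nat_lit 1) (.n (nat_lit 143) (nat_lit 1) (.p (nat_lit 144) (nat_lit 3) (.p (nat_lit 147) (nat_lit 1) (.p (nat_lit 153) (nat_lit 1) (.p (nat_lit 155) (nat_lit 1) .z))))))))))) (.ct dD_c292 (nat_lit 1) (nat_lit 11) (.s true (nat_lit 3) (nat_lit 6) (nat_lit 1) (nat_lit 6) (nat_lit 3) true (nat_lit 5) true (nat_lit 9) true (nat_lit 6) true (nat_lit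 11) true (nat_lit 6) (.s true (nat_lit 1) (nat_lit 15) (nat_lit 2) (nat_lit 3) (nat_lit 2) true (nat_lit 6) true (nat_lit 10) true (nat_lit 1) true (nat_lit 10) true (nat_lit 9) (.s true (nat_lit 1) (nat_lit 16) (nat_lit 1) (nat_lit 2) (nat_lit 3) true (nat_lit 5) true (nat_lit 9) true (nat_lit 0) true (nat_lit 11) true (nat_lit 10) (.s true (nat_lit 1) (nat_lit 20) (nat_lit 2) (nat_lit 2) (nat_lit 2) true (nat_lit 6) true (nat_lit 10) false (nat_lit 0) true (nat_lit 10) true (nat_lit 10) (.e false (nat_lit 2) (nat_lit 37) (nat_lit 6) (nat_lit 6) (.e true (nat_lit 1) (nat_lit 39) (nat_lit 6) (nat_lit 6) (.e false (nat_lit 1) (nat_lit 38) (nat_lit 6) (nat_lit 6) (.e false (nat_lit 3) (nat_lit 45) (nat_lit 6) (nat_lit 6) (.e false (nat_lit 1) (nat_lit 21) (nat_lit 15) (nat_lit 1) (.e true (nat_lit 2) (nat_lit 74) (nat_lit 2) (nat_lit 10) (.e true (nat_lit 2) (nat_lit 77) (nat_lit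 2) (nat_lit 10) (.e true (nat_lit 3) (nat_lit 82) (nat_lit 2) (nat_lit 10) (.e false (nat_lit 2) (nat_lit 91) (nat_lit 2) (nat_lit 10) (.e true (nat_lit 1) (nat_lit 36) (nat_lit 7) (nat_lit 5) (.e true (nat_lit 1) (nat_lit 17) (nat_lit 16) (nat_lit 0) (.e false (nat_lit 1) (nat_lit 19) (nat_lit 16) (nat_lit 0) (.e true (nat_lit 1) (nat_lit 90) (nat_lit 2) (nat_lit 10) (.e false (nat_lit 1) (nat_lit 92) (nat_lit 2) (nat_lit 10) (.u (nat_lit 2) (.n (nat_lit 4) (nat_lit 1) (.p (nat_lit 17) (nat_lit 1) (.n (nat_lit 66) (nat_lit 1) (.n (nat_lit 69) (nat_lit 1) (.n (nat_lit 74) (nat_lit 1) (.n (nat_lit 93) (nat_lit 1) (.n (nat_lit 94) (nat_lit 1) (.p (nat_lit 105) (nat_lit 1) (.n (nat_lit 114) (nat_lit 1) (.p (nat_lit 125) (nat_lit 1) .z)))))))))) .nil)))))))))))))))))))) .leaf) (nat_lit 108546) (nat_lit 366) (.p (nat_lit 164) (nat_lit 1) .z) (.ct dD_c277 (nat_lit 1) (nat_lit 8) (.s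 false (nat_lit 2) (nat_lit 8) (nat_lit 2) (nat_lit 2) (nat_lit 6) true (nat_lit 0) true (nat_lit 4) true (nat_lit 3) true (nat_lit 8) true (nat_lit 8) (.s true (nat_lit 2) (nat_lit 8) (nat_lit 2) (nat_lit 6) (nat_lit 2) true (nat_lit 4) true (nat_lit 8) true (nat_lit 3) true (nat_lit 8) true (nat_lit 4) (.s true (nat_lit 2) (nat_lit 8) (nat_lit 6) (nat_lit 2) (nat_lit 2) true (nat_lit 0) true (nat_lit 8) true (nat_lit 3) true (nat_lit 4) true (nat_lit 8) (.e true (nat_lit 3) (nat_lit 56) (nat_lit 6) (nat_lit 4) (.u (nat_lit 2) (.n (nat_lit 8) (nat_lit 1) (.p (nat_lit 48) (nat_lit 1) (.n (nat_lit 72) (nat_lit 1) .z))) .nil)))))) .leaf)) (nat_lit 109569) (nat_lit 319) (.n (nat_lit 126) (nat_lit 1) (.p (nat_lit 127) (nat_lit 3) (.n (nat_lit 128) (nat_lit 2) (.p (nat_lit 129) (nat_lit 3) (.p (nat_lit 130) (nat_lit 1) (.n (nat_lit 131) (nat_lit 2) (.n (nat_lit 132) (nat_lit 2) (.p (nat_lit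 133) (nat_lit 2) (.p (nat_lit 135) (nat_lit 2) (.n (nat_lit 136) (nat_lit 1) (.n (nat_lit 138) (nat_lit 2) (.n (nat_lit 140) (nat_lit 2) (.p (nat_lit 141) (nat_lit 1) (.p (nat_lit 143) (nat_lit 3) (.n (nat_lit 146) (nat_lit 2) (.p (nat_lit 147) (nat_lit 1) (.p (nat_lit 148) (nat_lit 2) (.p (nat_lit 152) (nat_lit 2) (.p (nat_lit 153) (nat_lit 1) (.n (nat_lit 154) (nat_lit 3) (.n (nat_lit 155) (nat_lit 1) .z))))))))))))))))))))) (.ct dD_c292 (nat_lit 1) (nat_lit 11) (.s false (nat_lit 1) (nat_lit 12) (nat_lit 1) (nat_lit 1) (nat_lit 6) true (nat_lit 1) true (nat_lit 6) true (nat_lit 2) true (nat_lit 11) true (nat_lit 11) (.e false (nat_lit 1) (nat_lit 24) (nat_lit 15) (nat_lit 1) (.e false (nat_lit 1) (nat_lit 43) (nat_lit 6) (nat_lit 6) (.e true (nat_lit 3) (nat_lit 94) (nat_lit 1) (nat_lit 11) (.e true (nat_lit 2) (nat_lit 95) (nat_lit 1) (nat_lit 11) (.e false (nat_lit 1) (nat_lit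 97) (nat_lit 1) (nat_lit 11) (.e false (nat_lit 3) (nat_lit 98) (nat_lit 1) (nat_lit 11) (.e true (nat_lit 2) (nat_lit 99) (nat_lit 1) (nat_lit 11) (.e false (nat_lit 1) (nat_lit 96) (nat_lit 1) (nat_lit 11) (.e false (nat_lit 1) (nat_lit 102) (nat_lit 1) (nat_lit 11) (.e true (nat_lit 2) (nat_lit 103) (nat_lit 1) (nat_lit 11) (.u (nat_lit 2) (.n (nat_lit 0) (nat_lit 1) (.p (nat_lit 1) (nat_lit 1) (.n (nat_lit 2) (nat_lit 1) (.p (nat_lit 3) (nat_lit 1) (.n (nat_lit 4) (nat_lit 3) (.p (nat_lit 5) (nat_lit 1) (.p (nat_lit 8) (nat_lit 2) (.n (nat_lit 9) (nat_lit 2) (.p (nat_lit 11) (nat_lit 1) (.n (nat_lit 12) (nat_lit 1) (.n (nat_lit 14) (nat_lit 1) (.n (nat_lit 15) (nat_lit 2) (.p (nat_lit 18) (nat_lit 2) (.n (nat_lit 21) (nat_lit 1) (.n (nat_lit 22) (nat_lit 1) (.p (nat_lit 23) (nat_lit 1) (.p (nat_lit 27) (nat_lit 1) (.p (nat_lit 28) (nat_lit 1) (.p (nat_lit 29) (nat_lit 1) .z)))))))))))))))))))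 .nil))))))))))))) (.nd (.nd (.nd .leaf (nat_lit 109570) (nat_lit 352) (.p (nat_lit 168) (nat_lit 1) .z) .df .leaf) (nat_lit 110593) (nat_lit 325) (.p (nat_lit 126) (nat_lit 3) (.n (nat_lit 127) (nat_lit 2) (.n (nat_lit 128) (nat_lit 2) (.p (nat_lit 129) (nat_lit 3) (.p (nat_lit 130) (nat_lit 1) (.n (nat_lit 131) (nat_lit 2) (.n (nat_lit 132) (nat_lit 1) (.p (nat_lit 133) (nat_lit 1) (.p (nat_lit 134) (nat_lit 2) (.p (nat_lit 135) (nat_lit 1) (.n (nat_lit 136) (nat_lit 3) (.p (nat_lit 137) (nat_lit 2) (.n (nat_lit 138) (nat_lit 2) (.n (nat_lit 140) (nat_lit 3) (.p (nat_lit 141) (nat_lit 1) (.n (nat_lit 143) (nat_lit 3) (.p (nat_lit 144) (nat_lit 2) (.p (nat_lit 146) (nat_lit 1) (.p (nat_lit 148) (nat_lit 2) (.n (nat_lit 152) (nat_lit 2) (.p (nat_lit 153) (nat_lit 3) (.n (nat_lit 154) (nat_lit 3) (.n (nat_lit 155) (nat_lit 2) .z))))))))))))))))))))))) (.ct dD_c292 (nat_lit 1) (nat_lit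 11) (.s false (nat_lit 1) (nat_lit 23) (nat_lit 1) (nat_lit 2) (nat_lit 2) true (nat_lit 7) true (nat_lit 10) false (nat_lit 1) true (nat_lit 11) true (nat_lit 10) (.e false (nat_lit 1) (nat_lit 50) (nat_lit 5) (nat_lit 7) (.e false (nat_lit 1) (nat_lit 78) (nat_lit 2) (nat_lit 10) (.e false (nat_lit 3) (nat_lit 82) (nat_lit 2) (nat_lit 10) (.e false (nat_lit 1) (nat_lit 23) (nat_lit 14) (nat_lit 1) (.e false (nat_lit 1) (nat_lit 73) (nat_lit 2) (nat_lit 10) (.e true (nat_lit 2) (nat_lit 75) (nat_lit 2) (nat_lit 10) (.e false (nat_lit 2) (nat_lit 76) (nat_lit 2) (nat_lit 10) (.e true (nat_lit 2) (nat_lit 77) (nat_lit 2) (nat_lit 10) (.e true (nat_lit 3) (nat_lit 79) (nat_lit 2) (nat_lit 10) (.e false (nat_lit 3) (nat_lit 80) (nat_lit 2) (nat_lit 10) (.e false (nat_lit 3) (nat_lit 81) (nat_lit 2) (nat_lit 10) (.e true (nat_lit 1) (nat_lit 83) (nat_lit 2) (nat_lit 10) (.e false (nat_lit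 1) (nat_lit 84) (nat_lit 2) (nat_lit 10) (.e false (nat_lit 1) (nat_lit 85) (nat_lit 2) (nat_lit 10) (.e true (nat_lit 2) (nat_lit 87) (nat_lit 2) (nat_lit 10) (.e false (nat_lit 1) (nat_lit 90) (nat_lit 2) (nat_lit 10) (.e false (nat_lit 3) (nat_lit 91) (nat_lit 2) (nat_lit 10) (.e false (nat_lit 1) (nat_lit 93) (nat_lit 2) (nat_lit 10) (.u (nat_lit 2) (.p (nat_lit 10) (nat_lit 1) (.n (nat_lit 11) (nat_lit 1) (.p (nat_lit 12) (nat_lit 1) (.p (nat_lit 17) (nat_lit 1) (.p (nat_lit 26) (nat_lit 1) (.n (nat_lit 105) (nat_lit 1) .z)))))) .nil))))))))))))))))))))) .leaf) (nat_lit 110594) (nat_lit 353) (.p (nat_lit 169) (nat_lit 1) .z) .df (.nd (.nd .leaf (nat_lit 111617) (nat_lit 262) (.p (nat_lit 151) (nat_lit 1) .z) .df .leaf) (nat_lit 111618) (nat_lit 367) (.p (nat_lit 156) (nat_lit 3) (.n (nat_lit 157) (nat_lit 2) (.p (nat_lit 158) (nat_lit 2) (.n (nat_lit 159) (nat_lit 2) (.n (nat_lit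 160) (nat_lit 3) (.p (nat_lit 161) (nat_lit 3) (.n (nat_lit 162) (nat_lit 3) (.n (nat_lit 163) (nat_lit 2) (.n (nat_lit 164) (nat_lit 3) (.p (nat_lit 165) (nat_lit 3) (.n (nat_lit 166) (nat_lit 3) (.p (nat_lit 167) (nat_lit 1) (.p (nat_lit 168) (nat_lit 1) .z))))))))))))) (.ct dD_c277 (nat_lit 1) (nat_lit 8) (.s false (nat_lit 3) (nat_lit 6) (nat_lit 4) (nat_lit 2) (nat_lit 5) false (nat_lit 0) true (nat_lit 5) true (nat_lit 4) true (nat_lit 6) true (nat_lit 8) (.s false (nat_lit 1) (nat_lit 8) (nat_lit 2) (nat_lit 2) (nat_lit 6) true (nat_lit 0) true (nat_lit 4) true (nat_lit 3) true (nat_lit 8) true (nat_lit 8) (.s false (nat_lit 2) (nat_lit 13) (nat_lit 5) (nat_lit 2) (nat_lit 2) true (nat_lit 1) true (nat_lit 8) true (nat_lit 2) true (nat_lit 5) true (nat_lit 8) (.s true (nat_lit 2) (nat_lit 14) (nat_lit 0) (nat_lit 2) (nat_lit 6) true (nat_lit 2) true (nat_lit 4) true (nat_lit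 1) true (nat_lit 10) true (nat_lit 8) (.s true (nat_lit 3) (nat_lit 14) (nat_lit 2) (nat_lit 2) (nat_lit 4) true (nat_lit 2) true (nat_lit 6) true (nat_lit 1) true (nat_lit 8) true (nat_lit 8) (.s false (nat_lit 3) (nat_lit 15) (nat_lit 2) (nat_lit 2) (nat_lit 4) true (nat_lit 2) true (nat_lit 6) true (nat_lit 1) true (nat_lit 8) true (nat_lit 8) (.s true (nat_lit 3) (nat_lit 14) (nat_lit 2) (nat_lit 4) (nat_lit 2) true (nat_lit 4) true (nat_lit 8) true (nat_lit 1) true (nat_lit 8) true (nat_lit 6) (.s false (nat_lit 3) (nat_lit 14) (nat_lit 4) (nat_lit 2) (nat_lit 2) true (nat_lit 2) true (nat_lit 8) true (nat_lit 1) true (nat_lit 6) true (nat_lit 8) (.s false (nat_lit 3) (nat_lit 15) (nat_lit 6) (nat_lit 0) (nat_lit 2) true (nat_lit 0) true (nat_lit 8) true (nat_lit 1) true (nat_lit 4) true (nat_lit 10) (.s true (nat_lit 2) (nat_lit 16) (nat_lit 0) (nat_lit 2) (nat_lit 5) true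 (nat_lit 3) true (nat_lit 5) true (nat_lit 0) true (nat_lit 10) true (nat_lit 8) (.s false (nat_lit 2) (nat_lit 16) (nat_lit 0) (nat_lit 5) (nat_lit 2) true (nat_lit 6) true (nat_lit 8) true (nat_lit 0) true (nat_lit 10) true (nat_lit 5) (.s false (nat_lit 1) (nat_lit 16) (nat_lit 0) (nat_lit 6) (nat_lit 1) true (nat_lit 7) true (nat_lit 9) true (nat_lit 0) true (nat_lit 10) true (nat_lit 4) (.s true (nat_lit 2) (nat_lit 16) (nat_lit 1) (nat_lit 2) (nat_lit 4) true (nat_lit 3) true (nat_lit 6) true (nat_lit 0) true (nat_lit 9) true (nat_lit 8) (.s true (nat_lit 3) (nat_lit 16) (nat_lit 2) (nat_lit 0) (nat_lit 5) true (nat_lit 1) true (nat_lit 5) true (nat_lit 0) true (nat_lit 8) true (nat_lit 10) (.s false (nat_lit 1) (nat_lit 16) (nat_lit 5) (nat_lit 2) (nat_lit 0) true (nat_lit 3) true (nat_lit 10) true (nat_lit 0) true (nat_lit 5) true (nat_lit 8) (.s true (nat_lit 3) (nat_lit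 24) (nat_lit 2) (nat_lit 2) (nat_lit 2) true (nat_lit 4) true (nat_lit 8) false (nat_lit 0) true (nat_lit 8) true (nat_lit 8) (.s false (nat_lit 1) (nat_lit 25) (nat_lit 2) (nat_lit 2) (nat_lit 2) true (nat_lit 4) true (nat_lit 8) false (nat_lit 0) true (nat_lit 8) true (nat_lit 8) (.s true (nat_lit 1) (nat_lit 26) (nat_lit 2) (nat_lit 2) (nat_lit 2) true (nat_lit 4) true (nat_lit 8) false (nat_lit 0) true (nat_lit 8) true (nat_lit 8) (.s true (nat_lit 1) (nat_lit 32) (nat_lit 1) (nat_lit 2) (nat_lit 2) true (nat_lit 5) true (nat_lit 8) false (nat_lit 1) true (nat_lit 9) true (nat_lit 8) (.s true (nat_lit 3) (nat_lit 32) (nat_lit 2) (nat_lit 2) (nat_lit 1) true (nat_lit 5) true (nat_lit 9) false (nat_lit 1) true (nat_lit 8) true (nat_lit 8) (.s true (nat_lit 3) (nat_lit 34) (nat_lit 0) (nat_lit 2) (nat_lit 2) true (nat_lit 6) true (nat_lit 8) false (nat_lit 2) true (nat_lit 10)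 true (nat_lit 8) (.s true (nat_lit 3) (nat_lit 35) (nat_lit 0) (nat_lit 2) (nat_lit 2) true (nat_lit 6) true (nat_lit 8) false (nat_lit 2) true (nat_lit 10) true (nat_lit 8) (.s true (nat_lit 3) (nat_lit 35) (nat_lit 2) (nat_lit 0) (nat_lit 2) true (nat_lit 4) true (nat_lit 8) false (nat_lit 2) true (nat_lit 8) true (nat_lit 10) (.s true (nat_lit 2) (nat_lit 36) (nat_lit 2) (nat_lit 0) (nat_lit 1) true (nat_lit 5) true (nat_lit 9) false (nat_lit 3) true (nat_lit 8) true (nat_lit 10) dD_i33))))))))))))))))))))))))) .leaf)))) (nat_lit 112640) (nat_lit 334) (.n (nat_lit 126) (nat_lit 3) (.p (nat_lit 127) (nat_lit 1) (.n (nat_lit 128) (nat_lit 1) (.n (nat_lit 130) (nat_lit 1) (.p (nat_lit 131) (nat_lit 2) (.n (nat_lit 132) (nat_lit 2) (.n (nat_lit 133) (nat_lit 3) (.p (nat_lit 134) (nat_lit 1) (.n (nat_lit 135) (nat_lit 3) (.n (nat_lit 136) (nat_lit 3) (.p (nat_lit 137) (nat_lit 2)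 (.p (nat_lit 138) (nat_lit 3) (.n (nat_lit 139) (nat_lit 2) (.n (nat_lit 140) (nat_lit 3) (.p (nat_lit 141) (nat_lit 2) (.p (nat_lit 142) (nat_lit 2) (.n (nat_lit 143) (nat_lit 1) (.n (nat_lit 145) (nat_lit 2) (.n (nat_lit 146) (nat_lit 2) (.p (nat_lit 147) (nat_lit 1) (.p (nat_lit 150) (nat_lit 1) (.n (nat_lit 151) (nat_lit 1) (.p (nat_lit 152) (nat_lit 1) (.p (nat_lit 153) (nat_lit 1) (.n (nat_lit 154) (nat_lit 3) (.n (nat_lit 155) (nat_lit 1) .z)))))))))))))))))))))))))) (.ct dD_c292 (nat_lit 1) (nat_lit 12) (.s true (nat_lit 1) (nat_lit 27) (nat_lit 2) (nat_lit 0) (nat_lit 2) true (nat_lit 6) true (nat_lit 10) false (nat_lit 2) true (nat_lit 10) true (nat_lit 12) (.e false (nat_lit 1) (nat_lit 44) (nat_lit 6) (nat_lit 6) (.e false (nat_lit 1) (nat_lit 27) (nat_lit 12) (nat_lit 2) (.e true (nat_lit 3) (nat_lit 73) (nat_lit 2) (nat_lit 10) (.e true (nat_lit 3) (nat_lit 74) (nat_lit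 2) (nat_lit 10) (.e true (nat_lit 1) (nat_lit 76) (nat_lit 2) (nat_lit 10) (.e true (nat_lit 2) (nat_lit 77) (nat_lit 2) (nat_lit 10) (.e true (nat_lit 1) (nat_lit 78) (nat_lit 2) (nat_lit 10) (.e false (nat_lit 2) (nat_lit 79) (nat_lit 2) (nat_lit 10) (.e true (nat_lit 3) (nat_lit 80) (nat_lit 2) (nat_lit 10) (.e false (nat_lit 3) (nat_lit 81) (nat_lit 2) (nat_lit 10) (.e true (nat_lit 1) (nat_lit 82) (nat_lit 2) (nat_lit 10) (.e true (nat_lit 3) (nat_lit 83) (nat_lit 2) (nat_lit 10) (.e false (nat_lit 3) (nat_lit 84) (nat_lit 2) (nat_lit 10) (.e true (nat_lit 2) (nat_lit 85) (nat_lit 2) (nat_lit 10) (.e false (nat_lit 1) (nat_lit 88) (nat_lit 2) (nat_lit 10) (.e false (nat_lit 1) (nat_lit 90) (nat_lit 2) (nat_lit 10) (.e true (nat_lit 3) (nat_lit 91) (nat_lit 2) (nat_lit 10) (.e false (nat_lit 1) (nat_lit 92) (nat_lit 2) (nat_lit 10) (.e false (nat_lit 2) (nat_lit 93) (nat_lit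 2) (nat_lit 10) (.u (nat_lit 2) (.n (nat_lit 1) (nat_lit 1) (.p (nat_lit 6) (nat_lit 1) (.p (nat_lit 9) (nat_lit 1) (.n (nat_lit 12) (nat_lit 1) (.p (nat_lit 17) (nat_lit 1) (.p (nat_lit 20) (nat_lit 1) (.n (nat_lit 26) (nat_lit 1) (.p (nat_lit 28) (nat_lit 1) .z)))))))) .nil)))))))))))))))))))))) (.nd (.nd (.nd (.nd (.nd .leaf (nat_lit 112642) (nat_lit 402) (.p (nat_lit 175) (nat_lit 1) .z) .df .leaf) (nat_lit 113664) (nat_lit 338) (.p (nat_lit 126) (nat_lit 2) (.n (nat_lit 127) (nat_lit 1) (.n (nat_lit 128) (nat_lit 1) (.n (nat_lit 129) (nat_lit 1) (.n (nat_lit 130) (nat_lit 3) (.n (nat_lit 131) (nat_lit 1) (.n (nat_lit 132) (nat_lit 1) (.p (nat_lit 133) (nat_lit 1) (.n (nat_lit 134) (nat_lit 2) (.n (nat_lit 135) (nat_lit 1) (.p (nat_lit 136) (nat_lit 3) (.n (nat_lit 137) (nat_lit 3) (.p (nat_lit 138) (nat_lit 3) (.p (nat_lit 141) (nat_lit 2) (.n (nat_lit 143) (nat_lit 3) (.n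 (nat_lit 144) (nat_lit 3) (.n (nat_lit 146) (nat_lit 1) (.n (nat_lit 147) (nat_lit 2) (.p (nat_lit 149) (nat_lit 2) (.n (nat_lit 150) (nat_lit 1) (.n (nat_lit 151) (nat_lit 1) (.n (nat_lit 152) (nat_lit 2) (.n (nat_lit 153) (nat_lit 1) (.n (nat_lit 154) (nat_lit 2) (.p (nat_lit 155) (nat_lit 2) .z))))))))))))))))))))))))) (.ct dD_c292 (nat_lit 1) (nat_lit 12) (.s true (nat_lit 1) (nat_lit 28) (nat_lit 2) (nat_lit 0) (nat_lit 2) true (nat_lit 6) true (nat_lit 10) false (nat_lit 2) true (nat_lit 10) true (nat_lit 12) (.e true (nat_lit 2) (nat_lit 38) (nat_lit 6) (nat_lit 6) dD_i34))) (.nd .leaf (nat_lit 113666) (nat_lit 403) (.p (nat_lit 176) (nat_lit 1) .z) .df .leaf)) (nat_lit 114688) (nat_lit 336) (.p (nat_lit 126) (nat_lit 1) (.p (nat_lit 128) (nat_lit 2) (.n (nat_lit 129) (nat_lit 1) (.p (nat_lit 130) (nat_lit 3) (.n (nat_lit 131) (nat_lit 2) (.n (nat_lit 132) (nat_lit 2) (.p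 (nat_lit 133) (nat_lit 2) (.n (nat_lit 134) (nat_lit 3) (.p (nat_lit 135) (nat_lit 3) (.n (nat_lit 136) (nat_lit 1) (.n (nat_lit 138) (nat_lit 2) (.p (nat_lit 141) (nat_lit 1) (.p (nat_lit 143) (nat_lit 3) (.n (nat_lit 146) (nat_lit 2) (.n (nat_lit 147) (nat_lit 3) (.n (nat_lit 149) (nat_lit 3) (.n (nat_lit 150) (nat_lit 2) (.n (nat_lit 151) (nat_lit 2) (.n (nat_lit 152) (nat_lit 2) (.p (nat_lit 153) (nat_lit 1) (.n (nat_lit 154) (nat_lit 3) (.p (nat_lit 155) (nat_lit 3) .z)))))))))))))))))))))) (.ct dD_c292 (nat_lit 1) (nat_lit 12) dD_i35) (.nd (.nd .leaf (nat_lit 114690) (nat_lit 404) (.p (nat_lit 177) (nat_lit 1) .z) .df .leaf) (nat_lit 115712) (nat_lit 312) (.n (nat_lit 127) (nat_lit 1) (.p (nat_lit 128) (nat_lit 2) (.p (nat_lit 129) (nat_lit 1) (.p (nat_lit 130) (nat_lit 1) (.p (nat_lit 131) (nat_lit 2) (.p (nat_lit 132) (nat_lit 1) (.p (nat_lit 134) (nat_lit 1) (.n (nat_lit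 135) (nat_lit 1) (.n (nat_lit 136) (nat_lit 3) (.p (nat_lit 137) (nat_lit 3) (.p (nat_lit 138) (nat_lit 1) (.n (nat_lit 139) (nat_lit 1) (.n (nat_lit 140) (nat_lit 2) (.p (nat_lit 141) (nat_lit 3) (.p (nat_lit 142) (nat_lit 1) (.p (nat_lit 143) (nat_lit 2) (.n (nat_lit 144) (nat_lit 3) (.n (nat_lit 145) (nat_lit 1) (.n (nat_lit 146) (nat_lit 3) (.p (nat_lit 149) (nat_lit 1) (.n (nat_lit 151) (nat_lit 1) (.p (nat_lit 153) (nat_lit 1) (.n (nat_lit 154) (nat_lit 2) .z))))))))))))))))))))))) (.ct dD_c292 (nat_lit 1) (nat_lit 12) (.s true (nat_lit 1) (nat_lit 14) (nat_lit 1) (nat_lit 4) (nat_lit 2) true (nat_lit 7) true (nat_lit 10) true (nat_lit 1) true (nat_lit 11) true (nat_lit 8) (.s true (nat_lit 1) (nat_lit 22) (nat_lit 1) (nat_lit 2) (nat_lit 2) true (nat_lit 7) true (nat_lit 10) false (nat_lit 1) true (nat_lit 11) true (nat_lit 10) (.s true (nat_lit 1) (nat_lit 33) (nat_lit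 1) (nat_lit 2) (nat_lit 0) true (nat_lit 9) true (nat_lit 12) false (nat_lit 4) true (nat_lit 11) true (nat_lit 10) (.s true (nat_lit 1) (nat_lit 33) (nat_lit 2) (nat_lit 1) (nat_lit 0) true (nat_lit 8) true (nat_lit 12) false (nat_lit 4) true (nat_lit 10) true (nat_lit 11) (.e false (nat_lit 1) (nat_lit 48) (nat_lit 5) (nat_lit 7) (.e false (nat_lit 1) (nat_lit 51) (nat_lit 5) (nat_lit 7) (.e true (nat_lit 1) (nat_lit 52) (nat_lit 5) (nat_lit 7) (.e false (nat_lit 1) (nat_lit 53) (nat_lit 5) (nat_lit 7) (.e false (nat_lit 1) (nat_lit 54) (nat_lit 5) (nat_lit 7) (.e true (nat_lit 1) (nat_lit 57) (nat_lit 5) (nat_lit 7) (.e true (nat_lit 2) (nat_lit 73) (nat_lit 2) (nat_lit 10) (.e true (nat_lit 1) (nat_lit 74) (nat_lit 2) (nat_lit 10) (.e true (nat_lit 1) (nat_lit 75) (nat_lit 2) (nat_lit 10) (.e false (nat_lit 1) (nat_lit 76) (nat_lit 2) (nat_lit 10) (.e true (nat_lit 2) (nat_lit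 78) (nat_lit 2) (nat_lit 10) (.e false (nat_lit 2) (nat_lit 79) (nat_lit 2) (nat_lit 10) dD_i36))))))))))))))))) .leaf)) (nat_lit 115714) (nat_lit 405) (.p (nat_lit 178) (nat_lit 1) .z) .df (.nd (.nd (.nd .leaf (nat_lit 116736) (nat_lit 285) (.n (nat_lit 126) (nat_lit 2) (.n (nat_lit 127) (nat_lit 2) (.p (nat_lit 128) (nat_lit 1) (.n (nat_lit 129) (nat_lit 1) (.p (nat_lit 130) (nat_lit 3) (.n (nat_lit 131) (nat_lit 1) (.n (nat_lit 132) (nat_lit 1) (.p (nat_lit 133) (nat_lit 1) (.n (nat_lit 134) (nat_lit 3) (.p (nat_lit 135) (nat_lit 2) (.p (nat_lit 136) (nat_lit 3) (.n (nat_lit 138) (nat_lit 3) (.p (nat_lit 140) (nat_lit 1) (.n (nat_lit 141) (nat_lit 2) (.n (nat_lit 143) (nat_lit 3) (.n (nat_lit 144) (nat_lit 2) (.n (nat_lit 147) (nat_lit 2) (.p (nat_lit 149) (nat_lit 2) (.n (nat_lit 150) (nat_lit 1) (.n (nat_lit 151) (nat_lit 1) (.p (nat_lit 153) (nat_lit 1) (.n (nat_lit 154)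 (nat_lit 3) (.p (nat_lit 155) (nat_lit 2) .z))))))))))))))))))))))) (.ct dD_c292 (nat_lit 1) (nat_lit 12) (.s true (nat_lit 1) (nat_lit 5) (nat_lit 4) (nat_lit 2) (nat_lit 5) false (nat_lit 1) true (nat_lit 7) true (nat_lit 7) true (nat_lit 8) true (nat_lit 10) (.s true (nat_lit 1) (nat_lit 6) (nat_lit 1) (nat_lit 3) (nat_lit 6) true (nat_lit 1) true (nat_lit 6) true (nat_lit 6) true (nat_lit 11) true (nat_lit 9) (.s true (nat_lit 1) (nat_lit 6) (nat_lit 1) (nat_lit 6) (nat_lit 3) true (nat_lit 5) true (nat_lit 9) true (nat_lit 6) true (nat_lit 11) true (nat_lit 6) (.s false (nat_lit 1) (nat_lit 10) (nat_lit 1) (nat_lit 2) (nat_lit 6) true (nat_lit 1) true (nat_lit 6) true (nat_lit 4) true (nat_lit 11) true (nat_lit 10) (.s true (nat_lit 3) (nat_lit 9) (nat_lit 1) (nat_lit 6) (nat_lit 2) true (nat_lit 7) true (nat_lit 10) true (nat_lit 4) true (nat_lit 11) true (nat_lit 6) (.s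 true (nat_lit 1) (nat_lit 10) (nat_lit 1) (nat_lit 6) (nat_lit 2) true (nat_lit 7) true (nat_lit 10) true (nat_lit 4) true (nat_lit 11) true (nat_lit 6) (.s true (nat_lit 3) (nat_lit 9) (nat_lit 2) (nat_lit 5) (nat_lit 2) true (nat_lit 6) true (nat_lit 10) true (nat_lit 4) true (nat_lit 10) true (nat_lit 7) (.s true (nat_lit 1) (nat_lit 10) (nat_lit 2) (nat_lit 6) (nat_lit 1) true (nat_lit 7) true (nat_lit 11) true (nat_lit 4) true (nat_lit 10) true (nat_lit 6) (.s false (nat_lit 3) (nat_lit 9) (nat_lit 5) (nat_lit 2) (nat_lit 2) true (nat_lit 1) true (nat_lit 10) true (nat_lit 4) true (nat_lit 7) true (nat_lit 10) (.s false (nat_lit 1) (nat_lit 10) (nat_lit 5) (nat_lit 2) (nat_lit 2) true (nat_lit 1) true (nat_lit 10) true (nat_lit 4) true (nat_lit 7) true (nat_lit 10) (.s true (nat_lit 3) (nat_lit 9) (nat_lit 6) (nat_lit 1) (nat_lit 2) true (nat_lit 0) true (nat_lit 10) true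 (nat_lit 4) true (nat_lit 6) true (nat_lit 11) (.s true (nat_lit 2) (nat_lit 12) (nat_lit 1) (nat_lit 1) (nat_lit 6) true (nat_lit 1) true (nat_lit 6) true (nat_lit 2) true (nat_lit 11) true (nat_lit 11) (.s true (nat_lit 2) (nat_lit 13) (nat_lit 1) (nat_lit 1) (nat_lit 6) true (nat_lit 1) true (nat_lit 6) true (nat_lit 2) true (nat_lit 11) true (nat_lit 11) (.s false (nat_lit 1) (nat_lit 14) (nat_lit 0) (nat_lit 5) (nat_lit 2) true (nat_lit 8) true (nat_lit 10) true (nat_lit 1) true (nat_lit 12) true (nat_lit 7) (.s true (nat_lit 1) (nat_lit 14) (nat_lit 1) (nat_lit 4) (nat_lit 2) true (nat_lit 7) true (nat_lit 10) true (nat_lit 1) true (nat_lit 11) true (nat_lit 8) dD_i38)))))))))))))))) .leaf) (nat_lit 116738) (nat_lit 406) (.p (nat_lit 179) (nat_lit 1) .z) .df .leaf) (nat_lit 117760) (nat_lit 339) (.p (nat_lit 126) (nat_lit 1) (.p (nat_lit 127) (nat_lit 1) (.n (nat_lit 128)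 (nat_lit 1) (.p (nat_lit 129) (nat_lit 2) (.p (nat_lit 130) (nat_lit 1) (.n (nat_lit 131) (nat_lit 3) (.p (nat_lit 132) (nat_lit 1) (.n (nat_lit 133) (nat_lit 1) (.n (nat_lit 134) (nat_lit 1) (.n (nat_lit 135) (nat_lit 3) (.p (nat_lit 136) (nat_lit 1) (.n (nat_lit 137) (nat_lit 3) (.p (nat_lit 138) (nat_lit 2) (.p (nat_lit 140) (nat_lit 2) (.n (nat_lit 141) (nat_lit 1) (.n (nat_lit 143) (nat_lit 3) (.n (nat_lit 144) (nat_lit 1) (.p (nat_lit 146) (nat_lit 1) (.n (nat_lit 147) (nat_lit 3) (.n (nat_lit 149) (nat_lit 3) (.n (nat_lit 150) (nat_lit 2) (.n (nat_lit 151) (nat_lit 2) (.n (nat_lit 152) (nat_lit 3) (.p (nat_lit 154) (nat_lit 1) (.p (nat_lit 155) (nat_lit 3) .z))))))))))))))))))))))))) (.ct dD_c292 (nat_lit 1) (nat_lit 12) (.s false (nat_lit 1) (nat_lit 27) (nat_lit 0) (nat_lit 2) (nat_lit 2) true (nat_lit 8) true (nat_lit 10) false (nat_lit 2) true (nat_lit 12) true (nat_lit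 10) (.e false (nat_lit 1) (nat_lit 59) (nat_lit 4) (nat_lit 8) (.e false (nat_lit 1) (nat_lit 80) (nat_lit 2) (nat_lit 10) (.e false (nat_lit 1) (nat_lit 27) (nat_lit 12) (nat_lit 2) (.e false (nat_lit 2) (nat_lit 111) (nat_lit 0) (nat_lit 12) (.e true (nat_lit 3) (nat_lit 112) (nat_lit 0) (nat_lit 12) (.e false (nat_lit 3) (nat_lit 113) (nat_lit 0) (nat_lit 12) (.e false (nat_lit 1) (nat_lit 114) (nat_lit 0) (nat_lit 12) (.e false (nat_lit 1) (nat_lit 89) (nat_lit 2) (nat_lit 10) (.u (nat_lit 2) (.n (nat_lit 1) (nat_lit 1) (.n (nat_lit 4) (nat_lit 1) (.p (nat_lit 5) (nat_lit 2) (.p (nat_lit 6) (nat_lit 1) (.p (nat_lit 8) (nat_lit 1) (.n (nat_lit 9) (nat_lit 1) (.p (nat_lit 11) (nat_lit 1) (.p (nat_lit 12) (nat_lit 1) (.n (nat_lit 13) (nat_lit 1) (.n (nat_lit 14) (nat_lit 1) (.p (nat_lit 15) (nat_lit 1) (.p (nat_lit 16) (nat_lit 1) (.n (nat_lit 17) (nat_lit 1) (.n (nat_lit 18)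 (nat_lit 2) (.n (nat_lit 19) (nat_lit 1) (.n (nat_lit 20) (nat_lit 1) (.p (nat_lit 21) (nat_lit 1) (.p (nat_lit 23) (nat_lit 3) (.p (nat_lit 24) (nat_lit 1) (.n (nat_lit 29) (nat_lit 1) .z)))))))))))))))))))) .nil))))))))))) (.nd (.nd .leaf (nat_lit 117762) (nat_lit 407) (.p (nat_lit 180) (nat_lit 1) .z) .df .leaf) (nat_lit 118785) (nat_lit 354) (.p (nat_lit 170) (nat_lit 1) .z) .df .leaf))) (nat_lit 119809) (nat_lit 355) (.p (nat_lit 171) (nat_lit 1) .z) .df (.nd (.nd (.nd (.nd .leaf (nat_lit 120833) (nat_lit 356) (.p (nat_lit 172) (nat_lit 1) .z) .df .leaf) (nat_lit 121857) (nat_lit 395) (.n (nat_lit 156) (nat_lit 2) (.n (nat_lit 157) (nat_lit 2) (.n (nat_lit 158) (nat_lit 1) (.p (nat_lit 159) (nat_lit 2) (.p (nat_lit 160) (nat_lit 2) (.n (nat_lit 161) (nat_lit 1) (.p (nat_lit 162) (nat_lit 2) (.p (nat_lit 163) (nat_lit 2) (.p (nat_lit 164) (nat_lit 3) (.p (nat_lit 165) (nat_lit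 2) (.p (nat_lit 166) (nat_lit 3) (.n (nat_lit 169) (nat_lit 1) (.p (nat_lit 172) (nat_lit 1) .z))))))))))))) (.ct dD_c277 (nat_lit 1) (nat_lit 9) (.s true (nat_lit 1) (nat_lit 30) (nat_lit 1) (nat_lit 2) (nat_lit 2) true (nat_lit 5) true (nat_lit 8) false (nat_lit 1) true (nat_lit 9) true (nat_lit 8) (.e true (nat_lit 1) (nat_lit 64) (nat_lit 5) (nat_lit 5) (.e true (nat_lit 1) (nat_lit 100) (nat_lit 2) (nat_lit 8) (.e true (nat_lit 1) (nat_lit 30) (nat_lit 14) (nat_lit 1) (.e false (nat_lit 1) (nat_lit 117) (nat_lit 1) (nat_lit 9) (.e false (nat_lit 2) (nat_lit 118) (nat_lit 1) (nat_lit 9) (.e false (nat_lit 1) (nat_lit 120) (nat_lit 1) (nat_lit 9) (.e true (nat_lit 1) (nat_lit 105) (nat_lit 2) (nat_lit 8) .nil))))))))) (.nd .leaf (nat_lit 122881) (nat_lit 382) (.p (nat_lit 156) (nat_lit 3) (.p (nat_lit 158) (nat_lit 3) (.n (nat_lit 159) (nat_lit 2) (.n (nat_lit 160) (nat_lit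 3) (.p (nat_lit 162) (nat_lit 1) (.p (nat_lit 163) (nat_lit 1) (.p (nat_lit 164) (nat_lit 2) (.p (nat_lit 165) (nat_lit 2) (.n (nat_lit 166) (nat_lit 1) (.n (nat_lit 168) (nat_lit 2) (.n (nat_lit 169) (nat_lit 1) .z))))))))))) (.ct dD_c277 (nat_lit 1) (nat_lit 9) (.s true (nat_lit 1) (nat_lit 16) (nat_lit 0) (nat_lit 6) (nat_lit 1) true (nat_lit 7) true (nat_lit 9) true (nat_lit 0) true (nat_lit 10) true (nat_lit 4) (.e false (nat_lit 1) (nat_lit 25) (nat_lit 16) (nat_lit 0) (.e false (nat_lit 1) (nat_lit 125) (nat_lit 0) (nat_lit 10) (.e false (nat_lit 2) (nat_lit 50) (nat_lit 6) (nat_lit 4) (.e true (nat_lit 1) (nat_lit 52) (nat_lit 6) (nat_lit 4) (.e false (nat_lit 2) (nat_lit 53) (nat_lit 6) (nat_lit 4) (.e false (nat_lit 1) (nat_lit 56) (nat_lit 6) (nat_lit 4) (.e true (nat_lit 1) (nat_lit 58) (nat_lit 6) (nat_lit 4) (.u (nat_lit 2) (.n (nat_lit 0) (nat_lit 1) (.n (nat_lit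 3) (nat_lit 1) (.p (nat_lit 4) (nat_lit 1) .z))) .nil)))))))))) .leaf)) (nat_lit 123904) (nat_lit 393) (.p (nat_lit 156) (nat_lit 1) (.p (nat_lit 157) (nat_lit 2) (.p (nat_lit 158) (nat_lit 1) (.n (nat_lit 159) (nat_lit 2) (.n (nat_lit 160) (nat_lit 1) (.n (nat_lit 162) (nat_lit 3) (.n (nat_lit 163) (nat_lit 1) (.n (nat_lit 164) (nat_lit 3) (.n (nat_lit 165) (nat_lit 3) (.p (nat_lit 166) (nat_lit 3) (.n (nat_lit 167) (nat_lit 1) (.p (nat_lit 169) (nat_lit 1) (.n (nat_lit 170) (nat_lit 1) (.p (nat_lit 171) (nat_lit 1) (.p (nat_lit 172) (nat_lit 1) (.p (nat_lit 173) (nat_lit 1) (.p (nat_lit 174) (nat_lit 1) .z))))))))))))))))) (.ct dD_c277 (nat_lit 1) (nat_lit 10) (.s true (nat_lit 1) (nat_lit 33) (nat_lit 2) (nat_lit 0) (nat_lit 2) true (nat_lit 4) true (nat_lit 8) false (nat_lit 2) true (nat_lit 8) true (nat_lit 10) (.e false (nat_lit 1) (nat_lit 55) (nat_lit 6) (nat_lit 4) (.e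 true (nat_lit 1) (nat_lit 94) (nat_lit 2) (nat_lit 8) (.e false (nat_lit 3) (nat_lit 95) (nat_lit 2) (nat_lit 8) (.e true (nat_lit 3) (nat_lit 96) (nat_lit 2) (nat_lit 8) (.e true (nat_lit 2) (nat_lit 97) (nat_lit 2) (nat_lit 8) (.e false (nat_lit 1) (nat_lit 98) (nat_lit 2) (nat_lit 8) (.e true (nat_lit 3) (nat_lit 99) (nat_lit 2) (nat_lit 8) (.e false (nat_lit 2) (nat_lit 100) (nat_lit 2) (nat_lit 8) (.e false (nat_lit 2) (nat_lit 101) (nat_lit 2) (nat_lit 8) (.e false (nat_lit 1) (nat_lit 105) (nat_lit 2) (nat_lit 8) (.e false (nat_lit 1) (nat_lit 107) (nat_lit 2) (nat_lit 8) (.e false (nat_lit 1) (nat_lit 108) (nat_lit 2) (nat_lit 8) (.e false (nat_lit 1) (nat_lit 33) (nat_lit 12) (nat_lit 2) (.e true (nat_lit 1) (nat_lit 109) (nat_lit 2) (nat_lit 8) (.u (nat_lit 2) (.n (nat_lit 2) (nat_lit 1) (.n (nat_lit 5) (nat_lit 1) (.p (nat_lit 6) (nat_lit 1) (.p (nat_lit 7) (nat_lit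 1) (.p (nat_lit 8) (nat_lit 1) (.p (nat_lit 63) (nat_lit 1) (.n (nat_lit 66) (nat_lit 1) (.n (nat_lit 67) (nat_lit 1) .z)))))))) .nil))))))))))))))))) (.nd (.nd .leaf (nat_lit 124928) (nat_lit 401) (.n (nat_lit 156) (nat_lit 1) (.p (nat_lit 157) (nat_lit 3) (.n (nat_lit 158) (nat_lit 3) (.p (nat_lit 159) (nat_lit 1) (.p (nat_lit 160) (nat_lit 1) (.p (nat_lit 161) (nat_lit 2) (.p (nat_lit 162) (nat_lit 2) (.n (nat_lit 163) (nat_lit 1) (.p (nat_lit 164) (nat_lit 1) (.p (nat_lit 165) (nat_lit 3) (.p (nat_lit 166) (nat_lit 1) (.n (nat_lit 167) (nat_lit 2) (.n (nat_lit 168) (nat_lit 3) (.n (nat_lit 169) (nat_lit 1) (.p (nat_lit 171) (nat_lit 1) (.p (nat_lit 172) (nat_lit 2) (.n (nat_lit 173) (nat_lit 1) (.n (nat_lit 174) (nat_lit 1) .z)))))))))))))))))) (.ct dD_c277 (nat_lit 1) (nat_lit 10) (.s true (nat_lit 1) (nat_lit 34) (nat_lit 2) (nat_lit 2) (nat_lit 0) true (nat_lit 6) true (nat_lit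 10) false (nat_lit 2) true (nat_lit 8) true (nat_lit 8) (.e true (nat_lit 1) (nat_lit 69) (nat_lit 4) (nat_lit 6) (.e false (nat_lit 1) (nat_lit 34) (nat_lit 13) (nat_lit 2) (.e true (nat_lit 2) (nat_lit 94) (nat_lit 2) (nat_lit 8) (.e true (nat_lit 3) (nat_lit 95) (nat_lit 2) (nat_lit 8) (.e true (nat_lit 2) (nat_lit 97) (nat_lit 2) (nat_lit 8) (.e false (nat_lit 3) (nat_lit 98) (nat_lit 2) (nat_lit 8) (.e false (nat_lit 3) (nat_lit 101) (nat_lit 2) (nat_lit 8) (.e true (nat_lit 2) (nat_lit 102) (nat_lit 2) (nat_lit 8) (.e true (nat_lit 3) (nat_lit 104) (nat_lit 2) (nat_lit 8) (.e false (nat_lit 1) (nat_lit 105) (nat_lit 2) (nat_lit 8) (.e false (nat_lit 2) (nat_lit 107) (nat_lit 2) (nat_lit 8) (.e false (nat_lit 1) (nat_lit 109) (nat_lit 2) (nat_lit 8) (.e true (nat_lit 1) (nat_lit 96) (nat_lit 2) (nat_lit 8) (.u (nat_lit 2) (.n (nat_lit 1) (nat_lit 2) (.n (nat_lit 3) (nat_lit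 1) (.p (nat_lit 5) (nat_lit 1) (.n (nat_lit 10) (nat_lit 1) (.p (nat_lit 11) (nat_lit 1) (.p (nat_lit 12) (nat_lit 1) .z)))))) .nil)))))))))))))))) .leaf) (nat_lit 124929) (nat_lit 424) (.n (nat_lit 175) (nat_lit 1) (.n (nat_lit 176) (nat_lit 3) (.p (nat_lit 177) (nat_lit 1) (.n (nat_lit 178) (nat_lit 1) (.p (nat_lit 179) (nat_lit 1) (.p (nat_lit 180) (nat_lit 3) (.n (nat_lit 181) (nat_lit 1) (.p (nat_lit 182) (nat_lit 1) .z)))))))) (.ct dD_c37 (nat_lit 1) (nat_lit 6) (.s true (nat_lit 1) (nat_lit 34) (nat_lit 2) (nat_lit 2) (nat_lit 1) true (nat_lit 4) true (nat_lit 6) false (nat_lit 1) true (nat_lit 5) true (nat_lit 5) (.e true (nat_lit 1) (nat_lit 69) (nat_lit 5) (nat_lit 4) (.e false (nat_lit 1) (nat_lit 34) (nat_lit 15) (nat_lit 1) (.e false (nat_lit 3) (nat_lit 110) (nat_lit 2) (nat_lit 5) (.e false (nat_lit 2) (nat_lit 111) (nat_lit 2) (nat_lit 5) (.e true (nat_lit 2) (nat_lit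 113) (nat_lit 2) (nat_lit 5) (.e true (nat_lit 1) (nat_lit 114) (nat_lit 2) (nat_lit 5) (.e true (nat_lit 3) (nat_lit 115) (nat_lit 2) (nat_lit 5) (.e false (nat_lit 3) (nat_lit 112) (nat_lit 2) (nat_lit 5) (.u (nat_lit 2) (.p (nat_lit 0) (nat_lit 1) (.p (nat_lit 1) (nat_lit 1) (.n (nat_lit 5) (nat_lit 1) (.n (nat_lit 27) (nat_lit 1) (.p (nat_lit 32) (nat_lit 1) .z))))) .nil))))))))))) .leaf)) (nat_lit 125952) (nat_lit 396) (.n (nat_lit 156) (nat_lit 3) (.p (nat_lit 157) (nat_lit 2) (.n (nat_lit 158) (nat_lit 2) (.p (nat_lit 159) (nat_lit 3) (.p (nat_lit 160) (nat_lit 3) (.n (nat_lit 162) (nat_lit 2) (.n (nat_lit 163) (nat_lit 2) (.p (nat_lit 165) (nat_lit 2) (.p (nat_lit 166) (nat_lit 2) (.p (nat_lit 168) (nat_lit 1) (.p (nat_lit 169) (nat_lit 1) (.n (nat_lit 172) (nat_lit 1) (.p (nat_lit 173) (nat_lit 1) (.p (nat_lit 174) (nat_lit 1) .z)))))))))))))) (.ct dD_c277 (nat_lit 1)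 (nat_lit 10) (.s true (nat_lit 1) (nat_lit 36) (nat_lit 2) (nat_lit 0) (nat_lit 1) true (nat_lit 5) true (nat_lit 9) false (nat_lit 3) true (nat_lit 8) true (nat_lit 10) (.e false (nat_lit 1) (nat_lit 65) (nat_lit 5) (nat_lit 5) (.e true (nat_lit 1) (nat_lit 67) (nat_lit 5) (nat_lit 5) (.e true (nat_lit 1) (nat_lit 119) (nat_lit 1) (nat_lit 9) (.e false (nat_lit 1) (nat_lit 36) (nat_lit 9) (nat_lit 3) (.e false (nat_lit 1) (nat_lit 95) (nat_lit 2) (nat_lit 8) (.e true (nat_lit 1) (nat_lit 96) (nat_lit 2) (nat_lit 8) (.e false (nat_lit 1) (nat_lit 97) (nat_lit 2) (nat_lit 8) (.e true (nat_lit 1) (nat_lit 99) (nat_lit 2) (nat_lit 8) (.e true (nat_lit 1) (nat_lit 106) (nat_lit 2) (nat_lit 8) (.u (nat_lit 2) (.p (nat_lit 0) (nat_lit 1) (.n (nat_lit 4) (nat_lit 1) (.n (nat_lit 8) (nat_lit 1) (.n (nat_lit 9) (nat_lit 1) .z)))) .nil)))))))))))) (.nd (.nd (.nd .leaf (nat_lit 125953) (nat_lit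 425) (.n (nat_lit 176) (nat_lit 3) (.n (nat_lit 177) (nat_lit 2) (.p (nat_lit 178) (nat_lit 3) (.n (nat_lit 179) (nat_lit 1) (.n (nat_lit 180) (nat_lit 2) (.p (nat_lit 181) (nat_lit 1) .z)))))) (.ct dD_c37 (nat_lit 1) (nat_lit 6) (.s true (nat_lit 3) (nat_lit 15) (nat_lit 2) (nat_lit 1) (nat_lit 6) true (nat_lit 0) true (nat_lit 3) true (nat_lit 1) true (nat_lit 5) true (nat_lit 6) (.e true (nat_lit 3) (nat_lit 29) (nat_lit 16) (nat_lit 0) (.e true (nat_lit 3) (nat_lit 63) (nat_lit 6) (nat_lit 3) (.e true (nat_lit 3) (nat_lit 34) (nat_lit 15) (nat_lit 1) (.e true (nat_lit 3) (nat_lit 35) (nat_lit 15) (nat_lit 1) (.e true (nat_lit 1) (nat_lit 122) (nat_lit 1) (nat_lit 6) (.u (nat_lit 2) (.p (nat_lit 0) (nat_lit 1) (.p (nat_lit 1) (nat_lit 3) (.p (nat_lit 2) (nat_lit 1) (.p (nat_lit 3) (nat_lit 1) (.n (nat_lit 5) (nat_lit 1) (.n (nat_lit 7) (nat_lit 1) (.p (nat_lit 34) (nat_lit 1)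 (.p (nat_lit 35) (nat_lit 1) .z)))))))) .nil)))))))) .leaf) (nat_lit 126976) (nat_lit 399) (.p (nat_lit 156) (nat_lit 2) (.n (nat_lit 157) (nat_lit 1) (.n (nat_lit 158) (nat_lit 2) (.n (nat_lit 159) (nat_lit 3) (.n (nat_lit 160) (nat_lit 2) (.n (nat_lit 164) (nat_lit 3) (.n (nat_lit 165) (nat_lit 2) (.n (nat_lit 166) (nat_lit 3) (.p (nat_lit 169) (nat_lit 1) (.n (nat_lit 172) (nat_lit 1) (.p (nat_lit 173) (nat_lit 1) (.p (nat_lit 174) (nat_lit 1) .z)))))))))))) (.ct dD_c277 (nat_lit 1) (nat_lit 10) (.s true (nat_lit 1) (nat_lit 36) (nat_lit 2) (nat_lit 1) (nat_lit 0) true (nat_lit 6) true (nat_lit 10) false (nat_lit 3) true (nat_lit 8) true (nat_lit 9) (.e false (nat_lit 1) (nat_lit 69) (nat_lit 4) (nat_lit 6) (.e true (nat_lit 1) (nat_lit 71) (nat_lit 4) (nat_lit 6) (.e false (nat_lit 1) (nat_lit 36) (nat_lit 10) (nat_lit 3) (.e true (nat_lit 1) (nat_lit 95) (nat_lit 2) (nat_lit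 8) (.e false (nat_lit 1) (nat_lit 96) (nat_lit 2) (nat_lit 8) (.e true (nat_lit 1) (nat_lit 97) (nat_lit 2) (nat_lit 8) (.e false (nat_lit 1) (nat_lit 99) (nat_lit 2) (nat_lit 8) (.e false (nat_lit 1) (nat_lit 106) (nat_lit 2) (nat_lit 8) (.e true (nat_lit 1) (nat_lit 118) (nat_lit 1) (nat_lit 9) (.u (nat_lit 2) (.p (nat_lit 2) (nat_lit 1) .z) .nil)))))))))))) .leaf) (nat_lit 126977) (nat_lit 426) (.n (nat_lit 175) (nat_lit 3) (.n (nat_lit 176) (nat_lit 1) (.p (nat_lit 178) (nat_lit 2) (.p (nat_lit 181) (nat_lit 1) .z)))) (.ct dD_c37 (nat_lit 1) (nat_lit 6) (.s true (nat_lit 1) (nat_lit 36) (nat_lit 2) (nat_lit 1) (nat_lit 1) true (nat_lit 4) true (nat_lit 6) false (nat_lit 2) true (nat_lit 5) true (nat_lit 6) (.e false (nat_lit 1) (nat_lit 69) (nat_lit 5) (nat_lit 4) (.e true (nat_lit 1) (nat_lit 71) (nat_lit 5) (nat_lit 4) (.e false (nat_lit 1) (nat_lit 36) (nat_lit 11) (nat_lit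 2) (.e true (nat_lit 1) (nat_lit 123) (nat_lit 1) (nat_lit 6) (.u (nat_lit 2) (.p (nat_lit 1) (nat_lit 1) .z) .nil))))))) (.nd (.nd .leaf (nat_lit 128000) (nat_lit 379) (.p (nat_lit 156) (nat_lit 3) (.n (nat_lit 157) (nat_lit 1) (.n (nat_lit 158) (nat_lit 3) (.n (nat_lit 159) (nat_lit 3) (.n (nat_lit 160) (nat_lit 3) (.p (nat_lit 161) (nat_lit 1) (.p (nat_lit 162) (nat_lit 1) (.p (nat_lit 163) (nat_lit 1) (.n (nat_lit 164) (nat_lit 2) (.n (nat_lit 165) (nat_lit 1) (.p (nat_lit 166) (nat_lit 2) (.n (nat_lit 168) (nat_lit 1) (.n (nat_lit 169) (nat_lit 2) .z))))))))))))) (.ct dD_c277 (nat_lit 1) (nat_lit 10) (.s false (nat_lit 1) (nat_lit 16) (nat_lit 0) (nat_lit 2) (nat_lit 5) true (nat_lit 3) true (nat_lit 5) true (nat_lit 0) true (nat_lit 10) true (nat_lit 8) (.s false (nat_lit 1) (nat_lit 16) (nat_lit 6) (nat_lit 0) (nat_lit 1) true (nat_lit 1) true (nat_lit 9) true (nat_lit 0)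 true (nat_lit 4) true (nat_lit 10) (.s false (nat_lit 1) (nat_lit 36) (nat_lit 0) (nat_lit 2) (nat_lit 1) true (nat_lit 7) true (nat_lit 9) false (nat_lit 3) true (nat_lit 10) true (nat_lit 8) (.e false (nat_lit 1) (nat_lit 36) (nat_lit 10) (nat_lit 3) dD_i39))))) .leaf) (nat_lit 128001) (nat_lit 412) (.p (nat_lit 175) (nat_lit 3) (.p (nat_lit 176) (nat_lit 1) (.n (nat_lit 177) (nat_lit 3) (.p (nat_lit 178) (nat_lit 1) (.p (nat_lit 179) (nat_lit 3) (.n (nat_lit 180) (nat_lit 1) .z)))))) (.ct dD_c37 (nat_lit 1) (nat_lit 6) (.s true (nat_lit 1) (nat_lit 6) (nat_lit 1) (nat_lit 6) (nat_lit 5) true (nat_lit 2) true (nat_lit 4) true (nat_lit 3) true (nat_lit 6) true (nat_lit 3) (.s true (nat_lit 2) (nat_lit 11) (nat_lit 6) (nat_lit 2) (nat_lit 2) true (nat_lit 0) true (nat_lit 5) true (nat_lit 2) true (nat_lit 3) true (nat_lit 5) (.s false (nat_lit 1) (nat_lit 14) (nat_lit 1) (nat_lit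 2) (nat_lit 6) true (nat_lit 1) true (nat_lit 3) true (nat_lit 1) true (nat_lit 6) true (nat_lit 5) (.s false (nat_lit 3) (nat_lit 15) (nat_lit 1) (nat_lit 2) (nat_lit 6) true (nat_lit 1) true (nat_lit 3) true (nat_lit 1) true (nat_lit 6) true (nat_lit 5) (.s true (nat_lit 1) (nat_lit 15) (nat_lit 5) (nat_lit 2) (nat_lit 2) true (nat_lit 1) true (nat_lit 5) true (nat_lit 1) true (nat_lit 4) true (nat_lit 5) (.s false (nat_lit 3) (nat_lit 16) (nat_lit 1) (nat_lit 1) (nat_lit 6) true (nat_lit 1) true (nat_lit 3) true (nat_lit 0) true (nat_lit 6) true (nat_lit 6) (.s false (nat_lit 1) (nat_lit 16) (nat_lit 1) (nat_lit 5) (nat_lit 2) true (nat_lit 4) true (nat_lit 5) true (nat_lit 0) true (nat_lit 6) true (nat_lit 4) (.s false (nat_lit 1) (nat_lit 35) (nat_lit 1) (nat_lit 2) (nat_lit 2) true (nat_lit 4) true (nat_lit 5) false (nat_lit 1) true (nat_lit 6) true (nat_lit 5) (.s true (nat_lit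 2) (nat_lit 34) (nat_lit 2) (nat_lit 1) (nat_lit 2) true (nat_lit 3) true (nat_lit 5) false (nat_lit 1) true (nat_lit 5) true (nat_lit 6) (.s false (nat_lit 2) (nat_lit 36) (nat_lit 1) (nat_lit 2) (nat_lit 1) false (nat_lit 7) true (nat_lit 6) false (nat_lit 2) true (nat_lit 6) true (nat_lit 5) (.e true (nat_lit 1) (nat_lit 59) (nat_lit 6) (nat_lit 3) (.e false (nat_lit 1) (nat_lit 27) (nat_lit 16) (nat_lit 0) (.e true (nat_lit 1) (nat_lit 111) (nat_lit 2) (nat_lit 5) (.e true (nat_lit 2) (nat_lit 113) (nat_lit 2) (nat_lit 5) (.e false (nat_lit 2) (nat_lit 114) (nat_lit 2) (nat_lit 5) (.e false (nat_lit 3) (nat_lit 110) (nat_lit 2) (nat_lit 5) (.u (nat_lit 2) (.p (nat_lit 18) (nat_lit 1) (.p (nat_lit 19) (nat_lit 1) (.p (nat_lit 27) (nat_lit 1) (.n (nat_lit 28) (nat_lit 2) (.p (nat_lit 29) (nat_lit 2) (.p (nat_lit 30) (nat_lit 5) (.p (nat_lit 31) (nat_lit 1) (.p (nat_lit 32) (nat_lit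 4) .z)))))))) .nil)))))))))))))))))) .leaf))))))

noncomputable def dD_t5 : Tr := (.nd dD_t3 (nat_lit 68609) (nat_lit 183) (.p (nat_lit 94) (nat_lit 2) (.p (nat_lit 95) (nat_lit 1) (.n (nat_lit 96) (nat_lit 1) (.n (nat_lit 97) (nat_lit 2) (.n (nat_lit 98) (nat_lit 2) (.n (nat_lit 101) (nat_lit 1) (.n (nat_lit 102) (nat_lit 1) (.p (nat_lit 103) (nat_lit 2) (.p (nat_lit 104) (nat_lit 1) (.p (nat_lit 105) (nat_lit 1) (.p (nat_lit 107) (nat_lit 1) (.p (nat_lit 109) (nat_lit 1) .z)))))))))))) (.ct dD_c276 (nat_lit 1) (nat_lit 7) (.s true (nat_lit 1) (nat_lit 16) (nat_lit 0) (nat_lit 1) (nat_lit 2) true (nat_lit 4) true (nat_lit 6) false (nat_lit 1) true (nat_lit 8) true (nat_lit 7) (.s true (nat_lit 1) (nat_lit 16) (nat_lit 2) (nat_lit 1) (nat_lit 0) true (nat_lit 4) true (nat_lit 8) false (nat_lit 1) true (nat_lit 6) true (nat_lit 7) (.e true (nat_lit 2) (nat_lit 48) (nat_lit 2) (nat_lit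 6) (.e true (nat_lit 2) (nat_lit 49) (nat_lit 2) (nat_lit 6) (.e false (nat_lit 1) (nat_lit 52) (nat_lit 2) (nat_lit 6) (.e true (nat_lit 2) (nat_lit 53) (nat_lit 2) (nat_lit 6) (.e false (nat_lit 1) (nat_lit 57) (nat_lit 2) (nat_lit 6) (.e true (nat_lit 1) (nat_lit 16) (nat_lit 8) (nat_lit 1) (.e false (nat_lit 1) (nat_lit 70) (nat_lit 0) (nat_lit 8) (.e false (nat_lit 1) (nat_lit 65) (nat_lit 1) (nat_lit 7) (.e false (nat_lit 1) (nat_lit 16) (nat_lit 10) (nat_lit 1) (.e false (nat_lit 1) (nat_lit 66) (nat_lit 1) (nat_lit 7) (.u (nat_lit 2) (.p (nat_lit 4) (nat_lit 1) (.p (nat_lit 5) (nat_lit 1) .z)) .nil)))))))))))))) dD_t4)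

noncomputable def dD_t6 : Tr := (.nd dD_t2 (nat_lit 35853) (nat_lit 384) (.p (nat_lit 156) (nat_lit 1) (.p (nat_lit 157) (nat_lit 3) (.p (nat_lit 158) (nat_lit 2) (.n (nat_lit 159) (nat_lit 2) (.n (nat_lit 161) (nat_lit 1) (.p (nat_lit 162) (nat_lit 3) (.p (nat_lit 163) (nat_lit 3) (.p (nat_lit 164) (nat_lit 1) (.n (nat_lit 165) (nat_lit 3) (.p (nat_lit 166) (nat_lit 2) (.p (nat_lit 168) (nat_lit 3) (.n (nat_lit 172) (nat_lit 1) (.p (nat_lit 174) (nat_lit 1) .z))))))))))))) (.ct dD_c277 (nat_lit 1) (nat_lit 2) (.s false (nat_lit 1) (nat_lit 16) (nat_lit 6) (nat_lit 1) (nat_lit 0) true (nat_lit 2) true (nat_lit 10) true (nat_lit 0) true (nat_lit 4) true (nat_lit 9) (.e true (nat_lit 2) (nat_lit 21) (nat_lit 16) (nat_lit 0) (.e true (nat_lit 1) (nat_lit 22) (nat_lit 16) (nat_lit 0) (.e false (nat_lit 1) (nat_lit 23) (nat_lit 16) (nat_lit 0) (.e false (nat_lit 1) (nat_lit 24) (nat_lit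 16) (nat_lit 0) (.e false (nat_lit 1) (nat_lit 25) (nat_lit 16) (nat_lit 0) (.e true (nat_lit 1) (nat_lit 26) (nat_lit 16) (nat_lit 0) (.e true (nat_lit 1) (nat_lit 49) (nat_lit 6) (nat_lit 4) (.e false (nat_lit 1) (nat_lit 50) (nat_lit 6) (nat_lit 4) (.e true (nat_lit 1) (nat_lit 51) (nat_lit 6) (nat_lit 4) (.e false (nat_lit 1) (nat_lit 53) (nat_lit 6) (nat_lit 4) (.e false (nat_lit 1) (nat_lit 56) (nat_lit 6) (nat_lit 4) (.e true (nat_lit 1) (nat_lit 120) (nat_lit 1) (nat_lit 9) (.u (nat_lit 2) (.n (nat_lit 1) (nat_lit 1) (.p (nat_lit 2) (nat_lit 1) (.n (nat_lit 5) (nat_lit 1) (.n (nat_lit 6) (nat_lit 1) (.n (nat_lit 7) (nat_lit 1) (.p (nat_lit 9) (nat_lit 2) (.n (nat_lit 10) (nat_lit 1) .z))))))) .nil))))))))))))))) dD_t5)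

noncomputable def dD_cl : CL := (.c (nat_lit 256) (nat_lit 0) (nat_lit 1) (.c (nat_lit 16) (nat_lit 1) (nat_lit 1) (.c (nat_lit 1) (nat_lit 2) (nat_lit 1) (.c (nat_lit 272) (nat_lit 3) (nat_lit 1) (.c (nat_lit 32) (nat_lit 2032) (nat_lit 0) (.c (nat_lit 257) (nat_lit 4) (nat_lit 1) (.c (nat_lit 17) (nat_lit 5) (nat_lit 1) (.c (nat_lit 2) (nat_lit 6) (nat_lit 1) (.c (nat_lit 288) (nat_lit 7) (nat_lit 1) (.c (nat_lit 273) (nat_lit 8) (nat_lit 3) (.c (nat_lit 33) (nat_lit 11) (nat_lit 1) (.c (nat_lit 258) (nat_lit 12) (nat_lit 2) (.c (nat_lit 18) (nat_lit 14) (nat_lit 2) (.c (nat_lit 3) (nat_lit 16) (nat_lit 1) (.c (nat_lit 289) (nat_lit 17) (nat_lit 4) (.c (nat_lit 274) (nat_lit 21) (nat_lit 6) (.c (nat_lit 34) (nat_lit 27) (nat_lit 3) (.c (nat_lit 259) (nat_lit 30) (nat_lit 3) (.c (nat_lit 19) (nat_lit 33) (nat_lit 3) (.c (nat_lit 4) (nat_lit 36) (nat_lit 1) (.c (nat_lit 290) (nat_lit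 37) (nat_lit 11) (.c (nat_lit 275) (nat_lit 48) (nat_lit 11) (.c (nat_lit 35) (nat_lit 59) (nat_lit 5) (.c (nat_lit 260) (nat_lit 64) (nat_lit 4) (.c (nat_lit 20) (nat_lit 68) (nat_lit 4) (.c (nat_lit 5) (nat_lit 72) (nat_lit 1) (.c (nat_lit 291) (nat_lit 73) (nat_lit 21) (.c (nat_lit 276) (nat_lit 94) (nat_lit 16) (.c (nat_lit 36) (nat_lit 110) (nat_lit 6) (.c (nat_lit 261) (nat_lit 116) (nat_lit 5) (.c (nat_lit 21) (nat_lit 121) (nat_lit 5) (.c (nat_lit 292) (nat_lit 126) (nat_lit 30) (.c (nat_lit 277) (nat_lit 156) (nat_lit 19) (.c (nat_lit 37) (nat_lit 175) (nat_lit 8) .nil))))))))))))))))))))))))))))))))))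

noncomputable def dD_D : Dt := ⟨(nat_lit 16777216), (nat_lit 8388608), (nat_lit 1), (nat_lit 183), (nat_lit 115249552852459452891408144192377950492193059082870319560857260237477477463116453551918533808854246130701485788207559112589433033428285262729721385675414028932417141035413401178003498884412406545260157831625437986853478861640226086921236503690215095882658611195393327580432351467625662791195111355723724883172572298818610464321593472126745705033328468711105027823480237075969654733376530906366671315237087561744949075552482849547579708882652787534663403208638398947307881042022589915059087339835275185990087466061754995644964031533996256343677740967172568124077267020577704786641341239869311561699592688280904931375085999093797277973295194686472858789074480076736392961072692777802807986648304621112822846072816861024341033328531702994490642631396823294902548888562470855571180257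4605488247561980902265460960427172084014201933710551441996437475643603026230486798543152221269217800456455988622187251684522494136859186355688631873839167068090754938743870364423347630543285293409397614264675265897452821038714293886893849529460571567722503892939377445417232285734612567454702760684539634480421549007739119852563576030311878645799914211561978968311919414706692293663394321521018382790010569552489681712779454772022665772371586764528058705372635383180669275368930222840154288701921047255013318806201163746271278707325133651973), (nat_lit 12259964235583258618672858829777265972615452360768950068), dD_t6, dD_cl⟩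

noncomputable def dD_gs : BL := (.c (nat_lit 30) (nat_lit 3) (nat_lit 27) (nat_lit 3) (nat_lit 0) (.c (nat_lit 33) (nat_lit 3) (nat_lit 21) (nat_lit 6) (nat_lit 9) (.c (nat_lit 36) (nat_lit 1) (nat_lit 17) (nat_lit 4) (nat_lit 27) (.c (nat_lit 37) (nat_lit 11) (nat_lit 16) (nat_lit 1) (nat_lit 31) (.c (nat_lit 48) (nat_lit 11) (nat_lit 14) (nat_lit 2) (nat_lit 42) (.c (nat_lit 59) (nat_lit 5) (nat_lit 12) (nat_lit 2) (nat_lit 64) (.c (nat_lit 64) (nat_lit 4) (nat_lit 11) (nat_lit 1) (nat_lit 74) (.c (nat_lit 68) (nat_lit 4) (nat_lit 8) (nat_lit 3) (nat_lit 78) (.c (nat_lit 72) (nat_lit 1) (nat_lit 7) (nat_lit 1) (nat_lit 90) (.c (nat_lit 73) (nat_lit 21) (nat_lit 6) (nat_lit 1) (nat_lit 91) (.c (nat_lit 94) (nat_lit 16) (nat_lit 5) (nat_lit 1) (nat_lit 112) (.c (nat_lit 110) (nat_lit 6) (nat_lit 4) (nat_lit 1) (nat_lit 128) (.c (nat_lit 121) (nat_lit 5) (nat_lit 3) (nat_lit 1)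 (nat_lit 134) (.c (nat_lit 126) (nat_lit 30) (nat_lit 2) (nat_lit 1) (nat_lit 139) (.c (nat_lit 156) (nat_lit 19) (nat_lit 1) (nat_lit 1) (nat_lit 169) (.c (nat_lit 175) (nat_lit 8) (nat_lit 0) (nat_lit 1) (nat_lit 188) (.c (nat_lit 2032) (nat_lit 0) (nat_lit 116) (nat_lit 5) (nat_lit 196) .nil)))))))))))))))))

noncomputable def dD_i40 : IL := (.s true (nat_lit 3) (nat_lit 49) (nat_lit 2) (nat_lit 1) (nat_lit 2) true (nat_lit 9) true (nat_lit 13) false (nat_lit 4) true (nat_lit 13) true (nat_lit 14) (.s true (nat_lit 2) (nat_lit 51) (nat_lit 2) (nat_lit 1) (nat_lit 2) true (nat_lit 9) true (nat_lit 13) false (nat_lit 4) true (nat_lit 13) true (nat_lit 14) (.s true (nat_lit 1) (nat_lit 52) (nat_lit 2) (nat_lit 1) (nat_lit 2) true (nat_lit 9) true (nat_lit 13) false (nat_lit 4) true (nat_lit 13) true (nat_lit 14) (.s true (nat_lit 3) (nat_lit 53) (nat_lit 2) (nat_lit 1) (nat_lit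 2) true (nat_lit 9) true (nat_lit 13) false (nat_lit 4) true (nat_lit 13) true (nat_lit 14) (.s false (nat_lit 2) (nat_lit 57) (nat_lit 2) (nat_lit 1) (nat_lit 2) true (nat_lit 9) true (nat_lit 13) false (nat_lit 4) true (nat_lit 13) true (nat_lit 14) (.s true (nat_lit 3) (nat_lit 48) (nat_lit 2) (nat_lit 2) (nat_lit 1) true (nat_lit 10) true (nat_lit 14) false (nat_lit 4) true (nat_lit 13) true (nat_lit 13) (.s false (nat_lit 1) (nat_lit 49) (nat_lit 2) (nat_lit 2) (nat_lit 1) true (nat_lit 10) true (nat_lit 14) false (nat_lit 4) true (nat_lit 13) true (nat_lit 13) (.s false (nat_lit 3) (nat_lit 51) (nat_lit 2) (nat_lit 2) (nat_lit 1) true (nat_lit 10) true (nat_lit 14) false (nat_lit 4) true (nat_lit 13) true (nat_lit 13) (.s true (nat_lit 1) (nat_lit 52) (nat_lit 2) (nat_lit 2) (nat_lit 1) true (nat_lit 10) true (nat_lit 14) false (nat_lit 4) true (nat_lit 13) true (nat_lit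 13) (.s false (nat_lit 3) (nat_lit 53) (nat_lit 2) (nat_lit 2) (nat_lit 1) true (nat_lit 10) true (nat_lit 14) false (nat_lit 4) true (nat_lit 13) true (nat_lit 13) (.s true (nat_lit 1) (nat_lit 57) (nat_lit 2) (nat_lit 2) (nat_lit 1) true (nat_lit 10) true (nat_lit 14) false (nat_lit 4) true (nat_lit 13) true (nat_lit 13) (.s false (nat_lit 1) (nat_lit 61) (nat_lit 0) (nat_lit 2) (nat_lit 2) true (nat_lit 11) true (nat_lit 13) false (nat_lit 5) true (nat_lit 15) true (nat_lit 13) (.s true (nat_lit 3) (nat_lit 63) (nat_lit 0) (nat_lit 2) (nat_lit 2) true (nat_lit 11) true (nat_lit 13) false (nat_lit 5) true (nat_lit 15) true (nat_lit 13) (.s true (nat_lit 3) (nat_lit 63) (nat_lit 2) (nat_lit 0) (nat_lit 2) true (nat_lit 9) true (nat_lit 13) false (nat_lit 5) true (nat_lit 13) true (nat_lit 15) (.s false (nat_lit 3) (nat_lit 61) (nat_lit 2) (nat_lit 2) (nat_lit 0) true (nat_lit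 11) true (nat_lit 15) false (nat_lit 5) true (nat_lit 13) true (nat_lit 13) (.s false (nat_lit 2) (nat_lit 63) (nat_lit 2) (nat_lit 2) (nat_lit 0) true (nat_lit 11) true (nat_lit 15) false (nat_lit 5) true (nat_lit 13) true (nat_lit 13) (.s true (nat_lit 1) (nat_lit 64) (nat_lit 1) (nat_lit 1) (nat_lit 2) true (nat_lit 10) true (nat_lit 13) false (nat_lit 6) true (nat_lit 14) true (nat_lit 14) (.s false (nat_lit 3) (nat_lit 67) (nat_lit 1) (nat_lit 1) (nat_lit 2) true (nat_lit 10) true (nat_lit 13) false (nat_lit 6) true (nat_lit 14) true (nat_lit 14) (.s false (nat_lit 1) (nat_lit 64) (nat_lit 2) (nat_lit 1) (nat_lit 1) true (nat_lit 10) true (nat_lit 14) false (nat_lit 6) true (nat_lit 13) true (nat_lit 14) (.s true (nat_lit 2) (nat_lit 69) (nat_lit 0) (nat_lit 2) (nat_lit 1) true (nat_lit 12) true (nat_lit 14) false (nat_lit 7) true (nat_lit 15) true (nat_lit 13) (.s true (nat_lit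 2) (nat_lit 70) (nat_lit 1) (nat_lit 2) (nat_lit 0) true (nat_lit 12) true (nat_lit 15) false (nat_lit 7) true (nat_lit 14) true (nat_lit 13) (.s false (nat_lit 2) (nat_lit 72) (nat_lit 1) (nat_lit 0) (nat_lit 1) false (nat_lit 16) true (nat_lit 14) false (nat_lit 8) true (nat_lit 14) true (nat_lit 15) (.s true (nat_lit 2) (nat_lit 72) (nat_lit 1) (nat_lit 1) (nat_lit 0) true (nat_lit 12) true (nat_lit 15) false (nat_lit 8) true (nat_lit 14) true (nat_lit 14) (.u (nat_lit 2) (.p (nat_lit 9) (nat_lit 1) (.p (nat_lit 10) (nat_lit 2) (.n (nat_lit 14) (nat_lit 2) (.p (nat_lit 17) (nat_lit 1) (.p (nat_lit 20) (nat_lit 1) (.p (nat_lit 23) (nat_lit 1) (.n (nat_lit 26) (nat_lit 1) (.p (nat_lit 31) (nat_lit 2) (.p (nat_lit 32) (nat_lit 1) (.p (nat_lit 35) (nat_lit 1) (.n (nat_lit 37) (nat_lit 1) (.n (nat_lit 39) (nat_lit 1) (.p (nat_lit 40) (nat_lit 1) (.p (nat_lit 41) (nat_lit 1) (.p (nat_lit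 47) (nat_lit 1) (.n (nat_lit 50) (nat_lit 1) (.n (nat_lit 51) (nat_lit 1) (.n (nat_lit 54) (nat_lit 1) (.n (nat_lit 56) (nat_lit 1) (.p (nat_lit 57) (nat_lit 1) (.n (nat_lit 58) (nat_lit 1) (.p (nat_lit 62) (nat_lit 1) (.p (nat_lit 69) (nat_lit 1) (.p (nat_lit 70) (nat_lit 1) (.n (nat_lit 71) (nat_lit 1) (.n (nat_lit 73) (nat_lit 1) (.p (nat_lit 78) (nat_lit 1) (.p (nat_lit 79) (nat_lit 1) (.p (nat_lit 80) (nat_lit 1) (.n (nat_lit 83) (nat_lit 1) (.n (nat_lit 84) (nat_lit 1) (.n (nat_lit 88) (nat_lit 1) (.n (nat_lit 91) (nat_lit 1) (.p (nat_lit 92) (nat_lit 1) (.p (nat_lit 94) (nat_lit 1) (.p (nat_lit 95) (nat_lit 4) (.n (nat_lit 96) (nat_lit 3) (.p (nat_lit 97) (nat_lit 1) (.n (nat_lit 98) (nat_lit 1) (.p (nat_lit 101) (nat_lit 1) (.n (nat_lit 102) (nat_lit 1) (.n (nat_lit 104) (nat_lit 1) (.n (nat_lit 108) (nat_lit 4) (.n (nat_lit 109) (nat_lit 4) (.p (nat_lit 110) (nat_lit 4)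 (.n (nat_lit 111) (nat_lit 1) (.n (nat_lit 112) (nat_lit 1) (.p (nat_lit 113) (nat_lit 2) (.n (nat_lit 114) (nat_lit 2) (.n (nat_lit 115) (nat_lit 2) (.p (nat_lit 117) (nat_lit 1) (.n (nat_lit 118) (nat_lit 1) (.n (nat_lit 119) (nat_lit 2) (.n (nat_lit 120) (nat_lit 2) (.n (nat_lit 121) (nat_lit 1) (.p (nat_lit 123) (nat_lit 1) (.p (nat_lit 125) (nat_lit 3) (.p (nat_lit 127) (nat_lit 1) (.p (nat_lit 128) (nat_lit 1) (.p (nat_lit 129) (nat_lit 3) .z)))))))))))))))))))))))))))))))))))))))))))))))))))))))))))) (.u (nat_lit 2) (.p (nat_lit 130) (nat_lit 1) (.p (nat_lit 131) (nat_lit 1) (.p (nat_lit 132) (nat_lit 1) (.p (nat_lit 135) (nat_lit 1) (.p (nat_lit 136) (nat_lit 2) (.p (nat_lit 138) (nat_lit 1) (.n (nat_lit 139) (nat_lit 12) (.n (nat_lit 140) (nat_lit 14) (.p (nat_lit 141) (nat_lit 5) (.n (nat_lit 142) (nat_lit 13) (.n (nat_lit 143) (nat_lit 4) (.p (nat_lit 144) (nat_lit 23)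 (.p (nat_lit 145) (nat_lit 5) (.n (nat_lit 146) (nat_lit 10) (.p (nat_lit 147) (nat_lit 15) (.n (nat_lit 148) (nat_lit 11) (.n (nat_lit 149) (nat_lit 11) (.p (nat_lit 150) (nat_lit 25) (.p (nat_lit 151) (nat_lit 14) (.n (nat_lit 152) (nat_lit 4) (.p (nat_lit 153) (nat_lit 11) (.p (nat_lit 154) (nat_lit 9) (.p (nat_lit 156) (nat_lit 3) (.p (nat_lit 157) (nat_lit 13) (.n (nat_lit 158) (nat_lit 6) (.n (nat_lit 159) (nat_lit 6) (.p (nat_lit 160) (nat_lit 18) (.p (nat_lit 161) (nat_lit 6) (.p (nat_lit 162) (nat_lit 19) (.p (nat_lit 163) (nat_lit 13) (.p (nat_lit 164) (nat_lit 8) (.p (nat_lit 165) (nat_lit 14) (.n (nat_lit 166) (nat_lit 8) (.p (nat_lit 167) (nat_lit 9) (.n (nat_lit 168) (nat_lit 23) (.p (nat_lit 169) (nat_lit 10) (.n (nat_lit 170) (nat_lit 3) (.n (nat_lit 171) (nat_lit 12) (.n (nat_lit 173) (nat_lit 12) (.p (nat_lit 174) (nat_lit 5) (.n (nat_lit 175) (nat_lit 1) (.p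 (nat_lit 176) (nat_lit 1) (.n (nat_lit 177) (nat_lit 4) (.n (nat_lit 178) (nat_lit 13) (.p (nat_lit 179) (nat_lit 2) (.n (nat_lit 182) (nat_lit 1) (.p (nat_lit 185) (nat_lit 1) (.n (nat_lit 186) (nat_lit 1) (.p (nat_lit 187) (nat_lit 2) (.n (nat_lit 188) (nat_lit 1) (.n (nat_lit 189) (nat_lit 2) (.p (nat_lit 190) (nat_lit 3) (.n (nat_lit 191) (nat_lit 1) (.n (nat_lit 192) (nat_lit 3) (.n (nat_lit 195) (nat_lit 1) .z))))))))))))))))))))))))))))))))))))))))))))))))))))))) .nil)))))))))))))))))))))))))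

noncomputable def dD_i41 : IL := (.s true (nat_lit 2) (nat_lit 33) (nat_lit 0) (nat_lit 5) (nat_lit 2) true (nat_lit 11) true (nat_lit 13) false (nat_lit 1) true (nat_lit 15) true (nat_lit 10) (.s true (nat_lit 2) (nat_lit 33) (nat_lit 2) (nat_lit 2) (nat_lit 3) true (nat_lit 7) true (nat_lit 12) false (nat_lit 1) true (nat_lit 13) true (nat_lit 13) (.s false (nat_lit 2) (nat_lit 34) (nat_lit 2) (nat_lit 3) (nat_lit 2) true (nat_lit 9) true (nat_lit 13) false (nat_lit 1) true (nat_lit 13) true (nat_lit 12) (.s false (nat_lit 3) (nat_lit 35) (nat_lit 2) (nat_lit 3) (nat_lit 2) true (nat_lit 9) true (nat_lit 13) false (nat_lit 1) true (nat_lit 13) true (nat_lit 12) (.s true (nat_lit 2) (nat_lit 33) (nat_lit 3) (nat_lit 2) (nat_lit 2) true (nat_lit 7) true (nat_lit 13) false (nat_lit 1) true (nat_lit 12) true (nat_lit 13) (.s true (nat_lit 3) (nat_lit 34) (nat_lit 3) (nat_lit 2)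 (nat_lit 2) true (nat_lit 7) true (nat_lit 13) false (nat_lit 1) true (nat_lit 12) true (nat_lit 13) (.s true (nat_lit 1) (nat_lit 35) (nat_lit 3) (nat_lit 2) (nat_lit 2) true (nat_lit 7) true (nat_lit 13) false (nat_lit 1) true (nat_lit 12) true (nat_lit 13) (.s false (nat_lit 3) (nat_lit 35) (nat_lit 4) (nat_lit 1) (nat_lit 2) true (nat_lit 5) true (nat_lit 13) false (nat_lit 1) true (nat_lit 11) true (nat_lit 14) (.s true (nat_lit 3) (nat_lit 35) (nat_lit 6) (nat_lit 1) (nat_lit 0) true (nat_lit 5) true (nat_lit 15) false (nat_lit 1) true (nat_lit 9) true (nat_lit 14) (.s false (nat_lit 2) (nat_lit 36) (nat_lit 0) (nat_lit 1) (nat_lit 5) true (nat_lit 7) true (nat_lit 10) false (nat_lit 2) true (nat_lit 15) true (nat_lit 14) (.s false (nat_lit 2) (nat_lit 36) (nat_lit 1) (nat_lit 4) (nat_lit 1) false (nat_lit 16) true (nat_lit 14) false (nat_lit 2) true (nat_lit 14) true (nat_lit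 11) (.s false (nat_lit 1) (nat_lit 36) (nat_lit 2) (nat_lit 1) (nat_lit 3) true (nat_lit 7) true (nat_lit 12) false (nat_lit 2) true (nat_lit 13) true (nat_lit 14) (.s false (nat_lit 3) (nat_lit 36) (nat_lit 4) (nat_lit 1) (nat_lit 1) true (nat_lit 7) true (nat_lit 14) false (nat_lit 2) true (nat_lit 11) true (nat_lit 14) (.s false (nat_lit 3) (nat_lit 41) (nat_lit 2) (nat_lit 2) (nat_lit 2) true (nat_lit 9) true (nat_lit 13) false (nat_lit 3) true (nat_lit 13) true (nat_lit 13) (.s true (nat_lit 1) (nat_lit 43) (nat_lit 2) (nat_lit 2) (nat_lit 2) true (nat_lit 9) true (nat_lit 13) false (nat_lit 3) true (nat_lit 13) true (nat_lit 13) (.s false (nat_lit 1) (nat_lit 44) (nat_lit 2) (nat_lit 2) (nat_lit 2) true (nat_lit 9) true (nat_lit 13) false (nat_lit 3) true (nat_lit 13) true (nat_lit 13) (.s true (nat_lit 2) (nat_lit 46) (nat_lit 2) (nat_lit 2) (nat_lit 2) true (nat_lit 9)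 true (nat_lit 13) false (nat_lit 3) true (nat_lit 13) true (nat_lit 13) (.s true (nat_lit 2) (nat_lit 47) (nat_lit 2) (nat_lit 2) (nat_lit 2) true (nat_lit 9) true (nat_lit 13) false (nat_lit 3) true (nat_lit 13) true (nat_lit 13) (.s true (nat_lit 2) (nat_lit 49) (nat_lit 1) (nat_lit 2) (nat_lit 2) true (nat_lit 10) true (nat_lit 13) false (nat_lit 4) true (nat_lit 14) true (nat_lit 13) (.s false (nat_lit 1) (nat_lit 50) (nat_lit 1) (nat_lit 2) (nat_lit 2) true (nat_lit 10) true (nat_lit 13) false (nat_lit 4) true (nat_lit 14) true (nat_lit 13) (.s true (nat_lit 3) (nat_lit 51) (nat_lit 1) (nat_lit 2) (nat_lit 2) true (nat_lit 10) true (nat_lit 13) false (nat_lit 4) true (nat_lit 14) true (nat_lit 13) (.s false (nat_lit 3) (nat_lit 53) (nat_lit 1) (nat_lit 2) (nat_lit 2) true (nat_lit 10) true (nat_lit 13) false (nat_lit 4) true (nat_lit 14) true (nat_lit 13) (.s true (nat_lit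 3) (nat_lit 55) (nat_lit 1) (nat_lit 2) (nat_lit 2) true (nat_lit 10) true (nat_lit 13) false (nat_lit 4) true (nat_lit 14) true (nat_lit 13) (.s true (nat_lit 3) (nat_lit 56) (nat_lit 1) (nat_lit 2) (nat_lit 2) true (nat_lit 10) true (nat_lit 13) false (nat_lit 4) true (nat_lit 14) true (nat_lit 13) (.s true (nat_lit 2) (nat_lit 48) (nat_lit 2) (nat_lit 1) (nat_lit 2) true (nat_lit 9) true (nat_lit 13) false (nat_lit 4) true (nat_lit 13) true (nat_lit 14) dD_i40)))))))))))))))))))))))))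

noncomputable def dD_i42 : IL := (.s false (nat_lit 1) (nat_lit 22) (nat_lit 1) (nat_lit 6) (nat_lit 2) true (nat_lit 10) true (nat_lit 13) true (nat_lit 1) true (nat_lit 14) true (nat_lit 9) (.s true (nat_lit 1) (nat_lit 23) (nat_lit 1) (nat_lit 6) (nat_lit 2) true (nat_lit 10) true (nat_lit 13) true (nat_lit 1) true (nat_lit 14) true (nat_lit 9) (.s false (nat_lit 3) (nat_lit 21) (nat_lit 2) (nat_lit 1) (nat_lit 6) true (nat_lit 3) true (nat_lit 9) true (nat_lit 1) true (nat_lit 13) true (nat_lit 14) (.s true (nat_lit 1) (nat_lit 23) (nat_lit 2) (nat_lit 1) (nat_lit 6) true (nat_lit 3) true (nat_lit 9) true (nat_lit 1) true (nat_lit 13) true (nat_lit 14) (.s true (nat_lit 1) (nat_lit 25) (nat_lit 2) (nat_lit 1) (nat_lit 6) true (nat_lit 3) true (nat_lit 9) true (nat_lit 1) true (nat_lit 13) true (nat_lit 14) (.s true (nat_lit 2) (nat_lit 26) (nat_lit 2) (nat_lit 1) (nat_lit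 6) true (nat_lit 3) true (nat_lit 9) true (nat_lit 1) true (nat_lit 13) true (nat_lit 14) (.s true (nat_lit 2) (nat_lit 21) (nat_lit 2) (nat_lit 2) (nat_lit 5) true (nat_lit 4) true (nat_lit 10) true (nat_lit 1) true (nat_lit 13) true (nat_lit 13) (.s true (nat_lit 3) (nat_lit 25) (nat_lit 2) (nat_lit 2) (nat_lit 5) true (nat_lit 4) true (nat_lit 10) true (nat_lit 1) true (nat_lit 13) true (nat_lit 13) (.s false (nat_lit 3) (nat_lit 26) (nat_lit 2) (nat_lit 2) (nat_lit 5) true (nat_lit 4) true (nat_lit 10) true (nat_lit 1) true (nat_lit 13) true (nat_lit 13) (.s false (nat_lit 1) (nat_lit 21) (nat_lit 2) (nat_lit 6) (nat_lit 1) true (nat_lit 10) true (nat_lit 14) true (nat_lit 1) true (nat_lit 13) true (nat_lit 9) (.s false (nat_lit 3) (nat_lit 21) (nat_lit 5) (nat_lit 2) (nat_lit 2) true (nat_lit 4) true (nat_lit 13) true (nat_lit 1) true (nat_lit 10) true (nat_lit 13) (.s false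 (nat_lit 3) (nat_lit 23) (nat_lit 5) (nat_lit 2) (nat_lit 2) true (nat_lit 4) true (nat_lit 13) true (nat_lit 1) true (nat_lit 10) true (nat_lit 13) (.s false (nat_lit 2) (nat_lit 24) (nat_lit 5) (nat_lit 2) (nat_lit 2) true (nat_lit 4) true (nat_lit 13) true (nat_lit 1) true (nat_lit 10) true (nat_lit 13) (.s false (nat_lit 3) (nat_lit 26) (nat_lit 6) (nat_lit 1) (nat_lit 2) true (nat_lit 3) true (nat_lit 13) true (nat_lit 1) true (nat_lit 9) true (nat_lit 14) (.s true (nat_lit 2) (nat_lit 21) (nat_lit 6) (nat_lit 2) (nat_lit 1) true (nat_lit 4) true (nat_lit 14) true (nat_lit 1) true (nat_lit 9) true (nat_lit 13) (.s true (nat_lit 1) (nat_lit 25) (nat_lit 6) (nat_lit 2) (nat_lit 1) true (nat_lit 4) true (nat_lit 14) true (nat_lit 1) true (nat_lit 9) true (nat_lit 13) (.s false (nat_lit 1) (nat_lit 29) (nat_lit 0) (nat_lit 2) (nat_lit 6) true (nat_lit 5) true (nat_lit 9) true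 (nat_lit 0) true (nat_lit 15) true (nat_lit 13) (.s true (nat_lit 1) (nat_lit 29) (nat_lit 2) (nat_lit 2) (nat_lit 4) true (nat_lit 5) true (nat_lit 11) true (nat_lit 0) true (nat_lit 13) true (nat_lit 13) (.s false (nat_lit 1) (nat_lit 29) (nat_lit 2) (nat_lit 6) (nat_lit 0) true (nat_lit 11) true (nat_lit 15) true (nat_lit 0) true (nat_lit 13) true (nat_lit 9) (.s false (nat_lit 3) (nat_lit 29) (nat_lit 6) (nat_lit 2) (nat_lit 0) true (nat_lit 5) true (nat_lit 15) true (nat_lit 0) true (nat_lit 9) true (nat_lit 13) (.s false (nat_lit 1) (nat_lit 30) (nat_lit 1) (nat_lit 2) (nat_lit 5) true (nat_lit 6) true (nat_lit 10) false (nat_lit 0) true (nat_lit 14) true (nat_lit 13) (.s true (nat_lit 1) (nat_lit 30) (nat_lit 1) (nat_lit 5) (nat_lit 2) true (nat_lit 10) true (nat_lit 13) false (nat_lit 0) true (nat_lit 14) true (nat_lit 10) (.s true (nat_lit 3) (nat_lit 32) (nat_lit 1) (nat_lit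 6) (nat_lit 1) false (nat_lit 16) true (nat_lit 14) false (nat_lit 0) true (nat_lit 14) true (nat_lit 9) (.s false (nat_lit 1) (nat_lit 30) (nat_lit 2) (nat_lit 1) (nat_lit 5) true (nat_lit 4) true (nat_lit 10) false (nat_lit 0) true (nat_lit 13) true (nat_lit 14) (.s true (nat_lit 1) (nat_lit 30) (nat_lit 5) (nat_lit 1) (nat_lit 2) true (nat_lit 4) true (nat_lit 13) false (nat_lit 0) true (nat_lit 10) true (nat_lit 14) dD_i41)))))))))))))))))))))))))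

noncomputable def dD_i43 : IL := (.s false (nat_lit 1) (nat_lit 16) (nat_lit 1) (nat_lit 10) (nat_lit 2) true (nat_lit 10) true (nat_lit 13) true (nat_lit 3) true (nat_lit 14) true (nat_lit 7) (.s true (nat_lit 3) (nat_lit 16) (nat_lit 1) (nat_lit 12) (nat_lit 1) false (nat_lit 16) true (nat_lit 14) true (nat_lit 3) true (nat_lit 14) true (nat_lit 5) (.s true (nat_lit 3) (nat_lit 16) (nat_lit 2) (nat_lit 1) (nat_lit 8) true (nat_lit 1) true (nat_lit 7) true (nat_lit 3) true (nat_lit 13) true (nat_lit 14) (.s false (nat_lit 3) (nat_lit 16) (nat_lit 2) (nat_lit 1) (nat_lit 9) true (nat_lit 1) true (nat_lit 7) true (nat_lit 3) true (nat_lit 13) true (nat_lit 14) (.s false (nat_lit 2) (nat_lit 16) (nat_lit 2) (nat_lit 2) (nat_lit 7) true (nat_lit 2) true (nat_lit 8) true (nat_lit 3) true (nat_lit 13) true (nat_lit 13) (.s false (nat_lit 1) (nat_lit 16) (nat_lit 2) (nat_lit 3) (nat_lit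 5) true (nat_lit 4) true (nat_lit 10) true (nat_lit 3) true (nat_lit 13) true (nat_lit 12) (.s false (nat_lit 3) (nat_lit 16) (nat_lit 2) (nat_lit 9) (nat_lit 1) true (nat_lit 10) true (nat_lit 14) true (nat_lit 3) true (nat_lit 13) true (nat_lit 7) (.s false (nat_lit 3) (nat_lit 16) (nat_lit 3) (nat_lit 1) (nat_lit 6) true (nat_lit 1) true (nat_lit 9) true (nat_lit 3) true (nat_lit 12) true (nat_lit 14) (.s false (nat_lit 3) (nat_lit 16) (nat_lit 3) (nat_lit 2) (nat_lit 5) true (nat_lit 2) true (nat_lit 10) true (nat_lit 3) true (nat_lit 12) true (nat_lit 13) (.s false (nat_lit 2) (nat_lit 16) (nat_lit 5) (nat_lit 4) (nat_lit 1) true (nat_lit 6) true (nat_lit 14) true (nat_lit 3) true (nat_lit 10) true (nat_lit 11) (.s true (nat_lit 1) (nat_lit 16) (nat_lit 7) (nat_lit 2) (nat_lit 2) true (nat_lit 2) true (nat_lit 13) true (nat_lit 3) true (nat_lit 8) true (nat_lit 13) (.s true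 (nat_lit 2) (nat_lit 16) (nat_lit 8) (nat_lit 2) (nat_lit 1) true (nat_lit 2) true (nat_lit 14) true (nat_lit 3) true (nat_lit 7) true (nat_lit 13) (.s true (nat_lit 3) (nat_lit 16) (nat_lit 12) (nat_lit 1) (nat_lit 1) true (nat_lit 1) true (nat_lit 14) true (nat_lit 3) true (nat_lit 5) true (nat_lit 14) (.s false (nat_lit 1) (nat_lit 16) (nat_lit 13) (nat_lit 1) (nat_lit 1) true (nat_lit 1) true (nat_lit 14) true (nat_lit 3) true (nat_lit 5) true (nat_lit 14) (.s true (nat_lit 2) (nat_lit 16) (nat_lit 15) (nat_lit 1) (nat_lit 0) true (nat_lit 1) true (nat_lit 15) true (nat_lit 3) true (nat_lit 4) true (nat_lit 14) (.s true (nat_lit 1) (nat_lit 17) (nat_lit 2) (nat_lit 2) (nat_lit 6) true (nat_lit 3) true (nat_lit 9) true (nat_lit 2) true (nat_lit 13) true (nat_lit 13) (.s false (nat_lit 1) (nat_lit 18) (nat_lit 2) (nat_lit 2) (nat_lit 6) true (nat_lit 3) true (nat_lit 9) true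 (nat_lit 2) true (nat_lit 13) true (nat_lit 13) (.s true (nat_lit 3) (nat_lit 19) (nat_lit 2) (nat_lit 2) (nat_lit 6) true (nat_lit 3) true (nat_lit 9) true (nat_lit 2) true (nat_lit 13) true (nat_lit 13) (.s false (nat_lit 3) (nat_lit 20) (nat_lit 2) (nat_lit 2) (nat_lit 6) true (nat_lit 3) true (nat_lit 9) true (nat_lit 2) true (nat_lit 13) true (nat_lit 13) (.s false (nat_lit 1) (nat_lit 18) (nat_lit 2) (nat_lit 6) (nat_lit 2) true (nat_lit 9) true (nat_lit 13) true (nat_lit 2) true (nat_lit 13) true (nat_lit 9) (.s true (nat_lit 2) (nat_lit 19) (nat_lit 2) (nat_lit 6) (nat_lit 2) true (nat_lit 9) true (nat_lit 13) true (nat_lit 2) true (nat_lit 13) true (nat_lit 9) (.s false (nat_lit 1) (nat_lit 17) (nat_lit 6) (nat_lit 2) (nat_lit 2) true (nat_lit 3) true (nat_lit 13) true (nat_lit 2) true (nat_lit 9) true (nat_lit 13) (.s false (nat_lit 3) (nat_lit 18) (nat_lit 6) (nat_lit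 2) (nat_lit 2) true (nat_lit 3) true (nat_lit 13) true (nat_lit 2) true (nat_lit 9) true (nat_lit 13) (.s true (nat_lit 1) (nat_lit 19) (nat_lit 6) (nat_lit 2) (nat_lit 2) true (nat_lit 3) true (nat_lit 13) true (nat_lit 2) true (nat_lit 9) true (nat_lit 13) (.s true (nat_lit 2) (nat_lit 24) (nat_lit 1) (nat_lit 2) (nat_lit 6) true (nat_lit 4) true (nat_lit 9) true (nat_lit 1) true (nat_lit 14) true (nat_lit 13) dD_i42)))))))))))))))))))))))))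

noncomputable def dD_i44 : IL := (.s true (nat_lit 1) (nat_lit 8) (nat_lit 5) (nat_lit 2) (nat_lit 6) false (nat_lit 1) true (nat_lit 9) true (nat_lit 7) true (nat_lit 10) true (nat_lit 13) (.s false (nat_lit 3) (nat_lit 9) (nat_lit 5) (nat_lit 6) (nat_lit 2) true (nat_lit 4) true (nat_lit 13) true (nat_lit 7) true (nat_lit 10) true (nat_lit 9) (.s true (nat_lit 2) (nat_lit 10) (nat_lit 6) (nat_lit 1) (nat_lit 6) false (nat_lit 2) true (nat_lit 9) true (nat_lit 7) true (nat_lit 9) true (nat_lit 14) (.s false (nat_lit 1) (nat_lit 9) (nat_lit 6) (nat_lit 5) (nat_lit 2) true (nat_lit 3) true (nat_lit 13) true (nat_lit 7) true (nat_lit 9) true (nat_lit 10) (.s false (nat_lit 1) (nat_lit 10) (nat_lit 6) (nat_lit 5) (nat_lit 2) true (nat_lit 3) true (nat_lit 13) true (nat_lit 7) true (nat_lit 9) true (nat_lit 10) (.s true (nat_lit 2) (nat_lit 8) (nat_lit 6) (nat_lit 6) (nat_lit 1) true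 (nat_lit 4) true (nat_lit 14) true (nat_lit 7) true (nat_lit 9) true (nat_lit 9) (.s true (nat_lit 1) (nat_lit 10) (nat_lit 6) (nat_lit 6) (nat_lit 1) true (nat_lit 4) true (nat_lit 14) true (nat_lit 7) true (nat_lit 9) true (nat_lit 9) (.s true (nat_lit 2) (nat_lit 13) (nat_lit 5) (nat_lit 5) (nat_lit 2) true (nat_lit 4) true (nat_lit 13) true (nat_lit 5) true (nat_lit 10) true (nat_lit 10) (.s true (nat_lit 2) (nat_lit 14) (nat_lit 0) (nat_lit 2) (nat_lit 14) true (nat_lit 1) true (nat_lit 4) true (nat_lit 4) true (nat_lit 15) true (nat_lit 13) (.s true (nat_lit 1) (nat_lit 14) (nat_lit 0) (nat_lit 14) (nat_lit 2) true (nat_lit 11) true (nat_lit 13) true (nat_lit 4) true (nat_lit 15) true (nat_lit 4) (.s false (nat_lit 2) (nat_lit 15) (nat_lit 2) (nat_lit 0) (nat_lit 15) false (nat_lit 1) true (nat_lit 4) true (nat_lit 4) true (nat_lit 13) true (nat_lit 15) (.s false (nat_lit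 3) (nat_lit 14) (nat_lit 2) (nat_lit 2) (nat_lit 8) true (nat_lit 1) true (nat_lit 7) true (nat_lit 4) true (nat_lit 13) true (nat_lit 13) (.s false (nat_lit 2) (nat_lit 14) (nat_lit 2) (nat_lit 2) (nat_lit 9) true (nat_lit 1) true (nat_lit 7) true (nat_lit 4) true (nat_lit 13) true (nat_lit 13) (.s true (nat_lit 1) (nat_lit 15) (nat_lit 2) (nat_lit 2) (nat_lit 8) true (nat_lit 1) true (nat_lit 7) true (nat_lit 4) true (nat_lit 13) true (nat_lit 13) (.s true (nat_lit 1) (nat_lit 15) (nat_lit 2) (nat_lit 2) (nat_lit 9) true (nat_lit 1) true (nat_lit 7) true (nat_lit 4) true (nat_lit 13) true (nat_lit 13) (.s false (nat_lit 2) (nat_lit 15) (nat_lit 2) (nat_lit 2) (nat_lit 10) true (nat_lit 1) true (nat_lit 7) true (nat_lit 4) true (nat_lit 13) true (nat_lit 13) (.s false (nat_lit 2) (nat_lit 14) (nat_lit 2) (nat_lit 3) (nat_lit 6) true (nat_lit 3) true (nat_lit 9) true (nat_lit 4)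 true (nat_lit 13) true (nat_lit 12) (.s false (nat_lit 2) (nat_lit 14) (nat_lit 2) (nat_lit 9) (nat_lit 2) true (nat_lit 9) true (nat_lit 13) true (nat_lit 4) true (nat_lit 13) true (nat_lit 7) (.s true (nat_lit 1) (nat_lit 15) (nat_lit 2) (nat_lit 8) (nat_lit 2) true (nat_lit 9) true (nat_lit 13) true (nat_lit 4) true (nat_lit 13) true (nat_lit 7) (.s true (nat_lit 1) (nat_lit 14) (nat_lit 8) (nat_lit 2) (nat_lit 2) true (nat_lit 1) true (nat_lit 13) true (nat_lit 4) true (nat_lit 7) true (nat_lit 13) (.s true (nat_lit 3) (nat_lit 14) (nat_lit 10) (nat_lit 2) (nat_lit 2) true (nat_lit 1) true (nat_lit 13) true (nat_lit 4) true (nat_lit 7) true (nat_lit 13) (.s false (nat_lit 1) (nat_lit 16) (nat_lit 1) (nat_lit 0) (nat_lit 15) true (nat_lit 0) true (nat_lit 4) true (nat_lit 3) true (nat_lit 14) true (nat_lit 15) (.s false (nat_lit 2) (nat_lit 16) (nat_lit 1) (nat_lit 1) (nat_lit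 13) true (nat_lit 1) true (nat_lit 5) true (nat_lit 3) true (nat_lit 14) true (nat_lit 14) (.s true (nat_lit 2) (nat_lit 16) (nat_lit 1) (nat_lit 3) (nat_lit 6) true (nat_lit 4) true (nat_lit 9) true (nat_lit 3) true (nat_lit 14) true (nat_lit 12) (.s true (nat_lit 2) (nat_lit 16) (nat_lit 1) (nat_lit 4) (nat_lit 5) true (nat_lit 6) true (nat_lit 10) true (nat_lit 3) true (nat_lit 14) true (nat_lit 11) dD_i43)))))))))))))))))))))))))

noncomputable def dD_il : IL := (.s true (nat_lit 1) (nat_lit 6) (nat_lit 3) (nat_lit 6) (nat_lit 5) true (nat_lit 2) true (nat_lit 10) true (nat_lit 9) true (nat_lit 12) true (nat_lit 9) (.s true (nat_lit 2) (nat_lit 7) (nat_lit 2) (nat_lit 6) (nat_lit 6) true (nat_lit 3) true (nat_lit 9) true (nat_lit 8) true (nat_lit 13) true (nat_lit 9) (.s false (nat_lit 3) (nat_lit 7) (nat_lit 6) (nat_lit 2) (nat_lit 6) false (nat_lit 2) true (nat_lit 9) true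 (nat_lit 8) true (nat_lit 9) true (nat_lit 13) (.s true (nat_lit 2) (nat_lit 8) (nat_lit 1) (nat_lit 6) (nat_lit 6) true (nat_lit 4) true (nat_lit 9) true (nat_lit 7) true (nat_lit 14) true (nat_lit 9) (.s false (nat_lit 3) (nat_lit 9) (nat_lit 1) (nat_lit 6) (nat_lit 6) true (nat_lit 4) true (nat_lit 9) true (nat_lit 7) true (nat_lit 14) true (nat_lit 9) dD_i44)))))

theorem dD_chk : chk 5 ids7 dD_D par1 (clsL [0,0,0,0,0,2,1,1]) zDEx (.c (nat_lit 2) (nat_lit 1) (.c (nat_lit 2) (nat_lit 1) (.c (nat_lit 2) (nat_lit 1) (.c (nat_lit 2) (nat_lit 1) (.c (nat_lit 2) (nat_lit 1) (.c (nat_lit 0) (nat_lit 256) (.c (nat_lit 1) (nat_lit 16) (.c (nat_lit 1) (nat_lit 16) .nil)))))))) (nat_lit 427) (nat_lit 293) (nat_lit 1) dD_gs dD_il = true := by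
  decide +kernel

end Chk7

/-- certificate of `zDEx` -/
theorem cert_zDEx : Cert.{u} 5 ids7 par1 (clsL [0,0,0,0,0,2,1,1]) zDEx :=
  Chk7.chk_sound _ _ (by simp [ids7]) (by simp [ids7]) _ _ _ _ _ _ _ _ _ _ Chk7.dD_chk

end Pool.Agent.MalP
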