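import Pool.Agent.MalP.P7.Chk4
import Pool.Agent.MalP.P7.Ex7

/-! # Certificate of zR1Ex -/

set_option autoImplicit false
set_option maxRecDepth 100000

namespace Pool.Agent.MalP

universe u

namespace Chk7

noncomputable def dR1_c49 : Cm := .mk (nat_lit 9) (nat_lit 49) (nat_lit 11) (nat_lit 3) (.c (nat_lit 3) (nat_lit 1) (nat_lit 2) (nat_lit 1) (nat_lit 3) (.c (nat_lit 5) (nat_lit 1) (nat_lit 1) (nat_lit 1) (nat_lit 4) (.c (nat_lit 6) (nat_lit 2) (nat_lit 0) (nat_lit 1) (nat_lit 5) .nil)))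

noncomputable def dR1_c34 : Cm := .mk (nat_lit 13) (nat_lit 34) (nat_lit 14) (nat_lit 3) (.c (nat_lit 3) (nat_lit 1) (nat_lit 3) (nat_lit 1) (nat_lit 3) (.c (nat_lit 4) (nat_lit 1) (nat_lit 2) (nat_lit 1) (nat_lit 4) (.c (nat_lit 6) (nat_lit 2) (nat_lit 1) (nat_lit 1) (nat_lit 5) (.c (nat_lit 8) (nat_lit 2) (nat_lit 0) (nat_lit 1) (nat_lit 7) .nil))))

noncomputable def dR1_c19 : Cm := .mk (nat_lit 18) (nat_lit 19) (nat_lit 17) (nat_lit 3) (.c (nat_lit 4) (nat_lit 1) (nat_lit 3) (nat_lit 1) (nat_lit 3) (.c (nat_lit 8) (nat_lit 2) (nat_lit 1) (nat_lit 1) (nat_lit 4) (.c (nat_lit 10) (nat_lit 1) (nat_lit 0) (nat_lit 1) (nat_lit 6) .nil)))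

noncomputable def dR1_c50 : Cm := .mk (nat_lit 23) (nat_lit 50) (nat_lit 21) (nat_lit 6) (.c (nat_lit 5) (nat_lit 1) (nat_lit 4) (nat_lit 1) (nat_lit 6) (.c (nat_lit 6) (nat_lit 2) (nat_lit 3) (nat_lit 1) (nat_lit 7) (.c (nat_lit 8) (nat_lit 2) (nat_lit 2) (nat_lit 1) (nat_lit 9) (.c (nat_lit 11) (nat_lit 3) (nat_lit 1) (nat_lit 1) (nat_lit 11) (.c (nat_lit 14) (nat_lit 3) (nat_lit 0) (nat_lit 1) (nat_lit 14) .nil)))))

noncomputable def dR1_c35 : Cm := .mk (nat_lit 34) (nat_lit 35) (nat_lit 27) (nat_lit 6) (.c (nat_lit 6) (nat_lit 2) (nat_lit 4) (nat_lit 1) (nat_lit 6) (.c (nat_lit 8) (nat_lit 2) (nat_lit 3) (nat_lit 1) (nat_lit 8) (.c (nat_lit 10) (nat_lit 1) (nat_lit 2) (nat_lit 1) (nat_lit 10) (.c (nat_lit 14) (nat_lit 3) (nat_lit 1) (nat_lit 1) (nat_lit 11) (.c (nat_lit 17) (nat_lit 3) (nat_lit 0) (nat_lit 1) (nat_lit 14) .nil)))))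

noncomputable def dR1_c51 : Cm := .mk (nat_lit 54) (nat_lit 51) (nat_lit 38) (nat_lit 11) (.c (nat_lit 8) (nat_lit 2) (nat_lit 6) (nat_lit 2) (nat_lit 11) (.c (nat_lit 10) (nat_lit 1) (nat_lit 5) (nat_lit 1) (nat_lit 15) (.c (nat_lit 11) (nat_lit 3) (nat_lit 4) (nat_lit 1) (nat_lit 16) (.c (nat_lit 14) (nat_lit 3) (nat_lit 3) (nat_lit 1) (nat_lit 19) (.c (nat_lit 17) (nat_lit 3) (nat_lit 2) (nat_lit 1) (nat_lit 22) (.c (nat_lit 21) (nat_lit 6) (nat_lit 1) (nat_lit 1) (nat_lit 25) (.c (nat_lit 27) (nat_lit 6) (nat_lit 0) (nat_lit 1) (nat_lit 31) .nil)))))))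

noncomputable def dR1_c36 : Cm := .mk (nat_lit 80) (nat_lit 36) (nat_lit 49) (nat_lit 10) (.c (nat_lit 8) (nat_lit 2) (nat_lit 8) (nat_lit 2) (nat_lit 10) (.c (nat_lit 10) (nat_lit 1) (nat_lit 6) (nat_lit 2) (nat_lit 14) (.c (nat_lit 14) (nat_lit 3) (nat_lit 4) (nat_lit 1) (nat_lit 16) (.c (nat_lit 17) (nat_lit 3) (nat_lit 3) (nat_lit 1) (nat_lit 19) (.c (nat_lit 20) (nat_lit 1) (nat_lit 2) (nat_lit 1) (nat_lit 22) (.c (nat_lit 27) (nat_lit 6) (nat_lit 1) (nat_lit 1) (nat_lit 23) (.c (nat_lit 33) (nat_lit 4) (nat_lit 0) (nat_lit 1) (nat_lit 29) .nil)))))))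

noncomputable def dR1_c20 : Cm := .mk (nat_lit 45) (nat_lit 20) (nat_lit 33) (nat_lit 4) (.c (nat_lit 8) (nat_lit 2) (nat_lit 4) (nat_lit 1) (nat_lit 4) (.c (nat_lit 10) (nat_lit 1) (nat_lit 3) (nat_lit 1) (nat_lit 6) (.c (nat_lit 17) (nat_lit 3) (nat_lit 1) (nat_lit 1) (nat_lit 7) (.c (nat_lit 20) (nat_lit 1) (nat_lit 0) (nat_lit 1) (nat_lit 10) .nil))))

noncomputable def dR1_c5 : Cm := .mk (nat_lit 52) (nat_lit 5) (nat_lit 37) (nat_lit 1) (.c (nat_lit 10) (nat_lit 1) (nat_lit 4) (nat_lit 1) (nat_lit 1) (.c (nat_lit 20) (nat_lit 1) (nat_lit 1) (nat_lit 1) (nat_lit 2) .nil))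

noncomputable def dR1_c21 : Cm := .mk (nat_lit 102) (nat_lit 21) (nat_lit 59) (nat_lit 5) (.c (nat_lit 10) (nat_lit 1) (nat_lit 8) (nat_lit 2) (nat_lit 5) (.c (nat_lit 17) (nat_lit 3) (nat_lit 4) (nat_lit 1) (nat_lit 7) (.c (nat_lit 20) (nat_lit 1) (nat_lit 3) (nat_lit 1) (nat_lit 10) (.c (nat_lit 33) (nat_lit 4) (nat_lit 1) (nat_lit 1) (nat_lit 11) (.c (nat_lit 37) (nat_lit 1) (nat_lit 0) (nat_lit 1) (nat_lit 15) .nil)))))

noncomputable def dR1_c52 : Cm := .mk (nat_lit 113) (nat_lit 52) (nat_lit 64) (nat_lit 16) (.c (nat_lit 11) (nat_lit 3) (nat_lit 10) (nat_lit 1) (nat_lit 16) (.c (nat_lit 14) (nat_lit 3) (nat_lit 8) (nat_lit 2) (nat_lit 19) (.c (nat_lit 17) (nat_lit 3) (nat_lit 6) (nat_lit 2) (nat_lit 25) (.c (nat_lit 20) (nat_lit 1) (nat_lit 5) (nat_lit 1) (nat_lit 31) (.c (nat_lit 21) (nat_lit 6) (nat_lit 4) (nat_lit 1) (nat_lit 32) (.c (nat_lit 27) (nat_lit 6)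 (nat_lit 3) (nat_lit 1) (nat_lit 38) (.c (nat_lit 33) (nat_lit 4) (nat_lit 2) (nat_lit 1) (nat_lit 44) (.c (nat_lit 38) (nat_lit 11) (nat_lit 1) (nat_lit 1) (nat_lit 48) (.c (nat_lit 49) (nat_lit 10) (nat_lit 0) (nat_lit 1) (nat_lit 59) .nil)))))))))

noncomputable def dR1_c37 : Cm := .mk (nat_lit 163) (nat_lit 37) (nat_lit 80) (nat_lit 11) (.c (nat_lit 14) (nat_lit 3) (nat_lit 10) (nat_lit 1) (nat_lit 11) (.c (nat_lit 17) (nat_lit 3) (nat_lit 8) (nat_lit 2) (nat_lit 14) (.c (nat_lit 20) (nat_lit 1) (nat_lit 6) (nat_lit 2) (nat_lit 20) (.c (nat_lit 27) (nat_lit 6) (nat_lit 4) (nat_lit 1) (nat_lit 22) (.c (nat_lit 33) (nat_lit 4) (nat_lit 3) (nat_lit 1) (nat_lit 28) (.c (nat_lit 37) (nat_lit 1) (nat_lit 2) (nat_lit 1) (nat_lit 32) (.c (nat_lit 49) (nat_lit 10) (nat_lit 1) (nat_lit 1) (nat_lit 33) (.c (nat_lit 59) (nat_lit 5) (nat_lit 0) (nat_lit 1) (nat_lit 43) .nil))))))))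

noncomputable def dR1_i0 : IL := (.s true (nat_lit 1) (nat_lit 15) (nat_lit 1) (nat_lit 0) (nat_lit 1) true (nat_lit 4) true (nat_lit 7) false (nat_lit 1) true (nat_lit 7) true (nat_lit 8) (.s false (nat_lit 1) (nat_lit 15) (nat_lit 1) (nat_lit 1) (nat_lit 0) true (nat_lit 5) true (nat_lit 8) false (nat_lit 1) true (nat_lit 7) true (nat_lit 7) (.s true (nat_lit 1) (nat_lit 16) (nat_lit 1) (nat_lit 1) (nat_lit 0) true (nat_lit 5) true (nat_lit 8) false (nat_lit 1) true (nat_lit 7) true (nat_lit 7) (.s true (nat_lit 1) (nat_lit 18) (nat_lit 0) (nat_lit 1) (nat_lit 0) true (nat_lit 6) true (nat_lit 8) false (nat_lit 2) true (nat_lit 8) true (nat_lit 7) (.s false (nat_lit 1) (nat_lit 19) (nat_lit 0) (nat_lit 1) (nat_lit 0) true (nat_lit 6) true (nat_lit 8) false (nat_lit 2) true (nat_lit 8) true (nat_lit 7) (.s true (nat_lit 3) (nat_lit 20) (nat_lit 0) (nat_lit 0) (nat_lit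 0) true (nat_lit 6) true (nat_lit 8) false (nat_lit 3) true (nat_lit 8) true (nat_lit 8) (.e true (nat_lit 3) (nat_lit 38) (nat_lit 1) (nat_lit 7) (.e true (nat_lit 1) (nat_lit 39) (nat_lit 1) (nat_lit 7) (.e false (nat_lit 2) (nat_lit 40) (nat_lit 1) (nat_lit 7) (.e true (nat_lit 3) (nat_lit 41) (nat_lit 1) (nat_lit 7) (.e true (nat_lit 2) (nat_lit 42) (nat_lit 1) (nat_lit 7) (.e false (nat_lit 2) (nat_lit 43) (nat_lit 1) (nat_lit 7) (.e true (nat_lit 2) (nat_lit 44) (nat_lit 1) (nat_lit 7) (.e false (nat_lit 1) (nat_lit 45) (nat_lit 1) (nat_lit 7) (.e true (nat_lit 1) (nat_lit 46) (nat_lit 1) (nat_lit 7) (.e false (nat_lit 1) (nat_lit 21) (nat_lit 4) (nat_lit 4) (.e true (nat_lit 1) (nat_lit 22) (nat_lit 4) (nat_lit 4) (.e false (nat_lit 2) (nat_lit 50) (nat_lit 0) (nat_lit 8) (.e true (nat_lit 1) (nat_lit 52) (nat_lit 0) (nat_lit 8) (.e false (nat_lit 1) (nat_lit 30)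 (nat_lit 3) (nat_lit 5) (.e true (nat_lit 1) (nat_lit 11) (nat_lit 10) (nat_lit 0) (.e false (nat_lit 1) (nat_lit 12) (nat_lit 10) (nat_lit 0) (.e false (nat_lit 1) (nat_lit 56) (nat_lit 0) (nat_lit 8) (.e true (nat_lit 1) (nat_lit 57) (nat_lit 0) (nat_lit 8) (.u (nat_lit 2) (.p (nat_lit 0) (nat_lit 1) (.n (nat_lit 2) (nat_lit 1) (.n (nat_lit 3) (nat_lit 1) (.p (nat_lit 5) (nat_lit 1) (.n (nat_lit 6) (nat_lit 1) (.p (nat_lit 16) (nat_lit 1) (.n (nat_lit 17) (nat_lit 1) (.p (nat_lit 20) (nat_lit 1) (.n (nat_lit 21) (nat_lit 1) (.n (nat_lit 23) (nat_lit 1) (.p (nat_lit 24) (nat_lit 1) (.n (nat_lit 32) (nat_lit 1) (.p (nat_lit 33) (nat_lit 1) (.p (nat_lit 39) (nat_lit 1) (.n (nat_lit 40) (nat_lit 1) (.n (nat_lit 45) (nat_lit 1) (.p (nat_lit 46) (nat_lit 1) (.p (nat_lit 48) (nat_lit 3) (.p (nat_lit 49) (nat_lit 1) (.n (nat_lit 50) (nat_lit 1) (.p (nat_lit 52) (nat_lit 1)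 (.p (nat_lit 53) (nat_lit 3) (.p (nat_lit 55) (nat_lit 1) (.n (nat_lit 59) (nat_lit 1) (.p (nat_lit 60) (nat_lit 1) (.n (nat_lit 61) (nat_lit 1) (.n (nat_lit 62) (nat_lit 1) (.p (nat_lit 64) (nat_lit 2) .z)))))))))))))))))))))))))))) .nil)))))))))))))))))))))))))

noncomputable def dR1_i1 : IL := (.s true (nat_lit 3) (nat_lit 15) (nat_lit 1) (nat_lit 1) (nat_lit 0) true (nat_lit 5) true (nat_lit 8) false (nat_lit 1) true (nat_lit 7) true (nat_lit 7) (.s false (nat_lit 3) (nat_lit 16) (nat_lit 1) (nat_lit 1) (nat_lit 0) true (nat_lit 5) true (nat_lit 8) false (nat_lit 1) true (nat_lit 7) true (nat_lit 7) (.s true (nat_lit 3) (nat_lit 18) (nat_lit 0) (nat_lit 1) (nat_lit 0) true (nat_lit 6) true (nat_lit 8) false (nat_lit 2) true (nat_lit 8) true (nat_lit 7) (.s false (nat_lit 3) (nat_lit 18) (nat_lit 1) (nat_lit 0) (nat_lit 0) true (nat_lit 5) true (nat_lit 8) false (nat_lit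 2) true (nat_lit 7) true (nat_lit 8) (.s false (nat_lit 3) (nat_lit 20) (nat_lit 0) (nat_lit 0) (nat_lit 0) true (nat_lit 6) true (nat_lit 8) false (nat_lit 3) true (nat_lit 8) true (nat_lit 8) (.e false (nat_lit 1) (nat_lit 21) (nat_lit 4) (nat_lit 4) (.e true (nat_lit 2) (nat_lit 22) (nat_lit 4) (nat_lit 4) (.e false (nat_lit 3) (nat_lit 26) (nat_lit 4) (nat_lit 4) (.e false (nat_lit 1) (nat_lit 38) (nat_lit 1) (nat_lit 7) (.e true (nat_lit 3) (nat_lit 39) (nat_lit 1) (nat_lit 7) (.e false (nat_lit 1) (nat_lit 40) (nat_lit 1) (nat_lit 7) (.e false (nat_lit 3) (nat_lit 41) (nat_lit 1) (nat_lit 7) (.e true (nat_lit 2) (nat_lit 42) (nat_lit 1) (nat_lit 7) (.e true (nat_lit 3) (nat_lit 43) (nat_lit 1) (nat_lit 7) (.e false (nat_lit 3) (nat_lit 44) (nat_lit 1) (nat_lit 7) (.e true (nat_lit 3) (nat_lit 45) (nat_lit 1) (nat_lit 7) (.e true (nat_lit 3) (nat_lit 47) (nat_lit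 1) (nat_lit 7) (.e true (nat_lit 1) (nat_lit 49) (nat_lit 0) (nat_lit 8) (.e true (nat_lit 1) (nat_lit 50) (nat_lit 0) (nat_lit 8) (.e false (nat_lit 1) (nat_lit 51) (nat_lit 0) (nat_lit 8) (.e false (nat_lit 1) (nat_lit 52) (nat_lit 0) (nat_lit 8) (.e true (nat_lit 3) (nat_lit 11) (nat_lit 10) (nat_lit 0) (.e false (nat_lit 1) (nat_lit 12) (nat_lit 10) (nat_lit 0) (.e true (nat_lit 3) (nat_lit 20) (nat_lit 5) (nat_lit 3) (.u (nat_lit 2) (.p (nat_lit 6) (nat_lit 1) (.n (nat_lit 7) (nat_lit 1) (.p (nat_lit 9) (nat_lit 1) (.n (nat_lit 14) (nat_lit 1) (.n (nat_lit 20) (nat_lit 1) (.p (nat_lit 21) (nat_lit 1) (.p (nat_lit 23) (nat_lit 1) (.n (nat_lit 24) (nat_lit 1) (.p (nat_lit 32) (nat_lit 1) (.n (nat_lit 34) (nat_lit 3) (.p (nat_lit 35) (nat_lit 3) (.p (nat_lit 36) (nat_lit 3) (.p (nat_lit 40) (nat_lit 1) (.p (nat_lit 43) (nat_lit 1) (.p (nat_lit 45) (nat_lit 1) (.n (nat_lit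 46) (nat_lit 1) (.p (nat_lit 47) (nat_lit 1) (.p (nat_lit 49) (nat_lit 2) (.p (nat_lit 50) (nat_lit 6) (.n (nat_lit 51) (nat_lit 5) (.n (nat_lit 52) (nat_lit 7) (.p (nat_lit 53) (nat_lit 1) (.p (nat_lit 54) (nat_lit 3) (.n (nat_lit 55) (nat_lit 1) (.n (nat_lit 57) (nat_lit 1) (.n (nat_lit 59) (nat_lit 2) (.n (nat_lit 60) (nat_lit 5) (.p (nat_lit 61) (nat_lit 4) (.n (nat_lit 62) (nat_lit 3) (.p (nat_lit 64) (nat_lit 2) .z)))))))))))))))))))))))))))))) .nil)))))))))))))))))))))))))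

noncomputable def dR1_i2 : IL := (.s false (nat_lit 2) (nat_lit 19) (nat_lit 1) (nat_lit 0) (nat_lit 0) true (nat_lit 5) true (nat_lit 8) false (nat_lit 2) true (nat_lit 7) true (nat_lit 8) (.s false (nat_lit 3) (nat_lit 20) (nat_lit 0) (nat_lit 0) (nat_lit 0) true (nat_lit 6) true (nat_lit 8) false (nat_lit 3) true (nat_lit 8) true (nat_lit 8) (.e false (nat_lit 2) (nat_lit 21) (nat_lit 4) (nat_lit 4) (.e true (nat_lit 3) (nat_lit 26) (nat_lit 4) (nat_lit 4) (.e true (nat_lit 1) (nat_lit 38) (nat_lit 1) (nat_lit 7) (.e true (nat_lit 1) (nat_lit 40) (nat_lit 1) (nat_lit 7) (.e true (nat_lit 3) (nat_lit 41) (nat_lit 1) (nat_lit 7) (.e false (nat_lit 1) (nat_lit 42) (nat_lit 1) (nat_lit 7) (.e true (nat_lit 1) (nat_lit 43) (nat_lit 1) (nat_lit 7) (.e false (nat_lit 1) (nat_lit 45) (nat_lit 1) (nat_lit 7) (.e false (nat_lit 3) (nat_lit 46) (nat_lit 1) (nat_lit 7) (.e false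 (nat_lit 3) (nat_lit 39) (nat_lit 1) (nat_lit 7) (.e false (nat_lit 2) (nat_lit 22) (nat_lit 4) (nat_lit 4) (.e false (nat_lit 2) (nat_lit 12) (nat_lit 10) (nat_lit 0) (.e true (nat_lit 1) (nat_lit 47) (nat_lit 1) (nat_lit 7) (.e false (nat_lit 1) (nat_lit 30) (nat_lit 3) (nat_lit 5) (.e false (nat_lit 1) (nat_lit 49) (nat_lit 0) (nat_lit 8) (.e true (nat_lit 3) (nat_lit 50) (nat_lit 0) (nat_lit 8) (.e true (nat_lit 2) (nat_lit 51) (nat_lit 0) (nat_lit 8) (.e true (nat_lit 3) (nat_lit 52) (nat_lit 0) (nat_lit 8) (.e true (nat_lit 2) (nat_lit 20) (nat_lit 5) (nat_lit 3) (.e false (nat_lit 2) (nat_lit 11) (nat_lit 10) (nat_lit 0) (.e true (nat_lit 1) (nat_lit 57) (nat_lit 0) (nat_lit 8) (.e false (nat_lit 2) (nat_lit 56) (nat_lit 0) (nat_lit 8) (.u (nat_lit 2) (.p (nat_lit 0) (nat_lit 2) (.n (nat_lit 2) (nat_lit 2) (.n (nat_lit 3) (nat_lit 1) (.p (nat_lit 4) (nat_lit 1)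 (.p (nat_lit 5) (nat_lit 1) (.n (nat_lit 9) (nat_lit 1) (.n (nat_lit 11) (nat_lit 1) (.p (nat_lit 15) (nat_lit 1) (.n (nat_lit 16) (nat_lit 1) (.p (nat_lit 23) (nat_lit 1) (.n (nat_lit 24) (nat_lit 1) (.n (nat_lit 26) (nat_lit 1) (.p (nat_lit 27) (nat_lit 1) (.n (nat_lit 30) (nat_lit 1) (.n (nat_lit 32) (nat_lit 1) (.p (nat_lit 35) (nat_lit 1) (.n (nat_lit 38) (nat_lit 1) (.p (nat_lit 39) (nat_lit 1) (.n (nat_lit 40) (nat_lit 1) (.n (nat_lit 41) (nat_lit 1) (.p (nat_lit 43) (nat_lit 1) (.p (nat_lit 45) (nat_lit 1) (.p (nat_lit 47) (nat_lit 1) (.p (nat_lit 48) (nat_lit 1) (.p (nat_lit 49) (nat_lit 2) (.p (nat_lit 50) (nat_lit 10) (.n (nat_lit 51) (nat_lit 4) (.n (nat_lit 52) (nat_lit 12) (.p (nat_lit 53) (nat_lit 2) (.p (nat_lit 55) (nat_lit 4) (.n (nat_lit 56) (nat_lit 2) (.p (nat_lit 57) (nat_lit 1) (.n (nat_lit 58) (nat_lit 2) (.n (nat_lit 59) (nat_lit 2) (.n (nat_lit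 60) (nat_lit 2) (.p (nat_lit 61) (nat_lit 3) (.n (nat_lit 62) (nat_lit 1) (.n (nat_lit 63) (nat_lit 1) (.p (nat_lit 64) (nat_lit 1) .z))))))))))))))))))))))))))))))))))))))) .nil)))))))))))))))))))))))))

noncomputable def dR1_i3 : IL := (.s true (nat_lit 1) (nat_lit 10) (nat_lit 1) (nat_lit 0) (nat_lit 2) true (nat_lit 2) true (nat_lit 6) true (nat_lit 0) true (nat_lit 7) true (nat_lit 8) (.s false (nat_lit 1) (nat_lit 10) (nat_lit 3) (nat_lit 0) (nat_lit 0) true (nat_lit 2) true (nat_lit 8) true (nat_lit 0) true (nat_lit 5) true (nat_lit 8) (.s false (nat_lit 1) (nat_lit 13) (nat_lit 1) (nat_lit 1) (nat_lit 1) true (nat_lit 4) true (nat_lit 7) false (nat_lit 0) true (nat_lit 7) true (nat_lit 7) (.s true (nat_lit 1) (nat_lit 19) (nat_lit 0) (nat_lit 1) (nat_lit 0) true (nat_lit 6) true (nat_lit 8) false (nat_lit 2) true (nat_lit 8) true (nat_lit 7) (.s false (nat_lit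 1) (nat_lit 20) (nat_lit 0) (nat_lit 0) (nat_lit 0) true (nat_lit 6) true (nat_lit 8) false (nat_lit 3) true (nat_lit 8) true (nat_lit 8) (.e true (nat_lit 3) (nat_lit 11) (nat_lit 10) (nat_lit 0) (.e true (nat_lit 3) (nat_lit 21) (nat_lit 4) (nat_lit 4) (.e false (nat_lit 1) (nat_lit 23) (nat_lit 4) (nat_lit 4) (.e true (nat_lit 2) (nat_lit 39) (nat_lit 1) (nat_lit 7) (.e true (nat_lit 3) (nat_lit 41) (nat_lit 1) (nat_lit 7) (.e false (nat_lit 3) (nat_lit 46) (nat_lit 1) (nat_lit 7) (.e false (nat_lit 3) (nat_lit 43) (nat_lit 1) (nat_lit 7) (.e true (nat_lit 3) (nat_lit 38) (nat_lit 1) (nat_lit 7) (.e false (nat_lit 1) (nat_lit 40) (nat_lit 1) (nat_lit 7) (.e false (nat_lit 1) (nat_lit 42) (nat_lit 1) (nat_lit 7) (.e true (nat_lit 1) (nat_lit 44) (nat_lit 1) (nat_lit 7) (.e false (nat_lit 1) (nat_lit 45) (nat_lit 1) (nat_lit 7) (.e true (nat_lit 3) (nat_lit 47) (nat_lit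 1) (nat_lit 7) (.e true (nat_lit 2) (nat_lit 20) (nat_lit 5) (nat_lit 3) (.e false (nat_lit 1) (nat_lit 50) (nat_lit 0) (nat_lit 8) (.e true (nat_lit 2) (nat_lit 51) (nat_lit 0) (nat_lit 8) (.e false (nat_lit 1) (nat_lit 52) (nat_lit 0) (nat_lit 8) (.e true (nat_lit 3) (nat_lit 53) (nat_lit 0) (nat_lit 8) (.e false (nat_lit 2) (nat_lit 57) (nat_lit 0) (nat_lit 8) (.u (nat_lit 2) (.n (nat_lit 0) (nat_lit 2) (.n (nat_lit 1) (nat_lit 1) (.p (nat_lit 4) (nat_lit 2) (.p (nat_lit 6) (nat_lit 2) (.n (nat_lit 8) (nat_lit 1) (.p (nat_lit 9) (nat_lit 1) (.n (nat_lit 12) (nat_lit 1) (.p (nat_lit 13) (nat_lit 1) (.n (nat_lit 14) (nat_lit 3) (.p (nat_lit 15) (nat_lit 2) (.p (nat_lit 27) (nat_lit 1) (.p (nat_lit 39) (nat_lit 2) (.n (nat_lit 40) (nat_lit 2) (.p (nat_lit 43) (nat_lit 1) (.p (nat_lit 50) (nat_lit 2) (.p (nat_lit 51) (nat_lit 1) (.n (nat_lit 52) (nat_lit 2) (.n (nat_lit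 53) (nat_lit 2) (.n (nat_lit 55) (nat_lit 1) (.p (nat_lit 59) (nat_lit 1) (.p (nat_lit 62) (nat_lit 1) (.p (nat_lit 63) (nat_lit 1) (.n (nat_lit 64) (nat_lit 1) .z))))))))))))))))))))))) .nil)))))))))))))))))))))))))

noncomputable def dR1_i4 : IL := (.s false (nat_lit 3) (nat_lit 8) (nat_lit 2) (nat_lit 1) (nat_lit 1) true (nat_lit 2) true (nat_lit 7) true (nat_lit 1) true (nat_lit 6) true (nat_lit 7) (.s true (nat_lit 1) (nat_lit 10) (nat_lit 0) (nat_lit 1) (nat_lit 2) true (nat_lit 3) true (nat_lit 6) true (nat_lit 0) true (nat_lit 8) true (nat_lit 7) (.s true (nat_lit 3) (nat_lit 10) (nat_lit 0) (nat_lit 2) (nat_lit 1) true (nat_lit 5) true (nat_lit 7) true (nat_lit 0) true (nat_lit 8) true (nat_lit 6) (.s false (nat_lit 1) (nat_lit 10) (nat_lit 1) (nat_lit 0) (nat_lit 2) true (nat_lit 2) true (nat_lit 6) true (nat_lit 0) true (nat_lit 7) true (nat_lit 8) (.s false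 (nat_lit 3) (nat_lit 14) (nat_lit 1) (nat_lit 0) (nat_lit 1) true (nat_lit 4) true (nat_lit 7) false (nat_lit 1) true (nat_lit 7) true (nat_lit 8) (.s false (nat_lit 3) (nat_lit 15) (nat_lit 1) (nat_lit 1) (nat_lit 0) true (nat_lit 5) true (nat_lit 8) false (nat_lit 1) true (nat_lit 7) true (nat_lit 7) (.s true (nat_lit 3) (nat_lit 16) (nat_lit 1) (nat_lit 1) (nat_lit 0) true (nat_lit 5) true (nat_lit 8) false (nat_lit 1) true (nat_lit 7) true (nat_lit 7) (.s true (nat_lit 3) (nat_lit 18) (nat_lit 0) (nat_lit 0) (nat_lit 1) true (nat_lit 5) true (nat_lit 7) false (nat_lit 2) true (nat_lit 8) true (nat_lit 8) (.s true (nat_lit 2) (nat_lit 20) (nat_lit 0) (nat_lit 0) (nat_lit 0) true (nat_lit 6) true (nat_lit 8) false (nat_lit 3) true (nat_lit 8) true (nat_lit 8) (.e true (nat_lit 3) (nat_lit 21) (nat_lit 4) (nat_lit 4) (.e false (nat_lit 3) (nat_lit 26) (nat_lit 4) (nat_lit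 4) (.e false (nat_lit 1) (nat_lit 40) (nat_lit 1) (nat_lit 7) (.e true (nat_lit 3) (nat_lit 41) (nat_lit 1) (nat_lit 7) (.e true (nat_lit 1) (nat_lit 42) (nat_lit 1) (nat_lit 7) (.e false (nat_lit 1) (nat_lit 45) (nat_lit 1) (nat_lit 7) (.e false (nat_lit 3) (nat_lit 46) (nat_lit 1) (nat_lit 7) (.e false (nat_lit 2) (nat_lit 39) (nat_lit 1) (nat_lit 7) (.e false (nat_lit 3) (nat_lit 22) (nat_lit 4) (nat_lit 4) (.e false (nat_lit 1) (nat_lit 47) (nat_lit 1) (nat_lit 7) (.e false (nat_lit 1) (nat_lit 30) (nat_lit 3) (nat_lit 5) (.e false (nat_lit 2) (nat_lit 51) (nat_lit 0) (nat_lit 8) (.e true (nat_lit 1) (nat_lit 52) (nat_lit 0) (nat_lit 8) (.e false (nat_lit 3) (nat_lit 20) (nat_lit 5) (nat_lit 3) (.e false (nat_lit 3) (nat_lit 11) (nat_lit 10) (nat_lit 0) (.u (nat_lit 2) (.p (nat_lit 8) (nat_lit 1) (.p (nat_lit 14) (nat_lit 1) (.n (nat_lit 20) (nat_lit 1) (.n (nat_lit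 23) (nat_lit 1) (.p (nat_lit 24) (nat_lit 1) (.p (nat_lit 26) (nat_lit 1) (.p (nat_lit 32) (nat_lit 1) (.n (nat_lit 33) (nat_lit 1) (.n (nat_lit 39) (nat_lit 1) (.p (nat_lit 40) (nat_lit 1) (.n (nat_lit 45) (nat_lit 1) (.n (nat_lit 47) (nat_lit 1) (.n (nat_lit 49) (nat_lit 1) (.n (nat_lit 50) (nat_lit 1) (.p (nat_lit 51) (nat_lit 4) (.p (nat_lit 52) (nat_lit 1) (.p (nat_lit 53) (nat_lit 1) (.p (nat_lit 54) (nat_lit 1) (.n (nat_lit 55) (nat_lit 2) (.p (nat_lit 56) (nat_lit 1) (.n (nat_lit 58) (nat_lit 1) (.n (nat_lit 59) (nat_lit 2) (.p (nat_lit 60) (nat_lit 1) (.n (nat_lit 62) (nat_lit 1) (.p (nat_lit 63) (nat_lit 1) (.p (nat_lit 64) (nat_lit 2) (.p (nat_lit 66) (nat_lit 1) .z))))))))))))))))))))))))))) .nil)))))))))))))))))))))))))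

noncomputable def dR1_i5 : IL := (.s true (nat_lit 2) (nat_lit 10) (nat_lit 0) (nat_lit 2) (nat_lit 1) true (nat_lit 5) true (nat_lit 7) true (nat_lit 0) true (nat_lit 8) true (nat_lit 6) (.s true (nat_lit 1) (nat_lit 10) (nat_lit 1) (nat_lit 0) (nat_lit 2) true (nat_lit 2) true (nat_lit 6) true (nat_lit 0) true (nat_lit 7) true (nat_lit 8) (.s false (nat_lit 2) (nat_lit 14) (nat_lit 1) (nat_lit 0) (nat_lit 1) true (nat_lit 4) true (nat_lit 7) false (nat_lit 1) true (nat_lit 7) true (nat_lit 8) (.s true (nat_lit 2) (nat_lit 15) (nat_lit 1) (nat_lit 0) (nat_lit 1) true (nat_lit 4) true (nat_lit 7) false (nat_lit 1) true (nat_lit 7) true (nat_lit 8) (.s false (nat_lit 1) (nat_lit 18) (nat_lit 0) (nat_lit 0) (nat_lit 1) true (nat_lit 5) true (nat_lit 7) false (nat_lit 2) true (nat_lit 8) true (nat_lit 8) (.s false (nat_lit 1) (nat_lit 18) (nat_lit 0) (nat_lit 1) (nat_lit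 0) true (nat_lit 6) true (nat_lit 8) false (nat_lit 2) true (nat_lit 8) true (nat_lit 7) (.s true (nat_lit 1) (nat_lit 18) (nat_lit 1) (nat_lit 0) (nat_lit 0) true (nat_lit 5) true (nat_lit 8) false (nat_lit 2) true (nat_lit 7) true (nat_lit 8) (.s false (nat_lit 3) (nat_lit 20) (nat_lit 0) (nat_lit 0) (nat_lit 0) true (nat_lit 6) true (nat_lit 8) false (nat_lit 3) true (nat_lit 8) true (nat_lit 8) (.e true (nat_lit 2) (nat_lit 21) (nat_lit 4) (nat_lit 4) (.e false (nat_lit 1) (nat_lit 38) (nat_lit 1) (nat_lit 7) (.e false (nat_lit 1) (nat_lit 41) (nat_lit 1) (nat_lit 7) (.e false (nat_lit 3) (nat_lit 42) (nat_lit 1) (nat_lit 7) (.e false (nat_lit 3) (nat_lit 43) (nat_lit 1) (nat_lit 7) (.e false (nat_lit 2) (nat_lit 45) (nat_lit 1) (nat_lit 7) (.e false (nat_lit 3) (nat_lit 22) (nat_lit 4) (nat_lit 4) (.e false (nat_lit 3) (nat_lit 12) (nat_lit 10) (nat_lit 0) (.e true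 (nat_lit 2) (nat_lit 47) (nat_lit 1) (nat_lit 7) (.e true (nat_lit 2) (nat_lit 49) (nat_lit 0) (nat_lit 8) (.e true (nat_lit 1) (nat_lit 50) (nat_lit 0) (nat_lit 8) (.e false (nat_lit 1) (nat_lit 51) (nat_lit 0) (nat_lit 8) (.e false (nat_lit 2) (nat_lit 52) (nat_lit 0) (nat_lit 8) (.e false (nat_lit 1) (nat_lit 56) (nat_lit 0) (nat_lit 8) (.e true (nat_lit 2) (nat_lit 30) (nat_lit 3) (nat_lit 5) (.e true (nat_lit 2) (nat_lit 20) (nat_lit 5) (nat_lit 3) (.u (nat_lit 2) (.p (nat_lit 0) (nat_lit 1) (.p (nat_lit 1) (nat_lit 1) (.n (nat_lit 2) (nat_lit 1) (.n (nat_lit 3) (nat_lit 1) (.p (nat_lit 4) (nat_lit 1) (.p (nat_lit 5) (nat_lit 1) (.p (nat_lit 6) (nat_lit 1) (.n (nat_lit 7) (nat_lit 1) (.n (nat_lit 14) (nat_lit 1) (.p (nat_lit 15) (nat_lit 1) (.n (nat_lit 34) (nat_lit 1) (.p (nat_lit 36) (nat_lit 1) (.p (nat_lit 48) (nat_lit 3) (.p (nat_lit 49) (nat_lit 2) (.p (nat_lit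 50) (nat_lit 2) (.n (nat_lit 51) (nat_lit 5) (.n (nat_lit 52) (nat_lit 3) (.p (nat_lit 53) (nat_lit 4) (.n (nat_lit 54) (nat_lit 2) (.p (nat_lit 55) (nat_lit 2) (.n (nat_lit 56) (nat_lit 1) (.p (nat_lit 57) (nat_lit 1) (.p (nat_lit 59) (nat_lit 2) (.p (nat_lit 60) (nat_lit 1) (.n (nat_lit 61) (nat_lit 1) (.n (nat_lit 66) (nat_lit 1) (.p (nat_lit 67) (nat_lit 1) .z))))))))))))))))))))))))))) .nil)))))))))))))))))))))))))

noncomputable def dR1_t0 : Tr := (.nd (.nd (.nd (.nd (.nd (.nd (.nd .leaf (nat_lit 0) (nat_lit 0) (.p (nat_lit 2) (nat_lit 1) .z) .df .leaf) (nat_lit 1024) (nat_lit 1) (.p (nat_lit 3) (nat_lit 1) .z) .df (.nd .leaf (nat_lit 1025) (nat_lit 2) (.p (nat_lit 4) (nat_lit 1) .z) .df .leaf)) (nat_lit 2048) (nat_lit 3) (.p (nat_lit 5) (nat_lit 1) .z) .df (.nd (.nd .leaf (nat_lit 2049) (nat_lit 4) (.p (nat_lit 6) (nat_lit 1) .z) .df .leaf) (nat_lit 3072) (nat_lit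 5) (.p (nat_lit 7) (nat_lit 1) .z) .df .leaf)) (nat_lit 3073) (nat_lit 6) (.p (nat_lit 8) (nat_lit 1) .z) .df (.nd (.nd (.nd .leaf (nat_lit 3074) (nat_lit 12) (.p (nat_lit 11) (nat_lit 1) (.n (nat_lit 12) (nat_lit 1) .z)) (.ct dR1_c49 (nat_lit 1) (nat_lit 0) (.s true (nat_lit 1) (nat_lit 1) (nat_lit 0) (nat_lit 0) (nat_lit 0) true (nat_lit 0) true (nat_lit 2) true (nat_lit 1) true (nat_lit 2) true (nat_lit 2) (.e false (nat_lit 1) (nat_lit 5) (nat_lit 1) (nat_lit 1) (.e true (nat_lit 1) (nat_lit 6) (nat_lit 0) (nat_lit 2) .nil)))) .leaf) (nat_lit 4096) (nat_lit 7) (.p (nat_lit 9) (nat_lit 1) .z) .df .leaf) (nat_lit 4097) (nat_lit 8) (.p (nat_lit 10) (nat_lit 1) .z) .df (.nd (.nd .leaf (nat_lit 4098) (nat_lit 16) (.p (nat_lit 15) (nat_lit 2) (.n (nat_lit 16) (nat_lit 2) .z)) (.ct dR1_c34 (nat_lit 1) (nat_lit 1) (.s true (nat_lit 1) (nat_lit 1) (nat_lit 0) (nat_lit 1) (nat_lit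 0) true (nat_lit 1) true (nat_lit 3) true (nat_lit 2) true (nat_lit 3) true (nat_lit 2) (.e true (nat_lit 2) (nat_lit 8) (nat_lit 0) (nat_lit 3) (.e false (nat_lit 2) (nat_lit 7) (nat_lit 1) (nat_lit 2) .nil)))) .leaf) (nat_lit 4099) (nat_lit 21) (.p (nat_lit 18) (nat_lit 1) (.n (nat_lit 19) (nat_lit 1) .z)) (.ct dR1_c19 (nat_lit 1) (nat_lit 0) (.s true (nat_lit 1) (nat_lit 1) (nat_lit 0) (nat_lit 1) (nat_lit 1) true (nat_lit 0) true (nat_lit 1) true (nat_lit 1) true (nat_lit 2) true (nat_lit 1) (.e true (nat_lit 1) (nat_lit 10) (nat_lit 0) (nat_lit 2) (.e false (nat_lit 1) (nat_lit 9) (nat_lit 1) (nat_lit 1) .nil)))) .leaf))) (nat_lit 5121) (nat_lit 9) (.p (nat_lit 11) (nat_lit 1) .z) .df (.nd (.nd (.nd (.nd .leaf (nat_lit 5124) (nat_lit 28) (.p (nat_lit 26) (nat_lit 1) .z) .df .leaf) (nat_lit 6144) (nat_lit 10) (.p (nat_lit 12) (nat_lit 1) .z) .df (.nd .leaf (nat_lit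 6145) (nat_lit 13) (.p (nat_lit 14) (nat_lit 1) .z) .df .leaf)) (nat_lit 6147) (nat_lit 32) (.n (nat_lit 21) (nat_lit 2) (.n (nat_lit 22) (nat_lit 1) (.p (nat_lit 23) (nat_lit 3) (.p (nat_lit 24) (nat_lit 3) (.n (nat_lit 25) (nat_lit 3) (.n (nat_lit 26) (nat_lit 3) .z)))))) (.ct dR1_c50 (nat_lit 1) (nat_lit 1) (.s true (nat_lit 1) (nat_lit 3) (nat_lit 0) (nat_lit 0) (nat_lit 1) true (nat_lit 1) true (nat_lit 3) true (nat_lit 1) true (nat_lit 4) true (nat_lit 4) (.e true (nat_lit 1) (nat_lit 7) (nat_lit 3) (nat_lit 1) (.e true (nat_lit 1) (nat_lit 13) (nat_lit 1) (nat_lit 3) (.e false (nat_lit 1) (nat_lit 16) (nat_lit 0) (nat_lit 4) (.u (nat_lit 2) (.n (nat_lit 2) (nat_lit 1) (.p (nat_lit 4) (nat_lit 1) .z)) .nil)))))) (.nd (.nd .leaf (nat_lit 6148) (nat_lit 39) (.p (nat_lit 32) (nat_lit 1) .z) .df .leaf) (nat_lit 7168) (nat_lit 11) (.p (nat_lit 13) (nat_lit 1) .z) .df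 .leaf)) (nat_lit 7169) (nat_lit 14) (.p (nat_lit 15) (nat_lit 1) .z) .df (.nd (.nd (.nd .leaf (nat_lit 7171) (nat_lit 30) (.p (nat_lit 21) (nat_lit 1) (.p (nat_lit 23) (nat_lit 1) (.n (nat_lit 24) (nat_lit 1) (.n (nat_lit 25) (nat_lit 1) (.p (nat_lit 26) (nat_lit 1) .z))))) (.ct dR1_c50 (nat_lit 1) (nat_lit 1) (.s true (nat_lit 1) (nat_lit 3) (nat_lit 0) (nat_lit 1) (nat_lit 0) true (nat_lit 2) true (nat_lit 4) true (nat_lit 1) true (nat_lit 4) true (nat_lit 3) (.e true (nat_lit 1) (nat_lit 8) (nat_lit 2) (nat_lit 2) (.e true (nat_lit 1) (nat_lit 15) (nat_lit 0) (nat_lit 4) (.e false (nat_lit 1) (nat_lit 13) (nat_lit 1) (nat_lit 3) .nil))))) .leaf) (nat_lit 7172) (nat_lit 43) (.p (nat_lit 27) (nat_lit 1) (.n (nat_lit 28) (nat_lit 2) (.n (nat_lit 29) (nat_lit 2) (.p (nat_lit 30) (nat_lit 2) (.p (nat_lit 31) (nat_lit 1) (.n (nat_lit 32) (nat_lit 1) .z)))))) (.ct dR1_c35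 (nat_lit 1) (nat_lit 0) (.s true (nat_lit 1) (nat_lit 3) (nat_lit 1) (nat_lit 0) (nat_lit 1) true (nat_lit 0) true (nat_lit 3) true (nat_lit 1) true (nat_lit 3) true (nat_lit 4) (.e true (nat_lit 1) (nat_lit 16) (nat_lit 1) (nat_lit 3) (.e true (nat_lit 1) (nat_lit 8) (nat_lit 3) (nat_lit 1) (.e false (nat_lit 1) (nat_lit 17) (nat_lit 0) (nat_lit 4) .nil))))) .leaf) (nat_lit 8192) (nat_lit 15) (.p (nat_lit 16) (nat_lit 1) .z) .df (.nd (.nd .leaf (nat_lit 8193) (nat_lit 18) (.p (nat_lit 17) (nat_lit 1) .z) .df .leaf) (nat_lit 8194) (nat_lit 29) (.n (nat_lit 21) (nat_lit 1) (.p (nat_lit 24) (nat_lit 1) (.n (nat_lit 26) (nat_lit 1) .z))) (.ct dR1_c50 (nat_lit 1) (nat_lit 2) (.s true (nat_lit 1) (nat_lit 2) (nat_lit 1) (nat_lit 0) (nat_lit 1) true (nat_lit 0) true (nat_lit 3) true (nat_lit 2) true (nat_lit 3) true (nat_lit 4) (.e true (nat_lit 1) (nat_lit 5) (nat_lit 4) (nat_lit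 0) (.e true (nat_lit 1) (nat_lit 11) (nat_lit 1) (nat_lit 3) (.e false (nat_lit 1) (nat_lit 14) (nat_lit 0) (nat_lit 4) .nil))))) .leaf)))) (nat_lit 8195) (nat_lit 42) (.n (nat_lit 27) (nat_lit 1) (.p (nat_lit 28) (nat_lit 2) (.p (nat_lit 29) (nat_lit 1) (.n (nat_lit 30) (nat_lit 1) (.n (nat_lit 31) (nat_lit 1) (.p (nat_lit 32) (nat_lit 1) .z)))))) (.ct dR1_c35 (nat_lit 1) (nat_lit 1) (.s true (nat_lit 1) (nat_lit 3) (nat_lit 1) (nat_lit 1) (nat_lit 0) true (nat_lit 1) true (nat_lit 4) true (nat_lit 1) true (nat_lit 3) true (nat_lit 3) (.e true (nat_lit 1) (nat_lit 17) (nat_lit 0) (nat_lit 4) (.e true (nat_lit 1) (nat_lit 9) (nat_lit 3) (nat_lit 1) (.e false (nat_lit 1) (nat_lit 15) (nat_lit 1) (nat_lit 3) .nil))))) (.nd (.nd (.nd (.nd (.nd .leaf (nat_lit 8196) (nat_lit 48) (.p (nat_lit 36) (nat_lit 1) .z) .df .leaf) (nat_lit 8198) (nat_lit 76) (.n (nat_lit 38) (nat_lit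 1) (.n (nat_lit 40) (nat_lit 2) (.p (nat_lit 41) (nat_lit 1) (.p (nat_lit 42) (nat_lit 3) (.n (nat_lit 43) (nat_lit 2) (.n (nat_lit 44) (nat_lit 1) (.n (nat_lit 46) (nat_lit 1) (.p (nat_lit 48) (nat_lit 1) .z)))))))) (.ct dR1_c51 (nat_lit 1) (nat_lit 0) (.s false (nat_lit 1) (nat_lit 6) (nat_lit 0) (nat_lit 1) (nat_lit 1) true (nat_lit 3) true (nat_lit 5) true (nat_lit 0) true (nat_lit 6) true (nat_lit 5) (.e false (nat_lit 1) (nat_lit 14) (nat_lit 3) (nat_lit 3) (.e false (nat_lit 1) (nat_lit 22) (nat_lit 1) (nat_lit 5) (.e true (nat_lit 1) (nat_lit 32) (nat_lit 0) (nat_lit 6) (.e true (nat_lit 1) (nat_lit 24) (nat_lit 1) (nat_lit 5) .nil)))))) (.nd .leaf (nat_lit 8199) (nat_lit 66) (.p (nat_lit 38) (nat_lit 1) (.p (nat_lit 40) (nat_lit 1) (.n (nat_lit 41) (nat_lit 1) (.n (nat_lit 42) (nat_lit 1) (.p (nat_lit 43) (nat_lit 1) (.p (nat_lit 48) (nat_lit 1) .z)))))) (.ct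 dR1_c51 (nat_lit 1) (nat_lit 0) (.s false (nat_lit 1) (nat_lit 3) (nat_lit 1) (nat_lit 0) (nat_lit 3) false (nat_lit 0) true (nat_lit 3) true (nat_lit 3) true (nat_lit 5) true (nat_lit 6) (.e false (nat_lit 1) (nat_lit 16) (nat_lit 3) (nat_lit 3) (.e false (nat_lit 1) (nat_lit 21) (nat_lit 1) (nat_lit 5) (.e false (nat_lit 1) (nat_lit 23) (nat_lit 1) (nat_lit 5) (.e true (nat_lit 1) (nat_lit 24) (nat_lit 1) (nat_lit 5) (.e true (nat_lit 1) (nat_lit 25) (nat_lit 1) (nat_lit 5) (.e false (nat_lit 1) (nat_lit 26) (nat_lit 1) (nat_lit 5) .nil)))))))) .leaf)) (nat_lit 8200) (nat_lit 96) (.p (nat_lit 49) (nat_lit 3) (.p (nat_lit 50) (nat_lit 1) (.n (nat_lit 51) (nat_lit 3) (.n (nat_lit 52) (nat_lit 3) (.p (nat_lit 53) (nat_lit 2) (.n (nat_lit 54) (nat_lit 3) (.n (nat_lit 55) (nat_lit 1) (.p (nat_lit 57) (nat_lit 1) (.p (nat_lit 58) (nat_lit 1) .z))))))))) (.ct dR1_c36 (nat_lit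 1) (nat_lit 0) (.s false (nat_lit 1) (nat_lit 3) (nat_lit 1) (nat_lit 1) (nat_lit 3) true (nat_lit 0) true (nat_lit 3) true (nat_lit 3) true (nat_lit 5) true (nat_lit 5) (.e false (nat_lit 1) (nat_lit 17) (nat_lit 3) (nat_lit 3) (.e false (nat_lit 1) (nat_lit 18) (nat_lit 3) (nat_lit 3) (.e true (nat_lit 1) (nat_lit 19) (nat_lit 3) (nat_lit 3) (.e true (nat_lit 1) (nat_lit 27) (nat_lit 1) (nat_lit 5) (.e false (nat_lit 2) (nat_lit 28) (nat_lit 1) (nat_lit 5) (.e false (nat_lit 1) (nat_lit 29) (nat_lit 1) (nat_lit 5) (.e true (nat_lit 1) (nat_lit 30) (nat_lit 1) (nat_lit 5) (.e true (nat_lit 1) (nat_lit 31) (nat_lit 1) (nat_lit 5) (.e false (nat_lit 1) (nat_lit 32) (nat_lit 1) (nat_lit 5) (.u (nat_lit 2) (.n (nat_lit 0) (nat_lit 1) (.p (nat_lit 2) (nat_lit 1) (.p (nat_lit 5) (nat_lit 1) .z))) .nil)))))))))))) (.nd (.nd .leaf (nat_lit 9216) (nat_lit 17) (.n (nat_lit 14)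 (nat_lit 1) (.p (nat_lit 15) (nat_lit 1) (.p (nat_lit 16) (nat_lit 1) .z))) (.ct dR1_c34 (nat_lit 1) (nat_lit 3) (.s false (nat_lit 1) (nat_lit 1) (nat_lit 0) (nat_lit 0) (nat_lit 1) true (nat_lit 0) true (nat_lit 2) true (nat_lit 2) true (nat_lit 3) true (nat_lit 3) (.a true (nat_lit 3) (nat_lit 3) (nat_lit 3) (nat_lit 0) (nat_lit 0) (.e false (nat_lit 1) (nat_lit 7) (nat_lit 1) (nat_lit 2) (.e true (nat_lit 1) (nat_lit 6) (nat_lit 1) (nat_lit 2) (.e false (nat_lit 1) (nat_lit 8) (nat_lit 0) (nat_lit 3) (.u (nat_lit 2) (.p (nat_lit 3) (nat_lit 1) .z) .nil))))))) .leaf) (nat_lit 9217) (nat_lit 19) (.p (nat_lit 18) (nat_lit 1) .z) .df .leaf)) (nat_lit 9218) (nat_lit 33) (.p (nat_lit 21) (nat_lit 2) (.p (nat_lit 22) (nat_lit 2) (.n (nat_lit 23) (nat_lit 3) (.p (nat_lit 24) (nat_lit 3) (.p (nat_lit 25) (nat_lit 3) (.p (nat_lit 26) (nat_lit 3) .z)))))) (.ct dR1_c50 (nat_lit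 1) (nat_lit 2) (.s true (nat_lit 1) (nat_lit 2) (nat_lit 1) (nat_lit 1) (nat_lit 0) true (nat_lit 1) true (nat_lit 4) true (nat_lit 2) true (nat_lit 3) true (nat_lit 3) (.e true (nat_lit 1) (nat_lit 6) (nat_lit 3) (nat_lit 1) (.e true (nat_lit 1) (nat_lit 14) (nat_lit 0) (nat_lit 4) (.e false (nat_lit 1) (nat_lit 12) (nat_lit 1) (nat_lit 3) (.u (nat_lit 2) (.n (nat_lit 3) (nat_lit 1) .z) .nil)))))) (.nd (.nd (.nd .leaf (nat_lit 9219) (nat_lit 41) (.p (nat_lit 27) (nat_lit 1) (.n (nat_lit 28) (nat_lit 1) (.n (nat_lit 29) (nat_lit 1) (.p (nat_lit 31) (nat_lit 1) (.n (nat_lit 32) (nat_lit 1) .z))))) (.ct dR1_c35 (nat_lit 1) (nat_lit 1) (.s true (nat_lit 1) (nat_lit 4) (nat_lit 0) (nat_lit 0) (nat_lit 1) true (nat_lit 1) true (nat_lit 3) true (nat_lit 0) true (nat_lit 4) true (nat_lit 4) (.e false (nat_lit 1) (nat_lit 14) (nat_lit 1) (nat_lit 3) (.e true (nat_lit 1) (nat_lit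 15) (nat_lit 1) (nat_lit 3) (.e true (nat_lit 1) (nat_lit 16) (nat_lit 1) (nat_lit 3) (.e true (nat_lit 1) (nat_lit 6) (nat_lit 4) (nat_lit 0) (.e false (nat_lit 1) (nat_lit 18) (nat_lit 0) (nat_lit 4) .nil))))))) .leaf) (nat_lit 9220) (nat_lit 50) (.p (nat_lit 34) (nat_lit 2) (.n (nat_lit 35) (nat_lit 2) .z)) (.ct dR1_c20 (nat_lit 1) (nat_lit 0) (.s false (nat_lit 3) (nat_lit 4) (nat_lit 1) (nat_lit 0) (nat_lit 1) true (nat_lit 0) true (nat_lit 2) true (nat_lit 0) true (nat_lit 2) true (nat_lit 3) (.s false (nat_lit 3) (nat_lit 4) (nat_lit 1) (nat_lit 1) (nat_lit 0) true (nat_lit 1) true (nat_lit 3) true (nat_lit 0) true (nat_lit 2) true (nat_lit 2) (.e false (nat_lit 2) (nat_lit 19) (nat_lit 1) (nat_lit 2) (.e false (nat_lit 3) (nat_lit 8) (nat_lit 4) (nat_lit 0) (.e true (nat_lit 2) (nat_lit 18) (nat_lit 1) (nat_lit 2) (.e false (nat_lit 3) (nat_lit 10) (nat_lit 3)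 (nat_lit 1) (.u (nat_lit 2) (.n (nat_lit 1) (nat_lit 1) (.p (nat_lit 2) (nat_lit 1) (.p (nat_lit 5) (nat_lit 1) (.n (nat_lit 8) (nat_lit 1) (.p (nat_lit 9) (nat_lit 1) .z))))) .nil)))))))) .leaf) (nat_lit 9222) (nat_lit 74) (.p (nat_lit 38) (nat_lit 2) (.n (nat_lit 40) (nat_lit 3) (.n (nat_lit 41) (nat_lit 2) (.p (nat_lit 42) (nat_lit 3) (.p (nat_lit 43) (nat_lit 3) (.n (nat_lit 44) (nat_lit 2) (.p (nat_lit 45) (nat_lit 2) (.p (nat_lit 47) (nat_lit 1) .z)))))))) (.ct dR1_c51 (nat_lit 1) (nat_lit 0) (.s false (nat_lit 1) (nat_lit 4) (nat_lit 1) (nat_lit 0) (nat_lit 2) true (nat_lit 0) true (nat_lit 4) true (nat_lit 2) true (nat_lit 5) true (nat_lit 6) (.e false (nat_lit 1) (nat_lit 19) (nat_lit 2) (nat_lit 4) (.e false (nat_lit 1) (nat_lit 11) (nat_lit 4) (nat_lit 2) (.e true (nat_lit 1) (nat_lit 12) (nat_lit 4) (nat_lit 2) (.e false (nat_lit 1) (nat_lit 26) (nat_lit 1)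 (nat_lit 5) (.e true (nat_lit 2) (nat_lit 28) (nat_lit 0) (nat_lit 6) (.e false (nat_lit 2) (nat_lit 29) (nat_lit 0) (nat_lit 6) .nil)))))))) (.nd (.nd .leaf (nat_lit 9223) (nat_lit 71) (.p (nat_lit 39) (nat_lit 1) (.n (nat_lit 41) (nat_lit 1) (.n (nat_lit 42) (nat_lit 1) (.p (nat_lit 45) (nat_lit 1) (.n (nat_lit 46) (nat_lit 1) (.p (nat_lit 48) (nat_lit 1) .z)))))) (.ct dR1_c51 (nat_lit 1) (nat_lit 0) (.s false (nat_lit 1) (nat_lit 7) (nat_lit 1) (nat_lit 1) (nat_lit 0) true (nat_lit 3) true (nat_lit 6) true (nat_lit 0) true (nat_lit 5) true (nat_lit 5) (.e false (nat_lit 1) (nat_lit 15) (nat_lit 3) (nat_lit 3) (.e false (nat_lit 1) (nat_lit 28) (nat_lit 0) (nat_lit 6) (.e true (nat_lit 1) (nat_lit 21) (nat_lit 1) (nat_lit 5) (.e true (nat_lit 2) (nat_lit 23) (nat_lit 1) (nat_lit 5) (.e false (nat_lit 1) (nat_lit 24) (nat_lit 1) (nat_lit 5) (.e false (nat_lit 1) (nat_lit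 25) (nat_lit 1) (nat_lit 5) (.e true (nat_lit 1) (nat_lit 26) (nat_lit 1) (nat_lit 5) .nil))))))))) .leaf) (nat_lit 9224) (nat_lit 92) (.p (nat_lit 49) (nat_lit 3) (.n (nat_lit 51) (nat_lit 3) (.n (nat_lit 52) (nat_lit 3) (.p (nat_lit 53) (nat_lit 2) (.p (nat_lit 54) (nat_lit 3) (.n (nat_lit 56) (nat_lit 1) (.p (nat_lit 57) (nat_lit 2) (.p (nat_lit 58) (nat_lit 1) .z)))))))) (.ct dR1_c36 (nat_lit 1) (nat_lit 0) (.s false (nat_lit 1) (nat_lit 4) (nat_lit 1) (nat_lit 0) (nat_lit 3) true (nat_lit 0) true (nat_lit 3) true (nat_lit 2) true (nat_lit 5) true (nat_lit 6) (.e false (nat_lit 1) (nat_lit 19) (nat_lit 3) (nat_lit 3) (.e false (nat_lit 1) (nat_lit 27) (nat_lit 1) (nat_lit 5) (.e true (nat_lit 2) (nat_lit 28) (nat_lit 1) (nat_lit 5) (.e true (nat_lit 2) (nat_lit 29) (nat_lit 1) (nat_lit 5) (.e false (nat_lit 2) (nat_lit 30) (nat_lit 1) (nat_lit 5) (.e false (nat_lit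 1) (nat_lit 31) (nat_lit 1) (nat_lit 5) (.e true (nat_lit 1) (nat_lit 32) (nat_lit 1) (nat_lit 5) (.e true (nat_lit 1) (nat_lit 34) (nat_lit 0) (nat_lit 6) (.e false (nat_lit 1) (nat_lit 35) (nat_lit 0) (nat_lit 6) (.u (nat_lit 2) (.p (nat_lit 3) (nat_lit 1) (.n (nat_lit 5) (nat_lit 1) .z)) .nil)))))))))))) .leaf))) (nat_lit 9225) (nat_lit 94) (.n (nat_lit 49) (nat_lit 3) (.n (nat_lit 50) (nat_lit 1) (.p (nat_lit 51) (nat_lit 3) (.n (nat_lit 52) (nat_lit 3) (.p (nat_lit 53) (nat_lit 2) (.n (nat_lit 54) (nat_lit 3) (.p (nat_lit 56) (nat_lit 2) (.p (nat_lit 58) (nat_lit 1) .z)))))))) (.ct dR1_c36 (nat_lit 1) (nat_lit 0) (.s false (nat_lit 1) (nat_lit 9) (nat_lit 1) (nat_lit 1) (nat_lit 0) true (nat_lit 3) true (nat_lit 6) true (nat_lit 0) true (nat_lit 5) true (nat_lit 5) (.e false (nat_lit 1) (nat_lit 18) (nat_lit 3) (nat_lit 3) (.e false (nat_lit 1) (nat_lit 34) (nat_lit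 0) (nat_lit 6) (.e true (nat_lit 1) (nat_lit 31) (nat_lit 1) (nat_lit 5) (.e false (nat_lit 1) (nat_lit 32) (nat_lit 1) (nat_lit 5) (.u (nat_lit 2) (.p (nat_lit 5) (nat_lit 1) .z) .nil))))))) (.nd (.nd (.nd (.nd .leaf (nat_lit 10240) (nat_lit 20) (.p (nat_lit 19) (nat_lit 1) .z) .df .leaf) (nat_lit 10241) (nat_lit 22) (.p (nat_lit 20) (nat_lit 1) .z) .df .leaf) (nat_lit 10242) (nat_lit 40) (.n (nat_lit 28) (nat_lit 2) (.p (nat_lit 29) (nat_lit 2) (.n (nat_lit 32) (nat_lit 1) .z))) (.ct dR1_c35 (nat_lit 1) (nat_lit 2) (.s true (nat_lit 1) (nat_lit 2) (nat_lit 1) (nat_lit 1) (nat_lit 1) true (nat_lit 0) true (nat_lit 3) true (nat_lit 2) true (nat_lit 3) true (nat_lit 3) (.e true (nat_lit 1) (nat_lit 6) (nat_lit 4) (nat_lit 0) (.e true (nat_lit 2) (nat_lit 15) (nat_lit 1) (nat_lit 3) (.e false (nat_lit 2) (nat_lit 16) (nat_lit 1) (nat_lit 3) .nil))))) (.nd (.nd .leaf (nat_lit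 10243) (nat_lit 49) (.n (nat_lit 34) (nat_lit 1) (.p (nat_lit 35) (nat_lit 1) (.n (nat_lit 36) (nat_lit 1) .z))) (.ct dR1_c20 (nat_lit 1) (nat_lit 1) (.s true (nat_lit 1) (nat_lit 3) (nat_lit 1) (nat_lit 1) (nat_lit 1) true (nat_lit 0) true (nat_lit 2) true (nat_lit 1) true (nat_lit 2) true (nat_lit 2) (.e true (nat_lit 1) (nat_lit 8) (nat_lit 4) (nat_lit 0) (.e true (nat_lit 1) (nat_lit 18) (nat_lit 1) (nat_lit 2) (.e false (nat_lit 1) (nat_lit 19) (nat_lit 1) (nat_lit 2) .nil))))) .leaf) (nat_lit 10244) (nat_lit 53) .z (.ct dR1_c5 (nat_lit 1) (nat_lit 0) (.s false (nat_lit 3) (nat_lit 4) (nat_lit 1) (nat_lit 1) (nat_lit 1) true (nat_lit 0) true (nat_lit 1) true (nat_lit 0) true (nat_lit 1) true (nat_lit 1) (.u (nat_lit 2) (.p (nat_lit 1) (nat_lit 1) .z) .nil))) .leaf)) (nat_lit 10245) (nat_lit 65) (.n (nat_lit 43) (nat_lit 1) (.p (nat_lit 47) (nat_lit 1) .z)) (.ct dR1_c51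 (nat_lit 1) (nat_lit 1) (.s false (nat_lit 1) (nat_lit 5) (nat_lit 1) (nat_lit 1) (nat_lit 1) true (nat_lit 2) true (nat_lit 5) true (nat_lit 1) true (nat_lit 5) true (nat_lit 5) (.e false (nat_lit 1) (nat_lit 11) (nat_lit 4) (nat_lit 2) (.e true (nat_lit 1) (nat_lit 26) (nat_lit 1) (nat_lit 5) .nil)))) (.nd (.nd (.nd .leaf (nat_lit 10246) (nat_lit 90) (.n (nat_lit 54) (nat_lit 1) (.p (nat_lit 58) (nat_lit 1) .z)) (.ct dR1_c36 (nat_lit 1) (nat_lit 1) (.s false (nat_lit 1) (nat_lit 4) (nat_lit 2) (nat_lit 1) (nat_lit 1) true (nat_lit 1) true (nat_lit 5) true (nat_lit 2) true (nat_lit 4) true (nat_lit 5) (.e false (nat_lit 1) (nat_lit 14) (nat_lit 4) (nat_lit 2) (.e true (nat_lit 1) (nat_lit 32) (nat_lit 1) (nat_lit 5) .nil)))) .leaf) (nat_lit 10247) (nat_lit 100) (.p (nat_lit 49) (nat_lit 1) (.n (nat_lit 50) (nat_lit 2) (.n (nat_lit 54) (nat_lit 2) (.p (nat_lit 57) (nat_lit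 1) (.p (nat_lit 58) (nat_lit 1) .z))))) (.ct dR1_c36 (nat_lit 1) (nat_lit 1) (.s false (nat_lit 1) (nat_lit 7) (nat_lit 1) (nat_lit 1) (nat_lit 1) true (nat_lit 2) true (nat_lit 5) true (nat_lit 1) true (nat_lit 5) true (nat_lit 5) (.e false (nat_lit 1) (nat_lit 15) (nat_lit 4) (nat_lit 2) (.e false (nat_lit 2) (nat_lit 28) (nat_lit 1) (nat_lit 5) (.e true (nat_lit 1) (nat_lit 27) (nat_lit 1) (nat_lit 5) (.e false (nat_lit 2) (nat_lit 29) (nat_lit 1) (nat_lit 5) (.e true (nat_lit 2) (nat_lit 30) (nat_lit 1) (nat_lit 5) (.e true (nat_lit 1) (nat_lit 31) (nat_lit 1) (nat_lit 5) (.e false (nat_lit 1) (nat_lit 32) (nat_lit 1) (nat_lit 5) (.u (nat_lit 2) (.p (nat_lit 1) (nat_lit 1) .z) .nil)))))))))) .leaf) (nat_lit 10248) (nat_lit 111) (.p (nat_lit 61) (nat_lit 1) (.n (nat_lit 62) (nat_lit 1) (.p (nat_lit 63) (nat_lit 1) .z))) (.ct dR1_c21 (nat_lit 1) (nat_lit 0) (.s false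 (nat_lit 1) (nat_lit 10) (nat_lit 0) (nat_lit 1) (nat_lit 1) true (nat_lit 2) true (nat_lit 3) false (nat_lit 0) true (nat_lit 4) true (nat_lit 3) (.e false (nat_lit 1) (nat_lit 20) (nat_lit 3) (nat_lit 2) (.e false (nat_lit 1) (nat_lit 35) (nat_lit 1) (nat_lit 3) (.e true (nat_lit 1) (nat_lit 34) (nat_lit 1) (nat_lit 3) (.e true (nat_lit 1) (nat_lit 36) (nat_lit 1) (nat_lit 3) .nil)))))) (.nd (.nd .leaf (nat_lit 10249) (nat_lit 107) (.p (nat_lit 63) (nat_lit 1) .z) (.ct dR1_c21 (nat_lit 1) (nat_lit 0) (.s false (nat_lit 1) (nat_lit 4) (nat_lit 0) (nat_lit 1) (nat_lit 4) true (nat_lit 0) true (nat_lit 1) true (nat_lit 1) true (nat_lit 4) true (nat_lit 3) (.e false (nat_lit 1) (nat_lit 19) (nat_lit 4) (nat_lit 1) .nil))) .leaf) (nat_lit 11265) (nat_lit 23) (.p (nat_lit 21) (nat_lit 1) .z) .df .leaf))))) (nat_lit 11268) (nat_lit 63) (.p (nat_lit 47) (nat_lit 1) .z) .df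 (.nd (.nd (.nd (.nd (.nd (.nd .leaf (nat_lit 11274) (nat_lit 129) (.n (nat_lit 73) (nat_lit 1) (.p (nat_lit 78) (nat_lit 1) .z)) (.ct dR1_c52 (nat_lit 1) (nat_lit 0) (.s false (nat_lit 1) (nat_lit 5) (nat_lit 1) (nat_lit 1) (nat_lit 4) true (nat_lit 0) true (nat_lit 4) true (nat_lit 3) true (nat_lit 7) true (nat_lit 7) (.e false (nat_lit 1) (nat_lit 21) (nat_lit 4) (nat_lit 4) (.e true (nat_lit 1) (nat_lit 47) (nat_lit 1) (nat_lit 7) .nil)))) .leaf) (nat_lit 12289) (nat_lit 24) (.p (nat_lit 22) (nat_lit 1) .z) .df (.nd .leaf (nat_lit 12292) (nat_lit 73) (.n (nat_lit 38) (nat_lit 2) (.p (nat_lit 40) (nat_lit 3) (.p (nat_lit 41) (nat_lit 2) (.n (nat_lit 42) (nat_lit 3) (.n (nat_lit 43) (nat_lit 3) (.n (nat_lit 44) (nat_lit 2) (.p (nat_lit 45) (nat_lit 2) (.n (nat_lit 46) (nat_lit 1) (.p (nat_lit 47) (nat_lit 1) .z))))))))) (.ct dR1_c51 (nat_lit 1) (nat_lit 2) (.s false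 (nat_lit 1) (nat_lit 4) (nat_lit 1) (nat_lit 2) (nat_lit 0) true (nat_lit 3) true (nat_lit 6) true (nat_lit 2) true (nat_lit 5) true (nat_lit 4) (.e true (nat_lit 2) (nat_lit 15) (nat_lit 3) (nat_lit 3) (.e false (nat_lit 2) (nat_lit 16) (nat_lit 3) (nat_lit 3) (.e true (nat_lit 2) (nat_lit 28) (nat_lit 0) (nat_lit 6) (.e false (nat_lit 2) (nat_lit 29) (nat_lit 0) (nat_lit 6) (.e true (nat_lit 1) (nat_lit 32) (nat_lit 0) (nat_lit 6) (.e true (nat_lit 1) (nat_lit 26) (nat_lit 1) (nat_lit 5) (.e false (nat_lit 1) (nat_lit 18) (nat_lit 2) (nat_lit 4) (.u (nat_lit 2) (.n (nat_lit 2) (nat_lit 1) (.p (nat_lit 4) (nat_lit 1) .z)) .nil)))))))))) .leaf)) (nat_lit 12298) (nat_lit 130) (.p (nat_lit 64) (nat_lit 2) (.n (nat_lit 66) (nat_lit 3) (.n (nat_lit 67) (nat_lit 2) (.p (nat_lit 68) (nat_lit 3) (.p (nat_lit 69) (nat_lit 3) (.p (nat_lit 70) (nat_lit 2) (.n (nat_lit 71) (nat_lit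 2) (.p (nat_lit 72) (nat_lit 1) (.n (nat_lit 73) (nat_lit 1) (.p (nat_lit 79) (nat_lit 1) .z)))))))))) (.ct dR1_c52 (nat_lit 1) (nat_lit 0) (.s false (nat_lit 1) (nat_lit 12) (nat_lit 1) (nat_lit 1) (nat_lit 1) true (nat_lit 4) true (nat_lit 7) false (nat_lit 0) true (nat_lit 7) true (nat_lit 7) (.e false (nat_lit 1) (nat_lit 22) (nat_lit 4) (nat_lit 4) (.e false (nat_lit 2) (nat_lit 38) (nat_lit 1) (nat_lit 7) (.e true (nat_lit 3) (nat_lit 40) (nat_lit 1) (nat_lit 7) (.e true (nat_lit 2) (nat_lit 41) (nat_lit 1) (nat_lit 7) (.e false (nat_lit 3) (nat_lit 42) (nat_lit 1) (nat_lit 7) (.e false (nat_lit 3) (nat_lit 43) (nat_lit 1) (nat_lit 7) (.e false (nat_lit 2) (nat_lit 44) (nat_lit 1) (nat_lit 7) (.e true (nat_lit 2) (nat_lit 45) (nat_lit 1) (nat_lit 7) (.e false (nat_lit 1) (nat_lit 46) (nat_lit 1) (nat_lit 7) (.e true (nat_lit 1) (nat_lit 47) (nat_lit 1) (nat_lit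 7) .nil)))))))))))) (.nd (.nd .leaf (nat_lit 13313) (nat_lit 25) (.p (nat_lit 23) (nat_lit 1) .z) .df .leaf) (nat_lit 13316) (nat_lit 67) (.p (nat_lit 38) (nat_lit 2) (.p (nat_lit 40) (nat_lit 2) (.n (nat_lit 41) (nat_lit 2) (.n (nat_lit 42) (nat_lit 3) (.p (nat_lit 43) (nat_lit 2) (.p (nat_lit 44) (nat_lit 1) (.p (nat_lit 48) (nat_lit 1) .z))))))) (.ct dR1_c51 (nat_lit 1) (nat_lit 2) (.s true (nat_lit 1) (nat_lit 7) (nat_lit 1) (nat_lit 0) (nat_lit 1) true (nat_lit 2) true (nat_lit 5) true (nat_lit 0) true (nat_lit 5) true (nat_lit 6) (.e true (nat_lit 2) (nat_lit 25) (nat_lit 1) (nat_lit 5) (.e false (nat_lit 1) (nat_lit 8) (nat_lit 7) (nat_lit 0) (.e false (nat_lit 1) (nat_lit 21) (nat_lit 1) (nat_lit 5) (.e false (nat_lit 1) (nat_lit 23) (nat_lit 1) (nat_lit 5) (.e true (nat_lit 1) (nat_lit 24) (nat_lit 1) (nat_lit 5) (.e false (nat_lit 1) (nat_lit 26) (nat_lit 1)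 (nat_lit 5) (.e false (nat_lit 1) (nat_lit 28) (nat_lit 0) (nat_lit 6) .nil))))))))) .leaf)) (nat_lit 13322) (nat_lit 154) (.p (nat_lit 64) (nat_lit 3) (.p (nat_lit 65) (nat_lit 3) (.p (nat_lit 66) (nat_lit 1) (.p (nat_lit 67) (nat_lit 2) (.n (nat_lit 68) (nat_lit 3) (.n (nat_lit 70) (nat_lit 2) (.p (nat_lit 71) (nat_lit 2) (.n (nat_lit 72) (nat_lit 1) (.n (nat_lit 74) (nat_lit 1) (.p (nat_lit 76) (nat_lit 2) (.n (nat_lit 78) (nat_lit 3) (.n (nat_lit 79) (nat_lit 3) .z)))))))))))) (.ct dR1_c52 (nat_lit 1) (nat_lit 0) (.s false (nat_lit 1) (nat_lit 13) (nat_lit 1) (nat_lit 1) (nat_lit 1) true (nat_lit 4) true (nat_lit 7) false (nat_lit 0) true (nat_lit 7) true (nat_lit 7) (.e false (nat_lit 1) (nat_lit 23) (nat_lit 4) (nat_lit 4) (.e true (nat_lit 2) (nat_lit 40) (nat_lit 1) (nat_lit 7) (.e true (nat_lit 2) (nat_lit 38) (nat_lit 1) (nat_lit 7) (.e false (nat_lit 2) (nat_lit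 41) (nat_lit 1) (nat_lit 7) (.e false (nat_lit 3) (nat_lit 42) (nat_lit 1) (nat_lit 7) (.e true (nat_lit 2) (nat_lit 43) (nat_lit 1) (nat_lit 7) (.e true (nat_lit 1) (nat_lit 44) (nat_lit 1) (nat_lit 7) (.e true (nat_lit 1) (nat_lit 48) (nat_lit 1) (nat_lit 7) (.u (nat_lit 2) (.n (nat_lit 0) (nat_lit 1) (.n (nat_lit 1) (nat_lit 1) (.p (nat_lit 4) (nat_lit 1) (.p (nat_lit 14) (nat_lit 1) .z)))) .nil))))))))))) (.nd (.nd (.nd .leaf (nat_lit 14336) (nat_lit 26) (.p (nat_lit 24) (nat_lit 1) .z) .df .leaf) (nat_lit 14337) (nat_lit 34) (.p (nat_lit 27) (nat_lit 1) .z) .df .leaf) (nat_lit 14339) (nat_lit 75) (.n (nat_lit 38) (nat_lit 1) (.n (nat_lit 39) (nat_lit 1) (.n (nat_lit 40) (nat_lit 2) (.p (nat_lit 41) (nat_lit 2) (.p (nat_lit 42) (nat_lit 3) (.n (nat_lit 43) (nat_lit 2) (.n (nat_lit 44) (nat_lit 1) (.p (nat_lit 48) (nat_lit 1) .z)))))))) (.ct dR1_c51 (nat_lit 1) (nat_lit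 3) (.s false (nat_lit 1) (nat_lit 4) (nat_lit 0) (nat_lit 3) (nat_lit 0) true (nat_lit 4) true (nat_lit 6) true (nat_lit 2) true (nat_lit 6) true (nat_lit 3) (.e true (nat_lit 1) (nat_lit 18) (nat_lit 2) (nat_lit 4) (.e false (nat_lit 1) (nat_lit 19) (nat_lit 2) (nat_lit 4) (.e false (nat_lit 1) (nat_lit 28) (nat_lit 0) (nat_lit 6) (.e false (nat_lit 1) (nat_lit 29) (nat_lit 0) (nat_lit 6) (.e true (nat_lit 1) (nat_lit 13) (nat_lit 4) (nat_lit 2) (.e true (nat_lit 2) (nat_lit 30) (nat_lit 0) (nat_lit 6) (.e false (nat_lit 1) (nat_lit 15) (nat_lit 3) (nat_lit 3) (.e false (nat_lit 1) (nat_lit 16) (nat_lit 3) (nat_lit 3) .nil)))))))))) (.nd (.nd .leaf (nat_lit 14340) (nat_lit 89) (.p (nat_lit 58) (nat_lit 1) .z) .df .leaf) (nat_lit 14344) (nat_lit 157) (.p (nat_lit 64) (nat_lit 1) (.p (nat_lit 65) (nat_lit 2) (.p (nat_lit 66) (nat_lit 2) (.n (nat_lit 67) (nat_lit 2) (.p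 (nat_lit 68) (nat_lit 1) (.n (nat_lit 69) (nat_lit 3) (.p (nat_lit 70) (nat_lit 2) (.p (nat_lit 71) (nat_lit 2) (.n (nat_lit 74) (nat_lit 1) (.n (nat_lit 78) (nat_lit 2) (.p (nat_lit 79) (nat_lit 3) .z))))))))))) (.ct dR1_c52 (nat_lit 1) (nat_lit 1) (.s false (nat_lit 1) (nat_lit 14) (nat_lit 1) (nat_lit 0) (nat_lit 1) true (nat_lit 4) true (nat_lit 7) false (nat_lit 1) true (nat_lit 7) true (nat_lit 8) (.e false (nat_lit 1) (nat_lit 24) (nat_lit 4) (nat_lit 4) (.e false (nat_lit 2) (nat_lit 38) (nat_lit 1) (nat_lit 7) (.e false (nat_lit 2) (nat_lit 39) (nat_lit 1) (nat_lit 7) (.e true (nat_lit 3) (nat_lit 40) (nat_lit 1) (nat_lit 7) (.e true (nat_lit 3) (nat_lit 41) (nat_lit 1) (nat_lit 7) (.e false (nat_lit 1) (nat_lit 42) (nat_lit 1) (nat_lit 7) (.e true (nat_lit 3) (nat_lit 43) (nat_lit 1) (nat_lit 7) (.e false (nat_lit 2) (nat_lit 45) (nat_lit 1) (nat_lit 7) (.e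 false (nat_lit 1) (nat_lit 47) (nat_lit 1) (nat_lit 7) (.e true (nat_lit 2) (nat_lit 48) (nat_lit 1) (nat_lit 7) (.e true (nat_lit 1) (nat_lit 49) (nat_lit 0) (nat_lit 8) (.u (nat_lit 2) (.n (nat_lit 0) (nat_lit 1) (.n (nat_lit 3) (nat_lit 1) (.p (nat_lit 4) (nat_lit 1) (.p (nat_lit 5) (nat_lit 1) (.n (nat_lit 6) (nat_lit 1) (.p (nat_lit 14) (nat_lit 1) (.n (nat_lit 15) (nat_lit 1) (.p (nat_lit 50) (nat_lit 1) (.n (nat_lit 52) (nat_lit 1) (.p (nat_lit 53) (nat_lit 1) .z)))))))))) .nil)))))))))))))) .leaf))) (nat_lit 14345) (nat_lit 146) (.p (nat_lit 64) (nat_lit 1) (.n (nat_lit 65) (nat_lit 2) (.p (nat_lit 66) (nat_lit 2) (.p (nat_lit 67) (nat_lit 1) (.n (nat_lit 68) (nat_lit 1) (.n (nat_lit 69) (nat_lit 2) (.n (nat_lit 70) (nat_lit 1) (.n (nat_lit 72) (nat_lit 2) (.n (nat_lit 73) (nat_lit 1) (.n (nat_lit 75) (nat_lit 2) (.p (nat_lit 76) (nat_lit 2) (.p (nat_lit 78) (nat_lit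 3) (.n (nat_lit 79) (nat_lit 2) .z))))))))))))) (.ct dR1_c52 (nat_lit 1) (nat_lit 1) (.s false (nat_lit 1) (nat_lit 6) (nat_lit 0) (nat_lit 1) (nat_lit 4) true (nat_lit 1) true (nat_lit 4) true (nat_lit 2) true (nat_lit 8) true (nat_lit 7) (.e false (nat_lit 1) (nat_lit 22) (nat_lit 4) (nat_lit 4) (.e true (nat_lit 1) (nat_lit 18) (nat_lit 6) (nat_lit 2) (.e false (nat_lit 1) (nat_lit 19) (nat_lit 6) (nat_lit 2) (.e false (nat_lit 1) (nat_lit 54) (nat_lit 0) (nat_lit 8) (.e true (nat_lit 1) (nat_lit 58) (nat_lit 0) (nat_lit 8) (.e true (nat_lit 1) (nat_lit 46) (nat_lit 1) (nat_lit 7) (.u (nat_lit 2) (.n (nat_lit 6) (nat_lit 1) (.n (nat_lit 14) (nat_lit 1) (.p (nat_lit 15) (nat_lit 1) .z))) .nil))))))))) (.nd (.nd (.nd (.nd .leaf (nat_lit 14346) (nat_lit 176) (.n (nat_lit 85) (nat_lit 1) (.p (nat_lit 90) (nat_lit 1) .z)) (.ct dR1_c37 (nat_lit 1) (nat_lit 0) (.s false (nat_lit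 1) (nat_lit 6) (nat_lit 1) (nat_lit 1) (nat_lit 4) true (nat_lit 0) true (nat_lit 3) true (nat_lit 2) true (nat_lit 6) true (nat_lit 6) (.e false (nat_lit 1) (nat_lit 27) (nat_lit 4) (nat_lit 3) (.e true (nat_lit 1) (nat_lit 58) (nat_lit 1) (nat_lit 6) .nil)))) .leaf) (nat_lit 15360) (nat_lit 27) (.p (nat_lit 25) (nat_lit 1) .z) .df .leaf) (nat_lit 15361) (nat_lit 35) (.p (nat_lit 28) (nat_lit 1) .z) .df (.nd (.nd .leaf (nat_lit 15363) (nat_lit 70) (.p (nat_lit 38) (nat_lit 1) (.p (nat_lit 39) (nat_lit 1) (.p (nat_lit 40) (nat_lit 2) (.n (nat_lit 41) (nat_lit 2) (.n (nat_lit 42) (nat_lit 2) (.p (nat_lit 43) (nat_lit 1) (.n (nat_lit 44) (nat_lit 1) (.p (nat_lit 45) (nat_lit 1) (.n (nat_lit 46) (nat_lit 1) (.p (nat_lit 48) (nat_lit 1) .z)))))))))) (.ct dR1_c51 (nat_lit 1) (nat_lit 3) (.s true (nat_lit 3) (nat_lit 4) (nat_lit 0) (nat_lit 2) (nat_lit 1) true (nat_lit 3) true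 (nat_lit 5) true (nat_lit 2) true (nat_lit 6) true (nat_lit 4) (.e false (nat_lit 1) (nat_lit 16) (nat_lit 3) (nat_lit 3) (.e false (nat_lit 1) (nat_lit 21) (nat_lit 1) (nat_lit 5) (.e false (nat_lit 1) (nat_lit 22) (nat_lit 1) (nat_lit 5) (.e false (nat_lit 2) (nat_lit 23) (nat_lit 1) (nat_lit 5) (.e true (nat_lit 2) (nat_lit 24) (nat_lit 1) (nat_lit 5) (.e true (nat_lit 2) (nat_lit 25) (nat_lit 1) (nat_lit 5) (.e true (nat_lit 2) (nat_lit 26) (nat_lit 1) (nat_lit 5) (.e false (nat_lit 3) (nat_lit 11) (nat_lit 4) (nat_lit 2) (.e false (nat_lit 3) (nat_lit 32) (nat_lit 0) (nat_lit 6) (.e true (nat_lit 3) (nat_lit 19) (nat_lit 2) (nat_lit 4) (.u (nat_lit 2) (.p (nat_lit 6) (nat_lit 1) (.n (nat_lit 7) (nat_lit 1) (.p (nat_lit 8) (nat_lit 1) (.p (nat_lit 20) (nat_lit 1) (.n (nat_lit 21) (nat_lit 1) (.n (nat_lit 25) (nat_lit 1) (.n (nat_lit 26) (nat_lit 1) (.p (nat_lit 27)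 (nat_lit 1) (.n (nat_lit 28) (nat_lit 1) (.n (nat_lit 29) (nat_lit 1) (.n (nat_lit 30) (nat_lit 1) .z))))))))))) .nil))))))))))))) .leaf) (nat_lit 15364) (nat_lit 99) (.p (nat_lit 49) (nat_lit 2) (.p (nat_lit 50) (nat_lit 3) (.n (nat_lit 51) (nat_lit 2) (.p (nat_lit 52) (nat_lit 2) (.p (nat_lit 53) (nat_lit 1) (.n (nat_lit 54) (nat_lit 3) (.p (nat_lit 57) (nat_lit 1) (.p (nat_lit 58) (nat_lit 1) .z)))))))) (.ct dR1_c36 (nat_lit 1) (nat_lit 2) (.s false (nat_lit 1) (nat_lit 4) (nat_lit 0) (nat_lit 0) (nat_lit 4) true (nat_lit 0) true (nat_lit 2) true (nat_lit 2) true (nat_lit 6) true (nat_lit 6) (.e true (nat_lit 1) (nat_lit 9) (nat_lit 9) (nat_lit 0) (.e true (nat_lit 1) (nat_lit 14) (nat_lit 4) (nat_lit 2) (.e false (nat_lit 3) (nat_lit 16) (nat_lit 4) (nat_lit 2) (.e false (nat_lit 2) (nat_lit 34) (nat_lit 0) (nat_lit 6) (.e true (nat_lit 2) (nat_lit 35) (nat_lit 0)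 (nat_lit 6) (.u (nat_lit 2) (.p (nat_lit 0) (nat_lit 1) (.p (nat_lit 1) (nat_lit 1) (.n (nat_lit 2) (nat_lit 1) (.p (nat_lit 3) (nat_lit 1) .z)))) .nil)))))))) .leaf)) (nat_lit 15368) (nat_lit 156) (.n (nat_lit 64) (nat_lit 2) (.n (nat_lit 65) (nat_lit 1) (.p (nat_lit 66) (nat_lit 3) (.n (nat_lit 67) (nat_lit 3) (.p (nat_lit 68) (nat_lit 2) (.p (nat_lit 70) (nat_lit 1) (.p (nat_lit 72) (nat_lit 2) (.p (nat_lit 73) (nat_lit 1) (.n (nat_lit 74) (nat_lit 1) (.n (nat_lit 75) (nat_lit 1) (.p (nat_lit 76) (nat_lit 2) (.n (nat_lit 78) (nat_lit 2) (.p (nat_lit 79) (nat_lit 3) .z))))))))))))) (.ct dR1_c52 (nat_lit 1) (nat_lit 1) (.s false (nat_lit 1) (nat_lit 15) (nat_lit 1) (nat_lit 0) (nat_lit 1) true (nat_lit 4) true (nat_lit 7) false (nat_lit 1) true (nat_lit 7) true (nat_lit 8) (.e false (nat_lit 1) (nat_lit 25) (nat_lit 4) (nat_lit 4) (.e false (nat_lit 2) (nat_lit 44) (nat_lit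 1) (nat_lit 7) (.e true (nat_lit 1) (nat_lit 38) (nat_lit 1) (nat_lit 7) (.e true (nat_lit 1) (nat_lit 39) (nat_lit 1) (nat_lit 7) (.e true (nat_lit 2) (nat_lit 40) (nat_lit 1) (nat_lit 7) (.e false (nat_lit 2) (nat_lit 41) (nat_lit 1) (nat_lit 7) (.e false (nat_lit 2) (nat_lit 42) (nat_lit 1) (nat_lit 7) (.e true (nat_lit 1) (nat_lit 43) (nat_lit 1) (nat_lit 7) (.e true (nat_lit 1) (nat_lit 45) (nat_lit 1) (nat_lit 7) (.e false (nat_lit 1) (nat_lit 46) (nat_lit 1) (nat_lit 7) (.e true (nat_lit 1) (nat_lit 48) (nat_lit 1) (nat_lit 7) (.e true (nat_lit 1) (nat_lit 50) (nat_lit 0) (nat_lit 8) (.u (nat_lit 2) (.n (nat_lit 2) (nat_lit 1) (.n (nat_lit 15) (nat_lit 1) .z)) .nil))))))))))))))) (.nd (.nd (.nd .leaf (nat_lit 15369) (nat_lit 151) (.p (nat_lit 64) (nat_lit 1) (.n (nat_lit 65) (nat_lit 3) (.p (nat_lit 66) (nat_lit 2) (.p (nat_lit 67) (nat_lit 3) (.n (nat_lit 68)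 (nat_lit 3) (.p (nat_lit 69) (nat_lit 1) (.n (nat_lit 71) (nat_lit 1) (.p (nat_lit 72) (nat_lit 2) (.p (nat_lit 73) (nat_lit 1) (.n (nat_lit 74) (nat_lit 1) (.p (nat_lit 75) (nat_lit 1) (.p (nat_lit 76) (nat_lit 1) (.n (nat_lit 78) (nat_lit 1) (.p (nat_lit 79) (nat_lit 2) .z)))))))))))))) (.ct dR1_c52 (nat_lit 1) (nat_lit 1) (.s false (nat_lit 3) (nat_lit 4) (nat_lit 0) (nat_lit 2) (nat_lit 4) true (nat_lit 1) true (nat_lit 4) true (nat_lit 4) true (nat_lit 8) true (nat_lit 6) (.e false (nat_lit 1) (nat_lit 16) (nat_lit 9) (nat_lit 1) (.e true (nat_lit 1) (nat_lit 21) (nat_lit 4) (nat_lit 4) (.e true (nat_lit 1) (nat_lit 22) (nat_lit 4) (nat_lit 4) (.e true (nat_lit 2) (nat_lit 23) (nat_lit 4) (nat_lit 4) (.e false (nat_lit 2) (nat_lit 24) (nat_lit 4) (nat_lit 4) (.e false (nat_lit 2) (nat_lit 25) (nat_lit 4) (nat_lit 4) (.e true (nat_lit 1) (nat_lit 26) (nat_lit 4) (nat_lit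 4) (.e true (nat_lit 1) (nat_lit 54) (nat_lit 0) (nat_lit 8) (.u (nat_lit 2) (.n (nat_lit 0) (nat_lit 1) (.p (nat_lit 1) (nat_lit 2) (.n (nat_lit 2) (nat_lit 1) (.n (nat_lit 3) (nat_lit 2) (.p (nat_lit 4) (nat_lit 1) (.p (nat_lit 6) (nat_lit 1) (.p (nat_lit 8) (nat_lit 1) (.n (nat_lit 9) (nat_lit 1) (.n (nat_lit 14) (nat_lit 1) (.n (nat_lit 15) (nat_lit 1) (.p (nat_lit 23) (nat_lit 1) (.n (nat_lit 24) (nat_lit 1) (.p (nat_lit 32) (nat_lit 1) (.p (nat_lit 33) (nat_lit 1) (.n (nat_lit 34) (nat_lit 1) (.p (nat_lit 35) (nat_lit 1) (.p (nat_lit 36) (nat_lit 1) (.p (nat_lit 37) (nat_lit 1) (.p (nat_lit 64) (nat_lit 1) .z))))))))))))))))))) .nil))))))))))) .leaf) (nat_lit 15370) (nat_lit 197) (.n (nat_lit 80) (nat_lit 3) (.p (nat_lit 81) (nat_lit 2) (.n (nat_lit 82) (nat_lit 3) (.n (nat_lit 83) (nat_lit 3) (.p (nat_lit 84) (nat_lit 1) (.p (nat_lit 85) (nat_lit 2) (.p (nat_lit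 86) (nat_lit 3) (.p (nat_lit 87) (nat_lit 2) (.p (nat_lit 89) (nat_lit 1) (.p (nat_lit 90) (nat_lit 1) .z)))))))))) (.ct dR1_c37 (nat_lit 1) (nat_lit 0) (.s false (nat_lit 3) (nat_lit 10) (nat_lit 1) (nat_lit 1) (nat_lit 2) true (nat_lit 2) true (nat_lit 5) true (nat_lit 0) true (nat_lit 6) true (nat_lit 6) (.e true (nat_lit 3) (nat_lit 20) (nat_lit 6) (nat_lit 2) (.e false (nat_lit 3) (nat_lit 37) (nat_lit 2) (nat_lit 5) (.e false (nat_lit 1) (nat_lit 16) (nat_lit 10) (nat_lit 0) (.e true (nat_lit 1) (nat_lit 54) (nat_lit 1) (nat_lit 6) (.e true (nat_lit 3) (nat_lit 58) (nat_lit 1) (nat_lit 6) (.e true (nat_lit 1) (nat_lit 50) (nat_lit 1) (nat_lit 6) (.e false (nat_lit 1) (nat_lit 51) (nat_lit 1) (nat_lit 6) (.u (nat_lit 2) (.n (nat_lit 0) (nat_lit 1) (.p (nat_lit 1) (nat_lit 1) (.p (nat_lit 2) (nat_lit 1) (.n (nat_lit 5) (nat_lit 1) (.n (nat_lit 7) (nat_lit 2) (.p (nat_lit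 12) (nat_lit 1) (.n (nat_lit 13) (nat_lit 1) (.p (nat_lit 34) (nat_lit 1) (.n (nat_lit 35) (nat_lit 1) (.p (nat_lit 38) (nat_lit 1) .z)))))))))) .nil)))))))))) .leaf) (nat_lit 16384) (nat_lit 31) (.n (nat_lit 21) (nat_lit 1) (.n (nat_lit 22) (nat_lit 1) (.n (nat_lit 23) (nat_lit 2) (.p (nat_lit 24) (nat_lit 2) (.p (nat_lit 25) (nat_lit 3) (.n (nat_lit 26) (nat_lit 2) .z)))))) (.ct dR1_c50 (nat_lit 1) (nat_lit 4) (.s true (nat_lit 1) (nat_lit 3) (nat_lit 1) (nat_lit 0) (nat_lit 0) true (nat_lit 1) true (nat_lit 4) true (nat_lit 1) true (nat_lit 3) true (nat_lit 4) (.e true (nat_lit 2) (nat_lit 7) (nat_lit 3) (nat_lit 1) (.e false (nat_lit 1) (nat_lit 11) (nat_lit 1) (nat_lit 3) (.e true (nat_lit 1) (nat_lit 12) (nat_lit 1) (nat_lit 3) (.e false (nat_lit 1) (nat_lit 15) (nat_lit 0) (nat_lit 4) .nil)))))) (.nd (.nd .leaf (nat_lit 16385) (nat_lit 36) (.p (nat_lit 29) (nat_lit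 1) .z) .df .leaf) (nat_lit 16387) (nat_lit 64) (.p (nat_lit 48) (nat_lit 1) .z) .df .leaf)))) (nat_lit 16388) (nat_lit 98) (.p (nat_lit 49) (nat_lit 2) (.p (nat_lit 50) (nat_lit 3) (.n (nat_lit 51) (nat_lit 2) (.p (nat_lit 52) (nat_lit 2) (.p (nat_lit 53) (nat_lit 1) (.n (nat_lit 54) (nat_lit 2) (.p (nat_lit 57) (nat_lit 1) (.p (nat_lit 58) (nat_lit 1) .z)))))))) (.ct dR1_c36 (nat_lit 1) (nat_lit 2) (.s true (nat_lit 1) (nat_lit 8) (nat_lit 1) (nat_lit 0) (nat_lit 1) true (nat_lit 2) true (nat_lit 5) true (nat_lit 0) true (nat_lit 5) true (nat_lit 6) (.e true (nat_lit 2) (nat_lit 30) (nat_lit 1) (nat_lit 5) (.e false (nat_lit 1) (nat_lit 8) (nat_lit 8) (nat_lit 0) (.e true (nat_lit 1) (nat_lit 27) (nat_lit 1) (nat_lit 5) (.e false (nat_lit 2) (nat_lit 28) (nat_lit 1) (nat_lit 5) (.e false (nat_lit 1) (nat_lit 29) (nat_lit 1) (nat_lit 5) (.e true (nat_lit 1) (nat_lit 31)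 (nat_lit 1) (nat_lit 5) (.e false (nat_lit 1) (nat_lit 32) (nat_lit 1) (nat_lit 5) (.e false (nat_lit 1) (nat_lit 33) (nat_lit 0) (nat_lit 6) (.u (nat_lit 2) (.n (nat_lit 3) (nat_lit 1) .z) .nil))))))))))) (.nd (.nd (.nd (.nd (.nd .leaf (nat_lit 16392) (nat_lit 159) (.n (nat_lit 64) (nat_lit 3) (.n (nat_lit 65) (nat_lit 2) (.p (nat_lit 66) (nat_lit 1) (.n (nat_lit 67) (nat_lit 1) (.n (nat_lit 68) (nat_lit 3) (.n (nat_lit 69) (nat_lit 2) (.p (nat_lit 70) (nat_lit 1) (.p (nat_lit 72) (nat_lit 2) (.n (nat_lit 74) (nat_lit 1) (.p (nat_lit 76) (nat_lit 1) (.n (nat_lit 78) (nat_lit 2) (.p (nat_lit 79) (nat_lit 3) .z)))))))))))) (.ct dR1_c52 (nat_lit 1) (nat_lit 1) (.s false (nat_lit 1) (nat_lit 16) (nat_lit 1) (nat_lit 0) (nat_lit 1) true (nat_lit 4) true (nat_lit 7) false (nat_lit 1) true (nat_lit 7) true (nat_lit 8) (.e true (nat_lit 1) (nat_lit 21) (nat_lit 4) (nat_lit 4)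 (.e true (nat_lit 1) (nat_lit 22) (nat_lit 4) (nat_lit 4) (.e true (nat_lit 2) (nat_lit 23) (nat_lit 4) (nat_lit 4) (.e false (nat_lit 2) (nat_lit 24) (nat_lit 4) (nat_lit 4) (.e false (nat_lit 3) (nat_lit 25) (nat_lit 4) (nat_lit 4) (.e true (nat_lit 2) (nat_lit 26) (nat_lit 4) (nat_lit 4) (.e false (nat_lit 1) (nat_lit 45) (nat_lit 1) (nat_lit 7) (.e true (nat_lit 1) (nat_lit 48) (nat_lit 1) (nat_lit 7) (.e true (nat_lit 1) (nat_lit 51) (nat_lit 0) (nat_lit 8) (.u (nat_lit 2) (.p (nat_lit 1) (nat_lit 2) (.n (nat_lit 2) (nat_lit 1) (.n (nat_lit 3) (nat_lit 2) (.p (nat_lit 4) (nat_lit 1) (.p (nat_lit 5) (nat_lit 1) (.p (nat_lit 8) (nat_lit 1) (.n (nat_lit 9) (nat_lit 1) (.n (nat_lit 14) (nat_lit 1) (.n (nat_lit 15) (nat_lit 2) .z))))))))) .nil)))))))))))) .leaf) (nat_lit 16393) (nat_lit 150) (.n (nat_lit 64) (nat_lit 1) (.n (nat_lit 65) (nat_lit 3) (.n (nat_lit 66) (nat_lit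 2) (.n (nat_lit 67) (nat_lit 2) (.n (nat_lit 68) (nat_lit 2) (.n (nat_lit 69) (nat_lit 2) (.p (nat_lit 70) (nat_lit 3) (.n (nat_lit 71) (nat_lit 1) (.p (nat_lit 72) (nat_lit 1) (.p (nat_lit 73) (nat_lit 3) (.n (nat_lit 74) (nat_lit 1) (.n (nat_lit 75) (nat_lit 1) (.p (nat_lit 76) (nat_lit 3) (.p (nat_lit 79) (nat_lit 1) .z)))))))))))))) (.ct dR1_c52 (nat_lit 1) (nat_lit 1) (.s true (nat_lit 1) (nat_lit 4) (nat_lit 0) (nat_lit 2) (nat_lit 4) true (nat_lit 1) true (nat_lit 4) true (nat_lit 4) true (nat_lit 8) true (nat_lit 6) (.s true (nat_lit 3) (nat_lit 9) (nat_lit 0) (nat_lit 0) (nat_lit 4) true (nat_lit 1) true (nat_lit 4) true (nat_lit 1) true (nat_lit 8) true (nat_lit 8) (.e false (nat_lit 1) (nat_lit 21) (nat_lit 4) (nat_lit 4) (.e false (nat_lit 1) (nat_lit 22) (nat_lit 4) (nat_lit 4) (.e false (nat_lit 2) (nat_lit 23) (nat_lit 4) (nat_lit 4) (.e false (nat_lit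 1) (nat_lit 24) (nat_lit 4) (nat_lit 4) (.e true (nat_lit 1) (nat_lit 25) (nat_lit 4) (nat_lit 4) (.e true (nat_lit 3) (nat_lit 26) (nat_lit 4) (nat_lit 4) (.e false (nat_lit 3) (nat_lit 54) (nat_lit 0) (nat_lit 8) (.e true (nat_lit 3) (nat_lit 14) (nat_lit 9) (nat_lit 1) (.e true (nat_lit 2) (nat_lit 49) (nat_lit 0) (nat_lit 8) (.e true (nat_lit 3) (nat_lit 50) (nat_lit 0) (nat_lit 8) (.e false (nat_lit 2) (nat_lit 51) (nat_lit 0) (nat_lit 8) (.e true (nat_lit 2) (nat_lit 52) (nat_lit 0) (nat_lit 8) (.e true (nat_lit 1) (nat_lit 53) (nat_lit 0) (nat_lit 8) (.e true (nat_lit 2) (nat_lit 56) (nat_lit 0) (nat_lit 8) (.e false (nat_lit 3) (nat_lit 58) (nat_lit 0) (nat_lit 8) (.e false (nat_lit 1) (nat_lit 57) (nat_lit 0) (nat_lit 8) (.u (nat_lit 2) (.n (nat_lit 0) (nat_lit 2) (.p (nat_lit 1) (nat_lit 1) (.p (nat_lit 2) (nat_lit 1) (.p (nat_lit 3) (nat_lit 1) (.p (nat_lit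 4) (nat_lit 1) (.p (nat_lit 5) (nat_lit 2) (.p (nat_lit 6) (nat_lit 2) (.p (nat_lit 8) (nat_lit 1) (.p (nat_lit 9) (nat_lit 1) (.n (nat_lit 11) (nat_lit 1) (.p (nat_lit 14) (nat_lit 2) (.n (nat_lit 15) (nat_lit 1) (.p (nat_lit 23) (nat_lit 1) (.p (nat_lit 34) (nat_lit 1) (.n (nat_lit 35) (nat_lit 1) (.n (nat_lit 36) (nat_lit 2) (.p (nat_lit 37) (nat_lit 1) (.n (nat_lit 59) (nat_lit 1) (.p (nat_lit 61) (nat_lit 1) (.n (nat_lit 62) (nat_lit 1) (.p (nat_lit 63) (nat_lit 1) (.n (nat_lit 64) (nat_lit 2) (.p (nat_lit 66) (nat_lit 2) (.n (nat_lit 67) (nat_lit 1) .z)))))))))))))))))))))))) .nil)))))))))))))))))))) (.nd .leaf (nat_lit 16394) (nat_lit 196) (.n (nat_lit 80) (nat_lit 1) (.p (nat_lit 81) (nat_lit 1) (.n (nat_lit 82) (nat_lit 3) (.n (nat_lit 83) (nat_lit 3) (.p (nat_lit 84) (nat_lit 1) (.n (nat_lit 85) (nat_lit 1) (.n (nat_lit 87) (nat_lit 3) (.p (nat_lit 89) (nat_lit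 1) (.p (nat_lit 90) (nat_lit 1) .z))))))))) (.ct dR1_c37 (nat_lit 1) (nat_lit 0) (.s false (nat_lit 1) (nat_lit 10) (nat_lit 1) (nat_lit 3) (nat_lit 0) true (nat_lit 4) true (nat_lit 7) true (nat_lit 0) true (nat_lit 6) true (nat_lit 4) (.e false (nat_lit 1) (nat_lit 34) (nat_lit 3) (nat_lit 4) (.e false (nat_lit 1) (nat_lit 36) (nat_lit 3) (nat_lit 4) (.e false (nat_lit 1) (nat_lit 61) (nat_lit 0) (nat_lit 7) (.e true (nat_lit 1) (nat_lit 62) (nat_lit 0) (nat_lit 7) (.e false (nat_lit 1) (nat_lit 63) (nat_lit 0) (nat_lit 7) (.e false (nat_lit 1) (nat_lit 49) (nat_lit 1) (nat_lit 6) (.e true (nat_lit 2) (nat_lit 50) (nat_lit 1) (nat_lit 6) (.e true (nat_lit 2) (nat_lit 54) (nat_lit 1) (nat_lit 6) (.e false (nat_lit 1) (nat_lit 57) (nat_lit 1) (nat_lit 6) (.e false (nat_lit 1) (nat_lit 58) (nat_lit 1) (nat_lit 6) (.u (nat_lit 2) (.n (nat_lit 1) (nat_lit 1) .z) .nil)))))))))))))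 .leaf)) (nat_lit 17408) (nat_lit 37) (.p (nat_lit 30) (nat_lit 1) .z) .df (.nd (.nd .leaf (nat_lit 17409) (nat_lit 45) (.p (nat_lit 33) (nat_lit 1) .z) .df .leaf) (nat_lit 17410) (nat_lit 79) (.n (nat_lit 39) (nat_lit 2) (.n (nat_lit 40) (nat_lit 2) (.p (nat_lit 41) (nat_lit 2) (.p (nat_lit 42) (nat_lit 3) (.n (nat_lit 43) (nat_lit 1) (.p (nat_lit 44) (nat_lit 1) (.n (nat_lit 45) (nat_lit 2) (.p (nat_lit 46) (nat_lit 1) (.p (nat_lit 48) (nat_lit 1) .z))))))))) (.ct dR1_c51 (nat_lit 1) (nat_lit 4) (.s true (nat_lit 1) (nat_lit 3) (nat_lit 1) (nat_lit 1) (nat_lit 2) true (nat_lit 0) true (nat_lit 4) true (nat_lit 3) true (nat_lit 5) true (nat_lit 5) (.e false (nat_lit 1) (nat_lit 8) (nat_lit 6) (nat_lit 0) (.e true (nat_lit 2) (nat_lit 15) (nat_lit 3) (nat_lit 3) (.e false (nat_lit 2) (nat_lit 16) (nat_lit 3) (nat_lit 3) (.e false (nat_lit 3) (nat_lit 21) (nat_lit 1) (nat_lit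 5) (.e true (nat_lit 3) (nat_lit 23) (nat_lit 1) (nat_lit 5) (.e true (nat_lit 3) (nat_lit 24) (nat_lit 1) (nat_lit 5) (.e false (nat_lit 3) (nat_lit 25) (nat_lit 1) (nat_lit 5) (.e false (nat_lit 3) (nat_lit 26) (nat_lit 1) (nat_lit 5) (.u (nat_lit 2) (.n (nat_lit 2) (nat_lit 1) (.p (nat_lit 4) (nat_lit 1) .z)) .nil))))))))))) .leaf)) (nat_lit 17411) (nat_lit 95) (.p (nat_lit 49) (nat_lit 2) (.p (nat_lit 50) (nat_lit 2) (.n (nat_lit 51) (nat_lit 1) (.p (nat_lit 52) (nat_lit 3) (.p (nat_lit 53) (nat_lit 1) (.n (nat_lit 54) (nat_lit 3) (.n (nat_lit 55) (nat_lit 1) (.n (nat_lit 56) (nat_lit 1) (.p (nat_lit 57) (nat_lit 2) (.p (nat_lit 58) (nat_lit 1) .z)))))))))) (.ct dR1_c36 (nat_lit 1) (nat_lit 3) (.s true (nat_lit 1) (nat_lit 8) (nat_lit 1) (nat_lit 1) (nat_lit 0) true (nat_lit 3) true (nat_lit 6) true (nat_lit 0) true (nat_lit 5) true (nat_lit 5) (.e true (nat_lit 1)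 (nat_lit 33) (nat_lit 0) (nat_lit 6) (.e false (nat_lit 1) (nat_lit 9) (nat_lit 8) (nat_lit 0) (.e true (nat_lit 1) (nat_lit 27) (nat_lit 1) (nat_lit 5) (.e false (nat_lit 2) (nat_lit 28) (nat_lit 1) (nat_lit 5) (.e false (nat_lit 2) (nat_lit 29) (nat_lit 1) (nat_lit 5) (.e true (nat_lit 1) (nat_lit 30) (nat_lit 1) (nat_lit 5) (.e true (nat_lit 1) (nat_lit 31) (nat_lit 1) (nat_lit 5) (.e false (nat_lit 1) (nat_lit 32) (nat_lit 1) (nat_lit 5) (.u (nat_lit 2) (.n (nat_lit 3) (nat_lit 1) (.p (nat_lit 5) (nat_lit 1) .z)) .nil))))))))))) (.nd (.nd (.nd .leaf (nat_lit 17412) (nat_lit 112) (.n (nat_lit 60) (nat_lit 1) (.p (nat_lit 61) (nat_lit 2) (.n (nat_lit 62) (nat_lit 1) (.p (nat_lit 63) (nat_lit 1) .z)))) (.ct dR1_c21 (nat_lit 1) (nat_lit 1) (.s true (nat_lit 1) (nat_lit 4) (nat_lit 3) (nat_lit 1) (nat_lit 1) true (nat_lit 0) true (nat_lit 3) true (nat_lit 1) true (nat_lit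 2) true (nat_lit 3) (.e false (nat_lit 1) (nat_lit 10) (nat_lit 8) (nat_lit 0) (.e false (nat_lit 1) (nat_lit 36) (nat_lit 1) (nat_lit 3) .nil)))) .leaf) (nat_lit 17414) (nat_lit 149) (.p (nat_lit 64) (nat_lit 2) (.n (nat_lit 65) (nat_lit 2) (.n (nat_lit 66) (nat_lit 3) (.p (nat_lit 67) (nat_lit 1) (.n (nat_lit 68) (nat_lit 3) (.p (nat_lit 69) (nat_lit 2) (.p (nat_lit 70) (nat_lit 2) (.n (nat_lit 71) (nat_lit 3) (.n (nat_lit 74) (nat_lit 1) (.n (nat_lit 75) (nat_lit 2) (.p (nat_lit 76) (nat_lit 2) (.p (nat_lit 78) (nat_lit 3) (.n (nat_lit 79) (nat_lit 2) .z))))))))))))) (.ct dR1_c52 (nat_lit 1) (nat_lit 2) (.s false (nat_lit 1) (nat_lit 17) (nat_lit 0) (nat_lit 0) (nat_lit 1) true (nat_lit 5) true (nat_lit 7) false (nat_lit 2) true (nat_lit 8) true (nat_lit 8) (.e false (nat_lit 1) (nat_lit 30) (nat_lit 3) (nat_lit 5) (.e false (nat_lit 1) (nat_lit 40) (nat_lit 1) (nat_lit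 7) (.e true (nat_lit 1) (nat_lit 42) (nat_lit 1) (nat_lit 7) (.e false (nat_lit 1) (nat_lit 45) (nat_lit 1) (nat_lit 7) (.e true (nat_lit 2) (nat_lit 49) (nat_lit 0) (nat_lit 8) (.e true (nat_lit 2) (nat_lit 50) (nat_lit 0) (nat_lit 8) (.e false (nat_lit 1) (nat_lit 51) (nat_lit 0) (nat_lit 8) (.e true (nat_lit 3) (nat_lit 52) (nat_lit 0) (nat_lit 8) (.e true (nat_lit 1) (nat_lit 53) (nat_lit 0) (nat_lit 8) (.e false (nat_lit 3) (nat_lit 54) (nat_lit 0) (nat_lit 8) (.e false (nat_lit 1) (nat_lit 56) (nat_lit 0) (nat_lit 8) (.e true (nat_lit 2) (nat_lit 57) (nat_lit 0) (nat_lit 8) (.e true (nat_lit 1) (nat_lit 58) (nat_lit 0) (nat_lit 8) (.u (nat_lit 2) (.p (nat_lit 0) (nat_lit 3) (.n (nat_lit 1) (nat_lit 1) (.n (nat_lit 2) (nat_lit 1) (.n (nat_lit 4) (nat_lit 1) (.n (nat_lit 6) (nat_lit 2) (.n (nat_lit 7) (nat_lit 1) (.p (nat_lit 9) (nat_lit 1) (.n (nat_lit 11) (nat_lit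 1) .z)))))))) .nil)))))))))))))))) .leaf) (nat_lit 17415) (nat_lit 161) (.n (nat_lit 64) (nat_lit 2) (.p (nat_lit 65) (nat_lit 1) (.p (nat_lit 66) (nat_lit 2) (.p (nat_lit 67) (nat_lit 2) (.p (nat_lit 68) (nat_lit 3) (.p (nat_lit 70) (nat_lit 1) (.p (nat_lit 73) (nat_lit 1) (.n (nat_lit 74) (nat_lit 1) (.p (nat_lit 76) (nat_lit 1) (.n (nat_lit 78) (nat_lit 1) (.p (nat_lit 79) (nat_lit 2) .z))))))))))) (.ct dR1_c52 (nat_lit 1) (nat_lit 2) (.s false (nat_lit 1) (nat_lit 7) (nat_lit 1) (nat_lit 3) (nat_lit 1) true (nat_lit 4) true (nat_lit 7) true (nat_lit 2) true (nat_lit 7) true (nat_lit 5) (.e true (nat_lit 1) (nat_lit 21) (nat_lit 4) (nat_lit 4) (.e true (nat_lit 1) (nat_lit 23) (nat_lit 4) (nat_lit 4) (.e false (nat_lit 1) (nat_lit 24) (nat_lit 4) (nat_lit 4) (.e false (nat_lit 1) (nat_lit 25) (nat_lit 4) (nat_lit 4) (.e true (nat_lit 1) (nat_lit 26) (nat_lit 4) (nat_lit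 4) (.e false (nat_lit 2) (nat_lit 38) (nat_lit 1) (nat_lit 7) (.e false (nat_lit 1) (nat_lit 39) (nat_lit 1) (nat_lit 7) (.e false (nat_lit 3) (nat_lit 40) (nat_lit 1) (nat_lit 7) (.e true (nat_lit 3) (nat_lit 41) (nat_lit 1) (nat_lit 7) (.e true (nat_lit 3) (nat_lit 42) (nat_lit 1) (nat_lit 7) (.e false (nat_lit 2) (nat_lit 43) (nat_lit 1) (nat_lit 7) (.e true (nat_lit 1) (nat_lit 44) (nat_lit 1) (nat_lit 7) (.e false (nat_lit 1) (nat_lit 45) (nat_lit 1) (nat_lit 7) (.e true (nat_lit 1) (nat_lit 46) (nat_lit 1) (nat_lit 7) (.e false (nat_lit 2) (nat_lit 48) (nat_lit 1) (nat_lit 7) (.e false (nat_lit 1) (nat_lit 28) (nat_lit 3) (nat_lit 5) (.u (nat_lit 2) (.p (nat_lit 0) (nat_lit 1) (.p (nat_lit 1) (nat_lit 1) (.n (nat_lit 3) (nat_lit 1) (.n (nat_lit 4) (nat_lit 1) (.p (nat_lit 6) (nat_lit 1) (.p (nat_lit 8) (nat_lit 1) (.n (nat_lit 9) (nat_lit 1) (.n (nat_lit 14) (nat_lit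 1) .z)))))))) .nil))))))))))))))))))) (.nd (.nd .leaf (nat_lit 17416) (nat_lit 191) (.n (nat_lit 80) (nat_lit 1) (.p (nat_lit 81) (nat_lit 2) (.p (nat_lit 82) (nat_lit 3) (.p (nat_lit 83) (nat_lit 3) (.p (nat_lit 85) (nat_lit 3) (.p (nat_lit 86) (nat_lit 2) (.n (nat_lit 87) (nat_lit 2) (.n (nat_lit 88) (nat_lit 1) (.p (nat_lit 89) (nat_lit 1) (.p (nat_lit 90) (nat_lit 1) .z)))))))))) (.ct dR1_c37 (nat_lit 1) (nat_lit 1) (.s false (nat_lit 1) (nat_lit 8) (nat_lit 1) (nat_lit 1) (nat_lit 3) true (nat_lit 1) true (nat_lit 4) true (nat_lit 1) true (nat_lit 6) true (nat_lit 6) (.e false (nat_lit 1) (nat_lit 33) (nat_lit 3) (nat_lit 4) (.e false (nat_lit 1) (nat_lit 18) (nat_lit 8) (nat_lit 1) (.e true (nat_lit 1) (nat_lit 19) (nat_lit 8) (nat_lit 1) (.e true (nat_lit 2) (nat_lit 49) (nat_lit 1) (nat_lit 6) (.e true (nat_lit 3) (nat_lit 50) (nat_lit 1) (nat_lit 6) (.e false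 (nat_lit 2) (nat_lit 51) (nat_lit 1) (nat_lit 6) (.e true (nat_lit 3) (nat_lit 52) (nat_lit 1) (nat_lit 6) (.e true (nat_lit 1) (nat_lit 53) (nat_lit 1) (nat_lit 6) (.e false (nat_lit 2) (nat_lit 54) (nat_lit 1) (nat_lit 6) (.e false (nat_lit 1) (nat_lit 55) (nat_lit 1) (nat_lit 6) (.e true (nat_lit 1) (nat_lit 57) (nat_lit 1) (nat_lit 6) (.e true (nat_lit 1) (nat_lit 58) (nat_lit 1) (nat_lit 6) (.u (nat_lit 2) (.p (nat_lit 0) (nat_lit 1) (.n (nat_lit 3) (nat_lit 1) (.n (nat_lit 6) (nat_lit 1) (.p (nat_lit 7) (nat_lit 1) (.p (nat_lit 36) (nat_lit 1) .z))))) .nil))))))))))))))) .leaf) (nat_lit 17417) (nat_lit 189) (.p (nat_lit 80) (nat_lit 1) (.n (nat_lit 81) (nat_lit 2) (.n (nat_lit 83) (nat_lit 1) (.p (nat_lit 84) (nat_lit 2) (.p (nat_lit 85) (nat_lit 2) (.p (nat_lit 86) (nat_lit 1) (.n (nat_lit 87) (nat_lit 2) (.p (nat_lit 89) (nat_lit 1) (.p (nat_lit 90) (nat_lit 1)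 .z))))))))) (.ct dR1_c37 (nat_lit 1) (nat_lit 1) (.s true (nat_lit 1) (nat_lit 9) (nat_lit 3) (nat_lit 1) (nat_lit 1) true (nat_lit 1) true (nat_lit 6) true (nat_lit 1) true (nat_lit 4) true (nat_lit 6) (.e false (nat_lit 1) (nat_lit 18) (nat_lit 8) (nat_lit 1) (.e false (nat_lit 2) (nat_lit 49) (nat_lit 1) (nat_lit 6) (.e false (nat_lit 2) (nat_lit 50) (nat_lit 1) (nat_lit 6) (.e true (nat_lit 2) (nat_lit 51) (nat_lit 1) (nat_lit 6) (.e false (nat_lit 3) (nat_lit 53) (nat_lit 1) (nat_lit 6) (.e true (nat_lit 2) (nat_lit 54) (nat_lit 1) (nat_lit 6) (.e false (nat_lit 2) (nat_lit 34) (nat_lit 3) (nat_lit 4) (.e true (nat_lit 2) (nat_lit 35) (nat_lit 3) (nat_lit 4) (.e false (nat_lit 3) (nat_lit 52) (nat_lit 1) (nat_lit 6) (.e true (nat_lit 1) (nat_lit 56) (nat_lit 1) (nat_lit 6) (.e true (nat_lit 1) (nat_lit 58) (nat_lit 1) (nat_lit 6) (.u (nat_lit 2) (.p (nat_lit 1) (nat_lit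 1) (.n (nat_lit 2) (nat_lit 1) (.p (nat_lit 3) (nat_lit 1) (.n (nat_lit 4) (nat_lit 1) (.n (nat_lit 5) (nat_lit 1) (.n (nat_lit 6) (nat_lit 1) (.p (nat_lit 7) (nat_lit 1) (.n (nat_lit 37) (nat_lit 1) .z)))))))) .nil)))))))))))))) .leaf))) (nat_lit 18432) (nat_lit 38) (.p (nat_lit 31) (nat_lit 1) .z) .df (.nd (.nd (.nd (.nd .leaf (nat_lit 18433) (nat_lit 46) (.p (nat_lit 34) (nat_lit 1) .z) .df .leaf) (nat_lit 18434) (nat_lit 72) (.p (nat_lit 39) (nat_lit 2) (.n (nat_lit 41) (nat_lit 2) (.n (nat_lit 44) (nat_lit 2) (.p (nat_lit 45) (nat_lit 2) (.n (nat_lit 46) (nat_lit 2) (.p (nat_lit 47) (nat_lit 1) .z)))))) (.ct dR1_c51 (nat_lit 1) (nat_lit 4) (.s true (nat_lit 1) (nat_lit 3) (nat_lit 2) (nat_lit 1) (nat_lit 1) true (nat_lit 0) true (nat_lit 5) true (nat_lit 3) true (nat_lit 4) true (nat_lit 5) (.s false (nat_lit 1) (nat_lit 6) (nat_lit 0) (nat_lit 1) (nat_lit 1) true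 (nat_lit 3) true (nat_lit 5) true (nat_lit 0) true (nat_lit 6) true (nat_lit 5) (.e false (nat_lit 2) (nat_lit 22) (nat_lit 1) (nat_lit 5) (.e false (nat_lit 1) (nat_lit 19) (nat_lit 2) (nat_lit 4) (.e true (nat_lit 2) (nat_lit 24) (nat_lit 1) (nat_lit 5) (.e false (nat_lit 1) (nat_lit 26) (nat_lit 1) (nat_lit 5) (.e true (nat_lit 1) (nat_lit 32) (nat_lit 0) (nat_lit 6) .nil)))))))) .leaf) (nat_lit 18435) (nat_lit 93) (.n (nat_lit 49) (nat_lit 3) (.n (nat_lit 50) (nat_lit 1) (.p (nat_lit 51) (nat_lit 3) (.n (nat_lit 52) (nat_lit 3) (.p (nat_lit 53) (nat_lit 3) (.p (nat_lit 54) (nat_lit 3) (.p (nat_lit 56) (nat_lit 1) (.p (nat_lit 58) (nat_lit 1) .z)))))))) (.ct dR1_c36 (nat_lit 1) (nat_lit 3) (.s true (nat_lit 1) (nat_lit 9) (nat_lit 0) (nat_lit 1) (nat_lit 1) true (nat_lit 3) true (nat_lit 5) true (nat_lit 0) true (nat_lit 6) true (nat_lit 5) (.a false (nat_lit 1) (nat_lit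 8) (nat_lit 9) (nat_lit 0) (nat_lit 0) (.e false (nat_lit 1) (nat_lit 27) (nat_lit 1) (nat_lit 5) (.e true (nat_lit 1) (nat_lit 28) (nat_lit 1) (nat_lit 5) (.e true (nat_lit 1) (nat_lit 29) (nat_lit 1) (nat_lit 5) (.e false (nat_lit 2) (nat_lit 34) (nat_lit 0) (nat_lit 6) (.e true (nat_lit 2) (nat_lit 35) (nat_lit 0) (nat_lit 6) (.e false (nat_lit 1) (nat_lit 31) (nat_lit 1) (nat_lit 5) (.e false (nat_lit 1) (nat_lit 9) (nat_lit 8) (nat_lit 0) (.u (nat_lit 2) (.p (nat_lit 0) (nat_lit 1) (.n (nat_lit 2) (nat_lit 1) .z)) .nil))))))))))) (.nd (.nd .leaf (nat_lit 18436) (nat_lit 108) (.p (nat_lit 60) (nat_lit 2) (.n (nat_lit 61) (nat_lit 2) (.p (nat_lit 63) (nat_lit 1) .z))) (.ct dR1_c21 (nat_lit 1) (nat_lit 1) (.s false (nat_lit 1) (nat_lit 4) (nat_lit 0) (nat_lit 4) (nat_lit 1) true (nat_lit 2) true (nat_lit 3) true (nat_lit 1) true (nat_lit 4) true (nat_lit 1) (.e false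 (nat_lit 2) (nat_lit 34) (nat_lit 1) (nat_lit 3) (.e true (nat_lit 2) (nat_lit 35) (nat_lit 1) (nat_lit 3) (.e false (nat_lit 1) (nat_lit 19) (nat_lit 4) (nat_lit 1) .nil))))) .leaf) (nat_lit 18438) (nat_lit 145) (.p (nat_lit 64) (nat_lit 3) (.n (nat_lit 65) (nat_lit 2) (.n (nat_lit 66) (nat_lit 1) (.n (nat_lit 67) (nat_lit 1) (.p (nat_lit 68) (nat_lit 1) (.p (nat_lit 69) (nat_lit 1) (.p (nat_lit 70) (nat_lit 2) (.n (nat_lit 71) (nat_lit 2) (.n (nat_lit 73) (nat_lit 1) (.p (nat_lit 75) (nat_lit 2) (.n (nat_lit 76) (nat_lit 2) (.p (nat_lit 78) (nat_lit 1) .z)))))))))))) (.ct dR1_c52 (nat_lit 1) (nat_lit 2) (.s true (nat_lit 1) (nat_lit 6) (nat_lit 4) (nat_lit 0) (nat_lit 1) true (nat_lit 0) true (nat_lit 7) true (nat_lit 2) true (nat_lit 4) true (nat_lit 8) (.e false (nat_lit 1) (nat_lit 12) (nat_lit 10) (nat_lit 0) (.e true (nat_lit 1) (nat_lit 46) (nat_lit 1) (nat_lit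 7) (.e true (nat_lit 2) (nat_lit 21) (nat_lit 4) (nat_lit 4) (.e true (nat_lit 1) (nat_lit 22) (nat_lit 4) (nat_lit 4) (.e false (nat_lit 3) (nat_lit 23) (nat_lit 4) (nat_lit 4) (.e false (nat_lit 3) (nat_lit 24) (nat_lit 4) (nat_lit 4) (.e true (nat_lit 3) (nat_lit 25) (nat_lit 4) (nat_lit 4) (.e true (nat_lit 3) (nat_lit 26) (nat_lit 4) (nat_lit 4) (.e true (nat_lit 1) (nat_lit 58) (nat_lit 0) (nat_lit 8) (.u (nat_lit 2) (.n (nat_lit 0) (nat_lit 1) (.n (nat_lit 1) (nat_lit 1) (.p (nat_lit 2) (nat_lit 3) (.p (nat_lit 3) (nat_lit 2) (.p (nat_lit 4) (nat_lit 2) (.p (nat_lit 5) (nat_lit 2) (.n (nat_lit 9) (nat_lit 3) (.p (nat_lit 14) (nat_lit 3) .z)))))))) .nil)))))))))))) .leaf)) (nat_lit 18440) (nat_lit 179) (.p (nat_lit 80) (nat_lit 3) (.p (nat_lit 81) (nat_lit 3) (.p (nat_lit 82) (nat_lit 1) (.n (nat_lit 83) (nat_lit 1) (.p (nat_lit 84) (nat_lit 2) (.p (nat_lit 85)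 (nat_lit 2) (.n (nat_lit 86) (nat_lit 2) (.p (nat_lit 89) (nat_lit 1) (.p (nat_lit 90) (nat_lit 1) .z))))))))) (.ct dR1_c37 (nat_lit 1) (nat_lit 1) (.s false (nat_lit 1) (nat_lit 18) (nat_lit 1) (nat_lit 0) (nat_lit 1) true (nat_lit 3) true (nat_lit 6) false (nat_lit 1) true (nat_lit 6) true (nat_lit 7) (.e false (nat_lit 1) (nat_lit 31) (nat_lit 4) (nat_lit 3) (.e false (nat_lit 3) (nat_lit 49) (nat_lit 1) (nat_lit 6) (.e false (nat_lit 1) (nat_lit 50) (nat_lit 1) (nat_lit 6) (.e true (nat_lit 3) (nat_lit 51) (nat_lit 1) (nat_lit 6) (.e false (nat_lit 3) (nat_lit 52) (nat_lit 1) (nat_lit 6) (.e true (nat_lit 3) (nat_lit 53) (nat_lit 1) (nat_lit 6) (.e true (nat_lit 3) (nat_lit 54) (nat_lit 1) (nat_lit 6) (.e true (nat_lit 1) (nat_lit 58) (nat_lit 1) (nat_lit 6) (.e true (nat_lit 1) (nat_lit 60) (nat_lit 0) (nat_lit 7) (.u (nat_lit 2) (.n (nat_lit 2) (nat_lit 1) (.p (nat_lit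 3) (nat_lit 1) (.n (nat_lit 4) (nat_lit 1) (.n (nat_lit 5) (nat_lit 1) .z)))) .nil)))))))))))) (.nd (.nd (.nd .leaf (nat_lit 18441) (nat_lit 181) (.p (nat_lit 80) (nat_lit 1) (.p (nat_lit 82) (nat_lit 3) (.n (nat_lit 83) (nat_lit 3) (.p (nat_lit 85) (nat_lit 3) (.n (nat_lit 86) (nat_lit 2) (.n (nat_lit 87) (nat_lit 1) (.p (nat_lit 89) (nat_lit 2) (.p (nat_lit 90) (nat_lit 1) .z)))))))) (.ct dR1_c37 (nat_lit 1) (nat_lit 1) (.s false (nat_lit 1) (nat_lit 18) (nat_lit 1) (nat_lit 1) (nat_lit 0) true (nat_lit 4) true (nat_lit 7) false (nat_lit 1) true (nat_lit 6) true (nat_lit 6) (.e false (nat_lit 1) (nat_lit 34) (nat_lit 3) (nat_lit 4) (.e false (nat_lit 1) (nat_lit 60) (nat_lit 0) (nat_lit 7) (.e false (nat_lit 3) (nat_lit 49) (nat_lit 1) (nat_lit 6) (.e false (nat_lit 1) (nat_lit 50) (nat_lit 1) (nat_lit 6) (.e true (nat_lit 3) (nat_lit 51) (nat_lit 1) (nat_lit 6) (.e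 false (nat_lit 3) (nat_lit 52) (nat_lit 1) (nat_lit 6) (.e false (nat_lit 3) (nat_lit 53) (nat_lit 1) (nat_lit 6) (.e true (nat_lit 3) (nat_lit 54) (nat_lit 1) (nat_lit 6) (.e true (nat_lit 1) (nat_lit 56) (nat_lit 1) (nat_lit 6) (.e true (nat_lit 1) (nat_lit 58) (nat_lit 1) (nat_lit 6) (.u (nat_lit 2) (.n (nat_lit 2) (nat_lit 1) (.p (nat_lit 3) (nat_lit 1) (.n (nat_lit 5) (nat_lit 1) (.n (nat_lit 37) (nat_lit 1) .z)))) .nil))))))))))))) .leaf) (nat_lit 19456) (nat_lit 44) (.n (nat_lit 27) (nat_lit 2) (.n (nat_lit 28) (nat_lit 2) (.p (nat_lit 29) (nat_lit 1) (.n (nat_lit 30) (nat_lit 2) (.n (nat_lit 31) (nat_lit 1) (.p (nat_lit 32) (nat_lit 2) .z)))))) (.ct dR1_c35 (nat_lit 1) (nat_lit 4) (.s false (nat_lit 1) (nat_lit 3) (nat_lit 0) (nat_lit 1) (nat_lit 1) true (nat_lit 1) true (nat_lit 3) true (nat_lit 1) true (nat_lit 4) true (nat_lit 3) (.e false (nat_lit 2) (nat_lit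 8) (nat_lit 3) (nat_lit 1) (.e false (nat_lit 1) (nat_lit 15) (nat_lit 1) (nat_lit 3) (.e false (nat_lit 1) (nat_lit 18) (nat_lit 0) (nat_lit 4) (.e true (nat_lit 1) (nat_lit 16) (nat_lit 1) (nat_lit 3) (.u (nat_lit 2) (.p (nat_lit 1) (nat_lit 1) .z) .nil))))))) .leaf) (nat_lit 19457) (nat_lit 47) (.p (nat_lit 35) (nat_lit 1) .z) .df (.nd (.nd .leaf (nat_lit 19458) (nat_lit 69) (.n (nat_lit 43) (nat_lit 1) (.n (nat_lit 44) (nat_lit 2) (.p (nat_lit 45) (nat_lit 2) (.n (nat_lit 46) (nat_lit 1) (.p (nat_lit 47) (nat_lit 1) .z))))) (.ct dR1_c51 (nat_lit 1) (nat_lit 4) (.s true (nat_lit 1) (nat_lit 10) (nat_lit 0) (nat_lit 0) (nat_lit 0) true (nat_lit 4) true (nat_lit 6) false (nat_lit 1) true (nat_lit 6) true (nat_lit 6) (.e true (nat_lit 2) (nat_lit 28) (nat_lit 0) (nat_lit 6) (.e false (nat_lit 2) (nat_lit 29) (nat_lit 0) (nat_lit 6) (.e true (nat_lit 1) (nat_lit 32) (nat_lit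 0) (nat_lit 6) (.e false (nat_lit 1) (nat_lit 10) (nat_lit 5) (nat_lit 1) .nil)))))) .leaf) (nat_lit 19459) (nat_lit 91) (.p (nat_lit 49) (nat_lit 2) (.p (nat_lit 50) (nat_lit 2) (.n (nat_lit 51) (nat_lit 1) (.p (nat_lit 52) (nat_lit 2) (.p (nat_lit 53) (nat_lit 1) (.n (nat_lit 54) (nat_lit 3) (.p (nat_lit 57) (nat_lit 1) (.p (nat_lit 58) (nat_lit 1) .z)))))))) (.ct dR1_c36 (nat_lit 1) (nat_lit 3) (.s true (nat_lit 1) (nat_lit 10) (nat_lit 0) (nat_lit 0) (nat_lit 1) true (nat_lit 3) true (nat_lit 5) false (nat_lit 1) true (nat_lit 6) true (nat_lit 6) (.e false (nat_lit 2) (nat_lit 27) (nat_lit 1) (nat_lit 5) (.e false (nat_lit 2) (nat_lit 28) (nat_lit 1) (nat_lit 5) (.e true (nat_lit 1) (nat_lit 29) (nat_lit 1) (nat_lit 5) (.e false (nat_lit 2) (nat_lit 30) (nat_lit 1) (nat_lit 5) (.e false (nat_lit 1) (nat_lit 31) (nat_lit 1) (nat_lit 5) (.e true (nat_lit 2) (nat_lit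 32) (nat_lit 1) (nat_lit 5) (.e false (nat_lit 1) (nat_lit 10) (nat_lit 6) (nat_lit 1) (.e false (nat_lit 1) (nat_lit 35) (nat_lit 0) (nat_lit 6) .nil)))))))))) .leaf))))))

noncomputable def dR1_t1 : Tr := (.nd (.nd (.nd (.nd (.nd (.nd (.nd .leaf (nat_lit 19462) (nat_lit 143) (.n (nat_lit 64) (nat_lit 2) (.p (nat_lit 65) (nat_lit 1) (.p (nat_lit 66) (nat_lit 3) (.p (nat_lit 67) (nat_lit 1) (.p (nat_lit 68) (nat_lit 2) (.n (nat_lit 69) (nat_lit 2) (.n (nat_lit 70) (nat_lit 1) (.p (nat_lit 71) (nat_lit 3) (.n (nat_lit 72) (nat_lit 1) (.n (nat_lit 73) (nat_lit 2) (.n (nat_lit 78) (nat_lit 1) (.p (nat_lit 79) (nat_lit 2) .z)))))))))))) (.ct dR1_c52 (nat_lit 1) (nat_lit 2) (.s false (nat_lit 1) (nat_lit 6) (nat_lit 1) (nat_lit 4) (nat_lit 0) true (nat_lit 5) true (nat_lit 8) true (nat_lit 2) true (nat_lit 7) true (nat_lit 4) (.e true (nat_lit 1) (nat_lit 32) (nat_lit 3) (nat_lit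 5) (.e false (nat_lit 1) (nat_lit 58) (nat_lit 0) (nat_lit 8) (.e false (nat_lit 2) (nat_lit 38) (nat_lit 1) (nat_lit 7) (.e true (nat_lit 3) (nat_lit 40) (nat_lit 1) (nat_lit 7) (.e true (nat_lit 2) (nat_lit 41) (nat_lit 1) (nat_lit 7) (.e false (nat_lit 3) (nat_lit 42) (nat_lit 1) (nat_lit 7) (.e false (nat_lit 3) (nat_lit 43) (nat_lit 1) (nat_lit 7) (.e true (nat_lit 2) (nat_lit 44) (nat_lit 1) (nat_lit 7) (.e false (nat_lit 2) (nat_lit 45) (nat_lit 1) (nat_lit 7) (.e false (nat_lit 1) (nat_lit 47) (nat_lit 1) (nat_lit 7) (.e false (nat_lit 1) (nat_lit 22) (nat_lit 4) (nat_lit 4) (.u (nat_lit 2) (.n (nat_lit 2) (nat_lit 1) (.p (nat_lit 5) (nat_lit 1) (.p (nat_lit 9) (nat_lit 1) (.p (nat_lit 14) (nat_lit 1) (.n (nat_lit 15) (nat_lit 1) .z))))) .nil)))))))))))))) .leaf) (nat_lit 19464) (nat_lit 184) (.n (nat_lit 80) (nat_lit 3) (.n (nat_lit 81) (nat_lit 2) (.p (nat_lit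 82) (nat_lit 1) (.n (nat_lit 84) (nat_lit 1) (.n (nat_lit 87) (nat_lit 3) (.p (nat_lit 89) (nat_lit 1) (.p (nat_lit 90) (nat_lit 1) .z))))))) (.ct dR1_c37 (nat_lit 1) (nat_lit 1) (.s false (nat_lit 1) (nat_lit 10) (nat_lit 1) (nat_lit 0) (nat_lit 3) true (nat_lit 1) true (nat_lit 4) true (nat_lit 0) true (nat_lit 6) true (nat_lit 7) (.e false (nat_lit 1) (nat_lit 34) (nat_lit 3) (nat_lit 4) (.e false (nat_lit 1) (nat_lit 36) (nat_lit 3) (nat_lit 4) (.e true (nat_lit 1) (nat_lit 49) (nat_lit 1) (nat_lit 6) (.e false (nat_lit 2) (nat_lit 50) (nat_lit 1) (nat_lit 6) (.e false (nat_lit 2) (nat_lit 54) (nat_lit 1) (nat_lit 6) (.e true (nat_lit 1) (nat_lit 57) (nat_lit 1) (nat_lit 6) (.e true (nat_lit 1) (nat_lit 58) (nat_lit 1) (nat_lit 6) (.u (nat_lit 2) (.n (nat_lit 2) (nat_lit 1) (.p (nat_lit 3) (nat_lit 1) (.n (nat_lit 4) (nat_lit 1) (.n (nat_lit 6) (nat_lit 1) (.p (nat_lit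 7) (nat_lit 1) .z))))) .nil)))))))))) (.nd .leaf (nat_lit 19465) (nat_lit 188) (.p (nat_lit 80) (nat_lit 1) (.n (nat_lit 81) (nat_lit 3) (.p (nat_lit 82) (nat_lit 1) (.p (nat_lit 83) (nat_lit 1) (.p (nat_lit 84) (nat_lit 2) (.n (nat_lit 85) (nat_lit 2) (.n (nat_lit 86) (nat_lit 1) (.n (nat_lit 87) (nat_lit 3) (.p (nat_lit 89) (nat_lit 2) (.p (nat_lit 90) (nat_lit 1) .z)))))))))) (.ct dR1_c37 (nat_lit 1) (nat_lit 1) (.s false (nat_lit 1) (nat_lit 19) (nat_lit 1) (nat_lit 1) (nat_lit 0) true (nat_lit 4) true (nat_lit 7) false (nat_lit 1) true (nat_lit 6) true (nat_lit 6) (.e false (nat_lit 1) (nat_lit 35) (nat_lit 3) (nat_lit 4) (.e false (nat_lit 1) (nat_lit 61) (nat_lit 0) (nat_lit 7) (.e false (nat_lit 1) (nat_lit 54) (nat_lit 1) (nat_lit 6) (.e true (nat_lit 1) (nat_lit 57) (nat_lit 1) (nat_lit 6) (.e true (nat_lit 1) (nat_lit 58) (nat_lit 1) (nat_lit 6) (.u (nat_lit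 2) (.p (nat_lit 5) (nat_lit 1) .z) .nil)))))))) .leaf)) (nat_lit 20480) (nat_lit 51) (.p (nat_lit 34) (nat_lit 1) (.p (nat_lit 36) (nat_lit 1) .z)) (.ct dR1_c20 (nat_lit 1) (nat_lit 3) (.s false (nat_lit 1) (nat_lit 4) (nat_lit 1) (nat_lit 0) (nat_lit 1) true (nat_lit 0) true (nat_lit 2) true (nat_lit 0) true (nat_lit 2) true (nat_lit 3) (.e false (nat_lit 1) (nat_lit 9) (nat_lit 4) (nat_lit 0) (.e false (nat_lit 2) (nat_lit 19) (nat_lit 1) (nat_lit 2) (.e false (nat_lit 1) (nat_lit 8) (nat_lit 4) (nat_lit 0) (.e true (nat_lit 1) (nat_lit 18) (nat_lit 1) (nat_lit 2) .nil)))))) (.nd (.nd .leaf (nat_lit 20481) (nat_lit 52) (.p (nat_lit 37) (nat_lit 1) .z) .df .leaf) (nat_lit 20482) (nat_lit 101) (.p (nat_lit 50) (nat_lit 2) (.n (nat_lit 51) (nat_lit 2) (.p (nat_lit 58) (nat_lit 1) .z))) (.ct dR1_c36 (nat_lit 1) (nat_lit 4) (.s true (nat_lit 1) (nat_lit 4) (nat_lit 1) (nat_lit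 2) (nat_lit 1) true (nat_lit 2) true (nat_lit 5) true (nat_lit 2) true (nat_lit 5) true (nat_lit 4) (.e false (nat_lit 2) (nat_lit 15) (nat_lit 4) (nat_lit 2) (.e true (nat_lit 2) (nat_lit 16) (nat_lit 4) (nat_lit 2) (.e false (nat_lit 2) (nat_lit 28) (nat_lit 1) (nat_lit 5) (.e true (nat_lit 2) (nat_lit 29) (nat_lit 1) (nat_lit 5) (.e false (nat_lit 2) (nat_lit 32) (nat_lit 1) (nat_lit 5) (.e false (nat_lit 1) (nat_lit 14) (nat_lit 4) (nat_lit 2) .nil)))))))) .leaf)) (nat_lit 20483) (nat_lit 109) (.p (nat_lit 61) (nat_lit 1) (.n (nat_lit 62) (nat_lit 1) (.p (nat_lit 63) (nat_lit 1) .z))) (.ct dR1_c21 (nat_lit 1) (nat_lit 2) (.s true (nat_lit 2) (nat_lit 10) (nat_lit 0) (nat_lit 1) (nat_lit 1) true (nat_lit 2) true (nat_lit 3) false (nat_lit 0) true (nat_lit 4) true (nat_lit 3) (.s false (nat_lit 2) (nat_lit 10) (nat_lit 1) (nat_lit 0) (nat_lit 1) true (nat_lit 1) true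 (nat_lit 3) false (nat_lit 0) true (nat_lit 3) true (nat_lit 4) (.s false (nat_lit 1) (nat_lit 10) (nat_lit 1) (nat_lit 1) (nat_lit 0) true (nat_lit 2) true (nat_lit 4) false (nat_lit 0) true (nat_lit 3) true (nat_lit 3) (.e false (nat_lit 1) (nat_lit 35) (nat_lit 1) (nat_lit 3) (.e false (nat_lit 2) (nat_lit 19) (nat_lit 4) (nat_lit 1) (.e true (nat_lit 1) (nat_lit 37) (nat_lit 0) (nat_lit 4) (.e true (nat_lit 1) (nat_lit 10) (nat_lit 9) (nat_lit 0) (.u (nat_lit 2) (.p (nat_lit 12) (nat_lit 1) (.n (nat_lit 13) (nat_lit 1) (.p (nat_lit 14) (nat_lit 1) .z))) .nil))))))))) (.nd (.nd (.nd .leaf (nat_lit 20485) (nat_lit 132) (.n (nat_lit 69) (nat_lit 1) (.p (nat_lit 78) (nat_lit 1) .z)) (.ct dR1_c52 (nat_lit 1) (nat_lit 3) (.s false (nat_lit 1) (nat_lit 5) (nat_lit 1) (nat_lit 4) (nat_lit 1) true (nat_lit 4) true (nat_lit 7) true (nat_lit 3) true (nat_lit 7) true (nat_lit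 4) (.e true (nat_lit 1) (nat_lit 26) (nat_lit 4) (nat_lit 4) (.e false (nat_lit 2) (nat_lit 47) (nat_lit 1) (nat_lit 7) (.e true (nat_lit 1) (nat_lit 43) (nat_lit 1) (nat_lit 7) (.e false (nat_lit 1) (nat_lit 21) (nat_lit 4) (nat_lit 4) .nil)))))) .leaf) (nat_lit 20486) (nat_lit 177) (.n (nat_lit 85) (nat_lit 1) (.p (nat_lit 90) (nat_lit 1) .z)) (.ct dR1_c37 (nat_lit 1) (nat_lit 2) (.s false (nat_lit 1) (nat_lit 6) (nat_lit 1) (nat_lit 4) (nat_lit 1) true (nat_lit 3) true (nat_lit 6) true (nat_lit 2) true (nat_lit 6) true (nat_lit 3) (.e true (nat_lit 1) (nat_lit 32) (nat_lit 4) (nat_lit 3) (.e false (nat_lit 2) (nat_lit 58) (nat_lit 1) (nat_lit 6) (.e true (nat_lit 1) (nat_lit 54) (nat_lit 1) (nat_lit 6) (.e false (nat_lit 1) (nat_lit 27) (nat_lit 4) (nat_lit 3) .nil)))))) .leaf) (nat_lit 20487) (nat_lit 193) (.n (nat_lit 80) (nat_lit 3) (.n (nat_lit 82) (nat_lit 1)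 (.p (nat_lit 83) (nat_lit 1) (.p (nat_lit 84) (nat_lit 3) (.p (nat_lit 85) (nat_lit 1) (.n (nat_lit 86) (nat_lit 1) (.p (nat_lit 89) (nat_lit 1) (.p (nat_lit 90) (nat_lit 1) .z)))))))) (.ct dR1_c37 (nat_lit 1) (nat_lit 2) (.s false (nat_lit 1) (nat_lit 20) (nat_lit 1) (nat_lit 0) (nat_lit 0) true (nat_lit 4) true (nat_lit 7) false (nat_lit 2) true (nat_lit 6) true (nat_lit 7) (.e false (nat_lit 1) (nat_lit 34) (nat_lit 3) (nat_lit 4) (.e false (nat_lit 1) (nat_lit 36) (nat_lit 3) (nat_lit 4) (.e false (nat_lit 1) (nat_lit 62) (nat_lit 0) (nat_lit 7) (.e true (nat_lit 2) (nat_lit 50) (nat_lit 1) (nat_lit 6) (.e false (nat_lit 2) (nat_lit 51) (nat_lit 1) (nat_lit 6) (.e true (nat_lit 1) (nat_lit 58) (nat_lit 1) (nat_lit 6) (.e true (nat_lit 1) (nat_lit 61) (nat_lit 0) (nat_lit 7) (.u (nat_lit 2) (.n (nat_lit 1) (nat_lit 1) (.p (nat_lit 3) (nat_lit 1) (.n (nat_lit 4) (nat_lit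 2) (.n (nat_lit 5) (nat_lit 1) (.n (nat_lit 6) (nat_lit 1) (.p (nat_lit 7) (nat_lit 1) .z)))))) .nil)))))))))) (.nd (.nd .leaf (nat_lit 21505) (nat_lit 54) (.p (nat_lit 38) (nat_lit 1) .z) .df .leaf) (nat_lit 21508) (nat_lit 127) (.p (nat_lit 78) (nat_lit 1) .z) .df .leaf))) (nat_lit 22529) (nat_lit 55) (.p (nat_lit 39) (nat_lit 1) .z) .df (.nd (.nd (.nd (.nd .leaf (nat_lit 22532) (nat_lit 128) (.p (nat_lit 79) (nat_lit 1) .z) .df .leaf) (nat_lit 23553) (nat_lit 56) (.p (nat_lit 40) (nat_lit 1) .z) .df .leaf) (nat_lit 23556) (nat_lit 137) (.p (nat_lit 64) (nat_lit 1) (.n (nat_lit 65) (nat_lit 3) (.p (nat_lit 66) (nat_lit 2) (.p (nat_lit 67) (nat_lit 3) (.n (nat_lit 68) (nat_lit 1) (.p (nat_lit 70) (nat_lit 2) (.p (nat_lit 71) (nat_lit 2) (.n (nat_lit 73) (nat_lit 1) (.n (nat_lit 74) (nat_lit 1) (.p (nat_lit 76) (nat_lit 2) (.p (nat_lit 78) (nat_lit 3) (.n (nat_lit 79)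 (nat_lit 2) .z)))))))))))) (.ct dR1_c52 (nat_lit 1) (nat_lit 4) (.s false (nat_lit 3) (nat_lit 4) (nat_lit 2) (nat_lit 3) (nat_lit 1) true (nat_lit 2) true (nat_lit 7) true (nat_lit 4) true (nat_lit 6) true (nat_lit 5) (.s true (nat_lit 3) (nat_lit 4) (nat_lit 3) (nat_lit 2) (nat_lit 1) true (nat_lit 1) true (nat_lit 7) true (nat_lit 4) true (nat_lit 5) true (nat_lit 6) (.s false (nat_lit 1) (nat_lit 7) (nat_lit 1) (nat_lit 0) (nat_lit 4) true (nat_lit 0) true (nat_lit 4) true (nat_lit 2) true (nat_lit 7) true (nat_lit 8) (.s false (nat_lit 1) (nat_lit 8) (nat_lit 1) (nat_lit 0) (nat_lit 3) true (nat_lit 1) true (nat_lit 5) true (nat_lit 1) true (nat_lit 7) true (nat_lit 8) (.s true (nat_lit 3) (nat_lit 9) (nat_lit 1) (nat_lit 1) (nat_lit 2) true (nat_lit 2) true (nat_lit 6) true (nat_lit 1) true (nat_lit 7) true (nat_lit 7) (.s false (nat_lit 3) (nat_lit 10) (nat_lit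 0) (nat_lit 1) (nat_lit 2) true (nat_lit 3) true (nat_lit 6) true (nat_lit 0) true (nat_lit 8) true (nat_lit 7) (.s false (nat_lit 3) (nat_lit 10) (nat_lit 1) (nat_lit 0) (nat_lit 2) true (nat_lit 2) true (nat_lit 6) true (nat_lit 0) true (nat_lit 7) true (nat_lit 8) (.s true (nat_lit 1) (nat_lit 13) (nat_lit 1) (nat_lit 1) (nat_lit 1) true (nat_lit 4) true (nat_lit 7) false (nat_lit 0) true (nat_lit 7) true (nat_lit 7) dR1_i0))))))))) (.nd (.nd .leaf (nat_lit 24577) (nat_lit 57) (.p (nat_lit 41) (nat_lit 1) .z) .df .leaf) (nat_lit 24580) (nat_lit 141) (.n (nat_lit 64) (nat_lit 2) (.p (nat_lit 65) (nat_lit 2) (.p (nat_lit 66) (nat_lit 3) (.p (nat_lit 68) (nat_lit 3) (.p (nat_lit 69) (nat_lit 3) (.p (nat_lit 70) (nat_lit 1) (.p (nat_lit 72) (nat_lit 2) (.n (nat_lit 73) (nat_lit 3) (.p (nat_lit 78) (nat_lit 3) (.n (nat_lit 79) (nat_lit 2) .z)))))))))) (.ct dR1_c52 (nat_lit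 1) (nat_lit 4) (.s true (nat_lit 3) (nat_lit 8) (nat_lit 1) (nat_lit 0) (nat_lit 3) true (nat_lit 1) true (nat_lit 5) true (nat_lit 1) true (nat_lit 7) true (nat_lit 8) (.s false (nat_lit 3) (nat_lit 16) (nat_lit 1) (nat_lit 0) (nat_lit 1) true (nat_lit 4) true (nat_lit 7) false (nat_lit 1) true (nat_lit 7) true (nat_lit 8) (.e true (nat_lit 3) (nat_lit 30) (nat_lit 3) (nat_lit 5) (.e false (nat_lit 3) (nat_lit 38) (nat_lit 1) (nat_lit 7) (.e false (nat_lit 3) (nat_lit 40) (nat_lit 1) (nat_lit 7) (.e true (nat_lit 3) (nat_lit 41) (nat_lit 1) (nat_lit 7) (.e true (nat_lit 3) (nat_lit 42) (nat_lit 1) (nat_lit 7) (.e false (nat_lit 3) (nat_lit 43) (nat_lit 1) (nat_lit 7) (.e true (nat_lit 3) (nat_lit 49) (nat_lit 0) (nat_lit 8) (.e true (nat_lit 1) (nat_lit 50) (nat_lit 0) (nat_lit 8) (.e true (nat_lit 3) (nat_lit 52) (nat_lit 0) (nat_lit 8) (.e true (nat_lit 3) (nat_lit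 53) (nat_lit 0) (nat_lit 8) (.e false (nat_lit 3) (nat_lit 54) (nat_lit 0) (nat_lit 8) (.e true (nat_lit 3) (nat_lit 21) (nat_lit 4) (nat_lit 4) (.e true (nat_lit 3) (nat_lit 22) (nat_lit 4) (nat_lit 4) (.e false (nat_lit 1) (nat_lit 23) (nat_lit 4) (nat_lit 4) (.e false (nat_lit 2) (nat_lit 25) (nat_lit 4) (nat_lit 4) (.e false (nat_lit 1) (nat_lit 26) (nat_lit 4) (nat_lit 4) (.e false (nat_lit 3) (nat_lit 45) (nat_lit 1) (nat_lit 7) (.u (nat_lit 2) (.p (nat_lit 0) (nat_lit 1) (.n (nat_lit 2) (nat_lit 1) (.n (nat_lit 3) (nat_lit 1) (.n (nat_lit 4) (nat_lit 2) (.n (nat_lit 5) (nat_lit 2) (.p (nat_lit 6) (nat_lit 2) (.n (nat_lit 7) (nat_lit 2) (.n (nat_lit 8) (nat_lit 1) (.p (nat_lit 9) (nat_lit 4) (.n (nat_lit 11) (nat_lit 1) (.n (nat_lit 14) (nat_lit 3) (.n (nat_lit 34) (nat_lit 1) (.p (nat_lit 35) (nat_lit 1) (.p (nat_lit 36) (nat_lit 1) (.n (nat_lit 37) (nat_lit 1)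 (.p (nat_lit 60) (nat_lit 1) .z)))))))))))))))) .nil))))))))))))))))))))) .leaf)) (nat_lit 25601) (nat_lit 58) (.p (nat_lit 42) (nat_lit 1) .z) .df (.nd (.nd (.nd .leaf (nat_lit 25604) (nat_lit 140) (.p (nat_lit 64) (nat_lit 2) (.p (nat_lit 65) (nat_lit 1) (.n (nat_lit 66) (nat_lit 3) (.n (nat_lit 67) (nat_lit 2) (.n (nat_lit 68) (nat_lit 2) (.n (nat_lit 69) (nat_lit 1) (.p (nat_lit 70) (nat_lit 2) (.p (nat_lit 71) (nat_lit 1) (.p (nat_lit 72) (nat_lit 2) (.n (nat_lit 74) (nat_lit 1) (.p (nat_lit 76) (nat_lit 2) (.n (nat_lit 78) (nat_lit 3) (.n (nat_lit 79) (nat_lit 3) .z))))))))))))) (.ct dR1_c52 (nat_lit 1) (nat_lit 4) (.s true (nat_lit 3) (nat_lit 4) (nat_lit 3) (nat_lit 2) (nat_lit 1) true (nat_lit 1) true (nat_lit 7) true (nat_lit 4) true (nat_lit 5) true (nat_lit 6) (.s false (nat_lit 1) (nat_lit 8) (nat_lit 1) (nat_lit 0) (nat_lit 3) true (nat_lit 1) true (nat_lit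 5) true (nat_lit 1) true (nat_lit 7) true (nat_lit 8) (.s true (nat_lit 3) (nat_lit 10) (nat_lit 0) (nat_lit 1) (nat_lit 2) true (nat_lit 3) true (nat_lit 6) true (nat_lit 0) true (nat_lit 8) true (nat_lit 7) (.s true (nat_lit 1) (nat_lit 15) (nat_lit 1) (nat_lit 0) (nat_lit 1) true (nat_lit 4) true (nat_lit 7) false (nat_lit 1) true (nat_lit 7) true (nat_lit 8) (.s false (nat_lit 3) (nat_lit 20) (nat_lit 0) (nat_lit 0) (nat_lit 0) true (nat_lit 6) true (nat_lit 8) false (nat_lit 3) true (nat_lit 8) true (nat_lit 8) (.e false (nat_lit 2) (nat_lit 39) (nat_lit 1) (nat_lit 7) (.e true (nat_lit 2) (nat_lit 41) (nat_lit 1) (nat_lit 7) (.e true (nat_lit 1) (nat_lit 46) (nat_lit 1) (nat_lit 7) (.e true (nat_lit 3) (nat_lit 43) (nat_lit 1) (nat_lit 7) (.e true (nat_lit 3) (nat_lit 21) (nat_lit 4) (nat_lit 4) (.e false (nat_lit 3) (nat_lit 22) (nat_lit 4) (nat_lit 4) (.e true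 (nat_lit 3) (nat_lit 32) (nat_lit 3) (nat_lit 5) (.e false (nat_lit 1) (nat_lit 30) (nat_lit 3) (nat_lit 5) (.e false (nat_lit 1) (nat_lit 40) (nat_lit 1) (nat_lit 7) (.e true (nat_lit 1) (nat_lit 42) (nat_lit 1) (nat_lit 7) (.e false (nat_lit 1) (nat_lit 49) (nat_lit 0) (nat_lit 8) (.e true (nat_lit 2) (nat_lit 51) (nat_lit 0) (nat_lit 8) (.e false (nat_lit 1) (nat_lit 52) (nat_lit 0) (nat_lit 8) (.e false (nat_lit 1) (nat_lit 53) (nat_lit 0) (nat_lit 8) (.e false (nat_lit 3) (nat_lit 54) (nat_lit 0) (nat_lit 8) (.e true (nat_lit 3) (nat_lit 11) (nat_lit 10) (nat_lit 0) (.e false (nat_lit 3) (nat_lit 12) (nat_lit 10) (nat_lit 0) (.e true (nat_lit 1) (nat_lit 44) (nat_lit 1) (nat_lit 7) (.u (nat_lit 2) (.p (nat_lit 0) (nat_lit 2) (.n (nat_lit 1) (nat_lit 2) (.n (nat_lit 2) (nat_lit 2) (.p (nat_lit 5) (nat_lit 3) (.n (nat_lit 6) (nat_lit 2) (.n (nat_lit 7) (nat_lit 2)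 (.p (nat_lit 9) (nat_lit 1) (.p (nat_lit 14) (nat_lit 2) (.n (nat_lit 15) (nat_lit 1) (.p (nat_lit 20) (nat_lit 1) (.n (nat_lit 21) (nat_lit 1) (.n (nat_lit 49) (nat_lit 1) (.p (nat_lit 51) (nat_lit 1) (.n (nat_lit 54) (nat_lit 1) (.p (nat_lit 55) (nat_lit 1) (.n (nat_lit 60) (nat_lit 1) (.p (nat_lit 61) (nat_lit 1) (.n (nat_lit 64) (nat_lit 1) .z)))))))))))))))))) .nil))))))))))))))))))))))))) .leaf) (nat_lit 26625) (nat_lit 59) (.p (nat_lit 43) (nat_lit 1) .z) .df .leaf) (nat_lit 26628) (nat_lit 131) (.p (nat_lit 73) (nat_lit 2) .z) (.ct dR1_c52 (nat_lit 1) (nat_lit 4) (.s true (nat_lit 3) (nat_lit 5) (nat_lit 1) (nat_lit 4) (nat_lit 1) true (nat_lit 4) true (nat_lit 7) true (nat_lit 3) true (nat_lit 7) true (nat_lit 4) (.s true (nat_lit 3) (nat_lit 5) (nat_lit 4) (nat_lit 1) (nat_lit 1) true (nat_lit 0) true (nat_lit 7) true (nat_lit 3) true (nat_lit 4) true (nat_lit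 7) (.e true (nat_lit 2) (nat_lit 47) (nat_lit 1) (nat_lit 7) (.e true (nat_lit 3) (nat_lit 21) (nat_lit 4) (nat_lit 4) (.e false (nat_lit 3) (nat_lit 11) (nat_lit 10) (nat_lit 0) (.u (nat_lit 2) (.n (nat_lit 9) (nat_lit 1) (.p (nat_lit 37) (nat_lit 1) (.n (nat_lit 57) (nat_lit 1) .z))) .nil))))))) (.nd (.nd .leaf (nat_lit 27648) (nat_lit 77) (.p (nat_lit 38) (nat_lit 1) (.p (nat_lit 39) (nat_lit 1) (.p (nat_lit 40) (nat_lit 2) (.n (nat_lit 41) (nat_lit 1) (.n (nat_lit 42) (nat_lit 3) (.p (nat_lit 43) (nat_lit 2) (.n (nat_lit 44) (nat_lit 1) (.p (nat_lit 45) (nat_lit 2) (.p (nat_lit 47) (nat_lit 1) (.n (nat_lit 48) (nat_lit 1) .z)))))))))) (.ct dR1_c51 (nat_lit 1) (nat_lit 6) (.s true (nat_lit 1) (nat_lit 6) (nat_lit 1) (nat_lit 1) (nat_lit 0) true (nat_lit 3) true (nat_lit 6) true (nat_lit 0) true (nat_lit 5) true (nat_lit 5) (.e true (nat_lit 1) (nat_lit 14) (nat_lit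 3) (nat_lit 3) (.e false (nat_lit 1) (nat_lit 9) (nat_lit 6) (nat_lit 0) (.e true (nat_lit 2) (nat_lit 21) (nat_lit 1) (nat_lit 5) (.e false (nat_lit 3) (nat_lit 23) (nat_lit 1) (nat_lit 5) (.e false (nat_lit 3) (nat_lit 24) (nat_lit 1) (nat_lit 5) (.e true (nat_lit 3) (nat_lit 25) (nat_lit 1) (nat_lit 5) (.e true (nat_lit 3) (nat_lit 26) (nat_lit 1) (nat_lit 5) .nil))))))))) .leaf) (nat_lit 27649) (nat_lit 80) (.p (nat_lit 49) (nat_lit 1) .z) .df .leaf)))) (nat_lit 27651) (nat_lit 152) (.p (nat_lit 64) (nat_lit 3) (.n (nat_lit 65) (nat_lit 2) (.n (nat_lit 66) (nat_lit 1) (.p (nat_lit 69) (nat_lit 1) (.p (nat_lit 70) (nat_lit 1) (.n (nat_lit 72) (nat_lit 1) (.n (nat_lit 73) (nat_lit 2) (.n (nat_lit 74) (nat_lit 1) (.n (nat_lit 75) (nat_lit 2) (.p (nat_lit 76) (nat_lit 2) (.p (nat_lit 78) (nat_lit 2) (.n (nat_lit 79) (nat_lit 1) .z)))))))))))) (.ct dR1_c52 (nat_lit 1)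 (nat_lit 5) (.s false (nat_lit 1) (nat_lit 6) (nat_lit 3) (nat_lit 1) (nat_lit 1) true (nat_lit 1) true (nat_lit 7) true (nat_lit 2) true (nat_lit 5) true (nat_lit 7) (.s true (nat_lit 1) (nat_lit 14) (nat_lit 0) (nat_lit 1) (nat_lit 1) true (nat_lit 5) true (nat_lit 7) false (nat_lit 1) true (nat_lit 8) true (nat_lit 7) (.e true (nat_lit 2) (nat_lit 38) (nat_lit 1) (nat_lit 7) (.e true (nat_lit 1) (nat_lit 39) (nat_lit 1) (nat_lit 7) (.e false (nat_lit 3) (nat_lit 40) (nat_lit 1) (nat_lit 7) (.e false (nat_lit 3) (nat_lit 41) (nat_lit 1) (nat_lit 7) (.e true (nat_lit 3) (nat_lit 42) (nat_lit 1) (nat_lit 7) (.e true (nat_lit 3) (nat_lit 43) (nat_lit 1) (nat_lit 7) (.e false (nat_lit 1) (nat_lit 17) (nat_lit 6) (nat_lit 2) (.e true (nat_lit 1) (nat_lit 32) (nat_lit 3) (nat_lit 5) (.e true (nat_lit 2) (nat_lit 44) (nat_lit 1) (nat_lit 7) (.e false (nat_lit 1) (nat_lit 58)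 (nat_lit 0) (nat_lit 8) (.e false (nat_lit 2) (nat_lit 45) (nat_lit 1) (nat_lit 7) (.e false (nat_lit 1) (nat_lit 47) (nat_lit 1) (nat_lit 7) (.u (nat_lit 2) (.n (nat_lit 0) (nat_lit 1) (.p (nat_lit 3) (nat_lit 1) (.n (nat_lit 4) (nat_lit 1) (.p (nat_lit 9) (nat_lit 1) (.p (nat_lit 14) (nat_lit 1) (.n (nat_lit 15) (nat_lit 1) .z)))))) .nil)))))))))))))))) (.nd (.nd (.nd (.nd (.nd .leaf (nat_lit 27652) (nat_lit 173) (.p (nat_lit 90) (nat_lit 1) .z) .df .leaf) (nat_lit 28672) (nat_lit 60) (.p (nat_lit 44) (nat_lit 1) .z) .df (.nd .leaf (nat_lit 28673) (nat_lit 81) (.p (nat_lit 50) (nat_lit 1) .z) .df .leaf)) (nat_lit 28675) (nat_lit 158) (.n (nat_lit 64) (nat_lit 2) (.n (nat_lit 65) (nat_lit 1) (.p (nat_lit 66) (nat_lit 3) (.n (nat_lit 67) (nat_lit 3) (.p (nat_lit 68) (nat_lit 1) (.p (nat_lit 70) (nat_lit 2) (.p (nat_lit 72) (nat_lit 2) (.n (nat_lit 74) (nat_lit 1) (.p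 (nat_lit 76) (nat_lit 1) (.n (nat_lit 78) (nat_lit 2) (.p (nat_lit 79) (nat_lit 3) .z))))))))))) (.ct dR1_c52 (nat_lit 1) (nat_lit 5) (.s true (nat_lit 1) (nat_lit 15) (nat_lit 1) (nat_lit 1) (nat_lit 0) true (nat_lit 5) true (nat_lit 8) false (nat_lit 1) true (nat_lit 7) true (nat_lit 7) (.e true (nat_lit 1) (nat_lit 50) (nat_lit 0) (nat_lit 8) (.e false (nat_lit 1) (nat_lit 15) (nat_lit 9) (nat_lit 1) (.e false (nat_lit 1) (nat_lit 38) (nat_lit 1) (nat_lit 7) (.e false (nat_lit 1) (nat_lit 39) (nat_lit 1) (nat_lit 7) (.e false (nat_lit 2) (nat_lit 40) (nat_lit 1) (nat_lit 7) (.e true (nat_lit 2) (nat_lit 41) (nat_lit 1) (nat_lit 7) (.e true (nat_lit 1) (nat_lit 42) (nat_lit 1) (nat_lit 7) (.e false (nat_lit 1) (nat_lit 43) (nat_lit 1) (nat_lit 7) (.e true (nat_lit 1) (nat_lit 44) (nat_lit 1) (nat_lit 7) (.e false (nat_lit 1) (nat_lit 45) (nat_lit 1) (nat_lit 7) (.e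 true (nat_lit 1) (nat_lit 46) (nat_lit 1) (nat_lit 7) (.e false (nat_lit 1) (nat_lit 48) (nat_lit 1) (nat_lit 7) (.u (nat_lit 2) (.p (nat_lit 0) (nat_lit 1) (.p (nat_lit 3) (nat_lit 1) (.n (nat_lit 4) (nat_lit 1) .z))) .nil))))))))))))))) (.nd (.nd .leaf (nat_lit 28676) (nat_lit 199) (.n (nat_lit 80) (nat_lit 2) (.n (nat_lit 81) (nat_lit 2) (.n (nat_lit 82) (nat_lit 3) (.p (nat_lit 83) (nat_lit 3) (.n (nat_lit 84) (nat_lit 3) (.n (nat_lit 86) (nat_lit 1) (.p (nat_lit 89) (nat_lit 1) (.p (nat_lit 90) (nat_lit 1) .z)))))))) (.ct dR1_c37 (nat_lit 1) (nat_lit 3) (.s false (nat_lit 3) (nat_lit 4) (nat_lit 2) (nat_lit 1) (nat_lit 4) false (nat_lit 0) true (nat_lit 3) true (nat_lit 3) true (nat_lit 5) true (nat_lit 6) (.e false (nat_lit 1) (nat_lit 15) (nat_lit 10) (nat_lit 0) (.e true (nat_lit 1) (nat_lit 16) (nat_lit 10) (nat_lit 0) (.e false (nat_lit 1) (nat_lit 29) (nat_lit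 4) (nat_lit 3) (.e false (nat_lit 3) (nat_lit 32) (nat_lit 4) (nat_lit 3) (.u (nat_lit 2) (.p (nat_lit 5) (nat_lit 1) (.p (nat_lit 6) (nat_lit 1) (.p (nat_lit 7) (nat_lit 1) (.n (nat_lit 12) (nat_lit 1) (.p (nat_lit 13) (nat_lit 1) (.p (nat_lit 23) (nat_lit 1) (.n (nat_lit 24) (nat_lit 1) .z))))))) .nil))))))) .leaf) (nat_lit 29696) (nat_lit 61) (.p (nat_lit 45) (nat_lit 1) .z) .df .leaf)) (nat_lit 29697) (nat_lit 82) (.p (nat_lit 51) (nat_lit 1) .z) .df (.nd (.nd (.nd .leaf (nat_lit 29699) (nat_lit 155) (.p (nat_lit 64) (nat_lit 1) (.n (nat_lit 65) (nat_lit 3) (.p (nat_lit 66) (nat_lit 2) (.p (nat_lit 67) (nat_lit 3) (.n (nat_lit 68) (nat_lit 1) (.p (nat_lit 69) (nat_lit 1) (.n (nat_lit 70) (nat_lit 1) (.n (nat_lit 71) (nat_lit 1) (.p (nat_lit 72) (nat_lit 2) (.p (nat_lit 73) (nat_lit 2) (.n (nat_lit 74) (nat_lit 1) (.n (nat_lit 75) (nat_lit 1) (.p (nat_lit 76) (nat_lit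 2) (.n (nat_lit 78) (nat_lit 1) (.p (nat_lit 79) (nat_lit 2) .z))))))))))))))) (.ct dR1_c52 (nat_lit 1) (nat_lit 5) (.s true (nat_lit 1) (nat_lit 16) (nat_lit 1) (nat_lit 1) (nat_lit 0) true (nat_lit 5) true (nat_lit 8) false (nat_lit 1) true (nat_lit 7) true (nat_lit 7) (.e true (nat_lit 1) (nat_lit 51) (nat_lit 0) (nat_lit 8) (.e false (nat_lit 1) (nat_lit 16) (nat_lit 9) (nat_lit 1) (.e false (nat_lit 1) (nat_lit 48) (nat_lit 1) (nat_lit 7) (.e true (nat_lit 1) (nat_lit 38) (nat_lit 1) (nat_lit 7) (.e true (nat_lit 1) (nat_lit 39) (nat_lit 1) (nat_lit 7) (.e true (nat_lit 2) (nat_lit 40) (nat_lit 1) (nat_lit 7) (.e false (nat_lit 2) (nat_lit 41) (nat_lit 1) (nat_lit 7) (.e false (nat_lit 3) (nat_lit 42) (nat_lit 1) (nat_lit 7) (.e true (nat_lit 2) (nat_lit 43) (nat_lit 1) (nat_lit 7) (.u (nat_lit 2) (.n (nat_lit 2) (nat_lit 1) (.n (nat_lit 5) (nat_lit 1) (.p (nat_lit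 6) (nat_lit 1) .z))) .nil)))))))))))) .leaf) (nat_lit 29700) (nat_lit 198) (.n (nat_lit 81) (nat_lit 3) (.n (nat_lit 82) (nat_lit 3) (.p (nat_lit 83) (nat_lit 3) (.n (nat_lit 84) (nat_lit 3) (.n (nat_lit 85) (nat_lit 2) (.p (nat_lit 86) (nat_lit 3) (.p (nat_lit 87) (nat_lit 2) (.p (nat_lit 89) (nat_lit 1) (.p (nat_lit 90) (nat_lit 1) .z))))))))) (.ct dR1_c37 (nat_lit 1) (nat_lit 3) (.s true (nat_lit 1) (nat_lit 16) (nat_lit 1) (nat_lit 1) (nat_lit 1) true (nat_lit 3) true (nat_lit 6) false (nat_lit 0) true (nat_lit 6) true (nat_lit 6) (.e true (nat_lit 2) (nat_lit 51) (nat_lit 1) (nat_lit 6) (.e false (nat_lit 1) (nat_lit 16) (nat_lit 10) (nat_lit 0) (.e false (nat_lit 2) (nat_lit 49) (nat_lit 1) (nat_lit 6) (.e false (nat_lit 3) (nat_lit 50) (nat_lit 1) (nat_lit 6) (.e false (nat_lit 2) (nat_lit 52) (nat_lit 1) (nat_lit 6) (.e false (nat_lit 1) (nat_lit 53) (nat_lit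 1) (nat_lit 6) (.e true (nat_lit 2) (nat_lit 54) (nat_lit 1) (nat_lit 6) (.e false (nat_lit 1) (nat_lit 57) (nat_lit 1) (nat_lit 6) (.e false (nat_lit 1) (nat_lit 58) (nat_lit 1) (nat_lit 6) (.u (nat_lit 2) (.p (nat_lit 1) (nat_lit 1) (.n (nat_lit 3) (nat_lit 1) (.p (nat_lit 4) (nat_lit 1) (.n (nat_lit 7) (nat_lit 1) .z)))) .nil)))))))))))) .leaf) (nat_lit 30720) (nat_lit 68) (.p (nat_lit 40) (nat_lit 1) (.n (nat_lit 42) (nat_lit 1) (.p (nat_lit 45) (nat_lit 1) .z))) (.ct dR1_c51 (nat_lit 1) (nat_lit 6) (.s true (nat_lit 1) (nat_lit 8) (nat_lit 1) (nat_lit 0) (nat_lit 0) true (nat_lit 3) true (nat_lit 6) false (nat_lit 0) true (nat_lit 5) true (nat_lit 6) (.e true (nat_lit 1) (nat_lit 16) (nat_lit 3) (nat_lit 3) (.e false (nat_lit 1) (nat_lit 8) (nat_lit 7) (nat_lit 0) (.e true (nat_lit 1) (nat_lit 21) (nat_lit 1) (nat_lit 5) (.e false (nat_lit 1) (nat_lit 24) (nat_lit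 1) (nat_lit 5) (.e true (nat_lit 1) (nat_lit 26) (nat_lit 1) (nat_lit 5) (.e false (nat_lit 1) (nat_lit 29) (nat_lit 0) (nat_lit 6) .nil)))))))) (.nd (.nd .leaf (nat_lit 30721) (nat_lit 83) (.p (nat_lit 52) (nat_lit 1) .z) .df .leaf) (nat_lit 30723) (nat_lit 133) (.p (nat_lit 64) (nat_lit 3) (.n (nat_lit 65) (nat_lit 3) (.n (nat_lit 66) (nat_lit 2) (.p (nat_lit 67) (nat_lit 1) (.p (nat_lit 68) (nat_lit 1) (.p (nat_lit 69) (nat_lit 3) (.n (nat_lit 70) (nat_lit 2) (.p (nat_lit 71) (nat_lit 2) (.p (nat_lit 72) (nat_lit 1) (.n (nat_lit 73) (nat_lit 2) (.n (nat_lit 74) (nat_lit 1) (.n (nat_lit 75) (nat_lit 1) (.p (nat_lit 76) (nat_lit 1) (.p (nat_lit 77) (nat_lit 1) (.p (nat_lit 78) (nat_lit 2) (.n (nat_lit 79) (nat_lit 1) .z)))))))))))))))) (.ct dR1_c52 (nat_lit 1) (nat_lit 5) (.s false (nat_lit 2) (nat_lit 4) (nat_lit 0) (nat_lit 4) (nat_lit 2) true (nat_lit 3) true (nat_lit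 6) true (nat_lit 4) true (nat_lit 8) true (nat_lit 4) (.s true (nat_lit 2) (nat_lit 4) (nat_lit 2) (nat_lit 3) (nat_lit 1) true (nat_lit 2) true (nat_lit 7) true (nat_lit 4) true (nat_lit 6) true (nat_lit 5) (.s false (nat_lit 3) (nat_lit 4) (nat_lit 3) (nat_lit 2) (nat_lit 1) true (nat_lit 1) true (nat_lit 7) true (nat_lit 4) true (nat_lit 5) true (nat_lit 6) (.s false (nat_lit 1) (nat_lit 7) (nat_lit 1) (nat_lit 3) (nat_lit 1) true (nat_lit 4) true (nat_lit 7) true (nat_lit 2) true (nat_lit 7) true (nat_lit 5) (.s true (nat_lit 1) (nat_lit 6) (nat_lit 1) (nat_lit 4) (nat_lit 0) true (nat_lit 5) true (nat_lit 8) true (nat_lit 2) true (nat_lit 7) true (nat_lit 4) (.s true (nat_lit 2) (nat_lit 6) (nat_lit 3) (nat_lit 1) (nat_lit 1) true (nat_lit 1) true (nat_lit 7) true (nat_lit 2) true (nat_lit 5) true (nat_lit 7) (.s false (nat_lit 3) (nat_lit 7) (nat_lit 3) (nat_lit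 1) (nat_lit 1) true (nat_lit 1) true (nat_lit 7) true (nat_lit 2) true (nat_lit 5) true (nat_lit 7) (.s false (nat_lit 3) (nat_lit 8) (nat_lit 1) (nat_lit 0) (nat_lit 3) true (nat_lit 1) true (nat_lit 5) true (nat_lit 1) true (nat_lit 7) true (nat_lit 8) (.s true (nat_lit 2) (nat_lit 9) (nat_lit 1) (nat_lit 0) (nat_lit 3) true (nat_lit 1) true (nat_lit 5) true (nat_lit 1) true (nat_lit 7) true (nat_lit 8) (.s false (nat_lit 2) (nat_lit 9) (nat_lit 1) (nat_lit 1) (nat_lit 2) true (nat_lit 2) true (nat_lit 6) true (nat_lit 1) true (nat_lit 7) true (nat_lit 7) (.s true (nat_lit 3) (nat_lit 9) (nat_lit 1) (nat_lit 2) (nat_lit 1) true (nat_lit 4) true (nat_lit 7) true (nat_lit 1) true (nat_lit 7) true (nat_lit 6) (.s true (nat_lit 2) (nat_lit 8) (nat_lit 2) (nat_lit 1) (nat_lit 1) true (nat_lit 2) true (nat_lit 7) true (nat_lit 1) true (nat_lit 6) true (nat_lit 7) (.s false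 (nat_lit 2) (nat_lit 8) (nat_lit 3) (nat_lit 1) (nat_lit 0) true (nat_lit 2) true (nat_lit 8) true (nat_lit 1) true (nat_lit 5) true (nat_lit 7) (.s true (nat_lit 3) (nat_lit 9) (nat_lit 4) (nat_lit 0) (nat_lit 0) true (nat_lit 1) true (nat_lit 8) true (nat_lit 1) true (nat_lit 4) true (nat_lit 8) (.s false (nat_lit 2) (nat_lit 10) (nat_lit 0) (nat_lit 2) (nat_lit 1) true (nat_lit 5) true (nat_lit 7) true (nat_lit 0) true (nat_lit 8) true (nat_lit 6) (.s true (nat_lit 1) (nat_lit 10) (nat_lit 1) (nat_lit 0) (nat_lit 2) true (nat_lit 2) true (nat_lit 6) true (nat_lit 0) true (nat_lit 7) true (nat_lit 8) (.s true (nat_lit 2) (nat_lit 14) (nat_lit 0) (nat_lit 1) (nat_lit 1) true (nat_lit 5) true (nat_lit 7) false (nat_lit 1) true (nat_lit 8) true (nat_lit 7) (.s false (nat_lit 3) (nat_lit 14) (nat_lit 1) (nat_lit 1) (nat_lit 0) true (nat_lit 5) true (nat_lit 8) false (nat_lit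 1) true (nat_lit 7) true (nat_lit 7) dR1_i1))))))))))))))))))) .leaf))) (nat_lit 30724) (nat_lit 194) (.n (nat_lit 80) (nat_lit 1) (.n (nat_lit 81) (nat_lit 3) (.n (nat_lit 82) (nat_lit 1) (.n (nat_lit 84) (nat_lit 2) (.p (nat_lit 85) (nat_lit 1) (.n (nat_lit 86) (nat_lit 1) (.p (nat_lit 89) (nat_lit 1) (.p (nat_lit 90) (nat_lit 1) .z)))))))) (.ct dR1_c37 (nat_lit 1) (nat_lit 3) (.s true (nat_lit 1) (nat_lit 17) (nat_lit 1) (nat_lit 0) (nat_lit 1) true (nat_lit 3) true (nat_lit 6) false (nat_lit 1) true (nat_lit 6) true (nat_lit 7) (.e true (nat_lit 2) (nat_lit 55) (nat_lit 1) (nat_lit 6) (.e false (nat_lit 1) (nat_lit 17) (nat_lit 8) (nat_lit 1) (.e false (nat_lit 2) (nat_lit 49) (nat_lit 1) (nat_lit 6) (.e false (nat_lit 2) (nat_lit 50) (nat_lit 1) (nat_lit 6) (.e true (nat_lit 1) (nat_lit 51) (nat_lit 1) (nat_lit 6) (.e false (nat_lit 3) (nat_lit 52) (nat_lit 1) (nat_lit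 6) (.e false (nat_lit 1) (nat_lit 53) (nat_lit 1) (nat_lit 6) (.e true (nat_lit 3) (nat_lit 54) (nat_lit 1) (nat_lit 6) (.e true (nat_lit 1) (nat_lit 56) (nat_lit 1) (nat_lit 6) (.e false (nat_lit 2) (nat_lit 57) (nat_lit 1) (nat_lit 6) (.e false (nat_lit 1) (nat_lit 58) (nat_lit 1) (nat_lit 6) (.e false (nat_lit 1) (nat_lit 59) (nat_lit 0) (nat_lit 7) (.u (nat_lit 2) (.p (nat_lit 1) (nat_lit 1) (.p (nat_lit 2) (nat_lit 1) (.p (nat_lit 4) (nat_lit 1) (.p (nat_lit 6) (nat_lit 1) (.n (nat_lit 7) (nat_lit 1) .z))))) .nil))))))))))))))) (.nd (.nd (.nd (.nd .leaf (nat_lit 31744) (nat_lit 78) (.n (nat_lit 38) (nat_lit 1) (.n (nat_lit 40) (nat_lit 2) (.p (nat_lit 42) (nat_lit 3) (.n (nat_lit 43) (nat_lit 2) (.p (nat_lit 44) (nat_lit 2) (.n (nat_lit 45) (nat_lit 1) (.n (nat_lit 47) (nat_lit 1) (.p (nat_lit 48) (nat_lit 1) .z)))))))) (.ct dR1_c51 (nat_lit 1) (nat_lit 6) (.s false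 (nat_lit 1) (nat_lit 3) (nat_lit 0) (nat_lit 1) (nat_lit 3) true (nat_lit 0) true (nat_lit 3) true (nat_lit 3) true (nat_lit 6) true (nat_lit 5) (.e true (nat_lit 1) (nat_lit 8) (nat_lit 7) (nat_lit 0) (.e false (nat_lit 1) (nat_lit 15) (nat_lit 3) (nat_lit 3) (.e true (nat_lit 1) (nat_lit 27) (nat_lit 0) (nat_lit 6) (.e false (nat_lit 2) (nat_lit 28) (nat_lit 0) (nat_lit 6) (.e false (nat_lit 1) (nat_lit 29) (nat_lit 0) (nat_lit 6) (.e true (nat_lit 1) (nat_lit 30) (nat_lit 0) (nat_lit 6) (.e false (nat_lit 1) (nat_lit 32) (nat_lit 0) (nat_lit 6) .nil))))))))) .leaf) (nat_lit 31745) (nat_lit 84) (.p (nat_lit 53) (nat_lit 1) .z) .df .leaf) (nat_lit 31747) (nat_lit 162) (.p (nat_lit 64) (nat_lit 2) (.n (nat_lit 65) (nat_lit 1) (.n (nat_lit 66) (nat_lit 3) (.p (nat_lit 68) (nat_lit 2) (.p (nat_lit 70) (nat_lit 2) (.n (nat_lit 71) (nat_lit 3) (.n (nat_lit 72) (nat_lit 1)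 (.p (nat_lit 73) (nat_lit 1) (.n (nat_lit 74) (nat_lit 1) (.p (nat_lit 75) (nat_lit 1) (.p (nat_lit 76) (nat_lit 3) (.n (nat_lit 77) (nat_lit 2) (.n (nat_lit 78) (nat_lit 1) (.p (nat_lit 79) (nat_lit 2) .z)))))))))))))) (.ct dR1_c52 (nat_lit 1) (nat_lit 5) (.s true (nat_lit 1) (nat_lit 9) (nat_lit 1) (nat_lit 0) (nat_lit 3) true (nat_lit 1) true (nat_lit 5) true (nat_lit 1) true (nat_lit 7) true (nat_lit 8) (.e true (nat_lit 1) (nat_lit 14) (nat_lit 8) (nat_lit 1) (.e false (nat_lit 1) (nat_lit 15) (nat_lit 8) (nat_lit 1) (.e false (nat_lit 1) (nat_lit 16) (nat_lit 8) (nat_lit 1) (.e false (nat_lit 1) (nat_lit 39) (nat_lit 1) (nat_lit 7) (.e true (nat_lit 1) (nat_lit 41) (nat_lit 1) (nat_lit 7) (.e true (nat_lit 1) (nat_lit 42) (nat_lit 1) (nat_lit 7) (.e false (nat_lit 1) (nat_lit 45) (nat_lit 1) (nat_lit 7) (.e true (nat_lit 1) (nat_lit 46) (nat_lit 1) (nat_lit 7) (.e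 false (nat_lit 1) (nat_lit 48) (nat_lit 1) (nat_lit 7) (.e false (nat_lit 1) (nat_lit 49) (nat_lit 0) (nat_lit 8) (.e true (nat_lit 1) (nat_lit 50) (nat_lit 0) (nat_lit 8) (.e true (nat_lit 1) (nat_lit 51) (nat_lit 0) (nat_lit 8) (.e false (nat_lit 1) (nat_lit 53) (nat_lit 0) (nat_lit 8) (.e true (nat_lit 1) (nat_lit 54) (nat_lit 0) (nat_lit 8) (.u (nat_lit 2) (.n (nat_lit 0) (nat_lit 1) (.p (nat_lit 2) (nat_lit 1) (.n (nat_lit 4) (nat_lit 1) (.p (nat_lit 7) (nat_lit 1) (.p (nat_lit 8) (nat_lit 1) (.n (nat_lit 9) (nat_lit 1) .z)))))) .nil))))))))))))))))) (.nd (.nd .leaf (nat_lit 31748) (nat_lit 178) (.p (nat_lit 81) (nat_lit 2) (.n (nat_lit 82) (nat_lit 3) (.p (nat_lit 83) (nat_lit 3) (.n (nat_lit 84) (nat_lit 2) (.n (nat_lit 85) (nat_lit 1) (.n (nat_lit 86) (nat_lit 2) (.p (nat_lit 89) (nat_lit 2) (.p (nat_lit 90) (nat_lit 1) .z)))))))) (.ct dR1_c37 (nat_lit 1) (nat_lit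 3) (.s true (nat_lit 2) (nat_lit 4) (nat_lit 3) (nat_lit 3) (nat_lit 1) true (nat_lit 1) true (nat_lit 6) true (nat_lit 3) true (nat_lit 4) true (nat_lit 4) (.s false (nat_lit 2) (nat_lit 8) (nat_lit 3) (nat_lit 1) (nat_lit 1) true (nat_lit 1) true (nat_lit 6) true (nat_lit 1) true (nat_lit 4) true (nat_lit 6) (.s false (nat_lit 3) (nat_lit 18) (nat_lit 0) (nat_lit 1) (nat_lit 1) true (nat_lit 4) true (nat_lit 6) false (nat_lit 1) true (nat_lit 7) true (nat_lit 6) (.s true (nat_lit 2) (nat_lit 19) (nat_lit 0) (nat_lit 1) (nat_lit 1) true (nat_lit 4) true (nat_lit 6) false (nat_lit 1) true (nat_lit 7) true (nat_lit 6) (.s true (nat_lit 1) (nat_lit 18) (nat_lit 1) (nat_lit 0) (nat_lit 1) true (nat_lit 3) true (nat_lit 6) false (nat_lit 1) true (nat_lit 6) true (nat_lit 7) (.s true (nat_lit 1) (nat_lit 20) (nat_lit 0) (nat_lit 0) (nat_lit 1) true (nat_lit 4) true (nat_lit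 6) false (nat_lit 2) true (nat_lit 7) true (nat_lit 7) (.e false (nat_lit 2) (nat_lit 50) (nat_lit 1) (nat_lit 6) (.e true (nat_lit 3) (nat_lit 51) (nat_lit 1) (nat_lit 6) (.e false (nat_lit 3) (nat_lit 52) (nat_lit 1) (nat_lit 6) (.e true (nat_lit 2) (nat_lit 53) (nat_lit 1) (nat_lit 6) (.e true (nat_lit 3) (nat_lit 54) (nat_lit 1) (nat_lit 6) (.e true (nat_lit 2) (nat_lit 55) (nat_lit 1) (nat_lit 6) (.e false (nat_lit 3) (nat_lit 58) (nat_lit 1) (nat_lit 6) (.e false (nat_lit 2) (nat_lit 60) (nat_lit 0) (nat_lit 7) (.e false (nat_lit 1) (nat_lit 20) (nat_lit 6) (nat_lit 2) (.u (nat_lit 2) (.n (nat_lit 31) (nat_lit 1) (.p (nat_lit 33) (nat_lit 2) (.p (nat_lit 34) (nat_lit 2) (.n (nat_lit 35) (nat_lit 1) (.p (nat_lit 36) (nat_lit 2) (.p (nat_lit 37) (nat_lit 1) (.n (nat_lit 38) (nat_lit 2) (.n (nat_lit 40) (nat_lit 1) (.p (nat_lit 41) (nat_lit 1) (.n (nat_lit 44) (nat_lit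 1) (.p (nat_lit 45) (nat_lit 1) .z))))))))))) .nil))))))))))))))))) .leaf) (nat_lit 32768) (nat_lit 62) (.p (nat_lit 46) (nat_lit 1) .z) .df .leaf)) (nat_lit 32769) (nat_lit 85) (.p (nat_lit 54) (nat_lit 1) .z) .df (.nd (.nd (.nd .leaf (nat_lit 32771) (nat_lit 139) (.p (nat_lit 64) (nat_lit 1) (.p (nat_lit 65) (nat_lit 2) (.p (nat_lit 66) (nat_lit 2) (.n (nat_lit 67) (nat_lit 3) (.p (nat_lit 68) (nat_lit 1) (.n (nat_lit 69) (nat_lit 2) (.p (nat_lit 70) (nat_lit 2) (.p (nat_lit 71) (nat_lit 2) (.p (nat_lit 72) (nat_lit 1) (.n (nat_lit 73) (nat_lit 1) (.n (nat_lit 75) (nat_lit 2) (.p (nat_lit 76) (nat_lit 2) (.n (nat_lit 78) (nat_lit 3) (.p (nat_lit 79) (nat_lit 3) .z)))))))))))))) (.ct dR1_c52 (nat_lit 1) (nat_lit 5) (.s false (nat_lit 1) (nat_lit 6) (nat_lit 1) (nat_lit 4) (nat_lit 0) true (nat_lit 5) true (nat_lit 8) true (nat_lit 2) true (nat_lit 7) true (nat_lit 4)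 (.s true (nat_lit 1) (nat_lit 10) (nat_lit 1) (nat_lit 0) (nat_lit 2) true (nat_lit 2) true (nat_lit 6) true (nat_lit 0) true (nat_lit 7) true (nat_lit 8) (.s false (nat_lit 1) (nat_lit 20) (nat_lit 0) (nat_lit 0) (nat_lit 0) true (nat_lit 6) true (nat_lit 8) false (nat_lit 3) true (nat_lit 8) true (nat_lit 8) (.e false (nat_lit 2) (nat_lit 38) (nat_lit 1) (nat_lit 7) (.e true (nat_lit 3) (nat_lit 40) (nat_lit 1) (nat_lit 7) (.e true (nat_lit 2) (nat_lit 41) (nat_lit 1) (nat_lit 7) (.e false (nat_lit 3) (nat_lit 42) (nat_lit 1) (nat_lit 7) (.e false (nat_lit 2) (nat_lit 43) (nat_lit 1) (nat_lit 7) (.e true (nat_lit 2) (nat_lit 44) (nat_lit 1) (nat_lit 7) (.e false (nat_lit 2) (nat_lit 45) (nat_lit 1) (nat_lit 7) (.e false (nat_lit 2) (nat_lit 47) (nat_lit 1) (nat_lit 7) (.e false (nat_lit 1) (nat_lit 22) (nat_lit 4) (nat_lit 4) (.e true (nat_lit 1) (nat_lit 11) (nat_lit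 10) (nat_lit 0) (.e false (nat_lit 1) (nat_lit 12) (nat_lit 10) (nat_lit 0) (.e false (nat_lit 3) (nat_lit 50) (nat_lit 0) (nat_lit 8) (.e true (nat_lit 3) (nat_lit 51) (nat_lit 0) (nat_lit 8) (.e true (nat_lit 1) (nat_lit 54) (nat_lit 0) (nat_lit 8) (.e true (nat_lit 1) (nat_lit 20) (nat_lit 5) (nat_lit 3) (.u (nat_lit 2) (.n (nat_lit 2) (nat_lit 1) (.p (nat_lit 4) (nat_lit 1) (.p (nat_lit 5) (nat_lit 1) (.p (nat_lit 11) (nat_lit 1) (.n (nat_lit 12) (nat_lit 1) (.n (nat_lit 60) (nat_lit 1) (.p (nat_lit 61) (nat_lit 1) .z))))))) .nil)))))))))))))))))))) .leaf) (nat_lit 32772) (nat_lit 174) (.p (nat_lit 85) (nat_lit 2) .z) (.ct dR1_c37 (nat_lit 1) (nat_lit 3) (.s true (nat_lit 1) (nat_lit 4) (nat_lit 1) (nat_lit 4) (nat_lit 2) true (nat_lit 2) true (nat_lit 5) true (nat_lit 3) true (nat_lit 6) true (nat_lit 3) (.e false (nat_lit 2) (nat_lit 54) (nat_lit 1) (nat_lit 6)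 .nil))) .leaf) (nat_lit 33792) (nat_lit 86) (.p (nat_lit 55) (nat_lit 1) .z) .df (.nd (.nd .leaf (nat_lit 33793) (nat_lit 102) (.p (nat_lit 59) (nat_lit 1) .z) .df .leaf) (nat_lit 33794) (nat_lit 160) (.p (nat_lit 64) (nat_lit 1) (.n (nat_lit 65) (nat_lit 3) (.n (nat_lit 66) (nat_lit 3) (.p (nat_lit 67) (nat_lit 3) (.p (nat_lit 68) (nat_lit 2) (.n (nat_lit 70) (nat_lit 3) (.n (nat_lit 71) (nat_lit 3) (.n (nat_lit 73) (nat_lit 3) (.n (nat_lit 74) (nat_lit 1) (.p (nat_lit 78) (nat_lit 2) (.n (nat_lit 79) (nat_lit 1) .z))))))))))) (.ct dR1_c52 (nat_lit 1) (nat_lit 6) (.s true (nat_lit 1) (nat_lit 8) (nat_lit 1) (nat_lit 2) (nat_lit 1) true (nat_lit 4) true (nat_lit 7) true (nat_lit 1) true (nat_lit 7) true (nat_lit 6) (.e true (nat_lit 1) (nat_lit 21) (nat_lit 4) (nat_lit 4) (.e false (nat_lit 1) (nat_lit 24) (nat_lit 4) (nat_lit 4) (.e true (nat_lit 1) (nat_lit 26) (nat_lit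 4) (nat_lit 4) (.e false (nat_lit 2) (nat_lit 39) (nat_lit 1) (nat_lit 7) (.e true (nat_lit 3) (nat_lit 40) (nat_lit 1) (nat_lit 7) (.e true (nat_lit 3) (nat_lit 41) (nat_lit 1) (nat_lit 7) (.e false (nat_lit 1) (nat_lit 42) (nat_lit 1) (nat_lit 7) (.e false (nat_lit 3) (nat_lit 43) (nat_lit 1) (nat_lit 7) (.e false (nat_lit 2) (nat_lit 45) (nat_lit 1) (nat_lit 7) (.e true (nat_lit 2) (nat_lit 48) (nat_lit 1) (nat_lit 7) (.e false (nat_lit 1) (nat_lit 14) (nat_lit 8) (nat_lit 1) (.e false (nat_lit 1) (nat_lit 38) (nat_lit 1) (nat_lit 7) (.u (nat_lit 2) (.n (nat_lit 0) (nat_lit 1) (.p (nat_lit 1) (nat_lit 1) (.p (nat_lit 2) (nat_lit 1) (.n (nat_lit 3) (nat_lit 2) (.p (nat_lit 4) (nat_lit 1) (.p (nat_lit 5) (nat_lit 1) (.p (nat_lit 7) (nat_lit 1) (.p (nat_lit 50) (nat_lit 1) (.n (nat_lit 52) (nat_lit 1) .z))))))))) .nil))))))))))))))) .leaf))))) (nat_lit 33795) (nat_lit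 190) (.p (nat_lit 80) (nat_lit 1) (.p (nat_lit 82) (nat_lit 3) (.n (nat_lit 83) (nat_lit 3) (.n (nat_lit 86) (nat_lit 1) (.n (nat_lit 88) (nat_lit 1) (.p (nat_lit 89) (nat_lit 1) (.p (nat_lit 90) (nat_lit 1) .z))))))) (.ct dR1_c37 (nat_lit 1) (nat_lit 4) (.s true (nat_lit 1) (nat_lit 17) (nat_lit 1) (nat_lit 1) (nat_lit 0) true (nat_lit 4) true (nat_lit 7) false (nat_lit 1) true (nat_lit 6) true (nat_lit 6) (.e true (nat_lit 1) (nat_lit 59) (nat_lit 0) (nat_lit 7) (.e false (nat_lit 1) (nat_lit 17) (nat_lit 9) (nat_lit 1) (.e false (nat_lit 2) (nat_lit 49) (nat_lit 1) (nat_lit 6) (.e false (nat_lit 2) (nat_lit 50) (nat_lit 1) (nat_lit 6) (.e true (nat_lit 1) (nat_lit 51) (nat_lit 1) (nat_lit 6) (.e true (nat_lit 3) (nat_lit 52) (nat_lit 1) (nat_lit 6) (.e false (nat_lit 1) (nat_lit 53) (nat_lit 1) (nat_lit 6) (.e true (nat_lit 3) (nat_lit 54) (nat_lit 1) (nat_lit 6) (.e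 true (nat_lit 1) (nat_lit 55) (nat_lit 1) (nat_lit 6) (.e true (nat_lit 1) (nat_lit 56) (nat_lit 1) (nat_lit 6) (.e false (nat_lit 2) (nat_lit 57) (nat_lit 1) (nat_lit 6) (.e false (nat_lit 1) (nat_lit 58) (nat_lit 1) (nat_lit 6) (.u (nat_lit 2) (.n (nat_lit 3) (nat_lit 1) (.p (nat_lit 4) (nat_lit 1) (.p (nat_lit 6) (nat_lit 1) (.n (nat_lit 7) (nat_lit 1) (.p (nat_lit 36) (nat_lit 1) .z))))) .nil))))))))))))))) (.nd (.nd (.nd (.nd (.nd (.nd .leaf (nat_lit 34816) (nat_lit 87) (.p (nat_lit 56) (nat_lit 1) .z) .df .leaf) (nat_lit 34817) (nat_lit 103) (.p (nat_lit 60) (nat_lit 1) .z) .df (.nd .leaf (nat_lit 34818) (nat_lit 147) (.p (nat_lit 64) (nat_lit 3) (.n (nat_lit 66) (nat_lit 1) (.n (nat_lit 67) (nat_lit 3) (.p (nat_lit 68) (nat_lit 2) (.p (nat_lit 69) (nat_lit 1) (.n (nat_lit 70) (nat_lit 1) (.n (nat_lit 72) (nat_lit 2) (.n (nat_lit 73) (nat_lit 3) (.n (nat_lit 75)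 (nat_lit 2) (.p (nat_lit 76) (nat_lit 2) (.p (nat_lit 78) (nat_lit 3) (.n (nat_lit 79) (nat_lit 2) .z)))))))))))) (.ct dR1_c52 (nat_lit 1) (nat_lit 6) (.s false (nat_lit 3) (nat_lit 4) (nat_lit 0) (nat_lit 4) (nat_lit 2) true (nat_lit 3) true (nat_lit 6) true (nat_lit 4) true (nat_lit 8) true (nat_lit 4) (.e false (nat_lit 1) (nat_lit 35) (nat_lit 2) (nat_lit 6) (.e false (nat_lit 2) (nat_lit 21) (nat_lit 4) (nat_lit 4) (.e false (nat_lit 2) (nat_lit 22) (nat_lit 4) (nat_lit 4) (.e true (nat_lit 3) (nat_lit 23) (nat_lit 4) (nat_lit 4) (.e false (nat_lit 3) (nat_lit 24) (nat_lit 4) (nat_lit 4) (.e false (nat_lit 3) (nat_lit 25) (nat_lit 4) (nat_lit 4) (.e false (nat_lit 1) (nat_lit 54) (nat_lit 0) (nat_lit 8) (.u (nat_lit 2) (.p (nat_lit 1) (nat_lit 2) (.n (nat_lit 2) (nat_lit 1) (.n (nat_lit 3) (nat_lit 2) (.p (nat_lit 5) (nat_lit 1) (.n (nat_lit 7) (nat_lit 1) (.p (nat_lit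 8) (nat_lit 2) (.n (nat_lit 14) (nat_lit 1) (.n (nat_lit 15) (nat_lit 1) (.n (nat_lit 32) (nat_lit 2) (.n (nat_lit 33) (nat_lit 2) (.n (nat_lit 37) (nat_lit 3) (.p (nat_lit 45) (nat_lit 1) (.n (nat_lit 46) (nat_lit 1) (.n (nat_lit 64) (nat_lit 1) .z)))))))))))))) .nil)))))))))) .leaf)) (nat_lit 34819) (nat_lit 180) (.n (nat_lit 80) (nat_lit 2) (.n (nat_lit 81) (nat_lit 1) (.n (nat_lit 82) (nat_lit 1) (.p (nat_lit 83) (nat_lit 1) (.n (nat_lit 84) (nat_lit 3) (.n (nat_lit 86) (nat_lit 2) (.p (nat_lit 89) (nat_lit 1) (.p (nat_lit 90) (nat_lit 1) .z)))))))) (.ct dR1_c37 (nat_lit 1) (nat_lit 4) (.s true (nat_lit 3) (nat_lit 7) (nat_lit 1) (nat_lit 1) (nat_lit 4) true (nat_lit 0) true (nat_lit 3) true (nat_lit 2) true (nat_lit 6) true (nat_lit 6) (.s false (nat_lit 3) (nat_lit 9) (nat_lit 4) (nat_lit 0) (nat_lit 1) true (nat_lit 0) true (nat_lit 6) true (nat_lit 1) true (nat_lit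 3) true (nat_lit 7) (.s true (nat_lit 3) (nat_lit 16) (nat_lit 1) (nat_lit 1) (nat_lit 1) true (nat_lit 3) true (nat_lit 6) false (nat_lit 0) true (nat_lit 6) true (nat_lit 6) (.s false (nat_lit 3) (nat_lit 18) (nat_lit 0) (nat_lit 1) (nat_lit 1) true (nat_lit 4) true (nat_lit 6) false (nat_lit 1) true (nat_lit 7) true (nat_lit 6) (.s false (nat_lit 3) (nat_lit 18) (nat_lit 1) (nat_lit 1) (nat_lit 0) true (nat_lit 4) true (nat_lit 7) false (nat_lit 1) true (nat_lit 6) true (nat_lit 6) (.e true (nat_lit 3) (nat_lit 54) (nat_lit 1) (nat_lit 6) (.e false (nat_lit 3) (nat_lit 58) (nat_lit 1) (nat_lit 6) (.e true (nat_lit 3) (nat_lit 53) (nat_lit 1) (nat_lit 6) (.e false (nat_lit 3) (nat_lit 14) (nat_lit 10) (nat_lit 0) (.e true (nat_lit 3) (nat_lit 27) (nat_lit 4) (nat_lit 3) (.e true (nat_lit 3) (nat_lit 31) (nat_lit 4) (nat_lit 3) (.e false (nat_lit 3) (nat_lit 32) (nat_lit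 4) (nat_lit 3) (.e false (nat_lit 3) (nat_lit 60) (nat_lit 0) (nat_lit 7) (.e true (nat_lit 3) (nat_lit 18) (nat_lit 8) (nat_lit 1) (.u (nat_lit 2) (.n (nat_lit 0) (nat_lit 1) (.n (nat_lit 1) (nat_lit 2) (.p (nat_lit 2) (nat_lit 1) (.n (nat_lit 3) (nat_lit 1) (.p (nat_lit 6) (nat_lit 2) (.n (nat_lit 9) (nat_lit 1) (.n (nat_lit 10) (nat_lit 1) (.p (nat_lit 29) (nat_lit 1) (.p (nat_lit 33) (nat_lit 3) (.n (nat_lit 35) (nat_lit 3) (.p (nat_lit 36) (nat_lit 3) (.n (nat_lit 38) (nat_lit 3) .z)))))))))))) .nil)))))))))))))))) (.nd (.nd .leaf (nat_lit 35840) (nat_lit 88) (.p (nat_lit 57) (nat_lit 1) .z) .df .leaf) (nat_lit 35841) (nat_lit 104) (.p (nat_lit 61) (nat_lit 1) .z) .df .leaf)) (nat_lit 35842) (nat_lit 144) (.p (nat_lit 64) (nat_lit 3) (.n (nat_lit 65) (nat_lit 2) (.n (nat_lit 66) (nat_lit 1) (.n (nat_lit 67) (nat_lit 1) (.n (nat_lit 68) (nat_lit 2) (.p (nat_lit 69)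 (nat_lit 1) (.n (nat_lit 70) (nat_lit 2) (.n (nat_lit 71) (nat_lit 2) (.p (nat_lit 78) (nat_lit 2) (.n (nat_lit 79) (nat_lit 1) .z)))))))))) (.ct dR1_c52 (nat_lit 1) (nat_lit 6) (.s true (nat_lit 1) (nat_lit 10) (nat_lit 0) (nat_lit 1) (nat_lit 2) true (nat_lit 3) true (nat_lit 6) true (nat_lit 0) true (nat_lit 8) true (nat_lit 7) (.e false (nat_lit 1) (nat_lit 20) (nat_lit 5) (nat_lit 3) (.e true (nat_lit 1) (nat_lit 11) (nat_lit 10) (nat_lit 0) (.e false (nat_lit 1) (nat_lit 12) (nat_lit 10) (nat_lit 0) (.e true (nat_lit 1) (nat_lit 54) (nat_lit 0) (nat_lit 8) (.e false (nat_lit 1) (nat_lit 58) (nat_lit 0) (nat_lit 8) (.e true (nat_lit 2) (nat_lit 44) (nat_lit 1) (nat_lit 7) (.e false (nat_lit 2) (nat_lit 45) (nat_lit 1) (nat_lit 7) (.e true (nat_lit 1) (nat_lit 46) (nat_lit 1) (nat_lit 7) (.u (nat_lit 2) (.n (nat_lit 0) (nat_lit 1) (.p (nat_lit 1) (nat_lit 1) (.p (nat_lit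 4) (nat_lit 1) (.p (nat_lit 6) (nat_lit 1) (.p (nat_lit 7) (nat_lit 1) .z))))) .nil))))))))))) (.nd (.nd (.nd .leaf (nat_lit 35843) (nat_lit 185) (.n (nat_lit 81) (nat_lit 1) (.p (nat_lit 82) (nat_lit 2) (.n (nat_lit 83) (nat_lit 1) (.p (nat_lit 84) (nat_lit 2) (.p (nat_lit 85) (nat_lit 2) (.n (nat_lit 87) (nat_lit 3) (.p (nat_lit 89) (nat_lit 1) (.p (nat_lit 90) (nat_lit 1) .z)))))))) (.ct dR1_c37 (nat_lit 1) (nat_lit 4) (.s false (nat_lit 1) (nat_lit 4) (nat_lit 3) (nat_lit 3) (nat_lit 1) true (nat_lit 1) true (nat_lit 6) true (nat_lit 3) true (nat_lit 4) true (nat_lit 4) (.e true (nat_lit 1) (nat_lit 18) (nat_lit 8) (nat_lit 1) (.e false (nat_lit 1) (nat_lit 19) (nat_lit 8) (nat_lit 1) (.e false (nat_lit 2) (nat_lit 49) (nat_lit 1) (nat_lit 6) (.e true (nat_lit 3) (nat_lit 50) (nat_lit 1) (nat_lit 6) (.e true (nat_lit 3) (nat_lit 51) (nat_lit 1) (nat_lit 6) (.e false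 (nat_lit 2) (nat_lit 52) (nat_lit 1) (nat_lit 6) (.e false (nat_lit 2) (nat_lit 53) (nat_lit 1) (nat_lit 6) (.e true (nat_lit 1) (nat_lit 54) (nat_lit 1) (nat_lit 6) (.e false (nat_lit 1) (nat_lit 56) (nat_lit 1) (nat_lit 6) (.e true (nat_lit 1) (nat_lit 57) (nat_lit 1) (nat_lit 6) (.e false (nat_lit 2) (nat_lit 36) (nat_lit 3) (nat_lit 4) (.e false (nat_lit 1) (nat_lit 34) (nat_lit 3) (nat_lit 4) (.u (nat_lit 2) (.n (nat_lit 0) (nat_lit 1) (.n (nat_lit 1) (nat_lit 2) (.n (nat_lit 2) (nat_lit 2) (.p (nat_lit 3) (nat_lit 2) (.n (nat_lit 4) (nat_lit 2) (.n (nat_lit 5) (nat_lit 1) (.n (nat_lit 6) (nat_lit 1) (.p (nat_lit 7) (nat_lit 1) (.n (nat_lit 33) (nat_lit 1) (.p (nat_lit 35) (nat_lit 1) (.n (nat_lit 36) (nat_lit 1) (.p (nat_lit 38) (nat_lit 1) .z)))))))))))) .nil))))))))))))))) .leaf) (nat_lit 36864) (nat_lit 97) (.n (nat_lit 49) (nat_lit 1) (.p (nat_lit 50) (nat_lit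 1) (.p (nat_lit 51) (nat_lit 3) (.n (nat_lit 52) (nat_lit 2) (.n (nat_lit 53) (nat_lit 1) (.n (nat_lit 56) (nat_lit 1) (.p (nat_lit 57) (nat_lit 1) .z))))))) (.ct dR1_c36 (nat_lit 1) (nat_lit 6) (.s false (nat_lit 1) (nat_lit 8) (nat_lit 0) (nat_lit 1) (nat_lit 1) true (nat_lit 3) true (nat_lit 5) true (nat_lit 0) true (nat_lit 6) true (nat_lit 5) (.e false (nat_lit 1) (nat_lit 17) (nat_lit 3) (nat_lit 3) (.e false (nat_lit 1) (nat_lit 29) (nat_lit 1) (nat_lit 5) (.e true (nat_lit 1) (nat_lit 8) (nat_lit 8) (nat_lit 0) (.e true (nat_lit 1) (nat_lit 30) (nat_lit 1) (nat_lit 5) (.u (nat_lit 2) (.p (nat_lit 3) (nat_lit 1) .z) .nil))))))) .leaf) (nat_lit 36865) (nat_lit 110) (.n (nat_lit 60) (nat_lit 1) (.p (nat_lit 61) (nat_lit 1) .z)) (.ct dR1_c21 (nat_lit 1) (nat_lit 3) (.s true (nat_lit 1) (nat_lit 10) (nat_lit 1) (nat_lit 1) (nat_lit 0) true (nat_lit 2) true (nat_lit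 4) false (nat_lit 0) true (nat_lit 3) true (nat_lit 3) (.e true (nat_lit 1) (nat_lit 20) (nat_lit 3) (nat_lit 2) (.e true (nat_lit 1) (nat_lit 37) (nat_lit 0) (nat_lit 4) (.e false (nat_lit 1) (nat_lit 10) (nat_lit 9) (nat_lit 0) (.e true (nat_lit 1) (nat_lit 34) (nat_lit 1) (nat_lit 3) (.e false (nat_lit 2) (nat_lit 35) (nat_lit 1) (nat_lit 3) .nil))))))) (.nd (.nd .leaf (nat_lit 36866) (nat_lit 148) (.p (nat_lit 64) (nat_lit 1) (.p (nat_lit 65) (nat_lit 3) (.p (nat_lit 66) (nat_lit 2) (.p (nat_lit 67) (nat_lit 3) (.n (nat_lit 68) (nat_lit 2) (.n (nat_lit 69) (nat_lit 2) (.n (nat_lit 70) (nat_lit 3) (.p (nat_lit 71) (nat_lit 3) (.p (nat_lit 72) (nat_lit 2) (.n (nat_lit 73) (nat_lit 1) (.p (nat_lit 75) (nat_lit 2) (.n (nat_lit 76) (nat_lit 2) (.p (nat_lit 78) (nat_lit 1) (.n (nat_lit 79) (nat_lit 1) .z)))))))))))))) (.ct dR1_c52 (nat_lit 1) (nat_lit 6) (.s true (nat_lit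 1) (nat_lit 20) (nat_lit 0) (nat_lit 0) (nat_lit 0) true (nat_lit 6) true (nat_lit 8) false (nat_lit 3) true (nat_lit 8) true (nat_lit 8) (.e true (nat_lit 1) (nat_lit 34) (nat_lit 2) (nat_lit 6) (.e false (nat_lit 2) (nat_lit 50) (nat_lit 0) (nat_lit 8) (.e true (nat_lit 2) (nat_lit 51) (nat_lit 0) (nat_lit 8) (.e false (nat_lit 1) (nat_lit 20) (nat_lit 5) (nat_lit 3) (.e false (nat_lit 1) (nat_lit 58) (nat_lit 0) (nat_lit 8) (.u (nat_lit 2) (.n (nat_lit 0) (nat_lit 1) (.p (nat_lit 6) (nat_lit 1) (.p (nat_lit 9) (nat_lit 1) .z))) .nil)))))))) .leaf) (nat_lit 36867) (nat_lit 183) (.n (nat_lit 80) (nat_lit 1) (.n (nat_lit 81) (nat_lit 3) (.n (nat_lit 82) (nat_lit 3) (.p (nat_lit 83) (nat_lit 3) (.n (nat_lit 84) (nat_lit 3) (.n (nat_lit 85) (nat_lit 1) (.n (nat_lit 86) (nat_lit 2) (.p (nat_lit 87) (nat_lit 2) .z)))))))) (.ct dR1_c37 (nat_lit 1) (nat_lit 4) (.s false (nat_lit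 1) (nat_lit 8) (nat_lit 3) (nat_lit 1) (nat_lit 1) true (nat_lit 1) true (nat_lit 6) true (nat_lit 1) true (nat_lit 4) true (nat_lit 6) (.e false (nat_lit 1) (nat_lit 49) (nat_lit 1) (nat_lit 6) (.e true (nat_lit 3) (nat_lit 50) (nat_lit 1) (nat_lit 6) (.e false (nat_lit 2) (nat_lit 52) (nat_lit 1) (nat_lit 6) (.e true (nat_lit 2) (nat_lit 54) (nat_lit 1) (nat_lit 6) (.e true (nat_lit 1) (nat_lit 55) (nat_lit 1) (nat_lit 6) (.e true (nat_lit 1) (nat_lit 56) (nat_lit 1) (nat_lit 6) (.e false (nat_lit 2) (nat_lit 57) (nat_lit 1) (nat_lit 6) (.e false (nat_lit 1) (nat_lit 58) (nat_lit 1) (nat_lit 6) (.u (nat_lit 2) (.p (nat_lit 2) (nat_lit 1) (.n (nat_lit 3) (nat_lit 1) (.p (nat_lit 4) (nat_lit 1) (.p (nat_lit 6) (nat_lit 1) (.n (nat_lit 7) (nat_lit 1) (.p (nat_lit 34) (nat_lit 1) .z)))))) .nil))))))))))) .leaf))) (nat_lit 37888) (nat_lit 105) (.p (nat_lit 62) (nat_lit 1)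 .z) .df (.nd (.nd (.nd (.nd .leaf (nat_lit 37890) (nat_lit 195) (.n (nat_lit 80) (nat_lit 3) (.p (nat_lit 81) (nat_lit 3) (.p (nat_lit 82) (nat_lit 2) (.n (nat_lit 85) (nat_lit 1) (.p (nat_lit 86) (nat_lit 1) (.n (nat_lit 87) (nat_lit 3) (.p (nat_lit 90) (nat_lit 1) .z))))))) (.ct dR1_c37 (nat_lit 1) (nat_lit 5) (.s true (nat_lit 1) (nat_lit 20) (nat_lit 0) (nat_lit 1) (nat_lit 0) true (nat_lit 5) true (nat_lit 7) false (nat_lit 2) true (nat_lit 7) true (nat_lit 6) (.e false (nat_lit 1) (nat_lit 20) (nat_lit 7) (nat_lit 2) (.e true (nat_lit 1) (nat_lit 62) (nat_lit 0) (nat_lit 7) (.e false (nat_lit 1) (nat_lit 63) (nat_lit 0) (nat_lit 7) (.e true (nat_lit 1) (nat_lit 49) (nat_lit 1) (nat_lit 6) (.e false (nat_lit 1) (nat_lit 50) (nat_lit 1) (nat_lit 6) (.e false (nat_lit 3) (nat_lit 51) (nat_lit 1) (nat_lit 6) (.e true (nat_lit 2) (nat_lit 52) (nat_lit 1) (nat_lit 6)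 (.e true (nat_lit 1) (nat_lit 53) (nat_lit 1) (nat_lit 6) (.e false (nat_lit 1) (nat_lit 57) (nat_lit 1) (nat_lit 6) (.u (nat_lit 2) (.n (nat_lit 3) (nat_lit 1) (.p (nat_lit 4) (nat_lit 1) .z)) .nil)))))))))))) .leaf) (nat_lit 38913) (nat_lit 113) (.p (nat_lit 64) (nat_lit 1) .z) .df .leaf) (nat_lit 39937) (nat_lit 114) (.p (nat_lit 65) (nat_lit 1) .z) .df (.nd (.nd .leaf (nat_lit 40961) (nat_lit 115) (.p (nat_lit 66) (nat_lit 1) .z) .df .leaf) (nat_lit 41985) (nat_lit 116) (.p (nat_lit 67) (nat_lit 1) .z) .df .leaf)) (nat_lit 43009) (nat_lit 117) (.p (nat_lit 68) (nat_lit 1) .z) .df (.nd (.nd (.nd .leaf (nat_lit 44033) (nat_lit 118) (.p (nat_lit 69) (nat_lit 1) .z) .df .leaf) (nat_lit 45057) (nat_lit 119) (.p (nat_lit 70) (nat_lit 1) .z) .df .leaf) (nat_lit 46081) (nat_lit 120) (.p (nat_lit 71) (nat_lit 1) .z) .df (.nd (.nd .leaf (nat_lit 47105) (nat_lit 121) (.p (nat_lit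 72) (nat_lit 1) .z) .df .leaf) (nat_lit 48129) (nat_lit 122) (.p (nat_lit 73) (nat_lit 1) .z) .df .leaf)))) (nat_lit 49153) (nat_lit 153) (.p (nat_lit 64) (nat_lit 3) (.p (nat_lit 65) (nat_lit 1) (.n (nat_lit 66) (nat_lit 1) (.p (nat_lit 67) (nat_lit 3) (.n (nat_lit 68) (nat_lit 2) (.n (nat_lit 69) (nat_lit 2) (.p (nat_lit 70) (nat_lit 3) (.p (nat_lit 72) (nat_lit 1) (.n (nat_lit 73) (nat_lit 1) (.n (nat_lit 78) (nat_lit 1) (.p (nat_lit 79) (nat_lit 1) .z))))))))))) (.ct dR1_c52 (nat_lit 1) (nat_lit 7) (.s false (nat_lit 1) (nat_lit 14) (nat_lit 1) (nat_lit 1) (nat_lit 0) true (nat_lit 5) true (nat_lit 8) false (nat_lit 1) true (nat_lit 7) true (nat_lit 7) (.e false (nat_lit 1) (nat_lit 27) (nat_lit 3) (nat_lit 5) (.e false (nat_lit 1) (nat_lit 49) (nat_lit 0) (nat_lit 8) (.e true (nat_lit 1) (nat_lit 14) (nat_lit 9) (nat_lit 1) (.e false (nat_lit 1) (nat_lit 38) (nat_lit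 1) (nat_lit 7) (.e false (nat_lit 1) (nat_lit 39) (nat_lit 1) (nat_lit 7) (.e false (nat_lit 2) (nat_lit 40) (nat_lit 1) (nat_lit 7) (.e true (nat_lit 3) (nat_lit 41) (nat_lit 1) (nat_lit 7) (.e true (nat_lit 3) (nat_lit 42) (nat_lit 1) (nat_lit 7) (.e false (nat_lit 2) (nat_lit 43) (nat_lit 1) (nat_lit 7) (.e false (nat_lit 1) (nat_lit 44) (nat_lit 1) (nat_lit 7) (.u (nat_lit 2) (.n (nat_lit 3) (nat_lit 1) (.p (nat_lit 5) (nat_lit 1) .z)) .nil))))))))))))) (.nd (.nd (.nd (.nd (.nd .leaf (nat_lit 50176) (nat_lit 123) (.p (nat_lit 74) (nat_lit 1) .z) .df .leaf) (nat_lit 50177) (nat_lit 163) (.p (nat_lit 80) (nat_lit 1) .z) .df (.nd .leaf (nat_lit 51200) (nat_lit 124) (.p (nat_lit 75) (nat_lit 1) .z) .df .leaf)) (nat_lit 51201) (nat_lit 164) (.p (nat_lit 81) (nat_lit 1) .z) .df (.nd (.nd .leaf (nat_lit 52224) (nat_lit 125) (.p (nat_lit 76) (nat_lit 1) .z) .df .leaf) (nat_lit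 52225) (nat_lit 165) (.p (nat_lit 82) (nat_lit 1) .z) .df .leaf)) (nat_lit 53248) (nat_lit 126) (.p (nat_lit 77) (nat_lit 1) .z) .df (.nd (.nd (.nd .leaf (nat_lit 53249) (nat_lit 166) (.p (nat_lit 83) (nat_lit 1) .z) .df .leaf) (nat_lit 54272) (nat_lit 136) (.p (nat_lit 64) (nat_lit 1) (.p (nat_lit 66) (nat_lit 2) (.n (nat_lit 67) (nat_lit 1) (.n (nat_lit 68) (nat_lit 2) (.p (nat_lit 69) (nat_lit 2) (.n (nat_lit 70) (nat_lit 3) (.p (nat_lit 71) (nat_lit 3) (.p (nat_lit 72) (nat_lit 2) (.n (nat_lit 73) (nat_lit 3) (.n (nat_lit 74) (nat_lit 1) (.p (nat_lit 75) (nat_lit 1) (.p (nat_lit 76) (nat_lit 3) (.n (nat_lit 77) (nat_lit 2) (.p (nat_lit 78) (nat_lit 3) (.n (nat_lit 79) (nat_lit 3) .z))))))))))))))) (.ct dR1_c52 (nat_lit 1) (nat_lit 8) (.s true (nat_lit 3) (nat_lit 4) (nat_lit 1) (nat_lit 3) (nat_lit 2) true (nat_lit 2) true (nat_lit 6) true (nat_lit 4) true (nat_lit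 7) true (nat_lit 5) (.s false (nat_lit 1) (nat_lit 4) (nat_lit 2) (nat_lit 3) (nat_lit 1) true (nat_lit 2) true (nat_lit 7) true (nat_lit 4) true (nat_lit 6) true (nat_lit 5) (.s true (nat_lit 1) (nat_lit 4) (nat_lit 3) (nat_lit 2) (nat_lit 1) true (nat_lit 1) true (nat_lit 7) true (nat_lit 4) true (nat_lit 5) true (nat_lit 6) (.s false (nat_lit 1) (nat_lit 6) (nat_lit 1) (nat_lit 0) (nat_lit 4) true (nat_lit 0) true (nat_lit 4) true (nat_lit 2) true (nat_lit 7) true (nat_lit 8) (.s false (nat_lit 2) (nat_lit 7) (nat_lit 1) (nat_lit 1) (nat_lit 3) true (nat_lit 1) true (nat_lit 5) true (nat_lit 2) true (nat_lit 7) true (nat_lit 7) (.s true (nat_lit 1) (nat_lit 6) (nat_lit 3) (nat_lit 1) (nat_lit 1) true (nat_lit 1) true (nat_lit 7) true (nat_lit 2) true (nat_lit 5) true (nat_lit 7) (.s true (nat_lit 2) (nat_lit 8) (nat_lit 1) (nat_lit 0) (nat_lit 3) true (nat_lit 1) true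 (nat_lit 5) true (nat_lit 1) true (nat_lit 7) true (nat_lit 8) (.s false (nat_lit 2) (nat_lit 9) (nat_lit 1) (nat_lit 1) (nat_lit 2) true (nat_lit 2) true (nat_lit 6) true (nat_lit 1) true (nat_lit 7) true (nat_lit 7) (.s true (nat_lit 1) (nat_lit 8) (nat_lit 2) (nat_lit 1) (nat_lit 1) true (nat_lit 2) true (nat_lit 7) true (nat_lit 1) true (nat_lit 6) true (nat_lit 7) (.s true (nat_lit 1) (nat_lit 10) (nat_lit 0) (nat_lit 1) (nat_lit 2) true (nat_lit 3) true (nat_lit 6) true (nat_lit 0) true (nat_lit 8) true (nat_lit 7) (.s false (nat_lit 2) (nat_lit 10) (nat_lit 0) (nat_lit 2) (nat_lit 1) true (nat_lit 5) true (nat_lit 7) true (nat_lit 0) true (nat_lit 8) true (nat_lit 6) (.s true (nat_lit 2) (nat_lit 10) (nat_lit 1) (nat_lit 0) (nat_lit 2) true (nat_lit 2) true (nat_lit 6) true (nat_lit 0) true (nat_lit 7) true (nat_lit 8) (.s true (nat_lit 3) (nat_lit 14) (nat_lit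 0) (nat_lit 1) (nat_lit 1) true (nat_lit 5) true (nat_lit 7) false (nat_lit 1) true (nat_lit 8) true (nat_lit 7) (.s false (nat_lit 3) (nat_lit 14) (nat_lit 1) (nat_lit 0) (nat_lit 1) true (nat_lit 4) true (nat_lit 7) false (nat_lit 1) true (nat_lit 7) true (nat_lit 8) (.s true (nat_lit 3) (nat_lit 15) (nat_lit 1) (nat_lit 1) (nat_lit 0) true (nat_lit 5) true (nat_lit 8) false (nat_lit 1) true (nat_lit 7) true (nat_lit 7) (.s false (nat_lit 3) (nat_lit 16) (nat_lit 1) (nat_lit 1) (nat_lit 0) true (nat_lit 5) true (nat_lit 8) false (nat_lit 1) true (nat_lit 7) true (nat_lit 7) (.s false (nat_lit 3) (nat_lit 19) (nat_lit 0) (nat_lit 1) (nat_lit 0) true (nat_lit 6) true (nat_lit 8) false (nat_lit 2) true (nat_lit 8) true (nat_lit 7) (.s false (nat_lit 2) (nat_lit 18) (nat_lit 1) (nat_lit 0) (nat_lit 0) true (nat_lit 5) true (nat_lit 8) false (nat_lit 2) true (nat_lit 7)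 true (nat_lit 8) dR1_i2))))))))))))))))))) .leaf) (nat_lit 54273) (nat_lit 167) (.p (nat_lit 84) (nat_lit 1) .z) .df (.nd (.nd .leaf (nat_lit 55296) (nat_lit 138) (.p (nat_lit 64) (nat_lit 3) (.n (nat_lit 65) (nat_lit 2) (.n (nat_lit 66) (nat_lit 1) (.n (nat_lit 67) (nat_lit 1) (.n (nat_lit 68) (nat_lit 2) (.p (nat_lit 69) (nat_lit 1) (.n (nat_lit 70) (nat_lit 2) (.n (nat_lit 71) (nat_lit 2) (.p (nat_lit 73) (nat_lit 3) (.n (nat_lit 75) (nat_lit 2) (.p (nat_lit 76) (nat_lit 2) (.p (nat_lit 78) (nat_lit 1) (.n (nat_lit 79) (nat_lit 1) .z))))))))))))) (.ct dR1_c52 (nat_lit 1) (nat_lit 8) (.s false (nat_lit 3) (nat_lit 4) (nat_lit 2) (nat_lit 1) (nat_lit 3) false (nat_lit 0) true (nat_lit 5) true (nat_lit 4) true (nat_lit 6) true (nat_lit 7) (.s false (nat_lit 3) (nat_lit 4) (nat_lit 2) (nat_lit 3) (nat_lit 1) true (nat_lit 2) true (nat_lit 7) true (nat_lit 4) true (nat_lit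 6) true (nat_lit 5) (.s true (nat_lit 3) (nat_lit 6) (nat_lit 1) (nat_lit 4) (nat_lit 0) true (nat_lit 5) true (nat_lit 8) true (nat_lit 2) true (nat_lit 7) true (nat_lit 4) (.s false (nat_lit 3) (nat_lit 6) (nat_lit 4) (nat_lit 0) (nat_lit 1) true (nat_lit 0) true (nat_lit 7) true (nat_lit 2) true (nat_lit 4) true (nat_lit 8) (.s false (nat_lit 1) (nat_lit 10) (nat_lit 0) (nat_lit 1) (nat_lit 2) true (nat_lit 3) true (nat_lit 6) true (nat_lit 0) true (nat_lit 8) true (nat_lit 7) dR1_i3)))))) .leaf) (nat_lit 55297) (nat_lit 168) (.p (nat_lit 85) (nat_lit 1) .z) .df .leaf))) (nat_lit 56321) (nat_lit 169) (.p (nat_lit 86) (nat_lit 1) .z) .df (.nd (.nd (.nd (.nd .leaf (nat_lit 57344) (nat_lit 134) (.p (nat_lit 64) (nat_lit 3) (.n (nat_lit 65) (nat_lit 1) (.n (nat_lit 66) (nat_lit 1) (.n (nat_lit 67) (nat_lit 2) (.n (nat_lit 70) (nat_lit 2) (.p (nat_lit 71) (nat_lit 3) (.n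 (nat_lit 72) (nat_lit 3) (.p (nat_lit 73) (nat_lit 2) (.n (nat_lit 74) (nat_lit 1) (.n (nat_lit 75) (nat_lit 1) (.p (nat_lit 76) (nat_lit 3) (.n (nat_lit 78) (nat_lit 2) (.p (nat_lit 79) (nat_lit 2) .z))))))))))))) (.ct dR1_c52 (nat_lit 1) (nat_lit 8) (.s false (nat_lit 3) (nat_lit 4) (nat_lit 1) (nat_lit 3) (nat_lit 2) true (nat_lit 2) true (nat_lit 6) true (nat_lit 4) true (nat_lit 7) true (nat_lit 5) (.s false (nat_lit 1) (nat_lit 4) (nat_lit 2) (nat_lit 3) (nat_lit 1) true (nat_lit 2) true (nat_lit 7) true (nat_lit 4) true (nat_lit 6) true (nat_lit 5) (.s false (nat_lit 2) (nat_lit 4) (nat_lit 3) (nat_lit 2) (nat_lit 1) true (nat_lit 1) true (nat_lit 7) true (nat_lit 4) true (nat_lit 5) true (nat_lit 6) (.s true (nat_lit 3) (nat_lit 6) (nat_lit 1) (nat_lit 4) (nat_lit 0) true (nat_lit 5) true (nat_lit 8) true (nat_lit 2) true (nat_lit 7) true (nat_lit 4) (.s false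 (nat_lit 3) (nat_lit 6) (nat_lit 3) (nat_lit 1) (nat_lit 1) true (nat_lit 1) true (nat_lit 7) true (nat_lit 2) true (nat_lit 5) true (nat_lit 7) (.s false (nat_lit 1) (nat_lit 8) (nat_lit 1) (nat_lit 0) (nat_lit 3) true (nat_lit 1) true (nat_lit 5) true (nat_lit 1) true (nat_lit 7) true (nat_lit 8) (.s false (nat_lit 3) (nat_lit 9) (nat_lit 1) (nat_lit 0) (nat_lit 3) true (nat_lit 1) true (nat_lit 5) true (nat_lit 1) true (nat_lit 7) true (nat_lit 8) (.s true (nat_lit 2) (nat_lit 9) (nat_lit 1) (nat_lit 1) (nat_lit 2) true (nat_lit 2) true (nat_lit 6) true (nat_lit 1) true (nat_lit 7) true (nat_lit 7) dR1_i4))))))))) .leaf) (nat_lit 57345) (nat_lit 170) (.p (nat_lit 87) (nat_lit 1) .z) .df .leaf) (nat_lit 58368) (nat_lit 135) (.n (nat_lit 64) (nat_lit 3) (.n (nat_lit 65) (nat_lit 2) (.p (nat_lit 66) (nat_lit 1) (.n (nat_lit 67) (nat_lit 2) (.p (nat_lit 68) (nat_lit 3)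 (.p (nat_lit 69) (nat_lit 1) (.p (nat_lit 70) (nat_lit 1) (.p (nat_lit 71) (nat_lit 2) (.n (nat_lit 72) (nat_lit 2) (.p (nat_lit 73) (nat_lit 1) (.n (nat_lit 74) (nat_lit 1) (.p (nat_lit 76) (nat_lit 2) (.n (nat_lit 78) (nat_lit 3) (.p (nat_lit 79) (nat_lit 3) .z)))))))))))))) (.ct dR1_c52 (nat_lit 1) (nat_lit 8) (.s false (nat_lit 1) (nat_lit 4) (nat_lit 1) (nat_lit 3) (nat_lit 2) true (nat_lit 2) true (nat_lit 6) true (nat_lit 4) true (nat_lit 7) true (nat_lit 5) (.s false (nat_lit 3) (nat_lit 4) (nat_lit 2) (nat_lit 3) (nat_lit 1) true (nat_lit 2) true (nat_lit 7) true (nat_lit 4) true (nat_lit 6) true (nat_lit 5) (.s true (nat_lit 2) (nat_lit 6) (nat_lit 1) (nat_lit 0) (nat_lit 4) true (nat_lit 0) true (nat_lit 4) true (nat_lit 2) true (nat_lit 7) true (nat_lit 8) (.s false (nat_lit 1) (nat_lit 6) (nat_lit 1) (nat_lit 4) (nat_lit 0) true (nat_lit 5) true (nat_lit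 8) true (nat_lit 2) true (nat_lit 7) true (nat_lit 4) (.s false (nat_lit 1) (nat_lit 6) (nat_lit 4) (nat_lit 0) (nat_lit 1) true (nat_lit 0) true (nat_lit 7) true (nat_lit 2) true (nat_lit 4) true (nat_lit 8) (.s false (nat_lit 2) (nat_lit 8) (nat_lit 0) (nat_lit 4) (nat_lit 0) true (nat_lit 6) true (nat_lit 8) true (nat_lit 1) true (nat_lit 8) true (nat_lit 4) (.s true (nat_lit 2) (nat_lit 8) (nat_lit 1) (nat_lit 0) (nat_lit 3) true (nat_lit 1) true (nat_lit 5) true (nat_lit 1) true (nat_lit 7) true (nat_lit 8) (.s true (nat_lit 1) (nat_lit 10) (nat_lit 0) (nat_lit 1) (nat_lit 2) true (nat_lit 3) true (nat_lit 6) true (nat_lit 0) true (nat_lit 8) true (nat_lit 7) dR1_i5))))))))) (.nd (.nd .leaf (nat_lit 58369) (nat_lit 182) (.n (nat_lit 80) (nat_lit 1) (.p (nat_lit 82) (nat_lit 2) (.n (nat_lit 83) (nat_lit 3) (.p (nat_lit 84) (nat_lit 2) (.p (nat_lit 86) (nat_lit 3)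 (.n (nat_lit 87) (nat_lit 2) .z)))))) (.ct dR1_c37 (nat_lit 1) (nat_lit 6) (.s false (nat_lit 1) (nat_lit 4) (nat_lit 3) (nat_lit 3) (nat_lit 1) true (nat_lit 1) true (nat_lit 6) true (nat_lit 3) true (nat_lit 4) true (nat_lit 4) (.s true (nat_lit 3) (nat_lit 9) (nat_lit 0) (nat_lit 4) (nat_lit 1) true (nat_lit 4) true (nat_lit 6) true (nat_lit 1) true (nat_lit 7) true (nat_lit 3) (.s false (nat_lit 1) (nat_lit 8) (nat_lit 3) (nat_lit 1) (nat_lit 1) true (nat_lit 1) true (nat_lit 6) true (nat_lit 1) true (nat_lit 4) true (nat_lit 6) (.s false (nat_lit 1) (nat_lit 10) (nat_lit 1) (nat_lit 0) (nat_lit 3) true (nat_lit 1) true (nat_lit 4) true (nat_lit 0) true (nat_lit 6) true (nat_lit 7) (.s true (nat_lit 1) (nat_lit 18) (nat_lit 0) (nat_lit 1) (nat_lit 1) true (nat_lit 4) true (nat_lit 6) false (nat_lit 1) true (nat_lit 7) true (nat_lit 6) (.s true (nat_lit 2) (nat_lit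 20) (nat_lit 0) (nat_lit 0) (nat_lit 1) true (nat_lit 4) true (nat_lit 6) false (nat_lit 2) true (nat_lit 7) true (nat_lit 7) (.e true (nat_lit 1) (nat_lit 49) (nat_lit 1) (nat_lit 6) (.e true (nat_lit 3) (nat_lit 50) (nat_lit 1) (nat_lit 6) (.e false (nat_lit 3) (nat_lit 51) (nat_lit 1) (nat_lit 6) (.e false (nat_lit 3) (nat_lit 52) (nat_lit 1) (nat_lit 6) (.e true (nat_lit 3) (nat_lit 53) (nat_lit 1) (nat_lit 6) (.e false (nat_lit 1) (nat_lit 56) (nat_lit 1) (nat_lit 6) (.e true (nat_lit 2) (nat_lit 34) (nat_lit 3) (nat_lit 4) (.e true (nat_lit 3) (nat_lit 58) (nat_lit 1) (nat_lit 6) (.e false (nat_lit 3) (nat_lit 18) (nat_lit 9) (nat_lit 1) (.e true (nat_lit 3) (nat_lit 31) (nat_lit 4) (nat_lit 3) (.e true (nat_lit 1) (nat_lit 55) (nat_lit 1) (nat_lit 6) (.e false (nat_lit 2) (nat_lit 60) (nat_lit 0) (nat_lit 7) (.e false (nat_lit 2) (nat_lit 20) (nat_lit 6) (nat_lit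 2) (.u (nat_lit 2) (.p (nat_lit 0) (nat_lit 1) (.n (nat_lit 1) (nat_lit 1) (.p (nat_lit 2) (nat_lit 3) (.n (nat_lit 3) (nat_lit 2) (.p (nat_lit 4) (nat_lit 1) (.p (nat_lit 5) (nat_lit 1) (.p (nat_lit 29) (nat_lit 1) (.n (nat_lit 30) (nat_lit 1) (.n (nat_lit 33) (nat_lit 2) (.n (nat_lit 34) (nat_lit 2) (.p (nat_lit 35) (nat_lit 1) (.n (nat_lit 36) (nat_lit 2) (.p (nat_lit 38) (nat_lit 3) (.n (nat_lit 41) (nat_lit 1) .z)))))))))))))) .nil))))))))))))))))))))) .leaf) (nat_lit 59392) (nat_lit 142) (.n (nat_lit 64) (nat_lit 3) (.p (nat_lit 65) (nat_lit 3) (.p (nat_lit 66) (nat_lit 1) (.p (nat_lit 70) (nat_lit 3) (.p (nat_lit 71) (nat_lit 3) (.p (nat_lit 73) (nat_lit 3) (.n (nat_lit 75) (nat_lit 2) (.p (nat_lit 76) (nat_lit 2) (.p (nat_lit 78) (nat_lit 3) (.n (nat_lit 79) (nat_lit 3) .z)))))))))) (.ct dR1_c52 (nat_lit 1) (nat_lit 8) (.s true (nat_lit 1) (nat_lit 9) (nat_lit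 4) (nat_lit 0) (nat_lit 0) true (nat_lit 1) true (nat_lit 8) true (nat_lit 1) true (nat_lit 4) true (nat_lit 8) (.e true (nat_lit 2) (nat_lit 56) (nat_lit 0) (nat_lit 8) (.e false (nat_lit 2) (nat_lit 21) (nat_lit 4) (nat_lit 4) (.e false (nat_lit 2) (nat_lit 22) (nat_lit 4) (nat_lit 4) (.e true (nat_lit 3) (nat_lit 23) (nat_lit 4) (nat_lit 4) (.e false (nat_lit 3) (nat_lit 24) (nat_lit 4) (nat_lit 4) (.e false (nat_lit 3) (nat_lit 25) (nat_lit 4) (nat_lit 4) (.e false (nat_lit 3) (nat_lit 26) (nat_lit 4) (nat_lit 4) (.e false (nat_lit 3) (nat_lit 49) (nat_lit 0) (nat_lit 8) (.e false (nat_lit 1) (nat_lit 50) (nat_lit 0) (nat_lit 8) (.e true (nat_lit 3) (nat_lit 51) (nat_lit 0) (nat_lit 8) (.e false (nat_lit 3) (nat_lit 52) (nat_lit 0) (nat_lit 8) (.e true (nat_lit 2) (nat_lit 53) (nat_lit 0) (nat_lit 8) (.e true (nat_lit 2) (nat_lit 54) (nat_lit 0) (nat_lit 8) (.u (nat_lit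 2) (.n (nat_lit 0) (nat_lit 2) (.p (nat_lit 1) (nat_lit 3) (.n (nat_lit 2) (nat_lit 1) (.n (nat_lit 3) (nat_lit 1) (.p (nat_lit 4) (nat_lit 2) (.p (nat_lit 6) (nat_lit 2) (.n (nat_lit 7) (nat_lit 2) (.p (nat_lit 8) (nat_lit 2) (.n (nat_lit 9) (nat_lit 1) (.p (nat_lit 10) (nat_lit 1) (.p (nat_lit 11) (nat_lit 1) (.n (nat_lit 12) (nat_lit 3) (.p (nat_lit 13) (nat_lit 1) (.n (nat_lit 14) (nat_lit 2) (.n (nat_lit 59) (nat_lit 1) (.n (nat_lit 60) (nat_lit 1) (.p (nat_lit 61) (nat_lit 1) (.n (nat_lit 62) (nat_lit 1) (.p (nat_lit 64) (nat_lit 1) .z))))))))))))))))))) .nil)))))))))))))))) .leaf)) (nat_lit 59393) (nat_lit 175) (.p (nat_lit 85) (nat_lit 1) .z) (.ct dR1_c37 (nat_lit 1) (nat_lit 6) (.s false (nat_lit 2) (nat_lit 6) (nat_lit 1) (nat_lit 1) (nat_lit 4) true (nat_lit 0) true (nat_lit 3) true (nat_lit 2) true (nat_lit 6) true (nat_lit 6) (.s true (nat_lit 2) (nat_lit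 6) (nat_lit 1) (nat_lit 4) (nat_lit 1) true (nat_lit 3) true (nat_lit 6) true (nat_lit 2) true (nat_lit 6) true (nat_lit 3) (.s true (nat_lit 2) (nat_lit 6) (nat_lit 4) (nat_lit 1) (nat_lit 1) true (nat_lit 0) true (nat_lit 6) true (nat_lit 2) true (nat_lit 3) true (nat_lit 6) (.e true (nat_lit 3) (nat_lit 32) (nat_lit 4) (nat_lit 3) (.u (nat_lit 2) (.n (nat_lit 5) (nat_lit 1) (.p (nat_lit 27) (nat_lit 1) (.n (nat_lit 42) (nat_lit 1) .z))) .nil)))))) (.nd (.nd (.nd .leaf (nat_lit 60416) (nat_lit 171) (.p (nat_lit 88) (nat_lit 1) .z) .df .leaf) (nat_lit 61440) (nat_lit 172) (.p (nat_lit 89) (nat_lit 1) .z) .df .leaf) (nat_lit 62464) (nat_lit 187) (.n (nat_lit 81) (nat_lit 2) (.p (nat_lit 82) (nat_lit 1) (.n (nat_lit 83) (nat_lit 1) (.p (nat_lit 84) (nat_lit 2) (.p (nat_lit 85) (nat_lit 3) (.p (nat_lit 86) (nat_lit 2) (.n (nat_lit 87) (nat_lit 2) (.p (nat_lit 89) (nat_lit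 1) .z)))))))) (.ct dR1_c37 (nat_lit 1) (nat_lit 7) (.s false (nat_lit 3) (nat_lit 18) (nat_lit 0) (nat_lit 1) (nat_lit 1) true (nat_lit 4) true (nat_lit 6) false (nat_lit 1) true (nat_lit 7) true (nat_lit 6) (.e false (nat_lit 3) (nat_lit 34) (nat_lit 3) (nat_lit 4) (.e false (nat_lit 3) (nat_lit 53) (nat_lit 1) (nat_lit 6) (.e true (nat_lit 3) (nat_lit 18) (nat_lit 8) (nat_lit 1) (.e false (nat_lit 1) (nat_lit 60) (nat_lit 0) (nat_lit 7) (.e true (nat_lit 3) (nat_lit 63) (nat_lit 0) (nat_lit 7) (.e true (nat_lit 3) (nat_lit 56) (nat_lit 1) (nat_lit 6) (.u (nat_lit 2) (.n (nat_lit 0) (nat_lit 3) (.n (nat_lit 1) (nat_lit 1) (.n (nat_lit 2) (nat_lit 1) (.p (nat_lit 3) (nat_lit 1) (.n (nat_lit 4) (nat_lit 2) (.p (nat_lit 6) (nat_lit 1) (.n (nat_lit 7) (nat_lit 1) (.n (nat_lit 44) (nat_lit 1) (.p (nat_lit 45) (nat_lit 1) .z))))))))) .nil))))))))) (.nd (.nd .leaf (nat_lit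 63488) (nat_lit 192) (.n (nat_lit 81) (nat_lit 3) (.p (nat_lit 82) (nat_lit 2) (.p (nat_lit 83) (nat_lit 3) (.n (nat_lit 84) (nat_lit 3) (.n (nat_lit 85) (nat_lit 1) (.n (nat_lit 86) (nat_lit 2) (.p (nat_lit 87) (nat_lit 3) (.p (nat_lit 89) (nat_lit 1) .z)))))))) (.ct dR1_c37 (nat_lit 1) (nat_lit 7) (.s true (nat_lit 1) (nat_lit 17) (nat_lit 0) (nat_lit 1) (nat_lit 1) true (nat_lit 4) true (nat_lit 6) false (nat_lit 1) true (nat_lit 7) true (nat_lit 6) (.e true (nat_lit 1) (nat_lit 33) (nat_lit 3) (nat_lit 4) (.e true (nat_lit 1) (nat_lit 52) (nat_lit 1) (nat_lit 6) (.e false (nat_lit 1) (nat_lit 17) (nat_lit 8) (nat_lit 1) (.e true (nat_lit 1) (nat_lit 60) (nat_lit 0) (nat_lit 7) (.e false (nat_lit 2) (nat_lit 61) (nat_lit 0) (nat_lit 7) (.e false (nat_lit 1) (nat_lit 63) (nat_lit 0) (nat_lit 7) (.e false (nat_lit 1) (nat_lit 55) (nat_lit 1) (nat_lit 6) (.u (nat_lit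 2) (.p (nat_lit 4) (nat_lit 1) (.p (nat_lit 5) (nat_lit 1) (.p (nat_lit 6) (nat_lit 1) (.n (nat_lit 7) (nat_lit 1) .z)))) .nil)))))))))) .leaf) (nat_lit 64512) (nat_lit 186) (.p (nat_lit 80) (nat_lit 2) (.n (nat_lit 81) (nat_lit 1) (.n (nat_lit 85) (nat_lit 3) (.n (nat_lit 86) (nat_lit 3) (.p (nat_lit 87) (nat_lit 2) .z))))) (.ct dR1_c37 (nat_lit 1) (nat_lit 7) (.s false (nat_lit 1) (nat_lit 19) (nat_lit 0) (nat_lit 1) (nat_lit 1) true (nat_lit 4) true (nat_lit 6) false (nat_lit 1) true (nat_lit 7) true (nat_lit 6) (.e false (nat_lit 1) (nat_lit 35) (nat_lit 3) (nat_lit 4) (.e true (nat_lit 2) (nat_lit 49) (nat_lit 1) (nat_lit 6) (.e true (nat_lit 2) (nat_lit 50) (nat_lit 1) (nat_lit 6) (.e false (nat_lit 1) (nat_lit 51) (nat_lit 1) (nat_lit 6) (.e true (nat_lit 2) (nat_lit 52) (nat_lit 1) (nat_lit 6) (.e true (nat_lit 1) (nat_lit 53) (nat_lit 1) (nat_lit 6) (.e false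 (nat_lit 2) (nat_lit 54) (nat_lit 1) (nat_lit 6) (.e true (nat_lit 1) (nat_lit 19) (nat_lit 8) (nat_lit 1) (.e true (nat_lit 1) (nat_lit 57) (nat_lit 1) (nat_lit 6) (.u (nat_lit 2) (.p (nat_lit 5) (nat_lit 1) .z) .nil)))))))))))) .leaf))))))

noncomputable def dR1_t2 : Tr := (.nd dR1_t0 (nat_lit 19460) (nat_lit 106) (.p (nat_lit 63) (nat_lit 1) .z) .df dR1_t1)

noncomputable def dR1_cl : CL := (.c (nat_lit 16) (nat_lit 0) (nat_lit 1) (.c (nat_lit 1) (nat_lit 1) (nat_lit 1) (.c (nat_lit 32) (nat_lit 2) (nat_lit 1) (.c (nat_lit 17) (nat_lit 3) (nat_lit 1) (.c (nat_lit 2) (nat_lit 4) (nat_lit 1) (.c (nat_lit 48) (nat_lit 5) (nat_lit 1) (.c (nat_lit 33) (nat_lit 6) (nat_lit 2) (.c (nat_lit 18) (nat_lit 8) (nat_lit 2) (.c (nat_lit 3) (nat_lit 10) (nat_lit 1) (.c (nat_lit 49) (nat_lit 11) (nat_lit 3) (.c (nat_lit 34) (nat_lit 14) (nat_lit 3) (.c (nat_lit 19) (nat_lit 17) (nat_lit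 3) (.c (nat_lit 4) (nat_lit 20) (nat_lit 1) (.c (nat_lit 50) (nat_lit 21) (nat_lit 6) (.c (nat_lit 35) (nat_lit 27) (nat_lit 6) (.c (nat_lit 20) (nat_lit 33) (nat_lit 4) (.c (nat_lit 5) (nat_lit 37) (nat_lit 1) (.c (nat_lit 51) (nat_lit 38) (nat_lit 11) (.c (nat_lit 36) (nat_lit 49) (nat_lit 10) (.c (nat_lit 21) (nat_lit 59) (nat_lit 5) (.c (nat_lit 52) (nat_lit 64) (nat_lit 16) (.c (nat_lit 37) (nat_lit 80) (nat_lit 11) .nil))))))))))))))))))))))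

noncomputable def dR1_D : Dt := ⟨(nat_lit 16777216), (nat_lit 8388608), (nat_lit 1), (nat_lit 91), (nat_lit 9279984174259587572027052165858421415905516290924561526499295739915775409281188861167760315596520780810835813264732592288651350107483187673299229578145877946252644430610369877300549089063871657605815235069341566763441950089983748421178930275122686644562219171876761438888923056464636396850650055618553093691109608427568479946500584162048832255634255697549615593732965936600456991909315703869049537255933429603954463367229239299929297401033744712765400990300222960885273188417712740314058660091795345655951515515975586226682559333282441500390158202789671490876585178480909303632780423950329914030931410457379015481870849486022790107874529694196205380173827), (nat_lit 2475880060124016750964508643), dR1_t2, dR1_cl⟩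

noncomputable def dR1_gs : BL := (.c (nat_lit 17) (nat_lit 3) (nat_lit 14) (nat_lit 3) (nat_lit 0) (.c (nat_lit 20) (nat_lit 1) (nat_lit 11) (nat_lit 3) (nat_lit 9) (.c (nat_lit 21) (nat_lit 6) (nat_lit 10) (nat_lit 1) (nat_lit 12) (.c (nat_lit 27) (nat_lit 6) (nat_lit 8) (nat_lit 2) (nat_lit 18) (.c (nat_lit 33) (nat_lit 4) (nat_lit 6) (nat_lit 2) (nat_lit 30) (.c (nat_lit 37) (nat_lit 1) (nat_lit 5) (nat_lit 1) (nat_lit 38) (.c (nat_lit 38) (nat_lit 11) (nat_lit 4) (nat_lit 1) (nat_lit 39) (.c (nat_lit 49) (nat_lit 10) (nat_lit 3) (nat_lit 1) (nat_lit 50) (.c (nat_lit 59) (nat_lit 5) (nat_lit 2) (nat_lit 1) (nat_lit 60) (.c (nat_lit 64) (nat_lit 16) (nat_lit 1) (nat_lit 1) (nat_lit 65) (.c (nat_lit 80) (nat_lit 11) (nat_lit 0) (nat_lit 1) (nat_lit 81) .nil)))))))))))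

noncomputable def dR1_i6 : IL := (.s false (nat_lit 1) (nat_lit 20) (nat_lit 0) (nat_lit 3) (nat_lit 0) true (nat_lit 8) true (nat_lit 10) false (nat_lit 1) true (nat_lit 10) true (nat_lit 7) (.s true (nat_lit 3) (nat_lit 20) (nat_lit 1) (nat_lit 0) (nat_lit 2) true (nat_lit 4) true (nat_lit 8) false (nat_lit 1) true (nat_lit 9) true (nat_lit 10) (.s false (nat_lit 1) (nat_lit 20) (nat_lit 1) (nat_lit 2) (nat_lit 0) true (nat_lit 7) true (nat_lit 10) false (nat_lit 1) true (nat_lit 9) true (nat_lit 8) (.s true (nat_lit 1) (nat_lit 20) (nat_lit 2) (nat_lit 0) (nat_lit 1) true (nat_lit 4) true (nat_lit 9) false (nat_lit 1) true (nat_lit 8) true (nat_lit 10) (.s false (nat_lit 1) (nat_lit 20) (nat_lit 3) (nat_lit 0) (nat_lit 0) true (nat_lit 4) true (nat_lit 10) false (nat_lit 1) true (nat_lit 7) true (nat_lit 10) (.s true (nat_lit 3) (nat_lit 24) (nat_lit 1) (nat_lit 1)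 (nat_lit 1) true (nat_lit 6) true (nat_lit 9) false (nat_lit 2) true (nat_lit 9) true (nat_lit 9) (.s true (nat_lit 1) (nat_lit 25) (nat_lit 1) (nat_lit 1) (nat_lit 1) true (nat_lit 6) true (nat_lit 9) false (nat_lit 2) true (nat_lit 9) true (nat_lit 9) (.s true (nat_lit 3) (nat_lit 27) (nat_lit 0) (nat_lit 1) (nat_lit 1) true (nat_lit 7) true (nat_lit 9) false (nat_lit 3) true (nat_lit 10) true (nat_lit 9) (.s true (nat_lit 2) (nat_lit 28) (nat_lit 0) (nat_lit 1) (nat_lit 1) true (nat_lit 7) true (nat_lit 9) false (nat_lit 3) true (nat_lit 10) true (nat_lit 9) (.s true (nat_lit 1) (nat_lit 29) (nat_lit 0) (nat_lit 1) (nat_lit 1) true (nat_lit 7) true (nat_lit 9) false (nat_lit 3) true (nat_lit 10) true (nat_lit 9) (.s false (nat_lit 2) (nat_lit 32) (nat_lit 0) (nat_lit 1) (nat_lit 1) true (nat_lit 7) true (nat_lit 9) false (nat_lit 3) true (nat_lit 10) true (nat_lit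 9) (.s false (nat_lit 1) (nat_lit 28) (nat_lit 1) (nat_lit 0) (nat_lit 1) true (nat_lit 6) true (nat_lit 9) false (nat_lit 3) true (nat_lit 9) true (nat_lit 10) (.s true (nat_lit 2) (nat_lit 29) (nat_lit 1) (nat_lit 0) (nat_lit 1) true (nat_lit 6) true (nat_lit 9) false (nat_lit 3) true (nat_lit 9) true (nat_lit 10) (.s false (nat_lit 2) (nat_lit 30) (nat_lit 1) (nat_lit 0) (nat_lit 1) true (nat_lit 6) true (nat_lit 9) false (nat_lit 3) true (nat_lit 9) true (nat_lit 10) (.s false (nat_lit 3) (nat_lit 31) (nat_lit 1) (nat_lit 0) (nat_lit 1) true (nat_lit 6) true (nat_lit 9) false (nat_lit 3) true (nat_lit 9) true (nat_lit 10) (.s false (nat_lit 2) (nat_lit 32) (nat_lit 1) (nat_lit 0) (nat_lit 1) true (nat_lit 6) true (nat_lit 9) false (nat_lit 3) true (nat_lit 9) true (nat_lit 10) (.s true (nat_lit 2) (nat_lit 27) (nat_lit 1) (nat_lit 1) (nat_lit 0) true (nat_lit 7) true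 (nat_lit 10) false (nat_lit 3) true (nat_lit 9) true (nat_lit 9) (.s false (nat_lit 1) (nat_lit 29) (nat_lit 1) (nat_lit 1) (nat_lit 0) true (nat_lit 7) true (nat_lit 10) false (nat_lit 3) true (nat_lit 9) true (nat_lit 9) (.s true (nat_lit 3) (nat_lit 30) (nat_lit 1) (nat_lit 1) (nat_lit 0) true (nat_lit 7) true (nat_lit 10) false (nat_lit 3) true (nat_lit 9) true (nat_lit 9) (.s true (nat_lit 1) (nat_lit 32) (nat_lit 1) (nat_lit 1) (nat_lit 0) true (nat_lit 7) true (nat_lit 10) false (nat_lit 3) true (nat_lit 9) true (nat_lit 9) (.s true (nat_lit 2) (nat_lit 34) (nat_lit 0) (nat_lit 0) (nat_lit 1) true (nat_lit 7) true (nat_lit 9) false (nat_lit 4) true (nat_lit 10) true (nat_lit 10) (.s true (nat_lit 1) (nat_lit 34) (nat_lit 0) (nat_lit 1) (nat_lit 0) true (nat_lit 8) true (nat_lit 10) false (nat_lit 4) true (nat_lit 10) true (nat_lit 9) (.s false (nat_lit 2) (nat_lit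 33) (nat_lit 1) (nat_lit 0) (nat_lit 0) true (nat_lit 7) true (nat_lit 10) false (nat_lit 4) true (nat_lit 9) true (nat_lit 10) (.s true (nat_lit 1) (nat_lit 34) (nat_lit 1) (nat_lit 0) (nat_lit 0) true (nat_lit 7) true (nat_lit 10) false (nat_lit 4) true (nat_lit 9) true (nat_lit 10) (.u (nat_lit 2) (.p (nat_lit 1) (nat_lit 1) (.n (nat_lit 2) (nat_lit 1) (.p (nat_lit 4) (nat_lit 1) (.p (nat_lit 5) (nat_lit 1) (.n (nat_lit 8) (nat_lit 2) (.p (nat_lit 9) (nat_lit 1) (.n (nat_lit 10) (nat_lit 1) (.p (nat_lit 13) (nat_lit 1) (.n (nat_lit 15) (nat_lit 1) (.n (nat_lit 19) (nat_lit 1) (.n (nat_lit 20) (nat_lit 2) (.p (nat_lit 24) (nat_lit 2) (.n (nat_lit 26) (nat_lit 1) (.p (nat_lit 27) (nat_lit 2) (.p (nat_lit 28) (nat_lit 1) (.n (nat_lit 29) (nat_lit 1) (.p (nat_lit 31) (nat_lit 1) (.n (nat_lit 39) (nat_lit 1) (.n (nat_lit 41) (nat_lit 3) (.n (nat_lit 42) (nat_lit 1) (.p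 (nat_lit 43) (nat_lit 4) (.n (nat_lit 44) (nat_lit 1) (.n (nat_lit 45) (nat_lit 3) (.p (nat_lit 46) (nat_lit 1) (.n (nat_lit 50) (nat_lit 4) (.n (nat_lit 51) (nat_lit 3) (.p (nat_lit 52) (nat_lit 5) (.n (nat_lit 53) (nat_lit 4) (.p (nat_lit 55) (nat_lit 5) (.n (nat_lit 58) (nat_lit 1) (.n (nat_lit 59) (nat_lit 1) (.n (nat_lit 62) (nat_lit 1) (.n (nat_lit 65) (nat_lit 5) (.n (nat_lit 66) (nat_lit 2) (.n (nat_lit 67) (nat_lit 2) (.p (nat_lit 68) (nat_lit 2) (.p (nat_lit 69) (nat_lit 2) (.n (nat_lit 70) (nat_lit 1) (.n (nat_lit 71) (nat_lit 3) (.n (nat_lit 72) (nat_lit 5) (.n (nat_lit 73) (nat_lit 2) (.p (nat_lit 74) (nat_lit 3) (.p (nat_lit 75) (nat_lit 5) (.p (nat_lit 76) (nat_lit 5) (.n (nat_lit 77) (nat_lit 12) (.p (nat_lit 78) (nat_lit 4) (.p (nat_lit 79) (nat_lit 2) (.n (nat_lit 80) (nat_lit 1) (.n (nat_lit 81) (nat_lit 5) (.n (nat_lit 83) (nat_lit 4) (.n (nat_lit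 84) (nat_lit 2) (.p (nat_lit 85) (nat_lit 2) (.p (nat_lit 86) (nat_lit 5) (.n (nat_lit 87) (nat_lit 2) (.n (nat_lit 88) (nat_lit 4) (.p (nat_lit 91) (nat_lit 1) .z)))))))))))))))))))))))))))))))))))))))))))))))))))))))) .nil)))))))))))))))))))))))))

noncomputable def dR1_i7 : IL := (.s false (nat_lit 2) (nat_lit 10) (nat_lit 2) (nat_lit 0) (nat_lit 4) true (nat_lit 0) true (nat_lit 6) true (nat_lit 2) true (nat_lit 8) true (nat_lit 10) (.s false (nat_lit 2) (nat_lit 10) (nat_lit 2) (nat_lit 1) (nat_lit 3) true (nat_lit 1) true (nat_lit 7) true (nat_lit 2) true (nat_lit 8) true (nat_lit 9) (.s false (nat_lit 3) (nat_lit 10) (nat_lit 3) (nat_lit 2) (nat_lit 1) true (nat_lit 3) true (nat_lit 9) true (nat_lit 2) true (nat_lit 7) true (nat_lit 8) (.s true (nat_lit 1) (nat_lit 10) (nat_lit 5) (nat_lit 1) (nat_lit 1) true (nat_lit 1) true (nat_lit 9) true (nat_lit 2) true (nat_lit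 5) true (nat_lit 9) (.s true (nat_lit 3) (nat_lit 10) (nat_lit 7) (nat_lit 0) (nat_lit 1) true (nat_lit 0) true (nat_lit 9) true (nat_lit 2) true (nat_lit 4) true (nat_lit 10) (.s false (nat_lit 1) (nat_lit 10) (nat_lit 9) (nat_lit 0) (nat_lit 0) true (nat_lit 0) true (nat_lit 10) true (nat_lit 2) true (nat_lit 3) true (nat_lit 10) (.s true (nat_lit 1) (nat_lit 11) (nat_lit 1) (nat_lit 1) (nat_lit 4) true (nat_lit 2) true (nat_lit 6) true (nat_lit 1) true (nat_lit 9) true (nat_lit 9) (.s true (nat_lit 3) (nat_lit 12) (nat_lit 1) (nat_lit 1) (nat_lit 4) true (nat_lit 2) true (nat_lit 6) true (nat_lit 1) true (nat_lit 9) true (nat_lit 9) (.s false (nat_lit 2) (nat_lit 13) (nat_lit 1) (nat_lit 1) (nat_lit 4) true (nat_lit 2) true (nat_lit 6) true (nat_lit 1) true (nat_lit 9) true (nat_lit 9) (.s false (nat_lit 2) (nat_lit 11) (nat_lit 4) (nat_lit 1) (nat_lit 1) true (nat_lit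 2) true (nat_lit 9) true (nat_lit 1) true (nat_lit 6) true (nat_lit 9) (.s true (nat_lit 1) (nat_lit 14) (nat_lit 0) (nat_lit 1) (nat_lit 4) true (nat_lit 3) true (nat_lit 6) true (nat_lit 0) true (nat_lit 10) true (nat_lit 9) (.s false (nat_lit 3) (nat_lit 14) (nat_lit 1) (nat_lit 1) (nat_lit 3) true (nat_lit 3) true (nat_lit 7) true (nat_lit 0) true (nat_lit 9) true (nat_lit 9) (.s false (nat_lit 2) (nat_lit 16) (nat_lit 1) (nat_lit 1) (nat_lit 3) true (nat_lit 3) true (nat_lit 7) true (nat_lit 0) true (nat_lit 9) true (nat_lit 9) (.s true (nat_lit 2) (nat_lit 14) (nat_lit 3) (nat_lit 1) (nat_lit 1) true (nat_lit 3) true (nat_lit 9) true (nat_lit 0) true (nat_lit 7) true (nat_lit 9) (.s false (nat_lit 2) (nat_lit 15) (nat_lit 3) (nat_lit 1) (nat_lit 1) true (nat_lit 3) true (nat_lit 9) true (nat_lit 0) true (nat_lit 7) true (nat_lit 9) (.s false (nat_lit 2) (nat_lit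 15) (nat_lit 4) (nat_lit 1) (nat_lit 0) true (nat_lit 3) true (nat_lit 10) true (nat_lit 0) true (nat_lit 6) true (nat_lit 9) (.s true (nat_lit 1) (nat_lit 16) (nat_lit 4) (nat_lit 1) (nat_lit 0) true (nat_lit 3) true (nat_lit 10) true (nat_lit 0) true (nat_lit 6) true (nat_lit 9) (.s false (nat_lit 3) (nat_lit 19) (nat_lit 0) (nat_lit 0) (nat_lit 4) true (nat_lit 3) true (nat_lit 6) false (nat_lit 0) true (nat_lit 10) true (nat_lit 10) (.s true (nat_lit 2) (nat_lit 17) (nat_lit 0) (nat_lit 3) (nat_lit 1) true (nat_lit 7) true (nat_lit 9) false (nat_lit 0) true (nat_lit 10) true (nat_lit 7) (.s true (nat_lit 1) (nat_lit 18) (nat_lit 1) (nat_lit 1) (nat_lit 2) true (nat_lit 4) true (nat_lit 8) false (nat_lit 0) true (nat_lit 9) true (nat_lit 9) (.s true (nat_lit 3) (nat_lit 18) (nat_lit 2) (nat_lit 1) (nat_lit 1) true (nat_lit 4) true (nat_lit 9) false (nat_lit 0) true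 (nat_lit 8) true (nat_lit 9) (.s false (nat_lit 3) (nat_lit 19) (nat_lit 2) (nat_lit 1) (nat_lit 1) true (nat_lit 4) true (nat_lit 9) false (nat_lit 0) true (nat_lit 8) true (nat_lit 9) (.s true (nat_lit 3) (nat_lit 18) (nat_lit 3) (nat_lit 0) (nat_lit 1) true (nat_lit 3) true (nat_lit 9) false (nat_lit 0) true (nat_lit 7) true (nat_lit 10) (.s false (nat_lit 1) (nat_lit 19) (nat_lit 3) (nat_lit 1) (nat_lit 0) true (nat_lit 4) true (nat_lit 10) false (nat_lit 0) true (nat_lit 7) true (nat_lit 9) (.s true (nat_lit 3) (nat_lit 20) (nat_lit 0) (nat_lit 1) (nat_lit 2) true (nat_lit 5) true (nat_lit 8) false (nat_lit 1) true (nat_lit 10) true (nat_lit 9) dR1_i6)))))))))))))))))))))))))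

noncomputable def dR1_il : IL := (.s true (nat_lit 2) (nat_lit 4) (nat_lit 2) (nat_lit 4) (nat_lit 3) true (nat_lit 1) true (nat_lit 7) true (nat_lit 6) true (nat_lit 8) true (nat_lit 6) (.s false (nat_lit 1) (nat_lit 5) (nat_lit 4) (nat_lit 1) (nat_lit 4) false (nat_lit 1) true (nat_lit 6) true (nat_lit 5) true (nat_lit 6) true (nat_lit 9) (.s true (nat_lit 2) (nat_lit 7) (nat_lit 3) (nat_lit 1) (nat_lit 4) false (nat_lit 0) true (nat_lit 6) true (nat_lit 4) true (nat_lit 7) true (nat_lit 9) (.s true (nat_lit 1) (nat_lit 6) (nat_lit 3) (nat_lit 4) (nat_lit 1) true (nat_lit 3) true (nat_lit 9) true (nat_lit 4) true (nat_lit 7) true (nat_lit 6) (.s false (nat_lit 2) (nat_lit 6) (nat_lit 4) (nat_lit 0) (nat_lit 4) false (nat_lit 1) true (nat_lit 6) true (nat_lit 4) true (nat_lit 6) true (nat_lit 10) (.s true (nat_lit 1) (nat_lit 7) (nat_lit 4) (nat_lit 0) (nat_lit 4) false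 (nat_lit 1) true (nat_lit 6) true (nat_lit 4) true (nat_lit 6) true (nat_lit 10) (.s true (nat_lit 2) (nat_lit 6) (nat_lit 4) (nat_lit 4) (nat_lit 0) true (nat_lit 3) true (nat_lit 10) true (nat_lit 4) true (nat_lit 6) true (nat_lit 6) (.s false (nat_lit 2) (nat_lit 8) (nat_lit 1) (nat_lit 1) (nat_lit 7) true (nat_lit 0) true (nat_lit 4) true (nat_lit 3) true (nat_lit 9) true (nat_lit 9) (.s true (nat_lit 2) (nat_lit 8) (nat_lit 1) (nat_lit 3) (nat_lit 3) true (nat_lit 3) true (nat_lit 7) true (nat_lit 3) true (nat_lit 9) true (nat_lit 7) (.s false (nat_lit 2) (nat_lit 8) (nat_lit 2) (nat_lit 4) (nat_lit 1) true (nat_lit 4) true (nat_lit 9) true (nat_lit 3) true (nat_lit 8) true (nat_lit 6) (.s true (nat_lit 1) (nat_lit 9) (nat_lit 2) (nat_lit 4) (nat_lit 1) true (nat_lit 4) true (nat_lit 9) true (nat_lit 3) true (nat_lit 8) true (nat_lit 6) (.s false (nat_lit 3) (nat_lit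 8) (nat_lit 4) (nat_lit 3) (nat_lit 0) true (nat_lit 3) true (nat_lit 10) true (nat_lit 3) true (nat_lit 6) true (nat_lit 7) (.s false (nat_lit 2) (nat_lit 8) (nat_lit 6) (nat_lit 1) (nat_lit 1) true (nat_lit 0) true (nat_lit 9) true (nat_lit 3) true (nat_lit 4) true (nat_lit 9) (.s true (nat_lit 2) (nat_lit 8) (nat_lit 7) (nat_lit 1) (nat_lit 1) true (nat_lit 0) true (nat_lit 9) true (nat_lit 3) true (nat_lit 4) true (nat_lit 9) (.s true (nat_lit 1) (nat_lit 10) (nat_lit 0) (nat_lit 0) (nat_lit 9) true (nat_lit 0) true (nat_lit 3) true (nat_lit 2) true (nat_lit 10) true (nat_lit 10) (.s true (nat_lit 3) (nat_lit 10) (nat_lit 1) (nat_lit 1) (nat_lit 5) true (nat_lit 1) true (nat_lit 5) true (nat_lit 2) true (nat_lit 9) true (nat_lit 9) dR1_i7))))))))))))))))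

theorem dR1_chk : chk 5 ids7 dR1_D par2 (clsL [0,0,0,0,0,1,1,1]) zR1Ex (.c (nat_lit 1) (nat_lit 1) (.c (nat_lit 1) (nat_lit 1) (.c (nat_lit 1) (nat_lit 1) (.c (nat_lit 1) (nat_lit 1) (.c (nat_lit 1) (nat_lit 1) (.c (nat_lit 0) (nat_lit 16) (.c (nat_lit 0) (nat_lit 16) (.c (nat_lit 0) (nat_lit 16) .nil)))))))) (nat_lit 200) (nat_lit 53) (nat_lit 1) dR1_gs dR1_il = true := by
  decide +kernel

end Chk7

/-- certificate of `zR1Ex` -/
theorem cert_zR1Ex : Cert.{u} 5 ids7 par2 (clsL [0,0,0,0,0,1,1,1]) zR1Ex :=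
  Chk7.chk_sound _ _ (by simp [ids7]) (by simp [ids7]) _ _ _ _ _ _ _ _ _ _ Chk7.dR1_chk

end Pool.Agent.MalP
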