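import Pool.Agent.MalP.P7.Chk4
import Pool.Agent.MalP.P7.Ex7

/-! # Certificate of zR2Ex -/

set_option autoImplicit false
set_option maxRecDepth 100000

namespace Pool.Agent.MalP

universe u

namespace Chk7

noncomputable def dR2_c289 : Cm := .mk (nat_lit 15) (nat_lit 289) (nat_lit 18) (nat_lit 4) (.c (nat_lit 5) (nat_lit 1) (nat_lit 3) (nat_lit 1) (nat_lit 4) (.c (nat_lit 7) (nat_lit 1) (nat_lit 2) (nat_lit 1) (nat_lit 5) (.c (nat_lit 8) (nat_lit 3) (nat_lit 1) (nat_lit 1) (nat_lit 6) (.c (nat_lit 11) (nat_lit 1) (nat_lit 0) (nat_lit 1) (nat_lit 9) (.c (nat_lit 2032) (nat_lit 0) (nat_lit 4) (nat_lit 1) (nat_lit 10) .nil)))))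

noncomputable def dR2_c274 : Cm := .mk (nat_lit 22) (nat_lit 274) (nat_lit 23) (nat_lit 6) (.c (nat_lit 5) (nat_lit 1) (nat_lit 4) (nat_lit 1) (nat_lit 6) (.c (nat_lit 6) (nat_lit 1) (nat_lit 3) (nat_lit 1) (nat_lit 7) (.c (nat_lit 8) (nat_lit 3) (nat_lit 2) (nat_lit 1) (nat_lit 8) (.c (nat_lit 12) (nat_lit 2) (nat_lit 1) (nat_lit 1) (nat_lit 11) (.c (nat_lit 14) (nat_lit 2) (nat_lit 0) (nat_lit 1) (nat_lit 13) .nil)))))

noncomputable def dR2_c34 : Cm := .mk (nat_lit 31) (nat_lit 34) (nat_lit 29) (nat_lit 3) (.c (nat_lit 5) (nat_lit 1) (nat_lit 5) (nat_lit 1) (nat_lit 3) (.c (nat_lit 11) (nat_lit 1) (nat_lit 2) (nat_lit 1) (nat_lit 4) (.c (nat_lit 14) (nat_lit 2) (nat_lit 1) (nat_lit 1) (nat_lit 5) (.c (nat_lit 2032) (nat_lit 0) (nat_lit 6) (nat_lit 1) (nat_lit 7) .nil))))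

noncomputable def dR2_c259 : Cm := .mk (nat_lit 35) (nat_lit 259) (nat_lit 32) (nat_lit 3) (.c (nat_lit 6) (nat_lit 1) (nat_lit 4) (nat_lit 1) (nat_lit 3) (.c (nat_lit 12) (nat_lit 2) (nat_lit 2) (nat_lit 1) (nat_lit 4) (.c (nat_lit 16) (nat_lit 1) (nat_lit 0) (nat_lit 1) (nat_lit 6) .nil)))

noncomputable def dR2_c19 : Cm := .mk (nat_lit 39) (nat_lit 19) (nat_lit 35) (nat_lit 3) (.c (nat_lit 6) (nat_lit 1) (nat_lit 5) (nat_lit 1) (nat_lit 3) (.c (nat_lit 14) (nat_lit 2) (nat_lit 2) (nat_lit 1) (nat_lit 4) (.c (nat_lit 16) (nat_lit 1) (nat_lit 1) (nat_lit 1) (nat_lit 6) .nil)))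

noncomputable def dR2_c290 : Cm := .mk (nat_lit 52) (nat_lit 290) (nat_lit 44) (nat_lit 11) (.c (nat_lit 7) (nat_lit 1) (nat_lit 6) (nat_lit 1) (nat_lit 11) (.c (nat_lit 8) (nat_lit 3) (nat_lit 5) (nat_lit 1) (nat_lit 12) (.c (nat_lit 11) (nat_lit 1) (nat_lit 4) (nat_lit 1) (nat_lit 15) (.c (nat_lit 14) (nat_lit 2) (nat_lit 3) (nat_lit 1) (nat_lit 16) (.c (nat_lit 18) (nat_lit 4) (nat_lit 2) (nat_lit 1) (nat_lit 18) (.c (nat_lit 23) (nat_lit 6) (nat_lit 1) (nat_lit 1) (nat_lit 22) (.c (nat_lit 29) (nat_lit 3) (nat_lit 0) (nat_lit 1) (nat_lit 28) (.c (nat_lit 2032) (nat_lit 0) (nat_lit 12) (nat_lit 2) (nat_lit 31) .nil))))))))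

noncomputable def dR2_c305 : Cm := .mk (nat_lit 44) (nat_lit 305) (nat_lit 39) (nat_lit 5) (.c (nat_lit 7) (nat_lit 1) (nat_lit 5) (nat_lit 1) (nat_lit 5) (.c (nat_lit 11) (nat_lit 1) (nat_lit 3) (nat_lit 1) (nat_lit 6) (.c (nat_lit 17) (nat_lit 1) (nat_lit 2) (nat_lit 1) (nat_lit 7) (.c (nat_lit 18) (nat_lit 4) (nat_lit 1) (nat_lit 1) (nat_lit 8) (.c (nat_lit 22) (nat_lit 1) (nat_lit 0) (nat_lit 1) (nat_lit 12) (.c (nat_lit 2032) (nat_lit 0) (nat_lit 8) (nat_lit 3) (nat_lit 13) (.c (nat_lit 2048) (nat_lit 0) (nat_lit 4) (nat_lit 1) (nat_lit 13) .nil)))))))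

noncomputable def dR2_c50 : Cm := .mk (nat_lit 72) (nat_lit 50) (nat_lit 55) (nat_lit 3) (.c (nat_lit 11) (nat_lit 1) (nat_lit 5) (nat_lit 1) (nat_lit 3) (.c (nat_lit 22) (nat_lit 1) (nat_lit 2) (nat_lit 1) (nat_lit 4) (.c (nat_lit 29) (nat_lit 3) (nat_lit 1) (nat_lit 1) (nat_lit 5) (.c (nat_lit 2032) (nat_lit 0) (nat_lit 14) (nat_lit 2) (nat_lit 8) (.c (nat_lit 2048) (nat_lit 0) (nat_lit 6) (nat_lit 1) (nat_lit 8) .nil)))))

noncomputable def dR2_c35 : Cm := .mk (nat_lit 97) (nat_lit 35) (nat_lit 69) (nat_lit 5) (.c (nat_lit 11) (nat_lit 1) (nat_lit 6) (nat_lit 1) (nat_lit 5) (.c (nat_lit 14) (nat_lit 2) (nat_lit 5) (nat_lit 1) (nat_lit 6) (.c (nat_lit 29) (nat_lit 3) (nat_lit 2) (nat_lit 1) (nat_lit 8) (.c (nat_lit 35) (nat_lit 3) (nat_lit 1) (nat_lit 1) (nat_lit 11) (.c (nat_lit 2032) (nat_lit 0) (nat_lit 16) (nat_lit 1) (nat_lit 14) .nil)))))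

noncomputable def dR2_c306 : Cm := .mk (nat_lit 120) (nat_lit 306) (nat_lit 82) (nat_lit 15) (.c (nat_lit 11) (nat_lit 1) (nat_lit 8) (nat_lit 3) (nat_lit 15) (.c (nat_lit 14) (nat_lit 2) (nat_lit 7) (nat_lit 1) (nat_lit 18) (.c (nat_lit 17) (nat_lit 1) (nat_lit 6) (nat_lit 1) (nat_lit 20) (.c (nat_lit 18) (nat_lit 4) (nat_lit 5) (nat_lit 1) (nat_lit 21) (.c (nat_lit 22) (nat_lit 1) (nat_lit 4) (nat_lit 1) (nat_lit 25) (.c (nat_lit 29) (nat_lit 3) (nat_lit 3) (nat_lit 1) (nat_lit 26) (.c (nat_lit 39) (nat_lit 5) (nat_lit 2) (nat_lit 1) (nat_lit 29) (.c (nat_lit 44) (nat_lit 11) (nat_lit 1) (nat_lit 1) (nat_lit 34) (.c (nat_lit 55) (nat_lit 3) (nat_lit 0) (nat_lit 1) (nat_lit 45) (.c (nat_lit 2032) (nat_lit 0) (nat_lit 23) (nat_lit 6) (nat_lit 48) (.c (nat_lit 2048) (nat_lit 0) (nat_lit 12) (nat_lit 2) (nat_lit 48) .nil)))))))))))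

noncomputable def dR2_c275 : Cm := .mk (nat_lit 77) (nat_lit 275) (nat_lit 58) (nat_lit 11) (.c (nat_lit 8) (nat_lit 3) (nat_lit 6) (nat_lit 1) (nat_lit 11) (.c (nat_lit 12) (nat_lit 2) (nat_lit 5) (nat_lit 1) (nat_lit 14) (.c (nat_lit 14) (nat_lit 2) (nat_lit 4) (nat_lit 1) (nat_lit 16) (.c (nat_lit 16) (nat_lit 1) (nat_lit 3) (nat_lit 1) (nat_lit 18) (.c (nat_lit 23) (nat_lit 6) (nat_lit 2) (nat_lit 1) (nat_lit 19) (.c (nat_lit 32) (nat_lit 3) (nat_lit 1) (nat_lit 1) (nat_lit 25) (.c (nat_lit 35) (nat_lit 3) (nat_lit 0) (nat_lit 1) (nat_lit 28) .nil)))))))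

noncomputable def dR2_c291 : Cm := .mk (nat_lit 153) (nat_lit 291) (nat_lit 97) (nat_lit 21) (.c (nat_lit 12) (nat_lit 2) (nat_lit 11) (nat_lit 1) (nat_lit 21) (.c (nat_lit 14) (nat_lit 2) (nat_lit 8) (nat_lit 3) (nat_lit 23) (.c (nat_lit 16) (nat_lit 1) (nat_lit 7) (nat_lit 1) (nat_lit 29) (.c (nat_lit 18) (nat_lit 4) (nat_lit 6) (nat_lit 1) (nat_lit 30) (.c (nat_lit 23) (nat_lit 6) (nat_lit 5) (nat_lit 1) (nat_lit 34) (.c (nat_lit 29) (nat_lit 3) (nat_lit 4) (nat_lit 1) (nat_lit 40) (.c (nat_lit 35) (nat_lit 3) (nat_lit 3) (nat_lit 1) (nat_lit 43) (.c (nat_lit 44) (nat_lit 11) (nat_lit 2) (nat_lit 1) (nat_lit 46) (.c (nat_lit 58) (nat_lit 11) (nat_lit 1) (nat_lit 1) (nat_lit 57) (.c (nat_lit 69) (nat_lit 5) (nat_lit 0) (nat_lit 1) (nat_lit 68) (.c (nat_lit 2032) (nat_lit 0) (nat_lit 32) (nat_lit 3) (nat_lit 73) .nil)))))))))))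

noncomputable def dR2_c260 : Cm := .mk (nat_lit 106) (nat_lit 260) (nat_lit 74) (nat_lit 4) (.c (nat_lit 12) (nat_lit 2) (nat_lit 6) (nat_lit 1) (nat_lit 4) (.c (nat_lit 16) (nat_lit 1) (nat_lit 4) (nat_lit 1) (nat_lit 6) (.c (nat_lit 32) (nat_lit 3) (nat_lit 2) (nat_lit 1) (nat_lit 7) (.c (nat_lit 38) (nat_lit 1) (nat_lit 0) (nat_lit 1) (nat_lit 10) .nil))))

noncomputable def dR2_c51 : Cm := .mk (nat_lit 205) (nat_lit 51) (nat_lit 118) (nat_lit 6) (.c (nat_lit 14) (nat_lit 2) (nat_lit 11) (nat_lit 1) (nat_lit 6) (.c (nat_lit 22) (nat_lit 1) (nat_lit 6) (nat_lit 1) (nat_lit 8) (.c (nat_lit 29) (nat_lit 3) (nat_lit 5) (nat_lit 1) (nat_lit 9) (.c (nat_lit 55) (nat_lit 3) (nat_lit 2) (nat_lit 1) (nat_lit 12) (.c (nat_lit 69) (nat_lit 5) (nat_lit 1) (nat_lit 1) (nat_lit 15) (.c (nat_lit 2032) (nat_lit 0) (nat_lit 35) (nat_lit 3) (nat_lit 20) (.c (nat_lit 2048) (nat_lit 0) (nat_lit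 16) (nat_lit 1) (nat_lit 20) .nil)))))))

noncomputable def dR2_c276 : Cm := .mk (nat_lit 219) (nat_lit 276) (nat_lit 124) (nat_lit 16) (.c (nat_lit 14) (nat_lit 2) (nat_lit 12) (nat_lit 2) (nat_lit 16) (.c (nat_lit 16) (nat_lit 1) (nat_lit 8) (nat_lit 3) (nat_lit 20) (.c (nat_lit 23) (nat_lit 6) (nat_lit 6) (nat_lit 1) (nat_lit 23) (.c (nat_lit 32) (nat_lit 3) (nat_lit 5) (nat_lit 1) (nat_lit 29) (.c (nat_lit 35) (nat_lit 3) (nat_lit 4) (nat_lit 1) (nat_lit 32) (.c (nat_lit 38) (nat_lit 1) (nat_lit 3) (nat_lit 1) (nat_lit 35) (.c (nat_lit 58) (nat_lit 11) (nat_lit 2) (nat_lit 1) (nat_lit 36) (.c (nat_lit 74) (nat_lit 4) (nat_lit 1) (nat_lit 1) (nat_lit 47) (.c (nat_lit 78) (nat_lit 4) (nat_lit 0) (nat_lit 1) (nat_lit 51) .nil)))))))))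

noncomputable def dR2_c20 : Cm := .mk (nat_lit 113) (nat_lit 20) (nat_lit 78) (nat_lit 4) (.c (nat_lit 14) (nat_lit 2) (nat_lit 6) (nat_lit 1) (nat_lit 4) (.c (nat_lit 16) (nat_lit 1) (nat_lit 5) (nat_lit 1) (nat_lit 6) (.c (nat_lit 35) (nat_lit 3) (nat_lit 2) (nat_lit 1) (nat_lit 7) (.c (nat_lit 38) (nat_lit 1) (nat_lit 1) (nat_lit 1) (nat_lit 10) .nil))))

noncomputable def dR2_c36 : Cm := .mk (nat_lit 258) (nat_lit 36) (nat_lit 140) (nat_lit 6) (.c (nat_lit 14) (nat_lit 2) (nat_lit 14) (nat_lit 2) (nat_lit 6) (.c (nat_lit 16) (nat_lit 1) (nat_lit 11) (nat_lit 1) (nat_lit 10) (.c (nat_lit 29) (nat_lit 3) (nat_lit 6) (nat_lit 1) (nat_lit 11) (.c (nat_lit 35) (nat_lit 3) (nat_lit 5) (nat_lit 1) (nat_lit 14) (.c (nat_lit 69) (nat_lit 5) (nat_lit 2) (nat_lit 1) (nat_lit 17) (.c (nat_lit 78) (nat_lit 4) (nat_lit 1) (nat_lit 1) (nat_lit 22) (.c (nat_lit 2032) (nat_lit 0) (nat_lit 38)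 (nat_lit 1) (nat_lit 26) .nil)))))))

noncomputable def dR2_c307 : Cm := .mk (nat_lit 275) (nat_lit 307) (nat_lit 146) (nat_lit 31) (.c (nat_lit 17) (nat_lit 1) (nat_lit 16) (nat_lit 1) (nat_lit 31) (.c (nat_lit 18) (nat_lit 4) (nat_lit 14) (nat_lit 2) (nat_lit 32) (.c (nat_lit 22) (nat_lit 1) (nat_lit 12) (nat_lit 2) (nat_lit 40) (.c (nat_lit 23) (nat_lit 6) (nat_lit 11) (nat_lit 1) (nat_lit 42) (.c (nat_lit 29) (nat_lit 3) (nat_lit 8) (nat_lit 3) (nat_lit 48) (.c (nat_lit 35) (nat_lit 3) (nat_lit 7) (nat_lit 1) (nat_lit 57) (.c (nat_lit 39) (nat_lit 5) (nat_lit 6) (nat_lit 1) (nat_lit 60) (.c (nat_lit 44) (nat_lit 11) (nat_lit 5) (nat_lit 1) (nat_lit 65) (.c (nat_lit 55) (nat_lit 3) (nat_lit 4) (nat_lit 1) (nat_lit 76) (.c (nat_lit 69) (nat_lit 5) (nat_lit 3) (nat_lit 1) (nat_lit 79) (.c (nat_lit 82) (nat_lit 15) (nat_lit 2) (nat_lit 1) (nat_lit 84) (.c (nat_lit 97) (nat_lit 21)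 (nat_lit 1) (nat_lit 1) (nat_lit 99) (.c (nat_lit 118) (nat_lit 6) (nat_lit 0) (nat_lit 1) (nat_lit 120) (.c (nat_lit 2032) (nat_lit 0) (nat_lit 58) (nat_lit 11) (nat_lit 126) (.c (nat_lit 2048) (nat_lit 0) (nat_lit 32) (nat_lit 3) (nat_lit 126) .nil)))))))))))))))

noncomputable def dR2_c292 : Cm := .mk (nat_lit 341) (nat_lit 292) (nat_lit 177) (nat_lit 30) (.c (nat_lit 18) (nat_lit 4) (nat_lit 16) (nat_lit 1) (nat_lit 30) (.c (nat_lit 23) (nat_lit 6) (nat_lit 14) (nat_lit 2) (nat_lit 34) (.c (nat_lit 29) (nat_lit 3) (nat_lit 12) (nat_lit 2) (nat_lit 46) (.c (nat_lit 32) (nat_lit 3) (nat_lit 11) (nat_lit 1) (nat_lit 52) (.c (nat_lit 35) (nat_lit 3) (nat_lit 8) (nat_lit 3) (nat_lit 55) (.c (nat_lit 38) (nat_lit 1) (nat_lit 7) (nat_lit 1) (nat_lit 64) (.c (nat_lit 44) (nat_lit 11) (nat_lit 6) (nat_lit 1) (nat_lit 65) (.c (nat_lit 58) (nat_lit 11) (nat_lit 5) (nat_lit 1) (nat_lit 76)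 (.c (nat_lit 69) (nat_lit 5) (nat_lit 4) (nat_lit 1) (nat_lit 87) (.c (nat_lit 78) (nat_lit 4) (nat_lit 3) (nat_lit 1) (nat_lit 92) (.c (nat_lit 97) (nat_lit 21) (nat_lit 2) (nat_lit 1) (nat_lit 96) (.c (nat_lit 124) (nat_lit 16) (nat_lit 1) (nat_lit 1) (nat_lit 117) (.c (nat_lit 140) (nat_lit 6) (nat_lit 0) (nat_lit 1) (nat_lit 133) (.c (nat_lit 2032) (nat_lit 0) (nat_lit 74) (nat_lit 4) (nat_lit 139) .nil))))))))))))))

noncomputable def dR2_c52 : Cm := .mk (nat_lit 443) (nat_lit 52) (nat_lit 207) (nat_lit 9) (.c (nat_lit 22) (nat_lit 1) (nat_lit 16) (nat_lit 1) (nat_lit 9) (.c (nat_lit 29) (nat_lit 3) (nat_lit 14) (nat_lit 2) (nat_lit 10) (.c (nat_lit 35) (nat_lit 3) (nat_lit 11) (nat_lit 1) (nat_lit 16) (.c (nat_lit 55) (nat_lit 3) (nat_lit 6) (nat_lit 1) (nat_lit 19) (.c (nat_lit 69) (nat_lit 5) (nat_lit 5) (nat_lit 1) (nat_lit 22) (.c (nat_lit 118) (nat_lit 6) (nat_lit 2) (nat_lit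 1) (nat_lit 27) (.c (nat_lit 140) (nat_lit 6) (nat_lit 1) (nat_lit 1) (nat_lit 33) (.c (nat_lit 2032) (nat_lit 0) (nat_lit 78) (nat_lit 4) (nat_lit 39) (.c (nat_lit 2048) (nat_lit 0) (nat_lit 38) (nat_lit 1) (nat_lit 39) .nil)))))))))

noncomputable def dR2_i0 : IL := (.s true (nat_lit 1) (nat_lit 14) (nat_lit 2) (nat_lit 4) (nat_lit 1) true (nat_lit 7) true (nat_lit 11) true (nat_lit 1) true (nat_lit 10) true (nat_lit 8) (.e false (nat_lit 1) (nat_lit 58) (nat_lit 5) (nat_lit 7) (.e false (nat_lit 1) (nat_lit 59) (nat_lit 5) (nat_lit 7) (.e false (nat_lit 1) (nat_lit 61) (nat_lit 5) (nat_lit 7) (.e true (nat_lit 1) (nat_lit 62) (nat_lit 5) (nat_lit 7) (.e false (nat_lit 1) (nat_lit 63) (nat_lit 5) (nat_lit 7) (.e false (nat_lit 1) (nat_lit 64) (nat_lit 5) (nat_lit 7) (.e true (nat_lit 1) (nat_lit 67) (nat_lit 5) (nat_lit 7) (.e true (nat_lit 2) (nat_lit 124) (nat_lit 1) (nat_lit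 11) (.e true (nat_lit 1) (nat_lit 125) (nat_lit 1) (nat_lit 11) (.e false (nat_lit 1) (nat_lit 126) (nat_lit 1) (nat_lit 11) (.e true (nat_lit 3) (nat_lit 127) (nat_lit 1) (nat_lit 11) (.e false (nat_lit 2) (nat_lit 128) (nat_lit 1) (nat_lit 11) (.e false (nat_lit 2) (nat_lit 129) (nat_lit 1) (nat_lit 11) (.e false (nat_lit 3) (nat_lit 130) (nat_lit 1) (nat_lit 11) (.e false (nat_lit 3) (nat_lit 131) (nat_lit 1) (nat_lit 11) (.e false (nat_lit 3) (nat_lit 133) (nat_lit 1) (nat_lit 11) (.e false (nat_lit 3) (nat_lit 134) (nat_lit 1) (nat_lit 11) (.e false (nat_lit 1) (nat_lit 139) (nat_lit 1) (nat_lit 11) (.e false (nat_lit 1) (nat_lit 102) (nat_lit 2) (nat_lit 10) (.e true (nat_lit 1) (nat_lit 107) (nat_lit 2) (nat_lit 10) (.e false (nat_lit 1) (nat_lit 109) (nat_lit 2) (nat_lit 10) (.e true (nat_lit 1) (nat_lit 116) (nat_lit 2) (nat_lit 10) (.e false (nat_lit 1) (nat_lit 70) (nat_lit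 4) (nat_lit 8) (.u (nat_lit 2) (.p (nat_lit 0) (nat_lit 2) (.n (nat_lit 1) (nat_lit 1) (.p (nat_lit 2) (nat_lit 2) (.n (nat_lit 3) (nat_lit 5) (.n (nat_lit 4) (nat_lit 1) (.n (nat_lit 5) (nat_lit 1) (.n (nat_lit 6) (nat_lit 4) (.p (nat_lit 7) (nat_lit 5) (.n (nat_lit 11) (nat_lit 2) (.p (nat_lit 12) (nat_lit 4) (.p (nat_lit 14) (nat_lit 2) (.p (nat_lit 15) (nat_lit 2) (.p (nat_lit 17) (nat_lit 1) (.p (nat_lit 18) (nat_lit 1) (.n (nat_lit 20) (nat_lit 3) (.n (nat_lit 21) (nat_lit 1) (.p (nat_lit 22) (nat_lit 2) (.p (nat_lit 23) (nat_lit 1) (.n (nat_lit 26) (nat_lit 1) (.n (nat_lit 27) (nat_lit 3) (.n (nat_lit 29) (nat_lit 1) .z))))))))))))))))))))) .nil)))))))))))))))))))))))))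

noncomputable def dR2_i1 : IL := (.e true (nat_lit 1) (nat_lit 23) (nat_lit 5) (nat_lit 4) (.e true (nat_lit 2) (nat_lit 24) (nat_lit 5) (nat_lit 4) (.e true (nat_lit 2) (nat_lit 49) (nat_lit 2) (nat_lit 7) (.e true (nat_lit 2) (nat_lit 54) (nat_lit 2) (nat_lit 7) (.e false (nat_lit 2) (nat_lit 58) (nat_lit 1) (nat_lit 8) (.e false (nat_lit 3) (nat_lit 59) (nat_lit 1) (nat_lit 8) (.e true (nat_lit 1) (nat_lit 15) (nat_lit 8) (nat_lit 1) (.e true (nat_lit 3) (nat_lit 37) (nat_lit 3) (nat_lit 6) (.e true (nat_lit 1) (nat_lit 18) (nat_lit 6) (nat_lit 3) (.e true (nat_lit 1) (nat_lit 20) (nat_lit 6) (nat_lit 3) (.e true (nat_lit 1) (nat_lit 21) (nat_lit 6) (nat_lit 3) (.e false (nat_lit 1) (nat_lit 61) (nat_lit 1) (nat_lit 8) (.e false (nat_lit 2) (nat_lit 15) (nat_lit 9) (nat_lit 1) (.e false (nat_lit 1) (nat_lit 67) (nat_lit 1) (nat_lit 8) (.e true (nat_lit 3) (nat_lit 44) (nat_lit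 2) (nat_lit 7) (.e false (nat_lit 3) (nat_lit 47) (nat_lit 2) (nat_lit 7) (.e true (nat_lit 2) (nat_lit 66) (nat_lit 1) (nat_lit 8) (.e true (nat_lit 2) (nat_lit 46) (nat_lit 2) (nat_lit 7) (.e true (nat_lit 1) (nat_lit 14) (nat_lit 8) (nat_lit 1) (.e true (nat_lit 1) (nat_lit 35) (nat_lit 3) (nat_lit 6) (.e true (nat_lit 1) (nat_lit 14) (nat_lit 9) (nat_lit 1) (.e true (nat_lit 1) (nat_lit 51) (nat_lit 2) (nat_lit 7) (.e true (nat_lit 1) (nat_lit 53) (nat_lit 2) (nat_lit 7) (.e true (nat_lit 2) (nat_lit 16) (nat_lit 7) (nat_lit 2) (.u (nat_lit 2) (.n (nat_lit 0) (nat_lit 1) (.p (nat_lit 2) (nat_lit 1) (.p (nat_lit 4) (nat_lit 1) (.p (nat_lit 5) (nat_lit 1) (.n (nat_lit 8) (nat_lit 1) (.n (nat_lit 10) (nat_lit 1) (.p (nat_lit 11) (nat_lit 1) (.p (nat_lit 12) (nat_lit 1) (.n (nat_lit 14) (nat_lit 1) (.p (nat_lit 17) (nat_lit 1) (.n (nat_lit 19) (nat_lit 1) (.p (nat_lit 46) (nat_lit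 1) (.n (nat_lit 57) (nat_lit 1) (.n (nat_lit 58) (nat_lit 1) (.p (nat_lit 59) (nat_lit 1) (.p (nat_lit 65) (nat_lit 1) .z)))))))))))))))) .nil)))))))))))))))))))))))))

noncomputable def dR2_i2 : IL := (.e true (nat_lit 3) (nat_lit 130) (nat_lit 1) (nat_lit 11) (.e true (nat_lit 3) (nat_lit 131) (nat_lit 1) (nat_lit 11) (.e true (nat_lit 3) (nat_lit 133) (nat_lit 1) (nat_lit 11) (.e true (nat_lit 3) (nat_lit 134) (nat_lit 1) (nat_lit 11) (.e true (nat_lit 1) (nat_lit 139) (nat_lit 1) (nat_lit 11) (.e false (nat_lit 1) (nat_lit 97) (nat_lit 2) (nat_lit 10) (.e false (nat_lit 3) (nat_lit 98) (nat_lit 2) (nat_lit 10) (.e false (nat_lit 3) (nat_lit 99) (nat_lit 2) (nat_lit 10) (.e true (nat_lit 2) (nat_lit 100) (nat_lit 2) (nat_lit 10) (.e false (nat_lit 2) (nat_lit 101) (nat_lit 2) (nat_lit 10) (.e false (nat_lit 2) (nat_lit 102) (nat_lit 2) (nat_lit 10) (.e true (nat_lit 2) (nat_lit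 103) (nat_lit 2) (nat_lit 10) (.e false (nat_lit 3) (nat_lit 104) (nat_lit 2) (nat_lit 10) (.e true (nat_lit 3) (nat_lit 106) (nat_lit 2) (nat_lit 10) (.e true (nat_lit 3) (nat_lit 107) (nat_lit 2) (nat_lit 10) (.e false (nat_lit 1) (nat_lit 108) (nat_lit 2) (nat_lit 10) (.e false (nat_lit 1) (nat_lit 109) (nat_lit 2) (nat_lit 10) (.e true (nat_lit 1) (nat_lit 110) (nat_lit 2) (nat_lit 10) (.e false (nat_lit 3) (nat_lit 111) (nat_lit 2) (nat_lit 10) (.e false (nat_lit 1) (nat_lit 113) (nat_lit 2) (nat_lit 10) (.e true (nat_lit 2) (nat_lit 114) (nat_lit 2) (nat_lit 10) (.e false (nat_lit 3) (nat_lit 115) (nat_lit 2) (nat_lit 10) (.e true (nat_lit 2) (nat_lit 116) (nat_lit 2) (nat_lit 10) (.e false (nat_lit 3) (nat_lit 117) (nat_lit 2) (nat_lit 10) (.u (nat_lit 2) (.p (nat_lit 1) (nat_lit 2) (.n (nat_lit 2) (nat_lit 1) (.p (nat_lit 3) (nat_lit 4) (.p (nat_lit 4) (nat_lit 1) (.p (nat_lit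 5) (nat_lit 1) (.p (nat_lit 6) (nat_lit 2) (.n (nat_lit 7) (nat_lit 2) (.n (nat_lit 8) (nat_lit 1) (.n (nat_lit 10) (nat_lit 1) (.n (nat_lit 12) (nat_lit 4) (.n (nat_lit 14) (nat_lit 1) (.n (nat_lit 15) (nat_lit 2) (.p (nat_lit 20) (nat_lit 3) (.p (nat_lit 21) (nat_lit 1) (.n (nat_lit 22) (nat_lit 2) (.n (nat_lit 23) (nat_lit 1) (.p (nat_lit 26) (nat_lit 1) (.p (nat_lit 27) (nat_lit 1) (.p (nat_lit 29) (nat_lit 1) .z))))))))))))))))))) .nil)))))))))))))))))))))))))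

noncomputable def dR2_i3 : IL := (.s false (nat_lit 3) (nat_lit 11) (nat_lit 3) (nat_lit 2) (nat_lit 2) true (nat_lit 4) true (nat_lit 10) true (nat_lit 3) true (nat_lit 9) true (nat_lit 10) (.s false (nat_lit 3) (nat_lit 19) (nat_lit 1) (nat_lit 2) (nat_lit 2) true (nat_lit 7) true (nat_lit 10) false (nat_lit 1) true (nat_lit 11) true (nat_lit 10) (.s false (nat_lit 3) (nat_lit 21) (nat_lit 2) (nat_lit 2) (nat_lit 1) true (nat_lit 7) true (nat_lit 11) false (nat_lit 1) true (nat_lit 10) true (nat_lit 10) (.s false (nat_lit 3) (nat_lit 23) (nat_lit 2) (nat_lit 1) (nat_lit 1) true (nat_lit 7) true (nat_lit 11) false (nat_lit 3) true (nat_lit 10) true (nat_lit 11) (.e false (nat_lit 3) (nat_lit 18) (nat_lit 15) (nat_lit 1) (.e true (nat_lit 3) (nat_lit 20) (nat_lit 15) (nat_lit 1) (.e false (nat_lit 2) (nat_lit 45) (nat_lit 5) (nat_lit 7) (.e false (nat_lit 3) (nat_lit 44) (nat_lit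 5) (nat_lit 7) (.e true (nat_lit 3) (nat_lit 46) (nat_lit 5) (nat_lit 7) (.e false (nat_lit 3) (nat_lit 98) (nat_lit 1) (nat_lit 11) (.e true (nat_lit 3) (nat_lit 101) (nat_lit 1) (nat_lit 11) (.e true (nat_lit 3) (nat_lit 105) (nat_lit 1) (nat_lit 11) (.e true (nat_lit 3) (nat_lit 82) (nat_lit 2) (nat_lit 10) (.e false (nat_lit 3) (nat_lit 86) (nat_lit 2) (nat_lit 10) (.e true (nat_lit 3) (nat_lit 87) (nat_lit 2) (nat_lit 10) (.e false (nat_lit 3) (nat_lit 93) (nat_lit 2) (nat_lit 10) (.e false (nat_lit 3) (nat_lit 96) (nat_lit 2) (nat_lit 10) (.e true (nat_lit 3) (nat_lit 18) (nat_lit 14) (nat_lit 1) (.e false (nat_lit 3) (nat_lit 106) (nat_lit 1) (nat_lit 11) (.e false (nat_lit 3) (nat_lit 88) (nat_lit 2) (nat_lit 10) (.e false (nat_lit 3) (nat_lit 100) (nat_lit 1) (nat_lit 11) (.e false (nat_lit 1) (nat_lit 85) (nat_lit 2) (nat_lit 10) (.e false (nat_lit 3) (nat_lit 91) (nat_lit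 2) (nat_lit 10) (.e true (nat_lit 3) (nat_lit 95) (nat_lit 2) (nat_lit 10) (.u (nat_lit 2) (.n (nat_lit 0) (nat_lit 1) (.n (nat_lit 1) (nat_lit 3) (.p (nat_lit 4) (nat_lit 2) (.n (nat_lit 5) (nat_lit 1) (.p (nat_lit 7) (nat_lit 2) (.n (nat_lit 9) (nat_lit 1) (.p (nat_lit 11) (nat_lit 2) (.p (nat_lit 13) (nat_lit 1) (.p (nat_lit 14) (nat_lit 1) (.p (nat_lit 17) (nat_lit 1) (.n (nat_lit 26) (nat_lit 1) (.n (nat_lit 27) (nat_lit 1) (.n (nat_lit 29) (nat_lit 1) (.p (nat_lit 66) (nat_lit 1) (.p (nat_lit 68) (nat_lit 1) (.n (nat_lit 85) (nat_lit 3) (.n (nat_lit 87) (nat_lit 1) (.p (nat_lit 95) (nat_lit 3) (.p (nat_lit 96) (nat_lit 3) (.p (nat_lit 98) (nat_lit 3) .z)))))))))))))))))))) .nil)))))))))))))))))))))))))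

noncomputable def dR2_i4 : IL := (.e false (nat_lit 2) (nat_lit 99) (nat_lit 2) (nat_lit 10) (.e true (nat_lit 3) (nat_lit 101) (nat_lit 2) (nat_lit 10) (.e true (nat_lit 3) (nat_lit 106) (nat_lit 2) (nat_lit 10) (.e false (nat_lit 2) (nat_lit 111) (nat_lit 2) (nat_lit 10) (.e true (nat_lit 2) (nat_lit 114) (nat_lit 2) (nat_lit 10) (.e true (nat_lit 1) (nat_lit 116) (nat_lit 2) (nat_lit 10) (.e true (nat_lit 2) (nat_lit 117) (nat_lit 2) (nat_lit 10) (.e false (nat_lit 3) (nat_lit 102) (nat_lit 2) (nat_lit 10) (.e false (nat_lit 1) (nat_lit 103) (nat_lit 2) (nat_lit 10) (.e true (nat_lit 1) (nat_lit 104) (nat_lit 2) (nat_lit 10) (.e true (nat_lit 1) (nat_lit 105) (nat_lit 2) (nat_lit 10) (.e false (nat_lit 3) (nat_lit 108) (nat_lit 2) (nat_lit 10) (.e false (nat_lit 3) (nat_lit 109) (nat_lit 2) (nat_lit 10) (.e true (nat_lit 3) (nat_lit 115) (nat_lit 2) (nat_lit 10) (.e false (nat_lit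 2) (nat_lit 107) (nat_lit 2) (nat_lit 10) (.e false (nat_lit 2) (nat_lit 112) (nat_lit 2) (nat_lit 10) (.e true (nat_lit 1) (nat_lit 20) (nat_lit 16) (nat_lit 0) (.e false (nat_lit 3) (nat_lit 136) (nat_lit 1) (nat_lit 11) (.e false (nat_lit 3) (nat_lit 58) (nat_lit 5) (nat_lit 7) (.e true (nat_lit 2) (nat_lit 23) (nat_lit 15) (nat_lit 1) (.e true (nat_lit 3) (nat_lit 37) (nat_lit 8) (nat_lit 4) (.e true (nat_lit 3) (nat_lit 18) (nat_lit 16) (nat_lit 0) (.e true (nat_lit 2) (nat_lit 81) (nat_lit 3) (nat_lit 9) (.e true (nat_lit 2) (nat_lit 38) (nat_lit 7) (nat_lit 5) (.u (nat_lit 2) (.n (nat_lit 0) (nat_lit 1) (.p (nat_lit 4) (nat_lit 4) (.p (nat_lit 8) (nat_lit 1) (.n (nat_lit 9) (nat_lit 3) (.n (nat_lit 11) (nat_lit 1) (.n (nat_lit 12) (nat_lit 1) (.n (nat_lit 15) (nat_lit 1) (.p (nat_lit 17) (nat_lit 1) (.p (nat_lit 18) (nat_lit 1) (.n (nat_lit 20) (nat_lit 1) (.n (nat_lit 22)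 (nat_lit 1) (.n (nat_lit 26) (nat_lit 1) (.p (nat_lit 27) (nat_lit 2) (.p (nat_lit 29) (nat_lit 1) (.n (nat_lit 44) (nat_lit 1) (.n (nat_lit 65) (nat_lit 1) (.n (nat_lit 66) (nat_lit 1) (.n (nat_lit 68) (nat_lit 1) (.n (nat_lit 69) (nat_lit 1) (.p (nat_lit 73) (nat_lit 1) (.n (nat_lit 76) (nat_lit 1) (.n (nat_lit 77) (nat_lit 1) (.n (nat_lit 79) (nat_lit 1) (.p (nat_lit 80) (nat_lit 1) (.n (nat_lit 81) (nat_lit 1) (.p (nat_lit 87) (nat_lit 1) (.p (nat_lit 88) (nat_lit 1) (.n (nat_lit 91) (nat_lit 1) (.n (nat_lit 93) (nat_lit 1) (.n (nat_lit 94) (nat_lit 1) (.p (nat_lit 95) (nat_lit 1) (.n (nat_lit 98) (nat_lit 4) (.p (nat_lit 99) (nat_lit 5) (.n (nat_lit 100) (nat_lit 2) (.p (nat_lit 101) (nat_lit 1) (.n (nat_lit 102) (nat_lit 4) (.p (nat_lit 103) (nat_lit 5) (.p (nat_lit 104) (nat_lit 5) (.n (nat_lit 105) (nat_lit 3) (.n (nat_lit 106) (nat_lit 3) (.n (nat_lit 111) (nat_lit 3) (.p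 (nat_lit 113) (nat_lit 1) (.n (nat_lit 114) (nat_lit 1) (.n (nat_lit 115) (nat_lit 2) (.p (nat_lit 116) (nat_lit 3) (.p (nat_lit 117) (nat_lit 5) (.p (nat_lit 118) (nat_lit 6) (.p (nat_lit 120) (nat_lit 1) (.p (nat_lit 121) (nat_lit 3) (.p (nat_lit 122) (nat_lit 8) (.p (nat_lit 123) (nat_lit 1) (.p (nat_lit 124) (nat_lit 1) (.p (nat_lit 125) (nat_lit 2) (.n (nat_lit 126) (nat_lit 2) (.n (nat_lit 127) (nat_lit 3) (.n (nat_lit 129) (nat_lit 2) .z)))))))))))))))))))))))))))))))))))))))))))))))))))))))) .nil)))))))))))))))))))))))))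

noncomputable def dR2_i5 : IL := (.s false (nat_lit 3) (nat_lit 25) (nat_lit 1) (nat_lit 2) (nat_lit 2) true (nat_lit 7) true (nat_lit 10) false (nat_lit 1) true (nat_lit 11) true (nat_lit 10) (.s true (nat_lit 2) (nat_lit 26) (nat_lit 1) (nat_lit 2) (nat_lit 2) true (nat_lit 7) true (nat_lit 10) false (nat_lit 1) true (nat_lit 11) true (nat_lit 10) (.s true (nat_lit 3) (nat_lit 28) (nat_lit 1) (nat_lit 2) (nat_lit 2) true (nat_lit 7) true (nat_lit 10) false (nat_lit 1) true (nat_lit 11) true (nat_lit 10) (.s true (nat_lit 1) (nat_lit 24) (nat_lit 2) (nat_lit 1) (nat_lit 2) true (nat_lit 6) true (nat_lit 10) false (nat_lit 1) true (nat_lit 10) true (nat_lit 11) (.s true (nat_lit 2) (nat_lit 26) (nat_lit 2) (nat_lit 1) (nat_lit 2) true (nat_lit 6) true (nat_lit 10) false (nat_lit 1) true (nat_lit 10) true (nat_lit 11) (.s true (nat_lit 3) (nat_lit 28) (nat_lit 2) (nat_lit 1) (nat_lit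 2) true (nat_lit 6) true (nat_lit 10) false (nat_lit 1) true (nat_lit 10) true (nat_lit 11) (.s false (nat_lit 2) (nat_lit 24) (nat_lit 2) (nat_lit 2) (nat_lit 1) true (nat_lit 7) true (nat_lit 11) false (nat_lit 1) true (nat_lit 10) true (nat_lit 10) (.s true (nat_lit 1) (nat_lit 26) (nat_lit 2) (nat_lit 2) (nat_lit 1) true (nat_lit 7) true (nat_lit 11) false (nat_lit 1) true (nat_lit 10) true (nat_lit 10) (.s false (nat_lit 3) (nat_lit 27) (nat_lit 2) (nat_lit 2) (nat_lit 1) true (nat_lit 7) true (nat_lit 11) false (nat_lit 1) true (nat_lit 10) true (nat_lit 10) (.s true (nat_lit 2) (nat_lit 31) (nat_lit 2) (nat_lit 0) (nat_lit 2) true (nat_lit 6) true (nat_lit 10) false (nat_lit 2) true (nat_lit 10) true (nat_lit 12) (.s false (nat_lit 2) (nat_lit 31) (nat_lit 2) (nat_lit 2) (nat_lit 0) true (nat_lit 8) true (nat_lit 12) false (nat_lit 2) true (nat_lit 10) true (nat_lit 10) (.s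 true (nat_lit 2) (nat_lit 38) (nat_lit 0) (nat_lit 1) (nat_lit 1) true (nat_lit 9) true (nat_lit 11) false (nat_lit 5) true (nat_lit 12) true (nat_lit 11) (.e true (nat_lit 2) (nat_lit 124) (nat_lit 1) (nat_lit 11) (.e true (nat_lit 3) (nat_lit 125) (nat_lit 1) (nat_lit 11) (.e false (nat_lit 1) (nat_lit 128) (nat_lit 1) (nat_lit 11) (.e true (nat_lit 1) (nat_lit 134) (nat_lit 1) (nat_lit 11) (.e true (nat_lit 2) (nat_lit 130) (nat_lit 1) (nat_lit 11) (.e true (nat_lit 2) (nat_lit 131) (nat_lit 1) (nat_lit 11) (.e true (nat_lit 3) (nat_lit 44) (nat_lit 6) (nat_lit 6) (.e false (nat_lit 3) (nat_lit 46) (nat_lit 6) (nat_lit 6) (.e true (nat_lit 2) (nat_lit 48) (nat_lit 6) (nat_lit 6) (.e true (nat_lit 3) (nat_lit 53) (nat_lit 6) (nat_lit 6) (.e false (nat_lit 2) (nat_lit 132) (nat_lit 1) (nat_lit 11) (.e true (nat_lit 1) (nat_lit 45) (nat_lit 6) (nat_lit 6) (.e true (nat_lit 2) (nat_lit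 98) (nat_lit 2) (nat_lit 10) dR2_i4)))))))))))))))))))))))))

noncomputable def dR2_i6 : IL := (.e true (nat_lit 2) (nat_lit 46) (nat_lit 5) (nat_lit 7) (.e false (nat_lit 1) (nat_lit 47) (nat_lit 5) (nat_lit 7) (.e true (nat_lit 3) (nat_lit 82) (nat_lit 2) (nat_lit 10) (.e true (nat_lit 1) (nat_lit 86) (nat_lit 2) (nat_lit 10) (.e false (nat_lit 2) (nat_lit 93) (nat_lit 2) (nat_lit 10) (.e false (nat_lit 2) (nat_lit 96) (nat_lit 2) (nat_lit 10) (.e false (nat_lit 2) (nat_lit 84) (nat_lit 2) (nat_lit 10) (.e false (nat_lit 3) (nat_lit 88) (nat_lit 2) (nat_lit 10) (.e true (nat_lit 3) (nat_lit 90) (nat_lit 2) (nat_lit 10) (.e false (nat_lit 3) (nat_lit 94) (nat_lit 2) (nat_lit 10) (.e true (nat_lit 1) (nat_lit 117) (nat_lit 1) (nat_lit 11) (.e false (nat_lit 1) (nat_lit 19) (nat_lit 15) (nat_lit 1) (.e true (nat_lit 1) (nat_lit 101) (nat_lit 1) (nat_lit 11) (.e true (nat_lit 1) (nat_lit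 17) (nat_lit 16) (nat_lit 0) (.e true (nat_lit 1) (nat_lit 114) (nat_lit 1) (nat_lit 11) (.e false (nat_lit 1) (nat_lit 73) (nat_lit 3) (nat_lit 9) (.e true (nat_lit 1) (nat_lit 85) (nat_lit 2) (nat_lit 10) (.e false (nat_lit 2) (nat_lit 97) (nat_lit 1) (nat_lit 11) (.e true (nat_lit 1) (nat_lit 99) (nat_lit 1) (nat_lit 11) (.e false (nat_lit 1) (nat_lit 100) (nat_lit 1) (nat_lit 11) (.e false (nat_lit 1) (nat_lit 106) (nat_lit 1) (nat_lit 11) (.e false (nat_lit 1) (nat_lit 116) (nat_lit 1) (nat_lit 11) (.e false (nat_lit 2) (nat_lit 87) (nat_lit 2) (nat_lit 10) (.e true (nat_lit 1) (nat_lit 89) (nat_lit 2) (nat_lit 10) (.u (nat_lit 2) (.n (nat_lit 5) (nat_lit 1) (.n (nat_lit 8) (nat_lit 1) (.p (nat_lit 12) (nat_lit 1) (.p (nat_lit 14) (nat_lit 1) (.n (nat_lit 25) (nat_lit 1) (.n (nat_lit 27) (nat_lit 1) (.p (nat_lit 28) (nat_lit 1) (.p (nat_lit 84) (nat_lit 1) .z)))))))) .nil)))))))))))))))))))))))))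

noncomputable def dR2_i7 : IL := (.s true (nat_lit 2) (nat_lit 21) (nat_lit 2) (nat_lit 2) (nat_lit 2) true (nat_lit 6) true (nat_lit 10) false (nat_lit 0) true (nat_lit 10) true (nat_lit 10) (.e true (nat_lit 2) (nat_lit 45) (nat_lit 6) (nat_lit 6) (.e false (nat_lit 3) (nat_lit 132) (nat_lit 1) (nat_lit 11) (.e true (nat_lit 2) (nat_lit 136) (nat_lit 1) (nat_lit 11) (.e false (nat_lit 2) (nat_lit 111) (nat_lit 2) (nat_lit 10) (.e false (nat_lit 3) (nat_lit 98) (nat_lit 2) (nat_lit 10) (.e false (nat_lit 1) (nat_lit 101) (nat_lit 2) (nat_lit 10) (.e false (nat_lit 2) (nat_lit 106) (nat_lit 2) (nat_lit 10) (.e true (nat_lit 3) (nat_lit 108) (nat_lit 2) (nat_lit 10) (.e true (nat_lit 1) (nat_lit 115) (nat_lit 2) (nat_lit 10) (.e true (nat_lit 1) (nat_lit 58) (nat_lit 5) (nat_lit 7) (.e true (nat_lit 1) (nat_lit 23) (nat_lit 14) (nat_lit 1) (.e true (nat_lit 3) (nat_lit 44) (nat_lit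 6) (nat_lit 6) (.e true (nat_lit 2) (nat_lit 46) (nat_lit 6) (nat_lit 6) (.e true (nat_lit 2) (nat_lit 48) (nat_lit 6) (nat_lit 6) (.e true (nat_lit 1) (nat_lit 117) (nat_lit 2) (nat_lit 10) (.e true (nat_lit 2) (nat_lit 97) (nat_lit 2) (nat_lit 10) (.e false (nat_lit 1) (nat_lit 99) (nat_lit 2) (nat_lit 10) (.e true (nat_lit 1) (nat_lit 100) (nat_lit 2) (nat_lit 10) (.e true (nat_lit 2) (nat_lit 38) (nat_lit 7) (nat_lit 5) (.e true (nat_lit 2) (nat_lit 18) (nat_lit 16) (nat_lit 0) (.e false (nat_lit 2) (nat_lit 20) (nat_lit 16) (nat_lit 0) (.e true (nat_lit 2) (nat_lit 114) (nat_lit 2) (nat_lit 10) (.e false (nat_lit 2) (nat_lit 116) (nat_lit 2) (nat_lit 10) (.u (nat_lit 2) (.p (nat_lit 1) (nat_lit 2) (.n (nat_lit 4) (nat_lit 1) (.p (nat_lit 9) (nat_lit 1) (.p (nat_lit 11) (nat_lit 1) (.n (nat_lit 18) (nat_lit 2) (.n (nat_lit 26) (nat_lit 1) (.p (nat_lit 65) (nat_lit 1) (.n (nat_lit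 97) (nat_lit 1) (.n (nat_lit 100) (nat_lit 1) (.p (nat_lit 105) (nat_lit 1) (.n (nat_lit 114) (nat_lit 1) .z))))))))))) .nil)))))))))))))))))))))))))

noncomputable def dR2_i8 : IL := (.e false (nat_lit 2) (nat_lit 104) (nat_lit 2) (nat_lit 10) (.e true (nat_lit 2) (nat_lit 105) (nat_lit 2) (nat_lit 10) (.e false (nat_lit 3) (nat_lit 107) (nat_lit 2) (nat_lit 10) (.e false (nat_lit 1) (nat_lit 111) (nat_lit 2) (nat_lit 10) (.e false (nat_lit 1) (nat_lit 112) (nat_lit 2) (nat_lit 10) (.e false (nat_lit 2) (nat_lit 114) (nat_lit 2) (nat_lit 10) (.e true (nat_lit 1) (nat_lit 117) (nat_lit 2) (nat_lit 10) (.e true (nat_lit 1) (nat_lit 21) (nat_lit 16) (nat_lit 0) (.e false (nat_lit 1) (nat_lit 45) (nat_lit 6) (nat_lit 6) (.e false (nat_lit 1) (nat_lit 53) (nat_lit 6) (nat_lit 6) (.e true (nat_lit 1) (nat_lit 102) (nat_lit 2) (nat_lit 10) (.e true (nat_lit 3) (nat_lit 106) (nat_lit 2)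 (nat_lit 10) (.e true (nat_lit 3) (nat_lit 109) (nat_lit 2) (nat_lit 10) (.e true (nat_lit 2) (nat_lit 125) (nat_lit 1) (nat_lit 11) (.e true (nat_lit 1) (nat_lit 79) (nat_lit 3) (nat_lit 9) (.e false (nat_lit 1) (nat_lit 81) (nat_lit 3) (nat_lit 9) (.e true (nat_lit 2) (nat_lit 124) (nat_lit 1) (nat_lit 11) (.e true (nat_lit 1) (nat_lit 129) (nat_lit 1) (nat_lit 11) (.e false (nat_lit 2) (nat_lit 132) (nat_lit 1) (nat_lit 11) (.e false (nat_lit 2) (nat_lit 133) (nat_lit 1) (nat_lit 11) (.e true (nat_lit 2) (nat_lit 136) (nat_lit 1) (nat_lit 11) (.e false (nat_lit 1) (nat_lit 127) (nat_lit 1) (nat_lit 11) (.e true (nat_lit 1) (nat_lit 38) (nat_lit 7) (nat_lit 5) (.e false (nat_lit 1) (nat_lit 126) (nat_lit 1) (nat_lit 11) (.u (nat_lit 2) (.n (nat_lit 0) (nat_lit 1) (.n (nat_lit 1) (nat_lit 1) (.n (nat_lit 2) (nat_lit 2) (.p (nat_lit 3) (nat_lit 1) (.n (nat_lit 4) (nat_lit 1) (.n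 (nat_lit 5) (nat_lit 1) (.n (nat_lit 6) (nat_lit 1) (.p (nat_lit 7) (nat_lit 1) (.p (nat_lit 9) (nat_lit 1) (.p (nat_lit 10) (nat_lit 1) (.p (nat_lit 11) (nat_lit 2) (.n (nat_lit 18) (nat_lit 2) (.n (nat_lit 26) (nat_lit 1) (.p (nat_lit 27) (nat_lit 1) (.n (nat_lit 106) (nat_lit 1) (.p (nat_lit 116) (nat_lit 1) .z)))))))))))))))) .nil)))))))))))))))))))))))))

noncomputable def dR2_i9 : IL := (.s true (nat_lit 1) (nat_lit 10) (nat_lit 2) (nat_lit 1) (nat_lit 6) true (nat_lit 0) true (nat_lit 6) true (nat_lit 4) true (nat_lit 10) true (nat_lit 11) (.s true (nat_lit 1) (nat_lit 10) (nat_lit 2) (nat_lit 2) (nat_lit 5) true (nat_lit 1) true (nat_lit 7) true (nat_lit 4) true (nat_lit 10) true (nat_lit 10) (.s true (nat_lit 1) (nat_lit 25) (nat_lit 2) (nat_lit 1) (nat_lit 2) true (nat_lit 6) true (nat_lit 10) false (nat_lit 1) true (nat_lit 10) true (nat_lit 11) (.e true (nat_lit 1) (nat_lit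 21) (nat_lit 16) (nat_lit 0) (.e true (nat_lit 2) (nat_lit 97) (nat_lit 2) (nat_lit 10) (.e true (nat_lit 3) (nat_lit 98) (nat_lit 2) (nat_lit 10) (.e false (nat_lit 3) (nat_lit 99) (nat_lit 2) (nat_lit 10) (.e true (nat_lit 2) (nat_lit 100) (nat_lit 2) (nat_lit 10) (.e false (nat_lit 2) (nat_lit 101) (nat_lit 2) (nat_lit 10) (.e false (nat_lit 1) (nat_lit 102) (nat_lit 2) (nat_lit 10) (.e false (nat_lit 2) (nat_lit 103) (nat_lit 2) (nat_lit 10) (.e true (nat_lit 2) (nat_lit 104) (nat_lit 2) (nat_lit 10) (.e false (nat_lit 3) (nat_lit 105) (nat_lit 2) (nat_lit 10) (.e false (nat_lit 1) (nat_lit 106) (nat_lit 2) (nat_lit 10) (.e false (nat_lit 2) (nat_lit 107) (nat_lit 2) (nat_lit 10) (.e false (nat_lit 3) (nat_lit 111) (nat_lit 2) (nat_lit 10) (.e true (nat_lit 3) (nat_lit 115) (nat_lit 2) (nat_lit 10) (.e true (nat_lit 1) (nat_lit 116) (nat_lit 2) (nat_lit 10) (.e true (nat_lit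 2) (nat_lit 117) (nat_lit 2) (nat_lit 10) (.e false (nat_lit 1) (nat_lit 134) (nat_lit 1) (nat_lit 11) (.e true (nat_lit 1) (nat_lit 108) (nat_lit 2) (nat_lit 10) (.e true (nat_lit 1) (nat_lit 109) (nat_lit 2) (nat_lit 10) (.e false (nat_lit 1) (nat_lit 114) (nat_lit 2) (nat_lit 10) (.e true (nat_lit 1) (nat_lit 126) (nat_lit 1) (nat_lit 11) (.u (nat_lit 2) (.n (nat_lit 3) (nat_lit 1) (.p (nat_lit 14) (nat_lit 1) (.n (nat_lit 18) (nat_lit 1) (.n (nat_lit 26) (nat_lit 1) (.p (nat_lit 99) (nat_lit 1) (.n (nat_lit 106) (nat_lit 1) (.n (nat_lit 110) (nat_lit 1) (.p (nat_lit 114) (nat_lit 1) (.p (nat_lit 116) (nat_lit 1) .z))))))))) .nil)))))))))))))))))))))))))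

noncomputable def dR2_i10 : IL := (.e true (nat_lit 2) (nat_lit 100) (nat_lit 2) (nat_lit 10) (.e false (nat_lit 2) (nat_lit 101) (nat_lit 2) (nat_lit 10) (.e true (nat_lit 1) (nat_lit 102) (nat_lit 2) (nat_lit 10) (.e true (nat_lit 1) (nat_lit 103) (nat_lit 2) (nat_lit 10) (.e false (nat_lit 3) (nat_lit 106) (nat_lit 2) (nat_lit 10) (.e false (nat_lit 1) (nat_lit 107) (nat_lit 2) (nat_lit 10) (.e true (nat_lit 1) (nat_lit 111) (nat_lit 2) (nat_lit 10) (.e true (nat_lit 1) (nat_lit 113) (nat_lit 2) (nat_lit 10) (.e false (nat_lit 1) (nat_lit 114) (nat_lit 2) (nat_lit 10) (.e true (nat_lit 1) (nat_lit 115) (nat_lit 2) (nat_lit 10) (.e false (nat_lit 1) (nat_lit 116) (nat_lit 2) (nat_lit 10) (.e true (nat_lit 1) (nat_lit 117) (nat_lit 2) (nat_lit 10) (.e true (nat_lit 1) (nat_lit 32) (nat_lit 11) (nat_lit 3) (.e false (nat_lit 1) (nat_lit 124) (nat_lit 1) (nat_lit 11) (.e false (nat_lit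 1) (nat_lit 125) (nat_lit 1) (nat_lit 11) (.e true (nat_lit 1) (nat_lit 128) (nat_lit 1) (nat_lit 11) (.e false (nat_lit 2) (nat_lit 129) (nat_lit 1) (nat_lit 11) (.e false (nat_lit 1) (nat_lit 131) (nat_lit 1) (nat_lit 11) (.e true (nat_lit 1) (nat_lit 134) (nat_lit 1) (nat_lit 11) (.e true (nat_lit 3) (nat_lit 105) (nat_lit 2) (nat_lit 10) (.e true (nat_lit 3) (nat_lit 108) (nat_lit 2) (nat_lit 10) (.e true (nat_lit 1) (nat_lit 109) (nat_lit 2) (nat_lit 10) (.e false (nat_lit 1) (nat_lit 110) (nat_lit 2) (nat_lit 10) (.e true (nat_lit 3) (nat_lit 112) (nat_lit 2) (nat_lit 10) (.u (nat_lit 2) (.n (nat_lit 1) (nat_lit 1) (.p (nat_lit 2) (nat_lit 1) (.p (nat_lit 4) (nat_lit 2) (.p (nat_lit 5) (nat_lit 1) (.p (nat_lit 6) (nat_lit 1) (.n (nat_lit 7) (nat_lit 1) (.n (nat_lit 8) (nat_lit 1) (.n (nat_lit 10) (nat_lit 1) (.p (nat_lit 11) (nat_lit 1) (.n (nat_lit 17) (nat_lit 1) (.p (nat_lit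 20) (nat_lit 1) .z))))))))))) .nil)))))))))))))))))))))))))

noncomputable def dR2_i11 : IL := (.e false (nat_lit 3) (nat_lit 125) (nat_lit 1) (nat_lit 11) (.e false (nat_lit 3) (nat_lit 128) (nat_lit 1) (nat_lit 11) (.e false (nat_lit 3) (nat_lit 129) (nat_lit 1) (nat_lit 11) (.e false (nat_lit 1) (nat_lit 132) (nat_lit 1) (nat_lit 11) (.e false (nat_lit 1) (nat_lit 133) (nat_lit 1) (nat_lit 11) (.e true (nat_lit 1) (nat_lit 97) (nat_lit 2) (nat_lit 10) (.e true (nat_lit 1) (nat_lit 98) (nat_lit 2) (nat_lit 10) (.e false (nat_lit 1) (nat_lit 100) (nat_lit 2) (nat_lit 10) (.e true (nat_lit 3) (nat_lit 101) (nat_lit 2) (nat_lit 10) (.e true (nat_lit 1) (nat_lit 102) (nat_lit 2) (nat_lit 10) (.e true (nat_lit 3) (nat_lit 103) (nat_lit 2) (nat_lit 10) (.e false (nat_lit 3) (nat_lit 104) (nat_lit 2) (nat_lit 10) (.e false (nat_lit 3) (nat_lit 105) (nat_lit 2) (nat_lit 10) (.e true (nat_lit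 2) (nat_lit 106) (nat_lit 2) (nat_lit 10) (.e true (nat_lit 2) (nat_lit 109) (nat_lit 2) (nat_lit 10) (.e false (nat_lit 1) (nat_lit 112) (nat_lit 2) (nat_lit 10) (.e false (nat_lit 2) (nat_lit 114) (nat_lit 2) (nat_lit 10) (.e true (nat_lit 3) (nat_lit 115) (nat_lit 2) (nat_lit 10) (.e false (nat_lit 1) (nat_lit 116) (nat_lit 2) (nat_lit 10) (.e false (nat_lit 1) (nat_lit 117) (nat_lit 2) (nat_lit 10) (.e true (nat_lit 2) (nat_lit 99) (nat_lit 2) (nat_lit 10) (.e true (nat_lit 2) (nat_lit 110) (nat_lit 2) (nat_lit 10) (.e true (nat_lit 1) (nat_lit 111) (nat_lit 2) (nat_lit 10) (.e false (nat_lit 1) (nat_lit 134) (nat_lit 1) (nat_lit 11) (.u (nat_lit 2) (.n (nat_lit 0) (nat_lit 1) (.p (nat_lit 2) (nat_lit 1) (.n (nat_lit 3) (nat_lit 3) (.n (nat_lit 4) (nat_lit 1) (.n (nat_lit 5) (nat_lit 1) (.n (nat_lit 6) (nat_lit 2) (.p (nat_lit 7) (nat_lit 2) (.p (nat_lit 8) (nat_lit 1) (.n (nat_lit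 9) (nat_lit 2) (.n (nat_lit 10) (nat_lit 1) (.n (nat_lit 11) (nat_lit 1) (.p (nat_lit 14) (nat_lit 2) (.n (nat_lit 15) (nat_lit 1) (.p (nat_lit 17) (nat_lit 1) (.n (nat_lit 20) (nat_lit 2) (.p (nat_lit 22) (nat_lit 1) (.p (nat_lit 23) (nat_lit 1) (.p (nat_lit 27) (nat_lit 1) (.p (nat_lit 97) (nat_lit 1) (.p (nat_lit 100) (nat_lit 2) (.p (nat_lit 101) (nat_lit 1) (.p (nat_lit 102) (nat_lit 1) (.n (nat_lit 104) (nat_lit 1) (.p (nat_lit 108) (nat_lit 1) (.p (nat_lit 110) (nat_lit 1) (.n (nat_lit 113) (nat_lit 2) (.p (nat_lit 114) (nat_lit 2) (.n (nat_lit 115) (nat_lit 1) (.n (nat_lit 116) (nat_lit 1) (.n (nat_lit 117) (nat_lit 1) (.n (nat_lit 118) (nat_lit 1) (.n (nat_lit 122) (nat_lit 1) .z)))))))))))))))))))))))))))))))) .nil)))))))))))))))))))))))))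

noncomputable def dR2_i12 : IL := (.e true (nat_lit 2) (nat_lit 23) (nat_lit 5) (nat_lit 4) (.e true (nat_lit 2) (nat_lit 24) (nat_lit 5) (nat_lit 4) (.e true (nat_lit 2) (nat_lit 28) (nat_lit 5) (nat_lit 4) (.e true (nat_lit 2) (nat_lit 45) (nat_lit 2) (nat_lit 7) (.e false (nat_lit 3) (nat_lit 46) (nat_lit 2) (nat_lit 7) (.e false (nat_lit 3) (nat_lit 47) (nat_lit 2) (nat_lit 7) (.e true (nat_lit 3) (nat_lit 48) (nat_lit 2) (nat_lit 7) (.e true (nat_lit 3) (nat_lit 52) (nat_lit 2) (nat_lit 7) (.e false (nat_lit 1) (nat_lit 53) (nat_lit 2) (nat_lit 7) (.e true (nat_lit 2) (nat_lit 44) (nat_lit 2) (nat_lit 7) (.e false (nat_lit 2) (nat_lit 49) (nat_lit 2) (nat_lit 7) (.e true (nat_lit 3) (nat_lit 15) (nat_lit 8) (nat_lit 1) (.e true (nat_lit 3) (nat_lit 37) (nat_lit 3) (nat_lit 6) (.e true (nat_lit 3) (nat_lit 18) (nat_lit 6) (nat_lit 3) (.e false (nat_lit 1) (nat_lit 59) (nat_lit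 1) (nat_lit 8) (.e false (nat_lit 3) (nat_lit 61) (nat_lit 1) (nat_lit 8) (.e false (nat_lit 3) (nat_lit 15) (nat_lit 9) (nat_lit 1) (.e true (nat_lit 1) (nat_lit 67) (nat_lit 1) (nat_lit 8) (.e true (nat_lit 2) (nat_lit 58) (nat_lit 1) (nat_lit 8) (.e false (nat_lit 3) (nat_lit 50) (nat_lit 2) (nat_lit 7) (.e false (nat_lit 2) (nat_lit 51) (nat_lit 2) (nat_lit 7) (.e false (nat_lit 2) (nat_lit 66) (nat_lit 1) (nat_lit 8) (.e true (nat_lit 2) (nat_lit 35) (nat_lit 3) (nat_lit 6) (.e true (nat_lit 2) (nat_lit 14) (nat_lit 9) (nat_lit 1) (.u (nat_lit 2) (.n (nat_lit 0) (nat_lit 1) (.n (nat_lit 1) (nat_lit 1) (.p (nat_lit 2) (nat_lit 2) (.p (nat_lit 5) (nat_lit 2) (.p (nat_lit 7) (nat_lit 1) (.n (nat_lit 8) (nat_lit 1) (.p (nat_lit 9) (nat_lit 1) (.n (nat_lit 10) (nat_lit 1) (.p (nat_lit 11) (nat_lit 1) (.p (nat_lit 12) (nat_lit 1) (.n (nat_lit 14) (nat_lit 1) (.p (nat_lit 17) (nat_lit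 1) (.n (nat_lit 19) (nat_lit 1) (.n (nat_lit 27) (nat_lit 1) (.p (nat_lit 46) (nat_lit 1) (.n (nat_lit 48) (nat_lit 1) (.p (nat_lit 49) (nat_lit 1) (.n (nat_lit 51) (nat_lit 1) (.n (nat_lit 53) (nat_lit 1) (.p (nat_lit 54) (nat_lit 1) (.n (nat_lit 56) (nat_lit 1) .z))))))))))))))))))))) .nil)))))))))))))))))))))))))

noncomputable def dR2_i13 : IL := (.e false (nat_lit 1) (nat_lit 106) (nat_lit 2) (nat_lit 10) (.e true (nat_lit 1) (nat_lit 107) (nat_lit 2) (nat_lit 10) (.e true (nat_lit 2) (nat_lit 108) (nat_lit 2) (nat_lit 10) (.e true (nat_lit 1) (nat_lit 109) (nat_lit 2) (nat_lit 10) (.e false (nat_lit 1) (nat_lit 110) (nat_lit 2) (nat_lit 10) (.e false (nat_lit 3) (nat_lit 111) (nat_lit 2) (nat_lit 10) (.e true (nat_lit 1) (nat_lit 113) (nat_lit 2) (nat_lit 10) (.e true (nat_lit 3) (nat_lit 114) (nat_lit 2) (nat_lit 10) (.e false (nat_lit 2) (nat_lit 115) (nat_lit 2) (nat_lit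 10) (.e false (nat_lit 2) (nat_lit 116) (nat_lit 2) (nat_lit 10) (.e true (nat_lit 2) (nat_lit 117) (nat_lit 2) (nat_lit 10) (.e false (nat_lit 1) (nat_lit 35) (nat_lit 8) (nat_lit 4) (.e true (nat_lit 2) (nat_lit 124) (nat_lit 1) (nat_lit 11) (.e true (nat_lit 1) (nat_lit 125) (nat_lit 1) (nat_lit 11) (.e false (nat_lit 1) (nat_lit 126) (nat_lit 1) (nat_lit 11) (.e true (nat_lit 3) (nat_lit 127) (nat_lit 1) (nat_lit 11) (.e false (nat_lit 2) (nat_lit 128) (nat_lit 1) (nat_lit 11) (.e false (nat_lit 2) (nat_lit 129) (nat_lit 1) (nat_lit 11) (.e false (nat_lit 3) (nat_lit 130) (nat_lit 1) (nat_lit 11) (.e false (nat_lit 3) (nat_lit 131) (nat_lit 1) (nat_lit 11) (.e false (nat_lit 3) (nat_lit 133) (nat_lit 1) (nat_lit 11) (.e false (nat_lit 3) (nat_lit 134) (nat_lit 1) (nat_lit 11) (.e false (nat_lit 1) (nat_lit 139) (nat_lit 1) (nat_lit 11) (.e false (nat_lit 1) (nat_lit 144) (nat_lit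 0) (nat_lit 12) (.u (nat_lit 2) (.n (nat_lit 1) (nat_lit 1) (.p (nat_lit 2) (nat_lit 2) (.n (nat_lit 3) (nat_lit 5) (.p (nat_lit 4) (nat_lit 1) (.n (nat_lit 5) (nat_lit 2) (.n (nat_lit 6) (nat_lit 3) (.p (nat_lit 7) (nat_lit 3) (.n (nat_lit 9) (nat_lit 1) (.p (nat_lit 10) (nat_lit 1) (.p (nat_lit 12) (nat_lit 3) (.p (nat_lit 14) (nat_lit 2) (.p (nat_lit 15) (nat_lit 1) (.n (nat_lit 20) (nat_lit 3) (.n (nat_lit 21) (nat_lit 1) (.p (nat_lit 22) (nat_lit 2) (.p (nat_lit 23) (nat_lit 1) (.n (nat_lit 26) (nat_lit 1) (.n (nat_lit 27) (nat_lit 2) (.n (nat_lit 29) (nat_lit 1) .z))))))))))))))))))) .nil)))))))))))))))))))))))))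

noncomputable def dR2_i14 : IL := (.e true (nat_lit 3) (nat_lit 111) (nat_lit 2) (nat_lit 10) (.e true (nat_lit 2) (nat_lit 112) (nat_lit 2) (nat_lit 10) (.e true (nat_lit 2) (nat_lit 114) (nat_lit 2) (nat_lit 10) (.e false (nat_lit 1) (nat_lit 115) (nat_lit 2) (nat_lit 10) (.e false (nat_lit 1) (nat_lit 116) (nat_lit 2) (nat_lit 10) (.e true (nat_lit 2) (nat_lit 117) (nat_lit 2) (nat_lit 10) (.e true (nat_lit 1) (nat_lit 72) (nat_lit 4) (nat_lit 8) (.e true (nat_lit 2) (nat_lit 110) (nat_lit 2) (nat_lit 10) (.e true (nat_lit 2) (nat_lit 58) (nat_lit 5) (nat_lit 7) (.e true (nat_lit 3) (nat_lit 59) (nat_lit 5) (nat_lit 7) (.e false (nat_lit 2) (nat_lit 62) (nat_lit 5) (nat_lit 7) (.e true (nat_lit 3) (nat_lit 63) (nat_lit 5) (nat_lit 7) (.e false (nat_lit 1) (nat_lit 64) (nat_lit 5) (nat_lit 7) (.e true (nat_lit 2) (nat_lit 113) (nat_lit 2) (nat_lit 10) (.e false (nat_lit 1) (nat_lit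 24) (nat_lit 15) (nat_lit 1) (.e false (nat_lit 1) (nat_lit 124) (nat_lit 1) (nat_lit 11) (.e false (nat_lit 1) (nat_lit 125) (nat_lit 1) (nat_lit 11) (.e false (nat_lit 1) (nat_lit 127) (nat_lit 1) (nat_lit 11) (.e true (nat_lit 1) (nat_lit 128) (nat_lit 1) (nat_lit 11) (.e false (nat_lit 2) (nat_lit 129) (nat_lit 1) (nat_lit 11) (.e false (nat_lit 1) (nat_lit 131) (nat_lit 1) (nat_lit 11) (.e true (nat_lit 1) (nat_lit 134) (nat_lit 1) (nat_lit 11) (.e true (nat_lit 1) (nat_lit 135) (nat_lit 1) (nat_lit 11) (.e true (nat_lit 1) (nat_lit 139) (nat_lit 1) (nat_lit 11) (.u (nat_lit 2) (.n (nat_lit 0) (nat_lit 1) (.n (nat_lit 1) (nat_lit 2) (.p (nat_lit 4) (nat_lit 3) (.p (nat_lit 5) (nat_lit 2) (.p (nat_lit 6) (nat_lit 3) (.n (nat_lit 7) (nat_lit 3) (.n (nat_lit 8) (nat_lit 4) (.n (nat_lit 9) (nat_lit 2) (.p (nat_lit 10) (nat_lit 1) (.p (nat_lit 11) (nat_lit 2) (.n (nat_lit 12) (nat_lit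 1) (.n (nat_lit 13) (nat_lit 1) (.n (nat_lit 14) (nat_lit 1) (.n (nat_lit 15) (nat_lit 1) (.n (nat_lit 17) (nat_lit 2) (.p (nat_lit 20) (nat_lit 2) (.p (nat_lit 27) (nat_lit 1) (.p (nat_lit 28) (nat_lit 2) (.n (nat_lit 99) (nat_lit 1) (.n (nat_lit 103) (nat_lit 1) (.n (nat_lit 105) (nat_lit 1) (.n (nat_lit 107) (nat_lit 1) (.p (nat_lit 110) (nat_lit 1) (.n (nat_lit 114) (nat_lit 1) .z)))))))))))))))))))))))) .nil)))))))))))))))))))))))))

noncomputable def dR2_i15 : IL := (.e false (nat_lit 2) (nat_lit 129) (nat_lit 1) (nat_lit 11) (.e false (nat_lit 1) (nat_lit 131) (nat_lit 1) (nat_lit 11) (.e true (nat_lit 1) (nat_lit 134) (nat_lit 1) (nat_lit 11) (.e true (nat_lit 1) (nat_lit 135) (nat_lit 1) (nat_lit 11) (.e true (nat_lit 1) (nat_lit 139) (nat_lit 1) (nat_lit 11) (.e true (nat_lit 3) (nat_lit 108) (nat_lit 2) (nat_lit 10) (.e false (nat_lit 2) (nat_lit 97) (nat_lit 2) (nat_lit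 10) (.e false (nat_lit 1) (nat_lit 98) (nat_lit 2) (nat_lit 10) (.e true (nat_lit 1) (nat_lit 100) (nat_lit 2) (nat_lit 10) (.e false (nat_lit 3) (nat_lit 101) (nat_lit 2) (nat_lit 10) (.e true (nat_lit 1) (nat_lit 102) (nat_lit 2) (nat_lit 10) (.e true (nat_lit 1) (nat_lit 103) (nat_lit 2) (nat_lit 10) (.e true (nat_lit 3) (nat_lit 106) (nat_lit 2) (nat_lit 10) (.e true (nat_lit 3) (nat_lit 110) (nat_lit 2) (nat_lit 10) (.e true (nat_lit 2) (nat_lit 111) (nat_lit 2) (nat_lit 10) (.e false (nat_lit 3) (nat_lit 112) (nat_lit 2) (nat_lit 10) (.e true (nat_lit 2) (nat_lit 115) (nat_lit 2) (nat_lit 10) (.e false (nat_lit 1) (nat_lit 116) (nat_lit 2) (nat_lit 10) (.e true (nat_lit 1) (nat_lit 107) (nat_lit 2) (nat_lit 10) (.e true (nat_lit 2) (nat_lit 113) (nat_lit 2) (nat_lit 10) (.e true (nat_lit 1) (nat_lit 109) (nat_lit 2) (nat_lit 10) (.e false (nat_lit 2) (nat_lit 99) (nat_lit 2)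 (nat_lit 10) (.e true (nat_lit 1) (nat_lit 104) (nat_lit 2) (nat_lit 10) (.e true (nat_lit 3) (nat_lit 105) (nat_lit 2) (nat_lit 10) (.u (nat_lit 2) (.p (nat_lit 0) (nat_lit 1) (.n (nat_lit 1) (nat_lit 1) (.p (nat_lit 2) (nat_lit 1) (.p (nat_lit 4) (nat_lit 3) (.p (nat_lit 5) (nat_lit 1) (.p (nat_lit 6) (nat_lit 2) (.n (nat_lit 7) (nat_lit 1) (.n (nat_lit 8) (nat_lit 3) (.n (nat_lit 10) (nat_lit 3) (.p (nat_lit 11) (nat_lit 1) (.n (nat_lit 26) (nat_lit 1) (.n (nat_lit 96) (nat_lit 1) (.n (nat_lit 97) (nat_lit 1) (.n (nat_lit 100) (nat_lit 1) (.p (nat_lit 105) (nat_lit 1) (.p (nat_lit 109) (nat_lit 1) (.n (nat_lit 111) (nat_lit 1) (.p (nat_lit 113) (nat_lit 1) (.n (nat_lit 114) (nat_lit 1) .z))))))))))))))))))) .nil)))))))))))))))))))))))))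

noncomputable def dR2_i16 : IL := (.s false (nat_lit 1) (nat_lit 5) (nat_lit 2) (nat_lit 4) (nat_lit 2) true (nat_lit 2) true (nat_lit 6) true (nat_lit 3) true (nat_lit 6) true (nat_lit 4) (.s true (nat_lit 3) (nat_lit 6) (nat_lit 0) (nat_lit 2) (nat_lit 5) true (nat_lit 1) true (nat_lit 3) true (nat_lit 2) true (nat_lit 8) true (nat_lit 6) (.s true (nat_lit 3) (nat_lit 6) (nat_lit 1) (nat_lit 4) (nat_lit 2) true (nat_lit 3) true (nat_lit 6) true (nat_lit 2) true (nat_lit 7) true (nat_lit 4) (.s false (nat_lit 1) (nat_lit 12) (nat_lit 1) (nat_lit 2) (nat_lit 2) true (nat_lit 3) true (nat_lit 6) true (nat_lit 0) true (nat_lit 7) true (nat_lit 6) (.s true (nat_lit 3) (nat_lit 13) (nat_lit 2) (nat_lit 1) (nat_lit 2) true (nat_lit 2) true (nat_lit 6) true (nat_lit 0) true (nat_lit 6) true (nat_lit 7) (.s true (nat_lit 3) (nat_lit 14) (nat_lit 0) (nat_lit 2) (nat_lit 2) true (nat_lit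 4) true (nat_lit 6) false (nat_lit 0) true (nat_lit 8) true (nat_lit 6) (.s false (nat_lit 3) (nat_lit 14) (nat_lit 2) (nat_lit 0) (nat_lit 2) true (nat_lit 2) true (nat_lit 6) false (nat_lit 0) true (nat_lit 6) true (nat_lit 8) (.s true (nat_lit 3) (nat_lit 14) (nat_lit 2) (nat_lit 2) (nat_lit 0) true (nat_lit 4) true (nat_lit 8) false (nat_lit 0) true (nat_lit 6) true (nat_lit 6) (.s true (nat_lit 3) (nat_lit 16) (nat_lit 1) (nat_lit 0) (nat_lit 2) true (nat_lit 3) true (nat_lit 6) false (nat_lit 1) true (nat_lit 7) true (nat_lit 8) (.s true (nat_lit 3) (nat_lit 16) (nat_lit 2) (nat_lit 1) (nat_lit 0) true (nat_lit 4) true (nat_lit 8) false (nat_lit 1) true (nat_lit 6) true (nat_lit 7) (.e false (nat_lit 3) (nat_lit 23) (nat_lit 6) (nat_lit 2) (.e true (nat_lit 1) (nat_lit 24) (nat_lit 6) (nat_lit 2) (.e false (nat_lit 3) (nat_lit 58) (nat_lit 2) (nat_lit 6) (.e false (nat_lit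 3) (nat_lit 59) (nat_lit 2) (nat_lit 6) (.e true (nat_lit 1) (nat_lit 61) (nat_lit 2) (nat_lit 6) (.e false (nat_lit 3) (nat_lit 62) (nat_lit 2) (nat_lit 6) (.e false (nat_lit 3) (nat_lit 63) (nat_lit 2) (nat_lit 6) (.e true (nat_lit 1) (nat_lit 64) (nat_lit 2) (nat_lit 6) (.e false (nat_lit 2) (nat_lit 67) (nat_lit 2) (nat_lit 6) (.e true (nat_lit 1) (nat_lit 65) (nat_lit 2) (nat_lit 6) (.e false (nat_lit 1) (nat_lit 68) (nat_lit 2) (nat_lit 6) (.e false (nat_lit 1) (nat_lit 60) (nat_lit 2) (nat_lit 6) (.e true (nat_lit 2) (nat_lit 66) (nat_lit 2) (nat_lit 6) (.e false (nat_lit 3) (nat_lit 16) (nat_lit 8) (nat_lit 1) (.u (nat_lit 2) (.n (nat_lit 8) (nat_lit 1) (.p (nat_lit 12) (nat_lit 1) (.n (nat_lit 16) (nat_lit 1) (.n (nat_lit 23) (nat_lit 1) (.p (nat_lit 27) (nat_lit 1) (.n (nat_lit 28) (nat_lit 1) (.n (nat_lit 32) (nat_lit 1) (.p (nat_lit 36) (nat_lit 1) (.p (nat_lit 37) (nat_lit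 1) (.n (nat_lit 38) (nat_lit 1) (.p (nat_lit 39) (nat_lit 1) (.n (nat_lit 40) (nat_lit 1) (.p (nat_lit 42) (nat_lit 1) (.n (nat_lit 44) (nat_lit 1) (.n (nat_lit 45) (nat_lit 1) (.p (nat_lit 49) (nat_lit 1) (.n (nat_lit 50) (nat_lit 1) .z))))))))))))))))) .nil)))))))))))))))))))))))))

noncomputable def dR2_i17 : IL := (.e false (nat_lit 3) (nat_lit 82) (nat_lit 2) (nat_lit 10) (.e false (nat_lit 2) (nat_lit 83) (nat_lit 2) (nat_lit 10) (.e true (nat_lit 2) (nat_lit 86) (nat_lit 2) (nat_lit 10) (.e false (nat_lit 2) (nat_lit 93) (nat_lit 2) (nat_lit 10) (.e false (nat_lit 1) (nat_lit 96) (nat_lit 2) (nat_lit 10) (.e true (nat_lit 2) (nat_lit 84) (nat_lit 2) (nat_lit 10) (.e false (nat_lit 1) (nat_lit 88) (nat_lit 2) (nat_lit 10) (.e true (nat_lit 2) (nat_lit 87) (nat_lit 2) (nat_lit 10) (.e false (nat_lit 1) (nat_lit 97) (nat_lit 1) (nat_lit 11) (.e false (nat_lit 3) (nat_lit 98)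 (nat_lit 1) (nat_lit 11) (.e false (nat_lit 1) (nat_lit 99) (nat_lit 1) (nat_lit 11) (.e true (nat_lit 2) (nat_lit 101) (nat_lit 1) (nat_lit 11) (.e false (nat_lit 2) (nat_lit 102) (nat_lit 1) (nat_lit 11) (.e false (nat_lit 2) (nat_lit 105) (nat_lit 1) (nat_lit 11) (.e true (nat_lit 1) (nat_lit 106) (nat_lit 1) (nat_lit 11) (.e true (nat_lit 2) (nat_lit 107) (nat_lit 1) (nat_lit 11) (.e false (nat_lit 3) (nat_lit 108) (nat_lit 1) (nat_lit 11) (.e true (nat_lit 2) (nat_lit 114) (nat_lit 1) (nat_lit 11) (.e false (nat_lit 1) (nat_lit 116) (nat_lit 1) (nat_lit 11) (.e false (nat_lit 2) (nat_lit 117) (nat_lit 1) (nat_lit 11) (.e true (nat_lit 1) (nat_lit 85) (nat_lit 2) (nat_lit 10) (.e true (nat_lit 3) (nat_lit 89) (nat_lit 2) (nat_lit 10) (.e true (nat_lit 1) (nat_lit 19) (nat_lit 15) (nat_lit 1) (.e false (nat_lit 1) (nat_lit 17) (nat_lit 16) (nat_lit 0) (.u (nat_lit 2) (.n (nat_lit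 0) (nat_lit 1) (.p (nat_lit 1) (nat_lit 1) (.p (nat_lit 4) (nat_lit 1) (.n (nat_lit 5) (nat_lit 2) (.p (nat_lit 6) (nat_lit 1) (.p (nat_lit 11) (nat_lit 1) (.p (nat_lit 14) (nat_lit 1) (.n (nat_lit 15) (nat_lit 1) (.p (nat_lit 16) (nat_lit 1) (.n (nat_lit 18) (nat_lit 1) (.p (nat_lit 21) (nat_lit 1) (.p (nat_lit 25) (nat_lit 1) (.p (nat_lit 27) (nat_lit 1) (.p (nat_lit 28) (nat_lit 1) (.p (nat_lit 30) (nat_lit 1) (.n (nat_lit 32) (nat_lit 1) (.p (nat_lit 34) (nat_lit 1) (.n (nat_lit 35) (nat_lit 1) (.n (nat_lit 84) (nat_lit 2) (.n (nat_lit 85) (nat_lit 1) (.p (nat_lit 86) (nat_lit 1) (.p (nat_lit 88) (nat_lit 2) (.p (nat_lit 89) (nat_lit 1) (.n (nat_lit 90) (nat_lit 1) (.p (nat_lit 92) (nat_lit 1) (.p (nat_lit 95) (nat_lit 2) (.n (nat_lit 96) (nat_lit 1) (.p (nat_lit 98) (nat_lit 2) (.p (nat_lit 100) (nat_lit 1) (.p (nat_lit 101) (nat_lit 1) (.p (nat_lit 102) (nat_lit 1) (.p (nat_lit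 103) (nat_lit 2) (.n (nat_lit 107) (nat_lit 1) (.p (nat_lit 108) (nat_lit 1) (.n (nat_lit 110) (nat_lit 1) (.n (nat_lit 113) (nat_lit 1) (.n (nat_lit 116) (nat_lit 1) (.p (nat_lit 119) (nat_lit 1) .z)))))))))))))))))))))))))))))))))))))) .nil)))))))))))))))))))))))))

noncomputable def dR2_i18 : IL := (.e false (nat_lit 1) (nat_lit 106) (nat_lit 1) (nat_lit 11) (.e true (nat_lit 3) (nat_lit 39) (nat_lit 6) (nat_lit 6) (.e false (nat_lit 2) (nat_lit 93) (nat_lit 2) (nat_lit 10) (.e false (nat_lit 3) (nat_lit 18) (nat_lit 14) (nat_lit 1) (.e true (nat_lit 1) (nat_lit 83) (nat_lit 2) (nat_lit 10) (.e false (nat_lit 2) (nat_lit 87) (nat_lit 2) (nat_lit 10) (.e false (nat_lit 3) (nat_lit 96) (nat_lit 2) (nat_lit 10) (.e true (nat_lit 1) (nat_lit 19) (nat_lit 15) (nat_lit 1) (.e true (nat_lit 3) (nat_lit 102) (nat_lit 1) (nat_lit 11) (.e false (nat_lit 2) (nat_lit 108) (nat_lit 1) (nat_lit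 11) (.e true (nat_lit 3) (nat_lit 88) (nat_lit 2) (nat_lit 10) (.e false (nat_lit 1) (nat_lit 90) (nat_lit 2) (nat_lit 10) (.e true (nat_lit 1) (nat_lit 94) (nat_lit 2) (nat_lit 10) (.e true (nat_lit 2) (nat_lit 95) (nat_lit 2) (nat_lit 10) (.e false (nat_lit 3) (nat_lit 20) (nat_lit 14) (nat_lit 1) (.e true (nat_lit 2) (nat_lit 31) (nat_lit 9) (nat_lit 4) (.e true (nat_lit 1) (nat_lit 85) (nat_lit 2) (nat_lit 10) (.e true (nat_lit 3) (nat_lit 89) (nat_lit 2) (nat_lit 10) (.e true (nat_lit 2) (nat_lit 84) (nat_lit 2) (nat_lit 10) (.e true (nat_lit 2) (nat_lit 112) (nat_lit 1) (nat_lit 11) (.e false (nat_lit 1) (nat_lit 17) (nat_lit 16) (nat_lit 0) (.e false (nat_lit 2) (nat_lit 40) (nat_lit 6) (nat_lit 6) (.e false (nat_lit 1) (nat_lit 42) (nat_lit 6) (nat_lit 6) (.e false (nat_lit 2) (nat_lit 91) (nat_lit 2) (nat_lit 10) (.u (nat_lit 2) (.p (nat_lit 1) (nat_lit 2) (.p (nat_lit 3)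 (nat_lit 1) (.p (nat_lit 5) (nat_lit 1) (.n (nat_lit 6) (nat_lit 1) (.p (nat_lit 7) (nat_lit 1) (.n (nat_lit 9) (nat_lit 1) (.p (nat_lit 13) (nat_lit 1) (.p (nat_lit 15) (nat_lit 1) (.p (nat_lit 17) (nat_lit 1) (.n (nat_lit 26) (nat_lit 1) (.n (nat_lit 29) (nat_lit 1) (.n (nat_lit 30) (nat_lit 1) (.n (nat_lit 48) (nat_lit 1) (.p (nat_lit 60) (nat_lit 1) (.n (nat_lit 62) (nat_lit 1) (.p (nat_lit 64) (nat_lit 1) (.p (nat_lit 69) (nat_lit 1) (.p (nat_lit 82) (nat_lit 1) (.n (nat_lit 84) (nat_lit 5) (.n (nat_lit 85) (nat_lit 3) (.n (nat_lit 86) (nat_lit 1) (.n (nat_lit 88) (nat_lit 1) (.p (nat_lit 92) (nat_lit 6) (.p (nat_lit 98) (nat_lit 2) (.n (nat_lit 99) (nat_lit 1) (.n (nat_lit 100) (nat_lit 2) (.n (nat_lit 102) (nat_lit 1) (.p (nat_lit 103) (nat_lit 1) (.n (nat_lit 105) (nat_lit 2) (.p (nat_lit 106) (nat_lit 1) (.p (nat_lit 107) (nat_lit 2) (.n (nat_lit 109) (nat_lit 1) (.p (nat_lit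 110) (nat_lit 1) (.n (nat_lit 111) (nat_lit 2) (.p (nat_lit 112) (nat_lit 1) (.n (nat_lit 114) (nat_lit 1) (.p (nat_lit 115) (nat_lit 1) (.p (nat_lit 117) (nat_lit 2) (.p (nat_lit 118) (nat_lit 1) (.n (nat_lit 119) (nat_lit 3) (.n (nat_lit 120) (nat_lit 1) (.n (nat_lit 121) (nat_lit 1) (.p (nat_lit 122) (nat_lit 1) (.n (nat_lit 123) (nat_lit 1) .z)))))))))))))))))))))))))))))))))))))))))))) .nil)))))))))))))))))))))))))

noncomputable def dR2_i19 : IL := (.s false (nat_lit 2) (nat_lit 21) (nat_lit 2) (nat_lit 1) (nat_lit 2) true (nat_lit 6) true (nat_lit 10) false (nat_lit 1) true (nat_lit 10) true (nat_lit 11) (.s false (nat_lit 1) (nat_lit 21) (nat_lit 2) (nat_lit 2) (nat_lit 1) true (nat_lit 7) true (nat_lit 11) false (nat_lit 1) true (nat_lit 10) true (nat_lit 10) (.s true (nat_lit 3) (nat_lit 22) (nat_lit 2) (nat_lit 0) (nat_lit 2) true (nat_lit 6) true (nat_lit 10) false (nat_lit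 2) true (nat_lit 10) true (nat_lit 12) (.s false (nat_lit 1) (nat_lit 23) (nat_lit 1) (nat_lit 1) (nat_lit 2) true (nat_lit 7) true (nat_lit 10) false (nat_lit 3) true (nat_lit 11) true (nat_lit 11) (.s false (nat_lit 2) (nat_lit 24) (nat_lit 1) (nat_lit 1) (nat_lit 2) true (nat_lit 7) true (nat_lit 10) false (nat_lit 3) true (nat_lit 11) true (nat_lit 11) (.s false (nat_lit 3) (nat_lit 26) (nat_lit 1) (nat_lit 1) (nat_lit 2) true (nat_lit 7) true (nat_lit 10) false (nat_lit 3) true (nat_lit 11) true (nat_lit 11) (.s false (nat_lit 2) (nat_lit 25) (nat_lit 1) (nat_lit 2) (nat_lit 1) false (nat_lit 13) true (nat_lit 11) false (nat_lit 3) true (nat_lit 11) true (nat_lit 10) (.s true (nat_lit 3) (nat_lit 23) (nat_lit 2) (nat_lit 1) (nat_lit 1) true (nat_lit 7) true (nat_lit 11) false (nat_lit 3) true (nat_lit 10) true (nat_lit 11) (.s true (nat_lit 2) (nat_lit 29) (nat_lit 0) (nat_lit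 1) (nat_lit 2) true (nat_lit 8) true (nat_lit 10) false (nat_lit 4) true (nat_lit 12) true (nat_lit 11) (.s false (nat_lit 1) (nat_lit 30) (nat_lit 0) (nat_lit 2) (nat_lit 1) true (nat_lit 9) true (nat_lit 11) false (nat_lit 4) true (nat_lit 12) true (nat_lit 10) (.s false (nat_lit 2) (nat_lit 29) (nat_lit 1) (nat_lit 0) (nat_lit 2) true (nat_lit 7) true (nat_lit 10) false (nat_lit 4) true (nat_lit 11) true (nat_lit 12) (.s false (nat_lit 2) (nat_lit 30) (nat_lit 1) (nat_lit 2) (nat_lit 0) true (nat_lit 9) true (nat_lit 12) false (nat_lit 4) true (nat_lit 11) true (nat_lit 10) (.s false (nat_lit 2) (nat_lit 29) (nat_lit 2) (nat_lit 0) (nat_lit 1) true (nat_lit 7) true (nat_lit 11) false (nat_lit 4) true (nat_lit 10) true (nat_lit 12) (.s true (nat_lit 2) (nat_lit 29) (nat_lit 2) (nat_lit 1) (nat_lit 0) true (nat_lit 8) true (nat_lit 12) false (nat_lit 4) true (nat_lit 10) true (nat_lit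 11) (.s false (nat_lit 1) (nat_lit 35) (nat_lit 0) (nat_lit 1) (nat_lit 1) true (nat_lit 9) true (nat_lit 11) false (nat_lit 5) true (nat_lit 12) true (nat_lit 11) (.s false (nat_lit 1) (nat_lit 37) (nat_lit 1) (nat_lit 1) (nat_lit 0) true (nat_lit 9) true (nat_lit 12) false (nat_lit 5) true (nat_lit 11) true (nat_lit 11) (.e false (nat_lit 1) (nat_lit 20) (nat_lit 15) (nat_lit 1) (.e true (nat_lit 2) (nat_lit 45) (nat_lit 5) (nat_lit 7) (.e true (nat_lit 1) (nat_lit 44) (nat_lit 5) (nat_lit 7) (.e true (nat_lit 1) (nat_lit 46) (nat_lit 5) (nat_lit 7) (.e false (nat_lit 3) (nat_lit 98) (nat_lit 1) (nat_lit 11) (.e true (nat_lit 3) (nat_lit 101) (nat_lit 1) (nat_lit 11) (.e false (nat_lit 3) (nat_lit 105) (nat_lit 1) (nat_lit 11) (.e false (nat_lit 3) (nat_lit 107) (nat_lit 1) (nat_lit 11) (.e false (nat_lit 1) (nat_lit 97) (nat_lit 1) (nat_lit 11) dR2_i18)))))))))))))))))))))))))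

noncomputable def dR2_i20 : IL := (.e true (nat_lit 2) (nat_lit 107) (nat_lit 2) (nat_lit 10) (.e true (nat_lit 3) (nat_lit 111) (nat_lit 2) (nat_lit 10) (.e true (nat_lit 1) (nat_lit 112) (nat_lit 2) (nat_lit 10) (.e true (nat_lit 1) (nat_lit 114) (nat_lit 2) (nat_lit 10) (.e false (nat_lit 3) (nat_lit 115) (nat_lit 2) (nat_lit 10) (.e false (nat_lit 3) (nat_lit 117) (nat_lit 2) (nat_lit 10) (.e false (nat_lit 3) (nat_lit 116) (nat_lit 2) (nat_lit 10) (.e false (nat_lit 2) (nat_lit 106) (nat_lit 2) (nat_lit 10) (.e false (nat_lit 2) (nat_lit 102) (nat_lit 2) (nat_lit 10) (.e true (nat_lit 2) (nat_lit 108) (nat_lit 2) (nat_lit 10) (.e false (nat_lit 2) (nat_lit 109) (nat_lit 2) (nat_lit 10) (.e false (nat_lit 1) (nat_lit 113) (nat_lit 2) (nat_lit 10) (.e false (nat_lit 1) (nat_lit 32) (nat_lit 11) (nat_lit 3) (.e false (nat_lit 2) (nat_lit 125) (nat_lit 1) (nat_lit 11) (.e true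 (nat_lit 2) (nat_lit 110) (nat_lit 2) (nat_lit 10) (.e false (nat_lit 2) (nat_lit 58) (nat_lit 5) (nat_lit 7) (.e true (nat_lit 3) (nat_lit 23) (nat_lit 14) (nat_lit 1) (.e false (nat_lit 2) (nat_lit 37) (nat_lit 8) (nat_lit 4) (.e false (nat_lit 2) (nat_lit 18) (nat_lit 16) (nat_lit 0) (.e true (nat_lit 3) (nat_lit 81) (nat_lit 3) (nat_lit 9) (.e true (nat_lit 3) (nat_lit 20) (nat_lit 16) (nat_lit 0) (.e true (nat_lit 3) (nat_lit 35) (nat_lit 8) (nat_lit 4) (.e false (nat_lit 1) (nat_lit 38) (nat_lit 7) (nat_lit 5) (.u (nat_lit 2) (.p (nat_lit 0) (nat_lit 4) (.p (nat_lit 2) (nat_lit 2) (.n (nat_lit 3) (nat_lit 1) (.n (nat_lit 4) (nat_lit 3) (.p (nat_lit 5) (nat_lit 1) (.n (nat_lit 8) (nat_lit 2) (.p (nat_lit 9) (nat_lit 3) (.n (nat_lit 11) (nat_lit 1) (.p (nat_lit 12) (nat_lit 2) (.p (nat_lit 14) (nat_lit 3) (.p (nat_lit 15) (nat_lit 1) (.p (nat_lit 18) (nat_lit 1) (.p (nat_lit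 19) (nat_lit 1) (.n (nat_lit 21) (nat_lit 1) (.p (nat_lit 22) (nat_lit 1) (.n (nat_lit 24) (nat_lit 1) (.n (nat_lit 27) (nat_lit 3) (.p (nat_lit 41) (nat_lit 1) (.n (nat_lit 44) (nat_lit 1) (.n (nat_lit 46) (nat_lit 1) (.p (nat_lit 65) (nat_lit 1) (.p (nat_lit 66) (nat_lit 2) (.n (nat_lit 67) (nat_lit 1) (.p (nat_lit 68) (nat_lit 1) (.p (nat_lit 69) (nat_lit 1) (.n (nat_lit 71) (nat_lit 1) (.n (nat_lit 72) (nat_lit 1) (.n (nat_lit 73) (nat_lit 1) (.p (nat_lit 74) (nat_lit 1) (.p (nat_lit 75) (nat_lit 1) (.n (nat_lit 76) (nat_lit 1) (.n (nat_lit 77) (nat_lit 2) (.p (nat_lit 79) (nat_lit 1) (.p (nat_lit 80) (nat_lit 1) (.n (nat_lit 81) (nat_lit 1) (.p (nat_lit 82) (nat_lit 1) (.n (nat_lit 85) (nat_lit 1) (.p (nat_lit 86) (nat_lit 1) (.p (nat_lit 92) (nat_lit 1) (.p (nat_lit 93) (nat_lit 2) (.p (nat_lit 94) (nat_lit 2) (.p (nat_lit 96) (nat_lit 4) (.p (nat_lit 97) (nat_lit 9) (.p (nat_lit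 98) (nat_lit 6) (.p (nat_lit 100) (nat_lit 7) (.n (nat_lit 101) (nat_lit 1) (.n (nat_lit 102) (nat_lit 7) (.p (nat_lit 103) (nat_lit 7) (.n (nat_lit 104) (nat_lit 5) (.n (nat_lit 105) (nat_lit 4) (.n (nat_lit 107) (nat_lit 5) (.n (nat_lit 108) (nat_lit 2) (.p (nat_lit 109) (nat_lit 1) (.p (nat_lit 110) (nat_lit 3) (.n (nat_lit 111) (nat_lit 2) (.n (nat_lit 113) (nat_lit 8) (.p (nat_lit 114) (nat_lit 7) (.n (nat_lit 117) (nat_lit 2) (.n (nat_lit 118) (nat_lit 3) (.n (nat_lit 119) (nat_lit 1) .z)))))))))))))))))))))))))))))))))))))))))))))))))))))))))))) (.u (nat_lit 2) (.p (nat_lit 120) (nat_lit 3) (.n (nat_lit 122) (nat_lit 4) (.n (nat_lit 123) (nat_lit 3) (.n (nat_lit 124) (nat_lit 3) (.n (nat_lit 126) (nat_lit 4) (.n (nat_lit 127) (nat_lit 3) (.n (nat_lit 128) (nat_lit 1) (.n (nat_lit 130) (nat_lit 1) (.n (nat_lit 132) (nat_lit 1) (.n (nat_lit 137) (nat_lit 1) .z)))))))))) .nil)))))))))))))))))))))))))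

noncomputable def dR2_i21 : IL := (.s false (nat_lit 2) (nat_lit 34) (nat_lit 1) (nat_lit 2) (nat_lit 1) false (nat_lit 13) true (nat_lit 11) false (nat_lit 3) true (nat_lit 11) true (nat_lit 10) (.s false (nat_lit 2) (nat_lit 35) (nat_lit 0) (nat_lit 2) (nat_lit 1) true (nat_lit 9) true (nat_lit 11) false (nat_lit 4) true (nat_lit 12) true (nat_lit 10) (.s false (nat_lit 3) (nat_lit 35) (nat_lit 1) (nat_lit 0) (nat_lit 2) true (nat_lit 7) true (nat_lit 10) false (nat_lit 4) true (nat_lit 11) true (nat_lit 12) (.s true (nat_lit 3) (nat_lit 35) (nat_lit 1) (nat_lit 2) (nat_lit 0) true (nat_lit 9) true (nat_lit 12) false (nat_lit 4) true (nat_lit 11) true (nat_lit 10) (.s true (nat_lit 3) (nat_lit 35) (nat_lit 2) (nat_lit 1) (nat_lit 0) true (nat_lit 8) true (nat_lit 12) false (nat_lit 4) true (nat_lit 10) true (nat_lit 11) (.s false (nat_lit 1) (nat_lit 38) (nat_lit 0) (nat_lit 1)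 (nat_lit 1) true (nat_lit 9) true (nat_lit 11) false (nat_lit 5) true (nat_lit 12) true (nat_lit 11) (.e false (nat_lit 2) (nat_lit 44) (nat_lit 6) (nat_lit 6) (.e false (nat_lit 1) (nat_lit 46) (nat_lit 6) (nat_lit 6) (.e false (nat_lit 1) (nat_lit 48) (nat_lit 6) (nat_lit 6) (.e false (nat_lit 2) (nat_lit 53) (nat_lit 6) (nat_lit 6) (.e true (nat_lit 2) (nat_lit 132) (nat_lit 1) (nat_lit 11) (.e true (nat_lit 2) (nat_lit 45) (nat_lit 6) (nat_lit 6) (.e true (nat_lit 1) (nat_lit 52) (nat_lit 6) (nat_lit 6) (.e false (nat_lit 3) (nat_lit 23) (nat_lit 15) (nat_lit 1) (.e true (nat_lit 1) (nat_lit 127) (nat_lit 1) (nat_lit 11) (.e true (nat_lit 3) (nat_lit 130) (nat_lit 1) (nat_lit 11) (.e true (nat_lit 1) (nat_lit 139) (nat_lit 1) (nat_lit 11) (.e false (nat_lit 3) (nat_lit 131) (nat_lit 1) (nat_lit 11) (.e false (nat_lit 1) (nat_lit 134) (nat_lit 1) (nat_lit 11) (.e false (nat_lit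 1) (nat_lit 97) (nat_lit 2) (nat_lit 10) (.e true (nat_lit 3) (nat_lit 98) (nat_lit 2) (nat_lit 10) (.e false (nat_lit 1) (nat_lit 99) (nat_lit 2) (nat_lit 10) (.e false (nat_lit 2) (nat_lit 100) (nat_lit 2) (nat_lit 10) (.e true (nat_lit 1) (nat_lit 101) (nat_lit 2) (nat_lit 10) (.e false (nat_lit 1) (nat_lit 103) (nat_lit 2) (nat_lit 10) dR2_i20)))))))))))))))))))))))))

noncomputable def dR2_i22 : IL := (.s true (nat_lit 1) (nat_lit 15) (nat_lit 1) (nat_lit 2) (nat_lit 4) true (nat_lit 4) true (nat_lit 8) true (nat_lit 1) true (nat_lit 11) true (nat_lit 10) (.s true (nat_lit 3) (nat_lit 14) (nat_lit 1) (nat_lit 4) (nat_lit 2) true (nat_lit 7) true (nat_lit 10) true (nat_lit 1) true (nat_lit 11) true (nat_lit 8) (.s true (nat_lit 2) (nat_lit 15) (nat_lit 1) (nat_lit 4) (nat_lit 2) true (nat_lit 7) true (nat_lit 10) true (nat_lit 1) true (nat_lit 11) true (nat_lit 8) (.s false (nat_lit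 1) (nat_lit 14) (nat_lit 2) (nat_lit 1) (nat_lit 4) true (nat_lit 2) true (nat_lit 8) true (nat_lit 1) true (nat_lit 10) true (nat_lit 11) (.s false (nat_lit 2) (nat_lit 14) (nat_lit 2) (nat_lit 3) (nat_lit 2) true (nat_lit 6) true (nat_lit 10) true (nat_lit 1) true (nat_lit 10) true (nat_lit 9) (.s true (nat_lit 1) (nat_lit 15) (nat_lit 2) (nat_lit 3) (nat_lit 2) true (nat_lit 6) true (nat_lit 10) true (nat_lit 1) true (nat_lit 10) true (nat_lit 9) (.s true (nat_lit 1) (nat_lit 15) (nat_lit 2) (nat_lit 5) (nat_lit 0) true (nat_lit 8) true (nat_lit 12) true (nat_lit 1) true (nat_lit 10) true (nat_lit 7) (.s true (nat_lit 2) (nat_lit 16) (nat_lit 3) (nat_lit 1) (nat_lit 2) true (nat_lit 4) true (nat_lit 10) true (nat_lit 0) true (nat_lit 9) true (nat_lit 11) (.s false (nat_lit 3) (nat_lit 16) (nat_lit 4) (nat_lit 1) (nat_lit 1) true (nat_lit 4) true (nat_lit 11) true (nat_lit 0) true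 (nat_lit 8) true (nat_lit 11) (.s true (nat_lit 2) (nat_lit 24) (nat_lit 1) (nat_lit 2) (nat_lit 2) true (nat_lit 7) true (nat_lit 10) false (nat_lit 1) true (nat_lit 11) true (nat_lit 10) (.s false (nat_lit 1) (nat_lit 25) (nat_lit 1) (nat_lit 2) (nat_lit 2) true (nat_lit 7) true (nat_lit 10) false (nat_lit 1) true (nat_lit 11) true (nat_lit 10) (.s false (nat_lit 1) (nat_lit 27) (nat_lit 1) (nat_lit 2) (nat_lit 2) true (nat_lit 7) true (nat_lit 10) false (nat_lit 1) true (nat_lit 11) true (nat_lit 10) (.s true (nat_lit 1) (nat_lit 24) (nat_lit 2) (nat_lit 1) (nat_lit 2) true (nat_lit 6) true (nat_lit 10) false (nat_lit 1) true (nat_lit 10) true (nat_lit 11) (.s false (nat_lit 2) (nat_lit 26) (nat_lit 2) (nat_lit 1) (nat_lit 2) true (nat_lit 6) true (nat_lit 10) false (nat_lit 1) true (nat_lit 10) true (nat_lit 11) (.s false (nat_lit 2) (nat_lit 27) (nat_lit 2) (nat_lit 1) (nat_lit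 2) true (nat_lit 6) true (nat_lit 10) false (nat_lit 1) true (nat_lit 10) true (nat_lit 11) (.s true (nat_lit 1) (nat_lit 28) (nat_lit 2) (nat_lit 1) (nat_lit 2) true (nat_lit 6) true (nat_lit 10) false (nat_lit 1) true (nat_lit 10) true (nat_lit 11) (.s true (nat_lit 3) (nat_lit 24) (nat_lit 2) (nat_lit 2) (nat_lit 1) true (nat_lit 7) true (nat_lit 11) false (nat_lit 1) true (nat_lit 10) true (nat_lit 10) (.s true (nat_lit 2) (nat_lit 25) (nat_lit 2) (nat_lit 2) (nat_lit 1) true (nat_lit 7) true (nat_lit 11) false (nat_lit 1) true (nat_lit 10) true (nat_lit 10) (.s false (nat_lit 3) (nat_lit 26) (nat_lit 2) (nat_lit 2) (nat_lit 1) true (nat_lit 7) true (nat_lit 11) false (nat_lit 1) true (nat_lit 10) true (nat_lit 10) (.s false (nat_lit 2) (nat_lit 27) (nat_lit 2) (nat_lit 2) (nat_lit 1) true (nat_lit 7) true (nat_lit 11) false (nat_lit 1) true (nat_lit 10) true (nat_lit 10) (.s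 false (nat_lit 1) (nat_lit 28) (nat_lit 2) (nat_lit 2) (nat_lit 1) true (nat_lit 7) true (nat_lit 11) false (nat_lit 1) true (nat_lit 10) true (nat_lit 10) (.s false (nat_lit 3) (nat_lit 29) (nat_lit 2) (nat_lit 0) (nat_lit 2) true (nat_lit 6) true (nat_lit 10) false (nat_lit 2) true (nat_lit 10) true (nat_lit 12) (.s true (nat_lit 1) (nat_lit 30) (nat_lit 2) (nat_lit 0) (nat_lit 2) true (nat_lit 6) true (nat_lit 10) false (nat_lit 2) true (nat_lit 10) true (nat_lit 12) (.s false (nat_lit 2) (nat_lit 32) (nat_lit 1) (nat_lit 1) (nat_lit 2) true (nat_lit 7) true (nat_lit 10) false (nat_lit 3) true (nat_lit 11) true (nat_lit 11) (.s false (nat_lit 2) (nat_lit 33) (nat_lit 1) (nat_lit 2) (nat_lit 1) false (nat_lit 13) true (nat_lit 11) false (nat_lit 3) true (nat_lit 11) true (nat_lit 10) dR2_i21)))))))))))))))))))))))))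

noncomputable def dR2_i23 : IL := (.e false (nat_lit 3) (nat_lit 106) (nat_lit 2) (nat_lit 10) (.e true (nat_lit 1) (nat_lit 107) (nat_lit 2) (nat_lit 10) (.e true (nat_lit 2) (nat_lit 111) (nat_lit 2) (nat_lit 10) (.e false (nat_lit 1) (nat_lit 112) (nat_lit 2) (nat_lit 10) (.e false (nat_lit 2) (nat_lit 115) (nat_lit 2) (nat_lit 10) (.e false (nat_lit 3) (nat_lit 116) (nat_lit 2) (nat_lit 10) (.e false (nat_lit 3) (nat_lit 134) (nat_lit 1) (nat_lit 11) (.e true (nat_lit 2) (nat_lit 109) (nat_lit 2) (nat_lit 10) (.e true (nat_lit 1) (nat_lit 108) (nat_lit 2) (nat_lit 10) (.e false (nat_lit 2) (nat_lit 125) (nat_lit 1) (nat_lit 11) (.e false (nat_lit 1) (nat_lit 127) (nat_lit 1) (nat_lit 11) (.e true (nat_lit 3) (nat_lit 128) (nat_lit 1) (nat_lit 11) (.e true (nat_lit 1) (nat_lit 131) (nat_lit 1) (nat_lit 11) (.e true (nat_lit 3) (nat_lit 132) (nat_lit 1) (nat_lit 11) (.e true (nat_lit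 1) (nat_lit 130) (nat_lit 1) (nat_lit 11) (.e true (nat_lit 3) (nat_lit 136) (nat_lit 1) (nat_lit 11) (.e true (nat_lit 2) (nat_lit 37) (nat_lit 8) (nat_lit 4) (.e false (nat_lit 2) (nat_lit 18) (nat_lit 16) (nat_lit 0) (.e false (nat_lit 1) (nat_lit 66) (nat_lit 5) (nat_lit 7) (.e false (nat_lit 1) (nat_lit 19) (nat_lit 16) (nat_lit 0) (.e true (nat_lit 1) (nat_lit 80) (nat_lit 3) (nat_lit 9) (.e false (nat_lit 1) (nat_lit 46) (nat_lit 6) (nat_lit 6) (.e true (nat_lit 1) (nat_lit 48) (nat_lit 6) (nat_lit 6) (.e false (nat_lit 2) (nat_lit 38) (nat_lit 7) (nat_lit 5) (.u (nat_lit 2) (.p (nat_lit 0) (nat_lit 3) (.p (nat_lit 1) (nat_lit 4) (.n (nat_lit 3) (nat_lit 1) (.n (nat_lit 5) (nat_lit 2) (.p (nat_lit 6) (nat_lit 1) (.n (nat_lit 7) (nat_lit 1) (.p (nat_lit 9) (nat_lit 2) (.p (nat_lit 10) (nat_lit 2) (.n (nat_lit 11) (nat_lit 1) (.p (nat_lit 12) (nat_lit 1) (.n (nat_lit 14) (nat_lit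 3) (.p (nat_lit 15) (nat_lit 2) (.p (nat_lit 17) (nat_lit 1) (.p (nat_lit 22) (nat_lit 1) (.n (nat_lit 23) (nat_lit 1) (.p (nat_lit 26) (nat_lit 1) (.n (nat_lit 27) (nat_lit 5) (.n (nat_lit 29) (nat_lit 2) (.n (nat_lit 65) (nat_lit 2) (.n (nat_lit 66) (nat_lit 1) (.n (nat_lit 68) (nat_lit 1) (.p (nat_lit 70) (nat_lit 1) (.p (nat_lit 71) (nat_lit 2) (.p (nat_lit 73) (nat_lit 1) (.n (nat_lit 75) (nat_lit 1) (.n (nat_lit 96) (nat_lit 2) (.n (nat_lit 97) (nat_lit 1) (.n (nat_lit 98) (nat_lit 3) (.p (nat_lit 99) (nat_lit 1) (.n (nat_lit 102) (nat_lit 2) (.p (nat_lit 103) (nat_lit 4) (.n (nat_lit 105) (nat_lit 3) (.p (nat_lit 106) (nat_lit 3) (.n (nat_lit 107) (nat_lit 1) (.p (nat_lit 110) (nat_lit 3) (.n (nat_lit 111) (nat_lit 1) (.n (nat_lit 113) (nat_lit 1) (.n (nat_lit 114) (nat_lit 4) (.n (nat_lit 115) (nat_lit 2) (.n (nat_lit 116) (nat_lit 2) (.n (nat_lit 117) (nat_lit 2) (.n (nat_lit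 118) (nat_lit 2) (.p (nat_lit 120) (nat_lit 1) (.n (nat_lit 121) (nat_lit 2) (.n (nat_lit 122) (nat_lit 2) (.p (nat_lit 123) (nat_lit 1) (.p (nat_lit 124) (nat_lit 1) (.n (nat_lit 125) (nat_lit 2) (.n (nat_lit 126) (nat_lit 1) (.p (nat_lit 129) (nat_lit 2) (.p (nat_lit 130) (nat_lit 1) (.n (nat_lit 131) (nat_lit 1) .z)))))))))))))))))))))))))))))))))))))))))))))))))))) .nil)))))))))))))))))))))))))

noncomputable def dR2_i24 : IL := (.s false (nat_lit 1) (nat_lit 16) (nat_lit 2) (nat_lit 3) (nat_lit 1) true (nat_lit 7) true (nat_lit 11) true (nat_lit 0) true (nat_lit 10) true (nat_lit 9) (.s true (nat_lit 1) (nat_lit 16) (nat_lit 4) (nat_lit 1) (nat_lit 1) true (nat_lit 4) true (nat_lit 11) true (nat_lit 0) true (nat_lit 8) true (nat_lit 11) (.s false (nat_lit 2) (nat_lit 24) (nat_lit 1) (nat_lit 2) (nat_lit 2) true (nat_lit 7) true (nat_lit 10) false (nat_lit 1) true (nat_lit 11)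 true (nat_lit 10) (.s true (nat_lit 2) (nat_lit 25) (nat_lit 1) (nat_lit 2) (nat_lit 2) true (nat_lit 7) true (nat_lit 10) false (nat_lit 1) true (nat_lit 11) true (nat_lit 10) (.s true (nat_lit 3) (nat_lit 27) (nat_lit 1) (nat_lit 2) (nat_lit 2) true (nat_lit 7) true (nat_lit 10) false (nat_lit 1) true (nat_lit 11) true (nat_lit 10) (.s true (nat_lit 1) (nat_lit 28) (nat_lit 1) (nat_lit 2) (nat_lit 2) true (nat_lit 7) true (nat_lit 10) false (nat_lit 1) true (nat_lit 11) true (nat_lit 10) (.s false (nat_lit 1) (nat_lit 24) (nat_lit 2) (nat_lit 1) (nat_lit 2) true (nat_lit 6) true (nat_lit 10) false (nat_lit 1) true (nat_lit 10) true (nat_lit 11) (.s true (nat_lit 1) (nat_lit 25) (nat_lit 2) (nat_lit 1) (nat_lit 2) true (nat_lit 6) true (nat_lit 10) false (nat_lit 1) true (nat_lit 10) true (nat_lit 11) (.s true (nat_lit 3) (nat_lit 27) (nat_lit 2) (nat_lit 1) (nat_lit 2) true (nat_lit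 6) true (nat_lit 10) false (nat_lit 1) true (nat_lit 10) true (nat_lit 11) (.s true (nat_lit 1) (nat_lit 28) (nat_lit 2) (nat_lit 1) (nat_lit 2) true (nat_lit 6) true (nat_lit 10) false (nat_lit 1) true (nat_lit 10) true (nat_lit 11) (.s false (nat_lit 1) (nat_lit 26) (nat_lit 2) (nat_lit 2) (nat_lit 1) true (nat_lit 7) true (nat_lit 11) false (nat_lit 1) true (nat_lit 10) true (nat_lit 10) (.s false (nat_lit 3) (nat_lit 27) (nat_lit 2) (nat_lit 2) (nat_lit 1) true (nat_lit 7) true (nat_lit 11) false (nat_lit 1) true (nat_lit 10) true (nat_lit 10) (.s false (nat_lit 2) (nat_lit 38) (nat_lit 0) (nat_lit 1) (nat_lit 1) true (nat_lit 9) true (nat_lit 11) false (nat_lit 5) true (nat_lit 12) true (nat_lit 11) (.e false (nat_lit 3) (nat_lit 21) (nat_lit 16) (nat_lit 0) (.e true (nat_lit 2) (nat_lit 45) (nat_lit 6) (nat_lit 6) (.e true (nat_lit 2) (nat_lit 53) (nat_lit 6) (nat_lit 6) (.e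 true (nat_lit 3) (nat_lit 97) (nat_lit 2) (nat_lit 10) (.e false (nat_lit 1) (nat_lit 98) (nat_lit 2) (nat_lit 10) (.e false (nat_lit 3) (nat_lit 99) (nat_lit 2) (nat_lit 10) (.e true (nat_lit 2) (nat_lit 100) (nat_lit 2) (nat_lit 10) (.e false (nat_lit 3) (nat_lit 101) (nat_lit 2) (nat_lit 10) (.e true (nat_lit 2) (nat_lit 102) (nat_lit 2) (nat_lit 10) (.e true (nat_lit 2) (nat_lit 103) (nat_lit 2) (nat_lit 10) (.e false (nat_lit 2) (nat_lit 104) (nat_lit 2) (nat_lit 10) (.e true (nat_lit 3) (nat_lit 105) (nat_lit 2) (nat_lit 10) dR2_i23)))))))))))))))))))))))))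

noncomputable def dR2_i25 : IL := (.e true (nat_lit 2) (nat_lit 114) (nat_lit 2) (nat_lit 10) (.e true (nat_lit 1) (nat_lit 115) (nat_lit 2) (nat_lit 10) (.e true (nat_lit 2) (nat_lit 117) (nat_lit 2) (nat_lit 10) (.e true (nat_lit 2) (nat_lit 116) (nat_lit 2) (nat_lit 10) (.e true (nat_lit 1) (nat_lit 102) (nat_lit 2) (nat_lit 10) (.e false (nat_lit 2) (nat_lit 109) (nat_lit 2) (nat_lit 10) (.e true (nat_lit 1) (nat_lit 108) (nat_lit 2) (nat_lit 10) (.e false (nat_lit 2) (nat_lit 113) (nat_lit 2) (nat_lit 10) (.e false (nat_lit 2) (nat_lit 32) (nat_lit 11) (nat_lit 3) (.e true (nat_lit 3) (nat_lit 124) (nat_lit 1) (nat_lit 11) (.e false (nat_lit 2) (nat_lit 127) (nat_lit 1) (nat_lit 11) (.e true (nat_lit 3) (nat_lit 130) (nat_lit 1) (nat_lit 11) (.e true (nat_lit 1) (nat_lit 136) (nat_lit 1) (nat_lit 11) (.e false (nat_lit 1) (nat_lit 139) (nat_lit 1) (nat_lit 11) (.e false (nat_lit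 3) (nat_lit 110) (nat_lit 2) (nat_lit 10) (.e true (nat_lit 3) (nat_lit 23) (nat_lit 15) (nat_lit 1) (.e false (nat_lit 3) (nat_lit 23) (nat_lit 14) (nat_lit 1) (.e false (nat_lit 3) (nat_lit 81) (nat_lit 3) (nat_lit 9) (.e false (nat_lit 3) (nat_lit 144) (nat_lit 0) (nat_lit 12) (.e false (nat_lit 3) (nat_lit 38) (nat_lit 7) (nat_lit 5) (.e false (nat_lit 3) (nat_lit 18) (nat_lit 16) (nat_lit 0) (.e false (nat_lit 1) (nat_lit 37) (nat_lit 8) (nat_lit 4) (.e false (nat_lit 3) (nat_lit 35) (nat_lit 8) (nat_lit 4) (.u (nat_lit 2) (.n (nat_lit 0) (nat_lit 4) (.n (nat_lit 1) (nat_lit 4) (.p (nat_lit 3) (nat_lit 1) (.p (nat_lit 4) (nat_lit 5) (.n (nat_lit 6) (nat_lit 1) (.n (nat_lit 8) (nat_lit 3) (.n (nat_lit 11) (nat_lit 1) (.n (nat_lit 12) (nat_lit 3) (.p (nat_lit 13) (nat_lit 1) (.n (nat_lit 14) (nat_lit 3) (.n (nat_lit 15) (nat_lit 3) (.n (nat_lit 17) (nat_lit 3) (.n (nat_lit 18)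 (nat_lit 2) (.p (nat_lit 20) (nat_lit 1) (.n (nat_lit 21) (nat_lit 1) (.n (nat_lit 22) (nat_lit 1) (.p (nat_lit 23) (nat_lit 1) (.n (nat_lit 24) (nat_lit 1) (.p (nat_lit 26) (nat_lit 1) (.p (nat_lit 27) (nat_lit 3) (.n (nat_lit 28) (nat_lit 1) (.p (nat_lit 29) (nat_lit 1) (.p (nat_lit 44) (nat_lit 1) (.n (nat_lit 66) (nat_lit 1) (.n (nat_lit 68) (nat_lit 1) (.n (nat_lit 69) (nat_lit 1) (.n (nat_lit 83) (nat_lit 1) (.n (nat_lit 92) (nat_lit 1) (.p (nat_lit 93) (nat_lit 1) (.p (nat_lit 94) (nat_lit 1) (.n (nat_lit 95) (nat_lit 1) (.p (nat_lit 97) (nat_lit 1) (.p (nat_lit 98) (nat_lit 5) (.n (nat_lit 99) (nat_lit 1) (.p (nat_lit 100) (nat_lit 2) (.p (nat_lit 101) (nat_lit 1) (.p (nat_lit 102) (nat_lit 4) (.n (nat_lit 103) (nat_lit 4) (.n (nat_lit 104) (nat_lit 3) (.p (nat_lit 105) (nat_lit 4) (.n (nat_lit 106) (nat_lit 2) (.p (nat_lit 107) (nat_lit 1) (.p (nat_lit 108) (nat_lit 1) (.n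 (nat_lit 109) (nat_lit 2) (.n (nat_lit 110) (nat_lit 1) (.p (nat_lit 111) (nat_lit 3) (.n (nat_lit 112) (nat_lit 1) (.p (nat_lit 113) (nat_lit 1) (.p (nat_lit 114) (nat_lit 2) (.p (nat_lit 115) (nat_lit 2) (.p (nat_lit 116) (nat_lit 2) (.n (nat_lit 117) (nat_lit 3) (.n (nat_lit 118) (nat_lit 3) (.p (nat_lit 119) (nat_lit 1) (.n (nat_lit 120) (nat_lit 1) (.n (nat_lit 121) (nat_lit 1) (.n (nat_lit 122) (nat_lit 1) (.p (nat_lit 123) (nat_lit 4) (.p (nat_lit 124) (nat_lit 4) (.n (nat_lit 125) (nat_lit 1) .z)))))))))))))))))))))))))))))))))))))))))))))))))))))))))))) (.u (nat_lit 2) (.p (nat_lit 126) (nat_lit 2) (.p (nat_lit 127) (nat_lit 3) (.p (nat_lit 129) (nat_lit 1) .z))) .nil)))))))))))))))))))))))))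

noncomputable def dR2_i26 : IL := (.s true (nat_lit 2) (nat_lit 31) (nat_lit 2) (nat_lit 0) (nat_lit 2) true (nat_lit 6) true (nat_lit 10) false (nat_lit 2) true (nat_lit 10) true (nat_lit 12) (.s true (nat_lit 2) (nat_lit 32) (nat_lit 1) (nat_lit 1) (nat_lit 2) true (nat_lit 7) true (nat_lit 10) false (nat_lit 3) true (nat_lit 11) true (nat_lit 11) (.s false (nat_lit 2) (nat_lit 34) (nat_lit 1) (nat_lit 1) (nat_lit 2) true (nat_lit 7) true (nat_lit 10) false (nat_lit 3) true (nat_lit 11) true (nat_lit 11) (.s true (nat_lit 2) (nat_lit 35) (nat_lit 0) (nat_lit 2) (nat_lit 1) true (nat_lit 9) true (nat_lit 11) false (nat_lit 4) true (nat_lit 12) true (nat_lit 10) (.s true (nat_lit 3) (nat_lit 35) (nat_lit 1) (nat_lit 0) (nat_lit 2) true (nat_lit 7) true (nat_lit 10) false (nat_lit 4) true (nat_lit 11) true (nat_lit 12) (.s false (nat_lit 2) (nat_lit 35) (nat_lit 1) (nat_lit 2) (nat_lit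 0) true (nat_lit 9) true (nat_lit 12) false (nat_lit 4) true (nat_lit 11) true (nat_lit 10) (.s false (nat_lit 2) (nat_lit 35) (nat_lit 2) (nat_lit 1) (nat_lit 0) true (nat_lit 8) true (nat_lit 12) false (nat_lit 4) true (nat_lit 10) true (nat_lit 11) (.s false (nat_lit 1) (nat_lit 38) (nat_lit 0) (nat_lit 1) (nat_lit 1) true (nat_lit 9) true (nat_lit 11) false (nat_lit 5) true (nat_lit 12) true (nat_lit 11) (.e true (nat_lit 3) (nat_lit 44) (nat_lit 6) (nat_lit 6) (.e false (nat_lit 3) (nat_lit 46) (nat_lit 6) (nat_lit 6) (.e false (nat_lit 1) (nat_lit 48) (nat_lit 6) (nat_lit 6) (.e true (nat_lit 1) (nat_lit 53) (nat_lit 6) (nat_lit 6) (.e false (nat_lit 3) (nat_lit 52) (nat_lit 6) (nat_lit 6) (.e true (nat_lit 1) (nat_lit 132) (nat_lit 1) (nat_lit 11) (.e false (nat_lit 3) (nat_lit 45) (nat_lit 6) (nat_lit 6) (.e true (nat_lit 3) (nat_lit 134) (nat_lit 1) (nat_lit 11) (.e true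 (nat_lit 1) (nat_lit 98) (nat_lit 2) (nat_lit 10) (.e true (nat_lit 2) (nat_lit 99) (nat_lit 2) (nat_lit 10) (.e true (nat_lit 1) (nat_lit 100) (nat_lit 2) (nat_lit 10) (.e false (nat_lit 1) (nat_lit 101) (nat_lit 2) (nat_lit 10) (.e true (nat_lit 3) (nat_lit 103) (nat_lit 2) (nat_lit 10) (.e true (nat_lit 2) (nat_lit 104) (nat_lit 2) (nat_lit 10) (.e true (nat_lit 3) (nat_lit 107) (nat_lit 2) (nat_lit 10) (.e false (nat_lit 1) (nat_lit 111) (nat_lit 2) (nat_lit 10) (.e true (nat_lit 1) (nat_lit 112) (nat_lit 2) (nat_lit 10) dR2_i25)))))))))))))))))))))))))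

noncomputable def dR2_i27 : IL := (.s true (nat_lit 2) (nat_lit 10) (nat_lit 1) (nat_lit 2) (nat_lit 6) true (nat_lit 1) true (nat_lit 6) true (nat_lit 4) true (nat_lit 11) true (nat_lit 10) (.s false (nat_lit 1) (nat_lit 9) (nat_lit 1) (nat_lit 6) (nat_lit 2) true (nat_lit 7) true (nat_lit 10) true (nat_lit 4) true (nat_lit 11) true (nat_lit 6) (.s false (nat_lit 2) (nat_lit 10) (nat_lit 1) (nat_lit 6) (nat_lit 2) true (nat_lit 7) true (nat_lit 10) true (nat_lit 4) true (nat_lit 11) true (nat_lit 6) (.s true (nat_lit 2) (nat_lit 9) (nat_lit 2) (nat_lit 5) (nat_lit 2) true (nat_lit 6) true (nat_lit 10) true (nat_lit 4) true (nat_lit 10) true (nat_lit 7) (.s true (nat_lit 1) (nat_lit 9) (nat_lit 2) (nat_lit 6) (nat_lit 1) true (nat_lit 7) true (nat_lit 11) true (nat_lit 4) true (nat_lit 10) true (nat_lit 6) (.s false (nat_lit 2) (nat_lit 10) (nat_lit 2) (nat_lit 6) (nat_lit 1) true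 (nat_lit 7) true (nat_lit 11) true (nat_lit 4) true (nat_lit 10) true (nat_lit 6) (.s false (nat_lit 1) (nat_lit 9) (nat_lit 6) (nat_lit 1) (nat_lit 2) true (nat_lit 0) true (nat_lit 10) true (nat_lit 4) true (nat_lit 6) true (nat_lit 11) (.s true (nat_lit 2) (nat_lit 11) (nat_lit 2) (nat_lit 4) (nat_lit 2) true (nat_lit 6) true (nat_lit 10) true (nat_lit 3) true (nat_lit 10) true (nat_lit 8) (.s false (nat_lit 2) (nat_lit 13) (nat_lit 1) (nat_lit 1) (nat_lit 6) true (nat_lit 1) true (nat_lit 6) true (nat_lit 2) true (nat_lit 11) true (nat_lit 11) (.s true (nat_lit 2) (nat_lit 14) (nat_lit 0) (nat_lit 5) (nat_lit 2) true (nat_lit 8) true (nat_lit 10) true (nat_lit 1) true (nat_lit 12) true (nat_lit 7) (.s true (nat_lit 2) (nat_lit 15) (nat_lit 1) (nat_lit 4) (nat_lit 2) true (nat_lit 7) true (nat_lit 10) true (nat_lit 1) true (nat_lit 11) true (nat_lit 8) (.s false (nat_lit 2) (nat_lit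 15) (nat_lit 2) (nat_lit 1) (nat_lit 4) true (nat_lit 2) true (nat_lit 8) true (nat_lit 1) true (nat_lit 10) true (nat_lit 11) (.s true (nat_lit 3) (nat_lit 14) (nat_lit 2) (nat_lit 3) (nat_lit 2) true (nat_lit 6) true (nat_lit 10) true (nat_lit 1) true (nat_lit 10) true (nat_lit 9) (.s false (nat_lit 1) (nat_lit 15) (nat_lit 2) (nat_lit 3) (nat_lit 2) true (nat_lit 6) true (nat_lit 10) true (nat_lit 1) true (nat_lit 10) true (nat_lit 9) (.s true (nat_lit 2) (nat_lit 16) (nat_lit 0) (nat_lit 5) (nat_lit 1) true (nat_lit 9) true (nat_lit 11) true (nat_lit 0) true (nat_lit 12) true (nat_lit 7) (.s true (nat_lit 2) (nat_lit 16) (nat_lit 1) (nat_lit 1) (nat_lit 4) true (nat_lit 4) true (nat_lit 8) true (nat_lit 0) true (nat_lit 11) true (nat_lit 11) (.s false (nat_lit 2) (nat_lit 16) (nat_lit 1) (nat_lit 2) (nat_lit 3) true (nat_lit 5) true (nat_lit 9) true (nat_lit 0) true (nat_lit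 11) true (nat_lit 10) (.s true (nat_lit 1) (nat_lit 16) (nat_lit 3) (nat_lit 1) (nat_lit 2) true (nat_lit 4) true (nat_lit 10) true (nat_lit 0) true (nat_lit 9) true (nat_lit 11) (.s true (nat_lit 3) (nat_lit 16) (nat_lit 4) (nat_lit 1) (nat_lit 1) true (nat_lit 4) true (nat_lit 11) true (nat_lit 0) true (nat_lit 8) true (nat_lit 11) (.s true (nat_lit 2) (nat_lit 25) (nat_lit 1) (nat_lit 2) (nat_lit 2) true (nat_lit 7) true (nat_lit 10) false (nat_lit 1) true (nat_lit 11) true (nat_lit 10) (.s false (nat_lit 3) (nat_lit 27) (nat_lit 1) (nat_lit 2) (nat_lit 2) true (nat_lit 7) true (nat_lit 10) false (nat_lit 1) true (nat_lit 11) true (nat_lit 10) (.s false (nat_lit 3) (nat_lit 27) (nat_lit 2) (nat_lit 1) (nat_lit 2) true (nat_lit 6) true (nat_lit 10) false (nat_lit 1) true (nat_lit 10) true (nat_lit 11) (.s true (nat_lit 2) (nat_lit 24) (nat_lit 2) (nat_lit 2) (nat_lit 1) true (nat_lit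 7) true (nat_lit 11) false (nat_lit 1) true (nat_lit 10) true (nat_lit 10) (.s true (nat_lit 2) (nat_lit 26) (nat_lit 2) (nat_lit 2) (nat_lit 1) true (nat_lit 7) true (nat_lit 11) false (nat_lit 1) true (nat_lit 10) true (nat_lit 10) (.s true (nat_lit 3) (nat_lit 27) (nat_lit 2) (nat_lit 2) (nat_lit 1) true (nat_lit 7) true (nat_lit 11) false (nat_lit 1) true (nat_lit 10) true (nat_lit 10) dR2_i26)))))))))))))))))))))))))

noncomputable def dR2_i28 : IL := (.e false (nat_lit 2) (nat_lit 105) (nat_lit 2) (nat_lit 10) (.e false (nat_lit 3) (nat_lit 107) (nat_lit 2) (nat_lit 10) (.e true (nat_lit 1) (nat_lit 111) (nat_lit 2) (nat_lit 10) (.e true (nat_lit 1) (nat_lit 112) (nat_lit 2) (nat_lit 10) (.e true (nat_lit 2) (nat_lit 114) (nat_lit 2) (nat_lit 10) (.e false (nat_lit 1) (nat_lit 117) (nat_lit 2) (nat_lit 10) (.e true (nat_lit 1) (nat_lit 20) (nat_lit 16) (nat_lit 0) (.e false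 (nat_lit 2) (nat_lit 102) (nat_lit 2) (nat_lit 10) (.e true (nat_lit 1) (nat_lit 116) (nat_lit 2) (nat_lit 10) (.e false (nat_lit 1) (nat_lit 21) (nat_lit 16) (nat_lit 0) (.e true (nat_lit 1) (nat_lit 45) (nat_lit 6) (nat_lit 6) (.e true (nat_lit 1) (nat_lit 53) (nat_lit 6) (nat_lit 6) (.e false (nat_lit 3) (nat_lit 106) (nat_lit 2) (nat_lit 10) (.e false (nat_lit 2) (nat_lit 109) (nat_lit 2) (nat_lit 10) (.e false (nat_lit 1) (nat_lit 79) (nat_lit 3) (nat_lit 9) (.e true (nat_lit 1) (nat_lit 81) (nat_lit 3) (nat_lit 9) (.e false (nat_lit 2) (nat_lit 124) (nat_lit 1) (nat_lit 11) (.e false (nat_lit 1) (nat_lit 125) (nat_lit 1) (nat_lit 11) (.e false (nat_lit 1) (nat_lit 129) (nat_lit 1) (nat_lit 11) (.e true (nat_lit 2) (nat_lit 132) (nat_lit 1) (nat_lit 11) (.e false (nat_lit 2) (nat_lit 136) (nat_lit 1) (nat_lit 11) (.e true (nat_lit 1) (nat_lit 127) (nat_lit 1) (nat_lit 11) (.e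 false (nat_lit 1) (nat_lit 38) (nat_lit 7) (nat_lit 5) (.e true (nat_lit 1) (nat_lit 126) (nat_lit 1) (nat_lit 11) (.u (nat_lit 2) (.p (nat_lit 0) (nat_lit 1) (.p (nat_lit 1) (nat_lit 1) (.p (nat_lit 2) (nat_lit 2) (.n (nat_lit 3) (nat_lit 1) (.p (nat_lit 4) (nat_lit 1) (.p (nat_lit 5) (nat_lit 1) (.p (nat_lit 6) (nat_lit 1) (.n (nat_lit 7) (nat_lit 1) (.n (nat_lit 9) (nat_lit 1) (.n (nat_lit 11) (nat_lit 2) (.p (nat_lit 18) (nat_lit 2) (.p (nat_lit 26) (nat_lit 1) (.n (nat_lit 27) (nat_lit 1) (.n (nat_lit 116) (nat_lit 1) .z)))))))))))))) .nil)))))))))))))))))))))))))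

noncomputable def dR2_i29 : IL := (.e false (nat_lit 3) (nat_lit 48) (nat_lit 6) (nat_lit 6) (.e true (nat_lit 3) (nat_lit 53) (nat_lit 6) (nat_lit 6) (.e false (nat_lit 1) (nat_lit 132) (nat_lit 1) (nat_lit 11) (.e true (nat_lit 2) (nat_lit 45) (nat_lit 6) (nat_lit 6) (.e true (nat_lit 2) (nat_lit 52) (nat_lit 6) (nat_lit 6) (.e false (nat_lit 2) (nat_lit 36) (nat_lit 8) (nat_lit 4) (.e false (nat_lit 2) (nat_lit 37) (nat_lit 8) (nat_lit 4) (.e true (nat_lit 2) (nat_lit 81) (nat_lit 3) (nat_lit 9) (.e true (nat_lit 3) (nat_lit 66) (nat_lit 5) (nat_lit 7) (.e true (nat_lit 3) (nat_lit 111) (nat_lit 2) (nat_lit 10) (.e true (nat_lit 2) (nat_lit 116) (nat_lit 2) (nat_lit 10) (.e false (nat_lit 2) (nat_lit 20) (nat_lit 16) (nat_lit 0) (.e true (nat_lit 3) (nat_lit 113) (nat_lit 2) (nat_lit 10) (.e true (nat_lit 3) (nat_lit 32) (nat_lit 11) (nat_lit 3) (.e true (nat_lit 3) (nat_lit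 124) (nat_lit 1) (nat_lit 11) (.e false (nat_lit 2) (nat_lit 125) (nat_lit 1) (nat_lit 11) (.e false (nat_lit 3) (nat_lit 139) (nat_lit 1) (nat_lit 11) (.e true (nat_lit 3) (nat_lit 130) (nat_lit 1) (nat_lit 11) (.e false (nat_lit 3) (nat_lit 38) (nat_lit 7) (nat_lit 5) (.e true (nat_lit 1) (nat_lit 18) (nat_lit 16) (nat_lit 0) (.e true (nat_lit 1) (nat_lit 136) (nat_lit 1) (nat_lit 11) (.e true (nat_lit 1) (nat_lit 19) (nat_lit 16) (nat_lit 0) (.e false (nat_lit 3) (nat_lit 35) (nat_lit 8) (nat_lit 4) (.u (nat_lit 2) (.n (nat_lit 1) (nat_lit 2) (.p (nat_lit 4) (nat_lit 2) (.p (nat_lit 5) (nat_lit 1) (.n (nat_lit 9) (nat_lit 6) (.n (nat_lit 10) (nat_lit 1) (.n (nat_lit 11) (nat_lit 3) (.n (nat_lit 13) (nat_lit 1) (.n (nat_lit 14) (nat_lit 2) (.p (nat_lit 15) (nat_lit 1) (.p (nat_lit 17) (nat_lit 1) (.p (nat_lit 18) (nat_lit 4) (.n (nat_lit 19) (nat_lit 1) (.n (nat_lit 21) (nat_lit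 1) (.n (nat_lit 27) (nat_lit 1) (.n (nat_lit 29) (nat_lit 1) (.p (nat_lit 39) (nat_lit 1) (.p (nat_lit 62) (nat_lit 1) (.n (nat_lit 64) (nat_lit 1) (.p (nat_lit 66) (nat_lit 1) (.p (nat_lit 67) (nat_lit 1) (.n (nat_lit 70) (nat_lit 1) (.p (nat_lit 74) (nat_lit 1) (.n (nat_lit 76) (nat_lit 1) (.n (nat_lit 77) (nat_lit 1) (.p (nat_lit 80) (nat_lit 1) (.n (nat_lit 81) (nat_lit 1) (.n (nat_lit 88) (nat_lit 1) (.n (nat_lit 90) (nat_lit 1) (.p (nat_lit 91) (nat_lit 1) (.p (nat_lit 95) (nat_lit 1) (.p (nat_lit 97) (nat_lit 2) (.p (nat_lit 98) (nat_lit 1) (.n (nat_lit 99) (nat_lit 2) (.p (nat_lit 100) (nat_lit 1) (.n (nat_lit 101) (nat_lit 3) (.p (nat_lit 102) (nat_lit 4) (.n (nat_lit 103) (nat_lit 6) (.p (nat_lit 104) (nat_lit 3) (.p (nat_lit 105) (nat_lit 1) (.n (nat_lit 106) (nat_lit 3) (.n (nat_lit 107) (nat_lit 2) (.n (nat_lit 108) (nat_lit 1) (.p (nat_lit 109) (nat_lit 1) (.p (nat_lit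 110) (nat_lit 2) (.n (nat_lit 111) (nat_lit 1) (.n (nat_lit 112) (nat_lit 2) (.n (nat_lit 113) (nat_lit 5) (.n (nat_lit 114) (nat_lit 6) (.p (nat_lit 115) (nat_lit 4) (.n (nat_lit 116) (nat_lit 1) (.p (nat_lit 119) (nat_lit 1) (.n (nat_lit 120) (nat_lit 3) (.p (nat_lit 121) (nat_lit 3) (.p (nat_lit 122) (nat_lit 2) (.p (nat_lit 123) (nat_lit 1) (.p (nat_lit 124) (nat_lit 3) (.p (nat_lit 125) (nat_lit 1) (.p (nat_lit 126) (nat_lit 3) (.n (nat_lit 129) (nat_lit 1) (.p (nat_lit 131) (nat_lit 1) .z)))))))))))))))))))))))))))))))))))))))))))))))))))))))))))) (.u (nat_lit 2) (.n (nat_lit 133) (nat_lit 1) (.p (nat_lit 135) (nat_lit 1) (.p (nat_lit 136) (nat_lit 1) (.p (nat_lit 137) (nat_lit 1) (.p (nat_lit 138) (nat_lit 2) .z))))) .nil)))))))))))))))))))))))))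

noncomputable def dR2_i30 : IL := (.s true (nat_lit 1) (nat_lit 36) (nat_lit 0) (nat_lit 1) (nat_lit 2) true (nat_lit 8) true (nat_lit 10) false (nat_lit 4) true (nat_lit 12) true (nat_lit 11) (.s false (nat_lit 1) (nat_lit 35) (nat_lit 0) (nat_lit 2) (nat_lit 1) true (nat_lit 9) true (nat_lit 11) false (nat_lit 4) true (nat_lit 12) true (nat_lit 10) (.s true (nat_lit 3) (nat_lit 35) (nat_lit 1) (nat_lit 0) (nat_lit 2) true (nat_lit 7) true (nat_lit 10) false (nat_lit 4) true (nat_lit 11) true (nat_lit 12) (.s true (nat_lit 3) (nat_lit 36) (nat_lit 2) (nat_lit 1) (nat_lit 0) true (nat_lit 8) true (nat_lit 12) false (nat_lit 4) true (nat_lit 10) true (nat_lit 11) (.s true (nat_lit 1) (nat_lit 38) (nat_lit 0) (nat_lit 1) (nat_lit 1) true (nat_lit 9) true (nat_lit 11) false (nat_lit 5) true (nat_lit 12) true (nat_lit 11) (.s false (nat_lit 2) (nat_lit 38) (nat_lit 1) (nat_lit 0) (nat_lit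 1) false (nat_lit 13) true (nat_lit 11) false (nat_lit 5) true (nat_lit 11) true (nat_lit 12) (.e false (nat_lit 3) (nat_lit 23) (nat_lit 14) (nat_lit 1) (.e false (nat_lit 1) (nat_lit 58) (nat_lit 5) (nat_lit 7) (.e false (nat_lit 3) (nat_lit 97) (nat_lit 2) (nat_lit 10) (.e false (nat_lit 3) (nat_lit 98) (nat_lit 2) (nat_lit 10) (.e true (nat_lit 2) (nat_lit 100) (nat_lit 2) (nat_lit 10) (.e false (nat_lit 1) (nat_lit 101) (nat_lit 2) (nat_lit 10) (.e false (nat_lit 1) (nat_lit 102) (nat_lit 2) (nat_lit 10) (.e true (nat_lit 3) (nat_lit 103) (nat_lit 2) (nat_lit 10) (.e true (nat_lit 2) (nat_lit 106) (nat_lit 2) (nat_lit 10) (.e true (nat_lit 1) (nat_lit 107) (nat_lit 2) (nat_lit 10) (.e false (nat_lit 1) (nat_lit 114) (nat_lit 2) (nat_lit 10) (.e true (nat_lit 2) (nat_lit 115) (nat_lit 2) (nat_lit 10) (.e false (nat_lit 2) (nat_lit 117) (nat_lit 2) (nat_lit 10) (.e true (nat_lit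 2) (nat_lit 99) (nat_lit 2) (nat_lit 10) (.e true (nat_lit 1) (nat_lit 110) (nat_lit 2) (nat_lit 10) (.e true (nat_lit 1) (nat_lit 105) (nat_lit 2) (nat_lit 10) (.e true (nat_lit 3) (nat_lit 108) (nat_lit 2) (nat_lit 10) (.e true (nat_lit 3) (nat_lit 44) (nat_lit 6) (nat_lit 6) (.e true (nat_lit 2) (nat_lit 46) (nat_lit 6) (nat_lit 6) dR2_i29)))))))))))))))))))))))))

noncomputable def dR2_i31 : IL := (.s false (nat_lit 3) (nat_lit 11) (nat_lit 2) (nat_lit 4) (nat_lit 2) true (nat_lit 6) true (nat_lit 10) true (nat_lit 3) true (nat_lit 10) true (nat_lit 8) (.s false (nat_lit 1) (nat_lit 12) (nat_lit 1) (nat_lit 1) (nat_lit 6) true (nat_lit 1) true (nat_lit 6) true (nat_lit 2) true (nat_lit 11) true (nat_lit 11) (.s false (nat_lit 1) (nat_lit 14) (nat_lit 0) (nat_lit 5) (nat_lit 2) true (nat_lit 8) true (nat_lit 10) true (nat_lit 1) true (nat_lit 12) true (nat_lit 7) (.s true (nat_lit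 2) (nat_lit 15) (nat_lit 1) (nat_lit 4) (nat_lit 2) true (nat_lit 7) true (nat_lit 10) true (nat_lit 1) true (nat_lit 11) true (nat_lit 8) (.s true (nat_lit 1) (nat_lit 14) (nat_lit 2) (nat_lit 3) (nat_lit 2) true (nat_lit 6) true (nat_lit 10) true (nat_lit 1) true (nat_lit 10) true (nat_lit 9) (.s false (nat_lit 2) (nat_lit 14) (nat_lit 2) (nat_lit 5) (nat_lit 0) true (nat_lit 8) true (nat_lit 12) true (nat_lit 1) true (nat_lit 10) true (nat_lit 7) (.s false (nat_lit 2) (nat_lit 14) (nat_lit 4) (nat_lit 2) (nat_lit 1) true (nat_lit 4) true (nat_lit 11) true (nat_lit 1) true (nat_lit 8) true (nat_lit 10) (.s true (nat_lit 1) (nat_lit 16) (nat_lit 1) (nat_lit 2) (nat_lit 3) true (nat_lit 5) true (nat_lit 9) true (nat_lit 0) true (nat_lit 11) true (nat_lit 10) (.s false (nat_lit 1) (nat_lit 16) (nat_lit 3) (nat_lit 1) (nat_lit 2) true (nat_lit 4) true (nat_lit 10) true (nat_lit 0)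 true (nat_lit 9) true (nat_lit 11) (.s true (nat_lit 1) (nat_lit 16) (nat_lit 5) (nat_lit 1) (nat_lit 0) true (nat_lit 4) true (nat_lit 12) true (nat_lit 0) true (nat_lit 7) true (nat_lit 11) (.s true (nat_lit 1) (nat_lit 24) (nat_lit 1) (nat_lit 2) (nat_lit 2) true (nat_lit 7) true (nat_lit 10) false (nat_lit 1) true (nat_lit 11) true (nat_lit 10) (.s true (nat_lit 2) (nat_lit 25) (nat_lit 1) (nat_lit 2) (nat_lit 2) true (nat_lit 7) true (nat_lit 10) false (nat_lit 1) true (nat_lit 11) true (nat_lit 10) (.s false (nat_lit 2) (nat_lit 27) (nat_lit 1) (nat_lit 2) (nat_lit 2) true (nat_lit 7) true (nat_lit 10) false (nat_lit 1) true (nat_lit 11) true (nat_lit 10) (.s false (nat_lit 2) (nat_lit 28) (nat_lit 1) (nat_lit 2) (nat_lit 2) true (nat_lit 7) true (nat_lit 10) false (nat_lit 1) true (nat_lit 11) true (nat_lit 10) (.s false (nat_lit 3) (nat_lit 24) (nat_lit 2) (nat_lit 1) (nat_lit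 2) true (nat_lit 6) true (nat_lit 10) false (nat_lit 1) true (nat_lit 10) true (nat_lit 11) (.s false (nat_lit 2) (nat_lit 26) (nat_lit 2) (nat_lit 1) (nat_lit 2) true (nat_lit 6) true (nat_lit 10) false (nat_lit 1) true (nat_lit 10) true (nat_lit 11) (.s true (nat_lit 1) (nat_lit 28) (nat_lit 2) (nat_lit 1) (nat_lit 2) true (nat_lit 6) true (nat_lit 10) false (nat_lit 1) true (nat_lit 10) true (nat_lit 11) (.s false (nat_lit 2) (nat_lit 24) (nat_lit 2) (nat_lit 2) (nat_lit 1) true (nat_lit 7) true (nat_lit 11) false (nat_lit 1) true (nat_lit 10) true (nat_lit 10) (.s false (nat_lit 2) (nat_lit 25) (nat_lit 2) (nat_lit 2) (nat_lit 1) true (nat_lit 7) true (nat_lit 11) false (nat_lit 1) true (nat_lit 10) true (nat_lit 10) (.s false (nat_lit 1) (nat_lit 26) (nat_lit 2) (nat_lit 2) (nat_lit 1) true (nat_lit 7) true (nat_lit 11) false (nat_lit 1) true (nat_lit 10) true (nat_lit 10) (.s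 false (nat_lit 3) (nat_lit 29) (nat_lit 2) (nat_lit 0) (nat_lit 2) true (nat_lit 6) true (nat_lit 10) false (nat_lit 2) true (nat_lit 10) true (nat_lit 12) (.s true (nat_lit 3) (nat_lit 34) (nat_lit 1) (nat_lit 1) (nat_lit 2) true (nat_lit 7) true (nat_lit 10) false (nat_lit 3) true (nat_lit 11) true (nat_lit 11) (.s true (nat_lit 1) (nat_lit 33) (nat_lit 1) (nat_lit 2) (nat_lit 1) false (nat_lit 13) true (nat_lit 11) false (nat_lit 3) true (nat_lit 11) true (nat_lit 10) (.s true (nat_lit 3) (nat_lit 34) (nat_lit 1) (nat_lit 2) (nat_lit 1) false (nat_lit 13) true (nat_lit 11) false (nat_lit 3) true (nat_lit 11) true (nat_lit 10) (.s false (nat_lit 2) (nat_lit 33) (nat_lit 2) (nat_lit 1) (nat_lit 1) true (nat_lit 7) true (nat_lit 11) false (nat_lit 3) true (nat_lit 10) true (nat_lit 11) dR2_i30)))))))))))))))))))))))))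

noncomputable def dR2_i32 : IL := (.e true (nat_lit 1) (nat_lit 108) (nat_lit 2) (nat_lit 10) (.e true (nat_lit 2) (nat_lit 109) (nat_lit 2) (nat_lit 10) (.e false (nat_lit 3) (nat_lit 44) (nat_lit 6) (nat_lit 6) (.e true (nat_lit 3) (nat_lit 48) (nat_lit 6) (nat_lit 6) (.e false (nat_lit 3) (nat_lit 46) (nat_lit 6) (nat_lit 6) (.e false (nat_lit 2) (nat_lit 124) (nat_lit 1) (nat_lit 11) (.e true (nat_lit 1) (nat_lit 127) (nat_lit 1) (nat_lit 11) (.e true (nat_lit 3) (nat_lit 128) (nat_lit 1) (nat_lit 11) (.e true (nat_lit 3) (nat_lit 130) (nat_lit 1) (nat_lit 11) (.e true (nat_lit 1) (nat_lit 131) (nat_lit 1) (nat_lit 11) (.e true (nat_lit 2) (nat_lit 139) (nat_lit 1) (nat_lit 11) (.e true (nat_lit 3) (nat_lit 23) (nat_lit 14) (nat_lit 1) (.e false (nat_lit 3) (nat_lit 37) (nat_lit 8) (nat_lit 4) (.e false (nat_lit 3) (nat_lit 79) (nat_lit 3) (nat_lit 9) (.e true (nat_lit 3) (nat_lit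 81) (nat_lit 3) (nat_lit 9) (.e true (nat_lit 3) (nat_lit 18) (nat_lit 16) (nat_lit 0) (.e true (nat_lit 1) (nat_lit 20) (nat_lit 16) (nat_lit 0) (.e false (nat_lit 3) (nat_lit 66) (nat_lit 5) (nat_lit 7) (.e false (nat_lit 3) (nat_lit 136) (nat_lit 1) (nat_lit 11) (.e false (nat_lit 3) (nat_lit 19) (nat_lit 16) (nat_lit 0) (.e true (nat_lit 3) (nat_lit 80) (nat_lit 3) (nat_lit 9) (.e false (nat_lit 3) (nat_lit 47) (nat_lit 6) (nat_lit 6) (.e true (nat_lit 3) (nat_lit 35) (nat_lit 8) (nat_lit 4) (.e true (nat_lit 3) (nat_lit 144) (nat_lit 0) (nat_lit 12) (.u (nat_lit 2) (.p (nat_lit 0) (nat_lit 5) (.p (nat_lit 1) (nat_lit 3) (.n (nat_lit 2) (nat_lit 1) (.p (nat_lit 3) (nat_lit 2) (.p (nat_lit 4) (nat_lit 1) (.p (nat_lit 5) (nat_lit 1) (.p (nat_lit 6) (nat_lit 2) (.n (nat_lit 7) (nat_lit 2) (.p (nat_lit 9) (nat_lit 1) (.n (nat_lit 10) (nat_lit 2) (.n (nat_lit 11) (nat_lit 3) (.p (nat_lit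 14) (nat_lit 4) (.p (nat_lit 15) (nat_lit 1) (.n (nat_lit 17) (nat_lit 1) (.p (nat_lit 18) (nat_lit 2) (.p (nat_lit 20) (nat_lit 3) (.p (nat_lit 21) (nat_lit 2) (.n (nat_lit 22) (nat_lit 1) (.n (nat_lit 23) (nat_lit 2) (.n (nat_lit 26) (nat_lit 1) (.n (nat_lit 27) (nat_lit 1) (.p (nat_lit 28) (nat_lit 1) (.p (nat_lit 29) (nat_lit 1) (.p (nat_lit 32) (nat_lit 1) (.n (nat_lit 66) (nat_lit 1) (.n (nat_lit 74) (nat_lit 1) (.p (nat_lit 78) (nat_lit 1) (.p (nat_lit 82) (nat_lit 1) (.n (nat_lit 96) (nat_lit 1) (.n (nat_lit 97) (nat_lit 2) (.p (nat_lit 98) (nat_lit 5) (.n (nat_lit 99) (nat_lit 2) (.n (nat_lit 100) (nat_lit 6) (.n (nat_lit 101) (nat_lit 1) (.p (nat_lit 102) (nat_lit 4) (.n (nat_lit 103) (nat_lit 8) (.n (nat_lit 104) (nat_lit 3) (.p (nat_lit 105) (nat_lit 2) (.n (nat_lit 107) (nat_lit 7) (.n (nat_lit 108) (nat_lit 1) (.n (nat_lit 109) (nat_lit 1) (.p (nat_lit 110) (nat_lit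 1) (.n (nat_lit 111) (nat_lit 4) (.n (nat_lit 112) (nat_lit 1) (.p (nat_lit 113) (nat_lit 6) (.n (nat_lit 114) (nat_lit 11) (.p (nat_lit 115) (nat_lit 2) (.p (nat_lit 116) (nat_lit 3) (.p (nat_lit 117) (nat_lit 4) (.p (nat_lit 118) (nat_lit 6) (.p (nat_lit 119) (nat_lit 1) (.p (nat_lit 120) (nat_lit 1) (.p (nat_lit 122) (nat_lit 3) (.p (nat_lit 124) (nat_lit 1) (.n (nat_lit 127) (nat_lit 1) .z))))))))))))))))))))))))))))))))))))))))))))))))))))))) .nil)))))))))))))))))))))))))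

noncomputable def dR2_i33 : IL := (.s true (nat_lit 3) (nat_lit 28) (nat_lit 2) (nat_lit 1) (nat_lit 2) true (nat_lit 6) true (nat_lit 10) false (nat_lit 1) true (nat_lit 10) true (nat_lit 11) (.s false (nat_lit 3) (nat_lit 24) (nat_lit 2) (nat_lit 2) (nat_lit 1) true (nat_lit 7) true (nat_lit 11) false (nat_lit 1) true (nat_lit 10) true (nat_lit 10) (.s true (nat_lit 3) (nat_lit 30) (nat_lit 2) (nat_lit 0) (nat_lit 2) true (nat_lit 6) true (nat_lit 10) false (nat_lit 2) true (nat_lit 10) true (nat_lit 12) (.s false (nat_lit 3) (nat_lit 30) (nat_lit 2) (nat_lit 2) (nat_lit 0) true (nat_lit 8) true (nat_lit 12) false (nat_lit 2) true (nat_lit 10) true (nat_lit 10) (.s false (nat_lit 1) (nat_lit 32) (nat_lit 1) (nat_lit 1) (nat_lit 2) true (nat_lit 7) true (nat_lit 10) false (nat_lit 3) true (nat_lit 11) true (nat_lit 11) (.s true (nat_lit 3) (nat_lit 33) (nat_lit 1) (nat_lit 2) (nat_lit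 1) false (nat_lit 13) true (nat_lit 11) false (nat_lit 3) true (nat_lit 11) true (nat_lit 10) (.s false (nat_lit 3) (nat_lit 35) (nat_lit 1) (nat_lit 0) (nat_lit 2) true (nat_lit 7) true (nat_lit 10) false (nat_lit 4) true (nat_lit 11) true (nat_lit 12) (.e true (nat_lit 2) (nat_lit 21) (nat_lit 16) (nat_lit 0) (.e false (nat_lit 1) (nat_lit 45) (nat_lit 6) (nat_lit 6) (.e false (nat_lit 1) (nat_lit 53) (nat_lit 6) (nat_lit 6) (.e true (nat_lit 3) (nat_lit 97) (nat_lit 2) (nat_lit 10) (.e false (nat_lit 1) (nat_lit 98) (nat_lit 2) (nat_lit 10) (.e true (nat_lit 3) (nat_lit 99) (nat_lit 2) (nat_lit 10) (.e true (nat_lit 2) (nat_lit 100) (nat_lit 2) (nat_lit 10) (.e true (nat_lit 3) (nat_lit 101) (nat_lit 2) (nat_lit 10) (.e true (nat_lit 1) (nat_lit 102) (nat_lit 2) (nat_lit 10) (.e true (nat_lit 1) (nat_lit 103) (nat_lit 2) (nat_lit 10) (.e false (nat_lit 1) (nat_lit 104) (nat_lit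 2) (nat_lit 10) (.e false (nat_lit 3) (nat_lit 107) (nat_lit 2) (nat_lit 10) (.e false (nat_lit 2) (nat_lit 111) (nat_lit 2) (nat_lit 10) (.e false (nat_lit 1) (nat_lit 112) (nat_lit 2) (nat_lit 10) (.e true (nat_lit 3) (nat_lit 115) (nat_lit 2) (nat_lit 10) (.e true (nat_lit 3) (nat_lit 116) (nat_lit 2) (nat_lit 10) (.e false (nat_lit 3) (nat_lit 117) (nat_lit 2) (nat_lit 10) (.e true (nat_lit 3) (nat_lit 134) (nat_lit 1) (nat_lit 11) dR2_i32)))))))))))))))))))))))))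

noncomputable def dR2_i34 : IL := (.e true (nat_lit 1) (nat_lit 46) (nat_lit 6) (nat_lit 6) (.e false (nat_lit 1) (nat_lit 47) (nat_lit 6) (nat_lit 6) (.e true (nat_lit 1) (nat_lit 48) (nat_lit 6) (nat_lit 6) (.e false (nat_lit 2) (nat_lit 50) (nat_lit 6) (nat_lit 6) (.e true (nat_lit 1) (nat_lit 51) (nat_lit 6) (nat_lit 6) (.e false (nat_lit 1) (nat_lit 52) (nat_lit 6) (nat_lit 6) (.e true (nat_lit 1) (nat_lit 53) (nat_lit 6) (nat_lit 6) (.e true (nat_lit 2) (nat_lit 54) (nat_lit 6) (nat_lit 6) (.e true (nat_lit 2) (nat_lit 97) (nat_lit 2) (nat_lit 10) (.e true (nat_lit 2) (nat_lit 98) (nat_lit 2) (nat_lit 10) (.e true (nat_lit 2) (nat_lit 99) (nat_lit 2) (nat_lit 10) (.e false (nat_lit 2) (nat_lit 100) (nat_lit 2) (nat_lit 10) (.e true (nat_lit 2) (nat_lit 101) (nat_lit 2) (nat_lit 10) (.e true (nat_lit 2) (nat_lit 103) (nat_lit 2) (nat_lit 10) (.e false (nat_lit 1) (nat_lit 104)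 (nat_lit 2) (nat_lit 10) (.e true (nat_lit 1) (nat_lit 105) (nat_lit 2) (nat_lit 10) (.e false (nat_lit 2) (nat_lit 107) (nat_lit 2) (nat_lit 10) (.e false (nat_lit 1) (nat_lit 108) (nat_lit 2) (nat_lit 10) (.e true (nat_lit 1) (nat_lit 109) (nat_lit 2) (nat_lit 10) (.e true (nat_lit 3) (nat_lit 112) (nat_lit 2) (nat_lit 10) (.e false (nat_lit 1) (nat_lit 117) (nat_lit 2) (nat_lit 10) (.e false (nat_lit 1) (nat_lit 30) (nat_lit 12) (nat_lit 2) (.e true (nat_lit 1) (nat_lit 106) (nat_lit 2) (nat_lit 10) (.e false (nat_lit 2) (nat_lit 111) (nat_lit 2) (nat_lit 10) (.u (nat_lit 2) (.p (nat_lit 0) (nat_lit 1) (.p (nat_lit 3) (nat_lit 1) (.n (nat_lit 5) (nat_lit 1) (.p (nat_lit 8) (nat_lit 1) (.n (nat_lit 9) (nat_lit 1) (.n (nat_lit 10) (nat_lit 1) (.p (nat_lit 11) (nat_lit 2) (.n (nat_lit 12) (nat_lit 1) (.n (nat_lit 15) (nat_lit 1) (.n (nat_lit 17) (nat_lit 1) (.p (nat_lit 19) (nat_lit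 1) (.p (nat_lit 20) (nat_lit 1) (.p (nat_lit 26) (nat_lit 2) (.p (nat_lit 27) (nat_lit 1) (.n (nat_lit 28) (nat_lit 1) (.p (nat_lit 98) (nat_lit 1) (.p (nat_lit 102) (nat_lit 1) (.n (nat_lit 107) (nat_lit 1) .z)))))))))))))))))) .nil)))))))))))))))))))))))))

noncomputable def dR2_i35 : IL := (.s true (nat_lit 1) (nat_lit 31) (nat_lit 2) (nat_lit 0) (nat_lit 2) true (nat_lit 6) true (nat_lit 10) false (nat_lit 2) true (nat_lit 10) true (nat_lit 12) (.e true (nat_lit 2) (nat_lit 44) (nat_lit 6) (nat_lit 6) (.e true (nat_lit 3) (nat_lit 45) (nat_lit 6) (nat_lit 6) (.e true (nat_lit 1) (nat_lit 47) (nat_lit 6) (nat_lit 6) (.e true (nat_lit 2) (nat_lit 48) (nat_lit 6) (nat_lit 6) (.e false (nat_lit 1) (nat_lit 49) (nat_lit 6) (nat_lit 6) (.e false (nat_lit 2) (nat_lit 50) (nat_lit 6) (nat_lit 6) (.e false (nat_lit 2) (nat_lit 52) (nat_lit 6) (nat_lit 6) (.e true (nat_lit 2) (nat_lit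 53) (nat_lit 6) (nat_lit 6) (.e true (nat_lit 1) (nat_lit 54) (nat_lit 6) (nat_lit 6) (.e false (nat_lit 3) (nat_lit 97) (nat_lit 2) (nat_lit 10) (.e false (nat_lit 3) (nat_lit 100) (nat_lit 2) (nat_lit 10) (.e false (nat_lit 3) (nat_lit 101) (nat_lit 2) (nat_lit 10) (.e false (nat_lit 2) (nat_lit 103) (nat_lit 2) (nat_lit 10) (.e false (nat_lit 3) (nat_lit 104) (nat_lit 2) (nat_lit 10) (.e false (nat_lit 1) (nat_lit 105) (nat_lit 2) (nat_lit 10) (.e true (nat_lit 2) (nat_lit 106) (nat_lit 2) (nat_lit 10) (.e true (nat_lit 2) (nat_lit 107) (nat_lit 2) (nat_lit 10) (.e true (nat_lit 2) (nat_lit 111) (nat_lit 2) (nat_lit 10) (.e false (nat_lit 2) (nat_lit 117) (nat_lit 2) (nat_lit 10) (.e false (nat_lit 1) (nat_lit 31) (nat_lit 12) (nat_lit 2) (.e false (nat_lit 1) (nat_lit 102) (nat_lit 2) (nat_lit 10) (.e false (nat_lit 2) (nat_lit 115) (nat_lit 2) (nat_lit 10) (.e true (nat_lit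 2) (nat_lit 116) (nat_lit 2) (nat_lit 10) (.u (nat_lit 2) (.p (nat_lit 0) (nat_lit 1) (.n (nat_lit 2) (nat_lit 1) (.p (nat_lit 3) (nat_lit 2) (.p (nat_lit 4) (nat_lit 1) (.p (nat_lit 6) (nat_lit 1) (.p (nat_lit 8) (nat_lit 1) (.n (nat_lit 9) (nat_lit 3) (.n (nat_lit 10) (nat_lit 1) (.p (nat_lit 11) (nat_lit 1) (.n (nat_lit 14) (nat_lit 1) (.n (nat_lit 17) (nat_lit 1) (.p (nat_lit 20) (nat_lit 2) (.n (nat_lit 96) (nat_lit 1) (.n (nat_lit 100) (nat_lit 1) (.p (nat_lit 105) (nat_lit 1) (.p (nat_lit 110) (nat_lit 1) .z)))))))))))))))) .nil)))))))))))))))))))))))))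

noncomputable def dR2_i36 : IL := (.e true (nat_lit 2) (nat_lit 104) (nat_lit 2) (nat_lit 10) (.e false (nat_lit 2) (nat_lit 105) (nat_lit 2) (nat_lit 10) (.e true (nat_lit 1) (nat_lit 106) (nat_lit 2) (nat_lit 10) (.e false (nat_lit 3) (nat_lit 108) (nat_lit 2) (nat_lit 10) (.e true (nat_lit 2) (nat_lit 109) (nat_lit 2) (nat_lit 10) (.e false (nat_lit 1) (nat_lit 110) (nat_lit 2) (nat_lit 10) (.e false (nat_lit 1) (nat_lit 111) (nat_lit 2) (nat_lit 10) (.e false (nat_lit 3) (nat_lit 114) (nat_lit 2) (nat_lit 10) (.e true (nat_lit 1) (nat_lit 115) (nat_lit 2) (nat_lit 10) (.e false (nat_lit 1) (nat_lit 116) (nat_lit 2) (nat_lit 10) (.e false (nat_lit 1) (nat_lit 117) (nat_lit 2) (nat_lit 10) (.e true (nat_lit 1) (nat_lit 127) (nat_lit 1) (nat_lit 11) (.e true (nat_lit 2) (nat_lit 130) (nat_lit 1) (nat_lit 11) (.e true (nat_lit 1) (nat_lit 131) (nat_lit 1) (nat_lit 11) (.e false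 (nat_lit 1) (nat_lit 132) (nat_lit 1) (nat_lit 11) (.e false (nat_lit 2) (nat_lit 133) (nat_lit 1) (nat_lit 11) (.e false (nat_lit 3) (nat_lit 134) (nat_lit 1) (nat_lit 11) (.e true (nat_lit 1) (nat_lit 135) (nat_lit 1) (nat_lit 11) (.e false (nat_lit 1) (nat_lit 78) (nat_lit 3) (nat_lit 9) (.e true (nat_lit 2) (nat_lit 129) (nat_lit 1) (nat_lit 11) (.e true (nat_lit 1) (nat_lit 139) (nat_lit 1) (nat_lit 11) (.e false (nat_lit 2) (nat_lit 101) (nat_lit 2) (nat_lit 10) (.e true (nat_lit 3) (nat_lit 107) (nat_lit 2) (nat_lit 10) (.e true (nat_lit 1) (nat_lit 144) (nat_lit 0) (nat_lit 12) (.u (nat_lit 2) (.p (nat_lit 0) (nat_lit 2) (.p (nat_lit 1) (nat_lit 2) (.n (nat_lit 2) (nat_lit 2) (.n (nat_lit 3) (nat_lit 2) (.n (nat_lit 4) (nat_lit 2) (.n (nat_lit 5) (nat_lit 3) (.n (nat_lit 6) (nat_lit 2) (.p (nat_lit 7) (nat_lit 2) (.p (nat_lit 8) (nat_lit 2) (.p (nat_lit 9) (nat_lit 2) (.p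 (nat_lit 10) (nat_lit 1) (.n (nat_lit 11) (nat_lit 3) (.p (nat_lit 12) (nat_lit 2) (.p (nat_lit 14) (nat_lit 1) (.p (nat_lit 15) (nat_lit 1) (.p (nat_lit 17) (nat_lit 3) (.n (nat_lit 20) (nat_lit 1) (.p (nat_lit 21) (nat_lit 1) (.p (nat_lit 22) (nat_lit 1) (.n (nat_lit 23) (nat_lit 1) (.n (nat_lit 27) (nat_lit 2) (.n (nat_lit 29) (nat_lit 1) (.p (nat_lit 96) (nat_lit 1) (.p (nat_lit 97) (nat_lit 1) (.n (nat_lit 102) (nat_lit 1) (.p (nat_lit 103) (nat_lit 1) (.n (nat_lit 113) (nat_lit 1) (.p (nat_lit 114) (nat_lit 1) (.p (nat_lit 120) (nat_lit 1) (.n (nat_lit 126) (nat_lit 1) (.n (nat_lit 127) (nat_lit 1) .z))))))))))))))))))))))))))))))) .nil)))))))))))))))))))))))))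

noncomputable def dR2_i37 : IL := (.e true (nat_lit 1) (nat_lit 99) (nat_lit 2) (nat_lit 10) (.e false (nat_lit 1) (nat_lit 105) (nat_lit 2) (nat_lit 10) (.e true (nat_lit 3) (nat_lit 108) (nat_lit 2) (nat_lit 10) (.e false (nat_lit 3) (nat_lit 109) (nat_lit 2) (nat_lit 10) (.e false (nat_lit 3) (nat_lit 44) (nat_lit 6) (nat_lit 6) (.e false (nat_lit 1) (nat_lit 46) (nat_lit 6) (nat_lit 6) (.e true (nat_lit 1) (nat_lit 48) (nat_lit 6) (nat_lit 6) (.e true (nat_lit 2) (nat_lit 53) (nat_lit 6) (nat_lit 6) (.e false (nat_lit 3) (nat_lit 52) (nat_lit 6) (nat_lit 6) (.e false (nat_lit 2) (nat_lit 132) (nat_lit 1) (nat_lit 11) (.e false (nat_lit 3) (nat_lit 45) (nat_lit 6) (nat_lit 6) (.e true (nat_lit 2) (nat_lit 134) (nat_lit 1) (nat_lit 11) (.e true (nat_lit 1) (nat_lit 111) (nat_lit 2) (nat_lit 10) (.e false (nat_lit 3) (nat_lit 116) (nat_lit 2) (nat_lit 10) (.e false (nat_lit 3)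 (nat_lit 20) (nat_lit 16) (nat_lit 0) (.e false (nat_lit 2) (nat_lit 124) (nat_lit 1) (nat_lit 11) (.e true (nat_lit 3) (nat_lit 125) (nat_lit 1) (nat_lit 11) (.e false (nat_lit 2) (nat_lit 127) (nat_lit 1) (nat_lit 11) (.e true (nat_lit 1) (nat_lit 139) (nat_lit 1) (nat_lit 11) (.e true (nat_lit 1) (nat_lit 130) (nat_lit 1) (nat_lit 11) (.e true (nat_lit 3) (nat_lit 136) (nat_lit 1) (nat_lit 11) (.e false (nat_lit 2) (nat_lit 37) (nat_lit 8) (nat_lit 4) (.e false (nat_lit 2) (nat_lit 18) (nat_lit 16) (nat_lit 0) (.e true (nat_lit 2) (nat_lit 81) (nat_lit 3) (nat_lit 9) (.u (nat_lit 2) (.p (nat_lit 0) (nat_lit 1) (.p (nat_lit 1) (nat_lit 1) (.p (nat_lit 3) (nat_lit 1) (.n (nat_lit 4) (nat_lit 1) (.p (nat_lit 5) (nat_lit 1) (.n (nat_lit 8) (nat_lit 1) (.n (nat_lit 10) (nat_lit 1) (.n (nat_lit 11) (nat_lit 1) (.p (nat_lit 17) (nat_lit 1) (.n (nat_lit 18) (nat_lit 1) (.p (nat_lit 20)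 (nat_lit 1) (.n (nat_lit 22) (nat_lit 1) (.p (nat_lit 26) (nat_lit 1) (.p (nat_lit 27) (nat_lit 1) (.p (nat_lit 28) (nat_lit 1) (.p (nat_lit 35) (nat_lit 1) (.p (nat_lit 38) (nat_lit 1) (.n (nat_lit 65) (nat_lit 1) (.n (nat_lit 66) (nat_lit 1) (.p (nat_lit 70) (nat_lit 1) (.n (nat_lit 75) (nat_lit 1) (.p (nat_lit 77) (nat_lit 1) (.n (nat_lit 85) (nat_lit 1) (.p (nat_lit 97) (nat_lit 1) (.n (nat_lit 98) (nat_lit 2) (.p (nat_lit 101) (nat_lit 2) (.p (nat_lit 102) (nat_lit 3) (.p (nat_lit 104) (nat_lit 2) (.p (nat_lit 107) (nat_lit 2) (.p (nat_lit 108) (nat_lit 1) (.p (nat_lit 109) (nat_lit 1) (.p (nat_lit 110) (nat_lit 1) (.n (nat_lit 111) (nat_lit 1) (.n (nat_lit 113) (nat_lit 2) (.p (nat_lit 114) (nat_lit 4) (.n (nat_lit 115) (nat_lit 2) (.n (nat_lit 116) (nat_lit 3) (.p (nat_lit 117) (nat_lit 2) (.p (nat_lit 118) (nat_lit 2) (.n (nat_lit 120) (nat_lit 1) (.p (nat_lit 121) (nat_lit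 1) (.p (nat_lit 122) (nat_lit 2) (.p (nat_lit 125) (nat_lit 1) (.p (nat_lit 131) (nat_lit 1) .z)))))))))))))))))))))))))))))))))))))))))))) .nil)))))))))))))))))))))))))

noncomputable def dR2_i38 : IL := (.s true (nat_lit 2) (nat_lit 16) (nat_lit 3) (nat_lit 1) (nat_lit 2) true (nat_lit 4) true (nat_lit 10) true (nat_lit 0) true (nat_lit 9) true (nat_lit 11) (.s false (nat_lit 2) (nat_lit 24) (nat_lit 1) (nat_lit 2) (nat_lit 2) true (nat_lit 7) true (nat_lit 10) false (nat_lit 1) true (nat_lit 11) true (nat_lit 10) (.s false (nat_lit 3) (nat_lit 27) (nat_lit 1) (nat_lit 2) (nat_lit 2) true (nat_lit 7) true (nat_lit 10) false (nat_lit 1) true (nat_lit 11) true (nat_lit 10) (.s false (nat_lit 1) (nat_lit 28) (nat_lit 1) (nat_lit 2) (nat_lit 2) true (nat_lit 7) true (nat_lit 10) false (nat_lit 1) true (nat_lit 11) true (nat_lit 10) (.s true (nat_lit 2) (nat_lit 24) (nat_lit 2) (nat_lit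 1) (nat_lit 2) true (nat_lit 6) true (nat_lit 10) false (nat_lit 1) true (nat_lit 10) true (nat_lit 11) (.s true (nat_lit 3) (nat_lit 27) (nat_lit 2) (nat_lit 1) (nat_lit 2) true (nat_lit 6) true (nat_lit 10) false (nat_lit 1) true (nat_lit 10) true (nat_lit 11) (.s false (nat_lit 1) (nat_lit 24) (nat_lit 2) (nat_lit 2) (nat_lit 1) true (nat_lit 7) true (nat_lit 11) false (nat_lit 1) true (nat_lit 10) true (nat_lit 10) (.s true (nat_lit 1) (nat_lit 26) (nat_lit 2) (nat_lit 2) (nat_lit 1) true (nat_lit 7) true (nat_lit 11) false (nat_lit 1) true (nat_lit 10) true (nat_lit 10) (.s true (nat_lit 2) (nat_lit 27) (nat_lit 2) (nat_lit 2) (nat_lit 1) true (nat_lit 7) true (nat_lit 11) false (nat_lit 1) true (nat_lit 10) true (nat_lit 10) (.s true (nat_lit 1) (nat_lit 28) (nat_lit 2) (nat_lit 2) (nat_lit 1) true (nat_lit 7) true (nat_lit 11) false (nat_lit 1) true (nat_lit 10) true (nat_lit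 10) (.s true (nat_lit 1) (nat_lit 32) (nat_lit 1) (nat_lit 1) (nat_lit 2) true (nat_lit 7) true (nat_lit 10) false (nat_lit 3) true (nat_lit 11) true (nat_lit 11) (.s true (nat_lit 1) (nat_lit 35) (nat_lit 2) (nat_lit 1) (nat_lit 0) true (nat_lit 8) true (nat_lit 12) false (nat_lit 4) true (nat_lit 10) true (nat_lit 11) (.e true (nat_lit 1) (nat_lit 23) (nat_lit 14) (nat_lit 1) (.e false (nat_lit 1) (nat_lit 58) (nat_lit 5) (nat_lit 7) (.e true (nat_lit 3) (nat_lit 97) (nat_lit 2) (nat_lit 10) (.e true (nat_lit 2) (nat_lit 98) (nat_lit 2) (nat_lit 10) (.e true (nat_lit 2) (nat_lit 101) (nat_lit 2) (nat_lit 10) (.e true (nat_lit 1) (nat_lit 103) (nat_lit 2) (nat_lit 10) (.e false (nat_lit 1) (nat_lit 104) (nat_lit 2) (nat_lit 10) (.e false (nat_lit 3) (nat_lit 106) (nat_lit 2) (nat_lit 10) (.e false (nat_lit 2) (nat_lit 107) (nat_lit 2) (nat_lit 10) (.e false (nat_lit 2) (nat_lit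 112) (nat_lit 2) (nat_lit 10) (.e false (nat_lit 1) (nat_lit 114) (nat_lit 2) (nat_lit 10) (.e true (nat_lit 2) (nat_lit 115) (nat_lit 2) (nat_lit 10) (.e false (nat_lit 3) (nat_lit 117) (nat_lit 2) (nat_lit 10) dR2_i37)))))))))))))))))))))))))

noncomputable def dR2_t0 : Tr := (.nd (.nd (.nd (.nd (.nd (.nd (.nd .leaf (nat_lit 1024) (nat_lit 0) (.p (nat_lit 3) (nat_lit 1) .z) .df .leaf) (nat_lit 2048) (nat_lit 1) (.p (nat_lit 4) (nat_lit 1) .z) .df (.nd .leaf (nat_lit 2049) (nat_lit 2) (.p (nat_lit 5) (nat_lit 1) .z) .df .leaf)) (nat_lit 2050) (nat_lit 3) (.p (nat_lit 6) (nat_lit 1) .z) .df (.nd (.nd .leaf (nat_lit 3073) (nat_lit 4) (.p (nat_lit 7) (nat_lit 1) .z) .df .leaf) (nat_lit 3074) (nat_lit 5) (.p (nat_lit 8) (nat_lit 1) .z) .df (.nd .leaf (nat_lit 4097) (nat_lit 6) (.p (nat_lit 9) (nat_lit 1) .z) .df .leaf))) (nat_lit 4098) (nat_lit 9) (.p (nat_lit 12) (nat_lit 1) .z) .df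 (.nd (.nd (.nd .leaf (nat_lit 5120) (nat_lit 7) (.p (nat_lit 10) (nat_lit 1) .z) .df .leaf) (nat_lit 5121) (nat_lit 8) (.p (nat_lit 11) (nat_lit 1) .z) .df (.nd .leaf (nat_lit 5122) (nat_lit 11) (.p (nat_lit 14) (nat_lit 1) .z) .df .leaf)) (nat_lit 5123) (nat_lit 20) (.p (nat_lit 18) (nat_lit 1) (.n (nat_lit 20) (nat_lit 1) (.p (nat_lit 21) (nat_lit 1) .z))) (.ct dR2_c289 (nat_lit 1) (nat_lit 0) (.s true (nat_lit 1) (nat_lit 2) (nat_lit 0) (nat_lit 1) (nat_lit 1) true (nat_lit 0) true (nat_lit 2) true (nat_lit 1) true (nat_lit 3) true (nat_lit 2) (.e true (nat_lit 1) (nat_lit 9) (nat_lit 1) (nat_lit 2) (.e false (nat_lit 1) (nat_lit 7) (nat_lit 2) (nat_lit 1) (.e false (nat_lit 1) (nat_lit 10) (nat_lit 1) (nat_lit 2) .nil))))) (.nd (.nd .leaf (nat_lit 5124) (nat_lit 29) (.n (nat_lit 23) (nat_lit 1) (.n (nat_lit 24) (nat_lit 1) (.p (nat_lit 27) (nat_lit 1) (.n (nat_lit 28) (nat_lit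 1) .z)))) (.ct dR2_c274 (nat_lit 1) (nat_lit 0) (.s true (nat_lit 1) (nat_lit 2) (nat_lit 0) (nat_lit 1) (nat_lit 2) true (nat_lit 0) true (nat_lit 2) true (nat_lit 2) true (nat_lit 4) true (nat_lit 3) (.e true (nat_lit 1) (nat_lit 9) (nat_lit 2) (nat_lit 2) (.e true (nat_lit 1) (nat_lit 8) (nat_lit 2) (nat_lit 2) (.e true (nat_lit 1) (nat_lit 14) (nat_lit 0) (nat_lit 4) (.e false (nat_lit 1) (nat_lit 13) (nat_lit 1) (nat_lit 3) .nil)))))) .leaf) (nat_lit 5125) (nat_lit 34) (.n (nat_lit 29) (nat_lit 1) (.n (nat_lit 30) (nat_lit 1) (.p (nat_lit 31) (nat_lit 1) .z))) (.ct dR2_c34 (nat_lit 1) (nat_lit 0) (.s true (nat_lit 1) (nat_lit 2) (nat_lit 1) (nat_lit 1) (nat_lit 2) true (nat_lit 0) true (nat_lit 1) true (nat_lit 1) true (nat_lit 2) true (nat_lit 2) (.e true (nat_lit 1) (nat_lit 11) (nat_lit 2) (nat_lit 1) (.e true (nat_lit 1) (nat_lit 14) (nat_lit 1) (nat_lit 2) (.e false (nat_lit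 1) (nat_lit 15) (nat_lit 1) (nat_lit 2) .nil))))) .leaf))) (nat_lit 6144) (nat_lit 10) (.p (nat_lit 13) (nat_lit 1) .z) .df (.nd (.nd (.nd (.nd .leaf (nat_lit 6145) (nat_lit 12) (.p (nat_lit 15) (nat_lit 1) .z) .df .leaf) (nat_lit 6146) (nat_lit 13) (.p (nat_lit 16) (nat_lit 1) .z) .df (.nd .leaf (nat_lit 6147) (nat_lit 28) (.n (nat_lit 24) (nat_lit 1) (.p (nat_lit 25) (nat_lit 1) (.n (nat_lit 26) (nat_lit 1) (.p (nat_lit 28) (nat_lit 1) .z)))) (.ct dR2_c274 (nat_lit 1) (nat_lit 1) (.s true (nat_lit 1) (nat_lit 2) (nat_lit 0) (nat_lit 2) (nat_lit 1) true (nat_lit 1) true (nat_lit 3) true (nat_lit 2) true (nat_lit 4) true (nat_lit 2) (.e true (nat_lit 1) (nat_lit 12) (nat_lit 1) (nat_lit 3) (.e true (nat_lit 1) (nat_lit 9) (nat_lit 2) (nat_lit 2) (.e false (nat_lit 1) (nat_lit 14) (nat_lit 0) (nat_lit 4) (.e false (nat_lit 1) (nat_lit 10) (nat_lit 2) (nat_lit 2) .nil)))))) .leaf))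 (nat_lit 6148) (nat_lit 38) (.n (nat_lit 33) (nat_lit 1) (.n (nat_lit 34) (nat_lit 1) .z)) (.ct dR2_c259 (nat_lit 1) (nat_lit 0) (.s true (nat_lit 1) (nat_lit 2) (nat_lit 0) (nat_lit 2) (nat_lit 2) true (nat_lit 0) true (nat_lit 1) true (nat_lit 1) true (nat_lit 2) true (nat_lit 1) (.e true (nat_lit 1) (nat_lit 16) (nat_lit 0) (nat_lit 2) (.e true (nat_lit 1) (nat_lit 13) (nat_lit 2) (nat_lit 1) .nil)))) (.nd (.nd .leaf (nat_lit 6149) (nat_lit 42) (.n (nat_lit 36) (nat_lit 1) (.n (nat_lit 37) (nat_lit 1) .z)) (.ct dR2_c19 (nat_lit 1) (nat_lit 0) (.s true (nat_lit 1) (nat_lit 2) (nat_lit 1) (nat_lit 2) (nat_lit 2) true (nat_lit 0) true (nat_lit 1) true (nat_lit 1) true (nat_lit 2) true (nat_lit 1) (.e true (nat_lit 1) (nat_lit 16) (nat_lit 1) (nat_lit 2) (.e true (nat_lit 1) (nat_lit 15) (nat_lit 2) (nat_lit 1) .nil)))) .leaf) (nat_lit 7169) (nat_lit 14) (.p (nat_lit 17) (nat_lit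 1) .z) .df (.nd .leaf (nat_lit 7170) (nat_lit 15) (.p (nat_lit 18) (nat_lit 1) .z) .df .leaf))) (nat_lit 7173) (nat_lit 48) (.p (nat_lit 43) (nat_lit 1) .z) .df (.nd (.nd (.nd .leaf (nat_lit 7174) (nat_lit 60) (.p (nat_lit 52) (nat_lit 1) .z) .df .leaf) (nat_lit 8193) (nat_lit 16) (.p (nat_lit 19) (nat_lit 1) .z) .df (.nd .leaf (nat_lit 8194) (nat_lit 22) (.p (nat_lit 23) (nat_lit 1) .z) .df .leaf)) (nat_lit 8197) (nat_lit 61) (.p (nat_lit 53) (nat_lit 1) .z) .df (.nd (.nd .leaf (nat_lit 8198) (nat_lit 85) (.p (nat_lit 66) (nat_lit 1) .z) .df .leaf) (nat_lit 9217) (nat_lit 17) (.p (nat_lit 20) (nat_lit 1) .z) .df .leaf)))) (nat_lit 9218) (nat_lit 23) (.p (nat_lit 24) (nat_lit 1) .z) .df (.nd (.nd (.nd (.nd (.nd .leaf (nat_lit 9221) (nat_lit 62) (.p (nat_lit 54) (nat_lit 1) .z) .df .leaf) (nat_lit 9222) (nat_lit 86) (.p (nat_lit 67) (nat_lit 1) .z) .df (.nd .leaf (nat_lit 10241) (nat_lit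 18) (.p (nat_lit 21) (nat_lit 1) .z) .df .leaf)) (nat_lit 10242) (nat_lit 24) (.p (nat_lit 25) (nat_lit 1) .z) .df (.nd (.nd .leaf (nat_lit 10245) (nat_lit 68) (.n (nat_lit 44) (nat_lit 1) (.n (nat_lit 45) (nat_lit 1) (.n (nat_lit 48) (nat_lit 1) (.p (nat_lit 50) (nat_lit 1) (.n (nat_lit 51) (nat_lit 1) (.p (nat_lit 52) (nat_lit 1) (.n (nat_lit 54) (nat_lit 1) .z))))))) (.ct dR2_c290 (nat_lit 1) (nat_lit 1) (.s false (nat_lit 1) (nat_lit 5) (nat_lit 2) (nat_lit 0) (nat_lit 1) true (nat_lit 1) true (nat_lit 5) true (nat_lit 1) true (nat_lit 4) true (nat_lit 6) (.e false (nat_lit 1) (nat_lit 28) (nat_lit 1) (nat_lit 5) (.e true (nat_lit 1) (nat_lit 9) (nat_lit 5) (nat_lit 1) (.e false (nat_lit 1) (nat_lit 18) (nat_lit 2) (nat_lit 4) (.e true (nat_lit 1) (nat_lit 20) (nat_lit 2) (nat_lit 4) (.e false (nat_lit 1) (nat_lit 21) (nat_lit 2) (nat_lit 4) (.e true (nat_lit 1) (nat_lit 29)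 (nat_lit 0) (nat_lit 6) .nil)))))))) .leaf) (nat_lit 10246) (nat_lit 87) (.p (nat_lit 68) (nat_lit 1) .z) .df (.nd .leaf (nat_lit 11264) (nat_lit 19) (.p (nat_lit 18) (nat_lit 1) (.n (nat_lit 19) (nat_lit 1) (.p (nat_lit 21) (nat_lit 1) .z))) (.ct dR2_c289 (nat_lit 1) (nat_lit 3) (.s false (nat_lit 1) (nat_lit 2) (nat_lit 1) (nat_lit 0) (nat_lit 1) false (nat_lit 4) true (nat_lit 2) true (nat_lit 1) true (nat_lit 2) true (nat_lit 3) (.e false (nat_lit 1) (nat_lit 10) (nat_lit 1) (nat_lit 2) (.e false (nat_lit 1) (nat_lit 7) (nat_lit 2) (nat_lit 1) (.e true (nat_lit 1) (nat_lit 8) (nat_lit 1) (nat_lit 2) .nil))))) .leaf))) (nat_lit 11265) (nat_lit 21) (.p (nat_lit 22) (nat_lit 1) .z) .df (.nd (.nd (.nd .leaf (nat_lit 11266) (nat_lit 31) (.p (nat_lit 29) (nat_lit 1) .z) .df .leaf) (nat_lit 11267) (nat_lit 49) (.p (nat_lit 40) (nat_lit 1) (.n (nat_lit 41) (nat_lit 1) (.p (nat_lit 43)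 (nat_lit 1) .z))) (.ct dR2_c305 (nat_lit 1) (nat_lit 1) (.s true (nat_lit 1) (nat_lit 3) (nat_lit 2) (nat_lit 1) (nat_lit 1) true (nat_lit 0) true (nat_lit 3) true (nat_lit 1) true (nat_lit 2) true (nat_lit 3) (.e false (nat_lit 1) (nat_lit 7) (nat_lit 5) (nat_lit 0) (.e true (nat_lit 1) (nat_lit 19) (nat_lit 1) (nat_lit 3) (.e false (nat_lit 1) (nat_lit 18) (nat_lit 1) (nat_lit 3) .nil))))) (.nd .leaf (nat_lit 11268) (nat_lit 65) (.n (nat_lit 49) (nat_lit 1) (.p (nat_lit 50) (nat_lit 1) (.n (nat_lit 54) (nat_lit 1) .z))) (.ct dR2_c290 (nat_lit 1) (nat_lit 2) (.s false (nat_lit 1) (nat_lit 4) (nat_lit 2) (nat_lit 1) (nat_lit 1) true (nat_lit 1) true (nat_lit 5) true (nat_lit 2) true (nat_lit 4) true (nat_lit 5) (.e true (nat_lit 1) (nat_lit 9) (nat_lit 5) (nat_lit 1) (.e false (nat_lit 1) (nat_lit 26) (nat_lit 1) (nat_lit 5) (.e true (nat_lit 1) (nat_lit 24) (nat_lit 1) (nat_lit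 5) .nil))))) .leaf)) (nat_lit 11269) (nat_lit 75) (.p (nat_lit 56) (nat_lit 3) (.n (nat_lit 57) (nat_lit 3) .z)) (.ct dR2_c50 (nat_lit 1) (nat_lit 0) (.s true (nat_lit 3) (nat_lit 5) (nat_lit 2) (nat_lit 1) (nat_lit 1) true (nat_lit 0) true (nat_lit 2) true (nat_lit 0) true (nat_lit 1) true (nat_lit 2) (.e true (nat_lit 3) (nat_lit 30) (nat_lit 1) (nat_lit 2) (.e false (nat_lit 3) (nat_lit 29) (nat_lit 1) (nat_lit 2) (.u (nat_lit 2) (.p (nat_lit 3) (nat_lit 1) .z) .nil))))) (.nd (.nd .leaf (nat_lit 11270) (nat_lit 104) (.p (nat_lit 69) (nat_lit 1) (.p (nat_lit 70) (nat_lit 1) (.n (nat_lit 71) (nat_lit 1) (.p (nat_lit 73) (nat_lit 1) .z)))) (.ct dR2_c35 (nat_lit 1) (nat_lit 0) (.s false (nat_lit 1) (nat_lit 6) (nat_lit 1) (nat_lit 2) (nat_lit 1) false (nat_lit 4) true (nat_lit 3) true (nat_lit 0) true (nat_lit 3) true (nat_lit 2) (.e false (nat_lit 2) (nat_lit 36) (nat_lit 1) (nat_lit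 3) (.e false (nat_lit 1) (nat_lit 37) (nat_lit 1) (nat_lit 3) (.e true (nat_lit 1) (nat_lit 31) (nat_lit 2) (nat_lit 2) .nil))))) .leaf) (nat_lit 11272) (nat_lit 139) (.p (nat_lit 84) (nat_lit 1) (.n (nat_lit 88) (nat_lit 1) (.p (nat_lit 94) (nat_lit 1) .z))) (.ct dR2_c306 (nat_lit 1) (nat_lit 0) (.s true (nat_lit 1) (nat_lit 8) (nat_lit 1) (nat_lit 2) (nat_lit 1) false (nat_lit 9) true (nat_lit 7) true (nat_lit 0) true (nat_lit 7) true (nat_lit 6) (.e true (nat_lit 1) (nat_lit 45) (nat_lit 1) (nat_lit 7) (.e false (nat_lit 1) (nat_lit 53) (nat_lit 1) (nat_lit 7) (.e false (nat_lit 1) (nat_lit 41) (nat_lit 2) (nat_lit 6) .nil))))) .leaf))) (nat_lit 11273) (nat_lit 142) (.p (nat_lit 85) (nat_lit 1) (.n (nat_lit 89) (nat_lit 1) (.p (nat_lit 95) (nat_lit 1) .z))) (.ct dR2_c306 (nat_lit 1) (nat_lit 0) (.s true (nat_lit 1) (nat_lit 9) (nat_lit 1) (nat_lit 2) (nat_lit 1) false (nat_lit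 9) true (nat_lit 7) true (nat_lit 0) true (nat_lit 7) true (nat_lit 6) (.e true (nat_lit 1) (nat_lit 46) (nat_lit 1) (nat_lit 7) (.e false (nat_lit 1) (nat_lit 54) (nat_lit 1) (nat_lit 7) (.e false (nat_lit 1) (nat_lit 42) (nat_lit 2) (nat_lit 6) .nil))))) (.nd (.nd (.nd (.nd .leaf (nat_lit 11274) (nat_lit 149) (.n (nat_lit 82) (nat_lit 2) (.p (nat_lit 83) (nat_lit 3) (.n (nat_lit 84) (nat_lit 1) (.p (nat_lit 85) (nat_lit 1) (.n (nat_lit 86) (nat_lit 3) (.p (nat_lit 87) (nat_lit 1) (.n (nat_lit 88) (nat_lit 2) (.n (nat_lit 89) (nat_lit 1) (.p (nat_lit 90) (nat_lit 3) (.p (nat_lit 93) (nat_lit 3) (.p (nat_lit 94) (nat_lit 3) (.p (nat_lit 95) (nat_lit 1) (.p (nat_lit 96) (nat_lit 3) .z))))))))))))) (.ct dR2_c306 (nat_lit 1) (nat_lit 0) (.s false (nat_lit 1) (nat_lit 10) (nat_lit 2) (nat_lit 1) (nat_lit 1) true (nat_lit 3) true (nat_lit 7) true (nat_lit 0) true (nat_lit 6) true (nat_lit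 7) (.e true (nat_lit 1) (nat_lit 21) (nat_lit 5) (nat_lit 3) (.e true (nat_lit 1) (nat_lit 45) (nat_lit 1) (nat_lit 7) (.e false (nat_lit 1) (nat_lit 49) (nat_lit 1) (nat_lit 7) (.e true (nat_lit 1) (nat_lit 53) (nat_lit 1) (nat_lit 7) (.e true (nat_lit 1) (nat_lit 47) (nat_lit 1) (nat_lit 7) (.u (nat_lit 2) (.n (nat_lit 11) (nat_lit 1) (.n (nat_lit 12) (nat_lit 1) (.n (nat_lit 14) (nat_lit 1) .z))) .nil)))))))) .leaf) (nat_lit 12289) (nat_lit 25) (.p (nat_lit 26) (nat_lit 1) .z) .df (.nd .leaf (nat_lit 12290) (nat_lit 35) (.p (nat_lit 32) (nat_lit 1) .z) .df .leaf)) (nat_lit 12293) (nat_lit 91) (.n (nat_lit 58) (nat_lit 1) (.n (nat_lit 59) (nat_lit 1) (.p (nat_lit 62) (nat_lit 1) (.n (nat_lit 63) (nat_lit 2) (.n (nat_lit 65) (nat_lit 1) (.p (nat_lit 68) (nat_lit 1) .z)))))) (.ct dR2_c275 (nat_lit 1) (nat_lit 1) (.s true (nat_lit 1) (nat_lit 5) (nat_lit 2) (nat_lit 0) (nat_lit 2)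 true (nat_lit 0) true (nat_lit 4) true (nat_lit 1) true (nat_lit 4) true (nat_lit 6) (.e false (nat_lit 1) (nat_lit 10) (nat_lit 6) (nat_lit 0) (.e true (nat_lit 2) (nat_lit 28) (nat_lit 2) (nat_lit 4) (.e true (nat_lit 1) (nat_lit 23) (nat_lit 2) (nat_lit 4) (.e true (nat_lit 1) (nat_lit 24) (nat_lit 2) (nat_lit 4) (.e false (nat_lit 1) (nat_lit 27) (nat_lit 2) (nat_lit 4) (.e true (nat_lit 1) (nat_lit 35) (nat_lit 0) (nat_lit 6) .nil)))))))) (.nd (.nd .leaf (nat_lit 12294) (nat_lit 109) (.p (nat_lit 77) (nat_lit 1) .z) .df .leaf) (nat_lit 12299) (nat_lit 184) (.p (nat_lit 97) (nat_lit 2) (.p (nat_lit 98) (nat_lit 2) (.n (nat_lit 99) (nat_lit 1) (.p (nat_lit 100) (nat_lit 1) (.p (nat_lit 101) (nat_lit 1) (.n (nat_lit 102) (nat_lit 1) (.p (nat_lit 103) (nat_lit 1) (.n (nat_lit 104) (nat_lit 1) (.p (nat_lit 106) (nat_lit 1) (.n (nat_lit 107) (nat_lit 1) (.n (nat_lit 111) (nat_lit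 1) (.n (nat_lit 113) (nat_lit 1) (.n (nat_lit 114) (nat_lit 1) (.n (nat_lit 115) (nat_lit 1) (.p (nat_lit 116) (nat_lit 1) (.p (nat_lit 117) (nat_lit 1) .z)))))))))))))))) (.ct dR2_c291 (nat_lit 1) (nat_lit 0) (.s true (nat_lit 1) (nat_lit 11) (nat_lit 2) (nat_lit 0) (nat_lit 2) true (nat_lit 3) true (nat_lit 7) true (nat_lit 0) true (nat_lit 7) true (nat_lit 9) (.e false (nat_lit 1) (nat_lit 18) (nat_lit 6) (nat_lit 3) (.e true (nat_lit 1) (nat_lit 19) (nat_lit 6) (nat_lit 3) (.e false (nat_lit 1) (nat_lit 21) (nat_lit 6) (nat_lit 3) (.e true (nat_lit 1) (nat_lit 51) (nat_lit 2) (nat_lit 7) (.e true (nat_lit 1) (nat_lit 49) (nat_lit 2) (nat_lit 7) (.e false (nat_lit 1) (nat_lit 50) (nat_lit 2) (nat_lit 7) (.e true (nat_lit 1) (nat_lit 54) (nat_lit 2) (nat_lit 7) (.e true (nat_lit 1) (nat_lit 69) (nat_lit 0) (nat_lit 9) .nil)))))))))) .leaf)) (nat_lit 13313) (nat_lit 26) (.p (nat_lit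 27) (nat_lit 1) .z) .df (.nd (.nd (.nd .leaf (nat_lit 13314) (nat_lit 36) (.p (nat_lit 33) (nat_lit 1) .z) .df .leaf) (nat_lit 13317) (nat_lit 90) (.p (nat_lit 58) (nat_lit 2) (.p (nat_lit 59) (nat_lit 2) (.p (nat_lit 60) (nat_lit 1) (.p (nat_lit 61) (nat_lit 1) (.n (nat_lit 62) (nat_lit 2) (.p (nat_lit 63) (nat_lit 2) (.p (nat_lit 64) (nat_lit 1) (.n (nat_lit 65) (nat_lit 1) (.n (nat_lit 67) (nat_lit 1) .z))))))))) (.ct dR2_c275 (nat_lit 1) (nat_lit 1) (.s true (nat_lit 1) (nat_lit 5) (nat_lit 2) (nat_lit 2) (nat_lit 0) true (nat_lit 2) true (nat_lit 6) true (nat_lit 1) true (nat_lit 4) true (nat_lit 4) (.e true (nat_lit 1) (nat_lit 14) (nat_lit 4) (nat_lit 2) (.e true (nat_lit 1) (nat_lit 35) (nat_lit 0) (nat_lit 6) (.e false (nat_lit 1) (nat_lit 23) (nat_lit 2) (nat_lit 4) (.e false (nat_lit 1) (nat_lit 24) (nat_lit 2) (nat_lit 4) (.e true (nat_lit 1) (nat_lit 27) (nat_lit 2)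 (nat_lit 4) (.e false (nat_lit 1) (nat_lit 28) (nat_lit 2) (nat_lit 4) (.e false (nat_lit 1) (nat_lit 25) (nat_lit 2) (nat_lit 4) .nil))))))))) (.nd .leaf (nat_lit 13318) (nat_lit 111) (.p (nat_lit 75) (nat_lit 2) (.p (nat_lit 76) (nat_lit 2) .z)) (.ct dR2_c260 (nat_lit 1) (nat_lit 0) (.s true (nat_lit 3) (nat_lit 6) (nat_lit 2) (nat_lit 0) (nat_lit 2) true (nat_lit 0) true (nat_lit 2) true (nat_lit 0) true (nat_lit 2) true (nat_lit 3) (.s false (nat_lit 3) (nat_lit 6) (nat_lit 2) (nat_lit 2) (nat_lit 0) true (nat_lit 1) true (nat_lit 3) true (nat_lit 0) true (nat_lit 2) true (nat_lit 2) (.e true (nat_lit 2) (nat_lit 34) (nat_lit 2) (nat_lit 2) (.e true (nat_lit 3) (nat_lit 12) (nat_lit 6) (nat_lit 0) (.e true (nat_lit 2) (nat_lit 33) (nat_lit 2) (nat_lit 2) (.e false (nat_lit 3) (nat_lit 16) (nat_lit 4) (nat_lit 1) (.u (nat_lit 2) (.n (nat_lit 1) (nat_lit 1) (.n (nat_lit 2) (nat_lit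 1) (.p (nat_lit 5) (nat_lit 1) (.n (nat_lit 8) (nat_lit 1) (.n (nat_lit 9) (nat_lit 1) .z))))) .nil)))))))) .leaf)) (nat_lit 13323) (nat_lit 202) (.n (nat_lit 97) (nat_lit 3) (.p (nat_lit 98) (nat_lit 2) (.p (nat_lit 100) (nat_lit 2) (.p (nat_lit 101) (nat_lit 2) (.p (nat_lit 102) (nat_lit 2) (.n (nat_lit 103) (nat_lit 3) (.p (nat_lit 104) (nat_lit 3) (.n (nat_lit 105) (nat_lit 3) (.p (nat_lit 106) (nat_lit 1) (.n (nat_lit 107) (nat_lit 3) (.n (nat_lit 108) (nat_lit 3) (.p (nat_lit 109) (nat_lit 2) (.n (nat_lit 112) (nat_lit 1) (.n (nat_lit 113) (nat_lit 2) (.n (nat_lit 114) (nat_lit 1) (.p (nat_lit 115) (nat_lit 3) (.n (nat_lit 116) (nat_lit 1) (.n (nat_lit 117) (nat_lit 2) .z)))))))))))))))))) (.ct dR2_c291 (nat_lit 1) (nat_lit 0) (.s true (nat_lit 1) (nat_lit 11) (nat_lit 2) (nat_lit 2) (nat_lit 0) true (nat_lit 5) true (nat_lit 9) true (nat_lit 0) true (nat_lit 7) true (nat_lit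 7) (.e true (nat_lit 1) (nat_lit 29) (nat_lit 4) (nat_lit 5) (.e true (nat_lit 1) (nat_lit 69) (nat_lit 0) (nat_lit 9) (.e false (nat_lit 1) (nat_lit 49) (nat_lit 2) (nat_lit 7) (.e true (nat_lit 1) (nat_lit 50) (nat_lit 2) (nat_lit 7) (.e false (nat_lit 1) (nat_lit 54) (nat_lit 2) (nat_lit 7) (.e false (nat_lit 1) (nat_lit 44) (nat_lit 2) (nat_lit 7) (.e true (nat_lit 1) (nat_lit 45) (nat_lit 2) (nat_lit 7) (.e false (nat_lit 1) (nat_lit 47) (nat_lit 2) (nat_lit 7) (.u (nat_lit 2) (.p (nat_lit 0) (nat_lit 1) (.p (nat_lit 10) (nat_lit 1) .z)) .nil))))))))))) (.nd (.nd .leaf (nat_lit 14336) (nat_lit 27) (.p (nat_lit 28) (nat_lit 1) .z) .df .leaf) (nat_lit 14337) (nat_lit 32) (.p (nat_lit 30) (nat_lit 1) .z) .df .leaf))))) (nat_lit 14338) (nat_lit 39) (.p (nat_lit 35) (nat_lit 1) .z) .df (.nd (.nd (.nd (.nd (.nd (.nd .leaf (nat_lit 14339) (nat_lit 63) (.n (nat_lit 44) (nat_lit 1) (.n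 (nat_lit 45) (nat_lit 1) (.p (nat_lit 46) (nat_lit 1) (.n (nat_lit 47) (nat_lit 1) (.n (nat_lit 48) (nat_lit 1) (.p (nat_lit 52) (nat_lit 1) .z)))))) (.ct dR2_c290 (nat_lit 1) (nat_lit 3) (.s true (nat_lit 1) (nat_lit 3) (nat_lit 2) (nat_lit 1) (nat_lit 2) true (nat_lit 0) true (nat_lit 4) true (nat_lit 3) true (nat_lit 4) true (nat_lit 5) (.e false (nat_lit 1) (nat_lit 7) (nat_lit 6) (nat_lit 0) (.e true (nat_lit 1) (nat_lit 19) (nat_lit 2) (nat_lit 4) (.e true (nat_lit 1) (nat_lit 18) (nat_lit 2) (nat_lit 4) (.e false (nat_lit 1) (nat_lit 20) (nat_lit 2) (nat_lit 4) (.e true (nat_lit 1) (nat_lit 21) (nat_lit 2) (nat_lit 4) (.e true (nat_lit 1) (nat_lit 23) (nat_lit 1) (nat_lit 5) .nil)))))))) .leaf) (nat_lit 14340) (nat_lit 89) (.n (nat_lit 58) (nat_lit 1) (.n (nat_lit 59) (nat_lit 1) (.n (nat_lit 61) (nat_lit 1) (.p (nat_lit 62) (nat_lit 1) (.n (nat_lit 63) (nat_lit 1) (.n (nat_lit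 64) (nat_lit 1) (.p (nat_lit 67) (nat_lit 1) .z))))))) (.ct dR2_c275 (nat_lit 1) (nat_lit 2) (.s true (nat_lit 1) (nat_lit 4) (nat_lit 2) (nat_lit 1) (nat_lit 2) true (nat_lit 0) true (nat_lit 4) true (nat_lit 2) true (nat_lit 4) true (nat_lit 5) (.e false (nat_lit 1) (nat_lit 9) (nat_lit 6) (nat_lit 0) (.e true (nat_lit 1) (nat_lit 26) (nat_lit 2) (nat_lit 4) (.e true (nat_lit 1) (nat_lit 23) (nat_lit 2) (nat_lit 4) (.e true (nat_lit 1) (nat_lit 24) (nat_lit 2) (nat_lit 4) (.e false (nat_lit 1) (nat_lit 27) (nat_lit 2) (nat_lit 4) (.e true (nat_lit 1) (nat_lit 28) (nat_lit 2) (nat_lit 4) (.e true (nat_lit 1) (nat_lit 32) (nat_lit 1) (nat_lit 5) .nil))))))))) (.nd .leaf (nat_lit 14341) (nat_lit 105) (.n (nat_lit 70) (nat_lit 1) (.n (nat_lit 72) (nat_lit 1) (.p (nat_lit 73) (nat_lit 1) .z))) (.ct dR2_c35 (nat_lit 1) (nat_lit 1) (.s true (nat_lit 1) (nat_lit 5) (nat_lit 2) (nat_lit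 1) (nat_lit 2) true (nat_lit 0) true (nat_lit 2) true (nat_lit 1) true (nat_lit 2) true (nat_lit 3) (.e false (nat_lit 1) (nat_lit 11) (nat_lit 6) (nat_lit 0) (.e true (nat_lit 2) (nat_lit 30) (nat_lit 2) (nat_lit 2) (.e true (nat_lit 1) (nat_lit 29) (nat_lit 2) (nat_lit 2) (.e false (nat_lit 1) (nat_lit 31) (nat_lit 2) (nat_lit 2) (.e true (nat_lit 1) (nat_lit 35) (nat_lit 1) (nat_lit 3) .nil))))))) .leaf)) (nat_lit 14342) (nat_lit 116) (.p (nat_lit 81) (nat_lit 1) .z) .df (.nd (.nd .leaf (nat_lit 14343) (nat_lit 135) (.n (nat_lit 83) (nat_lit 1) (.p (nat_lit 86) (nat_lit 1) (.n (nat_lit 87) (nat_lit 1) (.p (nat_lit 96) (nat_lit 1) .z)))) (.ct dR2_c306 (nat_lit 1) (nat_lit 1) (.s true (nat_lit 1) (nat_lit 7) (nat_lit 2) (nat_lit 1) (nat_lit 2) true (nat_lit 2) true (nat_lit 6) true (nat_lit 1) true (nat_lit 6) true (nat_lit 7) (.e false (nat_lit 1) (nat_lit 17) (nat_lit 6) (nat_lit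 2) (.e true (nat_lit 1) (nat_lit 40) (nat_lit 2) (nat_lit 6) (.e false (nat_lit 1) (nat_lit 43) (nat_lit 2) (nat_lit 6) (.e true (nat_lit 1) (nat_lit 44) (nat_lit 1) (nat_lit 7) .nil)))))) .leaf) (nat_lit 14344) (nat_lit 175) (.n (nat_lit 101) (nat_lit 1) (.p (nat_lit 106) (nat_lit 1) (.n (nat_lit 108) (nat_lit 1) (.p (nat_lit 115) (nat_lit 1) .z)))) (.ct dR2_c291 (nat_lit 1) (nat_lit 1) (.s true (nat_lit 1) (nat_lit 8) (nat_lit 2) (nat_lit 1) (nat_lit 2) true (nat_lit 3) true (nat_lit 7) true (nat_lit 1) true (nat_lit 7) true (nat_lit 8) (.e false (nat_lit 1) (nat_lit 19) (nat_lit 6) (nat_lit 3) (.e true (nat_lit 1) (nat_lit 48) (nat_lit 2) (nat_lit 7) (.e false (nat_lit 1) (nat_lit 53) (nat_lit 2) (nat_lit 7) (.e true (nat_lit 1) (nat_lit 58) (nat_lit 1) (nat_lit 8) .nil)))))) (.nd .leaf (nat_lit 14345) (nat_lit 181) (.n (nat_lit 102) (nat_lit 1) (.p (nat_lit 107) (nat_lit 1) (.n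 (nat_lit 109) (nat_lit 1) (.p (nat_lit 116) (nat_lit 1) .z)))) (.ct dR2_c291 (nat_lit 1) (nat_lit 1) (.s true (nat_lit 1) (nat_lit 9) (nat_lit 2) (nat_lit 1) (nat_lit 2) true (nat_lit 3) true (nat_lit 7) true (nat_lit 1) true (nat_lit 7) true (nat_lit 8) (.e false (nat_lit 1) (nat_lit 20) (nat_lit 6) (nat_lit 3) (.e true (nat_lit 1) (nat_lit 49) (nat_lit 2) (nat_lit 7) (.e false (nat_lit 1) (nat_lit 54) (nat_lit 2) (nat_lit 7) (.e true (nat_lit 1) (nat_lit 59) (nat_lit 1) (nat_lit 8) .nil)))))) .leaf))) (nat_lit 14346) (nat_lit 189) (.p (nat_lit 98) (nat_lit 1) (.p (nat_lit 99) (nat_lit 1) (.n (nat_lit 100) (nat_lit 1) (.p (nat_lit 101) (nat_lit 2) (.n (nat_lit 102) (nat_lit 1) (.n (nat_lit 103) (nat_lit 3) (.p (nat_lit 104) (nat_lit 3) (.n (nat_lit 105) (nat_lit 2) (.n (nat_lit 106) (nat_lit 2) (.n (nat_lit 108) (nat_lit 1) (.n (nat_lit 109) (nat_lit 1) (.p (nat_lit 111) (nat_lit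 1) (.n (nat_lit 114) (nat_lit 3) (.n (nat_lit 115) (nat_lit 3) (.p (nat_lit 116) (nat_lit 1) .z))))))))))))))) (.ct dR2_c291 (nat_lit 1) (nat_lit 1) (.s true (nat_lit 1) (nat_lit 10) (nat_lit 2) (nat_lit 1) (nat_lit 2) true (nat_lit 3) true (nat_lit 7) true (nat_lit 1) true (nat_lit 7) true (nat_lit 8) (.e false (nat_lit 1) (nat_lit 21) (nat_lit 6) (nat_lit 3) (.e true (nat_lit 1) (nat_lit 49) (nat_lit 2) (nat_lit 7) (.e false (nat_lit 1) (nat_lit 53) (nat_lit 2) (nat_lit 7) (.e true (nat_lit 1) (nat_lit 44) (nat_lit 2) (nat_lit 7) (.e true (nat_lit 1) (nat_lit 48) (nat_lit 2) (nat_lit 7) (.e false (nat_lit 1) (nat_lit 50) (nat_lit 2) (nat_lit 7) (.e true (nat_lit 1) (nat_lit 51) (nat_lit 2) (nat_lit 7) (.e false (nat_lit 1) (nat_lit 52) (nat_lit 2) (nat_lit 7) (.e true (nat_lit 1) (nat_lit 54) (nat_lit 2) (nat_lit 7) (.e true (nat_lit 1) (nat_lit 60) (nat_lit 1) (nat_lit 8) (.u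 (nat_lit 2) (.p (nat_lit 6) (nat_lit 1) (.n (nat_lit 7) (nat_lit 1) (.p (nat_lit 9) (nat_lit 1) .z))) .nil))))))))))))) (.nd (.nd (.nd .leaf (nat_lit 14347) (nat_lit 211) (.p (nat_lit 119) (nat_lit 2) (.n (nat_lit 120) (nat_lit 3) (.n (nat_lit 121) (nat_lit 1) (.p (nat_lit 122) (nat_lit 1) .z)))) (.ct dR2_c51 (nat_lit 1) (nat_lit 0) (.s true (nat_lit 1) (nat_lit 11) (nat_lit 2) (nat_lit 1) (nat_lit 2) true (nat_lit 1) true (nat_lit 3) true (nat_lit 0) true (nat_lit 3) true (nat_lit 4) (.e false (nat_lit 1) (nat_lit 22) (nat_lit 6) (nat_lit 1) (.e false (nat_lit 2) (nat_lit 56) (nat_lit 2) (nat_lit 3) (.e true (nat_lit 3) (nat_lit 57) (nat_lit 2) (nat_lit 3) (.e true (nat_lit 1) (nat_lit 69) (nat_lit 1) (nat_lit 4) .nil)))))) .leaf) (nat_lit 14348) (nat_lit 244) (.n (nat_lit 124) (nat_lit 2) (.n (nat_lit 125) (nat_lit 1) (.p (nat_lit 126) (nat_lit 1) (.p (nat_lit 127) (nat_lit 3)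 (.p (nat_lit 128) (nat_lit 2) (.p (nat_lit 130) (nat_lit 1) (.p (nat_lit 131) (nat_lit 1) (.p (nat_lit 132) (nat_lit 1) (.n (nat_lit 133) (nat_lit 2) (.n (nat_lit 134) (nat_lit 1) (.n (nat_lit 135) (nat_lit 1) (.n (nat_lit 137) (nat_lit 1) .z)))))))))))) (.ct dR2_c276 (nat_lit 1) (nat_lit 0) (.s false (nat_lit 1) (nat_lit 12) (nat_lit 1) (nat_lit 2) (nat_lit 2) true (nat_lit 3) true (nat_lit 6) true (nat_lit 0) true (nat_lit 7) true (nat_lit 6) (.e false (nat_lit 1) (nat_lit 32) (nat_lit 5) (nat_lit 3) (.e false (nat_lit 1) (nat_lit 61) (nat_lit 2) (nat_lit 6) (.e true (nat_lit 1) (nat_lit 77) (nat_lit 1) (nat_lit 7) (.e false (nat_lit 1) (nat_lit 64) (nat_lit 2) (nat_lit 6) .nil)))))) (.nd .leaf (nat_lit 14349) (nat_lit 256) (.n (nat_lit 124) (nat_lit 3) (.n (nat_lit 125) (nat_lit 2) (.p (nat_lit 126) (nat_lit 1) (.p (nat_lit 128) (nat_lit 3) (.n (nat_lit 129) (nat_lit 3) (.n (nat_lit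 130) (nat_lit 2) (.n (nat_lit 131) (nat_lit 1) (.p (nat_lit 133) (nat_lit 2) (.p (nat_lit 134) (nat_lit 1) (.n (nat_lit 135) (nat_lit 1) (.n (nat_lit 137) (nat_lit 1) (.n (nat_lit 138) (nat_lit 1) (.n (nat_lit 139) (nat_lit 1) .z))))))))))))) (.ct dR2_c276 (nat_lit 1) (nat_lit 0) (.s false (nat_lit 1) (nat_lit 14) (nat_lit 2) (nat_lit 2) (nat_lit 0) true (nat_lit 4) true (nat_lit 8) false (nat_lit 0) true (nat_lit 6) true (nat_lit 6) (.e false (nat_lit 1) (nat_lit 35) (nat_lit 4) (nat_lit 4) (.e false (nat_lit 1) (nat_lit 78) (nat_lit 0) (nat_lit 8) (.e true (nat_lit 1) (nat_lit 58) (nat_lit 2) (nat_lit 6) (.e true (nat_lit 1) (nat_lit 59) (nat_lit 2) (nat_lit 6) (.e true (nat_lit 1) (nat_lit 61) (nat_lit 2) (nat_lit 6) (.e false (nat_lit 1) (nat_lit 62) (nat_lit 2) (nat_lit 6) (.e true (nat_lit 2) (nat_lit 63) (nat_lit 2) (nat_lit 6) (.e true (nat_lit 1) (nat_lit 64) (nat_lit 2)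 (nat_lit 6) (.e false (nat_lit 1) (nat_lit 67) (nat_lit 2) (nat_lit 6) (.u (nat_lit 2) (.p (nat_lit 0) (nat_lit 1) (.n (nat_lit 4) (nat_lit 1) (.n (nat_lit 9) (nat_lit 1) (.n (nat_lit 10) (nat_lit 1) .z)))) .nil)))))))))))) .leaf)) (nat_lit 15360) (nat_lit 30) (.n (nat_lit 23) (nat_lit 2) (.n (nat_lit 24) (nat_lit 1) (.p (nat_lit 25) (nat_lit 1) (.p (nat_lit 26) (nat_lit 1) (.p (nat_lit 27) (nat_lit 1) (.n (nat_lit 28) (nat_lit 1) .z)))))) (.ct dR2_c274 (nat_lit 1) (nat_lit 4) (.s false (nat_lit 1) (nat_lit 2) (nat_lit 1) (nat_lit 0) (nat_lit 2) false (nat_lit 0) true (nat_lit 2) true (nat_lit 2) true (nat_lit 3) true (nat_lit 4) (.e false (nat_lit 1) (nat_lit 5) (nat_lit 4) (nat_lit 0) (.e false (nat_lit 1) (nat_lit 10) (nat_lit 2) (nat_lit 2) (.e true (nat_lit 1) (nat_lit 8) (nat_lit 2) (nat_lit 2) (.e false (nat_lit 1) (nat_lit 12) (nat_lit 1) (nat_lit 3) .nil)))))) (.nd (.nd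 .leaf (nat_lit 15361) (nat_lit 33) (.p (nat_lit 31) (nat_lit 1) .z) .df .leaf) (nat_lit 15362) (nat_lit 40) (.p (nat_lit 36) (nat_lit 1) .z) .df .leaf))) (nat_lit 15363) (nat_lit 64) (.p (nat_lit 44) (nat_lit 2) (.n (nat_lit 46) (nat_lit 1) (.p (nat_lit 47) (nat_lit 1) (.n (nat_lit 48) (nat_lit 1) (.n (nat_lit 53) (nat_lit 1) .z))))) (.ct dR2_c290 (nat_lit 1) (nat_lit 3) (.s true (nat_lit 1) (nat_lit 3) (nat_lit 2) (nat_lit 2) (nat_lit 1) true (nat_lit 1) true (nat_lit 5) true (nat_lit 3) true (nat_lit 4) true (nat_lit 4) (.e true (nat_lit 1) (nat_lit 8) (nat_lit 5) (nat_lit 1) (.e true (nat_lit 1) (nat_lit 23) (nat_lit 1) (nat_lit 5) (.e false (nat_lit 2) (nat_lit 18) (nat_lit 2) (nat_lit 4) (.e true (nat_lit 1) (nat_lit 20) (nat_lit 2) (nat_lit 4) (.e false (nat_lit 1) (nat_lit 21) (nat_lit 2) (nat_lit 4) .nil))))))) (.nd (.nd (.nd (.nd .leaf (nat_lit 15364) (nat_lit 92) (.p (nat_lit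 58) (nat_lit 2) (.p (nat_lit 59) (nat_lit 3) (.n (nat_lit 62) (nat_lit 2) (.p (nat_lit 63) (nat_lit 3) (.n (nat_lit 64) (nat_lit 1) (.p (nat_lit 65) (nat_lit 1) (.n (nat_lit 68) (nat_lit 1) .z))))))) (.ct dR2_c275 (nat_lit 1) (nat_lit 2) (.s true (nat_lit 1) (nat_lit 4) (nat_lit 2) (nat_lit 2) (nat_lit 1) true (nat_lit 1) true (nat_lit 5) true (nat_lit 2) true (nat_lit 4) true (nat_lit 4) (.e true (nat_lit 1) (nat_lit 12) (nat_lit 5) (nat_lit 1) (.e true (nat_lit 1) (nat_lit 32) (nat_lit 1) (nat_lit 5) (.e false (nat_lit 1) (nat_lit 23) (nat_lit 2) (nat_lit 4) (.e false (nat_lit 2) (nat_lit 24) (nat_lit 2) (nat_lit 4) (.e true (nat_lit 1) (nat_lit 27) (nat_lit 2) (nat_lit 4) (.e false (nat_lit 1) (nat_lit 28) (nat_lit 2) (nat_lit 4) .nil)))))))) .leaf) (nat_lit 15365) (nat_lit 103) (.p (nat_lit 69) (nat_lit 2) (.p (nat_lit 70) (nat_lit 2) (.n (nat_lit 71) (nat_lit 1) (.n (nat_lit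 73) (nat_lit 1) .z)))) (.ct dR2_c35 (nat_lit 1) (nat_lit 1) (.s true (nat_lit 1) (nat_lit 6) (nat_lit 1) (nat_lit 1) (nat_lit 2) true (nat_lit 1) true (nat_lit 2) true (nat_lit 0) true (nat_lit 3) true (nat_lit 3) (.e true (nat_lit 1) (nat_lit 31) (nat_lit 2) (nat_lit 2) (.e false (nat_lit 1) (nat_lit 36) (nat_lit 1) (nat_lit 3) (.e false (nat_lit 2) (nat_lit 37) (nat_lit 1) (nat_lit 3) .nil))))) (.nd .leaf (nat_lit 15366) (nat_lit 118) (.p (nat_lit 79) (nat_lit 2) (.p (nat_lit 80) (nat_lit 2) .z)) (.ct dR2_c20 (nat_lit 1) (nat_lit 0) (.s true (nat_lit 3) (nat_lit 6) (nat_lit 2) (nat_lit 1) (nat_lit 2) true (nat_lit 0) true (nat_lit 2) true (nat_lit 0) true (nat_lit 2) true (nat_lit 3) (.s false (nat_lit 3) (nat_lit 6) (nat_lit 2) (nat_lit 2) (nat_lit 1) true (nat_lit 1) true (nat_lit 3) true (nat_lit 0) true (nat_lit 2) true (nat_lit 2) (.e true (nat_lit 2) (nat_lit 37) (nat_lit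 2) (nat_lit 2) (.e true (nat_lit 3) (nat_lit 14) (nat_lit 6) (nat_lit 0) (.e true (nat_lit 2) (nat_lit 36) (nat_lit 2) (nat_lit 2) (.e false (nat_lit 3) (nat_lit 16) (nat_lit 5) (nat_lit 1) (.u (nat_lit 2) (.n (nat_lit 1) (nat_lit 1) (.n (nat_lit 2) (nat_lit 1) (.p (nat_lit 5) (nat_lit 1) (.n (nat_lit 8) (nat_lit 1) (.n (nat_lit 9) (nat_lit 1) .z))))) .nil)))))))) .leaf)) (nat_lit 15367) (nat_lit 137) (.p (nat_lit 82) (nat_lit 2) (.p (nat_lit 83) (nat_lit 2) (.n (nat_lit 86) (nat_lit 2) (.n (nat_lit 93) (nat_lit 1) (.n (nat_lit 96) (nat_lit 1) .z))))) (.ct dR2_c306 (nat_lit 1) (nat_lit 1) (.s true (nat_lit 1) (nat_lit 7) (nat_lit 2) (nat_lit 2) (nat_lit 1) true (nat_lit 3) true (nat_lit 7) true (nat_lit 1) true (nat_lit 6) true (nat_lit 6) (.e true (nat_lit 1) (nat_lit 18) (nat_lit 5) (nat_lit 3) (.e true (nat_lit 1) (nat_lit 44) (nat_lit 1) (nat_lit 7) (.e true (nat_lit 1) (nat_lit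 43) (nat_lit 2) (nat_lit 6) (.e false (nat_lit 1) (nat_lit 39) (nat_lit 2) (nat_lit 6) .nil)))))) (.nd (.nd .leaf (nat_lit 15368) (nat_lit 177) (.p (nat_lit 98) (nat_lit 2) (.p (nat_lit 101) (nat_lit 2) (.n (nat_lit 106) (nat_lit 2) (.n (nat_lit 111) (nat_lit 1) (.n (nat_lit 115) (nat_lit 1) .z))))) (.ct dR2_c291 (nat_lit 1) (nat_lit 1) (.s true (nat_lit 1) (nat_lit 8) (nat_lit 2) (nat_lit 2) (nat_lit 1) true (nat_lit 4) true (nat_lit 8) true (nat_lit 1) true (nat_lit 7) true (nat_lit 7) (.e true (nat_lit 1) (nat_lit 23) (nat_lit 5) (nat_lit 4) (.e true (nat_lit 1) (nat_lit 58) (nat_lit 1) (nat_lit 8) (.e true (nat_lit 1) (nat_lit 53) (nat_lit 2) (nat_lit 7) (.e false (nat_lit 1) (nat_lit 45) (nat_lit 2) (nat_lit 7) .nil)))))) .leaf) (nat_lit 15369) (nat_lit 183) (.p (nat_lit 99) (nat_lit 2) (.p (nat_lit 102) (nat_lit 2) (.n (nat_lit 107) (nat_lit 2) (.n (nat_lit 112) (nat_lit 1)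 (.n (nat_lit 116) (nat_lit 1) .z))))) (.ct dR2_c291 (nat_lit 1) (nat_lit 1) (.s true (nat_lit 1) (nat_lit 9) (nat_lit 2) (nat_lit 2) (nat_lit 1) true (nat_lit 4) true (nat_lit 8) true (nat_lit 1) true (nat_lit 7) true (nat_lit 7) (.e true (nat_lit 1) (nat_lit 24) (nat_lit 5) (nat_lit 4) (.e true (nat_lit 1) (nat_lit 59) (nat_lit 1) (nat_lit 8) (.e true (nat_lit 1) (nat_lit 54) (nat_lit 2) (nat_lit 7) (.e false (nat_lit 1) (nat_lit 46) (nat_lit 2) (nat_lit 7) .nil)))))) .leaf)) (nat_lit 15370) (nat_lit 192) (.p (nat_lit 97) (nat_lit 3) (.n (nat_lit 98) (nat_lit 1) (.n (nat_lit 99) (nat_lit 1) (.p (nat_lit 100) (nat_lit 3) (.p (nat_lit 101) (nat_lit 2) (.p (nat_lit 102) (nat_lit 2) (.n (nat_lit 103) (nat_lit 3) (.p (nat_lit 104) (nat_lit 3) (.p (nat_lit 105) (nat_lit 1) (.n (nat_lit 106) (nat_lit 3) (.n (nat_lit 107) (nat_lit 3) (.n (nat_lit 111) (nat_lit 2) (.n (nat_lit 112) (nat_lit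 1) (.p (nat_lit 115) (nat_lit 2) (.n (nat_lit 116) (nat_lit 1) (.p (nat_lit 117) (nat_lit 3) .z)))))))))))))))) (.ct dR2_c291 (nat_lit 1) (nat_lit 1) (.s true (nat_lit 1) (nat_lit 10) (nat_lit 2) (nat_lit 2) (nat_lit 1) true (nat_lit 4) true (nat_lit 8) true (nat_lit 1) true (nat_lit 7) true (nat_lit 7) (.e true (nat_lit 1) (nat_lit 25) (nat_lit 5) (nat_lit 4) (.e true (nat_lit 1) (nat_lit 60) (nat_lit 1) (nat_lit 8) (.e false (nat_lit 1) (nat_lit 44) (nat_lit 2) (nat_lit 7) (.e false (nat_lit 1) (nat_lit 45) (nat_lit 2) (nat_lit 7) (.e false (nat_lit 1) (nat_lit 48) (nat_lit 2) (nat_lit 7) (.e true (nat_lit 1) (nat_lit 50) (nat_lit 2) (nat_lit 7) (.e false (nat_lit 1) (nat_lit 51) (nat_lit 2) (nat_lit 7) (.e true (nat_lit 1) (nat_lit 52) (nat_lit 2) (nat_lit 7) (.e false (nat_lit 1) (nat_lit 54) (nat_lit 2) (nat_lit 7) (.e false (nat_lit 1) (nat_lit 47) (nat_lit 2) (nat_lit 7) (.u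 (nat_lit 2) (.n (nat_lit 3) (nat_lit 1) (.p (nat_lit 6) (nat_lit 1) (.n (nat_lit 7) (nat_lit 1) (.n (nat_lit 8) (nat_lit 1) (.p (nat_lit 9) (nat_lit 1) (.p (nat_lit 10) (nat_lit 1) (.p (nat_lit 14) (nat_lit 1) (.n (nat_lit 18) (nat_lit 1) (.n (nat_lit 20) (nat_lit 1) .z))))))))) .nil))))))))))))) (.nd (.nd (.nd .leaf (nat_lit 15371) (nat_lit 212) (.p (nat_lit 118) (nat_lit 1) (.n (nat_lit 119) (nat_lit 3) (.p (nat_lit 120) (nat_lit 3) (.n (nat_lit 121) (nat_lit 1) (.n (nat_lit 123) (nat_lit 1) .z))))) (.ct dR2_c51 (nat_lit 1) (nat_lit 0) (.s true (nat_lit 1) (nat_lit 11) (nat_lit 2) (nat_lit 2) (nat_lit 1) true (nat_lit 2) true (nat_lit 4) true (nat_lit 0) true (nat_lit 3) true (nat_lit 3) (.e true (nat_lit 1) (nat_lit 29) (nat_lit 5) (nat_lit 2) (.e true (nat_lit 1) (nat_lit 69) (nat_lit 1) (nat_lit 4) (.e true (nat_lit 3) (nat_lit 56) (nat_lit 2) (nat_lit 3) (.e false (nat_lit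 3) (nat_lit 57) (nat_lit 2) (nat_lit 3) (.e false (nat_lit 1) (nat_lit 55) (nat_lit 2) (nat_lit 3) .nil))))))) .leaf) (nat_lit 15372) (nat_lit 238) (.p (nat_lit 124) (nat_lit 1) (.p (nat_lit 125) (nat_lit 1) (.p (nat_lit 127) (nat_lit 1) (.n (nat_lit 128) (nat_lit 1) (.p (nat_lit 129) (nat_lit 2) (.p (nat_lit 131) (nat_lit 1) (.n (nat_lit 134) (nat_lit 1) (.n (nat_lit 135) (nat_lit 1) (.n (nat_lit 139) (nat_lit 1) .z))))))))) (.ct dR2_c276 (nat_lit 1) (nat_lit 0) (.s true (nat_lit 1) (nat_lit 12) (nat_lit 2) (nat_lit 2) (nat_lit 1) true (nat_lit 3) true (nat_lit 7) true (nat_lit 0) true (nat_lit 6) true (nat_lit 6) (.e true (nat_lit 1) (nat_lit 32) (nat_lit 5) (nat_lit 3) (.e true (nat_lit 1) (nat_lit 74) (nat_lit 1) (nat_lit 7) (.e false (nat_lit 1) (nat_lit 58) (nat_lit 2) (nat_lit 6) (.e false (nat_lit 1) (nat_lit 59) (nat_lit 2) (nat_lit 6) (.e true (nat_lit 1) (nat_lit 62) (nat_lit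 2) (nat_lit 6) (.e false (nat_lit 2) (nat_lit 63) (nat_lit 2) (nat_lit 6) (.e false (nat_lit 1) (nat_lit 65) (nat_lit 2) (nat_lit 6) (.e true (nat_lit 1) (nat_lit 68) (nat_lit 2) (nat_lit 6) (.e false (nat_lit 1) (nat_lit 61) (nat_lit 2) (nat_lit 6) .nil))))))))))) (.nd .leaf (nat_lit 15373) (nat_lit 252) (.n (nat_lit 124) (nat_lit 2) (.p (nat_lit 127) (nat_lit 2) (.p (nat_lit 128) (nat_lit 2) (.n (nat_lit 129) (nat_lit 2) (.n (nat_lit 130) (nat_lit 2) (.p (nat_lit 132) (nat_lit 3) (.p (nat_lit 133) (nat_lit 1) (.p (nat_lit 134) (nat_lit 1) (.n (nat_lit 135) (nat_lit 2) (.n (nat_lit 136) (nat_lit 1) (.n (nat_lit 137) (nat_lit 3) (.p (nat_lit 138) (nat_lit 1) (.n (nat_lit 139) (nat_lit 2) .z))))))))))))) (.ct dR2_c276 (nat_lit 1) (nat_lit 0) (.s true (nat_lit 1) (nat_lit 13) (nat_lit 2) (nat_lit 2) (nat_lit 1) true (nat_lit 3) true (nat_lit 7) true (nat_lit 0) true (nat_lit 6) true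 (nat_lit 6) (.e true (nat_lit 1) (nat_lit 33) (nat_lit 5) (nat_lit 3) (.e true (nat_lit 1) (nat_lit 75) (nat_lit 1) (nat_lit 7) (.e true (nat_lit 2) (nat_lit 58) (nat_lit 2) (nat_lit 6) (.e true (nat_lit 2) (nat_lit 59) (nat_lit 2) (nat_lit 6) (.e true (nat_lit 1) (nat_lit 60) (nat_lit 2) (nat_lit 6) (.e true (nat_lit 1) (nat_lit 61) (nat_lit 2) (nat_lit 6) (.e false (nat_lit 3) (nat_lit 62) (nat_lit 2) (nat_lit 6) (.e true (nat_lit 2) (nat_lit 63) (nat_lit 2) (nat_lit 6) (.e true (nat_lit 1) (nat_lit 64) (nat_lit 2) (nat_lit 6) (.e false (nat_lit 1) (nat_lit 65) (nat_lit 2) (nat_lit 6) (.e false (nat_lit 1) (nat_lit 67) (nat_lit 2) (nat_lit 6) (.u (nat_lit 2) (.n (nat_lit 1) (nat_lit 1) .z) .nil)))))))))))))) .leaf)) (nat_lit 15374) (nat_lit 268) (.p (nat_lit 140) (nat_lit 1) (.n (nat_lit 142) (nat_lit 3) (.n (nat_lit 143) (nat_lit 2) (.n (nat_lit 144) (nat_lit 1) (.n (nat_lit 145)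 (nat_lit 3) .z))))) (.ct dR2_c36 (nat_lit 1) (nat_lit 0) (.s true (nat_lit 1) (nat_lit 14) (nat_lit 2) (nat_lit 2) (nat_lit 1) true (nat_lit 3) true (nat_lit 5) true (nat_lit 0) true (nat_lit 4) true (nat_lit 4) (.e true (nat_lit 1) (nat_lit 35) (nat_lit 5) (nat_lit 3) (.e true (nat_lit 1) (nat_lit 78) (nat_lit 1) (nat_lit 5) (.e false (nat_lit 2) (nat_lit 70) (nat_lit 2) (nat_lit 4) (.e false (nat_lit 1) (nat_lit 72) (nat_lit 2) (nat_lit 4) (.e true (nat_lit 1) (nat_lit 73) (nat_lit 2) (nat_lit 4) (.u (nat_lit 2) (.p (nat_lit 3) (nat_lit 1) .z) .nil)))))))) (.nd (.nd .leaf (nat_lit 16384) (nat_lit 37) (.p (nat_lit 34) (nat_lit 1) .z) .df .leaf) (nat_lit 16385) (nat_lit 41) (.p (nat_lit 37) (nat_lit 1) .z) .df .leaf)))) (nat_lit 16386) (nat_lit 43) (.p (nat_lit 38) (nat_lit 1) .z) .df (.nd (.nd (.nd (.nd (.nd .leaf (nat_lit 16387) (nat_lit 88) (.p (nat_lit 59) (nat_lit 1) (.n (nat_lit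 60) (nat_lit 1) (.p (nat_lit 61) (nat_lit 1) (.n (nat_lit 63) (nat_lit 1) (.n (nat_lit 66) (nat_lit 1) .z))))) (.ct dR2_c275 (nat_lit 1) (nat_lit 3) (.s true (nat_lit 1) (nat_lit 3) (nat_lit 2) (nat_lit 2) (nat_lit 2) true (nat_lit 0) true (nat_lit 4) true (nat_lit 3) true (nat_lit 4) true (nat_lit 4) (.e true (nat_lit 1) (nat_lit 8) (nat_lit 6) (nat_lit 0) (.e false (nat_lit 1) (nat_lit 24) (nat_lit 2) (nat_lit 4) (.e true (nat_lit 1) (nat_lit 25) (nat_lit 2) (nat_lit 4) (.e false (nat_lit 1) (nat_lit 26) (nat_lit 2) (nat_lit 4) (.e true (nat_lit 1) (nat_lit 28) (nat_lit 2) (nat_lit 4) .nil))))))) .leaf) (nat_lit 16388) (nat_lit 110) (.n (nat_lit 75) (nat_lit 1) (.n (nat_lit 76) (nat_lit 1) (.p (nat_lit 77) (nat_lit 1) .z))) (.ct dR2_c260 (nat_lit 1) (nat_lit 1) (.s false (nat_lit 1) (nat_lit 4) (nat_lit 2) (nat_lit 2) (nat_lit 2) true (nat_lit 0) true (nat_lit 2) true (nat_lit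 1) true (nat_lit 2) true (nat_lit 2) (.e false (nat_lit 1) (nat_lit 12) (nat_lit 6) (nat_lit 0) (.e true (nat_lit 1) (nat_lit 33) (nat_lit 2) (nat_lit 2) (.e true (nat_lit 1) (nat_lit 34) (nat_lit 2) (nat_lit 2) .nil))))) (.nd .leaf (nat_lit 16389) (nat_lit 117) (.n (nat_lit 79) (nat_lit 1) (.n (nat_lit 80) (nat_lit 1) (.p (nat_lit 81) (nat_lit 1) .z))) (.ct dR2_c20 (nat_lit 1) (nat_lit 1) (.s false (nat_lit 1) (nat_lit 5) (nat_lit 2) (nat_lit 2) (nat_lit 2) true (nat_lit 0) true (nat_lit 2) true (nat_lit 1) true (nat_lit 2) true (nat_lit 2) (.e false (nat_lit 1) (nat_lit 14) (nat_lit 6) (nat_lit 0) (.e true (nat_lit 1) (nat_lit 36) (nat_lit 2) (nat_lit 2) (.e true (nat_lit 1) (nat_lit 37) (nat_lit 2) (nat_lit 2) .nil))))) .leaf)) (nat_lit 16391) (nat_lit 174) (.p (nat_lit 105) (nat_lit 1) (.n (nat_lit 114) (nat_lit 1) .z)) (.ct dR2_c291 (nat_lit 1) (nat_lit 2) (.s true (nat_lit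 1) (nat_lit 7) (nat_lit 2) (nat_lit 2) (nat_lit 2) true (nat_lit 3) true (nat_lit 7) true (nat_lit 2) true (nat_lit 7) true (nat_lit 7) (.e true (nat_lit 1) (nat_lit 18) (nat_lit 6) (nat_lit 3) (.e false (nat_lit 1) (nat_lit 52) (nat_lit 2) (nat_lit 7) .nil)))) (.nd (.nd .leaf (nat_lit 16392) (nat_lit 235) (.n (nat_lit 132) (nat_lit 1) (.p (nat_lit 136) (nat_lit 1) .z)) (.ct dR2_c276 (nat_lit 1) (nat_lit 1) (.s false (nat_lit 1) (nat_lit 6) (nat_lit 3) (nat_lit 2) (nat_lit 2) true (nat_lit 1) true (nat_lit 6) true (nat_lit 2) true (nat_lit 5) true (nat_lit 6) (.e false (nat_lit 1) (nat_lit 23) (nat_lit 6) (nat_lit 2) (.e true (nat_lit 1) (nat_lit 66) (nat_lit 2) (nat_lit 6) .nil)))) .leaf) (nat_lit 16393) (nat_lit 236) (.n (nat_lit 133) (nat_lit 1) (.p (nat_lit 137) (nat_lit 1) .z)) (.ct dR2_c276 (nat_lit 1) (nat_lit 1) (.s false (nat_lit 1) (nat_lit 9) (nat_lit 2) (nat_lit 2) (nat_lit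 2) true (nat_lit 2) true (nat_lit 6) true (nat_lit 1) true (nat_lit 6) true (nat_lit 6) (.e false (nat_lit 1) (nat_lit 24) (nat_lit 6) (nat_lit 2) (.e true (nat_lit 1) (nat_lit 67) (nat_lit 2) (nat_lit 6) .nil)))) (.nd .leaf (nat_lit 16394) (nat_lit 237) (.n (nat_lit 134) (nat_lit 1) (.p (nat_lit 138) (nat_lit 1) .z)) (.ct dR2_c276 (nat_lit 1) (nat_lit 1) (.s false (nat_lit 1) (nat_lit 10) (nat_lit 2) (nat_lit 2) (nat_lit 2) true (nat_lit 2) true (nat_lit 6) true (nat_lit 1) true (nat_lit 6) true (nat_lit 6) (.e false (nat_lit 1) (nat_lit 25) (nat_lit 6) (nat_lit 2) (.e true (nat_lit 1) (nat_lit 68) (nat_lit 2) (nat_lit 6) .nil)))) .leaf))) (nat_lit 16395) (nat_lit 273) (.p (nat_lit 141) (nat_lit 1) (.p (nat_lit 142) (nat_lit 1) (.n (nat_lit 144) (nat_lit 1) (.n (nat_lit 145) (nat_lit 1) .z)))) (.ct dR2_c36 (nat_lit 1) (nat_lit 1) (.s false (nat_lit 1) (nat_lit 11) (nat_lit 2) (nat_lit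 2) (nat_lit 2) true (nat_lit 2) true (nat_lit 4) true (nat_lit 1) true (nat_lit 4) true (nat_lit 4) (.e false (nat_lit 1) (nat_lit 29) (nat_lit 6) (nat_lit 2) (.e true (nat_lit 1) (nat_lit 69) (nat_lit 2) (nat_lit 4) (.e true (nat_lit 1) (nat_lit 70) (nat_lit 2) (nat_lit 4) (.e false (nat_lit 1) (nat_lit 71) (nat_lit 2) (nat_lit 4) (.e true (nat_lit 1) (nat_lit 73) (nat_lit 2) (nat_lit 4) (.u (nat_lit 2) (.n (nat_lit 1) (nat_lit 1) .z) .nil)))))))) (.nd (.nd (.nd .leaf (nat_lit 17410) (nat_lit 44) (.p (nat_lit 39) (nat_lit 1) .z) .df .leaf) (nat_lit 17414) (nat_lit 134) (.p (nat_lit 96) (nat_lit 1) .z) .df (.nd .leaf (nat_lit 17424) (nat_lit 304) (.n (nat_lit 160) (nat_lit 1) (.p (nat_lit 173) (nat_lit 1) .z)) (.ct dR2_c307 (nat_lit 1) (nat_lit 0) (.s false (nat_lit 1) (nat_lit 17) (nat_lit 2) (nat_lit 2) (nat_lit 2) true (nat_lit 6) true (nat_lit 10) false (nat_lit 0) true (nat_lit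 10) true (nat_lit 10) (.e false (nat_lit 1) (nat_lit 39) (nat_lit 6) (nat_lit 6) (.e true (nat_lit 1) (nat_lit 96) (nat_lit 2) (nat_lit 10) .nil)))) .leaf)) (nat_lit 18433) (nat_lit 45) (.p (nat_lit 40) (nat_lit 1) .z) .df (.nd (.nd .leaf (nat_lit 18434) (nat_lit 52) (.p (nat_lit 44) (nat_lit 1) .z) .df .leaf) (nat_lit 18437) (nat_lit 136) (.n (nat_lit 82) (nat_lit 1) (.n (nat_lit 83) (nat_lit 2) (.p (nat_lit 86) (nat_lit 1) (.n (nat_lit 87) (nat_lit 1) (.p (nat_lit 93) (nat_lit 1) (.p (nat_lit 96) (nat_lit 1) .z)))))) (.ct dR2_c306 (nat_lit 1) (nat_lit 3) (.s true (nat_lit 1) (nat_lit 7) (nat_lit 1) (nat_lit 2) (nat_lit 2) true (nat_lit 3) true (nat_lit 6) true (nat_lit 1) true (nat_lit 7) true (nat_lit 6) (.e true (nat_lit 1) (nat_lit 39) (nat_lit 2) (nat_lit 6) (.e false (nat_lit 1) (nat_lit 14) (nat_lit 7) (nat_lit 1) (.e false (nat_lit 1) (nat_lit 52) (nat_lit 1) (nat_lit 7)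 (.e true (nat_lit 1) (nat_lit 40) (nat_lit 2) (nat_lit 6) .nil)))))) .leaf))) (nat_lit 18438) (nat_lit 170) (.p (nat_lit 114) (nat_lit 1) .z) .df (.nd (.nd (.nd (.nd .leaf (nat_lit 18446) (nat_lit 305) (.p (nat_lit 146) (nat_lit 1) (.p (nat_lit 147) (nat_lit 2) (.n (nat_lit 150) (nat_lit 1) (.p (nat_lit 151) (nat_lit 2) (.n (nat_lit 157) (nat_lit 1) (.n (nat_lit 160) (nat_lit 1) (.p (nat_lit 161) (nat_lit 1) (.n (nat_lit 174) (nat_lit 1) .z)))))))) (.ct dR2_c307 (nat_lit 1) (nat_lit 1) (.s false (nat_lit 1) (nat_lit 18) (nat_lit 2) (nat_lit 1) (nat_lit 2) true (nat_lit 6) true (nat_lit 10) false (nat_lit 1) true (nat_lit 10) true (nat_lit 11) (.e true (nat_lit 1) (nat_lit 40) (nat_lit 6) (nat_lit 6) (.e false (nat_lit 2) (nat_lit 87) (nat_lit 2) (nat_lit 10) (.e false (nat_lit 1) (nat_lit 82) (nat_lit 2) (nat_lit 10) (.e false (nat_lit 2) (nat_lit 83) (nat_lit 2) (nat_lit 10) (.e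 true (nat_lit 1) (nat_lit 86) (nat_lit 2) (nat_lit 10) (.e true (nat_lit 1) (nat_lit 93) (nat_lit 2) (nat_lit 10) (.e true (nat_lit 1) (nat_lit 96) (nat_lit 2) (nat_lit 10) (.e false (nat_lit 1) (nat_lit 97) (nat_lit 1) (nat_lit 11) .nil)))))))))) .leaf) (nat_lit 18447) (nat_lit 307) (.n (nat_lit 146) (nat_lit 2) (.p (nat_lit 147) (nat_lit 1) (.p (nat_lit 150) (nat_lit 2) (.p (nat_lit 151) (nat_lit 3) (.p (nat_lit 157) (nat_lit 2) (.p (nat_lit 160) (nat_lit 2) (.p (nat_lit 171) (nat_lit 1) (.p (nat_lit 174) (nat_lit 1) .z)))))))) (.ct dR2_c307 (nat_lit 1) (nat_lit 1) (.s false (nat_lit 1) (nat_lit 18) (nat_lit 2) (nat_lit 2) (nat_lit 1) true (nat_lit 7) true (nat_lit 11) false (nat_lit 1) true (nat_lit 10) true (nat_lit 10) (.e false (nat_lit 1) (nat_lit 44) (nat_lit 5) (nat_lit 7) (.e false (nat_lit 1) (nat_lit 97) (nat_lit 1) (nat_lit 11) (.e true (nat_lit 1) (nat_lit 82) (nat_lit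 2) (nat_lit 10) (.e true (nat_lit 3) (nat_lit 83) (nat_lit 2) (nat_lit 10) (.e false (nat_lit 1) (nat_lit 86) (nat_lit 2) (nat_lit 10) (.e true (nat_lit 1) (nat_lit 87) (nat_lit 2) (nat_lit 10) (.e false (nat_lit 1) (nat_lit 93) (nat_lit 2) (nat_lit 10) (.e false (nat_lit 1) (nat_lit 96) (nat_lit 2) (nat_lit 10) (.u (nat_lit 2) (.n (nat_lit 1) (nat_lit 1) (.n (nat_lit 5) (nat_lit 1) .z)) .nil))))))))))) (.nd .leaf (nat_lit 18448) (nat_lit 371) (.n (nat_lit 194) (nat_lit 1) (.p (nat_lit 203) (nat_lit 1) .z)) (.ct dR2_c292 (nat_lit 1) (nat_lit 0) (.s false (nat_lit 1) (nat_lit 7) (nat_lit 2) (nat_lit 2) (nat_lit 6) true (nat_lit 0) true (nat_lit 6) true (nat_lit 5) true (nat_lit 10) true (nat_lit 10) (.e false (nat_lit 1) (nat_lit 44) (nat_lit 6) (nat_lit 6) (.e true (nat_lit 1) (nat_lit 114) (nat_lit 2) (nat_lit 10) .nil)))) .leaf)) (nat_lit 19457) (nat_lit 46) (.p (nat_lit 41) (nat_lit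 1) .z) .df (.nd (.nd .leaf (nat_lit 19458) (nat_lit 53) (.p (nat_lit 45) (nat_lit 1) .z) .df .leaf) (nat_lit 19461) (nat_lit 140) (.n (nat_lit 84) (nat_lit 1) (.p (nat_lit 90) (nat_lit 1) (.n (nat_lit 94) (nat_lit 1) .z))) (.ct dR2_c306 (nat_lit 1) (nat_lit 3) (.s true (nat_lit 1) (nat_lit 8) (nat_lit 1) (nat_lit 1) (nat_lit 2) true (nat_lit 3) true (nat_lit 6) true (nat_lit 0) true (nat_lit 7) true (nat_lit 7) (.e true (nat_lit 1) (nat_lit 41) (nat_lit 2) (nat_lit 6) (.e true (nat_lit 1) (nat_lit 53) (nat_lit 1) (nat_lit 7) (.e false (nat_lit 1) (nat_lit 48) (nat_lit 1) (nat_lit 7) .nil))))) .leaf)) (nat_lit 19462) (nat_lit 171) (.p (nat_lit 115) (nat_lit 1) .z) .df (.nd (.nd (.nd .leaf (nat_lit 19470) (nat_lit 330) (.n (nat_lit 146) (nat_lit 2) (.p (nat_lit 147) (nat_lit 3) (.n (nat_lit 148) (nat_lit 1) (.n (nat_lit 150) (nat_lit 2) (.n (nat_lit 151) (nat_lit 2) (.p (nat_lit 152)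 (nat_lit 1) (.n (nat_lit 154) (nat_lit 1) (.p (nat_lit 157) (nat_lit 1) (.p (nat_lit 158) (nat_lit 1) (.p (nat_lit 160) (nat_lit 3) (.p (nat_lit 161) (nat_lit 2) (.p (nat_lit 162) (nat_lit 1) (.n (nat_lit 171) (nat_lit 1) (.n (nat_lit 173) (nat_lit 3) (.p (nat_lit 174) (nat_lit 3) .z))))))))))))))) (.ct dR2_c307 (nat_lit 1) (nat_lit 1) (.s true (nat_lit 1) (nat_lit 19) (nat_lit 1) (nat_lit 2) (nat_lit 2) true (nat_lit 7) true (nat_lit 10) false (nat_lit 1) true (nat_lit 11) true (nat_lit 10) (.e true (nat_lit 1) (nat_lit 45) (nat_lit 5) (nat_lit 7) (.e true (nat_lit 1) (nat_lit 84) (nat_lit 2) (nat_lit 10) (.e false (nat_lit 1) (nat_lit 115) (nat_lit 1) (nat_lit 11) (.e true (nat_lit 1) (nat_lit 88) (nat_lit 2) (nat_lit 10) .nil)))))) .leaf) (nat_lit 19471) (nat_lit 308) (.n (nat_lit 148) (nat_lit 2) (.p (nat_lit 154) (nat_lit 1) (.n (nat_lit 158) (nat_lit 1) (.p (nat_lit 162) (nat_lit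 1) (.p (nat_lit 176) (nat_lit 1) .z))))) (.ct dR2_c307 (nat_lit 1) (nat_lit 1) (.s false (nat_lit 1) (nat_lit 19) (nat_lit 2) (nat_lit 2) (nat_lit 1) true (nat_lit 7) true (nat_lit 11) false (nat_lit 1) true (nat_lit 10) true (nat_lit 10) (.e false (nat_lit 1) (nat_lit 45) (nat_lit 5) (nat_lit 7) (.e false (nat_lit 1) (nat_lit 98) (nat_lit 1) (nat_lit 11) (.e true (nat_lit 2) (nat_lit 84) (nat_lit 2) (nat_lit 10) (.e false (nat_lit 1) (nat_lit 90) (nat_lit 2) (nat_lit 10) (.e true (nat_lit 1) (nat_lit 94) (nat_lit 2) (nat_lit 10) .nil))))))) (.nd .leaf (nat_lit 19472) (nat_lit 372) (.n (nat_lit 195) (nat_lit 1) (.p (nat_lit 204) (nat_lit 1) .z)) (.ct dR2_c292 (nat_lit 1) (nat_lit 0) (.s false (nat_lit 1) (nat_lit 19) (nat_lit 2) (nat_lit 2) (nat_lit 2) true (nat_lit 6) true (nat_lit 10) false (nat_lit 0) true (nat_lit 10) true (nat_lit 10) (.e false (nat_lit 1) (nat_lit 45) (nat_lit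 6) (nat_lit 6) (.e true (nat_lit 1) (nat_lit 115) (nat_lit 2) (nat_lit 10) .nil)))) .leaf)) (nat_lit 20481) (nat_lit 47) (.p (nat_lit 42) (nat_lit 1) .z) .df (.nd (.nd .leaf (nat_lit 20482) (nat_lit 54) (.p (nat_lit 46) (nat_lit 1) .z) .df .leaf) (nat_lit 20485) (nat_lit 143) (.n (nat_lit 85) (nat_lit 1) (.p (nat_lit 91) (nat_lit 1) (.n (nat_lit 95) (nat_lit 1) .z))) (.ct dR2_c306 (nat_lit 1) (nat_lit 3) (.s true (nat_lit 1) (nat_lit 9) (nat_lit 1) (nat_lit 1) (nat_lit 2) true (nat_lit 3) true (nat_lit 6) true (nat_lit 0) true (nat_lit 7) true (nat_lit 7) (.e true (nat_lit 1) (nat_lit 42) (nat_lit 2) (nat_lit 6) (.e true (nat_lit 1) (nat_lit 54) (nat_lit 1) (nat_lit 7) (.e false (nat_lit 1) (nat_lit 49) (nat_lit 1) (nat_lit 7) .nil))))) .leaf))))))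

noncomputable def dR2_t1 : Tr := (.nd (.nd (.nd (.nd (.nd (.nd (.nd .leaf (nat_lit 20494) (nat_lit 309) (.p (nat_lit 149) (nat_lit 1) (.p (nat_lit 153) (nat_lit 1) (.n (nat_lit 155) (nat_lit 1) (.p (nat_lit 159) (nat_lit 1) (.p (nat_lit 163) (nat_lit 1) (.n (nat_lit 175) (nat_lit 1) .z)))))) (.ct dR2_c307 (nat_lit 1) (nat_lit 1) (.s false (nat_lit 1) (nat_lit 20) (nat_lit 2) (nat_lit 1) (nat_lit 2) true (nat_lit 6) true (nat_lit 10) false (nat_lit 1) true (nat_lit 10) true (nat_lit 11) (.e true (nat_lit 1) (nat_lit 42) (nat_lit 6) (nat_lit 6) (.e false (nat_lit 1) (nat_lit 89) (nat_lit 2) (nat_lit 10) (.e false (nat_lit 1) (nat_lit 85) (nat_lit 2) (nat_lit 10) (.e true (nat_lit 1) (nat_lit 91) (nat_lit 2) (nat_lit 10) (.e false (nat_lit 1) (nat_lit 95) (nat_lit 2) (nat_lit 10) (.e false (nat_lit 1) (nat_lit 99) (nat_lit 1) (nat_lit 11) .nil)))))))) .leaf) (nat_lit 20495) (nat_lit 311) (.p (nat_lit 149) (nat_lit 3) (.n (nat_lit 153) (nat_lit 2) (.p (nat_lit 155) (nat_lit 2) (.n (nat_lit 159) (nat_lit 2) (.p (nat_lit 172) (nat_lit 1) (.p (nat_lit 175) (nat_lit 1) .z)))))) (.ct dR2_c307 (nat_lit 1) (nat_lit 1) (.s false (nat_lit 1) (nat_lit 20) (nat_lit 2) (nat_lit 2) (nat_lit 1) true (nat_lit 7) true (nat_lit 11) false (nat_lit 1) true (nat_lit 10) true (nat_lit 10) (.e false (nat_lit 1) (nat_lit 46) (nat_lit 5) (nat_lit 7) (.e false (nat_lit 1) (nat_lit 99) (nat_lit 1) (nat_lit 11) (.e true (nat_lit 2) (nat_lit 85) (nat_lit 2) (nat_lit 10) (.e false (nat_lit 1) (nat_lit 91) (nat_lit 2) (nat_lit 10) (.e true (nat_lit 1) (nat_lit 95) (nat_lit 2) (nat_lit 10) (.u (nat_lit 2) (.n (nat_lit 3) (nat_lit 1) .z) .nil)))))))) (.nd .leaf (nat_lit 20496) (nat_lit 373) (.n (nat_lit 196) (nat_lit 1) (.p (nat_lit 205) (nat_lit 1) .z)) (.ct dR2_c292 (nat_lit 1) (nat_lit 0) (.s false (nat_lit 1) (nat_lit 20) (nat_lit 2) (nat_lit 2) (nat_lit 2) true (nat_lit 6) true (nat_lit 10) false (nat_lit 0) true (nat_lit 10) true (nat_lit 10) (.e false (nat_lit 1) (nat_lit 46) (nat_lit 6) (nat_lit 6) (.e true (nat_lit 1) (nat_lit 116) (nat_lit 2) (nat_lit 10) .nil)))) .leaf)) (nat_lit 21505) (nat_lit 50) (.p (nat_lit 39) (nat_lit 1) (.n (nat_lit 40) (nat_lit 1) (.n (nat_lit 41) (nat_lit 1) (.p (nat_lit 42) (nat_lit 1) (.p (nat_lit 43) (nat_lit 1) .z))))) (.ct dR2_c305 (nat_lit 1) (nat_lit 3) (.s false (nat_lit 1) (nat_lit 3) (nat_lit 1) (nat_lit 1) (nat_lit 2) true (nat_lit 0) true (nat_lit 2) true (nat_lit 1) true (nat_lit 3) true (nat_lit 3) (.e false (nat_lit 1) (nat_lit 7) (nat_lit 5) (nat_lit 0) (.e false (nat_lit 1) (nat_lit 17) (nat_lit 2) (nat_lit 2) (.e true (nat_lit 1) (nat_lit 18) (nat_lit 1) (nat_lit 3) (.e false (nat_lit 1) (nat_lit 20) (nat_lit 1) (nat_lit 3) (.e true (nat_lit 1) (nat_lit 19) (nat_lit 1) (nat_lit 3) .nil))))))) (.nd (.nd .leaf (nat_lit 21506) (nat_lit 55) (.p (nat_lit 47) (nat_lit 1) .z) .df .leaf) (nat_lit 21509) (nat_lit 148) (.p (nat_lit 82) (nat_lit 3) (.n (nat_lit 83) (nat_lit 2) (.p (nat_lit 84) (nat_lit 1) (.n (nat_lit 85) (nat_lit 1) (.p (nat_lit 86) (nat_lit 2) (.p (nat_lit 87) (nat_lit 1) (.p (nat_lit 88) (nat_lit 2) (.n (nat_lit 90) (nat_lit 3) (.p (nat_lit 91) (nat_lit 1) (.p (nat_lit 93) (nat_lit 3) (.p (nat_lit 94) (nat_lit 3) (.n (nat_lit 95) (nat_lit 1) (.p (nat_lit 96) (nat_lit 3) .z))))))))))))) (.ct dR2_c306 (nat_lit 1) (nat_lit 3) (.s true (nat_lit 1) (nat_lit 5) (nat_lit 1) (nat_lit 3) (nat_lit 2) true (nat_lit 3) true (nat_lit 6) true (nat_lit 3) true (nat_lit 7) true (nat_lit 5) (.e true (nat_lit 2) (nat_lit 18) (nat_lit 5) (nat_lit 3) (.e false (nat_lit 1) (nat_lit 20) (nat_lit 5) (nat_lit 3) (.e true (nat_lit 1) (nat_lit 40) (nat_lit 2) (nat_lit 6) (.e false (nat_lit 1) (nat_lit 41) (nat_lit 2) (nat_lit 6) (.e true (nat_lit 1) (nat_lit 43) (nat_lit 2) (nat_lit 6) (.e false (nat_lit 1) (nat_lit 53) (nat_lit 1) (nat_lit 7) (.e false (nat_lit 1) (nat_lit 30) (nat_lit 3) (nat_lit 5) (.u (nat_lit 2) (.p (nat_lit 1) (nat_lit 1) (.n (nat_lit 4) (nat_lit 1) (.n (nat_lit 11) (nat_lit 1) (.n (nat_lit 14) (nat_lit 1) .z)))) .nil)))))))))) (.nd .leaf (nat_lit 21510) (nat_lit 179) (.p (nat_lit 97) (nat_lit 2) (.p (nat_lit 98) (nat_lit 2) (.n (nat_lit 99) (nat_lit 1) (.p (nat_lit 100) (nat_lit 1) (.p (nat_lit 101) (nat_lit 1) (.p (nat_lit 106) (nat_lit 1) (.n (nat_lit 111) (nat_lit 1) (.n (nat_lit 114) (nat_lit 2) (.p (nat_lit 116) (nat_lit 1) (.p (nat_lit 117) (nat_lit 1) .z)))))))))) (.ct dR2_c291 (nat_lit 1) (nat_lit 3) (.s false (nat_lit 1) (nat_lit 6) (nat_lit 1) (nat_lit 2) (nat_lit 3) true (nat_lit 2) true (nat_lit 6) true (nat_lit 3) true (nat_lit 8) true (nat_lit 7) (.e false (nat_lit 1) (nat_lit 16) (nat_lit 7) (nat_lit 2) (.e false (nat_lit 1) (nat_lit 36) (nat_lit 3) (nat_lit 6) (.e true (nat_lit 1) (nat_lit 18) (nat_lit 6) (nat_lit 3) (.e false (nat_lit 1) (nat_lit 20) (nat_lit 6) (nat_lit 3) (.e true (nat_lit 1) (nat_lit 66) (nat_lit 1) (nat_lit 8) (.e false (nat_lit 2) (nat_lit 45) (nat_lit 2) (nat_lit 7) (.e false (nat_lit 1) (nat_lit 53) (nat_lit 2) (nat_lit 7) (.e false (nat_lit 2) (nat_lit 44) (nat_lit 2) (nat_lit 7) (.e true (nat_lit 1) (nat_lit 46) (nat_lit 2) (nat_lit 7) (.e false (nat_lit 1) (nat_lit 47) (nat_lit 2) (nat_lit 7) (.e false (nat_lit 1) (nat_lit 48) (nat_lit 2) (nat_lit 7) (.e true (nat_lit 1) (nat_lit 52) (nat_lit 2) (nat_lit 7) .nil)))))))))))))) .leaf))) (nat_lit 21518) (nat_lit 336) (.n (nat_lit 147) (nat_lit 1) (.p (nat_lit 148) (nat_lit 1) (.p (nat_lit 149) (nat_lit 1) (.n (nat_lit 150) (nat_lit 3) (.p (nat_lit 151) (nat_lit 1) (.n (nat_lit 152) (nat_lit 2) (.p (nat_lit 153) (nat_lit 1) (.p (nat_lit 154) (nat_lit 2) (.n (nat_lit 155) (nat_lit 1) (.p (nat_lit 157) (nat_lit 3) (.n (nat_lit 158) (nat_lit 2) (.p (nat_lit 159) (nat_lit 1) (.p (nat_lit 160) (nat_lit 2) (.p (nat_lit 161) (nat_lit 3) (.n (nat_lit 162) (nat_lit 1) (.p (nat_lit 163) (nat_lit 1) (.p (nat_lit 171) (nat_lit 2) (.p (nat_lit 174) (nat_lit 2) (.n (nat_lit 175) (nat_lit 1) .z))))))))))))))))))) (.ct dR2_c307 (nat_lit 1) (nat_lit 1) (.s false (nat_lit 1) (nat_lit 14) (nat_lit 1) (nat_lit 2) (nat_lit 3) true (nat_lit 5) true (nat_lit 9) true (nat_lit 1) true (nat_lit 11) true (nat_lit 10) (.e false (nat_lit 1) (nat_lit 35) (nat_lit 7) (nat_lit 5) (.e false (nat_lit 1) (nat_lit 70) (nat_lit 3) (nat_lit 9) (.e true (nat_lit 1) (nat_lit 18) (nat_lit 14) (nat_lit 1) (.e false (nat_lit 1) (nat_lit 20) (nat_lit 14) (nat_lit 1) (.e true (nat_lit 1) (nat_lit 101) (nat_lit 1) (nat_lit 11) (.e false (nat_lit 1) (nat_lit 106) (nat_lit 1) (nat_lit 11) (.e true (nat_lit 1) (nat_lit 108) (nat_lit 1) (nat_lit 11) (.e false (nat_lit 1) (nat_lit 115) (nat_lit 1) (nat_lit 11) (.e true (nat_lit 1) (nat_lit 87) (nat_lit 2) (nat_lit 10) (.e true (nat_lit 1) (nat_lit 82) (nat_lit 2) (nat_lit 10) (.e true (nat_lit 1) (nat_lit 83) (nat_lit 2) (nat_lit 10) (.e false (nat_lit 1) (nat_lit 86) (nat_lit 2) (nat_lit 10) (.e false (nat_lit 1) (nat_lit 96) (nat_lit 2) (nat_lit 10) (.e false (nat_lit 1) (nat_lit 90) (nat_lit 2) (nat_lit 10) (.u (nat_lit 2) (.p (nat_lit 4) (nat_lit 1) .z) .nil))))))))))))))))) (.nd (.nd (.nd .leaf (nat_lit 21519) (nat_lit 319) (.p (nat_lit 147) (nat_lit 3) (.p (nat_lit 148) (nat_lit 2) (.p (nat_lit 149) (nat_lit 3) (.n (nat_lit 151) (nat_lit 3) (.n (nat_lit 152) (nat_lit 1) (.n (nat_lit 153) (nat_lit 2) (.p (nat_lit 155) (nat_lit 2) (.n (nat_lit 157) (nat_lit 2) (.n (nat_lit 159) (nat_lit 2) (.n (nat_lit 160) (nat_lit 3) (.p (nat_lit 161) (nat_lit 2) (.n (nat_lit 162) (nat_lit 1) (.n (nat_lit 171) (nat_lit 1) (.p (nat_lit 172) (nat_lit 1) (.p (nat_lit 173) (nat_lit 3) (.p (nat_lit 174) (nat_lit 2) (.p (nat_lit 175) (nat_lit 1) (.n (nat_lit 176) (nat_lit 1) .z)))))))))))))))))) (.ct dR2_c307 (nat_lit 1) (nat_lit 1) (.s false (nat_lit 1) (nat_lit 21) (nat_lit 2) (nat_lit 2) (nat_lit 1) true (nat_lit 7) true (nat_lit 11) false (nat_lit 1) true (nat_lit 10) true (nat_lit 10) (.e false (nat_lit 1) (nat_lit 47) (nat_lit 5) (nat_lit 7) (.e false (nat_lit 1) (nat_lit 100) (nat_lit 1) (nat_lit 11) (.e false (nat_lit 2) (nat_lit 82) (nat_lit 2) (nat_lit 10) (.e true (nat_lit 1) (nat_lit 83) (nat_lit 2) (nat_lit 10) (.e false (nat_lit 2) (nat_lit 84) (nat_lit 2) (nat_lit 10) (.e true (nat_lit 2) (nat_lit 85) (nat_lit 2) (nat_lit 10) (.e false (nat_lit 1) (nat_lit 86) (nat_lit 2) (nat_lit 10) (.e false (nat_lit 1) (nat_lit 87) (nat_lit 2) (nat_lit 10) (.e false (nat_lit 2) (nat_lit 88) (nat_lit 2) (nat_lit 10) (.e true (nat_lit 3) (nat_lit 90) (nat_lit 2) (nat_lit 10) (.e false (nat_lit 1) (nat_lit 91) (nat_lit 2) (nat_lit 10) (.e false (nat_lit 3) (nat_lit 93) (nat_lit 2) (nat_lit 10) (.e false (nat_lit 3) (nat_lit 94) (nat_lit 2) (nat_lit 10) (.e true (nat_lit 1) (nat_lit 95) (nat_lit 2) (nat_lit 10) (.e false (nat_lit 3) (nat_lit 96) (nat_lit 2) (nat_lit 10) (.u (nat_lit 2) (.n (nat_lit 3) (nat_lit 1) (.p (nat_lit 6) (nat_lit 1) (.n (nat_lit 8) (nat_lit 1) (.p (nat_lit 11) (nat_lit 1) (.p (nat_lit 12) (nat_lit 1) (.p (nat_lit 14) (nat_lit 1) (.n (nat_lit 27) (nat_lit 1) .z))))))) .nil)))))))))))))))))) .leaf) (nat_lit 21520) (nat_lit 393) (.p (nat_lit 177) (nat_lit 1) (.p (nat_lit 178) (nat_lit 1) (.p (nat_lit 179) (nat_lit 2) (.n (nat_lit 180) (nat_lit 2) (.n (nat_lit 181) (nat_lit 3) (.p (nat_lit 185) (nat_lit 1) (.p (nat_lit 186) (nat_lit 1) (.n (nat_lit 188) (nat_lit 1) (.n (nat_lit 191) (nat_lit 2) (.p (nat_lit 195) (nat_lit 1) (.n (nat_lit 196) (nat_lit 1) (.n (nat_lit 197) (nat_lit 1) (.p (nat_lit 203) (nat_lit 3) (.n (nat_lit 204) (nat_lit 3) (.p (nat_lit 205) (nat_lit 1) .z))))))))))))))) (.ct dR2_c292 (nat_lit 1) (nat_lit 0) (.s false (nat_lit 1) (nat_lit 21) (nat_lit 2) (nat_lit 2) (nat_lit 2) true (nat_lit 6) true (nat_lit 10) false (nat_lit 0) true (nat_lit 10) true (nat_lit 10) (.e false (nat_lit 1) (nat_lit 47) (nat_lit 6) (nat_lit 6) (.e true (nat_lit 1) (nat_lit 100) (nat_lit 2) (nat_lit 10) (.e true (nat_lit 2) (nat_lit 97) (nat_lit 2) (nat_lit 10) (.e true (nat_lit 2) (nat_lit 98) (nat_lit 2) (nat_lit 10) (.e false (nat_lit 1) (nat_lit 99) (nat_lit 2) (nat_lit 10) (.e true (nat_lit 1) (nat_lit 101) (nat_lit 2) (nat_lit 10) (.e true (nat_lit 1) (nat_lit 106) (nat_lit 2) (nat_lit 10) (.e false (nat_lit 1) (nat_lit 111) (nat_lit 2) (nat_lit 10) (.e false (nat_lit 2) (nat_lit 114) (nat_lit 2) (nat_lit 10) (.e true (nat_lit 1) (nat_lit 116) (nat_lit 2) (nat_lit 10) (.e true (nat_lit 1) (nat_lit 117) (nat_lit 2) (nat_lit 10) .nil))))))))))))) (.nd .leaf (nat_lit 22528) (nat_lit 51) (.p (nat_lit 39) (nat_lit 2) (.n (nat_lit 41) (nat_lit 3) (.p (nat_lit 42) (nat_lit 1) (.p (nat_lit 43) (nat_lit 3) .z)))) (.ct dR2_c305 (nat_lit 1) (nat_lit 4) (.s true (nat_lit 1) (nat_lit 5) (nat_lit 1) (nat_lit 1) (nat_lit 0) true (nat_lit 1) true (nat_lit 4) true (nat_lit 0) true (nat_lit 3) true (nat_lit 3) (.e false (nat_lit 1) (nat_lit 11) (nat_lit 3) (nat_lit 1) (.e false (nat_lit 1) (nat_lit 18) (nat_lit 1) (nat_lit 3) (.e true (nat_lit 1) (nat_lit 20) (nat_lit 1) (nat_lit 3) (.e false (nat_lit 2) (nat_lit 21) (nat_lit 1) (nat_lit 3) .nil)))))) .leaf)) (nat_lit 22530) (nat_lit 72) (.p (nat_lit 55) (nat_lit 1) .z) .df (.nd (.nd .leaf (nat_lit 22532) (nat_lit 144) (.n (nat_lit 85) (nat_lit 1) (.p (nat_lit 92) (nat_lit 1) (.n (nat_lit 95) (nat_lit 3) .z))) (.ct dR2_c306 (nat_lit 1) (nat_lit 4) (.s false (nat_lit 1) (nat_lit 5) (nat_lit 1) (nat_lit 4) (nat_lit 1) false (nat_lit 9) true (nat_lit 7) true (nat_lit 3) true (nat_lit 7) true (nat_lit 4) (.e true (nat_lit 1) (nat_lit 49) (nat_lit 1) (nat_lit 7) (.e false (nat_lit 1) (nat_lit 50) (nat_lit 1) (nat_lit 7) (.e true (nat_lit 2) (nat_lit 54) (nat_lit 1) (nat_lit 7) (.e false (nat_lit 1) (nat_lit 20) (nat_lit 5) (nat_lit 3) .nil)))))) .leaf) (nat_lit 22534) (nat_lit 209) (.p (nat_lit 122) (nat_lit 1) .z) .df .leaf))) (nat_lit 22544) (nat_lit 452) (.n (nat_lit 211) (nat_lit 1) (.p (nat_lit 215) (nat_lit 1) .z)) (.ct dR2_c52 (nat_lit 1) (nat_lit 0) (.s false (nat_lit 1) (nat_lit 22) (nat_lit 2) (nat_lit 2) (nat_lit 2) true (nat_lit 3) true (nat_lit 5) false (nat_lit 0) true (nat_lit 5) true (nat_lit 5) (.e false (nat_lit 1) (nat_lit 55) (nat_lit 6) (nat_lit 3) (.e true (nat_lit 1) (nat_lit 122) (nat_lit 2) (nat_lit 5) .nil)))) (.nd (.nd (.nd (.nd .leaf (nat_lit 23553) (nat_lit 56) (.p (nat_lit 48) (nat_lit 1) .z) .df .leaf) (nat_lit 23554) (nat_lit 77) (.p (nat_lit 58) (nat_lit 1) .z) .df (.nd .leaf (nat_lit 23557) (nat_lit 176) (.n (nat_lit 98) (nat_lit 1) (.n (nat_lit 101) (nat_lit 2) (.p (nat_lit 106) (nat_lit 1) (.n (nat_lit 108) (nat_lit 1) (.p (nat_lit 111) (nat_lit 1) (.p (nat_lit 115) (nat_lit 1) .z)))))) (.ct dR2_c291 (nat_lit 1) (nat_lit 4) (.s true (nat_lit 1) (nat_lit 8) (nat_lit 1) (nat_lit 2) (nat_lit 2) true (nat_lit 4) true (nat_lit 7) true (nat_lit 1) true (nat_lit 8) true (nat_lit 7) (.e true (nat_lit 1) (nat_lit 45) (nat_lit 2) (nat_lit 7) (.e false (nat_lit 1) (nat_lit 14) (nat_lit 8) (nat_lit 1) (.e false (nat_lit 1) (nat_lit 66) (nat_lit 1) (nat_lit 8) (.e true (nat_lit 1) (nat_lit 48) (nat_lit 2) (nat_lit 7) .nil)))))) .leaf)) (nat_lit 23558) (nat_lit 231) (.p (nat_lit 136) (nat_lit 1) .z) .df (.nd (.nd .leaf (nat_lit 23563) (nat_lit 333) (.n (nat_lit 146) (nat_lit 2) (.n (nat_lit 150) (nat_lit 3) (.n (nat_lit 151) (nat_lit 3) (.n (nat_lit 152) (nat_lit 3) (.n (nat_lit 157) (nat_lit 2) (.p (nat_lit 158) (nat_lit 1) (.n (nat_lit 160) (nat_lit 2) (.p (nat_lit 161) (nat_lit 1) (.n (nat_lit 162) (nat_lit 3) (.n (nat_lit 164) (nat_lit 2) (.p (nat_lit 167) (nat_lit 1) (.p (nat_lit 171) (nat_lit 3) (.n (nat_lit 173) (nat_lit 2) (.n (nat_lit 174) (nat_lit 2) (.p (nat_lit 176) (nat_lit 3) .z))))))))))))))) (.ct dR2_c307 (nat_lit 1) (nat_lit 3) (.s false (nat_lit 1) (nat_lit 23) (nat_lit 2) (nat_lit 1) (nat_lit 1) true (nat_lit 7) true (nat_lit 11) false (nat_lit 3) true (nat_lit 10) true (nat_lit 11) (.e true (nat_lit 1) (nat_lit 48) (nat_lit 5) (nat_lit 7) (.e false (nat_lit 1) (nat_lit 108) (nat_lit 1) (nat_lit 11) (.e true (nat_lit 1) (nat_lit 101) (nat_lit 1) (nat_lit 11) .nil))))) .leaf) (nat_lit 23566) (nat_lit 380) (.n (nat_lit 178) (nat_lit 3) (.p (nat_lit 181) (nat_lit 1) (.p (nat_lit 185) (nat_lit 1) (.n (nat_lit 186) (nat_lit 2) (.n (nat_lit 188) (nat_lit 2) (.p (nat_lit 191) (nat_lit 1) (.n (nat_lit 194) (nat_lit 1) (.p (nat_lit 195) (nat_lit 3) (.p (nat_lit 198) (nat_lit 1) (.p (nat_lit 204) (nat_lit 1) .z)))))))))) (.ct dR2_c292 (nat_lit 1) (nat_lit 1) (.s true (nat_lit 1) (nat_lit 23) (nat_lit 1) (nat_lit 2) (nat_lit 2) true (nat_lit 7) true (nat_lit 10) false (nat_lit 1) true (nat_lit 11) true (nat_lit 10) (.e true (nat_lit 1) (nat_lit 58) (nat_lit 5) (nat_lit 7) (.e true (nat_lit 1) (nat_lit 101) (nat_lit 2) (nat_lit 10) (.e false (nat_lit 1) (nat_lit 136) (nat_lit 1) (nat_lit 11) (.e true (nat_lit 1) (nat_lit 108) (nat_lit 2) (nat_lit 10) .nil)))))) (.nd .leaf (nat_lit 23567) (nat_lit 374) (.n (nat_lit 178) (nat_lit 1) (.n (nat_lit 181) (nat_lit 3) (.p (nat_lit 186) (nat_lit 1) (.n (nat_lit 188) (nat_lit 1) (.p (nat_lit 191) (nat_lit 1) (.p (nat_lit 195) (nat_lit 1) (.p (nat_lit 198) (nat_lit 1) (.p (nat_lit 206) (nat_lit 1) .z)))))))) (.ct dR2_c292 (nat_lit 1) (nat_lit 1) (.s false (nat_lit 1) (nat_lit 23) (nat_lit 2) (nat_lit 2) (nat_lit 1) true (nat_lit 7) true (nat_lit 11) false (nat_lit 1) true (nat_lit 10) true (nat_lit 10) (.e false (nat_lit 1) (nat_lit 58) (nat_lit 5) (nat_lit 7) (.e false (nat_lit 1) (nat_lit 124) (nat_lit 1) (nat_lit 11) (.e true (nat_lit 1) (nat_lit 98) (nat_lit 2) (nat_lit 10) (.e true (nat_lit 3) (nat_lit 101) (nat_lit 2) (nat_lit 10) (.e false (nat_lit 1) (nat_lit 106) (nat_lit 2) (nat_lit 10) (.e true (nat_lit 1) (nat_lit 108) (nat_lit 2) (nat_lit 10) (.e false (nat_lit 1) (nat_lit 111) (nat_lit 2) (nat_lit 10) (.e false (nat_lit 1) (nat_lit 115) (nat_lit 2) (nat_lit 10) .nil)))))))))) .leaf))) (nat_lit 24577) (nat_lit 57) (.p (nat_lit 49) (nat_lit 1) .z) .df (.nd (.nd (.nd .leaf (nat_lit 24578) (nat_lit 78) (.p (nat_lit 59) (nat_lit 1) .z) .df .leaf) (nat_lit 24581) (nat_lit 182) (.n (nat_lit 99) (nat_lit 1) (.n (nat_lit 102) (nat_lit 2) (.p (nat_lit 107) (nat_lit 1) (.n (nat_lit 109) (nat_lit 1) (.p (nat_lit 112) (nat_lit 1) (.p (nat_lit 116) (nat_lit 1) .z)))))) (.ct dR2_c291 (nat_lit 1) (nat_lit 4) (.s true (nat_lit 1) (nat_lit 9) (nat_lit 1) (nat_lit 2) (nat_lit 2) true (nat_lit 4) true (nat_lit 7) true (nat_lit 1) true (nat_lit 8) true (nat_lit 7) (.e true (nat_lit 1) (nat_lit 46) (nat_lit 2) (nat_lit 7) (.e false (nat_lit 1) (nat_lit 14) (nat_lit 9) (nat_lit 1) (.e false (nat_lit 1) (nat_lit 67) (nat_lit 1) (nat_lit 8) (.e true (nat_lit 1) (nat_lit 49) (nat_lit 2) (nat_lit 7) .nil)))))) (.nd .leaf (nat_lit 24582) (nat_lit 232) (.p (nat_lit 137) (nat_lit 1) .z) .df .leaf)) (nat_lit 24590) (nat_lit 424) (.n (nat_lit 178) (nat_lit 2) (.n (nat_lit 179) (nat_lit 2) (.n (nat_lit 180) (nat_lit 1) (.n (nat_lit 181) (nat_lit 1) (.n (nat_lit 182) (nat_lit 1) (.p (nat_lit 183) (nat_lit 1) (.n (nat_lit 184) (nat_lit 1) (.n (nat_lit 186) (nat_lit 1) (.n (nat_lit 187) (nat_lit 2) (.p (nat_lit 188) (nat_lit 3) (.p (nat_lit 189) (nat_lit 2) (.p (nat_lit 191) (nat_lit 3) (.n (nat_lit 192) (nat_lit 1) (.p (nat_lit 194) (nat_lit 3) (.p (nat_lit 195) (nat_lit 3) (.n (nat_lit 197) (nat_lit 1) (.p (nat_lit 199) (nat_lit 1) (.p (nat_lit 203) (nat_lit 2) (.p (nat_lit 204) (nat_lit 2) (.n (nat_lit 205) (nat_lit 2) .z)))))))))))))))))))) (.ct dR2_c292 (nat_lit 1) (nat_lit 1) (.s true (nat_lit 1) (nat_lit 24) (nat_lit 1) (nat_lit 2) (nat_lit 2) true (nat_lit 7) true (nat_lit 10) false (nat_lit 1) true (nat_lit 11) true (nat_lit 10) (.e true (nat_lit 1) (nat_lit 59) (nat_lit 5) (nat_lit 7) (.e true (nat_lit 1) (nat_lit 102) (nat_lit 2) (nat_lit 10) (.e false (nat_lit 1) (nat_lit 137) (nat_lit 1) (nat_lit 11) (.e true (nat_lit 1) (nat_lit 109) (nat_lit 2) (nat_lit 10) (.u (nat_lit 2) (.p (nat_lit 1) (nat_lit 1) (.p (nat_lit 3) (nat_lit 1) (.n (nat_lit 12) (nat_lit 1) (.n (nat_lit 14) (nat_lit 1) .z)))) .nil))))))) (.nd (.nd .leaf (nat_lit 24591) (nat_lit 409) (.n (nat_lit 177) (nat_lit 1) (.n (nat_lit 178) (nat_lit 2) (.n (nat_lit 179) (nat_lit 1) (.n (nat_lit 180) (nat_lit 3) (.p (nat_lit 181) (nat_lit 2) (.p (nat_lit 182) (nat_lit 2) (.n (nat_lit 183) (nat_lit 3) (.p (nat_lit 184) (nat_lit 3) (.p (nat_lit 186) (nat_lit 3) (.p (nat_lit 187) (nat_lit 2) (.n (nat_lit 188) (nat_lit 3) (.p (nat_lit 189) (nat_lit 1) (.p (nat_lit 191) (nat_lit 2) (.p (nat_lit 192) (nat_lit 3) (.n (nat_lit 195) (nat_lit 3) (.p (nat_lit 196) (nat_lit 1) (.n (nat_lit 197) (nat_lit 1) (.p (nat_lit 198) (nat_lit 1) (.p (nat_lit 199) (nat_lit 2) (.n (nat_lit 204) (nat_lit 1) (.n (nat_lit 205) (nat_lit 1) (.n (nat_lit 206) (nat_lit 1) .z)))))))))))))))))))))) (.ct dR2_c292 (nat_lit 1) (nat_lit 1) (.s false (nat_lit 1) (nat_lit 24) (nat_lit 2) (nat_lit 2) (nat_lit 1) true (nat_lit 7) true (nat_lit 11) false (nat_lit 1) true (nat_lit 10) true (nat_lit 10) (.e false (nat_lit 1) (nat_lit 59) (nat_lit 5) (nat_lit 7) (.e false (nat_lit 1) (nat_lit 125) (nat_lit 1) (nat_lit 11) (.e true (nat_lit 1) (nat_lit 99) (nat_lit 2) (nat_lit 10) (.e true (nat_lit 3) (nat_lit 102) (nat_lit 2) (nat_lit 10) (.e false (nat_lit 1) (nat_lit 107) (nat_lit 2) (nat_lit 10) (.e true (nat_lit 1) (nat_lit 109) (nat_lit 2) (nat_lit 10) (.e false (nat_lit 1) (nat_lit 112) (nat_lit 2) (nat_lit 10) (.e false (nat_lit 1) (nat_lit 116) (nat_lit 2) (nat_lit 10) (.u (nat_lit 2) (.n (nat_lit 5) (nat_lit 1) .z) .nil))))))))))) .leaf) (nat_lit 25601) (nat_lit 69) (.n (nat_lit 45) (nat_lit 1) (.p (nat_lit 49) (nat_lit 1) (.n (nat_lit 53) (nat_lit 1) .z))) (.ct dR2_c290 (nat_lit 1) (nat_lit 5) (.s false (nat_lit 1) (nat_lit 6) (nat_lit 0) (nat_lit 1) (nat_lit 1) true (nat_lit 3) true (nat_lit 5) true (nat_lit 0) true (nat_lit 6) true (nat_lit 5) (.e false (nat_lit 1) (nat_lit 15) (nat_lit 3) (nat_lit 3) (.e true (nat_lit 1) (nat_lit 7) (nat_lit 6) (nat_lit 0) (.e false (nat_lit 2) (nat_lit 23) (nat_lit 1) (nat_lit 5) (.e false (nat_lit 1) (nat_lit 24) (nat_lit 1) (nat_lit 5) (.e true (nat_lit 1) (nat_lit 26) (nat_lit 1) (nat_lit 5) (.e false (nat_lit 1) (nat_lit 28) (nat_lit 1) (nat_lit 5) .nil)))))))) .leaf)))) (nat_lit 25602) (nat_lit 79) (.p (nat_lit 60) (nat_lit 1) .z) .df (.nd (.nd (.nd (.nd (.nd .leaf (nat_lit 25605) (nat_lit 191) (.n (nat_lit 97) (nat_lit 3) (.p (nat_lit 98) (nat_lit 1) (.p (nat_lit 99) (nat_lit 3) (.p (nat_lit 100) (nat_lit 3) (.p (nat_lit 101) (nat_lit 1) (.n (nat_lit 102) (nat_lit 2) (.n (nat_lit 103) (nat_lit 2) (.p (nat_lit 104) (nat_lit 2) (.p (nat_lit 105) (nat_lit 2) (.n (nat_lit 106) (nat_lit 1) (.n (nat_lit 107) (nat_lit 2) (.n (nat_lit 108) (nat_lit 1) (.n (nat_lit 109) (nat_lit 1) (.n (nat_lit 111) (nat_lit 3) (.p (nat_lit 112) (nat_lit 1) (.n (nat_lit 114) (nat_lit 1) (.p (nat_lit 115) (nat_lit 2) (.p (nat_lit 116) (nat_lit 1) (.p (nat_lit 117) (nat_lit 3) .z))))))))))))))))))) (.ct dR2_c291 (nat_lit 1) (nat_lit 4) (.s true (nat_lit 1) (nat_lit 10) (nat_lit 1) (nat_lit 2) (nat_lit 2) true (nat_lit 4) true (nat_lit 7) true (nat_lit 1) true (nat_lit 8) true (nat_lit 7) (.e true (nat_lit 1) (nat_lit 47) (nat_lit 2) (nat_lit 7) (.e false (nat_lit 1) (nat_lit 14) (nat_lit 10) (nat_lit 1) (.e false (nat_lit 1) (nat_lit 68) (nat_lit 1) (nat_lit 8) (.e false (nat_lit 1) (nat_lit 45) (nat_lit 2) (nat_lit 7) (.e true (nat_lit 1) (nat_lit 49) (nat_lit 2) (nat_lit 7) (.e false (nat_lit 1) (nat_lit 53) (nat_lit 2) (nat_lit 7) (.u (nat_lit 2) (.n (nat_lit 3) (nat_lit 1) (.n (nat_lit 8) (nat_lit 1) (.p (nat_lit 14) (nat_lit 1) (.n (nat_lit 18) (nat_lit 1) .z)))) .nil))))))))) .leaf) (nat_lit 25606) (nat_lit 233) (.p (nat_lit 138) (nat_lit 1) .z) .df (.nd .leaf (nat_lit 25614) (nat_lit 428) (.n (nat_lit 178) (nat_lit 1) (.n (nat_lit 179) (nat_lit 2) (.n (nat_lit 180) (nat_lit 1) (.p (nat_lit 181) (nat_lit 3) (.n (nat_lit 182) (nat_lit 1) (.n (nat_lit 183) (nat_lit 1) (.p (nat_lit 184) (nat_lit 1) (.n (nat_lit 185) (nat_lit 3) (.n (nat_lit 186) (nat_lit 3) (.p (nat_lit 187) (nat_lit 2) (.n (nat_lit 188) (nat_lit 3) (.p (nat_lit 189) (nat_lit 2) (.n (nat_lit 191) (nat_lit 2) (.n (nat_lit 192) (nat_lit 1) (.p (nat_lit 194) (nat_lit 1) (.n (nat_lit 195) (nat_lit 2) (.p (nat_lit 197) (nat_lit 3) (.p (nat_lit 199) (nat_lit 1) (.p (nat_lit 203) (nat_lit 2) (.p (nat_lit 204) (nat_lit 1) (.n (nat_lit 205) (nat_lit 2) (.n (nat_lit 206) (nat_lit 1) .z)))))))))))))))))))))) (.ct dR2_c292 (nat_lit 1) (nat_lit 1) (.s false (nat_lit 1) (nat_lit 25) (nat_lit 2) (nat_lit 1) (nat_lit 2) true (nat_lit 6) true (nat_lit 10) false (nat_lit 1) true (nat_lit 10) true (nat_lit 11) (.e false (nat_lit 1) (nat_lit 45) (nat_lit 6) (nat_lit 6) (.e true (nat_lit 1) (nat_lit 49) (nat_lit 6) (nat_lit 6) (.e false (nat_lit 1) (nat_lit 53) (nat_lit 6) (nat_lit 6) (.e true (nat_lit 3) (nat_lit 97) (nat_lit 2) (nat_lit 10) (.e false (nat_lit 2) (nat_lit 99) (nat_lit 2) (nat_lit 10) (.e true (nat_lit 1) (nat_lit 100) (nat_lit 2) (nat_lit 10) (.e true (nat_lit 3) (nat_lit 101) (nat_lit 2) (nat_lit 10) (.e true (nat_lit 1) (nat_lit 103) (nat_lit 2) (nat_lit 10) (.e false (nat_lit 1) (nat_lit 104) (nat_lit 2) (nat_lit 10) (.e false (nat_lit 1) (nat_lit 105) (nat_lit 2) (nat_lit 10) (.e true (nat_lit 2) (nat_lit 106) (nat_lit 2) (nat_lit 10) (.e false (nat_lit 1) (nat_lit 107) (nat_lit 2) (nat_lit 10) (.e false (nat_lit 2) (nat_lit 108) (nat_lit 2) (nat_lit 10) (.e false (nat_lit 2) (nat_lit 109) (nat_lit 2) (nat_lit 10) (.e false (nat_lit 1) (nat_lit 111) (nat_lit 2) (nat_lit 10) (.e false (nat_lit 2) (nat_lit 114) (nat_lit 2) (nat_lit 10) (.e false (nat_lit 1) (nat_lit 115) (nat_lit 2) (nat_lit 10) (.e true (nat_lit 2) (nat_lit 117) (nat_lit 2) (nat_lit 10) (.e false (nat_lit 2) (nat_lit 102) (nat_lit 2) (nat_lit 10) (.e true (nat_lit 1) (nat_lit 112) (nat_lit 2) (nat_lit 10) (.e true (nat_lit 1) (nat_lit 116) (nat_lit 2) (nat_lit 10) (.e false (nat_lit 1) (nat_lit 126) (nat_lit 1) (nat_lit 11) (.u (nat_lit 2) (.n (nat_lit 0) (nat_lit 1) (.n (nat_lit 4) (nat_lit 1) (.p (nat_lit 8) (nat_lit 1) (.p (nat_lit 11) (nat_lit 2) (.p (nat_lit 14) (nat_lit 1) (.p (nat_lit 17) (nat_lit 1) (.p (nat_lit 18) (nat_lit 1) (.n (nat_lit 20) (nat_lit 1) (.p (nat_lit 96) (nat_lit 1) (.n (nat_lit 98) (nat_lit 1) .z)))))))))) .nil))))))))))))))))))))))))) .leaf)) (nat_lit 25615) (nat_lit 402) (.n (nat_lit 177) (nat_lit 3) (.p (nat_lit 178) (nat_lit 1) (.p (nat_lit 179) (nat_lit 3) (.p (nat_lit 181) (nat_lit 3) (.p (nat_lit 182) (nat_lit 2) (.n (nat_lit 185) (nat_lit 1) (.n (nat_lit 186) (nat_lit 1) (.p (nat_lit 187) (nat_lit 3) (.n (nat_lit 188) (nat_lit 1) (.p (nat_lit 189) (nat_lit 1) (.p (nat_lit 191) (nat_lit 3) (.p (nat_lit 192) (nat_lit 3) (.p (nat_lit 194) (nat_lit 3) (.n (nat_lit 195) (nat_lit 1) (.p (nat_lit 196) (nat_lit 1) (.p (nat_lit 199) (nat_lit 2) (.p (nat_lit 203) (nat_lit 3) (.n (nat_lit 205) (nat_lit 1) (.n (nat_lit 206) (nat_lit 2) .z))))))))))))))))))) (.ct dR2_c292 (nat_lit 1) (nat_lit 1) (.s false (nat_lit 1) (nat_lit 25) (nat_lit 2) (nat_lit 2) (nat_lit 1) true (nat_lit 7) true (nat_lit 11) false (nat_lit 1) true (nat_lit 10) true (nat_lit 10) (.e false (nat_lit 1) (nat_lit 60) (nat_lit 5) (nat_lit 7) (.e false (nat_lit 1) (nat_lit 126) (nat_lit 1) (nat_lit 11) (.e true (nat_lit 3) (nat_lit 97) (nat_lit 2) (nat_lit 10) (.e false (nat_lit 2) (nat_lit 98) (nat_lit 2) (nat_lit 10) (.e false (nat_lit 3) (nat_lit 99) (nat_lit 2) (nat_lit 10) (.e false (nat_lit 3) (nat_lit 100) (nat_lit 2) (nat_lit 10) (.e false (nat_lit 1) (nat_lit 101) (nat_lit 2) (nat_lit 10) (.e true (nat_lit 3) (nat_lit 102) (nat_lit 2) (nat_lit 10) (.e true (nat_lit 2) (nat_lit 103) (nat_lit 2) (nat_lit 10) (.e false (nat_lit 2) (nat_lit 104) (nat_lit 2) (nat_lit 10) (.e false (nat_lit 2) (nat_lit 105) (nat_lit 2) (nat_lit 10) (.e true (nat_lit 2) (nat_lit 107) (nat_lit 2) (nat_lit 10) (.e true (nat_lit 1) (nat_lit 108) (nat_lit 2) (nat_lit 10) (.e true (nat_lit 1) (nat_lit 109) (nat_lit 2) (nat_lit 10) (.e true (nat_lit 3) (nat_lit 111) (nat_lit 2) (nat_lit 10) (.e false (nat_lit 1) (nat_lit 112) (nat_lit 2) (nat_lit 10) (.e true (nat_lit 1) (nat_lit 114) (nat_lit 2) (nat_lit 10) (.e false (nat_lit 2) (nat_lit 115) (nat_lit 2) (nat_lit 10) (.e false (nat_lit 1) (nat_lit 116) (nat_lit 2) (nat_lit 10) (.e false (nat_lit 3) (nat_lit 117) (nat_lit 2) (nat_lit 10) (.u (nat_lit 2) (.p (nat_lit 3) (nat_lit 1) (.n (nat_lit 5) (nat_lit 1) (.p (nat_lit 8) (nat_lit 1) (.n (nat_lit 14) (nat_lit 1) (.p (nat_lit 18) (nat_lit 1) .z))))) .nil))))))))))))))))))))))) (.nd (.nd .leaf (nat_lit 26625) (nat_lit 58) (.p (nat_lit 50) (nat_lit 1) .z) .df .leaf) (nat_lit 26626) (nat_lit 80) (.p (nat_lit 61) (nat_lit 1) .z) .df (.nd .leaf (nat_lit 26629) (nat_lit 193) (.n (nat_lit 97) (nat_lit 2) (.n (nat_lit 98) (nat_lit 3) (.p (nat_lit 99) (nat_lit 3) (.n (nat_lit 100) (nat_lit 3) (.p (nat_lit 101) (nat_lit 1) (.n (nat_lit 103) (nat_lit 2) (.p (nat_lit 104) (nat_lit 1) (.n (nat_lit 105) (nat_lit 3) (.p (nat_lit 106) (nat_lit 2) (.p (nat_lit 107) (nat_lit 2) (.n (nat_lit 108) (nat_lit 3) (.n (nat_lit 109) (nat_lit 1) (.p (nat_lit 110) (nat_lit 1) (.n (nat_lit 112) (nat_lit 3) (.p (nat_lit 114) (nat_lit 2) (.n (nat_lit 117) (nat_lit 2) .z)))))))))))))))) (.ct dR2_c291 (nat_lit 1) (nat_lit 4) (.s false (nat_lit 1) (nat_lit 6) (nat_lit 1) (nat_lit 3) (nat_lit 2) true (nat_lit 4) true (nat_lit 7) true (nat_lit 3) true (nat_lit 8) true (nat_lit 6) (.e true (nat_lit 1) (nat_lit 24) (nat_lit 5) (nat_lit 4) (.e false (nat_lit 1) (nat_lit 25) (nat_lit 5) (nat_lit 4) (.e false (nat_lit 1) (nat_lit 28) (nat_lit 5) (nat_lit 4) (.e false (nat_lit 2) (nat_lit 44) (nat_lit 2) (nat_lit 7) (.e true (nat_lit 1) (nat_lit 46) (nat_lit 2) (nat_lit 7) (.e false (nat_lit 1) (nat_lit 47) (nat_lit 2) (nat_lit 7) (.e true (nat_lit 1) (nat_lit 48) (nat_lit 2) (nat_lit 7) (.e true (nat_lit 1) (nat_lit 53) (nat_lit 2) (nat_lit 7) (.e true (nat_lit 1) (nat_lit 18) (nat_lit 6) (nat_lit 3) (.e false (nat_lit 1) (nat_lit 66) (nat_lit 1) (nat_lit 8) (.e true (nat_lit 1) (nat_lit 37) (nat_lit 3) (nat_lit 6) (.u (nat_lit 2) (.p (nat_lit 1) (nat_lit 1) (.p (nat_lit 3) (nat_lit 1) (.p (nat_lit 8) (nat_lit 1) (.n (nat_lit 9) (nat_lit 1) (.n (nat_lit 10) (nat_lit 1) (.n (nat_lit 17) (nat_lit 1) (.p (nat_lit 20) (nat_lit 1) .z))))))) .nil)))))))))))))) .leaf))) (nat_lit 26630) (nat_lit 245) (.n (nat_lit 124) (nat_lit 1) (.p (nat_lit 126) (nat_lit 1) (.p (nat_lit 127) (nat_lit 3) (.p (nat_lit 128) (nat_lit 1) (.p (nat_lit 129) (nat_lit 2) (.p (nat_lit 130) (nat_lit 2) (.p (nat_lit 131) (nat_lit 2) (.p (nat_lit 132) (nat_lit 1) (.n (nat_lit 133) (nat_lit 2) (.n (nat_lit 134) (nat_lit 2) (.n (nat_lit 137) (nat_lit 1) .z))))))))))) (.ct dR2_c276 (nat_lit 1) (nat_lit 2) (.s false (nat_lit 1) (nat_lit 12) (nat_lit 2) (nat_lit 1) (nat_lit 2) true (nat_lit 2) true (nat_lit 6) true (nat_lit 0) true (nat_lit 6) true (nat_lit 7) (.e false (nat_lit 1) (nat_lit 64) (nat_lit 2) (nat_lit 6) (.e false (nat_lit 1) (nat_lit 14) (nat_lit 12) (nat_lit 0) (.e false (nat_lit 1) (nat_lit 58) (nat_lit 2) (nat_lit 6) (.e false (nat_lit 1) (nat_lit 59) (nat_lit 2) (nat_lit 6) (.e true (nat_lit 1) (nat_lit 62) (nat_lit 2) (nat_lit 6) (.e false (nat_lit 2) (nat_lit 63) (nat_lit 2) (nat_lit 6) (.e false (nat_lit 1) (nat_lit 65) (nat_lit 2) (nat_lit 6) (.e true (nat_lit 1) (nat_lit 68) (nat_lit 2) (nat_lit 6) (.e false (nat_lit 1) (nat_lit 74) (nat_lit 1) (nat_lit 7) .nil))))))))))) (.nd (.nd (.nd .leaf (nat_lit 26638) (nat_lit 421) (.p (nat_lit 177) (nat_lit 1) (.p (nat_lit 178) (nat_lit 3) (.n (nat_lit 179) (nat_lit 1) (.p (nat_lit 180) (nat_lit 3) (.n (nat_lit 181) (nat_lit 1) (.n (nat_lit 183) (nat_lit 1) (.p (nat_lit 185) (nat_lit 3) (.p (nat_lit 186) (nat_lit 1) (.p (nat_lit 188) (nat_lit 1) (.p (nat_lit 189) (nat_lit 1) (.p (nat_lit 191) (nat_lit 3) (.p (nat_lit 192) (nat_lit 3) (.n (nat_lit 195) (nat_lit 3) (.p (nat_lit 200) (nat_lit 1) (.n (nat_lit 205) (nat_lit 1) .z))))))))))))))) (.ct dR2_c292 (nat_lit 1) (nat_lit 1) dR2_i0) .leaf) (nat_lit 26639) (nat_lit 407) (.p (nat_lit 178) (nat_lit 2) (.n (nat_lit 179) (nat_lit 1) (.p (nat_lit 180) (nat_lit 2) (.n (nat_lit 181) (nat_lit 2) (.n (nat_lit 182) (nat_lit 1) (.p (nat_lit 183) (nat_lit 1) (.n (nat_lit 184) (nat_lit 3) (.p (nat_lit 185) (nat_lit 2) (.p (nat_lit 186) (nat_lit 1) (.p (nat_lit 187) (nat_lit 2) (.p (nat_lit 188) (nat_lit 3) (.p (nat_lit 191) (nat_lit 3) (.p (nat_lit 194) (nat_lit 3) (.n (nat_lit 195) (nat_lit 1) (.p (nat_lit 197) (nat_lit 3) (.n (nat_lit 198) (nat_lit 1) (.p (nat_lit 200) (nat_lit 2) (.n (nat_lit 203) (nat_lit 3) (.n (nat_lit 204) (nat_lit 2) (.p (nat_lit 206) (nat_lit 1) .z)))))))))))))))))))) (.ct dR2_c292 (nat_lit 1) (nat_lit 1) (.s false (nat_lit 1) (nat_lit 26) (nat_lit 2) (nat_lit 2) (nat_lit 1) true (nat_lit 7) true (nat_lit 11) false (nat_lit 1) true (nat_lit 10) true (nat_lit 10) (.e false (nat_lit 1) (nat_lit 61) (nat_lit 5) (nat_lit 7) (.e false (nat_lit 1) (nat_lit 127) (nat_lit 1) (nat_lit 11) (.e true (nat_lit 2) (nat_lit 97) (nat_lit 2) (nat_lit 10) (.e true (nat_lit 3) (nat_lit 98) (nat_lit 2) (nat_lit 10) (.e false (nat_lit 3) (nat_lit 99) (nat_lit 2) (nat_lit 10) (.e true (nat_lit 3) (nat_lit 100) (nat_lit 2) (nat_lit 10) (.e false (nat_lit 1) (nat_lit 101) (nat_lit 2) (nat_lit 10) (.e true (nat_lit 3) (nat_lit 103) (nat_lit 2) (nat_lit 10) (.e false (nat_lit 1) (nat_lit 104) (nat_lit 2) (nat_lit 10) (.e true (nat_lit 3) (nat_lit 105) (nat_lit 2) (nat_lit 10) (.e false (nat_lit 2) (nat_lit 106) (nat_lit 2) (nat_lit 10) (.e false (nat_lit 2) (nat_lit 107) (nat_lit 2) (nat_lit 10) (.e true (nat_lit 3) (nat_lit 108) (nat_lit 2) (nat_lit 10) (.e true (nat_lit 1) (nat_lit 109) (nat_lit 2) (nat_lit 10) (.e false (nat_lit 1) (nat_lit 110) (nat_lit 2) (nat_lit 10) (.e true (nat_lit 3) (nat_lit 112) (nat_lit 2) (nat_lit 10) (.e false (nat_lit 2) (nat_lit 114) (nat_lit 2) (nat_lit 10) (.e true (nat_lit 2) (nat_lit 117) (nat_lit 2) (nat_lit 10) (.u (nat_lit 2) (.n (nat_lit 1) (nat_lit 1) (.p (nat_lit 2) (nat_lit 1) (.n (nat_lit 3) (nat_lit 1) (.n (nat_lit 6) (nat_lit 1) (.p (nat_lit 7) (nat_lit 1) (.n (nat_lit 8) (nat_lit 1) (.n (nat_lit 11) (nat_lit 1) (.n (nat_lit 20) (nat_lit 1) .z)))))))) .nil))))))))))))))))))))) (.nd .leaf (nat_lit 27649) (nat_lit 67) (.n (nat_lit 44) (nat_lit 2) (.n (nat_lit 45) (nat_lit 1) (.n (nat_lit 47) (nat_lit 1) (.p (nat_lit 49) (nat_lit 1) (.p (nat_lit 50) (nat_lit 2) (.p (nat_lit 52) (nat_lit 1) (.n (nat_lit 54) (nat_lit 1) .z))))))) (.ct dR2_c290 (nat_lit 1) (nat_lit 5) (.s true (nat_lit 1) (nat_lit 4) (nat_lit 1) (nat_lit 1) (nat_lit 2) true (nat_lit 1) true (nat_lit 4) true (nat_lit 2) true (nat_lit 5) true (nat_lit 5) (.e true (nat_lit 1) (nat_lit 9) (nat_lit 5) (nat_lit 1) (.e true (nat_lit 1) (nat_lit 20) (nat_lit 2) (nat_lit 4) (.e false (nat_lit 1) (nat_lit 23) (nat_lit 1) (nat_lit 5) (.e false (nat_lit 1) (nat_lit 24) (nat_lit 1) (nat_lit 5) (.e false (nat_lit 1) (nat_lit 28) (nat_lit 1) (nat_lit 5) (.e false (nat_lit 1) (nat_lit 26) (nat_lit 1) (nat_lit 5) .nil)))))))) .leaf)) (nat_lit 27650) (nat_lit 81) (.p (nat_lit 62) (nat_lit 1) .z) .df (.nd (.nd .leaf (nat_lit 27653) (nat_lit 199) (.n (nat_lit 97) (nat_lit 2) (.n (nat_lit 98) (nat_lit 1) (.n (nat_lit 99) (nat_lit 3) (.p (nat_lit 101) (nat_lit 3) (.p (nat_lit 102) (nat_lit 2) (.p (nat_lit 103) (nat_lit 3) (.p (nat_lit 104) (nat_lit 2) (.n (nat_lit 105) (nat_lit 1) (.n (nat_lit 106) (nat_lit 2) (.p (nat_lit 107) (nat_lit 2) (.p (nat_lit 109) (nat_lit 2) (.p (nat_lit 110) (nat_lit 2) (.p (nat_lit 111) (nat_lit 3) (.n (nat_lit 112) (nat_lit 1) (.n (nat_lit 114) (nat_lit 3) (.p (nat_lit 115) (nat_lit 2) (.n (nat_lit 116) (nat_lit 3) (.n (nat_lit 117) (nat_lit 3) .z)))))))))))))))))) (.ct dR2_c291 (nat_lit 1) (nat_lit 4) (.s true (nat_lit 1) (nat_lit 13) (nat_lit 1) (nat_lit 1) (nat_lit 2) true (nat_lit 4) true (nat_lit 7) false (nat_lit 0) true (nat_lit 8) true (nat_lit 8) (.e false (nat_lit 2) (nat_lit 44) (nat_lit 2) (nat_lit 7) (.e false (nat_lit 1) (nat_lit 45) (nat_lit 2) (nat_lit 7) (.e false (nat_lit 1) (nat_lit 47) (nat_lit 2) (nat_lit 7) (.e true (nat_lit 1) (nat_lit 49) (nat_lit 2) (nat_lit 7) (.e true (nat_lit 2) (nat_lit 50) (nat_lit 2) (nat_lit 7) (.e true (nat_lit 1) (nat_lit 52) (nat_lit 2) (nat_lit 7) (.e false (nat_lit 1) (nat_lit 54) (nat_lit 2) (nat_lit 7) (.e false (nat_lit 3) (nat_lit 58) (nat_lit 1) (nat_lit 8) (.e false (nat_lit 3) (nat_lit 59) (nat_lit 1) (nat_lit 8) (.e false (nat_lit 3) (nat_lit 62) (nat_lit 1) (nat_lit 8) (.e false (nat_lit 3) (nat_lit 63) (nat_lit 1) (nat_lit 8) (.e false (nat_lit 1) (nat_lit 67) (nat_lit 1) (nat_lit 8) (.e false (nat_lit 1) (nat_lit 66) (nat_lit 1) (nat_lit 8) (.e false (nat_lit 1) (nat_lit 68) (nat_lit 1) (nat_lit 8) (.u (nat_lit 2) (.p (nat_lit 0) (nat_lit 1) (.p (nat_lit 1) (nat_lit 1) (.p (nat_lit 2) (nat_lit 2) (.n (nat_lit 3) (nat_lit 1) (.p (nat_lit 4) (nat_lit 2) (.p (nat_lit 6) (nat_lit 2) (.n (nat_lit 7) (nat_lit 3) (.n (nat_lit 8) (nat_lit 3) (.p (nat_lit 9) (nat_lit 2) (.p (nat_lit 12) (nat_lit 1) (.p (nat_lit 13) (nat_lit 1) (.p (nat_lit 14) (nat_lit 1) (.n (nat_lit 17) (nat_lit 1) (.p (nat_lit 18) (nat_lit 2) (.n (nat_lit 57) (nat_lit 1) (.n (nat_lit 58) (nat_lit 1) (.n (nat_lit 62) (nat_lit 1) .z))))))))))))))))) .nil))))))))))))))))) .leaf) (nat_lit 27654) (nat_lit 257) (.p (nat_lit 124) (nat_lit 3) (.p (nat_lit 125) (nat_lit 3) (.n (nat_lit 128) (nat_lit 3) (.p (nat_lit 129) (nat_lit 3) (.n (nat_lit 132) (nat_lit 1) (.p (nat_lit 133) (nat_lit 1) (.p (nat_lit 134) (nat_lit 1) (.p (nat_lit 136) (nat_lit 1) (.p (nat_lit 137) (nat_lit 1) (.n (nat_lit 138) (nat_lit 1) .z)))))))))) (.ct dR2_c276 (nat_lit 1) (nat_lit 2) (.s false (nat_lit 1) (nat_lit 13) (nat_lit 2) (nat_lit 1) (nat_lit 2) true (nat_lit 2) true (nat_lit 6) true (nat_lit 0) true (nat_lit 6) true (nat_lit 7) (.e false (nat_lit 3) (nat_lit 58) (nat_lit 2) (nat_lit 6) (.e false (nat_lit 3) (nat_lit 59) (nat_lit 2) (nat_lit 6) (.e false (nat_lit 3) (nat_lit 62) (nat_lit 2) (nat_lit 6) (.e false (nat_lit 3) (nat_lit 63) (nat_lit 2) (nat_lit 6) (.e false (nat_lit 1) (nat_lit 66) (nat_lit 2) (nat_lit 6) (.e false (nat_lit 1) (nat_lit 68) (nat_lit 2) (nat_lit 6) (.e false (nat_lit 1) (nat_lit 14) (nat_lit 13) (nat_lit 0) (.e false (nat_lit 1) (nat_lit 67) (nat_lit 2) (nat_lit 6) (.e false (nat_lit 1) (nat_lit 75) (nat_lit 1) (nat_lit 7) (.u (nat_lit 2) (.p (nat_lit 4) (nat_lit 1) (.n (nat_lit 36) (nat_lit 1) (.n (nat_lit 37) (nat_lit 1) (.n (nat_lit 41) (nat_lit 1) .z)))) .nil)))))))))))) .leaf))) (nat_lit 27662) (nat_lit 435) (.p (nat_lit 177) (nat_lit 2) (.n (nat_lit 178) (nat_lit 1) (.n (nat_lit 180) (nat_lit 1) (.p (nat_lit 181) (nat_lit 1) (.n (nat_lit 182) (nat_lit 1) (.p (nat_lit 183) (nat_lit 1) (.n (nat_lit 184) (nat_lit 3) (.p (nat_lit 186) (nat_lit 1) (.p (nat_lit 187) (nat_lit 2) (.n (nat_lit 189) (nat_lit 1) (.p (nat_lit 191) (nat_lit 3) (.n (nat_lit 192) (nat_lit 3) (.n (nat_lit 194) (nat_lit 2) (.p (nat_lit 195) (nat_lit 2) (.p (nat_lit 197) (nat_lit 1) (.n (nat_lit 198) (nat_lit 1) (.p (nat_lit 200) (nat_lit 2) (.n (nat_lit 203) (nat_lit 2) (.p (nat_lit 205) (nat_lit 1) (.p (nat_lit 206) (nat_lit 1) .z)))))))))))))))))))) (.ct dR2_c292 (nat_lit 1) (nat_lit 1) (.s false (nat_lit 1) (nat_lit 14) (nat_lit 0) (nat_lit 2) (nat_lit 5) true (nat_lit 4) true (nat_lit 7) true (nat_lit 1) true (nat_lit 12) true (nat_lit 10) (.e false (nat_lit 1) (nat_lit 35) (nat_lit 10) (nat_lit 4) (.e false (nat_lit 1) (nat_lit 63) (nat_lit 5) (nat_lit 7) (.e false (nat_lit 1) (nat_lit 23) (nat_lit 14) (nat_lit 1) (.e false (nat_lit 1) (nat_lit 24) (nat_lit 14) (nat_lit 1) (.e false (nat_lit 1) (nat_lit 28) (nat_lit 14) (nat_lit 1) (.e true (nat_lit 2) (nat_lit 98) (nat_lit 2) (nat_lit 10) (.e true (nat_lit 3) (nat_lit 101) (nat_lit 2) (nat_lit 10) (.e true (nat_lit 1) (nat_lit 102) (nat_lit 2) (nat_lit 10) (.e false (nat_lit 1) (nat_lit 103) (nat_lit 2) (nat_lit 10) (.e true (nat_lit 2) (nat_lit 104) (nat_lit 2) (nat_lit 10) (.e false (nat_lit 2) (nat_lit 105) (nat_lit 2) (nat_lit 10) (.e true (nat_lit 3) (nat_lit 107) (nat_lit 2) (nat_lit 10) (.e true (nat_lit 2) (nat_lit 108) (nat_lit 2) (nat_lit 10) (.e true (nat_lit 1) (nat_lit 109) (nat_lit 2) (nat_lit 10) (.e false (nat_lit 1) (nat_lit 110) (nat_lit 2) (nat_lit 10) (.e true (nat_lit 3) (nat_lit 114) (nat_lit 2) (nat_lit 10) (.e true (nat_lit 3) (nat_lit 115) (nat_lit 2) (nat_lit 10) (.e false (nat_lit 1) (nat_lit 116) (nat_lit 2) (nat_lit 10) (.e true (nat_lit 3) (nat_lit 106) (nat_lit 2) (nat_lit 10) (.e false (nat_lit 1) (nat_lit 111) (nat_lit 2) (nat_lit 10) (.e true (nat_lit 3) (nat_lit 97) (nat_lit 2) (nat_lit 10) (.u (nat_lit 2) (.n (nat_lit 0) (nat_lit 1) (.n (nat_lit 1) (nat_lit 1) (.n (nat_lit 4) (nat_lit 1) (.p (nat_lit 8) (nat_lit 1) (.n (nat_lit 10) (nat_lit 1) (.p (nat_lit 12) (nat_lit 1) (.p (nat_lit 15) (nat_lit 1) (.n (nat_lit 28) (nat_lit 1) (.p (nat_lit 98) (nat_lit 1) (.p (nat_lit 100) (nat_lit 1) (.n (nat_lit 101) (nat_lit 1) (.p (nat_lit 103) (nat_lit 1) (.p (nat_lit 105) (nat_lit 1) (.p (nat_lit 106) (nat_lit 1) (.p (nat_lit 114) (nat_lit 1) (.p (nat_lit 115) (nat_lit 1) (.n (nat_lit 116) (nat_lit 1) .z))))))))))))))))) .nil)))))))))))))))))))))))) (.nd (.nd (.nd (.nd .leaf (nat_lit 27663) (nat_lit 414) (.p (nat_lit 177) (nat_lit 3) (.p (nat_lit 179) (nat_lit 2) (.p (nat_lit 181) (nat_lit 2) (.p (nat_lit 182) (nat_lit 1) (.p (nat_lit 184) (nat_lit 3) (.n (nat_lit 185) (nat_lit 2) (.n (nat_lit 186) (nat_lit 1) (.n (nat_lit 187) (nat_lit 2) (.p (nat_lit 189) (nat_lit 2) (.n (nat_lit 191) (nat_lit 3) (.n (nat_lit 192) (nat_lit 1) (.p (nat_lit 194) (nat_lit 2) (.p (nat_lit 195) (nat_lit 1) (.n (nat_lit 196) (nat_lit 2) (.n (nat_lit 197) (nat_lit 3) (.n (nat_lit 198) (nat_lit 2) (.n (nat_lit 200) (nat_lit 3) (.p (nat_lit 204) (nat_lit 2) (.n (nat_lit 205) (nat_lit 3) (.p (nat_lit 206) (nat_lit 2) .z)))))))))))))))))))) (.ct dR2_c292 (nat_lit 1) (nat_lit 1) (.s false (nat_lit 1) (nat_lit 27) (nat_lit 2) (nat_lit 2) (nat_lit 1) true (nat_lit 7) true (nat_lit 11) false (nat_lit 1) true (nat_lit 10) true (nat_lit 10) (.e false (nat_lit 1) (nat_lit 62) (nat_lit 5) (nat_lit 7) (.e false (nat_lit 1) (nat_lit 128) (nat_lit 1) (nat_lit 11) (.e true (nat_lit 3) (nat_lit 99) (nat_lit 2) (nat_lit 10) (.e false (nat_lit 3) (nat_lit 101) (nat_lit 2) (nat_lit 10) (.e false (nat_lit 1) (nat_lit 102) (nat_lit 2) (nat_lit 10) (.e false (nat_lit 1) (nat_lit 103) (nat_lit 2) (nat_lit 10) (.e false (nat_lit 2) (nat_lit 104) (nat_lit 2) (nat_lit 10) (.e true (nat_lit 2) (nat_lit 105) (nat_lit 2) (nat_lit 10) (.e true (nat_lit 2) (nat_lit 106) (nat_lit 2) (nat_lit 10) (.e false (nat_lit 3) (nat_lit 107) (nat_lit 2) (nat_lit 10) (.e false (nat_lit 2) (nat_lit 109) (nat_lit 2) (nat_lit 10) (.e false (nat_lit 2) (nat_lit 110) (nat_lit 2) (nat_lit 10) (.e false (nat_lit 3) (nat_lit 111) (nat_lit 2) (nat_lit 10) (.e true (nat_lit 1) (nat_lit 112) (nat_lit 2) (nat_lit 10) (.e true (nat_lit 3) (nat_lit 114) (nat_lit 2) (nat_lit 10) (.e false (nat_lit 2) (nat_lit 115) (nat_lit 2) (nat_lit 10) (.e true (nat_lit 3) (nat_lit 116) (nat_lit 2) (nat_lit 10) (.e true (nat_lit 3) (nat_lit 117) (nat_lit 2) (nat_lit 10) (.e false (nat_lit 1) (nat_lit 100) (nat_lit 2) (nat_lit 10) (.u (nat_lit 2) (.n (nat_lit 0) (nat_lit 1) (.n (nat_lit 2) (nat_lit 1) (.n (nat_lit 9) (nat_lit 1) (.p (nat_lit 10) (nat_lit 1) (.p (nat_lit 14) (nat_lit 1) (.n (nat_lit 17) (nat_lit 1) (.p (nat_lit 23) (nat_lit 1) (.p (nat_lit 28) (nat_lit 1) .z)))))))) .nil)))))))))))))))))))))) .leaf) (nat_lit 28673) (nat_lit 66) (.n (nat_lit 44) (nat_lit 2) (.n (nat_lit 45) (nat_lit 1) (.p (nat_lit 46) (nat_lit 1) (.n (nat_lit 47) (nat_lit 1) (.n (nat_lit 48) (nat_lit 1) (.p (nat_lit 50) (nat_lit 1) (.p (nat_lit 52) (nat_lit 1) .z))))))) (.ct dR2_c290 (nat_lit 1) (nat_lit 5) (.s false (nat_lit 3) (nat_lit 3) (nat_lit 1) (nat_lit 2) (nat_lit 2) true (nat_lit 1) true (nat_lit 4) true (nat_lit 3) true (nat_lit 5) true (nat_lit 4) (.s false (nat_lit 3) (nat_lit 6) (nat_lit 0) (nat_lit 1) (nat_lit 1) true (nat_lit 3) true (nat_lit 5) true (nat_lit 0) true (nat_lit 6) true (nat_lit 5) (.e false (nat_lit 3) (nat_lit 8) (nat_lit 5) (nat_lit 1) (.e false (nat_lit 3) (nat_lit 18) (nat_lit 2) (nat_lit 4) (.e true (nat_lit 3) (nat_lit 14) (nat_lit 3) (nat_lit 3) (.e false (nat_lit 1) (nat_lit 26) (nat_lit 1) (nat_lit 5) (.e false (nat_lit 3) (nat_lit 19) (nat_lit 2) (nat_lit 4) (.e false (nat_lit 3) (nat_lit 15) (nat_lit 3) (nat_lit 3) (.e true (nat_lit 3) (nat_lit 7) (nat_lit 6) (nat_lit 0) (.e true (nat_lit 1) (nat_lit 23) (nat_lit 1) (nat_lit 5) (.u (nat_lit 2) (.p (nat_lit 0) (nat_lit 2) (.p (nat_lit 1) (nat_lit 1) (.n (nat_lit 2) (nat_lit 1) (.p (nat_lit 3) (nat_lit 1) (.n (nat_lit 8) (nat_lit 1) (.p (nat_lit 22) (nat_lit 1) (.n (nat_lit 25) (nat_lit 1) (.p (nat_lit 27) (nat_lit 1) .z)))))))) .nil)))))))))))) (.nd .leaf (nat_lit 28674) (nat_lit 82) (.p (nat_lit 63) (nat_lit 1) .z) .df .leaf)) (nat_lit 28677) (nat_lit 185) (.n (nat_lit 97) (nat_lit 1) (.p (nat_lit 98) (nat_lit 1) (.n (nat_lit 101) (nat_lit 1) (.n (nat_lit 104) (nat_lit 1) (.p (nat_lit 105) (nat_lit 3) (.n (nat_lit 106) (nat_lit 3) (.n (nat_lit 107) (nat_lit 2) (.n (nat_lit 108) (nat_lit 2) (.n (nat_lit 109) (nat_lit 1) (.p (nat_lit 110) (nat_lit 1) (.p (nat_lit 111) (nat_lit 3) (.n (nat_lit 112) (nat_lit 3) (.n (nat_lit 114) (nat_lit 3) (.n (nat_lit 115) (nat_lit 2) (.p (nat_lit 117) (nat_lit 1) .z))))))))))))))) (.ct dR2_c291 (nat_lit 1) (nat_lit 4) (.s false (nat_lit 1) (nat_lit 5) (nat_lit 1) (nat_lit 4) (nat_lit 2) true (nat_lit 4) true (nat_lit 7) true (nat_lit 4) true (nat_lit 8) true (nat_lit 5) (.s true (nat_lit 1) (nat_lit 6) (nat_lit 2) (nat_lit 1) (nat_lit 3) true (nat_lit 1) true (nat_lit 6) true (nat_lit 3) true (nat_lit 7) true (nat_lit 8) (.s true (nat_lit 2) (nat_lit 6) (nat_lit 4) (nat_lit 1) (nat_lit 1) true (nat_lit 1) true (nat_lit 8) true (nat_lit 3) true (nat_lit 5) true (nat_lit 8) (.s true (nat_lit 1) (nat_lit 13) (nat_lit 1) (nat_lit 1) (nat_lit 2) true (nat_lit 4) true (nat_lit 7) false (nat_lit 0) true (nat_lit 8) true (nat_lit 8) (.s true (nat_lit 1) (nat_lit 14) (nat_lit 0) (nat_lit 1) (nat_lit 2) true (nat_lit 5) true (nat_lit 7) false (nat_lit 1) true (nat_lit 9) true (nat_lit 8) (.s true (nat_lit 1) (nat_lit 14) (nat_lit 0) (nat_lit 2) (nat_lit 1) true (nat_lit 6) true (nat_lit 8) false (nat_lit 1) true (nat_lit 9) true (nat_lit 7) (.s true (nat_lit 2) (nat_lit 16) (nat_lit 0) (nat_lit 1) (nat_lit 1) true (nat_lit 6) true (nat_lit 8) false (nat_lit 2) true (nat_lit 9) true (nat_lit 8) dR2_i1)))))))) (.nd (.nd .leaf (nat_lit 28678) (nat_lit 254) (.n (nat_lit 124) (nat_lit 1) (.p (nat_lit 126) (nat_lit 1) (.p (nat_lit 127) (nat_lit 3) (.p (nat_lit 128) (nat_lit 1) (.p (nat_lit 129) (nat_lit 2) (.p (nat_lit 130) (nat_lit 2) (.p (nat_lit 131) (nat_lit 2) (.n (nat_lit 132) (nat_lit 1) (.n (nat_lit 133) (nat_lit 2) (.n (nat_lit 134) (nat_lit 2) (.n (nat_lit 138) (nat_lit 1) .z))))))))))) (.ct dR2_c276 (nat_lit 1) (nat_lit 2) (.s false (nat_lit 1) (nat_lit 6) (nat_lit 2) (nat_lit 3) (nat_lit 2) true (nat_lit 2) true (nat_lit 6) true (nat_lit 2) true (nat_lit 6) true (nat_lit 5) (.e false (nat_lit 1) (nat_lit 24) (nat_lit 6) (nat_lit 2) (.e true (nat_lit 1) (nat_lit 25) (nat_lit 6) (nat_lit 2) (.e false (nat_lit 1) (nat_lit 26) (nat_lit 6) (nat_lit 2) (.e false (nat_lit 1) (nat_lit 59) (nat_lit 2) (nat_lit 6) (.e true (nat_lit 1) (nat_lit 60) (nat_lit 2) (nat_lit 6) (.e false (nat_lit 1) (nat_lit 61) (nat_lit 2) (nat_lit 6) (.e true (nat_lit 1) (nat_lit 63) (nat_lit 2) (nat_lit 6) (.e true (nat_lit 2) (nat_lit 66) (nat_lit 2) (nat_lit 6) (.e true (nat_lit 1) (nat_lit 23) (nat_lit 6) (nat_lit 2) (.e false (nat_lit 1) (nat_lit 38) (nat_lit 3) (nat_lit 5) .nil)))))))))))) .leaf) (nat_lit 28686) (nat_lit 431) (.n (nat_lit 177) (nat_lit 3) (.n (nat_lit 178) (nat_lit 1) (.p (nat_lit 180) (nat_lit 2) (.n (nat_lit 181) (nat_lit 1) (.p (nat_lit 183) (nat_lit 1) (.n (nat_lit 184) (nat_lit 2) (.n (nat_lit 185) (nat_lit 1) (.p (nat_lit 186) (nat_lit 1) (.p (nat_lit 187) (nat_lit 3) (.p (nat_lit 188) (nat_lit 3) (.p (nat_lit 189) (nat_lit 1) (.n (nat_lit 191) (nat_lit 1) (.p (nat_lit 192) (nat_lit 3) (.n (nat_lit 195) (nat_lit 1) (.p (nat_lit 197) (nat_lit 3) (.n (nat_lit 198) (nat_lit 1) (.p (nat_lit 200) (nat_lit 1) (.n (nat_lit 203) (nat_lit 3) (.n (nat_lit 204) (nat_lit 3) (.n (nat_lit 205) (nat_lit 1) .z)))))))))))))))))))) (.ct dR2_c292 (nat_lit 1) (nat_lit 1) (.s true (nat_lit 1) (nat_lit 14) (nat_lit 2) (nat_lit 2) (nat_lit 3) true (nat_lit 4) true (nat_lit 9) true (nat_lit 1) true (nat_lit 10) true (nat_lit 10) (.e false (nat_lit 1) (nat_lit 35) (nat_lit 8) (nat_lit 4) (.e true (nat_lit 1) (nat_lit 78) (nat_lit 3) (nat_lit 9) (.e false (nat_lit 1) (nat_lit 24) (nat_lit 14) (nat_lit 1) (.e true (nat_lit 1) (nat_lit 25) (nat_lit 14) (nat_lit 1) (.e false (nat_lit 1) (nat_lit 26) (nat_lit 14) (nat_lit 1) (.e true (nat_lit 2) (nat_lit 101) (nat_lit 2) (nat_lit 10) (.e false (nat_lit 1) (nat_lit 106) (nat_lit 2) (nat_lit 10) (.e true (nat_lit 1) (nat_lit 108) (nat_lit 2) (nat_lit 10) (.e false (nat_lit 1) (nat_lit 115) (nat_lit 2) (nat_lit 10) (.e true (nat_lit 1) (nat_lit 97) (nat_lit 2) (nat_lit 10) (.e true (nat_lit 1) (nat_lit 98) (nat_lit 2) (nat_lit 10) (.e false (nat_lit 1) (nat_lit 99) (nat_lit 2) (nat_lit 10) (.e true (nat_lit 1) (nat_lit 100) (nat_lit 2) (nat_lit 10) (.e false (nat_lit 1) (nat_lit 105) (nat_lit 2) (nat_lit 10) (.u (nat_lit 2) (.n (nat_lit 4) (nat_lit 1) (.p (nat_lit 8) (nat_lit 1) (.n (nat_lit 10) (nat_lit 1) (.p (nat_lit 11) (nat_lit 1) (.p (nat_lit 14) (nat_lit 1) (.p (nat_lit 18) (nat_lit 1) (.n (nat_lit 20) (nat_lit 1) (.p (nat_lit 27) (nat_lit 1) .z)))))))) .nil))))))))))))))))) .leaf)) (nat_lit 28687) (nat_lit 410) (.n (nat_lit 177) (nat_lit 3) (.p (nat_lit 178) (nat_lit 3) (.p (nat_lit 179) (nat_lit 2) (.n (nat_lit 180) (nat_lit 1) (.n (nat_lit 182) (nat_lit 1) (.n (nat_lit 183) (nat_lit 2) (.p (nat_lit 185) (nat_lit 2) (.n (nat_lit 186) (nat_lit 3) (.p (nat_lit 187) (nat_lit 1) (.n (nat_lit 191) (nat_lit 1) (.n (nat_lit 194) (nat_lit 1) (.n (nat_lit 195) (nat_lit 3) (.p (nat_lit 197) (nat_lit 1) (.n (nat_lit 198) (nat_lit 2) (.p (nat_lit 200) (nat_lit 2) (.p (nat_lit 203) (nat_lit 3) (.n (nat_lit 204) (nat_lit 3) .z))))))))))))))))) (.ct dR2_c292 (nat_lit 1) (nat_lit 1) (.s true (nat_lit 1) (nat_lit 6) (nat_lit 1) (nat_lit 3) (nat_lit 6) true (nat_lit 1) true (nat_lit 6) true (nat_lit 6) true (nat_lit 11) true (nat_lit 9) (.e false (nat_lit 1) (nat_lit 24) (nat_lit 15) (nat_lit 1) (.e true (nat_lit 1) (nat_lit 25) (nat_lit 15) (nat_lit 1) (.e false (nat_lit 1) (nat_lit 26) (nat_lit 15) (nat_lit 1) (.e true (nat_lit 2) (nat_lit 44) (nat_lit 6) (nat_lit 6) (.e false (nat_lit 1) (nat_lit 46) (nat_lit 6) (nat_lit 6) (.e true (nat_lit 1) (nat_lit 47) (nat_lit 6) (nat_lit 6) (.e false (nat_lit 1) (nat_lit 48) (nat_lit 6) (nat_lit 6) (.e false (nat_lit 1) (nat_lit 53) (nat_lit 6) (nat_lit 6) (.e false (nat_lit 1) (nat_lit 52) (nat_lit 6) (nat_lit 6) (.e true (nat_lit 2) (nat_lit 132) (nat_lit 1) (nat_lit 11) (.u (nat_lit 2) (.n (nat_lit 1) (nat_lit 1) (.n (nat_lit 2) (nat_lit 1) (.p (nat_lit 9) (nat_lit 1) (.p (nat_lit 14) (nat_lit 1) (.p (nat_lit 17) (nat_lit 1) (.n (nat_lit 26) (nat_lit 2) .z)))))) .nil))))))))))))) (.nd (.nd (.nd .leaf (nat_lit 29696) (nat_lit 59) (.p (nat_lit 51) (nat_lit 1) .z) .df .leaf) (nat_lit 29697) (nat_lit 73) (.p (nat_lit 56) (nat_lit 1) .z) .df (.nd .leaf (nat_lit 29698) (nat_lit 97) (.p (nat_lit 69) (nat_lit 1) .z) .df .leaf)) (nat_lit 29699) (nat_lit 151) (.n (nat_lit 82) (nat_lit 1) (.n (nat_lit 83) (nat_lit 2) (.n (nat_lit 84) (nat_lit 2) (.n (nat_lit 86) (nat_lit 3) (.p (nat_lit 87) (nat_lit 1) (.n (nat_lit 88) (nat_lit 2) (.p (nat_lit 90) (nat_lit 3) (.p (nat_lit 93) (nat_lit 3) (.p (nat_lit 94) (nat_lit 3) (.p (nat_lit 96) (nat_lit 2) .z)))))))))) (.ct dR2_c306 (nat_lit 1) (nat_lit 5) (.s true (nat_lit 1) (nat_lit 5) (nat_lit 1) (nat_lit 2) (nat_lit 3) true (nat_lit 1) true (nat_lit 5) true (nat_lit 3) true (nat_lit 7) true (nat_lit 6) (.e true (nat_lit 1) (nat_lit 14) (nat_lit 7) (nat_lit 1) (.e true (nat_lit 1) (nat_lit 18) (nat_lit 5) (nat_lit 3) (.e false (nat_lit 1) (nat_lit 20) (nat_lit 5) (nat_lit 3) (.e true (nat_lit 1) (nat_lit 21) (nat_lit 5) (nat_lit 3) (.e true (nat_lit 1) (nat_lit 53) (nat_lit 1) (nat_lit 7) (.e false (nat_lit 1) (nat_lit 39) (nat_lit 2) (nat_lit 6) (.e true (nat_lit 1) (nat_lit 41) (nat_lit 2) (nat_lit 6) (.e false (nat_lit 1) (nat_lit 43) (nat_lit 2) (nat_lit 6) (.u (nat_lit 2) (.p (nat_lit 1) (nat_lit 1) (.n (nat_lit 11) (nat_lit 1) (.n (nat_lit 12) (nat_lit 1) (.n (nat_lit 14) (nat_lit 1) .z)))) .nil))))))))))) (.nd (.nd .leaf (nat_lit 29700) (nat_lit 201) (.n (nat_lit 97) (nat_lit 3) (.n (nat_lit 98) (nat_lit 3) (.n (nat_lit 100) (nat_lit 1) (.n (nat_lit 101) (nat_lit 2) (.n (nat_lit 102) (nat_lit 1) (.p (nat_lit 103) (nat_lit 2) (.n (nat_lit 104) (nat_lit 3) (.p (nat_lit 105) (nat_lit 3) (.n (nat_lit 106) (nat_lit 1) (.n (nat_lit 107) (nat_lit 3) (.p (nat_lit 108) (nat_lit 3) (.n (nat_lit 109) (nat_lit 2) (.p (nat_lit 112) (nat_lit 1) (.p (nat_lit 113) (nat_lit 1) (.p (nat_lit 114) (nat_lit 1) (.n (nat_lit 115) (nat_lit 3) (.p (nat_lit 116) (nat_lit 1) (.p (nat_lit 117) (nat_lit 2) .z)))))))))))))))))) (.ct dR2_c291 (nat_lit 1) (nat_lit 5) (.s true (nat_lit 1) (nat_lit 11) (nat_lit 0) (nat_lit 2) (nat_lit 2) true (nat_lit 5) true (nat_lit 7) true (nat_lit 0) true (nat_lit 9) true (nat_lit 7) (.e true (nat_lit 1) (nat_lit 44) (nat_lit 2) (nat_lit 7) (.e false (nat_lit 1) (nat_lit 45) (nat_lit 2) (nat_lit 7) (.e true (nat_lit 1) (nat_lit 47) (nat_lit 2) (nat_lit 7) (.e false (nat_lit 1) (nat_lit 12) (nat_lit 11) (nat_lit 0) (.e false (nat_lit 1) (nat_lit 69) (nat_lit 0) (nat_lit 9) (.e false (nat_lit 1) (nat_lit 70) (nat_lit 0) (nat_lit 9) (.e true (nat_lit 1) (nat_lit 71) (nat_lit 0) (nat_lit 9) (.e false (nat_lit 1) (nat_lit 73) (nat_lit 0) (nat_lit 9) (.e true (nat_lit 1) (nat_lit 51) (nat_lit 2) (nat_lit 7) (.u (nat_lit 2) (.p (nat_lit 1) (nat_lit 1) (.p (nat_lit 4) (nat_lit 1) (.n (nat_lit 8) (nat_lit 1) (.p (nat_lit 9) (nat_lit 1) (.p (nat_lit 12) (nat_lit 1) (.n (nat_lit 13) (nat_lit 1) (.p (nat_lit 15) (nat_lit 1) .z))))))) .nil)))))))))))) .leaf) (nat_lit 29701) (nat_lit 210) (.p (nat_lit 123) (nat_lit 1) .z) .df .leaf))))) (nat_lit 29702) (nat_lit 272) (.n (nat_lit 141) (nat_lit 2) (.p (nat_lit 142) (nat_lit 3) (.n (nat_lit 143) (nat_lit 3) (.n (nat_lit 144) (nat_lit 1) (.p (nat_lit 145) (nat_lit 1) .z))))) (.ct dR2_c36 (nat_lit 1) (nat_lit 2) (.s false (nat_lit 1) (nat_lit 6) (nat_lit 1) (nat_lit 5) (nat_lit 2) true (nat_lit 3) true (nat_lit 4) true (nat_lit 2) true (nat_lit 5) true (nat_lit 3) (.e true (nat_lit 1) (nat_lit 36) (nat_lit 5) (nat_lit 3) (.e false (nat_lit 2) (nat_lit 69) (nat_lit 2) (nat_lit 4) (.e false (nat_lit 2) (nat_lit 70) (nat_lit 2) (nat_lit 4) (.e true (nat_lit 1) (nat_lit 71) (nat_lit 2) (nat_lit 4) (.e true (nat_lit 1) (nat_lit 73) (nat_lit 2) (nat_lit 4) (.e false (nat_lit 1) (nat_lit 81) (nat_lit 1) (nat_lit 5) (.u (nat_lit 2) (.n (nat_lit 2) (nat_lit 1) (.p (nat_lit 3) (nat_lit 1) .z)) .nil))))))))) (.nd (.nd (.nd (.nd (.nd (.nd .leaf (nat_lit 29704) (nat_lit 340) (.n (nat_lit 146) (nat_lit 2) (.p (nat_lit 147) (nat_lit 2) (.n (nat_lit 148) (nat_lit 1) (.n (nat_lit 150) (nat_lit 1) (.n (nat_lit 151) (nat_lit 1) (.p (nat_lit 152) (nat_lit 2) (.p (nat_lit 154) (nat_lit 3) (.n (nat_lit 157) (nat_lit 3) (.p (nat_lit 158) (nat_lit 2) (.p (nat_lit 160) (nat_lit 3) (.p (nat_lit 161) (nat_lit 2) (.p (nat_lit 162) (nat_lit 2) (.p (nat_lit 164) (nat_lit 2) (.n (nat_lit 167) (nat_lit 1) (.n (nat_lit 171) (nat_lit 1) (.p (nat_lit 173) (nat_lit 1) (.p (nat_lit 174) (nat_lit 3) (.n (nat_lit 176) (nat_lit 2) .z)))))))))))))))))) (.ct dR2_c307 (nat_lit 1) (nat_lit 4) (.s false (nat_lit 1) (nat_lit 8) (nat_lit 1) (nat_lit 5) (nat_lit 2) true (nat_lit 7) true (nat_lit 10) true (nat_lit 4) true (nat_lit 11) true (nat_lit 7) (.e false (nat_lit 1) (nat_lit 53) (nat_lit 5) (nat_lit 7) (.e true (nat_lit 1) (nat_lit 84) (nat_lit 2) (nat_lit 10) (.e false (nat_lit 1) (nat_lit 90) (nat_lit 2) (nat_lit 10) (.e true (nat_lit 1) (nat_lit 94) (nat_lit 2) (nat_lit 10) (.e true (nat_lit 1) (nat_lit 101) (nat_lit 1) (nat_lit 11) (.e false (nat_lit 1) (nat_lit 106) (nat_lit 1) (nat_lit 11) (.e true (nat_lit 1) (nat_lit 108) (nat_lit 1) (nat_lit 11) (.e false (nat_lit 1) (nat_lit 115) (nat_lit 1) (nat_lit 11) (.e false (nat_lit 1) (nat_lit 48) (nat_lit 5) (nat_lit 7) (.u (nat_lit 2) (.p (nat_lit 11) (nat_lit 1) .z) .nil)))))))))))) .leaf) (nat_lit 29708) (nat_lit 437) (.p (nat_lit 177) (nat_lit 3) (.n (nat_lit 178) (nat_lit 2) (.p (nat_lit 179) (nat_lit 1) (.p (nat_lit 180) (nat_lit 2) (.p (nat_lit 182) (nat_lit 2) (.p (nat_lit 183) (nat_lit 3) (.n (nat_lit 184) (nat_lit 2) (.p (nat_lit 185) (nat_lit 1) (.p (nat_lit 186) (nat_lit 2) (.p (nat_lit 187) (nat_lit 1) (.p (nat_lit 188) (nat_lit 1) (.n (nat_lit 189) (nat_lit 2) (.n (nat_lit 190) (nat_lit 2) (.n (nat_lit 191) (nat_lit 2) (.p (nat_lit 192) (nat_lit 1) (.p (nat_lit 193) (nat_lit 2) (.p (nat_lit 194) (nat_lit 3) (.p (nat_lit 195) (nat_lit 1) (.n (nat_lit 196) (nat_lit 2) (.p (nat_lit 197) (nat_lit 1) (.p (nat_lit 198) (nat_lit 1) (.p (nat_lit 201) (nat_lit 1) (.n (nat_lit 202) (nat_lit 1) (.n (nat_lit 203) (nat_lit 3) (.p (nat_lit 204) (nat_lit 3) (.p (nat_lit 205) (nat_lit 2) (.n (nat_lit 206) (nat_lit 1) .z))))))))))))))))))))))))))) (.ct dR2_c292 (nat_lit 1) (nat_lit 2) (.s true (nat_lit 1) (nat_lit 11) (nat_lit 4) (nat_lit 2) (nat_lit 2) true (nat_lit 2) true (nat_lit 10) true (nat_lit 3) true (nat_lit 8) true (nat_lit 10) (.e false (nat_lit 1) (nat_lit 103) (nat_lit 2) (nat_lit 10) (.e true (nat_lit 2) (nat_lit 107) (nat_lit 2) (nat_lit 10) (.e false (nat_lit 1) (nat_lit 32) (nat_lit 11) (nat_lit 3) (.e false (nat_lit 1) (nat_lit 69) (nat_lit 4) (nat_lit 8) (.e false (nat_lit 1) (nat_lit 70) (nat_lit 4) (nat_lit 8) (.e true (nat_lit 1) (nat_lit 71) (nat_lit 4) (nat_lit 8) (.e false (nat_lit 1) (nat_lit 73) (nat_lit 4) (nat_lit 8) (.e true (nat_lit 3) (nat_lit 97) (nat_lit 2) (nat_lit 10) (.e true (nat_lit 3) (nat_lit 98) (nat_lit 2) (nat_lit 10) (.e true (nat_lit 1) (nat_lit 100) (nat_lit 2) (nat_lit 10) (.e true (nat_lit 2) (nat_lit 101) (nat_lit 2) (nat_lit 10) (.e true (nat_lit 3) (nat_lit 104) (nat_lit 2) (nat_lit 10) (.e false (nat_lit 3) (nat_lit 105) (nat_lit 2) (nat_lit 10) (.e true (nat_lit 1) (nat_lit 106) (nat_lit 2) (nat_lit 10) (.e false (nat_lit 3) (nat_lit 108) (nat_lit 2) (nat_lit 10) (.e true (nat_lit 2) (nat_lit 109) (nat_lit 2) (nat_lit 10) (.e false (nat_lit 1) (nat_lit 112) (nat_lit 2) (nat_lit 10) (.e false (nat_lit 1) (nat_lit 113) (nat_lit 2) (nat_lit 10) (.e false (nat_lit 1) (nat_lit 114) (nat_lit 2) (nat_lit 10) (.e true (nat_lit 3) (nat_lit 115) (nat_lit 2) (nat_lit 10) (.e false (nat_lit 1) (nat_lit 116) (nat_lit 2) (nat_lit 10) (.e false (nat_lit 2) (nat_lit 117) (nat_lit 2) (nat_lit 10) (.u (nat_lit 2) (.n (nat_lit 0) (nat_lit 1) (.p (nat_lit 1) (nat_lit 1) (.p (nat_lit 4) (nat_lit 1) (.p (nat_lit 7) (nat_lit 1) (.n (nat_lit 8) (nat_lit 1) (.n (nat_lit 10) (nat_lit 1) (.p (nat_lit 13) (nat_lit 1) (.p (nat_lit 14) (nat_lit 1) (.n (nat_lit 15) (nat_lit 1) (.p (nat_lit 19) (nat_lit 1) (.n (nat_lit 20) (nat_lit 1) (.p (nat_lit 23) (nat_lit 1) (.p (nat_lit 26) (nat_lit 1) (.n (nat_lit 27) (nat_lit 2) .z)))))))))))))) .nil))))))))))))))))))))))))) (.nd .leaf (nat_lit 29710) (nat_lit 454) (.p (nat_lit 207) (nat_lit 3) (.n (nat_lit 209) (nat_lit 3) (.p (nat_lit 210) (nat_lit 1) (.p (nat_lit 211) (nat_lit 1) (.n (nat_lit 212) (nat_lit 1) (.p (nat_lit 213) (nat_lit 1) (.n (nat_lit 215) (nat_lit 2) .z))))))) (.ct dR2_c52 (nat_lit 1) (nat_lit 1) (.s false (nat_lit 1) (nat_lit 29) (nat_lit 2) (nat_lit 1) (nat_lit 2) true (nat_lit 3) true (nat_lit 5) false (nat_lit 1) true (nat_lit 5) true (nat_lit 6) (.e true (nat_lit 1) (nat_lit 56) (nat_lit 6) (nat_lit 3) (.e false (nat_lit 1) (nat_lit 121) (nat_lit 2) (nat_lit 5) (.e true (nat_lit 1) (nat_lit 123) (nat_lit 2) (nat_lit 5) (.e false (nat_lit 1) (nat_lit 140) (nat_lit 1) (nat_lit 6) .nil)))))) .leaf)) (nat_lit 30720) (nat_lit 70) (.n (nat_lit 45) (nat_lit 2) (.n (nat_lit 46) (nat_lit 1) (.p (nat_lit 47) (nat_lit 1) (.n (nat_lit 48) (nat_lit 1) (.p (nat_lit 50) (nat_lit 2) (.n (nat_lit 51) (nat_lit 1) (.p (nat_lit 52) (nat_lit 1) (.n (nat_lit 53) (nat_lit 1) (.n (nat_lit 54) (nat_lit 2) .z))))))))) (.ct dR2_c290 (nat_lit 1) (nat_lit 6) (.s true (nat_lit 1) (nat_lit 5) (nat_lit 2) (nat_lit 1) (nat_lit 0) true (nat_lit 2) true (nat_lit 6) true (nat_lit 1) true (nat_lit 4) true (nat_lit 5) (.e false (nat_lit 1) (nat_lit 11) (nat_lit 4) (nat_lit 2) (.e false (nat_lit 1) (nat_lit 10) (nat_lit 5) (nat_lit 1) (.e false (nat_lit 1) (nat_lit 18) (nat_lit 2) (nat_lit 4) (.e true (nat_lit 1) (nat_lit 20) (nat_lit 2) (nat_lit 4) (.e false (nat_lit 1) (nat_lit 21) (nat_lit 2) (nat_lit 4) (.e false (nat_lit 1) (nat_lit 25) (nat_lit 1) (nat_lit 5) .nil)))))))) (.nd (.nd .leaf (nat_lit 30721) (nat_lit 74) (.p (nat_lit 57) (nat_lit 1) .z) .df .leaf) (nat_lit 30722) (nat_lit 98) (.p (nat_lit 70) (nat_lit 1) .z) .df (.nd .leaf (nat_lit 30723) (nat_lit 147) (.p (nat_lit 82) (nat_lit 1) (.p (nat_lit 83) (nat_lit 2) (.n (nat_lit 86) (nat_lit 2) (.n (nat_lit 87) (nat_lit 1) (.p (nat_lit 88) (nat_lit 2) (.n (nat_lit 90) (nat_lit 3) (.n (nat_lit 93) (nat_lit 2) (.p (nat_lit 94) (nat_lit 2) (.n (nat_lit 96) (nat_lit 2) .z))))))))) (.ct dR2_c306 (nat_lit 1) (nat_lit 5) (.s false (nat_lit 1) (nat_lit 14) (nat_lit 1) (nat_lit 1) (nat_lit 0) true (nat_lit 5) true (nat_lit 8) false (nat_lit 1) true (nat_lit 7) true (nat_lit 7) (.e false (nat_lit 1) (nat_lit 57) (nat_lit 0) (nat_lit 8) (.e false (nat_lit 3) (nat_lit 44) (nat_lit 1) (nat_lit 7) (.e false (nat_lit 2) (nat_lit 45) (nat_lit 1) (nat_lit 7) (.e true (nat_lit 2) (nat_lit 46) (nat_lit 1) (nat_lit 7) (.e false (nat_lit 2) (nat_lit 47) (nat_lit 1) (nat_lit 7) (.e false (nat_lit 2) (nat_lit 48) (nat_lit 1) (nat_lit 7) (.e true (nat_lit 2) (nat_lit 52) (nat_lit 1) (nat_lit 7) (.e true (nat_lit 1) (nat_lit 50) (nat_lit 1) (nat_lit 7) (.u (nat_lit 2) (.n (nat_lit 1) (nat_lit 1) (.p (nat_lit 4) (nat_lit 1) (.p (nat_lit 8) (nat_lit 1) (.p (nat_lit 14) (nat_lit 1) .z)))) .nil))))))))))) .leaf))) (nat_lit 30724) (nat_lit 204) (.n (nat_lit 97) (nat_lit 1) (.n (nat_lit 98) (nat_lit 1) (.p (nat_lit 99) (nat_lit 2) (.n (nat_lit 100) (nat_lit 1) (.p (nat_lit 102) (nat_lit 3) (.p (nat_lit 103) (nat_lit 3) (.n (nat_lit 104) (nat_lit 2) (.n (nat_lit 105) (nat_lit 3) (.n (nat_lit 106) (nat_lit 1) (.n (nat_lit 108) (nat_lit 3) (.p (nat_lit 109) (nat_lit 2) (.n (nat_lit 110) (nat_lit 2) (.p (nat_lit 111) (nat_lit 2) (.p (nat_lit 113) (nat_lit 1) (.p (nat_lit 114) (nat_lit 1) (.n (nat_lit 115) (nat_lit 2) (.n (nat_lit 116) (nat_lit 3) (.p (nat_lit 117) (nat_lit 3) .z)))))))))))))))))) (.ct dR2_c291 (nat_lit 1) (nat_lit 5) (.s false (nat_lit 1) (nat_lit 14) (nat_lit 2) (nat_lit 1) (nat_lit 0) true (nat_lit 5) true (nat_lit 9) false (nat_lit 1) true (nat_lit 7) true (nat_lit 8) (.e false (nat_lit 1) (nat_lit 72) (nat_lit 0) (nat_lit 9) (.e true (nat_lit 1) (nat_lit 14) (nat_lit 10) (nat_lit 1) (.e false (nat_lit 1) (nat_lit 44) (nat_lit 2) (nat_lit 7) (.e false (nat_lit 1) (nat_lit 45) (nat_lit 2) (nat_lit 7) (.e true (nat_lit 1) (nat_lit 46) (nat_lit 2) (nat_lit 7) (.e false (nat_lit 1) (nat_lit 47) (nat_lit 2) (nat_lit 7) (.e false (nat_lit 1) (nat_lit 48) (nat_lit 2) (nat_lit 7) (.e true (nat_lit 1) (nat_lit 52) (nat_lit 2) (nat_lit 7) (.e true (nat_lit 1) (nat_lit 63) (nat_lit 1) (nat_lit 8) (.u (nat_lit 2) (.n (nat_lit 2) (nat_lit 1) (.p (nat_lit 3) (nat_lit 1) (.n (nat_lit 4) (nat_lit 1) (.p (nat_lit 8) (nat_lit 1) (.p (nat_lit 11) (nat_lit 1) (.n (nat_lit 14) (nat_lit 1) (.p (nat_lit 17) (nat_lit 1) .z))))))) .nil)))))))))))) (.nd (.nd (.nd .leaf (nat_lit 30725) (nat_lit 218) (.p (nat_lit 118) (nat_lit 3) (.n (nat_lit 120) (nat_lit 1) (.p (nat_lit 121) (nat_lit 3) (.p (nat_lit 122) (nat_lit 1) (.n (nat_lit 123) (nat_lit 2) .z))))) (.ct dR2_c51 (nat_lit 1) (nat_lit 2) (.s false (nat_lit 1) (nat_lit 14) (nat_lit 2) (nat_lit 1) (nat_lit 1) true (nat_lit 2) true (nat_lit 4) false (nat_lit 0) true (nat_lit 3) true (nat_lit 4) (.e false (nat_lit 1) (nat_lit 72) (nat_lit 1) (nat_lit 4) (.e true (nat_lit 1) (nat_lit 14) (nat_lit 11) (nat_lit 0) (.e true (nat_lit 1) (nat_lit 70) (nat_lit 1) (nat_lit 4) .nil))))) .leaf) (nat_lit 30726) (nat_lit 267) (.p (nat_lit 140) (nat_lit 1) (.n (nat_lit 141) (nat_lit 2) (.n (nat_lit 142) (nat_lit 3) (.n (nat_lit 143) (nat_lit 2) (.p (nat_lit 144) (nat_lit 1) (.n (nat_lit 145) (nat_lit 2) .z)))))) (.ct dR2_c36 (nat_lit 1) (nat_lit 2) (.s false (nat_lit 1) (nat_lit 14) (nat_lit 2) (nat_lit 1) (nat_lit 2) true (nat_lit 2) true (nat_lit 4) true (nat_lit 0) true (nat_lit 4) true (nat_lit 5) (.a true (nat_lit 3) (nat_lit 14) (nat_lit 14) (nat_lit 0) (nat_lit 0) (.e false (nat_lit 2) (nat_lit 72) (nat_lit 2) (nat_lit 4) (.e false (nat_lit 1) (nat_lit 70) (nat_lit 2) (nat_lit 4) (.e true (nat_lit 1) (nat_lit 73) (nat_lit 2) (nat_lit 4) (.e false (nat_lit 1) (nat_lit 78) (nat_lit 1) (nat_lit 5) (.u (nat_lit 2) (.p (nat_lit 3) (nat_lit 1) (.p (nat_lit 6) (nat_lit 1) .z)) .nil)))))))) (.nd .leaf (nat_lit 30728) (nat_lit 339) (.n (nat_lit 146) (nat_lit 3) (.p (nat_lit 147) (nat_lit 1) (.n (nat_lit 148) (nat_lit 1) (.n (nat_lit 150) (nat_lit 2) (.n (nat_lit 151) (nat_lit 2) (.n (nat_lit 152) (nat_lit 1) (.n (nat_lit 154) (nat_lit 2) (.p (nat_lit 157) (nat_lit 1) (.p (nat_lit 158) (nat_lit 2) (.n (nat_lit 160) (nat_lit 3) (.n (nat_lit 161) (nat_lit 2) (.n (nat_lit 162) (nat_lit 2) (.n (nat_lit 167) (nat_lit 1) (.p (nat_lit 171) (nat_lit 1) (.n (nat_lit 174) (nat_lit 3) (.n (nat_lit 176) (nat_lit 3) .z)))))))))))))))) (.ct dR2_c307 (nat_lit 1) (nat_lit 4) (.s true (nat_lit 1) (nat_lit 8) (nat_lit 5) (nat_lit 2) (nat_lit 1) true (nat_lit 3) true (nat_lit 11) true (nat_lit 4) true (nat_lit 7) true (nat_lit 10) (.e true (nat_lit 1) (nat_lit 23) (nat_lit 11) (nat_lit 3) (.e true (nat_lit 1) (nat_lit 106) (nat_lit 1) (nat_lit 11) (.e true (nat_lit 1) (nat_lit 53) (nat_lit 5) (nat_lit 7) (.e true (nat_lit 1) (nat_lit 84) (nat_lit 2) (nat_lit 10) (.e false (nat_lit 1) (nat_lit 90) (nat_lit 2) (nat_lit 10) (.e true (nat_lit 1) (nat_lit 94) (nat_lit 2) (nat_lit 10) (.u (nat_lit 2) (.p (nat_lit 0) (nat_lit 1) (.p (nat_lit 4) (nat_lit 1) (.p (nat_lit 5) (nat_lit 1) (.p (nat_lit 6) (nat_lit 1) (.n (nat_lit 12) (nat_lit 1) (.p (nat_lit 14) (nat_lit 1) (.p (nat_lit 16) (nat_lit 1) (.n (nat_lit 25) (nat_lit 1) (.p (nat_lit 28) (nat_lit 1) .z))))))))) .nil))))))))) .leaf)) (nat_lit 30732) (nat_lit 439) (.p (nat_lit 177) (nat_lit 3) (.n (nat_lit 178) (nat_lit 1) (.p (nat_lit 179) (nat_lit 3) (.n (nat_lit 180) (nat_lit 3) (.p (nat_lit 181) (nat_lit 1) (.n (nat_lit 182) (nat_lit 1) (.n (nat_lit 183) (nat_lit 1) (.p (nat_lit 186) (nat_lit 3) (.p (nat_lit 187) (nat_lit 1) (.n (nat_lit 188) (nat_lit 1) (.n (nat_lit 189) (nat_lit 3) (.p (nat_lit 191) (nat_lit 3) (.n (nat_lit 192) (nat_lit 2) (.n (nat_lit 195) (nat_lit 3) (.p (nat_lit 197) (nat_lit 2) (.n (nat_lit 198) (nat_lit 2) (.p (nat_lit 200) (nat_lit 2) (.n (nat_lit 201) (nat_lit 1) (.n (nat_lit 202) (nat_lit 1) (.p (nat_lit 204) (nat_lit 2) (.n (nat_lit 205) (nat_lit 3) (.p (nat_lit 206) (nat_lit 2) .z)))))))))))))))))))))) (.ct dR2_c292 (nat_lit 1) (nat_lit 2) (.s false (nat_lit 1) (nat_lit 14) (nat_lit 2) (nat_lit 1) (nat_lit 4) true (nat_lit 2) true (nat_lit 8) true (nat_lit 1) true (nat_lit 10) true (nat_lit 11) (.e false (nat_lit 1) (nat_lit 72) (nat_lit 4) (nat_lit 8) (.e true (nat_lit 1) (nat_lit 23) (nat_lit 14) (nat_lit 1) (.e true (nat_lit 1) (nat_lit 24) (nat_lit 14) (nat_lit 1) (.e false (nat_lit 1) (nat_lit 27) (nat_lit 14) (nat_lit 1) (.e true (nat_lit 1) (nat_lit 28) (nat_lit 14) (nat_lit 1) (.e false (nat_lit 1) (nat_lit 102) (nat_lit 2) (nat_lit 10) (.e true (nat_lit 1) (nat_lit 107) (nat_lit 2) (nat_lit 10) (.e false (nat_lit 1) (nat_lit 109) (nat_lit 2) (nat_lit 10) (.e true (nat_lit 1) (nat_lit 116) (nat_lit 2) (nat_lit 10) (.e true (nat_lit 1) (nat_lit 124) (nat_lit 1) (nat_lit 11) (.e true (nat_lit 1) (nat_lit 125) (nat_lit 1) (nat_lit 11) (.e true (nat_lit 1) (nat_lit 127) (nat_lit 1) (nat_lit 11) (.e false (nat_lit 1) (nat_lit 128) (nat_lit 1) (nat_lit 11) (.e true (nat_lit 1) (nat_lit 129) (nat_lit 1) (nat_lit 11) (.e true (nat_lit 1) (nat_lit 130) (nat_lit 1) (nat_lit 11) (.e false (nat_lit 1) (nat_lit 133) (nat_lit 1) (nat_lit 11) (.u (nat_lit 2) (.p (nat_lit 1) (nat_lit 1) (.n (nat_lit 2) (nat_lit 1) (.n (nat_lit 6) (nat_lit 1) (.p (nat_lit 7) (nat_lit 1) (.p (nat_lit 8) (nat_lit 1) (.n (nat_lit 11) (nat_lit 1) (.n (nat_lit 15) (nat_lit 1) (.n (nat_lit 17) (nat_lit 1) (.n (nat_lit 20) (nat_lit 1) (.p (nat_lit 28) (nat_lit 1) .z)))))))))) .nil))))))))))))))))))) (.nd (.nd .leaf (nat_lit 30735) (nat_lit 462) (.p (nat_lit 207) (nat_lit 1) (.p (nat_lit 208) (nat_lit 2) (.p (nat_lit 209) (nat_lit 2) (.p (nat_lit 214) (nat_lit 2) .z)))) (.ct dR2_c52 (nat_lit 1) (nat_lit 1) (.s false (nat_lit 1) (nat_lit 30) (nat_lit 2) (nat_lit 2) (nat_lit 1) true (nat_lit 4) true (nat_lit 6) false (nat_lit 1) true (nat_lit 5) true (nat_lit 5) (.e false (nat_lit 1) (nat_lit 70) (nat_lit 5) (nat_lit 4) (.e false (nat_lit 1) (nat_lit 141) (nat_lit 1) (nat_lit 6) (.e false (nat_lit 3) (nat_lit 118) (nat_lit 2) (nat_lit 5) (.e true (nat_lit 2) (nat_lit 120) (nat_lit 2) (nat_lit 5) (.e false (nat_lit 3) (nat_lit 121) (nat_lit 2) (nat_lit 5) (.e false (nat_lit 1) (nat_lit 122) (nat_lit 2) (nat_lit 5) (.e true (nat_lit 2) (nat_lit 123) (nat_lit 2) (nat_lit 5) (.u (nat_lit 2) (.n (nat_lit 2) (nat_lit 1) .z) .nil)))))))))) .leaf) (nat_lit 31744) (nat_lit 71) (.n (nat_lit 44) (nat_lit 2) (.n (nat_lit 45) (nat_lit 3) (.n (nat_lit 47) (nat_lit 1) (.n (nat_lit 48) (nat_lit 2) (.p (nat_lit 49) (nat_lit 1) (.p (nat_lit 50) (nat_lit 2) (.p (nat_lit 52) (nat_lit 2) (.n (nat_lit 53) (nat_lit 2) (.n (nat_lit 54) (nat_lit 1) .z))))))))) (.ct dR2_c290 (nat_lit 1) (nat_lit 6) (.s false (nat_lit 1) (nat_lit 6) (nat_lit 1) (nat_lit 0) (nat_lit 1) false (nat_lit 7) true (nat_lit 5) true (nat_lit 0) true (nat_lit 5) true (nat_lit 6) (.e true (nat_lit 2) (nat_lit 23) (nat_lit 1) (nat_lit 5) (.e true (nat_lit 2) (nat_lit 24) (nat_lit 1) (nat_lit 5) (.e false (nat_lit 2) (nat_lit 25) (nat_lit 1) (nat_lit 5) (.e false (nat_lit 1) (nat_lit 27) (nat_lit 1) (nat_lit 5) (.e false (nat_lit 1) (nat_lit 7) (nat_lit 6) (nat_lit 0) .nil))))))) .leaf))) (nat_lit 31745) (nat_lit 76) (.n (nat_lit 55) (nat_lit 1) (.n (nat_lit 56) (nat_lit 2) (.n (nat_lit 57) (nat_lit 2) .z))) (.ct dR2_c50 (nat_lit 1) (nat_lit 2) (.s true (nat_lit 1) (nat_lit 5) (nat_lit 1) (nat_lit 1) (nat_lit 2) true (nat_lit 0) true (nat_lit 1) true (nat_lit 0) true (nat_lit 2) true (nat_lit 2) (.e true (nat_lit 1) (nat_lit 11) (nat_lit 5) (nat_lit 0) (.e true (nat_lit 1) (nat_lit 22) (nat_lit 2) (nat_lit 1) (.e false (nat_lit 1) (nat_lit 29) (nat_lit 1) (nat_lit 2) (.e false (nat_lit 2) (nat_lit 30) (nat_lit 1) (nat_lit 2) (.u (nat_lit 2) (.p (nat_lit 2) (nat_lit 1) .z) .nil))))))) (.nd (.nd (.nd (.nd .leaf (nat_lit 31746) (nat_lit 99) (.p (nat_lit 71) (nat_lit 1) .z) .df .leaf) (nat_lit 31747) (nat_lit 141) (.n (nat_lit 82) (nat_lit 1) (.n (nat_lit 83) (nat_lit 1) (.p (nat_lit 86) (nat_lit 1) (.n (nat_lit 88) (nat_lit 1) (.n (nat_lit 90) (nat_lit 1) (.p (nat_lit 93) (nat_lit 2) (.n (nat_lit 94) (nat_lit 1) .z))))))) (.ct dR2_c306 (nat_lit 1) (nat_lit 5) (.s false (nat_lit 1) (nat_lit 6) (nat_lit 1) (nat_lit 3) (nat_lit 1) false (nat_lit 9) true (nat_lit 7) true (nat_lit 2) true (nat_lit 7) true (nat_lit 5) (.e false (nat_lit 2) (nat_lit 44) (nat_lit 1) (nat_lit 7) (.e true (nat_lit 1) (nat_lit 46) (nat_lit 1) (nat_lit 7) (.e false (nat_lit 1) (nat_lit 47) (nat_lit 1) (nat_lit 7) (.e true (nat_lit 1) (nat_lit 48) (nat_lit 1) (nat_lit 7) (.e true (nat_lit 1) (nat_lit 53) (nat_lit 1) (nat_lit 7) (.e true (nat_lit 1) (nat_lit 17) (nat_lit 6) (nat_lit 2) (.e false (nat_lit 1) (nat_lit 52) (nat_lit 1) (nat_lit 7) .nil))))))))) (.nd .leaf (nat_lit 31748) (nat_lit 198) (.n (nat_lit 97) (nat_lit 2) (.n (nat_lit 98) (nat_lit 1) (.n (nat_lit 99) (nat_lit 2) (.p (nat_lit 100) (nat_lit 1) (.n (nat_lit 101) (nat_lit 3) (.p (nat_lit 102) (nat_lit 1) (.p (nat_lit 103) (nat_lit 1) (.p (nat_lit 104) (nat_lit 1) (.p (nat_lit 105) (nat_lit 3) (.p (nat_lit 106) (nat_lit 3) (.p (nat_lit 107) (nat_lit 1) (.p (nat_lit 108) (nat_lit 3) (.p (nat_lit 109) (nat_lit 1) (.p (nat_lit 110) (nat_lit 3) (.p (nat_lit 111) (nat_lit 2) (.n (nat_lit 112) (nat_lit 2) (.p (nat_lit 113) (nat_lit 2) (.p (nat_lit 115) (nat_lit 2) (.n (nat_lit 116) (nat_lit 2) .z))))))))))))))))))) (.ct dR2_c291 (nat_lit 1) (nat_lit 5) (.s true (nat_lit 1) (nat_lit 6) (nat_lit 1) (nat_lit 1) (nat_lit 4) true (nat_lit 1) true (nat_lit 5) true (nat_lit 3) true (nat_lit 8) true (nat_lit 8) (.e true (nat_lit 1) (nat_lit 15) (nat_lit 9) (nat_lit 1) (.e false (nat_lit 2) (nat_lit 67) (nat_lit 1) (nat_lit 8) (.e true (nat_lit 1) (nat_lit 59) (nat_lit 1) (nat_lit 8) (.e true (nat_lit 2) (nat_lit 61) (nat_lit 1) (nat_lit 8) (.e false (nat_lit 1) (nat_lit 63) (nat_lit 1) (nat_lit 8) (.e true (nat_lit 1) (nat_lit 64) (nat_lit 1) (nat_lit 8) (.e false (nat_lit 1) (nat_lit 65) (nat_lit 1) (nat_lit 8) (.e true (nat_lit 1) (nat_lit 68) (nat_lit 1) (nat_lit 8) (.u (nat_lit 2) (.p (nat_lit 0) (nat_lit 1) (.p (nat_lit 1) (nat_lit 1) (.p (nat_lit 4) (nat_lit 1) (.n (nat_lit 9) (nat_lit 1) (.n (nat_lit 13) (nat_lit 1) (.p (nat_lit 15) (nat_lit 1) (.n (nat_lit 17) (nat_lit 1) (.p (nat_lit 18) (nat_lit 1) .z)))))))) .nil))))))))))) .leaf)) (nat_lit 31749) (nat_lit 215) (.p (nat_lit 118) (nat_lit 1) (.n (nat_lit 119) (nat_lit 2) (.n (nat_lit 120) (nat_lit 2) (.p (nat_lit 121) (nat_lit 1) (.p (nat_lit 122) (nat_lit 1) (.p (nat_lit 123) (nat_lit 1) .z)))))) (.ct dR2_c51 (nat_lit 1) (nat_lit 2) (.s false (nat_lit 1) (nat_lit 6) (nat_lit 1) (nat_lit 5) (nat_lit 1) false (nat_lit 5) true (nat_lit 4) true (nat_lit 1) true (nat_lit 4) true (nat_lit 2) (.e false (nat_lit 3) (nat_lit 69) (nat_lit 1) (nat_lit 4) (.e false (nat_lit 3) (nat_lit 70) (nat_lit 1) (nat_lit 4) (.e true (nat_lit 2) (nat_lit 71) (nat_lit 1) (nat_lit 4) (.e true (nat_lit 1) (nat_lit 22) (nat_lit 6) (nat_lit 1) (.u (nat_lit 2) (.n (nat_lit 1) (nat_lit 1) (.p (nat_lit 2) (nat_lit 2) (.n (nat_lit 4) (nat_lit 2) .z))) .nil))))))) (.nd (.nd .leaf (nat_lit 31750) (nat_lit 270) (.p (nat_lit 140) (nat_lit 3) (.n (nat_lit 141) (nat_lit 3) (.p (nat_lit 142) (nat_lit 1) (.p (nat_lit 143) (nat_lit 1) (.n (nat_lit 145) (nat_lit 3) .z))))) (.ct dR2_c36 (nat_lit 1) (nat_lit 2) (.s true (nat_lit 1) (nat_lit 6) (nat_lit 1) (nat_lit 1) (nat_lit 6) true (nat_lit 0) true (nat_lit 2) true (nat_lit 2) true (nat_lit 5) true (nat_lit 5) (.a false (nat_lit 3) (nat_lit 15) (nat_lit 15) (nat_lit 0) (nat_lit 0) (.e false (nat_lit 2) (nat_lit 79) (nat_lit 1) (nat_lit 5) (.e false (nat_lit 2) (nat_lit 80) (nat_lit 1) (nat_lit 5) (.u (nat_lit 2) (.n (nat_lit 0) (nat_lit 1) (.p (nat_lit 1) (nat_lit 1) (.n (nat_lit 2) (nat_lit 1) (.n (nat_lit 3) (nat_lit 1) (.n (nat_lit 5) (nat_lit 1) (.n (nat_lit 9) (nat_lit 1) .z)))))) .nil)))))) .leaf) (nat_lit 31752) (nat_lit 321) (.n (nat_lit 146) (nat_lit 2) (.n (nat_lit 147) (nat_lit 1) (.n (nat_lit 148) (nat_lit 2) (.n (nat_lit 150) (nat_lit 1) (.n (nat_lit 151) (nat_lit 1) (.n (nat_lit 152) (nat_lit 1) (.n (nat_lit 157) (nat_lit 3) (.p (nat_lit 160) (nat_lit 1) (.p (nat_lit 161) (nat_lit 3) (.n (nat_lit 162) (nat_lit 2) (.n (nat_lit 167) (nat_lit 2) (.p (nat_lit 171) (nat_lit 2) (.p (nat_lit 173) (nat_lit 3) (.p (nat_lit 174) (nat_lit 1) (.n (nat_lit 176) (nat_lit 1) .z))))))))))))))) (.ct dR2_c307 (nat_lit 1) (nat_lit 4) (.s true (nat_lit 1) (nat_lit 15) (nat_lit 2) (nat_lit 1) (nat_lit 3) true (nat_lit 4) true (nat_lit 9) true (nat_lit 1) true (nat_lit 10) true (nat_lit 11) (.e true (nat_lit 1) (nat_lit 73) (nat_lit 3) (nat_lit 9) (.e true (nat_lit 1) (nat_lit 18) (nat_lit 15) (nat_lit 1) (.e false (nat_lit 1) (nat_lit 20) (nat_lit 15) (nat_lit 1) (.e true (nat_lit 1) (nat_lit 21) (nat_lit 15) (nat_lit 1) (.e true (nat_lit 2) (nat_lit 82) (nat_lit 2) (nat_lit 10) (.e true (nat_lit 2) (nat_lit 83) (nat_lit 2) (nat_lit 10) (.e false (nat_lit 2) (nat_lit 86) (nat_lit 2) (nat_lit 10) (.e false (nat_lit 1) (nat_lit 93) (nat_lit 2) (nat_lit 10) (.e false (nat_lit 1) (nat_lit 96) (nat_lit 2) (nat_lit 10) (.e false (nat_lit 2) (nat_lit 97) (nat_lit 1) (nat_lit 11) (.e true (nat_lit 1) (nat_lit 99) (nat_lit 1) (nat_lit 11) (.e false (nat_lit 1) (nat_lit 100) (nat_lit 1) (nat_lit 11) (.e true (nat_lit 1) (nat_lit 101) (nat_lit 1) (nat_lit 11) (.e true (nat_lit 1) (nat_lit 106) (nat_lit 1) (nat_lit 11) (.u (nat_lit 2) (.n (nat_lit 1) (nat_lit 1) (.p (nat_lit 6) (nat_lit 1) (.p (nat_lit 11) (nat_lit 1) (.n (nat_lit 27) (nat_lit 1) (.n (nat_lit 28) (nat_lit 1) .z))))) .nil))))))))))))))))) .leaf)) (nat_lit 31753) (nat_lit 313) (.p (nat_lit 149) (nat_lit 3) (.n (nat_lit 153) (nat_lit 2) (.p (nat_lit 155) (nat_lit 2) (.n (nat_lit 159) (nat_lit 2) (.n (nat_lit 169) (nat_lit 1) (.p (nat_lit 172) (nat_lit 2) (.p (nat_lit 175) (nat_lit 1) .z))))))) (.ct dR2_c307 (nat_lit 1) (nat_lit 4) (.s true (nat_lit 1) (nat_lit 9) (nat_lit 6) (nat_lit 1) (nat_lit 1) true (nat_lit 1) true (nat_lit 11) true (nat_lit 4) true (nat_lit 6) true (nat_lit 11) (.e false (nat_lit 1) (nat_lit 20) (nat_lit 15) (nat_lit 1) (.e true (nat_lit 1) (nat_lit 112) (nat_lit 1) (nat_lit 11) (.e false (nat_lit 1) (nat_lit 116) (nat_lit 1) (nat_lit 11) .nil))))) (.nd (.nd (.nd .leaf (nat_lit 31756) (nat_lit 436) (.p (nat_lit 177) (nat_lit 3) (.n (nat_lit 178) (nat_lit 1) (.n (nat_lit 179) (nat_lit 1) (.p (nat_lit 180) (nat_lit 3) (.p (nat_lit 181) (nat_lit 2) (.n (nat_lit 182) (nat_lit 3) (.n (nat_lit 184) (nat_lit 2) (.p (nat_lit 185) (nat_lit 3) (.n (nat_lit 186) (nat_lit 3) (.n (nat_lit 187) (nat_lit 1) (.p (nat_lit 188) (nat_lit 2) (.n (nat_lit 189) (nat_lit 2) (.p (nat_lit 191) (nat_lit 1) (.p (nat_lit 192) (nat_lit 1) (.p (nat_lit 194) (nat_lit 2) (.p (nat_lit 197) (nat_lit 3) (.n (nat_lit 198) (nat_lit 3) (.n (nat_lit 200) (nat_lit 3) (.n (nat_lit 201) (nat_lit 2) (.n (nat_lit 202) (nat_lit 2) (.p (nat_lit 203) (nat_lit 2) (.n (nat_lit 204) (nat_lit 2) (.n (nat_lit 205) (nat_lit 3) (.p (nat_lit 206) (nat_lit 3) .z)))))))))))))))))))))))) (.ct dR2_c292 (nat_lit 1) (nat_lit 2) (.s false (nat_lit 1) (nat_lit 12) (nat_lit 1) (nat_lit 6) (nat_lit 1) false (nat_lit 13) true (nat_lit 11) true (nat_lit 2) true (nat_lit 11) true (nat_lit 6) (.e false (nat_lit 1) (nat_lit 126) (nat_lit 1) (nat_lit 11) (.e true (nat_lit 3) (nat_lit 127) (nat_lit 1) (nat_lit 11) (.e true (nat_lit 3) (nat_lit 129) (nat_lit 1) (nat_lit 11) (.e false (nat_lit 2) (nat_lit 130) (nat_lit 1) (nat_lit 11) (.e false (nat_lit 3) (nat_lit 131) (nat_lit 1) (nat_lit 11) (.e false (nat_lit 1) (nat_lit 132) (nat_lit 1) (nat_lit 11) (.e true (nat_lit 2) (nat_lit 133) (nat_lit 1) (nat_lit 11) (.e true (nat_lit 3) (nat_lit 134) (nat_lit 1) (nat_lit 11) (.e true (nat_lit 1) (nat_lit 137) (nat_lit 1) (nat_lit 11) (.e false (nat_lit 1) (nat_lit 125) (nat_lit 1) (nat_lit 11) (.e true (nat_lit 1) (nat_lit 135) (nat_lit 1) (nat_lit 11) (.e true (nat_lit 1) (nat_lit 139) (nat_lit 1) (nat_lit 11) (.e true (nat_lit 1) (nat_lit 50) (nat_lit 6) (nat_lit 6) (.u (nat_lit 2) (.n (nat_lit 0) (nat_lit 1) (.n (nat_lit 1) (nat_lit 2) (.p (nat_lit 2) (nat_lit 1) (.p (nat_lit 3) (nat_lit 2) (.n (nat_lit 4) (nat_lit 1) (.p (nat_lit 5) (nat_lit 4) (.n (nat_lit 8) (nat_lit 1) (.p (nat_lit 9) (nat_lit 2) (.n (nat_lit 10) (nat_lit 1) (.p (nat_lit 11) (nat_lit 1) (.n (nat_lit 14) (nat_lit 2) (.n (nat_lit 15) (nat_lit 1) (.n (nat_lit 17) (nat_lit 3) (.p (nat_lit 18) (nat_lit 1) (.p (nat_lit 20) (nat_lit 1) (.n (nat_lit 22) (nat_lit 1) (.p (nat_lit 27) (nat_lit 1) (.p (nat_lit 28) (nat_lit 1) (.p (nat_lit 29) (nat_lit 1) (.p (nat_lit 120) (nat_lit 1) (.p (nat_lit 122) (nat_lit 1) .z))))))))))))))))))))) .nil)))))))))))))))) .leaf) (nat_lit 32769) (nat_lit 83) (.p (nat_lit 64) (nat_lit 1) .z) .df (.nd .leaf (nat_lit 32770) (nat_lit 106) (.p (nat_lit 74) (nat_lit 1) .z) .df .leaf)) (nat_lit 32773) (nat_lit 234) (.p (nat_lit 139) (nat_lit 1) .z) .df (.nd (.nd .leaf (nat_lit 32779) (nat_lit 375) (.n (nat_lit 178) (nat_lit 1) (.p (nat_lit 179) (nat_lit 2) (.n (nat_lit 180) (nat_lit 2) (.p (nat_lit 181) (nat_lit 2) (.n (nat_lit 182) (nat_lit 1) (.n (nat_lit 183) (nat_lit 1) (.n (nat_lit 185) (nat_lit 3) (.p (nat_lit 186) (nat_lit 3) (.p (nat_lit 187) (nat_lit 1) (.n (nat_lit 188) (nat_lit 3) (.n (nat_lit 189) (nat_lit 1) (.p (nat_lit 190) (nat_lit 2) (.n (nat_lit 191) (nat_lit 1) (.n (nat_lit 192) (nat_lit 3) (.n (nat_lit 193) (nat_lit 1) (.p (nat_lit 194) (nat_lit 1) (.n (nat_lit 195) (nat_lit 1) (.p (nat_lit 196) (nat_lit 1) (.n (nat_lit 197) (nat_lit 1) (.n (nat_lit 201) (nat_lit 1) (.p (nat_lit 202) (nat_lit 1) .z))))))))))))))))))))) (.ct dR2_c292 (nat_lit 1) (nat_lit 3) (.s true (nat_lit 1) (nat_lit 32) (nat_lit 1) (nat_lit 2) (nat_lit 1) false (nat_lit 13) true (nat_lit 11) false (nat_lit 3) true (nat_lit 11) true (nat_lit 10) (.e true (nat_lit 1) (nat_lit 130) (nat_lit 1) (nat_lit 11) (.e false (nat_lit 1) (nat_lit 139) (nat_lit 1) (nat_lit 11) (.e true (nat_lit 1) (nat_lit 98) (nat_lit 2) (nat_lit 10) (.e false (nat_lit 2) (nat_lit 99) (nat_lit 2) (nat_lit 10) (.e true (nat_lit 2) (nat_lit 100) (nat_lit 2) (nat_lit 10) (.e false (nat_lit 2) (nat_lit 101) (nat_lit 2) (nat_lit 10) (.e true (nat_lit 1) (nat_lit 102) (nat_lit 2) (nat_lit 10) (.e true (nat_lit 1) (nat_lit 103) (nat_lit 2) (nat_lit 10) (.e true (nat_lit 3) (nat_lit 105) (nat_lit 2) (nat_lit 10) (.e false (nat_lit 3) (nat_lit 106) (nat_lit 2) (nat_lit 10) (.e false (nat_lit 1) (nat_lit 107) (nat_lit 2) (nat_lit 10) (.e true (nat_lit 3) (nat_lit 108) (nat_lit 2) (nat_lit 10) (.e true (nat_lit 1) (nat_lit 109) (nat_lit 2) (nat_lit 10) (.e false (nat_lit 2) (nat_lit 110) (nat_lit 2) (nat_lit 10) (.e true (nat_lit 1) (nat_lit 111) (nat_lit 2) (nat_lit 10) (.e true (nat_lit 3) (nat_lit 112) (nat_lit 2) (nat_lit 10) (.e true (nat_lit 1) (nat_lit 113) (nat_lit 2) (nat_lit 10) (.e false (nat_lit 1) (nat_lit 114) (nat_lit 2) (nat_lit 10) (.e true (nat_lit 1) (nat_lit 115) (nat_lit 2) (nat_lit 10) (.e false (nat_lit 1) (nat_lit 116) (nat_lit 2) (nat_lit 10) (.e true (nat_lit 1) (nat_lit 117) (nat_lit 2) (nat_lit 10) .nil))))))))))))))))))))))) .leaf) (nat_lit 33793) (nat_lit 96) (.n (nat_lit 58) (nat_lit 2) (.n (nat_lit 59) (nat_lit 2) (.p (nat_lit 60) (nat_lit 1) (.p (nat_lit 61) (nat_lit 1) (.p (nat_lit 62) (nat_lit 1) (.n (nat_lit 63) (nat_lit 2) (.p (nat_lit 64) (nat_lit 1) (.n (nat_lit 65) (nat_lit 1) (.p (nat_lit 66) (nat_lit 1) (.p (nat_lit 68) (nat_lit 1) .z)))))))))) (.ct dR2_c275 (nat_lit 1) (nat_lit 5) (.s true (nat_lit 1) (nat_lit 6) (nat_lit 1) (nat_lit 2) (nat_lit 0) true (nat_lit 3) true (nat_lit 6) true (nat_lit 0) true (nat_lit 5) true (nat_lit 4) (.e false (nat_lit 1) (nat_lit 16) (nat_lit 3) (nat_lit 3) (.e true (nat_lit 1) (nat_lit 36) (nat_lit 0) (nat_lit 6) (.e false (nat_lit 1) (nat_lit 10) (nat_lit 6) (nat_lit 0) (.e true (nat_lit 1) (nat_lit 34) (nat_lit 1) (nat_lit 5) (.e false (nat_lit 1) (nat_lit 27) (nat_lit 2) (nat_lit 4) .nil))))))) .leaf)))) (nat_lit 33794) (nat_lit 107) (.p (nat_lit 75) (nat_lit 1) .z) .df (.nd (.nd (.nd (.nd (.nd .leaf (nat_lit 33797) (nat_lit 248) (.n (nat_lit 124) (nat_lit 3) (.p (nat_lit 125) (nat_lit 3) (.n (nat_lit 127) (nat_lit 3) (.p (nat_lit 128) (nat_lit 3) (.n (nat_lit 129) (nat_lit 3) (.n (nat_lit 130) (nat_lit 1) (.n (nat_lit 132) (nat_lit 1) (.p (nat_lit 133) (nat_lit 2) (.p (nat_lit 135) (nat_lit 1) (.p (nat_lit 137) (nat_lit 1) (.n (nat_lit 138) (nat_lit 1) (.p (nat_lit 139) (nat_lit 1) .z)))))))))))) (.ct dR2_c276 (nat_lit 1) (nat_lit 3) (.s false (nat_lit 1) (nat_lit 6) (nat_lit 1) (nat_lit 4) (nat_lit 2) true (nat_lit 3) true (nat_lit 6) true (nat_lit 2) true (nat_lit 7) true (nat_lit 4) (.e true (nat_lit 1) (nat_lit 34) (nat_lit 5) (nat_lit 3) (.e false (nat_lit 2) (nat_lit 58) (nat_lit 2) (nat_lit 6) (.e false (nat_lit 3) (nat_lit 59) (nat_lit 2) (nat_lit 6) (.e true (nat_lit 2) (nat_lit 62) (nat_lit 2) (nat_lit 6) (.e false (nat_lit 3) (nat_lit 63) (nat_lit 2) (nat_lit 6) (.e true (nat_lit 1) (nat_lit 64) (nat_lit 2) (nat_lit 6) (.e false (nat_lit 1) (nat_lit 65) (nat_lit 2) (nat_lit 6) (.e true (nat_lit 1) (nat_lit 68) (nat_lit 2) (nat_lit 6) (.e true (nat_lit 1) (nat_lit 24) (nat_lit 6) (nat_lit 2) (.e false (nat_lit 1) (nat_lit 77) (nat_lit 1) (nat_lit 7) (.e false (nat_lit 1) (nat_lit 37) (nat_lit 4) (nat_lit 4) (.u (nat_lit 2) (.p (nat_lit 0) (nat_lit 1) (.p (nat_lit 1) (nat_lit 1) (.p (nat_lit 3) (nat_lit 1) (.n (nat_lit 4) (nat_lit 1) (.p (nat_lit 5) (nat_lit 1) .z))))) .nil)))))))))))))) .leaf) (nat_lit 34817) (nat_lit 95) (.p (nat_lit 58) (nat_lit 2) (.p (nat_lit 59) (nat_lit 3) (.n (nat_lit 60) (nat_lit 1) (.p (nat_lit 61) (nat_lit 1) (.n (nat_lit 62) (nat_lit 1) (.p (nat_lit 63) (nat_lit 1) (.n (nat_lit 66) (nat_lit 1) (.n (nat_lit 67) (nat_lit 1) .z)))))))) (.ct dR2_c275 (nat_lit 1) (nat_lit 5) (.s false (nat_lit 1) (nat_lit 6) (nat_lit 0) (nat_lit 1) (nat_lit 2) true (nat_lit 2) true (nat_lit 4) true (nat_lit 0) true (nat_lit 6) true (nat_lit 5) (.e false (nat_lit 1) (nat_lit 15) (nat_lit 4) (nat_lit 2) (.e false (nat_lit 1) (nat_lit 27) (nat_lit 2) (nat_lit 4) (.e true (nat_lit 1) (nat_lit 8) (nat_lit 6) (nat_lit 0) (.e true (nat_lit 1) (nat_lit 36) (nat_lit 0) (nat_lit 6) (.e true (nat_lit 1) (nat_lit 37) (nat_lit 0) (nat_lit 6) .nil))))))) (.nd .leaf (nat_lit 34818) (nat_lit 108) (.p (nat_lit 76) (nat_lit 1) .z) .df .leaf)) (nat_lit 34821) (nat_lit 247) (.p (nat_lit 124) (nat_lit 3) (.n (nat_lit 125) (nat_lit 3) (.n (nat_lit 127) (nat_lit 3) (.n (nat_lit 128) (nat_lit 3) (.n (nat_lit 129) (nat_lit 1) (.p (nat_lit 130) (nat_lit 3) (.p (nat_lit 131) (nat_lit 3) (.p (nat_lit 133) (nat_lit 3) (.p (nat_lit 134) (nat_lit 3) (.p (nat_lit 138) (nat_lit 1) .z)))))))))) (.ct dR2_c276 (nat_lit 1) (nat_lit 3) (.s false (nat_lit 1) (nat_lit 16) (nat_lit 2) (nat_lit 0) (nat_lit 1) true (nat_lit 3) true (nat_lit 7) false (nat_lit 1) true (nat_lit 6) true (nat_lit 8) (.e false (nat_lit 1) (nat_lit 75) (nat_lit 1) (nat_lit 7) (.e true (nat_lit 1) (nat_lit 77) (nat_lit 1) (nat_lit 7) (.e true (nat_lit 1) (nat_lit 16) (nat_lit 9) (nat_lit 1) (.e false (nat_lit 1) (nat_lit 59) (nat_lit 2) (nat_lit 6) (.e true (nat_lit 1) (nat_lit 60) (nat_lit 2) (nat_lit 6) (.e false (nat_lit 1) (nat_lit 61) (nat_lit 2) (nat_lit 6) (.e true (nat_lit 1) (nat_lit 63) (nat_lit 2) (nat_lit 6) (.e true (nat_lit 1) (nat_lit 66) (nat_lit 2) (nat_lit 6) (.e true (nat_lit 1) (nat_lit 80) (nat_lit 0) (nat_lit 8) (.u (nat_lit 2) (.p (nat_lit 1) (nat_lit 1) (.p (nat_lit 3) (nat_lit 1) (.n (nat_lit 9) (nat_lit 1) (.n (nat_lit 10) (nat_lit 1) .z)))) .nil)))))))))))) (.nd (.nd .leaf (nat_lit 35840) (nat_lit 84) (.p (nat_lit 65) (nat_lit 1) .z) .df .leaf) (nat_lit 35841) (nat_lit 100) (.p (nat_lit 72) (nat_lit 1) .z) .df (.nd .leaf (nat_lit 35842) (nat_lit 113) (.p (nat_lit 78) (nat_lit 1) .z) .df .leaf))) (nat_lit 35843) (nat_lit 180) (.p (nat_lit 97) (nat_lit 3) (.p (nat_lit 98) (nat_lit 2) (.n (nat_lit 99) (nat_lit 2) (.p (nat_lit 100) (nat_lit 2) (.n (nat_lit 105) (nat_lit 1) (.p (nat_lit 106) (nat_lit 1) (.n (nat_lit 108) (nat_lit 1) (.n (nat_lit 114) (nat_lit 1) (.p (nat_lit 115) (nat_lit 1) (.p (nat_lit 117) (nat_lit 1) .z)))))))))) (.ct dR2_c291 (nat_lit 1) (nat_lit 6) (.s true (nat_lit 1) (nat_lit 5) (nat_lit 2) (nat_lit 3) (nat_lit 2) true (nat_lit 3) true (nat_lit 7) true (nat_lit 4) true (nat_lit 7) true (nat_lit 6) (.e false (nat_lit 1) (nat_lit 18) (nat_lit 6) (nat_lit 3) (.e true (nat_lit 1) (nat_lit 20) (nat_lit 6) (nat_lit 3) (.e false (nat_lit 1) (nat_lit 21) (nat_lit 6) (nat_lit 3) (.e false (nat_lit 1) (nat_lit 44) (nat_lit 2) (nat_lit 7) (.e false (nat_lit 1) (nat_lit 45) (nat_lit 2) (nat_lit 7) (.e true (nat_lit 1) (nat_lit 46) (nat_lit 2) (nat_lit 7) (.e false (nat_lit 1) (nat_lit 47) (nat_lit 2) (nat_lit 7) (.e false (nat_lit 1) (nat_lit 48) (nat_lit 2) (nat_lit 7) (.e true (nat_lit 1) (nat_lit 52) (nat_lit 2) (nat_lit 7) (.e false (nat_lit 1) (nat_lit 23) (nat_lit 5) (nat_lit 4) (.e true (nat_lit 1) (nat_lit 53) (nat_lit 2) (nat_lit 7) .nil))))))))))))) (.nd (.nd (.nd .leaf (nat_lit 35844) (nat_lit 249) (.p (nat_lit 124) (nat_lit 2) (.p (nat_lit 125) (nat_lit 1) (.n (nat_lit 126) (nat_lit 1) (.p (nat_lit 127) (nat_lit 3) (.n (nat_lit 128) (nat_lit 2) (.n (nat_lit 129) (nat_lit 2) (.n (nat_lit 130) (nat_lit 3) (.n (nat_lit 131) (nat_lit 3) (.n (nat_lit 133) (nat_lit 3) (.n (nat_lit 134) (nat_lit 3) (.n (nat_lit 139) (nat_lit 1) .z))))))))))) (.ct dR2_c276 (nat_lit 1) (nat_lit 4) (.s true (nat_lit 1) (nat_lit 5) (nat_lit 2) (nat_lit 2) (nat_lit 4) true (nat_lit 0) true (nat_lit 4) true (nat_lit 3) true (nat_lit 6) true (nat_lit 6) (.e true (nat_lit 1) (nat_lit 14) (nat_lit 12) (nat_lit 0) (.e true (nat_lit 1) (nat_lit 33) (nat_lit 5) (nat_lit 3) (.e true (nat_lit 1) (nat_lit 34) (nat_lit 5) (nat_lit 3) (.e false (nat_lit 1) (nat_lit 63) (nat_lit 2) (nat_lit 6) (.e false (nat_lit 1) (nat_lit 65) (nat_lit 2) (nat_lit 6) (.e true (nat_lit 1) (nat_lit 68) (nat_lit 2) (nat_lit 6) (.u (nat_lit 2) (.p (nat_lit 5) (nat_lit 1) .z) .nil))))))))) .leaf) (nat_lit 35845) (nat_lit 264) (.n (nat_lit 141) (nat_lit 1) (.n (nat_lit 143) (nat_lit 1) (.p (nat_lit 145) (nat_lit 1) .z))) (.ct dR2_c36 (nat_lit 1) (nat_lit 3) (.s true (nat_lit 1) (nat_lit 14) (nat_lit 1) (nat_lit 2) (nat_lit 2) true (nat_lit 3) true (nat_lit 4) true (nat_lit 0) true (nat_lit 5) true (nat_lit 4) (.a true (nat_lit 3) (nat_lit 14) (nat_lit 14) (nat_lit 0) (nat_lit 0) (.e true (nat_lit 1) (nat_lit 70) (nat_lit 2) (nat_lit 4) (.e false (nat_lit 1) (nat_lit 81) (nat_lit 1) (nat_lit 5) (.e true (nat_lit 1) (nat_lit 72) (nat_lit 2) (nat_lit 4) (.u (nat_lit 2) (.p (nat_lit 6) (nat_lit 1) .z) .nil))))))) (.nd .leaf (nat_lit 35847) (nat_lit 326) (.p (nat_lit 146) (nat_lit 2) (.p (nat_lit 150) (nat_lit 1) (.p (nat_lit 151) (nat_lit 3) (.n (nat_lit 157) (nat_lit 2) (.p (nat_lit 161) (nat_lit 2) (.p (nat_lit 171) (nat_lit 3) (.n (nat_lit 174) (nat_lit 1) .z))))))) (.ct dR2_c307 (nat_lit 1) (nat_lit 5) (.s true (nat_lit 1) (nat_lit 7) (nat_lit 5) (nat_lit 2) (nat_lit 2) true (nat_lit 1) true (nat_lit 10) true (nat_lit 5) true (nat_lit 7) true (nat_lit 10) (.e true (nat_lit 1) (nat_lit 18) (nat_lit 14) (nat_lit 1) (.e false (nat_lit 1) (nat_lit 52) (nat_lit 5) (nat_lit 7) (.e true (nat_lit 1) (nat_lit 82) (nat_lit 2) (nat_lit 10) (.e true (nat_lit 2) (nat_lit 83) (nat_lit 2) (nat_lit 10) (.e true (nat_lit 1) (nat_lit 87) (nat_lit 2) (nat_lit 10) (.e false (nat_lit 1) (nat_lit 93) (nat_lit 2) (nat_lit 10) (.e false (nat_lit 1) (nat_lit 96) (nat_lit 2) (nat_lit 10) (.u (nat_lit 2) (.n (nat_lit 0) (nat_lit 1) (.n (nat_lit 1) (nat_lit 1) (.n (nat_lit 5) (nat_lit 1) (.p (nat_lit 11) (nat_lit 1) .z)))) .nil)))))))))) .leaf)) (nat_lit 35848) (nat_lit 385) (.n (nat_lit 177) (nat_lit 2) (.p (nat_lit 179) (nat_lit 1) (.n (nat_lit 180) (nat_lit 1) (.p (nat_lit 181) (nat_lit 2) (.p (nat_lit 185) (nat_lit 1) (.n (nat_lit 186) (nat_lit 3) (.p (nat_lit 188) (nat_lit 1) (.n (nat_lit 191) (nat_lit 3) (.p (nat_lit 194) (nat_lit 1) (.n (nat_lit 197) (nat_lit 1) (.n (nat_lit 206) (nat_lit 1) .z))))))))))) (.ct dR2_c292 (nat_lit 1) (nat_lit 4) (.s false (nat_lit 1) (nat_lit 8) (nat_lit 2) (nat_lit 5) (nat_lit 2) true (nat_lit 6) true (nat_lit 10) true (nat_lit 4) true (nat_lit 10) true (nat_lit 7) (.e false (nat_lit 1) (nat_lit 53) (nat_lit 6) (nat_lit 6) (.e true (nat_lit 1) (nat_lit 98) (nat_lit 2) (nat_lit 10) (.e true (nat_lit 3) (nat_lit 101) (nat_lit 2) (nat_lit 10) (.e false (nat_lit 2) (nat_lit 106) (nat_lit 2) (nat_lit 10) (.e true (nat_lit 2) (nat_lit 108) (nat_lit 2) (nat_lit 10) (.e false (nat_lit 1) (nat_lit 111) (nat_lit 2) (nat_lit 10) (.e false (nat_lit 2) (nat_lit 115) (nat_lit 2) (nat_lit 10) (.e true (nat_lit 1) (nat_lit 58) (nat_lit 5) (nat_lit 7) (.u (nat_lit 2) (.n (nat_lit 4) (nat_lit 1) (.p (nat_lit 9) (nat_lit 1) (.p (nat_lit 14) (nat_lit 1) .z))) .nil))))))))))) (.nd (.nd .leaf (nat_lit 35850) (nat_lit 417) (.n (nat_lit 177) (nat_lit 2) (.n (nat_lit 178) (nat_lit 2) (.p (nat_lit 179) (nat_lit 2) (.n (nat_lit 180) (nat_lit 3) (.p (nat_lit 181) (nat_lit 1) (.p (nat_lit 182) (nat_lit 2) (.p (nat_lit 185) (nat_lit 3) (.p (nat_lit 186) (nat_lit 3) (.n (nat_lit 187) (nat_lit 1) (.n (nat_lit 188) (nat_lit 3) (.p (nat_lit 189) (nat_lit 3) (.n (nat_lit 191) (nat_lit 1) (.n (nat_lit 192) (nat_lit 1) (.n (nat_lit 194) (nat_lit 3) (.p (nat_lit 195) (nat_lit 1) (.n (nat_lit 196) (nat_lit 1) (.n (nat_lit 197) (nat_lit 1) (.n (nat_lit 199) (nat_lit 1) (.p (nat_lit 203) (nat_lit 2) (.p (nat_lit 204) (nat_lit 3) (.n (nat_lit 205) (nat_lit 3) (.p (nat_lit 206) (nat_lit 1) .z)))))))))))))))))))))) (.ct dR2_c292 (nat_lit 1) (nat_lit 4) (.s true (nat_lit 1) (nat_lit 35) (nat_lit 1) (nat_lit 2) (nat_lit 0) true (nat_lit 9) true (nat_lit 12) false (nat_lit 4) true (nat_lit 11) true (nat_lit 10) (.e false (nat_lit 1) (nat_lit 78) (nat_lit 3) (nat_lit 9) (.e true (nat_lit 1) (nat_lit 143) (nat_lit 0) (nat_lit 12) (.e false (nat_lit 2) (nat_lit 124) (nat_lit 1) (nat_lit 11) (.e false (nat_lit 1) (nat_lit 125) (nat_lit 1) (nat_lit 11) (.e true (nat_lit 1) (nat_lit 126) (nat_lit 1) (nat_lit 11) (.e false (nat_lit 3) (nat_lit 127) (nat_lit 1) (nat_lit 11) (.e true (nat_lit 2) (nat_lit 128) (nat_lit 1) (nat_lit 11) (.e true (nat_lit 2) (nat_lit 129) (nat_lit 1) (nat_lit 11) dR2_i2)))))))))) .leaf) (nat_lit 35851) (nat_lit 457) (.n (nat_lit 207) (nat_lit 2) (.p (nat_lit 210) (nat_lit 2) (.n (nat_lit 212) (nat_lit 1) (.n (nat_lit 213) (nat_lit 1) (.n (nat_lit 215) (nat_lit 3) .z))))) (.ct dR2_c52 (nat_lit 1) (nat_lit 2) (.s true (nat_lit 1) (nat_lit 35) (nat_lit 1) (nat_lit 2) (nat_lit 1) false (nat_lit 7) true (nat_lit 6) false (nat_lit 2) true (nat_lit 6) true (nat_lit 5) (.e true (nat_lit 2) (nat_lit 143) (nat_lit 1) (nat_lit 6) (.e true (nat_lit 1) (nat_lit 141) (nat_lit 1) (nat_lit 6) (.e false (nat_lit 1) (nat_lit 145) (nat_lit 1) (nat_lit 6) (.e false (nat_lit 2) (nat_lit 118) (nat_lit 2) (nat_lit 5) (.e true (nat_lit 1) (nat_lit 119) (nat_lit 2) (nat_lit 5) (.e true (nat_lit 2) (nat_lit 120) (nat_lit 2) (nat_lit 5) (.e false (nat_lit 2) (nat_lit 121) (nat_lit 2) (nat_lit 5) (.e true (nat_lit 1) (nat_lit 123) (nat_lit 2) (nat_lit 5) (.u (nat_lit 2) (.n (nat_lit 1) (nat_lit 1) (.p (nat_lit 2) (nat_lit 1) (.p (nat_lit 6) (nat_lit 1) (.p (nat_lit 7) (nat_lit 1) (.p (nat_lit 8) (nat_lit 1) .z))))) .nil))))))))))) .leaf))) (nat_lit 36864) (nat_lit 93) (.n (nat_lit 60) (nat_lit 1) (.n (nat_lit 61) (nat_lit 1) (.p (nat_lit 62) (nat_lit 1) (.n (nat_lit 64) (nat_lit 1) (.p (nat_lit 65) (nat_lit 1) (.n (nat_lit 66) (nat_lit 1) (.p (nat_lit 67) (nat_lit 1) .z))))))) (.ct dR2_c275 (nat_lit 1) (nat_lit 6) (.s true (nat_lit 1) (nat_lit 4) (nat_lit 1) (nat_lit 2) (nat_lit 2) true (nat_lit 1) true (nat_lit 4) true (nat_lit 2) true (nat_lit 5) true (nat_lit 4) (.s true (nat_lit 1) (nat_lit 6) (nat_lit 1) (nat_lit 2) (nat_lit 0) true (nat_lit 3) true (nat_lit 6) true (nat_lit 0) true (nat_lit 5) true (nat_lit 4) (.e true (nat_lit 1) (nat_lit 12) (nat_lit 5) (nat_lit 1) (.e true (nat_lit 1) (nat_lit 24) (nat_lit 2) (nat_lit 4) (.e false (nat_lit 1) (nat_lit 14) (nat_lit 4) (nat_lit 2) (.e true (nat_lit 1) (nat_lit 26) (nat_lit 2) (nat_lit 4) (.e false (nat_lit 1) (nat_lit 16) (nat_lit 3) (nat_lit 3) (.e false (nat_lit 1) (nat_lit 10) (nat_lit 6) (nat_lit 0) (.e false (nat_lit 1) (nat_lit 27) (nat_lit 2) (nat_lit 4) .nil)))))))))) (.nd (.nd (.nd (.nd .leaf (nat_lit 36865) (nat_lit 101) (.p (nat_lit 73) (nat_lit 1) .z) .df .leaf) (nat_lit 36866) (nat_lit 114) (.p (nat_lit 79) (nat_lit 1) .z) .df (.nd .leaf (nat_lit 36867) (nat_lit 173) (.p (nat_lit 117) (nat_lit 1) .z) .df .leaf)) (nat_lit 36868) (nat_lit 246) (.p (nat_lit 124) (nat_lit 2) (.p (nat_lit 125) (nat_lit 3) (.p (nat_lit 127) (nat_lit 1) (.n (nat_lit 128) (nat_lit 2) (.n (nat_lit 130) (nat_lit 1) (.n (nat_lit 131) (nat_lit 2) (.p (nat_lit 132) (nat_lit 1) (.p (nat_lit 133) (nat_lit 1) (.p (nat_lit 134) (nat_lit 3) (.n (nat_lit 135) (nat_lit 1) (.n (nat_lit 137) (nat_lit 2) (.n (nat_lit 139) (nat_lit 1) .z)))))))))))) (.ct dR2_c276 (nat_lit 1) (nat_lit 4) (.s false (nat_lit 1) (nat_lit 5) (nat_lit 4) (nat_lit 2) (nat_lit 2) true (nat_lit 0) true (nat_lit 6) true (nat_lit 3) true (nat_lit 4) true (nat_lit 6) (.e false (nat_lit 1) (nat_lit 14) (nat_lit 12) (nat_lit 0) (.e true (nat_lit 1) (nat_lit 32) (nat_lit 5) (nat_lit 3) (.e true (nat_lit 1) (nat_lit 37) (nat_lit 4) (nat_lit 4) (.e false (nat_lit 1) (nat_lit 61) (nat_lit 2) (nat_lit 6) (.e false (nat_lit 1) (nat_lit 64) (nat_lit 2) (nat_lit 6) (.e true (nat_lit 1) (nat_lit 67) (nat_lit 2) (nat_lit 6) (.u (nat_lit 2) (.n (nat_lit 0) (nat_lit 1) (.n (nat_lit 1) (nat_lit 1) (.p (nat_lit 4) (nat_lit 1) (.n (nat_lit 9) (nat_lit 1) (.n (nat_lit 10) (nat_lit 1) .z))))) .nil))))))))) (.nd (.nd .leaf (nat_lit 36869) (nat_lit 271) (.p (nat_lit 140) (nat_lit 3) (.p (nat_lit 141) (nat_lit 1) (.n (nat_lit 143) (nat_lit 1) (.p (nat_lit 144) (nat_lit 1) (.n (nat_lit 145) (nat_lit 2) .z))))) (.ct dR2_c36 (nat_lit 1) (nat_lit 3) (.s true (nat_lit 1) (nat_lit 15) (nat_lit 2) (nat_lit 2) (nat_lit 1) true (nat_lit 3) true (nat_lit 5) true (nat_lit 0) true (nat_lit 4) true (nat_lit 4) (.a false (nat_lit 3) (nat_lit 15) (nat_lit 15) (nat_lit 0) (nat_lit 0) (.e true (nat_lit 1) (nat_lit 79) (nat_lit 1) (nat_lit 5) (.e true (nat_lit 2) (nat_lit 69) (nat_lit 2) (nat_lit 4) (.e true (nat_lit 2) (nat_lit 70) (nat_lit 2) (nat_lit 4) (.e false (nat_lit 2) (nat_lit 71) (nat_lit 2) (nat_lit 4) (.e false (nat_lit 1) (nat_lit 73) (nat_lit 2) (nat_lit 4) (.u (nat_lit 2) (.n (nat_lit 0) (nat_lit 1) (.p (nat_lit 2) (nat_lit 1) (.p (nat_lit 5) (nat_lit 1) (.n (nat_lit 9) (nat_lit 1) .z)))) .nil))))))))) .leaf) (nat_lit 36871) (nat_lit 323) (.p (nat_lit 146) (nat_lit 2) (.p (nat_lit 150) (nat_lit 2) (.n (nat_lit 151) (nat_lit 3) (.n (nat_lit 157) (nat_lit 3) (.p (nat_lit 161) (nat_lit 3) (.p (nat_lit 171) (nat_lit 3) (.p (nat_lit 173) (nat_lit 1) (.n (nat_lit 174) (nat_lit 2) .z)))))))) (.ct dR2_c307 (nat_lit 1) (nat_lit 5) (.s false (nat_lit 1) (nat_lit 7) (nat_lit 1) (nat_lit 6) (nat_lit 2) true (nat_lit 7) true (nat_lit 10) true (nat_lit 5) true (nat_lit 11) true (nat_lit 6) (.e false (nat_lit 1) (nat_lit 52) (nat_lit 5) (nat_lit 7) (.e false (nat_lit 1) (nat_lit 96) (nat_lit 2) (nat_lit 10) (.e false (nat_lit 1) (nat_lit 105) (nat_lit 1) (nat_lit 11) (.e true (nat_lit 1) (nat_lit 114) (nat_lit 1) (nat_lit 11) (.e true (nat_lit 1) (nat_lit 40) (nat_lit 6) (nat_lit 6) (.u (nat_lit 2) (.n (nat_lit 0) (nat_lit 1) (.p (nat_lit 11) (nat_lit 1) .z)) .nil)))))))) .leaf)) (nat_lit 36872) (nat_lit 383) (.n (nat_lit 177) (nat_lit 2) (.n (nat_lit 178) (nat_lit 3) (.p (nat_lit 179) (nat_lit 1) (.n (nat_lit 180) (nat_lit 1) (.p (nat_lit 181) (nat_lit 3) (.n (nat_lit 186) (nat_lit 3) (.n (nat_lit 188) (nat_lit 3) (.p (nat_lit 191) (nat_lit 3) (.p (nat_lit 194) (nat_lit 2) (.p (nat_lit 195) (nat_lit 3) (.n (nat_lit 197) (nat_lit 1) (.n (nat_lit 198) (nat_lit 1) (.n (nat_lit 204) (nat_lit 2) (.n (nat_lit 206) (nat_lit 1) .z)))))))))))))) (.ct dR2_c292 (nat_lit 1) (nat_lit 4) (.s false (nat_lit 1) (nat_lit 8) (nat_lit 6) (nat_lit 1) (nat_lit 2) true (nat_lit 0) true (nat_lit 10) true (nat_lit 4) true (nat_lit 6) true (nat_lit 11) (.e true (nat_lit 1) (nat_lit 19) (nat_lit 16) (nat_lit 0) (.e false (nat_lit 1) (nat_lit 111) (nat_lit 2) (nat_lit 10) (.e false (nat_lit 1) (nat_lit 53) (nat_lit 6) (nat_lit 6) (.e true (nat_lit 1) (nat_lit 136) (nat_lit 1) (nat_lit 11) (.u (nat_lit 2) (.p (nat_lit 1) (nat_lit 1) (.n (nat_lit 4) (nat_lit 1) (.p (nat_lit 9) (nat_lit 1) (.p (nat_lit 11) (nat_lit 1) (.n (nat_lit 18) (nat_lit 1) .z))))) .nil))))))) (.nd (.nd (.nd .leaf (nat_lit 36873) (nat_lit 412) (.p (nat_lit 177) (nat_lit 2) (.n (nat_lit 178) (nat_lit 1) (.p (nat_lit 179) (nat_lit 2) (.p (nat_lit 180) (nat_lit 1) (.n (nat_lit 181) (nat_lit 1) (.n (nat_lit 182) (nat_lit 2) (.n (nat_lit 183) (nat_lit 3) (.p (nat_lit 184) (nat_lit 3) (.n (nat_lit 185) (nat_lit 1) (.n (nat_lit 186) (nat_lit 2) (.p (nat_lit 187) (nat_lit 3) (.n (nat_lit 188) (nat_lit 3) (.p (nat_lit 189) (nat_lit 2) (.n (nat_lit 194) (nat_lit 2) (.p (nat_lit 195) (nat_lit 2) (.n (nat_lit 196) (nat_lit 2) (.p (nat_lit 197) (nat_lit 2) (.n (nat_lit 198) (nat_lit 1) (.n (nat_lit 199) (nat_lit 2) (.p (nat_lit 203) (nat_lit 2) (.p (nat_lit 204) (nat_lit 3) (.n (nat_lit 205) (nat_lit 2) (.p (nat_lit 206) (nat_lit 1) .z))))))))))))))))))))))) (.ct dR2_c292 (nat_lit 1) (nat_lit 4) (.s true (nat_lit 1) (nat_lit 9) (nat_lit 1) (nat_lit 2) (nat_lit 6) true (nat_lit 1) true (nat_lit 6) true (nat_lit 4) true (nat_lit 11) true (nat_lit 10) (.s false (nat_lit 1) (nat_lit 9) (nat_lit 2) (nat_lit 6) (nat_lit 1) true (nat_lit 7) true (nat_lit 11) true (nat_lit 4) true (nat_lit 10) true (nat_lit 6) (.e true (nat_lit 1) (nat_lit 24) (nat_lit 15) (nat_lit 1) (.e true (nat_lit 2) (nat_lit 46) (nat_lit 6) (nat_lit 6) (.e false (nat_lit 1) (nat_lit 133) (nat_lit 1) (nat_lit 11) (.e true (nat_lit 1) (nat_lit 67) (nat_lit 5) (nat_lit 7) (.e false (nat_lit 2) (nat_lit 99) (nat_lit 2) (nat_lit 10) (.e false (nat_lit 2) (nat_lit 102) (nat_lit 2) (nat_lit 10) (.e true (nat_lit 2) (nat_lit 107) (nat_lit 2) (nat_lit 10) (.e true (nat_lit 1) (nat_lit 116) (nat_lit 2) (nat_lit 10) (.u (nat_lit 2) (.n (nat_lit 10) (nat_lit 1) .z) .nil)))))))))))) .leaf) (nat_lit 37888) (nat_lit 94) (.p (nat_lit 60) (nat_lit 2) (.n (nat_lit 62) (nat_lit 1) (.p (nat_lit 63) (nat_lit 2) (.p (nat_lit 66) (nat_lit 1) (.n (nat_lit 68) (nat_lit 1) .z))))) (.ct dR2_c275 (nat_lit 1) (nat_lit 6) (.s false (nat_lit 1) (nat_lit 5) (nat_lit 0) (nat_lit 2) (nat_lit 2) true (nat_lit 2) true (nat_lit 4) true (nat_lit 1) true (nat_lit 6) true (nat_lit 4) (.e false (nat_lit 1) (nat_lit 14) (nat_lit 4) (nat_lit 2) (.e false (nat_lit 1) (nat_lit 25) (nat_lit 2) (nat_lit 4) (.e true (nat_lit 1) (nat_lit 12) (nat_lit 5) (nat_lit 1) (.e true (nat_lit 1) (nat_lit 36) (nat_lit 0) (nat_lit 6) (.e false (nat_lit 1) (nat_lit 28) (nat_lit 2) (nat_lit 4) .nil))))))) (.nd .leaf (nat_lit 37889) (nat_lit 102) (.p (nat_lit 69) (nat_lit 1) (.p (nat_lit 70) (nat_lit 1) (.n (nat_lit 73) (nat_lit 1) .z))) (.ct dR2_c35 (nat_lit 1) (nat_lit 3) (.s false (nat_lit 1) (nat_lit 5) (nat_lit 1) (nat_lit 2) (nat_lit 2) true (nat_lit 1) true (nat_lit 2) true (nat_lit 1) true (nat_lit 3) true (nat_lit 2) (.e false (nat_lit 1) (nat_lit 29) (nat_lit 2) (nat_lit 2) (.e true (nat_lit 1) (nat_lit 36) (nat_lit 1) (nat_lit 3) (.e false (nat_lit 1) (nat_lit 30) (nat_lit 2) (nat_lit 2) .nil))))) .leaf)) (nat_lit 37890) (nat_lit 115) (.p (nat_lit 80) (nat_lit 1) .z) .df (.nd (.nd .leaf (nat_lit 37891) (nat_lit 178) (.n (nat_lit 98) (nat_lit 2) (.n (nat_lit 101) (nat_lit 2) (.p (nat_lit 105) (nat_lit 1) (.p (nat_lit 111) (nat_lit 1) (.n (nat_lit 117) (nat_lit 1) .z))))) (.ct dR2_c291 (nat_lit 1) (nat_lit 6) (.s false (nat_lit 1) (nat_lit 5) (nat_lit 3) (nat_lit 2) (nat_lit 2) true (nat_lit 1) true (nat_lit 7) true (nat_lit 4) true (nat_lit 6) true (nat_lit 7) (.e true (nat_lit 1) (nat_lit 14) (nat_lit 8) (nat_lit 1) (.e false (nat_lit 1) (nat_lit 23) (nat_lit 5) (nat_lit 4) (.e true (nat_lit 1) (nat_lit 36) (nat_lit 3) (nat_lit 6) (.e true (nat_lit 1) (nat_lit 45) (nat_lit 2) (nat_lit 7) (.e true (nat_lit 1) (nat_lit 48) (nat_lit 2) (nat_lit 7) (.e false (nat_lit 1) (nat_lit 52) (nat_lit 2) (nat_lit 7) .nil)))))))) .leaf) (nat_lit 37892) (nat_lit 240) (.p (nat_lit 124) (nat_lit 3) (.p (nat_lit 125) (nat_lit 3) (.p (nat_lit 126) (nat_lit 1) (.p (nat_lit 127) (nat_lit 3) (.n (nat_lit 128) (nat_lit 3) (.p (nat_lit 130) (nat_lit 3) (.p (nat_lit 131) (nat_lit 3) (.p (nat_lit 133) (nat_lit 3) (.p (nat_lit 134) (nat_lit 3) (.p (nat_lit 137) (nat_lit 1) .z)))))))))) (.ct dR2_c276 (nat_lit 1) (nat_lit 4) (.s true (nat_lit 1) (nat_lit 5) (nat_lit 2) (nat_lit 4) (nat_lit 2) true (nat_lit 2) true (nat_lit 6) true (nat_lit 3) true (nat_lit 6) true (nat_lit 4) (.s false (nat_lit 1) (nat_lit 12) (nat_lit 2) (nat_lit 1) (nat_lit 2) true (nat_lit 2) true (nat_lit 6) true (nat_lit 0) true (nat_lit 6) true (nat_lit 7) (.s true (nat_lit 1) (nat_lit 14) (nat_lit 0) (nat_lit 2) (nat_lit 2) true (nat_lit 4) true (nat_lit 6) false (nat_lit 0) true (nat_lit 8) true (nat_lit 6) (.s true (nat_lit 1) (nat_lit 15) (nat_lit 2) (nat_lit 0) (nat_lit 2) true (nat_lit 2) true (nat_lit 6) false (nat_lit 0) true (nat_lit 6) true (nat_lit 8) (.s false (nat_lit 1) (nat_lit 16) (nat_lit 2) (nat_lit 1) (nat_lit 0) true (nat_lit 4) true (nat_lit 8) false (nat_lit 1) true (nat_lit 6) true (nat_lit 7) (.e true (nat_lit 1) (nat_lit 23) (nat_lit 6) (nat_lit 2) (.e true (nat_lit 2) (nat_lit 58) (nat_lit 2) (nat_lit 6) (.e true (nat_lit 2) (nat_lit 59) (nat_lit 2) (nat_lit 6) (.e false (nat_lit 1) (nat_lit 61) (nat_lit 2) (nat_lit 6) (.e false (nat_lit 1) (nat_lit 62) (nat_lit 2) (nat_lit 6) (.e false (nat_lit 1) (nat_lit 63) (nat_lit 2) (nat_lit 6) (.e false (nat_lit 2) (nat_lit 64) (nat_lit 2) (nat_lit 6) (.e true (nat_lit 2) (nat_lit 67) (nat_lit 2) (nat_lit 6) (.e false (nat_lit 1) (nat_lit 32) (nat_lit 5) (nat_lit 3) (.e false (nat_lit 1) (nat_lit 65) (nat_lit 2) (nat_lit 6) (.e true (nat_lit 3) (nat_lit 68) (nat_lit 2) (nat_lit 6) (.e false (nat_lit 1) (nat_lit 74) (nat_lit 1) (nat_lit 7) (.e false (nat_lit 1) (nat_lit 25) (nat_lit 6) (nat_lit 2) (.e false (nat_lit 2) (nat_lit 60) (nat_lit 2) (nat_lit 6) (.e false (nat_lit 2) (nat_lit 66) (nat_lit 2) (nat_lit 6) (.e false (nat_lit 1) (nat_lit 15) (nat_lit 12) (nat_lit 0) (.e true (nat_lit 1) (nat_lit 16) (nat_lit 10) (nat_lit 1) (.e true (nat_lit 1) (nat_lit 76) (nat_lit 1) (nat_lit 7) (.u (nat_lit 2) (.n (nat_lit 0) (nat_lit 1) (.n (nat_lit 1) (nat_lit 1) (.n (nat_lit 9) (nat_lit 1) (.n (nat_lit 10) (nat_lit 1) (.p (nat_lit 36) (nat_lit 1) (.p (nat_lit 37) (nat_lit 1) (.n (nat_lit 40) (nat_lit 1) (.p (nat_lit 41) (nat_lit 1) .z)))))))) .nil))))))))))))))))))))))))) .leaf))))))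

noncomputable def dR2_t2 : Tr := (.nd dR2_t0 (nat_lit 20486) (nat_lit 172) (.p (nat_lit 116) (nat_lit 1) .z) .df dR2_t1)

noncomputable def dR2_t3 : Tr := (.nd (.nd (.nd (.nd (.nd (.nd (.nd .leaf (nat_lit 37895) (nat_lit 325) (.n (nat_lit 146) (nat_lit 2) (.n (nat_lit 147) (nat_lit 2) (.n (nat_lit 150) (nat_lit 2) (.p (nat_lit 151) (nat_lit 1) (.p (nat_lit 157) (nat_lit 3) (.p (nat_lit 160) (nat_lit 1) (.n (nat_lit 161) (nat_lit 3) (.n (nat_lit 171) (nat_lit 2) (.n (nat_lit 173) (nat_lit 1) (.p (nat_lit 174) (nat_lit 2) .z)))))))))) (.ct dR2_c307 (nat_lit 1) (nat_lit 5) (.s true (nat_lit 1) (nat_lit 7) (nat_lit 6) (nat_lit 2) (nat_lit 1) true (nat_lit 1) true (nat_lit 11) true (nat_lit 5) true (nat_lit 6) true (nat_lit 10) (.e false (nat_lit 1) (nat_lit 18) (nat_lit 15) (nat_lit 1) (.e true (nat_lit 1) (nat_lit 105) (nat_lit 1) (nat_lit 11) (.e false (nat_lit 1) (nat_lit 43) (nat_lit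 6) (nat_lit 6) (.e false (nat_lit 1) (nat_lit 96) (nat_lit 2) (nat_lit 10) (.u (nat_lit 2) (.p (nat_lit 5) (nat_lit 1) .z) .nil))))))) .leaf) (nat_lit 37896) (nat_lit 384) (.p (nat_lit 177) (nat_lit 2) (.n (nat_lit 178) (nat_lit 1) (.n (nat_lit 179) (nat_lit 1) (.p (nat_lit 180) (nat_lit 1) (.n (nat_lit 181) (nat_lit 3) (.n (nat_lit 185) (nat_lit 1) (.n (nat_lit 186) (nat_lit 2) (.n (nat_lit 188) (nat_lit 1) (.p (nat_lit 191) (nat_lit 3) (.n (nat_lit 194) (nat_lit 1) (.p (nat_lit 197) (nat_lit 1) (.p (nat_lit 204) (nat_lit 1) .z)))))))))))) (.ct dR2_c292 (nat_lit 1) (nat_lit 4) (.s false (nat_lit 1) (nat_lit 8) (nat_lit 6) (nat_lit 2) (nat_lit 1) true (nat_lit 1) true (nat_lit 11) true (nat_lit 4) true (nat_lit 6) true (nat_lit 10) (.e true (nat_lit 1) (nat_lit 23) (nat_lit 15) (nat_lit 1) (.e false (nat_lit 1) (nat_lit 132) (nat_lit 1) (nat_lit 11) (.e true (nat_lit 1) (nat_lit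 53) (nat_lit 6) (nat_lit 6) (.e true (nat_lit 1) (nat_lit 115) (nat_lit 2) (nat_lit 10) (.u (nat_lit 2) (.p (nat_lit 4) (nat_lit 1) (.n (nat_lit 14) (nat_lit 1) .z)) .nil))))))) (.nd .leaf (nat_lit 37897) (nat_lit 427) (.n (nat_lit 177) (nat_lit 1) (.n (nat_lit 178) (nat_lit 2) (.p (nat_lit 180) (nat_lit 3) (.n (nat_lit 182) (nat_lit 1) (.n (nat_lit 183) (nat_lit 2) (.p (nat_lit 184) (nat_lit 2) (.p (nat_lit 185) (nat_lit 1) (.n (nat_lit 187) (nat_lit 2) (.p (nat_lit 188) (nat_lit 3) (.p (nat_lit 189) (nat_lit 2) (.p (nat_lit 191) (nat_lit 2) (.n (nat_lit 192) (nat_lit 1) (.n (nat_lit 194) (nat_lit 1) (.n (nat_lit 195) (nat_lit 2) (.p (nat_lit 196) (nat_lit 1) (.p (nat_lit 203) (nat_lit 3) (.p (nat_lit 204) (nat_lit 3) (.n (nat_lit 205) (nat_lit 2) .z)))))))))))))))))) (.ct dR2_c292 (nat_lit 1) (nat_lit 4) (.s false (nat_lit 1) (nat_lit 9) (nat_lit 6) (nat_lit 2) (nat_lit 1) true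 (nat_lit 1) true (nat_lit 11) true (nat_lit 4) true (nat_lit 6) true (nat_lit 10) (.e true (nat_lit 1) (nat_lit 24) (nat_lit 15) (nat_lit 1) (.e false (nat_lit 1) (nat_lit 133) (nat_lit 1) (nat_lit 11) (.e true (nat_lit 1) (nat_lit 54) (nat_lit 6) (nat_lit 6) (.e true (nat_lit 1) (nat_lit 116) (nat_lit 2) (nat_lit 10) (.u (nat_lit 2) (.n (nat_lit 5) (nat_lit 1) .z) .nil))))))) .leaf)) (nat_lit 37898) (nat_lit 419) (.p (nat_lit 177) (nat_lit 1) (.n (nat_lit 178) (nat_lit 2) (.n (nat_lit 179) (nat_lit 3) (.n (nat_lit 180) (nat_lit 1) (.p (nat_lit 181) (nat_lit 2) (.n (nat_lit 182) (nat_lit 1) (.n (nat_lit 183) (nat_lit 1) (.p (nat_lit 184) (nat_lit 1) (.n (nat_lit 185) (nat_lit 2) (.n (nat_lit 186) (nat_lit 1) (.p (nat_lit 187) (nat_lit 3) (.n (nat_lit 188) (nat_lit 2) (.p (nat_lit 189) (nat_lit 2) (.n (nat_lit 191) (nat_lit 3) (.n (nat_lit 192) (nat_lit 1) (.n (nat_lit 194) (nat_lit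 1) (.n (nat_lit 195) (nat_lit 1) (.p (nat_lit 196) (nat_lit 1) (.n (nat_lit 197) (nat_lit 3) (.n (nat_lit 203) (nat_lit 2) (.n (nat_lit 204) (nat_lit 1) (.n (nat_lit 205) (nat_lit 2) .z)))))))))))))))))))))) (.ct dR2_c292 (nat_lit 1) (nat_lit 4) (.s false (nat_lit 1) (nat_lit 10) (nat_lit 2) (nat_lit 5) (nat_lit 2) true (nat_lit 6) true (nat_lit 10) true (nat_lit 4) true (nat_lit 10) true (nat_lit 7) (.s false (nat_lit 1) (nat_lit 10) (nat_lit 6) (nat_lit 2) (nat_lit 1) true (nat_lit 1) true (nat_lit 11) true (nat_lit 4) true (nat_lit 6) true (nat_lit 10) (.e false (nat_lit 2) (nat_lit 97) (nat_lit 2) (nat_lit 10) (.e true (nat_lit 2) (nat_lit 99) (nat_lit 2) (nat_lit 10) (.e false (nat_lit 1) (nat_lit 100) (nat_lit 2) (nat_lit 10) (.e false (nat_lit 2) (nat_lit 101) (nat_lit 2) (nat_lit 10) (.e true (nat_lit 3) (nat_lit 102) (nat_lit 2) (nat_lit 10) (.e false (nat_lit 2) (nat_lit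 103) (nat_lit 2) (nat_lit 10) (.e true (nat_lit 2) (nat_lit 104) (nat_lit 2) (nat_lit 10) (.e false (nat_lit 3) (nat_lit 106) (nat_lit 2) (nat_lit 10) (.e true (nat_lit 2) (nat_lit 107) (nat_lit 2) (nat_lit 10) (.e true (nat_lit 2) (nat_lit 108) (nat_lit 2) (nat_lit 10) (.e true (nat_lit 2) (nat_lit 109) (nat_lit 2) (nat_lit 10) (.e true (nat_lit 1) (nat_lit 111) (nat_lit 2) (nat_lit 10) (.e false (nat_lit 1) (nat_lit 112) (nat_lit 2) (nat_lit 10) (.e true (nat_lit 2) (nat_lit 114) (nat_lit 2) (nat_lit 10) (.e true (nat_lit 1) (nat_lit 115) (nat_lit 2) (nat_lit 10) (.e false (nat_lit 1) (nat_lit 116) (nat_lit 2) (nat_lit 10) (.e false (nat_lit 2) (nat_lit 117) (nat_lit 2) (nat_lit 10) (.e true (nat_lit 1) (nat_lit 35) (nat_lit 10) (nat_lit 4) (.e true (nat_lit 1) (nat_lit 60) (nat_lit 5) (nat_lit 7) (.e true (nat_lit 1) (nat_lit 25) (nat_lit 15) (nat_lit 1) (.e false (nat_lit 1)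 (nat_lit 134) (nat_lit 1) (nat_lit 11) (.u (nat_lit 2) (.p (nat_lit 0) (nat_lit 1) (.p (nat_lit 1) (nat_lit 1) (.n (nat_lit 2) (nat_lit 1) (.n (nat_lit 4) (nat_lit 1) (.n (nat_lit 5) (nat_lit 1) (.n (nat_lit 10) (nat_lit 1) (.p (nat_lit 11) (nat_lit 1) (.n (nat_lit 12) (nat_lit 1) (.p (nat_lit 20) (nat_lit 1) (.n (nat_lit 26) (nat_lit 1) (.n (nat_lit 27) (nat_lit 1) (.p (nat_lit 28) (nat_lit 1) (.n (nat_lit 96) (nat_lit 1) (.p (nat_lit 98) (nat_lit 1) (.n (nat_lit 102) (nat_lit 1) (.p (nat_lit 103) (nat_lit 1) (.n (nat_lit 105) (nat_lit 1) .z))))))))))))))))) .nil))))))))))))))))))))))))) (.nd (.nd .leaf (nat_lit 38912) (nat_lit 112) (.p (nat_lit 75) (nat_lit 1) (.n (nat_lit 77) (nat_lit 1) .z)) (.ct dR2_c260 (nat_lit 1) (nat_lit 3) (.s true (nat_lit 1) (nat_lit 6) (nat_lit 2) (nat_lit 0) (nat_lit 2) true (nat_lit 0) true (nat_lit 2) true (nat_lit 0) true (nat_lit 2) true (nat_lit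 3) (.e false (nat_lit 1) (nat_lit 13) (nat_lit 6) (nat_lit 0) (.e true (nat_lit 2) (nat_lit 34) (nat_lit 2) (nat_lit 2) (.e true (nat_lit 1) (nat_lit 12) (nat_lit 6) (nat_lit 0) (.e true (nat_lit 1) (nat_lit 33) (nat_lit 2) (nat_lit 2) .nil)))))) .leaf) (nat_lit 38913) (nat_lit 119) (.p (nat_lit 79) (nat_lit 1) (.n (nat_lit 81) (nat_lit 1) .z)) (.ct dR2_c20 (nat_lit 1) (nat_lit 3) (.s true (nat_lit 1) (nat_lit 6) (nat_lit 2) (nat_lit 1) (nat_lit 2) true (nat_lit 0) true (nat_lit 2) true (nat_lit 0) true (nat_lit 2) true (nat_lit 3) (.e false (nat_lit 1) (nat_lit 15) (nat_lit 6) (nat_lit 0) (.e true (nat_lit 2) (nat_lit 37) (nat_lit 2) (nat_lit 2) (.e true (nat_lit 1) (nat_lit 14) (nat_lit 6) (nat_lit 0) (.e true (nat_lit 1) (nat_lit 36) (nat_lit 2) (nat_lit 2) .nil)))))) (.nd .leaf (nat_lit 38915) (nat_lit 253) (.n (nat_lit 125) (nat_lit 1) (.p (nat_lit 126) (nat_lit 1) (.n (nat_lit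 127) (nat_lit 1) (.p (nat_lit 129) (nat_lit 1) (.p (nat_lit 136) (nat_lit 1) .z))))) (.ct dR2_c276 (nat_lit 1) (nat_lit 5) (.s true (nat_lit 1) (nat_lit 16) (nat_lit 0) (nat_lit 2) (nat_lit 1) true (nat_lit 5) true (nat_lit 7) false (nat_lit 1) true (nat_lit 8) true (nat_lit 6) (.e true (nat_lit 1) (nat_lit 76) (nat_lit 1) (nat_lit 7) (.e true (nat_lit 1) (nat_lit 16) (nat_lit 9) (nat_lit 1) (.e true (nat_lit 1) (nat_lit 79) (nat_lit 0) (nat_lit 8) (.e true (nat_lit 1) (nat_lit 80) (nat_lit 0) (nat_lit 8) (.e false (nat_lit 1) (nat_lit 81) (nat_lit 0) (nat_lit 8) (.e false (nat_lit 2) (nat_lit 60) (nat_lit 2) (nat_lit 6) (.e true (nat_lit 1) (nat_lit 62) (nat_lit 2) (nat_lit 6) (.e false (nat_lit 2) (nat_lit 63) (nat_lit 2) (nat_lit 6) (.e false (nat_lit 1) (nat_lit 66) (nat_lit 2) (nat_lit 6) (.e true (nat_lit 1) (nat_lit 68) (nat_lit 2) (nat_lit 6) (.u (nat_lit 2) (.n (nat_lit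 4) (nat_lit 1) (.n (nat_lit 5) (nat_lit 1) .z)) .nil))))))))))))) .leaf))) (nat_lit 38919) (nat_lit 377) (.n (nat_lit 185) (nat_lit 1) (.p (nat_lit 203) (nat_lit 1) .z)) (.ct dR2_c292 (nat_lit 1) (nat_lit 5) (.s false (nat_lit 1) (nat_lit 7) (nat_lit 2) (nat_lit 6) (nat_lit 2) true (nat_lit 6) true (nat_lit 10) true (nat_lit 5) true (nat_lit 10) true (nat_lit 6) (.e true (nat_lit 1) (nat_lit 52) (nat_lit 6) (nat_lit 6) (.e false (nat_lit 2) (nat_lit 114) (nat_lit 2) (nat_lit 10) (.e true (nat_lit 1) (nat_lit 105) (nat_lit 2) (nat_lit 10) (.e false (nat_lit 1) (nat_lit 44) (nat_lit 6) (nat_lit 6) .nil)))))) (.nd (.nd (.nd .leaf (nat_lit 39938) (nat_lit 120) (.p (nat_lit 82) (nat_lit 1) .z) .df .leaf) (nat_lit 39942) (nat_lit 300) (.p (nat_lit 173) (nat_lit 1) .z) .df (.nd .leaf (nat_lit 40962) (nat_lit 121) (.p (nat_lit 83) (nat_lit 1) .z) .df .leaf)) (nat_lit 40966) (nat_lit 301)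 (.p (nat_lit 174) (nat_lit 1) .z) .df (.nd (.nd .leaf (nat_lit 41986) (nat_lit 122) (.p (nat_lit 84) (nat_lit 1) .z) .df .leaf) (nat_lit 41990) (nat_lit 331) (.p (nat_lit 146) (nat_lit 2) (.n (nat_lit 147) (nat_lit 3) (.p (nat_lit 148) (nat_lit 2) (.p (nat_lit 150) (nat_lit 2) (.p (nat_lit 151) (nat_lit 2) (.n (nat_lit 157) (nat_lit 1) (.n (nat_lit 160) (nat_lit 3) (.n (nat_lit 161) (nat_lit 2) (.p (nat_lit 171) (nat_lit 1) (.p (nat_lit 173) (nat_lit 3) (.n (nat_lit 174) (nat_lit 3) .z))))))))))) (.ct dR2_c307 (nat_lit 1) (nat_lit 6) (.s false (nat_lit 1) (nat_lit 19) (nat_lit 2) (nat_lit 1) (nat_lit 2) true (nat_lit 6) true (nat_lit 10) false (nat_lit 1) true (nat_lit 10) true (nat_lit 11) (.e false (nat_lit 1) (nat_lit 88) (nat_lit 2) (nat_lit 10) (.e true (nat_lit 1) (nat_lit 19) (nat_lit 14) (nat_lit 1) (.e false (nat_lit 1) (nat_lit 84) (nat_lit 2) (nat_lit 10) (.e true (nat_lit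 1) (nat_lit 90) (nat_lit 2) (nat_lit 10) (.e false (nat_lit 1) (nat_lit 94) (nat_lit 2) (nat_lit 10) (.e false (nat_lit 1) (nat_lit 98) (nat_lit 1) (nat_lit 11) .nil)))))))) .leaf))) (nat_lit 43010) (nat_lit 123) (.p (nat_lit 85) (nat_lit 1) .z) .df (.nd (.nd (.nd (.nd .leaf (nat_lit 43014) (nat_lit 302) (.p (nat_lit 175) (nat_lit 1) .z) .df .leaf) (nat_lit 44034) (nat_lit 124) (.p (nat_lit 86) (nat_lit 1) .z) .df (.nd .leaf (nat_lit 44038) (nat_lit 324) (.n (nat_lit 146) (nat_lit 2) (.n (nat_lit 150) (nat_lit 2) (.p (nat_lit 151) (nat_lit 3) (.p (nat_lit 157) (nat_lit 2) (.n (nat_lit 160) (nat_lit 1) (.n (nat_lit 161) (nat_lit 3) (.n (nat_lit 171) (nat_lit 2) (.p (nat_lit 174) (nat_lit 2) .z)))))))) (.ct dR2_c307 (nat_lit 1) (nat_lit 6) (.s true (nat_lit 1) (nat_lit 7) (nat_lit 6) (nat_lit 1) (nat_lit 2) true (nat_lit 0) true (nat_lit 10) true (nat_lit 5) true (nat_lit 6) true (nat_lit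 11) (.e false (nat_lit 1) (nat_lit 17) (nat_lit 16) (nat_lit 0) (.e true (nat_lit 1) (nat_lit 93) (nat_lit 2) (nat_lit 10) (.e true (nat_lit 1) (nat_lit 36) (nat_lit 7) (nat_lit 5) (.e false (nat_lit 1) (nat_lit 114) (nat_lit 1) (nat_lit 11) .nil)))))) .leaf)) (nat_lit 45057) (nat_lit 125) (.p (nat_lit 87) (nat_lit 1) .z) .df (.nd (.nd .leaf (nat_lit 45058) (nat_lit 153) (.p (nat_lit 97) (nat_lit 1) .z) .df .leaf) (nat_lit 45061) (nat_lit 306) (.n (nat_lit 146) (nat_lit 1) (.n (nat_lit 147) (nat_lit 3) (.p (nat_lit 150) (nat_lit 1) (.n (nat_lit 151) (nat_lit 3) (.p (nat_lit 157) (nat_lit 1) (.p (nat_lit 160) (nat_lit 1) (.n (nat_lit 161) (nat_lit 1) (.p (nat_lit 171) (nat_lit 1) (.p (nat_lit 174) (nat_lit 1) .z))))))))) (.ct dR2_c307 (nat_lit 1) (nat_lit 7) (.s true (nat_lit 1) (nat_lit 18) (nat_lit 1) (nat_lit 2) (nat_lit 2) true (nat_lit 7) true (nat_lit 10) false (nat_lit 1) true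 (nat_lit 11) true (nat_lit 10) (.e true (nat_lit 1) (nat_lit 83) (nat_lit 2) (nat_lit 10) (.e true (nat_lit 1) (nat_lit 18) (nat_lit 14) (nat_lit 1) (.e false (nat_lit 1) (nat_lit 114) (nat_lit 1) (nat_lit 11) (.e true (nat_lit 1) (nat_lit 87) (nat_lit 2) (nat_lit 10) .nil)))))) (.nd .leaf (nat_lit 45062) (nat_lit 367) (.p (nat_lit 203) (nat_lit 1) .z) .df .leaf))) (nat_lit 46081) (nat_lit 126) (.p (nat_lit 88) (nat_lit 1) .z) .df (.nd (.nd (.nd .leaf (nat_lit 46082) (nat_lit 154) (.p (nat_lit 98) (nat_lit 1) .z) .df .leaf) (nat_lit 46085) (nat_lit 303) (.p (nat_lit 176) (nat_lit 1) .z) .df (.nd .leaf (nat_lit 46086) (nat_lit 368) (.p (nat_lit 204) (nat_lit 1) .z) .df .leaf)) (nat_lit 47105) (nat_lit 127) (.p (nat_lit 89) (nat_lit 1) .z) .df (.nd (.nd .leaf (nat_lit 47106) (nat_lit 155) (.p (nat_lit 99) (nat_lit 1) .z) .df .leaf) (nat_lit 47109) (nat_lit 310) (.n (nat_lit 149) (nat_lit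 2) (.n (nat_lit 153) (nat_lit 2) (.p (nat_lit 155) (nat_lit 1) (.n (nat_lit 159) (nat_lit 1) (.n (nat_lit 163) (nat_lit 1) (.p (nat_lit 172) (nat_lit 1) (.p (nat_lit 175) (nat_lit 1) .z))))))) (.ct dR2_c307 (nat_lit 1) (nat_lit 7) (.s true (nat_lit 1) (nat_lit 20) (nat_lit 1) (nat_lit 2) (nat_lit 2) true (nat_lit 7) true (nat_lit 10) false (nat_lit 1) true (nat_lit 11) true (nat_lit 10) (.e true (nat_lit 1) (nat_lit 85) (nat_lit 2) (nat_lit 10) (.e true (nat_lit 1) (nat_lit 20) (nat_lit 14) (nat_lit 1) (.e false (nat_lit 1) (nat_lit 116) (nat_lit 1) (nat_lit 11) (.e true (nat_lit 1) (nat_lit 89) (nat_lit 2) (nat_lit 10) .nil)))))) .leaf)))) (nat_lit 47110) (nat_lit 369) (.p (nat_lit 205) (nat_lit 1) .z) .df (.nd (.nd (.nd (.nd (.nd .leaf (nat_lit 48129) (nat_lit 138) (.n (nat_lit 82) (nat_lit 1) (.n (nat_lit 83) (nat_lit 1) (.p (nat_lit 86) (nat_lit 1) (.n (nat_lit 87) (nat_lit 2)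 (.n (nat_lit 88) (nat_lit 1) (.p (nat_lit 89) (nat_lit 1) (.p (nat_lit 93) (nat_lit 1) (.p (nat_lit 96) (nat_lit 1) .z)))))))) (.ct dR2_c306 (nat_lit 1) (nat_lit 7) (.s true (nat_lit 3) (nat_lit 6) (nat_lit 3) (nat_lit 1) (nat_lit 1) true (nat_lit 1) true (nat_lit 7) true (nat_lit 2) true (nat_lit 5) true (nat_lit 7) (.e false (nat_lit 3) (nat_lit 15) (nat_lit 7) (nat_lit 1) (.e true (nat_lit 1) (nat_lit 45) (nat_lit 1) (nat_lit 7) (.e true (nat_lit 2) (nat_lit 44) (nat_lit 1) (nat_lit 7) (.e false (nat_lit 1) (nat_lit 46) (nat_lit 1) (nat_lit 7) (.e true (nat_lit 3) (nat_lit 52) (nat_lit 1) (nat_lit 7) (.e true (nat_lit 3) (nat_lit 17) (nat_lit 6) (nat_lit 2) (.u (nat_lit 2) (.p (nat_lit 0) (nat_lit 1) (.p (nat_lit 1) (nat_lit 1) (.n (nat_lit 4) (nat_lit 1) (.n (nat_lit 11) (nat_lit 1) (.n (nat_lit 14) (nat_lit 1) (.p (nat_lit 34) (nat_lit 2) (.p (nat_lit 35) (nat_lit 1) (.n (nat_lit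 36) (nat_lit 1) (.p (nat_lit 37) (nat_lit 1) .z))))))))) .nil))))))))) .leaf) (nat_lit 48130) (nat_lit 156) (.p (nat_lit 100) (nat_lit 1) .z) .df (.nd .leaf (nat_lit 48133) (nat_lit 318) (.n (nat_lit 146) (nat_lit 2) (.p (nat_lit 147) (nat_lit 3) (.n (nat_lit 149) (nat_lit 2) (.n (nat_lit 150) (nat_lit 2) (.n (nat_lit 151) (nat_lit 2) (.p (nat_lit 152) (nat_lit 3) (.n (nat_lit 153) (nat_lit 2) (.n (nat_lit 154) (nat_lit 3) (.p (nat_lit 155) (nat_lit 1) (.p (nat_lit 157) (nat_lit 1) (.p (nat_lit 158) (nat_lit 3) (.n (nat_lit 159) (nat_lit 1) (.p (nat_lit 160) (nat_lit 2) (.n (nat_lit 163) (nat_lit 1) (.p (nat_lit 172) (nat_lit 1) (.n (nat_lit 173) (nat_lit 2) (.p (nat_lit 174) (nat_lit 3) (.p (nat_lit 175) (nat_lit 1) (.n (nat_lit 176) (nat_lit 1) .z))))))))))))))))))) (.ct dR2_c307 (nat_lit 1) (nat_lit 7) (.s true (nat_lit 3) (nat_lit 6) (nat_lit 3) (nat_lit 1) (nat_lit 5) false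 (nat_lit 1) true (nat_lit 7) true (nat_lit 6) true (nat_lit 9) true (nat_lit 11) (.s false (nat_lit 3) (nat_lit 7) (nat_lit 2) (nat_lit 5) (nat_lit 2) true (nat_lit 6) true (nat_lit 10) true (nat_lit 5) true (nat_lit 10) true (nat_lit 7) (.s true (nat_lit 3) (nat_lit 7) (nat_lit 5) (nat_lit 2) (nat_lit 2) true (nat_lit 1) true (nat_lit 10) true (nat_lit 5) true (nat_lit 7) true (nat_lit 10) (.s false (nat_lit 3) (nat_lit 8) (nat_lit 5) (nat_lit 1) (nat_lit 2) true (nat_lit 1) true (nat_lit 10) true (nat_lit 4) true (nat_lit 7) true (nat_lit 11) dR2_i3))))) .leaf)) (nat_lit 48134) (nat_lit 392) (.p (nat_lit 177) (nat_lit 3) (.p (nat_lit 178) (nat_lit 3) (.p (nat_lit 179) (nat_lit 1) (.n (nat_lit 180) (nat_lit 1) (.n (nat_lit 181) (nat_lit 2) (.p (nat_lit 185) (nat_lit 1) (.p (nat_lit 186) (nat_lit 2) (.n (nat_lit 188) (nat_lit 1) (.n (nat_lit 191) (nat_lit 3) (.n (nat_lit 194) (nat_lit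 2) (.p (nat_lit 195) (nat_lit 1) (.p (nat_lit 203) (nat_lit 3) (.n (nat_lit 204) (nat_lit 3) (.p (nat_lit 205) (nat_lit 1) .z)))))))))))))) (.ct dR2_c292 (nat_lit 1) (nat_lit 6) (.s false (nat_lit 2) (nat_lit 6) (nat_lit 1) (nat_lit 5) (nat_lit 4) true (nat_lit 4) true (nat_lit 8) true (nat_lit 6) true (nat_lit 11) true (nat_lit 7) (.s true (nat_lit 2) (nat_lit 6) (nat_lit 1) (nat_lit 6) (nat_lit 3) true (nat_lit 5) true (nat_lit 9) true (nat_lit 6) true (nat_lit 11) true (nat_lit 6) (.s false (nat_lit 3) (nat_lit 10) (nat_lit 1) (nat_lit 6) (nat_lit 2) true (nat_lit 7) true (nat_lit 10) true (nat_lit 4) true (nat_lit 11) true (nat_lit 6) (.s true (nat_lit 3) (nat_lit 10) (nat_lit 2) (nat_lit 2) (nat_lit 5) true (nat_lit 1) true (nat_lit 7) true (nat_lit 4) true (nat_lit 10) true (nat_lit 10) (.s false (nat_lit 2) (nat_lit 9) (nat_lit 2) (nat_lit 6) (nat_lit 1) true (nat_lit 7) true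 (nat_lit 11) true (nat_lit 4) true (nat_lit 10) true (nat_lit 6) (.s false (nat_lit 3) (nat_lit 10) (nat_lit 2) (nat_lit 6) (nat_lit 1) true (nat_lit 7) true (nat_lit 11) true (nat_lit 4) true (nat_lit 10) true (nat_lit 6) (.s true (nat_lit 2) (nat_lit 9) (nat_lit 6) (nat_lit 1) (nat_lit 2) true (nat_lit 0) true (nat_lit 10) true (nat_lit 4) true (nat_lit 6) true (nat_lit 11) (.s true (nat_lit 1) (nat_lit 12) (nat_lit 1) (nat_lit 1) (nat_lit 6) true (nat_lit 1) true (nat_lit 6) true (nat_lit 2) true (nat_lit 11) true (nat_lit 11) (.s true (nat_lit 2) (nat_lit 13) (nat_lit 1) (nat_lit 1) (nat_lit 6) true (nat_lit 1) true (nat_lit 6) true (nat_lit 2) true (nat_lit 11) true (nat_lit 11) (.s false (nat_lit 2) (nat_lit 12) (nat_lit 1) (nat_lit 6) (nat_lit 1) false (nat_lit 13) true (nat_lit 11) true (nat_lit 2) true (nat_lit 11) true (nat_lit 6) (.s false (nat_lit 2) (nat_lit 13) (nat_lit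 6) (nat_lit 1) (nat_lit 1) true (nat_lit 1) true (nat_lit 11) true (nat_lit 2) true (nat_lit 6) true (nat_lit 11) (.s true (nat_lit 2) (nat_lit 15) (nat_lit 1) (nat_lit 4) (nat_lit 2) true (nat_lit 7) true (nat_lit 10) true (nat_lit 1) true (nat_lit 11) true (nat_lit 8) (.s false (nat_lit 2) (nat_lit 15) (nat_lit 2) (nat_lit 3) (nat_lit 2) true (nat_lit 6) true (nat_lit 10) true (nat_lit 1) true (nat_lit 10) true (nat_lit 9) (.s true (nat_lit 3) (nat_lit 16) (nat_lit 1) (nat_lit 4) (nat_lit 1) false (nat_lit 13) true (nat_lit 11) true (nat_lit 0) true (nat_lit 11) true (nat_lit 8) (.s false (nat_lit 3) (nat_lit 16) (nat_lit 3) (nat_lit 1) (nat_lit 2) true (nat_lit 4) true (nat_lit 10) true (nat_lit 0) true (nat_lit 9) true (nat_lit 11) (.s true (nat_lit 1) (nat_lit 24) (nat_lit 1) (nat_lit 2) (nat_lit 2) true (nat_lit 7) true (nat_lit 10) false (nat_lit 1) true (nat_lit 11) true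 (nat_lit 10) dR2_i5))))))))))))))))) (.nd (.nd .leaf (nat_lit 49153) (nat_lit 128) (.p (nat_lit 90) (nat_lit 1) .z) .df .leaf) (nat_lit 49154) (nat_lit 157) (.p (nat_lit 101) (nat_lit 1) .z) .df (.nd .leaf (nat_lit 49157) (nat_lit 332) (.p (nat_lit 146) (nat_lit 2) (.p (nat_lit 150) (nat_lit 3) (.p (nat_lit 151) (nat_lit 3) (.p (nat_lit 152) (nat_lit 3) (.p (nat_lit 157) (nat_lit 2) (.n (nat_lit 158) (nat_lit 1) (.p (nat_lit 160) (nat_lit 2) (.n (nat_lit 161) (nat_lit 1) (.p (nat_lit 162) (nat_lit 3) (.p (nat_lit 164) (nat_lit 1) (.n (nat_lit 171) (nat_lit 3) (.p (nat_lit 173) (nat_lit 2) (.p (nat_lit 174) (nat_lit 2) (.n (nat_lit 176) (nat_lit 3) .z)))))))))))))) (.ct dR2_c307 (nat_lit 1) (nat_lit 7) (.s true (nat_lit 1) (nat_lit 23) (nat_lit 1) (nat_lit 1) (nat_lit 2) true (nat_lit 7) true (nat_lit 10) false (nat_lit 3) true (nat_lit 11) true (nat_lit 11) (.e true (nat_lit 1) (nat_lit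 90) (nat_lit 2) (nat_lit 10) (.e false (nat_lit 1) (nat_lit 98) (nat_lit 1) (nat_lit 11) (.e false (nat_lit 2) (nat_lit 101) (nat_lit 1) (nat_lit 11) (.e true (nat_lit 1) (nat_lit 106) (nat_lit 1) (nat_lit 11) (.e false (nat_lit 2) (nat_lit 108) (nat_lit 1) (nat_lit 11) (.e true (nat_lit 1) (nat_lit 111) (nat_lit 1) (nat_lit 11) (.e true (nat_lit 1) (nat_lit 115) (nat_lit 1) (nat_lit 11) (.u (nat_lit 2) (.n (nat_lit 6) (nat_lit 1) (.n (nat_lit 14) (nat_lit 1) (.p (nat_lit 25) (nat_lit 1) (.n (nat_lit 28) (nat_lit 1) .z)))) .nil)))))))))) .leaf))) (nat_lit 49158) (nat_lit 381) (.n (nat_lit 178) (nat_lit 3) (.p (nat_lit 181) (nat_lit 1) (.n (nat_lit 185) (nat_lit 1) (.p (nat_lit 186) (nat_lit 1) (.n (nat_lit 188) (nat_lit 3) (.n (nat_lit 191) (nat_lit 2) (.p (nat_lit 194) (nat_lit 1) (.p (nat_lit 195) (nat_lit 3) (.n (nat_lit 204) (nat_lit 1) .z))))))))) (.ct dR2_c292 (nat_lit 1) (nat_lit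 6) (.s false (nat_lit 1) (nat_lit 23) (nat_lit 2) (nat_lit 1) (nat_lit 2) true (nat_lit 6) true (nat_lit 10) false (nat_lit 1) true (nat_lit 10) true (nat_lit 11) (.e false (nat_lit 2) (nat_lit 108) (nat_lit 2) (nat_lit 10) (.e true (nat_lit 1) (nat_lit 23) (nat_lit 14) (nat_lit 1) (.e false (nat_lit 1) (nat_lit 98) (nat_lit 2) (nat_lit 10) (.e false (nat_lit 2) (nat_lit 101) (nat_lit 2) (nat_lit 10) (.e true (nat_lit 1) (nat_lit 106) (nat_lit 2) (nat_lit 10) (.e true (nat_lit 1) (nat_lit 111) (nat_lit 2) (nat_lit 10) (.e true (nat_lit 1) (nat_lit 115) (nat_lit 2) (nat_lit 10) (.e false (nat_lit 1) (nat_lit 124) (nat_lit 1) (nat_lit 11) (.u (nat_lit 2) (.p (nat_lit 1) (nat_lit 1) (.p (nat_lit 11) (nat_lit 1) (.n (nat_lit 18) (nat_lit 1) .z))) .nil))))))))))) (.nd (.nd (.nd .leaf (nat_lit 50177) (nat_lit 129) (.p (nat_lit 91) (nat_lit 1) .z) .df .leaf) (nat_lit 50178) (nat_lit 158)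 (.p (nat_lit 102) (nat_lit 1) .z) .df (.nd .leaf (nat_lit 50182) (nat_lit 425) (.p (nat_lit 178) (nat_lit 2) (.p (nat_lit 179) (nat_lit 3) (.p (nat_lit 180) (nat_lit 1) (.p (nat_lit 181) (nat_lit 1) (.p (nat_lit 182) (nat_lit 3) (.n (nat_lit 183) (nat_lit 1) (.p (nat_lit 184) (nat_lit 1) (.p (nat_lit 186) (nat_lit 1) (.p (nat_lit 187) (nat_lit 1) (.n (nat_lit 188) (nat_lit 3) (.n (nat_lit 191) (nat_lit 3) (.n (nat_lit 194) (nat_lit 3) (.n (nat_lit 195) (nat_lit 3) (.n (nat_lit 196) (nat_lit 1) (.p (nat_lit 197) (nat_lit 1) (.n (nat_lit 203) (nat_lit 2) (.n (nat_lit 204) (nat_lit 2) (.p (nat_lit 205) (nat_lit 2) .z)))))))))))))))))) (.ct dR2_c292 (nat_lit 1) (nat_lit 6) (.s false (nat_lit 1) (nat_lit 24) (nat_lit 2) (nat_lit 1) (nat_lit 2) true (nat_lit 6) true (nat_lit 10) false (nat_lit 1) true (nat_lit 10) true (nat_lit 11) (.e false (nat_lit 2) (nat_lit 109) (nat_lit 2) (nat_lit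 10) (.e true (nat_lit 1) (nat_lit 24) (nat_lit 14) (nat_lit 1) (.e false (nat_lit 1) (nat_lit 99) (nat_lit 2) (nat_lit 10) (.e false (nat_lit 2) (nat_lit 102) (nat_lit 2) (nat_lit 10) (.e true (nat_lit 1) (nat_lit 107) (nat_lit 2) (nat_lit 10) (.e true (nat_lit 1) (nat_lit 112) (nat_lit 2) (nat_lit 10) (.e true (nat_lit 1) (nat_lit 116) (nat_lit 2) (nat_lit 10) (.e false (nat_lit 1) (nat_lit 125) (nat_lit 1) (nat_lit 11) .nil)))))))))) .leaf)) (nat_lit 51201) (nat_lit 130) (.p (nat_lit 92) (nat_lit 1) .z) .df (.nd (.nd .leaf (nat_lit 51202) (nat_lit 159) (.p (nat_lit 103) (nat_lit 1) .z) .df .leaf) (nat_lit 51206) (nat_lit 422) (.p (nat_lit 177) (nat_lit 1) (.n (nat_lit 179) (nat_lit 2) (.p (nat_lit 183) (nat_lit 3) (.n (nat_lit 184) (nat_lit 1) (.n (nat_lit 186) (nat_lit 3) (.n (nat_lit 187) (nat_lit 2) (.p (nat_lit 188) (nat_lit 2) (.n (nat_lit 191) (nat_lit 3) (.n (nat_lit 194)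 (nat_lit 2) (.p (nat_lit 195) (nat_lit 3) (.p (nat_lit 197) (nat_lit 2) (.p (nat_lit 205) (nat_lit 1) .z)))))))))))) (.ct dR2_c292 (nat_lit 1) (nat_lit 6) (.s false (nat_lit 1) (nat_lit 26) (nat_lit 2) (nat_lit 1) (nat_lit 2) true (nat_lit 6) true (nat_lit 10) false (nat_lit 1) true (nat_lit 10) true (nat_lit 11) (.e true (nat_lit 1) (nat_lit 26) (nat_lit 14) (nat_lit 1) (.e false (nat_lit 2) (nat_lit 97) (nat_lit 2) (nat_lit 10) (.e false (nat_lit 3) (nat_lit 98) (nat_lit 2) (nat_lit 10) (.e true (nat_lit 3) (nat_lit 99) (nat_lit 2) (nat_lit 10) (.e false (nat_lit 3) (nat_lit 100) (nat_lit 2) (nat_lit 10) (.e true (nat_lit 1) (nat_lit 101) (nat_lit 2) (nat_lit 10) (.e false (nat_lit 2) (nat_lit 103) (nat_lit 2) (nat_lit 10) (.e true (nat_lit 1) (nat_lit 104) (nat_lit 2) (nat_lit 10) (.e false (nat_lit 3) (nat_lit 105) (nat_lit 2) (nat_lit 10) (.e true (nat_lit 2) (nat_lit 106) (nat_lit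 2) (nat_lit 10) (.e true (nat_lit 2) (nat_lit 107) (nat_lit 2) (nat_lit 10) (.e false (nat_lit 3) (nat_lit 108) (nat_lit 2) (nat_lit 10) (.e false (nat_lit 1) (nat_lit 109) (nat_lit 2) (nat_lit 10) (.e false (nat_lit 3) (nat_lit 112) (nat_lit 2) (nat_lit 10) (.e true (nat_lit 2) (nat_lit 114) (nat_lit 2) (nat_lit 10) (.e false (nat_lit 2) (nat_lit 117) (nat_lit 2) (nat_lit 10) (.e false (nat_lit 1) (nat_lit 127) (nat_lit 1) (nat_lit 11) .nil))))))))))))))))))) .leaf))) (nat_lit 52225) (nat_lit 145) (.n (nat_lit 82) (nat_lit 3) (.n (nat_lit 83) (nat_lit 3) (.p (nat_lit 86) (nat_lit 3) (.p (nat_lit 88) (nat_lit 2) (.p (nat_lit 90) (nat_lit 3) (.p (nat_lit 92) (nat_lit 1) (.n (nat_lit 93) (nat_lit 3) (.n (nat_lit 94) (nat_lit 3) (.n (nat_lit 95) (nat_lit 2) (.p (nat_lit 96) (nat_lit 3) .z)))))))))) (.ct dR2_c306 (nat_lit 1) (nat_lit 7) (.s false (nat_lit 3) (nat_lit 5) (nat_lit 1) (nat_lit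 3) (nat_lit 2) true (nat_lit 3) true (nat_lit 6) true (nat_lit 3) true (nat_lit 7) true (nat_lit 5) (.s true (nat_lit 3) (nat_lit 10) (nat_lit 1) (nat_lit 1) (nat_lit 2) true (nat_lit 3) true (nat_lit 6) true (nat_lit 0) true (nat_lit 7) true (nat_lit 7) (.s false (nat_lit 3) (nat_lit 14) (nat_lit 0) (nat_lit 1) (nat_lit 1) true (nat_lit 5) true (nat_lit 7) false (nat_lit 1) true (nat_lit 8) true (nat_lit 7) (.e true (nat_lit 1) (nat_lit 18) (nat_lit 5) (nat_lit 3) (.e true (nat_lit 3) (nat_lit 20) (nat_lit 5) (nat_lit 3) (.e true (nat_lit 1) (nat_lit 40) (nat_lit 2) (nat_lit 6) (.e true (nat_lit 3) (nat_lit 53) (nat_lit 1) (nat_lit 7) (.e true (nat_lit 3) (nat_lit 39) (nat_lit 2) (nat_lit 6) (.e true (nat_lit 3) (nat_lit 42) (nat_lit 2) (nat_lit 6) (.e true (nat_lit 3) (nat_lit 44) (nat_lit 1) (nat_lit 7) (.e false (nat_lit 3) (nat_lit 45) (nat_lit 1) (nat_lit 7) (.e false (nat_lit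 3) (nat_lit 48) (nat_lit 1) (nat_lit 7) (.e false (nat_lit 1) (nat_lit 50) (nat_lit 1) (nat_lit 7) (.e true (nat_lit 3) (nat_lit 52) (nat_lit 1) (nat_lit 7) (.e false (nat_lit 2) (nat_lit 54) (nat_lit 1) (nat_lit 7) (.e false (nat_lit 3) (nat_lit 49) (nat_lit 1) (nat_lit 7) (.e true (nat_lit 1) (nat_lit 46) (nat_lit 1) (nat_lit 7) (.e false (nat_lit 1) (nat_lit 47) (nat_lit 1) (nat_lit 7) (.e false (nat_lit 3) (nat_lit 14) (nat_lit 7) (nat_lit 1) (.u (nat_lit 2) (.n (nat_lit 5) (nat_lit 1) (.p (nat_lit 13) (nat_lit 1) (.p (nat_lit 21) (nat_lit 1) (.p (nat_lit 30) (nat_lit 1) (.p (nat_lit 36) (nat_lit 1) (.n (nat_lit 37) (nat_lit 1) (.n (nat_lit 40) (nat_lit 1) (.p (nat_lit 41) (nat_lit 1) (.p (nat_lit 44) (nat_lit 1) .z))))))))) .nil))))))))))))))))))))) (.nd (.nd (.nd (.nd .leaf (nat_lit 52226) (nat_lit 160) (.p (nat_lit 104) (nat_lit 1) .z) .df .leaf) (nat_lit 52230) (nat_lit 433)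 (.n (nat_lit 177) (nat_lit 3) (.n (nat_lit 178) (nat_lit 1) (.n (nat_lit 179) (nat_lit 2) (.n (nat_lit 180) (nat_lit 1) (.p (nat_lit 181) (nat_lit 1) (.p (nat_lit 182) (nat_lit 1) (.p (nat_lit 184) (nat_lit 2) (.n (nat_lit 185) (nat_lit 3) (.p (nat_lit 186) (nat_lit 3) (.n (nat_lit 187) (nat_lit 1) (.n (nat_lit 188) (nat_lit 2) (.n (nat_lit 191) (nat_lit 1) (.p (nat_lit 194) (nat_lit 2) (.p (nat_lit 195) (nat_lit 2) (.n (nat_lit 196) (nat_lit 1) (.p (nat_lit 197) (nat_lit 2) (.n (nat_lit 203) (nat_lit 3) (.n (nat_lit 204) (nat_lit 2) (.p (nat_lit 205) (nat_lit 2) .z))))))))))))))))))) (.ct dR2_c292 (nat_lit 1) (nat_lit 6) (.s true (nat_lit 1) (nat_lit 10) (nat_lit 6) (nat_lit 2) (nat_lit 1) true (nat_lit 1) true (nat_lit 11) true (nat_lit 4) true (nat_lit 6) true (nat_lit 10) (.e false (nat_lit 1) (nat_lit 25) (nat_lit 15) (nat_lit 1) (.e true (nat_lit 1) (nat_lit 134) (nat_lit 1)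 (nat_lit 11) (.e false (nat_lit 1) (nat_lit 37) (nat_lit 10) (nat_lit 4) (.e true (nat_lit 1) (nat_lit 44) (nat_lit 6) (nat_lit 6) (.e true (nat_lit 1) (nat_lit 45) (nat_lit 6) (nat_lit 6) (.e true (nat_lit 1) (nat_lit 48) (nat_lit 6) (nat_lit 6) (.e false (nat_lit 1) (nat_lit 50) (nat_lit 6) (nat_lit 6) (.e false (nat_lit 1) (nat_lit 52) (nat_lit 6) (nat_lit 6) (.e true (nat_lit 1) (nat_lit 54) (nat_lit 6) (nat_lit 6) (.e false (nat_lit 2) (nat_lit 97) (nat_lit 2) (nat_lit 10) (.e false (nat_lit 2) (nat_lit 98) (nat_lit 2) (nat_lit 10) (.e true (nat_lit 1) (nat_lit 99) (nat_lit 2) (nat_lit 10) (.e false (nat_lit 1) (nat_lit 100) (nat_lit 2) (nat_lit 10) (.e false (nat_lit 1) (nat_lit 101) (nat_lit 2) (nat_lit 10) (.e false (nat_lit 1) (nat_lit 106) (nat_lit 2) (nat_lit 10) (.e true (nat_lit 1) (nat_lit 111) (nat_lit 2) (nat_lit 10) (.e true (nat_lit 2) (nat_lit 114) (nat_lit 2)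 (nat_lit 10) (.e false (nat_lit 1) (nat_lit 116) (nat_lit 2) (nat_lit 10) (.e false (nat_lit 1) (nat_lit 117) (nat_lit 2) (nat_lit 10) (.u (nat_lit 2) (.p (nat_lit 3) (nat_lit 1) (.p (nat_lit 4) (nat_lit 1) (.n (nat_lit 9) (nat_lit 1) (.p (nat_lit 11) (nat_lit 1) (.n (nat_lit 17) (nat_lit 1) (.n (nat_lit 18) (nat_lit 1) (.p (nat_lit 19) (nat_lit 1) (.p (nat_lit 26) (nat_lit 1) (.p (nat_lit 27) (nat_lit 1) (.n (nat_lit 28) (nat_lit 1) .z)))))))))) .nil)))))))))))))))))))))) (.nd .leaf (nat_lit 53249) (nat_lit 131) (.p (nat_lit 93) (nat_lit 1) .z) .df .leaf)) (nat_lit 53250) (nat_lit 161) (.p (nat_lit 105) (nat_lit 1) .z) .df (.nd (.nd .leaf (nat_lit 53253) (nat_lit 322) (.n (nat_lit 146) (nat_lit 3) (.n (nat_lit 147) (nat_lit 3) (.n (nat_lit 151) (nat_lit 1) (.p (nat_lit 157) (nat_lit 3) (.n (nat_lit 160) (nat_lit 2) (.p (nat_lit 161) (nat_lit 3) (.p (nat_lit 171) (nat_lit 3) (.n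 (nat_lit 174) (nat_lit 2) .z)))))))) (.ct dR2_c307 (nat_lit 1) (nat_lit 7) (.s true (nat_lit 1) (nat_lit 5) (nat_lit 2) (nat_lit 3) (nat_lit 5) true (nat_lit 1) true (nat_lit 7) true (nat_lit 7) true (nat_lit 10) true (nat_lit 9) (.s true (nat_lit 1) (nat_lit 15) (nat_lit 2) (nat_lit 3) (nat_lit 1) true (nat_lit 7) true (nat_lit 11) true (nat_lit 1) true (nat_lit 10) true (nat_lit 9) (.s false (nat_lit 1) (nat_lit 16) (nat_lit 1) (nat_lit 3) (nat_lit 1) false (nat_lit 13) true (nat_lit 11) true (nat_lit 0) true (nat_lit 11) true (nat_lit 9) (.s true (nat_lit 1) (nat_lit 21) (nat_lit 1) (nat_lit 2) (nat_lit 2) true (nat_lit 7) true (nat_lit 10) false (nat_lit 1) true (nat_lit 11) true (nat_lit 10) (.e false (nat_lit 1) (nat_lit 18) (nat_lit 14) (nat_lit 1) (.e true (nat_lit 1) (nat_lit 20) (nat_lit 14) (nat_lit 1) (.e false (nat_lit 3) (nat_lit 44) (nat_lit 5) (nat_lit 7) (.e false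 (nat_lit 1) (nat_lit 45) (nat_lit 5) (nat_lit 7) dR2_i6))))))))) .leaf) (nat_lit 53254) (nat_lit 376) (.p (nat_lit 194) (nat_lit 2) .z) (.ct dR2_c292 (nat_lit 1) (nat_lit 6) (.s true (nat_lit 3) (nat_lit 7) (nat_lit 2) (nat_lit 6) (nat_lit 2) true (nat_lit 6) true (nat_lit 10) true (nat_lit 5) true (nat_lit 10) true (nat_lit 6) (.s true (nat_lit 3) (nat_lit 7) (nat_lit 6) (nat_lit 2) (nat_lit 2) true (nat_lit 0) true (nat_lit 10) true (nat_lit 5) true (nat_lit 6) true (nat_lit 10) (.e true (nat_lit 2) (nat_lit 114) (nat_lit 2) (nat_lit 10) (.e true (nat_lit 3) (nat_lit 44) (nat_lit 6) (nat_lit 6) (.e false (nat_lit 3) (nat_lit 18) (nat_lit 16) (nat_lit 0) (.u (nat_lit 2) (.n (nat_lit 17) (nat_lit 1) (.p (nat_lit 73) (nat_lit 1) (.n (nat_lit 113) (nat_lit 1) .z))) .nil))))))) .leaf)) (nat_lit 54273) (nat_lit 132) (.p (nat_lit 94) (nat_lit 1) .z) .df (.nd (.nd (.nd .leaf (nat_lit 54274)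 (nat_lit 162) (.p (nat_lit 106) (nat_lit 1) .z) .df .leaf) (nat_lit 54277) (nat_lit 338) (.n (nat_lit 146) (nat_lit 2) (.n (nat_lit 147) (nat_lit 1) (.n (nat_lit 150) (nat_lit 2) (.n (nat_lit 151) (nat_lit 2) (.n (nat_lit 152) (nat_lit 2) (.p (nat_lit 154) (nat_lit 3) (.p (nat_lit 157) (nat_lit 1) (.p (nat_lit 158) (nat_lit 3) (.n (nat_lit 160) (nat_lit 2) (.p (nat_lit 161) (nat_lit 1) (.n (nat_lit 162) (nat_lit 2) (.p (nat_lit 164) (nat_lit 1) (.p (nat_lit 171) (nat_lit 3) (.p (nat_lit 173) (nat_lit 2) (.n (nat_lit 174) (nat_lit 2) (.p (nat_lit 176) (nat_lit 1) .z)))))))))))))))) (.ct dR2_c307 (nat_lit 1) (nat_lit 7) (.s true (nat_lit 1) (nat_lit 15) (nat_lit 2) (nat_lit 3) (nat_lit 1) true (nat_lit 7) true (nat_lit 11) true (nat_lit 1) true (nat_lit 10) true (nat_lit 9) (.e false (nat_lit 2) (nat_lit 44) (nat_lit 5) (nat_lit 7) (.e true (nat_lit 1) (nat_lit 46) (nat_lit 5) (nat_lit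 7) (.e false (nat_lit 1) (nat_lit 47) (nat_lit 5) (nat_lit 7) (.e true (nat_lit 1) (nat_lit 48) (nat_lit 5) (nat_lit 7) (.e true (nat_lit 1) (nat_lit 117) (nat_lit 1) (nat_lit 11) (.e false (nat_lit 1) (nat_lit 19) (nat_lit 15) (nat_lit 1) (.e false (nat_lit 2) (nat_lit 82) (nat_lit 2) (nat_lit 10) (.e false (nat_lit 2) (nat_lit 83) (nat_lit 2) (nat_lit 10) (.e true (nat_lit 2) (nat_lit 86) (nat_lit 2) (nat_lit 10) (.e true (nat_lit 1) (nat_lit 93) (nat_lit 2) (nat_lit 10) (.e true (nat_lit 1) (nat_lit 96) (nat_lit 2) (nat_lit 10) (.e false (nat_lit 1) (nat_lit 71) (nat_lit 3) (nat_lit 9) (.u (nat_lit 2) (.n (nat_lit 4) (nat_lit 1) (.n (nat_lit 5) (nat_lit 1) (.n (nat_lit 8) (nat_lit 1) (.n (nat_lit 27) (nat_lit 1) (.p (nat_lit 28) (nat_lit 1) .z))))) .nil))))))))))))))) (.nd .leaf (nat_lit 54278) (nat_lit 382) (.n (nat_lit 177) (nat_lit 2) (.p (nat_lit 178) (nat_lit 1) (.p (nat_lit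 179) (nat_lit 1) (.n (nat_lit 180) (nat_lit 1) (.n (nat_lit 181) (nat_lit 2) (.p (nat_lit 185) (nat_lit 1) (.p (nat_lit 186) (nat_lit 2) (.p (nat_lit 188) (nat_lit 3) (.p (nat_lit 191) (nat_lit 3) (.p (nat_lit 194) (nat_lit 1) (.n (nat_lit 195) (nat_lit 2) (.n (nat_lit 197) (nat_lit 1) .z)))))))))))) (.ct dR2_c292 (nat_lit 1) (nat_lit 6) (.s true (nat_lit 1) (nat_lit 8) (nat_lit 1) (nat_lit 2) (nat_lit 6) true (nat_lit 1) true (nat_lit 6) true (nat_lit 4) true (nat_lit 11) true (nat_lit 10) (.s false (nat_lit 1) (nat_lit 8) (nat_lit 2) (nat_lit 5) (nat_lit 2) true (nat_lit 6) true (nat_lit 10) true (nat_lit 4) true (nat_lit 10) true (nat_lit 7) (.s false (nat_lit 1) (nat_lit 8) (nat_lit 2) (nat_lit 6) (nat_lit 1) true (nat_lit 7) true (nat_lit 11) true (nat_lit 4) true (nat_lit 10) true (nat_lit 6) (.s true (nat_lit 1) (nat_lit 8) (nat_lit 5) (nat_lit 2) (nat_lit 2) true (nat_lit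 1) true (nat_lit 10) true (nat_lit 4) true (nat_lit 7) true (nat_lit 10) (.s true (nat_lit 2) (nat_lit 15) (nat_lit 2) (nat_lit 3) (nat_lit 2) true (nat_lit 6) true (nat_lit 10) true (nat_lit 1) true (nat_lit 10) true (nat_lit 9) (.s true (nat_lit 1) (nat_lit 15) (nat_lit 3) (nat_lit 2) (nat_lit 2) true (nat_lit 4) true (nat_lit 10) true (nat_lit 1) true (nat_lit 9) true (nat_lit 10) (.s true (nat_lit 2) (nat_lit 16) (nat_lit 1) (nat_lit 2) (nat_lit 3) true (nat_lit 5) true (nat_lit 9) true (nat_lit 0) true (nat_lit 11) true (nat_lit 10) dR2_i7)))))))) .leaf)) (nat_lit 55297) (nat_lit 133) (.p (nat_lit 95) (nat_lit 1) .z) .df (.nd (.nd .leaf (nat_lit 55298) (nat_lit 163) (.p (nat_lit 107) (nat_lit 1) .z) .df .leaf) (nat_lit 55302) (nat_lit 426) (.p (nat_lit 177) (nat_lit 1) (.p (nat_lit 178) (nat_lit 2) (.n (nat_lit 180) (nat_lit 3) (.p (nat_lit 182) (nat_lit 3) (.p (nat_lit 183)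 (nat_lit 2) (.n (nat_lit 184) (nat_lit 2) (.n (nat_lit 185) (nat_lit 1) (.p (nat_lit 187) (nat_lit 2) (.n (nat_lit 188) (nat_lit 3) (.n (nat_lit 191) (nat_lit 2) (.p (nat_lit 194) (nat_lit 1) (.p (nat_lit 195) (nat_lit 2) (.n (nat_lit 196) (nat_lit 3) (.n (nat_lit 203) (nat_lit 3) (.n (nat_lit 204) (nat_lit 3) (.p (nat_lit 205) (nat_lit 3) .z)))))))))))))))) (.ct dR2_c292 (nat_lit 1) (nat_lit 6) (.s true (nat_lit 1) (nat_lit 9) (nat_lit 6) (nat_lit 1) (nat_lit 2) true (nat_lit 0) true (nat_lit 10) true (nat_lit 4) true (nat_lit 6) true (nat_lit 11) (.e false (nat_lit 1) (nat_lit 20) (nat_lit 16) (nat_lit 0) (.e true (nat_lit 1) (nat_lit 112) (nat_lit 2) (nat_lit 10) (.e false (nat_lit 1) (nat_lit 36) (nat_lit 9) (nat_lit 4) (.e false (nat_lit 1) (nat_lit 137) (nat_lit 1) (nat_lit 11) (.u (nat_lit 2) (.p (nat_lit 3) (nat_lit 1) (.n (nat_lit 5) (nat_lit 1) (.n (nat_lit 6) (nat_lit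 1) (.p (nat_lit 7) (nat_lit 1) (.p (nat_lit 26) (nat_lit 1) (.p (nat_lit 27) (nat_lit 1) (.n (nat_lit 28) (nat_lit 1) .z))))))) .nil))))))) .leaf))))) (nat_lit 56320) (nat_lit 152) (.p (nat_lit 82) (nat_lit 2) (.p (nat_lit 83) (nat_lit 2) (.n (nat_lit 84) (nat_lit 3) (.p (nat_lit 86) (nat_lit 1) (.p (nat_lit 89) (nat_lit 1) (.n (nat_lit 91) (nat_lit 1) (.p (nat_lit 92) (nat_lit 1) (.n (nat_lit 95) (nat_lit 2) (.n (nat_lit 96) (nat_lit 1) .z))))))))) (.ct dR2_c306 (nat_lit 1) (nat_lit 8) (.s true (nat_lit 1) (nat_lit 11) (nat_lit 1) (nat_lit 2) (nat_lit 0) true (nat_lit 5) true (nat_lit 8) false (nat_lit 0) true (nat_lit 7) true (nat_lit 6) (.e false (nat_lit 1) (nat_lit 29) (nat_lit 3) (nat_lit 5) (.e true (nat_lit 1) (nat_lit 11) (nat_lit 10) (nat_lit 0) (.e true (nat_lit 1) (nat_lit 49) (nat_lit 1) (nat_lit 7) (.e false (nat_lit 1) (nat_lit 50) (nat_lit 1) (nat_lit 7) (.e true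 (nat_lit 1) (nat_lit 54) (nat_lit 1) (nat_lit 7) (.e true (nat_lit 2) (nat_lit 41) (nat_lit 2) (nat_lit 6) (.e false (nat_lit 1) (nat_lit 39) (nat_lit 2) (nat_lit 6) (.e false (nat_lit 1) (nat_lit 42) (nat_lit 2) (nat_lit 6) (.e false (nat_lit 1) (nat_lit 43) (nat_lit 2) (nat_lit 6) (.u (nat_lit 2) (.n (nat_lit 1) (nat_lit 1) .z) .nil)))))))))))) (.nd (.nd (.nd (.nd (.nd (.nd .leaf (nat_lit 56322) (nat_lit 205) (.p (nat_lit 118) (nat_lit 1) .z) .df .leaf) (nat_lit 56326) (nat_lit 451) (.p (nat_lit 215) (nat_lit 1) .z) .df (.nd .leaf (nat_lit 57344) (nat_lit 150) (.n (nat_lit 82) (nat_lit 3) (.p (nat_lit 83) (nat_lit 3) (.n (nat_lit 84) (nat_lit 2) (.n (nat_lit 86) (nat_lit 1) (.p (nat_lit 88) (nat_lit 3) (.p (nat_lit 90) (nat_lit 3) (.p (nat_lit 92) (nat_lit 1) (.n (nat_lit 93) (nat_lit 3) (.p (nat_lit 94) (nat_lit 3) (.n (nat_lit 95) (nat_lit 2) (.n (nat_lit 96) (nat_lit 3) .z)))))))))))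 (.ct dR2_c306 (nat_lit 1) (nat_lit 8) (.s false (nat_lit 2) (nat_lit 11) (nat_lit 0) (nat_lit 1) (nat_lit 2) true (nat_lit 4) true (nat_lit 6) false (nat_lit 0) true (nat_lit 8) true (nat_lit 7) (.e false (nat_lit 2) (nat_lit 22) (nat_lit 4) (nat_lit 4) (.e false (nat_lit 3) (nat_lit 41) (nat_lit 2) (nat_lit 6) (.e false (nat_lit 2) (nat_lit 39) (nat_lit 2) (nat_lit 6) (.e false (nat_lit 2) (nat_lit 42) (nat_lit 2) (nat_lit 6) (.e false (nat_lit 2) (nat_lit 43) (nat_lit 2) (nat_lit 6) (.e false (nat_lit 2) (nat_lit 11) (nat_lit 8) (nat_lit 0) (.e false (nat_lit 1) (nat_lit 57) (nat_lit 0) (nat_lit 8) (.e true (nat_lit 2) (nat_lit 51) (nat_lit 1) (nat_lit 7) (.u (nat_lit 2) (.p (nat_lit 0) (nat_lit 2) (.p (nat_lit 2) (nat_lit 1) (.n (nat_lit 6) (nat_lit 1) (.n (nat_lit 8) (nat_lit 1) (.p (nat_lit 11) (nat_lit 1) (.p (nat_lit 12) (nat_lit 1) (.n (nat_lit 31) (nat_lit 1) (.p (nat_lit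 46) (nat_lit 1) (.n (nat_lit 47) (nat_lit 1) .z))))))))) .nil))))))))))) .leaf)) (nat_lit 57346) (nat_lit 206) (.p (nat_lit 119) (nat_lit 1) .z) .df (.nd (.nd .leaf (nat_lit 57350) (nat_lit 453) (.n (nat_lit 207) (nat_lit 3) (.p (nat_lit 209) (nat_lit 3) (.n (nat_lit 211) (nat_lit 1) (.p (nat_lit 215) (nat_lit 2) .z)))) (.ct dR2_c52 (nat_lit 1) (nat_lit 3) (.s true (nat_lit 3) (nat_lit 11) (nat_lit 5) (nat_lit 2) (nat_lit 2) true (nat_lit 1) true (nat_lit 5) true (nat_lit 2) true (nat_lit 4) true (nat_lit 5) (.s true (nat_lit 3) (nat_lit 14) (nat_lit 1) (nat_lit 5) (nat_lit 2) true (nat_lit 4) true (nat_lit 5) true (nat_lit 1) true (nat_lit 6) true (nat_lit 4) (.s true (nat_lit 3) (nat_lit 15) (nat_lit 1) (nat_lit 5) (nat_lit 2) true (nat_lit 4) true (nat_lit 5) true (nat_lit 1) true (nat_lit 6) true (nat_lit 4) (.s false (nat_lit 1) (nat_lit 14) (nat_lit 5) (nat_lit 1) (nat_lit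 2) true (nat_lit 1) true (nat_lit 5) true (nat_lit 1) true (nat_lit 4) true (nat_lit 6) (.s false (nat_lit 1) (nat_lit 14) (nat_lit 5) (nat_lit 2) (nat_lit 1) true (nat_lit 2) true (nat_lit 6) true (nat_lit 1) true (nat_lit 4) true (nat_lit 5) (.s true (nat_lit 2) (nat_lit 16) (nat_lit 5) (nat_lit 1) (nat_lit 1) true (nat_lit 2) true (nat_lit 6) true (nat_lit 0) true (nat_lit 4) true (nat_lit 6) (.s false (nat_lit 1) (nat_lit 29) (nat_lit 2) (nat_lit 1) (nat_lit 2) true (nat_lit 3) true (nat_lit 5) false (nat_lit 1) true (nat_lit 5) true (nat_lit 6) (.s false (nat_lit 3) (nat_lit 29) (nat_lit 2) (nat_lit 2) (nat_lit 1) true (nat_lit 4) true (nat_lit 6) false (nat_lit 1) true (nat_lit 5) true (nat_lit 5) (.s false (nat_lit 3) (nat_lit 35) (nat_lit 1) (nat_lit 2) (nat_lit 1) false (nat_lit 7) true (nat_lit 6) false (nat_lit 2) true (nat_lit 6) true (nat_lit 5) (.s true (nat_lit 2)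 (nat_lit 37) (nat_lit 1) (nat_lit 2) (nat_lit 1) false (nat_lit 7) true (nat_lit 6) false (nat_lit 2) true (nat_lit 6) true (nat_lit 5) (.e false (nat_lit 3) (nat_lit 120) (nat_lit 2) (nat_lit 5) (.e true (nat_lit 3) (nat_lit 118) (nat_lit 2) (nat_lit 5) (.e false (nat_lit 1) (nat_lit 122) (nat_lit 2) (nat_lit 5) (.e false (nat_lit 2) (nat_lit 22) (nat_lit 16) (nat_lit 0) (.u (nat_lit 2) (.p (nat_lit 16) (nat_lit 1) (.n (nat_lit 27) (nat_lit 3) (.n (nat_lit 28) (nat_lit 1) (.p (nat_lit 29) (nat_lit 4) (.n (nat_lit 30) (nat_lit 3) (.n (nat_lit 31) (nat_lit 1) (.p (nat_lit 32) (nat_lit 2) (.n (nat_lit 33) (nat_lit 2) (.n (nat_lit 35) (nat_lit 2) (.n (nat_lit 36) (nat_lit 3) (.n (nat_lit 37) (nat_lit 1) (.n (nat_lit 38) (nat_lit 3) .z)))))))))))) .nil)))))))))))))))) .leaf) (nat_lit 58368) (nat_lit 146) (.p (nat_lit 82) (nat_lit 3) (.n (nat_lit 83) (nat_lit 3) (.p (nat_lit 86) (nat_lit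 3) (.p (nat_lit 88) (nat_lit 2) (.p (nat_lit 90) (nat_lit 2) (.p (nat_lit 92) (nat_lit 1) (.n (nat_lit 93) (nat_lit 2) (.p (nat_lit 94) (nat_lit 2) (.p (nat_lit 96) (nat_lit 3) .z))))))))) (.ct dR2_c306 (nat_lit 1) (nat_lit 8) (.s false (nat_lit 1) (nat_lit 14) (nat_lit 1) (nat_lit 0) (nat_lit 1) false (nat_lit 9) true (nat_lit 7) false (nat_lit 1) true (nat_lit 7) true (nat_lit 8) (.e true (nat_lit 3) (nat_lit 45) (nat_lit 1) (nat_lit 7) (.e true (nat_lit 2) (nat_lit 48) (nat_lit 1) (nat_lit 7) (.e false (nat_lit 2) (nat_lit 50) (nat_lit 1) (nat_lit 7) (.e true (nat_lit 1) (nat_lit 51) (nat_lit 1) (nat_lit 7) (.e false (nat_lit 2) (nat_lit 52) (nat_lit 1) (nat_lit 7) (.e true (nat_lit 1) (nat_lit 53) (nat_lit 1) (nat_lit 7) (.e true (nat_lit 2) (nat_lit 54) (nat_lit 1) (nat_lit 7) (.e true (nat_lit 1) (nat_lit 14) (nat_lit 7) (nat_lit 1) (.e true (nat_lit 1) (nat_lit 44) (nat_lit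 1) (nat_lit 7) (.u (nat_lit 2) (.p (nat_lit 1) (nat_lit 1) (.n (nat_lit 4) (nat_lit 1) (.n (nat_lit 6) (nat_lit 1) (.n (nat_lit 8) (nat_lit 1) (.p (nat_lit 11) (nat_lit 1) (.n (nat_lit 14) (nat_lit 1) .z)))))) .nil)))))))))))) (.nd .leaf (nat_lit 58370) (nat_lit 207) (.p (nat_lit 120) (nat_lit 1) .z) .df .leaf))) (nat_lit 58374) (nat_lit 458) (.n (nat_lit 207) (nat_lit 2) (.p (nat_lit 209) (nat_lit 2) (.p (nat_lit 215) (nat_lit 1) .z))) (.ct dR2_c52 (nat_lit 1) (nat_lit 3) (.s true (nat_lit 2) (nat_lit 14) (nat_lit 1) (nat_lit 6) (nat_lit 1) false (nat_lit 7) true (nat_lit 6) true (nat_lit 1) true (nat_lit 6) true (nat_lit 3) (.s false (nat_lit 2) (nat_lit 31) (nat_lit 2) (nat_lit 1) (nat_lit 2) true (nat_lit 3) true (nat_lit 5) false (nat_lit 1) true (nat_lit 5) true (nat_lit 6) (.e false (nat_lit 3) (nat_lit 140) (nat_lit 1) (nat_lit 6) (.e true (nat_lit 3) (nat_lit 141) (nat_lit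 1) (nat_lit 6) (.e false (nat_lit 1) (nat_lit 143) (nat_lit 1) (nat_lit 6) (.e false (nat_lit 3) (nat_lit 145) (nat_lit 1) (nat_lit 6) (.e false (nat_lit 2) (nat_lit 55) (nat_lit 6) (nat_lit 3) (.e true (nat_lit 3) (nat_lit 56) (nat_lit 6) (nat_lit 3) (.e false (nat_lit 1) (nat_lit 118) (nat_lit 2) (nat_lit 5) (.e true (nat_lit 2) (nat_lit 120) (nat_lit 2) (nat_lit 5) (.e true (nat_lit 3) (nat_lit 122) (nat_lit 2) (nat_lit 5) (.e true (nat_lit 3) (nat_lit 119) (nat_lit 2) (nat_lit 5) (.u (nat_lit 2) (.p (nat_lit 0) (nat_lit 2) (.n (nat_lit 2) (nat_lit 1) (.n (nat_lit 3) (nat_lit 1) (.n (nat_lit 4) (nat_lit 1) (.p (nat_lit 5) (nat_lit 1) (.n (nat_lit 8) (nat_lit 2) (.p (nat_lit 20) (nat_lit 1) (.p (nat_lit 21) (nat_lit 1) (.n (nat_lit 27) (nat_lit 1) (.p (nat_lit 28) (nat_lit 1) (.p (nat_lit 31) (nat_lit 1) (.n (nat_lit 33) (nat_lit 1) (.p (nat_lit 34) (nat_lit 1) (.p (nat_lit 35)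 (nat_lit 2) (.p (nat_lit 36) (nat_lit 1) (.p (nat_lit 38) (nat_lit 1) .z)))))))))))))))) .nil)))))))))))))) (.nd (.nd (.nd .leaf (nat_lit 59393) (nat_lit 164) (.p (nat_lit 108) (nat_lit 1) .z) .df .leaf) (nat_lit 59394) (nat_lit 219) (.p (nat_lit 124) (nat_lit 1) .z) .df (.nd .leaf (nat_lit 59397) (nat_lit 370) (.p (nat_lit 206) (nat_lit 1) .z) .df .leaf)) (nat_lit 60417) (nat_lit 165) (.p (nat_lit 109) (nat_lit 1) .z) .df (.nd (.nd .leaf (nat_lit 60418) (nat_lit 220) (.p (nat_lit 125) (nat_lit 1) .z) .df .leaf) (nat_lit 60421) (nat_lit 408) (.n (nat_lit 177) (nat_lit 1) (.n (nat_lit 178) (nat_lit 2) (.n (nat_lit 180) (nat_lit 3) (.p (nat_lit 181) (nat_lit 2) (.n (nat_lit 182) (nat_lit 2) (.n (nat_lit 183) (nat_lit 3) (.p (nat_lit 184) (nat_lit 3) (.p (nat_lit 186) (nat_lit 3) (.p (nat_lit 187) (nat_lit 1) (.n (nat_lit 188) (nat_lit 3) (.p (nat_lit 189) (nat_lit 2) (.p (nat_lit 191)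 (nat_lit 2) (.p (nat_lit 192) (nat_lit 2) (.n (nat_lit 195) (nat_lit 3) (.n (nat_lit 197) (nat_lit 1) (.p (nat_lit 198) (nat_lit 1) (.p (nat_lit 199) (nat_lit 1) (.n (nat_lit 204) (nat_lit 1) (.n (nat_lit 205) (nat_lit 1) (.n (nat_lit 206) (nat_lit 1) .z)))))))))))))))))))) (.ct dR2_c292 (nat_lit 1) (nat_lit 7) (.s true (nat_lit 1) (nat_lit 10) (nat_lit 1) (nat_lit 2) (nat_lit 6) true (nat_lit 1) true (nat_lit 6) true (nat_lit 4) true (nat_lit 11) true (nat_lit 10) (.s true (nat_lit 1) (nat_lit 10) (nat_lit 2) (nat_lit 1) (nat_lit 6) true (nat_lit 0) true (nat_lit 6) true (nat_lit 4) true (nat_lit 10) true (nat_lit 11) (.s true (nat_lit 1) (nat_lit 24) (nat_lit 1) (nat_lit 2) (nat_lit 2) true (nat_lit 7) true (nat_lit 10) false (nat_lit 1) true (nat_lit 11) true (nat_lit 10) (.s true (nat_lit 1) (nat_lit 24) (nat_lit 2) (nat_lit 1) (nat_lit 2) true (nat_lit 6) true (nat_lit 10) false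 (nat_lit 1) true (nat_lit 10) true (nat_lit 11) (.s true (nat_lit 1) (nat_lit 38) (nat_lit 0) (nat_lit 1) (nat_lit 1) true (nat_lit 9) true (nat_lit 11) false (nat_lit 5) true (nat_lit 12) true (nat_lit 11) (.e true (nat_lit 1) (nat_lit 25) (nat_lit 15) (nat_lit 1) (.e true (nat_lit 1) (nat_lit 47) (nat_lit 6) (nat_lit 6) (.e true (nat_lit 2) (nat_lit 98) (nat_lit 2) (nat_lit 10) (.e false (nat_lit 1) (nat_lit 100) (nat_lit 2) (nat_lit 10) (.e false (nat_lit 1) (nat_lit 101) (nat_lit 2) (nat_lit 10) (.e true (nat_lit 2) (nat_lit 103) (nat_lit 2) (nat_lit 10) dR2_i8)))))))))))) .leaf))) (nat_lit 61441) (nat_lit 188) (.p (nat_lit 97) (nat_lit 1) (.p (nat_lit 98) (nat_lit 1) (.n (nat_lit 99) (nat_lit 2) (.p (nat_lit 100) (nat_lit 2) (.n (nat_lit 101) (nat_lit 2) (.n (nat_lit 103) (nat_lit 3) (.p (nat_lit 104) (nat_lit 3) (.p (nat_lit 105) (nat_lit 3) (.n (nat_lit 106) (nat_lit 3) (.n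 (nat_lit 107) (nat_lit 1) (.p (nat_lit 108) (nat_lit 1) (.p (nat_lit 109) (nat_lit 1) (.n (nat_lit 111) (nat_lit 2) (.p (nat_lit 114) (nat_lit 1) (.p (nat_lit 115) (nat_lit 3) (.p (nat_lit 117) (nat_lit 1) .z)))))))))))))))) (.ct dR2_c291 (nat_lit 1) (nat_lit 8) (.s false (nat_lit 1) (nat_lit 6) (nat_lit 2) (nat_lit 1) (nat_lit 3) true (nat_lit 1) true (nat_lit 6) true (nat_lit 3) true (nat_lit 7) true (nat_lit 8) (.e false (nat_lit 1) (nat_lit 15) (nat_lit 8) (nat_lit 1) (.e false (nat_lit 1) (nat_lit 37) (nat_lit 3) (nat_lit 6) (.e false (nat_lit 1) (nat_lit 18) (nat_lit 6) (nat_lit 3) (.e true (nat_lit 1) (nat_lit 20) (nat_lit 6) (nat_lit 3) (.e false (nat_lit 1) (nat_lit 21) (nat_lit 6) (nat_lit 3) (.e true (nat_lit 1) (nat_lit 52) (nat_lit 2) (nat_lit 7) (.e false (nat_lit 1) (nat_lit 59) (nat_lit 1) (nat_lit 8) (.e false (nat_lit 1) (nat_lit 61) (nat_lit 1) (nat_lit 8) (.e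 true (nat_lit 1) (nat_lit 63) (nat_lit 1) (nat_lit 8) (.u (nat_lit 2) (.n (nat_lit 18) (nat_lit 1) .z) .nil)))))))))))) (.nd (.nd (.nd (.nd .leaf (nat_lit 61442) (nat_lit 221) (.p (nat_lit 126) (nat_lit 1) .z) .df .leaf) (nat_lit 61445) (nat_lit 401) (.p (nat_lit 177) (nat_lit 2) (.n (nat_lit 178) (nat_lit 1) (.p (nat_lit 179) (nat_lit 2) (.p (nat_lit 180) (nat_lit 2) (.n (nat_lit 182) (nat_lit 2) (.p (nat_lit 183) (nat_lit 3) (.n (nat_lit 184) (nat_lit 3) (.p (nat_lit 185) (nat_lit 2) (.p (nat_lit 186) (nat_lit 1) (.p (nat_lit 187) (nat_lit 3) (.n (nat_lit 188) (nat_lit 3) (.p (nat_lit 189) (nat_lit 2) (.p (nat_lit 191) (nat_lit 1) (.p (nat_lit 192) (nat_lit 2) (.p (nat_lit 194) (nat_lit 2) (.p (nat_lit 195) (nat_lit 1) (.n (nat_lit 197) (nat_lit 3) (.p (nat_lit 199) (nat_lit 1) (.p (nat_lit 203) (nat_lit 3) (.p (nat_lit 204) (nat_lit 2) (.n (nat_lit 205) (nat_lit 1) (.n (nat_lit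 206) (nat_lit 1) .z)))))))))))))))))))))) (.ct dR2_c292 (nat_lit 1) (nat_lit 7) dR2_i9) (.nd .leaf (nat_lit 62465) (nat_lit 166) (.p (nat_lit 110) (nat_lit 1) .z) .df .leaf)) (nat_lit 62466) (nat_lit 222) (.p (nat_lit 127) (nat_lit 1) .z) .df (.nd (.nd .leaf (nat_lit 62469) (nat_lit 406) (.p (nat_lit 177) (nat_lit 2) (.n (nat_lit 178) (nat_lit 2) (.p (nat_lit 179) (nat_lit 3) (.n (nat_lit 180) (nat_lit 2) (.n (nat_lit 181) (nat_lit 3) (.n (nat_lit 182) (nat_lit 1) (.n (nat_lit 183) (nat_lit 3) (.p (nat_lit 184) (nat_lit 3) (.n (nat_lit 185) (nat_lit 2) (.n (nat_lit 186) (nat_lit 1) (.n (nat_lit 188) (nat_lit 1) (.p (nat_lit 189) (nat_lit 1) (.n (nat_lit 190) (nat_lit 1) (.p (nat_lit 191) (nat_lit 3) (.p (nat_lit 192) (nat_lit 3) (.p (nat_lit 194) (nat_lit 1) (.n (nat_lit 195) (nat_lit 1) (.n (nat_lit 197) (nat_lit 2) (.n (nat_lit 198) (nat_lit 1) (.p (nat_lit 200) (nat_lit 1) (.n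 (nat_lit 203) (nat_lit 3) (.n (nat_lit 204) (nat_lit 2) (.p (nat_lit 206) (nat_lit 1) .z))))))))))))))))))))))) (.ct dR2_c292 (nat_lit 1) (nat_lit 7) (.s false (nat_lit 1) (nat_lit 12) (nat_lit 2) (nat_lit 5) (nat_lit 1) true (nat_lit 7) true (nat_lit 11) true (nat_lit 2) true (nat_lit 10) true (nat_lit 7) (.s true (nat_lit 1) (nat_lit 12) (nat_lit 5) (nat_lit 2) (nat_lit 1) true (nat_lit 3) true (nat_lit 11) true (nat_lit 2) true (nat_lit 7) true (nat_lit 10) (.e false (nat_lit 1) (nat_lit 139) (nat_lit 1) (nat_lit 11) (.e true (nat_lit 1) (nat_lit 98) (nat_lit 2) (nat_lit 10) (.e false (nat_lit 2) (nat_lit 99) (nat_lit 2) (nat_lit 10) dR2_i10)))))) .leaf) (nat_lit 63489) (nat_lit 187) (.p (nat_lit 97) (nat_lit 1) (.p (nat_lit 98) (nat_lit 1) (.p (nat_lit 99) (nat_lit 2) (.n (nat_lit 100) (nat_lit 1) (.p (nat_lit 101) (nat_lit 3) (.p (nat_lit 102) (nat_lit 1) (.p (nat_lit 103) (nat_lit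 3) (.n (nat_lit 104) (nat_lit 3) (.n (nat_lit 105) (nat_lit 3) (.p (nat_lit 106) (nat_lit 2) (.p (nat_lit 109) (nat_lit 2) (.p (nat_lit 110) (nat_lit 2) (.p (nat_lit 111) (nat_lit 1) (.n (nat_lit 112) (nat_lit 1) (.n (nat_lit 114) (nat_lit 2) (.p (nat_lit 115) (nat_lit 3) (.n (nat_lit 116) (nat_lit 1) (.n (nat_lit 117) (nat_lit 1) .z)))))))))))))))))) (.ct dR2_c291 (nat_lit 1) (nat_lit 8) (.s false (nat_lit 3) (nat_lit 6) (nat_lit 4) (nat_lit 1) (nat_lit 1) true (nat_lit 1) true (nat_lit 8) true (nat_lit 3) true (nat_lit 5) true (nat_lit 8) (.e true (nat_lit 3) (nat_lit 15) (nat_lit 9) (nat_lit 1) (.e false (nat_lit 2) (nat_lit 59) (nat_lit 1) (nat_lit 8) (.e false (nat_lit 1) (nat_lit 61) (nat_lit 1) (nat_lit 8) (.e false (nat_lit 1) (nat_lit 63) (nat_lit 1) (nat_lit 8) (.e false (nat_lit 3) (nat_lit 67) (nat_lit 1) (nat_lit 8) (.e false (nat_lit 3) (nat_lit 20) (nat_lit 6) (nat_lit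 3) (.e false (nat_lit 1) (nat_lit 58) (nat_lit 1) (nat_lit 8) (.u (nat_lit 2) (.n (nat_lit 2) (nat_lit 1) (.n (nat_lit 5) (nat_lit 1) (.p (nat_lit 10) (nat_lit 1) (.p (nat_lit 15) (nat_lit 1) (.p (nat_lit 19) (nat_lit 1) (.n (nat_lit 57) (nat_lit 1) (.n (nat_lit 58) (nat_lit 2) (.n (nat_lit 60) (nat_lit 1) (.p (nat_lit 61) (nat_lit 1) (.n (nat_lit 62) (nat_lit 1) .z)))))))))) .nil)))))))))) .leaf)) (nat_lit 63490) (nat_lit 223) (.p (nat_lit 128) (nat_lit 1) .z) .df (.nd (.nd (.nd .leaf (nat_lit 63493) (nat_lit 413) (.n (nat_lit 177) (nat_lit 1) (.n (nat_lit 178) (nat_lit 1) (.n (nat_lit 179) (nat_lit 2) (.p (nat_lit 180) (nat_lit 1) (.p (nat_lit 181) (nat_lit 2) (.p (nat_lit 183) (nat_lit 2) (.n (nat_lit 184) (nat_lit 2) (.n (nat_lit 185) (nat_lit 2) (.n (nat_lit 186) (nat_lit 3) (.p (nat_lit 187) (nat_lit 3) (.p (nat_lit 188) (nat_lit 2) (.p (nat_lit 189) (nat_lit 1) (.n (nat_lit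 190) (nat_lit 2) (.p (nat_lit 192) (nat_lit 3) (.n (nat_lit 194) (nat_lit 2) (.n (nat_lit 195) (nat_lit 2) (.p (nat_lit 196) (nat_lit 1) (.p (nat_lit 197) (nat_lit 3) (.n (nat_lit 198) (nat_lit 1) (.p (nat_lit 200) (nat_lit 2) (.n (nat_lit 203) (nat_lit 1) (.n (nat_lit 204) (nat_lit 1) (.p (nat_lit 205) (nat_lit 3) (.p (nat_lit 206) (nat_lit 1) .z)))))))))))))))))))))))) (.ct dR2_c292 (nat_lit 1) (nat_lit 7) (.s false (nat_lit 1) (nat_lit 13) (nat_lit 2) (nat_lit 5) (nat_lit 1) true (nat_lit 7) true (nat_lit 11) true (nat_lit 2) true (nat_lit 10) true (nat_lit 7) (.s true (nat_lit 1) (nat_lit 13) (nat_lit 5) (nat_lit 2) (nat_lit 1) true (nat_lit 3) true (nat_lit 11) true (nat_lit 2) true (nat_lit 7) true (nat_lit 10) (.s false (nat_lit 1) (nat_lit 33) (nat_lit 1) (nat_lit 2) (nat_lit 1) false (nat_lit 13) true (nat_lit 11) false (nat_lit 3) true (nat_lit 11) true (nat_lit 10) (.e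 false (nat_lit 3) (nat_lit 124) (nat_lit 1) (nat_lit 11) dR2_i11))))) .leaf) (nat_lit 64513) (nat_lit 186) (.p (nat_lit 97) (nat_lit 1) (.p (nat_lit 98) (nat_lit 1) (.p (nat_lit 99) (nat_lit 1) (.n (nat_lit 100) (nat_lit 1) (.p (nat_lit 101) (nat_lit 3) (.p (nat_lit 103) (nat_lit 3) (.n (nat_lit 104) (nat_lit 3) (.n (nat_lit 105) (nat_lit 3) (.p (nat_lit 106) (nat_lit 2) (.p (nat_lit 107) (nat_lit 1) (.n (nat_lit 108) (nat_lit 1) (.p (nat_lit 110) (nat_lit 1) (.p (nat_lit 111) (nat_lit 1) (.n (nat_lit 114) (nat_lit 2) (.p (nat_lit 115) (nat_lit 3) (.n (nat_lit 117) (nat_lit 1) .z)))))))))))))))) (.ct dR2_c291 (nat_lit 1) (nat_lit 8) (.s true (nat_lit 2) (nat_lit 5) (nat_lit 0) (nat_lit 2) (nat_lit 5) true (nat_lit 1) true (nat_lit 4) true (nat_lit 4) true (nat_lit 9) true (nat_lit 7) (.s true (nat_lit 3) (nat_lit 6) (nat_lit 2) (nat_lit 1) (nat_lit 3) true (nat_lit 1) true (nat_lit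 6) true (nat_lit 3) true (nat_lit 7) true (nat_lit 8) (.s true (nat_lit 3) (nat_lit 6) (nat_lit 4) (nat_lit 1) (nat_lit 1) true (nat_lit 1) true (nat_lit 8) true (nat_lit 3) true (nat_lit 5) true (nat_lit 8) (.s false (nat_lit 2) (nat_lit 10) (nat_lit 1) (nat_lit 2) (nat_lit 2) true (nat_lit 4) true (nat_lit 7) true (nat_lit 1) true (nat_lit 8) true (nat_lit 7) (.s true (nat_lit 3) (nat_lit 10) (nat_lit 2) (nat_lit 1) (nat_lit 2) true (nat_lit 3) true (nat_lit 7) true (nat_lit 1) true (nat_lit 7) true (nat_lit 8) (.s true (nat_lit 2) (nat_lit 13) (nat_lit 1) (nat_lit 1) (nat_lit 2) true (nat_lit 4) true (nat_lit 7) false (nat_lit 0) true (nat_lit 8) true (nat_lit 8) (.s true (nat_lit 2) (nat_lit 14) (nat_lit 0) (nat_lit 2) (nat_lit 1) true (nat_lit 6) true (nat_lit 8) false (nat_lit 1) true (nat_lit 9) true (nat_lit 7) dR2_i12)))))))) (.nd .leaf (nat_lit 64514) (nat_lit 224) (.p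 (nat_lit 129) (nat_lit 1) .z) .df .leaf)) (nat_lit 64517) (nat_lit 411) (.p (nat_lit 177) (nat_lit 3) (.p (nat_lit 178) (nat_lit 2) (.p (nat_lit 180) (nat_lit 1) (.n (nat_lit 181) (nat_lit 3) (.n (nat_lit 182) (nat_lit 1) (.n (nat_lit 183) (nat_lit 2) (.p (nat_lit 184) (nat_lit 2) (.p (nat_lit 185) (nat_lit 2) (.p (nat_lit 186) (nat_lit 3) (.n (nat_lit 187) (nat_lit 2) (.p (nat_lit 188) (nat_lit 1) (.p (nat_lit 189) (nat_lit 1) (.n (nat_lit 190) (nat_lit 1) (.p (nat_lit 192) (nat_lit 3) (.p (nat_lit 194) (nat_lit 2) (.n (nat_lit 195) (nat_lit 1) (.n (nat_lit 198) (nat_lit 1) (.p (nat_lit 200) (nat_lit 1) (.n (nat_lit 203) (nat_lit 3) (.n (nat_lit 204) (nat_lit 3) .z)))))))))))))))))))) (.ct dR2_c292 (nat_lit 1) (nat_lit 7) (.s true (nat_lit 1) (nat_lit 28) (nat_lit 2) (nat_lit 2) (nat_lit 1) true (nat_lit 7) true (nat_lit 11) false (nat_lit 1) true (nat_lit 10) true (nat_lit 10)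 (.e true (nat_lit 1) (nat_lit 129) (nat_lit 1) (nat_lit 11) (.e false (nat_lit 1) (nat_lit 28) (nat_lit 15) (nat_lit 1) (.e true (nat_lit 1) (nat_lit 97) (nat_lit 2) (nat_lit 10) (.e true (nat_lit 2) (nat_lit 98) (nat_lit 2) (nat_lit 10) (.e false (nat_lit 1) (nat_lit 104) (nat_lit 2) (nat_lit 10) (.e true (nat_lit 2) (nat_lit 105) (nat_lit 2) (nat_lit 10) (.e false (nat_lit 3) (nat_lit 106) (nat_lit 2) (nat_lit 10) (.e false (nat_lit 2) (nat_lit 107) (nat_lit 2) (nat_lit 10) (.e false (nat_lit 2) (nat_lit 108) (nat_lit 2) (nat_lit 10) (.e false (nat_lit 1) (nat_lit 109) (nat_lit 2) (nat_lit 10) (.e true (nat_lit 1) (nat_lit 110) (nat_lit 2) (nat_lit 10) (.e true (nat_lit 3) (nat_lit 111) (nat_lit 2) (nat_lit 10) (.e false (nat_lit 3) (nat_lit 112) (nat_lit 2) (nat_lit 10) (.e false (nat_lit 3) (nat_lit 114) (nat_lit 2) (nat_lit 10) (.e false (nat_lit 2) (nat_lit 115) (nat_lit 2)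 (nat_lit 10) (.e true (nat_lit 1) (nat_lit 117) (nat_lit 2) (nat_lit 10) (.e false (nat_lit 1) (nat_lit 99) (nat_lit 2) (nat_lit 10) (.e true (nat_lit 1) (nat_lit 100) (nat_lit 2) (nat_lit 10) (.e false (nat_lit 1) (nat_lit 103) (nat_lit 2) (nat_lit 10) (.u (nat_lit 2) (.n (nat_lit 0) (nat_lit 1) (.p (nat_lit 10) (nat_lit 1) (.n (nat_lit 14) (nat_lit 1) (.p (nat_lit 26) (nat_lit 1) .z)))) .nil)))))))))))))))))))))) (.nd (.nd .leaf (nat_lit 65537) (nat_lit 194) (.n (nat_lit 98) (nat_lit 1) (.p (nat_lit 99) (nat_lit 2) (.n (nat_lit 100) (nat_lit 2) (.p (nat_lit 101) (nat_lit 2) (.n (nat_lit 102) (nat_lit 1) (.n (nat_lit 103) (nat_lit 1) (.n (nat_lit 105) (nat_lit 3) (.p (nat_lit 106) (nat_lit 3) (.p (nat_lit 107) (nat_lit 1) (.n (nat_lit 108) (nat_lit 3) (.n (nat_lit 109) (nat_lit 1) (.p (nat_lit 110) (nat_lit 2) (.n (nat_lit 111) (nat_lit 1) (.n (nat_lit 112) (nat_lit 3) (.n (nat_lit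 113) (nat_lit 1) (.p (nat_lit 114) (nat_lit 1) (.n (nat_lit 115) (nat_lit 1) (.p (nat_lit 116) (nat_lit 1) (.n (nat_lit 117) (nat_lit 1) .z))))))))))))))))))) (.ct dR2_c291 (nat_lit 1) (nat_lit 8) (.s true (nat_lit 1) (nat_lit 12) (nat_lit 2) (nat_lit 1) (nat_lit 1) true (nat_lit 4) true (nat_lit 8) false (nat_lit 0) true (nat_lit 7) true (nat_lit 8) (.e false (nat_lit 1) (nat_lit 26) (nat_lit 5) (nat_lit 4) (.e false (nat_lit 1) (nat_lit 12) (nat_lit 11) (nat_lit 0) (.e false (nat_lit 1) (nat_lit 61) (nat_lit 1) (nat_lit 8) .nil))))) .leaf) (nat_lit 65538) (nat_lit 225) (.p (nat_lit 130) (nat_lit 1) .z) .df .leaf)))) (nat_lit 65541) (nat_lit 398) (.p (nat_lit 177) (nat_lit 1) (.p (nat_lit 178) (nat_lit 1) (.n (nat_lit 179) (nat_lit 1) (.n (nat_lit 180) (nat_lit 2) (.p (nat_lit 181) (nat_lit 3) (.p (nat_lit 182) (nat_lit 2) (.n (nat_lit 183) (nat_lit 1) (.p (nat_lit 184) (nat_lit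 2) (.n (nat_lit 185) (nat_lit 1) (.p (nat_lit 186) (nat_lit 2) (.p (nat_lit 187) (nat_lit 2) (.n (nat_lit 188) (nat_lit 2) (.n (nat_lit 189) (nat_lit 1) (.n (nat_lit 190) (nat_lit 2) (.n (nat_lit 191) (nat_lit 2) (.n (nat_lit 192) (nat_lit 3) (.p (nat_lit 193) (nat_lit 1) (.p (nat_lit 194) (nat_lit 1) (.n (nat_lit 196) (nat_lit 1) (.n (nat_lit 197) (nat_lit 1) (.p (nat_lit 198) (nat_lit 1) (.p (nat_lit 201) (nat_lit 1) (.n (nat_lit 203) (nat_lit 1) (.n (nat_lit 204) (nat_lit 2) (.p (nat_lit 205) (nat_lit 1) (.n (nat_lit 206) (nat_lit 1) .z)))))))))))))))))))))))))) (.ct dR2_c292 (nat_lit 1) (nat_lit 7) (.s false (nat_lit 1) (nat_lit 32) (nat_lit 2) (nat_lit 1) (nat_lit 1) true (nat_lit 7) true (nat_lit 11) false (nat_lit 3) true (nat_lit 10) true (nat_lit 11) (.e false (nat_lit 1) (nat_lit 135) (nat_lit 1) (nat_lit 11) (.e true (nat_lit 1) (nat_lit 32) (nat_lit 11) (nat_lit 3) (.e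 true (nat_lit 1) (nat_lit 130) (nat_lit 1) (nat_lit 11) (.u (nat_lit 2) (.p (nat_lit 3) (nat_lit 1) (.n (nat_lit 4) (nat_lit 1) (.p (nat_lit 8) (nat_lit 1) (.n (nat_lit 9) (nat_lit 1) (.p (nat_lit 11) (nat_lit 1) (.p (nat_lit 15) (nat_lit 1) .z)))))) .nil)))))) (.nd (.nd (.nd (.nd (.nd .leaf (nat_lit 66561) (nat_lit 195) (.p (nat_lit 97) (nat_lit 1) (.p (nat_lit 98) (nat_lit 3) (.p (nat_lit 99) (nat_lit 3) (.n (nat_lit 100) (nat_lit 2) (.p (nat_lit 101) (nat_lit 2) (.p (nat_lit 102) (nat_lit 2) (.n (nat_lit 103) (nat_lit 2) (.p (nat_lit 104) (nat_lit 3) (.n (nat_lit 106) (nat_lit 3) (.n (nat_lit 107) (nat_lit 3) (.p (nat_lit 108) (nat_lit 1) (.p (nat_lit 109) (nat_lit 1) (.n (nat_lit 110) (nat_lit 1) (.p (nat_lit 111) (nat_lit 3) (.p (nat_lit 113) (nat_lit 1) (.n (nat_lit 114) (nat_lit 2) (.p (nat_lit 115) (nat_lit 3) (.n (nat_lit 116) (nat_lit 2) (.p (nat_lit 117) (nat_lit 3) .z)))))))))))))))))))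 (.ct dR2_c291 (nat_lit 1) (nat_lit 8) (.s true (nat_lit 1) (nat_lit 12) (nat_lit 1) (nat_lit 2) (nat_lit 1) false (nat_lit 10) true (nat_lit 8) false (nat_lit 0) true (nat_lit 8) true (nat_lit 7) (.e true (nat_lit 1) (nat_lit 61) (nat_lit 1) (nat_lit 8) (.e true (nat_lit 1) (nat_lit 12) (nat_lit 11) (nat_lit 0) (.e true (nat_lit 1) (nat_lit 58) (nat_lit 1) (nat_lit 8) (.e true (nat_lit 1) (nat_lit 59) (nat_lit 1) (nat_lit 8) (.e false (nat_lit 1) (nat_lit 62) (nat_lit 1) (nat_lit 8) (.e true (nat_lit 2) (nat_lit 63) (nat_lit 1) (nat_lit 8) (.e false (nat_lit 1) (nat_lit 68) (nat_lit 1) (nat_lit 8) (.e false (nat_lit 1) (nat_lit 50) (nat_lit 2) (nat_lit 7) (.u (nat_lit 2) (.n (nat_lit 0) (nat_lit 1) (.n (nat_lit 1) (nat_lit 1) (.n (nat_lit 4) (nat_lit 1) (.p (nat_lit 17) (nat_lit 1) (.n (nat_lit 18) (nat_lit 1) .z))))) .nil))))))))))) .leaf) (nat_lit 66562) (nat_lit 226) (.p (nat_lit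 131) (nat_lit 1) .z) .df (.nd .leaf (nat_lit 66565) (nat_lit 404) (.p (nat_lit 177) (nat_lit 1) (.n (nat_lit 178) (nat_lit 1) (.n (nat_lit 179) (nat_lit 3) (.p (nat_lit 180) (nat_lit 1) (.n (nat_lit 181) (nat_lit 3) (.p (nat_lit 182) (nat_lit 2) (.n (nat_lit 184) (nat_lit 1) (.p (nat_lit 185) (nat_lit 3) (.p (nat_lit 186) (nat_lit 2) (.p (nat_lit 187) (nat_lit 3) (.n (nat_lit 188) (nat_lit 3) (.p (nat_lit 190) (nat_lit 1) (.n (nat_lit 191) (nat_lit 1) (.p (nat_lit 192) (nat_lit 3) (.n (nat_lit 193) (nat_lit 1) (.n (nat_lit 194) (nat_lit 3) (.p (nat_lit 195) (nat_lit 2) (.p (nat_lit 196) (nat_lit 2) (.p (nat_lit 197) (nat_lit 3) (.n (nat_lit 198) (nat_lit 1) (.p (nat_lit 199) (nat_lit 1) (.p (nat_lit 200) (nat_lit 1) (.n (nat_lit 201) (nat_lit 1) (.p (nat_lit 203) (nat_lit 1) (.p (nat_lit 204) (nat_lit 1) (.p (nat_lit 205) (nat_lit 2) .z)))))))))))))))))))))))))) (.ct dR2_c292 (nat_lit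 1) (nat_lit 7) (.s true (nat_lit 1) (nat_lit 35) (nat_lit 1) (nat_lit 0) (nat_lit 2) true (nat_lit 7) true (nat_lit 10) false (nat_lit 4) true (nat_lit 11) true (nat_lit 12) (.e false (nat_lit 1) (nat_lit 97) (nat_lit 2) (nat_lit 10) (.e false (nat_lit 2) (nat_lit 99) (nat_lit 2) (nat_lit 10) (.e true (nat_lit 3) (nat_lit 100) (nat_lit 2) (nat_lit 10) (.e false (nat_lit 3) (nat_lit 101) (nat_lit 2) (nat_lit 10) (.e true (nat_lit 2) (nat_lit 102) (nat_lit 2) (nat_lit 10) (.e true (nat_lit 3) (nat_lit 103) (nat_lit 2) (nat_lit 10) (.e false (nat_lit 2) (nat_lit 104) (nat_lit 2) (nat_lit 10) dR2_i13))))))))) .leaf)) (nat_lit 67585) (nat_lit 167) (.p (nat_lit 111) (nat_lit 1) .z) .df (.nd (.nd .leaf (nat_lit 67586) (nat_lit 227) (.p (nat_lit 132) (nat_lit 1) .z) .df .leaf) (nat_lit 67589) (nat_lit 386) (.p (nat_lit 177) (nat_lit 2) (.n (nat_lit 178) (nat_lit 2) (.n (nat_lit 179) (nat_lit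 1) (.p (nat_lit 180) (nat_lit 1) (.p (nat_lit 181) (nat_lit 1) (.p (nat_lit 186) (nat_lit 1) (.n (nat_lit 188) (nat_lit 2) (.p (nat_lit 191) (nat_lit 3) (.n (nat_lit 194) (nat_lit 2) (.p (nat_lit 195) (nat_lit 2) (.p (nat_lit 197) (nat_lit 1) (.p (nat_lit 198) (nat_lit 1) (.p (nat_lit 204) (nat_lit 1) (.p (nat_lit 206) (nat_lit 1) .z)))))))))))))) (.ct dR2_c292 (nat_lit 1) (nat_lit 7) (.s false (nat_lit 1) (nat_lit 8) (nat_lit 5) (nat_lit 2) (nat_lit 2) true (nat_lit 1) true (nat_lit 10) true (nat_lit 4) true (nat_lit 7) true (nat_lit 10) (.e false (nat_lit 1) (nat_lit 23) (nat_lit 14) (nat_lit 1) (.e true (nat_lit 1) (nat_lit 35) (nat_lit 8) (nat_lit 4) (.e false (nat_lit 1) (nat_lit 98) (nat_lit 2) (nat_lit 10) (.e false (nat_lit 2) (nat_lit 101) (nat_lit 2) (nat_lit 10) (.e false (nat_lit 1) (nat_lit 108) (nat_lit 2) (nat_lit 10) (.e true (nat_lit 1) (nat_lit 111) (nat_lit 2)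 (nat_lit 10) (.e true (nat_lit 1) (nat_lit 115) (nat_lit 2) (nat_lit 10) .nil))))))))) (.nd .leaf (nat_lit 68609) (nat_lit 168) (.p (nat_lit 112) (nat_lit 1) .z) .df .leaf))) (nat_lit 68610) (nat_lit 228) (.p (nat_lit 133) (nat_lit 1) .z) .df (.nd (.nd (.nd .leaf (nat_lit 68613) (nat_lit 405) (.n (nat_lit 177) (nat_lit 2) (.p (nat_lit 178) (nat_lit 1) (.n (nat_lit 180) (nat_lit 1) (.p (nat_lit 181) (nat_lit 1) (.n (nat_lit 182) (nat_lit 1) (.p (nat_lit 183) (nat_lit 3) (.n (nat_lit 184) (nat_lit 3) (.p (nat_lit 185) (nat_lit 1) (.p (nat_lit 186) (nat_lit 2) (.p (nat_lit 187) (nat_lit 2) (.p (nat_lit 188) (nat_lit 3) (.n (nat_lit 192) (nat_lit 1) (.p (nat_lit 194) (nat_lit 2) (.n (nat_lit 195) (nat_lit 2) (.n (nat_lit 197) (nat_lit 2) (.p (nat_lit 198) (nat_lit 1) (.p (nat_lit 199) (nat_lit 2) (.n (nat_lit 203) (nat_lit 2) (.n (nat_lit 204) (nat_lit 3) (.p (nat_lit 205) (nat_lit 1)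 (.n (nat_lit 206) (nat_lit 1) .z))))))))))))))))))))) (.ct dR2_c292 (nat_lit 1) (nat_lit 7) (.s false (nat_lit 1) (nat_lit 9) (nat_lit 2) (nat_lit 6) (nat_lit 1) true (nat_lit 7) true (nat_lit 11) true (nat_lit 4) true (nat_lit 10) true (nat_lit 6) (.s false (nat_lit 1) (nat_lit 16) (nat_lit 4) (nat_lit 1) (nat_lit 1) true (nat_lit 4) true (nat_lit 11) true (nat_lit 0) true (nat_lit 8) true (nat_lit 11) (.e false (nat_lit 2) (nat_lit 99) (nat_lit 2) (nat_lit 10) (.e false (nat_lit 2) (nat_lit 102) (nat_lit 2) (nat_lit 10) (.e true (nat_lit 2) (nat_lit 107) (nat_lit 2) (nat_lit 10) (.e true (nat_lit 1) (nat_lit 112) (nat_lit 2) (nat_lit 10) (.e true (nat_lit 1) (nat_lit 116) (nat_lit 2) (nat_lit 10) (.e true (nat_lit 1) (nat_lit 46) (nat_lit 6) (nat_lit 6) (.e false (nat_lit 1) (nat_lit 129) (nat_lit 1) (nat_lit 11) (.e false (nat_lit 3) (nat_lit 130) (nat_lit 1) (nat_lit 11) (.e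 false (nat_lit 3) (nat_lit 127) (nat_lit 1) (nat_lit 11) (.e true (nat_lit 2) (nat_lit 126) (nat_lit 1) (nat_lit 11) (.e false (nat_lit 3) (nat_lit 131) (nat_lit 1) (nat_lit 11) (.e true (nat_lit 1) (nat_lit 132) (nat_lit 1) (nat_lit 11) (.e true (nat_lit 1) (nat_lit 133) (nat_lit 1) (nat_lit 11) (.e true (nat_lit 2) (nat_lit 134) (nat_lit 1) (nat_lit 11) (.e true (nat_lit 1) (nat_lit 20) (nat_lit 16) (nat_lit 0) (.u (nat_lit 2) (.p (nat_lit 0) (nat_lit 1) (.n (nat_lit 1) (nat_lit 2) (.p (nat_lit 2) (nat_lit 3) (.p (nat_lit 5) (nat_lit 3) (.n (nat_lit 8) (nat_lit 2) (.n (nat_lit 10) (nat_lit 3) (.n (nat_lit 17) (nat_lit 3) (.p (nat_lit 20) (nat_lit 1) (.n (nat_lit 21) (nat_lit 1) (.n (nat_lit 22) (nat_lit 1) (.p (nat_lit 23) (nat_lit 1) (.p (nat_lit 27) (nat_lit 1) (.p (nat_lit 29) (nat_lit 1) (.n (nat_lit 117) (nat_lit 1) (.n (nat_lit 118) (nat_lit 1) (.n (nat_lit 120) (nat_lit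 1) (.n (nat_lit 122) (nat_lit 1) (.n (nat_lit 123) (nat_lit 1) (.n (nat_lit 124) (nat_lit 1) .z))))))))))))))))))) .nil))))))))))))))))))) .leaf) (nat_lit 69633) (nat_lit 190) (.n (nat_lit 97) (nat_lit 3) (.n (nat_lit 98) (nat_lit 1) (.p (nat_lit 99) (nat_lit 2) (.n (nat_lit 100) (nat_lit 2) (.n (nat_lit 101) (nat_lit 1) (.p (nat_lit 103) (nat_lit 1) (.n (nat_lit 104) (nat_lit 1) (.n (nat_lit 105) (nat_lit 3) (.n (nat_lit 107) (nat_lit 2) (.p (nat_lit 111) (nat_lit 3) (.p (nat_lit 112) (nat_lit 1) (.p (nat_lit 114) (nat_lit 2) (.n (nat_lit 115) (nat_lit 2) (.p (nat_lit 117) (nat_lit 3) .z)))))))))))))) (.ct dR2_c291 (nat_lit 1) (nat_lit 8) (.s true (nat_lit 1) (nat_lit 16) (nat_lit 0) (nat_lit 1) (nat_lit 1) true (nat_lit 6) true (nat_lit 8) false (nat_lit 2) true (nat_lit 9) true (nat_lit 8) (.e true (nat_lit 1) (nat_lit 37) (nat_lit 3) (nat_lit 6) (.e true (nat_lit 2) (nat_lit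 58) (nat_lit 1) (nat_lit 8) (.e true (nat_lit 3) (nat_lit 59) (nat_lit 1) (nat_lit 8) (.e false (nat_lit 3) (nat_lit 60) (nat_lit 1) (nat_lit 8) (.e true (nat_lit 1) (nat_lit 61) (nat_lit 1) (nat_lit 8) (.e false (nat_lit 1) (nat_lit 63) (nat_lit 1) (nat_lit 8) (.e false (nat_lit 2) (nat_lit 66) (nat_lit 1) (nat_lit 8) (.e false (nat_lit 1) (nat_lit 67) (nat_lit 1) (nat_lit 8) (.e true (nat_lit 1) (nat_lit 16) (nat_lit 7) (nat_lit 2) (.u (nat_lit 2) (.p (nat_lit 0) (nat_lit 1) (.p (nat_lit 1) (nat_lit 1) (.n (nat_lit 2) (nat_lit 1) (.p (nat_lit 3) (nat_lit 1) (.n (nat_lit 6) (nat_lit 1) (.p (nat_lit 7) (nat_lit 1) (.p (nat_lit 8) (nat_lit 1) (.n (nat_lit 9) (nat_lit 1) (.n (nat_lit 14) (nat_lit 1) (.p (nat_lit 18) (nat_lit 2) .z)))))))))) .nil)))))))))))) (.nd .leaf (nat_lit 69634) (nat_lit 229) (.p (nat_lit 134) (nat_lit 1) .z) .df .leaf)) (nat_lit 69637) (nat_lit 430) (.n (nat_lit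 177) (nat_lit 3) (.n (nat_lit 178) (nat_lit 1) (.n (nat_lit 180) (nat_lit 1) (.n (nat_lit 182) (nat_lit 1) (.p (nat_lit 183) (nat_lit 2) (.n (nat_lit 184) (nat_lit 2) (.p (nat_lit 186) (nat_lit 2) (.n (nat_lit 187) (nat_lit 3) (.p (nat_lit 188) (nat_lit 1) (.p (nat_lit 191) (nat_lit 2) (.n (nat_lit 192) (nat_lit 1) (.n (nat_lit 194) (nat_lit 2) (.p (nat_lit 195) (nat_lit 2) (.p (nat_lit 197) (nat_lit 1) (.p (nat_lit 199) (nat_lit 2) (.n (nat_lit 204) (nat_lit 2) (.p (nat_lit 205) (nat_lit 1) (.n (nat_lit 206) (nat_lit 2) .z)))))))))))))))))) (.ct dR2_c292 (nat_lit 1) (nat_lit 7) (.s false (nat_lit 1) (nat_lit 10) (nat_lit 2) (nat_lit 6) (nat_lit 1) true (nat_lit 7) true (nat_lit 11) true (nat_lit 4) true (nat_lit 10) true (nat_lit 6) (.e false (nat_lit 1) (nat_lit 138) (nat_lit 1) (nat_lit 11) (.e false (nat_lit 1) (nat_lit 37) (nat_lit 10) (nat_lit 4) (.e false (nat_lit 3) (nat_lit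 97) (nat_lit 2) (nat_lit 10) (.e true (nat_lit 1) (nat_lit 98) (nat_lit 2) (nat_lit 10) (.e true (nat_lit 1) (nat_lit 99) (nat_lit 2) (nat_lit 10) (.e false (nat_lit 3) (nat_lit 100) (nat_lit 2) (nat_lit 10) (.e false (nat_lit 2) (nat_lit 101) (nat_lit 2) (nat_lit 10) (.e false (nat_lit 2) (nat_lit 102) (nat_lit 2) (nat_lit 10) (.e true (nat_lit 3) (nat_lit 103) (nat_lit 2) (nat_lit 10) (.e false (nat_lit 3) (nat_lit 104) (nat_lit 2) (nat_lit 10) (.e false (nat_lit 1) (nat_lit 105) (nat_lit 2) (nat_lit 10) (.e true (nat_lit 3) (nat_lit 106) (nat_lit 2) (nat_lit 10) (.e true (nat_lit 3) (nat_lit 107) (nat_lit 2) (nat_lit 10) (.e true (nat_lit 2) (nat_lit 111) (nat_lit 2) (nat_lit 10) (.e true (nat_lit 1) (nat_lit 112) (nat_lit 2) (nat_lit 10) (.e false (nat_lit 2) (nat_lit 115) (nat_lit 2) (nat_lit 10) (.e true (nat_lit 1) (nat_lit 116) (nat_lit 2) (nat_lit 10) (.e false (nat_lit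 3) (nat_lit 117) (nat_lit 2) (nat_lit 10) (.e true (nat_lit 1) (nat_lit 47) (nat_lit 6) (nat_lit 6) (.u (nat_lit 2) (.p (nat_lit 0) (nat_lit 1) (.n (nat_lit 1) (nat_lit 1) (.n (nat_lit 2) (nat_lit 1) (.p (nat_lit 3) (nat_lit 1) (.p (nat_lit 4) (nat_lit 1) (.n (nat_lit 6) (nat_lit 1) (.p (nat_lit 7) (nat_lit 1) (.n (nat_lit 9) (nat_lit 1) (.n (nat_lit 14) (nat_lit 1) (.n (nat_lit 26) (nat_lit 1) (.p (nat_lit 27) (nat_lit 1) (.n (nat_lit 28) (nat_lit 1) .z)))))))))))) .nil)))))))))))))))))))))) (.nd (.nd .leaf (nat_lit 70656) (nat_lit 169) (.p (nat_lit 113) (nat_lit 1) .z) .df .leaf) (nat_lit 70657) (nat_lit 208) (.p (nat_lit 121) (nat_lit 1) .z) .df .leaf))) (nat_lit 70658) (nat_lit 258) (.p (nat_lit 140) (nat_lit 1) .z) .df (.nd (.nd (.nd (.nd .leaf (nat_lit 70659) (nat_lit 334) (.p (nat_lit 146) (nat_lit 2) (.n (nat_lit 147) (nat_lit 2) (.n (nat_lit 148) (nat_lit 1) (.p (nat_lit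 150) (nat_lit 3) (.n (nat_lit 151) (nat_lit 3) (.n (nat_lit 154) (nat_lit 3) (.n (nat_lit 157) (nat_lit 2) (.n (nat_lit 158) (nat_lit 3) (.n (nat_lit 160) (nat_lit 2) (.n (nat_lit 162) (nat_lit 3) (.n (nat_lit 164) (nat_lit 2) (.p (nat_lit 167) (nat_lit 1) (.p (nat_lit 173) (nat_lit 2) (.n (nat_lit 174) (nat_lit 3) (.p (nat_lit 176) (nat_lit 3) .z))))))))))))))) (.ct dR2_c307 (nat_lit 1) (nat_lit 9) (.s true (nat_lit 1) (nat_lit 11) (nat_lit 2) (nat_lit 3) (nat_lit 2) true (nat_lit 6) true (nat_lit 10) true (nat_lit 3) true (nat_lit 10) true (nat_lit 9) (.e false (nat_lit 1) (nat_lit 40) (nat_lit 6) (nat_lit 6) (.e true (nat_lit 1) (nat_lit 41) (nat_lit 6) (nat_lit 6) (.e false (nat_lit 1) (nat_lit 43) (nat_lit 6) (nat_lit 6) (.e false (nat_lit 1) (nat_lit 82) (nat_lit 2) (nat_lit 10) (.e false (nat_lit 2) (nat_lit 83) (nat_lit 2) (nat_lit 10) (.e false (nat_lit 1) (nat_lit 84) (nat_lit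 2) (nat_lit 10) (.e false (nat_lit 3) (nat_lit 86) (nat_lit 2) (nat_lit 10) (.e true (nat_lit 1) (nat_lit 87) (nat_lit 2) (nat_lit 10) (.e false (nat_lit 3) (nat_lit 88) (nat_lit 2) (nat_lit 10) (.e true (nat_lit 3) (nat_lit 90) (nat_lit 2) (nat_lit 10) (.e true (nat_lit 3) (nat_lit 93) (nat_lit 2) (nat_lit 10) (.e false (nat_lit 3) (nat_lit 94) (nat_lit 2) (nat_lit 10) (.e true (nat_lit 2) (nat_lit 96) (nat_lit 2) (nat_lit 10) (.e false (nat_lit 1) (nat_lit 23) (nat_lit 11) (nat_lit 3) (.u (nat_lit 2) (.n (nat_lit 0) (nat_lit 1) (.p (nat_lit 1) (nat_lit 1) (.n (nat_lit 4) (nat_lit 1) (.p (nat_lit 12) (nat_lit 1) (.n (nat_lit 27) (nat_lit 1) (.p (nat_lit 28) (nat_lit 1) (.n (nat_lit 96) (nat_lit 1) .z))))))) .nil))))))))))))))))) .leaf) (nat_lit 70660) (nat_lit 432) (.n (nat_lit 177) (nat_lit 1) (.p (nat_lit 178) (nat_lit 3) (.n (nat_lit 179) (nat_lit 1) (.n (nat_lit 180) (nat_lit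 3) (.p (nat_lit 181) (nat_lit 3) (.n (nat_lit 183) (nat_lit 1) (.p (nat_lit 184) (nat_lit 3) (.n (nat_lit 187) (nat_lit 3) (.n (nat_lit 189) (nat_lit 1) (.n (nat_lit 190) (nat_lit 2) (.p (nat_lit 191) (nat_lit 2) (.n (nat_lit 192) (nat_lit 3) (.p (nat_lit 193) (nat_lit 1) (.n (nat_lit 194) (nat_lit 1) (.p (nat_lit 195) (nat_lit 1) (.n (nat_lit 196) (nat_lit 2) (.n (nat_lit 197) (nat_lit 2) (.p (nat_lit 201) (nat_lit 1) (.n (nat_lit 202) (nat_lit 1) (.n (nat_lit 203) (nat_lit 2) (.n (nat_lit 204) (nat_lit 2) (.p (nat_lit 205) (nat_lit 3) .z)))))))))))))))))))))) (.ct dR2_c292 (nat_lit 1) (nat_lit 8) (.s false (nat_lit 1) (nat_lit 11) (nat_lit 2) (nat_lit 4) (nat_lit 2) true (nat_lit 6) true (nat_lit 10) true (nat_lit 3) true (nat_lit 10) true (nat_lit 8) (.e true (nat_lit 1) (nat_lit 49) (nat_lit 6) (nat_lit 6) (.e false (nat_lit 1) (nat_lit 50) (nat_lit 6) (nat_lit 6) (.e true (nat_lit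 1) (nat_lit 54) (nat_lit 6) (nat_lit 6) (.e true (nat_lit 1) (nat_lit 97) (nat_lit 2) (nat_lit 10) (.e true (nat_lit 1) (nat_lit 98) (nat_lit 2) (nat_lit 10) (.e true (nat_lit 1) (nat_lit 101) (nat_lit 2) (nat_lit 10) (.e true (nat_lit 2) (nat_lit 102) (nat_lit 2) (nat_lit 10) (.e false (nat_lit 3) (nat_lit 103) (nat_lit 2) (nat_lit 10) (.e false (nat_lit 3) (nat_lit 104) (nat_lit 2) (nat_lit 10) (.e false (nat_lit 3) (nat_lit 105) (nat_lit 2) (nat_lit 10) (.e false (nat_lit 3) (nat_lit 107) (nat_lit 2) (nat_lit 10) (.e false (nat_lit 3) (nat_lit 108) (nat_lit 2) (nat_lit 10) (.e true (nat_lit 2) (nat_lit 109) (nat_lit 2) (nat_lit 10) (.e false (nat_lit 1) (nat_lit 112) (nat_lit 2) (nat_lit 10) (.e false (nat_lit 3) (nat_lit 115) (nat_lit 2) (nat_lit 10) (.e false (nat_lit 2) (nat_lit 116) (nat_lit 2) (nat_lit 10) (.e false (nat_lit 3) (nat_lit 117) (nat_lit 2) (nat_lit 10) (.e true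 (nat_lit 1) (nat_lit 32) (nat_lit 11) (nat_lit 3) (.e true (nat_lit 1) (nat_lit 99) (nat_lit 2) (nat_lit 10) (.e true (nat_lit 1) (nat_lit 111) (nat_lit 2) (nat_lit 10) (.u (nat_lit 2) (.n (nat_lit 1) (nat_lit 1) (.n (nat_lit 2) (nat_lit 1) (.p (nat_lit 3) (nat_lit 1) (.n (nat_lit 4) (nat_lit 1) (.n (nat_lit 5) (nat_lit 1) (.p (nat_lit 6) (nat_lit 1) (.p (nat_lit 8) (nat_lit 1) (.n (nat_lit 9) (nat_lit 1) (.p (nat_lit 11) (nat_lit 2) (.p (nat_lit 15) (nat_lit 1) (.p (nat_lit 18) (nat_lit 1) (.p (nat_lit 19) (nat_lit 1) (.p (nat_lit 20) (nat_lit 1) (.p (nat_lit 26) (nat_lit 1) (.p (nat_lit 27) (nat_lit 1) (.n (nat_lit 28) (nat_lit 1) (.n (nat_lit 103) (nat_lit 1) (.n (nat_lit 106) (nat_lit 1) (.n (nat_lit 114) (nat_lit 1) .z))))))))))))))))))) .nil))))))))))))))))))))))) (.nd .leaf (nat_lit 70661) (nat_lit 459) (.n (nat_lit 207) (nat_lit 1) (.p (nat_lit 208) (nat_lit 2) (.n (nat_lit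 210) (nat_lit 3) (.n (nat_lit 211) (nat_lit 2) (.p (nat_lit 212) (nat_lit 2) (.p (nat_lit 213) (nat_lit 1) (.n (nat_lit 215) (nat_lit 1) .z))))))) (.ct dR2_c52 (nat_lit 1) (nat_lit 4) (.s false (nat_lit 1) (nat_lit 11) (nat_lit 2) (nat_lit 5) (nat_lit 2) true (nat_lit 3) true (nat_lit 5) true (nat_lit 2) true (nat_lit 5) true (nat_lit 4) (.e false (nat_lit 3) (nat_lit 56) (nat_lit 6) (nat_lit 3) (.e true (nat_lit 3) (nat_lit 57) (nat_lit 6) (nat_lit 3) (.e false (nat_lit 1) (nat_lit 123) (nat_lit 2) (nat_lit 5) (.e true (nat_lit 1) (nat_lit 35) (nat_lit 11) (nat_lit 2) (.e false (nat_lit 2) (nat_lit 119) (nat_lit 2) (nat_lit 5) (.e true (nat_lit 3) (nat_lit 120) (nat_lit 2) (nat_lit 5) (.e true (nat_lit 1) (nat_lit 121) (nat_lit 2) (nat_lit 5) (.e false (nat_lit 1) (nat_lit 122) (nat_lit 2) (nat_lit 5) (.u (nat_lit 2) (.p (nat_lit 8) (nat_lit 1) .z) .nil))))))))))) .leaf)) (nat_lit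 71680) (nat_lit 196) (.p (nat_lit 97) (nat_lit 1) (.p (nat_lit 98) (nat_lit 1) (.n (nat_lit 99) (nat_lit 3) (.n (nat_lit 100) (nat_lit 3) (.p (nat_lit 101) (nat_lit 2) (.p (nat_lit 102) (nat_lit 3) (.n (nat_lit 103) (nat_lit 2) (.n (nat_lit 104) (nat_lit 3) (.n (nat_lit 105) (nat_lit 2) (.n (nat_lit 107) (nat_lit 2) (.p (nat_lit 108) (nat_lit 3) (.p (nat_lit 109) (nat_lit 3) (.n (nat_lit 110) (nat_lit 2) (.p (nat_lit 112) (nat_lit 3) (.p (nat_lit 113) (nat_lit 1) (.p (nat_lit 114) (nat_lit 1) (.n (nat_lit 115) (nat_lit 2) (.n (nat_lit 116) (nat_lit 3) (.p (nat_lit 117) (nat_lit 2) .z))))))))))))))))))) (.ct dR2_c291 (nat_lit 1) (nat_lit 9) (.s false (nat_lit 1) (nat_lit 14) (nat_lit 2) (nat_lit 0) (nat_lit 1) true (nat_lit 4) true (nat_lit 8) false (nat_lit 1) true (nat_lit 7) true (nat_lit 9) (.e true (nat_lit 1) (nat_lit 28) (nat_lit 5) (nat_lit 4) (.e false (nat_lit 1) (nat_lit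 65) (nat_lit 1) (nat_lit 8) (.e true (nat_lit 1) (nat_lit 14) (nat_lit 9) (nat_lit 1) (.e true (nat_lit 1) (nat_lit 44) (nat_lit 2) (nat_lit 7) (.e true (nat_lit 1) (nat_lit 45) (nat_lit 2) (nat_lit 7) (.e false (nat_lit 1) (nat_lit 46) (nat_lit 2) (nat_lit 7) (.e true (nat_lit 1) (nat_lit 47) (nat_lit 2) (nat_lit 7) (.e true (nat_lit 1) (nat_lit 48) (nat_lit 2) (nat_lit 7) (.e false (nat_lit 1) (nat_lit 52) (nat_lit 2) (nat_lit 7) (.u (nat_lit 2) (.p (nat_lit 2) (nat_lit 1) (.p (nat_lit 7) (nat_lit 1) (.p (nat_lit 18) (nat_lit 1) .z))) .nil)))))))))))) (.nd (.nd .leaf (nat_lit 71681) (nat_lit 214) (.n (nat_lit 118) (nat_lit 1) (.n (nat_lit 119) (nat_lit 3) (.p (nat_lit 120) (nat_lit 2) (.n (nat_lit 122) (nat_lit 2) (.p (nat_lit 123) (nat_lit 1) .z))))) (.ct dR2_c51 (nat_lit 1) (nat_lit 4) (.s false (nat_lit 3) (nat_lit 5) (nat_lit 2) (nat_lit 1) (nat_lit 5) false (nat_lit 0) true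 (nat_lit 2) true (nat_lit 2) true (nat_lit 3) true (nat_lit 4) (.s false (nat_lit 3) (nat_lit 6) (nat_lit 1) (nat_lit 5) (nat_lit 1) false (nat_lit 5) true (nat_lit 4) true (nat_lit 1) true (nat_lit 4) true (nat_lit 2) (.e false (nat_lit 3) (nat_lit 14) (nat_lit 11) (nat_lit 0) (.e true (nat_lit 3) (nat_lit 29) (nat_lit 5) (nat_lit 2) (.e true (nat_lit 2) (nat_lit 56) (nat_lit 2) (nat_lit 3) (.e false (nat_lit 2) (nat_lit 57) (nat_lit 2) (nat_lit 3) (.e true (nat_lit 1) (nat_lit 69) (nat_lit 1) (nat_lit 4) (.e true (nat_lit 3) (nat_lit 71) (nat_lit 1) (nat_lit 4) (.e true (nat_lit 3) (nat_lit 22) (nat_lit 6) (nat_lit 1) (.u (nat_lit 2) (.p (nat_lit 0) (nat_lit 1) (.p (nat_lit 1) (nat_lit 1) (.n (nat_lit 3) (nat_lit 1) (.n (nat_lit 4) (nat_lit 1) (.n (nat_lit 5) (nat_lit 1) (.n (nat_lit 13) (nat_lit 1) (.p (nat_lit 14) (nat_lit 1) (.p (nat_lit 15) (nat_lit 1) (.p (nat_lit 16) (nat_lit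 1) .z))))))))) .nil))))))))))) .leaf) (nat_lit 71682) (nat_lit 259) (.p (nat_lit 141) (nat_lit 1) .z) .df .leaf)) (nat_lit 71683) (nat_lit 335) (.p (nat_lit 146) (nat_lit 2) (.n (nat_lit 147) (nat_lit 1) (.p (nat_lit 148) (nat_lit 1) (.p (nat_lit 150) (nat_lit 3) (.p (nat_lit 151) (nat_lit 3) (.n (nat_lit 152) (nat_lit 3) (.p (nat_lit 154) (nat_lit 2) (.p (nat_lit 157) (nat_lit 3) (.n (nat_lit 158) (nat_lit 3) (.n (nat_lit 160) (nat_lit 3) (.n (nat_lit 162) (nat_lit 2) (.p (nat_lit 167) (nat_lit 1) (.p (nat_lit 173) (nat_lit 3) (.n (nat_lit 174) (nat_lit 1) .z)))))))))))))) (.ct dR2_c307 (nat_lit 1) (nat_lit 9) (.s false (nat_lit 1) (nat_lit 16) (nat_lit 1) (nat_lit 3) (nat_lit 1) false (nat_lit 13) true (nat_lit 11) true (nat_lit 0) true (nat_lit 11) true (nat_lit 9) (.e true (nat_lit 2) (nat_lit 98) (nat_lit 1) (nat_lit 11) (.e true (nat_lit 2) (nat_lit 101) (nat_lit 1) (nat_lit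 11) (.e false (nat_lit 1) (nat_lit 111) (nat_lit 1) (nat_lit 11) (.e true (nat_lit 1) (nat_lit 117) (nat_lit 1) (nat_lit 11) (.e true (nat_lit 1) (nat_lit 17) (nat_lit 16) (nat_lit 0) (.e false (nat_lit 1) (nat_lit 114) (nat_lit 1) (nat_lit 11) (.e true (nat_lit 1) (nat_lit 69) (nat_lit 3) (nat_lit 9) (.e false (nat_lit 1) (nat_lit 73) (nat_lit 3) (nat_lit 9) (.u (nat_lit 2) (.n (nat_lit 4) (nat_lit 1) (.n (nat_lit 11) (nat_lit 1) (.p (nat_lit 12) (nat_lit 1) (.p (nat_lit 14) (nat_lit 1) (.n (nat_lit 25) (nat_lit 1) (.n (nat_lit 27) (nat_lit 1) (.p (nat_lit 28) (nat_lit 1) .z))))))) .nil))))))))))) (.nd (.nd (.nd .leaf (nat_lit 71684) (nat_lit 420) (.p (nat_lit 177) (nat_lit 3) (.p (nat_lit 178) (nat_lit 3) (.p (nat_lit 179) (nat_lit 2) (.p (nat_lit 180) (nat_lit 3) (.p (nat_lit 182) (nat_lit 2) (.p (nat_lit 183) (nat_lit 2) (.p (nat_lit 184) (nat_lit 3) (.n (nat_lit 185) (nat_lit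 2) (.n (nat_lit 186) (nat_lit 2) (.n (nat_lit 187) (nat_lit 3) (.n (nat_lit 188) (nat_lit 1) (.p (nat_lit 189) (nat_lit 1) (.p (nat_lit 190) (nat_lit 2) (.p (nat_lit 191) (nat_lit 2) (.p (nat_lit 192) (nat_lit 2) (.n (nat_lit 193) (nat_lit 1) (.p (nat_lit 194) (nat_lit 1) (.p (nat_lit 195) (nat_lit 3) (.p (nat_lit 196) (nat_lit 3) (.n (nat_lit 197) (nat_lit 1) (.n (nat_lit 198) (nat_lit 1) (.p (nat_lit 200) (nat_lit 2) (.n (nat_lit 201) (nat_lit 1) (.n (nat_lit 202) (nat_lit 1) (.p (nat_lit 203) (nat_lit 3) (.n (nat_lit 204) (nat_lit 3) (.n (nat_lit 205) (nat_lit 2) (.p (nat_lit 206) (nat_lit 1) .z)))))))))))))))))))))))))))) (.ct dR2_c292 (nat_lit 1) (nat_lit 8) (.s false (nat_lit 1) (nat_lit 10) (nat_lit 5) (nat_lit 2) (nat_lit 2) true (nat_lit 1) true (nat_lit 10) true (nat_lit 4) true (nat_lit 7) true (nat_lit 10) (.s false (nat_lit 1) (nat_lit 14) (nat_lit 0) (nat_lit 5) (nat_lit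 2) true (nat_lit 8) true (nat_lit 10) true (nat_lit 1) true (nat_lit 12) true (nat_lit 7) (.s true (nat_lit 1) (nat_lit 15) (nat_lit 1) (nat_lit 4) (nat_lit 2) true (nat_lit 7) true (nat_lit 10) true (nat_lit 1) true (nat_lit 11) true (nat_lit 8) (.e false (nat_lit 3) (nat_lit 97) (nat_lit 2) (nat_lit 10) (.e false (nat_lit 2) (nat_lit 103) (nat_lit 2) (nat_lit 10) (.e false (nat_lit 2) (nat_lit 104) (nat_lit 2) (nat_lit 10) (.e true (nat_lit 1) (nat_lit 105) (nat_lit 2) (nat_lit 10) (.e true (nat_lit 2) (nat_lit 107) (nat_lit 2) (nat_lit 10) (.e true (nat_lit 1) (nat_lit 35) (nat_lit 10) (nat_lit 4) (.e true (nat_lit 1) (nat_lit 99) (nat_lit 2) (nat_lit 10) (.e false (nat_lit 3) (nat_lit 100) (nat_lit 2) (nat_lit 10) (.e false (nat_lit 1) (nat_lit 102) (nat_lit 2) (nat_lit 10) (.e false (nat_lit 2) (nat_lit 106) (nat_lit 2) (nat_lit 10) (.e false (nat_lit 3) (nat_lit 108) (nat_lit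 2) (nat_lit 10) (.e true (nat_lit 1) (nat_lit 109) (nat_lit 2) (nat_lit 10) dR2_i14)))))))))))))))) .leaf) (nat_lit 71685) (nat_lit 461) (.n (nat_lit 207) (nat_lit 2) (.p (nat_lit 208) (nat_lit 2) (.n (nat_lit 209) (nat_lit 3) (.n (nat_lit 210) (nat_lit 3) (.n (nat_lit 211) (nat_lit 1) (.p (nat_lit 212) (nat_lit 2) (.p (nat_lit 214) (nat_lit 1) .z))))))) (.ct dR2_c52 (nat_lit 1) (nat_lit 4) (.s false (nat_lit 3) (nat_lit 5) (nat_lit 2) (nat_lit 5) (nat_lit 5) true (nat_lit 1) true (nat_lit 4) true (nat_lit 4) true (nat_lit 5) true (nat_lit 4) (.s false (nat_lit 3) (nat_lit 14) (nat_lit 1) (nat_lit 2) (nat_lit 5) true (nat_lit 2) true (nat_lit 4) true (nat_lit 1) true (nat_lit 6) true (nat_lit 5) (.e false (nat_lit 2) (nat_lit 123) (nat_lit 2) (nat_lit 5) (.e true (nat_lit 2) (nat_lit 118) (nat_lit 2) (nat_lit 5) (.e true (nat_lit 2) (nat_lit 120) (nat_lit 2) (nat_lit 5) (.e true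 (nat_lit 2) (nat_lit 121) (nat_lit 2) (nat_lit 5) (.e true (nat_lit 2) (nat_lit 119) (nat_lit 2) (nat_lit 5) (.e false (nat_lit 3) (nat_lit 69) (nat_lit 5) (nat_lit 4) (.e true (nat_lit 3) (nat_lit 71) (nat_lit 5) (nat_lit 4) (.e false (nat_lit 3) (nat_lit 35) (nat_lit 11) (nat_lit 2) (.e true (nat_lit 3) (nat_lit 122) (nat_lit 2) (nat_lit 5) (.u (nat_lit 2) (.n (nat_lit 1) (nat_lit 1) (.p (nat_lit 2) (nat_lit 1) (.p (nat_lit 3) (nat_lit 1) (.n (nat_lit 4) (nat_lit 2) (.n (nat_lit 7) (nat_lit 1) (.n (nat_lit 8) (nat_lit 3) (.p (nat_lit 23) (nat_lit 1) (.n (nat_lit 27) (nat_lit 1) (.p (nat_lit 28) (nat_lit 2) (.n (nat_lit 29) (nat_lit 1) (.n (nat_lit 30) (nat_lit 1) (.p (nat_lit 32) (nat_lit 1) .z)))))))))))) .nil))))))))))))) (.nd .leaf (nat_lit 72704) (nat_lit 200) (.p (nat_lit 97) (nat_lit 2) (.n (nat_lit 98) (nat_lit 1) (.n (nat_lit 99) (nat_lit 2) (.n (nat_lit 100) (nat_lit 2)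 (.p (nat_lit 101) (nat_lit 1) (.n (nat_lit 103) (nat_lit 1) (.n (nat_lit 104) (nat_lit 2) (.p (nat_lit 105) (nat_lit 2) (.n (nat_lit 106) (nat_lit 2) (.p (nat_lit 107) (nat_lit 3) (.p (nat_lit 108) (nat_lit 3) (.p (nat_lit 109) (nat_lit 1) (.p (nat_lit 110) (nat_lit 3) (.n (nat_lit 111) (nat_lit 3) (.n (nat_lit 112) (nat_lit 2) (.p (nat_lit 113) (nat_lit 2) (.n (nat_lit 117) (nat_lit 2) .z))))))))))))))))) (.ct dR2_c291 (nat_lit 1) (nat_lit 9) (.s true (nat_lit 1) (nat_lit 5) (nat_lit 2) (nat_lit 0) (nat_lit 5) false (nat_lit 1) true (nat_lit 4) true (nat_lit 4) true (nat_lit 7) true (nat_lit 9) (.e true (nat_lit 1) (nat_lit 14) (nat_lit 10) (nat_lit 1) (.e false (nat_lit 1) (nat_lit 23) (nat_lit 5) (nat_lit 4) (.e false (nat_lit 1) (nat_lit 24) (nat_lit 5) (nat_lit 4) (.e true (nat_lit 1) (nat_lit 27) (nat_lit 5) (nat_lit 4) (.e true (nat_lit 1) (nat_lit 44) (nat_lit 2) (nat_lit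 7) (.e true (nat_lit 1) (nat_lit 45) (nat_lit 2) (nat_lit 7) (.e true (nat_lit 1) (nat_lit 48) (nat_lit 2) (nat_lit 7) (.e false (nat_lit 1) (nat_lit 50) (nat_lit 2) (nat_lit 7) (.e true (nat_lit 1) (nat_lit 51) (nat_lit 2) (nat_lit 7) (.e false (nat_lit 1) (nat_lit 52) (nat_lit 2) (nat_lit 7) (.e true (nat_lit 1) (nat_lit 54) (nat_lit 2) (nat_lit 7) (.e false (nat_lit 1) (nat_lit 69) (nat_lit 0) (nat_lit 9) (.e false (nat_lit 1) (nat_lit 70) (nat_lit 0) (nat_lit 9) (.u (nat_lit 2) (.n (nat_lit 4) (nat_lit 1) (.n (nat_lit 7) (nat_lit 1) (.p (nat_lit 9) (nat_lit 1) (.n (nat_lit 10) (nat_lit 1) (.n (nat_lit 13) (nat_lit 1) (.p (nat_lit 15) (nat_lit 1) (.p (nat_lit 17) (nat_lit 1) (.p (nat_lit 20) (nat_lit 1) .z)))))))) .nil)))))))))))))))) .leaf)) (nat_lit 72705) (nat_lit 213) (.n (nat_lit 118) (nat_lit 2) (.n (nat_lit 120) (nat_lit 3) (.p (nat_lit 121) (nat_lit 1) (.p (nat_lit 122)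 (nat_lit 3) (.p (nat_lit 123) (nat_lit 1) .z))))) (.ct dR2_c51 (nat_lit 1) (nat_lit 4) (.s true (nat_lit 3) (nat_lit 6) (nat_lit 5) (nat_lit 1) (nat_lit 1) true (nat_lit 0) true (nat_lit 4) true (nat_lit 1) true (nat_lit 2) true (nat_lit 4) (.s false (nat_lit 1) (nat_lit 11) (nat_lit 1) (nat_lit 2) (nat_lit 2) true (nat_lit 2) true (nat_lit 3) true (nat_lit 0) true (nat_lit 4) true (nat_lit 3) (.s true (nat_lit 3) (nat_lit 15) (nat_lit 1) (nat_lit 2) (nat_lit 1) false (nat_lit 5) true (nat_lit 4) false (nat_lit 0) true (nat_lit 4) true (nat_lit 3) (.e true (nat_lit 3) (nat_lit 22) (nat_lit 6) (nat_lit 1) (.e false (nat_lit 1) (nat_lit 29) (nat_lit 5) (nat_lit 2) (.e true (nat_lit 2) (nat_lit 55) (nat_lit 2) (nat_lit 3) (.e true (nat_lit 1) (nat_lit 14) (nat_lit 11) (nat_lit 0) (.e false (nat_lit 2) (nat_lit 56) (nat_lit 2) (nat_lit 3) (.e false (nat_lit 1) (nat_lit 57) (nat_lit 2)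 (nat_lit 3) (.u (nat_lit 2) (.p (nat_lit 2) (nat_lit 1) (.n (nat_lit 4) (nat_lit 1) (.n (nat_lit 13) (nat_lit 1) (.n (nat_lit 14) (nat_lit 1) (.p (nat_lit 15) (nat_lit 2) (.p (nat_lit 16) (nat_lit 2) (.n (nat_lit 17) (nat_lit 1) (.n (nat_lit 19) (nat_lit 1) .z)))))))) .nil))))))))))) (.nd (.nd .leaf (nat_lit 72706) (nat_lit 260) (.p (nat_lit 142) (nat_lit 1) .z) .df .leaf) (nat_lit 72707) (nat_lit 337) (.p (nat_lit 147) (nat_lit 3) (.p (nat_lit 148) (nat_lit 2) (.n (nat_lit 150) (nat_lit 2) (.p (nat_lit 152) (nat_lit 1) (.n (nat_lit 154) (nat_lit 2) (.p (nat_lit 157) (nat_lit 2) (.n (nat_lit 160) (nat_lit 2) (.p (nat_lit 162) (nat_lit 2) (.p (nat_lit 167) (nat_lit 2) (.p (nat_lit 174) (nat_lit 3) (.p (nat_lit 176) (nat_lit 1) .z))))))))))) (.ct dR2_c307 (nat_lit 1) (nat_lit 9) (.s true (nat_lit 1) (nat_lit 15) (nat_lit 1) (nat_lit 2) (nat_lit 3) true (nat_lit 5) true (nat_lit 9)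 true (nat_lit 1) true (nat_lit 11) true (nat_lit 10) (.e true (nat_lit 1) (nat_lit 36) (nat_lit 7) (nat_lit 5) (.e false (nat_lit 1) (nat_lit 18) (nat_lit 15) (nat_lit 1) (.e true (nat_lit 1) (nat_lit 20) (nat_lit 15) (nat_lit 1) (.e false (nat_lit 1) (nat_lit 21) (nat_lit 15) (nat_lit 1) (.e true (nat_lit 2) (nat_lit 98) (nat_lit 1) (nat_lit 11) (.e true (nat_lit 2) (nat_lit 101) (nat_lit 1) (nat_lit 11) (.e false (nat_lit 2) (nat_lit 106) (nat_lit 1) (nat_lit 11) (.e false (nat_lit 1) (nat_lit 111) (nat_lit 1) (nat_lit 11) (.e false (nat_lit 1) (nat_lit 115) (nat_lit 1) (nat_lit 11) (.e true (nat_lit 1) (nat_lit 82) (nat_lit 2) (nat_lit 10) (.e true (nat_lit 1) (nat_lit 83) (nat_lit 2) (nat_lit 10) (.e false (nat_lit 1) (nat_lit 86) (nat_lit 2) (nat_lit 10) (.e true (nat_lit 1) (nat_lit 88) (nat_lit 2) (nat_lit 10) (.e false (nat_lit 1) (nat_lit 93) (nat_lit 2) (nat_lit 10) (.e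 false (nat_lit 1) (nat_lit 96) (nat_lit 2) (nat_lit 10) (.e true (nat_lit 1) (nat_lit 90) (nat_lit 2) (nat_lit 10) (.e true (nat_lit 1) (nat_lit 94) (nat_lit 2) (nat_lit 10) (.u (nat_lit 2) (.n (nat_lit 0) (nat_lit 1) (.p (nat_lit 14) (nat_lit 1) (.n (nat_lit 16) (nat_lit 1) (.n (nat_lit 25) (nat_lit 1) (.p (nat_lit 28) (nat_lit 1) .z))))) .nil)))))))))))))))))))) .leaf))))))

noncomputable def dR2_t4 : Tr := (.nd (.nd (.nd (.nd (.nd (.nd (.nd .leaf (nat_lit 72709) (nat_lit 460) (.n (nat_lit 207) (nat_lit 3) (.p (nat_lit 208) (nat_lit 3) (.n (nat_lit 209) (nat_lit 2) (.n (nat_lit 210) (nat_lit 3) (.p (nat_lit 211) (nat_lit 2) (.p (nat_lit 212) (nat_lit 1) (.p (nat_lit 214) (nat_lit 2) (.p (nat_lit 215) (nat_lit 3) .z)))))))) (.ct dR2_c52 (nat_lit 1) (nat_lit 4) (.s true (nat_lit 1) (nat_lit 15) (nat_lit 1) (nat_lit 1) (nat_lit 6) true (nat_lit 1) true (nat_lit 3) true (nat_lit 1) true (nat_lit 6) true (nat_lit 6) (.s true (nat_lit 1) (nat_lit 31) (nat_lit 2) (nat_lit 2) (nat_lit 1) true (nat_lit 4) true (nat_lit 6) false (nat_lit 1) true (nat_lit 5) true (nat_lit 5) (.e false (nat_lit 1) (nat_lit 55) (nat_lit 6) (nat_lit 3) (.e false (nat_lit 2) (nat_lit 56) (nat_lit 6) (nat_lit 3) (.e false (nat_lit 2) (nat_lit 57) (nat_lit 6) (nat_lit 3) (.e false (nat_lit 3) (nat_lit 140) (nat_lit 1) (nat_lit 6) (.e false (nat_lit 1) (nat_lit 143) (nat_lit 1) (nat_lit 6) (.e true (nat_lit 3) (nat_lit 145) (nat_lit 1) (nat_lit 6) (.e true (nat_lit 3) (nat_lit 141) (nat_lit 1) (nat_lit 6) (.e true (nat_lit 2) (nat_lit 118) (nat_lit 2) (nat_lit 5) (.e true (nat_lit 1) (nat_lit 121) (nat_lit 2) (nat_lit 5) (.e true (nat_lit 1) (nat_lit 122) (nat_lit 2) (nat_lit 5) (.e true (nat_lit 1) (nat_lit 123) (nat_lit 2) (nat_lit 5) (.u (nat_lit 2) (.n (nat_lit 0) (nat_lit 1) (.p (nat_lit 3) (nat_lit 1) (.n (nat_lit 5) (nat_lit 1) (.n (nat_lit 7) (nat_lit 2) (.p (nat_lit 8) (nat_lit 1) (.n (nat_lit 33) (nat_lit 1) (.p (nat_lit 34) (nat_lit 1) (.n (nat_lit 35) (nat_lit 1) (.n (nat_lit 36) (nat_lit 1) (.n (nat_lit 38) (nat_lit 1) .z)))))))))) .nil))))))))))))))) .leaf) (nat_lit 73728) (nat_lit 203) (.n (nat_lit 97) (nat_lit 1) (.n (nat_lit 99) (nat_lit 2) (.p (nat_lit 100) (nat_lit 3) (.n (nat_lit 101) (nat_lit 3) (.p (nat_lit 102) (nat_lit 2) (.p (nat_lit 103) (nat_lit 3) (.n (nat_lit 104) (nat_lit 2) (.n (nat_lit 106) (nat_lit 1) (.p (nat_lit 107) (nat_lit 1) (.p (nat_lit 108) (nat_lit 2) (.p (nat_lit 109) (nat_lit 1) (.n (nat_lit 110) (nat_lit 1) (.n (nat_lit 111) (nat_lit 3) (.p (nat_lit 113) (nat_lit 1) (.p (nat_lit 114) (nat_lit 3) (.n (nat_lit 115) (nat_lit 2) (.n (nat_lit 116) (nat_lit 2) (.p (nat_lit 117) (nat_lit 2) .z)))))))))))))))))) (.ct dR2_c291 (nat_lit 1) (nat_lit 9) (.s true (nat_lit 1) (nat_lit 14) (nat_lit 0) (nat_lit 2) (nat_lit 1) true (nat_lit 6) true (nat_lit 8) false (nat_lit 1) true (nat_lit 9) true (nat_lit 7) (.e true (nat_lit 1) (nat_lit 35) (nat_lit 3) (nat_lit 6) (.e true (nat_lit 1) (nat_lit 63) (nat_lit 1) (nat_lit 8) (.e true (nat_lit 1) (nat_lit 14) (nat_lit 9) (nat_lit 1) (.e true (nat_lit 1) (nat_lit 70) (nat_lit 0) (nat_lit 9) (.e false (nat_lit 1) (nat_lit 73) (nat_lit 0) (nat_lit 9) (.e true (nat_lit 2) (nat_lit 45) (nat_lit 2) (nat_lit 7) (.e true (nat_lit 1) (nat_lit 46) (nat_lit 2) (nat_lit 7) (.e false (nat_lit 1) (nat_lit 47) (nat_lit 2) (nat_lit 7) (.e true (nat_lit 1) (nat_lit 48) (nat_lit 2) (nat_lit 7) (.e false (nat_lit 2) (nat_lit 50) (nat_lit 2) (nat_lit 7) (.e true (nat_lit 1) (nat_lit 51) (nat_lit 2) (nat_lit 7) (.e false (nat_lit 1) (nat_lit 52) (nat_lit 2) (nat_lit 7) (.e true (nat_lit 1) (nat_lit 53) (nat_lit 2) (nat_lit 7) (.e true (nat_lit 2) (nat_lit 54) (nat_lit 2) (nat_lit 7) (.u (nat_lit 2) (.n (nat_lit 0) (nat_lit 1) (.n (nat_lit 1) (nat_lit 1) (.p (nat_lit 2) (nat_lit 1) (.n (nat_lit 5) (nat_lit 1) (.p (nat_lit 7) (nat_lit 1) (.p (nat_lit 8) (nat_lit 1) (.p (nat_lit 19) (nat_lit 1) (.n (nat_lit 20) (nat_lit 1) .z)))))))) .nil))))))))))))))))) (.nd .leaf (nat_lit 73729) (nat_lit 217) (.p (nat_lit 118) (nat_lit 2) (.n (nat_lit 119) (nat_lit 1) (.n (nat_lit 120) (nat_lit 2) (.p (nat_lit 121) (nat_lit 2) (.n (nat_lit 123) (nat_lit 1) .z))))) (.ct dR2_c51 (nat_lit 1) (nat_lit 4) (.s true (nat_lit 1) (nat_lit 14) (nat_lit 1) (nat_lit 2) (nat_lit 1) false (nat_lit 5) true (nat_lit 4) false (nat_lit 0) true (nat_lit 4) true (nat_lit 3) (.e true (nat_lit 2) (nat_lit 70) (nat_lit 1) (nat_lit 4) (.e true (nat_lit 1) (nat_lit 14) (nat_lit 11) (nat_lit 0) (.e false (nat_lit 1) (nat_lit 73) (nat_lit 1) (nat_lit 4) (.e false (nat_lit 1) (nat_lit 57) (nat_lit 2) (nat_lit 3) (.u (nat_lit 2) (.p (nat_lit 1) (nat_lit 1) .z) .nil))))))) .leaf)) (nat_lit 73730) (nat_lit 261) (.p (nat_lit 143) (nat_lit 1) .z) .df (.nd (.nd .leaf (nat_lit 73732) (nat_lit 418) (.p (nat_lit 177) (nat_lit 2) (.p (nat_lit 178) (nat_lit 1) (.n (nat_lit 179) (nat_lit 2) (.p (nat_lit 180) (nat_lit 1) (.p (nat_lit 181) (nat_lit 3) (.p (nat_lit 182) (nat_lit 1) (.p (nat_lit 185) (nat_lit 3) (.n (nat_lit 186) (nat_lit 3) (.n (nat_lit 187) (nat_lit 2) (.p (nat_lit 188) (nat_lit 2) (.n (nat_lit 189) (nat_lit 2) (.p (nat_lit 191) (nat_lit 3) (.n (nat_lit 192) (nat_lit 3) (.n (nat_lit 194) (nat_lit 3) (.p (nat_lit 195) (nat_lit 2) (.p (nat_lit 196) (nat_lit 1) (.n (nat_lit 198) (nat_lit 1) (.p (nat_lit 200) (nat_lit 1) (.n (nat_lit 202) (nat_lit 1) (.n (nat_lit 203) (nat_lit 1) (.n (nat_lit 205) (nat_lit 1) (.p (nat_lit 206) (nat_lit 1) .z)))))))))))))))))))))) (.ct dR2_c292 (nat_lit 1) (nat_lit 8) (.s false (nat_lit 1) (nat_lit 35) (nat_lit 2) (nat_lit 1) (nat_lit 0) true (nat_lit 8) true (nat_lit 12) false (nat_lit 4) true (nat_lit 10) true (nat_lit 11) (.e false (nat_lit 1) (nat_lit 144) (nat_lit 0) (nat_lit 12) (.e true (nat_lit 1) (nat_lit 35) (nat_lit 10) (nat_lit 4) (.e true (nat_lit 3) (nat_lit 97) (nat_lit 2) (nat_lit 10) (.e true (nat_lit 2) (nat_lit 98) (nat_lit 2) (nat_lit 10) (.e false (nat_lit 2) (nat_lit 99) (nat_lit 2) (nat_lit 10) (.e true (nat_lit 2) (nat_lit 100) (nat_lit 2) (nat_lit 10) (.e false (nat_lit 1) (nat_lit 105) (nat_lit 2) (nat_lit 10) (.e true (nat_lit 1) (nat_lit 106) (nat_lit 2) (nat_lit 10) (.e false (nat_lit 1) (nat_lit 108) (nat_lit 2) (nat_lit 10) (.e false (nat_lit 1) (nat_lit 114) (nat_lit 2) (nat_lit 10) (.e true (nat_lit 1) (nat_lit 115) (nat_lit 2) (nat_lit 10) (.e true (nat_lit 1) (nat_lit 117) (nat_lit 2) (nat_lit 10) (.e true (nat_lit 1) (nat_lit 131) (nat_lit 1) (nat_lit 11) (.u (nat_lit 2) (.n (nat_lit 0) (nat_lit 1) (.n (nat_lit 5) (nat_lit 1) (.n (nat_lit 8) (nat_lit 1) (.p (nat_lit 10) (nat_lit 1) (.n (nat_lit 12) (nat_lit 1) (.p (nat_lit 17) (nat_lit 1) (.n (nat_lit 18) (nat_lit 1) .z))))))) .nil)))))))))))))))) .leaf) (nat_lit 74752) (nat_lit 197) (.n (nat_lit 97) (nat_lit 3) (.n (nat_lit 98) (nat_lit 1) (.p (nat_lit 99) (nat_lit 2) (.p (nat_lit 101) (nat_lit 3) (.n (nat_lit 102) (nat_lit 3) (.p (nat_lit 103) (nat_lit 2) (.p (nat_lit 106) (nat_lit 3) (.p (nat_lit 107) (nat_lit 3) (.p (nat_lit 108) (nat_lit 3) (.p (nat_lit 109) (nat_lit 3) (.n (nat_lit 110) (nat_lit 2) (.n (nat_lit 111) (nat_lit 2) (.p (nat_lit 112) (nat_lit 3) (.p (nat_lit 113) (nat_lit 2) (.p (nat_lit 114) (nat_lit 1) (.p (nat_lit 116) (nat_lit 3) (.n (nat_lit 117) (nat_lit 3) .z))))))))))))))))) (.ct dR2_c291 (nat_lit 1) (nat_lit 9) (.s false (nat_lit 1) (nat_lit 16) (nat_lit 1) (nat_lit 1) (nat_lit 0) true (nat_lit 6) true (nat_lit 9) false (nat_lit 2) true (nat_lit 8) true (nat_lit 8) (.e true (nat_lit 1) (nat_lit 37) (nat_lit 3) (nat_lit 6) (.e false (nat_lit 1) (nat_lit 69) (nat_lit 0) (nat_lit 9) (.e false (nat_lit 1) (nat_lit 70) (nat_lit 0) (nat_lit 9) (.e false (nat_lit 3) (nat_lit 59) (nat_lit 1) (nat_lit 8) (.e false (nat_lit 2) (nat_lit 60) (nat_lit 1) (nat_lit 8) (.e true (nat_lit 2) (nat_lit 61) (nat_lit 1) (nat_lit 8) (.e false (nat_lit 2) (nat_lit 66) (nat_lit 1) (nat_lit 8) (.e true (nat_lit 2) (nat_lit 58) (nat_lit 1) (nat_lit 8) (.e false (nat_lit 1) (nat_lit 62) (nat_lit 1) (nat_lit 8) (.e false (nat_lit 1) (nat_lit 67) (nat_lit 1) (nat_lit 8) (.u (nat_lit 2) (.p (nat_lit 0) (nat_lit 1) (.p (nat_lit 1) (nat_lit 1) (.n (nat_lit 2) (nat_lit 1) (.p (nat_lit 5) (nat_lit 1) (.n (nat_lit 6) (nat_lit 1) (.n (nat_lit 9) (nat_lit 1) (.n (nat_lit 10) (nat_lit 1) (.p (nat_lit 12) (nat_lit 1) (.p (nat_lit 18) (nat_lit 1) (.n (nat_lit 19) (nat_lit 1) (.p (nat_lit 20) (nat_lit 1) (.n (nat_lit 58) (nat_lit 1) .z)))))))))))) .nil))))))))))))) (.nd .leaf (nat_lit 74753) (nat_lit 216) (.p (nat_lit 119) (nat_lit 2) (.n (nat_lit 120) (nat_lit 2) (.p (nat_lit 121) (nat_lit 1) (.n (nat_lit 122) (nat_lit 3) (.p (nat_lit 123) (nat_lit 1) .z))))) (.ct dR2_c51 (nat_lit 1) (nat_lit 4) (.s false (nat_lit 1) (nat_lit 6) (nat_lit 1) (nat_lit 1) (nat_lit 5) true (nat_lit 0) true (nat_lit 2) true (nat_lit 1) true (nat_lit 4) true (nat_lit 4) (.e false (nat_lit 1) (nat_lit 15) (nat_lit 11) (nat_lit 0) (.e false (nat_lit 1) (nat_lit 31) (nat_lit 5) (nat_lit 2) (.e false (nat_lit 1) (nat_lit 71) (nat_lit 1) (nat_lit 4) (.u (nat_lit 2) (.n (nat_lit 1) (nat_lit 1) (.p (nat_lit 4) (nat_lit 1) .z)) .nil)))))) .leaf))) (nat_lit 74754) (nat_lit 266) (.n (nat_lit 140) (nat_lit 1) (.p (nat_lit 141) (nat_lit 3) (.p (nat_lit 142) (nat_lit 3) (.n (nat_lit 143) (nat_lit 3) (.p (nat_lit 145) (nat_lit 2) .z))))) (.ct dR2_c36 (nat_lit 1) (nat_lit 4) (.s true (nat_lit 2) (nat_lit 6) (nat_lit 2) (nat_lit 5) (nat_lit 1) true (nat_lit 3) true (nat_lit 5) true (nat_lit 2) true (nat_lit 4) true (nat_lit 3) (.s false (nat_lit 3) (nat_lit 15) (nat_lit 1) (nat_lit 2) (nat_lit 2) true (nat_lit 3) true (nat_lit 4) true (nat_lit 0) true (nat_lit 5) true (nat_lit 4) (.s true (nat_lit 2) (nat_lit 14) (nat_lit 2) (nat_lit 1) (nat_lit 2) true (nat_lit 2) true (nat_lit 4) true (nat_lit 0) true (nat_lit 4) true (nat_lit 5) (.s true (nat_lit 3) (nat_lit 14) (nat_lit 2) (nat_lit 2) (nat_lit 1) true (nat_lit 3) true (nat_lit 5) true (nat_lit 0) true (nat_lit 4) true (nat_lit 4) (.s true (nat_lit 2) (nat_lit 16) (nat_lit 1) (nat_lit 1) (nat_lit 2) true (nat_lit 3) true (nat_lit 4) false (nat_lit 1) true (nat_lit 5) true (nat_lit 5) (.a true (nat_lit 3) (nat_lit 14) (nat_lit 15) (nat_lit 0) (nat_lit 0) (.a true (nat_lit 1) (nat_lit 14) (nat_lit 14) (nat_lit 0) (nat_lit 0) (.e true (nat_lit 2) (nat_lit 80) (nat_lit 1) (nat_lit 5) (.e false (nat_lit 1) (nat_lit 81) (nat_lit 1) (nat_lit 5) (.e true (nat_lit 3) (nat_lit 70) (nat_lit 2) (nat_lit 4) (.e false (nat_lit 1) (nat_lit 71) (nat_lit 2) (nat_lit 4) (.e true (nat_lit 1) (nat_lit 72) (nat_lit 2) (nat_lit 4) (.e false (nat_lit 2) (nat_lit 78) (nat_lit 1) (nat_lit 5) (.e true (nat_lit 3) (nat_lit 35) (nat_lit 5) (nat_lit 3) (.u (nat_lit 2) (.p (nat_lit 0) (nat_lit 1) (.n (nat_lit 1) (nat_lit 1) (.p (nat_lit 3) (nat_lit 1) (.p (nat_lit 15) (nat_lit 1) (.p (nat_lit 18) (nat_lit 1) (.p (nat_lit 21) (nat_lit 1) (.n (nat_lit 22) (nat_lit 1) (.n (nat_lit 25) (nat_lit 1) .z)))))))) .nil)))))))))))))))) (.nd (.nd (.nd .leaf (nat_lit 74755) (nat_lit 320) (.p (nat_lit 146) (nat_lit 2) (.p (nat_lit 147) (nat_lit 3) (.p (nat_lit 150) (nat_lit 2) (.n (nat_lit 151) (nat_lit 1) (.n (nat_lit 152) (nat_lit 3) (.n (nat_lit 154) (nat_lit 1) (.n (nat_lit 157) (nat_lit 2) (.p (nat_lit 158) (nat_lit 1) (.n (nat_lit 161) (nat_lit 1) (.p (nat_lit 162) (nat_lit 2) (.n (nat_lit 164) (nat_lit 2) (.p (nat_lit 167) (nat_lit 2) (.n (nat_lit 171) (nat_lit 3) (.n (nat_lit 173) (nat_lit 1) (.p (nat_lit 174) (nat_lit 2) (.p (nat_lit 176) (nat_lit 3) .z)))))))))))))))) (.ct dR2_c307 (nat_lit 1) (nat_lit 9) (.s true (nat_lit 3) (nat_lit 6) (nat_lit 3) (nat_lit 1) (nat_lit 5) false (nat_lit 1) true (nat_lit 7) true (nat_lit 6) true (nat_lit 9) true (nat_lit 11) (.s false (nat_lit 3) (nat_lit 7) (nat_lit 2) (nat_lit 5) (nat_lit 2) true (nat_lit 6) true (nat_lit 10) true (nat_lit 5) true (nat_lit 10) true (nat_lit 7) (.s true (nat_lit 3) (nat_lit 7) (nat_lit 5) (nat_lit 2) (nat_lit 2) true (nat_lit 1) true (nat_lit 10) true (nat_lit 5) true (nat_lit 7) true (nat_lit 10) (.s true (nat_lit 3) (nat_lit 15) (nat_lit 2) (nat_lit 3) (nat_lit 1) true (nat_lit 7) true (nat_lit 11) true (nat_lit 1) true (nat_lit 10) true (nat_lit 9) (.s false (nat_lit 3) (nat_lit 16) (nat_lit 1) (nat_lit 3) (nat_lit 1) false (nat_lit 13) true (nat_lit 11) true (nat_lit 0) true (nat_lit 11) true (nat_lit 9) (.e false (nat_lit 3) (nat_lit 18) (nat_lit 15) (nat_lit 1) (.e true (nat_lit 3) (nat_lit 20) (nat_lit 15) (nat_lit 1) (.e false (nat_lit 3) (nat_lit 21) (nat_lit 15) (nat_lit 1) (.e true (nat_lit 1) (nat_lit 45) (nat_lit 5) (nat_lit 7) (.e false (nat_lit 2) (nat_lit 44) (nat_lit 5) (nat_lit 7) (.e false (nat_lit 1) (nat_lit 46) (nat_lit 5) (nat_lit 7) (.e true (nat_lit 1) (nat_lit 47) (nat_lit 5) (nat_lit 7) (.e true (nat_lit 3) (nat_lit 105) (nat_lit 1) (nat_lit 11) (.e true (nat_lit 2) (nat_lit 83) (nat_lit 2) (nat_lit 10) (.e true (nat_lit 2) (nat_lit 87) (nat_lit 2) (nat_lit 10) (.e false (nat_lit 3) (nat_lit 93) (nat_lit 2) (nat_lit 10) (.e true (nat_lit 1) (nat_lit 96) (nat_lit 2) (nat_lit 10) (.e true (nat_lit 3) (nat_lit 18) (nat_lit 14) (nat_lit 1) (.e false (nat_lit 1) (nat_lit 117) (nat_lit 1) (nat_lit 11) (.e false (nat_lit 3) (nat_lit 19) (nat_lit 15) (nat_lit 1) (.e true (nat_lit 3) (nat_lit 17) (nat_lit 16) (nat_lit 0) (.e false (nat_lit 3) (nat_lit 114) (nat_lit 1) (nat_lit 11) (.u (nat_lit 2) (.n (nat_lit 0) (nat_lit 1) (.n (nat_lit 1) (nat_lit 2) (.p (nat_lit 4) (nat_lit 1) (.n (nat_lit 5) (nat_lit 1) (.p (nat_lit 8) (nat_lit 1) (.p (nat_lit 11) (nat_lit 1) (.n (nat_lit 12) (nat_lit 1) (.p (nat_lit 25) (nat_lit 1) (.p (nat_lit 27) (nat_lit 1) (.p (nat_lit 28) (nat_lit 1) (.p (nat_lit 65) (nat_lit 1) (.p (nat_lit 66) (nat_lit 1) (.n (nat_lit 67) (nat_lit 1) (.p (nat_lit 68) (nat_lit 1) (.p (nat_lit 83) (nat_lit 1) (.n (nat_lit 85) (nat_lit 1) (.n (nat_lit 89) (nat_lit 1) (.p (nat_lit 98) (nat_lit 1) (.n (nat_lit 119) (nat_lit 1) .z))))))))))))))))))) .nil)))))))))))))))))))))))) .leaf) (nat_lit 74756) (nat_lit 434) (.n (nat_lit 177) (nat_lit 2) (.p (nat_lit 178) (nat_lit 3) (.p (nat_lit 179) (nat_lit 1) (.p (nat_lit 180) (nat_lit 2) (.p (nat_lit 181) (nat_lit 3) (.p (nat_lit 183) (nat_lit 1) (.n (nat_lit 184) (nat_lit 1) (.n (nat_lit 185) (nat_lit 1) (.p (nat_lit 187) (nat_lit 3) (.p (nat_lit 188) (nat_lit 3) (.p (nat_lit 189) (nat_lit 2) (.p (nat_lit 191) (nat_lit 1) (.n (nat_lit 192) (nat_lit 2) (.n (nat_lit 194) (nat_lit 2) (.p (nat_lit 195) (nat_lit 3) (.p (nat_lit 196) (nat_lit 2) (.n (nat_lit 197) (nat_lit 2) (.n (nat_lit 198) (nat_lit 1) (.p (nat_lit 200) (nat_lit 2) (.n (nat_lit 202) (nat_lit 2) (.p (nat_lit 203) (nat_lit 3) (.n (nat_lit 204) (nat_lit 3) (.p (nat_lit 206) (nat_lit 1) .z))))))))))))))))))))))) (.ct dR2_c292 (nat_lit 1) (nat_lit 8) (.s true (nat_lit 1) (nat_lit 14) (nat_lit 0) (nat_lit 5) (nat_lit 2) true (nat_lit 8) true (nat_lit 10) true (nat_lit 1) true (nat_lit 12) true (nat_lit 7) (.e false (nat_lit 1) (nat_lit 70) (nat_lit 4) (nat_lit 8) (.e false (nat_lit 1) (nat_lit 72) (nat_lit 4) (nat_lit 8) (.e false (nat_lit 1) (nat_lit 97) (nat_lit 2) (nat_lit 10) (.e true (nat_lit 1) (nat_lit 98) (nat_lit 2) (nat_lit 10) (.e false (nat_lit 1) (nat_lit 101) (nat_lit 2) (nat_lit 10) (.e false (nat_lit 1) (nat_lit 104) (nat_lit 2) (nat_lit 10) (.e true (nat_lit 3) (nat_lit 105) (nat_lit 2) (nat_lit 10) (.e false (nat_lit 3) (nat_lit 106) (nat_lit 2) (nat_lit 10) (.e false (nat_lit 2) (nat_lit 107) (nat_lit 2) (nat_lit 10) (.e false (nat_lit 2) (nat_lit 108) (nat_lit 2) (nat_lit 10) (.e false (nat_lit 1) (nat_lit 109) (nat_lit 2) (nat_lit 10) (.e true (nat_lit 1) (nat_lit 110) (nat_lit 2) (nat_lit 10) (.e true (nat_lit 3) (nat_lit 111) (nat_lit 2) (nat_lit 10) (.e false (nat_lit 3) (nat_lit 112) (nat_lit 2) (nat_lit 10) (.e false (nat_lit 3) (nat_lit 114) (nat_lit 2) (nat_lit 10) (.e false (nat_lit 2) (nat_lit 115) (nat_lit 2) (nat_lit 10) (.e true (nat_lit 1) (nat_lit 117) (nat_lit 2) (nat_lit 10) (.e false (nat_lit 1) (nat_lit 25) (nat_lit 14) (nat_lit 1) (.e true (nat_lit 1) (nat_lit 65) (nat_lit 5) (nat_lit 7) (.u (nat_lit 2) (.p (nat_lit 0) (nat_lit 1) (.p (nat_lit 4) (nat_lit 1) (.p (nat_lit 7) (nat_lit 1) (.n (nat_lit 8) (nat_lit 1) (.n (nat_lit 9) (nat_lit 1) (.n (nat_lit 10) (nat_lit 1) (.p (nat_lit 17) (nat_lit 1) (.n (nat_lit 28) (nat_lit 1) .z)))))))) .nil)))))))))))))))))))))) (.nd .leaf (nat_lit 74757) (nat_lit 463) (.n (nat_lit 207) (nat_lit 2) (.p (nat_lit 208) (nat_lit 2) (.p (nat_lit 209) (nat_lit 2) (.p (nat_lit 210) (nat_lit 2) (.n (nat_lit 211) (nat_lit 1) (.p (nat_lit 212) (nat_lit 3) (.p (nat_lit 213) (nat_lit 1) (.p (nat_lit 214) (nat_lit 1) (.n (nat_lit 215) (nat_lit 2) .z))))))))) (.ct dR2_c52 (nat_lit 1) (nat_lit 4) (.s true (nat_lit 1) (nat_lit 14) (nat_lit 1) (nat_lit 5) (nat_lit 2) true (nat_lit 4) true (nat_lit 5) true (nat_lit 1) true (nat_lit 6) true (nat_lit 4) (.e false (nat_lit 1) (nat_lit 70) (nat_lit 5) (nat_lit 4) (.e true (nat_lit 3) (nat_lit 118) (nat_lit 2) (nat_lit 5) (.e false (nat_lit 1) (nat_lit 120) (nat_lit 2) (nat_lit 5) (.e true (nat_lit 3) (nat_lit 121) (nat_lit 2) (nat_lit 5) (.e true (nat_lit 1) (nat_lit 122) (nat_lit 2) (nat_lit 5) (.e false (nat_lit 2) (nat_lit 123) (nat_lit 2) (nat_lit 5) (.e false (nat_lit 1) (nat_lit 29) (nat_lit 14) (nat_lit 1) (.u (nat_lit 2) (.n (nat_lit 2) (nat_lit 1) (.n (nat_lit 3) (nat_lit 1) .z)) .nil)))))))))) .leaf)) (nat_lit 75777) (nat_lit 230) (.p (nat_lit 135) (nat_lit 1) .z) .df (.nd (.nd .leaf (nat_lit 76801) (nat_lit 241) (.p (nat_lit 124) (nat_lit 3) (.p (nat_lit 125) (nat_lit 2) (.n (nat_lit 126) (nat_lit 1) (.n (nat_lit 128) (nat_lit 2) (.p (nat_lit 129) (nat_lit 3) (.p (nat_lit 130) (nat_lit 2) (.p (nat_lit 131) (nat_lit 1) (.n (nat_lit 132) (nat_lit 2) (.n (nat_lit 133) (nat_lit 2) (.n (nat_lit 134) (nat_lit 1) (.p (nat_lit 135) (nat_lit 1) (.p (nat_lit 136) (nat_lit 1) (.p (nat_lit 137) (nat_lit 2) (.p (nat_lit 139) (nat_lit 1) .z)))))))))))))) (.ct dR2_c276 (nat_lit 1) (nat_lit 7) (.s false (nat_lit 1) (nat_lit 5) (nat_lit 4) (nat_lit 2) (nat_lit 2) true (nat_lit 0) true (nat_lit 6) true (nat_lit 3) true (nat_lit 4) true (nat_lit 6) (.s false (nat_lit 1) (nat_lit 6) (nat_lit 4) (nat_lit 1) (nat_lit 2) true (nat_lit 0) true (nat_lit 6) true (nat_lit 2) true (nat_lit 4) true (nat_lit 7) (.s false (nat_lit 1) (nat_lit 12) (nat_lit 1) (nat_lit 2) (nat_lit 2) true (nat_lit 3) true (nat_lit 6) true (nat_lit 0) true (nat_lit 7) true (nat_lit 6) (.e true (nat_lit 1) (nat_lit 59) (nat_lit 2) (nat_lit 6) (.e false (nat_lit 1) (nat_lit 63) (nat_lit 2) (nat_lit 6) (.e false (nat_lit 1) (nat_lit 64) (nat_lit 2) (nat_lit 6) (.e true (nat_lit 1) (nat_lit 15) (nat_lit 12) (nat_lit 0) (.e false (nat_lit 1) (nat_lit 65) (nat_lit 2) (nat_lit 6) (.e true (nat_lit 1) (nat_lit 68) (nat_lit 2) (nat_lit 6) (.e false (nat_lit 1) (nat_lit 24) (nat_lit 6) (nat_lit 2) (.e true (nat_lit 1) (nat_lit 76) (nat_lit 1) (nat_lit 7) (.u (nat_lit 2) (.n (nat_lit 0) (nat_lit 1) (.n (nat_lit 1) (nat_lit 1) (.n (nat_lit 5) (nat_lit 1) .z))) .nil))))))))))))) .leaf) (nat_lit 77825) (nat_lit 239) (.p (nat_lit 124) (nat_lit 3) (.p (nat_lit 125) (nat_lit 3) (.p (nat_lit 126) (nat_lit 1) (.n (nat_lit 127) (nat_lit 1) (.p (nat_lit 128) (nat_lit 3) (.p (nat_lit 129) (nat_lit 3) (.n (nat_lit 130) (nat_lit 1) (.n (nat_lit 131) (nat_lit 1) (.p (nat_lit 132) (nat_lit 2) (.p (nat_lit 133) (nat_lit 2) (.p (nat_lit 134) (nat_lit 1) (.n (nat_lit 136) (nat_lit 1) (.n (nat_lit 137) (nat_lit 1) .z))))))))))))) (.ct dR2_c276 (nat_lit 1) (nat_lit 7) dR2_i16) .leaf))) (nat_lit 78849) (nat_lit 243) (.p (nat_lit 124) (nat_lit 2) (.p (nat_lit 125) (nat_lit 1) (.n (nat_lit 126) (nat_lit 1) (.n (nat_lit 127) (nat_lit 2) (.n (nat_lit 128) (nat_lit 2) (.n (nat_lit 131) (nat_lit 1) (.n (nat_lit 132) (nat_lit 1) (.p (nat_lit 133) (nat_lit 2) (.p (nat_lit 134) (nat_lit 1) (.p (nat_lit 135) (nat_lit 1) (.p (nat_lit 137) (nat_lit 1) (.p (nat_lit 139) (nat_lit 1) .z)))))))))))) (.ct dR2_c276 (nat_lit 1) (nat_lit 7) (.s true (nat_lit 1) (nat_lit 16) (nat_lit 0) (nat_lit 1) (nat_lit 2) true (nat_lit 4) true (nat_lit 6) false (nat_lit 1) true (nat_lit 8) true (nat_lit 7) (.s true (nat_lit 1) (nat_lit 16) (nat_lit 2) (nat_lit 1) (nat_lit 0) true (nat_lit 4) true (nat_lit 8) false (nat_lit 1) true (nat_lit 6) true (nat_lit 7) (.e true (nat_lit 2) (nat_lit 58) (nat_lit 2) (nat_lit 6) (.e true (nat_lit 2) (nat_lit 59) (nat_lit 2) (nat_lit 6) (.e false (nat_lit 1) (nat_lit 62) (nat_lit 2) (nat_lit 6) (.e true (nat_lit 2) (nat_lit 63) (nat_lit 2) (nat_lit 6) (.e false (nat_lit 1) (nat_lit 67) (nat_lit 2) (nat_lit 6) (.e true (nat_lit 1) (nat_lit 16) (nat_lit 8) (nat_lit 1) (.e false (nat_lit 1) (nat_lit 80) (nat_lit 0) (nat_lit 8) (.e false (nat_lit 1) (nat_lit 75) (nat_lit 1) (nat_lit 7) (.e false (nat_lit 1) (nat_lit 16) (nat_lit 10) (nat_lit 1) (.e false (nat_lit 1) (nat_lit 76) (nat_lit 1) (nat_lit 7) (.u (nat_lit 2) (.p (nat_lit 4) (nat_lit 1) (.p (nat_lit 5) (nat_lit 1) .z)) .nil)))))))))))))) (.nd (.nd (.nd (.nd .leaf (nat_lit 79872) (nat_lit 255) (.p (nat_lit 124) (nat_lit 3) (.n (nat_lit 125) (nat_lit 2) (.p (nat_lit 126) (nat_lit 2) (.n (nat_lit 127) (nat_lit 2) (.n (nat_lit 128) (nat_lit 3) (.p (nat_lit 129) (nat_lit 1) (.p (nat_lit 130) (nat_lit 2) (.p (nat_lit 131) (nat_lit 2) (.n (nat_lit 133) (nat_lit 3) (.n (nat_lit 134) (nat_lit 3) (.n (nat_lit 135) (nat_lit 1) (.n (nat_lit 137) (nat_lit 1) (.n (nat_lit 138) (nat_lit 1) .z))))))))))))) (.ct dR2_c276 (nat_lit 1) (nat_lit 8) (.s true (nat_lit 1) (nat_lit 14) (nat_lit 2) (nat_lit 0) (nat_lit 2) true (nat_lit 2) true (nat_lit 6) false (nat_lit 0) true (nat_lit 6) true (nat_lit 8) (.e false (nat_lit 1) (nat_lit 28) (nat_lit 6) (nat_lit 2) (.e true (nat_lit 1) (nat_lit 65) (nat_lit 2) (nat_lit 6) (.e false (nat_lit 1) (nat_lit 14) (nat_lit 12) (nat_lit 0) (.e true (nat_lit 1) (nat_lit 58) (nat_lit 2) (nat_lit 6) (.e true (nat_lit 1) (nat_lit 59) (nat_lit 2) (nat_lit 6) (.e true (nat_lit 1) (nat_lit 61) (nat_lit 2) (nat_lit 6) (.e false (nat_lit 1) (nat_lit 62) (nat_lit 2) (nat_lit 6) (.e true (nat_lit 1) (nat_lit 63) (nat_lit 2) (nat_lit 6) (.e true (nat_lit 1) (nat_lit 64) (nat_lit 2) (nat_lit 6) (.e false (nat_lit 1) (nat_lit 67) (nat_lit 2) (nat_lit 6) (.u (nat_lit 2) (.n (nat_lit 0) (nat_lit 1) (.p (nat_lit 3) (nat_lit 1) (.p (nat_lit 4) (nat_lit 1) .z))) .nil))))))))))))) .leaf) (nat_lit 79873) (nat_lit 262) (.p (nat_lit 144) (nat_lit 1) .z) .df (.nd .leaf (nat_lit 79875) (nat_lit 396) (.p (nat_lit 177) (nat_lit 1) (.p (nat_lit 178) (nat_lit 2) (.p (nat_lit 179) (nat_lit 1) (.n (nat_lit 180) (nat_lit 1) (.p (nat_lit 181) (nat_lit 3) (.p (nat_lit 185) (nat_lit 2) (.n (nat_lit 188) (nat_lit 3) (.n (nat_lit 191) (nat_lit 1) (.p (nat_lit 194) (nat_lit 3) (.n (nat_lit 195) (nat_lit 3) (.n (nat_lit 197) (nat_lit 1) (.p (nat_lit 198) (nat_lit 1) (.p (nat_lit 203) (nat_lit 3) (.n (nat_lit 204) (nat_lit 3) .z)))))))))))))) (.ct dR2_c292 (nat_lit 1) (nat_lit 9) (.s true (nat_lit 1) (nat_lit 14) (nat_lit 2) (nat_lit 3) (nat_lit 2) true (nat_lit 6) true (nat_lit 10) true (nat_lit 1) true (nat_lit 10) true (nat_lit 9) (.e true (nat_lit 1) (nat_lit 44) (nat_lit 6) (nat_lit 6) (.e true (nat_lit 1) (nat_lit 45) (nat_lit 6) (nat_lit 6) (.e false (nat_lit 1) (nat_lit 46) (nat_lit 6) (nat_lit 6) (.e true (nat_lit 1) (nat_lit 47) (nat_lit 6) (nat_lit 6) (.e true (nat_lit 1) (nat_lit 48) (nat_lit 6) (nat_lit 6) (.e false (nat_lit 1) (nat_lit 52) (nat_lit 6) (nat_lit 6) (.e true (nat_lit 3) (nat_lit 97) (nat_lit 2) (nat_lit 10) (.e true (nat_lit 2) (nat_lit 98) (nat_lit 2) (nat_lit 10) (.e false (nat_lit 2) (nat_lit 99) (nat_lit 2) (nat_lit 10) (.e true (nat_lit 2) (nat_lit 100) (nat_lit 2) (nat_lit 10) (.e false (nat_lit 1) (nat_lit 105) (nat_lit 2) (nat_lit 10) (.e true (nat_lit 2) (nat_lit 106) (nat_lit 2) (nat_lit 10) (.e false (nat_lit 2) (nat_lit 108) (nat_lit 2) (nat_lit 10) (.e false (nat_lit 1) (nat_lit 114) (nat_lit 2) (nat_lit 10) (.e true (nat_lit 2) (nat_lit 115) (nat_lit 2) (nat_lit 10) (.e true (nat_lit 1) (nat_lit 117) (nat_lit 2) (nat_lit 10) (.e false (nat_lit 1) (nat_lit 23) (nat_lit 14) (nat_lit 1) (.e false (nat_lit 1) (nat_lit 101) (nat_lit 2) (nat_lit 10) (.u (nat_lit 2) (.n (nat_lit 0) (nat_lit 1) (.n (nat_lit 1) (nat_lit 1) (.n (nat_lit 9) (nat_lit 1) (.p (nat_lit 11) (nat_lit 1) (.p (nat_lit 14) (nat_lit 1) (.n (nat_lit 26) (nat_lit 1) (.p (nat_lit 27) (nat_lit 1) .z))))))) .nil))))))))))))))))))))) .leaf)) (nat_lit 80896) (nat_lit 251) (.n (nat_lit 124) (nat_lit 1) (.p (nat_lit 126) (nat_lit 1) (.p (nat_lit 127) (nat_lit 2) (.p (nat_lit 129) (nat_lit 1) (.p (nat_lit 131) (nat_lit 1) (.p (nat_lit 132) (nat_lit 2) (.n (nat_lit 134) (nat_lit 1) (.n (nat_lit 135) (nat_lit 1) (.n (nat_lit 136) (nat_lit 1) (.n (nat_lit 137) (nat_lit 1) (.p (nat_lit 138) (nat_lit 1) (.n (nat_lit 139) (nat_lit 1) .z)))))))))))) (.ct dR2_c276 (nat_lit 1) (nat_lit 8) (.s true (nat_lit 1) (nat_lit 16) (nat_lit 2) (nat_lit 1) (nat_lit 0) true (nat_lit 4) true (nat_lit 8) false (nat_lit 1) true (nat_lit 6) true (nat_lit 7) (.e false (nat_lit 1) (nat_lit 37) (nat_lit 4) (nat_lit 4) (.e false (nat_lit 1) (nat_lit 81) (nat_lit 0) (nat_lit 8) (.e false (nat_lit 1) (nat_lit 16) (nat_lit 10) (nat_lit 1) (.e false (nat_lit 1) (nat_lit 59) (nat_lit 2) (nat_lit 6) (.e true (nat_lit 1) (nat_lit 60) (nat_lit 2) (nat_lit 6) (.e false (nat_lit 1) (nat_lit 61) (nat_lit 2) (nat_lit 6) (.e true (nat_lit 1) (nat_lit 63) (nat_lit 2) (nat_lit 6) (.e true (nat_lit 1) (nat_lit 66) (nat_lit 2) (nat_lit 6) (.e false (nat_lit 1) (nat_lit 76) (nat_lit 1) (nat_lit 7) (.u (nat_lit 2) (.p (nat_lit 0) (nat_lit 1) (.p (nat_lit 1) (nat_lit 1) (.p (nat_lit 9) (nat_lit 1) (.p (nat_lit 10) (nat_lit 1) .z)))) .nil)))))))))))) (.nd (.nd .leaf (nat_lit 80897) (nat_lit 269) (.p (nat_lit 140) (nat_lit 1) (.n (nat_lit 142) (nat_lit 2) (.n (nat_lit 143) (nat_lit 2) (.n (nat_lit 144) (nat_lit 1) (.n (nat_lit 145) (nat_lit 3) .z))))) (.ct dR2_c36 (nat_lit 1) (nat_lit 5) (.s true (nat_lit 3) (nat_lit 5) (nat_lit 2) (nat_lit 2) (nat_lit 5) true (nat_lit 0) true (nat_lit 3) true (nat_lit 3) true (nat_lit 4) true (nat_lit 4) (.s true (nat_lit 3) (nat_lit 6) (nat_lit 5) (nat_lit 2) (nat_lit 1) true (nat_lit 1) true (nat_lit 5) true (nat_lit 2) true (nat_lit 3) true (nat_lit 4) (.s false (nat_lit 3) (nat_lit 16) (nat_lit 1) (nat_lit 2) (nat_lit 1) false (nat_lit 6) true (nat_lit 5) false (nat_lit 1) true (nat_lit 5) true (nat_lit 4) (.a false (nat_lit 2) (nat_lit 14) (nat_lit 14) (nat_lit 0) (nat_lit 0) (.e true (nat_lit 3) (nat_lit 35) (nat_lit 5) (nat_lit 3) (.e false (nat_lit 3) (nat_lit 70) (nat_lit 2) (nat_lit 4) (.e false (nat_lit 3) (nat_lit 72) (nat_lit 2) (nat_lit 4) (.e true (nat_lit 3) (nat_lit 73) (nat_lit 2) (nat_lit 4) (.e false (nat_lit 2) (nat_lit 80) (nat_lit 1) (nat_lit 5) (.e true (nat_lit 3) (nat_lit 30) (nat_lit 6) (nat_lit 2) (.e true (nat_lit 3) (nat_lit 81) (nat_lit 1) (nat_lit 5) (.u (nat_lit 2) (.n (nat_lit 0) (nat_lit 1) (.p (nat_lit 1) (nat_lit 1) (.p (nat_lit 3) (nat_lit 3) (.n (nat_lit 5) (nat_lit 1) (.n (nat_lit 6) (nat_lit 1) (.p (nat_lit 23) (nat_lit 1) (.p (nat_lit 24) (nat_lit 1) .z))))))) .nil))))))))))))) .leaf) (nat_lit 80899) (nat_lit 394) (.n (nat_lit 177) (nat_lit 2) (.p (nat_lit 178) (nat_lit 2) (.p (nat_lit 181) (nat_lit 1) (.p (nat_lit 185) (nat_lit 1) (.p (nat_lit 186) (nat_lit 2) (.n (nat_lit 188) (nat_lit 2) (.n (nat_lit 191) (nat_lit 2) (.p (nat_lit 194) (nat_lit 3) (.p (nat_lit 195) (nat_lit 2) (.p (nat_lit 198) (nat_lit 1) (.n (nat_lit 203) (nat_lit 2) (.n (nat_lit 204) (nat_lit 2) (.p (nat_lit 206) (nat_lit 1) .z))))))))))))) (.ct dR2_c292 (nat_lit 1) (nat_lit 9) (.s true (nat_lit 1) (nat_lit 15) (nat_lit 2) (nat_lit 3) (nat_lit 2) true (nat_lit 6) true (nat_lit 10) true (nat_lit 1) true (nat_lit 10) true (nat_lit 9) (.e false (nat_lit 2) (nat_lit 44) (nat_lit 6) (nat_lit 6) (.e true (nat_lit 1) (nat_lit 46) (nat_lit 6) (nat_lit 6) (.e false (nat_lit 1) (nat_lit 47) (nat_lit 6) (nat_lit 6) (.e true (nat_lit 1) (nat_lit 48) (nat_lit 6) (nat_lit 6) (.e true (nat_lit 1) (nat_lit 53) (nat_lit 6) (nat_lit 6) (.e true (nat_lit 1) (nat_lit 117) (nat_lit 2) (nat_lit 10) (.e false (nat_lit 1) (nat_lit 23) (nat_lit 15) (nat_lit 1) (.e true (nat_lit 2) (nat_lit 98) (nat_lit 2) (nat_lit 10) (.e true (nat_lit 2) (nat_lit 101) (nat_lit 2) (nat_lit 10) (.e false (nat_lit 2) (nat_lit 106) (nat_lit 2) (nat_lit 10) (.e false (nat_lit 1) (nat_lit 111) (nat_lit 2) (nat_lit 10) (.e false (nat_lit 1) (nat_lit 115) (nat_lit 2) (nat_lit 10) (.u (nat_lit 2) (.p (nat_lit 0) (nat_lit 1) (.n (nat_lit 4) (nat_lit 1) (.n (nat_lit 17) (nat_lit 1) (.p (nat_lit 26) (nat_lit 1) .z)))) .nil))))))))))))))) .leaf)) (nat_lit 81920) (nat_lit 242) (.n (nat_lit 124) (nat_lit 2) (.n (nat_lit 125) (nat_lit 2) (.n (nat_lit 126) (nat_lit 1) (.n (nat_lit 127) (nat_lit 1) (.p (nat_lit 128) (nat_lit 3) (.p (nat_lit 129) (nat_lit 3) (.n (nat_lit 130) (nat_lit 1) (.n (nat_lit 131) (nat_lit 1) (.n (nat_lit 132) (nat_lit 2) (.p (nat_lit 133) (nat_lit 1) (.p (nat_lit 134) (nat_lit 2) (.p (nat_lit 136) (nat_lit 1) (.n (nat_lit 138) (nat_lit 1) .z))))))))))))) (.ct dR2_c276 (nat_lit 1) (nat_lit 8) (.s false (nat_lit 1) (nat_lit 16) (nat_lit 1) (nat_lit 0) (nat_lit 2) true (nat_lit 3) true (nat_lit 6) false (nat_lit 1) true (nat_lit 7) true (nat_lit 8) (.s false (nat_lit 1) (nat_lit 16) (nat_lit 2) (nat_lit 0) (nat_lit 1) true (nat_lit 3) true (nat_lit 7) false (nat_lit 1) true (nat_lit 6) true (nat_lit 8) (.s false (nat_lit 1) (nat_lit 16) (nat_lit 2) (nat_lit 1) (nat_lit 0) true (nat_lit 4) true (nat_lit 8) false (nat_lit 1) true (nat_lit 6) true (nat_lit 7) (.e false (nat_lit 2) (nat_lit 60) (nat_lit 2) (nat_lit 6) (.e true (nat_lit 1) (nat_lit 62) (nat_lit 2) (nat_lit 6) (.e false (nat_lit 2) (nat_lit 63) (nat_lit 2) (nat_lit 6) (.e false (nat_lit 1) (nat_lit 66) (nat_lit 2) (nat_lit 6) (.e true (nat_lit 1) (nat_lit 68) (nat_lit 2) (nat_lit 6) (.e true (nat_lit 1) (nat_lit 16) (nat_lit 8) (nat_lit 1) (.e true (nat_lit 2) (nat_lit 76) (nat_lit 1) (nat_lit 7) (.e true (nat_lit 1) (nat_lit 16) (nat_lit 9) (nat_lit 1) (.e true (nat_lit 1) (nat_lit 37) (nat_lit 4) (nat_lit 4) (.e true (nat_lit 1) (nat_lit 16) (nat_lit 10) (nat_lit 1) (.u (nat_lit 2) (.n (nat_lit 0) (nat_lit 1) (.n (nat_lit 1) (nat_lit 1) (.n (nat_lit 4) (nat_lit 1) (.n (nat_lit 5) (nat_lit 1) (.n (nat_lit 9) (nat_lit 1) (.n (nat_lit 10) (nat_lit 1) .z)))))) .nil))))))))))))))) (.nd (.nd (.nd .leaf (nat_lit 81921) (nat_lit 265) (.n (nat_lit 140) (nat_lit 3) (.p (nat_lit 141) (nat_lit 2) (.n (nat_lit 142) (nat_lit 1) (.n (nat_lit 143) (nat_lit 1) (.p (nat_lit 144) (nat_lit 1) (.n (nat_lit 145) (nat_lit 2) .z)))))) (.ct dR2_c36 (nat_lit 1) (nat_lit 5) (.s false (nat_lit 3) (nat_lit 5) (nat_lit 2) (nat_lit 2) (nat_lit 5) true (nat_lit 0) true (nat_lit 3) true (nat_lit 3) true (nat_lit 4) true (nat_lit 4) (.s true (nat_lit 3) (nat_lit 6) (nat_lit 1) (nat_lit 5) (nat_lit 2) true (nat_lit 3) true (nat_lit 4) true (nat_lit 2) true (nat_lit 5) true (nat_lit 3) (.s true (nat_lit 3) (nat_lit 11) (nat_lit 2) (nat_lit 2) (nat_lit 2) true (nat_lit 2) true (nat_lit 4) true (nat_lit 1) true (nat_lit 4) true (nat_lit 4) (.s true (nat_lit 1) (nat_lit 15) (nat_lit 1) (nat_lit 2) (nat_lit 2) true (nat_lit 3) true (nat_lit 4) true (nat_lit 0) true (nat_lit 5) true (nat_lit 4) (.s false (nat_lit 1) (nat_lit 14) (nat_lit 2) (nat_lit 2) (nat_lit 1) true (nat_lit 3) true (nat_lit 5) true (nat_lit 0) true (nat_lit 4) true (nat_lit 4) (.s false (nat_lit 2) (nat_lit 15) (nat_lit 2) (nat_lit 2) (nat_lit 1) true (nat_lit 3) true (nat_lit 5) true (nat_lit 0) true (nat_lit 4) true (nat_lit 4) (.s false (nat_lit 3) (nat_lit 16) (nat_lit 2) (nat_lit 1) (nat_lit 1) true (nat_lit 3) true (nat_lit 5) false (nat_lit 1) true (nat_lit 4) true (nat_lit 5) (.a true (nat_lit 2) (nat_lit 14) (nat_lit 14) (nat_lit 0) (nat_lit 0) (.a false (nat_lit 1) (nat_lit 14) (nat_lit 15) (nat_lit 0) (nat_lit 0) (.a false (nat_lit 1) (nat_lit 15) (nat_lit 15) (nat_lit 0) (nat_lit 0) (.e true (nat_lit 3) (nat_lit 35) (nat_lit 5) (nat_lit 3) (.e true (nat_lit 1) (nat_lit 70) (nat_lit 2) (nat_lit 4) (.e false (nat_lit 3) (nat_lit 72) (nat_lit 2) (nat_lit 4) (.e true (nat_lit 3) (nat_lit 69) (nat_lit 2) (nat_lit 4) (.e true (nat_lit 1) (nat_lit 71) (nat_lit 2) (nat_lit 4) (.e false (nat_lit 1) (nat_lit 81) (nat_lit 1) (nat_lit 5) (.e false (nat_lit 1) (nat_lit 78) (nat_lit 1) (nat_lit 5) (.u (nat_lit 2) (.p (nat_lit 3) (nat_lit 1) (.p (nat_lit 6) (nat_lit 1) (.p (nat_lit 14) (nat_lit 1) (.p (nat_lit 15) (nat_lit 1) (.p (nat_lit 17) (nat_lit 1) (.n (nat_lit 19) (nat_lit 1) (.n (nat_lit 20) (nat_lit 1) (.p (nat_lit 21) (nat_lit 1) (.p (nat_lit 23) (nat_lit 1) (.n (nat_lit 25) (nat_lit 1) .z)))))))))) .nil))))))))))))))))))) .leaf) (nat_lit 81923) (nat_lit 395) (.n (nat_lit 177) (nat_lit 3) (.n (nat_lit 178) (nat_lit 1) (.n (nat_lit 179) (nat_lit 1) (.p (nat_lit 180) (nat_lit 1) (.n (nat_lit 181) (nat_lit 1) (.n (nat_lit 185) (nat_lit 1) (.p (nat_lit 186) (nat_lit 3) (.p (nat_lit 188) (nat_lit 3) (.p (nat_lit 191) (nat_lit 1) (.p (nat_lit 194) (nat_lit 3) (.n (nat_lit 195) (nat_lit 3) (.p (nat_lit 197) (nat_lit 1) (.p (nat_lit 203) (nat_lit 2) (.p (nat_lit 204) (nat_lit 3) .z)))))))))))))) (.ct dR2_c292 (nat_lit 1) (nat_lit 9) (.s true (nat_lit 3) (nat_lit 15) (nat_lit 3) (nat_lit 2) (nat_lit 2) true (nat_lit 4) true (nat_lit 10) true (nat_lit 1) true (nat_lit 9) true (nat_lit 10) (.e false (nat_lit 3) (nat_lit 36) (nat_lit 8) (nat_lit 4) (.e false (nat_lit 1) (nat_lit 97) (nat_lit 2) (nat_lit 10) (.e false (nat_lit 3) (nat_lit 99) (nat_lit 2) (nat_lit 10) (.e true (nat_lit 3) (nat_lit 100) (nat_lit 2) (nat_lit 10) (.e false (nat_lit 3) (nat_lit 101) (nat_lit 2) (nat_lit 10) (.e false (nat_lit 3) (nat_lit 106) (nat_lit 2) (nat_lit 10) (.e true (nat_lit 3) (nat_lit 23) (nat_lit 15) (nat_lit 1) (.e true (nat_lit 1) (nat_lit 79) (nat_lit 3) (nat_lit 9) (.e true (nat_lit 3) (nat_lit 117) (nat_lit 2) (nat_lit 10) (.u (nat_lit 2) (.n (nat_lit 1) (nat_lit 1) (.p (nat_lit 2) (nat_lit 1) (.n (nat_lit 3) (nat_lit 1) (.p (nat_lit 4) (nat_lit 3) (.n (nat_lit 9) (nat_lit 2) (.n (nat_lit 11) (nat_lit 1) (.p (nat_lit 14) (nat_lit 1) (.p (nat_lit 18) (nat_lit 1) (.n (nat_lit 20) (nat_lit 1) (.n (nat_lit 21) (nat_lit 1) (.n (nat_lit 27) (nat_lit 1) (.n (nat_lit 29) (nat_lit 1) (.p (nat_lit 93) (nat_lit 1) (.p (nat_lit 94) (nat_lit 1) (.n (nat_lit 96) (nat_lit 1) .z))))))))))))))) .nil)))))))))))) (.nd .leaf (nat_lit 82944) (nat_lit 250) (.n (nat_lit 127) (nat_lit 1) (.n (nat_lit 129) (nat_lit 1) (.n (nat_lit 130) (nat_lit 2) (.n (nat_lit 131) (nat_lit 1) (.p (nat_lit 132) (nat_lit 1) (.p (nat_lit 133) (nat_lit 2) (.p (nat_lit 134) (nat_lit 3) (.n (nat_lit 135) (nat_lit 1) (.n (nat_lit 137) (nat_lit 1) (.n (nat_lit 139) (nat_lit 1) .z)))))))))) (.ct dR2_c276 (nat_lit 1) (nat_lit 8) (.s false (nat_lit 1) (nat_lit 14) (nat_lit 0) (nat_lit 2) (nat_lit 2) true (nat_lit 4) true (nat_lit 6) false (nat_lit 0) true (nat_lit 8) true (nat_lit 6) (.e false (nat_lit 1) (nat_lit 35) (nat_lit 4) (nat_lit 4) (.e false (nat_lit 1) (nat_lit 63) (nat_lit 2) (nat_lit 6) (.e false (nat_lit 1) (nat_lit 14) (nat_lit 12) (nat_lit 0) (.e false (nat_lit 1) (nat_lit 65) (nat_lit 2) (nat_lit 6) (.u (nat_lit 2) (.p (nat_lit 3) (nat_lit 1) (.n (nat_lit 9) (nat_lit 1) (.n (nat_lit 10) (nat_lit 1) .z))) .nil))))))) .leaf)) (nat_lit 82945) (nat_lit 263) (.p (nat_lit 145) (nat_lit 1) .z) .df (.nd (.nd .leaf (nat_lit 82947) (nat_lit 387) (.n (nat_lit 177) (nat_lit 3) (.n (nat_lit 178) (nat_lit 2) (.n (nat_lit 179) (nat_lit 2) (.p (nat_lit 180) (nat_lit 2) (.n (nat_lit 181) (nat_lit 2) (.p (nat_lit 186) (nat_lit 2) (.p (nat_lit 188) (nat_lit 3) (.n (nat_lit 191) (nat_lit 3) (.n (nat_lit 194) (nat_lit 3) (.n (nat_lit 195) (nat_lit 3) (.p (nat_lit 197) (nat_lit 2) (.p (nat_lit 198) (nat_lit 1) (.p (nat_lit 204) (nat_lit 1) (.p (nat_lit 206) (nat_lit 1) .z)))))))))))))) (.ct dR2_c292 (nat_lit 1) (nat_lit 9) (.s false (nat_lit 1) (nat_lit 14) (nat_lit 3) (nat_lit 2) (nat_lit 2) true (nat_lit 4) true (nat_lit 10) true (nat_lit 1) true (nat_lit 9) true (nat_lit 10) (.e true (nat_lit 1) (nat_lit 35) (nat_lit 8) (nat_lit 4) (.e false (nat_lit 2) (nat_lit 97) (nat_lit 2) (nat_lit 10) (.e false (nat_lit 1) (nat_lit 98) (nat_lit 2) (nat_lit 10) (.e true (nat_lit 1) (nat_lit 99) (nat_lit 2) (nat_lit 10) (.e false (nat_lit 1) (nat_lit 100) (nat_lit 2) (nat_lit 10) (.e true (nat_lit 1) (nat_lit 101) (nat_lit 2) (nat_lit 10) (.e false (nat_lit 1) (nat_lit 23) (nat_lit 14) (nat_lit 1) (.e false (nat_lit 1) (nat_lit 106) (nat_lit 2) (nat_lit 10) (.e true (nat_lit 1) (nat_lit 108) (nat_lit 2) (nat_lit 10) (.e true (nat_lit 1) (nat_lit 114) (nat_lit 2) (nat_lit 10) (.e false (nat_lit 1) (nat_lit 115) (nat_lit 2) (nat_lit 10) (.e false (nat_lit 1) (nat_lit 117) (nat_lit 2) (nat_lit 10) (.u (nat_lit 2) (.p (nat_lit 0) (nat_lit 1) (.n (nat_lit 11) (nat_lit 1) (.p (nat_lit 14) (nat_lit 1) (.p (nat_lit 18) (nat_lit 1) .z)))) .nil))))))))))))))) .leaf) (nat_lit 83970) (nat_lit 275) (.p (nat_lit 146) (nat_lit 1) .z) .df .leaf)))) (nat_lit 84994) (nat_lit 276) (.p (nat_lit 147) (nat_lit 1) .z) .df (.nd (.nd (.nd (.nd (.nd .leaf (nat_lit 86018) (nat_lit 277) (.p (nat_lit 148) (nat_lit 1) .z) .df .leaf) (nat_lit 87042) (nat_lit 278) (.p (nat_lit 149) (nat_lit 1) .z) .df (.nd .leaf (nat_lit 88066) (nat_lit 279) (.p (nat_lit 150) (nat_lit 1) .z) .df .leaf)) (nat_lit 89090) (nat_lit 280) (.p (nat_lit 151) (nat_lit 1) .z) .df (.nd (.nd .leaf (nat_lit 90114) (nat_lit 281) (.p (nat_lit 152) (nat_lit 1) .z) .df .leaf) (nat_lit 91138) (nat_lit 282) (.p (nat_lit 153) (nat_lit 1) .z) .df (.nd .leaf (nat_lit 92162) (nat_lit 283) (.p (nat_lit 154) (nat_lit 1) .z) .df .leaf))) (nat_lit 93186) (nat_lit 284) (.p (nat_lit 155) (nat_lit 1) .z) .df (.nd (.nd (.nd .leaf (nat_lit 95234) (nat_lit 285) (.p (nat_lit 157) (nat_lit 1) .z) .df .leaf) (nat_lit 96258) (nat_lit 286) (.p (nat_lit 158) (nat_lit 1) .z) .df (.nd .leaf (nat_lit 97282) (nat_lit 287) (.p (nat_lit 159) (nat_lit 1) .z) .df .leaf)) (nat_lit 98306) (nat_lit 288) (.p (nat_lit 160) (nat_lit 1) .z) .df (.nd (.nd .leaf (nat_lit 99329) (nat_lit 289) (.p (nat_lit 161) (nat_lit 1) .z) .df .leaf) (nat_lit 99330) (nat_lit 341) (.p (nat_lit 177) (nat_lit 1) .z) .df .leaf))) (nat_lit 100353) (nat_lit 290) (.p (nat_lit 162) (nat_lit 1) .z) .df (.nd (.nd (.nd (.nd .leaf (nat_lit 100354) (nat_lit 342) (.p (nat_lit 178) (nat_lit 1) .z) .df .leaf) (nat_lit 101377) (nat_lit 291) (.p (nat_lit 163) (nat_lit 1) .z) .df (.nd .leaf (nat_lit 101378) (nat_lit 343) (.p (nat_lit 179) (nat_lit 1) .z) .df .leaf)) (nat_lit 102401) (nat_lit 317) (.p (nat_lit 147) (nat_lit 1) (.p (nat_lit 150) (nat_lit 1) (.n (nat_lit 151) (nat_lit 2) (.p (nat_lit 152) (nat_lit 1) (.n (nat_lit 154) (nat_lit 1) (.p (nat_lit 157) (nat_lit 1) (.p (nat_lit 158) (nat_lit 1) (.n (nat_lit 160) (nat_lit 1) (.p (nat_lit 161) (nat_lit 2) (.n (nat_lit 162) (nat_lit 1) (.p (nat_lit 163) (nat_lit 1) (.n (nat_lit 171) (nat_lit 1) (.n (nat_lit 173) (nat_lit 2) (.n (nat_lit 174) (nat_lit 1) .z)))))))))))))) (.ct dR2_c307 (nat_lit 1) (nat_lit 11) (.s false (nat_lit 1) (nat_lit 5) (nat_lit 2) (nat_lit 3) (nat_lit 5) true (nat_lit 1) true (nat_lit 7) true (nat_lit 7) true (nat_lit 10) true (nat_lit 9) (.s false (nat_lit 2) (nat_lit 5) (nat_lit 3) (nat_lit 2) (nat_lit 5) false (nat_lit 1) true (nat_lit 7) true (nat_lit 7) true (nat_lit 9) true (nat_lit 10) (.s true (nat_lit 2) (nat_lit 7) (nat_lit 5) (nat_lit 2) (nat_lit 2) true (nat_lit 1) true (nat_lit 10) true (nat_lit 5) true (nat_lit 7) true (nat_lit 10) (.s false (nat_lit 2) (nat_lit 10) (nat_lit 2) (nat_lit 5) (nat_lit 1) true (nat_lit 7) true (nat_lit 11) true (nat_lit 4) true (nat_lit 10) true (nat_lit 7) (.s true (nat_lit 2) (nat_lit 10) (nat_lit 5) (nat_lit 2) (nat_lit 1) true (nat_lit 3) true (nat_lit 11) true (nat_lit 4) true (nat_lit 7) true (nat_lit 10) (.s false (nat_lit 3) (nat_lit 14) (nat_lit 1) (nat_lit 2) (nat_lit 3) true (nat_lit 5) true (nat_lit 9) true (nat_lit 1) true (nat_lit 11) true (nat_lit 10) (.s true (nat_lit 1) (nat_lit 14) (nat_lit 1) (nat_lit 3) (nat_lit 2) true (nat_lit 7) true (nat_lit 10) true (nat_lit 1) true (nat_lit 11) true (nat_lit 9) (.s false (nat_lit 2) (nat_lit 14) (nat_lit 2) (nat_lit 3) (nat_lit 1) true (nat_lit 7) true (nat_lit 11) true (nat_lit 1) true (nat_lit 10) true (nat_lit 9) (.s false (nat_lit 1) (nat_lit 15) (nat_lit 2) (nat_lit 3) (nat_lit 1) true (nat_lit 7) true (nat_lit 11) true (nat_lit 1) true (nat_lit 10) true (nat_lit 9) (.s false (nat_lit 1) (nat_lit 14) (nat_lit 3) (nat_lit 2) (nat_lit 1) true (nat_lit 5) true (nat_lit 11) true (nat_lit 1) true (nat_lit 9) true (nat_lit 10) (.s true (nat_lit 1) (nat_lit 16) (nat_lit 1) (nat_lit 3) (nat_lit 1) false (nat_lit 13) true (nat_lit 11) true (nat_lit 0) true (nat_lit 11) true (nat_lit 9) (.s false (nat_lit 1) (nat_lit 19) (nat_lit 1) (nat_lit 2) (nat_lit 2) true (nat_lit 7) true (nat_lit 10) false (nat_lit 1) true (nat_lit 11) true (nat_lit 10) (.s true (nat_lit 1) (nat_lit 21) (nat_lit 1) (nat_lit 2) (nat_lit 2) true (nat_lit 7) true (nat_lit 10) false (nat_lit 1) true (nat_lit 11) true (nat_lit 10) (.s true (nat_lit 3) (nat_lit 23) (nat_lit 1) (nat_lit 1) (nat_lit 2) true (nat_lit 7) true (nat_lit 10) false (nat_lit 3) true (nat_lit 11) true (nat_lit 11) (.s true (nat_lit 2) (nat_lit 24) (nat_lit 1) (nat_lit 1) (nat_lit 2) true (nat_lit 7) true (nat_lit 10) false (nat_lit 3) true (nat_lit 11) true (nat_lit 11) (.s false (nat_lit 2) (nat_lit 25) (nat_lit 1) (nat_lit 1) (nat_lit 2) true (nat_lit 7) true (nat_lit 10) false (nat_lit 3) true (nat_lit 11) true (nat_lit 11) (.s false (nat_lit 2) (nat_lit 25) (nat_lit 1) (nat_lit 2) (nat_lit 1) false (nat_lit 13) true (nat_lit 11) false (nat_lit 3) true (nat_lit 11) true (nat_lit 10) (.e true (nat_lit 1) (nat_lit 20) (nat_lit 14) (nat_lit 1) (.e false (nat_lit 2) (nat_lit 44) (nat_lit 5) (nat_lit 7) (.e false (nat_lit 1) (nat_lit 45) (nat_lit 5) (nat_lit 7) (.e true (nat_lit 3) (nat_lit 46) (nat_lit 5) (nat_lit 7) dR2_i17)))))))))))))))))))))) (.nd (.nd .leaf (nat_lit 102402) (nat_lit 344) (.p (nat_lit 180) (nat_lit 1) .z) .df .leaf) (nat_lit 103425) (nat_lit 292) (.p (nat_lit 164) (nat_lit 1) .z) .df .leaf)) (nat_lit 103426) (nat_lit 345) (.p (nat_lit 181) (nat_lit 1) .z) .df (.nd (.nd (.nd .leaf (nat_lit 104449) (nat_lit 293) (.p (nat_lit 165) (nat_lit 1) .z) .df .leaf) (nat_lit 104450) (nat_lit 346) (.p (nat_lit 182) (nat_lit 1) .z) .df (.nd .leaf (nat_lit 105473) (nat_lit 294) (.p (nat_lit 166) (nat_lit 1) .z) .df .leaf)) (nat_lit 105474) (nat_lit 347) (.p (nat_lit 183) (nat_lit 1) .z) .df (.nd (.nd .leaf (nat_lit 106497) (nat_lit 327) (.p (nat_lit 146) (nat_lit 2) (.n (nat_lit 147) (nat_lit 2) (.p (nat_lit 149) (nat_lit 3) (.p (nat_lit 150) (nat_lit 1) (.p (nat_lit 151) (nat_lit 1) (.p (nat_lit 152) (nat_lit 1) (.n (nat_lit 153) (nat_lit 2) (.n (nat_lit 154) (nat_lit 3) (.p (nat_lit 155) (nat_lit 2) (.p (nat_lit 157) (nat_lit 3) (.p (nat_lit 158) (nat_lit 3) (.n (nat_lit 159) (nat_lit 2) (.n (nat_lit 160) (nat_lit 3) (.n (nat_lit 161) (nat_lit 1) (.n (nat_lit 163) (nat_lit 2) (.n (nat_lit 165) (nat_lit 2) (.p (nat_lit 166) (nat_lit 1) (.p (nat_lit 171) (nat_lit 1) (.p (nat_lit 172) (nat_lit 2) (.n (nat_lit 173) (nat_lit 1) (.n (nat_lit 174) (nat_lit 3) (.p (nat_lit 175) (nat_lit 2) (.n (nat_lit 176) (nat_lit 2) .z))))))))))))))))))))))) (.ct dR2_c307 (nat_lit 1) (nat_lit 11) (.s true (nat_lit 3) (nat_lit 8) (nat_lit 1) (nat_lit 1) (nat_lit 6) true (nat_lit 1) true (nat_lit 6) true (nat_lit 4) true (nat_lit 11) true (nat_lit 11) (.s true (nat_lit 3) (nat_lit 10) (nat_lit 1) (nat_lit 1) (nat_lit 6) true (nat_lit 1) true (nat_lit 6) true (nat_lit 4) true (nat_lit 11) true (nat_lit 11) (.s true (nat_lit 3) (nat_lit 8) (nat_lit 6) (nat_lit 1) (nat_lit 1) true (nat_lit 1) true (nat_lit 11) true (nat_lit 4) true (nat_lit 6) true (nat_lit 11) (.e false (nat_lit 2) (nat_lit 101) (nat_lit 1) (nat_lit 11) (.e true (nat_lit 1) (nat_lit 106) (nat_lit 1) (nat_lit 11) (.e true (nat_lit 3) (nat_lit 21) (nat_lit 15) (nat_lit 1) (.e true (nat_lit 3) (nat_lit 39) (nat_lit 6) (nat_lit 6) (.e false (nat_lit 3) (nat_lit 40) (nat_lit 6) (nat_lit 6) (.e true (nat_lit 3) (nat_lit 42) (nat_lit 6) (nat_lit 6) (.e true (nat_lit 3) (nat_lit 43) (nat_lit 6) (nat_lit 6) (.e false (nat_lit 3) (nat_lit 99) (nat_lit 1) (nat_lit 11) (.e false (nat_lit 3) (nat_lit 100) (nat_lit 1) (nat_lit 11) (.e true (nat_lit 1) (nat_lit 102) (nat_lit 1) (nat_lit 11) (.e false (nat_lit 1) (nat_lit 103) (nat_lit 1) (nat_lit 11) (.e false (nat_lit 1) (nat_lit 105) (nat_lit 1) (nat_lit 11) (.e true (nat_lit 1) (nat_lit 107) (nat_lit 1) (nat_lit 11) (.e true (nat_lit 3) (nat_lit 116) (nat_lit 1) (nat_lit 11) (.e true (nat_lit 3) (nat_lit 117) (nat_lit 1) (nat_lit 11) (.e true (nat_lit 1) (nat_lit 114) (nat_lit 1) (nat_lit 11) (.e true (nat_lit 3) (nat_lit 31) (nat_lit 8) (nat_lit 4) (.u (nat_lit 2) (.p (nat_lit 0) (nat_lit 2) (.n (nat_lit 1) (nat_lit 1) (.n (nat_lit 3) (nat_lit 2) (.p (nat_lit 4) (nat_lit 1) (.p (nat_lit 7) (nat_lit 1) (.n (nat_lit 9) (nat_lit 1) (.p (nat_lit 11) (nat_lit 1) (.p (nat_lit 13) (nat_lit 1) (.p (nat_lit 14) (nat_lit 1) (.p (nat_lit 15) (nat_lit 1) (.p (nat_lit 17) (nat_lit 1) (.p (nat_lit 18) (nat_lit 1) (.n (nat_lit 25) (nat_lit 1) (.n (nat_lit 26) (nat_lit 1) (.n (nat_lit 27) (nat_lit 4) (.n (nat_lit 28) (nat_lit 2) (.n (nat_lit 29) (nat_lit 1) (.p (nat_lit 103) (nat_lit 1) (.p (nat_lit 104) (nat_lit 1) (.n (nat_lit 105) (nat_lit 1) (.p (nat_lit 106) (nat_lit 1) (.n (nat_lit 107) (nat_lit 1) (.n (nat_lit 108) (nat_lit 2) (.n (nat_lit 109) (nat_lit 2) (.p (nat_lit 116) (nat_lit 1) (.p (nat_lit 119) (nat_lit 3) .z)))))))))))))))))))))))))) .nil)))))))))))))))))))))) .leaf) (nat_lit 106498) (nat_lit 348) (.p (nat_lit 184) (nat_lit 1) .z) .df .leaf))))) (nat_lit 107521) (nat_lit 314) (.n (nat_lit 146) (nat_lit 2) (.p (nat_lit 147) (nat_lit 3) (.p (nat_lit 150) (nat_lit 2) (.n (nat_lit 151) (nat_lit 2) (.p (nat_lit 157) (nat_lit 1) (.p (nat_lit 160) (nat_lit 1) (.p (nat_lit 171) (nat_lit 1) (.p (nat_lit 173) (nat_lit 1) (.p (nat_lit 174) (nat_lit 1) .z))))))))) (.ct dR2_c307 (nat_lit 1) (nat_lit 11) (.s false (nat_lit 1) (nat_lit 7) (nat_lit 1) (nat_lit 2) (nat_lit 6) true (nat_lit 1) true (nat_lit 6) true (nat_lit 5) true (nat_lit 11) true (nat_lit 10) (.s true (nat_lit 1) (nat_lit 7) (nat_lit 2) (nat_lit 2) (nat_lit 5) true (nat_lit 1) true (nat_lit 7) true (nat_lit 5) true (nat_lit 10) true (nat_lit 10) (.e false (nat_lit 1) (nat_lit 18) (nat_lit 15) (nat_lit 1) (.e false (nat_lit 1) (nat_lit 39) (nat_lit 6) (nat_lit 6) (.e false (nat_lit 1) (nat_lit 114) (nat_lit 1) (nat_lit 11) (.e true (nat_lit 1) (nat_lit 93) (nat_lit 2) (nat_lit 10) (.e true (nat_lit 1) (nat_lit 18) (nat_lit 14) (nat_lit 1) (.e true (nat_lit 1) (nat_lit 44) (nat_lit 5) (nat_lit 7) (.e false (nat_lit 1) (nat_lit 83) (nat_lit 2) (nat_lit 10) (.e false (nat_lit 1) (nat_lit 87) (nat_lit 2) (nat_lit 10) (.e true (nat_lit 1) (nat_lit 96) (nat_lit 2) (nat_lit 10) (.u (nat_lit 2) (.p (nat_lit 5) (nat_lit 1) .z) .nil))))))))))))) (.nd (.nd (.nd (.nd (.nd (.nd .leaf (nat_lit 107522) (nat_lit 349) (.p (nat_lit 185) (nat_lit 1) .z) .df .leaf) (nat_lit 108545) (nat_lit 315) (.n (nat_lit 152) (nat_lit 1) (.p (nat_lit 164) (nat_lit 1) (.n (nat_lit 176) (nat_lit 1) .z))) (.ct dR2_c307 (nat_lit 1) (nat_lit 11) (.s false (nat_lit 3) (nat_lit 8) (nat_lit 1) (nat_lit 1) (nat_lit 6) true (nat_lit 1) true (nat_lit 6) true (nat_lit 4) true (nat_lit 11) true (nat_lit 11) (.s false (nat_lit 3) (nat_lit 19) (nat_lit 1) (nat_lit 2) (nat_lit 2) true (nat_lit 7) true (nat_lit 10) false (nat_lit 1) true (nat_lit 11) true (nat_lit 10) (.s false (nat_lit 3) (nat_lit 19) (nat_lit 2) (nat_lit 1) (nat_lit 2) true (nat_lit 6) true (nat_lit 10) false (nat_lit 1) true (nat_lit 10) true (nat_lit 11) (.e false (nat_lit 3) (nat_lit 19) (nat_lit 15) (nat_lit 1) (.e true (nat_lit 3) (nat_lit 98) (nat_lit 1) (nat_lit 11) (.e false (nat_lit 1) (nat_lit 101) (nat_lit 1) (nat_lit 11) (.e false (nat_lit 3) (nat_lit 45) (nat_lit 5) (nat_lit 7) (.e true (nat_lit 1) (nat_lit 84) (nat_lit 2) (nat_lit 10) (.e true (nat_lit 1) (nat_lit 88) (nat_lit 2) (nat_lit 10) (.e true (nat_lit 3) (nat_lit 90) (nat_lit 2) (nat_lit 10) (.e false (nat_lit 3) (nat_lit 94) (nat_lit 2) (nat_lit 10) (.u (nat_lit 2) (.n (nat_lit 2) (nat_lit 1) (.p (nat_lit 30) (nat_lit 1) (.p (nat_lit 86) (nat_lit 1) (.p (nat_lit 90) (nat_lit 1) (.n (nat_lit 103) (nat_lit 1) (.p (nat_lit 108) (nat_lit 1) .z)))))) .nil))))))))))))) (.nd .leaf (nat_lit 108546) (nat_lit 350) (.p (nat_lit 186) (nat_lit 1) .z) .df .leaf)) (nat_lit 109569) (nat_lit 312) (.p (nat_lit 149) (nat_lit 2) (.p (nat_lit 153) (nat_lit 1) (.n (nat_lit 155) (nat_lit 1) (.p (nat_lit 159) (nat_lit 1) (.p (nat_lit 163) (nat_lit 1) (.p (nat_lit 165) (nat_lit 1) (.n (nat_lit 172) (nat_lit 1) (.n (nat_lit 175) (nat_lit 1) .z)))))))) (.ct dR2_c307 (nat_lit 1) (nat_lit 11) (.s false (nat_lit 3) (nat_lit 9) (nat_lit 1) (nat_lit 1) (nat_lit 6) true (nat_lit 1) true (nat_lit 6) true (nat_lit 4) true (nat_lit 11) true (nat_lit 11) (.e false (nat_lit 3) (nat_lit 20) (nat_lit 15) (nat_lit 1) (.e false (nat_lit 3) (nat_lit 42) (nat_lit 6) (nat_lit 6) (.e false (nat_lit 1) (nat_lit 99) (nat_lit 1) (nat_lit 11) (.e false (nat_lit 1) (nat_lit 102) (nat_lit 1) (nat_lit 11) (.e false (nat_lit 3) (nat_lit 116) (nat_lit 1) (nat_lit 11) (.u (nat_lit 2) (.p (nat_lit 3) (nat_lit 1) (.n (nat_lit 7) (nat_lit 1) (.p (nat_lit 9) (nat_lit 1) (.n (nat_lit 13) (nat_lit 1) (.p (nat_lit 26) (nat_lit 1) (.p (nat_lit 29) (nat_lit 1) (.n (nat_lit 101) (nat_lit 1) (.n (nat_lit 104) (nat_lit 1) (.p (nat_lit 109) (nat_lit 1) .z))))))))) .nil)))))))) (.nd (.nd .leaf (nat_lit 109570) (nat_lit 351) (.p (nat_lit 187) (nat_lit 1) .z) .df .leaf) (nat_lit 110593) (nat_lit 295) (.p (nat_lit 167) (nat_lit 1) .z) .df (.nd .leaf (nat_lit 110594) (nat_lit 352) (.p (nat_lit 188) (nat_lit 1) .z) .df .leaf))) (nat_lit 111618) (nat_lit 353) (.p (nat_lit 189) (nat_lit 1) .z) .df (.nd (.nd (.nd .leaf (nat_lit 112641) (nat_lit 296) (.p (nat_lit 168) (nat_lit 1) .z) .df .leaf) (nat_lit 112642) (nat_lit 354) (.p (nat_lit 190) (nat_lit 1) .z) .df (.nd .leaf (nat_lit 113665) (nat_lit 328) (.n (nat_lit 147) (nat_lit 3) (.n (nat_lit 150) (nat_lit 1) (.n (nat_lit 151) (nat_lit 1) (.p (nat_lit 152) (nat_lit 3) (.n (nat_lit 157) (nat_lit 3) (.p (nat_lit 160) (nat_lit 2) (.n (nat_lit 161) (nat_lit 1) (.n (nat_lit 162) (nat_lit 3) (.p (nat_lit 167) (nat_lit 2) (.n (nat_lit 171) (nat_lit 3) (.p (nat_lit 173) (nat_lit 1) (.p (nat_lit 174) (nat_lit 2) (.p (nat_lit 176) (nat_lit 3) .z))))))))))))) (.ct dR2_c307 (nat_lit 1) (nat_lit 11) (.s false (nat_lit 2) (nat_lit 8) (nat_lit 6) (nat_lit 1) (nat_lit 1) true (nat_lit 1) true (nat_lit 11) true (nat_lit 4) true (nat_lit 6) true (nat_lit 11) (.s true (nat_lit 3) (nat_lit 36) (nat_lit 0) (nat_lit 1) (nat_lit 1) true (nat_lit 9) true (nat_lit 11) false (nat_lit 5) true (nat_lit 12) true (nat_lit 11) (.e true (nat_lit 2) (nat_lit 19) (nat_lit 15) (nat_lit 1) (.e false (nat_lit 2) (nat_lit 31) (nat_lit 8) (nat_lit 4) (.e true (nat_lit 3) (nat_lit 73) (nat_lit 3) (nat_lit 9) (.e true (nat_lit 2) (nat_lit 99) (nat_lit 1) (nat_lit 11) (.e false (nat_lit 2) (nat_lit 100) (nat_lit 1) (nat_lit 11) (.e false (nat_lit 1) (nat_lit 101) (nat_lit 1) (nat_lit 11) (.e true (nat_lit 2) (nat_lit 103) (nat_lit 1) (nat_lit 11) (.e false (nat_lit 2) (nat_lit 104) (nat_lit 1) (nat_lit 11) (.e false (nat_lit 2) (nat_lit 105) (nat_lit 1) (nat_lit 11) (.e true (nat_lit 2) (nat_lit 106) (nat_lit 1) (nat_lit 11) (.e true (nat_lit 1) (nat_lit 117) (nat_lit 1) (nat_lit 11) (.e true (nat_lit 1) (nat_lit 98) (nat_lit 1) (nat_lit 11) (.e false (nat_lit 2) (nat_lit 97) (nat_lit 1) (nat_lit 11) (.e true (nat_lit 3) (nat_lit 107) (nat_lit 1) (nat_lit 11) (.e true (nat_lit 3) (nat_lit 36) (nat_lit 7) (nat_lit 5) (.u (nat_lit 2) (.n (nat_lit 0) (nat_lit 2) (.n (nat_lit 1) (nat_lit 1) (.n (nat_lit 4) (nat_lit 1) (.p (nat_lit 5) (nat_lit 1) (.p (nat_lit 6) (nat_lit 1) (.n (nat_lit 7) (nat_lit 1) (.n (nat_lit 8) (nat_lit 1) (.p (nat_lit 9) (nat_lit 1) (.p (nat_lit 11) (nat_lit 3) (.p (nat_lit 12) (nat_lit 1) (.n (nat_lit 13) (nat_lit 1) (.n (nat_lit 14) (nat_lit 1) (.p (nat_lit 15) (nat_lit 1) (.n (nat_lit 16) (nat_lit 2) (.n (nat_lit 17) (nat_lit 1) (.p (nat_lit 18) (nat_lit 1) (.n (nat_lit 19) (nat_lit 1) (.n (nat_lit 21) (nat_lit 2) (.p (nat_lit 25) (nat_lit 1) (.p (nat_lit 26) (nat_lit 1) (.n (nat_lit 28) (nat_lit 1) (.p (nat_lit 29) (nat_lit 1) (.n (nat_lit 30) (nat_lit 3) (.n (nat_lit 99) (nat_lit 2) (.n (nat_lit 100) (nat_lit 2) (.n (nat_lit 101) (nat_lit 1) (.p (nat_lit 102) (nat_lit 1) (.n (nat_lit 103) (nat_lit 1) (.n (nat_lit 104) (nat_lit 3) (.n (nat_lit 105) (nat_lit 1) (.p (nat_lit 106) (nat_lit 1) (.p (nat_lit 107) (nat_lit 1) (.p (nat_lit 108) (nat_lit 2) (.p (nat_lit 109) (nat_lit 3) (.n (nat_lit 113) (nat_lit 3) (.p (nat_lit 116) (nat_lit 3) (.n (nat_lit 117) (nat_lit 2) (.p (nat_lit 118) (nat_lit 3) (.n (nat_lit 119) (nat_lit 2) .z))))))))))))))))))))))))))))))))))))))) .nil))))))))))))))))))) .leaf)) (nat_lit 113666) (nat_lit 355) (.p (nat_lit 191) (nat_lit 1) .z) .df (.nd (.nd .leaf (nat_lit 114689) (nat_lit 297) (.p (nat_lit 169) (nat_lit 1) .z) .df .leaf) (nat_lit 114690) (nat_lit 356) (.p (nat_lit 192) (nat_lit 1) .z) .df .leaf))) (nat_lit 115714) (nat_lit 357) (.p (nat_lit 193) (nat_lit 1) .z) .df (.nd (.nd (.nd (.nd .leaf (nat_lit 116737) (nat_lit 298) (.p (nat_lit 171) (nat_lit 1) .z) .df .leaf) (nat_lit 116738) (nat_lit 358) (.p (nat_lit 194) (nat_lit 1) .z) .df (.nd .leaf (nat_lit 117761) (nat_lit 329) (.n (nat_lit 146) (nat_lit 2) (.p (nat_lit 147) (nat_lit 3) (.n (nat_lit 150) (nat_lit 2) (.n (nat_lit 151) (nat_lit 2) (.p (nat_lit 152) (nat_lit 2) (.n (nat_lit 154) (nat_lit 1) (.p (nat_lit 157) (nat_lit 1) (.p (nat_lit 158) (nat_lit 1) (.p (nat_lit 160) (nat_lit 3) (.p (nat_lit 161) (nat_lit 2) (.p (nat_lit 162) (nat_lit 1) (.n (nat_lit 171) (nat_lit 1) (.n (nat_lit 173) (nat_lit 3) (.p (nat_lit 174) (nat_lit 3) (.p (nat_lit 176) (nat_lit 1) .z))))))))))))))) (.ct dR2_c307 (nat_lit 1) (nat_lit 11) (.s false (nat_lit 1) (nat_lit 8) (nat_lit 6) (nat_lit 1) (nat_lit 1) true (nat_lit 1) true (nat_lit 11) true (nat_lit 4) true (nat_lit 6) true (nat_lit 11) (.e true (nat_lit 1) (nat_lit 19) (nat_lit 15) (nat_lit 1) (.e false (nat_lit 1) (nat_lit 111) (nat_lit 1) (nat_lit 11) (.e false (nat_lit 1) (nat_lit 31) (nat_lit 8) (nat_lit 4) (.u (nat_lit 2) (.n (nat_lit 1) (nat_lit 1) (.n (nat_lit 11) (nat_lit 1) (.n (nat_lit 16) (nat_lit 1) (.p (nat_lit 27) (nat_lit 1) .z)))) .nil)))))) .leaf)) (nat_lit 117762) (nat_lit 359) (.p (nat_lit 195) (nat_lit 1) .z) .df (.nd (.nd .leaf (nat_lit 118785) (nat_lit 299) (.p (nat_lit 172) (nat_lit 1) .z) .df .leaf) (nat_lit 118786) (nat_lit 360) (.p (nat_lit 196) (nat_lit 1) .z) .df .leaf)) (nat_lit 119809) (nat_lit 316) (.n (nat_lit 146) (nat_lit 2) (.p (nat_lit 147) (nat_lit 3) (.p (nat_lit 150) (nat_lit 2) (.n (nat_lit 151) (nat_lit 2) (.p (nat_lit 152) (nat_lit 3) (.p (nat_lit 157) (nat_lit 1) (.p (nat_lit 160) (nat_lit 1) (.n (nat_lit 161) (nat_lit 2) (.p (nat_lit 162) (nat_lit 2) (.n (nat_lit 164) (nat_lit 2) (.p (nat_lit 167) (nat_lit 2) (.p (nat_lit 171) (nat_lit 2) (.p (nat_lit 173) (nat_lit 1) (.p (nat_lit 174) (nat_lit 1) (.p (nat_lit 176) (nat_lit 3) .z))))))))))))))) (.ct dR2_c307 (nat_lit 1) (nat_lit 11) (.s false (nat_lit 1) (nat_lit 6) (nat_lit 3) (nat_lit 1) (nat_lit 5) false (nat_lit 1) true (nat_lit 7) true (nat_lit 6) true (nat_lit 9) true (nat_lit 11) (.s false (nat_lit 1) (nat_lit 6) (nat_lit 3) (nat_lit 5) (nat_lit 1) true (nat_lit 5) true (nat_lit 11) true (nat_lit 6) true (nat_lit 9) true (nat_lit 7) (.s false (nat_lit 1) (nat_lit 7) (nat_lit 1) (nat_lit 2) (nat_lit 6) true (nat_lit 1) true (nat_lit 6) true (nat_lit 5) true (nat_lit 11) true (nat_lit 10) (.s true (nat_lit 2) (nat_lit 7) (nat_lit 5) (nat_lit 2) (nat_lit 2) true (nat_lit 1) true (nat_lit 10) true (nat_lit 5) true (nat_lit 7) true (nat_lit 10) (.s true (nat_lit 1) (nat_lit 8) (nat_lit 1) (nat_lit 1) (nat_lit 6) true (nat_lit 1) true (nat_lit 6) true (nat_lit 4) true (nat_lit 11) true (nat_lit 11) (.s true (nat_lit 2) (nat_lit 10) (nat_lit 1) (nat_lit 2) (nat_lit 5) true (nat_lit 3) true (nat_lit 7) true (nat_lit 4) true (nat_lit 11) true (nat_lit 10) (.s true (nat_lit 2) (nat_lit 9) (nat_lit 2) (nat_lit 1) (nat_lit 5) true (nat_lit 1) true (nat_lit 7) true (nat_lit 4) true (nat_lit 10) true (nat_lit 11) (.s true (nat_lit 3) (nat_lit 8) (nat_lit 5) (nat_lit 1) (nat_lit 2) true (nat_lit 1) true (nat_lit 10) true (nat_lit 4) true (nat_lit 7) true (nat_lit 11) (.s true (nat_lit 3) (nat_lit 8) (nat_lit 5) (nat_lit 2) (nat_lit 1) true (nat_lit 3) true (nat_lit 11) true (nat_lit 4) true (nat_lit 7) true (nat_lit 10) (.s true (nat_lit 2) (nat_lit 10) (nat_lit 6) (nat_lit 1) (nat_lit 1) true (nat_lit 1) true (nat_lit 11) true (nat_lit 4) true (nat_lit 6) true (nat_lit 11) (.s false (nat_lit 3) (nat_lit 12) (nat_lit 1) (nat_lit 5) (nat_lit 1) false (nat_lit 13) true (nat_lit 11) true (nat_lit 2) true (nat_lit 11) true (nat_lit 7) (.s false (nat_lit 1) (nat_lit 14) (nat_lit 1) (nat_lit 2) (nat_lit 3) true (nat_lit 5) true (nat_lit 9) true (nat_lit 1) true (nat_lit 11) true (nat_lit 10) (.s true (nat_lit 3) (nat_lit 14) (nat_lit 1) (nat_lit 3) (nat_lit 2) true (nat_lit 7) true (nat_lit 10) true (nat_lit 1) true (nat_lit 11) true (nat_lit 9) (.s false (nat_lit 3) (nat_lit 14) (nat_lit 2) (nat_lit 1) (nat_lit 3) true (nat_lit 4) true (nat_lit 9) true (nat_lit 1) true (nat_lit 10) true (nat_lit 11) (.s false (nat_lit 3) (nat_lit 14) (nat_lit 4) (nat_lit 1) (nat_lit 1) true (nat_lit 4) true (nat_lit 11) true (nat_lit 1) true (nat_lit 8) true (nat_lit 11) (.s true (nat_lit 1) (nat_lit 16) (nat_lit 1) (nat_lit 3) (nat_lit 1) false (nat_lit 13) true (nat_lit 11) true (nat_lit 0) true (nat_lit 11) true (nat_lit 9) (.s true (nat_lit 3) (nat_lit 19) (nat_lit 1) (nat_lit 2) (nat_lit 2) true (nat_lit 7) true (nat_lit 10) false (nat_lit 1) true (nat_lit 11) true (nat_lit 10) dR2_i19)))))))))))))))))) (.nd (.nd (.nd .leaf (nat_lit 119810) (nat_lit 361) (.p (nat_lit 197) (nat_lit 1) .z) .df .leaf) (nat_lit 120834) (nat_lit 443) (.p (nat_lit 207) (nat_lit 1) .z) .df (.nd .leaf (nat_lit 121858) (nat_lit 444) (.p (nat_lit 208) (nat_lit 1) .z) .df .leaf)) (nat_lit 122882) (nat_lit 445) (.p (nat_lit 209) (nat_lit 1) .z) .df (.nd (.nd .leaf (nat_lit 123906) (nat_lit 446) (.p (nat_lit 210) (nat_lit 1) .z) .df .leaf) (nat_lit 124930) (nat_lit 447) (.p (nat_lit 211) (nat_lit 1) .z) .df .leaf)))) (nat_lit 125954) (nat_lit 448) (.p (nat_lit 212) (nat_lit 1) .z) .df (.nd (.nd (.nd (.nd (.nd .leaf (nat_lit 126977) (nat_lit 362) (.p (nat_lit 198) (nat_lit 1) .z) .df .leaf) (nat_lit 128001) (nat_lit 363) (.p (nat_lit 199) (nat_lit 1) .z) .df (.nd .leaf (nat_lit 129025) (nat_lit 400) (.n (nat_lit 177) (nat_lit 2) (.n (nat_lit 179) (nat_lit 2) (.p (nat_lit 180) (nat_lit 2) (.p (nat_lit 181) (nat_lit 2) (.n (nat_lit 183) (nat_lit 1) (.p (nat_lit 184) (nat_lit 1) (.p (nat_lit 185) (nat_lit 2) (.n (nat_lit 186) (nat_lit 2) (.p (nat_lit 187) (nat_lit 2) (.p (nat_lit 188) (nat_lit 3) (.n (nat_lit 191) (nat_lit 2) (.p (nat_lit 194) (nat_lit 2) (.p (nat_lit 195) (nat_lit 3) (.p (nat_lit 199) (nat_lit 1) (.n (nat_lit 204) (nat_lit 2) (.n (nat_lit 206) (nat_lit 1) .z)))))))))))))))) (.ct dR2_c292 (nat_lit 1) (nat_lit 11) (.s false (nat_lit 1) (nat_lit 16) (nat_lit 3) (nat_lit 2) (nat_lit 1) true (nat_lit 5) true (nat_lit 11) true (nat_lit 0) true (nat_lit 9) true (nat_lit 10) (.e true (nat_lit 1) (nat_lit 38) (nat_lit 7) (nat_lit 5) (.e false (nat_lit 1) (nat_lit 125) (nat_lit 1) (nat_lit 11) (.e false (nat_lit 1) (nat_lit 127) (nat_lit 1) (nat_lit 11) (.e true (nat_lit 1) (nat_lit 129) (nat_lit 1) (nat_lit 11) (.e true (nat_lit 1) (nat_lit 132) (nat_lit 1) (nat_lit 11) (.e true (nat_lit 1) (nat_lit 19) (nat_lit 16) (nat_lit 0) (.e false (nat_lit 1) (nat_lit 79) (nat_lit 3) (nat_lit 9) (.e false (nat_lit 1) (nat_lit 80) (nat_lit 3) (nat_lit 9) (.e true (nat_lit 1) (nat_lit 81) (nat_lit 3) (nat_lit 9) (.e false (nat_lit 2) (nat_lit 98) (nat_lit 2) (nat_lit 10) (.e false (nat_lit 2) (nat_lit 101) (nat_lit 2) (nat_lit 10) (.e true (nat_lit 1) (nat_lit 105) (nat_lit 2) (nat_lit 10) (.e true (nat_lit 1) (nat_lit 111) (nat_lit 2) (nat_lit 10) (.e false (nat_lit 1) (nat_lit 117) (nat_lit 2) (nat_lit 10) (.u (nat_lit 2) (.p (nat_lit 1) (nat_lit 1) (.p (nat_lit 9) (nat_lit 1) (.n (nat_lit 11) (nat_lit 1) (.p (nat_lit 17) (nat_lit 1) .z)))) .nil))))))))))))))))) .leaf)) (nat_lit 130049) (nat_lit 364) (.p (nat_lit 200) (nat_lit 1) .z) .df (.nd (.nd .leaf (nat_lit 131073) (nat_lit 391) (.n (nat_lit 177) (nat_lit 3) (.p (nat_lit 178) (nat_lit 1) (.n (nat_lit 180) (nat_lit 2) (.n (nat_lit 181) (nat_lit 3) (.n (nat_lit 183) (nat_lit 3) (.p (nat_lit 184) (nat_lit 3) (.p (nat_lit 185) (nat_lit 2) (.n (nat_lit 186) (nat_lit 3) (.n (nat_lit 187) (nat_lit 1) (.n (nat_lit 188) (nat_lit 2) (.n (nat_lit 189) (nat_lit 1) (.p (nat_lit 191) (nat_lit 1) (.n (nat_lit 192) (nat_lit 3) (.p (nat_lit 195) (nat_lit 1) (.n (nat_lit 197) (nat_lit 3) (.n (nat_lit 198) (nat_lit 1) (.p (nat_lit 200) (nat_lit 2) (.p (nat_lit 203) (nat_lit 1) (.p (nat_lit 204) (nat_lit 3) (.p (nat_lit 205) (nat_lit 1) (.p (nat_lit 206) (nat_lit 1) .z))))))))))))))))))))) (.ct dR2_c292 (nat_lit 1) (nat_lit 11) (.s false (nat_lit 3) (nat_lit 6) (nat_lit 1) (nat_lit 6) (nat_lit 3) true (nat_lit 5) true (nat_lit 9) true (nat_lit 6) true (nat_lit 11) true (nat_lit 6) (.s true (nat_lit 3) (nat_lit 6) (nat_lit 5) (nat_lit 1) (nat_lit 4) false (nat_lit 1) true (nat_lit 8) true (nat_lit 6) true (nat_lit 7) true (nat_lit 11) (.s true (nat_lit 2) (nat_lit 10) (nat_lit 1) (nat_lit 2) (nat_lit 6) true (nat_lit 1) true (nat_lit 6) true (nat_lit 4) true (nat_lit 11) true (nat_lit 10) (.s false (nat_lit 1) (nat_lit 9) (nat_lit 1) (nat_lit 6) (nat_lit 2) true (nat_lit 7) true (nat_lit 10) true (nat_lit 4) true (nat_lit 11) true (nat_lit 6) (.s true (nat_lit 1) (nat_lit 10) (nat_lit 1) (nat_lit 6) (nat_lit 2) true (nat_lit 7) true (nat_lit 10) true (nat_lit 4) true (nat_lit 11) true (nat_lit 6) (.s false (nat_lit 3) (nat_lit 10) (nat_lit 2) (nat_lit 2) (nat_lit 5) true (nat_lit 1) true (nat_lit 7) true (nat_lit 4) true (nat_lit 10) true (nat_lit 10) (.s false (nat_lit 3) (nat_lit 9) (nat_lit 2) (nat_lit 5) (nat_lit 2) true (nat_lit 6) true (nat_lit 10) true (nat_lit 4) true (nat_lit 10) true (nat_lit 7) (.s false (nat_lit 3) (nat_lit 10) (nat_lit 2) (nat_lit 5) (nat_lit 2) true (nat_lit 6) true (nat_lit 10) true (nat_lit 4) true (nat_lit 10) true (nat_lit 7) (.s false (nat_lit 3) (nat_lit 9) (nat_lit 2) (nat_lit 6) (nat_lit 1) true (nat_lit 7) true (nat_lit 11) true (nat_lit 4) true (nat_lit 10) true (nat_lit 6) (.s true (nat_lit 1) (nat_lit 10) (nat_lit 2) (nat_lit 6) (nat_lit 1) true (nat_lit 7) true (nat_lit 11) true (nat_lit 4) true (nat_lit 10) true (nat_lit 6) (.s true (nat_lit 1) (nat_lit 9) (nat_lit 5) (nat_lit 2) (nat_lit 2) true (nat_lit 1) true (nat_lit 10) true (nat_lit 4) true (nat_lit 7) true (nat_lit 10) (.s true (nat_lit 3) (nat_lit 10) (nat_lit 5) (nat_lit 2) (nat_lit 2) true (nat_lit 1) true (nat_lit 10) true (nat_lit 4) true (nat_lit 7) true (nat_lit 10) (.s true (nat_lit 2) (nat_lit 11) (nat_lit 2) (nat_lit 2) (nat_lit 4) true (nat_lit 2) true (nat_lit 8) true (nat_lit 3) true (nat_lit 10) true (nat_lit 10) (.s true (nat_lit 1) (nat_lit 11) (nat_lit 2) (nat_lit 4) (nat_lit 2) true (nat_lit 6) true (nat_lit 10) true (nat_lit 3) true (nat_lit 10) true (nat_lit 8) (.s false (nat_lit 3) (nat_lit 12) (nat_lit 1) (nat_lit 1) (nat_lit 6) true (nat_lit 1) true (nat_lit 6) true (nat_lit 2) true (nat_lit 11) true (nat_lit 11) (.s true (nat_lit 2) (nat_lit 12) (nat_lit 5) (nat_lit 1) (nat_lit 2) true (nat_lit 1) true (nat_lit 10) true (nat_lit 2) true (nat_lit 7) true (nat_lit 11) (.s false (nat_lit 1) (nat_lit 14) (nat_lit 0) (nat_lit 5) (nat_lit 2) true (nat_lit 8) true (nat_lit 10) true (nat_lit 1) true (nat_lit 12) true (nat_lit 7) (.s false (nat_lit 3) (nat_lit 15) (nat_lit 0) (nat_lit 6) (nat_lit 1) true (nat_lit 9) true (nat_lit 11) true (nat_lit 1) true (nat_lit 12) true (nat_lit 6) dR2_i22))))))))))))))))))) .leaf) (nat_lit 132097) (nat_lit 399) (.n (nat_lit 178) (nat_lit 1) (.p (nat_lit 179) (nat_lit 3) (.n (nat_lit 180) (nat_lit 3) (.p (nat_lit 181) (nat_lit 3) (.p (nat_lit 183) (nat_lit 1) (.n (nat_lit 184) (nat_lit 1) (.n (nat_lit 185) (nat_lit 2) (.n (nat_lit 186) (nat_lit 3) (.n (nat_lit 187) (nat_lit 2) (.p (nat_lit 188) (nat_lit 1) (.p (nat_lit 191) (nat_lit 3) (.n (nat_lit 198) (nat_lit 1) (.p (nat_lit 200) (nat_lit 1) (.n (nat_lit 203) (nat_lit 1) .z)))))))))))))) (.ct dR2_c292 (nat_lit 1) (nat_lit 11) (.s false (nat_lit 1) (nat_lit 10) (nat_lit 2) (nat_lit 1) (nat_lit 6) true (nat_lit 0) true (nat_lit 6) true (nat_lit 4) true (nat_lit 10) true (nat_lit 11) (.s true (nat_lit 1) (nat_lit 9) (nat_lit 2) (nat_lit 2) (nat_lit 5) true (nat_lit 1) true (nat_lit 7) true (nat_lit 4) true (nat_lit 10) true (nat_lit 10) (.s false (nat_lit 1) (nat_lit 10) (nat_lit 2) (nat_lit 2) (nat_lit 5) true (nat_lit 1) true (nat_lit 7) true (nat_lit 4) true (nat_lit 10) true (nat_lit 10) (.s true (nat_lit 1) (nat_lit 9) (nat_lit 6) (nat_lit 1) (nat_lit 2) true (nat_lit 0) true (nat_lit 10) true (nat_lit 4) true (nat_lit 6) true (nat_lit 11) (.s false (nat_lit 1) (nat_lit 12) (nat_lit 1) (nat_lit 1) (nat_lit 6) true (nat_lit 1) true (nat_lit 6) true (nat_lit 2) true (nat_lit 11) true (nat_lit 11) (.s false (nat_lit 3) (nat_lit 13) (nat_lit 1) (nat_lit 1) (nat_lit 6) true (nat_lit 1) true (nat_lit 6) true (nat_lit 2) true (nat_lit 11) true (nat_lit 11) (.s true (nat_lit 2) (nat_lit 16) (nat_lit 2) (nat_lit 1) (nat_lit 3) true (nat_lit 4) true (nat_lit 9) true (nat_lit 0) true (nat_lit 10) true (nat_lit 11) dR2_i24)))))))) (.nd .leaf (nat_lit 133121) (nat_lit 365) (.p (nat_lit 201) (nat_lit 1) .z) .df .leaf))) (nat_lit 134145) (nat_lit 390) (.p (nat_lit 177) (nat_lit 2) (.n (nat_lit 178) (nat_lit 3) (.p (nat_lit 179) (nat_lit 3) (.n (nat_lit 180) (nat_lit 1) (.n (nat_lit 181) (nat_lit 1) (.p (nat_lit 182) (nat_lit 3) (.n (nat_lit 183) (nat_lit 1) (.p (nat_lit 184) (nat_lit 1) (.n (nat_lit 185) (nat_lit 1) (.p (nat_lit 186) (nat_lit 1) (.n (nat_lit 187) (nat_lit 1) (.p (nat_lit 188) (nat_lit 2) (.p (nat_lit 189) (nat_lit 3) (.n (nat_lit 191) (nat_lit 1) (.p (nat_lit 192) (nat_lit 2) (.n (nat_lit 194) (nat_lit 3) (.p (nat_lit 195) (nat_lit 1) (.n (nat_lit 198) (nat_lit 1) (.p (nat_lit 199) (nat_lit 1) (.p (nat_lit 200) (nat_lit 1) (.n (nat_lit 201) (nat_lit 1) (.n (nat_lit 203) (nat_lit 1) (.n (nat_lit 204) (nat_lit 2) (.p (nat_lit 205) (nat_lit 1) .z)))))))))))))))))))))))) (.ct dR2_c292 (nat_lit 1) (nat_lit 11) (.s false (nat_lit 2) (nat_lit 6) (nat_lit 1) (nat_lit 3) (nat_lit 6) true (nat_lit 1) true (nat_lit 6) true (nat_lit 6) true (nat_lit 11) true (nat_lit 9) (.s false (nat_lit 1) (nat_lit 6) (nat_lit 1) (nat_lit 6) (nat_lit 3) true (nat_lit 5) true (nat_lit 9) true (nat_lit 6) true (nat_lit 11) true (nat_lit 6) dR2_i27))) (.nd (.nd (.nd .leaf (nat_lit 135169) (nat_lit 378) (.n (nat_lit 178) (nat_lit 1) (.n (nat_lit 181) (nat_lit 1) (.p (nat_lit 186) (nat_lit 1) (.p (nat_lit 188) (nat_lit 1) (.p (nat_lit 198) (nat_lit 1) (.p (nat_lit 204) (nat_lit 1) (.p (nat_lit 206) (nat_lit 1) .z))))))) (.ct dR2_c292 (nat_lit 1) (nat_lit 11) (.s false (nat_lit 1) (nat_lit 8) (nat_lit 1) (nat_lit 2) (nat_lit 6) true (nat_lit 1) true (nat_lit 6) true (nat_lit 4) true (nat_lit 11) true (nat_lit 10) (.s true (nat_lit 1) (nat_lit 8) (nat_lit 2) (nat_lit 2) (nat_lit 5) true (nat_lit 1) true (nat_lit 7) true (nat_lit 4) true (nat_lit 10) true (nat_lit 10) (.s false (nat_lit 1) (nat_lit 23) (nat_lit 1) (nat_lit 2) (nat_lit 2) true (nat_lit 7) true (nat_lit 10) false (nat_lit 1) true (nat_lit 11) true (nat_lit 10) (.e false (nat_lit 1) (nat_lit 23) (nat_lit 15) (nat_lit 1) (.e false (nat_lit 1) (nat_lit 45) (nat_lit 6) (nat_lit 6) (.e true (nat_lit 1) (nat_lit 111) (nat_lit 2) (nat_lit 10) (.e false (nat_lit 2) (nat_lit 101) (nat_lit 2) (nat_lit 10) (.e false (nat_lit 2) (nat_lit 108) (nat_lit 2) (nat_lit 10) (.e true (nat_lit 1) (nat_lit 115) (nat_lit 2) (nat_lit 10) .nil)))))))))) .leaf) (nat_lit 136193) (nat_lit 403) (.n (nat_lit 177) (nat_lit 1) (.n (nat_lit 178) (nat_lit 2) (.n (nat_lit 179) (nat_lit 1) (.n (nat_lit 180) (nat_lit 3) (.p (nat_lit 181) (nat_lit 2) (.n (nat_lit 182) (nat_lit 3) (.n (nat_lit 183) (nat_lit 3) (.p (nat_lit 184) (nat_lit 3) (.p (nat_lit 186) (nat_lit 3) (.p (nat_lit 187) (nat_lit 2) (.n (nat_lit 188) (nat_lit 3) (.p (nat_lit 189) (nat_lit 3) (.p (nat_lit 191) (nat_lit 2) (.p (nat_lit 192) (nat_lit 2) (.n (nat_lit 195) (nat_lit 3) (.n (nat_lit 197) (nat_lit 1) (.p (nat_lit 198) (nat_lit 1) (.p (nat_lit 199) (nat_lit 2) (.n (nat_lit 204) (nat_lit 1) (.n (nat_lit 206) (nat_lit 1) .z)))))))))))))))))))) (.ct dR2_c292 (nat_lit 1) (nat_lit 11) (.s false (nat_lit 1) (nat_lit 10) (nat_lit 1) (nat_lit 2) (nat_lit 6) true (nat_lit 1) true (nat_lit 6) true (nat_lit 4) true (nat_lit 11) true (nat_lit 10) (.s true (nat_lit 1) (nat_lit 9) (nat_lit 2) (nat_lit 1) (nat_lit 6) true (nat_lit 0) true (nat_lit 6) true (nat_lit 4) true (nat_lit 10) true (nat_lit 11) (.s false (nat_lit 1) (nat_lit 10) (nat_lit 2) (nat_lit 1) (nat_lit 6) true (nat_lit 0) true (nat_lit 6) true (nat_lit 4) true (nat_lit 10) true (nat_lit 11) (.s true (nat_lit 1) (nat_lit 9) (nat_lit 2) (nat_lit 2) (nat_lit 5) true (nat_lit 1) true (nat_lit 7) true (nat_lit 4) true (nat_lit 10) true (nat_lit 10) (.s false (nat_lit 1) (nat_lit 24) (nat_lit 1) (nat_lit 2) (nat_lit 2) true (nat_lit 7) true (nat_lit 10) false (nat_lit 1) true (nat_lit 11) true (nat_lit 10) (.s false (nat_lit 1) (nat_lit 38) (nat_lit 0) (nat_lit 1) (nat_lit 1) true (nat_lit 9) true (nat_lit 11) false (nat_lit 5) true (nat_lit 12) true (nat_lit 11) (.e false (nat_lit 1) (nat_lit 25) (nat_lit 15) (nat_lit 1) (.e false (nat_lit 1) (nat_lit 47) (nat_lit 6) (nat_lit 6) (.e false (nat_lit 2) (nat_lit 98) (nat_lit 2) (nat_lit 10) (.e false (nat_lit 1) (nat_lit 99) (nat_lit 2) (nat_lit 10) (.e true (nat_lit 1) (nat_lit 100) (nat_lit 2) (nat_lit 10) (.e true (nat_lit 1) (nat_lit 101) (nat_lit 2) (nat_lit 10) (.e false (nat_lit 2) (nat_lit 103) (nat_lit 2) (nat_lit 10) (.e true (nat_lit 2) (nat_lit 104) (nat_lit 2) (nat_lit 10) dR2_i28))))))))))))))) (.nd .leaf (nat_lit 137217) (nat_lit 388) (.p (nat_lit 177) (nat_lit 3) (.p (nat_lit 178) (nat_lit 3) (.n (nat_lit 179) (nat_lit 1) (.n (nat_lit 180) (nat_lit 3) (.n (nat_lit 181) (nat_lit 3) (.n (nat_lit 182) (nat_lit 3) (.p (nat_lit 185) (nat_lit 2) (.n (nat_lit 186) (nat_lit 1) (.p (nat_lit 187) (nat_lit 3) (.p (nat_lit 189) (nat_lit 3) (.p (nat_lit 191) (nat_lit 1) (.p (nat_lit 192) (nat_lit 2) (.p (nat_lit 194) (nat_lit 3) (.p (nat_lit 195) (nat_lit 1) (.n (nat_lit 197) (nat_lit 2) (.p (nat_lit 199) (nat_lit 2) (.n (nat_lit 203) (nat_lit 1) (.n (nat_lit 204) (nat_lit 3) (.n (nat_lit 206) (nat_lit 2) .z))))))))))))))))))) (.ct dR2_c292 (nat_lit 1) (nat_lit 11) (.s false (nat_lit 2) (nat_lit 5) (nat_lit 4) (nat_lit 2) (nat_lit 5) false (nat_lit 1) true (nat_lit 7) true (nat_lit 7) true (nat_lit 8) true (nat_lit 10) (.s false (nat_lit 1) (nat_lit 6) (nat_lit 1) (nat_lit 6) (nat_lit 3) true (nat_lit 5) true (nat_lit 9) true (nat_lit 6) true (nat_lit 11) true (nat_lit 6) (.s false (nat_lit 3) (nat_lit 6) (nat_lit 3) (nat_lit 5) (nat_lit 2) true (nat_lit 4) true (nat_lit 10) true (nat_lit 6) true (nat_lit 9) true (nat_lit 7) (.s false (nat_lit 2) (nat_lit 10) (nat_lit 1) (nat_lit 2) (nat_lit 6) true (nat_lit 1) true (nat_lit 6) true (nat_lit 4) true (nat_lit 11) true (nat_lit 10) (.s true (nat_lit 1) (nat_lit 9) (nat_lit 1) (nat_lit 6) (nat_lit 2) true (nat_lit 7) true (nat_lit 10) true (nat_lit 4) true (nat_lit 11) true (nat_lit 6) (.s false (nat_lit 2) (nat_lit 10) (nat_lit 1) (nat_lit 6) (nat_lit 2) true (nat_lit 7) true (nat_lit 10) true (nat_lit 4) true (nat_lit 11) true (nat_lit 6) (.s false (nat_lit 1) (nat_lit 9) (nat_lit 2) (nat_lit 5) (nat_lit 2) true (nat_lit 6) true (nat_lit 10) true (nat_lit 4) true (nat_lit 10) true (nat_lit 7) (.s true (nat_lit 3) (nat_lit 10) (nat_lit 2) (nat_lit 5) (nat_lit 2) true (nat_lit 6) true (nat_lit 10) true (nat_lit 4) true (nat_lit 10) true (nat_lit 7) (.s true (nat_lit 3) (nat_lit 10) (nat_lit 2) (nat_lit 6) (nat_lit 1) true (nat_lit 7) true (nat_lit 11) true (nat_lit 4) true (nat_lit 10) true (nat_lit 6) (.s false (nat_lit 2) (nat_lit 9) (nat_lit 5) (nat_lit 2) (nat_lit 2) true (nat_lit 1) true (nat_lit 10) true (nat_lit 4) true (nat_lit 7) true (nat_lit 10) (.s false (nat_lit 3) (nat_lit 10) (nat_lit 5) (nat_lit 2) (nat_lit 2) true (nat_lit 1) true (nat_lit 10) true (nat_lit 4) true (nat_lit 7) true (nat_lit 10) (.s true (nat_lit 1) (nat_lit 9) (nat_lit 6) (nat_lit 1) (nat_lit 2) true (nat_lit 0) true (nat_lit 10) true (nat_lit 4) true (nat_lit 6) true (nat_lit 11) (.s false (nat_lit 3) (nat_lit 11) (nat_lit 2) (nat_lit 2) (nat_lit 4) true (nat_lit 2) true (nat_lit 8) true (nat_lit 3) true (nat_lit 10) true (nat_lit 10) dR2_i31)))))))))))))) .leaf)) (nat_lit 138241) (nat_lit 397) (.p (nat_lit 177) (nat_lit 1) (.p (nat_lit 179) (nat_lit 1) (.p (nat_lit 180) (nat_lit 3) (.n (nat_lit 181) (nat_lit 2) (.p (nat_lit 182) (nat_lit 1) (.n (nat_lit 183) (nat_lit 2) (.p (nat_lit 184) (nat_lit 2) (.p (nat_lit 185) (nat_lit 3) (.n (nat_lit 186) (nat_lit 2) (.p (nat_lit 187) (nat_lit 3) (.p (nat_lit 188) (nat_lit 2) (.n (nat_lit 189) (nat_lit 2) (.n (nat_lit 191) (nat_lit 3) (.p (nat_lit 192) (nat_lit 1) (.p (nat_lit 194) (nat_lit 2) (.n (nat_lit 195) (nat_lit 1) (.n (nat_lit 197) (nat_lit 2) (.p (nat_lit 198) (nat_lit 1) (.p (nat_lit 201) (nat_lit 1) (.p (nat_lit 202) (nat_lit 1) (.n (nat_lit 203) (nat_lit 1) (.n (nat_lit 204) (nat_lit 2) (.p (nat_lit 205) (nat_lit 1) (.n (nat_lit 206) (nat_lit 1) .z)))))))))))))))))))))))) (.ct dR2_c292 (nat_lit 1) (nat_lit 11) (.s false (nat_lit 1) (nat_lit 10) (nat_lit 2) (nat_lit 1) (nat_lit 6) true (nat_lit 0) true (nat_lit 6) true (nat_lit 4) true (nat_lit 10) true (nat_lit 11) (.s false (nat_lit 1) (nat_lit 10) (nat_lit 2) (nat_lit 2) (nat_lit 5) true (nat_lit 1) true (nat_lit 7) true (nat_lit 4) true (nat_lit 10) true (nat_lit 10) (.s true (nat_lit 3) (nat_lit 10) (nat_lit 2) (nat_lit 5) (nat_lit 2) true (nat_lit 6) true (nat_lit 10) true (nat_lit 4) true (nat_lit 10) true (nat_lit 7) (.s true (nat_lit 3) (nat_lit 9) (nat_lit 2) (nat_lit 6) (nat_lit 1) true (nat_lit 7) true (nat_lit 11) true (nat_lit 4) true (nat_lit 10) true (nat_lit 6) (.s false (nat_lit 3) (nat_lit 10) (nat_lit 5) (nat_lit 2) (nat_lit 2) true (nat_lit 1) true (nat_lit 10) true (nat_lit 4) true (nat_lit 7) true (nat_lit 10) (.s false (nat_lit 3) (nat_lit 13) (nat_lit 5) (nat_lit 2) (nat_lit 1) true (nat_lit 3) true (nat_lit 11) true (nat_lit 2) true (nat_lit 7) true (nat_lit 10) (.s false (nat_lit 3) (nat_lit 14) (nat_lit 0) (nat_lit 5) (nat_lit 2) true (nat_lit 8) true (nat_lit 10) true (nat_lit 1) true (nat_lit 12) true (nat_lit 7) (.s true (nat_lit 3) (nat_lit 15) (nat_lit 1) (nat_lit 4) (nat_lit 2) true (nat_lit 7) true (nat_lit 10) true (nat_lit 1) true (nat_lit 11) true (nat_lit 8) (.s false (nat_lit 3) (nat_lit 14) (nat_lit 2) (nat_lit 1) (nat_lit 4) true (nat_lit 2) true (nat_lit 8) true (nat_lit 1) true (nat_lit 10) true (nat_lit 11) (.s false (nat_lit 3) (nat_lit 16) (nat_lit 2) (nat_lit 1) (nat_lit 3) true (nat_lit 4) true (nat_lit 9) true (nat_lit 0) true (nat_lit 10) true (nat_lit 11) (.s false (nat_lit 3) (nat_lit 16) (nat_lit 2) (nat_lit 3) (nat_lit 1) true (nat_lit 7) true (nat_lit 11) true (nat_lit 0) true (nat_lit 10) true (nat_lit 9) (.s true (nat_lit 3) (nat_lit 16) (nat_lit 4) (nat_lit 1) (nat_lit 1) true (nat_lit 4) true (nat_lit 11) true (nat_lit 0) true (nat_lit 8) true (nat_lit 11) (.s false (nat_lit 3) (nat_lit 24) (nat_lit 1) (nat_lit 2) (nat_lit 2) true (nat_lit 7) true (nat_lit 10) false (nat_lit 1) true (nat_lit 11) true (nat_lit 10) (.s true (nat_lit 3) (nat_lit 25) (nat_lit 1) (nat_lit 2) (nat_lit 2) true (nat_lit 7) true (nat_lit 10) false (nat_lit 1) true (nat_lit 11) true (nat_lit 10) (.s true (nat_lit 2) (nat_lit 25) (nat_lit 2) (nat_lit 1) (nat_lit 2) true (nat_lit 6) true (nat_lit 10) false (nat_lit 1) true (nat_lit 10) true (nat_lit 11) (.s false (nat_lit 3) (nat_lit 27) (nat_lit 2) (nat_lit 1) (nat_lit 2) true (nat_lit 6) true (nat_lit 10) false (nat_lit 1) true (nat_lit 10) true (nat_lit 11) dR2_i33))))))))))))))))) (.nd (.nd .leaf (nat_lit 139265) (nat_lit 379) (.n (nat_lit 178) (nat_lit 3) (.p (nat_lit 181) (nat_lit 2) (.p (nat_lit 185) (nat_lit 1) (.n (nat_lit 186) (nat_lit 2) (.n (nat_lit 188) (nat_lit 1) (.p (nat_lit 191) (nat_lit 1) (.n (nat_lit 194) (nat_lit 1) (.p (nat_lit 195) (nat_lit 3) (.p (nat_lit 198) (nat_lit 1) (.p (nat_lit 204) (nat_lit 1) (.p (nat_lit 206) (nat_lit 1) .z))))))))))) (.ct dR2_c292 (nat_lit 1) (nat_lit 11) (.s true (nat_lit 3) (nat_lit 6) (nat_lit 1) (nat_lit 6) (nat_lit 3) true (nat_lit 5) true (nat_lit 9) true (nat_lit 6) true (nat_lit 11) true (nat_lit 6) (.s true (nat_lit 1) (nat_lit 15) (nat_lit 2) (nat_lit 3) (nat_lit 2) true (nat_lit 6) true (nat_lit 10) true (nat_lit 1) true (nat_lit 10) true (nat_lit 9) (.s true (nat_lit 1) (nat_lit 16) (nat_lit 1) (nat_lit 2) (nat_lit 3) true (nat_lit 5) true (nat_lit 9) true (nat_lit 0) true (nat_lit 11) true (nat_lit 10) (.s true (nat_lit 1) (nat_lit 21) (nat_lit 2) (nat_lit 2) (nat_lit 2) true (nat_lit 6) true (nat_lit 10) false (nat_lit 0) true (nat_lit 10) true (nat_lit 10) (.e false (nat_lit 2) (nat_lit 44) (nat_lit 6) (nat_lit 6) (.e true (nat_lit 1) (nat_lit 46) (nat_lit 6) (nat_lit 6) (.e false (nat_lit 1) (nat_lit 45) (nat_lit 6) (nat_lit 6) (.e false (nat_lit 3) (nat_lit 52) (nat_lit 6) (nat_lit 6) (.e false (nat_lit 1) (nat_lit 23) (nat_lit 15) (nat_lit 1) (.e true (nat_lit 2) (nat_lit 98) (nat_lit 2) (nat_lit 10) (.e true (nat_lit 2) (nat_lit 101) (nat_lit 2) (nat_lit 10) (.e true (nat_lit 3) (nat_lit 106) (nat_lit 2) (nat_lit 10) (.e false (nat_lit 2) (nat_lit 115) (nat_lit 2) (nat_lit 10) (.e true (nat_lit 1) (nat_lit 38) (nat_lit 7) (nat_lit 5) (.e true (nat_lit 1) (nat_lit 18) (nat_lit 16) (nat_lit 0) (.e false (nat_lit 1) (nat_lit 20) (nat_lit 16) (nat_lit 0) (.e true (nat_lit 1) (nat_lit 114) (nat_lit 2) (nat_lit 10) (.e false (nat_lit 1) (nat_lit 116) (nat_lit 2) (nat_lit 10) (.u (nat_lit 2) (.n (nat_lit 4) (nat_lit 1) (.p (nat_lit 17) (nat_lit 1) (.n (nat_lit 66) (nat_lit 1) (.n (nat_lit 69) (nat_lit 1) (.n (nat_lit 74) (nat_lit 1) (.n (nat_lit 93) (nat_lit 1) (.n (nat_lit 94) (nat_lit 1) (.p (nat_lit 105) (nat_lit 1) (.n (nat_lit 114) (nat_lit 1) (.p (nat_lit 125) (nat_lit 1) .z)))))))))) .nil)))))))))))))))))))) .leaf) (nat_lit 140289) (nat_lit 423) (.n (nat_lit 177) (nat_lit 1) (.p (nat_lit 178) (nat_lit 3) (.n (nat_lit 179) (nat_lit 2) (.p (nat_lit 180) (nat_lit 3) (.p (nat_lit 181) (nat_lit 1) (.n (nat_lit 182) (nat_lit 2) (.n (nat_lit 183) (nat_lit 2) (.p (nat_lit 184) (nat_lit 2) (.p (nat_lit 186) (nat_lit 2) (.n (nat_lit 187) (nat_lit 1) (.n (nat_lit 189) (nat_lit 2) (.n (nat_lit 191) (nat_lit 2) (.p (nat_lit 192) (nat_lit 1) (.p (nat_lit 194) (nat_lit 3) (.n (nat_lit 197) (nat_lit 2) (.p (nat_lit 198) (nat_lit 1) (.p (nat_lit 199) (nat_lit 2) (.p (nat_lit 203) (nat_lit 2) (.p (nat_lit 204) (nat_lit 1) (.n (nat_lit 205) (nat_lit 3) (.n (nat_lit 206) (nat_lit 1) .z))))))))))))))))))))) (.ct dR2_c292 (nat_lit 1) (nat_lit 11) (.s false (nat_lit 1) (nat_lit 12) (nat_lit 1) (nat_lit 1) (nat_lit 6) true (nat_lit 1) true (nat_lit 6) true (nat_lit 2) true (nat_lit 11) true (nat_lit 11) (.e false (nat_lit 1) (nat_lit 26) (nat_lit 15) (nat_lit 1) (.e false (nat_lit 1) (nat_lit 50) (nat_lit 6) (nat_lit 6) (.e true (nat_lit 3) (nat_lit 124) (nat_lit 1) (nat_lit 11) (.e true (nat_lit 2) (nat_lit 125) (nat_lit 1) (nat_lit 11) (.e false (nat_lit 1) (nat_lit 127) (nat_lit 1) (nat_lit 11) (.e false (nat_lit 3) (nat_lit 128) (nat_lit 1) (nat_lit 11) (.e true (nat_lit 2) (nat_lit 129) (nat_lit 1) (nat_lit 11) (.e false (nat_lit 1) (nat_lit 126) (nat_lit 1) (nat_lit 11) (.e false (nat_lit 1) (nat_lit 132) (nat_lit 1) (nat_lit 11) (.e true (nat_lit 2) (nat_lit 133) (nat_lit 1) (nat_lit 11) (.u (nat_lit 2) (.n (nat_lit 0) (nat_lit 1) (.p (nat_lit 1) (nat_lit 1) (.n (nat_lit 2) (nat_lit 1) (.p (nat_lit 3) (nat_lit 1) (.n (nat_lit 4) (nat_lit 3) (.p (nat_lit 5) (nat_lit 1) (.p (nat_lit 8) (nat_lit 2) (.n (nat_lit 9) (nat_lit 2) (.p (nat_lit 11) (nat_lit 1) (.n (nat_lit 12) (nat_lit 1) (.n (nat_lit 14) (nat_lit 1) (.n (nat_lit 15) (nat_lit 2) (.p (nat_lit 18) (nat_lit 2) (.n (nat_lit 21) (nat_lit 1) (.n (nat_lit 22) (nat_lit 1) (.p (nat_lit 23) (nat_lit 1) (.p (nat_lit 27) (nat_lit 1) (.p (nat_lit 28) (nat_lit 1) (.p (nat_lit 29) (nat_lit 1) .z))))))))))))))))))) .nil))))))))))))) .leaf))) (nat_lit 141313) (nat_lit 429) (.p (nat_lit 177) (nat_lit 3) (.n (nat_lit 178) (nat_lit 2) (.n (nat_lit 179) (nat_lit 2) (.p (nat_lit 180) (nat_lit 3) (.p (nat_lit 181) (nat_lit 1) (.n (nat_lit 182) (nat_lit 2) (.n (nat_lit 183) (nat_lit 1) (.p (nat_lit 184) (nat_lit 1) (.p (nat_lit 185) (nat_lit 2) (.p (nat_lit 186) (nat_lit 1) (.n (nat_lit 187) (nat_lit 3) (.p (nat_lit 188) (nat_lit 2) (.n (nat_lit 189) (nat_lit 2) (.n (nat_lit 191) (nat_lit 3) (.p (nat_lit 192) (nat_lit 1) (.n (nat_lit 194) (nat_lit 3) (.p (nat_lit 195) (nat_lit 2) (.p (nat_lit 197) (nat_lit 1) (.p (nat_lit 199) (nat_lit 2) (.n (nat_lit 203) (nat_lit 2) (.p (nat_lit 204) (nat_lit 3) (.n (nat_lit 205) (nat_lit 3) (.n (nat_lit 206) (nat_lit 2) .z))))))))))))))))))))))) (.ct dR2_c292 (nat_lit 1) (nat_lit 11) (.s false (nat_lit 1) (nat_lit 25) (nat_lit 1) (nat_lit 2) (nat_lit 2) true (nat_lit 7) true (nat_lit 10) false (nat_lit 1) true (nat_lit 11) true (nat_lit 10) (.e false (nat_lit 1) (nat_lit 60) (nat_lit 5) (nat_lit 7) (.e false (nat_lit 1) (nat_lit 102) (nat_lit 2) (nat_lit 10) (.e false (nat_lit 3) (nat_lit 106) (nat_lit 2) (nat_lit 10) (.e false (nat_lit 1) (nat_lit 25) (nat_lit 14) (nat_lit 1) (.e false (nat_lit 1) (nat_lit 97) (nat_lit 2) (nat_lit 10) (.e true (nat_lit 2) (nat_lit 99) (nat_lit 2) (nat_lit 10) (.e false (nat_lit 2) (nat_lit 100) (nat_lit 2) (nat_lit 10) (.e true (nat_lit 2) (nat_lit 101) (nat_lit 2) (nat_lit 10) (.e true (nat_lit 3) (nat_lit 103) (nat_lit 2) (nat_lit 10) (.e false (nat_lit 3) (nat_lit 104) (nat_lit 2) (nat_lit 10) (.e false (nat_lit 3) (nat_lit 105) (nat_lit 2) (nat_lit 10) (.e true (nat_lit 1) (nat_lit 107) (nat_lit 2) (nat_lit 10) (.e false (nat_lit 1) (nat_lit 108) (nat_lit 2) (nat_lit 10) (.e false (nat_lit 1) (nat_lit 109) (nat_lit 2) (nat_lit 10) (.e true (nat_lit 2) (nat_lit 111) (nat_lit 2) (nat_lit 10) (.e false (nat_lit 1) (nat_lit 114) (nat_lit 2) (nat_lit 10) (.e false (nat_lit 3) (nat_lit 115) (nat_lit 2) (nat_lit 10) (.e false (nat_lit 1) (nat_lit 117) (nat_lit 2) (nat_lit 10) (.u (nat_lit 2) (.p (nat_lit 10) (nat_lit 1) (.n (nat_lit 11) (nat_lit 1) (.p (nat_lit 12) (nat_lit 1) (.p (nat_lit 17) (nat_lit 1) (.p (nat_lit 26) (nat_lit 1) (.n (nat_lit 105) (nat_lit 1) .z)))))) .nil))))))))))))))))))))) (.nd (.nd (.nd (.nd .leaf (nat_lit 142337) (nat_lit 366) (.p (nat_lit 202) (nat_lit 1) .z) .df .leaf) (nat_lit 143360) (nat_lit 438) (.n (nat_lit 177) (nat_lit 3) (.p (nat_lit 178) (nat_lit 1) (.n (nat_lit 179) (nat_lit 1) (.n (nat_lit 181) (nat_lit 1) (.p (nat_lit 182) (nat_lit 2) (.n (nat_lit 183) (nat_lit 2) (.n (nat_lit 184) (nat_lit 3) (.p (nat_lit 185) (nat_lit 1) (.n (nat_lit 186) (nat_lit 3) (.n (nat_lit 187) (nat_lit 3) (.p (nat_lit 188) (nat_lit 2) (.p (nat_lit 189) (nat_lit 3) (.n (nat_lit 190) (nat_lit 2) (.n (nat_lit 191) (nat_lit 3) (.p (nat_lit 192) (nat_lit 2) (.p (nat_lit 193) (nat_lit 2) (.n (nat_lit 194) (nat_lit 1) (.n (nat_lit 196) (nat_lit 2) (.n (nat_lit 197) (nat_lit 2) (.p (nat_lit 198) (nat_lit 1) (.p (nat_lit 201) (nat_lit 1) (.n (nat_lit 202) (nat_lit 1) (.p (nat_lit 203) (nat_lit 1) (.p (nat_lit 204) (nat_lit 1) (.n (nat_lit 205) (nat_lit 3) (.n (nat_lit 206) (nat_lit 1) .z)))))))))))))))))))))))))) (.ct dR2_c292 (nat_lit 1) (nat_lit 12) (.s true (nat_lit 1) (nat_lit 29) (nat_lit 2) (nat_lit 0) (nat_lit 2) true (nat_lit 6) true (nat_lit 10) false (nat_lit 2) true (nat_lit 10) true (nat_lit 12) (.e false (nat_lit 1) (nat_lit 51) (nat_lit 6) (nat_lit 6) (.e false (nat_lit 1) (nat_lit 29) (nat_lit 12) (nat_lit 2) (.e true (nat_lit 3) (nat_lit 97) (nat_lit 2) (nat_lit 10) (.e true (nat_lit 3) (nat_lit 98) (nat_lit 2) (nat_lit 10) (.e true (nat_lit 1) (nat_lit 100) (nat_lit 2) (nat_lit 10) (.e true (nat_lit 2) (nat_lit 101) (nat_lit 2) (nat_lit 10) (.e true (nat_lit 1) (nat_lit 102) (nat_lit 2) (nat_lit 10) (.e false (nat_lit 2) (nat_lit 103) (nat_lit 2) (nat_lit 10) (.e true (nat_lit 3) (nat_lit 104) (nat_lit 2) (nat_lit 10) (.e false (nat_lit 3) (nat_lit 105) (nat_lit 2) (nat_lit 10) (.e true (nat_lit 1) (nat_lit 106) (nat_lit 2) (nat_lit 10) (.e true (nat_lit 3) (nat_lit 107) (nat_lit 2) (nat_lit 10) (.e false (nat_lit 3) (nat_lit 108) (nat_lit 2) (nat_lit 10) (.e true (nat_lit 2) (nat_lit 109) (nat_lit 2) (nat_lit 10) (.e false (nat_lit 1) (nat_lit 112) (nat_lit 2) (nat_lit 10) (.e false (nat_lit 1) (nat_lit 114) (nat_lit 2) (nat_lit 10) (.e true (nat_lit 3) (nat_lit 115) (nat_lit 2) (nat_lit 10) (.e false (nat_lit 1) (nat_lit 116) (nat_lit 2) (nat_lit 10) (.e false (nat_lit 2) (nat_lit 117) (nat_lit 2) (nat_lit 10) (.u (nat_lit 2) (.n (nat_lit 1) (nat_lit 1) (.p (nat_lit 6) (nat_lit 1) (.p (nat_lit 9) (nat_lit 1) (.n (nat_lit 12) (nat_lit 1) (.p (nat_lit 17) (nat_lit 1) (.p (nat_lit 20) (nat_lit 1) (.n (nat_lit 26) (nat_lit 1) (.p (nat_lit 28) (nat_lit 1) .z)))))))) .nil)))))))))))))))))))))) (.nd .leaf (nat_lit 143361) (nat_lit 449) (.p (nat_lit 213) (nat_lit 1) .z) .df .leaf)) (nat_lit 144384) (nat_lit 441) (.p (nat_lit 177) (nat_lit 2) (.n (nat_lit 178) (nat_lit 1) (.n (nat_lit 179) (nat_lit 1) (.n (nat_lit 180) (nat_lit 1) (.n (nat_lit 181) (nat_lit 3) (.n (nat_lit 182) (nat_lit 1) (.n (nat_lit 183) (nat_lit 1) (.p (nat_lit 184) (nat_lit 1) (.n (nat_lit 185) (nat_lit 2) (.n (nat_lit 186) (nat_lit 1) (.p (nat_lit 187) (nat_lit 3) (.n (nat_lit 188) (nat_lit 3) (.p (nat_lit 189) (nat_lit 3) (.p (nat_lit 192) (nat_lit 2) (.n (nat_lit 194) (nat_lit 3) (.n (nat_lit 195) (nat_lit 3) (.n (nat_lit 197) (nat_lit 1) (.n (nat_lit 198) (nat_lit 2) (.p (nat_lit 200) (nat_lit 2) (.n (nat_lit 201) (nat_lit 1) (.n (nat_lit 202) (nat_lit 1) (.n (nat_lit 203) (nat_lit 2) (.n (nat_lit 204) (nat_lit 1) (.n (nat_lit 205) (nat_lit 2) (.p (nat_lit 206) (nat_lit 2) .z))))))))))))))))))))))))) (.ct dR2_c292 (nat_lit 1) (nat_lit 12) (.s true (nat_lit 1) (nat_lit 30) (nat_lit 2) (nat_lit 0) (nat_lit 2) true (nat_lit 6) true (nat_lit 10) false (nat_lit 2) true (nat_lit 10) true (nat_lit 12) (.e true (nat_lit 2) (nat_lit 45) (nat_lit 6) (nat_lit 6) dR2_i34))) (.nd (.nd .leaf (nat_lit 144385) (nat_lit 450) (.p (nat_lit 214) (nat_lit 1) .z) .df .leaf) (nat_lit 145408) (nat_lit 440) (.p (nat_lit 177) (nat_lit 1) (.p (nat_lit 179) (nat_lit 2) (.n (nat_lit 180) (nat_lit 1) (.p (nat_lit 181) (nat_lit 3) (.n (nat_lit 182) (nat_lit 2) (.n (nat_lit 183) (nat_lit 2) (.p (nat_lit 184) (nat_lit 2) (.n (nat_lit 185) (nat_lit 3) (.p (nat_lit 186) (nat_lit 3) (.n (nat_lit 187) (nat_lit 1) (.n (nat_lit 189) (nat_lit 2) (.p (nat_lit 192) (nat_lit 1) (.p (nat_lit 194) (nat_lit 3) (.n (nat_lit 197) (nat_lit 2) (.n (nat_lit 198) (nat_lit 3) (.n (nat_lit 200) (nat_lit 3) (.n (nat_lit 201) (nat_lit 2) (.n (nat_lit 202) (nat_lit 2) (.n (nat_lit 203) (nat_lit 2) (.p (nat_lit 204) (nat_lit 1) (.n (nat_lit 205) (nat_lit 3) (.p (nat_lit 206) (nat_lit 3) .z)))))))))))))))))))))) (.ct dR2_c292 (nat_lit 1) (nat_lit 12) dR2_i35) .leaf)) (nat_lit 145409) (nat_lit 464) (.p (nat_lit 207) (nat_lit 2) (.p (nat_lit 208) (nat_lit 3) (.n (nat_lit 209) (nat_lit 2) (.p (nat_lit 210) (nat_lit 3) (.p (nat_lit 211) (nat_lit 3) (.n (nat_lit 212) (nat_lit 3) (.p (nat_lit 214) (nat_lit 2) (.p (nat_lit 215) (nat_lit 1) .z)))))))) (.ct dR2_c52 (nat_lit 1) (nat_lit 6) (.s true (nat_lit 2) (nat_lit 16) (nat_lit 1) (nat_lit 5) (nat_lit 1) false (nat_lit 7) true (nat_lit 6) true (nat_lit 0) true (nat_lit 6) true (nat_lit 4) (.e true (nat_lit 1) (nat_lit 140) (nat_lit 1) (nat_lit 6) (.e false (nat_lit 1) (nat_lit 141) (nat_lit 1) (nat_lit 6) (.e false (nat_lit 2) (nat_lit 143) (nat_lit 1) (nat_lit 6) (.e true (nat_lit 2) (nat_lit 22) (nat_lit 16) (nat_lit 0) (.e false (nat_lit 2) (nat_lit 69) (nat_lit 5) (nat_lit 4) (.e false (nat_lit 2) (nat_lit 70) (nat_lit 5) (nat_lit 4) (.e true (nat_lit 2) (nat_lit 73) (nat_lit 5) (nat_lit 4) (.u (nat_lit 2) (.p (nat_lit 1) (nat_lit 1) (.n (nat_lit 2) (nat_lit 2) (.n (nat_lit 3) (nat_lit 3) (.n (nat_lit 4) (nat_lit 1) (.p (nat_lit 5) (nat_lit 1) (.n (nat_lit 6) (nat_lit 1) (.n (nat_lit 7) (nat_lit 1) (.n (nat_lit 8) (nat_lit 1) (.p (nat_lit 33) (nat_lit 1) (.p (nat_lit 34) (nat_lit 1) (.p (nat_lit 35) (nat_lit 1) .z))))))))))) .nil)))))))))) (.nd (.nd (.nd .leaf (nat_lit 146432) (nat_lit 416) (.n (nat_lit 178) (nat_lit 1) (.p (nat_lit 179) (nat_lit 2) (.p (nat_lit 180) (nat_lit 1) (.p (nat_lit 181) (nat_lit 1) (.p (nat_lit 182) (nat_lit 2) (.p (nat_lit 183) (nat_lit 1) (.p (nat_lit 185) (nat_lit 1) (.n (nat_lit 186) (nat_lit 1) (.n (nat_lit 187) (nat_lit 3) (.p (nat_lit 188) (nat_lit 3) (.p (nat_lit 189) (nat_lit 1) (.n (nat_lit 190) (nat_lit 1) (.n (nat_lit 191) (nat_lit 2) (.p (nat_lit 192) (nat_lit 3) (.p (nat_lit 193) (nat_lit 1) (.p (nat_lit 194) (nat_lit 2) (.n (nat_lit 195) (nat_lit 3) (.n (nat_lit 196) (nat_lit 1) (.n (nat_lit 197) (nat_lit 3) (.p (nat_lit 200) (nat_lit 1) (.n (nat_lit 202) (nat_lit 1) (.p (nat_lit 204) (nat_lit 1) (.n (nat_lit 205) (nat_lit 2) .z))))))))))))))))))))))) (.ct dR2_c292 (nat_lit 1) (nat_lit 12) (.s true (nat_lit 1) (nat_lit 14) (nat_lit 1) (nat_lit 4) (nat_lit 2) true (nat_lit 7) true (nat_lit 10) true (nat_lit 1) true (nat_lit 11) true (nat_lit 8) (.s true (nat_lit 1) (nat_lit 24) (nat_lit 1) (nat_lit 2) (nat_lit 2) true (nat_lit 7) true (nat_lit 10) false (nat_lit 1) true (nat_lit 11) true (nat_lit 10) (.s true (nat_lit 1) (nat_lit 35) (nat_lit 1) (nat_lit 2) (nat_lit 0) true (nat_lit 9) true (nat_lit 12) false (nat_lit 4) true (nat_lit 11) true (nat_lit 10) (.s true (nat_lit 1) (nat_lit 35) (nat_lit 2) (nat_lit 1) (nat_lit 0) true (nat_lit 8) true (nat_lit 12) false (nat_lit 4) true (nat_lit 10) true (nat_lit 11) (.e false (nat_lit 1) (nat_lit 58) (nat_lit 5) (nat_lit 7) (.e false (nat_lit 1) (nat_lit 61) (nat_lit 5) (nat_lit 7) (.e true (nat_lit 1) (nat_lit 62) (nat_lit 5) (nat_lit 7) (.e false (nat_lit 1) (nat_lit 63) (nat_lit 5) (nat_lit 7) (.e false (nat_lit 1) (nat_lit 64) (nat_lit 5) (nat_lit 7) (.e true (nat_lit 1) (nat_lit 67) (nat_lit 5) (nat_lit 7) (.e true (nat_lit 2) (nat_lit 97) (nat_lit 2) (nat_lit 10) (.e true (nat_lit 1) (nat_lit 98) (nat_lit 2) (nat_lit 10) (.e true (nat_lit 1) (nat_lit 99) (nat_lit 2) (nat_lit 10) (.e false (nat_lit 1) (nat_lit 100) (nat_lit 2) (nat_lit 10) (.e true (nat_lit 2) (nat_lit 102) (nat_lit 2) (nat_lit 10) (.e false (nat_lit 2) (nat_lit 103) (nat_lit 2) (nat_lit 10) dR2_i36))))))))))))))))) .leaf) (nat_lit 146433) (nat_lit 455) (.p (nat_lit 207) (nat_lit 2) (.p (nat_lit 208) (nat_lit 3) (.n (nat_lit 209) (nat_lit 3) (.n (nat_lit 210) (nat_lit 1) (.n (nat_lit 211) (nat_lit 1) (.p (nat_lit 212) (nat_lit 1) (.n (nat_lit 213) (nat_lit 3) (.n (nat_lit 214) (nat_lit 3) (.n (nat_lit 215) (nat_lit 3) .z))))))))) (.ct dR2_c52 (nat_lit 1) (nat_lit 6) (.s false (nat_lit 3) (nat_lit 11) (nat_lit 2) (nat_lit 1) (nat_lit 6) true (nat_lit 0) true (nat_lit 3) true (nat_lit 2) true (nat_lit 5) true (nat_lit 6) (.s false (nat_lit 3) (nat_lit 11) (nat_lit 2) (nat_lit 2) (nat_lit 5) true (nat_lit 1) true (nat_lit 4) true (nat_lit 2) true (nat_lit 5) true (nat_lit 5) (.s false (nat_lit 2) (nat_lit 14) (nat_lit 1) (nat_lit 5) (nat_lit 2) true (nat_lit 4) true (nat_lit 5) true (nat_lit 1) true (nat_lit 6) true (nat_lit 4) (.s true (nat_lit 2) (nat_lit 14) (nat_lit 2) (nat_lit 5) (nat_lit 1) true (nat_lit 4) true (nat_lit 6) true (nat_lit 1) true (nat_lit 5) true (nat_lit 4) (.s false (nat_lit 3) (nat_lit 14) (nat_lit 5) (nat_lit 1) (nat_lit 2) true (nat_lit 1) true (nat_lit 5) true (nat_lit 1) true (nat_lit 4) true (nat_lit 6) (.s false (nat_lit 3) (nat_lit 16) (nat_lit 1) (nat_lit 5) (nat_lit 1) false (nat_lit 7) true (nat_lit 6) true (nat_lit 0) true (nat_lit 6) true (nat_lit 4) (.s true (nat_lit 2) (nat_lit 30) (nat_lit 1) (nat_lit 2) (nat_lit 2) true (nat_lit 4) true (nat_lit 5) false (nat_lit 1) true (nat_lit 6) true (nat_lit 5) (.s false (nat_lit 2) (nat_lit 35) (nat_lit 1) (nat_lit 1) (nat_lit 2) true (nat_lit 4) true (nat_lit 5) false (nat_lit 2) true (nat_lit 6) true (nat_lit 6) (.e true (nat_lit 1) (nat_lit 22) (nat_lit 16) (nat_lit 0) (.e false (nat_lit 3) (nat_lit 56) (nat_lit 6) (nat_lit 3) (.e true (nat_lit 1) (nat_lit 118) (nat_lit 2) (nat_lit 5) (.e false (nat_lit 3) (nat_lit 119) (nat_lit 2) (nat_lit 5) (.e false (nat_lit 2) (nat_lit 121) (nat_lit 2) (nat_lit 5) (.e true (nat_lit 2) (nat_lit 123) (nat_lit 2) (nat_lit 5) (.e true (nat_lit 3) (nat_lit 141) (nat_lit 1) (nat_lit 6) (.e true (nat_lit 3) (nat_lit 29) (nat_lit 14) (nat_lit 1) (.e true (nat_lit 3) (nat_lit 122) (nat_lit 2) (nat_lit 5) (.u (nat_lit 2) (.n (nat_lit 0) (nat_lit 3) (.p (nat_lit 2) (nat_lit 3) (.n (nat_lit 4) (nat_lit 1) (.p (nat_lit 8) (nat_lit 2) (.p (nat_lit 9) (nat_lit 1) (.p (nat_lit 10) (nat_lit 1) (.n (nat_lit 11) (nat_lit 1) (.p (nat_lit 25) (nat_lit 1) (.p (nat_lit 27) (nat_lit 1) (.p (nat_lit 28) (nat_lit 3) (.n (nat_lit 29) (nat_lit 3) (.p (nat_lit 30) (nat_lit 1) (.p (nat_lit 31) (nat_lit 1) (.n (nat_lit 33) (nat_lit 1) (.n (nat_lit 34) (nat_lit 4) (.n (nat_lit 35) (nat_lit 3) (.n (nat_lit 38) (nat_lit 1) .z))))))))))))))))) .nil))))))))))))))))))) (.nd .leaf (nat_lit 147456) (nat_lit 389) (.n (nat_lit 177) (nat_lit 2) (.n (nat_lit 178) (nat_lit 2) (.p (nat_lit 179) (nat_lit 1) (.n (nat_lit 180) (nat_lit 1) (.p (nat_lit 181) (nat_lit 3) (.n (nat_lit 182) (nat_lit 1) (.n (nat_lit 183) (nat_lit 1) (.p (nat_lit 184) (nat_lit 1) (.n (nat_lit 185) (nat_lit 3) (.p (nat_lit 186) (nat_lit 2) (.p (nat_lit 187) (nat_lit 3) (.n (nat_lit 189) (nat_lit 3) (.p (nat_lit 191) (nat_lit 1) (.n (nat_lit 192) (nat_lit 2) (.n (nat_lit 194) (nat_lit 3) (.n (nat_lit 195) (nat_lit 2) (.n (nat_lit 198) (nat_lit 2) (.p (nat_lit 200) (nat_lit 2) (.n (nat_lit 201) (nat_lit 1) (.n (nat_lit 202) (nat_lit 1) (.p (nat_lit 204) (nat_lit 1) (.n (nat_lit 205) (nat_lit 3) (.p (nat_lit 206) (nat_lit 2) .z))))))))))))))))))))))) (.ct dR2_c292 (nat_lit 1) (nat_lit 12) (.s true (nat_lit 1) (nat_lit 5) (nat_lit 4) (nat_lit 2) (nat_lit 5) false (nat_lit 1) true (nat_lit 7) true (nat_lit 7) true (nat_lit 8) true (nat_lit 10) (.s true (nat_lit 1) (nat_lit 6) (nat_lit 1) (nat_lit 3) (nat_lit 6) true (nat_lit 1) true (nat_lit 6) true (nat_lit 6) true (nat_lit 11) true (nat_lit 9) (.s true (nat_lit 1) (nat_lit 6) (nat_lit 1) (nat_lit 6) (nat_lit 3) true (nat_lit 5) true (nat_lit 9) true (nat_lit 6) true (nat_lit 11) true (nat_lit 6) (.s false (nat_lit 1) (nat_lit 10) (nat_lit 1) (nat_lit 2) (nat_lit 6) true (nat_lit 1) true (nat_lit 6) true (nat_lit 4) true (nat_lit 11) true (nat_lit 10) (.s true (nat_lit 3) (nat_lit 9) (nat_lit 1) (nat_lit 6) (nat_lit 2) true (nat_lit 7) true (nat_lit 10) true (nat_lit 4) true (nat_lit 11) true (nat_lit 6) (.s true (nat_lit 1) (nat_lit 10) (nat_lit 1) (nat_lit 6) (nat_lit 2) true (nat_lit 7) true (nat_lit 10) true (nat_lit 4) true (nat_lit 11) true (nat_lit 6) (.s true (nat_lit 3) (nat_lit 9) (nat_lit 2) (nat_lit 5) (nat_lit 2) true (nat_lit 6) true (nat_lit 10) true (nat_lit 4) true (nat_lit 10) true (nat_lit 7) (.s true (nat_lit 1) (nat_lit 10) (nat_lit 2) (nat_lit 6) (nat_lit 1) true (nat_lit 7) true (nat_lit 11) true (nat_lit 4) true (nat_lit 10) true (nat_lit 6) (.s false (nat_lit 3) (nat_lit 9) (nat_lit 5) (nat_lit 2) (nat_lit 2) true (nat_lit 1) true (nat_lit 10) true (nat_lit 4) true (nat_lit 7) true (nat_lit 10) (.s false (nat_lit 1) (nat_lit 10) (nat_lit 5) (nat_lit 2) (nat_lit 2) true (nat_lit 1) true (nat_lit 10) true (nat_lit 4) true (nat_lit 7) true (nat_lit 10) (.s true (nat_lit 3) (nat_lit 9) (nat_lit 6) (nat_lit 1) (nat_lit 2) true (nat_lit 0) true (nat_lit 10) true (nat_lit 4) true (nat_lit 6) true (nat_lit 11) (.s true (nat_lit 2) (nat_lit 12) (nat_lit 1) (nat_lit 1) (nat_lit 6) true (nat_lit 1) true (nat_lit 6) true (nat_lit 2) true (nat_lit 11) true (nat_lit 11) (.s true (nat_lit 2) (nat_lit 13) (nat_lit 1) (nat_lit 1) (nat_lit 6) true (nat_lit 1) true (nat_lit 6) true (nat_lit 2) true (nat_lit 11) true (nat_lit 11) (.s false (nat_lit 1) (nat_lit 14) (nat_lit 0) (nat_lit 5) (nat_lit 2) true (nat_lit 8) true (nat_lit 10) true (nat_lit 1) true (nat_lit 12) true (nat_lit 7) (.s true (nat_lit 1) (nat_lit 14) (nat_lit 1) (nat_lit 4) (nat_lit 2) true (nat_lit 7) true (nat_lit 10) true (nat_lit 1) true (nat_lit 11) true (nat_lit 8) dR2_i38)))))))))))))))) .leaf)) (nat_lit 147457) (nat_lit 465) (.n (nat_lit 207) (nat_lit 2) (.n (nat_lit 208) (nat_lit 3) (.p (nat_lit 209) (nat_lit 2) (.n (nat_lit 210) (nat_lit 3) (.n (nat_lit 211) (nat_lit 3) (.p (nat_lit 212) (nat_lit 3) (.p (nat_lit 214) (nat_lit 1) (.n (nat_lit 215) (nat_lit 1) .z)))))))) (.ct dR2_c52 (nat_lit 1) (nat_lit 6) (.s true (nat_lit 1) (nat_lit 14) (nat_lit 1) (nat_lit 1) (nat_lit 6) true (nat_lit 1) true (nat_lit 3) true (nat_lit 1) true (nat_lit 6) true (nat_lit 6) (.e true (nat_lit 1) (nat_lit 30) (nat_lit 15) (nat_lit 1) (.e true (nat_lit 1) (nat_lit 57) (nat_lit 6) (nat_lit 3) (.e false (nat_lit 1) (nat_lit 140) (nat_lit 1) (nat_lit 6) (.e true (nat_lit 3) (nat_lit 142) (nat_lit 1) (nat_lit 6) (.e true (nat_lit 2) (nat_lit 143) (nat_lit 1) (nat_lit 6) (.e true (nat_lit 2) (nat_lit 145) (nat_lit 1) (nat_lit 6) (.u (nat_lit 2) (.n (nat_lit 0) (nat_lit 1) (.n (nat_lit 1) (nat_lit 2) (.p (nat_lit 6) (nat_lit 1) (.n (nat_lit 7) (nat_lit 1) (.p (nat_lit 8) (nat_lit 1) .z))))) .nil))))))))) (.nd (.nd .leaf (nat_lit 148480) (nat_lit 442) (.p (nat_lit 177) (nat_lit 1) (.p (nat_lit 178) (nat_lit 1) (.n (nat_lit 179) (nat_lit 1) (.p (nat_lit 180) (nat_lit 2) (.p (nat_lit 181) (nat_lit 1) (.n (nat_lit 182) (nat_lit 3) (.p (nat_lit 183) (nat_lit 1) (.n (nat_lit 184) (nat_lit 1) (.n (nat_lit 185) (nat_lit 1) (.n (nat_lit 186) (nat_lit 3) (.p (nat_lit 187) (nat_lit 1) (.n (nat_lit 188) (nat_lit 3) (.p (nat_lit 189) (nat_lit 2) (.p (nat_lit 191) (nat_lit 2) (.n (nat_lit 192) (nat_lit 1) (.n (nat_lit 194) (nat_lit 3) (.n (nat_lit 195) (nat_lit 1) (.p (nat_lit 197) (nat_lit 1) (.n (nat_lit 198) (nat_lit 3) (.n (nat_lit 200) (nat_lit 3) (.n (nat_lit 201) (nat_lit 2) (.n (nat_lit 202) (nat_lit 2) (.n (nat_lit 203) (nat_lit 3) (.p (nat_lit 205) (nat_lit 1) (.p (nat_lit 206) (nat_lit 3) .z))))))))))))))))))))))))) (.ct dR2_c292 (nat_lit 1) (nat_lit 12) (.s false (nat_lit 1) (nat_lit 29) (nat_lit 0) (nat_lit 2) (nat_lit 2) true (nat_lit 8) true (nat_lit 10) false (nat_lit 2) true (nat_lit 12) true (nat_lit 10) (.e false (nat_lit 1) (nat_lit 69) (nat_lit 4) (nat_lit 8) (.e false (nat_lit 1) (nat_lit 104) (nat_lit 2) (nat_lit 10) (.e false (nat_lit 1) (nat_lit 29) (nat_lit 12) (nat_lit 2) (.e false (nat_lit 2) (nat_lit 141) (nat_lit 0) (nat_lit 12) (.e true (nat_lit 3) (nat_lit 142) (nat_lit 0) (nat_lit 12) (.e false (nat_lit 3) (nat_lit 143) (nat_lit 0) (nat_lit 12) (.e false (nat_lit 1) (nat_lit 144) (nat_lit 0) (nat_lit 12) (.e false (nat_lit 1) (nat_lit 113) (nat_lit 2) (nat_lit 10) (.u (nat_lit 2) (.n (nat_lit 1) (nat_lit 1) (.n (nat_lit 4) (nat_lit 1) (.p (nat_lit 5) (nat_lit 2) (.p (nat_lit 6) (nat_lit 1) (.p (nat_lit 8) (nat_lit 1) (.n (nat_lit 9) (nat_lit 1) (.p (nat_lit 11) (nat_lit 1) (.p (nat_lit 12) (nat_lit 1) (.n (nat_lit 13) (nat_lit 1) (.n (nat_lit 14) (nat_lit 1) (.p (nat_lit 15) (nat_lit 1) (.p (nat_lit 16) (nat_lit 1) (.n (nat_lit 17) (nat_lit 1) (.n (nat_lit 18) (nat_lit 2) (.n (nat_lit 19) (nat_lit 1) (.n (nat_lit 20) (nat_lit 1) (.p (nat_lit 21) (nat_lit 1) (.p (nat_lit 23) (nat_lit 3) (.p (nat_lit 24) (nat_lit 1) (.n (nat_lit 29) (nat_lit 1) .z)))))))))))))))))))) .nil))))))))))) .leaf) (nat_lit 148481) (nat_lit 456) (.p (nat_lit 209) (nat_lit 3) (.n (nat_lit 210) (nat_lit 2) (.n (nat_lit 211) (nat_lit 2) (.p (nat_lit 212) (nat_lit 2) (.p (nat_lit 214) (nat_lit 2) (.n (nat_lit 215) (nat_lit 2) .z)))))) (.ct dR2_c52 (nat_lit 1) (nat_lit 6) (.s false (nat_lit 3) (nat_lit 15) (nat_lit 1) (nat_lit 1) (nat_lit 6) true (nat_lit 1) true (nat_lit 3) true (nat_lit 1) true (nat_lit 6) true (nat_lit 6) (.s false (nat_lit 3) (nat_lit 14) (nat_lit 1) (nat_lit 6) (nat_lit 1) false (nat_lit 7) true (nat_lit 6) true (nat_lit 1) true (nat_lit 6) true (nat_lit 3) (.s true (nat_lit 3) (nat_lit 31) (nat_lit 1) (nat_lit 2) (nat_lit 2) true (nat_lit 4) true (nat_lit 5) false (nat_lit 1) true (nat_lit 6) true (nat_lit 5) (.s false (nat_lit 1) (nat_lit 31) (nat_lit 2) (nat_lit 1) (nat_lit 2) true (nat_lit 3) true (nat_lit 5) false (nat_lit 1) true (nat_lit 5) true (nat_lit 6) (.s false (nat_lit 3) (nat_lit 31) (nat_lit 2) (nat_lit 2) (nat_lit 1) true (nat_lit 4) true (nat_lit 6) false (nat_lit 1) true (nat_lit 5) true (nat_lit 5) (.e true (nat_lit 2) (nat_lit 55) (nat_lit 6) (nat_lit 3) (.e false (nat_lit 3) (nat_lit 56) (nat_lit 6) (nat_lit 3) (.e true (nat_lit 1) (nat_lit 140) (nat_lit 1) (nat_lit 6) (.e false (nat_lit 2) (nat_lit 143) (nat_lit 1) (nat_lit 6) (.e false (nat_lit 1) (nat_lit 141) (nat_lit 1) (nat_lit 6) (.e true (nat_lit 2) (nat_lit 118) (nat_lit 2) (nat_lit 5) (.e false (nat_lit 1) (nat_lit 119) (nat_lit 2) (nat_lit 5) (.e false (nat_lit 3) (nat_lit 122) (nat_lit 2) (nat_lit 5) (.u (nat_lit 2) (.n (nat_lit 0) (nat_lit 1) (.p (nat_lit 1) (nat_lit 1) (.n (nat_lit 6) (nat_lit 1) (.n (nat_lit 7) (nat_lit 1) (.n (nat_lit 12) (nat_lit 1) (.n (nat_lit 20) (nat_lit 1) (.n (nat_lit 21) (nat_lit 1) (.p (nat_lit 27) (nat_lit 2) (.p (nat_lit 28) (nat_lit 1) (.p (nat_lit 29) (nat_lit 2) (.n (nat_lit 31) (nat_lit 1) (.p (nat_lit 33) (nat_lit 4) (.n (nat_lit 34) (nat_lit 4) (.p (nat_lit 35) (nat_lit 1) (.p (nat_lit 36) (nat_lit 1) (.p (nat_lit 38) (nat_lit 1) .z)))))))))))))))) .nil))))))))))))))) .leaf))))))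

noncomputable def dR2_t5 : Tr := (.nd dR2_t3 (nat_lit 72708) (nat_lit 415) (.p (nat_lit 177) (nat_lit 1) (.p (nat_lit 179) (nat_lit 3) (.n (nat_lit 180) (nat_lit 3) (.n (nat_lit 181) (nat_lit 1) (.n (nat_lit 182) (nat_lit 1) (.n (nat_lit 183) (nat_lit 1) (.n (nat_lit 184) (nat_lit 3) (.p (nat_lit 185) (nat_lit 3) (.n (nat_lit 186) (nat_lit 2) (.p (nat_lit 187) (nat_lit 2) (.p (nat_lit 188) (nat_lit 1) (.p (nat_lit 189) (nat_lit 1) (.n (nat_lit 190) (nat_lit 3) (.n (nat_lit 191) (nat_lit 1) (.p (nat_lit 192) (nat_lit 1) (.n (nat_lit 193) (nat_lit 2) (.n (nat_lit 194) (nat_lit 3) (.p (nat_lit 195) (nat_lit 2) (.p (nat_lit 197) (nat_lit 2) (.n (nat_lit 198) (nat_lit 3) (.n (nat_lit 200) (nat_lit 3) (.n (nat_lit 201) (nat_lit 2) (.n (nat_lit 202) (nat_lit 2) (.p (nat_lit 204) (nat_lit 3) (.n (nat_lit 205) (nat_lit 1) (.p (nat_lit 206) (nat_lit 3) .z)))))))))))))))))))))))))) (.ct dR2_c292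 (nat_lit 1) (nat_lit 8) (.s true (nat_lit 1) (nat_lit 15) (nat_lit 1) (nat_lit 2) (nat_lit 4) true (nat_lit 4) true (nat_lit 8) true (nat_lit 1) true (nat_lit 11) true (nat_lit 10) (.e true (nat_lit 1) (nat_lit 36) (nat_lit 9) (nat_lit 4) (.e true (nat_lit 1) (nat_lit 23) (nat_lit 15) (nat_lit 1) (.e true (nat_lit 1) (nat_lit 24) (nat_lit 15) (nat_lit 1) (.e false (nat_lit 1) (nat_lit 27) (nat_lit 15) (nat_lit 1) (.e true (nat_lit 1) (nat_lit 28) (nat_lit 15) (nat_lit 1) (.e false (nat_lit 1) (nat_lit 124) (nat_lit 1) (nat_lit 11) (.e false (nat_lit 1) (nat_lit 125) (nat_lit 1) (nat_lit 11) (.e false (nat_lit 1) (nat_lit 127) (nat_lit 1) (nat_lit 11) (.e true (nat_lit 1) (nat_lit 128) (nat_lit 1) (nat_lit 11) dR2_i15))))))))))) dR2_t4)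

noncomputable def dR2_t6 : Tr := (.nd dR2_t2 (nat_lit 37893) (nat_lit 274) (.n (nat_lit 140) (nat_lit 3) (.n (nat_lit 141) (nat_lit 3) (.n (nat_lit 142) (nat_lit 2) (.n (nat_lit 143) (nat_lit 1) (.n (nat_lit 144) (nat_lit 1) (.n (nat_lit 145) (nat_lit 1) .z)))))) (.ct dR2_c36 (nat_lit 1) (nat_lit 3) (.s false (nat_lit 1) (nat_lit 16) (nat_lit 2) (nat_lit 1) (nat_lit 1) true (nat_lit 3) true (nat_lit 5) false (nat_lit 1) true (nat_lit 4) true (nat_lit 5) (.e false (nat_lit 1) (nat_lit 79) (nat_lit 1) (nat_lit 5) (.e true (nat_lit 1) (nat_lit 81) (nat_lit 1) (nat_lit 5) (.e true (nat_lit 1) (nat_lit 16) (nat_lit 11) (nat_lit 1) (.e true (nat_lit 1) (nat_lit 80) (nat_lit 1) (nat_lit 5) (.u (nat_lit 2) (.p (nat_lit 0) (nat_lit 1) .z) .nil))))))) dR2_t5)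

noncomputable def dR2_cl : CL := (.c (nat_lit 256) (nat_lit 0) (nat_lit 1) (.c (nat_lit 16) (nat_lit 1) (nat_lit 1) (.c (nat_lit 1) (nat_lit 2) (nat_lit 1) (.c (nat_lit 272) (nat_lit 3) (nat_lit 1) (.c (nat_lit 32) (nat_lit 2032) (nat_lit 0) (.c (nat_lit 257) (nat_lit 4) (nat_lit 1) (.c (nat_lit 17) (nat_lit 5) (nat_lit 1) (.c (nat_lit 2) (nat_lit 6) (nat_lit 1) (.c (nat_lit 288) (nat_lit 7) (nat_lit 1) (.c (nat_lit 48) (nat_lit 2048) (nat_lit 0) (.c (nat_lit 273) (nat_lit 8) (nat_lit 3) (.c (nat_lit 33) (nat_lit 11) (nat_lit 1) (.c (nat_lit 258) (nat_lit 12) (nat_lit 2) (.c (nat_lit 18) (nat_lit 14) (nat_lit 2) (.c (nat_lit 3) (nat_lit 16) (nat_lit 1) (.c (nat_lit 304) (nat_lit 17) (nat_lit 1) (.c (nat_lit 289) (nat_lit 18) (nat_lit 4) (.c (nat_lit 49) (nat_lit 22) (nat_lit 1) (.c (nat_lit 274) (nat_lit 23) (nat_lit 6) (.c (nat_lit 34) (nat_lit 29) (nat_lit 3) (.c (nat_lit 259)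 (nat_lit 32) (nat_lit 3) (.c (nat_lit 19) (nat_lit 35) (nat_lit 3) (.c (nat_lit 4) (nat_lit 38) (nat_lit 1) (.c (nat_lit 305) (nat_lit 39) (nat_lit 5) (.c (nat_lit 290) (nat_lit 44) (nat_lit 11) (.c (nat_lit 50) (nat_lit 55) (nat_lit 3) (.c (nat_lit 275) (nat_lit 58) (nat_lit 11) (.c (nat_lit 35) (nat_lit 69) (nat_lit 5) (.c (nat_lit 260) (nat_lit 74) (nat_lit 4) (.c (nat_lit 20) (nat_lit 78) (nat_lit 4) (.c (nat_lit 306) (nat_lit 82) (nat_lit 15) (.c (nat_lit 291) (nat_lit 97) (nat_lit 21) (.c (nat_lit 51) (nat_lit 118) (nat_lit 6) (.c (nat_lit 276) (nat_lit 124) (nat_lit 16) (.c (nat_lit 36) (nat_lit 140) (nat_lit 6) (.c (nat_lit 307) (nat_lit 146) (nat_lit 31) (.c (nat_lit 292) (nat_lit 177) (nat_lit 30) (.c (nat_lit 52) (nat_lit 207) (nat_lit 9) .nil))))))))))))))))))))))))))))))))))))))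

noncomputable def dR2_D : Dt := ⟨(nat_lit 16777216), (nat_lit 8388608), (nat_lit 1), (nat_lit 216), (nat_lit 2325501366255940244776438796317054117855997089798556523432783959250822079172426047098378598655032268019746043508825552448195405963660865158228358523732278266980722778126449096501629093104970590027381238942497201764776215604456619662464141957631704734349947144255316011024769686133434562930782197388375132205294350413730161598152603712565084494508773930412303477325577100293734184980588755022264030348911707866785391973506466182050799239925180824095655772447198932754634345769783114006403304217034766562417907203150340798945763604963952133373340786240977309992407084689587183348282679513276499621065504167609986242815872337712695218767374354358212668312208679056361802795241926566973873649754974348430969027053009202477962094859768678393427489986961748489965526614541849748771536797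3032622005011067117936226937403065533100798325540070388466891641420584479004162037629726313485646947638641024534147973271262450500653206858075066981278114013806171112756313041508831641732613543226832722292363980102759933911938730496834578092569908664534675242815435050626477778534901270409776169325896693293338981934159233615246419821127465197382206977839630824695341312327659963128549131359989497777818202625689616232960166194292563593854856251222409452806024390150046391244395398723068045339300465616138112438709522627532356953540629843709710332210204927321519628475515844684153766313788336601343102537175590100661949134441366115081722316474239025160417425507977831444081155617336921547950230011561086726488656493177117929816063753880839610270401965095327538825582407527170053), (nat_lit 191561942519033147768318659929993601971705137097150260), dR2_t6, dR2_cl⟩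

noncomputable def dR2_gs : BL := (.c (nat_lit 29) (nat_lit 3) (nat_lit 23) (nat_lit 6) (nat_lit 0) (.c (nat_lit 32) (nat_lit 3) (nat_lit 22) (nat_lit 1) (nat_lit 18) (.c (nat_lit 35) (nat_lit 3) (nat_lit 18) (nat_lit 4) (nat_lit 21) (.c (nat_lit 38) (nat_lit 1) (nat_lit 17) (nat_lit 1) (nat_lit 33) (.c (nat_lit 39) (nat_lit 5) (nat_lit 16) (nat_lit 1) (nat_lit 34) (.c (nat_lit 44) (nat_lit 11) (nat_lit 14) (nat_lit 2) (nat_lit 39) (.c (nat_lit 55) (nat_lit 3) (nat_lit 12) (nat_lit 2) (nat_lit 61) (.c (nat_lit 58) (nat_lit 11) (nat_lit 11) (nat_lit 1) (nat_lit 67) (.c (nat_lit 69) (nat_lit 5) (nat_lit 8) (nat_lit 3) (nat_lit 78) (.c (nat_lit 78) (nat_lit 4) (nat_lit 7) (nat_lit 1) (nat_lit 93) (.c (nat_lit 82) (nat_lit 15) (nat_lit 6) (nat_lit 1) (nat_lit 97) (.c (nat_lit 97) (nat_lit 21) (nat_lit 5) (nat_lit 1) (nat_lit 112) (.c (nat_lit 118) (nat_lit 6) (nat_lit 4) (nat_lit 1)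 (nat_lit 133) (.c (nat_lit 140) (nat_lit 6) (nat_lit 3) (nat_lit 1) (nat_lit 139) (.c (nat_lit 146) (nat_lit 31) (nat_lit 2) (nat_lit 1) (nat_lit 145) (.c (nat_lit 177) (nat_lit 30) (nat_lit 1) (nat_lit 1) (nat_lit 176) (.c (nat_lit 207) (nat_lit 9) (nat_lit 0) (nat_lit 1) (nat_lit 206) (.c (nat_lit 2032) (nat_lit 0) (nat_lit 124) (nat_lit 16) (nat_lit 215) (.c (nat_lit 2048) (nat_lit 0) (nat_lit 74) (nat_lit 4) (nat_lit 215) .nil)))))))))))))))))))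

noncomputable def dR2_i39 : IL := (.s true (nat_lit 3) (nat_lit 53) (nat_lit 1) (nat_lit 2) (nat_lit 2) true (nat_lit 11) true (nat_lit 14) false (nat_lit 5) true (nat_lit 15) true (nat_lit 14) (.s true (nat_lit 2) (nat_lit 45) (nat_lit 2) (nat_lit 1) (nat_lit 2) true (nat_lit 10) true (nat_lit 14) false (nat_lit 5) true (nat_lit 14) true (nat_lit 15) (.s true (nat_lit 1) (nat_lit 47) (nat_lit 2) (nat_lit 1) (nat_lit 2) true (nat_lit 10) true (nat_lit 14) false (nat_lit 5) true (nat_lit 14) true (nat_lit 15) (.s true (nat_lit 3) (nat_lit 48) (nat_lit 2) (nat_lit 1) (nat_lit 2) true (nat_lit 10) true (nat_lit 14) false (nat_lit 5) true (nat_lit 14) true (nat_lit 15) (.s false (nat_lit 3) (nat_lit 44) (nat_lit 2) (nat_lit 2) (nat_lit 1) true (nat_lit 11) true (nat_lit 15) false (nat_lit 5) true (nat_lit 14) true (nat_lit 14) (.s true (nat_lit 2) (nat_lit 46) (nat_lit 2) (nat_lit 2)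 (nat_lit 1) true (nat_lit 11) true (nat_lit 15) false (nat_lit 5) true (nat_lit 14) true (nat_lit 14) (.s false (nat_lit 3) (nat_lit 47) (nat_lit 2) (nat_lit 2) (nat_lit 1) true (nat_lit 11) true (nat_lit 15) false (nat_lit 5) true (nat_lit 14) true (nat_lit 14) (.s true (nat_lit 3) (nat_lit 53) (nat_lit 2) (nat_lit 2) (nat_lit 1) true (nat_lit 11) true (nat_lit 15) false (nat_lit 5) true (nat_lit 14) true (nat_lit 14) (.s true (nat_lit 3) (nat_lit 58) (nat_lit 1) (nat_lit 1) (nat_lit 2) true (nat_lit 11) true (nat_lit 14) false (nat_lit 7) true (nat_lit 15) true (nat_lit 15) (.s false (nat_lit 2) (nat_lit 61) (nat_lit 1) (nat_lit 1) (nat_lit 2) true (nat_lit 11) true (nat_lit 14) false (nat_lit 7) true (nat_lit 15) true (nat_lit 15) (.s true (nat_lit 2) (nat_lit 63) (nat_lit 1) (nat_lit 1) (nat_lit 2) true (nat_lit 11) true (nat_lit 14) false (nat_lit 7) true (nat_lit 15) true (nat_lit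 15) (.s false (nat_lit 2) (nat_lit 66) (nat_lit 1) (nat_lit 1) (nat_lit 2) true (nat_lit 11) true (nat_lit 14) false (nat_lit 7) true (nat_lit 15) true (nat_lit 15) (.s true (nat_lit 2) (nat_lit 67) (nat_lit 1) (nat_lit 1) (nat_lit 2) true (nat_lit 11) true (nat_lit 14) false (nat_lit 7) true (nat_lit 15) true (nat_lit 15) (.s true (nat_lit 2) (nat_lit 68) (nat_lit 1) (nat_lit 2) (nat_lit 1) false (nat_lit 17) true (nat_lit 15) false (nat_lit 7) true (nat_lit 15) true (nat_lit 14) (.s true (nat_lit 2) (nat_lit 66) (nat_lit 2) (nat_lit 1) (nat_lit 1) true (nat_lit 11) true (nat_lit 15) false (nat_lit 7) true (nat_lit 14) true (nat_lit 15) (.s true (nat_lit 2) (nat_lit 67) (nat_lit 2) (nat_lit 1) (nat_lit 1) true (nat_lit 11) true (nat_lit 15) false (nat_lit 7) true (nat_lit 14) true (nat_lit 15) (.s false (nat_lit 1) (nat_lit 69) (nat_lit 2) (nat_lit 1) (nat_lit 0) true (nat_lit 12)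 true (nat_lit 16) false (nat_lit 8) true (nat_lit 14) true (nat_lit 15) (.s false (nat_lit 1) (nat_lit 70) (nat_lit 2) (nat_lit 1) (nat_lit 0) true (nat_lit 12) true (nat_lit 16) false (nat_lit 8) true (nat_lit 14) true (nat_lit 15) (.s false (nat_lit 2) (nat_lit 81) (nat_lit 0) (nat_lit 1) (nat_lit 1) true (nat_lit 13) true (nat_lit 15) false (nat_lit 9) true (nat_lit 16) true (nat_lit 15) (.s true (nat_lit 1) (nat_lit 78) (nat_lit 1) (nat_lit 0) (nat_lit 1) false (nat_lit 17) true (nat_lit 15) false (nat_lit 9) true (nat_lit 15) true (nat_lit 16) (.s false (nat_lit 3) (nat_lit 79) (nat_lit 1) (nat_lit 0) (nat_lit 1) false (nat_lit 17) true (nat_lit 15) false (nat_lit 9) true (nat_lit 15) true (nat_lit 16) (.s true (nat_lit 2) (nat_lit 80) (nat_lit 1) (nat_lit 0) (nat_lit 1) false (nat_lit 17) true (nat_lit 15) false (nat_lit 9) true (nat_lit 15) true (nat_lit 16) (.s false (nat_lit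 2) (nat_lit 81) (nat_lit 1) (nat_lit 0) (nat_lit 1) false (nat_lit 17) true (nat_lit 15) false (nat_lit 9) true (nat_lit 15) true (nat_lit 16) (.u (nat_lit 2) (.n (nat_lit 23) (nat_lit 1) (.p (nat_lit 33) (nat_lit 1) (.n (nat_lit 34) (nat_lit 1) (.p (nat_lit 35) (nat_lit 1) (.p (nat_lit 40) (nat_lit 1) (.n (nat_lit 41) (nat_lit 1) (.p (nat_lit 42) (nat_lit 1) (.n (nat_lit 47) (nat_lit 1) (.p (nat_lit 54) (nat_lit 1) (.n (nat_lit 58) (nat_lit 1) (.n (nat_lit 94) (nat_lit 1) (.p (nat_lit 96) (nat_lit 1) (.n (nat_lit 98) (nat_lit 1) (.n (nat_lit 102) (nat_lit 1) (.p (nat_lit 105) (nat_lit 1) (.n (nat_lit 111) (nat_lit 1) (.n (nat_lit 112) (nat_lit 2) (.n (nat_lit 116) (nat_lit 2) (.n (nat_lit 121) (nat_lit 1) (.p (nat_lit 126) (nat_lit 1) (.p (nat_lit 129) (nat_lit 2) (.n (nat_lit 130) (nat_lit 2) (.n (nat_lit 132) (nat_lit 1) (.n (nat_lit 139) (nat_lit 2) (.p (nat_lit 141) (nat_lit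 1) (.p (nat_lit 142) (nat_lit 1) (.p (nat_lit 144) (nat_lit 3) (.p (nat_lit 145) (nat_lit 4) (.n (nat_lit 146) (nat_lit 8) (.p (nat_lit 147) (nat_lit 1) (.p (nat_lit 149) (nat_lit 2) (.p (nat_lit 150) (nat_lit 5) (.p (nat_lit 151) (nat_lit 6) (.n (nat_lit 152) (nat_lit 2) (.p (nat_lit 154) (nat_lit 2) (.p (nat_lit 156) (nat_lit 2) (.n (nat_lit 157) (nat_lit 1) (.n (nat_lit 158) (nat_lit 2) (.p (nat_lit 159) (nat_lit 2) (.n (nat_lit 160) (nat_lit 9) (.n (nat_lit 161) (nat_lit 2) (.n (nat_lit 162) (nat_lit 2) (.n (nat_lit 163) (nat_lit 4) (.n (nat_lit 164) (nat_lit 2) (.p (nat_lit 166) (nat_lit 3) (.n (nat_lit 170) (nat_lit 3) (.p (nat_lit 171) (nat_lit 2) (.p (nat_lit 172) (nat_lit 5) (.p (nat_lit 173) (nat_lit 2) (.p (nat_lit 174) (nat_lit 2) (.p (nat_lit 175) (nat_lit 2) (.p (nat_lit 176) (nat_lit 2) (.p (nat_lit 177) (nat_lit 20) (.n (nat_lit 178) (nat_lit 13) (.n (nat_lit 179)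 (nat_lit 23) (.n (nat_lit 180) (nat_lit 6) (.n (nat_lit 181) (nat_lit 32) (.n (nat_lit 182) (nat_lit 5) (.p (nat_lit 183) (nat_lit 38) (.p (nat_lit 184) (nat_lit 12) .z)))))))))))))))))))))))))))))))))))))))))))))))))))))))))))) (.u (nat_lit 2) (.p (nat_lit 185) (nat_lit 34) (.p (nat_lit 186) (nat_lit 45) (.n (nat_lit 187) (nat_lit 49) (.n (nat_lit 188) (nat_lit 12) (.p (nat_lit 189) (nat_lit 20) (.p (nat_lit 190) (nat_lit 42) (.n (nat_lit 191) (nat_lit 35) (.n (nat_lit 192) (nat_lit 20) (.p (nat_lit 193) (nat_lit 39) (.p (nat_lit 194) (nat_lit 37) (.p (nat_lit 195) (nat_lit 18) (.p (nat_lit 196) (nat_lit 17) (.p (nat_lit 197) (nat_lit 3) (.p (nat_lit 198) (nat_lit 6) (.n (nat_lit 199) (nat_lit 25) (.n (nat_lit 200) (nat_lit 1) (.p (nat_lit 201) (nat_lit 19) (.p (nat_lit 202) (nat_lit 4) (.n (nat_lit 203) (nat_lit 34) (.p (nat_lit 204) (nat_lit 60) (.n (nat_lit 205) (nat_lit 7) (.n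 (nat_lit 209) (nat_lit 2) (.n (nat_lit 210) (nat_lit 2) (.p (nat_lit 211) (nat_lit 2) (.n (nat_lit 212) (nat_lit 2) (.p (nat_lit 213) (nat_lit 2) (.n (nat_lit 214) (nat_lit 2) .z))))))))))))))))))))))))))) .nil)))))))))))))))))))))))))

noncomputable def dR2_i40 : IL := (.s true (nat_lit 1) (nat_lit 20) (nat_lit 6) (nat_lit 2) (nat_lit 1) true (nat_lit 5) true (nat_lit 15) true (nat_lit 2) true (nat_lit 10) true (nat_lit 14) (.s false (nat_lit 3) (nat_lit 23) (nat_lit 1) (nat_lit 1) (nat_lit 6) true (nat_lit 5) true (nat_lit 10) true (nat_lit 0) true (nat_lit 15) true (nat_lit 15) (.s false (nat_lit 3) (nat_lit 26) (nat_lit 1) (nat_lit 1) (nat_lit 6) true (nat_lit 5) true (nat_lit 10) true (nat_lit 0) true (nat_lit 15) true (nat_lit 15) (.s true (nat_lit 3) (nat_lit 28) (nat_lit 1) (nat_lit 1) (nat_lit 6) true (nat_lit 5) true (nat_lit 10) true (nat_lit 0) true (nat_lit 15) true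 (nat_lit 15) (.s false (nat_lit 2) (nat_lit 23) (nat_lit 1) (nat_lit 5) (nat_lit 2) true (nat_lit 11) true (nat_lit 14) true (nat_lit 0) true (nat_lit 15) true (nat_lit 11) (.s false (nat_lit 2) (nat_lit 23) (nat_lit 5) (nat_lit 1) (nat_lit 2) true (nat_lit 5) true (nat_lit 14) true (nat_lit 0) true (nat_lit 11) true (nat_lit 15) (.s true (nat_lit 1) (nat_lit 23) (nat_lit 6) (nat_lit 1) (nat_lit 1) true (nat_lit 5) true (nat_lit 15) true (nat_lit 0) true (nat_lit 10) true (nat_lit 15) (.s true (nat_lit 2) (nat_lit 31) (nat_lit 2) (nat_lit 3) (nat_lit 2) true (nat_lit 10) true (nat_lit 14) false (nat_lit 0) true (nat_lit 14) true (nat_lit 13) (.s false (nat_lit 1) (nat_lit 36) (nat_lit 1) (nat_lit 1) (nat_lit 4) true (nat_lit 8) true (nat_lit 12) false (nat_lit 2) true (nat_lit 15) true (nat_lit 15) (.s false (nat_lit 1) (nat_lit 37) (nat_lit 1) (nat_lit 1) (nat_lit 4) true (nat_lit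 8) true (nat_lit 12) false (nat_lit 2) true (nat_lit 15) true (nat_lit 15) (.s false (nat_lit 1) (nat_lit 37) (nat_lit 2) (nat_lit 3) (nat_lit 1) true (nat_lit 11) true (nat_lit 15) false (nat_lit 2) true (nat_lit 14) true (nat_lit 13) (.s true (nat_lit 3) (nat_lit 36) (nat_lit 3) (nat_lit 1) (nat_lit 2) true (nat_lit 8) true (nat_lit 14) false (nat_lit 2) true (nat_lit 13) true (nat_lit 15) (.s true (nat_lit 1) (nat_lit 36) (nat_lit 4) (nat_lit 1) (nat_lit 1) true (nat_lit 8) true (nat_lit 15) false (nat_lit 2) true (nat_lit 12) true (nat_lit 15) (.s false (nat_lit 1) (nat_lit 36) (nat_lit 5) (nat_lit 1) (nat_lit 0) true (nat_lit 8) true (nat_lit 16) false (nat_lit 2) true (nat_lit 11) true (nat_lit 15) (.s false (nat_lit 3) (nat_lit 38) (nat_lit 1) (nat_lit 3) (nat_lit 1) false (nat_lit 17) true (nat_lit 15) false (nat_lit 3) true (nat_lit 15) true (nat_lit 13) (.s false (nat_lit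 1) (nat_lit 38) (nat_lit 3) (nat_lit 1) (nat_lit 1) true (nat_lit 9) true (nat_lit 15) false (nat_lit 3) true (nat_lit 13) true (nat_lit 15) (.s true (nat_lit 3) (nat_lit 40) (nat_lit 2) (nat_lit 2) (nat_lit 2) true (nat_lit 10) true (nat_lit 14) false (nat_lit 4) true (nat_lit 14) true (nat_lit 14) (.s false (nat_lit 1) (nat_lit 41) (nat_lit 2) (nat_lit 2) (nat_lit 2) true (nat_lit 10) true (nat_lit 14) false (nat_lit 4) true (nat_lit 14) true (nat_lit 14) (.s true (nat_lit 1) (nat_lit 43) (nat_lit 2) (nat_lit 2) (nat_lit 2) true (nat_lit 10) true (nat_lit 14) false (nat_lit 4) true (nat_lit 14) true (nat_lit 14) (.s true (nat_lit 1) (nat_lit 44) (nat_lit 1) (nat_lit 2) (nat_lit 2) true (nat_lit 11) true (nat_lit 14) false (nat_lit 5) true (nat_lit 15) true (nat_lit 14) (.s false (nat_lit 2) (nat_lit 45) (nat_lit 1) (nat_lit 2) (nat_lit 2) true (nat_lit 11) true (nat_lit 14) false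 (nat_lit 5) true (nat_lit 15) true (nat_lit 14) (.s true (nat_lit 2) (nat_lit 46) (nat_lit 1) (nat_lit 2) (nat_lit 2) true (nat_lit 11) true (nat_lit 14) false (nat_lit 5) true (nat_lit 15) true (nat_lit 14) (.s false (nat_lit 1) (nat_lit 47) (nat_lit 1) (nat_lit 2) (nat_lit 2) true (nat_lit 11) true (nat_lit 14) false (nat_lit 5) true (nat_lit 15) true (nat_lit 14) (.s true (nat_lit 2) (nat_lit 48) (nat_lit 1) (nat_lit 2) (nat_lit 2) true (nat_lit 11) true (nat_lit 14) false (nat_lit 5) true (nat_lit 15) true (nat_lit 14) (.s true (nat_lit 3) (nat_lit 52) (nat_lit 1) (nat_lit 2) (nat_lit 2) true (nat_lit 11) true (nat_lit 14) false (nat_lit 5) true (nat_lit 15) true (nat_lit 14) dR2_i39)))))))))))))))))))))))))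

noncomputable def dR2_i41 : IL := (.s true (nat_lit 2) (nat_lit 16) (nat_lit 1) (nat_lit 8) (nat_lit 1) false (nat_lit 17) true (nat_lit 15) true (nat_lit 4) true (nat_lit 15) true (nat_lit 8) (.s true (nat_lit 1) (nat_lit 16) (nat_lit 1) (nat_lit 9) (nat_lit 1) false (nat_lit 17) true (nat_lit 15) true (nat_lit 4) true (nat_lit 15) true (nat_lit 8) (.s true (nat_lit 1) (nat_lit 16) (nat_lit 2) (nat_lit 1) (nat_lit 7) true (nat_lit 2) true (nat_lit 9) true (nat_lit 4) true (nat_lit 14) true (nat_lit 15) (.s false (nat_lit 2) (nat_lit 16) (nat_lit 7) (nat_lit 1) (nat_lit 2) true (nat_lit 2) true (nat_lit 14) true (nat_lit 4) true (nat_lit 9) true (nat_lit 15) (.s true (nat_lit 3) (nat_lit 16) (nat_lit 7) (nat_lit 2) (nat_lit 1) true (nat_lit 3) true (nat_lit 15) true (nat_lit 4) true (nat_lit 9) true (nat_lit 14) (.s true (nat_lit 1) (nat_lit 16) (nat_lit 9) (nat_lit 1) (nat_lit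 1) true (nat_lit 2) true (nat_lit 15) true (nat_lit 4) true (nat_lit 8) true (nat_lit 15) (.s false (nat_lit 2) (nat_lit 17) (nat_lit 2) (nat_lit 2) (nat_lit 6) true (nat_lit 4) true (nat_lit 10) true (nat_lit 3) true (nat_lit 14) true (nat_lit 14) (.s false (nat_lit 1) (nat_lit 17) (nat_lit 2) (nat_lit 6) (nat_lit 2) true (nat_lit 10) true (nat_lit 14) true (nat_lit 3) true (nat_lit 14) true (nat_lit 10) (.s false (nat_lit 3) (nat_lit 17) (nat_lit 6) (nat_lit 2) (nat_lit 2) true (nat_lit 4) true (nat_lit 14) true (nat_lit 3) true (nat_lit 10) true (nat_lit 14) (.s true (nat_lit 3) (nat_lit 18) (nat_lit 1) (nat_lit 2) (nat_lit 6) true (nat_lit 5) true (nat_lit 10) true (nat_lit 2) true (nat_lit 15) true (nat_lit 14) (.s false (nat_lit 1) (nat_lit 18) (nat_lit 1) (nat_lit 6) (nat_lit 2) true (nat_lit 11) true (nat_lit 14) true (nat_lit 2) true (nat_lit 15) true (nat_lit 10) (.s false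 (nat_lit 1) (nat_lit 20) (nat_lit 1) (nat_lit 6) (nat_lit 2) true (nat_lit 11) true (nat_lit 14) true (nat_lit 2) true (nat_lit 15) true (nat_lit 10) (.s false (nat_lit 3) (nat_lit 19) (nat_lit 2) (nat_lit 1) (nat_lit 6) true (nat_lit 4) true (nat_lit 10) true (nat_lit 2) true (nat_lit 14) true (nat_lit 15) (.s true (nat_lit 1) (nat_lit 18) (nat_lit 2) (nat_lit 2) (nat_lit 5) true (nat_lit 5) true (nat_lit 11) true (nat_lit 2) true (nat_lit 14) true (nat_lit 14) (.s false (nat_lit 2) (nat_lit 19) (nat_lit 2) (nat_lit 2) (nat_lit 5) true (nat_lit 5) true (nat_lit 11) true (nat_lit 2) true (nat_lit 14) true (nat_lit 14) (.s true (nat_lit 2) (nat_lit 20) (nat_lit 2) (nat_lit 2) (nat_lit 5) true (nat_lit 5) true (nat_lit 11) true (nat_lit 2) true (nat_lit 14) true (nat_lit 14) (.s false (nat_lit 1) (nat_lit 21) (nat_lit 2) (nat_lit 2) (nat_lit 5) true (nat_lit 5) true (nat_lit 11) true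 (nat_lit 2) true (nat_lit 14) true (nat_lit 14) (.s false (nat_lit 2) (nat_lit 20) (nat_lit 2) (nat_lit 5) (nat_lit 2) true (nat_lit 10) true (nat_lit 14) true (nat_lit 2) true (nat_lit 14) true (nat_lit 11) (.s true (nat_lit 3) (nat_lit 21) (nat_lit 2) (nat_lit 5) (nat_lit 2) true (nat_lit 10) true (nat_lit 14) true (nat_lit 2) true (nat_lit 14) true (nat_lit 11) (.s false (nat_lit 3) (nat_lit 19) (nat_lit 2) (nat_lit 6) (nat_lit 1) true (nat_lit 11) true (nat_lit 15) true (nat_lit 2) true (nat_lit 14) true (nat_lit 10) (.s true (nat_lit 2) (nat_lit 18) (nat_lit 5) (nat_lit 2) (nat_lit 2) true (nat_lit 5) true (nat_lit 14) true (nat_lit 2) true (nat_lit 11) true (nat_lit 14) (.s true (nat_lit 2) (nat_lit 20) (nat_lit 5) (nat_lit 2) (nat_lit 2) true (nat_lit 5) true (nat_lit 14) true (nat_lit 2) true (nat_lit 11) true (nat_lit 14) (.s false (nat_lit 3) (nat_lit 21) (nat_lit 5) (nat_lit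 2) (nat_lit 2) true (nat_lit 5) true (nat_lit 14) true (nat_lit 2) true (nat_lit 11) true (nat_lit 14) (.s true (nat_lit 1) (nat_lit 18) (nat_lit 6) (nat_lit 1) (nat_lit 2) true (nat_lit 4) true (nat_lit 14) true (nat_lit 2) true (nat_lit 10) true (nat_lit 15) (.s false (nat_lit 3) (nat_lit 19) (nat_lit 6) (nat_lit 2) (nat_lit 1) true (nat_lit 5) true (nat_lit 15) true (nat_lit 2) true (nat_lit 10) true (nat_lit 14) dR2_i40)))))))))))))))))))))))))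

noncomputable def dR2_il : IL := (.s true (nat_lit 1) (nat_lit 7) (nat_lit 1) (nat_lit 6) (nat_lit 6) true (nat_lit 5) true (nat_lit 10) true (nat_lit 9) true (nat_lit 15) true (nat_lit 10) (.s false (nat_lit 1) (nat_lit 7) (nat_lit 5) (nat_lit 6) (nat_lit 2) true (nat_lit 5) true (nat_lit 14) true (nat_lit 9) true (nat_lit 11) true (nat_lit 10) (.s false (nat_lit 3) (nat_lit 7) (nat_lit 6) (nat_lit 6) (nat_lit 1) true (nat_lit 5) true (nat_lit 15) true (nat_lit 9) true (nat_lit 10) true (nat_lit 10) (.s true (nat_lit 2) (nat_lit 8) (nat_lit 1) (nat_lit 6) (nat_lit 5) true (nat_lit 7) true (nat_lit 11) true (nat_lit 8) true (nat_lit 15) true (nat_lit 10) (.s false (nat_lit 1) (nat_lit 8) (nat_lit 2) (nat_lit 5) (nat_lit 5) true (nat_lit 5) true (nat_lit 11) true (nat_lit 8) true (nat_lit 14) true (nat_lit 11) (.s false (nat_lit 2) (nat_lit 8) (nat_lit 5) (nat_lit 5) (nat_lit 2)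 true (nat_lit 5) true (nat_lit 14) true (nat_lit 8) true (nat_lit 11) true (nat_lit 11) (.s false (nat_lit 2) (nat_lit 9) (nat_lit 5) (nat_lit 6) (nat_lit 1) true (nat_lit 7) true (nat_lit 15) true (nat_lit 8) true (nat_lit 11) true (nat_lit 10) (.s true (nat_lit 2) (nat_lit 10) (nat_lit 5) (nat_lit 6) (nat_lit 1) true (nat_lit 7) true (nat_lit 15) true (nat_lit 8) true (nat_lit 11) true (nat_lit 10) (.s true (nat_lit 3) (nat_lit 15) (nat_lit 2) (nat_lit 1) (nat_lit 8) true (nat_lit 0) true (nat_lit 8) true (nat_lit 5) true (nat_lit 14) true (nat_lit 15) (.s false (nat_lit 2) (nat_lit 14) (nat_lit 2) (nat_lit 2) (nat_lit 7) true (nat_lit 2) true (nat_lit 9) true (nat_lit 5) true (nat_lit 14) true (nat_lit 14) (.s true (nat_lit 1) (nat_lit 14) (nat_lit 2) (nat_lit 5) (nat_lit 3) true (nat_lit 8) true (nat_lit 13) true (nat_lit 5) true (nat_lit 14) true (nat_lit 11) (.s true (nat_lit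 3) (nat_lit 14) (nat_lit 2) (nat_lit 7) (nat_lit 2) true (nat_lit 10) true (nat_lit 14) true (nat_lit 5) true (nat_lit 14) true (nat_lit 9) (.s true (nat_lit 1) (nat_lit 16) (nat_lit 1) (nat_lit 1) (nat_lit 10) true (nat_lit 2) true (nat_lit 8) true (nat_lit 4) true (nat_lit 15) true (nat_lit 15) dR2_i41)))))))))))))

theorem dR2_chk : chk 5 ids7 dR2_D par1 (clsL [0,0,0,0,1,2,1,1]) zR2Ex (.c (nat_lit 2) (nat_lit 1) (.c (nat_lit 2) (nat_lit 1) (.c (nat_lit 2) (nat_lit 1) (.c (nat_lit 2) (nat_lit 1) (.c (nat_lit 1) (nat_lit 16) (.c (nat_lit 0) (nat_lit 256) (.c (nat_lit 1) (nat_lit 16) (.c (nat_lit 1) (nat_lit 16) .nil)))))))) (nat_lit 466) (nat_lit 308) (nat_lit 1) dR2_gs dR2_il = true := by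
  decide +kernel

end Chk7

/-- certificate of `zR2Ex` -/
theorem cert_zR2Ex : Cert.{u} 5 ids7 par1 (clsL [0,0,0,0,1,2,1,1]) zR2Ex :=
  Chk7.chk_sound _ _ (by simp [ids7]) (by simp [ids7]) _ _ _ _ _ _ _ _ _ _ Chk7.dR2_chk

end Pool.Agent.MalP
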