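import Pool.Agent.MalP.P7.Of7
import Pool.Agent.MalP.P7.CertR1
import Pool.Agent.MalP.P7.CertR2
import Pool.Agent.MalP.P7.CertC1
import Pool.Agent.MalP.P7.CertC2
import Pool.Agent.MalP.P7.CertD

/-! # p = 7: the five identities -/

set_option autoImplicit false

namespace Pool.Agent.MalP

universe u v

variable (F : Type u) [Field F] [C23 F] {A : Type v} [NonUnitalNonAssocRing A] [Module F A]
  [IsScalarTower F A A] [SMulCommClass F A A]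

theorem zz_R1 (h7 : (7 : F) = 0) (h : IsMalcev A) (x0 x1 x2 x3 x4 u v c : A) :
    zz F x0 x1 x2 x3 x4 u v c + zz F x0 x1 x2 x3 x4 v c u + zz F x0 x1 x2 x3 x4 c u v = 0 :=
  zz_R1_of F h7 cert_zR1Ex h x0 x1 x2 x3 x4 u v c

theorem zz_R2 (h7 : (7 : F) = 0) (h : IsMalcev A) (x0 x1 x2 x3 y u : A) :
    zz F y x0 x1 x2 x3 u y y = 0 :=
  zz_R2_of F h7 cert_zR2Ex h x0 x1 x2 x3 y u

theorem zz_C1 (h7 : (7 : F) = 0) (h : IsMalcev A) (x0 x1 x2 x3 x4 y w : A) :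
    zz F x0 x1 x2 x3 x4 y w y * w = 0 :=
  zz_C1_of F h7 cert_zC1Ex h x0 x1 x2 x3 x4 y w

theorem zz_C2 (h7 : (7 : F) = 0) (h : IsMalcev A) (x0 x1 x2 x3 x4 u v d w : A) :
    zz F x0 x1 x2 x3 x4 u v w * d + zz F x0 x1 x2 x3 x4 v d w * u +
      zz F x0 x1 x2 x3 x4 d u w * v = 0 :=
  zz_C2_of F h7 cert_zC2Ex h x0 x1 x2 x3 x4 u v d w

theorem zz_D (h7 : (7 : F) = 0) (h : IsMalcev A) (x0 x1 x2 x3 x4 w y : A) :
    zz F x0 x1 x2 x3 x4 w y y = zq F x0 x1 x2 x3 x4 w y y :=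
  zz_D_of F h7 cert_zDEx h x0 x1 x2 x3 x4 w y

end Pool.Agent.MalP
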