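import Pool.Agent.MalP.EeAlt

/-! # p = 7: the functions `zz`, `eeS`, `zq` -/

set_option autoImplicit false

open scoped BigOperators

namespace Pool.Agent.MalP

universe u v

section

variable {A : Type v} [NonUnitalNonAssocRing A]

/-- the adjoint of `pe x` -/
def peS (x : Fin 5 → A) (s : A) : A :=
  2 • (((((s * x 4) * x 3) * x 2) * x 1) * x 0) - 5 • ((((s * x 4) * x 3) * x 2) * (x 0 * x 1)) +
    4 • (((s * x 4) * x 3) * ((x 0 * x 1) * x 2)) - 3 • (((s * (x 3 * x 4)) * x 2) * (x 0 * x 1)) -
    2 • ((s * (((x 0 * x 1) * x 2) * x 3)) * x 4)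

end

section

variable (F : Type u) [Field F] {A : Type v} [NonUnitalNonAssocRing A] [Module F A]
  [IsScalarTower F A A] [SMulCommClass F A A]

/-- `peS` as a linear map of `s` -/
def peSY (x : Fin 5 → A) : A →ₗ[F] A where
  toFun := peS x
  map_add' := fun a b => by
    simp only [peS, add_mul, smul_add]
    abel
  map_smul' := fun c a => by
    simp only [peS, smul_mul_assoc, RingHom.id_apply, smul_add, smul_sub]
    simp only [smul_comm c]

/-- `peS` as a multilinear map -/
def peSM : MultilinearMap F (fun _ : Fin 5 => A) (A →ₗ[F] A) where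
  toFun := peSY F
  map_update_add' := by
    intro inst m i a b
    have h : inst = instDecidableEqFin 5 := Subsingleton.elim _ _
    subst h
    apply LinearMap.ext
    intro y
    fin_cases i <;>
    · simp [peSY, peS, Function.update, mul_add, add_mul, smul_add]
      abel
  map_update_smul' := by
    intro inst m i c a
    have h : inst = instDecidableEqFin 5 := Subsingleton.elim _ _
    subst h
    apply LinearMap.ext
    intro y
    fin_cases i <;>
    · simp [peSY, peS, Function.update, smul_mul_assoc, mul_smul_comm, smul_add, smul_sub]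
      simp only [smul_comm c]

/-- the alternation of `peS` -/
noncomputable def eSL : A [⋀^Fin 5]→ₗ[F] (A →ₗ[F] A) := MultilinearMap.alternatization (peSM F)

theorem eSL_apply (x : Fin 5 → A) (y : A) :
    eSL F x y = ∑ s : Equiv.Perm (Fin 5), Equiv.Perm.sign s • peS (x ∘ s) y := by
  unfold eSL
  rw [MultilinearMap.alternatization_apply, LinearMap.sum_apply]
  rfl

/-- the alternation of `peS`, explicit arguments -/
noncomputable def eeS (x0 x1 x2 x3 x4 s : A) : A := eSL F ![x0, x1, x2, x3, x4] s

/-- the exotic elements -/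
noncomputable def zz (x0 x1 x2 x3 x4 u v c : A) : A :=
  (ee F x0 x1 x2 x3 x4 (u * v) - ee F x0 x1 x2 x3 x4 v * u + ee F x0 x1 x2 x3 x4 u * v) * c

/-- the adjoint of `u ↦ zz x0 .. x4 u v c` at `w` -/
noncomputable def zq (x0 x1 x2 x3 x4 w v c : A) : A :=
  eeS F x0 x1 x2 x3 x4 (w * c) * v + (w * c) * ee F x0 x1 x2 x3 x4 v +
    eeS F x0 x1 x2 x3 x4 ((w * c) * v)

end

end Pool.Agent.MalP
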