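import Pool.Agent.MalP.CPhi
import Pool.Agent.MalP.P7.ZDefs

/-! # p = 7: the functions `zz` vanish on the model algebra -/

set_option autoImplicit false

open scoped BigOperators

namespace Pool.Agent.MalP

universe u

variable {F : Type u} [Field F]

namespace E7ph

open Bh BhEAux

/-- the `w`-part minus the `v`-part -/
noncomputable def ht (x : Bh F) (i : ℕ) : Ex F := x.w i - x.v i • 1

theorem ht_mul (x y : Bh F) (i : ℕ) : ht (x * y) i = ht x i * ix y.v - ht y i * ix x.v := by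
  unfold ht
  rw [Bh.w_mul, Bh.v_mul]
  simp only [sub_mul, smul_mul_assoc, one_mul, Finsupp.coe_zero, Pi.zero_apply, zero_smul, sub_zero]
  abel

/-- additive in `x` -/
noncomputable def htH (i : ℕ) : Bh F →+ Ex F := AddMonoidHom.mk' (fun x => ht x i) (fun x y => by
  unfold ht
  rw [Bh.w_add, Bh.v_add, Finsupp.add_apply, add_smul]
  abel)

theorem ht_add (x y : Bh F) (i : ℕ) : ht (x + y) i = ht x i + ht y i := map_add (htH i) x y
theorem ht_sub (x y : Bh F) (i : ℕ) : ht (x - y) i = ht x i - ht y i := map_sub (htH i) x y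
theorem ht_nsmul (n : ℕ) (x : Bh F) (i : ℕ) : ht (n • x) i = n • ht x i := map_nsmul (htH i) n x
theorem ht_zsmul (n : ℤ) (x : Bh F) (i : ℕ) : ht (n • x) i = n • ht x i := map_zsmul (htH i) n x
theorem ht_sum {κ : Type} (s : Finset κ) (f : κ → Bh F) (i : ℕ) :
    ht (∑ k ∈ s, f k) i = ∑ k ∈ s, ht (f k) i := map_sum (htH (F := F) i) f s

/-- the `ht`-part of `pe` -/
theorem ht_pe (x : Fin 5 → Bh F) (y : Bh F) (i : ℕ) :
    ht (pe x y) i =
      - (2 • (ht y i * (ix (x 0).v * ix (x 1).v * ix (x 2).v * ix (x 3).v * ix (x 4).v))) +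
      ht (x 0) i * (ix y.v * (ix (x 1).v * ix (x 2).v * ix (x 3).v * ix (x 4).v)) +
      ht (x 1) i * (ix y.v * (ix (x 0).v * ix (x 2).v * ix (x 3).v * ix (x 4).v)) := by
  have h0 := ix_anti (x 0).v y.v
  have h1 := ix_anti (x 1).v y.v
  have h2 := ix_anti (x 2).v y.v
  have a0 : ∀ t : Ex F, ix (x 0).v * (ix y.v * t) = - (ix y.v * (ix (x 0).v * t)) := by
    intro t
    rw [← mul_assoc, h0, neg_mul, mul_assoc]
  have a1 : ∀ t : Ex F, ix (x 1).v * (ix y.v * t) = - (ix y.v * (ix (x 1).v * t)) := by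
    intro t
    rw [← mul_assoc, h1, neg_mul, mul_assoc]
  have a2 : ∀ t : Ex F, ix (x 2).v * (ix y.v * t) = - (ix y.v * (ix (x 2).v * t)) := by
    intro t
    rw [← mul_assoc, h2, neg_mul, mul_assoc]
  simp only [pe, ht_sub, ht_add, ht_nsmul, ht_mul, Bh.v_mul, map_zero, mul_zero, sub_zero, zero_sub,
    zero_mul, sub_mul, mul_assoc, a0, a1, a2, mul_neg, neg_mul, neg_neg, smul_zero, add_zero]
  module

/-- the `ht`-part of `e'` -/
theorem ht_ee (x0 x1 x2 x3 x4 y : Bh F) (i : ℕ) :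
    ht (ee F x0 x1 x2 x3 x4 y) i =
      (-240 : F) • (ht y i * (ix x0.v * ix x1.v * ix x2.v * ix x3.v * ix x4.v)) := by
  set a : Fin 5 → Bh F := ![x0, x1, x2, x3, x4] with ha
  set h : Equiv.Perm (Fin 5) → Ex F := fun s =>
    ht (a (s 0)) i * (ix y.v * (ix (a (s 1)).v * ix (a (s 2)).v * ix (a (s 3)).v * ix (a (s 4)).v)) with hh
  unfold ee
  rw [eL_apply, ht_sum, ← ha]
  have h1 : ∀ s : Equiv.Perm (Fin 5), ht (Equiv.Perm.sign s • pe (a ∘ s) y) i =
      - (2 • (ht y i * (ix x0.v * ix x1.v * ix x2.v * ix x3.v * ix x4.v))) + Equiv.Perm.sign s • h s +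
        Equiv.Perm.sign s • h (s * Equiv.swap 0 1) := by
    intro s
    have hp := prod5 (fun k => (a k).v) s
    have s0 : (s * Equiv.swap 0 1 : Equiv.Perm (Fin 5)) 0 = s 1 := by simp
    have s1 : (s * Equiv.swap 0 1 : Equiv.Perm (Fin 5)) 1 = s 0 := by simp
    have s2 : (s * Equiv.swap 0 1 : Equiv.Perm (Fin 5)) 2 = s 2 := by
      rw [Equiv.Perm.mul_apply, Equiv.swap_apply_of_ne_of_ne (by decide) (by decide)]
    have s3 : (s * Equiv.swap 0 1 : Equiv.Perm (Fin 5)) 3 = s 3 := by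
      rw [Equiv.Perm.mul_apply, Equiv.swap_apply_of_ne_of_ne (by decide) (by decide)]
    have s4 : (s * Equiv.swap 0 1 : Equiv.Perm (Fin 5)) 4 = s 4 := by
      rw [Equiv.Perm.mul_apply, Equiv.swap_apply_of_ne_of_ne (by decide) (by decide)]
    rw [Units.smul_def, ht_zsmul, ht_pe, hh]
    simp only [Function.comp_apply, s0, s1, s2, s3, s4, smul_add, smul_neg, ← Units.smul_def]
    congr 3
    rw [smul_comm, ← mul_smul_comm, hp]
    rfl
  rw [Finset.sum_congr rfl fun s _ => h1 s, Finset.sum_add_distrib, Finset.sum_add_distrib]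
  have h2 : ∑ s : Equiv.Perm (Fin 5), Equiv.Perm.sign s • h (s * Equiv.swap 0 1) =
      - ∑ s : Equiv.Perm (Fin 5), Equiv.Perm.sign s • h s := by
    rw [← Finset.sum_neg_distrib, ← Equiv.sum_comp (Equiv.mulRight (Equiv.swap (0 : Fin 5) 1))
      (fun s => - (Equiv.Perm.sign s • h s))]
    refine Finset.sum_congr rfl fun s _ => ?_
    simp only [Equiv.coe_mulRight, Equiv.Perm.sign_mul,
      Equiv.Perm.sign_swap (show (0 : Fin 5) ≠ 1 by decide), mul_neg, mul_one, Units.neg_smul,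
      neg_neg]
  rw [h2, add_neg_cancel_right, Finset.sum_const, Finset.card_univ, Fintype.card_perm,
    Fintype.card_fin]
  have : Nat.factorial 5 = 120 := by decide
  rw [this]
  module

/-- elements without `v`- and `w`-part are central -/
theorem mul_zero_of {q : Bh F} (hv : q.v = 0) (hw : ∀ i, q.w i = 0) (c : Bh F) : q * c = 0 := by
  apply Bh.ext
  · simp
  · intro i; simp [Bh.w_mul, hv, hw]
  · intro i j; simp [Bh.z_mul, hv, hw]

end E7ph

open E7ph

/-- `zz` vanishes on the model algebra -/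
theorem zz_Bh (x0 x1 x2 x3 x4 u v c : Bh F) : zz F x0 x1 x2 x3 x4 u v c = 0 := by
  unfold zz
  set X : Ex F := ix x0.v * ix x1.v * ix x2.v * ix x3.v * ix x4.v with hX
  have hv : (ee F x0 x1 x2 x3 x4 (u * v) - ee F x0 x1 x2 x3 x4 v * u +
      ee F x0 x1 x2 x3 x4 u * v).v = 0 := by
    rw [Bh.v_add, Bh.v_sub, Bh.ee_v, Bh.v_mul, Bh.v_mul, sub_zero, add_zero]
  have hc : ∀ b : VL F, X * ix b = - (ix b * X) := by
    intro b
    have a : ∀ (k : VL F) (t : Ex F), ix k * (ix b * t) = - (ix b * (ix k * t)) := by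
      intro k t
      rw [← mul_assoc, ix_anti k b, neg_mul, mul_assoc]
    rw [hX]
    simp only [mul_assoc]
    rw [ix_anti x4.v b]
    simp only [mul_neg, a, neg_neg]
  apply mul_zero_of hv
  intro i
  have h1 : ht (ee F x0 x1 x2 x3 x4 (u * v) - ee F x0 x1 x2 x3 x4 v * u +
      ee F x0 x1 x2 x3 x4 u * v) i = 0 := by
    rw [ht_add, ht_sub, ht_mul, ht_mul, ht_ee, ht_ee, ht_ee, ht_mul, Bh.ee_v, Bh.ee_v, map_zero,
      mul_zero, mul_zero, sub_zero, sub_zero, ← hX]
    simp only [smul_mul_assoc, sub_mul, mul_assoc]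
    rw [hc u.v, hc v.v]
    simp only [mul_neg]
    module
  unfold ht at h1
  rw [hv] at h1
  simpa using h1

theorem hom_zz {A : Type*} [NonUnitalNonAssocRing A] [Module F A] [IsScalarTower F A A]
    [SMulCommClass F A A] {B : Type*} [NonUnitalNonAssocRing B] [Module F B] [IsScalarTower F B B]
    [SMulCommClass F B B] (f : A →ₙₐ[F] B) (x0 x1 x2 x3 x4 u v c : A) :
    f (zz F x0 x1 x2 x3 x4 u v c) = zz F (f x0) (f x1) (f x2) (f x3) (f x4) (f u) (f v) (f c) := by
  unfold zz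
  rw [map_mul, map_add, map_sub, map_mul, map_mul, hom_ee, hom_ee, hom_ee, map_mul]

/-- `phi` vanishes on the values of `zz` -/
theorem phi_zz (x0 x1 x2 x3 x4 u v c : FreeMalcev F ℕ) : phi F (zz F x0 x1 x2 x3 x4 u v c) = 0 := by
  have h1 := hom_zz (phi F) x0 x1 x2 x3 x4 u v c
  rw [h1, zz_Bh]

end Pool.Agent.MalP
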