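import Pool.Agent.MalP.P7.ZFin
import Pool.Agent.MalP.P7.E7ph
import Pool.Agent.MalP.MQ

/-! # p = 7: the T-ideal of `zz` in the free Malcev algebra -/

set_option autoImplicit false

open scoped BigOperators

namespace Pool.Agent.MalP

universe u

variable (F : Type u) [Field F] [C23 F]

/-- the span of all values of `zz` -/
noncomputable def E7sub : Submodule F (FreeMalcev F ℕ) :=
  Submodule.span F (Set.range fun x : Fin 8 → FreeMalcev F ℕ => zzM F x)

namespace E7a

variable {F}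

set_option linter.unusedSectionVars false

theorem pe_mem {x : Fin 5 → FreeMalcev F ℕ} {y : FreeMalcev F ℕ} {c : Fin 5 → Multiset ℕ}
    {d : Multiset ℕ} (hx : ∀ i, x i ∈ GM F (c i)) (hy : y ∈ GM F d) :
    pe x y ∈ GM F ((∑ i, c i) + d) := by
  have e0 : (∑ i, c i) = c 0 + c 1 + c 2 + c 3 + c 4 := by
    simp [Fin.sum_univ_succ, add_assoc]
  rw [e0]
  unfold pe
  have h1 : ((((x 0 * y) * x 1) * x 2) * x 3) * x 4 ∈ GM F (c 0 + c 1 + c 2 + c 3 + c 4 + d) := by
    have h := GM_mul (GM_mul (GM_mul (GM_mul (GM_mul (hx 0) hy) (hx 1)) (hx 2)) (hx 3)) (hx 4)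
    have e : c 0 + d + c 1 + c 2 + c 3 + c 4 = c 0 + c 1 + c 2 + c 3 + c 4 + d := by abel
    rwa [e] at h
  have h2 : ((((x 0 * x 1) * y) * x 2) * x 3) * x 4 ∈ GM F (c 0 + c 1 + c 2 + c 3 + c 4 + d) := by
    have h := GM_mul (GM_mul (GM_mul (GM_mul (GM_mul (hx 0) (hx 1)) hy) (hx 2)) (hx 3)) (hx 4)
    have e : c 0 + c 1 + d + c 2 + c 3 + c 4 = c 0 + c 1 + c 2 + c 3 + c 4 + d := by abel
    rwa [e] at h
  have h3 : ((((x 0 * x 1) * x 2) * y) * x 3) * x 4 ∈ GM F (c 0 + c 1 + c 2 + c 3 + c 4 + d) := by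
    have h := GM_mul (GM_mul (GM_mul (GM_mul (GM_mul (hx 0) (hx 1)) (hx 2)) hy) (hx 3)) (hx 4)
    have e : c 0 + c 1 + c 2 + d + c 3 + c 4 = c 0 + c 1 + c 2 + c 3 + c 4 + d := by abel
    rwa [e] at h
  have h4 : (((x 0 * x 1) * y) * x 2) * (x 3 * x 4) ∈ GM F (c 0 + c 1 + c 2 + c 3 + c 4 + d) := by
    have h := GM_mul (GM_mul (GM_mul (GM_mul (hx 0) (hx 1)) hy) (hx 2)) (GM_mul (hx 3) (hx 4))
    have e : c 0 + c 1 + d + c 2 + (c 3 + c 4) = c 0 + c 1 + c 2 + c 3 + c 4 + d := by abel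
    rwa [e] at h
  have h5 : (((x 0 * x 1) * x 2) * x 3) * (x 4 * y) ∈ GM F (c 0 + c 1 + c 2 + c 3 + c 4 + d) := by
    have h := GM_mul (GM_mul (GM_mul (GM_mul (hx 0) (hx 1)) (hx 2)) (hx 3)) (GM_mul (hx 4) hy)
    have e : c 0 + c 1 + c 2 + c 3 + (c 4 + d) = c 0 + c 1 + c 2 + c 3 + c 4 + d := by abel
    rwa [e] at h
  exact Submodule.sub_mem _ (Submodule.sub_mem _ (Submodule.add_mem _ (Submodule.add_mem _
    (Submodule.smul_of_tower_mem _ 2 h1) (Submodule.smul_of_tower_mem _ 5 h2))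
    (Submodule.smul_of_tower_mem _ 4 h3))
    (Submodule.smul_of_tower_mem _ 3 h4)) (Submodule.smul_of_tower_mem _ 2 h5)

theorem eL_mem {x : Fin 5 → FreeMalcev F ℕ} {y : FreeMalcev F ℕ} {c : Fin 5 → Multiset ℕ}
    {d : Multiset ℕ} (hx : ∀ i, x i ∈ GM F (c i)) (hy : y ∈ GM F d) :
    eL F x y ∈ GM F ((∑ i, c i) + d) := by
  rw [eL_apply]
  apply Submodule.sum_mem
  intro s _
  have h : pe (x ∘ s) y ∈ GM F ((∑ i, c (s i)) + d) := pe_mem (fun i => hx (s i)) hy
  rw [Equiv.sum_comp s c] at h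
  rw [Units.smul_def]
  exact Submodule.smul_of_tower_mem _ _ h

theorem ee_mem {x0 x1 x2 x3 x4 y : FreeMalcev F ℕ} {c0 c1 c2 c3 c4 d : Multiset ℕ}
    (h0 : x0 ∈ GM F c0) (h1 : x1 ∈ GM F c1) (h2 : x2 ∈ GM F c2) (h3 : x3 ∈ GM F c3)
    (h4 : x4 ∈ GM F c4) (hy : y ∈ GM F d) :
    ee F x0 x1 x2 x3 x4 y ∈ GM F (c0 + c1 + c2 + c3 + c4 + d) := by
  unfold ee
  have h := eL_mem (x := ![x0, x1, x2, x3, x4]) (c := ![c0, c1, c2, c3, c4]) (y := y)
    (d := d) (by intro i; fin_cases i <;> assumption) hy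
  have e : (∑ i, (![c0, c1, c2, c3, c4] : Fin 5 → Multiset ℕ) i) = c0 + c1 + c2 + c3 + c4 := by
    simp [Fin.sum_univ_succ, add_assoc]
  rwa [e] at h

/-- `zz` is homogeneous -/
theorem zz_mem {x0 x1 x2 x3 x4 u v c : FreeMalcev F ℕ} {c0 c1 c2 c3 c4 d5 d6 d7 : Multiset ℕ}
    (h0 : x0 ∈ GM F c0) (h1 : x1 ∈ GM F c1) (h2 : x2 ∈ GM F c2) (h3 : x3 ∈ GM F c3)
    (h4 : x4 ∈ GM F c4) (hu : u ∈ GM F d5) (hv : v ∈ GM F d6) (hc : c ∈ GM F d7) :
    zz F x0 x1 x2 x3 x4 u v c ∈ GM F (c0 + c1 + c2 + c3 + c4 + d5 + d6 + d7) := by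
  unfold zz
  refine GM_mul (Submodule.add_mem _ (Submodule.sub_mem _ ?_ ?_) ?_) hc
  · have h := ee_mem h0 h1 h2 h3 h4 (GM_mul hu hv)
    have e : c0 + c1 + c2 + c3 + c4 + (d5 + d6) = c0 + c1 + c2 + c3 + c4 + d5 + d6 := by abel
    rwa [e] at h
  · have h := GM_mul (ee_mem h0 h1 h2 h3 h4 hv) hu
    have e : c0 + c1 + c2 + c3 + c4 + d6 + d5 = c0 + c1 + c2 + c3 + c4 + d5 + d6 := by abel
    rwa [e] at h
  · exact GM_mul (ee_mem h0 h1 h2 h3 h4 hu) hv

theorem of_mem (i : ℕ) : (FreeMalcev.of i : FreeMalcev F ℕ) ∈ GM F {i} := by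
  rw [of_eq_wdM, GM_eq]
  exact Submodule.subset_span ⟨FreeMagma.of i, rfl, rfl⟩

/-- the multidegree of a value at letters -/
theorem zzM_of_mem (i : Fin 8 → ℕ) :
    zzM F (fun j => (FreeMalcev.of (i j) : FreeMalcev F ℕ)) ∈ GM F (∑ j, {i j}) := by
  rw [zzM_apply]
  have h := zz_mem (F := F) (of_mem (i 0)) (of_mem (i 1)) (of_mem (i 2)) (of_mem (i 3))
    (of_mem (i 4)) (of_mem (i 5)) (of_mem (i 6)) (of_mem (i 7))
  have e : (∑ j : Fin 8, ({i j} : Multiset ℕ)) =
      {i 0} + {i 1} + {i 2} + {i 3} + {i 4} + {i 5} + {i 6} + {i 7} := by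
    simp only [Fin.sum_univ_eight]
  rw [e]
  exact h

/-- values at words -/
theorem word_case (h7 : (7 : F) = 0) {x : Fin 8 → FreeMalcev F ℕ}
    (hx : ∀ j, ∃ w : FreeMagma ℕ, x j = wdM w) :
    zzM F x ∈ Submodule.span F
      (Set.range fun i : Fin 8 → ℕ => zzM F fun j => (FreeMalcev.of (i j) : FreeMalcev F ℕ)) := by
  by_cases hl : ∀ j, ∃ i : ℕ, x j = FreeMalcev.of i
  · choose i hi using hl
    have e : x = fun j => (FreeMalcev.of (i j) : FreeMalcev F ℕ) := funext hi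
    rw [e]
    exact Submodule.subset_span ⟨i, rfl⟩
  · push Not at hl
    obtain ⟨j, hj⟩ := hl
    obtain ⟨w, hw⟩ := hx j
    cases w with
    | of i => exact absurd (hw.trans (of_eq_wdM i).symm) (hj i)
    | mul a b =>
      have h : x j = wdM a * wdM b := by
        rw [wdM_mul]
        exact hw
      rw [zzM_prod F h7 FreeMalcev.isMalcev x j _ _ h]
      exact Submodule.zero_mem _

theorem mem_step (h7 : (7 : F) = 0) (s : Finset (Fin 8)) :
    ∀ x : Fin 8 → FreeMalcev F ℕ, (∀ j, j ∉ s → ∃ w : FreeMagma ℕ, x j = wdM w) →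
    zzM F x ∈ Submodule.span F
      (Set.range fun i : Fin 8 → ℕ => zzM F fun j => (FreeMalcev.of (i j) : FreeMalcev F ℕ)) := by
  induction s using Finset.induction_on with
  | empty =>
    intro x hx
    exact word_case h7 fun j => hx j (Finset.notMem_empty j)
  | insert j s _ ih =>
    intro x hx
    have h1 : ∀ a : FreeMalcev F ℕ, zzM F (Function.update x j a) ∈ Submodule.span F
        (Set.range fun i : Fin 8 → ℕ => zzM F fun j => (FreeMalcev.of (i j) : FreeMalcev F ℕ)) := by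
      intro a
      have ha : a ∈ Submodule.span F (Set.range (wdM : FreeMagma ℕ → FreeMalcev F ℕ)) := by
        rw [span_wdM]
        exact Submodule.mem_top
      have hle : Submodule.span F (Set.range (wdM : FreeMagma ℕ → FreeMalcev F ℕ)) ≤
          Submodule.comap ((zzM F).toLinearMap x j) (Submodule.span F
            (Set.range fun i : Fin 8 → ℕ =>
              zzM F fun j => (FreeMalcev.of (i j) : FreeMalcev F ℕ))) := by
        rw [Submodule.span_le]
        rintro _ ⟨w, rfl⟩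
        rw [SetLike.mem_coe, Submodule.mem_comap, MultilinearMap.toLinearMap_apply]
        refine ih _ fun k hk => ?_
        by_cases hkj : k = j
        · subst hkj
          exact ⟨w, by rw [Function.update_self]⟩
        · rw [Function.update_of_ne hkj]
          exact hx k (by
            rw [Finset.mem_insert]
            tauto)
      have h2 := hle ha
      rw [Submodule.mem_comap, MultilinearMap.toLinearMap_apply] at h2
      exact h2
    have h3 := h1 (x j)
    rwa [Function.update_eq_self] at h3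

end E7a

open E7a

/-- `E7sub` is spanned by the values at letters (`zzM_prod`, `span_wdM`, `MultilinearMap` expansion) -/
theorem E7sub_eq (h7 : (7 : F) = 0) : E7sub F =
    Submodule.span F (Set.range fun i : Fin 8 → ℕ => zzM F fun j => (FreeMalcev.of (i j) : FreeMalcev F ℕ)) := by
  apply le_antisymm
  · unfold E7sub
    rw [Submodule.span_le]
    rintro _ ⟨x, rfl⟩
    exact mem_step h7 Finset.univ x fun j hj => absurd (Finset.mem_univ j) hj
  · rw [Submodule.span_le]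
    rintro _ ⟨i, rfl⟩
    exact Submodule.subset_span ⟨_, rfl⟩

theorem E7sub_mul (h7 : (7 : F) = 0) {a : FreeMalcev F ℕ} (ha : a ∈ E7sub F)
    (b : FreeMalcev F ℕ) : a * b = 0 := by
  unfold E7sub at ha
  induction ha using Submodule.span_induction with
  | mem x hx =>
    obtain ⟨y, rfl⟩ := hx
    simp only
    rw [zzM_apply]
    exact zz_mul7 F h7 FreeMalcev.isMalcev _ _ _ _ _ _ _ _ _
  | zero => rw [zero_mul]
  | add x y _ _ hx hy => rw [add_mul, hx, hy, add_zero]
  | smul c x _ hx => rw [smul_mul_assoc, hx, smul_zero]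

/-- the graded ideal: an ideal by `zz_mul`; graded since the spanning elements are homogeneous of multidegree
`Multiset.ofList (List.ofFn i)`; `phi` kills it (`zz = 0` on `Bh F`) -/
noncomputable def GE7 (h7 : (7 : F) = 0) : GE F where
  E := E7sub F
  idl := fun a ha b => by
    have h1 := E7sub_mul F h7 ha b
    have h2 : b * a = 0 := by
      have h3 := (FreeMalcev.isMalcev (F := F) (X := ℕ)).sq (a + b)
      have h4 := (FreeMalcev.isMalcev (F := F) (X := ℕ)).sq a
      have h5 := (FreeMalcev.isMalcev (F := F) (X := ℕ)).sq b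
      rw [add_mul, mul_add, mul_add, h4, h5, h1, zero_add, zero_add, add_zero] at h3
      exact h3
    rw [h1, h2]
    exact ⟨Submodule.zero_mem _, Submodule.zero_mem _⟩
  gr := fun m p hp => by
    rw [E7sub_eq F h7] at hp ⊢
    induction hp using Submodule.span_induction with
    | mem x hx =>
      obtain ⟨i, rfl⟩ := hx
      simp only
      rw [piM_of_mem (E7a.zzM_of_mem i)]
      split_ifs
      · exact Submodule.subset_span ⟨i, rfl⟩
      · exact Submodule.zero_mem _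
    | zero =>
      rw [map_zero]
      exact Submodule.zero_mem _
    | add x y _ _ hx hy =>
      rw [map_add]
      exact Submodule.add_mem _ hx hy
    | smul c x _ hx =>
      rw [map_smul]
      exact Submodule.smul_mem _ c hx
  ph := fun p hp => by
    unfold E7sub at hp
    induction hp using Submodule.span_induction with
    | mem x hx =>
      obtain ⟨y, rfl⟩ := hx
      simp only
      rw [zzM_apply]
      exact phi_zz _ _ _ _ _ _ _ _
    | zero => rw [map_zero]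
    | add x y _ _ hx hy => rw [map_add, hx, hy, add_zero]
    | smul c x _ hx => rw [map_smul, hx, smul_zero]

/-- (P8) in the quotient -/
theorem zz_MQ7 (h7 : (7 : F) = 0) (x0 x1 x2 x3 x4 u v c : MQ (GE7 F h7)) :
    zz F x0 x1 x2 x3 x4 u v c = 0 := by
  obtain ⟨x0, rfl⟩ := mq_surj x0
  obtain ⟨x1, rfl⟩ := mq_surj x1
  obtain ⟨x2, rfl⟩ := mq_surj x2
  obtain ⟨x3, rfl⟩ := mq_surj x3
  obtain ⟨x4, rfl⟩ := mq_surj x4
  obtain ⟨u, rfl⟩ := mq_surj u
  obtain ⟨v, rfl⟩ := mq_surj v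
  obtain ⟨c, rfl⟩ := mq_surj c
  rw [← zz_hom F (mq (GE7 F h7)), mq_eq_zero]
  show zz F x0 x1 x2 x3 x4 u v c ∈ E7sub F
  refine Submodule.subset_span ⟨![x0, x1, x2, x3, x4, u, v, c], ?_⟩
  simp only
  rw [zzM_apply]
  rfl

end Pool.Agent.MalP
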