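import Pool.Agent.MalP.P7.Ex7
import Pool.Agent.MalP.P7.ZDefs
import Pool.Agent.MalP.Two
import Pool.Agent.MalP.Z8Of

/-! # p = 7: from the certificates to identities -/

set_option autoImplicit false

namespace Pool.Agent.MalP

universe u v

open Finset Equiv

section

variable {A : Type v} [NonUnitalNonAssocRing A]

/-- `P(t; u, v)` -/
def PB (t : Fin 5 → A) (u v : A) : A := pe t (u * v) - pe t v * u + pe t u * v

theorem P7_ev (w : ℕ → A) (x0 x1 x2 x3 x4 u v : PEx) : (PEx.P7 x0 x1 x2 x3 x4 u v).ev w =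
    PB ![x0.ev w, x1.ev w, x2.ev w, x3.ev w, x4.ev w] (u.ev w) (v.ev w) := rfl

theorem peS_ev (w : ℕ → A) (x0 x1 x2 x3 x4 s : PEx) : (PEx.peS x0 x1 x2 x3 x4 s).ev w =
    peS ![x0.ev w, x1.ev w, x2.ev w, x3.ev w, x4.ev w] (s.ev w) := rfl

theorem zR1Ex_ev (w : ℕ → A) :
    zR1Ex.ev w = PB ![w 0, w 1, w 2, w 3, w 4] (w 5) (w 6) * w 7 := rfl

theorem zC2Ex_ev (w : ℕ → A) :
    zC2Ex.ev w = (PB ![w 0, w 1, w 2, w 3, w 4] (w 5) (w 6) * w 8) * w 7 := rfl

theorem zDEx_ev (w : ℕ → A) :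
    zDEx.ev w = PB ![w 0, w 1, w 2, w 3, w 4] (w 5) (w 6) * w 7 -
      (peS ![w 0, w 1, w 2, w 3, w 4] (w 5 * w 7) * w 6 +
        (w 5 * w 7) * pe ![w 0, w 1, w 2, w 3, w 4] (w 6) +
        peS ![w 0, w 1, w 2, w 3, w 4] ((w 5 * w 7) * w 6)) := rfl

/-- the rotations of the letters 5, 6, 7 -/
def rot3 : Fin 3 → Perm (Fin 8) := ![1, swap 5 6 * swap 6 7, swap 6 7 * swap 5 6]

/-- the permutations used for (R1) and (C2) -/
def t3 (r : Perm (Fin 5) × Fin 3) : Perm (Fin 8) := r.1.viaFintypeEmbedding em58 * rot3 r.2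

theorem rot3_em (r : Fin 3) (i : Fin 5) : rot3 r (em58 i) = em58 i := by
  revert i r
  decide

theorem rot3_sign (r : Fin 3) : Perm.sign (rot3 r) = 1 := by
  revert r
  decide

theorem rot3_ge (r : Fin 3) (j : Fin 8) (hj : j = 5 ∨ j = 6 ∨ j = 7) :
    rot3 r j = 5 ∨ rot3 r j = 6 ∨ rot3 r j = 7 := by
  revert hj
  revert j r
  decide

theorem t3_em (r : Perm (Fin 5) × Fin 3) (i : Fin 5) : t3 r (em58 i) = em58 (r.1 i) := by
  unfold t3
  rw [Perm.mul_apply, rot3_em, Perm.viaFintypeEmbedding_apply_image]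

theorem t3_ge (r : Perm (Fin 5) × Fin 3) (j : Fin 8) (hj : j = 5 ∨ j = 6 ∨ j = 7) :
    t3 r j = rot3 r.2 j := by
  unfold t3
  rw [Perm.mul_apply]
  exact Perm.viaFintypeEmbedding_apply_notMem_range r.1 em58 (em58_not (rot3_ge r.2 j hj))

theorem t3_sign (r : Perm (Fin 5) × Fin 3) : Perm.sign (t3 r) = Perm.sign r.1 := by
  unfold t3
  rw [Perm.sign_mul, Perm.viaFintypeEmbedding_sign, rot3_sign, mul_one]

theorem em58_or (i : Fin 8) : (∃ i' : Fin 5, em58 i' = i) ∨ (i = 5 ∨ i = 6 ∨ i = 7) := by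
  revert i
  decide

theorem t3_cls (r : Perm (Fin 5) × Fin 3) (i : Fin 8) :
    clsL [0, 0, 0, 0, 0, 1, 1, 1] (t3 r i) = clsL [0, 0, 0, 0, 0, 1, 1, 1] i := by
  have h3 : ∀ a b : Fin 5, clsL [0, 0, 0, 0, 0, 1, 1, 1] (em58 a) =
    clsL [0, 0, 0, 0, 0, 1, 1, 1] (em58 b) := by decide
  have h4 : ∀ i : Fin 8, (i = 5 ∨ i = 6 ∨ i = 7) → clsL [0, 0, 0, 0, 0, 1, 1, 1] i = 1 := by
    decide
  rcases em58_or i with ⟨i', rfl⟩ | h
  · rw [t3_em]
    exact h3 _ _
  · rw [t3_ge _ _ h, h4 _ (rot3_ge _ _ h), h4 _ h]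

theorem em58_cls3 : ∀ i j : Fin 8, i ≠ j →
    clsL [0, 0, 0, 0, 0, 1, 1, 1] i = clsL [0, 0, 0, 0, 0, 1, 1, 1] j →
    (∃ i' j' : Fin 5, i' ≠ j' ∧ em58 i' = i ∧ em58 j' = j) ∨
      ((i = 5 ∨ i = 6 ∨ i = 7) ∧ (j = 5 ∨ j = 6 ∨ j = 7)) := by decide

/-- three odd letters of a second class, the expression being skew in two of them after the
alternation over the first class: the cyclic sum vanishes -/
theorem alt_three {M : ℕ} {ids : List PEx} (hids : ∀ e ∈ ids, e.ml = true) (cls : ℕ → ℕ) (e : PEx)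
    (he : e.ml = true) (hk : ∀ i : Fin 8, (i : ℕ) ∈ e.ls)
    (hc : ∀ i : Fin 8, cls i = clsL [0, 0, 0, 0, 0, 1, 1, 1] i)
    (heven : ∀ l ∈ e.ls, 8 ≤ l → par2 (cls l) = false) (C : Cert.{v} M ids par2 cls e)
    (hA : Alg M ids A) (w : ℕ → A) (Q : (Fin 5 → A) → A → A → A → A)
    (hQ : ∀ y : Fin 8 → A, e.ev (asg 8 cls y w) = Q (y ∘ em58) (y 5) (y 6) (y 7))
    (hs : ∀ (X : Fin 5 → A) (u v c : A),
      Alt 5 (fun t => Q t v u c) X = - Alt 5 (fun t => Q t u v c) X)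
    (hsm : ClsOk M 8 cls) (X : Fin 5 → A) (u v c : A) :
    Alt 5 (fun t => Q t u v c) X + Alt 5 (fun t => Q t v c u) X +
      Alt 5 (fun t => Q t c u v) X = 0 := by
  have hodd : ∀ i : Fin 8, par2 (cls i) = true := by
    intro i
    rw [hc]
    revert i
    decide
  have key := super_skew2 hids 8 par2 cls e he hk hodd heven C hA w t3
    (fun r i => by rw [hc, hc, t3_cls])
    (fun q => Alt 5 (fun t => Q t (q 5) (q 6) (q 7)) (q ∘ em58) +
      Alt 5 (fun t => Q t (q 6) (q 7) (q 5)) (q ∘ em58) +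
      Alt 5 (fun t => Q t (q 7) (q 5) (q 6)) (q ∘ em58))
    (fun q => by
      rw [Fintype.sum_prod_type, ← Alt_add, ← Alt_add]
      unfold Alt
      refine sum_congr rfl fun τ _ => ?_
      have h1 : ∀ r : Fin 3, (q ∘ t3 (τ, r)) ∘ em58 = (q ∘ em58) ∘ τ := by
        intro r
        funext i
        simp only [Function.comp_apply]
        rw [t3_em]
      have h5 : ∀ r : Fin 3, (q ∘ t3 (τ, r)) 5 = q (rot3 r 5) := fun r =>
        congrArg q (t3_ge (τ, r) 5 (Or.inl rfl))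
      have h6 : ∀ r : Fin 3, (q ∘ t3 (τ, r)) 6 = q (rot3 r 6) := fun r =>
        congrArg q (t3_ge (τ, r) 6 (Or.inr (Or.inl rfl)))
      have h7 : ∀ r : Fin 3, (q ∘ t3 (τ, r)) 7 = q (rot3 r 7) := fun r =>
        congrArg q (t3_ge (τ, r) 7 (Or.inr (Or.inr rfl)))
      rw [Fin.sum_univ_three, hQ, hQ, hQ, t3_sign, t3_sign, t3_sign, h1, h1, h1, h5, h5, h5, h6,
        h6, h6, h7, h7, h7, ← smul_add, ← smul_add]
      have r05 : rot3 0 5 = 5 := by decide
      have r06 : rot3 0 6 = 6 := by decide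
      have r07 : rot3 0 7 = 7 := by decide
      have r15 : rot3 1 5 = 6 := by decide
      have r16 : rot3 1 6 = 7 := by decide
      have r17 : rot3 1 7 = 5 := by decide
      have r25 : rot3 2 5 = 7 := by decide
      have r26 : rot3 2 6 = 5 := by decide
      have r27 : rot3 2 7 = 6 := by decide
      rw [r05, r06, r07, r15, r16, r17, r25, r26, r27]
      rfl)
    (fun i j hij hcl q => by
      rw [hc, hc] at hcl
      rcases em58_cls3 i j hij hcl with ⟨i', j', h1, rfl, rfl⟩ | ⟨hi, hj⟩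
      · have hem : ∀ l : Fin 5, em58 l ≠ 5 ∧ em58 l ≠ 6 ∧ em58 l ≠ 7 := by decide
        have e1 : (q ∘ swap (em58 i') (em58 j')) ∘ em58 = (q ∘ em58) ∘ swap i' j' := by
          funext l
          simp only [Function.comp_apply]
          rw [em58.injective.swap_apply]
        have e5 : (q ∘ swap (em58 i') (em58 j')) 5 = q 5 := by
          rw [Function.comp_apply, swap_apply_of_ne_of_ne (hem i').1.symm (hem j').1.symm]
        have e6 : (q ∘ swap (em58 i') (em58 j')) 6 = q 6 := by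
          rw [Function.comp_apply, swap_apply_of_ne_of_ne (hem i').2.1.symm (hem j').2.1.symm]
        have e7 : (q ∘ swap (em58 i') (em58 j')) 7 = q 7 := by
          rw [Function.comp_apply, swap_apply_of_ne_of_ne (hem i').2.2.symm (hem j').2.2.symm]
        rw [e1, e5, e6, e7, Alt_swap _ _ h1, Alt_swap _ _ h1, Alt_swap _ _ h1]
        abel
      · have e1 : (q ∘ swap i j) ∘ em58 = q ∘ em58 := by
          funext l
          have hem : em58 l ≠ i ∧ em58 l ≠ j := by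
            revert hi hj
            revert i j l
            decide
          simp only [Function.comp_apply]
          rw [swap_apply_of_ne_of_ne hem.1 hem.2]
        rw [e1]
        rcases hi with rfl | rfl | rfl <;> rcases hj with rfl | rfl | rfl
        · exact absurd rfl hij
        · have e5 : (q ∘ swap (5 : Fin 8) 6) 5 = q 6 := rfl
          have e6 : (q ∘ swap (5 : Fin 8) 6) 6 = q 5 := rfl
          have e7 : (q ∘ swap (5 : Fin 8) 6) 7 = q 7 := rfl
          rw [e5, e6, e7, hs _ (q 5) (q 6) (q 7), hs _ (q 7) (q 5) (q 6), hs _ (q 6) (q 7) (q 5)]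
          abel
        · have e5 : (q ∘ swap (5 : Fin 8) 7) 5 = q 7 := rfl
          have e6 : (q ∘ swap (5 : Fin 8) 7) 6 = q 6 := rfl
          have e7 : (q ∘ swap (5 : Fin 8) 7) 7 = q 5 := rfl
          rw [e5, e6, e7, hs _ (q 5) (q 6) (q 7), hs _ (q 7) (q 5) (q 6), hs _ (q 6) (q 7) (q 5)]
          abel
        · have e5 : (q ∘ swap (6 : Fin 8) 5) 5 = q 6 := rfl
          have e6 : (q ∘ swap (6 : Fin 8) 5) 6 = q 5 := rfl
          have e7 : (q ∘ swap (6 : Fin 8) 5) 7 = q 7 := rfl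
          rw [e5, e6, e7, hs _ (q 5) (q 6) (q 7), hs _ (q 7) (q 5) (q 6), hs _ (q 6) (q 7) (q 5)]
          abel
        · exact absurd rfl hij
        · have e5 : (q ∘ swap (6 : Fin 8) 7) 5 = q 5 := rfl
          have e6 : (q ∘ swap (6 : Fin 8) 7) 6 = q 7 := rfl
          have e7 : (q ∘ swap (6 : Fin 8) 7) 7 = q 6 := rfl
          rw [e5, e6, e7, hs _ (q 5) (q 6) (q 7), hs _ (q 7) (q 5) (q 6), hs _ (q 6) (q 7) (q 5)]
          abel
        · have e5 : (q ∘ swap (7 : Fin 8) 5) 5 = q 7 := rfl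
          have e6 : (q ∘ swap (7 : Fin 8) 5) 6 = q 6 := rfl
          have e7 : (q ∘ swap (7 : Fin 8) 5) 7 = q 5 := rfl
          rw [e5, e6, e7, hs _ (q 5) (q 6) (q 7), hs _ (q 7) (q 5) (q 6), hs _ (q 6) (q 7) (q 5)]
          abel
        · have e5 : (q ∘ swap (7 : Fin 8) 6) 5 = q 5 := rfl
          have e6 : (q ∘ swap (7 : Fin 8) 6) 6 = q 7 := rfl
          have e7 : (q ∘ swap (7 : Fin 8) 6) 7 = q 6 := rfl
          rw [e5, e6, e7, hs _ (q 5) (q 6) (q 7), hs _ (q 7) (q 5) (q 6), hs _ (q 6) (q 7) (q 5)]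
          abel
        · exact absurd rfl hij)
    ![X 0, X 1, X 2, X 3, X 4, u, v, c] hsm
  have e1 : ((![X 0, X 1, X 2, X 3, X 4, u, v, c] : Fin 8 → A) ∘ em58) = X := by
    funext l; fin_cases l <;> rfl
  have e5 : (![X 0, X 1, X 2, X 3, X 4, u, v, c] : Fin 8 → A) 5 = u := rfl
  have e6 : (![X 0, X 1, X 2, X 3, X 4, u, v, c] : Fin 8 → A) 6 = v := rfl
  have e7 : (![X 0, X 1, X 2, X 3, X 4, u, v, c] : Fin 8 → A) 7 = c := rfl
  simp only [e1, e5, e6, e7] at key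
  exact key

theorem PB_skew (h : IsMalcev A) (t : Fin 5 → A) (u v : A) : PB t v u = - PB t u v := by
  have e1 : v * u = -(u * v) := h.ac v u
  have e2 : pe t (-(u * v)) = - pe t (u * v) := by
    simp only [pe, mul_neg, neg_mul, smul_neg]
    abel
  unfold PB
  rw [e1, e2]
  abel

end

variable (F : Type u) [Field F] {A : Type v} [NonUnitalNonAssocRing A] [Module F A]
  [IsScalarTower F A A] [SMulCommClass F A A]

omit [IsScalarTower F A A] [SMulCommClass F A A] in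
theorem ci5_of_seven [C23 F] (h7 : (7 : F) = 0) : CI 5 F := ⟨by
  have h5 : (5 : F) = -2 := by
    have h : (5 : F) = 7 - 2 := by norm_num
    rw [h, h7, zero_sub]
  have h3 : ((6 * 5 : ℕ) : F) = 2 * 3 * 5 := by norm_num
  rw [h3, h5]
  exact mul_ne_zero (mul_ne_zero C23.two C23.three) (neg_ne_zero.2 C23.two)⟩

/-- `sevEx` holds when `7 = 0` in `F` -/
theorem alg7 [C23 F] (h7 : (7 : F) = 0) (h : IsMalcev A) : Alg 5 ids7 A := by
  have := ci5_of_seven F h7
  exact {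
    tf := tf_of_field F
    ids := by
      intro e he y
      have h1 := (h.algM 5 F).ids e
      simp only [ids7, List.mem_cons, List.not_mem_nil, or_false] at he
      rcases he with rfl | rfl | rfl
      · exact h1 (by simp [idsM]) y
      · exact h1 (by simp [idsM]) y
      · show (7 : ℕ) • y 0 = 0
        rw [← Nat.cast_smul_eq_nsmul F, Nat.cast_ofNat, h7, zero_smul] }

theorem zz_altB (x0 x1 x2 x3 x4 u v c : A) :
    zz F x0 x1 x2 x3 x4 u v c = Alt 5 (fun t => PB t u v * c) ![x0, x1, x2, x3, x4] := by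
  unfold zz PB
  rw [ee0, ee0, ee0, ← Alt_mul, ← Alt_mul, ← Alt_sub, ← Alt_add, ← Alt_mul]

theorem eeS_alt (x0 x1 x2 x3 x4 s : A) :
    eeS F x0 x1 x2 x3 x4 s = Alt 5 (fun t => peS t s) ![x0, x1, x2, x3, x4] := by
  unfold eeS
  rw [eSL_apply]
  rfl

theorem zz_R1_of [C23 F] (h7 : (7 : F) = 0)
    (C : Cert.{v} 5 ids7 par2 (clsL [0, 0, 0, 0, 0, 1, 1, 1]) zR1Ex) (h : IsMalcev A)
    (x0 x1 x2 x3 x4 u v c : A) :
    zz F x0 x1 x2 x3 x4 u v c + zz F x0 x1 x2 x3 x4 v c u + zz F x0 x1 x2 x3 x4 c u v = 0 := by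
  have key := alt_three ids7_ml (clsL [0, 0, 0, 0, 0, 1, 1, 1]) zR1Ex (by decide +kernel)
    (by decide +kernel) (fun _ => rfl) (by decide +kernel) C (alg7 F h7 h) (fun _ => 0)
    (fun t u v c => PB t u v * c)
    (fun y => by
      rw [zR1Ex_ev]
      have e1 : (![y 0, y 1, y 2, y 3, y 4] : Fin 5 → A) = y ∘ em58 := by
        funext j; fin_cases j <;> rfl
      rw [← e1]
      rfl)
    (fun X u v c => by
      rw [← Alt_neg]
      congr 1
      funext t
      rw [PB_skew h, neg_mul])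
    (by decide +kernel) ![x0, x1, x2, x3, x4] u v c
  rw [zz_altB, zz_altB, zz_altB]
  exact key

theorem zz_R2_of [C23 F] (h7 : (7 : F) = 0)
    (C : Cert.{v} 5 ids7 par1 (clsL [0, 0, 0, 0, 1, 2, 1, 1]) zR2Ex) (h : IsMalcev A)
    (x0 x1 x2 x3 y u : A) : zz F y x0 x1 x2 x3 u y y = 0 := by
  have key := super_alt ids7_ml 4 par1 _ zR2Ex (by decide +kernel) (by decide +kernel)
    (by decide) rfl (by decide +kernel) C (alg7 F h7 h) (wv y u 0 0) ![x0, x1, x2, x3]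
  unfold zz
  rw [ee1, ee1, ee1, ← Alt_mul, ← Alt_mul, ← Alt_sub, ← Alt_add, ← Alt_mul]
  exact key

theorem zz_C1_of [C23 F] (h7 : (7 : F) = 0)
    (C : Cert.{v} 5 ids7 par1 (clsL [0, 0, 0, 0, 0, 1, 2, 1, 2]) zC1Ex) (h : IsMalcev A)
    (x0 x1 x2 x3 x4 y w : A) : zz F x0 x1 x2 x3 x4 y w y * w = 0 := by
  have key := super_alt ids7_ml 5 par1 _ zC1Ex (by decide +kernel) (by decide +kernel)
    (by decide) rfl (by decide +kernel) C (alg7 F h7 h) (wv y w 0 0) ![x0, x1, x2, x3, x4]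
  rw [zz_altB, ← Alt_mul]
  exact key

theorem zz_C2_of [C23 F] (h7 : (7 : F) = 0)
    (C : Cert.{v} 5 ids7 par2 (clsL [0, 0, 0, 0, 0, 1, 1, 1, 2]) zC2Ex) (h : IsMalcev A)
    (x0 x1 x2 x3 x4 u v d w : A) :
    zz F x0 x1 x2 x3 x4 u v w * d + zz F x0 x1 x2 x3 x4 v d w * u +
      zz F x0 x1 x2 x3 x4 d u w * v = 0 := by
  have key := alt_three ids7_ml (clsL [0, 0, 0, 0, 0, 1, 1, 1, 2]) zC2Ex (by decide +kernel)
    (by decide +kernel) (by decide) (by decide +kernel) C (alg7 F h7 h) (fun _ => w)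
    (fun t u v c => (PB t u v * w) * c)
    (fun y => by
      rw [zC2Ex_ev]
      have e1 : (![y 0, y 1, y 2, y 3, y 4] : Fin 5 → A) = y ∘ em58 := by
        funext j; fin_cases j <;> rfl
      rw [← e1]
      rfl)
    (fun X u v c => by
      rw [← Alt_neg]
      congr 1
      funext t
      rw [PB_skew h, neg_mul, neg_mul])
    (by decide +kernel) ![x0, x1, x2, x3, x4] u v d
  rw [zz_altB, zz_altB, zz_altB, ← Alt_mul, ← Alt_mul, ← Alt_mul]
  exact key

theorem zz_D_of [C23 F] (h7 : (7 : F) = 0)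
    (C : Cert.{v} 5 ids7 par1 (clsL [0, 0, 0, 0, 0, 2, 1, 1]) zDEx) (h : IsMalcev A)
    (x0 x1 x2 x3 x4 w y : A) :
    zz F x0 x1 x2 x3 x4 w y y = zq F x0 x1 x2 x3 x4 w y y := by
  have key := super_alt ids7_ml 5 par1 _ zDEx (by decide +kernel) (by decide +kernel)
    (by decide) rfl (by decide +kernel) C (alg7 F h7 h) (wv y w 0 0) ![x0, x1, x2, x3, x4]
  rw [← sub_eq_zero, zz_altB]
  unfold zq
  rw [eeS_alt, eeS_alt, ee0, ← Alt_mul, ← mul_Alt, ← Alt_add, ← Alt_add, ← Alt_sub]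
  exact key

end Pool.Agent.MalP
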