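import Pool.Agent.MalP.P7.ZDefs
import Pool.Agent.MalP.CTot
import Pool.Agent.MalP.CPhi

/-! # p = 7: multilinearity and skewness of `zz`, all characteristics -/

set_option autoImplicit false

namespace Pool.Agent.MalP

universe u v

variable (F : Type u) [Field F] {A : Type v} [NonUnitalNonAssocRing A] [Module F A]
  [IsScalarTower F A A] [SMulCommClass F A A]

open CTotAux

/-- `zz` as a multilinear map of its eight arguments (alternating in 0..4, skew in 5, 6) -/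
noncomputable def zzM : MultilinearMap F (fun _ : Fin 8 => A) A where
  toFun := fun x => zz F (x 0) (x 1) (x 2) (x 3) (x 4) (x 5) (x 6) (x 7)
  map_update_add' := by
    intro inst m i a b
    have h : inst = instDecidableEqFin 8 := Subsingleton.elim _ _
    subst h
    fin_cases i <;>
    · simp [zz, add_mul, mul_add, sub_mul, ee_add0, add1, add2, add3, ee_add4, ee_addy]
      try abel
  map_update_smul' := by
    intro inst m i c a
    have h : inst = instDecidableEqFin 8 := Subsingleton.elim _ _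
    subst h
    fin_cases i <;>
    · simp [zz, smul_mul_assoc, mul_smul_comm, ee_smul0, smul1, smul2, smul3, ee_smul4, ee_smuly,
        smul_add, smul_sub, add_mul, sub_mul]

theorem zzM_apply (x : Fin 8 → A) :
    zzM F x = zz F (x 0) (x 1) (x 2) (x 3) (x 4) (x 5) (x 6) (x 7) := by
  simp only [zzM, MultilinearMap.coe_mk]

theorem zz_s01 (x0 x1 x2 x3 x4 u v c : A) :
    zz F x1 x0 x2 x3 x4 u v c = - zz F x0 x1 x2 x3 x4 u v c := by
  unfold zz
  rw [ee_sw0 F x0 x1 x2 x3 x4 (u * v), ee_sw0 F x0 x1 x2 x3 x4 v, ee_sw0 F x0 x1 x2 x3 x4 u]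
  simp only [neg_mul, add_mul, sub_mul]
  abel

theorem zz_s12 (x0 x1 x2 x3 x4 u v c : A) :
    zz F x0 x2 x1 x3 x4 u v c = - zz F x0 x1 x2 x3 x4 u v c := by
  unfold zz
  rw [ee_sw1 F x0 x1 x2 x3 x4 (u * v), ee_sw1 F x0 x1 x2 x3 x4 v, ee_sw1 F x0 x1 x2 x3 x4 u]
  simp only [neg_mul, add_mul, sub_mul]
  abel

theorem zz_s23 (x0 x1 x2 x3 x4 u v c : A) :
    zz F x0 x1 x3 x2 x4 u v c = - zz F x0 x1 x2 x3 x4 u v c := by
  unfold zz
  rw [ee_sw2 F x0 x1 x2 x3 x4 (u * v), ee_sw2 F x0 x1 x2 x3 x4 v, ee_sw2 F x0 x1 x2 x3 x4 u]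
  simp only [neg_mul, add_mul, sub_mul]
  abel

theorem zz_s34 (x0 x1 x2 x3 x4 u v c : A) :
    zz F x0 x1 x2 x4 x3 u v c = - zz F x0 x1 x2 x3 x4 u v c := by
  unfold zz
  rw [ee_sw3 F x0 x1 x2 x3 x4 (u * v), ee_sw3 F x0 x1 x2 x3 x4 v, ee_sw3 F x0 x1 x2 x3 x4 u]
  simp only [neg_mul, add_mul, sub_mul]
  abel

theorem zz_suv (h : IsMalcev A) (x0 x1 x2 x3 x4 u v c : A) :
    zz F x0 x1 x2 x3 x4 v u c = - zz F x0 x1 x2 x3 x4 u v c := by
  unfold zz
  rw [anti h u v, negy]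
  simp only [neg_mul, add_mul, sub_mul]
  abel

theorem zz_uu (h : IsMalcev A) (x0 x1 x2 x3 x4 u c : A) :
    zz F x0 x1 x2 x3 x4 u u c = 0 := by
  unfold zz
  have h0 : ee F x0 x1 x2 x3 x4 (0 : A) = 0 := by
    unfold ee
    rw [map_zero]
  rw [h.sq, h0, zero_sub, neg_add_cancel, zero_mul]

theorem zz_hom {B : Type v} [NonUnitalNonAssocRing B] [Module F B] [IsScalarTower F B B]
    [SMulCommClass F B B] (f : A →ₙₐ[F] B) (x0 x1 x2 x3 x4 u v c : A) :
    f (zz F x0 x1 x2 x3 x4 u v c) = zz F (f x0) (f x1) (f x2) (f x3) (f x4) (f u) (f v) (f c) := by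
  unfold zz
  simp only [map_mul, map_add, map_sub, hom_ee]

/-! additivity in the last four arguments -/

theorem zz_add5 (x0 x1 x2 x3 x4 u u' v c : A) : zz F x0 x1 x2 x3 x4 (u + u') v c =
    zz F x0 x1 x2 x3 x4 u v c + zz F x0 x1 x2 x3 x4 u' v c := by
  unfold zz
  simp only [add_mul, mul_add, sub_mul, ee_addy]
  abel

theorem zz_add6 (x0 x1 x2 x3 x4 u v v' c : A) : zz F x0 x1 x2 x3 x4 u (v + v') c =
    zz F x0 x1 x2 x3 x4 u v c + zz F x0 x1 x2 x3 x4 u v' c := by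
  unfold zz
  simp only [add_mul, mul_add, sub_mul, ee_addy]
  abel

theorem zz_add7 (x0 x1 x2 x3 x4 u v c c' : A) : zz F x0 x1 x2 x3 x4 u v (c + c') =
    zz F x0 x1 x2 x3 x4 u v c + zz F x0 x1 x2 x3 x4 u v c' := by
  unfold zz
  rw [mul_add]

theorem zz_add0 (x x' x1 x2 x3 x4 u v c : A) : zz F (x + x') x1 x2 x3 x4 u v c =
    zz F x x1 x2 x3 x4 u v c + zz F x' x1 x2 x3 x4 u v c := by
  unfold zz
  simp only [add_mul, sub_mul, ee_add0]
  abel

end Pool.Agent.MalP
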