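import Pool.Agent.MalP.P7.Base7
import Pool.Agent.MalP.P7.ZAdd
import Pool.Agent.MalP.TSMal

/-! # p = 7: `zz` vanishes on products and is annihilated by everything -/

set_option autoImplicit false
set_option linter.unusedSectionVars false
set_option linter.unusedSimpArgs false

namespace Pool.Agent.MalP

universe u v

namespace ZFinAux

/-- linear algebra on the 24 values -/
theorem lin24 (F : Type u) [Field F] [C23 F] {B M : Type v} [AddCommGroup M] [Module F M]
    (g : B → B → B → B → M)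
    (sk : ∀ a b c d, g b a c d = - g a b c d)
    (R1 : ∀ a b c d, g a b c d + g b c a d + g c a b d = 0)
    (C1 : ∀ y1 y2 w1 w2, g y1 w1 y2 w2 + g y2 w1 y1 w2 + g y1 w2 y2 w1 + g y2 w2 y1 w1 = 0)
    (C2 : ∀ u v w d, g u v w d + g v d w u + g d u w v = 0) (u v c d : B) :
    g u v c d = 0 := by
  have hs := fun a b c d => eq_neg_iff_add_eq_zero.1 (sk a b c d)
  have key : (24 : F) • g u v c d = 0 := by
    linear_combination (norm := module) (5 : F) • hs v u c d + (1 : F) • hs v u d c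
      - (3 : F) • hs u c v d - (5 : F) • hs v c u d - (1 : F) • hs d c u v + (1 : F) • hs d c v u
      - (5 : F) • hs u d c v + (2 : F) • hs v d u c - (1 : F) • hs v d c u
      + (1 : F) • R1 v c d u - (1 : F) • R1 u c d v - (2 : F) • R1 u v d c + (8 : F) • R1 u v c d
      + (5 : F) • C1 u c v d + (1 : F) • C1 u d v c - (5 : F) • C1 v c u d - (1 : F) • C1 v d u c
      - (3 : F) • C2 v c u d + (3 : F) • C2 u c v d + (6 : F) • C2 u v c d
  exact (smul_eq_zero.1 key).resolve_left (C23.n24 F)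

end ZFinAux

section

variable (F : Type u) [Field F] [C23 F] {A : Type v} [NonUnitalNonAssocRing A] [Module F A]
  [IsScalarTower F A A] [SMulCommClass F A A]

/-- polarisation of (C1) -/
private theorem C1_pol (h7 : (7 : F) = 0) (h : IsMalcev A) (x0 x1 x2 x3 x4 y1 y2 w1 w2 : A) :
    zz F x0 x1 x2 x3 x4 y1 w1 y2 * w2 + zz F x0 x1 x2 x3 x4 y2 w1 y1 * w2 +
      zz F x0 x1 x2 x3 x4 y1 w2 y2 * w1 + zz F x0 x1 x2 x3 x4 y2 w2 y1 * w1 = 0 := by
  have a11 := zz_C1 F h7 h x0 x1 x2 x3 x4 y1 w1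
  have a12 := zz_C1 F h7 h x0 x1 x2 x3 x4 y1 w2
  have a21 := zz_C1 F h7 h x0 x1 x2 x3 x4 y2 w1
  have a22 := zz_C1 F h7 h x0 x1 x2 x3 x4 y2 w2
  have b1 := zz_C1 F h7 h x0 x1 x2 x3 x4 (y1 + y2) w1
  have b2 := zz_C1 F h7 h x0 x1 x2 x3 x4 (y1 + y2) w2
  have c1 := zz_C1 F h7 h x0 x1 x2 x3 x4 y1 (w1 + w2)
  have c2 := zz_C1 F h7 h x0 x1 x2 x3 x4 y2 (w1 + w2)
  have e := zz_C1 F h7 h x0 x1 x2 x3 x4 (y1 + y2) (w1 + w2)
  simp only [zz_add5, zz_add6, zz_add7, add_mul, mul_add] at a11 a12 a21 a22 b1 b2 c1 c2 e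
  linear_combination (norm := module) e - b1 - b2 - c1 - c2 + a11 + a12 + a21 + a22

/-- From `zz_R1`, `zz_C1`, `zz_C2` (a statement on the 24 values `zz (X; y σ0, y σ1; y σ2) * y σ3`): skew in the first two, cyclic
sum of the first three zero, `g y w y w = 0` polarised, alternating sum over the places 0, 1, 3 zero. -/
theorem zz_mul7 (h7 : (7 : F) = 0) (h : IsMalcev A) (x0 x1 x2 x3 x4 u v c d : A) :
    zz F x0 x1 x2 x3 x4 u v c * d = 0 := by
  refine ZFinAux.lin24 F (fun a b c d => zz F x0 x1 x2 x3 x4 a b c * d) ?_ ?_ ?_ ?_ u v c d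
  · intro a b c d
    show zz F x0 x1 x2 x3 x4 b a c * d = - (zz F x0 x1 x2 x3 x4 a b c * d)
    rw [zz_suv F h, neg_mul]
  · intro a b c d
    show zz F x0 x1 x2 x3 x4 a b c * d + zz F x0 x1 x2 x3 x4 b c a * d +
      zz F x0 x1 x2 x3 x4 c a b * d = 0
    rw [← add_mul, ← add_mul, zz_R1 F h7 h, zero_mul]
  · intro y1 y2 w1 w2
    exact C1_pol F h7 h x0 x1 x2 x3 x4 y1 y2 w1 w2
  · intro u v w d
    exact zz_C2 F h7 h x0 x1 x2 x3 x4 u v d w

/-- `D(X; u | v, c)`: from R1, `3 zz (X; u, v; c) = D(X; u | v, c) - D(X; v | u, c)` -/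
noncomputable def zD (x0 x1 x2 x3 x4 u v c : A) : A :=
  zz F x0 x1 x2 x3 x4 u v c + zz F x0 x1 x2 x3 x4 u c v

theorem three_zz (h7 : (7 : F) = 0) (h : IsMalcev A) (x0 x1 x2 x3 x4 u v c : A) :
    3 • zz F x0 x1 x2 x3 x4 u v c = zD F x0 x1 x2 x3 x4 u v c - zD F x0 x1 x2 x3 x4 v u c := by
  unfold zD
  have h1 := zz_R1 F h7 h x0 x1 x2 x3 x4 u v c
  have h2 := zz_suv F h x0 x1 x2 x3 x4 u v c
  have h3 := zz_suv F h x0 x1 x2 x3 x4 u c v
  linear_combination (norm := module) h1 + h2 - h3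

/-- polarisation of `zz_R2` -/
theorem zD_cyc (h7 : (7 : F) = 0) (h : IsMalcev A) (x0 x1 x2 x3 y1 y2 y3 u : A) :
    zD F y1 x0 x1 x2 x3 u y2 y3 + zD F y2 x0 x1 x2 x3 u y3 y1 + zD F y3 x0 x1 x2 x3 u y1 y2 = 0 := by
  unfold zD
  have a1 := zz_R2 F h7 h x0 x1 x2 x3 y1 u
  have a2 := zz_R2 F h7 h x0 x1 x2 x3 y2 u
  have a3 := zz_R2 F h7 h x0 x1 x2 x3 y3 u
  have b1 := zz_R2 F h7 h x0 x1 x2 x3 (y2 + y3) u
  have b2 := zz_R2 F h7 h x0 x1 x2 x3 (y1 + y3) u
  have b3 := zz_R2 F h7 h x0 x1 x2 x3 (y1 + y2) u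
  have e := zz_R2 F h7 h x0 x1 x2 x3 (y1 + y2 + y3) u
  simp only [zz_add0, zz_add6, zz_add7] at a1 a2 a3 b1 b2 b3 e
  linear_combination (norm := module) e - b1 - b2 - b3 + a1 + a2 + a3

/-- moving the argument `y` out of the first five (used by helper52 for the averaging) -/
theorem three_zz_move (h7 : (7 : F) = 0) (h : IsMalcev A) (y x0 x1 x2 x3 u v c : A) :
    3 • zz F y x0 x1 x2 x3 u v c =
      - zD F v x0 x1 x2 x3 u c y - zD F c x0 x1 x2 x3 u y v
      + zD F u x0 x1 x2 x3 v c y + zD F c x0 x1 x2 x3 v y u := by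
  have h1 := three_zz F h7 h y x0 x1 x2 x3 u v c
  have h2 := zD_cyc F h7 h x0 x1 x2 x3 y v c u
  have h3 := zD_cyc F h7 h x0 x1 x2 x3 y u c v
  linear_combination (norm := module) h1 + h2 - h3

end

section TSpart

variable (F : Type u) [Field F] [C23 F] {A : Type u} [NonUnitalNonAssocRing A] [Module F A]
  [IsScalarTower F A A] [SMulCommClass F A A]

/-- the inclusion of `A` as a homomorphism -/
private noncomputable def inbH : A →ₙₐ[F] TS F A where
  toFun := TS.inb F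
  map_smul' := by
    intro c a
    ext v
    · rfl
    · show (0 : F) = c • (0 : F)
      rw [smul_zero]
  map_zero' := rfl
  map_add' := by
    intro a b
    ext v
    · rfl
    · show (0 : F) = (0 : F) + 0
      rw [add_zero]
  map_mul' := TS.inb_mul

private theorem inbH_apply (a : A) : inbH F a = TS.inb F a := rfl

/-- evaluation of the second component, additive -/
private noncomputable def evlT (v : A) : TS F A →+ F where
  toFun := fun x => x.l v
  map_zero' := rfl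
  map_add' := fun _ _ => rfl

/-- first component, additive -/
private noncomputable def evbT : TS F A →+ A where
  toFun := fun x => x.b
  map_zero' := rfl
  map_add' := fun _ _ => rfl

private theorem sum_lT {ι : Type*} (s : Finset ι) (f : ι → TS F A) (v : A) :
    (∑ i ∈ s, f i).l v = ∑ i ∈ s, (f i).l v := map_sum (evlT F v) f s

private theorem sum_bT {ι : Type*} (s : Finset ι) (f : ι → TS F A) :
    (∑ i ∈ s, f i).b = ∑ i ∈ s, (f i).b := map_sum (evbT F) f s

private theorem zsmul_lT (n : ℤ) (x : TS F A) (v : A) : (n • x).l v = n • x.l v :=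
  map_zsmul (evlT F v) n x

private theorem zsmul_bT (n : ℤ) (x : TS F A) : (n • x).b = n • x.b :=
  map_zsmul (evbT F) n x

private theorem nsmul_lT (n : ℕ) (x : TS F A) (v : A) : (n • x).l v = n • x.l v :=
  map_nsmul (evlT F v) n x

private theorem nsmul_bT (n : ℕ) (x : TS F A) : (n • x).b = n • x.b :=
  map_nsmul (evbT F) n x

private theorem sub_lT (x y : TS F A) (v : A) : (x - y).l v = x.l v - y.l v :=
  map_sub (evlT F v) x y

private theorem sub_bT (x y : TS F A) : (x - y).b = x.b - y.b :=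
  map_sub (evbT F) x y

/-- linear functionals separate points -/
private theorem eq_zero_of_dual {a : A} (h : ∀ l : A →ₗ[F] F, l a = 0) : a = 0 :=
  (Module.forall_dual_apply_eq_zero_iff F a).1 h

/-- `pe` with the last argument in the dual -/
private theorem pe_inl (x : Fin 5 → A) (l : A →ₗ[F] F) :
    (pe (fun i => TS.inb F (x i)) (TS.inl l)).b = 0 ∧
    ∀ s, (pe (fun i => TS.inb F (x i)) (TS.inl l)).l s = l (peS x s) := by
  have ib : ∀ a : A, (TS.inb F a).b = a := fun _ => rfl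
  have il : ∀ a : A, (TS.inb F a).l = 0 := fun _ => rfl
  have jb : (TS.inl l : TS F A).b = 0 := rfl
  have jl : (TS.inl l : TS F A).l = l := rfl
  constructor
  · unfold pe
    simp only [TS.add_b, sub_bT, nsmul_bT, TS.mul_b, ib, jb, mul_zero, zero_mul, smul_zero,
      add_zero, sub_zero]
  · intro s
    unfold pe peS
    simp only [TS.add_l, LinearMap.add_apply, sub_lT, nsmul_lT, TS.mul_l_apply, TS.mul_b, ib, il,
      jb, jl, mul_zero, zero_mul, smul_zero, add_zero, sub_zero, LinearMap.zero_apply, neg_zero,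
      zero_add, neg_neg, map_add, map_sub, map_nsmul]
    simp only [nsmul_eq_mul]
    push_cast
    ring

/-- `ee` with the last argument in the dual -/
private theorem ee_inl (x0 x1 x2 x3 x4 : A) (l : A →ₗ[F] F) :
    ee F (TS.inb F x0) (TS.inb F x1) (TS.inb F x2) (TS.inb F x3) (TS.inb F x4) (TS.inl l) =
      TS.inl (l ∘ₗ eSL F ![x0, x1, x2, x3, x4]) := by
  have hv : (![TS.inb F x0, TS.inb F x1, TS.inb F x2, TS.inb F x3, TS.inb F x4] :
      Fin 5 → TS F A) = fun i => TS.inb F ((![x0, x1, x2, x3, x4] : Fin 5 → A) i) := by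
    funext i; fin_cases i <;> rfl
  unfold ee
  rw [hv, eL_apply]
  ext s
  · rw [sum_bT]
    show _ = (0 : A)
    refine Finset.sum_eq_zero fun σ _ => ?_
    rw [Units.smul_def, zsmul_bT]
    have := (pe_inl F ((![x0, x1, x2, x3, x4] : Fin 5 → A) ∘ σ) l).1
    rw [show ((fun i => TS.inb F ((![x0, x1, x2, x3, x4] : Fin 5 → A) i)) ∘ σ) =
      (fun i => TS.inb F (((![x0, x1, x2, x3, x4] : Fin 5 → A) ∘ σ) i)) from rfl, this, smul_zero]
  · rw [sum_lT]
    show _ = l (eSL F ![x0, x1, x2, x3, x4] s)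
    rw [eSL_apply, map_sum]
    refine Finset.sum_congr rfl fun σ _ => ?_
    rw [Units.smul_def, Units.smul_def, zsmul_lT, map_zsmul]
    congr 1
    exact (pe_inl F ((![x0, x1, x2, x3, x4] : Fin 5 → A) ∘ σ) l).2 s

/-- T*-extension, place 7: `zz_mul` for `TS F A` with `c = inl l` evaluated at `a`:
`(zz (inb X) (inb u) (inb v) (inl l) * inb b).l a = l (zz X u v (a * b))` up to sign -/
theorem zz_prod7 (h7 : (7 : F) = 0) (h : IsMalcev A) (x0 x1 x2 x3 x4 u v a b : A) :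
    zz F x0 x1 x2 x3 x4 u v (a * b) = 0 := by
  apply eq_zero_of_dual F
  intro l
  have hz := zz_mul7 F h7 (TS.isMalcev (F := F) h) (TS.inb F x0) (TS.inb F x1) (TS.inb F x2)
    (TS.inb F x3) (TS.inb F x4) (TS.inb F u) (TS.inb F v) (TS.inl l) (TS.inb F b)
  have hP : zz F (TS.inb F x0) (TS.inb F x1) (TS.inb F x2) (TS.inb F x3) (TS.inb F x4)
      (TS.inb F u) (TS.inb F v) (TS.inl l) =
      TS.inb F (ee F x0 x1 x2 x3 x4 (u * v) - ee F x0 x1 x2 x3 x4 v * u +
        ee F x0 x1 x2 x3 x4 u * v) * TS.inl l := by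
    unfold zz
    congr 1
    have e1 := hom_ee F (inbH F) x0 x1 x2 x3 x4 (u * v)
    have e2 := hom_ee F (inbH F) x0 x1 x2 x3 x4 v
    have e3 := hom_ee F (inbH F) x0 x1 x2 x3 x4 u
    simp only [inbH_apply, TS.inb_mul] at e1 e2 e3
    rw [← e1, ← e2, ← e3, ← TS.inb_mul, ← TS.inb_mul, ← inbH_apply, ← inbH_apply, ← inbH_apply,
      ← map_sub, ← inbH_apply, ← map_add]
  rw [hP] at hz
  have h1 := congrArg (fun t : TS F A => t.l a) hz
  change - (-(0 : F) + l ((a * b) * (ee F x0 x1 x2 x3 x4 (u * v) - ee F x0 x1 x2 x3 x4 v * u +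
        ee F x0 x1 x2 x3 x4 u * v))) + (0 : F) = 0 at h1
  unfold zz
  rw [CTotAux.anti h (a * b), map_neg]
  linear_combination h1

private theorem zz_pqr {B : Type u} [NonUnitalNonAssocRing B] [Module F B]
    [IsScalarTower F B B] [SMulCommClass F B B] (x0 x1 x2 x3 x4 u v c d p q r : B)
    (hz : zz F x0 x1 x2 x3 x4 u v c * d = 0) (hp : ee F x0 x1 x2 x3 x4 (u * v) = p)
    (hq : ee F x0 x1 x2 x3 x4 v = q) (hr : ee F x0 x1 x2 x3 x4 u = r) :
    (p - q * u + r * v) * c * d = 0 := by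
  subst hp
  subst hq
  subst hr
  exact hz

/-- T*-extension, place 5: `(zz (inb X) (inl l) (inb v) (inb c) * inb b).l a = ± l (zq X (a * b) v c)` -/
theorem zq_prod (h7 : (7 : F) = 0) (h : IsMalcev A) (x0 x1 x2 x3 x4 v c a b : A) :
    zq F x0 x1 x2 x3 x4 (a * b) v c = 0 := by
  apply eq_zero_of_dual F
  intro l
  have hz := zz_mul7 F h7 (TS.isMalcev (F := F) h) (TS.inb F x0) (TS.inb F x1) (TS.inb F x2)
    (TS.inb F x3) (TS.inb F x4) (TS.inl l) (TS.inb F v) (TS.inb F c) (TS.inb F b)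
  have hm : (TS.inl l : TS F A) * TS.inb F v = TS.inl (-(l ∘ₗ LinearMap.mulRight F v)) := by
    ext s
    · show (0 : A) * v = 0
      rw [zero_mul]
    · show - l (s * v) + (0 : F) = - l (s * v)
      rw [add_zero]
  have hE : ee F (TS.inb F x0) (TS.inb F x1) (TS.inb F x2) (TS.inb F x3) (TS.inb F x4)
      (TS.inb F v) = TS.inb F (ee F x0 x1 x2 x3 x4 v) := by
    have e2 := hom_ee F (inbH F) x0 x1 x2 x3 x4 v
    simp only [inbH_apply] at e2
    exact e2.symm
  have hz3 := zz_pqr F _ _ _ _ _ _ _ _ _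
    (TS.inl ((-(l ∘ₗ LinearMap.mulRight F v)) ∘ₗ eSL F ![x0, x1, x2, x3, x4]))
    (TS.inb F (ee F x0 x1 x2 x3 x4 v)) (TS.inl (l ∘ₗ eSL F ![x0, x1, x2, x3, x4])) hz
    ((congrArg (fun t => ee F (TS.inb F x0) (TS.inb F x1) (TS.inb F x2) (TS.inb F x3)
      (TS.inb F x4) t) hm).trans (ee_inl F x0 x1 x2 x3 x4 (-(l ∘ₗ LinearMap.mulRight F v)))) hE
    (ee_inl F x0 x1 x2 x3 x4 l)
  have h1 := congrArg (fun t : TS F A => t.l a) hz3
  unfold zq
  rw [map_add, map_add]
  have ib : ∀ a : A, (TS.inb F a).b = a := fun _ => rfl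
  have il : ∀ a s : A, (TS.inb F a).l s = 0 := fun _ _ => rfl
  have jb : ∀ l : A →ₗ[F] F, (TS.inl l : TS F A).b = 0 := fun _ => rfl
  have jl : ∀ (l : A →ₗ[F] F) (s : A), (TS.inl l : TS F A).l s = l s := fun _ _ => rfl
  simp only [TS.mul_l_apply, TS.add_l, sub_lT, LinearMap.add_apply, TS.mul_b, TS.add_b, sub_bT,
    ib, il, jb, jl, LinearMap.comp_apply, LinearMap.neg_apply, LinearMap.mulRight_apply,
    TS.zero_l, LinearMap.zero_apply, mul_zero, zero_mul, neg_zero, add_zero, zero_add, sub_zero,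
    map_zero, neg_neg] at h1
  unfold eeS
  linear_combination -h1

/-- from `zz_D`, `zq_prod` (polarise), `zz_R1`, `zz_prod7` -/
theorem zz_prod5 (h7 : (7 : F) = 0) (h : IsMalcev A) (x0 x1 x2 x3 x4 v c a b : A) :
    zz F x0 x1 x2 x3 x4 (a * b) v c = 0 := by
  have hD : ∀ y : A, zz F x0 x1 x2 x3 x4 (a * b) y y = 0 := by
    intro y
    rw [zz_D F h7 h, zq_prod F h7 h]
  have h1 := hD (v + c)
  have h2 := hD v
  have h3 := hD c
  simp only [zz_add6, zz_add7] at h1
  have h4 := zz_R1 F h7 h x0 x1 x2 x3 x4 (a * b) v c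
  have h5 := zz_prod7 F h7 h x0 x1 x2 x3 x4 v c a b
  have h6 := zz_suv F h x0 x1 x2 x3 x4 (a * b) c v
  have key : (2 : F) • zz F x0 x1 x2 x3 x4 (a * b) v c = 0 := by
    linear_combination (norm := module) h1 - h2 - h3 + h4 - h5 - h6
  exact (smul_eq_zero.1 key).resolve_left C23.two

theorem zz_prod6 (h7 : (7 : F) = 0) (h : IsMalcev A) (x0 x1 x2 x3 x4 v c a b : A) :
    zz F x0 x1 x2 x3 x4 v (a * b) c = 0 := by
  rw [zz_suv F h x0 x1 x2 x3 x4 (a * b) v c, zz_prod5 F h7 h, neg_zero]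

/-- from `three_zz_move`, `zz_prod5`, `zz_prod7` -/
theorem zz_prod0 (h7 : (7 : F) = 0) (h : IsMalcev A) (x1 x2 x3 x4 u v c a b : A) :
    zz F (a * b) x1 x2 x3 x4 u v c = 0 := by
  have h1 := three_zz_move F h7 h (a * b) x1 x2 x3 x4 u v c
  unfold zD at h1
  simp only [zz_prod7 F h7 h, zz_prod6 F h7 h, add_zero, neg_zero, sub_zero] at h1
  have key : (3 : F) • zz F (a * b) x1 x2 x3 x4 u v c = 0 := by
    rw [← h1]
    module
  exact (smul_eq_zero.1 key).resolve_left C23.three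

/-- all places -/
theorem zzM_prod (h7 : (7 : F) = 0) (h : IsMalcev A) (x : Fin 8 → A) (i : Fin 8) (a b : A)
    (hi : x i = a * b) : zzM F x = 0 := by
  rw [zzM_apply]
  fin_cases i
  · change x 0 = a * b at hi
    rw [hi, zz_prod0 F h7 h]
  · change x 1 = a * b at hi
    rw [hi, zz_s01, zz_prod0 F h7 h, neg_zero]
  · change x 2 = a * b at hi
    rw [hi, zz_s12, zz_s01, zz_prod0 F h7 h, neg_zero, neg_zero]
  · change x 3 = a * b at hi
    rw [hi, zz_s23, zz_s12, zz_s01, zz_prod0 F h7 h, neg_zero, neg_zero, neg_zero]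
  · change x 4 = a * b at hi
    rw [hi, zz_s34, zz_s23, zz_s12, zz_s01, zz_prod0 F h7 h, neg_zero, neg_zero, neg_zero,
      neg_zero]
  · change x 5 = a * b at hi
    rw [hi, zz_prod5 F h7 h]
  · change x 6 = a * b at hi
    rw [hi, zz_prod6 F h7 h]
  · change x 7 = a * b at hi
    rw [hi, zz_prod7 F h7 h]

end TSpart

end Pool.Agent.MalP
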